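import Pool.Agent.Lib.MP_4ea4c7_an.Defs

/-!
# Statements, part 1: weak derivatives, Cauchy transform, L² theory

Paper: /team-store/MP_4ea4c7_paper.md.  Every `S_xx : Prop` is one piece; the pieces it needs are hypotheses of the theorem to be proved
(see the request). Complete informal proofs are in the docstrings.
-/

open MeasureTheory Complex Metric Set Filter Topology
open scoped ComplexConjugate ENNReal NNReal

namespace Cal

noncomputable section

/-! ## A. Weak derivatives -/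

/-- [A0] Radial mollifiers. `ρ n z = c_n * h ((n+1)^2 * ‖z‖^2)` with a smooth bump `h` of one real variable (e.g. `h t = Real.smoothTransition (1 - t)`,
so `ρ n z = 0` for `‖z‖ ≥ 1/(n+1)`), `c_n` the normalising constant. Smoothness of `mol (ρ n) g`: `HasCompactSupport.contDiff_convolution_left/right`
(`mol ρ g` is the convolution `ρ ⋆ g`). `‖mol ρ g‖₂ ≤ ‖g‖₂`: Cauchy-Schwarz/Jensen `|mol ρ g z|² ≤ ∫ ρ(z-ζ)|g ζ|² dζ` and Fubini. `L²` convergence: true for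
continuous compactly supported `g` (uniform continuity), these are dense in `L²` (`MemLp.exists_hasCompactSupport_eLpNorm_sub_le`), and the maps
`g ↦ mol (ρ n) g - g` are bounded by `2` uniformly in `n`. -/
def S_bump : Prop := ∃ ρ : ℕ → ℂ → ℝ,
  (∀ n, ContDiff ℝ (⊤ : ℕ∞) (ρ n)) ∧ (∀ n z, 0 ≤ ρ n z) ∧ (∀ (n : ℕ) (z : ℂ), 1 / ((n : ℝ) + 1) ≤ ‖z‖ → ρ n z = 0) ∧
  (∀ n, ∫ z, ρ n z = 1) ∧ (∀ (n : ℕ) (z w : ℂ), ‖z‖ = ‖w‖ → ρ n z = ρ n w) ∧
  (∀ g : ℂ → ℂ, LocallyIntegrable g volume → ∀ n, ContDiff ℝ (⊤ : ℕ∞) (mol (ρ n) g)) ∧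
  (∀ g : ℂ → ℂ, MemLp g 2 volume →
    (∀ n, MemLp (mol (ρ n) g) 2 volume ∧ eLpNorm (mol (ρ n) g) 2 volume ≤ eLpNorm g 2 volume) ∧
    Tendsto (fun n => eLpNorm (fun z => mol (ρ n) g z - g z) 2 volume) atTop (𝓝 0)) ∧
  (∀ g : ℂ → ℂ, Continuous g → ∀ K : Set ℂ, IsCompact K → TendstoUniformlyOn (fun n => mol (ρ n) g) g atTop K)

/-- [A1] Local approximation of weakly differentiable functions by smooth ones. Proof: choose a smooth cutoff `χ` with compact support in `U`, `χ = 1` near `K`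
(say on the `δ`-neighbourhood of `K`), and `F n = mol (ρ (n + n₀)) (χ f)` with `1/(n₀+1) < δ` (`S_bump`). For `z ∈ K` the function
`φ ζ = ρ_n (z - ζ)` is a test function supported where `χ = 1`, and `dz (F n) z = ∫ (dz ρ_n)(z-ζ) f ζ = - ∫ f ζ dz φ ζ = ∫ A ζ ρ_n (z-ζ) = mol ρ_n (χ A) z`
(differentiation under the convolution integral; `dz φ ζ = - (dz ρ_n)(z - ζ)`), same for `db`. So on `K` the three `L²` convergences are those of `mol ρ_n (χ f)`, `mol ρ_n (χ A)`, `mol ρ_n (χ B)`.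
Continuous `f`: `χ f` is continuous on `ℂ` and the last part of `S_bump` applies. -/
def S_moll : Prop := ∀ (U : Set ℂ) (f A B : ℂ → ℂ), IsOpen U → WD U f A B → ∀ K, IsCompact K → K ⊆ U →
  ∃ F : ℕ → ℂ → ℂ, (∀ n, ContDiff ℝ (⊤ : ℕ∞) (F n)) ∧ (∀ n, HasCompactSupport (F n)) ∧
    Tendsto (fun n => eLpNorm (fun z => F n z - f z) 2 (volume.restrict K)) atTop (𝓝 0) ∧
    Tendsto (fun n => eLpNorm (fun z => dz (F n) z - A z) 2 (volume.restrict K)) atTop (𝓝 0) ∧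
    Tendsto (fun n => eLpNorm (fun z => db (F n) z - B z) 2 (volume.restrict K)) atTop (𝓝 0) ∧
    (ContinuousOn f U → TendstoUniformlyOn F f atTop K)

/-- [A2a] Elementary facts I. All are direct from the definition: (1) sums, (2) complex multiples, (3) complex conjugates (`dz (conj ∘ φ) = conj (db φ)`),
(4) change on null sets, (5) smaller sets, (6) reflection `z ↦ conj (f (conj z))` (`Complex.conjLIE` preserves volume). -/
def S_basic : Prop :=
  (∀ U f A B f' A' B', WD U f A B → WD U f' A' B' → WD U (fun z => f z + f' z) (fun z => A z + A' z) (fun z => B z + B' z)) ∧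
  (∀ U f A B (c : ℂ), WD U f A B → WD U (fun z => c * f z) (fun z => c * A z) (fun z => c * B z)) ∧
  (∀ U f A B, WD U f A B → WD U (fun z => conj (f z)) (fun z => conj (B z)) (fun z => conj (A z))) ∧
  (∀ U f A B f' A' B', MeasurableSet U → WD U f A B → f =ᵐ[volume.restrict U] f' → A =ᵐ[volume.restrict U] A' → B =ᵐ[volume.restrict U] B' → WD U f' A' B') ∧
  (∀ U V f A B, V ⊆ U → WD U f A B → WD V f A B) ∧
  (∀ U f A B, WD U f A B → WD {z | conj z ∈ U} (fun z => conj (f (conj z))) (fun z => conj (A (conj z))) (fun z => conj (B (conj z))))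

/-- [A2b] Elementary facts II: (1) classical `C¹` functions (integration by parts: `integral_mul_fderiv_eq_neg_fderiv_mul_of_integrable` or
`integral_bilinear_hasFDerivAt_right_eq_neg_left_of_integrable` applied to `f φ` extended by zero), (2) holomorphic functions (`dz f = deriv f`, `db f = 0`,
a special case of (1)), (3) product with a smooth function (`φ g`, extended by zero, is again a test function). -/
def S_smooth : Prop :=
  (∀ U f, IsOpen U → ContDiffOn ℝ 1 f U → WD U f (dz f) (db f)) ∧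
  (∀ U f, IsOpen U → DifferentiableOn ℂ f U → WD U f (deriv f) (fun _ => 0)) ∧
  (∀ U f A B g, IsOpen U → WD U f A B → ContDiffOn ℝ (⊤ : ℕ∞) g U →
    WD U (fun z => f z * g z) (fun z => A z * g z + f z * dz g z) (fun z => B z * g z + f z * db g z))

/-- [A3] Weak differentiability is local. Proof: `L2loc`: cover the compact set by finitely many compact pieces contained in the `V`'s. Integral identities:
smooth partition of unity on `tsupport φ` (`SmoothPartitionOfUnity` or an elementary one), `φ = ∑ χ_i φ`. -/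
def S_glue : Prop := ∀ (U : Set ℂ) (f A B : ℂ → ℂ), IsOpen U →
  (∀ z ∈ U, ∃ V, IsOpen V ∧ z ∈ V ∧ V ⊆ U ∧ WD V f A B) → WD U f A B

/-- [A4] Chain rule. Proof: let `φ` be a test function, `K = tsupport φ ⊆ U`, `K'` a compact neighbourhood of `K` in `U`; `F n` from `S_moll` for `K'`
(`F n → f` uniformly on `K'`, so `F n (K') ⊆` a compact subset `L` of `W` for large `n`). `G ∘ F n` is `C¹` near `K`, with the classical chain rule
`dz (G ∘ F) = (dz G)(F) dz F + (db G)(F) conj (db F)`, `db (G ∘ F) = (dz G)(F) db F + (db G)(F) conj (dz F)`; `∫ (G ∘ F n) dz φ = - ∫ dz (G ∘ F n) φ`;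
let `n → ∞`: `dz G`, `db G` are uniformly continuous and bounded on `L`, the derivatives of `F n` converge in `L²(K)`. -/
def S_chain : Prop := ∀ (U W : Set ℂ) (f A B G : ℂ → ℂ), IsOpen U → IsOpen W → WD U f A B → ContinuousOn f U → MapsTo f U W →
  ContDiffOn ℝ 1 G W →
  WD U (fun z => G (f z)) (fun z => dz G (f z) * A z + db G (f z) * conj (B z)) (fun z => dz G (f z) * B z + db G (f z) * conj (A z))

/-- [A5] Product rule for continuous functions. Proof: as for `S_chain`, with approximations `F n → f`, `F' n → f'` from `S_moll` on a compact neighbourhood of `tsupport φ`. -/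
def S_prod : Prop := ∀ (U : Set ℂ) (f A B f' A' B' : ℂ → ℂ), IsOpen U → WD U f A B → ContinuousOn f U → WD U f' A' B' → ContinuousOn f' U →
  WD U (fun z => f z * f' z) (fun z => A z * f' z + f z * A' z) (fun z => B z * f' z + f z * B' z)

/-- [A6] Weak derivatives are unique. Proof: `∫ (A - A') φ = 0` for all test functions in `U`: `IsOpen.ae_eq_zero_of_integral_contDiff_smul_eq_zero` or similar. -/
def S_wuniq : Prop := ∀ (U : Set ℂ) (f A B f' A' B' : ℂ → ℂ), IsOpen U → WD U f A B → WD U f' A' B' → f =ᵐ[volume.restrict U] f' →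
  A =ᵐ[volume.restrict U] A' ∧ B =ᵐ[volume.restrict U] B'

/-- [A7] Weyl's lemma. Proof: let `V` be a ball with closure in `U`, `δ` its distance to the complement of `U`. For `1/(n+1) < δ/2` the mollification `f_n = mol (ρ n) (χ f)` (`χ` a cutoff)
is smooth near `V` with `db f_n = 0` (differentiate the kernel, which is a test function), i.e. holomorphic near `V`. For holomorphic `h` and radial `ρ` the mean value property gives `mol ρ h = h`
on a smaller set; so `f_n = mol ρ_m f_n = mol ρ_n f_m = f_m` near `V` for all large `m, n` (convolution commutes: Fubini). As `f_n → f` in `L²(V)` (`S_bump`), `f = f_n` a.e. on `V`.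
Patch: two continuous functions that agree a.e. on an open set agree on it. -/
def S_weyl : Prop := ∀ (U : Set ℂ) (f : ℂ → ℂ), IsOpen U → L2loc U f → (∀ φ, TF U φ → ∫ z, f z * db φ z = 0) →
  (∃ g, DifferentiableOn ℂ g U ∧ f =ᵐ[volume.restrict U] g) ∧ (ContinuousOn f U → DifferentiableOn ℂ f U)

/-- [A8] Real functions. (1) real and imaginary part of `f = v + iu`: `∇v = 2 ∂v/∂z̄ = conj A + B`, `∇u = i (conj A - B)`; (2) conversely; (3) `C¹` functions; `gr φ = 2 db φ`. -/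
def S_bridge : Prop :=
  (∀ U f A B, WD U f A B → WG U (fun z => (f z).re) (fun z => conj (A z) + B z) ∧ WG U (fun z => (f z).im) (fun z => I * (conj (A z) - B z))) ∧
  (∀ U (u : ℂ → ℝ) G, WG U u G → WD U (fun z => (u z : ℂ)) (fun z => conj (G z) / 2) (fun z => G z / 2)) ∧
  (∀ U (u : ℂ → ℝ), IsOpen U → ContDiffOn ℝ 1 u U → WG U u (gr u)) ∧
  (∀ (φ : ℂ → ℝ) (z : ℂ), DifferentiableAt ℝ φ z → gr φ z = 2 * db (fun w => (φ w : ℂ)) z)

/-- [A9] The gradient vanishes a.e. on the zero set. Proof: `H_ε : ℝ → ℝ` smooth with `H_ε t = t` for `|t| ≤ ε/2`, `|H_ε| ≤ ε`, `H_ε' = 0` for `|t| ≥ 2ε`, `|H_ε'| ≤ 4`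
(`H_ε t = ε H_1 (t/ε)`). By the chain rule (`S_chain`, `S_bridge`) the weak gradient of `H_ε(u)` is `H_ε'(u) G`. For a test function, `∫ H_ε(u) gr φ → 0` and
`∫ H_ε'(u) G φ → ∫ 1_{u=0} G φ` (dominated convergence), so `1_{u=0} G = 0` a.e. in `Ω`. -/
def S_crit : Prop := ∀ (Ω : Set ℂ) (u : ℂ → ℝ) (G : ℂ → ℂ), IsOpen Ω → WG Ω u G → ContinuousOn u Ω →
  ∀ᵐ z ∂(volume.restrict Ω), u z = 0 → G z = 0

/-- [A10] `∫ ∇a × ∇b = 0`. Proof: `G = 0` a.e. off `tsupport a` (`S_wuniq` on the complement). Approximate `b` by smooth `b_n` on a compact neighbourhood `K` of `tsupport a`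
(`S_moll`, `S_bridge`): `∫ cr G (gr b_n) = ∫ (a_x ∂_y b_n - a_y ∂_x b_n) = - ∫ a (∂_x ∂_y b_n - ∂_y ∂_x b_n) = 0`, by the definition of the weak gradient with the test functions
`χ ∂_y b_n`, `χ ∂_x b_n`, `χ = 1` near `tsupport a`. Let `n → ∞`. -/
def S_wedge : Prop := ∀ (U : Set ℂ) (a b : ℂ → ℝ) (G H : ℂ → ℂ), IsOpen U → WG univ a G → HasCompactSupport a → tsupport a ⊆ U → WG U b H →
  Integrable (fun z => cr (G z) (H z)) volume ∧ ∫ z, cr (G z) (H z) = 0 ∧ ∀ᵐ z, z ∉ tsupport a → G z = 0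

/-! ## B. Cauchy transform -/

/-- [B1] Cauchy transform of test functions. Proof: `Ct w z = (1/π) ∫ w(z-ζ)/ζ dζ` (substitution), `1/ζ` is locally integrable, so `Ct w` is smooth with derivatives falling on `w`
(`HasCompactSupport.contDiff_convolution_left`, `HasCompactSupport.hasFDerivAt_convolution_left`). Decay: `|z - ζ| ≥ |z|/2` for `‖z‖` larger than twice the radius of the support; `Ct w` is continuous. -/
def S_C1 : Prop := ∀ w : ℂ → ℂ, TF univ w → ContDiff ℝ (⊤ : ℕ∞) (Ct w) ∧ (∀ z, db (Ct w) z = Ct (db w) z) ∧ (∀ z, dz (Ct w) z = Ct (dz w) z) ∧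
  ∃ C : ℝ, ∀ z, ‖Ct w z‖ ≤ C / (1 + ‖z‖)

/-- [B1'] Cauchy-Pompeiu. Proof: by translation (`ψ (z - ·)`), it says `ψ 0 = - (1/π) ∫ (db ψ)(ζ)/ζ dζ` for test functions. Polar coordinates `ζ = r e^{iθ}`: `db ψ = (e^{iθ}/2)(∂_r + (i/r) ∂_θ) ψ`, hence the integral is
`-(1/2π) ∫∫ ∂_r ψ dr dθ - (i/2π) ∫∫ (1/r) ∂_θ ψ dθ dr = ψ 0 - 0` (`Complex.integral_comp_polarCoord_symm`; integrate over `r > ε` first, the inner `θ` integral of a derivative of a periodic function is zero).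
Alternatively use the area version of Cauchy's theorem for rectangles/annuli in Mathlib (`Complex.integral_boundary_rect_of_hasFDerivAt_real_off_countable`). -/
def S_pomp : Prop := ∀ ψ : ℂ → ℂ, TF univ ψ → ∀ z, Ct (db ψ) z = ψ z

/-- [B2] The isometry for test functions. Proof: `h = Ct w`, `db h = w` (`S_C1`, `S_pomp`), `|dz h|² - |db h|² = dz (h * db h̄) - db (h * dz h̄)` where `h̄ = conj h` (`db h̄ = conj (dz h)`, `dz h̄ = conj (db h)`, mixed
second derivatives commute). Multiply by cutoffs `χ (z/R)` and integrate by parts: `|∫ χ_R (|dz h|² - |db h|²)| ≤ ∫ |∇χ_R| |h| |∇h| ≤ C R² (1/R)(1/R)(1/R) → 0`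
(`h` and its first derivatives `Ct (dz w)`, `w` are `O(1/|z|)` by `S_C1`). Monotone convergence gives `∫ |dz h|² = ∫ |w|²`. -/
def S_C2 : Prop := ∀ w : ℂ → ℂ, TF univ w → (∀ z, db (Ct w) z = w z) ∧ MemLp (dz (Ct w)) 2 volume ∧ eLpNorm (dz (Ct w)) 2 volume = eLpNorm w 2 volume

/-- [B3a] Bounds for the Cauchy transform of `L²` functions. Proof: kernel estimate (Cauchy-Schwarz) `|Ct w z|² ≤ (1/π²) ∫ |w ζ|²/|z-ζ| dζ · ∫_{|ζ| ≤ 5/4} dζ/|z-ζ|`, integrate over `|z| ≤ 2` (Tonelli): `‖Ct w‖_{L²} ≤ C ‖w‖₂`, the defining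
integral converges for a.e. `z`, and everywhere for `‖z‖ > 5/4`; pointwise bound for `‖z‖ ≥ 3/2` from `|z-ζ| ≥ |z|/6`. Holomorphy for `‖z‖ > 5/4`: differentiate under the integral (`hasDerivAt_integral_of_dominated_loc_of_deriv_le`).
Additivity holds wherever both integrals converge. (3), (4): substitution, no integrability needed. -/
def S_C3a : Prop := ∃ C : ℝ, 0 ≤ C ∧
  (∀ w : ℂ → ℂ, W2 w → 
    (∀ z, 3 / 2 ≤ ‖z‖ → ‖Ct w z‖ ≤ C * (eLpNorm w 2 volume).toReal / ‖z‖) ∧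
    MemLp (Ct w) 2 (volume.restrict (closedBall 0 2)) ∧
    eLpNorm (Ct w) 2 (volume.restrict (closedBall 0 2)) ≤ ENNReal.ofReal C * eLpNorm w 2 volume ∧
    DifferentiableOn ℂ (Ct w) {z | 5 / 4 < ‖z‖}) ∧
  (∀ w w' : ℂ → ℂ, W2 w → W2 w' → (∀ᵐ z, Ct (fun ζ => w ζ + w' ζ) z = Ct w z + Ct w' z) ∧
    ∀ z, 5 / 4 < ‖z‖ → Ct (fun ζ => w ζ + w' ζ) z = Ct w z + Ct w' z) ∧
  (∀ (w : ℂ → ℂ) (c z : ℂ), Ct (fun ζ => c * w ζ) z = c * Ct w z) ∧
  (∀ (w : ℂ → ℂ) (z : ℂ), Ct (fun ζ => conj (w (conj ζ))) z = conj (Ct w (conj z)))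

/-- [B3b] Weak derivatives of the Cauchy transform of `L²` functions. Proof: approximate `w` in `L²` by test functions `w_n`: `w_n = mol (ρ n) (w(·/s_n))`-type, or simply: first replace `w` by `w 1_{|z| < 5/4 - δ}`, then mollify (`S_bump`), so that the `w_n` vanish for `‖z‖ > 5/4`.
`dz (Ct w_n)` is Cauchy in `L²(ℂ)` (`S_C2` applied to `w_n - w_m`; `Ct` is additive by `S_C3a`); let `A` be its limit. `Ct w_n → Ct w` in `L²(closedBall 0 2)` and locally uniformly for `‖z‖ ≥ 3/2` (`S_C3a`), so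
the integral identities for `Ct w_n` (`S_smooth` (1), classical functions) pass to the limit. -/
def S_C3b : Prop := ∀ w : ℂ → ℂ, W2 w → ∃ A : ℂ → ℂ, MemLp A 2 volume ∧ WD univ (Ct w) A w ∧ eLpNorm A 2 volume = eLpNorm w 2 volume

/-- [B4] Cauchy transform of bounded functions. Proof: `∫_{|ζ| ≤ 5/4} dζ/|z-ζ| ≤ C/(1+|z|)`. Continuity: `|1/(z-ζ) - 1/(z'-ζ)| = |z-z'|/(|z-ζ||z'-ζ|)`, split at `|ζ-z| < 2|z-z'|`; or: dominated convergence after the
substitution `ζ → z - ζ` is not available for discontinuous `w`, so use: `Ct w` is the locally uniform limit of the continuous functions obtained by replacing the kernel `1/ζ` by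
`1/ζ` cut off to `|ζ| ≥ ε` in a continuous way (`ζ̄ / max(|ζ|², ε²)`). -/
def S_C4 : Prop := ∃ C : ℝ, 0 ≤ C ∧ ∀ (w : ℂ → ℂ) (M : ℝ), AEStronglyMeasurable w volume → (∀ z, ‖w z‖ ≤ M) → (∀ z, 5 / 4 < ‖z‖ → w z = 0) →
  Continuous (Ct w) ∧ (∀ z, ‖Ct w z‖ ≤ C * M / (1 + ‖z‖)) ∧ W2 w

/-- [B5] Integrability gain. (1) `L² → L⁴`: with weights `|z-ζ|^{-1} = |z-ζ|^{-1/4} |z-ζ|^{-3/4}`: `|Ct w z|² ≤ C ∫ |w|² |z-ζ|^{-1/2} dζ` (as `∫_{|ζ|≤5/4} |z-ζ|^{-3/2} ≤ C`), hence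
`|Ct w z|⁴ ≤ C ‖w‖₂² ∫ |w|² |z-ζ|^{-1} dζ` (Cauchy-Schwarz for the measure `|w|² dζ`), integrate over `closedBall 0 2`. (2) `L⁴ →` continuous: Hoelder with exponents `4, 4/3`: `∫_{|ζ-z|<ε} |w|/|z-ζ| ≤ ‖w‖₄ (∫_{|ζ|<ε} |ζ|^{-4/3})^{3/4}`,
so `Ct w` is a locally uniform limit of the continuous functions with truncated kernel `ζ̄ / max(|ζ|², ε²)`. -/
def S_C5 : Prop :=
  (∀ w : ℂ → ℂ, W2 w → MemLp (Ct w) 4 (volume.restrict (closedBall 0 2))) ∧
  (∀ w : ℂ → ℂ, MemLp w 4 volume → (∀ z, 5 / 4 < ‖z‖ → w z = 0) → Continuous (Ct w))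

/-- [B6] Uniqueness and isometry. Proof: `B` (changed on a null set to vanish outside the disc) is in `L²`; `h - Ct B` has weak `∂/∂z̄` zero on `ℂ`, so it is a.e. equal to an entire function `g` (`S_weyl`);
`|g| ≤ C/|z|` for a.e., hence (continuity) every `|z| ≥ 2` (`S_C3a`/`S_C3b`), so `g = 0` (Liouville: `Differentiable.apply_eq_of_tendsto_cocompact` or similar). By `S_wuniq` `A` is the function of `S_C3a`/`S_C3b`. -/
def S_uniq : Prop := ∀ h A B : ℂ → ℂ, WD univ h A B → (∀ᵐ z : ℂ, 5 / 4 < ‖z‖ → B z = 0) → Dec h →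
  (h =ᵐ[volume] Ct (fun z => if 5 / 4 < ‖z‖ then 0 else B z)) ∧ MemLp A 2 volume ∧ MemLp B 2 volume ∧ eLpNorm A 2 volume = eLpNorm B 2 volume

/-! ## C. L² theory of the Beltrami equation -/

/-- [C1] Existence. Proof: for `w` in `L²` vanishing outside the disc let `A_w` be the function of `S_C3a`/`S_C3b` (unique a.e. by `S_wuniq`, additive and homogeneous, `‖A_w‖ = ‖w‖`).
`Θ(w) = μ conj (p' + A_w) + S` maps the complete metric space {`w ∈ L²`, zero outside} (work in `Lp ℂ 2 (volume.restrict (closedBall 0 (5/4)))`) to itself and is a contraction with constant `κ`;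
its fixed point is the solution (`ContractingWith.fixedPoint`). The derivative of `pv p + Ct w` is `A = p' + A_w` (`S_basic`). Modify `w` on a null set so that it vanishes outside the disc. -/
def S_solve : Prop := ∀ κ : ℝ, 0 ≤ κ → κ < 1 → ∀ μ, Mu κ (5 / 4) μ → ∀ S : ℂ → ℂ, W2 S → ∀ p : Polynomial ℝ, ∃ w A : ℂ → ℂ, W2 w ∧
  WD univ (fun z => pv p z + Ct w z) A w ∧ ∀ᵐ z, w z = (μ z : ℂ) * conj (A z) + S z

/-- [C2] Uniqueness. Proof: `B = μ conj A` vanishes for `‖z‖ > 5/4`; by `S_uniq` `‖A‖₂ = ‖B‖₂ ≤ κ ‖A‖₂ < ∞`, so `A = B = 0` and `h = Ct 0 = 0` a.e. -/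
def S_zero : Prop := ∀ κ : ℝ, 0 ≤ κ → κ < 1 → ∀ μ, Mu κ (5 / 4) μ → ∀ h A B : ℂ → ℂ, WD univ h A B → (∀ᵐ z, B z = (μ z : ℂ) * conj (A z)) → Dec h →
  (∀ᵐ z, h z = 0) ∧ ∀ᵐ z, A z = 0

/-- [C3] Stability. Proof: `A_k = p_k' + a_k`, `A = p' + a` with `a_k, a` the functions of `S_C3a`/`S_C3b` for `w_k, w` (`S_wuniq`); `‖a_k - a‖₂ = ‖w_k - w‖₂` (`S_C3a`/`S_C3b` for the difference). From
`w_k - w = μ_k conj (a_k - a) + [μ_k conj (p_k' + a) - μ conj (p' + a)] + S_k - S`: `(1-κ) ‖w_k - w‖₂ ≤ ‖[...]‖₂ + ‖S_k - S‖₂ → 0` by dominated convergence (everything vanishes for `‖z‖ > 5/4`).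
Then the bounds of `S_C3a`/`S_C3b` for `Ct (w_k - w)`. -/
def S_stab : Prop := ∀ κ : ℝ, 0 ≤ κ → κ < 1 → ∀ (μ : ℂ → ℝ) (μk : ℕ → ℂ → ℝ), Mu κ (5 / 4) μ → (∀ k, Mu κ (5 / 4) (μk k)) →
  (∀ᵐ z, Tendsto (fun k => μk k z) atTop (𝓝 (μ z))) →
  ∀ (S : ℂ → ℂ) (Sk : ℕ → ℂ → ℂ), W2 S → (∀ k, W2 (Sk k)) → Tendsto (fun k => eLpNorm (fun z => Sk k z - S z) 2 volume) atTop (𝓝 0) →
  ∀ (p : Polynomial ℝ) (pk : ℕ → Polynomial ℝ) (N : ℕ), (∀ k, (pk k).natDegree ≤ N) → p.natDegree ≤ N →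
  (∀ i, Tendsto (fun k => (pk k).coeff i) atTop (𝓝 (p.coeff i))) →
  ∀ (w A : ℂ → ℂ) (wk Ak : ℕ → ℂ → ℂ), W2 w → (∀ k, W2 (wk k)) →
  WD univ (fun z => pv p z + Ct w z) A w → (∀ k, WD univ (fun z => pv (pk k) z + Ct (wk k) z) (Ak k) (wk k)) →
  (∀ᵐ z, w z = (μ z : ℂ) * conj (A z) + S z) → (∀ k, ∀ᵐ z, wk k z = (μk k z : ℂ) * conj (Ak k z) + Sk k z) →
  Tendsto (fun k => eLpNorm (fun z => wk k z - w z) 2 volume) atTop (𝓝 0) ∧
  (∀ r : ℝ, Tendsto (fun k => eLpNorm (fun z => (pv (pk k) z + Ct (wk k) z) - (pv p z + Ct w z)) 2 (volume.restrict (closedBall 0 r))) atTop (𝓝 0)) ∧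
  (∀ r : ℝ, TendstoUniformlyOn (fun k z => pv (pk k) z + Ct (wk k) z) (fun z => pv p z + Ct w z) atTop {z | 3 / 2 ≤ ‖z‖ ∧ ‖z‖ ≤ r}) ∧
  (∀ r : ℝ, Tendsto (fun k => eLpNorm (fun z => Ak k z - A z) 2 (volume.restrict (closedBall 0 r))) atTop (𝓝 0))

/-- [C4] Regularity for smooth coefficients. Proof: `f = p + Ct w`, `F = f - μ conj f`: `F` has weak `∂/∂z̄` equal to `w - (db μ) conj f - μ conj A = S - (db μ) conj f =: s ∈ L²`, zero outside the disc (`S_basic`; change `s` on a null set).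
`F - p - Ct s` has weak `∂/∂z̄` zero and is `O(1/z)` (for `‖z‖ ≥ 2`, `F = f`): by `S_uniq` (with `B = 0`) it is zero a.e. By `S_C5` (1) `F`, hence `f = (F + μ conj F)/(1-μ²)`, is in `L⁴` of the disc, so `s ∈ L⁴`, so `Ct s` is continuous
(`S_C5` (2)), `F` and `f` are a.e. equal to continuous functions. For `‖z‖ > 5/4` the function `pv p + Ct w` itself is continuous (`S_C3a`/`S_C3b`), so the continuous representative agrees with it there. -/
def S_reg : Prop := ∀ κ : ℝ, 0 ≤ κ → κ < 1 → ∀ μ, SM κ μ → ∀ (S : ℂ → ℂ) (M : ℝ), W2 S → (∀ z, ‖S z‖ ≤ M) → ∀ (p : Polynomial ℝ) (w A : ℂ → ℂ), W2 w →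
  WD univ (fun z => pv p z + Ct w z) A w → (∀ᵐ z, w z = (μ z : ℂ) * conj (A z) + S z) →
  ∃ f : ℂ → ℂ, Continuous f ∧ (∀ᵐ z, f z = pv p z + Ct w z) ∧ ∀ z, 5 / 4 < ‖z‖ → f z = pv p z + Ct w z

/-- [C5] The polynomial part. Proof: with `A, B` from `Bel`, `B = μ conj A` a.e. is in `L²` and vanishes outside the disc; `w := B` there and `0` outside. `f - Ct w` has weak `∂/∂z̄` zero, so it is a.e. an entire function `g`;
`‖g z‖ ≤ C (1+‖z‖)^N` for `‖z‖ ≥ 2` (`S_C3a`/`S_C3b` and continuity), so `g` is a polynomial of degree `≤ N` (Cauchy estimates), `g (conj z) = conj (g z)` (last part of `S_C3a`/`S_C3b` and uniqueness: `w (conj z) = conj (w z)` a.e. by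
`S_basic` (7) and `S_wuniq`), so its coefficients are real. -/
def S_polypart : Prop := ∀ (κ : ℝ) (μ : ℂ → ℝ) (N : ℕ) (f : ℂ → ℂ), Mu κ (5 / 4) μ → PN μ N f → ∃ p : Polynomial ℝ, p.natDegree ≤ N ∧
  Dec (fun z => f z - pv p z) ∧ (∃ w A : ℂ → ℂ, W2 w ∧ WD univ f A w ∧ (∀ᵐ z, w z = (μ z : ℂ) * conj (A z)) ∧ (∀ᵐ z, f z = pv p z + Ct w z) ∧
  ∀ z, 5 / 4 < ‖z‖ → f z = pv p z + Ct w z) ∧ DifferentiableOn ℂ f {z | 5 / 4 < ‖z‖}

end

end Cal
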