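import Mathlib
import Pool.Agent.Lib.MP_4ea4c7_an.Stm1

/-!
Piece B2: the L² isometry `‖∂ Ct w‖ = ‖w‖` for test functions.
-/

open MeasureTheory Complex Metric Set Filter Topology
open scoped ComplexConjugate ENNReal NNReal

namespace Cal

noncomputable section

private lemma c2_fd {ψ : ℂ → ℂ} (h : ContDiff ℝ (⊤ : ℕ∞) ψ) (v : ℂ) :
    ContDiff ℝ (⊤ : ℕ∞) (fun z => fderiv ℝ ψ z v) := by
  have h1 : ContDiff ℝ (⊤ : ℕ∞) (fderiv ℝ ψ) := h.fderiv_right (by norm_cast)
  exact h1.clm_apply contDiff_const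

private lemma c2_cd_dz {ψ : ℂ → ℂ} (h : ContDiff ℝ (⊤ : ℕ∞) ψ) : ContDiff ℝ (⊤ : ℕ∞) (dz ψ) := by
  have h1 := c2_fd h 1
  have h2 := c2_fd h I
  unfold dz
  exact (h1.sub (contDiff_const.mul h2)).div_const 2

private lemma c2_tf_dz {ψ : ℂ → ℂ} (h : TF univ ψ) : TF univ (dz ψ) := by
  refine ⟨c2_cd_dz h.1, ?_, subset_univ _⟩
  refine h.2.1.mono' ?_
  intro z hz
  by_contra hn
  apply hz
  have h1 : fderiv ℝ ψ z = 0 := by
    by_contra h2
    exact hn (support_fderiv_subset ℝ h2)
  simp [dz, h1]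

private lemma c2_int_tf {ψ : ℂ → ℂ} (h : TF univ ψ) : Integrable ψ volume :=
  h.1.continuous.integrable_of_hasCompactSupport h.2.1

private lemma c2_tf_fd {ψ : ℂ → ℂ} (h : TF univ ψ) (v : ℂ) :
    TF univ (fun z => fderiv ℝ ψ z v) :=
  ⟨c2_fd h.1 v, h.2.1.fderiv_apply ℝ v, subset_univ _⟩

private lemma c2_int0 {ψ : ℂ → ℂ} (h : TF univ ψ) (v : ℂ) : ∫ z, fderiv ℝ ψ z v = 0 := by
  have hd : Differentiable ℝ ψ := h.1.differentiable (by simp)
  have h1 := integral_mul_fderiv_eq_neg_fderiv_mul_of_integrable (𝕜 := ℂ) (μ := (volume : Measure ℂ))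
    (f := fun _ : ℂ => (1 : ℂ)) (g := ψ) (v := v) (by simp) (by simpa using c2_int_tf (c2_tf_fd h v))
    (by simpa using c2_int_tf h) (fun x _ => differentiableAt_const _) (fun x _ => hd x)
  simpa using h1

private lemma c2_int0_dz {ψ : ℂ → ℂ} (h : TF univ ψ) : ∫ z, dz ψ z = 0 := by
  have h1 := c2_int_tf (c2_tf_fd h 1)
  have h2 := c2_int_tf (c2_tf_fd h I)
  unfold dz
  rw [integral_div, integral_sub h1 (h2.const_mul I), integral_const_mul, c2_int0 h, c2_int0 h]
  simp

private lemma c2_decay {ψ : ℂ → ℂ} (h : TF univ ψ) (h0 : ∫ z, ψ z = 0) {C0 : ℝ}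
    (hC : ∀ z, ‖Ct ψ z‖ ≤ C0 / (1 + ‖z‖)) :
    ∃ C, 0 ≤ C ∧ ∀ z, ‖Ct ψ z‖ ≤ C / (1 + ‖z‖) ^ 2 := by
  obtain ⟨r, hr1, hr⟩ := h.2.1.isCompact.isBounded.subset_closedBall_lt 1 0
  have hC0 : 0 ≤ C0 := by
    have := (norm_nonneg _).trans (hC 0)
    simpa using this
  set J : ℝ := ∫ z, ‖ψ z‖ with hJ
  have hJ0 : 0 ≤ J := integral_nonneg (fun z => norm_nonneg _)
  refine ⟨max (C0 * (1 + 2 * r)) (8 * r * J), le_max_of_le_left (by positivity), fun z => ?_⟩
  have hz0 := norm_nonneg z
  have hpos : 0 < (1 + ‖z‖) ^ 2 := by positivity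
  by_cases hz : ‖z‖ ≤ 2 * r
  · refine (hC z).trans ?_
    rw [div_le_div_iff₀ (by positivity) hpos]
    have h1 : C0 * (1 + ‖z‖) ^ 2 ≤ C0 * (1 + 2 * r) * (1 + ‖z‖) := by
      have : C0 * (1 + ‖z‖) ^ 2 = C0 * (1 + ‖z‖) * (1 + ‖z‖) := by ring
      rw [this]
      apply mul_le_mul_of_nonneg_right _ (by positivity)
      exact mul_le_mul_of_nonneg_left (by linarith) hC0
    exact h1.trans (mul_le_mul_of_nonneg_right (le_max_left _ _) (by positivity))
  · push Not at hz
    have hzp : 0 < ‖z‖ := by linarith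
    have hzne : z ≠ 0 := norm_pos_iff.mp hzp
    have hsup : ∀ ζ, ψ ζ ≠ 0 → ‖ζ‖ ≤ r := by
      intro ζ hζ
      have := hr (subset_tsupport ψ hζ)
      simpa using this
    have hi1 : Integrable (fun ζ => ψ ζ / (z - ζ)) volume := by
      refine Integrable.mono' ((c2_int_tf h).norm.const_mul (1 / r)) ?_ (Eventually.of_forall ?_)
      · exact (h.1.continuous.measurable.div
          (measurable_const.sub measurable_id)).aestronglyMeasurable
      · intro ζ
        by_cases hζ : ψ ζ = 0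
        · simp [hζ]
        · have h1 := hsup ζ hζ
          have h2 : r ≤ ‖z - ζ‖ := by
            have := norm_sub_norm_le z ζ
            linarith
          rw [norm_div, div_eq_mul_inv, mul_comm, ← one_div]
          exact mul_le_mul_of_nonneg_right
            (one_div_le_one_div_of_le (by linarith) h2) (norm_nonneg _)
    have hi2 : Integrable (fun ζ => ψ ζ / z) volume := (c2_int_tf h).div_const z
    have h1 : ∫ ζ, ψ ζ / (z - ζ) = ∫ ζ, (ψ ζ / (z - ζ) - ψ ζ / z) := by
      rw [integral_sub hi1 hi2, integral_div, h0]; simp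
    have h2 : ‖∫ ζ, (ψ ζ / (z - ζ) - ψ ζ / z)‖ ≤ ∫ ζ, ‖ψ ζ‖ * (2 * r / ‖z‖ ^ 2) := by
      refine norm_integral_le_of_norm_le ((c2_int_tf h).norm.mul_const _) (Eventually.of_forall ?_)
      intro ζ
      by_cases hζ : ψ ζ = 0
      · simp [hζ]
      · have h3 := hsup ζ hζ
        have h4 : ‖z‖ / 2 ≤ ‖z - ζ‖ := by
          have := norm_sub_norm_le z ζ
          linarith
        have h5 : 0 < ‖z - ζ‖ := by linarith
        have h6 : z - ζ ≠ 0 := norm_pos_iff.mp h5
        have h7 : ψ ζ / (z - ζ) - ψ ζ / z = ψ ζ * (ζ / ((z - ζ) * z)) := by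
          field_simp
          ring
        rw [h7, norm_mul, norm_div, norm_mul]
        apply mul_le_mul_of_nonneg_left _ (norm_nonneg _)
        rw [div_le_div_iff₀ (by positivity) (by positivity)]
        have h8 : ‖ζ‖ * ‖z‖ ^ 2 ≤ r * ‖z‖ ^ 2 := mul_le_mul_of_nonneg_right h3 (by positivity)
        have h9 : r * ‖z‖ ^ 2 ≤ 2 * r * (‖z - ζ‖ * ‖z‖) := by
          have : r * ‖z‖ ^ 2 = 2 * r * (‖z‖ / 2 * ‖z‖) := by ring
          rw [this]
          apply mul_le_mul_of_nonneg_left _ (by positivity)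
          exact mul_le_mul_of_nonneg_right h4 hz0
        exact h8.trans h9
    have h3 : ‖Ct ψ z‖ ≤ J * (2 * r / ‖z‖ ^ 2) := by
      unfold Ct
      rw [norm_mul, h1]
      have h4 : ‖(1 / (Real.pi : ℂ))‖ ≤ 1 := by
        rw [norm_div, norm_one, Complex.norm_real, Real.norm_eq_abs, abs_of_pos Real.pi_pos]
        rw [div_le_one Real.pi_pos]
        linarith [Real.pi_gt_three]
      have h5 := mul_le_mul h4 h2 (norm_nonneg _) zero_le_one
      rw [integral_mul_const, one_mul] at h5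
      exact h5
    refine h3.trans ?_
    rw [le_div_iff₀ hpos]
    have h4 : (1 + ‖z‖) ^ 2 ≤ 4 * ‖z‖ ^ 2 := by nlinarith
    have h5 : 0 < ‖z‖ ^ 2 := by positivity
    calc J * (2 * r / ‖z‖ ^ 2) * (1 + ‖z‖) ^ 2
        ≤ J * (2 * r / ‖z‖ ^ 2) * (4 * ‖z‖ ^ 2) :=
          mul_le_mul_of_nonneg_left h4 (by positivity)
      _ = 8 * r * J := by field_simp; ring
      _ ≤ _ := le_max_right _ _

/-- functions that are `O((1+|z|)^{-3})` are integrable -/
private lemma c2_integrable {g : ℂ → ℂ} (hg : Continuous g) {C : ℝ}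
    (h : ∀ z, ‖g z‖ ≤ C / (1 + ‖z‖) ^ 3) : Integrable g volume := by
  have h1 : Integrable (fun z : ℂ => (1 + ‖z‖) ^ (-(3 : ℝ))) volume :=
    integrable_one_add_norm (by rw [Complex.finrank_real_complex]; norm_num)
  refine Integrable.mono' (h1.const_mul C) hg.aestronglyMeasurable (Eventually.of_forall ?_)
  intro z
  refine (h z).trans (le_of_eq ?_)
  rw [Real.rpow_neg (by positivity), div_eq_mul_inv]
  congr 2
  norm_cast

private lemma c2_bd {g : ℂ → ℂ} (hg : Continuous g) (hs : HasCompactSupport g) :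
    ∃ D, 0 ≤ D ∧ ∀ z, ‖g z‖ ≤ D / (1 + ‖z‖) ^ 2 := by
  have h1 : Continuous (fun z : ℂ => ((1 + ‖z‖) ^ 2 : ℝ) • g z) := by fun_prop
  have h2 : HasCompactSupport (fun z : ℂ => ((1 + ‖z‖) ^ 2 : ℝ) • g z) := by
    refine hs.mono (fun z hz => ?_)
    intro h0
    apply hz
    simp [h0]
  obtain ⟨D, hD⟩ := h2.exists_bound_of_continuous h1
  refine ⟨D, (norm_nonneg _).trans (hD 0), fun z => ?_⟩
  have h3 := hD z
  have hpos : 0 < (1 + ‖z‖) ^ 2 := by positivity
  rw [norm_smul, Real.norm_eq_abs, abs_of_pos hpos] at h3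
  rw [le_div_iff₀ hpos, mul_comm]
  exact h3

private lemma c2_parts {f g : ℂ → ℂ} (hf : Differentiable ℝ f) (hg : Differentiable ℝ g)
    (h1 : ∀ v : ℂ, v = 1 ∨ v = I → Integrable (fun z => fderiv ℝ f z v * g z) volume)
    (h2 : ∀ v : ℂ, v = 1 ∨ v = I → Integrable (fun z => f z * fderiv ℝ g z v) volume)
    (h3 : Integrable (fun z => f z * g z) volume) :
    (∫ z, f z * db g z = - ∫ z, db f z * g z) ∧ (∫ z, f z * dz g z = - ∫ z, dz f z * g z) := by
  have e1 := integral_mul_fderiv_eq_neg_fderiv_mul_of_integrable (𝕜 := ℂ)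
    (h1 1 (Or.inl rfl)) (h2 1 (Or.inl rfl)) h3 (fun x _ => hf x) (fun x _ => hg x)
  have e2 := integral_mul_fderiv_eq_neg_fderiv_mul_of_integrable (𝕜 := ℂ)
    (h1 I (Or.inr rfl)) (h2 I (Or.inr rfl)) h3 (fun x _ => hf x) (fun x _ => hg x)
  have a1 := h2 1 (Or.inl rfl)
  have a2 := (h2 I (Or.inr rfl)).const_mul I
  have b1 := h1 1 (Or.inl rfl)
  have b2 := (h1 I (Or.inr rfl)).const_mul I
  constructor
  · have f1 : ∫ z, f z * db g z
        = ((∫ z, f z * fderiv ℝ g z 1) + ∫ z, I * (f z * fderiv ℝ g z I)) / 2 := by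
      rw [← integral_add a1 a2, ← integral_div]
      refine integral_congr_ae (Eventually.of_forall fun z => ?_)
      simp only [db]; ring
    have f2 : ∫ z, db f z * g z
        = ((∫ z, fderiv ℝ f z 1 * g z) + ∫ z, I * (fderiv ℝ f z I * g z)) / 2 := by
      rw [← integral_add b1 b2, ← integral_div]
      refine integral_congr_ae (Eventually.of_forall fun z => ?_)
      simp only [db]; ring
    rw [f1, f2, integral_const_mul, integral_const_mul, e1, e2]
    ring
  · have f1 : ∫ z, f z * dz g z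
        = ((∫ z, f z * fderiv ℝ g z 1) - ∫ z, I * (f z * fderiv ℝ g z I)) / 2 := by
      rw [← integral_sub a1 a2, ← integral_div]
      refine integral_congr_ae (Eventually.of_forall fun z => ?_)
      simp only [dz]; ring
    have f2 : ∫ z, dz f z * g z
        = ((∫ z, fderiv ℝ f z 1 * g z) - ∫ z, I * (fderiv ℝ f z I * g z)) / 2 := by
      rw [← integral_sub b1 b2, ← integral_div]
      refine integral_congr_ae (Eventually.of_forall fun z => ?_)
      simp only [dz]; ring
    rw [f1, f2, integral_const_mul, integral_const_mul, e1, e2]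
    ring

private lemma c2_fd_le (f : ℂ → ℂ) (z v : ℂ) (hv : v = 1 ∨ v = I) :
    ‖fderiv ℝ f z v‖ ≤ ‖dz f z‖ + ‖db f z‖ := by
  rcases hv with rfl | rfl
  · have : fderiv ℝ f z 1 = dz f z + db f z := by simp only [dz, db]; ring
    rw [this]; exact norm_add_le _ _
  · have : fderiv ℝ f z I = I * (dz f z - db f z) := by
      simp only [dz, db]; ring_nf; rw [I_sq]; ring
    rw [this, norm_mul, norm_I, one_mul]; exact norm_sub_le _ _

private lemma c2_fd_conj {f : ℂ → ℂ} {z : ℂ} (hf : DifferentiableAt ℝ f z) (v : ℂ) :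
    fderiv ℝ (fun z => conj (f z)) z v = conj (fderiv ℝ f z v) := by
  have h1 : HasFDerivAt (fun z => conj (f z)) (conjCLE.toContinuousLinearMap.comp (fderiv ℝ f z)) z :=
    conjCLE.toContinuousLinearMap.hasFDerivAt.comp z hf.hasFDerivAt
  rw [h1.fderiv]
  simp

theorem piece_C2 (h1 : S_C1) (h2 : S_pomp) : S_C2 := by
  intro w hw
  obtain ⟨hsm, hdb, hdz, C, hC⟩ := h1 w hw
  have hdbw : ∀ z, db (Ct w) z = w z := fun z => (hdb z).trans (h2 w hw z)
  refine ⟨hdbw, ?_⟩
  set h : ℂ → ℂ := Ct w with hh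
  have hw1 : TF univ (dz w) := c2_tf_dz hw
  have hw2 : TF univ (dz (dz w)) := c2_tf_dz hw1
  obtain ⟨husm, hudb, hudz, C', hC'⟩ := h1 (dz w) hw1
  obtain ⟨_, _, _, C'', hC''⟩ := h1 (dz (dz w)) hw2
  obtain ⟨D1, hD1, hu⟩ := c2_decay hw1 (c2_int0_dz hw) hC'
  obtain ⟨D2, hD2, hdu⟩ := c2_decay hw2 (c2_int0_dz hw1) hC''
  obtain ⟨D3, hD3, hw3⟩ := c2_bd hw.1.continuous hw.2.1
  obtain ⟨D4, hD4, hw4⟩ := c2_bd hw1.1.continuous hw1.2.1
  have hC0 : 0 ≤ C := by
    have := (norm_nonneg _).trans (hC 0)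
    simpa using this
  set u : ℂ → ℂ := Ct (dz w) with hudef
  have hdbu : ∀ z, db u z = dz w z := fun z => (hudb z).trans (h2 (dz w) hw1 z)
  have hdh : Differentiable ℝ h := hsm.differentiable (by simp)
  have hdu' : Differentiable ℝ u := husm.differentiable (by simp)
  have hdw : Differentiable ℝ w := hw.1.differentiable (by simp)
  set H : ℂ → ℂ := fun z => conj (h z) with hH
  have hHc : ContDiff ℝ (⊤ : ℕ∞) H := conjCLE.contDiff.comp hsm
  have hdH : Differentiable ℝ H := hHc.differentiable (by simp)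
  have hfdH : ∀ z v, fderiv ℝ H z v = conj (fderiv ℝ h z v) := fun z v => c2_fd_conj (hdh z) v
  have hHb : ∀ z, ‖H z‖ ≤ C / (1 + ‖z‖) := by
    intro z
    simp only [hH, RCLike.norm_conj]
    exact hC z
  have hdbH : ∀ z, db H z = conj (u z) := by
    intro z
    have : dz h z = u z := hdz z
    rw [← this]
    simp only [db, dz, hfdH, map_div₀, map_sub, map_mul, conj_I, map_ofNat]
    ring
  have hdzH : ∀ z, dz H z = conj (w z) := by
    intro z
    rw [← hdbw z]
    simp only [db, dz, hfdH, map_div₀, map_add, map_mul, conj_I, map_ofNat]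
    ring
  have hpos : ∀ z : ℂ, 0 < 1 + ‖z‖ := fun z => by positivity
  -- first integration by parts
  have p1 := c2_parts hdu' hdH
    (fun v hv => c2_integrable (C := (D2 + D4) * C)
      (((c2_fd husm v).continuous).mul hHc.continuous) (fun z => by
        rw [norm_mul]
        have a1 := c2_fd_le u z v hv
        rw [hdbu z, hudz z] at a1
        have a2 : ‖fderiv ℝ u z v‖ ≤ (D2 + D4) / (1 + ‖z‖) ^ 2 := by
          refine a1.trans ?_
          rw [add_div]
          exact add_le_add (hdu z) (hw4 z)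
        have a3 := mul_le_mul a2 (hHb z) (norm_nonneg _) (by positivity)
        refine a3.trans (le_of_eq ?_)
        have := (hpos z).ne'
        field_simp))
    (fun v hv => c2_integrable (C := D1 * (D1 + D3))
      (husm.continuous.mul (c2_fd hHc v).continuous) (fun z => by
        rw [norm_mul, hfdH, RCLike.norm_conj]
        have a1 := c2_fd_le h z v hv
        rw [hdbw z, hdz z] at a1
        have a2 : ‖fderiv ℝ h z v‖ ≤ (D1 + D3) / (1 + ‖z‖) ^ 2 := by
          refine a1.trans ?_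
          rw [add_div]
          exact add_le_add (hu z) (hw3 z)
        have a3 := mul_le_mul (hu z) a2 (norm_nonneg _) (by positivity)
        refine a3.trans ?_
        rw [div_mul_div_comm, ← pow_add]
        apply div_le_div_of_nonneg_left (by positivity) (by positivity)
        exact pow_le_pow_right₀ (by linarith [norm_nonneg z]) (by norm_num)))
    (c2_integrable (C := D1 * C) (husm.continuous.mul hHc.continuous) (fun z => by
        rw [norm_mul]
        have a3 := mul_le_mul (hu z) (hHb z) (norm_nonneg _) (by positivity)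
        refine a3.trans (le_of_eq ?_)
        have := (hpos z).ne'
        field_simp))
  -- second integration by parts
  have hcs : ∀ g k : ℂ → ℂ, Continuous g → Continuous k → HasCompactSupport g →
      Integrable (fun z => g z * k z) volume := fun g k hg hk hgs =>
    (hg.mul hk).integrable_of_hasCompactSupport hgs.mul_right
  have p2 := c2_parts hdw hdH
    (fun v _ => hcs _ _ (c2_fd hw.1 v).continuous hHc.continuous (c2_tf_fd hw v).2.1)
    (fun v _ => hcs _ _ hw.1.continuous (c2_fd hHc v).continuous hw.2.1)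
    (hcs _ _ hw.1.continuous hHc.continuous hw.2.1)
  have key : ∫ z, u z * conj (u z) = ∫ z, w z * conj (w z) := by
    calc ∫ z, u z * conj (u z) = ∫ z, u z * db H z := by simp only [hdbH]
      _ = - ∫ z, db u z * H z := p1.1
      _ = - ∫ z, dz w z * H z := by simp only [hdbu]
      _ = ∫ z, w z * dz H z := p2.2.symm
      _ = ∫ z, w z * conj (w z) := by simp only [hdzH]
  have hsq : ∀ g : ℂ → ℂ, (∫ z, g z * conj (g z)) = ((∫ z, ‖g z‖ ^ 2 : ℝ) : ℂ) := by
    intro g
    refine Eq.trans ?_ (integral_ofReal (𝕜 := ℂ) (μ := (volume : Measure ℂ))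
      (f := fun z : ℂ => ‖g z‖ ^ 2))
    refine integral_congr_ae (Eventually.of_forall fun z => ?_)
    simp only [Complex.mul_conj, Complex.normSq_eq_norm_sq]
    rfl
  rw [hsq, hsq] at key
  have key2 : ∫ z, ‖u z‖ ^ 2 = ∫ z, ‖w z‖ ^ 2 := by exact_mod_cast key
  have hdzfun : dz h = u := funext hdz
  rw [hdzfun]
  have hum : MemLp u 2 volume := by
    rw [memLp_two_iff_integrable_sq_norm husm.continuous.aestronglyMeasurable]
    have := (c2_integrable (g := fun z => ((‖u z‖ ^ 2 : ℝ) : ℂ)) (C := D1 * D1)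
      (by have := husm.continuous; fun_prop) (fun z => by
        rw [Complex.norm_real, Real.norm_eq_abs, abs_of_nonneg (by positivity), pow_two]
        have a3 := mul_le_mul (hu z) (hu z) (norm_nonneg _) (by positivity)
        refine a3.trans ?_
        rw [div_mul_div_comm, ← pow_add]
        apply div_le_div_of_nonneg_left (by positivity) (by positivity)
        exact pow_le_pow_right₀ (by linarith [norm_nonneg z]) (by norm_num))).norm
    refine this.congr (Eventually.of_forall fun z => ?_)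
    simp only [Complex.norm_real, Real.norm_eq_abs]
    exact abs_of_nonneg (by positivity)
  have hwm : MemLp w 2 volume := hw.1.continuous.memLp_of_hasCompactSupport hw.2.1
  refine ⟨hum, ?_⟩
  rw [hum.eLpNorm_eq_integral_rpow_norm (by norm_num) (by norm_num),
    hwm.eLpNorm_eq_integral_rpow_norm (by norm_num) (by norm_num)]
  simp only [ENNReal.toReal_ofNat, Real.rpow_two, key2]

end

end Cal
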