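import Pool.Agent.Lib.MP_4ea4c7_an.Stm1

/-! # [CA B3a] bounds for the Cauchy transform of `L²` functions -/

open MeasureTheory Complex Metric Set Filter Topology
open scoped ComplexConjugate ENNReal NNReal

namespace Cal

noncomputable section

/-- the kernel `1/|ζ|` is integrable on discs -/
private lemma kerI (R : ℝ) : ∫⁻ ζ in closedBall (0 : ℂ) R, ‖ζ‖ₑ⁻¹ ≤
    ENNReal.ofReal R * ENNReal.ofReal (2 * Real.pi) := by
  rw [← lintegral_indicator isClosed_closedBall.measurableSet,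
    ← Complex.lintegral_comp_polarCoord_symm]
  calc ∫⁻ p in polarCoord.target, ENNReal.ofReal p.1 •
        (closedBall (0 : ℂ) R).indicator (fun ζ => ‖ζ‖ₑ⁻¹) (Complex.polarCoord.symm p)
      ≤ ∫⁻ p in polarCoord.target,
          (Iic R ×ˢ (univ : Set ℝ)).indicator (fun _ => (1 : ℝ≥0∞)) p := by
        apply setLIntegral_mono' polarCoord.open_target.measurableSet
        intro p hp
        have hp1 : 0 < p.1 := by
          have : p ∈ Set.Ioi (0 : ℝ) ×ˢ Set.Ioo (-Real.pi) Real.pi := hp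
          exact this.1
        have hn : ‖Complex.polarCoord.symm p‖ = p.1 := by
          rw [Complex.norm_polarCoord_symm, abs_of_pos hp1]
        by_cases h : p.1 ≤ R
        · have h1 : p ∈ (Iic R ×ˢ (univ : Set ℝ)) := ⟨h, mem_univ _⟩
          rw [indicator_of_mem h1]
          have h2 : Complex.polarCoord.symm p ∈ closedBall (0 : ℂ) R := by
            rw [mem_closedBall, dist_zero_right, hn]; exact h
          rw [indicator_of_mem h2, ← ofReal_norm, hn, smul_eq_mul]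
          exact ENNReal.mul_inv_le_one _
        · have h2 : Complex.polarCoord.symm p ∉ closedBall (0 : ℂ) R := by
            rw [mem_closedBall, dist_zero_right, hn]; exact h
          rw [indicator_of_notMem h2, smul_zero]
          exact bot_le
    _ = volume ((Iic R ×ˢ (univ : Set ℝ)) ∩ polarCoord.target) := by
        rw [lintegral_indicator (measurableSet_Iic.prod MeasurableSet.univ), lintegral_const,
          one_mul, Measure.restrict_restrict (measurableSet_Iic.prod MeasurableSet.univ),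
          Measure.restrict_apply MeasurableSet.univ, univ_inter]
    _ ≤ volume (Ioc (0 : ℝ) R ×ˢ Ioo (-Real.pi) Real.pi) := by
        apply measure_mono
        rintro p ⟨h1, h2⟩
        have h3 : p ∈ Set.Ioi (0 : ℝ) ×ˢ Set.Ioo (-Real.pi) Real.pi := h2
        exact ⟨⟨h3.1, h1.1⟩, h3.2⟩
    _ = ENNReal.ofReal R * ENNReal.ofReal (2 * Real.pi) := by
        rw [Measure.volume_eq_prod, Measure.prod_prod, Real.volume_Ioc, Real.volume_Ioo]
        congr 2 <;> ring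

/-- translated version -/
private lemma kerI' (R : ℝ) (z : ℂ) : ∫⁻ ζ in closedBall z R, ‖z - ζ‖ₑ⁻¹ ≤
    ENNReal.ofReal R * ENNReal.ofReal (2 * Real.pi) := by
  refine le_trans (le_of_eq ?_) (kerI R)
  rw [← lintegral_indicator isClosed_closedBall.measurableSet,
    ← lintegral_indicator isClosed_closedBall.measurableSet]
  rw [← lintegral_sub_left_eq_self (μ := volume)
    (fun ζ => (closedBall (0 : ℂ) R).indicator (fun ζ => ‖ζ‖ₑ⁻¹) ζ) z]
  apply lintegral_congr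
  intro ζ
  by_cases h : ζ ∈ closedBall z R
  · rw [indicator_of_mem h, indicator_of_mem]
    rw [mem_closedBall, dist_zero_right, ← dist_eq_norm, dist_comm]; exact h
  · rw [indicator_of_notMem h, indicator_of_notMem]
    rw [mem_closedBall, dist_zero_right, ← dist_eq_norm, dist_comm]; exact h

/-- the constant `c0` -/
private def c0 : ℝ≥0∞ := ENNReal.ofReal (13 / 4) * ENNReal.ofReal (2 * Real.pi)

private lemma c0_eq : c0 = ENNReal.ofReal (13 / 4 * (2 * Real.pi)) := by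
  rw [c0, ← ENNReal.ofReal_mul (by norm_num)]

private lemma ker1 (z : ℂ) (hz : ‖z‖ ≤ 2) :
    ∫⁻ ζ in closedBall (0 : ℂ) (5 / 4), ‖z - ζ‖ₑ⁻¹ ≤ c0 := by
  refine le_trans (lintegral_mono_set ?_) (kerI' (13 / 4) z)
  intro ζ hζ
  rw [mem_closedBall, dist_zero_right] at hζ
  rw [mem_closedBall, dist_eq_norm]
  have := norm_sub_le ζ z
  linarith

private lemma ker2 (ζ : ℂ) (hζ : ‖ζ‖ ≤ 5 / 4) :
    ∫⁻ z in closedBall (0 : ℂ) 2, ‖z - ζ‖ₑ⁻¹ ≤ c0 := by
  refine le_trans (lintegral_mono_set (t := closedBall ζ (13 / 4)) ?_)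
    (le_trans (le_of_eq ?_) (kerI' (13 / 4) ζ))
  · intro z hz
    rw [mem_closedBall, dist_zero_right] at hz
    rw [mem_closedBall, dist_eq_norm]
    have := norm_sub_le z ζ
    linarith
  · apply lintegral_congr
    intro z
    rw [← enorm_neg, neg_sub]

private lemma CS {f g : ℂ → ℝ≥0∞} (μ : Measure ℂ) (hf : AEMeasurable f μ)
    (hg : AEMeasurable g μ) : (∫⁻ z, f z * g z ∂μ) ^ 2 ≤ (∫⁻ z, f z ^ 2 ∂μ) * (∫⁻ z, g z ^ 2 ∂μ) := by
  have h := ENNReal.lintegral_mul_le_Lp_mul_Lq μ Real.HolderConjugate.two_two hf hg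
  have h2 : (∫⁻ z, (f * g) z ∂μ) ^ 2 ≤
      ((∫⁻ z, f z ^ (2 : ℝ) ∂μ) ^ (1 / (2 : ℝ)) * (∫⁻ z, g z ^ (2 : ℝ) ∂μ) ^ (1 / (2 : ℝ))) ^ 2 :=
    pow_le_pow_left₀ bot_le h 2
  rw [mul_pow] at h2
  have e : ∀ x : ℝ≥0∞, (x ^ (1 / (2 : ℝ))) ^ 2 = x := by
    intro x
    rw [← ENNReal.rpow_natCast, ← ENNReal.rpow_mul]
    norm_num
  rw [e, e] at h2
  have e2 : ∀ x : ℝ≥0∞, x ^ (2 : ℝ) = x ^ 2 := fun x => by
    rw [← ENNReal.rpow_natCast]; norm_num
  simp only [e2] at h2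
  exact h2

private lemma sqn (f : ℂ → ℂ) (μ : Measure ℂ) : (eLpNorm f 2 μ) ^ 2 = ∫⁻ z, ‖f z‖ₑ ^ 2 ∂μ := by
  rw [eLpNorm_eq_lintegral_rpow_enorm_toReal two_ne_zero ENNReal.ofNat_ne_top]
  rw [← ENNReal.rpow_natCast, ← ENNReal.rpow_mul]
  simp

/-- absolute integral -/
private def T (w : ℂ → ℂ) (z : ℂ) : ℝ≥0∞ := ∫⁻ ζ, ‖w ζ‖ₑ * ‖z - ζ‖ₑ⁻¹

private lemma enorm_div_le' (a b : ℂ) : ‖a / b‖ₑ ≤ ‖a‖ₑ * ‖b‖ₑ⁻¹ := by
  by_cases hb : b = 0
  · rw [hb]; simp
  · rw [div_eq_mul_inv, enorm_mul, enorm_inv hb]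

private lemma Ct_le (w : ℂ → ℂ) (z : ℂ) : ‖Ct w z‖ₑ ≤ T w z := by
  unfold Ct T
  rw [enorm_mul]
  have h1 : ‖(1 / (Real.pi : ℂ))‖ₑ ≤ 1 := by
    rw [← ofReal_norm, ENNReal.ofReal_le_one, norm_div, norm_one, Complex.norm_real,
      Real.norm_of_nonneg Real.pi_pos.le, div_le_one Real.pi_pos]
    linarith [Real.pi_gt_three]
  calc ‖(1 / (Real.pi : ℂ))‖ₑ * ‖∫ ζ, w ζ / (z - ζ)‖ₑ ≤ 1 * ∫⁻ ζ, ‖w ζ / (z - ζ)‖ₑ :=
        mul_le_mul' h1 (enorm_integral_le_lintegral_enorm _)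
    _ = ∫⁻ ζ, ‖w ζ / (z - ζ)‖ₑ := one_mul _
    _ ≤ _ := lintegral_mono (fun ζ => enorm_div_le' _ _)

private lemma T_sq (w : ℂ → ℂ) (hw : W2 w) (z : ℂ) (hz : ‖z‖ ≤ 2) :
    (T w z) ^ 2 ≤ (∫⁻ ζ, ‖w ζ‖ₑ ^ 2 * ‖z - ζ‖ₑ⁻¹) * c0 := by
  have e : ∀ x : ℝ≥0∞, (x ^ (1 / (2 : ℝ))) ^ 2 = x := by
    intro x
    rw [← ENNReal.rpow_natCast, ← ENNReal.rpow_mul]
    norm_num
  have h1 : T w z = ∫⁻ ζ, (‖w ζ‖ₑ * (‖z - ζ‖ₑ⁻¹) ^ (1 / (2 : ℝ))) *
      ((closedBall (0 : ℂ) (5 / 4)).indicator (fun ζ => (‖z - ζ‖ₑ⁻¹) ^ (1 / (2 : ℝ))) ζ) := by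
    unfold T
    apply lintegral_congr
    intro ζ
    by_cases h : ζ ∈ closedBall (0 : ℂ) (5 / 4)
    · rw [indicator_of_mem h, mul_assoc, ← sq, e]
    · have : w ζ = 0 := by
        apply hw.2
        rw [mem_closedBall, dist_zero_right] at h
        exact not_le.mp h
      rw [this]; simp
  have hker : Measurable (fun ζ : ℂ => (‖z - ζ‖ₑ⁻¹) ^ (1 / (2 : ℝ))) :=
    ((measurable_const.sub measurable_id).enorm.inv).pow_const _
  rw [h1]
  refine (CS volume (hw.1.1.enorm.mul hker.aemeasurable)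
    ((hker.indicator isClosed_closedBall.measurableSet).aemeasurable)).trans ?_
  apply mul_le_mul'
  · apply lintegral_mono
    intro ζ
    show (‖w ζ‖ₑ * (‖z - ζ‖ₑ⁻¹) ^ (1 / (2 : ℝ))) ^ 2 ≤ _
    rw [mul_pow, e]
  · calc ∫⁻ ζ, ((closedBall (0 : ℂ) (5 / 4)).indicator (fun ζ => (‖z - ζ‖ₑ⁻¹) ^ (1 / (2 : ℝ))) ζ) ^ 2
        = ∫⁻ ζ, (closedBall (0 : ℂ) (5 / 4)).indicator (fun ζ => ‖z - ζ‖ₑ⁻¹) ζ := by
          apply lintegral_congr
          intro ζ
          by_cases h : ζ ∈ closedBall (0 : ℂ) (5 / 4)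
          · rw [indicator_of_mem h, indicator_of_mem h, e]
          · rw [indicator_of_notMem h, indicator_of_notMem h]; simp
      _ ≤ c0 := by
          rw [lintegral_indicator isClosed_closedBall.measurableSet]
          exact ker1 z hz

private lemma Fub (w : ℂ → ℂ) (hw : W2 w) :
    ∫⁻ z in closedBall (0 : ℂ) 2, ∫⁻ ζ, ‖w ζ‖ₑ ^ 2 * ‖z - ζ‖ₑ⁻¹ ≤ (∫⁻ ζ, ‖w ζ‖ₑ ^ 2) * c0 := by
  rw [lintegral_lintegral_swap]
  · rw [← lintegral_mul_const'' _ (hw.1.1.enorm.pow_const 2)]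
    apply lintegral_mono
    intro ζ
    simp only
    by_cases h : ‖ζ‖ ≤ 5 / 4
    · have hm : Measurable (fun z : ℂ => ‖z - ζ‖ₑ⁻¹) :=
        (measurable_id.sub measurable_const).enorm.inv
      rw [lintegral_const_mul _ hm]
      exact mul_le_mul' le_rfl (ker2 ζ h)
    · have : w ζ = 0 := hw.2 _ (not_le.mp h)
      rw [this]; simp
  · apply AEMeasurable.mul
    · exact ((hw.1.1.comp_quasiMeasurePreserving Measure.quasiMeasurePreserving_snd).enorm).pow_const 2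
    · exact ((measurable_fst.sub measurable_snd).enorm.inv).aemeasurable

private lemma T_L2 (w : ℂ → ℂ) (hw : W2 w) :
    ∫⁻ z in closedBall (0 : ℂ) 2, (T w z) ^ 2 ≤ (c0 * eLpNorm w 2 volume) ^ 2 := by
  have hc : c0 ≠ ⊤ := by rw [c0_eq]; exact ENNReal.ofReal_ne_top
  calc ∫⁻ z in closedBall (0 : ℂ) 2, (T w z) ^ 2
      ≤ ∫⁻ z in closedBall (0 : ℂ) 2, (∫⁻ ζ, ‖w ζ‖ₑ ^ 2 * ‖z - ζ‖ₑ⁻¹) * c0 := by
        apply setLIntegral_mono' isClosed_closedBall.measurableSet
        intro z hz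
        rw [mem_closedBall, dist_zero_right] at hz
        exact T_sq w hw z hz
    _ = (∫⁻ z in closedBall (0 : ℂ) 2, ∫⁻ ζ, ‖w ζ‖ₑ ^ 2 * ‖z - ζ‖ₑ⁻¹) * c0 :=
        lintegral_mul_const' _ _ hc
    _ ≤ ((∫⁻ ζ, ‖w ζ‖ₑ ^ 2) * c0) * c0 := mul_le_mul' (Fub w hw) le_rfl
    _ = (c0 * eLpNorm w 2 volume) ^ 2 := by rw [mul_pow, sqn]; ring

private lemma T_meas (w : ℂ → ℂ) (hw : W2 w) (μ : Measure ℂ) [SFinite μ] :
    AEMeasurable (T w) μ := by
  unfold T
  apply AEMeasurable.lintegral_prod_right (f := fun z ζ => ‖w ζ‖ₑ * ‖z - ζ‖ₑ⁻¹)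
  apply AEMeasurable.mul
  · exact (hw.1.1.comp_quasiMeasurePreserving Measure.quasiMeasurePreserving_snd).enorm
  · exact ((measurable_fst.sub measurable_snd).enorm.inv).aemeasurable

private lemma int_w (w : ℂ → ℂ) (hw : W2 w) : Integrable w volume := by
  have h1 : IntegrableOn w (closedBall (0 : ℂ) (5 / 4)) volume := by
    have : IsFiniteMeasure (volume.restrict (closedBall (0 : ℂ) (5 / 4))) :=
      ⟨by rw [Measure.restrict_apply_univ]; exact measure_closedBall_lt_top⟩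
    exact (hw.1.restrict _).integrable one_le_two
  rw [integrableOn_iff_integrable_of_support_subset] at h1
  · exact h1
  · intro ζ hζ
    rw [mem_closedBall, dist_zero_right]
    by_contra h
    exact hζ (hw.2 _ (not_le.mp h))

private lemma T_fin (w : ℂ → ℂ) (hw : W2 w) (z : ℂ) (hz : 5 / 4 < ‖z‖) : T w z < ⊤ := by
  have hδ : 0 < ‖z‖ - 5 / 4 := by linarith
  have h1 : T w z ≤ ∫⁻ ζ, ‖w ζ‖ₑ * (ENNReal.ofReal (‖z‖ - 5 / 4))⁻¹ := by
    apply lintegral_mono
    intro ζ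
    simp only
    by_cases h : ‖ζ‖ ≤ 5 / 4
    · apply mul_le_mul' le_rfl
      apply ENNReal.inv_le_inv.mpr
      rw [← ofReal_norm]
      apply ENNReal.ofReal_le_ofReal
      have := norm_sub_norm_le z ζ
      linarith
    · have : w ζ = 0 := hw.2 _ (not_le.mp h)
      rw [this]; simp
  refine lt_of_le_of_lt h1 ?_
  have h2 : (ENNReal.ofReal (‖z‖ - 5 / 4))⁻¹ ≠ ⊤ := by
    rw [ENNReal.inv_ne_top]
    exact (ENNReal.ofReal_pos.mpr hδ).ne'
  rw [lintegral_mul_const' _ _ h2]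
  exact ENNReal.mul_lt_top (int_w w hw).2 (lt_top_iff_ne_top.mpr h2)

private lemma sm_div {α : Type*} [MeasurableSpace α] {μ : Measure α} {f g : α → ℂ}
    (hf : AEStronglyMeasurable f μ) (hg : Measurable g) :
    AEStronglyMeasurable (fun x => f x / g x) μ := by
  simp only [div_eq_mul_inv]
  exact hf.mul hg.inv.aestronglyMeasurable

private lemma int_ker (w : ℂ → ℂ) (hw : W2 w) (z : ℂ) (hz : T w z < ⊤) :
    Integrable (fun ζ => w ζ / (z - ζ)) volume := by
  refine ⟨?_, ?_⟩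
  · exact sm_div hw.1.1 (measurable_const.sub measurable_id)
  · refine lt_of_le_of_lt ?_ hz
    exact lintegral_mono (fun ζ => enorm_div_le' _ _)

private lemma Ct_add' (w w' : ℂ → ℂ) (hw : W2 w) (hw' : W2 w') (z : ℂ) (hz : T w z < ⊤)
    (hz' : T w' z < ⊤) : Ct (fun ζ => w ζ + w' ζ) z = Ct w z + Ct w' z := by
  unfold Ct
  rw [← mul_add, ← integral_add (int_ker w hw z hz) (int_ker w' hw' z hz')]
  congr 1
  apply integral_congr_ae
  filter_upwards with ζ
  rw [add_div]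

private lemma T_ae (w : ℂ → ℂ) (hw : W2 w) : ∀ᵐ z : ℂ, T w z < ⊤ := by
  have hc : c0 ≠ ⊤ := by rw [c0_eq]; exact ENNReal.ofReal_ne_top
  have h1 : ∀ᵐ z ∂(volume.restrict (closedBall (0 : ℂ) 2)), (T w z) ^ 2 < ⊤ := by
    apply ae_lt_top' ((T_meas w hw _).pow_const 2)
    refine ne_top_of_le_ne_top ?_ (T_L2 w hw)
    exact ENNReal.pow_ne_top (ENNReal.mul_ne_top hc hw.1.2.ne)
  rw [ae_restrict_iff' isClosed_closedBall.measurableSet] at h1
  filter_upwards [h1] with z hz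
  by_cases h : ‖z‖ ≤ 2
  · have h2 := hz (by rw [mem_closedBall, dist_zero_right]; exact h)
    by_contra hcon
    rw [not_lt, top_le_iff] at hcon
    rw [hcon] at h2
    simp at h2
  · exact T_fin w hw z (by linarith [not_le.mp h])

private lemma Ct_diff (w : ℂ → ℂ) (hw : W2 w) :
    DifferentiableOn ℂ (Ct w) {z | 5 / 4 < ‖z‖} := by
  intro z0 hz0
  apply DifferentiableAt.differentiableWithinAt
  have hz0' : 5 / 4 < ‖z0‖ := hz0
  set δ : ℝ := (‖z0‖ - 5 / 4) / 2 with hδdef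
  have hδ : 0 < δ := by rw [hδdef]; linarith
  have hlow : ∀ x ∈ ball z0 δ, ∀ ζ : ℂ, ‖ζ‖ ≤ 5 / 4 → δ ≤ ‖x - ζ‖ := by
    intro x hx ζ hζ
    rw [mem_ball, dist_eq_norm] at hx
    have h1 := norm_sub_norm_le z0 x
    have h2 := norm_sub_norm_le x ζ
    rw [norm_sub_rev] at hx
    rw [hδdef] at hx ⊢
    linarith
  have key := hasDerivAt_integral_of_dominated_loc_of_deriv_le (μ := (volume : Measure ℂ))
    (F := fun z ζ => w ζ / (z - ζ)) (F' := fun z ζ => - (w ζ / (z - ζ) ^ 2)) (x₀ := z0)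
    (s := ball z0 δ) (bound := fun ζ => ‖w ζ‖ * (1 / δ ^ 2)) (ball_mem_nhds z0 hδ)
    (Filter.Eventually.of_forall (fun z =>
      sm_div hw.1.1 (measurable_const.sub measurable_id)))
    (int_ker w hw z0 (T_fin w hw z0 hz0'))
    (sm_div hw.1.1 ((measurable_const.sub measurable_id).pow_const 2)).neg
    (by
      filter_upwards with ζ
      intro x hx
      by_cases h : ‖ζ‖ ≤ 5 / 4
      · have h1 := hlow x hx ζ h
        rw [norm_neg, norm_div, norm_pow, div_eq_mul_one_div]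
        apply mul_le_mul_of_nonneg_left _ (norm_nonneg _)
        apply one_div_le_one_div_of_le (by positivity)
        exact pow_le_pow_left₀ hδ.le h1 2
      · have : w ζ = 0 := hw.2 _ (not_le.mp h)
        rw [this]; simp)
    ((int_w w hw).norm.mul_const _)
    (by
      filter_upwards with ζ
      intro x hx
      by_cases h : ‖ζ‖ ≤ 5 / 4
      · have h1 := hlow x hx ζ h
        have hne : x - ζ ≠ 0 := by
          intro h0
          rw [h0, norm_zero] at h1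
          linarith
        have h2 : HasDerivAt (fun z : ℂ => z - ζ) 1 x := (hasDerivAt_id x).sub_const ζ
        have h3 := (h2.inv hne).const_mul (w ζ)
        have e1 : (fun z : ℂ => w ζ / (z - ζ)) = fun z => w ζ * (z - ζ)⁻¹ := by
          ext z; rw [div_eq_mul_inv]
        rw [e1]
        have h4 : w ζ * (-1 / (x - ζ) ^ 2) = -(w ζ / (x - ζ) ^ 2) := by ring
        rw [h4] at h3
        exact h3
      · have : w ζ = 0 := hw.2 _ (not_le.mp h)
        simp only [this, zero_div, neg_zero]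
        exact hasDerivAt_const x 0)
  exact (key.2.const_mul (1 / (Real.pi : ℂ))).differentiableAt

private lemma Ct_far (w : ℂ → ℂ) (hw : W2 w) (z : ℂ) (hz : 3 / 2 ≤ ‖z‖) :
    ‖Ct w z‖ ≤ 6 * ((volume (closedBall (0 : ℂ) (5 / 4))) ^ (1 / (2 : ℝ))).toReal *
      (eLpNorm w 2 volume).toReal / ‖z‖ := by
  have hzpos : 0 < ‖z‖ := by linarith
  -- L¹ bound
  have hL1 : ∫ ζ, ‖w ζ‖ ≤ ((volume (closedBall (0 : ℂ) (5 / 4))) ^ (1 / (2 : ℝ))).toReal *
      (eLpNorm w 2 volume).toReal := by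
    have h1 : eLpNorm w 1 volume = eLpNorm w 1 (volume.restrict (closedBall (0 : ℂ) (5 / 4))) := by
      rw [eLpNorm_one_eq_lintegral_enorm, eLpNorm_one_eq_lintegral_enorm]
      rw [← lintegral_indicator isClosed_closedBall.measurableSet]
      apply lintegral_congr
      intro ζ
      by_cases h : ζ ∈ closedBall (0 : ℂ) (5 / 4)
      · rw [indicator_of_mem h]
      · rw [indicator_of_notMem h]
        rw [mem_closedBall, dist_zero_right] at h
        rw [hw.2 _ (not_le.mp h)]; simp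
    have h2 := eLpNorm_le_eLpNorm_mul_rpow_measure_univ (μ := volume.restrict (closedBall (0 : ℂ) (5 / 4)))
      (f := w) one_le_two (hw.1.1.restrict)
    rw [← h1, Measure.restrict_apply_univ] at h2
    have h3 : eLpNorm w 1 volume ≤ eLpNorm w 2 volume *
        (volume (closedBall (0 : ℂ) (5 / 4))) ^ (1 / (2 : ℝ)) := by
      refine h2.trans ?_
      apply mul_le_mul' (eLpNorm_mono_measure _ Measure.restrict_le_self)
      apply le_of_eq
      congr 1
      norm_num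
    rw [← ENNReal.toReal_mul, mul_comm]
    have h4 : ∫ ζ, ‖w ζ‖ = (eLpNorm w 1 volume).toReal := by
      rw [eLpNorm_one_eq_lintegral_enorm, integral_norm_eq_lintegral_enorm hw.1.1]
    rw [h4]
    apply ENNReal.toReal_mono _ h3
    apply ENNReal.mul_ne_top hw.1.2.ne
    exact ENNReal.rpow_ne_top_of_nonneg (by norm_num) measure_closedBall_lt_top.ne
  have h1 : ‖∫ ζ, w ζ / (z - ζ)‖ ≤ ∫ ζ, ‖w ζ‖ * (6 / ‖z‖) := by
    apply norm_integral_le_of_norm_le ((int_w w hw).norm.mul_const _)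
    filter_upwards with ζ
    by_cases h : ‖ζ‖ ≤ 5 / 4
    · have h2 := norm_sub_norm_le z ζ
      have h3 : ‖z‖ / 6 ≤ ‖z - ζ‖ := by linarith
      rw [norm_div, div_eq_mul_inv]
      apply mul_le_mul_of_nonneg_left _ (norm_nonneg _)
      rw [← inv_div ‖z‖ 6]
      exact inv_anti₀ (by positivity) h3
    · have : w ζ = 0 := hw.2 _ (not_le.mp h)
      rw [this]; simp
  have h2 : ‖(1 / (Real.pi : ℂ))‖ ≤ 1 := by
    rw [norm_div, norm_one, Complex.norm_real,
      Real.norm_of_nonneg Real.pi_pos.le, div_le_one Real.pi_pos]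
    linarith [Real.pi_gt_three]
  unfold Ct
  rw [norm_mul]
  calc ‖(1 / (Real.pi : ℂ))‖ * ‖∫ ζ, w ζ / (z - ζ)‖ ≤ 1 * ∫ ζ, ‖w ζ‖ * (6 / ‖z‖) :=
        mul_le_mul h2 h1 (norm_nonneg _) zero_le_one
    _ = (∫ ζ, ‖w ζ‖) * (6 / ‖z‖) := by rw [one_mul, integral_mul_const]
    _ ≤ (((volume (closedBall (0 : ℂ) (5 / 4))) ^ (1 / (2 : ℝ))).toReal *
      (eLpNorm w 2 volume).toReal) * (6 / ‖z‖) := mul_le_mul_of_nonneg_right hL1 (by positivity)
    _ = _ := by ring

private lemma Ct_ball (w : ℂ → ℂ) (hw : W2 w) :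
    eLpNorm (Ct w) 2 (volume.restrict (closedBall 0 2)) ≤ c0 * eLpNorm w 2 volume := by
  have h1 : (eLpNorm (Ct w) 2 (volume.restrict (closedBall 0 2))) ^ 2 ≤
      (c0 * eLpNorm w 2 volume) ^ 2 := by
    rw [sqn]
    refine le_trans (lintegral_mono (fun z => ?_)) (T_L2 w hw)
    exact pow_le_pow_left₀ bot_le (Ct_le w z) 2
  by_contra hcon
  rw [not_le] at hcon
  exact absurd (ENNReal.pow_lt_pow_left two_ne_zero hcon) (not_lt.mpr h1)

private lemma Ct_meas (w : ℂ → ℂ) (hw : W2 w) (μ : Measure ℂ) [SFinite μ] :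
    AEStronglyMeasurable (Ct w) μ := by
  unfold Ct
  apply AEStronglyMeasurable.const_mul
  have h : AEStronglyMeasurable (fun p : ℂ × ℂ => w p.2 / (p.1 - p.2)) (μ.prod volume) :=
    sm_div (hw.1.1.comp_quasiMeasurePreserving Measure.quasiMeasurePreserving_snd)
      (measurable_fst.sub measurable_snd)
  exact h.integral_prod_right'

theorem piece_C3a : S_C3a := by
  have hc : c0 ≠ ⊤ := by rw [c0_eq]; exact ENNReal.ofReal_ne_top
  set c1 : ℝ := 6 * ((volume (closedBall (0 : ℂ) (5 / 4))) ^ (1 / (2 : ℝ))).toReal with hc1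
  have hc1n : 0 ≤ c1 := by positivity
  set c2 : ℝ := 13 / 4 * (2 * Real.pi) with hc2
  have hc2n : 0 ≤ c2 := by positivity
  refine ⟨c1 + c2, by positivity, ?_, ?_, ?_, ?_⟩
  · intro w hw
    have hball : eLpNorm (Ct w) 2 (volume.restrict (closedBall 0 2)) ≤
        ENNReal.ofReal (c1 + c2) * eLpNorm w 2 volume := by
      refine (Ct_ball w hw).trans ?_
      rw [c0_eq]
      apply mul_le_mul' _ le_rfl
      apply ENNReal.ofReal_le_ofReal
      linarith
    refine ⟨?_, ?_, hball, Ct_diff w hw⟩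
    · intro z hz
      refine (Ct_far w hw z hz).trans ?_
      rw [← hc1]
      apply div_le_div_of_nonneg_right _ (norm_nonneg _)
      apply mul_le_mul_of_nonneg_right _ ENNReal.toReal_nonneg
      linarith
    · refine ⟨Ct_meas w hw _, lt_of_le_of_lt hball ?_⟩
      exact ENNReal.mul_lt_top ENNReal.ofReal_lt_top hw.1.2
  · intro w w' hw hw'
    constructor
    · filter_upwards [T_ae w hw, T_ae w' hw'] with z h1 h2
      exact Ct_add' w w' hw hw' z h1 h2
    · intro z hz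
      exact Ct_add' w w' hw hw' z (T_fin w hw z hz) (T_fin w' hw' z hz)
  · intro w c z
    unfold Ct
    have : ∀ ζ, c * w ζ / (z - ζ) = c * (w ζ / (z - ζ)) := fun ζ => by rw [mul_div_assoc]
    simp only [this]
    rw [integral_const_mul]
    ring
  · intro w z
    unfold Ct
    rw [map_mul, ← integral_conj]
    have h1 : conj (1 / (Real.pi : ℂ)) = 1 / (Real.pi : ℂ) := by
      rw [map_div₀, map_one, Complex.conj_ofReal]
    rw [h1]
    congr 1
    have h2 := (Complex.conjLIE.measurePreserving).integral_comp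
      (Complex.conjLIE.toHomeomorph.measurableEmbedding)
      (fun ζ => conj (w ζ / (conj z - ζ)))
    rw [← h2]
    apply integral_congr_ae
    filter_upwards with ζ
    simp [map_div₀]

end

end Cal
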