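import Pool.Agent.Lib.MP_4ea4c7_an.Stm1

/-! # [CA B3b] weak derivatives of the Cauchy transform of `L²` functions -/

open MeasureTheory Complex Metric Set Filter Topology
open scoped ComplexConjugate ENNReal NNReal

namespace Cal

noncomputable section

private def CtB (C : ℝ) : Prop := ∀ w : ℂ → ℂ, W2 w →
    (∀ z, 3 / 2 ≤ ‖z‖ → ‖Ct w z‖ ≤ C * (eLpNorm w 2 volume).toReal / ‖z‖) ∧
    MemLp (Ct w) 2 (volume.restrict (closedBall 0 2)) ∧
    eLpNorm (Ct w) 2 (volume.restrict (closedBall 0 2)) ≤ ENNReal.ofReal C * eLpNorm w 2 volume ∧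
    DifferentiableOn ℂ (Ct w) {z | 5 / 4 < ‖z‖}

private lemma Ct_aesm {C : ℝ} (h : CtB C) (w : ℂ → ℂ) (hw : W2 w) :
    AEStronglyMeasurable (Ct w) volume := by
  have h1 := (h w hw).2.1.1
  have h2 : AEStronglyMeasurable (Ct w) (volume.restrict {z | 5 / 4 < ‖z‖}) :=
    (h w hw).2.2.2.continuousOn.aestronglyMeasurable
      (isOpen_lt continuous_const continuous_norm).measurableSet
  have h3 := aestronglyMeasurable_union_iff.mpr ⟨h1, h2⟩
  have h4 : closedBall (0 : ℂ) 2 ∪ {z | 5 / 4 < ‖z‖} = univ := by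
    ext z
    simp only [mem_union, mem_closedBall, dist_zero_right, mem_ofPred_eq, mem_univ, iff_true]
    rcases le_or_gt ‖z‖ 2 with h | h
    · exact Or.inl h
    · exact Or.inr (by linarith)
  rwa [h4, Measure.restrict_univ] at h3

private lemma Ct_loc {C : ℝ} (hC : 0 ≤ C) (h : CtB C) (K : Set ℂ) (hK : IsCompact K) :
    ∃ C' : ℝ≥0∞, C' ≠ ⊤ ∧ ∀ w, W2 w → MemLp (Ct w) 2 (volume.restrict K) ∧
      eLpNorm (Ct w) 2 (volume.restrict K) ≤ C' * eLpNorm w 2 volume := by
  have hvK : volume K ≠ ⊤ := hK.measure_lt_top.ne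
  have hfin : ENNReal.ofReal C + (volume K) ^ ((2 : ℝ≥0∞).toReal⁻¹) * ENNReal.ofReal C ≠ ⊤ := by
    apply ENNReal.add_ne_top.mpr
    refine ⟨ENNReal.ofReal_ne_top, ENNReal.mul_ne_top ?_ ENNReal.ofReal_ne_top⟩
    exact ENNReal.rpow_ne_top_of_nonneg (by positivity) hvK
  refine ⟨_, hfin, ?_⟩
  intro w hw
  obtain ⟨b1, b2, b3, b4⟩ := h w hw
  have hm := Ct_aesm h w hw
  have hB : MeasurableSet (closedBall (0 : ℂ) 2) := isClosed_closedBall.measurableSet
  have hbound : eLpNorm (Ct w) 2 (volume.restrict K) ≤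
      (ENNReal.ofReal C + (volume K) ^ ((2 : ℝ≥0∞).toReal⁻¹) * ENNReal.ofReal C) *
        eLpNorm w 2 volume := by
    have e : (closedBall (0 : ℂ) 2).indicator (Ct w) + ((closedBall (0 : ℂ) 2)ᶜ).indicator (Ct w) =
        Ct w := indicator_self_add_compl _ _
    calc eLpNorm (Ct w) 2 (volume.restrict K)
        = eLpNorm ((closedBall (0 : ℂ) 2).indicator (Ct w) +
            ((closedBall (0 : ℂ) 2)ᶜ).indicator (Ct w)) 2 (volume.restrict K) := by rw [e]
      _ ≤ eLpNorm ((closedBall (0 : ℂ) 2).indicator (Ct w)) 2 (volume.restrict K) +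
            eLpNorm (((closedBall (0 : ℂ) 2)ᶜ).indicator (Ct w)) 2 (volume.restrict K) :=
          eLpNorm_add_le (hm.restrict.indicator hB) (hm.restrict.indicator hB.compl) one_le_two
      _ ≤ ENNReal.ofReal C * eLpNorm w 2 volume +
            (volume K) ^ ((2 : ℝ≥0∞).toReal⁻¹) * (ENNReal.ofReal C * eLpNorm w 2 volume) := by
          apply add_le_add
          · refine (eLpNorm_mono_measure _ Measure.restrict_le_self).trans ?_
            rw [eLpNorm_indicator_eq_eLpNorm_restrict hB]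
            exact b3
          · have h2 : ∀ᵐ z ∂(volume.restrict K), ‖((closedBall (0 : ℂ) 2)ᶜ).indicator (Ct w) z‖ ≤
                C * (eLpNorm w 2 volume).toReal := by
              filter_upwards with z
              by_cases hz : z ∈ (closedBall (0 : ℂ) 2)ᶜ
              · rw [indicator_of_mem hz]
                rw [mem_compl_iff, mem_closedBall, dist_zero_right, not_le] at hz
                refine (b1 z (by linarith)).trans ?_
                apply div_le_self
                · exact mul_nonneg hC ENNReal.toReal_nonneg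
                · linarith
              · rw [indicator_of_notMem hz, norm_zero]
                exact mul_nonneg hC ENNReal.toReal_nonneg
            refine (eLpNorm_le_of_ae_bound h2).trans ?_
            rw [Measure.restrict_apply_univ, ENNReal.ofReal_mul hC,
              ENNReal.ofReal_toReal hw.1.2.ne]
      _ = _ := by ring
  exact ⟨⟨hm.restrict, lt_of_le_of_lt hbound (ENNReal.mul_lt_top
    (lt_top_iff_ne_top.mpr hfin) hw.1.2)⟩, hbound⟩

private lemma sqn (f : ℂ → ℂ) (μ : Measure ℂ) : (eLpNorm f 2 μ) ^ 2 = ∫⁻ z, ‖f z‖ₑ ^ 2 ∂μ := by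
  rw [eLpNorm_eq_lintegral_rpow_enorm_toReal two_ne_zero ENNReal.ofNat_ne_top]
  rw [← ENNReal.rpow_natCast, ← ENNReal.rpow_mul]
  simp

private lemma CS' (f g : ℂ → ℂ) (μ : Measure ℂ) (hf : AEStronglyMeasurable f μ)
    (hg : AEStronglyMeasurable g μ) :
    ∫⁻ z, ‖f z * g z‖ₑ ∂μ ≤ eLpNorm f 2 μ * eLpNorm g 2 μ := by
  have h := ENNReal.lintegral_mul_le_Lp_mul_Lq μ Real.HolderConjugate.two_two hf.enorm hg.enorm
  rw [eLpNorm_eq_lintegral_rpow_enorm_toReal two_ne_zero ENNReal.ofNat_ne_top,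
    eLpNorm_eq_lintegral_rpow_enorm_toReal two_ne_zero ENNReal.ofNat_ne_top]
  simp only [ENNReal.toReal_ofNat]
  refine le_trans (le_of_eq ?_) h
  apply lintegral_congr
  intro z
  rw [enorm_mul]
  rfl

private lemma trunc (w : ℂ → ℂ) (hw : W2 w) (ε : ℝ≥0∞) (hε : 0 < ε) : ∃ n : ℕ,
    eLpNorm (fun z => (closedBall (0 : ℂ) (5 / 4 - 1 / ((n : ℝ) + 1))).indicator w z - w z) 2
      volume < ε := by
  have h1 : Tendsto (fun n : ℕ => ∫⁻ z, ‖(closedBall (0 : ℂ) (5 / 4 - 1 / ((n : ℝ) + 1))).indicator w z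
      - w z‖ₑ ^ 2) atTop (𝓝 (∫⁻ _ : ℂ, 0)) := by
    apply tendsto_lintegral_of_dominated_convergence' (fun z => ‖w z‖ₑ ^ 2)
    · intro n
      exact (((hw.1.1.indicator isClosed_closedBall.measurableSet).sub hw.1.1).enorm).pow_const 2
    · intro n
      filter_upwards with z
      apply pow_le_pow_left₀ bot_le
      by_cases h : z ∈ closedBall (0 : ℂ) (5 / 4 - 1 / ((n : ℝ) + 1))
      · rw [indicator_of_mem h, sub_self]; simp
      · rw [indicator_of_notMem h, zero_sub, enorm_neg]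
    · rw [← sqn]
      exact ENNReal.pow_ne_top hw.1.2.ne
    · have hs : ∀ᵐ z : ℂ, z ∉ sphere (0 : ℂ) (5 / 4) := by
        rw [ae_iff]
        simp only [not_not]
        exact Measure.addHaar_sphere volume (0 : ℂ) (5 / 4)
      filter_upwards [hs] with z hz
      rw [mem_sphere, dist_zero_right] at hz
      rcases lt_or_gt_of_ne hz with h | h
      · apply tendsto_const_nhds.congr'
        have h2 : Tendsto (fun n : ℕ => 5 / 4 - 1 / ((n : ℝ) + 1)) atTop (𝓝 (5 / 4 - 0)) :=
          tendsto_const_nhds.sub tendsto_one_div_add_atTop_nhds_zero_nat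
        rw [sub_zero] at h2
        filter_upwards [h2.eventually (lt_mem_nhds h)] with n hn
        rw [indicator_of_mem]
        · rw [sub_self]; simp
        · rw [mem_closedBall, dist_zero_right]; exact hn.le
      · have hz0 : w z = 0 := hw.2 _ h
        have : ∀ n : ℕ, ‖(closedBall (0 : ℂ) (5 / 4 - 1 / ((n : ℝ) + 1))).indicator w z
            - w z‖ₑ ^ 2 = 0 := by
          intro n
          have : (closedBall (0 : ℂ) (5 / 4 - 1 / ((n : ℝ) + 1))).indicator w z = 0 := by
            by_cases h : z ∈ closedBall (0 : ℂ) (5 / 4 - 1 / ((n : ℝ) + 1))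
            · rw [indicator_of_mem h, hz0]
            · rw [indicator_of_notMem h]
          rw [this, hz0]; simp
        simp only [this]
        exact tendsto_const_nhds
  rw [lintegral_zero] at h1
  have hε2 : 0 < ε ^ 2 := by
    exact pos_iff_ne_zero.mpr (pow_ne_zero 2 hε.ne')
  obtain ⟨n, hn⟩ := (h1.eventually (gt_mem_nhds hε2)).exists
  refine ⟨n, ?_⟩
  rw [← sqn] at hn
  exact lt_of_not_ge (fun hge => absurd hn (not_lt.mpr (pow_le_pow_left₀ bot_le hge 2)))

private lemma approx (hb : S_bump) (w : ℂ → ℂ) (hw : W2 w) (ε : ℝ≥0∞) (hε : 0 < ε) :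
    ∃ v : ℂ → ℂ, TF univ v ∧ (∀ z, 5 / 4 < ‖z‖ → v z = 0) ∧
      eLpNorm (fun z => v z - w z) 2 volume < ε := by
  obtain ⟨ρ, r1, r2, r3, r4, r5, r6, r7, r8⟩ := hb
  obtain ⟨n, hn⟩ := trunc w hw (ε / 2) (ENNReal.half_pos hε.ne')
  set g : ℂ → ℂ := (closedBall (0 : ℂ) (5 / 4 - 1 / ((n : ℝ) + 1))).indicator w with hg
  have hgm : MemLp g 2 volume := hw.1.indicator isClosed_closedBall.measurableSet
  obtain ⟨m, hm, hnm⟩ := (((r7 g hgm).2.eventually (gt_mem_nhds (ENNReal.half_pos hε.ne'))).and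
    (eventually_ge_atTop n)).exists
  have hz : ∀ z, 5 / 4 < ‖z‖ → mol (ρ m) g z = 0 := by
    intro z hz
    unfold mol
    apply integral_eq_zero_of_ae
    filter_upwards with ζ
    by_cases h : ζ ∈ closedBall (0 : ℂ) (5 / 4 - 1 / ((n : ℝ) + 1))
    · rw [mem_closedBall, dist_zero_right] at h
      have h1 : 1 / ((m : ℝ) + 1) ≤ 1 / ((n : ℝ) + 1) := by
        apply one_div_le_one_div_of_le (by positivity)
        have : (n : ℝ) ≤ m := by exact_mod_cast hnm
        linarith
      have h2 := norm_sub_norm_le z ζ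
      rw [r3 m (z - ζ) (by linarith)]
      simp
    · rw [hg, indicator_of_notMem h]
      simp
  refine ⟨mol (ρ m) g, ⟨r6 g (hgm.locallyIntegrable one_le_two) m, ?_, subset_univ _⟩, hz, ?_⟩
  · apply HasCompactSupport.intro (isCompact_closedBall (0 : ℂ) (5 / 4))
    intro z hz2
    apply hz
    rw [mem_closedBall, dist_zero_right] at hz2
    exact not_le.mp hz2
  · have e : (fun z => mol (ρ m) g z - w z) =
        (fun z => mol (ρ m) g z - g z) + (fun z => g z - w z) := by
      ext z; simp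
    rw [e]
    refine lt_of_le_of_lt (eLpNorm_add_le (((r7 g hgm).1 m).1.1.sub hgm.1)
      (hgm.1.sub hw.1.1) one_le_two) ?_
    calc _ < ε / 2 + ε / 2 := ENNReal.add_lt_add hm hn
      _ = ε := ENNReal.add_halves ε

private lemma dz_zero (φ : ℂ → ℂ) (z : ℂ) (hz : z ∉ tsupport φ) : dz φ z = 0 ∧ db φ z = 0 := by
  have : fderiv ℝ φ z = 0 := by
    have h := tsupport_fderiv_subset ℝ (f := φ)
    exact image_eq_zero_of_notMem_tsupport (fun h2 => hz (h h2))
  unfold dz db
  rw [this]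
  simp

private lemma dz_mem (φ : ℂ → ℂ) (hφ : TF univ φ) : MemLp (dz φ) 2 volume ∧ MemLp (db φ) 2 volume := by
  have hc : Continuous (fderiv ℝ φ) := hφ.1.continuous_fderiv (by simp)
  have h1 : Continuous (fun z => fderiv ℝ φ z 1) := hc.clm_apply continuous_const
  have h2 : Continuous (fun z => fderiv ℝ φ z I) := hc.clm_apply continuous_const
  constructor
  · apply Continuous.memLp_of_hasCompactSupport
    · exact ((h1.sub (continuous_const.mul h2)).div_const 2)
    · exact HasCompactSupport.intro hφ.2.1 (fun z hz => (dz_zero φ z hz).1)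
  · apply Continuous.memLp_of_hasCompactSupport
    · exact ((h1.add (continuous_const.mul h2)).div_const 2)
    · exact HasCompactSupport.intro hφ.2.1 (fun z hz => (dz_zero φ z hz).2)

private lemma lim_int {μ : Measure ℂ} (f : ℂ → ℂ) (F : ℕ → ℂ → ℂ) (g : ℂ → ℂ) (hf : MemLp f 2 μ)
    (hF : ∀ n, MemLp (F n) 2 μ) (hg : MemLp g 2 μ)
    (h : Tendsto (fun n => eLpNorm (fun z => F n z - f z) 2 μ) atTop (𝓝 0)) :
    Tendsto (fun n => ∫ z, F n z * g z ∂μ) atTop (𝓝 (∫ z, f z * g z ∂μ)) := by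
  apply tendsto_integral_of_L1 _ (hf.1.mul hg.1)
    (Filter.Eventually.of_forall (fun n => (hF n).integrable_mul hg))
  have h2 : Tendsto (fun n => eLpNorm (fun z => F n z - f z) 2 μ * eLpNorm g 2 μ) atTop (𝓝 0) := by
    have := ENNReal.Tendsto.mul_const h (Or.inr hg.2.ne)
    rwa [zero_mul] at this
  refine tendsto_of_tendsto_of_tendsto_of_le_of_le tendsto_const_nhds h2 (fun _ => bot_le) ?_
  intro n
  refine le_trans (le_of_eq ?_) (CS' (fun z => F n z - f z) g μ ((hF n).1.sub hf.1) hg.1)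
  apply lintegral_congr
  intro z
  rw [sub_mul]
  rfl

private lemma Ct_sub (h : ∀ w w' : ℂ → ℂ, W2 w → W2 w' →
      (∀ᵐ z, Ct (fun ζ => w ζ + w' ζ) z = Ct w z + Ct w' z) ∧
      ∀ z, 5 / 4 < ‖z‖ → Ct (fun ζ => w ζ + w' ζ) z = Ct w z + Ct w' z)
    (h' : ∀ (w : ℂ → ℂ) (c z : ℂ), Ct (fun ζ => c * w ζ) z = c * Ct w z)
    (w w' : ℂ → ℂ) (hw : W2 w) (hw' : W2 w') :
    ∀ᵐ z, Ct (fun ζ => w ζ - w' ζ) z = Ct w z - Ct w' z := by
  have hn : W2 (fun ζ => (-1) * w' ζ) :=
    ⟨hw'.1.const_mul (-1), fun z hz => by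
      show (-1) * w' z = 0
      rw [hw'.2 z hz, mul_zero]⟩
  filter_upwards [(h w _ hw hn).1] with z hz
  rw [h' w' (-1) z] at hz
  have e : (fun ζ => w ζ - w' ζ) = fun ζ => w ζ + (-1) * w' ζ := by
    ext ζ; ring
  rw [e, hz]
  ring

private lemma W2_sub (w w' : ℂ → ℂ) (hw : W2 w) (hw' : W2 w') : W2 (fun ζ => w ζ - w' ζ) :=
  ⟨hw.1.sub hw'.1, fun z hz => by
    show w z - w' z = 0
    rw [hw.2 z hz, hw'.2 z hz, sub_zero]⟩

theorem piece_C3b (h1 : S_bump) (_h2 : S_basic) (h3 : S_smooth) (h4 : S_C1) (h5 : S_C2)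
    (h6 : S_C3a) : S_C3b := by
  intro w hw
  obtain ⟨C, hC, k1, k2, k3, -⟩ := h6
  -- the approximating sequence
  have hb : ∀ n : ℕ, (0 : ℝ≥0∞) < (2⁻¹ : ℝ≥0∞) ^ (n + 1) := by
    intro n
    exact pos_iff_ne_zero.mpr (pow_ne_zero _ (by simp))
  choose v hv1 hv2 hv3 using fun n : ℕ => approx h1 w hw _ (hb n)
  have hvm : ∀ n, MemLp (v n) 2 volume := fun n =>
    (hv1 n).1.continuous.memLp_of_hasCompactSupport (hv1 n).2.1
  have hvW : ∀ n, W2 (v n) := fun n => ⟨hvm n, hv2 n⟩
  have hvlim : Tendsto (fun n => eLpNorm (fun z => v n z - w z) 2 volume) atTop (𝓝 0) := by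
    have hlim : Tendsto (fun n : ℕ => (2⁻¹ : ℝ≥0∞) ^ (n + 1)) atTop (𝓝 0) := by
      have := ENNReal.tendsto_pow_atTop_nhds_zero_of_lt_one (r := 2⁻¹) (by
        rw [ENNReal.inv_lt_one]; exact ENNReal.one_lt_two)
      exact this.comp (tendsto_add_atTop_nat 1)
    exact tendsto_of_tendsto_of_tendsto_of_le_of_le tendsto_const_nhds hlim (fun _ => bot_le)
      (fun n => (hv3 n).le)
  -- differences
  have hdiff : ∀ n m, (fun z => dz (Ct (v n)) z - dz (Ct (v m)) z) =
      dz (Ct (fun z => v n z - v m z)) := by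
    intro n m
    have hTF : TF univ (fun z => v n z - v m z) :=
      ⟨(hv1 n).1.sub (hv1 m).1, (hv1 n).2.1.sub (hv1 m).2.1, subset_univ _⟩
    have hae := Ct_sub k2 k3 (v n) (v m) (hvW n) (hvW m)
    have c1 : Continuous (Ct (fun z => v n z - v m z)) := (h4 _ hTF).1.continuous
    have c2 : Continuous (fun z => Ct (v n) z - Ct (v m) z) :=
      (h4 _ (hv1 n)).1.continuous.sub (h4 _ (hv1 m)).1.continuous
    have heq : Ct (fun z => v n z - v m z) = fun z => Ct (v n) z - Ct (v m) z :=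
      (c1.ae_eq_iff_eq volume c2).mp hae
    rw [heq]
    ext z
    have d1 : DifferentiableAt ℝ (Ct (v n)) z := ((h4 _ (hv1 n)).1.differentiable (by simp)) z
    have d2 : DifferentiableAt ℝ (Ct (v m)) z := ((h4 _ (hv1 m)).1.differentiable (by simp)) z
    have e : fderiv ℝ (fun z => Ct (v n) z - Ct (v m) z) z =
        fderiv ℝ (Ct (v n)) z - fderiv ℝ (Ct (v m)) z :=
      (d1.hasFDerivAt.sub d2.hasFDerivAt).fderiv
    unfold dz
    rw [e]
    simp only [_root_.sub_apply]
    ring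
  -- the limit of the derivatives
  obtain ⟨A, hA, hAlim⟩ := Lp.cauchy_complete_eLpNorm (μ := (volume : Measure ℂ)) (p := 2)
    (f := fun n => dz (Ct (v n))) one_le_two (fun n => (h5 _ (hv1 n)).2.1)
    (B := fun n => (2⁻¹ : ℝ≥0∞) ^ n) (by rw [ENNReal.tsum_geometric_two]; exact ENNReal.ofNat_ne_top)
    (by
      intro N n m hn hm
      have hTF : TF univ (fun z => v n z - v m z) :=
        ⟨(hv1 n).1.sub (hv1 m).1, (hv1 n).2.1.sub (hv1 m).2.1, subset_univ _⟩
      have e1 : dz (Ct (v n)) - dz (Ct (v m)) = dz (Ct (fun z => v n z - v m z)) := by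
        rw [← hdiff n m]; rfl
      rw [e1, (h5 _ hTF).2.2]
      have e2 : (fun z => v n z - v m z) = (fun z => v n z - w z) - (fun z => v m z - w z) := by
        ext z; simp
      rw [e2]
      refine lt_of_le_of_lt (eLpNorm_sub_le ((hvm n).1.sub hw.1.1) ((hvm m).1.sub hw.1.1)
        one_le_two) ?_
      have hmono : ∀ n : ℕ, N ≤ n → (2⁻¹ : ℝ≥0∞) ^ (n + 1) ≤ (2⁻¹ : ℝ≥0∞) ^ N * 2⁻¹ := by
        intro n hn
        rw [pow_succ]
        apply mul_le_mul' _ le_rfl
        exact pow_le_pow_right_of_le_one' (by rw [ENNReal.inv_le_one]; exact one_le_two) hn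
      calc _ < (2⁻¹ : ℝ≥0∞) ^ N * 2⁻¹ + (2⁻¹ : ℝ≥0∞) ^ N * 2⁻¹ :=
            ENNReal.add_lt_add (lt_of_lt_of_le (hv3 n) (hmono n hn))
              (lt_of_lt_of_le (hv3 m) (hmono m hm))
        _ = (2⁻¹ : ℝ≥0∞) ^ N := by
            rw [← mul_add, ENNReal.inv_two_add_inv_two, mul_one])
  have hAlim' : Tendsto (fun n => eLpNorm (fun z => dz (Ct (v n)) z - A z) 2 volume) atTop (𝓝 0) :=
    hAlim
  -- norms
  have hnorm : eLpNorm A 2 volume = eLpNorm w 2 volume := by
    have hlim2 : Tendsto (fun n => eLpNorm (fun z => dz (Ct (v n)) z - A z) 2 volume +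
        (eLpNorm (fun z => v n z - w z) 2 volume)) atTop (𝓝 0) := by
      simpa using hAlim'.add hvlim
    apply le_antisymm
    · have : Tendsto (fun n => (eLpNorm (fun z => dz (Ct (v n)) z - A z) 2 volume +
        (eLpNorm (fun z => v n z - w z) 2 volume)) + eLpNorm w 2 volume) atTop
          (𝓝 (0 + eLpNorm w 2 volume)) := hlim2.add tendsto_const_nhds
      rw [zero_add] at this
      refine ge_of_tendsto' this (fun n => ?_)
      have e1 : A = (dz (Ct (v n))) - (fun z => dz (Ct (v n)) z - A z) := by ext z; simp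
      have i1 : eLpNorm A 2 volume ≤ eLpNorm (dz (Ct (v n))) 2 volume +
          eLpNorm (fun z => dz (Ct (v n)) z - A z) 2 volume := by
        conv_lhs => rw [e1]
        exact eLpNorm_sub_le (h5 _ (hv1 n)).2.1.1 ((h5 _ (hv1 n)).2.1.1.sub hA.1) one_le_two
      rw [(h5 _ (hv1 n)).2.2] at i1
      have e2 : v n = (fun z => v n z - w z) + w := by ext z; simp
      have i2 : eLpNorm (v n) 2 volume ≤ eLpNorm (fun z => v n z - w z) 2 volume +
          eLpNorm w 2 volume := by
        conv_lhs => rw [e2]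
        exact eLpNorm_add_le ((hvm n).1.sub hw.1.1) hw.1.1 one_le_two
      calc _ ≤ _ := i1
        _ ≤ (eLpNorm (fun z => v n z - w z) 2 volume + eLpNorm w 2 volume) +
            eLpNorm (fun z => dz (Ct (v n)) z - A z) 2 volume := add_le_add i2 le_rfl
        _ = _ := by ring
    · have : Tendsto (fun n => (eLpNorm (fun z => dz (Ct (v n)) z - A z) 2 volume +
        (eLpNorm (fun z => v n z - w z) 2 volume)) + eLpNorm A 2 volume) atTop
          (𝓝 (0 + eLpNorm A 2 volume)) := hlim2.add tendsto_const_nhds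
      rw [zero_add] at this
      refine ge_of_tendsto' this (fun n => ?_)
      have e1 : w = (v n) - (fun z => v n z - w z) := by ext z; simp
      have i1 : eLpNorm w 2 volume ≤ eLpNorm (v n) 2 volume +
          eLpNorm (fun z => v n z - w z) 2 volume := by
        conv_lhs => rw [e1]
        exact eLpNorm_sub_le (hvm n).1 ((hvm n).1.sub hw.1.1) one_le_two
      rw [← (h5 _ (hv1 n)).2.2] at i1
      have e2 : dz (Ct (v n)) = (fun z => dz (Ct (v n)) z - A z) + A := by ext z; simp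
      have i2 : eLpNorm (dz (Ct (v n))) 2 volume ≤
          eLpNorm (fun z => dz (Ct (v n)) z - A z) 2 volume + eLpNorm A 2 volume := by
        conv_lhs => rw [e2]
        exact eLpNorm_add_le ((h5 _ (hv1 n)).2.1.1.sub hA.1) hA.1 one_le_two
      calc _ ≤ _ := i1
        _ ≤ (eLpNorm (fun z => dz (Ct (v n)) z - A z) 2 volume + eLpNorm A 2 volume) +
            eLpNorm (fun z => v n z - w z) 2 volume := add_le_add i2 le_rfl
        _ = _ := by ring
  -- local convergence of the transforms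
  have hloc : ∀ K : Set ℂ, IsCompact K →
      Tendsto (fun n => eLpNorm (fun z => Ct (v n) z - Ct w z) 2 (volume.restrict K)) atTop
        (𝓝 0) := by
    intro K hK
    obtain ⟨C', hC', hb'⟩ := Ct_loc hC k1 K hK
    have hlim3 : Tendsto (fun n => C' * eLpNorm (fun z => v n z - w z) 2 volume) atTop (𝓝 0) := by
      have := ENNReal.Tendsto.const_mul hvlim (Or.inr hC')
      rwa [mul_zero] at this
    refine tendsto_of_tendsto_of_tendsto_of_le_of_le tendsto_const_nhds hlim3 (fun _ => bot_le) ?_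
    intro n
    have hae : (fun z => Ct (v n) z - Ct w z) =ᵐ[volume.restrict K]
        Ct (fun z => v n z - w z) := by
      apply ae_restrict_of_ae
      filter_upwards [Ct_sub k2 k3 (v n) w (hvW n) hw] with z hz
      exact hz.symm
    simp only
    rw [eLpNorm_congr_ae hae]
    exact (hb' _ (W2_sub _ _ (hvW n) hw)).2
  refine ⟨A, hA, ⟨?_, ?_, ?_, ?_, ?_⟩, hnorm⟩
  · intro K hK _
    obtain ⟨C', hC', hb'⟩ := Ct_loc hC k1 K hK
    exact (hb' w hw).1
  · intro K _ _
    exact hA.restrict K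
  · intro K _ _
    exact hw.1.restrict K
  · intro φ hφ
    have hcl : ∀ n, ∫ z, Ct (v n) z * dz φ z = - ∫ z, dz (Ct (v n)) z * φ z := by
      intro n
      exact (h3.1 univ (Ct (v n)) isOpen_univ
        ((h4 _ (hv1 n)).1.contDiffOn.of_le (by exact_mod_cast le_top))).hA φ hφ
    have hK : IsCompact (tsupport φ) := hφ.2.1
    have l1 : Tendsto (fun n => ∫ z, Ct (v n) z * dz φ z) atTop (𝓝 (∫ z, Ct w z * dz φ z)) := by
      have hset : ∀ f : ℂ → ℂ, ∫ z, f z * dz φ z = ∫ z in tsupport φ, f z * dz φ z := by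
        intro f
        rw [setIntegral_eq_integral_of_forall_compl_eq_zero]
        intro z hz
        rw [(dz_zero φ z hz).1, mul_zero]
      simp only [hset]
      obtain ⟨C', hC', hb'⟩ := Ct_loc hC k1 _ hK
      exact lim_int _ _ _ (hb' w hw).1 (fun n => (hb' _ (hvW n)).1) ((dz_mem φ hφ).1.restrict _)
        (hloc _ hK)
    have hφm : MemLp φ 2 volume := hφ.1.continuous.memLp_of_hasCompactSupport hφ.2.1
    have l2 : Tendsto (fun n => - ∫ z, dz (Ct (v n)) z * φ z) atTop (𝓝 (- ∫ z, A z * φ z)) :=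
      (lim_int _ _ _ hA (fun n => (h5 _ (hv1 n)).2.1) hφm hAlim').neg
    simp only [hcl] at l1
    exact tendsto_nhds_unique l1 l2
  · intro φ hφ
    have hcl : ∀ n, ∫ z, Ct (v n) z * db φ z = - ∫ z, v n z * φ z := by
      intro n
      have := (h3.1 univ (Ct (v n)) isOpen_univ
        ((h4 _ (hv1 n)).1.contDiffOn.of_le (by exact_mod_cast le_top))).hB φ hφ
      rw [this]
      congr 1
      apply integral_congr_ae
      filter_upwards with z
      rw [(h5 _ (hv1 n)).1 z]
    have hK : IsCompact (tsupport φ) := hφ.2.1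
    have l1 : Tendsto (fun n => ∫ z, Ct (v n) z * db φ z) atTop (𝓝 (∫ z, Ct w z * db φ z)) := by
      have hset : ∀ f : ℂ → ℂ, ∫ z, f z * db φ z = ∫ z in tsupport φ, f z * db φ z := by
        intro f
        rw [setIntegral_eq_integral_of_forall_compl_eq_zero]
        intro z hz
        rw [(dz_zero φ z hz).2, mul_zero]
      simp only [hset]
      obtain ⟨C', hC', hb'⟩ := Ct_loc hC k1 _ hK
      exact lim_int _ _ _ (hb' w hw).1 (fun n => (hb' _ (hvW n)).1) ((dz_mem φ hφ).2.restrict _)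
        (hloc _ hK)
    have hφm : MemLp φ 2 volume := hφ.1.continuous.memLp_of_hasCompactSupport hφ.2.1
    have l2 : Tendsto (fun n => - ∫ z, v n z * φ z) atTop (𝓝 (- ∫ z, w z * φ z)) :=
      (lim_int _ _ _ hw.1 hvm hφm hvlim).neg
    simp only [hcl] at l1
    exact tendsto_nhds_unique l1 l2

end

end Cal
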