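import Pool.Agent.Lib.MP_4ea4c7_an.Stm1

/-! # [CA B4] Cauchy transform of bounded functions -/

open MeasureTheory Complex Metric Set Filter Topology
open scoped ComplexConjugate ENNReal NNReal

namespace Cal

noncomputable section

/-- the kernel `1/|ζ|` is integrable on discs -/
private lemma kerI (R : ℝ) : ∫⁻ ζ in closedBall (0 : ℂ) R, ‖ζ‖ₑ⁻¹ ≤
    ENNReal.ofReal R * ENNReal.ofReal (2 * Real.pi) := by
  rw [← lintegral_indicator isClosed_closedBall.measurableSet,
    ← Complex.lintegral_comp_polarCoord_symm]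
  calc ∫⁻ p in polarCoord.target, ENNReal.ofReal p.1 •
        (closedBall (0 : ℂ) R).indicator (fun ζ => ‖ζ‖ₑ⁻¹) (Complex.polarCoord.symm p)
      ≤ ∫⁻ p in polarCoord.target,
          (Iic R ×ˢ (univ : Set ℝ)).indicator (fun _ => (1 : ℝ≥0∞)) p := by
        apply setLIntegral_mono' polarCoord.open_target.measurableSet
        intro p hp
        have hp1 : 0 < p.1 := by
          have : p ∈ Set.Ioi (0 : ℝ) ×ˢ Set.Ioo (-Real.pi) Real.pi := hp
          exact this.1
        have hn : ‖Complex.polarCoord.symm p‖ = p.1 := by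
          rw [Complex.norm_polarCoord_symm, abs_of_pos hp1]
        by_cases h : p.1 ≤ R
        · have h1 : p ∈ (Iic R ×ˢ (univ : Set ℝ)) := ⟨h, mem_univ _⟩
          rw [indicator_of_mem h1]
          have h2 : Complex.polarCoord.symm p ∈ closedBall (0 : ℂ) R := by
            rw [mem_closedBall, dist_zero_right, hn]; exact h
          rw [indicator_of_mem h2, ← ofReal_norm, hn, smul_eq_mul]
          exact ENNReal.mul_inv_le_one _
        · have h2 : Complex.polarCoord.symm p ∉ closedBall (0 : ℂ) R := by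
            rw [mem_closedBall, dist_zero_right, hn]; exact h
          rw [indicator_of_notMem h2, smul_zero]
          exact bot_le
    _ = volume ((Iic R ×ˢ (univ : Set ℝ)) ∩ polarCoord.target) := by
        rw [lintegral_indicator (measurableSet_Iic.prod MeasurableSet.univ), lintegral_const,
          one_mul, Measure.restrict_restrict (measurableSet_Iic.prod MeasurableSet.univ),
          Measure.restrict_apply MeasurableSet.univ, univ_inter]
    _ ≤ volume (Ioc (0 : ℝ) R ×ˢ Ioo (-Real.pi) Real.pi) := by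
        apply measure_mono
        rintro p ⟨h1, h2⟩
        have h3 : p ∈ Set.Ioi (0 : ℝ) ×ˢ Set.Ioo (-Real.pi) Real.pi := h2
        exact ⟨⟨h3.1, h1.1⟩, h3.2⟩
    _ = ENNReal.ofReal R * ENNReal.ofReal (2 * Real.pi) := by
        rw [Measure.volume_eq_prod, Measure.prod_prod, Real.volume_Ioc, Real.volume_Ioo]
        congr 2 <;> ring

/-- translated version -/
private lemma kerI' (R : ℝ) (z : ℂ) : ∫⁻ ζ in closedBall z R, ‖z - ζ‖ₑ⁻¹ ≤
    ENNReal.ofReal R * ENNReal.ofReal (2 * Real.pi) := by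
  refine le_trans (le_of_eq ?_) (kerI R)
  rw [← lintegral_indicator isClosed_closedBall.measurableSet,
    ← lintegral_indicator isClosed_closedBall.measurableSet]
  rw [← lintegral_sub_left_eq_self (μ := volume)
    (fun ζ => (closedBall (0 : ℂ) R).indicator (fun ζ => ‖ζ‖ₑ⁻¹) ζ) z]
  apply lintegral_congr
  intro ζ
  by_cases h : ζ ∈ closedBall z R
  · rw [indicator_of_mem h, indicator_of_mem]
    rw [mem_closedBall, dist_zero_right, ← dist_eq_norm, dist_comm]; exact h
  · rw [indicator_of_notMem h, indicator_of_notMem]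
    rw [mem_closedBall, dist_zero_right, ← dist_eq_norm, dist_comm]; exact h

/-- the constant `c0` -/
private def c0 : ℝ≥0∞ := ENNReal.ofReal (13 / 4) * ENNReal.ofReal (2 * Real.pi)

private lemma c0_eq : c0 = ENNReal.ofReal (13 / 4 * (2 * Real.pi)) := by
  rw [c0, ← ENNReal.ofReal_mul (by norm_num)]

private lemma ker1 (z : ℂ) (hz : ‖z‖ ≤ 2) :
    ∫⁻ ζ in closedBall (0 : ℂ) (5 / 4), ‖z - ζ‖ₑ⁻¹ ≤ c0 := by
  refine le_trans (lintegral_mono_set ?_) (kerI' (13 / 4) z)
  intro ζ hζ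
  rw [mem_closedBall, dist_zero_right] at hζ
  rw [mem_closedBall, dist_eq_norm]
  have := norm_sub_le ζ z
  linarith

/-- absolute integral -/
private def T (w : ℂ → ℂ) (z : ℂ) : ℝ≥0∞ := ∫⁻ ζ, ‖w ζ‖ₑ * ‖z - ζ‖ₑ⁻¹

private lemma enorm_div_le' (a b : ℂ) : ‖a / b‖ₑ ≤ ‖a‖ₑ * ‖b‖ₑ⁻¹ := by
  by_cases hb : b = 0
  · rw [hb]; simp
  · rw [div_eq_mul_inv, enorm_mul, enorm_inv hb]

private lemma Ct_le (w : ℂ → ℂ) (z : ℂ) : ‖Ct w z‖ₑ ≤ T w z := by
  unfold Ct T
  rw [enorm_mul]
  have h1 : ‖(1 / (Real.pi : ℂ))‖ₑ ≤ 1 := by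
    rw [← ofReal_norm, ENNReal.ofReal_le_one, norm_div, norm_one, Complex.norm_real,
      Real.norm_of_nonneg Real.pi_pos.le, div_le_one Real.pi_pos]
    linarith [Real.pi_gt_three]
  calc ‖(1 / (Real.pi : ℂ))‖ₑ * ‖∫ ζ, w ζ / (z - ζ)‖ₑ ≤ 1 * ∫⁻ ζ, ‖w ζ / (z - ζ)‖ₑ :=
        mul_le_mul' h1 (enorm_integral_le_lintegral_enorm _)
    _ = ∫⁻ ζ, ‖w ζ / (z - ζ)‖ₑ := one_mul _
    _ ≤ _ := lintegral_mono (fun ζ => enorm_div_le' _ _)

private lemma sm_div {α : Type*} [MeasurableSpace α] {μ : Measure α} {f g : α → ℂ}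
    (hf : AEStronglyMeasurable f μ) (hg : Measurable g) :
    AEStronglyMeasurable (fun x => f x / g x) μ := by
  simp only [div_eq_mul_inv]
  exact hf.mul hg.inv.aestronglyMeasurable


private lemma int_ker' (w : ℂ → ℂ) (hw : AEStronglyMeasurable w volume) (z : ℂ) (hz : T w z < ⊤) :
    Integrable (fun ζ => w ζ / (z - ζ)) volume := by
  refine ⟨?_, ?_⟩
  · exact sm_div hw (measurable_const.sub measurable_id)
  · refine lt_of_le_of_lt ?_ hz
    exact lintegral_mono (fun ζ => enorm_div_le' _ _)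

private lemma T_bd (w : ℂ → ℂ) (M : ℝ) (hM : ∀ z, ‖w z‖ ≤ M)
    (hs : ∀ z, 5 / 4 < ‖z‖ → w z = 0) (z : ℂ) :
    T w z ≤ ENNReal.ofReal M * ∫⁻ ζ in closedBall (0 : ℂ) (5 / 4), ‖z - ζ‖ₑ⁻¹ := by
  unfold T
  rw [← lintegral_const_mul' _ _ ENNReal.ofReal_ne_top,
    ← lintegral_indicator isClosed_closedBall.measurableSet]
  apply lintegral_mono
  intro ζ
  simp only
  by_cases h : ζ ∈ closedBall (0 : ℂ) (5 / 4)
  · rw [indicator_of_mem h]
    apply mul_le_mul' _ le_rfl
    rw [← ofReal_norm]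
    exact ENNReal.ofReal_le_ofReal (hM ζ)
  · have : w ζ = 0 := by
      apply hs
      rw [mem_closedBall, dist_zero_right] at h
      exact not_le.mp h
    rw [this]; simp

private lemma ker_far (z : ℂ) (hz : 2 ≤ ‖z‖) :
    ∫⁻ ζ in closedBall (0 : ℂ) (5 / 4), ‖z - ζ‖ₑ⁻¹ ≤
      ENNReal.ofReal (8 / (3 * ‖z‖)) * volume (closedBall (0 : ℂ) (5 / 4)) := by
  rw [← setLIntegral_const]
  apply setLIntegral_mono' isClosed_closedBall.measurableSet
  intro ζ hζ
  rw [mem_closedBall, dist_zero_right] at hζ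
  have h1 := norm_sub_norm_le z ζ
  have h2 : 3 * ‖z‖ / 8 ≤ ‖z - ζ‖ := by linarith
  have h3 : 0 < 3 * ‖z‖ / 8 := by linarith
  rw [← ofReal_norm, ← ENNReal.ofReal_inv_of_pos (by linarith)]
  apply ENNReal.ofReal_le_ofReal
  rw [← inv_div (3 * ‖z‖) 8]
  exact inv_anti₀ h3 h2

/-- the truncated kernel -/
private def kt (ε : ℝ) (η : ℂ) : ℂ := conj η / ((max (‖η‖ ^ 2) (ε ^ 2) : ℝ) : ℂ)

private lemma kt_cont (ε : ℝ) (hε : 0 < ε) : Continuous (kt ε) := by
  unfold kt
  apply Continuous.div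
  · exact Complex.continuous_conj
  · exact Complex.continuous_ofReal.comp ((continuous_norm.pow 2).max continuous_const)
  · intro η
    have : 0 < max (‖η‖ ^ 2) (ε ^ 2) := lt_max_of_lt_right (by positivity)
    exact_mod_cast this.ne'

private lemma kt_bd (ε : ℝ) (hε : 0 < ε) (η : ℂ) : ‖kt ε η‖ ≤ 1 / ε := by
  unfold kt
  have hpos : 0 < max (‖η‖ ^ 2) (ε ^ 2) := lt_max_of_lt_right (by positivity)
  rw [norm_div, Complex.norm_real, Real.norm_of_nonneg hpos.le, RCLike.norm_conj,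
    div_le_div_iff₀ hpos hε, one_mul]
  rcases le_total ‖η‖ ε with h | h
  · refine le_trans ?_ (le_max_right _ _)
    nlinarith [norm_nonneg η]
  · refine le_trans ?_ (le_max_left _ _)
    nlinarith [norm_nonneg η]

private lemma kt_eq (ε : ℝ) (hε : 0 < ε) (η : ℂ) (h : ε ≤ ‖η‖) : kt ε η = η⁻¹ := by
  unfold kt
  have h1 : max (‖η‖ ^ 2) (ε ^ 2) = ‖η‖ ^ 2 := max_eq_left (pow_le_pow_left₀ hε.le h 2)
  rw [h1, Complex.inv_def, Complex.normSq_eq_norm_sq, div_eq_mul_inv]
  push_cast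
  rfl

private lemma kt_near (ε : ℝ) (hε : 0 < ε) (η : ℂ) : ‖η⁻¹ - kt ε η‖ₑ ≤ 2 * ‖η‖ₑ⁻¹ := by
  by_cases h0 : η = 0
  · rw [h0]; simp
  · have hη : 0 < ‖η‖ := norm_pos_iff.mpr h0
    have hpos : 0 < max (‖η‖ ^ 2) (ε ^ 2) := lt_max_of_lt_right (by positivity)
    have h1 : ‖kt ε η‖ ≤ ‖η‖⁻¹ := by
      unfold kt
      rw [norm_div, Complex.norm_real, Real.norm_of_nonneg hpos.le, RCLike.norm_conj,
        div_le_iff₀ hpos]
      refine le_trans ?_ (mul_le_mul_of_nonneg_left (le_max_left _ _) (inv_nonneg.mpr hη.le))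
      rw [sq, ← mul_assoc, inv_mul_cancel₀ hη.ne', one_mul]
    have h2 : ‖η⁻¹ - kt ε η‖ ≤ 2 * ‖η‖⁻¹ := by
      refine (norm_sub_le _ _).trans ?_
      rw [norm_inv]
      linarith
    rw [← ofReal_norm, ← ofReal_norm, ← ENNReal.ofReal_inv_of_pos hη]
    refine (ENNReal.ofReal_le_ofReal h2).trans ?_
    rw [ENNReal.ofReal_mul zero_le_two]
    simp

/-- truncated Cauchy transform -/
private def Cte (ε : ℝ) (w : ℂ → ℂ) (z : ℂ) : ℂ := (1 / (Real.pi : ℂ)) * ∫ ζ, w ζ * kt ε (z - ζ)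

private lemma Cte_cont (ε : ℝ) (hε : 0 < ε) (w : ℂ → ℂ) (hw : Integrable w volume) :
    Continuous (Cte ε w) := by
  unfold Cte
  apply Continuous.mul continuous_const
  apply continuous_of_dominated (bound := fun ζ => ‖w ζ‖ * (1 / ε))
  · intro z
    exact hw.1.mul ((kt_cont ε hε).comp (continuous_const.sub continuous_id)).aestronglyMeasurable
  · intro z
    filter_upwards with ζ
    rw [norm_mul]
    exact mul_le_mul_of_nonneg_left (kt_bd ε hε _) (norm_nonneg _)
  · exact hw.norm.mul_const _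
  · filter_upwards with ζ
    exact continuous_const.mul ((kt_cont ε hε).comp (continuous_id.sub continuous_const))

private lemma Cte_near (ε : ℝ) (hε : 0 < ε) (w : ℂ → ℂ) (M : ℝ) (hw : Integrable w volume)
    (hM : ∀ z, ‖w z‖ ≤ M) (z : ℂ) (hT : T w z < ⊤) :
    ‖Ct w z - Cte ε w z‖ ≤ M * (2 * (ε * (2 * Real.pi))) := by
  have hM0 : 0 ≤ M := (norm_nonneg (w 0)).trans (hM 0)
  have h1 : ‖(1 / (Real.pi : ℂ))‖ₑ ≤ 1 := by
    rw [← ofReal_norm, ENNReal.ofReal_le_one, norm_div, norm_one, Complex.norm_real,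
      Real.norm_of_nonneg Real.pi_pos.le, div_le_one Real.pi_pos]
    linarith [Real.pi_gt_three]
  have hi : Integrable (fun ζ => w ζ * kt ε (z - ζ)) volume := by
    apply (hw.norm.mul_const (1 / ε)).mono'
    · exact hw.1.mul ((kt_cont ε hε).comp (continuous_const.sub continuous_id)).aestronglyMeasurable
    · filter_upwards with ζ
      rw [norm_mul]
      exact mul_le_mul_of_nonneg_left (kt_bd ε hε _) (norm_nonneg _)
  have h2 : ‖Ct w z - Cte ε w z‖ₑ ≤ ENNReal.ofReal (M * (2 * (ε * (2 * Real.pi)))) := by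
    unfold Ct Cte
    rw [← mul_sub, ← integral_sub (int_ker' w hw.1 z hT) hi, enorm_mul]
    calc ‖(1 / (Real.pi : ℂ))‖ₑ * ‖∫ ζ, (w ζ / (z - ζ) - w ζ * kt ε (z - ζ))‖ₑ
        ≤ 1 * ∫⁻ ζ, ‖w ζ / (z - ζ) - w ζ * kt ε (z - ζ)‖ₑ :=
          mul_le_mul' h1 (enorm_integral_le_lintegral_enorm _)
      _ = ∫⁻ ζ, ‖w ζ / (z - ζ) - w ζ * kt ε (z - ζ)‖ₑ := one_mul _
      _ ≤ ∫⁻ ζ in closedBall z ε, ENNReal.ofReal M * (2 * ‖z - ζ‖ₑ⁻¹) := by
          rw [← lintegral_indicator isClosed_closedBall.measurableSet]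
          apply lintegral_mono
          intro ζ
          simp only
          rw [div_eq_mul_inv, ← mul_sub, enorm_mul]
          by_cases h : ζ ∈ closedBall z ε
          · rw [indicator_of_mem h]
            rw [mem_closedBall, dist_comm, dist_eq_norm] at h
            apply mul_le_mul' _ (kt_near ε hε _)
            rw [← ofReal_norm]
            exact ENNReal.ofReal_le_ofReal (hM ζ)
          · rw [indicator_of_notMem h]
            rw [mem_closedBall, dist_comm, dist_eq_norm, not_le] at h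
            rw [kt_eq ε hε _ h.le, sub_self]
            simp
      _ = ENNReal.ofReal M * (2 * ∫⁻ ζ in closedBall z ε, ‖z - ζ‖ₑ⁻¹) := by
          rw [lintegral_const_mul' _ _ ENNReal.ofReal_ne_top,
            lintegral_const_mul' _ _ ENNReal.ofNat_ne_top]
      _ ≤ ENNReal.ofReal M * (2 * (ENNReal.ofReal ε * ENNReal.ofReal (2 * Real.pi))) :=
          mul_le_mul' le_rfl (mul_le_mul' le_rfl (kerI' ε z))
      _ = ENNReal.ofReal (M * (2 * (ε * (2 * Real.pi)))) := by
          rw [ENNReal.ofReal_mul hM0,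
            ENNReal.ofReal_mul (p := 2) (q := ε * (2 * Real.pi)) zero_le_two,
            ENNReal.ofReal_mul hε.le, ENNReal.ofReal_ofNat]
  rw [← ofReal_norm] at h2
  exact (ENNReal.ofReal_le_ofReal_iff (by positivity)).mp h2

theorem piece_C4 : S_C4 := by
  set v : ℝ := (volume (closedBall (0 : ℂ) (5 / 4))).toReal with hv
  have hvn : 0 ≤ v := ENNReal.toReal_nonneg
  have hvE : volume (closedBall (0 : ℂ) (5 / 4)) = ENNReal.ofReal v :=
    (ENNReal.ofReal_toReal measure_closedBall_lt_top.ne).symm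
  set c2 : ℝ := 13 / 4 * (2 * Real.pi) with hc2
  have hc2n : 0 ≤ c2 := by positivity
  refine ⟨3 * c2 + 4 * v, by positivity, ?_⟩
  intro w M hw hM hs
  have hM0 : 0 ≤ M := (norm_nonneg (w 0)).trans (hM 0)
  have hind : (closedBall (0 : ℂ) (5 / 4)).indicator w = w := by
    rw [indicator_eq_self]
    intro ζ hζ
    rw [mem_closedBall, dist_zero_right]
    by_contra h
    exact hζ (hs _ (not_le.mp h))
  have hfin : IsFiniteMeasure (volume.restrict (closedBall (0 : ℂ) (5 / 4))) :=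
    ⟨by rw [Measure.restrict_apply_univ]; exact measure_closedBall_lt_top⟩
  have hmem : ∀ p : ℝ≥0∞, MemLp w p volume := by
    intro p
    rw [← hind, memLp_indicator_iff_restrict isClosed_closedBall.measurableSet]
    exact MemLp.of_bound (μ := volume.restrict (closedBall (0 : ℂ) (5 / 4))) hw.restrict M
      (Filter.Eventually.of_forall hM)
  have hint : Integrable w volume := memLp_one_iff_integrable.mp (hmem 1)
  have hTb : ∀ z, T w z ≤ ENNReal.ofReal (M * ((3 * c2 + 4 * v) / (1 + ‖z‖))) := by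
    intro z
    refine (T_bd w M hM hs z).trans ?_
    rw [ENNReal.ofReal_mul hM0]
    apply mul_le_mul' le_rfl
    rcases le_total ‖z‖ 2 with h | h
    · refine (ker1 z h).trans ?_
      rw [c0_eq]
      apply ENNReal.ofReal_le_ofReal
      rw [← hc2, le_div_iff₀ (by positivity)]
      nlinarith [norm_nonneg z]
    · refine (ker_far z h).trans ?_
      rw [hvE, ← ENNReal.ofReal_mul (by positivity)]
      apply ENNReal.ofReal_le_ofReal
      have h0 : 0 < ‖z‖ := by linarith
      rw [div_mul_eq_mul_div, div_le_div_iff₀ (by positivity) (by positivity)]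
      nlinarith [mul_nonneg hvn (sub_nonneg.mpr h), mul_nonneg hc2n h0.le]
  have hTf : ∀ z, T w z < ⊤ := fun z => lt_of_le_of_lt (hTb z) ENNReal.ofReal_lt_top
  refine ⟨?_, ?_, ⟨hmem 2, hs⟩⟩
  · -- continuity
    have hlim : TendstoUniformly (fun (n : ℕ) => Cte (1 / ((n : ℝ) + 1)) w) (Ct w) atTop := by
      rw [Metric.tendstoUniformly_iff]
      intro ε hε
      have h1 : Tendsto (fun n : ℕ => M * (2 * ((1 / ((n : ℝ) + 1)) * (2 * Real.pi)))) atTop
          (𝓝 (M * (2 * (0 * (2 * Real.pi))))) :=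
        ((tendsto_one_div_add_atTop_nhds_zero_nat.mul_const _).const_mul _).const_mul _
      rw [zero_mul, mul_zero, mul_zero] at h1
      filter_upwards [h1.eventually (gt_mem_nhds hε)] with n hn
      intro z
      rw [dist_eq_norm]
      exact lt_of_le_of_lt (Cte_near _ (by positivity) w M hint hM z (hTf z)) hn
    exact hlim.continuous (Filter.Frequently.of_forall (fun n => Cte_cont _ (by positivity) w hint))
  · intro z
    have h1 := (Ct_le w z).trans (hTb z)
    rw [← ofReal_norm] at h1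
    have h2 := (ENNReal.ofReal_le_ofReal_iff (by positivity)).mp h1
    refine h2.trans (le_of_eq ?_)
    ring

end

end Cal
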