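import Pool.Agent.Lib.MP_4ea4c7_an.Stm1

/-! Piece B5 (`S_C5`): integrability gain for the Cauchy transform. -/

open MeasureTheory Complex Metric Set Filter Topology
open scoped ComplexConjugate ENNReal NNReal

namespace Cal

noncomputable section

/-- the kernel `|ζ|^{-s}` -/
private def K5 (s : ℝ) (ζ : ℂ) : ℝ≥0∞ := ENNReal.ofReal (‖ζ‖ ^ (-s))

private lemma K5_meas (s : ℝ) : Measurable (K5 s) := by
  unfold K5
  exact (measurable_norm.pow_const _).ennreal_ofReal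

private lemma K5_mul {a b : ℝ} (ha : a ≠ 0) (hab : a + b ≠ 0) (ζ : ℂ) :
    K5 a ζ * K5 b ζ = K5 (a + b) ζ := by
  unfold K5
  rcases eq_or_ne ζ 0 with rfl | h
  · rw [norm_zero, Real.zero_rpow (neg_ne_zero.mpr ha), Real.zero_rpow (neg_ne_zero.mpr hab)]
    simp
  · have h0 : 0 < ‖ζ‖ := norm_pos_iff.mpr h
    rw [← ENNReal.ofReal_mul (by positivity), ← Real.rpow_add h0]
    congr 2
    ring

private lemma K5_rpow {s p : ℝ} (hp : 0 ≤ p) (ζ : ℂ) : K5 s ζ ^ p = K5 (s * p) ζ := by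
  unfold K5
  rw [ENNReal.ofReal_rpow_of_nonneg (by positivity) hp, ← Real.rpow_mul (norm_nonneg _)]
  congr 2
  ring

private lemma K5_int {s : ℝ} (hs : s < 2) (r : ℝ) : ∫⁻ ζ in ball (0 : ℂ) r, K5 s ζ < ∞ := by
  have h : IntegrableOn (fun ζ : ℂ => ‖ζ‖ ^ (-s)) (ball 0 r) volume := by
    rw [integrableOn_fun_norm_addHaar volume (f := fun y : ℝ => y ^ (-s))]
    have h1 : IntegrableOn (fun y : ℝ => y ^ (1 - s)) (Ioo 0 r) := by
      rcases le_or_gt r 0 with hr | hr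
      · rw [Ioo_eq_empty (not_lt.mpr hr)]; exact integrableOn_empty
      · exact ((intervalIntegral.intervalIntegrable_rpow' (a := 0) (b := r)
          (by linarith)).1).mono_set Ioo_subset_Ioc_self
    refine h1.congr_fun (fun y hy => ?_) measurableSet_Ioo
    have hy0 : 0 < y := hy.1
    simp only [Complex.finrank_real_complex, smul_eq_mul]
    rw [show (1 - s) = 1 + (-s) by ring, Real.rpow_add hy0, Real.rpow_one]
    norm_num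
  exact h.lintegral_lt_top

/-- the truncated kernel -/
private def Kb (s r : ℝ) (ζ : ℂ) : ℝ≥0∞ := (ball (0 : ℂ) r).indicator (K5 s) ζ

private lemma Kb_meas (s r : ℝ) : Measurable (Kb s r) :=
  (K5_meas s).indicator measurableSet_ball

private lemma Kb_mul {a b : ℝ} (ha : a ≠ 0) (hab : a + b ≠ 0) (r : ℝ) (ζ : ℂ) :
    Kb a r ζ * Kb b r ζ = Kb (a + b) r ζ := by
  unfold Kb
  by_cases h : ζ ∈ ball (0 : ℂ) r
  · rw [indicator_of_mem h, indicator_of_mem h, indicator_of_mem h, K5_mul ha hab]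
  · rw [indicator_of_notMem h, indicator_of_notMem h, indicator_of_notMem h]
    simp

private lemma Kb_rpow {s p : ℝ} (hp : 0 < p) (r : ℝ) (ζ : ℂ) : Kb s r ζ ^ p = Kb (s * p) r ζ := by
  unfold Kb
  by_cases h : ζ ∈ ball (0 : ℂ) r
  · rw [indicator_of_mem h, indicator_of_mem h, K5_rpow hp.le]
  · rw [indicator_of_notMem h, indicator_of_notMem h, ENNReal.zero_rpow_of_pos hp]

private lemma Kb_int {s : ℝ} (hs : s < 2) (r : ℝ) : ∫⁻ ζ, Kb s r ζ < ∞ := by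
  unfold Kb
  rw [lintegral_indicator measurableSet_ball]
  exact K5_int hs r

private lemma Kb_trans (s r : ℝ) (z : ℂ) : ∫⁻ ζ, Kb s r (z - ζ) = ∫⁻ ζ, Kb s r ζ :=
  lintegral_sub_left_eq_self _ z

private lemma Kb_trans' (s r : ℝ) (z : ℂ) : ∫⁻ ζ, Kb s r (ζ - z) = ∫⁻ ζ, Kb s r ζ :=
  lintegral_sub_right_eq_self _ z

private lemma enorm_div_kb (a η : ℂ) : ‖a / η‖ₑ = ‖a‖ₑ * K5 1 η := by
  unfold K5
  rw [div_eq_mul_inv, enorm_mul]
  congr 1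
  rw [← ofReal_norm, norm_inv, Real.rpow_neg_one]

private lemma div_le_kb {a η : ℂ} {r : ℝ} (h : a ≠ 0 → ‖η‖ < r) : ‖a / η‖ₑ ≤ ‖a‖ₑ * Kb 1 r η := by
  rcases eq_or_ne a 0 with rfl | ha
  · simp
  · rw [enorm_div_kb]
    unfold Kb
    rw [indicator_of_mem (by simpa using h ha)]

private lemma holder2 (f g : ℂ → ℝ≥0∞) (hf : AEMeasurable f) (hg : AEMeasurable g) :
    ∫⁻ z, f z * g z ≤ (∫⁻ z, f z ^ (2 : ℝ)) ^ (1 / 2 : ℝ) * (∫⁻ z, g z ^ (2 : ℝ)) ^ (1 / 2 : ℝ) :=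
  ENNReal.lintegral_mul_le_Lp_mul_Lq volume Real.HolderConjugate.two_two hf hg

private lemma part1_pt {w : ℂ → ℂ} (hw : AEStronglyMeasurable w volume)
    (hs : ∀ z, 5 / 4 < ‖z‖ → w z = 0) {z : ℂ} (hz : ‖z‖ ≤ 2) :
    ‖Ct w z‖ₑ ^ (4 : ℝ) ≤ ‖(1 / (Real.pi : ℂ))‖ₑ ^ (4 : ℝ) * ((∫⁻ ζ, Kb (3 / 2) 4 ζ) ^ (2 : ℝ) *
      ((∫⁻ ζ, ‖w ζ‖ₑ ^ (2 : ℝ)) * ∫⁻ ζ, ‖w ζ‖ₑ ^ (2 : ℝ) * Kb 1 4 (z - ζ))) := by
  have hwm : AEMeasurable (fun ζ => ‖w ζ‖ₑ) volume := hw.enorm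
  have hk : ∀ s r : ℝ, Measurable (fun ζ : ℂ => Kb s r (z - ζ)) := fun s r =>
    (Kb_meas s r).comp (measurable_const.sub measurable_id)
  have h1 : ‖Ct w z‖ₑ ≤ ‖(1 / (Real.pi : ℂ))‖ₑ * ∫⁻ ζ, ‖w ζ‖ₑ * Kb 1 4 (z - ζ) := by
    unfold Ct
    rw [enorm_mul]
    refine mul_le_mul_right ?_ _
    refine (enorm_integral_le_lintegral_enorm _).trans (lintegral_mono (fun ζ => div_le_kb ?_))
    intro h0
    have h2 : ‖ζ‖ ≤ 5 / 4 := by
      by_contra hc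
      exact h0 (hs ζ (not_le.mp hc))
    have := norm_sub_le z ζ
    linarith
  have h2 : ∫⁻ ζ, ‖w ζ‖ₑ * Kb 1 4 (z - ζ)
      ≤ (∫⁻ ζ, ‖w ζ‖ₑ ^ (2 : ℝ) * Kb (1 / 2) 4 (z - ζ)) ^ (1 / 2 : ℝ)
        * (∫⁻ ζ, Kb (3 / 2) 4 ζ) ^ (1 / 2 : ℝ) := by
    have e : ∀ ζ, ‖w ζ‖ₑ * Kb 1 4 (z - ζ)
        = (‖w ζ‖ₑ * Kb (1 / 4) 4 (z - ζ)) * Kb (3 / 4) 4 (z - ζ) := by
      intro ζ
      rw [mul_assoc, Kb_mul (by norm_num) (by norm_num)]
      norm_num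
    simp_rw [e]
    refine (holder2 _ _ (hwm.mul (hk _ _).aemeasurable) (hk _ _).aemeasurable).trans (le_of_eq ?_)
    congr 2
    · refine lintegral_congr (fun ζ => ?_)
      rw [Pi.mul_apply, ENNReal.mul_rpow_of_nonneg _ _ (by norm_num), Kb_rpow (by norm_num)]
      norm_num
    · rw [← Kb_trans (3 / 2) 4 z]
      refine lintegral_congr (fun ζ => ?_)
      rw [Kb_rpow (by norm_num)]
      norm_num
  have h3 : ∫⁻ ζ, ‖w ζ‖ₑ ^ (2 : ℝ) * Kb (1 / 2) 4 (z - ζ)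
      ≤ (∫⁻ ζ, ‖w ζ‖ₑ ^ (2 : ℝ)) ^ (1 / 2 : ℝ)
        * (∫⁻ ζ, ‖w ζ‖ₑ ^ (2 : ℝ) * Kb 1 4 (z - ζ)) ^ (1 / 2 : ℝ) := by
    have e : ∀ ζ, ‖w ζ‖ₑ ^ (2 : ℝ) * Kb (1 / 2) 4 (z - ζ)
        = ‖w ζ‖ₑ * (‖w ζ‖ₑ * Kb (1 / 2) 4 (z - ζ)) := by
      intro ζ
      rw [← mul_assoc, ENNReal.rpow_two, sq]
    simp_rw [e]
    refine (holder2 _ _ hwm (hwm.mul (hk _ _).aemeasurable)).trans (le_of_eq ?_)
    congr 2
    refine lintegral_congr (fun ζ => ?_)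
    rw [Pi.mul_apply, ENNReal.mul_rpow_of_nonneg _ _ (by norm_num), Kb_rpow (by norm_num)]
    norm_num
  have h4 : ‖Ct w z‖ₑ ≤ ‖(1 / (Real.pi : ℂ))‖ₑ * (((∫⁻ ζ, ‖w ζ‖ₑ ^ (2 : ℝ)) ^ (1 / 2 : ℝ)
        * (∫⁻ ζ, ‖w ζ‖ₑ ^ (2 : ℝ) * Kb 1 4 (z - ζ)) ^ (1 / 2 : ℝ)) ^ (1 / 2 : ℝ)
        * (∫⁻ ζ, Kb (3 / 2) 4 ζ) ^ (1 / 2 : ℝ)) := by
    refine h1.trans (mul_le_mul_right (h2.trans ?_) _)
    exact mul_le_mul_left (ENNReal.rpow_le_rpow h3 (by norm_num)) _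
  refine (ENNReal.rpow_le_rpow h4 (by norm_num : (0 : ℝ) ≤ 4)).trans (le_of_eq ?_)
  rw [ENNReal.mul_rpow_of_nonneg _ _ (by norm_num), ENNReal.mul_rpow_of_nonneg _ _ (by norm_num),
    ← ENNReal.rpow_mul, ← ENNReal.rpow_mul, ENNReal.mul_rpow_of_nonneg _ _ (by norm_num),
    ← ENNReal.rpow_mul, ← ENNReal.rpow_mul]
  norm_num
  ring

private lemma part1 (h1 : S_C3a) (w : ℂ → ℂ) (hw : W2 w) :
    MemLp (Ct w) 4 (volume.restrict (closedBall 0 2)) := by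
  obtain ⟨C, hC, hA, -⟩ := h1
  obtain ⟨-, hm, -, -⟩ := hA w hw
  refine ⟨hm.1, ?_⟩
  rw [eLpNorm_lt_top_iff_lintegral_rpow_enorm_lt_top (by norm_num) (by norm_num)]
  have hwm : AEMeasurable (fun ζ => ‖w ζ‖ₑ) volume := hw.1.1.enorm
  have hW : ∫⁻ ζ, ‖w ζ‖ₑ ^ (2 : ℝ) < ∞ := by
    have := (eLpNorm_lt_top_iff_lintegral_rpow_enorm_lt_top (by norm_num) (by norm_num)).mp hw.1.2
    simpa using this
  set W := ∫⁻ ζ, ‖w ζ‖ₑ ^ (2 : ℝ) with hWdef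
  set T1 := ∫⁻ ζ, Kb (3 / 2) 4 ζ with hT1
  have hT1f : T1 < ∞ := Kb_int (by norm_num) 4
  set T2 := ∫⁻ ζ, Kb 1 4 ζ with hT2
  have hT2f : T2 < ∞ := Kb_int (by norm_num) 4
  have e4 : (4 : ℝ≥0∞).toReal = 4 := by norm_num
  rw [e4]
  calc ∫⁻ z in closedBall 0 2, ‖Ct w z‖ₑ ^ (4 : ℝ)
      ≤ ∫⁻ z in closedBall 0 2, ‖(1 / (Real.pi : ℂ))‖ₑ ^ (4 : ℝ) * (T1 ^ (2 : ℝ) *
          (W * ∫⁻ ζ, ‖w ζ‖ₑ ^ (2 : ℝ) * Kb 1 4 (z - ζ))) := by
        refine setLIntegral_mono' measurableSet_closedBall (fun z hz => ?_)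
        exact part1_pt hw.1.1 hw.2 (by simpa using hz)
    _ ≤ ∫⁻ z, ‖(1 / (Real.pi : ℂ))‖ₑ ^ (4 : ℝ) * (T1 ^ (2 : ℝ) *
          (W * ∫⁻ ζ, ‖w ζ‖ₑ ^ (2 : ℝ) * Kb 1 4 (z - ζ))) := setLIntegral_le_lintegral _ _
    _ = ‖(1 / (Real.pi : ℂ))‖ₑ ^ (4 : ℝ) * (T1 ^ (2 : ℝ) *
          (W * ∫⁻ z, ∫⁻ ζ, ‖w ζ‖ₑ ^ (2 : ℝ) * Kb 1 4 (z - ζ))) := by
        rw [lintegral_const_mul' _ _ (by finiteness), lintegral_const_mul' _ _ (by finiteness),
          lintegral_const_mul' _ _ hW.ne]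
    _ = ‖(1 / (Real.pi : ℂ))‖ₑ ^ (4 : ℝ) * (T1 ^ (2 : ℝ) * (W * (W * T2))) := by
        congr 3
        rw [lintegral_lintegral_swap]
        · have : ∀ ζ, ∫⁻ z, ‖w ζ‖ₑ ^ (2 : ℝ) * Kb 1 4 (z - ζ) = ‖w ζ‖ₑ ^ (2 : ℝ) * T2 := by
            intro ζ
            rw [lintegral_const_mul' _ _ (by finiteness), Kb_trans']
          simp_rw [this]
          rw [lintegral_mul_const' _ _ hT2f.ne]
        · refine AEMeasurable.mul ?_ ?_
          · exact (hwm.pow_const _).comp_snd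
          · exact ((Kb_meas 1 4).comp (measurable_fst.sub measurable_snd)).aemeasurable
    _ < ∞ := by
        have h0 : ‖(1 / (Real.pi : ℂ))‖ₑ ^ (4 : ℝ) < ∞ := by finiteness
        have h2 : T1 ^ (2 : ℝ) < ∞ := ENNReal.rpow_lt_top_of_nonneg (by norm_num) hT1f.ne
        exact ENNReal.mul_lt_top h0 (ENNReal.mul_lt_top h2 (ENNReal.mul_lt_top hW
          (ENNReal.mul_lt_top hW hT2f)))

/-- the continuous truncated kernel -/
private def kc (ε : ℝ) (η : ℂ) : ℂ := conj η * (((max (‖η‖ ^ 2) (ε ^ 2))⁻¹ : ℝ) : ℂ)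

private lemma kc_cont {ε : ℝ} (hε : 0 < ε) : Continuous (kc ε) := by
  unfold kc
  refine Complex.continuous_conj.mul (Complex.continuous_ofReal.comp ?_)
  refine Continuous.inv₀ (by fun_prop) (fun η => ?_)
  have : 0 < ε ^ 2 := by positivity
  exact (lt_max_of_lt_right this).ne'

private lemma kc_norm {ε : ℝ} (hε : 0 < ε) (η : ℂ) : ‖kc ε η‖ ≤ ε⁻¹ := by
  unfold kc
  have h2 : 0 < max (‖η‖ ^ 2) (ε ^ 2) := lt_max_of_lt_right (by positivity)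
  rw [norm_mul, RCLike.norm_conj, Complex.norm_real, Real.norm_of_nonneg (inv_nonneg.mpr h2.le),
    ← div_eq_mul_inv, div_le_iff₀ h2]
  rcases le_total ‖η‖ ε with h | h
  · calc ‖η‖ ≤ ε := h
      _ = ε⁻¹ * ε ^ 2 := by field_simp
      _ ≤ _ := mul_le_mul_of_nonneg_left (le_max_right _ _) (by positivity)
  · calc ‖η‖ = ε⁻¹ * (‖η‖ * ε) := by field_simp
      _ ≤ ε⁻¹ * (‖η‖ ^ 2) := by
        apply mul_le_mul_of_nonneg_left _ (by positivity)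
        nlinarith
      _ ≤ _ := mul_le_mul_of_nonneg_left (le_max_left _ _) (by positivity)

private lemma kc_diff {ε : ℝ} (hε : 0 < ε) (a η : ℂ) :
    ‖a / η - a * kc ε η‖ₑ ≤ ‖a‖ₑ * Kb 1 ε η := by
  have e : a / η - a * kc ε η = a * (η⁻¹ - kc ε η) := by ring
  rw [e, enorm_mul]
  refine mul_le_mul_right ?_ _
  rcases eq_or_ne η 0 with rfl | h0
  · simp [kc]
  have hn : 0 < ‖η‖ := norm_pos_iff.mpr h0
  have hinv : η⁻¹ = conj η * (((‖η‖ ^ 2)⁻¹ : ℝ) : ℂ) := by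
    rw [Complex.inv_def, Complex.normSq_eq_norm_sq]
  by_cases h : η ∈ ball (0 : ℂ) ε
  · unfold Kb
    rw [indicator_of_mem h]
    unfold K5
    rw [← ofReal_norm]
    apply ENNReal.ofReal_le_ofReal
    have h1 : ‖η‖ < ε := by simpa using h
    have h2 : max (‖η‖ ^ 2) (ε ^ 2) = ε ^ 2 := max_eq_right (by nlinarith)
    unfold kc
    rw [hinv, h2, ← mul_sub, ← Complex.ofReal_sub, norm_mul, RCLike.norm_conj, Complex.norm_real]
    have h3 : 0 ≤ (‖η‖ ^ 2)⁻¹ - (ε ^ 2)⁻¹ := by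
      rw [sub_nonneg]
      exact inv_anti₀ (by positivity) (by nlinarith)
    rw [Real.norm_of_nonneg h3, Real.rpow_neg_one]
    have h4 : 0 ≤ (ε ^ 2)⁻¹ := by positivity
    calc ‖η‖ * ((‖η‖ ^ 2)⁻¹ - (ε ^ 2)⁻¹) ≤ ‖η‖ * (‖η‖ ^ 2)⁻¹ :=
          mul_le_mul_of_nonneg_left (by linarith) hn.le
      _ = ‖η‖⁻¹ := by field_simp
  · have h1 : ε ≤ ‖η‖ := by simpa using h
    have h2 : max (‖η‖ ^ 2) (ε ^ 2) = ‖η‖ ^ 2 := max_eq_left (by nlinarith)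
    unfold kc
    rw [h2, ← hinv]
    simp

private lemma holder4 {w : ℂ → ℂ} (hw : AEStronglyMeasurable w volume) (r : ℝ) (z : ℂ) :
    ∫⁻ ζ, ‖w ζ‖ₑ * Kb 1 r (z - ζ)
      ≤ (∫⁻ ζ, ‖w ζ‖ₑ ^ (4 : ℝ)) ^ (1 / 4 : ℝ) * (∫⁻ ζ, Kb (4 / 3) r ζ) ^ (1 / (4 / 3) : ℝ) := by
  have hk : Measurable (fun ζ : ℂ => Kb 1 r (z - ζ)) :=
    (Kb_meas 1 r).comp (measurable_const.sub measurable_id)
  have hc : Real.HolderConjugate (4 : ℝ) (4 / 3) := by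
    rw [Real.holderConjugate_iff]; norm_num
  have := ENNReal.lintegral_mul_le_Lp_mul_Lq volume hc (hw.enorm) hk.aemeasurable
  refine this.trans (le_of_eq ?_)
  congr 2
  rw [← Kb_trans (4 / 3) r z]
  refine lintegral_congr (fun ζ => ?_)
  rw [Kb_rpow (by norm_num)]
  norm_num

private lemma part2 (w : ℂ → ℂ) (hw : MemLp w 4 volume) (hs : ∀ z, 5 / 4 < ‖z‖ → w z = 0) :
    Continuous (Ct w) := by
  have hwm : AEMeasurable (fun ζ => ‖w ζ‖ₑ) volume := hw.1.enorm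
  have hW : ∫⁻ ζ, ‖w ζ‖ₑ ^ (4 : ℝ) < ∞ := by
    have := (eLpNorm_lt_top_iff_lintegral_rpow_enorm_lt_top (by norm_num) (by norm_num)).mp hw.2
    simpa using this
  set W := ∫⁻ ζ, ‖w ζ‖ₑ ^ (4 : ℝ) with hWdef
  have hint : Integrable w volume := by
    have h1 : IntegrableOn w (closedBall 0 (5 / 4)) volume := by
      have h2 : MemLp w 4 (volume.restrict (closedBall 0 (5 / 4))) := hw.restrict _
      have : IsFiniteMeasure (volume.restrict (closedBall (0 : ℂ) (5 / 4))) :=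
        ⟨by simpa using (isCompact_closedBall (0 : ℂ) (5 / 4)).measure_lt_top (μ := volume)⟩
      exact h2.integrable (by norm_num)
    rw [integrableOn_iff_integrable_of_support_subset] at h1
    · exact h1
    · intro ζ hζ
      rw [mem_closedBall, dist_zero_right]
      by_contra hc
      exact hζ (hs ζ (not_le.mp hc))
  have hI : ∀ z, Integrable (fun ζ => w ζ / (z - ζ)) volume := by
    intro z
    refine ⟨?_, ?_⟩
    · have : Measurable (fun ζ : ℂ => (z - ζ)⁻¹) := (measurable_const.sub measurable_id).inv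
      simp_rw [div_eq_mul_inv]
      exact hw.1.mul this.aestronglyMeasurable
    · have h1 : ∫⁻ ζ, ‖w ζ / (z - ζ)‖ₑ ≤ ∫⁻ ζ, ‖w ζ‖ₑ * Kb 1 (‖z‖ + 2) (z - ζ) := by
        refine lintegral_mono (fun ζ => div_le_kb (fun h0 => ?_))
        have h2 : ‖ζ‖ ≤ 5 / 4 := by
          by_contra hc
          exact h0 (hs ζ (not_le.mp hc))
        have := norm_sub_le z ζ
        linarith
      have h2 := h1.trans (holder4 hw.1 (‖z‖ + 2) z)
      refine lt_of_le_of_lt h2 (ENNReal.mul_lt_top ?_ ?_)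
      · exact ENNReal.rpow_lt_top_of_nonneg (by norm_num) hW.ne
      · exact ENNReal.rpow_lt_top_of_nonneg (by norm_num) (Kb_int (by norm_num) _).ne
  have hIk : ∀ ε : ℝ, 0 < ε → ∀ z, Integrable (fun ζ => w ζ * kc ε (z - ζ)) volume := by
    intro ε hε z
    have hc : Continuous (fun ζ : ℂ => kc ε (z - ζ)) := (kc_cont hε).comp (by fun_prop)
    refine (hint.mul_bdd (c := ε⁻¹) hc.aestronglyMeasurable ?_)
    exact Eventually.of_forall (fun ζ => kc_norm hε _)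
  -- the error
  have hT : Tendsto (fun ε : ℝ => ∫⁻ ζ, Kb (4 / 3) ε ζ) (𝓝[>] 0) (𝓝 0) := by
    have h1 : Tendsto (fun ε : ℝ => ∫⁻ ζ in ball (0 : ℂ) ε, Kb (4 / 3) 1 ζ) (𝓝[>] 0) (𝓝 0) := by
      apply tendsto_setLIntegral_zero (Kb_int (by norm_num) 1).ne
      have h2 : Tendsto (fun ε : ℝ => ENNReal.ofReal ε ^ 2 * NNReal.pi) (𝓝[>] 0) (𝓝 0) := by
        have h3 : Tendsto (fun ε : ℝ => ENNReal.ofReal ε ^ 2 * NNReal.pi) (𝓝 0)
            (𝓝 (ENNReal.ofReal 0 ^ 2 * NNReal.pi)) := by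
          apply ENNReal.Tendsto.mul_const
          · exact (ENNReal.continuous_pow 2).continuousAt.tendsto.comp
              (ENNReal.continuous_ofReal.tendsto 0)
          · right; exact ENNReal.coe_ne_top
        simp only [ENNReal.ofReal_zero, ne_eq, OfNat.ofNat_ne_zero, not_false_eq_true, zero_pow,
          zero_mul] at h3
        exact h3.mono_left nhdsWithin_le_nhds
      refine h2.congr (fun ε => ?_)
      simp only [Function.comp]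
      rw [Complex.volume_ball]
    refine h1.congr' ?_
    have h4 : ∀ᶠ ε : ℝ in 𝓝[>] 0, ε < 1 :=
      nhdsWithin_le_nhds (Iio_mem_nhds (by norm_num))
    filter_upwards [h4] with ε hε
    rw [← lintegral_indicator measurableSet_ball]
    refine lintegral_congr (fun ζ => ?_)
    unfold Kb
    by_cases h6 : ζ ∈ ball (0 : ℂ) ε
    · have h5 : ζ ∈ ball (0 : ℂ) 1 := ball_subset_ball hε.le h6
      rw [indicator_of_mem h6, indicator_of_mem h6, indicator_of_mem h5]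
    · rw [indicator_of_notMem h6, indicator_of_notMem h6]
  have hE : Tendsto (fun ε : ℝ => ‖(1 / (Real.pi : ℂ))‖ₑ * (W ^ (1 / 4 : ℝ) *
      (∫⁻ ζ, Kb (4 / 3) ε ζ) ^ (1 / (4 / 3) : ℝ))) (𝓝[>] 0) (𝓝 0) := by
    have h1 : Tendsto (fun ε : ℝ => (∫⁻ ζ, Kb (4 / 3) ε ζ) ^ (1 / (4 / 3) : ℝ)) (𝓝[>] 0)
        (𝓝 ((0 : ℝ≥0∞) ^ (1 / (4 / 3) : ℝ))) :=
      (ENNReal.continuous_rpow_const.tendsto _).comp hT
    rw [ENNReal.zero_rpow_of_pos (by norm_num)] at h1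
    have hW4 : W ^ (1 / 4 : ℝ) ≠ ∞ := (ENNReal.rpow_lt_top_of_nonneg (by norm_num) hW.ne).ne
    have h2 := ENNReal.Tendsto.const_mul (a := W ^ (1 / 4 : ℝ)) h1 (Or.inr hW4)
    have h3 := ENNReal.Tendsto.const_mul (a := ‖(1 / (Real.pi : ℂ))‖ₑ) h2
      (Or.inr enorm_ne_top)
    simpa using h3
  apply continuous_of_uniform_approx_of_continuous
  intro u hu
  obtain ⟨δ, hδ, hδu⟩ := Metric.mem_uniformity_dist.mp hu
  have h1 : ∀ᶠ ε : ℝ in 𝓝[>] 0, ‖(1 / (Real.pi : ℂ))‖ₑ * (W ^ (1 / 4 : ℝ) *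
      (∫⁻ ζ, Kb (4 / 3) ε ζ) ^ (1 / (4 / 3) : ℝ)) < ENNReal.ofReal δ :=
    hE.eventually_lt_const (by simpa using hδ)
  obtain ⟨ε, hε1, hε0⟩ := (h1.and self_mem_nhdsWithin).exists
  have hε : 0 < ε := hε0
  refine ⟨fun z => (1 / (Real.pi : ℂ)) * ∫ ζ, w ζ * kc ε (z - ζ), ?_, ?_⟩
  · refine continuous_const.mul ?_
    refine continuous_of_dominated (bound := fun ζ => ‖w ζ‖ * ε⁻¹) (fun z => (hIk ε hε z).1) ?_
      (hint.norm.mul_const _) ?_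
    · intro z
      refine Eventually.of_forall (fun ζ => ?_)
      rw [norm_mul]
      exact mul_le_mul_of_nonneg_left (kc_norm hε _) (norm_nonneg _)
    · refine Eventually.of_forall (fun ζ => ?_)
      exact continuous_const.mul ((kc_cont hε).comp (by fun_prop))
  · intro z
    apply hδu
    rw [dist_eq_norm]
    have h2 : Ct w z - (1 / (Real.pi : ℂ)) * ∫ ζ, w ζ * kc ε (z - ζ)
        = (1 / (Real.pi : ℂ)) * ∫ ζ, (w ζ / (z - ζ) - w ζ * kc ε (z - ζ)) := by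
      unfold Ct
      rw [integral_sub (hI z) (hIk ε hε z)]
      ring
    have h3 : ‖Ct w z - (1 / (Real.pi : ℂ)) * ∫ ζ, w ζ * kc ε (z - ζ)‖ₑ < ENNReal.ofReal δ := by
      refine lt_of_le_of_lt ?_ hε1
      rw [h2, enorm_mul]
      refine mul_le_mul_right ?_ _
      refine (enorm_integral_le_lintegral_enorm _).trans ?_
      refine (lintegral_mono (fun ζ => kc_diff hε (w ζ) (z - ζ))).trans ?_
      exact holder4 hw.1 ε z
    rw [← ofReal_norm] at h3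
    exact (ENNReal.ofReal_lt_ofReal_iff hδ).mp h3

theorem piece_C5 (h1 : S_C3a) : S_C5 :=
  ⟨fun w hw => part1 h1 w hw, fun w hw hs => part2 w hw hs⟩

end

end Cal
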