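import Pool.Agent.Lib.MP_4ea4c7_an.Stm2

/-! Piece D5: the Courant-Lebesgue lemma. -/

open MeasureTheory Complex Metric Set Filter Topology
open scoped ComplexConjugate ENNReal NNReal

namespace Cal

private lemma cl_lin (L : ℂ →L[ℝ] ℂ) (w : ℂ) :
    L w = (L 1 - I * L I) / 2 * w + (L 1 + I * L I) / 2 * conj w := by
  have h : L w = (w.re : ℂ) * L 1 + (w.im : ℂ) * L I := by
    have : w = w.re • (1 : ℂ) + w.im • I := by
      simp
    conv_lhs => rw [this]
    rw [map_add, map_smul, map_smul]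
    simp
  have h2 : conj w = (w.re : ℂ) - (w.im : ℂ) * I := by
    apply Complex.ext <;> simp
  have h3 : w = (w.re : ℂ) + (w.im : ℂ) * I := (Complex.re_add_im w).symm
  rw [h, h2]
  conv_rhs => rw [h3]
  simp only [add_re, ofReal_re, mul_re, I_re, mul_zero, ofReal_im, I_im, mul_one, sub_self, add_zero,
    add_im, mul_im, zero_add]
  ring_nf
  simp only [I_sq]
  ring

private lemma cl_bd (h : ℂ → ℂ) (z v : ℂ) : ‖fderiv ℝ h z v‖ ≤ (‖dz h z‖ + ‖db h z‖) * ‖v‖ := by
  rw [cl_lin (fderiv ℝ h z) v]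
  refine (norm_add_le _ _).trans ?_
  rw [norm_mul, norm_mul, norm_conj, add_mul]
  exact le_refl _

private lemma cl_cont {h : ℂ → ℂ} (hh : ContDiff ℝ (⊤ : ℕ∞) h) : Continuous (dz h) ∧ Continuous (db h) := by
  have h0 : Continuous (fderiv ℝ h) := hh.continuous_fderiv (by simp)
  have h1 : Continuous (fun z => fderiv ℝ h z 1) := h0.clm_apply continuous_const
  have h2 : Continuous (fun z => fderiv ℝ h z I) := h0.clm_apply continuous_const
  exact ⟨(h1.sub (continuous_const.mul h2)).div_const _, (h1.add (continuous_const.mul h2)).div_const _⟩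

/-- Cauchy-Schwarz on `[-π, π]` -/
private lemma cl_cs {q : ℝ → ℝ} (hq : Continuous q) :
    (∫ θ in (-Real.pi)..Real.pi, q θ) ^ 2 ≤ 2 * Real.pi * ∫ θ in (-Real.pi)..Real.pi, q θ ^ 2 := by
  have hpi := Real.pi_pos
  set J := ∫ θ in (-Real.pi)..Real.pi, q θ with hJ
  set t := J / (2 * Real.pi) with ht
  have h0 : 0 ≤ ∫ θ in (-Real.pi)..Real.pi, (q θ - t) ^ 2 :=
    intervalIntegral.integral_nonneg (by linarith) fun x _ => sq_nonneg _
  have h1 : ∫ θ in (-Real.pi)..Real.pi, (q θ - t) ^ 2 =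
      (∫ θ in (-Real.pi)..Real.pi, q θ ^ 2) - 2 * t * J + t ^ 2 * (2 * Real.pi) := by
    have e : ∀ θ, (q θ - t) ^ 2 = (q θ ^ 2 - 2 * t * q θ) + t ^ 2 := fun θ => by ring
    simp_rw [e]
    rw [intervalIntegral.integral_add, intervalIntegral.integral_sub,
      intervalIntegral.integral_const_mul, intervalIntegral.integral_const]
    · simp only [smul_eq_mul]
      ring
    · exact (hq.pow 2).intervalIntegrable _ _
    · exact (continuous_const.mul hq).intervalIntegrable _ _
    · exact ((hq.pow 2).sub (continuous_const.mul hq)).intervalIntegrable _ _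
    · exact continuous_const.intervalIntegrable _ _
  rw [h1] at h0
  have h2 : t * (2 * Real.pi) = J := by
    rw [ht]
    field_simp
  have h3 : (∫ θ in (-Real.pi)..Real.pi, q θ ^ 2) - t * J ≥ 0 := by
    have : t ^ 2 * (2 * Real.pi) = t * J := by
      rw [← h2]
      ring
    linarith
  have h4 : 2 * Real.pi * (t * J) = J ^ 2 := by
    rw [← h2]
    ring
  nlinarith

private lemma cl_arg {z0 a : ℂ} {r : ℝ} (ha : a ∈ sphere z0 r) : circleMap z0 r (arg (a - z0)) = a := by
  rw [mem_sphere, dist_eq_norm] at ha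
  unfold circleMap
  rw [← ha, norm_mul_exp_arg_mul_I]
  ring

/-- oscillation on a circle -/
private lemma cl_osc {h : ℂ → ℂ} (hh : ContDiff ℝ (⊤ : ℕ∞) h) (z0 : ℂ) {r : ℝ} (hr : 0 < r) {a b : ℂ}
    (ha : a ∈ sphere z0 r) (hb : b ∈ sphere z0 r) :
    ‖h a - h b‖ ^ 2 ≤ 4 * Real.pi * (r ^ 2 * ∫ θ in (-Real.pi)..Real.pi,
      (‖dz h (circleMap z0 r θ)‖ ^ 2 + ‖db h (circleMap z0 r θ)‖ ^ 2)) := by
  obtain ⟨c1, c2⟩ := cl_cont hh
  have hc : Continuous (circleMap z0 r) := continuous_circleMap z0 r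
  set q : ℝ → ℝ := fun θ => ‖dz h (circleMap z0 r θ)‖ + ‖db h (circleMap z0 r θ)‖ with hq
  have hqc : Continuous q := ((c1.comp hc).norm).add ((c2.comp hc).norm)
  have hpi := Real.pi_pos
  have hd : ∀ θ : ℝ, HasDerivAt (fun θ => h (circleMap z0 r θ))
      (fderiv ℝ h (circleMap z0 r θ) (circleMap 0 r θ * I)) θ := by
    intro θ
    have := (hh.differentiable (by simp)).differentiableAt (x := circleMap z0 r θ) |>.hasFDerivAt
    exact this.comp_hasDerivAt θ (hasDerivAt_circleMap z0 r θ)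
  have hdc : Continuous (fun θ => fderiv ℝ h (circleMap z0 r θ) (circleMap 0 r θ * I)) := by
    have h0 : Continuous (fderiv ℝ h) := hh.continuous_fderiv (by simp)
    exact (h0.comp hc).clm_apply ((continuous_circleMap 0 r).mul continuous_const)
  have hnb : ∀ θ, ‖fderiv ℝ h (circleMap z0 r θ) (circleMap 0 r θ * I)‖ ≤ r * q θ := by
    intro θ
    refine (cl_bd _ _ _).trans ?_
    rw [norm_mul, norm_I, mul_one, norm_circleMap_zero, abs_of_pos hr, mul_comm]
  have h1 : ‖h a - h b‖ ≤ r * ∫ θ in (-Real.pi)..Real.pi, q θ := by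
    have e : h a - h b = ∫ θ in (arg (b - z0))..(arg (a - z0)),
        fderiv ℝ h (circleMap z0 r θ) (circleMap 0 r θ * I) := by
      rw [intervalIntegral.integral_eq_sub_of_hasDerivAt (fun θ _ => hd θ) (hdc.intervalIntegrable _ _),
        cl_arg ha, cl_arg hb]
    rw [e]
    refine (intervalIntegral.norm_integral_le_integral_norm_uIoc).trans ?_
    rw [← intervalIntegral.integral_const_mul, intervalIntegral.integral_of_le (by linarith)]
    have hsub : uIoc (arg (b - z0)) (arg (a - z0)) ⊆ Ioc (-Real.pi) Real.pi := by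
      intro x hx
      rw [uIoc, mem_Ioc] at hx
      have u1 := neg_pi_lt_arg (b - z0)
      have u2 := neg_pi_lt_arg (a - z0)
      have u3 := arg_le_pi (b - z0)
      have u4 := arg_le_pi (a - z0)
      exact ⟨lt_trans (lt_min u1 u2) hx.1, hx.2.trans (max_le u3 u4)⟩
    have hint : IntegrableOn (fun θ => r * q θ) (Ioc (-Real.pi) Real.pi) volume :=
      ((continuous_const.mul hqc).integrableOn_Icc).mono_set Ioc_subset_Icc_self
    refine le_trans ?_ (setIntegral_mono_set hint ?_ hsub.eventuallyLE)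
    · refine setIntegral_mono_on ?_ (hint.mono_set hsub) measurableSet_uIoc fun θ _ => hnb θ
      exact (hdc.norm.integrableOn_Icc.mono_set Ioc_subset_Icc_self).mono_set hsub
    · refine ae_of_all _ fun θ => ?_
      exact mul_nonneg hr.le (add_nonneg (norm_nonneg _) (norm_nonneg _))
  have h2 := cl_cs hqc
  have h3 : ∫ θ in (-Real.pi)..Real.pi, q θ ^ 2 ≤ 2 * ∫ θ in (-Real.pi)..Real.pi,
      (‖dz h (circleMap z0 r θ)‖ ^ 2 + ‖db h (circleMap z0 r θ)‖ ^ 2) := by
    rw [← intervalIntegral.integral_const_mul]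
    refine intervalIntegral.integral_mono_on (by linarith) ((hqc.pow 2).intervalIntegrable _ _) ?_ ?_
    · refine Continuous.intervalIntegrable ?_ _ _
      exact continuous_const.mul (((c1.comp hc).norm.pow 2).add ((c2.comp hc).norm.pow 2))
    · intro θ _
      simp only [hq]
      nlinarith [sq_nonneg (‖dz h (circleMap z0 r θ)‖ - ‖db h (circleMap z0 r θ)‖)]
  calc ‖h a - h b‖ ^ 2 ≤ (r * ∫ θ in (-Real.pi)..Real.pi, q θ) ^ 2 := by
        gcongr
    _ = r ^ 2 * (∫ θ in (-Real.pi)..Real.pi, q θ) ^ 2 := by ring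
    _ ≤ r ^ 2 * (2 * Real.pi * (2 * ∫ θ in (-Real.pi)..Real.pi,
      (‖dz h (circleMap z0 r θ)‖ ^ 2 + ‖db h (circleMap z0 r θ)‖ ^ 2))) := by
        refine mul_le_mul_of_nonneg_left (h2.trans ?_) (sq_nonneg _)
        exact mul_le_mul_of_nonneg_left h3 (by positivity)
    _ = _ := by ring

/-- integration over an annulus in polar coordinates -/
private lemma cl_polar {E : ℂ → ℝ} (hE : Continuous E) (hE0 : ∀ z, 0 ≤ E z) (z0 : ℂ) {δ ρ : ℝ} (hδ : 0 < δ) :
    IntegrableOn (fun r : ℝ => r * ∫ θ in (-Real.pi)..Real.pi, E (circleMap z0 r θ)) (Ioo δ ρ) volume ∧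
    ∫ r in Ioo δ ρ, r * ∫ θ in (-Real.pi)..Real.pi, E (circleMap z0 r θ) ≤ ∫ z in closedBall z0 ρ, E z := by
  have hpi := Real.pi_pos
  have hcm : Continuous (fun p : ℝ × ℝ => p.1 * E (circleMap z0 p.1 p.2)) := by
    refine continuous_fst.mul (hE.comp ?_)
    unfold circleMap
    fun_prop
  have hint : IntegrableOn (fun p : ℝ × ℝ => p.1 * E (circleMap z0 p.1 p.2))
      (Ioo δ ρ ×ˢ Ioo (-Real.pi) Real.pi) volume := by
    refine (hcm.continuousOn.integrableOn_compact (isCompact_Icc.prod isCompact_Icc)).mono_set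
      (t := Icc δ ρ ×ˢ Icc (-Real.pi) Real.pi) ?_
    exact prod_mono Ioo_subset_Icc_self Ioo_subset_Icc_self
  have hin : ∀ r : ℝ, ∫ θ in Ioo (-Real.pi) Real.pi, r * E (circleMap z0 r θ) =
      r * ∫ θ in (-Real.pi)..Real.pi, E (circleMap z0 r θ) := by
    intro r
    rw [integral_const_mul, intervalIntegral.integral_of_le (by linarith), integral_Ioc_eq_integral_Ioo]
  have hfub : ∫ p in Ioo δ ρ ×ˢ Ioo (-Real.pi) Real.pi, p.1 * E (circleMap z0 p.1 p.2) =
      ∫ r in Ioo δ ρ, r * ∫ θ in (-Real.pi)..Real.pi, E (circleMap z0 r θ) := by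
    rw [Measure.volume_eq_prod, setIntegral_prod _ (by rwa [← Measure.volume_eq_prod])]
    refine setIntegral_congr_fun measurableSet_Ioo fun r _ => hin r
  constructor
  · have h1 : Integrable (fun p : ℝ × ℝ => p.1 * E (circleMap z0 p.1 p.2))
        ((volume.restrict (Ioo δ ρ)).prod (volume.restrict (Ioo (-Real.pi) Real.pi))) := by
      rw [Measure.prod_restrict, ← Measure.volume_eq_prod]
      exact hint
    have h2 := h1.integral_prod_left
    refine h2.congr ?_
    exact ae_of_all _ fun r => hin r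
  · rw [← hfub]
    have hpc := Complex.integral_comp_polarCoord_symm
      (fun w => indicator {w : ℂ | δ < ‖w‖ ∧ ‖w‖ < ρ} (fun w => E (z0 + w)) w)
    have hm : MeasurableSet {w : ℂ | δ < ‖w‖ ∧ ‖w‖ < ρ} :=
      (isOpen_lt continuous_const continuous_norm).measurableSet.inter
        (isOpen_lt continuous_norm continuous_const).measurableSet
    have e1 : ∫ p in Ioo δ ρ ×ˢ Ioo (-Real.pi) Real.pi, p.1 * E (circleMap z0 p.1 p.2) =
        ∫ p in polarCoord.target, p.1 • indicator {w : ℂ | δ < ‖w‖ ∧ ‖w‖ < ρ} (fun w => E (z0 + w))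
          (Complex.polarCoord.symm p) := by
      rw [← integral_indicator (measurableSet_Ioo.prod measurableSet_Ioo),
        ← integral_indicator polarCoord.open_target.measurableSet]
      congr 1
      funext p
      by_cases hp : p ∈ Ioo δ ρ ×ˢ Ioo (-Real.pi) Real.pi
      · have hp' : p ∈ polarCoord.target := by
          simp only [polarCoord_target, mem_prod, mem_Ioi]
          exact ⟨hδ.trans hp.1.1, hp.2⟩
        have hn : ‖Complex.polarCoord.symm p‖ = p.1 := by
          rw [Complex.norm_polarCoord_symm, abs_of_pos (hδ.trans hp.1.1)]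
        rw [indicator_of_mem hp, indicator_of_mem hp', indicator_of_mem]
        · rw [Complex.polarCoord_symm_apply]
          unfold circleMap
          rw [exp_mul_I, ofReal_cos, ofReal_sin]
          rfl
        · simp only [mem_ofPred_eq, hn]
          exact ⟨hp.1.1, hp.1.2⟩
      · rw [indicator_of_notMem hp]
        by_cases hp' : p ∈ polarCoord.target
        · rw [indicator_of_mem hp', indicator_of_notMem, smul_zero]
          intro hh
          apply hp
          simp only [polarCoord_target, mem_prod, mem_Ioi] at hp'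
          have hn : ‖Complex.polarCoord.symm p‖ = p.1 := by
            rw [Complex.norm_polarCoord_symm, abs_of_pos hp'.1]
          simp only [mem_ofPred_eq, hn] at hh
          exact ⟨⟨hh.1, hh.2⟩, hp'.2⟩
        · rw [indicator_of_notMem hp']
    rw [e1, hpc, integral_indicator hm]
    have e2 : ∫ z in closedBall z0 ρ, E z = ∫ w in closedBall 0 ρ, E (z0 + w) := by
      rw [← integral_indicator measurableSet_closedBall, ← integral_indicator measurableSet_closedBall,
        ← integral_add_left_eq_self _ z0]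
      congr 1
      funext w
      by_cases hw : w ∈ closedBall (0 : ℂ) ρ
      · rw [indicator_of_mem hw, indicator_of_mem]
        simpa [dist_eq_norm] using hw
      · rw [indicator_of_notMem hw, indicator_of_notMem]
        simpa [dist_eq_norm] using hw
    rw [e2]
    refine setIntegral_mono_set ?_ (ae_of_all _ fun w => hE0 _) ?_
    · exact (hE.comp (continuous_const.add continuous_id)).continuousOn.integrableOn_compact
        (isCompact_closedBall 0 ρ)
    · refine Eventually.of_forall ?_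
      intro w hw
      exact mem_closedBall_zero_iff.2 hw.2.le

/-- a good radius -/
private lemma cl_rad {E : ℂ → ℝ} (hE : Continuous E) (hE0 : ∀ z, 0 ≤ E z) (z0 : ℂ) {δ ρ η : ℝ} (hδ : 0 < δ)
    (hδρ : δ < ρ) (hη : 0 < η) : ∃ r, δ < r ∧ r < ρ ∧
      r ^ 2 * ∫ θ in (-Real.pi)..Real.pi, E (circleMap z0 r θ) ≤
        (∫ z in closedBall z0 ρ, E z) / Real.log (ρ / δ) + η := by
  obtain ⟨hi, hle⟩ := cl_polar (ρ := ρ) hE hE0 z0 hδ
  by_contra hcon
  push Not at hcon
  have hL : 0 < Real.log (ρ / δ) := Real.log_pos (by rwa [one_lt_div hδ])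
  set c := (∫ z in closedBall z0 ρ, E z) / Real.log (ρ / δ) + η with hc
  have h1 : ∫ r in Ioo δ ρ, c * r⁻¹ ≤ ∫ r in Ioo δ ρ, r * ∫ θ in (-Real.pi)..Real.pi, E (circleMap z0 r θ) := by
    refine setIntegral_mono_on ?_ hi measurableSet_Ioo ?_
    · have : ContinuousOn (fun r : ℝ => c * r⁻¹) (Icc δ ρ) := by
        refine continuousOn_const.mul (continuousOn_inv₀.mono ?_)
        intro x hx
        exact (hδ.trans_le hx.1).ne'
      exact (this.integrableOn_compact isCompact_Icc).mono_set Ioo_subset_Icc_self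
    · intro r hr
      have hr0 : 0 < r := hδ.trans hr.1
      have := (hcon r hr.1 hr.2).le
      rw [← div_eq_mul_inv, div_le_iff₀ hr0]
      calc c ≤ _ := this
        _ = _ := by ring
  have h2 : ∫ r in Ioo δ ρ, c * r⁻¹ = c * Real.log (ρ / δ) := by
    rw [integral_const_mul, ← integral_Ioc_eq_integral_Ioo, ← intervalIntegral.integral_of_le hδρ.le,
      integral_inv_of_pos hδ (hδ.trans hδρ)]
  rw [h2] at h1
  have h3 : c * Real.log (ρ / δ) = (∫ z in closedBall z0 ρ, E z) + η * Real.log (ρ / δ) := by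
    rw [hc]
    field_simp
  have h4 : 0 < η * Real.log (ρ / δ) := mul_pos hη hL
  linarith

private lemma cl_mpp {z0 : ℂ} {ρ r s : ℝ} {g : ℂ → ℂ} (h : MPP z0 ρ g) (hr : 0 < r) (hrρ : r < ρ)
    (hs : ∀ a ∈ sphere z0 r, ∀ b ∈ sphere z0 r, ‖g a - g b‖ ≤ s) {z : ℂ} (hz : z ∈ closedBall z0 r) :
    ‖g z - g z0‖ ≤ √2 * s := by
  have h0 : z0 ∈ closedBall z0 r := by simp [hr.le]
  have key : ∀ c : ℂ, (c = 1 ∨ c = -1 ∨ c = I ∨ c = -I) → (c * (g z - g z0)).re ≤ s := by
    intro c hc
    have hc' : (-c = 1 ∨ -c = -1 ∨ -c = I ∨ -c = -I) := by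
      rcases hc with rfl | rfl | rfl | rfl <;> simp
    have hcn : ‖c‖ = 1 := by
      rcases hc with rfl | rfl | rfl | rfl <;> simp
    obtain ⟨a, ha, h1⟩ := h r hr hrρ c hc z hz
    obtain ⟨b, hb, h2⟩ := h r hr hrρ (-c) hc' z0 h0
    have h3 : (c * (g a - g b)).re ≤ s := by
      refine (re_le_norm _).trans ?_
      rw [norm_mul, hcn, one_mul]
      exact hs a ha b hb
    rw [mul_sub, sub_re] at h3 ⊢
    rw [neg_mul, neg_mul, neg_re, neg_re] at h2
    linarith
  have k1 := key 1 (Or.inl rfl)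
  have k2 := key (-1) (Or.inr (Or.inl rfl))
  have k3 := key I (Or.inr (Or.inr (Or.inl rfl)))
  have k4 := key (-I) (Or.inr (Or.inr (Or.inr rfl)))
  refine (norm_le_sqrt_two_mul_max _).trans ?_
  refine mul_le_mul_of_nonneg_left (max_le (abs_le.2 ⟨?_, ?_⟩) (abs_le.2 ⟨?_, ?_⟩)) (Real.sqrt_nonneg _)
  · rw [neg_mul, one_mul, neg_re] at k2
    linarith
  · rw [one_mul] at k1
    exact k1
  · rw [I_mul_re] at k3
    linarith
  · rw [neg_mul, neg_re, I_mul_re] at k4
    linarith

private lemma cl_n2 {K : Set ℂ} {a : ℂ → ℂ} (ha : MemLp a 2 (volume.restrict K)) :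
    (eLpNorm a 2 (volume.restrict K)).toReal ^ 2 = ∫ z in K, ‖a z‖ ^ 2 := by
  have h0 : 0 ≤ ∫ z in K, ‖a z‖ ^ 2 := integral_nonneg fun z => sq_nonneg _
  rw [ha.eLpNorm_eq_integral_rpow_norm (by norm_num) (by norm_num)]
  have e : ∀ z, ‖a z‖ ^ (2 : ℝ≥0∞).toReal = ‖a z‖ ^ 2 := by
    intro z
    rw [ENNReal.toReal_ofNat]
    exact Real.rpow_ofNat _ 2
  simp_rw [e]
  rw [ENNReal.toReal_ofReal (by positivity), ENNReal.toReal_ofNat, ← Real.rpow_natCast,
    ← Real.rpow_mul h0]
  norm_num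

theorem piece_CL (h1 : S_moll) : S_CL := by
  intro z0 ρ M g A B hg hW hI hM hmp δ hδ hδρ z hz
  have hρ : 0 < ρ := hδ.trans hδρ
  have hL : 0 < Real.log (ρ / δ) := Real.log_pos (by rwa [one_lt_div hδ])
  set L := Real.log (ρ / δ) with hLdef
  set ρ' := δ * Real.exp (9 / 10 * L) with hρ'
  have hexp : Real.exp L = ρ / δ := by
    rw [hLdef, Real.exp_log (by positivity)]
  have hδρ' : δ < ρ' := by
    have : 1 < Real.exp (9 / 10 * L) := by
      rw [Real.one_lt_exp_iff]
      positivity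
    nlinarith
  have hρρ' : ρ' < ρ := by
    have h2 : Real.exp (9 / 10 * L) < ρ / δ := by
      rw [← hexp, Real.exp_lt_exp]
      linarith
    rw [lt_div_iff₀ hδ] at h2
    rw [hρ']
    linarith
  have hL' : Real.log (ρ' / δ) = 9 / 10 * L := by
    rw [hρ', mul_div_assoc, mul_comm, div_mul_cancel₀ _ hδ.ne', Real.log_exp]
  have hKU : closedBall z0 ρ' ⊆ ball z0 ρ := closedBall_subset_ball hρρ'
  have hKc : IsCompact (closedBall z0 ρ') := isCompact_closedBall _ _
  set K := closedBall z0 ρ' with hK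
  obtain ⟨F, hF1, -, -, hF4, hF5, hF6⟩ := h1 (ball z0 ρ) g A B isOpen_ball hW K hKc hKU
  have hA : MemLp A 2 (volume.restrict K) := hW.A2 K hKc hKU
  have hB : MemLp B 2 (volume.restrict K) := hW.B2 K hKc hKU
  set a := (eLpNorm A 2 (volume.restrict K)).toReal with ha
  set b := (eLpNorm B 2 (volume.restrict K)).toReal with hb
  have hab : a ^ 2 + b ^ 2 ≤ M := by
    rw [ha, hb, cl_n2 hA, cl_n2 hB, ← integral_add]
    · refine le_trans (setIntegral_mono_set hI ?_ hKU.eventuallyLE) hM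
      exact ae_of_all _ fun z => add_nonneg (sq_nonneg _) (sq_nonneg _)
    · exact hA.integrable_norm_pow (by norm_num)
    · exact hB.integrable_norm_pow (by norm_num)
  have hM0 : 0 ≤ M := le_trans (by positivity) hab
  have hmem : ∀ {k : ℂ → ℂ}, Continuous k → MemLp k 2 (volume.restrict K) := by
    intro k hk
    obtain ⟨C, hC⟩ := hKc.exists_bound_of_continuousOn hk.continuousOn
    have : IsFiniteMeasure (volume.restrict K) :=
      ⟨by rw [Measure.restrict_apply_univ]; exact hKc.measure_lt_top⟩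
    refine MemLp.of_bound hk.aestronglyMeasurable C ?_
    exact ae_restrict_of_forall_mem hKc.measurableSet hC
  -- the estimate for a given precision
  have main : ∀ ε : ℝ, 0 < ε → ‖g z - g z0‖ ≤
      √2 * (√(4 * Real.pi * (((a + ε) ^ 2 + (b + ε) ^ 2) / (9 / 10 * L) + ε)) + 2 * ε) := by
    intro ε hε
    have hsm : ∀ {k : ℕ → ℂ → ℂ}, Tendsto (fun n => eLpNorm (k n) 2 (volume.restrict K)) atTop (𝓝 0) →
        ∀ᶠ n in atTop, eLpNorm (k n) 2 (volume.restrict K) ≤ ENNReal.ofReal ε := by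
      intro k hk
      exact hk.eventually (Iic_mem_nhds (by simpa using hε))
    have hu := (Metric.tendstoUniformlyOn_iff.1 (hF6 hg)) ε hε
    obtain ⟨n, hn1, hn2, hn3⟩ := (hu.and ((hsm hF4).and (hsm hF5))).exists
    obtain ⟨c1, c2⟩ := cl_cont (hF1 n)
    have q1 : (eLpNorm (dz (F n)) 2 (volume.restrict K)).toReal ≤ a + ε := by
      have e1 : dz (F n) = fun z => (dz (F n) z - A z) + A z := by
        funext z
        ring
      have hm1 := (hmem c1).sub hA
      have e2 : eLpNorm (dz (F n)) 2 (volume.restrict K) ≤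
          eLpNorm (fun z => dz (F n) z - A z) 2 (volume.restrict K) + eLpNorm A 2 (volume.restrict K) := by
        conv_lhs => rw [e1]
        exact eLpNorm_add_le hm1.aestronglyMeasurable hA.aestronglyMeasurable (by norm_num)
      have e3 : eLpNorm (dz (F n)) 2 (volume.restrict K) ≤ ENNReal.ofReal ε + eLpNorm A 2 (volume.restrict K) :=
        e2.trans (by gcongr)
      have e4 := ENNReal.toReal_mono (ENNReal.add_ne_top.2 ⟨ENNReal.ofReal_ne_top, hA.eLpNorm_ne_top⟩) e3
      rw [ENNReal.toReal_add ENNReal.ofReal_ne_top hA.eLpNorm_ne_top, ENNReal.toReal_ofReal hε.le] at e4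
      linarith
    have q2 : (eLpNorm (db (F n)) 2 (volume.restrict K)).toReal ≤ b + ε := by
      have e1 : db (F n) = fun z => (db (F n) z - B z) + B z := by
        funext z
        ring
      have hm1 := (hmem c2).sub hB
      have e2 : eLpNorm (db (F n)) 2 (volume.restrict K) ≤
          eLpNorm (fun z => db (F n) z - B z) 2 (volume.restrict K) + eLpNorm B 2 (volume.restrict K) := by
        conv_lhs => rw [e1]
        exact eLpNorm_add_le hm1.aestronglyMeasurable hB.aestronglyMeasurable (by norm_num)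
      have e3 : eLpNorm (db (F n)) 2 (volume.restrict K) ≤ ENNReal.ofReal ε + eLpNorm B 2 (volume.restrict K) :=
        e2.trans (by gcongr)
      have e4 := ENNReal.toReal_mono (ENNReal.add_ne_top.2 ⟨ENNReal.ofReal_ne_top, hB.eLpNorm_ne_top⟩) e3
      rw [ENNReal.toReal_add ENNReal.ofReal_ne_top hB.eLpNorm_ne_top, ENNReal.toReal_ofReal hε.le] at e4
      linarith
    have q3 : ∫ z in K, (‖dz (F n) z‖ ^ 2 + ‖db (F n) z‖ ^ 2) ≤ (a + ε) ^ 2 + (b + ε) ^ 2 := by
      rw [integral_add ((hmem c1).integrable_norm_pow (by norm_num))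
        ((hmem c2).integrable_norm_pow (by norm_num)), ← cl_n2 (hmem c1), ← cl_n2 (hmem c2)]
      have := ENNReal.toReal_nonneg (a := eLpNorm (dz (F n)) 2 (volume.restrict K))
      have := ENNReal.toReal_nonneg (a := eLpNorm (db (F n)) 2 (volume.restrict K))
      gcongr
    obtain ⟨r, hr1, hr2, hr3⟩ := cl_rad (E := fun z => ‖dz (F n) z‖ ^ 2 + ‖db (F n) z‖ ^ 2)
      ((c1.norm.pow 2).add (c2.norm.pow 2)) (fun z => add_nonneg (sq_nonneg _) (sq_nonneg _)) z0 hδ hδρ' hε
    rw [hL'] at hr3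
    have hr0 : 0 < r := hδ.trans hr1
    have hsph : sphere z0 r ⊆ K := by
      intro w hw
      rw [mem_sphere] at hw
      rw [hK, mem_closedBall, hw]
      exact hr2.le
    refine cl_mpp hmp hr0 (hr2.trans hρρ') (fun u hu' v hv => ?_)
      (closedBall_subset_closedBall hr1.le hz)
    have o1 := cl_osc (hF1 n) z0 hr0 hu' hv
    have o2 : ‖F n u - F n v‖ ≤ √(4 * Real.pi * (((a + ε) ^ 2 + (b + ε) ^ 2) / (9 / 10 * L) + ε)) := by
      refine Real.le_sqrt_of_sq_le (o1.trans ?_)
      refine mul_le_mul_of_nonneg_left (hr3.trans ?_) (by positivity)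
      gcongr
    have o3 := hn1 u (hsph hu')
    have o4 := hn1 v (hsph hv)
    rw [dist_eq_norm] at o3 o4
    have e : g u - g v = (g u - F n u) + (F n u - F n v) - (g v - F n v) := by ring
    rw [e]
    have n1 := norm_sub_le ((g u - F n u) + (F n u - F n v)) (g v - F n v)
    have n2 := norm_add_le (g u - F n u) (F n u - F n v)
    linarith
  -- the limit
  have hlim : Tendsto (fun ε : ℝ => √2 * (√(4 * Real.pi * (((a + ε) ^ 2 + (b + ε) ^ 2) / (9 / 10 * L) + ε)) + 2 * ε))
      (𝓝[>] 0) (𝓝 (√2 * (√(4 * Real.pi * (((a + 0) ^ 2 + (b + 0) ^ 2) / (9 / 10 * L) + 0)) + 2 * 0))) := by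
    refine Tendsto.mono_left ?_ nhdsWithin_le_nhds
    refine Continuous.tendsto ?_ 0
    fun_prop
  have hfin := ge_of_tendsto hlim (by
    filter_upwards [self_mem_nhdsWithin] with ε hε using main ε hε)
  refine hfin.trans ?_
  have h8 : (8 : ℝ) = √64 := by
    rw [show (64 : ℝ) = 8 ^ 2 by norm_num, Real.sqrt_sq (by norm_num)]
  rw [add_zero, add_zero, add_zero, mul_zero, add_zero, h8, ← Real.sqrt_mul (by norm_num),
    ← Real.sqrt_mul (by norm_num)]
  refine Real.sqrt_le_sqrt ?_
  have hpi := Real.pi_lt_d2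
  have hpi0 := Real.pi_pos
  have t1 : (a ^ 2 + b ^ 2) / (9 / 10 * L) ≤ M / (9 / 10 * L) := by gcongr
  have t2 : M / (9 / 10 * L) = 10 / 9 * (M / L) := by
    field_simp
  have t3 : 0 ≤ M / L := by positivity
  calc 2 * (4 * Real.pi * ((a ^ 2 + b ^ 2) / (9 / 10 * L))) ≤ 2 * (4 * Real.pi * (10 / 9 * (M / L))) := by
        rw [← t2]
        gcongr
    _ ≤ 64 * (M / L) := by nlinarith

end Cal
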