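import Pool.Agent.Lib.MP_4ea4c7_an.StmH2

open MeasureTheory Complex Metric Set Filter Topology
open scoped ComplexConjugate ENNReal NNReal

namespace Cal

private theorem Tlem_exp (d : ℂ) : ‖exp d - 1‖ ≤ ‖d‖ * Real.exp ‖d‖ := by
  have := Complex.norm_exp_sub_sum_le_norm_mul_exp d 1
  simpa using this

private theorem Tlem_asy {G : Set ℂ} {μ : ℂ → ℝ} {X Y g : ℂ → ℂ → ℂ} (h : LS G μ X Y g) (k : ℂ) :
    ∃ C : ℝ, 0 ≤ C ∧ ∀ z : ℂ, 2 ≤ ‖z‖ → ‖exp (-(I * k * z)) * X z k - 1‖ ≤ C / ‖z‖ ∧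
      ‖exp (-(I * k * z)) * Y z k - I‖ ≤ C / ‖z‖ := by
  obtain ⟨C, hC⟩ := h.asy
  refine ⟨|C| * ‖k‖ * Real.exp (|C| * ‖k‖), by positivity, ?_⟩
  have key : ∀ c : ℂ, ‖c‖ = 1 → ∀ z : ℂ, 2 ≤ ‖z‖ →
      ‖exp (-(I * k * z)) * FF X Y c z k - c‖ ≤ |C| * ‖k‖ * Real.exp (|C| * ‖k‖) / ‖z‖ := by
    intro c hc z hz
    obtain ⟨d, hd, he⟩ := (hC z hz k).2 c hc
    have hz0 : 0 < ‖z‖ := by linarith
    have e1 : exp (-(I * k * z)) * FF X Y c z k - c = c * (exp d - 1) := by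
      rw [he, exp_add]
      have : exp (-(I * k * z)) * exp (I * k * z) = 1 := by
        rw [← exp_add, neg_add_cancel, exp_zero]
      linear_combination (c * exp d) * this
    have e2 : ‖d‖ ≤ |C| * ‖k‖ / ‖z‖ := by
      refine hd.trans ?_
      gcongr
      exact le_abs_self C
    have e3 : ‖d‖ ≤ |C| * ‖k‖ := by
      refine e2.trans (div_le_self (by positivity) (by linarith))
    rw [e1, norm_mul, hc, one_mul]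
    calc ‖exp d - 1‖ ≤ ‖d‖ * Real.exp ‖d‖ := Tlem_exp d
      _ ≤ (|C| * ‖k‖ / ‖z‖) * Real.exp (|C| * ‖k‖) := by
        gcongr
      _ = |C| * ‖k‖ * Real.exp (|C| * ‖k‖) / ‖z‖ := by ring
  intro z hz
  have k1 := key 1 (by simp) z hz
  have k2 := key I (by simp) z hz
  simp only [FF, one_re, one_im, I_re, I_im, ofReal_one, ofReal_zero, one_mul, zero_mul, add_zero,
    zero_add] at k1 k2
  exact ⟨k1, k2⟩

private theorem Tlem_bd {G : Set ℂ} {μ : ℂ → ℝ} {X Y g : ℂ → ℂ → ℂ} (h : LS G μ X Y g) (k : ℂ) :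
    ∃ M : ℝ, (∀ z ∈ G, ‖z‖ < 5 / 8 → ‖X z k‖ ≤ M) ∧ ∀ z ∈ G, ‖z‖ < 5 / 8 → ‖Y z k‖ ≤ M := by
  obtain ⟨C, hC⟩ := h.bd
  have key : ∀ c : ℂ, ‖c‖ = 1 → ∀ z ∈ G, ‖z‖ < 5 / 8 →
      ‖FF X Y c z k‖ ≤ Real.exp (|C| * (1 + ‖k‖) * 2) := by
    intro c hc z hz hz2
    refine (hC z hz k c hc).2.1.trans ?_
    rw [Real.exp_le_exp]
    have e1 : C * (1 + ‖k‖) * (1 + ‖z‖) ≤ |C| * (1 + ‖k‖) * (1 + ‖z‖) := by
      gcongr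
      exact le_abs_self C
    refine e1.trans ?_
    gcongr
    linarith
  refine ⟨Real.exp (|C| * (1 + ‖k‖) * 2), ?_, ?_⟩
  · intro z hz hz2
    have k1 := key 1 (by simp) z hz hz2
    simpa [FF] using k1
  · intro z hz hz2
    have k1 := key I (by simp) z hz hz2
    simpa [FF] using k1

theorem piece_Tlem (h1 : S_ktr) (h2 : S_kCll) (h3 : S_kuni) (h4 : S_kwt) : S_Tlem := by
  intro Ω G c C γ₁ γ₂ κ₁ κ₂ K₁ K₂ X₁ Y₁ g₁ X₂ Y₂ g₂ hP hc hC₁ hC₂ hγ₁ hγ₂ hTT hKP₁ hKP₂ hH0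
    hL₁ hL₂ k z hz
  obtain ⟨hAdm, hWt⟩ := h4 Ω G c C γ₂ κ₂ K₂ hP hc hC₂ hγ₂ hKP₂
  obtain ⟨M, hM1, hM2⟩ := Tlem_bd hL₁ k
  obtain ⟨C₁, hC₁0, hA₁⟩ := Tlem_asy hL₁ k
  obtain ⟨C₂, hC₂0, hA₂⟩ := Tlem_asy hL₂ k
  have hzG : z ∈ G := hP.ext z hz.le
  have main : ∀ (P₁ P₂ : ℂ → ℂ) (e : ℂ), Cl G (muk γ₁ κ₁) P₁ → Cl G (muk γ₂ κ₂) P₂ →
      (∀ z ∈ G, ‖z‖ < 5 / 8 → ‖P₁ z‖ ≤ M) →
      (∀ z : ℂ, 2 ≤ ‖z‖ → ‖exp (-(I * k * z)) * P₁ z - e‖ ≤ C₁ / ‖z‖) →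
      (∀ z : ℂ, 2 ≤ ‖z‖ → ‖exp (-(I * k * z)) * P₂ z - e‖ ≤ C₂ / ‖z‖) → P₁ z = P₂ z := by
    intro P₁ P₂ e hP₁ hP₂ hM a1 a2
    obtain ⟨F, hF, hFe⟩ := h1 Ω G c C γ₁ γ₂ κ₁ κ₂ K₁ K₂ P₁ M hP hc hC₁ hC₂ hγ₁ hγ₂ hTT hKP₁ hKP₂
      hH0 hP₁ hM
    have hH := (h2 G _ (muk γ₂ κ₂) κ₂ hAdm hWt).1 F P₂ (-1) hF hP₂
    have hzero := h3 G _ (muk γ₂ κ₂) κ₂ (fun z => X₂ z k) (fun z => Y₂ z k) _ k (C₁ + C₂) hAdm hWt
      (hL₂.cl k).1 (hL₂.cl k).2 hH (by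
        intro z hz
        have hz0 : 0 < ‖z‖ := by linarith
        have hle : C₂ / ‖z‖ ≤ (C₁ + C₂) / ‖z‖ := by
          gcongr
          linarith
        refine ⟨(hA₂ z hz).1.trans hle, (hA₂ z hz).2.trans hle, ?_⟩
        rw [hFe z (by linarith)]
        have e1 : exp (-(I * k * z)) * (P₁ z + ((-1 : ℝ) : ℂ) * P₂ z)
            = (exp (-(I * k * z)) * P₁ z - e) - (exp (-(I * k * z)) * P₂ z - e) := by
          push_cast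
          ring
        rw [e1]
        refine (norm_sub_le _ _).trans ?_
        rw [add_div]
        exact add_le_add (a1 z hz) (a2 z hz)) z hzG
    have e2 := hFe z hz
    simp only [e2] at hzero
    push_cast at hzero
    linear_combination hzero
  exact ⟨main _ _ 1 (hL₁.cl k).1 (hL₂.cl k).1 hM1 (fun z hz => (hA₁ z hz).1)
    (fun z hz => (hA₂ z hz).1), main _ _ I (hL₁.cl k).2 (hL₂.cl k).2 hM2
    (fun z hz => (hA₁ z hz).2) (fun z hz => (hA₂ z hz).2)⟩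

end Cal
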