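import Pool.Agent.Lib.MP_4ea4c7_an.Stm1

/-!
# Statements, part 2: smooth coefficients (similarity principle, maximum principle, equicontinuity), the functions `f_{m,n}` and
the passage to measurable coefficients

Paper: /team-store/MP_4ea4c7_paper.md, sections 1 and 2.
-/

open MeasureTheory Complex Metric Set Filter Topology
open scoped ComplexConjugate ENNReal NNReal

namespace Cal

noncomputable section

/-! ## D. Smooth coefficients -/

/-- [D1] Similarity principle. Proof: `F = f - μ conj f` is continuous on `U`, `f = (F + μ conj F)/(1-μ²)`, so `|f| ≤ |F|/(1-κ)`, and `F` has the weak derivative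
`∂F/∂z̄ = B - (db μ) conj f - μ conj A = - (db μ) conj f` on `U` (`S_basic`, `S_smooth` (3) with the smooth factor `μ`). Let `b z = - (db μ)(z) conj (f z) / F z` if `z ∈ U`, `F z ≠ 0`, and `b z = 0` otherwise:
bounded (`db μ` is bounded), measurable, zero for `‖z‖ > 5/4` (there `μ = 0` on an open set). `σ = Ct b` is continuous, `O(1/z)`, holomorphic for `‖z‖ > 5/4`, with weak `∂σ/∂z̄ = b` (`S_C3a`, `S_C3b`, `S_C4`).
`exp (-σ)` has weak `∂/∂z̄` equal to `- b exp (-σ)` (`S_chain` with `G = exp ∘ neg`), so `exp (-σ) F` has weak `∂/∂z̄` equal to `exp (-σ) (- b F - (db μ) conj f) = 0` on `U` (`S_prod`; where `F = 0` also `f = 0`): holomorphic by `S_weyl`.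
Symmetry: `b (conj z) = conj (b z)` because `(db μ)(conj z) = conj ((db μ)(z))`, and the last part of `S_C3a`. -/
def S_sim : Prop := ∀ κ : ℝ, 0 ≤ κ → κ < 1 → ∀ μ, SM κ μ → ∀ (U : Set ℂ) (f : ℂ → ℂ), IsOpen U → ContinuousOn f U → Bel μ U f →
  ∃ σ : ℂ → ℂ, Continuous σ ∧ Dec σ ∧ DifferentiableOn ℂ σ {z | 5 / 4 < ‖z‖} ∧
    DifferentiableOn ℂ (fun z => exp (-σ z) * (f z - (μ z : ℂ) * conj (f z))) U ∧
    ((∀ z ∈ U, conj z ∈ U ∧ f (conj z) = conj (f z)) → ∀ z, σ (conj z) = conj (σ z))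

/-- [D2] A nonconstant solution takes all directions near every point. Proof: `f - c`, `c = f z1`, is again a solution; `σ` from `S_sim` for `f - c`; `Φ = exp (-σ) (f - c - μ conj (f - c))` is holomorphic on `U`, `Φ z1 = 0`.
If `Φ = 0` near `z1`, then `Φ = 0` on `U` (identity theorem, `U` preconnected), so `f = c` on `U`. Otherwise `Φ z = (z - z1)^n Ψ z`, `n ≥ 1`, `Ψ z1 ≠ 0`, `Ψ` holomorphic near `z1`. With `a = exp (σ z1) Ψ z1`, `μ1 = μ z1`:
for `z = z1 + t ζ`, `‖ζ‖ = 1`, `t → 0+`: `(f z - c)/t^n → (a ζ^n + μ1 conj (a ζ^n))/(1-μ1²)`. The real linear map `L w = w + μ1 conj w` is bijective (`|μ1| < 1`); choose `ζ` with `a ζ^n = ‖a‖ w0/‖w0‖`, `L w0 = ω`: then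
the direction of `f z - c` tends to `ω`. -/
def S_open : Prop := ∀ κ : ℝ, 0 ≤ κ → κ < 1 → ∀ μ, SM κ μ → ∀ (U : Set ℂ) (f : ℂ → ℂ), IsOpen U → IsPreconnected U → ContinuousOn f U → Bel μ U f →
  (¬ ∃ c, ∀ z ∈ U, f z = c) → ∀ z1 ∈ U, ∀ ω : ℂ, ‖ω‖ = 1 → ∀ ε : ℝ, 0 < ε →
  ∃ z ∈ U, ‖z - z1‖ < ε ∧ f z ≠ f z1 ∧ ‖(f z - f z1) / ((‖f z - f z1‖ : ℝ) : ℂ) - ω‖ < ε

/-- [D3] Maximum principle for solutions. Proof: let `Re (c f)` be maximal on `closedBall z0 r` at `z1` (compactness). If `z1` is on the sphere, done. If `f` is constant on the ball, take any point of the sphere.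
Otherwise `S_open` at `z1` with `ω = conj c` (`‖c‖ = 1`) gives `z` close to `z1` with `Re (c (f z - f z1)) > 0`, a contradiction. -/
def S_mpF : Prop := ∀ κ : ℝ, 0 ≤ κ → κ < 1 → ∀ μ, SM κ μ → ∀ (z0 : ℂ) (ρ : ℝ) (f : ℂ → ℂ), ContinuousOn f (ball z0 ρ) → Bel μ (ball z0 ρ) f → MPP z0 ρ f

/-- [D4] Maximum principle for logarithms of solutions. Proof: as `S_mpF`: let `Re (c g)` be maximal on `closedBall z0 r` at an interior point `z1`. If `f = exp (N g)` is constant on the ball, then `g` is constant (continuous with values in a discrete set on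
a connected set). Otherwise `S_open` at `z1` with `ω = f z1 conj c / ‖f z1‖`: points `z → z1` with `(f z - f z1)/‖f z - f z1‖ → ω`; for `z` close to `z1`, `N (g z - g z1) = Complex.log (f z / f z1)`
(both are small with the same exponential) `= (f z/f z1 - 1)(1 + o(1))`, and `(f z / f z1 - 1)` has direction close to `ω/f z1 · ‖f z1‖ = conj c`, so `Re (c (g z - g z1)) > 0`. -/
def S_mpG : Prop := ∀ κ : ℝ, 0 ≤ κ → κ < 1 → ∀ μ, SM κ μ → ∀ (z0 : ℂ) (ρ : ℝ) (g : ℂ → ℂ) (N : ℕ), 1 ≤ N → ContinuousOn g (ball z0 ρ) →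
  Bel μ (ball z0 ρ) (fun z => exp ((N : ℂ) * g z)) → MPP z0 ρ g

/-- [D5] Courant-Lebesgue. Proof: let `δ < ρ' < ρ`. For smooth `h` and `δ < r < ρ'` let `osc_r h` be the diameter of `h (sphere z0 r)`; `osc_r h ≤ ∫_0^{2π} |∂_θ h| dθ ≤ r ∫ (|dz h| + |db h|) dθ`, so
`(osc_r h)² ≤ 4π r² ∫ (|dz h|² + |db h|²) dθ`, `∫_δ^{ρ'} (osc_r h)² dr/r ≤ 4π ∫_{ball z0 ρ'} (|dz h|² + |db h|²)` (polar coordinates). Apply it to the smooth approximations of `g` on `closedBall z0 ρ'` (`S_moll`): `osc_r` converges uniformly, so the same holds for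
`g` with `A, B`. Hence some `r ∈ (δ, ρ')` has `(osc_r g)² ≤ 4π M / log (ρ'/δ)`. By the maximum principle `MPP` (with `c = 1, -1`) `Re g` takes on `closedBall z0 r` only values between its extreme values on the sphere, so `|Re g z - Re g z0| ≤ osc_r g`, the same for `Im g`
(`c = -I, I`): `‖g z - g z0‖ ≤ √2 osc_r g ≤ √(8π M/log (ρ'/δ))`, and `8π < 64`: let `ρ' → ρ`. -/
def S_CL : Prop := ∀ (z0 : ℂ) (ρ M : ℝ) (g A B : ℂ → ℂ), ContinuousOn g (ball z0 ρ) → WD (ball z0 ρ) g A B → IntegrableOn (fun z => ‖A z‖ ^ 2 + ‖B z‖ ^ 2) (ball z0 ρ) volume →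
  ∫ z in ball z0 ρ, (‖A z‖ ^ 2 + ‖B z‖ ^ 2) ≤ M → MPP z0 ρ g → ∀ δ : ℝ, 0 < δ → δ < ρ → ∀ z ∈ closedBall z0 δ, ‖g z - g z0‖ ≤ 8 * Real.sqrt (M / Real.log (ρ / δ))

/-- [D6] Entire solutions with given polynomial part, smooth coefficient. Proof: `S_solve` with `S = 0`, `S_reg` with `M = 0`: a continuous `f`, equal a.e. and for `‖z‖ > 5/4` to `pv p + Ct w`. Symmetry: `f' z = conj (f (conj z))` has the same
properties (`S_basic` (6), `μ` even, `pv p (conj z) = conj (pv p z)`), `f' - f` is a solution with `Dec`, so zero a.e. (`S_zero`) and everywhere by continuity. Growth: continuous and `O(|z|^N)` for `‖z‖ ≥ 3/2` (`S_C3a`). -/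
def S_fpS : Prop := ∀ κ : ℝ, 0 ≤ κ → κ < 1 → ∀ μ, SM κ μ → ∀ p : Polynomial ℝ, ∃ f, PN μ p.natDegree f ∧ Dec (fun z => f z - pv p z)

/-- [D7a] Solutions with many prescribed zeros, smooth coefficients. Proof: `N = m + n`. `p ↦ f_p` (`S_fpS`; unique by `S_zero` and continuity, hence real linear) maps real polynomials of degree `≤ N` (`Polynomial.degreeLT ℝ (N+1)`, dimension `N+1`) to solutions.
`f_p` is holomorphic for `‖z‖ > 5/4` (`S_polypart`) and real on the real axis, so the conditions `iteratedDeriv i f_p (-2) = 0` (`i < m`), `iteratedDeriv i f_p 2 = 0` (`i < n`) are `N` real linear conditions (real parts; the imaginary parts vanish automatically because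
`f (conj z) = conj (f z)`): there is `p ≠ 0` satisfying them. Then `f_p ≠ 0` (else `p = O(1/z)`, `p = 0`). Vanishing derivatives give the `O` statements (Taylor). -/
def S_fex1 : Prop := ∀ κ : ℝ, 0 ≤ κ → κ < 1 → ∀ μ, SM κ μ → ∀ m n : ℕ, ∃ f, PN μ (m + n) f ∧ (∃ z, f z ≠ 0) ∧
  (f =O[𝓝 (-2 : ℂ)] fun z => (z + 2) ^ m) ∧ (f =O[𝓝 (2 : ℂ)] fun z => (z - 2) ^ n)

/-- [D7b] Representation, smooth coefficients. Proof: `σ, Φ` from `S_sim` with `U = univ`: `Φ = exp (-σ)(f - μ conj f)` is entire, `|Φ| ≤ C (1+|z|)^N`, and `O((z+2)^m)` at `-2`, `O((z-2)^n)` at `2` (`μ = 0` near these points), so `Φ = λ (z+2)^m (2-z)^n`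
(the quotient is entire after removing the singularities, and bounded: Liouville). `λ ≠ 0` (else `f - μ conj f = 0`, `f = 0`), `λ` real (symmetry: `Φ (conj z) = conj (Φ z)`; take `z = 0`). Replace `f` by `c f`, `c = 1/λ` (real multiples of elements of `PN` are in `PN`, `S_basic`). For `F = f - μ conj f = exp σ (z+2)^m (2-z)^n`:
`f = F (1 + μ conj F/F)/(1-μ²)`, so `f = (z+2)^m (2-z)^n exp (N d)` with `N d = σ + Complex.log (1 + μ conj F/F) - Real.log (1-μ²)` (`μ = 0` near `±2`, elsewhere `F ≠ 0`, `|μ conj F/F| < 1`; for `N = 0` take `d = 0`: then `σ + ... = 0`? instead: for `N = 0`, `f = f_p` with `p` constant, so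
`f - const` is a solution with `Dec`, `f = const` by `S_zero`): continuous, symmetric, `N d = σ` for `‖z‖ > 5/4`, hence `Dec`. -/
def S_fex2 : Prop := ∀ κ : ℝ, 0 ≤ κ → κ < 1 → ∀ μ, SM κ μ → ∀ (m n : ℕ) (f : ℂ → ℂ), PN μ (m + n) f → (∃ z, f z ≠ 0) →
  (f =O[𝓝 (-2 : ℂ)] fun z => (z + 2) ^ m) → (f =O[𝓝 (2 : ℂ)] fun z => (z - 2) ^ n) →
  ∃ (c : ℝ) (d : ℂ → ℂ), c ≠ 0 ∧ FMN μ m n (fun z => (c : ℂ) * f z) d

/-- Existence of `f_{m,n}` for smooth coefficients (from `S_fex1`, `S_fex2`; done together with [D7b]). -/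
def S_fexist : Prop := ∀ κ : ℝ, 0 ≤ κ → κ < 1 → ∀ μ, SM κ μ → ∀ m n : ℕ, ∃ f d, FMN μ m n f d

/-- [D8a] The equation for `d`. Proof: `N = m + n`, `R = (z+2)^m (2-z)^n`, `A_f, B_f` from `PN`. Put `A = A_f/(N f) - gp`, `B = B_f/(N f)` (`f ≠ 0` off `±2`). Off `±2`: `h = f/R = exp (N d)` is continuous, with weak derivatives `A_f/R - f R'/R²`, `B_f/R` (`S_smooth` (3)); near a point `z0`
`d = d z0 + Complex.log (h/h z0)/N` (continuity), so the chain rule (`S_chain`) gives `WD` with `A, B` (`R'/(N R) = gp`). For `‖z‖ > 5/4`, `f` is holomorphic (`S_polypart`), so `h` is holomorphic there off `±2` and continuous, hence holomorphic (removable singularity), and so is `d`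
(locally a logarithm): `WD` near `±2` with `deriv d` and `0`, which agree a.e. with `A, B` (`S_wuniq`). Glue: `S_glue`. Equation: `B = μ conj A_f/(N f) = μ (conj f/f) conj (A_f/(N f))`. -/
def S_dW : Prop := ∀ κ : ℝ, 0 ≤ κ → κ < 1 → ∀ μ, Mu κ (5 / 4) μ → ∀ (m n : ℕ) (f d : ℂ → ℂ), FMN μ m n f d → 1 ≤ m + n →
  ∃ A B : ℂ → ℂ, WD univ d A B ∧ (∀ᵐ z : ℂ, B z = (μ z : ℂ) * (conj (f z) / f z) * conj (A z + gp m n z)) ∧ DifferentiableOn ℂ d {z | 5 / 4 < ‖z‖}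

/-- [D8b] Energy of `d`. Proof: `A, B` from `S_dW`. `B = 0` a.e. for `‖z‖ > 5/4`, `Dec d`: `S_uniq` gives `A, B ∈ L²`, `‖A‖₂ = ‖B‖₂ ≤ κ (‖A‖₂ + ‖gp‖_{L²(closedBall 0 (5/4))})` (`|conj f/f| ≤ 1`)
and `|gp| ≤ 4/3` on that ball, so `‖A‖₂ ≤ 4 κ/(1-κ)`. -/
def S_dWD : Prop := ∀ κ : ℝ, 0 ≤ κ → κ < 1 → ∃ C : ℝ, 0 ≤ C ∧ ∀ μ, Mu κ (5 / 4) μ → ∀ (m n : ℕ) (f d : ℂ → ℂ), FMN μ m n f d → 1 ≤ m + n →
  ∃ A B : ℂ → ℂ, WD univ d A B ∧ (∀ᵐ z : ℂ, B z = (μ z : ℂ) * (conj (f z) / f z) * conj (A z + gp m n z)) ∧ MemLp A 2 volume ∧ MemLp B 2 volume ∧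
    eLpNorm A 2 volume ≤ ENNReal.ofReal C ∧ eLpNorm B 2 volume ≤ ENNReal.ofReal C ∧ DifferentiableOn ℂ d {z | 5 / 4 < ‖z‖}

/-- [D9] Common modulus of continuity and common bound, smooth coefficients. Proof: `z0` with `‖z0‖ ≤ 3/2`, `ρ = 1/4`: on `ball z0 ρ` (inside `‖z‖ < 7/4`) let `G z = (m/N) log (z+2) + (n/N) log (2-z)` (principal logarithms: real parts of `z+2`, `2-z` are positive), `deriv G = gp m n`, `|gp| ≤ 4`,
and `g = G + d`: `exp (N g) = f`, so `MPP z0 ρ g` (`S_mpG`), `WD` with `A + gp, B` (`S_dWD`), energy at most `M = 4 C² + 8` or so. `S_CL`: `‖g z - g z0‖ ≤ 8 √(M/log (1/(4δ)))` for `‖z - z0‖ ≤ δ`, hence `‖d z - d z0‖ ≤` that `+ 4δ`. Bound: for `‖z‖ ≥ 3/2`,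
`d = Ct B` (`S_uniq`, a.e. and both continuous there) so `‖d z‖ ≤ C'/‖z‖` by `S_C3a`; for `‖z‖ ≤ 3/2` connect with a point of norm `3/2` by a fixed number of steps of length `δ₁` on which `d` changes by at most `1`. For `‖z0‖ ≥ 3/2`: `d` is holomorphic and bounded by a constant on `ball z0 (1/8)`,
so Lipschitz with a common constant near `z0` (Cauchy estimate). -/
def S_dmod : Prop := ∀ κ : ℝ, 0 ≤ κ → κ < 1 → ∃ (C : ℝ) (δ : ℝ → ℝ), (∀ ε, 0 < ε → 0 < δ ε) ∧ ∀ μ, SM κ μ → ∀ (m n : ℕ) (f d : ℂ → ℂ), FMN μ m n f d → 1 ≤ m + n →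
  (∀ z, ‖d z‖ ≤ C / (1 + ‖z‖)) ∧ ∀ ε, 0 < ε → ∀ z z', ‖z - z'‖ < δ ε → ‖d z - d z'‖ ≤ ε

/-! ## E. Measurable coefficients -/

/-- [E1] Smooth approximation of coefficients. Proof: `mol (ρ n) μ` (`S_bump`, real valued) for `n ≥ 4` is smooth, bounded by `κ`, even (the kernel is radial), zero for `‖z‖ > 5/4`, and tends to `μ` in `L²`; a subsequence converges a.e. -/
def S_mollmu : Prop := ∀ (κ : ℝ) (μ : ℂ → ℝ), 0 ≤ κ → Mu κ 1 μ → ∃ μk : ℕ → ℂ → ℝ, (∀ k, SM κ (μk k)) ∧ ∀ᵐ z, Tendsto (fun k => μk k z) atTop (𝓝 (μ z))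

/-- [E2] Equicontinuity and `L²` convergence give locally uniform convergence. Proof: let `z0 ∈ V`, `ε > 0`, `δ` as in the hypothesis with `closedBall z0 δ ⊆ V`. `‖g k z0 - g l z0‖² ≤ 3 (2ε)² + (3/|B|) ∫_B |g k - g l|²`, `B = ball z0 δ`, so `(g k z0)` is Cauchy; the limit `h` is continuous on `V`, the convergence is
uniform on compact sets (finite cover by such balls), and `h = g` a.e. on every compact subset of `V` (uniform convergence implies `L²` convergence on compact sets), hence on `V`. -/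
def S_loc : Prop := ∀ (V : Set ℂ) (g : ℂ → ℂ) (gk : ℕ → ℂ → ℂ), IsOpen V → (∀ k, ContinuousOn (gk k) V) → L2loc V g →
  (∀ z0 ∈ V, ∀ ε : ℝ, 0 < ε → ∃ δ : ℝ, 0 < δ ∧ ∀ k, ∀ z ∈ V, ‖z - z0‖ < δ → ‖gk k z - gk k z0‖ ≤ ε) →
  (∀ K : Set ℂ, IsCompact K → K ⊆ V → Tendsto (fun k => eLpNorm (fun z => gk k z - g z) 2 (volume.restrict K)) atTop (𝓝 0)) →
  ∃ h : ℂ → ℂ, ContinuousOn h V ∧ h =ᵐ[volume.restrict V] g ∧ ∀ K : Set ℂ, IsCompact K → K ⊆ V → TendstoUniformlyOn gk h atTop K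

/-- [E3] Entire solutions for measurable coefficients. Proof: let `p_k → p`, `μ_k → μ` as in the second part (for the first part `p_k = p`, `μ_k` from `S_mollmu`, `f_k` from `S_fpS`). By `S_polypart` `f_k = pv p_k + Ct w_k` a.e. and for `‖z‖ > 5/4` (its polynomial is `p_k`: the difference of two
polynomials which is `Dec` is zero), and `(w, A)` from `S_solve` for `μ, p, S = 0`. `S_stab`: `f_k → pv p + Ct w` in `L²` of every ball, `A_k → A` in `L²` of every ball. So for every `z0` the energies `∫_{ball z0 1} |A_k|² + |B_k|²` are bounded and `S_mpF` + `S_CL` give equicontinuity at `z0`. `S_loc` with `V = univ`: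
`f_k → h` locally uniformly, `h` continuous, `h = pv p + Ct w` a.e. (and for `‖z‖ ≥ 3/2`, by continuity), symmetric, `Bel` (`S_basic` (4)), growth, `Dec (h - pv p)`. Part 2: `f` and `h` have the same polynomial part, so `f = h` (`S_zero` and continuity). -/
def S_fp : Prop := ∀ κ : ℝ, 0 ≤ κ → κ < 1 → ∀ μ, Mu κ 1 μ →
  (∀ p : Polynomial ℝ, ∃ f, PN μ p.natDegree f ∧ Dec (fun z => f z - pv p z)) ∧
  (∀ (μk : ℕ → ℂ → ℝ) (N : ℕ) (p : Polynomial ℝ) (pk : ℕ → Polynomial ℝ) (f : ℂ → ℂ) (fk : ℕ → ℂ → ℂ), (∀ k, SM κ (μk k)) →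
    (∀ᵐ z, Tendsto (fun k => μk k z) atTop (𝓝 (μ z))) → (∀ k, (pk k).natDegree ≤ N) → p.natDegree ≤ N →
    (∀ i, Tendsto (fun k => (pk k).coeff i) atTop (𝓝 (p.coeff i))) → PN μ N f → Dec (fun z => f z - pv p z) →
    (∀ k, PN (μk k) N (fk k)) → (∀ k, Dec (fun z => fk k z - pv (pk k) z)) →
    ∀ K : Set ℂ, IsCompact K → TendstoUniformlyOn fk f atTop K)

/-- [E4] Compactness (Arzela-Ascoli). Proof: `BoundedContinuousFunction.arzela_ascoli` (or a diagonal argument over a countable dense set) on the balls `closedBall 0 j`, diagonal subsequence; the bound `C/(1+‖z‖)` makes the convergence uniform on `ℂ`. -/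
def S_AA : Prop := ∀ (C : ℝ) (δ : ℝ → ℝ), (∀ ε, 0 < ε → 0 < δ ε) → ∀ d : ℕ → ℂ → ℂ,
  (∀ k z, ‖d k z‖ ≤ C / (1 + ‖z‖)) → (∀ k ε, 0 < ε → ∀ z z', ‖z - z'‖ < δ ε → ‖d k z - d k z'‖ ≤ ε) →
  ∃ (φ : ℕ → ℕ) (h : ℂ → ℂ), StrictMono φ ∧ Continuous h ∧ (∀ z, ‖h z‖ ≤ C / (1 + ‖z‖)) ∧
    (∀ ε, 0 < ε → ∀ z z', ‖z - z'‖ < δ ε → ‖h z - h z'‖ ≤ ε) ∧ TendstoUniformly (fun k => d (φ k)) h atTop

/-- [E5] Limits of `f_{m,n}`. Proof: `S_dmod` and `S_AA`: a subsequence of `d_k` converges uniformly to some `h`, with bound and symmetry, so `f_k → f' := (z+2)^m (2-z)^n exp (N h)` locally uniformly. Let `p_k` be the polynomial parts (`S_polypart`): on `‖z‖ = 3`, `|f_k| ≤ C_N` and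
`|f_k - p_k| = |Ct w_k| ≤ C ‖w_k‖₂ ≤ C'_N` since `w_k = B_f = N f_k B_{d_k}` a.e. (`S_dWD`; `|f_k|` bounded on the disc), so the coefficients of `p_k` are bounded (Cauchy estimates) and after passing to a subsequence `p_k → p` (degree `≤ N`). `S_fp`: with `g = f_p` for `μ` (`PN μ N`), `f_k → g` locally uniformly,
so `f' = g` is in `PN μ N`, and `FMN μ m n f' h`. -/
def S_sub : Prop := ∀ κ : ℝ, 0 ≤ κ → κ < 1 → ∀ μ, Mu κ 1 μ → ∀ μk : ℕ → ℂ → ℝ, (∀ k, SM κ (μk k)) → (∀ᵐ z, Tendsto (fun k => μk k z) atTop (𝓝 (μ z))) →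
  ∀ (m n : ℕ) (f d : ℕ → ℂ → ℂ), 1 ≤ m + n → (∀ k, FMN (μk k) m n (f k) (d k)) →
  ∃ (φ : ℕ → ℕ) (f' h : ℂ → ℂ), StrictMono φ ∧ FMN μ m n f' h ∧ TendstoUniformly (fun k => d (φ k)) h atTop

/-- [E6] Existence of `f_{m,n}` for measurable coefficients with common bounds. Proof: `C, δ` from `S_dmod`; `μ_k` from `S_mollmu`, `f_k, d_k` from `S_fexist`, `S_sub`; the bounds pass to the limit. For `m = n = 0`: `f = 1`, `d = 0`. -/
def S_lim : Prop := ∀ κ : ℝ, 0 ≤ κ → κ < 1 → ∃ (C : ℝ) (δ : ℝ → ℝ), (∀ ε, 0 < ε → 0 < δ ε) ∧ ∀ μ, Mu κ 1 μ → ∀ m n : ℕ, ∃ f d, FMN μ m n f d ∧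
  (1 ≤ m + n → (∀ z, ‖d z‖ ≤ C / (1 + ‖z‖)) ∧ ∀ ε, 0 < ε → ∀ z z', ‖z - z'‖ < δ ε → ‖d z - d z'‖ ≤ ε)

/-- [E7] Basis. Proof: the map `f ↦` polynomial part (`S_polypart`, unique) from `PN μ N` to real polynomials of degree `≤ N` (`Polynomial.degreeLT ℝ (N+1)`, dimension `N+1`) is real linear and injective (`S_zero`: a continuous solution with `Dec` is zero).
The `F i`, `i ≤ N`, are linearly independent: `F i = (z+2)^i · (nonvanishing continuous)` near `-2`; in a relation `∑ c_i F i = 0` look at the smallest `i` with `c_i ≠ 0` and divide by `(z+2)^i`. So their polynomial parts are a basis and `g - ∑ c_i F i` has polynomial part `0`. -/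
def S_basis : Prop := ∀ κ : ℝ, 0 ≤ κ → κ < 1 → ∀ μ, Mu κ 1 μ → ∀ (N : ℕ) (F D : ℕ → ℂ → ℂ), (∀ i, i ≤ N → FMN μ i (N - i) (F i) (D i)) →
  ∀ g, PN μ N g → ∃ c : ℕ → ℝ, ∀ z, g z = ∑ i ∈ Finset.range (N + 1), (c i : ℂ) * F i z

/-- [E8] Uniqueness of `f_{m,n}` up to a factor. Proof: `S_lim` gives `F i, D i`; we may take `F m = f` (`FMN μ m n f d`, `n = N - m`). `g = ∑ c_i F i` (`S_basis`). Near `-2`, `F i = (z+2)^i u_i` with `u_i (-2) ≠ 0` continuous: `g = O((z+2)^m)` forces `c_i = 0` for `i < m` (smallest index);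
near `2`, `F i = (2-z)^{N-i} v_i`: `g = O((z-2)^n)` forces `c_i = 0` for `i > m`. -/
def S_unq : Prop := ∀ κ : ℝ, 0 ≤ κ → κ < 1 → ∀ μ, Mu κ 1 μ → ∀ (m n : ℕ) (f d g : ℂ → ℂ), FMN μ m n f d → PN μ (m + n) g →
  (g =O[𝓝 (-2 : ℂ)] fun z => (z + 2) ^ m) → (g =O[𝓝 (2 : ℂ)] fun z => (z - 2) ^ n) → ∃ c : ℝ, ∀ z, g z = (c : ℂ) * f z

/-- [E9] Uniqueness. Proof: `f' = c f` by `S_unq`, and `f'/f = exp (N (d' - d)) → 1` at infinity, so `c = 1`. For `N ≥ 1`: `exp (N (d' - d)) = 1` off `±2`, hence everywhere by continuity, `d' - d` is continuous with values in a discrete set and tends to `0`: zero. -/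
def S_funq : Prop := ∀ κ : ℝ, 0 ≤ κ → κ < 1 → ∀ μ, Mu κ 1 μ → ∀ (m n : ℕ) (f d f' d' : ℂ → ℂ), FMN μ m n f d → FMN μ m n f' d' →
  (∀ z, f z = f' z) ∧ (1 ≤ m + n → ∀ z, d z = d' z)

/-- [E10] Convergence of `f_{m,n}`. Proof: for `m + n = 0` all functions are `1`. Otherwise, if the convergence fails on `K`, some subsequence stays at distance `≥ ε` from `f` on `K`; `S_sub` applied to it and `S_funq` give a contradiction. -/
def S_conv : Prop := ∀ κ : ℝ, 0 ≤ κ → κ < 1 → ∀ μ, Mu κ 1 μ → ∀ μk : ℕ → ℂ → ℝ, (∀ k, SM κ (μk k)) → (∀ᵐ z, Tendsto (fun k => μk k z) atTop (𝓝 (μ z))) →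
  ∀ (m n : ℕ) (fk dk : ℕ → ℂ → ℂ) (f d : ℂ → ℂ), (∀ k, FMN (μk k) m n (fk k) (dk k)) → FMN μ m n f d →
  ∀ K : Set ℂ, IsCompact K → TendstoUniformlyOn fk f atTop K

end

end Cal
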