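import Pool.Agent.Lib.MP_4ea4c7_an.StmH1
import Pool.Agent.Lib.MP_4ea4c7_an.Stm2

/-! Piece a3: Courant-Lebesgue for one real function. -/

open MeasureTheory Complex Metric Set Filter Topology
open scoped ComplexConjugate ENNReal NNReal

namespace Cal

theorem piece_acl (h1 : S_CL) (h2 : S_bridge) : S_acl := by
  intro z0 ρ M s S hρ hs hW hint hM hmp δ hδ hδρ z hz
  have hWD := h2.2.1 _ _ _ hW
  have hcont : ContinuousOn (fun z => (s z : ℂ)) (ball z0 ρ) := continuous_ofReal.comp_continuousOn hs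
  have e : ∀ z, ‖conj (S z) / 2‖ ^ 2 + ‖S z / 2‖ ^ 2 = (1 / 2) * ‖S z‖ ^ 2 := by
    intro z
    rw [norm_div, norm_div, norm_conj]
    norm_num
    ring
  have hM0 : 0 ≤ ∫ z in ball z0 ρ, ‖S z‖ ^ 2 := integral_nonneg fun z => by positivity
  have hint2 : IntegrableOn (fun z => ‖conj (S z) / 2‖ ^ 2 + ‖S z / 2‖ ^ 2) (ball z0 ρ) volume := by
    simp only [e]
    exact hint.const_mul _
  have hM2 : ∫ z in ball z0 ρ, (‖conj (S z) / 2‖ ^ 2 + ‖S z / 2‖ ^ 2) ≤ M := by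
    simp only [e]
    rw [integral_const_mul]
    linarith
  have hmpp : MPP z0 ρ (fun z => (s z : ℂ)) := by
    intro r hr hrρ c hc w hw
    obtain ⟨⟨a, ha, ha'⟩, b, hb, hb'⟩ := hmp r hr hrρ w hw
    rcases hc with rfl | rfl | rfl | rfl
    · exact ⟨a, ha, by simpa using ha'⟩
    · exact ⟨b, hb, by simpa using hb'⟩
    · exact ⟨a, ha, by simp⟩
    · exact ⟨a, ha, by simp⟩
  have := h1 z0 ρ M _ _ _ hcont hWD hint2 hM2 hmpp δ hδ hδρ z hz
  rw [← ofReal_sub, norm_real, Real.norm_eq_abs] at this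
  exact this

end Cal
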