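import Pool.Agent.Lib.MP_4ea4c7_an.Stm1

open MeasureTheory Complex Metric Set Filter Topology
open scoped ComplexConjugate ENNReal NNReal

namespace Cal

noncomputable section

namespace WedgeAux

theorem ap_smooth {F : ℂ → ℂ} (hF : ContDiff ℝ (⊤ : ℕ∞) F) (v : ℂ) :
    ContDiff ℝ (⊤ : ℕ∞) (fun z => fderiv ℝ F z v) :=
  (hF.fderiv_right (by simp)).clm_apply contDiff_const

theorem supp_of {F g : ℂ → ℂ} (h : HasCompactSupport F) (hg : ∀ z, fderiv ℝ F z = 0 → g z = 0) :
    HasCompactSupport g := by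
  have h1 : HasCompactSupport (fderiv ℝ F) := h.fderiv ℝ
  refine h1.mono ?_
  intro z hz
  rw [Function.mem_support] at hz ⊢
  exact fun h0 => hz (hg z h0)

theorem tf_db {F : ℂ → ℂ} (hF : ContDiff ℝ (⊤ : ℕ∞) F) (h : HasCompactSupport F) :
    TF univ (db F) := by
  refine ⟨?_, supp_of h ?_, subset_univ _⟩
  · unfold db
    exact ((ap_smooth hF 1).add (contDiff_const.mul (ap_smooth hF I))).div_const _
  · intro z hz
    unfold db
    rw [hz]; simp

theorem tf_dz {F : ℂ → ℂ} (hF : ContDiff ℝ (⊤ : ℕ∞) F) (h : HasCompactSupport F) :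
    TF univ (dz F) := by
  refine ⟨?_, supp_of h ?_, subset_univ _⟩
  · unfold dz
    exact ((ap_smooth hF 1).sub (contDiff_const.mul (ap_smooth hF I))).div_const _
  · intro z hz
    unfold dz
    rw [hz]; simp

theorem mixed {F : ℂ → ℂ} (hF : ContDiff ℝ (⊤ : ℕ∞) F) (z : ℂ) : dz (db F) z = db (dz F) z := by
  have hd : HasFDerivAt (fderiv ℝ F) (fderiv ℝ (fderiv ℝ F) z) z := by
    have : ContDiff ℝ (⊤ : ℕ∞) (fderiv ℝ F) := hF.fderiv_right (by simp)
    exact (this.differentiable (by simp) z).hasFDerivAt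
  have hL : ∀ v : ℂ, HasFDerivAt (fun w => fderiv ℝ F w v)
      ((ContinuousLinearMap.apply ℝ ℂ v).comp (fderiv ℝ (fderiv ℝ F) z)) z := by
    intro v
    exact (ContinuousLinearMap.apply ℝ ℂ v).hasFDerivAt.comp z hd
  have hs : fderiv ℝ (fderiv ℝ F) z 1 I = fderiv ℝ (fderiv ℝ F) z I 1 := by
    have : IsSymmSndFDerivAt ℝ F z := by
      refine (hF.contDiffAt).isSymmSndFDerivAt ?_
      simp only [minSmoothness_of_isRCLikeNormedField]
      exact WithTop.coe_le_coe.2 (le_top : (2 : ℕ∞) ≤ ⊤)
    exact this 1 I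
  have e1 : HasFDerivAt (db F) ((2 : ℂ)⁻¹ • (((ContinuousLinearMap.apply ℝ ℂ (1:ℂ)).comp
      (fderiv ℝ (fderiv ℝ F) z)
      + I • ((ContinuousLinearMap.apply ℝ ℂ I).comp (fderiv ℝ (fderiv ℝ F) z))))) z := by
    have := (((hL 1).add ((hL I).const_mul I)).const_mul (2 : ℂ)⁻¹)
    refine this.congr_of_eventuallyEq (Eventually.of_forall fun w => ?_)
    simp only [db, Pi.add_apply]
    ring
  have e2 : HasFDerivAt (dz F) ((2 : ℂ)⁻¹ • (((ContinuousLinearMap.apply ℝ ℂ (1:ℂ)).comp
      (fderiv ℝ (fderiv ℝ F) z)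
      - I • ((ContinuousLinearMap.apply ℝ ℂ I).comp (fderiv ℝ (fderiv ℝ F) z))))) z := by
    have := (((hL 1).sub ((hL I).const_mul I)).const_mul (2 : ℂ)⁻¹)
    refine this.congr_of_eventuallyEq (Eventually.of_forall fun w => ?_)
    simp only [dz, Pi.sub_apply]
    ring
  have l1 : dz (db F) z = (fderiv ℝ (db F) z 1 - I * fderiv ℝ (db F) z I) / 2 := rfl
  have l2 : db (dz F) z = (fderiv ℝ (dz F) z 1 + I * fderiv ℝ (dz F) z I) / 2 := rfl
  rw [l1, l2, e1.fderiv, e2.fderiv]
  simp only [smul_apply, add_apply, sub_apply, ContinuousLinearMap.comp_apply, ContinuousLinearMap.apply_apply,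
    smul_eq_mul]
  rw [← hs]
  ring

theorem lim_mul {K : Set ℂ} {A g : ℂ → ℂ} {gn : ℕ → ℂ → ℂ}
    (hA : MemLp A 2 (volume.restrict K)) (hA0 : ∀ᵐ z, z ∉ K → A z = 0)
    (hgn : ∀ n, MemLp (gn n) 2 (volume.restrict K)) (hg : MemLp g 2 (volume.restrict K))
    (hlim : Tendsto (fun n => eLpNorm (fun z => gn n z - g z) 2 (volume.restrict K)) atTop (𝓝 0)) :
    Tendsto (fun n => ∫ z, A z * gn n z) atTop (𝓝 (∫ z, A z * g z)) := by
  have hz : ∀ h : ℂ → ℂ, ∫ z in K, A z * h z = ∫ z, A z * h z := by
    intro h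
    refine setIntegral_eq_integral_of_ae_compl_eq_zero ?_
    filter_upwards [hA0] with z hz hzK
    rw [hz hzK, zero_mul]
  rw [← hz g]
  simp only [← hz]
  refine tendsto_integral_of_L1' (fun z => A z * g z) (hA.1.mul hg.1)
    (Eventually.of_forall fun n => ?_) ?_
  · exact hA.integrable_mul (hgn n)
  · have hb : ∀ n, eLpNorm ((fun z => A z * gn n z) - fun z => A z * g z) 1 (volume.restrict K) ≤
        eLpNorm A 2 (volume.restrict K) *
          eLpNorm (fun z => gn n z - g z) 2 (volume.restrict K) := by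
      intro n
      have he : ((fun z => A z * gn n z) - fun z => A z * g z) =
          A • (fun z => gn n z - g z) := by
        funext z
        simp only [Pi.sub_apply, Pi.smul_apply', smul_eq_mul]
        ring
      rw [he]
      exact eLpNorm_smul_le_mul_eLpNorm ((hgn n).1.sub hg.1) hA.1
    refine tendsto_of_tendsto_of_tendsto_of_le_of_le tendsto_const_nhds ?_ (fun _ => zero_le) hb
    have := ENNReal.Tendsto.const_mul hlim (Or.inr hA.eLpNorm_ne_top)
    simpa using this

end WedgeAux

open WedgeAux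

theorem piece_wedge (h1 : S_moll) (h2 : S_bridge) (h3 : S_wuniq) (h4 : S_smooth) (h5 : S_basic) :
    S_wedge := by
  intro U a b G H hU hG hac haU hH
  obtain ⟨-, b2, -, -⟩ := h2
  obtain ⟨-, -, -, -, s5, -⟩ := h5
  have hA := b2 univ a G hG
  have hB := b2 U b H hH
  -- vanishing off the support
  have hoff : ∀ᵐ z, z ∉ tsupport a → G z = 0 := by
    have hV : IsOpen (tsupport a)ᶜ := (isClosed_tsupport a).isOpen_compl
    have w1 := s5 univ (tsupport a)ᶜ _ _ _ (subset_univ _) hA
    have w0 : WD (tsupport a)ᶜ (fun _ => 0) (fun _ => 0) (fun _ => 0) := by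
      refine ⟨?_, ?_, ?_, ?_, ?_⟩
      · intro K _ _; exact MemLp.zero'
      · intro K _ _; exact MemLp.zero'
      · intro K _ _; exact MemLp.zero'
      · intro φ _; simp
      · intro φ _; simp
    have := (h3 _ _ _ _ _ _ _ hV w1 w0 ?_).2
    · rw [Filter.EventuallyEq, ae_restrict_iff' hV.measurableSet] at this
      filter_upwards [this] with z hz hz'
      have := hz hz'
      simpa using this
    · rw [Filter.EventuallyEq, ae_restrict_iff' hV.measurableSet]
      refine Eventually.of_forall fun z hz => ?_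
      have : a z = 0 := image_eq_zero_of_notMem_tsupport hz
      simp [this]
  obtain ⟨K, hK, hK0, hKU⟩ := exists_compact_between hac hU haU
  have hK0' : tsupport a ⊆ K := hK0.trans interior_subset
  have hGK : MemLp G 2 (volume.restrict K) := hG.G2 K hK (subset_univ _)
  have hHK : MemLp H 2 (volume.restrict K) := hH.G2 K hK hKU
  have hoffK : ∀ᵐ z, z ∉ K → G z = 0 := by
    filter_upwards [hoff] with z hz hzK
    exact hz (fun h => hzK (hK0' h))
  have hA2 : MemLp (fun z => conj (G z) / 2) 2 (volume.restrict K) := hA.A2 K hK (subset_univ _)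
  have hB2 : MemLp (fun z => G z / 2) 2 (volume.restrict K) := hA.B2 K hK (subset_univ _)
  have hHA2 : MemLp (fun z => conj (H z) / 2) 2 (volume.restrict K) := hB.A2 K hK hKU
  have hHB2 : MemLp (fun z => H z / 2) 2 (volume.restrict K) := hB.B2 K hK hKU
  -- integrability of `conj G * H`
  have hint : Integrable (fun z => conj (G z) * H z) volume := by
    have i1 : Integrable (fun z => (conj (G z) / 2) * H z) (volume.restrict K) :=
      hA2.integrable_mul hHK
    have i2 : IntegrableOn (fun z => conj (G z) * H z) K volume := by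
      refine (i1.const_mul 2).congr (Eventually.of_forall fun z => ?_)
      simp only
      ring
    refine i2.integrable_of_ae_notMem_eq_zero ?_
    filter_upwards [hoffK] with z hz hzK
    rw [hz hzK]; simp
  obtain ⟨F, F1, F2, -, F4, F5, -⟩ := h1 U _ _ _ hU hB K hK hKU
  have hdbK : ∀ n, MemLp (db (F n)) 2 (volume.restrict K) := fun n => by
    have ht := tf_db (F1 n) (F2 n)
    exact (ht.1.continuous.memLp_of_hasCompactSupport ht.2.1).restrict K
  have hdzK : ∀ n, MemLp (dz (F n)) 2 (volume.restrict K) := fun n => by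
    have ht := tf_dz (F1 n) (F2 n)
    exact (ht.1.continuous.memLp_of_hasCompactSupport ht.2.1).restrict K
  have L1 := lim_mul (g := fun z => H z / 2) (gn := fun n => db (F n)) hA2
    (by filter_upwards [hoffK] with z hz hzK; rw [hz hzK]; simp) hdbK hHB2 F5
  have L2 := lim_mul (g := fun z => conj (H z) / 2) (gn := fun n => dz (F n)) hB2
    (by filter_upwards [hoffK] with z hz hzK; rw [hz hzK]; simp) hdzK hHA2 F4
  have heq : ∀ n, ∫ z, (conj (G z) / 2) * db (F n) z = ∫ z, (G z / 2) * dz (F n) z := by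
    intro n
    have e1 := hA.hA (db (F n)) (tf_db (F1 n) (F2 n))
    have e2 := hA.hB (dz (F n)) (tf_dz (F1 n) (F2 n))
    have e3 : ∫ z, (a z : ℂ) * dz (db (F n)) z = ∫ z, (a z : ℂ) * db (dz (F n)) z := by
      refine integral_congr_ae (Eventually.of_forall fun z => ?_)
      simp only
      rw [mixed (F1 n) z]
    rw [e1, e2] at e3
    exact neg_injective e3
  have hfin : ∫ z, (conj (G z) / 2) * (H z / 2) = ∫ z, (G z / 2) * (conj (H z) / 2) := by
    refine tendsto_nhds_unique L1 ?_
    simp only [heq]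
    exact L2
  have hX : ∫ z, conj (G z) * H z = conj (∫ z, conj (G z) * H z) := by
    rw [← integral_conj]
    have e1 : ∫ z, conj (G z) * H z = 4 * ∫ z, (conj (G z) / 2) * (H z / 2) := by
      rw [← integral_const_mul]
      refine integral_congr_ae (Eventually.of_forall fun z => ?_)
      simp only
      ring
    have e2 : ∫ z, conj (conj (G z) * H z) = 4 * ∫ z, (G z / 2) * (conj (H z) / 2) := by
      rw [← integral_const_mul]
      refine integral_congr_ae (Eventually.of_forall fun z => ?_)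
      simp only [map_mul, Complex.conj_conj]
      ring
    rw [e1, e2, hfin]
  have him : (∫ z, conj (G z) * H z).im = 0 := Complex.conj_eq_iff_im.1 hX.symm
  refine ⟨hint.im, ?_, hoff⟩
  have := integral_im hint
  unfold cr
  exact this.trans him

end

end Cal
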