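import Pool.Agent.Lib.MP_4ea4c7_an.StmH1
import Pool.Agent.Lib.MP_4ea4c7_an.P_wedge

/-!
# MP_4ea4c7_an, stage 2, piece a10: stream functions in balls

Proof: on the unit ball, for `r < 1` let `w = I X/2` on `ball 0 r`, zero elsewhere, and `h = Ct w`; the imaginary part of `h` is
harmonic in `ball 0 r` (Weyl), so it is the imaginary part of a holomorphic function `q`, and `Re (h - q)` has gradient `2 w = I X`.
The functions for `r` tending to `1` differ by constants; glue, then scale.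
-/

open MeasureTheory Complex Metric Set Filter Topology
open scoped ComplexConjugate ENNReal NNReal

namespace Cal

noncomputable section

private lemma aconj_congr (h3 : S_bridge) (h4 : S_basic) (U : Set ℂ) (hU : MeasurableSet U) (s s' : ℂ → ℝ)
    (G G' : ℂ → ℂ) (h : WG U s G) (hs : s =ᵐ[volume.restrict U] s') (hG : G =ᵐ[volume.restrict U] G') :
    WG U s' G' := by
  have h1 := h3.2.1 U s G h
  have h2 := h4.2.2.2.1 U _ _ _ (fun z => (s' z : ℂ)) (fun z => conj (G' z) / 2) (fun z => G' z / 2) hU h1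
    (by filter_upwards [hs] with z hz; rw [hz]) (by filter_upwards [hG] with z hz; rw [hz])
    (by filter_upwards [hG] with z hz; rw [hz])
  have h5 := (h3.1 U _ _ _ h2).1
  have e1 : (fun z => ((s' z : ℂ)).re) = s' := by ext z; simp
  have e2 : (fun z => conj (conj (G' z) / 2) + G' z / 2) = G' := by
    ext z
    simp only [map_div₀, Complex.conj_conj, map_ofNat]
    ring
  rw [e1, e2] at h5
  exact h5

private lemma aconj_lin (h3 : S_bridge) (h4 : S_basic) (U : Set ℂ) (s t : ℂ → ℝ)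
    (G H : ℂ → ℂ) (c : ℝ) (hs : WG U s G) (ht : WG U t H) :
    WG U (fun z => s z + c * t z) (fun z => G z + c * H z) := by
  have h1 := h3.2.1 U s G hs
  have h2 := h4.2.1 U _ _ _ (c : ℂ) (h3.2.1 U t H ht)
  have h5 := (h3.1 U _ _ _ (h4.1 U _ _ _ _ _ _ h1 h2)).1
  have e1 : (fun z => ((s z : ℂ) + (c : ℂ) * (t z : ℂ)).re) = fun z => s z + c * t z := by
    ext z; simp
  have e2 : (fun z => conj (conj (G z) / 2 + (c : ℂ) * (conj (H z) / 2)) + (G z / 2 + (c : ℂ) * (H z / 2)))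
      = fun z => G z + c * H z := by
    ext z
    simp only [map_add, map_mul, map_div₀, Complex.conj_conj, map_ofNat, Complex.conj_ofReal]
    ring
  rw [e1, e2] at h5
  exact h5

private lemma aconj_const (h3 : S_bridge) (U : Set ℂ) (hU : IsOpen U) (c : ℝ) :
    WG U (fun _ => c) (fun _ => 0) := by
  have h := h3.2.2.1 U (fun _ => c) hU contDiffOn_const
  have e : gr (fun _ : ℂ => c) = fun _ => 0 := by
    ext z; simp [gr]
  rwa [e] at h

private lemma aconj_dz0 (φ : ℂ → ℂ) (z : ℂ) (hz : z ∉ tsupport φ) : dz φ z = 0 ∧ db φ z = 0 := by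
  have : fderiv ℝ φ z = 0 := by
    have h := tsupport_fderiv_subset ℝ (f := φ)
    exact image_eq_zero_of_notMem_tsupport (fun h2 => hz (h h2))
  unfold dz db
  rw [this]
  simp

private lemma aconj_mem (φ : ℂ → ℂ) (hφ : TF univ φ) : MemLp (dz φ) 2 volume ∧ MemLp (db φ) 2 volume := by
  have h1 := WedgeAux.tf_dz hφ.1 hφ.2.1
  have h2 := WedgeAux.tf_db hφ.1 hφ.2.1
  exact ⟨h1.1.continuous.memLp_of_hasCompactSupport h1.2.1, h2.1.continuous.memLp_of_hasCompactSupport h2.2.1⟩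

private lemma aconj_re (φ : ℂ → ℂ) (hφ : ContDiff ℝ (⊤ : ℕ∞) φ) (z v : ℂ) :
    fderiv ℝ (fun w => (φ w).re) z v = (fderiv ℝ φ z v).re ∧ fderiv ℝ (fun w => (φ w).im) z v = (fderiv ℝ φ z v).im := by
  have hd : HasFDerivAt φ (fderiv ℝ φ z) z := (hφ.differentiable (by simp) z).hasFDerivAt
  constructor
  · have : HasFDerivAt (fun w => (φ w).re) (reCLM.comp (fderiv ℝ φ z)) z := reCLM.hasFDerivAt.comp z hd
    rw [this.fderiv]; rfl
  · have : HasFDerivAt (fun w => (φ w).im) (imCLM.comp (fderiv ℝ φ z)) z := imCLM.hasFDerivAt.comp z hd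
    rw [this.fderiv]; rfl

private lemma aconj_id (φ : ℂ → ℂ) (hφ : ContDiff ℝ (⊤ : ℕ∞) φ) (X z : ℂ) :
    X * dz φ z + conj X * db φ z =
      (ip X (gr (fun w => (φ w).re) z) : ℂ) + (ip X (gr (fun w => (φ w).im) z) : ℂ) * I := by
  have h1 := (aconj_re φ hφ z 1)
  have h2 := (aconj_re φ hφ z I)
  unfold dz db ip gr
  rw [h1.1, h1.2, h2.1, h2.2]
  apply Complex.ext
  · simp
    ring
  · simp
    ring

private lemma aconj_core (h3 : S_bridge) (h4 : S_basic) (h5 : S_smooth) (h7 : S_weyl) (h8 : S_C3b)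
    (r : ℝ) (hr1 : r ≤ 5 / 4) (X : ℂ → ℂ) (hX : MemLp X 2 (volume.restrict (ball 0 r)))
    (hdiv : ∀ φ : ℂ → ℝ, RTF (ball 0 r) φ → ∫ z, ip (X z) (gr φ z) = 0) :
    ∃ s : ℂ → ℝ, WG (ball 0 r) s (fun z => I * X z) := by
  obtain ⟨w, hw⟩ : ∃ w : ℂ → ℂ, w = (ball (0 : ℂ) r).indicator (fun z => I * X z / 2) := ⟨_, rfl⟩
  have hwin : ∀ z ∈ ball (0 : ℂ) r, w z = I * X z / 2 := fun z hz => by
    rw [hw]; exact indicator_of_mem hz _
  have hwout : ∀ z, z ∉ ball (0 : ℂ) r → w z = 0 := fun z hz => by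
    rw [hw]; exact indicator_of_notMem hz _
  have hwm : MemLp w 2 volume := by
    rw [hw, memLp_indicator_iff_restrict measurableSet_ball]
    have h1 : (fun z => I * X z / 2) = fun z => (I / 2) * X z := by ext z; ring
    rw [h1]
    exact hX.const_mul (I / 2)
  have hW2 : W2 w := ⟨hwm, fun z hz => hwout z (by rw [mem_ball_zero_iff]; linarith)⟩
  obtain ⟨A, hA, hWD, -⟩ := h8 w hW2
  have hrel : ∀ φ, TF univ φ → ∫ z, A z * db φ z = ∫ z, w z * dz φ z := by
    intro φ hφ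
    have t1 := hWD.hA (db φ) (WedgeAux.tf_db hφ.1 hφ.2.1)
    have t2 := hWD.hB (dz φ) (WedgeAux.tf_dz hφ.1 hφ.2.1)
    simp only [WedgeAux.mixed hφ.1] at t1
    rw [t1] at t2
    exact neg_injective t2
  have hcw : MemLp (fun z => conj (w z)) 2 volume := by
    have := hwm.star
    exact this
  obtain ⟨k, hk⟩ : ∃ k : ℂ → ℂ, k = fun z => -(I * A z) + I * conj (w z) := ⟨_, rfl⟩
  have hkm : MemLp k 2 volume := by
    rw [hk]
    exact ((hA.const_mul I).neg).add (hcw.const_mul I)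
  have hker : ∀ φ, TF (ball 0 r) φ → ∫ z, k z * db φ z = 0 := by
    intro φ hφ
    have hφu : TF univ φ := ⟨hφ.1, hφ.2.1, subset_univ _⟩
    obtain ⟨m1, m2⟩ := aconj_mem φ hφu
    have i1 : Integrable (fun z => A z * db φ z) volume := hA.integrable_mul m2
    have i2 : Integrable (fun z => w z * dz φ z) volume := hwm.integrable_mul m1
    have i3 : Integrable (fun z => conj (w z) * db φ z) volume := hcw.integrable_mul m2
    have e1 : ∫ z, k z * db φ z = -I * ∫ z, (w z * dz φ z - conj (w z) * db φ z) := by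
      rw [integral_sub i2 i3, ← hrel φ hφu, ← integral_sub i1 i3, ← integral_const_mul]
      refine integral_congr_ae (Eventually.of_forall fun z => ?_)
      simp only [hk]
      ring
    have e2 : ∀ z, w z * dz φ z - conj (w z) * db φ z = I / 2 *
        ((ip (X z) (gr (fun w => (φ w).re) z) : ℂ) + (ip (X z) (gr (fun w => (φ w).im) z) : ℂ) * I) := by
      intro z
      by_cases hz : z ∈ ball (0 : ℂ) r
      · rw [← aconj_id φ hφ.1 (X z) z, hwin z hz]
        simp only [map_div₀, map_mul, Complex.conj_I, map_ofNat]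
        ring
      · have hz2 : z ∉ tsupport φ := fun h => hz (hφ.2.2 h)
        obtain ⟨d1, d2⟩ := aconj_dz0 φ z hz2
        rw [← aconj_id φ hφ.1 (X z) z, d1, d2]
        ring
    have i4 : Integrable (fun z => ((ip (X z) (gr (fun w => (φ w).re) z) : ℂ) + (ip (X z) (gr (fun w => (φ w).im) z) : ℂ) * I)) volume := by
      have := (i2.sub i3).const_mul (-2 * I)
      refine this.congr (Eventually.of_forall fun z => ?_)
      simp only [Pi.sub_apply]
      rw [e2 z]
      linear_combination (-((ip (X z) (gr (fun w => (φ w).re) z) : ℂ) + (ip (X z) (gr (fun w => (φ w).im) z) : ℂ) * I)) * I_sq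
    have e3 : ∫ z, ((ip (X z) (gr (fun w => (φ w).re) z) : ℂ) + (ip (X z) (gr (fun w => (φ w).im) z) : ℂ) * I) = 0 := by
      rw [← integral_re_add_im i4]
      have r1 : RTF (ball 0 r) (fun w => (φ w).re) := by
        refine ⟨reCLM.contDiff.comp hφ.1, hφ.2.1.comp_left (g := re) rfl, ?_⟩
        refine (closure_mono ?_).trans hφ.2.2
        intro z hz h0
        apply hz
        show (φ z).re = 0
        rw [h0]; rfl
      have r2 : RTF (ball 0 r) (fun w => (φ w).im) := by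
        refine ⟨imCLM.contDiff.comp hφ.1, hφ.2.1.comp_left (g := im) rfl, ?_⟩
        refine (closure_mono ?_).trans hφ.2.2
        intro z hz h0
        apply hz
        show (φ z).im = 0
        rw [h0]; rfl
      have f1 := hdiv _ r1
      have f2 := hdiv _ r2
      have g1 : ∀ z, RCLike.re ((ip (X z) (gr (fun w => (φ w).re) z) : ℂ) + (ip (X z) (gr (fun w => (φ w).im) z) : ℂ) * I)
        = ip (X z) (gr (fun w => (φ w).re) z) := by intro z; simp
      have g2 : ∀ z, RCLike.im ((ip (X z) (gr (fun w => (φ w).re) z) : ℂ) + (ip (X z) (gr (fun w => (φ w).im) z) : ℂ) * I)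
        = ip (X z) (gr (fun w => (φ w).im) z) := by intro z; simp
      simp only [g1, g2, f1, f2]
      simp
    rw [e1]
    simp only [e2]
    rw [integral_const_mul, e3]
    simp
  obtain ⟨⟨g, hg, hkg⟩, -⟩ := h7 (ball 0 r) k isOpen_ball (fun K _ _ => hkm.restrict K) hker
  obtain ⟨G1, hG1⟩ := hg.isExactOn_ball
  have hq : ∀ z ∈ ball (0 : ℂ) r, HasDerivAt (fun z => I * G1 z) (I * g z) z := fun z hz => (hG1 z hz).const_mul I
  have hqd : DifferentiableOn ℂ (fun z => I * G1 z) (ball 0 r) :=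
    fun z hz => (hq z hz).differentiableAt.differentiableWithinAt
  have w1 := h5.2.1 (ball 0 r) _ isOpen_ball hqd
  have w2 := h4.2.1 (ball 0 r) _ _ _ (-1) w1
  have w3 := h4.2.2.2.2.1 univ (ball 0 r) _ _ _ (subset_univ _) hWD
  have w4 := h4.1 (ball 0 r) _ _ _ _ _ _ w3 w2
  have w5 := h4.2.2.2.1 (ball 0 r) _ _ _ _ (fun z => conj (w z)) w measurableSet_ball w4 (EventuallyEq.refl _ _)
    (by
      filter_upwards [hkg, ae_restrict_mem measurableSet_ball] with z hz hz2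
      rw [(hq z hz2).deriv, ← hz, hk]
      linear_combination (A z - conj (w z)) * I_sq) (by
      filter_upwards with z
      simp)
  have w6 := (h3.1 (ball 0 r) _ _ _ w5).1
  refine ⟨_, aconj_congr h3 h4 (ball 0 r) measurableSet_ball _ _ _ _ w6 (EventuallyEq.refl _ _) ?_⟩
  filter_upwards [ae_restrict_mem measurableSet_ball] with z hz
  rw [Complex.conj_conj, hwin z hz]
  ring

/-! ## gluing -/

private lemma aconj_glue (h3 : S_bridge) (h4 : S_basic) (h6 : S_aconst) (X : ℂ → ℂ) (s : ℕ → ℂ → ℝ) (r : ℕ → ℝ)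
    (hr : Monotone r) (h : ∀ n, WG (ball 0 (r n)) (s n) X) :
    ∃ t : ℂ → ℝ, ∀ n, WG (ball 0 (r n)) t X := by
  have hsub : ∀ n m, n ≤ m → ball (0 : ℂ) (r n) ⊆ ball 0 (r m) := fun n m hnm => ball_subset_ball (hr hnm)
  have hmono : ∀ (U V : Set ℂ) (u : ℂ → ℝ) (G : ℂ → ℂ), V ⊆ U → WG U u G → WG V u G := by
    intro U V u G hVU hu
    exact ⟨fun K hK hKV => hu.u2 K hK (hKV.trans hVU), fun K hK hKV => hu.G2 K hK (hKV.trans hVU),
      fun φ hφ => hu.h φ ⟨hφ.1, hφ.2.1, hφ.2.2.trans hVU⟩⟩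
  have hc : ∀ n, ∃ c : ℝ, ∀ᵐ z ∂(volume.restrict (ball (0 : ℂ) (r n))), s (n + 1) z = s n z + c := by
    intro n
    have h1 := aconj_lin h3 h4 (ball 0 (r n)) _ _ _ _ (-1) (hmono _ _ _ _ (hsub n (n + 1) (Nat.le_succ n)) (h (n + 1))) (h n)
    obtain ⟨c, hc⟩ := (h6 (ball 0 (r n)) _ _ isOpen_ball (convex_ball _ _).isPreconnected h1
      (Eventually.of_forall fun z => by push_cast; ring)).1
    refine ⟨c, ?_⟩
    filter_upwards [hc] with z hz
    linarith
  choose c hc using hc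
  obtain ⟨s', hs'⟩ : ∃ s' : ℕ → ℂ → ℝ, s' = fun n z => s n z - ∑ k ∈ Finset.range n, c k := ⟨_, rfl⟩
  have hWs : ∀ n, WG (ball 0 (r n)) (s' n) X := by
    intro n
    have h1 := aconj_lin h3 h4 (ball 0 (r n)) _ _ _ _ (-(∑ k ∈ Finset.range n, c k)) (h n)
      (aconj_const h3 (ball 0 (r n)) isOpen_ball 1)
    have e1 : (fun z => s n z + -(∑ k ∈ Finset.range n, c k) * (1 : ℝ)) = s' n := by
      rw [hs']; ext z; ring
    have e2 : (fun z => X z + ((-(∑ k ∈ Finset.range n, c k) : ℝ) : ℂ) * (0 : ℂ)) = X := by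
      ext z; ring
    rw [e1, e2] at h1
    exact h1
  have hstep : ∀ n, ∀ᵐ z ∂(volume : Measure ℂ), z ∈ ball (0 : ℂ) (r n) → s' (n + 1) z = s' n z := by
    intro n
    have := (ae_restrict_iff' measurableSet_ball).1 (hc n)
    filter_upwards [this] with z hz hzb
    simp only [hs', hz hzb, Finset.sum_range_succ]
    ring
  have hall : ∀ᵐ z ∂(volume : Measure ℂ), ∀ n, z ∈ ball (0 : ℂ) (r n) → s' (n + 1) z = s' n z := ae_all_iff.2 hstep
  have hall2 : ∀ᵐ z ∂(volume : Measure ℂ), ∀ n m, n ≤ m → z ∈ ball (0 : ℂ) (r n) → s' m z = s' n z := by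
    filter_upwards [hall] with z hz n m hnm hzn
    induction m, hnm using Nat.le_induction with
    | base => rfl
    | succ m hnm ih => rw [hz m (hsub n m hnm hzn), ih]
  refine ⟨fun z => s' (sInf {n | z ∈ ball (0 : ℂ) (r n)}) z, fun n => ?_⟩
  refine aconj_congr h3 h4 (ball 0 (r n)) measurableSet_ball _ _ _ _ (hWs n) ?_ (EventuallyEq.refl _ _)
  rw [EventuallyEq, ae_restrict_iff' measurableSet_ball]
  filter_upwards [hall2] with z hz hzn
  have hmem : sInf {n | z ∈ ball (0 : ℂ) (r n)} ∈ {n | z ∈ ball (0 : ℂ) (r n)} := Nat.sInf_mem ⟨n, hzn⟩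
  exact hz _ n (Nat.sInf_le hzn) hmem

/-! ## scaling -/

private lemma aconj_int (a : ℂ) (b : ℝ) (f : ℂ → ℂ) :
    ∫ z, f (a + b • z) = |(b ^ 2)⁻¹| • ∫ z, f z := by
  have h1 := Measure.integral_comp_smul (volume : Measure ℂ) (fun z => f (a + z)) b
  rw [Complex.finrank_real_complex] at h1
  rw [h1, integral_add_left_eq_self]

private lemma aconj_intR (a : ℂ) (b : ℝ) (f : ℂ → ℝ) :
    ∫ z, f (a + b • z) = |(b ^ 2)⁻¹| • ∫ z, f z := by
  have h1 := Measure.integral_comp_smul (volume : Measure ℂ) (fun z => f (a + z)) b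
  rw [Complex.finrank_real_complex] at h1
  rw [h1, integral_add_left_eq_self]

/-- the similarity `z ↦ a + b z` -/
private def aconjT (a : ℂ) (b : ℝ) (hb : b ≠ 0) : ℂ ≃ₜ ℂ := (Homeomorph.smulOfNeZero b hb).trans (Homeomorph.addLeft a)

private lemma aconjT_apply (a : ℂ) (b : ℝ) (hb : b ≠ 0) (z : ℂ) : aconjT a b hb z = a + b • z := rfl

private lemma aconj_map (a : ℂ) (b : ℝ) (hb : b ≠ 0) :
    Measure.map (aconjT a b hb) (volume : Measure ℂ) = ENNReal.ofReal |(b ^ 2)⁻¹| • volume := by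
  have h1 : Measure.map (b • · : ℂ → ℂ) (volume : Measure ℂ) = ENNReal.ofReal |(b ^ 2)⁻¹| • volume := by
    have := Measure.map_addHaar_smul (volume : Measure ℂ) hb
    rwa [Complex.finrank_real_complex] at this
  have h2 : Measure.map (aconjT a b hb) (volume : Measure ℂ)
      = Measure.map (a + ·) (Measure.map (b • · : ℂ → ℂ) (volume : Measure ℂ)) := by
    rw [Measure.map_map (measurable_const_add a) (measurable_const_smul b)]
    rfl
  rw [h2, h1, Measure.map_smul, map_add_left_eq_self]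

private lemma aconj_l2 (a : ℂ) (b : ℝ) (hb : b ≠ 0) (U : Set ℂ) (g : ℂ → ℂ) (h : L2loc U g) :
    L2loc ((fun z => a + b • z) ⁻¹' U) (fun z => g (a + b • z)) := by
  intro K hK hKU
  have hTK : IsCompact (aconjT a b hb '' K) := hK.image (aconjT a b hb).continuous
  have hTU : aconjT a b hb '' K ⊆ U := by
    rintro _ ⟨z, hz, rfl⟩
    exact hKU hz
  have hg := h _ hTK hTU
  have hm : Measure.map (aconjT a b hb) (volume.restrict K)
      = ENNReal.ofReal |(b ^ 2)⁻¹| • volume.restrict (aconjT a b hb '' K) := by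
    rw [← Measure.restrict_smul, ← aconj_map a b hb,
      Measure.restrict_map (aconjT a b hb).continuous.measurable hTK.isClosed.measurableSet,
      (aconjT a b hb).injective.preimage_image K]
  have hg2 : MemLp g 2 (Measure.map (aconjT a b hb) (volume.restrict K)) := by
    rw [hm]
    exact hg.smul_measure ENNReal.ofReal_ne_top
  exact hg2.comp_of_map (aconjT a b hb).continuous.measurable.aemeasurable

private lemma aconj_rtf (a : ℂ) (b : ℝ) (hb : b ≠ 0) (U : Set ℂ) (φ : ℂ → ℝ) (h : RTF U φ) :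
    RTF ((fun z => a + b • z) ⁻¹' U) (fun z => φ (a + b • z)) ∧
    ∀ z, gr (fun z => φ (a + b • z)) z = (b : ℂ) * gr φ (a + b • z) := by
  refine ⟨⟨?_, ?_, ?_⟩, ?_⟩
  · have hT : ContDiff ℝ (⊤ : ℕ∞) (fun z : ℂ => a + b • z) := by fun_prop
    exact h.1.comp hT
  · exact h.2.1.comp_homeomorph (aconjT a b hb)
  · refine (closure_minimal (t := (fun z => a + b • z) ⁻¹' (tsupport φ)) ?_ ?_).trans (preimage_mono h.2.2)
    · intro z hz
      exact subset_tsupport _ hz
    · exact (isClosed_tsupport φ).preimage (aconjT a b hb).continuous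
  · intro z
    have h1 : HasFDerivAt φ (fderiv ℝ φ (a + b • z)) (a + b • z) :=
      (h.1.differentiable (by simp) _).hasFDerivAt
    have h2 : HasFDerivAt (fun z : ℂ => a + b • z) (b • ContinuousLinearMap.id ℝ ℂ) z :=
      ((hasFDerivAt_id z).const_smul b).const_add a
    have h3 := h1.comp z h2
    have h4 : fderiv ℝ (fun z => φ (a + b • z)) z = (fderiv ℝ φ (a + b • z)).comp (b • ContinuousLinearMap.id ℝ ℂ) :=
      h3.fderiv
    unfold gr
    rw [h4]
    simp only [ContinuousLinearMap.comp_apply, smul_apply, ContinuousLinearMap.id_apply,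
      map_smul, smul_eq_mul]
    push_cast
    ring

private lemma aconj_inv (a : ℂ) (b : ℝ) (hb : b ≠ 0) (z : ℂ) :
    a + b • (-(b⁻¹ • a) + b⁻¹ • z) = z := by
  rw [smul_add, smul_neg, smul_smul, smul_smul, mul_inv_cancel₀ hb, one_smul, one_smul]
  ring

private lemma aconj_inv' (a : ℂ) (b : ℝ) (hb : b ≠ 0) (z : ℂ) :
    -(b⁻¹ • a) + b⁻¹ • (a + b • z) = z := by
  rw [smul_add, smul_smul, inv_mul_cancel₀ hb, one_smul]
  ring

private lemma aconj_scale (a : ℂ) (b : ℝ) (hb : b ≠ 0) (U : Set ℂ) (s : ℂ → ℝ) (G : ℂ → ℂ) (h : WG U s G) :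
    WG ((fun z => a + b • z) ⁻¹' U) (fun z => s (a + b • z)) (fun z => (b : ℂ) * G (a + b • z)) := by
  refine ⟨aconj_l2 a b hb U _ h.u2, fun K hK hKU => (aconj_l2 a b hb U _ h.G2 K hK hKU).const_mul _, ?_⟩
  intro φ hφ
  obtain ⟨r1, r2⟩ := aconj_rtf (-(b⁻¹ • a)) b⁻¹ (inv_ne_zero hb) _ φ hφ
  have hU : (fun z => -(b⁻¹ • a) + b⁻¹ • z) ⁻¹' ((fun z => a + b • z) ⁻¹' U) = U := by
    ext z
    simp only [mem_preimage, aconj_inv a b hb z]
  rw [hU] at r1
  have h1 := h.h _ r1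
  have hc : (|(b ^ 2)⁻¹| : ℝ) ≠ 0 := abs_ne_zero.2 (inv_ne_zero (pow_ne_zero 2 hb))
  have k1 := aconj_int a b (fun z => (s z : ℂ) * gr (fun z => φ (-(b⁻¹ • a) + b⁻¹ • z)) z)
  have k2 := aconj_int a b (fun z => G z * ((φ (-(b⁻¹ • a) + b⁻¹ • z) : ℝ) : ℂ))
  rw [h1] at k1
  simp only [r2, aconj_inv' a b hb] at k1 k2
  have k3 : ∫ z, (s (a + b • z) : ℂ) * (((b⁻¹ : ℝ) : ℂ) * gr φ z) = ((b⁻¹ : ℝ) : ℂ) * ∫ z, (s (a + b • z) : ℂ) * gr φ z := by
    rw [← integral_const_mul]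
    refine integral_congr_ae (Eventually.of_forall fun z => ?_)
    simp only
    ring
  have k4 : ∫ z, (b : ℂ) * G (a + b • z) * (φ z : ℂ) = (b : ℂ) * ∫ z, G (a + b • z) * (φ z : ℂ) := by
    rw [← integral_const_mul]
    refine integral_congr_ae (Eventually.of_forall fun z => ?_)
    simp only
    ring
  rw [k3] at k1
  rw [k4, k2]
  have hb' : (b : ℂ) ≠ 0 := by exact_mod_cast hb
  have hbb : (b : ℂ) * ((b⁻¹ : ℝ) : ℂ) = 1 := by
    rw [Complex.ofReal_inv]; exact mul_inv_cancel₀ hb'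
  have k5 := congrArg (fun x => (b : ℂ) * x) k1
  simp only [← mul_assoc, hbb, one_mul] at k5
  rw [k5]
  simp only [smul_neg, mul_neg]

/-! ## the unit disc -/

private lemma aconj_meas (h3 : S_bridge) (h4 : S_basic) (s : ℂ → ℝ) (G : ℂ → ℂ) (r : ℕ → ℝ)
    (hU : ball (0 : ℂ) 1 = ⋃ n, closedBall (0 : ℂ) (r n)) (h : WG (ball 0 1) s G) :
    ∃ s' : ℂ → ℝ, Measurable s' ∧ WG (ball 0 1) s' G := by
  have h1 : AEMeasurable s (volume.restrict (ball (0 : ℂ) 1)) := by
    rw [hU, aemeasurable_iUnion_iff]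
    intro n
    have h2 := (h.u2 (closedBall 0 (r n)) (isCompact_closedBall _ _) (by rw [hU]; exact subset_iUnion (fun n => closedBall (0 : ℂ) (r n)) n)).1
    have h3 := h2.aemeasurable.re
    simpa using h3
  refine ⟨h1.mk s, h1.measurable_mk, aconj_congr h3 h4 _ measurableSet_ball _ _ _ _ h h1.ae_eq_mk (EventuallyEq.refl _ _)⟩

private lemma aconj_unit (h3 : S_bridge) (h4 : S_basic) (h5 : S_smooth) (h6 : S_aconst) (h7 : S_weyl) (h8 : S_C3b)
    (h9 : S_glue) (X : ℂ → ℂ) (hX : L2loc (ball 0 1) X)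
    (hdiv : ∀ φ : ℂ → ℝ, RTF (ball 0 1) φ → ∫ z, ip (X z) (gr φ z) = 0) :
    ∃ s : ℂ → ℝ, Measurable s ∧ WG (ball 0 1) s (fun z => I * X z) := by
  obtain ⟨r, hr⟩ : ∃ r : ℕ → ℝ, r = fun (n : ℕ) => 1 - 1 / ((n : ℝ) + 2) := ⟨_, rfl⟩
  have hr1 : ∀ n, r n < 1 := by
    intro n
    rw [hr]
    have : (0 : ℝ) < 1 / ((n : ℝ) + 2) := by positivity
    simp only
    linarith
  have hmono : Monotone r := by
    intro n m hnm
    rw [hr]
    have : (n : ℝ) ≤ m := by exact_mod_cast hnm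
    have h1 : 1 / ((m : ℝ) + 2) ≤ 1 / ((n : ℝ) + 2) := by
      apply one_div_le_one_div_of_le
      · positivity
      · linarith
    simp only
    linarith
  have hex : ∀ x : ℝ, x < 1 → ∃ n, x < r n := by
    intro x hx
    obtain ⟨n, hn⟩ := exists_nat_one_div_lt (sub_pos.2 hx)
    refine ⟨n, ?_⟩
    rw [hr]
    have : 1 / ((n : ℝ) + 2) ≤ 1 / ((n : ℝ) + 1) := by
      apply one_div_le_one_div_of_le
      · positivity
      · linarith
    simp only
    linarith
  have hcore : ∀ n, ∃ s : ℂ → ℝ, WG (ball 0 (r n)) s (fun z => I * X z) := by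
    intro n
    refine aconj_core h3 h4 h5 h7 h8 (r n) (by have := hr1 n; linarith) X ?_ ?_
    · exact (hX (closedBall 0 (r n)) (isCompact_closedBall _ _) (closedBall_subset_ball (hr1 n))).mono_measure
        (Measure.restrict_mono ball_subset_closedBall le_rfl)
    · intro φ hφ
      exact hdiv φ ⟨hφ.1, hφ.2.1, hφ.2.2.trans (ball_subset_ball (hr1 n).le)⟩
  choose s hs using hcore
  obtain ⟨t, ht⟩ := aconj_glue h3 h4 h6 _ s r hmono hs
  have hWD : WD (ball 0 1) (fun z => (t z : ℂ)) (fun z => conj (I * X z) / 2) (fun z => I * X z / 2) := by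
    refine h9 (ball 0 1) _ _ _ isOpen_ball ?_
    intro z hz
    obtain ⟨n, hn⟩ := hex ‖z‖ (mem_ball_zero_iff.1 hz)
    exact ⟨ball 0 (r n), isOpen_ball, mem_ball_zero_iff.2 hn, ball_subset_ball (hr1 n).le, h3.2.1 _ _ _ (ht n)⟩
  have hWG := (h3.1 _ _ _ _ hWD).1
  have hWG2 : WG (ball 0 1) t (fun z => I * X z) := by
    refine aconj_congr h3 h4 _ measurableSet_ball _ _ _ _ hWG (Eventually.of_forall fun z => by simp) ?_
    filter_upwards with z
    simp only [map_div₀, Complex.conj_conj, map_ofNat]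
    ring
  refine aconj_meas h3 h4 t _ r ?_ hWG2
  ext z
  simp only [mem_ball_zero_iff, mem_iUnion, mem_closedBall_zero_iff]
  constructor
  · intro hz
    obtain ⟨n, hn⟩ := hex ‖z‖ hz
    exact ⟨n, hn.le⟩
  · rintro ⟨n, hn⟩
    exact hn.trans_lt (hr1 n)

theorem piece_aconj (_h1 : S_bump) (_h2 : S_moll) (h3 : S_bridge) (h4 : S_basic) (h5 : S_smooth) (h6 : S_aconst)
    (h7 : S_weyl) (h8 : S_C3b) (h9 : S_glue) : S_aconj := by
  intro z0 ρ X hρ hX hdiv
  have hb : ρ ≠ 0 := hρ.ne'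
  have hpre : (fun z => z0 + ρ • z) ⁻¹' ball z0 ρ = ball 0 1 := by
    ext z
    simp only [mem_preimage, mem_ball, dist_eq_norm, sub_zero, add_sub_cancel_left, norm_smul, Real.norm_eq_abs,
      abs_of_pos hρ]
    constructor
    · intro h
      by_contra h1
      push Not at h1
      nlinarith
    · intro h
      nlinarith
  have hX' : L2loc (ball 0 1) (fun z => X (z0 + ρ • z)) := by
    have := aconj_l2 z0 ρ hb (ball z0 ρ) X hX
    rwa [hpre] at this
  have hdiv' : ∀ φ : ℂ → ℝ, RTF (ball 0 1) φ → ∫ z, ip (X (z0 + ρ • z)) (gr φ z) = 0 := by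
    intro φ hφ
    rw [← hpre] at hφ
    obtain ⟨r1, r2⟩ := aconj_rtf (-(ρ⁻¹ • z0)) ρ⁻¹ (inv_ne_zero hb) _ φ hφ
    have hU : (fun z => -(ρ⁻¹ • z0) + ρ⁻¹ • z) ⁻¹' ((fun z => z0 + ρ • z) ⁻¹' (ball z0 ρ)) = ball z0 ρ := by
      ext z
      simp only [mem_preimage, aconj_inv z0 ρ hb z]
    rw [hU] at r1
    have k1 := aconj_intR z0 ρ (fun z => ip (X z) (gr (fun z => φ (-(ρ⁻¹ • z0) + ρ⁻¹ • z)) z))
    rw [hdiv _ r1] at k1
    simp only [r2, aconj_inv' z0 ρ hb, smul_zero] at k1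
    have k2 : ∀ z, ip (X (z0 + ρ • z)) (((ρ⁻¹ : ℝ) : ℂ) * gr φ z) = ρ⁻¹ * ip (X (z0 + ρ • z)) (gr φ z) := by
      intro z
      unfold ip
      rw [map_mul, Complex.conj_ofReal, mul_left_comm, Complex.re_ofReal_mul]
    simp only [k2] at k1
    rw [integral_const_mul] at k1
    exact (mul_eq_zero.1 k1).resolve_left (inv_ne_zero hb)
  obtain ⟨s, hsm, hs⟩ := aconj_unit h3 h4 h5 h6 h7 h8 h9 _ hX' hdiv'
  have w1 := aconj_scale (-(ρ⁻¹ • z0)) ρ⁻¹ (inv_ne_zero hb) (ball 0 1) s _ hs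
  have hU : (fun z => -(ρ⁻¹ • z0) + ρ⁻¹ • z) ⁻¹' (ball 0 1) = ball z0 ρ := by
    rw [← hpre]
    ext z
    simp only [mem_preimage, aconj_inv z0 ρ hb z]
  rw [hU] at w1
  simp only [aconj_inv z0 ρ hb] at w1
  have w2 := aconj_lin h3 h4 (ball z0 ρ) _ _ _ _ ρ (aconj_const h3 (ball z0 ρ) isOpen_ball 0) w1
  refine ⟨fun z => 0 + ρ * s (-(ρ⁻¹ • z0) + ρ⁻¹ • z), ?_, ?_⟩
  · have : Measurable (fun z : ℂ => -(ρ⁻¹ • z0) + ρ⁻¹ • z) := by fun_prop
    exact ((hsm.comp this).const_mul ρ).const_add 0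
  · refine aconj_congr h3 h4 _ measurableSet_ball _ _ _ _ w2 (EventuallyEq.refl _ _) ?_
    filter_upwards with z
    have hb' : (ρ : ℂ) ≠ 0 := by exact_mod_cast hb
    rw [Complex.ofReal_inv]
    field_simp
    ring

end

end Cal
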