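import Pool.Agent.Lib.MP_4ea4c7_an.StmH1

/-!
[a17] Lower semicontinuity with weights.
-/

open MeasureTheory Complex Metric Set Filter Topology
open scoped ComplexConjugate ENNReal NNReal

namespace Cal

noncomputable section

private theorem alsc_csq (μ : Measure ℂ) (f g : ℂ → ℂ) (hf : MemLp f 2 μ) (hg : MemLp g 2 μ) :
    ‖∫ z, f z * g z ∂μ‖ₑ ≤ eLpNorm f 2 μ * eLpNorm g 2 μ := by
  calc ‖∫ z, f z * g z ∂μ‖ₑ ≤ ∫⁻ z, ‖f z * g z‖ₑ ∂μ := enorm_integral_le_lintegral_enorm _
    _ = eLpNorm (f • g) 1 μ := by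
        rw [eLpNorm_one_eq_lintegral_enorm]; rfl
    _ ≤ eLpNorm f 2 μ * eLpNorm g 2 μ := eLpNorm_smul_le_mul_eLpNorm hg.1 hf.1

private theorem alsc_dc (μ : Measure ℂ) (a : ℕ → ℂ → ℝ) (g : ℂ → ℂ) (C : ℝ) (hg : MemLp g 2 μ)
    (ha : ∀ n, AEStronglyMeasurable (a n) μ) (hb : ∀ n, ∀ᵐ z ∂μ, |a n z| ≤ C)
    (hl : ∀ᵐ z ∂μ, Tendsto (fun n => a n z) atTop (𝓝 0)) :
    Tendsto (fun n => eLpNorm (fun z => (a n z : ℂ) * g z) 2 μ) atTop (𝓝 0) := by
  have e : ∀ n, eLpNorm (fun z => (a n z : ℂ) * g z) 2 μ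
      = (∫⁻ z, ‖(a n z : ℂ) * g z‖ₑ ^ (2:ℝ) ∂μ) ^ (1/(2:ℝ)) := by
    intro n
    rw [eLpNorm_eq_lintegral_rpow_enorm_toReal two_ne_zero ENNReal.ofNat_ne_top]; simp
  simp_rw [e]
  have hgi : ∫⁻ z, ‖g z‖ₑ ^ (2:ℝ) ∂μ < ∞ := by
    have := lintegral_rpow_enorm_lt_top_of_eLpNorm_lt_top (f := g) (p := 2) (μ := μ) two_ne_zero ENNReal.ofNat_ne_top hg.2
    simpa using this
  have h0 : Tendsto (fun n => ∫⁻ z, ‖(a n z : ℂ) * g z‖ₑ ^ (2:ℝ) ∂μ) atTop (𝓝 (∫⁻ _, 0 ∂μ)) := by
    refine tendsto_lintegral_of_dominated_convergence' (fun z => (ENNReal.ofReal C) ^ (2:ℝ) * ‖g z‖ₑ ^ (2:ℝ))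
      (fun n => ?_) (fun n => ?_) ?_ ?_
    · exact (((Complex.measurable_ofReal.comp_aemeasurable (ha n).aemeasurable).mul hg.1.aemeasurable).enorm).pow_const _
    · filter_upwards [hb n] with z hz
      rw [← ENNReal.mul_rpow_of_nonneg _ _ (by norm_num : (0:ℝ) ≤ 2)]
      refine ENNReal.rpow_le_rpow ?_ (by norm_num)
      rw [enorm_mul]
      gcongr
      rw [← ofReal_norm_eq_enorm, Complex.norm_real, Real.norm_eq_abs]
      exact ENNReal.ofReal_le_ofReal hz
    · have hne : (ENNReal.ofReal C) ^ (2:ℝ) ≠ ∞ := ENNReal.rpow_ne_top_of_nonneg (by norm_num) ENNReal.ofReal_ne_top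
      rw [lintegral_const_mul' _ _ hne]
      exact ENNReal.mul_ne_top hne hgi.ne
    · filter_upwards [hl] with z hz
      have h1 : Tendsto (fun n => (a n z : ℂ) * g z) atTop (𝓝 0) := by
        have := (Complex.continuous_ofReal.tendsto 0).comp hz
        have h2 := this.mul_const (g z)
        simpa using h2
      have h2 : Tendsto (fun n => ‖(a n z : ℂ) * g z‖ₑ) atTop (𝓝 0) := by
        have := h1.enorm
        simpa using this
      have h3 := (ENNReal.continuous_rpow_const (y := (2:ℝ))).tendsto 0 |>.comp h2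
      rw [ENNReal.zero_rpow_of_pos (by norm_num)] at h3
      exact h3
  have h1 := (ENNReal.continuous_rpow_const (y := 1/(2:ℝ))).tendsto (∫⁻ _, 0 ∂μ) |>.comp h0
  rw [lintegral_zero, ENNReal.zero_rpow_of_pos (by norm_num)] at h1
  exact h1

theorem piece_alsc : S_alsc := by
  intro K A An m mn M E C hK hA hAn hm hmn hbd hlim hM hw hE
  have hmem : ∀ᵐ z ∂(volume.restrict K), z ∈ K := ae_restrict_mem hK.measurableSet
  have hmb : ∀ᵐ z ∂(volume.restrict K), |m z| ≤ C := by
    filter_upwards [hmem, hlim] with z hz hl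
    exact le_of_tendsto hl.abs (Eventually.of_forall fun n => hbd n z hz)
  have hnb : ∀ n, ∀ᵐ z ∂(volume.restrict K), |mn n z| ≤ C := fun n => by
    filter_upwards [hmem] with z hz
    exact hbd n z hz
  -- multiplication by bounded functions
  have hmul : ∀ (a : ℂ → ℝ) (f : ℂ → ℂ), Measurable a → (∀ᵐ z ∂(volume.restrict K), |a z| ≤ C) →
      MemLp f 2 (volume.restrict K) → MemLp (fun z => (a z : ℂ) * f z) 2 (volume.restrict K) := by
    intro a f ha hb hf
    refine hf.of_le_mul (c := C) ((Complex.measurable_ofReal.comp ha).aestronglyMeasurable.mul hf.1) ?_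
    filter_upwards [hb] with z hz
    rw [norm_mul, Complex.norm_real, Real.norm_eq_abs]
    gcongr
  have hAc : MemLp (fun z => conj (A z)) 2 (volume.restrict K) := by
    refine hA.of_le (Complex.continuous_conj.comp_aestronglyMeasurable hA.1) ?_
    filter_upwards with z
    rw [RCLike.norm_conj]
  set g : ℂ → ℂ := fun z => (m z : ℂ) * conj (A z) with hgdef
  have hg : MemLp g 2 (volume.restrict K) := hmul m _ hm hmb hAc
  have hφ : MemLp (fun z => (m z : ℂ) * g z) 2 (volume.restrict K) := hmul m _ hm hmb hg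
  set X : ℝ := ∫ z in K, m z ^ 2 * ‖A z‖ ^ 2 with hX
  have hX0 : 0 ≤ X := integral_nonneg fun z => by positivity
  have h1 := hw _ hφ
  have e1 : ∫ z in K, A z * ((m z : ℂ) * g z) = ((X : ℝ) : ℂ) := by
    rw [hX, ← integral_complex_ofReal]
    refine integral_congr_ae (Eventually.of_forall fun z => ?_)
    simp only [hgdef]
    push_cast
    rw [← Complex.mul_conj']
    ring
  rw [e1] at h1
  have h1' : Tendsto (fun n => ‖∫ z in K, An n z * ((m z : ℂ) * g z)‖) atTop (𝓝 X) := by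
    have := h1.norm
    rwa [Complex.norm_real, Real.norm_eq_abs, abs_of_nonneg hX0] at this
  -- the error term
  have hdiff : ∀ n, ∀ᵐ z ∂(volume.restrict K), |m z - mn n z| ≤ 2 * C := fun n => by
    filter_upwards [hmb, hnb n] with z h1 h2
    calc |m z - mn n z| ≤ |m z| + |mn n z| := abs_sub _ _
      _ ≤ 2 * C := by linarith
  have hd0 : ∀ᵐ z ∂(volume.restrict K), Tendsto (fun n => m z - mn n z) atTop (𝓝 0) := by
    filter_upwards [hlim] with z hz
    simpa using (tendsto_const_nhds (x := m z)).sub hz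
  have hdm : ∀ n, MemLp (fun z => ((m z - mn n z : ℝ) : ℂ) * g z) 2 (volume.restrict K) := by
    intro n
    have a := hφ.sub (hmul (mn n) g (hmn n) (hnb n) hg)
    refine a.ae_eq (Eventually.of_forall fun z => ?_)
    simp only [Pi.sub_apply]
    push_cast; ring
  have h2 : Tendsto (fun n => ‖∫ z in K, An n z * (((m z - mn n z : ℝ) : ℂ) * g z)‖) atTop (𝓝 0) := by
    have hdc := alsc_dc (volume.restrict K) (fun n z => m z - mn n z) g (2 * C) hg
      (fun n => (hm.sub (hmn n)).aestronglyMeasurable) hdiff hd0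
    have hdc' : Tendsto (fun n => ENNReal.ofReal M *
        eLpNorm (fun z => ((m z - mn n z : ℝ) : ℂ) * g z) 2 (volume.restrict K)) atTop (𝓝 0) := by
      have := ENNReal.Tendsto.const_mul (a := ENNReal.ofReal M) hdc (Or.inr ENNReal.ofReal_ne_top)
      simpa using this
    rw [← tendsto_zero_iff_norm_tendsto_zero]
    rw [tendsto_zero_iff_enorm_tendsto_zero]
    refine tendsto_of_tendsto_of_tendsto_of_le_of_le' tendsto_const_nhds hdc'
      (Eventually.of_forall fun n => bot_le) ?_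
    filter_upwards [hM] with n hn
    refine (alsc_csq _ _ _ (hAn n) (hdm n)).trans ?_
    gcongr
  -- the main term
  have h3 : ∀ᶠ n in atTop, ‖∫ z in K, An n z * (((mn n z : ℝ) : ℂ) * g z)‖ ≤ Real.sqrt E * Real.sqrt X := by
    filter_upwards [hE] with n hn
    have hf1 : MemLp (fun z => (mn n z : ℂ) * An n z) 2 (volume.restrict K) := hmul _ _ (hmn n) (hnb n) (hAn n)
    have hh := integral_mul_norm_le_Lp_mul_Lq (μ := volume.restrict K) Real.HolderConjugate.two_two
      (f := fun z => (mn n z : ℂ) * An n z) (g := g) (by simpa using hf1) (by simpa using hg)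
    have i1 : ∫ z in K, ‖(mn n z : ℂ) * An n z‖ ^ (2:ℝ) = ∫ z in K, mn n z ^ 2 * ‖An n z‖ ^ 2 := by
      refine integral_congr_ae (Eventually.of_forall fun z => ?_)
      simp only [Real.rpow_two]
      rw [norm_mul, Complex.norm_real, Real.norm_eq_abs, mul_pow, sq_abs]
    have i2 : ∫ z in K, ‖g z‖ ^ (2:ℝ) = X := by
      rw [hX]
      refine integral_congr_ae (Eventually.of_forall fun z => ?_)
      simp only [Real.rpow_two, hgdef]
      rw [norm_mul, Complex.norm_real, Real.norm_eq_abs, mul_pow, sq_abs, RCLike.norm_conj]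
    rw [i1, i2, ← Real.sqrt_eq_rpow, ← Real.sqrt_eq_rpow] at hh
    calc ‖∫ z in K, An n z * (((mn n z : ℝ) : ℂ) * g z)‖
        ≤ ∫ z in K, ‖An n z * (((mn n z : ℝ) : ℂ) * g z)‖ := norm_integral_le_integral_norm _
      _ = ∫ z in K, ‖(mn n z : ℂ) * An n z‖ * ‖g z‖ := by
          refine integral_congr_ae (Eventually.of_forall fun z => ?_)
          simp only [norm_mul]
          ring
      _ ≤ Real.sqrt (∫ z in K, mn n z ^ 2 * ‖An n z‖ ^ 2) * Real.sqrt X := hh
      _ ≤ Real.sqrt E * Real.sqrt X := by gcongr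
  have hfin : X ≤ Real.sqrt E * Real.sqrt X := by
    have h4 : Tendsto (fun n => Real.sqrt E * Real.sqrt X +
        ‖∫ z in K, An n z * (((m z - mn n z : ℝ) : ℂ) * g z)‖) atTop (𝓝 (Real.sqrt E * Real.sqrt X + 0)) :=
      tendsto_const_nhds.add h2
    rw [add_zero] at h4
    refine le_of_tendsto_of_tendsto h1' h4 ?_
    filter_upwards [h3] with n hn
    have e : ∫ z in K, An n z * ((m z : ℂ) * g z) = (∫ z in K, An n z * (((mn n z : ℝ) : ℂ) * g z)) +
        ∫ z in K, An n z * (((m z - mn n z : ℝ) : ℂ) * g z) := by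
      have j1 : Integrable (fun z => An n z * (((mn n z : ℝ) : ℂ) * g z)) (volume.restrict K) :=
        (hAn n).integrable_mul (hmul (mn n) g (hmn n) (hnb n) hg)
      have j2 : Integrable (fun z => An n z * (((m z - mn n z : ℝ) : ℂ) * g z)) (volume.restrict K) :=
        (hAn n).integrable_mul (hdm n)
      rw [← integral_add j1 j2]
      refine integral_congr_ae (Eventually.of_forall fun z => ?_)
      simp only
      push_cast; ring
    rw [e]
    exact (norm_add_le _ _).trans (by gcongr)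
  have hE0 : 0 ≤ E := by
    obtain ⟨n, hn⟩ := hE.exists
    exact le_trans (integral_nonneg fun z => by positivity) hn
  rcases hX0.eq_or_lt with h | h
  · rw [← h]; exact hE0
  · have hs : 0 < Real.sqrt X := Real.sqrt_pos.2 h
    have h5 : Real.sqrt X * Real.sqrt X ≤ Real.sqrt E * Real.sqrt X := by
      rwa [Real.mul_self_sqrt hX0]
    have h6 := le_of_mul_le_mul_right h5 hs
    exact (Real.sqrt_le_sqrt_iff hE0).1 h6

end

end Cal
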