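import Pool.Agent.Lib.MP_4ea4c7_an.StmH1

/-! Piece a1: maximum principle for maps with nonnegative Jacobian. -/

open MeasureTheory Complex Metric Set Filter Topology
open scoped ComplexConjugate ENNReal NNReal

namespace Cal

private lemma amp_d (x : ℝ) : HasDerivAt expNegInvGlue ((x⁻¹) ^ 2 * expNegInvGlue x) x := by
  have h := expNegInvGlue.hasDerivAt_polynomial_eval_inv_mul 1 x
  simpa using h

private lemma amp_cr (A B : ℂ) (t : ℝ) : cr ((t : ℂ) * (conj A + B)) (I * (conj A - B)) = t * (‖A‖ ^ 2 - ‖B‖ ^ 2) := by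
  unfold cr
  rw [← Complex.normSq_eq_norm_sq, ← Complex.normSq_eq_norm_sq, normSq_apply, normSq_apply]
  simp
  ring

private lemma amp_zero (V : Set ℂ) : WD V (fun _ => 0) (fun _ => 0) (fun _ => 0) := by
  constructor
  · intro K _ _
    exact MemLp.zero' 
  · intro K _ _
    exact MemLp.zero' 
  · intro K _ _
    exact MemLp.zero' 
  · intro φ _
    simp
  · intro φ _
    simp

private lemma amp_core (h1 : S_wedge) (h2 : S_chain) (h4 : S_bridge) (h5 : S_basic) (h6 : S_glue)
    (h8 : S_aconst) (z0 : ℂ) (ρ : ℝ) (f A B : ℂ → ℂ) (hf : ContinuousOn f (ball z0 ρ)) (hW : WD (ball z0 ρ) f A B)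
    (hAB : ∀ᵐ z ∂(volume.restrict (ball z0 ρ)), ‖B z‖ ≤ ‖A z‖ ∧ (‖B z‖ = ‖A z‖ → A z = 0))
    (r : ℝ) (hr : 0 < r) (hrρ : r < ρ) : ∀ z ∈ closedBall z0 r, ∃ z' ∈ sphere z0 r, (f z).re ≤ (f z').re := by
  have hsub : closedBall z0 r ⊆ ball z0 ρ := closedBall_subset_ball hrρ
  have hsph : sphere z0 r ⊆ ball z0 ρ := sphere_subset_closedBall.trans hsub
  obtain ⟨z', hz', hmax⟩ := (isCompact_sphere z0 r).exists_isMaxOn (NormedSpace.sphere_nonempty.mpr hr.le)
    (continuous_re.comp_continuousOn (hf.mono hsph))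
  intro z1 hz1
  refine ⟨z', hz', ?_⟩
  by_contra hlt
  push Not at hlt
  set M := (f z').re with hMdef
  set m1 := (M + (f z1).re) / 2 with hm1
  have hMm : M < m1 := by rw [hm1]; linarith
  have hmz : m1 < (f z1).re := by rw [hm1]; linarith
  have hzb : z1 ∈ ball z0 r := by
    rcases (mem_closedBall.mp hz1).lt_or_eq with h | h
    · exact h
    · exact absurd (hmax (mem_sphere.mpr h)) (by simpa using hlt)
  set T : ℝ → ℝ := fun x => expNegInvGlue (x - m1) with hT
  set T' : ℝ → ℝ := fun x => ((x - m1)⁻¹) ^ 2 * expNegInvGlue (x - m1) with hT'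
  have hTs : ContDiff ℝ 1 T := (expNegInvGlue.contDiff (n := 1)).comp (contDiff_id.sub contDiff_const)
  have hTd : ∀ x, HasDerivAt T (T' x) x := fun x => by
    have := (amp_d (x - m1)).comp x ((hasDerivAt_id x).sub_const m1)
    rw [mul_one] at this
    exact this
  have hT0 : ∀ x, x ≤ m1 → T x = 0 ∧ T' x = 0 := fun x hx => by
    have : expNegInvGlue (x - m1) = 0 := expNegInvGlue.zero_of_nonpos (by linarith)
    simp [hT, hT', this]
  have hTp : ∀ x, m1 < x → 0 < T x ∧ 0 < T' x := fun x hx => by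
    have h1 : 0 < expNegInvGlue (x - m1) := expNegInvGlue.pos_of_pos (by linarith)
    have h2 : 0 < (x - m1)⁻¹ := inv_pos.mpr (by linarith)
    exact ⟨h1, by simp only [hT']; positivity⟩
  have hT'n : ∀ x, 0 ≤ T' x := fun x => by
    rcases le_or_gt x m1 with h | h
    · exact (hT0 x h).2.ge
    · exact (hTp x h).2.le
  classical
  set a : ℂ → ℝ := fun z => if z ∈ ball z0 r then T (f z).re else 0 with ha
  set AF : ℂ → ℂ := fun z => if z ∈ ball z0 r then ((T' (f z).re / 2 : ℝ) : ℂ) * (A z + conj (B z)) else 0 with hAF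
  set BF : ℂ → ℂ := fun z => if z ∈ ball z0 r then ((T' (f z).re / 2 : ℝ) : ℂ) * (B z + conj (A z)) else 0 with hBF
  -- the open set where everything vanishes
  set V : Set ℂ := (ball z0 ρ ∩ {z | (f z).re < m1}) ∪ (closedBall z0 r)ᶜ with hV
  have hVo : IsOpen V := by
    refine IsOpen.union ?_ isClosed_closedBall.isOpen_compl
    exact (continuous_re.comp_continuousOn hf).isOpen_inter_preimage isOpen_ball isOpen_Iio
  have hVz : ∀ z ∈ V, a z = 0 ∧ AF z = 0 ∧ BF z = 0 := by
    intro z hz
    by_cases hb : z ∈ ball z0 r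
    · rcases hz with hz | hz
      · have h0 := hT0 (f z).re (le_of_lt hz.2)
        simp only [ha, hAF, hBF, if_pos hb, h0.1, h0.2]
        simp
      · exact absurd (ball_subset_closedBall hb) hz
    · simp only [ha, hAF, hBF, if_neg hb]
      simp
  have hcov : ∀ z, z ∉ ball z0 r → z ∈ V := by
    intro z hz
    by_cases hc : z ∈ closedBall z0 r
    · have hs : z ∈ sphere z0 r := by
        rw [mem_sphere]
        exact le_antisymm (mem_closedBall.mp hc) (not_lt.mp hz)
      left
      refine ⟨hsub hc, lt_of_le_of_lt ?_ hMm⟩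
      exact hmax hs
    · exact Or.inr hc
  have hac : Continuous a := by
    rw [continuous_iff_continuousAt]
    intro z
    by_cases hb : z ∈ ball z0 r
    · have h1 : ContinuousAt (fun z => T (f z).re) z := by
        have := (hf.continuousAt (isOpen_ball.mem_nhds (hsub (ball_subset_closedBall hb))))
        exact (hTs.continuous.continuousAt).comp (continuous_re.continuousAt.comp this)
      refine h1.congr ?_
      filter_upwards [isOpen_ball.mem_nhds hb] with w hw
      simp only [ha, if_pos hw]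
    · refine (continuousAt_const (y := (0 : ℝ))).congr ?_
      filter_upwards [hVo.mem_nhds (hcov z hb)] with w hw
      exact (hVz w hw).1.symm
  have hWball : WD (ball z0 r) (fun z => (a z : ℂ)) AF BF := by
    have hs2 : ball z0 r ⊆ ball z0 ρ := ball_subset_ball hrρ.le
    have hG : ContDiff ℝ 1 (fun w : ℂ => ((T w.re : ℝ) : ℂ)) :=
      ofRealCLM.contDiff.comp (hTs.comp reCLM.contDiff)
    have hc := h2 (ball z0 r) univ f A B (fun w : ℂ => ((T w.re : ℝ) : ℂ)) isOpen_ball isOpen_univ
      (h5.2.2.2.2.1 _ _ _ _ _ hs2 hW) (hf.mono hs2) (mapsTo_univ _ _) hG.contDiffOn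
    have hfd : ∀ w : ℂ, HasFDerivAt (fun w : ℂ => ((T w.re : ℝ) : ℂ)) (ofRealCLM.comp ((T' w.re) • reCLM)) w := by
      intro w
      have h1 : HasFDerivAt (fun w : ℂ => T w.re) ((T' w.re) • reCLM) w :=
        (hTd w.re).comp_hasFDerivAt w reCLM.hasFDerivAt
      exact ofRealCLM.hasFDerivAt.comp w h1
    have hdz : ∀ w : ℂ, dz (fun w : ℂ => ((T w.re : ℝ) : ℂ)) w = ((T' w.re / 2 : ℝ) : ℂ) := by
      intro w
      unfold dz
      rw [(hfd w).fderiv]
      simp
    have hdb : ∀ w : ℂ, db (fun w : ℂ => ((T w.re : ℝ) : ℂ)) w = ((T' w.re / 2 : ℝ) : ℂ) := by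
      intro w
      unfold db
      rw [(hfd w).fderiv]
      simp
    refine h5.2.2.2.1 _ _ _ _ _ _ _ measurableSet_ball hc ?_ ?_ ?_
    · filter_upwards [ae_restrict_mem measurableSet_ball] with z hz
      simp only [ha, if_pos hz]
    · filter_upwards [ae_restrict_mem measurableSet_ball] with z hz
      simp only [hAF, if_pos hz, hdz, hdb]
      ring
    · filter_upwards [ae_restrict_mem measurableSet_ball] with z hz
      simp only [hBF, if_pos hz, hdz, hdb]
      ring
  have hWV : WD V (fun z => (a z : ℂ)) AF BF := by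
    refine h5.2.2.2.1 _ _ _ _ _ _ _ hVo.measurableSet (amp_zero V) ?_ ?_ ?_
    · filter_upwards [ae_restrict_mem hVo.measurableSet] with z hz
      rw [(hVz z hz).1, ofReal_zero]
    · filter_upwards [ae_restrict_mem hVo.measurableSet] with z hz
      rw [(hVz z hz).2.1]
    · filter_upwards [ae_restrict_mem hVo.measurableSet] with z hz
      rw [(hVz z hz).2.2]
  have hWu : WD univ (fun z => (a z : ℂ)) AF BF := by
    refine h6 univ _ _ _ isOpen_univ fun z _ => ?_
    by_cases hb : z ∈ ball z0 r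
    · exact ⟨_, isOpen_ball, hb, subset_univ _, hWball⟩
    · exact ⟨V, hVo, hcov z hb, subset_univ _, hWV⟩
  have hGu := (h4.1 _ _ _ _ hWu).1
  simp only [ofReal_re] at hGu
  have hIm := (h4.1 _ _ _ _ hW).2
  have hts : tsupport a ⊆ closedBall z0 r := by
    refine closure_minimal ?_ isClosed_closedBall
    intro z hz
    by_contra hn
    exact hz (hVz z (Or.inr hn)).1
  obtain ⟨hi, h0, -⟩ := h1 (ball z0 ρ) a (fun z => (f z).im) _ _ isOpen_ball hGu
    (HasCompactSupport.of_support_subset_isCompact (isCompact_closedBall z0 r) ((subset_tsupport a).trans hts))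
    (hts.trans hsub) hIm
  have hcr : ∀ z, cr (conj (AF z) + BF z) (I * (conj (A z) - B z)) =
      if z ∈ ball z0 r then T' (f z).re * (‖A z‖ ^ 2 - ‖B z‖ ^ 2) else 0 := by
    intro z
    by_cases hb : z ∈ ball z0 r
    · simp only [hAF, hBF, if_pos hb]
      rw [← amp_cr]
      congr 1
      rw [map_mul, conj_ofReal, map_add, conj_conj]
      push_cast
      ring
    · simp only [hAF, hBF, if_neg hb]
      simp [cr]
  simp only [hcr] at hi h0
  have hAB' := ae_imp_of_ae_restrict hAB
  have hnn : 0 ≤ᵐ[volume] fun z => if z ∈ ball z0 r then T' (f z).re * (‖A z‖ ^ 2 - ‖B z‖ ^ 2) else 0 := by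
    filter_upwards [hAB'] with z hz
    split_ifs with hb
    · have := (hz (hsub (ball_subset_closedBall hb))).1
      have h2 : ‖B z‖ ^ 2 ≤ ‖A z‖ ^ 2 := pow_le_pow_left₀ (norm_nonneg _) this 2
      exact mul_nonneg (hT'n _) (by linarith)
    · exact le_refl _
  have hae := (integral_eq_zero_iff_of_nonneg_ae hnn hi).mp h0
  have hG0 : ∀ᵐ z ∂(volume.restrict (univ : Set ℂ)), conj (AF z) + BF z = 0 := by
    rw [Measure.restrict_univ]
    filter_upwards [hae, hAB'] with z hz hz'
    by_cases hb : z ∈ ball z0 r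
    · have hz2 := hz' (hsub (ball_subset_closedBall hb))
      simp only [if_pos hb, Pi.zero_apply] at hz
      rcases mul_eq_zero.mp hz with h | h
      · simp only [hAF, hBF, if_pos hb, h]
        simp
      · have h3 : ‖B z‖ = ‖A z‖ := by
          have : ‖B z‖ ^ 2 = ‖A z‖ ^ 2 := by linarith
          exact (pow_left_inj₀ (norm_nonneg _) (norm_nonneg _) two_ne_zero).mp this
        have hA0 := hz2.2 h3
        have hB0 : B z = 0 := by rw [← norm_eq_zero, h3, hA0, norm_zero]
        simp only [hAF, hBF, if_pos hb, hA0, hB0]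
        simp
    · simp only [hAF, hBF, if_neg hb]
      simp
  have hconst := (h8 univ a _ isOpen_univ isPreconnected_univ hGu hG0).2 hac.continuousOn z1 (mem_univ _)
    (z0 + (r : ℂ)) (mem_univ _)
  have hl : 0 < a z1 := by
    simp only [ha, if_pos hzb]
    exact (hTp _ hmz).1
  have hrr : a (z0 + (r : ℂ)) = 0 := by
    have : z0 + (r : ℂ) ∉ ball z0 r := by
      rw [mem_ball, dist_eq_norm]
      simp [abs_of_pos hr]
    simp only [ha, if_neg this]
  rw [hconst, hrr] at hl
  exact lt_irrefl _ hl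

theorem piece_amp (h1 : S_wedge) (h2 : S_chain) (_h3 : S_smooth) (h4 : S_bridge) (h5 : S_basic) (h6 : S_glue)
    (_h7 : S_wuniq) (h8 : S_aconst) : S_amp := by
  intro z0 ρ f A B hf hW hAB r hr hrρ c hc
  have hcn : ‖c‖ = 1 := by
    rcases hc with rfl | rfl | rfl | rfl <;> simp
  refine amp_core h1 h2 h4 h5 h6 h8 z0 ρ (fun z => c * f z) (fun z => c * A z) (fun z => c * B z)
    (continuousOn_const.mul hf) (h5.2.1 _ _ _ _ c hW) ?_ r hr hrρ
  filter_upwards [hAB] with z hz
  simp only [norm_mul, hcn, one_mul]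
  exact ⟨hz.1, fun h => by rw [hz.2 h, mul_zero]⟩

end Cal
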