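import Pool.Agent.Lib.MP_4ea4c7_an.StmH1

/-!
# Piece apl: stream functions on the whole plane
-/

open MeasureTheory Complex Metric Set Filter Topology
open scoped ComplexConjugate ENNReal NNReal

namespace Cal

noncomputable section

theorem apl_mono {U V : Set ℂ} (hVU : V ⊆ U) {u : ℂ → ℝ} {G : ℂ → ℂ} (h : WG U u G) : WG V u G := by
  refine ⟨fun K hK hKV => h.u2 K hK (hKV.trans hVU), fun K hK hKV => h.G2 K hK (hKV.trans hVU), ?_⟩
  intro φ hφ
  exact h.h φ ⟨hφ.1, hφ.2.1, hφ.2.2.trans hVU⟩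

theorem apl_sub (h3 : S_bridge) (h4 : S_basic) {U : Set ℂ} {u v : ℂ → ℝ} {G H : ℂ → ℂ}
    (hu : WG U u G) (hv : WG U v H) : WG U (fun z => u z - v z) (fun z => G z - H z) := by
  have h1 := h3.2.1 U u G hu
  have h2 := h4.2.1 U _ _ _ (-1) (h3.2.1 U v H hv)
  have h5 := (h3.1 U _ _ _ (h4.1 U _ _ _ _ _ _ h1 h2)).1
  have e1 : (fun z => ((u z : ℂ) + (-1) * (v z : ℂ)).re) = fun z => u z - v z := by
    funext z
    simp [sub_eq_add_neg]
  have e2 : (fun z => conj (conj (G z) / 2 + (-1) * (conj (H z) / 2)) + (G z / 2 + (-1) * (H z / 2))) =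
      fun z => G z - H z := by
    funext z
    rw [map_add, map_mul, map_div₀, map_div₀, Complex.conj_conj, Complex.conj_conj, map_neg, map_one,
      Complex.conj_ofNat]
    ring
  rw [e1, e2] at h5
  exact h5

theorem apl_const (h3 : S_bridge) {U : Set ℂ} (hU : IsOpen U) (c : ℝ) :
    WG U (fun _ => c) (fun _ => 0) := by
  have h := h3.2.2.1 U (fun _ => c) hU contDiffOn_const
  have e : gr (fun _ : ℂ => c) = fun _ => 0 := by
    funext z
    simp [gr]
  rwa [e] at h

theorem piece_apl (h1 : S_aconj) (h2 : S_aconst) (h3 : S_bridge) (h4 : S_basic) : S_apl := by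
  intro X hX hdiv
  have hsn : ∀ n : ℕ, ∃ s : ℂ → ℝ, Measurable s ∧ WG (ball 0 ((n : ℝ) + 1)) s (fun z => I * X z) := by
    intro n
    refine h1 0 ((n : ℝ) + 1) X (by positivity) (fun K hK _ => hX K hK (subset_univ _)) ?_
    intro φ hφ
    exact hdiv φ ⟨hφ.1, hφ.2.1, subset_univ _⟩
  choose s hsm hsw using hsn
  have hball : ∀ n : ℕ, ball (0 : ℂ) ((n : ℝ) + 1) ⊆ ball 0 (((n + 1 : ℕ) : ℝ) + 1) := by
    intro n
    apply ball_subset_ball
    push_cast
    linarith
  have hd : ∀ n : ℕ, ∃ d : ℝ, ∀ᵐ z ∂(volume.restrict (ball (0 : ℂ) ((n : ℝ) + 1))),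
      s (n + 1) z - s n z = d := by
    intro n
    have h5 := apl_sub h3 h4 (apl_mono (hball n) (hsw (n + 1))) (hsw n)
    exact (h2 _ _ _ isOpen_ball (convex_ball _ _).isPreconnected h5
      (Filter.Eventually.of_forall (fun z => sub_self _))).1
  choose d hd2 using hd
  set c : ℕ → ℝ := fun n => ∑ i ∈ Finset.range n, d i with hc
  set t : ℕ → ℂ → ℝ := fun n z => s n z - c n with ht
  have htm : ∀ n, Measurable (t n) := fun n => (hsm n).sub_const _
  have htw : ∀ n : ℕ, WG (ball (0 : ℂ) ((n : ℝ) + 1)) (t n) (fun z => I * X z) := by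
    intro n
    have h5 := apl_sub h3 h4 (hsw n) (apl_const h3 isOpen_ball (c n))
    have e : (fun z => I * X z - 0) = fun z => I * X z := by
      funext z; rw [sub_zero]
    rw [e] at h5
    exact h5
  have hstep : ∀ n : ℕ, ∀ᵐ z ∂(volume.restrict (ball (0 : ℂ) ((n : ℝ) + 1))), t (n + 1) z = t n z := by
    intro n
    filter_upwards [hd2 n] with z hz
    have e : c (n + 1) = c n + d n := by rw [hc]; exact Finset.sum_range_succ _ _
    show s (n + 1) z - c (n + 1) = s n z - c n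
    rw [e]
    linarith
  have hmn : ∀ m k : ℕ, ∀ᵐ z ∂(volume.restrict (ball (0 : ℂ) ((m : ℝ) + 1))), t (m + k) z = t m z := by
    intro m k
    induction k with
    | zero => exact Filter.Eventually.of_forall (fun z => rfl)
    | succ k ih =>
      have h6 : ball (0 : ℂ) ((m : ℝ) + 1) ⊆ ball 0 (((m + k : ℕ) : ℝ) + 1) := by
        apply ball_subset_ball
        push_cast
        have : (0 : ℝ) ≤ k := Nat.cast_nonneg k
        linarith
      have h7 := ae_mono (Measure.restrict_mono h6 le_rfl) (hstep (m + k))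
      filter_upwards [ih, h7] with z hz1 hz2
      rw [← add_assoc, hz2, hz1]
  set S : ℂ → ℝ := fun z => t ⌊‖z‖⌋₊ z with hS
  have hSm : Measurable S := by
    have h8 : Measurable (fun p : ℕ × ℂ => t p.1 p.2) := measurable_from_prod_countable_right htm
    exact h8.comp ((Nat.measurable_floor.comp measurable_norm).prodMk measurable_id)
  have hSt : ∀ n : ℕ, ∀ᵐ z ∂(volume.restrict (ball (0 : ℂ) ((n : ℝ) + 1))), S z = t n z := by
    intro n
    have h9 : ∀ m : ℕ, ∀ᵐ z ∂(volume : Measure ℂ), ∀ k : ℕ, z ∈ ball (0 : ℂ) ((m : ℝ) + 1) →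
        t (m + k) z = t m z := by
      intro m
      rw [ae_all_iff]
      intro k
      exact (ae_restrict_iff' measurableSet_ball).1 (hmn m k)
    rw [ae_restrict_iff' measurableSet_ball]
    filter_upwards [ae_all_iff.2 h9] with z hz hzn
    have h10 : ‖z‖ < (n : ℝ) + 1 := by simpa [mem_ball, dist_eq_norm] using hzn
    have h11 : ⌊‖z‖⌋₊ ≤ n := by
      have h12 : ⌊‖z‖⌋₊ < n + 1 := (Nat.floor_lt (norm_nonneg z)).2 (by push_cast; exact h10)
      omega
    obtain ⟨k, hk⟩ := Nat.exists_eq_add_of_le h11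
    have h13 : z ∈ ball (0 : ℂ) ((⌊‖z‖⌋₊ : ℝ) + 1) := by
      rw [mem_ball, dist_eq_norm, sub_zero]
      exact Nat.lt_floor_add_one _
    have h14 := hz ⌊‖z‖⌋₊ k h13
    show t ⌊‖z‖⌋₊ z = t n z
    rw [← h14, ← hk]
  have hcomp : ∀ K : Set ℂ, IsCompact K → ∃ n : ℕ, K ⊆ ball (0 : ℂ) ((n : ℝ) + 1) := by
    intro K hK
    obtain ⟨R, hR⟩ := hK.isBounded.subset_ball (0 : ℂ)
    obtain ⟨n, hn⟩ := exists_nat_gt R
    exact ⟨n, hR.trans (ball_subset_ball (by linarith))⟩
  refine ⟨S, hSm, ?_, ?_, ?_⟩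
  · intro K hK _
    obtain ⟨n, hn⟩ := hcomp K hK
    refine ((htw n).u2 K hK hn).ae_eq ?_
    have h15 := ae_mono (Measure.restrict_mono hn le_rfl) (hSt n)
    filter_upwards [h15] with z hz
    rw [hz]
  · intro K hK _
    obtain ⟨n, hn⟩ := hcomp K hK
    exact (htw n).G2 K hK hn
  · intro φ hφ
    obtain ⟨n, hn⟩ := hcomp (tsupport φ) hφ.2.1
    rw [← (htw n).h φ ⟨hφ.1, hφ.2.1, hn⟩]
    refine integral_congr_ae ?_
    have h16 := (ae_restrict_iff' measurableSet_ball).1 (hSt n)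
    filter_upwards [h16] with z hz
    by_cases hzn : z ∈ ball (0 : ℂ) ((n : ℝ) + 1)
    · simp only [hz hzn]
    · have h17 : z ∉ tsupport φ := fun h => hzn (hn h)
      have h18 : fderiv ℝ φ z = 0 := by
        by_contra hne
        exact h17 (support_fderiv_subset ℝ hne)
      have h19 : gr φ z = 0 := by
        unfold gr
        rw [h18]
        simp
      simp only [h19, mul_zero]

end

end Cal
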