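import Pool.Agent.Lib.MP_4ea4c7_an.StmH1

open MeasureTheory Complex Metric Set Filter Topology
open scoped ComplexConjugate ENNReal NNReal

namespace Cal

noncomputable section

private theorem areg_patch (U : Set ℂ) (F : ℂ → ℂ) (hU : IsOpen U)
    (h : ∀ z ∈ U, ∃ r : ℝ, 0 < r ∧ ball z r ⊆ U ∧ ∃ g : ℂ → ℂ, ContinuousOn g (ball z r) ∧
      ∀ᵐ w ∂(volume.restrict (ball z r)), g w = F w) :
    ∃ F' : ℂ → ℂ, ContinuousOn F' U ∧ ∀ᵐ z ∂(volume.restrict U), F' z = F z := by
  classical
  choose! r hr hrU g hg hgF using h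
  have key : ∀ z ∈ U, ∀ w ∈ ball z (r z), g w w = g z w := by
    intro z hz w hw
    have hwU : w ∈ U := hrU z hz hw
    have hopen : IsOpen (ball w (r w) ∩ ball z (r z)) := isOpen_ball.inter isOpen_ball
    have h1 : ∀ᵐ x ∂(volume.restrict (ball w (r w) ∩ ball z (r z))), g w x = F x :=
      ae_restrict_of_ae_restrict_of_subset inter_subset_left (hgF w hwU)
    have h2 : ∀ᵐ x ∂(volume.restrict (ball w (r w) ∩ ball z (r z))), g z x = F x :=
      ae_restrict_of_ae_restrict_of_subset inter_subset_right (hgF z hz)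
    have h3 : g w =ᵐ[volume.restrict (ball w (r w) ∩ ball z (r z))] g z := by
      filter_upwards [h1, h2] with x hx1 hx2
      rw [hx1, hx2]
    exact Measure.eqOn_open_of_ae_eq h3 hopen ((hg w hwU).mono inter_subset_left)
      ((hg z hz).mono inter_subset_right) ⟨mem_ball_self (hr w hwU), hw⟩
  refine ⟨fun z => g z z, ?_, ?_⟩
  · intro z hz
    apply ContinuousAt.continuousWithinAt
    have hc : ContinuousAt (g z) z := (hg z hz).continuousAt (ball_mem_nhds z (hr z hz))
    apply hc.congr
    filter_upwards [ball_mem_nhds z (hr z hz)] with w hw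
    exact (key z hz w hw).symm
  · rw [ae_restrict_iff' hU.measurableSet, ae_iff]
    apply measure_null_of_locally_null
    intro z hz
    have hzU : z ∈ U := by
      by_contra hcon
      exact hz (fun hh => absurd hh hcon)
    refine ⟨{a | ¬(a ∈ U → g a a = F a)} ∩ ball z (r z),
      inter_mem self_mem_nhdsWithin (mem_nhdsWithin_of_mem_nhds (ball_mem_nhds z (hr z hzU))), ?_⟩
    have h1 := hgF z hzU
    rw [ae_restrict_iff' measurableSet_ball, ae_iff] at h1
    refine measure_mono_null ?_ h1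
    rintro a ⟨ha1, ha2⟩ hcon
    apply ha1
    intro haU
    rw [key z hzU a ha2]
    exact hcon ha2

theorem piece_areg (h1 : S_basic) (h2 : S_weyl) (h3 : S_aregb) : S_areg := by
  intro U μ F A B hU hμ hK h0 hWD hB
  apply areg_patch U F hU
  intro z hz
  obtain ⟨-, -, -, -, hsub, -⟩ := h1
  rcases le_or_gt ‖z‖ (3 / 4) with hz34 | hz34
  · obtain ⟨ε, hε, hεU⟩ := Metric.isOpen_iff.mp hU z hz
    set ρ := min (ε / 2) (1 / 4) with hρ
    have hρ0 : 0 < ρ := by rw [hρ]; positivity
    have hcl : closedBall z ρ ⊆ U := by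
      refine (closedBall_subset_ball ?_).trans hεU
      exact lt_of_le_of_lt (min_le_left _ _) (by linarith)
    have hbU : ball z ρ ⊆ U := ball_subset_closedBall.trans hcl
    obtain ⟨q, hq1, hq⟩ := hK (closedBall z ρ) (isCompact_closedBall z ρ) hcl
    have hb1 : ball z ρ ⊆ ball 0 1 := by
      intro w hw
      rw [mem_ball, dist_eq_norm] at hw
      rw [mem_ball_zero_iff]
      have : ‖w‖ ≤ ‖w - z‖ + ‖z‖ := by
        calc ‖w‖ = ‖(w - z) + z‖ := by ring_nf
          _ ≤ _ := norm_add_le _ _
      have h4 : ρ ≤ 1 / 4 := min_le_right _ _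
      linarith
    obtain ⟨F', hF', hF'e⟩ := h3 z ρ q μ F A B hρ0 hb1 hμ hq1
      (fun w hw => hq w (ball_subset_closedBall hw)) (hsub U (ball z ρ) F A B hbU hWD)
      (ae_restrict_of_ae_restrict_of_subset hbU hB)
    exact ⟨ρ / 2, by positivity, (ball_subset_ball (by linarith)).trans hbU, F', hF', hF'e⟩
  · have hopen : IsOpen (U ∩ {w : ℂ | 3 / 4 < ‖w‖}) :=
      hU.inter (isOpen_lt continuous_const continuous_norm)
    obtain ⟨r, hr, hrU⟩ := Metric.isOpen_iff.mp hopen z ⟨hz, hz34⟩
    have hbU : ball z r ⊆ U := fun w hw => (hrU hw).1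
    have hB0 : ∀ᵐ w ∂(volume.restrict (ball z r)), B w = 0 := by
      have h5 := ae_restrict_of_ae_restrict_of_subset hbU hB
      filter_upwards [h5, ae_restrict_mem measurableSet_ball] with w hw hwb
      rw [hw, h0 w (hrU hwb).2]
      simp
    have hW := hsub U (ball z r) F A B hbU hWD
    have h6 : ∀ φ, TF (ball z r) φ → ∫ w, F w * db φ w = 0 := by
      intro φ hφ
      rw [hW.hB φ hφ]
      have h7 : ∫ w, B w * φ w = 0 := by
        apply integral_eq_zero_of_ae
        rw [ae_restrict_iff' measurableSet_ball] at hB0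
        filter_upwards [hB0] with w hw
        by_cases hwb : w ∈ ball z r
        · simp [hw hwb]
        · have : φ w = 0 := by
            by_contra hne
            exact hwb (hφ.2.2 (subset_tsupport _ hne))
          simp [this]
      rw [h7, neg_zero]
    obtain ⟨⟨g, hg, hgF⟩, -⟩ := h2 (ball z r) F isOpen_ball hW.f2 h6
    refine ⟨r, hr, hbU, g, hg.continuousOn, ?_⟩
    filter_upwards [hgF] with w hw
    exact hw.symm

end

end Cal
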