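import Pool.Agent.Lib.MP_4ea4c7_an.StmH1

/-!
Piece [CH a6]: regularity for smooth coefficients (no symmetry, `S ∈ L⁴`).
-/

open MeasureTheory Complex Metric Set Filter Topology
open scoped ComplexConjugate ENNReal NNReal

namespace Cal

noncomputable section

private theorem arg_memLp_of_restrict {q : ℝ≥0∞} {s : ℂ → ℂ}
    (h : MemLp s q (volume.restrict (closedBall (0 : ℂ) (5 / 4))))
    (h0 : ∀ z, 5 / 4 < ‖z‖ → s z = 0) : MemLp s q volume := by
  have e : (closedBall (0 : ℂ) (5 / 4)).indicator s = s := by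
    funext z
    by_cases hz : z ∈ closedBall (0 : ℂ) (5 / 4)
    · rw [indicator_of_mem hz]
    · rw [indicator_of_notMem hz, h0 z]
      rw [mem_closedBall, dist_zero_right, not_le] at hz
      exact hz
  rw [← e, memLp_indicator_iff_restrict isClosed_closedBall.measurableSet]
  exact h

private theorem arg_pv_diff (p : Polynomial ℝ) : Differentiable ℂ (pv p) := by
  unfold pv
  exact p.differentiable_aeval

private theorem arg_db_zero {μ : ℂ → ℝ} (h0 : ∀ z, 5 / 4 < ‖z‖ → μ z = 0) (z : ℂ) (hz : 5 / 4 < ‖z‖) :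
    db (fun w => ((μ w : ℝ) : ℂ)) z = 0 := by
  have h1 : (fun w => ((μ w : ℝ) : ℂ)) =ᶠ[𝓝 z] fun _ => 0 := by
    have h2 : {w : ℂ | 5 / 4 < ‖w‖} ∈ 𝓝 z := (isOpen_lt continuous_const continuous_norm).mem_nhds hz
    filter_upwards [h2] with w hw
    rw [h0 w hw]
    simp
  unfold db
  rw [h1.fderiv_eq]
  simp

private theorem arg_gen (h1 : S_basic) (h2 : S_smooth) (h4 : S_uniq) (h5 : S_C3a) (h6 : S_C3b)
    (h7 : S_C5) (κ : ℝ) (hκ0 : 0 ≤ κ) (hκ1 : κ < 1) (μ : ℂ → ℝ) (hmu : NMu κ (5 / 4) μ)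
    (hsm : ContDiff ℝ (⊤ : ℕ∞) μ) (S : ℂ → ℂ) (hS : W2 S) (hS4 : MemLp S 4 volume)
    (p : Polynomial ℝ) (w A : ℂ → ℂ) (hw : W2 w)
    (hWD : WD univ (fun z => pv p z + Ct w z) A w)
    (hw2 : ∀ᵐ z, w z = (μ z : ℂ) * conj (A z) + S z) :
    ∃ f : ℂ → ℂ, Continuous f ∧ ∀ᵐ z, f z = pv p z + Ct w z := by
  obtain ⟨b1, b2, b3, b4, -, -⟩ := h1
  obtain ⟨-, sm2, sm3⟩ := h2
  obtain ⟨C, hC0, hC1, -, -, -⟩ := h5
  obtain ⟨f0, hf0⟩ : ∃ f0 : ℂ → ℂ, f0 = fun z => pv p z + Ct w z := ⟨_, rfl⟩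
  obtain ⟨g, hg⟩ : ∃ g : ℂ → ℂ, g = fun z => ((μ z : ℝ) : ℂ) := ⟨_, rfl⟩
  have hgz : ∀ z, g z = ((μ z : ℝ) : ℂ) := fun z => by rw [hg]
  rw [← hf0] at hWD
  have hgs : ContDiff ℝ (⊤ : ℕ∞) g := by
    rw [hg]
    exact Complex.ofRealCLM.contDiff.comp hsm
  have hg1 : ContDiff ℝ 1 g := hgs.of_le (by exact_mod_cast le_top)
  have hgc : Continuous g := hgs.continuous
  have hdbc : Continuous (db g) := by
    have h := hg1.continuous_fderiv (by norm_num)
    unfold db
    fun_prop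
  have hdb0 : ∀ z, 5 / 4 < ‖z‖ → db g z = 0 := by
    intro z hz
    rw [hg]
    exact arg_db_zero hmu.supp z hz
  obtain ⟨s, hs⟩ : ∃ s : ℂ → ℂ, s = fun z => if 5 / 4 < ‖z‖ then 0 else S z - conj (f0 z) * db g z :=
    ⟨_, rfl⟩
  have hsz : ∀ z, s z = S z - conj (f0 z) * db g z := by
    intro z
    rw [hs]
    dsimp only
    split_ifs with hz
    · rw [hS.2 z hz, hdb0 z hz]
      ring
    · rfl
  have hs0 : ∀ z, 5 / 4 < ‖z‖ → s z = 0 := by
    intro z hz
    rw [hs]
    dsimp only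
    rw [if_pos hz]
  have hK : IsCompact (closedBall (0 : ℂ) (5 / 4)) := isCompact_closedBall _ _
  have hfin : IsFiniteMeasure (volume.restrict (closedBall (0 : ℂ) (5 / 4))) :=
    isFiniteMeasure_restrict.2 hK.measure_lt_top.ne
  -- the derivatives
  have w1 := b3 univ f0 A w hWD
  have w2 := sm3 univ _ _ _ g isOpen_univ w1 hgs.contDiffOn
  have w3 := b2 univ _ _ _ (-1) w2
  have w4 := b1 univ _ _ _ _ _ _ hWD w3
  -- the coefficient of the second derivative
  have hsF : ∀ᵐ z, w z + -1 * (conj (A z) * g z + conj (f0 z) * db g z) = s z := by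
    filter_upwards [hw2] with z hz
    rw [hsz z, hz, hgz z]
    ring
  have w4' : WD univ (fun z => f0 z + -1 * (conj (f0 z) * g z))
      (fun z => A z + -1 * (conj (w z) * g z + conj (f0 z) * dz g z)) s := by
    refine b4 univ _ _ _ _ _ _ MeasurableSet.univ w4 Filter.EventuallyEq.rfl
      Filter.EventuallyEq.rfl ?_
    rw [Measure.restrict_univ]
    exact hsF
  have hsL2 : MemLp s 2 volume := arg_memLp_of_restrict (w4'.B2 _ hK (subset_univ _)) hs0
  have hsW2 : W2 s := ⟨hsL2, hs0⟩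
  obtain ⟨As, -, w5, -⟩ := h6 s hsW2
  have w6 := b2 univ _ _ _ (-1) w5
  have w7 := sm2 univ (pv p) isOpen_univ (arg_pv_diff p).differentiableOn
  have w8 := b2 univ _ _ _ (-1) w7
  have w9 := b1 univ _ _ _ _ _ _ (b1 univ _ _ _ _ _ _ w4' w8) w6
  have w10 : WD univ (fun z => (f0 z + -1 * (conj (f0 z) * g z)) + -1 * pv p z + -1 * Ct s z)
      (fun z => (A z + -1 * (conj (w z) * g z + conj (f0 z) * dz g z)) + -1 * deriv (pv p) z +
        -1 * As z) (fun _ => 0) := by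
    refine b4 univ _ _ _ _ _ _ MeasurableSet.univ w9 Filter.EventuallyEq.rfl
      Filter.EventuallyEq.rfl ?_
    refine Filter.Eventually.of_forall fun z => ?_
    show s z + -1 * 0 + -1 * s z = 0
    ring
  have hdec : Dec (fun z => (f0 z + -1 * (conj (f0 z) * g z)) + -1 * pv p z + -1 * Ct s z) := by
    refine ⟨C * (eLpNorm w 2 volume).toReal + C * (eLpNorm s 2 volume).toReal, fun z hz => ?_⟩
    have hz2 : 5 / 4 < ‖z‖ := by linarith
    have e : (f0 z + -1 * (conj (f0 z) * g z)) + -1 * pv p z + -1 * Ct s z = Ct w z - Ct s z := by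
      rw [hgz z, hmu.supp z hz2, hf0]
      push_cast
      ring
    have n1 := (hC1 w hw).1 z (by linarith)
    have n2 := (hC1 s hsW2).1 z (by linarith)
    dsimp only
    rw [e, add_div]
    exact (norm_sub_le _ _).trans (add_le_add n1 n2)
  have hh := (h4 _ _ _ w10 (Filter.Eventually.of_forall fun z _ => rfl) hdec).1
  have hCt0 : ∀ z, Ct (fun z => if 5 / 4 < ‖z‖ then (0 : ℂ) else 0) z = 0 := by
    intro z
    unfold Ct
    simp
  -- the continuous candidate
  obtain ⟨Fc, hFc⟩ : ∃ Fc : ℂ → ℂ, Fc = fun z => pv p z + Ct s z := ⟨_, rfl⟩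
  have hFF : ∀ᵐ z, f0 z - g z * conj (f0 z) = Fc z := by
    filter_upwards [hh] with z hz
    rw [hCt0 z] at hz
    rw [hFc]
    dsimp only
    linear_combination hz
  have hμ1 : ∀ z, (1 : ℝ) - κ ^ 2 ≤ 1 - μ z ^ 2 := by
    intro z
    have h := hmu.bd z
    have h' := pow_le_pow_left₀ (abs_nonneg _) h 2
    rw [sq_abs] at h'
    linarith
  have hκ2 : 0 < 1 - κ ^ 2 := by nlinarith
  have hne : ∀ z, (1 : ℂ) - g z ^ 2 ≠ 0 := by
    intro z h
    have h3 : ((1 - μ z ^ 2 : ℝ) : ℂ) = 0 := by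
      rw [hgz z] at h
      push_cast
      exact h
    have h4 : (1 - μ z ^ 2 : ℝ) = 0 := by exact_mod_cast h3
    have := hμ1 z
    linarith
  obtain ⟨f, hf⟩ : ∃ f : ℂ → ℂ, f = fun z => (Fc z + g z * conj (Fc z)) / (1 - g z ^ 2) := ⟨_, rfl⟩
  have hcg : ∀ z, conj (g z) = g z := by
    intro z
    rw [hgz z, Complex.conj_ofReal]
  have hff : ∀ᵐ z, f z = f0 z := by
    filter_upwards [hFF] with z hz
    rw [hf]
    dsimp only
    rw [← hz, map_sub, map_mul, hcg, Complex.conj_conj, div_eq_iff (hne z)]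
    ring
  -- L4
  have hpvK : MemLp (pv p) 4 (volume.restrict (closedBall (0 : ℂ) (5 / 4))) := by
    obtain ⟨c, hc⟩ := hK.exists_bound_of_continuousOn (arg_pv_diff p).continuous.continuousOn
    refine MemLp.of_bound (arg_pv_diff p).continuous.aestronglyMeasurable c ?_
    filter_upwards [ae_restrict_mem isClosed_closedBall.measurableSet] with z hz
    exact hc z hz
  have hCtK : MemLp (Ct s) 4 (volume.restrict (closedBall (0 : ℂ) (5 / 4))) := by
    refine (h7.1 s hsW2).mono_measure (Measure.restrict_mono ?_ le_rfl)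
    exact closedBall_subset_closedBall (by norm_num)
  have hFcK : MemLp Fc 4 (volume.restrict (closedBall (0 : ℂ) (5 / 4))) := by
    rw [hFc]
    exact hpvK.add hCtK
  have hf0K : MemLp f0 4 (volume.restrict (closedBall (0 : ℂ) (5 / 4))) := by
    have hm : AEStronglyMeasurable f0 (volume.restrict (closedBall (0 : ℂ) (5 / 4))) :=
      (hWD.f2 _ hK (subset_univ _)).aestronglyMeasurable
    refine MemLp.of_le_mul (c := (1 + κ) / (1 - κ ^ 2)) hFcK hm ?_
    refine ae_restrict_of_ae ?_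
    filter_upwards [hff] with z hz
    rw [← hz, hf]
    dsimp only
    rw [norm_div, div_mul_eq_mul_div]
    have n1 : ‖Fc z + g z * conj (Fc z)‖ ≤ (1 + κ) * ‖Fc z‖ := by
      have h8 : ‖g z‖ ≤ κ := by
        rw [hgz z, Complex.norm_real]
        exact hmu.bd z
      calc ‖Fc z + g z * conj (Fc z)‖ ≤ ‖Fc z‖ + ‖g z * conj (Fc z)‖ := norm_add_le _ _
        _ = ‖Fc z‖ + ‖g z‖ * ‖Fc z‖ := by rw [norm_mul, RCLike.norm_conj]
        _ ≤ ‖Fc z‖ + κ * ‖Fc z‖ := by gcongr
        _ = (1 + κ) * ‖Fc z‖ := by ring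
    have n2 : 1 - κ ^ 2 ≤ ‖(1 : ℂ) - g z ^ 2‖ := by
      have e : (1 : ℂ) - g z ^ 2 = ((1 - μ z ^ 2 : ℝ) : ℂ) := by
        rw [hgz z]
        push_cast
        rfl
      rw [e, Complex.norm_real]
      exact (hμ1 z).trans (le_abs_self _)
    exact div_le_div₀ (by positivity) n1 hκ2 n2
  have hsK : MemLp s 4 (volume.restrict (closedBall (0 : ℂ) (5 / 4))) := by
    have e : s = fun z => S z - conj (f0 z) * db g z := funext hsz
    rw [e]
    refine MemLp.sub ?_ ?_
    · exact hS4.restrict _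
    · obtain ⟨c, hc⟩ := hK.exists_bound_of_continuousOn hdbc.continuousOn
      refine MemLp.of_le_mul (c := c) hf0K ?_ ?_
      · exact (Complex.continuous_conj.comp_aestronglyMeasurable hf0K.aestronglyMeasurable).mul
          hdbc.aestronglyMeasurable
      · filter_upwards [ae_restrict_mem isClosed_closedBall.measurableSet] with z hz
        rw [norm_mul, RCLike.norm_conj, mul_comm]
        exact mul_le_mul_of_nonneg_right (hc z hz) (norm_nonneg _)
  have hs4 : MemLp s 4 volume := arg_memLp_of_restrict hsK hs0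
  have hCtc : Continuous (Ct s) := h7.2 s hs4 hs0
  have hFcc : Continuous Fc := by
    rw [hFc]
    exact (arg_pv_diff p).continuous.add hCtc
  have hfc : Continuous f := by
    rw [hf]
    refine Continuous.div ?_ ?_ hne
    · exact hFcc.add (hgc.mul (Complex.continuous_conj.comp hFcc))
    · exact continuous_const.sub (hgc.pow 2)
  refine ⟨f, hfc, ?_⟩
  filter_upwards [hff] with z hz
  rw [hz, hf0]

theorem piece_areg4 (h1 : S_basic) (h2 : S_smooth) (_h3 : S_prod) (h4 : S_uniq) (h5 : S_C3a)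
    (h6 : S_C3b) (h7 : S_C5) : S_areg4 := by
  intro κ hκ0 hκ1 μ hμ hsm S hS hS4 w A hw hWD hw2
  have p0 : ∀ v : ℂ → ℂ, (fun z => pv (0 : Polynomial ℝ) z + v z) = v := by
    intro v
    funext z
    simp [pv]
  obtain ⟨f, hf, hf2⟩ := arg_gen h1 h2 h4 h5 h6 h7 κ hκ0 hκ1 μ hμ hsm S hS hS4 0 w A hw
    (by rw [p0]; exact hWD) hw2
  refine ⟨f, hf, ?_⟩
  filter_upwards [hf2] with z hz
  rw [hz]
  simp [pv]

end

end Cal
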