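import Pool.Agent.Lib.MP_4ea4c7_an.StmH1
import Pool.Agent.Lib.MP_4ea4c7_an.Stm2

open MeasureTheory Complex Metric Set Filter Topology
open scoped ComplexConjugate ENNReal NNReal

namespace Cal

private theorem arb_fd {χ : ℂ → ℝ} {z : ℂ} (h : DifferentiableAt ℝ χ z) (v : ℂ) :
    fderiv ℝ (fun w => ((χ w : ℝ) : ℂ)) z v = ((fderiv ℝ χ z v : ℝ) : ℂ) := by
  have h1 : HasFDerivAt (fun w => ((χ w : ℝ) : ℂ)) (Complex.ofRealCLM.comp (fderiv ℝ χ z)) z :=
    (Complex.ofRealCLM.hasFDerivAt).comp z h.hasFDerivAt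
  rw [h1.fderiv]
  rfl

private theorem arb_conj {χ : ℂ → ℝ} {z : ℂ} (h : DifferentiableAt ℝ χ z) :
    conj (dz (fun w => ((χ w : ℝ) : ℂ)) z) = db (fun w => ((χ w : ℝ) : ℂ)) z := by
  unfold dz db
  rw [arb_fd h, arb_fd h]
  simp only [map_sub, map_div₀, map_mul, conj_ofReal, conj_I, map_ofNat]
  ring

private lemma arb_zero (χ : ℂ → ℝ) (z : ℂ) (hz : z ∉ tsupport χ) : ((χ z : ℝ) : ℂ) = 0 ∧
    dz (fun w => ((χ w : ℝ) : ℂ)) z = 0 ∧ db (fun w => ((χ w : ℝ) : ℂ)) z = 0 := by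
  have h0 : χ z = 0 := image_eq_zero_of_notMem_tsupport hz
  have hz' : z ∉ tsupport (fun w => ((χ w : ℝ) : ℂ)) := by
    intro h
    apply hz
    refine closure_mono ?_ h
    intro w hw hw'
    apply hw
    show ((χ w : ℝ) : ℂ) = 0
    rw [hw']; simp
  have : fderiv ℝ (fun w => ((χ w : ℝ) : ℂ)) z = 0 := by
    have h := tsupport_fderiv_subset ℝ (f := fun w => ((χ w : ℝ) : ℂ))
    exact image_eq_zero_of_notMem_tsupport (fun h2 => hz' (h h2))
  refine ⟨by rw [h0]; simp, ?_, ?_⟩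
  · unfold dz
    rw [this]
    simp
  · unfold db
    rw [this]
    simp

private lemma arb_prod (hb : S_basic) (hs : S_smooth) (hg : S_glue) {z0 : ℂ} {ρ : ℝ} {F A B : ℂ → ℂ}
    (hW : WD (ball z0 ρ) F A B) {χ : ℂ → ℝ} (hχ : ContDiff ℝ (⊤ : ℕ∞) χ)
    (hsupp : tsupport χ ⊆ ball z0 ρ) :
    WD univ (fun z => F z * (χ z : ℂ))
      (fun z => A z * (χ z : ℂ) + F z * dz (fun w => ((χ w : ℝ) : ℂ)) z)
      (fun z => B z * (χ z : ℂ) + F z * db (fun w => ((χ w : ℝ) : ℂ)) z) := by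
  have hχc : ContDiff ℝ (⊤ : ℕ∞) (fun w => ((χ w : ℝ) : ℂ)) :=
    Complex.ofRealCLM.contDiff.comp hχ
  have h1 := hs.2.2 (ball z0 ρ) F A B (fun w => ((χ w : ℝ) : ℂ)) isOpen_ball hW hχc.contDiffOn
  apply hg univ _ _ _ isOpen_univ
  intro z _
  by_cases hzs : z ∈ ball z0 ρ
  · exact ⟨ball z0 ρ, isOpen_ball, hzs, subset_univ _, h1⟩
  · have ho : IsOpen (tsupport χ)ᶜ := (isClosed_tsupport χ).isOpen_compl
    refine ⟨(tsupport χ)ᶜ, ho, fun h => hzs (hsupp h), subset_univ _, ?_⟩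
    have h0 := hs.2.1 (tsupport χ)ᶜ (fun _ => (0 : ℂ)) ho (differentiableOn_const _)
    refine hb.2.2.2.1 _ _ _ _ _ _ _ ho.measurableSet h0 ?_ ?_ ?_
    · refine ae_restrict_of_forall_mem ho.measurableSet (fun w hw => ?_)
      show (0 : ℂ) = F w * (χ w : ℂ)
      rw [(arb_zero χ w hw).1, mul_zero]
    · refine ae_restrict_of_forall_mem ho.measurableSet (fun w hw => ?_)
      obtain ⟨e1, e2, e3⟩ := arb_zero χ w hw
      show deriv (fun _ => (0 : ℂ)) w = A w * (χ w : ℂ) + F w * dz (fun w => ((χ w : ℝ) : ℂ)) w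
      rw [e1, e2, deriv_const]
      simp
    · refine ae_restrict_of_forall_mem ho.measurableSet (fun w hw => ?_)
      obtain ⟨e1, e2, e3⟩ := arb_zero χ w hw
      show (0 : ℂ) = B w * (χ w : ℂ) + F w * db (fun w => ((χ w : ℝ) : ℂ)) w
      rw [e1, e3]
      simp

private lemma arb_sq {ν : Measure ℂ} {F : ℂ → ℂ} (hF : MemLp F 2 ν) {C : ℝ} (hC : 0 ≤ C)
    (h : eLpNorm F 2 ν ≤ ENNReal.ofReal C) : ∫ z, ‖F z‖ ^ 2 ∂ν ≤ C ^ 2 := by
  have h0 : 0 ≤ ∫ z, ‖F z‖ ^ 2 ∂ν := integral_nonneg fun _ => by positivity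
  have h1 := hF.eLpNorm_eq_integral_rpow_norm two_ne_zero ENNReal.ofNat_ne_top
  rw [h1, ENNReal.ofReal_le_ofReal_iff hC] at h
  have h2 : (∫ z, ‖F z‖ ^ (2 : ℝ≥0∞).toReal ∂ν) = ∫ z, ‖F z‖ ^ 2 ∂ν := by
    refine integral_congr_ae (Eventually.of_forall fun z => ?_)
    simp
  rw [h2] at h
  have h3 : (2 : ℝ≥0∞).toReal⁻¹ = 1 / 2 := by simp
  rw [h3, ← Real.sqrt_eq_rpow] at h
  calc ∫ z, ‖F z‖ ^ 2 ∂ν = Real.sqrt (∫ z, ‖F z‖ ^ 2 ∂ν) ^ 2 := (Real.sq_sqrt h0).symm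
    _ ≤ C ^ 2 := pow_le_pow_left₀ (Real.sqrt_nonneg _) h 2

private lemma arb_bdd {ν : Measure ℂ} {F : ℂ → ℂ} {Fk : ℕ → ℂ → ℂ} (hF : MemLp F 2 ν)
    (hFk : ∀ k, MemLp (Fk k) 2 ν)
    (h : Tendsto (fun k => eLpNorm (fun z => Fk k z - F z) 2 ν) atTop (𝓝 0)) :
    ∃ C : ℝ, 0 ≤ C ∧ ∀ k, eLpNorm (Fk k) 2 ν ≤ ENNReal.ofReal C := by
  have hd : ∀ k, MemLp (fun z => Fk k z - F z) 2 ν := fun k => (hFk k).sub hF
  have h1 : Tendsto (fun k => (eLpNorm (fun z => Fk k z - F z) 2 ν).toReal) atTop (𝓝 0) := by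
    have := (ENNReal.tendsto_toReal ENNReal.zero_ne_top).comp h
    rw [ENNReal.toReal_zero] at this
    exact this
  obtain ⟨B, hB⟩ := h1.bddAbove_range
  have hB' : ∀ k, (eLpNorm (fun z => Fk k z - F z) 2 ν).toReal ≤ B := fun k =>
    hB (Set.mem_range_self k)
  have hB0 : 0 ≤ B := ENNReal.toReal_nonneg.trans (hB' 0)
  refine ⟨B + (eLpNorm F 2 ν).toReal, add_nonneg hB0 ENNReal.toReal_nonneg, fun k => ?_⟩
  have h2 : eLpNorm (Fk k) 2 ν ≤ eLpNorm (fun z => Fk k z - F z) 2 ν + eLpNorm F 2 ν := by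
    have h3 : Fk k = (fun z => Fk k z - F z) + F := by
      funext z; simp
    calc eLpNorm (Fk k) 2 ν = eLpNorm ((fun z => Fk k z - F z) + F) 2 ν := by rw [← h3]
      _ ≤ _ := eLpNorm_add_le (hd k).1 hF.1 (by norm_num)
  refine h2.trans ?_
  rw [ENNReal.ofReal_add hB0 ENNReal.toReal_nonneg, ENNReal.ofReal_toReal hF.2.ne]
  refine add_le_add ?_ le_rfl
  rw [← ENNReal.ofReal_toReal (hd k).2.ne]
  exact ENNReal.ofReal_le_ofReal (hB' k)

private lemma arb_ext {h : ℂ → ℂ} {p : ℝ≥0∞} (h0 : ∀ z, 1 < ‖z‖ → h z = 0)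
    (hm : MemLp h p (volume.restrict (closedBall 0 2))) : MemLp h p volume := by
  have e : h = (closedBall (0 : ℂ) 2).indicator h := by
    funext z
    by_cases hz : z ∈ closedBall (0 : ℂ) 2
    · rw [indicator_of_mem hz]
    · rw [indicator_of_notMem hz]
      apply h0
      rw [mem_closedBall, dist_zero_right, not_le] at hz
      linarith
  rw [e, memLp_indicator_iff_restrict isClosed_closedBall.measurableSet]
  exact hm

private lemma arb_equi (hamp : S_amp) (h7 : S_CL) {q : ℝ} (hq1 : q < 1)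
    (fk Ak wk : ℕ → ℂ → ℂ) (hcont : ∀ k, Continuous (fk k)) (z1 : ℂ) (r : ℝ) (hr : 0 < r)
    (hwd : ∀ k, WD (ball z1 r) (fk k) (Ak k) (wk k))
    (hbel : ∀ k, ∀ᵐ z ∂(volume.restrict (ball z1 r)), ‖wk k z‖ ≤ q * ‖Ak k z‖)
    (hA : ∀ k, MemLp (Ak k) 2 volume) (hW : ∀ k, MemLp (wk k) 2 volume)
    (C : ℝ) (hC0 : 0 ≤ C) (hCA : ∀ k, eLpNorm (Ak k) 2 volume ≤ ENNReal.ofReal C)
    (hCW : ∀ k, eLpNorm (wk k) 2 volume ≤ ENNReal.ofReal C)
    (ε : ℝ) (hε : 0 < ε) : ∃ δ : ℝ, 0 < δ ∧ ∀ k, ∀ z, ‖z - z1‖ < δ → ‖fk k z - fk k z1‖ ≤ ε := by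
  set M : ℝ := C ^ 2 + C ^ 2 with hM
  have hM0 : 0 ≤ M := by positivity
  have hi1 : ∀ k, Integrable (fun z => ‖Ak k z‖ ^ 2) volume := by
    intro k
    have := (hA k).integrable_norm_pow (p := 2) two_ne_zero
    simpa using this
  have hi2 : ∀ k, Integrable (fun z => ‖wk k z‖ ^ 2) volume := by
    intro k
    have := (hW k).integrable_norm_pow (p := 2) two_ne_zero
    simpa using this
  have hint : ∀ k, Integrable (fun z => ‖Ak k z‖ ^ 2 + ‖wk k z‖ ^ 2) volume := fun k =>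
    (hi1 k).add (hi2 k)
  have hle : ∀ k, ∫ z in ball z1 r, (‖Ak k z‖ ^ 2 + ‖wk k z‖ ^ 2) ≤ M := by
    intro k
    calc ∫ z in ball z1 r, (‖Ak k z‖ ^ 2 + ‖wk k z‖ ^ 2)
        ≤ ∫ z, (‖Ak k z‖ ^ 2 + ‖wk k z‖ ^ 2) :=
          setIntegral_le_integral (hint k) (Eventually.of_forall fun z => by positivity)
      _ = (∫ z, ‖Ak k z‖ ^ 2) + ∫ z, ‖wk k z‖ ^ 2 := integral_add (hi1 k) (hi2 k)
      _ ≤ M := add_le_add (arb_sq (hA k) hC0 (hCA k)) (arb_sq (hW k) hC0 (hCW k))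
  set T : ℝ := 64 * M / ε ^ 2 + 1 with hT
  have hT0 : 0 < T := by positivity
  refine ⟨r * Real.exp (-T), by positivity, fun k z hz => ?_⟩
  have hδ1 : r * Real.exp (-T) < r := by
    have : Real.exp (-T) < 1 := by
      rw [Real.exp_lt_one_iff]; linarith
    nlinarith
  have hmp : MPP z1 r (fk k) := by
    refine hamp z1 r (fk k) (Ak k) (wk k) (hcont k).continuousOn (hwd k) ?_
    filter_upwards [hbel k] with w hw
    have hn := norm_nonneg (Ak k w)
    refine ⟨hw.trans (by nlinarith), fun he => ?_⟩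
    rw [he] at hw
    have : ‖Ak k w‖ = 0 := by nlinarith
    exact norm_eq_zero.mp this
  have hcl := h7 z1 r M (fk k) (Ak k) (wk k) (hcont k).continuousOn (hwd k)
    (hint k).integrableOn (hle k) hmp
    (r * Real.exp (-T)) (by positivity) hδ1 z (by
      rw [mem_closedBall, dist_eq_norm]; exact hz.le)
  refine hcl.trans ?_
  have h1 : Real.log (r / (r * Real.exp (-T))) = T := by
    have : r / (r * Real.exp (-T)) = Real.exp T := by
      rw [Real.exp_neg]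
      field_simp
    rw [this, Real.log_exp]
  rw [h1]
  have h2 : M / T ≤ (ε / 8) ^ 2 := by
    rw [div_le_iff₀ hT0, hT]
    have : (ε / 8) ^ 2 * (64 * M / ε ^ 2 + 1) = M + (ε / 8) ^ 2 := by
      field_simp
      ring
    rw [this]
    have : 0 ≤ (ε / 8) ^ 2 := by positivity
    linarith
  have h3 : Real.sqrt (M / T) ≤ ε / 8 := by
    rw [Real.sqrt_le_left (by positivity)]
    exact h2
  linarith

theorem piece_aregb (h1 : S_basic) (h2 : S_smooth) (h3 : S_wuniq) (h4 : S_C3a) (h5 : S_C3b)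
    (h6 : S_C5) (h7 : S_uniq) (h8 : S_asolve) (h9 : S_astab) (h10 : S_areg4) (h11 : S_amollmu)
    (h12 : S_amp) (h13 : S_CL) (h14 : S_loc) (h15 : S_glue) : S_aregb := by
  have _ := h4
  intro z0 ρ q μ F A B hρ hsub hμm hq1 hμq hW hB
  have hz0 : z0 ∈ ball z0 ρ := mem_ball_self hρ
  have hq0 : 0 ≤ q := (abs_nonneg _).trans (hμq z0 hz0)
  have hnorm1 : ∀ z, 1 < ‖z‖ → z ∉ ball z0 ρ := by
    intro z hz hzb
    have := hsub hzb
    rw [mem_ball, dist_zero_right] at this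
    linarith
  -- cutoffs
  let χ : ContDiffBump z0 := ⟨ρ / 2, 5 * ρ / 8, by positivity, by linarith⟩
  let χ' : ContDiffBump z0 := ⟨3 * ρ / 4, 7 * ρ / 8, by positivity, by linarith⟩
  have hχs : tsupport (χ : ℂ → ℝ) ⊆ ball z0 ρ := by
    rw [χ.tsupport_eq]
    exact closedBall_subset_ball (show 5 * ρ / 8 < ρ by linarith)
  have hχs' : tsupport (χ' : ℂ → ℝ) ⊆ ball z0 ρ := by
    rw [χ'.tsupport_eq]
    exact closedBall_subset_ball (show 7 * ρ / 8 < ρ by linarith)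
  have hχd : ContDiff ℝ (⊤ : ℕ∞) (χ : ℂ → ℝ) := χ.contDiff
  have hχd' : ContDiff ℝ (⊤ : ℕ∞) (χ' : ℂ → ℝ) := χ'.contDiff
  have hone : ∀ z ∈ tsupport (χ : ℂ → ℝ), χ' z = 1 := by
    intro z hz
    rw [χ.tsupport_eq] at hz
    refine χ'.one_of_mem_closedBall ?_
    have hz' : dist z z0 ≤ 5 * ρ / 8 := hz
    show dist z z0 ≤ 3 * ρ / 4
    linarith
  -- the coefficient
  set μ' : ℂ → ℝ := (ball z0 ρ).indicator μ with hμ'
  have hNbase : ∀ r : ℝ, 1 ≤ r → NMu q r μ' := by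
    intro r hr
    refine ⟨hμm.indicator measurableSet_ball, ?_, ?_⟩
    · intro z
      by_cases hz : z ∈ ball z0 ρ
      · rw [hμ', indicator_of_mem hz]
        exact hμq z hz
      · rw [hμ', indicator_of_notMem hz, abs_zero]
        exact hq0
    · intro z hz
      rw [hμ', indicator_of_notMem (hnorm1 z (by linarith))]
  -- the function h' = χ' F
  have hWD' := arb_prod h1 h2 h15 hW hχd' hχs'
  obtain ⟨h', hh'⟩ : ∃ h' : ℂ → ℂ, h' = fun z => F z * ((χ' z : ℝ) : ℂ) := ⟨_, rfl⟩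
  obtain ⟨A', hA'⟩ : ∃ A' : ℂ → ℂ, A' = fun z => A z * ((χ' z : ℝ) : ℂ) +
    F z * dz (fun w => ((χ' w : ℝ) : ℂ)) z := ⟨_, rfl⟩
  obtain ⟨B', hB'⟩ : ∃ B' : ℂ → ℂ, B' = fun z => B z * ((χ' z : ℝ) : ℂ) +
    F z * db (fun w => ((χ' w : ℝ) : ℂ)) z := ⟨_, rfl⟩
  rw [← hh', ← hA', ← hB'] at hWD'
  have hz' : ∀ z, 1 < ‖z‖ → h' z = 0 ∧ B' z = 0 := by
    intro z hz
    obtain ⟨e1, e2, e3⟩ := arb_zero χ' z (fun h => hnorm1 z hz (hχs' h))
    constructor
    · rw [hh']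
      show F z * ((χ' z : ℝ) : ℂ) = 0
      rw [e1, mul_zero]
    · rw [hB']
      show B z * ((χ' z : ℝ) : ℂ) + F z * db (fun w => ((χ' w : ℝ) : ℂ)) z = 0
      rw [e1, e3]
      simp
  have hu' := h7 h' A' B' hWD' (Eventually.of_forall fun z hz => (hz' z (by linarith)).2)
    ⟨0, fun z hz => by rw [(hz' z (by linarith)).1]; simp⟩
  have hBB' : (fun z => if 5 / 4 < ‖z‖ then 0 else B' z) = B' := by
    funext z
    split_ifs with hz
    · exact (hz' z (by linarith)).2.symm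
    · rfl
  rw [hBB'] at hu'
  have hW2' : W2 B' := ⟨hu'.2.2.1, fun z hz => (hz' z (by linarith)).2⟩
  have hL4 : MemLp h' 4 volume := by
    refine arb_ext (fun z hz => (hz' z hz).1) ?_
    exact (h6.1 B' hW2').ae_eq (ae_restrict_of_ae hu'.1.symm)
  have hL2 : MemLp h' 2 volume := by
    refine arb_ext (fun z hz => (hz' z hz).1) ?_
    exact hWD'.f2 _ (isCompact_closedBall 0 2) (subset_univ _)
  -- the right hand side
  have hχcd : ContDiff ℝ (⊤ : ℕ∞) (fun w => ((χ w : ℝ) : ℂ)) :=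
    Complex.ofRealCLM.contDiff.comp hχd
  obtain ⟨D, hD⟩ : ∃ D : ℂ → ℂ, D = db (fun w => ((χ w : ℝ) : ℂ)) := ⟨_, rfl⟩
  have hDc : Continuous D := by
    have hc : Continuous (fderiv ℝ (fun w => ((χ w : ℝ) : ℂ))) :=
      hχcd.continuous_fderiv (by simp)
    rw [hD]
    exact ((hc.clm_apply continuous_const).add
      (continuous_const.mul (hc.clm_apply continuous_const))).div_const 2
  have hDs : HasCompactSupport D := by
    refine HasCompactSupport.intro (χ.hasCompactSupport) (fun z hz => ?_)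
    rw [hD]
    exact (arb_zero χ z hz).2.2
  obtain ⟨M, hM⟩ := hDs.exists_bound_of_continuous hDc
  have hM0 : 0 ≤ M := (norm_nonneg _).trans (hM 0)
  obtain ⟨S, hS⟩ : ∃ S : ℂ → ℂ, S = fun z => D z * (h' z - (μ' z : ℂ) * conj (h' z)) := ⟨_, rfl⟩
  have hμ'm : Measurable (fun z => ((μ' z : ℝ) : ℂ)) :=
    Complex.measurable_ofReal.comp (hNbase 1 le_rfl).meas
  have hSm : AEStronglyMeasurable S volume := by
    rw [hS]
    refine hDc.aestronglyMeasurable.mul (hL2.1.sub ?_)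
    exact hμ'm.aestronglyMeasurable.mul (Complex.continuous_conj.comp_aestronglyMeasurable hL2.1)
  have hSb : ∀ᵐ z ∂(volume : Measure ℂ), ‖S z‖ ≤ (M * (1 + q)) * ‖h' z‖ := by
    refine Eventually.of_forall fun z => ?_
    rw [hS]
    show ‖D z * (h' z - (μ' z : ℂ) * conj (h' z))‖ ≤ _
    rw [norm_mul, mul_assoc]
    refine mul_le_mul (hM z) ?_ (norm_nonneg _) hM0
    refine (norm_sub_le _ _).trans ?_
    rw [norm_mul, Complex.norm_conj, Complex.norm_real, Real.norm_eq_abs]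
    have := (hNbase 1 le_rfl).bd z
    have hn := norm_nonneg (h' z)
    nlinarith
  have hS4 : MemLp S 4 volume := hL4.of_le_mul hSm hSb
  have hS2 : MemLp S 2 volume := hL2.of_le_mul hSm hSb
  have hSW : W2 S := by
    refine ⟨hS2, fun z hz => ?_⟩
    rw [hS]
    show D z * (h' z - (μ' z : ℂ) * conj (h' z)) = 0
    rw [(hz' z (by linarith)).1]
    simp
  -- the function h = χ F
  have hWD := arb_prod h1 h2 h15 hW hχd hχs
  obtain ⟨h, hh⟩ : ∃ h : ℂ → ℂ, h = fun z => F z * ((χ z : ℝ) : ℂ) := ⟨_, rfl⟩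
  obtain ⟨Ah, hAh⟩ : ∃ A' : ℂ → ℂ, A' = fun z => A z * ((χ z : ℝ) : ℂ) +
    F z * dz (fun w => ((χ w : ℝ) : ℂ)) z := ⟨_, rfl⟩
  obtain ⟨w, hw⟩ : ∃ B' : ℂ → ℂ, B' = fun z => B z * ((χ z : ℝ) : ℂ) +
    F z * db (fun w => ((χ w : ℝ) : ℂ)) z := ⟨_, rfl⟩
  rw [← hh, ← hAh, ← hw] at hWD
  have hz : ∀ z, 1 < ‖z‖ → h z = 0 ∧ w z = 0 := by
    intro z hz
    obtain ⟨e1, e2, e3⟩ := arb_zero χ z (fun h => hnorm1 z hz (hχs h))
    constructor
    · rw [hh]
      show F z * ((χ z : ℝ) : ℂ) = 0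
      rw [e1, mul_zero]
    · rw [hw]
      show B z * ((χ z : ℝ) : ℂ) + F z * db (fun w => ((χ w : ℝ) : ℂ)) z = 0
      rw [e1, e3]
      simp
  have hu := h7 h Ah w hWD (Eventually.of_forall fun z hz1 => (hz z (by linarith)).2)
    ⟨0, fun z hz1 => by rw [(hz z (by linarith)).1]; simp⟩
  have hBB : (fun z => if 5 / 4 < ‖z‖ then 0 else w z) = w := by
    funext z
    split_ifs with hz1
    · exact (hz z (by linarith)).2.symm
    · rfl
  rw [hBB] at hu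
  have hW2w : W2 w := ⟨hu.2.2.1, fun z hz1 => (hz z (by linarith)).2⟩
  have hWDw : WD univ (Ct w) Ah w :=
    h1.2.2.2.1 univ _ _ _ _ _ _ MeasurableSet.univ hWD (ae_restrict_of_ae hu.1) (ae_eq_refl _)
      (ae_eq_refl _)
  have heqw : ∀ᵐ z, w z = (μ' z : ℂ) * conj (Ah z) + S z := by
    have hB1 := (ae_restrict_iff' measurableSet_ball).1 hB
    filter_upwards [hB1] with z hBz
    by_cases hzs : z ∈ tsupport (χ : ℂ → ℝ)
    · have hzb := hχs hzs
      have hF : h' z = F z := by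
        rw [hh']
        show F z * ((χ' z : ℝ) : ℂ) = F z
        rw [hone z hzs]
        simp
      have hc := arb_conj (χ := χ) (z := z) (hχd.differentiable (by simp) z)
      have e1 : w z = B z * ((χ z : ℝ) : ℂ) + F z * D z := by rw [hw, hD]
      have e2 : Ah z = A z * ((χ z : ℝ) : ℂ) + F z * dz (fun w => ((χ w : ℝ) : ℂ)) z := by
        rw [hAh]
      have e3 : S z = D z * (F z - (μ' z : ℂ) * conj (F z)) := by rw [hS, ← hF]
      have e4 : μ' z = μ z := by rw [hμ', indicator_of_mem hzb]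
      rw [e1, e2, e3, e4, hBz hzb, map_add, map_mul, map_mul, hc, conj_ofReal, ← hD]
      ring
    · obtain ⟨e1, e2, e3⟩ := arb_zero χ z hzs
      have e4 : w z = 0 := by
        rw [hw]
        show B z * ((χ z : ℝ) : ℂ) + F z * db (fun w => ((χ w : ℝ) : ℂ)) z = 0
        rw [e1, e3]; simp
      have e5 : Ah z = 0 := by
        rw [hAh]
        show A z * ((χ z : ℝ) : ℂ) + F z * dz (fun w => ((χ w : ℝ) : ℂ)) z = 0
        rw [e1, e2]; simp
      have e6 : S z = 0 := by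
        rw [hS]
        show D z * (h' z - (μ' z : ℂ) * conj (h' z)) = 0
        rw [hD, e3, zero_mul]
      rw [e4, e5, e6]
      simp
  -- approximation
  obtain ⟨μk, hμk, hμks, hlim⟩ := h11 q 1 μ' hq0 one_pos (hNbase 1 le_rfl)
  have hμk' : ∀ k, NMu q (5 / 4) (μk k) := fun k =>
    ⟨(hμk k).meas, (hμk k).bd, fun z hz1 => (hμk k).supp z (by linarith)⟩
  choose wk Ak hwk hwdk heqk using fun k => h8 q hq0 hq1 (μk k) (hμk' k) S hSW
  obtain ⟨t1, t2⟩ := h9 q hq0 hq1 μ' μk (hNbase (5 / 4) (by norm_num)) hμk' hlim S hSW w Ah wk Ak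
    hW2w hwk hWDw hwdk heqw heqk
  choose fk hfkc hfkae using fun k => h10 q hq0 hq1 (μk k) (hμk' k) (hμks k) S hSW hS4 (wk k) (Ak k)
    (hwk k) (hwdk k) (heqk k)
  have hwdf : ∀ k, WD univ (fk k) (Ak k) (wk k) := fun k =>
    h1.2.2.2.1 univ _ _ _ _ _ _ MeasurableSet.univ (hwdk k) (ae_restrict_of_ae
      (by filter_upwards [hfkae k] with z hz1; exact hz1.symm)) (ae_eq_refl _) (ae_eq_refl _)
  have hAk : ∀ k, MemLp (Ak k) 2 volume ∧ eLpNorm (Ak k) 2 volume = eLpNorm (wk k) 2 volume := by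
    intro k
    obtain ⟨A2, hA2, hwd2, heq2⟩ := h5 (wk k) (hwk k)
    have h := (h3 univ _ _ _ _ _ _ isOpen_univ hwd2 (hwdk k) (ae_eq_refl _)).1
    rw [Measure.restrict_univ] at h
    exact ⟨hA2.ae_eq h, by rw [← heq2]; exact eLpNorm_congr_ae h.symm⟩
  obtain ⟨C, hC0, hC⟩ := arb_bdd hW2w.1 (fun k => (hwk k).1) t1
  have hCA : ∀ k, eLpNorm (Ak k) 2 volume ≤ ENNReal.ofReal C := fun k => by
    rw [(hAk k).2]; exact hC k
  -- S vanishes near the centre
  have hS0 : ∀ z ∈ ball z0 (ρ / 2), S z = 0 := by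
    intro z hz1
    have h1 : (χ : ℂ → ℝ) =ᶠ[𝓝 z] 1 := χ.eventuallyEq_one_of_mem_ball hz1
    have h2 : (fun w => ((χ w : ℝ) : ℂ)) =ᶠ[𝓝 z] fun _ => 1 := by
      filter_upwards [h1] with y hy
      rw [hy]; simp
    have h3 : fderiv ℝ (fun w => ((χ w : ℝ) : ℂ)) z = 0 := by
      rw [h2.fderiv_eq]
      simp
    have h4 : D z = 0 := by
      rw [hD]
      unfold db
      rw [h3]
      simp
    rw [hS]
    show D z * (h' z - (μ' z : ℂ) * conj (h' z)) = 0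
    rw [h4, zero_mul]
  have hχ1 : ∀ z ∈ ball z0 (ρ / 2), h z = F z := by
    intro z hz1
    rw [hh]
    show F z * ((χ z : ℝ) : ℂ) = F z
    rw [χ.one_of_mem_closedBall (ball_subset_closedBall hz1)]
    simp
  have hVsub : ball z0 (ρ / 2) ⊆ closedBall (0 : ℂ) 2 := by
    intro z hz1
    have h2 : z ∈ ball z0 ρ := ball_subset_ball (by linarith) hz1
    have h3 := hsub h2
    rw [mem_ball, dist_zero_right] at h3
    rw [mem_closedBall, dist_zero_right]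
    linarith
  obtain ⟨H, hHc, hHae, -⟩ := h14 (ball z0 (ρ / 2)) h fk isOpen_ball
    (fun k => (hfkc k).continuousOn) (fun K hK _ => hWD.f2 K hK (subset_univ _))
    (by
      intro z1 hz1 ε hε
      obtain ⟨r, hr, hrs⟩ := Metric.isOpen_iff.mp isOpen_ball z1 hz1
      obtain ⟨δ, hδ, hd⟩ := arb_equi h12 h13 hq1 fk Ak wk hfkc z1 r hr
        (fun k => h1.2.2.2.2.1 univ (ball z1 r) _ _ _ (subset_univ _) (hwdf k))
        (by
          intro k
          filter_upwards [ae_restrict_of_ae (heqk k), ae_restrict_mem measurableSet_ball] with z e1 e2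
          rw [e1, hS0 z (hrs e2), add_zero, norm_mul, Complex.norm_conj, Complex.norm_real,
            Real.norm_eq_abs]
          exact mul_le_mul_of_nonneg_right ((hμk k).bd z) (norm_nonneg _))
        (fun k => (hAk k).1) (fun k => (hwk k).1) C hC0 hCA hC ε hε
      exact ⟨δ, hδ, fun k z _ hzd => hd k z hzd⟩)
    (by
      intro K hK hKV
      refine tendsto_of_tendsto_of_tendsto_of_le_of_le tendsto_const_nhds (t2 2)
        (fun _ => zero_le) (fun k => ?_)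
      calc eLpNorm (fun z => fk k z - h z) 2 (volume.restrict K)
          = eLpNorm (fun z => Ct (wk k) z - Ct w z) 2 (volume.restrict K) := by
            refine eLpNorm_congr_ae (ae_restrict_of_ae ?_)
            filter_upwards [hfkae k, hu.1] with z e1 e2
            rw [e1, e2]
        _ ≤ _ := eLpNorm_mono_measure _ (Measure.restrict_mono (hKV.trans hVsub) le_rfl))
  refine ⟨H, hHc, ?_⟩
  filter_upwards [hHae, ae_restrict_mem measurableSet_ball] with z e1 e2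
  rw [e1, hχ1 z e2]

end Cal
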