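import Pool.Agent.Lib.MP_4ea4c7_an.StmH1

/-!
# Piece [a4] of MP_4ea4c7_an: existence for the inhomogeneous Beltrami equation in `L²` (no symmetry).
-/

open MeasureTheory Complex Metric Set Filter Topology
open scoped ComplexConjugate ENNReal NNReal

namespace Cal

noncomputable section

private lemma asl_ext_W2 (g : Lp ℂ 2 (volume.restrict (closedBall (0 : ℂ) (5 / 4)))) :
    W2 ((closedBall (0 : ℂ) (5 / 4)).indicator g) := by
  refine ⟨(memLp_indicator_iff_restrict measurableSet_closedBall).mpr (Lp.memLp g), ?_⟩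
  intro z hz
  apply Set.indicator_of_notMem
  rw [mem_closedBall_zero_iff]
  exact not_le.mpr hz

private lemma asl_sub (h1 : S_basic) (h3 : S_wuniq) (h4 : S_C3a)
    {w w' A A' A'' : ℂ → ℂ} (hw : W2 w) (hw' : W2 w')
    (hA : WD univ (Ct w) A w) (hA' : WD univ (Ct w') A' w')
    (hA'' : WD univ (Ct (fun z => w z + (-1) * w' z)) A'' (fun z => w z + (-1) * w' z)) :
    ∀ᵐ z, A'' z = A z + (-1) * A' z := by
  obtain ⟨C, _, _, hadd, hmul, _⟩ := h4
  obtain ⟨b1, b2, _⟩ := h1
  have hWm : W2 (fun z => (-1 : ℂ) * w' z) := by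
    refine ⟨hw'.1.const_mul (-1 : ℂ), fun z hz => ?_⟩
    simp only
    rw [hw'.2 z hz, mul_zero]
  have hsum := b1 univ _ _ _ _ _ _ hA (b2 univ _ _ _ (-1) hA')
  have hae : Ct (fun z => w z + (-1) * w' z) =ᵐ[volume.restrict univ]
      (fun z => Ct w z + (-1) * Ct w' z) := by
    rw [Measure.restrict_univ]
    filter_upwards [(hadd w (fun z => (-1 : ℂ) * w' z) hw hWm).1] with z hz
    rw [hz, hmul]
  have h5 := (h3 univ _ _ _ _ _ _ isOpen_univ hA'' hsum hae).1
  rw [Measure.restrict_univ] at h5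
  exact h5

private lemma asl_norm (h1 : S_basic) (h3 : S_wuniq) (h4 : S_C3a) (h5 : S_C3b)
    {w w' A A' : ℂ → ℂ} (hw : W2 w) (hw' : W2 w')
    (hA : WD univ (Ct w) A w) (hA' : WD univ (Ct w') A' w') :
    eLpNorm (fun z => A z - A' z) 2 volume = eLpNorm (fun z => w z - w' z) 2 volume := by
  have hWm : W2 (fun z => (-1 : ℂ) * w' z) := by
    refine ⟨hw'.1.const_mul (-1 : ℂ), fun z hz => ?_⟩
    simp only
    rw [hw'.2 z hz, mul_zero]
  have hWs : W2 (fun z => w z + (-1) * w' z) := by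
    refine ⟨hw.1.add hWm.1, fun z hz => ?_⟩
    simp only
    rw [hw.2 z hz, hw'.2 z hz]
    ring
  obtain ⟨A'', hA''m, hA''W, hA''n⟩ := h5 _ hWs
  have h6 := asl_sub h1 h3 h4 hw hw' hA hA' hA''W
  have h7 : (fun z => A z - A' z) =ᵐ[volume] A'' := by
    filter_upwards [h6] with z hz
    rw [hz]
    ring
  rw [eLpNorm_congr_ae h7, hA''n]
  congr 1
  funext z
  ring

private lemma asl_meas {μ : ℂ → ℝ} (hμ : Measurable μ) {g : ℂ → ℂ} {ν : Measure ℂ}
    (hg : AEStronglyMeasurable g ν) :
    AEStronglyMeasurable (fun z => (μ z : ℂ) * conj (g z)) ν := by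
  have h1 : AEStronglyMeasurable (fun z => (μ z : ℂ)) ν :=
    (Complex.measurable_ofReal.comp hμ).aestronglyMeasurable
  exact h1.mul (Complex.continuous_conj.comp_aestronglyMeasurable hg)

private lemma asl_memLp {κ : ℝ} {μ : ℂ → ℝ} (hμ : NMu κ (5 / 4) μ) {S : ℂ → ℂ}
    (hS : W2 S) {A : ℂ → ℂ} (hA : MemLp A 2 volume) :
    MemLp (fun z => (μ z : ℂ) * conj (A z) + S z) 2
      (volume.restrict (closedBall (0 : ℂ) (5 / 4))) := by
  have hA' : MemLp A 2 (volume.restrict (closedBall (0 : ℂ) (5 / 4))) := hA.restrict _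
  have h1 : MemLp (fun z => (μ z : ℂ) * conj (A z)) 2
      (volume.restrict (closedBall (0 : ℂ) (5 / 4))) := by
    refine hA'.of_le_mul (c := κ) (asl_meas hμ.meas hA'.aestronglyMeasurable) ?_
    refine Filter.Eventually.of_forall fun z => ?_
    rw [norm_mul, RCLike.norm_conj, Complex.norm_real]
    exact mul_le_mul_of_nonneg_right (hμ.bd z) (norm_nonneg _)
  exact h1.add (hS.1.restrict _)

theorem piece_asolve (h1 : S_basic) (_h2 : S_smooth) (h3 : S_wuniq) (h4 : S_C3a)
    (h5 : S_C3b) : S_asolve := by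
  intro κ hκ0 hκ1 μ hμ S hS
  -- a choice of the derivative of the Cauchy transform
  choose! T hTm hTW hTn using h5
  set ν : Measure ℂ := volume.restrict (closedBall (0 : ℂ) (5 / 4)) with hν
  let E := Lp ℂ 2 ν
  let ext : E → ℂ → ℂ := fun g => (closedBall (0 : ℂ) (5 / 4)).indicator g
  have hext : ∀ g : E, W2 (ext g) := asl_ext_W2
  have hmem : ∀ g : E, MemLp (fun z => (μ z : ℂ) * conj (T (ext g) z) + S z) 2 ν :=
    fun g => asl_memLp hμ hS (hTm _ (hext g))
  let θ : E → E := fun g => (hmem g).toLp _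
  have hlip : LipschitzWith (Real.toNNReal κ) θ := by
    intro g g'
    have e1 : edist (θ g) (θ g') = eLpNorm
        ((fun z => (μ z : ℂ) * conj (T (ext g) z) + S z) -
          (fun z => (μ z : ℂ) * conj (T (ext g') z) + S z)) 2 ν :=
      Lp.edist_toLp_toLp _ _ _ _
    have e2 : edist g g' = eLpNorm (fun z => ext g z - ext g' z) 2 volume := by
      rw [Lp.edist_def, ← eLpNorm_indicator_eq_eLpNorm_restrict measurableSet_closedBall]
      congr 1
      funext z
      by_cases hz : z ∈ closedBall (0 : ℂ) (5 / 4)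
      · simp [ext, Set.indicator_of_mem hz]
      · simp [ext, Set.indicator_of_notMem hz]
    rw [e1, e2, ← asl_norm h1 h3 h4 (fun w hw => ⟨T w, hTm w hw, hTW w hw, hTn w hw⟩)
      (hext g) (hext g') (hTW _ (hext g)) (hTW _ (hext g'))]
    refine (eLpNorm_le_mul_eLpNorm_of_ae_le_mul (c := κ)
      (g := fun z => T (ext g) z - T (ext g') z) ?_ 2).trans ?_
    · refine Filter.Eventually.of_forall fun z => ?_
      have e3 : ((fun z => (μ z : ℂ) * conj (T (ext g) z) + S z) -
          (fun z => (μ z : ℂ) * conj (T (ext g') z) + S z)) z =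
          (μ z : ℂ) * conj (T (ext g) z - T (ext g') z) := by
        simp only [Pi.sub_apply, map_sub]
        ring
      rw [e3, norm_mul, RCLike.norm_conj, Complex.norm_real]
      exact mul_le_mul_of_nonneg_right (hμ.bd z) (norm_nonneg _)
    · have e4 : (ENNReal.ofReal κ) = ((Real.toNNReal κ : ℝ≥0) : ℝ≥0∞) := rfl
      rw [e4]
      exact mul_le_mul_right (eLpNorm_mono_measure _ Measure.restrict_le_self) _
  have hcontr : ContractingWith (Real.toNNReal κ) θ := by
    refine ⟨?_, hlip⟩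
    rw [Real.toNNReal_lt_one]
    exact hκ1
  let g : E := ContractingWith.fixedPoint θ hcontr
  have hfix : θ g = g := ContractingWith.fixedPoint_isFixedPt hcontr
  have hae : ∀ᵐ z ∂ν, (g : ℂ → ℂ) z =
      (μ z : ℂ) * conj (T (ext g) z) + S z := by
    have h6 := (hmem g).coeFn_toLp
    have h7 : ((hmem g).toLp _ : E) = g := hfix
    rw [h7] at h6
    exact h6
  refine ⟨ext g, T (ext g), hext g, hTW _ (hext g), ?_⟩
  · have hae' := (ae_restrict_iff' measurableSet_closedBall).mp hae
    filter_upwards [hae'] with z hz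
    by_cases hzm : z ∈ closedBall (0 : ℂ) (5 / 4)
    · have h8 : ext g z = (g : ℂ → ℂ) z := Set.indicator_of_mem hzm _
      rw [h8]
      exact hz hzm
    · have h8 : ext g z = 0 := Set.indicator_of_notMem hzm _
      have h9 : 5 / 4 < ‖z‖ := by
        rw [mem_closedBall_zero_iff] at hzm
        exact not_le.mp hzm
      rw [h8, hμ.supp z h9, hS.2 z h9]
      simp

end

end Cal
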