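import Pool.Agent.Lib.MP_4ea4c7_an.StmH1

/-! [CH a5] Stability of the solutions of the inhomogeneous Beltrami equation (no symmetry). -/

open MeasureTheory Complex Metric Set Filter Topology
open scoped ComplexConjugate ENNReal NNReal

namespace Cal

noncomputable section

private lemma astb_poly {p : Polynomial ℝ} {pk : ℕ → Polynomial ℝ} {N : ℕ}
    (hk : ∀ k, (pk k).natDegree ≤ N) (hp : p.natDegree ≤ N)
    (hc : ∀ i, Tendsto (fun k => (pk k).coeff i) atTop (𝓝 (p.coeff i))) (r : ℝ) :
    ∃ b : ℕ → ℝ, Tendsto b atTop (𝓝 0) ∧ (∀ k, 0 ≤ b k) ∧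
      ∀ k z, ‖z‖ ≤ r → ‖pv (pk k) z - pv p z‖ ≤ b k := by
  refine ⟨fun k => ∑ i ∈ Finset.range (N + 1), |(pk k).coeff i - p.coeff i| * |r| ^ i, ?_, ?_, ?_⟩
  · have : (0 : ℝ) = ∑ i ∈ Finset.range (N + 1), (0:ℝ) * |r| ^ i := by simp
    rw [this]
    refine tendsto_finsetSum _ (fun i _ => Tendsto.mul_const _ ?_)
    have := ((hc i).sub_const (p.coeff i)).abs
    simpa using this
  · intro k; exact Finset.sum_nonneg (fun i _ => by positivity)
  · intro k z hz
    unfold pv
    rw [Polynomial.aeval_eq_sum_range' (Nat.lt_succ_of_le (hk k)),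
      Polynomial.aeval_eq_sum_range' (Nat.lt_succ_of_le hp), ← Finset.sum_sub_distrib]
    refine (norm_sum_le _ _).trans (Finset.sum_le_sum (fun i _ => ?_))
    rw [← sub_smul, norm_smul, norm_pow, Real.norm_eq_abs]
    gcongr
    exact hz.trans (le_abs_self r)

private lemma astb_dct {F : ℕ → ℂ → ℂ} {G : ℂ → ℂ} (hF : ∀ k, AEStronglyMeasurable (F k) volume)
    (hG : MemLp G 2 volume) (hb : ∀ k, ∀ᵐ z, ‖F k z‖ ≤ ‖G z‖)
    (hl : ∀ᵐ z, Tendsto (fun k => F k z) atTop (𝓝 0)) :
    Tendsto (fun k => eLpNorm (F k) 2 volume) atTop (𝓝 0) := by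
  have e : ∀ k, eLpNorm (F k) 2 volume = (∫⁻ z, ‖F k z‖ₑ ^ (2:ℝ)) ^ (1/2 : ℝ) := by
    intro k
    rw [eLpNorm_eq_lintegral_rpow_enorm_toReal (by norm_num) (by norm_num)]
    norm_num
  simp_rw [e]
  have h0 : Tendsto (fun k => ∫⁻ z, ‖F k z‖ₑ ^ (2:ℝ)) atTop (𝓝 (∫⁻ _ : ℂ, 0)) := by
    refine tendsto_lintegral_of_dominated_convergence' (fun z => ‖G z‖ₑ ^ (2:ℝ)) ?_ ?_ ?_ ?_
    · intro k; exact (hF k).enorm.pow_const _
    · intro k
      filter_upwards [hb k] with z hz
      exact ENNReal.rpow_le_rpow (enorm_le_iff_norm_le.mpr hz) (by norm_num)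
    · have := lintegral_rpow_enorm_lt_top_of_eLpNorm_lt_top (μ := volume) (p := 2) (f := G)
        (by norm_num) (by norm_num) hG.2
      simpa using this.ne
    · filter_upwards [hl] with z hz
      have h1 : Tendsto (fun k => ‖F k z‖ₑ) atTop (𝓝 0) := by
        simpa using hz.enorm
      have h2 := (ENNReal.continuous_rpow_const (y := (2:ℝ))).tendsto (0 : ℝ≥0∞)
      have h3 := h2.comp h1
      simpa [Function.comp_def] using h3
  rw [lintegral_zero] at h0
  have h2 := (ENNReal.continuous_rpow_const (y := (1/2:ℝ))).tendsto (0 : ℝ≥0∞)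
  have h3 := h2.comp h0
  simpa [Function.comp_def] using h3

private lemma astb_pv_wd (h2 : S_smooth) (p : Polynomial ℝ) :
    WD univ (pv p) (pv (Polynomial.derivative p)) (fun _ => 0) := by
  have hd : ∀ z : ℂ, HasDerivAt (pv p) (pv (Polynomial.derivative p) z) z := fun z =>
    Polynomial.hasDerivAt_aeval p z
  have h := h2.2.1 univ (pv p) isOpen_univ
    (fun z _ => (hd z).differentiableAt.differentiableWithinAt)
  have e : deriv (pv p) = pv (Polynomial.derivative p) := funext (fun z => (hd z).deriv)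
  rwa [e] at h

private theorem astb_gen (h1 : S_basic) (h2 : S_smooth) (h3 : S_wuniq) (h4 : S_C3a)
    (h5 : S_C3b) : ∀ κ : ℝ, 0 ≤ κ → κ < 1 → ∀ (μ : ℂ → ℝ) (μk : ℕ → ℂ → ℝ),
    NMu κ (5 / 4) μ → (∀ k, NMu κ (5 / 4) (μk k)) →
  (∀ᵐ z, Tendsto (fun k => μk k z) atTop (𝓝 (μ z))) →
  ∀ (S : ℂ → ℂ) (Sk : ℕ → ℂ → ℂ), W2 S → (∀ k, W2 (Sk k)) →
  Tendsto (fun k => eLpNorm (fun z => Sk k z - S z) 2 volume) atTop (𝓝 0) →
  ∀ (p : Polynomial ℝ) (pk : ℕ → Polynomial ℝ) (N : ℕ), (∀ k, (pk k).natDegree ≤ N) →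
  p.natDegree ≤ N → (∀ i, Tendsto (fun k => (pk k).coeff i) atTop (𝓝 (p.coeff i))) →
  ∀ (w A : ℂ → ℂ) (wk Ak : ℕ → ℂ → ℂ), W2 w → (∀ k, W2 (wk k)) →
  WD univ (fun z => pv p z + Ct w z) A w →
  (∀ k, WD univ (fun z => pv (pk k) z + Ct (wk k) z) (Ak k) (wk k)) →
  (∀ᵐ z, w z = (μ z : ℂ) * conj (A z) + S z) →
  (∀ k, ∀ᵐ z, wk k z = (μk k z : ℂ) * conj (Ak k z) + Sk k z) →
  Tendsto (fun k => eLpNorm (fun z => wk k z - w z) 2 volume) atTop (𝓝 0) ∧
  (∀ r : ℝ, Tendsto (fun k => eLpNorm (fun z => (pv (pk k) z + Ct (wk k) z) -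
    (pv p z + Ct w z)) 2 (volume.restrict (closedBall 0 r))) atTop (𝓝 0)) := by
  intro κ hκ0 hκ1 μ μk hμ hμk hμl S Sk hS hSk hSl p pk N hpkN hpN hpc w A wk Ak hw hwk hWD hWDk
    heq heqk
  obtain ⟨C, hC0, hCb, hCadd, -, -⟩ := h4
  obtain ⟨a, ha2, haWD, haN⟩ := h5 w hw
  have hdW : ∀ k, W2 (fun z => wk k z - w z) := fun k =>
    ⟨(hwk k).1.sub hw.1, fun z hz => by simp [(hwk k).2 z hz, hw.2 z hz]⟩
  choose b hb2 hbWD hbN using fun k => h5 _ (hdW k)
  set e : ℕ → ℝ≥0∞ := fun k => eLpNorm (fun z => wk k z - w z) 2 volume with he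
  have hefin : ∀ k, e k ≠ ⊤ := fun k => (hdW k).1.2.ne
  -- Ct wk = Ct w + Ct (wk - w)
  have hCt : ∀ k, (∀ᵐ z, Ct (wk k) z = Ct w z + Ct (fun z => wk k z - w z) z) ∧
      ∀ z, 5 / 4 < ‖z‖ → Ct (wk k) z = Ct w z + Ct (fun z => wk k z - w z) z := by
    intro k
    have := hCadd w (fun z => wk k z - w z) hw (hdW k)
    simpa using this
  -- A = p' + a
  have hA : ∀ᵐ z, A z = pv (Polynomial.derivative p) z + a z := by
    have t := (h1.1 univ _ _ _ _ _ _ (astb_pv_wd h2 p) haWD)
    have := (h3 univ _ _ _ _ _ _ isOpen_univ hWD t (by simp)).1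
    rw [Measure.restrict_univ] at this
    filter_upwards [this] with z hz
    exact hz
  have hAk : ∀ k, ∀ᵐ z, Ak k z = pv (Polynomial.derivative (pk k)) z + (a z + b k z) := by
    intro k
    have t := (h1.1 univ _ _ _ _ _ _ (astb_pv_wd h2 (pk k))
      (h1.1 univ _ _ _ _ _ _ haWD (hbWD k)))
    have t2 : (fun z => pv (pk k) z + Ct (wk k) z) =ᵐ[volume.restrict univ]
        (fun z => pv (pk k) z + (Ct w z + Ct (fun z => wk k z - w z) z)) := by
      rw [Measure.restrict_univ]
      filter_upwards [(hCt k).1] with z hz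
      rw [hz]
    have := (h3 univ _ _ _ _ _ _ isOpen_univ (hWDk k) t t2).1
    rw [Measure.restrict_univ] at this
    filter_upwards [this] with z hz
    exact hz
  -- the difference of the derivatives
  have hdA : ∀ k, ∀ᵐ z, Ak k z - A z
      = (pv (Polynomial.derivative (pk k)) z - pv (Polynomial.derivative p) z) + b k z := by
    intro k
    filter_upwards [hA, hAk k] with z h h'
    rw [h, h']; ring
  -- polynomials
  have hdN : ∀ q : Polynomial ℝ, q.natDegree ≤ N → (Polynomial.derivative q).natDegree ≤ N :=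
    fun q hq => (Polynomial.natDegree_derivative_le q).trans ((Nat.sub_le _ _).trans hq)
  have hdc : ∀ i, Tendsto (fun k => (Polynomial.derivative (pk k)).coeff i) atTop
      (𝓝 ((Polynomial.derivative p).coeff i)) := by
    intro i
    simp_rw [Polynomial.coeff_derivative]
    exact (hpc (i + 1)).mul_const _
  -- main estimate
  set K : Set ℂ := closedBall 0 (5 / 4) with hK
  have hKm : MeasurableSet K := isClosed_closedBall.measurableSet
  set χ : ℂ → ℂ := K.indicator (fun _ => 1) with hχ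
  have hχ2 : MemLp χ 2 volume := by
    refine (memLp_indicator_iff_restrict hKm).mpr ?_
    have : IsFiniteMeasure (volume.restrict K) :=
      ⟨by rw [Measure.restrict_apply_univ]; exact (isCompact_closedBall _ _).measure_lt_top⟩
    exact memLp_const 1
  set GA : ℂ → ℂ := K.indicator A with hGA
  have hGA2 : MemLp GA 2 volume :=
    (memLp_indicator_iff_restrict hKm).mpr (hWD.A2 K (isCompact_closedBall _ _) (subset_univ _))
  have hout : ∀ ν : ℂ → ℝ, NMu κ (5 / 4) ν → ∀ z, z ∉ K → ν z = 0 := by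
    intro ν hν z hz
    apply hν.supp
    simpa [hK, mem_closedBall, dist_zero_right] using hz
  obtain ⟨c', hc'l, hc'0, hc'b⟩ := astb_poly (fun k => hdN _ (hpkN k)) (hdN _ hpN) hdc (5 / 4)
  have hsplit : ∀ k, ∀ᵐ z, wk k z - w z
      = (μk k z : ℂ) * conj (b k z)
        + (μk k z : ℂ) * conj (pv (Polynomial.derivative (pk k)) z - pv (Polynomial.derivative p) z)
        + ((μk k z - μ z : ℝ) : ℂ) * conj (GA z) + (Sk k z - S z) := by
    intro k
    filter_upwards [heq, heqk k, hdA k] with z q1 q2 q3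
    have q4 : ((μk k z - μ z : ℝ) : ℂ) * conj (GA z) = ((μk k z - μ z : ℝ) : ℂ) * conj (A z) := by
      by_cases hz : z ∈ K
      · rw [hGA, indicator_of_mem hz]
      · rw [hout _ (hμk k) z hz, hout _ hμ z hz]; simp
    have q5 : Ak k z = A z
      + ((pv (Polynomial.derivative (pk k)) z - pv (Polynomial.derivative p) z) + b k z) := by
      rw [← q3]; ring
    rw [q1, q2, q4, q5]
    push_cast
    simp only [map_add, map_sub]
    ring
  have hμm : ∀ k, AEStronglyMeasurable (fun z => ((μk k z : ℝ) : ℂ)) volume := fun k =>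
    (Complex.continuous_ofReal.measurable.comp (hμk k).meas).aestronglyMeasurable
  have hμm0 : AEStronglyMeasurable (fun z => ((μ z : ℝ) : ℂ)) volume :=
    (Complex.continuous_ofReal.measurable.comp hμ.meas).aestronglyMeasurable
  have hconj : ∀ f : ℂ → ℂ, AEStronglyMeasurable f volume →
      AEStronglyMeasurable (fun z => conj (f z)) volume := fun f hf =>
    Complex.continuous_conj.comp_aestronglyMeasurable hf
  have hpvc : ∀ q : Polynomial ℝ, Continuous (pv q) := fun q => by
    unfold pv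
    exact Polynomial.continuous_aeval q
  have m1 : ∀ k, AEStronglyMeasurable (fun z => (μk k z : ℂ) * conj (b k z)) volume := fun k =>
    (hμm k).mul (hconj _ (hb2 k).1)
  have m2 : ∀ k, AEStronglyMeasurable (fun z => (μk k z : ℂ)
      * conj (pv (Polynomial.derivative (pk k)) z - pv (Polynomial.derivative p) z)) volume :=
    fun k => (hμm k).mul (hconj _ ((hpvc _).sub (hpvc _)).aestronglyMeasurable)
  have m3 : ∀ k, AEStronglyMeasurable
      (fun z => ((μk k z - μ z : ℝ) : ℂ) * conj (GA z)) volume := by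
    intro k
    have : (fun z => ((μk k z - μ z : ℝ) : ℂ)) = fun z => ((μk k z : ℝ) : ℂ) - ((μ z : ℝ) : ℂ) := by
      funext z; push_cast; ring
    exact (by rw [this]; exact (hμm k).sub hμm0 : AEStronglyMeasurable
      (fun z => ((μk k z - μ z : ℝ) : ℂ)) volume).mul (hconj _ hGA2.1)
  have m4 : ∀ k, AEStronglyMeasurable (fun z => Sk k z - S z) volume := fun k =>
    (hSk k).1.1.sub hS.1.1
  set t : ℕ → ℝ≥0∞ := fun k => eLpNorm (fun z => ((μk k z - μ z : ℝ) : ℂ) * conj (GA z)) 2 volume
    with ht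
  have htl : Tendsto t atTop (𝓝 0) := by
    refine astb_dct m3 (G := fun z => ((2 * κ : ℝ) : ℂ) * GA z) (hGA2.const_mul _) ?_ ?_
    · intro k
      refine Eventually.of_forall (fun z => ?_)
      rw [norm_mul, norm_mul, RCLike.norm_conj, Complex.norm_real, Complex.norm_real,
        Real.norm_eq_abs, Real.norm_eq_abs]
      refine mul_le_mul_of_nonneg_right ?_ (norm_nonneg _)
      rw [abs_of_nonneg (by linarith : (0:ℝ) ≤ 2 * κ)]
      have b1 := hμ.bd z
      have b2 := (hμk k).bd z
      calc |μk k z - μ z| ≤ |μk k z| + |μ z| := abs_sub _ _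
        _ ≤ 2 * κ := by linarith
    · filter_upwards [hμl] with z hz
      have q1 : Tendsto (fun k => μk k z - μ z) atTop (𝓝 0) := by
        simpa using hz.sub_const (μ z)
      have q2 : Tendsto (fun k => ((μk k z - μ z : ℝ) : ℂ)) atTop (𝓝 0) := by
        have := (Complex.continuous_ofReal.tendsto 0).comp q1
        simpa [Function.comp_def] using this
      simpa using q2.mul_const (conj (GA z))
  set s : ℕ → ℝ≥0∞ := fun k => eLpNorm (fun z => Sk k z - S z) 2 volume with hs
  have hmain : ∀ k, e k ≤ ENNReal.ofReal κ * e k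
      + (ENNReal.ofReal (c' k) * eLpNorm χ 2 volume + t k + s k) := by
    intro k
    have n1 : eLpNorm (fun z => (μk k z : ℂ) * conj (b k z)) 2 volume
        ≤ ENNReal.ofReal κ * e k := by
      have : e k = eLpNorm (b k) 2 volume := (hbN k).symm
      rw [this]
      refine eLpNorm_le_mul_eLpNorm_of_ae_le_mul (Eventually.of_forall (fun z => ?_)) _
      rw [norm_mul, RCLike.norm_conj, Complex.norm_real, Real.norm_eq_abs]
      gcongr
      exact (hμk k).bd z
    have n2 : eLpNorm (fun z => (μk k z : ℂ)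
        * conj (pv (Polynomial.derivative (pk k)) z - pv (Polynomial.derivative p) z)) 2 volume
        ≤ ENNReal.ofReal (c' k) * eLpNorm χ 2 volume := by
      refine eLpNorm_le_mul_eLpNorm_of_ae_le_mul (Eventually.of_forall (fun z => ?_)) _
      by_cases hz : z ∈ K
      · rw [hχ, indicator_of_mem hz, norm_mul, RCLike.norm_conj, Complex.norm_real,
          Real.norm_eq_abs, norm_one, mul_one]
        have q1 := (hμk k).bd z
        have q2 := hc'b k z (by simpa [hK] using hz)
        have q3 : |μk k z| ≤ 1 := q1.trans hκ1.le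
        calc _ ≤ 1 * c' k := mul_le_mul q3 q2 (norm_nonneg _) zero_le_one
          _ = c' k := one_mul _
      · rw [hout _ (hμk k) z hz]
        simp [hχ, indicator_of_notMem hz]
    have n0 : e k ≤ eLpNorm (fun z => (μk k z : ℂ) * conj (b k z)) 2 volume
        + eLpNorm (fun z => (μk k z : ℂ)
          * conj (pv (Polynomial.derivative (pk k)) z - pv (Polynomial.derivative p) z)) 2 volume
        + t k + s k := by
      rw [he]
      simp only
      rw [eLpNorm_congr_ae (hsplit k)]
      refine (eLpNorm_add_le (((m1 k).add (m2 k)).add (m3 k)) (m4 k) (by norm_num)).trans ?_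
      gcongr
      refine (eLpNorm_add_le ((m1 k).add (m2 k)) (m3 k) (by norm_num)).trans ?_
      gcongr
      exact eLpNorm_add_le (m1 k) (m2 k) (by norm_num)
    calc e k ≤ _ := n0
      _ ≤ ENNReal.ofReal κ * e k + ENNReal.ofReal (c' k) * eLpNorm χ 2 volume + t k + s k := by
          gcongr
      _ = _ := by ring
  have hrl : Tendsto (fun k => ENNReal.ofReal (c' k) * eLpNorm χ 2 volume + t k + s k) atTop
      (𝓝 0) := by
    have q1 : Tendsto (fun k => ENNReal.ofReal (c' k) * eLpNorm χ 2 volume) atTop (𝓝 0) := by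
      have := (ENNReal.continuous_ofReal.tendsto 0).comp hc'l
      rw [ENNReal.ofReal_zero] at this
      simpa [Function.comp_def] using
        ENNReal.Tendsto.mul_const this (b := eLpNorm χ 2 volume) (Or.inr hχ2.2.ne)
    simpa using (q1.add htl).add hSl
  have hel : Tendsto e atTop (𝓝 0) := by
    have hle : ∀ k, e k ≤ (ENNReal.ofReal (1 - κ))⁻¹
        * (ENNReal.ofReal (c' k) * eLpNorm χ 2 volume + t k + s k) := by
      intro k
      have q1 : ENNReal.ofReal κ * e k + ENNReal.ofReal (1 - κ) * e k = e k := by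
        rw [← add_mul, ← ENNReal.ofReal_add hκ0 (by linarith)]
        simp
      have q2 : ENNReal.ofReal κ * e k + ENNReal.ofReal (1 - κ) * e k
          ≤ ENNReal.ofReal κ * e k + (ENNReal.ofReal (c' k) * eLpNorm χ 2 volume + t k + s k) := by
        rw [q1]; exact hmain k
      have q3 : ENNReal.ofReal (1 - κ) * e k
          ≤ ENNReal.ofReal (c' k) * eLpNorm χ 2 volume + t k + s k :=
        (ENNReal.add_le_add_iff_left (ENNReal.mul_ne_top ENNReal.ofReal_ne_top (hefin k))).mp q2
      have q4 : ENNReal.ofReal (1 - κ) ≠ 0 := by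
        rw [Ne, ENNReal.ofReal_eq_zero]; linarith
      calc e k = (ENNReal.ofReal (1 - κ))⁻¹ * (ENNReal.ofReal (1 - κ) * e k) := by
            rw [← mul_assoc, ENNReal.inv_mul_cancel q4 ENNReal.ofReal_ne_top, one_mul]
        _ ≤ _ := by gcongr
    refine tendsto_of_tendsto_of_tendsto_of_le_of_le tendsto_const_nhds ?_
      (fun k => zero_le) hle
    have q4 : ENNReal.ofReal (1 - κ) ≠ 0 := by
      rw [Ne, ENNReal.ofReal_eq_zero]; linarith
    have := ENNReal.Tendsto.const_mul hrl (a := (ENNReal.ofReal (1 - κ))⁻¹)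
      (Or.inr (ENNReal.inv_ne_top.mpr q4))
    simpa using this
  -- polynomials on large discs
  have hpp : ∀ r : ℝ, ∃ c : ℕ → ℝ, Tendsto c atTop (𝓝 0) ∧ (∀ k, 0 ≤ c k) ∧
      ∀ k z, ‖z‖ ≤ r → ‖pv (pk k) z - pv p z‖ ≤ c k := fun r => astb_poly hpkN hpN hpc r
  have hpd : ∀ r : ℝ, ∃ c : ℕ → ℝ, Tendsto c atTop (𝓝 0) ∧ (∀ k, 0 ≤ c k) ∧
      ∀ k z, ‖z‖ ≤ r → ‖pv (Polynomial.derivative (pk k)) z - pv (Polynomial.derivative p) z‖
        ≤ c k := fun r => astb_poly (fun k => hdN _ (hpkN k)) (hdN _ hpN) hdc r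
  -- real version of the convergence of e
  have herl : Tendsto (fun k => C * (e k).toReal) atTop (𝓝 0) := by
    have := ((ENNReal.tendsto_toReal (ENNReal.zero_ne_top)).comp hel).const_mul C
    simpa [Function.comp_def] using this
  -- L2 norms of bounded functions on discs
  have hbdd : ∀ (r : ℝ) (c : ℕ → ℝ), Tendsto c atTop (𝓝 0) → ∀ (F : ℕ → ℂ → ℂ) (T : Set ℂ),
      T ⊆ closedBall 0 r → MeasurableSet T →
      (∀ k, ∀ z ∈ T, ‖F k z‖ ≤ c k) →
      Tendsto (fun k => eLpNorm (F k) 2 (volume.restrict T)) atTop (𝓝 0) := by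
    intro r c hc F T hT hTm hF
    have q0 : volume T ≠ ⊤ :=
      ((measure_mono hT).trans_lt (isCompact_closedBall _ _).measure_lt_top).ne
    have q1 : ∀ k, eLpNorm (F k) 2 (volume.restrict T)
        ≤ (volume T) ^ ((2 : ℝ≥0∞).toReal)⁻¹ * ENNReal.ofReal (c k) := by
      intro k
      have := eLpNorm_le_of_ae_bound (p := 2) (μ := volume.restrict T) (f := F k) (C := c k)
        ((ae_restrict_iff' hTm).mpr (Eventually.of_forall (fun z hz => hF k z hz)))
      simpa using this
    refine tendsto_of_tendsto_of_tendsto_of_le_of_le tendsto_const_nhds ?_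
      (fun k => zero_le) q1
    have q2 := (ENNReal.continuous_ofReal.tendsto 0).comp hc
    rw [ENNReal.ofReal_zero] at q2
    have q3 := ENNReal.Tendsto.const_mul q2 (a := (volume T) ^ ((2 : ℝ≥0∞).toReal)⁻¹)
      (Or.inr (ENNReal.rpow_ne_top_of_nonneg (by simp) q0))
    simpa [Function.comp_def] using q3
  refine ⟨hel, ?_⟩
  · intro r
    obtain ⟨c, hcl, hc0, hcb⟩ := hpp r
    set D : ℕ → ℂ → ℂ := fun k z => Ct (fun z => wk k z - w z) z with hD
    set E : ℕ → ℂ → ℂ := fun k z => pv (pk k) z - pv p z with hE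
    have hDm : ∀ k, AEStronglyMeasurable (D k) (volume.restrict (closedBall 0 r)) := fun k =>
      ((hbWD k).f2 (closedBall 0 r) (isCompact_closedBall _ _) (subset_univ _)).1
    have hEm : ∀ k, AEStronglyMeasurable (E k) (volume.restrict (closedBall 0 r)) := fun k =>
      ((hpvc _).sub (hpvc _)).aestronglyMeasurable
    have e1 : ∀ k, eLpNorm (fun z => (pv (pk k) z + Ct (wk k) z) - (pv p z + Ct w z)) 2
        (volume.restrict (closedBall 0 r)) ≤ eLpNorm (E k) 2 (volume.restrict (closedBall 0 r))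
          + eLpNorm (D k) 2 (volume.restrict (closedBall 0 r)) := by
      intro k
      refine le_trans (le_of_eq ?_) (eLpNorm_add_le (hEm k) (hDm k) (by norm_num))
      refine eLpNorm_congr_ae (ae_restrict_of_ae ?_)
      filter_upwards [(hCt k).1] with z hz
      simp only [Pi.add_apply, hE, hD]
      rw [hz]; ring
    have t1 : Tendsto (fun k => eLpNorm (E k) 2 (volume.restrict (closedBall 0 r))) atTop (𝓝 0) :=
      hbdd r c hcl E _ le_rfl isClosed_closedBall.measurableSet
        (fun k z hz => hcb k z (by simpa using hz))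
    have t2 : Tendsto (fun k => eLpNorm (D k) 2 (volume.restrict (closedBall 0 2))) atTop (𝓝 0) := by
      have q : ∀ k, eLpNorm (D k) 2 (volume.restrict (closedBall 0 2)) ≤ ENNReal.ofReal C * e k :=
        fun k => (hCb _ (hdW k)).2.2.1
      refine tendsto_of_tendsto_of_tendsto_of_le_of_le tendsto_const_nhds ?_
        (fun k => zero_le) q
      simpa using ENNReal.Tendsto.const_mul hel (a := ENNReal.ofReal C)
        (Or.inr ENNReal.ofReal_ne_top)
    have t3 : Tendsto (fun k => eLpNorm (D k) 2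
        (volume.restrict (closedBall 0 r \ closedBall 0 2))) atTop (𝓝 0) := by
      refine hbdd r (fun k => C * (e k).toReal) herl D _ sdiff_subset
        (isClosed_closedBall.measurableSet.diff isClosed_closedBall.measurableSet) ?_
      intro k z hz
      have hz2 : 2 < ‖z‖ := by simpa using hz.2
      refine ((hCb _ (hdW k)).1 z (by linarith)).trans ?_
      apply div_le_self (mul_nonneg hC0 ENNReal.toReal_nonneg)
      linarith
    have t4 : ∀ k, eLpNorm (D k) 2 (volume.restrict (closedBall 0 r))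
        ≤ eLpNorm (D k) 2 (volume.restrict (closedBall 0 2))
          + eLpNorm (D k) 2 (volume.restrict (closedBall 0 r \ closedBall 0 2)) := by
      intro k
      have hT : MeasurableSet (closedBall (0 : ℂ) 2) := isClosed_closedBall.measurableSet
      have q1 : eLpNorm (D k) 2 (volume.restrict (closedBall 0 r))
          ≤ eLpNorm ((closedBall (0 : ℂ) 2).indicator (D k)) 2 (volume.restrict (closedBall 0 r))
            + eLpNorm ((closedBall (0 : ℂ) 2)ᶜ.indicator (D k)) 2
              (volume.restrict (closedBall 0 r)) := by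
        refine le_trans (le_of_eq ?_) (eLpNorm_add_le ((hDm k).indicator hT)
          ((hDm k).indicator hT.compl) (by norm_num))
        rw [indicator_self_add_compl]
      refine q1.trans ?_
      rw [eLpNorm_indicator_eq_eLpNorm_restrict hT,
        eLpNorm_indicator_eq_eLpNorm_restrict hT.compl, Measure.restrict_restrict hT,
        Measure.restrict_restrict hT.compl]
      refine add_le_add (eLpNorm_mono_measure _ (Measure.restrict_mono inter_subset_left le_rfl))
        (eLpNorm_mono_measure _ (Measure.restrict_mono ?_ le_rfl))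
      intro z hz
      exact ⟨hz.2, hz.1⟩
    refine tendsto_of_tendsto_of_tendsto_of_le_of_le tendsto_const_nhds ?_
      (fun k => zero_le) (fun k => (e1 k).trans (add_le_add_right (t4 k) _))
    simpa using t1.add (t2.add t3)

theorem piece_astab (h1 : S_basic) (h2 : S_smooth) (h3 : S_wuniq) (h4 : S_C3a) (h5 : S_C3b) :
    S_astab := by
  intro κ hκ0 hκ1 μ μk hμ hμk hμl S hS w A wk Ak hw hwk hWD hWDk heq heqk
  have p0 : ∀ v : ℂ → ℂ, (fun z => pv (0 : Polynomial ℝ) z + v z) = v := by
    intro v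
    funext z
    simp [pv]
  have h := astb_gen h1 h2 h3 h4 h5 κ hκ0 hκ1 μ μk hμ hμk hμl S (fun _ => S) hS (fun _ => hS)
    (by simp) 0 (fun _ => 0) 0 (fun _ => by simp) (by simp) (fun i => by simp) w A wk Ak hw hwk
    (by rw [p0]; exact hWD) (fun k => by rw [p0]; exact hWDk k) heq heqk
  refine ⟨h.1, fun r => ?_⟩
  have := h.2 r
  simpa [pv] using this

end

end Cal
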