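import Pool.Agent.Lib.MP_4ea4c7_an.StmH1

/-!
# MP_4ea4c7_an, stage 2: piece aucp (unique continuation)
-/

open MeasureTheory Complex Metric Set Filter Topology
open scoped ComplexConjugate ENNReal NNReal

namespace Cal

noncomputable section

theorem piece_aucp (h1 : S_aucpb) (h2 : S_basic) : S_aucp := by
  intro U μ F hU hUc hμ hF hB V hV hVne hVU hV0
  obtain ⟨A, B, hWD, hae⟩ := hB
  have hWopen : IsOpen {z : ℂ | ∀ᶠ w in 𝓝 z, F w = 0} := isOpen_setOfPred_eventually_nhds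
  have hsub : U ⊆ {z : ℂ | ∀ᶠ w in 𝓝 z, F w = 0} := by
    refine hUc.subset_of_closure_inter_subset hWopen ?_ ?_
    · obtain ⟨x, hx⟩ := hVne
      refine ⟨x, hVU hx, ?_⟩
      show ∀ᶠ w in 𝓝 x, F w = 0
      filter_upwards [hV.mem_nhds hx] with w hw using hV0 w hw
    · rintro z0 ⟨hz0, hz0U⟩
      obtain ⟨ρ, hρ, hρU⟩ := Metric.nhds_basis_closedBall.mem_iff.mp (hU.mem_nhds hz0U)
      obtain ⟨q, hq1, hq⟩ := hμ (closedBall z0 ρ) (isCompact_closedBall z0 ρ) hρU
      have hq0 : 0 ≤ q := (abs_nonneg _).trans (hq z0 (mem_closedBall_self hρ.le))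
      have hbU : ball z0 ρ ⊆ U := ball_subset_closedBall.trans hρU
      have key := h1 z0 ρ q F A B hq0 hq1 (hF.mono hbU) (h2.2.2.2.2.1 U (ball z0 ρ) F A B hbU hWD) ?_
        ({z : ℂ | ∀ᶠ w in 𝓝 z, F w = 0} ∩ ball z0 ρ) (hWopen.inter isOpen_ball) ?_ inter_subset_right ?_
      · show ∀ᶠ w in 𝓝 z0, F w = 0
        filter_upwards [ball_mem_nhds z0 hρ] with w hw using key w hw
      · have h3 := ae_restrict_of_ae_restrict_of_subset hbU hae
        filter_upwards [h3, ae_restrict_mem (measurableSet_ball (x := z0) (ε := ρ))] with z hz hzb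
        rw [hz, norm_mul, Complex.norm_real, Real.norm_eq_abs, RCLike.norm_conj]
        exact mul_le_mul_of_nonneg_right (hq z (ball_subset_closedBall hzb)) (norm_nonneg _)
      · obtain ⟨w, hw1, hw2⟩ := mem_closure_iff_nhds.mp hz0 (ball z0 ρ) (ball_mem_nhds z0 hρ)
        exact ⟨w, hw2, hw1⟩
      · rintro z ⟨hz, _⟩
        exact hz.self_of_nhds
  intro z hz
  exact (hsub hz).self_of_nhds

end

end Cal
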