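import Pool.Agent.Lib.MP_4ea4c7_an.StmH1

/-!
# Piece aucpb
-/

open MeasureTheory Complex Metric Set Filter Topology
open scoped ComplexConjugate ENNReal NNReal

namespace Cal

noncomputable section

private def aT (t : ℝ) : ℝ := 3 * t ^ 2 - 2 * t ^ 3

private def aT' (t : ℝ) : ℝ := 6 * t - 6 * t ^ 2

private theorem aT_deriv (t : ℝ) : HasDerivAt aT (aT' t) t := by
  have h1 := ((hasDerivAt_id t).pow 2).const_mul 3
  have h2 := ((hasDerivAt_id t).pow 3).const_mul 2
  have h3 := h1.sub h2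
  refine h3.congr_deriv ?_
  simp [aT']
  ring

private theorem aT_contDiff : ContDiff ℝ 1 aT := by
  unfold aT
  fun_prop

private theorem aT_cont : Continuous aT := aT_contDiff.continuous

private theorem aT'_cont : Continuous aT' := by
  unfold aT'
  fun_prop

private def al (ε L s : ℝ) : ℝ := Real.log (1 + s / ε ^ 2) / (2 * L)

private theorem al_deriv {ε L s : ℝ} (hε : 0 < ε) (hs : 0 ≤ s) :
    HasDerivAt (al ε L) (1 / (ε ^ 2 + s) / (2 * L)) s := by
  have h0 : 0 < 1 + s / ε ^ 2 := by positivity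
  have h1 : HasDerivAt (fun s : ℝ => 1 + s / ε ^ 2) (1 / ε ^ 2) s :=
    ((hasDerivAt_id s).div_const _).const_add 1
  have h2 := (h1.log h0.ne').div_const (2 * L)
  refine h2.congr_deriv ?_
  congr 1
  field_simp

private def aG (ε L : ℝ) (w : ℂ) : ℂ := ((aT (al ε L (‖w‖ ^ 2)) : ℝ) : ℂ)

private theorem aG_fderiv {ε L : ℝ} (hε : 0 < ε) (w : ℂ) :
    HasFDerivAt (aG ε L) (ofRealCLM.comp
      ((aT' (al ε L (‖w‖ ^ 2)) * (1 / (ε ^ 2 + ‖w‖ ^ 2) / (2 * L))) •
        (2 • innerSL ℝ w : ℂ →L[ℝ] ℝ))) w := by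
  have h1 : HasFDerivAt (fun w : ℂ => ‖w‖ ^ 2) (2 • innerSL ℝ w : ℂ →L[ℝ] ℝ) w :=
    (hasStrictFDerivAt_norm_sq w).hasFDerivAt
  have h2 : HasDerivAt (fun s => aT (al ε L s))
      (aT' (al ε L (‖w‖ ^ 2)) * (1 / (ε ^ 2 + ‖w‖ ^ 2) / (2 * L))) (‖w‖ ^ 2) :=
    (aT_deriv _).comp _ (al_deriv hε (by positivity))
  have h3 := h2.comp_hasFDerivAt w h1
  exact ofRealCLM.hasFDerivAt.comp w h3

private theorem aG_contDiff {ε L : ℝ} (hε : 0 < ε) : ContDiff ℝ 1 (aG ε L) := by
  unfold aG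
  refine ofRealCLM.contDiff.comp (aT_contDiff.comp ?_)
  unfold al
  refine ContDiff.div_const (ContDiff.log ?_ ?_) _
  · exact contDiff_const.add ((contDiff_norm_sq ℝ).div_const _)
  · intro x
    positivity

private theorem aG_val {ε L : ℝ} (hε : 0 < ε) (hL : 0 < L) (w v : ℂ) (hv : ‖v‖ = 1) :
    ‖fderiv ℝ (aG ε L) w v‖ ≤ |aT' (al ε L (‖w‖ ^ 2))| * (‖w‖ / ((ε ^ 2 + ‖w‖ ^ 2) * L)) := by
  rw [(aG_fderiv hε w).fderiv]
  have h1 : |inner ℝ w v| ≤ ‖w‖ := by
    have := abs_real_inner_le_norm w v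
    rwa [hv, mul_one] at this
  have h2 : (0 : ℝ) < ε ^ 2 + ‖w‖ ^ 2 := by positivity
  rw [ContinuousLinearMap.comp_apply, ofRealCLM_apply, Complex.norm_real]
  simp only [_root_.smul_apply, smul_eq_mul, innerSL_apply_apply, nsmul_eq_mul]
  rw [Real.norm_eq_abs, abs_mul, abs_mul, mul_assoc]
  refine mul_le_mul_of_nonneg_left ?_ (abs_nonneg _)
  rw [abs_of_pos (by positivity : 0 < 1 / (ε ^ 2 + ‖w‖ ^ 2) / (2 * L)), abs_mul]
  have h3 : |((2 : ℕ) : ℝ)| = 2 := by norm_num
  rw [h3]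
  calc 1 / (ε ^ 2 + ‖w‖ ^ 2) / (2 * L) * (2 * |inner ℝ w v|)
      ≤ 1 / (ε ^ 2 + ‖w‖ ^ 2) / (2 * L) * (2 * ‖w‖) := by
        refine mul_le_mul_of_nonneg_left ?_ (by positivity)
        linarith
    _ = ‖w‖ / ((ε ^ 2 + ‖w‖ ^ 2) * L) := by field_simp

private theorem aG_dz {ε L : ℝ} (hε : 0 < ε) (hL : 0 < L) (w : ℂ) :
    ‖dz (aG ε L) w‖ ≤ |aT' (al ε L (‖w‖ ^ 2))| * (‖w‖ / ((ε ^ 2 + ‖w‖ ^ 2) * L)) ∧
    ‖db (aG ε L) w‖ ≤ |aT' (al ε L (‖w‖ ^ 2))| * (‖w‖ / ((ε ^ 2 + ‖w‖ ^ 2) * L)) := by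
  have h1 := aG_val hε hL w 1 (by simp)
  have h2 := aG_val hε hL w I (by simp)
  constructor
  · unfold dz
    rw [norm_div, show ‖(2 : ℂ)‖ = 2 by simp]
    have := norm_sub_le (fderiv ℝ (aG ε L) w 1) (I * fderiv ℝ (aG ε L) w I)
    rw [norm_mul, norm_I, one_mul] at this
    linarith
  · unfold db
    rw [norm_div, show ‖(2 : ℂ)‖ = 2 by simp]
    have := norm_add_le (fderiv ℝ (aG ε L) w 1) (I * fderiv ℝ (aG ε L) w I)
    rw [norm_mul, norm_I, one_mul] at this
    linarith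

private theorem al_eq {L s : ℝ} (hL : 0 < L) (hs : 0 ≤ s) :
    al (Real.exp (-L)) L s = 1 + Real.log (Real.exp (-L) ^ 2 + s) / (2 * L) := by
  have h0 : (0 : ℝ) < Real.exp (-L) ^ 2 := by positivity
  have h1 : 1 + s / Real.exp (-L) ^ 2 = (Real.exp (-L) ^ 2 + s) / Real.exp (-L) ^ 2 := by
    field_simp
  unfold al
  rw [h1, Real.log_div (by positivity) h0.ne', Real.log_pow, Real.log_exp]
  field_simp
  push_cast
  ring

private theorem al_nonneg {ε L s : ℝ} (hL : 0 < L) (hs : 0 ≤ s) : 0 ≤ al ε L s := by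
  unfold al
  refine div_nonneg (Real.log_nonneg ?_) (by positivity)
  have : 0 ≤ s / ε ^ 2 := by positivity
  linarith

private theorem al_le {L s M : ℝ} (hL : 1 ≤ L) (hs : 0 ≤ s) (hM : s ≤ M ^ 2) :
    al (Real.exp (-L)) L s ≤ 1 + Real.log (1 + M ^ 2) / 2 := by
  rw [al_eq (by linarith) hs]
  have h0 : (0 : ℝ) < Real.exp (-L) ^ 2 := by positivity
  have h1 : Real.exp (-L) ^ 2 ≤ 1 := by
    have : Real.exp (-L) ≤ 1 := Real.exp_le_one_iff.2 (by linarith)
    exact pow_le_one₀ (Real.exp_pos _).le this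
  have h2 : Real.log (Real.exp (-L) ^ 2 + s) ≤ Real.log (1 + M ^ 2) :=
    Real.log_le_log (by positivity) (by linarith)
  have h3 : 0 ≤ Real.log (1 + M ^ 2) := Real.log_nonneg (by nlinarith [sq_nonneg M])
  have h4 : Real.log (Real.exp (-L) ^ 2 + s) / (2 * L) ≤ Real.log (1 + M ^ 2) / 2 := by
    rw [div_le_div_iff₀ (by positivity) (by norm_num)]
    nlinarith
  linarith

private theorem al_tendsto {s : ℝ} (hs : 0 ≤ s) :
    Tendsto (fun n : ℕ => al (Real.exp (-((n : ℝ) + 1))) ((n : ℝ) + 1) s) atTop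
      (𝓝 (if s = 0 then 0 else 1)) := by
  split_ifs with h
  · subst h
    refine tendsto_const_nhds.congr fun n => ?_
    simp [al]
  · have hs' : 0 < s := lt_of_le_of_ne hs (Ne.symm h)
    have hL : Tendsto (fun n : ℕ => (n : ℝ) + 1) atTop atTop :=
      tendsto_atTop_add_const_right _ _ tendsto_natCast_atTop_atTop
    have h1 : Tendsto (fun n : ℕ => Real.exp (-((n : ℝ) + 1)) ^ 2 + s) atTop (𝓝 (0 ^ 2 + s)) :=
      ((Real.tendsto_exp_neg_atTop_nhds_zero.comp hL).pow 2).add_const s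
    have h2 : Tendsto (fun n : ℕ => Real.log (Real.exp (-((n : ℝ) + 1)) ^ 2 + s)) atTop
        (𝓝 (Real.log (0 ^ 2 + s))) :=
      (Real.continuousAt_log (by positivity)).tendsto.comp h1
    have h3 : Tendsto (fun n : ℕ => (2 : ℝ) * ((n : ℝ) + 1)) atTop atTop :=
      hL.const_mul_atTop two_pos
    have h4 := (h2.div_atTop h3).const_add 1
    rw [add_zero] at h4
    refine h4.congr fun n => ?_
    rw [al_eq (by positivity) hs]

private theorem aT'_bd {t m : ℝ} (h0 : 0 ≤ t) (hm : t ≤ m) : |aT' t| ≤ 6 * m * (1 + m) := by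
  unfold aT'
  rw [abs_le]
  constructor <;> nlinarith

private theorem aT_bd {t m : ℝ} (h0 : 0 ≤ t) (hm : t ≤ m) : |aT t| ≤ 3 * m ^ 2 * (1 + m) := by
  unfold aT
  have h1 : t ^ 2 ≤ m ^ 2 := by nlinarith
  have h2 : t ^ 3 ≤ m ^ 3 := by gcongr
  have h3 : 0 ≤ t ^ 2 := by positivity
  have h4 : 0 ≤ t ^ 3 := by positivity
  rw [abs_le]
  constructor <;> nlinarith

private theorem aucpb_bump (z0 : ℂ) (r ρ : ℝ) (hr : 0 < r) (hrρ : r < ρ) :
    ∃ η : ℂ → ℝ, RTF (ball z0 ρ) η ∧ ∀ z ∈ closedBall z0 r, η z = 1 := by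
  let f : ContDiffBump z0 := ⟨r, (r + ρ) / 2, hr, by linarith⟩
  refine ⟨f, ⟨f.contDiff, f.hasCompactSupport, ?_⟩, fun z hz => f.one_of_mem_closedBall hz⟩
  rw [f.tsupport_eq]
  exact closedBall_subset_ball (by show (r + ρ) / 2 < ρ; linarith)

private theorem aucpb_tsupp (φ : ℂ → ℝ) : tsupport (fun z => (φ z : ℂ)) = tsupport φ := by
  have : Function.support (fun z => (φ z : ℂ)) = Function.support φ := by
    ext z
    simp [Function.mem_support]
  rw [tsupport, this, tsupport]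

private theorem aucpb_TF {U : Set ℂ} {φ : ℂ → ℝ} (h : RTF U φ) : TF U (fun z => (φ z : ℂ)) := by
  refine ⟨ofRealCLM.contDiff.comp h.1, ?_, ?_⟩
  · rw [HasCompactSupport, aucpb_tsupp]
    exact h.2.1
  · rw [aucpb_tsupp]
    exact h.2.2

private theorem aucpb_db_supp {φ : ℂ → ℂ} {z : ℂ} (hz : z ∉ tsupport φ) : db φ z = 0 := by
  have h1 : fderiv ℝ φ z = 0 := by
    have : z ∉ tsupport (fderiv ℝ φ) := fun h => hz (tsupport_fderiv_subset ℝ h)
    exact image_eq_zero_of_notMem_tsupport this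
  unfold db
  rw [h1]
  simp

private theorem aucpb_db_cont {φ : ℂ → ℂ} (h : ContDiff ℝ (⊤ : ℕ∞) φ) : Continuous (db φ) := by
  have h1 : Continuous (fderiv ℝ φ) := h.continuous_fderiv (by simp)
  unfold db
  fun_prop

private theorem aucpb_core (h1 : S_aucp1) (h2 : S_chain) (h3 : S_bridge) (z0 : ℂ) (r ρ q : ℝ)
    (hr : 0 < r) (hrρ : r < ρ) (F A B : ℂ → ℂ) (hq0 : 0 ≤ q) (hq1 : q < 1)
    (hF : ContinuousOn F (ball z0 ρ)) (hW : WD (ball z0 ρ) F A B)
    (hB : ∀ᵐ z ∂(volume.restrict (ball z0 ρ)), ‖B z‖ ≤ q * ‖A z‖) (φ : ℂ → ℝ)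
    (hφ : RTF (ball z0 r) φ) :
    ∫ z, ((if F z = 0 then (0 : ℝ) else 1 : ℝ) : ℂ) * gr φ z = 0 := by
  obtain ⟨C, hC0, hC⟩ := h1 q hq0 hq1
  obtain ⟨η, hη, hη1⟩ := aucpb_bump z0 r ρ hr hrρ
  obtain ⟨M, hM⟩ := hη.2.1.isCompact.exists_bound_of_continuousOn (hF.mono hη.2.2)
  set D : Set ℂ := ball z0 ρ with hD
  have hDm : MeasurableSet D := measurableSet_ball
  set m : ℝ := 1 + Real.log (1 + M ^ 2) / 2 with hm
  set E0 : ℝ := ∫ z, ‖gr η z‖ ^ 2 with hE0
  have hE0' : 0 ≤ E0 := integral_nonneg fun _ => by positivity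
  set Q : ℝ := C * (1 + 4 * m ^ 2) * E0 with hQ
  have hQ0 : 0 ≤ Q := by positivity
  have hlogM : 0 ≤ Real.log (1 + M ^ 2) := Real.log_nonneg (by nlinarith [sq_nonneg M])
  have hm0 : 0 ≤ m := by positivity
  -- the support of `φ`
  have hφr : ∀ z, φ z ≠ 0 → z ∈ ball z0 r := fun z hz => hφ.2.2 (subset_tsupport _ hz)
  have hsub : ball z0 r ⊆ D := ball_subset_ball hrρ.le
  have hball : ∀ z ∈ ball z0 r, η z = 1 := fun z hz => hη1 z (ball_subset_closedBall hz)
  have hFM : ∀ z ∈ ball z0 r, ‖F z‖ ≤ M := fun z hz => hM z (subset_tsupport _ (by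
    rw [Function.mem_support, hball z hz]; norm_num))
  have hFM2 : ∀ z ∈ ball z0 r, ‖F z‖ ^ 2 ≤ M ^ 2 := fun z hz => by
    have := hFM z hz
    have h0 := norm_nonneg (F z)
    nlinarith
  have hφD : RTF D φ := ⟨hφ.1, hφ.2.1, hφ.2.2.trans hsub⟩
  have hTF : TF D (fun z => (φ z : ℂ)) := aucpb_TF hφD
  set L : ℕ → ℝ := fun n => (n : ℝ) + 1 with hL
  have hL1 : ∀ n, 1 ≤ L n := fun n => by
    have : (0 : ℝ) ≤ n := Nat.cast_nonneg n
    simp only [hL]; linarith
  have hL0 : ∀ n, 0 < L n := fun n => by linarith [hL1 n]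
  set ε : ℕ → ℝ := fun n => Real.exp (-(L n)) with hε
  have hε0 : ∀ n, 0 < ε n := fun n => Real.exp_pos _
  -- energies
  have hJ : ∀ n, IntegrableOn (fun z => η z ^ 2 * ‖A z‖ ^ 2 / (‖F z‖ ^ 2 + ε n ^ 2)) D volume ∧
      ∫ z in D, η z ^ 2 * ‖A z‖ ^ 2 / (‖F z‖ ^ 2 + ε n ^ 2) ≤ L n ^ 2 * Q := by
    intro n
    obtain ⟨hi, hle⟩ := hC D F A B η M (ε n) isOpen_ball hF hW hB hη hM (hε0 n)
    refine ⟨hi, hle.trans ?_⟩
    have h4 : Real.log (1 + M ^ 2 / ε n ^ 2) = 2 * L n * al (ε n) (L n) (M ^ 2) := by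
      unfold al
      have := hL0 n
      field_simp
    have h5 : al (ε n) (L n) (M ^ 2) ≤ m := al_le (hL1 n) (by positivity) le_rfl
    have h6 : 0 ≤ al (ε n) (L n) (M ^ 2) := al_nonneg (hL0 n) (by positivity)
    have h7 : al (ε n) (L n) (M ^ 2) ^ 2 ≤ m ^ 2 := by nlinarith
    have h8 : 1 ≤ L n ^ 2 := by nlinarith [hL1 n]
    rw [h4, hQ]
    have h9 : 1 + (2 * L n * al (ε n) (L n) (M ^ 2)) ^ 2 ≤ L n ^ 2 * (1 + 4 * m ^ 2) := by
      have : (2 * L n * al (ε n) (L n) (M ^ 2)) ^ 2 =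
        L n ^ 2 * (4 * al (ε n) (L n) (M ^ 2) ^ 2) := by ring
      rw [this, mul_add]
      have : L n ^ 2 * (4 * al (ε n) (L n) (M ^ 2) ^ 2) ≤ L n ^ 2 * (4 * m ^ 2) :=
        mul_le_mul_of_nonneg_left (by linarith) (by positivity)
      linarith
    calc C * (1 + (2 * L n * al (ε n) (L n) (M ^ 2)) ^ 2) * E0
        ≤ C * (L n ^ 2 * (1 + 4 * m ^ 2)) * E0 := by gcongr
      _ = L n ^ 2 * (C * (1 + 4 * m ^ 2) * E0) := by ring
  -- the remainder
  set R : ℕ → ℝ := fun n => ∫ z in D, (aT' (al (ε n) (L n) (‖F z‖ ^ 2)) * φ z) ^ 2 with hR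
  have halc : ∀ n, ContinuousOn (fun z => al (ε n) (L n) (‖F z‖ ^ 2)) D := by
    intro n
    unfold al
    refine ContinuousOn.div_const (ContinuousOn.log ?_ ?_) _
    · exact continuousOn_const.add ((hF.norm.pow 2).div_const _)
    · intro z _
      have := hε0 n
      positivity
  have hφc : Continuous φ := hφ.1.continuous
  have hRc : ∀ n, ContinuousOn (fun z => (aT' (al (ε n) (L n) (‖F z‖ ^ 2)) * φ z) ^ 2) D :=
    fun n => ((aT'_cont.comp_continuousOn (halc n)).mul hφc.continuousOn).pow 2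
  have hφ2 : Integrable (fun z => (6 * m * (1 + m)) ^ 2 * φ z ^ 2) volume := by
    refine Integrable.const_mul ?_ _
    refine Continuous.integrable_of_hasCompactSupport (hφc.pow 2) ?_
    exact hφ.2.1.comp_left (g := fun x : ℝ => x ^ 2) (by simp)
  have hRb : ∀ n z, ‖(aT' (al (ε n) (L n) (‖F z‖ ^ 2)) * φ z) ^ 2‖ ≤
      (6 * m * (1 + m)) ^ 2 * φ z ^ 2 := by
    intro n z
    rw [Real.norm_eq_abs, abs_of_nonneg (by positivity), mul_pow]
    by_cases hz : φ z = 0
    · rw [hz]; simp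
    · have hz' := hφr z hz
      have h4 := aT'_bd (al_nonneg (hL0 n) (by positivity)) (al_le (hL1 n) (by positivity)
        (hFM2 z hz'))
      refine mul_le_mul_of_nonneg_right ?_ (by positivity)
      rw [← sq_abs]
      exact pow_le_pow_left₀ (abs_nonneg _) h4 2
  have hRi : ∀ n, IntegrableOn (fun z => (aT' (al (ε n) (L n) (‖F z‖ ^ 2)) * φ z) ^ 2) D
      volume := fun n => Integrable.mono' hφ2.integrableOn
        ((hRc n).aestronglyMeasurable hDm) (Eventually.of_forall (hRb n))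
  have hR0 : Tendsto R atTop (𝓝 0) := by
    have h4 : Tendsto R atTop (𝓝 (∫ z in D, (0 : ℝ))) := by
      refine tendsto_integral_of_dominated_convergence
        (fun z => (6 * m * (1 + m)) ^ 2 * φ z ^ 2)
        (fun n => (hRc n).aestronglyMeasurable hDm) hφ2.integrableOn
        (fun n => Eventually.of_forall (hRb n)) ?_
      refine Eventually.of_forall fun z => ?_
      have h5 := al_tendsto (s := ‖F z‖ ^ 2) (by positivity)
      have h6 := (aT'_cont.tendsto _).comp h5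
      have h7 : aT' (if ‖F z‖ ^ 2 = 0 then 0 else 1) = 0 := by
        split_ifs <;> norm_num [aT']
      rw [h7] at h6
      have h8 := (h6.mul_const (φ z)).pow 2
      rw [zero_mul, zero_pow two_ne_zero] at h8
      exact h8
    simpa using h4
  -- the identities
  have hn : ∀ n (δ : ℝ), 0 < δ →
      ‖∫ z in D, aG (ε n) (L n) (F z) * db (fun w => (φ w : ℂ)) z‖ ≤ δ * Q + R n / δ := by
    intro n δ hδ
    have hWn := h2 D univ F A B (aG (ε n) (L n)) isOpen_ball isOpen_univ hW hF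
      (mapsTo_univ _ _) (aG_contDiff (hε0 n)).contDiffOn
    have h4 := hWn.hB _ hTF
    have h5 : ∀ z, z ∉ D → φ z = 0 := fun z hz => by
      by_contra h
      exact hz (hsub (hφr z h))
    have h6 : ∀ z, z ∉ D → db (fun w => (φ w : ℂ)) z = 0 := fun z hz =>
      aucpb_db_supp (fun h => hz (hTF.2.2 h))
    rw [setIntegral_eq_integral_of_forall_compl_eq_zero (fun z hz => by rw [h6 z hz, mul_zero]),
      h4, norm_neg, ← setIntegral_eq_integral_of_forall_compl_eq_zero (s := D)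
        (fun z hz => by rw [h5 z hz, ofReal_zero, mul_zero])]
    have hbi : Integrable (fun z => δ / L n ^ 2 * (η z ^ 2 * ‖A z‖ ^ 2 /
        (‖F z‖ ^ 2 + ε n ^ 2)) + 1 / δ * (aT' (al (ε n) (L n) (‖F z‖ ^ 2)) * φ z) ^ 2)
        (volume.restrict D) := ((hJ n).1.const_mul _).add ((hRi n).const_mul _)
    refine (norm_integral_le_of_norm_le hbi ?_).trans ?_
    · filter_upwards [hB] with z hz
      by_cases hz0 : φ z = 0
      · rw [hz0, ofReal_zero, mul_zero, norm_zero]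
        have := hL0 n
        positivity
      · have hzr := hφr z hz0
        rw [hball z hzr, norm_mul, norm_real, Real.norm_eq_abs]
        obtain ⟨g1, g2⟩ := aG_dz (hε0 n) (hL0 n) (F z)
        set t : ℝ := |aT' (al (ε n) (L n) (‖F z‖ ^ 2))| with ht
        set a : ℝ := ‖F z‖ / ((ε n ^ 2 + ‖F z‖ ^ 2) * L n) with ha
        have hLn := hL0 n
        have hεn := hε0 n
        have hFn := norm_nonneg (F z)
        have ha0 : 0 ≤ a := by positivity
        have ht0 : 0 ≤ t := abs_nonneg _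
        have hBA : ‖B z‖ ≤ ‖A z‖ := hz.trans (by nlinarith [norm_nonneg (A z)])
        have g3 : ‖dz (aG (ε n) (L n)) (F z) * B z + db (aG (ε n) (L n)) (F z) * conj (A z)‖ ≤
            2 * (t * a * ‖A z‖) := by
          refine (norm_add_le _ _).trans ?_
          rw [norm_mul, norm_mul, RCLike.norm_conj]
          have g4 := mul_le_mul g1 hBA (norm_nonneg _) (mul_nonneg ht0 ha0)
          have g5 := mul_le_mul_of_nonneg_right g2 (norm_nonneg (A z))
          linarith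
        have g6 : a ^ 2 ≤ 1 / L n ^ 2 * (1 / (‖F z‖ ^ 2 + ε n ^ 2)) := by
          rw [ha, div_pow, mul_pow, div_mul_div_comm, one_mul,
            div_le_div_iff₀ (by positivity) (by positivity)]
          have h7 : ‖F z‖ ^ 2 ≤ ε n ^ 2 + ‖F z‖ ^ 2 := by
            have : 0 ≤ ε n ^ 2 := by positivity
            linarith
          have h8 : ‖F z‖ ^ 2 * (ε n ^ 2 + ‖F z‖ ^ 2) ≤ (ε n ^ 2 + ‖F z‖ ^ 2) ^ 2 := by
            rw [sq (ε n ^ 2 + ‖F z‖ ^ 2)]
            exact mul_le_mul_of_nonneg_right h7 (by positivity)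
          have h9 : 0 ≤ L n ^ 2 := by positivity
          nlinarith [mul_le_mul_of_nonneg_left h8 h9]
        have g7 : 2 * (t * a * ‖A z‖) * |φ z| ≤
            δ * (a * ‖A z‖) ^ 2 + 1 / δ * (t * |φ z|) ^ 2 := by
          have h7 : 0 ≤ (δ * (a * ‖A z‖) - t * |φ z|) ^ 2 / δ := by positivity
          have h8 : (δ * (a * ‖A z‖) - t * |φ z|) ^ 2 / δ =
              δ * (a * ‖A z‖) ^ 2 - 2 * (t * a * ‖A z‖) * |φ z| + 1 / δ * (t * |φ z|) ^ 2 := by
            field_simp
            ring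
          linarith
        have g8 : (t * |φ z|) ^ 2 = (aT' (al (ε n) (L n) (‖F z‖ ^ 2)) * φ z) ^ 2 := by
          rw [mul_pow, mul_pow, ht, sq_abs, sq_abs]
        have g9 : δ * (a * ‖A z‖) ^ 2 ≤
            δ / L n ^ 2 * (1 ^ 2 * ‖A z‖ ^ 2 / (‖F z‖ ^ 2 + ε n ^ 2)) := by
          have h7 := mul_le_mul_of_nonneg_right g6 (by positivity : 0 ≤ δ * ‖A z‖ ^ 2)
          calc δ * (a * ‖A z‖) ^ 2 = a ^ 2 * (δ * ‖A z‖ ^ 2) := by ring
            _ ≤ _ := h7
            _ = _ := by field_simp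
        calc _ ≤ 2 * (t * a * ‖A z‖) * |φ z| :=
              mul_le_mul_of_nonneg_right g3 (abs_nonneg _)
          _ ≤ δ * (a * ‖A z‖) ^ 2 + 1 / δ * (t * |φ z|) ^ 2 := g7
          _ ≤ _ := by rw [g8]; exact add_le_add g9 le_rfl
    · rw [integral_add ((hJ n).1.const_mul _) ((hRi n).const_mul _), integral_const_mul,
        integral_const_mul]
      have hLn := hL0 n
      have h7 : δ / L n ^ 2 * ∫ z in D, η z ^ 2 * ‖A z‖ ^ 2 / (‖F z‖ ^ 2 + ε n ^ 2) ≤ δ * Q := by
        refine (mul_le_mul_of_nonneg_left (hJ n).2 (by positivity)).trans (le_of_eq ?_)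
        field_simp
      have h8 : 1 / δ * ∫ z in D, (aT' (al (ε n) (L n) (‖F z‖ ^ 2)) * φ z) ^ 2 = R n / δ := by
        rw [hR]; ring
      rw [h8]
      linarith
  -- the limit
  have hlim : Tendsto (fun n => ∫ z in D, aG (ε n) (L n) (F z) * db (fun w => (φ w : ℂ)) z)
      atTop (𝓝 (∫ z in D, ((if F z = 0 then (0 : ℝ) else 1 : ℝ) : ℂ) *
        db (fun w => (φ w : ℂ)) z)) := by
    have hdc : Continuous (db (fun w => (φ w : ℂ))) := aucpb_db_cont hTF.1
    have hdi : Integrable (fun z => 3 * m ^ 2 * (1 + m) * ‖db (fun w => (φ w : ℂ)) z‖)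
        volume := by
      refine Integrable.const_mul ?_ _
      refine Continuous.integrable_of_hasCompactSupport hdc.norm ?_
      refine HasCompactSupport.intro hφ.2.1.isCompact fun z hz => ?_
      rw [aucpb_db_supp (by rw [aucpb_tsupp]; exact hz), norm_zero]
    refine tendsto_integral_of_dominated_convergence
      (fun z => 3 * m ^ 2 * (1 + m) * ‖db (fun w => (φ w : ℂ)) z‖) ?_ hdi.integrableOn ?_ ?_
    · intro n
      refine ContinuousOn.aestronglyMeasurable ?_ hDm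
      refine ContinuousOn.mul ?_ hdc.continuousOn
      exact continuous_ofReal.comp_continuousOn (aT_cont.comp_continuousOn (halc n))
    · intro n
      refine Eventually.of_forall fun z => ?_
      rw [norm_mul]
      by_cases hz : z ∈ ball z0 r
      · refine mul_le_mul_of_nonneg_right ?_ (norm_nonneg _)
        unfold aG
        rw [norm_real, Real.norm_eq_abs]
        exact aT_bd (al_nonneg (hL0 n) (by positivity)) (al_le (hL1 n) (by positivity)
          (hFM2 z hz))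
      · have h7 : db (fun w => (φ w : ℂ)) z = 0 :=
          aucpb_db_supp (fun h => hz (hφ.2.2 (by rwa [aucpb_tsupp] at h)))
        rw [h7]; simp
    · refine Eventually.of_forall fun z => ?_
      refine Tendsto.mul_const _ ?_
      have h5 := al_tendsto (s := ‖F z‖ ^ 2) (by positivity)
      have h6 := (continuous_ofReal.tendsto _).comp ((aT_cont.tendsto _).comp h5)
      have h7 : aT (if ‖F z‖ ^ 2 = 0 then 0 else 1) = if F z = 0 then 0 else 1 := by
        by_cases hz : F z = 0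
        · rw [if_pos hz, if_pos (by rw [hz]; simp)]; simp [aT]
        · rw [if_neg hz, if_neg (by positivity)]; norm_num [aT]
      rw [h7] at h6
      exact h6
  have hzero : ‖∫ z in D, ((if F z = 0 then (0 : ℝ) else 1 : ℝ) : ℂ) *
        db (fun w => (φ w : ℂ)) z‖ ≤ 0 := by
    have h7 : ∀ δ : ℝ, 0 < δ → ‖∫ z in D, ((if F z = 0 then (0 : ℝ) else 1 : ℝ) : ℂ) *
        db (fun w => (φ w : ℂ)) z‖ ≤ δ * Q := by
      intro δ hδ
      have h8 : Tendsto (fun n => δ * Q + R n / δ) atTop (𝓝 (δ * Q + 0 / δ)) :=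
        (hR0.div_const δ).const_add _
      rw [zero_div, add_zero] at h8
      exact le_of_tendsto_of_tendsto' hlim.norm h8 fun n => hn n δ hδ
    have h8 : Tendsto (fun δ : ℝ => δ * Q) (𝓝[>] 0) (𝓝 (0 * Q)) :=
      ((continuous_id.mul continuous_const).tendsto 0).mono_left nhdsWithin_le_nhds
    rw [zero_mul] at h8
    refine ge_of_tendsto h8 ?_
    filter_upwards [self_mem_nhdsWithin] with δ hδ
    exact h7 δ hδ
  have hfin := norm_le_zero_iff.1 hzero
  have h9 : ∀ z, ((if F z = 0 then (0 : ℝ) else 1 : ℝ) : ℂ) * gr φ z =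
      2 * (((if F z = 0 then (0 : ℝ) else 1 : ℝ) : ℂ) * db (fun w => (φ w : ℂ)) z) := by
    intro z
    rw [h3.2.2.2 φ z (hφ.1.differentiable (by simp) z)]
    ring
  simp_rw [h9]
  rw [integral_const_mul, ← setIntegral_eq_integral_of_forall_compl_eq_zero (s := D), hfin,
    mul_zero]
  intro z hz
  rw [aucpb_db_supp (fun h => hz (hTF.2.2 h)), mul_zero]

theorem piece_aucpb (h1 : S_aucp1) (h2 : S_chain) (h3 : S_bridge) (h4 : S_basic)
    (h5 : S_smooth) (h6 : S_aconst) : S_aucpb := by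
  intro z0 ρ q F A B hq0 hq1 hF hW hB V hVo hVne hVsub hV0 z hz
  obtain ⟨v, hv⟩ := hVne
  have hvD := hVsub hv
  rw [mem_ball] at hz hvD
  -- choose the smaller ball
  obtain ⟨r, hr1, hr2⟩ : ∃ r, max (dist z z0) (dist v z0) < r ∧ r < ρ :=
    exists_between (max_lt hz hvD)
  have hzr : dist z z0 < r := (le_max_left _ _).trans_lt hr1
  have hvr : dist v z0 < r := (le_max_right _ _).trans_lt hr1
  have hr : 0 < r := dist_nonneg.trans_lt hzr
  have hsub : ball z0 r ⊆ ball z0 ρ := ball_subset_ball hr2.le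
  set e : ℂ → ℝ := fun z => if F z = 0 then (0 : ℝ) else 1 with he
  -- `e` is measurable on the big ball
  have hem : AEStronglyMeasurable e (volume.restrict (ball z0 ρ)) := by
    refine aestronglyMeasurable_of_tendsto_ae atTop
      (f := fun (n : ℕ) z => min 1 ((n : ℝ) * ‖F z‖)) (fun n => ?_) ?_
    · refine ContinuousOn.aestronglyMeasurable ?_ measurableSet_ball
      exact ContinuousOn.inf continuousOn_const (continuousOn_const.mul hF.norm)
    · refine Eventually.of_forall fun z => ?_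
      by_cases hz0 : F z = 0
      · simp only [he, hz0, if_true, norm_zero, mul_zero]
        refine tendsto_const_nhds.congr fun n => ?_
        norm_num
      · simp only [he, hz0, if_false]
        have hpos : 0 < ‖F z‖ := norm_pos_iff.2 hz0
        refine tendsto_const_nhds.congr' ?_
        obtain ⟨N, hN⟩ := exists_nat_gt (1 / ‖F z‖)
        filter_upwards [eventually_ge_atTop N] with n hn
        have h7 : (N : ℝ) ≤ n := by exact_mod_cast hn
        have h8 : 1 ≤ (n : ℝ) * ‖F z‖ := by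
          have := (div_lt_iff₀ hpos).1 hN
          nlinarith
        rw [min_eq_left h8]
  have hWG : WG (ball z0 r) e (fun _ => 0) := by
    refine ⟨?_, ?_, ?_⟩
    · intro K hK hKs
      have hfin : IsFiniteMeasure (volume.restrict K) := ⟨by
        rw [Measure.restrict_apply_univ]; exact hK.measure_lt_top⟩
      refine MemLp.of_bound ?_ 1 (Eventually.of_forall fun z => ?_)
      · have h7 : AEStronglyMeasurable e (volume.restrict K) :=
          hem.mono_measure (Measure.restrict_mono (hKs.trans hsub) le_rfl)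
        exact continuous_ofReal.comp_aestronglyMeasurable h7
      · rw [norm_real, Real.norm_eq_abs]
        simp only [he]
        split_ifs <;> norm_num
    · intro K hK hKs
      exact MemLp.zero'
    · intro φ hφ
      rw [aucpb_core h1 h2 h3 z0 r ρ q hr hr2 F A B hq0 hq1 hF hW hB φ hφ]
      simp
  obtain ⟨c, hc⟩ := (h6 (ball z0 r) e (fun _ => 0) isOpen_ball
    (convex_ball z0 r).isPreconnected hWG (Eventually.of_forall fun _ => rfl)).1
  -- the constant is zero
  have hc0 : c = 0 := by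
    by_contra hne
    have h7 : volume (V ∩ ball z0 r) = 0 := by
      rw [ae_restrict_iff' measurableSet_ball, ae_iff] at hc
      refine measure_mono_null ?_ hc
      intro w hw
      simp only [mem_ofPred_eq, Classical.not_imp]
      refine ⟨hw.2, ?_⟩
      simp only [he, hV0 w hw.1, if_true]
      exact fun h => hne h.symm
    have h8 : 0 < volume (V ∩ ball z0 r) :=
      (hVo.inter isOpen_ball).measure_pos volume ⟨v, hv, hvr⟩
    exact h8.ne' h7
  have hF0 : F =ᵐ[volume.restrict (ball z0 r)] fun _ => 0 := by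
    filter_upwards [hc] with w hw
    by_contra hne
    simp only [he, if_neg hne, hc0] at hw
    norm_num at hw
  exact Measure.eqOn_open_of_ae_eq hF0 isOpen_ball (hF.mono hsub) continuousOn_const hzr

end

end Cal
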