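import Pool.Agent.Lib.MP_4ea4c7_an.StmH1

/-!
[a15] Weak compactness.
-/

open MeasureTheory Complex Metric Set Filter Topology
open scoped ComplexConjugate ENNReal NNReal

namespace Cal

noncomputable section

/-- a bounded sequence in a Hilbert space, whose pairings with a dense set converge, converges weakly -/
private theorem awl_hilb {H : Type*} [NormedAddCommGroup H] [InnerProductSpace ℂ H] [CompleteSpace H]
    (x : ℕ → H) (C : ℝ) (hC : ∀ n, ‖x n‖ ≤ C) (D : Set H)
    (hD : ∀ d ∈ D, ∃ l, Tendsto (fun n => inner ℂ (x n) d) atTop (𝓝 l))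
    (hden : ∀ y : H, (∀ d ∈ D, inner ℂ d y = 0) → y = 0) :
    ∃ x0 : H, ∀ y, Tendsto (fun n => inner ℂ (x n) y) atTop (𝓝 (inner ℂ x0 y)) := by
  let S : Submodule ℂ H :=
    { carrier := {y | ∃ l, Tendsto (fun n => inner ℂ (x n) y) atTop (𝓝 l)}
      add_mem' := by
        rintro a b ⟨la, ha⟩ ⟨lb, hb⟩
        exact ⟨la + lb, by simpa [inner_add_right] using ha.add hb⟩
      zero_mem' := ⟨0, by simp⟩
      smul_mem' := by
        rintro c a ⟨la, ha⟩
        exact ⟨c * la, by simpa [inner_smul_right] using ha.const_mul c⟩ }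
  have hS : ∀ y, y ∈ S ↔ ∃ l, Tendsto (fun n => inner ℂ (x n) y) atTop (𝓝 l) := fun y => Iff.rfl
  have horth : Sᗮ = ⊥ := by
    rw [Submodule.eq_bot_iff]
    intro y hy
    refine hden y fun d hd => ?_
    exact (Submodule.mem_orthogonal S y).1 hy d ((hS d).2 (hD d hd))
  have hdense : ∀ y : H, y ∈ closure (S : Set H) := by
    have h := Submodule.topologicalClosure_eq_top_iff.2 horth
    intro y
    have : y ∈ S.topologicalClosure := by rw [h]; trivial
    exact this
  have hall : ∀ y : H, ∃ l, Tendsto (fun n => inner ℂ (x n) y) atTop (𝓝 l) := by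
    intro y
    refine cauchySeq_tendsto_of_complete ?_
    rw [Metric.cauchySeq_iff']
    intro ε hε
    have hC0 : 0 ≤ C := (norm_nonneg _).trans (hC 0)
    obtain ⟨d, hd, hdist⟩ := Metric.mem_closure_iff.1 (hdense y) (ε / (4 * (C + 1))) (by positivity)
    obtain ⟨l, hl⟩ := (hS d).1 hd
    obtain ⟨N, hN⟩ := Metric.cauchySeq_iff'.1 hl.cauchySeq (ε / 4) (by positivity)
    have hb : ∀ n, ‖inner ℂ (x n) y - inner ℂ (x n) d‖ ≤ ε / 4 := by
      intro n
      rw [← inner_sub_right]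
      refine (norm_inner_le_norm _ _).trans ?_
      rw [dist_eq_norm] at hdist
      calc ‖x n‖ * ‖y - d‖ ≤ C * (ε / (4 * (C + 1))) := by
            gcongr
            exact hC n
        _ ≤ (C + 1) * (ε / (4 * (C + 1))) := by gcongr; linarith
        _ = ε / 4 := by field_simp
    refine ⟨N, fun n hn => ?_⟩
    have h1 := hb n
    have h2 := hb N
    have h3 := hN n hn
    rw [dist_eq_norm] at h3 ⊢
    calc ‖inner ℂ (x n) y - inner ℂ (x N) y‖
        = ‖(inner ℂ (x n) y - inner ℂ (x n) d) + (inner ℂ (x n) d - inner ℂ (x N) d) -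
            (inner ℂ (x N) y - inner ℂ (x N) d)‖ := by congr 1; ring
      _ ≤ ‖inner ℂ (x n) y - inner ℂ (x n) d‖ + ‖inner ℂ (x n) d - inner ℂ (x N) d‖ +
            ‖inner ℂ (x N) y - inner ℂ (x N) d‖ := (norm_sub_le _ _).trans (by gcongr; exact norm_add_le _ _)
      _ < ε := by linarith
  choose f hf using hall
  let L : H →L[ℂ] ℂ := continuousLinearMapOfTendsto (fun n => innerSL ℂ (x n)) (f := f) (l := atTop)
    (tendsto_pi_nhds.2 fun y => by simpa using hf y)
  have hL : ∀ y, L y = f y := fun y => rfl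
  refine ⟨(InnerProductSpace.toDual ℂ H).symm L, fun y => ?_⟩
  rw [InnerProductSpace.toDual_symm_apply, hL]
  exact hf y

/-- a weight -/
private theorem awl_weight {U : Set ℂ} (hU : IsOpen U) (An : ℕ → ℂ → ℂ) (hA : ∀ n, L2loc U (An n))
    (hb : ∀ K : Set ℂ, IsCompact K → K ⊆ U → ∃ M : ℝ, ∀ᶠ n in atTop,
      eLpNorm (An n) 2 (volume.restrict K) ≤ ENNReal.ofReal M) :
    ∃ W : ℂ → ℝ, Measurable W ∧ (∀ z, 0 ≤ W z) ∧ (∀ z ∈ U, 0 < W z) ∧
      (∀ K : Set ℂ, IsCompact K → K ⊆ U → ∃ c : ℝ, 0 < c ∧ ∀ z ∈ K, c ≤ W z) ∧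
      (∀ n, MemLp (fun z => (W z : ℂ) * An n z) 2 (volume.restrict U)) ∧
      ∀ n, eLpNorm (fun z => (W z : ℂ) * An n z) 2 (volume.restrict U) ≤ 1 := by
  -- the exhaustion
  let Kj : ℕ → Set ℂ := fun j => closedBall 0 j ∩ {z | ∀ y, y ∉ U → 1 / ((j : ℝ) + 1) ≤ dist z y}
  have hKc : ∀ j, IsCompact (Kj j) := by
    intro j
    refine (isCompact_closedBall (0 : ℂ) j).inter_right ?_
    have : {z : ℂ | ∀ y, y ∉ U → 1 / ((j : ℝ) + 1) ≤ dist z y} = ⋂ y, ⋂ (_ : y ∉ U), {z | 1 / ((j : ℝ) + 1) ≤ dist z y} := by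
      ext z; simp
    rw [this]
    exact isClosed_iInter fun y => isClosed_iInter fun _ =>
      isClosed_le continuous_const (continuous_id.dist continuous_const)
  have hKU : ∀ j, Kj j ⊆ U := by
    intro j z hz
    by_contra h
    have := hz.2 z h
    rw [dist_self] at this
    have h2 : (0 : ℝ) < 1 / ((j : ℝ) + 1) := by positivity
    linarith
  have hcof : ∀ K : Set ℂ, IsCompact K → K ⊆ U → ∃ j, K ⊆ Kj j := by
    intro K hK hKs
    obtain ⟨δ, hδ, hth⟩ := hK.exists_thickening_subset_open hU hKs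
    obtain ⟨R, hR⟩ := hK.isBounded.subset_closedBall (0 : ℂ)
    obtain ⟨j1, hj1⟩ := exists_nat_gt R
    obtain ⟨j2, hj2⟩ := exists_nat_one_div_lt hδ
    refine ⟨max j1 j2, fun z hz => ⟨?_, fun y hy => ?_⟩⟩
    · have h1 := hR hz
      rw [mem_closedBall] at h1 ⊢
      have h2 : (j1 : ℝ) ≤ ((max j1 j2 : ℕ) : ℝ) := by exact_mod_cast le_max_left _ _
      linarith
    · by_contra hlt
      push Not at hlt
      have h2 : (j2 : ℝ) ≤ ((max j1 j2 : ℕ) : ℝ) := by exact_mod_cast le_max_right _ _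
      have h3 : 1 / (((max j1 j2 : ℕ) : ℝ) + 1) ≤ 1 / ((j2 : ℝ) + 1) := by gcongr
      exact hy (hth (mem_thickening_iff.2 ⟨z, hz, by rw [dist_comm]; linarith⟩))
  have hUun : U = ⋃ j, Kj j := by
    apply Subset.antisymm
    · intro z hz
      obtain ⟨j, hj⟩ := hcof {z} isCompact_singleton (singleton_subset_iff.2 hz)
      exact mem_iUnion.2 ⟨j, hj rfl⟩
    · exact iUnion_subset hKU
  -- the norms
  have hSfin : ∀ j, ∃ M : ℝ≥0∞, M ≠ ∞ ∧ ∀ n, eLpNorm (An n) 2 (volume.restrict (Kj j)) ≤ M := by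
    intro j
    obtain ⟨M, hM⟩ := hb (Kj j) (hKc j) (hKU j)
    obtain ⟨N, hN⟩ := eventually_atTop.1 hM
    refine ⟨ENNReal.ofReal M + ∑ n ∈ Finset.range N, eLpNorm (An n) 2 (volume.restrict (Kj j)), ?_, fun n => ?_⟩
    · refine ENNReal.add_ne_top.2 ⟨ENNReal.ofReal_ne_top, ?_⟩
      exact (ENNReal.sum_lt_top.2 fun n _ => (hA n (Kj j) (hKc j) (hKU j)).2).ne
    · by_cases hn : N ≤ n
      · exact (hN n hn).trans le_self_add
      · refine le_trans ?_ le_add_self
        exact Finset.single_le_sum (f := fun n => eLpNorm (An n) 2 (volume.restrict (Kj j)))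
          (fun i _ => bot_le) (Finset.mem_range.2 (by omega))
  choose M hMt hM using hSfin
  obtain ⟨δ, hδ, hsum⟩ := ENNReal.exists_pos_tsum_mul_lt_of_countable (one_ne_zero : (1 : ℝ≥0∞) ≠ 0)
    (fun j => M j ^ (2:ℝ) + 1) (fun j => ENNReal.add_ne_top.2 ⟨ENNReal.rpow_ne_top_of_nonneg (by norm_num) (hMt j), ENNReal.one_ne_top⟩)
  let V : ℂ → ℝ≥0∞ := fun z => ∑' j, (Kj j).indicator (fun _ => (δ j : ℝ≥0∞)) z
  have hVm : Measurable V := by
    refine Measurable.ennreal_tsum fun j => ?_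
    exact measurable_const.indicator (hKc j).measurableSet
  have hV1 : ∀ z, V z ≤ 1 := by
    intro z
    refine le_trans ?_ hsum.le
    refine ENNReal.tsum_le_tsum fun j => ?_
    refine (indicator_le_self' (fun _ _ => bot_le) z).trans ?_
    calc (δ j : ℝ≥0∞) = 1 * δ j := (one_mul _).symm
      _ ≤ (M j ^ (2:ℝ) + 1) * δ j := by gcongr; exact le_add_self
  have hVt : ∀ z, V z ≠ ∞ := fun z => ne_top_of_le_ne_top ENNReal.one_ne_top (hV1 z)
  have hVlow : ∀ j, ∀ z ∈ Kj j, (δ j : ℝ≥0∞) ≤ V z := by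
    intro j z hz
    have := ENNReal.le_tsum (f := fun j => (Kj j).indicator (fun _ => (δ j : ℝ≥0∞)) z) j
    simpa [indicator_of_mem hz] using this
  let W : ℂ → ℝ := fun z => Real.sqrt (V z).toReal
  have hWm : Measurable W := hVm.ennreal_toReal.sqrt
  have hWsq : ∀ z, ‖(W z : ℂ)‖ₑ ^ (2:ℝ) = V z := by
    intro z
    rw [← ofReal_norm_eq_enorm, Complex.norm_real, Real.norm_eq_abs, abs_of_nonneg (Real.sqrt_nonneg _),
      ENNReal.ofReal_rpow_of_nonneg (Real.sqrt_nonneg _) (by norm_num), Real.rpow_two,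
      Real.sq_sqrt ENNReal.toReal_nonneg, ENNReal.ofReal_toReal (hVt z)]
  have hWlow : ∀ j, ∀ z ∈ Kj j, Real.sqrt (δ j) ≤ W z := by
    intro j z hz
    refine Real.sqrt_le_sqrt ?_
    have h1 := ENNReal.toReal_mono (hVt z) (hVlow j z hz)
    simpa using h1
  have hWmeas : ∀ n, AEStronglyMeasurable (fun z => (W z : ℂ) * An n z) (volume.restrict U) := by
    intro n
    rw [hUun, aestronglyMeasurable_iUnion_iff]
    intro j
    exact (Complex.measurable_ofReal.comp hWm).aestronglyMeasurable.mul (hA n (Kj j) (hKc j) (hKU j)).1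
  have hint : ∀ n, ∫⁻ z in U, ‖(W z : ℂ) * An n z‖ₑ ^ (2:ℝ) ≤ 1 := by
    intro n
    have hterm : ∀ j, AEMeasurable (fun z => (Kj j).indicator (fun z => (δ j : ℝ≥0∞) * ‖An n z‖ₑ ^ (2:ℝ)) z) (volume.restrict U) := by
      intro j
      have h1 : AEMeasurable (fun z => (δ j : ℝ≥0∞) * ‖An n z‖ₑ ^ (2:ℝ)) ((volume.restrict U).restrict (Kj j)) := by
        rw [Measure.restrict_restrict (hKc j).measurableSet, inter_eq_self_of_subset_left (hKU j)]
        exact ((hA n (Kj j) (hKc j) (hKU j)).1.enorm.pow_const _).const_mul _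
      exact (aemeasurable_indicator_iff (hKc j).measurableSet).2 h1
    calc ∫⁻ z in U, ‖(W z : ℂ) * An n z‖ₑ ^ (2:ℝ)
        = ∫⁻ z in U, ∑' j, (Kj j).indicator (fun z => (δ j : ℝ≥0∞) * ‖An n z‖ₑ ^ (2:ℝ)) z := by
          refine lintegral_congr fun z => ?_
          rw [enorm_mul, ENNReal.mul_rpow_of_nonneg _ _ (by norm_num), hWsq]
          rw [← ENNReal.tsum_mul_right]
          refine tsum_congr fun j => ?_
          by_cases hz : z ∈ Kj j
          · rw [indicator_of_mem hz, indicator_of_mem hz]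
          · rw [indicator_of_notMem hz, indicator_of_notMem hz, zero_mul]
      _ = ∑' j, ∫⁻ z in U, (Kj j).indicator (fun z => (δ j : ℝ≥0∞) * ‖An n z‖ₑ ^ (2:ℝ)) z := lintegral_tsum hterm
      _ ≤ ∑' j, (M j ^ (2:ℝ) + 1) * δ j := by
          refine ENNReal.tsum_le_tsum fun j => ?_
          rw [lintegral_indicator (hKc j).measurableSet, Measure.restrict_restrict (hKc j).measurableSet,
            inter_eq_self_of_subset_left (hKU j), lintegral_const_mul' _ _ ENNReal.coe_ne_top, mul_comm]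
          gcongr
          have e : ∫⁻ z in Kj j, ‖An n z‖ₑ ^ (2:ℝ) = eLpNorm (An n) 2 (volume.restrict (Kj j)) ^ (2:ℝ) := by
            rw [eLpNorm_eq_lintegral_rpow_enorm_toReal two_ne_zero ENNReal.ofNat_ne_top, ← ENNReal.rpow_mul]
            simp
          rw [e]
          exact (ENNReal.rpow_le_rpow (hM j n) (by norm_num)).trans le_self_add
      _ ≤ 1 := hsum.le
  have hnorm : ∀ n, eLpNorm (fun z => (W z : ℂ) * An n z) 2 (volume.restrict U) ≤ 1 := by
    intro n
    rw [eLpNorm_eq_lintegral_rpow_enorm_toReal two_ne_zero ENNReal.ofNat_ne_top]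
    have h1 := hint n
    refine (ENNReal.rpow_le_rpow (z := 1 / (2 : ℝ≥0∞).toReal) (by simpa using h1) (by positivity)).trans ?_
    rw [ENNReal.one_rpow]
  refine ⟨W, hWm, fun z => Real.sqrt_nonneg _, fun z hz => ?_, fun K hK hKs => ?_, fun n => ⟨hWmeas n, ?_⟩, hnorm⟩
  · rw [hUun] at hz
    obtain ⟨j, hj⟩ := mem_iUnion.1 hz
    exact lt_of_lt_of_le (Real.sqrt_pos.2 (hδ j)) (hWlow j z hj)
  · obtain ⟨j, hj⟩ := hcof K hK hKs
    exact ⟨Real.sqrt (δ j), Real.sqrt_pos.2 (hδ j), fun z hz => hWlow j z (hj hz)⟩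
  · exact lt_of_le_of_lt (hnorm n) ENNReal.one_lt_top

/-- weak limits of one family -/
private theorem awl_core {U : Set ℂ} (hU : IsOpen U) (An : ℕ → ℂ → ℂ) (hA : ∀ n, L2loc U (An n))
    (hb : ∀ K : Set ℂ, IsCompact K → K ⊆ U → ∃ M : ℝ, ∀ᶠ n in atTop,
      eLpNorm (An n) 2 (volume.restrict K) ≤ ENNReal.ofReal M)
    (hc : ∀ φ : ℂ → ℂ, TF U φ → ∃ l, Tendsto (fun n => ∫ z, An n z * φ z) atTop (𝓝 l)) :
    ∃ A : ℂ → ℂ, L2loc U A ∧ ∀ K : Set ℂ, IsCompact K → K ⊆ U → ∀ φ : ℂ → ℂ, MemLp φ 2 (volume.restrict K) →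
      Tendsto (fun n => ∫ z in K, An n z * φ z) atTop (𝓝 (∫ z in K, A z * φ z)) := by
  obtain ⟨W, hWm, hW0, hWp, hWK, hm, hn⟩ := awl_weight hU An hA hb
  have hmem : ∀ᵐ z ∂(volume.restrict U), z ∈ U := ae_restrict_mem hU.measurableSet
  let xf : ℕ → ℂ → ℂ := fun n z => conj ((W z : ℂ) * An n z)
  have hxf : ∀ n z, xf n z = conj ((W z : ℂ) * An n z) := fun n z => rfl
  have hx : ∀ n, MemLp (xf n) 2 (volume.restrict U) := by
    intro n
    refine (hm n).of_le (Complex.continuous_conj.comp_aestronglyMeasurable (hm n).1) ?_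
    filter_upwards with z
    rw [hxf, RCLike.norm_conj]
  let x : ℕ → Lp ℂ 2 (volume.restrict U) := fun n => (hx n).toLp (xf n)
  have hxn : ∀ n, ‖x n‖ ≤ 1 := by
    intro n
    have h1 : ‖x n‖ = (eLpNorm (xf n) 2 (volume.restrict U)).toReal := Lp.norm_toLp _ _
    rw [h1]
    have h2 : eLpNorm (xf n) 2 (volume.restrict U) ≤ 1 := by
      refine le_trans (eLpNorm_mono fun z => ?_) (hn n)
      rw [hxf, RCLike.norm_conj]
    exact ENNReal.toReal_mono ENNReal.one_ne_top h2
  -- functions supported in compact sets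
  have hψ : ∀ (K : Set ℂ), IsCompact K → K ⊆ U → ∀ φ : ℂ → ℂ, MemLp φ 2 (volume.restrict K) →
      MemLp (K.indicator (fun z => φ z / (W z : ℂ))) 2 (volume.restrict U) := by
    intro K hK hKU φ hφ
    rw [memLp_indicator_iff_restrict hK.measurableSet, Measure.restrict_restrict hK.measurableSet,
      inter_eq_self_of_subset_left hKU]
    obtain ⟨c, hc0, hcW⟩ := hWK K hK hKU
    refine hφ.of_le_mul (c := c⁻¹) (hφ.1.aemeasurable.div
      (Complex.measurable_ofReal.comp hWm).aemeasurable).aestronglyMeasurable ?_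
    filter_upwards [ae_restrict_mem hK.measurableSet] with z hz
    rw [norm_div, Complex.norm_real, Real.norm_eq_abs, abs_of_nonneg (hW0 z), div_eq_inv_mul]
    gcongr
    exact hcW z hz
  have hin : ∀ n (K : Set ℂ) (hK : IsCompact K) (hKU : K ⊆ U) (φ : ℂ → ℂ) (hφ : MemLp φ 2 (volume.restrict K)),
      inner ℂ (x n) ((hψ K hK hKU φ hφ).toLp _) = ∫ z in K, An n z * φ z := by
    intro n K hK hKU φ hφ
    rw [L2.inner_def]
    have e1 : ∫ a in U, inner ℂ ((x n : Lp ℂ 2 (volume.restrict U)) a) (((hψ K hK hKU φ hφ).toLp _ : Lp ℂ 2 (volume.restrict U)) a)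
        = ∫ z in U, K.indicator (fun z => An n z * φ z) z := by
      refine integral_congr_ae ?_
      filter_upwards [(hx n).coeFn_toLp, (hψ K hK hKU φ hφ).coeFn_toLp, hmem] with z h1 h2 h3
      rw [h1, h2, RCLike.inner_apply, hxf, Complex.conj_conj]
      by_cases hz : z ∈ K
      · rw [indicator_of_mem hz, indicator_of_mem hz]
        have : (W z : ℂ) ≠ 0 := Complex.ofReal_ne_zero.2 (hWp z h3).ne'
        field_simp
      · rw [indicator_of_notMem hz, indicator_of_notMem hz, zero_mul]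
    rw [e1, integral_indicator hK.measurableSet, Measure.restrict_restrict hK.measurableSet,
      inter_eq_self_of_subset_left hKU]
  have hTF : ∀ φ : ℂ → ℂ, TF U φ → MemLp φ 2 (volume.restrict (tsupport φ)) := fun φ hφ =>
    (hφ.1.continuous.memLp_of_hasCompactSupport hφ.2.1).restrict _
  let D : Set (Lp ℂ 2 (volume.restrict U)) := {d | ∃ (φ : ℂ → ℂ) (hφ : TF U φ),
    d = (hψ (tsupport φ) hφ.2.1 hφ.2.2 φ (hTF φ hφ)).toLp _}
  obtain ⟨x0, hx0⟩ := awl_hilb x 1 hxn D (by
    rintro d ⟨φ, hφ, rfl⟩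
    obtain ⟨l, hl⟩ := hc φ hφ
    refine ⟨l, ?_⟩
    have e : ∀ n, inner ℂ (x n) ((hψ (tsupport φ) hφ.2.1 hφ.2.2 φ (hTF φ hφ)).toLp _) = ∫ z, An n z * φ z := by
      intro n
      rw [hin n (tsupport φ) hφ.2.1 hφ.2.2 φ (hTF φ hφ)]
      rw [setIntegral_eq_integral_of_forall_compl_eq_zero]
      intro z hz
      rw [image_eq_zero_of_notMem_tsupport hz, mul_zero]
    simpa only [e] using hl) (by
    intro y hy
    have hy2 : MemLp (fun z => y z) 2 (volume.restrict U) := Lp.memLp y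
    have hloc : LocallyIntegrableOn (fun z => y z / (W z : ℂ)) U volume := by
      rw [locallyIntegrableOn_iff hU.isLocallyClosed]
      intro K hKU hK
      have hfin : IsFiniteMeasure (volume.restrict K) :=
        ⟨by rw [Measure.restrict_apply_univ]; exact hK.measure_lt_top⟩
      have h1 : MemLp (fun z => y z) 2 (volume.restrict K) := hy2.mono_measure (Measure.restrict_mono hKU le_rfl)
      have h2 := hψ K hK hKU _ h1
      rw [memLp_indicator_iff_restrict hK.measurableSet, Measure.restrict_restrict hK.measurableSet,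
        inter_eq_self_of_subset_left hKU] at h2
      exact h2.integrable one_le_two
    have key := hU.ae_eq_zero_of_integral_contDiff_smul_eq_zero hloc (fun g h1 h2 h3 => by
      have hφ : TF U (fun z => ((g z : ℝ) : ℂ)) := by
        refine ⟨Complex.ofRealCLM.contDiff.comp h1, h2.comp_left (g := fun x : ℝ => (x : ℂ)) (by simp), ?_⟩
        refine (closure_mono ?_).trans h3
        intro z hz
        rw [Function.mem_support] at hz ⊢
        intro h
        exact hz (by rw [h]; simp)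
      have h4 := hy _ ⟨_, hφ, rfl⟩
      rw [L2.inner_def] at h4
      rw [← h4, ← setIntegral_eq_integral_of_forall_compl_eq_zero (s := U) (f := fun z => g z • (y z / (W z : ℂ)))]
      · refine integral_congr_ae ?_
        filter_upwards [(hψ _ hφ.2.1 hφ.2.2 _ (hTF _ hφ)).coeFn_toLp] with z h5
        rw [h5, RCLike.inner_apply]
        by_cases hz : z ∈ tsupport (fun z => ((g z : ℝ) : ℂ))
        · rw [indicator_of_mem hz, map_div₀, Complex.conj_ofReal, Complex.conj_ofReal, Complex.real_smul]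
          ring
        · have h6 : ((g z : ℝ) : ℂ) = 0 := image_eq_zero_of_notMem_tsupport (f := fun z => ((g z : ℝ) : ℂ)) hz
          rw [indicator_of_notMem hz, Complex.real_smul, h6]
          simp
      · intro z hz
        have h6 : g z = 0 := image_eq_zero_of_notMem_tsupport fun h => hz (h3 h)
        rw [h6, zero_smul])
    rw [Lp.eq_zero_iff_ae_eq_zero]
    have key' : ∀ᵐ z ∂(volume.restrict U), y z / (W z : ℂ) = 0 := by
      rw [ae_restrict_iff' hU.measurableSet]
      exact key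
    filter_upwards [key', hmem] with z h1 h2
    have h3 : (W z : ℂ) ≠ 0 := Complex.ofReal_ne_zero.2 (hWp z h2).ne'
    simpa [h3] using h1)
  have hx02 : MemLp (fun z => x0 z) 2 (volume.restrict U) := Lp.memLp x0
  refine ⟨fun z => conj (x0 z) / (W z : ℂ), ?_, ?_⟩
  · intro K hK hKU
    have h1 : MemLp (fun z => conj (x0 z)) 2 (volume.restrict K) := by
      have h := hx02.mono_measure (Measure.restrict_mono hKU le_rfl)
      refine h.of_le (Complex.continuous_conj.comp_aestronglyMeasurable h.1) ?_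
      filter_upwards with z
      rw [RCLike.norm_conj]
    have h2 := hψ K hK hKU _ h1
    rwa [memLp_indicator_iff_restrict hK.measurableSet, Measure.restrict_restrict hK.measurableSet,
        inter_eq_self_of_subset_left hKU] at h2
  · intro K hK hKU φ hφ
    have h1 := hx0 ((hψ K hK hKU φ hφ).toLp _)
    simp only [hin _ K hK hKU φ hφ] at h1
    have e1 : inner ℂ x0 ((hψ K hK hKU φ hφ).toLp _) = ∫ z in K, conj (x0 z) / (W z : ℂ) * φ z := by
      rw [L2.inner_def]
      have e2 : ∫ a in U, inner ℂ (x0 a) (((hψ K hK hKU φ hφ).toLp _ : Lp ℂ 2 (volume.restrict U)) a)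
          = ∫ z in U, K.indicator (fun z => conj (x0 z) / (W z : ℂ) * φ z) z := by
        refine integral_congr_ae ?_
        filter_upwards [(hψ K hK hKU φ hφ).coeFn_toLp] with z h2
        rw [h2, RCLike.inner_apply]
        by_cases hz : z ∈ K
        · rw [indicator_of_mem hz, indicator_of_mem hz]
          ring
        · rw [indicator_of_notMem hz, indicator_of_notMem hz, zero_mul]
      rw [e2, integral_indicator hK.measurableSet, Measure.restrict_restrict hK.measurableSet,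
        inter_eq_self_of_subset_left hKU]
    rwa [e1] at h1

private theorem awl_zero {φ : ℂ → ℂ} : ∀ z, z ∉ tsupport φ → dz φ z = 0 ∧ db φ z = 0 := by
  intro z h1
  have h3 : fderiv ℝ φ z = 0 := by
    by_contra hne
    exact h1 (support_fderiv_subset ℝ (Function.mem_support.mpr hne))
  refine ⟨?_, ?_⟩ <;> simp [dz, db, h3]

private theorem awl_cont {φ : ℂ → ℂ} (h : ContDiff ℝ (⊤ : ℕ∞) φ) : Continuous (dz φ) ∧ Continuous (db φ) := by
  have h1 : Continuous (fderiv ℝ φ) := h.continuous_fderiv (by simp)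
  have h2 : ∀ v : ℂ, Continuous (fun z => fderiv ℝ φ z v) := fun v =>
    h1.clm_apply continuous_const
  refine ⟨?_, ?_⟩
  · unfold dz
    exact ((h2 1).sub (continuous_const.mul (h2 I))).div_const 2
  · unfold db
    exact ((h2 1).add (continuous_const.mul (h2 I))).div_const 2

/-- [a15] -/
theorem piece_awlim (_h1 : S_basic) (_h2 : S_wuniq) (_h3 : S_bump) : S_awlim := by
  intro U f fn An Bn hU hWD hcn hbd hunif
  have hcf : ContinuousOn f U := by
    have h := (tendstoLocallyUniformlyOn_iff_forall_isCompact (F := fn) (f := f) (p := atTop) hU).2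
      (fun K hKU hK => hunif K hK hKU)
    exact h.continuousOn (Eventually.of_forall hcn).frequently
  have hlimf : ∀ (K : Set ℂ) (ψ : ℂ → ℂ), IsCompact K → K ⊆ U → Continuous ψ → (∀ z, z ∉ K → ψ z = 0) →
      Tendsto (fun n => ∫ z, fn n z * ψ z) atTop (𝓝 (∫ z, f z * ψ z)) := by
    intro K ψ hK hKU hψ h0
    have e : ∀ g : ℂ → ℂ, ∫ z, g z * ψ z = ∫ z in K, g z * ψ z := by
      intro g
      rw [setIntegral_eq_integral_of_forall_compl_eq_zero]
      intro z hz
      rw [h0 z hz, mul_zero]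
    simp only [e]
    have hfin : IsFiniteMeasure (volume.restrict K) :=
      ⟨by rw [Measure.restrict_apply_univ]; exact hK.measure_lt_top⟩
    obtain ⟨C1, hC1⟩ := hK.exists_bound_of_continuousOn (hcf.mono hKU)
    obtain ⟨C2, hC2⟩ := hK.exists_bound_of_continuousOn (f := ψ) hψ.continuousOn
    have hu := hunif K hK hKU
    rw [Metric.tendstoUniformlyOn_iff] at hu
    have hmemK : ∀ᵐ z ∂(volume.restrict K), z ∈ K := ae_restrict_mem hK.measurableSet
    refine tendsto_integral_filter_of_dominated_convergence (fun _ => (C1 + 1) * C2) ?_ ?_ ?_ ?_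
    · refine Eventually.of_forall fun n => ?_
      exact ((hcn n).mono hKU).aestronglyMeasurable hK.measurableSet |>.mul hψ.aestronglyMeasurable
    · filter_upwards [hu 1 one_pos] with n hn
      filter_upwards [hmemK] with z hz
      rw [norm_mul]
      have h1 := hn z hz
      rw [dist_eq_norm] at h1
      have h2 : ‖fn n z‖ ≤ C1 + 1 := by
        calc ‖fn n z‖ = ‖f z - (f z - fn n z)‖ := by congr 1; ring
          _ ≤ ‖f z‖ + ‖f z - fn n z‖ := norm_sub_le _ _
          _ ≤ C1 + 1 := by linarith [hC1 z hz]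
      exact mul_le_mul h2 (hC2 z hz) (norm_nonneg _) ((norm_nonneg _).trans h2)
    · exact integrable_const _
    · filter_upwards [hmemK] with z hz
      exact ((hunif K hK hKU).tendsto_at hz).mul_const _
  obtain ⟨A, hA, hAw⟩ := awl_core hU An (fun n => (hWD n).A2)
    (fun K hK hKU => by
      obtain ⟨M, hM⟩ := hbd K hK hKU
      exact ⟨M, hM.mono fun n hn => hn.1⟩)
    (fun φ hφ => by
      refine ⟨-∫ z, f z * dz φ z, ?_⟩
      have h1 := (hlimf (tsupport φ) (dz φ) hφ.2.1 hφ.2.2 (awl_cont hφ.1).1 (fun z hz => (awl_zero z hz).1)).neg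
      refine h1.congr fun n => ?_
      rw [(hWD n).hA φ hφ, neg_neg])
  obtain ⟨B, hB, hBw⟩ := awl_core hU Bn (fun n => (hWD n).B2)
    (fun K hK hKU => by
      obtain ⟨M, hM⟩ := hbd K hK hKU
      exact ⟨M, hM.mono fun n hn => hn.2⟩)
    (fun φ hφ => by
      refine ⟨-∫ z, f z * db φ z, ?_⟩
      have h1 := (hlimf (tsupport φ) (db φ) hφ.2.1 hφ.2.2 (awl_cont hφ.1).2 (fun z hz => (awl_zero z hz).2)).neg
      refine h1.congr fun n => ?_
      rw [(hWD n).hB φ hφ, neg_neg])
  refine ⟨hcf, A, B, ⟨?_, hA, hB, ?_, ?_⟩, fun K hK hKU φ hφ => ⟨hAw K hK hKU φ hφ, hBw K hK hKU φ hφ⟩⟩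
  · intro K hK hKU
    have hfin : IsFiniteMeasure (volume.restrict K) :=
      ⟨by rw [Measure.restrict_apply_univ]; exact hK.measure_lt_top⟩
    obtain ⟨C1, hC1⟩ := hK.exists_bound_of_continuousOn (hcf.mono hKU)
    refine MemLp.of_bound ((hcf.mono hKU).aestronglyMeasurable hK.measurableSet) C1 ?_
    rw [ae_restrict_iff' hK.measurableSet]
    exact Eventually.of_forall hC1
  · intro φ hφ
    have hKφ : MemLp φ 2 (volume.restrict (tsupport φ)) :=
      (hφ.1.continuous.memLp_of_hasCompactSupport hφ.2.1).restrict _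
    have h1 := hlimf (tsupport φ) (dz φ) hφ.2.1 hφ.2.2 (awl_cont hφ.1).1 (fun z hz => (awl_zero z hz).1)
    have h2 := (hAw (tsupport φ) hφ.2.1 hφ.2.2 φ hKφ).neg
    have e : ∀ g : ℂ → ℂ, ∫ z in tsupport φ, g z * φ z = ∫ z, g z * φ z := by
      intro g
      rw [setIntegral_eq_integral_of_forall_compl_eq_zero]
      intro z hz
      rw [image_eq_zero_of_notMem_tsupport hz, mul_zero]
    simp only [e] at h2
    refine tendsto_nhds_unique h1 (h2.congr fun n => ?_)
    rw [(hWD n).hA φ hφ]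
  · intro φ hφ
    have hKφ : MemLp φ 2 (volume.restrict (tsupport φ)) :=
      (hφ.1.continuous.memLp_of_hasCompactSupport hφ.2.1).restrict _
    have h1 := hlimf (tsupport φ) (db φ) hφ.2.1 hφ.2.2 (awl_cont hφ.1).2 (fun z hz => (awl_zero z hz).2)
    have h2 := (hBw (tsupport φ) hφ.2.1 hφ.2.2 φ hKφ).neg
    have e : ∀ g : ℂ → ℂ, ∫ z in tsupport φ, g z * φ z = ∫ z, g z * φ z := by
      intro g
      rw [setIntegral_eq_integral_of_forall_compl_eq_zero]
      intro z hz
      rw [image_eq_zero_of_notMem_tsupport hz, mul_zero]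
    simp only [e] at h2
    refine tendsto_nhds_unique h1 (h2.congr fun n => ?_)
    rw [(hWD n).hB φ hφ]

end

end Cal
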