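import Pool.Agent.Lib.MP_4ea4c7_an.StmH1

/-!
[a16] The equation passes to the limit.
-/

open MeasureTheory Complex Metric Set Filter Topology
open scoped ComplexConjugate ENNReal NNReal

namespace Cal

noncomputable section

private theorem awlB_csq (μ : Measure ℂ) (f g : ℂ → ℂ) (hf : MemLp f 2 μ) (hg : MemLp g 2 μ) :
    ‖∫ z, f z * g z ∂μ‖ₑ ≤ eLpNorm f 2 μ * eLpNorm g 2 μ := by
  calc ‖∫ z, f z * g z ∂μ‖ₑ ≤ ∫⁻ z, ‖f z * g z‖ₑ ∂μ := enorm_integral_le_lintegral_enorm _
    _ = eLpNorm (f • g) 1 μ := by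
        rw [eLpNorm_one_eq_lintegral_enorm]; rfl
    _ ≤ eLpNorm f 2 μ * eLpNorm g 2 μ := eLpNorm_smul_le_mul_eLpNorm hg.1 hf.1

private theorem awlB_dc (μ : Measure ℂ) (a : ℕ → ℂ → ℝ) (g : ℂ → ℂ) (C : ℝ) (hg : MemLp g 2 μ)
    (ha : ∀ n, AEStronglyMeasurable (a n) μ) (hb : ∀ n, ∀ᵐ z ∂μ, |a n z| ≤ C)
    (hl : ∀ᵐ z ∂μ, Tendsto (fun n => a n z) atTop (𝓝 0)) :
    Tendsto (fun n => eLpNorm (fun z => (a n z : ℂ) * g z) 2 μ) atTop (𝓝 0) := by
  have e : ∀ n, eLpNorm (fun z => (a n z : ℂ) * g z) 2 μ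
      = (∫⁻ z, ‖(a n z : ℂ) * g z‖ₑ ^ (2:ℝ) ∂μ) ^ (1/(2:ℝ)) := by
    intro n
    rw [eLpNorm_eq_lintegral_rpow_enorm_toReal two_ne_zero ENNReal.ofNat_ne_top]; simp
  simp_rw [e]
  have hgi : ∫⁻ z, ‖g z‖ₑ ^ (2:ℝ) ∂μ < ∞ := by
    have := lintegral_rpow_enorm_lt_top_of_eLpNorm_lt_top (f := g) (p := 2) (μ := μ) two_ne_zero ENNReal.ofNat_ne_top hg.2
    simpa using this
  have h0 : Tendsto (fun n => ∫⁻ z, ‖(a n z : ℂ) * g z‖ₑ ^ (2:ℝ) ∂μ) atTop (𝓝 (∫⁻ _, 0 ∂μ)) := by
    refine tendsto_lintegral_of_dominated_convergence' (fun z => (ENNReal.ofReal C) ^ (2:ℝ) * ‖g z‖ₑ ^ (2:ℝ))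
      (fun n => ?_) (fun n => ?_) ?_ ?_
    · exact (((Complex.measurable_ofReal.comp_aemeasurable (ha n).aemeasurable).mul hg.1.aemeasurable).enorm).pow_const _
    · filter_upwards [hb n] with z hz
      rw [← ENNReal.mul_rpow_of_nonneg _ _ (by norm_num : (0:ℝ) ≤ 2)]
      refine ENNReal.rpow_le_rpow ?_ (by norm_num)
      rw [enorm_mul]
      gcongr
      rw [← ofReal_norm_eq_enorm, Complex.norm_real, Real.norm_eq_abs]
      exact ENNReal.ofReal_le_ofReal hz
    · have hne : (ENNReal.ofReal C) ^ (2:ℝ) ≠ ∞ := ENNReal.rpow_ne_top_of_nonneg (by norm_num) ENNReal.ofReal_ne_top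
      rw [lintegral_const_mul' _ _ hne]
      exact ENNReal.mul_ne_top hne hgi.ne
    · filter_upwards [hl] with z hz
      have h1 : Tendsto (fun n => (a n z : ℂ) * g z) atTop (𝓝 0) := by
        have := (Complex.continuous_ofReal.tendsto 0).comp hz
        have h2 := this.mul_const (g z)
        simpa using h2
      have h2 : Tendsto (fun n => ‖(a n z : ℂ) * g z‖ₑ) atTop (𝓝 0) := by
        have := h1.enorm
        simpa using this
      have h3 := (ENNReal.continuous_rpow_const (y := (2:ℝ))).tendsto 0 |>.comp h2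
      rw [ENNReal.zero_rpow_of_pos (by norm_num)] at h3
      exact h3
  have h1 := (ENNReal.continuous_rpow_const (y := 1/(2:ℝ))).tendsto (∫⁻ _, 0 ∂μ) |>.comp h0
  rw [lintegral_zero, ENNReal.zero_rpow_of_pos (by norm_num)] at h1
  exact h1

private theorem awlB_intOn {U : Set ℂ} {g : ℂ → ℂ} (hg : L2loc U g) {K : Set ℂ} (hK : IsCompact K)
    (hKU : K ⊆ U) : IntegrableOn g K volume := by
  have : IsFiniteMeasure (volume.restrict K) :=
    ⟨by rw [Measure.restrict_apply_univ]; exact hK.measure_lt_top⟩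
  exact (hg K hK hKU).integrable one_le_two

theorem piece_awlimB : S_awlimB := by
  intro U μ μn A B An Bn hU hA hB hAn hBn hμ hμn hbd hlim hM hw heq
  have hmb : ∀ᵐ z ∂(volume.restrict U), |μ z| ≤ 1 := by
    filter_upwards [hlim] with z hl
    exact le_of_tendsto hl.abs (Eventually.of_forall fun n => hbd n z)
  -- restrict to compact sets
  have hsub : ∀ K : Set ℂ, K ⊆ U → volume.restrict K ≤ volume.restrict U := fun K hK => Measure.restrict_mono hK le_rfl
  have hmul : ∀ (K : Set ℂ) (a : ℂ → ℝ) (f : ℂ → ℂ), Measurable a → (∀ᵐ z ∂(volume.restrict K), |a z| ≤ 1) →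
      MemLp f 2 (volume.restrict K) → MemLp (fun z => (a z : ℂ) * f z) 2 (volume.restrict K) := by
    intro K a f ha hb hf
    refine hf.of_le_mul (c := 1) ((Complex.measurable_ofReal.comp ha).aestronglyMeasurable.mul hf.1) ?_
    filter_upwards [hb] with z hz
    rw [norm_mul, Complex.norm_real, Real.norm_eq_abs]
    gcongr
  have hconj : ∀ (K : Set ℂ) (f : ℂ → ℂ), MemLp f 2 (volume.restrict K) →
      MemLp (fun z => conj (f z)) 2 (volume.restrict K) := by
    intro K f hf
    refine hf.of_le (Complex.continuous_conj.comp_aestronglyMeasurable hf.1) ?_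
    filter_upwards with z
    rw [RCLike.norm_conj]
  have hD2 : L2loc U (fun z => B z - (μ z : ℂ) * conj (A z)) := by
    intro K hK hKU
    have hb : ∀ᵐ z ∂(volume.restrict K), |μ z| ≤ 1 := ae_mono (hsub K hKU) hmb
    exact (hB K hK hKU).sub (hmul K μ _ hμ hb (hconj K _ (hA K hK hKU)))
  have hloc : LocallyIntegrableOn (fun z => B z - (μ z : ℂ) * conj (A z)) U volume := by
    rw [locallyIntegrableOn_iff hU.isLocallyClosed]
    intro K hKU hK
    exact awlB_intOn hD2 hK hKU
  have key := hU.ae_eq_zero_of_integral_contDiff_smul_eq_zero hloc (fun g h1 h2 h3 => by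
    set K := tsupport g with hKdef
    have hK : IsCompact K := h2
    have hb : ∀ᵐ z ∂(volume.restrict K), |μ z| ≤ 1 := ae_mono (hsub K h3) hmb
    have hnb : ∀ n, ∀ᵐ z ∂(volume.restrict K), |μn n z| ≤ 1 := fun n => Eventually.of_forall fun z => hbd n z
    have hfin : IsFiniteMeasure (volume.restrict K) :=
      ⟨by rw [Measure.restrict_apply_univ]; exact hK.measure_lt_top⟩
    have hφ : MemLp (fun z => ((g z : ℝ) : ℂ)) 2 (volume.restrict K) := by
      have hc : Continuous (fun z => ((g z : ℝ) : ℂ)) := Complex.continuous_ofReal.comp h1.continuous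
      exact (hc.memLp_of_hasCompactSupport (h2.comp_left (g := fun x : ℝ => (x : ℂ)) (by simp))).restrict K
    have t1 := (hw K hK h3 _ hφ).2
    have hμφ : MemLp (fun z => (μ z : ℂ) * ((g z : ℝ) : ℂ)) 2 (volume.restrict K) := hmul K μ _ hμ hb hφ
    have t2 := (hw K hK h3 _ hμφ).1
    -- error term
    have hdm : ∀ n, MemLp (fun z => ((μ z - μn n z : ℝ) : ℂ) * ((g z : ℝ) : ℂ)) 2 (volume.restrict K) := by
      intro n
      have a := hμφ.sub (hmul K (μn n) _ (hμn n) (hnb n) hφ)
      refine a.ae_eq (Eventually.of_forall fun z => ?_)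
      simp only [Pi.sub_apply]
      push_cast; ring
    have t3 : Tendsto (fun n => ∫ z in K, An n z * (((μ z - μn n z : ℝ) : ℂ) * ((g z : ℝ) : ℂ))) atTop (𝓝 0) := by
      obtain ⟨M, hM'⟩ := hM K hK h3
      have hdc := awlB_dc (volume.restrict K) (fun n z => μ z - μn n z) (fun z => ((g z : ℝ) : ℂ)) 2 hφ
        (fun n => (hμ.sub (hμn n)).aestronglyMeasurable) (fun n => by
          filter_upwards [hb, hnb n] with z h1 h2
          calc |μ z - μn n z| ≤ |μ z| + |μn n z| := abs_sub _ _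
            _ ≤ 2 := by linarith) (by
          filter_upwards [ae_mono (hsub K h3) hlim] with z hz
          simpa using (tendsto_const_nhds (x := μ z)).sub hz)
      have hdc' : Tendsto (fun n => ENNReal.ofReal M *
          eLpNorm (fun z => ((μ z - μn n z : ℝ) : ℂ) * ((g z : ℝ) : ℂ)) 2 (volume.restrict K)) atTop (𝓝 0) := by
        have := ENNReal.Tendsto.const_mul (a := ENNReal.ofReal M) hdc (Or.inr ENNReal.ofReal_ne_top)
        simpa using this
      rw [tendsto_zero_iff_enorm_tendsto_zero]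
      refine tendsto_of_tendsto_of_tendsto_of_le_of_le' tendsto_const_nhds hdc'
        (Eventually.of_forall fun n => bot_le) ?_
      filter_upwards [hM'] with n hn
      refine (awlB_csq _ _ _ (hAn n K hK h3) (hdm n)).trans ?_
      gcongr
    have t4 : Tendsto (fun n => conj ((∫ z in K, An n z * ((μ z : ℂ) * ((g z : ℝ) : ℂ))) -
        ∫ z in K, An n z * (((μ z - μn n z : ℝ) : ℂ) * ((g z : ℝ) : ℂ)))) atTop
        (𝓝 (conj ((∫ z in K, A z * ((μ z : ℂ) * ((g z : ℝ) : ℂ))) - 0))) :=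
      (Complex.continuous_conj.tendsto _).comp (t2.sub t3)
    rw [sub_zero] at t4
    have t5 : ∀ n, ∫ z in K, Bn n z * ((g z : ℝ) : ℂ) = conj ((∫ z in K, An n z * ((μ z : ℂ) * ((g z : ℝ) : ℂ))) -
        ∫ z in K, An n z * (((μ z - μn n z : ℝ) : ℂ) * ((g z : ℝ) : ℂ))) := by
      intro n
      have j1 : Integrable (fun z => An n z * ((μ z : ℂ) * ((g z : ℝ) : ℂ))) (volume.restrict K) :=
        (hAn n K hK h3).integrable_mul hμφ
      have j2 : Integrable (fun z => An n z * (((μ z - μn n z : ℝ) : ℂ) * ((g z : ℝ) : ℂ))) (volume.restrict K) :=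
        (hAn n K hK h3).integrable_mul (hdm n)
      rw [← integral_sub j1 j2, ← integral_conj]
      refine integral_congr_ae ?_
      filter_upwards [ae_mono (hsub K h3) (heq n)] with z hz
      rw [hz]
      simp only [map_sub, map_mul, Complex.conj_ofReal]
      push_cast; ring
    have t6 := tendsto_nhds_unique t1 (by simpa only [t5] using t4)
    have j3 : Integrable (fun z => B z * ((g z : ℝ) : ℂ)) (volume.restrict K) := (hB K hK h3).integrable_mul hφ
    have j4 : Integrable (fun z => conj (A z * ((μ z : ℂ) * ((g z : ℝ) : ℂ)))) (volume.restrict K) := by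
      have : Integrable (fun z => A z * ((μ z : ℂ) * ((g z : ℝ) : ℂ))) (volume.restrict K) :=
        (hA K hK h3).integrable_mul hμφ
      exact (Complex.conjCLE.toContinuousLinearMap).integrable_comp this
    have t7 : ∫ z, g z • (B z - (μ z : ℂ) * conj (A z)) = ∫ z in K, g z • (B z - (μ z : ℂ) * conj (A z)) := by
      rw [setIntegral_eq_integral_of_forall_compl_eq_zero]
      intro z hz
      rw [image_eq_zero_of_notMem_tsupport hz, zero_smul]
    rw [t7]
    have t8 : ∫ z in K, g z • (B z - (μ z : ℂ) * conj (A z)) = ∫ z in K, (B z * ((g z : ℝ) : ℂ) -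
        conj (A z * ((μ z : ℂ) * ((g z : ℝ) : ℂ)))) := by
      refine integral_congr_ae (Eventually.of_forall fun z => ?_)
      simp only [map_mul, Complex.conj_ofReal, Complex.real_smul]
      ring
    rw [t8, integral_sub j3 j4, t6, integral_conj, sub_self])
  rw [ae_restrict_iff' hU.measurableSet]
  filter_upwards [key] with z hz hzU
  exact sub_eq_zero.1 (hz hzU)

end

end Cal
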