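import Pool.Agent.Lib.MP_4ea4c7_an.StmH1b

/-!
# MP_4ea4c7_an, stage 2: piece baa (Arzela-Ascoli on an open set, eventual version)
-/

open MeasureTheory Complex Metric Set Filter Topology
open scoped ComplexConjugate ENNReal NNReal

namespace Cal

noncomputable section

/-- diagonal sequence: a subsequence converges at countably many points -/
private lemma baa_diag (a : ℕ → ℕ → ℂ) (ha : ∀ i, ∃ M : ℝ, ∀ᶠ n in atTop, ‖a n i‖ ≤ M) :
    ∃ (φ : ℕ → ℕ) (l : ℕ → ℂ), StrictMono φ ∧ ∀ i, Tendsto (fun n => a (φ n) i) atTop (𝓝 (l i)) := by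
  classical
  choose M hM using ha
  let b : ℕ → ℕ → ℂ := fun n i => if ‖a n i‖ ≤ M i then a n i else 0
  have hcomp : IsCompact (Set.pi univ fun i : ℕ => closedBall (0 : ℂ) (max (M i) 0)) :=
    isCompact_univ_pi fun i => isCompact_closedBall _ _
  have hb : ∀ n, b n ∈ Set.pi univ fun i : ℕ => closedBall (0 : ℂ) (max (M i) 0) := by
    intro n i _
    rw [mem_closedBall_zero_iff]
    show ‖(if ‖a n i‖ ≤ M i then a n i else 0)‖ ≤ _
    split_ifs with h
    · exact h.trans (le_max_left _ _)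
    · rw [norm_zero]
      exact le_max_right _ _
  obtain ⟨l, _, φ, hφ, hl⟩ := hcomp.tendsto_subseq hb
  refine ⟨φ, l, hφ, fun i => ?_⟩
  have h1 := (tendsto_pi_nhds.mp hl) i
  refine h1.congr' ?_
  have h2 := hφ.tendsto_atTop.eventually (hM i)
  filter_upwards [h2] with n hn
  show (if ‖a (φ n) i‖ ≤ M i then a (φ n) i else 0) = a (φ n) i
  rw [if_pos hn]

theorem piece_baa : S_baa := by
  classical
  intro W f hW hbd heq
  let d : ℕ → ℂ × ℂ := TopologicalSpace.denseSeq (ℂ × ℂ)
  have hd : DenseRange d := TopologicalSpace.denseRange_denseSeq (ℂ × ℂ)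
  obtain ⟨φ, l, hφ, hl⟩ := baa_diag (fun n i => if d i ∈ W then f n (d i) else 0) (by
    intro i
    by_cases hi : d i ∈ W
    · obtain ⟨M, hM⟩ := hbd (d i) hi
      refine ⟨M, ?_⟩
      filter_upwards [hM] with n hn
      rw [if_pos hi]
      exact hn
    · refine ⟨0, Eventually.of_forall fun n => ?_⟩
      rw [if_neg hi, norm_zero])
  have hφt := hφ.tendsto_atTop
  -- convergence at every point of `W`
  have hconv : ∀ p ∈ W, ∃ c : ℂ, Tendsto (fun n => f (φ n) p) atTop (𝓝 c) := by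
    intro p hp
    apply cauchySeq_tendsto_of_complete
    rw [Metric.cauchySeq_iff']
    intro ε hε
    obtain ⟨δ, hδ, hδe⟩ := heq p hp (ε / 4) (by linarith)
    obtain ⟨i, hi⟩ := hd.exists_mem_open (hW.inter (isOpen_ball (x := p) (ε := δ))) ⟨p, hp, mem_ball_self hδ⟩
    obtain ⟨hi1, hi2⟩ := hi
    have hli := hl i
    simp only [if_pos hi1] at hli
    have h1 := hφt.eventually hδe
    have h2 := (Metric.tendsto_nhds.mp hli) (ε / 8) (by linarith)
    obtain ⟨N, hN⟩ := eventually_atTop.mp (h1.and h2)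
    refine ⟨N, fun n hn => ?_⟩
    have a1 := (hN n hn).1 (d i) hi1 hi2
    have a2 := (hN N le_rfl).1 (d i) hi1 hi2
    have b1 := (hN n hn).2
    have b2 := (hN N le_rfl).2
    rw [← dist_eq_norm] at a1 a2
    calc dist (f (φ n) p) (f (φ N) p) ≤ dist (f (φ n) p) (f (φ n) (d i)) + dist (f (φ n) (d i)) (l i) +
          (dist (l i) (f (φ N) (d i)) + dist (f (φ N) (d i)) (f (φ N) p)) := by
            refine (dist_triangle _ (l i) _).trans ?_
            exact add_le_add (dist_triangle _ _ _) (dist_triangle _ _ _)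
      _ < ε := by
            rw [dist_comm (f (φ n) p), dist_comm (l i)]
            linarith
  choose! h hh using hconv
  have hequi : ∀ p ∈ W, ∀ ε : ℝ, 0 < ε → ∃ δ : ℝ, 0 < δ ∧ (∀ p' ∈ W, dist p' p < δ → dist (h p') (h p) ≤ ε) ∧
      ∀ᶠ n in atTop, ∀ p' ∈ W, dist p' p < δ → dist (f (φ n) p') (f (φ n) p) ≤ ε := by
    intro p hp ε hε
    obtain ⟨δ, hδ, hδe⟩ := heq p hp ε hε
    have h1 := hφt.eventually hδe
    refine ⟨δ, hδ, ?_, ?_⟩
    · intro p' hp' hpp
      refine le_of_tendsto ((hh p' hp').dist (hh p hp)) ?_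
      filter_upwards [h1] with n hn
      rw [dist_eq_norm]
      exact hn p' hp' hpp
    · filter_upwards [h1] with n hn p' hp' hpp
      rw [dist_eq_norm]
      exact hn p' hp' hpp
  have hloc : TendstoLocallyUniformlyOn (fun n => f (φ n)) h atTop W := by
    rw [Metric.tendstoLocallyUniformlyOn_iff]
    intro ε hε p hp
    obtain ⟨δ, hδ, h1, h2⟩ := hequi p hp (ε / 4) (by linarith)
    refine ⟨W ∩ ball p δ, inter_mem self_mem_nhdsWithin (mem_nhdsWithin_of_mem_nhds (ball_mem_nhds p hδ)), ?_⟩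
    have h3 := (Metric.tendsto_nhds.mp (hh p hp)) (ε / 4) (by linarith)
    filter_upwards [h2, h3] with n hn2 hn3 y hy
    obtain ⟨hyW, hyb⟩ := hy
    have a1 := h1 y hyW hyb
    have a2 := hn2 y hyW hyb
    calc dist (h y) (f (φ n) y) ≤ dist (h y) (h p) + dist (h p) (f (φ n) y) := dist_triangle _ _ _
      _ ≤ dist (h y) (h p) + (dist (h p) (f (φ n) p) + dist (f (φ n) p) (f (φ n) y)) := by
          gcongr
          exact dist_triangle _ _ _
      _ < ε := by
          rw [dist_comm (h p) (f (φ n) p), dist_comm (f (φ n) p) (f (φ n) y)]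
          linarith
  refine ⟨φ, h, hφ, ?_, ?_⟩
  · rw [Metric.continuousOn_iff]
    intro p hp ε hε
    obtain ⟨δ, hδ, h1, _⟩ := hequi p hp (ε / 2) (by linarith)
    refine ⟨δ, hδ, fun p' hp' hpp => ?_⟩
    have := h1 p' hp' hpp
    linarith
  · intro K hK hKW
    exact (tendstoLocallyUniformlyOn_iff_forall_isCompact hW).mp hloc K hKW hK

end

end Cal
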