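import Pool.Agent.Lib.MP_4ea4c7_an.StmH1b

open MeasureTheory Complex Metric Set Filter Topology
open scoped ComplexConjugate ENNReal NNReal

namespace Cal

private theorem barea_Kset (r : ℝ) (w : ℂ) :
    w ∈ {w : ℂ | r ≤ ‖w‖ ∧ ‖w‖ ≤ r + 1} ↔ r ≤ ‖w‖ ∧ ‖w‖ ≤ r + 1 := Iff.rfl

private theorem barea_Kcomp (r : ℝ) : IsCompact {w : ℂ | r ≤ ‖w‖ ∧ ‖w‖ ≤ r + 1} := by
  refine (isCompact_closedBall (0 : ℂ) (r + 1)).of_isClosed_subset ?_ ?_
  · exact (isClosed_le continuous_const continuous_norm).inter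
      (isClosed_le continuous_norm continuous_const)
  · intro w hw
    rw [mem_closedBall_zero_iff]
    exact hw.2

/-- averaging over rotations -/
private theorem barea_rot (r : ℝ) (W : ℂ → ℂ)
    (hc : ContinuousOn W {w : ℂ | r ≤ ‖w‖ ∧ ‖w‖ ≤ r + 1})
    (h0 : ∀ w : ℂ, r ≤ ‖w‖ → ‖w‖ ≤ r + 1 →
      ∫ θ in (0 : ℝ)..(2 * Real.pi), W (exp (-θ * I) * w) = 0) :
    ∫ w in {w : ℂ | r ≤ ‖w‖ ∧ ‖w‖ ≤ r + 1}, W w = 0 := by
  set K : Set ℂ := {w : ℂ | r ≤ ‖w‖ ∧ ‖w‖ ≤ r + 1} with hK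
  have hKc : IsCompact K := barea_Kcomp r
  have hn : ∀ (θ : ℝ) (w : ℂ), ‖exp (-θ * I) * w‖ = ‖w‖ := by
    intro θ w
    have := Complex.norm_exp_ofReal_mul_I (-θ)
    push_cast at this
    rw [norm_mul, this, one_mul]
  have hrot : ∀ θ : ℝ, ∫ w in K, W (exp (-θ * I) * w) = ∫ w in K, W w := by
    intro θ
    have h2 := (rotation (Circle.exp (-θ))).measurePreserving.setIntegral_preimage_emb
      (rotation (Circle.exp (-θ))).toHomeomorph.measurableEmbedding W K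
    have h4 : ∀ w, (rotation (Circle.exp (-θ))) w = exp (-θ * I) * w := by
      intro w
      rw [rotation_apply, Circle.coe_exp]
      push_cast
      rfl
    have h3 : (rotation (Circle.exp (-θ))) ⁻¹' K = K := by
      ext w
      rw [mem_preimage, h4, hK, barea_Kset, barea_Kset, hn]
    rw [h3] at h2
    rw [← h2]
    refine integral_congr_ae (Eventually.of_forall fun w => ?_)
    simp only [h4]
  have hint : Integrable (Function.uncurry (fun (θ : ℝ) (w : ℂ) => W (exp (-θ * I) * w)))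
      ((volume.restrict (Set.uIoc 0 (2 * Real.pi))).prod (volume.restrict K)) := by
    have hK2 : IsCompact ((Icc (0 : ℝ) (2 * Real.pi)) ×ˢ K) := isCompact_Icc.prod hKc
    have h5 : IntegrableOn (fun p : ℝ × ℂ => W (exp (-p.1 * I) * p.2))
        ((Icc (0 : ℝ) (2 * Real.pi)) ×ˢ K) (volume.prod volume) := by
      refine ContinuousOn.integrableOn_compact hK2 ?_
      refine hc.comp (by fun_prop) ?_
      rintro ⟨θ, w⟩ ⟨_, hw⟩
      rw [hK, barea_Kset] at *
      rw [hn]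
      exact hw
    rw [Measure.prod_restrict]
    refine IntegrableOn.mono_set h5 (prod_mono ?_ (le_refl _))
    rw [Set.uIoc_of_le (by positivity)]
    exact Ioc_subset_Icc_self
  have hsw := intervalIntegral_integral_swap hint
  simp only [hrot] at hsw
  rw [setIntegral_congr_fun hKc.measurableSet (fun w hw => h0 w hw.1 hw.2)] at hsw
  rw [intervalIntegral.integral_const, integral_zero, Complex.real_smul, sub_zero] at hsw
  have hpi : ((2 * Real.pi : ℝ) : ℂ) ≠ 0 := by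
    rw [Complex.ofReal_ne_zero]; positivity
  exact (mul_eq_zero.1 hsw).resolve_left hpi

/-- the radial cutoff -/
private noncomputable def barea_f (r : ℝ) (t : ℝ) : ℝ := Real.smoothTransition (r ^ 2 + 1 - t)

private theorem barea_f_smooth (r : ℝ) : ContDiff ℝ (⊤ : ℕ∞) (barea_f r) :=
  Real.smoothTransition.contDiff.comp (contDiff_const.sub contDiff_id)

private theorem barea_eta (r : ℝ) (hr : 0 < r) :
    TF univ (fun z : ℂ => ((barea_f r (‖z‖ ^ 2) : ℝ) : ℂ)) ∧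
    (∀ z : ℂ, ‖z‖ ≤ r → barea_f r (‖z‖ ^ 2) = 1) ∧
    (∀ z : ℂ, r + 1 < ‖z‖ → barea_f r (‖z‖ ^ 2) = 0) ∧
    (∀ z : ℂ, dz (fun z : ℂ => ((barea_f r (‖z‖ ^ 2) : ℝ) : ℂ)) z
      = ((deriv (barea_f r) (‖z‖ ^ 2) : ℝ) : ℂ) * conj z) := by
  have h1 : ∀ z : ℂ, ‖z‖ ≤ r → barea_f r (‖z‖ ^ 2) = 1 := by
    intro z hz
    refine Real.smoothTransition.one_of_one_le ?_
    have : ‖z‖ ^ 2 ≤ r ^ 2 := pow_le_pow_left₀ (norm_nonneg z) hz 2
    linarith
  have h2 : ∀ z : ℂ, r + 1 < ‖z‖ → barea_f r (‖z‖ ^ 2) = 0 := by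
    intro z hz
    refine Real.smoothTransition.zero_of_nonpos ?_
    have : (r + 1) ^ 2 ≤ ‖z‖ ^ 2 := pow_le_pow_left₀ (by linarith) hz.le 2
    nlinarith
  refine ⟨⟨?_, ?_, subset_univ _⟩, h1, h2, ?_⟩
  · exact Complex.ofRealCLM.contDiff.comp ((barea_f_smooth r).comp (contDiff_norm_sq ℝ))
  · refine HasCompactSupport.intro (isCompact_closedBall (0 : ℂ) (r + 1)) ?_
    intro z hz
    rw [mem_closedBall_zero_iff, not_le] at hz
    simp [h2 z hz]
  · intro z
    have e1 : HasFDerivAt (fun z : ℂ => ‖z‖ ^ 2) (2 • (innerSL ℝ z)) z :=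
      (hasStrictFDerivAt_norm_sq z).hasFDerivAt
    have e2 : HasDerivAt (barea_f r) (deriv (barea_f r) (‖z‖ ^ 2)) (‖z‖ ^ 2) :=
      ((barea_f_smooth r).differentiable (by simp) _).hasDerivAt
    have e3 := e2.comp_hasFDerivAt z e1
    have e4 := (Complex.ofRealCLM.hasFDerivAt (x := barea_f r (‖z‖ ^ 2))).comp z e3
    have e5 : fderiv ℝ (fun z : ℂ => ((barea_f r (‖z‖ ^ 2) : ℝ) : ℂ)) z
        = Complex.ofRealCLM.comp (deriv (barea_f r) (‖z‖ ^ 2) • (2 • (innerSL ℝ z))) := e4.fderiv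
    unfold dz
    rw [e5]
    apply Complex.ext
    · simp [Complex.inner]
      ring
    · simp [Complex.inner]
      ring

private theorem barea_f_deriv (r : ℝ) (t : ℝ) (ht : t < r ^ 2 ∨ r ^ 2 + 1 < t) :
    deriv (barea_f r) t = 0 := by
  rcases ht with ht | ht
  · have e1 : barea_f r =ᶠ[𝓝 t] fun _ => (1 : ℝ) := by
      filter_upwards [Iio_mem_nhds ht] with s hs
      refine Real.smoothTransition.one_of_one_le ?_
      have : s < r ^ 2 := hs
      linarith
    rw [e1.deriv_eq]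
    simp
  · have e1 : barea_f r =ᶠ[𝓝 t] fun _ => (0 : ℝ) := by
      filter_upwards [Ioi_mem_nhds ht] with s hs
      refine Real.smoothTransition.zero_of_nonpos ?_
      have : r ^ 2 + 1 < s := hs
      linarith
    rw [e1.deriv_eq]
    simp

/-- the angular mean is zero -/
private theorem barea_mean (D : ℂ → ℂ) (hD : DifferentiableOn ℂ D {z : ℂ | 7 / 8 < ‖z‖})
    (hDec : Dec D) (w : ℂ) (hw : 7 / 8 < ‖w‖) (a b : ℂ) :
    ∫ θ in (0 : ℝ)..(2 * Real.pi), (D (exp (-θ * I) * w) * (a * conj (exp (-θ * I) * w)) +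
      deriv D (exp (-θ * I) * w) * b) = 0 := by
  have hUo : IsOpen {z : ℂ | 7 / 8 < ‖z‖} := isOpen_lt continuous_const continuous_norm
  obtain ⟨C, hC⟩ := hDec
  set E : ℂ → ℂ := fun ζ => if ζ = 0 then 0 else D (ζ⁻¹) with hE
  have hE0 : E 0 = 0 := by simp [hE]
  have hEne : ∀ ζ : ℂ, ζ ≠ 0 → E ζ = D (ζ⁻¹) := fun ζ hζ => by simp [hE, hζ]
  have hinv : ∀ ζ : ℂ, ζ ≠ 0 → ‖ζ‖ < 8 / 7 → 7 / 8 < ‖ζ⁻¹‖ := by
    intro ζ h0 h1
    have h2 : 0 < ‖ζ‖ := norm_pos_iff.2 h0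
    rw [norm_inv]
    have := (inv_lt_inv₀ (by norm_num : (0 : ℝ) < 8 / 7) h2).2 h1
    linarith [(by norm_num : (8 / 7 : ℝ)⁻¹ = 7 / 8)]
  have hEd : DifferentiableOn ℂ E (ball 0 (8 / 7)) := by
    refine (differentiableOn_compl_singleton_and_continuousAt_iff
      (ball_mem_nhds (0 : ℂ) (by norm_num))).1 ⟨?_, ?_⟩
    · have e1 : DifferentiableOn ℂ (fun ζ : ℂ => D (ζ⁻¹)) (ball 0 (8 / 7) \ {0}) := by
        refine hD.comp (differentiableOn_inv.mono fun ζ hζ => hζ.2) ?_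
        intro ζ hζ
        exact hinv ζ hζ.2 (by simpa using hζ.1)
      exact e1.congr fun ζ hζ => hEne ζ hζ.2
    · have e1 : Tendsto (fun ζ : ℂ => C * ‖ζ‖) (𝓝 0) (𝓝 0) := by
        have : Continuous (fun ζ : ℂ => C * ‖ζ‖) := by fun_prop
        simpa using this.tendsto 0
      rw [ContinuousAt, hE0]
      refine squeeze_zero_norm' ?_ e1
      have e2 : ∀ᶠ ζ in 𝓝 (0 : ℂ), ζ ∈ ball (0 : ℂ) (1 / 2) := ball_mem_nhds _ (by norm_num)
      filter_upwards [e2] with ζ hζ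
      by_cases h0 : ζ = 0
      · simp [h0, hE0]
      · rw [hEne ζ h0]
        have h1 : ‖ζ‖ < 1 / 2 := by simpa using hζ
        have h2 : 0 < ‖ζ‖ := norm_pos_iff.2 h0
        have h3 : 2 ≤ ‖ζ⁻¹‖ := by
          rw [norm_inv]
          have : (1 / 2 : ℝ)⁻¹ ≤ ‖ζ‖⁻¹ := (inv_le_inv₀ (by norm_num) h2).2 h1.le
          linarith [(by norm_num : ((1 / 2 : ℝ))⁻¹ = 2)]
        have h4 := hC _ h3
        rw [norm_inv] at h4
        simpa using h4
  have hE' : DifferentiableOn ℂ (deriv E) (ball 0 (8 / 7)) := hEd.deriv isOpen_ball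
  have hder : ∀ ζ : ℂ, ζ ≠ 0 → ‖ζ‖ < 8 / 7 → deriv E ζ * ζ ^ 2 = - deriv D (ζ⁻¹) := by
    intro ζ h0 h1
    have e1 : E =ᶠ[𝓝 ζ] fun ζ => D (ζ⁻¹) := by
      filter_upwards [isOpen_ne.mem_nhds h0] with x hx
      exact hEne x hx
    have e2 : HasDerivAt D (deriv D (ζ⁻¹)) (ζ⁻¹) :=
      (hD.differentiableAt (hUo.mem_nhds (hinv ζ h0 h1))).hasDerivAt
    have e3 : HasDerivAt (fun ζ => D (ζ⁻¹)) (deriv D (ζ⁻¹) * (-(ζ ^ 2)⁻¹)) ζ :=
      e2.comp ζ (hasDerivAt_inv h0)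
    rw [e1.deriv_eq, e3.deriv]
    field_simp
  have hw0 : w ≠ 0 := by
    intro h0
    rw [h0, norm_zero] at hw
    norm_num at hw
  have hwp : 0 < ‖w‖ := norm_pos_iff.2 hw0
  have hws : ∀ s : ℂ, ‖s‖ ≤ 1 → ‖w⁻¹ * s‖ < 8 / 7 := by
    intro s hs
    rw [norm_mul, norm_inv]
    have h1 := (inv_lt_inv₀ hwp (by norm_num : (0 : ℝ) < 7 / 8)).2 hw
    have h2 : 0 < ‖w‖⁻¹ := inv_pos.2 hwp
    have h3 : (7 / 8 : ℝ)⁻¹ = 8 / 7 := by norm_num
    rw [h3] at h1
    calc ‖w‖⁻¹ * ‖s‖ ≤ ‖w‖⁻¹ * 1 := mul_le_mul_of_nonneg_left hs h2.le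
      _ < 8 / 7 := by linarith
  set P : ℂ → ℂ := fun s => a * conj w * (E (w⁻¹ * s) * s) - b * (deriv E (w⁻¹ * s) * (w⁻¹ * s) ^ 2)
    with hP
  have hPd : DifferentiableOn ℂ P (closedBall 0 1) := by
    have e0 : MapsTo (fun s : ℂ => w⁻¹ * s) (closedBall 0 1) (ball 0 (8 / 7)) := by
      intro s hs
      rw [mem_ball_zero_iff]
      exact hws s (by simpa using hs)
    have e1 : DifferentiableOn ℂ (fun s : ℂ => E (w⁻¹ * s)) (closedBall 0 1) :=
      hEd.comp (by fun_prop) e0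
    have e2 : DifferentiableOn ℂ (fun s : ℂ => deriv E (w⁻¹ * s)) (closedBall 0 1) :=
      hE'.comp (by fun_prop) e0
    have e3 : DifferentiableOn ℂ (fun s : ℂ => (w⁻¹ * s) ^ 2) (closedBall 0 1) := by fun_prop
    exact ((e1.mul differentiableOn_id).const_mul _).sub ((e2.mul e3).const_mul _)
  have hP0 : P 0 = 0 := by simp [hP]
  have hG : Real.circleAverage P 0 1 = P 0 := by
    refine circleAverage_of_differentiable_on_off_countable (s := ∅) countable_empty ?_ ?_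
    · rw [abs_one]
      exact hPd.continuousOn
    · intro s hs
      have hs' : s ∈ ball (0 : ℂ) 1 := by simpa using hs.1
      exact (hPd.mono ball_subset_closedBall).differentiableAt (isOpen_ball.mem_nhds hs')
  have hPθ : ∀ θ : ℝ, P (circleMap 0 1 θ) = D (exp (-θ * I) * w) * (a * conj (exp (-θ * I) * w)) +
      deriv D (exp (-θ * I) * w) * b := by
    intro θ
    have h1 : circleMap 0 1 θ = exp (θ * I) := by simp [circleMap]
    have h2 : w⁻¹ * exp (θ * I) = (exp (-θ * I) * w)⁻¹ := by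
      rw [mul_inv, ← exp_neg]
      have : -(-(θ : ℂ) * I) = θ * I := by ring
      rw [this, mul_comm]
    have h3 : w⁻¹ * exp (θ * I) ≠ 0 := mul_ne_zero (inv_ne_zero hw0) (exp_ne_zero _)
    have h4 : ‖w⁻¹ * exp (θ * I)‖ < 8 / 7 := hws _ (Complex.norm_exp_ofReal_mul_I θ).le
    have h5 : (w⁻¹ * exp (θ * I))⁻¹ = exp (-θ * I) * w := by rw [h2, inv_inv]
    have h6 := hder _ h3 h4
    have h7 := hEne _ h3
    rw [h5] at h6 h7
    have h8 : conj (exp (-θ * I) * w) = exp (θ * I) * conj w := by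
      rw [map_mul, ← exp_conj]
      simp
    rw [h1, hP]
    simp only
    rw [h6, h7, h8]
    ring
  rw [Real.circleAverage_def, hP0] at hG
  simp only [hPθ] at hG
  rw [smul_eq_zero] at hG
  refine hG.resolve_left ?_
  have := Real.pi_pos
  positivity

/-- the integral of `A` over the disc -/
private theorem barea_A (D A B : ℂ → ℂ) (hDc : Continuous D) (hW : WD univ D A B)
    (hD : DifferentiableOn ℂ D {z : ℂ | 7 / 8 < ‖z‖}) (hDec : Dec D) (hA : MemLp A 2 volume)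
    (hAe : ∀ᵐ z : ℂ, 7 / 8 < ‖z‖ → A z = deriv D z) (r : ℝ) (hr : 7 / 8 < r) :
    ∫ z in ball (0 : ℂ) r, A z = 0 := by
  have hUo : IsOpen {z : ℂ | 7 / 8 < ‖z‖} := isOpen_lt continuous_const continuous_norm
  have hr0 : 0 < r := by linarith
  obtain ⟨hTF, hone, hzero, hdz⟩ := barea_eta r hr0
  set K : Set ℂ := {w : ℂ | r ≤ ‖w‖ ∧ ‖w‖ ≤ r + 1} with hK
  have hKc : IsCompact K := barea_Kcomp r
  set η : ℂ → ℂ := fun z : ℂ => ((barea_f r (‖z‖ ^ 2) : ℝ) : ℂ) with hη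
  have hη2 : MemLp η 2 volume := hTF.1.continuous.memLp_of_hasCompactSupport hTF.2.1
  have hAη : Integrable (fun z => A z * η z) volume := hA.integrable_mul hη2
  have hW1 := hW.hA η hTF
  -- pieces
  have hKU : K ⊆ {z : ℂ | 7 / 8 < ‖z‖} := fun z hz => lt_of_lt_of_le hr hz.1
  have hKsub : K ⊆ (ball (0 : ℂ) r)ᶜ := by
    intro z hz
    rw [mem_compl_iff, mem_ball_zero_iff, not_lt]
    exact hz.1
  have hf'c : Continuous (deriv (barea_f r)) := (barea_f_smooth r).continuous_deriv (by simp)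
  have hdη : (fun z => D z * dz η z)
      = fun z => D z * (((deriv (barea_f r) (‖z‖ ^ 2) : ℝ) : ℂ) * conj z) := by
    funext z
    rw [hdz z]
  have p1 : ∫ z, D z * dz η z
      = ∫ z in K, D z * (((deriv (barea_f r) (‖z‖ ^ 2) : ℝ) : ℂ) * conj z) := by
    rw [hdη, ← setIntegral_univ]
    refine setIntegral_eq_of_subset_of_forall_sdiff_eq_zero MeasurableSet.univ (subset_univ _) ?_
    intro z hz
    have hz' : z ∉ K := hz.2
    have : deriv (barea_f r) (‖z‖ ^ 2) = 0 := by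
      refine barea_f_deriv r _ ?_
      by_cases h1 : r ≤ ‖z‖
      · have h2 : r + 1 < ‖z‖ := by
          by_contra hcon
          exact hz' ⟨h1, not_lt.1 hcon⟩
        right
        nlinarith
      · left
        rw [not_le] at h1
        nlinarith [norm_nonneg z]
    rw [this]
    simp
  have p2 : ∫ z in (ball (0 : ℂ) r)ᶜ, A z * η z = ∫ z in K, A z * η z := by
    refine setIntegral_eq_of_subset_of_forall_sdiff_eq_zero measurableSet_ball.compl hKsub ?_
    intro z hz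
    have h1 : r ≤ ‖z‖ := by
      have := hz.1
      rw [mem_compl_iff, mem_ball_zero_iff, not_lt] at this
      exact this
    have h2 : r + 1 < ‖z‖ := by
      by_contra hcon
      exact hz.2 ⟨h1, not_lt.1 hcon⟩
    simp [hη, hzero z h2]
  have p3 : ∫ z in K, A z * η z = ∫ z in K, deriv D z * η z := by
    refine setIntegral_congr_ae hKc.measurableSet ?_
    filter_upwards [hAe] with z hz hzK
    rw [hz (hKU hzK)]
  have p4 : ∫ z in ball (0 : ℂ) r, A z * η z = ∫ z in ball (0 : ℂ) r, A z := by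
    refine setIntegral_congr_fun measurableSet_ball ?_
    intro z hz
    have : ‖z‖ ≤ r := by
      have := mem_ball_zero_iff.1 hz
      exact this.le
    simp [hη, hone z this]
  have p5 := integral_add_compl (measurableSet_ball (x := (0 : ℂ)) (ε := r)) hAη
  have c1 : ContinuousOn (fun z => D z * (((deriv (barea_f r) (‖z‖ ^ 2) : ℝ) : ℂ) * conj z)) K := by
    have : Continuous (fun z => D z * (((deriv (barea_f r) (‖z‖ ^ 2) : ℝ) : ℂ) * conj z)) := by
      fun_prop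
    exact this.continuousOn
  have c2 : ContinuousOn (fun z => deriv D z * η z) K :=
    ((hD.deriv hUo).continuousOn.mono hKU).mul hTF.1.continuous.continuousOn
  have p6 := barea_rot r (fun z => D z * (((deriv (barea_f r) (‖z‖ ^ 2) : ℝ) : ℂ) * conj z) +
    deriv D z * η z) (c1.add c2) (by
      intro w hw1 hw2
      have hn : ∀ θ : ℝ, ‖exp (-θ * I) * w‖ = ‖w‖ := by
        intro θ
        have := Complex.norm_exp_ofReal_mul_I (-θ)
        push_cast at this
        rw [norm_mul, this, one_mul]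
      have := barea_mean D hD hDec w (lt_of_lt_of_le hr hw1)
        (((deriv (barea_f r) (‖w‖ ^ 2) : ℝ) : ℂ)) (η w)
      rw [← this]
      refine intervalIntegral.integral_congr fun θ _ => ?_
      simp only [hη, hn])
  have p7 : ∫ z in K, (D z * (((deriv (barea_f r) (‖z‖ ^ 2) : ℝ) : ℂ) * conj z) +
      deriv D z * η z) = (∫ z in K, D z * (((deriv (barea_f r) (‖z‖ ^ 2) : ℝ) : ℂ) * conj z)) +
      ∫ z in K, deriv D z * η z :=
    integral_add (c1.integrableOn_compact hKc) (c2.integrableOn_compact hKc)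
  rw [p1] at hW1
  rw [p4, p2, p3] at p5
  rw [p7] at p6
  linear_combination p5 - p6 + hW1

private theorem barea_norm {A : ℂ → ℂ} (hA : MemLp A 2 volume) :
    eLpNorm A 2 volume = ENNReal.ofReal ((∫ z, ‖A z‖ ^ 2) ^ (2 : ℝ)⁻¹) := by
  have h := hA.eLpNorm_eq_integral_rpow_norm two_ne_zero ENNReal.ofNat_ne_top
  rw [h]
  congr 2
  · refine integral_congr_ae (Eventually.of_forall fun z => ?_)
    simp
  
theorem piece_barea (h1 : S_uniq) (h2 : S_wuniq) (h3 : S_smooth) (h4 : S_basic) : S_barea := by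
  intro D A B k hDc hW hD hDec hB r hr
  have hUo : IsOpen {z : ℂ | 7 / 8 < ‖z‖} := isOpen_lt continuous_const continuous_norm
  have hr0 : 0 < r := by linarith
  obtain ⟨_, hA2, hB2, hAB⟩ := h1 D A B hW (by
    filter_upwards [hB] with z hz hz1
    exact hz (by linarith)) hDec
  have hW1 : WD {z : ℂ | 7 / 8 < ‖z‖} D A B := h4.2.2.2.2.1 _ _ _ _ _ (subset_univ _) hW
  have hW2 : WD {z : ℂ | 7 / 8 < ‖z‖} D (deriv D) (fun _ => 0) := h3.2.1 _ _ hUo hD
  have hAe0 := (h2 _ _ _ _ _ _ _ hUo hW1 hW2 (ae_eq_refl _)).1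
  have hAe : ∀ᵐ z : ℂ, 7 / 8 < ‖z‖ → A z = deriv D z :=
    (ae_restrict_iff' hUo.measurableSet).1 hAe0
  have hAz := barea_A D A B hDc hW hD hDec hA2 hAe r hr
  -- squares
  have hAi : Integrable (fun z => ‖A z‖ ^ 2) volume :=
    (memLp_two_iff_integrable_sq_norm hA2.1).1 hA2
  have hBi : Integrable (fun z => ‖B z‖ ^ 2) volume :=
    (memLp_two_iff_integrable_sq_norm hB2.1).1 hB2
  have hsq : ∫ z, ‖A z‖ ^ 2 = ∫ z, ‖B z‖ ^ 2 := by
    rw [barea_norm hA2, barea_norm hB2] at hAB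
    have a1 : 0 ≤ ∫ z, ‖A z‖ ^ 2 := integral_nonneg fun z => by positivity
    have b1 : 0 ≤ ∫ z, ‖B z‖ ^ 2 := integral_nonneg fun z => by positivity
    rw [ENNReal.ofReal_eq_ofReal_iff (by positivity) (by positivity)] at hAB
    exact (Real.rpow_left_inj a1 b1 (by norm_num)).1 hAB
  have hgi : Integrable (fun z => ‖A z‖ ^ 2 - ‖B z‖ ^ 2) volume := hAi.sub hBi
  have hg0 : ∫ z, (‖A z‖ ^ 2 - ‖B z‖ ^ 2) = 0 := by
    rw [integral_sub hAi hBi, hsq, sub_self]
  -- the exterior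
  have hext : {z : ℂ | r < ‖z‖} = (closedBall (0 : ℂ) r)ᶜ := by
    ext z
    simp
  have hextU : {z : ℂ | r < ‖z‖} ⊆ {z : ℂ | 7 / 8 < ‖z‖} := fun z hz => lt_trans hr hz
  have hextm : MeasurableSet {z : ℂ | r < ‖z‖} :=
    (isOpen_lt continuous_const continuous_norm).measurableSet
  have hcongr : ∀ᵐ z ∂(volume.restrict {z : ℂ | r < ‖z‖}),
      ‖A z‖ ^ 2 - ‖B z‖ ^ 2 = ‖deriv D z‖ ^ 2 := by
    rw [ae_restrict_iff' hextm]
    filter_upwards [hAe, hB] with z hz1 hz2 hz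
    rw [hz1 (hextU hz), hz2 (hextU hz)]
    simp
  have hext1 : IntegrableOn (fun z => ‖deriv D z‖ ^ 2) {z : ℂ | r < ‖z‖} volume :=
    (hgi.integrableOn (s := {z : ℂ | r < ‖z‖})).congr hcongr
  have hext2 : ∫ z in {z : ℂ | r < ‖z‖}, (‖A z‖ ^ 2 - ‖B z‖ ^ 2)
      = ∫ z in {z : ℂ | r < ‖z‖}, ‖deriv D z‖ ^ 2 := integral_congr_ae hcongr
  have hballs : (closedBall (0 : ℂ) r : Set ℂ) =ᵐ[volume] ball (0 : ℂ) r := by
    rw [ae_eq_set]
    constructor
    · rw [closedBall_sdiff_ball]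
      exact Measure.addHaar_sphere_of_ne_zero volume 0 hr0.ne'
    · rw [sdiff_eq_empty.2 ball_subset_closedBall]
      exact measure_empty
  have hin : ∫ z in ball (0 : ℂ) r, (‖A z‖ ^ 2 - ‖B z‖ ^ 2)
      = - ∫ z in {z : ℂ | r < ‖z‖}, ‖deriv D z‖ ^ 2 := by
    have e1 := integral_add_compl (measurableSet_closedBall (x := (0 : ℂ)) (ε := r)) hgi
    rw [← hext, hext2, hg0, setIntegral_congr_set hballs] at e1
    linarith
  -- the disc
  have hfin : IsFiniteMeasure (volume.restrict (ball (0 : ℂ) r)) := ⟨by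
    rw [Measure.restrict_apply_univ]
    exact measure_ball_lt_top⟩
  have hA1 : Integrable A (volume.restrict (ball (0 : ℂ) r)) :=
    (hA2.mono_measure Measure.restrict_le_self).integrable one_le_two
  have hAk : Integrable (fun z => conj (I * k) * A z) (volume.restrict (ball (0 : ℂ) r)) :=
    hA1.const_mul _
  have hre : ∫ z in ball (0 : ℂ) r, (conj (I * k) * A z).re = 0 := by
    have e1 := integral_re hAk
    have e2 : ∫ z in ball (0 : ℂ) r, conj (I * k) * A z = 0 := by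
      rw [integral_const_mul, hAz, mul_zero]
    rw [e2] at e1
    simpa using e1
  have hexp : (fun z => ‖A z + I * k‖ ^ 2 - ‖B z‖ ^ 2)
      = fun z => ((‖A z‖ ^ 2 - ‖B z‖ ^ 2) + 2 * (conj (I * k) * A z).re) + ‖k‖ ^ 2 := by
    funext z
    have e1 := Complex.normSq_add (A z) (I * k)
    rw [Complex.normSq_eq_norm_sq, Complex.normSq_eq_norm_sq, Complex.normSq_eq_norm_sq,
      norm_mul, norm_I, one_mul, mul_comm (A z)] at e1
    rw [e1]
    ring
  have i1 : Integrable (fun z => ‖A z‖ ^ 2 - ‖B z‖ ^ 2) (volume.restrict (ball (0 : ℂ) r)) :=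
    hgi.integrableOn
  have i2 : Integrable (fun z => 2 * (conj (I * k) * A z).re) (volume.restrict (ball (0 : ℂ) r)) :=
    hAk.re.const_mul 2
  have i3 : Integrable (fun _ : ℂ => ‖k‖ ^ 2) (volume.restrict (ball (0 : ℂ) r)) :=
    integrable_const _
  have i12 : Integrable (fun z => (‖A z‖ ^ 2 - ‖B z‖ ^ 2) + 2 * (conj (I * k) * A z).re)
      (volume.restrict (ball (0 : ℂ) r)) := i1.add i2
  refine ⟨?_, hext1, ?_⟩
  · rw [hexp]
    exact i12.add i3
  · rw [hexp, integral_add i12 i3, integral_add i1 i2, hin, integral_const_mul, hre,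
      setIntegral_const, Measure.real, Complex.volume_ball]
    simp [hr0.le]
    ring

end Cal
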