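import Pool.Agent.Lib.MP_4ea4c7_an.Stm1

open MeasureTheory Complex Metric Set Filter Topology
open scoped ComplexConjugate ENNReal NNReal

namespace Cal

private theorem bas_two : (starRingEnd ℂ) 2 = 2 := map_ofNat (starRingEnd ℂ) 2

private theorem bas_zero {K : Set ℂ} {φ : ℂ → ℂ} (h : tsupport φ ⊆ K) :
    ∀ z, z ∉ K → φ z = 0 ∧ dz φ z = 0 ∧ db φ z = 0 := by
  intro z hz
  have h1 : z ∉ tsupport φ := fun h' => hz (h h')
  have h2 : φ z = 0 := image_eq_zero_of_notMem_tsupport h1
  have h3 : fderiv ℝ φ z = 0 := by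
    by_contra hne
    exact h1 (support_fderiv_subset ℝ (Function.mem_support.mpr hne))
  refine ⟨h2, ?_, ?_⟩ <;> simp [dz, db, h3]

private theorem bas_cont {φ : ℂ → ℂ} (h : ContDiff ℝ (⊤ : ℕ∞) φ) :
    Continuous φ ∧ Continuous (dz φ) ∧ Continuous (db φ) := by
  have h1 : Continuous (fderiv ℝ φ) := h.continuous_fderiv (by simp)
  have h2 : ∀ v : ℂ, Continuous (fun z => fderiv ℝ φ z v) := fun v =>
    h1.clm_apply continuous_const
  refine ⟨h.continuous, ?_, ?_⟩
  · unfold dz
    exact ((h2 1).sub (continuous_const.mul (h2 I))).div_const 2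
  · unfold db
    exact ((h2 1).add (continuous_const.mul (h2 I))).div_const 2

private theorem bas_int {U : Set ℂ} {f ψ : ℂ → ℂ} (hf : L2loc U f) {K : Set ℂ} (hK : IsCompact K)
    (hKU : K ⊆ U) (hc : Continuous ψ) (hz : ∀ z, z ∉ K → ψ z = 0) :
    Integrable (fun z => f z * ψ z) volume := by
  have h1 : MemLp f 2 (volume.restrict K) := hf K hK hKU
  have h2 : MemLp ψ 2 (volume.restrict K) := by
    obtain ⟨C, hC⟩ := hK.exists_bound_of_continuousOn hc.continuousOn
    have : IsFiniteMeasure (volume.restrict K) := ⟨by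
      rw [Measure.restrict_apply_univ]
      exact hK.measure_lt_top⟩
    refine MemLp.of_bound hc.aestronglyMeasurable C ?_
    rw [ae_restrict_iff' hK.measurableSet]
    exact Filter.Eventually.of_forall hC
  have h3 : Integrable (f * ψ) (volume.restrict K) := h1.integrable_mul h2
  have h4 : Function.support (fun z => f z * ψ z) ⊆ K := by
    intro z hzs
    by_contra hne
    exact hzs (by simp [hz z hne])
  exact (integrableOn_iff_integrable_of_support_subset h4).mp h3

private theorem bas_intz {U : Set ℂ} {f φ : ℂ → ℂ} (hf : L2loc U f) (hφ : TF U φ) :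
    Integrable (fun z => f z * φ z) volume ∧ Integrable (fun z => f z * dz φ z) volume ∧
      Integrable (fun z => f z * db φ z) volume := by
  have hc := bas_cont hφ.1
  have hK : IsCompact (tsupport φ) := hφ.2.1
  have h0 := bas_zero (le_refl (tsupport φ))
  exact ⟨bas_int hf hK hφ.2.2 hc.1 (fun z hz => (h0 z hz).1),
    bas_int hf hK hφ.2.2 hc.2.1 (fun z hz => (h0 z hz).2.1),
    bas_int hf hK hφ.2.2 hc.2.2 (fun z hz => (h0 z hz).2.2)⟩

private theorem bas_L2conj {U : Set ℂ} {f : ℂ → ℂ} (hf : L2loc U f) :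
    L2loc U (fun z => conj (f z)) := by
  intro K hK hKU
  have h := hf K hK hKU
  refine h.congr_norm (continuous_conj.comp_aestronglyMeasurable h.aestronglyMeasurable) ?_
  refine Filter.Eventually.of_forall (fun z => ?_)
  simp

private theorem bas_fd {φ : ℂ → ℂ} (z v : ℂ) :
    fderiv ℝ (fun w => conj (φ w)) z v = conj (fderiv ℝ φ z v) := by
  have h := ContinuousLinearEquiv.comp_fderiv (𝕜 := ℝ) conjCLE (f := φ) (x := z)
  have h2 : (⇑conjCLE ∘ φ) = (fun w => conj (φ w)) := by
    funext w; rfl
  rw [h2] at h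
  rw [h]
  rfl

private theorem bas_dzconj (φ : ℂ → ℂ) (z : ℂ) :
    dz (fun w => conj (φ w)) z = conj (db φ z) ∧ db (fun w => conj (φ w)) z = conj (dz φ z) := by
  constructor
  · simp only [dz, db, bas_fd]
    simp [map_div₀, sub_eq_add_neg, bas_two]
  · simp only [dz, db, bas_fd]
    simp [map_div₀, sub_eq_add_neg, bas_two]

private theorem bas_TFconj {U : Set ℂ} {φ : ℂ → ℂ} (h : TF U φ) : TF U (fun w => conj (φ w)) := by
  refine ⟨conjCLE.contDiff.comp h.1, ?_, ?_⟩
  · exact h.2.1.comp_left (g := fun w : ℂ => conj w) (by simp)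
  · exact (tsupport_comp_subset (g := fun w : ℂ => conj w) (by simp) φ).trans h.2.2

private theorem bas_homeo (z : ℂ) : conjCLE.toHomeomorph z = conj z := rfl

private theorem bas_TFrefl {U : Set ℂ} {φ : ℂ → ℂ} (h : TF {z | conj z ∈ U} φ) :
    TF U (fun w => conj (φ (conj w))) := by
  have h1 : TF U (fun w => φ (conj w)) := by
    refine ⟨h.1.comp conjCLE.contDiff, ?_, ?_⟩
    · exact h.2.1.comp_homeomorph conjCLE.toHomeomorph
    · have h2 := tsupport_comp_eq_preimage φ conjCLE.toHomeomorph
      have h3 : (φ ∘ ⇑conjCLE.toHomeomorph) = (fun w => φ (conj w)) := by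
        funext w; rfl
      rw [h3] at h2
      rw [h2]
      intro z hz
      have := h.2.2 hz
      simp only [Set.mem_ofPred_eq, bas_homeo] at this
      simpa using this
  exact bas_TFconj h1

private theorem bas_fdr {φ : ℂ → ℂ} (z v : ℂ) :
    fderiv ℝ (fun w => φ (conj w)) z v = fderiv ℝ φ (conj z) (conj v) := by
  have h := ContinuousLinearEquiv.comp_right_fderiv (𝕜 := ℝ) conjCLE (f := φ) (x := z)
  have h2 : (φ ∘ ⇑conjCLE) = (fun w => φ (conj w)) := by
    funext w; rfl
  rw [h2] at h
  rw [h]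
  rfl

private theorem bas_dzrefl (φ : ℂ → ℂ) (z : ℂ) :
    dz (fun w => conj (φ (conj w))) z = conj (dz φ (conj z)) ∧
    db (fun w => conj (φ (conj w))) z = conj (db φ (conj z)) := by
  have h1 : ∀ v : ℂ, fderiv ℝ (fun w => conj (φ (conj w))) z v
      = conj (fderiv ℝ φ (conj z) (conj v)) := by
    intro v
    rw [bas_fd (φ := fun w => φ (conj w)), bas_fdr]
  constructor
  · simp only [dz, h1]
    simp [map_div₀, sub_eq_add_neg, bas_two]
  · simp only [db, h1]
    simp [map_div₀, sub_eq_add_neg, bas_two]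

private theorem bas_subst (g : ℂ → ℂ) : ∫ z, g (conj z) = ∫ z, g z := by
  have h := (conjLIE.measurePreserving).integral_comp
    conjLIE.toHomeomorph.measurableEmbedding g
  exact h

private theorem bas_L2refl {U : Set ℂ} {f : ℂ → ℂ} (hf : L2loc U f) :
    L2loc {z | conj z ∈ U} (fun z => conj (f (conj z))) := by
  have hf' := bas_L2conj hf
  intro K hK hKU
  have hcc : ∀ z : ℂ, conjLIE z = conj z := fun z => rfl
  have hK' : IsCompact (conjLIE '' K) := hK.image conjLIE.continuous
  have hKU' : conjLIE '' K ⊆ U := by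
    rintro _ ⟨z, hz, rfl⟩
    exact hKU hz
  have h1 := hf' _ hK' hKU'
  have h2 := (conjLIE.measurePreserving).restrict_preimage hK'.measurableSet
  have h3 : conjLIE ⁻¹' (conjLIE '' K) = K := Set.preimage_image_eq K conjLIE.injective
  rw [h3] at h2
  exact h1.comp_measurePreserving h2

theorem piece_basic : S_basic := by
  refine ⟨?_, ?_, ?_, ?_, ?_, ?_⟩
  · intro U f A B f' A' B' h h'
    have hadd : ∀ g g' : ℂ → ℂ, L2loc U g → L2loc U g' → L2loc U (fun z => g z + g' z) :=
      fun g g' hg hg' K hK hKU => (hg K hK hKU).add (hg' K hK hKU)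
    refine ⟨hadd _ _ h.f2 h'.f2, hadd _ _ h.A2 h'.A2, hadd _ _ h.B2 h'.B2, ?_, ?_⟩
    · intro φ hφ
      have i1 := (bas_intz h.f2 hφ).2.1
      have i2 := (bas_intz h'.f2 hφ).2.1
      have i3 := (bas_intz h.A2 hφ).1
      have i4 := (bas_intz h'.A2 hφ).1
      simp only [add_mul]
      rw [integral_add i1 i2, integral_add i3 i4, h.hA φ hφ, h'.hA φ hφ]
      ring
    · intro φ hφ
      have i1 := (bas_intz h.f2 hφ).2.2
      have i2 := (bas_intz h'.f2 hφ).2.2
      have i3 := (bas_intz h.B2 hφ).1
      have i4 := (bas_intz h'.B2 hφ).1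
      simp only [add_mul]
      rw [integral_add i1 i2, integral_add i3 i4, h.hB φ hφ, h'.hB φ hφ]
      ring
  · intro U f A B c h
    have hm : ∀ g : ℂ → ℂ, L2loc U g → L2loc U (fun z => c * g z) :=
      fun g hg K hK hKU => (hg K hK hKU).const_mul c
    refine ⟨hm _ h.f2, hm _ h.A2, hm _ h.B2, ?_, ?_⟩
    · intro φ hφ
      simp only [mul_assoc]
      rw [integral_const_mul, integral_const_mul, h.hA φ hφ]
      ring
    · intro φ hφ
      simp only [mul_assoc]
      rw [integral_const_mul, integral_const_mul, h.hB φ hφ]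
      ring
  · intro U f A B h
    refine ⟨bas_L2conj h.f2, bas_L2conj h.B2, bas_L2conj h.A2, ?_, ?_⟩
    · intro φ hφ
      have h1 := h.hB _ (bas_TFconj hφ)
      have h2 : ∫ z, conj (f z) * dz φ z = conj (∫ z, f z * db (fun w => conj (φ w)) z) := by
        rw [← integral_conj]
        refine integral_congr_ae (Filter.Eventually.of_forall (fun z => ?_))
        simp only [(bas_dzconj φ z).2, map_mul, Complex.conj_conj]
      rw [h2, h1, map_neg, ← integral_conj]
      congr 1
      refine integral_congr_ae (Filter.Eventually.of_forall (fun z => ?_))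
      simp only [map_mul, Complex.conj_conj]
    · intro φ hφ
      have h1 := h.hA _ (bas_TFconj hφ)
      have h2 : ∫ z, conj (f z) * db φ z = conj (∫ z, f z * dz (fun w => conj (φ w)) z) := by
        rw [← integral_conj]
        refine integral_congr_ae (Filter.Eventually.of_forall (fun z => ?_))
        simp only [(bas_dzconj φ z).1, map_mul, Complex.conj_conj]
      rw [h2, h1, map_neg, ← integral_conj]
      congr 1
      refine integral_congr_ae (Filter.Eventually.of_forall (fun z => ?_))
      simp only [map_mul, Complex.conj_conj]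
  · intro U f A B f' A' B' hU h hf hA hB
    have hL : ∀ g g' : ℂ → ℂ, L2loc U g → g =ᵐ[volume.restrict U] g' → L2loc U g' :=
      fun g g' hg hgg K hK hKU =>
        MemLp.ae_eq (ae_restrict_of_ae_restrict_of_subset hKU hgg) (hg K hK hKU)
    have hI : ∀ (g g' ψ : ℂ → ℂ), g =ᵐ[volume.restrict U] g' → (∀ z, z ∉ U → ψ z = 0) →
        ∫ z, g z * ψ z = ∫ z, g' z * ψ z := by
      intro g g' ψ hg hψ
      refine integral_congr_ae ?_
      have h1 := (ae_restrict_iff' hU).mp hg
      filter_upwards [h1] with z hz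
      by_cases hzU : z ∈ U
      · rw [hz hzU]
      · rw [hψ z hzU]; simp
    refine ⟨hL _ _ h.f2 hf, hL _ _ h.A2 hA, hL _ _ h.B2 hB, ?_, ?_⟩
    · intro φ hφ
      have h0 := bas_zero hφ.2.2
      rw [← hI f f' (dz φ) hf (fun z hz => (h0 z hz).2.1), ← hI A A' φ hA (fun z hz => (h0 z hz).1)]
      exact h.hA φ hφ
    · intro φ hφ
      have h0 := bas_zero hφ.2.2
      rw [← hI f f' (db φ) hf (fun z hz => (h0 z hz).2.2), ← hI B B' φ hB (fun z hz => (h0 z hz).1)]
      exact h.hB φ hφ
  · intro U V f A B hVU h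
    exact ⟨fun K hK hKV => h.f2 K hK (hKV.trans hVU), fun K hK hKV => h.A2 K hK (hKV.trans hVU),
      fun K hK hKV => h.B2 K hK (hKV.trans hVU),
      fun φ hφ => h.hA φ ⟨hφ.1, hφ.2.1, hφ.2.2.trans hVU⟩,
      fun φ hφ => h.hB φ ⟨hφ.1, hφ.2.1, hφ.2.2.trans hVU⟩⟩
  · intro U f A B h
    refine ⟨bas_L2refl h.f2, bas_L2refl h.A2, bas_L2refl h.B2, ?_, ?_⟩
    · intro φ hφ
      have h1 := h.hA _ (bas_TFrefl hφ)
      have h2 : ∫ z, conj (f (conj z)) * dz φ z
          = conj (∫ z, f z * dz (fun w => conj (φ (conj w))) z) := by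
        rw [← integral_conj, ← bas_subst (fun z => conj (f z * dz (fun w => conj (φ (conj w))) z))]
        refine integral_congr_ae (Filter.Eventually.of_forall (fun z => ?_))
        simp only [(bas_dzrefl φ _).1, map_mul, Complex.conj_conj]
      rw [h2, h1, map_neg, ← integral_conj, ← bas_subst (fun z => conj (A z * conj (φ (conj z))))]
      congr 1
      refine integral_congr_ae (Filter.Eventually.of_forall (fun z => ?_))
      simp only [map_mul, Complex.conj_conj]
    · intro φ hφ
      have h1 := h.hB _ (bas_TFrefl hφ)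
      have h2 : ∫ z, conj (f (conj z)) * db φ z
          = conj (∫ z, f z * db (fun w => conj (φ (conj w))) z) := by
        rw [← integral_conj, ← bas_subst (fun z => conj (f z * db (fun w => conj (φ (conj w))) z))]
        refine integral_congr_ae (Filter.Eventually.of_forall (fun z => ?_))
        simp only [(bas_dzrefl φ _).2, map_mul, Complex.conj_conj]
      rw [h2, h1, map_neg, ← integral_conj, ← bas_subst (fun z => conj (B z * conj (φ (conj z))))]
      congr 1
      refine integral_congr_ae (Filter.Eventually.of_forall (fun z => ?_))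
      simp only [map_mul, Complex.conj_conj]

end Cal
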