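import Pool.Agent.Lib.MP_4ea4c7_an.StmH1b

/-!
# [b3] Comparison of degree integrals
-/

open MeasureTheory Complex Metric Set Filter Topology
open scoped ComplexConjugate ENNReal NNReal

namespace Cal

theorem piece_bcmp (h1 : S_bdeg) (h2 : S_wuniq) (h3 : S_basic) : S_bcmp := by
  intro U V f A B f' A' B' η ψ hU hV hVU hf hW hf' hW' hff hη hgr hψ
  obtain ⟨-, -, e1⟩ := h1 U f A B η ψ hU hf hW hη hψ
  obtain ⟨-, -, e2⟩ := h1 U f' A' B' η ψ hU hf' hW' hη hψ
  rw [e1, e2]
  obtain ⟨-, -, -, -, hsub, -⟩ := h3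
  have hWV := hsub U V f A B hVU hW
  have hWV' := hsub U V f' A' B' hVU hW'
  have hfe : f =ᵐ[volume.restrict V] f' := by
    rw [Filter.EventuallyEq, ae_restrict_iff' hV.measurableSet]
    exact Filter.Eventually.of_forall hff
  obtain ⟨hA, hB⟩ := h2 V f A B f' A' B' hV hWV hWV' hfe
  rw [Filter.EventuallyEq, ae_restrict_iff' hV.measurableSet] at hA hB
  congr 1
  apply integral_congr_ae
  filter_upwards [hA, hB] with z hAz hBz
  by_cases hz : z ∈ V
  · rw [hff z hz, hAz hz, hBz hz]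
  · rw [hgr z hz]
    simp [cr]

end Cal
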