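import Pool.Agent.Lib.MP_4ea4c7_an.StmH1b

/-!
# MP_4ea4c7_an, stage 2, piece [b2]: the degree integral as a boundary term
-/

open MeasureTheory Complex Metric Set Filter Topology
open scoped ComplexConjugate ENNReal NNReal

namespace Cal

noncomputable section

private theorem bdeg_fd (φ : ℂ → ℝ) (z v : ℂ) (h : DifferentiableAt ℝ φ z) :
    fderiv ℝ (fun w => (φ w : ℂ)) z v = ((fderiv ℝ φ z v : ℝ) : ℂ) := by
  have h1 : HasFDerivAt (fun w => (φ w : ℂ)) (Complex.ofRealCLM.comp (fderiv ℝ φ z)) z :=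
    Complex.ofRealCLM.hasFDerivAt.comp z h.hasFDerivAt
  rw [h1.fderiv]
  rfl

private theorem bdeg_dz (φ : ℂ → ℝ) (z : ℂ) (h : DifferentiableAt ℝ φ z) :
    dz (fun w => (φ w : ℂ)) z = conj (db (fun w => (φ w : ℂ)) z) := by
  unfold dz db
  rw [bdeg_fd φ z 1 h, bdeg_fd φ z I h]
  simp only [map_div₀, map_add, map_mul, conj_I, conj_ofReal, map_ofNat]
  ring

private theorem bdeg_pt (p x y e : ℝ) (A B g : ℂ) :
    cr (conj ((conj (((x : ℂ) + (y : ℂ) * I) / 2) * A + ((x : ℂ) + (y : ℂ) * I) / 2 * conj B) * (e : ℂ) +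
        (p : ℂ) * conj (g / 2)) +
      ((conj (((x : ℂ) + (y : ℂ) * I) / 2) * B + ((x : ℂ) + (y : ℂ) * I) / 2 * conj A) * (e : ℂ) +
        (p : ℂ) * (g / 2))) (I * (conj A - B)) =
      p * cr g (I * (conj A - B)) + e * x * (‖A‖ ^ 2 - ‖B‖ ^ 2) := by
  rw [← Complex.normSq_eq_norm_sq, ← Complex.normSq_eq_norm_sq]
  have e2 : ((x : ℂ) + (y : ℂ) * I) / 2 = ((x / 2 : ℝ) : ℂ) + ((y / 2 : ℝ) : ℂ) * I := by
    push_cast; ring
  have e3 : g / 2 = ((g.re / 2 : ℝ) : ℂ) + ((g.im / 2 : ℝ) : ℂ) * I := by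
    have := Complex.re_add_im g
    push_cast
    linear_combination (-1 / 2 : ℂ) * this
  rw [e2, e3]
  simp only [cr, map_add, map_mul, conj_ofReal, conj_I, conj_conj, normSq_apply,
    Complex.mul_im, Complex.mul_re, Complex.add_re, Complex.add_im, Complex.sub_re, Complex.sub_im,
    Complex.ofReal_re, Complex.ofReal_im, Complex.I_re, Complex.I_im, Complex.conj_re,
    Complex.conj_im, Complex.neg_re, Complex.neg_im]
  ring

theorem piece_bdeg (h1 : S_bpp) (h2 : S_chain) (h3 : S_smooth) (_h4 : S_prod) (h5 : S_bridge)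
    (h6 : S_basic) (h7 : S_glue) (h8 : S_wedge) : S_bdeg := by
  intro U f A B η ψ hU hf hW hη hψ
  obtain ⟨hPs, ⟨M, hM⟩, hPre, -⟩ := h1 ψ hψ
  obtain ⟨hη1, hη2, hη3⟩ := hη
  have hcof : ContDiff ℝ (⊤ : ℕ∞) (fun x : ℝ => (x : ℂ)) := Complex.ofRealCLM.contDiff
  have hPc : ContDiff ℝ (⊤ : ℕ∞) (fun w => (PP ψ w : ℂ)) := hcof.comp hPs
  have hηc : ContDiff ℝ (⊤ : ℕ∞) (fun w => (η w : ℂ)) := hcof.comp hη1
  have hPd : ∀ w, DifferentiableAt ℝ (PP ψ) w := fun w =>
    (hPs.differentiable (by simp)).differentiableAt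
  have hηd : ∀ w, DifferentiableAt ℝ η w := fun w =>
    (hη1.differentiable (by simp)).differentiableAt
  have hWc := h2 U univ f A B (fun w => (PP ψ w : ℂ)) hU isOpen_univ hW hf (mapsTo_univ _ _)
    (hPc.of_le (by exact_mod_cast le_top)).contDiffOn
  have hWp := h3.2.2 U _ _ _ (fun z => (η z : ℂ)) hU hWc hηc.contDiffOn
  set F : ℂ → ℂ := fun z => (PP ψ (f z) : ℂ) * (η z : ℂ) with hF
  set A2 : ℂ → ℂ := fun z => (dz (fun w => (PP ψ w : ℂ)) (f z) * A z +
    db (fun w => (PP ψ w : ℂ)) (f z) * conj (B z)) * (η z : ℂ) +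
    (PP ψ (f z) : ℂ) * dz (fun z => (η z : ℂ)) z with hA2
  set B2 : ℂ → ℂ := fun z => (dz (fun w => (PP ψ w : ℂ)) (f z) * B z +
    db (fun w => (PP ψ w : ℂ)) (f z) * conj (A z)) * (η z : ℂ) +
    (PP ψ (f z) : ℂ) * db (fun z => (η z : ℂ)) z with hB2
  -- vanishing off the support
  have hη0 : ∀ z, z ∉ tsupport η → η z = 0 := fun z hz => image_eq_zero_of_notMem_tsupport hz
  have hfd0 : ∀ z, z ∉ tsupport η → fderiv ℝ (fun z => (η z : ℂ)) z = 0 := by
    intro z hz
    have e1 : (fun z => (η z : ℂ)) =ᶠ[𝓝 z] (fun _ => (0 : ℂ)) := by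
      have := notMem_tsupport_iff_eventuallyEq.mp hz
      filter_upwards [this] with w hw
      rw [hw]
      simp
    rw [e1.fderiv_eq]
    simp
  have hF0 : ∀ z, z ∉ tsupport η → F z = 0 := by
    intro z hz
    simp only [hF, hη0 z hz, ofReal_zero, mul_zero]
  have hA0 : ∀ z, z ∉ tsupport η → A2 z = 0 := by
    intro z hz
    simp only [hA2, hη0 z hz, dz, hfd0 z hz, ofReal_zero, mul_zero, _root_.zero_apply,
      sub_zero, zero_div, add_zero]
  have hB0 : ∀ z, z ∉ tsupport η → B2 z = 0 := by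
    intro z hz
    simp only [hB2, hη0 z hz, db, hfd0 z hz, ofReal_zero, mul_zero, _root_.zero_apply,
      zero_div, add_zero]
  have hoc : IsOpen (tsupport η)ᶜ := (isClosed_tsupport η).isOpen_compl
  have hW0 : WD (tsupport η)ᶜ F A2 B2 := by
    have h0 := h3.2.1 (tsupport η)ᶜ (fun _ => (0 : ℂ)) hoc (differentiableOn_const 0)
    refine h6.2.2.2.1 _ _ _ _ _ _ _ hoc.measurableSet h0 ?_ ?_ ?_
    · filter_upwards [ae_restrict_mem hoc.measurableSet] with z hz
      rw [hF0 z hz]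
    · filter_upwards [ae_restrict_mem hoc.measurableSet] with z hz
      rw [hA0 z hz]
      simp
    · filter_upwards [ae_restrict_mem hoc.measurableSet] with z hz
      rw [hB0 z hz]
  have hWu : WD univ F A2 B2 := by
    refine h7 univ F A2 B2 isOpen_univ ?_
    intro z _
    by_cases hz : z ∈ tsupport η
    · exact ⟨U, hU, hη3 hz, subset_univ _, hWp⟩
    · exact ⟨(tsupport η)ᶜ, hoc, hz, subset_univ _, hW0⟩
  have hWG := (h5.1 univ F A2 B2 hWu).1
  have hWb := (h5.1 U f A B hW).2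
  have hsupp : Function.support (fun z => (F z).re) ⊆ tsupport η := by
    intro z hz
    by_contra hn
    exact hz (by simp only [hF0 z hn, zero_re])
  have hcs : HasCompactSupport (fun z => (F z).re) := hη2.mono' hsupp
  have hts : tsupport (fun z => (F z).re) ⊆ U :=
    (closure_minimal hsupp (isClosed_tsupport η)).trans hη3
  obtain ⟨hI, hI0, -⟩ := h8 U (fun z => (F z).re) (fun z => (f z).im) _ _ hU hWG hcs hts hWb
  -- the pointwise identity
  have hpt : ∀ z, cr (conj (A2 z) + B2 z) (I * (conj (A z) - B z)) =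
      PP ψ (f z) * cr (gr η z) (I * (conj (A z) - B z)) + η z * ψ (f z) * (‖A z‖ ^ 2 - ‖B z‖ ^ 2) := by
    intro z
    have e1 : db (fun w => (PP ψ w : ℂ)) (f z) =
        (((ψ (f z) : ℝ) : ℂ) + (((gr (PP ψ) (f z)).im : ℝ) : ℂ) * I) / 2 := by
      have := h5.2.2.2 (PP ψ) (f z) (hPd _)
      have e := Complex.re_add_im (gr (PP ψ) (f z))
      rw [hPre (f z)] at e
      rw [e, this]
      ring
    have e2 : dz (fun w => (PP ψ w : ℂ)) (f z) =
        conj ((((ψ (f z) : ℝ) : ℂ) + (((gr (PP ψ) (f z)).im : ℝ) : ℂ) * I) / 2) := by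
      rw [bdeg_dz _ _ (hPd _), e1]
    have e3 : db (fun z => (η z : ℂ)) z = gr η z / 2 := by
      have := h5.2.2.2 η z (hηd _)
      rw [this]
      ring
    have e4 : dz (fun z => (η z : ℂ)) z = conj (gr η z / 2) := by
      rw [bdeg_dz _ _ (hηd _), e3]
    simp only [hA2, hB2]
    rw [e1, e2, e3, e4]
    exact bdeg_pt _ _ _ _ _ _ _
  -- integrability
  have hK : IsCompact (tsupport η) := hη2
  have hi1 : Integrable (fun z => η z * ψ (f z) * (‖A z‖ ^ 2 - ‖B z‖ ^ 2)) volume := by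
    rw [← integrableOn_iff_integrable_of_support_subset (s := tsupport η)]
    · have hA := (hW.A2 _ hK hη3).integrable_norm_pow (by norm_num)
      have hB := (hW.B2 _ hK hη3).integrable_norm_pow (by norm_num)
      have hAB : IntegrableOn (fun z => ‖A z‖ ^ 2 - ‖B z‖ ^ 2) (tsupport η) volume := by
        exact hA.sub hB
      refine hAB.continuousOn_mul ?_ hK
      exact hη1.continuous.continuousOn.mul (hψ.1.continuous.comp_continuousOn (hf.mono hη3))
    · intro z hz
      by_contra hn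
      exact hz (by simp only [hη0 z hn, zero_mul])
  have hI' : Integrable (fun z => PP ψ (f z) * cr (gr η z) (I * (conj (A z) - B z)) +
      η z * ψ (f z) * (‖A z‖ ^ 2 - ‖B z‖ ^ 2)) volume := by
    refine hI.congr (Eventually.of_forall ?_)
    intro z
    exact hpt z
  have hi2 : Integrable (fun z => PP ψ (f z) * cr (gr η z) (I * (conj (A z) - B z))) volume := by
    have := hI'.sub hi1
    refine this.congr (Eventually.of_forall ?_)
    intro z
    simp
  refine ⟨hi1, hi2, ?_⟩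
  have h0 : ∫ z, (PP ψ (f z) * cr (gr η z) (I * (conj (A z) - B z)) +
      η z * ψ (f z) * (‖A z‖ ^ 2 - ‖B z‖ ^ 2)) = 0 := by
    rw [← hI0]
    refine integral_congr_ae (Eventually.of_forall ?_)
    intro z
    exact (hpt z).symm
  rw [integral_add hi2 hi1] at h0
  linarith

end

end Cal
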