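import Pool.Agent.Lib.MP_4ea4c7_an.StmH1b

/-!
# [b7] Degree integrals pass to weak limits
-/

open MeasureTheory Complex Metric Set Filter Topology
open scoped ComplexConjugate ENNReal NNReal

namespace Cal

noncomputable section

private theorem bl_memLp_cont {K : Set ℂ} (hK : IsCompact K) {g : ℂ → ℂ} (hg : ContinuousOn g K) :
    MemLp g 2 (volume.restrict K) := by
  obtain ⟨M, hM⟩ := hK.exists_bound_of_continuousOn hg
  have : IsFiniteMeasure (volume.restrict K) := ⟨by
    rw [Measure.restrict_apply_univ]; exact hK.measure_lt_top⟩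
  refine MemLp.of_bound (hg.aestronglyMeasurable hK.measurableSet) M ?_
  exact (ae_restrict_iff' hK.measurableSet).2 (Eventually.of_forall fun z hz => hM z hz)

/-- convergence of the product of a uniformly convergent and a weakly convergent sequence -/
private theorem bl_conv {K : Set ℂ} (hK : IsCompact K) (M : ℝ) (An : ℕ → ℂ → ℂ) (A : ℂ → ℂ)
    (hb : ∀ᶠ n in atTop, eLpNorm (An n) 2 (volume.restrict K) ≤ ENNReal.ofReal M)
    (hAn : ∀ n, MemLp (An n) 2 (volume.restrict K))
    (hw : ∀ φ : ℂ → ℂ, MemLp φ 2 (volume.restrict K) →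
      Tendsto (fun n => ∫ z in K, An n z * φ z) atTop (𝓝 (∫ z in K, A z * φ z)))
    (hn : ℕ → ℂ → ℂ) (h : ℂ → ℂ) (hu : TendstoUniformlyOn hn h atTop K)
    (hhn : ∀ n, ContinuousOn (hn n) K) (hh : ContinuousOn h K) (φ : ℂ → ℂ) (hφ : ContinuousOn φ K) :
    Tendsto (fun n => ∫ z in K, hn n z * (An n z * φ z)) atTop
      (𝓝 (∫ z in K, h z * (A z * φ z))) := by
  have : IsFiniteMeasure (volume.restrict K) := ⟨by
    rw [Measure.restrict_apply_univ]; exact hK.measure_lt_top⟩
  have hφ2 : MemLp (fun z => h z * φ z) 2 (volume.restrict K) := bl_memLp_cont hK (hh.mul hφ)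
  have h1 := hw _ hφ2
  obtain ⟨C, hC⟩ := hK.exists_bound_of_continuousOn hφ
  -- the integrals of `‖An‖` are bounded
  obtain ⟨M', hM'⟩ : ∃ M' : ℝ, ∀ᶠ n in atTop, ∫ z in K, ‖An n z‖ ≤ M' := by
    refine ⟨(ENNReal.ofReal M * (volume.restrict K) univ ^ (1 / (1 : ℝ≥0∞).toReal - 1 / (2 : ℝ≥0∞).toReal)).toReal, ?_⟩
    filter_upwards [hb] with n hn
    have e1 : ∫ z in K, ‖An n z‖ = (eLpNorm (An n) 1 (volume.restrict K)).toReal := by
      rw [eLpNorm_one_eq_lintegral_enorm, integral_norm_eq_lintegral_enorm (hAn n).1]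
    rw [e1]
    have e2 := eLpNorm_le_eLpNorm_mul_rpow_measure_univ (μ := volume.restrict K) (f := An n)
      (p := 1) (q := 2) (by norm_num) (hAn n).1
    refine ENNReal.toReal_mono ?_ (e2.trans (by gcongr))
    refine ENNReal.mul_ne_top ENNReal.ofReal_ne_top ?_
    refine ENNReal.rpow_ne_top_of_nonneg (by norm_num) ?_
    exact measure_ne_top _ _
  have h2 : Tendsto (fun n => ∫ z in K, (hn n z - h z) * (An n z * φ z)) atTop (𝓝 0) := by
    rw [Metric.tendsto_atTop']
    intro ε hε
    have hD : 0 < |C| * |M'| + 1 := by positivity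
    have hu' := (Metric.tendstoUniformlyOn_iff.1 hu) (ε / (|C| * |M'| + 1)) (by positivity)
    obtain ⟨N, hN⟩ := (hu'.and hM').exists_forall_of_atTop
    refine ⟨N, fun n hn' => ?_⟩
    obtain ⟨ha, hb'⟩ := hN n hn'.le
    rw [dist_zero_right]
    have hAi : Integrable (fun z => ‖An n z‖) (volume.restrict K) :=
      ((hAn n).integrable (by norm_num)).norm
    calc ‖∫ z in K, (hn n z - h z) * (An n z * φ z)‖
        ≤ ∫ z in K, (ε / (|C| * |M'| + 1)) * |C| * ‖An n z‖ := by
          refine norm_integral_le_of_norm_le (hAi.const_mul _) ?_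
          refine (ae_restrict_iff' hK.measurableSet).2 (Eventually.of_forall fun z hz => ?_)
          rw [norm_mul, norm_mul]
          have h3 : ‖hn n z - h z‖ ≤ ε / (|C| * |M'| + 1) := by
            have := ha z hz
            rw [dist_comm, dist_eq_norm] at this
            exact this.le
          have h4 : ‖φ z‖ ≤ |C| := (hC z hz).trans (le_abs_self C)
          calc ‖hn n z - h z‖ * (‖An n z‖ * ‖φ z‖) ≤ (ε / (|C| * |M'| + 1)) * (‖An n z‖ * |C|) := by
                gcongr
            _ = (ε / (|C| * |M'| + 1)) * |C| * ‖An n z‖ := by ring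
      _ = (ε / (|C| * |M'| + 1)) * |C| * ∫ z in K, ‖An n z‖ := by
          rw [integral_const_mul]
      _ ≤ (ε / (|C| * |M'| + 1)) * |C| * |M'| := by
          gcongr
          exact hb'.trans (le_abs_self M')
      _ = ε * (|C| * |M'| / (|C| * |M'| + 1)) := by ring
      _ < ε * 1 := by
          gcongr
          rw [div_lt_one hD]
          linarith
      _ = ε := mul_one ε
  have h3 : ∀ n, ∫ z in K, hn n z * (An n z * φ z) =
      (∫ z in K, (hn n z - h z) * (An n z * φ z)) + ∫ z in K, An n z * (h z * φ z) := by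
    intro n
    rw [← integral_add]
    · refine integral_congr_ae (Eventually.of_forall fun z => ?_)
      simp only
      ring
    · have : MemLp (fun z => (hn n z - h z) * φ z) 2 (volume.restrict K) :=
        bl_memLp_cont hK (((hhn n).sub hh).mul hφ)
      have := this.integrable_mul (hAn n)
      refine this.congr (Eventually.of_forall fun z => ?_)
      simp only [Pi.mul_apply]
      ring
    · exact (hAn n).integrable_mul hφ2
  have h4 : ∫ z in K, h z * (A z * φ z) = 0 + ∫ z in K, A z * (h z * φ z) := by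
    rw [zero_add]
    refine integral_congr_ae (Eventually.of_forall fun z => ?_)
    simp only
    ring
  rw [h4]
  simp only [h3]
  exact h2.add h1

private theorem bl_gr_cont {η : ℂ → ℝ} (h : ContDiff ℝ (⊤ : ℕ∞) η) : Continuous (gr η) := by
  have h1 : Continuous (fderiv ℝ η) := h.continuous_fderiv (by simp)
  unfold gr
  fun_prop

private theorem bl_gr_zero {η : ℂ → ℝ} {z : ℂ} (hz : z ∉ tsupport η) : gr η z = 0 := by
  have h1 : fderiv ℝ η z = 0 := by
    by_contra h
    exact hz (support_fderiv_subset ℝ (f := η) h)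
  simp [gr, h1]

private theorem bl_cr (g a b : ℂ) :
    cr g (I * (conj a - b)) = (a * g).re - (b * conj g).re := by
  simp only [cr, mul_im, mul_re, sub_re, sub_im, conj_re, conj_im, I_re, I_im]
  ring

/-- the boundary term as the real part of two integrals over `K` -/
private theorem bl_split {K U : Set ℂ} (hK : IsCompact K) (hKU : K ⊆ U) {f A B : ℂ → ℂ} {η : ℂ → ℝ} {P : ℂ → ℝ}
    (hP : Continuous P) (hf : ContinuousOn f U) (hA : MemLp A 2 (volume.restrict K)) (hB : MemLp B 2 (volume.restrict K))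
    (hη : ContDiff ℝ (⊤ : ℕ∞) η) (hKη : K = tsupport η) :
    ∫ z, P (f z) * cr (gr η z) (I * (conj (A z) - B z)) =
      (∫ z in K, ((P (f z) : ℝ) : ℂ) * (A z * gr η z)).re - (∫ z in K, ((P (f z) : ℝ) : ℂ) * (B z * conj (gr η z))).re := by
  have hg : ContinuousOn (gr η) K := (bl_gr_cont hη).continuousOn
  have hPf : ContinuousOn (fun z => ((P (f z) : ℝ) : ℂ)) K :=
    Complex.continuous_ofReal.comp_continuousOn (hP.comp_continuousOn (hf.mono hKU))
  have i1 : Integrable (fun z => ((P (f z) : ℝ) : ℂ) * (A z * gr η z)) (volume.restrict K) := by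
    have := (bl_memLp_cont hK (hPf.mul hg)).integrable_mul hA
    refine this.congr (Eventually.of_forall fun z => ?_)
    simp only [Pi.mul_apply]
    ring
  have i2 : Integrable (fun z => ((P (f z) : ℝ) : ℂ) * (B z * conj (gr η z))) (volume.restrict K) := by
    have hg' : ContinuousOn (fun z => conj (gr η z)) K := Complex.continuous_conj.comp_continuousOn hg
    have := (bl_memLp_cont hK (hPf.mul hg')).integrable_mul hB
    refine this.congr (Eventually.of_forall fun z => ?_)
    simp only [Pi.mul_apply]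
    ring
  have e1 : (∫ z in K, ((P (f z) : ℝ) : ℂ) * (A z * gr η z)).re =
      ∫ z in K, (((P (f z) : ℝ) : ℂ) * (A z * gr η z)).re := (reCLM.integral_comp_comm i1).symm
  have e2 : (∫ z in K, ((P (f z) : ℝ) : ℂ) * (B z * conj (gr η z))).re =
      ∫ z in K, (((P (f z) : ℝ) : ℂ) * (B z * conj (gr η z))).re := (reCLM.integral_comp_comm i2).symm
  have i1' : Integrable (fun z => (((P (f z) : ℝ) : ℂ) * (A z * gr η z)).re) (volume.restrict K) := i1.re
  have i2' : Integrable (fun z => (((P (f z) : ℝ) : ℂ) * (B z * conj (gr η z))).re) (volume.restrict K) := i2.re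
  rw [e1, e2, ← integral_sub i1' i2']
  rw [← setIntegral_eq_integral_of_forall_compl_eq_zero (s := K)]
  · refine integral_congr_ae (Eventually.of_forall fun z => ?_)
    simp only [bl_cr, re_ofReal_mul]
    ring
  · intro z hz
    rw [hKη] at hz
    rw [bl_gr_zero hz]
    simp [cr]

theorem piece_bdeglim (h1 : S_bdeg) (h2 : S_bpp) : S_bdeglim := by
  intro U f A B fn An Bn η ψ hU hwdn hcn hwd hc hbd hun hweak hη hψ
  have hK : IsCompact (tsupport η) := hη.2.1
  have hKU : tsupport η ⊆ U := hη.2.2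
  have hP : Continuous (PP ψ) := (h2 ψ hψ).1.continuous
  obtain ⟨M, hM⟩ := hbd _ hK hKU
  have hA2 : MemLp A 2 (volume.restrict (tsupport η)) := hwd.A2 _ hK hKU
  have hB2 : MemLp B 2 (volume.restrict (tsupport η)) := hwd.B2 _ hK hKU
  have hAn2 : ∀ n, MemLp (An n) 2 (volume.restrict (tsupport η)) := fun n => (hwdn n).A2 _ hK hKU
  have hBn2 : ∀ n, MemLp (Bn n) 2 (volume.restrict (tsupport η)) := fun n => (hwdn n).B2 _ hK hKU
  have hg : ContinuousOn (gr η) (tsupport η) := (bl_gr_cont hη.1).continuousOn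
  have hg' : ContinuousOn (fun z => conj (gr η z)) (tsupport η) :=
    Complex.continuous_conj.comp_continuousOn hg
  have hPn : ∀ n, ContinuousOn (fun z => ((PP ψ (fn n z) : ℝ) : ℂ)) (tsupport η) := fun n =>
    Complex.continuous_ofReal.comp_continuousOn (hP.comp_continuousOn ((hcn n).mono hKU))
  have hPf : ContinuousOn (fun z => ((PP ψ (f z) : ℝ) : ℂ)) (tsupport η) :=
    Complex.continuous_ofReal.comp_continuousOn (hP.comp_continuousOn (hc.mono hKU))
  -- uniform convergence of `PP ψ (fn)`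
  have hPu : TendstoUniformlyOn (fun n z => ((PP ψ (fn n z) : ℝ) : ℂ)) (fun z => ((PP ψ (f z) : ℝ) : ℂ)) atTop (tsupport η) := by
    have hu := hun _ hK hKU
    have hcomp : Continuous (fun w : ℂ => ((PP ψ w : ℝ) : ℂ)) := Complex.continuous_ofReal.comp hP
    obtain ⟨R, hR⟩ := hK.exists_bound_of_continuousOn (hc.mono hKU)
    have huc : UniformContinuousOn (fun w : ℂ => ((PP ψ w : ℝ) : ℂ)) (closedBall 0 (R + 1)) :=
      (isCompact_closedBall _ _).uniformContinuousOn_of_continuous hcomp.continuousOn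
    rw [Metric.tendstoUniformlyOn_iff]
    intro ε hε
    obtain ⟨δ, hδ, hδε⟩ := Metric.uniformContinuousOn_iff.1 huc ε hε
    filter_upwards [(Metric.tendstoUniformlyOn_iff.1 hu) (min δ 1) (by positivity)] with n hn z hz
    have h3 := hn z hz
    refine hδε _ ?_ _ ?_ (h3.trans_le (min_le_left _ _))
    · rw [mem_closedBall_zero_iff]
      linarith [hR z hz]
    · rw [mem_closedBall_zero_iff]
      have h4 : ‖fn n z - f z‖ < 1 := by
        rw [← dist_eq_norm, dist_comm]
        exact h3.trans_le (min_le_right _ _)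
      have h5 : ‖fn n z‖ ≤ ‖f z‖ + ‖fn n z - f z‖ := by
        calc ‖fn n z‖ = ‖f z + (fn n z - f z)‖ := by ring_nf
          _ ≤ _ := norm_add_le _ _
      linarith [hR z hz]
  have t1 := bl_conv hK M An A (hM.mono fun n h => h.1) hAn2 (fun φ hφ => (hweak _ hK hKU φ hφ).1)
    _ _ hPu hPn hPf _ hg
  have t2 := bl_conv hK M Bn B (hM.mono fun n h => h.2) hBn2 (fun φ hφ => (hweak _ hK hKU φ hφ).2)
    _ _ hPu hPn hPf _ hg'
  have r1 := (Complex.continuous_re.tendsto _).comp t1
  have r2 := (Complex.continuous_re.tendsto _).comp t2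
  have e : ∫ z, η z * ψ (f z) * (‖A z‖ ^ 2 - ‖B z‖ ^ 2) =
      -((∫ z in tsupport η, ((PP ψ (f z) : ℝ) : ℂ) * (A z * gr η z)).re - (∫ z in tsupport η, ((PP ψ (f z) : ℝ) : ℂ) * (B z * conj (gr η z))).re) := by
    rw [(h1 U f A B η ψ hU hc hwd hη hψ).2.2, bl_split hK hKU hP hc hA2 hB2 hη.1 rfl]
  have en : ∀ n, ∫ z, η z * ψ (fn n z) * (‖An n z‖ ^ 2 - ‖Bn n z‖ ^ 2) =
      -((∫ z in tsupport η, ((PP ψ (fn n z) : ℝ) : ℂ) * (An n z * gr η z)).re - (∫ z in tsupport η, ((PP ψ (fn n z) : ℝ) : ℂ) * (Bn n z * conj (gr η z))).re) := by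
    intro n
    rw [(h1 U (fn n) (An n) (Bn n) η ψ hU (hcn n) (hwdn n) hη hψ).2.2,
      bl_split hK hKU hP (hcn n) (hAn2 n) (hBn2 n) hη.1 rfl]
  rw [e]
  simp only [en]
  exact (r1.sub r2).neg

end

end Cal
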