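import Pool.Agent.Lib.MP_4ea4c7_an.StmH1b

open MeasureTheory Complex Metric Set Filter Topology
open scoped ComplexConjugate ENNReal NNReal

namespace Cal

noncomputable section

/-- Complex linear change of variables. -/
private theorem btot_cv (ψ : ℂ → ℝ) (c : ℂ) (hc : c ≠ 0) :
    ∫ z, ψ (c * z) * ‖c‖ ^ 2 = ∫ z, ψ z := by
  have hdet : LinearMap.det (LinearMap.mul ℝ ℂ c) = ‖c‖ ^ 2 := by
    change LinearMap.det (Algebra.lmul ℝ ℂ c) = ‖c‖ ^ 2
    rw [← Algebra.norm_apply, Algebra.norm_complex_apply, Complex.normSq_eq_norm_sq]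
  have hn : (0 : ℝ) < ‖c‖ ^ 2 := by positivity
  have hm := Measure.map_linearMap_addHaar_eq_smul_addHaar (volume : Measure ℂ)
    (f := LinearMap.mul ℝ ℂ c) (by rw [hdet]; exact hn.ne')
  rw [hdet] at hm
  have he : MeasurableEmbedding (LinearMap.mul ℝ ℂ c) :=
    (Homeomorph.mulLeft₀ c hc).measurableEmbedding
  have h1 := he.integral_map (μ := (volume : Measure ℂ)) ψ
  rw [hm, integral_smul_measure] at h1
  have h2 : ∫ z, ψ (c * z) = (‖c‖ ^ 2)⁻¹ * ∫ z, ψ z := by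
    rw [ENNReal.toReal_ofReal (abs_nonneg _), abs_of_pos (inv_pos.2 hn), smul_eq_mul] at h1
    exact h1.symm
  rw [integral_mul_const, h2]
  field_simp

theorem piece_bdegtot (h1 : S_bcmp) (h2 : S_bdeg) (h3 : S_smooth) (h4 : S_basic)
    (h5 : S_bridge) (h6 : S_wuniq) : S_bdegtot := by
  clear h5
  intro f A B k C ψ hk hf hWD hC hψ
  obtain ⟨R0, hR0⟩ : ∃ R0 : ℝ, ∀ w : ℂ, R0 < ‖w‖ → ψ w = 0 := by
    obtain ⟨R0, hR0⟩ := hψ.2.1.isBounded.subset_closedBall (0 : ℂ)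
    refine ⟨R0, fun w hw => ?_⟩
    by_contra hne
    have := hR0 (subset_tsupport ψ hne)
    rw [mem_closedBall_zero_iff] at this
    linarith
  have hC0 : 0 ≤ C := (norm_nonneg _).trans (hC 0)
  have hk0 : 0 < ‖k‖ := norm_pos_iff.2 hk
  obtain ⟨R1, hR1, hR1'⟩ : ∃ R1 : ℝ, 0 < R1 ∧ R0 + C < ‖k‖ * R1 := by
    refine ⟨(|R0| + C + 1) / ‖k‖, by positivity, ?_⟩
    rw [mul_div_cancel₀ _ hk0.ne']
    linarith [le_abs_self R0]
  -- the cutoff functions
  let b1 : ContDiffBump (0 : ℂ) := ⟨R1, R1 + 1, hR1, by linarith⟩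
  let b2 : ContDiffBump (0 : ℂ) := ⟨R1 + 2, R1 + 3, by linarith, by linarith⟩
  have b1one : ∀ z : ℂ, ‖z‖ ≤ R1 → b1 z = 1 := fun z hz =>
    b1.one_of_mem_closedBall (by rwa [mem_closedBall_zero_iff])
  have b1zero : ∀ z : ℂ, R1 + 1 ≤ ‖z‖ → b1 z = 0 := fun z hz =>
    b1.zero_of_le_dist (by rwa [dist_zero_right])
  have b2one : ∀ z : ℂ, ‖z‖ ≤ R1 + 2 → b2 z = 1 := fun z hz =>
    b2.one_of_mem_closedBall (by rwa [mem_closedBall_zero_iff])
  have hη : RTF univ (fun z => b2 z) := ⟨b2.contDiff, b2.hasCompactSupport, subset_univ _⟩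
  -- the modified function
  let g : ℂ → ℂ := fun z => ((1 - b1 z : ℝ) : ℂ)
  let h : ℂ → ℂ := fun z => I * k * z * ((b1 z : ℝ) : ℂ)
  have hb1 : ContDiff ℝ (⊤ : ℕ∞) (fun z : ℂ => ((b1 z : ℝ) : ℂ)) :=
    ofRealCLM.contDiff.comp b1.contDiff
  have hg : ContDiff ℝ (⊤ : ℕ∞) g :=
    ofRealCLM.contDiff.comp (contDiff_const.sub b1.contDiff)
  have hh : ContDiff ℝ (⊤ : ℕ∞) h := (contDiff_const.mul contDiff_id).mul hb1
  have hh1 : ContDiff ℝ 1 h := hh.of_le (by exact_mod_cast le_top)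
  let f' : ℂ → ℂ := fun z => f z * g z + h z
  let A' : ℂ → ℂ := fun z => A z * g z + f z * dz g z + dz h z
  let B' : ℂ → ℂ := fun z => B z * g z + f z * db g z + db h z
  have hWD' : WD univ f' A' B' :=
    h4.1 univ _ _ _ _ _ _ (h3.2.2 univ f A B g isOpen_univ hWD hg.contDiffOn)
      (h3.1 univ h isOpen_univ hh1.contDiffOn)
  have hf' : Continuous f' := (hf.mul hg.continuous).add hh.continuous
  have hf'eq : ∀ z, f' z = I * k * z + ((1 - b1 z : ℝ) : ℂ) * (f z - I * k * z) := by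
    intro z
    simp only [f', g, h]
    push_cast
    ring
  -- lower bounds
  have hlowk : ∀ z : ℂ, R1 ≤ ‖z‖ → R0 + C < ‖I * k * z‖ := by
    intro z hz
    rw [norm_mul, norm_mul, norm_I, one_mul]
    have : ‖k‖ * R1 ≤ ‖k‖ * ‖z‖ := mul_le_mul_of_nonneg_left hz hk0.le
    linarith
  have hψk : ∀ z : ℂ, R1 ≤ ‖z‖ → ψ (I * k * z) = 0 := fun z hz =>
    hR0 _ (by linarith [hlowk z hz])
  have hψf : ∀ z : ℂ, R1 ≤ ‖z‖ → ψ (f z) = 0 := by
    intro z hz
    apply hR0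
    have h7 := hlowk z hz
    have h8 := hC z
    have h9 : ‖I * k * z‖ ≤ ‖f z‖ + ‖f z - I * k * z‖ := by
      calc ‖I * k * z‖ = ‖f z - (f z - I * k * z)‖ := by ring_nf
        _ ≤ _ := norm_sub_le _ _
    linarith
  have hψf' : ∀ z : ℂ, R1 ≤ ‖z‖ → ψ (f' z) = 0 := by
    intro z hz
    apply hR0
    have h7 := hlowk z hz
    have h8 := hC z
    have h10 : ‖((1 - b1 z : ℝ) : ℂ) * (f z - I * k * z)‖ ≤ C := by
      rw [norm_mul, norm_real, Real.norm_eq_abs]
      have h11 : |1 - b1 z| ≤ 1 := by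
        rw [abs_le]
        constructor <;> linarith [b1.nonneg (x := z), b1.le_one (x := z)]
      calc |1 - b1 z| * ‖f z - I * k * z‖ ≤ 1 * C :=
            mul_le_mul h11 h8 (norm_nonneg _) zero_le_one
        _ = C := one_mul C
    have h9 : ‖I * k * z‖ ≤ ‖f' z‖ + ‖((1 - b1 z : ℝ) : ℂ) * (f z - I * k * z)‖ := by
      calc ‖I * k * z‖ = ‖f' z - ((1 - b1 z : ℝ) : ℂ) * (f z - I * k * z)‖ := by
            rw [hf'eq z]; ring_nf
        _ ≤ _ := norm_sub_le _ _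
    linarith
  -- comparison
  let V : Set ℂ := {z | R1 + 1 < ‖z‖}
  have hV : IsOpen V := isOpen_lt continuous_const continuous_norm
  have hcmp := h1 univ V f A B f' A' B' (fun z => b2 z) ψ isOpen_univ hV (subset_univ _)
    hf.continuousOn hWD hf'.continuousOn hWD' (by
      intro z hz
      have hz' : R1 + 1 < ‖z‖ := hz
      rw [hf'eq z, b1zero z hz'.le]
      push_cast
      ring) hη (by
      intro z hz
      have hz' : ‖z‖ ≤ R1 + 1 := not_lt.1 hz
      have hev : (fun z => b2 z) =ᶠ[𝓝 z] fun _ => (1 : ℝ) := by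
        filter_upwards [isOpen_ball.mem_nhds (show z ∈ ball (0 : ℂ) (R1 + 2) by
          rw [mem_ball_zero_iff]; linarith)] with w hw
        rw [mem_ball_zero_iff] at hw
        exact b2one w hw.le
      have hfd : fderiv ℝ (fun z => b2 z) z = 0 := by
        rw [hev.fderiv_eq]
        exact fderiv_const_apply _
      unfold gr
      rw [hfd]
      simp) hψ
  -- the first integral
  have e1 : (fun z => b2 z * ψ (f z) * (‖A z‖ ^ 2 - ‖B z‖ ^ 2)) =
      fun z => ψ (f z) * (‖A z‖ ^ 2 - ‖B z‖ ^ 2) := by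
    funext z
    rcases le_or_gt ‖z‖ (R1 + 2) with hz | hz
    · rw [b2one z hz, one_mul]
    · rw [hψf z (by linarith), mul_zero]
  have hint := (h2 univ f A B (fun z => b2 z) ψ isOpen_univ hf.continuousOn hWD hη hψ).1
  rw [e1] at hint
  refine ⟨hint, ?_⟩
  have e2 : ∫ z, b2 z * ψ (f z) * (‖A z‖ ^ 2 - ‖B z‖ ^ 2) =
      ∫ z, ψ (f z) * (‖A z‖ ^ 2 - ‖B z‖ ^ 2) := by rw [e1]
  rw [← e2, hcmp, ← btot_cv ψ (I * k) (mul_ne_zero I_ne_zero hk)]
  -- the derivatives of `f'` in the small disc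
  have hlin : WD (ball 0 R1) (fun z => I * k * z) (deriv fun z => I * k * z) (fun _ => 0) :=
    h3.2.1 _ _ isOpen_ball (by fun_prop)
  have hres : WD (ball 0 R1) f' A' B' := h4.2.2.2.2.1 univ _ _ _ _ (subset_univ _) hWD'
  have hfin : ∀ z ∈ ball (0 : ℂ) R1, f' z = I * k * z := by
    intro z hz
    rw [mem_ball_zero_iff] at hz
    rw [hf'eq z, b1one z hz.le]
    push_cast
    ring
  obtain ⟨hA1, hB1⟩ := h6 (ball 0 R1) f' A' B' _ _ _ isOpen_ball hres hlin
    (ae_restrict_of_forall_mem measurableSet_ball hfin)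
  have hA2 := (ae_restrict_iff' measurableSet_ball).1 hA1
  have hB2 := (ae_restrict_iff' measurableSet_ball).1 hB1
  refine integral_congr_ae ?_
  filter_upwards [hA2, hB2] with z hzA hzB
  by_cases hz : z ∈ ball (0 : ℂ) R1
  · have hd : deriv (fun z => I * k * z) z = I * k := by
      simp
    rw [hzA hz, hzB hz, hd, hfin z hz]
    rw [mem_ball_zero_iff] at hz
    rw [b2one z (by linarith)]
    simp
  · have hz' : R1 ≤ ‖z‖ := by
      rw [mem_ball_zero_iff] at hz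
      exact not_lt.1 hz
    rw [hψf' z hz', hψk z hz']
    simp

end

end Cal
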