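import Pool.Agent.Lib.MP_4ea4c7_an.StmH1b

open MeasureTheory Complex Metric Set Filter Topology
open scoped ComplexConjugate ENNReal NNReal

namespace Cal

/-- area mean value property -/
private theorem bext_area (F : ℂ → ℂ) (z : ℂ) (hc : ContinuousOn F (closedBall z 1))
    (hd : DifferentiableOn ℂ F (ball z 1)) :
    ∫ w in ball (0 : ℂ) 1, F (z + w) = (Real.pi : ℂ) * F z := by
  have hrot : ∀ θ : ℝ, ∫ w in ball (0 : ℂ) 1, F (z + exp (θ * I) * w)
      = ∫ w in ball (0 : ℂ) 1, F (z + w) := by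
    intro θ
    have h2 := (rotation (Circle.exp θ)).measurePreserving.setIntegral_preimage_emb
      (rotation (Circle.exp θ)).toHomeomorph.measurableEmbedding (fun w => F (z + w))
      (ball (0 : ℂ) 1)
    have h3 : (rotation (Circle.exp θ)) ⁻¹' (ball (0 : ℂ) 1) = ball (0 : ℂ) 1 := by
      rw [LinearIsometryEquiv.preimage_ball, map_zero]
    rw [h3] at h2
    rw [← h2]
    refine integral_congr_ae (Eventually.of_forall fun w => ?_)
    have h4 : (rotation (Circle.exp θ)) w = exp (θ * I) * w := by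
      rw [rotation_apply, Circle.coe_exp]
    simp only [h4]
  have hmaps : ∀ (θ : ℝ) (w : ℂ), ‖w‖ ≤ 1 → z + exp (θ * I) * w ∈ closedBall z 1 := by
    intro θ w hw
    rw [mem_closedBall, dist_eq_norm, add_sub_cancel_left, norm_mul, Complex.norm_exp_ofReal_mul_I,
      one_mul]
    exact hw
  have hint : Integrable (Function.uncurry (fun (θ : ℝ) (w : ℂ) => F (z + exp (θ * I) * w)))
      ((volume.restrict (Set.uIoc 0 (2 * Real.pi))).prod (volume.restrict (ball (0 : ℂ) 1))) := by
    have hK : IsCompact ((Icc (0 : ℝ) (2 * Real.pi)) ×ˢ (closedBall (0 : ℂ) 1)) :=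
      isCompact_Icc.prod (isCompact_closedBall _ _)
    have h5 : IntegrableOn (fun p : ℝ × ℂ => F (z + exp (p.1 * I) * p.2))
        ((Icc (0 : ℝ) (2 * Real.pi)) ×ˢ (closedBall (0 : ℂ) 1)) (volume.prod volume) := by
      refine ContinuousOn.integrableOn_compact hK ?_
      refine hc.comp (by fun_prop) ?_
      rintro ⟨θ, w⟩ ⟨_, hw⟩
      exact hmaps θ w (by simpa using hw)
    rw [Measure.prod_restrict]
    refine IntegrableOn.mono_set h5 (prod_mono ?_ ball_subset_closedBall)
    rw [Set.uIoc_of_le (by positivity)]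
    exact Ioc_subset_Icc_self
  have hsw := intervalIntegral_integral_swap hint
  have hinner : ∀ w ∈ ball (0 : ℂ) 1, ∫ θ in (0 : ℝ)..(2 * Real.pi), F (z + exp (θ * I) * w)
      = (2 * Real.pi : ℝ) * F z := by
    intro w hw
    have hw' : ‖w‖ < 1 := by simpa using hw
    have hG : Real.circleAverage (fun s : ℂ => F (z + s * w)) 0 1 = F (z + 0 * w) := by
      refine circleAverage_of_differentiable_on_off_countable (s := ∅) countable_empty ?_ ?_
      · refine hc.comp (by fun_prop) ?_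
        intro s hs
        have hs' : ‖s‖ ≤ 1 := by simpa using hs
        rw [mem_closedBall, dist_eq_norm, add_sub_cancel_left, norm_mul]
        nlinarith [norm_nonneg s, norm_nonneg w]
      · intro s hs
        have hs' : ‖s‖ < 1 := by simpa using hs.1
        have hmem : z + s * w ∈ ball z 1 := by
          rw [mem_ball, dist_eq_norm, add_sub_cancel_left, norm_mul]
          nlinarith [norm_nonneg s, norm_nonneg w]
        have : DifferentiableAt ℂ F (z + s * w) := hd.differentiableAt (isOpen_ball.mem_nhds hmem)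
        exact DifferentiableAt.comp (𝕜 := ℂ) s (f := fun s : ℂ => z + s * w) this (by fun_prop)
    rw [Real.circleAverage_def] at hG
    have h9 : ∀ θ : ℝ, circleMap 0 1 θ = exp (θ * I) := by
      intro θ; simp [circleMap]
    simp only [h9, zero_mul, add_zero] at hG
    rw [← hG, Complex.real_smul, ← mul_assoc, ← Complex.ofReal_mul]
    have : (2 * Real.pi) * (2 * Real.pi)⁻¹ = 1 := mul_inv_cancel₀ (by positivity)
    rw [this]
    simp
  rw [setIntegral_congr_fun measurableSet_ball hinner] at hsw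
  simp only [hrot] at hsw
  rw [intervalIntegral.integral_const, setIntegral_const, Complex.real_smul, Complex.real_smul,
    sub_zero, Measure.real, Complex.volume_ball] at hsw
  have hpi : ((2 * Real.pi : ℝ) : ℂ) ≠ 0 := by
    rw [Complex.ofReal_ne_zero]; positivity
  refine mul_left_cancel₀ hpi (hsw.trans ?_)
  simp
  ring

theorem piece_bext : S_bext := by
  intro H M hM hH hDec hint hle z hz
  have hUo : IsOpen {z : ℂ | 7 / 8 < ‖z‖} := isOpen_lt continuous_const continuous_norm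
  have hH' : DifferentiableOn ℂ (deriv H) {z : ℂ | 7 / 8 < ‖z‖} := hH.deriv hUo
  -- the derivative on the circle of radius 2
  have hder : ∀ z : ℂ, ‖z‖ = 2 → ‖deriv H z‖ ≤ M := by
    intro z hz
    have hsub : closedBall z 1 ⊆ {z : ℂ | 7 / 8 < ‖z‖} := by
      intro w hw
      have h1 : ‖w - z‖ ≤ 1 := by simpa [dist_eq_norm] using hw
      have h2 : ‖z‖ ≤ ‖w‖ + ‖w - z‖ := by
        have := norm_sub_le w (w - z)
        simpa using this
      change 7 / 8 < ‖w‖
      linarith
    have hsub2 : ball z 1 ⊆ {z : ℂ | 1 < ‖z‖} := by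
      intro w hw
      have h1 : ‖w - z‖ < 1 := by simpa [dist_eq_norm] using hw
      have h2 : ‖z‖ ≤ ‖w‖ + ‖w - z‖ := by
        have := norm_sub_le w (w - z)
        simpa using this
      change 1 < ‖w‖
      linarith
    have hF : DifferentiableOn ℂ (fun w => deriv H w ^ 2) {z : ℂ | 7 / 8 < ‖z‖} := hH'.pow 2
    have h1 := bext_area (fun w => deriv H w ^ 2) z (hF.continuousOn.mono hsub)
      (hF.mono (ball_subset_closedBall.trans hsub))
    have h2 : Real.pi * ‖deriv H z‖ ^ 2 ≤ ∫ w in ball (0 : ℂ) 1, ‖deriv H (z + w) ^ 2‖ := by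
      have h3 := norm_integral_le_integral_norm (μ := volume.restrict (ball (0 : ℂ) 1))
        (fun w => deriv H (z + w) ^ 2)
      rw [h1, norm_mul, norm_pow, Complex.norm_real, Real.norm_of_nonneg Real.pi_pos.le] at h3
      exact h3
    have h3 : ∫ w in ball (0 : ℂ) 1, ‖deriv H (z + w) ^ 2‖ = ∫ w in ball z 1, ‖deriv H w‖ ^ 2 := by
      have h4 := (measurePreserving_add_left (volume : Measure ℂ) z).setIntegral_preimage_emb
        (Homeomorph.addLeft z).measurableEmbedding (fun w => ‖deriv H w ^ 2‖) (ball z 1)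
      have h5 : (fun w => z + w) ⁻¹' (ball z 1) = ball (0 : ℂ) 1 := by
        ext w
        simp
      rw [h5] at h4
      rw [h4]
      refine integral_congr_ae (Eventually.of_forall fun w => ?_)
      simp only [norm_pow]
    have h4 : ∫ w in ball z 1, ‖deriv H w‖ ^ 2 ≤ ∫ z in {z : ℂ | 1 < ‖z‖}, ‖deriv H z‖ ^ 2 :=
      setIntegral_mono_set hint (Eventually.of_forall fun w => by positivity)
        (Eventually.of_forall hsub2)
    have h5 : Real.pi * ‖deriv H z‖ ^ 2 ≤ Real.pi * M ^ 2 := by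
      rw [h3] at h2
      exact h2.trans (h4.trans hle)
    have h6 : ‖deriv H z‖ ^ 2 ≤ M ^ 2 := le_of_mul_le_mul_left h5 Real.pi_pos
    exact le_of_sq_le_sq h6 hM
  -- differences of values on the circle of radius 2
  have hdiff : ∀ z1 z2 : ℂ, ‖z1‖ = 2 → ‖z2‖ = 2 → ‖H z2 - H z1‖ ≤ 2 * Real.pi * M := by
    intro z1 z2 h1 h2
    have hγ : ∀ t ∈ (univ : Set ℝ), HasDerivWithinAt (fun t : ℝ => H (z1 * exp (t * I)))
        (deriv H (z1 * exp (t * I)) * (z1 * (exp (t * I) * I))) univ t := by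
      intro t _
      rw [hasDerivWithinAt_univ]
      have e1 : HasDerivAt (fun t : ℝ => z1 * exp (t * I)) (z1 * (exp (t * I) * I)) t := by
        have e2 : HasDerivAt (fun t : ℝ => ((t : ℂ) * I)) I t := by
          simpa using (ofRealCLM.hasDerivAt (x := t)).mul_const I
        exact (e2.cexp).const_mul z1
      have hn : ‖z1 * exp (t * I)‖ = 2 := by
        rw [norm_mul, Complex.norm_exp_ofReal_mul_I, mul_one, h1]
      have e3 : HasDerivAt H (deriv H (z1 * exp (t * I))) (z1 * exp (t * I)) := by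
        refine (hH.differentiableAt (hUo.mem_nhds ?_)).hasDerivAt
        change 7 / 8 < ‖z1 * exp (t * I)‖
        rw [hn]
        norm_num
      exact e3.comp t e1
    have hb : ∀ t ∈ (univ : Set ℝ), ‖deriv H (z1 * exp (t * I)) * (z1 * (exp (t * I) * I))‖
        ≤ 2 * M := by
      intro t _
      have hn : ‖z1 * exp (t * I)‖ = 2 := by
        rw [norm_mul, Complex.norm_exp_ofReal_mul_I, mul_one, h1]
      rw [norm_mul, norm_mul, norm_mul, Complex.norm_exp_ofReal_mul_I, h1, norm_I]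
      have := hder _ hn
      linarith
    set α := arg (z2 / z1) with hα
    have key := Convex.norm_image_sub_le_of_norm_hasDerivWithin_le hγ hb convex_univ
      (mem_univ 0) (mem_univ α)
    have hz1 : z1 ≠ 0 := by
      intro h0
      rw [h0, norm_zero] at h1
      norm_num at h1
    have e1 : z1 * exp (α * I) = z2 := by
      have := Complex.norm_mul_exp_arg_mul_I (z2 / z1)
      rw [norm_div, h1, h2, div_self (by norm_num : (2 : ℝ) ≠ 0), ofReal_one, one_mul] at this
      rw [hα, this]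
      field_simp
    simp only [e1, ofReal_zero, zero_mul, exp_zero, mul_one, sub_zero] at key
    have e2 : ‖α‖ ≤ Real.pi := by
      rw [Real.norm_eq_abs]
      exact Complex.abs_arg_le_pi _
    calc ‖H z2 - H z1‖ ≤ 2 * M * ‖α‖ := key
      _ ≤ 2 * M * Real.pi := mul_le_mul_of_nonneg_left e2 (by positivity)
      _ = 2 * Real.pi * M := by ring
  -- inversion
  obtain ⟨C, hC⟩ := hDec
  set E : ℂ → ℂ := fun ζ => if ζ = 0 then 0 else H (ζ⁻¹) with hE
  have hE0 : E 0 = 0 := by simp [hE]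
  have hEne : ∀ ζ : ℂ, ζ ≠ 0 → E ζ = H (ζ⁻¹) := fun ζ hζ => by simp [hE, hζ]
  have hEd : DifferentiableOn ℂ E (ball 0 1) := by
    refine (differentiableOn_compl_singleton_and_continuousAt_iff
      (ball_mem_nhds (0 : ℂ) one_pos)).1 ⟨?_, ?_⟩
    · have e1 : DifferentiableOn ℂ (fun ζ : ℂ => H (ζ⁻¹)) (ball 0 1 \ {0}) := by
        refine hH.comp (differentiableOn_inv.mono fun ζ hζ => hζ.2) ?_
        intro ζ hζ
        have h1 : ‖ζ‖ < 1 := by simpa using hζ.1
        have h2 : 0 < ‖ζ‖ := norm_pos_iff.2 hζ.2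
        change 7 / 8 < ‖ζ⁻¹‖
        rw [norm_inv]
        have : 1 < ‖ζ‖⁻¹ := (one_lt_inv₀ h2).2 h1
        linarith
      exact e1.congr fun ζ hζ => hEne ζ hζ.2
    · have e1 : Tendsto (fun ζ : ℂ => C * ‖ζ‖) (𝓝 0) (𝓝 0) := by
        have : Continuous (fun ζ : ℂ => C * ‖ζ‖) := by fun_prop
        simpa using this.tendsto 0
      rw [ContinuousAt, hE0]
      refine squeeze_zero_norm' ?_ e1
      have e2 : ∀ᶠ ζ in 𝓝 (0 : ℂ), ζ ∈ ball (0 : ℂ) (1 / 2) := ball_mem_nhds _ (by norm_num)
      filter_upwards [e2] with ζ hζ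
      by_cases h0 : ζ = 0
      · simp [h0, hE0]
      · rw [hEne ζ h0]
        have h1 : ‖ζ‖ < 1 / 2 := by simpa using hζ
        have h2 : 0 < ‖ζ‖ := norm_pos_iff.2 h0
        have h3 : 2 ≤ ‖ζ⁻¹‖ := by
          rw [norm_inv]
          have : (1 / 2 : ℝ)⁻¹ ≤ ‖ζ‖⁻¹ := (inv_le_inv₀ (by norm_num) h2).2 h1.le
          linarith [(by norm_num : ((1 / 2 : ℝ))⁻¹ = 2)]
        have h4 := hC _ h3
        rw [norm_inv] at h4
        simpa using h4
  have hsub : closedBall (0 : ℂ) (1 / 2) ⊆ ball 0 1 := closedBall_subset_ball (by norm_num)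
  have hclos : closure (ball (0 : ℂ) (1 / 2)) = closedBall 0 (1 / 2) :=
    closure_ball 0 (by norm_num)
  have hfront : frontier (ball (0 : ℂ) (1 / 2)) = sphere 0 (1 / 2) :=
    frontier_ball 0 (by norm_num)
  have hEdc : DiffContOnCl ℂ E (ball 0 (1 / 2)) := hEd.diffContOnCl_ball hsub
  have hinvs : ∀ ζ : ℂ, ‖ζ‖ = 1 / 2 → ζ ≠ 0 ∧ ‖ζ⁻¹‖ = 2 := by
    intro ζ hζ
    refine ⟨?_, ?_⟩
    · intro h0
      rw [h0, norm_zero] at hζ
      norm_num at hζ
    · rw [norm_inv, hζ]
      norm_num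
  have hsph : ∀ ζ : ℂ, ‖ζ‖ = 1 / 2 → ‖E ζ‖ ≤ 2 * Real.pi * M := by
    intro ζ hζ
    have e1 : DiffContOnCl ℂ (fun ζ' => E ζ - E ζ') (ball 0 (1 / 2)) :=
      diffContOnCl_const.sub hEdc
    have e2 := norm_le_of_forall_mem_frontier_norm_le isBounded_ball e1
      (C := 2 * Real.pi * M) (z := 0) (by
        intro ζ' hζ'
        rw [hfront, mem_sphere_zero_iff_norm] at hζ'
        obtain ⟨a1, a2⟩ := hinvs ζ hζ
        obtain ⟨b1, b2⟩ := hinvs ζ' hζ'
        simp only [hEne ζ a1, hEne ζ' b1]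
        exact hdiff _ _ b2 a2) (subset_closure (mem_ball_self (by norm_num)))
    simpa [hE0] using e2
  have hball : ∀ ζ ∈ closedBall (0 : ℂ) (1 / 2), ‖E ζ‖ ≤ 2 * Real.pi * M := by
    intro ζ hζ
    refine norm_le_of_forall_mem_frontier_norm_le isBounded_ball hEdc ?_ (hclos ▸ hζ)
    intro ζ' hζ'
    rw [hfront, mem_sphere_zero_iff_norm] at hζ'
    exact hsph ζ' hζ'
  have hz0 : z ≠ 0 := by
    intro h0
    rw [h0, norm_zero] at hz
    norm_num at hz
  have hzpos : 0 < ‖z‖ := norm_pos_iff.2 hz0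
  have hEz : E z⁻¹ = H z := by
    rw [hEne _ (inv_ne_zero hz0), inv_inv]
  rw [← hEz]
  rcases eq_or_lt_of_le hz with h2 | h2
  · have e1 := hsph z⁻¹ (by rw [norm_inv, ← h2]; norm_num)
    rw [← h2]
    linarith
  · have e1 : z⁻¹ ∈ ball (0 : ℂ) (1 / 2) := by
      rw [mem_ball_zero_iff, norm_inv]
      have := (inv_lt_inv₀ hzpos (by norm_num : (0 : ℝ) < 2)).2 h2
      linarith [(by norm_num : (2 : ℝ)⁻¹ = 1 / 2)]
    have e2 := dist_le_div_mul_dist_of_mapsTo_ball (R₂ := 2 * Real.pi * M)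
      (hEd.mono (ball_subset_ball (by norm_num : (1 / 2 : ℝ) ≤ 1))) (by
        intro ζ hζ
        rw [hE0, mem_closedBall_zero_iff]
        exact hball ζ (ball_subset_closedBall hζ)) e1
    rw [hE0, dist_zero_right, dist_zero_right, norm_inv] at e2
    calc ‖E z⁻¹‖ ≤ 2 * Real.pi * M / (1 / 2) * ‖z‖⁻¹ := e2
      _ = 4 * Real.pi * M / ‖z‖ := by
        rw [div_eq_mul_inv (4 * Real.pi * M)]
        ring

end Cal
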