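import Pool.Agent.Lib.MP_4ea4c7_an.StmH1b

/-!
# [b12] `G ∩ ball 0 r` is connected
-/

open MeasureTheory Complex Metric Set Filter Topology
open scoped ComplexConjugate ENNReal NNReal

namespace Cal

private lemma bgr_ann (a r : ℝ) (ha : 0 < a) : IsPreconnected {z : ℂ | a ≤ ‖z‖ ∧ ‖z‖ < r} := by
  have h1 : {z : ℂ | a ≤ ‖z‖ ∧ ‖z‖ < r} =
      (fun p : ℝ × ℝ => (p.1 : ℂ) * exp ((p.2 : ℂ) * I)) '' (Ico a r ×ˢ (univ : Set ℝ)) := by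
    ext z
    constructor
    · rintro ⟨h1, h2⟩
      refine ⟨(‖z‖, z.arg), ⟨⟨h1, h2⟩, mem_univ _⟩, ?_⟩
      exact Complex.norm_mul_exp_arg_mul_I z
    · rintro ⟨⟨t, θ⟩, ⟨⟨h1, h2⟩, -⟩, rfl⟩
      have ht : 0 < t := lt_of_lt_of_le ha h1
      have hn : ‖(t : ℂ) * exp ((θ : ℂ) * I)‖ = t := by
        rw [norm_mul, Complex.norm_exp_ofReal_mul_I, mul_one, Complex.norm_real, Real.norm_of_nonneg ht.le]
      show a ≤ ‖(t : ℂ) * exp ((θ : ℂ) * I)‖ ∧ ‖(t : ℂ) * exp ((θ : ℂ) * I)‖ < r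
      rw [hn]
      exact ⟨h1, h2⟩
  rw [h1]
  apply IsPreconnected.image
  · exact isPreconnected_Ico.prod isPreconnected_univ
  · fun_prop

private lemma bgr_aux (G : Set ℂ) (r : ℝ) (hG : IsOpen G) (hGc : IsPreconnected G) (u v : Set ℂ)
    (hu : IsOpen u) (hv : IsOpen v) (hGb : ∀ z : ℂ, 1 / 2 ≤ ‖z‖ → z ∈ G)
    (hs : G ∩ ball 0 r ⊆ u ∪ v) (hr : 1 / 2 < r)
    (hun : (G ∩ ball 0 r ∩ u).Nonempty)
    (hN : {z : ℂ | 1 / 2 ≤ ‖z‖ ∧ ‖z‖ < r} ⊆ v) :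
    (G ∩ ball 0 r ∩ (u ∩ v)).Nonempty := by
  have hopen : IsOpen {z : ℂ | 1 / 2 < ‖z‖} := isOpen_lt continuous_const continuous_norm
  have hsopen : IsOpen (G ∩ ball (0 : ℂ) r) := hG.inter isOpen_ball
  obtain ⟨x, hx1, hx2, hx3⟩ := hGc (G ∩ ball 0 r ∩ u) ((G ∩ ball 0 r ∩ v) ∪ {z : ℂ | 1 / 2 < ‖z‖})
    (hsopen.inter hu) ((hsopen.inter hv).union hopen) (by
      intro z hz
      by_cases h1 : 1 / 2 < ‖z‖
      · exact Or.inr (Or.inr h1)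
      · have h2 : z ∈ G ∩ ball 0 r := ⟨hz, by rw [mem_ball_zero_iff]; linarith⟩
        rcases hs h2 with h3 | h3
        · exact Or.inl ⟨h2, h3⟩
        · exact Or.inr (Or.inl ⟨h2, h3⟩)) (by
      obtain ⟨x, hx⟩ := hun
      exact ⟨x, hx.1.1, hx⟩) (by
      refine ⟨(1 : ℂ), hGb 1 (by norm_num), Or.inr ?_⟩
      show (1 / 2 : ℝ) < ‖(1 : ℂ)‖
      norm_num)
  rcases hx3 with h3 | h3
  · exact ⟨x, hx2.1, hx2.2, h3.2⟩
  · refine ⟨x, hx2.1, hx2.2, hN ⟨le_of_lt h3, ?_⟩⟩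
    exact mem_ball_zero_iff.1 hx2.1.2

theorem piece_bgr : S_bgr := by
  intro G r hG hGc hGb hr
  have hann := bgr_ann (1 / 2) r (by norm_num)
  have hNs : {z : ℂ | 1 / 2 ≤ ‖z‖ ∧ ‖z‖ < r} ⊆ G ∩ ball 0 r := fun z hz =>
    ⟨hGb z hz.1, mem_ball_zero_iff.2 hz.2⟩
  have hNn : ({z : ℂ | 1 / 2 ≤ ‖z‖ ∧ ‖z‖ < r}).Nonempty :=
    ⟨(1 / 2 : ℂ), by norm_num, by norm_num; linarith⟩
  refine ⟨hNn.mono hNs, ?_⟩
  intro u v hu hv hs hun hvn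
  by_cases hcap : ({z : ℂ | 1 / 2 ≤ ‖z‖ ∧ ‖z‖ < r} ∩ (u ∩ v)).Nonempty
  · exact hcap.mono (inter_subset_inter_left _ hNs)
  · have hor : {z : ℂ | 1 / 2 ≤ ‖z‖ ∧ ‖z‖ < r} ⊆ u ∨ {z : ℂ | 1 / 2 ≤ ‖z‖ ∧ ‖z‖ < r} ⊆ v := by
      by_contra hcon
      push Not at hcon
      obtain ⟨h1, h2⟩ := hcon
      rw [Set.not_subset] at h1 h2
      obtain ⟨x, hx, hxu⟩ := h1
      obtain ⟨y, hy, hyv⟩ := h2
      apply hcap
      apply hann u v hu hv (hNs.trans hs)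
      · rcases hs (hNs hy) with h3 | h3
        · exact ⟨y, hy, h3⟩
        · exact absurd h3 hyv
      · rcases hs (hNs hx) with h3 | h3
        · exact absurd h3 hxu
        · exact ⟨x, hx, h3⟩
    rcases hor with h1 | h1
    · have h4 := bgr_aux G r hG hGc.isPreconnected v u hv hu hGb (by rwa [union_comm]) hr hvn h1
      rwa [inter_comm u v]
    · exact bgr_aux G r hG hGc.isPreconnected u v hu hv hGb hs hr hun h1

end Cal
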