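import Pool.Agent.Lib.MP_4ea4c7_an.StmH1b

/-!
# MP_4ea4c7_an, stage 2: piece bkmod (modulus of continuity from the Cauchy-Pompeiu formula)
-/

open MeasureTheory Complex Metric Set Filter Topology
open scoped ComplexConjugate ENNReal NNReal Convolution

namespace Cal

noncomputable section

/-- the kernel `|z|^{-3/2}` -/
private def bk (z : ℂ) : ℝ := 1 / (‖z‖ * Real.sqrt ‖z‖)

private lemma bk_nonneg (z : ℂ) : 0 ≤ bk z := by
  unfold bk
  positivity

private lemma bk_int (r : ℝ) : IntegrableOn bk (ball (0 : ℂ) r) volume := by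
  refine integrableOn_ball_of_norm_le_rpow (C := 1) (α := 3 / 2) ?_ ?_ ?_ ?_
  · rw [Complex.finrank_real_complex]
    norm_num
  · rw [Complex.finrank_real_complex]
    norm_num
  · refine Eventually.of_forall fun x => ?_
    rw [Real.norm_of_nonneg (bk_nonneg x), one_mul]
    unfold bk
    rcases eq_or_lt_of_le (norm_nonneg x) with h | h
    · rw [← h]
      simp
    · rw [Real.rpow_neg h.le, one_div]
      apply le_of_eq
      congr 1
      rw [show (3 / 2 : ℝ) = 1 + 1 / 2 by norm_num, Real.rpow_add h, Real.rpow_one, Real.sqrt_eq_rpow]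
  · refine (Measurable.aestronglyMeasurable ?_)
    unfold bk
    fun_prop

private lemma bk_alg (a b c : ℝ) (ha : 0 < a) (hb : 0 < b) (hc : 0 ≤ c) (h : c ≤ a + b) :
    c / (a * b) ≤ Real.sqrt c * (1 / (a * Real.sqrt a) + 1 / (b * Real.sqrt b)) := by
  obtain ⟨s, hs, rfl⟩ : ∃ s : ℝ, 0 < s ∧ a = s ^ 2 := ⟨Real.sqrt a, Real.sqrt_pos.mpr ha, (Real.sq_sqrt ha.le).symm⟩
  obtain ⟨t, ht, rfl⟩ : ∃ t : ℝ, 0 < t ∧ b = t ^ 2 := ⟨Real.sqrt b, Real.sqrt_pos.mpr hb, (Real.sq_sqrt hb.le).symm⟩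
  obtain ⟨u, hu, rfl⟩ : ∃ u : ℝ, 0 ≤ u ∧ c = u ^ 2 := ⟨Real.sqrt c, Real.sqrt_nonneg c, (Real.sq_sqrt hc).symm⟩
  rw [Real.sqrt_sq hs.le, Real.sqrt_sq ht.le, Real.sqrt_sq hu]
  have h1 : u ≤ s + t := by
    by_contra hcon
    push Not at hcon
    nlinarith [mul_pos hs ht]
  rw [show u * (1 / (s ^ 2 * s) + 1 / (t ^ 2 * t)) = u * (s ^ 3 + t ^ 3) / (s ^ 3 * t ^ 3) by
    field_simp
    ring]
  rw [div_le_div_iff₀ (by positivity) (by positivity)]
  have h2 : (s + t) * (s * t) ≤ s ^ 3 + t ^ 3 := by nlinarith [mul_nonneg (add_nonneg hs.le ht.le) (sq_nonneg (s - t))]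
  have h3 : u * (s * t) ≤ s ^ 3 + t ^ 3 := le_trans (by gcongr) h2
  calc u ^ 2 * (s ^ 3 * t ^ 3) = u * (u * (s * t)) * (s ^ 2 * t ^ 2) := by ring
    _ ≤ u * (s ^ 3 + t ^ 3) * (s ^ 2 * t ^ 2) := by gcongr

private lemma bk_diff (k k' ζ : ℂ) (h1 : ζ ≠ k) (h2 : ζ ≠ k') :
    ‖(k - ζ)⁻¹ - (k' - ζ)⁻¹‖ ≤ Real.sqrt ‖k - k'‖ * (bk (k - ζ) + bk (k' - ζ)) := by
  have a1 : k - ζ ≠ 0 := sub_ne_zero.mpr (Ne.symm h1)
  have a2 : k' - ζ ≠ 0 := sub_ne_zero.mpr (Ne.symm h2)
  have e : (k - ζ)⁻¹ - (k' - ζ)⁻¹ = (k' - k) / ((k - ζ) * (k' - ζ)) := by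
    field_simp
    ring
  rw [e, norm_div, norm_mul, norm_sub_rev k' k]
  refine bk_alg _ _ _ (norm_pos_iff.mpr a1) (norm_pos_iff.mpr a2) (norm_nonneg _) ?_
  calc ‖k - k'‖ = ‖(k - ζ) - (k' - ζ)‖ := by congr 1; ring
    _ ≤ _ := norm_sub_le _ _

private lemma bk_loc : LocallyIntegrable (fun t : ℂ => t⁻¹) (volume : Measure ℂ) := by
  refine locallyIntegrable_of_norm_le_rpow (C := 1) (α := 1) ?_ ?_ ?_ ?_
  · rw [Complex.finrank_real_complex]
    norm_num
  · rw [Complex.finrank_real_complex]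
    norm_num
  · refine Eventually.of_forall fun x => ?_
    rw [one_mul, norm_inv, Real.rpow_neg (norm_nonneg _), Real.rpow_one]
  · exact measurable_inv.aestronglyMeasurable

private lemma bk_ctint {w : ℂ → ℂ} (hw : Continuous w) (hc : HasCompactSupport w) (z : ℂ) :
    Integrable (fun ζ : ℂ => w ζ / (z - ζ)) volume := by
  have h1 : Integrable (fun t : ℂ => t⁻¹ * w (z - t)) volume :=
    hc.convolutionExists_right (ContinuousLinearMap.mul ℝ ℂ) bk_loc hw z
  have h2 := h1.comp_sub_left z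
  refine h2.congr (Eventually.of_forall fun ζ => ?_)
  simp only [sub_sub_cancel]
  rw [div_eq_mul_inv, mul_comm]

private lemma bk_dbcont {ψ : ℂ → ℂ} (h : ContDiff ℝ 1 ψ) : Continuous (db ψ) := by
  have h1 : Continuous (fderiv ℝ ψ) := h.continuous_fderiv (by simp)
  unfold db
  exact ((h1.clm_apply continuous_const).add (continuous_const.mul (h1.clm_apply continuous_const))).div_const 2

private lemma bk_dbsupp {ψ : ℂ → ℂ} {z : ℂ} (hz : z ∉ tsupport ψ) : db ψ z = 0 := by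
  have h1 : fderiv ℝ ψ z = 0 := by
    by_contra hne
    exact hz (support_fderiv_subset ℝ hne)
  unfold db
  rw [h1]
  simp

private lemma bk_dbcs {ψ : ℂ → ℂ} (h : HasCompactSupport ψ) : HasCompactSupport (db ψ) :=
  h.mono' fun z hz => by
    by_contra hne
    exact hz (bk_dbsupp hne)

/-- the estimate for test functions -/
private lemma bk_test (h1 : S_pomp) {ρ D : ℝ} (hD : 0 ≤ D) {ψ : ℂ → ℂ} (hψ : TF (ball 0 (2 * ρ)) ψ)
    (hb : ∀ z, ‖db ψ z‖ ≤ D) (k k' : ℂ) (hk : k ∈ closedBall (0 : ℂ) ρ) (hk' : k' ∈ closedBall (0 : ℂ) ρ) :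
    ‖ψ k - ψ k'‖ ≤ (1 / Real.pi) * (D * Real.sqrt ‖k - k'‖ * (2 * ∫ z in ball (0 : ℂ) (3 * ρ), bk z)) := by
  have hTF : TF univ ψ := ⟨hψ.1, hψ.2.1, subset_univ _⟩
  have hC1 : ContDiff ℝ 1 ψ := hψ.1.of_le (by exact_mod_cast le_top)
  have hcont := bk_dbcont hC1
  have hcs := bk_dbcs hψ.2.1
  rw [← h1 ψ hTF k, ← h1 ψ hTF k']
  unfold Ct
  rw [← mul_sub, norm_mul, ← integral_sub (bk_ctint hcont hcs k) (bk_ctint hcont hcs k')]
  have hpi : ‖(1 / (Real.pi : ℂ))‖ = 1 / Real.pi := by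
    rw [norm_div, norm_one, Complex.norm_real, Real.norm_of_nonneg Real.pi_pos.le]
  rw [hpi]
  refine mul_le_mul_of_nonneg_left ?_ (by positivity)
  set L : ℂ → ℝ := (ball (0 : ℂ) (3 * ρ)).indicator bk with hL
  have hLint : Integrable L volume := (integrable_indicator_iff measurableSet_ball).mpr (bk_int (3 * ρ))
  have hLnn : ∀ z, 0 ≤ L z := fun z => Set.indicator_nonneg (fun x _ => bk_nonneg x) z
  have hLeq : ∀ z : ℂ, z ∈ closedBall (0 : ℂ) ρ → ∀ ζ ∈ ball (0 : ℂ) (2 * ρ), L (z - ζ) = bk (z - ζ) := by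
    intro z hz ζ hζ
    rw [hL, Set.indicator_of_mem]
    rw [mem_ball_zero_iff] at hζ ⊢
    rw [mem_closedBall_zero_iff] at hz
    have := norm_sub_le z ζ
    linarith
  have hI1 : Integrable (fun ζ => L (k - ζ)) volume := hLint.comp_sub_left k
  have hI2 : Integrable (fun ζ => L (k' - ζ)) volume := hLint.comp_sub_left k'
  have hsum : ∫ ζ, D * Real.sqrt ‖k - k'‖ * (L (k - ζ) + L (k' - ζ)) =
      D * Real.sqrt ‖k - k'‖ * (2 * ∫ z in ball (0 : ℂ) (3 * ρ), bk z) := by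
    rw [integral_const_mul, integral_add hI1 hI2, integral_sub_left_eq_self L volume k, integral_sub_left_eq_self L volume k',
      hL, integral_indicator measurableSet_ball]
    ring
  rw [← hsum]
  refine norm_integral_le_of_norm_le ((hI1.add hI2).const_mul _) ?_
  have hne : ∀ᵐ ζ : ℂ, ζ ≠ k ∧ ζ ≠ k' := by
    have a1 : ∀ᵐ ζ : ℂ, ζ ≠ k := by
      rw [ae_iff]
      simp
    have a2 : ∀ᵐ ζ : ℂ, ζ ≠ k' := by
      rw [ae_iff]
      simp
    filter_upwards [a1, a2] with ζ b1 b2 using ⟨b1, b2⟩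
  filter_upwards [hne] with ζ hζ
  by_cases hζ2 : ζ ∈ ball (0 : ℂ) (2 * ρ)
  · rw [div_eq_mul_inv, div_eq_mul_inv, ← mul_sub, norm_mul, hLeq k hk ζ hζ2, hLeq k' hk' ζ hζ2, mul_assoc]
    exact mul_le_mul (hb ζ) (bk_diff k k' ζ hζ.1 hζ.2) (norm_nonneg _) hD
  · have h0 : db ψ ζ = 0 := bk_dbsupp fun h => hζ2 (hψ.2.2 h)
    rw [h0, zero_div, zero_div, sub_zero, norm_zero]
    have := hLnn (k - ζ)
    have := hLnn (k' - ζ)
    positivity

private lemma bk_moleq (ρ : ℂ → ℝ) (g : ℂ → ℂ) : mol ρ g = (ρ ⋆[ContinuousLinearMap.lsmul ℝ ℝ, volume] g) := by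
  funext z
  rw [convolution_eq_swap]
  rfl

/-- mollification does not increase the bound of `db` -/
private lemma bk_molbd {r : ℂ → ℝ} (hr : Continuous r) (hri : Integrable r volume) (hr0 : ∀ z, 0 ≤ r z) (hr1 : ∫ z, r z = 1)
    {g : ℂ → ℂ} (hg : ContDiff ℝ 1 g) (hgc : HasCompactSupport g) {D : ℝ} (hD : ∀ z, ‖db g z‖ ≤ D) (z : ℂ) :
    ‖db (mol r g) z‖ ≤ D := by
  have hloc : LocallyIntegrable r volume := hr.locallyIntegrable
  have h1 := hgc.hasFDerivAt_convolution_right (ContinuousLinearMap.lsmul ℝ ℝ) hloc hg z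
  have hfc : Continuous (fderiv ℝ g) := hg.continuous_fderiv (by simp)
  have h2 : ∀ v : ℂ, fderiv ℝ (mol r g) z v = ∫ t, r t • fderiv ℝ g (z - t) v := by
    intro v
    rw [bk_moleq, h1.fderiv, convolution_precompR_apply _ hloc (hgc.fderiv ℝ) hfc]
    rfl
  have hint : ∀ v : ℂ, Integrable (fun t => r t • fderiv ℝ g (z - t) v) volume := by
    intro v
    have hcs : HasCompactSupport (fun t => fderiv ℝ g t v) :=
      (hgc.fderiv ℝ).mono fun t ht h0 => ht (by simp [h0])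
    exact hcs.convolutionExists_right (ContinuousLinearMap.lsmul ℝ ℝ) hloc (hfc.clm_apply continuous_const) z
  have h3 : db (mol r g) z = ∫ t, r t • db g (z - t) := by
    unfold db
    rw [h2 1, h2 I, ← integral_const_mul, ← integral_add (hint 1) ((hint I).const_mul I), ← integral_div]
    refine integral_congr_ae (Eventually.of_forall fun t => ?_)
    simp only [Complex.real_smul]
    ring
  rw [h3]
  have h4 : D = ∫ t, r t * D := by rw [integral_mul_const, hr1, one_mul]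
  rw [h4]
  refine norm_integral_le_of_norm_le (hri.mul_const D) (Eventually.of_forall fun t => ?_)
  rw [norm_smul, Real.norm_of_nonneg (hr0 t)]
  exact mul_le_mul_of_nonneg_left (hD _) (hr0 t)

theorem piece_bkmod (h1 : S_pomp) (h2 : S_bump) : S_bkmod := by
  intro ρ hρ
  obtain ⟨r, r1, r2, r3, r4, _, r6, _, r8⟩ := h2
  -- the cutoff function
  set χ : ℂ → ℝ := fun z => Real.smoothTransition ((4 / 5) * (9 / 4 - ‖z‖ ^ 2 / ρ ^ 2)) with hχ
  have hχs : ContDiff ℝ (⊤ : ℕ∞) χ := by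
    refine Real.smoothTransition.contDiff.comp ?_
    exact contDiff_const.mul (contDiff_const.sub ((contDiff_norm_sq ℝ).div_const _))
  have hχ1 : ∀ z ∈ closedBall (0 : ℂ) ρ, χ z = 1 := by
    intro z hz
    rw [mem_closedBall_zero_iff] at hz
    refine Real.smoothTransition.one_of_one_le ?_
    have : ‖z‖ ^ 2 / ρ ^ 2 ≤ 1 := by
      rw [div_le_one (by positivity)]
      gcongr
    linarith
  have hχ0 : ∀ z, z ∉ closedBall (0 : ℂ) (3 / 2 * ρ) → χ z = 0 := by
    intro z hz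
    rw [mem_closedBall_zero_iff, not_le] at hz
    refine Real.smoothTransition.zero_of_nonpos ?_
    have : 9 / 4 ≤ ‖z‖ ^ 2 / ρ ^ 2 := by
      rw [le_div_iff₀ (by positivity)]
      nlinarith
    linarith
  have hχc : HasCompactSupport χ := HasCompactSupport.intro (isCompact_closedBall (0 : ℂ) (3 / 2 * ρ)) hχ0
  have hχle : ∀ z, χ z ≤ 1 := fun z => Real.smoothTransition.le_one _
  have hχnn : ∀ z, 0 ≤ χ z := fun z => Real.smoothTransition.nonneg _
  obtain ⟨B, hB⟩ := (hχc.fderiv (𝕜 := ℝ)).exists_bound_of_continuous (hχs.continuous_fderiv (by simp))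
  have hB0 : 0 ≤ B := (norm_nonneg _).trans (hB 0)
  have hJ : 0 ≤ ∫ z in ball (0 : ℂ) (3 * ρ), bk z := integral_nonneg fun z => bk_nonneg z
  refine ⟨(1 / Real.pi) * ((1 + B) * (2 * ∫ z in ball (0 : ℂ) (3 * ρ), bk z)), by positivity, ?_⟩
  intro M h hh hM k hk k' hk'
  have hM0 : 0 ≤ M := (norm_nonneg _).trans (hM 0 (mem_ball_self (by linarith))).1
  set g : ℂ → ℂ := fun z => χ z • h z with hg
  have hgs : ContDiff ℝ 1 g := (hχs.of_le (by exact_mod_cast le_top)).smul hh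
  have hg0 : ∀ z, z ∉ closedBall (0 : ℂ) (3 / 2 * ρ) → g z = 0 := by
    intro z hz
    show χ z • h z = 0
    rw [hχ0 z hz, zero_smul]
  have hgc : HasCompactSupport g := HasCompactSupport.intro (isCompact_closedBall (0 : ℂ) (3 / 2 * ρ)) hg0
  have hgt : tsupport g ⊆ closedBall (0 : ℂ) (3 / 2 * ρ) := by
    refine closure_minimal (fun z hz => ?_) isClosed_closedBall
    by_contra hne
    exact hz (hg0 z hne)
  have hdb : ∀ z, ‖db g z‖ ≤ (1 + B) * M := by
    intro z
    by_cases hz : z ∈ closedBall (0 : ℂ) (3 / 2 * ρ)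
    · have hzb : z ∈ ball (0 : ℂ) (2 * ρ) := by
        rw [mem_closedBall_zero_iff] at hz
        rw [mem_ball_zero_iff]
        linarith
      obtain ⟨m1, m2⟩ := hM z hzb
      have d1 : HasFDerivAt χ (fderiv ℝ χ z) z := (hχs.differentiable (by simp) z).hasFDerivAt
      have d2 : HasFDerivAt h (fderiv ℝ h z) z := (hh.differentiable (by simp) z).hasFDerivAt
      have d3 := (d1.smul d2).fderiv
      have d4 : ∀ v : ℂ, fderiv ℝ g z v = χ z • fderiv ℝ h z v + (fderiv ℝ χ z v) • h z := by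
        intro v
        have : fderiv ℝ g z = _ := d3
        rw [this]
        simp
      have d5 : db g z = χ z • db h z + ((((fderiv ℝ χ z 1 : ℝ) : ℂ) + I * ((fderiv ℝ χ z I : ℝ) : ℂ)) / 2) * h z := by
        unfold db
        rw [d4, d4]
        simp only [Complex.real_smul]
        ring
      have e1 : ‖((fderiv ℝ χ z 1 : ℝ) : ℂ)‖ ≤ B := by
        rw [Complex.norm_real]
        have := (fderiv ℝ χ z).le_opNorm 1
        rw [norm_one, mul_one] at this
        exact this.trans (hB z)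
      have e2 : ‖((fderiv ℝ χ z I : ℝ) : ℂ)‖ ≤ B := by
        rw [Complex.norm_real]
        have := (fderiv ℝ χ z).le_opNorm I
        rw [Complex.norm_I, mul_one] at this
        exact this.trans (hB z)
      have e3 : ‖(((fderiv ℝ χ z 1 : ℝ) : ℂ) + I * ((fderiv ℝ χ z I : ℝ) : ℂ)) / 2‖ ≤ B := by
        rw [norm_div]
        have f1 : ‖((fderiv ℝ χ z 1 : ℝ) : ℂ) + I * ((fderiv ℝ χ z I : ℝ) : ℂ)‖ ≤ B + B := by
          refine (norm_add_le _ _).trans (add_le_add e1 ?_)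
          rw [norm_mul, Complex.norm_I, one_mul]
          exact e2
        have f2 : ‖(2 : ℂ)‖ = 2 := by simp
        rw [f2, div_le_iff₀ (by norm_num)]
        linarith
      rw [d5]
      refine (norm_add_le _ _).trans ?_
      rw [norm_smul, norm_mul, Real.norm_of_nonneg (hχnn z)]
      have g1 : χ z * ‖db h z‖ ≤ 1 * M := mul_le_mul (hχle z) m2 (norm_nonneg _) (by norm_num)
      have g2 : ‖(((fderiv ℝ χ z 1 : ℝ) : ℂ) + I * ((fderiv ℝ χ z I : ℝ) : ℂ)) / 2‖ * ‖h z‖ ≤ B * M :=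
        mul_le_mul e3 m1 (norm_nonneg _) hB0
      linarith
    · rw [bk_dbsupp fun hc => hz (hgt hc), norm_zero]
      positivity
  -- the mollified functions
  have hrcont : ∀ n, Continuous (r n) := fun n => (r1 n).continuous
  have hrint : ∀ n, Integrable (r n) volume := by
    intro n
    by_contra hne
    have := r4 n
    rw [integral_undef hne] at this
    exact zero_ne_one this
  have hbound : ∀ᶠ n in atTop, ‖mol (r n) g k - mol (r n) g k'‖ ≤
      (1 / Real.pi) * ((1 + B) * M * Real.sqrt ‖k - k'‖ * (2 * ∫ z in ball (0 : ℂ) (3 * ρ), bk z)) := by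
    have hn : ∀ᶠ n : ℕ in atTop, 1 / ((n : ℝ) + 1) < ρ / 4 :=
      (tendsto_order.mp tendsto_one_div_add_atTop_nhds_zero_nat).2 _ (by linarith)
    filter_upwards [hn] with n hn
    have hsupp : ∀ z, z ∉ closedBall (0 : ℂ) (7 / 4 * ρ) → mol (r n) g z = 0 := by
      intro z hz
      rw [mem_closedBall_zero_iff, not_le] at hz
      unfold mol
      have : ∀ ζ, ((r n (z - ζ) : ℝ) : ℂ) * g ζ = 0 := by
        intro ζ
        by_cases hζ : ζ ∈ closedBall (0 : ℂ) (3 / 2 * ρ)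
        · rw [mem_closedBall_zero_iff] at hζ
          have h5 : ‖z‖ ≤ ‖z - ζ‖ + ‖ζ‖ := by
            have := norm_add_le (z - ζ) ζ
            rwa [sub_add_cancel] at this
          rw [r3 n (z - ζ) (by linarith)]
          simp
        · rw [hg0 ζ hζ, mul_zero]
      simp [this]
    have hTF : TF (ball 0 (2 * ρ)) (mol (r n) g) := by
      refine ⟨r6 g hgs.continuous.locallyIntegrable n, HasCompactSupport.intro (isCompact_closedBall (0 : ℂ) (7 / 4 * ρ)) hsupp, ?_⟩
      have h6 : tsupport (mol (r n) g) ⊆ closedBall (0 : ℂ) (7 / 4 * ρ) := by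
        refine closure_minimal (fun z hz => ?_) isClosed_closedBall
        by_contra hne
        exact hz (hsupp z hne)
      intro z hz
      have h7 := h6 hz
      rw [mem_closedBall_zero_iff] at h7
      rw [mem_ball_zero_iff]
      linarith
    exact bk_test h1 (by positivity) hTF (bk_molbd (hrcont n) (hrint n) (r2 n) (r4 n) hgs hgc hdb) k k' hk hk'
  have hK : IsCompact (closedBall (0 : ℂ) ρ) := isCompact_closedBall _ _
  have hun := r8 g hgs.continuous _ hK
  have t1 : Tendsto (fun n => mol (r n) g k) atTop (𝓝 (g k)) := hun.tendsto_at hk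
  have t2 : Tendsto (fun n => mol (r n) g k') atTop (𝓝 (g k')) := hun.tendsto_at hk'
  have hfin := le_of_tendsto (t1.sub t2).norm hbound
  have g1 : g k = h k := by
    show χ k • h k = h k
    rw [hχ1 k hk, one_smul]
  have g2 : g k' = h k' := by
    show χ k' • h k' = h k'
    rw [hχ1 k' hk', one_smul]
  rw [g1, g2] at hfin
  refine hfin.trans (le_of_eq ?_)
  ring

end

end Cal
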