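import Pool.Agent.Lib.MP_4ea4c7_an.StmH1b

/-!
# MP_4ea4c7_an, stage 2, piece [b9]: logarithms converge
-/

open MeasureTheory Complex Metric Set Filter Topology
open scoped ComplexConjugate ENNReal NNReal

namespace Cal

/-- uniform closeness to `1` of the quotients on a compact set -/
private lemma blog_quot {K : Set (ℂ × ℂ)} {Ln : ℕ → ℂ × ℂ → ℂ} {U : ℂ × ℂ → ℂ} (hK : IsCompact K) (hU : ContinuousOn U K)
    (hne : ∀ p ∈ K, U p ≠ 0) (ht : TendstoUniformlyOn (fun n p => exp (Ln n p)) U atTop K) {ε : ℝ} (hε : 0 < ε) :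
    ∃ N, ∀ m ≥ N, ∀ n ≥ N, ∀ p ∈ K, ‖exp (Ln m p - Ln n p) - 1‖ ≤ ε := by
  rcases K.eq_empty_or_nonempty with rfl | hKn
  · exact ⟨0, fun _ _ _ _ p hp => absurd hp (notMem_empty p)⟩
  obtain ⟨q, hqK, hq⟩ := hK.exists_isMinOn hKn hU.norm
  set a : ℝ := ‖U q‖ with ha
  have ha0 : 0 < a := norm_pos_iff.mpr (hne q hqK)
  have hmin : ∀ p ∈ K, a ≤ ‖U p‖ := fun p hp => hq hp
  set δ : ℝ := min (a / 2) (a * ε / 4) with hδ
  have hδ0 : 0 < δ := lt_min (by positivity) (by positivity)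
  obtain ⟨N, hN⟩ := (eventually_atTop.mp (Metric.tendstoUniformlyOn_iff.mp ht δ hδ0))
  refine ⟨N, fun m hm n hn p hp => ?_⟩
  have h1 := hN m hm p hp
  have h2 := hN n hn p hp
  rw [dist_eq_norm] at h1 h2
  have h3 : ‖exp (Ln m p) - exp (Ln n p)‖ ≤ 2 * δ := by
    have e : exp (Ln m p) - exp (Ln n p) = (U p - exp (Ln n p)) - (U p - exp (Ln m p)) := by ring
    rw [e]
    have := norm_sub_le (U p - exp (Ln n p)) (U p - exp (Ln m p))
    linarith
  have h4 : a / 2 ≤ ‖exp (Ln n p)‖ := by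
    have e : ‖U p‖ ≤ ‖U p - exp (Ln n p)‖ + ‖exp (Ln n p)‖ := by
      have := norm_add_le (U p - exp (Ln n p)) (exp (Ln n p))
      simpa using this
    have h5 := hmin p hp
    have h6 : δ ≤ a / 2 := min_le_left _ _
    linarith
  have h7 : exp (Ln m p - Ln n p) - 1 = (exp (Ln m p) - exp (Ln n p)) / exp (Ln n p) := by
    rw [Complex.exp_sub]
    have := Complex.exp_ne_zero (Ln n p)
    field_simp
  rw [h7, norm_div, div_le_iff₀ (by linarith [ha0] : (0 : ℝ) < ‖exp (Ln n p)‖)]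
  have h8 : δ ≤ a * ε / 4 := min_le_right _ _
  have h9 : ε * (a / 2) ≤ ε * ‖exp (Ln n p)‖ := mul_le_mul_of_nonneg_left h4 hε.le
  nlinarith

/-- a continuous function with exponential near `1`, small at one point, is the logarithm of its exponential -/
private lemma blog_small (hu : S_blogu) {B : Set (ℂ × ℂ)} (hB : IsPreconnected B) {D : ℂ × ℂ → ℂ} (hD : ContinuousOn D B)
    {ε : ℝ} (hε2 : ε ≤ 1 / 2) (he : ∀ p ∈ B, ‖exp (D p) - 1‖ ≤ ε) {p1 : ℂ × ℂ} (hp1 : p1 ∈ B) (h1 : ‖D p1‖ < 1)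
    (p : ℂ × ℂ) (hp : p ∈ B) : ‖D p‖ ≤ 3 / 2 * ε := by
  have hslit : ∀ q ∈ B, exp (D q) ∈ slitPlane := by
    intro q hq
    have h2 : ‖exp (D q) - 1‖ < 1 := lt_of_le_of_lt (he q hq) (by linarith)
    have h3 := Complex.mem_slitPlane_of_norm_lt_one h2
    simpa using h3
  have hL : ContinuousOn (fun q => Complex.log (exp (D q))) B := by
    intro q hq
    have h2 : ContinuousWithinAt (fun q => exp (D q)) B q := (Complex.continuous_exp.comp_continuousOn hD) q hq
    exact h2.clog (hslit q hq)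
  have hpi := Real.pi_gt_three
  have him : |(D p1).im| < 1 := lt_of_le_of_lt (Complex.abs_im_le_norm _) h1
  rw [abs_lt] at him
  have h0 : D p1 = Complex.log (exp (D p1)) := by
    rw [Complex.log_exp]
    · linarith
    · linarith
  have heq := hu B D (fun q => Complex.log (exp (D q))) p1 hB hp1 hD hL
    (fun q _ => (Complex.exp_log (Complex.exp_ne_zero _)).symm) h0 p hp
  have h5 : Complex.log (exp (D p)) = Complex.log (1 + (exp (D p) - 1)) := by
    congr 1
    ring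
  rw [heq]
  show ‖Complex.log (exp (D p))‖ ≤ 3 / 2 * ε
  rw [h5]
  have h6 := he p hp
  have h7 := Complex.norm_log_one_add_half_le_self (z := exp (D p) - 1) (h6.trans hε2)
  linarith

/-- the local step -/
private lemma blog_local (hu : S_blogu) {W : Set (ℂ × ℂ)} {Ln : ℕ → ℂ × ℂ → ℂ} {U : ℂ × ℂ → ℂ}
    (hL : ∀ n, ContinuousOn (Ln n) W) (hU : ContinuousOn U W) (hne : ∀ p ∈ W, U p ≠ 0)
    (ht : ∀ K : Set (ℂ × ℂ), IsCompact K → K ⊆ W → TendstoUniformlyOn (fun n p => exp (Ln n p)) U atTop K)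
    {p0 : ℂ × ℂ} {r : ℝ} (hr : closedBall p0 r ⊆ W) {p1 : ℂ × ℂ} (hp1 : p1 ∈ closedBall p0 r)
    (hc : CauchySeq (fun n => Ln n p1)) : UniformCauchySeqOn Ln atTop (closedBall p0 r) := by
  rw [Metric.uniformCauchySeqOn_iff]
  intro ε hε
  have hε' : 0 < min (1 / 2) (ε / 2) := lt_min (by norm_num) (by positivity)
  obtain ⟨N, hN⟩ := blog_quot (isCompact_closedBall p0 r) (hU.mono hr) (fun p hp => hne p (hr hp))
    (ht _ (isCompact_closedBall p0 r) hr) hε'
  obtain ⟨N', hN'⟩ := Metric.cauchySeq_iff.mp hc 1 one_pos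
  refine ⟨max N N', fun m hm n hn p hp => ?_⟩
  have hmN := (le_max_left N N').trans hm
  have hnN := (le_max_left N N').trans hn
  have hmN' := (le_max_right N N').trans hm
  have hnN' := (le_max_right N N').trans hn
  have hcb : IsPreconnected (closedBall p0 r) := (convex_closedBall p0 r).isPreconnected
  have h1 := hN' m hmN' n hnN'
  rw [dist_eq_norm] at h1 ⊢
  have h2 := blog_small hu hcb (D := fun p => Ln m p - Ln n p) (((hL m).mono hr).sub ((hL n).mono hr))
    (min_le_left _ _) (hN m hmN n hnN) hp1 h1 p hp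
  have h3 : min (1 / 2) (ε / 2) ≤ ε / 2 := min_le_right _ _
  linarith

theorem piece_blog (hu : S_blogu) : S_blog := by
  intro W Ln U x0 l hWo hWc hx0 hL hU hne ht hl
  set T : Set (ℂ × ℂ) := {p | p ∈ W ∧ CauchySeq (fun n => Ln n p)} with hT
  have hball : ∀ p ∈ W, ∃ r > 0, closedBall p r ⊆ W := fun p hp => Metric.nhds_basis_closedBall.mem_iff.mp (hWo.mem_nhds hp)
  have hTo : IsOpen T := by
    rw [Metric.isOpen_iff]
    rintro p ⟨hpW, hpc⟩
    obtain ⟨r, hr0, hr⟩ := hball p hpW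
    refine ⟨r, hr0, fun q hq => ?_⟩
    have hq' : q ∈ closedBall p r := ball_subset_closedBall hq
    have hu1 := blog_local hu hL hU hne ht hr (mem_closedBall_self hr0.le) hpc
    exact ⟨hr hq', hu1.cauchySeq hq'⟩
  have hTc : closure T ∩ W ⊆ T := by
    rintro p ⟨hpc, hpW⟩
    obtain ⟨r, hr0, hr⟩ := hball p hpW
    obtain ⟨q, hqT, hq⟩ := Metric.mem_closure_iff.mp hpc r hr0
    have hq' : q ∈ closedBall p r := by
      rw [mem_closedBall, dist_comm]
      exact hq.le
    have hu1 := blog_local hu hL hU hne ht hr hq' hqT.2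
    exact ⟨hpW, hu1.cauchySeq (mem_closedBall_self hr0.le)⟩
  have hWT : W ⊆ T := hWc.subset_of_closure_inter_subset hTo ⟨x0, hx0, hx0, hl.cauchySeq⟩ hTc
  have hlim : ∀ p ∈ W, Tendsto (fun n => Ln n p) atTop (𝓝 (limUnder atTop (fun n => Ln n p))) :=
    fun p hp => CauchySeq.tendsto_limUnder (hWT hp).2
  have hloc : TendstoLocallyUniformlyOn Ln (fun p => limUnder atTop (fun n => Ln n p)) atTop W := by
    apply tendstoLocallyUniformlyOn_of_forall_exists_nhds
    intro p hp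
    obtain ⟨r, hr0, hr⟩ := hball p hp
    refine ⟨closedBall p r, mem_nhdsWithin_of_mem_nhds (closedBall_mem_nhds p hr0), ?_⟩
    have hu1 := blog_local hu hL hU hne ht hr (mem_closedBall_self hr0.le) (hWT hp).2
    exact hu1.tendstoUniformlyOn_of_tendsto (fun q hq => hlim q (hr hq))
  refine ⟨fun p => limUnder atTop (fun n => Ln n p), hloc.continuousOn (Frequently.of_forall hL), ?_, ?_⟩
  · intro p hp
    have h1 : Tendsto (fun n => exp (Ln n p)) atTop (𝓝 (exp (limUnder atTop (fun n => Ln n p)))) :=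
      (Complex.continuous_exp.tendsto _).comp (hlim p hp)
    have h2 := (ht {p} isCompact_singleton (singleton_subset_iff.mpr hp)).tendsto_at (mem_singleton p)
    exact tendsto_nhds_unique h1 h2
  · intro K hK hKW
    exact (tendstoLocallyUniformlyOn_iff_forall_isCompact hWo).mp hloc K hKW hK

end Cal
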