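import Pool.Agent.Lib.MP_4ea4c7_an.StmH1b

/-!
# MP_4ea4c7_an, stage 2, [b10]: two continuous logarithms that agree at one point agree
-/

open MeasureTheory Complex Metric Set Filter Topology
open scoped ComplexConjugate ENNReal NNReal

namespace Cal

theorem piece_blogu : S_blogu := by
  intro W L L' x0 hW hx0 hL hL' he h0 p hp
  by_contra hne
  -- values of the norm of the difference
  have hval : ∀ q ∈ W, L q = L' q ∨ 2 * Real.pi ≤ ‖L q - L' q‖ := by
    intro q hq
    obtain ⟨n, hn⟩ := Complex.exp_eq_exp_iff_exists_int.mp (he q hq)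
    by_cases hn0 : n = 0
    · left
      rw [hn, hn0]
      simp
    · right
      have h1 : L q - L' q = n * (2 * Real.pi * I) := by
        rw [hn]; ring
      rw [h1]
      have h2 : (1 : ℝ) ≤ |(n : ℝ)| := by
        have : (1 : ℤ) ≤ |n| := Int.one_le_abs hn0
        exact_mod_cast this
      have h3 : ‖(n : ℂ) * (2 * Real.pi * I)‖ = |(n : ℝ)| * (2 * Real.pi) := by
        rw [norm_mul, norm_mul, norm_mul, Complex.norm_I, Complex.norm_real,
          Complex.norm_intCast]
        simp [abs_of_pos Real.pi_pos]
      rw [h3]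
      nlinarith [Real.pi_pos]
  have hcont : ContinuousOn (fun q => ‖L q - L' q‖) W := (hL.sub hL').norm
  have hpi := Real.pi_pos
  have hp2 : 2 * Real.pi ≤ ‖L p - L' p‖ := by
    rcases hval p hp with h | h
    · exact absurd h hne
    · exact h
  have hsub := hW.intermediate_value hx0 hp hcont
  have hmem : Real.pi ∈ Icc ‖L x0 - L' x0‖ ‖L p - L' p‖ := by
    constructor
    · rw [h0, sub_self, norm_zero]
      exact hpi.le
    · linarith
  obtain ⟨q, hq, hqv⟩ := hsub hmem
  rcases hval q hq with h | h
  · simp only [h, sub_self, norm_zero] at hqv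
    linarith
  · simp only at hqv
    linarith

end Cal
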