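import Pool.Agent.Lib.MP_4ea4c7_an.StmH1b

open MeasureTheory Complex Metric Set Filter Topology
open scoped ComplexConjugate ENNReal NNReal

namespace Cal

theorem bnd_punc (w : ℂ) (r : ℝ) (hr : 0 < r) : IsPreconnected (ball w r \ {w}) := by
  have h1 : (fun z : ℂ => w + exp z) '' {z : ℂ | z.re < Real.log r} = ball w r \ {w} := by
    ext y
    constructor
    · rintro ⟨z, hz, rfl⟩
      refine ⟨?_, ?_⟩
      · rw [mem_ball, dist_eq_norm, add_sub_cancel_left, Complex.norm_exp]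
        calc Real.exp z.re < Real.exp (Real.log r) := Real.exp_lt_exp.2 hz
          _ = r := Real.exp_log hr
      · simp [Complex.exp_ne_zero]
    · rintro ⟨hy, hne⟩
      have hne' : y - w ≠ 0 := sub_ne_zero.2 (by simpa using hne)
      refine ⟨Complex.log (y - w), ?_, ?_⟩
      · show (Complex.log (y - w)).re < Real.log r
        rw [Complex.log_re]
        apply Real.log_lt_log (norm_pos_iff.2 hne')
        rwa [mem_ball, dist_eq_norm] at hy
      · show w + exp (Complex.log (y - w)) = y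
        rw [Complex.exp_log hne']; ring
  rw [← h1]
  have hc : Convex ℝ {z : ℂ | z.re < Real.log r} := convex_halfSpace_re_lt _
  exact hc.isPreconnected.image _ (by fun_prop)

theorem bnd_fib (G : Set ℂ) (hG : IsOpen G) (hc : IsPreconnected G) (w : ℂ) : IsPreconnected (G \ {w}) := by
  by_cases hw : w ∈ G
  swap
  · rwa [diff_singleton_eq_self hw]
  obtain ⟨r, hr, hrG⟩ := Metric.isOpen_iff.1 hG w hw
  have hA := bnd_punc w r hr
  rw [isPreconnected_iff_subset_of_disjoint] at hA ⊢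
  -- general step
  have key : ∀ u v : Set ℂ, IsOpen u → IsOpen v → G \ {w} ⊆ u ∪ v → (G \ {w}) ∩ (u ∩ v) = ∅ → ball w r \ {w} ⊆ u → G \ {w} ⊆ u := by
    intro u v hu hv hcov hdis hAu
    rw [isPreconnected_iff_subset_of_disjoint] at hc
    have h2 := hc (u ∪ ball w r) (v \ {w}) (hu.union isOpen_ball) (hv.sdiff isClosed_singleton) ?_ ?_
    · rcases h2 with h | h
      · intro z hz
        rcases h hz.1 with h3 | h3
        · exact h3
        · exact hAu ⟨h3, hz.2⟩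
      · exact absurd rfl (h hw).2
    · intro z hz
      by_cases hzw : z = w
      · left; right; rw [hzw]; exact mem_ball_self hr
      · rcases hcov ⟨hz, hzw⟩ with h3 | h3
        · left; left; exact h3
        · right; exact ⟨h3, hzw⟩
    · rw [eq_empty_iff_forall_notMem]
      rintro z ⟨hzG, hz1, hzv, hzw⟩
      have : z ∈ u := by
        rcases hz1 with h | h
        · exact h
        · exact hAu ⟨h, hzw⟩
      have h4 : z ∈ (G \ {w}) ∩ (u ∩ v) := ⟨⟨hzG, hzw⟩, this, hzv⟩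
      rw [hdis] at h4; exact h4
  intro u v hu hv hcov hdis
  have hsub : ball w r \ {w} ⊆ G \ {w} := fun z hz => ⟨hrG hz.1, hz.2⟩
  rcases hA u v hu hv (hsub.trans hcov) (by
    rw [eq_empty_iff_forall_notMem]; rintro z ⟨h1, h2⟩
    have : z ∈ (G \ {w}) ∩ (u ∩ v) := ⟨hsub h1, h2⟩
    rw [hdis] at this; exact this) with h | h
  · left; exact key u v hu hv hcov hdis h
  · right; exact key v u hv hu (by rwa [union_comm]) (by rwa [inter_comm v u]) h

theorem bnd_main (G : Set ℂ) (hG : IsOpen G) (hc : IsPreconnected G) : IsPreconnected {p : ℂ × ℂ | p.1 ∈ G ∧ p.2 ∈ G ∧ p.1 ≠ p.2} := by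
  apply isPreconnected_of_forall_pair
  rintro ⟨z1, w1⟩ ⟨hz1, hw1, hne1⟩ ⟨z2, w2⟩ ⟨hz2, hw2, hne2⟩
  -- choose a third coordinate
  simp only at hz1 hw1 hne1 hz2 hw2 hne2
  have hinf : ∃ z3 ∈ G, z3 ≠ w1 ∧ z3 ≠ w2 := by
    have hi : G.Infinite := by
      intro hf
      obtain ⟨r, hr, hrG⟩ := Metric.isOpen_iff.1 hG z1 hz1
      have : (ball z1 r).Finite := hf.subset hrG
      exact (infinite_of_mem_nhds z1 (ball_mem_nhds z1 hr)) this
    obtain ⟨z3, h3, h3'⟩ := hi.exists_notMem_finite (s := G) (t := {w1, w2}) (by simp)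
    exact ⟨z3, h3, by simpa [not_or] using h3'⟩
  obtain ⟨z3, hz3, hn1, hn2⟩ := hinf
  -- three fibres
  have F1 : IsPreconnected ((fun z : ℂ => (z, w1)) '' (G \ {w1})) := (bnd_fib G hG hc w1).image _ (by fun_prop)
  have F2 : IsPreconnected ((fun w : ℂ => (z3, w)) '' (G \ {z3})) := (bnd_fib G hG hc z3).image _ (by fun_prop)
  have F3 : IsPreconnected ((fun z : ℂ => (z, w2)) '' (G \ {w2})) := (bnd_fib G hG hc w2).image _ (by fun_prop)
  have F12 := IsPreconnected.union (z3, w1) (s := (fun z : ℂ => (z, w1)) '' (G \ {w1})) (t := (fun w : ℂ => (z3, w)) '' (G \ {z3}))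
    ⟨z3, ⟨hz3, hn1⟩, rfl⟩ ⟨w1, ⟨hw1, fun h => hn1 (by simpa using h.symm)⟩, rfl⟩ F1 F2
  have F123 := IsPreconnected.union (z3, w2) (s := (fun z : ℂ => (z, w1)) '' (G \ {w1}) ∪ (fun w : ℂ => (z3, w)) '' (G \ {z3})) (t := (fun z : ℂ => (z, w2)) '' (G \ {w2}))
    (Or.inr ⟨w2, ⟨hw2, fun h => hn2 (by simpa using h.symm)⟩, rfl⟩) ⟨z3, ⟨hz3, hn2⟩, rfl⟩ F12 F3
  refine ⟨_, ?_, ?_, ?_, F123⟩
  · rintro p ((⟨z, hz, rfl⟩ | ⟨w, hw, rfl⟩) | ⟨z, hz, rfl⟩)
    · exact ⟨hz.1, hw1, hz.2⟩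
    · exact ⟨hz3, hw.1, fun h => hw.2 (by simpa using h.symm)⟩
    · exact ⟨hz.1, hw2, hz.2⟩
  · left; left; exact ⟨z1, ⟨hz1, hne1⟩, rfl⟩
  · right; exact ⟨z2, ⟨hz2, hne2⟩, rfl⟩

theorem piece_bnd : S_bnd := fun G hG hc => bnd_main G hG hc.isPreconnected

end Cal
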