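import Pool.Agent.Lib.MP_4ea4c7_an.StmH1b

/-! [b1] The primitive of a test function. -/

open MeasureTheory Complex Metric Set Filter Topology
open scoped ComplexConjugate ENNReal NNReal Convolution

namespace Cal

private theorem bpp_supp {ψ : ℂ → ℝ} (hψ : RTF univ ψ) : ∃ R : ℝ, 0 < R ∧ ∀ z : ℂ, R < |z.re| → ψ z = 0 := by
  obtain ⟨R, hR0, hR⟩ := (show IsCompact (tsupport ψ) from hψ.2.1).isBounded.subset_closedBall_lt 0 (0 : ℂ)
  refine ⟨R, hR0, fun z hz => image_eq_zero_of_notMem_tsupport fun h => ?_⟩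
  have h1 := hR h
  rw [mem_closedBall, dist_zero_right] at h1
  exact absurd ((abs_re_le_norm z).trans h1) (not_le.mpr hz)

private theorem bpp_bound {h : ℝ → ℝ} {R C : ℝ} (hR : 0 < R) (hC : 0 ≤ C) (h0 : ∀ t, R < |t| → h t = 0)
    (hb : ∀ t, |h t| ≤ C) (x : ℝ) : |∫ t in Iic x, h t| ≤ C * (2 * R) := by
  have e : ∫ t in Iic x ∩ Icc (-R) R, h t = ∫ t in Iic x, h t := by
    refine (setIntegral_eq_of_subset_of_forall_sdiff_eq_zero measurableSet_Iic inter_subset_left ?_).symm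
    rintro t ⟨h1, h2⟩
    refine h0 t ?_
    by_contra hc
    exact h2 ⟨h1, abs_le.mp (not_lt.mp hc)⟩
  have hm : volume (Iic x ∩ Icc (-R) R) ≤ volume (Icc (-R) R) := measure_mono inter_subset_right
  have hfin : volume (Icc (-R) R) < ⊤ := by
    rw [Real.volume_Icc]; exact ENNReal.ofReal_lt_top
  have h1 := norm_setIntegral_le_of_norm_le_const (μ := volume) (s := Iic x ∩ Icc (-R) R) (f := h) (C := C)
    (hm.trans_lt hfin) (fun t _ => by rw [Real.norm_eq_abs]; exact hb t)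
  rw [e, Real.norm_eq_abs] at h1
  refine h1.trans (mul_le_mul_of_nonneg_left ?_ hC)
  have h2 : volume.real (Icc (-R) R) = 2 * R := by
    rw [Real.volume_real_Icc_of_le (by linarith)]; ring
  rw [← h2]
  exact measureReal_mono inter_subset_right hfin.ne

private theorem bpp_line {ψ : ℂ → ℝ} (hψ : RTF univ ψ) (y : ℝ) :
    Continuous (fun t : ℝ => ψ ((t : ℂ) + (y : ℂ) * I)) :=
  hψ.1.continuous.comp (Complex.continuous_ofReal.add continuous_const)

private theorem bpp_int {ψ : ℂ → ℝ} (hψ : RTF univ ψ) (y : ℝ) :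
    Integrable (fun t : ℝ => ψ ((t : ℂ) + (y : ℂ) * I)) := by
  obtain ⟨R, hR0, hR⟩ := bpp_supp hψ
  refine (bpp_line hψ y).integrable_of_hasCompactSupport
    (HasCompactSupport.intro (isCompact_Icc (a := -R) (b := R)) fun t ht => hR _ ?_)
  have : ((t : ℂ) + (y : ℂ) * I).re = t := by simp
  rw [this]
  by_contra hc
  exact ht (abs_le.mp (not_lt.mp hc))

private theorem bpp_smooth {ψ : ℂ → ℝ} (hψ : RTF univ ψ) : ContDiff ℝ (⊤ : ℕ∞) (PP ψ) := by
  obtain ⟨R, hR0, hR⟩ := bpp_supp hψ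
  have hre : ContDiffOn ℝ (⊤ : ℕ∞) (fun p : ℂ => p.re) univ := Complex.reCLM.contDiff.contDiffOn
  have hg : ContDiffOn ℝ (⊤ : ℕ∞) (Function.HasUncurry.uncurry (fun (p : ℂ) (t : ℝ) => ψ ((t : ℂ) + (p.im : ℂ) * I)))
      (univ ×ˢ univ) := by
    refine ContDiff.contDiffOn ?_
    show ContDiff ℝ (⊤ : ℕ∞) (fun q : ℂ × ℝ => ψ ((q.2 : ℂ) + (q.1.im : ℂ) * I))
    refine hψ.1.comp ?_
    exact (Complex.ofRealCLM.contDiff.comp contDiff_snd).add
      ((Complex.ofRealCLM.contDiff.comp (Complex.imCLM.contDiff.comp contDiff_fst)).mul contDiff_const)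
  have hf : LocallyIntegrable ((Ici (0 : ℝ)).indicator (fun _ => (1 : ℝ))) volume :=
    (locallyIntegrable_const (1 : ℝ)).indicator measurableSet_Ici
  have key := contDiffOn_convolution_right_with_param_comp (𝕜 := ℝ) (μ := (volume : Measure ℝ))
    (ContinuousLinearMap.mul ℝ ℝ) (s := (univ : Set ℂ)) (v := fun p : ℂ => p.re) hre
    (f := (Ici (0 : ℝ)).indicator (fun _ => (1 : ℝ)))
    (g := fun (p : ℂ) (t : ℝ) => ψ ((t : ℂ) + (p.im : ℂ) * I)) (k := Icc (-R) R) isOpen_univ isCompact_Icc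
    (fun p t _ ht => hR _ (by
      have : ((t : ℂ) + (p.im : ℂ) * I).re = t := by simp
      rw [this]
      by_contra hc
      exact ht (abs_le.mp (not_lt.mp hc)))) hf hg
  rw [contDiffOn_univ] at key
  convert key using 1
  funext p
  unfold PP MeasureTheory.convolution
  rw [← integral_indicator measurableSet_Iic,
    ← integral_sub_left_eq_self (fun t => (Iic p.re).indicator (fun t : ℝ => ψ ((t : ℂ) + (p.im : ℂ) * I)) t)
      volume p.re]
  refine integral_congr_ae (Eventually.of_forall fun t => ?_)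
  show (Iic p.re).indicator (fun t : ℝ => ψ ((t : ℂ) + (p.im : ℂ) * I)) (p.re - t) =
    (Ici (0 : ℝ)).indicator (fun _ => (1 : ℝ)) t * ψ (((p.re - t : ℝ) : ℂ) + (p.im : ℂ) * I)
  by_cases ht : 0 ≤ t
  · rw [indicator_of_mem (show p.re - t ∈ Iic p.re from by simp [ht]), indicator_of_mem (show t ∈ Ici (0 : ℝ) from ht),
      one_mul]
  · rw [indicator_of_notMem (show p.re - t ∉ Iic p.re from by simp; linarith),
      indicator_of_notMem (show t ∉ Ici (0 : ℝ) from ht), zero_mul]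

/-- The derivative in the direction `1`. -/
private theorem bpp_dx {ψ : ℂ → ℝ} (hψ : RTF univ ψ) (w : ℂ) : fderiv ℝ (PP ψ) w 1 = ψ w := by
  have hd : HasFDerivAt (PP ψ) (fderiv ℝ (PP ψ) w) w :=
    ((bpp_smooth hψ).differentiable (by simp) w).hasFDerivAt
  have hl : HasDerivAt (fun s : ℝ => w + (s : ℂ)) 1 0 := by
    have := (Complex.ofRealCLM.hasDerivAt (x := (0 : ℝ))).const_add w
    simpa using this
  have h1 : HasDerivAt (fun s : ℝ => PP ψ (w + (s : ℂ))) (fderiv ℝ (PP ψ) w 1) 0 := by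
    have hd' : HasFDerivAt (PP ψ) (fderiv ℝ (PP ψ) w) (w + ((0 : ℝ) : ℂ)) := by simpa using hd
    exact hd'.comp_hasDerivAt (0 : ℝ) hl
  have h2 : HasDerivAt (fun s : ℝ => PP ψ (w + (s : ℂ))) (ψ w) 0 := by
    have e : (fun s : ℝ => PP ψ (w + (s : ℂ))) = fun s : ℝ => PP ψ w +
        ∫ t in w.re..(w.re + s), ψ ((t : ℂ) + (w.im : ℂ) * I) := by
      funext s
      unfold PP
      rw [← intervalIntegral.integral_Iic_sub_Iic (bpp_int hψ w.im).integrableOn (bpp_int hψ w.im).integrableOn]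
      simp
    rw [e]
    have h3 : HasDerivAt (fun x : ℝ => ∫ t in w.re..x, ψ ((t : ℂ) + (w.im : ℂ) * I))
        (ψ ((w.re : ℂ) + (w.im : ℂ) * I)) (w.re + 0) := by
      rw [add_zero]
      exact intervalIntegral.integral_hasDerivAt_right (by simp)
        ((bpp_line hψ w.im).stronglyMeasurableAtFilter _ _) (bpp_line hψ w.im).continuousAt
    have h4 := (h3.comp_const_add w.re 0).const_add (PP ψ w)
    rw [Complex.re_add_im] at h4
    exact h4
  exact h1.unique h2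

private theorem bpp_lip {ψ : ℂ → ℝ} (hψ : RTF univ ψ) : ∃ K : ℝ≥0, ∀ w : ℂ,
    LipschitzWith K (fun s : ℝ => PP ψ (w + (s : ℂ) * I)) := by
  obtain ⟨R, hR0, hR⟩ := bpp_supp hψ
  obtain ⟨C, hC⟩ := hψ.1.lipschitzWith_of_hasCompactSupport hψ.2.1 (by simp)
  refine ⟨C * Real.toNNReal (2 * R), fun w => LipschitzWith.of_dist_le_mul fun s s' => ?_⟩
  have e : PP ψ (w + (s : ℂ) * I) - PP ψ (w + (s' : ℂ) * I) =
      ∫ t in Iic w.re, (ψ ((t : ℂ) + ((w.im + s : ℝ) : ℂ) * I) - ψ ((t : ℂ) + ((w.im + s' : ℝ) : ℂ) * I)) := by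
    rw [integral_sub (bpp_int hψ _).integrableOn (bpp_int hψ _).integrableOn]
    unfold PP
    simp
  rw [Real.dist_eq, e]
  have hb := bpp_bound (h := fun t => ψ ((t : ℂ) + ((w.im + s : ℝ) : ℂ) * I) - ψ ((t : ℂ) + ((w.im + s' : ℝ) : ℂ) * I))
    (R := R) (C := C * dist s s') hR0 (by positivity) (fun t ht => by
      rw [hR _ (by simpa using ht), hR _ (by simpa using ht), sub_zero]) (fun t => by
      have h1 := hC.dist_le_mul ((t : ℂ) + ((w.im + s : ℝ) : ℂ) * I) ((t : ℂ) + ((w.im + s' : ℝ) : ℂ) * I)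
      rw [Real.dist_eq] at h1
      refine h1.trans (mul_le_mul_of_nonneg_left (le_of_eq ?_) C.2)
      rw [dist_eq_norm, Real.dist_eq]
      have : ((t : ℂ) + ((w.im + s : ℝ) : ℂ) * I) - ((t : ℂ) + ((w.im + s' : ℝ) : ℂ) * I) =
          ((s - s' : ℝ) : ℂ) * I := by push_cast; ring
      rw [this, norm_mul, Complex.norm_I, mul_one, Complex.norm_real, Real.norm_eq_abs]) w.re
  refine hb.trans (le_of_eq ?_)
  rw [NNReal.coe_mul, Real.coe_toNNReal _ (by positivity)]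
  ring

private theorem bpp_dy {ψ : ℂ → ℝ} (hψ : RTF univ ψ) {K : ℝ≥0}
    (hK : ∀ w : ℂ, LipschitzWith K (fun s : ℝ => PP ψ (w + (s : ℂ) * I))) (w : ℂ) :
    |fderiv ℝ (PP ψ) w I| ≤ K := by
  have hd : HasFDerivAt (PP ψ) (fderiv ℝ (PP ψ) w) w :=
    ((bpp_smooth hψ).differentiable (by simp) w).hasFDerivAt
  have hl : HasDerivAt (fun s : ℝ => w + (s : ℂ) * I) I 0 := by
    have := ((Complex.ofRealCLM.hasDerivAt (x := (0 : ℝ))).mul_const I).const_add w
    simpa using this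
  have h1 : HasDerivAt (fun s : ℝ => PP ψ (w + (s : ℂ) * I)) (fderiv ℝ (PP ψ) w I) 0 := by
    have hd' : HasFDerivAt (PP ψ) (fderiv ℝ (PP ψ) w) (w + ((0 : ℝ) : ℂ) * I) := by simpa using hd
    exact hd'.comp_hasDerivAt (0 : ℝ) hl
  have h2 := norm_deriv_le_of_lipschitz (x₀ := (0 : ℝ)) (hK w)
  rwa [h1.deriv, Real.norm_eq_abs] at h2

theorem piece_bpp : S_bpp := by
  intro ψ hψ
  obtain ⟨R, hR0, hR⟩ := bpp_supp hψ
  obtain ⟨K, hK⟩ := bpp_lip hψ
  obtain ⟨C, hC⟩ := hψ.2.1.exists_bound_of_continuous hψ.1.continuous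
  have hC0 : 0 ≤ C := (norm_nonneg _).trans (hC 0)
  refine ⟨bpp_smooth hψ, ⟨C * (2 * R) + C + K, fun w => ⟨?_, ?_⟩⟩, fun w => ?_, fun hpos w => ?_⟩
  · have h1 := bpp_bound (h := fun t : ℝ => ψ ((t : ℂ) + (w.im : ℂ) * I)) hR0 hC0
      (fun t ht => hR _ (by simpa using ht)) (fun t => by
        have := hC ((t : ℂ) + (w.im : ℂ) * I)
        rwa [Real.norm_eq_abs] at this) w.re
    have h2 : (0 : ℝ) ≤ K := K.2
    have h3 : |PP ψ w| ≤ C * (2 * R) := h1
    linarith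
  · have h1 : ‖gr (PP ψ) w‖ ≤ |fderiv ℝ (PP ψ) w 1| + |fderiv ℝ (PP ψ) w I| := by
      unfold gr
      refine (norm_add_le _ _).trans (le_of_eq ?_)
      rw [norm_mul, Complex.norm_I, one_mul, Complex.norm_real, Complex.norm_real, Real.norm_eq_abs,
        Real.norm_eq_abs]
    have h2 := bpp_dy hψ hK w
    have h3 : |fderiv ℝ (PP ψ) w 1| ≤ C := by
      rw [bpp_dx hψ w, ← Real.norm_eq_abs]; exact hC w
    have h4 : 0 ≤ C * (2 * R) := by positivity
    linarith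
  · unfold gr
    rw [bpp_dx hψ w]
    simp
  · exact setIntegral_nonneg measurableSet_Iic fun t _ => hpos _

end Cal
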