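import Pool.Agent.Lib.MP_4ea4c7_an.Stm1

set_option autoImplicit false

/-! Weak Wirtinger derivatives and weak gradients. -/

open MeasureTheory Complex Metric Set Filter Topology
open scoped ComplexConjugate ENNReal NNReal

namespace Cal

private theorem br_fd (φ : ℂ → ℝ) (z v : ℂ) (h : DifferentiableAt ℝ φ z) :
    fderiv ℝ (fun w => ((φ w : ℝ) : ℂ)) z v = ((fderiv ℝ φ z v : ℝ) : ℂ) := by
  have h1 : HasFDerivAt (fun w => ((φ w : ℝ) : ℂ)) (Complex.ofRealCLM.comp (fderiv ℝ φ z)) z :=
    Complex.ofRealCLM.hasFDerivAt.comp z h.hasFDerivAt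
  rw [h1.fderiv]
  rfl

private theorem br_db (φ : ℂ → ℝ) (z : ℂ) (h : DifferentiableAt ℝ φ z) :
    db (fun w => ((φ w : ℝ) : ℂ)) z = gr φ z / 2 := by
  simp only [db, gr, br_fd φ z _ h]

private theorem br_dz (φ : ℂ → ℝ) (z : ℂ) (h : DifferentiableAt ℝ φ z) :
    dz (fun w => ((φ w : ℝ) : ℂ)) z = conj (gr φ z) / 2 := by
  simp only [dz, gr, br_fd φ z _ h, map_add, map_mul, conj_ofReal, conj_I]
  ring

private theorem br_tf {U : Set ℂ} {φ : ℂ → ℝ} (h : RTF U φ) :
    TF U (fun w => ((φ w : ℝ) : ℂ)) := by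
  obtain ⟨h1, h2, h3⟩ := h
  refine ⟨Complex.ofRealCLM.contDiff.comp h1, h2.comp_left (g := fun x : ℝ => (x : ℂ)) rfl,
    (closure_mono ?_).trans h3⟩
  intro x hx
  simpa using hx

private theorem br_gr {U : Set ℂ} {φ : ℂ → ℝ} (h : RTF U φ) :
    Continuous (gr φ) ∧ HasCompactSupport (gr φ) ∧ tsupport (gr φ) ⊆ U := by
  obtain ⟨h1, h2, h3⟩ := h
  have hc : Continuous (fderiv ℝ φ) := h1.continuous_fderiv (by simp)
  have hs : Function.support (gr φ) ⊆ tsupport φ := by
    intro z hz
    by_contra hn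
    have h4 : fderiv ℝ φ z = 0 := by
      by_contra h5
      exact hn (support_fderiv_subset ℝ h5)
    apply hz
    simp [gr, h4]
  refine ⟨?_, HasCompactSupport.intro h2 (fun z hz => ?_),
    (closure_minimal hs (isClosed_tsupport _)).trans h3⟩
  · unfold gr
    have c1 : Continuous fun z => fderiv ℝ φ z 1 := hc.clm_apply continuous_const
    have c2 : Continuous fun z => fderiv ℝ φ z I := hc.clm_apply continuous_const
    fun_prop
  · by_contra hn
    exact hz (hs hn)

private theorem br_int {U : Set ℂ} {g ψ : ℂ → ℂ} (hg : L2loc U g) (hψ : Continuous ψ)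
    (hK : HasCompactSupport ψ) (hU : tsupport ψ ⊆ U) : Integrable (fun z => g z * ψ z) := by
  have h1 : MemLp g 2 (volume.restrict (tsupport ψ)) := hg _ hK hU
  have h2 : MemLp ψ 2 (volume.restrict (tsupport ψ)) :=
    (hψ.memLp_of_hasCompactSupport hK).restrict _
  have h3 : IntegrableOn (fun z => g z * ψ z) (tsupport ψ) := h1.integrable_mul h2
  refine (integrableOn_iff_integrable_of_support_subset ?_).1 h3
  intro z hz
  refine subset_tsupport _ ?_
  intro h0
  apply hz
  simp [h0]

private theorem br_conj {U : Set ℂ} {g : ℂ → ℂ} (hg : L2loc U g) :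
    L2loc U (fun z => conj (g z)) := fun K h1 h2 =>
  (hg K h1 h2).of_le (Complex.continuous_conj.comp_aestronglyMeasurable (hg K h1 h2).1)
    (Eventually.of_forall fun z => by simp)

private theorem br_re {U : Set ℂ} {g : ℂ → ℂ} (hg : L2loc U g) :
    L2loc U (fun z => (((g z).re : ℝ) : ℂ)) := fun K h1 h2 =>
  (hg K h1 h2).of_le (Complex.continuous_ofReal.comp_aestronglyMeasurable
    (Complex.continuous_re.comp_aestronglyMeasurable (hg K h1 h2).1))
    (Eventually.of_forall fun z => by
      rw [Complex.norm_real]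
      exact Complex.abs_re_le_norm _)

private theorem br_im {U : Set ℂ} {g : ℂ → ℂ} (hg : L2loc U g) :
    L2loc U (fun z => (((g z).im : ℝ) : ℂ)) := fun K h1 h2 =>
  (hg K h1 h2).of_le (Complex.continuous_ofReal.comp_aestronglyMeasurable
    (Complex.continuous_im.comp_aestronglyMeasurable (hg K h1 h2).1))
    (Eventually.of_forall fun z => by
      rw [Complex.norm_real]
      exact Complex.abs_im_le_norm _)

private theorem br_diff {φ : ℂ → ℝ} (h : ContDiff ℝ (⊤ : ℕ∞) φ) (z : ℂ) : DifferentiableAt ℝ φ z :=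
  (h.differentiable (by simp)) z

private theorem br_one (U : Set ℂ) (f A B : ℂ → ℂ) (h : WD U f A B) :
    WG U (fun z => (f z).re) (fun z => conj (A z) + B z) ∧
      WG U (fun z => (f z).im) (fun z => I * (conj (A z) - B z)) := by
  have hcA := br_conj h.A2
  have hcf := br_conj h.f2
  have k1 : ∀ φ : ℂ → ℝ, RTF U φ → ∫ z, conj (f z) * gr φ z = -2 * ∫ z, conj (A z) * (φ z : ℂ) := by
    intro φ hφ
    have h1 := h.hA _ (br_tf hφ)
    have h2 : ∀ z, f z * dz (fun w => ((φ w : ℝ) : ℂ)) z = conj ((1 / 2) * (conj (f z) * gr φ z)) := by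
      intro z
      rw [br_dz φ z (br_diff hφ.1 z)]
      simp only [map_mul, map_div₀, map_one, Complex.conj_conj, map_ofNat]
      ring
    have h3 : ∀ z, A z * ((φ z : ℝ) : ℂ) = conj (conj (A z) * ((φ z : ℝ) : ℂ)) := by
      intro z
      simp
    simp_rw [h2, h3] at h1
    rw [integral_conj, integral_conj, ← map_neg, (starRingEnd ℂ).injective.eq_iff,
      integral_const_mul] at h1
    linear_combination 2 * h1
  have k2 : ∀ φ : ℂ → ℝ, RTF U φ → ∫ z, f z * gr φ z = -2 * ∫ z, B z * (φ z : ℂ) := by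
    intro φ hφ
    have h1 := h.hB _ (br_tf hφ)
    have h2 : ∀ z, f z * db (fun w => ((φ w : ℝ) : ℂ)) z = (1 / 2) * (f z * gr φ z) := by
      intro z
      rw [br_db φ z (br_diff hφ.1 z)]
      ring
    simp_rw [h2] at h1
    rw [integral_const_mul] at h1
    linear_combination 2 * h1
  refine ⟨⟨br_re h.f2, ?_, ?_⟩, ⟨br_im h.f2, ?_, ?_⟩⟩
  · intro K hK hU
    exact (hcA K hK hU).add (h.B2 K hK hU)
  · intro φ hφ
    obtain ⟨g1, g2, g3⟩ := br_gr hφ
    obtain ⟨t1, t2, t3⟩ := br_tf hφ
    have i1 := br_int h.f2 g1 g2 g3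
    have i2 := br_int hcf g1 g2 g3
    have i3 := br_int hcA t1.continuous t2 t3
    have i4 := br_int h.B2 t1.continuous t2 t3
    have e1 : ∀ z, (((f z).re : ℝ) : ℂ) * gr φ z =
        (1 / 2) * (f z * gr φ z + conj (f z) * gr φ z) := by
      intro z
      rw [Complex.re_eq_add_conj]
      ring
    have e2 : ∀ z, (conj (A z) + B z) * ((φ z : ℝ) : ℂ) =
        conj (A z) * ((φ z : ℝ) : ℂ) + B z * ((φ z : ℝ) : ℂ) := fun z => by ring
    simp_rw [e1, e2]
    rw [integral_const_mul, integral_add i1 i2, integral_add i3 i4, k1 φ hφ, k2 φ hφ]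
    ring
  · intro K hK hU
    exact ((hcA K hK hU).sub (h.B2 K hK hU)).const_mul I
  · intro φ hφ
    obtain ⟨g1, g2, g3⟩ := br_gr hφ
    obtain ⟨t1, t2, t3⟩ := br_tf hφ
    have i1 := br_int h.f2 g1 g2 g3
    have i2 := br_int hcf g1 g2 g3
    have i3 := br_int hcA t1.continuous t2 t3
    have i4 := br_int h.B2 t1.continuous t2 t3
    have e1 : ∀ z, (((f z).im : ℝ) : ℂ) * gr φ z =
        (-I / 2) * (f z * gr φ z - conj (f z) * gr φ z) := by
      intro z
      rw [Complex.im_eq_sub_conj]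
      field_simp
      linear_combination (gr φ z * (f z - conj (f z))) * Complex.I_sq
    have e2 : ∀ z, I * (conj (A z) - B z) * ((φ z : ℝ) : ℂ) =
        I * (conj (A z) * ((φ z : ℝ) : ℂ) - B z * ((φ z : ℝ) : ℂ)) := fun z => by ring
    simp_rw [e1, e2]
    rw [integral_const_mul, integral_const_mul, integral_sub i1 i2, integral_sub i3 i4, k1 φ hφ,
      k2 φ hφ]
    ring

private theorem br_two (U : Set ℂ) (u : ℂ → ℝ) (G : ℂ → ℂ) (h : WG U u G) :
    WD U (fun z => (u z : ℂ)) (fun z => conj (G z) / 2) (fun z => G z / 2) := by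
  have hre : ∀ φ : ℂ → ℂ, TF U φ → RTF U (fun z => (φ z).re) := by
    rintro φ ⟨h1, h2, h3⟩
    refine ⟨Complex.reCLM.contDiff.comp h1, h2.comp_left (g := Complex.re) rfl,
      (closure_mono ?_).trans h3⟩
    intro x hx h0
    apply hx
    simp [h0]
  have him : ∀ φ : ℂ → ℂ, TF U φ → RTF U (fun z => (φ z).im) := by
    rintro φ ⟨h1, h2, h3⟩
    refine ⟨Complex.imCLM.contDiff.comp h1, h2.comp_left (g := Complex.im) rfl,
      (closure_mono ?_).trans h3⟩
    intro x hx h0
    apply hx
    simp [h0]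
  have hfd : ∀ φ : ℂ → ℂ, TF U φ → ∀ z v : ℂ, fderiv ℝ φ z v =
      ((fderiv ℝ (fun w => (φ w).re) z v : ℝ) : ℂ) +
        I * ((fderiv ℝ (fun w => (φ w).im) z v : ℝ) : ℂ) := by
    rintro φ ⟨h1, h2, h3⟩ z v
    have hd : HasFDerivAt φ (fderiv ℝ φ z) z := (h1.differentiable (by simp) z).hasFDerivAt
    have r1 : HasFDerivAt (fun w => (φ w).re) (Complex.reCLM.comp (fderiv ℝ φ z)) z :=
      Complex.reCLM.hasFDerivAt.comp z hd
    have r2 : HasFDerivAt (fun w => (φ w).im) (Complex.imCLM.comp (fderiv ℝ φ z)) z :=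
      Complex.imCLM.hasFDerivAt.comp z hd
    rw [r1.fderiv, r2.fderiv]
    change fderiv ℝ φ z v = (((fderiv ℝ φ z v).re : ℝ) : ℂ) + I * (((fderiv ℝ φ z v).im : ℝ) : ℂ)
    rw [mul_comm, Complex.re_add_im]
  have hdb : ∀ φ : ℂ → ℂ, TF U φ → ∀ z, db φ z =
      (gr (fun w => (φ w).re) z + I * gr (fun w => (φ w).im) z) / 2 := by
    intro φ hφ z
    simp only [db, gr, hfd φ hφ z]
    ring
  have hdz : ∀ φ : ℂ → ℂ, TF U φ → ∀ z, dz φ z =
      (conj (gr (fun w => (φ w).re) z) + I * conj (gr (fun w => (φ w).im) z)) / 2 := by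
    intro φ hφ z
    simp only [dz, gr, hfd φ hφ z, map_add, map_mul, conj_ofReal, conj_I]
    ring
  have hGc : L2loc U (fun z => conj (G z)) := br_conj h.G2
  have hG2 : L2loc U (fun z => G z / 2) := fun K hK hU => by
    have h2 : (fun z => G z / 2) = fun z => (2 : ℂ)⁻¹ * G z := by
      funext z
      ring
    rw [h2]
    exact (h.G2 K hK hU).const_mul _
  have hG3 : L2loc U (fun z => conj (G z) / 2) := fun K hK hU => by
    have h2 : (fun z => conj (G z) / 2) = fun z => (2 : ℂ)⁻¹ * conj (G z) := by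
      funext z
      ring
    rw [h2]
    exact (hGc K hK hU).const_mul _
  have hri : ∀ φ : ℂ → ℂ, ∀ z, φ z = (((φ z).re : ℝ) : ℂ) + I * (((φ z).im : ℝ) : ℂ) := by
    intro φ z
    rw [mul_comm, Complex.re_add_im]
  refine ⟨h.u2, hG3, hG2, ?_, ?_⟩
  · intro φ hφ
    have ha := hre φ hφ
    have hb := him φ hφ
    obtain ⟨g1, g2, g3⟩ := br_gr ha
    obtain ⟨g1', g2', g3'⟩ := br_gr hb
    obtain ⟨t1, t2, t3⟩ := br_tf ha
    obtain ⟨t1', t2', t3'⟩ := br_tf hb
    have i1 := (br_int h.u2 g1 g2 g3)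
    have i2 := (br_int h.u2 g1' g2' g3')
    have i3 := br_int hGc t1.continuous t2 t3
    have i4 := br_int hGc t1'.continuous t2' t3'
    have j1 : Integrable (fun z => (u z : ℂ) * conj (gr (fun w => (φ w).re) z)) := by
      have := (LinearIsometryEquiv.integrable_comp_iff (L := Complex.conjLIE) (φ := fun z =>
        (u z : ℂ) * gr (fun w => (φ w).re) z)).2 i1
      simpa using this
    have j2 : Integrable (fun z => (u z : ℂ) * conj (gr (fun w => (φ w).im) z)) := by
      have := (LinearIsometryEquiv.integrable_comp_iff (L := Complex.conjLIE) (φ := fun z =>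
        (u z : ℂ) * gr (fun w => (φ w).im) z)).2 i2
      simpa using this
    have ka : ∫ z, (u z : ℂ) * conj (gr (fun w => (φ w).re) z) =
        - ∫ z, conj (G z) * (((φ z).re : ℝ) : ℂ) := by
      have h1 := congrArg conj (h.h _ ha)
      rw [map_neg, ← integral_conj, ← integral_conj] at h1
      simpa using h1
    have kb : ∫ z, (u z : ℂ) * conj (gr (fun w => (φ w).im) z) =
        - ∫ z, conj (G z) * (((φ z).im : ℝ) : ℂ) := by
      have h1 := congrArg conj (h.h _ hb)
      rw [map_neg, ← integral_conj, ← integral_conj] at h1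
      simpa using h1
    have e1 : ∀ z, (u z : ℂ) * dz φ z = (1 / 2) * ((u z : ℂ) * conj (gr (fun w => (φ w).re) z) +
        I * ((u z : ℂ) * conj (gr (fun w => (φ w).im) z))) := by
      intro z
      rw [hdz φ hφ]
      ring
    have e2 : ∀ z, conj (G z) / 2 * φ z = (1 / 2) * (conj (G z) * (((φ z).re : ℝ) : ℂ) +
        I * (conj (G z) * (((φ z).im : ℝ) : ℂ))) := by
      intro z
      conv_lhs => rw [hri φ z]
      ring
    rw [integral_congr_ae (Eventually.of_forall e1), integral_congr_ae (Eventually.of_forall e2),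
      integral_const_mul, integral_const_mul, integral_add j1 (j2.const_mul I),
      integral_add i3 (i4.const_mul I), integral_const_mul, integral_const_mul, ka, kb]
    ring
  · intro φ hφ
    have ha := hre φ hφ
    have hb := him φ hφ
    obtain ⟨g1, g2, g3⟩ := br_gr ha
    obtain ⟨g1', g2', g3'⟩ := br_gr hb
    obtain ⟨t1, t2, t3⟩ := br_tf ha
    obtain ⟨t1', t2', t3'⟩ := br_tf hb
    have i1 := (br_int h.u2 g1 g2 g3)
    have i2 := (br_int h.u2 g1' g2' g3')
    have i3 := br_int h.G2 t1.continuous t2 t3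
    have i4 := br_int h.G2 t1'.continuous t2' t3'
    have e1 : ∀ z, (u z : ℂ) * db φ z = (1 / 2) * ((u z : ℂ) * gr (fun w => (φ w).re) z +
        I * ((u z : ℂ) * gr (fun w => (φ w).im) z)) := by
      intro z
      rw [hdb φ hφ]
      ring
    have e2 : ∀ z, G z / 2 * φ z = (1 / 2) * (G z * (((φ z).re : ℝ) : ℂ) +
        I * (G z * (((φ z).im : ℝ) : ℂ))) := by
      intro z
      conv_lhs => rw [hri φ z]
      ring
    rw [integral_congr_ae (Eventually.of_forall e1), integral_congr_ae (Eventually.of_forall e2),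
      integral_const_mul, integral_const_mul, integral_add i1 (i2.const_mul I),
      integral_add i3 (i4.const_mul I), integral_const_mul, integral_const_mul, h.h _ ha, h.h _ hb]
    ring

private theorem br_cont {U K : Set ℂ} {g : ℂ → ℂ} (hg : ContinuousOn g U) (hK : IsCompact K)
    (hU : K ⊆ U) : MemLp g 2 (volume.restrict K) := by
  obtain ⟨C, hC⟩ := hK.exists_bound_of_continuousOn (hg.mono hU)
  have : IsFiniteMeasure (volume.restrict K) := ⟨by
    rw [Measure.restrict_apply_univ]
    exact hK.measure_lt_top⟩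
  refine MemLp.of_bound ((hg.mono hU).aestronglyMeasurable hK.measurableSet) C ?_
  filter_upwards [ae_restrict_mem hK.measurableSet] with z hz using hC z hz

private theorem br_three (U : Set ℂ) (u : ℂ → ℝ) (hU : IsOpen U) (hu : ContDiffOn ℝ 1 u U) :
    WG U u (gr u) := by
  have hfd : ContinuousOn (fderiv ℝ u) U := hu.continuousOn_fderiv_of_isOpen hU le_rfl
  have hgr : ContinuousOn (gr u) U := by
    have c1 : ContinuousOn (fun z => fderiv ℝ u z 1) U := hfd.clm_apply continuousOn_const
    have c2 : ContinuousOn (fun z => fderiv ℝ u z I) U := hfd.clm_apply continuousOn_const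
    exact (Complex.continuous_ofReal.comp_continuousOn c1).add
      (continuousOn_const.mul (Complex.continuous_ofReal.comp_continuousOn c2))
  have hud : ∀ z ∈ U, DifferentiableAt ℝ u z := fun z hz =>
    (hu.differentiableOn one_ne_zero z hz).differentiableAt (hU.mem_nhds hz)
  have h2 : L2loc U (fun z => (u z : ℂ)) := fun K hK hKU =>
    br_cont (Complex.continuous_ofReal.comp_continuousOn hu.continuousOn) hK hKU
  have hG2 : L2loc U (gr u) := fun K hK hKU => br_cont hgr hK hKU
  refine ⟨h2, hG2, fun φ hφ => ?_⟩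
  obtain ⟨g1, g2, g3⟩ := hφ
  have hint : ∀ g ψ : ℂ → ℝ, ContinuousOn g U → Continuous ψ → Function.support ψ ⊆ tsupport φ →
      Integrable (fun z => g z * ψ z) := by
    intro g ψ hg hψ hs
    have h3 : IntegrableOn (fun z => g z * ψ z) (tsupport φ) :=
      ((hg.mono g3).mul hψ.continuousOn).integrableOn_compact g2
    refine (integrableOn_iff_integrable_of_support_subset ?_).1 h3
    intro z hz
    refine hs ?_
    intro h0
    apply hz
    simp [h0]
  have hφc : Continuous (fderiv ℝ φ) := g1.continuous_fderiv (by simp)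
  have i1 : ∀ v : ℂ, Integrable (fun z => fderiv ℝ u z v * φ z) := fun v =>
    hint _ _ (hfd.clm_apply continuousOn_const) g1.continuous subset_closure
  have i2 : ∀ v : ℂ, Integrable (fun z => u z * fderiv ℝ φ z v) := fun v =>
    hint _ _ hu.continuousOn (hφc.clm_apply continuous_const) (fun z hz => by
      refine support_fderiv_subset ℝ ?_
      intro h0
      apply hz
      simp only [h0]
      rfl)
  have i3 : Integrable (fun z => u z * φ z) := hint _ _ hu.continuousOn g1.continuous subset_closure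
  have key : ∀ v : ℂ, ∫ z, u z * fderiv ℝ φ z v = - ∫ z, fderiv ℝ u z v * φ z := fun v =>
    integral_mul_fderiv_eq_neg_fderiv_mul_of_integrable (i1 v) (i2 v) i3
      (fun x hx => hud x (g3 hx)) (fun x _ => br_diff g1 x)
  have e1 : ∀ z, (u z : ℂ) * gr φ z = ((u z * fderiv ℝ φ z 1 : ℝ) : ℂ) +
      I * ((u z * fderiv ℝ φ z I : ℝ) : ℂ) := by
    intro z
    simp only [gr, ofReal_mul]
    ring
  have e2 : ∀ z, gr u z * (φ z : ℂ) = ((fderiv ℝ u z 1 * φ z : ℝ) : ℂ) +
      I * ((fderiv ℝ u z I * φ z : ℝ) : ℂ) := by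
    intro z
    simp only [gr, ofReal_mul]
    ring
  have i1c : ∀ v : ℂ, Integrable (fun z => ((fderiv ℝ u z v * φ z : ℝ) : ℂ)) :=
    fun v => (i1 v).ofReal
  have i2c : ∀ v : ℂ, Integrable (fun z => ((u z * fderiv ℝ φ z v : ℝ) : ℂ)) :=
    fun v => (i2 v).ofReal
  rw [integral_congr_ae (Eventually.of_forall e1), integral_congr_ae (Eventually.of_forall e2),
    integral_add (i2c 1) ((i2c I).const_mul I),
    integral_add (i1c 1) ((i1c I).const_mul I), integral_const_mul, integral_const_mul,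
    integral_complex_ofReal, integral_complex_ofReal, integral_complex_ofReal,
    integral_complex_ofReal, key 1, key I]
  push_cast
  ring

theorem piece_bridge : S_bridge := by
  refine ⟨fun U f A B h => br_one U f A B h, fun U u G h => br_two U u G h,
    fun U u hU hu => br_three U u hU hu, fun φ z h => ?_⟩
  rw [br_db φ z h]
  ring

end Cal
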