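import Pool.Agent.Lib.MP_4ea4c7_an.StmH1b

/-! [CH b14] Similarity principle in a disc. -/

open MeasureTheory Complex Metric Set Filter Topology
open scoped ComplexConjugate ENNReal NNReal

namespace Cal

noncomputable section

private theorem bsim_G_fderiv (w : ℂ) :
    HasFDerivAt (fun w : ℂ => exp (-w)) ((ContinuousLinearMap.toSpanSingleton ℂ (-exp (-w))).restrictScalars ℝ) w := by
  have h1 : HasDerivAt (fun w : ℂ => exp (-w)) (-exp (-w)) w := by
    have := (hasDerivAt_neg w).cexp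
    simpa using this
  exact h1.hasFDerivAt.restrictScalars ℝ

private theorem bsim_dz_G (w : ℂ) : dz (fun w : ℂ => exp (-w)) w = -exp (-w) := by
  unfold dz
  rw [(bsim_G_fderiv w).fderiv]
  simp only [ContinuousLinearMap.coe_restrictScalars', ContinuousLinearMap.toSpanSingleton_apply, smul_eq_mul]
  have : I * I = -1 := I_mul_I
  linear_combination (exp (-w) / 2) * this

private theorem bsim_db_G (w : ℂ) : db (fun w : ℂ => exp (-w)) w = 0 := by
  unfold db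
  rw [(bsim_G_fderiv w).fderiv]
  simp only [ContinuousLinearMap.coe_restrictScalars', ContinuousLinearMap.toSpanSingleton_apply, smul_eq_mul]
  have : I * I = -1 := I_mul_I
  linear_combination (-exp (-w) / 2) * this

private theorem bsim_one (h2 : S_C3b) (h3 : S_bwd) (h4 : S_chain) (h5 : S_prod) (h6 : S_weyl)
    (h7 : S_basic) (C : ℝ) (hC0 : 0 ≤ C)
    (hC : ∀ (w : ℂ → ℂ) (M : ℝ), AEStronglyMeasurable w volume → (∀ z, ‖w z‖ ≤ M) →
      (∀ z, 5 / 4 < ‖z‖ → w z = 0) →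
      Continuous (Ct w) ∧ (∀ z, ‖Ct w z‖ ≤ C * M / (1 + ‖z‖)) ∧ W2 w)
    (M : ℝ) (g h : ℂ → ℂ) (hM : 0 ≤ M) (hg : ContinuousOn g (ball 0 1)) (hh : Measurable h)
    (hb : ∀ k ∈ ball (0 : ℂ) 1, ‖h k‖ ≤ M * ‖g k‖)
    (hw : ∀ φ : ℂ → ℂ, TF (ball 0 1) φ → ∫ k, g k * db φ k = - ∫ k, h k * φ k) :
    ∃ ω Φ : ℂ → ℂ, Continuous ω ∧ (∀ k, ‖ω k‖ ≤ C * M) ∧ DifferentiableOn ℂ Φ (ball 0 1) ∧
      ∀ k ∈ ball (0 : ℂ) 1, g k = exp (ω k) * Φ k := by
  obtain ⟨-, -, -, -, hres, -⟩ := h7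
  set b : ℂ → ℂ := (ball (0 : ℂ) 1).indicator (fun z => h z / g z) with hbdef
  have hbm : AEStronglyMeasurable b volume := by
    rw [hbdef, aestronglyMeasurable_indicator_iff measurableSet_ball]
    have e1 : AEMeasurable h (volume.restrict (ball (0 : ℂ) 1)) := hh.aemeasurable
    have e2 : AEMeasurable g (volume.restrict (ball (0 : ℂ) 1)) := hg.aemeasurable measurableSet_ball
    exact (e1.div e2).aestronglyMeasurable
  have hbb : ∀ z, ‖b z‖ ≤ M := by
    intro z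
    by_cases hz : z ∈ ball (0 : ℂ) 1
    · rw [hbdef, indicator_of_mem hz, norm_div]
      exact div_le_of_le_mul₀ (norm_nonneg _) hM (hb z hz)
    · rw [hbdef, indicator_of_notMem hz, norm_zero]
      exact hM
  have hb0 : ∀ z : ℂ, 5 / 4 < ‖z‖ → b z = 0 := by
    intro z hz
    rw [hbdef, indicator_of_notMem]
    rw [mem_ball_zero_iff]
    linarith
  have hbg : ∀ z ∈ ball (0 : ℂ) 1, b z * g z = h z := by
    intro z hz
    rw [hbdef, indicator_of_mem hz]
    by_cases h0 : g z = 0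
    · have := hb z hz
      rw [h0, norm_zero, mul_zero] at this
      rw [h0, mul_zero, norm_le_zero_iff.1 this]
    · exact div_mul_cancel₀ _ h0
  obtain ⟨hωc, hωb, hbW⟩ := hC b M hbm hbb hb0
  obtain ⟨A, -, hωW, -⟩ := h2 b hbW
  -- the factor `exp (-ω)`
  have hG : ContDiffOn ℝ 1 (fun w : ℂ => exp (-w)) univ := by
    have : ContDiff ℝ 1 (fun w : ℂ => exp (-w)) := Complex.contDiff_exp.comp contDiff_neg
    exact this.contDiffOn
  have hE := h4 univ univ (Ct b) A b (fun w : ℂ => exp (-w)) isOpen_univ isOpen_univ hωW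
    hωc.continuousOn (mapsTo_univ _ _) hG
  simp only [bsim_dz_G, bsim_db_G, zero_mul, add_zero] at hE
  have hEc : Continuous (fun z => exp (-(Ct b z))) := Complex.continuous_exp.comp hωc.neg
  have key : ∀ r : ℝ, 0 < r → r < 1 →
      DifferentiableOn ℂ (fun z => exp (-(Ct b z)) * g z) (ball 0 r) := by
    intro r hr0 hr1
    have hsub : ball (0 : ℂ) r ⊆ ball 0 1 := ball_subset_ball hr1.le
    have hsubc : closedBall (0 : ℂ) r ⊆ ball 0 1 := closedBall_subset_ball hr1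
    obtain ⟨N, hN⟩ := (isCompact_closedBall (0 : ℂ) r).exists_bound_of_continuousOn (hg.mono hsubc)
    set hr : ℂ → ℂ := (ball (0 : ℂ) r).indicator h with hrdef
    have hrm : Measurable hr := hh.indicator measurableSet_ball
    have hrb : ∃ M' : ℝ, ∀ z, ‖hr z‖ ≤ M' := by
      refine ⟨M * max N 0, fun z => ?_⟩
      by_cases hz : z ∈ ball (0 : ℂ) r
      · rw [hrdef, indicator_of_mem hz]
        refine (hb z (hsub hz)).trans (mul_le_mul_of_nonneg_left ?_ hM)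
        exact (hN z (ball_subset_closedBall hz)).trans (le_max_left _ _)
      · rw [hrdef, indicator_of_notMem hz, norm_zero]
        exact mul_nonneg hM (le_max_right _ _)
    have hrw : ∀ φ : ℂ → ℂ, TF (ball 0 r) φ → ∫ z, g z * db φ z = - ∫ z, hr z * φ z := by
      intro φ hφ
      rw [hw φ ⟨hφ.1, hφ.2.1, hφ.2.2.trans hsub⟩]
      congr 1
      refine integral_congr_ae (Eventually.of_forall fun z => ?_)
      by_cases hz : z ∈ ball (0 : ℂ) r
      · simp only [hrdef, indicator_of_mem hz]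
      · have : φ z = 0 := image_eq_zero_of_notMem_tsupport fun h => hz (hφ.2.2 h)
        simp only [this, mul_zero]
    obtain ⟨A', hgW⟩ := h3 0 r g hr hr0 (hg.mono hsub) hrm hrb hrw
    have hP := h5 (ball 0 r) _ _ _ _ _ _ isOpen_ball (hres _ _ _ _ _ (subset_univ _) hE)
      hEc.continuousOn hgW (hg.mono hsub)
    refine (h6 (ball 0 r) _ isOpen_ball hP.f2 ?_).2 (hEc.continuousOn.mul (hg.mono hsub))
    intro φ hφ
    rw [hP.hB φ hφ, neg_eq_zero]
    refine integral_eq_zero_of_ae (Eventually.of_forall fun z => ?_)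
    by_cases hz : z ∈ ball (0 : ℂ) r
    · simp only [hrdef, indicator_of_mem hz, Pi.zero_apply]
      rw [← hbg z (hsub hz)]
      ring
    · have : φ z = 0 := image_eq_zero_of_notMem_tsupport fun h => hz (hφ.2.2 h)
      simp only [this, mul_zero, Pi.zero_apply]
  refine ⟨Ct b, fun z => exp (-(Ct b z)) * g z, hωc, fun k => ?_, ?_, fun k _ => ?_⟩
  · refine (hωb k).trans (div_le_self (mul_nonneg hC0 hM) ?_)
    linarith [norm_nonneg k]
  · intro z hz
    rw [mem_ball_zero_iff] at hz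
    obtain ⟨r, hr1, hr2⟩ := exists_between hz
    have hzr : z ∈ ball (0 : ℂ) r := mem_ball_zero_iff.2 hr1
    exact ((key r ((norm_nonneg z).trans_lt hr1) hr2).differentiableAt
      (isOpen_ball.mem_nhds hzr)).differentiableWithinAt
  · rw [← mul_assoc, ← Complex.exp_add, add_neg_cancel, Complex.exp_zero, one_mul]

private theorem bsim_scale {ρ : ℝ} (hρ : 0 < ρ) {φ : ℂ → ℂ} (hφ : TF (ball 0 1) φ) :
    TF (ball 0 ρ) (fun k => φ (ρ⁻¹ • k)) ∧
      ∀ k, db (fun k => φ (ρ⁻¹ • k)) k = (ρ : ℂ)⁻¹ * db φ (ρ⁻¹ • k) := by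
  have hd : ContDiff ℝ (⊤ : ℕ∞) (fun k : ℂ => ρ⁻¹ • k) := contDiff_const_smul _
  have hρ' : ρ⁻¹ ≠ 0 := (inv_pos.2 hρ).ne'
  have hts : tsupport (fun k => φ (ρ⁻¹ • k)) ⊆ {k | ρ⁻¹ • k ∈ tsupport φ} := by
    refine closure_minimal ?_ ?_
    · intro k hk
      exact subset_tsupport φ hk
    · exact (isClosed_tsupport φ).preimage (continuous_const_smul _)
  have hin : tsupport (fun k => φ (ρ⁻¹ • k)) ⊆ ball 0 ρ := by
    intro k hk
    have h1 := hφ.2.2 (hts hk)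
    rw [mem_ball_zero_iff, norm_smul, Real.norm_eq_abs, abs_of_pos (inv_pos.2 hρ)] at h1
    rw [mem_ball_zero_iff]
    rwa [inv_mul_lt_iff₀ hρ, mul_one] at h1
  refine ⟨⟨hφ.1.comp hd, ?_, hin⟩, fun k => ?_⟩
  · exact HasCompactSupport.of_support_subset_isCompact (isCompact_closedBall (0 : ℂ) ρ)
      ((subset_tsupport _).trans (hin.trans ball_subset_closedBall))
  · have hφd : HasFDerivAt φ (fderiv ℝ φ (ρ⁻¹ • k)) (ρ⁻¹ • k) :=
      ((hφ.1.differentiable (by simp)) _).hasFDerivAt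
    have hl : HasFDerivAt (fun k : ℂ => ρ⁻¹ • k) (ρ⁻¹ • ContinuousLinearMap.id ℝ ℂ) k :=
      (hasFDerivAt_id k).const_smul ρ⁻¹
    have hc := hφd.comp k hl
    unfold db
    have e : fderiv ℝ (fun k => φ (ρ⁻¹ • k)) k =
        (fderiv ℝ φ (ρ⁻¹ • k)).comp (ρ⁻¹ • ContinuousLinearMap.id ℝ ℂ) := hc.fderiv
    rw [e]
    have e1 : ∀ v : ℂ, ((fderiv ℝ φ (ρ⁻¹ • k)).comp (ρ⁻¹ • ContinuousLinearMap.id ℝ ℂ)) v =
        (ρ : ℂ)⁻¹ * fderiv ℝ φ (ρ⁻¹ • k) v := by
      intro v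
      have : ((fderiv ℝ φ (ρ⁻¹ • k)).comp (ρ⁻¹ • ContinuousLinearMap.id ℝ ℂ)) v =
          fderiv ℝ φ (ρ⁻¹ • k) (ρ⁻¹ • v) := rfl
      rw [this, map_smul, Complex.real_smul, Complex.ofReal_inv]
    rw [e1, e1]
    ring

theorem piece_bsim (h1 : S_C4) (h2 : S_C3b) (h3 : S_bwd) (h4 : S_chain) (h5 : S_prod)
    (h6 : S_weyl) (h7 : S_basic) (h8 : S_wuniq) : S_bsim := by
  obtain ⟨C, hC0, hC⟩ := h1
  refine ⟨C, hC0, ?_⟩
  intro ρ M g h hρ hM hg hh hb hw
  have hρc : (ρ : ℂ) ≠ 0 := Complex.ofReal_ne_zero.2 hρ.ne'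
  have hmem : ∀ ζ ∈ ball (0 : ℂ) 1, ρ • ζ ∈ ball (0 : ℂ) ρ := by
    intro ζ hζ
    rw [mem_ball_zero_iff] at hζ ⊢
    rw [norm_smul, Real.norm_eq_abs, abs_of_pos hρ]
    exact mul_lt_of_lt_one_right hρ hζ
  have hmem' : ∀ k ∈ ball (0 : ℂ) ρ, ρ⁻¹ • k ∈ ball (0 : ℂ) 1 := by
    intro k hk
    rw [mem_ball_zero_iff] at hk ⊢
    rw [norm_smul, Real.norm_eq_abs, abs_of_pos (inv_pos.2 hρ), inv_mul_lt_iff₀ hρ, mul_one]
    exact hk
  have hinv : ∀ k : ℂ, ρ • (ρ⁻¹ • k) = k := fun k => smul_inv_smul₀ hρ.ne' k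
  obtain ⟨ω, Φ, hω, hωb, hΦ, hgk⟩ := bsim_one h2 h3 h4 h5 h6 h7 C hC0 hC (M * ρ)
    (fun ζ => g (ρ • ζ)) (fun ζ => (ρ : ℂ) * h (ρ • ζ)) (mul_nonneg hM hρ.le)
    (hg.comp (continuous_const_smul ρ).continuousOn hmem)
    (measurable_const.mul (hh.comp (measurable_const_smul ρ)))
    (by
      intro k hk
      rw [norm_mul, Complex.norm_real, Real.norm_eq_abs, abs_of_pos hρ]
      have := hb _ (hmem k hk)
      nlinarith [this])
    (by
      intro φ hφ
      obtain ⟨hψ, hdb⟩ := bsim_scale hρ hφ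
      have hmain := hw _ hψ
      have e1 : ∫ ζ, g (ρ • ζ) * db φ ζ = |(ρ ^ Module.finrank ℝ ℂ)⁻¹| •
          ∫ k, g k * db φ (ρ⁻¹ • k) := by
        rw [← Measure.integral_comp_smul volume (fun k => g k * db φ (ρ⁻¹ • k)) ρ]
        refine integral_congr_ae (Eventually.of_forall fun ζ => ?_)
        simp only [inv_smul_smul₀ hρ.ne']
      have e2 : ∫ ζ, (ρ : ℂ) * h (ρ • ζ) * φ ζ = |(ρ ^ Module.finrank ℝ ℂ)⁻¹| •
          ∫ k, (ρ : ℂ) * h k * φ (ρ⁻¹ • k) := by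
        rw [← Measure.integral_comp_smul volume (fun k => (ρ : ℂ) * h k * φ (ρ⁻¹ • k)) ρ]
        refine integral_congr_ae (Eventually.of_forall fun ζ => ?_)
        simp only [inv_smul_smul₀ hρ.ne']
      have e3 : ∫ k, g k * db φ (ρ⁻¹ • k) = (ρ : ℂ) * ∫ k, g k * db (fun k => φ (ρ⁻¹ • k)) k := by
        rw [← integral_const_mul]
        refine integral_congr_ae (Eventually.of_forall fun k => ?_)
        simp only [hdb]
        field_simp
      have e4 : ∫ k, (ρ : ℂ) * h k * φ (ρ⁻¹ • k) = (ρ : ℂ) * ∫ k, h k * φ (ρ⁻¹ • k) := by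
        rw [← integral_const_mul]
        refine integral_congr_ae (Eventually.of_forall fun k => ?_)
        simp only [mul_assoc]
      rw [e1, e2, e3, e4, hmain]
      simp only [mul_neg, smul_neg])
  refine ⟨fun k => ω (ρ⁻¹ • k), fun k => Φ (ρ⁻¹ • k), hω.comp (continuous_const_smul _),
    fun k => ?_, ?_, fun k hk => ?_⟩
  · have := hωb (ρ⁻¹ • k)
    rwa [← mul_assoc] at this
  · refine hΦ.comp ?_ (fun k hk => hmem' k hk)
    exact (differentiable_id.const_smul ρ⁻¹).differentiableOn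
  · have := hgk _ (hmem' k hk)
    simp only [hinv] at this
    exact this

end

end Cal
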