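import Pool.Agent.Lib.MP_4ea4c7_an.StmH1b

/-! Piece b13: weak derivatives from a bounded `∂/∂z̄`. -/

open MeasureTheory Complex Metric Set Filter Topology
open scoped ComplexConjugate ENNReal NNReal

namespace Cal

/-- change of variables -/
private lemma bwd_int (z0 : ℂ) (ρ : ℝ) (F : ℂ → ℂ) :
    ∫ z, F (ρ⁻¹ • (z - z0)) = ((ρ ^ 2 : ℝ) : ℂ) * ∫ z, F z := by
  rw [integral_sub_right_eq_self (fun z => F (ρ⁻¹ • z)) z0,
    Measure.integral_comp_inv_smul volume F ρ, Complex.finrank_real_complex,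
    abs_of_nonneg (sq_nonneg ρ)]
  rfl

private lemma bwd_sub (z0 : ℂ) (ρ : ℝ) (hρ : 0 < ρ) (z : ℂ) :
    z0 + ρ • (ρ⁻¹ • (z - z0)) = z := by
  rw [smul_smul, mul_inv_cancel₀ hρ.ne', one_smul]
  ring

private lemma bwd_fd (z0 : ℂ) (ρ : ℝ) (φ : ℂ → ℂ) (hφ : ContDiff ℝ (⊤ : ℕ∞) φ) (ζ v : ℂ) :
    fderiv ℝ (fun ζ => φ (z0 + ρ • ζ)) ζ v = (ρ : ℂ) * fderiv ℝ φ (z0 + ρ • ζ) v := by
  have h1 : HasFDerivAt φ (fderiv ℝ φ (z0 + ρ • ζ)) (z0 + ρ • ζ) :=
    (hφ.differentiable (by simp)).differentiableAt.hasFDerivAt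
  have h2 : HasFDerivAt (fun ζ : ℂ => z0 + ρ • ζ) (ρ • ContinuousLinearMap.id ℝ ℂ) ζ :=
    ((hasFDerivAt_id ζ).const_smul ρ).const_add z0
  have h3 := (h1.comp ζ h2).fderiv
  have h4 : (φ ∘ fun ζ : ℂ => z0 + ρ • ζ) = fun ζ => φ (z0 + ρ • ζ) := rfl
  rw [h4] at h3
  rw [h3]
  simp

private lemma bwd_tf (z0 : ℂ) (ρ : ℝ) (hρ : 0 < ρ) (φ : ℂ → ℂ) (hφ : TF univ φ) :
    TF univ (fun ζ => φ (z0 + ρ • ζ)) := by
  refine ⟨?_, ?_, subset_univ _⟩
  · exact hφ.1.comp (contDiff_const.add (contDiff_id.const_smul ρ))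
  · have e := (Homeomorph.smulOfNeZero ρ hρ.ne' : ℂ ≃ₜ ℂ).trans (Homeomorph.addLeft z0)
    exact hφ.2.1.comp_homeomorph
      ((Homeomorph.smulOfNeZero ρ hρ.ne' : ℂ ≃ₜ ℂ).trans (Homeomorph.addLeft z0))

private lemma bwd_memLp (z0 : ℂ) (ρ : ℝ) (hρ : 0 < ρ) (A : ℂ → ℂ) (hA : MemLp A 2 volume) :
    MemLp (fun z => A (ρ⁻¹ • (z - z0))) 2 volume := by
  have h1 : MemLp (fun z => A (ρ⁻¹ • z)) 2 volume := by
    have h2 := Measure.map_addHaar_smul (volume : Measure ℂ) (inv_ne_zero hρ.ne')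
    have h3 : MemLp A 2 (Measure.map (fun z : ℂ => ρ⁻¹ • z) volume) := by
      have : Measure.map (fun z : ℂ => ρ⁻¹ • z) volume =
          ENNReal.ofReal |(ρ⁻¹ ^ Module.finrank ℝ ℂ)⁻¹| • (volume : Measure ℂ) := h2
      rw [this]
      exact hA.smul_measure ENNReal.ofReal_ne_top
    have h4 := (memLp_map_measure_iff h3.1 (measurable_const_smul ρ⁻¹).aemeasurable).1 h3
    exact h4
  have h5 := h1.comp_measurePreserving (measurePreserving_sub_right volume z0)
  exact h5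

theorem piece_bwd (h1 : S_C4) (h2 : S_C3b) (h3 : S_weyl) (h4 : S_smooth) (h5 : S_basic)
    (h6 : S_glue) (h7 : S_wuniq) : S_bwd := by
  intro z0 ρ g h hρ hg hh hM hw
  obtain ⟨M, hM⟩ := hM
  obtain ⟨C, -, hC⟩ := h1
  have hM0 : 0 ≤ M := (norm_nonneg _).trans (hM 0)
  -- the scaled right hand side
  set k : ℂ → ℂ := fun ζ => if ‖ζ‖ < 1 then (ρ : ℂ) * h (z0 + ρ • ζ) else 0 with hk
  have hkm : Measurable k := by
    refine Measurable.ite (measurableSet_lt measurable_norm measurable_const) ?_ measurable_const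
    refine measurable_const.mul (hh.comp ?_)
    exact measurable_const.add (measurable_id.const_smul ρ)
  have hkb : ∀ z, ‖k z‖ ≤ ρ * M := by
    intro z
    rw [hk]
    simp only
    split_ifs
    · rw [norm_mul, Complex.norm_real, Real.norm_of_nonneg hρ.le]
      exact mul_le_mul_of_nonneg_left (hM _) hρ.le
    · rw [norm_zero]
      positivity
  have hks : ∀ z, 5 / 4 < ‖z‖ → k z = 0 := by
    intro z hz
    rw [hk]
    simp only
    rw [if_neg (by linarith)]
  obtain ⟨hc, -, hW2⟩ := hC k (ρ * M) hkm.aestronglyMeasurable hkb hks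
  obtain ⟨A0, hA0, hWD, -⟩ := h2 k hW2
  -- the function with the right weak derivative
  set G : ℂ → ℂ := fun z => Ct k (ρ⁻¹ • (z - z0)) with hG
  set A1 : ℂ → ℂ := fun z => (ρ : ℂ)⁻¹ * A0 (ρ⁻¹ • (z - z0)) with hA1
  set B1 : ℂ → ℂ := fun z => (ρ : ℂ)⁻¹ * k (ρ⁻¹ • (z - z0)) with hB1
  have hρc : (ρ : ℂ) ≠ 0 := by exact_mod_cast hρ.ne'
  have hGc : Continuous G := by
    rw [hG]
    have h8 : Continuous fun z : ℂ => ρ⁻¹ • (z - z0) := by fun_prop
    exact hc.comp h8
  have hGL : L2loc univ G := by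
    intro K hK _
    have : IsFiniteMeasure (volume.restrict K) :=
      ⟨by rw [Measure.restrict_apply_univ]; exact hK.measure_lt_top⟩
    obtain ⟨B, hB⟩ := hK.exists_bound_of_continuousOn hGc.continuousOn
    refine MemLp.of_bound hGc.aestronglyMeasurable.restrict B ?_
    exact (ae_restrict_iff' hK.measurableSet).2 (ae_of_all _ fun z hz => hB z hz)
  have hWG : WD univ G A1 B1 := by
    refine ⟨hGL, ?_, ?_, ?_, ?_⟩
    · intro K _ _
      exact ((bwd_memLp z0 ρ hρ A0 hA0).const_mul _).restrict K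
    · intro K _ _
      exact ((bwd_memLp z0 ρ hρ k hW2.1).const_mul _).restrict K
    · intro φ hφ
      have i1 := hWD.hA _ (bwd_tf z0 ρ hρ φ hφ)
      have i2 : ∫ z, G z * dz φ z =
          ∫ z, (fun ζ => Ct k ζ * dz φ (z0 + ρ • ζ)) (ρ⁻¹ • (z - z0)) := by
        refine integral_congr_ae (ae_of_all _ fun z => ?_)
        simp only
        rw [bwd_sub z0 ρ hρ]
      have i3 : ∫ z, A1 z * φ z =
          ∫ z, (fun ζ => (ρ : ℂ)⁻¹ * (A0 ζ * φ (z0 + ρ • ζ))) (ρ⁻¹ • (z - z0)) := by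
        refine integral_congr_ae (ae_of_all _ fun z => ?_)
        simp only
        rw [bwd_sub z0 ρ hρ, hA1]
        ring
      have i4 : ∫ ζ, Ct k ζ * dz (fun ζ => φ (z0 + ρ • ζ)) ζ =
          (ρ : ℂ) * ∫ ζ, Ct k ζ * dz φ (z0 + ρ • ζ) := by
        rw [← integral_const_mul]
        refine integral_congr_ae (ae_of_all _ fun ζ => ?_)
        simp only [dz]
        rw [bwd_fd z0 ρ φ hφ.1, bwd_fd z0 ρ φ hφ.1]
        ring
      rw [i2, bwd_int z0 ρ (fun ζ => Ct k ζ * dz φ (z0 + ρ • ζ)), i3,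
        bwd_int z0 ρ (fun ζ => (ρ : ℂ)⁻¹ * (A0 ζ * φ (z0 + ρ • ζ))), integral_const_mul]
      rw [i4] at i1
      have i5 : ∫ ζ, Ct k ζ * dz φ (z0 + ρ • ζ) =
          (ρ : ℂ)⁻¹ * (- ∫ ζ, A0 ζ * φ (z0 + ρ • ζ)) := by
        rw [← i1]
        field_simp
      rw [i5]
      ring
    · intro φ hφ
      have i1 := hWD.hB _ (bwd_tf z0 ρ hρ φ hφ)
      have i2 : ∫ z, G z * db φ z =
          ∫ z, (fun ζ => Ct k ζ * db φ (z0 + ρ • ζ)) (ρ⁻¹ • (z - z0)) := by
        refine integral_congr_ae (ae_of_all _ fun z => ?_)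
        simp only
        rw [bwd_sub z0 ρ hρ]
      have i3 : ∫ z, B1 z * φ z =
          ∫ z, (fun ζ => (ρ : ℂ)⁻¹ * (k ζ * φ (z0 + ρ • ζ))) (ρ⁻¹ • (z - z0)) := by
        refine integral_congr_ae (ae_of_all _ fun z => ?_)
        simp only
        rw [bwd_sub z0 ρ hρ, hB1]
        ring
      have i4 : ∫ ζ, Ct k ζ * db (fun ζ => φ (z0 + ρ • ζ)) ζ =
          (ρ : ℂ) * ∫ ζ, Ct k ζ * db φ (z0 + ρ • ζ) := by
        rw [← integral_const_mul]
        refine integral_congr_ae (ae_of_all _ fun ζ => ?_)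
        simp only [db]
        rw [bwd_fd z0 ρ φ hφ.1, bwd_fd z0 ρ φ hφ.1]
        ring
      rw [i2, bwd_int z0 ρ (fun ζ => Ct k ζ * db φ (z0 + ρ • ζ)), i3,
        bwd_int z0 ρ (fun ζ => (ρ : ℂ)⁻¹ * (k ζ * φ (z0 + ρ • ζ))), integral_const_mul]
      rw [i4] at i1
      have i5 : ∫ ζ, Ct k ζ * db φ (z0 + ρ • ζ) =
          (ρ : ℂ)⁻¹ * (- ∫ ζ, k ζ * φ (z0 + ρ • ζ)) := by
        rw [← i1]
        field_simp
      rw [i5]
      ring
  obtain ⟨hb1, hb2, -, hb4, hb5, -⟩ := h5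
  have hWGb : WD (ball z0 ρ) G A1 B1 := hb5 univ (ball z0 ρ) G A1 B1 (subset_univ _) hWG
  -- on the ball the weak derivative is h
  have hB1h : ∀ z ∈ ball z0 ρ, B1 z = h z := by
    intro z hz
    rw [hB1]
    simp only
    rw [hk]
    simp only
    rw [if_pos, bwd_sub z0 ρ hρ]
    · field_simp
    · rw [norm_smul, norm_inv, Real.norm_of_nonneg hρ.le]
      rw [mem_ball, dist_eq_norm] at hz
      rw [inv_mul_lt_iff₀ hρ, mul_one]
      exact hz
  have hgL : L2loc (ball z0 ρ) g := by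
    intro K hK hKb
    have : IsFiniteMeasure (volume.restrict K) :=
      ⟨by rw [Measure.restrict_apply_univ]; exact hK.measure_lt_top⟩
    obtain ⟨B, hB⟩ := hK.exists_bound_of_continuousOn (hg.mono hKb)
    refine MemLp.of_bound ((hg.mono hKb).aestronglyMeasurable hK.measurableSet) B ?_
    exact (ae_restrict_iff' hK.measurableSet).2 (ae_of_all _ fun z hz => hB z hz)
  have hdL : L2loc (ball z0 ρ) (fun z => g z - G z) := fun K hK hKb =>
    (hgL K hK hKb).sub (hGL K hK (subset_univ _))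
  have hdz : ∀ φ, TF (ball z0 ρ) φ → ∫ z, (g z - G z) * db φ z = 0 := by
    intro φ hφ
    have hK := hφ.2.1
    have hKb := hφ.2.2
    have hdbc : Continuous (db φ) := by
      unfold db
      have := hφ.1.continuous_fderiv (by simp)
      exact ((this.clm_apply continuous_const).add
        (continuous_const.mul (this.clm_apply continuous_const))).div_const 2
    have hdbs : ∀ z, z ∉ tsupport φ → db φ z = 0 := by
      intro z hz
      have : fderiv ℝ φ z = 0 := by
        have h8 := support_fderiv_subset ℝ (f := φ)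
        by_contra hne
        exact hz (h8 hne)
      unfold db
      rw [this]
      simp
    have int : ∀ f : ℂ → ℂ, ContinuousOn f (ball z0 ρ) → Integrable (fun z => f z * db φ z) volume := by
      intro f hf
      have e : (fun z => f z * db φ z) = (tsupport φ).indicator (fun z => f z * db φ z) := by
        funext z
        by_cases hz : z ∈ tsupport φ
        · rw [indicator_of_mem hz]
        · rw [indicator_of_notMem hz, hdbs z hz, mul_zero]
      rw [e, integrable_indicator_iff hK.isCompact.measurableSet]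
      exact ((hf.mono hKb).mul hdbc.continuousOn).integrableOn_compact hK.isCompact
    have e1 : ∫ z, (g z - G z) * db φ z = (∫ z, g z * db φ z) - ∫ z, G z * db φ z := by
      rw [← integral_sub (int g hg) (int G hGc.continuousOn)]
      refine integral_congr_ae (ae_of_all _ fun z => ?_)
      simp only
      ring
    rw [e1, hw φ hφ, hWGb.hB φ hφ]
    have e2 : ∫ z, B1 z * φ z = ∫ z, h z * φ z := by
      refine integral_congr_ae (ae_of_all _ fun z => ?_)
      simp only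
      by_cases hz : z ∈ ball z0 ρ
      · rw [hB1h z hz]
      · have : φ z = 0 := by
          by_contra hne
          exact hz (hKb (subset_tsupport φ hne))
        rw [this, mul_zero, mul_zero]
    rw [e2, sub_self]
  have hhol := (h3 (ball z0 ρ) (fun z => g z - G z) isOpen_ball hdL hdz).2
    (hg.sub hGc.continuousOn)
  have hWd := h4.2.1 (ball z0 ρ) (fun z => g z - G z) isOpen_ball hhol
  have hsum := hb1 _ _ _ _ _ _ _ hWd hWGb
  refine ⟨_, hb4 _ _ _ _ _ _ _ measurableSet_ball hsum ?_ (ae_eq_refl _) ?_⟩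
  · exact ae_of_all _ fun z => by simp
  · refine (ae_restrict_iff' measurableSet_ball).2 (ae_of_all _ fun z hz => ?_)
    show 0 + B1 z = h z
    rw [zero_add]
    exact hB1h z hz

end Cal
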