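import Pool.Agent.Lib.MP_4ea4c7_an.StmH1b

open MeasureTheory Complex Metric Set Filter Topology
open scoped ComplexConjugate ENNReal NNReal

namespace Cal

private theorem bwlog_dz {G : ℂ → ℂ} {w d : ℂ} (h : HasDerivAt G d w) : dz G w = d ∧ db G w = 0 := by
  have h1 : fderiv ℝ G w = ((ContinuousLinearMap.toSpanSingleton ℂ d).restrictScalars ℝ) :=
    (h.hasFDerivAt.restrictScalars ℝ).fderiv
  have h2 : ∀ v : ℂ, fderiv ℝ G w v = v * d := by
    intro v
    rw [h1]
    simp
  constructor
  · unfold dz
    rw [h2, h2]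
    linear_combination (-(d / 2)) * I_mul_I
  · unfold db
    rw [h2, h2]
    linear_combination (d / 2) * I_mul_I

private theorem bwlog_slit {v : ℂ} (h : ‖v‖ < 1 / 2) : exp v ∈ slitPlane ∧ Complex.log (exp v) = v := by
  have hi : |v.im| < 1 / 2 := lt_of_le_of_lt (abs_im_le_norm v) h
  have hi' := abs_lt.1 hi
  have hpi := Real.pi_gt_three
  constructor
  · rw [mem_slitPlane_iff]
    left
    rw [exp_re]
    refine mul_pos (Real.exp_pos _) (Real.cos_pos_of_mem_Ioo ⟨by linarith, by linarith⟩)
  · exact Complex.log_exp (by linarith) (by linarith)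

theorem piece_bwlog (h1 : S_chain) (h2 : S_glue) (h3 : S_basic) : S_bwlog := by
  intro U g A B hU hg hW
  refine h2 U g _ _ hU ?_
  intro z0 hz0
  have hc : ContinuousAt g z0 := hg.continuousAt (hU.mem_nhds hz0)
  have hev : ∀ᶠ z in 𝓝 z0, dist (g z) (g z0) < 1 / 2 ∧ z ∈ U :=
    (hc.eventually (Metric.ball_mem_nhds (g z0) (by norm_num : (0 : ℝ) < 1 / 2))).and
      (hU.mem_nhds hz0)
  obtain ⟨r, hr, hball⟩ := Metric.eventually_nhds_iff_ball.1 hev
  refine ⟨ball z0 r, isOpen_ball, mem_ball_self hr, fun z hz => (hball z hz).2, ?_⟩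
  have hsub : ball z0 r ⊆ U := fun z hz => (hball z hz).2
  have hnorm : ∀ z ∈ ball z0 r, ‖g z - g z0‖ < 1 / 2 := fun z hz => by
    have := (hball z hz).1
    rwa [dist_eq_norm] at this
  set c : ℂ := exp (-g z0) with hcdef
  have hc0 : c ≠ 0 := exp_ne_zero _
  set W : Set ℂ := {w | w * c ∈ slitPlane} with hWdef
  have hWo : IsOpen W := isOpen_slitPlane.preimage (continuous_id.mul continuous_const)
  set G : ℂ → ℂ := fun w => g z0 + Complex.log (w * c) with hGdef
  have hder : ∀ w ∈ W, HasDerivAt G (1 / w) w := by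
    intro w hw
    have hw0 : w * c ≠ 0 := slitPlane_ne_zero hw
    have hw1 : w ≠ 0 := left_ne_zero_of_mul hw0
    have e1 : HasDerivAt (fun w => w * c) c w := by
      simpa using (hasDerivAt_id w).mul_const c
    have e2 := (e1.clog hw).const_add (g z0)
    have e3 : c / (w * c) = 1 / w := by
      field_simp
    rw [e3] at e2
    exact e2
  have hGs : ContDiffOn ℝ 1 G W := by
    have e1 : ContDiffOn ℝ 1 (fun w : ℂ => Complex.log (w * c)) W := by
      intro w hw
      have e2 : ContDiffAt ℂ 1 Complex.log (w * c) := contDiffAt_log hw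
      have e3 : ContDiffAt ℝ 1 Complex.log (w * c) := e2.restrict_scalars ℝ
      have e4 : ContDiffAt ℝ 1 (fun w : ℂ => w * c) w := contDiffAt_id.mul contDiffAt_const
      exact (e3.comp w e4).contDiffWithinAt
    exact contDiffOn_const.add e1
  have hm : MapsTo (fun z => exp (g z)) (ball z0 r) W := by
    intro z hz
    have e1 : exp (g z) * c = exp (g z - g z0) := by
      rw [hcdef, ← exp_add]
      ring_nf
    change exp (g z) * c ∈ slitPlane
    rw [e1]
    exact (bwlog_slit (hnorm z hz)).1
  have hcont : ContinuousOn (fun z => exp (g z)) (ball z0 r) := (hg.mono hsub).cexp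
  have key := h1 (ball z0 r) W (fun z => exp (g z)) A B G isOpen_ball hWo
    (h3.2.2.2.2.1 U (ball z0 r) _ A B hsub hW) hcont hm hGs
  refine h3.2.2.2.1 _ _ _ _ _ _ _ measurableSet_ball key ?_ ?_ ?_
  · refine (ae_restrict_iff' measurableSet_ball).2 (Filter.Eventually.of_forall fun z hz => ?_)
    have e1 : exp (g z) * c = exp (g z - g z0) := by
      rw [hcdef, ← exp_add]
      ring_nf
    change g z0 + Complex.log (exp (g z) * c) = g z
    rw [e1, (bwlog_slit (hnorm z hz)).2]
    ring
  · refine (ae_restrict_iff' measurableSet_ball).2 (Filter.Eventually.of_forall fun z hz => ?_)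
    have e1 := bwlog_dz (hder _ (hm hz))
    change dz G (exp (g z)) * A z + db G (exp (g z)) * conj (B z) = A z / exp (g z)
    rw [e1.1, e1.2]
    ring
  · refine (ae_restrict_iff' measurableSet_ball).2 (Filter.Eventually.of_forall fun z hz => ?_)
    have e1 := bwlog_dz (hder _ (hm hz))
    change dz G (exp (g z)) * B z + db G (exp (g z)) * conj (A z) = B z / exp (g z)
    rw [e1.1, e1.2]
    ring

end Cal
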