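import Pool.Agent.Lib.MP_4ea4c7_an.StmH4

/-!
# [c6] The equation of `F`
-/

open MeasureTheory Complex Metric Set Filter Topology
open scoped ComplexConjugate ENNReal NNReal

namespace Cal

noncomputable section

private theorem cF_lt {k0 : ℝ} {μ : ℂ → ℝ} (hk : k0 < 1) (h : SMu k0 μ) (z : ℂ) : μ z ^ 2 < 1 := by
  have h1 := h.lo z
  have h2 := h.hi z
  nlinarith

private theorem cF_ne {k0 : ℝ} {μ : ℂ → ℝ} (hk : k0 < 1) (h : SMu k0 μ) (z : ℂ) : (1 - (μ z : ℂ) ^ 2) ≠ 0 := by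
  have h1 := cF_lt hk h z
  have h2 : (1 - μ z ^ 2 : ℝ) ≠ 0 := by linarith
  intro h3
  apply h2
  exact_mod_cast h3

private theorem cF_smC {k0 : ℝ} {μ : ℂ → ℝ} (h : SMu k0 μ) : ContDiff ℝ (⊤ : ℕ∞) (fun w => (μ w : ℂ)) :=
  Complex.ofRealCLM.contDiff.comp h.smooth

private theorem cF_db_cont {g : ℂ → ℂ} (h : ContDiff ℝ (⊤ : ℕ∞) g) : Continuous (db g) := by
  have h1 : Continuous (fderiv ℝ g) := h.continuous_fderiv (by simp)
  unfold db
  fun_prop

private theorem cF_open : IsOpen {z : ℂ | 7 / 8 < ‖z‖} := isOpen_lt continuous_const continuous_norm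

private theorem cF_db_zero {k0 : ℝ} {μ : ℂ → ℝ} (h : SMu k0 μ) {z : ℂ} (hz : 7 / 8 < ‖z‖) :
    db (fun w => (μ w : ℂ)) z = 0 := by
  have h1 : (fun w => (μ w : ℂ)) =ᶠ[𝓝 z] fun _ => (0 : ℂ) := by
    filter_upwards [cF_open.mem_nhds hz] with w hw
    rw [h.supp w hw]
    simp
  have h2 : fderiv ℝ (fun w => (μ w : ℂ)) z = 0 := by
    rw [h1.fderiv_eq]
    simp
  simp [db, h2]

private theorem cF_be_cont {k0 : ℝ} {μ : ℂ → ℝ} (hk : k0 < 1) (h : SMu k0 μ) : Continuous (be μ) := by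
  unfold be
  refine Continuous.div ?_ ?_ (cF_ne hk h)
  · exact (cF_db_cont (cF_smC h)).neg
  · have := (cF_smC h).continuous
    fun_prop

private theorem cF_al_cont {k0 : ℝ} {μ : ℂ → ℝ} (hk : k0 < 1) (h : SMu k0 μ) : Continuous (al μ) := by
  unfold al
  exact (cF_smC h).continuous.mul (cF_be_cont hk h)

private theorem cF_be_zero {k0 : ℝ} {μ : ℂ → ℝ} (h : SMu k0 μ) {z : ℂ} (hz : 7 / 8 < ‖z‖) : be μ z = 0 := by
  simp [be, cF_db_zero h hz]

private theorem cF_al_zero {k0 : ℝ} {μ : ℂ → ℝ} (h : SMu k0 μ) {z : ℂ} (hz : 7 / 8 < ‖z‖) : al μ z = 0 := by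
  simp [al, cF_be_zero h hz]

private theorem cF_bdd {g : ℂ → ℂ} (hg : Continuous g) (h0 : ∀ z, 7 / 8 < ‖z‖ → g z = 0) :
    ∃ M : ℝ, 0 ≤ M ∧ ∀ z, ‖g z‖ ≤ M := by
  obtain ⟨M, hM⟩ := (isCompact_closedBall (0 : ℂ) (7 / 8)).exists_bound_of_continuousOn hg.continuousOn
  refine ⟨|M|, abs_nonneg _, fun z => ?_⟩
  by_cases hz : 7 / 8 < ‖z‖
  · rw [h0 z hz]; simp
  · exact (hM z (by rw [mem_closedBall_zero_iff]; exact not_lt.1 hz)).trans (le_abs_self M)

private theorem cF_ek_cont (k : ℂ) : Continuous (ek k) := by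
  unfold ek
  have := Complex.continuous_conj
  fun_prop

private theorem cF_ek (k z : ℂ) : exp (I * k * z) * ek k z = conj (exp (I * k * z)) := by
  rw [ek, ← Complex.exp_conj, ← Complex.exp_add]
  congr 1
  simp only [map_mul, conj_I]
  ring

private theorem cF_Ndiff (h2 : S_C3b) (h3 : S_C4) (h4 : S_smooth) (h5 : S_basic) {a b : ℂ → ℂ} {c : ℂ} {N : ℂ → ℂ → ℂ}
    (ha : Continuous a) (hb : Continuous b) (h0 : ∀ z, 7 / 8 < ‖z‖ → a z = 0 ∧ b z = 0) (hN : NS a b c N) (k : ℂ) :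
    ∃ A : ℂ → ℂ, WD univ (fun z => N z k) A (fun ζ => a ζ * N ζ k + b ζ * ek k ζ * conj (N ζ k)) := by
  have hNk : Continuous (fun z => N z k) := by
    have := hN.cont
    exact this.comp (by fun_prop : Continuous (fun z : ℂ => (z, k)))
  have hw : Continuous (fun ζ => a ζ * N ζ k + b ζ * ek k ζ * conj (N ζ k)) := by
    have h1 := cF_ek_cont k
    have h2' := Complex.continuous_conj
    have h3' : Continuous (fun ζ => conj (N ζ k)) := Complex.continuous_conj.comp hNk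
    exact (ha.mul hNk).add ((hb.mul h1).mul h3')
  have hw0 : ∀ ζ, 7 / 8 < ‖ζ‖ → a ζ * N ζ k + b ζ * ek k ζ * conj (N ζ k) = 0 := by
    intro ζ hζ
    rw [(h0 ζ hζ).1, (h0 ζ hζ).2]; simp
  obtain ⟨M, hM0, hM⟩ := cF_bdd hw hw0
  obtain ⟨C, hC, h3c⟩ := h3
  obtain ⟨-, -, hW2⟩ := h3c _ M hw.aestronglyMeasurable hM (fun z hz => hw0 z (by linarith))
  obtain ⟨A, -, hA, -⟩ := h2 _ hW2
  have hc := h4.2.1 univ (fun _ => c) isOpen_univ (differentiableOn_const c)
  have hs := h5.1 _ _ _ _ _ _ _ hc hA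
  refine ⟨A, ?_⟩
  convert hs using 1
  · funext z
    exact hN.eq z k
  · funext z
    simp
  · funext z
    simp

private theorem cF_Ncont {a b : ℂ → ℂ} {c : ℂ} {N : ℂ → ℂ → ℂ} (hN : NS a b c N) (k : ℂ) :
    Continuous (fun z => N z k) := by
  have := hN.cont
  exact this.comp (by fun_prop : Continuous (fun z : ℂ => (z, k)))

/-- the Beltrami equation -/
private theorem cF_bel (h2 : S_C3b) (h3 : S_C4) (h4 : S_smooth) (h5 : S_basic) (h6 : S_wuniq) {k0 : ℝ} {μ : ℂ → ℝ} {c : ℂ}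
    {N : ℂ → ℂ → ℂ} (hk : k0 < 1) (h : SMu k0 μ) (hN : NS (al μ) (be μ) c N) (k : ℂ) :
    Bel μ univ (fun z => Fof μ N z k) := by
  have h0 : ∀ z, 7 / 8 < ‖z‖ → al μ z = 0 ∧ be μ z = 0 := fun z hz => ⟨cF_al_zero h hz, cF_be_zero h hz⟩
  obtain ⟨A, hA⟩ := cF_Ndiff h2 h3 h4 h5 (cF_al_cont hk h) (cF_be_cont hk h) h0 hN k
  -- `f = N exp (I k z)`
  have hexp : Differentiable ℂ (fun z : ℂ => exp (I * k * z)) := by fun_prop
  have hexpR : ContDiff ℝ (⊤ : ℕ∞) (fun z : ℂ => exp (I * k * z)) := by fun_prop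
  have hdbexp : ∀ z, db (fun z : ℂ => exp (I * k * z)) z = 0 := by
    intro z
    have h1 : fderiv ℝ (fun z : ℂ => exp (I * k * z)) z = (fderiv ℂ (fun z : ℂ => exp (I * k * z)) z).restrictScalars ℝ :=
      ((hexp z).hasFDerivAt.restrictScalars ℝ).fderiv
    rw [db, h1]
    have h2' : (fderiv ℂ (fun z : ℂ => exp (I * k * z)) z) I = I * (fderiv ℂ (fun z : ℂ => exp (I * k * z)) z) 1 := by
      have := (fderiv ℂ (fun z : ℂ => exp (I * k * z)) z).map_smul I 1
      simpa only [smul_eq_mul, mul_one] using this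
    simp only [ContinuousLinearMap.coe_restrictScalars']
    rw [h2', ← mul_assoc, I_mul_I]
    ring
  have hf := h4.2.2 _ _ _ _ (fun z : ℂ => exp (I * k * z)) isOpen_univ hA hexpR.contDiffOn
  -- `g1 = 1/(1-μ²)`, `g2 = μ/(1-μ²)`
  have hμC := cF_smC h
  have hg1 : ContDiff ℝ (⊤ : ℕ∞) (fun z => (1 - (μ z : ℂ) ^ 2)⁻¹) :=
    (contDiff_const.sub (hμC.pow 2)).inv (cF_ne hk h)
  have hg2 : ContDiff ℝ (⊤ : ℕ∞) (fun z => (μ z : ℂ) * (1 - (μ z : ℂ) ^ 2)⁻¹) := hμC.mul hg1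
  have hF1 := h4.2.2 _ _ _ _ _ isOpen_univ hf hg1.contDiffOn
  have hF2 := h4.2.2 _ _ _ _ _ isOpen_univ (h5.2.2.1 _ _ _ _ hf) hg2.contDiffOn
  have hF := h5.1 _ _ _ _ _ _ _ hF1 hF2
  have hFe : (fun z => N z k * exp (I * k * z) * (1 - (μ z : ℂ) ^ 2)⁻¹ +
      conj (N z k * exp (I * k * z)) * ((μ z : ℂ) * (1 - (μ z : ℂ) ^ 2)⁻¹)) = fun z => Fof μ N z k := by
    funext z
    simp only [Fof]
    rw [mul_comm (N z k)]
    simp only [div_eq_mul_inv]
    ring
  rw [hFe] at hF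
  obtain ⟨FA, FB, hFW⟩ : ∃ FA FB : ℂ → ℂ, WD univ (fun z => Fof μ N z k) FA FB := ⟨_, _, hF⟩
  refine ⟨FA, FB, hFW, ?_⟩
  -- `f = F - μ conj F`
  have hG := h4.2.2 _ _ _ _ _ isOpen_univ (h5.2.2.1 _ _ _ _ hFW) hμC.contDiffOn
  have hG' := h5.1 _ _ _ _ _ _ _ hFW (h5.2.1 _ _ _ _ (-1) hG)
  have heq : ∀ z, Fof μ N z k + -1 * (conj (Fof μ N z k) * (μ z : ℂ)) = N z k * exp (I * k * z) := by
    intro z
    have hne := cF_ne hk h z
    simp only [Fof, map_div₀, map_add, map_mul, map_sub, map_one, map_pow, conj_ofReal, conj_conj]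
    field_simp
    ring
  obtain ⟨-, hB⟩ := h6 _ _ _ _ _ _ _ isOpen_univ hG' hf (Eventually.of_forall heq)
  filter_upwards [hB] with z hz
  have hne := cF_ne hk h z
  rw [hdbexp z] at hz
  have hFz : conj (Fof μ N z k) = conj (Fof μ N z k) := rfl
  have e1 : (al μ z * N z k + be μ z * ek k z * conj (N z k)) * exp (I * k * z) =
      -(db (fun w => (μ w : ℂ)) z) * conj (Fof μ N z k) := by
    have e2 : (al μ z * N z k + be μ z * ek k z * conj (N z k)) * exp (I * k * z) =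
        be μ z * ((μ z : ℂ) * (exp (I * k * z) * N z k) + (exp (I * k * z) * ek k z) * conj (N z k)) := by
      simp only [al]; ring
    rw [e2, cF_ek]
    simp only [Fof, be, map_div₀, map_add, map_mul, map_sub, map_one, map_pow, conj_ofReal, conj_conj]
    field_simp
    ring
  rw [e1] at hz
  simp only [mul_zero, add_zero] at hz
  linear_combination hz

theorem piece_cF (h1 : S_csolve) (h2 : S_C3b) (h3 : S_C4) (h4 : S_smooth) (h5 : S_basic) (h6 : S_wuniq) (h7 : S_pomp)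
    (h8 : S_weyl) : S_cF := by
  intro k0 μ c N hk h hN
  have hfirst : Continuous (fun p : ℂ × ℂ => Fof μ N p.1 p.2) := by
    unfold Fof
    have hc := hN.cont
    have hμ := (cF_smC h).continuous
    refine Continuous.div ?_ ?_ (fun p => cF_ne hk h p.1)
    · have e1 : Continuous (fun p : ℂ × ℂ => exp (I * p.2 * p.1) * N p.1 p.2) := by fun_prop
      exact e1.add ((hμ.comp continuous_fst).mul (Complex.continuous_conj.comp e1))
    · exact continuous_const.sub ((hμ.comp continuous_fst).pow 2)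
  have hthird : ∀ z k, 7 / 8 < ‖z‖ → Fof μ N z k = exp (I * k * z) * N z k := by
    intro z k hz
    simp [Fof, h.supp z hz]
  have h0 : ∀ z, 7 / 8 < ‖z‖ → al μ z = 0 ∧ be μ z = 0 := fun z hz => ⟨cF_al_zero h hz, cF_be_zero h hz⟩
  refine ⟨hfirst, fun k => cF_bel h2 h3 h4 h5 h6 hk h hN k, hthird, fun k => ?_, fun z => ?_⟩
  · obtain ⟨A, hA⟩ := cF_Ndiff h2 h3 h4 h5 (cF_al_cont hk h) (cF_be_cont hk h) h0 hN k
    have hNd : DifferentiableOn ℂ (fun z => N z k) {z | 7 / 8 < ‖z‖} := by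
      have hV := h5.2.2.2.2.1 _ {z : ℂ | 7 / 8 < ‖z‖} _ _ _ (subset_univ _) hA
      refine (h8 _ _ cF_open hV.f2 ?_).2 (cF_Ncont hN k).continuousOn
      intro φ hφ
      rw [hV.hB φ hφ]
      rw [neg_eq_zero]
      refine integral_eq_zero_of_ae (Eventually.of_forall fun z => ?_)
      by_cases hz : 7 / 8 < ‖z‖
      · simp [(h0 z hz).1, (h0 z hz).2]
      · have : φ z = 0 := by
          by_contra hne
          exact hz (hφ.2.2 (subset_tsupport _ hne))
        simp [this]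
    have hexp : DifferentiableOn ℂ (fun z : ℂ => exp (I * k * z)) {z | 7 / 8 < ‖z‖} := by fun_prop
    exact (hexp.mul hNd).congr fun z hz => hthird z k hz
  · -- `k = 0`
    obtain ⟨Ma, hMa0, hMa⟩ := cF_bdd (cF_al_cont hk h) fun z hz => cF_al_zero h hz
    obtain ⟨Mb, hMb0, hMb⟩ := cF_bdd (cF_be_cont hk h) fun z hz => cF_be_zero h hz
    obtain ⟨-, hun⟩ := h1 (max Ma Mb) (le_max_of_le_left hMa0) (al μ) (be μ) (cF_al_cont hk h).measurable
      (cF_be_cont hk h).measurable (fun z => ⟨(hMa z).trans (le_max_left _ _), (hMb z).trans (le_max_right _ _)⟩)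
      (fun z hz => h0 z (by linarith))
    have hek : ∀ ζ, ek 0 ζ = 1 := by intro ζ; simp [ek]
    have hμTF : TF univ (fun w => (μ w : ℂ)) := by
      refine ⟨cF_smC h, ?_, subset_univ _⟩
      refine HasCompactSupport.intro (isCompact_closedBall (0 : ℂ) (7 / 8)) fun w hw => ?_
      rw [mem_closedBall_zero_iff, not_le] at hw
      rw [h.supp w hw]
      simp
    have hN0 : ∀ z, N z 0 = c - (μ z : ℂ) * conj c := by
      refine hun (fun _ => c) _ _ (cF_Ncont hN 0) ?_ ?_ ?_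
      · have := (cF_smC h).continuous
        fun_prop
      · intro z
        rw [hN.eq z 0]
        simp only [hek, mul_one]
      · intro z
        have e1 : (fun ζ => al μ ζ * (c - (μ ζ : ℂ) * conj c) + be μ ζ * conj (c - (μ ζ : ℂ) * conj c)) =
            fun ζ => (-conj c) * db (fun w => (μ w : ℂ)) ζ := by
          funext ζ
          have hne := cF_ne hk h ζ
          simp only [al, be, map_sub, map_mul, conj_ofReal, conj_conj]
          field_simp
          ring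
        rw [e1]
        have e2 : Ct (fun ζ => (-conj c) * db (fun w => (μ w : ℂ)) ζ) z = (-conj c) * Ct (db (fun w => (μ w : ℂ))) z := by
          simp only [Ct]
          have : (fun ζ => (-conj c) * db (fun w => (μ w : ℂ)) ζ / (z - ζ)) =
              fun ζ => (-conj c) * (db (fun w => (μ w : ℂ)) ζ / (z - ζ)) := by
            funext ζ; ring
          rw [this, integral_const_mul]
          ring
        rw [e2, h7 _ hμTF z]
        ring
    have hne := cF_ne hk h z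
    simp only [Fof, hN0, mul_zero, zero_mul, exp_zero, one_mul, map_sub, map_mul, conj_ofReal, conj_conj]
    field_simp
    ring

end

end Cal
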