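import Pool.Agent.Lib.MP_4ea4c7_an.StmH4

/-!
# MP_4ea4c7_an, stage 2, piece [c12]: the coefficient `a^c` as a circle integral
-/

open MeasureTheory Complex Metric Set Filter Topology
open scoped ComplexConjugate ENNReal NNReal

namespace Cal

private lemma cac_ek_cont (k : ℂ) : Continuous (fun z => ek k z) := by
  unfold ek
  have h1 : Continuous (fun z : ℂ => conj (k * z)) := Complex.continuous_conj.comp (continuous_const.mul continuous_id)
  have h2 : Continuous (fun z : ℂ => k * z + conj (k * z)) := (continuous_const.mul continuous_id).add h1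
  exact Complex.continuous_exp.comp (continuous_const.mul h2).neg

private lemma cac_int (h : ℂ → ℂ) (hc : Continuous h) (hz : ∀ z, 7 / 8 < ‖z‖ → h z = 0) :
    IntegrableOn (fun p : ℝ × ℂ => deriv (circleMap 0 2) p.1 * (h p.2 / (circleMap 0 2 p.1 - p.2)))
      (Icc 0 (2 * Real.pi) ×ˢ (univ : Set ℂ)) (volume.prod volume) := by
  have hcm : Continuous (fun p : ℝ × ℂ => circleMap 0 2 p.1) := (continuous_circleMap 0 2).comp continuous_fst
  have hder : Continuous (fun p : ℝ × ℂ => deriv (circleMap 0 2) p.1) := by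
    have : (fun p : ℝ × ℂ => deriv (circleMap 0 2) p.1) = fun p => circleMap 0 2 p.1 * I := by
      funext p
      rw [deriv_circleMap]
    rw [this]
    exact hcm.mul continuous_const
  have h1 : IntegrableOn (fun p : ℝ × ℂ => deriv (circleMap 0 2) p.1 * (h p.2 / (circleMap 0 2 p.1 - p.2)))
      (Icc 0 (2 * Real.pi) ×ˢ closedBall (0 : ℂ) (7 / 8)) (volume.prod volume) := by
    apply ContinuousOn.integrableOn_compact
    · exact isCompact_Icc.prod (isCompact_closedBall _ _)
    · apply ContinuousOn.mul hder.continuousOn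
      apply ContinuousOn.div (hc.comp continuous_snd).continuousOn (hcm.sub continuous_snd).continuousOn
      rintro ⟨t, ζ⟩ ⟨_, hζ⟩ h0
      have h3 : ‖circleMap 0 2 t‖ = 2 := by
        simp [norm_circleMap_zero]
      have h4 : circleMap 0 2 t = ζ := sub_eq_zero.mp h0
      rw [h4] at h3
      have h5 : ‖ζ‖ ≤ 7 / 8 := by simpa using hζ
      linarith
  refine h1.of_forall_sdiff_eq_zero ?_ ?_
  · exact measurableSet_Icc.prod MeasurableSet.univ
  · rintro ⟨t, ζ⟩ ⟨⟨ht, _⟩, hn⟩
    have h5 : 7 / 8 < ‖ζ‖ := by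
      by_contra hcon
      apply hn
      refine ⟨ht, ?_⟩
      simp only [mem_closedBall, dist_zero_right]
      exact not_lt.mp hcon
    simp [hz ζ h5]

private lemma cac_swap (h : ℂ → ℂ) (hc : Continuous h) (hz : ∀ z, 7 / 8 < ‖z‖ → h z = 0) :
    ∮ z in C(0, 2), (∫ ζ, h ζ / (z - ζ)) = ∫ ζ, h ζ * (2 * (Real.pi : ℂ) * I) := by
  have hpi : (0 : ℝ) ≤ 2 * Real.pi := by positivity
  have h0 := cac_int h hc hz
  have h1 : IntegrableOn (fun p : ℝ × ℂ => deriv (circleMap 0 2) p.1 * (h p.2 / (circleMap 0 2 p.1 - p.2)))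
      (Ioc 0 (2 * Real.pi) ×ˢ (univ : Set ℂ)) (volume.prod volume) :=
    h0.mono_set (Set.prod_mono Ioc_subset_Icc_self (le_refl _))
  have h2 : Integrable (fun p : ℝ × ℂ => deriv (circleMap 0 2) p.1 * (h p.2 / (circleMap 0 2 p.1 - p.2)))
      ((volume.restrict (Ioc 0 (2 * Real.pi))).prod (volume : Measure ℂ)) := by
    have h3 := h1
    unfold IntegrableOn at h3
    rwa [← Measure.prod_restrict, Measure.restrict_univ] at h3
  have e1 : ∮ z in C(0, 2), (∫ ζ, h ζ / (z - ζ)) =
      ∫ t in Ioc 0 (2 * Real.pi), ∫ ζ, deriv (circleMap 0 2) t * (h ζ / (circleMap 0 2 t - ζ)) := by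
    unfold circleIntegral
    rw [intervalIntegral.integral_of_le hpi]
    apply integral_congr_ae
    filter_upwards with t
    simp only [smul_eq_mul]
    rw [integral_const_mul]
  rw [e1, integral_integral_swap h2]
  apply integral_congr_ae
  filter_upwards with ζ
  by_cases hζ : 7 / 8 < ‖ζ‖
  · simp [hz ζ hζ]
  · have hζ' : ζ ∈ ball (0 : ℂ) 2 := by
      simp only [mem_ball, dist_zero_right]
      have := not_lt.mp hζ
      linarith
    have h3 := circleIntegral.integral_sub_inv_of_mem_ball hζ'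
    have h4 : (∫ t in Ioc 0 (2 * Real.pi), deriv (circleMap 0 2) t * (h ζ / (circleMap 0 2 t - ζ))) =
        h ζ * ∮ z in C(0, 2), (z - ζ)⁻¹ := by
      unfold circleIntegral
      rw [intervalIntegral.integral_of_le hpi, ← integral_const_mul]
      apply integral_congr_ae
      filter_upwards with t
      simp only [smul_eq_mul]
      rw [div_eq_mul_inv]
      ring
    rw [h4, h3]

theorem piece_cac (_h1 : S_C4) : S_cac := by
  intro a b c N ha hb hz hN k
  set h : ℂ → ℂ := fun ζ => a ζ * N ζ k + b ζ * ek k ζ * conj (N ζ k) with hdef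
  have hNc : Continuous (fun ζ => N ζ k) := hN.cont.comp (continuous_id.prodMk continuous_const)
  have hc : Continuous h := by
    have h1 : Continuous (fun ζ => conj (N ζ k)) := Complex.continuous_conj.comp hNc
    exact (ha.mul hNc).add ((hb.mul (cac_ek_cont k)).mul h1)
  have hz' : ∀ z, 7 / 8 < ‖z‖ → h z = 0 := by
    intro z hzz
    obtain ⟨h1, h2⟩ := hz z hzz
    simp [hdef, h1, h2]
  have hpi : (Real.pi : ℂ) ≠ 0 := by
    exact_mod_cast Real.pi_ne_zero
  have hI : (∫ ζ, h ζ) = (Real.pi : ℂ) * an a b N k := by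
    unfold an
    rw [← hdef]
    field_simp
  have e1 : ∀ z, N z k = c + (1 / (Real.pi : ℂ)) * ∫ ζ, h ζ / (z - ζ) := fun z => hN.eq z k
  have hcI : Continuous (fun z => (∫ ζ, h ζ / (z - ζ))) := by
    have h1 : (fun z => (∫ ζ, h ζ / (z - ζ))) = fun z => (Real.pi : ℂ) * (N z k - c) := by
      funext z
      rw [e1 z]
      field_simp
      ring
    rw [h1]
    exact continuous_const.mul (hNc.sub continuous_const)
  have e2 : ∮ z in C(0, 2), N z k = ∮ z in C(0, 2), (c + (1 / (Real.pi : ℂ)) * ∫ ζ, h ζ / (z - ζ)) := by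
    congr 1
    funext z
    exact e1 z
  have e3 : ∮ z in C(0, 2), (c : ℂ) = 0 := by
    have := Complex.circleIntegral_eq_zero_of_differentiable_on_off_countable (c := (0 : ℂ)) (R := 2) (f := fun _ => c) (s := ∅)
      (by norm_num) Set.countable_empty continuous_const.continuousOn (fun z _ => differentiableAt_const c)
    exact this
  have e4 : ∮ z in C(0, 2), (c + (1 / (Real.pi : ℂ)) * ∫ ζ, h ζ / (z - ζ)) =
      (∮ z in C(0, 2), (c : ℂ)) + ∮ z in C(0, 2), (1 / (Real.pi : ℂ)) * ∫ ζ, h ζ / (z - ζ) := by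
    apply circleIntegral.integral_add
    · exact continuous_const.continuousOn.circleIntegrable (by norm_num)
    · exact (continuous_const.mul hcI).continuousOn.circleIntegrable (by norm_num)
  have e5 : ∮ z in C(0, 2), (1 / (Real.pi : ℂ)) * ∫ ζ, h ζ / (z - ζ) =
      (1 / (Real.pi : ℂ)) * ∮ z in C(0, 2), ∫ ζ, h ζ / (z - ζ) := by
    have := circleIntegral.integral_smul (1 / (Real.pi : ℂ)) (fun z => ∫ ζ, h ζ / (z - ζ)) 0 2
    simpa only [smul_eq_mul] using this
  rw [e2, e4, e3, e5, cac_swap h hc hz', integral_mul_const, hI]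
  have hI0 : I ≠ 0 := Complex.I_ne_zero
  field_simp
  ring

end Cal
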