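import Pool.Agent.Lib.MP_4ea4c7_an.StmH4

open MeasureTheory Complex Metric Set Filter Topology
open scoped ComplexConjugate ENNReal NNReal

namespace Cal

noncomputable section

private theorem calg_log (w : ℂ) : ‖Complex.log w‖ ≤ |Real.log ‖w‖| + Real.pi := by
  have h1 := Complex.norm_le_abs_re_add_abs_im (Complex.log w)
  rw [Complex.log_re, Complex.log_im] at h1
  have h2 := Complex.abs_arg_le_pi w
  linarith

private theorem calg_norm (x y : ℂ) (hx : x ≠ 0) :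
    ‖x - I * y‖ ^ 2 - ‖x + I * y‖ ^ 2 = 4 * ‖x‖ ^ 2 * (y / x).im := by
  have h1 : y = x * (y / x) := by field_simp
  set e := y / x with he
  have h2 : x - I * y = x * (1 - I * e) := by rw [h1]; ring
  have h3 : x + I * y = x * (1 + I * e) := by rw [h1]; ring
  rw [h2, h3, norm_mul, norm_mul, mul_pow, mul_pow, ← Complex.normSq_eq_norm_sq (1 - I * e),
    ← Complex.normSq_eq_norm_sq (1 + I * e), Complex.normSq_apply, Complex.normSq_apply]
  simp
  ring

private theorem calg_min (p r x y : ℂ) (m : ℝ) (hp : p = x + I * y) (hr : r = x - I * y)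
    (hpr : ‖p‖ < ‖r‖) (hc : ∀ c : ℂ, ‖c‖ = 1 → m ≤ ‖(c.re : ℂ) * x + (c.im : ℂ) * y‖) :
    m ≤ (‖r‖ - ‖p‖) / 2 := by
  have hr0 : 0 < ‖r‖ := (norm_nonneg p).trans_lt hpr
  have hr1 : r ≠ 0 := norm_pos_iff.1 hr0
  have key : ∀ c : ℂ, (c.re : ℂ) * x + (c.im : ℂ) * y = (conj c * p + c * r) / 2 := by
    intro c
    rw [hp, hr]
    have h1 : conj c = (c.re : ℂ) - (c.im : ℂ) * I := by
      apply Complex.ext <;> simp
    have h2 : c = (c.re : ℂ) + (c.im : ℂ) * I := (re_add_im c).symm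
    rw [h1]
    nth_rewrite 5 [h2]
    linear_combination ((c.im : ℂ) * y) * I_sq
  by_cases hp0 : p = 0
  · have h1 := hc 1 (by simp)
    rw [key 1, hp0] at h1
    simp only [map_one, one_mul, zero_add, norm_div] at h1
    rw [hp0, norm_zero, sub_zero]
    simpa using h1
  · have hpn : 0 < ‖p‖ := norm_pos_iff.2 hp0
    let u : ℂ := -(p / r) * ((‖r‖ / ‖p‖ : ℝ) : ℂ)
    have hu : ‖u‖ = 1 := by
      simp only [u]
      rw [norm_mul, norm_neg, norm_div, norm_real, Real.norm_eq_abs, abs_of_pos (by positivity)]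
      field_simp
    have hu0 : u ≠ 0 := by
      intro h
      rw [h, norm_zero] at hu
      exact zero_ne_one hu
    let c : ℂ := exp (log u / 2)
    have hc2 : c * c = u := by
      simp only [c]
      rw [← exp_add, add_halves, exp_log hu0]
    have hcn : ‖c‖ = 1 := by
      have h1 : ‖c‖ * ‖c‖ = 1 := by rw [← norm_mul, hc2, hu]
      nlinarith [norm_nonneg c]
    have hcc : conj c * c = 1 := by
      rw [mul_comm, mul_conj, Complex.normSq_eq_norm_sq, hcn]
      simp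
    have h1 := hc c hcn
    rw [key c] at h1
    have h2 : p * ((‖r‖ / ‖p‖ : ℝ) : ℂ) = - (c * c) * r := by
      rw [hc2]
      simp only [u]
      field_simp
    have h3 : conj c * p = - ((‖p‖ / ‖r‖ : ℝ) : ℂ) * (c * r) := by
      have h4 : ((‖p‖ / ‖r‖ : ℝ) : ℂ) * ((‖r‖ / ‖p‖ : ℝ) : ℂ) = 1 := by
        rw [← ofReal_mul]
        have : ‖p‖ / ‖r‖ * (‖r‖ / ‖p‖) = 1 := by field_simp
        rw [this, ofReal_one]
      linear_combination (- conj c * p) * h4 + (conj c * ((‖p‖ / ‖r‖ : ℝ) : ℂ)) * h2 -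
        (((‖p‖ / ‖r‖ : ℝ) : ℂ) * c * r) * hcc
    rw [h3] at h1
    have h5 : (-((‖p‖ / ‖r‖ : ℝ) : ℂ) * (c * r) + c * r) / 2 =
        (((1 - ‖p‖ / ‖r‖) / 2 : ℝ) : ℂ) * (c * r) := by
      push_cast
      ring
    rw [h5, norm_mul, norm_mul, hcn, one_mul, norm_real, Real.norm_eq_abs, abs_of_pos (by
      have : ‖p‖ / ‖r‖ < 1 := (div_lt_one hr0).2 hpr
      linarith)] at h1
    have h6 : (1 - ‖p‖ / ‖r‖) / 2 * ‖r‖ = (‖r‖ - ‖p‖) / 2 := by field_simp
    rwa [h6] at h1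

private theorem calg_aux (x y G : ℂ) (θ m : ℝ) (hG : exp G = x) (him : 0 < (y / x).im)
    (hθ0 : 0 ≤ θ) (hθ1 : θ ≤ Real.pi / 2) (hm : 0 < m)
    (hc : ∀ c : ℂ, ‖c‖ = 1 → m ≤ ‖(c.re : ℂ) * x + (c.im : ℂ) * y‖) (L : ℂ)
    (hL : L = -(I * (θ : ℂ)) - (Real.log 2 : ℂ) + G + Complex.log (1 - I * (y / x)) +
      Complex.log (1 + exp (2 * I * (θ : ℂ)) * conj (x + I * y) / (x - I * y))) :
    exp L = (((exp (-(I * θ)) * x).re : ℝ) : ℂ) - I * (((exp (-(I * θ)) * y).re : ℝ) : ℂ) ∧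
    m ≤ ‖exp L‖ ∧ ‖x + I * y‖ < ‖x - I * y‖ ∧ 1 ≤ (1 - I * (y / x)).re ∧
    0 < (1 + exp (2 * I * (θ : ℂ)) * conj (x + I * y) / (x - I * y)).re ∧
    ‖L - G‖ ≤ 10 + Real.log (1 + ‖y‖ / ‖x‖) + Real.log ((‖x‖ + ‖y‖) / m) := by
  have hx : x ≠ 0 := hG ▸ exp_ne_zero G
  have hx0 : 0 < ‖x‖ := norm_pos_iff.2 hx
  have hpr : ‖x + I * y‖ < ‖x - I * y‖ := by
    have h1 := calg_norm x y hx
    have h2 : 0 < 4 * ‖x‖ ^ 2 * (y / x).im := by positivity
    exact lt_of_pow_lt_pow_left₀ 2 (norm_nonneg _) (by linarith)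
  have hr0 : 0 < ‖x - I * y‖ := (norm_nonneg _).trans_lt hpr
  have hr1 : x - I * y ≠ 0 := norm_pos_iff.1 hr0
  have hmin := calg_min _ _ x y m rfl rfl hpr hc
  have hre : (1 - I * (y / x)).re = 1 + (y / x).im := by simp
  have hE : ‖exp (2 * I * (θ : ℂ))‖ = 1 := by
    have : (2 * I * (θ : ℂ)) = ((2 * θ : ℝ) : ℂ) * I := by push_cast; ring
    rw [this, norm_exp_ofReal_mul_I]
  set q : ℂ := exp (2 * I * (θ : ℂ)) * conj (x + I * y) / (x - I * y) with hq
  have hqn : ‖q‖ = ‖x + I * y‖ / ‖x - I * y‖ := by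
    rw [hq, norm_div, norm_mul, hE, one_mul, RCLike.norm_conj]
  have hq1 : ‖q‖ < 1 := by rw [hqn]; exact (div_lt_one hr0).2 hpr
  have hqre : 0 < (1 + q).re := by
    have h1 := Complex.abs_re_le_norm q
    rw [abs_le] at h1
    simp only [add_re, one_re]
    linarith
  have h1q : 1 + q ≠ 0 := by
    intro h
    rw [h] at hqre
    simp at hqre
  have h1e : 1 - I * (y / x) ≠ 0 := by
    intro h
    rw [h] at hre
    simp only [zero_re] at hre
    linarith
  have hexp : exp L = (exp (-(I * (θ : ℂ))) * (x - I * y) +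
      exp (I * (θ : ℂ)) * conj (x + I * y)) / 2 := by
    rw [hL, exp_add, exp_add, exp_add, exp_sub, exp_log h1e, exp_log h1q, hG, ← ofReal_exp,
      Real.exp_log (by norm_num), hq]
    have h2 : exp (2 * I * (θ : ℂ)) = exp (I * (θ : ℂ)) * exp (I * (θ : ℂ)) := by
      rw [← exp_add]; congr 1; ring
    have h3 : exp (-(I * (θ : ℂ))) * exp (I * (θ : ℂ)) = 1 := by
      rw [← exp_add, neg_add_cancel, exp_zero]
    rw [h2]
    field_simp
    push_cast
    linear_combination (exp (I * (θ : ℂ)) * conj (x + I * y) * 2) * h3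
  have hUre : exp L = (((exp (-(I * θ)) * x).re : ℝ) : ℂ) -
      I * (((exp (-(I * θ)) * y).re : ℝ) : ℂ) := by
    have h4 : ∀ w : ℂ, (((exp (-(I * θ)) * w).re : ℝ) : ℂ) =
        (exp (-(I * (θ : ℂ))) * w + exp (I * (θ : ℂ)) * conj w) / 2 := by
      intro w
      rw [re_eq_add_conj, map_mul, ← exp_conj, map_neg, map_mul, conj_I, conj_ofReal]
      congr 4
      ring
    rw [h4, h4, hexp, map_add, map_mul, conj_I]
    ring
  have hmU : (‖x - I * y‖ - ‖x + I * y‖) / 2 ≤ ‖exp L‖ := by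
    have h5 : ‖exp (-(I * (θ : ℂ)))‖ = 1 := by
      have : -(I * (θ : ℂ)) = ((-θ : ℝ) : ℂ) * I := by push_cast; ring
      rw [this, norm_exp_ofReal_mul_I]
    have h6 : ‖exp (I * (θ : ℂ))‖ = 1 := by rw [mul_comm, norm_exp_ofReal_mul_I]
    have h7 : ‖exp (-(I * (θ : ℂ))) * (x - I * y)‖ - ‖exp (I * (θ : ℂ)) * conj (x + I * y)‖ ≤
        ‖exp (-(I * (θ : ℂ))) * (x - I * y) + exp (I * (θ : ℂ)) * conj (x + I * y)‖ := by
      have := norm_sub_le (exp (-(I * (θ : ℂ))) * (x - I * y) +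
        exp (I * (θ : ℂ)) * conj (x + I * y)) (exp (I * (θ : ℂ)) * conj (x + I * y))
      rw [add_sub_cancel_right] at this
      linarith
    rw [norm_mul, norm_mul, h5, h6, one_mul, one_mul, RCLike.norm_conj] at h7
    rw [hexp, norm_div]
    simp only [norm_ofNat]
    linarith
  refine ⟨hUre, hmin.trans hmU, hpr, by rw [hre]; linarith, hqre, ?_⟩
  -- the bound of the logarithm
  have hLG : L - G = -(I * (θ : ℂ)) - (Real.log 2 : ℂ) + Complex.log (1 - I * (y / x)) +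
      Complex.log (1 + q) := by rw [hL]; ring
  have hrn : ‖x - I * y‖ ≤ ‖x‖ + ‖y‖ := by
    have := norm_sub_le x (I * y)
    rwa [norm_mul, norm_I, one_mul] at this
  have b1 : ‖-(I * (θ : ℂ))‖ ≤ 2 := by
    rw [norm_neg, norm_mul, norm_I, one_mul, norm_real, Real.norm_eq_abs, abs_of_nonneg hθ0]
    linarith [Real.pi_lt_four]
  have b2 : ‖(Real.log 2 : ℂ)‖ ≤ 1 := by
    rw [norm_real, Real.norm_eq_abs, abs_of_pos (Real.log_pos (by norm_num))]
    linarith [Real.log_two_lt_d9]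
  have b3 : ‖Complex.log (1 - I * (y / x))‖ ≤ Real.log (1 + ‖y‖ / ‖x‖) + Real.pi := by
    have h8 : (1 : ℝ) ≤ ‖1 - I * (y / x)‖ := by
      have := Complex.re_le_norm (1 - I * (y / x))
      rw [hre] at this
      linarith
    have h9 : ‖1 - I * (y / x)‖ ≤ 1 + ‖y‖ / ‖x‖ := by
      have := norm_sub_le (1 : ℂ) (I * (y / x))
      rwa [norm_mul, norm_I, one_mul, norm_one, norm_div] at this
    have h10 := calg_log (1 - I * (y / x))
    rw [abs_of_nonneg (Real.log_nonneg h8)] at h10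
    have h11 := Real.log_le_log (by linarith) h9
    linarith
  have b4 : ‖Complex.log (1 + q)‖ ≤ Real.log ((‖x‖ + ‖y‖) / m) + Real.pi := by
    have h12 := calg_log (1 + q)
    have hS : 2 * m ≤ ‖x‖ + ‖y‖ := by
      have := norm_nonneg (x + I * y)
      linarith
    have h2m : (2 : ℝ) ≤ (‖x‖ + ‖y‖) / m := by
      rw [le_div_iff₀ hm]; exact hS
    have h13 : ‖1 + q‖ ≤ (‖x‖ + ‖y‖) / m := by
      have := norm_add_le (1 : ℂ) q
      rw [norm_one] at this
      linarith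
    have h14 : ((‖x‖ + ‖y‖) / m)⁻¹ ≤ ‖1 + q‖ := by
      have h15 : 1 - ‖q‖ ≤ ‖1 + q‖ := by
        have := norm_sub_le (1 + q) q
        rw [add_sub_cancel_right, norm_one] at this
        linarith
      have h16 : m / (‖x‖ + ‖y‖) ≤ 1 - ‖q‖ := by
        rw [hqn]
        have h17 : m / (‖x‖ + ‖y‖) ≤ m / ‖x - I * y‖ :=
          div_le_div_of_nonneg_left hm.le hr0 hrn
        have h18 : 1 - ‖x + I * y‖ / ‖x - I * y‖ = (‖x - I * y‖ - ‖x + I * y‖) / ‖x - I * y‖ := by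
          field_simp
        rw [h18]
        refine h17.trans ?_
        gcongr
        linarith
      rw [inv_div]
      linarith
    have hpos : 0 < (‖x‖ + ‖y‖) / m := by linarith
    have h19 : |Real.log ‖1 + q‖| ≤ Real.log ((‖x‖ + ‖y‖) / m) := by
      rw [abs_le]
      constructor
      · rw [← Real.log_inv]
        exact Real.log_le_log (inv_pos.2 hpos) h14
      · exact Real.log_le_log (norm_pos_iff.2 h1q) h13
    linarith
  rw [hLG]
  have t1 := norm_add_le (-(I * (θ : ℂ)) - (Real.log 2 : ℂ) + Complex.log (1 - I * (y / x)))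
    (Complex.log (1 + q))
  have t2 := norm_add_le (-(I * (θ : ℂ)) - (Real.log 2 : ℂ)) (Complex.log (1 - I * (y / x)))
  have t3 := norm_sub_le (-(I * (θ : ℂ))) (Real.log 2 : ℂ)
  have t4 : Real.pi ≤ 3.5 := by linarith [Real.pi_lt_d2]
  linarith

theorem piece_calg : S_calg := by
  intro X Y g z k θ m hg him hθ0 hθ1 hm hc
  exact calg_aux (X z k) (Y z k) (g z k) θ m hg him hθ0 hθ1 hm hc _ rfl

end

end Cal
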