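import Pool.Agent.Lib.MP_4ea4c7_an.StmH4

open MeasureTheory Complex Metric Set Filter Topology
open scoped ComplexConjugate ENNReal NNReal

namespace Cal

noncomputable section

private theorem capri_dz_exp (w : ℂ) : dz (fun w => exp (-w)) w = -exp (-w) := by
  have h : HasDerivAt (fun w : ℂ => exp (-w)) (-exp (-w)) w := by
    simpa using (hasDerivAt_id w).neg.cexp
  have h2 := (h.hasFDerivAt.restrictScalars ℝ).fderiv
  unfold dz
  rw [h2]
  simp
  ring_nf
  rw [I_sq]
  ring

private theorem capri_db_exp (w : ℂ) : db (fun w => exp (-w)) w = 0 := by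
  have h : HasDerivAt (fun w : ℂ => exp (-w)) (-exp (-w)) w := by
    simpa using (hasDerivAt_id w).neg.cexp
  have h2 := (h.hasFDerivAt.restrictScalars ℝ).fderiv
  unfold db
  rw [h2]
  simp
  ring_nf
  rw [I_sq]
  ring

private theorem capri_div (m : ℂ) : ‖conj m / m‖ ≤ 1 := by
  rw [norm_div, RCLike.norm_conj]
  exact div_self_le_one _

theorem piece_capri (h1 : S_C4) (h2 : S_C3b) (h3 : S_chain) (h4 : S_prod) (h5 : S_smooth) (h6 : S_basic)
    (h7 : S_uniq) (h8 : S_wuniq) : S_capri := by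
  obtain ⟨C4, hC4, hC⟩ := h1
  intro M0 hM0
  set E := Real.exp (2 * C4 * M0) with hE
  have hE0 : 0 < E := Real.exp_pos _
  refine ⟨1 + E * (C4 * (E * (2 * M0))), by positivity, ?_⟩
  intro a b h N H ha hb hab hab0 hh hhH hN hNeq
  have hH : 0 ≤ H := le_trans (norm_nonneg _) (hhH 0)
  -- the inhomogeneity
  set G : ℂ → ℂ := fun ζ => a ζ * N ζ + b ζ * conj (N ζ) with hG
  have hGm : Measurable G := by
    have : Measurable N := hN.measurable
    have h' : Measurable fun ζ => conj (N ζ) := (continuous_conj.comp hN).measurable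
    exact (ha.mul this).add (hb.mul h')
  have hG0 : ∀ z, 5 / 4 < ‖z‖ → G z = 0 := by
    intro z hz
    obtain ⟨e1, e2⟩ := hab0 z hz
    simp [hG, e1, e2]
  obtain ⟨K, hK⟩ := (isCompact_closedBall (0 : ℂ) (5 / 4)).exists_bound_of_continuousOn hN.continuousOn
  have hK0 : 0 ≤ K := le_trans (norm_nonneg _) (hK 0 (by simp; norm_num))
  have hGb : ∀ z, ‖G z‖ ≤ M0 * K + M0 * K := by
    intro z
    by_cases hz : 5 / 4 < ‖z‖
    · rw [hG0 z hz, norm_zero]; positivity
    · have hz' : ‖N z‖ ≤ K := hK z (by simpa using not_lt.mp hz)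
      calc ‖G z‖ ≤ ‖a z * N z‖ + ‖b z * conj (N z)‖ := norm_add_le _ _
        _ = ‖a z‖ * ‖N z‖ + ‖b z‖ * ‖N z‖ := by rw [norm_mul, norm_mul, RCLike.norm_conj]
        _ ≤ _ := by
          gcongr
          · exact (hab z).1
          · exact (hab z).2
  obtain ⟨hGc, hGd, hGW⟩ := hC G _ hGm.aestronglyMeasurable hGb hG0
  obtain ⟨A, -, hWG, -⟩ := h2 G hGW
  set M : ℂ → ℂ := Ct G with hM
  have hNM : ∀ z, N z = h z + M z := hNeq
  -- the coefficient
  set c : ℂ → ℂ := fun ζ => a ζ + b ζ * (conj (M ζ) / M ζ) with hc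
  have hcm : Measurable c := by
    have e1 : Measurable M := hGc.measurable
    have e2 : Measurable fun ζ => conj (M ζ) := (continuous_conj.comp hGc).measurable
    exact ha.add (hb.mul (e2.div e1))
  have hcb : ∀ z, ‖c z‖ ≤ 2 * M0 := by
    intro z
    calc ‖c z‖ ≤ ‖a z‖ + ‖b z * (conj (M z) / M z)‖ := norm_add_le _ _
      _ = ‖a z‖ + ‖b z‖ * ‖conj (M z) / M z‖ := by rw [norm_mul]
      _ ≤ M0 + M0 * 1 := by
        gcongr
        · exact (hab z).1
        · exact (hab z).2
        · exact capri_div _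
      _ = 2 * M0 := by ring
  have hc0 : ∀ z, 5 / 4 < ‖z‖ → c z = 0 := by
    intro z hz
    obtain ⟨e1, e2⟩ := hab0 z hz
    simp [hc, e1, e2]
  obtain ⟨hec, hed, hcW⟩ := hC c _ hcm.aestronglyMeasurable hcb hc0
  obtain ⟨A', -, hWc, -⟩ := h2 c hcW
  set e : ℂ → ℂ := Ct c with he
  have heb : ∀ z, ‖e z‖ ≤ 2 * C4 * M0 := by
    intro z
    refine (hed z).trans ?_
    rw [div_le_iff₀ (by positivity)]
    have : 0 ≤ C4 * (2 * M0) := by positivity
    nlinarith [norm_nonneg z]
  have hEb : ∀ z, ‖exp (-e z)‖ ≤ E := by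
    intro z
    rw [norm_exp, hE]
    apply Real.exp_le_exp.mpr
    refine le_trans (le_trans (le_abs_self _) (abs_re_le_norm _)) ?_
    rw [norm_neg]; exact heb z
  have hEb' : ∀ z, ‖exp (e z)‖ ≤ E := by
    intro z
    rw [norm_exp, hE]
    apply Real.exp_le_exp.mpr
    exact le_trans (le_trans (le_abs_self _) (abs_re_le_norm _)) (heb z)
  -- chain and product
  have hch := h3 univ univ e A' c (fun w => exp (-w)) isOpen_univ isOpen_univ hWc hec.continuousOn
    (mapsTo_univ _ _) ((contDiff_neg.cexp).contDiffOn)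
  have hpr := h4 univ _ _ _ M A G isOpen_univ hch
    (continuous_exp.comp hec.neg).continuousOn hWG hGc.continuousOn
  set H' : ℂ → ℂ := fun z => a z * h z + b z * conj (h z) with hH'
  have hGc' : ∀ z, G z = c z * M z + H' z := by
    intro z
    simp only [hG, hc, hH']
    rw [hNM z]
    by_cases hz : M z = 0
    · simp [hz]
    · rw [map_add]
      field_simp
      ring
  set B : ℂ → ℂ := fun z => exp (-e z) * H' z with hB
  have hBeq : (fun z => (dz (fun w => exp (-w)) (e z) * c z + db (fun w => exp (-w)) (e z) * conj (A' z)) * M z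
      + exp (-e z) * G z) = B := by
    funext z
    rw [capri_dz_exp, capri_db_exp, hGc' z]
    simp only [hB]
    ring
  rw [hBeq] at hpr
  have hH'0 : ∀ z, 5 / 4 < ‖z‖ → H' z = 0 := by
    intro z hz
    obtain ⟨e1, e2⟩ := hab0 z hz
    simp [hH', e1, e2]
  have hH'b : ∀ z, ‖H' z‖ ≤ 2 * M0 * H := by
    intro z
    calc ‖H' z‖ ≤ ‖a z * h z‖ + ‖b z * conj (h z)‖ := norm_add_le _ _
      _ = ‖a z‖ * ‖h z‖ + ‖b z‖ * ‖h z‖ := by rw [norm_mul, norm_mul, RCLike.norm_conj]
      _ ≤ M0 * H + M0 * H := by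
        gcongr
        · exact (hab z).1
        · exact hhH z
        · exact (hab z).2
        · exact hhH z
      _ = _ := by ring
  have hB0 : ∀ z, 5 / 4 < ‖z‖ → B z = 0 := by
    intro z hz
    simp [hB, hH'0 z hz]
  have hBb : ∀ z, ‖B z‖ ≤ E * (2 * M0 * H) := by
    intro z
    rw [hB]
    simp only [norm_mul]
    gcongr
    · exact hEb z
    · exact hH'b z
  have hBm : Measurable B := by
    have e1 : Measurable h := hh.measurable
    have e2 : Measurable fun ζ => conj (h ζ) := (continuous_conj.comp hh).measurable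
    have e3 : Measurable fun z => exp (-e z) := (continuous_exp.comp hec.neg).measurable
    exact e3.mul ((ha.mul e1).add (hb.mul e2))
  obtain ⟨hBc, hBd, -⟩ := hC B _ hBm.aestronglyMeasurable hBb hB0
  have hDec : Dec (fun z => exp (-e z) * M z) := by
    refine ⟨E * (C4 * (M0 * K + M0 * K)), ?_⟩
    intro z hz
    rw [norm_mul]
    have hz0 : 0 < ‖z‖ := by linarith
    have h9 : ‖M z‖ ≤ C4 * (M0 * K + M0 * K) / ‖z‖ := by
      refine (hGd z).trans ?_
      apply div_le_div_of_nonneg_left (by positivity) hz0 (by linarith)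
    calc ‖exp (-e z)‖ * ‖M z‖ ≤ E * (C4 * (M0 * K + M0 * K) / ‖z‖) := by
          gcongr
          exact hEb z
      _ = _ := by ring
  obtain ⟨hu, -⟩ := h7 _ _ _ hpr (Eventually.of_forall hB0) hDec
  have hBif : (fun z => if 5 / 4 < ‖z‖ then 0 else B z) = B := by
    funext z
    by_cases hz : 5 / 4 < ‖z‖
    · simp [hz, hB0 z hz]
    · simp [hz]
  rw [hBif] at hu
  have hvc : Continuous (fun z => exp (-e z) * M z) := (continuous_exp.comp hec.neg).mul hGc
  have hv : (fun z => exp (-e z) * M z) = Ct B := (Continuous.ae_eq_iff_eq volume hvc hBc).mp hu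
  intro z
  have hvz : ‖exp (-e z) * M z‖ ≤ C4 * (E * (2 * M0 * H)) := by
    have : exp (-e z) * M z = Ct B z := congrFun hv z
    rw [this]
    refine (hBd z).trans ?_
    rw [div_le_iff₀ (by positivity)]
    have : 0 ≤ C4 * (E * (2 * M0 * H)) := by positivity
    nlinarith [norm_nonneg z]
  have hMz : ‖M z‖ ≤ E * (C4 * (E * (2 * M0 * H))) := by
    have : M z = exp (e z) * (exp (-e z) * M z) := by
      rw [← mul_assoc, ← exp_add]; simp
    rw [this, norm_mul]
    gcongr
    exact hEb' z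
  calc ‖N z‖ = ‖h z + M z‖ := by rw [hNM z]
    _ ≤ ‖h z‖ + ‖M z‖ := norm_add_le _ _
    _ ≤ H + E * (C4 * (E * (2 * M0 * H))) := add_le_add (hhH z) hMz
    _ = _ := by ring

end

end Cal
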