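import Pool.Agent.Lib.MP_4ea4c7_an.StmH4

/-! MP_4ea4c7_an, stage 2, piece cbd: bounds independent of the ellipticity. -/

open MeasureTheory Complex Metric Set Filter Topology
open scoped ComplexConjugate ENNReal NNReal

namespace Cal

noncomputable section

namespace PCbd

theorem wd_log (h1 : S_bwlog) (h6 : S_basic) (F D A B : ℂ → ℂ) (k c : ℂ) (hc : c ≠ 0)
    (hD : Continuous D) (hFe : ∀ z, F z = c * exp (I * k * z + D z)) (hw : WD univ F A B) :
    WD univ (fun z => I * k * z + D z) (fun z => A z / F z) (fun z => B z / F z) := by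
  obtain ⟨_, hmul, _⟩ := h6
  have e : (fun z => c⁻¹ * F z) = fun z => exp (I * k * z + D z) := by
    funext z
    rw [hFe z, ← mul_assoc, inv_mul_cancel₀ hc, one_mul]
  have w1 := hmul univ F A B c⁻¹ hw
  rw [e] at w1
  have w2 := h1 univ (fun z => I * k * z + D z) _ _ isOpen_univ
    (by
      apply Continuous.continuousOn
      fun_prop) w1
  have eA : (fun z => A z / F z) = fun z => c⁻¹ * A z / exp (I * k * z + D z) := by
    funext z
    rw [hFe z, ← div_div, div_eq_mul_inv (A z) c, mul_comm (A z)]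
  have eB : (fun z => B z / F z) = fun z => c⁻¹ * B z / exp (I * k * z + D z) := by
    funext z
    rw [hFe z, ← div_div, div_eq_mul_inv (B z) c, mul_comm (B z)]
  rw [eA, eB]
  exact w2

theorem wd_D (h5 : S_smooth) (h6 : S_basic) (D A B : ℂ → ℂ) (k : ℂ)
    (hw : WD univ (fun z => I * k * z + D z) A B) :
    WD univ D (fun z => A z - I * k) B := by
  obtain ⟨hadd, _⟩ := h6
  have hd : ∀ z : ℂ, HasDerivAt (fun z : ℂ => -(I * k * z)) (-(I * k)) z := by
    intro z
    have h : HasDerivAt (fun z : ℂ => -(I * k * z)) (-(I * k * 1)) z :=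
      ((hasDerivAt_id z).const_mul (I * k)).neg
    rwa [mul_one] at h
  have w1 := h5.2.1 univ (fun z : ℂ => -(I * k * z)) isOpen_univ
    (fun z _ => (hd z).differentiableAt.differentiableWithinAt)
  have e1 : deriv (fun z : ℂ => -(I * k * z)) = fun _ => -(I * k) := by
    funext z
    exact (hd z).deriv
  rw [e1] at w1
  have w2 := hadd univ _ _ _ _ _ _ hw w1
  have eD : (fun z => (I * k * z + D z) + -(I * k * z)) = D := by
    funext z
    ring
  have eA : (fun z => A z + -(I * k)) = fun z => A z - I * k := by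
    funext z
    ring
  have eB : (fun z => B z + 0) = B := by
    funext z
    ring
  rw [eD, eA, eB] at w2
  exact w2

end PCbd

open PCbd in
theorem piece_cbd (h1 : S_bwlog) (h2 : S_barea) (h3 : S_bext) (h4 : S_amp) (h5 : S_smooth)
    (h6 : S_basic) (h7 : S_wuniq) : S_cbd := by
  intro μ F D k c _ hμ1 hμ0 hc hF hD hFe hDh hDec
  have hc0 : c ≠ 0 := by
    intro h
    rw [h, norm_zero] at hc
    exact zero_ne_one hc
  have hFne : ∀ z, F z ≠ 0 := fun z => by
    rw [hFe z]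
    exact mul_ne_zero hc0 (exp_ne_zero _)
  obtain ⟨A0, B0, hw0, hB0⟩ := hF
  -- the equation for all weak derivatives
  have heq : ∀ A B : ℂ → ℂ, WD univ F A B → ∀ᵐ z : ℂ, ‖B z‖ = |μ z| * ‖A z‖ := by
    intro A B hw
    obtain ⟨eA, eB⟩ := h7 univ F A B F A0 B0 isOpen_univ hw hw0 (Filter.EventuallyEq.refl _ _)
    rw [Measure.restrict_univ] at eA eB hB0
    filter_upwards [eA, eB, hB0] with z e1 e2 e3
    rw [e2, e3, e1, norm_mul, Complex.norm_conj, Complex.norm_real, Real.norm_eq_abs]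
  -- the area identity
  have harea : ∀ A B : ℂ → ℂ, WD univ F A B → ∀ r : ℝ, 7 / 8 < r →
      IntegrableOn (fun z => (‖A z‖ ^ 2 - ‖B z‖ ^ 2) / ‖F z‖ ^ 2) (ball 0 r) volume ∧
      IntegrableOn (fun z => ‖deriv D z‖ ^ 2) {z : ℂ | r < ‖z‖} volume ∧
      ∫ z in ball (0 : ℂ) r, (‖A z‖ ^ 2 - ‖B z‖ ^ 2) / ‖F z‖ ^ 2 =
        Real.pi * ‖k‖ ^ 2 * r ^ 2 - ∫ z in {z : ℂ | r < ‖z‖}, ‖deriv D z‖ ^ 2 := by
    intro A B hw r hr
    have w1 := wd_D h5 h6 D _ _ k (wd_log h1 h6 F D A B k c hc0 hD hFe hw)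
    have hz : ∀ᵐ z : ℂ, 7 / 8 < ‖z‖ → B z / F z = 0 := by
      filter_upwards [heq A B hw] with z e hz
      rw [hμ0 z hz, abs_zero, zero_mul, norm_eq_zero] at e
      rw [e, zero_div]
    have key := h2 D (fun z => A z / F z - I * k) (fun z => B z / F z) k hD w1 hDh hDec hz r hr
    have e : (fun z => ‖A z / F z - I * k + I * k‖ ^ 2 - ‖B z / F z‖ ^ 2) =
        fun z => (‖A z‖ ^ 2 - ‖B z‖ ^ 2) / ‖F z‖ ^ 2 := by
      funext z
      rw [sub_add_cancel, norm_div, norm_div, div_pow, div_pow, ← sub_div]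
    simp only [e] at key
    exact key
  have hnn : ∀ A B : ℂ → ℂ, WD univ F A B → ∀ᵐ z : ℂ, 0 ≤ (‖A z‖ ^ 2 - ‖B z‖ ^ 2) / ‖F z‖ ^ 2 := by
    intro A B hw
    filter_upwards [heq A B hw] with z e
    apply div_nonneg _ (sq_nonneg _)
    rw [e, mul_pow, sq_abs]
    have h1 : μ z ^ 2 ≤ 1 := by
      rw [← sq_abs]
      have := hμ1 z
      have h0 := abs_nonneg (μ z)
      nlinarith
    nlinarith [sq_nonneg ‖A z‖]
  have hnnD : ∀ r : ℝ, 0 ≤ ∫ z in {z : ℂ | r < ‖z‖}, ‖deriv D z‖ ^ 2 := fun r =>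
    integral_nonneg fun z => sq_nonneg _
  -- decay of D
  have hdec : ∀ z : ℂ, 2 ≤ ‖z‖ → ‖D z‖ ≤ 4 * Real.pi * ‖k‖ / ‖z‖ := by
    obtain ⟨i1, i2, i3⟩ := harea A0 B0 hw0 1 (by norm_num)
    apply h3 D ‖k‖ (norm_nonneg k) hDh hDec i2
    have h0 : 0 ≤ ∫ z in ball (0 : ℂ) 1, (‖A0 z‖ ^ 2 - ‖B0 z‖ ^ 2) / ‖F z‖ ^ 2 :=
      integral_nonneg_of_ae (ae_restrict_of_ae (hnn A0 B0 hw0))
    rw [i3] at h0
    linarith
  have hpi : Real.pi ≤ 4 := Real.pi_le_four
  have hk0 : 0 ≤ ‖k‖ := norm_nonneg k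
  have hdec16 : ∀ z : ℂ, 2 ≤ ‖z‖ → ‖D z‖ ≤ 16 * ‖k‖ / ‖z‖ := by
    intro z hz
    refine (hdec z hz).trans ?_
    have hz0 : 0 < ‖z‖ := by linarith
    apply div_le_div_of_nonneg_right _ hz0.le
    nlinarith
  have hIk : ∀ z : ℂ, ‖I * k * z‖ = ‖k‖ * ‖z‖ := by
    intro z
    rw [norm_mul, norm_mul, Complex.norm_I, one_mul]
  refine ⟨hdec16, ?_, ?_⟩
  · intro z
    by_cases hz : 2 ≤ ‖z‖
    · have hz0 : 0 < ‖z‖ := by linarith
      have h8 : 16 * ‖k‖ / ‖z‖ ≤ 8 * ‖k‖ := by
        rw [div_le_iff₀ hz0]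
        nlinarith
      calc ‖I * k * z + D z‖ ≤ ‖I * k * z‖ + ‖D z‖ := norm_add_le _ _
        _ ≤ ‖k‖ * ‖z‖ + 8 * ‖k‖ := by
          rw [hIk]
          linarith [hdec16 z hz]
        _ ≤ 16 * (1 + ‖z‖) * ‖k‖ := by nlinarith
    · have hz2 : z ∈ closedBall (0 : ℂ) 2 := by
        rw [mem_closedBall, dist_zero_right]
        linarith
      -- maximum principle
      have wg := wd_log h1 h6 F D A0 B0 k c hc0 hD hFe hw0
      have wg' := h6.2.2.2.2.1 univ (ball 0 3) _ _ _ (subset_univ _) wg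
      have hae : ∀ᵐ z ∂(volume.restrict (ball (0 : ℂ) 3)), ‖B0 z / F z‖ ≤ ‖A0 z / F z‖ ∧
          (‖B0 z / F z‖ = ‖A0 z / F z‖ → A0 z / F z = 0) := by
        apply ae_restrict_of_ae
        filter_upwards [heq A0 B0 hw0] with z e
        have hFz : 0 < ‖F z‖ := norm_pos_iff.2 (hFne z)
        rw [norm_div, norm_div, e]
        have ha := abs_nonneg (μ z)
        have hb := hμ1 z
        have hA := norm_nonneg (A0 z)
        constructor
        · apply div_le_div_of_nonneg_right _ hFz.le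
          nlinarith
        · intro h
          rw [div_left_inj' hFz.ne'] at h
          have : ‖A0 z‖ = 0 := by
            by_contra hne
            have hpos : 0 < ‖A0 z‖ := lt_of_le_of_ne hA (Ne.symm hne)
            nlinarith
          rw [norm_eq_zero.1 this, zero_div]
      have hm := h4 0 3 (fun z => I * k * z + D z) (fun z => A0 z / F z) (fun z => B0 z / F z)
        (by
          apply Continuous.continuousOn
          fun_prop) wg' hae
      have hbd : ∀ z' ∈ sphere (0 : ℂ) 2, ‖I * k * z' + D z'‖ ≤ 10 * ‖k‖ := by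
        intro z' hz'
        have hn : ‖z'‖ = 2 := by simpa using hz'
        have h := hdec16 z' (by rw [hn])
        have hd := hdec z' (by rw [hn])
        rw [hn] at hd
        calc ‖I * k * z' + D z'‖ ≤ ‖I * k * z'‖ + ‖D z'‖ := norm_add_le _ _
          _ ≤ ‖k‖ * 2 + 4 * Real.pi * ‖k‖ / 2 := by
            rw [hIk, hn]
            linarith
          _ ≤ 10 * ‖k‖ := by nlinarith
      have hall : ∀ c' : ℂ, (c' = 1 ∨ c' = -1 ∨ c' = I ∨ c' = -I) →
          (c' * (I * k * z + D z)).re ≤ 10 * ‖k‖ := by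
        intro c' hc'
        obtain ⟨z', hz', hle⟩ := hm 2 (by norm_num) (by norm_num) c' hc' z hz2
        have hn : ‖c'‖ = 1 := by
          rcases hc' with h | h | h | h <;> rw [h] <;> simp
        calc (c' * (I * k * z + D z)).re ≤ (c' * (I * k * z' + D z')).re := hle
          _ ≤ ‖c' * (I * k * z' + D z')‖ := Complex.re_le_norm _
          _ = ‖I * k * z' + D z'‖ := by rw [norm_mul, hn, one_mul]
          _ ≤ 10 * ‖k‖ := hbd z' hz'
      have r1 := hall 1 (Or.inl rfl)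
      have r2 := hall (-1) (Or.inr (Or.inl rfl))
      have r3 := hall I (Or.inr (Or.inr (Or.inl rfl)))
      have r4 := hall (-I) (Or.inr (Or.inr (Or.inr rfl)))
      set g : ℂ := I * k * z + D z with hg
      rw [one_mul] at r1
      rw [neg_one_mul, Complex.neg_re] at r2
      rw [Complex.I_mul_re] at r3
      rw [neg_mul, Complex.neg_re, Complex.I_mul_re, neg_neg] at r4
      have hsq : ‖g‖ ^ 2 = g.re ^ 2 + g.im ^ 2 := by
        rw [← Complex.normSq_eq_norm_sq, Complex.normSq_apply]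
        ring
      have hre : g.re ^ 2 ≤ (10 * ‖k‖) ^ 2 := by
        apply sq_le_sq'
        · linarith
        · exact r1
      have him : g.im ^ 2 ≤ (10 * ‖k‖) ^ 2 := by
        apply sq_le_sq'
        · linarith
        · exact r4
      have h16 : ‖g‖ ≤ 16 * ‖k‖ := by
        apply le_of_sq_le_sq _ (by positivity)
        rw [hsq]
        nlinarith
      have hzn := norm_nonneg z
      nlinarith [mul_nonneg hzn hk0]
  · intro r A B hr hw
    obtain ⟨i1, i2, i3⟩ := harea A B hw r (by linarith)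
    refine ⟨i1, ?_⟩
    rw [i3]
    linarith [hnnD r]

end

end Cal
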