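import Pool.Agent.Lib.MP_4ea4c7_an.StmF

/-! [L4] Transport of the forms. -/

open MeasureTheory Complex Metric Set Filter Topology
open scoped ComplexConjugate ENNReal NNReal

namespace Cal

open LocalCalderon

noncomputable section

private theorem cbeq_z0_congr {Ω : Set ℂ} {F F' : ℂ → ℂ} (h : Z0 Ω F)
    (e : F =ᵐ[volume.restrict Ω] F') : Z0 Ω F' := by
  refine ⟨(memLp_congr_ae e).1 h.1, fun ε hε => ?_⟩
  obtain ⟨φ, hφ, h2⟩ := h.2 ε hε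
  refine ⟨φ, hφ, ?_⟩
  have e2 : (fun z => F' z - gr φ z) =ᵐ[volume.restrict Ω] fun z => F z - gr φ z := by
    filter_upwards [e] with z hz
    rw [hz]
  rw [eLpNorm_congr_ae e2]
  exact h2

private theorem cbeq_dn_congr {Ω : Set ℂ} {γ γ' : ℂ → ℝ} {G G' K K' : ℂ → ℂ} (h : DN Ω γ G K)
    (eγ : γ =ᵐ[volume.restrict Ω] γ') (eG : G =ᵐ[volume.restrict Ω] G')
    (eK : K =ᵐ[volume.restrict Ω] K') : DN Ω γ' G' K' := by
  refine ⟨cbeq_z0_congr h.z0 ?_, (memLp_congr_ae eK).1 h.mem, fun φ hφ => ?_⟩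
  · filter_upwards [eG, eK] with z h1 h2
    rw [h1, h2]
  · rw [← h.sol φ hφ]
    refine integral_congr_ae ?_
    filter_upwards [eγ, eK] with z h1 h2
    rw [h1, h2]

private theorem cbeq_int_congr {Ω : Set ℂ} {γ γ' : ℂ → ℝ} {G G' K K' : ℂ → ℂ}
    (eγ : γ =ᵐ[volume.restrict Ω] γ') (eG : G =ᵐ[volume.restrict Ω] G')
    (eK : K =ᵐ[volume.restrict Ω] K') :
    ∫ z in Ω, γ z * ip (G z) (K z) = ∫ z in Ω, γ' z * ip (G' z) (K' z) := by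
  refine integral_congr_ae ?_
  filter_upwards [eγ, eG, eK] with z h1 h2 h3
  rw [h1, h2, h3]

private theorem cbeq_congr {Ω : Set ℂ} {γ₁ γ₂ γ₁' γ₂' : ℂ → ℝ} {G H G' H' : ℂ → ℂ}
    (e1 : γ₁ =ᵐ[volume.restrict Ω] γ₁') (e2 : γ₂ =ᵐ[volume.restrict Ω] γ₂')
    (eG : G =ᵐ[volume.restrict Ω] G') (eH : H =ᵐ[volume.restrict Ω] H')
    (h : Beq Ω γ₁ γ₂ G H) : Beq Ω γ₁' γ₂' G' H' := by
  intro G₁ G₂ h1 h2
  have k := h G₁ G₂ (cbeq_dn_congr h1 e1.symm eG.symm EventuallyEq.rfl)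
    (cbeq_dn_congr h2 e2.symm eG.symm EventuallyEq.rfl)
  rw [← cbeq_int_congr e1 (EventuallyEq.refl _ G₁) eH, k]
  exact cbeq_int_congr e2 (EventuallyEq.refl _ G₂) eH

private theorem cbeq_z0 (h1 : S_cv) (h2 : S_ctf) {U V : Set ℂ} {Ψ : ℂ → ℂ} (h : CB U V Ψ)
    (F : ℂ → ℂ) : Z0 V F ↔ Z0 U (pull Ψ F) := by
  obtain ⟨c1, c2, c3, c4, c5⟩ := h1 U V Ψ h
  obtain ⟨t1, t2⟩ := h2 U V Ψ h
  have key : ∀ φ φ' : ℂ → ℝ, (∀ z ∈ U, gr φ' z = pull Ψ (gr φ) z) →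
      eLpNorm (fun z => pull Ψ F z - gr φ' z) 2 (volume.restrict U) =
        eLpNorm (fun z => F z - gr φ z) 2 (volume.restrict V) := by
    intro φ φ' hg
    rw [← c2]
    refine eLpNorm_congr_ae ?_
    filter_upwards [ae_restrict_mem h.ou.measurableSet] with z hz
    rw [hg z hz]
    unfold pull
    ring
  constructor
  · intro hZ
    refine ⟨(c1 F).1 hZ.1, fun ε hε => ?_⟩
    obtain ⟨φ, hφ, hn⟩ := hZ.2 ε hε
    obtain ⟨φ', hφ', _, hg⟩ := t1 φ hφ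
    exact ⟨φ', hφ', by rw [key φ φ' hg]; exact hn⟩
  · intro hZ
    refine ⟨(c1 F).2 hZ.1, fun ε hε => ?_⟩
    obtain ⟨φ', hφ', hn⟩ := hZ.2 ε hε
    obtain ⟨φ, hφ, _, hg⟩ := t2 φ' hφ'
    exact ⟨φ, hφ, by rw [← key φ φ' hg]; exact hn⟩

private theorem cbeq_sol (h1 : S_cv) (h2 : S_ctf) {U V : Set ℂ} {Ψ : ℂ → ℂ} (h : CB U V Ψ)
    (γ : ℂ → ℝ) (F : ℂ → ℂ) : Sol V γ F ↔ Sol U (fun z => γ (Ψ z)) (pull Ψ F) := by
  obtain ⟨c1, c2, c3, c4, c5⟩ := h1 U V Ψ h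
  obtain ⟨t1, t2⟩ := h2 U V Ψ h
  have key : ∀ φ φ' : ℂ → ℝ, (∀ z ∈ U, gr φ' z = pull Ψ (gr φ) z) →
      ∫ z in U, γ (Ψ z) * ip (pull Ψ F z) (gr φ' z) = ∫ z in V, γ z * ip (F z) (gr φ z) := by
    intro φ φ' hg
    rw [c3]
    refine integral_congr_ae ?_
    filter_upwards [ae_restrict_mem h.ou.measurableSet] with z hz
    rw [hg z hz]
  constructor
  · intro hS φ' hφ'
    obtain ⟨φ, hφ, _, hg⟩ := t2 φ' hφ'
    have k := key φ φ' hg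
    rw [hS φ hφ] at k
    exact k
  · intro hS φ hφ
    obtain ⟨φ', hφ', _, hg⟩ := t1 φ hφ
    rw [← key φ φ' hg]
    exact hS φ' hφ'

private theorem cbeq_dn (h1 : S_cv) (h2 : S_ctf) {U V : Set ℂ} {Ψ : ℂ → ℂ} (h : CB U V Ψ)
    (γ : ℂ → ℝ) (G K : ℂ → ℂ) :
    DN V γ G K ↔ DN U (fun z => γ (Ψ z)) (pull Ψ G) (pull Ψ K) := by
  have e : (fun z => pull Ψ K z - pull Ψ G z) = pull Ψ (fun z => K z - G z) := by
    funext z
    unfold pull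
    ring
  constructor
  · intro hD
    refine ⟨?_, ((h1 U V Ψ h).1 K).1 hD.mem, (cbeq_sol h1 h2 h γ K).1 hD.sol⟩
    rw [e]
    exact (cbeq_z0 h1 h2 h _).1 hD.z0
  · intro hD
    refine ⟨?_, ((h1 U V Ψ h).1 K).2 hD.mem, (cbeq_sol h1 h2 h γ K).2 hD.sol⟩
    have := hD.z0
    rw [e] at this
    exact (cbeq_z0 h1 h2 h _).2 this

theorem piece_cbeq (h1 : S_cv) (h2 : S_ctf) : S_cbeq := by
  refine ⟨?_, ?_⟩
  · intro U V Ψ h γ₁ γ₂ G H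
    obtain ⟨c1, c2, c3, c4, c5⟩ := h1 U V Ψ h
    constructor
    · intro hB G₁ G₂ hG₁ hG₂
      obtain ⟨K₁, hK₁⟩ := c4 G₁
      obtain ⟨K₂, hK₂⟩ := c4 G₂
      have e1 : G₁ =ᵐ[volume.restrict U] pull Ψ K₁ := by
        filter_upwards [ae_restrict_mem h.ou.measurableSet] with z hz
        exact (hK₁ z hz).symm
      have e2 : G₂ =ᵐ[volume.restrict U] pull Ψ K₂ := by
        filter_upwards [ae_restrict_mem h.ou.measurableSet] with z hz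
        exact (hK₂ z hz).symm
      have d1 := (cbeq_dn h1 h2 h γ₁ G K₁).2
        (cbeq_dn_congr hG₁ EventuallyEq.rfl EventuallyEq.rfl e1)
      have d2 := (cbeq_dn h1 h2 h γ₂ G K₂).2
        (cbeq_dn_congr hG₂ EventuallyEq.rfl EventuallyEq.rfl e2)
      have k := hB K₁ K₂ d1 d2
      rw [c3, c3] at k
      rw [cbeq_int_congr (EventuallyEq.refl _ (fun z => γ₁ (Ψ z))) e1
        (EventuallyEq.refl _ (pull Ψ H)), k]
      exact (cbeq_int_congr (EventuallyEq.refl _ (fun z => γ₂ (Ψ z))) e2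
        (EventuallyEq.refl _ (pull Ψ H))).symm
    · intro hB K₁ K₂ hK₁ hK₂
      have k := hB _ _ ((cbeq_dn h1 h2 h γ₁ G K₁).1 hK₁) ((cbeq_dn h1 h2 h γ₂ G K₂).1 hK₂)
      rw [c3, c3]
      exact k
  · intro U γ₁ γ₂ γ₁' γ₂' G H G' H' e1 e2 eG eH
    exact ⟨cbeq_congr e1 e2 eG eH, cbeq_congr e1.symm e2.symm eG.symm eH.symm⟩

end

end Cal
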