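import Pool.Agent.Lib.MP_4ea4c7_an.StmH4

/-!
# [c9] Degree bound
-/

open MeasureTheory Complex Metric Set Filter Topology
open scoped ComplexConjugate ENNReal NNReal

namespace Cal

theorem piece_cdeg (h1 : S_bdegtot) (h2 : S_bwlog) (h3 : S_wuniq) (_h4 : S_basic) : S_cdeg := by
  intro μ g A B k C η ψ hμ hk hg hBel hC hW hη hη01 hψ hψ0
  obtain ⟨A', B', hW', hB'⟩ := hBel
  have hW2 := h2 univ g A' B' isOpen_univ hg.continuousOn hW'
  obtain ⟨hA, hB⟩ := h3 univ g A B g _ _ isOpen_univ hW hW2 (Filter.EventuallyEq.refl _ _)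
  rw [Measure.restrict_univ] at hA hB hB'
  have hJ : ∀ᵐ z : ℂ, 0 ≤ ‖A z‖ ^ 2 - ‖B z‖ ^ 2 := by
    filter_upwards [hA, hB, hB'] with z ha hb hb'
    have h : ‖B z‖ ≤ ‖A z‖ := by
      rw [ha, hb, hb', norm_div, norm_div, norm_mul, RCLike.norm_conj]
      have h5 : ‖(μ z : ℂ)‖ ≤ 1 := by
        rw [Complex.norm_real]
        exact (hμ z).le
      gcongr
      calc ‖(μ z : ℂ)‖ * ‖A' z‖ ≤ 1 * ‖A' z‖ := by gcongr
        _ = ‖A' z‖ := one_mul _
    have := pow_le_pow_left₀ (norm_nonneg _) h 2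
    linarith
  obtain ⟨hI, hE⟩ := h1 g A B k C ψ hk hg hW hC hψ
  rw [← hE]
  refine integral_mono_of_nonneg ?_ hI ?_
  · filter_upwards [hJ] with z hz
    exact mul_nonneg (mul_nonneg (hη01 z).1 (hψ0 _)) hz
  · filter_upwards [hJ] with z hz
    have h6 : η z * ψ (g z) ≤ ψ (g z) := mul_le_of_le_one_left (hψ0 _) (hη01 z).2
    exact mul_le_mul_of_nonneg_right h6 hz

end Cal
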