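import Pool.Agent.Lib.MP_4ea4c7_an.Stm1

open MeasureTheory Complex Metric Set Filter Topology
open scoped ComplexConjugate ENNReal NNReal

namespace Cal

private theorem ch_fin {K : Set ℂ} (hK : IsCompact K) : IsFiniteMeasure (volume.restrict K) :=
  ⟨by simpa using hK.measure_lt_top⟩

private theorem ch_intOn {K : Set ℂ} (hK : IsCompact K) {φ c a : ℂ → ℂ} (hφ : Continuous φ)
    (hc : ContinuousOn c K) (ha : MemLp a 2 (volume.restrict K)) :
    IntegrableOn (fun z => c z * a z * φ z) K volume := by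
  have := ch_fin hK
  have h1 : IntegrableOn a K volume := ha.integrable one_le_two
  have h2 : IntegrableOn (fun z => (c z * φ z) * a z) K volume :=
    IntegrableOn.continuousOn_mul (hc.mul hφ.continuousOn) h1 hK
  refine h2.congr_fun ?_ hK.measurableSet
  intro z _
  simp only
  ring

private theorem ch_int {K : Set ℂ} (hK : IsCompact K) {φ c a : ℂ → ℂ} (hφ : Continuous φ)
    (h0 : ∀ z, z ∉ K → φ z = 0)
    (hc : ContinuousOn c K) (ha : MemLp a 2 (volume.restrict K)) :
    Integrable (fun z => c z * a z * φ z) volume := by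
  refine (integrableOn_iff_integrable_of_support_subset ?_).1 (ch_intOn hK hφ hc ha)
  intro z hz
  by_contra h
  exact hz (by simp [h0 z h])

private theorem ch_lim {K : Set ℂ} (hK : IsCompact K) {φ : ℂ → ℂ} (hφ : Continuous φ)
    (h0 : ∀ z, z ∉ K → φ z = 0) (c : ℕ → ℂ → ℂ) (c0 : ℂ → ℂ) (M : ℝ)
    (hM : ∀ᶠ n in atTop, ∀ z ∈ K, ‖c n z‖ ≤ M) (hc : ∀ᶠ n in atTop, ContinuousOn (c n) K)
    (hc0 : ContinuousOn c0 K)
    (hlim : ∀ z ∈ K, Tendsto (fun n => c n z) atTop (𝓝 (c0 z))) (a : ℕ → ℂ → ℂ) (a0 : ℂ → ℂ)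
    (ha : ∀ n, MemLp (a n) 2 (volume.restrict K)) (ha0 : MemLp a0 2 (volume.restrict K))
    (hL : Tendsto (fun n => eLpNorm (fun z => a n z - a0 z) 2 (volume.restrict K)) atTop (𝓝 0)) :
    Tendsto (fun n => ∫ z, c n z * a n z * φ z) atTop (𝓝 (∫ z, c0 z * a0 z * φ z)) := by
  have := ch_fin hK
  have e1 : ∀ g : ℂ → ℂ, ∫ z, g z * φ z = ∫ z in K, g z * φ z := by
    intro g
    refine (setIntegral_eq_integral_of_forall_compl_eq_zero ?_).symm
    intro z hz
    simp [h0 z hz]
  obtain ⟨P, hP⟩ : ∃ P : ℝ, ∀ z ∈ K, ‖φ z‖ ≤ P := hK.exists_bound_of_continuousOn hφ.continuousOn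
  have e2 : ∫ z, c0 z * a0 z * φ z = ∫ z in K, c0 z * a0 z * φ z := e1 (fun z => c0 z * a0 z)
  have e3 : ∀ n, ∫ z, c n z * a n z * φ z = ∫ z in K, c n z * a n z * φ z :=
    fun n => e1 (fun z => c n z * a n z)
  rw [e2]
  simp_rw [e3]
  have hae : ∀ᵐ z ∂(volume.restrict K), z ∈ K := ae_restrict_mem hK.measurableSet
  -- second part
  have hA : Tendsto (fun n => ∫ z in K, c n z * a0 z * φ z) atTop
      (𝓝 (∫ z in K, c0 z * a0 z * φ z)) := by
    refine tendsto_integral_filter_of_dominated_convergence (fun z => M * ‖a0 z‖ * P) ?_ ?_ ?_ ?_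
    · filter_upwards [hc] with n hn
      exact (ch_intOn hK hφ hn ha0).aestronglyMeasurable
    · filter_upwards [hM] with n hn
      filter_upwards [hae] with z hz
      rw [norm_mul, norm_mul]
      have h1 := hn z hz
      have h2 := hP z hz
      have h3 : 0 ≤ M := (norm_nonneg _).trans h1
      gcongr
    · have := (ha0.integrable one_le_two).norm
      exact (this.const_mul M).mul_const P
    · filter_upwards [hae] with z hz
      exact ((hlim z hz).mul_const _).mul_const _
  have hB : Tendsto (fun n => ∫ z in K, c n z * (a n z - a0 z) * φ z) atTop (𝓝 0) := by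
    have hmem : ∀ n, MemLp (fun z => a n z - a0 z) 2 (volume.restrict K) := fun n => (ha n).sub ha0
    have := tendsto_integral_of_L1' (μ := volume.restrict K) (fun _ => (0 : ℂ))
      (aestronglyMeasurable_const) (F := fun n z => c n z * (a n z - a0 z) * φ z) (l := atTop) ?_ ?_
    · simpa using this
    · filter_upwards [hc] with n hn
      exact ch_intOn hK hφ hn (hmem n)
    · have hb : ∀ᶠ n in atTop, eLpNorm ((fun z => c n z * (a n z - a0 z) * φ z) - fun _ => (0 : ℂ)) 1
          (volume.restrict K) ≤ ENNReal.ofReal (M * P) *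
          (eLpNorm (fun z => a n z - a0 z) 2 (volume.restrict K) *
            (volume.restrict K) univ ^ (1 / (1 : ℝ≥0∞).toReal - 1 / (2 : ℝ≥0∞).toReal)) := by
        filter_upwards [hM] with n hn
        refine le_trans ?_ (mul_le_mul_right (eLpNorm_le_eLpNorm_mul_rpow_measure_univ
          (one_le_two) (hmem n).aestronglyMeasurable) _)
        refine eLpNorm_le_mul_eLpNorm_of_ae_le_mul ?_ 1
        filter_upwards [hae] with z hz
        simp only [Pi.sub_apply, sub_zero, norm_mul]
        have h1 := hn z hz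
        have h2 := hP z hz
        have h3 : 0 ≤ M := (norm_nonneg _).trans h1
        calc ‖c n z‖ * ‖a n z - a0 z‖ * ‖φ z‖ ≤ M * ‖a n z - a0 z‖ * P := by gcongr
          _ = M * P * ‖a n z - a0 z‖ := by ring
      refine tendsto_of_tendsto_of_tendsto_of_le_of_le' tendsto_const_nhds ?_
        (Eventually.of_forall fun n => zero_le) hb
      have hfin : (volume.restrict K) univ ^ (1 / (1 : ℝ≥0∞).toReal - 1 / (2 : ℝ≥0∞).toReal) ≠ ⊤ := by
        refine ENNReal.rpow_ne_top_of_nonneg (by norm_num) (measure_ne_top _ _)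
      have h1 := ENNReal.Tendsto.mul_const (b := (volume.restrict K) univ ^
        (1 / (1 : ℝ≥0∞).toReal - 1 / (2 : ℝ≥0∞).toReal)) hL (Or.inr hfin)
      have h2 := ENNReal.Tendsto.const_mul (a := ENNReal.ofReal (M * P)) h1
        (Or.inr ENNReal.ofReal_ne_top)
      simpa using h2
  have hsum := hB.add hA
  rw [zero_add] at hsum
  refine hsum.congr' ?_
  filter_upwards [hc] with n hn
  have hm : MemLp (fun z => a n z - a0 z) 2 (volume.restrict K) := (ha n).sub ha0
  have e5 := integral_add (ch_intOn hK hφ hn hm) (ch_intOn hK hφ hn ha0)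
  rw [← e5]
  refine integral_congr_ae (Eventually.of_forall fun z => ?_)
  simp only
  ring

private theorem ch_lin (L : ℂ →L[ℝ] ℂ) (w : ℂ) :
    L w = (L 1 - I * L I) / 2 * w + (L 1 + I * L I) / 2 * conj w := by
  have h : L w = (w.re : ℂ) * L 1 + (w.im : ℂ) * L I := by
    have : w = w.re • (1 : ℂ) + w.im • I := by
      simp
    conv_lhs => rw [this]
    rw [map_add, map_smul, map_smul]
    simp
  have h2 : conj w = (w.re : ℂ) - (w.im : ℂ) * I := by
    apply Complex.ext <;> simp
  have h3 : w = (w.re : ℂ) + (w.im : ℂ) * I := (Complex.re_add_im w).symm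
  rw [h, h2]
  conv_rhs => rw [h3]
  simp only [add_re, ofReal_re, mul_re, I_re, mul_zero, ofReal_im, I_im, mul_one, sub_self, add_zero,
    add_im, mul_im, zero_add]
  ring_nf
  simp only [I_sq]
  ring

private theorem ch_rule {G F : ℂ → ℂ} {z : ℂ} (hG : DifferentiableAt ℝ G (F z))
    (hF : DifferentiableAt ℝ F z) :
    dz (fun w => G (F w)) z = dz G (F z) * dz F z + db G (F z) * conj (db F z) ∧
    db (fun w => G (F w)) z = dz G (F z) * db F z + db G (F z) * conj (dz F z) := by
  have h : fderiv ℝ (fun w => G (F w)) z = (fderiv ℝ G (F z)).comp (fderiv ℝ F z) :=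
    fderiv_comp z hG hF
  unfold dz db
  rw [h]
  simp only [ContinuousLinearMap.comp_apply]
  have e1 := ch_lin (fderiv ℝ G (F z)) (fderiv ℝ F z 1)
  have e2 := ch_lin (fderiv ℝ G (F z)) (fderiv ℝ F z I)
  rw [e1, e2]
  simp only [map_div₀, map_add, map_sub, map_mul, conj_I, map_ofNat]
  constructor <;> ring

private theorem ch_cont {U : Set ℂ} {F : ℂ → ℂ} (hU : IsOpen U) (hF : ContDiffOn ℝ 1 F U) :
    ContinuousOn (dz F) U ∧ ContinuousOn (db F) U := by
  have h := hF.continuousOn_fderiv_of_isOpen hU le_rfl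
  have h1 : ContinuousOn (fun z => fderiv ℝ F z 1) U := h.clm_apply continuousOn_const
  have h2 : ContinuousOn (fun z => fderiv ℝ F z I) U := h.clm_apply continuousOn_const
  exact ⟨(h1.sub (continuousOn_const.mul h2)).div_const _,
    (h1.add (continuousOn_const.mul h2)).div_const _⟩

private theorem ch_mem {K : Set ℂ} (hK : IsCompact K) {c a : ℂ → ℂ}
    (hc : ContinuousOn c K) (ha : MemLp a 2 (volume.restrict K)) :
    MemLp (fun z => c z * a z) 2 (volume.restrict K) := by
  obtain ⟨P, hP⟩ : ∃ P : ℝ, ∀ z ∈ K, ‖c z‖ ≤ P := hK.exists_bound_of_continuousOn hc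
  refine ha.of_le_mul (c := P) ?_ ?_
  · exact (hc.aestronglyMeasurable hK.measurableSet).mul ha.aestronglyMeasurable
  · filter_upwards [ae_restrict_mem hK.measurableSet] with z hz
    rw [norm_mul]
    exact mul_le_mul_of_nonneg_right (hP z hz) (norm_nonneg _)

private theorem ch_one {K : Set ℂ} (hK : IsCompact K) :
    MemLp (fun _ : ℂ => (1 : ℂ)) 2 (volume.restrict K) := by
  have := ch_fin hK
  exact memLp_const _

private theorem ch_conj {K : Set ℂ} {a : ℂ → ℂ} (ha : MemLp a 2 (volume.restrict K)) :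
    MemLp (fun z => conj (a z)) 2 (volume.restrict K) := by
  refine ha.of_le (continuous_conj.comp_aestronglyMeasurable ha.aestronglyMeasurable) ?_
  exact Eventually.of_forall fun z => by simp

private theorem ch_tf {U : Set ℂ} {φ : ℂ → ℂ} (h : TF U φ) :
    Continuous φ ∧ Continuous (dz φ) ∧ Continuous (db φ) ∧
    (∀ z, z ∉ tsupport φ → φ z = 0) ∧ (∀ z, z ∉ tsupport φ → dz φ z = 0) ∧
    (∀ z, z ∉ tsupport φ → db φ z = 0) := by
  have h1 : ContDiff ℝ 1 φ := h.1.of_le (by exact_mod_cast le_top)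
  obtain ⟨c1, c2⟩ := ch_cont isOpen_univ h1.contDiffOn
  have h0 : ∀ z, z ∉ tsupport φ → fderiv ℝ φ z = 0 := by
    intro z hz
    by_contra hne
    exact hz (support_fderiv_subset ℝ hne)
  refine ⟨h1.continuous, continuousOn_univ.1 c1, continuousOn_univ.1 c2, ?_, ?_, ?_⟩
  · intro z hz
    exact image_eq_zero_of_notMem_tsupport hz
  · intro z hz
    simp [dz, h0 z hz]
  · intro z hz
    simp [db, h0 z hz]

theorem piece_chain (h1 : S_moll) (_h2 : S_basic) (h3 : S_smooth) : S_chain := by
  intro U W f A B G hU hW hf hfc hmap hG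
  have hGc : ContinuousOn G W := hG.continuousOn
  obtain ⟨hdz, hdb⟩ := ch_cont hW hG
  have hdzf : ContinuousOn (fun z => dz G (f z)) U := hdz.comp hfc hmap
  have hdbf : ContinuousOn (fun z => db G (f z)) U := hdb.comp hfc hmap
  have hGf : ContinuousOn (fun z => G (f z)) U := hGc.comp hfc hmap
  -- the core statement
  have core : ∀ φ, TF U φ → (∫ z, G (f z) * dz φ z =
      - ∫ z, (dz G (f z) * A z + db G (f z) * conj (B z)) * φ z) ∧
      (∫ z, G (f z) * db φ z =
      - ∫ z, (dz G (f z) * B z + db G (f z) * conj (A z)) * φ z) := by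
    intro φ hφ
    obtain ⟨cφ, cdz, cdb, z0, z1, z2⟩ := ch_tf hφ
    have hKc : IsCompact (tsupport φ) := hφ.2.1
    obtain ⟨K', hK'c, hKK', hK'U⟩ := exists_compact_between hKc hU hφ.2.2
    obtain ⟨F, hFs, hFc, hF0, hFA, hFB, hFu⟩ := h1 U f A B hU hf K' hK'c hK'U
    have hFu' := hFu hfc
    have hfK' : IsCompact (f '' K') := hK'c.image_of_continuousOn (hfc.mono hK'U)
    have hfW : f '' K' ⊆ W := by
      rintro _ ⟨z, hz, rfl⟩
      exact hmap (hK'U hz)
    obtain ⟨δ, hδ, hδW⟩ := hfK'.exists_cthickening_subset_open hW hfW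
    have hLc : IsCompact (cthickening δ (f '' K')) := hfK'.cthickening
    have hev : ∀ᶠ n in atTop, ∀ z ∈ K', F n z ∈ cthickening δ (f '' K') := by
      have := Metric.tendstoUniformlyOn_iff.1 hFu' δ hδ
      filter_upwards [this] with n hn z hz
      refine mem_cthickening_of_dist_le _ (f z) _ _ ⟨z, hz, rfl⟩ ?_
      rw [dist_comm]
      exact (hn z hz).le
    have hcdF : ∀ n, ContDiff ℝ 1 (F n) := fun n => (hFs n).of_le (by exact_mod_cast le_top)
    have hdF : ∀ n, Continuous (dz (F n)) ∧ Continuous (db (F n)) := by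
      intro n
      obtain ⟨a, b⟩ := ch_cont isOpen_univ (hcdF n).contDiffOn
      exact ⟨continuousOn_univ.1 a, continuousOn_univ.1 b⟩
    have hKsub : tsupport φ ⊆ K' := hKK'.trans interior_subset
    have hKU : tsupport φ ⊆ U := hφ.2.2
    -- classical identities for large n
    have hcl : ∀ᶠ n in atTop,
        (∫ z, G (F n z) * dz φ z = - ∫ z, dz (fun w => G (F n w)) z * φ z) ∧
        (∫ z, G (F n z) * db φ z = - ∫ z, db (fun w => G (F n w)) z * φ z) := by
      filter_upwards [hev] with n hn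
      have hcd : ContDiffOn ℝ 1 (fun w => G (F n w)) (interior K') :=
        hG.comp (hcdF n).contDiffOn (fun z hz => hδW (hn z (interior_subset hz)))
      have hwd := h3.1 (interior K') (fun w => G (F n w)) isOpen_interior hcd
      exact ⟨hwd.hA φ ⟨hφ.1, hφ.2.1, hKK'⟩, hwd.hB φ ⟨hφ.1, hφ.2.1, hKK'⟩⟩
    have hpt : ∀ᶠ n in atTop, ∀ z ∈ tsupport φ,
        dz (fun w => G (F n w)) z = dz G (F n z) * dz (F n) z + db G (F n z) * conj (db (F n) z) ∧
        db (fun w => G (F n w)) z = dz G (F n z) * db (F n) z + db G (F n z) * conj (dz (F n) z) := by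
      filter_upwards [hev] with n hn z hz
      have hzW : F n z ∈ W := hδW (hn z (hKsub hz))
      have hGd : DifferentiableAt ℝ G (F n z) :=
        (hG.contDiffAt (hW.mem_nhds hzW)).differentiableAt one_ne_zero
      have hFd : DifferentiableAt ℝ (F n) z :=
        ((hcdF n).contDiffAt).differentiableAt one_ne_zero
      exact ch_rule hGd hFd
    -- general limit for a continuous function H on W
    have hcont : ∀ H : ℂ → ℂ, ContinuousOn H W → ∀ᶠ n in atTop,
        ContinuousOn (fun z => H (F n z)) (tsupport φ) := by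
      intro H hH
      filter_upwards [hev] with n hn
      exact hH.comp (hcdF n).continuous.continuousOn (fun z hz => hδW (hn z (hKsub hz)))
    have hbd : ∀ H : ℂ → ℂ, ContinuousOn H W → ∃ M : ℝ, ∀ᶠ n in atTop,
        ∀ z ∈ tsupport φ, ‖H (F n z)‖ ≤ M := by
      intro H hH
      obtain ⟨M, hM⟩ := hLc.exists_bound_of_continuousOn (hH.mono hδW)
      refine ⟨M, ?_⟩
      filter_upwards [hev] with n hn z hz
      exact hM _ (hn z (hKsub hz))
    have hlim : ∀ H : ℂ → ℂ, ContinuousOn H W → ∀ z ∈ tsupport φ,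
        Tendsto (fun n => H (F n z)) atTop (𝓝 (H (f z))) := by
      intro H hH z hz
      have hzK' := hKsub hz
      have h5 : ContinuousAt H (f z) := hH.continuousAt (hW.mem_nhds (hmap (hK'U hzK')))
      exact h5.tendsto.comp (hFu'.tendsto_at hzK')
    have hLim : ∀ H : ℂ → ℂ, ContinuousOn H W → ∀ (ψ : ℂ → ℂ), Continuous ψ →
        (∀ z, z ∉ tsupport φ → ψ z = 0) → ∀ (a : ℕ → ℂ → ℂ) (a0 : ℂ → ℂ),
        (∀ n, MemLp (a n) 2 (volume.restrict (tsupport φ))) →
        MemLp a0 2 (volume.restrict (tsupport φ)) →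
        Tendsto (fun n => eLpNorm (fun z => a n z - a0 z) 2 (volume.restrict (tsupport φ)))
          atTop (𝓝 0) →
        Tendsto (fun n => ∫ z, H (F n z) * a n z * ψ z) atTop (𝓝 (∫ z, H (f z) * a0 z * ψ z)) := by
      intro H hH ψ hψ hψ0 a a0 ha ha0 haL
      obtain ⟨M, hM⟩ := hbd H hH
      exact ch_lim hKc hψ hψ0 (fun n z => H (F n z)) (fun z => H (f z)) M hM (hcont H hH)
        ((hH.comp hfc hmap).mono hKU) (hlim H hH) a a0 ha ha0 haL
    have hrestr : ∀ (g : ℕ → ℂ → ℂ), Tendsto (fun n => eLpNorm (g n) 2 (volume.restrict K'))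
        atTop (𝓝 0) → Tendsto (fun n => eLpNorm (g n) 2 (volume.restrict (tsupport φ)))
          atTop (𝓝 0) := by
      intro g hg
      refine tendsto_of_tendsto_of_tendsto_of_le_of_le tendsto_const_nhds hg
        (fun n => zero_le) (fun n => ?_)
      exact eLpNorm_mono_measure _ (Measure.restrict_mono hKsub le_rfl)
    have hA2 := hf.A2 _ hKc hKU
    have hB2 := hf.B2 _ hKc hKU
    have hFm : ∀ n, MemLp (dz (F n)) 2 (volume.restrict (tsupport φ)) ∧
        MemLp (db (F n)) 2 (volume.restrict (tsupport φ)) := by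
      intro n
      constructor
      · simpa using ch_mem hKc (hdF n).1.continuousOn (ch_one hKc)
      · simpa using ch_mem hKc (hdF n).2.continuousOn (ch_one hKc)
    have hAL := hrestr _ hFA
    have hBL := hrestr _ hFB
    have hconjL : ∀ (g : ℕ → ℂ → ℂ) (g0 : ℂ → ℂ),
        Tendsto (fun n => eLpNorm (fun z => g n z - g0 z) 2 (volume.restrict (tsupport φ)))
          atTop (𝓝 0) →
        Tendsto (fun n => eLpNorm (fun z => conj (g n z) - conj (g0 z)) 2
          (volume.restrict (tsupport φ))) atTop (𝓝 0) := by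
      intro g g0 hg
      refine hg.congr fun n => ?_
      refine eLpNorm_congr_norm_ae (Eventually.of_forall fun z => ?_)
      rw [← map_sub, RCLike.norm_conj]
    have hleft : ∀ ψ : ℂ → ℂ, Continuous ψ → (∀ z, z ∉ tsupport φ → ψ z = 0) →
        Tendsto (fun n => ∫ z, G (F n z) * ψ z) atTop (𝓝 (∫ z, G (f z) * ψ z)) := by
      intro ψ hψ hψ0
      have := hLim G hGc ψ hψ hψ0 (fun _ _ => 1) (fun _ => 1) (fun _ => ch_one hKc) (ch_one hKc)
        (by simp)
      simpa using this
    have hint : ∀ (H : ℂ → ℂ), ContinuousOn H W → ∀ a : ℂ → ℂ,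
        MemLp a 2 (volume.restrict (tsupport φ)) →
        Integrable (fun z => H (f z) * a z * φ z) volume := by
      intro H hH a ha
      exact ch_int hKc cφ z0 ((hH.comp hfc hmap).mono hKU) ha
    constructor
    · have hr1 := hLim (dz G) hdz φ cφ z0 (fun n => dz (F n)) A (fun n => (hFm n).1) hA2 hAL
      have hr2 := hLim (db G) hdb φ cφ z0 (fun n z => conj (db (F n) z)) (fun z => conj (B z))
        (fun n => ch_conj (hFm n).2) (ch_conj hB2) (hconjL _ _ hBL)
      have hl := hleft (dz φ) cdz z1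
      have hr := (hr1.add hr2).neg
      have heq : (fun n => ∫ z, G (F n z) * dz φ z) =ᶠ[atTop] fun n =>
          -((∫ z, dz G (F n z) * dz (F n) z * φ z) + ∫ z, db G (F n z) * conj (db (F n) z) * φ z) := by
        filter_upwards [hcl, hpt, hcont _ hdz, hcont _ hdb] with n hn hp hc1 hc2
        rw [hn.1]
        congr 1
        rw [← integral_add (ch_int hKc cφ z0 hc1 (hFm n).1)
          (ch_int hKc cφ z0 hc2 (ch_conj (hFm n).2))]
        refine integral_congr_ae (Eventually.of_forall fun z => ?_)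
        by_cases hz : z ∈ tsupport φ
        · simp only
          rw [(hp z hz).1]
          ring
        · simp [z0 z hz]
      have := tendsto_nhds_unique hl (hr.congr' heq.symm)
      rw [this]
      congr 1
      rw [← integral_add (hint _ hdz _ hA2) (hint _ hdb _ (ch_conj hB2))]
      refine integral_congr_ae (Eventually.of_forall fun z => ?_)
      simp only
      ring
    · have hr1 := hLim (dz G) hdz φ cφ z0 (fun n => db (F n)) B (fun n => (hFm n).2) hB2 hBL
      have hr2 := hLim (db G) hdb φ cφ z0 (fun n z => conj (dz (F n) z)) (fun z => conj (A z))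
        (fun n => ch_conj (hFm n).1) (ch_conj hA2) (hconjL _ _ hAL)
      have hl := hleft (db φ) cdb z2
      have hr := (hr1.add hr2).neg
      have heq : (fun n => ∫ z, G (F n z) * db φ z) =ᶠ[atTop] fun n =>
          -((∫ z, dz G (F n z) * db (F n) z * φ z) + ∫ z, db G (F n z) * conj (dz (F n) z) * φ z) := by
        filter_upwards [hcl, hpt, hcont _ hdz, hcont _ hdb] with n hn hp hc1 hc2
        rw [hn.2]
        congr 1
        rw [← integral_add (ch_int hKc cφ z0 hc1 (hFm n).2)
          (ch_int hKc cφ z0 hc2 (ch_conj (hFm n).1))]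
        refine integral_congr_ae (Eventually.of_forall fun z => ?_)
        by_cases hz : z ∈ tsupport φ
        · simp only
          rw [(hp z hz).2]
          ring
        · simp [z0 z hz]
      have := tendsto_nhds_unique hl (hr.congr' heq.symm)
      rw [this]
      congr 1
      rw [← integral_add (hint _ hdz _ hB2) (hint _ hdb _ (ch_conj hA2))]
      refine integral_congr_ae (Eventually.of_forall fun z => ?_)
      simp only
      ring
  refine ⟨?_, ?_, ?_, fun φ hφ => (core φ hφ).1, fun φ hφ => (core φ hφ).2⟩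
  · intro K hK hKU
    simpa using ch_mem hK (hGf.mono hKU) (ch_one hK)
  · intro K hK hKU
    exact (ch_mem hK (hdzf.mono hKU) (hf.A2 K hK hKU)).add
      (ch_mem hK (hdbf.mono hKU) (ch_conj (hf.B2 K hK hKU)))
  · intro K hK hKU
    exact (ch_mem hK (hdzf.mono hKU) (hf.B2 K hK hKU)).add
      (ch_mem hK (hdbf.mono hKU) (ch_conj (hf.A2 K hK hKU)))

end Cal
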