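import Pool.Agent.Lib.MP_4ea4c7_an.StmH4

/-!
# MP_4ea4c7_an, stage 2, [c11]: the sign of the imaginary part of the quotient
-/

open MeasureTheory Complex Metric Set Filter Topology
open scoped ComplexConjugate ENNReal NNReal

namespace Cal

/-- two complex numbers without a vanishing real combination: the first is not zero, the quotient is not real -/
theorem cim_aux (X Y : ℂ) (h : ∀ c : ℂ, ‖c‖ = 1 → (c.re : ℂ) * X + (c.im : ℂ) * Y ≠ 0) :
    X ≠ 0 ∧ (Y / X).im ≠ 0 := by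
  have hX : X ≠ 0 := by
    intro h0
    apply h 1 (by simp)
    simp [h0]
  refine ⟨hX, fun him => ?_⟩
  set r : ℝ := (Y / X).re with hr
  have hYX : Y / X = (r : ℂ) := by
    apply Complex.ext
    · simp [hr]
    · simp [him]
  have hY : Y = (r : ℂ) * X := by
    rw [← hYX]; field_simp
  have hs : 0 < Real.sqrt (r ^ 2 + 1) := Real.sqrt_pos.mpr (by positivity)
  set s : ℝ := (Real.sqrt (r ^ 2 + 1))⁻¹ with hsd
  have hs2 : s ^ 2 * (r ^ 2 + 1) = 1 := by
    rw [hsd, inv_pow, Real.sq_sqrt (by positivity)]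
    field_simp
  have hc : ‖(⟨-(r * s), s⟩ : ℂ)‖ = 1 := by
    have h1 : ‖(⟨-(r * s), s⟩ : ℂ)‖ ^ 2 = 1 := by
      rw [← Complex.normSq_eq_norm_sq, Complex.normSq_mk]
      nlinarith [hs2]
    have h2 : 0 ≤ ‖(⟨-(r * s), s⟩ : ℂ)‖ := norm_nonneg _
    nlinarith [h1, h2]
  apply h _ hc
  rw [hY]
  push_cast
  ring

theorem piece_cim : S_cim := by
  intro W X Y p0 hW hp0 hX hY hne hpos
  have key : ∀ p ∈ W, X p.1 p.2 ≠ 0 ∧ (Y p.1 p.2 / X p.1 p.2).im ≠ 0 := by
    intro p hp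
    apply cim_aux
    intro c hc
    exact hne p hp c hc
  have hcont : ContinuousOn (fun p : ℂ × ℂ => (Y p.1 p.2 / X p.1 p.2).im) W :=
    Complex.continuous_im.comp_continuousOn (hY.div hX (fun p hp => (key p hp).1))
  intro p hp
  by_contra hneg
  rw [not_lt] at hneg
  have himg : IsPreconnected ((fun p : ℂ × ℂ => (Y p.1 p.2 / X p.1 p.2).im) '' W) := hW.image _ hcont
  have hmem : (0 : ℝ) ∈ (fun p : ℂ × ℂ => (Y p.1 p.2 / X p.1 p.2).im) '' W :=
    himg.ordConnected.out (mem_image_of_mem _ hp) (mem_image_of_mem _ hp0) ⟨hneg, hpos.le⟩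
  obtain ⟨q, hq, hq0⟩ := hmem
  exact (key q hq).2 hq0

end Cal
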