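import Pool.Agent.Lib.MP_4ea4c7_an.StmF

/-! # [L1] The inverse of a conformal bijection -/

open MeasureTheory Complex Metric Set Filter Topology
open scoped ComplexConjugate ENNReal NNReal

namespace Cal

/-- An injective function on an open set is not locally constant. -/
private lemma cinv_not_const {U : Set ℂ} {f : ℂ → ℂ} (hU : IsOpen U) (hi : InjOn f U) {z₀ : ℂ} (hz : z₀ ∈ U) :
    ¬ (∀ᶠ z in 𝓝 z₀, f z = f z₀) := by
  intro h
  have h1 : ∀ᶠ z in 𝓝 z₀, z = z₀ := by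
    filter_upwards [h, hU.mem_nhds hz] with z h1 h2
    exact hi h2 hz h1
  have h2 : ∀ᶠ z in 𝓝[≠] z₀, z = z₀ := h1.filter_mono nhdsWithin_le_nhds
  have h3 : ∀ᶠ z in 𝓝[≠] z₀, z ≠ z₀ := eventually_mem_nhdsWithin
  obtain ⟨z, a, b⟩ := (h2.and h3).exists
  exact b a

private lemma cinv_nhds {U : Set ℂ} {f : ℂ → ℂ} (hU : IsOpen U) (hf : DifferentiableOn ℂ f U) (hi : InjOn f U)
    {z₀ : ℂ} (hz : z₀ ∈ U) : 𝓝 (f z₀) ≤ map f (𝓝 z₀) := by
  have ha : AnalyticAt ℂ f z₀ := hf.analyticAt (hU.mem_nhds hz)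
  rcases ha.eventually_constant_or_nhds_le_map_nhds with h | h
  · exact absurd h (cinv_not_const hU hi hz)
  · exact h

theorem piece_cinv : S_cinv := by
  intro U V Ψ hCB
  obtain ⟨hU, hf, hi, himg⟩ := hCB
  have hVo : IsOpen V := by
    rw [isOpen_iff_mem_nhds]
    intro w hw
    rw [← himg] at hw
    obtain ⟨z, hz, rfl⟩ := hw
    have := cinv_nhds hU hf hi hz (image_mem_map (hU.mem_nhds hz))
    rwa [himg] at this
  set Θ : ℂ → ℂ := Function.invFunOn Ψ U with hΘ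
  have hΘΨ : ∀ z ∈ U, Θ (Ψ z) = z := fun z hz => hi.leftInvOn_invFunOn hz
  have hΨΘ : ∀ w ∈ V, Ψ (Θ w) = w := by
    intro w hw
    rw [← himg] at hw
    exact Function.invFunOn_eq hw
  have hΘU : ∀ w ∈ V, Θ w ∈ U := by
    intro w hw
    rw [← himg] at hw
    exact Function.invFunOn_mem hw
  have hmV : ∀ z ∈ U, Ψ z ∈ V := fun z hz => by rw [← himg]; exact mem_image_of_mem _ hz
  have hΘc : ∀ z ∈ U, ContinuousAt Θ (Ψ z) := by
    intro z hz
    unfold ContinuousAt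
    rw [hΘΨ z hz]
    intro S hS
    have h1 : S ∩ U ∈ 𝓝 z := inter_mem hS (hU.mem_nhds hz)
    have h2 : Ψ '' (S ∩ U) ∈ 𝓝 (Ψ z) := cinv_nhds hU hf hi hz (image_mem_map h1)
    rw [mem_map]
    filter_upwards [h2] with w hw
    obtain ⟨x, hx, rfl⟩ := hw
    rw [mem_preimage, hΘΨ x hx.2]; exact hx.1
  -- differentiability of the inverse where the derivative does not vanish
  have hd1 : ∀ z ∈ U, deriv Ψ z ≠ 0 → DifferentiableAt ℂ Θ (Ψ z) := by
    intro z hz hne
    have h1 : HasDerivAt Ψ (deriv Ψ z) (Θ (Ψ z)) := by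
      rw [hΘΨ z hz]; exact (hf.differentiableAt (hU.mem_nhds hz)).hasDerivAt
    have h2 : ∀ᶠ y in 𝓝 (Ψ z), Ψ (Θ y) = y := by
      filter_upwards [hVo.mem_nhds (hmV z hz)] with y hy using hΨΘ y hy
    exact (HasDerivAt.of_local_left_inverse (hΘc z hz) h1 hne h2).differentiableAt
  -- critical points are isolated
  have hiso : ∀ z ∈ U, ∀ᶠ x in 𝓝[≠] z, deriv Ψ x ≠ 0 := by
    intro z hz
    have ha : AnalyticAt ℂ Ψ z := hf.analyticAt (hU.mem_nhds hz)
    rcases ha.deriv.eventually_eq_zero_or_eventually_ne_zero with h | h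
    · exfalso
      refine cinv_not_const hU hi hz ?_
      obtain ⟨r, hr, hr'⟩ := Metric.eventually_nhds_iff_ball.mp (h.and (hU.mem_nhds hz : ∀ᶠ x in 𝓝 z, x ∈ U))
      filter_upwards [Metric.ball_mem_nhds z hr] with x hx
      have hdo : DifferentiableOn ℂ Ψ (Metric.ball z r) := fun y hy =>
        (hf.differentiableAt (hU.mem_nhds (hr' y hy).2)).differentiableWithinAt
      have := Metric.isOpen_ball.is_const_of_deriv_eq_zero (convex_ball z r).isPreconnected hdo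
        (fun y hy => (hr' y hy).1) hx (Metric.mem_ball_self hr)
      exact this
    · exact h
  have hΘa : ∀ z ∈ U, AnalyticAt ℂ Θ (Ψ z) := by
    intro z hz
    refine Complex.analyticAt_of_differentiable_on_punctured_nhds_of_continuousAt ?_ (hΘc z hz)
    have ht : Tendsto Θ (𝓝[≠] (Ψ z)) (𝓝[≠] z) := by
      refine tendsto_nhdsWithin_iff.mpr ⟨?_, ?_⟩
      · have := (hΘc z hz).tendsto
        rw [hΘΨ z hz] at this
        exact this.mono_left nhdsWithin_le_nhds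
      · have h1 : ∀ᶠ w in 𝓝[≠] (Ψ z), w ∈ V := nhdsWithin_le_nhds (hVo.mem_nhds (hmV z hz))
        filter_upwards [h1, eventually_mem_nhdsWithin] with w hw hne hc
        rw [mem_singleton_iff] at hc
        exact hne (by rw [mem_singleton_iff, ← hΨΘ w hw, hc])
    have h1 : ∀ᶠ w in 𝓝[≠] (Ψ z), w ∈ V := nhdsWithin_le_nhds (hVo.mem_nhds (hmV z hz))
    filter_upwards [h1, ht.eventually (hiso z hz)] with w hw hne
    have := hd1 (Θ w) (hΘU w hw) hne
    rwa [hΨΘ w hw] at this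
  have hchain : ∀ z ∈ U, deriv Θ (Ψ z) * deriv Ψ z = 1 := by
    intro z hz
    have h1 : HasDerivAt (Θ ∘ Ψ) (deriv Θ (Ψ z) * deriv Ψ z) z :=
      (hΘa z hz).differentiableAt.hasDerivAt.comp z (hf.differentiableAt (hU.mem_nhds hz)).hasDerivAt
    have h2 : HasDerivAt (Θ ∘ Ψ) 1 z := by
      refine (hasDerivAt_id z).congr_of_eventuallyEq ?_
      filter_upwards [hU.mem_nhds hz] with x hx
      exact hΘΨ x hx
    exact h1.unique h2
  refine ⟨hVo, fun z hz h0 => ?_, Θ, ⟨hVo, ?_, ?_, ?_⟩, hΘΨ, hΨΘ, hchain⟩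
  · have := hchain z hz
    rw [h0, mul_zero] at this
    exact zero_ne_one this
  · intro w hw
    rw [← himg] at hw
    obtain ⟨z, hz, rfl⟩ := hw
    exact (hΘa z hz).differentiableAt.differentiableWithinAt
  · intro a ha b hb hab
    rw [← hΨΘ a ha, ← hΨΘ b hb, hab]
  · ext z
    constructor
    · rintro ⟨w, hw, rfl⟩; exact hΘU w hw
    · intro hz; exact ⟨Ψ z, hmV z hz, hΘΨ z hz⟩

end Cal
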