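import Pool.Agent.Lib.MP_4ea4c7_an.StmH4

/-!
# MP_4ea4c7_an, stage 2: piece c13, the equation in `k`
-/

open MeasureTheory Complex Metric Set Filter Topology
open scoped ComplexConjugate ENNReal NNReal

namespace Cal

/-- a continuous logarithm of a `C¹` function is `C¹` -/
private theorem ckeq_log {L U : ℂ → ℂ} (hL : Continuous L) (hU : ContDiff ℝ 1 U)
    (h : ∀ k, exp (L k) = U k) : ContDiff ℝ 1 L := by
  rw [contDiff_iff_contDiffAt]
  intro k0
  have hU0 : ∀ k, U k ≠ 0 := fun k => by rw [← h k]; exact Complex.exp_ne_zero _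
  have he : ∀ᶠ k in 𝓝 k0, L k = L k0 + Complex.log (U k / U k0) := by
    have h1 : ∀ᶠ k in 𝓝 k0, dist (L k) (L k0) < 1 :=
      (hL.tendsto k0).eventually (Metric.ball_mem_nhds _ one_pos)
    filter_upwards [h1] with k hk
    rw [dist_eq_norm] at hk
    have h2 : |(L k - L k0).im| < 1 := (Complex.abs_im_le_norm _).trans_lt hk
    rw [abs_lt] at h2
    have h3 : U k / U k0 = exp (L k - L k0) := by
      rw [Complex.exp_sub, h, h]
    rw [h3, Complex.log_exp (by linarith [Real.pi_gt_three]) (by linarith [Real.pi_gt_three])]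
    ring
  have hs : ContDiffAt ℝ 1 (fun k => L k0 + Complex.log (U k / U k0)) k0 := by
    refine contDiffAt_const.add ?_
    have hlog : ContDiffAt ℝ 1 Complex.log (U k0 / U k0) := by
      rw [div_self (hU0 k0)]
      exact (Complex.contDiffAt_log Complex.one_mem_slitPlane).restrict_scalars ℝ
    exact hlog.comp k0 (hU.contDiffAt.div_const (U k0))
  exact hs.congr_of_eventuallyEq he

theorem piece_ckeq (h1 : S_calg) : S_ckeq := by
  intro X Y g z θ hg hX hY hexp him hm eq1 eqI hθ0 hθ1
  -- the function `U`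
  set e : ℂ := exp (-(I * θ)) with he
  let l : ℂ →L[ℝ] ℂ := Complex.ofRealCLM.comp (Complex.reCLM.comp (ContinuousLinearMap.mul ℝ ℂ e))
  have hl : ∀ w, l w = (((e * w).re : ℝ) : ℂ) := fun w => rfl
  let U : ℂ → ℂ := fun k => l (X z k) - I * l (Y z k)
  have hU : ContDiff ℝ 1 U := (l.contDiff.comp hX).sub (contDiff_const.mul (l.contDiff.comp hY))
  have hL : ∀ k, exp (Lam X Y g θ z k) = U k := by
    intro k
    obtain ⟨m, hm0, hmb⟩ := hm k
    exact (h1 X Y g z k θ m (hexp k) (him k) hθ0 hθ1 hm0 hmb).1
  have hX0 : ∀ k, X z k ≠ 0 := fun k => by rw [← hexp k]; exact Complex.exp_ne_zero _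
  have hcont : Continuous (fun k => Lam X Y g θ z k) := by
    rw [continuous_iff_continuousAt]
    intro k
    obtain ⟨m, hm0, hmb⟩ := hm k
    obtain ⟨-, -, hlt, hre1, hre2, -⟩ := h1 X Y g z k θ m (hexp k) (him k) hθ0 hθ1 hm0 hmb
    have hD0 : X z k - I * Y z k ≠ 0 := by
      rw [← norm_pos_iff]
      exact (norm_nonneg _).trans_lt hlt
    have cX : ContinuousAt (fun k => X z k) k := hX.continuous.continuousAt
    have cY : ContinuousAt (fun k => Y z k) k := hY.continuous.continuousAt
    have hl1 : ContinuousAt (fun k => Complex.log (1 - I * (Y z k / X z k))) k := by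
      refine ContinuousAt.clog ?_ (Complex.mem_slitPlane_iff.mpr (Or.inl (by linarith)))
      exact continuousAt_const.sub (continuousAt_const.mul (cY.div cX (hX0 k)))
    have hl2 : ContinuousAt (fun k => Complex.log (1 + exp (2 * I * (θ : ℂ)) *
        conj (X z k + I * Y z k) / (X z k - I * Y z k))) k := by
      refine ContinuousAt.clog ?_ (Complex.mem_slitPlane_iff.mpr (Or.inl hre2))
      refine continuousAt_const.add (ContinuousAt.div (continuousAt_const.mul ?_) ?_ hD0)
      · exact Complex.continuous_conj.continuousAt.comp (cX.add (continuousAt_const.mul cY))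
      · exact cX.sub (continuousAt_const.mul cY)
    unfold Lam
    exact ((continuousAt_const.add hg.continuousAt).add hl1).add hl2
  have hC1 : ContDiff ℝ 1 (fun k => Lam X Y g θ z k) := ckeq_log hcont hU hL
  refine ⟨hC1, fun k => ?_⟩
  have dX : HasFDerivAt (fun k => X z k) (fderiv ℝ (fun k => X z k) k) k :=
    (hX.differentiable one_ne_zero k).hasFDerivAt
  have dY : HasFDerivAt (fun k => Y z k) (fderiv ℝ (fun k => Y z k) k) k :=
    (hY.differentiable one_ne_zero k).hasFDerivAt
  have dL : HasFDerivAt (fun k => Lam X Y g θ z k) (fderiv ℝ (fun k => Lam X Y g θ z k) k) k :=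
    (hC1.differentiable one_ne_zero k).hasFDerivAt
  have dU : HasFDerivAt U (l.comp (fderiv ℝ (fun k => X z k) k) -
      I • l.comp (fderiv ℝ (fun k => Y z k) k)) k :=
    (l.hasFDerivAt.comp k dX).sub ((l.hasFDerivAt.comp k dY).const_mul I)
  have dE : HasFDerivAt (fun k => exp (Lam X Y g θ z k))
      (exp (Lam X Y g θ z k) • fderiv ℝ (fun k => Lam X Y g θ z k) k) k := dL.cexp
  have hEU : (fun k => exp (Lam X Y g θ z k)) = U := funext hL
  rw [hEU] at dE
  have hun := dE.unique dU
  have hv : ∀ v : ℂ, U k * fderiv ℝ (fun k => Lam X Y g θ z k) k v =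
      l (fderiv ℝ (fun k => X z k) k v) - I * l (fderiv ℝ (fun k => Y z k) k v) := by
    intro v
    have := congrArg (fun T : ℂ →L[ℝ] ℂ => T v) hun
    simpa [hL k] using this
  have hUk : U k ≠ 0 := by rw [← hL k]; exact Complex.exp_ne_zero _
  -- the conjugate
  have hconj : exp (-(2 * I * ((Lam X Y g θ z k).im : ℂ))) = conj (U k) / U k := by
    rw [← hL k, ← Complex.exp_conj, ← Complex.exp_sub]
    congr 1
    have := Complex.sub_conj (Lam X Y g θ z k)
    push_cast at this
    linear_combination this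
  have hlre : ∀ (a : ℝ) (w : ℂ), l ((a : ℂ) * w) = (a : ℂ) * l w := by
    intro a w
    have : (a : ℂ) * w = a • w := by simp
    rw [this, map_smul]
    simp
  have h2 : l (fderiv ℝ (fun k => X z k) k 1) + l (fderiv ℝ (fun k => Y z k) k I) =
      ((tc X Y 1 k).re : ℂ) * l (X z k) + ((tc X Y 1 k).im : ℂ) * l (Y z k) := by
    rw [← map_add, eq1 k, map_add, hlre, hlre]
  have h3 : l (fderiv ℝ (fun k => Y z k) k 1) - l (fderiv ℝ (fun k => X z k) k I) =
      ((tc X Y I k).re : ℂ) * l (X z k) + ((tc X Y I k).im : ℂ) * l (Y z k) := by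
    rw [← map_sub, eqI k, map_add, hlre, hlre]
  have hcl : ∀ w, conj (l w) = l w := fun w => by rw [hl]; exact Complex.conj_ofReal _
  have hcU : conj (U k) = l (X z k) + I * l (Y z k) := by
    change conj (l (X z k) - I * l (Y z k)) = _
    rw [map_sub, map_mul, hcl, hcl, Complex.conj_I]
    ring
  have hUd : U k = l (X z k) - I * l (Y z k) := rfl
  have hdb : U k * (2 * db (fun k => Lam X Y g θ z k) k) = cA X Y k * U k + cB X Y k * conj (U k) := by
    have hr : ∀ w : ℂ, ((w.re : ℝ) : ℂ) = (w + conj w) / 2 := fun w => by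
      rw [Complex.add_conj]; push_cast; ring
    have hi : ∀ w : ℂ, ((w.im : ℝ) : ℂ) = (w - conj w) / (2 * I) := fun w => by
      rw [Complex.sub_conj]
      field_simp
      push_cast
      ring
    unfold db cA cB
    have a1 := hv 1
    have aI := hv I
    rw [hr, hi] at h2 h3
    rw [hcU]
    have hII : I * I = -1 := Complex.I_mul_I
    have hI0 : I ≠ 0 := Complex.I_ne_zero
    have hinv : ∀ w : ℂ, w / (2 * I) = -(I * w) / 2 := fun w => by
      field_simp
      rw [Complex.I_sq]; ring
    rw [hinv] at h2 h3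
    calc U k * (2 * ((fderiv ℝ (fun k => Lam X Y g θ z k) k 1 +
          I * fderiv ℝ (fun k => Lam X Y g θ z k) k I) / 2))
        = U k * fderiv ℝ (fun k => Lam X Y g θ z k) k 1 +
          I * (U k * fderiv ℝ (fun k => Lam X Y g θ z k) k I) := by ring
      _ = (l (fderiv ℝ (fun k => X z k) k 1) + l (fderiv ℝ (fun k => Y z k) k I)) -
          I * (l (fderiv ℝ (fun k => Y z k) k 1) - l (fderiv ℝ (fun k => X z k) k I)) := by
          rw [a1, aI]
          linear_combination (-l (fderiv ℝ (fun k => Y z k) k I)) * hII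
      _ = _ := by
          rw [h2, h3, hUd]
          generalize l (X z k) = x
          generalize l (Y z k) = y
          generalize tc X Y 1 k = s
          generalize tc X Y I k = t
          generalize conj s = s'
          generalize conj t = t'
          ring
  have hfin : 2 * db (fun k => Lam X Y g θ z k) k =
      (cA X Y k * U k + cB X Y k * conj (U k)) / U k := by
    rw [eq_div_iff hUk, mul_comm]
    exact hdb
  rw [hfin, hconj, add_div, mul_div_assoc, div_self hUk, mul_one, mul_div_assoc]

end Cal
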