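import Pool.Agent.Lib.MP_4ea4c7_an.StmH4

/-!
# MP_4ea4c7_an, stage 2, [c7]: the logarithm of the solutions for smooth coefficients
-/

open MeasureTheory Complex Metric Set Filter Topology
open scoped ComplexConjugate ENNReal NNReal

namespace Cal

theorem clog_abs {k0 : ℝ} {μ : ℂ → ℝ} (hk1 : k0 < 1) (h : SMu k0 μ) (z : ℂ) : |μ z| < 1 := by
  rw [abs_lt]
  exact ⟨by linarith [h.lo z], h.hi z⟩

theorem clog_den_pos {k0 : ℝ} {μ : ℂ → ℝ} (hk1 : k0 < 1) (h : SMu k0 μ) (z : ℂ) :
    0 < 1 - μ z ^ 2 := by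
  have h1 := abs_lt.mp (clog_abs hk1 h z)
  nlinarith [h1.1, h1.2]

theorem clog_den {k0 : ℝ} {μ : ℂ → ℝ} (hk1 : k0 < 1) (h : SMu k0 μ) (z : ℂ) :
    (1 : ℂ) - (μ z : ℂ) ^ 2 ≠ 0 := by
  have h1 : ((1 - μ z ^ 2 : ℝ) : ℂ) ≠ 0 := by
    exact_mod_cast (clog_den_pos hk1 h z).ne'
  push_cast at h1
  exact h1

theorem clog_muC {k0 : ℝ} {μ : ℂ → ℝ} (h : SMu k0 μ) : Continuous (fun z => (μ z : ℂ)) :=
  Complex.continuous_ofReal.comp h.smooth.continuous

theorem clog_db {k0 : ℝ} {μ : ℂ → ℝ} (h : SMu k0 μ) :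
    Continuous (fun z => db (fun w => (μ w : ℂ)) z) := by
  have hs : ContDiff ℝ (⊤ : ℕ∞) (fun w => (μ w : ℂ)) :=
    Complex.ofRealCLM.contDiff.comp h.smooth
  have hf : Continuous (fderiv ℝ (fun w => (μ w : ℂ))) := hs.continuous_fderiv (by simp)
  unfold db
  exact ((hf.clm_apply continuous_const).add
    (continuous_const.mul (hf.clm_apply continuous_const))).div_const 2

theorem clog_db_zero {k0 : ℝ} {μ : ℂ → ℝ} (h : SMu k0 μ) {z : ℂ} (hz : 7 / 8 < ‖z‖) :
    db (fun w => (μ w : ℂ)) z = 0 := by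
  have hev : (fun w => (μ w : ℂ)) =ᶠ[𝓝 z] fun _ => 0 := by
    have ho : IsOpen {w : ℂ | 7 / 8 < ‖w‖} := isOpen_lt continuous_const continuous_norm
    filter_upwards [ho.mem_nhds hz] with w hw
    rw [h.supp w hw]
    simp
  have hf : fderiv ℝ (fun w => (μ w : ℂ)) z = 0 := by
    rw [hev.fderiv_eq]
    simp
  unfold db
  rw [hf]
  simp

theorem clog_be {k0 : ℝ} {μ : ℂ → ℝ} (hk1 : k0 < 1) (h : SMu k0 μ) : Continuous (be μ) := by
  unfold be
  exact (clog_db h).neg.div (continuous_const.sub ((clog_muC h).pow 2)) (clog_den hk1 h)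

theorem clog_al {k0 : ℝ} {μ : ℂ → ℝ} (hk1 : k0 < 1) (h : SMu k0 μ) : Continuous (al μ) := by
  unfold al
  exact (clog_muC h).mul (clog_be hk1 h)

theorem clog_zero {k0 : ℝ} {μ : ℂ → ℝ} (h : SMu k0 μ) {z : ℂ} (hz : 7 / 8 < ‖z‖) :
    al μ z = 0 ∧ be μ z = 0 := by
  have h1 : be μ z = 0 := by
    unfold be
    rw [clog_db_zero h hz]
    simp
  exact ⟨by unfold al; rw [h1, mul_zero], h1⟩

theorem clog_int {L : ℂ → ℂ} (hc : Continuous L) (he : ∀ z, exp (L z) = 1) (hD : Dec L) :
    ∀ z, L z = 0 := by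
  have hpi := Real.pi_pos
  have hval : ∀ z, L z = 0 ∨ 2 * Real.pi ≤ ‖L z‖ := by
    intro z
    obtain ⟨n, hn⟩ := Complex.exp_eq_one_iff.mp (he z)
    by_cases hn0 : n = 0
    · left
      rw [hn, hn0]
      simp
    · right
      have h2 : (1 : ℝ) ≤ |(n : ℝ)| := by
        have : (1 : ℤ) ≤ |n| := Int.one_le_abs hn0
        exact_mod_cast this
      have h3 : ‖(n : ℂ) * (2 * Real.pi * I)‖ = |(n : ℝ)| * (2 * Real.pi) := by
        rw [norm_mul, norm_mul, norm_mul, Complex.norm_I, Complex.norm_real,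
          Complex.norm_intCast]
        simp [abs_of_pos Real.pi_pos]
      rw [hn, h3]
      nlinarith
  obtain ⟨C, hC⟩ := hD
  -- a point where `L` is small
  obtain ⟨z0, hz0⟩ : ∃ z0, L z0 = 0 := by
    have hR : (0 : ℝ) < max 2 |C| := lt_of_lt_of_le two_pos (le_max_left _ _)
    have hn : ‖((max 2 |C| : ℝ) : ℂ)‖ = max 2 |C| := by
      rw [Complex.norm_real, Real.norm_eq_abs, abs_of_pos hR]
    refine ⟨((max 2 |C| : ℝ) : ℂ), ?_⟩
    rcases hval ((max 2 |C| : ℝ) : ℂ) with h | h
    · exact h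
    · exfalso
      have h1 := hC ((max 2 |C| : ℝ) : ℂ) (by rw [hn]; exact le_max_left _ _)
      rw [hn] at h1
      have h2 : C / max 2 |C| ≤ 1 := by
        rw [div_le_one hR]
        exact (le_abs_self C).trans (le_max_right _ _)
      have h3 : (3 : ℝ) < Real.pi := Real.pi_gt_three
      linarith
  intro z
  by_contra hne
  have hz2 : 2 * Real.pi ≤ ‖L z‖ := (hval z).resolve_left hne
  have hsub := isPreconnected_univ.intermediate_value (mem_univ z0) (mem_univ z)
    hc.norm.continuousOn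
  have hmem : Real.pi ∈ Icc ‖L z0‖ ‖L z‖ := by
    rw [hz0, norm_zero]
    exact ⟨hpi.le, by linarith⟩
  obtain ⟨q, _, hqv⟩ := hsub hmem
  rcases hval q with h | h
  · simp only [h, norm_zero] at hqv
    linarith
  · simp only at hqv
    linarith

theorem piece_clog (h1 : S_cnz) (h2 : S_cF) : S_clog := by
  intro k0 μ c N hk0 hk1 hμ hc hN
  have hal := clog_al hk1 hμ
  have hbe := clog_be hk1 hμ
  obtain ⟨ω, hωc, hωe, hω⟩ := h1 (al μ) (be μ) c N hal hbe (fun z hz => clog_zero hμ hz) hc hN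
  obtain ⟨_, _, _, _, hF0⟩ := h2 k0 μ c N hk1 hμ hN
  -- the function `f`
  have hf : ∀ z k, exp (I * k * z) * N z k = c * exp (I * k * z + ω z k) := by
    intro z k
    rw [hωe z k, Complex.exp_add]
    ring
  have hfne : ∀ z k, exp (I * k * z) * N z k ≠ 0 := by
    intro z k
    rw [hf z k]
    exact mul_ne_zero hc (Complex.exp_ne_zero _)
  have hfc : Continuous (fun p : ℂ × ℂ => exp (I * p.2 * p.1) * N p.1 p.2) :=
    (Complex.continuous_exp.comp
      ((continuous_const.mul continuous_snd).mul continuous_fst)).mul hN.cont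
  set q : ℂ → ℂ → ℂ := fun z k =>
    (μ z : ℂ) * (conj (exp (I * k * z) * N z k) / (exp (I * k * z) * N z k)) with hq
  have hqn : ∀ z k, ‖q z k‖ < 1 := by
    intro z k
    simp only [hq]
    rw [norm_mul, norm_div, Complex.norm_conj, div_self (norm_ne_zero_iff.mpr (hfne z k)),
      mul_one, Complex.norm_real, Real.norm_eq_abs]
    exact clog_abs hk1 hμ z
  have hqc : Continuous (fun p : ℂ × ℂ => q p.1 p.2) := by
    simp only [hq]
    exact ((clog_muC hμ).comp continuous_fst).mul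
      ((Complex.continuous_conj.comp hfc).div hfc (fun p => hfne p.1 p.2))
  have hslit : ∀ z k, 1 + q z k ∈ slitPlane := by
    intro z k
    left
    have h3 := Complex.abs_re_le_norm (q z k)
    have h4 := abs_le.mp (h3.trans (hqn z k).le)
    have h5 : -1 < (q z k).re := by
      have := neg_le_of_abs_le h3
      linarith [hqn z k]
    simp only [Complex.add_re, Complex.one_re]
    linarith
  have h1q : ∀ z k, 1 + q z k ≠ 0 := fun z k => Complex.slitPlane_ne_zero (hslit z k)
  set D : ℂ → ℂ → ℂ := fun z k =>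
    ω z k + Complex.log (1 + q z k) - ((Real.log (1 - μ z ^ 2) : ℝ) : ℂ) with hD
  have hDc : Continuous (fun p : ℂ × ℂ => D p.1 p.2) := by
    simp only [hD]
    refine (hωc.add ?_).sub ?_
    · exact (continuous_const.add hqc).clog (fun p => hslit p.1 p.2)
    · refine Complex.continuous_ofReal.comp ?_
      refine Continuous.log ?_ (fun p => (clog_den_pos hk1 hμ p.1).ne')
      exact continuous_const.sub ((hμ.smooth.continuous.comp continuous_fst).pow 2)
  have hDe : ∀ z k, Fof μ N z k = c * exp (I * k * z + D z k) := by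
    intro z k
    have e1 : exp (I * k * z + D z k) = exp (I * k * z + ω z k) * (1 + q z k) /
        (1 - (μ z : ℂ) ^ 2) := by
      have e2 : I * k * z + D z k = (I * k * z + ω z k) + Complex.log (1 + q z k) -
          ((Real.log (1 - μ z ^ 2) : ℝ) : ℂ) := by
        simp only [hD]; ring
      rw [e2, Complex.exp_sub, Complex.exp_add (I * k * z + ω z k), Complex.exp_log (h1q z k),
        ← Complex.ofReal_exp, Real.exp_log (clog_den_pos hk1 hμ z)]
      push_cast
      ring
    rw [e1]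
    have e3 : (exp (I * k * z) * N z k) * q z k = (μ z : ℂ) * conj (exp (I * k * z) * N z k) := by
      simp only [hq]
      rw [mul_left_comm, mul_div_assoc']
      rw [mul_div_cancel_left₀ _ (hfne z k)]
    have e4 : Fof μ N z k = (exp (I * k * z) * N z k + (exp (I * k * z) * N z k) * q z k) /
        (1 - (μ z : ℂ) ^ 2) := by
      rw [e3]; rfl
    rw [e4]
    have e5 : exp (I * k * z) * N z k + (exp (I * k * z) * N z k) * q z k =
        c * exp (I * k * z + ω z k) * (1 + q z k) := by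
      rw [← hf z k]; ring
    rw [e5]
    ring
  have hDω : ∀ z k, 7 / 8 < ‖z‖ → D z k = ω z k := by
    intro z k hz
    simp only [hD, hq]
    rw [hμ.supp z hz]
    simp
  have hdiff : ∀ k, DifferentiableOn ℂ (fun z => D z k) {z | 7 / 8 < ‖z‖} := by
    intro k
    exact (hω k).1.congr (fun z hz => hDω z k hz)
  have hdec : ∀ k, Dec (fun z => D z k) := by
    intro k
    obtain ⟨C, hC⟩ := (hω k).2
    refine ⟨C, fun z hz => ?_⟩
    have : 7 / 8 < ‖z‖ := by linarith
    simp only [hDω z k this]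
    exact hC z hz
  refine ⟨D, hDc, hDe, ?_, fun k => ⟨hdiff k, hdec k⟩⟩
  -- the value at `k = 0`
  refine clog_int (L := fun z => D z 0) ?_ ?_ (hdec 0)
  · exact hDc.comp (continuous_id.prodMk continuous_const)
  · intro z
    have e1 := hDe z 0
    rw [hF0 z, mul_zero, zero_mul, zero_add] at e1
    have e2 : c * exp (D z 0) = c * 1 := by rw [← e1, mul_one]
    exact mul_left_cancel₀ hc e2

end Cal
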