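import Pool.Agent.Lib.MP_4ea4c7_an.StmH4

/-!
# [c3] The functions `N^c(z,k)` and their derivatives in `k`
-/

open MeasureTheory Complex Metric Set Filter Topology
open scoped ComplexConjugate ENNReal NNReal Convolution

namespace Cal

noncomputable section

/-! ## The Cauchy transform of continuous functions with compact support -/

private theorem cns_loc : LocallyIntegrable (fun t : ℂ => t⁻¹) (volume : Measure ℂ) := by
  rw [locallyIntegrable_iff]
  intro K hK
  obtain ⟨r, hr⟩ := hK.isBounded.subset_ball (0 : ℂ)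
  refine IntegrableOn.mono_set ?_ hr
  have h1 : IntegrableOn (fun x : ℂ => (‖x‖)⁻¹) (ball (0 : ℂ) r) volume := by
    rw [integrableOn_fun_norm_addHaar volume (f := fun y : ℝ => y⁻¹)]
    rw [Complex.finrank_real_complex]
    have h2 : IntegrableOn (fun _ : ℝ => (1 : ℝ)) (Ioo 0 r) volume :=
      integrableOn_const (by simp)
    refine h2.congr_fun (fun y hy => ?_) measurableSet_Ioo
    have : y ≠ 0 := hy.1.ne'
    simp [this]
  refine Integrable.mono' h1 (measurable_inv.aestronglyMeasurable) ?_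
  exact Filter.Eventually.of_forall fun x => by simp

private theorem cns_int0 {w : ℂ → ℂ} (hw : Continuous w) (hc : HasCompactSupport w) (z : ℂ) :
    Integrable (fun t : ℂ => t⁻¹ * w (z - t)) volume :=
  hc.convolutionExists_right (ContinuousLinearMap.mul ℝ ℂ) cns_loc hw z

private def CK (w : ℂ → ℂ) : Prop := Continuous w ∧ ∀ z, 7 / 8 < ‖z‖ → w z = 0

private lemma CK.hcs {w : ℂ → ℂ} (h : CK w) : HasCompactSupport w :=
  HasCompactSupport.intro (isCompact_closedBall (0 : ℂ) (7 / 8)) (fun z hz => h.2 z (by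
    rw [mem_closedBall_zero_iff, not_le] at hz; exact hz))

private lemma CK.add {u v : ℂ → ℂ} (hu : CK u) (hv : CK v) : CK (fun z => u z + v z) :=
  ⟨hu.1.add hv.1, fun z hz => by
    show u z + v z = 0
    rw [hu.2 z hz, hv.2 z hz, add_zero]⟩

private lemma CK.sub {u v : ℂ → ℂ} (hu : CK u) (hv : CK v) : CK (fun z => u z - v z) :=
  ⟨hu.1.sub hv.1, fun z hz => by
    show u z - v z = 0
    rw [hu.2 z hz, hv.2 z hz, sub_zero]⟩

private lemma CK.mul {u v : ℂ → ℂ} (hu : CK u) (hv : Continuous v) : CK (fun z => u z * v z) :=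
  ⟨hu.1.mul hv, fun z hz => by
    show u z * v z = 0
    rw [hu.2 z hz, zero_mul]⟩

private lemma CK.cmul {u v : ℂ → ℂ} (hu : CK u) (hv : Continuous v) : CK (fun z => v z * u z) :=
  ⟨hv.mul hu.1, fun z hz => by
    show v z * u z = 0
    rw [hu.2 z hz, mul_zero]⟩

private lemma cns_int {w : ℂ → ℂ} (h : CK w) (z : ℂ) :
    Integrable (fun ζ => w ζ / (z - ζ)) volume := by
  have h1 := (cns_int0 h.1 h.hcs z).comp_sub_left z
  refine h1.congr (Filter.Eventually.of_forall fun ζ => ?_)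
  simp only [sub_sub_cancel]
  rw [div_eq_mul_inv, mul_comm]

private lemma cns_add {u v : ℂ → ℂ} (hu : CK u) (hv : CK v) (z : ℂ) :
    Ct (fun ζ => u ζ + v ζ) z = Ct u z + Ct v z := by
  unfold Ct
  rw [← mul_add, ← integral_add (cns_int hu z) (cns_int hv z)]
  simp only [add_div]

private lemma cns_smul (c : ℂ) (u : ℂ → ℂ) (z : ℂ) : Ct (fun ζ => c * u ζ) z = c * Ct u z := by
  unfold Ct
  simp only [mul_div_assoc]
  rw [integral_const_mul]
  ring

private lemma cns_sub {u v : ℂ → ℂ} (hu : CK u) (hv : CK v) (z : ℂ) :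
    Ct (fun ζ => u ζ - v ζ) z = Ct u z - Ct v z := by
  unfold Ct
  rw [← mul_sub, ← integral_sub (cns_int hu z) (cns_int hv z)]
  simp only [sub_div]

/-! ## The oscillating factor -/

private lemma ek_norm (k z : ℂ) : ‖ek k z‖ = 1 := by
  have h : ek k z = exp (((-(2 * (k * z).re) : ℝ) : ℂ) * I) := by
    unfold ek
    congr 1
    rw [Complex.add_conj]
    push_cast
    ring
  rw [h, Complex.norm_exp_ofReal_mul_I]

private lemma ek_add (k t z : ℂ) : ek (k + t) z = ek k z * ek t z := by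
  unfold ek
  rw [← Complex.exp_add]
  congr 1
  rw [add_mul, map_add]
  ring

private lemma ek_cont (k : ℂ) : Continuous (fun z => ek k z) := by
  unfold ek
  fun_prop

private lemma ek_one (t z : ℂ) : ‖ek t z - 1‖ ≤ 2 * ‖t‖ * ‖z‖ := by
  have h : ek t z = exp (I * ((-(2 * (t * z).re) : ℝ) : ℂ)) := by
    unfold ek
    congr 1
    rw [Complex.add_conj]
    push_cast
    ring
  rw [h]
  refine le_trans Real.norm_exp_I_mul_ofReal_sub_one_le ?_
  rw [norm_neg, Real.norm_eq_abs, abs_mul, abs_two]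
  have h1 : |(t * z).re| ≤ ‖t * z‖ := Complex.abs_re_le_norm _
  rw [norm_mul] at h1
  nlinarith

private lemma ek_lin (t z : ℂ) (h : 2 * ‖t‖ * ‖z‖ ≤ 1) :
    ‖ek t z - 1 + I * (t * z + conj (t * z))‖ ≤ (2 * ‖t‖ * ‖z‖) ^ 2 := by
  have h1 : ‖-(I * (t * z + conj (t * z)))‖ ≤ 2 * ‖t‖ * ‖z‖ := by
    rw [norm_neg, norm_mul, Complex.norm_I, one_mul]
    refine le_trans (norm_add_le _ _) ?_
    rw [RCLike.norm_conj, norm_mul]
    linarith
  have h2 := norm_exp_sub_one_sub_id_le (h1.trans h)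
  have h3 : exp (-(I * (t * z + conj (t * z)))) - 1 - -(I * (t * z + conj (t * z))) =
      ek t z - 1 + I * (t * z + conj (t * z)) := by
    unfold ek
    ring
  rw [h3] at h2
  refine h2.trans ?_
  have h4 : (0 : ℝ) ≤ ‖-(I * (t * z + conj (t * z)))‖ := norm_nonneg _
  exact pow_le_pow_left₀ h4 h1 2

/-! ## The package of estimates -/

private structure PK (a b : ℂ → ℂ) (M0 C C4 : ℝ) : Prop where
  ha : CK a
  hb : CK b
  hM0 : 0 ≤ M0
  hM : ∀ z, ‖a z‖ ≤ M0 ∧ ‖b z‖ ≤ M0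
  hC : 0 ≤ C
  hC4 : 0 ≤ C4
  c4 : ∀ (w : ℂ → ℂ) (M : ℝ), CK w → (∀ z, ‖w z‖ ≤ M) → Continuous (Ct w) ∧ (∀ z, ‖Ct w z‖ ≤ C4 * M)
  apri : ∀ (k : ℂ) (h N : ℂ → ℂ) (H : ℝ), Continuous h → (∀ z, ‖h z‖ ≤ H) → Continuous N →
    (∀ z, N z = h z + Ct (fun ζ => a ζ * N ζ + b ζ * ek k ζ * conj (N ζ)) z) → ∀ z, ‖N z‖ ≤ C * H
  solve : ∀ (k : ℂ) (h : ℂ → ℂ) (H : ℝ), Continuous h → (∀ z, ‖h z‖ ≤ H) → ∃ N : ℂ → ℂ, Continuous N ∧
    ∀ z, N z = h z + Ct (fun ζ => a ζ * N ζ + b ζ * ek k ζ * conj (N ζ)) z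

variable {a b : ℂ → ℂ} {M0 C C4 : ℝ}

private lemma PK.ckF (P : PK a b M0 C C4) (k : ℂ) {N : ℂ → ℂ} (hN : Continuous N) :
    CK (fun ζ => a ζ * N ζ + b ζ * ek k ζ * conj (N ζ)) :=
  (P.ha.mul hN).add ((P.hb.mul (ek_cont k)).mul (Complex.continuous_conj.comp hN))

private lemma PK.pert (P : PK a b M0 C C4) (k : ℂ) (G R : ℂ → ℂ) (g : ℝ) (hG : CK G)
    (hGg : ∀ z, ‖G z‖ ≤ g) (hR : Continuous R)
    (hRe : ∀ z, R z = Ct (fun ζ => G ζ + (a ζ * R ζ + b ζ * ek k ζ * conj (R ζ))) z) :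
    ∀ z, ‖R z‖ ≤ C * (C4 * g) := by
  obtain ⟨h1, h2⟩ := P.c4 G g hG hGg
  apply P.apri k (Ct G) R (C4 * g) h1 h2 hR
  intro z
  rw [hRe z, cns_add hG (P.ckF k hR)]

private lemma PK.ekd (P : PK a b M0 C C4) (k k' ζ : ℂ) :
    ‖b ζ * (ek k' ζ - ek k ζ)‖ ≤ M0 * (2 * ‖k' - k‖) := by
  by_cases h : 7 / 8 < ‖ζ‖
  · rw [P.hb.2 ζ h, zero_mul, norm_zero]
    exact mul_nonneg P.hM0 (by positivity)
  · push Not at h
    have h1 : ek k' ζ - ek k ζ = ek k ζ * (ek (k' - k) ζ - 1) := by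
      have : k' = k + (k' - k) := by ring
      conv_lhs => rw [this]
      rw [ek_add]
      ring
    rw [norm_mul, h1, norm_mul, ek_norm, one_mul]
    refine mul_le_mul (P.hM ζ).2 ?_ (norm_nonneg _) P.hM0
    refine (ek_one _ _).trans ?_
    have := norm_nonneg (k' - k)
    nlinarith

private lemma PK.db' (P : PK a b M0 C C4) (d : ℂ → ℂ) (hd : ∀ ζ, ‖ζ‖ ≤ 1 → ‖d ζ‖ ≤ 2) (ζ : ℂ) :
    ‖d ζ * b ζ‖ ≤ 2 * M0 := by
  by_cases h : 7 / 8 < ‖ζ‖
  · rw [P.hb.2 ζ h, mul_zero, norm_zero]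
    linarith [P.hM0]
  · push Not at h
    rw [norm_mul]
    exact mul_le_mul (hd ζ (by linarith)) (P.hM ζ).2 (norm_nonneg _) (by norm_num)

private lemma PK.dekd (P : PK a b M0 C C4) (d : ℂ → ℂ) (hd : ∀ ζ, ‖ζ‖ ≤ 1 → ‖d ζ‖ ≤ 2) (k k' ζ : ℂ) :
    ‖d ζ * b ζ * (ek k' ζ - ek k ζ)‖ ≤ 2 * M0 * (2 * ‖k' - k‖) := by
  by_cases h : 7 / 8 < ‖ζ‖
  · rw [P.hb.2 ζ h, mul_zero, zero_mul, norm_zero]
    exact mul_nonneg (by linarith [P.hM0]) (by positivity)
  · push Not at h
    rw [mul_assoc, norm_mul, mul_assoc]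
    exact mul_le_mul (hd ζ (by linarith)) (P.ekd k k' ζ) (norm_nonneg _) (by norm_num)

/-- Lipschitz continuity of `N` in `k`. -/
private lemma PK.lipN (P : PK a b M0 C C4) (c : ℂ) (N : ℂ → ℂ → ℂ) (B : ℝ)
    (hc : ∀ k, Continuous (fun z => N z k)) (hB : ∀ z k, ‖N z k‖ ≤ B)
    (hN : ∀ z k, N z k = c + Ct (fun ζ => a ζ * N ζ k + b ζ * ek k ζ * conj (N ζ k)) z) (z k k' : ℂ) :
    ‖N z k' - N z k‖ ≤ C * (C4 * (M0 * 2 * B)) * ‖k' - k‖ := by
  have hB0 : 0 ≤ B := (norm_nonneg _).trans (hB 0 0)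
  have hG : CK (fun ζ => b ζ * (ek k' ζ - ek k ζ) * conj (N ζ k)) :=
    (P.hb.mul ((ek_cont k').sub (ek_cont k))).mul (Complex.continuous_conj.comp (hc k))
  have h1 := P.pert k' (fun ζ => b ζ * (ek k' ζ - ek k ζ) * conj (N ζ k)) (fun z => N z k' - N z k)
    (M0 * (2 * ‖k' - k‖) * B) hG (fun ζ => by
      rw [norm_mul, RCLike.norm_conj]
      exact mul_le_mul (P.ekd k k' ζ) (hB _ _) (norm_nonneg _) (mul_nonneg P.hM0 (by positivity)))
    ((hc k').sub (hc k)) (fun z => by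
      rw [hN z k', hN z k, add_sub_add_left_eq_sub, ← cns_sub (P.ckF k' (hc k')) (P.ckF k (hc k))]
      congr 1
      funext ζ
      rw [map_sub]
      ring) z
  refine h1.trans (le_of_eq ?_)
  ring

/-- The solution of the differentiated equation. -/
private lemma PK.der (P : PK a b M0 C C4) (N : ℂ → ℂ → ℂ) (B L : ℝ)
    (hc : ∀ k, Continuous (fun z => N z k)) (hB : ∀ z k, ‖N z k‖ ≤ B)
    (hL : ∀ z k k', ‖N z k' - N z k‖ ≤ L * ‖k' - k‖) (d : ℂ → ℂ) (hdc : Continuous d)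
    (hd : ∀ ζ, ‖ζ‖ ≤ 1 → ‖d ζ‖ ≤ 2) :
    ∃ (Nd : ℂ → ℂ → ℂ) (B' L' : ℝ), (∀ k, Continuous (fun z => Nd z k)) ∧ (∀ z k, ‖Nd z k‖ ≤ B') ∧
      (∀ z k k', ‖Nd z k' - Nd z k‖ ≤ L' * ‖k' - k‖) ∧
      ∀ z k, Nd z k = Ct (fun ζ => d ζ * b ζ * ek k ζ * conj (N ζ k) +
        (a ζ * Nd ζ k + b ζ * ek k ζ * conj (Nd ζ k))) z := by
  have hB0 : 0 ≤ B := (norm_nonneg _).trans (hB 0 0)
  have hM0 := P.hM0
  have hG : ∀ k, CK (fun ζ => d ζ * b ζ * ek k ζ * conj (N ζ k)) := fun k =>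
    ((P.hb.cmul hdc).mul (ek_cont k)).mul (Complex.continuous_conj.comp (hc k))
  have hGb : ∀ k ζ, ‖d ζ * b ζ * ek k ζ * conj (N ζ k)‖ ≤ 2 * M0 * B := by
    intro k ζ
    rw [norm_mul, norm_mul, ek_norm, mul_one, RCLike.norm_conj]
    exact mul_le_mul (P.db' d hd ζ) (hB _ _) (norm_nonneg _) (by linarith)
  have hex : ∀ k, ∃ R : ℂ → ℂ, Continuous R ∧ ∀ z, R z = Ct (fun ζ => d ζ * b ζ * ek k ζ * conj (N ζ k) +
        (a ζ * R ζ + b ζ * ek k ζ * conj (R ζ))) z := by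
    intro k
    obtain ⟨h1, h2⟩ := P.c4 _ _ (hG k) (hGb k)
    obtain ⟨R, hR, hRe⟩ := P.solve k _ _ h1 h2
    refine ⟨R, hR, fun z => ?_⟩
    rw [cns_add (hG k) (P.ckF k hR)]
    exact hRe z
  choose Nd' hNc hNe using hex
  have hNb : ∀ k z, ‖Nd' k z‖ ≤ C * (C4 * (2 * M0 * B)) := fun k z =>
    P.pert k _ _ _ (hG k) (hGb k) (hNc k) (hNe k) z
  refine ⟨fun z k => Nd' k z, C * (C4 * (2 * M0 * B)), C * (C4 * (2 * M0 * (2 * B + L) + M0 * 2 * (C * (C4 * (2 * M0 * B))))),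
    hNc, fun z k => hNb k z, ?_, fun z k => hNe k z⟩
  intro z k k'
  have hG' : CK (fun ζ => (d ζ * b ζ * ek k' ζ * conj (N ζ k') - d ζ * b ζ * ek k ζ * conj (N ζ k)) +
      b ζ * (ek k' ζ - ek k ζ) * conj (Nd' k ζ)) :=
    ((hG k').sub (hG k)).add
      ((P.hb.mul ((ek_cont k').sub (ek_cont k))).mul (Complex.continuous_conj.comp (hNc k)))
  have h1 := P.pert k' _ (fun z => Nd' k' z - Nd' k z)
    ((2 * M0 * (2 * ‖k' - k‖) * B + 2 * M0 * (L * ‖k' - k‖)) + M0 * (2 * ‖k' - k‖) * (C * (C4 * (2 * M0 * B)))) hG' (fun ζ => by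
      refine (norm_add_le _ _).trans (add_le_add ?_ ?_)
      · have h2 : d ζ * b ζ * ek k' ζ * conj (N ζ k') - d ζ * b ζ * ek k ζ * conj (N ζ k) =
            d ζ * b ζ * (ek k' ζ - ek k ζ) * conj (N ζ k') +
              d ζ * b ζ * ek k ζ * conj (N ζ k' - N ζ k) := by
          rw [map_sub]
          ring
        rw [h2]
        refine (norm_add_le _ _).trans (add_le_add ?_ ?_)
        · rw [norm_mul, RCLike.norm_conj]
          exact mul_le_mul (P.dekd d hd k k' ζ) (hB _ _) (norm_nonneg _)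
            (mul_nonneg (by linarith) (by positivity))
        · rw [norm_mul, norm_mul, ek_norm, mul_one, RCLike.norm_conj]
          exact mul_le_mul (P.db' d hd ζ) (hL _ _ _) (norm_nonneg _) (by linarith)
      · rw [norm_mul, RCLike.norm_conj]
        exact mul_le_mul (P.ekd k k' ζ) (hNb _ _) (norm_nonneg _) (mul_nonneg hM0 (by positivity)))
    ((hNc k').sub (hNc k)) (fun z => by
      show Nd' k' z - Nd' k z = _
      have e1 := hNe k' z
      have e2 := hNe k z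
      rw [e1, e2, ← cns_sub ((hG k').add (P.ckF k' (hNc k'))) ((hG k).add (P.ckF k (hNc k)))]
      congr 1
      funext ζ
      rw [map_sub]
      ring) z
  refine h1.trans (le_of_eq ?_)
  ring

/-- Joint continuity from continuity in `z` and Lipschitz continuity in `k`. -/
private lemma cns_jc (N : ℂ → ℂ → ℂ) (L : ℝ) (hc : ∀ k, Continuous (fun z => N z k))
    (hL : ∀ z k k', ‖N z k' - N z k‖ ≤ L * ‖k' - k‖) : Continuous (fun p : ℂ × ℂ => N p.1 p.2) := by
  rw [continuous_iff_continuousAt]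
  rintro ⟨z, k⟩
  have h1 : Tendsto (fun p : ℂ × ℂ => (N p.1 p.2 - N p.1 k) + N p.1 k) (𝓝 (z, k)) (𝓝 (0 + N z k)) := by
    apply Tendsto.add
    · apply squeeze_zero_norm (a := fun p : ℂ × ℂ => L * ‖p.2 - k‖) (fun p => hL p.1 k p.2)
      have h2 : Continuous (fun p : ℂ × ℂ => L * ‖p.2 - k‖) := by fun_prop
      have h3 := h2.tendsto (z, k)
      simpa using h3
    · exact ((hc k).comp continuous_fst).tendsto (z, k)
  simp only [sub_add_cancel, zero_add] at h1
  exact h1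

private lemma cns_isLO (K : ℝ) (f : ℂ → ℂ) (hf : ∀ t, ‖t‖ ≤ 1 / 2 → ‖f t‖ ≤ K * ‖t‖ ^ 2) :
    f =o[𝓝 0] fun t : ℂ => t := by
  have h1 : f =O[𝓝 0] (fun t : ℂ => ‖t‖ ^ 2) := by
    apply Asymptotics.IsBigO.of_bound K
    filter_upwards [Metric.closedBall_mem_nhds (0 : ℂ) (by norm_num : (0 : ℝ) < 1 / 2)] with t ht
    rw [norm_pow, norm_norm]
    exact hf t (mem_closedBall_zero_iff.1 ht)
  exact h1.trans_isLittleO (Asymptotics.isLittleO_norm_pow_id one_lt_two)

theorem piece_cns (h1 : S_capri) (h2 : S_csolve) (h3 : S_C4) : S_cns := by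
  intro a b ha hb hab c
  have hca : CK a := ⟨ha, fun z hz => (hab z hz).1⟩
  have hcb : CK b := ⟨hb, fun z hz => (hab z hz).2⟩
  obtain ⟨Ma, hMa⟩ := hca.hcs.exists_bound_of_continuous ha
  obtain ⟨Mb, hMb⟩ := hcb.hcs.exists_bound_of_continuous hb
  have hM0 : 0 ≤ max Ma Mb := (norm_nonneg _).trans ((hMa 0).trans (le_max_left _ _))
  obtain ⟨C, hC, hapri⟩ := h1 (max Ma Mb) hM0
  obtain ⟨C4, hC4, hc4⟩ := h3
  have P : PK a b (max Ma Mb) C C4 := by
    have hbk : ∀ k : ℂ, Measurable (fun ζ => b ζ * ek k ζ) := fun k =>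
      (hb.mul (ek_cont k)).measurable
    have hbb : ∀ k z : ℂ, ‖a z‖ ≤ max Ma Mb ∧ ‖b z * ek k z‖ ≤ max Ma Mb := fun k z =>
      ⟨(hMa z).trans (le_max_left _ _), by
        rw [norm_mul, ek_norm, mul_one]; exact (hMb z).trans (le_max_right _ _)⟩
    have hs : ∀ k z : ℂ, 5 / 4 < ‖z‖ → a z = 0 ∧ b z * ek k z = 0 := fun k z hz => by
      obtain ⟨e1, e2⟩ := hab z (by linarith)
      exact ⟨e1, by rw [e2, zero_mul]⟩
    refine ⟨hca, hcb, hM0, fun z => ⟨(hMa z).trans (le_max_left _ _), (hMb z).trans (le_max_right _ _)⟩,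
      hC, hC4, ?_, ?_, ?_⟩
    · intro w M hw hwM
      obtain ⟨e1, e2, -⟩ := hc4 w M hw.1.aestronglyMeasurable hwM (fun z hz => hw.2 z (by linarith))
      refine ⟨e1, fun z => (e2 z).trans ?_⟩
      have hM : 0 ≤ M := (norm_nonneg _).trans (hwM 0)
      exact div_le_self (mul_nonneg hC4 hM) (by linarith [norm_nonneg z])
    · intro k h N H hh hH hN hNe
      exact hapri a (fun ζ => b ζ * ek k ζ) h N H ha.measurable (hbk k) (hbb k) (hs k) hh hH hN hNe
    · intro k h H hh hH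
      exact (h2 (max Ma Mb) hM0 a (fun ζ => b ζ * ek k ζ) ha.measurable (hbk k) (hbb k) (hs k)).1 h H hh hH
  generalize max Ma Mb = M0 at P hM0
  -- the function `N`
  have hex : ∀ k, ∃ R : ℂ → ℂ, Continuous R ∧ ∀ z, R z = c + Ct (fun ζ => a ζ * R ζ + b ζ * ek k ζ * conj (R ζ)) z :=
    fun k => P.solve k (fun _ => c) ‖c‖ continuous_const (fun _ => le_rfl)
  choose N' hNc hNe using hex
  have hNb : ∀ k z, ‖N' k z‖ ≤ C * ‖c‖ := fun k z =>
    P.apri k (fun _ => c) (N' k) ‖c‖ continuous_const (fun _ => le_rfl) (hNc k) (hNe k) z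
  have hL := P.lipN c (fun z k => N' k z) (C * ‖c‖) hNc (fun z k => hNb k z) (fun z k => hNe k z)
  obtain ⟨N1, B1, L1, h1c, h1b, h1l, h1e⟩ := P.der (fun z k => N' k z) (C * ‖c‖) _ hNc (fun z k => hNb k z) hL
    (fun ζ => -(I * (ζ + conj ζ))) (by fun_prop) (by
      intro ζ hζ
      rw [norm_neg, norm_mul, Complex.norm_I, one_mul]
      refine (norm_add_le _ _).trans ?_
      rw [RCLike.norm_conj]
      linarith)
  obtain ⟨N2, B2, L2, h2c, h2b, h2l, h2e⟩ := P.der (fun z k => N' k z) (C * ‖c‖) _ hNc (fun z k => hNb k z) hL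
    (fun ζ => ζ - conj ζ) (by fun_prop) (by
      intro ζ hζ
      refine (norm_sub_le _ _).trans ?_
      rw [RCLike.norm_conj]
      linarith)
  have hjN := cns_jc (fun z k => N' k z) _ hNc hL
  have hj1 := cns_jc N1 L1 h1c h1l
  have hj2 := cns_jc N2 L2 h2c h2l
  have hB10 : 0 ≤ B1 := (norm_nonneg _).trans (h1b 0 0)
  have hB20 : 0 ≤ B2 := (norm_nonneg _).trans (h2b 0 0)
  -- the derivative
  have hder : ∀ z k, HasFDerivAt (fun k => N' k z)
      ((Complex.reCLM.smulRight (N1 z k)) + (Complex.imCLM.smulRight (N2 z k))) k := by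
    intro z k
    rw [hasFDerivAt_iff_isLittleO_nhds_zero]
    apply cns_isLO (C * (C4 * (M0 * 4 * (C * ‖c‖) + M0 * 2 * (B1 + B2))))
    intro t ht
    have hG : CK (fun ζ => b ζ * ((ek (k + t) ζ - ek k ζ + I * (t * ζ + conj (t * ζ)) * ek k ζ) * conj (N' k ζ) +
        (ek (k + t) ζ - ek k ζ) * ((t.re : ℂ) * conj (N1 ζ k) + (t.im : ℂ) * conj (N2 ζ k)))) := by
      refine P.hb.mul ?_
      have e1 := ek_cont k
      have e2 := ek_cont (k + t)
      have e3 := hNc k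
      have e4 := h1c k
      have e5 := h2c k
      have e6 : Continuous (fun ζ => conj (N' k ζ)) := Complex.continuous_conj.comp e3
      have e7 : Continuous (fun ζ => conj (N1 ζ k)) := Complex.continuous_conj.comp e4
      have e8 : Continuous (fun ζ => conj (N2 ζ k)) := Complex.continuous_conj.comp e5
      have e9 : Continuous (fun ζ : ℂ => I * (t * ζ + conj (t * ζ))) := by fun_prop
      exact (((e2.sub e1).add (e9.mul e1)).mul e6).add
        ((e2.sub e1).mul ((continuous_const.mul e7).add (continuous_const.mul e8)))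
    have h4 := P.pert (k + t) _ (fun z => N' (k + t) z - N' k z - ((t.re : ℂ) * N1 z k + (t.im : ℂ) * N2 z k))
      (M0 * (2 * ‖t‖) ^ 2 * (C * ‖c‖) + M0 * (2 * ‖t‖) * (‖t‖ * B1 + ‖t‖ * B2)) hG (fun ζ => by
        have hbd2 : ‖(t.re : ℂ) * conj (N1 ζ k) + (t.im : ℂ) * conj (N2 ζ k)‖ ≤ ‖t‖ * B1 + ‖t‖ * B2 := by
          refine (norm_add_le _ _).trans (add_le_add ?_ ?_)
          · rw [norm_mul, RCLike.norm_conj, Complex.norm_real, Real.norm_eq_abs]
            exact mul_le_mul (Complex.abs_re_le_norm t) (h1b _ _) (norm_nonneg _) (norm_nonneg _)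
          · rw [norm_mul, RCLike.norm_conj, Complex.norm_real, Real.norm_eq_abs]
            exact mul_le_mul (Complex.abs_im_le_norm t) (h2b _ _) (norm_nonneg _) (norm_nonneg _)
        rw [mul_add]
        refine (norm_add_le _ _).trans (add_le_add ?_ ?_)
        · rw [← mul_assoc, norm_mul, RCLike.norm_conj]
          refine mul_le_mul ?_ (hNb _ _) (norm_nonneg _) (mul_nonneg hM0 (by positivity))
          by_cases hζ : 7 / 8 < ‖ζ‖
          · rw [P.hb.2 ζ hζ, zero_mul, norm_zero]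
            exact mul_nonneg hM0 (by positivity)
          · push Not at hζ
            rw [norm_mul]
            refine mul_le_mul (P.hM ζ).2 ?_ (norm_nonneg _) hM0
            have e1 : ek (k + t) ζ - ek k ζ + I * (t * ζ + conj (t * ζ)) * ek k ζ =
                ek k ζ * (ek t ζ - 1 + I * (t * ζ + conj (t * ζ))) := by
              rw [ek_add]
              ring
            rw [e1, norm_mul, ek_norm, one_mul]
            have e2 : 2 * ‖t‖ * ‖ζ‖ ≤ 2 * ‖t‖ := by
              have := norm_nonneg t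
              nlinarith
            refine (ek_lin t ζ (by linarith)).trans ?_
            exact pow_le_pow_left₀ (by positivity) e2 2
        · rw [← mul_assoc, norm_mul]
          have e1 := P.ekd k (k + t) ζ
          rw [add_sub_cancel_left] at e1
          exact mul_le_mul e1 hbd2 (norm_nonneg _) (mul_nonneg hM0 (by positivity)))
      (((hNc (k + t)).sub (hNc k)).sub ((continuous_const.mul (h1c k)).add (continuous_const.mul (h2c k))))
      (fun z => by
        show N' (k + t) z - N' k z - ((t.re : ℂ) * N1 z k + (t.im : ℂ) * N2 z k) = _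
        have g0 := P.ckF (k + t) (hNc (k + t))
        have g1 := P.ckF k (hNc k)
        have g2 : CK (fun ζ => -(I * (ζ + conj ζ)) * b ζ * ek k ζ * conj (N' k ζ) +
            (a ζ * N1 ζ k + b ζ * ek k ζ * conj (N1 ζ k))) :=
          (((P.hb.cmul (by fun_prop)).mul (ek_cont k)).mul (Complex.continuous_conj.comp (hNc k))).add
            (P.ckF k (h1c k))
        have g3 : CK (fun ζ => (ζ - conj ζ) * b ζ * ek k ζ * conj (N' k ζ) +
            (a ζ * N2 ζ k + b ζ * ek k ζ * conj (N2 ζ k))) :=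
          (((P.hb.cmul (by fun_prop)).mul (ek_cont k)).mul (Complex.continuous_conj.comp (hNc k))).add
            (P.ckF k (h2c k))
        have e0 := hNe (k + t) z
        have e1 := hNe k z
        have e2 := h1e z k
        have e3 := h2e z k
        have g2' := g2.cmul (continuous_const (y := (t.re : ℂ)))
        have g3' := g3.cmul (continuous_const (y := (t.im : ℂ)))
        rw [e0, e1, e2, e3, add_sub_add_left_eq_sub, ← cns_smul, ← cns_smul, ← cns_sub g0 g1,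
          ← cns_add g2' g3', ← cns_sub (g0.sub g1) (g2'.add g3')]
        congr 1
        funext ζ
        simp only [map_sub, map_add, map_mul, Complex.conj_ofReal]
        have e9 : t * ζ + conj t * conj ζ = (t.re : ℂ) * (ζ + conj ζ) + I * (t.im : ℂ) * (ζ - conj ζ) := by
          conv_lhs => rw [← Complex.re_add_im t]
          simp only [map_add, map_mul, Complex.conj_ofReal, Complex.conj_I]
          ring
        rw [e9]
        linear_combination (-(b ζ * ((t.im : ℂ) * (ζ - conj ζ)) * ek k ζ * conj (N' k ζ))) * Complex.I_sq) z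
    have h5 : N' (k + t) z - N' k z - ((Complex.reCLM.smulRight (N1 z k)) + (Complex.imCLM.smulRight (N2 z k))) t =
        N' (k + t) z - N' k z - ((t.re : ℂ) * N1 z k + (t.im : ℂ) * N2 z k) := by
      simp
    rw [h5]
    refine h4.trans (le_of_eq ?_)
    ring
  refine ⟨fun z k => N' k z, N1, N2, ⟨hjN, fun k => ⟨C * ‖c‖, fun z => hNb k z⟩, fun z k => hNe k z⟩,
    hj1, hj2, ?_, ?_, ?_, ?_⟩
  · intro z
    rw [contDiff_one_iff_fderiv]
    refine ⟨fun k => (hder z k).differentiableAt, ?_⟩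
    have e1 : fderiv ℝ (fun k => N' k z) = fun k => (Complex.reCLM.smulRight (N1 z k)) + (Complex.imCLM.smulRight (N2 z k)) := by
      funext k
      exact (hder z k).fderiv
    rw [e1]
    have e2 : Continuous (fun k => N1 z k) := hj1.comp (by fun_prop : Continuous (fun k : ℂ => (z, k)))
    have e3 : Continuous (fun k => N2 z k) := hj2.comp (by fun_prop : Continuous (fun k : ℂ => (z, k)))
    exact ((ContinuousLinearMap.smulRightL ℝ ℂ ℂ Complex.reCLM).continuous.comp e2).add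
      ((ContinuousLinearMap.smulRightL ℝ ℂ ℂ Complex.imCLM).continuous.comp e3)
  · intro z k
    rw [(hder z k).fderiv]
    simp
  · intro z k
    rw [h1e z k]
    congr 1
    funext ζ
    ring
  · intro z k
    rw [h2e z k]
    congr 1
    funext ζ
    ring

end

end Cal
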