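import Pool.Agent.Lib.MP_4ea4c7_an.StmH4

/-!
# MP_4ea4c7_an : piece `[CH c5]`
-/

open MeasureTheory Complex Metric Set Filter Topology
open scoped ComplexConjugate ENNReal NNReal

namespace Cal

noncomputable section

private theorem cnz_ek (k z : ℂ) : ‖ek k z‖ = 1 := by
  unfold ek
  rw [Complex.norm_exp]
  simp
  ring

private theorem cnz_ekc : Continuous (fun p : ℂ × ℂ => ek p.2 p.1) := by
  unfold ek
  exact Complex.continuous_exp.comp ((continuous_const.mul ((continuous_snd.mul continuous_fst).add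
    (Complex.continuous_conj.comp (continuous_snd.mul continuous_fst)))).neg)

private theorem cnz_dz {G : ℂ → ℂ} {w d : ℂ} (h : HasDerivAt G d w) : dz G w = d ∧ db G w = 0 := by
  have h1 : fderiv ℝ G w = ((ContinuousLinearMap.toSpanSingleton ℂ d).restrictScalars ℝ) :=
    (h.hasFDerivAt.restrictScalars ℝ).fderiv
  have h2 : ∀ v : ℂ, fderiv ℝ G w v = v * d := by
    intro v
    rw [h1]
    simp
  constructor
  · unfold dz
    rw [h2, h2]
    linear_combination (-(d / 2)) * I_mul_I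
  · unfold db
    rw [h2, h2]
    linear_combination (d / 2) * I_mul_I

private theorem cnz_const (h6 : S_smooth) (c : ℂ) : WD univ (fun _ => c) (fun _ => 0) (fun _ => 0) := by
  have h := h6.1 univ (fun _ => c) isOpen_univ contDiffOn_const
  have e1 : dz (fun _ : ℂ => c) = fun _ => 0 := by
    funext z
    simp [dz]
  have e2 : db (fun _ : ℂ => c) = fun _ => 0 := by
    funext z
    simp [db]
  rwa [e1, e2] at h

/-- the quotient is bounded -/
private theorem cnz_qb (a b n : ℂ → ℂ) (k : ℂ) (Ma Mb : ℝ) (ha : ∀ z, ‖a z‖ ≤ Ma)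
    (hb : ∀ z, ‖b z‖ ≤ Mb) (z : ℂ) : ‖a z + b z * ek k z * conj (n z) / n z‖ ≤ Ma + Mb := by
  refine (norm_add_le _ _).trans (add_le_add (ha z) ?_)
  rw [norm_div, norm_mul, norm_mul, cnz_ek, mul_one, RCLike.norm_conj, mul_div_assoc]
  exact (mul_le_of_le_one_right (norm_nonneg _) (div_self_le_one _)).trans (hb z)

/-- decay to zero at infinity -/
private theorem cnz_lim {f : ℂ → ℂ} {K : ℝ} (h : ∀ z, ‖f z‖ ≤ K / (1 + ‖z‖)) :
    Tendsto f (cocompact ℂ) (𝓝 0) := by
  refine squeeze_zero_norm h ?_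
  have h1 : Tendsto (fun z : ℂ => 1 + ‖z‖) (cocompact ℂ) atTop :=
    tendsto_atTop_add_const_left _ _ tendsto_norm_cocompact_atTop
  exact Tendsto.div_atTop tendsto_const_nhds h1

private theorem cnz_main (h2 : S_C3b) (h3 : S_C4) (h4 : S_chain) (h5 : S_prod) (h6 : S_smooth)
    (h7 : S_basic) (h8 : S_weyl) (a b n : ℂ → ℂ) (c k : ℂ) (ha : Continuous a) (hb : Continuous b)
    (Ma Mb : ℝ) (hMa : ∀ z, ‖a z‖ ≤ Ma) (hMb : ∀ z, ‖b z‖ ≤ Mb)
    (hab : ∀ z, 7 / 8 < ‖z‖ → a z = 0 ∧ b z = 0) (hn : Continuous n) (M : ℝ) (hM : ∀ z, ‖n z‖ ≤ M)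
    (heq : ∀ z, n z = c + Ct (fun ζ => a ζ * n ζ + b ζ * ek k ζ * conj (n ζ)) z) (z : ℂ) :
    n z = c * exp (Ct (fun ζ => a ζ + b ζ * ek k ζ * conj (n ζ) / n ζ) z) := by
  obtain ⟨C, hC0, hC⟩ := h3
  have hek : Continuous (fun ζ => ek k ζ) := cnz_ekc.comp (continuous_id.prodMk continuous_const)
  set w : ℂ → ℂ := fun ζ => a ζ * n ζ + b ζ * ek k ζ * conj (n ζ) with hw
  set v : ℂ → ℂ := fun ζ => a ζ + b ζ * ek k ζ * conj (n ζ) / n ζ with hv
  have hwc : Continuous w :=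
    (ha.mul hn).add ((hb.mul hek).mul (Complex.continuous_conj.comp hn))
  have hvm : AEStronglyMeasurable v volume := by
    have : Measurable v := by
      refine ha.measurable.add (Measurable.div ?_ hn.measurable)
      exact ((hb.mul hek).mul (Complex.continuous_conj.comp hn)).measurable
    exact this.aestronglyMeasurable
  have hwb : ∀ ζ, ‖w ζ‖ ≤ Ma * M + Mb * M := by
    intro ζ
    have hMa0 : 0 ≤ Ma := (norm_nonneg _).trans (hMa 0)
    have hMb0 : 0 ≤ Mb := (norm_nonneg _).trans (hMb 0)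
    refine (norm_add_le _ _).trans (add_le_add ?_ ?_)
    · rw [norm_mul]
      exact mul_le_mul (hMa ζ) (hM ζ) (norm_nonneg _) hMa0
    · rw [norm_mul, norm_mul, cnz_ek, mul_one, RCLike.norm_conj]
      exact mul_le_mul (hMb ζ) (hM ζ) (norm_nonneg _) hMb0
  have hw0 : ∀ ζ : ℂ, 5 / 4 < ‖ζ‖ → w ζ = 0 := by
    intro ζ hζ
    have := hab ζ (by linarith)
    simp [hw, this.1, this.2]
  have hv0 : ∀ ζ : ℂ, 5 / 4 < ‖ζ‖ → v ζ = 0 := by
    intro ζ hζ
    have := hab ζ (by linarith)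
    simp [hv, this.1, this.2]
  obtain ⟨cw1, cw2, cw3⟩ := hC w _ hwc.aestronglyMeasurable hwb hw0
  obtain ⟨cv1, cv2, cv3⟩ := hC v _ hvm (cnz_qb a b n k Ma Mb hMa hMb) hv0
  have hwv : ∀ ζ, v ζ * n ζ = w ζ := by
    intro ζ
    by_cases h : n ζ = 0
    · simp [hw, h]
    · simp only [hw, hv]
      rw [add_mul, div_mul_cancel₀ _ h]
  -- weak derivatives of `n` and of `exp (-e)`
  obtain ⟨A, -, hA, -⟩ := h2 w cw3
  have hN : WD univ n A w := by
    have h := h7.1 univ _ _ _ _ _ _ (cnz_const h6 c) hA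
    have e1 : (fun z => c + Ct w z) = n := by
      funext z
      rw [heq z]
    simpa [e1] using h
  obtain ⟨A', -, hA', -⟩ := h2 v cv3
  have hG : ContDiff ℝ 1 (fun t : ℂ => exp (-t)) := (Complex.contDiff_exp (𝕜 := ℝ)).comp contDiff_neg
  have hE := h4 univ univ (Ct v) A' v (fun t => exp (-t)) isOpen_univ isOpen_univ hA'
    cv1.continuousOn (mapsTo_univ _ _) hG.contDiffOn
  have hder : ∀ t : ℂ, dz (fun t => exp (-t)) t = -exp (-t) ∧ db (fun t => exp (-t)) t = 0 := by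
    intro t
    refine cnz_dz ?_
    have h1 : HasDerivAt (fun t : ℂ => -t) (-1) t := hasDerivAt_neg t
    have := h1.cexp
    simpa using this
  have hec : Continuous (fun z => exp (-(Ct v z))) := Complex.continuous_exp.comp cv1.neg
  have hP := h5 univ _ _ _ _ _ _ isOpen_univ hE hec.continuousOn hN hn.continuousOn
  have hPB : ∀ z, (dz (fun t => exp (-t)) (Ct v z) * v z + db (fun t => exp (-t)) (Ct v z) *
      conj (A' z)) * n z + exp (-(Ct v z)) * w z = 0 := by
    intro z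
    rw [(hder _).1, (hder _).2, ← hwv z]
    ring
  have hΦc : Continuous (fun z => exp (-(Ct v z)) * n z) := hec.mul hn
  have hΦd : Differentiable ℂ (fun z => exp (-(Ct v z)) * n z) := by
    rw [← differentiableOn_univ]
    refine (h8 univ _ isOpen_univ hP.f2 ?_).2 hΦc.continuousOn
    intro φ hφ
    rw [hP.hB φ hφ]
    simp only [hPB, zero_mul, integral_zero, neg_zero]
  have hlim : Tendsto (fun z => exp (-(Ct v z)) * n z) (cocompact ℂ) (𝓝 c) := by
    have l1 := cnz_lim (f := Ct v) cv2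
    have l2 := cnz_lim (f := Ct w) cw2
    have l3 : Tendsto n (cocompact ℂ) (𝓝 c) := by
      have : Tendsto (fun z => c + Ct w z) (cocompact ℂ) (𝓝 (c + 0)) := tendsto_const_nhds.add l2
      rw [add_zero] at this
      refine this.congr fun z => ?_
      rw [heq z]
    have l4 : Tendsto (fun z => exp (-(Ct v z))) (cocompact ℂ) (𝓝 (exp (-0))) :=
      (Complex.continuous_exp.tendsto _).comp l1.neg
    have := l4.mul l3
    simpa using this
  have hfin : exp (-(Ct v z)) * n z = c := hΦd.apply_eq_of_tendsto_cocompact z hlim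
  have : exp (Ct v z) * (exp (-(Ct v z)) * n z) = exp (Ct v z) * c := by rw [hfin]
  rw [← mul_assoc, ← Complex.exp_add, add_neg_cancel, Complex.exp_zero, one_mul] at this
  rw [this, mul_comm]

private theorem cnz_hol (h2 : S_C3b) (h3 : S_C4) (h7 : S_basic) (h8 : S_weyl) (v : ℂ → ℂ) (M : ℝ)
    (hv : AEStronglyMeasurable v volume) (hM : ∀ z, ‖v z‖ ≤ M) (h0 : ∀ z, 7 / 8 < ‖z‖ → v z = 0) :
    DifferentiableOn ℂ (Ct v) {z | 7 / 8 < ‖z‖} := by
  obtain ⟨C, hC0, hC⟩ := h3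
  obtain ⟨c1, -, c3⟩ := hC v M hv hM (fun z hz => h0 z (by linarith))
  obtain ⟨A, -, hA, -⟩ := h2 v c3
  have hU : IsOpen {z : ℂ | 7 / 8 < ‖z‖} := isOpen_lt continuous_const continuous_norm
  have hW := h7.2.2.2.2.1 univ {z : ℂ | 7 / 8 < ‖z‖} _ _ _ (subset_univ _) hA
  refine (h8 _ _ hU hW.f2 ?_).2 c1.continuousOn
  intro φ hφ
  rw [hW.hB φ hφ, neg_eq_zero]
  refine integral_eq_zero_of_ae (Eventually.of_forall fun z => ?_)
  by_cases hz : 7 / 8 < ‖z‖
  · simp [h0 z hz]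
  · have : φ z = 0 := by
      by_contra hne
      exact hz (hφ.2.2 (subset_tsupport _ (Function.mem_support.2 hne)))
    simp [this]

private theorem cnz_joint (h1 : S_C3a) (h3 : S_C4) (v : ℂ → ℂ → ℂ)
    (hv : Continuous (fun p : ℂ × ℂ => v p.1 p.2)) (M : ℝ) (hM : ∀ z k, ‖v z k‖ ≤ M)
    (h0 : ∀ z k, 7 / 8 < ‖z‖ → v z k = 0) :
    Continuous (fun p : ℂ × ℂ => Ct (fun ζ => v ζ p.2) p.1) := by
  obtain ⟨C, hC0, hC⟩ := h3
  obtain ⟨-, -, ⟨-, hadd, -, -⟩⟩ : ∃ C : ℝ, 0 ≤ C ∧ _ := h1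
  have hvk : ∀ k, Continuous (fun ζ => v ζ k) := fun k =>
    hv.comp (continuous_id.prodMk continuous_const)
  have hF : ∀ k, Continuous (Ct (fun ζ => v ζ k)) ∧ (∀ z, ‖Ct (fun ζ => v ζ k) z‖ ≤ C * M / (1 + ‖z‖)) ∧
      W2 (fun ζ => v ζ k) := fun k =>
    hC _ M (hvk k).aestronglyMeasurable (fun z => hM z k) (fun z hz => h0 z k (by linarith))
  have key : ∀ (k k0 : ℂ) (ε : ℝ), (∀ ζ, ‖v ζ k - v ζ k0‖ ≤ ε) → ∀ z,
      ‖Ct (fun ζ => v ζ k) z - Ct (fun ζ => v ζ k0) z‖ ≤ C * ε := by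
    intro k k0 ε hε z
    have hε0 : 0 ≤ ε := (norm_nonneg _).trans (hε 0)
    obtain ⟨d1, d2, d3⟩ := hC (fun ζ => v ζ k - v ζ k0) ε
      ((hvk k).sub (hvk k0)).aestronglyMeasurable hε
      (fun z hz => by simp [h0 z k (by linarith), h0 z k0 (by linarith)])
    have h := (hadd (fun ζ => v ζ k0) (fun ζ => v ζ k - v ζ k0) (hF k0).2.2 d3).1
    have h' : (Ct (fun ζ => v ζ k)) =ᵐ[volume]
        (fun z => Ct (fun ζ => v ζ k0) z + Ct (fun ζ => v ζ k - v ζ k0) z) := by
      filter_upwards [h] with z hz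
      rw [← hz]
      simp
    have h'' := (Continuous.ae_eq_iff_eq volume (hF k).1 ((hF k0).1.add d1)).1 h'
    have h3 : Ct (fun ζ => v ζ k) z = Ct (fun ζ => v ζ k0) z + Ct (fun ζ => v ζ k - v ζ k0) z :=
      congrFun h'' z
    rw [h3, add_sub_cancel_left]
    refine (d2 z).trans ?_
    exact div_le_self (mul_nonneg hC0 hε0) (by linarith [norm_nonneg z])
  rw [continuous_iff_continuousAt]
  rintro ⟨z0, k0⟩
  have hev : ∀ ε : ℝ, 0 < ε → ∀ᶠ k in 𝓝 k0, ∀ ζ, ‖v ζ k - v ζ k0‖ ≤ ε := by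
    intro ε hε
    have h := (isCompact_closedBall (0 : ℂ) (7 / 8)).eventually_forall_of_forall_eventually
      (P := fun k ζ => ‖v ζ k - v ζ k0‖ < ε) (x₀ := k0) (by
        intro ζ _
        have hcont : Continuous (fun p : ℂ × ℂ => ‖v p.2 p.1 - v p.2 k0‖) :=
          ((hv.comp (continuous_snd.prodMk continuous_fst)).sub
            ((hvk k0).comp continuous_snd)).norm
        have := hcont.tendsto (k0, ζ)
        simp only [sub_self, norm_zero] at this
        exact this.eventually (gt_mem_nhds hε))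
    filter_upwards [h] with k hk ζ
    by_cases hζ : 7 / 8 < ‖ζ‖
    · simp [h0 ζ k hζ, h0 ζ k0 hζ, hε.le]
    · exact (hk ζ (by simpa using hζ)).le
  have h1 : Tendsto (fun p : ℂ × ℂ => Ct (fun ζ => v ζ k0) p.1) (𝓝 (z0, k0))
      (𝓝 (Ct (fun ζ => v ζ k0) z0)) :=
    ((hF k0).1.comp continuous_fst).tendsto (z0, k0)
  have h2 : Tendsto (fun p : ℂ × ℂ => Ct (fun ζ => v ζ p.2) p.1 - Ct (fun ζ => v ζ k0) p.1)
      (𝓝 (z0, k0)) (𝓝 0) := by
    rw [Metric.tendsto_nhds]
    intro ε hε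
    have hpos : 0 < ε / (C + 1) := div_pos hε (by linarith)
    have := (continuous_snd.tendsto (z0, k0)).eventually (hev _ hpos)
    filter_upwards [this] with p hp
    rw [dist_zero_right]
    refine (key p.2 k0 _ hp p.1).trans_lt ?_
    rw [← mul_div_assoc, div_lt_iff₀ (by linarith)]
    nlinarith
  have h3 := h1.add h2
  rw [add_zero] at h3
  refine h3.congr fun p => ?_
  ring

theorem piece_cnz (h1 : S_C3a) (h2 : S_C3b) (h3 : S_C4) (h4 : S_chain) (h5 : S_prod)
    (h6 : S_smooth) (h7 : S_basic) (h8 : S_weyl) : S_cnz := by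
  intro a b c N ha hb hab hc hN
  obtain ⟨Ma, hMa⟩ := ha.bounded_above_of_compact_support
    (HasCompactSupport.intro (isCompact_closedBall (0 : ℂ) (7 / 8)) fun z hz => (hab z (by
      simpa using hz)).1)
  obtain ⟨Mb, hMb⟩ := hb.bounded_above_of_compact_support
    (HasCompactSupport.intro (isCompact_closedBall (0 : ℂ) (7 / 8)) fun z hz => (hab z (by
      simpa using hz)).2)
  have hNk : ∀ k, Continuous (fun z => N z k) := fun k =>
    hN.cont.comp (continuous_id.prodMk continuous_const)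
  have hmain : ∀ z k, N z k = c * exp (Ct (fun ζ => a ζ + b ζ * ek k ζ * conj (N ζ k) / N ζ k) z) := by
    intro z k
    obtain ⟨M, hM⟩ := hN.bdd k
    exact cnz_main h2 h3 h4 h5 h6 h7 h8 a b (fun z => N z k) c k ha hb Ma Mb hMa hMb hab (hNk k) M
      hM (fun z => hN.eq z k) z
  have hne : ∀ z k, N z k ≠ 0 := by
    intro z k
    rw [hmain z k]
    exact mul_ne_zero hc (exp_ne_zero _)
  have hvc : Continuous (fun p : ℂ × ℂ => a p.1 + b p.1 * ek p.2 p.1 * conj (N p.1 p.2) / N p.1 p.2) := by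
    refine (ha.comp continuous_fst).add (Continuous.div ?_ hN.cont fun p => hne p.1 p.2)
    exact ((hb.comp continuous_fst).mul cnz_ekc).mul (Complex.continuous_conj.comp hN.cont)
  have hv0 : ∀ z k, 7 / 8 < ‖z‖ → a z + b z * ek k z * conj (N z k) / N z k = 0 := by
    intro z k hz
    simp [(hab z hz).1, (hab z hz).2]
  have hvb : ∀ z k, ‖a z + b z * ek k z * conj (N z k) / N z k‖ ≤ Ma + Mb := fun z k =>
    cnz_qb a b (fun z => N z k) k Ma Mb hMa hMb z
  refine ⟨fun z k => Ct (fun ζ => a ζ + b ζ * ek k ζ * conj (N ζ k) / N ζ k) z, ?_, hmain, ?_⟩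
  · exact cnz_joint h1 h3 (fun z k => a z + b z * ek k z * conj (N z k) / N z k) hvc _ hvb hv0
  · intro k
    have hvk : Continuous (fun ζ => a ζ + b ζ * ek k ζ * conj (N ζ k) / N ζ k) :=
      hvc.comp (continuous_id.prodMk continuous_const)
    refine ⟨cnz_hol h2 h3 h7 h8 _ _ hvk.aestronglyMeasurable (fun z => hvb z k)
      (fun z hz => hv0 z k hz), ?_⟩
    obtain ⟨C, hC0, hC⟩ := h3
    obtain ⟨-, c2, -⟩ := hC _ _ hvk.aestronglyMeasurable (fun z => hvb z k)
      (fun z hz => hv0 z k (by linarith))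
    refine ⟨C * (Ma + Mb), fun z hz => (c2 z).trans ?_⟩
    have hM0 : 0 ≤ Ma + Mb := (norm_nonneg _).trans (hvb 0 0)
    exact div_le_div_of_nonneg_left (mul_nonneg hC0 hM0) (by linarith) (by linarith)

end

end Cal
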