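import Pool.Agent.Lib.MP_4ea4c7_an.StmH4

open MeasureTheory Complex Metric Set Filter Topology
open scoped ComplexConjugate ENNReal NNReal

namespace Cal

/-- the Cauchy transform of bounded functions is real linear, at every point -/
private theorem csls_lin (h1 : S_C3a) (h2 : S_C4) (w w' : ℂ → ℂ) (r s : ℂ) (M : ℝ) (hw : Continuous w) (hw' : Continuous w')
    (hM : ∀ z, ‖w z‖ ≤ M ∧ ‖w' z‖ ≤ M) (h0 : ∀ z, 5 / 4 < ‖z‖ → w z = 0 ∧ w' z = 0) (z : ℂ) :
    Ct (fun ζ => r * w ζ + s * w' ζ) z = r * Ct w z + s * Ct w' z := by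
  obtain ⟨C, hC, h2⟩ := h2
  obtain ⟨C', hC', _, h3, h4, _⟩ := h1
  have b1 := h2 w M hw.aestronglyMeasurable (fun z => (hM z).1) (fun z hz => (h0 z hz).1)
  have b2 := h2 w' M hw'.aestronglyMeasurable (fun z => (hM z).2) (fun z hz => (h0 z hz).2)
  have c1 := h2 (fun ζ => r * w ζ) (‖r‖ * M) (by fun_prop) (fun z => by
    rw [norm_mul]; exact mul_le_mul_of_nonneg_left (hM z).1 (norm_nonneg _)) (fun z hz => by simp [(h0 z hz).1])
  have c2 := h2 (fun ζ => s * w' ζ) (‖s‖ * M) (by fun_prop) (fun z => by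
    rw [norm_mul]; exact mul_le_mul_of_nonneg_left (hM z).2 (norm_nonneg _)) (fun z hz => by simp [(h0 z hz).2])
  have c3 := h2 (fun ζ => r * w ζ + s * w' ζ) (‖r‖ * M + ‖s‖ * M) (by fun_prop) (fun z => by
    refine (norm_add_le _ _).trans ?_
    rw [norm_mul, norm_mul]
    exact add_le_add (mul_le_mul_of_nonneg_left (hM z).1 (norm_nonneg _)) (mul_le_mul_of_nonneg_left (hM z).2 (norm_nonneg _)))
    (fun z hz => by simp [(h0 z hz).1, (h0 z hz).2])
  have h5 := (h3 _ _ c1.2.2 c2.2.2).1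
  have h6 : (fun z => Ct (fun ζ => r * w ζ + s * w' ζ) z) = fun z => Ct (fun ζ => r * w ζ) z + Ct (fun ζ => s * w' ζ) z :=
    (Continuous.ae_eq_iff_eq volume c3.1 (c1.1.add c2.1)).1 h5
  have h7 := congrFun h6 z
  simp only [h4] at h7
  exact h7

private theorem csls_mulinr (μ : ℂ → ℝ) (N N' : ℂ → ℂ → ℂ) (r s : ℝ) (z k : ℂ) :
    Fof μ (fun z k => (r : ℂ) * N z k + (s : ℂ) * N' z k) z k = (r : ℂ) * Fof μ N z k + (s : ℂ) * Fof μ N' z k := by
  unfold Fof
  simp only [map_add, map_mul, conj_ofReal]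
  ring

private theorem csls_ns (h1 : S_C3a) (h2 : S_C4) (a b : ℂ → ℂ) (ha : Continuous a) (hb : Continuous b)
    (h0 : ∀ z, 7 / 8 < ‖z‖ → a z = 0 ∧ b z = 0) (c c' : ℂ) (N N' : ℂ → ℂ → ℂ) (hN : NS a b c N) (hN' : NS a b c' N') (r s : ℝ) :
    NS a b ((r : ℂ) * c + (s : ℂ) * c') (fun z k => (r : ℂ) * N z k + (s : ℂ) * N' z k) := by
  have hek : ∀ k, Continuous (fun ζ => ek k ζ) := by intro k; unfold ek; fun_prop
  have hek1 : ∀ k ζ, ‖ek k ζ‖ = 1 := by
    intro k ζ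
    unfold ek
    rw [norm_exp]
    have : (-(I * (k * ζ + conj (k * ζ)))).re = 0 := by
      simp
      ring
    rw [this, Real.exp_zero]
  have hsl : ∀ (N : ℂ → ℂ → ℂ) (k : ℂ), Continuous (fun p : ℂ × ℂ => N p.1 p.2) → Continuous (fun z => N z k) := by
    intro N k h
    exact h.comp (by fun_prop : Continuous (fun z : ℂ => (z, k)))
  refine ⟨?_, ?_, ?_⟩
  · exact (hN.cont.const_mul _).add (hN'.cont.const_mul _) |>.congr (fun p => rfl)
  · intro k
    obtain ⟨M, hM⟩ := hN.bdd k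
    obtain ⟨M', hM'⟩ := hN'.bdd k
    refine ⟨‖(r : ℂ)‖ * M + ‖(s : ℂ)‖ * M', fun z => (norm_add_le _ _).trans ?_⟩
    rw [norm_mul, norm_mul]
    exact add_le_add (mul_le_mul_of_nonneg_left (hM z) (norm_nonneg _)) (mul_le_mul_of_nonneg_left (hM' z) (norm_nonneg _))
  · intro z k
    have e1 := hN.eq z k
    have e2 := hN'.eq z k
    set w : ℂ → ℂ := fun ζ => a ζ * N ζ k + b ζ * ek k ζ * conj (N ζ k) with hw
    set w' : ℂ → ℂ := fun ζ => a ζ * N' ζ k + b ζ * ek k ζ * conj (N' ζ k) with hw'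
    have cN := hsl N k hN.cont
    have cN' := hsl N' k hN'.cont
    have cw : Continuous w := by
      rw [hw]; exact (ha.mul cN).add ((hb.mul (hek k)).mul (continuous_conj.comp cN))
    have cw' : Continuous w' := by
      rw [hw']; exact (ha.mul cN').add ((hb.mul (hek k)).mul (continuous_conj.comp cN'))
    have hz : ∀ z, 5 / 4 < ‖z‖ → w z = 0 ∧ w' z = 0 := by
      intro z hz
      obtain ⟨h3, h4⟩ := h0 z (by linarith)
      simp [hw, hw', h3, h4]
    have hcs : HasCompactSupport w := HasCompactSupport.intro (isCompact_closedBall (0 : ℂ) (5 / 4)) (fun z hz' => (hz z (by simpa using hz')).1)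
    have hcs' : HasCompactSupport w' := HasCompactSupport.intro (isCompact_closedBall (0 : ℂ) (5 / 4)) (fun z hz' => (hz z (by simpa using hz')).2)
    obtain ⟨M, hM⟩ := hcs.exists_bound_of_continuous cw
    obtain ⟨M', hM'⟩ := hcs'.exists_bound_of_continuous cw'
    have h5 := csls_lin h1 h2 w w' (r : ℂ) (s : ℂ) (max M M') cw cw'
      (fun z => ⟨(hM z).trans (le_max_left _ _), (hM' z).trans (le_max_right _ _)⟩) hz z
    have h6 : (fun ζ => a ζ * ((r : ℂ) * N ζ k + (s : ℂ) * N' ζ k) + b ζ * ek k ζ * conj ((r : ℂ) * N ζ k + (s : ℂ) * N' ζ k))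
        = fun ζ => (r : ℂ) * w ζ + (s : ℂ) * w' ζ := by
      funext ζ
      simp only [hw, hw', map_add, map_mul, conj_ofReal]
      ring
    show (r : ℂ) * N z k + (s : ℂ) * N' z k = _
    rw [h6, h5, e1, e2]
    ring

private theorem csls_cont (k0 : ℝ) (μ : ℂ → ℝ) (h00 : 0 ≤ k0) (h01 : k0 < 1) (hμ : SMu k0 μ) :
    (∀ z, |μ z| < 1) ∧ Continuous (al μ) ∧ Continuous (be μ) ∧ (∀ z, 7 / 8 < ‖z‖ → al μ z = 0 ∧ be μ z = 0) := by
  have hab : ∀ z, |μ z| < 1 := fun z => abs_lt.2 ⟨by have := hμ.lo z; linarith, hμ.hi z⟩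
  have hne : ∀ z, (1 - (μ z : ℂ) ^ 2) ≠ 0 := by
    intro z h
    have h1 := hab z
    have h2 : (1 - (μ z) ^ 2 : ℝ) = 0 := by exact_mod_cast h
    have h3 : (μ z) ^ 2 < 1 := by rw [← sq_abs]; nlinarith [abs_nonneg (μ z)]
    linarith
  have hμc : ContDiff ℝ (⊤ : ℕ∞) (fun w => (μ w : ℂ)) := Complex.ofRealCLM.contDiff.comp hμ.smooth
  have hd : Continuous (fun z => db (fun w => (μ w : ℂ)) z) := by
    unfold db
    have h4 := hμc.continuous_fderiv (by simp)
    exact ((h4.clm_apply continuous_const).add (continuous_const.mul (h4.clm_apply continuous_const))).div_const _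
  have hbe : Continuous (be μ) := by
    unfold be
    exact hd.neg.div (by have := hμc.continuous; fun_prop) hne
  have hal : Continuous (al μ) := by
    unfold al
    exact hμc.continuous.mul hbe
  have hz : ∀ z, 7 / 8 < ‖z‖ → be μ z = 0 := by
    intro z hz
    have h5 : (fun w => (μ w : ℂ)) =ᶠ[𝓝 z] fun _ => (0 : ℂ) := by
      filter_upwards [(isOpen_lt continuous_const continuous_norm).mem_nhds hz] with w hw
      have := hμ.supp w hw
      simp [this]
    have h6 : fderiv ℝ (fun w => (μ w : ℂ)) z = 0 := by rw [h5.fderiv_eq]; simp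
    simp [be, db, h6]
  exact ⟨hab, hal, hbe, fun z hz' => ⟨by simp [al, hz z hz'], hz z hz'⟩⟩

private theorem csls_dec {D : ℂ → ℂ} (hc : Continuous D) (hd : Dec D) : ∃ C, ∀ z, ‖D z‖ ≤ C := by
  obtain ⟨C, hC⟩ := hd
  obtain ⟨M, hM⟩ := (isCompact_closedBall (0 : ℂ) 2).exists_bound_of_continuousOn hc.continuousOn
  refine ⟨max (|C|) M, fun z => ?_⟩
  by_cases hz : 2 ≤ ‖z‖
  · refine (hC z hz).trans ((le_max_left _ _).trans' ?_)
    have h1 : C / ‖z‖ ≤ |C| / ‖z‖ := div_le_div_of_nonneg_right (le_abs_self C) (norm_nonneg _)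
    refine h1.trans (div_le_self (abs_nonneg _) (by linarith))
  · exact (hM z (by simpa using (not_le.1 hz).le)).trans (le_max_right _ _)

/-- derivative in `k` of `X = Fof μ N` -/
private theorem csls_der (μ : ℂ → ℝ) (N N1 N2 : ℂ → ℂ → ℂ) (hd : ∀ z, ContDiff ℝ 1 (fun k => N z k))
    (h12 : ∀ z k, fderiv ℝ (fun k => N z k) k 1 = N1 z k ∧ fderiv ℝ (fun k => N z k) k I = N2 z k) (z : ℂ) :
    ContDiff ℝ 1 (fun k => Fof μ N z k) ∧ ∀ k,
      fderiv ℝ (fun k => Fof μ N z k) k 1 = (exp (I * k * z) * (I * z * N z k + N1 z k) + (μ z : ℂ) * conj (exp (I * k * z) * (I * z * N z k + N1 z k))) / (1 - (μ z : ℂ) ^ 2) ∧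
      fderiv ℝ (fun k => Fof μ N z k) k I = (exp (I * k * z) * (-(z * N z k) + N2 z k) + (μ z : ℂ) * conj (exp (I * k * z) * (-(z * N z k) + N2 z k))) / (1 - (μ z : ℂ) ^ 2) := by
  have hN : ∀ k, HasFDerivAt (fun k => N z k) (fderiv ℝ (fun k => N z k) k) k := fun k =>
    (((hd z).differentiable (by simp)) k).hasFDerivAt
  have he : ∀ k, HasFDerivAt (fun k : ℂ => exp (I * k * z)) ((exp (I * k * z) * (I * z)) • (ContinuousLinearMap.id ℝ ℂ)) k := by
    intro k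
    have h1 : HasDerivAt (fun k : ℂ => exp (I * k * z)) (exp (I * k * z) * (I * z)) k := by
      have h2 : HasDerivAt (fun k : ℂ => I * k * z) (I * z) k := by
        simpa using ((hasDerivAt_id k).const_mul I).mul_const z
      exact h2.cexp
    have h3 := h1.hasFDerivAt.restrictScalars ℝ
    refine h3.congr_fderiv ?_
    ext v
    simp [mul_comm]
  have hf : ∀ k, HasFDerivAt (fun k => exp (I * k * z) * N z k)
      (exp (I * k * z) • fderiv ℝ (fun k => N z k) k + N z k • ((exp (I * k * z) * (I * z)) • (ContinuousLinearMap.id ℝ ℂ))) k := fun k =>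
    (he k).mul (hN k)
  have hfc : ContDiff ℝ 1 (fun k => exp (I * k * z) * N z k) := by
    have h4 : ContDiff ℝ 1 (fun k : ℂ => exp (I * k * z)) := by
      have : ContDiff ℂ 1 (fun k : ℂ => exp (I * k * z)) := by fun_prop
      exact this.restrict_scalars ℝ
    exact h4.mul (hd z)
  set T : ℂ →L[ℝ] ℂ := (1 / (1 - (μ z : ℂ) ^ 2)) • ((ContinuousLinearMap.id ℝ ℂ) + (μ z : ℂ) • (Complex.conjCLE : ℂ →L[ℝ] ℂ)) with hT
  have hTa : ∀ w, T w = (w + (μ z : ℂ) * conj w) / (1 - (μ z : ℂ) ^ 2) := by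
    intro w
    simp [hT]
    ring
  have hF : (fun k => Fof μ N z k) = fun k => T (exp (I * k * z) * N z k) := by
    funext k
    rw [hTa]
    rfl
  rw [hF]
  refine ⟨T.contDiff.comp hfc, fun k => ?_⟩
  have h5 : HasFDerivAt (fun k => T (exp (I * k * z) * N z k)) (T.comp (exp (I * k * z) • fderiv ℝ (fun k => N z k) k + N z k • ((exp (I * k * z) * (I * z)) • (ContinuousLinearMap.id ℝ ℂ)))) k :=
    T.hasFDerivAt.comp k (hf k)
  rw [h5.fderiv]
  obtain ⟨h6, h7⟩ := h12 z k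
  constructor
  · rw [ContinuousLinearMap.comp_apply, ← hTa]
    congr 1
    simp [h6]
    ring
  · rw [ContinuousLinearMap.comp_apply, ← hTa]
    congr 1
    simp [h7]
    linear_combination (N z k * exp (I * k * z) * z) * I_mul_I

theorem piece_csls (h1 : S_cns) (h2 : S_cid) (h3 : S_cF) (h4 : S_clog) (h5 : S_cbd) (h6 : S_cdeg) (h8 : S_cim) (h9 : S_cac) (h10 : S_ckeq)
    (h11 : S_C3a) (h12 : S_C4) : S_csls := by
  refine ⟨16, by norm_num, fun k0 μ h00 h01 hμ => ?_⟩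
  obtain ⟨hab, hal, hbe, hz⟩ := csls_cont k0 μ h00 h01 hμ
  obtain ⟨E, E1, E2, nE, cE1, cE2, dE, fE, eE1, eE2⟩ := h1 (al μ) (be μ) hal hbe hz 1
  obtain ⟨E', E1', E2', nE', cE1', cE2', dE', fE', eE1', eE2'⟩ := h1 (al μ) (be μ) hal hbe hz I
  -- general leading coefficient
  have hNc : ∀ c : ℂ, NS (al μ) (be μ) c (fun z k => (c.re : ℂ) * E z k + (c.im : ℂ) * E' z k) := by
    intro c
    have h := csls_ns h11 h12 (al μ) (be μ) hal hbe hz 1 I E E' nE nE' c.re c.im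
    have hc : (c.re : ℂ) * 1 + (c.im : ℂ) * I = c := by rw [mul_one]; exact Complex.re_add_im c
    rw [hc] at h
    exact h
  have hFF : ∀ c z k, FF (Fof μ E) (Fof μ E') c z k = Fof μ (fun z k => (c.re : ℂ) * E z k + (c.im : ℂ) * E' z k) z k := by
    intro c z k
    rw [csls_mulinr]
    rfl
  have hF := fun c => h3 k0 μ c _ h01 hμ (hNc c)
  have hlog := fun (c : ℂ) (hc : c ≠ 0) => h4 k0 μ c _ h00 h01 hμ hc (hNc c)
  have hone : (fun z k => ((1 : ℂ).re : ℂ) * E z k + ((1 : ℂ).im : ℂ) * E' z k) = E := by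
    funext z k; simp
  obtain ⟨D, cD, eD, D0, hD⟩ := hlog 1 one_ne_zero
  rw [hone] at eD
  have hbd := fun (c : ℂ) (hc : ‖c‖ = 1) (k : ℂ) (D : ℂ → ℂ) => h5 μ (fun z => FF (Fof μ E) (Fof μ E') c z k) D k c hμ.smooth.continuous.measurable hab hμ.supp hc
  have hne : ∀ c : ℂ, ‖c‖ = 1 → c ≠ 0 := by
    intro c hc h
    rw [h, norm_zero] at hc
    exact zero_ne_one hc
  have hsl : ∀ (N : ℂ → ℂ → ℂ) (k : ℂ), Continuous (fun p : ℂ × ℂ => N p.1 p.2) → Continuous (fun z => N z k) := by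
    intro N k h
    exact h.comp (by fun_prop : Continuous (fun z : ℂ => (z, k)))
  have hall : ∀ c : ℂ, ‖c‖ = 1 → ∀ k, ∃ Dc : ℂ → ℂ, (∀ z, FF (Fof μ E) (Fof μ E') c z k = c * exp (I * k * z + Dc z)) ∧
      (∀ z : ℂ, 2 ≤ ‖z‖ → ‖Dc z‖ ≤ 16 * ‖k‖ / ‖z‖) ∧ (∀ z, ‖I * k * z + Dc z‖ ≤ 16 * (1 + ‖z‖) * ‖k‖) ∧
      ∀ (r : ℝ) (A B : ℂ → ℂ), 1 ≤ r → WD univ (fun z => FF (Fof μ E) (Fof μ E') c z k) A B →
        IntegrableOn (fun z => (‖A z‖ ^ 2 - ‖B z‖ ^ 2) / ‖FF (Fof μ E) (Fof μ E') c z k‖ ^ 2) (ball 0 r) volume ∧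
        ∫ z in ball (0 : ℂ) r, (‖A z‖ ^ 2 - ‖B z‖ ^ 2) / ‖FF (Fof μ E) (Fof μ E') c z k‖ ^ 2 ≤ Real.pi * ‖k‖ ^ 2 * r ^ 2 := by
    intro c hc k
    obtain ⟨Dc, cDc, eDc, _, hDc⟩ := hlog c (hne c hc)
    have hB : Bel μ univ (fun z => FF (Fof μ E) (Fof μ E') c z k) := by
      have := (hF c).2.1 k
      simp only [hFF]
      exact this
    have hh := hbd c hc k (fun z => Dc z k) hB (hsl Dc k cDc) (fun z => by rw [hFF]; exact eDc z k) (hDc k).1 (hDc k).2
    exact ⟨fun z => Dc z k, fun z => by rw [hFF]; exact eDc z k, hh⟩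
  have hexp : ∀ (z k : ℂ) (w : ℂ), ‖w‖ ≤ 16 * (1 + ‖z‖) * ‖k‖ → Real.exp (-(16 * (1 + ‖k‖) * (1 + ‖z‖))) ≤ ‖exp w‖ ∧ ‖exp w‖ ≤ Real.exp (16 * (1 + ‖k‖) * (1 + ‖z‖)) := by
    intro z k w hw
    have hb : 16 * (1 + ‖z‖) * ‖k‖ ≤ 16 * (1 + ‖k‖) * (1 + ‖z‖) := by nlinarith [norm_nonneg z, norm_nonneg k]
    have h7 := (abs_re_le_norm w).trans (hw.trans hb)
    have h7' := abs_le.1 h7
    rw [norm_exp]
    exact ⟨Real.exp_le_exp.2 (by linarith [h7'.1]), Real.exp_le_exp.2 h7'.2⟩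
  have hXE : ∀ z k, Fof μ E z k = exp (I * k * z + D z k) := fun z k => by rw [eD z k, one_mul]
  have hX0 : ∀ z, Fof μ E z 0 = 1 := fun z => by rw [hXE, D0 z]; simp
  have hY0 : ∀ z, Fof μ E' z 0 = I := by
    intro z
    have h13 := (hF I).2.2.2.2 z
    have : (fun z k => ((I : ℂ).re : ℂ) * E z k + ((I : ℂ).im : ℂ) * E' z k) = E' := by funext z k; simp
    rw [this] at h13
    exact h13
  have hI : (fun z k => ((I : ℂ).re : ℂ) * E z k + ((I : ℂ).im : ℂ) * E' z k) = E' := by funext z k; simp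
  have hF1 := hF 1
  rw [hone] at hF1
  have hFI := hF I
  rw [hI] at hFI
  have hlow : ∀ z k c : ℂ, ‖c‖ = 1 → Real.exp (-(16 * (1 + ‖k‖) * (1 + ‖z‖))) ≤ ‖FF (Fof μ E) (Fof μ E') c z k‖ ∧
      ‖FF (Fof μ E) (Fof μ E') c z k‖ ≤ Real.exp (16 * (1 + ‖k‖) * (1 + ‖z‖)) := by
    intro z k c hc
    obtain ⟨Dc, e1, _, e2, _⟩ := hall c hc k
    rw [e1, norm_mul, hc, one_mul]
    exact hexp z k _ (e2 z)
  have him : ∀ z k, 0 < (Fof μ E' z k / Fof μ E z k).im := by
    intro z k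
    refine h8 univ (Fof μ E) (Fof μ E') (0, 0) isPreconnected_univ (mem_univ _) hF1.1.continuousOn hFI.1.continuousOn ?_ ?_ (z, k) (mem_univ _)
    · intro p _ c hc h
      have := (hlow p.1 p.2 c hc).1
      rw [h, norm_zero] at this
      exact absurd this (not_le.2 (Real.exp_pos _))
    · show 0 < (Fof μ E' 0 0 / Fof μ E 0 0).im
      rw [hX0, hY0]
      simp
  have hgb : ∀ z k : ℂ, ‖I * k * z + D z k‖ ≤ 16 * (1 + ‖z‖) * ‖k‖ ∧ (2 ≤ ‖z‖ → ‖D z k‖ ≤ 16 * ‖k‖ / ‖z‖) := by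
    intro z k
    have hFF1 : ∀ z k, FF (Fof μ E) (Fof μ E') 1 z k = Fof μ E z k := by intro z k; simp [FF]
    have hB : Bel μ univ (fun z => FF (Fof μ E) (Fof μ E') 1 z k) := by
      simp only [hFF1]
      exact hF1.2.1 k
    have hh := hbd 1 (by simp) k (fun z => D z k) hB (hsl D k cD) (fun z => by rw [hFF1]; exact eD z k) (hD k).1 (hD k).2
    exact ⟨hh.2.1 z, hh.1 z⟩
  -- the coefficients
  have hac : ∀ (c : ℂ) (N : ℂ → ℂ → ℂ), NS (al μ) (be μ) c N → (∀ z k, FF (Fof μ E) (Fof μ E') c z k = Fof μ N z k) → ∀ k,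
      ac (Fof μ E) (Fof μ E') c k = an (al μ) (be μ) N k := by
    intro c N hN hFN k
    rw [← h9 (al μ) (be μ) c N hal hbe hz hN k]
    unfold ac
    congr 1
    refine circleIntegral.integral_congr (by norm_num) ?_
    intro z hzs
    have hz2 : ‖z‖ = 2 := by simpa using hzs
    have h14 := (h3 k0 μ c N h01 hμ hN).2.2.1 z k (by rw [hz2]; norm_num)
    show exp (-(I * k * z)) * FF (Fof μ E) (Fof μ E') c z k = N z k
    rw [hFN, h14, ← mul_assoc, ← exp_add]
    simp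
  have hneg : NS (al μ) (be μ) (I * I) (fun z k => -(E z k)) := by
    have h := csls_ns h11 h12 (al μ) (be μ) hal hbe hz 1 I E E' nE nE' (-1) 0
    have e1 : ((-1 : ℝ) : ℂ) * 1 + ((0 : ℝ) : ℂ) * I = I * I := by rw [I_mul_I]; simp
    have e2 : (fun z k => ((-1 : ℝ) : ℂ) * E z k + ((0 : ℝ) : ℂ) * E' z k) = fun z k => -(E z k) := by
      funext z k; simp
    rw [e1, e2] at h
    exact h
  have hac1 := hac 1 E nE (fun z k => by simp [FF])
  have hacI := hac I E' nE' (fun z k => by simp [FF])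
  have hacm := hac (I * I) (fun z k => -(E z k)) hneg (fun z k => by
    simp only [FF, I_mul_I, Fof]
    simp
    ring)
  have hmul : ∀ (r s : ℝ) (e x y : ℂ) (m : ℂ), (e * ((r : ℂ) * x + (s : ℂ) * y) + m * conj (e * ((r : ℂ) * x + (s : ℂ) * y))) / (1 - m ^ 2) =
      (r : ℂ) * ((e * x + m * conj (e * x)) / (1 - m ^ 2)) + (s : ℂ) * ((e * y + m * conj (e * y)) / (1 - m ^ 2)) := by
    intro r s e x y m
    simp only [map_add, map_mul, conj_ofReal]
    ring
  have nI1 : NS (al μ) (be μ) (I * 1) E' := by rw [mul_one]; exact nE'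
  refine ⟨Fof μ E, Fof μ E', fun z k => I * k * z + D z k, ?_⟩
  refine ⟨hF1.1, hFI.1, ?_, fun z k => (hXE z k).symm, fun z => ⟨hX0 z, hY0 z, by simp [D0 z]⟩, fun k => ⟨hF1.2.1 k, hFI.2.1 k⟩,
    fun k => ⟨hF1.2.2.2.1 k, hFI.2.2.2.1 k⟩, him, ?_, ?_, ?_, ?_, ?_⟩
  · exact (by fun_prop : Continuous (fun p : ℂ × ℂ => I * p.2 * p.1)).add cD
  · intro z k c hc
    refine ⟨(hlow z k c hc).1, (hlow z k c hc).2, (hgb z k).1.trans ?_⟩
    nlinarith [norm_nonneg z, norm_nonneg k]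
  · intro z hz2 k
    refine ⟨?_, fun c hc => ?_⟩
    · have : I * k * z + D z k - I * k * z = D z k := by ring
      rw [this]
      exact (hgb z k).2 hz2
    · obtain ⟨Dc, e1, e2, _, _⟩ := hall c hc k
      exact ⟨Dc z, e2 z hz2, e1 z⟩
  · intro r k c A B hr hc hW
    obtain ⟨Dc, _, _, _, e3⟩ := hall c hc k
    exact e3 r A B hr hW
  · intro k hk A B hW η ψ hη hη1 hψ hψ0
    obtain ⟨C', hC'⟩ := csls_dec (hsl D k cD) (hD k).2
    refine h6 μ (fun z => I * k * z + D z k) A B k C' η ψ hab hk ?_ ?_ ?_ hW hη hη1 hψ hψ0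
    · exact (by fun_prop : Continuous (fun z : ℂ => I * k * z)).add (hsl D k cD)
    · have := hF1.2.1 k
      simp only [hXE] at this
      exact this
    · intro z
      have : I * k * z + D z k - I * k * z = D z k := by ring
      rw [this]
      exact hC' z
  · intro θ z hθ0 hθ1
    obtain ⟨cX, dX⟩ := csls_der μ E E1 E2 dE fE z
    obtain ⟨cY, dY⟩ := csls_der μ E' E1' E2' dE' fE' z
    refine h10 (Fof μ E) (Fof μ E') (fun z k => I * k * z + D z k) z θ ?_ cX cY (fun k => (hXE z k).symm) (fun k => him z k) ?_ ?_ ?_ hθ0 hθ1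
    · have : Continuous (fun k : ℂ => D z k) := cD.comp (by fun_prop : Continuous (fun k : ℂ => (z, k)))
      exact (by fun_prop : Continuous (fun k : ℂ => I * k * z)).add this
    · intro k
      exact ⟨Real.exp (-(16 * (1 + ‖k‖) * (1 + ‖z‖))), Real.exp_pos _, fun c hc => (hlow z k c hc).1⟩
    · intro k
      rw [(dX k).1, (dY k).2]
      have h15 := h2 (al μ) (be μ) 1 E E1 E2 E' E1' E2' E E' hal hbe hz nE nI1 nE nE' cE1 cE2' eE1 eE2' z k
      have ht : tc (Fof μ E) (Fof μ E') 1 k = I * an (al μ) (be μ) E k - an (al μ) (be μ) E' k := by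
        unfold tc
        rw [hac1, mul_one, hacI]
      rw [ht]
      have h16 := hmul (I * an (al μ) (be μ) E k - an (al μ) (be μ) E' k).re (I * an (al μ) (be μ) E k - an (al μ) (be μ) E' k).im (exp (I * k * z)) (E z k) (E' z k) (μ z)
      rw [← h15] at h16
      unfold Fof
      rw [← h16]
      simp only [map_add, map_mul, map_sub, map_neg]
      ring
    · intro k
      rw [(dY k).1, (dX k).2]
      have e2n : ∀ z k, (fun z k => -(E2 z k)) z k = Ct (fun ζ => al μ ζ * (fun z k => -(E2 z k)) ζ k + be μ ζ * ek k ζ * conj ((fun z k => -(E2 z k)) ζ k) + (ζ - conj ζ) * be μ ζ * ek k ζ * conj (-(E ζ k))) z := by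
        intro z k
        have h17 : (fun ζ => al μ ζ * (-(E2 ζ k)) + be μ ζ * ek k ζ * conj (-(E2 ζ k)) + (ζ - conj ζ) * be μ ζ * ek k ζ * conj (-(E ζ k)))
            = fun ζ => (-1 : ℂ) * (al μ ζ * E2 ζ k + be μ ζ * ek k ζ * conj (E2 ζ k) + (ζ - conj ζ) * be μ ζ * ek k ζ * conj (E ζ k)) := by
          funext ζ
          simp only [map_neg]
          ring
        obtain ⟨C3, _, _, _, h18, _⟩ := h11
        show -(E2 z k) = _
        simp only
        rw [h17, h18, ← eE2 z k]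
        ring
      have h15 := h2 (al μ) (be μ) I E' E1' E2' (fun z k => -(E z k)) (fun z k => -(E1 z k)) (fun z k => -(E2 z k)) E E' hal hbe hz nE' hneg nE nE' cE1' cE2.neg eE1' e2n z k
      have ht : tc (Fof μ E) (Fof μ E') I k = I * an (al μ) (be μ) E' k - an (al μ) (be μ) (fun z k => -(E z k)) k := by
        unfold tc
        rw [hacI, hacm]
      rw [ht]
      have h16 := hmul (I * an (al μ) (be μ) E' k - an (al μ) (be μ) (fun z k => -(E z k)) k).re (I * an (al μ) (be μ) E' k - an (al μ) (be μ) (fun z k => -(E z k)) k).im (exp (I * k * z)) (E z k) (E' z k) (μ z)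
      rw [← h15] at h16
      unfold Fof
      rw [← h16]
      simp only [map_add, map_mul, map_sub, map_neg]
      ring

end Cal
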