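import Pool.Agent.Lib.MP_4ea4c7_an.StmH4

/-! # [CH c2] Solvability (continuity method) -/

open MeasureTheory Complex Metric Set Filter Topology
open scoped ComplexConjugate ENNReal NNReal BoundedContinuousFunction

namespace Cal

noncomputable section

/-- Method of continuity in a Banach space: if `‖x‖ ≤ C ‖x - t T x‖` for all `t ∈ [0,1]`, then `1 - T` is invertible. -/
private lemma cs_cont {E : Type*} [NormedAddCommGroup E] [NormedSpace ℝ E] [CompleteSpace E] [Nontrivial E]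
    (T : E →L[ℝ] E) (C : ℝ) (hC : 0 < C)
    (hap : ∀ t : ℝ, 0 ≤ t → t ≤ 1 → ∀ x : E, ‖x‖ ≤ C * ‖x - t • T x‖) :
    IsUnit (1 - T) := by
  obtain ⟨n, hn⟩ := exists_nat_gt (C * ‖T‖)
  have hn0 : (0 : ℝ) < n := lt_of_le_of_lt (by positivity) hn
  have hstep : ∀ k : ℕ, k ≤ n → IsUnit (1 - ((k : ℝ) / n) • T) := by
    intro k
    induction k with
    | zero => intro _; simp
    | succ k ih =>
      intro hk
      obtain ⟨u, hu⟩ := ih (by omega)
      have ht0 : (0 : ℝ) ≤ (k : ℝ) / n := by positivity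
      have ht1 : (k : ℝ) / n ≤ 1 := by
        rw [div_le_one hn0]
        exact_mod_cast (by omega : k ≤ n)
      have hinv : ‖((u⁻¹ : (E →L[ℝ] E)ˣ) : E →L[ℝ] E)‖ ≤ C := by
        apply ContinuousLinearMap.opNorm_le_bound _ hC.le
        intro y
        have h1 := hap _ ht0 ht1 (((u⁻¹ : (E →L[ℝ] E)ˣ) : E →L[ℝ] E) y)
        have h2 : (((u⁻¹ : (E →L[ℝ] E)ˣ) : E →L[ℝ] E) y) -
            ((k : ℝ) / n) • T (((u⁻¹ : (E →L[ℝ] E)ˣ) : E →L[ℝ] E) y) = y := by
          have h3 : ((u : E →L[ℝ] E) * ((u⁻¹ : (E →L[ℝ] E)ˣ) : E →L[ℝ] E)) y = y := by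
            rw [Units.mul_inv]; rfl
          rw [hu] at h3
          exact h3
        rwa [h2] at h1
      have hpos : 0 < ‖((u⁻¹ : (E →L[ℝ] E)ˣ) : E →L[ℝ] E)‖ := Units.norm_pos _
      have hlt : ‖-((1 / (n : ℝ)) • T)‖ < ‖((u⁻¹ : (E →L[ℝ] E)ˣ) : E →L[ℝ] E)‖⁻¹ := by
        rw [norm_neg, norm_smul, Real.norm_of_nonneg (by positivity)]
        have h4 : C⁻¹ ≤ ‖((u⁻¹ : (E →L[ℝ] E)ˣ) : E →L[ℝ] E)‖⁻¹ := inv_anti₀ hpos hinv
        refine lt_of_lt_of_le ?_ h4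
        rw [one_div, ← div_eq_inv_mul, ← one_div, div_lt_div_iff₀ hn0 hC]
        linarith
      refine ⟨Units.add u _ hlt, ?_⟩
      rw [Units.val_add, hu]
      push_cast
      rw [add_div, add_smul]
      abel
  have h := hstep n le_rfl
  rwa [div_self hn0.ne', one_smul] at h

/-- the right hand side of the equation -/
private def wf (a b N : ℂ → ℂ) (ζ : ℂ) : ℂ := a ζ * N ζ + b ζ * conj (N ζ)

private lemma wf_meas {a b N : ℂ → ℂ} (ha : Measurable a) (hb : Measurable b) (hN : Continuous N) :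
    AEStronglyMeasurable (wf a b N) volume := by
  have h1 : Measurable (fun ζ => conj (N ζ)) := (Complex.continuous_conj.comp hN).measurable
  exact ((ha.mul hN.measurable).add (hb.mul h1)).aestronglyMeasurable

private lemma wf_bd {a b N : ℂ → ℂ} {M0 K : ℝ} (hM0 : 0 ≤ M0) (hK : 0 ≤ K)
    (hab : ∀ z, ‖a z‖ ≤ M0 ∧ ‖b z‖ ≤ M0)
    (hz : ∀ z, 5 / 4 < ‖z‖ → a z = 0 ∧ b z = 0) (hN : ∀ z, ‖z‖ ≤ 5 / 4 → ‖N z‖ ≤ K) (z : ℂ) :
    ‖wf a b N z‖ ≤ 2 * M0 * K := by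
  unfold wf
  by_cases h : 5 / 4 < ‖z‖
  · rw [(hz z h).1, (hz z h).2]
    simp only [zero_mul, add_zero, norm_zero]
    positivity
  · have h1 := hN z (not_lt.mp h)
    calc ‖a z * N z + b z * conj (N z)‖ ≤ ‖a z * N z‖ + ‖b z * conj (N z)‖ := norm_add_le _ _
      _ = ‖a z‖ * ‖N z‖ + ‖b z‖ * ‖N z‖ := by rw [norm_mul, norm_mul, RCLike.norm_conj]
      _ ≤ M0 * K + M0 * K := by
          gcongr
          · exact (hab z).1
          · exact (hab z).2
      _ = 2 * M0 * K := by ring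

private lemma wf_zero {a b N : ℂ → ℂ} (hz : ∀ z, 5 / 4 < ‖z‖ → a z = 0 ∧ b z = 0) (z : ℂ) (h : 5 / 4 < ‖z‖) :
    wf a b N z = 0 := by
  unfold wf
  rw [(hz z h).1, (hz z h).2]; simp

private lemma bd_ball (N : ℂ → ℂ) (hN : Continuous N) : ∃ K : ℝ, 0 ≤ K ∧ ∀ z : ℂ, ‖z‖ ≤ 5 / 4 → ‖N z‖ ≤ K := by
  obtain ⟨K, hK⟩ := (isCompact_closedBall (0 : ℂ) (5 / 4)).exists_bound_of_continuousOn hN.continuousOn
  refine ⟨max K 0, le_max_right _ _, fun z hz => le_trans (hK z ?_) (le_max_left _ _)⟩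
  rw [mem_closedBall, dist_zero_right]; exact hz

/-- additivity of the Cauchy transform on bounded functions -/
private lemma Ct_add' (h2 : S_C4) (h3 : S_C3a) (w w' : ℂ → ℂ) (M M' : ℝ)
    (hw : AEStronglyMeasurable w volume) (hw' : AEStronglyMeasurable w' volume)
    (hM : ∀ z, ‖w z‖ ≤ M) (hM' : ∀ z, ‖w' z‖ ≤ M')
    (hz : ∀ z, 5 / 4 < ‖z‖ → w z = 0) (hz' : ∀ z, 5 / 4 < ‖z‖ → w' z = 0) (z : ℂ) :
    Ct (fun ζ => w ζ + w' ζ) z = Ct w z + Ct w' z := by
  obtain ⟨C4, hC4, h4⟩ := h2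
  obtain ⟨C3, hC3, h31, h32, h33, h34⟩ := h3
  have k1 := h4 w M hw hM hz
  have k2 := h4 w' M' hw' hM' hz'
  have k3 := h4 (fun ζ => w ζ + w' ζ) (M + M') (hw.add hw')
    (fun z => le_trans (norm_add_le _ _) (add_le_add (hM z) (hM' z)))
    (fun z h => by simp [hz z h, hz' z h])
  have k4 := (h32 w w' k1.2.2 k2.2.2).1
  have k5 : Ct (fun ζ => w ζ + w' ζ) = fun z => Ct w z + Ct w' z :=
    Continuous.ae_eq_iff_eq (μ := volume) k3.1 (k1.1.add k2.1) |>.mp k4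
  exact congrFun k5 z

/-- [CH c2] solvability and uniqueness -/
theorem piece_csolve (h1 : S_capri) (h2 : S_C4) (h3 : S_C3a) : S_csolve := by
  intro M0 hM0 a b ha hb hab hz
  obtain ⟨C, hC, hapri⟩ := h1 M0 hM0
  have hsm : ∀ (w : ℂ → ℂ) (c z : ℂ), Ct (fun ζ => c * w ζ) z = c * Ct w z := by
    obtain ⟨_, _, _, _, h33, _⟩ := h3
    exact h33
  obtain ⟨C4, hC4, h4⟩ := id h2
  have hwfadd : ∀ (N N' : ℂ → ℂ), Continuous N → Continuous N' → ∀ z,
      Ct (wf a b (fun ζ => N ζ + N' ζ)) z = Ct (wf a b N) z + Ct (wf a b N') z := by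
    intro N N' hN hN' z
    obtain ⟨K, hK0, hK⟩ := bd_ball N hN
    obtain ⟨K', hK0', hK'⟩ := bd_ball N' hN'
    rw [← Ct_add' h2 h3 (wf a b N) (wf a b N') _ _ (wf_meas ha hb hN) (wf_meas ha hb hN')
      (wf_bd hM0 hK0 hab hz hK) (wf_bd hM0 hK0' hab hz hK') (wf_zero hz) (wf_zero hz)]
    congr 1
    funext ζ
    unfold wf
    rw [map_add]; ring
  have hwfsm : ∀ (c : ℝ) (N : ℂ → ℂ) z, Ct (wf a b (fun ζ => (c : ℂ) * N ζ)) z = (c : ℂ) * Ct (wf a b N) z := by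
    intro c N z
    rw [← hsm]
    congr 1
    funext ζ
    unfold wf
    rw [map_mul, Complex.conj_ofReal]; ring
  refine ⟨?_, ?_⟩
  · -- existence
    intro h H hh hH
    have hbdT : ∀ N : ℂ →ᵇ ℂ, ∀ z, ‖Ct (wf a b N) z‖ ≤ C4 * (2 * M0) * ‖N‖ := by
      intro N z
      have k := (h4 (wf a b N) (2 * M0 * ‖N‖) (wf_meas ha hb N.continuous)
        (wf_bd hM0 (norm_nonneg _) hab hz (fun z _ => N.norm_coe_le_norm z)) (wf_zero hz)).2.1 z
      refine le_trans k ?_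
      calc C4 * (2 * M0 * ‖N‖) / (1 + ‖z‖) ≤ C4 * (2 * M0 * ‖N‖) / 1 := by
            apply div_le_div_of_nonneg_left (by positivity) one_pos
            linarith [norm_nonneg z]
        _ = _ := by ring
    let T0 : (ℂ →ᵇ ℂ) →ₗ[ℝ] (ℂ →ᵇ ℂ) :=
      { toFun := fun N => BoundedContinuousFunction.ofNormedAddCommGroup (Ct (wf a b N))
          (h4 (wf a b N) (2 * M0 * ‖N‖) (wf_meas ha hb N.continuous)
        (wf_bd hM0 (norm_nonneg _) hab hz (fun z _ => N.norm_coe_le_norm z)) (wf_zero hz)).1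
          (C4 * (2 * M0) * ‖N‖) (hbdT N)
        map_add' := by
          intro N N'
          ext z
          exact hwfadd N N' N.continuous N'.continuous z
        map_smul' := by
          intro c N
          ext z
          have := hwfsm c N z
          simpa [Complex.real_smul] using this }
    let T : (ℂ →ᵇ ℂ) →L[ℝ] (ℂ →ᵇ ℂ) := T0.mkContinuous (C4 * (2 * M0)) (by
      intro N
      rw [BoundedContinuousFunction.norm_le (by positivity)]
      intro z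
      exact hbdT N z)
    have hTz : ∀ N : ℂ →ᵇ ℂ, ∀ z, T N z = Ct (wf a b N) z := fun N z => rfl
    have hap : ∀ t : ℝ, 0 ≤ t → t ≤ 1 → ∀ x : ℂ →ᵇ ℂ, ‖x‖ ≤ (C + 1) * ‖x - t • T x‖ := by
      intro t ht0 ht1 x
      have hta : ∀ z, ‖(t : ℂ) * a z‖ ≤ M0 ∧ ‖(t : ℂ) * b z‖ ≤ M0 := by
        intro z
        have hn : ‖(t : ℂ)‖ ≤ 1 := by rw [Complex.norm_real, Real.norm_of_nonneg ht0]; exact ht1
        rw [norm_mul, norm_mul]
        constructor
        · exact le_trans (mul_le_of_le_one_left (norm_nonneg _) hn) (hab z).1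
        · exact le_trans (mul_le_of_le_one_left (norm_nonneg _) hn) (hab z).2
      have k := hapri (fun z => (t : ℂ) * a z) (fun z => (t : ℂ) * b z) (x - t • T x) x ‖x - t • T x‖
        (measurable_const.mul ha) (measurable_const.mul hb) hta
        (fun z hz' => by simp [(hz z hz').1, (hz z hz').2]) (x - t • T x).continuous
        (fun z => (x - t • T x).norm_coe_le_norm z) x.continuous (by
          intro z
          have e1 : (fun ζ => (t : ℂ) * a ζ * x ζ + (t : ℂ) * b ζ * conj (x ζ)) =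
              fun ζ => (t : ℂ) * wf a b x ζ := by
            funext ζ; unfold wf; ring
          rw [e1, hsm]
          have e2 : (⇑x - t • ⇑(T x)) z = x z - t • Ct (wf a b x) z := rfl
          have e3 : (⇑x - t • ⇑(T x)) z + (t : ℂ) * Ct (wf a b x) z = x z := by
            rw [e2, Complex.real_smul]; ring
          exact e3.symm)
      rw [BoundedContinuousFunction.norm_le (by positivity)]
      intro z
      refine le_trans (k z) ?_
      exact mul_le_mul_of_nonneg_right (by linarith) (norm_nonneg _)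
    have : Nontrivial (ℂ →ᵇ ℂ) := ⟨⟨0, BoundedContinuousFunction.const ℂ 1, fun h0 => by
      have h9 : (0 : ℂ →ᵇ ℂ) 0 = (BoundedContinuousFunction.const ℂ (1 : ℂ)) 0 := by rw [h0]
      simp at h9⟩⟩
    obtain ⟨u, hu⟩ := cs_cont T (C + 1) (by linarith) hap
    let hB : ℂ →ᵇ ℂ := BoundedContinuousFunction.ofNormedAddCommGroup h hh H hH
    let N : ℂ →ᵇ ℂ := ((u⁻¹ : ((ℂ →ᵇ ℂ) →L[ℝ] (ℂ →ᵇ ℂ))ˣ) : (ℂ →ᵇ ℂ) →L[ℝ] (ℂ →ᵇ ℂ)) hB
    have hN : N - T N = hB := by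
      have h3 : ((u : (ℂ →ᵇ ℂ) →L[ℝ] (ℂ →ᵇ ℂ)) *
          ((u⁻¹ : ((ℂ →ᵇ ℂ) →L[ℝ] (ℂ →ᵇ ℂ))ˣ) : (ℂ →ᵇ ℂ) →L[ℝ] (ℂ →ᵇ ℂ))) hB = hB := by
        rw [Units.mul_inv]; rfl
      rw [hu] at h3
      exact h3
    refine ⟨N, N.continuous, fun z => ?_⟩
    have h5 : (N - T N) z = hB z := by rw [hN]
    have h6 : hB z = h z := rfl
    have h7 : (N - T N) z = N z - Ct (wf a b N) z := rfl
    rw [h6, h7] at h5
    have h8 : N z = h z + Ct (wf a b N) z := by rw [← h5]; ring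
    exact h8
  · -- uniqueness
    intro h N N' hN hN' e e' z
    have hD : ∀ z, N z - N' z = 0 + Ct (fun ζ => a ζ * (N ζ - N' ζ) + b ζ * conj (N ζ - N' ζ)) z := by
      intro z
      have k := hwfadd (fun ζ => N ζ - N' ζ) N' (hN.sub hN') hN' z
      simp only [sub_add_cancel] at k
      have k2 : N z = h z + Ct (wf a b N) z := e z
      have k3 : N' z = h z + Ct (wf a b N') z := e' z
      have k4 : Ct (fun ζ => a ζ * (N ζ - N' ζ) + b ζ * conj (N ζ - N' ζ)) z = Ct (wf a b (fun ζ => N ζ - N' ζ)) z := rfl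
      rw [k4, k2, k3]
      have k5 : Ct (wf a b N) z = Ct (wf a b (fun ζ => N ζ - N' ζ)) z + Ct (wf a b N') z := k
      rw [k5]; ring
    have k := hapri a b (fun _ => 0) (fun z => N z - N' z) 0 ha hb hab hz continuous_const (by simp) (hN.sub hN') hD z
    rw [mul_zero, norm_le_zero_iff] at k
    exact sub_eq_zero.mp k

end

end Cal
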