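import Pool.Agent.Lib.MP_4ea4c7_an.StmF

/-! Piece L3 (`S_ctf`): test functions under conformal maps. -/

open MeasureTheory Complex Metric Set Filter Topology
open scoped ComplexConjugate ENNReal NNReal

namespace Cal

open LocalCalderon

noncomputable section

private lemma ctf_lin (D : ℂ →L[ℝ] ℝ) (w : ℂ) : D w = w.re * D 1 + w.im * D I := by
  have h : w = (w.re : ℝ) • (1 : ℂ) + (w.im : ℝ) • I := by
    simp only [Complex.real_smul, mul_one]
    exact (Complex.re_add_im w).symm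
  conv_lhs => rw [h]
  rw [map_add, map_smul, map_smul, smul_eq_mul, smul_eq_mul]

private lemma ctf_aux {U V : Set ℂ} {Ψ Θ : ℂ → ℂ} (hC : CB U V Ψ) (hΘ : ContinuousOn Θ V)
    (hinv : ∀ z ∈ U, Θ (Ψ z) = z) (hmaps : MapsTo Θ V U) (φ : ℂ → ℝ) (hφ : RTF V φ) :
    ∃ φ' : ℂ → ℝ, RTF U φ' ∧ (∀ z ∈ U, φ' z = φ (Ψ z)) ∧ ∀ z ∈ U, gr φ' z = pull Ψ (gr φ) z := by
  classical
  obtain ⟨h1, h2, h3⟩ := hφ
  set φ' : ℂ → ℝ := fun z => if z ∈ U then φ (Ψ z) else 0 with hφ'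
  have heq : ∀ z ∈ U, φ' z = φ (Ψ z) := fun z hz => if_pos hz
  set K : Set ℂ := Θ '' tsupport φ with hK
  have hKc : IsCompact K := h2.isCompact.image_of_continuousOn (hΘ.mono h3)
  have hKU : K ⊆ U := by
    rintro _ ⟨w, hw, rfl⟩
    exact hmaps (h3 hw)
  have hsupp : Function.support φ' ⊆ K := by
    intro z hz
    by_cases hzU : z ∈ U
    · rw [Function.mem_support, heq z hzU] at hz
      exact ⟨Ψ z, subset_tsupport φ hz, hinv z hzU⟩
    · exact absurd (if_neg hzU) hz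
  have htsupp : tsupport φ' ⊆ K := closure_minimal hsupp hKc.isClosed
  have hev : ∀ z ∈ U, φ' =ᶠ[𝓝 z] fun z => φ (Ψ z) := fun z hz => by
    filter_upwards [hC.ou.mem_nhds hz] with w hw
    exact heq w hw
  have hΨ : ∀ z ∈ U, AnalyticAt ℂ Ψ z := fun z hz => hC.hol.analyticAt (hC.ou.mem_nhds hz)
  refine ⟨φ', ⟨?_, ?_, htsupp.trans hKU⟩, heq, ?_⟩
  · rw [contDiff_iff_contDiffAt]
    intro z
    by_cases hzU : z ∈ U
    · refine ContDiffAt.congr_of_eventuallyEq ?_ (hev z hzU)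
      have h4 : ContDiffAt ℝ (⊤ : ℕ∞) Ψ z := ((hΨ z hzU).contDiffAt).restrict_scalars ℝ
      exact (h1.contDiffAt).comp z h4
    · have hzK : z ∉ K := fun h => hzU (hKU h)
      have h5 : φ' =ᶠ[𝓝 z] fun _ => 0 := by
        filter_upwards [hKc.isClosed.isOpen_compl.mem_nhds hzK] with w hw
        by_contra hc
        exact hw (hsupp hc)
      exact contDiffAt_const.congr_of_eventuallyEq h5
  · exact HasCompactSupport.of_support_subset_isCompact hKc hsupp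
  · intro z hz
    have hd : DifferentiableAt ℂ Ψ z := (hΨ z hz).differentiableAt
    have h6 : HasFDerivAt Ψ ((ContinuousLinearMap.toSpanSingleton ℂ (deriv Ψ z)).restrictScalars ℝ) z :=
      hd.hasDerivAt.hasFDerivAt.restrictScalars ℝ
    have h7 : HasFDerivAt φ (fderiv ℝ φ (Ψ z)) (Ψ z) :=
      (h1.differentiable (by simp)).differentiableAt.hasFDerivAt
    have h8 := h7.comp z h6
    have h9 : fderiv ℝ φ' z = (fderiv ℝ φ (Ψ z)).comp
        ((ContinuousLinearMap.toSpanSingleton ℂ (deriv Ψ z)).restrictScalars ℝ) := by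
      rw [(hev z hz).fderiv_eq]
      exact h8.fderiv
    unfold gr pull
    rw [h9]
    have e1 : ((fderiv ℝ φ (Ψ z)).comp
        ((ContinuousLinearMap.toSpanSingleton ℂ (deriv Ψ z)).restrictScalars ℝ)) 1
        = (fderiv ℝ φ (Ψ z)) (deriv Ψ z) := by
      simp
    have e2 : ((fderiv ℝ φ (Ψ z)).comp
        ((ContinuousLinearMap.toSpanSingleton ℂ (deriv Ψ z)).restrictScalars ℝ)) I
        = (fderiv ℝ φ (Ψ z)) (I * deriv Ψ z) := by
      simp
    rw [e1, e2, ctf_lin _ (deriv Ψ z), ctf_lin _ (I * deriv Ψ z)]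
    apply Complex.ext
    · simp
    · simp
      ring

theorem piece_ctf (h1 : S_cinv) : S_ctf := by
  intro U V Ψ hC
  obtain ⟨hV, hd, Θ, hΘ, hi1, hi2, hi3⟩ := h1 U V Ψ hC
  have hm : MapsTo Θ V U := by
    intro w hw
    rw [← hΘ.img]
    exact ⟨w, hw, rfl⟩
  have hm' : MapsTo Ψ U V := by
    intro w hw
    rw [← hC.img]
    exact ⟨w, hw, rfl⟩
  refine ⟨fun φ hφ => ctf_aux hC hΘ.hol.continuousOn hi1 hm φ hφ, fun φ' hφ' => ?_⟩
  obtain ⟨φ, h2, h3, h4⟩ := ctf_aux hΘ hC.hol.continuousOn hi2 hm' φ' hφ'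
  refine ⟨φ, h2, fun z hz => ?_, fun z hz => ?_⟩
  · rw [h3 (Ψ z) (hm' hz), hi1 z hz]
  · have h5 := h4 (Ψ z) (hm' hz)
    unfold pull at h5 ⊢
    rw [h5, hi1 z hz, ← mul_assoc, ← map_mul, mul_comm (deriv Ψ z), hi3 z hz, map_one, one_mul]

end

end Cal
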