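import Pool.Agent.Lib.MP_4ea4c7_an.StmF

open MeasureTheory Complex Metric Set Filter Topology
open scoped ComplexConjugate ENNReal NNReal

namespace Cal

open LocalCalderon

/-- real determinant of the multiplication by a complex number -/
private theorem cv_det (a : ℂ) : ((ContinuousLinearMap.toSpanSingleton ℂ a).restrictScalars ℝ).det = ‖a‖ ^ 2 := by
  have h1 : (((ContinuousLinearMap.toSpanSingleton ℂ a).restrictScalars ℝ : ℂ →L[ℝ] ℂ) : ℂ →ₗ[ℝ] ℂ) =
      Algebra.lmul ℝ ℂ a := by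
    refine LinearMap.ext fun z => ?_
    simp [mul_comm]
  rw [ContinuousLinearMap.det, h1, ← Algebra.norm_apply, Algebra.norm_complex_apply, Complex.normSq_eq_norm_sq]

private theorem cv_fd {U V : Set ℂ} {Ψ : ℂ → ℂ} (h : CB U V Ψ) : ∀ x ∈ U, HasFDerivWithinAt Ψ
    ((ContinuousLinearMap.toSpanSingleton ℂ (deriv Ψ x)).restrictScalars ℝ) U x := by
  intro x hx
  have h1 : HasDerivAt Ψ (deriv Ψ x) x := (h.hol.differentiableAt (h.ou.mem_nhds hx)).hasDerivAt
  exact (h1.hasFDerivAt.restrictScalars ℝ).hasFDerivWithinAt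

private theorem cv_lint {U V : Set ℂ} {Ψ : ℂ → ℂ} (h : CB U V Ψ) (g : ℂ → ℝ≥0∞) :
    ∫⁻ x in V, g x = ∫⁻ x in U, ENNReal.ofReal (‖deriv Ψ x‖ ^ 2) * g (Ψ x) := by
  rw [← h.img, lintegral_image_eq_lintegral_abs_det_fderiv_mul volume h.ou.measurableSet (cv_fd h) h.inj]
  refine setLIntegral_congr_fun h.ou.measurableSet fun x _ => ?_
  simp only [cv_det, abs_of_nonneg (sq_nonneg ‖deriv Ψ x‖)]

private theorem cv_int {U V : Set ℂ} {Ψ : ℂ → ℂ} (h : CB U V Ψ) (g : ℂ → ℝ) :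
    ∫ x in V, g x = ∫ x in U, ‖deriv Ψ x‖ ^ 2 * g (Ψ x) := by
  rw [← h.img, integral_image_eq_integral_abs_det_fderiv_smul volume h.ou.measurableSet (cv_fd h) h.inj]
  refine setIntegral_congr_fun h.ou.measurableSet fun x _ => ?_
  simp only [cv_det, abs_of_nonneg (sq_nonneg ‖deriv Ψ x‖), smul_eq_mul]

private theorem cv_norm {U V : Set ℂ} {Ψ : ℂ → ℂ} (h : CB U V Ψ) (G : ℂ → ℂ) :
    eLpNorm (pull Ψ G) 2 (volume.restrict U) = eLpNorm G 2 (volume.restrict V) := by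
  rw [eLpNorm_eq_lintegral_rpow_enorm_toReal (by norm_num) (by norm_num),
    eLpNorm_eq_lintegral_rpow_enorm_toReal (by norm_num) (by norm_num), cv_lint h]
  congr 1
  refine lintegral_congr fun x => ?_
  have e : ‖pull Ψ G x‖ₑ = ENNReal.ofReal ‖deriv Ψ x‖ * ‖G (Ψ x)‖ₑ := by
    unfold pull
    rw [enorm_mul]
    congr 1
    rw [← ofReal_norm, RCLike.norm_conj]
  rw [e, ENNReal.mul_rpow_of_nonneg _ _ (by norm_num)]
  congr 1
  rw [ENNReal.ofReal_rpow_of_nonneg (norm_nonneg _) (by norm_num)]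
  congr 1
  norm_num

/-- null sets -/
private theorem cv_null {U V : Set ℂ} {Ψ Θ : ℂ → ℂ} (hΘ : CB V U Θ)
    (hinv : ∀ z ∈ U, Θ (Ψ z) = z) (himg : ∀ z ∈ U, Ψ z ∈ V) {P : ℂ → Prop} (hP : ∀ᵐ w ∂(volume.restrict V), P w) :
    ∀ᵐ z ∂(volume.restrict U), P (Ψ z) := by
  rw [ae_restrict_iff' hΘ.ou.measurableSet] at hP
  have hU : MeasurableSet U := by
    rw [← hΘ.img]
    exact measurable_image_of_fderivWithin hΘ.ou.measurableSet (cv_fd hΘ) hΘ.inj
  rw [ae_restrict_iff' hU]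
  rw [ae_iff] at hP ⊢
  have hd : DifferentiableOn ℝ Θ {w | ¬(w ∈ V → P w)} := by
    intro w hw
    have hwV : w ∈ V := by
      by_contra hn; exact hw fun h => absurd h hn
    exact ((cv_fd hΘ w hwV).hasFDerivAt (hΘ.ou.mem_nhds hwV)).differentiableAt.differentiableWithinAt
  have h0 := addHaar_image_eq_zero_of_differentiableOn_of_addHaar_eq_zero volume hd hP
  refine measure_mono_null ?_ h0
  intro z hz
  have hzU : z ∈ U := by
    by_contra hn; exact hz fun h => absurd h hn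
  refine ⟨Ψ z, ?_, hinv z hzU⟩
  intro h
  exact hz fun _ => h (himg z hzU)

private theorem cv_meas {U V : Set ℂ} {Ψ Θ : ℂ → ℂ} (hΨ : CB U V Ψ) (hΘ : CB V U Θ)
    (hinv : ∀ z ∈ U, Θ (Ψ z) = z) {G : ℂ → ℂ} (hG : AEStronglyMeasurable G (volume.restrict V)) :
    AEStronglyMeasurable (pull Ψ G) (volume.restrict U) := by
  have himg : ∀ z ∈ U, Ψ z ∈ V := fun z hz => by rw [← hΨ.img]; exact mem_image_of_mem _ hz
  obtain ⟨G0, hG0, hGG⟩ := hG
  have h1 : ∀ᵐ z ∂(volume.restrict U), G (Ψ z) = G0 (Ψ z) := cv_null (P := fun w => G w = G0 w) hΘ hinv himg hGG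
  have h2 : AEStronglyMeasurable (deriv Ψ) (volume.restrict U) :=
    (hΨ.hol.deriv hΨ.ou).continuousOn.aestronglyMeasurable hΨ.ou.measurableSet
  have h3 : AEMeasurable Ψ (volume.restrict U) := hΨ.hol.continuousOn.aemeasurable hΨ.ou.measurableSet
  have h4 : AEStronglyMeasurable (fun z => G0 (Ψ z)) (volume.restrict U) :=
    (hG0.measurable.comp_aemeasurable h3).aestronglyMeasurable
  have h5 : AEStronglyMeasurable (fun z => conj (deriv Ψ z) * G0 (Ψ z)) (volume.restrict U) :=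
    (Complex.continuous_conj.comp_aestronglyMeasurable h2).mul h4
  refine h5.congr ?_
  filter_upwards [h1] with z hz
  unfold pull
  rw [hz]

theorem piece_cv (h1 : S_cinv) : S_cv := by
  intro U V Ψ hΨ
  obtain ⟨hV, hd, Θ, hΘ, hi1, hi2, hdd⟩ := h1 U V Ψ hΨ
  have himg : ∀ z ∈ U, Ψ z ∈ V := fun z hz => by rw [← hΨ.img]; exact mem_image_of_mem _ hz
  have himg' : ∀ w ∈ V, Θ w ∈ U := fun z hz => by rw [← hΘ.img]; exact mem_image_of_mem _ hz
  have hpp : ∀ (H : ℂ → ℂ), ∀ z ∈ U, pull Ψ (pull Θ H) z = H z := by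
    intro H z hz
    unfold pull
    rw [hi1 z hz, ← mul_assoc, ← map_mul, mul_comm (deriv Ψ z), hdd z hz, map_one, one_mul]
  have hpp' : ∀ (G : ℂ → ℂ), ∀ w ∈ V, pull Θ (pull Ψ G) w = G w := by
    intro G w hw
    have e := hdd (Θ w) (himg' w hw)
    rw [hi2 w hw] at e
    unfold pull
    rw [hi2 w hw, ← mul_assoc, ← map_mul, e, map_one, one_mul]
  refine ⟨fun G => ?_, fun G => cv_norm hΨ G, fun γ G H => ?_, fun H => ⟨pull Θ H, hpp H⟩, fun G G' => ?_⟩
  · constructor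
    · intro hG
      refine ⟨cv_meas hΨ hΘ hi1 hG.1, ?_⟩
      rw [cv_norm hΨ]; exact hG.2
    · intro hG
      refine ⟨?_, ?_⟩
      · refine (cv_meas hΘ hΨ hi2 hG.1).congr ?_
        filter_upwards [ae_restrict_mem hV.measurableSet] with w hw
        exact hpp' G w hw
      · rw [← cv_norm hΨ]; exact hG.2
  · rw [cv_int hΨ]
    refine integral_congr_ae (Eventually.of_forall fun z => ?_)
    have e : ip (pull Ψ G z) (pull Ψ H z) = ‖deriv Ψ z‖ ^ 2 * ip (G (Ψ z)) (H (Ψ z)) := by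
      unfold ip pull
      rw [← Complex.normSq_eq_norm_sq, Complex.normSq_apply]
      simp only [map_mul, Complex.conj_conj, Complex.mul_re, Complex.mul_im, Complex.conj_re, Complex.conj_im]
      ring
    simp only [e]
    ring
  · constructor
    · intro h
      have h2 : ∀ᵐ z ∂(volume.restrict U), G (Ψ z) = G' (Ψ z) := cv_null (P := fun w => G w = G' w) hΘ hi1 himg h
      filter_upwards [h2] with z hz
      unfold pull
      rw [hz]
    · intro h
      have h2 : ∀ᵐ w ∂(volume.restrict V), pull Ψ G (Θ w) = pull Ψ G' (Θ w) :=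
        cv_null (P := fun w => pull Ψ G w = pull Ψ G' w) hΨ hi2 himg' h
      filter_upwards [h2, ae_restrict_mem hV.measurableSet] with w hw1 hw2
      rw [← hpp' G w hw2, ← hpp' G' w hw2]
      show conj (deriv Θ w) * pull Ψ G (Θ w) = conj (deriv Θ w) * pull Ψ G' (Θ w)
      rw [hw1]

end Cal
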