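import Pool.Agent.Lib.MP_4ea4c7_an.StmH6

/-!
# MP_4ea4c7_an, stage 2: piece d12
-/

open MeasureTheory Complex Metric Set Filter Topology
open scoped ComplexConjugate ENNReal NNReal

namespace Cal

theorem piece_dLL (h1 : S_calg) (h2 : S_dbd) : S_dLL := by
  intro G k0 C μ μn Xn Yn gn X Y g hA θ hθ0 hθ1 z hz k
  obtain ⟨hexp, -, him, hbd, -⟩ := h2 G k0 C μ μn Xn Yn gn X Y g hA
  have hpt : ({(z, k)} : Set (ℂ × ℂ)) ⊆ G ×ˢ univ := by
    rintro p hp
    rw [mem_singleton_iff] at hp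
    subst hp
    exact ⟨hz, mem_univ _⟩
  have hX : Tendsto (fun n => Xn n z k) atTop (𝓝 (X z k)) :=
    (hA.tX {(z, k)} isCompact_singleton hpt).tendsto_at (mem_singleton (z, k))
  have hY : Tendsto (fun n => Yn n z k) atTop (𝓝 (Y z k)) :=
    (hA.tY {(z, k)} isCompact_singleton hpt).tendsto_at (mem_singleton (z, k))
  have hg : Tendsto (fun n => gn n z k) atTop (𝓝 (g z k)) :=
    (hA.tg {(z, k)} isCompact_singleton hpt).tendsto_at (mem_singleton (z, k))
  obtain ⟨-, -, hlt, hre1, hre2, -⟩ := h1 X Y g z k θ (Real.exp (-(C * (1 + ‖k‖) * (1 + ‖z‖))))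
    (hexp z hz k) (him z hz k) hθ0 hθ1 (Real.exp_pos _) (fun c hc => (hbd z hz k c hc).1)
  have hX0 : X z k ≠ 0 := by
    rw [← hexp z hz k]
    exact Complex.exp_ne_zero _
  have hD0 : X z k - I * Y z k ≠ 0 := by
    rw [← norm_pos_iff]
    exact (norm_nonneg _).trans_lt hlt
  have hl1 : Tendsto (fun n => Complex.log (1 - I * (Yn n z k / Xn n z k))) atTop
      (𝓝 (Complex.log (1 - I * (Y z k / X z k)))) := by
    refine Filter.Tendsto.clog ?_ (Complex.mem_slitPlane_iff.mpr (Or.inl (by linarith)))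
    exact tendsto_const_nhds.sub (tendsto_const_nhds.mul (hY.div hX hX0))
  have hl2 : Tendsto (fun n => Complex.log (1 + exp (2 * I * (θ : ℂ)) *
      conj (Xn n z k + I * Yn n z k) / (Xn n z k - I * Yn n z k))) atTop
      (𝓝 (Complex.log (1 + exp (2 * I * (θ : ℂ)) * conj (X z k + I * Y z k) /
        (X z k - I * Y z k)))) := by
    refine Filter.Tendsto.clog ?_ (Complex.mem_slitPlane_iff.mpr (Or.inl hre2))
    refine tendsto_const_nhds.add (Tendsto.div (tendsto_const_nhds.mul ?_) ?_ hD0)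
    · exact (Complex.continuous_conj.tendsto _).comp (hX.add (tendsto_const_nhds.mul hY))
    · exact hX.sub (tendsto_const_nhds.mul hY)
  unfold Lam
  exact ((tendsto_const_nhds.add hg).add hl1).add hl2

end Cal
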