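import Pool.Agent.Lib.MP_4ea4c7_an.StmH6

open MeasureTheory Complex Metric Set Filter Topology
open scoped ComplexConjugate ENNReal NNReal

namespace Cal

noncomputable section

private theorem dapx_FF1 (X Y : ℂ → ℂ → ℂ) (z k : ℂ) : FF X Y 1 z k = X z k := by
  simp [FF]

private theorem dapx_FFI (X Y : ℂ → ℂ → ℂ) (z k : ℂ) : FF X Y I z k = Y z k := by
  simp [FF]

theorem piece_dapx (h1 : S_csls) (h2 : S_dmu) (h3 : S_dloc) (h4 : S_dk) (h5 : S_baa) (h6 : S_blog) :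
    S_dapx := by
  intro G k0 μ hA
  obtain ⟨C, hC0, hC⟩ := h1
  obtain ⟨μn, hsmu, hae, hloc⟩ := h2 G k0 μ hA
  choose Xn Yn gn hsls using fun n => hC k0 (μn n) hA.k00 hA.k01 (hsmu n)
  have hWo : IsOpen (G ×ˢ (univ : Set ℂ)) := hA.oG.prod isOpen_univ
  -- bounds
  have bX : ∀ n z k, ‖Xn n z k‖ ≤ Real.exp (C * (1 + ‖k‖) * (1 + ‖z‖)) := by
    intro n z k
    have := ((hsls n).bd z k 1 (by simp)).2.1
    rwa [dapx_FF1] at this
  have bXl : ∀ n z k, Real.exp (-(C * (1 + ‖k‖) * (1 + ‖z‖))) ≤ ‖Xn n z k‖ := by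
    intro n z k
    have := ((hsls n).bd z k 1 (by simp)).1
    rwa [dapx_FF1] at this
  have bY : ∀ n z k, ‖Yn n z k‖ ≤ Real.exp (C * (1 + ‖k‖) * (1 + ‖z‖)) := by
    intro n z k
    have := ((hsls n).bd z k I (by simp)).2.1
    rwa [dapx_FFI] at this
  -- equicontinuity
  have eq : ∀ p ∈ G ×ˢ (univ : Set ℂ), ∀ ε : ℝ, 0 < ε → ∃ δ : ℝ, 0 < δ ∧ ∀ᶠ n in atTop,
      ∀ p' ∈ G ×ˢ (univ : Set ℂ), dist p' p < δ →
        ‖Xn n p'.1 p'.2 - Xn n p.1 p.2‖ ≤ ε ∧ ‖Yn n p'.1 p'.2 - Yn n p.1 p.2‖ ≤ ε := by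
    rintro ⟨z0, k⟩ ⟨hz0, -⟩ ε hε
    simp only at hz0
    obtain ⟨ρ', hρ', hρG⟩ := Metric.isOpen_iff.mp hA.oG z0 hz0
    set ρ := ρ' / 2 with hρ
    have hρ0 : 0 < ρ := by positivity
    have hcl : closedBall z0 ρ ⊆ G := (closedBall_subset_ball (by rw [hρ]; linarith)).trans hρG
    obtain ⟨q, hq1, hq⟩ := hloc (closedBall z0 ρ) (isCompact_closedBall z0 ρ) hcl
    set R := ‖k‖ + 1 with hR
    have hR0 : 0 < R := by positivity
    obtain ⟨δ1, hδ1, hd1⟩ := (h3 C k0 R q ρ z0 hC0 hA.k00 hA.k01 hq1 hρ0).2 (ε / 2) (by positivity)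
    obtain ⟨δ2, hδ2, hd2⟩ := h4 C k0 R ‖z0‖ hC0 hA.k00 hA.k01 hR0 (norm_nonneg _) (ε / 2) (by positivity)
    refine ⟨min (min δ1 δ2) 1, by positivity, ?_⟩
    filter_upwards [hq] with n hn
    rintro ⟨z', k'⟩ - hd
    have hdz : dist z' z0 < min (min δ1 δ2) 1 := lt_of_le_of_lt (le_max_left _ _) hd
    have hdk : dist k' k < min (min δ1 δ2) 1 := lt_of_le_of_lt (le_max_right _ _) hd
    have hz1 : dist z' z0 < δ1 := hdz.trans_le ((min_le_left _ _).trans (min_le_left _ _))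
    have hk2 : dist k' k < δ2 := hdk.trans_le ((min_le_left _ _).trans (min_le_right _ _))
    have hk3 : dist k' k < 1 := hdk.trans_le (min_le_right _ _)
    rw [dist_eq_norm] at hz1 hk2 hk3
    have hk'R : ‖k'‖ ≤ R := by
      calc ‖k'‖ = ‖(k' - k) + k‖ := by ring_nf
        _ ≤ ‖k' - k‖ + ‖k‖ := norm_add_le _ _
        _ ≤ R := by rw [hR]; linarith
    have hkR : ‖k‖ ≤ R := by rw [hR]; linarith
    have hn' : ∀ z ∈ ball z0 ρ, |μn n z| ≤ q := fun z hz => hn z (ball_subset_closedBall hz)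
    have a1 := (hd1 (μn n) (Xn n) (Yn n) (gn n) (hsmu n) (hsls n) hn' k' 1 hk'R (by simp) z' hz1).1
    have a2 := (hd1 (μn n) (Xn n) (Yn n) (gn n) (hsmu n) (hsls n) hn' k' I hk'R (by simp) z' hz1).1
    rw [dapx_FF1, dapx_FF1] at a1
    rw [dapx_FFI, dapx_FFI] at a2
    obtain ⟨b1, b2⟩ := hd2 (μn n) (Xn n) (Yn n) (gn n) (hsmu n) (hsls n) z0 k' k le_rfl hk'R hkR hk2
    simp only
    constructor
    · calc ‖Xn n z' k' - Xn n z0 k‖ = ‖(Xn n z' k' - Xn n z0 k') + (Xn n z0 k' - Xn n z0 k)‖ := by ring_nf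
        _ ≤ ‖Xn n z' k' - Xn n z0 k'‖ + ‖Xn n z0 k' - Xn n z0 k‖ := norm_add_le _ _
        _ ≤ ε / 2 + ε / 2 := add_le_add a1 b1
        _ = ε := by ring
    · calc ‖Yn n z' k' - Yn n z0 k‖ = ‖(Yn n z' k' - Yn n z0 k') + (Yn n z0 k' - Yn n z0 k)‖ := by ring_nf
        _ ≤ ‖Yn n z' k' - Yn n z0 k'‖ + ‖Yn n z0 k' - Yn n z0 k‖ := norm_add_le _ _
        _ ≤ ε / 2 + ε / 2 := add_le_add a2 b2
        _ = ε := by ring
  obtain ⟨φ1, hX, hφ1, hXc, hXt⟩ := h5 (G ×ˢ univ) (fun n p => Xn n p.1 p.2) hWo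
    (fun p _ => ⟨_, Eventually.of_forall fun n => bX n p.1 p.2⟩)
    (by
      intro p hp ε hε
      obtain ⟨δ, hδ, hd⟩ := eq p hp ε hε
      exact ⟨δ, hδ, hd.mono fun n hn p' hp' hdd => (hn p' hp' hdd).1⟩)
  obtain ⟨φ2, hY, hφ2, hYc, hYt⟩ := h5 (G ×ˢ univ) (fun n p => Yn (φ1 n) p.1 p.2) hWo
    (fun p _ => ⟨_, Eventually.of_forall fun n => bY (φ1 n) p.1 p.2⟩)
    (by
      intro p hp ε hε
      obtain ⟨δ, hδ, hd⟩ := eq p hp ε hε
      exact ⟨δ, hδ, (hφ1.tendsto_atTop.eventually hd).mono fun n hn p' hp' hdd => (hn p' hp' hdd).2⟩)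
  have hψ : Tendsto (fun n => φ1 (φ2 n)) atTop atTop := hφ1.tendsto_atTop.comp hφ2.tendsto_atTop
  have tX : ∀ K : Set (ℂ × ℂ), IsCompact K → K ⊆ G ×ˢ univ →
      TendstoUniformlyOn (fun (n : ℕ) (p : ℂ × ℂ) => Xn (φ1 (φ2 n)) p.1 p.2) hX atTop K := by
    intro K hK hKW u hu
    exact hφ2.tendsto_atTop.eventually (hXt K hK hKW u hu)
  have hX0 : ∀ p ∈ G ×ˢ (univ : Set ℂ), hX p ≠ 0 := by
    rintro ⟨z, k⟩ hp h0
    have ht := (tX {(z, k)} isCompact_singleton (by simpa using hp)).tendsto_at (mem_singleton _)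
    have hge : Real.exp (-(C * (1 + ‖k‖) * (1 + ‖z‖))) ≤ ‖hX (z, k)‖ :=
      ge_of_tendsto' ht.norm (fun n => bXl (φ1 (φ2 n)) z k)
    rw [h0, norm_zero] at hge
    exact absurd hge (not_le.mpr (Real.exp_pos _))
  have h1G : (1 : ℂ) ∈ G := hA.ext 1 (by simp; norm_num)
  obtain ⟨Λ, hΛc, hΛe, hΛt⟩ := h6 (G ×ˢ univ) (fun n p => gn (φ1 (φ2 n)) p.1 p.2) hX (1, 0) 0 hWo
    (hA.cG.isPreconnected.prod isPreconnected_univ) ⟨h1G, mem_univ _⟩
    (fun n => ((hsls (φ1 (φ2 n))).cg).continuousOn) hXc hX0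
    (by
      intro K hK hKW
      have := tX K hK hKW
      refine this.congr (Eventually.of_forall fun n p _ => ?_)
      exact ((hsls (φ1 (φ2 n))).eg p.1 p.2).symm)
    (by
      have : (fun n => gn (φ1 (φ2 n)) (1 : ℂ) (0 : ℂ)) = fun _ => 0 := by
        funext n
        exact ((hsls (φ1 (φ2 n))).z0 1).2.2
      simp only [this]
      exact tendsto_const_nhds)
  refine ⟨C, fun n => μn (φ1 (φ2 n)), fun n => Xn (φ1 (φ2 n)), fun n => Yn (φ1 (φ2 n)),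
    fun n => gn (φ1 (φ2 n)), fun z k => hX (z, k), fun z k => hY (z, k), fun z k => Λ (z, k), ?_⟩
  exact
    { adm := hA
      C0 := hC0
      smu := fun n => hsmu _
      sls := fun n => hsls _
      ae := by
        filter_upwards [hae] with z hz
        exact hz.comp hψ
      loc := by
        intro K hK hKG
        obtain ⟨q, hq1, hq⟩ := hloc K hK hKG
        exact ⟨q, hq1, hψ.eventually hq⟩
      cX := hXc
      cY := hYc
      cg := hΛc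
      tX := tX
      tY := hYt
      tg := hΛt }

end

end Cal
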