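import Pool.Agent.Lib.MP_4ea4c7_an.StmH6

/-!
# MP_4ea4c7_an, stage 2: piece d8
-/

open MeasureTheory Complex Metric Set Filter Topology
open scoped ComplexConjugate ENNReal NNReal

namespace Cal

theorem piece_dbd (h1 : S_cim) : S_dbd := by
  intro G k0 C μ μn Xn Yn gn X Y g hA
  have hpt : ∀ z ∈ G, ∀ k : ℂ, ({(z, k)} : Set (ℂ × ℂ)) ⊆ G ×ˢ univ := by
    intro z hz k p hp
    rw [mem_singleton_iff] at hp
    subst hp
    exact ⟨hz, mem_univ _⟩
  have hX : ∀ z ∈ G, ∀ k : ℂ, Tendsto (fun n => Xn n z k) atTop (𝓝 (X z k)) := fun z hz k =>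
    (hA.tX {(z, k)} isCompact_singleton (hpt z hz k)).tendsto_at (mem_singleton (z, k))
  have hY : ∀ z ∈ G, ∀ k : ℂ, Tendsto (fun n => Yn n z k) atTop (𝓝 (Y z k)) := fun z hz k =>
    (hA.tY {(z, k)} isCompact_singleton (hpt z hz k)).tendsto_at (mem_singleton (z, k))
  have hg : ∀ z ∈ G, ∀ k : ℂ, Tendsto (fun n => gn n z k) atTop (𝓝 (g z k)) := fun z hz k =>
    (hA.tg {(z, k)} isCompact_singleton (hpt z hz k)).tendsto_at (mem_singleton (z, k))
  have hF : ∀ z ∈ G, ∀ k c : ℂ, Tendsto (fun n => FF (Xn n) (Yn n) c z k) atTop (𝓝 (FF X Y c z k)) := by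
    intro z hz k c
    unfold FF
    exact (tendsto_const_nhds.mul (hX z hz k)).add (tendsto_const_nhds.mul (hY z hz k))
  have hexp : ∀ z ∈ G, ∀ k, exp (g z k) = X z k := by
    intro z hz k
    have h2 : Tendsto (fun n => exp (gn n z k)) atTop (𝓝 (exp (g z k))) :=
      (Complex.continuous_exp.tendsto _).comp (hg z hz k)
    have h3 : (fun n => exp (gn n z k)) = fun n => Xn n z k := by
      funext n
      exact (hA.sls n).eg z k
    rw [h3] at h2
    exact tendsto_nhds_unique h2 (hX z hz k)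
  have hz0 : ∀ z ∈ G, X z 0 = 1 ∧ Y z 0 = I ∧ g z 0 = 0 := by
    intro z hz
    refine ⟨?_, ?_, ?_⟩
    · refine tendsto_nhds_unique (hX z hz 0) ?_
      have h3 : (fun n => Xn n z 0) = fun _ => (1 : ℂ) := by
        funext n
        exact ((hA.sls n).z0 z).1
      rw [h3]
      exact tendsto_const_nhds
    · refine tendsto_nhds_unique (hY z hz 0) ?_
      have h3 : (fun n => Yn n z 0) = fun _ => I := by
        funext n
        exact ((hA.sls n).z0 z).2.1
      rw [h3]
      exact tendsto_const_nhds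
    · refine tendsto_nhds_unique (hg z hz 0) ?_
      have h3 : (fun n => gn n z 0) = fun _ => (0 : ℂ) := by
        funext n
        exact ((hA.sls n).z0 z).2.2
      rw [h3]
      exact tendsto_const_nhds
  have hbd : ∀ z ∈ G, ∀ k c : ℂ, ‖c‖ = 1 → Real.exp (-(C * (1 + ‖k‖) * (1 + ‖z‖))) ≤ ‖FF X Y c z k‖ ∧
      ‖FF X Y c z k‖ ≤ Real.exp (C * (1 + ‖k‖) * (1 + ‖z‖)) ∧ ‖g z k‖ ≤ C * (1 + ‖k‖) * (1 + ‖z‖) := by
    intro z hz k c hc
    refine ⟨?_, ?_, ?_⟩
    · exact ge_of_tendsto' (hF z hz k c).norm (fun n => ((hA.sls n).bd z k c hc).1)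
    · exact le_of_tendsto' (hF z hz k c).norm (fun n => ((hA.sls n).bd z k c hc).2.1)
    · exact le_of_tendsto' (hg z hz k).norm (fun n => ((hA.sls n).bd z k c hc).2.2)
  refine ⟨hexp, hz0, ?_, hbd, ?_⟩
  · have h1G : (1 : ℂ) ∈ G := hA.adm.ext 1 (by norm_num)
    have hW : IsPreconnected (G ×ˢ (univ : Set ℂ)) := hA.adm.cG.isPreconnected.prod isPreconnected_univ
    have key := h1 (G ×ˢ univ) X Y (1, 0) hW ⟨h1G, mem_univ _⟩ hA.cX hA.cY
      (by
        intro p hp c hc h0
        have h4 := (hbd p.1 hp.1 p.2 c hc).1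
        rw [h0, norm_zero] at h4
        exact absurd h4 (not_le.mpr (Real.exp_pos _)))
      (by
        obtain ⟨hx, hy, -⟩ := hz0 1 h1G
        simp only [hx, hy]
        norm_num)
    intro z hz k
    exact key (z, k) ⟨hz, mem_univ _⟩
  · intro z hz2 k
    have hz : z ∈ G := hA.adm.ext z (by linarith)
    refine ⟨?_, ?_⟩
    · have h5 : Tendsto (fun n => gn n z k - I * k * z) atTop (𝓝 (g z k - I * k * z)) :=
        (hg z hz k).sub tendsto_const_nhds
      exact le_of_tendsto' h5.norm (fun n => ((hA.sls n).asy z hz2 k).1)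
    · intro c hc
      choose d hd1 hd2 using fun n => ((hA.sls n).asy z hz2 k).2 c hc
      have hmem : ∀ n, d n ∈ closedBall (0 : ℂ) (C * ‖k‖ / ‖z‖) := by
        intro n
        rw [mem_closedBall_zero_iff]
        exact hd1 n
      obtain ⟨a, ha, φ, hφ, hlim⟩ := (isCompact_closedBall (0 : ℂ) (C * ‖k‖ / ‖z‖)).tendsto_subseq hmem
      refine ⟨a, by rwa [mem_closedBall_zero_iff] at ha, ?_⟩
      have h6 : Tendsto (fun n => FF (Xn (φ n)) (Yn (φ n)) c z k) atTop (𝓝 (FF X Y c z k)) :=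
        (hF z hz k c).comp hφ.tendsto_atTop
      have h7 : (fun n => FF (Xn (φ n)) (Yn (φ n)) c z k) = fun n => c * exp (I * k * z + d (φ n)) := by
        funext n
        exact hd2 (φ n)
      rw [h7] at h6
      refine tendsto_nhds_unique h6 ?_
      exact tendsto_const_nhds.mul ((Complex.continuous_exp.tendsto _).comp (tendsto_const_nhds.add hlim))

end Cal
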