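import Pool.Agent.Lib.MP_4ea4c7_an.StmH6

/-!
# MP_4ea4c7_an, stage 2: piece d4
-/

open MeasureTheory Complex Metric Set Filter Topology
open scoped ComplexConjugate ENNReal NNReal

namespace Cal

private theorem dcab_ac {C R : ℝ} (hC : 0 ≤ C) {X Y : ℂ → ℂ → ℂ}
    (h : ∀ z k c : ℂ, ‖z‖ = 2 → ‖c‖ = 1 → ∃ d : ℂ, ‖d‖ ≤ C * ‖k‖ / ‖z‖ ∧ FF X Y c z k = c * exp (I * k * z + d))
    {k : ℂ} (hk : ‖k‖ ≤ R) {c : ℂ} (hc : ‖c‖ = 1) : ‖ac X Y c k‖ ≤ 2 * Real.exp (C * R / 2) := by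
  have hb : ∀ z ∈ sphere (0 : ℂ) 2, ‖exp (-(I * k * z)) * FF X Y c z k‖ ≤ Real.exp (C * R / 2) := by
    intro z hz
    have hz2 : ‖z‖ = 2 := by simpa using hz
    obtain ⟨d, hd, e⟩ := h z k c hz2 hc
    have e2 : exp (-(I * k * z)) * FF X Y c z k = c * exp d := by
      rw [e, mul_left_comm, ← Complex.exp_add]
      congr 2
      ring
    rw [e2, norm_mul, hc, one_mul, Complex.norm_exp]
    apply Real.exp_le_exp.mpr
    calc d.re ≤ ‖d‖ := Complex.re_le_norm d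
      _ ≤ C * ‖k‖ / ‖z‖ := hd
      _ ≤ C * R / 2 := by
        rw [hz2]
        gcongr
  have h1 := circleIntegral.norm_integral_le_of_norm_le_const (by norm_num : (0 : ℝ) ≤ 2) hb
  unfold ac
  rw [norm_mul]
  have h2 : ‖(1 / (2 * (Real.pi : ℂ) * I))‖ = 1 / (2 * Real.pi) := by
    rw [norm_div, norm_mul, norm_mul, norm_I, norm_one, Complex.norm_real, Real.norm_eq_abs,
      abs_of_pos Real.pi_pos]
    norm_num
  rw [h2]
  calc 1 / (2 * Real.pi) * ‖∮ z in C(0, 2), exp (-(I * k * z)) * FF X Y c z k‖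
      ≤ 1 / (2 * Real.pi) * (2 * Real.pi * 2 * Real.exp (C * R / 2)) := by gcongr
    _ = 2 * Real.exp (C * R / 2) := by
        field_simp

private theorem dcab_tc {C R : ℝ} (hC : 0 ≤ C) {X Y : ℂ → ℂ → ℂ}
    (h : ∀ z k c : ℂ, ‖z‖ = 2 → ‖c‖ = 1 → ∃ d : ℂ, ‖d‖ ≤ C * ‖k‖ / ‖z‖ ∧ FF X Y c z k = c * exp (I * k * z + d))
    {k : ℂ} (hk : ‖k‖ ≤ R) {c : ℂ} (hc : ‖c‖ = 1) : ‖tc X Y c k‖ ≤ 4 * Real.exp (C * R / 2) := by
  have h1 := dcab_ac hC h hk hc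
  have h2 := dcab_ac hC h hk (c := I * c) (by rw [norm_mul, norm_I, hc, one_mul])
  unfold tc
  calc ‖I * ac X Y c k - ac X Y (I * c) k‖ ≤ ‖I * ac X Y c k‖ + ‖ac X Y (I * c) k‖ := norm_sub_le _ _
    _ = ‖ac X Y c k‖ + ‖ac X Y (I * c) k‖ := by rw [norm_mul, norm_I, one_mul]
    _ ≤ 4 * Real.exp (C * R / 2) := by linarith

theorem piece_dcab : S_dcab := by
  intro C R hC hR
  refine ⟨4 * Real.exp (C * R / 2), fun X Y h k hk => ?_⟩
  have h1 := dcab_tc hC h hk (c := 1) norm_one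
  have h2 := dcab_tc hC h hk (c := I) norm_I
  have hE : 0 < Real.exp (C * R / 2) := Real.exp_pos _
  constructor
  · unfold cA
    rw [norm_div]
    calc ‖tc X Y 1 k - I * tc X Y I k‖ / ‖(2 : ℂ)‖
        ≤ (‖tc X Y 1 k‖ + ‖I * tc X Y I k‖) / ‖(2 : ℂ)‖ := by gcongr; exact norm_sub_le _ _
      _ ≤ (4 * Real.exp (C * R / 2) + 4 * Real.exp (C * R / 2)) / 2 := by
          rw [norm_mul, norm_I, one_mul, Complex.norm_ofNat]
          gcongr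
      _ = 4 * Real.exp (C * R / 2) := by ring
  · unfold cB
    rw [norm_div]
    calc ‖conj (tc X Y 1 k) - I * conj (tc X Y I k)‖ / ‖(2 : ℂ)‖
        ≤ (‖conj (tc X Y 1 k)‖ + ‖I * conj (tc X Y I k)‖) / ‖(2 : ℂ)‖ := by
          gcongr; exact norm_sub_le _ _
      _ ≤ (4 * Real.exp (C * R / 2) + 4 * Real.exp (C * R / 2)) / 2 := by
          rw [norm_mul, norm_I, one_mul, Complex.norm_ofNat, RCLike.norm_conj, RCLike.norm_conj]
          gcongr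
      _ = 4 * Real.exp (C * R / 2) := by ring

end Cal
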