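import Pool.Agent.Lib.MP_4ea4c7_an.StmH6

/-!
# Piece dcl
-/

open MeasureTheory Complex Metric Set Filter Topology
open scoped ComplexConjugate ENNReal NNReal

namespace Cal

noncomputable section

private theorem dcl_core (h1 : S_dwd) (h2 : S_alsc) (h3 : S_weyl) (h5 : S_basic)
    (G : Set ℂ) (k0 C : ℝ) (μ : ℂ → ℝ) (μn : ℕ → ℂ → ℝ) (Xn Yn gn : ℕ → ℂ → ℂ → ℂ)
    (X Y g : ℂ → ℂ → ℂ) (h : Apx G k0 C μ μn Xn Yn gn X Y g) (k c : ℂ) (hc : ‖c‖ = 1) :
    Cl G μ (fun z => FF X Y c z k) := by
  have hG : IsOpen G := h.adm.oG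
  obtain ⟨b1, b2, -⟩ := h5
  -- continuity
  have hcont : ContinuousOn (fun z => FF X Y c z k) G := by
    have g1 : ContinuousOn (fun z : ℂ => ((z, k) : ℂ × ℂ)) G :=
      (continuous_id.prodMk continuous_const).continuousOn
    have g2 : MapsTo (fun z : ℂ => ((z, k) : ℂ × ℂ)) G (G ×ˢ univ) :=
      fun z hz => ⟨hz, mem_univ _⟩
    have gX : ContinuousOn (fun z => X z k) G := h.cX.comp g1 g2
    have gY : ContinuousOn (fun z => Y z k) G := h.cY.comp g1 g2
    exact (continuousOn_const.mul gX).add (continuousOn_const.mul gY)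
  -- derivatives of the approximating functions
  have hex : ∀ n, ∃ A B : ℂ → ℂ, WD univ (fun z => FF (Xn n) (Yn n) c z k) A B ∧
      ∀ᵐ z : ℂ, B z = (μn n z : ℂ) * conj (A z) := by
    intro n
    obtain ⟨⟨A1, B1, w1, e1⟩, A2, B2, w2, e2⟩ := (h.sls n).sol k
    rw [Measure.restrict_univ] at e1 e2
    refine ⟨fun z => (c.re : ℂ) * A1 z + (c.im : ℂ) * A2 z,
      fun z => (c.re : ℂ) * B1 z + (c.im : ℂ) * B2 z,
      b1 _ _ _ _ _ _ _ (b2 _ _ _ _ _ w1) (b2 _ _ _ _ _ w2), ?_⟩
    filter_upwards [e1, e2] with z g1 g2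
    rw [g1, g2, map_add, map_mul, map_mul, conj_ofReal, conj_ofReal]
    ring
  choose An Bn hW hE using hex
  obtain ⟨A, B, wAB, eAB, hbd, hweak⟩ := h1 G k0 C μ μn Xn Yn gn X Y g h k c An Bn hc hW
  refine ⟨hcont, ?_, A, B, wAB, eAB, ?_⟩
  · -- holomorphy
    have hUo : IsOpen {z : ℂ | 3 / 4 < ‖z‖} := isOpen_lt continuous_const continuous_norm
    have hUG : {z : ℂ | 3 / 4 < ‖z‖} ⊆ G := fun z hz => h.adm.ext z (by
      have : 3 / 4 < ‖z‖ := hz
      linarith)
    refine (h3 {z : ℂ | 3 / 4 < ‖z‖} _ hUo (fun K hK hKU => wAB.f2 K hK (hKU.trans hUG)) ?_).2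
      (hcont.mono hUG)
    intro φ hφ
    rw [wAB.hB φ ⟨hφ.1, hφ.2.1, hφ.2.2.trans hUG⟩, neg_eq_zero]
    have g1 : ∀ᵐ z : ℂ, z ∈ G → B z = (μ z : ℂ) * conj (A z) :=
      (ae_restrict_iff' hG.measurableSet).1 eAB
    rw [← integral_zero ℂ ℂ (μ := volume)]
    refine integral_congr_ae ?_
    filter_upwards [g1] with z hz
    by_cases h0 : φ z = 0
    · rw [h0, mul_zero]
    · have h4 : z ∈ {z : ℂ | 3 / 4 < ‖z‖} := hφ.2.2 (subset_tsupport _ h0)
      have h6 : 3 / 4 < ‖z‖ := h4
      rw [hz (hUG h4), h.adm.supp z h6.le]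
      simp
  · -- energy
    intro R
    set f : ℂ → ℝ := fun z => ‖A z‖ ^ 2 - ‖B z‖ ^ 2 with hf
    obtain ⟨T, hTc, hTG, hTU, hTm⟩ := hG.exists_iUnion_isClosed
    set K : ℕ → Set ℂ := fun j => T j ∩ closedBall 0 R with hK
    have hKc : ∀ j, IsCompact (K j) := fun j =>
      (isCompact_closedBall (0 : ℂ) R).inter_left (hTc j)
    have hKG : ∀ j, K j ⊆ G := fun j => inter_subset_left.trans (hTG j)
    have hKS : ∀ j, K j ⊆ G ∩ closedBall 0 R := fun j z hz => ⟨hTG j hz.1, hz.2⟩
    have hcov : AECover (volume.restrict (G ∩ closedBall (0 : ℂ) R)) atTop K := by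
      refine ⟨?_, fun j => (hKc j).measurableSet⟩
      refine (ae_restrict_iff' (hG.measurableSet.inter measurableSet_closedBall)).2
        (Eventually.of_forall fun z hz => ?_)
      have h4 : z ∈ ⋃ n, T n := by rw [hTU]; exact hz.1
      obtain ⟨N, hN⟩ := mem_iUnion.1 h4
      filter_upwards [eventually_ge_atTop N] with n hn
      exact ⟨hTm hn hN, hz.2⟩
    have hmu2 : ∀ z, 0 ≤ 1 - μ z ^ 2 := fun z => by
      have g1 := h.adm.lo z
      have g2 := h.adm.hi z
      have g3 := h.adm.k01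
      nlinarith
    have hfe : ∀ᵐ z ∂(volume.restrict G), f z = (1 - μ z ^ 2) * ‖A z‖ ^ 2 := by
      filter_upwards [eAB] with z hz
      simp only [hf]
      rw [hz, norm_mul, RCLike.norm_conj, norm_real, Real.norm_eq_abs, mul_pow, sq_abs]
      ring
    set r : ℝ := max (R + 1) 1 with hr
    have hr1 : 1 ≤ r := le_max_right _ _
    have hRr : R < r := lt_of_lt_of_le (by linarith) (le_max_left _ _)
    set Q : ℝ := Real.exp (C * (1 + ‖k‖) * (1 + r)) with hQ
    have hQ0 : 0 < Q := Real.exp_pos _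
    set E : ℝ := Q ^ 2 * (Real.pi * ‖k‖ ^ 2 * r ^ 2) with hEd
    have hKb : ∀ j, K j ⊆ ball 0 r := fun j z hz => by
      have h4 := hz.2
      rw [mem_closedBall] at h4
      rw [mem_ball]
      linarith
    have hint : ∀ j, IntegrableOn f (K j) volume := fun j => by
      have g1 := (wAB.A2 (K j) (hKc j) (hKG j)).integrable_norm_pow two_ne_zero
      have g2 := (wAB.B2 (K j) (hKc j) (hKG j)).integrable_norm_pow two_ne_zero
      exact g1.sub g2
    have key : ∀ j, ∫ z in K j, f z ≤ E := by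
      intro j
      have hfK : ∀ᵐ z ∂(volume.restrict (K j)), f z = (1 - μ z ^ 2) * ‖A z‖ ^ 2 :=
        ae_restrict_of_ae_restrict_of_subset (hKG j) hfe
      have hs : ∀ z, Real.sqrt (1 - μ z ^ 2) ^ 2 = 1 - μ z ^ 2 := fun z => Real.sq_sqrt (hmu2 z)
      have hmun : ∀ n z, 0 ≤ 1 - μn n z ^ 2 := fun n z => by
        have g1 := (h.smu n).lo z
        have g2 := (h.smu n).hi z
        have g3 := h.adm.k01
        nlinarith
      have hsn : ∀ n z, Real.sqrt (1 - μn n z ^ 2) ^ 2 = 1 - μn n z ^ 2 :=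
        fun n z => Real.sq_sqrt (hmun n z)
      have hA2 : ∀ n, MemLp (An n) 2 (volume.restrict (K j)) := fun n =>
        (hW n).A2 (K j) (hKc j) (subset_univ _)
      obtain ⟨M, hM⟩ := hbd (K j) (hKc j) (hKG j)
      have hmain := h2 (K j) A An (fun z => Real.sqrt (1 - μ z ^ 2))
        (fun n z => Real.sqrt (1 - μn n z ^ 2)) M E 1 (hKc j) (wAB.A2 (K j) (hKc j) (hKG j)) hA2
        ((measurable_const.sub (h.adm.meas.pow_const 2)).sqrt)
        (fun n => (continuous_const.sub ((h.smu n).smooth.continuous.pow 2)).sqrt.measurable)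
        (fun n z _ => by
          rw [abs_of_nonneg (Real.sqrt_nonneg _)]
          refine Real.sqrt_le_one.2 ?_ |>.trans le_rfl
          nlinarith [sq_nonneg (μn n z)])
        ?_ (hM.mono fun n hn => hn.1)
        (fun φ hφ => (hweak (K j) (hKc j) (hKG j) φ hφ).1) (Eventually.of_forall fun n => ?_)
      · rw [integral_congr_ae hfK]
        simp_rw [hs] at hmain
        exact hmain
      · refine ae_restrict_of_ae ?_
        filter_upwards [h.ae] with z hz
        exact (Real.continuous_sqrt.tendsto _).comp ((hz.pow 2).const_sub 1)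
      · -- the energy bound for the approximating functions
        simp_rw [hsn n]
        obtain ⟨hi, hle⟩ := (h.sls n).en r k c (An n) (Bn n) hr1 hc (hW n)
        have heq : ∀ᵐ z : ℂ, (‖An n z‖ ^ 2 - ‖Bn n z‖ ^ 2) = (1 - μn n z ^ 2) * ‖An n z‖ ^ 2 := by
          filter_upwards [hE n] with z hz
          rw [hz, norm_mul, RCLike.norm_conj, norm_real, Real.norm_eq_abs, mul_pow, sq_abs]
          ring
        have hpos : ∀ᵐ z : ℂ, 0 ≤ (‖An n z‖ ^ 2 - ‖Bn n z‖ ^ 2) /
            ‖FF (Xn n) (Yn n) c z k‖ ^ 2 := by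
          filter_upwards [heq] with z hz
          rw [hz]
          exact div_nonneg (mul_nonneg (hmun n z) (by positivity)) (by positivity)
        have step1 : ∫ z in K j, (1 - μn n z ^ 2) * ‖An n z‖ ^ 2 ≤
            ∫ z in K j, Q ^ 2 * ((‖An n z‖ ^ 2 - ‖Bn n z‖ ^ 2) /
              ‖FF (Xn n) (Yn n) c z k‖ ^ 2) := by
          refine integral_mono_of_nonneg
            (Eventually.of_forall fun z => mul_nonneg (hmun n z) (by positivity))
            ((hi.mono_set (hKb j)).const_mul _) ?_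
          refine (ae_restrict_iff' (hKc j).measurableSet).2 ?_
          filter_upwards [heq] with z hz hzK
          rw [hz]
          obtain ⟨g1, g2, -⟩ := (h.sls n).bd z k c hc
          have g3 : 0 < ‖FF (Xn n) (Yn n) c z k‖ := lt_of_lt_of_le (Real.exp_pos _) g1
          have hzr : ‖z‖ < r := by
            have := hKb j hzK
            rwa [mem_ball, dist_zero_right] at this
          have g4 : ‖FF (Xn n) (Yn n) c z k‖ ≤ Q := by
            refine g2.trans (Real.exp_le_exp.2 ?_)
            have := h.C0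
            have hk := norm_nonneg k
            refine mul_le_mul_of_nonneg_left (by linarith) (by positivity)
          have g5 : ‖FF (Xn n) (Yn n) c z k‖ ^ 2 ≤ Q ^ 2 := pow_le_pow_left₀ g3.le g4 2
          have g6 : 0 ≤ (1 - μn n z ^ 2) * ‖An n z‖ ^ 2 := mul_nonneg (hmun n z) (by positivity)
          have g7 : 0 < ‖FF (Xn n) (Yn n) c z k‖ ^ 2 := by positivity
          show (1 - μn n z ^ 2) * ‖An n z‖ ^ 2 ≤ _
          rw [← mul_div_assoc, le_div_iff₀ g7]
          nlinarith [mul_le_mul_of_nonneg_left g5 g6]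
        refine step1.trans ?_
        rw [integral_const_mul]
        refine mul_le_mul_of_nonneg_left ?_ (by positivity)
        exact (setIntegral_mono_set hi (ae_restrict_of_ae hpos)
          (hKb j).eventuallyLE).trans hle
    refine AECover.integrable_of_integral_bounded_of_nonneg_ae hcov E ?_ ?_ ?_
    · intro j
      unfold IntegrableOn
      rw [Measure.restrict_restrict_of_subset (hKS j)]
      exact hint j
    · have g1 := ae_restrict_of_ae_restrict_of_subset
        (inter_subset_left : G ∩ closedBall (0 : ℂ) R ⊆ G) hfe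
      filter_upwards [g1] with z hz
      show 0 ≤ f z
      rw [hz]
      exact mul_nonneg (hmu2 z) (by positivity)
    · refine Eventually.of_forall fun j => ?_
      rw [Measure.restrict_restrict_of_subset (hKS j)]
      exact key j

theorem piece_dcl (h1 : S_dwd) (h2 : S_alsc) (h3 : S_weyl) (_h4 : S_dbd) (h5 : S_basic)
    (_h6 : S_wuniq) : S_dcl := by
  intro G k0 C μ μn Xn Yn gn X Y g h k
  constructor
  · have := dcl_core h1 h2 h3 h5 G k0 C μ μn Xn Yn gn X Y g h k 1 (by simp)
    have e : (fun z => FF X Y 1 z k) = fun z => X z k := by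
      funext z
      simp [FF]
    rwa [e] at this
  · have := dcl_core h1 h2 h3 h5 G k0 C μ μn Xn Yn gn X Y g h k I (by simp)
    have e : (fun z => FF X Y I z k) = fun z => Y z k := by
      funext z
      simp [FF]
    rwa [e] at this

end

end Cal
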