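import Pool.Agent.Lib.MP_4ea4c7_an.StmH6

/-!
# MP_4ea4c7_an, stage 2, piece [d11]: the degree bound passes to the limit
-/

open MeasureTheory Complex Metric Set Filter Topology
open scoped ComplexConjugate ENNReal NNReal

namespace Cal

noncomputable section

private lemma ddeg_FF_one (X Y : ℂ → ℂ → ℂ) (z k : ℂ) : FF X Y 1 z k = X z k := by
  simp [FF]

/-- division by a function bounded below, in `L²(K)` -/
private lemma ddeg_bound (K : Set ℂ) (hK : IsCompact K) (a e : ℂ → ℂ) (m M : ℝ) (hm : 0 < m)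
    (he : ∀ z ∈ K, m ≤ ‖e z‖) (ha : eLpNorm a 2 (volume.restrict K) ≤ ENNReal.ofReal M) :
    eLpNorm (fun z => a z / e z) 2 (volume.restrict K) ≤ ENNReal.ofReal (m⁻¹ * M) := by
  have h1 : ∀ᵐ z ∂(volume.restrict K), ‖a z / e z‖ ≤ m⁻¹ * ‖a z‖ := by
    refine (ae_restrict_iff' hK.measurableSet).2 (Eventually.of_forall fun z hz => ?_)
    rw [norm_div, div_eq_inv_mul]
    gcongr
    exact he z hz
  have h2 := eLpNorm_le_mul_eLpNorm_of_ae_le_mul h1 2
  calc eLpNorm (fun z => a z / e z) 2 (volume.restrict K)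
      ≤ ENNReal.ofReal m⁻¹ * eLpNorm a 2 (volume.restrict K) := h2
    _ ≤ ENNReal.ofReal m⁻¹ * ENNReal.ofReal M := by gcongr
    _ = ENNReal.ofReal (m⁻¹ * M) := by
        rw [ENNReal.ofReal_mul (inv_nonneg.2 hm.le)]

theorem piece_ddeg (h1 : S_bwlog) (h2 : S_awlim) (h3 : S_bdeglim) (h4 : S_dwd) (h5 : S_dbd)
    (h6 : S_wuniq) (h7 : S_basic) : S_ddeg := by
  intro G k0 C μ μn Xn Yn gn X Y g hA k hk A B hWD η ψ hη hη01 hψ hψ0
  have oG : IsOpen G := hA.adm.oG
  -- derivatives of `X_n`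
  have hex : ∀ n, ∃ A0 B0 : ℂ → ℂ, WD univ (fun z => FF (Xn n) (Yn n) 1 z k) A0 B0 := by
    intro n
    obtain ⟨A0, B0, h, -⟩ := ((hA.sls n).sol k).1
    refine ⟨A0, B0, ?_⟩
    have : (fun z => FF (Xn n) (Yn n) 1 z k) = fun z => Xn n z k := by
      funext z; exact ddeg_FF_one _ _ z k
    rw [this]; exact h
  choose A0 B0 hW0 using hex
  obtain ⟨-, -, -, -, hbd, -⟩ := h4 G k0 C μ μn Xn Yn gn X Y g hA k 1 A0 B0 (by simp) hW0
  -- derivatives of `g_n`
  have hexp : ∀ n z, exp (gn n z k) = FF (Xn n) (Yn n) 1 z k := by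
    intro n z
    rw [ddeg_FF_one]
    exact (hA.sls n).eg z k
  have cgn : ∀ n, Continuous (fun z => gn n z k) := by
    intro n
    exact (hA.sls n).cg.comp (continuous_id.prodMk continuous_const)
  have hW1 : ∀ n, WD univ (fun z => gn n z k) (fun z => A0 n z / exp (gn n z k)) (fun z => B0 n z / exp (gn n z k)) := by
    intro n
    refine h1 univ (fun z => gn n z k) (A0 n) (B0 n) isOpen_univ (cgn n).continuousOn ?_
    have : (fun z => exp (gn n z k)) = fun z => FF (Xn n) (Yn n) 1 z k := by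
      funext z; exact hexp n z
    rw [this]; exact hW0 n
  have hWG : ∀ n, WD G (fun z => gn n z k) (fun z => A0 n z / exp (gn n z k)) (fun z => B0 n z / exp (gn n z k)) :=
    fun n => h7.2.2.2.2.1 univ G _ _ _ (subset_univ G) (hW1 n)
  -- local bounds
  have hb1 : ∀ K : Set ℂ, IsCompact K → K ⊆ G → ∃ M : ℝ, ∀ᶠ n in atTop,
      eLpNorm (fun z => A0 n z / exp (gn n z k)) 2 (volume.restrict K) ≤ ENNReal.ofReal M ∧
      eLpNorm (fun z => B0 n z / exp (gn n z k)) 2 (volume.restrict K) ≤ ENNReal.ofReal M := by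
    intro K hK hKG
    obtain ⟨M, hM⟩ := hbd K hK hKG
    obtain ⟨R, hR⟩ := hK.isBounded.subset_closedBall (0 : ℂ)
    refine ⟨(Real.exp (-(C * (1 + ‖k‖) * (1 + R))))⁻¹ * M, hM.mono fun n hn => ?_⟩
    have hlow : ∀ z ∈ K, Real.exp (-(C * (1 + ‖k‖) * (1 + R))) ≤ ‖exp (gn n z k)‖ := by
      intro z hz
      rw [hexp n z]
      refine le_trans ?_ ((hA.sls n).bd z k 1 (by simp)).1
      have hzR : ‖z‖ ≤ R := by simpa using hR hz
      have hC := hA.C0
      refine Real.exp_le_exp.2 (neg_le_neg ?_)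
      gcongr
    exact ⟨ddeg_bound K hK _ _ _ _ (Real.exp_pos _) hlow hn.1, ddeg_bound K hK _ _ _ _ (Real.exp_pos _) hlow hn.2⟩
  -- uniform convergence
  have hunif : ∀ K : Set ℂ, IsCompact K → K ⊆ G → TendstoUniformlyOn (fun n z => gn n z k) (fun z => g z k) atTop K := by
    intro K hK hKG
    have h := hA.tg (K ×ˢ {k}) (hK.prod isCompact_singleton) (Set.prod_mono hKG (subset_univ _))
    have h' := h.comp (fun z : ℂ => ((z, k) : ℂ × ℂ))
    refine h'.mono ?_
    intro z hz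
    exact ⟨hz, rfl⟩
  obtain ⟨cg, A', B', hW', hweak⟩ := h2 G (fun z => g z k) (fun n z => gn n z k)
    (fun n z => A0 n z / exp (gn n z k)) (fun n z => B0 n z / exp (gn n z k)) oG hWG
    (fun n => (cgn n).continuousOn) hb1 hunif
  obtain ⟨hAA, hBB⟩ := h6 G (fun z => g z k) A B (fun z => g z k) A' B' oG hWD hW' (ae_eq_refl _)
  have hlim := h3 G (fun z => g z k) A' B' (fun n z => gn n z k)
    (fun n z => A0 n z / exp (gn n z k)) (fun n z => B0 n z / exp (gn n z k)) η ψ oG hWG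
    (fun n => (cgn n).continuousOn) hW' cg hb1 hunif hweak hη hψ
  have heq : ∫ z, η z * ψ (g z k) * (‖A z‖ ^ 2 - ‖B z‖ ^ 2) = ∫ z, η z * ψ (g z k) * (‖A' z‖ ^ 2 - ‖B' z‖ ^ 2) := by
    refine integral_congr_ae ?_
    have ha := (ae_restrict_iff' oG.measurableSet).1 hAA
    have hb := (ae_restrict_iff' oG.measurableSet).1 hBB
    filter_upwards [ha, hb] with z hza hzb
    by_cases hz : z ∈ G
    · simp only [hza hz, hzb hz]
    · have h0 : η z = 0 := image_eq_zero_of_notMem_tsupport (fun h => hz (hη.2.2 h))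
      simp [h0]
  rw [heq]
  refine le_of_tendsto' hlim fun n => ?_
  exact (hA.sls n).deg k hk _ _ (hW1 n) η ψ ⟨hη.1, hη.2.1, subset_univ _⟩ hη01 hψ hψ0

end

end Cal
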