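import Pool.Agent.Lib.MP_4ea4c7_an.StmH6

/-!
# MP_4ea4c7_an, stage 2, [d9]: local energy bound in the limit
-/

open MeasureTheory Complex Metric Set Filter Topology
open scoped ComplexConjugate ENNReal NNReal

namespace Cal

theorem den_tend {G : Set ℂ} {k0 C : ℝ} {μ : ℂ → ℝ} {μn : ℕ → ℂ → ℝ}
    {Xn Yn gn : ℕ → ℂ → ℂ → ℂ} {X Y g : ℂ → ℂ → ℂ} (hA : Apx G k0 C μ μn Xn Yn gn X Y g)
    {z : ℂ} (hz : z ∈ G) (k c : ℂ) :
    Tendsto (fun n => FF (Xn n) (Yn n) c z k) atTop (𝓝 (FF X Y c z k)) := by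
  have hs : ({(z, k)} : Set (ℂ × ℂ)) ⊆ G ×ˢ univ := by
    intro p hp
    rw [mem_singleton_iff] at hp
    rw [hp]
    exact ⟨hz, mem_univ _⟩
  have h1 : Tendsto (fun n => Xn n z k) atTop (𝓝 (X z k)) :=
    (hA.tX {(z, k)} isCompact_singleton hs).tendsto_at (mem_singleton _)
  have h2 : Tendsto (fun n => Yn n z k) atTop (𝓝 (Y z k)) :=
    (hA.tY {(z, k)} isCompact_singleton hs).tendsto_at (mem_singleton _)
  unfold FF
  exact (h1.const_mul _).add (h2.const_mul _)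

theorem den_lower {G : Set ℂ} {k0 C : ℝ} {μ : ℂ → ℝ} {μn : ℕ → ℂ → ℝ}
    {Xn Yn gn : ℕ → ℂ → ℂ → ℂ} {X Y g : ℂ → ℂ → ℂ} (hA : Apx G k0 C μ μn Xn Yn gn X Y g)
    {z : ℂ} (hz : z ∈ G) (k c : ℂ) (hc : ‖c‖ = 1) :
    Real.exp (-(C * (1 + ‖k‖) * (1 + ‖z‖))) ≤ ‖FF X Y c z k‖ :=
  ge_of_tendsto (den_tend hA hz k c).norm
    (Eventually.of_forall (fun n => ((hA.sls n).bd z k c hc).1))

theorem piece_den (h1 : S_dwd) (h2 : S_alsc) (h3 : S_wuniq) (h4 : S_basic) : S_den := by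
  intro G k0 C μ μn Xn Yn gn X Y g hA K hK hKG
  obtain ⟨q0, hq0, hloc⟩ := hA.loc K hK hKG
  obtain ⟨r0, hr0⟩ := hK.isBounded.subset_ball (0 : ℂ)
  -- normalisation of the constants
  set r : ℝ := max r0 1 with hr
  have hr1 : 1 ≤ r := le_max_right _ _
  have hKr : K ⊆ ball 0 r := hr0.trans (ball_subset_ball (le_max_left _ _))
  set q : ℝ := max q0 0 with hq
  have hq1 : q < 1 := max_lt hq0 one_pos
  have hq00 : 0 ≤ q := le_max_right _ _
  have hden : 0 < 1 - q ^ 2 := by nlinarith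
  have hKm : MeasurableSet K := hK.measurableSet
  refine ⟨Real.pi * r ^ 2 / (1 - q ^ 2), ?_⟩
  intro k c A B hc hW
  -- the approximating derivatives
  have hAB : ∀ n, ∃ A' B' : ℂ → ℂ, WD univ (fun z => FF (Xn n) (Yn n) c z k) A' B' ∧
      ∀ᵐ z, B' z = (μn n z : ℂ) * conj (A' z) := by
    intro n
    obtain ⟨⟨A1, B1, hw1, he1⟩, ⟨A2, B2, hw2, he2⟩⟩ := (hA.sls n).sol k
    refine ⟨fun z => (c.re : ℂ) * A1 z + (c.im : ℂ) * A2 z,
      fun z => (c.re : ℂ) * B1 z + (c.im : ℂ) * B2 z, ?_, ?_⟩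
    · exact h4.1 univ _ _ _ _ _ _ (h4.2.1 univ _ _ _ (c.re : ℂ) hw1)
        (h4.2.1 univ _ _ _ (c.im : ℂ) hw2)
    · rw [Measure.restrict_univ] at he1 he2
      filter_upwards [he1, he2] with z hz1 hz2
      rw [hz1, hz2]
      simp only [map_add, map_mul, Complex.conj_ofReal]
      ring
  choose An Bn hWn hBn using hAB
  obtain ⟨A', B', hW', _, hbdd, hweak⟩ := h1 G k0 C μ μn Xn Yn gn X Y g hA k c An Bn hc hWn
  obtain ⟨M1, hM1⟩ := hbdd K hK hKG
  have huniq : A =ᵐ[volume.restrict G] A' :=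
    (h3 G _ A B _ A' B' hA.adm.oG hW hW' (Filter.EventuallyEq.refl _ _)).1
  have huK : A =ᵐ[volume.restrict K] A' :=
    ae_mono (Measure.restrict_mono hKG le_rfl) huniq
  -- the weights
  have hFc : ContinuousOn (fun z => FF X Y c z k) G := by
    have hp : ContinuousOn (fun z : ℂ => ((z, k) : ℂ × ℂ)) G :=
      (continuous_id.prodMk continuous_const).continuousOn
    have hm : MapsTo (fun z : ℂ => ((z, k) : ℂ × ℂ)) G (G ×ˢ univ) :=
      fun z hz => ⟨hz, mem_univ _⟩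
    have hX : ContinuousOn (fun z => X z k) G := hA.cX.comp hp hm
    have hY : ContinuousOn (fun z => Y z k) G := hA.cY.comp hp hm
    unfold FF
    exact (continuousOn_const.mul hX).add (continuousOn_const.mul hY)
  have hFpos : ∀ z ∈ G, 0 < ‖FF X Y c z k‖ := fun z hz =>
    lt_of_lt_of_le (Real.exp_pos _) (den_lower hA hz k c hc)
  have hFnpos : ∀ n z, 0 < ‖FF (Xn n) (Yn n) c z k‖ := fun n z =>
    lt_of_lt_of_le (Real.exp_pos _) ((hA.sls n).bd z k c hc).1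
  have hFnc : ∀ n, Continuous (fun z => FF (Xn n) (Yn n) c z k) := by
    intro n
    have hp : Continuous (fun z : ℂ => ((z, k) : ℂ × ℂ)) := continuous_id.prodMk continuous_const
    have hX : Continuous (fun z => Xn n z k) := (hA.sls n).cX.comp hp
    have hY : Continuous (fun z => Yn n z k) := (hA.sls n).cY.comp hp
    unfold FF
    exact (continuous_const.mul hX).add (continuous_const.mul hY)
  set m : ℂ → ℝ := K.indicator (fun z => ‖FF X Y c z k‖⁻¹) with hm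
  set mn : ℕ → ℂ → ℝ := fun n z => ‖FF (Xn n) (Yn n) c z k‖⁻¹ with hmn
  have hmc : ContinuousOn (fun z => ‖FF X Y c z k‖⁻¹) K :=
    (hFc.mono hKG).norm.inv₀ (fun z hz => (hFpos z (hKG hz)).ne')
  have hmmeas : Measurable m := by
    classical
    rw [hm, ← Set.piecewise_eq_indicator]
    exact hmc.measurable_piecewise continuousOn_const hKm
  have hmnmeas : ∀ n, Measurable (mn n) := fun n =>
    ((hFnc n).norm.inv₀ (fun z => (hFnpos n z).ne')).measurable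
  set Cb : ℝ := Real.exp (C * (1 + ‖k‖) * (1 + r)) with hCb
  have hexp : ∀ z ∈ K, (Real.exp (-(C * (1 + ‖k‖) * (1 + ‖z‖))))⁻¹ ≤ Cb := by
    intro z hz
    rw [← Real.exp_neg, neg_neg, hCb]
    apply Real.exp_le_exp.mpr
    have hzr : ‖z‖ < r := by simpa using hKr hz
    have h5 : 0 ≤ C * (1 + ‖k‖) := mul_nonneg hA.C0 (by positivity)
    exact mul_le_mul_of_nonneg_left (by linarith) h5
  have hmnb : ∀ n, ∀ z ∈ K, |mn n z| ≤ Cb := by
    intro n z hz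
    simp only [hmn]
    rw [abs_of_pos (inv_pos.mpr (hFnpos n z))]
    exact (inv_anti₀ (Real.exp_pos _) ((hA.sls n).bd z k c hc).1).trans (hexp z hz)
  have hmb : ∀ z ∈ K, m z = ‖FF X Y c z k‖⁻¹ := fun z hz => indicator_of_mem hz _
  have hmlim : ∀ᵐ z ∂(volume.restrict K), Tendsto (fun n => mn n z) atTop (𝓝 (m z)) := by
    filter_upwards [ae_restrict_mem hKm] with z hz
    rw [hmb z hz]
    exact (den_tend hA (hKG hz) k c).norm.inv₀ (hFpos z (hKG hz)).ne'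
  -- the energies
  have hE : ∀ᶠ n in atTop, ∫ z in K, mn n z ^ 2 * ‖An n z‖ ^ 2 ≤
      Real.pi * r ^ 2 / (1 - q ^ 2) * ‖k‖ ^ 2 := by
    filter_upwards [hloc] with n hn
    obtain ⟨hi, hle⟩ := (hA.sls n).en r k c (An n) (Bn n) hr1 hc (hWn n)
    have hμ1 : ∀ z, μn n z ^ 2 ≤ 1 := by
      intro z
      have ha := (hA.smu n).lo z
      have hb := (hA.smu n).hi z
      have hk01 := hA.adm.k01
      nlinarith
    have hB2 : ∀ᵐ z, ‖Bn n z‖ ^ 2 = μn n z ^ 2 * ‖An n z‖ ^ 2 := by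
      filter_upwards [hBn n] with z hz
      rw [hz, norm_mul, Complex.norm_conj, Complex.norm_real, Real.norm_eq_abs, mul_pow, sq_abs]
    have hnn : ∀ᵐ z ∂(volume.restrict (ball (0 : ℂ) r)),
        0 ≤ (‖An n z‖ ^ 2 - ‖Bn n z‖ ^ 2) / ‖FF (Xn n) (Yn n) c z k‖ ^ 2 := by
      filter_upwards [ae_restrict_of_ae hB2] with z hz
      rw [hz]
      refine div_nonneg ?_ (by positivity)
      have := hμ1 z
      nlinarith [sq_nonneg ‖An n z‖]
    have hK1 : ∫ z in K, (‖An n z‖ ^ 2 - ‖Bn n z‖ ^ 2) / ‖FF (Xn n) (Yn n) c z k‖ ^ 2 ≤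
        Real.pi * ‖k‖ ^ 2 * r ^ 2 :=
      (setIntegral_mono_set hi hnn (ae_of_all _ hKr)).trans hle
    have hiK : IntegrableOn (fun z => (‖An n z‖ ^ 2 - ‖Bn n z‖ ^ 2) /
        ‖FF (Xn n) (Yn n) c z k‖ ^ 2) K volume := hi.mono_set hKr
    have hpt : ∀ᵐ z ∂(volume.restrict K), mn n z ^ 2 * ‖An n z‖ ^ 2 ≤
        (1 - q ^ 2)⁻¹ * ((‖An n z‖ ^ 2 - ‖Bn n z‖ ^ 2) / ‖FF (Xn n) (Yn n) c z k‖ ^ 2) := by
      filter_upwards [ae_restrict_of_ae hB2, ae_restrict_mem hKm] with z hz hzK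
      have hqz : μn n z ^ 2 ≤ q ^ 2 := by
        have h6 : |μn n z| ≤ q := (hn z hzK).trans (le_max_left _ _)
        have h7 := pow_le_pow_left₀ (abs_nonneg _) h6 2
        rwa [sq_abs] at h7
      rw [hz]
      simp only [hmn]
      have hF := hFnpos n z
      rw [inv_mul_eq_div, le_div_iff₀ hden, inv_pow, inv_mul_eq_div, div_mul_eq_mul_div]
      apply div_le_div_of_nonneg_right _ (by positivity)
      nlinarith [sq_nonneg ‖An n z‖]
    calc ∫ z in K, mn n z ^ 2 * ‖An n z‖ ^ 2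
        ≤ ∫ z in K, (1 - q ^ 2)⁻¹ * ((‖An n z‖ ^ 2 - ‖Bn n z‖ ^ 2) /
          ‖FF (Xn n) (Yn n) c z k‖ ^ 2) :=
          integral_mono_of_nonneg (ae_of_all _ (fun z => by positivity)) (hiK.const_mul _) hpt
      _ = (1 - q ^ 2)⁻¹ * ∫ z in K, (‖An n z‖ ^ 2 - ‖Bn n z‖ ^ 2) /
          ‖FF (Xn n) (Yn n) c z k‖ ^ 2 := integral_const_mul _ _
      _ ≤ (1 - q ^ 2)⁻¹ * (Real.pi * ‖k‖ ^ 2 * r ^ 2) :=
          mul_le_mul_of_nonneg_left hK1 (inv_nonneg.mpr hden.le)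
      _ = Real.pi * r ^ 2 / (1 - q ^ 2) * ‖k‖ ^ 2 := by
          rw [inv_mul_eq_div]; ring
  have hfin := h2 K A' An m mn M1 (Real.pi * r ^ 2 / (1 - q ^ 2) * ‖k‖ ^ 2) Cb hK
    (hW'.A2 K hK hKG) (fun n => (hWn n).A2 K hK (subset_univ _)) hmmeas hmnmeas hmnb hmlim
    (hM1.mono (fun n hn => hn.1)) (fun φ hφ => (hweak K hK hKG φ hφ).1) hE
  have hA2 : MemLp A 2 (volume.restrict K) := hW.A2 K hK hKG
  have hsq : Integrable (fun z => ‖A z‖ ^ 2) (volume.restrict K) := by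
    have := hA2.norm.integrable_sq
    exact this
  have heqpt : ∀ z ∈ K, ‖A z‖ ^ 2 / ‖FF X Y c z k‖ ^ 2 = m z ^ 2 * ‖A z‖ ^ 2 := by
    intro z hz
    rw [hmb z hz, inv_pow, inv_mul_eq_div]
  have hmC : ∀ z ∈ K, m z ≤ Cb := by
    intro z hz
    rw [hmb z hz]
    exact (inv_anti₀ (Real.exp_pos _) (den_lower hA (hKG hz) k c hc)).trans (hexp z hz)
  have hm0 : ∀ z ∈ K, 0 ≤ m z := by
    intro z hz
    rw [hmb z hz]
    positivity
  constructor
  · have hi1 : Integrable (fun z => m z ^ 2 * ‖A z‖ ^ 2) (volume.restrict K) := by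
      refine (hsq.const_mul (Cb ^ 2)).mono'
        ((hmmeas.pow_const 2).aestronglyMeasurable.mul hsq.aestronglyMeasurable) ?_
      filter_upwards [ae_restrict_mem hKm] with z hz
      rw [Real.norm_eq_abs, abs_of_nonneg (by positivity)]
      exact mul_le_mul_of_nonneg_right (pow_le_pow_left₀ (hm0 z hz) (hmC z hz) 2) (sq_nonneg _)
    refine Integrable.congr hi1 ?_
    filter_upwards [ae_restrict_mem hKm] with z hz
    exact (heqpt z hz).symm
  · have he : ∫ z in K, ‖A z‖ ^ 2 / ‖FF X Y c z k‖ ^ 2 = ∫ z in K, m z ^ 2 * ‖A' z‖ ^ 2 := by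
      apply integral_congr_ae
      filter_upwards [ae_restrict_mem hKm, huK] with z hz hzA
      have h9 := heqpt z hz
      rw [hzA] at h9
      simp only [hzA]
      exact h9
    rw [he]
    exact hfin

end Cal
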