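import Pool.Agent.Lib.MP_4ea4c7_an.StmH6

/-! [d5] Equicontinuity in `k`. -/

open MeasureTheory Complex Metric Set Filter Topology
open scoped ComplexConjugate ENNReal NNReal

namespace Cal

private lemma dk_exp0 : exp (-(I * ((0 : ℝ) : ℂ))) = 1 := by simp

private lemma dk_expp : exp (-(I * ((Real.pi / 2 : ℝ) : ℂ))) = -I := by
  have h : -(I * ((Real.pi / 2 : ℝ) : ℂ)) = (-(Real.pi / 2 : ℝ) : ℂ) * I := by
    push_cast; ring
  rw [h, exp_mul_I]
  have h1 : (-(((Real.pi / 2 : ℝ)) : ℂ)) = (((-(Real.pi / 2) : ℝ)) : ℂ) := by push_cast; ring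
  rw [h1, ← ofReal_cos, ← ofReal_sin]
  simp [Real.cos_neg, Real.sin_neg]

private lemma dk_dbexp (L : ℂ → ℂ) (hL : ContDiff ℝ 1 L) (k : ℂ) :
    db (fun k => exp (L k)) k = exp (L k) * db L k := by
  have hd : DifferentiableAt ℝ L k := (hL.differentiable (by norm_num)).differentiableAt
  have h1 : HasFDerivAt (fun k => exp (L k)) (exp (L k) • fderiv ℝ L k) k := hd.hasFDerivAt.cexp
  unfold db
  rw [h1.fderiv]
  simp only [FunLike.coe_smul, Pi.smul_apply, smul_eq_mul]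
  ring

private lemma dk_unit (x : ℝ) : ‖exp (-(2 * I * (x : ℂ)))‖ = 1 := by
  rw [norm_exp]; simp

private lemma dk_X {X Y : ℂ → ℂ → ℂ} {z k : ℂ} : FF X Y 1 z k = X z k := by simp [FF]
private lemma dk_Y {X Y : ℂ → ℂ → ℂ} {z k : ℂ} : FF X Y I z k = Y z k := by simp [FF]

theorem piece_dk (h1 : S_calg) (h2 : S_dcab) (h3 : S_bkmod) : S_dk := by
  intro C k0 R r hC _hk0 _hk1 hR hr ε hε
  obtain ⟨Cm, hCm, hm⟩ := h3 R hR
  obtain ⟨M1, hM1⟩ := h2 C (2 * R) hC (by positivity)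
  set E : ℝ := Real.exp (C * (1 + 2 * R) * (1 + r)) with hE
  have hE0 : 0 < E := Real.exp_pos _
  set M : ℝ := 2 * E * (1 + |M1|) with hM
  have hM0 : 0 ≤ M := by positivity
  set D : ℝ := Cm * M + 1 with hD
  have hD0 : 0 < D := by positivity
  refine ⟨(ε / (2 * D)) ^ 2, by positivity, ?_⟩
  intro μ X Y g _hμ hS z k k' hz hk hk' hkk
  have hsq : Real.sqrt ‖k - k'‖ ≤ ε / (2 * D) := by
    rw [Real.sqrt_le_left (by positivity)]
    exact hkk.le
  -- bounds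
  have hcab : ∀ κ : ℂ, ‖κ‖ ≤ 2 * R → ‖cA X Y κ‖ ≤ M1 ∧ ‖cB X Y κ‖ ≤ M1 := by
    intro κ hκ
    refine hM1 X Y ?_ κ hκ
    intro w κ' c hw hc
    exact (hS.asy w (by rw [hw]) κ').2 c hc
  have hbd : ∀ κ : ℂ, ‖κ‖ ≤ 2 * R → ∀ c : ℂ, ‖c‖ = 1 → ‖FF X Y c z κ‖ ≤ E := by
    intro κ hκ c hc
    refine (hS.bd z κ c hc).2.1.trans ?_
    rw [hE]
    apply Real.exp_le_exp.2
    have h0 : (0 : ℝ) ≤ ‖z‖ := norm_nonneg _
    have h0' : (0 : ℝ) ≤ ‖κ‖ := norm_nonneg _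
    gcongr
  have hformula : ∀ (θ : ℝ) (κ : ℂ), 0 ≤ θ → θ ≤ Real.pi / 2 →
      exp (Lam X Y g θ z κ) = (((exp (-(I * θ)) * X z κ).re : ℝ) : ℂ) - I * (((exp (-(I * θ)) * Y z κ).re : ℝ) : ℂ) := by
    intro θ κ hθ hθ'
    exact (h1 X Y g z κ θ (Real.exp (-(C * (1 + ‖κ‖) * (1 + ‖z‖)))) (hS.eg z κ) (hS.im z κ) hθ hθ' (Real.exp_pos _)
      (fun c hc => (hS.bd z κ c hc).1)).1
  have hmod : ∀ θ : ℝ, 0 ≤ θ → θ ≤ Real.pi / 2 → ‖exp (Lam X Y g θ z k) - exp (Lam X Y g θ z k')‖ ≤ ε / 2 := by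
    intro θ hθ hθ'
    have hcd := (hS.keq θ z hθ hθ').1
    have hke := (hS.keq θ z hθ hθ').2
    have hne : ‖exp (-(I * (θ : ℂ)))‖ = 1 := by
      rw [norm_exp]; simp
    have hU : ∀ κ : ℂ, ‖κ‖ ≤ 2 * R → ‖exp (Lam X Y g θ z κ)‖ ≤ 2 * E := by
      intro κ hκ
      rw [hformula θ κ hθ hθ']
      have hx : ‖(((exp (-(I * θ)) * X z κ).re : ℝ) : ℂ)‖ ≤ E := by
        rw [norm_real, Real.norm_eq_abs]
        refine (abs_re_le_norm _).trans ?_
        rw [norm_mul, hne, one_mul, ← dk_X (X := X) (Y := Y)]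
        exact hbd κ hκ 1 (by simp)
      have hy : ‖I * (((exp (-(I * θ)) * Y z κ).re : ℝ) : ℂ)‖ ≤ E := by
        rw [norm_mul, norm_I, one_mul, norm_real, Real.norm_eq_abs]
        refine (abs_re_le_norm _).trans ?_
        rw [norm_mul, hne, one_mul, ← dk_Y (X := X) (Y := Y)]
        exact hbd κ hκ I (by simp)
      calc _ ≤ _ := norm_sub_le _ _
        _ ≤ E + E := add_le_add hx hy
        _ = 2 * E := by ring
    have hcd' : ContDiff ℝ 1 (fun κ => exp (Lam X Y g θ z κ)) := hcd.cexp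
    have hb : ∀ κ ∈ ball (0 : ℂ) (2 * R), ‖(fun κ => exp (Lam X Y g θ z κ)) κ‖ ≤ M ∧ ‖db (fun κ => exp (Lam X Y g θ z κ)) κ‖ ≤ M := by
      intro κ hκ
      have hκ' : ‖κ‖ ≤ 2 * R := (mem_ball_zero_iff.1 hκ).le
      have hUk := hU κ hκ'
      obtain ⟨hA, hB⟩ := hcab κ hκ'
      have hM1a : M1 ≤ |M1| := le_abs_self _
      constructor
      · refine hUk.trans ?_
        rw [hM]
        have : 0 ≤ 2 * E * |M1| := by positivity
        nlinarith
      · rw [dk_dbexp _ hcd κ, norm_mul]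
        have h4 : ‖db (fun κ => Lam X Y g θ z κ) κ‖ ≤ |M1| := by
          have h5 : 2 * ‖db (fun κ => Lam X Y g θ z κ) κ‖ ≤ 2 * |M1| := by
            have h6 : ‖2 * db (fun κ => Lam X Y g θ z κ) κ‖ = 2 * ‖db (fun κ => Lam X Y g θ z κ) κ‖ := by
              rw [norm_mul]; norm_num
            rw [← h6, hke κ]
            calc _ ≤ ‖cA X Y κ‖ + ‖cB X Y κ * exp (-(2 * I * ((Lam X Y g θ z κ).im : ℂ)))‖ := norm_add_le _ _
              _ ≤ M1 + M1 := by
                refine add_le_add hA ?_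
                rw [norm_mul, dk_unit, mul_one]; exact hB
              _ ≤ 2 * |M1| := by linarith
          linarith
        calc _ ≤ (2 * E) * |M1| := mul_le_mul hUk h4 (norm_nonneg _) (by positivity)
          _ ≤ M := by rw [hM]; nlinarith
    have h7 := hm M _ hcd' hb k (mem_closedBall_zero_iff.2 hk) k' (mem_closedBall_zero_iff.2 hk')
    calc _ ≤ Cm * M * Real.sqrt ‖k - k'‖ := h7
      _ ≤ D * (ε / (2 * D)) := by
        refine mul_le_mul (by rw [hD]; linarith) hsq (Real.sqrt_nonneg _) hD0.le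
      _ = ε / 2 := by field_simp
  have hp0 : (0 : ℝ) ≤ Real.pi / 2 := by positivity
  have m0 := hmod 0 le_rfl hp0
  have m1 := hmod (Real.pi / 2) hp0 le_rfl
  rw [hformula 0 k le_rfl hp0, hformula 0 k' le_rfl hp0, dk_exp0, one_mul, one_mul, one_mul, one_mul] at m0
  rw [hformula _ k hp0 le_rfl, hformula _ k' hp0 le_rfl, dk_expp] at m1
  have r0 := (abs_re_le_norm _).trans m0
  have i0 := (abs_im_le_norm _).trans m0
  have r1 := (abs_re_le_norm _).trans m1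
  have i1 := (abs_im_le_norm _).trans m1
  simp at r0 i0 r1 i1
  constructor
  · refine (norm_le_abs_re_add_abs_im _).trans ?_
    simp only [sub_re, sub_im]
    linarith
  · refine (norm_le_abs_re_add_abs_im _).trans ?_
    simp only [sub_re, sub_im]
    have a1 : |(Y z k).re - (Y z k').re| ≤ ε / 2 := by
      rw [abs_le] at i0 ⊢
      constructor <;> linarith [i0.1, i0.2]
    have a2 : |(Y z k).im - (Y z k').im| ≤ ε / 2 := by
      rw [abs_le] at i1 ⊢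
      constructor <;> linarith [i1.1, i1.2]
    linarith

end Cal
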