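import Pool.Agent.Lib.MP_4ea4c7_an.StmH6

/-!
# [d16] The equation in `k` in the limit
-/

open MeasureTheory Complex Metric Set Filter Topology
open scoped ComplexConjugate ENNReal NNReal

namespace Cal

private lemma dkeq_FF1 (X Y : ℂ → ℂ → ℂ) (z k : ℂ) : FF X Y 1 z k = X z k := by simp [FF]

private lemma dkeq_FFI (X Y : ℂ → ℂ → ℂ) (z k : ℂ) : FF X Y I z k = Y z k := by simp [FF]

private lemma dkeq_X {C : ℝ} {μ : ℂ → ℝ} {X Y g : ℂ → ℂ → ℂ} (h : SLS C μ X Y g) (z k : ℂ) :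
    ‖X z k‖ ≤ Real.exp (C * (1 + ‖k‖) * (1 + ‖z‖)) := by
  have := (h.bd z k 1 (by simp)).2.1
  rwa [dkeq_FF1] at this

private lemma dkeq_Xl {C : ℝ} {μ : ℂ → ℝ} {X Y g : ℂ → ℂ → ℂ} (h : SLS C μ X Y g) (z k : ℂ) :
    Real.exp (-(C * (1 + ‖k‖) * (1 + ‖z‖))) ≤ ‖X z k‖ := by
  have := (h.bd z k 1 (by simp)).1
  rwa [dkeq_FF1] at this

private lemma dkeq_Y {C : ℝ} {μ : ℂ → ℝ} {X Y g : ℂ → ℂ → ℂ} (h : SLS C μ X Y g) (z k : ℂ) :
    ‖Y z k‖ ≤ Real.exp (C * (1 + ‖k‖) * (1 + ‖z‖)) := by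
  have := (h.bd z k I (by simp)).2.1
  rwa [dkeq_FFI] at this

private lemma dkeq_ac {G : Set ℂ} {k0 C : ℝ} {μ : ℂ → ℝ} {μn : ℕ → ℂ → ℝ}
    {Xn Yn gn : ℕ → ℂ → ℂ → ℂ} {X Y g : ℂ → ℂ → ℂ} (hA : Apx G k0 C μ μn Xn Yn gn X Y g)
    (c k : ℂ) : Tendsto (fun n => ac (Xn n) (Yn n) c k) atTop (𝓝 (ac X Y c k)) := by
  unfold ac
  refine Tendsto.const_mul _ ?_
  unfold circleIntegral
  have hG : ∀ t : ℝ, circleMap 0 2 t ∈ G := by
    intro t
    refine hA.adm.ext _ ?_
    simp only [norm_circleMap_zero]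
    norm_num
  have hX : ∀ z ∈ G, Tendsto (fun n => Xn n z k) atTop (𝓝 (X z k)) := by
    intro z hz
    exact (hA.tX {(z, k)} isCompact_singleton (by
      rintro p rfl
      exact ⟨hz, mem_univ _⟩)).tendsto_at (mem_singleton _)
  have hY : ∀ z ∈ G, Tendsto (fun n => Yn n z k) atTop (𝓝 (Y z k)) := by
    intro z hz
    exact (hA.tY {(z, k)} isCompact_singleton (by
      rintro p rfl
      exact ⟨hz, mem_univ _⟩)).tendsto_at (mem_singleton _)
  refine intervalIntegral.tendsto_integral_filter_of_dominated_convergence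
    (fun _ => 2 * (Real.exp (‖k‖ * 2) * ((|c.re| + |c.im|) * Real.exp (C * (1 + ‖k‖) * (1 + 2)))))
    (Eventually.of_forall fun n => ?_) (Eventually.of_forall fun n => ?_) ?_ ?_
  · refine Continuous.aestronglyMeasurable ?_
    have h1 : Continuous (fun t : ℝ => Xn n (circleMap 0 2 t) k) :=
      (hA.sls n).cX.comp ((continuous_circleMap 0 2).prodMk continuous_const)
    have h2 : Continuous (fun t : ℝ => Yn n (circleMap 0 2 t) k) :=
      (hA.sls n).cY.comp ((continuous_circleMap 0 2).prodMk continuous_const)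
    have h3 : Continuous (fun t : ℝ => circleMap 0 2 t) := continuous_circleMap 0 2
    simp only [deriv_circleMap, FF]
    exact (h3.mul continuous_const).smul
      ((Complex.continuous_exp.comp ((continuous_const.mul h3).neg)).mul
        ((continuous_const.mul h1).add (continuous_const.mul h2)))
  · refine Eventually.of_forall fun t _ => ?_
    have hn : ‖circleMap 0 2 t‖ = 2 := by simp
    have e1 : ‖Xn n (circleMap 0 2 t) k‖ ≤ Real.exp (C * (1 + ‖k‖) * (1 + 2)) := by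
      have := dkeq_X (hA.sls n) (circleMap 0 2 t) k
      rwa [hn] at this
    have e2 : ‖Yn n (circleMap 0 2 t) k‖ ≤ Real.exp (C * (1 + ‖k‖) * (1 + 2)) := by
      have := dkeq_Y (hA.sls n) (circleMap 0 2 t) k
      rwa [hn] at this
    rw [norm_smul, norm_mul]
    have e3 : ‖deriv (circleMap 0 2) t‖ = 2 := by simp [deriv_circleMap]
    have e4 : ‖exp (-(I * k * circleMap 0 2 t))‖ ≤ Real.exp (‖k‖ * 2) := by
      rw [Complex.norm_exp]
      refine Real.exp_le_exp.2 ?_
      calc (-(I * k * circleMap 0 2 t)).re ≤ ‖-(I * k * circleMap 0 2 t)‖ := Complex.re_le_norm _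
        _ = ‖k‖ * 2 := by rw [norm_neg, norm_mul, norm_mul, hn, Complex.norm_I, one_mul]
    have e5 : ‖FF (Xn n) (Yn n) c (circleMap 0 2 t) k‖ ≤
        (|c.re| + |c.im|) * Real.exp (C * (1 + ‖k‖) * (1 + 2)) := by
      unfold FF
      calc ‖(c.re : ℂ) * Xn n (circleMap 0 2 t) k + (c.im : ℂ) * Yn n (circleMap 0 2 t) k‖
          ≤ ‖(c.re : ℂ) * Xn n (circleMap 0 2 t) k‖ + ‖(c.im : ℂ) * Yn n (circleMap 0 2 t) k‖ :=
            norm_add_le _ _
        _ = |c.re| * ‖Xn n (circleMap 0 2 t) k‖ + |c.im| * ‖Yn n (circleMap 0 2 t) k‖ := by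
            rw [norm_mul, norm_mul, Complex.norm_real, Complex.norm_real, Real.norm_eq_abs,
              Real.norm_eq_abs]
        _ ≤ |c.re| * Real.exp (C * (1 + ‖k‖) * (1 + 2)) +
            |c.im| * Real.exp (C * (1 + ‖k‖) * (1 + 2)) := by gcongr
        _ = _ := by ring
    rw [e3]
    gcongr
  · exact intervalIntegrable_const
  · refine Eventually.of_forall fun t _ => ?_
    refine Tendsto.const_smul (Tendsto.const_mul _ ?_) _
    unfold FF
    exact ((hX _ (hG t)).const_mul _).add ((hY _ (hG t)).const_mul _)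

private lemma dkeq_lam {C : ℝ} {μ : ℂ → ℝ} {X Y g : ℂ → ℂ → ℂ} (h3 : S_calg)
    (h : SLS C μ X Y g) {θ : ℝ} (hθ0 : 0 ≤ θ) (hθ1 : θ ≤ Real.pi / 2) (z k : ℂ) {E : ℝ}
    (hE : C * (1 + ‖k‖) * (1 + ‖z‖) ≤ E) :
    ‖Lam X Y g θ z k‖ ≤ 10 + Real.log (1 + Real.exp E * Real.exp E) +
      Real.log ((Real.exp E + Real.exp E) * Real.exp E) + E := by
  have hm : 0 < Real.exp (-E) := Real.exp_pos _
  have hlow : ∀ c : ℂ, ‖c‖ = 1 → Real.exp (-E) ≤ ‖FF X Y c z k‖ := fun c hc =>
    (Real.exp_le_exp.2 (neg_le_neg hE)).trans (h.bd z k c hc).1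
  obtain ⟨-, -, -, -, -, hb⟩ := h3 X Y g z k θ (Real.exp (-E)) (h.eg z k) (h.im z k) hθ0 hθ1 hm hlow
  have hg : ‖g z k‖ ≤ E := ((h.bd z k 1 (by simp)).2.2).trans hE
  have hX : ‖X z k‖ ≤ Real.exp E := (dkeq_X h z k).trans (Real.exp_le_exp.2 hE)
  have hY : ‖Y z k‖ ≤ Real.exp E := (dkeq_Y h z k).trans (Real.exp_le_exp.2 hE)
  have hXl : Real.exp (-E) ≤ ‖X z k‖ := (Real.exp_le_exp.2 (neg_le_neg hE)).trans (dkeq_Xl h z k)
  have hXp : 0 < ‖X z k‖ := hm.trans_le hXl
  have e1 : ‖Y z k‖ / ‖X z k‖ ≤ Real.exp E * Real.exp E := by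
    rw [div_le_iff₀ hXp]
    calc ‖Y z k‖ ≤ Real.exp E := hY
      _ = Real.exp E * Real.exp E * Real.exp (-E) := by
          rw [mul_assoc, ← Real.exp_add, add_neg_cancel, Real.exp_zero, mul_one]
      _ ≤ Real.exp E * Real.exp E * ‖X z k‖ := by gcongr
  have e2 : (‖X z k‖ + ‖Y z k‖) / Real.exp (-E) ≤ (Real.exp E + Real.exp E) * Real.exp E := by
    rw [Real.exp_neg, div_inv_eq_mul]
    gcongr
  have e3 : Real.log (1 + ‖Y z k‖ / ‖X z k‖) ≤ Real.log (1 + Real.exp E * Real.exp E) :=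
    Real.log_le_log (by positivity) (by linarith)
  have e4 : Real.log ((‖X z k‖ + ‖Y z k‖) / Real.exp (-E)) ≤
      Real.log ((Real.exp E + Real.exp E) * Real.exp E) :=
    Real.log_le_log (by positivity) e2
  calc ‖Lam X Y g θ z k‖ = ‖(Lam X Y g θ z k - g z k) + g z k‖ := by rw [sub_add_cancel]
    _ ≤ ‖Lam X Y g θ z k - g z k‖ + ‖g z k‖ := norm_add_le _ _
    _ ≤ _ := by linarith

theorem piece_dkeq (h1 : S_dLL) (h2 : S_dcab) (h3 : S_calg) (_h4 : S_dbd) (h5 : S_smooth) :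
    S_dkeq := by
  intro G k0 C μ μn Xn Yn gn X Y g hA θ hθ0 hθ1 z hz φ hφ
  -- the equation for the approximations
  have hKn : ∀ n, ∫ k, Lam (Xn n) (Yn n) (gn n) θ z k * db φ k =
      - ∫ k, (cA (Xn n) (Yn n) k + cB (Xn n) (Yn n) k *
        exp (-(2 * I * ((Lam (Xn n) (Yn n) (gn n) θ z k).im : ℂ)))) / 2 * φ k := by
    intro n
    obtain ⟨hc, he⟩ := (hA.sls n).keq θ z hθ0 hθ1
    have := (h5.1 univ _ isOpen_univ hc.contDiffOn).hB φ hφ
    rw [this]
    congr 1
    refine integral_congr_ae (Eventually.of_forall fun k => ?_)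
    beta_reduce
    rw [← he k]
    ring
  -- the support of `φ`
  obtain ⟨R0, hR0⟩ := hφ.2.1.isCompact.isBounded.subset_closedBall (0 : ℂ)
  set R : ℝ := max R0 0 with hR
  have hRn : ∀ k, k ∈ tsupport φ → ‖k‖ ≤ R := by
    intro k hk
    have := hR0 hk
    rw [mem_closedBall_zero_iff] at this
    exact this.trans (le_max_left _ _)
  have hR0' : 0 ≤ R := le_max_right _ _
  have hφc : Continuous φ := hφ.1.continuous
  have hfd : Continuous (fderiv ℝ φ) := hφ.1.continuous_fderiv (by simp)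
  have hdbc : Continuous (db φ) := by
    unfold db
    have a1 : Continuous (fun z => fderiv ℝ φ z 1) := hfd.clm_apply continuous_const
    have a2 : Continuous (fun z => fderiv ℝ φ z I) := hfd.clm_apply continuous_const
    fun_prop
  have hdb0 : ∀ k, k ∉ tsupport φ → db φ k = 0 := by
    intro k hk
    unfold db
    rw [fderiv_of_notMem_tsupport ℝ hk]
    simp
  have hφ0 : ∀ k, k ∉ tsupport φ → φ k = 0 := fun k hk => image_eq_zero_of_notMem_tsupport hk
  have hdbs : HasCompactSupport (db φ) := by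
    refine HasCompactSupport.intro hφ.2.1.isCompact (fun k hk => hdb0 k hk)
  have hdbi : Integrable (db φ) volume := hdbc.integrable_of_hasCompactSupport hdbs
  have hφi : Integrable φ volume := hφc.integrable_of_hasCompactSupport hφ.2.1
  -- the left hand side
  set E : ℝ := C * (1 + R) * (1 + ‖z‖) with hE
  have hEk : ∀ k : ℂ, ‖k‖ ≤ R → C * (1 + ‖k‖) * (1 + ‖z‖) ≤ E := by
    intro k hk
    rw [hE]
    have := hA.C0
    gcongr
  set M1 : ℝ := 10 + Real.log (1 + Real.exp E * Real.exp E) +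
      Real.log ((Real.exp E + Real.exp E) * Real.exp E) + E with hM1
  have hL : Tendsto (fun n => ∫ k, Lam (Xn n) (Yn n) (gn n) θ z k * db φ k) atTop
      (𝓝 (∫ k, Lam X Y g θ z k * db φ k)) := by
    refine tendsto_integral_of_dominated_convergence (fun k => M1 * ‖db φ k‖) (fun n => ?_)
      (hdbi.norm.const_mul _) (fun n => Eventually.of_forall fun k => ?_)
      (Eventually.of_forall fun k => ?_)
    · obtain ⟨hc, -⟩ := (hA.sls n).keq θ z hθ0 hθ1
      exact (hc.continuous.mul hdbc).aestronglyMeasurable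
    · rw [norm_mul]
      by_cases hk : k ∈ tsupport φ
      · have := dkeq_lam h3 (hA.sls n) hθ0 hθ1 z k (hEk k (hRn k hk))
        gcongr
      · rw [hdb0 k hk]
        simp
    · exact (h1 G k0 C μ μn Xn Yn gn X Y g hA θ hθ0 hθ1 z hz k).mul_const _
  -- the right hand side
  obtain ⟨M, hM⟩ := h2 C R hA.C0 hR0'
  have hac := dkeq_ac hA
  have htc : ∀ c k, Tendsto (fun n => tc (Xn n) (Yn n) c k) atTop (𝓝 (tc X Y c k)) := by
    intro c k
    unfold tc
    exact ((hac c k).const_mul _).sub (hac (I * c) k)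
  have hcA : ∀ k, Tendsto (fun n => cA (Xn n) (Yn n) k) atTop (𝓝 (cA X Y k)) := by
    intro k
    unfold cA
    exact ((htc 1 k).sub ((htc I k).const_mul _)).div_const _
  have hcj : ∀ c k, Tendsto (fun n => conj (tc (Xn n) (Yn n) c k)) atTop (𝓝 (conj (tc X Y c k))) :=
    fun c k => (Complex.continuous_conj.tendsto _).comp (htc c k)
  have hcB : ∀ k, Tendsto (fun n => cB (Xn n) (Yn n) k) atTop (𝓝 (cB X Y k)) := by
    intro k
    unfold cB
    exact ((hcj 1 k).sub ((hcj I k).const_mul _)).div_const _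
  have hRt : Tendsto (fun n => ∫ k, (cA (Xn n) (Yn n) k + cB (Xn n) (Yn n) k *
        exp (-(2 * I * ((Lam (Xn n) (Yn n) (gn n) θ z k).im : ℂ)))) / 2 * φ k) atTop
      (𝓝 (∫ k, (cA X Y k + cB X Y k *
        exp (-(2 * I * ((Lam X Y g θ z k).im : ℂ)))) / 2 * φ k)) := by
    refine tendsto_integral_of_dominated_convergence (fun k => (M + M) / 2 * ‖φ k‖) (fun n => ?_)
      (hφi.norm.const_mul _) (fun n => Eventually.of_forall fun k => ?_)
      (Eventually.of_forall fun k => ?_)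
    · obtain ⟨hc, he⟩ := (hA.sls n).keq θ z hθ0 hθ1
      have e : (fun k => (cA (Xn n) (Yn n) k + cB (Xn n) (Yn n) k *
          exp (-(2 * I * ((Lam (Xn n) (Yn n) (gn n) θ z k).im : ℂ)))) / 2 * φ k) =
          fun k => db (fun k => Lam (Xn n) (Yn n) (gn n) θ z k) k * φ k := by
        funext k
        rw [← he k]
        ring
      rw [e]
      refine Continuous.aestronglyMeasurable (Continuous.mul ?_ hφc)
      have hfd' : Continuous (fderiv ℝ (fun k => Lam (Xn n) (Yn n) (gn n) θ z k)) :=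
        hc.continuous_fderiv one_ne_zero
      unfold db
      have a1 : Continuous (fun w => fderiv ℝ (fun k => Lam (Xn n) (Yn n) (gn n) θ z k) w 1) :=
        hfd'.clm_apply continuous_const
      have a2 : Continuous (fun w => fderiv ℝ (fun k => Lam (Xn n) (Yn n) (gn n) θ z k) w I) :=
        hfd'.clm_apply continuous_const
      fun_prop
    · rw [norm_mul]
      by_cases hk : k ∈ tsupport φ
      · obtain ⟨b1, b2⟩ := hM (Xn n) (Yn n) (fun w k c hw hc =>
          ((hA.sls n).asy w (le_of_eq hw.symm) k).2 c hc) k (hRn k hk)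
        have e0 : ‖exp (-(2 * I * ((Lam (Xn n) (Yn n) (gn n) θ z k).im : ℂ)))‖ = 1 := by
          rw [Complex.norm_exp]
          simp
        have : ‖(cA (Xn n) (Yn n) k + cB (Xn n) (Yn n) k *
            exp (-(2 * I * ((Lam (Xn n) (Yn n) (gn n) θ z k).im : ℂ)))) / 2‖ ≤ (M + M) / 2 := by
          rw [norm_div, Complex.norm_two]
          refine div_le_div_of_nonneg_right ?_ (by norm_num)
          refine (norm_add_le _ _).trans ?_
          rw [norm_mul, e0, mul_one]
          exact add_le_add b1 b2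
        gcongr
      · rw [hφ0 k hk]
        simp
    · refine Tendsto.mul_const _ (Tendsto.div_const ((hcA k).add ((hcB k).mul ?_)) _)
      have := h1 G k0 C μ μn Xn Yn gn X Y g hA θ hθ0 hθ1 z hz k
      have him : Tendsto (fun n => ((Lam (Xn n) (Yn n) (gn n) θ z k).im : ℂ)) atTop
          (𝓝 ((Lam X Y g θ z k).im : ℂ)) :=
        (Complex.continuous_ofReal.tendsto _).comp ((Complex.continuous_im.tendsto _).comp this)
      exact (Complex.continuous_exp.tendsto _).comp ((him.const_mul _).neg)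
  exact tendsto_nhds_unique hL ((hRt.neg).congr fun n => (hKn n).symm)

end Cal
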