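import Pool.Agent.Lib.MP_4ea4c7_an.StmH4

/-!
# MP_4ea4c7_an, stage 2, part 6: the limit structure

Paper: /team-store/MP_4ea4c7_stage2_paper.md, section 6.
-/

open MeasureTheory Complex Metric Set Filter Topology
open scoped ComplexConjugate ENNReal NNReal

namespace Cal

noncomputable section

/-- approximating sequence and limit functions -/
structure Apx (G : Set ℂ) (k0 C : ℝ) (μ : ℂ → ℝ) (μn : ℕ → ℂ → ℝ) (Xn Yn gn : ℕ → ℂ → ℂ → ℂ) (X Y g : ℂ → ℂ → ℂ) : Prop where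
  adm : Adm G k0 μ
  C0 : 0 ≤ C
  smu : ∀ n, SMu k0 (μn n)
  sls : ∀ n, SLS C (μn n) (Xn n) (Yn n) (gn n)
  ae : ∀ᵐ z, Tendsto (fun n => μn n z) atTop (𝓝 (μ z))
  loc : ∀ K : Set ℂ, IsCompact K → K ⊆ G → ∃ q : ℝ, q < 1 ∧ ∀ᶠ n in atTop, ∀ z ∈ K, |μn n z| ≤ q
  cX : ContinuousOn (fun p : ℂ × ℂ => X p.1 p.2) (G ×ˢ univ)
  cY : ContinuousOn (fun p : ℂ × ℂ => Y p.1 p.2) (G ×ˢ univ)
  cg : ContinuousOn (fun p : ℂ × ℂ => g p.1 p.2) (G ×ˢ univ)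
  tX : ∀ K : Set (ℂ × ℂ), IsCompact K → K ⊆ G ×ˢ univ → TendstoUniformlyOn (fun (n : ℕ) (p : ℂ × ℂ) => Xn n p.1 p.2) (fun p => X p.1 p.2) atTop K
  tY : ∀ K : Set (ℂ × ℂ), IsCompact K → K ⊆ G ×ˢ univ → TendstoUniformlyOn (fun (n : ℕ) (p : ℂ × ℂ) => Yn n p.1 p.2) (fun p => Y p.1 p.2) atTop K
  tg : ∀ K : Set (ℂ × ℂ), IsCompact K → K ⊆ G ×ˢ univ → TendstoUniformlyOn (fun (n : ℕ) (p : ℂ × ℂ) => gn n p.1 p.2) (fun p => g p.1 p.2) atTop K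

/-- [d1] Approximation of the coefficient. Proof. `μ_n = (1 - 1/(n+2)) mol (ρ_{n+n₀}) μ` along a subsequence for which `mol ρ μ → μ` a.e. (on balls: `L²` convergence for `μ 1_{ball}`; `S_bump`), with `n₀ ≥ 7` (kernel supported in the ball of radius `1/8`: `3/4 + 1/8 = 7/8`). `-k0 ≤ mol ρ μ ≤ 1` since `ρ ≥ 0`, `∫ ρ = 1`. `loc`: on a compact `K ⊆ G`, `|μ| ≤ q` on a compact neighbourhood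
of `K` in `G`, so `|mol ρ_n μ| ≤ q` on `K` for `n` large. -/
def S_dmu : Prop := ∀ (G : Set ℂ) (k0 : ℝ) (μ : ℂ → ℝ), Adm G k0 μ → ∃ μn : ℕ → ℂ → ℝ, (∀ n, SMu k0 (μn n)) ∧ (∀ᵐ z, Tendsto (fun n => μn n z) atTop (𝓝 (μ z))) ∧
  ∀ K : Set ℂ, IsCompact K → K ⊆ G → ∃ q : ℝ, q < 1 ∧ ∀ᶠ n in atTop, ∀ z ∈ K, |μn n z| ≤ q

/-- [d3] Local energy and equicontinuity where `|μ| ≤ q < 1`. Proof. `g z k`: `exp g = X`, `WD univ g (A/X) (B/X)` (`S_bwlog`), `(1-q²) ∫_{ball z0 ρ} ‖A/X‖² ≤ ∫_{ball 0 r} (‖A‖²-‖B‖²)/‖X‖² ≤ π R² r²`, `r = ‖z0‖ + ρ + 1`. `S_amp` and `S_CL` on `ball z0 ρ` for `g`; `X = exp g` with `‖g‖` bounded. For `F = FF X Y c` itself: `‖A‖² ≤ ‖F‖² ...` bounded energy, `S_amp`, `S_CL`. -/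
def S_dloc : Prop := ∀ (C k0 R q ρ : ℝ) (z0 : ℂ), 0 ≤ C → 0 ≤ k0 → k0 < 1 → q < 1 → 0 < ρ →
  (∃ M : ℝ, ∀ (μ : ℂ → ℝ) (X Y g : ℂ → ℂ → ℂ), SMu k0 μ → SLS C μ X Y g → (∀ z ∈ ball z0 ρ, |μ z| ≤ q) → ∀ k c : ℂ, ‖k‖ ≤ R → ‖c‖ = 1 → ∀ A B : ℂ → ℂ, WD univ (fun z => FF X Y c z k) A B →
    IntegrableOn (fun z => ‖A z‖ ^ 2) (ball z0 ρ) volume ∧ ∫ z in ball z0 ρ, ‖A z‖ ^ 2 ≤ M ∧ ∫ z in ball z0 ρ, ‖A z‖ ^ 2 / ‖FF X Y c z k‖ ^ 2 ≤ M * ‖k‖ ^ 2) ∧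
  ∀ ε : ℝ, 0 < ε → ∃ δ : ℝ, 0 < δ ∧ ∀ (μ : ℂ → ℝ) (X Y g : ℂ → ℂ → ℂ), SMu k0 μ → SLS C μ X Y g → (∀ z ∈ ball z0 ρ, |μ z| ≤ q) → ∀ k c : ℂ, ‖k‖ ≤ R → ‖c‖ = 1 → ∀ z : ℂ, ‖z - z0‖ < δ →
    ‖FF X Y c z k - FF X Y c z0 k‖ ≤ ε ∧ ‖g z k - g z0 k‖ ≤ ε

/-- [d4] Bounds for the coefficients of the equation in `k`. Proof. On `‖z‖ = 2`, `‖c‖ = 1`: `exp (-(I k z)) F - c = c (exp d - 1)`, `‖d‖ ≤ C‖k‖/2`, so `‖ac X Y c k‖ ≤ 2 (e^{C R/2} + 1)` (`∮ c dz = 0` is not needed); `ac` is real linear in `c`. -/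
def S_dcab : Prop := ∀ C R : ℝ, 0 ≤ C → 0 ≤ R → ∃ M : ℝ, ∀ X Y : ℂ → ℂ → ℂ, (∀ z k c : ℂ, ‖z‖ = 2 → ‖c‖ = 1 → ∃ d : ℂ, ‖d‖ ≤ C * ‖k‖ / ‖z‖ ∧ FF X Y c z k = c * exp (I * k * z + d)) →
  ∀ k : ℂ, ‖k‖ ≤ R → ‖cA X Y k‖ ≤ M ∧ ‖cB X Y k‖ ≤ M

/-- [d5] Equicontinuity in `k`, for every `z`. Proof. `U_θ = exp (Lam_θ)` for `θ = 0` and `θ = π/2`: `2 db_k U = cA U + cB conj U` (`keq`), `‖U‖ ≤ 2 e^{C(1+2R)(1+r)}` (`S_calg`: `U` is a combination of real parts of `X`, `Y`), `S_dcab`, `S_bkmod`. `X = Re X + i Im X`: `U_0 = Re X - i Re Y`, `U_{π/2} = Im X - i Im Y` (`S_calg`), so `X, Y` have the same modulus of continuity up to a factor. -/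
def S_dk : Prop := ∀ C k0 R r : ℝ, 0 ≤ C → 0 ≤ k0 → k0 < 1 → 0 < R → 0 ≤ r → ∀ ε : ℝ, 0 < ε → ∃ δ : ℝ, 0 < δ ∧ ∀ (μ : ℂ → ℝ) (X Y g : ℂ → ℂ → ℂ), SMu k0 μ → SLS C μ X Y g →
  ∀ z k k' : ℂ, ‖z‖ ≤ r → ‖k‖ ≤ R → ‖k'‖ ≤ R → ‖k - k'‖ < δ → ‖X z k - X z k'‖ ≤ ε ∧ ‖Y z k - Y z k'‖ ≤ ε

/-- [d6] The approximating sequence. Proof. `C` from `S_csls`, `μ_n` from `S_dmu`, `X_n, Y_n, g_n` from `S_csls`. `S_baa` on `W = G ×ˢ univ` for `X_n`, then `Y_n` (local boundedness: `bd`; equicontinuity at `(z0,k0)`: `S_dloc` on a small ball around `z0` with closure in `G` (`q` from `S_dmu` (3)) and `S_dk`): subsequence. The limit `X` satisfies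
the lower bound of `bd`, so `S_blog` on `W = G ×ˢ univ` (preconnected; `x0 = (1,0)`, `g_n(1,0) = 0`) gives `g`. -/
def S_dapx : Prop := ∀ (G : Set ℂ) (k0 : ℝ) (μ : ℂ → ℝ), Adm G k0 μ → ∃ (C : ℝ) (μn : ℕ → ℂ → ℝ) (Xn Yn gn : ℕ → ℂ → ℂ → ℂ) (X Y g : ℂ → ℂ → ℂ), Apx G k0 C μ μn Xn Yn gn X Y g

/-- [d7] Weak derivatives in the limit. Proof. Let `F_n = FF X_n Y_n c (·,k)`, `F` the same for `X, Y`, `WD univ F_n A_n B_n`, `B_n = μ_n conj A_n`. For compact `K ⊆ G` cover `K` by finitely many balls with closures in `G`: `∫_K ‖A_n‖² ≤ M` for `n` large (`S_dloc`). `S_awlim`, `S_awlimB` (with `U = G`; `|μ_n| ≤ 1`). -/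
def S_dwd : Prop := ∀ (G : Set ℂ) (k0 C : ℝ) (μ : ℂ → ℝ) (μn : ℕ → ℂ → ℝ) (Xn Yn gn : ℕ → ℂ → ℂ → ℂ) (X Y g : ℂ → ℂ → ℂ), Apx G k0 C μ μn Xn Yn gn X Y g → ∀ (k c : ℂ) (An Bn : ℕ → ℂ → ℂ), ‖c‖ = 1 →
  (∀ n, WD univ (fun z => FF (Xn n) (Yn n) c z k) (An n) (Bn n)) → ∃ A B : ℂ → ℂ, WD G (fun z => FF X Y c z k) A B ∧ (∀ᵐ z ∂(volume.restrict G), B z = (μ z : ℂ) * conj (A z)) ∧
  (∀ K : Set ℂ, IsCompact K → K ⊆ G → ∃ M : ℝ, ∀ᶠ n in atTop, eLpNorm (An n) 2 (volume.restrict K) ≤ ENNReal.ofReal M ∧ eLpNorm (Bn n) 2 (volume.restrict K) ≤ ENNReal.ofReal M) ∧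
  ∀ K : Set ℂ, IsCompact K → K ⊆ G → ∀ φ : ℂ → ℂ, MemLp φ 2 (volume.restrict K) →
    Tendsto (fun n => ∫ z in K, An n z * φ z) atTop (𝓝 (∫ z in K, A z * φ z)) ∧ Tendsto (fun n => ∫ z in K, Bn n z * φ z) atTop (𝓝 (∫ z in K, B z * φ z))

/-- [d8] Bounds and asymptotics in the limit. Proof. Pointwise limits of `bd`, `z0`, `exp g = X`. `asy`: `‖g - I k z‖ ≤ C‖k‖/‖z‖` in the limit; for `c`: `d_n` is a bounded sequence, along a subsequence `d_n → d`. Positivity of `Im (Y/X)`: `S_cim` with `W = G ×ˢ univ`, `p0 = (1, 0)`, or as a limit: `Im (Y/X) ≥ 0`, and `≠ 0` since `FF X Y c ≠ 0`. -/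
def S_dbd : Prop := ∀ (G : Set ℂ) (k0 C : ℝ) (μ : ℂ → ℝ) (μn : ℕ → ℂ → ℝ) (Xn Yn gn : ℕ → ℂ → ℂ → ℂ) (X Y g : ℂ → ℂ → ℂ), Apx G k0 C μ μn Xn Yn gn X Y g →
  (∀ z ∈ G, ∀ k, exp (g z k) = X z k) ∧ (∀ z ∈ G, X z 0 = 1 ∧ Y z 0 = I ∧ g z 0 = 0) ∧ (∀ z ∈ G, ∀ k, 0 < (Y z k / X z k).im) ∧
  (∀ z ∈ G, ∀ k c : ℂ, ‖c‖ = 1 → Real.exp (-(C * (1 + ‖k‖) * (1 + ‖z‖))) ≤ ‖FF X Y c z k‖ ∧ ‖FF X Y c z k‖ ≤ Real.exp (C * (1 + ‖k‖) * (1 + ‖z‖)) ∧ ‖g z k‖ ≤ C * (1 + ‖k‖) * (1 + ‖z‖)) ∧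
  ∀ z : ℂ, 2 ≤ ‖z‖ → ∀ k : ℂ, ‖g z k - I * k * z‖ ≤ C * ‖k‖ / ‖z‖ ∧ ∀ c : ℂ, ‖c‖ = 1 → ∃ d : ℂ, ‖d‖ ≤ C * ‖k‖ / ‖z‖ ∧ FF X Y c z k = c * exp (I * k * z + d)

/-- [d9] Local energy bound, with `‖k‖²`. Proof. `S_dwd` and `S_alsc` with `m_n = 1/‖F_n‖` (bounded on `K`, uniformly convergent to `1/‖F‖`), on finitely many balls covering `K`: `∫_K ‖A‖²/‖F‖² ≤ liminf ∫_K ‖A_n‖²/‖F_n‖² ≤ C_K ‖k‖²`, where directly from `en` (with `r` such that `K ⊆ ball 0 r`) `∫_K ‖A_n‖²/‖F_n‖² ≤ π r² ‖k‖²/(1-q²)` for `n` large (`q` for `K` from `loc`). `A` is unique a.e. (`S_wuniq`). -/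
def S_den : Prop := ∀ (G : Set ℂ) (k0 C : ℝ) (μ : ℂ → ℝ) (μn : ℕ → ℂ → ℝ) (Xn Yn gn : ℕ → ℂ → ℂ → ℂ) (X Y g : ℂ → ℂ → ℂ), Apx G k0 C μ μn Xn Yn gn X Y g →
  ∀ K : Set ℂ, IsCompact K → K ⊆ G → ∃ M : ℝ, ∀ (k c : ℂ) (A B : ℂ → ℂ), ‖c‖ = 1 → WD G (fun z => FF X Y c z k) A B →
    IntegrableOn (fun z => ‖A z‖ ^ 2 / ‖FF X Y c z k‖ ^ 2) K volume ∧ ∫ z in K, ‖A z‖ ^ 2 / ‖FF X Y c z k‖ ^ 2 ≤ M * ‖k‖ ^ 2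

/-- [d10] The class `Cl`. Proof. Continuity: `cX`. Equation: `S_dwd` (`c = 1`, `c = I`). Holomorphy for `‖z‖ > 3/4`: `μ = 0` there, `B = 0` a.e., `S_weyl` (continuous). Energy: for compact `K ⊆ G ∩ closedBall 0 R`, `R ≥ 1`: `∫_K (1-μ²)‖A‖² ≤ liminf ∫_K (1-μ_n²)‖A_n‖²` (`S_alsc`, `m_n = √(1-μ_n²)`) and `∫_{ball 0 (R+1)} (‖A_n‖²-‖B_n‖²) ≤ sup ‖F_n‖² π ‖k‖² (R+1)²`: bounded by a constant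
independent of `K`; exhaust `G ∩ closedBall 0 R` by compact sets (monotone convergence; `‖A‖² - ‖B‖² = (1-μ²)‖A‖² ≥ 0` a.e. on `G`). -/
def S_dcl : Prop := ∀ (G : Set ℂ) (k0 C : ℝ) (μ : ℂ → ℝ) (μn : ℕ → ℂ → ℝ) (Xn Yn gn : ℕ → ℂ → ℂ → ℂ) (X Y g : ℂ → ℂ → ℂ), Apx G k0 C μ μn Xn Yn gn X Y g →
  ∀ k, Cl G μ (fun z => X z k) ∧ Cl G μ (fun z => Y z k)

/-- [d11] The degree bound. Proof. `g_n(·,k)`: `WD univ (g_n) (A_n/X_n) (B_n/X_n)` (`S_bwlog`), bounded in `L²(K)` (as `A_n`; `X_n` is bounded below), `S_awlim` gives weak convergence to the derivatives of `g` (unique a.e. by `S_wuniq`), `S_bdeglim`, and `deg` for `g_n` (the same `η`, `ψ`; `RTF G η` implies `RTF univ η`). -/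
def S_ddeg : Prop := ∀ (G : Set ℂ) (k0 C : ℝ) (μ : ℂ → ℝ) (μn : ℕ → ℂ → ℝ) (Xn Yn gn : ℕ → ℂ → ℂ → ℂ) (X Y g : ℂ → ℂ → ℂ), Apx G k0 C μ μn Xn Yn gn X Y g →
  ∀ k : ℂ, k ≠ 0 → ∀ A B : ℂ → ℂ, WD G (fun z => g z k) A B → ∀ η ψ : ℂ → ℝ, RTF G η → (∀ z, 0 ≤ η z ∧ η z ≤ 1) →
    RTF univ ψ → (∀ z, 0 ≤ ψ z) → ∫ z, η z * ψ (g z k) * (‖A z‖ ^ 2 - ‖B z‖ ^ 2) ≤ ∫ z, ψ z

/-- [d12] Convergence of `Lam_θ`. Proof. `Lam` is a continuous function of `(X, Y, g)` as long as `X ≠ 0`, `Im (Y/X) > 0` (then the arguments of the two logarithms have positive real part, `S_calg`; `S_dbd`). -/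
def S_dLL : Prop := ∀ (G : Set ℂ) (k0 C : ℝ) (μ : ℂ → ℝ) (μn : ℕ → ℂ → ℝ) (Xn Yn gn : ℕ → ℂ → ℂ → ℂ) (X Y g : ℂ → ℂ → ℂ), Apx G k0 C μ μn Xn Yn gn X Y g →
  ∀ θ : ℝ, 0 ≤ θ → θ ≤ Real.pi / 2 → ∀ z ∈ G, ∀ k, Tendsto (fun n => Lam (Xn n) (Yn n) (gn n) θ z k) atTop (𝓝 (Lam X Y g θ z k))

/-- [d16] The equation in `k` in the limit. Proof. For `C¹` functions the classical equation `2 db h = cA + cB e^{-2i Im h}` implies `KE` (integration by parts). `cA X_n Y_n k → cA X Y k`, `cB` likewise, pointwise (uniform convergence of `X_n, Y_n` on `{‖z‖ = 2} × {k}`), bounded for `k` in a bounded set (`S_dcab`); `Lam_n(z,·) → Lam(z,·)` pointwise (`S_dLL`) and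
bounded on bounded sets of `k` (`S_calg` with `m = e^{-C(1+‖k‖)(1+‖z‖)}`, `bd`): dominated convergence in both sides of `KE`. -/
def S_dkeq : Prop := ∀ (G : Set ℂ) (k0 C : ℝ) (μ : ℂ → ℝ) (μn : ℕ → ℂ → ℝ) (Xn Yn gn : ℕ → ℂ → ℂ → ℂ) (X Y g : ℂ → ℂ → ℂ), Apx G k0 C μ μn Xn Yn gn X Y g →
  ∀ θ : ℝ, 0 ≤ θ → θ ≤ Real.pi / 2 → ∀ z ∈ G, KE (cA X Y) (cB X Y) (fun k => Lam X Y g θ z k)

/-- [d17] Existence of the limit structure. Proof. `S_dapx`, then the fields of `LS` are `S_dbd`, `S_dcl`, `S_den`, `S_ddeg`, `S_dkeq`. -/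
def S_exLS : Prop := ∀ (G : Set ℂ) (k0 : ℝ) (μ : ℂ → ℝ), Adm G k0 μ → ∃ X Y g : ℂ → ℂ → ℂ, LS G μ X Y g

end

end Cal
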