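import Pool.Agent.Lib.MP_4ea4c7_an.Stm2
import Pool.Agent.Lib.MP_4ea4c7_an.StmH6

/-!
# MP_4ea4c7_an, stage 2, piece [d3]: local energy and equicontinuity where `|μ| ≤ q < 1`
-/

open MeasureTheory Complex Metric Set Filter Topology
open scoped ComplexConjugate ENNReal NNReal

namespace Cal

private lemma dloc_cont {C : ℝ} {μ : ℂ → ℝ} {X Y g : ℂ → ℂ → ℂ} (hS : SLS C μ X Y g) (k c : ℂ) :
    Continuous (fun z => FF X Y c z k) := by
  have h1 : Continuous (fun z => X z k) := hS.cX.comp (continuous_id.prodMk continuous_const)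
  have h2 : Continuous (fun z => Y z k) := hS.cY.comp (continuous_id.prodMk continuous_const)
  unfold FF
  exact (continuous_const.mul h1).add (continuous_const.mul h2)

private lemma dloc_wd (h4 : S_basic) {C : ℝ} {μ : ℂ → ℝ} {X Y g : ℂ → ℂ → ℂ} (hS : SLS C μ X Y g) (k c : ℂ) :
    ∃ A B : ℂ → ℂ, WD univ (fun z => FF X Y c z k) A B ∧ ∀ᵐ z, B z = (μ z : ℂ) * conj (A z) := by
  obtain ⟨⟨A1, B1, w1, e1⟩, ⟨A2, B2, w2, e2⟩⟩ := hS.sol k
  rw [Measure.restrict_univ] at e1 e2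
  refine ⟨_, _, h4.1 univ _ _ _ _ _ _ (h4.2.1 univ _ _ _ (c.re : ℂ) w1) (h4.2.1 univ _ _ _ (c.im : ℂ) w2), ?_⟩
  filter_upwards [e1, e2] with z h1 h2
  rw [h1, h2]
  simp only [map_add, map_mul, Complex.conj_ofReal]
  ring

private lemma dloc_ae (h4 : S_basic) (h6 : S_wuniq) {C : ℝ} {μ : ℂ → ℝ} {X Y g : ℂ → ℂ → ℂ} (hS : SLS C μ X Y g)
    (k c : ℂ) (A B : ℂ → ℂ) (hAB : WD univ (fun z => FF X Y c z k) A B) :
    ∀ᵐ z, B z = (μ z : ℂ) * conj (A z) := by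
  obtain ⟨A', B', w, e⟩ := dloc_wd h4 hS k c
  obtain ⟨ha, hb⟩ := h6 univ _ _ _ _ _ _ isOpen_univ hAB w (ae_eq_refl _)
  rw [Measure.restrict_univ] at ha hb
  filter_upwards [ha, hb, e] with z h1 h2 h3
  rw [h1, h2, h3]

private lemma dloc_ne {C : ℝ} {μ : ℂ → ℝ} {X Y g : ℂ → ℂ → ℂ} (hS : SLS C μ X Y g) (z k c : ℂ) (hc : ‖c‖ = 1) :
    0 < ‖FF X Y c z k‖ :=
  lt_of_lt_of_le (Real.exp_pos _) (hS.bd z k c hc).1

private lemma dloc_en {C k0 q ρ : ℝ} {z0 : ℂ} (hq0 : 0 ≤ q) (hq1 : q < 1) (hρ : 0 < ρ) (hk0 : k0 < 1)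
    {μ : ℂ → ℝ} {X Y g : ℂ → ℂ → ℂ} (hμ : SMu k0 μ) (hS : SLS C μ X Y g) (hq : ∀ z ∈ ball z0 ρ, |μ z| ≤ q)
    (k c : ℂ) (hc : ‖c‖ = 1) (A B : ℂ → ℂ) (hAB : WD univ (fun z => FF X Y c z k) A B)
    (hB : ∀ᵐ z, B z = (μ z : ℂ) * conj (A z)) :
    IntegrableOn (fun z => ‖A z‖ ^ 2) (ball z0 ρ) volume ∧
    IntegrableOn (fun z => ‖A z‖ ^ 2 / ‖FF X Y c z k‖ ^ 2) (ball z0 ρ) volume ∧
    ∫ z in ball z0 ρ, ‖A z‖ ^ 2 / ‖FF X Y c z k‖ ^ 2 ≤ Real.pi * (‖z0‖ + ρ + 1) ^ 2 / (1 - q ^ 2) * ‖k‖ ^ 2 := by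
  have hF := dloc_cont hS k c
  have hA2 := hAB.A2 (closedBall z0 ρ) (isCompact_closedBall _ _) (subset_univ _)
  have i1 : IntegrableOn (fun z => ‖A z‖ ^ 2) (closedBall z0 ρ) volume :=
    (memLp_two_iff_integrable_sq_norm hA2.1).1 hA2
  have hsub : ball z0 ρ ⊆ closedBall z0 ρ := ball_subset_closedBall
  have hcinv : ContinuousOn (fun z => (‖FF X Y c z k‖ ^ 2)⁻¹) (closedBall z0 ρ) := by
    apply ContinuousOn.inv₀ (hF.norm.pow 2).continuousOn
    intro z _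
    exact pow_ne_zero 2 (dloc_ne hS z k c hc).ne'
  have i2 : IntegrableOn (fun z => ‖A z‖ ^ 2 / ‖FF X Y c z k‖ ^ 2) (closedBall z0 ρ) volume := by
    have := i1.mul_continuousOn hcinv (isCompact_closedBall _ _)
    simpa only [div_eq_mul_inv] using this
  refine ⟨i1.mono_set hsub, i2.mono_set hsub, ?_⟩
  have hr1 : (1 : ℝ) ≤ ‖z0‖ + ρ + 1 := by
    have := norm_nonneg z0
    linarith
  obtain ⟨i3, hle⟩ := hS.en (‖z0‖ + ρ + 1) k c A B hr1 hc hAB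
  have hbs : ball z0 ρ ⊆ ball (0 : ℂ) (‖z0‖ + ρ + 1) := by
    intro z hz
    simp only [mem_ball, dist_zero_right] at hz ⊢
    have h1 : ‖z‖ ≤ ‖z - z0‖ + ‖z0‖ := by
      have := norm_add_le (z - z0) z0
      simpa using this
    rw [dist_eq_norm] at hz
    linarith
  have hnn : ∀ᵐ z ∂(volume.restrict (ball (0 : ℂ) (‖z0‖ + ρ + 1))), (0 : ℝ) ≤ (‖A z‖ ^ 2 - ‖B z‖ ^ 2) / ‖FF X Y c z k‖ ^ 2 := by
    filter_upwards [ae_restrict_of_ae hB] with z hz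
    have h1 : ‖B z‖ = |μ z| * ‖A z‖ := by
      rw [hz, norm_mul, Complex.norm_real, RCLike.norm_conj, Real.norm_eq_abs]
    have h2 : |μ z| ≤ 1 := by
      rw [abs_le]
      exact ⟨by linarith [hμ.lo z], (hμ.hi z).le⟩
    have h3 : ‖B z‖ ≤ ‖A z‖ := by
      rw [h1]
      have := norm_nonneg (A z)
      nlinarith
    have h4 : ‖B z‖ ^ 2 ≤ ‖A z‖ ^ 2 := by
      have := norm_nonneg (B z)
      nlinarith
    apply div_nonneg
    · linarith
    · positivity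
  have s1 : ∫ z in ball z0 ρ, (‖A z‖ ^ 2 - ‖B z‖ ^ 2) / ‖FF X Y c z k‖ ^ 2 ≤
      ∫ z in ball (0 : ℂ) (‖z0‖ + ρ + 1), (‖A z‖ ^ 2 - ‖B z‖ ^ 2) / ‖FF X Y c z k‖ ^ 2 :=
    setIntegral_mono_set i3 hnn (Eventually.of_forall hbs)
  have s2 : ∫ z in ball z0 ρ, (1 - q ^ 2) * (‖A z‖ ^ 2 / ‖FF X Y c z k‖ ^ 2) ≤
      ∫ z in ball z0 ρ, (‖A z‖ ^ 2 - ‖B z‖ ^ 2) / ‖FF X Y c z k‖ ^ 2 := by
    apply integral_mono_ae
    · exact (i2.mono_set hsub).const_mul _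
    · exact i3.mono_set hbs
    · filter_upwards [ae_restrict_of_ae hB, ae_restrict_mem measurableSet_ball] with z hz hzb
      have h1 : ‖B z‖ = |μ z| * ‖A z‖ := by
        rw [hz, norm_mul, Complex.norm_real, RCLike.norm_conj, Real.norm_eq_abs]
      have h2 := hq z hzb
      have h3 : ‖B z‖ ^ 2 ≤ q ^ 2 * ‖A z‖ ^ 2 := by
        rw [h1, mul_pow]
        apply mul_le_mul_of_nonneg_right _ (by positivity)
        exact pow_le_pow_left₀ (abs_nonneg _) h2 2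
      rw [← mul_div_assoc]
      apply div_le_div_of_nonneg_right _ (by positivity)
      linarith
  rw [integral_const_mul] at s2
  have hpos : 0 < 1 - q ^ 2 := by nlinarith
  have s3 : (1 - q ^ 2) * ∫ z in ball z0 ρ, ‖A z‖ ^ 2 / ‖FF X Y c z k‖ ^ 2 ≤ Real.pi * ‖k‖ ^ 2 * (‖z0‖ + ρ + 1) ^ 2 :=
    s2.trans (s1.trans hle)
  have s4 : Real.pi * (‖z0‖ + ρ + 1) ^ 2 / (1 - q ^ 2) * ‖k‖ ^ 2 = (Real.pi * ‖k‖ ^ 2 * (‖z0‖ + ρ + 1) ^ 2) / (1 - q ^ 2) := by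
    ring
  rw [s4, le_div_iff₀ hpos]
  linarith

private lemma dloc_A {C k0 R q ρ : ℝ} {z0 : ℂ} (hC : 0 ≤ C) (hq0 : 0 ≤ q) (hq1 : q < 1) (hρ : 0 < ρ) (hk0 : k0 < 1)
    {μ : ℂ → ℝ} {X Y g : ℂ → ℂ → ℂ} (hμ : SMu k0 μ) (hS : SLS C μ X Y g) (hq : ∀ z ∈ ball z0 ρ, |μ z| ≤ q)
    (k c : ℂ) (hk : ‖k‖ ≤ R) (hc : ‖c‖ = 1) (A B : ℂ → ℂ) (hAB : WD univ (fun z => FF X Y c z k) A B)
    (hB : ∀ᵐ z, B z = (μ z : ℂ) * conj (A z)) :
    ∫ z in ball z0 ρ, ‖A z‖ ^ 2 ≤ Real.exp (C * (1 + R) * (1 + (‖z0‖ + ρ + 1))) ^ 2 *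
      (Real.pi * (‖z0‖ + ρ + 1) ^ 2 / (1 - q ^ 2) * R ^ 2) := by
  obtain ⟨i1, i2, hle⟩ := dloc_en hq0 hq1 hρ hk0 hμ hS hq k c hc A B hAB hB
  have hR : 0 ≤ R := (norm_nonneg k).trans hk
  have hz0 := norm_nonneg z0
  have s1 : ∫ z in ball z0 ρ, ‖A z‖ ^ 2 ≤ ∫ z in ball z0 ρ,
      Real.exp (C * (1 + R) * (1 + (‖z0‖ + ρ + 1))) ^ 2 * (‖A z‖ ^ 2 / ‖FF X Y c z k‖ ^ 2) := by
    apply integral_mono_ae i1 (i2.const_mul _)
    filter_upwards [ae_restrict_mem measurableSet_ball] with z hz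
    have hne := dloc_ne hS z k c hc
    have hzn : ‖z‖ ≤ ‖z0‖ + ρ + 1 := by
      have h1 : ‖z‖ ≤ ‖z - z0‖ + ‖z0‖ := by
        have := norm_add_le (z - z0) z0
        simpa using this
      have h2 : ‖z - z0‖ < ρ := by
        rw [← dist_eq_norm]
        exact hz
      linarith
    have hbd := (hS.bd z k c hc).2.1
    have hE : ‖FF X Y c z k‖ ≤ Real.exp (C * (1 + R) * (1 + (‖z0‖ + ρ + 1))) := by
      refine hbd.trans (Real.exp_le_exp.mpr ?_)
      apply mul_le_mul _ (by linarith) (by positivity) (by positivity)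
      apply mul_le_mul_of_nonneg_left (by linarith) hC
    have h3 : ‖A z‖ ^ 2 = ‖FF X Y c z k‖ ^ 2 * (‖A z‖ ^ 2 / ‖FF X Y c z k‖ ^ 2) := by
      field_simp
    calc ‖A z‖ ^ 2 = ‖FF X Y c z k‖ ^ 2 * (‖A z‖ ^ 2 / ‖FF X Y c z k‖ ^ 2) := h3
      _ ≤ _ := by
        apply mul_le_mul_of_nonneg_right _ (by positivity)
        exact pow_le_pow_left₀ (norm_nonneg _) hE 2
  rw [integral_const_mul] at s1
  refine s1.trans ?_
  apply mul_le_mul_of_nonneg_left _ (by positivity)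
  refine hle.trans ?_
  have hpos : 0 < 1 - q ^ 2 := by nlinarith
  apply mul_le_mul_of_nonneg_left _ (by positivity)
  exact pow_le_pow_left₀ (norm_nonneg _) hk 2

private lemma dloc_cl (h2 : S_amp) (h3 : S_CL) {q ρ M ε : ℝ} {z0 : ℂ} (hq1 : q < 1) (hρ : 0 < ρ) (hε : 0 < ε) {μ : ℂ → ℝ}
    (hq : ∀ z ∈ ball z0 ρ, |μ z| ≤ q) (f A B : ℂ → ℂ) (hf : Continuous f) (hAB : WD (ball z0 ρ) f A B)
    (hB : ∀ᵐ z ∂(volume.restrict (ball z0 ρ)), ‖B z‖ = |μ z| * ‖A z‖)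
    (hi : IntegrableOn (fun z => ‖A z‖ ^ 2) (ball z0 ρ) volume) (hM : ∫ z in ball z0 ρ, ‖A z‖ ^ 2 ≤ M)
    (z : ℂ) (hz : ‖z - z0‖ < ρ * Real.exp (-(128 * |M| / ε ^ 2 + 1))) : ‖f z - f z0‖ ≤ ε := by
  have hmp : MPP z0 ρ f := by
    apply h2 z0 ρ f A B hf.continuousOn hAB
    filter_upwards [hB, ae_restrict_mem measurableSet_ball] with z hz hzb
    have h2' := hq z hzb
    have hA := norm_nonneg (A z)
    have h0 := abs_nonneg (μ z)
    refine ⟨by rw [hz]; nlinarith, ?_⟩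
    intro he
    rw [he] at hz
    by_contra hne
    have hApos : 0 < ‖A z‖ := norm_pos_iff.mpr hne
    nlinarith
  have hle : ∀ᵐ z ∂(volume.restrict (ball z0 ρ)), ‖B z‖ ^ 2 ≤ ‖A z‖ ^ 2 := by
    filter_upwards [hB, ae_restrict_mem measurableSet_ball] with z hz hzb
    have h2' := hq z hzb
    have hA := norm_nonneg (A z)
    have h0 := abs_nonneg (μ z)
    rw [hz, mul_pow]
    have h5 : |μ z| ^ 2 ≤ 1 := by nlinarith
    have h6 : 0 ≤ ‖A z‖ ^ 2 := by positivity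
    nlinarith
  have hB2 : IntegrableOn (fun z => ‖B z‖ ^ 2) (ball z0 ρ) volume := by
    have hmeas : AEStronglyMeasurable (fun z => ‖B z‖ ^ 2) (volume.restrict (ball z0 ρ)) := by
      have hBm : AEStronglyMeasurable B (volume.restrict (ball z0 ρ)) := by
        have hcov : ball z0 ρ = ⋃ n : ℕ, closedBall z0 (ρ - 1 / ((n : ℝ) + 1)) := by
          ext w
          simp only [mem_ball, mem_iUnion, mem_closedBall]
          constructor
          · intro hw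
            obtain ⟨n, hn⟩ := exists_nat_one_div_lt (sub_pos.mpr hw)
            exact ⟨n, by linarith⟩
          · rintro ⟨n, hn⟩
            have : (0 : ℝ) < 1 / ((n : ℝ) + 1) := by positivity
            linarith
        rw [hcov]
        apply AEStronglyMeasurable.iUnion
        intro n
        have : closedBall z0 (ρ - 1 / ((n : ℝ) + 1)) ⊆ ball z0 ρ := by
          apply closedBall_subset_ball
          have : (0 : ℝ) < 1 / ((n : ℝ) + 1) := by positivity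
          linarith
        exact (hAB.B2 _ (isCompact_closedBall _ _) this).1
      exact hBm.norm.pow 2
    refine Integrable.mono' hi hmeas ?_
    filter_upwards [hle] with z hz
    rw [Real.norm_of_nonneg (by positivity)]
    exact hz
  have hsum : ∫ z in ball z0 ρ, (‖A z‖ ^ 2 + ‖B z‖ ^ 2) ≤ 2 * |M| := by
    have h1 : ∫ z in ball z0 ρ, (‖A z‖ ^ 2 + ‖B z‖ ^ 2) ≤ ∫ z in ball z0 ρ, 2 * ‖A z‖ ^ 2 := by
      apply integral_mono_ae (hi.add hB2) (hi.const_mul 2)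
      filter_upwards [hle] with z hz
      show ‖A z‖ ^ 2 + ‖B z‖ ^ 2 ≤ 2 * ‖A z‖ ^ 2
      linarith
    rw [integral_const_mul] at h1
    have := le_abs_self M
    linarith
  have hexp : 0 < Real.exp (-(128 * |M| / ε ^ 2 + 1)) := Real.exp_pos _
  have hδρ : ρ * Real.exp (-(128 * |M| / ε ^ 2 + 1)) < ρ := by
    have h1 : Real.exp (-(128 * |M| / ε ^ 2 + 1)) < 1 := by
      rw [Real.exp_lt_one_iff]
      have : 0 ≤ 128 * |M| / ε ^ 2 := by positivity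
      linarith
    nlinarith
  have hfin := h3 z0 ρ (2 * |M|) f A B hf.continuousOn hAB (hi.add hB2) hsum hmp
    (ρ * Real.exp (-(128 * |M| / ε ^ 2 + 1))) (by positivity) hδρ z (by
      simp only [mem_closedBall, dist_eq_norm]
      exact hz.le)
  refine hfin.trans ?_
  have hlog : Real.log (ρ / (ρ * Real.exp (-(128 * |M| / ε ^ 2 + 1)))) = 128 * |M| / ε ^ 2 + 1 := by
    have h1 : ρ / (ρ * Real.exp (-(128 * |M| / ε ^ 2 + 1))) = Real.exp (128 * |M| / ε ^ 2 + 1) := by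
      rw [Real.exp_neg]
      field_simp
    rw [h1, Real.log_exp]
  rw [hlog]
  have hden : 0 < 128 * |M| / ε ^ 2 + 1 := by positivity
  have h5 : 2 * |M| / (128 * |M| / ε ^ 2 + 1) ≤ (ε / 8) ^ 2 := by
    rw [div_le_iff₀ hden]
    have h6 : (ε / 8) ^ 2 * (128 * |M| / ε ^ 2 + 1) = 2 * |M| + (ε / 8) ^ 2 := by
      field_simp
      ring
    rw [h6]
    have : 0 ≤ (ε / 8) ^ 2 := by positivity
    linarith
  have h7 : Real.sqrt (2 * |M| / (128 * |M| / ε ^ 2 + 1)) ≤ ε / 8 := by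
    rw [← Real.sqrt_sq (show (0 : ℝ) ≤ ε / 8 by positivity)]
    exact Real.sqrt_le_sqrt h5
  linarith

theorem piece_dloc (h1 : S_bwlog) (h2 : S_amp) (h3 : S_CL) (h4 : S_basic) (_h5 : S_smooth) (h6 : S_wuniq) : S_dloc := by
  intro C k0 R q ρ z0 hC hk00 hk0 hq1 hρ
  have hz0 := norm_nonneg z0
  have hq0 : ∀ μ : ℂ → ℝ, (∀ z ∈ ball z0 ρ, |μ z| ≤ q) → 0 ≤ q := fun μ h => (abs_nonneg _).trans (h z0 (mem_ball_self hρ))
  set M1 : ℝ := Real.pi * (‖z0‖ + ρ + 1) ^ 2 / (1 - q ^ 2) with hM1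
  set M2 : ℝ := Real.exp (C * (1 + R) * (1 + (‖z0‖ + ρ + 1))) ^ 2 * (M1 * R ^ 2) with hM2
  have hM1p : 0 ≤ q → 0 ≤ M1 := by
    intro h
    have hpos : 0 < 1 - q ^ 2 := by nlinarith
    positivity
  have hM2p : 0 ≤ q → 0 ≤ M2 := by
    intro h
    have := hM1p h
    positivity
  constructor
  · refine ⟨M1 + M2, ?_⟩
    intro μ X Y g hμ hS hq k c hk hc A B hAB
    have hq00 := hq0 μ hq
    have hB := dloc_ae h4 h6 hS k c A B hAB
    obtain ⟨i1, i2, hle⟩ := dloc_en hq00 hq1 hρ hk0 hμ hS hq k c hc A B hAB hB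
    have hA := dloc_A hC hq00 hq1 hρ hk0 hμ hS hq k c hk hc A B hAB hB
    refine ⟨i1, ?_, ?_⟩
    · have := hM1p hq00
      linarith
    · refine hle.trans ?_
      apply mul_le_mul_of_nonneg_right _ (by positivity)
      have := hM2p hq00
      linarith
  · intro ε hε
    refine ⟨min (ρ * Real.exp (-(128 * |M2| / ε ^ 2 + 1))) (ρ * Real.exp (-(128 * |M1 * R ^ 2| / ε ^ 2 + 1))), ?_, ?_⟩
    · have h1 := Real.exp_pos (-(128 * |M2| / ε ^ 2 + 1))
      have h2 := Real.exp_pos (-(128 * |M1 * R ^ 2| / ε ^ 2 + 1))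
      exact lt_min (by positivity) (by positivity)
    · intro μ X Y g hμ hS hq k c hk hc z hz
      have hq00 := hq0 μ hq
      have hR : 0 ≤ R := (norm_nonneg k).trans hk
      constructor
      · obtain ⟨A, B, hAB, hB⟩ := dloc_wd h4 hS k c
        obtain ⟨i1, i2, hle⟩ := dloc_en hq00 hq1 hρ hk0 hμ hS hq k c hc A B hAB hB
        have hA := dloc_A hC hq00 hq1 hρ hk0 hμ hS hq k c hk hc A B hAB hB
        refine dloc_cl h2 h3 hq1 hρ hε hq (fun z => FF X Y c z k) A B (dloc_cont hS k c)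
          (h4.2.2.2.2.1 univ (ball z0 ρ) _ _ _ (subset_univ _) hAB) ?_ i1 hA z (lt_of_lt_of_le hz (min_le_left _ _))
        filter_upwards [ae_restrict_of_ae hB] with w hw
        rw [hw, norm_mul, Complex.norm_real, RCLike.norm_conj, Real.norm_eq_abs]
      · obtain ⟨A, B, hAB, hB⟩ := dloc_wd h4 hS k 1
        have hX : (fun z => FF X Y 1 z k) = fun z => exp (g z k) := by
          funext w
          rw [hS.eg]
          simp [FF]
        obtain ⟨i1, i2, hle⟩ := dloc_en hq00 hq1 hρ hk0 hμ hS hq k 1 (by simp) A B hAB hB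
        have hXw : ∀ w, FF X Y 1 w k = exp (g w k) := fun w => congrFun hX w
        have hgc : Continuous (fun z => g z k) := hS.cg.comp (continuous_id.prodMk continuous_const)
        rw [hX] at hAB
        have hwl := h1 univ (fun z => g z k) A B isOpen_univ hgc.continuousOn hAB
        have hwb := h4.2.2.2.2.1 univ (ball z0 ρ) _ _ _ (subset_univ _) hwl
        have e1 : (fun z => ‖A z / exp (g z k)‖ ^ 2) = fun z => ‖A z‖ ^ 2 / ‖FF X Y 1 z k‖ ^ 2 := by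
          funext w
          rw [hXw w, norm_div, div_pow]
        refine dloc_cl h2 h3 (M := M1 * R ^ 2) hq1 hρ hε hq (fun z => g z k) _ _ hgc hwb ?_ ?_ ?_ z
          (lt_of_lt_of_le hz (min_le_right _ _))
        · filter_upwards [ae_restrict_of_ae hB] with w hw
          rw [hw, norm_div, norm_mul, Complex.norm_real, RCLike.norm_conj, Real.norm_eq_abs, norm_div, mul_div_assoc]
        · rw [e1]
          exact i2
        · rw [e1]
          refine hle.trans ?_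
          apply mul_le_mul_of_nonneg_left _ (hM1p hq00)
          exact pow_le_pow_left₀ (norm_nonneg _) hk 2

end Cal
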