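import Pool.Agent.Lib.MP_4ea4c7_an.StmC

/-!
Piece FC2: solvability of the Dirichlet problem and uniqueness.
-/

open MeasureTheory Complex Metric Set Filter Topology
open scoped ComplexConjugate ENNReal NNReal InnerProductSpace

namespace Cal

noncomputable section

private theorem dnex_lax {H : Type*} [NormedAddCommGroup H] [InnerProductSpace ℝ H]
    [CompleteSpace H] (T : H →L[ℝ] H) {c : ℝ} (hc : 0 < c)
    (hT : ∀ a : H, c * ‖a‖ * ‖a‖ ≤ ⟪T a, a⟫_ℝ) (V : Submodule ℝ H) (hV : IsClosed (V : Set H))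
    (g : H) : ∃ z ∈ V, ∀ h ∈ V, ⟪T (g + z), h⟫_ℝ = 0 := by
  have : CompleteSpace V := hV.completeSpace_coe
  let B0 : V →ₗ[ℝ] V →ₗ[ℝ] ℝ := LinearMap.mk₂ ℝ (fun z h : V => ⟪T (z : H), (h : H)⟫_ℝ)
    (fun a b h => by simp [inner_add_left])
    (fun t a h => by simp [inner_smul_left])
    (fun a h k => by simp [inner_add_right])
    (fun t a h => by simp [inner_smul_right])
  let B : V →L[ℝ] V →L[ℝ] ℝ := LinearMap.mkContinuous₂ B0 ‖T‖ (by
    intro x y
    show ‖⟪T (x : H), (y : H)⟫_ℝ‖ ≤ ‖T‖ * ‖x‖ * ‖y‖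
    exact (norm_inner_le_norm _ _).trans
      (mul_le_mul_of_nonneg_right (T.le_opNorm _) (norm_nonneg _)))
  have hB : IsCoercive B := ⟨c, hc, fun u => hT u⟩
  let r : V := V.orthogonalProjectionOnto (-(T g))
  refine ⟨(hB.continuousLinearEquivOfBilin.symm r : V), Submodule.coe_mem _, fun h hh => ?_⟩
  have h1 := hB.continuousLinearEquivOfBilin_apply (hB.continuousLinearEquivOfBilin.symm r) ⟨h, hh⟩
  rw [ContinuousLinearEquiv.apply_symm_apply] at h1
  have h2 : ⟪(V.orthogonalProjectionOnto (-(T g)) : V), (⟨h, hh⟩ : V)⟫_ℝ = ⟪-(T g), h⟫_ℝ :=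
    Submodule.inner_orthogonalProjectionOnto_eq_of_mem_right (⟨h, hh⟩ : V) (-(T g))
  have h3 : B (hB.continuousLinearEquivOfBilin.symm r) ⟨h, hh⟩ =
      ⟪T ((hB.continuousLinearEquivOfBilin.symm r : V) : H), h⟫_ℝ := rfl
  rw [h2, h3, inner_neg_left] at h1
  rw [map_add, inner_add_left]
  linarith

private theorem ip_eq (a b : ℂ) : ip a b = ⟪a, b⟫_ℝ := by
  rw [Complex.inner]
  unfold ip
  simp only [Complex.mul_re, Complex.conj_re, Complex.conj_im]
  ring

private theorem gr_add {φ ψ : ℂ → ℝ} (hφ : Differentiable ℝ φ) (hψ : Differentiable ℝ ψ) (z : ℂ) :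
    gr (fun w => φ w + ψ w) z = gr φ z + gr ψ z := by
  unfold gr
  rw [fderiv_fun_add hφ.differentiableAt hψ.differentiableAt]
  simp only [ContinuousLinearMap.add_apply]
  push_cast
  ring

private theorem gr_smul {φ : ℂ → ℝ} (hφ : Differentiable ℝ φ) (t : ℝ) (z : ℂ) :
    gr (fun w => t * φ w) z = t * gr φ z := by
  unfold gr
  rw [fderiv_const_mul hφ.differentiableAt]
  simp only [ContinuousLinearMap.smul_apply, smul_eq_mul]
  push_cast
  ring

private theorem gr_zero (z : ℂ) : gr (fun _ => 0) z = 0 := by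
  unfold gr
  simp

private theorem rtf_diff {Ω : Set ℂ} {φ : ℂ → ℝ} (h : RTF Ω φ) : Differentiable ℝ φ :=
  h.1.differentiable (by norm_num)

private theorem gr_memLp {Ω : Set ℂ} {φ : ℂ → ℝ} (h : RTF Ω φ) (μ : Measure ℂ)
    [IsFiniteMeasureOnCompacts μ] : MemLp (gr φ) 2 μ := by
  have h1 : Continuous (fderiv ℝ φ) := (h.1.of_le (by exact_mod_cast le_top :
    (1 : WithTop ℕ∞) ≤ ((⊤ : ℕ∞) : WithTop ℕ∞))).continuous_fderiv (by norm_num)
  have h2 : Continuous (gr φ) := by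
    unfold gr
    fun_prop
  refine h2.memLp_of_hasCompactSupport ?_
  have h3 : HasCompactSupport (fderiv ℝ φ) := h.2.1.fderiv (𝕜 := ℝ)
  refine h3.mono ?_
  intro z hz
  rw [Function.mem_support] at hz ⊢
  intro h4
  apply hz
  unfold gr
  rw [h4]
  simp

/-- the subspace of the gradients of test functions -/
private def S0 (Ω : Set ℂ) : Submodule ℝ (Lp ℂ 2 (volume.restrict Ω)) where
  carrier := {a | ∃ φ, RTF Ω φ ∧ (a : ℂ → ℂ) =ᵐ[volume.restrict Ω] gr φ}
  add_mem' := by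
    rintro a b ⟨φ, hφ, ha⟩ ⟨ψ, hψ, hb⟩
    refine ⟨fun w => φ w + ψ w, ⟨hφ.1.add hψ.1, hφ.2.1.add hψ.2.1,
      (tsupport_add φ ψ).trans (union_subset hφ.2.2 hψ.2.2)⟩, ?_⟩
    filter_upwards [Lp.coeFn_add a b, ha, hb] with z h1 h2 h3
    rw [h1, Pi.add_apply, h2, h3, gr_add (rtf_diff hφ) (rtf_diff hψ)]
  zero_mem' := by
    refine ⟨fun _ => 0, ⟨contDiff_const, HasCompactSupport.zero, ?_⟩, ?_⟩
    · have : tsupport (fun _ : ℂ => (0 : ℝ)) = ∅ := by
        rw [tsupport_eq_empty_iff]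
        rfl
      rw [this]
      exact empty_subset _
    · filter_upwards [Lp.coeFn_zero ℂ 2 (volume.restrict Ω)] with z h1
      rw [h1, gr_zero]
      rfl
  smul_mem' := by
    rintro t a ⟨φ, hφ, ha⟩
    refine ⟨fun w => t * φ w, ⟨contDiff_const.mul hφ.1, hφ.2.1.mul_left, ?_⟩, ?_⟩
    · exact (tsupport_mul_subset_right (f := fun _ => t) (g := φ)).trans hφ.2.2
    · filter_upwards [Lp.coeFn_smul t a, ha] with z h1 h2
      rw [h1, Pi.smul_apply, h2, gr_smul (rtf_diff hφ)]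
      rfl

private theorem z0_iff {Ω : Set ℂ} {G : ℂ → ℂ} (hG : MemLp G 2 (volume.restrict Ω)) :
    Z0 Ω G ↔ hG.toLp G ∈ (S0 Ω).topologicalClosure := by
  rw [← SetLike.mem_coe, Submodule.topologicalClosure_coe, Metric.mem_closure_iff]
  constructor
  · rintro ⟨-, h⟩ ε hε
    obtain ⟨φ, hφ, h1⟩ := h ε hε
    refine ⟨(gr_memLp hφ _).toLp (gr φ), ⟨φ, hφ, MemLp.coeFn_toLp _⟩, ?_⟩
    rw [← edist_lt_ofReal, Lp.edist_toLp_toLp]
    exact h1
  · intro h
    refine ⟨hG, fun ε hε => ?_⟩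
    obtain ⟨b, ⟨φ, hφ, hb⟩, h1⟩ := h ε hε
    refine ⟨φ, hφ, ?_⟩
    have h2 : b = (gr_memLp hφ _).toLp (gr φ) := by
      apply Lp.ext
      exact hb.trans (MemLp.coeFn_toLp _).symm
    rw [h2, ← edist_lt_ofReal, Lp.edist_toLp_toLp] at h1
    exact h1

private theorem mul_memLp {c C : ℝ} (hc : 0 < c) {γ : ℂ → ℝ} (hγ : Cond c C γ) {μ : Measure ℂ}
    {G : ℂ → ℂ} (hG : MemLp G 2 μ) : MemLp (fun z => (γ z : ℂ) * G z) 2 μ := by
  refine MemLp.of_le_mul (c := C) hG ?_ ?_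
  · exact (Complex.continuous_ofReal.measurable.comp hγ.meas).aestronglyMeasurable.mul
      hG.aestronglyMeasurable
  · refine Filter.Eventually.of_forall fun z => ?_
    rw [norm_mul, Complex.norm_real, Real.norm_eq_abs, abs_of_nonneg (hc.le.trans (hγ.lo z))]
    exact mul_le_mul_of_nonneg_right (hγ.hi z) (norm_nonneg _)

/-- multiplication by the coefficient -/
private def TL {c C : ℝ} (hc : 0 < c) {γ : ℂ → ℝ} (hγ : Cond c C γ) (μ : Measure ℂ) :
    Lp ℂ 2 μ →L[ℝ] Lp ℂ 2 μ :=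
  LinearMap.mkContinuous
    { toFun := fun a => (mul_memLp hc hγ (Lp.memLp a)).toLp _
      map_add' := by
        intro a b
        apply Lp.ext
        filter_upwards [(mul_memLp hc hγ (Lp.memLp (a + b))).coeFn_toLp,
          (mul_memLp hc hγ (Lp.memLp a)).coeFn_toLp, (mul_memLp hc hγ (Lp.memLp b)).coeFn_toLp,
          Lp.coeFn_add a b,
          Lp.coeFn_add ((mul_memLp hc hγ (Lp.memLp a)).toLp _)
            ((mul_memLp hc hγ (Lp.memLp b)).toLp _)] with z h1 h2 h3 h4 h5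
        rw [h1, h5, Pi.add_apply, h2, h3, h4, Pi.add_apply]
        ring
      map_smul' := by
        intro t a
        apply Lp.ext
        filter_upwards [(mul_memLp hc hγ (Lp.memLp (t • a))).coeFn_toLp,
          (mul_memLp hc hγ (Lp.memLp a)).coeFn_toLp,
          Lp.coeFn_smul t a,
          Lp.coeFn_smul t ((mul_memLp hc hγ (Lp.memLp a)).toLp _)] with z h1 h2 h4 h5
        rw [h1, RingHom.id_apply, h5, Pi.smul_apply, h2, h4, Pi.smul_apply, mul_smul_comm] }
    C (by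
      intro a
      apply Lp.norm_le_mul_norm_of_ae_le_mul
      filter_upwards [(mul_memLp hc hγ (Lp.memLp a)).coeFn_toLp] with z h1
      show ‖((mul_memLp hc hγ (Lp.memLp a)).toLp _ : ℂ → ℂ) z‖ ≤ _
      rw [h1, norm_mul, Complex.norm_real, Real.norm_eq_abs,
        abs_of_nonneg (hc.le.trans (hγ.lo z))]
      exact mul_le_mul_of_nonneg_right (hγ.hi z) (norm_nonneg _))

private theorem TL_inner {c C : ℝ} (hc : 0 < c) {γ : ℂ → ℝ} (hγ : Cond c C γ) (μ : Measure ℂ)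
    (a b : Lp ℂ 2 μ) :
    ⟪TL hc hγ μ a, b⟫_ℝ = ∫ z, γ z * ip (a z) (b z) ∂μ := by
  rw [L2.inner_def]
  refine integral_congr_ae ?_
  filter_upwards [(mul_memLp hc hγ (Lp.memLp a)).coeFn_toLp] with z h1
  have h2 : (TL hc hγ μ a : ℂ → ℂ) z = (γ z : ℂ) * a z := h1
  rw [h2, ip_eq]
  have h3 : (γ z : ℂ) * a z = (γ z) • (a z : ℂ) := by simp
  rw [h3, real_inner_smul_left]

private theorem TL_coer {c C : ℝ} (hc : 0 < c) {γ : ℂ → ℝ} (hγ : Cond c C γ) (μ : Measure ℂ)
    (a : Lp ℂ 2 μ) : c * ‖a‖ * ‖a‖ ≤ ⟪TL hc hγ μ a, a⟫_ℝ := by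
  have h1 : c * ‖a‖ * ‖a‖ = ∫ z, c * ip (a z) (a z) ∂μ := by
    rw [integral_const_mul]
    have h2 : ∫ z, ip (a z) (a z) ∂μ = ⟪a, a⟫_ℝ := by
      rw [L2.inner_def]
      refine integral_congr_ae (Filter.Eventually.of_forall fun z => ?_)
      exact ip_eq _ _
    rw [h2, real_inner_self_eq_norm_mul_norm, mul_assoc]
  rw [h1, TL_inner]
  have hint : Integrable (fun z => ip (a z) (a z)) μ := by
    have := L2.integrable_inner (𝕜 := ℝ) a a
    refine this.congr (Filter.Eventually.of_forall fun z => ?_)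
    exact (ip_eq _ _).symm
  have hint2 : Integrable (fun z => γ z * ip (a z) (a z)) μ := by
    have := L2.integrable_inner (𝕜 := ℝ) (TL hc hγ μ a) a
    refine this.congr ?_
    filter_upwards [(mul_memLp hc hγ (Lp.memLp a)).coeFn_toLp] with z h1
    have h2 : (TL hc hγ μ a : ℂ → ℂ) z = (γ z : ℂ) * a z := h1
    rw [h2, ip_eq]
    have h3 : (γ z : ℂ) * a z = (γ z) • (a z : ℂ) := by simp
    rw [h3, real_inner_smul_left]
  refine integral_mono (hint.const_mul c) hint2 fun z => ?_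
  have h5 : 0 ≤ ip (a z) (a z) := by
    rw [ip_eq]
    exact real_inner_self_nonneg
  exact mul_le_mul_of_nonneg_right (hγ.lo z) h5

/-- the integral in terms of the inner product -/
private theorem int_eq {c C : ℝ} (hc : 0 < c) {γ : ℂ → ℝ} (hγ : Cond c C γ) {μ : Measure ℂ}
    {G F : ℂ → ℂ} (hG : MemLp G 2 μ) (hF : MemLp F 2 μ) :
    ∫ z, γ z * ip (G z) (F z) ∂μ = ⟪TL hc hγ μ (hG.toLp G), hF.toLp F⟫_ℝ := by
  rw [TL_inner]
  refine integral_congr_ae ?_
  filter_upwards [hG.coeFn_toLp, hF.coeFn_toLp] with z h1 h2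
  rw [h1, h2]

theorem piece_dnex : S_dnex := by
  intro c C hc γ hγ Ω _ G hG
  refine ⟨?_, ?_⟩
  · obtain ⟨z, hz, hz2⟩ := dnex_lax (TL hc hγ (volume.restrict Ω)) hc (TL_coer hc hγ _)
      (S0 Ω).topologicalClosure (Submodule.isClosed_topologicalClosure _) (hG.toLp G)
    have hzm : MemLp (z : ℂ → ℂ) 2 (volume.restrict Ω) := Lp.memLp z
    refine ⟨fun x => G x + z x, ?_, hG.add hzm, ?_⟩
    · have e : (fun x => G x + z x - G x) = (z : ℂ → ℂ) := by
        funext x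
        ring
      rw [e, z0_iff hzm]
      rw [Lp.toLp_coeFn]
      exact hz
    · intro φ hφ
      have hsum : (hG.add hzm).toLp (fun x => G x + z x) = hG.toLp G + z := by
        have := MemLp.toLp_add hG hzm
        rw [Lp.toLp_coeFn] at this
        exact this
      have h1 := int_eq hc hγ (hG.add hzm) (gr_memLp hφ (volume.restrict Ω))
      have h2 : ∫ x in Ω, γ x * ip (G x + z x) (gr φ x) =
          ⟪TL hc hγ (volume.restrict Ω) (hG.toLp G + z), (gr_memLp hφ _).toLp (gr φ)⟫_ℝ := by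
        rw [← hsum]
        exact h1
      rw [h2]
      apply hz2
      apply Submodule.le_topologicalClosure
      exact ⟨φ, hφ, MemLp.coeFn_toLp _⟩
  · rintro G' G'' ⟨z1, m1, s1⟩ ⟨z2, m2, s2⟩
    obtain ⟨d, hd⟩ : ∃ d, d = m1.toLp G' - m2.toLp G'' := ⟨_, rfl⟩
    have hdV : d ∈ (S0 Ω).topologicalClosure := by
      have v1 := (z0_iff (m1.sub hG)).1 z1
      have v2 := (z0_iff (m2.sub hG)).1 z2
      have e1 : (m1.sub hG).toLp (fun x => G' x - G x) = m1.toLp G' - hG.toLp G :=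
        MemLp.toLp_sub m1 hG
      have e2 : (m2.sub hG).toLp (fun x => G'' x - G x) = m2.toLp G'' - hG.toLp G :=
        MemLp.toLp_sub m2 hG
      have v3 := Submodule.sub_mem _ v1 v2
      have e3 : (m1.sub hG).toLp (fun x => G' x - G x) - (m2.sub hG).toLp (fun x => G'' x - G x) =
          d := by
        rw [e1, e2, hd]
        abel
      rw [← e3]
      exact v3
    have horth : ∀ b ∈ (S0 Ω).topologicalClosure,
        ⟪TL hc hγ (volume.restrict Ω) d, b⟫_ℝ = 0 := by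
      have hcl : IsClosed {b : Lp ℂ 2 (volume.restrict Ω) |
          ⟪TL hc hγ (volume.restrict Ω) d, b⟫_ℝ = 0} :=
        isClosed_eq (by fun_prop) continuous_const
      intro b hb
      have hsub : ((S0 Ω : Submodule ℝ (Lp ℂ 2 (volume.restrict Ω))) :
          Set (Lp ℂ 2 (volume.restrict Ω))) ⊆ {b : Lp ℂ 2 (volume.restrict Ω) |
          ⟪TL hc hγ (volume.restrict Ω) d, b⟫_ℝ = 0} := by
        rintro b ⟨φ, hφ, hb⟩
        have h2 : b = (gr_memLp hφ (volume.restrict Ω)).toLp (gr φ) := by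
          apply Lp.ext
          exact hb.trans (MemLp.coeFn_toLp _).symm
        show ⟪TL hc hγ (volume.restrict Ω) d, b⟫_ℝ = 0
        rw [h2, hd, map_sub, inner_sub_left, ← int_eq hc hγ m1 (gr_memLp hφ _),
          ← int_eq hc hγ m2 (gr_memLp hφ _)]
        have t1 := s1 φ hφ
        have t2 := s2 φ hφ
        rw [t1, t2, sub_zero]
      exact closure_minimal hsub hcl hb
    have h1 := horth d hdV
    have h2 := TL_coer hc hγ (volume.restrict Ω) d
    rw [h1] at h2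
    have h3 : ‖d‖ = 0 := by
      by_contra hne
      have h4 : 0 < ‖d‖ := lt_of_le_of_ne (norm_nonneg _) (Ne.symm hne)
      have : 0 < c * ‖d‖ * ‖d‖ := by positivity
      linarith
    rw [norm_eq_zero, hd, sub_eq_zero] at h3
    exact (MemLp.toLp_eq_toLp_iff m1 m2).1 h3

end

end Cal
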