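import Pool.Agent.Lib.MP_4ea4c7_an.StmH6

/-! [CH d7] Weak derivatives in the limit. -/

open MeasureTheory Complex Metric Set Filter Topology
open scoped ComplexConjugate ENNReal NNReal

namespace Cal

noncomputable section

private theorem dwd_bel (hb : S_basic) (hu : S_wuniq) {C : ℝ} {μ : ℂ → ℝ} {X Y g : ℂ → ℂ → ℂ}
    (h : SLS C μ X Y g) (k c : ℂ) {A B : ℂ → ℂ} (hW : WD univ (fun z => FF X Y c z k) A B) :
    ∀ᵐ z, B z = (μ z : ℂ) * conj (A z) := by
  obtain ⟨hadd, hmul, -, -, -, -⟩ := hb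
  obtain ⟨⟨A1, B1, hW1, hE1⟩, ⟨A2, B2, hW2, hE2⟩⟩ := h.sol k
  rw [Measure.restrict_univ] at hE1 hE2
  have hW' := hadd _ _ _ _ _ _ _ (hmul _ _ _ _ (c.re : ℂ) hW1) (hmul _ _ _ _ (c.im : ℂ) hW2)
  have hEq := hu univ _ _ _ _ _ _ isOpen_univ hW hW' (Eventually.of_forall fun z => rfl)
  rw [Measure.restrict_univ] at hEq
  filter_upwards [hEq.1, hEq.2, hE1, hE2] with z h1 h2 h3 h4
  rw [h1, h2, h3, h4, map_add, map_mul, map_mul, Complex.conj_ofReal, Complex.conj_ofReal]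
  ring

private theorem dwd_lint {f : ℂ → ℂ} {s : Set ℂ} {M : ℝ}
    (hi : IntegrableOn (fun z => ‖f z‖ ^ 2) s volume) (hM : ∫ z in s, ‖f z‖ ^ 2 ≤ M) :
    ∫⁻ z in s, ‖f z‖ₑ ^ 2 ≤ ENNReal.ofReal M := by
  have e : ∫⁻ z in s, ‖f z‖ₑ ^ 2 = ∫⁻ z in s, ENNReal.ofReal (‖f z‖ ^ 2) := by
    refine lintegral_congr fun z => ?_
    rw [ENNReal.ofReal_pow (norm_nonneg _), ofReal_norm]
  rw [e, ← ofReal_integral_eq_lintegral_ofReal hi (Eventually.of_forall fun z => by positivity)]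
  exact ENNReal.ofReal_le_ofReal hM

private theorem dwd_eL {f : ℂ → ℂ} {s : Set ℂ} {M : ℝ≥0∞}
    (h : ∫⁻ z in s, ‖f z‖ₑ ^ 2 ≤ M) : eLpNorm f 2 (volume.restrict s) ≤ M ^ (1 / 2 : ℝ) := by
  rw [eLpNorm_eq_lintegral_rpow_enorm_toReal (by norm_num) (by norm_num)]
  simp only [ENNReal.toReal_ofNat, ENNReal.rpow_ofNat]
  exact ENNReal.rpow_le_rpow h (by norm_num)

theorem piece_dwd (h1 : S_dloc) (h2 : S_awlim) (h3 : S_awlimB) (h4 : S_basic) (h5 : S_wuniq) :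
    S_dwd := by
  intro G k0 C μ μn Xn Yn gn X Y g a k c An Bn hc hW
  have hBel : ∀ n, ∀ᵐ z, Bn n z = (μn n z : ℂ) * conj (An n z) :=
    fun n => dwd_bel h4 h5 (a.sls n) k c (hW n)
  have hμ1 : ∀ n z, |μn n z| ≤ 1 := by
    intro n z
    have e1 := (a.smu n).lo z
    have e2 := (a.smu n).hi z
    have e3 := a.adm.k01
    rw [abs_le]
    constructor <;> linarith
  -- the energy bound
  have hen : ∀ K : Set ℂ, IsCompact K → K ⊆ G → ∃ M : ℝ, ∀ᶠ n in atTop,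
      ∫⁻ z in K, ‖An n z‖ₑ ^ 2 ≤ ENNReal.ofReal M := by
    intro K hK hKG
    refine hK.induction_on (p := fun s => ∃ M : ℝ, ∀ᶠ n in atTop,
      ∫⁻ z in s, ‖An n z‖ₑ ^ 2 ≤ ENNReal.ofReal M) ?_ ?_ ?_ ?_
    · exact ⟨0, Eventually.of_forall fun n => by simp⟩
    · rintro s t hst ⟨M, hM⟩
      refine ⟨M, ?_⟩
      filter_upwards [hM] with n hn
      exact (lintegral_mono_set hst).trans hn
    · rintro s t ⟨M, hM⟩ ⟨M', hM'⟩
      refine ⟨max M 0 + max M' 0, ?_⟩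
      filter_upwards [hM, hM'] with n hn hn'
      refine (lintegral_union_le _ _ _).trans ?_
      rw [ENNReal.ofReal_add (le_max_right _ _) (le_max_right _ _)]
      exact add_le_add (hn.trans (ENNReal.ofReal_le_ofReal (le_max_left _ _)))
        (hn'.trans (ENNReal.ofReal_le_ofReal (le_max_left _ _)))
    · intro z0 hz0
      obtain ⟨ρ, hρ, hρG⟩ := Metric.nhds_basis_closedBall.mem_iff.1
        (a.adm.oG.mem_nhds (hKG hz0))
      obtain ⟨q, hq, hloc⟩ := a.loc _ (isCompact_closedBall z0 ρ) hρG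
      obtain ⟨⟨M, hM⟩, -⟩ := h1 C k0 ‖k‖ q ρ z0 a.C0 a.adm.k00 a.adm.k01 hq hρ
      refine ⟨ball z0 ρ, mem_nhdsWithin_of_mem_nhds (ball_mem_nhds z0 hρ), M, ?_⟩
      filter_upwards [hloc] with n hn
      obtain ⟨hi, hle, -⟩ := hM (μn n) (Xn n) (Yn n) (gn n) (a.smu n) (a.sls n)
        (fun z hz => hn z (ball_subset_closedBall hz)) k c le_rfl hc (An n) (Bn n) (hW n)
      exact dwd_lint hi hle
  have hbd : ∀ K : Set ℂ, IsCompact K → K ⊆ G → ∃ M : ℝ, ∀ᶠ n in atTop,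
      eLpNorm (An n) 2 (volume.restrict K) ≤ ENNReal.ofReal M ∧
      eLpNorm (Bn n) 2 (volume.restrict K) ≤ ENNReal.ofReal M := by
    intro K hK hKG
    obtain ⟨M, hM⟩ := hen K hK hKG
    refine ⟨((ENNReal.ofReal M) ^ (1 / 2 : ℝ)).toReal, ?_⟩
    have hfin : (ENNReal.ofReal M) ^ (1 / 2 : ℝ) ≠ ∞ :=
      ENNReal.rpow_ne_top_of_nonneg (by norm_num) ENNReal.ofReal_ne_top
    rw [ENNReal.ofReal_toReal hfin]
    filter_upwards [hM] with n hn
    have hA := dwd_eL hn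
    refine ⟨hA, le_trans (eLpNorm_mono_ae ?_) hA⟩
    filter_upwards [ae_restrict_of_ae (hBel n)] with z hz
    rw [hz, norm_mul, Complex.norm_real, RCLike.norm_conj, Real.norm_eq_abs]
    exact mul_le_of_le_one_left (norm_nonneg _) (hμ1 n z)
  -- uniform convergence
  have hunif : ∀ K : Set ℂ, IsCompact K → K ⊆ G →
      TendstoUniformlyOn (fun n z => FF (Xn n) (Yn n) c z k) (fun z => FF X Y c z k) atTop K := by
    intro K hK hKG
    have hKk : IsCompact (K ×ˢ ({k} : Set ℂ)) := hK.prod isCompact_singleton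
    have hsub : K ×ˢ ({k} : Set ℂ) ⊆ G ×ˢ univ := prod_mono hKG (subset_univ _)
    have tX := a.tX _ hKk hsub
    have tY := a.tY _ hKk hsub
    rw [Metric.tendstoUniformlyOn_iff] at tX tY ⊢
    intro ε hε
    filter_upwards [tX (ε / 2) (half_pos hε), tY (ε / 2) (half_pos hε)] with n hX hY z hz
    have e1 := hX (z, k) ⟨hz, rfl⟩
    have e2 := hY (z, k) ⟨hz, rfl⟩
    rw [dist_eq_norm] at e1 e2 ⊢
    have hre : |c.re| ≤ 1 := (Complex.abs_re_le_norm c).trans hc.le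
    have him : |c.im| ≤ 1 := (Complex.abs_im_le_norm c).trans hc.le
    have e : FF X Y c z k - FF (Xn n) (Yn n) c z k =
        (c.re : ℂ) * (X z k - Xn n z k) + (c.im : ℂ) * (Y z k - Yn n z k) := by
      unfold FF
      ring
    rw [e]
    refine (norm_add_le _ _).trans_lt ?_
    rw [norm_mul, norm_mul, Complex.norm_real, Complex.norm_real, Real.norm_eq_abs,
      Real.norm_eq_abs]
    have f1 : |c.re| * ‖X z k - Xn n z k‖ ≤ ‖X z k - Xn n z k‖ :=
      mul_le_of_le_one_left (norm_nonneg _) hre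
    have f2 : |c.im| * ‖Y z k - Yn n z k‖ ≤ ‖Y z k - Yn n z k‖ :=
      mul_le_of_le_one_left (norm_nonneg _) him
    have f3 : ‖X z k - Xn n z k‖ < ε / 2 := e1
    have f4 : ‖Y z k - Yn n z k‖ < ε / 2 := e2
    linarith
  have hcont : ∀ n, ContinuousOn (fun z => FF (Xn n) (Yn n) c z k) G := by
    intro n
    have e1 : Continuous (fun z : ℂ => Xn n z k) :=
      (a.sls n).cX.comp (continuous_id.prodMk continuous_const)
    have e2 : Continuous (fun z : ℂ => Yn n z k) :=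
      (a.sls n).cY.comp (continuous_id.prodMk continuous_const)
    exact ((continuous_const.mul e1).add (continuous_const.mul e2)).continuousOn
  have hWG : ∀ n, WD G (fun z => FF (Xn n) (Yn n) c z k) (An n) (Bn n) :=
    fun n => h4.2.2.2.2.1 _ _ _ _ _ (subset_univ _) (hW n)
  obtain ⟨-, A, B, hWAB, hweak⟩ := h2 G _ _ An Bn a.adm.oG hWG hcont hbd hunif
  refine ⟨A, B, hWAB, ?_, hbd, hweak⟩
  refine h3 G μ μn A B An Bn a.adm.oG hWAB.A2 hWAB.B2 (fun n => (hWG n).A2)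
    (fun n => (hWG n).B2) a.adm.meas (fun n => (a.smu n).smooth.continuous.measurable) hμ1
    (ae_restrict_of_ae a.ae) ?_ hweak (fun n => ae_restrict_of_ae (hBel n))
  intro K hK hKG
  obtain ⟨M, hM⟩ := hbd K hK hKG
  exact ⟨M, hM.mono fun n hn => hn.1⟩

end

end Cal
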