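import Pool.Agent.Lib.MP_4ea4c7_an.StmH9

/-!
# MP_4ea4c7_an, stage 2, piece [e1]: `1/κ` is a solution
-/

open MeasureTheory Complex Metric Set Filter Topology
open scoped ComplexConjugate ENNReal NNReal

namespace Cal

noncomputable section

private theorem einv_hd (w : ℂ) (hw : w ≠ 0) (v : ℂ) :
    fderiv ℝ (fun w : ℂ => w⁻¹) w v = -(w ^ 2)⁻¹ * v := by
  have h := (hasDerivAt_inv hw).hasFDerivAt.restrictScalars ℝ
  rw [h.fderiv]
  simp [mul_comm]

private theorem einv_dz (w : ℂ) (hw : w ≠ 0) : dz (fun w : ℂ => w⁻¹) w = -(w ^ 2)⁻¹ := by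
  unfold dz
  rw [einv_hd w hw, einv_hd w hw]
  linear_combination (1 / 2 * (w ^ 2)⁻¹) * Complex.I_mul_I

private theorem einv_db (w : ℂ) (hw : w ≠ 0) : db (fun w : ℂ => w⁻¹) w = 0 := by
  unfold db
  rw [einv_hd w hw, einv_hd w hw]
  linear_combination (-1 / 2 * (w ^ 2)⁻¹) * Complex.I_mul_I

private theorem einv_gr0 (φ : ℂ → ℝ) (z : ℂ) (hz : z ∉ tsupport φ) : gr φ z = 0 := by
  have h : fderiv ℝ φ z = 0 := by
    have e1 : φ =ᶠ[𝓝 z] (fun _ => (0 : ℝ)) := notMem_tsupport_iff_eventuallyEq.mp hz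
    rw [e1.fderiv_eq]
    simp
  unfold gr
  rw [h]
  simp

theorem piece_einv (h1 : S_chain) (h2 : S_bridge) (h3 : S_basic) (_h4 : S_smooth) : S_einv := by
  intro G γ κ Kg hG hK
  have hne : ∀ z ∈ G, (κ z : ℂ) ≠ 0 := fun z hz => ofReal_ne_zero.mpr (hK.pos z hz).ne'
  refine ⟨?_, ?_⟩
  · have w1 := h3.2.2.2.2.1 univ G _ _ _ (subset_univ _) (h2.2.1 univ κ Kg hK.wg)
    have hW : IsOpen {w : ℂ | w ≠ 0} := isOpen_ne
    have hc : ContinuousOn (fun z => (κ z : ℂ)) G :=
      Complex.continuous_ofReal.comp_continuousOn hK.cont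
    have w2 := h1 G {w : ℂ | w ≠ 0} _ _ _ (fun w : ℂ => w⁻¹) hG hW w1 hc (fun z hz => hne z hz)
      (fun w hw => (contDiffAt_inv ℝ hw).contDiffWithinAt)
    have w3 := h3.2.2.2.1 G _ _ _ (fun z => (((1 / κ z : ℝ)) : ℂ))
      (fun z => conj (-(Kg z) / ((κ z : ℂ) ^ 2)) / 2) (fun z => (-(Kg z) / ((κ z : ℂ) ^ 2)) / 2)
      hG.measurableSet w2 ?_ ?_ ?_
    · have w4 := (h2.1 G _ _ _ w3).1
      have e1 : (fun z => (((1 / κ z : ℝ) : ℂ)).re) = fun z => 1 / κ z := by
        funext z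
        exact ofReal_re _
      have e2 : (fun z => conj (conj (-(Kg z) / ((κ z : ℂ) ^ 2)) / 2) +
          (-(Kg z) / ((κ z : ℂ) ^ 2)) / 2) = fun z => -(Kg z) / ((κ z : ℂ) ^ 2) := by
        funext z
        rw [map_div₀, conj_conj, map_ofNat]
        ring
      rw [e1, e2] at w4
      exact w4
    · filter_upwards [ae_restrict_mem hG.measurableSet] with z hz
      push_cast
      rw [one_div]
    · filter_upwards [ae_restrict_mem hG.measurableSet] with z hz
      rw [einv_dz _ (hne z hz), einv_db _ (hne z hz)]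
      simp only [map_div₀, map_neg, map_pow, conj_ofReal]
      ring
    · filter_upwards [ae_restrict_mem hG.measurableSet] with z hz
      rw [einv_dz _ (hne z hz), einv_db _ (hne z hz)]
      ring
  · intro φ hφ
    have h := hK.sol φ hφ
    have e : (fun z => (γ z * κ z ^ 2) * ip (-(Kg z) / ((κ z : ℂ) ^ 2)) (gr φ z)) =
        fun z => -(γ z * ip (Kg z) (gr φ z)) := by
      funext z
      by_cases hz : z ∈ G
      · have h0 : κ z ≠ 0 := (hK.pos z hz).ne'
        have e3 : -(Kg z) / ((κ z : ℂ) ^ 2) * conj (gr φ z) =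
            ((-(1 / κ z ^ 2) : ℝ) : ℂ) * (Kg z * conj (gr φ z)) := by
          push_cast
          ring
        unfold ip
        rw [e3, re_ofReal_mul]
        field_simp
      · have hn : z ∉ tsupport φ := fun h' => hz (hφ.2.2 h').1
        rw [einv_gr0 φ z hn]
        simp [ip]
    rw [e, integral_neg, h, neg_zero]

end

end Cal
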