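import Pool.Agent.Lib.MP_4ea4c7_an.StmH9

open MeasureTheory Complex Metric Set Filter Topology
open scoped ComplexConjugate ENNReal NNReal

namespace Cal

private theorem eucb_L2 {U : Set ℂ} {σ : ℂ → ℝ} {g : ℂ → ℂ} {c C : ℝ} (hσ : Measurable σ) (hc : 0 < c)
    (hb : ∀ z ∈ U, c ≤ σ z ∧ σ z ≤ C) (hg : L2loc U g) : L2loc U (fun z => (σ z : ℂ) * g z) := by
  intro K hK hKU
  have h1 := hg K hK hKU
  have hm : AEStronglyMeasurable (fun z => (σ z : ℂ) * g z) (volume.restrict K) :=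
    (Complex.measurable_ofReal.comp hσ).aestronglyMeasurable.mul h1.aestronglyMeasurable
  refine MemLp.of_le_mul (c := C) h1 hm ?_
  rw [ae_restrict_iff' hK.isClosed.measurableSet]
  refine ae_of_all _ fun z hz => ?_
  have h2 := hb z (hKU hz)
  rw [norm_mul, Complex.norm_real, Real.norm_eq_abs, abs_of_nonneg (by linarith)]
  exact mul_le_mul_of_nonneg_right h2.2 (norm_nonneg _)

private theorem eucb_q {c C s : ℝ} (hc : 0 < c) (h1 : c ≤ s) (h2 : s ≤ C) :
    |(1 - s) / (1 + s)| ≤ max ((1 - c) / (1 + c)) ((C - 1) / (1 + C)) := by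
  have p1 : 0 < 1 + s := by linarith
  have p2 : 0 < 1 + c := by linarith
  have p3 : 0 < 1 + C := by linarith
  rw [abs_le]
  constructor
  · have h3 : (s - 1) / (1 + s) ≤ (C - 1) / (1 + C) := by
      rw [div_le_div_iff₀ p1 p3]; nlinarith
    have h4 : (1 - s) / (1 + s) = - ((s - 1) / (1 + s)) := by ring
    rw [h4]
    linarith [le_max_right ((1 - c) / (1 + c)) ((C - 1) / (1 + C))]
  · have h3 : (1 - s) / (1 + s) ≤ (1 - c) / (1 + c) := by
      rw [div_le_div_iff₀ p1 p2]; nlinarith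
    exact h3.trans (le_max_left _ _)

theorem piece_eucb (h1 : S_aconj) (h2 : S_areg) (h3 : S_aucp) (h4 : S_aconst) (h5 : S_bridge) (h6 : S_basic)
    (h7 : S_smooth) (h8 : S_wuniq) : S_eucb := by
  intro z0 ρ c C σ f Fg hρ hsub hσ hc hb hf hW hsol V hVo hVn hVs hV0
  set U : Set ℂ := ball z0 ρ with hU
  have hUo : IsOpen U := isOpen_ball
  have hcC : c ≤ C := by
    obtain ⟨z, hz⟩ := hVn
    have := hb z (hVs hz)
    linarith
  -- stream function
  obtain ⟨s, -, hs⟩ := h1 z0 ρ (fun z => (σ z : ℂ) * Fg z) hρ (eucb_L2 hσ hc hb hW.G2) (by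
    intro φ hφ
    rw [← hsol φ hφ]
    congr 1
    funext z
    unfold ip
    rw [mul_assoc, Complex.re_ofReal_mul])
  -- the complex function
  have wf := h5.2.1 U f Fg hW
  have ws := h6.2.1 U _ _ _ I (h5.2.1 U s _ hs)
  have wF := h6.1 U _ _ _ _ _ _ wf ws
  set F : ℂ → ℂ := fun z => (f z : ℂ) + I * (s z : ℂ) with hF
  set A : ℂ → ℂ := fun z => conj (Fg z) / 2 + I * (conj (I * ((σ z : ℂ) * Fg z)) / 2) with hA
  set B : ℂ → ℂ := fun z => Fg z / 2 + I * (I * ((σ z : ℂ) * Fg z) / 2) with hB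
  have eA : ∀ z, A z = (1 + (σ z : ℂ)) * conj (Fg z) / 2 := by
    intro z
    simp only [hA, map_mul, Complex.conj_I, Complex.conj_ofReal]
    linear_combination (-(σ z : ℂ) * conj (Fg z) / 2) * Complex.I_sq
  have eB : ∀ z, B z = (1 - (σ z : ℂ)) * Fg z / 2 := by
    intro z
    simp only [hB]
    linear_combination ((σ z : ℂ) * Fg z / 2) * Complex.I_sq
  classical
  set μ : ℂ → ℝ := fun z => if z ∈ U then (1 - σ z) / (1 + σ z) else 0 with hμ
  have hμm : Measurable μ := Measurable.ite hUo.measurableSet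
    ((measurable_const.sub hσ).div (measurable_const.add hσ)) measurable_const
  set q : ℝ := max ((1 - c) / (1 + c)) ((C - 1) / (1 + C)) with hq
  have hq1 : q < 1 := by
    refine max_lt ?_ ?_
    · rw [div_lt_one (by linarith)]; linarith
    · rw [div_lt_one (by linarith)]; linarith
  have hμq : ∀ z ∈ U, |μ z| ≤ q := by
    intro z hz
    simp only [hμ, if_pos hz]
    exact eucb_q hc (hb z hz).1 (hb z hz).2
  have hμK : ∀ K : Set ℂ, IsCompact K → K ⊆ U → ∃ q : ℝ, q < 1 ∧ ∀ z ∈ K, |μ z| ≤ q :=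
    fun K _ hKU => ⟨q, hq1, fun z hz => hμq z (hKU hz)⟩
  have hμ0 : ∀ z : ℂ, 3 / 4 < ‖z‖ → μ z = 0 := by
    intro z hz
    have hz' : z ∉ U := by
      intro hzU
      have := hsub hzU
      rw [mem_ball_zero_iff] at this
      linarith
    simp only [hμ, if_neg hz']
  have hbel : ∀ᵐ z ∂(volume.restrict U), B z = (μ z : ℂ) * conj (A z) := by
    rw [ae_restrict_iff' hUo.measurableSet]
    refine ae_of_all _ fun z hz => ?_
    have hne : (1 + (σ z : ℂ)) ≠ 0 := by
      have := (hb z hz).1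
      have h : (1 + σ z) ≠ 0 := by linarith
      exact_mod_cast h
    rw [eB, eA]
    simp only [hμ, if_pos hz]
    push_cast
    simp only [map_div₀, map_mul, map_add, map_one, Complex.conj_ofReal, Complex.conj_conj, map_ofNat]
    field_simp
  obtain ⟨F', hF'c, hF'e⟩ := h2 U μ F A B hUo hμm hμK hμ0 wF hbel
  have wF' : WD U F' A B := h6.2.2.2.1 U F A B F' A B hUo.measurableSet wF
    (by filter_upwards [hF'e] with z hz using hz.symm) (Filter.EventuallyEq.refl _ _) (Filter.EventuallyEq.refl _ _)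
  -- the real part
  have hre : ∀ z ∈ U, (F' z).re = f z := by
    have e1 : (fun z => (F' z).re) =ᵐ[volume.restrict U] f := by
      filter_upwards [hF'e] with z hz
      rw [hz]
      simp [hF]
    have := MeasureTheory.Measure.eqOn_open_of_ae_eq e1 hUo (Complex.continuous_re.comp_continuousOn hF'c) hf
    exact fun z hz => this hz
  -- a small ball in V
  obtain ⟨z1, hz1⟩ := hVn
  obtain ⟨ε, hε, hεV⟩ := Metric.isOpen_iff.mp hVo z1 hz1
  set V₁ : Set ℂ := ball z1 ε with hV₁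
  have hV₁o : IsOpen V₁ := isOpen_ball
  have hV₁U : V₁ ⊆ U := hεV.trans hVs
  have hFg0 : ∀ᵐ z ∂(volume.restrict V₁), Fg z = 0 := by
    have w1 : WD V₁ (fun z => (f z : ℂ)) (fun z => conj (Fg z) / 2) (fun z => Fg z / 2) :=
      h6.2.2.2.2.1 U V₁ _ _ _ hV₁U wf
    have w0 : WD V₁ (fun _ => (0 : ℂ)) (deriv (fun _ => (0 : ℂ))) (fun _ => 0) :=
      h7.2.1 V₁ _ hV₁o (differentiableOn_const _)
    have e0 : (fun z => (f z : ℂ)) =ᵐ[volume.restrict V₁] (fun _ => (0 : ℂ)) := by
      rw [Filter.EventuallyEq, ae_restrict_iff' hV₁o.measurableSet]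
      refine ae_of_all _ fun z hz => ?_
      simp only [hV0 z (hεV hz)]
      simp
    have := (h8 V₁ _ _ _ _ _ _ hV₁o w1 w0 e0).2
    filter_upwards [this] with z hz
    have hz' : Fg z / 2 = 0 := hz
    simpa using hz'
  have hImg := (h5.1 V₁ F' A B (h6.2.2.2.2.1 U V₁ _ _ _ hV₁U wF')).2
  have hIm0 : ∀ᵐ z ∂(volume.restrict V₁), I * (conj (A z) - B z) = 0 := by
    filter_upwards [hFg0] with z hz
    rw [eA, eB, hz]
    simp
  have hImc : ContinuousOn (fun z => (F' z).im) V₁ :=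
    (Complex.continuous_im.comp_continuousOn hF'c).mono hV₁U
  have hconst := (h4 V₁ _ _ hV₁o (convex_ball z1 ε).isPreconnected hImg hIm0).2 hImc
  have hz1V : z1 ∈ V₁ := mem_ball_self hε
  set s0 : ℝ := (F' z1).im with hs0
  -- subtract the constant
  have wc : WD U (fun _ => -(I * (s0 : ℂ))) (deriv (fun _ => -(I * (s0 : ℂ)))) (fun _ => 0) :=
    h7.2.1 U _ hUo (differentiableOn_const _)
  have wG := h6.1 U _ _ _ _ _ _ wF' wc
  have hG : Bel μ U (fun z => F' z + -(I * (s0 : ℂ))) := by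
    refine ⟨_, _, wG, ?_⟩
    filter_upwards [hbel] with z hz
    simp only [deriv_const]
    simpa using hz
  have hGz := h3 U μ (fun z => F' z + -(I * (s0 : ℂ))) hUo (convex_ball z0 ρ).isPreconnected hμK
    (hF'c.add continuousOn_const) hG V₁ hV₁o ⟨z1, hz1V⟩ hV₁U (by
      intro z hz
      apply Complex.ext
      · have : (F' z).re = 0 := by rw [hre z (hV₁U hz), hV0 z (hεV hz)]
        simp [this]
      · have : (F' z).im = s0 := hconst z hz z1 hz1V
        simp [this])
  intro z hz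
  have := congrArg Complex.re (hGz z hz)
  rw [← hre z hz]
  simpa using this

end Cal
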