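import Pool.Agent.Lib.MP_4ea4c7_an.StmH6

/-!
# MP_4ea4c7_an, stage 2, [d17]: existence of the limit structure
-/

open MeasureTheory Complex Metric Set Filter Topology
open scoped ComplexConjugate ENNReal NNReal

namespace Cal

theorem piece_exLS (h1 : S_dapx) (h2 : S_dbd) (h3 : S_dcl) (h4 : S_den) (h5 : S_ddeg)
    (h6 : S_dkeq) : S_exLS := by
  intro G k0 μ hadm
  obtain ⟨C, μn, Xn, Yn, gn, X, Y, g, hA⟩ := h1 G k0 μ hadm
  obtain ⟨b1, b2, _, b4, b5⟩ := h2 G k0 C μ μn Xn Yn gn X Y g hA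
  refine ⟨X, Y, g, ?_⟩
  exact
    { cX := hA.cX
      cY := hA.cY
      cg := hA.cg
      eg := b1
      z0 := b2
      cl := h3 G k0 C μ μn Xn Yn gn X Y g hA
      bd := ⟨C, b4⟩
      asy := ⟨C, b5⟩
      en := h4 G k0 C μ μn Xn Yn gn X Y g hA
      deg := h5 G k0 C μ μn Xn Yn gn X Y g hA
      keq := h6 G k0 C μ μn Xn Yn gn X Y g hA }

end Cal
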