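import Pool.Agent.Lib.MP_4ea4c7_an.StmH0

/-!
# Piece final3
-/

open MeasureTheory Complex Metric Set Filter Topology
open scoped ComplexConjugate ENNReal NNReal

namespace Cal

open LocalCalderon

noncomputable section

private theorem final3_inv {q : ℂ} {t : ℝ} (ht : 0 < t) {z : ℂ} (hz : z ≠ q) :
    q + (t : ℂ) / ginv q t z = z := by
  have h1 : z - q ≠ 0 := sub_ne_zero.2 hz
  have h2 : (t : ℂ) ≠ 0 := by exact_mod_cast ht.ne'
  unfold ginv
  rw [div_div_cancel₀ h2]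
  ring

private theorem final3_ne {q : ℂ} {t : ℝ} (ht : 0 < t) {z : ℂ} (hz : z ≠ q) :
    ginv q t z ≠ 0 := by
  have h1 : z - q ≠ 0 := sub_ne_zero.2 hz
  have h2 : (t : ℂ) ≠ 0 := by exact_mod_cast ht.ne'
  exact div_ne_zero h2 h1

private theorem final3_diff {q : ℂ} {t : ℝ} : DifferentiableOn ℂ (ginv q t) {q}ᶜ := by
  intro z hz
  have h1 : z - q ≠ 0 := sub_ne_zero.2 hz
  unfold ginv
  exact ((differentiableAt_const _).div (differentiableAt_id.sub_const q) h1).differentiableWithinAt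

private theorem final3_inj {q : ℂ} {t : ℝ} (ht : 0 < t) : InjOn (ginv q t) {q}ᶜ := by
  intro z hz w hw h
  rw [← final3_inv ht hz, ← final3_inv ht hw, h]

open Classical in
/-- the transported conductivity, `1` off `S` -/
def final3_g (S : Set ℂ) (γ : ℂ → ℝ) (q : ℂ) (t : ℝ) : ℂ → ℝ :=
  S.piecewise (fun w => γ (q + (t : ℂ) / w)) (fun _ => 1)

private theorem final3_g1 {S : Set ℂ} {γ : ℂ → ℝ} {q : ℂ} {t : ℝ} {z : ℂ} (hz : z ∈ S) :
    final3_g S γ q t z = γ (q + (t : ℂ) / z) := by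
  classical
  unfold final3_g
  rw [piecewise_eq_of_mem _ _ _ hz]

private theorem final3_g2 {S : Set ℂ} {γ : ℂ → ℝ} {q : ℂ} {t : ℝ} {z : ℂ} (hz : z ∉ S) :
    final3_g S γ q t z = 1 := by
  classical
  unfold final3_g
  rw [piecewise_eq_of_notMem _ _ _ hz]

private theorem final3_cond {c C c' C' : ℝ} {γ : ℂ → ℝ} {Ω : Set ℂ} {q : ℂ} {t : ℝ}
    (hΩ : IsOpen Ω) (h : Cond c' C' γ) (hc : c ≤ c') (hC : C' ≤ C) (h1 : c ≤ 1) (h2 : 1 ≤ C) :
    Cond c C (final3_g Ω γ q t) := by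
  refine ⟨?_, ?_, ?_⟩
  · refine Measurable.piecewise hΩ.measurableSet (h.meas.comp ?_) measurable_const
    exact measurable_const.add (measurable_const.div measurable_id)
  · intro z
    by_cases hz : z ∈ Ω
    · rw [final3_g1 hz]
      exact hc.trans (h.lo _)
    · rw [final3_g2 hz]
      exact h1
  · intro z
    by_cases hz : z ∈ Ω
    · rw [final3_g1 hz]
      exact (h.hi _).trans hC
    · rw [final3_g2 hz]
      exact h2

theorem piece_final3 (h1 : S_ggeo) (h2 : S_gdt) (h3 : S_gtt) (h4 : S_mainN) (h5 : S_norm)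
    (h6 : S_mtr) : S_final3 := by
  intro Ω Γ γ₁ γ₂ hO hc hb hΓ hne hγ₁ hγ₂ hdata
  obtain ⟨q, t, G, K, ht, hq, hPos, hK, hKs, hGK⟩ := h1 Ω Γ hO hc hb hΓ hne
  obtain ⟨c₁, C₁, δ₁, hc1, hcC1, hcond1, hae1⟩ := h5.1 Ω γ₁ hγ₁
  obtain ⟨c₂, C₂, δ₂, hc2, hcC2, hcond2, hae2⟩ := h5.1 Ω γ₂ hγ₂
  set c : ℝ := min (min c₁ c₂) 1 with hcdef
  set C : ℝ := max (max C₁ C₂) 1 with hCdef
  have hc0 : 0 < c := lt_min (lt_min hc1 hc2) one_pos
  have hcc1 : c ≤ c₁ := (min_le_left _ _).trans (min_le_left _ _)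
  have hcc2 : c ≤ c₂ := (min_le_left _ _).trans (min_le_right _ _)
  have hCC1 : C₁ ≤ C := (le_max_left _ _).trans (le_max_left _ _)
  have hCC2 : C₂ ≤ C := (le_max_right _ _).trans (le_max_left _ _)
  have hd1 : Cond c C δ₁ := hcond1 c C hc0 hcc1 hCC1
  have hd2 : Cond c C δ₂ := hcond2 c C hc0 hcc2 hCC2
  have hW : IsOpen ({q}ᶜ : Set ℂ) := isOpen_compl_singleton
  have hsub : closure Ω ⊆ ({q}ᶜ : Set ℂ) := fun z hz h => hq (h ▸ hz)
  have hne' : ∀ z ∈ Ω, z ≠ q := fun z hz => hsub (subset_closure hz)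
  obtain ⟨⟨hO1, hb1, -⟩, hfr, hopen, -⟩ := h6 Ω {q}ᶜ (ginv q t) hO hb hW hsub final3_diff
    (final3_inj ht)
  set Ω₁ : Set ℂ := ginv q t '' Ω with hΩ₁
  have k1 : Cond c C (final3_g Ω₁ δ₁ q t) :=
    final3_cond hO1 hd1 le_rfl le_rfl (min_le_right _ _) (le_max_right _ _)
  have k2 : Cond c C (final3_g Ω₁ δ₂ q t) :=
    final3_cond hO1 hd2 le_rfl le_rfl (min_le_right _ _) (le_max_right _ _)
  have e1 : ∀ z ∈ Ω, final3_g Ω₁ δ₁ q t
      (ginv q t z) = δ₁ z := by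
    intro z hz
    rw [final3_g1 (mem_image_of_mem _ hz), final3_inv ht (hne' z hz)]
  have e2 : ∀ z ∈ Ω, final3_g Ω₁ δ₂ q t
      (ginv q t z) = δ₂ z := by
    intro z hz
    rw [final3_g1 (mem_image_of_mem _ hz), final3_inv ht (hne' z hz)]
  have o1 : ∀ z, z ∉ Ω₁ → final3_g Ω₁ δ₁ q t z = 1 :=
    fun z hz => final3_g2 hz
  have o2 : ∀ z, z ∉ Ω₁ → final3_g Ω₁ δ₂ q t z = 1 :=
    fun z hz => final3_g2 hz
  have hdata' : cauchyData Ω Γ δ₁ = cauchyData Ω Γ δ₂ := by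
    rw [← h5.2 Ω Γ γ₁ δ₁ hae1, ← h5.2 Ω Γ γ₂ δ₂ hae2, hdata]
  have hdat1 := h2 c C Ω Γ {q}ᶜ (ginv q t) δ₁ δ₂ _ _ hc0 hd1 hd2 k1 k2 hO hb hW hsub
    final3_diff (final3_inj ht) hΓ e1 e2 hdata'
  have hTT := h3 c C Ω₁ G (ginv q t '' Γ) K _ _ hc0 k1 k2 hO1 hPos.oG hPos.Ωs hPos.ΩG
    (hopen Γ hΓ) hK hKs hGK (fun z hz => by rw [o1 z hz, o2 z hz]) hdat1
  have hmain := h4 Ω₁ G c C _ _ hPos hc0 k1 k2 o1 o2 hTT
  -- back to `Ω`
  have hnull : volume {w | w ∈ Ω₁ ∧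
      final3_g Ω₁ δ₁ q t w ≠
        final3_g Ω₁ δ₂ q t w} = 0 := by
    rw [ae_restrict_iff' hO1.measurableSet, ae_iff] at hmain
    convert hmain using 2
    ext w
    simp only [mem_ofPred_eq, Classical.not_imp]
  set N : Set ℂ := {w | w ∈ Ω₁ ∧
      final3_g Ω₁ δ₁ q t w ≠
        final3_g Ω₁ δ₂ q t w} with hN
  have hdiff : DifferentiableOn ℝ (fun w : ℂ => q + (t : ℂ) / w) N := by
    intro w hw
    obtain ⟨⟨z, hz, rfl⟩, -⟩ := hw
    have h7 : ginv q t z ≠ 0 := final3_ne ht (hne' z hz)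
    have h8 : DifferentiableAt ℂ (fun w : ℂ => q + (t : ℂ) / w) (ginv q t z) :=
      (differentiableAt_const q).add ((differentiableAt_const _).div differentiableAt_id h7)
    exact (h8.restrictScalars ℝ).differentiableWithinAt
  have himg := MeasureTheory.addHaar_image_eq_zero_of_differentiableOn_of_addHaar_eq_zero
    (volume : Measure ℂ) hdiff hnull
  have hδ : δ₁ =ᵐ[volume.restrict Ω] δ₂ := by
    rw [Filter.EventuallyEq, ae_restrict_iff' hO.measurableSet, ae_iff]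
    refine measure_mono_null ?_ himg
    intro z hz
    simp only [mem_ofPred_eq, Classical.not_imp] at hz
    refine ⟨ginv q t z, ⟨mem_image_of_mem _ hz.1, ?_⟩, final3_inv ht (hne' z hz.1)⟩
    rw [e1 z hz.1, e2 z hz.1]
    exact hz.2
  exact hae1.trans (hδ.trans hae2.symm)

end

end Cal
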