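import Pool.Agent.Lib.MP_4ea4c7_an.StmF

open MeasureTheory Complex Metric Set Filter Topology
open scoped ComplexConjugate ENNReal NNReal

namespace Cal

open LocalCalderon

theorem piece_form (h1 : S_h1) (h2 : S_h10) (h3 : S_trc) (h4 : S_lift) (h5 : S_dnex) : S_form := by
  intro c C γ₁ γ₂ Ω Γ hc hγ₁ hγ₂ hΩ hΩb hΓ hCD u ψ hu hTu hψ hTψ
  obtain ⟨T1, T2, T3, T4, T5⟩ := h3 Ω Γ hΩ hΩb hΓ
  have Z2 := (h2 Ω hΩ).2.1
  have hdot : ∀ a b : ℂ, dot a b = ip a b := h1.2.2.2.2.2.2.2.2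
  obtain ⟨⟨u', hu'1, hu'0, hu's⟩, hDN1⟩ := h4 c C hc γ₁ hγ₁ Ω hΩ hΩb u hu
  have hTu' : TraceIn Ω Γ u' := by
    have := T2 u (fun z => u' z - u z) hTu hu'0
    have e : (fun z => u z + (u' z - u z)) = u' := by funext z; ring
    rwa [e] at this
  have hmem : (({v | H1 Ω v ∧ SameTrace Ω Γ u' v}, fun ψ => ∫ z in Ω, γ₁ z * dot (wgrad Ω u' z) (wgrad Ω ψ.1 z)) :
      Set (ℂ → ℝ) × ({ψ : ℂ → ℝ // H1 Ω ψ ∧ TraceIn Ω Γ ψ} → ℝ)) ∈ cauchyData Ω Γ γ₁ :=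
    ⟨u', hu's, hTu', rfl⟩
  rw [hCD] at hmem
  obtain ⟨u'', hu''s, hTu'', heq⟩ := hmem
  have hT : {v | H1 Ω v ∧ SameTrace Ω Γ u' v} = {v | H1 Ω v ∧ SameTrace Ω Γ u'' v} := congrArg Prod.fst heq
  have hL := congrArg Prod.snd heq
  have hst : SameTrace Ω Γ u'' u' := by
    have : u' ∈ {v | H1 Ω v ∧ SameTrace Ω Γ u' v} := ⟨hu'1, T5 u'⟩
    rw [hT] at this
    exact this.2
  have hTd : TraceIn Ω Γ (fun z => u'' z - u' z) := by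
    have := T3 u'' u' (-1) hTu'' hTu'
    have e : (fun z => u'' z + (-1) * u' z) = fun z => u'' z - u' z := by funext z; ring
    rwa [e] at this
  have hd : H10 Ω (fun z => u'' z - u' z) := T1 u'' u' hu''s.1 hu'1 hTd hst
  have hd2 : H10 Ω (fun z => u'' z - u z) := by
    have := Z2 (fun z => u'' z - u' z) (fun z => u' z - u z) 1 hd hu'0
    have e : (fun z => (u'' z - u' z) + 1 * (u' z - u z)) = fun z => u'' z - u z := by funext z; ring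
    rwa [e] at this
  have D1 : DN Ω γ₁ (wgrad Ω u) (wgrad Ω u') := hDN1 u' hu'0 hu's
  have D2 : DN Ω γ₂ (wgrad Ω u) (wgrad Ω u'') := (h4 c C hc γ₂ hγ₂ Ω hΩ hΩb u hu).2 u'' hd2 hu''s
  have hmL : MemLp (wgrad Ω u) 2 (volume.restrict Ω) := (h1.1 Ω u hu).1
  intro G₁ G₂ hG1 hG2
  have E1 : G₁ =ᵐ[volume.restrict Ω] wgrad Ω u' := (h5 c C hc γ₁ hγ₁ Ω hΩ (wgrad Ω u) hmL).2 _ _ hG1 D1
  have E2 : G₂ =ᵐ[volume.restrict Ω] wgrad Ω u'' := (h5 c C hc γ₂ hγ₂ Ω hΩ (wgrad Ω u) hmL).2 _ _ hG2 D2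
  have hLψ := congrFun hL ⟨ψ, hψ, hTψ⟩
  simp only [hdot] at hLψ
  calc ∫ z in Ω, γ₁ z * ip (G₁ z) (wgrad Ω ψ z) = ∫ z in Ω, γ₁ z * ip (wgrad Ω u' z) (wgrad Ω ψ z) := by
        refine integral_congr_ae ?_
        filter_upwards [E1] with z hz
        rw [hz]
    _ = ∫ z in Ω, γ₂ z * ip (wgrad Ω u'' z) (wgrad Ω ψ z) := hLψ
    _ = ∫ z in Ω, γ₂ z * ip (G₂ z) (wgrad Ω ψ z) := by
        refine integral_congr_ae ?_
        filter_upwards [E2] with z hz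
        rw [hz]

end Cal
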