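import Pool.Agent.Lib.MP_4ea4c7_an.StmH0

/-! [g6] Transport of the local data by a map which is injective and holomorphic near the closure. -/

open MeasureTheory Complex Metric Set Filter Topology
open scoped ComplexConjugate ENNReal NNReal

namespace Cal

open LocalCalderon

noncomputable section

theorem piece_gdt (h1 : S_form) (h2 : S_mtr) (h3 : S_cbeq) (h4 : S_back2) : S_gdt := by
  intro c C Ω Γ W M γ₁ γ₂ g₁ g₂ hc hγ₁ hγ₂ hg₁ hg₂ hΩ hb hW hcl hM hinj hΓ e1 e2 hCD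
  obtain ⟨⟨ho, hbd, hCB⟩, _, m3, m4, _, m6⟩ := h2 Ω W M hΩ hb hW hcl hM hinj
  refine h4 c C g₁ g₂ (M '' Ω) (M '' Γ) hc hg₁ hg₂ ho hbd (m3 Γ hΓ) ?_
  intro u ψ hu hTu hψ hTψ
  have hu' := m4 u hu
  have hψ' := m4 ψ hψ
  have hTu' := m6 Γ u hΓ hu hTu
  have hTψ' := m6 Γ ψ hΓ hψ hTψ
  have B := h1 c C γ₁ γ₂ Ω Γ hc hγ₁ hγ₂ hΩ hb hΓ hCD _ _ hu'.1 hTu' hψ'.1 hTψ'
  rw [h3.1 Ω (M '' Ω) M hCB]
  have a1 : γ₁ =ᵐ[volume.restrict Ω] fun z => g₁ (M z) := by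
    filter_upwards [ae_restrict_mem hΩ.measurableSet] with z hz
    exact (e1 z hz).symm
  have a2 : γ₂ =ᵐ[volume.restrict Ω] fun z => g₂ (M z) := by
    filter_upwards [ae_restrict_mem hΩ.measurableSet] with z hz
    exact (e2 z hz).symm
  exact (h3.2 Ω γ₁ γ₂ _ _ _ _ _ _ a1 a2 hu'.2 hψ'.2).1 B

end

end Cal
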