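import Pool.Agent.Lib.MP_4ea4c7_an.StmH0

/-!
# MP_4ea4c7_an, stage 2, piece g5: normalised position
-/

open MeasureTheory Complex Metric Set Filter Topology
open scoped ComplexConjugate ENNReal NNReal

namespace Cal

open LocalCalderon

noncomputable section

private lemma ggeo_inj (q : ℂ) (t : ℝ) (ht : 0 < t) : InjOn (ginv q t) {q}ᶜ := by
  intro z hz w hw hzw
  have hz' : z - q ≠ 0 := sub_ne_zero.2 hz
  have hw' : w - q ≠ 0 := sub_ne_zero.2 hw
  have ht' : (t : ℂ) ≠ 0 := by exact_mod_cast ht.ne'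
  unfold ginv at hzw
  rw [div_eq_div_iff hz' hw'] at hzw
  have := mul_left_cancel₀ ht' hzw
  linear_combination -this

private lemma ggeo_diff (q : ℂ) (t : ℝ) : DifferentiableOn ℂ (ginv q t) {q}ᶜ := by
  intro z hz
  have hz' : z - q ≠ 0 := sub_ne_zero.2 hz
  have h1 : DifferentiableAt ℂ (fun w : ℂ => w - q) z := by fun_prop
  have h2 : DifferentiableAt ℂ (fun w : ℂ => (t : ℂ) / (w - q)) z :=
    (differentiableAt_const (t : ℂ)).fun_div h1 hz'
  exact h2.differentiableWithinAt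

theorem piece_ggeo (h3 : S_ginv) (h4 : S_mtr) : S_ggeo := by
  rintro Ω Γ hΩ hc hb ⟨O, hO, rfl⟩ ⟨p, ⟨hpO, hpf⟩, hpe⟩
  obtain ⟨ρ, hρ, hball⟩ := Metric.isOpen_iff.1 hO p hpO
  have hε : 0 < ρ / 2 := by positivity
  have hcb : closedBall p (ρ / 2) ⊆ O := (closedBall_subset_ball (by linarith)).trans hball
  have hexo : IsOpen (ball p (ρ / 2) ∩ (closure Ω)ᶜ) := isOpen_ball.inter isClosed_closure.isOpen_compl
  obtain ⟨q, hqB, hqe⟩ : (ball p (ρ / 2) ∩ (closure Ω)ᶜ).Nonempty :=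
    mem_closure_iff.1 hpe (ball p (ρ / 2)) isOpen_ball (mem_ball_self hε)
  obtain ⟨s, hs, hqs⟩ := Metric.isOpen_iff.1 hexo q ⟨hqB, hqe⟩
  have hdisj : Disjoint (ball q s) (closure Ω) := Set.disjoint_left.2 fun z hz hz' => (hqs hz).2 hz'
  have hne2 : (Ω ∩ ball p (ρ / 2)).Nonempty := by
    obtain ⟨x, hx1, hx2⟩ := mem_closure_iff.1 (frontier_subset_closure hpf) (ball p (ρ / 2)) isOpen_ball (mem_ball_self hε)
    exact ⟨x, hx2, hx1⟩
  have ht : 0 < s / 3 := by positivity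
  have h3t : 3 * (s / 3) = s := by ring
  have hP : Pos (ginv q (s / 3) '' Ω) (ginv q (s / 3) '' ((Ω ∪ ball p (ρ / 2)) \ {q})) := by
    refine h3 Ω (ball p (ρ / 2)) q (s / 3) hΩ hc isOpen_ball (convex_ball p (ρ / 2)) hne2 ht ?_ ?_
    · rw [h3t]; exact fun z hz => (hqs hz).1
    · rw [h3t]; exact hdisj.mono_right subset_closure
  have hq : q ∉ closure Ω := hqe
  have hcl : closure Ω ⊆ {q}ᶜ := by
    intro z hz hzq
    rw [mem_singleton_iff] at hzq
    exact hq (hzq ▸ hz)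
  have hinj := ggeo_inj q (s / 3) ht
  have hdiff := ggeo_diff q (s / 3)
  obtain ⟨-, hfr, -⟩ := h4 Ω {q}ᶜ (ginv q (s / 3)) hΩ hb isOpen_compl_singleton hcl hdiff hinj
  have hfrq : frontier Ω ⊆ {q}ᶜ := frontier_subset_closure.trans hcl
  have hKc : IsCompact (closedBall p (ρ / 2) ∩ frontier Ω) :=
    (isCompact_closedBall p (ρ / 2)).inter_right isClosed_frontier
  refine ⟨q, s / 3, ginv q (s / 3) '' ((Ω ∪ ball p (ρ / 2)) \ {q}), ginv q (s / 3) '' (closedBall p (ρ / 2) ∩ frontier Ω),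
    ht, hq, hP, ?_, ?_, ?_⟩
  · exact hKc.image_of_continuousOn (hdiff.continuousOn.mono (inter_subset_right.trans hfrq))
  · refine image_mono ?_
    rintro z ⟨hz1, hz2⟩
    exact ⟨hcb hz1, hz2⟩
  · rintro x ⟨⟨w, ⟨hw1, hw2⟩, rfl⟩, hx⟩
    rw [hfr] at hx
    obtain ⟨w', hw', hww⟩ := hx
    have heq : w' = w := hinj (hfrq hw') hw2 hww
    subst heq
    refine ⟨w', ⟨?_, hw'⟩, rfl⟩
    rcases hw1 with hw1 | hw1
    · exfalso
      rw [hΩ.frontier_eq] at hw'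
      exact hw'.2 hw1
    · exact ball_subset_closedBall hw1

end

end Cal
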