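import Pool.Agent.Lib.MP_4ea4c7_an.StmH0

/-!
# MP_4ea4c7_an, stage 2: piece ginv (inversion)
-/

open MeasureTheory Complex Metric Set Filter Topology
open scoped ComplexConjugate ENNReal NNReal

namespace Cal

noncomputable section

private lemma ginv_pt_mem (q : ℂ) (t : ℝ) (ht : 0 < t) (a b : ℝ) (ha : |a| = t) (hb : |b| = t) :
    q + ((a : ℂ) + (b : ℂ) * I) ∈ ball q (3 * t) := by
  rw [mem_ball, dist_eq_norm]
  have h1 : q + ((a : ℂ) + (b : ℂ) * I) - q = (a : ℂ) + (b : ℂ) * I := by ring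
  rw [h1]
  have h2 : ‖(a : ℂ) + (b : ℂ) * I‖ ≤ |a| + |b| := by
    refine (norm_add_le _ _).trans ?_
    rw [norm_mul, Complex.norm_I, mul_one, Complex.norm_real, Complex.norm_real]
    simp
  rw [ha, hb] at h2
  linarith

/-- a convex set containing a ball around `q` stays connected when `q` is removed -/
private lemma ginv_punct (B : Set ℂ) (hB : Convex ℝ B) (q : ℂ) (t : ℝ) (ht : 0 < t) (hb : ball q (3 * t) ⊆ B) :
    IsConnected (B \ {q}) := by
  have hm : ∀ a b : ℝ, |a| = t → |b| = t → q + ((a : ℂ) + (b : ℂ) * I) ∈ B := fun a b ha hb' =>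
    hb (ginv_pt_mem q t ht a b ha hb')
  have htt : |t| = t := abs_of_pos ht
  have htn : |(-t)| = t := by rw [abs_neg, htt]
  have re : ∀ a b : ℝ, (q + ((a : ℂ) + (b : ℂ) * I)).re = q.re + a := by intro a b; simp
  have im : ∀ a b : ℝ, (q + ((a : ℂ) + (b : ℂ) * I)).im = q.im + b := by intro a b; simp
  have c1 : IsConnected (B ∩ {z : ℂ | q.re < z.re}) :=
    ⟨⟨_, hm t t htt htt, by show q.re < _; rw [re]; linarith⟩, (hB.inter (convex_halfSpace_re_gt q.re)).isPreconnected⟩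
  have c2 : IsConnected (B ∩ {z : ℂ | q.im < z.im}) :=
    ⟨⟨_, hm t t htt htt, by show q.im < _; rw [im]; linarith⟩, (hB.inter (convex_halfSpace_im_gt q.im)).isPreconnected⟩
  have c3 : IsConnected (B ∩ {z : ℂ | z.re < q.re}) :=
    ⟨⟨_, hm (-t) t htn htt, by show _ < q.re; rw [re]; linarith⟩, (hB.inter (convex_halfSpace_re_lt q.re)).isPreconnected⟩
  have c4 : IsConnected (B ∩ {z : ℂ | z.im < q.im}) :=
    ⟨⟨_, hm (-t) (-t) htn htn, by show _ < q.im; rw [im]; linarith⟩, (hB.inter (convex_halfSpace_im_lt q.im)).isPreconnected⟩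
  have d1 : IsConnected ((B ∩ {z : ℂ | q.re < z.re}) ∪ (B ∩ {z : ℂ | q.im < z.im})) := by
    refine IsConnected.union ⟨q + ((t : ℂ) + (t : ℂ) * I), ⟨hm t t htt htt, ?_⟩, hm t t htt htt, ?_⟩ c1 c2
    · show q.re < _
      rw [re]; linarith
    · show q.im < _
      rw [im]; linarith
  have d2 : IsConnected ((B ∩ {z : ℂ | z.re < q.re}) ∪ (B ∩ {z : ℂ | z.im < q.im})) := by
    refine IsConnected.union ⟨q + (((-t : ℝ) : ℂ) + ((-t : ℝ) : ℂ) * I), ⟨hm (-t) (-t) htn htn, ?_⟩, hm (-t) (-t) htn htn, ?_⟩ c3 c4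
    · show _ < q.re
      rw [re]; linarith
    · show _ < q.im
      rw [im]; linarith
  have d3 := IsConnected.union ⟨q + (((-t : ℝ) : ℂ) + (t : ℂ) * I), Or.inr ⟨hm (-t) t htn htt, by
      show q.im < _
      rw [im]; linarith⟩, Or.inl ⟨hm (-t) t htn htt, by
      show _ < q.re
      rw [re]; linarith⟩⟩ d1 d2
  have e : B \ {q} = ((B ∩ {z : ℂ | q.re < z.re}) ∪ (B ∩ {z : ℂ | q.im < z.im})) ∪
      ((B ∩ {z : ℂ | z.re < q.re}) ∪ (B ∩ {z : ℂ | z.im < q.im})) := by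
    ext z
    constructor
    · rintro ⟨hz, hne⟩
      rcases lt_trichotomy q.re z.re with h | h | h
      · exact Or.inl (Or.inl ⟨hz, h⟩)
      · rcases lt_trichotomy q.im z.im with h' | h' | h'
        · exact Or.inl (Or.inr ⟨hz, h'⟩)
        · exact absurd (Complex.ext h.symm h'.symm) hne
        · exact Or.inr (Or.inr ⟨hz, h'⟩)
      · exact Or.inr (Or.inl ⟨hz, h⟩)
    · rintro ((⟨hz, h⟩ | ⟨hz, h⟩) | (⟨hz, h⟩ | ⟨hz, h⟩)) <;>
        refine ⟨hz, fun hq => ?_⟩ <;>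
        rw [mem_singleton_iff] at hq <;>
        rw [hq] at h <;>
        exact absurd h (by simp [Set.mem_ofPred_eq])
  rw [e]
  exact d3

private lemma ginv_cont (q : ℂ) (t : ℝ) (z : ℂ) (hz : z ≠ q) : ContinuousAt (ginv q t) z := by
  unfold ginv
  exact continuousAt_const.div (continuousAt_id.sub continuousAt_const) (sub_ne_zero.mpr hz)

private lemma ginv_left (q : ℂ) (t : ℝ) (ht : 0 < t) (z : ℂ) (hz : z ≠ q) : q + (t : ℂ) / ginv q t z = z := by
  unfold ginv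
  have h1 : (t : ℂ) ≠ 0 := by exact_mod_cast ht.ne'
  have h2 : z - q ≠ 0 := sub_ne_zero.mpr hz
  field_simp
  ring

private lemma ginv_right (q : ℂ) (t : ℝ) (ht : 0 < t) (w : ℂ) (_hw : w ≠ 0) : ginv q t (q + (t : ℂ) / w) = w := by
  unfold ginv
  have h1 : (t : ℂ) ≠ 0 := by exact_mod_cast ht.ne'
  rw [add_sub_cancel_left, div_div_cancel₀ h1]

private lemma ginv_ne (q : ℂ) (t : ℝ) (ht : 0 < t) (z : ℂ) (hz : z ≠ q) : ginv q t z ≠ 0 := by
  unfold ginv
  have h1 : (t : ℂ) ≠ 0 := by exact_mod_cast ht.ne'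
  exact div_ne_zero h1 (sub_ne_zero.mpr hz)

private lemma ginv_tne (q : ℂ) (t : ℝ) (ht : 0 < t) (w : ℂ) (hw : w ≠ 0) : q + (t : ℂ) / w ≠ q := by
  have h1 : (t : ℂ) ≠ 0 := by exact_mod_cast ht.ne'
  intro h
  have h2 : (t : ℂ) / w = 0 := by linear_combination h
  exact div_ne_zero h1 hw h2

private lemma ginv_open (q : ℂ) (t : ℝ) (ht : 0 < t) (S : Set ℂ) (hS : IsOpen S) (hq : q ∉ S) : IsOpen (ginv q t '' S) := by
  have e : ginv q t '' S = ({0} : Set ℂ)ᶜ ∩ (fun w : ℂ => q + (t : ℂ) / w) ⁻¹' S := by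
    ext w
    constructor
    · rintro ⟨z, hz, rfl⟩
      have hne : z ≠ q := fun h => hq (h ▸ hz)
      refine ⟨ginv_ne q t ht z hne, ?_⟩
      rw [mem_preimage, ginv_left q t ht z hne]
      exact hz
    · rintro ⟨hw, hz⟩
      exact ⟨_, hz, ginv_right q t ht w hw⟩
  rw [e]
  refine ContinuousOn.isOpen_inter_preimage ?_ isOpen_compl_singleton hS
  intro w hw
  exact (continuousAt_const.add (continuousAt_const.div continuousAt_id hw)).continuousWithinAt

private lemma ginv_conn (q : ℂ) (t : ℝ) (S : Set ℂ) (hS : IsConnected S) (hq : q ∉ S) : IsConnected (ginv q t '' S) :=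
  hS.image _ fun z hz => (ginv_cont q t z fun h => hq (h ▸ hz)).continuousWithinAt

theorem piece_ginv : S_ginv := by
  intro Ω B q t hΩ hΩc hB hBc hne ht hqB hqΩ
  have hqball : q ∈ ball q (3 * t) := mem_ball_self (by linarith)
  have hqB' : q ∈ B := hqB hqball
  have hqΩ' : q ∉ Ω := fun h => (Set.disjoint_left.mp hqΩ) hqball h
  have hqG : q ∉ (Ω ∪ B) \ {q} := fun h => h.2 rfl
  have hG : IsOpen ((Ω ∪ B) \ {q}) := (hΩ.union hB).sdiff isClosed_singleton
  have hGc : IsConnected ((Ω ∪ B) \ {q}) := by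
    have e : (Ω ∪ B) \ {q} = Ω ∪ (B \ {q}) := by
      ext z
      constructor
      · rintro ⟨h | h, hq⟩
        · exact Or.inl h
        · exact Or.inr ⟨h, hq⟩
      · rintro (h | ⟨h, hq⟩)
        · exact ⟨Or.inl h, fun hz => hqΩ' (by rw [mem_singleton_iff] at hz; rw [← hz]; exact h)⟩
        · exact ⟨Or.inr h, hq⟩
    rw [e]
    obtain ⟨x, hx1, hx2⟩ := hne
    exact IsConnected.union ⟨x, hx1, hx2, fun hz => hqΩ' (by rw [mem_singleton_iff] at hz; rw [← hz]; exact hx1)⟩ hΩc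
      (ginv_punct B hBc q t ht hqB)
  refine ⟨ginv_open q t ht Ω hΩ hqΩ', ginv_conn q t Ω hΩc hqΩ', ginv_open q t ht _ hG hqG, ginv_conn q t _ hGc hqG, ?_, ?_, ?_⟩
  · rintro w ⟨z, hz, rfl⟩
    have h1 : 3 * t ≤ ‖z - q‖ := by
      by_contra hcon
      exact (Set.disjoint_left.mp hqΩ) (by rw [mem_ball, dist_eq_norm]; exact not_le.mp hcon) hz
    rw [mem_ball_zero_iff]
    unfold ginv
    rw [norm_div, Complex.norm_real, Real.norm_of_nonneg ht.le]
    rw [div_lt_iff₀ (by linarith)]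
    linarith
  · apply image_mono
    intro z hz
    exact ⟨Or.inl hz, fun h => hqΩ' (by rw [mem_singleton_iff] at h; rw [← h]; exact hz)⟩
  · intro z hz
    have hz0 : z ≠ 0 := by
      rintro rfl
      rw [norm_zero] at hz
      linarith
    refine ⟨q + (t : ℂ) / z, ⟨Or.inr (hqB ?_), ginv_tne q t ht z hz0⟩, ginv_right q t ht z hz0⟩
    rw [mem_ball, dist_eq_norm, add_sub_cancel_left, norm_div, Complex.norm_real, Real.norm_of_nonneg ht.le]
    rw [div_lt_iff₀ (by linarith)]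
    nlinarith

end

end Cal
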