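import Pool.Agent.Lib.MP_4ea4c7_an.StmH0

/-!
# MP_4ea4c7_an, stage 2, piece g9: boundary points of domains with smooth boundary are in the closure of the exterior
-/

open MeasureTheory Complex Metric Set Filter Topology
open scoped ComplexConjugate ENNReal NNReal

namespace Cal

open LocalCalderon

noncomputable section

theorem piece_gsm : S_gsm := by
  intro n Ω hΩ hB p hp
  obtain ⟨r, a, h, hr, ha, hh, hiff⟩ := hB p hp
  have hcont : Continuous h := hh.continuous
  have hpΩ : p ∉ Ω := by
    rw [hΩ.frontier_eq] at hp
    exact hp.2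
  have hca : conj a * a = 1 := by
    rw [← Complex.normSq_eq_conj_mul_self, Complex.normSq_eq_norm_sq, ha]; norm_num
  have h0 : 0 ≤ h 0 := by
    by_contra hlt
    push Not at hlt
    refine hpΩ ((hiff p (mem_ball_self hr)).2 ?_)
    simpa using hlt
  rw [Metric.mem_closure_iff]
  intro e he
  set s : ℝ := min e r / 2 with hs
  have hs0 : 0 < s := by positivity
  have hse : s < e := by
    have := min_le_left e r
    rw [hs]; linarith
  have hsr : s < r := by
    have := min_le_right e r
    rw [hs]; linarith
  set z : ℂ := p - I * a * s with hz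
  have hzp : conj a * (z - p) = -(I * s) := by
    rw [hz]
    linear_combination (-(I * (s : ℂ))) * hca
  have hdist : dist z p = s := by
    rw [Complex.dist_eq]
    have : z - p = -(I * a * s) := by rw [hz]; ring
    rw [this, norm_neg, norm_mul, norm_mul, Complex.norm_I, ha, Complex.norm_real, Real.norm_eq_abs, abs_of_pos hs0]
    ring
  refine ⟨z, ?_, ?_⟩
  · intro hcl
    have hf : Continuous (fun w : ℂ => h ((conj a * (w - p)).re) - (conj a * (w - p)).im) := by fun_prop
    have hfz : 0 < h ((conj a * (z - p)).re) - (conj a * (z - p)).im := by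
      rw [hzp]
      have e1 : (-(I * (s : ℂ))).re = 0 := by simp
      have e2 : (-(I * (s : ℂ))).im = -s := by simp
      rw [e1, e2]; linarith
    have hopen : IsOpen ({w : ℂ | 0 < h ((conj a * (w - p)).re) - (conj a * (w - p)).im} ∩ ball p r) :=
      (isOpen_lt continuous_const hf).inter isOpen_ball
    obtain ⟨w, ⟨hw1, hw2⟩, hw3⟩ := mem_closure_iff.1 hcl _ hopen ⟨hfz, by rw [mem_ball, hdist]; exact hsr⟩
    have := (hiff w hw2).1 hw3
    simp only [mem_setOf_eq] at hw1
    linarith
  · rw [dist_comm, hdist]; exact hse

end

end Cal
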