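import Pool.Agent.Lib.MP_4ea4c7_an.StmH0

/-! [g7] From the local data to the transfer of solutions in normalised position. -/

open MeasureTheory Complex Metric Set Filter Topology
open scoped ComplexConjugate ENNReal NNReal Manifold

namespace Cal

open LocalCalderon

/-- smooth cutoff equal to one near a compact set, with support in an open neighbourhood -/
private theorem gtt_cut {K U : Set ℂ} (hK : IsCompact K) (hU : IsOpen U) (hKU : K ⊆ U) :
    ∃ χ : ℂ → ℝ, IsTest U χ ∧ ∀ z ∈ K, χ =ᶠ[𝓝 z] fun _ => 1 := by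
  obtain ⟨R, hR⟩ := hK.isBounded.subset_ball (0 : ℂ)
  have hO : IsOpen (U ∩ ball 0 R) := hU.inter isOpen_ball
  have hd : Disjoint (U ∩ ball 0 R)ᶜ K := by
    rw [Set.disjoint_left]
    intro z hz hzK
    exact hz ⟨hKU hzK, hR hzK⟩
  obtain ⟨f, h0, h1, -⟩ := exists_contMDiffMap_zero_one_nhds_of_isClosed (n := (⊤ : ℕ∞)) 𝓘(ℝ, ℂ)
    hO.isClosed_compl hK.isClosed hd
  have hsub : tsupport f ⊆ U ∩ ball 0 R := by
    intro z hz
    by_contra hzn
    have h2 : ∀ᶠ w in 𝓝 z, f w = 0 := by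
      have := h0
      rw [eventually_nhdsSet_iff_forall] at this
      exact this z hzn
    exact (notMem_tsupport_iff_eventuallyEq.mpr h2) hz
  refine ⟨f, ⟨f.contMDiff.contDiff, ?_, hsub.trans inter_subset_left⟩, fun z hz => ?_⟩
  · refine HasCompactSupport.intro (isCompact_closedBall (0 : ℂ) R) fun z hz => ?_
    have : z ∉ tsupport f := fun h => hz (ball_subset_closedBall (hsub h).2)
    exact image_eq_zero_of_notMem_tsupport this
  · rw [eventually_nhdsSet_iff_forall] at h1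
    exact h1 z hz

private theorem gtt_tuniv {U : Set ℂ} {φ : ℂ → ℝ} (h : IsTest U φ) : IsTest univ φ :=
  ⟨h.1, h.2.1, subset_univ _⟩

private theorem gtt_tdiff {U : Set ℂ} {φ : ℂ → ℝ} (h : IsTest U φ) : Differentiable ℝ φ :=
  h.1.differentiable (by simp)

private theorem gtt_gcont {φ : ℂ → ℝ} (h : ContDiff ℝ (⊤ : ℕ∞) φ) : Continuous (grad φ) := by
  have h1 : Continuous (fun z => fderiv ℝ φ z 1) := (h.continuous_fderiv (by simp)).clm_apply continuous_const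
  have h2 : Continuous (fun z => fderiv ℝ φ z I) := (h.continuous_fderiv (by simp)).clm_apply continuous_const
  exact (Complex.continuous_ofReal.comp h1).add (continuous_const.mul (Complex.continuous_ofReal.comp h2))

private theorem gtt_gzero {φ : ℂ → ℝ} {z : ℂ} (hz : z ∉ tsupport φ) : grad φ z = 0 := by
  unfold grad
  rw [fderiv_of_notMem_tsupport (𝕜 := ℝ) hz]; simp

private theorem gtt_gsupp {φ : ℂ → ℝ} (h : HasCompactSupport φ) : HasCompactSupport (grad φ) :=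
  HasCompactSupport.intro h (fun _ hz => gtt_gzero hz)

private theorem gtt_tmem {U : Set ℂ} {φ : ℂ → ℝ} (h : IsTest U φ) (Ω : Set ℂ) : MemLp φ 2 (volume.restrict Ω) :=
  (h.1.continuous.memLp_of_hasCompactSupport h.2.1).restrict Ω

private theorem gtt_tmemC {U : Set ℂ} {φ : ℂ → ℝ} (h : IsTest U φ) (Ω : Set ℂ) :
    MemLp (fun z => (φ z : ℂ)) 2 (volume.restrict Ω) :=
  (gtt_tmem h Ω).ofReal

private theorem gtt_gmem {U : Set ℂ} {φ : ℂ → ℝ} (h : IsTest U φ) (Ω : Set ℂ) :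
    MemLp (grad φ) 2 (volume.restrict Ω) :=
  ((gtt_gcont h.1).memLp_of_hasCompactSupport (gtt_gsupp h.2.1)).restrict Ω

private theorem gtt_gmul {φ ψ : ℂ → ℝ} {z : ℂ} (h1 : DifferentiableAt ℝ φ z) (h2 : DifferentiableAt ℝ ψ z) :
    grad (fun z => φ z * ψ z) z = φ z * grad ψ z + ψ z * grad φ z := by
  unfold grad
  rw [fderiv_fun_mul h1 h2]
  simp only [add_apply, smul_apply, smul_eq_mul]
  push_cast; ring

private theorem gtt_tmull {U : Set ℂ} {η φ : ℂ → ℝ} (h1 : ContDiff ℝ (⊤ : ℕ∞) η) (h2 : IsTest U φ) :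
    IsTest U (fun z => φ z * η z) :=
  ⟨h2.1.mul h1, h2.2.1.mul_right (f' := η), (tsupport_mul_subset_left (f := φ) (g := η)).trans h2.2.2⟩

private theorem gtt_bdd {f : ℂ → ℂ} (h1 : Continuous f) (h2 : HasCompactSupport f) : ∃ C : ℝ, 0 ≤ C ∧ ∀ z, ‖f z‖ ≤ C := by
  obtain ⟨C, hC⟩ := h2.exists_bound_of_continuous h1
  exact ⟨max C 0, le_max_right _ _, fun z => (hC z).trans (le_max_left _ _)⟩

private theorem gtt_tbdd {U : Set ℂ} {φ : ℂ → ℝ} (h : IsTest U φ) : ∃ C : ℝ, 0 ≤ C ∧ (∀ z, |φ z| ≤ C) ∧ ∀ z, ‖grad φ z‖ ≤ C := by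
  obtain ⟨C, hC⟩ := h.2.1.exists_bound_of_continuous h.1.continuous
  obtain ⟨C', h0, hC'⟩ := gtt_bdd (gtt_gcont h.1) (gtt_gsupp h.2.1)
  exact ⟨max C C', h0.trans (le_max_right _ _), fun z => (hC z).trans (le_max_left _ _), fun z => (hC' z).trans (le_max_right _ _)⟩

private theorem gtt_csq (μ : Measure ℂ) (f g : ℂ → ℂ) (hf : MemLp f 2 μ) (hg : MemLp g 2 μ) :
    ‖∫ z, f z * g z ∂μ‖ₑ ≤ eLpNorm f 2 μ * eLpNorm g 2 μ := by
  calc ‖∫ z, f z * g z ∂μ‖ₑ ≤ ∫⁻ z, ‖f z * g z‖ₑ ∂μ := enorm_integral_le_lintegral_enorm _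
    _ = eLpNorm (f • g) 1 μ := by
        rw [eLpNorm_one_eq_lintegral_enorm]; rfl
    _ ≤ eLpNorm f 2 μ * eLpNorm g 2 μ := eLpNorm_smul_le_mul_eLpNorm hg.1 hf.1

private theorem gtt_ibp (h1 : S_h1) {Ω : Set ℂ} (hΩ : IsOpen Ω) {φ ψ : ℂ → ℝ} (hφ : IsTest Ω φ) (hψ : IsTest univ ψ) :
    ∫ z in Ω, (φ z : ℂ) * grad ψ z = - ∫ z in Ω, (ψ z : ℂ) * grad φ z := by
  obtain ⟨a, b⟩ := h1.2.2.2.2.2.2.1 Ω ψ hΩ hψ
  have c := (h1.1 Ω ψ a).2 φ hφ
  rw [c, neg_neg]
  refine integral_congr_ae ?_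
  filter_upwards [b] with z hz
  rw [hz]

private theorem gtt_weak (h1 : S_h1) {Ω : Set ℂ} (hΩ : IsOpen Ω) {u : ℂ → ℝ} {G : ℂ → ℂ}
    (hu : MemLp u 2 (volume.restrict Ω)) (hG : MemLp G 2 (volume.restrict Ω))
    (h : ∀ ε : ℝ, 0 < ε → ∃ φ : ℂ → ℝ, IsTest Ω φ ∧
      eLpNorm (fun z => u z - φ z) 2 (volume.restrict Ω) ≤ ENNReal.ofReal ε ∧
      eLpNorm (fun z => G z - grad φ z) 2 (volume.restrict Ω) ≤ ENNReal.ofReal ε) :
    ∀ ψ : ℂ → ℝ, IsTest univ ψ → ∫ z in Ω, (u z : ℂ) * grad ψ z = - ∫ z in Ω, (ψ z : ℂ) * G z := by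
  intro ψ hψ
  have huC : MemLp (fun z => (u z : ℂ)) 2 (volume.restrict Ω) := hu.ofReal
  set A := eLpNorm (grad ψ) 2 (volume.restrict Ω) with hA
  set B := eLpNorm (fun z => (ψ z : ℂ)) 2 (volume.restrict Ω) with hB
  have hAt : A ≠ ⊤ := (gtt_gmem hψ Ω).2.ne
  have hBt : B ≠ ⊤ := (gtt_tmemC hψ Ω).2.ne
  have key : ∀ ε : ℝ, 0 < ε → ‖(∫ z in Ω, (u z : ℂ) * grad ψ z) + ∫ z in Ω, (ψ z : ℂ) * G z‖ₑ
      ≤ ENNReal.ofReal ε * (A + B) := by
    intro ε hε
    obtain ⟨φ, t1, t2, t3⟩ := h ε hε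
    have e0 := gtt_ibp h1 hΩ t1 hψ
    have i1 : Integrable (fun z => (u z : ℂ) * grad ψ z) (volume.restrict Ω) := huC.integrable_mul (gtt_gmem hψ Ω)
    have i2 : Integrable (fun z => (φ z : ℂ) * grad ψ z) (volume.restrict Ω) :=
      (gtt_tmemC t1 Ω).integrable_mul (gtt_gmem hψ Ω)
    have i3 : Integrable (fun z => (ψ z : ℂ) * G z) (volume.restrict Ω) := (gtt_tmemC hψ Ω).integrable_mul hG
    have i4 : Integrable (fun z => (ψ z : ℂ) * grad φ z) (volume.restrict Ω) :=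
      (gtt_tmemC hψ Ω).integrable_mul (gtt_gmem t1 Ω)
    have e1 : (∫ z in Ω, (u z : ℂ) * grad ψ z) + ∫ z in Ω, (ψ z : ℂ) * G z =
        (∫ z in Ω, ((u z : ℂ) - (φ z : ℂ)) * grad ψ z) + ∫ z in Ω, (ψ z : ℂ) * (G z - grad φ z) := by
      simp only [sub_mul, mul_sub]
      rw [integral_sub i1 i2, integral_sub i3 i4, e0]; ring
    rw [e1]
    refine (enorm_add_le _ _).trans ?_
    have c1 := gtt_csq (volume.restrict Ω) (fun z => (u z : ℂ) - (φ z : ℂ)) (grad ψ) (huC.sub (gtt_tmemC t1 Ω))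
      (gtt_gmem hψ Ω)
    have c2 := gtt_csq (volume.restrict Ω) (fun z => (ψ z : ℂ)) (fun z => G z - grad φ z) (gtt_tmemC hψ Ω)
      (hG.sub (gtt_gmem t1 Ω))
    have c3 : eLpNorm (fun z => (u z : ℂ) - (φ z : ℂ)) 2 (volume.restrict Ω) =
        eLpNorm (fun z => u z - φ z) 2 (volume.restrict Ω) := by
      refine eLpNorm_congr_norm_ae (Eventually.of_forall fun z => ?_)
      rw [← Complex.ofReal_sub, Complex.norm_real]
    rw [c3] at c1
    refine (add_le_add c1 c2).trans ?_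
    rw [mul_add]
    refine add_le_add (mul_le_mul' t2 le_rfl) ?_
    rw [mul_comm]
    exact mul_le_mul' t3 le_rfl
  have hz : ‖(∫ z in Ω, (u z : ℂ) * grad ψ z) + ∫ z in Ω, (ψ z : ℂ) * G z‖ₑ ≤ 0 := by
    have hlim : Tendsto (fun n : ℕ => ENNReal.ofReal (1 / ((n : ℝ) + 1)) * (A + B)) atTop (𝓝 0) := by
      have t1 : Tendsto (fun n : ℕ => ENNReal.ofReal (1 / ((n : ℝ) + 1))) atTop (𝓝 0) := by
        have := ENNReal.tendsto_ofReal tendsto_one_div_add_atTop_nhds_zero_nat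
        simpa using this
      have := ENNReal.Tendsto.mul_const t1 (Or.inr (ENNReal.add_ne_top.mpr ⟨hAt, hBt⟩) : (0 : ℝ≥0∞) ≠ 0 ∨ A + B ≠ ⊤)
      simpa using this
    exact ge_of_tendsto hlim (Eventually.of_forall fun n => key _ (by positivity))
  have hz' : (∫ z in Ω, (u z : ℂ) * grad ψ z) + ∫ z in Ω, (ψ z : ℂ) * G z = 0 := by
    simpa using hz
  exact eq_neg_of_add_eq_zero_left hz'

/-- The core: if `u` is approximated on `Ω` by test functions of `G` and the support of `η` avoids the part of the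
boundary of `Ω` in `G`, then `η u ∈ H¹₀(Ω)`. -/
private theorem gtt_H10 (h1 : S_h1) {Ω G : Set ℂ} (hΩ : IsOpen Ω) {u η : ℂ → ℝ} (hu : H1 Ω u) (hη : IsTest univ η)
    (hS : ∀ φ : ℂ → ℝ, IsTest G φ → tsupport η ∩ tsupport φ ∩ closure Ω ⊆ Ω)
    (happ : ∀ ε : ℝ, 0 < ε → ∃ φ : ℂ → ℝ, IsTest G φ ∧
      eLpNorm (fun z => u z - φ z) 2 (volume.restrict Ω) ≤ ENNReal.ofReal ε ∧
      eLpNorm (fun z => wgrad Ω u z - grad φ z) 2 (volume.restrict Ω) ≤ ENNReal.ofReal ε) :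
    H10 Ω (fun z => η z * u z) := by
  obtain ⟨a, b⟩ := h1.2.2.2.2.1 Ω u η hΩ hu hη
  obtain ⟨C, hC0, hC1, hC2⟩ := gtt_tbdd hη
  have hm := (h1.1 Ω u hu).1
  refine ⟨a, fun ε0 hε0 => ?_⟩
  set ε : ℝ := ε0 / (C + C + 1) with hεdef
  have hε : 0 < ε := by positivity
  have hle : (C + C) * ε ≤ ε0 := by
    rw [hεdef, mul_div_assoc', div_le_iff₀ (by positivity)]; nlinarith
  obtain ⟨φ, t1, t2, t3⟩ := happ ε hε
  have hc : IsCompact (tsupport η ∩ tsupport φ ∩ closure Ω) :=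
    (IsCompact.inter_right (s := tsupport η) (t := tsupport φ) hη.2.1 (isClosed_tsupport φ)).inter_right
      isClosed_closure
  obtain ⟨ζ, hζ, hζ1⟩ := gtt_cut hc hΩ (hS φ t1)
  have heq : ∀ z ∈ Ω, ζ z * (η z * φ z) = η z * φ z := by
    intro z hz
    by_cases h0 : η z * φ z = 0
    · rw [h0, mul_zero]
    · have ha : z ∈ tsupport η := subset_tsupport _ (left_ne_zero_of_mul h0)
      have hb : z ∈ tsupport φ := subset_tsupport _ (right_ne_zero_of_mul h0)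
      have := (hζ1 z ⟨⟨ha, hb⟩, subset_closure hz⟩).self_of_nhds
      rw [this, one_mul]
  have hgeq : ∀ z ∈ Ω, grad (fun z => ζ z * (η z * φ z)) z = η z * grad φ z + φ z * grad η z := by
    intro z hz
    have h0 : (fun z => ζ z * (η z * φ z)) =ᶠ[𝓝 z] fun z => η z * φ z := by
      filter_upwards [hΩ.mem_nhds hz] with w hw
      exact heq w hw
    rw [← gtt_gmul (gtt_tdiff hη z) (gtt_tdiff t1 z)]
    unfold grad
    rw [h0.fderiv_eq]
  refine ⟨fun z => ζ z * (η z * φ z), gtt_tmull (hη.1.mul t1.1) hζ, ?_, ?_⟩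
  · have e0 : eLpNorm (fun z => η z * u z - ζ z * (η z * φ z)) 2 (volume.restrict Ω) =
        eLpNorm (fun z => η z * u z - η z * φ z) 2 (volume.restrict Ω) := by
      refine eLpNorm_congr_ae ?_
      filter_upwards [ae_restrict_mem hΩ.measurableSet] with z hz
      rw [heq z hz]
    have e1 : eLpNorm (fun z => η z * u z - η z * φ z) 2 (volume.restrict Ω) ≤
        ENNReal.ofReal C * eLpNorm (fun z => u z - φ z) 2 (volume.restrict Ω) := by
      refine eLpNorm_le_mul_eLpNorm_of_ae_le_mul (Eventually.of_forall fun z => ?_) 2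
      rw [← mul_sub, norm_mul]
      exact mul_le_mul_of_nonneg_right (hC1 z) (norm_nonneg _)
    rw [e0]
    refine e1.trans ((mul_le_mul' le_rfl t2).trans ?_)
    rw [← ENNReal.ofReal_mul hC0]
    exact ENNReal.ofReal_le_ofReal (by nlinarith)
  · have e : eLpNorm (fun z => wgrad Ω (fun z => η z * u z) z - grad (fun z => ζ z * (η z * φ z)) z) 2
        (volume.restrict Ω) =
        eLpNorm (fun z => ((η z : ℂ) * (wgrad Ω u z - grad φ z)) + ((u z : ℂ) - (φ z : ℂ)) * grad η z) 2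
        (volume.restrict Ω) := by
      refine eLpNorm_congr_ae ?_
      filter_upwards [b, ae_restrict_mem hΩ.measurableSet] with z hz hz'
      rw [hz, hgeq z hz']; ring
    rw [e]
    have m1 : AEStronglyMeasurable (fun z => (η z : ℂ) * (wgrad Ω u z - grad φ z)) (volume.restrict Ω) :=
      (gtt_tmemC hη Ω).1.mul (hm.1.sub (gtt_gmem t1 Ω).1)
    have m2 : AEStronglyMeasurable (fun z => ((u z : ℂ) - (φ z : ℂ)) * grad η z) (volume.restrict Ω) :=
      (((hu.1).ofReal (K := ℂ)).1.sub (gtt_tmemC t1 Ω).1).mul (gtt_gmem hη Ω).1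
    refine (eLpNorm_add_le m1 m2 (by norm_num)).trans ?_
    have n1 : eLpNorm (fun z => (η z : ℂ) * (wgrad Ω u z - grad φ z)) 2 (volume.restrict Ω) ≤
        ENNReal.ofReal C * eLpNorm (fun z => wgrad Ω u z - grad φ z) 2 (volume.restrict Ω) := by
      refine eLpNorm_le_mul_eLpNorm_of_ae_le_mul (Eventually.of_forall fun z => ?_) 2
      rw [norm_mul, Complex.norm_real]
      exact mul_le_mul_of_nonneg_right (hC1 z) (norm_nonneg _)
    have n2 : eLpNorm (fun z => ((u z : ℂ) - (φ z : ℂ)) * grad η z) 2 (volume.restrict Ω) ≤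
        ENNReal.ofReal C * eLpNorm (fun z => u z - φ z) 2 (volume.restrict Ω) := by
      refine eLpNorm_le_mul_eLpNorm_of_ae_le_mul (Eventually.of_forall fun z => ?_) 2
      rw [norm_mul, ← Complex.ofReal_sub, Complex.norm_real, mul_comm]
      exact mul_le_mul_of_nonneg_right (hC2 z) (norm_nonneg _)
    refine (add_le_add (n1.trans (mul_le_mul' le_rfl t3)) (n2.trans (mul_le_mul' le_rfl t2))).trans ?_
    rw [← ENNReal.ofReal_mul hC0, ← ENNReal.ofReal_add (by positivity) (by positivity)]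
    exact ENNReal.ofReal_le_ofReal (by nlinarith)

private theorem gtt_int {U : Set ℂ} {B : ℂ → ℂ} {φ γ : ℂ → ℝ} {C : ℝ} (hB : MemLp B 2 volume) (hφ : IsTest U φ)
    (hm : Measurable γ) (h0 : ∀ z, 0 ≤ γ z) (hC : ∀ z, γ z ≤ C) :
    Integrable (fun z => γ z * ip (B z) (gr φ z)) volume := by
  have hc : Continuous (fun z => conj (grad φ z)) := Complex.continuous_conj.comp (gtt_gcont hφ.1)
  have hs : HasCompactSupport (fun z => conj (grad φ z)) :=
    HasCompactSupport.intro hφ.2.1 (fun z hz => by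
      show conj (grad φ z) = 0
      rw [gtt_gzero hz, map_zero])
  have hg : MemLp (fun z => conj (grad φ z)) 2 volume := hc.memLp_of_hasCompactSupport hs
  have i1 : Integrable (fun z => B z * conj (grad φ z)) volume := hB.integrable_mul hg
  have i2 : Integrable (fun z => ip (B z) (gr φ z)) volume := i1.re
  exact i2.bdd_mul (c := C) hm.aestronglyMeasurable (Eventually.of_forall fun z => by
    rw [Real.norm_eq_abs, abs_of_nonneg (h0 z)]; exact hC z)

theorem piece_gtt (h1 : S_h1) (h2 : S_h10) (h3 : S_trc) : S_gtt := by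
  intro c C Ω G Γ K γ₁ γ₂ hc hγ₁ hγ₂ hΩ hG hΩb hΩG hΓ hK hKΓ hGK hoff hdata u U hin hsol
  have hbd : Bornology.IsBounded Ω := isBounded_ball.subset hΩb
  have hΩm : MeasurableSet Ω := hΩ.measurableSet
  -- the cutoff near the closed disc of radius 1/2
  obtain ⟨χ, hχ, hχ1⟩ := gtt_cut (isCompact_closedBall (0 : ℂ) (1 / 2)) (isOpen_ball (x := (0 : ℂ)) (ε := 5 / 8))
    (closedBall_subset_ball (by norm_num))
  have hone : ∀ (χ' : ℂ → ℝ) (z : ℂ), (χ' =ᶠ[𝓝 z] fun _ => 1) → χ' z = 1 ∧ gr χ' z = 0 := by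
    intro χ' z hz
    refine ⟨hz.self_of_nhds, ?_⟩
    unfold gr
    rw [hz.fderiv_eq]
    simp
  have hloc : ∀ (χ' : ℂ → ℝ) (z : ℂ), (χ' =ᶠ[𝓝 z] fun _ => 1) →
      χ' z * u z = u z ∧ (χ' z : ℂ) * U z + (u z : ℂ) * gr χ' z = U z := by
    intro χ' z hz
    obtain ⟨e1, e2⟩ := hone χ' z hz
    rw [e1, e2]
    simp
  have hΩc : ∀ z ∈ Ω, χ =ᶠ[𝓝 z] fun _ => 1 := fun z hz =>
    hχ1 z (ball_subset_closedBall (hΩb hz))
  have hH := hin χ hχ
  have happG : ∀ ε : ℝ, 0 < ε → ∃ φ : ℂ → ℝ, IsTest G φ ∧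
      eLpNorm (fun z => χ z * u z - φ z) 2 volume ≤ ENNReal.ofReal ε ∧
      eLpNorm (fun z => (χ z : ℂ) * U z + (u z : ℂ) * gr χ z - grad φ z) 2 volume ≤ ENNReal.ofReal ε := by
    intro ε hε
    obtain ⟨φ, f1, f2, f3⟩ := hH.app ε hε
    exact ⟨φ, f1, f2.le, f3.le⟩
  -- `u` is in `H¹(Ω)` with gradient `U`
  have hweak : WeakGrad G (fun z => χ z * u z) (fun z => (χ z : ℂ) * U z + (u z : ℂ) * gr χ z) := by
    intro ψ hψ
    refine gtt_weak h1 hG (hH.mu.restrict G) (hH.mU.restrict G) ?_ ψ (gtt_tuniv hψ)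
    intro ε hε
    obtain ⟨φ, f1, f2, f3⟩ := happG ε hε
    exact ⟨φ, f1, (eLpNorm_mono_measure _ Measure.restrict_le_self).trans f2,
      (eLpNorm_mono_measure _ Measure.restrict_le_self).trans f3⟩
  obtain ⟨hHG, hwG⟩ := h1.2.1 G _ _ hG (hH.mu.restrict G) (hH.mU.restrict G) hweak
  obtain ⟨hHΩ, hwΩ⟩ := h1.2.2.2.2.2.1 Ω G _ hΩ hG hΩG hHG
  have hau : (fun z => χ z * u z) =ᵐ[volume.restrict Ω] u := by
    filter_upwards [ae_restrict_mem hΩm] with z hz
    exact (hloc χ z (hΩc z hz)).1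
  obtain ⟨hu, hwu⟩ := h1.2.2.2.1 Ω _ u hΩ hHΩ hau
  have hgu : wgrad Ω u =ᵐ[volume.restrict Ω] U := by
    filter_upwards [hwu, hwΩ, ae_restrict_of_ae_restrict_of_subset hΩG hwG, ae_restrict_mem hΩm] with z a1 a2 a3 a4
    rw [← a1, a2, a3]
    exact (hloc χ z (hΩc z a4)).2
  have happ : ∀ ε : ℝ, 0 < ε → ∃ φ : ℂ → ℝ, IsTest G φ ∧
      eLpNorm (fun z => u z - φ z) 2 (volume.restrict Ω) ≤ ENNReal.ofReal ε ∧
      eLpNorm (fun z => wgrad Ω u z - grad φ z) 2 (volume.restrict Ω) ≤ ENNReal.ofReal ε := by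
    intro ε hε
    obtain ⟨φ, f1, f2, f3⟩ := happG ε hε
    refine ⟨φ, f1, ?_, ?_⟩
    · refine le_of_eq_of_le (eLpNorm_congr_ae (g := fun z => χ z * u z - φ z) ?_)
        ((eLpNorm_mono_measure _ Measure.restrict_le_self).trans f2)
      filter_upwards [hau] with z hz
      have hz' : χ z * u z = u z := hz
      rw [hz']
    · refine le_of_eq_of_le
        (eLpNorm_congr_ae (g := fun z => (χ z : ℂ) * U z + (u z : ℂ) * gr χ z - grad φ z) ?_)
        ((eLpNorm_mono_measure _ Measure.restrict_le_self).trans f3)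
      filter_upwards [hgu, ae_restrict_mem hΩm] with z hz hz'
      rw [hz, (hloc χ z (hΩc z hz')).2]
  -- supports
  have hS : ∀ η : ℂ → ℝ, Disjoint (tsupport η) K → ∀ φ : ℂ → ℝ, IsTest G φ →
      tsupport η ∩ tsupport φ ∩ closure Ω ⊆ Ω := by
    rintro η hd φ hφ z ⟨⟨z1, z2⟩, z3⟩
    by_contra hn
    have hz5 : z ∈ frontier Ω := by rw [hΩ.frontier_eq]; exact ⟨z3, hn⟩
    exact Set.disjoint_left.mp hd z1 (hGK ⟨hφ.2.2 z2, hz5⟩)
  have hTr : TraceIn Ω Γ u := ⟨K, hKΓ, hK, fun η hη hd => gtt_H10 h1 hΩ hu hη (hS η hd) happ⟩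
  -- `u` is a solution
  have hIs : IsSol Ω γ₁ u := by
    refine ⟨hu, fun φ hφ => ?_⟩
    have e1 : ∫ z in Ω, γ₁ z * dot (wgrad Ω u z) (grad φ z) = ∫ z in Ω, γ₁ z * ip (U z) (gr φ z) := by
      refine integral_congr_ae ?_
      filter_upwards [hgu] with z hz
      rw [hz, h1.2.2.2.2.2.2.2.2]
      rfl
    rw [e1, setIntegral_eq_integral_of_forall_compl_eq_zero]
    · refine hsol φ ⟨hφ.1, hφ.2.1, fun z hz => ⟨hΩG (hφ.2.2 hz), ?_⟩⟩
      exact ball_subset_ball (by norm_num) (hΩb (hφ.2.2 hz))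
    · intro z hz
      have : gr φ z = 0 := gtt_gzero (fun h => hz (hφ.2.2 h))
      rw [this]
      simp [ip]
  -- the corresponding solution for `γ₂`
  have hmem : (({v | H1 Ω v ∧ SameTrace Ω Γ u v},
      fun ψ => ∫ z in Ω, γ₁ z * dot (wgrad Ω u z) (wgrad Ω ψ.1 z)) :
      Set (ℂ → ℝ) × ({ψ : ℂ → ℝ // H1 Ω ψ ∧ TraceIn Ω Γ ψ} → ℝ)) ∈ cauchyData Ω Γ γ₁ :=
    ⟨u, hIs, hTr, rfl⟩
  rw [hdata] at hmem
  obtain ⟨u₂, hs₂, ht₂, he⟩ := hmem
  rw [Prod.mk.injEq] at he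
  obtain ⟨he1, he2⟩ := he
  obtain ⟨q1, q2, q3, q4, q5⟩ := h3 Ω Γ hΩ hbd hΓ
  have hST : SameTrace Ω Γ u₂ u := by
    have : u ∈ {v | H1 Ω v ∧ SameTrace Ω Γ u v} := ⟨hu, q5 u⟩
    rw [he1] at this
    exact this.2
  have hDe : (fun z => u₂ z + (-1) * u z) = fun z => u₂ z - u z := by
    funext z; ring
  have hTrD : TraceIn Ω Γ (fun z => u₂ z - u z) := by
    have := q3 u₂ u (-1) ht₂ hTr
    rwa [hDe] at this
  have hD : H10 Ω (fun z => u₂ z - u z) := q1 u₂ u hs₂.1 hu hTrD hST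
  have hgD : wgrad Ω (fun z => u₂ z - u z) =ᵐ[volume.restrict Ω] fun z => wgrad Ω u₂ z - U z := by
    have := (h1.2.2.1 Ω u₂ u (-1) hΩ hs₂.1 hu).2
    rw [hDe] at this
    filter_upwards [this, hgu] with z a1 a2
    rw [a1, a2]
    push_cast
    ring
  set D : ℂ → ℝ := Ω.indicator (fun z => u₂ z - u z) with hDdef
  set E : ℂ → ℂ := Ω.indicator (wgrad Ω (fun z => u₂ z - u z)) with hEdef
  have hEm : MemLp E 2 volume := by
    rw [hEdef, memLp_indicator_iff_restrict hΩm]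
    exact (h1.1 Ω _ hD.1).1
  have hDm : MemLp D 2 volume := by
    rw [hDdef, memLp_indicator_iff_restrict hΩm]
    exact hD.1.1
  refine ⟨fun z => u z + D z, fun z => U z + E z, ?_, ?_⟩
  · have e1 : (fun z => u z + D z - u z) = D := by funext z; ring
    have e2 : (fun z => U z + E z - U z) = E := by funext z; ring
    rw [e1, e2]
    refine ⟨hDm, hEm, fun ε hε => ?_⟩
    obtain ⟨φ, f1, f2, f3⟩ := hD.2 (ε / 2) (by positivity)
    have hlt : ENNReal.ofReal (ε / 2) < ENNReal.ofReal ε :=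
      (ENNReal.ofReal_lt_ofReal_iff hε).mpr (by linarith)
    have hz : ∀ z, z ∉ Ω → z ∉ tsupport φ := fun z h h' => h (f1.2.2 h')
    refine ⟨φ, f1, lt_of_le_of_lt ?_ hlt, lt_of_le_of_lt ?_ hlt⟩
    · have hs : Function.support (fun z => D z - φ z) ⊆ Ω := by
        intro z hz'
        by_contra h
        apply hz'
        show D z - φ z = 0
        rw [hDdef, indicator_of_notMem h, image_eq_zero_of_notMem_tsupport (hz z h), sub_zero]
      rw [← eLpNorm_restrict_eq_of_support_subset hs]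
      refine le_of_eq_of_le (eLpNorm_congr_ae ?_) f2
      filter_upwards [ae_restrict_mem hΩm] with z h
      rw [hDdef, indicator_of_mem h]
    · have hs : Function.support (fun z => E z - gr φ z) ⊆ Ω := by
        intro z hz'
        by_contra h
        apply hz'
        have h0 : gr φ z = 0 := gtt_gzero (hz z h)
        show E z - gr φ z = 0
        rw [hEdef, indicator_of_notMem h, h0, sub_zero]
      rw [← eLpNorm_restrict_eq_of_support_subset hs]
      refine le_of_eq_of_le (eLpNorm_congr_ae ?_) f3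
      filter_upwards [ae_restrict_mem hΩm] with z h
      rw [hEdef, indicator_of_mem h]
      rfl
  · intro φ hφ
    have hφt : IsTest (G ∩ ball 0 (5 / 8)) φ := hφ
    have hφG : IsTest G φ := ⟨hφ.1, hφ.2.1, fun z hz => (hφ.2.2 hz).1⟩
    obtain ⟨hφ1, hφ2⟩ := h1.2.2.2.2.2.2.1 Ω φ hΩ (gtt_tuniv hφt)
    have hφTr : TraceIn Ω Γ φ := by
      refine ⟨K, hKΓ, hK, fun η hη hd => gtt_H10 h1 hΩ hφ1 hη (hS η hd) fun ε hε => ⟨φ, hφG, ?_, ?_⟩⟩
      · have : (fun z => φ z - φ z) = fun _ => (0 : ℝ) := by funext z; ring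
        rw [this]
        simp
      · have : eLpNorm (fun z => wgrad Ω φ z - grad φ z) 2 (volume.restrict Ω) =
            eLpNorm (fun _ => (0 : ℂ)) 2 (volume.restrict Ω) := by
          refine eLpNorm_congr_ae ?_
          filter_upwards [hφ2] with z hz
          rw [hz, sub_self]
        rw [this]
        simp
    have hfun := congrFun he2 ⟨φ, hφ1, hφTr⟩
    have eΩ : ∫ z in Ω, γ₁ z * ip (U z) (gr φ z) = ∫ z in Ω, γ₂ z * ip (U z + E z) (gr φ z) := by
      have l1 : ∫ z in Ω, γ₁ z * ip (U z) (gr φ z) = ∫ z in Ω, γ₁ z * dot (wgrad Ω u z) (wgrad Ω φ z) := by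
        refine integral_congr_ae ?_
        filter_upwards [hgu, hφ2] with z a1 a2
        rw [a1, a2, h1.2.2.2.2.2.2.2.2]
        rfl
      have l2 : ∫ z in Ω, γ₂ z * dot (wgrad Ω u₂ z) (wgrad Ω φ z) = ∫ z in Ω, γ₂ z * ip (U z + E z) (gr φ z) := by
        refine integral_congr_ae ?_
        filter_upwards [hgD, hφ2, ae_restrict_mem hΩm] with z a1 a2 a3
        have a4 : U z + E z = wgrad Ω u₂ z := by
          rw [hEdef, indicator_of_mem a3, a1]
          ring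
        rw [a4, a2, h1.2.2.2.2.2.2.2.2]
        rfl
      rw [l1, ← l2]
      exact hfun
    -- integrability
    obtain ⟨χ', hχ', hχ'1⟩ := gtt_cut hφ.2.1 (isOpen_ball (x := (0 : ℂ)) (ε := 5 / 8))
      (fun z hz => (hφ.2.2 hz).2)
    have hB := (hin χ' hχ').mU
    have hip : ∀ z, ip (U z) (gr φ z) = ip ((χ' z : ℂ) * U z + (u z : ℂ) * gr χ' z) (gr φ z) := by
      intro z
      by_cases hz : z ∈ tsupport φ
      · rw [(hloc χ' z (hχ'1 z hz)).2]
      · have : gr φ z = 0 := gtt_gzero hz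
        rw [this]
        simp [ip]
    have hip' : ∀ z, ip (U z + E z) (gr φ z) =
        ip (((χ' z : ℂ) * U z + (u z : ℂ) * gr χ' z) + E z) (gr φ z) := by
      intro z
      by_cases hz : z ∈ tsupport φ
      · rw [(hloc χ' z (hχ'1 z hz)).2]
      · have : gr φ z = 0 := gtt_gzero hz
        rw [this]
        simp [ip]
    have i1 : Integrable (fun z => γ₁ z * ip (U z) (gr φ z)) volume := by
      have := gtt_int hB hφt hγ₁.meas (fun z => hc.le.trans (hγ₁.lo z)) hγ₁.hi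
      refine this.congr (Eventually.of_forall fun z => ?_)
      show γ₁ z * ip ((χ' z : ℂ) * U z + (u z : ℂ) * gr χ' z) (gr φ z) = γ₁ z * ip (U z) (gr φ z)
      rw [hip z]
    have i2 : Integrable (fun z => γ₂ z * ip (U z + E z) (gr φ z)) volume := by
      have := gtt_int (hB.add hEm) hφt hγ₂.meas (fun z => hc.le.trans (hγ₂.lo z)) hγ₂.hi
      refine this.congr (Eventually.of_forall fun z => ?_)
      show γ₂ z * ip (((χ' z : ℂ) * U z + (u z : ℂ) * gr χ' z) + E z) (gr φ z) = γ₂ z * ip (U z + E z) (gr φ z)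
      rw [hip' z]
    have eC : ∫ z in Ωᶜ, γ₁ z * ip (U z) (gr φ z) = ∫ z in Ωᶜ, γ₂ z * ip (U z + E z) (gr φ z) := by
      refine setIntegral_congr_fun hΩm.compl fun z hz => ?_
      have : E z = 0 := by rw [hEdef, indicator_of_notMem hz]
      simp only [this, add_zero, hoff z hz]
    show ∫ z, γ₂ z * ip (U z + E z) (gr φ z) = 0
    rw [← integral_add_compl hΩm i2, ← eΩ, ← eC, integral_add_compl hΩm i1]
    exact hsol φ hφ

end Cal
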