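import Pool.Agent.Lib.MP_4ea4c7_an.StmF

/-!
[K1] Elementary facts on `H¹(Ω)`.
-/

set_option autoImplicit false

open MeasureTheory Complex Metric Set Filter Topology
open scoped ComplexConjugate ENNReal NNReal

namespace Cal

open LocalCalderon

noncomputable section

private theorem h1_spec {Ω : Set ℂ} {u : ℂ → ℝ} (h : H1 Ω u) :
    MemLp (wgrad Ω u) 2 (volume.restrict Ω) ∧ WeakGrad Ω u (wgrad Ω u) := by
  have h2 := h.2
  unfold wgrad
  rw [dif_pos h2]
  exact h2.choose_spec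

private theorem h1_tc {φ : ℂ → ℝ} {U : Set ℂ} (h : IsTest U φ) :
    Continuous φ ∧ Continuous (grad φ) ∧ (∀ z, z ∉ tsupport φ → φ z = 0 ∧ grad φ z = 0) := by
  obtain ⟨h1, h2, h3⟩ := h
  have hc : Continuous (fderiv ℝ φ) := h1.continuous_fderiv (by simp)
  refine ⟨h1.continuous, ?_, fun z hz => ⟨image_eq_zero_of_notMem_tsupport hz, ?_⟩⟩
  · unfold grad
    have c1 : Continuous fun z => fderiv ℝ φ z 1 := hc.clm_apply continuous_const
    have c2 : Continuous fun z => fderiv ℝ φ z I := hc.clm_apply continuous_const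
    fun_prop
  · have h4 : fderiv ℝ φ z = 0 := by
      by_contra h5
      exact hz (support_fderiv_subset ℝ h5)
    simp [grad, h4]

private theorem h1_bdd {φ : ℂ → ℝ} {U : Set ℂ} (h : IsTest U φ) :
    ∃ C : ℝ, ∀ z, |φ z| ≤ C ∧ ‖grad φ z‖ ≤ C := by
  obtain ⟨c1, c2, hz⟩ := h1_tc h
  obtain ⟨A, hA⟩ := h.2.1.exists_bound_of_continuousOn (f := φ) c1.continuousOn
  obtain ⟨B, hB⟩ := h.2.1.exists_bound_of_continuousOn (f := grad φ) c2.continuousOn
  refine ⟨max (max A B) 0, fun z => ?_⟩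
  by_cases hzt : z ∈ tsupport φ
  · have h1 := hA z hzt
    have h2 := hB z hzt
    rw [Real.norm_eq_abs] at h1
    exact ⟨h1.trans ((le_max_left _ _).trans (le_max_left _ _)),
      h2.trans ((le_max_right _ _).trans (le_max_left _ _))⟩
  · rw [(hz z hzt).1, (hz z hzt).2]
    simp

private theorem h1_fin (K : Set ℂ) (hK : IsCompact K) : IsFiniteMeasure (volume.restrict K) :=
  ⟨by rw [Measure.restrict_apply_univ]; exact hK.measure_lt_top⟩

/-- products of square integrable functions with functions vanishing off a compact set -/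
private theorem h1_int {Ω : Set ℂ} {g ψ : ℂ → ℂ} {K : Set ℂ} (hK : IsCompact K)
    (hg : MemLp g 2 (volume.restrict Ω)) (hψ : Continuous ψ) (h0 : ∀ z, z ∉ K → ψ z = 0) :
    Integrable (fun z => g z * ψ z) (volume.restrict Ω) := by
  have hc : HasCompactSupport ψ := HasCompactSupport.intro hK h0
  have h2 : MemLp ψ 2 (volume.restrict Ω) :=
    (hψ.memLp_of_hasCompactSupport hc).restrict _
  exact hg.integrable_mul h2

private theorem h1_of {Ω : Set ℂ} {u : ℂ → ℝ} (hu : MemLp u 2 (volume.restrict Ω)) :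
    MemLp (fun z => (u z : ℂ)) 2 (volume.restrict Ω) := hu.ofReal

private theorem h1_uniq {Ω : Set ℂ} {u : ℂ → ℝ} {G G' : ℂ → ℂ} (hΩ : IsOpen Ω)
    (hG : MemLp G 2 (volume.restrict Ω)) (hG' : MemLp G' 2 (volume.restrict Ω))
    (h : WeakGrad Ω u G) (h' : WeakGrad Ω u G') : G =ᵐ[volume.restrict Ω] G' := by
  have hloc : LocallyIntegrableOn (fun z => G z - G' z) Ω volume := by
    rw [locallyIntegrableOn_iff hΩ.isLocallyClosed]
    intro K hKU hK
    have := h1_fin K hK
    have h1 : MemLp G 2 (volume.restrict K) := hG.mono_measure (Measure.restrict_mono_set _ hKU)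
    have h2 : MemLp G' 2 (volume.restrict K) := hG'.mono_measure (Measure.restrict_mono_set _ hKU)
    exact (h1.integrable one_le_two).sub (h2.integrable one_le_two)
  have key := hΩ.ae_eq_zero_of_integral_contDiff_smul_eq_zero hloc (fun g h1 h2 h3 => by
    have ht : IsTest Ω g := ⟨h1, h2, h3⟩
    obtain ⟨c1, c2, hz⟩ := h1_tc ht
    have e1 := h g ht
    have e2 := h' g ht
    rw [e1] at e2
    have e3 := neg_injective e2
    have z0 : ∀ z, z ∉ Ω → g z • (G z - G' z) = 0 := fun z hzn => by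
      rw [(hz z fun hh => hzn (h3 hh)).1, zero_smul]
    rw [← setIntegral_eq_integral_of_forall_compl_eq_zero z0]
    have e4 : ∀ z, g z • (G z - G' z) = G z * ((g z : ℝ) : ℂ) - G' z * ((g z : ℝ) : ℂ) := by
      intro z
      rw [Complex.real_smul]
      ring
    simp_rw [e4]
    have cg : Continuous fun z => ((g z : ℝ) : ℂ) := Complex.continuous_ofReal.comp c1
    have i1 := h1_int (K := tsupport g) h2 hG cg (fun z hzn => by simp [(hz z hzn).1])
    have i2 := h1_int (K := tsupport g) h2 hG' cg (fun z hzn => by simp [(hz z hzn).1])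
    rw [integral_sub i1 i2, sub_eq_zero]
    simp_rw [mul_comm (G _) _, mul_comm (G' _) _]
    exact e3)
  rw [Filter.EventuallyEq, ae_restrict_iff' hΩ.measurableSet]
  filter_upwards [key] with z hz hzU
  exact sub_eq_zero.1 (hz hzU)

private theorem h1_mk {Ω : Set ℂ} {u : ℂ → ℝ} {G : ℂ → ℂ} (hΩ : IsOpen Ω)
    (hu : MemLp u 2 (volume.restrict Ω)) (hG : MemLp G 2 (volume.restrict Ω))
    (h : WeakGrad Ω u G) : H1 Ω u ∧ wgrad Ω u =ᵐ[volume.restrict Ω] G := by
  have hH : H1 Ω u := ⟨hu, G, hG, h⟩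
  obtain ⟨a, b⟩ := h1_spec hH
  exact ⟨hH, h1_uniq hΩ a hG b h⟩

private theorem h1_add {Ω : Set ℂ} {u v : ℂ → ℝ} {G H : ℂ → ℂ} (s : ℝ)
    (hu : MemLp u 2 (volume.restrict Ω)) (hv : MemLp v 2 (volume.restrict Ω))
    (hG : MemLp G 2 (volume.restrict Ω)) (hH : MemLp H 2 (volume.restrict Ω))
    (h : WeakGrad Ω u G) (h' : WeakGrad Ω v H) :
    WeakGrad Ω (fun z => u z + s * v z) (fun z => G z + s * H z) := by
  intro φ hφ
  obtain ⟨c1, c2, hz⟩ := h1_tc hφ
  have cg : Continuous fun z => ((φ z : ℝ) : ℂ) := Complex.continuous_ofReal.comp c1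
  have i1 := h1_int (K := tsupport φ) hφ.2.1 (h1_of hu) c2 (fun z hzn => (hz z hzn).2)
  have i2 := h1_int (K := tsupport φ) hφ.2.1 (h1_of hv) c2 (fun z hzn => (hz z hzn).2)
  have i3 := h1_int (K := tsupport φ) hφ.2.1 hG cg (fun z hzn => by simp [(hz z hzn).1])
  have i4 := h1_int (K := tsupport φ) hφ.2.1 hH cg (fun z hzn => by simp [(hz z hzn).1])
  have e1 := h φ hφ
  have e2 := h' φ hφ
  have e3 : ∀ z, ((u z + s * v z : ℝ) : ℂ) * grad φ z =
      (u z : ℂ) * grad φ z + (s : ℂ) * ((v z : ℂ) * grad φ z) := fun z => by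
    push_cast
    ring
  have e4 : ∀ z, (φ z : ℂ) * (G z + s * H z) = G z * (φ z : ℂ) + (s : ℂ) * (H z * (φ z : ℂ)) :=
    fun z => by ring
  simp_rw [e3, e4]
  rw [integral_add i1 (i2.const_mul _), integral_add i3 (i4.const_mul _), integral_const_mul,
    integral_const_mul, e1, e2]
  simp_rw [mul_comm (G _) _, mul_comm (H _) _]
  ring

private theorem h1_sub {Ω Ω' : Set ℂ} {φ : ℂ → ℝ} (h : Ω ⊆ Ω') (hφ : IsTest Ω φ) : IsTest Ω' φ :=
  ⟨hφ.1, hφ.2.1, hφ.2.2.trans h⟩

private theorem h1_prod {η φ : ℂ → ℝ} {Ω : Set ℂ} (hη : IsTest univ η) (hφ : IsTest Ω φ) :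
    IsTest Ω (fun z => φ z * η z) ∧
      ∀ z, grad (fun z => φ z * η z) z = (φ z : ℂ) * grad η z + (η z : ℂ) * grad φ z := by
  refine ⟨⟨hφ.1.mul hη.1, hφ.2.1.mul_right, ?_⟩, ?_⟩
  · refine (closure_mono ?_).trans hφ.2.2
    intro z hz
    rw [Function.mem_support] at hz ⊢
    intro h
    exact hz (by rw [h, zero_mul])
  · intro z
    have d1 : DifferentiableAt ℝ φ z := (hφ.1.differentiable (by simp)) z
    have d2 : DifferentiableAt ℝ η z := (hη.1.differentiable (by simp)) z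
    simp only [grad]
    rw [fderiv_fun_mul d1 d2]
    simp only [add_apply, smul_apply, smul_eq_mul]
    push_cast
    ring

theorem piece_h1 (h1 : S_bridge) : S_h1 := by
  refine ⟨fun Ω u h => h1_spec h, fun Ω u G hΩ hu hG h => h1_mk hΩ hu hG h, ?_, ?_, ?_, ?_, ?_,
    ?_, ?_⟩
  · intro Ω u v s hΩ hu hv
    obtain ⟨a1, a2⟩ := h1_spec hu
    obtain ⟨b1, b2⟩ := h1_spec hv
    have m1 : MemLp (fun z => u z + s * v z) 2 (volume.restrict Ω) := hu.1.add (hv.1.const_mul s)
    have m2 : MemLp (fun z => wgrad Ω u z + s * wgrad Ω v z) 2 (volume.restrict Ω) :=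
      a1.add (b1.const_mul (s : ℂ))
    exact h1_mk hΩ m1 m2 (h1_add s hu.1 hv.1 a1 b1 a2 b2)
  · intro Ω u v hΩ hu huv
    obtain ⟨a1, a2⟩ := h1_spec hu
    have m1 : MemLp v 2 (volume.restrict Ω) := (memLp_congr_ae huv).1 hu.1
    have m2 : WeakGrad Ω v (wgrad Ω u) := by
      intro φ hφ
      rw [← a2 φ hφ]
      refine integral_congr_ae ?_
      filter_upwards [huv] with z hz
      rw [hz]
    obtain ⟨c1, c2⟩ := h1_mk hΩ m1 a1 m2
    exact ⟨c1, c2.symm⟩
  · intro Ω u η hΩ hu hη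
    obtain ⟨a1, a2⟩ := h1_spec hu
    obtain ⟨C, hC⟩ := h1_bdd hη
    obtain ⟨c1, c2, hz⟩ := h1_tc hη
    have hC0 : 0 ≤ C := (abs_nonneg _).trans (hC 0).1
    have m1 : MemLp (fun z => η z * u z) 2 (volume.restrict Ω) := by
      refine (hu.1.const_mul C).of_le (c1.aestronglyMeasurable.mul hu.1.1)
        (Eventually.of_forall fun z => ?_)
      rw [norm_mul, norm_mul, Real.norm_of_nonneg hC0, Real.norm_eq_abs (η z)]
      exact mul_le_mul_of_nonneg_right (hC z).1 (norm_nonneg _)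
    have m2a : MemLp (fun z => (η z : ℂ) * wgrad Ω u z) 2 (volume.restrict Ω) := by
      refine (a1.const_mul (C : ℂ)).of_le
        ((Complex.continuous_ofReal.comp c1).aestronglyMeasurable.mul a1.1)
        (Eventually.of_forall fun z => ?_)
      rw [norm_mul, norm_mul, Complex.norm_real, Complex.norm_real, Real.norm_eq_abs,
        Real.norm_eq_abs, abs_of_nonneg hC0]
      exact mul_le_mul_of_nonneg_right (hC z).1 (norm_nonneg _)
    have m2b : MemLp (fun z => (u z : ℂ) * grad η z) 2 (volume.restrict Ω) := by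
      refine ((h1_of hu.1).const_mul (C : ℂ)).of_le
        ((h1_of hu.1).1.mul c2.aestronglyMeasurable)
        (Eventually.of_forall fun z => ?_)
      rw [norm_mul, norm_mul, mul_comm, Complex.norm_real C,
        Real.norm_eq_abs, abs_of_nonneg hC0]
      exact mul_le_mul_of_nonneg_right (hC z).2 (norm_nonneg _)
    have m2 := m2a.add m2b
    refine h1_mk hΩ m1 m2 ?_
    intro φ hφ
    obtain ⟨ht, hg⟩ := h1_prod hη hφ
    obtain ⟨d1, d2, hz'⟩ := h1_tc hφ
    have cη : Continuous fun z => ((η z : ℝ) : ℂ) := Complex.continuous_ofReal.comp c1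
    have cφ : Continuous fun z => ((φ z : ℝ) : ℂ) := Complex.continuous_ofReal.comp d1
    have e1 := a2 _ ht
    have i1 := h1_int (K := tsupport φ) (ψ := fun z => (φ z : ℂ) * grad η z) hφ.2.1 (h1_of hu.1)
      (cφ.mul c2) (fun z hzn => by simp [(hz' z hzn).1])
    have i2 := h1_int (K := tsupport φ) (ψ := fun z => (η z : ℂ) * grad φ z) hφ.2.1 (h1_of hu.1)
      (cη.mul d2) (fun z hzn => by simp [(hz' z hzn).2])
    have i3 := h1_int (K := tsupport φ) (ψ := fun z => (φ z : ℂ)) hφ.2.1 m2a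
      cφ (fun z hzn => by simp [(hz' z hzn).1])
    have i4 := h1_int (K := tsupport φ) (ψ := fun z => (φ z : ℂ)) hφ.2.1 m2b
      cφ (fun z hzn => by simp [(hz' z hzn).1])
    have e2 : ∀ z, (u z : ℂ) * grad (fun z => φ z * η z) z =
        (u z : ℂ) * ((φ z : ℂ) * grad η z) + (u z : ℂ) * ((η z : ℂ) * grad φ z) := fun z => by
      rw [hg z]
      ring
    simp_rw [e2] at e1
    rw [integral_add i1 i2] at e1
    have e3 : ∀ z, ((η z * u z : ℝ) : ℂ) * grad φ z = (u z : ℂ) * ((η z : ℂ) * grad φ z) :=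
      fun z => by
        push_cast
        ring
    have e4 : ∀ z, (φ z : ℂ) * ((η z : ℂ) * wgrad Ω u z + (u z : ℂ) * grad η z) =
        ((η z : ℂ) * wgrad Ω u z) * (φ z : ℂ) + ((u z : ℂ) * grad η z) * (φ z : ℂ) :=
      fun z => by ring
    have e5 : ∀ z, ((φ z * η z : ℝ) : ℂ) * wgrad Ω u z = ((η z : ℂ) * wgrad Ω u z) * (φ z : ℂ) :=
      fun z => by
        push_cast
        ring
    have e6 : ∀ z, ((u z : ℂ) * grad η z) * (φ z : ℂ) = (u z : ℂ) * ((φ z : ℂ) * grad η z) :=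
      fun z => by ring
    simp_rw [e5] at e1
    have e7 : ∀ z, ((fun z => (η z : ℂ) * wgrad Ω u z) + fun z => (u z : ℂ) * grad η z) z =
      (η z : ℂ) * wgrad Ω u z + (u z : ℂ) * grad η z := fun z => rfl
    simp_rw [e3, e4]
    rw [integral_add i3 i4]
    simp_rw [e6]
    linear_combination e1
  · intro Ω Ω' u hΩ hΩ' hs hu
    obtain ⟨a1, a2⟩ := h1_spec hu
    have m1 : MemLp u 2 (volume.restrict Ω) := hu.1.mono_measure (Measure.restrict_mono_set _ hs)
    have m2 : MemLp (wgrad Ω' u) 2 (volume.restrict Ω) :=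
      a1.mono_measure (Measure.restrict_mono_set _ hs)
    refine h1_mk hΩ m1 m2 ?_
    intro φ hφ
    obtain ⟨c1, c2, hz⟩ := h1_tc hφ
    have e1 := a2 φ (h1_sub hs hφ)
    have z1 : ∀ z, z ∉ Ω → (u z : ℂ) * grad φ z = 0 := fun z hzn => by
      rw [(hz z fun hh => hzn (hφ.2.2 hh)).2, mul_zero]
    have z2 : ∀ z, z ∉ Ω → (φ z : ℂ) * wgrad Ω' u z = 0 := fun z hzn => by
      rw [(hz z fun hh => hzn (hφ.2.2 hh)).1]
      simp
    rw [setIntegral_eq_integral_of_forall_compl_eq_zero z1,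
      setIntegral_eq_integral_of_forall_compl_eq_zero z2]
    rwa [setIntegral_eq_integral_of_forall_compl_eq_zero (fun z hzn => z1 z fun hh => hzn (hs hh)),
      setIntegral_eq_integral_of_forall_compl_eq_zero (fun z hzn => z2 z fun hh => hzn (hs hh))]
      at e1
  · intro Ω φ hΩ hφ
    obtain ⟨c1, c2, hz⟩ := h1_tc hφ
    have hWG := h1.2.2.1 Ω φ hΩ (hφ.1.of_le (by simp)).contDiffOn
    have m1 : MemLp φ 2 (volume.restrict Ω) := (c1.memLp_of_hasCompactSupport hφ.2.1).restrict _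
    have m2 : MemLp (grad φ) 2 (volume.restrict Ω) :=
      (c2.memLp_of_hasCompactSupport (HasCompactSupport.intro hφ.2.1 fun z hzn =>
        (hz z hzn).2)).restrict _
    refine h1_mk hΩ m1 m2 ?_
    intro ψ hψ
    obtain ⟨d1, d2, hz'⟩ := h1_tc hψ
    have e1 := hWG.h ψ hψ
    have z1 : ∀ z, z ∉ Ω → (φ z : ℂ) * grad ψ z = 0 := fun z hzn => by
      rw [(hz' z fun hh => hzn (hψ.2.2 hh)).2, mul_zero]
    have z2 : ∀ z, z ∉ Ω → (ψ z : ℂ) * grad φ z = 0 := fun z hzn => by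
      rw [(hz' z fun hh => hzn (hψ.2.2 hh)).1]
      simp
    rw [setIntegral_eq_integral_of_forall_compl_eq_zero z1,
      setIntegral_eq_integral_of_forall_compl_eq_zero z2]
    simp_rw [mul_comm (ψ _ : ℂ) _]
    exact e1
  · intro Ω u G hΩ hu hG
    have key : ∀ φ : ℂ → ℝ, IsTest Ω φ →
        (∫ z in Ω, (u z : ℂ) * grad φ z = ∫ z, (u z : ℂ) * gr φ z) ∧
        (∫ z in Ω, (φ z : ℂ) * G z = ∫ z, G z * (φ z : ℂ)) := by
      intro φ hφ
      obtain ⟨c1, c2, hz⟩ := h1_tc hφ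
      have z1 : ∀ z, z ∉ Ω → (u z : ℂ) * grad φ z = 0 := fun z hzn => by
        rw [(hz z fun hh => hzn (hφ.2.2 hh)).2, mul_zero]
      have z2 : ∀ z, z ∉ Ω → (φ z : ℂ) * G z = 0 := fun z hzn => by
        rw [(hz z fun hh => hzn (hφ.2.2 hh)).1]
        simp
      rw [setIntegral_eq_integral_of_forall_compl_eq_zero z1,
        setIntegral_eq_integral_of_forall_compl_eq_zero z2]
      refine ⟨rfl, ?_⟩
      simp_rw [mul_comm (φ _ : ℂ) _]
    constructor
    · intro h φ hφ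
      rw [(key φ hφ).1, (key φ hφ).2]
      exact h.h φ hφ
    · intro h
      refine ⟨fun K _ hKΩ => (h1_of hu).mono_measure (Measure.restrict_mono_set _ hKΩ),
        fun K _ hKΩ => hG.mono_measure (Measure.restrict_mono_set _ hKΩ), fun φ hφ => ?_⟩
      have e1 := h φ hφ
      rwa [(key φ hφ).1, (key φ hφ).2] at e1
  · intro a b
    simp [dot, ip]

end

end Cal
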