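import Pool.Agent.Lib.MP_4ea4c7_an.StmF

/-! [K3] Facts on `H¹₀`. -/

open MeasureTheory Complex Metric Set Filter Topology
open scoped ComplexConjugate ENNReal NNReal

namespace Cal

open LocalCalderon

noncomputable section

private theorem tuniv {U : Set ℂ} {φ : ℂ → ℝ} (h : IsTest U φ) : IsTest univ φ :=
  ⟨h.1, h.2.1, subset_univ _⟩

private theorem tdiff {U : Set ℂ} {φ : ℂ → ℝ} (h : IsTest U φ) : Differentiable ℝ φ :=
  h.1.differentiable (by simp)

private theorem gcont {φ : ℂ → ℝ} (h : ContDiff ℝ (⊤ : ℕ∞) φ) : Continuous (grad φ) := by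
  have h1 : Continuous (fun z => fderiv ℝ φ z 1) := (h.continuous_fderiv (by simp)).clm_apply continuous_const
  have h2 : Continuous (fun z => fderiv ℝ φ z I) := (h.continuous_fderiv (by simp)).clm_apply continuous_const
  exact (Complex.continuous_ofReal.comp h1).add (continuous_const.mul (Complex.continuous_ofReal.comp h2))

private theorem gzero {φ : ℂ → ℝ} {z : ℂ} (hz : z ∉ tsupport φ) : grad φ z = 0 := by
  unfold grad
  rw [fderiv_of_notMem_tsupport (𝕜 := ℝ) hz]; simp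

private theorem gsupp {φ : ℂ → ℝ} (h : HasCompactSupport φ) : HasCompactSupport (grad φ) :=
  HasCompactSupport.intro h (fun _ hz => gzero hz)

private theorem tmem {U : Set ℂ} {φ : ℂ → ℝ} (h : IsTest U φ) (Ω : Set ℂ) : MemLp φ 2 (volume.restrict Ω) :=
  (h.1.continuous.memLp_of_hasCompactSupport h.2.1).restrict Ω

private theorem tmemC {U : Set ℂ} {φ : ℂ → ℝ} (h : IsTest U φ) (Ω : Set ℂ) :
    MemLp (fun z => (φ z : ℂ)) 2 (volume.restrict Ω) :=
  (tmem h Ω).ofReal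

private theorem gmem {U : Set ℂ} {φ : ℂ → ℝ} (h : IsTest U φ) (Ω : Set ℂ) :
    MemLp (grad φ) 2 (volume.restrict Ω) :=
  ((gcont h.1).memLp_of_hasCompactSupport (gsupp h.2.1)).restrict Ω

private theorem gadd {φ ψ : ℂ → ℝ} (h1 : Differentiable ℝ φ) (h2 : Differentiable ℝ ψ) (s : ℝ) (z : ℂ) :
    grad (fun z => φ z + s * ψ z) z = grad φ z + s * grad ψ z := by
  unfold grad
  have h3 : DifferentiableAt ℝ (fun z => s * ψ z) z := (h2 z).const_mul s
  rw [fderiv_fun_add (h1 z) h3, fderiv_const_mul (h2 z)]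
  simp only [ContinuousLinearMap.add_apply, ContinuousLinearMap.smul_apply, smul_eq_mul]
  push_cast; ring

private theorem gmul {φ ψ : ℂ → ℝ} {z : ℂ} (h1 : DifferentiableAt ℝ φ z) (h2 : DifferentiableAt ℝ ψ z) :
    grad (fun z => φ z * ψ z) z = φ z * grad ψ z + ψ z * grad φ z := by
  unfold grad
  rw [fderiv_fun_mul h1 h2]
  simp only [ContinuousLinearMap.add_apply, ContinuousLinearMap.smul_apply, smul_eq_mul]
  push_cast; ring

private theorem tadd {U : Set ℂ} {φ ψ : ℂ → ℝ} (h1 : IsTest U φ) (h2 : IsTest U ψ) (s : ℝ) :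
    IsTest U (fun z => φ z + s * ψ z) := by
  have h3 : tsupport (fun z => s * ψ z) ⊆ tsupport ψ := tsupport_mul_subset_right (f := fun _ => s) (g := ψ)
  refine ⟨h1.1.add (contDiff_const.mul h2.1), h1.2.1.add (h2.2.1.mul_left (f := fun _ => s)), ?_⟩
  refine (tsupport_add (f := φ) (g := fun z => s * ψ z)).trans (union_subset h1.2.2 (h3.trans h2.2.2))

private theorem tmulr {U : Set ℂ} {η φ : ℂ → ℝ} (h1 : ContDiff ℝ (⊤ : ℕ∞) η) (h2 : IsTest U φ) :
    IsTest U (fun z => η z * φ z) :=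
  ⟨h1.mul h2.1, h2.2.1.mul_left (f := η), (tsupport_mul_subset_right (f := η) (g := φ)).trans h2.2.2⟩

private theorem tmull {U : Set ℂ} {η φ : ℂ → ℝ} (h1 : ContDiff ℝ (⊤ : ℕ∞) η) (h2 : IsTest U φ) :
    IsTest U (fun z => φ z * η z) :=
  ⟨h2.1.mul h1, h2.2.1.mul_right (f' := η), (tsupport_mul_subset_left (f := φ) (g := η)).trans h2.2.2⟩

/-- approximation of a pair by test functions -/
private def Ap (Ω : Set ℂ) (u : ℂ → ℝ) (G : ℂ → ℂ) : Prop :=
  ∀ ε : ℝ, 0 < ε → ∃ φ : ℂ → ℝ, IsTest Ω φ ∧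
    eLpNorm (fun z => u z - φ z) 2 (volume.restrict Ω) ≤ ENNReal.ofReal ε ∧
    eLpNorm (fun z => G z - grad φ z) 2 (volume.restrict Ω) ≤ ENNReal.ofReal ε

private theorem ap_H10 {Ω : Set ℂ} {u : ℂ → ℝ} {G : ℂ → ℂ} (hu : H1 Ω u)
    (hG : wgrad Ω u =ᵐ[volume.restrict Ω] G) (h : Ap Ω u G) : H10 Ω u := by
  refine ⟨hu, fun ε hε => ?_⟩
  obtain ⟨φ, h1, h2, h3⟩ := h ε hε
  refine ⟨φ, h1, h2, ?_⟩
  rw [eLpNorm_congr_ae (g := fun z => G z - grad φ z)]
  · exact h3
  · filter_upwards [hG] with z hz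
    rw [hz]

private theorem ap_of {Ω : Set ℂ} {u : ℂ → ℝ} {G : ℂ → ℂ} (C : ℝ) (hC : 0 ≤ C)
    (h : ∀ ε : ℝ, 0 < ε → ∃ φ : ℂ → ℝ, IsTest Ω φ ∧
    eLpNorm (fun z => u z - φ z) 2 (volume.restrict Ω) ≤ ENNReal.ofReal (C * ε) ∧
    eLpNorm (fun z => G z - grad φ z) 2 (volume.restrict Ω) ≤ ENNReal.ofReal (C * ε)) : Ap Ω u G := by
  intro ε hε
  obtain ⟨φ, h1, h2, h3⟩ := h (ε / (C + 1)) (by positivity)
  have h4 : C * (ε / (C + 1)) ≤ ε := by
    rw [mul_div_assoc', div_le_iff₀ (by positivity)]; nlinarith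
  exact ⟨φ, h1, h2.trans (ENNReal.ofReal_le_ofReal h4), h3.trans (ENNReal.ofReal_le_ofReal h4)⟩

private theorem csq (μ : Measure ℂ) (f g : ℂ → ℂ) (hf : MemLp f 2 μ) (hg : MemLp g 2 μ) :
    ‖∫ z, f z * g z ∂μ‖ₑ ≤ eLpNorm f 2 μ * eLpNorm g 2 μ := by
  calc ‖∫ z, f z * g z ∂μ‖ₑ ≤ ∫⁻ z, ‖f z * g z‖ₑ ∂μ := enorm_integral_le_lintegral_enorm _
    _ = eLpNorm (f • g) 1 μ := by
        rw [eLpNorm_one_eq_lintegral_enorm]; rfl
    _ ≤ eLpNorm f 2 μ * eLpNorm g 2 μ := eLpNorm_smul_le_mul_eLpNorm hg.1 hf.1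

private theorem ibp (h1 : S_h1) {Ω : Set ℂ} (hΩ : IsOpen Ω) {φ ψ : ℂ → ℝ} (hφ : IsTest Ω φ) (hψ : IsTest univ ψ) :
    ∫ z in Ω, (φ z : ℂ) * grad ψ z = - ∫ z in Ω, (ψ z : ℂ) * grad φ z := by
  obtain ⟨a, b⟩ := h1.2.2.2.2.2.2.1 Ω ψ hΩ hψ
  have c := (h1.1 Ω ψ a).2 φ hφ
  rw [c, neg_neg]
  refine integral_congr_ae ?_
  filter_upwards [b] with z hz
  rw [hz]

private theorem ap_weak (h1 : S_h1) {Ω : Set ℂ} (hΩ : IsOpen Ω) {u : ℂ → ℝ} {G : ℂ → ℂ}
    (hu : MemLp u 2 (volume.restrict Ω)) (hG : MemLp G 2 (volume.restrict Ω)) (h : Ap Ω u G) :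
    ∀ ψ : ℂ → ℝ, IsTest univ ψ → ∫ z in Ω, (u z : ℂ) * grad ψ z = - ∫ z in Ω, (ψ z : ℂ) * G z := by
  intro ψ hψ
  have huC : MemLp (fun z => (u z : ℂ)) 2 (volume.restrict Ω) := hu.ofReal
  set A := eLpNorm (grad ψ) 2 (volume.restrict Ω) with hA
  set B := eLpNorm (fun z => (ψ z : ℂ)) 2 (volume.restrict Ω) with hB
  have hAt : A ≠ ⊤ := (gmem hψ Ω).2.ne
  have hBt : B ≠ ⊤ := (tmemC hψ Ω).2.ne
  have key : ∀ ε : ℝ, 0 < ε → ‖(∫ z in Ω, (u z : ℂ) * grad ψ z) + ∫ z in Ω, (ψ z : ℂ) * G z‖ₑ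
      ≤ ENNReal.ofReal ε * (A + B) := by
    intro ε hε
    obtain ⟨φ, t1, t2, t3⟩ := h ε hε
    have e0 := ibp h1 hΩ t1 hψ
    have i1 : Integrable (fun z => (u z : ℂ) * grad ψ z) (volume.restrict Ω) := huC.integrable_mul (gmem hψ Ω)
    have i2 : Integrable (fun z => (φ z : ℂ) * grad ψ z) (volume.restrict Ω) := (tmemC t1 Ω).integrable_mul (gmem hψ Ω)
    have i3 : Integrable (fun z => (ψ z : ℂ) * G z) (volume.restrict Ω) := (tmemC hψ Ω).integrable_mul hG
    have i4 : Integrable (fun z => (ψ z : ℂ) * grad φ z) (volume.restrict Ω) := (tmemC hψ Ω).integrable_mul (gmem t1 Ω)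
    have e1 : (∫ z in Ω, (u z : ℂ) * grad ψ z) + ∫ z in Ω, (ψ z : ℂ) * G z =
        (∫ z in Ω, ((u z : ℂ) - (φ z : ℂ)) * grad ψ z) + ∫ z in Ω, (ψ z : ℂ) * (G z - grad φ z) := by
      simp only [sub_mul, mul_sub]
      rw [integral_sub i1 i2, integral_sub i3 i4, e0]; ring
    rw [e1]
    refine (enorm_add_le _ _).trans ?_
    have c1 := csq (volume.restrict Ω) (fun z => (u z : ℂ) - (φ z : ℂ)) (grad ψ) (huC.sub (tmemC t1 Ω)) (gmem hψ Ω)
    have c2 := csq (volume.restrict Ω) (fun z => (ψ z : ℂ)) (fun z => G z - grad φ z) (tmemC hψ Ω) (hG.sub (gmem t1 Ω))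
    have c3 : eLpNorm (fun z => (u z : ℂ) - (φ z : ℂ)) 2 (volume.restrict Ω) =
        eLpNorm (fun z => u z - φ z) 2 (volume.restrict Ω) := by
      refine eLpNorm_congr_norm_ae (Eventually.of_forall fun z => ?_)
      rw [← Complex.ofReal_sub, Complex.norm_real]
    rw [c3] at c1
    refine (add_le_add c1 c2).trans ?_
    rw [mul_add]
    refine add_le_add (mul_le_mul' t2 le_rfl) ?_
    rw [mul_comm]
    exact mul_le_mul' t3 le_rfl
  have hz : ‖(∫ z in Ω, (u z : ℂ) * grad ψ z) + ∫ z in Ω, (ψ z : ℂ) * G z‖ₑ ≤ 0 := by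
    have hlim : Tendsto (fun n : ℕ => ENNReal.ofReal (1 / ((n : ℝ) + 1)) * (A + B)) atTop (𝓝 0) := by
      have t1 : Tendsto (fun n : ℕ => ENNReal.ofReal (1 / ((n : ℝ) + 1))) atTop (𝓝 0) := by
        have := ENNReal.tendsto_ofReal tendsto_one_div_add_atTop_nhds_zero_nat
        simpa using this
      have := ENNReal.Tendsto.mul_const t1 (Or.inr (ENNReal.add_ne_top.mpr ⟨hAt, hBt⟩) : (0 : ℝ≥0∞) ≠ 0 ∨ A + B ≠ ⊤)
      simpa using this
    exact ge_of_tendsto hlim (Eventually.of_forall fun n => key _ (by positivity))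
  have hz' : (∫ z in Ω, (u z : ℂ) * grad ψ z) + ∫ z in Ω, (ψ z : ℂ) * G z = 0 := by
    simpa using hz
  exact eq_neg_of_add_eq_zero_left hz'

private theorem bdd {f : ℂ → ℂ} (h1 : Continuous f) (h2 : HasCompactSupport f) : ∃ C : ℝ, 0 ≤ C ∧ ∀ z, ‖f z‖ ≤ C := by
  obtain ⟨C, hC⟩ := h2.exists_bound_of_continuous h1
  exact ⟨max C 0, le_max_right _ _, fun z => (hC z).trans (le_max_left _ _)⟩

private theorem tbdd {U : Set ℂ} {φ : ℂ → ℝ} (h : IsTest U φ) : ∃ C : ℝ, 0 ≤ C ∧ (∀ z, |φ z| ≤ C) ∧ ∀ z, ‖grad φ z‖ ≤ C := by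
  obtain ⟨C, hC⟩ := h.2.1.exists_bound_of_continuous h.1.continuous
  obtain ⟨C', h0, hC'⟩ := bdd (gcont h.1) (gsupp h.2.1)
  exact ⟨max C C', h0.trans (le_max_right _ _), fun z => (hC z).trans (le_max_left _ _), fun z => (hC' z).trans (le_max_right _ _)⟩

/-- part (3) -/
private theorem h10_mul (h1 : S_h1) {Ω : Set ℂ} (hΩ : IsOpen Ω) (u η : ℂ → ℝ) (hu : H10 Ω u) (hη : IsTest univ η) :
    H10 Ω (fun z => η z * u z) := by
  obtain ⟨a, b⟩ := h1.2.2.2.2.1 Ω u η hΩ hu.1 hη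
  obtain ⟨C, hC0, hC1, hC2⟩ := tbdd hη
  have hm := (h1.1 Ω u hu.1).1
  refine ap_H10 a b (ap_of (C + C) (by positivity) fun ε hε => ?_)
  obtain ⟨φ, t1, t2, t3⟩ := hu.2 ε hε
  refine ⟨_, tmulr hη.1 t1, ?_, ?_⟩
  · have : eLpNorm (fun z => η z * u z - η z * φ z) 2 (volume.restrict Ω) ≤
        ENNReal.ofReal C * eLpNorm (fun z => u z - φ z) 2 (volume.restrict Ω) := by
      refine eLpNorm_le_mul_eLpNorm_of_ae_le_mul (Eventually.of_forall fun z => ?_) 2
      rw [← mul_sub, norm_mul]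
      exact mul_le_mul_of_nonneg_right (hC1 z) (norm_nonneg _)
    refine this.trans ((mul_le_mul' le_rfl t2).trans ?_)
    rw [← ENNReal.ofReal_mul hC0]
    exact ENNReal.ofReal_le_ofReal (by nlinarith)
  · have e : (fun z => (η z : ℂ) * wgrad Ω u z + (u z : ℂ) * grad η z - grad (fun z => η z * φ z) z) =
        fun z => ((η z : ℂ) * (wgrad Ω u z - grad φ z)) + ((u z : ℂ) - (φ z : ℂ)) * grad η z := by
      funext z
      rw [gmul (tdiff hη z) (tdiff t1 z)]; ring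
    rw [e]
    have m1 : AEStronglyMeasurable (fun z => (η z : ℂ) * (wgrad Ω u z - grad φ z)) (volume.restrict Ω) :=
      (tmemC hη Ω).1.mul (hm.1.sub (gmem t1 Ω).1)
    have m2 : AEStronglyMeasurable (fun z => ((u z : ℂ) - (φ z : ℂ)) * grad η z) (volume.restrict Ω) :=
      (((hu.1.1).ofReal (K := ℂ)).1.sub (tmemC t1 Ω).1).mul (gmem hη Ω).1
    refine (eLpNorm_add_le m1 m2 (by norm_num)).trans ?_
    have n1 : eLpNorm (fun z => (η z : ℂ) * (wgrad Ω u z - grad φ z)) 2 (volume.restrict Ω) ≤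
        ENNReal.ofReal C * eLpNorm (fun z => wgrad Ω u z - grad φ z) 2 (volume.restrict Ω) := by
      refine eLpNorm_le_mul_eLpNorm_of_ae_le_mul (Eventually.of_forall fun z => ?_) 2
      rw [norm_mul, Complex.norm_real]
      exact mul_le_mul_of_nonneg_right (hC1 z) (norm_nonneg _)
    have n2 : eLpNorm (fun z => ((u z : ℂ) - (φ z : ℂ)) * grad η z) 2 (volume.restrict Ω) ≤
        ENNReal.ofReal C * eLpNorm (fun z => u z - φ z) 2 (volume.restrict Ω) := by
      refine eLpNorm_le_mul_eLpNorm_of_ae_le_mul (Eventually.of_forall fun z => ?_) 2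
      rw [norm_mul, ← Complex.ofReal_sub, Complex.norm_real, mul_comm]
      exact mul_le_mul_of_nonneg_right (hC2 z) (norm_nonneg _)
    refine (add_le_add (n1.trans (mul_le_mul' le_rfl t3)) (n2.trans (mul_le_mul' le_rfl t2))).trans ?_
    rw [← ENNReal.ofReal_mul hC0, ← ENNReal.ofReal_add (by positivity) (by positivity)]
    exact ENNReal.ofReal_le_ofReal (by nlinarith)

/-- part (2) -/
private theorem h10_add (h1 : S_h1) {Ω : Set ℂ} (hΩ : IsOpen Ω) (u v : ℂ → ℝ) (s : ℝ) (hu : H10 Ω u) (hv : H10 Ω v) :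
    H10 Ω (fun z => u z + s * v z) := by
  obtain ⟨a, b⟩ := h1.2.2.1 Ω u v s hΩ hu.1 hv.1
  have hmu := (h1.1 Ω u hu.1).1
  have hmv := (h1.1 Ω v hv.1).1
  refine ap_H10 a b (ap_of (1 + |s|) (by positivity) fun ε hε => ?_)
  obtain ⟨φ, t1, t2, t3⟩ := hu.2 ε hε
  obtain ⟨ψ, r1, r2, r3⟩ := hv.2 ε hε
  refine ⟨_, tadd t1 r1 s, ?_, ?_⟩
  · have e : (fun z => u z + s * v z - (φ z + s * ψ z)) = fun z => (u z - φ z) + s * (v z - ψ z) := by
      funext z; ring
    rw [e]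
    have m1 : AEStronglyMeasurable (fun z => u z - φ z) (volume.restrict Ω) := hu.1.1.1.sub (tmem t1 Ω).1
    have m2 : AEStronglyMeasurable (fun z => s * (v z - ψ z)) (volume.restrict Ω) :=
      (hv.1.1.1.sub (tmem r1 Ω).1).const_mul s
    refine (eLpNorm_add_le m1 m2 (by norm_num)).trans ?_
    have n2 : eLpNorm (fun z => s * (v z - ψ z)) 2 (volume.restrict Ω) ≤
        ENNReal.ofReal |s| * eLpNorm (fun z => v z - ψ z) 2 (volume.restrict Ω) := by
      refine eLpNorm_le_mul_eLpNorm_of_ae_le_mul (Eventually.of_forall fun z => ?_) 2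
      rw [norm_mul]; exact le_of_eq rfl
    refine (add_le_add t2 (n2.trans (mul_le_mul' le_rfl r2))).trans ?_
    rw [← ENNReal.ofReal_mul (abs_nonneg s), ← ENNReal.ofReal_add (by positivity) (by positivity)]
    exact ENNReal.ofReal_le_ofReal (by nlinarith)
  · have e : (fun z => wgrad Ω u z + (s : ℂ) * wgrad Ω v z - grad (fun z => φ z + s * ψ z) z) =
        fun z => (wgrad Ω u z - grad φ z) + (s : ℂ) * (wgrad Ω v z - grad ψ z) := by
      funext z
      rw [gadd (tdiff t1) (tdiff r1)]; ring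
    rw [e]
    have m1 : AEStronglyMeasurable (fun z => wgrad Ω u z - grad φ z) (volume.restrict Ω) := hmu.1.sub (gmem t1 Ω).1
    have m2 : AEStronglyMeasurable (fun z => (s : ℂ) * (wgrad Ω v z - grad ψ z)) (volume.restrict Ω) :=
      (hmv.1.sub (gmem r1 Ω).1).const_mul (s : ℂ)
    refine (eLpNorm_add_le m1 m2 (by norm_num)).trans ?_
    have n2 : eLpNorm (fun z => (s : ℂ) * (wgrad Ω v z - grad ψ z)) 2 (volume.restrict Ω) ≤
        ENNReal.ofReal |s| * eLpNorm (fun z => wgrad Ω v z - grad ψ z) 2 (volume.restrict Ω) := by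
      refine eLpNorm_le_mul_eLpNorm_of_ae_le_mul (Eventually.of_forall fun z => ?_) 2
      rw [norm_mul, Complex.norm_real]; exact le_of_eq rfl
    refine (add_le_add t3 (n2.trans (mul_le_mul' le_rfl r3))).trans ?_
    rw [← ENNReal.ofReal_mul (abs_nonneg s), ← ENNReal.ofReal_add (by positivity) (by positivity)]
    exact ENNReal.ofReal_le_ofReal (by nlinarith)

/-- part (5) -/
private theorem h10_z0 (h1 : S_h1) (h2 : S_poin) {Ω : Set ℂ} (hΩ : IsOpen Ω) (G : ℂ → ℂ) (hb : Bornology.IsBounded Ω)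
    (hG : Z0 Ω G) : ∃ w : ℂ → ℝ, H10 Ω w ∧ wgrad Ω w =ᵐ[volume.restrict Ω] G := by
  obtain ⟨R, hR0, hR⟩ := hb.subset_ball_lt 0 0
  have hch : ∀ n : ℕ, ∃ φ : ℂ → ℝ, RTF Ω φ ∧ eLpNorm (fun z => G z - gr φ z) 2 (volume.restrict Ω) < ENNReal.ofReal ((1 / 2) ^ n) :=
    fun n => hG.2 _ (by positivity)
  choose φ hφ hφG using hch
  have hT : ∀ n, IsTest Ω (φ n) := hφ
  have hφG' : ∀ n, eLpNorm (fun z => G z - grad (φ n) z) 2 (volume.restrict Ω) ≤ ENNReal.ofReal ((1 / 2) ^ n) :=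
    fun n => (hφG n).le
  have hdist : ∀ n m, eLpNorm (φ n - φ m) 2 (volume.restrict Ω) ≤
      ENNReal.ofReal (2 * R) * (ENNReal.ofReal ((1 / 2) ^ n) + ENNReal.ofReal ((1 / 2) ^ m)) := by
    intro n m
    have ht := tadd (hT n) (hT m) (-1)
    have e1 : φ n - φ m = fun z => φ n z + (-1) * φ m z := by
      funext z; simp; ring
    have ht' : IsTest (ball 0 R) (fun z => φ n z + (-1) * φ m z) := ⟨ht.1, ht.2.1, ht.2.2.trans hR⟩
    have p := h2 R _ hR0 ht'
    rw [e1]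
    refine (eLpNorm_mono_measure _ Measure.restrict_le_self).trans (p.trans (mul_le_mul' le_rfl ?_))
    have hsupp : Function.support (grad (fun z => φ n z + (-1) * φ m z)) ⊆ Ω := by
      intro z hz
      by_contra hzΩ
      exact hz (gzero (fun h => hzΩ (ht.2.2 h)))
    rw [← eLpNorm_restrict_eq_of_support_subset hsupp]
    have e2 : grad (fun z => φ n z + (-1) * φ m z) = fun z => (G z - grad (φ m) z) - (G z - grad (φ n) z) := by
      funext z
      rw [gadd (tdiff (hT n)) (tdiff (hT m))]; push_cast; ring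
    rw [e2]
    refine (eLpNorm_sub_le (hG.1.1.sub (gmem (hT m) Ω).1) (hG.1.1.sub (gmem (hT n) Ω).1) (by norm_num)).trans ?_
    rw [add_comm]
    exact add_le_add (hφG' n) (hφG' m)
  obtain ⟨w, hw, hlim⟩ := Lp.cauchy_complete_eLpNorm (p := 2) (μ := volume.restrict Ω) (f := φ) (by norm_num)
    (fun n => tmem (hT n) Ω) (B := fun N => ENNReal.ofReal ((4 * R + 1) * (1 / 2) ^ N)) (by
      have hs : Summable (fun N : ℕ => (4 * R + 1) * (1 / 2 : ℝ) ^ N) :=
        (summable_geometric_of_lt_one (by norm_num) (by norm_num)).mul_left _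
      rw [← ENNReal.ofReal_tsum_of_nonneg (fun N => by positivity) hs]
      exact ENNReal.ofReal_ne_top) (by
      intro N n m hn hm
      refine lt_of_le_of_lt (hdist n m) ?_
      rw [← ENNReal.ofReal_add (by positivity) (by positivity), ← ENNReal.ofReal_mul (by positivity)]
      refine (ENNReal.ofReal_lt_ofReal_iff (by positivity)).mpr ?_
      have a1 : (1 / 2 : ℝ) ^ n ≤ (1 / 2) ^ N := pow_le_pow_of_le_one (by norm_num) (by norm_num) hn
      have a2 : (1 / 2 : ℝ) ^ m ≤ (1 / 2) ^ N := pow_le_pow_of_le_one (by norm_num) (by norm_num) hm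
      have a3 : (0 : ℝ) < (1 / 2) ^ N := by positivity
      nlinarith)
  have hAp : Ap Ω w G := by
    intro ε hε
    have l1 : ∀ᶠ n in atTop, eLpNorm (φ n - w) 2 (volume.restrict Ω) < ENNReal.ofReal ε :=
      hlim.eventually_lt_const (by simpa using hε)
    have l2 : ∀ᶠ n : ℕ in atTop, ((1 / 2 : ℝ)) ^ n < ε :=
      (tendsto_pow_atTop_nhds_zero_of_lt_one (by norm_num) (by norm_num)).eventually_lt_const hε
    obtain ⟨n, hn1, hn2⟩ := (l1.and l2).exists
    refine ⟨φ n, hT n, ?_, (hφG' n).trans (ENNReal.ofReal_le_ofReal hn2.le)⟩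
    have : (fun z => w z - φ n z) = w - φ n := rfl
    rw [this, eLpNorm_sub_comm]
    exact hn1.le
  have hWG : WeakGrad Ω w G := fun ψ hψ => ap_weak h1 hΩ hw hG.1 hAp ψ (tuniv hψ)
  obtain ⟨a, b⟩ := h1.2.1 Ω w G hΩ hw hG.1 hWG
  exact ⟨w, ap_H10 a b hAp, b⟩

/-- part (7) -/
private theorem h10_ext (h1 : S_h1) {Ω : Set ℂ} (hΩ : IsOpen Ω) (Ω' : Set ℂ) (w w' : ℂ → ℝ) (hΩ' : IsOpen Ω')
    (hsub : Ω ⊆ Ω') (hw : H10 Ω w) (e1 : ∀ z ∈ Ω, w' z = w z) (e0 : ∀ z, z ∉ Ω → w' z = 0) :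
    H10 Ω' w' ∧ wgrad Ω' w' =ᵐ[volume.restrict Ω] wgrad Ω w ∧ wgrad Ω' w' =ᵐ[volume.restrict (Ω' \ Ω)] fun _ => 0 := by
  have hm := (h1.1 Ω w hw.1).1
  have ew : w' = Ω.indicator w := by
    funext z
    by_cases hz : z ∈ Ω
    · rw [indicator_of_mem hz, e1 z hz]
    · rw [indicator_of_notMem hz, e0 z hz]
  set G' : ℂ → ℂ := Ω.indicator (wgrad Ω w) with hG'
  have rr : (volume.restrict Ω').restrict Ω = volume.restrict Ω := by
    rw [Measure.restrict_restrict hΩ.measurableSet, inter_eq_left.mpr hsub]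
  have mw : MemLp w' 2 (volume.restrict Ω') := by
    rw [ew, memLp_indicator_iff_restrict hΩ.measurableSet, rr]; exact hw.1.1
  have mG : MemLp G' 2 (volume.restrict Ω') := by
    rw [hG', memLp_indicator_iff_restrict hΩ.measurableSet, rr]; exact hm
  have nrm : ∀ (E : Type) [NormedAddCommGroup E] (f : ℂ → E), (∀ z, z ∉ Ω → f z = 0) →
      eLpNorm f 2 (volume.restrict Ω') = eLpNorm f 2 (volume.restrict Ω) := by
    intro E _ f hf
    have hs : Function.support f ⊆ Ω := by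
      intro z hz; by_contra h; exact hz (hf z h)
    rw [← eLpNorm_restrict_eq_of_support_subset (μ := volume.restrict Ω') hs, rr]
  have apΩ : Ap Ω w (wgrad Ω w) := hw.2
  have hAp : Ap Ω' w' G' := by
    intro ε hε
    obtain ⟨φ, t1, t2, t3⟩ := apΩ ε hε
    have hz : ∀ z, z ∉ Ω → z ∉ tsupport φ := fun z h h' => h (t1.2.2 h')
    refine ⟨φ, ⟨t1.1, t1.2.1, t1.2.2.trans hsub⟩, ?_, ?_⟩
    · rw [nrm ℝ (fun z => w' z - φ z) (fun z h => by rw [e0 z h, image_eq_zero_of_notMem_tsupport (hz z h), sub_zero])]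
      refine le_of_eq_of_le (eLpNorm_congr_ae ?_) t2
      filter_upwards [ae_restrict_mem hΩ.measurableSet] with z h
      rw [e1 z h]
    · rw [nrm ℂ (fun z => G' z - grad φ z) (fun z h => by rw [hG', indicator_of_notMem h, gzero (hz z h), sub_zero])]
      refine le_of_eq_of_le (eLpNorm_congr_ae ?_) t3
      filter_upwards [ae_restrict_mem hΩ.measurableSet] with z h
      rw [hG', indicator_of_mem h]
  have hWG : WeakGrad Ω' w' G' := fun ψ hψ => ap_weak h1 hΩ' mw mG hAp ψ (tuniv hψ)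
  obtain ⟨a, b⟩ := h1.2.1 Ω' w' G' hΩ' mw mG hWG
  refine ⟨ap_H10 a b hAp, ?_, ?_⟩
  · have b1 := ae_restrict_of_ae_restrict_of_subset hsub b
    filter_upwards [b1, ae_restrict_mem hΩ.measurableSet] with z h h'
    rw [h, hG', indicator_of_mem h']
  · have b1 := ae_restrict_of_ae_restrict_of_subset (diff_subset : Ω' \ Ω ⊆ Ω') b
    filter_upwards [b1, ae_restrict_mem (hΩ'.measurableSet.diff hΩ.measurableSet)] with z h h'
    rw [h, hG', indicator_of_notMem h'.2]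

private theorem gr_re {F : ℂ → ℂ} {z : ℂ} (hF : DifferentiableAt ℝ F z) :
    grad (fun w => (F w).re) z = conj (dz F z) + db F z := by
  have e : ∀ v : ℂ, fderiv ℝ (fun w => (F w).re) z v = (fderiv ℝ F z v).re := by
    intro v
    have : HasFDerivAt (fun w => (F w).re) (Complex.reCLM.comp (fderiv ℝ F z)) z :=
      Complex.reCLM.hasFDerivAt.comp z hF.hasFDerivAt
    rw [this.fderiv]; rfl
  have c2 : (conj (2 : ℂ)) = 2 := Complex.conj_ofNat 2
  unfold grad dz db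
  rw [e, e]
  generalize fderiv ℝ F z 1 = p
  generalize fderiv ℝ F z I = q
  rw [map_div₀, c2, ← add_div, eq_div_iff (by norm_num : (2 : ℂ) ≠ 0)]
  apply Complex.ext
  · simp; ring
  · simp; ring

/-- part (6) -/
private theorem h10_cut (h1 : S_h1) (h3 : S_moll) (h5 : S_bridge) {Ω : Set ℂ} (hΩ : IsOpen Ω) (u ζ : ℂ → ℝ) (hu : H1 Ω u)
    (hζ : IsTest Ω ζ) : H10 Ω (fun z => ζ z * u z) := by
  obtain ⟨a, b⟩ := h1.2.2.2.2.1 Ω u ζ hΩ hu (tuniv hζ)
  obtain ⟨C, hC0, hC1, hC2⟩ := tbdd hζ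
  obtain ⟨hm, hwg⟩ := h1.1 Ω u hu
  set G := wgrad Ω u with hGdef
  have hWG : WG Ω u G := (h1.2.2.2.2.2.2.2.1 Ω u G hΩ hu.1 hm).mpr hwg
  have hWD := h5.2.1 Ω u G hWG
  set K := tsupport ζ with hK
  have hKc : IsCompact K := hζ.2.1
  obtain ⟨F, F1, F2, F3, F4, F5, -⟩ := h3 Ω _ _ _ hΩ hWD K hKc hζ.2.2
  have rr : (volume.restrict Ω).restrict K = volume.restrict K := by
    rw [Measure.restrict_restrict hKc.measurableSet, inter_eq_left.mpr hζ.2.2]
  have nrm : ∀ (E : Type) [NormedAddCommGroup E] (f : ℂ → E), (∀ z, z ∉ K → f z = 0) →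
      eLpNorm f 2 (volume.restrict Ω) = eLpNorm f 2 (volume.restrict K) := by
    intro E _ f hf
    have hs : Function.support f ⊆ K := by
      intro z hz; by_contra h; exact hz (hf z h)
    rw [← eLpNorm_restrict_eq_of_support_subset (μ := volume.restrict Ω) hs, rr]
  have hGK : MemLp G 2 (volume.restrict K) := by
    rw [← rr]; exact hm.restrict K
  have huK : MemLp (fun z => (u z : ℂ)) 2 (volume.restrict K) := by
    rw [← rr]; exact (hu.1.ofReal (K := ℂ)).restrict K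
  have Fd : ∀ n, Differentiable ℝ (F n) := fun n => (F1 n).differentiable (by simp)
  have dzc : ∀ n, Continuous (dz (F n)) := by
    intro n
    have k1 : Continuous (fun z => fderiv ℝ (F n) z 1) := ((F1 n).continuous_fderiv (by simp)).clm_apply continuous_const
    have k2 : Continuous (fun z => fderiv ℝ (F n) z I) := ((F1 n).continuous_fderiv (by simp)).clm_apply continuous_const
    exact (k1.sub (continuous_const.mul k2)).div_const 2
  have dbc : ∀ n, Continuous (db (F n)) := by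
    intro n
    have k1 : Continuous (fun z => fderiv ℝ (F n) z 1) := ((F1 n).continuous_fderiv (by simp)).clm_apply continuous_const
    have k2 : Continuous (fun z => fderiv ℝ (F n) z I) := ((F1 n).continuous_fderiv (by simp)).clm_apply continuous_const
    exact (k1.add (continuous_const.mul k2)).div_const 2
  have Rd : ∀ n, ContDiff ℝ (⊤ : ℕ∞) (fun z => (F n z).re) := fun n => Complex.reCLM.contDiff.comp (F1 n)
  refine ap_H10 a b (ap_of (C * 3) (by positivity) fun ε hε => ?_)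
  have l0 : (0 : ℝ≥0∞) < ENNReal.ofReal ε := by simpa using hε
  obtain ⟨n, ⟨hn1, hn2⟩, hn3⟩ := (((F3.eventually_lt_const l0).and (F4.eventually_lt_const l0)).and (F5.eventually_lt_const l0)).exists
  refine ⟨_, tmull (Rd n) hζ, ?_, ?_⟩
  · rw [nrm ℝ _ (fun z h => by simp [image_eq_zero_of_notMem_tsupport h])]
    have : eLpNorm (fun z => ζ z * u z - ζ z * (F n z).re) 2 (volume.restrict K) ≤
        ENNReal.ofReal C * eLpNorm (fun z => F n z - (u z : ℂ)) 2 (volume.restrict K) := by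
      refine eLpNorm_le_mul_eLpNorm_of_ae_le_mul (Eventually.of_forall fun z => ?_) 2
      rw [← mul_sub, norm_mul]
      refine mul_le_mul (hC1 z) ?_ (norm_nonneg _) hC0
      have : u z - (F n z).re = -(F n z - (u z : ℂ)).re := by simp
      rw [this, norm_neg]
      exact Complex.abs_re_le_norm _
    refine this.trans ((mul_le_mul' le_rfl hn1.le).trans ?_)
    rw [← ENNReal.ofReal_mul hC0]
    exact ENNReal.ofReal_le_ofReal (by nlinarith [mul_nonneg hC0 hε.le])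
  · have e : (fun z => (ζ z : ℂ) * G z + (u z : ℂ) * grad ζ z - grad (fun z => ζ z * (F n z).re) z) =
        fun z => (-(ζ z : ℂ)) * (conj (dz (F n) z - conj (G z) / 2) + (db (F n) z - G z / 2))
          + ((u z : ℂ) - ((F n z).re : ℂ)) * grad ζ z := by
      funext z
      rw [gmul (tdiff hζ z) ((Rd n).differentiable (by simp) z), gr_re (Fd n z)]
      simp only [map_sub, map_div₀, Complex.conj_conj]
      have : (conj (2 : ℂ)) = 2 := Complex.conj_ofNat 2
      rw [this]; ring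
    rw [nrm ℂ _ (fun z h => by
      have h0 : ζ z = 0 := image_eq_zero_of_notMem_tsupport h
      have h0' : grad ζ z = 0 := gzero h
      rw [congrFun e z, h0, h0']; simp), e]
    have hd2 : Continuous (fun w : ℂ => w / 2) := continuous_id.div_const 2
    have m0 : AEStronglyMeasurable (fun z => conj (dz (F n) z - conj (G z) / 2)) (volume.restrict K) := by
      refine Complex.continuous_conj.comp_aestronglyMeasurable ?_
      exact ((dzc n).aestronglyMeasurable).sub (hd2.comp_aestronglyMeasurable (Complex.continuous_conj.comp_aestronglyMeasurable hGK.1))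
    have m0' : AEStronglyMeasurable (fun z => db (F n) z - G z / 2) (volume.restrict K) :=
      ((dbc n).aestronglyMeasurable).sub (hd2.comp_aestronglyMeasurable hGK.1)
    have m1 : AEStronglyMeasurable (fun z => (-(ζ z : ℂ)) * (conj (dz (F n) z - conj (G z) / 2) + (db (F n) z - G z / 2))) (volume.restrict K) :=
      ((Complex.continuous_ofReal.comp hζ.1.continuous).neg.aestronglyMeasurable).mul (m0.add m0')
    have m2 : AEStronglyMeasurable (fun z => ((u z : ℂ) - ((F n z).re : ℂ)) * grad ζ z) (volume.restrict K) :=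
      (huK.1.sub (Complex.continuous_ofReal.comp (Rd n).continuous).aestronglyMeasurable).mul
        (gcont hζ.1).aestronglyMeasurable
    refine (eLpNorm_add_le m1 m2 (by norm_num)).trans ?_
    have n1 : eLpNorm (fun z => (-(ζ z : ℂ)) * (conj (dz (F n) z - conj (G z) / 2) + (db (F n) z - G z / 2))) 2 (volume.restrict K) ≤
        ENNReal.ofReal C * eLpNorm (fun z => conj (dz (F n) z - conj (G z) / 2) + (db (F n) z - G z / 2)) 2 (volume.restrict K) := by
      refine eLpNorm_le_mul_eLpNorm_of_ae_le_mul (Eventually.of_forall fun z => ?_) 2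
      rw [norm_mul, norm_neg, Complex.norm_real]
      exact mul_le_mul_of_nonneg_right (hC1 z) (norm_nonneg _)
    have n1' : eLpNorm (fun z => conj (dz (F n) z - conj (G z) / 2) + (db (F n) z - G z / 2)) 2 (volume.restrict K) ≤
        ENNReal.ofReal ε + ENNReal.ofReal ε := by
      refine (eLpNorm_add_le m0 m0' (by norm_num)).trans (add_le_add ?_ hn3.le)
      refine le_of_eq_of_le (eLpNorm_congr_norm_ae (Eventually.of_forall fun z => ?_)) hn2.le
      exact Complex.norm_conj _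
    have n2 : eLpNorm (fun z => ((u z : ℂ) - ((F n z).re : ℂ)) * grad ζ z) 2 (volume.restrict K) ≤
        ENNReal.ofReal C * eLpNorm (fun z => F n z - (u z : ℂ)) 2 (volume.restrict K) := by
      refine eLpNorm_le_mul_eLpNorm_of_ae_le_mul (Eventually.of_forall fun z => ?_) 2
      rw [norm_mul, mul_comm]
      refine mul_le_mul (hC2 z) ?_ (norm_nonneg _) hC0
      rw [← Complex.ofReal_sub, Complex.norm_real]
      have : u z - (F n z).re = -(F n z - (u z : ℂ)).re := by simp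
      rw [this, norm_neg]
      exact Complex.abs_re_le_norm _
    refine (add_le_add (n1.trans (mul_le_mul' le_rfl n1')) (n2.trans (mul_le_mul' le_rfl hn1.le))).trans ?_
    rw [← ENNReal.ofReal_add hε.le hε.le, ← ENNReal.ofReal_mul hC0, ← ENNReal.ofReal_mul hC0, ← ENNReal.ofReal_add (by positivity) (by positivity)]
    exact ENNReal.ofReal_le_ofReal (by nlinarith)

theorem piece_h10 (h1 : S_h1) (h2 : S_poin) (h3 : S_moll) (h5 : S_bridge) : S_h10 := by
  intro Ω hΩ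
  refine ⟨?_, fun u v s hu hv => h10_add h1 hΩ u v s hu hv, fun u η hu hη => h10_mul h1 hΩ u η hu hη, ?_,
    fun G hb hG => h10_z0 h1 h2 hΩ G hb hG, fun u ζ hu hζ => h10_cut h1 h3 h5 hΩ u ζ hu hζ,
    fun Ω' w w' hΩ' hs hw e1 e0 => h10_ext h1 hΩ Ω' w w' hΩ' hs hw e1 e0, ?_⟩
  · have ht : IsTest univ (fun _ : ℂ => (0 : ℝ)) := ⟨contDiff_const, HasCompactSupport.zero, subset_univ _⟩
    have ht' : IsTest Ω (fun _ : ℂ => (0 : ℝ)) := ⟨contDiff_const, HasCompactSupport.zero, by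
      have : tsupport (fun _ : ℂ => (0 : ℝ)) = ∅ := by
        rw [tsupport_eq_empty_iff]; rfl
      rw [this]; exact empty_subset _⟩
    obtain ⟨a, b⟩ := h1.2.2.2.2.2.2.1 Ω _ hΩ ht
    refine ap_H10 a b fun ε hε => ⟨_, ht', ?_, ?_⟩
    · simp
    · simp
  · intro u hu
    refine ⟨(h1.1 Ω u hu.1).1, fun ε hε => ?_⟩
    obtain ⟨φ, t1, t2, t3⟩ := hu.2 (ε / 2) (by positivity)
    refine ⟨φ, t1, lt_of_le_of_lt t3 ?_⟩
    exact (ENNReal.ofReal_lt_ofReal_iff hε).mpr (by linarith)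
  · intro u v hu huv
    obtain ⟨a, b⟩ := h1.2.2.2.1 Ω u v hΩ hu.1 huv
    refine ap_H10 a b.symm fun ε hε => ?_
    obtain ⟨φ, t1, t2, t3⟩ := hu.2 ε hε
    refine ⟨φ, t1, le_of_eq_of_le (eLpNorm_congr_ae ?_) t2, t3⟩
    filter_upwards [huv] with z h
    rw [h]

end

end Cal
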