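import Pool.Agent.Lib.MP_4ea4c7_an.StmH2

/-! Piece k25: the two solutions agree off the body. -/

open MeasureTheory Complex Metric Set Filter Topology
open scoped ComplexConjugate ENNReal NNReal

namespace Cal

private lemma k25_gr_mul {φ ψ : ℂ → ℝ} (hφ : ContDiff ℝ (⊤ : ℕ∞) φ) (hψ : ContDiff ℝ (⊤ : ℕ∞) ψ) (z : ℂ) :
    gr (fun z => ψ z * φ z) z = (ψ z : ℂ) * gr φ z + (φ z : ℂ) * gr ψ z := by
  have h1 : DifferentiableAt ℝ φ z := hφ.differentiable (by simp) z
  have h2 : DifferentiableAt ℝ ψ z := hψ.differentiable (by simp) z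
  unfold gr
  rw [fderiv_fun_mul h2 h1]
  simp only [add_apply, smul_apply, smul_eq_mul, ofReal_add, ofReal_mul]
  ring

private lemma k25_gr_add {φ ψ : ℂ → ℝ} (hφ : ContDiff ℝ (⊤ : ℕ∞) φ) (hψ : ContDiff ℝ (⊤ : ℕ∞) ψ) (z : ℂ) :
    gr (fun z => φ z + ψ z) z = gr φ z + gr ψ z := by
  have h1 : DifferentiableAt ℝ φ z := hφ.differentiable (by simp) z
  have h2 : DifferentiableAt ℝ ψ z := hψ.differentiable (by simp) z
  unfold gr
  rw [fderiv_fun_add h1 h2]
  simp only [add_apply, ofReal_add]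
  ring

private lemma k25_gr_cont {φ : ℂ → ℝ} (hφ : ContDiff ℝ (⊤ : ℕ∞) φ) : Continuous (gr φ) := by
  have h0 : Continuous (fderiv ℝ φ) := hφ.continuous_fderiv (by simp)
  have h1 : Continuous (fun z => fderiv ℝ φ z 1) := h0.clm_apply continuous_const
  have h2 : Continuous (fun z => fderiv ℝ φ z I) := h0.clm_apply continuous_const
  exact (continuous_ofReal.comp h1).add (continuous_const.mul (continuous_ofReal.comp h2))

private lemma k25_gr_zero {φ : ℂ → ℝ} {z : ℂ} (hz : z ∉ tsupport φ) : gr φ z = 0 := by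
  unfold gr
  rw [fderiv_of_notMem_tsupport ℝ hz]
  simp

private lemma k25_gr_cs {φ : ℂ → ℝ} (hφ : HasCompactSupport φ) : HasCompactSupport (gr φ) := by
  refine HasCompactSupport.intro hφ.isCompact fun z hz => ?_
  exact k25_gr_zero hz

private lemma k25_bd {U : Set ℂ} {φ : ℂ → ℝ} (hφ : RTF U φ) : ∃ M : ℝ, ∀ z, |φ z| ≤ M ∧ ‖gr φ z‖ ≤ M := by
  obtain ⟨M1, h1⟩ := hφ.1.continuous.bounded_above_of_compact_support hφ.2.1
  obtain ⟨M2, h2⟩ := (k25_gr_cont hφ.1).bounded_above_of_compact_support (k25_gr_cs hφ.2.1)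
  exact ⟨max M1 M2, fun z => ⟨(h1 z).trans (le_max_left _ _), (h2 z).trans (le_max_right _ _)⟩⟩

private lemma k25_RTF_mono {U V : Set ℂ} {φ : ℂ → ℝ} (hUV : U ⊆ V) (hφ : RTF U φ) : RTF V φ :=
  ⟨hφ.1, hφ.2.1, hφ.2.2.trans hUV⟩

/-- integrability of the fluxes -/
private lemma k25_int {c C : ℝ} {γ : ℂ → ℝ} (hγ : Cond c C γ) {χ : ℂ → ℝ} (hχ : ContDiff ℝ (⊤ : ℕ∞) χ) {V : ℂ → ℂ}
    (hV : MemLp V 2 volume) {U : Set ℂ} {ψ : ℂ → ℝ} (hψ : RTF U ψ) :
    Integrable (fun z => γ z * ip (gr χ z + V z) (gr ψ z)) volume := by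
  have hgc := k25_gr_cont hψ.1
  have hgs := k25_gr_cs hψ.2.1
  have hcc : Continuous (fun z => conj (gr ψ z)) := Complex.continuous_conj.comp hgc
  have hcs : HasCompactSupport (fun z => conj (gr ψ z)) := hgs.comp_left (map_zero _)
  have h1 : Integrable (fun z => gr χ z * conj (gr ψ z)) volume :=
    ((k25_gr_cont hχ).mul hcc).integrable_of_hasCompactSupport hcs.mul_left
  have h2 : Integrable (fun z => V z * conj (gr ψ z)) volume :=
    MemLp.integrable_mul (p := 2) (q := 2) hV (hcc.memLp_of_hasCompactSupport hcs)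
  have h3 : Integrable (fun z => ip (gr χ z + V z) (gr ψ z)) volume := by
    have := (h1.add h2).re
    refine this.congr (ae_of_all _ fun z => ?_)
    simp only [ip, Pi.add_apply, RCLike.re_eq_complex_re]
    rw [add_mul]
  refine h3.bdd_mul (c := max |c| |C|) hγ.meas.aestronglyMeasurable (ae_of_all _ fun z => ?_)
  rw [Real.norm_eq_abs]
  exact abs_le_max_abs_abs (hγ.lo z) (hγ.hi z)

theorem piece_k25 (h1 : S_kH0) (h2 : S_kex) (h3 : S_kgeo) : S_k25 := by
  intro Ω G c C γ₁ γ₂ χ v₁ v₂ V₁ V₂ hP hc hγ₁ hγ₂ hg₁ hg₂ hTT hχ hK₁ hK₂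
  set O := G ∩ ball (0 : ℂ) (7 / 8) with hO
  have hOo : IsOpen O := hP.oG.inter isOpen_ball
  have hΩO : Ω ⊆ O := fun z hz => ⟨hP.ΩG hz, ball_subset_ball (by norm_num) (hP.Ωs hz)⟩
  have hSO : G ∩ ball (0 : ℂ) (5 / 8) ⊆ O := fun z hz => ⟨hz.1, ball_subset_ball (by norm_num) hz.2⟩
  obtain ⟨-, k2, k3, -, -, k6, -⟩ := h1 O hOo
  have hIn : InH G (5 / 8) (fun z => χ z + v₁ z) (fun z => gr χ z + V₁ z) := by
    intro η hη
    obtain ⟨M, hM⟩ := k25_bd hη
    have := k6 G _ _ inter_subset_left (k3 v₁ η V₁ M hK₁.h0 hη.1 hM)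
    convert this using 2 with z z
    · beta_reduce
      by_cases hz : ‖z‖ ≤ 3 / 4
      · rw [hχ.zero z hz, zero_add]
      · have : η z = 0 := by
          by_contra hne
          have := hη.2.2 (subset_tsupport _ hne)
          rw [mem_ball_zero_iff] at this
          exact hz (by linarith)
        rw [this, zero_mul, zero_mul]
    · beta_reduce
      by_cases hz : ‖z‖ ≤ 3 / 4
      · rw [hχ.zero z hz, zero_add, hχ.gz z hz, zero_add]
      · have hzt : z ∉ tsupport η := by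
          intro hne
          have := hη.2.2 hne
          rw [mem_ball_zero_iff] at this
          exact hz (by linarith)
        rw [k25_gr_zero hzt, image_eq_zero_of_notMem_tsupport hzt]
        simp
  obtain ⟨u', U', hz0, hsol⟩ := hTT _ _ hIn (fun φ hφ => hK₁.sol φ (k25_RTF_mono hSO hφ))
  have hΩk := h1 Ω hP.oΩ
  have hz0O := hΩk.2.2.2.2.2.1 O _ _ hΩO hz0
  have hKn : KH G γ₂ χ (fun z => v₁ z + 1 * (u' z - (χ z + v₁ z))) (fun z => V₁ z + ((1 : ℝ) : ℂ) * (U' z - (gr χ z + V₁ z))) := by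
    refine ⟨k2 _ _ _ _ 1 hK₁.h0 hz0O, fun φ hφ => ?_⟩
    have hUe : ∀ z, gr χ z + (V₁ z + ((1 : ℝ) : ℂ) * (U' z - (gr χ z + V₁ z))) = U' z := fun z => by
      push_cast
      ring
    simp only [hUe]
    obtain ⟨χ', hχ'⟩ := h3.1 (9 / 16) (39 / 64) (by norm_num) (by norm_num)
    have hζs : ContDiff ℝ (⊤ : ℕ∞) (fun z => 1 - χ' z) := contDiff_const.sub hχ'.smooth
    have hζφ : RTF (G ∩ ball 0 (5 / 8)) (fun z => (1 - χ' z) * φ z) := by
      refine ⟨hζs.mul hφ.1, hφ.2.1.mul_left, fun z hz => ⟨(hφ.2.2 (tsupport_mul_subset_right hz)).1, ?_⟩⟩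
      have h1 : tsupport (fun z => (1 - χ' z) * φ z) ⊆ closedBall 0 (39 / 64) := by
        refine closure_minimal (fun w hw => ?_) isClosed_closedBall
        rw [mem_closedBall_zero_iff]
        by_contra hn
        apply hw
        show (1 - χ' w) * φ w = 0
        rw [hχ'.one w (le_of_lt (not_le.mp hn)), sub_self, zero_mul]
      exact closedBall_subset_ball (by norm_num) (h1 hz)
    have hχφ : RTF O (fun z => χ' z * φ z) :=
      ⟨hχ'.smooth.mul hφ.1, hφ.2.1.mul_left, (tsupport_mul_subset_right).trans hφ.2.2⟩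
    have hgr : ∀ z, gr φ z = gr (fun z => (1 - χ' z) * φ z) z + gr (fun z => χ' z * φ z) z := by
      intro z
      rw [← k25_gr_add hζφ.1 hχφ.1]
      congr 1
      funext w
      ring
    have hVm : MemLp (fun z => V₁ z + (U' z - (gr χ z + V₁ z))) 2 volume := hK₁.h0.mU.add hz0.mU
    have hi : ∀ {W : Set ℂ} {ψ : ℂ → ℝ}, RTF W ψ → Integrable (fun z => γ₂ z * ip (U' z) (gr ψ z)) volume := by
      intro W ψ hψ
      refine (k25_int hγ₂ hχ.smooth hVm hψ).congr (ae_of_all _ fun z => ?_)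
      show γ₂ z * ip (gr χ z + (V₁ z + (U' z - (gr χ z + V₁ z)))) (gr ψ z) = _
      congr 2
      ring
    have e1 : ∫ z, γ₂ z * ip (U' z) (gr φ z) = (∫ z, γ₂ z * ip (U' z) (gr (fun z => (1 - χ' z) * φ z) z)) +
        ∫ z, γ₂ z * ip (U' z) (gr (fun z => χ' z * φ z) z) := by
      rw [← integral_add (hi hζφ) (hi hχφ)]
      refine integral_congr_ae (ae_of_all _ fun z => ?_)
      show γ₂ z * ip (U' z) (gr φ z) = γ₂ z * ip (U' z) (gr (fun z => (1 - χ' z) * φ z) z) +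
        γ₂ z * ip (U' z) (gr (fun z => χ' z * φ z) z)
      rw [hgr z]
      simp only [ip, map_add, mul_add, add_re]
    have e2 : ∫ z, γ₂ z * ip (U' z) (gr (fun z => χ' z * φ z) z) =
        ∫ z, γ₁ z * ip (gr χ z + V₁ z) (gr (fun z => χ' z * φ z) z) := by
      refine integral_congr_ae ?_
      filter_upwards [(hΩk.1 _ _ hz0).2] with z hz
      by_cases hzΩ : z ∈ Ω
      · have hn : ‖z‖ ≤ 9 / 16 := by
          have := hP.Ωs hzΩ
          rw [mem_ball_zero_iff] at this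
          linarith
        have h0 : gr (fun z => χ' z * φ z) z = 0 := by
          rw [k25_gr_mul hφ.1 hχ'.smooth, hχ'.zero z hn, hχ'.gz z hn]
          simp
        rw [h0]
        simp [ip]
      · have h0 := (hz hzΩ).2
        rw [hg₁ z hzΩ, hg₂ z hzΩ, sub_eq_zero.mp h0]
    rw [e1, e2, hsol _ hζφ, hK₁.sol _ hχφ, add_zero]
  obtain ⟨hv, hV⟩ := (h2 Ω G c C γ₂ χ hP hc hγ₂ hχ).2 _ _ _ _ hKn hK₂
  refine hΩk.2.2.2.1 _ _ _ _ hz0 ?_ ?_
  · filter_upwards [hv] with z hz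
    rw [← hz]
    ring
  · filter_upwards [hV] with z hz
    rw [← hz]
    push_cast
    ring

end Cal
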