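import Pool.Agent.Lib.MP_4ea4c7_an.StmH2

/-!
# MP_4ea4c7_an, stage 2, piece [KC4]: the degree integral of a finite energy solution
-/

open MeasureTheory Complex Metric Set Filter Topology
open scoped ComplexConjugate ENNReal NNReal

namespace Cal

noncomputable section

private theorem k32_fd (φ : ℂ → ℝ) (z v : ℂ) (h : DifferentiableAt ℝ φ z) :
    fderiv ℝ (fun w => (φ w : ℂ)) z v = ((fderiv ℝ φ z v : ℝ) : ℂ) := by
  have h1 : HasFDerivAt (fun w => (φ w : ℂ)) (Complex.ofRealCLM.comp (fderiv ℝ φ z)) z :=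
    Complex.ofRealCLM.hasFDerivAt.comp z h.hasFDerivAt
  rw [h1.fderiv]
  rfl

private theorem k32_dz (φ : ℂ → ℝ) (z : ℂ) (h : DifferentiableAt ℝ φ z) :
    dz (fun w => (φ w : ℂ)) z = conj (db (fun w => (φ w : ℂ)) z) := by
  unfold dz db
  rw [k32_fd φ z 1 h, k32_fd φ z I h]
  simp only [map_div₀, map_add, map_mul, conj_I, conj_ofReal, map_ofNat]
  ring

private theorem k32_pt (x y : ℝ) (A B : ℂ) :
    conj (conj (((x : ℂ) + (y : ℂ) * I) / 2) * A + ((x : ℂ) + (y : ℂ) * I) / 2 * conj B) +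
      (conj (((x : ℂ) + (y : ℂ) * I) / 2) * B + ((x : ℂ) + (y : ℂ) * I) / 2 * conj A) =
      (x : ℂ) * (conj A + B) + (y : ℂ) * (I * (conj A - B)) := by
  simp only [map_add, map_mul, map_div₀, map_neg, conj_ofReal, conj_I, conj_conj, map_ofNat]
  ring

private theorem k32_cr (x y : ℝ) (W S : ℂ) :
    cr ((x : ℂ) * W + (y : ℂ) * S) S = x * cr W S := by
  simp only [cr, map_add, map_mul, conj_ofReal,
    Complex.mul_im, Complex.mul_re, Complex.add_re, Complex.add_im,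
    Complex.ofReal_re, Complex.ofReal_im, Complex.conj_re, Complex.conj_im]
  ring

private theorem k32_loc {G : Set ℂ} (hG : IsOpen G) {g : ℂ → ℂ} (h : L2loc G g) :
    AEStronglyMeasurable g (volume.restrict G) := by
  have : LocallyIntegrableOn g G volume := by
    rw [locallyIntegrableOn_iff hG.isLocallyClosed]
    intro K hKG hK
    have h1 := h K hK hKG
    haveI : IsFiniteMeasure (volume.restrict K) := ⟨by
      rw [Measure.restrict_apply_univ]; exact hK.measure_lt_top⟩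
    exact h1.integrable (by norm_num)
  exact this.aestronglyMeasurable

theorem piece_k32 (h1 : S_kNAT) (h2 : S_kClE) (h3 : S_bpp) (h4 : S_chain) (h5 : S_bridge) : S_k32 := by
  intro G k0 μ κ F A B ψ η hA hW hD hψ hη
  obtain ⟨hPs, ⟨M, hM⟩, hPre, -⟩ := h3 ψ hψ
  obtain ⟨-, -, hcrJ, -, -, hint, -⟩ := h2 G k0 μ κ F A B hA hW hD
  have hcof : ContDiff ℝ (⊤ : ℕ∞) (fun x : ℝ => (x : ℂ)) := Complex.ofRealCLM.contDiff
  have hPc : ContDiff ℝ (⊤ : ℕ∞) (fun w => (PP ψ w : ℂ)) := hcof.comp hPs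
  have hPd : ∀ w, DifferentiableAt ℝ (PP ψ) w := fun w =>
    (hPs.differentiable (by simp)).differentiableAt
  have hWc := h4 G univ F A B (fun w => (PP ψ w : ℂ)) hA.oG isOpen_univ hD.wd hD.cont
    (mapsTo_univ _ _) (hPc.of_le (by exact_mod_cast le_top)).contDiffOn
  have hWG := (h5.1 G _ _ _ hWc).1
  set V : ℂ → ℂ := fun z => ((ψ (F z) : ℝ) : ℂ) * (conj (A z) + B z) +
    (((gr (PP ψ) (F z)).im : ℝ) : ℂ) * (I * (conj (A z) - B z)) with hV
  have hVe : (fun z => conj (dz (fun w => (PP ψ w : ℂ)) (F z) * A z +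
      db (fun w => (PP ψ w : ℂ)) (F z) * conj (B z)) +
      (dz (fun w => (PP ψ w : ℂ)) (F z) * B z +
      db (fun w => (PP ψ w : ℂ)) (F z) * conj (A z))) = V := by
    funext z
    have e1 : db (fun w => (PP ψ w : ℂ)) (F z) =
        (((ψ (F z) : ℝ) : ℂ) + (((gr (PP ψ) (F z)).im : ℝ) : ℂ) * I) / 2 := by
      have := h5.2.2.2 (PP ψ) (F z) (hPd _)
      have e := Complex.re_add_im (gr (PP ψ) (F z))
      rw [hPre (F z)] at e
      rw [e, this]
      ring
    have e2 : dz (fun w => (PP ψ w : ℂ)) (F z) =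
        conj ((((ψ (F z) : ℝ) : ℂ) + (((gr (PP ψ) (F z)).im : ℝ) : ℂ) * I) / 2) := by
      rw [k32_dz _ _ (hPd _), e1]
    rw [e1, e2]
    exact k32_pt _ _ _ _
  have hWG2 : WG G (fun z => PP ψ (F z)) V := by
    have := hWG
    simp only [ofReal_re] at this
    rw [← hVe]
    exact this
  have hM0 : 0 ≤ M := (abs_nonneg _).trans (hM 0).1
  have hbd : ∀ z, ‖V z‖ ^ 2 ≤ 2 * M ^ 2 * (‖conj (A z) + B z‖ ^ 2 + ‖I * (conj (A z) - B z)‖ ^ 2) := by
    intro z
    have e1 : |ψ (F z)| ≤ M := by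
      rw [← hPre (F z)]
      exact (Complex.abs_re_le_norm _).trans (hM _).2
    have e2 : |(gr (PP ψ) (F z)).im| ≤ M := (Complex.abs_im_le_norm _).trans (hM _).2
    have e3 : ‖V z‖ ≤ M * ‖conj (A z) + B z‖ + M * ‖I * (conj (A z) - B z)‖ := by
      rw [hV]
      refine (norm_add_le _ _).trans ?_
      rw [norm_mul, norm_mul, Complex.norm_real, Complex.norm_real]
      exact add_le_add (mul_le_mul_of_nonneg_right e1 (norm_nonneg _))
        (mul_le_mul_of_nonneg_right e2 (norm_nonneg _))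
    have e4 : ‖V z‖ ^ 2 ≤ (M * ‖conj (A z) + B z‖ + M * ‖I * (conj (A z) - B z)‖) ^ 2 :=
      pow_le_pow_left₀ (norm_nonneg _) e3 2
    nlinarith [sq_nonneg (M * ‖conj (A z) + B z‖ - M * ‖I * (conj (A z) - B z)‖)]
  have hVi : ∀ R : ℝ, IntegrableOn (fun z => κ z ^ 2 * ‖V z‖ ^ 2) (G ∩ closedBall 0 R) volume := by
    intro R
    obtain ⟨i1, i2⟩ := hint R
    have i3 : IntegrableOn (fun z => 2 * M ^ 2 * (κ z ^ 2 * ‖conj (A z) + B z‖ ^ 2 +
        ‖I * (conj (A z) - B z)‖ ^ 2)) (G ∩ closedBall 0 R) volume := (i1.add i2).const_mul _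
    refine Integrable.mono' i3 ?_ ?_
    · have m1 : AEStronglyMeasurable V (volume.restrict (G ∩ closedBall 0 R)) :=
        (k32_loc hA.oG hWG2.G2).mono_measure (Measure.restrict_mono inter_subset_left le_rfl)
      exact ((hW.meas.pow_const 2).aestronglyMeasurable).mul (m1.norm.pow 2)
    · refine Eventually.of_forall ?_
      intro z
      have k0 := hW.lo z
      have k1 := hW.hi z
      have hk2 : κ z ^ 2 ≤ 1 := by nlinarith
      have n1 : 0 ≤ ‖conj (A z) + B z‖ ^ 2 := by positivity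
      have n2 : 0 ≤ ‖I * (conj (A z) - B z)‖ ^ 2 := by positivity
      rw [Real.norm_of_nonneg (by positivity)]
      calc κ z ^ 2 * ‖V z‖ ^ 2
          ≤ κ z ^ 2 * (2 * M ^ 2 * (‖conj (A z) + B z‖ ^ 2 + ‖I * (conj (A z) - B z)‖ ^ 2)) :=
            mul_le_mul_of_nonneg_left (hbd z) (by positivity)
        _ = 2 * M ^ 2 * (κ z ^ 2 * ‖conj (A z) + B z‖ ^ 2 +
            κ z ^ 2 * ‖I * (conj (A z) - B z)‖ ^ 2) := by ring
        _ ≤ 2 * M ^ 2 * (κ z ^ 2 * ‖conj (A z) + B z‖ ^ 2 + ‖I * (conj (A z) - B z)‖ ^ 2) := by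
            refine mul_le_mul_of_nonneg_left ?_ (by positivity)
            have := mul_le_mul_of_nonneg_right hk2 n2
            linarith
  obtain ⟨r1, r2, r3⟩ := h1 G k0 μ κ F A B hA hW hD (fun z => PP ψ (F z)) V M
    (hPs.continuous.comp_continuousOn hD.cont) (fun z _ => (hM _).1) hWG2 hVi η hη
  have hpt : ∀ z, η z * cr (V z) (I * (conj (A z) - B z)) =
      η z * ψ (F z) * (‖A z‖ ^ 2 - ‖B z‖ ^ 2) := by
    intro z
    rw [hV]
    simp only []
    rw [k32_cr, hcrJ z]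
    ring
  have hfe : (fun z => η z * cr (V z) (I * (conj (A z) - B z))) =
      fun z => η z * ψ (F z) * (‖A z‖ ^ 2 - ‖B z‖ ^ 2) := funext hpt
  rw [hfe] at r1 r3
  exact ⟨r1, r2, r3⟩

end

end Cal
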