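import Pool.Agent.Lib.MP_4ea4c7_an.StmH2

/-! [CK kClE] Energy facts. -/

open MeasureTheory Complex Metric Set Filter Topology
open scoped ComplexConjugate ENNReal NNReal

namespace Cal

noncomputable section

private theorem kClE_aesm {G : Set ℂ} (hG : IsOpen G) {A : ℂ → ℂ} (hA : L2loc G A) :
    AEStronglyMeasurable A (volume.restrict G) := by
  have h : LocallyIntegrableOn A G volume := by
    rw [locallyIntegrableOn_iff hG.isLocallyClosed]
    intro K hKG hK
    have : IsFiniteMeasure (volume.restrict K) := ⟨by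
      rw [Measure.restrict_apply_univ]; exact hK.measure_lt_top⟩
    exact (hA K hK hKG).integrable one_le_two
  exact h.aestronglyMeasurable

private theorem kClE_cr (a b : ℂ) :
    cr (conj a + b) (I * (conj a - b)) = ‖a‖ ^ 2 - ‖b‖ ^ 2 := by
  rw [← Complex.normSq_eq_norm_sq, ← Complex.normSq_eq_norm_sq, Complex.normSq_apply,
    Complex.normSq_apply]
  unfold cr
  simp
  ring

private theorem kClE_W (a : ℂ) (m : ℝ) : ‖conj a + (m : ℂ) * conj a‖ ^ 2 = (1 + m) ^ 2 * ‖a‖ ^ 2 := by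
  have : conj a + (m : ℂ) * conj a = ((1 + m : ℝ) : ℂ) * conj a := by
    push_cast
    ring
  rw [this, norm_mul, Complex.norm_real, RCLike.norm_conj, mul_pow, Real.norm_eq_abs, sq_abs]

private theorem kClE_S (a : ℂ) (m : ℝ) :
    ‖I * (conj a - (m : ℂ) * conj a)‖ ^ 2 = (1 - m) ^ 2 * ‖a‖ ^ 2 := by
  have : conj a - (m : ℂ) * conj a = ((1 - m : ℝ) : ℂ) * conj a := by
    push_cast
    ring
  rw [this, norm_mul, norm_mul, Complex.norm_real, RCLike.norm_conj, Complex.norm_I, one_mul,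
    mul_pow, Real.norm_eq_abs, sq_abs]

private theorem kClE_J (a : ℂ) (m : ℝ) :
    ‖a‖ ^ 2 - ‖(m : ℂ) * conj a‖ ^ 2 = (1 - m ^ 2) * ‖a‖ ^ 2 := by
  rw [norm_mul, Complex.norm_real, RCLike.norm_conj, mul_pow, Real.norm_eq_abs, sq_abs]
  ring

theorem piece_kClE (h1 : S_bridge) (h2 : S_wuniq) : S_kClE := by
  intro G k0 μ κ F A B hadm hwt hcl
  obtain ⟨c, C, hc0, hcmp⟩ := hwt.cmp
  have hGm := hadm.oG.measurableSet
  have hk1 : 0 < 1 - k0 := by linarith [hadm.k01]
  have hpos : ∀ z ∈ G, 0 < 1 - μ z := by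
    intro z hz
    have h := (hcmp z hz).1
    have hk := hwt.pos z hz
    have : 0 < c * κ z ^ 2 := by positivity
    linarith
  have hpos' : ∀ z, 0 < 1 + μ z := by
    intro z
    linarith [hadm.lo z]
  have hsq : ∀ z ∈ G, 0 < 1 - μ z ^ 2 := by
    intro z hz
    have e : 1 - μ z ^ 2 = (1 - μ z) * (1 + μ z) := by ring
    rw [e]
    exact mul_pos (hpos z hz) (hpos' z)
  have hM0 : 0 ≤ 2 / c + |C| / (1 - k0) := by positivity
  -- the two pointwise inequalities
  have hineq : ∀ᵐ z ∂(volume.restrict G),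
      κ z ^ 2 * ‖conj (A z) + B z‖ ^ 2 ≤ (2 / c + |C| / (1 - k0)) * (‖A z‖ ^ 2 - ‖B z‖ ^ 2) ∧
      ‖I * (conj (A z) - B z)‖ ^ 2 ≤
        (2 / c + |C| / (1 - k0)) * κ z ^ 2 * (‖A z‖ ^ 2 - ‖B z‖ ^ 2) := by
    filter_upwards [hcl.eq, ae_restrict_mem hGm] with z hz hzG
    rw [hz, kClE_W, kClE_S, kClE_J]
    obtain ⟨e1, e2⟩ := hcmp z hzG
    have p1 := hpos z hzG
    have p2 := hpos' z
    have p3 := hadm.lo z
    have p4 := hadm.hi z
    have a0 : 0 ≤ ‖A z‖ ^ 2 := by positivity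
    have κ0 : 0 ≤ κ z ^ 2 := by positivity
    have eC : 0 ≤ |C| / (1 - k0) := by positivity
    have ec : 0 ≤ 2 / c := by positivity
    constructor
    · -- `κ² ≤ (1-μ)/c`
      have f1 : κ z ^ 2 ≤ (1 - μ z) / c := by
        rw [le_div_iff₀ hc0]
        linarith
      have f2 : κ z ^ 2 * ((1 + μ z) ^ 2 * ‖A z‖ ^ 2) ≤
          (1 - μ z) / c * ((1 + μ z) ^ 2 * ‖A z‖ ^ 2) :=
        mul_le_mul_of_nonneg_right f1 (by positivity)
      have f3 : (1 - μ z) / c * ((1 + μ z) ^ 2 * ‖A z‖ ^ 2) =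
          ((1 + μ z) / c) * ((1 - μ z ^ 2) * ‖A z‖ ^ 2) := by
        ring
      have f4 : (1 + μ z) / c ≤ 2 / c + |C| / (1 - k0) := by
        have : (1 + μ z) / c ≤ 2 / c := div_le_div_of_nonneg_right (by linarith) hc0.le
        linarith
      rw [f3] at f2
      refine f2.trans (mul_le_mul_of_nonneg_right f4 ?_)
      exact mul_nonneg (hsq z hzG).le a0
    · have f1 : 1 - μ z ≤ |C| * κ z ^ 2 :=
        e2.trans (mul_le_mul_of_nonneg_right (le_abs_self C) κ0)
      have f2 : (1 - μ z) * (1 - k0) ≤ (1 - μ z) * (1 + μ z) :=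
        mul_le_mul_of_nonneg_left (by linarith) p1.le
      have f3 : (1 - μ z) ^ 2 * ‖A z‖ ^ 2 ≤ (|C| * κ z ^ 2) * (1 - μ z) * ‖A z‖ ^ 2 := by
        rw [sq]
        exact mul_le_mul_of_nonneg_right (mul_le_mul_of_nonneg_right f1 p1.le) a0
      have f4 : (|C| * κ z ^ 2) * (1 - μ z) * ‖A z‖ ^ 2 =
          (|C| / (1 - k0)) * κ z ^ 2 * (((1 - μ z) * (1 - k0)) * ‖A z‖ ^ 2) := by
        field_simp
      have f5 : (|C| / (1 - k0)) * κ z ^ 2 * (((1 - μ z) * (1 - k0)) * ‖A z‖ ^ 2) ≤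
          (|C| / (1 - k0)) * κ z ^ 2 * (((1 - μ z) * (1 + μ z)) * ‖A z‖ ^ 2) :=
        mul_le_mul_of_nonneg_left (mul_le_mul_of_nonneg_right f2 a0) (mul_nonneg eC κ0)
      have f6 : (|C| / (1 - k0)) * κ z ^ 2 * (((1 - μ z) * (1 + μ z)) * ‖A z‖ ^ 2) ≤
          (2 / c + |C| / (1 - k0)) * κ z ^ 2 * (((1 - μ z) * (1 + μ z)) * ‖A z‖ ^ 2) := by
        refine mul_le_mul_of_nonneg_right (mul_le_mul_of_nonneg_right (by linarith) κ0) ?_
        exact mul_nonneg (mul_nonneg p1.le p2.le) a0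
      have f7 : (1 - μ z) * (1 + μ z) = 1 - μ z ^ 2 := by ring
      rw [f7] at f6 f5
      linarith
  -- measurability
  have hAm := kClE_aesm hadm.oG hcl.wd.A2
  have hBm := kClE_aesm hadm.oG hcl.wd.B2
  have hcAm : AEStronglyMeasurable (fun z => conj (A z)) (volume.restrict G) :=
    Complex.continuous_conj.comp_aestronglyMeasurable hAm
  have hle : ∀ R : ℝ, volume.restrict (G ∩ closedBall (0 : ℂ) R) ≤ volume.restrict G := fun R =>
    Measure.restrict_mono inter_subset_left le_rfl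
  refine ⟨(h1.1 G F A B hcl.wd).1, (h1.1 G F A B hcl.wd).2, fun z => kClE_cr _ _, ?_,
    ⟨_, hM0, hineq⟩, fun R => ⟨?_, ?_⟩, ?_⟩
  · filter_upwards [hcl.eq, ae_restrict_mem hGm] with z hz hzG
    refine ⟨?_, ?_, hsq z hzG⟩
    · rw [hz]
      have hne : ((1 : ℂ) + (μ z : ℂ)) ≠ 0 := by
        have := (hpos' z).ne'
        exact_mod_cast this
      push_cast
      congr 1
      field_simp
    · rw [hz, kClE_J]
  · refine Integrable.mono' ((hcl.en R).const_mul (2 / c + |C| / (1 - k0))) ?_ ?_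
    · have m1 : AEStronglyMeasurable (fun z => ‖conj (A z) + B z‖ ^ 2) (volume.restrict G) :=
        (hcAm.add hBm).norm.pow 2
      exact ((hwt.meas.pow_const 2).aestronglyMeasurable.mul m1).mono_measure (hle R)
    · filter_upwards [ae_restrict_of_ae_restrict_of_subset inter_subset_left hineq] with z hz
      rw [Real.norm_eq_abs, abs_of_nonneg (by positivity)]
      exact hz.1
  · refine Integrable.mono' ((hcl.en R).const_mul (2 / c + |C| / (1 - k0))) ?_ ?_
    · have m1 : AEStronglyMeasurable (fun z => ‖I * (conj (A z) - B z)‖ ^ 2) (volume.restrict G) :=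
        ((hcAm.sub hBm).const_mul I).norm.pow 2
      exact m1.mono_measure (hle R)
    · filter_upwards [ae_restrict_of_ae_restrict_of_subset inter_subset_left hineq,
        ae_restrict_of_ae_restrict_of_subset (t := G) inter_subset_left hcl.eq,
        ae_restrict_of_ae_restrict_of_subset (t := G) inter_subset_left (ae_restrict_mem hGm)]
        with z hz hz2 hzG
      rw [Real.norm_eq_abs, abs_of_nonneg (by positivity)]
      refine hz.2.trans ?_
      have hJ : 0 ≤ ‖A z‖ ^ 2 - ‖B z‖ ^ 2 := by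
        rw [hz2, kClE_J]
        exact mul_nonneg (hsq z hzG).le (by positivity)
      have hκ : κ z ^ 2 ≤ 1 := by
        have := hwt.hi z
        have h0 := hwt.lo z
        exact pow_le_one₀ h0 this
      have : (2 / c + |C| / (1 - k0)) * κ z ^ 2 ≤ (2 / c + |C| / (1 - k0)) :=
        mul_le_of_le_one_right hM0 hκ
      exact mul_le_mul_of_nonneg_right this hJ
  · intro A' B' hW
    obtain ⟨eA, eB⟩ := h2 G F A B F A' B' hadm.oG hcl.wd hW (ae_eq_refl _)
    refine ⟨hcl.cont, hcl.hol, hW, ?_, fun R => ?_⟩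
    · filter_upwards [eA, eB, hcl.eq] with z z1 z2 z3
      rw [← z1, ← z2, z3]
    · refine (hcl.en R).congr ?_
      filter_upwards [ae_restrict_of_ae_restrict_of_subset inter_subset_left eA,
        ae_restrict_of_ae_restrict_of_subset inter_subset_left eB] with z z1 z2
      rw [z1, z2]

end

end Cal
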