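import Pool.Agent.Lib.MP_4ea4c7_an.StmH2

/-!
# [KC2] `Cl` is a real vector space containing the constants
-/

open MeasureTheory Complex Metric Set Filter Topology
open scoped ComplexConjugate ENNReal NNReal

namespace Cal

private theorem kCll_meas {U : Set ℂ} (hU : IsOpen U) {g : ℂ → ℂ} (hg : L2loc U g) :
    AEStronglyMeasurable g (volume.restrict U) := by
  have hloc : LocallyIntegrableOn g U volume := by
    rw [locallyIntegrableOn_iff hU.isLocallyClosed]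
    intro K hKU hK
    have : IsFiniteMeasure (volume.restrict K) :=
      ⟨by rw [Measure.restrict_apply_univ]; exact hK.measure_lt_top⟩
    exact (hg K hK hKU).integrable one_le_two
  exact hloc.aestronglyMeasurable

private theorem kCll_iff (G : Set ℂ) (μ : ℂ → ℝ) (F : ℂ → ℂ) :
    Cl G μ F ↔ ∃ A B : ℂ → ℂ, ClD G μ F A B := by
  constructor
  · intro h
    obtain ⟨A, B, h1, h2, h3⟩ := h.en
    exact ⟨A, B, h.cont, h.hol, h1, h2, h3⟩
  · rintro ⟨A, B, h⟩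
    exact ⟨h.cont, h.hol, A, B, h.wd, h.eq, h.en⟩

private theorem kCll_norm (x y : ℂ) (a : ℝ) :
    ‖x + (a : ℂ) * y‖ ^ 2 ≤ 2 * ‖x‖ ^ 2 + 2 * a ^ 2 * ‖y‖ ^ 2 := by
  have h1 : ‖x + (a : ℂ) * y‖ ≤ ‖x‖ + |a| * ‖y‖ := by
    refine (norm_add_le _ _).trans (le_of_eq ?_)
    rw [norm_mul, Complex.norm_real, Real.norm_eq_abs]
  have h2 : ‖x + (a : ℂ) * y‖ ^ 2 ≤ (‖x‖ + |a| * ‖y‖) ^ 2 :=
    pow_le_pow_left₀ (norm_nonneg _) h1 2
  have h3 : a ^ 2 = |a| ^ 2 := (sq_abs a).symm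
  rw [h3]
  nlinarith [sq_nonneg (‖x‖ - |a| * ‖y‖)]

theorem piece_kCll (h1 : S_kClE) (h2 : S_basic) (h3 : S_smooth) : S_kCll := by
  intro G k0 μ κ hA hW
  refine ⟨?_, ?_, fun F => kCll_iff G μ F⟩
  · intro F F' a hF hF'
    rw [kCll_iff] at hF hF' ⊢
    obtain ⟨A, B, hD⟩ := hF
    obtain ⟨A', B', hD'⟩ := hF'
    have w1 := h2.2.1 G F' A' B' (a : ℂ) hD'.wd
    have w2 := h2.1 G F A B _ _ _ hD.wd w1
    have e1 := (h1 G k0 μ κ F A B hA hW hD).2.2.2.1
    have e2 := (h1 G k0 μ κ F' A' B' hA hW hD').2.2.2.1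
    have heq : ∀ᵐ z ∂(volume.restrict G), B z + (a : ℂ) * B' z = (μ z : ℂ) * conj (A z + (a : ℂ) * A' z) := by
      filter_upwards [hD.eq, hD'.eq] with z hz hz'
      rw [hz, hz', map_add, map_mul, Complex.conj_ofReal]
      ring
    refine ⟨fun z => A z + (a : ℂ) * A' z, fun z => B z + (a : ℂ) * B' z, ?_, ?_, w2, heq, ?_⟩
    · exact hD.cont.add (continuousOn_const.mul hD'.cont)
    · exact hD.hol.add ((differentiableOn_const _).mul hD'.hol)
    · intro R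
      have hm := kCll_meas hA.oG w2.A2
      have hm' := kCll_meas hA.oG w2.B2
      have hsub : G ∩ closedBall (0 : ℂ) R ⊆ G := inter_subset_left
      have hm1 : AEStronglyMeasurable (fun z => ‖A z + (a : ℂ) * A' z‖ ^ 2 - ‖B z + (a : ℂ) * B' z‖ ^ 2)
          (volume.restrict (G ∩ closedBall (0 : ℂ) R)) :=
        ((hm.norm.pow 2).sub (hm'.norm.pow 2)).mono_measure (Measure.restrict_mono_set _ hsub)
      have hdom : IntegrableOn (fun z => 2 * (‖A z‖ ^ 2 - ‖B z‖ ^ 2) + 2 * a ^ 2 * (‖A' z‖ ^ 2 - ‖B' z‖ ^ 2))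
          (G ∩ closedBall (0 : ℂ) R) volume :=
        ((hD.en R).const_mul 2).add ((hD'.en R).const_mul (2 * a ^ 2))
      refine Integrable.mono' hdom hm1 ?_
      have hae : ∀ᵐ z ∂(volume.restrict G), ‖‖A z + (a : ℂ) * A' z‖ ^ 2 - ‖B z + (a : ℂ) * B' z‖ ^ 2‖ ≤
          2 * (‖A z‖ ^ 2 - ‖B z‖ ^ 2) + 2 * a ^ 2 * (‖A' z‖ ^ 2 - ‖B' z‖ ^ 2) := by
        filter_upwards [heq, e1, e2] with z hz hz1 hz2
        have n1 : ‖B z + (a : ℂ) * B' z‖ ^ 2 = μ z ^ 2 * ‖A z + (a : ℂ) * A' z‖ ^ 2 := by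
          rw [hz, norm_mul, RCLike.norm_conj, Complex.norm_real, Real.norm_eq_abs, mul_pow, sq_abs]
        rw [n1, hz1.2.1, hz2.2.1]
        have n2 := kCll_norm (A z) (A' z) a
        have n3 : 0 < 1 - μ z ^ 2 := hz1.2.2
        have n4 : ‖A z + (a : ℂ) * A' z‖ ^ 2 - μ z ^ 2 * ‖A z + (a : ℂ) * A' z‖ ^ 2 =
            (1 - μ z ^ 2) * ‖A z + (a : ℂ) * A' z‖ ^ 2 := by ring
        rw [n4, Real.norm_of_nonneg (by positivity)]
        calc (1 - μ z ^ 2) * ‖A z + (a : ℂ) * A' z‖ ^ 2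
            ≤ (1 - μ z ^ 2) * (2 * ‖A z‖ ^ 2 + 2 * a ^ 2 * ‖A' z‖ ^ 2) :=
              mul_le_mul_of_nonneg_left n2 n3.le
          _ = _ := by ring
      exact ae_mono (Measure.restrict_mono_set _ hsub) hae
  · intro c
    rw [kCll_iff]
    have w := h3.1 G (fun _ => c) hA.oG contDiffOn_const
    have d1 : ∀ z, dz (fun _ : ℂ => c) z = 0 := fun z => by
      unfold dz
      simp
    have d2 : ∀ z, db (fun _ : ℂ => c) z = 0 := fun z => by
      unfold db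
      simp
    refine ⟨_, _, continuousOn_const, differentiableOn_const _, w, ?_, ?_⟩
    · refine Filter.Eventually.of_forall fun z => ?_
      rw [d1, d2]
      simp
    · intro R
      simp only [d1, d2]
      simp

end Cal
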