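import Pool.Agent.Lib.MP_4ea4c7_an.StmH2

/-!
# MP_4ea4c7_an, stage 2, piece [KC5]: extension of `F` from a neighbourhood of infinity without small values
-/

open MeasureTheory Complex Metric Set Filter Topology
open scoped ComplexConjugate ENNReal NNReal

namespace Cal

noncomputable section

theorem piece_kFt (h1 : S_kgeo) : S_kFt := by
  intro F k c R e0 hR hc hF hw he0
  have hcn : 0 < ‖c‖ := norm_pos_iff.mpr hc
  have he : 0 < e0 := by rw [he0]; positivity
  -- the lower bound
  have hlow : ∀ z : ℂ, R ≤ ‖z‖ → ‖z‖ ≤ R + 1 → e0 ≤ ‖F z‖ := by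
    intro z hz1 hz2
    have e1 : F z = exp (I * k * z) * (exp (-(I * k * z)) * F z) := by
      rw [← mul_assoc, ← Complex.exp_add]
      simp
    have e2 : ‖c‖ / 2 ≤ ‖exp (-(I * k * z)) * F z‖ := by
      have := hw z hz1
      have t : ‖c‖ ≤ ‖exp (-(I * k * z)) * F z‖ + ‖exp (-(I * k * z)) * F z - c‖ := by
        have := norm_sub_norm_le c (-(exp (-(I * k * z)) * F z - c))
        have t2 : c - -(exp (-(I * k * z)) * F z - c) = exp (-(I * k * z)) * F z := by ring
        rw [t2, norm_neg] at this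
        linarith
      linarith
    have e3 : Real.exp (-(‖k‖ * (R + 1))) ≤ ‖exp (I * k * z)‖ := by
      rw [Complex.norm_exp]
      apply Real.exp_le_exp.mpr
      have t1 : |(I * k * z).re| ≤ ‖I * k * z‖ := Complex.abs_re_le_norm _
      have t2 : ‖I * k * z‖ = ‖k‖ * ‖z‖ := by
        rw [norm_mul, norm_mul, Complex.norm_I, one_mul]
      have t3 : ‖k‖ * ‖z‖ ≤ ‖k‖ * (R + 1) := mul_le_mul_of_nonneg_left hz2 (norm_nonneg _)
      have t4 := neg_abs_le (I * k * z).re
      linarith
    rw [e1, norm_mul, he0, mul_comm (‖c‖ / 2)]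
    exact mul_le_mul e3 e2 (by positivity) (norm_nonneg _)
  refine ⟨hlow, ?_⟩
  obtain ⟨χ, hχ⟩ := h1.1 (R + 1 / 16) (R + 1 / 8) (by linarith) (by linarith)
  set u : ℂ → ℂ := fun z => (exp (-(I * k * z)) * F z - c) / c with hu
  set h : ℂ → ℂ := fun z => I * k * z + Complex.log c + Complex.log (1 + u z) with hh
  set V : Set ℂ := {z | R < ‖z‖} with hV
  have hVo : IsOpen V := isOpen_lt continuous_const continuous_norm
  have hub : ∀ z ∈ V, ‖u z‖ ≤ 1 / 2 := by
    intro z hz
    rw [hu]
    simp only []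
    rw [norm_div, div_le_iff₀ hcn]
    have := hw z (le_of_lt hz)
    linarith
  have hsl : ∀ z ∈ V, 1 + u z ∈ slitPlane := by
    intro z hz
    left
    have := (abs_le.mp ((Complex.abs_re_le_norm (u z)).trans (hub z hz))).1
    simp only [add_re, one_re]
    linarith
  have hFV : DifferentiableOn ℂ F V := hF.mono (fun z (hz : R < ‖z‖) => by
    show 3 / 4 < ‖z‖
    linarith)
  have huV : DifferentiableOn ℂ u V := by
    intro z hz
    have := (hFV z hz)
    exact (((by fun_prop : DifferentiableWithinAt ℂ (fun z => exp (-(I * k * z))) V z).mul this).sub_const c).div_const c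
  have hhV : DifferentiableOn ℂ h V := by
    intro z hz
    refine DifferentiableWithinAt.add (by fun_prop) ?_
    exact ((differentiableWithinAt_const (1 : ℂ)).add (huV z hz)).clog (hsl z hz)
  have hhC : ContDiffOn ℝ (⊤ : ℕ∞) h V := (hhV.contDiffOn hVo).restrict_scalars ℝ
  have hexp : ∀ z ∈ V, exp (h z) = F z := by
    intro z hz
    rw [hh]
    simp only []
    rw [Complex.exp_add, Complex.exp_add, Complex.exp_log hc, Complex.exp_log (slitPlane_ne_zero (hsl z hz))]
    rw [hu]
    simp only []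
    have : c * (1 + (exp (-(I * k * z)) * F z - c) / c) = exp (-(I * k * z)) * F z := by
      field_simp
      ring
    rw [mul_assoc, this, ← mul_assoc, ← Complex.exp_add]
    simp
  set g : ℂ → ℂ := fun z => exp ((χ z : ℂ) * h z + (1 - (χ z : ℂ)) * ((Real.log e0 : ℝ) : ℂ)) with hg
  have hcof : ContDiff ℝ (⊤ : ℕ∞) (fun z => (χ z : ℂ)) := Complex.ofRealCLM.contDiff.comp hχ.smooth
  have hgC : ContDiffOn ℝ (⊤ : ℕ∞) g V := by
    have e1 : ContDiffOn ℝ (⊤ : ℕ∞) (fun z => (χ z : ℂ) * h z + (1 - (χ z : ℂ)) * ((Real.log e0 : ℝ) : ℂ)) V :=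
      (hcof.contDiffOn.mul hhC).add ((contDiffOn_const.sub hcof.contDiffOn).mul contDiffOn_const)
    exact (Complex.contDiff_exp.comp_contDiffOn e1)
  classical
  have hlogc : exp ((Real.log e0 : ℝ) : ℂ) = (e0 : ℂ) := by
    rw [← Complex.ofReal_exp, Real.exp_log he]
  have hg0 : ∀ z : ℂ, ‖z‖ ≤ R + 1 / 16 → g z = (e0 : ℂ) := by
    intro z hz
    rw [hg]
    simp only []
    rw [hχ.zero z hz]
    simp only [ofReal_zero, zero_mul, zero_add, sub_zero, one_mul]
    exact hlogc
  refine ⟨fun z => if R < ‖z‖ then g z else (e0 : ℂ), ?_, ?_, ?_⟩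
  · rw [contDiff_iff_contDiffAt]
    intro z
    by_cases hz : R < ‖z‖
    · have e1 : ContDiffAt ℝ (⊤ : ℕ∞) g z := hgC.contDiffAt (hVo.mem_nhds hz)
      refine e1.congr_of_eventuallyEq ?_
      filter_upwards [hVo.mem_nhds hz] with w hw'
      have hw2 : R < ‖w‖ := hw'
      rw [if_pos hw2]
    · have e1 : ContDiffAt ℝ (⊤ : ℕ∞) (fun _ : ℂ => (e0 : ℂ)) z := contDiffAt_const
      refine e1.congr_of_eventuallyEq ?_
      have ho : IsOpen {w : ℂ | ‖w‖ < R + 1 / 16} := isOpen_lt continuous_norm continuous_const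
      have hm : z ∈ {w : ℂ | ‖w‖ < R + 1 / 16} := by
        show ‖z‖ < R + 1 / 16
        push Not at hz
        linarith
      filter_upwards [ho.mem_nhds hm] with w hw'
      split_ifs with h2
      · exact hg0 w (le_of_lt hw')
      · rfl
  · intro z hz
    have h2 : R < ‖z‖ := by linarith
    simp only []
    rw [if_pos h2, hg]
    simp only []
    rw [hχ.one z hz]
    simp only [ofReal_one, one_mul, sub_self, zero_mul, add_zero]
    exact hexp z h2
  · intro z hz
    simp only []
    split_ifs with h2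
    · rw [hg]
      simp only []
      rw [Complex.norm_exp]
      have e1 : Real.log e0 ≤ (h z).re := by
        have t := hlow z (le_of_lt h2) hz
        rw [← hexp z h2, Complex.norm_exp] at t
        exact (Real.log_le_iff_le_exp he).mpr t
      have e2 : ((χ z : ℂ) * h z + (1 - (χ z : ℂ)) * ((Real.log e0 : ℝ) : ℂ)).re =
          χ z * (h z).re + (1 - χ z) * Real.log e0 := by
        simp [Complex.add_re, Complex.mul_re, Complex.sub_re, Complex.sub_im]
      rw [e2]
      have e3 : Real.log e0 ≤ χ z * (h z).re + (1 - χ z) * Real.log e0 := by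
        have := mul_le_mul_of_nonneg_left e1 (hχ.bd z).1
        linarith
      calc e0 = Real.exp (Real.log e0) := (Real.exp_log he).symm
        _ ≤ _ := Real.exp_le_exp.mpr e3
    · rw [Complex.norm_real, Real.norm_of_nonneg he.le]

end

end Cal
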