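import Pool.Agent.Lib.MP_4ea4c7_an.StmH2

/-!
# [kH0] Facts on `H0`
-/

open MeasureTheory Complex Metric Set Filter Topology
open scoped ComplexConjugate ENNReal NNReal

namespace Cal

noncomputable section

private theorem kH0_gr_cont {η : ℂ → ℝ} (h : ContDiff ℝ (⊤ : ℕ∞) η) : Continuous (gr η) := by
  have h1 : Continuous (fderiv ℝ η) := h.continuous_fderiv (by simp)
  unfold gr
  fun_prop

private theorem kH0_gr_zero {η : ℂ → ℝ} {z : ℂ} (hz : z ∉ tsupport η) : gr η z = 0 := by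
  have h1 : fderiv ℝ η z = 0 := by
    by_contra h
    exact hz (support_fderiv_subset ℝ (f := η) h)
  simp [gr, h1]

private theorem kH0_gr_supp {η : ℂ → ℝ} (h : HasCompactSupport η) : HasCompactSupport (gr η) := by
  refine HasCompactSupport.intro h fun z hz => kH0_gr_zero hz

private theorem kH0_gr_add {φ ψ : ℂ → ℝ} (s : ℝ) (hφ : ContDiff ℝ (⊤ : ℕ∞) φ) (hψ : ContDiff ℝ (⊤ : ℕ∞) ψ) :
    gr (fun z => φ z + s * ψ z) = fun z => gr φ z + (s : ℂ) * gr ψ z := by
  funext z
  have d1 : DifferentiableAt ℝ φ z := (hφ.differentiable (by simp)) z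
  have d2 : DifferentiableAt ℝ ψ z := (hψ.differentiable (by simp)) z
  have e : fderiv ℝ (fun z => φ z + s * ψ z) z = fderiv ℝ φ z + s • fderiv ℝ ψ z := by
    have : HasFDerivAt (fun z => φ z + s * ψ z) (fderiv ℝ φ z + s • fderiv ℝ ψ z) z := by
      have h2 := d2.hasFDerivAt.const_mul s
      exact d1.hasFDerivAt.add h2
    exact this.fderiv
  simp only [gr, e, add_apply, smul_apply, smul_eq_mul]
  push_cast
  ring

private theorem kH0_gr_mul {φ ψ : ℂ → ℝ} (hφ : ContDiff ℝ (⊤ : ℕ∞) φ) (hψ : ContDiff ℝ (⊤ : ℕ∞) ψ) :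
    gr (fun z => φ z * ψ z) = fun z => (φ z : ℂ) * gr ψ z + (ψ z : ℂ) * gr φ z := by
  funext z
  have d1 : DifferentiableAt ℝ φ z := (hφ.differentiable (by simp)) z
  have d2 : DifferentiableAt ℝ ψ z := (hψ.differentiable (by simp)) z
  have e : fderiv ℝ (fun z => φ z * ψ z) z = φ z • fderiv ℝ ψ z + ψ z • fderiv ℝ φ z :=
    (d1.hasFDerivAt.mul d2.hasFDerivAt).fderiv
  simp only [gr, e, add_apply, smul_apply, smul_eq_mul]
  push_cast
  ring

/-- convergence of integrals of products -/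
private theorem kH0_int {fn : ℕ → ℂ → ℂ} {f g : ℂ → ℂ} (hfn : ∀ n, MemLp (fn n) 2 volume) (hf : MemLp f 2 volume)
    (hg : MemLp g 2 volume) (ht : Tendsto (fun n => eLpNorm (fun z => f z - fn n z) 2 volume) atTop (𝓝 0)) :
    Tendsto (fun n => ∫ z, fn n z * g z) atTop (𝓝 (∫ z, f z * g z)) := by
  refine tendsto_integral_of_L1' _ (hf.integrable_mul hg).aestronglyMeasurable ?_ ?_
  · exact Eventually.of_forall fun n => (hfn n).integrable_mul hg
  · have hb : ∀ n, eLpNorm ((fun z => fn n z * g z) - fun z => f z * g z) 1 volume ≤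
        eLpNorm (fun z => f z - fn n z) 2 volume * eLpNorm g 2 volume := by
      intro n
      have h1 := eLpNorm_le_eLpNorm_mul_eLpNorm_of_nnnorm (p := 2) (q := 2) (r := 1) (μ := (volume : Measure ℂ))
        (f := fun z => f z - fn n z) (g := g) (hf.1.sub (hfn n).1) hg.1 (fun a b => a * b) 1
        (Eventually.of_forall fun z => by simp)
      rw [ENNReal.coe_one, one_mul] at h1
      refine le_trans (le_of_eq ?_) h1
      rw [← eLpNorm_neg]
      congr 1
      funext z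
      simp only [Pi.neg_apply, Pi.sub_apply]
      ring
    have h0 : Tendsto (fun n => eLpNorm (fun z => f z - fn n z) 2 volume * eLpNorm g 2 volume) atTop (𝓝 0) := by
      have := ENNReal.Tendsto.mul_const ht (Or.inr hg.2.ne : (0 : ℝ≥0∞) ≠ 0 ∨ eLpNorm g 2 volume ≠ ⊤)
      simpa using this
    exact tendsto_of_tendsto_of_tendsto_of_le_of_le tendsto_const_nhds h0 (fun n => bot_le) hb

private theorem kH0_seq {Ω : Set ℂ} {u : ℂ → ℝ} {U : ℂ → ℂ} (h : H0 Ω u U) : ∃ φ : ℕ → ℂ → ℝ, (∀ n, RTF Ω (φ n)) ∧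
    Tendsto (fun n => eLpNorm (fun z => u z - φ n z) 2 volume) atTop (𝓝 0) ∧
    Tendsto (fun n => eLpNorm (fun z => U z - gr (φ n) z) 2 volume) atTop (𝓝 0) := by
  have h1 := fun n : ℕ => h.app (1 / ((n : ℝ) + 1)) (by positivity)
  choose φ h2 h3 h4 using h1
  have ht : Tendsto (fun n : ℕ => ENNReal.ofReal (1 / ((n : ℝ) + 1))) atTop (𝓝 0) := by
    have := ENNReal.tendsto_ofReal (tendsto_one_div_add_atTop_nhds_zero_nat (𝕜 := ℝ))
    simpa using this
  exact ⟨φ, h2, tendsto_of_tendsto_of_tendsto_of_le_of_le tendsto_const_nhds ht (fun n => bot_le) fun n => (h3 n).le,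
    tendsto_of_tendsto_of_tendsto_of_le_of_le tendsto_const_nhds ht (fun n => bot_le) fun n => (h4 n).le⟩

/-- (7) -/
private theorem kH0_test {Ω : Set ℂ} {φ : ℂ → ℝ} (h : RTF Ω φ) : H0 Ω φ (gr φ) := by
  refine ⟨h.1.continuous.memLp_of_hasCompactSupport h.2.1,
    (kH0_gr_cont h.1).memLp_of_hasCompactSupport (kH0_gr_supp h.2.1), fun ε hε => ⟨φ, h, ?_, ?_⟩⟩
  · simpa using hε
  · simpa using hε

/-- (5) -/
private theorem kH0_closed {Ω : Set ℂ} {u : ℂ → ℝ} {U : ℂ → ℂ} {w : ℕ → ℂ → ℝ} {W : ℕ → ℂ → ℂ} (hu : MemLp u 2 volume)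
    (hU : MemLp U 2 volume) (hw : ∀ n, H0 Ω (w n) (W n))
    (h1 : Tendsto (fun n => eLpNorm (fun z => u z - w n z) 2 volume) atTop (𝓝 0))
    (h2 : Tendsto (fun n => eLpNorm (fun z => U z - W n z) 2 volume) atTop (𝓝 0)) : H0 Ω u U := by
  refine ⟨hu, hU, fun ε hε => ?_⟩
  have hε2 : (0 : ℝ≥0∞) < ENNReal.ofReal (ε / 2) := ENNReal.ofReal_pos.2 (by positivity)
  obtain ⟨n, hn1, hn2⟩ := ((h1.eventually (gt_mem_nhds hε2)).and (h2.eventually (gt_mem_nhds hε2))).exists
  obtain ⟨φ, hφ, ha, hb⟩ := (hw n).app (ε / 2) (by positivity)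
  have hadd : ENNReal.ofReal ε = ENNReal.ofReal (ε / 2) + ENNReal.ofReal (ε / 2) := by
    rw [← ENNReal.ofReal_add (by positivity) (by positivity)]
    congr 1; ring
  have hT := kH0_test hφ
  refine ⟨φ, hφ, ?_, ?_⟩
  · have e : (fun z => u z - φ z) = (fun z => u z - w n z) + fun z => w n z - φ z := by
      funext z; simp only [Pi.add_apply]; ring
    rw [e, hadd]
    exact (eLpNorm_add_le (hu.1.sub (hw n).mu.1) ((hw n).mu.1.sub hT.mu.1) (by norm_num)).trans_lt
      (ENNReal.add_lt_add hn1 ha)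
  · have e : (fun z => U z - gr φ z) = (fun z => U z - W n z) + fun z => W n z - gr φ z := by
      funext z; simp only [Pi.add_apply]; ring
    rw [e, hadd]
    exact (eLpNorm_add_le (hU.1.sub (hw n).mU.1) ((hw n).mU.1.sub hT.mU.1) (by norm_num)).trans_lt
      (ENNReal.add_lt_add hn2 hb)

private theorem kH0_sum_tendsto {a b : ℕ → ℝ≥0∞} (M : ℝ≥0∞) (hM : M ≠ ⊤) (ha : Tendsto a atTop (𝓝 0)) (hb : Tendsto b atTop (𝓝 0)) :
    Tendsto (fun n => a n + M * b n) atTop (𝓝 0) := by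
  have h1 := ENNReal.Tendsto.const_mul hb (Or.inr hM : (0 : ℝ≥0∞) ≠ 0 ∨ M ≠ ⊤)
  have := ha.add h1
  simpa using this

/-- a bounded multiple -/
private theorem kH0_bmul {E : Type} [NormedAddCommGroup E] (M : ℝ) (hM : 0 ≤ M) (f : ℂ → E) (g : ℂ → ℂ)
    (h : ∀ z, ‖g z‖ ≤ M * ‖f z‖) : eLpNorm g 2 volume ≤ ENNReal.ofReal M * eLpNorm f 2 volume := by
  have := eLpNorm_le_nnreal_smul_eLpNorm_of_ae_le_mul (c := M.toNNReal) (f := g) (g := f) (μ := (volume : Measure ℂ))
    (Eventually.of_forall fun z => ?_) 2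
  · rw [ENNReal.smul_def, smul_eq_mul] at this
    exact this
  · rw [← NNReal.coe_le_coe]
    simpa [hM] using h z

private theorem kH0_add_le {E : Type} [NormedAddCommGroup E] (f g : ℂ → E) (hf : AEStronglyMeasurable f volume)
    (hg : AEStronglyMeasurable g volume) (h : ℂ → E) (he : ∀ z, h z = f z + g z) :
    eLpNorm h 2 volume ≤ eLpNorm f 2 volume + eLpNorm g 2 volume := by
  have e : h = f + g := by
    funext z; exact he z
  rw [e]
  exact eLpNorm_add_le hf hg (by norm_num)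

/-- (1) -/
private theorem kH0_wg {Ω : Set ℂ} (h1 : S_bridge) {u : ℂ → ℝ} {U : ℂ → ℂ} (h : H0 Ω u U) : WG univ u U := by
  have huC : MemLp (fun z => (u z : ℂ)) 2 volume := h.mu.ofReal
  refine ⟨fun K _ _ => huC.restrict K, fun K _ _ => h.mU.restrict K, fun φ hφ => ?_⟩
  obtain ⟨w, hw, ha, hb⟩ := kH0_seq h
  have hφC : MemLp (fun z => (φ z : ℂ)) 2 volume := (kH0_test hφ).mu.ofReal
  have hgφ : MemLp (gr φ) 2 volume := (kH0_test hφ).mU
  have t1 : Tendsto (fun n => ∫ z, ((w n z : ℝ) : ℂ) * gr φ z) atTop (𝓝 (∫ z, (u z : ℂ) * gr φ z)) := by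
    refine kH0_int (fun n => (kH0_test (hw n)).mu.ofReal) huC hgφ ?_
    refine ha.congr fun n => ?_
    refine eLpNorm_congr_norm_ae (Eventually.of_forall fun z => ?_)
    rw [← Complex.ofReal_sub, Complex.norm_real]
  have t2 : Tendsto (fun n => ∫ z, gr (w n) z * (φ z : ℂ)) atTop (𝓝 (∫ z, U z * (φ z : ℂ))) :=
    kH0_int (fun n => (kH0_test (hw n)).mU) h.mU hφC hb
  have e : ∀ n, ∫ z, ((w n z : ℝ) : ℂ) * gr φ z = - ∫ z, gr (w n) z * (φ z : ℂ) := fun n =>
    (h1.2.2.1 univ (w n) isOpen_univ ((hw n).1.of_le (by simp)).contDiffOn).h φ hφ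
  simp only [e] at t1
  exact tendsto_nhds_unique t1 t2.neg

private theorem kH0_off_aux {E : Type} [NormedAddCommGroup E] {Ω : Set ℂ} (hΩ : IsOpen Ω) {f : ℂ → E} (hf : MemLp f 2 volume)
    (h : ∀ ε : ℝ, 0 < ε → ∃ g : ℂ → E, (∀ z, z ∉ Ω → g z = 0) ∧ eLpNorm (fun z => f z - g z) 2 volume < ENNReal.ofReal ε) :
    ∀ᵐ z, z ∉ Ω → f z = 0 := by
  have h0 : eLpNorm f 2 (volume.restrict Ωᶜ) = 0 := by
    refine le_antisymm ?_ bot_le
    refine ENNReal.le_of_forall_pos_le_add fun ε hε _ => ?_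
    obtain ⟨g, hg, hlt⟩ := h ε (by exact_mod_cast hε)
    rw [zero_add]
    have e : eLpNorm f 2 (volume.restrict Ωᶜ) = eLpNorm (fun z => f z - g z) 2 (volume.restrict Ωᶜ) := by
      refine eLpNorm_congr_ae ?_
      refine (ae_restrict_iff' hΩ.measurableSet.compl).2 (Eventually.of_forall fun z hz => ?_)
      simp only
      rw [hg z hz, sub_zero]
    rw [e]
    refine (eLpNorm_mono_measure _ Measure.restrict_le_self).trans (hlt.le.trans ?_)
    rw [ENNReal.ofReal_coe_nnreal]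
  rw [eLpNorm_eq_zero_iff hf.1.restrict (by norm_num)] at h0
  have := (ae_restrict_iff' hΩ.measurableSet.compl).1 h0
  exact this

theorem piece_kH0 (h1 : S_bridge) : S_kH0 := by
  intro Ω hΩ
  refine ⟨fun u U h => ⟨kH0_wg h1 h, ?_⟩, fun u v U W s hu hv => ?_, fun u η U M h hη hM => ?_,
    fun u v U W h ha hb => ?_, fun u U w W hu hU hw ha hb => kH0_closed hu hU hw ha hb, fun Ω' u U hs h => ?_,
    fun φ hφ => kH0_test hφ⟩
  · -- (1) second part
    have e1 : ∀ᵐ z, z ∉ Ω → u z = 0 := by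
      refine kH0_off_aux hΩ h.mu fun ε hε => ?_
      obtain ⟨φ, hφ, ha, -⟩ := h.app ε hε
      refine ⟨φ, fun z hz => ?_, ha⟩
      by_contra hne
      exact hz (hφ.2.2 (subset_tsupport _ hne))
    have e2 : ∀ᵐ z, z ∉ Ω → U z = 0 := by
      refine kH0_off_aux hΩ h.mU fun ε hε => ?_
      obtain ⟨φ, hφ, -, hb⟩ := h.app ε hε
      exact ⟨gr φ, fun z hz => kH0_gr_zero fun hz' => hz (hφ.2.2 hz'), hb⟩
    filter_upwards [e1, e2] with z h3 h4 hz
    exact ⟨h3 hz, h4 hz⟩
  · -- (2)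
    obtain ⟨φ, hφ, ha, hb⟩ := kH0_seq hu
    obtain ⟨ψ, hψ, hc, hd⟩ := kH0_seq hv
    have hT : ∀ n, RTF Ω (fun z => φ n z + s * ψ n z) := by
      intro n
      refine ⟨(hφ n).1.add (contDiff_const.mul (hψ n).1), (hφ n).2.1.add (hψ n).2.1.mul_left, ?_⟩
      refine (tsupport_add (φ n) (fun z => s * ψ n z)).trans (union_subset (hφ n).2.2 ?_)
      exact (tsupport_mul_subset_right (f := fun _ => s) (g := ψ n)).trans (hψ n).2.2
    have hsC : ‖(s : ℂ)‖ = |s| := by rw [Complex.norm_real, Real.norm_eq_abs]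
    refine kH0_closed (w := fun n z => φ n z + s * ψ n z) (W := fun n => gr (fun z => φ n z + s * ψ n z))
      (hu.mu.add (hv.mu.const_mul s)) (hu.mU.add (hv.mU.const_mul (s : ℂ))) (fun n => kH0_test (hT n)) ?_ ?_
    · refine tendsto_of_tendsto_of_tendsto_of_le_of_le tendsto_const_nhds
        (kH0_sum_tendsto (ENNReal.ofReal |s|) ENNReal.ofReal_ne_top ha hc) (fun n => bot_le) fun n => ?_
      refine (kH0_add_le (fun z => u z - φ n z) (fun z => s * (v z - ψ n z)) (hu.mu.1.sub (kH0_test (hφ n)).mu.1)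
        ((hv.mu.1.sub (kH0_test (hψ n)).mu.1).const_mul s) _ (fun z => by ring)).trans (add_le_add le_rfl ?_)
      have := kH0_bmul |s| (abs_nonneg s) (fun z => v z - ψ n z) (fun z => ((s * (v z - ψ n z) : ℝ) : ℂ)) fun z => by
        rw [Complex.norm_real, norm_mul, Real.norm_eq_abs s]
      refine le_trans (le_of_eq ?_) this
      refine eLpNorm_congr_norm_ae (Eventually.of_forall fun z => ?_)
      rw [Complex.norm_real]
    · refine tendsto_of_tendsto_of_tendsto_of_le_of_le tendsto_const_nhds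
        (kH0_sum_tendsto (ENNReal.ofReal |s|) ENNReal.ofReal_ne_top hb hd) (fun n => bot_le) fun n => ?_
      refine (kH0_add_le (fun z => U z - gr (φ n) z) (fun z => (s : ℂ) * (W z - gr (ψ n) z))
        (hu.mU.1.sub (kH0_test (hφ n)).mU.1)
        ((hv.mU.1.sub (kH0_test (hψ n)).mU.1).const_mul (s : ℂ)) _ (fun z => by
          rw [kH0_gr_add s (hφ n).1 (hψ n).1]; ring)).trans (add_le_add le_rfl ?_)
      exact kH0_bmul |s| (abs_nonneg s) (fun z => W z - gr (ψ n) z) _ fun z => by rw [norm_mul, hsC]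
  · -- (3)
    have hM0 : 0 ≤ M := (abs_nonneg _).trans (hM 0).1
    obtain ⟨φ, hφ, ha, hb⟩ := kH0_seq h
    have hT : ∀ n, RTF Ω (fun z => η z * φ n z) := by
      intro n
      refine ⟨hη.mul (hφ n).1, (hφ n).2.1.mul_left, ?_⟩
      exact (tsupport_mul_subset_right (f := η) (g := φ n)).trans (hφ n).2.2
    have huC : MemLp (fun z => (u z : ℂ)) 2 volume := h.mu.ofReal
    have hηm : AEStronglyMeasurable η volume := hη.continuous.aestronglyMeasurable
    have hηCm : AEStronglyMeasurable (fun z => (η z : ℂ)) volume :=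
      (Complex.continuous_ofReal.comp hη.continuous).aestronglyMeasurable
    have hgm : AEStronglyMeasurable (gr η) volume := (kH0_gr_cont hη).aestronglyMeasurable
    have m1 : MemLp (fun z => η z * u z) 2 volume := by
      refine MemLp.of_le_mul (c := M) h.mu (hηm.mul h.mu.1) (Eventually.of_forall fun z => ?_)
      rw [norm_mul]
      exact mul_le_mul_of_nonneg_right (hM z).1 (norm_nonneg _)
    have m2 : MemLp (fun z => (η z : ℂ) * U z) 2 volume := by
      refine MemLp.of_le_mul (c := M) h.mU (hηCm.mul h.mU.1) (Eventually.of_forall fun z => ?_)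
      rw [norm_mul, Complex.norm_real]
      exact mul_le_mul_of_nonneg_right (hM z).1 (norm_nonneg _)
    have m3 : MemLp (fun z => (u z : ℂ) * gr η z) 2 volume := by
      refine MemLp.of_le_mul (c := M) huC (huC.1.mul hgm) (Eventually.of_forall fun z => ?_)
      rw [norm_mul, mul_comm]
      exact mul_le_mul_of_nonneg_right (hM z).2 (norm_nonneg _)
    refine kH0_closed (w := fun n z => η z * φ n z) (W := fun n => gr (fun z => η z * φ n z))
      m1 (m2.add m3) (fun n => kH0_test (hT n)) ?_ ?_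
    · refine tendsto_of_tendsto_of_tendsto_of_le_of_le tendsto_const_nhds
        (kH0_sum_tendsto (ENNReal.ofReal M) ENNReal.ofReal_ne_top tendsto_const_nhds ha) (fun n => bot_le) fun n => ?_
      rw [zero_add]
      have := kH0_bmul M hM0 (fun z => u z - φ n z) (fun z => ((η z * u z - η z * φ n z : ℝ) : ℂ)) fun z => by
        rw [Complex.norm_real, ← mul_sub, norm_mul]
        exact mul_le_mul_of_nonneg_right (hM z).1 (norm_nonneg _)
      refine le_trans (le_of_eq ?_) this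
      refine eLpNorm_congr_norm_ae (Eventually.of_forall fun z => ?_)
      rw [Complex.norm_real]
    · have hb' : Tendsto (fun n => ENNReal.ofReal M * eLpNorm (fun z => U z - gr (φ n) z) 2 volume) atTop (𝓝 0) := by
        have := kH0_sum_tendsto (ENNReal.ofReal M) ENNReal.ofReal_ne_top tendsto_const_nhds hb
        simpa using this
      refine tendsto_of_tendsto_of_tendsto_of_le_of_le tendsto_const_nhds
        (kH0_sum_tendsto (ENNReal.ofReal M) ENNReal.ofReal_ne_top hb' ha) (fun n => bot_le) fun n => ?_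
      have hdm : AEStronglyMeasurable (fun z => ((u z - φ n z : ℝ) : ℂ)) volume :=
        Complex.continuous_ofReal.comp_aestronglyMeasurable (h.mu.1.sub (kH0_test (hφ n)).mu.1)
      refine (kH0_add_le (fun z => (η z : ℂ) * (U z - gr (φ n) z)) (fun z => ((u z - φ n z : ℝ) : ℂ) * gr η z)
        (hηCm.mul (h.mU.1.sub (kH0_test (hφ n)).mU.1)) (hdm.mul hgm) _ (fun z => by
          rw [kH0_gr_mul hη (hφ n).1]
          push_cast
          ring)).trans (add_le_add ?_ ?_)
      · exact kH0_bmul M hM0 (fun z => U z - gr (φ n) z) _ fun z => by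
          rw [norm_mul, Complex.norm_real]
          exact mul_le_mul_of_nonneg_right (hM z).1 (norm_nonneg _)
      · exact kH0_bmul M hM0 (fun z => u z - φ n z) _ fun z => by
          rw [norm_mul, Complex.norm_real, mul_comm]
          exact mul_le_mul_of_nonneg_right (hM z).2 (norm_nonneg _)
  · -- (4)
    refine ⟨h.mu.ae_eq ha, h.mU.ae_eq hb, fun ε hε => ?_⟩
    obtain ⟨φ, hφ, hc, hd⟩ := h.app ε hε
    refine ⟨φ, hφ, ?_, ?_⟩
    · rwa [eLpNorm_congr_ae (g := fun z => u z - φ z)]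
      filter_upwards [ha] with z hz
      rw [hz]
    · rwa [eLpNorm_congr_ae (g := fun z => U z - gr φ z)]
      filter_upwards [hb] with z hz
      rw [hz]
  · -- (6)
    refine ⟨h.mu, h.mU, fun ε hε => ?_⟩
    obtain ⟨φ, hφ, hc, hd⟩ := h.app ε hε
    exact ⟨φ, ⟨hφ.1, hφ.2.1, hφ.2.2.trans hs⟩, hc, hd⟩

end

end Cal
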