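import Pool.Agent.Lib.MP_4ea4c7_an.StmH2

/-!
# MP_4ea4c7_an, stage 2, [KA4]: Poincare inequality and functions with given gradient in `Z0`
-/

open MeasureTheory Complex Metric Set Filter Topology
open scoped ComplexConjugate ENNReal NNReal

namespace Cal

open LocalCalderon

noncomputable section

private theorem kH0p_diff {U : Set ℂ} {φ : ℂ → ℝ} (h : RTF U φ) : Differentiable ℝ φ :=
  h.1.differentiable (by simp)

private theorem kH0p_gcont {φ : ℂ → ℝ} (h : ContDiff ℝ (⊤ : ℕ∞) φ) : Continuous (gr φ) := by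
  have h1 : Continuous (fun z => fderiv ℝ φ z 1) := (h.continuous_fderiv (by simp)).clm_apply continuous_const
  have h2 : Continuous (fun z => fderiv ℝ φ z I) := (h.continuous_fderiv (by simp)).clm_apply continuous_const
  exact (Complex.continuous_ofReal.comp h1).add (continuous_const.mul (Complex.continuous_ofReal.comp h2))

private theorem kH0p_gzero {φ : ℂ → ℝ} {z : ℂ} (hz : z ∉ tsupport φ) : gr φ z = 0 := by
  unfold gr
  rw [fderiv_of_notMem_tsupport (𝕜 := ℝ) hz]; simp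

private theorem kH0p_gsupp {φ : ℂ → ℝ} (h : HasCompactSupport φ) : HasCompactSupport (gr φ) :=
  HasCompactSupport.intro h (fun _ hz => kH0p_gzero hz)

private theorem kH0p_mem {U : Set ℂ} {φ : ℂ → ℝ} (h : RTF U φ) : MemLp φ 2 volume :=
  h.1.continuous.memLp_of_hasCompactSupport h.2.1

private theorem kH0p_gmem {U : Set ℂ} {φ : ℂ → ℝ} (h : RTF U φ) : MemLp (gr φ) 2 volume :=
  (kH0p_gcont h.1).memLp_of_hasCompactSupport (kH0p_gsupp h.2.1)

private theorem kH0p_gsub {φ ψ : ℂ → ℝ} (h1 : Differentiable ℝ φ) (h2 : Differentiable ℝ ψ) (z : ℂ) :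
    gr (φ - ψ) z = gr φ z - gr ψ z := by
  unfold gr
  rw [fderiv_sub (h1 z) (h2 z)]
  simp only [ContinuousLinearMap.sub_apply]
  push_cast; ring

private theorem kH0p_sub {U : Set ℂ} {φ ψ : ℂ → ℝ} (h1 : RTF U φ) (h2 : RTF U ψ) : RTF U (φ - ψ) := by
  refine ⟨h1.1.sub h2.1, h1.2.1.sub h2.2.1, ?_⟩
  exact (tsupport_sub (f := φ) (g := ψ)).trans (union_subset h1.2.2 h2.2.2)

private theorem kH0p_one (h1 : S_poin) {Ω : Set ℂ} {R : ℝ} (hR0 : 0 < R) (hR : Ω ⊆ ball 0 R)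
    (u : ℂ → ℝ) (U : ℂ → ℂ) (hu : H0 Ω u U) : eLpNorm u 2 volume ≤ ENNReal.ofReal (2 * R) * eLpNorm U 2 volume := by
  refine ENNReal.le_of_forall_pos_le_add fun ε hε _ => ?_
  set δ : ℝ := ε / (2 * R + 1) with hδ
  have hδ0 : 0 < δ := div_pos hε (by positivity)
  obtain ⟨φ, hφ, a, b⟩ := hu.app δ hδ0
  have p : eLpNorm φ 2 volume ≤ ENNReal.ofReal (2 * R) * eLpNorm (gr φ) 2 volume :=
    h1 R φ hR0 ⟨hφ.1, hφ.2.1, hφ.2.2.trans hR⟩
  have c1 : eLpNorm u 2 volume ≤ eLpNorm (fun z => u z - φ z) 2 volume + eLpNorm φ 2 volume := by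
    have e : u = (fun z => u z - φ z) + φ := by funext z; simp
    calc eLpNorm u 2 volume = eLpNorm ((fun z => u z - φ z) + φ) 2 volume := by rw [← e]
      _ ≤ _ := eLpNorm_add_le (hu.mu.1.sub (kH0p_mem hφ).1) (kH0p_mem hφ).1 (by norm_num)
  have c2 : eLpNorm (gr φ) 2 volume ≤ eLpNorm U 2 volume + eLpNorm (fun z => U z - gr φ z) 2 volume := by
    have e : gr φ = U - (fun z => U z - gr φ z) := by funext z; simp
    calc eLpNorm (gr φ) 2 volume = eLpNorm (U - (fun z => U z - gr φ z)) 2 volume := by rw [← e]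
      _ ≤ _ := eLpNorm_sub_le hu.mU.1 (hu.mU.1.sub (kH0p_gmem hφ).1) (by norm_num)
  calc eLpNorm u 2 volume ≤ ENNReal.ofReal δ + ENNReal.ofReal (2 * R) * (eLpNorm U 2 volume + ENNReal.ofReal δ) :=
        c1.trans (add_le_add a.le (p.trans (mul_le_mul' le_rfl (c2.trans (add_le_add le_rfl b.le)))))
    _ = ENNReal.ofReal (2 * R) * eLpNorm U 2 volume + ENNReal.ofReal ((2 * R + 1) * δ) := by
        rw [mul_add, ← ENNReal.ofReal_mul (by positivity), add_mul, one_mul, ENNReal.ofReal_add (by positivity) hδ0.le]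
        ring
    _ = ENNReal.ofReal (2 * R) * eLpNorm U 2 volume + ε := by
        have : (2 * R + 1) * δ = (ε : ℝ) := by
          rw [hδ]; field_simp
        rw [this, ENNReal.ofReal_coe_nnreal]

private theorem kH0p_two (h1 : S_poin) {Ω : Set ℂ} (hΩ : IsOpen Ω) {R : ℝ} (hR0 : 0 < R) (hR : Ω ⊆ ball 0 R)
    (G : ℂ → ℂ) (hG : Z0 Ω G) : ∃ u : ℂ → ℝ, H0 Ω u (Ω.indicator G) := by
  have mG : MemLp (Ω.indicator G) 2 volume := (memLp_indicator_iff_restrict hΩ.measurableSet).mpr hG.1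
  have hch : ∀ n : ℕ, ∃ φ : ℂ → ℝ, RTF Ω φ ∧ eLpNorm (fun z => G z - gr φ z) 2 (volume.restrict Ω) < ENNReal.ofReal ((1 / 2) ^ n) :=
    fun n => hG.2 _ (by positivity)
  choose φ hφ hφG using hch
  have hφG' : ∀ n, eLpNorm (fun z => Ω.indicator G z - gr (φ n) z) 2 volume ≤ ENNReal.ofReal ((1 / 2) ^ n) := by
    intro n
    have e : (fun z => Ω.indicator G z - gr (φ n) z) = Ω.indicator (fun z => G z - gr (φ n) z) := by
      funext z
      by_cases hz : z ∈ Ω
      · rw [indicator_of_mem hz, indicator_of_mem hz]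
      · rw [indicator_of_notMem hz, indicator_of_notMem hz, kH0p_gzero (fun h => hz ((hφ n).2.2 h)), sub_zero]
    rw [e, eLpNorm_indicator_eq_eLpNorm_restrict hΩ.measurableSet]
    exact (hφG n).le
  have hdist : ∀ n m, eLpNorm (φ n - φ m) 2 volume ≤
      ENNReal.ofReal (2 * R) * (ENNReal.ofReal ((1 / 2) ^ n) + ENNReal.ofReal ((1 / 2) ^ m)) := by
    intro n m
    have ht := kH0p_sub (hφ n) (hφ m)
    have p : eLpNorm (φ n - φ m) 2 volume ≤ ENNReal.ofReal (2 * R) * eLpNorm (gr (φ n - φ m)) 2 volume :=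
      h1 R _ hR0 ⟨ht.1, ht.2.1, ht.2.2.trans hR⟩
    refine p.trans (mul_le_mul' le_rfl ?_)
    have e2 : gr (φ n - φ m) = (fun z => Ω.indicator G z - gr (φ m) z) - (fun z => Ω.indicator G z - gr (φ n) z) := by
      funext z
      rw [kH0p_gsub (kH0p_diff (hφ n)) (kH0p_diff (hφ m))]
      simp only [Pi.sub_apply]; ring
    rw [e2]
    refine (eLpNorm_sub_le (mG.1.sub (kH0p_gmem (hφ m)).1) (mG.1.sub (kH0p_gmem (hφ n)).1) (by norm_num)).trans ?_
    rw [add_comm]
    exact add_le_add (hφG' n) (hφG' m)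
  obtain ⟨w, hw, hlim⟩ := Lp.cauchy_complete_eLpNorm (p := 2) (μ := (volume : Measure ℂ)) (f := φ) (by norm_num)
    (fun n => kH0p_mem (hφ n)) (B := fun N => ENNReal.ofReal ((4 * R + 1) * (1 / 2) ^ N)) (by
      have hs : Summable (fun N : ℕ => (4 * R + 1) * (1 / 2 : ℝ) ^ N) :=
        (summable_geometric_of_lt_one (by norm_num) (by norm_num)).mul_left _
      rw [← ENNReal.ofReal_tsum_of_nonneg (fun N => by positivity) hs]
      exact ENNReal.ofReal_ne_top) (by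
      intro N n m hn hm
      refine lt_of_le_of_lt (hdist n m) ?_
      rw [← ENNReal.ofReal_add (by positivity) (by positivity), ← ENNReal.ofReal_mul (by positivity)]
      refine (ENNReal.ofReal_lt_ofReal_iff (by positivity)).mpr ?_
      have a1 : (1 / 2 : ℝ) ^ n ≤ (1 / 2) ^ N := pow_le_pow_of_le_one (by norm_num) (by norm_num) hn
      have a2 : (1 / 2 : ℝ) ^ m ≤ (1 / 2) ^ N := pow_le_pow_of_le_one (by norm_num) (by norm_num) hm
      have a3 : (0 : ℝ) < (1 / 2) ^ N := by positivity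
      nlinarith)
  refine ⟨w, hw, mG, fun ε hε => ?_⟩
  have l1 : ∀ᶠ n in atTop, eLpNorm (φ n - w) 2 volume < ENNReal.ofReal ε :=
    hlim.eventually_lt_const (by simpa using hε)
  have l2 : ∀ᶠ n : ℕ in atTop, ((1 / 2 : ℝ)) ^ n < ε :=
    (tendsto_pow_atTop_nhds_zero_of_lt_one (by norm_num) (by norm_num)).eventually_lt_const hε
  obtain ⟨n, hn1, hn2⟩ := (l1.and l2).exists
  refine ⟨φ n, hφ n, ?_, (hφG' n).trans_lt ((ENNReal.ofReal_lt_ofReal_iff hε).mpr hn2)⟩
  have : (fun z => w z - φ n z) = w - φ n := rfl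
  rw [this, eLpNorm_sub_comm]
  exact hn1

theorem piece_kH0p (h1 : S_poin) (_h2 : S_bridge) : S_kH0p := by
  intro Ω R hΩ hR0 hR
  exact ⟨fun u U hu => kH0p_one h1 hR0 hR u U hu, fun G hG => kH0p_two h1 hΩ hR0 hR G hG⟩

end

end Cal
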