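import Pool.Agent.Lib.MP_4ea4c7_an.StmH2

/-!
# MP_4ea4c7_an, stage 2, piece [KC6]: the energy vanishes where `F` is small
-/

open MeasureTheory Complex Metric Set Filter Topology
open scoped ComplexConjugate ENNReal NNReal

namespace Cal

noncomputable section

private theorem kJ0_gr (χ : ℂ → ℝ) (z : ℂ) :
    gr (fun w => 1 - χ w) z = - gr χ z := by
  have e : fderiv ℝ (fun w => 1 - χ w) z = - fderiv ℝ χ z := fderiv_const_sub (1 : ℝ)
  unfold gr
  rw [e]
  simp only [_root_.neg_apply, ofReal_neg]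
  ring

private theorem kJ0_cr0 (S : ℂ) : cr 0 S = 0 := by
  simp [cr]

theorem piece_kJ0 (h1 : S_kgeo) (h2 : S_k32) (h3 : S_kFt) (h4 : S_bdeg) (h5 : S_kClE) (h6 : S_smooth)
    (h7 : S_wuniq) (h8 : S_basic) : S_kJ0 := by
  intro G k0 μ κ F A B k c R e0 ψ hA hW hD hc hR hw he0 hψ hψ0
  obtain ⟨-, F', hF's, hF'F, hF'l⟩ := h3 F k c R e0 hR hc hD.hol hw he0
  obtain ⟨χ, hχ⟩ := h1.1 (R + 1 / 4) (R + 3 / 4) (by linarith) (by linarith)
  obtain ⟨-, -, -, hae, -, -, -⟩ := h5 G k0 μ κ F A B hA hW hD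
  set η : ℂ → ℝ := fun z => 1 - χ z with hηd
  have hηs : ContDiff ℝ (⊤ : ℕ∞) η := contDiff_const.sub hχ.smooth
  have hηsupp : Function.support η ⊆ closedBall 0 (R + 3 / 4) := by
    intro z hz
    rw [mem_closedBall, dist_zero_right]
    by_contra hn
    push Not at hn
    apply hz
    rw [hηd]
    simp only []
    rw [hχ.one z hn.le]
    ring
  have hηc : HasCompactSupport η :=
    HasCompactSupport.of_support_subset_isCompact (isCompact_closedBall 0 (R + 3 / 4)) hηsupp
  have hη : RTF univ η := ⟨hηs, hηc, subset_univ _⟩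
  have hψu : RTF univ ψ := ⟨hψ.1, hψ.2.1, subset_univ _⟩
  have hηg : ∀ z : ℂ, ‖z‖ ≤ R + 1 / 4 → gr η z = 0 := by
    intro z hz
    rw [hηd, kJ0_gr, hχ.gz z hz, neg_zero]
  obtain ⟨r1, r2, r3⟩ := h2 G k0 μ κ F A B ψ η hA hW hD hψu hη
  have hF'c1 : ContDiff ℝ 1 F' := hF's.of_le (by exact_mod_cast le_top)
  have hWD' : WD univ F' (dz F') (db F') := h6.1 univ F' isOpen_univ hF'c1.contDiffOn
  obtain ⟨s1, s2, s3⟩ := h4 univ F' (dz F') (db F') η ψ isOpen_univ hF's.continuous.continuousOn hWD'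
    hη hψu
  -- the degree integral of `F'` is zero
  have hz0 : ∫ z, η z * ψ (F' z) * (‖dz F' z‖ ^ 2 - ‖db F' z‖ ^ 2) = 0 := by
    have : (fun z => η z * ψ (F' z) * (‖dz F' z‖ ^ 2 - ‖db F' z‖ ^ 2)) = fun _ => (0 : ℝ) := by
      funext z
      by_cases hz : ‖z‖ ≤ R + 1
      · have e1 := hF'l z hz
        have e2 : ψ (F' z) = 0 := by
          by_contra hn
          have : F' z ∈ ball (0 : ℂ) e0 := hψ.2.2 (subset_tsupport ψ hn)
          rw [mem_ball, dist_zero_right] at this
          linarith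
        rw [e2]
        ring
      · push Not at hz
        have e2 : η z = 0 := by
          rw [hηd]
          simp only []
          rw [hχ.one z (by linarith)]
          ring
        rw [e2]
        ring
    rw [this]
    simp
  rw [hz0] at s3
  -- transfer to `F`
  set V : Set ℂ := {z | R + 1 / 8 < ‖z‖} with hV
  have hVo : IsOpen V := isOpen_lt continuous_const continuous_norm
  have hVG : V ⊆ G := by
    intro z hz
    apply hA.ext
    have : R + 1 / 8 < ‖z‖ := hz
    linarith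
  have hWV : WD V F A B := h8.2.2.2.2.1 G V F A B hVG hD.wd
  have hWV' : WD V F' (dz F') (db F') := h8.2.2.2.2.1 univ V _ _ _ (subset_univ _) hWD'
  have hFe : F =ᵐ[volume.restrict V] F' := by
    filter_upwards [ae_restrict_mem hVo.measurableSet] with z hz
    exact (hF'F z (le_of_lt hz)).symm
  obtain ⟨ha, hb⟩ := h7 V F A B F' (dz F') (db F') hVo hWV hWV' hFe
  have ha' := (ae_restrict_iff' hVo.measurableSet).mp ha
  have hb' := (ae_restrict_iff' hVo.measurableSet).mp hb
  have hofV : ∀ z, z ∉ V → gr η z = 0 := by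
    intro z hz
    apply hηg
    have : ¬ (R + 1 / 8 < ‖z‖) := hz
    push Not at this
    linarith
  have ht : ∫ z in G, PP ψ (F z) * cr (gr η z) (I * (conj (A z) - B z)) =
      ∫ z, PP ψ (F' z) * cr (gr η z) (I * (conj (dz F' z) - db F' z)) := by
    rw [setIntegral_eq_integral_of_forall_compl_eq_zero]
    · refine integral_congr_ae ?_
      filter_upwards [ha', hb'] with z ha2 hb2
      by_cases hz : z ∈ V
      · rw [ha2 hz, hb2 hz, hF'F z (le_of_lt hz)]
      · rw [hofV z hz, kJ0_cr0, kJ0_cr0]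
        simp
    · intro z hz
      rw [hofV z (fun h => hz (hVG h)), kJ0_cr0, mul_zero]
  rw [ht] at r3
  have hzero : ∫ z in G, η z * ψ (F z) * (‖A z‖ ^ 2 - ‖B z‖ ^ 2) = 0 := by
    rw [r3]
    linarith
  have hη0 : ∀ z, 0 ≤ η z := by
    intro z
    rw [hηd]
    simp only []
    linarith [(hχ.bd z).2]
  have hnn : 0 ≤ᵐ[volume.restrict G] fun z => η z * ψ (F z) * (‖A z‖ ^ 2 - ‖B z‖ ^ 2) := by
    filter_upwards [hae] with z hz
    obtain ⟨-, e2, e3⟩ := hz
    simp only [Pi.zero_apply]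
    rw [e2]
    have := hη0 z
    have := hψ0 (F z)
    positivity
  have hz1 := (setIntegral_eq_zero_iff_of_nonneg_ae hnn r1).mp hzero
  have hGm : MeasurableSet G := hA.oG.measurableSet
  have hsub : ae (volume.restrict (G ∩ ball 0 (R + 1 / 4))) ≤ ae (volume.restrict G) :=
    ae_mono (Measure.restrict_mono inter_subset_left le_rfl)
  filter_upwards [hsub hz1, hsub hae, hsub hD.eq,
    ae_restrict_mem (hGm.inter measurableSet_ball)] with z e1 e2 e3 e4 e5
  have hηz : η z = 1 := by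
    rw [hηd]
    simp only []
    have : ‖z‖ < R + 1 / 4 := by
      have := e4.2
      rwa [mem_ball, dist_zero_right] at this
    rw [hχ.zero z this.le]
    ring
  simp only [Pi.zero_apply] at e1
  rw [hηz, one_mul] at e1
  obtain ⟨-, f2, f3⟩ := e2
  have e6 : ‖A z‖ ^ 2 - ‖B z‖ ^ 2 = 0 := by
    rcases mul_eq_zero.mp e1 with h | h
    · exact absurd h e5
    · exact h
  rw [f2] at e6
  have e7 : ‖A z‖ ^ 2 = 0 := by
    rcases mul_eq_zero.mp e6 with h | h
    · exact absurd h (ne_of_gt f3)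
    · exact h
  have e8 : A z = 0 := by
    have := pow_eq_zero_iff (n := 2) (by norm_num) |>.mp e7
    exact norm_eq_zero.mp this
  refine ⟨e8, ?_⟩
  rw [e3, e8]
  simp

end

end Cal
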