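import Pool.Agent.Lib.MP_4ea4c7_an.StmH2

/-! Piece KB9: the properties of the weight `κ`. -/

open MeasureTheory Complex Metric Set Filter Topology
open scoped ComplexConjugate ENNReal NNReal

namespace Cal

private theorem kKP_gr_zero {φ : ℂ → ℝ} {z : ℂ} (hz : z ∉ tsupport φ) : gr φ z = 0 := by
  have h : φ =ᶠ[𝓝 z] fun _ => (0 : ℝ) := notMem_tsupport_iff_eventuallyEq.1 hz
  have h' : fderiv ℝ φ z = 0 := by
    rw [h.fderiv_eq]; simp
  simp [gr, h']

private theorem kKP_gr_cont {φ : ℂ → ℝ} (h : ContDiff ℝ (⊤ : ℕ∞) φ) : Continuous (gr φ) := by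
  have h1 : Continuous (fderiv ℝ φ) := h.continuous_fderiv (by simp)
  have h2 : ∀ w : ℂ, Continuous (fun z => ((fderiv ℝ φ z w : ℝ) : ℂ)) := fun w =>
    Complex.continuous_ofReal.comp (h1.clm_apply continuous_const)
  unfold gr
  exact (h2 1).add (continuous_const.mul (h2 I))

private theorem kKP_gr_sub {φ : ℂ → ℝ} (z : ℂ) : gr (fun w => 1 - φ w) z = - gr φ z := by
  unfold gr
  rw [fderiv_const_sub]
  simp
  ring

private theorem kKP_memLp {f : ℂ → ℂ} (hf : Continuous f) (r : ℝ) (h : ∀ z : ℂ, r ≤ ‖z‖ → f z = 0) :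
    MemLp f 2 volume := by
  apply hf.memLp_of_hasCompactSupport
  apply HasCompactSupport.intro (isCompact_closedBall (0 : ℂ) r)
  intro z hz
  apply h
  simp at hz
  exact hz.le

private theorem kKP_bd {f : ℂ → ℂ} (hf : Continuous f) (r : ℝ) (h : ∀ z : ℂ, r ≤ ‖z‖ → f z = 0) :
    ∃ M : ℝ, 0 ≤ M ∧ ∀ z, ‖f z‖ ≤ M := by
  obtain ⟨M, hM⟩ := (isCompact_closedBall (0 : ℂ) r).exists_bound_of_continuousOn hf.continuousOn
  refine ⟨max M 0, le_max_right _ _, ?_⟩
  intro z
  by_cases hz : r ≤ ‖z‖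
  · rw [h z hz]; simp
  · exact (hM z (by simp; linarith)).trans (le_max_left _ _)

theorem piece_kKP (h1 : S_kH0) (h2 : S_kcalc) : S_kKP := by
  intro Ω G γ χ χ₂ v V k hp hχ hχ₂ hk hcut
  set O : Set ℂ := G ∩ ball 0 (7 / 8) with hO
  have oO : IsOpen O := hp.oG.inter isOpen_ball
  have hH0 : H0 O v V := hk.kh.h0
  obtain ⟨wgv, hv0⟩ := (h1 O oO).1 v V hH0
  -- values of the cutoffs
  have c1 : ∀ z : ℂ, ‖z‖ ≤ 5 / 8 → χ z = 0 ∧ χ₂ z = 0 ∧ gr χ z = 0 ∧ gr χ₂ z = 0 := by
    intro z hz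
    exact ⟨hχ.zero z (by linarith), hχ₂.zero z hz, hχ.gz z (by linarith), hχ₂.gz z hz⟩
  have c2 : ∀ z : ℂ, 3 / 4 ≤ ‖z‖ → z ∈ G ∧ χ₂ z = 1 ∧ kap G χ₂ k z = 1 := by
    intro z hz
    have hG : z ∈ G := hp.ext z (by linarith)
    have hx : χ₂ z = 1 := hχ₂.one z hz
    refine ⟨hG, hx, ?_⟩
    simp [kap, hG, hx]
  have c3 : ∀ z : ℂ, z ∉ G → ‖z‖ < 1 / 2 := by
    intro z hz
    by_contra h
    exact hz (hp.ext z (not_lt.1 h))
  -- a.e. formula for κ
  have hae : ∀ᵐ z : ℂ, z ∈ O → χ z + v z = k z :=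
    (ae_restrict_iff' oO.measurableSet).1 hk.ae
  have key : ∀ᵐ z : ℂ, (1 - χ₂ z) * (χ z + v z) + χ₂ z = kap G χ₂ k z := by
    filter_upwards [hae, hv0] with z hz hz0
    by_cases hzO : z ∈ O
    · rw [hz hzO]
      simp [kap, hzO.1]
    · obtain ⟨hv, -⟩ := hz0 hzO
      by_cases hzG : z ∈ G
      · have h78 : 7 / 8 ≤ ‖z‖ := by
          by_contra h
          exact hzO ⟨hzG, by simpa using h⟩
        obtain ⟨-, hx, hkp⟩ := c2 z (by linarith)
        rw [hkp, hx]; ring
      · obtain ⟨ha, hb, -, -⟩ := c1 z (by linarith [c3 z hzG])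
        rw [ha, hb, hv]
        simp [kap, hzG]
  -- pointwise bounds
  have hpos : ∀ z ∈ G, 0 < kap G χ₂ k z ∧ kap G χ₂ k z ≤ 1 := by
    intro z hz
    by_cases hzO : z ∈ O
    · have hk0 := hk.pos z hzO
      have hk1 := hk.le z hzO
      obtain ⟨hx0, hx1⟩ := hχ₂.bd z
      have : kap G χ₂ k z = (1 - χ₂ z) * k z + χ₂ z := by simp [kap, hz]
      rw [this]
      constructor
      · have : 0 ≤ χ₂ z * (1 - k z) := mul_nonneg hx0 (by linarith)
        nlinarith
      · have : 0 ≤ (1 - χ₂ z) * (1 - k z) := mul_nonneg (by linarith) (by linarith)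
        nlinarith
    · have h78 : 7 / 8 ≤ ‖z‖ := by
        by_contra h
        exact hzO ⟨hz, by simpa using h⟩
      rw [(c2 z (by linarith)).2.2]
      norm_num
  have hoff : ∀ z, z ∉ G → kap G χ₂ k z = 0 := by
    intro z hz
    simp [kap, hz]
  have hcont : ContinuousOn (kap G χ₂ k) G := by
    intro z hz
    apply ContinuousAt.continuousWithinAt
    by_cases hz7 : ‖z‖ < 7 / 8
    · have hzO : z ∈ O := ⟨hz, by simpa using hz7⟩
      have hkc : ContinuousAt k z := (hk.cont).continuousAt (oO.mem_nhds hzO)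
      have hxc : ContinuousAt χ₂ z := hχ₂.smooth.continuous.continuousAt
      have : ContinuousAt (fun z => (1 - χ₂ z) * k z + χ₂ z) z :=
        ((continuousAt_const.sub hxc).mul hkc).add hxc
      apply this.congr
      filter_upwards [hp.oG.mem_nhds hz] with w hw
      simp [kap, hw]
    · have : ContinuousAt (fun _ : ℂ => (1 : ℝ)) z := continuousAt_const
      apply this.congr
      have hopen : IsOpen {w : ℂ | 3 / 4 < ‖w‖} := isOpen_lt continuous_const continuous_norm
      have hzm : z ∈ {w : ℂ | 3 / 4 < ‖w‖} := by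
        simp only [mem_setOf_eq]
        linarith [not_lt.1 hz7]
      filter_upwards [hopen.mem_nhds hzm] with w hw
      exact ((c2 w (le_of_lt hw)).2.2).symm
  have hmeas : Measurable (kap G χ₂ k) := by
    classical
    have hpw : G.piecewise (kap G χ₂ k) (fun _ => 0) = kap G χ₂ k := by
      funext z
      by_cases hz : z ∈ G
      · simp [hz]
      · simp [hz, hoff z hz]
    rw [← hpw]
    exact hcont.measurable_piecewise continuousOn_const hp.oG.measurableSet
  -- weak gradient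
  obtain ⟨k1, k2, -, -, -, k6, k7, -, -⟩ := h2 univ isOpen_univ
  have wχ : WG univ χ (gr χ) := k7 χ (hχ.smooth.of_le (by simp)).contDiffOn
  have wχ₂ : WG univ χ₂ (gr χ₂) := k7 χ₂ (hχ₂.smooth.of_le (by simp)).contDiffOn
  have w1 : WG univ (fun z => χ z + 1 * v z) (fun z => gr χ z + ((1 : ℝ) : ℂ) * V z) :=
    k1 χ v (gr χ) V 1 wχ wgv
  have w2 := k6 (fun z => χ z + 1 * v z) (fun z => 1 - χ₂ z) (fun z => gr χ z + ((1 : ℝ) : ℂ) * V z) w1
    (contDiff_const.sub hχ₂.smooth).contDiffOn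
  have w3 := k1 _ χ₂ _ (gr χ₂) 1 w2 wχ₂
  have hKg : ∀ z, kapG χ χ₂ v V z = ((1 - χ₂ z : ℝ) : ℂ) * (gr χ z + ((1 : ℝ) : ℂ) * V z) +
      ((χ z + 1 * v z : ℝ) : ℂ) * gr (fun z => 1 - χ₂ z) z + ((1 : ℝ) : ℂ) * gr χ₂ z := by
    intro z
    rw [kKP_gr_sub]
    unfold kapG
    push_cast
    ring
  have wg : WG univ (kap G χ₂ k) (kapG χ χ₂ v V) := by
    apply k2 _ _ _ _ w3
    · rw [Measure.restrict_univ]
      filter_upwards [key] with z hz
      rw [← hz]; ring
    · rw [Measure.restrict_univ]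
      filter_upwards with z
      rw [hKg z]
  -- L2
  have hl2 : MemLp (kapG χ χ₂ v V) 2 volume := by
    have gc : Continuous (gr χ) := kKP_gr_cont hχ.smooth
    have gc₂ : Continuous (gr χ₂) := kKP_gr_cont hχ₂.smooth
    have a1 : MemLp (fun z => ((1 - χ₂ z : ℝ) : ℂ) * gr χ z) 2 volume := by
      apply kKP_memLp ((Complex.continuous_ofReal.comp (continuous_const.sub hχ₂.smooth.continuous)).mul gc) (13 / 16)
      intro z hz
      show ((1 - χ₂ z : ℝ) : ℂ) * gr χ z = 0
      rw [hχ.go z hz, mul_zero]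
    have a2 : MemLp (fun z => ((1 - χ₂ z : ℝ) : ℂ) * V z) 2 volume := by
      apply MemLp.mono hH0.mU
      · exact (Complex.continuous_ofReal.comp (continuous_const.sub hχ₂.smooth.continuous)).aestronglyMeasurable.mul
          hH0.mU.aestronglyMeasurable
      · filter_upwards with z
        rw [norm_mul, Complex.norm_real, Real.norm_eq_abs]
        have : |1 - χ₂ z| ≤ 1 := by
          obtain ⟨hx0, hx1⟩ := hχ₂.bd z
          rw [abs_le]; constructor <;> linarith
        calc |1 - χ₂ z| * ‖V z‖ ≤ 1 * ‖V z‖ := by gcongr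
          _ = ‖V z‖ := one_mul _
    have a3 : MemLp (fun z => ((1 - χ z : ℝ) : ℂ) * gr χ₂ z) 2 volume := by
      apply kKP_memLp ((Complex.continuous_ofReal.comp (continuous_const.sub hχ.smooth.continuous)).mul gc₂) (3 / 4)
      intro z hz
      show ((1 - χ z : ℝ) : ℂ) * gr χ₂ z = 0
      rw [hχ₂.go z hz, mul_zero]
    have a4 : MemLp (fun z => (v z : ℂ) * gr χ₂ z) 2 volume := by
      obtain ⟨M, hM0, hM⟩ := kKP_bd gc₂ (3 / 4) hχ₂.go
      have hvm : MemLp (fun z => (v z : ℂ)) 2 volume := hH0.mu.ofReal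
      apply MemLp.of_le_mul (c := M) hvm
      · exact hvm.aestronglyMeasurable.mul gc₂.aestronglyMeasurable
      · filter_upwards with z
        rw [norm_mul, mul_comm]
        gcongr
        exact hM z
    have a5 := ((a1.add a2).add a3).sub a4
    convert a5 using 1
    funext z
    simp only [Pi.add_apply, Pi.sub_apply]
    unfold kapG
    push_cast
    ring
  -- a.e. small region
  have small : ∀ z : ℂ, ‖z‖ ≤ 5 / 8 → kapG χ χ₂ v V z = V z ∧ gr χ z + V z = V z := by
    intro z hz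
    obtain ⟨ha, hb, hc, hd⟩ := c1 z hz
    constructor
    · unfold kapG
      rw [hb, hc, hd]
      simp
    · rw [hc, zero_add]
  have hinh : InH G (5 / 8) (kap G χ₂ k) (kapG χ χ₂ v V) := by
    intro η hη
    obtain ⟨ηs, ηc, ηt⟩ := hη
    have hz0 : ∀ z : ℂ, 5 / 8 ≤ ‖z‖ → z ∉ tsupport η := by
      intro z hz h
      have := ηt h
      simp at this
      linarith
    have ge : ∀ z : ℂ, 5 / 8 ≤ ‖z‖ → gr η z = 0 := fun z hz => kKP_gr_zero (hz0 z hz)
    have ee : ∀ z : ℂ, 5 / 8 ≤ ‖z‖ → η z = 0 := fun z hz => image_eq_zero_of_notMem_tsupport (hz0 z hz)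
    obtain ⟨M1, hM10, hM1⟩ := kKP_bd (kKP_gr_cont ηs) (5 / 8) ge
    obtain ⟨M2, hM20, hM2⟩ := kKP_bd (f := fun z => (η z : ℂ)) (Complex.continuous_ofReal.comp ηs.continuous) (5 / 8)
      (fun z hz => by rw [ee z hz]; simp)
    have b1 := (h1 O oO).2.2.1 v η V (max M1 M2) hH0 ηs (fun z => ⟨by
        have := hM2 z
        rw [Complex.norm_real, Real.norm_eq_abs] at this
        exact this.trans (le_max_right _ _), (hM1 z).trans (le_max_left _ _)⟩)
    have b2 := (h1 O oO).2.2.2.2.2.1 G _ _ (inter_subset_left) b1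
    apply (h1 G hp.oG).2.2.2.1 _ _ _ _ b2
    · filter_upwards [key] with z hz
      by_cases h58 : 5 / 8 ≤ ‖z‖
      · rw [ee z h58]; simp
      · obtain ⟨ha, hb, hc, hd⟩ := c1 z (by linarith [not_le.1 h58])
        rw [← hz, ha, hb]; ring
    · filter_upwards [key] with z hz
      by_cases h58 : 5 / 8 ≤ ‖z‖
      · rw [ee z h58, ge z h58]; simp
      · obtain ⟨ha, hb, hc, hd⟩ := c1 z (by linarith [not_le.1 h58])
        rw [(small z (by linarith [not_le.1 h58])).1, ← hz, ha, hb]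
        simp
  have hsol : WSol (G ∩ ball 0 (5 / 8)) γ (kapG χ χ₂ v V) := by
    intro φ hφ
    obtain ⟨φs, φc, φt⟩ := hφ
    have hsub : G ∩ ball (0 : ℂ) (5 / 8) ⊆ G ∩ ball 0 (7 / 8) :=
      inter_subset_inter_right _ (ball_subset_ball (by norm_num))
    have := hk.kh.sol φ ⟨φs, φc, φt.trans hsub⟩
    rw [← this]
    apply integral_congr_ae
    filter_upwards with z
    by_cases h58 : 5 / 8 ≤ ‖z‖
    · have : gr φ z = 0 := by
        apply kKP_gr_zero
        intro h
        have := (φt h).2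
        simp at this
        linarith
      rw [this]; simp [ip]
    · obtain ⟨e1, e2⟩ := small z (by linarith [not_le.1 h58])
      show γ z * ip (kapG χ χ₂ v V z) (gr φ z) = γ z * ip (gr χ z + V z) (gr φ z)
      rw [e1, e2]
  exact
    { meas := hmeas
      cont := hcont
      pos := fun z hz => (hpos z hz).1
      lo := fun z => by
        by_cases hz : z ∈ G
        · exact (hpos z hz).1.le
        · rw [hoff z hz]
      hi := fun z => by
        by_cases hz : z ∈ G
        · exact (hpos z hz).2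
        · rw [hoff z hz]; norm_num
      off := hoff
      one := fun z hz => (c2 z hz).2.2
      wg := wg
      l2 := hl2
      inh := hinh
      sol := hsol
      cut := hcut }

end Cal
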