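import Pool.Agent.Lib.MP_4ea4c7_an.StmH2

/-!
# MP_4ea4c7_an, stage 2, piece kNAT: the natural boundary condition on the complement of `G`
-/

open MeasureTheory Complex Metric Set Filter Topology
open scoped ComplexConjugate ENNReal NNReal

namespace Cal

noncomputable section

lemma kNAT_aesm {G : Set ℂ} {g : ℂ → ℂ} (hG : IsOpen G) (h : L2loc G g) : AEStronglyMeasurable g (volume.restrict G) := by
  have : LocallyIntegrableOn g G volume := by
    rw [locallyIntegrableOn_iff hG.isLocallyClosed]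
    intro K hKG hK
    have : IsFiniteMeasure (volume.restrict K) := ⟨by simpa using hK.measure_lt_top⟩
    exact (h K hK hKG).integrable (by norm_num)
  exact this.aestronglyMeasurable

lemma kNAT_cr_le (a b : ℂ) : |cr a b| ≤ ‖a‖ * ‖b‖ := by
  rw [cr]
  refine (Complex.abs_im_le_norm _).trans ?_
  simp

lemma kNAT_cr_aesm {D : Set ℂ} {f g : ℂ → ℂ} (hf : AEStronglyMeasurable f (volume.restrict D)) (hg : AEStronglyMeasurable g (volume.restrict D)) :
    AEStronglyMeasurable (fun z => cr (f z) (g z)) (volume.restrict D) := by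
  have h1 : AEStronglyMeasurable (fun z => conj (f z)) (volume.restrict D) := Complex.continuous_conj.comp_aestronglyMeasurable hf
  exact Complex.continuous_im.comp_aestronglyMeasurable (h1.mul hg)

/-- Cauchy-Schwarz -/
lemma kNAT_cs {D : Set ℂ} {f : ℂ → ℂ} {g : ℂ → ℝ} (hf : MemLp f 2 (volume.restrict D)) (hg : MemLp g 2 (volume.restrict D)) :
    ∫ z in D, ‖f z‖ * ‖g z‖ ≤ (eLpNorm f 2 (volume.restrict D)).toReal * (eLpNorm g 2 (volume.restrict D)).toReal := by
  have e2 : ENNReal.ofReal 2 = 2 := by norm_num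
  have h := integral_mul_norm_le_Lp_mul_Lq (μ := volume.restrict D) (f := fun z => ‖f z‖) (g := g) (p := 2) (q := 2)
    (Real.HolderConjugate.two_two) (by rw [e2]; exact hf.norm) (by rw [e2]; exact hg)
  have k1 : (eLpNorm f 2 (volume.restrict D)).toReal = (∫ z in D, ‖‖f z‖‖ ^ (2 : ℝ)) ^ (1 / (2 : ℝ)) := by
    rw [hf.eLpNorm_eq_integral_rpow_norm (by norm_num) (by norm_num), ENNReal.toReal_ofReal (by positivity)]
    simp
  have k2 : (eLpNorm g 2 (volume.restrict D)).toReal = (∫ z in D, ‖g z‖ ^ (2 : ℝ)) ^ (1 / (2 : ℝ)) := by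
    rw [hg.eLpNorm_eq_integral_rpow_norm (by norm_num) (by norm_num), ENNReal.toReal_ofReal (by positivity)]
    simp
  rw [k1, k2]
  simpa using h

lemma kNAT_off {η : ℂ → ℝ} {z : ℂ} (hz : z ∉ tsupport η) : η z = 0 ∧ gr η z = 0 := by
  refine ⟨image_eq_zero_of_notMem_tsupport hz, ?_⟩
  have : fderiv ℝ η z = 0 := fderiv_of_notMem_tsupport ℝ hz
  rw [gr, this]
  simp

lemma kNAT_gc {η : ℂ → ℝ} (hη : ContDiff ℝ (⊤ : ℕ∞) η) : Continuous (gr η) := by
  have hf : Continuous (fderiv ℝ η) := hη.continuous_fderiv (by simp)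
  exact (Complex.continuous_ofReal.comp (hf.clm_apply continuous_const)).add
    (continuous_const.mul (Complex.continuous_ofReal.comp (hf.clm_apply continuous_const)))

/-- bounds of a test function -/
lemma kNAT_bd {η : ℂ → ℝ} (hη : RTF univ η) : ∃ C : ℝ, 0 ≤ C ∧ ∀ z, |η z| ≤ C ∧ ‖gr η z‖ ≤ C := by
  obtain ⟨c1, h1⟩ := hη.2.1.exists_bound_of_continuous hη.1.continuous
  have hg : HasCompactSupport (gr η) := HasCompactSupport.of_support_subset_isCompact hη.2.1 (fun z hz => by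
    by_contra h
    exact hz (kNAT_off h).2)
  obtain ⟨c2, h2⟩ := hg.exists_bound_of_continuous (kNAT_gc hη.1)
  refine ⟨max c1 c2, ?_, fun z => ⟨(h1 z).trans (le_max_left _ _), (h2 z).trans (le_max_right _ _)⟩⟩
  exact (norm_nonneg _).trans ((h1 0).trans (le_max_left _ _))

/-- the integrable dominating function -/
lemma kNAT_int {D : Set ℂ} {κ J : ℂ → ℝ} {S V : ℂ → ℂ} {M' : ℝ}
    (hκ0 : ∀ z, 0 ≤ κ z)
    (hS : AEStronglyMeasurable S (volume.restrict D)) (hV : AEStronglyMeasurable V (volume.restrict D))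
    (hJ : IntegrableOn J D volume) (hM' : 0 ≤ M') (hb : ∀ᵐ z ∂(volume.restrict D), 0 ≤ J z ∧ ‖S z‖ ^ 2 ≤ M' * κ z ^ 2 * J z)
    (hVR : IntegrableOn (fun z => κ z ^ 2 * ‖V z‖ ^ 2) D volume) :
    IntegrableOn (fun z => cr (V z) (S z)) D volume := by
  refine Integrable.mono' (hVR.add (hJ.const_mul M')) (kNAT_cr_aesm hV hS) ?_
  filter_upwards [hb] with z hz
  rw [Real.norm_eq_abs]
  refine (kNAT_cr_le _ _).trans ?_
  have h1 : ‖S z‖ ≤ κ z * Real.sqrt (M' * J z) := by
    refine abs_le_of_sq_le_sq' ?_ ?_ |>.2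
    · rw [mul_pow, Real.sq_sqrt (mul_nonneg hM' hz.1)]
      linarith [hz.2]
    · exact mul_nonneg (hκ0 z) (Real.sqrt_nonneg _)
  have h2 : Real.sqrt (M' * J z) ^ 2 = M' * J z := Real.sq_sqrt (mul_nonneg hM' hz.1)
  have h3 : ‖V z‖ * ‖S z‖ ≤ ‖V z‖ * (κ z * Real.sqrt (M' * J z)) := by gcongr
  simp only [Pi.add_apply]
  nlinarith [sq_nonneg (κ z * ‖V z‖ - Real.sqrt (M' * J z)), sq_nonneg (κ z * ‖V z‖), sq_nonneg (Real.sqrt (M' * J z))]

lemma kNAT_third {D : Set ℂ} (hD : MeasurableSet D) {κ J η v : ℂ → ℝ} {S T : ℂ → ℂ} {M' M C : ℝ}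
    (hκ0 : ∀ z, 0 ≤ κ z) (hJ : IntegrableOn J D volume) (hM' : 0 ≤ M') (hM : 0 ≤ M) (hC : 0 ≤ C)
    (hb : ∀ᵐ z ∂(volume.restrict D), 0 ≤ J z ∧ ‖S z‖ ^ 2 ≤ M' * κ z ^ 2 * J z)
    (hv : ∀ z ∈ D, |v z| ≤ M) (hη : ∀ z, |η z| ≤ C) (hT : MemLp (fun z => (κ z : ℂ) * T z) 2 volume) :
    |∫ z in D, η z * v z * cr (T z) (S z)| ≤ C * M * ((eLpNorm (fun z => (κ z : ℂ) * T z) 2 volume).toReal *
      (eLpNorm (fun z => Real.sqrt (M' * J z)) 2 (volume.restrict D)).toReal) := by
  have hg : MemLp (fun z => Real.sqrt (M' * J z)) 2 (volume.restrict D) := by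
    rw [memLp_two_iff_integrable_sq]
    · refine (hJ.const_mul M').congr ?_
      filter_upwards [hb] with z hz
      exact (Real.sq_sqrt (mul_nonneg hM' hz.1)).symm
    · exact Real.continuous_sqrt.comp_aestronglyMeasurable (hJ.aestronglyMeasurable.const_mul M')
  have hT' := hT.restrict D
  have i1 : Integrable (fun z => ‖(κ z : ℂ) * T z‖ * ‖Real.sqrt (M' * J z)‖) (volume.restrict D) := hT'.norm.integrable_mul hg.norm
  have e1 : |∫ z in D, η z * v z * cr (T z) (S z)| ≤ ∫ z in D, C * M * (‖(κ z : ℂ) * T z‖ * ‖Real.sqrt (M' * J z)‖) := by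
    rw [← Real.norm_eq_abs]
    refine norm_integral_le_of_norm_le (i1.const_mul _) ?_
    filter_upwards [hb, ae_restrict_mem hD] with z hz hzD
    have h1 : ‖S z‖ ≤ κ z * Real.sqrt (M' * J z) := by
      refine abs_le_of_sq_le_sq' ?_ ?_ |>.2
      · rw [mul_pow, Real.sq_sqrt (mul_nonneg hM' hz.1)]
        linarith [hz.2]
      · exact mul_nonneg (hκ0 z) (Real.sqrt_nonneg _)
    rw [norm_mul, norm_mul, norm_mul, Complex.norm_real, Real.norm_eq_abs, Real.norm_eq_abs, Real.norm_eq_abs, Real.norm_eq_abs, Real.norm_eq_abs,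
      abs_of_nonneg (hκ0 z), abs_of_nonneg (Real.sqrt_nonneg _)]
    calc |η z| * |v z| * |cr (T z) (S z)| ≤ C * M * (‖T z‖ * (κ z * Real.sqrt (M' * J z))) := by
          gcongr
          · exact hη z
          · exact hv z hzD
          · exact (kNAT_cr_le _ _).trans (by gcongr)
      _ = C * M * (κ z * ‖T z‖ * Real.sqrt (M' * J z)) := by ring
  refine e1.trans ?_
  rw [integral_const_mul]
  gcongr
  refine (kNAT_cs hT' hg).trans ?_
  refine mul_le_mul_of_nonneg_right ?_ ENNReal.toReal_nonneg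
  exact ENNReal.toReal_mono hT.eLpNorm_lt_top.ne (eLpNorm_mono_measure (fun z => (κ z : ℂ) * T z) Measure.restrict_le_self)

lemma kNAT_cr_lin (a b c : ℂ) (x y z : ℝ) (s : ℂ) :
    cr ((x : ℂ) * a + (y : ℂ) * ((z : ℂ) * b) + (y : ℂ) * c) s = x * cr a s + y * z * cr b s + y * cr c s := by
  simp only [cr, map_add, map_mul, Complex.conj_ofReal, Complex.mul_im, Complex.mul_re, Complex.add_re, Complex.add_im, Complex.ofReal_re, Complex.ofReal_im,
    Complex.conj_re, Complex.conj_im]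
  ring

lemma kNAT_gr_mul {τ η : ℂ → ℝ} (hτ : ContDiff ℝ (⊤ : ℕ∞) τ) (hη : ContDiff ℝ (⊤ : ℕ∞) η) (z : ℂ) :
    gr (fun w => τ w * η w) z = (τ z : ℂ) * gr η z + (η z : ℂ) * gr τ z := by
  have h1 : HasFDerivAt τ (fderiv ℝ τ z) z := ((hτ.differentiable (by simp)) z).hasFDerivAt
  have h2 : HasFDerivAt η (fderiv ℝ η z) z := ((hη.differentiable (by simp)) z).hasFDerivAt
  have h3 : fderiv ℝ (fun w => τ w * η w) z = _ := (h1.mul h2).fderiv
  rw [gr, gr, gr, h3]
  simp
  ring

lemma kNAT_ipcr (a b : ℂ) : ip (I * a) b = - cr b a := by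
  simp only [ip, cr, Complex.mul_re, Complex.mul_im, Complex.I_re, Complex.I_im, Complex.conj_re, Complex.conj_im]
  ring

lemma kNAT_id (h2 : S_kcalc) (h3 : S_ktst) (h4 : S_wedge) (h5 : S_bridge) {G : Set ℂ} (hG : IsOpen G) {u v η τ : ℂ → ℝ} {S V : ℂ → ℂ}
    (hu : WG G u S) (hv : WG G v V) (hη : RTF univ η) (hτ : ContDiff ℝ (⊤ : ℕ∞) τ) (hd : Disjoint (tsupport τ) Gᶜ) :
    IntegrableOn (fun z => (τ z * η z) * cr (V z) (S z) + v z * τ z * cr (gr η z) (S z) + v z * η z * cr (gr τ z) (S z)) G volume ∧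
    ∫ z in G, ((τ z * η z) * cr (V z) (S z) + v z * τ z * cr (gr η z) (S z) + v z * η z * cr (gr τ z) (S z)) = 0 := by
  obtain ⟨-, -, -, -, -, k6, -⟩ := h2 G hG
  have w1 := k6 v (fun z => τ z * η z) V hv (hτ.mul hη.1).contDiffOn
  have hKc : IsCompact (tsupport τ ∩ tsupport η) := hη.2.1.inter_left (isClosed_tsupport τ)
  have hKG : tsupport τ ∩ tsupport η ⊆ G := fun z hz => by
    by_contra h
    exact (Set.disjoint_left.1 hd) hz.1 h
  have hX : L2loc G (fun z => I * S z) := fun K hK hKG => (hu.G2 K hK hKG).const_mul I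
  have hdiv : ∀ φ : ℂ → ℝ, RTF G φ → ∫ z, ip (I * S z) (gr φ z) = 0 := by
    intro φ hφ
    have w2 := h5.2.2.1 univ φ isOpen_univ (hφ.1.of_le (by exact_mod_cast le_top)).contDiffOn
    obtain ⟨-, w3, -⟩ := h4 G φ u (gr φ) S hG w2 hφ.2.1 hφ.2.2 hu
    simp_rw [kNAT_ipcr]
    rw [integral_neg, w3, neg_zero]
  have h0 : ∀ z ∈ G, z ∉ tsupport τ ∩ tsupport η → τ z * η z * v z = 0 := by
    intro z _ hz
    by_cases h : z ∈ tsupport τ
    · have : z ∉ tsupport η := fun h' => hz ⟨h, h'⟩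
      rw [(kNAT_off this).1]; ring
    · rw [(kNAT_off h).1]; ring
  obtain ⟨i1, i2⟩ := h3 G _ (fun z => I * S z) _ _ hG hX hdiv hKc hKG w1 h0
  have e : ∀ z, ip (I * S z) (((τ z * η z : ℝ) : ℂ) * V z + (v z : ℂ) * gr (fun w => τ w * η w) z) =
      - ((τ z * η z) * cr (V z) (S z) + v z * τ z * cr (gr η z) (S z) + v z * η z * cr (gr τ z) (S z)) := by
    intro z
    rw [kNAT_ipcr, kNAT_gr_mul hτ hη.1]
    simp only [cr, map_add, map_mul, Complex.conj_ofReal, Complex.mul_im, Complex.mul_re, Complex.add_re, Complex.add_im, Complex.ofReal_re, Complex.ofReal_im,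
      Complex.conj_re, Complex.conj_im]
    ring
  constructor
  · have := i1.neg
    refine this.congr (Eventually.of_forall fun z => ?_)
    simp only [Pi.neg_apply]
    rw [e]; ring
  · have h5 : ∫ z in G, -((τ z * η z) * cr (V z) (S z) + v z * τ z * cr (gr η z) (S z) + v z * η z * cr (gr τ z) (S z)) = 0 := by
      rw [← i2]
      exact integral_congr_ae (Eventually.of_forall fun z => (e z).symm)
    rw [integral_neg] at h5
    linarith

/-- from `D` to `G` -/
lemma kNAT_toG {G D : Set ℂ} (hG : MeasurableSet G) (hDG : D ⊆ G) {f : ℂ → ℝ} (h0 : ∀ z ∈ G, z ∉ D → f z = 0) :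
    (IntegrableOn f D volume → IntegrableOn f G volume) ∧ ∫ z in G, f z = ∫ z in D, f z := by
  constructor
  · intro h
    exact h.of_forall_sdiff_eq_zero hG (fun z hz => h0 z hz.1 hz.2)
  · exact setIntegral_eq_of_subset_of_forall_sdiff_eq_zero hG hDG (fun z hz => h0 z hz.1 hz.2)

theorem piece_kNAT (h1 : S_kClE) (h2 : S_kcalc) (h3 : S_ktst) (h4 : S_wedge) (h5 : S_bridge) : S_kNAT := by
  intro G k0 μ κ F A B hA hW hC v V M hv hvM hV hVR η hη
  obtain ⟨c1, c2, c3, c4, ⟨M', hM', c5⟩, c6, c7⟩ := h1 G k0 μ κ F A B hA hW hC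
  have hG := hA.oG
  obtain ⟨R, hR⟩ : ∃ R, tsupport η ⊆ closedBall 0 R := hη.2.1.isCompact.isBounded.subset_closedBall 0
  obtain ⟨C, hC0, hηC⟩ := kNAT_bd hη
  have hM : 0 ≤ M := (abs_nonneg _).trans (hvM 1 (hA.ext 1 (by norm_num)))
  set S : ℂ → ℂ := fun z => I * (conj (A z) - B z) with hS
  set J : ℂ → ℝ := fun z => ‖A z‖ ^ 2 - ‖B z‖ ^ 2 with hJ
  set D := G ∩ closedBall (0 : ℂ) R with hD
  have hDm : MeasurableSet D := hG.measurableSet.inter isClosed_closedBall.measurableSet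
  have hDG : D ⊆ G := inter_subset_left
  have hηD : ∀ z ∈ G, z ∉ D → η z = 0 ∧ gr η z = 0 := fun z hz hzD => kNAT_off (fun h => hzD ⟨hz, hR h⟩)
  have hJD : IntegrableOn J D volume := hC.en R
  have hb : ∀ᵐ z ∂(volume.restrict D), 0 ≤ J z ∧ ‖S z‖ ^ 2 ≤ M' * κ z ^ 2 * J z := by
    refine ae_restrict_of_ae_restrict_of_subset hDG ?_
    filter_upwards [c4, c5] with z z1 z2
    refine ⟨?_, z2.2⟩
    change 0 ≤ ‖A z‖ ^ 2 - ‖B z‖ ^ 2
    rw [z1.2.1]
    exact mul_nonneg z1.2.2.le (sq_nonneg _)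
  have hSm : AEStronglyMeasurable S (volume.restrict D) := (kNAT_aesm hG c2.G2).mono_set hDG
  have hVm : AEStronglyMeasurable V (volume.restrict D) := (kNAT_aesm hG hV.G2).mono_set hDG
  have hvm : AEStronglyMeasurable v (volume.restrict D) := (hv.aestronglyMeasurable hG.measurableSet).mono_set hDG
  have iVS : IntegrableOn (fun z => cr (V z) (S z)) D volume := kNAT_int hW.lo hSm hVm hJD hM' hb (hVR R)
  -- the two integrands
  have I1 : IntegrableOn (fun z => η z * cr (V z) (S z)) D volume := by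
    refine iVS.bdd_mul (c := C) (hη.1.continuous.aestronglyMeasurable) (Eventually.of_forall fun z => (hηC z).1)
  have iS : IntegrableOn (fun z => cr (gr η z) (S z)) D volume := by
    have hfin : IsFiniteMeasure (volume.restrict D) := ⟨by
      rw [Measure.restrict_apply_univ]
      exact (measure_mono inter_subset_right).trans_lt (isCompact_closedBall (0 : ℂ) R).measure_lt_top⟩
    have iS2 : IntegrableOn (fun z => C * (1 + ‖S z‖ ^ 2)) D volume := ((integrable_const (1 : ℝ)).add (c6 R).2).const_mul C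
    refine Integrable.mono' iS2 (kNAT_cr_aesm (kNAT_gc hη.1).aestronglyMeasurable hSm) (Eventually.of_forall fun z => ?_)
    rw [Real.norm_eq_abs]
    refine (kNAT_cr_le _ _).trans ?_
    have := (hηC z).2
    have h' : ‖S z‖ ≤ 1 + ‖S z‖ ^ 2 := by nlinarith [sq_nonneg (‖S z‖ - 1), norm_nonneg (S z)]
    gcongr
  have I2 : IntegrableOn (fun z => v z * cr (gr η z) (S z)) D volume := by
    refine iS.bdd_mul (c := M) hvm ?_
    filter_upwards [ae_restrict_mem hDm] with z hz
    exact hvM z hz.1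
  have g1 := kNAT_toG (f := fun z => η z * cr (V z) (S z)) hG.measurableSet hDG (fun z hz hzD => by rw [(hηD z hz hzD).1, zero_mul])
  have g2 := kNAT_toG (f := fun z => v z * cr (gr η z) (S z)) hG.measurableSet hDG (fun z hz hzD => by rw [(hηD z hz hzD).2]; simp [cr])
  refine ⟨g1.1 I1, g2.1 I2, ?_⟩
  rw [g1.2, g2.2]
  -- the cutoffs
  obtain ⟨τ, t1, t2, t3, -, t5, t6, t7⟩ := hW.cut
  have hid := fun m => kNAT_id h2 h3 h4 h5 hG c2 hV hη (t1 m) (t3 m)
  set Q := (eLpNorm (fun z => Real.sqrt (M' * J z)) 2 (volume.restrict D)).toReal with hQ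
  -- the third term
  have hT3 : ∀ m, |∫ z in D, η z * v z * cr (gr (τ m) z) (S z)| ≤ C * M * ((eLpNorm (fun z => (κ z : ℂ) * gr (τ m) z) 2 volume).toReal * Q) := fun m =>
    kNAT_third hDm hW.lo hJD hM' hM hC0 hb (fun z hz => hvM z hz.1) (fun z => (hηC z).1) (t6 m)
  have hlim3 : Tendsto (fun m => ∫ z in D, η z * v z * cr (gr (τ m) z) (S z)) atTop (𝓝 0) := by
    have l1 : Tendsto (fun m => (eLpNorm (fun z => (κ z : ℂ) * gr (τ m) z) 2 volume).toReal) atTop (𝓝 0) := by
      simpa [Function.comp_def] using (ENNReal.tendsto_toReal (ENNReal.zero_ne_top)).comp t7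
    have l2 : Tendsto (fun m => C * M * ((eLpNorm (fun z => (κ z : ℂ) * gr (τ m) z) 2 volume).toReal * Q)) atTop (𝓝 0) := by
      simpa using (l1.mul_const Q).const_mul (C * M)
    exact squeeze_zero_norm (fun m => by simpa using hT3 m) l2
  -- the first two terms
  have i12 : IntegrableOn (fun z => η z * cr (V z) (S z) + v z * cr (gr η z) (S z)) D volume := I1.add I2
  have iτ : ∀ m, IntegrableOn (fun z => τ m z * (η z * cr (V z) (S z) + v z * cr (gr η z) (S z))) D volume := fun m => by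
    refine i12.bdd_mul (c := 1) ((t1 m).continuous.aestronglyMeasurable) (Eventually.of_forall fun z => ?_)
    rw [Real.norm_eq_abs, abs_of_nonneg (t2 m z).1]
    exact (t2 m z).2
  have hlim12 : Tendsto (fun m => ∫ z in D, τ m z * (η z * cr (V z) (S z) + v z * cr (gr η z) (S z))) atTop
      (𝓝 (∫ z in D, (η z * cr (V z) (S z) + v z * cr (gr η z) (S z)))) := by
    refine tendsto_integral_of_dominated_convergence (fun z => ‖η z * cr (V z) (S z) + v z * cr (gr η z) (S z)‖)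
      (fun m => (iτ m).aestronglyMeasurable) i12.norm (fun m => Eventually.of_forall fun z => ?_) ?_
    · rw [norm_mul, Real.norm_eq_abs (τ m z), abs_of_nonneg (t2 m z).1]
      exact mul_le_of_le_one_left (norm_nonneg _) (t2 m z).2
    · filter_upwards [ae_restrict_of_ae_restrict_of_subset hDG t5] with z hz
      simpa using hz.mul_const (η z * cr (V z) (S z) + v z * cr (gr η z) (S z))
  -- the identity for each cutoff
  have hsum : ∀ m, ∫ z in D, τ m z * (η z * cr (V z) (S z) + v z * cr (gr η z) (S z)) = - ∫ z in D, η z * v z * cr (gr (τ m) z) (S z) := by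
    intro m
    obtain ⟨j1, j2⟩ := hid m
    have g3 := kNAT_toG (f := fun z => (τ m z * η z) * cr (V z) (S z) + v z * τ m z * cr (gr η z) (S z) + v z * η z * cr (gr (τ m) z) (S z))
      hG.measurableSet hDG (fun z hz hzD => by rw [(hηD z hz hzD).1, (hηD z hz hzD).2]; simp [cr])
    rw [g3.2] at j2
    have j1' := j1.mono_set hDG
    have i3 : IntegrableOn (fun z => η z * v z * cr (gr (τ m) z) (S z)) D volume := by
      have := j1'.sub (iτ m)
      refine this.congr (Eventually.of_forall fun z => ?_)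
      simp only [Pi.sub_apply]
      ring
    have e : ∫ z in D, ((τ m z * η z) * cr (V z) (S z) + v z * τ m z * cr (gr η z) (S z) + v z * η z * cr (gr (τ m) z) (S z)) =
        ∫ z in D, (τ m z * (η z * cr (V z) (S z) + v z * cr (gr η z) (S z)) + η z * v z * cr (gr (τ m) z) (S z)) :=
      integral_congr_ae (Eventually.of_forall fun z => by ring)
    rw [e, integral_add (iτ m) i3] at j2
    linarith
  have hz : ∫ z in D, (η z * cr (V z) (S z) + v z * cr (gr η z) (S z)) = 0 := by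
    refine tendsto_nhds_unique hlim12 ?_
    simp_rw [hsum]
    simpa using hlim3.neg
  rw [integral_add I1 I2] at hz
  linarith

end

end Cal
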