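import Pool.Agent.Lib.MP_4ea4c7_an.StmH2

/-! Piece kap: the weights of the two conductivities. -/

open MeasureTheory Complex Metric Set Filter Topology
open scoped ComplexConjugate ENNReal NNReal

namespace Cal

theorem piece_kap (h1 : S_kgeo) (h2 : S_kex) (h3 : S_khat) (h4 : S_kcut1) (h5 : S_kcut2) (h6 : S_kKP) (h7 : S_k25)
    (h8 : S_kH0) : S_kap := by
  intro Ω G c C γ₁ γ₂ hP hc hγ₁ hγ₂ hg₁ hg₂ hTT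
  obtain ⟨χ, hχ⟩ := h1.1 (3 / 4) (13 / 16) (by norm_num) (by norm_num)
  obtain ⟨χ₂, hχ₂⟩ := h1.1 (5 / 8) (3 / 4) (by norm_num) (by norm_num)
  obtain ⟨v₁, V₁, hK₁⟩ := (h2 Ω G c C γ₁ χ hP hc hγ₁ hχ).1
  obtain ⟨v₂, V₂, hK₂⟩ := (h2 Ω G c C γ₂ χ hP hc hγ₂ hχ).1
  obtain ⟨k₁, hC₁⟩ := h3 Ω G c C γ₁ χ v₁ V₁ hP hc hγ₁ hg₁ hχ hK₁
  obtain ⟨k₂, hC₂⟩ := h3 Ω G c C γ₂ χ v₂ V₂ hP hc hγ₂ hg₂ hχ hK₂
  have hP₁ := h6 Ω G γ₁ χ χ₂ v₁ V₁ k₁ hP hχ hχ₂ hC₁ (h5 G _ hP.oG.measurableSet (h4 Ω G γ₁ χ χ₂ v₁ V₁ k₁ hP hχ hχ₂ hC₁))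
  have hP₂ := h6 Ω G γ₂ χ χ₂ v₂ V₂ k₂ hP hχ hχ₂ hC₂ (h5 G _ hP.oG.measurableSet (h4 Ω G γ₂ χ χ₂ v₂ V₂ k₂ hP hχ hχ₂ hC₂))
  have hd := h7 Ω G c C γ₁ γ₂ χ v₁ v₂ V₁ V₂ hP hc hγ₁ hγ₂ hg₁ hg₂ hTT hχ hK₁ hK₂
  have hΩ := h8 Ω hP.oΩ
  have hoff := (hΩ.1 _ _ hd).2
  have hOm : MeasurableSet (G ∩ ball (0 : ℂ) (7 / 8)) := (hP.oG.inter isOpen_ball).measurableSet
  have a₁ := (ae_restrict_iff' hOm).mp hC₁.ae
  have a₂ := (ae_restrict_iff' hOm).mp hC₂.ae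
  have hE : ∀ᵐ z, z ∉ Ω → kap G χ₂ k₁ z = kap G χ₂ k₂ z := by
    filter_upwards [hoff, a₁, a₂] with z hz b₁ b₂ hzΩ
    have hv : v₂ z = v₁ z := sub_eq_zero.mp (hz hzΩ).1
    unfold kap
    by_cases hG : z ∈ G
    · rw [if_pos hG, if_pos hG]
      by_cases hn : ‖z‖ < 7 / 8
      · have hO : z ∈ G ∩ ball (0 : ℂ) (7 / 8) := ⟨hG, by rwa [mem_ball_zero_iff]⟩
        rw [← b₁ hO, ← b₂ hO, hv]
      · rw [hχ₂.one z (by linarith [not_lt.mp hn])]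
        ring
    · rw [if_neg hG, if_neg hG]
  refine ⟨kap G χ₂ k₁, kap G χ₂ k₂, kapG χ χ₂ v₁ V₁, kapG χ χ₂ v₂ V₂, hP₁, hP₂, ?_, hE⟩
  refine hΩ.2.2.2.1 _ _ _ _ hd ?_ ?_
  · filter_upwards [hoff, a₁, a₂, hE] with z hz b₁ b₂ hE
    by_cases hzΩ : z ∈ Ω
    · have hn := hP.Ωs hzΩ
      rw [mem_ball_zero_iff] at hn
      have hG := hP.ΩG hzΩ
      have hO : z ∈ G ∩ ball (0 : ℂ) (7 / 8) := ⟨hG, by rw [mem_ball_zero_iff]; linarith⟩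
      unfold kap
      rw [if_pos hG, if_pos hG, ← b₁ hO, ← b₂ hO, hχ.zero z (by linarith), hχ₂.zero z (by linarith)]
      ring
    · rw [hE hzΩ, (hz hzΩ).1, sub_self]
  · filter_upwards [hoff] with z hz
    by_cases hzΩ : z ∈ Ω
    · have hn := hP.Ωs hzΩ
      rw [mem_ball_zero_iff] at hn
      unfold kapG
      rw [hχ.gz z (by linarith), hχ₂.gz z (by linarith), hχ₂.zero z (by linarith)]
      push_cast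
      ring
    · have hv : v₂ z = v₁ z := sub_eq_zero.mp (hz hzΩ).1
      have hV : V₂ z = V₁ z := sub_eq_zero.mp (hz hzΩ).2
      unfold kapG
      rw [hv, hV, sub_self, sub_self]

end Cal
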