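import Pool.Agent.Lib.MP_4ea4c7_an.StmH2

set_option autoImplicit false

/-!
# MP_4ea4c7_an, stage 2: piece kbd (bounds of the weight)
-/

open MeasureTheory Complex Metric Set Filter Topology
open scoped ComplexConjugate ENNReal NNReal

namespace Cal

noncomputable section

private lemma kbd_grcont {φ : ℂ → ℝ} (h : ContDiff ℝ (⊤ : ℕ∞) φ) : Continuous (gr φ) := by
  have h1 : Continuous (fderiv ℝ φ) := h.continuous_fderiv (by simp)
  unfold gr
  have a1 : Continuous fun z => ((fderiv ℝ φ z 1 : ℝ) : ℂ) := Complex.continuous_ofReal.comp (h1.clm_apply continuous_const)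
  have a2 : Continuous fun z => ((fderiv ℝ φ z I : ℝ) : ℂ) := Complex.continuous_ofReal.comp (h1.clm_apply continuous_const)
  exact a1.add (continuous_const.mul a2)

private lemma kbd_grcs {φ : ℂ → ℝ} (h : HasCompactSupport φ) : HasCompactSupport (gr φ) :=
  h.mono' fun z hz => by
    by_contra hne
    apply hz
    have h1 : fderiv ℝ φ z = 0 := by
      by_contra hne'
      exact hne (support_fderiv_subset ℝ hne')
    unfold gr
    rw [h1]
    simp

private lemma kbd_one (h1 : S_kcalc) (h3 : S_kwmp) {G : Set ℂ} (hG : IsOpen G) {c C : ℝ} {γ χ v : ℂ → ℝ} {V : ℂ → ℂ}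
    (hc : 0 < c) (hγ : Cond c C γ) (hχ : RC (3 / 4) (13 / 16) χ) (hK : KH G γ χ v V) (s : ℝ) (w : ℂ → ℝ) (hw : ContDiff ℝ (⊤ : ℕ∞) w)
    (hw1 : ∀ z, |w z| ≤ 1) (hw0 : ∀ z, w z ≤ 0) (hgw : ∀ z, gr w z = (s : ℂ) * gr χ z) :
    ∀ᵐ z ∂(volume.restrict (G ∩ ball 0 (7 / 8))), w z + s * v z ≤ 0 := by
  set O : Set ℂ := G ∩ ball 0 (7 / 8) with hO
  have hOo : IsOpen O := hG.inter isOpen_ball
  have hOb : Bornology.IsBounded O := isBounded_ball.subset inter_subset_right
  have : IsFiniteMeasure (volume.restrict O) := ⟨by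
    rw [Measure.restrict_apply_univ]
    exact hOb.measure_lt_top⟩
  obtain ⟨M, hM⟩ := hχ.gb
  have hM0 : 0 ≤ M := (norm_nonneg _).trans (hM 0)
  have mw : MemLp w 2 (volume.restrict O) :=
    MemLp.of_bound hw.continuous.aestronglyMeasurable 1 (Eventually.of_forall fun z => by rw [Real.norm_eq_abs]; exact hw1 z)
  have mgw : MemLp (gr w) 2 (volume.restrict O) := by
    refine MemLp.of_bound (kbd_grcont hw).aestronglyMeasurable (|s| * M) (Eventually.of_forall fun z => ?_)
    rw [hgw z, norm_mul, Complex.norm_real, Real.norm_eq_abs]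
    exact mul_le_mul_of_nonneg_left (hM z) (abs_nonneg s)
  have mv : MemLp v 2 (volume.restrict O) := hK.h0.mu.restrict O
  have mV : MemLp V 2 (volume.restrict O) := hK.h0.mU.restrict O
  refine h3 c C γ O (fun z => w z + s * v z) (fun z => gr w z + (s : ℂ) * V z) hc hγ hOo hOb (mw.add (mv.const_mul s))
    (mgw.add (mV.const_mul (s : ℂ))) ?_ ?_
  · intro φ hφ
    have e := hK.sol φ hφ
    have e2 : (fun z => γ z * ip (gr w z + (s : ℂ) * V z) (gr φ z)) = fun z => s * (γ z * ip (gr χ z + V z) (gr φ z)) := by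
      funext z
      have : gr w z + (s : ℂ) * V z = (s : ℂ) * (gr χ z + V z) := by rw [hgw z]; ring
      rw [this]
      unfold ip
      rw [mul_assoc (s : ℂ), Complex.re_ofReal_mul]
      ring
    rw [e2, integral_const_mul, e, mul_zero]
  · intro ε hε
    obtain ⟨φ, hφ, a1, a2⟩ := hK.h0.app (ε / (|s| + 1)) (by positivity)
    have mφ : MemLp φ 2 (volume.restrict O) := (hφ.1.continuous.memLp_of_hasCompactSupport hφ.2.1).restrict O
    have mgφ : MemLp (gr φ) 2 (volume.restrict O) :=
      ((kbd_grcont hφ.1).memLp_of_hasCompactSupport (kbd_grcs hφ.2.1)).restrict O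
    have wg1 : WG O w (gr w) := (h1 O hOo).2.2.2.2.2.2.1 w (hw.of_le (by exact_mod_cast le_top)).contDiffOn
    have wg2 : WG O φ (gr φ) := (h1 O hOo).2.2.2.2.2.2.1 φ (hφ.1.of_le (by exact_mod_cast le_top)).contDiffOn
    have hb : ∀ {E : Type} [NormedAddCommGroup E] [NormedSpace ℝ E] (f g : ℂ → E) (x : ℂ → E), (∀ z, x z = s • (f z - g z)) →
        eLpNorm (fun z => f z - g z) 2 volume < ENNReal.ofReal (ε / (|s| + 1)) → eLpNorm x 2 (volume.restrict O) < ENNReal.ofReal ε := by
      intro E _ _ f g x hx hfg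
      have hxe : x = s • (fun z => f z - g z) := funext hx
      rw [hxe, eLpNorm_const_smul]
      have b1 : eLpNorm (fun z => f z - g z) 2 (volume.restrict O) ≤ eLpNorm (fun z => f z - g z) 2 volume :=
        eLpNorm_mono_measure _ Measure.restrict_le_self
      have b2 : ‖s‖ₑ ≤ ENNReal.ofReal (|s| + 1) := by
        rw [← ofReal_norm, Real.norm_eq_abs]
        exact ENNReal.ofReal_le_ofReal (by linarith)
      have hs0 : ENNReal.ofReal (|s| + 1) ≠ 0 := by
        rw [ne_eq, ENNReal.ofReal_eq_zero, not_le]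
        positivity
      calc ‖s‖ₑ * eLpNorm (fun z => f z - g z) 2 (volume.restrict O)
          ≤ ENNReal.ofReal (|s| + 1) * eLpNorm (fun z => f z - g z) 2 volume := mul_le_mul' b2 b1
        _ < ENNReal.ofReal (|s| + 1) * ENNReal.ofReal (ε / (|s| + 1)) :=
            (ENNReal.mul_lt_mul_iff_right hs0 ENNReal.ofReal_ne_top).mpr hfg
        _ = ENNReal.ofReal ε := by
            rw [← ENNReal.ofReal_mul (by positivity)]
            congr 1
            field_simp
    refine ⟨fun z => w z + s * φ z, fun z => gr w z + (s : ℂ) * gr φ z, tsupport φ,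
      (hw.continuous.add (continuous_const.mul hφ.1.continuous)).continuousOn, (h1 O hOo).1 w φ _ _ s wg1 wg2,
      mw.add (mφ.const_mul s), mgw.add (mgφ.const_mul (s : ℂ)), hφ.2.1, hφ.2.2, ?_, ?_, ?_⟩
    · intro z _ hz
      show w z + s * φ z ≤ 0
      rw [image_eq_zero_of_notMem_tsupport hz, mul_zero, add_zero]
      exact hw0 z
    · refine hb v φ _ (fun z => ?_) a1
      simp only [smul_eq_mul]
      ring
    · refine hb V (gr φ) _ (fun z => ?_) a2
      simp only [Complex.real_smul]
      ring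

theorem piece_kbd (h1 : S_kcalc) (h2 : S_kH0) (h3 : S_kwmp) : S_kbd := by
  intro Ω G c C γ χ v V hP hc hγ hχ hK
  have hOo : IsOpen (G ∩ ball 0 (7 / 8)) := hP.oG.inter isOpen_ball
  have ha := kbd_one h1 h3 hP.oG hc hγ hχ hK 1 (fun z => χ z - 1) (hχ.smooth.sub contDiff_const)
    (fun z => by
      have := hχ.bd z
      rw [abs_le]
      constructor <;> linarith)
    (fun z => by
      have := hχ.bd z
      linarith)
    (fun z => by
      unfold gr
      rw [fderiv_sub_const]
      simp)
  have hb := kbd_one h1 h3 hP.oG hc hγ hχ hK (-1) (fun z => -χ z) hχ.smooth.neg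
    (fun z => by
      have := hχ.bd z
      rw [abs_le]
      constructor <;> linarith)
    (fun z => by
      have := hχ.bd z
      linarith)
    (fun z => by
      unfold gr
      rw [fderiv_fun_neg]
      simp
      ring)
  rw [ae_restrict_iff' hOo.measurableSet] at ha hb
  have hoff := ((h2 _ hOo).1 v V hK.h0).2
  filter_upwards [ha, hb, hoff] with z a1 a2 a3
  by_cases hz : z ∈ G ∩ ball 0 (7 / 8)
  · have b1 := a1 hz
    have b2 := a2 hz
    constructor <;> linarith
  · rw [(a3 hz).1, add_zero]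
    exact hχ.bd z

end

end Cal
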