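import Pool.Agent.Lib.MP_4ea4c7_an.StmH2

/-!
# [KA1] Calculus with weak gradients of real functions
-/

open MeasureTheory Complex Metric Set Filter Topology
open scoped ComplexConjugate ENNReal NNReal

namespace Cal

private lemma kcalc_mk (h1 : S_bridge) {V : Set ℂ} {f A B : ℂ → ℂ} {u : ℂ → ℝ} {U : ℂ → ℂ}
    (h : WD V f A B) (hu : ∀ z, (f z).re = u z) (hU : ∀ z, conj (A z) + B z = U z) : WG V u U := by
  have h2 := (h1.1 V f A B h).1
  have e1 : (fun z => (f z).re) = u := funext hu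
  have e2 : (fun z => conj (A z) + B z) = U := funext hU
  rw [e1, e2] at h2
  exact h2

private lemma kcalc_mkae (h1 : S_bridge) (h2 : S_basic) {V : Set ℂ} (hV : IsOpen V) {f A B : ℂ → ℂ}
    {u : ℂ → ℝ} {U : ℂ → ℂ}
    (h : WD V f A B) (hu : ∀ z ∈ V, f z = (u z : ℂ)) (hU : ∀ z ∈ V, A z = conj (U z) / 2 ∧ B z = U z / 2) :
    WG V u U := by
  have h3 := h2.2.2.2.1 V f A B (fun z => (u z : ℂ)) (fun z => conj (U z) / 2) (fun z => U z / 2)
    hV.measurableSet h
    (by rw [Filter.EventuallyEq, ae_restrict_iff' hV.measurableSet]; exact Filter.Eventually.of_forall hu)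
    (by rw [Filter.EventuallyEq, ae_restrict_iff' hV.measurableSet]
        exact Filter.Eventually.of_forall fun z hz => (hU z hz).1)
    (by rw [Filter.EventuallyEq, ae_restrict_iff' hV.measurableSet]
        exact Filter.Eventually.of_forall fun z hz => (hU z hz).2)
  refine kcalc_mk h1 h3 (fun z => Complex.ofReal_re _) (fun z => ?_)
  rw [map_div₀, Complex.conj_conj]
  simp only [map_ofNat]
  ring

private lemma kcalc_fd {φ : ℂ → ℝ} {z : ℂ} (h : DifferentiableAt ℝ φ z) (v : ℂ) :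
    fderiv ℝ (fun w => (φ w : ℂ)) z v = ((fderiv ℝ φ z v : ℝ) : ℂ) := by
  have h1 : HasFDerivAt (fun w => (φ w : ℂ)) (Complex.ofRealCLM.comp (fderiv ℝ φ z)) z :=
    Complex.ofRealCLM.hasFDerivAt.comp z h.hasFDerivAt
  rw [h1.fderiv]
  rfl

private lemma kcalc_dz {φ : ℂ → ℝ} {z : ℂ} (h : DifferentiableAt ℝ φ z) :
    dz (fun w => (φ w : ℂ)) z = conj (gr φ z) / 2 ∧ db (fun w => (φ w : ℂ)) z = gr φ z / 2 := by
  unfold dz db gr
  rw [kcalc_fd h, kcalc_fd h]
  constructor
  · rw [map_add, map_mul, Complex.conj_ofReal, Complex.conj_ofReal, Complex.conj_I]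
    ring
  · ring

private lemma kcalc_ch {T : ℝ → ℝ} {t : ℝ} (h : DifferentiableAt ℝ T t) :
    dz (fun ζ : ℂ => ((T ζ.re : ℝ) : ℂ)) (t : ℂ) = ((deriv T t : ℝ) : ℂ) / 2 ∧
      db (fun ζ : ℂ => ((T ζ.re : ℝ) : ℂ)) (t : ℂ) = ((deriv T t : ℝ) : ℂ) / 2 := by
  have h0 : HasDerivAt T (deriv T t) ((t : ℂ)).re := by
    rw [Complex.ofReal_re]
    exact h.hasDerivAt
  have h1 : HasFDerivAt (fun ζ : ℂ => T ζ.re) (deriv T t • Complex.reCLM) (t : ℂ) :=
    h0.comp_hasFDerivAt (t : ℂ) Complex.reCLM.hasFDerivAt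
  have h2 := kcalc_dz h1.differentiableAt
  have h3 : gr (fun ζ : ℂ => T ζ.re) (t : ℂ) = ((deriv T t : ℝ) : ℂ) := by
    unfold gr
    rw [h1.fderiv]
    simp
  rw [h3, Complex.conj_ofReal] at h2
  exact h2

theorem piece_kcalc (h1 : S_bridge) (h2 : S_basic) (h3 : S_smooth) (h4 : S_glue) (h5 : S_chain)
    (h6 : S_prod) (h7 : S_wuniq) : S_kcalc := by
  intro V hV
  have hcc : ∀ w : ℂ, conj (conj w / 2) = w / 2 := fun w => by
    rw [map_div₀, Complex.conj_conj]
    simp only [map_ofNat]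
  refine ⟨?_, ?_, ?_, ?_, ?_, ?_, ?_, ?_, ?_⟩
  · intro u v U W s hu hv
    have a1 := h1.2.1 V u U hu
    have a2 := h2.2.1 V _ _ _ (s : ℂ) (h1.2.1 V v W hv)
    have a3 := h2.1 V _ _ _ _ _ _ a1 a2
    refine kcalc_mk h1 a3 (fun z => ?_) (fun z => ?_)
    · simp
    · rw [map_add, map_mul, hcc, hcc, Complex.conj_ofReal]
      ring
  · intro u v U W hu huv hUW
    have a1 := h1.2.1 V u U hu
    have a2 := h2.2.2.2.1 V _ _ _ (fun z => (v z : ℂ)) (fun z => conj (W z) / 2) (fun z => W z / 2)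
      hV.measurableSet a1
      (by filter_upwards [huv] with z hz; rw [hz])
      (by filter_upwards [hUW] with z hz; rw [hz])
      (by filter_upwards [hUW] with z hz; rw [hz])
    refine kcalc_mk h1 a2 (fun z => Complex.ofReal_re _) (fun z => ?_)
    rw [hcc]
    ring
  · intro V' u U hVV hu
    have a1 := h2.2.2.2.2.1 V V' _ _ _ hVV (h1.2.1 V u U hu)
    refine kcalc_mk h1 a1 (fun z => Complex.ofReal_re _) (fun z => ?_)
    rw [hcc]
    ring
  · intro u U W hU hW
    have a1 := (h7 V _ _ _ _ _ _ hV (h1.2.1 V u U hU) (h1.2.1 V u W hW) Filter.EventuallyEq.rfl).2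
    filter_upwards [a1] with z hz
    have : U z / 2 = W z / 2 := hz
    linear_combination 2 * this
  · intro u U hloc
    have a1 := h4 V (fun z => (u z : ℂ)) (fun z => conj (U z) / 2) (fun z => U z / 2) hV (fun z hz => by
      obtain ⟨V', b1, b2, b3, b4⟩ := hloc z hz
      exact ⟨V', b1, b2, b3, h1.2.1 V' u U b4⟩)
    refine kcalc_mk h1 a1 (fun z => Complex.ofReal_re _) (fun z => ?_)
    rw [hcc]
    ring
  · intro u η U hu hη
    have b1 : ContDiffOn ℝ (⊤ : ℕ∞) (fun z => (η z : ℂ)) V :=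
      Complex.ofRealCLM.contDiff.comp_contDiffOn hη
    have a1 := h3.2.2 V _ _ _ (fun z => (η z : ℂ)) hV (h1.2.1 V u U hu) b1
    refine kcalc_mkae h1 h2 hV a1 (fun z _ => ?_) (fun z hz => ?_)
    · push_cast
      ring
    · have b2 : DifferentiableAt ℝ η z :=
        ((hη.contDiffAt (hV.mem_nhds hz)).differentiableAt (by simp))
      obtain ⟨b3, b4⟩ := kcalc_dz b2
      rw [b3, b4]
      constructor
      · rw [map_add, map_mul, map_mul, Complex.conj_ofReal, Complex.conj_ofReal]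
        ring
      · ring
  · intro u hu
    exact h1.2.2.1 V u hV hu
  · intro u v U W hu huc hv hvc
    have a1 := h6 V _ _ _ _ _ _ hV (h1.2.1 V u U hu) (Complex.continuous_ofReal.comp_continuousOn huc)
      (h1.2.1 V v W hv) (Complex.continuous_ofReal.comp_continuousOn hvc)
    refine kcalc_mk h1 a1 (fun z => ?_) (fun z => ?_)
    · rw [← Complex.ofReal_mul, Complex.ofReal_re]
    · rw [map_add, map_mul, map_mul, hcc, hcc, Complex.conj_ofReal, Complex.conj_ofReal]
      ring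
  · intro u U D T hu huc hD huD hT
    have c1 : IsOpen {ζ : ℂ | ζ.re ∈ D} := hD.preimage Complex.continuous_re
    have c2 : ContDiffOn ℝ 1 (fun ζ : ℂ => ((T ζ.re : ℝ) : ℂ)) {ζ : ℂ | ζ.re ∈ D} := by
      have c3 : ContDiffOn ℝ 1 (fun ζ : ℂ => T ζ.re) {ζ : ℂ | ζ.re ∈ D} :=
        hT.comp Complex.reCLM.contDiff.contDiffOn (fun ζ hζ => hζ)
      exact Complex.ofRealCLM.contDiff.comp_contDiffOn c3
    have a1 := h5 V {ζ : ℂ | ζ.re ∈ D} _ _ _ (fun ζ : ℂ => ((T ζ.re : ℝ) : ℂ)) hV c1 (h1.2.1 V u U hu)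
      (Complex.continuous_ofReal.comp_continuousOn huc) (fun z hz => by
        show ((u z : ℂ)).re ∈ D
        rw [Complex.ofReal_re]
        exact huD z hz) c2
    refine kcalc_mkae h1 h2 hV a1 (fun z _ => ?_) (fun z hz => ?_)
    · simp only [Complex.ofReal_re]
    · have b2 : DifferentiableAt ℝ T (u z) :=
        (hT.contDiffAt (hD.mem_nhds (huD z hz))).differentiableAt (by simp)
      obtain ⟨b3, b4⟩ := kcalc_ch b2
      rw [b3, b4]
      constructor
      · rw [map_mul, Complex.conj_ofReal, map_div₀]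
        simp only [map_ofNat]
        ring
      · rw [hcc]
        ring

end Cal
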