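import Pool.Agent.Lib.MP_4ea4c7_an.StmH2

open MeasureTheory Complex Metric Set Filter Topology
open scoped ComplexConjugate ENNReal NNReal

namespace Cal

theorem kconj_L2 {c C : ℝ} {γ : ℂ → ℝ} {V : Set ℂ} {U : ℂ → ℂ} (hc : 0 < c) (hγ : Cond c C γ)
    (hU : L2loc V U) : L2loc V (fun z => (γ z : ℂ) * U z) := by
  intro K hK hKV
  have h1 := hU K hK hKV
  refine h1.of_le_mul (c := C) ?_ ?_
  · exact ((Complex.measurable_ofReal.comp hγ.meas).aestronglyMeasurable).mul h1.1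
  · refine Eventually.of_forall (fun z => ?_)
    rw [norm_mul]
    refine mul_le_mul_of_nonneg_right ?_ (norm_nonneg _)
    rw [Complex.norm_real, Real.norm_eq_abs, abs_of_nonneg (hc.le.trans (hγ.lo z))]
    exact hγ.hi z

theorem piece_kconj (h1 : S_aconj) (h2 : S_bridge) (h3 : S_basic) : S_kconj := by
  intro c C γ z0 ρ u U hc hγ hρ hu hs
  obtain ⟨s, hsm, hsW⟩ := h1 z0 ρ (fun z => (γ z : ℂ) * U z) hρ (kconj_L2 hc hγ hu.G2) (by
    intro φ hφ
    rw [← hs φ hφ]
    congr 1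
    ext z
    simp only [ip]
    rw [mul_assoc, Complex.re_ofReal_mul])
  refine ⟨s, hsm, hsW, ?_⟩
  have a1 := h2.2.1 _ u U hu
  have a2 := h2.2.1 _ s _ hsW
  have a3 := h3.2.1 _ _ _ _ I a2
  have a4 := h3.1 _ _ _ _ _ _ _ a1 a3
  convert a4 using 2 with z z
  · simp only [map_mul, Complex.conj_I, Complex.conj_ofReal]
    linear_combination ((γ z : ℂ) * conj (U z) / 2) * Complex.I_mul_I
  · linear_combination (-(γ z : ℂ) * U z / 2) * Complex.I_mul_I

end Cal
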