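import Pool.Agent.Lib.MP_4ea4c7_an.StmH2

/-! [KB7] One cutoff function. -/

open MeasureTheory Complex Metric Set Filter Topology
open scoped ComplexConjugate ENNReal NNReal

namespace Cal

noncomputable section

private theorem kcut1_dct {E : Type*} [NormedAddCommGroup E] {μ : Measure ℂ} {F : ℕ → ℂ → E} {g : ℂ → ℝ}
    (hF : ∀ k, AEStronglyMeasurable (F k) μ)
    (hG : MemLp g 2 μ) (hb : ∀ k, ∀ᵐ z ∂μ, ‖F k z‖ ≤ g z)
    (hl : ∀ᵐ z ∂μ, Tendsto (fun k => F k z) atTop (𝓝 0)) :
    Tendsto (fun k => eLpNorm (F k) 2 μ) atTop (𝓝 0) := by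
  have e : ∀ k, eLpNorm (F k) 2 μ = (∫⁻ z, ‖F k z‖ₑ ^ (2:ℝ) ∂μ) ^ (1/2 : ℝ) := by
    intro k
    rw [eLpNorm_eq_lintegral_rpow_enorm_toReal (by norm_num) (by norm_num)]
    norm_num
  simp_rw [e]
  have h0 : Tendsto (fun k => ∫⁻ z, ‖F k z‖ₑ ^ (2:ℝ) ∂μ) atTop (𝓝 (∫⁻ _ : ℂ, 0 ∂μ)) := by
    refine tendsto_lintegral_of_dominated_convergence' (fun z => ‖g z‖ₑ ^ (2:ℝ)) ?_ ?_ ?_ ?_
    · intro k; exact (hF k).enorm.pow_const _
    · intro k
      filter_upwards [hb k] with z hz
      refine ENNReal.rpow_le_rpow (enorm_le_iff_norm_le.mpr ?_) (by norm_num)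
      exact hz.trans (le_abs_self _)
    · have := lintegral_rpow_enorm_lt_top_of_eLpNorm_lt_top (μ := μ) (p := 2) (f := g)
        (by norm_num) (by norm_num) hG.2
      simpa using this.ne
    · filter_upwards [hl] with z hz
      have h1 : Tendsto (fun k => ‖F k z‖ₑ) atTop (𝓝 0) := by
        simpa using hz.enorm
      have h2 := (ENNReal.continuous_rpow_const (y := (2:ℝ))).tendsto (0 : ℝ≥0∞)
      have h3 := h2.comp h1
      simpa [Function.comp_def] using h3
  rw [lintegral_zero] at h0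
  have h2 := (ENNReal.continuous_rpow_const (y := (1/2:ℝ))).tendsto (0 : ℝ≥0∞)
  have h3 := h2.comp h0
  simpa [Function.comp_def] using h3

private theorem kcut1_gr_add {f g : ℂ → ℝ} {z : ℂ} (hf : DifferentiableAt ℝ f z) (hg : DifferentiableAt ℝ g z) :
    gr (fun z => f z + g z) z = gr f z + gr g z := by
  unfold gr
  rw [fderiv_fun_add hf hg]
  simp only [add_apply]
  push_cast; ring

private theorem kcut1_gr_mul {f g : ℂ → ℝ} {z : ℂ} (hf : DifferentiableAt ℝ f z) (hg : DifferentiableAt ℝ g z) :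
    gr (fun z => f z * g z) z = (f z : ℂ) * gr g z + (g z : ℂ) * gr f z := by
  unfold gr
  rw [fderiv_fun_mul hf hg]
  simp only [add_apply, smul_apply, smul_eq_mul]
  push_cast; ring

private theorem kcut1_gr_comp {T : ℝ → ℝ} {f : ℂ → ℝ} {z : ℂ} (hT : DifferentiableAt ℝ T (f z))
    (hf : DifferentiableAt ℝ f z) :
    gr (fun z => T (f z)) z = ((deriv T (f z) : ℝ) : ℂ) * gr f z := by
  have h1 : HasFDerivAt (fun z => T (f z)) ((deriv T (f z)) • fderiv ℝ f z) z :=
    hT.hasDerivAt.comp_hasFDerivAt z hf.hasFDerivAt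
  unfold gr
  rw [h1.fderiv]
  simp only [smul_apply, smul_eq_mul]
  push_cast; ring

private theorem kcut1_gr_cont {f : ℂ → ℝ} (h : ContDiff ℝ (⊤ : ℕ∞) f) : Continuous (gr f) := by
  have h1 : Continuous (fderiv ℝ f) := h.continuous_fderiv (by simp)
  unfold gr
  fun_prop

private theorem kcut1_gr_zero {f : ℂ → ℝ} {z : ℂ} {c : ℝ} (h : ∀ᶠ w in 𝓝 z, f w = c) :
    gr f z = 0 := by
  have h1 : f =ᶠ[𝓝 z] fun _ => c := h
  unfold gr
  rw [h1.fderiv_eq]
  simp

/-! ### the function `θ` -/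

private def kcut1_th (t : ℝ) : ℝ := Real.smoothTransition (2 * t - 1)

private theorem kcut1_th_smooth : ContDiff ℝ (⊤ : ℕ∞) kcut1_th := by
  unfold kcut1_th
  exact Real.smoothTransition.contDiff.comp (by fun_prop)

private theorem kcut1_th_cont : Continuous kcut1_th := kcut1_th_smooth.continuous

private theorem kcut1_dth_cont : Continuous (deriv kcut1_th) :=
  kcut1_th_smooth.continuous_deriv (by simp)

private theorem kcut1_th_zero {t : ℝ} (h : t ≤ 1 / 2) : kcut1_th t = 0 :=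
  Real.smoothTransition.zero_of_nonpos (by linarith)

private theorem kcut1_th_one {t : ℝ} (h : 1 ≤ t) : kcut1_th t = 1 :=
  Real.smoothTransition.one_of_one_le (by linarith)

private theorem kcut1_th_nonneg (t : ℝ) : 0 ≤ kcut1_th t := Real.smoothTransition.nonneg _

private theorem kcut1_th_le (t : ℝ) : kcut1_th t ≤ 1 := Real.smoothTransition.le_one _

private theorem kcut1_dth_zero {t : ℝ} (h : t < 1 / 2 ∨ 1 < t) : deriv kcut1_th t = 0 := by
  rcases h with h | h
  · have h1 : kcut1_th =ᶠ[𝓝 t] fun _ => (0 : ℝ) := by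
      filter_upwards [Iio_mem_nhds h] with s hs
      exact kcut1_th_zero (le_of_lt hs)
    rw [h1.deriv_eq]; simp
  · have h1 : kcut1_th =ᶠ[𝓝 t] fun _ => (1 : ℝ) := by
      filter_upwards [Ioi_mem_nhds h] with s hs
      exact kcut1_th_one (le_of_lt hs)
    rw [h1.deriv_eq]; simp

private theorem kcut1_dth_bd : ∃ M : ℝ, 0 ≤ M ∧ ∀ t, |deriv kcut1_th t| ≤ M := by
  obtain ⟨M, hM⟩ := isCompact_Icc.exists_bound_of_continuousOn (s := Icc (0:ℝ) 2)
    kcut1_dth_cont.continuousOn
  refine ⟨M, (norm_nonneg _).trans (hM 0 ⟨le_refl _, by norm_num⟩), fun t => ?_⟩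
  by_cases ht : t ∈ Icc (0:ℝ) 2
  · exact hM t ht
  · have h0 : 0 ≤ M := (norm_nonneg _).trans (hM 0 ⟨le_refl _, by norm_num⟩)
    have h1 : t < 1 / 2 ∨ 1 < t := by
      by_contra hc
      push Not at hc
      exact ht ⟨by linarith [hc.1], by linarith [hc.2]⟩
    rw [kcut1_dth_zero h1]
    simpa using h0

private theorem kcut1_dT {e : ℝ} (t : ℝ) :
    HasDerivAt (fun t => kcut1_th (t / e)) (deriv kcut1_th (t / e) / e) t := by
  have h1 : HasDerivAt kcut1_th (deriv kcut1_th (t / e)) (t / e) :=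
    (kcut1_th_smooth.differentiable (by simp) _).hasDerivAt
  have h2 : HasDerivAt (fun t : ℝ => t / e) (1 / e) t := (hasDerivAt_id t).div_const e
  have h3 := h1.comp t h2
  have e1 : deriv kcut1_th (t / e) / e = deriv kcut1_th (t / e) * (1 / e) := by ring
  rw [e1]
  exact h3

private theorem kcut1_grtau {χ₂ ψ : ℂ → ℝ} {e : ℝ} (h2 : Differentiable ℝ χ₂) (h3 : Differentiable ℝ ψ)
    (z : ℂ) :
    gr (fun z => (1 - χ₂ z) * kcut1_th (ψ z / e) + χ₂ z) z =
      ((1 - χ₂ z : ℝ) : ℂ) * (((deriv kcut1_th (ψ z / e) / e : ℝ) : ℂ) * gr ψ z) +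
        ((1 - kcut1_th (ψ z / e) : ℝ) : ℂ) * gr χ₂ z := by
  have d1 : DifferentiableAt ℝ (fun z => 1 - χ₂ z) z := (h2 z).const_sub 1
  have d2 : DifferentiableAt ℝ (fun z => kcut1_th (ψ z / e)) z := by
    have := (kcut1_dT (e := e) (ψ z)).differentiableAt.comp z (h3 z)
    exact this
  have e1 : gr (fun z => 1 - χ₂ z) z = - gr χ₂ z := by
    unfold gr
    rw [fderiv_const_sub]
    simp only [neg_apply]
    push_cast; ring
  have e2 : gr (fun z => kcut1_th (ψ z / e)) z = ((deriv kcut1_th (ψ z / e) / e : ℝ) : ℂ) * gr ψ z := by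
    rw [kcut1_gr_comp (T := fun t => kcut1_th (t / e)) (f := ψ) (kcut1_dT (e := e) (ψ z)).differentiableAt (h3 z),
      (kcut1_dT (e := e) (ψ z)).deriv]
  rw [kcut1_gr_add (f := fun z => (1 - χ₂ z) * kcut1_th (ψ z / e)) (g := χ₂) (d1.fun_mul d2) (h2 z),
    kcut1_gr_mul d1 d2, e1, e2]
  push_cast; ring

private theorem kcut1_half {a b c d : ℝ≥0∞} (h1 : a ≤ b + c) (h2 : b < d / 2) (h3 : c < d / 2) : a < d := by
  calc a ≤ b + c := h1
    _ < d / 2 + d / 2 := ENNReal.add_lt_add h2 h3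
    _ = d := ENNReal.add_halves d

theorem piece_kcut1 (h1 : S_kH0) (_h2 : S_bridge) : S_kcut1 := by
  intro Ω G γ χ χ₂ v V k hP hχ hχ₂ hK ε hε
  have hOo : IsOpen (G ∩ ball (0:ℂ) (7 / 8)) := hP.oG.inter isOpen_ball
  have hH := hK.kh.h0
  obtain ⟨-, hoff⟩ := (h1 _ hOo).1 v V hH
  have hae : ∀ᵐ z, z ∈ G ∩ ball (0:ℂ) (7 / 8) → χ z + v z = k z :=
    (ae_restrict_iff' hOo.measurableSet).1 hK.ae
  have hG2 : ∀ z, z ∉ G → ‖z‖ < 1 / 2 := fun z hz => by
    by_contra hc
    exact hz (hP.ext z (not_lt.1 hc))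
  have hGm : MeasurableSet G := hP.oG.measurableSet
  set κ : ℂ → ℝ := kap G χ₂ k with hκd
  have hκG : ∀ z, z ∈ G → κ z = (1 - χ₂ z) * k z + χ₂ z := fun z hz => by
    rw [hκd]; simp [kap, hz]
  have hκn : ∀ z, z ∉ G → κ z = 0 := fun z hz => by
    rw [hκd]; simp [kap, hz]
  have hκ01 : ∀ z, 0 ≤ κ z ∧ κ z ≤ 1 := by
    intro z
    by_cases hz : z ∈ G
    · obtain ⟨a0, a1⟩ := hχ₂.bd z
      by_cases hz2 : ‖z‖ < 7 / 8
      · have hzO : z ∈ G ∩ ball (0:ℂ) (7 / 8) := ⟨hz, by simpa using hz2⟩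
        have p := hK.pos z hzO
        have l := hK.le z hzO
        rw [hκG z hz]; constructor <;> nlinarith
      · rw [hκG z hz, hχ₂.one z (by linarith)]; norm_num
    · rw [hκn z hz]; norm_num
  have hκae : ∀ᵐ z, κ z = (1 - χ₂ z) * (χ z + v z) + χ₂ z := by
    filter_upwards [hae, hoff] with z ha ho
    by_cases hz : z ∈ G
    · by_cases hz2 : ‖z‖ < 7 / 8
      · rw [hκG z hz, ha ⟨hz, by simpa using hz2⟩]
      · rw [hκG z hz, hχ₂.one z (by linarith)]; ring
    · have := hG2 z hz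
      rw [hκn z hz, (ho (fun h => hz h.1)).1, hχ₂.zero z (by linarith), hχ.zero z (by linarith)]; ring
  -- measurability
  have hvm : AEStronglyMeasurable v volume := hH.mu.1
  have hκm : AEStronglyMeasurable κ volume := by
    refine AEStronglyMeasurable.congr ?_ (hκae.mono fun z hz => hz.symm)
    exact ((aestronglyMeasurable_const.sub hχ₂.smooth.continuous.aestronglyMeasurable).mul
      (hχ.smooth.continuous.aestronglyMeasurable.add hvm)).add hχ₂.smooth.continuous.aestronglyMeasurable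
  have hκmC : AEStronglyMeasurable (fun z => (κ z : ℂ)) volume :=
    Complex.continuous_ofReal.comp_aestronglyMeasurable hκm
  have mχ : MemLp (gr χ) 2 volume := (kcut1_gr_cont hχ.smooth).memLp_of_hasCompactSupport
      (HasCompactSupport.intro (isCompact_closedBall (0:ℂ) (13/16)) (fun z hz => hχ.go z (by simp at hz; linarith)))
  have mχ₂ : MemLp (gr χ₂) 2 volume := (kcut1_gr_cont hχ₂.smooth).memLp_of_hasCompactSupport
      (HasCompactSupport.intro (isCompact_closedBall (0:ℂ) (3/4)) (fun z hz => hχ₂.go z (by simp at hz; linarith)))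
  have mK : MemLp (fun z => gr χ z + V z) 2 volume := mχ.add hH.mU
  -- lower bound on the annulus
  obtain ⟨c0, hc0, hc0'⟩ : ∃ c0 : ℝ, 0 < c0 ∧ ∀ z : ℂ, 5/8 ≤ ‖z‖ → ‖z‖ ≤ 3/4 → c0 ≤ k z := by
    have hA : IsCompact {z : ℂ | 5/8 ≤ ‖z‖ ∧ ‖z‖ ≤ 3/4} := by
      have : {z : ℂ | 5/8 ≤ ‖z‖ ∧ ‖z‖ ≤ 3/4} = closedBall 0 (3/4) ∩ {z : ℂ | 5/8 ≤ ‖z‖} := by
        ext z; simp [and_comm]
      rw [this]
      exact (isCompact_closedBall _ _).inter_right (isClosed_le continuous_const continuous_norm)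
    have hAO : {z : ℂ | 5/8 ≤ ‖z‖ ∧ ‖z‖ ≤ 3/4} ⊆ G ∩ ball (0:ℂ) (7 / 8) := fun z hz =>
      ⟨hP.ext z (by linarith [hz.1]), by simp only [mem_ball_zero_iff]; linarith [hz.2]⟩
    have hne : ({z : ℂ | 5/8 ≤ ‖z‖ ∧ ‖z‖ ≤ 3/4}).Nonempty := by
      refine ⟨((5/8 : ℝ) : ℂ), ?_⟩
      simp only [Set.mem_ofPred_eq, Complex.norm_real, Real.norm_eq_abs]
      rw [abs_of_pos (by norm_num)]
      norm_num
    obtain ⟨z0, hz0, hmin⟩ := hA.exists_isMinOn hne (hK.cont.mono hAO)
    exact ⟨k z0, hK.pos z0 (hAO hz0), fun z h1 h2 => hmin ⟨h1, h2⟩⟩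
  obtain ⟨M, hM0, hM⟩ := kcut1_dth_bd
  -- the limit fields
  set Y : ℝ → ℂ → ℂ := fun e z => ((1 - χ₂ z : ℝ) : ℂ) * (((deriv kcut1_th ((χ z + v z) / e) / e : ℝ) : ℂ) * (gr χ z + V z)) +
        ((1 - kcut1_th ((χ z + v z) / e) : ℝ) : ℂ) * gr χ₂ z with hY
  have hkm : AEStronglyMeasurable (fun z => χ z + v z) volume :=
    hχ.smooth.continuous.aestronglyMeasurable.add hvm
  have hYm : ∀ e : ℝ, AEStronglyMeasurable (Y e) volume := by
    intro e
    have a1 : AEStronglyMeasurable (fun z => (χ z + v z) / e) volume :=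
      (continuous_id.div_const e).comp_aestronglyMeasurable hkm
    have a2 : AEStronglyMeasurable (fun z => deriv kcut1_th ((χ z + v z) / e) / e) volume :=
      (kcut1_dth_cont.div_const e).comp_aestronglyMeasurable a1
    have a3 : AEStronglyMeasurable (fun z => kcut1_th ((χ z + v z) / e)) volume :=
      kcut1_th_cont.comp_aestronglyMeasurable a1
    have a4 : AEStronglyMeasurable (fun z => ((1 - χ₂ z : ℝ) : ℂ)) volume :=
      (Complex.continuous_ofReal.comp (continuous_const.sub hχ₂.smooth.continuous)).aestronglyMeasurable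
    have a5 : AEStronglyMeasurable (fun z => ((deriv kcut1_th ((χ z + v z) / e) / e : ℝ) : ℂ)) volume :=
      Complex.continuous_ofReal.comp_aestronglyMeasurable a2
    have a6 : AEStronglyMeasurable (fun z => ((1 - kcut1_th ((χ z + v z) / e) : ℝ) : ℂ)) volume :=
      (Complex.continuous_ofReal.comp (continuous_const.sub continuous_id)).comp_aestronglyMeasurable a3
    exact (a4.mul (a5.mul mK.1)).add (a6.mul mχ₂.1)
  have t3 : Tendsto (fun m : ℕ => eLpNorm (fun z => (κ z : ℂ) * Y (1 / ((m:ℝ) + 1)) z) 2 volume) atTop (𝓝 0) := by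
    refine kcut1_dct (g := fun z => (M * (1 + 1 / c0)) * ‖gr χ z + V z‖ + ‖gr χ₂ z‖) (fun m => hκmC.mul (hYm _))
      ((mK.norm.const_mul _).add mχ₂.norm) ?_ ?_
    · intro m
      set e : ℝ := 1 / ((m:ℝ) + 1) with he
      have he0 : 0 < e := by positivity
      filter_upwards [hae, hκae] with z ha hκz
      obtain ⟨b0, b1⟩ := hχ₂.bd z
      obtain ⟨d0, d1⟩ := hκ01 z
      have q1 : κ z * ((1 - χ₂ z) * (|deriv kcut1_th ((χ z + v z) / e)| / e)) ≤ M * (1 + 1 / c0) := by
        have hM' := hM ((χ z + v z) / e)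
        have hpos : 0 ≤ M * (1 + 1 / c0) := by positivity
        by_cases hz0 : deriv kcut1_th ((χ z + v z) / e) = 0
        · rw [hz0]; simpa using hpos
        have hle : (χ z + v z) / e ≤ 1 := by
          by_contra hc
          exact hz0 (kcut1_dth_zero (Or.inr (not_le.1 hc)))
        have hle' : χ z + v z ≤ e := by rwa [div_le_one he0] at hle
        by_cases hz : z ∈ G
        · by_cases hz2 : ‖z‖ ≤ 3 / 4
          · have hzO : z ∈ G ∩ ball (0:ℂ) (7 / 8) := ⟨hz, by simp only [mem_ball_zero_iff]; linarith⟩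
            have hk := ha hzO
            have hkp := hK.pos z hzO
            by_cases hz3 : ‖z‖ ≤ 5 / 8
            · have e1 : κ z = χ z + v z := by rw [hκz, hχ₂.zero z hz3]; ring
              rw [e1, hχ₂.zero z hz3]
              have e2 : (χ z + v z) * ((1 - 0) * (|deriv kcut1_th ((χ z + v z) / e)| / e)) =
                ((χ z + v z) / e) * |deriv kcut1_th ((χ z + v z) / e)| := by ring
              rw [e2]
              have p1 : 0 ≤ (χ z + v z) / e := by rw [hk]; positivity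
              calc ((χ z + v z) / e) * |deriv kcut1_th ((χ z + v z) / e)| ≤ 1 * M := by
                    exact mul_le_mul hle hM' (abs_nonneg _) (by norm_num)
                _ ≤ M * (1 + 1 / c0) := by
                    have : 0 ≤ M * (1 / c0) := by positivity
                    nlinarith
            · have hc := hc0' z (by linarith) hz2
              have hce : c0 ≤ e := by linarith [hk]
              have p1 : 1 / e ≤ 1 / c0 := one_div_le_one_div_of_le hc0 hce
              have p2 : κ z * (1 - χ₂ z) ≤ 1 := by nlinarith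
              have p3 : 0 ≤ κ z * (1 - χ₂ z) := mul_nonneg d0 (by linarith)
              have p4 : |deriv kcut1_th ((χ z + v z) / e)| / e ≤ M * (1 / c0) := by
                rw [div_eq_mul_one_div]
                exact mul_le_mul hM' p1 (by positivity) hM0
              calc κ z * ((1 - χ₂ z) * (|deriv kcut1_th ((χ z + v z) / e)| / e))
                  = (κ z * (1 - χ₂ z)) * (|deriv kcut1_th ((χ z + v z) / e)| / e) := by ring
                _ ≤ 1 * (M * (1 / c0)) := mul_le_mul p2 p4 (by positivity) (by norm_num)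
                _ ≤ M * (1 + 1 / c0) := by nlinarith
          · rw [hχ₂.one z (by linarith)]; simpa using hpos
        · rw [hκn z hz]; simpa using hpos
      have q2 : ‖(κ z : ℂ) * Y e z‖ ≤ κ z * ((1 - χ₂ z) * (|deriv kcut1_th ((χ z + v z) / e)| / e)) * ‖gr χ z + V z‖ +
          κ z * (1 - kcut1_th ((χ z + v z) / e)) * ‖gr χ₂ z‖ := by
        have t0 := kcut1_th_le ((χ z + v z) / e)
        rw [hY]
        simp only []
        rw [mul_add]
        refine (norm_add_le _ _).trans (le_of_eq ?_)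
        simp only [norm_mul, Complex.norm_real, Real.norm_eq_abs, abs_div]
        rw [abs_of_nonneg d0, abs_of_nonneg (show (0:ℝ) ≤ 1 - χ₂ z by linarith), abs_of_pos he0,
          abs_of_nonneg (show (0:ℝ) ≤ 1 - kcut1_th ((χ z + v z) / e) by linarith)]
        ring
      refine q2.trans (add_le_add (mul_le_mul_of_nonneg_right q1 (norm_nonneg _)) ?_)
      have t0 := kcut1_th_le ((χ z + v z) / e)
      have t1 := kcut1_th_nonneg ((χ z + v z) / e)
      have p2 : κ z * (1 - kcut1_th ((χ z + v z) / e)) ≤ 1 := by nlinarith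
      calc κ z * (1 - kcut1_th ((χ z + v z) / e)) * ‖gr χ₂ z‖ ≤ 1 * ‖gr χ₂ z‖ :=
            mul_le_mul_of_nonneg_right p2 (norm_nonneg _)
        _ = ‖gr χ₂ z‖ := one_mul _
    · filter_upwards [hae] with z ha
      refine tendsto_const_nhds.congr' ?_
      by_cases hz : z ∈ G
      · by_cases hz2 : ‖z‖ < 7 / 8
        · have hzO : z ∈ G ∩ ball (0:ℂ) (7 / 8) := ⟨hz, by simpa using hz2⟩
          have hkp : 0 < χ z + v z := by rw [ha hzO]; exact hK.pos z hzO
          have hev : ∀ᶠ m : ℕ in atTop, 1 / ((m:ℝ) + 1) < χ z + v z :=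
            (tendsto_order.1 tendsto_one_div_add_atTop_nhds_zero_nat).2 _ hkp
          filter_upwards [hev] with m hm
          have he0 : 0 < 1 / ((m:ℝ) + 1) := by positivity
          have hgt : 1 < (χ z + v z) / (1 / ((m:ℝ) + 1)) := by rwa [one_lt_div he0]
          rw [hY]
          simp only []
          rw [kcut1_dth_zero (Or.inr hgt), kcut1_th_one hgt.le]
          simp
        · filter_upwards with m
          rw [hY]
          simp only []
          rw [hχ₂.one z (by linarith), hχ₂.go z (by linarith)]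
          simp
      · filter_upwards with m
        rw [hκn z hz]; simp
  have t4 : Tendsto (fun m : ℕ => eLpNorm (fun z => (1 - χ₂ z) * (1 - kcut1_th ((χ z + v z) / (1 / ((m:ℝ) + 1))))) 2 (volume.restrict G))
      atTop (𝓝 0) := by
    have m1 : MemLp (fun z => 1 - χ₂ z) 2 (volume.restrict G) := by
      refine MemLp.restrict G ?_
      refine (continuous_const.sub hχ₂.smooth.continuous).memLp_of_hasCompactSupport ?_
      exact HasCompactSupport.intro (isCompact_closedBall (0:ℂ) (3/4)) (fun z hz => by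
        have e3 := hχ₂.one z (by simp at hz; linarith)
        simp [e3])
    refine kcut1_dct (g := fun z => 1 - χ₂ z) (fun m => ?_) m1 (fun m => ?_) ?_
    · refine AEStronglyMeasurable.mono_measure ?_ Measure.restrict_le_self
      exact (continuous_const.sub hχ₂.smooth.continuous).aestronglyMeasurable.mul
        ((continuous_const.sub kcut1_th_cont).comp_aestronglyMeasurable
          ((continuous_id.div_const (1 / ((m:ℝ) + 1))).comp_aestronglyMeasurable hkm))
    · filter_upwards with z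
      obtain ⟨b0, b1⟩ := hχ₂.bd z
      have t0 := kcut1_th_le ((χ z + v z) / (1 / ((m:ℝ) + 1)))
      have t1 := kcut1_th_nonneg ((χ z + v z) / (1 / ((m:ℝ) + 1)))
      rw [Real.norm_eq_abs, abs_of_nonneg (mul_nonneg (by linarith) (by linarith))]
      nlinarith
    · filter_upwards [ae_restrict_of_ae hae, ae_restrict_mem hGm] with z ha hz
      refine tendsto_const_nhds.congr' ?_
      by_cases hz2 : ‖z‖ < 7 / 8
      · have hzO : z ∈ G ∩ ball (0:ℂ) (7 / 8) := ⟨hz, by simpa using hz2⟩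
        have hkp : 0 < χ z + v z := by rw [ha hzO]; exact hK.pos z hzO
        have hev : ∀ᶠ m : ℕ in atTop, 1 / ((m:ℝ) + 1) < χ z + v z :=
          (tendsto_order.1 tendsto_one_div_add_atTop_nhds_zero_nat).2 _ hkp
        filter_upwards [hev] with m hm
        have he0 : 0 < 1 / ((m:ℝ) + 1) := by positivity
        have hgt : 1 < (χ z + v z) / (1 / ((m:ℝ) + 1)) := by rwa [one_lt_div he0]
        rw [kcut1_th_one hgt.le]; ring
      · filter_upwards with m
        rw [hχ₂.one z (by linarith)]; ring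
  -- choice of `e`
  have hε2 : 0 < ENNReal.ofReal ε / 2 := by
    have : 0 < ENNReal.ofReal ε := ENNReal.ofReal_pos.2 hε
    exact ENNReal.half_pos this.ne'
  obtain ⟨m, hm3, hm4⟩ := (((tendsto_order.1 t3).2 _ hε2).and ((tendsto_order.1 t4).2 _ hε2)).exists
  set e : ℝ := 1 / ((m:ℝ) + 1) with he
  have he0 : 0 < e := by positivity
  -- approximations
  have hφ : ∀ n : ℕ, ∃ φ : ℂ → ℝ, RTF (G ∩ ball (0:ℂ) (7 / 8)) φ ∧
      eLpNorm (fun z => v z - φ z) 2 volume < ENNReal.ofReal (1 / ((n:ℝ) + 1)) ∧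
      eLpNorm (fun z => V z - gr φ z) 2 volume < ENNReal.ofReal (1 / ((n:ℝ) + 1)) :=
    fun n => hH.app _ (by positivity)
  choose φ hφ1 hφ2 hφ3 using hφ
  have hl0 : Tendsto (fun n : ℕ => ENNReal.ofReal (1 / ((n:ℝ) + 1))) atTop (𝓝 0) := by
    have := (ENNReal.continuous_ofReal.tendsto 0).comp (tendsto_one_div_add_atTop_nhds_zero_nat (𝕜 := ℝ))
    simpa [Function.comp_def] using this
  have l2 : Tendsto (fun n => eLpNorm (φ n - v) 2 volume) atTop (𝓝 0) := by
    refine tendsto_of_tendsto_of_tendsto_of_le_of_le tendsto_const_nhds hl0 (fun _ => bot_le) (fun n => ?_)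
    rw [eLpNorm_sub_comm]
    exact (hφ2 n).le
  have l3 : Tendsto (fun n => eLpNorm (fun z => V z - gr (φ n) z) 2 volume) atTop (𝓝 0) :=
    tendsto_of_tendsto_of_tendsto_of_le_of_le tendsto_const_nhds hl0 (fun _ => bot_le) (fun n => (hφ3 n).le)
  have hφm : ∀ n, AEStronglyMeasurable (φ n) volume := fun n => (hφ1 n).1.continuous.aestronglyMeasurable
  obtain ⟨ns, hns, hnsl⟩ := (tendstoInMeasure_of_tendsto_eLpNorm (by norm_num) hφm hvm l2).exists_seq_tendsto_ae
  set ψ : ℕ → ℂ → ℝ := fun i z => χ z + φ (ns i) z with hψ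
  have hψs : ∀ i, ContDiff ℝ (⊤ : ℕ∞) (ψ i) := fun i => hχ.smooth.add (hφ1 (ns i)).1
  have hψl : ∀ᵐ z, Tendsto (fun i => ψ i z / e) atTop (𝓝 ((χ z + v z) / e)) := by
    filter_upwards [hnsl] with z hz
    exact (tendsto_const_nhds.add hz).div_const e
  have hψm : ∀ i, AEStronglyMeasurable (fun z => ψ i z / e) volume := fun i =>
    ((hψs i).continuous.div_const e).aestronglyMeasurable
  have hkem : AEStronglyMeasurable (fun z => (χ z + v z) / e) volume :=
    (continuous_id.div_const e).comp_aestronglyMeasurable hkm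
  have a4 : AEStronglyMeasurable (fun z => ((1 - χ₂ z : ℝ) : ℂ)) volume :=
    (Complex.continuous_ofReal.comp (continuous_const.sub hχ₂.smooth.continuous)).aestronglyMeasurable
  set E1 : ℕ → ℂ → ℂ := fun i z => (κ z : ℂ) * (((1 - χ₂ z : ℝ) : ℂ) * (((deriv kcut1_th (ψ i z / e) / e : ℝ) : ℂ) *
    (gr (φ (ns i)) z - V z))) with hE1
  set E2 : ℕ → ℂ → ℂ := fun i z => (κ z : ℂ) * (((1 - χ₂ z : ℝ) : ℂ) *
    ((((deriv kcut1_th (ψ i z / e) - deriv kcut1_th ((χ z + v z) / e)) / e : ℝ) : ℂ) * (gr χ z + V z)) +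
      ((kcut1_th ((χ z + v z) / e) - kcut1_th (ψ i z / e) : ℝ) : ℂ) * gr χ₂ z) with hE2
  have t1 : Tendsto (fun i => eLpNorm (E1 i) 2 volume) atTop (𝓝 0) := by
    have b : ∀ i, eLpNorm (E1 i) 2 volume ≤ ENNReal.ofReal (M / e) * eLpNorm (fun z => V z - gr (φ (ns i)) z) 2 volume := by
      intro i
      refine eLpNorm_le_mul_eLpNorm_of_ae_le_mul (Eventually.of_forall fun z => ?_) 2
      obtain ⟨b0, b1⟩ := hχ₂.bd z
      obtain ⟨d0, d1⟩ := hκ01 z
      have hM' := hM (ψ i z / e)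
      have e1 : ‖E1 i z‖ = (κ z * (1 - χ₂ z)) * ((|deriv kcut1_th (ψ i z / e)| / e) * ‖V z - gr (φ (ns i)) z‖) := by
        rw [hE1]
        simp only [norm_mul, Complex.norm_real, Real.norm_eq_abs, abs_div]
        rw [abs_of_nonneg d0, abs_of_nonneg (show (0:ℝ) ≤ 1 - χ₂ z by linarith), abs_of_pos he0, norm_sub_rev]
        ring
      rw [e1]
      have p2 : κ z * (1 - χ₂ z) ≤ 1 := by nlinarith
      have p3 : 0 ≤ κ z * (1 - χ₂ z) := mul_nonneg d0 (by linarith)
      have p4 : |deriv kcut1_th (ψ i z / e)| / e ≤ M / e := div_le_div_of_nonneg_right hM' he0.le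
      have p5 : 0 ≤ |deriv kcut1_th (ψ i z / e)| / e * ‖V z - gr (φ (ns i)) z‖ := by positivity
      calc (κ z * (1 - χ₂ z)) * ((|deriv kcut1_th (ψ i z / e)| / e) * ‖V z - gr (φ (ns i)) z‖)
          ≤ 1 * ((|deriv kcut1_th (ψ i z / e)| / e) * ‖V z - gr (φ (ns i)) z‖) := mul_le_mul_of_nonneg_right p2 p5
        _ = (|deriv kcut1_th (ψ i z / e)| / e) * ‖V z - gr (φ (ns i)) z‖ := one_mul _
        _ ≤ M / e * ‖V z - gr (φ (ns i)) z‖ := mul_le_mul_of_nonneg_right p4 (norm_nonneg _)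
    have l4 : Tendsto (fun i => ENNReal.ofReal (M / e) * eLpNorm (fun z => V z - gr (φ (ns i)) z) 2 volume) atTop (𝓝 0) := by
      have := ENNReal.Tendsto.const_mul (a := ENNReal.ofReal (M / e)) (l3.comp hns.tendsto_atTop)
        (Or.inr ENNReal.ofReal_ne_top)
      simpa [Function.comp_def] using this
    exact tendsto_of_tendsto_of_tendsto_of_le_of_le tendsto_const_nhds l4 (fun _ => bot_le) b
  have hE1m : ∀ i, AEStronglyMeasurable (E1 i) volume := by
    intro i
    have a5 : AEStronglyMeasurable (fun z => ((deriv kcut1_th (ψ i z / e) / e : ℝ) : ℂ)) volume :=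
      (Complex.continuous_ofReal.comp ((kcut1_dth_cont.comp ((hψs i).continuous.div_const e)).div_const e)).aestronglyMeasurable
    exact hκmC.mul (a4.mul (a5.mul ((kcut1_gr_cont (hφ1 (ns i)).1).aestronglyMeasurable.sub hH.mU.1)))
  have hE2m : ∀ i, AEStronglyMeasurable (E2 i) volume := by
    intro i
    have a5 : AEStronglyMeasurable (fun z => (((deriv kcut1_th (ψ i z / e) - deriv kcut1_th ((χ z + v z) / e)) / e : ℝ) : ℂ)) volume :=
      (Complex.continuous_ofReal.comp (continuous_id.div_const e)).comp_aestronglyMeasurable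
        ((kcut1_dth_cont.comp_aestronglyMeasurable (hψm i)).sub (kcut1_dth_cont.comp_aestronglyMeasurable hkem))
    have a6 : AEStronglyMeasurable (fun z => ((kcut1_th ((χ z + v z) / e) - kcut1_th (ψ i z / e) : ℝ) : ℂ)) volume :=
      Complex.continuous_ofReal.comp_aestronglyMeasurable
        ((kcut1_th_cont.comp_aestronglyMeasurable hkem).sub (kcut1_th_cont.comp_aestronglyMeasurable (hψm i)))
    exact hκmC.mul ((a4.mul (a5.mul mK.1)).add (a6.mul mχ₂.1))
  have t2 : Tendsto (fun i => eLpNorm (E2 i) 2 volume) atTop (𝓝 0) := by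
    refine kcut1_dct (g := fun z => (2 * M / e) * ‖gr χ z + V z‖ + ‖gr χ₂ z‖) hE2m
      ((mK.norm.const_mul _).add mχ₂.norm) (fun i => Eventually.of_forall fun z => ?_) ?_
    · obtain ⟨b0, b1⟩ := hχ₂.bd z
      obtain ⟨d0, d1⟩ := hκ01 z
      have x1 := hM (ψ i z / e)
      have x2 := hM ((χ z + v z) / e)
      have y1 := kcut1_th_le ((χ z + v z) / e)
      have y2 := kcut1_th_nonneg ((χ z + v z) / e)
      have y3 := kcut1_th_le (ψ i z / e)
      have y4 := kcut1_th_nonneg (ψ i z / e)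
      have x3 : |deriv kcut1_th (ψ i z / e) - deriv kcut1_th ((χ z + v z) / e)| ≤ 2 * M :=
        (abs_sub _ _).trans (by linarith)
      have y5 : |kcut1_th ((χ z + v z) / e) - kcut1_th (ψ i z / e)| ≤ 1 := by
        rw [abs_le]; constructor <;> linarith
      rw [hE2]
      simp only []
      rw [norm_mul, Complex.norm_real, Real.norm_eq_abs, abs_of_nonneg d0]
      have n1 : ‖((1 - χ₂ z : ℝ) : ℂ) * ((((deriv kcut1_th (ψ i z / e) - deriv kcut1_th ((χ z + v z) / e)) / e : ℝ) : ℂ) * (gr χ z + V z))‖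
          ≤ (2 * M / e) * ‖gr χ z + V z‖ := by
        simp only [norm_mul, Complex.norm_real, Real.norm_eq_abs, abs_div]
        rw [abs_of_nonneg (show (0:ℝ) ≤ 1 - χ₂ z by linarith), abs_of_pos he0]
        have p4 : |deriv kcut1_th (ψ i z / e) - deriv kcut1_th ((χ z + v z) / e)| / e ≤ 2 * M / e :=
          div_le_div_of_nonneg_right x3 he0.le
        calc (1 - χ₂ z) * (|deriv kcut1_th (ψ i z / e) - deriv kcut1_th ((χ z + v z) / e)| / e * ‖gr χ z + V z‖)
            ≤ 1 * (|deriv kcut1_th (ψ i z / e) - deriv kcut1_th ((χ z + v z) / e)| / e * ‖gr χ z + V z‖) :=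
              mul_le_mul_of_nonneg_right (by linarith) (by positivity)
          _ ≤ (2 * M / e) * ‖gr χ z + V z‖ := by
              rw [one_mul]; exact mul_le_mul_of_nonneg_right p4 (norm_nonneg _)
      have n2 : ‖((kcut1_th ((χ z + v z) / e) - kcut1_th (ψ i z / e) : ℝ) : ℂ) * gr χ₂ z‖ ≤ ‖gr χ₂ z‖ := by
        rw [norm_mul, Complex.norm_real, Real.norm_eq_abs]
        calc |kcut1_th ((χ z + v z) / e) - kcut1_th (ψ i z / e)| * ‖gr χ₂ z‖ ≤ 1 * ‖gr χ₂ z‖ :=
              mul_le_mul_of_nonneg_right y5 (norm_nonneg _)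
          _ = ‖gr χ₂ z‖ := one_mul _
      have n3 := (norm_add_le _ _).trans (add_le_add n1 n2)
      calc κ z * ‖((1 - χ₂ z : ℝ) : ℂ) * ((((deriv kcut1_th (ψ i z / e) - deriv kcut1_th ((χ z + v z) / e)) / e : ℝ) : ℂ) * (gr χ z + V z)) +
            ((kcut1_th ((χ z + v z) / e) - kcut1_th (ψ i z / e) : ℝ) : ℂ) * gr χ₂ z‖
          ≤ 1 * ‖((1 - χ₂ z : ℝ) : ℂ) * ((((deriv kcut1_th (ψ i z / e) - deriv kcut1_th ((χ z + v z) / e)) / e : ℝ) : ℂ) * (gr χ z + V z)) +
            ((kcut1_th ((χ z + v z) / e) - kcut1_th (ψ i z / e) : ℝ) : ℂ) * gr χ₂ z‖ :=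
            mul_le_mul_of_nonneg_right d1 (norm_nonneg _)
        _ ≤ _ := by rw [one_mul]; exact n3
    · filter_upwards [hψl] with z hz
      have u1 : Tendsto (fun i => deriv kcut1_th (ψ i z / e)) atTop (𝓝 (deriv kcut1_th ((χ z + v z) / e))) :=
        (kcut1_dth_cont.tendsto _).comp hz
      have u2 : Tendsto (fun i => kcut1_th (ψ i z / e)) atTop (𝓝 (kcut1_th ((χ z + v z) / e))) :=
        (kcut1_th_cont.tendsto _).comp hz
      have u3 : Tendsto (fun i => (((deriv kcut1_th (ψ i z / e) - deriv kcut1_th ((χ z + v z) / e)) / e : ℝ) : ℂ)) atTop (𝓝 (((deriv kcut1_th ((χ z + v z) / e) - deriv kcut1_th ((χ z + v z) / e)) / e : ℝ) : ℂ)) :=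
        (Complex.continuous_ofReal.tendsto _).comp ((u1.sub_const _).div_const e)
      have u4 : Tendsto (fun i => ((kcut1_th ((χ z + v z) / e) - kcut1_th (ψ i z / e) : ℝ) : ℂ)) atTop (𝓝 ((kcut1_th ((χ z + v z) / e) - kcut1_th ((χ z + v z) / e) : ℝ) : ℂ)) :=
        (Complex.continuous_ofReal.tendsto _).comp (u2.const_sub _)
      have u5 := ((((u3.mul_const (gr χ z + V z)).const_mul ((1 - χ₂ z : ℝ) : ℂ)).add (u4.mul_const (gr χ₂ z))).const_mul (κ z : ℂ))
      have e0 : (κ z : ℂ) * (((1 - χ₂ z : ℝ) : ℂ) * ((((deriv kcut1_th ((χ z + v z) / e) - deriv kcut1_th ((χ z + v z) / e)) / e : ℝ) : ℂ) * (gr χ z + V z)) +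
          ((kcut1_th ((χ z + v z) / e) - kcut1_th ((χ z + v z) / e) : ℝ) : ℂ) * gr χ₂ z) = 0 := by simp
      rw [e0] at u5
      exact u5
  have t5 : Tendsto (fun i => eLpNorm (fun z => (1 - χ₂ z) * (kcut1_th ((χ z + v z) / e) - kcut1_th (ψ i z / e))) 2 (volume.restrict G))
      atTop (𝓝 0) := by
    have m1 : MemLp (fun z => 1 - χ₂ z) 2 (volume.restrict G) := by
      refine MemLp.restrict G ?_
      refine (continuous_const.sub hχ₂.smooth.continuous).memLp_of_hasCompactSupport ?_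
      exact HasCompactSupport.intro (isCompact_closedBall (0:ℂ) (3/4)) (fun z hz => by
        have e3 := hχ₂.one z (by simp at hz; linarith)
        simp [e3])
    refine kcut1_dct (g := fun z => 1 - χ₂ z) (fun i => ?_) m1 (fun i => ?_) ?_
    · refine AEStronglyMeasurable.mono_measure ?_ Measure.restrict_le_self
      exact (continuous_const.sub hχ₂.smooth.continuous).aestronglyMeasurable.mul
        ((kcut1_th_cont.comp_aestronglyMeasurable hkem).sub (kcut1_th_cont.comp_aestronglyMeasurable (hψm i)))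
    · filter_upwards with z
      obtain ⟨b0, b1⟩ := hχ₂.bd z
      have y1 := kcut1_th_le ((χ z + v z) / e)
      have y2 := kcut1_th_nonneg ((χ z + v z) / e)
      have y3 := kcut1_th_le (ψ i z / e)
      have y4 := kcut1_th_nonneg (ψ i z / e)
      have y5 : |kcut1_th ((χ z + v z) / e) - kcut1_th (ψ i z / e)| ≤ 1 := by
        rw [abs_le]; constructor <;> linarith
      rw [Real.norm_eq_abs, abs_mul, abs_of_nonneg (show (0:ℝ) ≤ 1 - χ₂ z by linarith)]
      nlinarith [abs_nonneg (kcut1_th ((χ z + v z) / e) - kcut1_th (ψ i z / e))]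
    · filter_upwards [ae_restrict_of_ae hψl] with z hz
      have u2 : Tendsto (fun i => kcut1_th (ψ i z / e)) atTop (𝓝 (kcut1_th ((χ z + v z) / e))) :=
        (kcut1_th_cont.tendsto _).comp hz
      have u5 := (u2.const_sub (kcut1_th ((χ z + v z) / e))).const_mul (1 - χ₂ z)
      have e0 : (1 - χ₂ z) * (kcut1_th ((χ z + v z) / e) - kcut1_th ((χ z + v z) / e)) = 0 := by ring
      rw [e0] at u5
      exact u5
  have t12 : Tendsto (fun i => eLpNorm (E1 i) 2 volume + eLpNorm (E2 i) 2 volume) atTop (𝓝 0) := by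
    have := t1.add t2
    simpa using this
  obtain ⟨i, hi1, hi2⟩ := (((tendsto_order.1 t12).2 _ hε2).and ((tendsto_order.1 t5).2 _ hε2)).exists
  -- the cutoff function
  have hτs : ContDiff ℝ (⊤ : ℕ∞) (fun z => (1 - χ₂ z) * kcut1_th (ψ i z / e) + χ₂ z) :=
    ((contDiff_const.sub hχ₂.smooth).mul (kcut1_th_smooth.comp ((hψs i).div_const e))).add hχ₂.smooth
  have hτ1 : ∀ z : ℂ, 3 / 4 ≤ ‖z‖ → (1 - χ₂ z) * kcut1_th (ψ i z / e) + χ₂ z = 1 := fun z hz => by
    rw [hχ₂.one z hz]; ring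
  have hgr : ∀ z, gr (fun z => (1 - χ₂ z) * kcut1_th (ψ i z / e) + χ₂ z) z =
      ((1 - χ₂ z : ℝ) : ℂ) * (((deriv kcut1_th (ψ i z / e) / e : ℝ) : ℂ) * gr (ψ i) z) +
        ((1 - kcut1_th (ψ i z / e) : ℝ) : ℂ) * gr χ₂ z := fun z =>
    kcut1_grtau (hχ₂.smooth.differentiable (by simp)) ((hψs i).differentiable (by simp)) z
  have hgrψ : ∀ z, gr (ψ i) z = gr χ z + gr (φ (ns i)) z := fun z =>
    kcut1_gr_add ((hχ.smooth.differentiable (by simp)) z) (((hφ1 (ns i)).1.differentiable (by simp)) z)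
  have hmem : MemLp (gr (fun z => (1 - χ₂ z) * kcut1_th (ψ i z / e) + χ₂ z)) 2 volume := by
    refine (kcut1_gr_cont hτs).memLp_of_hasCompactSupport
      (HasCompactSupport.intro (isCompact_closedBall (0:ℂ) (3/4)) (fun z hz => ?_))
    have hz' : 3 / 4 < ‖z‖ := by simpa using hz
    refine kcut1_gr_zero (c := 1) ?_
    filter_upwards [(isOpen_lt continuous_const continuous_norm).mem_nhds hz'] with w hw
    exact hτ1 w (le_of_lt hw)
  refine ⟨fun z => (1 - χ₂ z) * kcut1_th (ψ i z / e) + χ₂ z, hτs, fun z => ?_, ?_, hτ1, ?_, ?_, ?_⟩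
  · obtain ⟨b0, b1⟩ := hχ₂.bd z
    have y3 := kcut1_th_le (ψ i z / e)
    have y4 := kcut1_th_nonneg (ψ i z / e)
    constructor <;> nlinarith
  · have hcl : IsClosed (tsupport (φ (ns i)) ∪ {z : ℂ | 5 / 8 ≤ ‖z‖}) :=
      (isClosed_tsupport _).union (isClosed_le continuous_const continuous_norm)
    have hsub : tsupport (fun z => (1 - χ₂ z) * kcut1_th (ψ i z / e) + χ₂ z) ⊆ tsupport (φ (ns i)) ∪ {z : ℂ | 5 / 8 ≤ ‖z‖} := by
      refine closure_minimal ?_ hcl
      intro z hz
      by_contra hc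
      rw [mem_union, not_or] at hc
      obtain ⟨c1, c2⟩ := hc
      have c2' : ‖z‖ < 5 / 8 := not_le.1 c2
      apply hz
      have e1 : φ (ns i) z = 0 := image_eq_zero_of_notMem_tsupport c1
      have e2 : ψ i z = 0 := by
        rw [hψ]; simp only []
        rw [e1, hχ.zero z (by linarith)]; ring
      simp only []
      rw [e2, zero_div, kcut1_th_zero (by norm_num), hχ₂.zero z c2'.le]; ring
    rw [Set.disjoint_compl_right_iff_subset]
    refine hsub.trans (union_subset ((hφ1 (ns i)).2.2.trans inter_subset_left) ?_)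
    intro z hz
    exact hP.ext z (by
      have : 5 / 8 ≤ ‖z‖ := hz
      linarith)
  · refine hmem.of_le (hκmC.mul hmem.1) (Eventually.of_forall fun z => ?_)
    obtain ⟨d0, d1⟩ := hκ01 z
    rw [norm_mul, Complex.norm_real, Real.norm_eq_abs, abs_of_nonneg d0]
    calc κ z * ‖gr (fun z => (1 - χ₂ z) * kcut1_th (ψ i z / e) + χ₂ z) z‖
        ≤ 1 * ‖gr (fun z => (1 - χ₂ z) * kcut1_th (ψ i z / e) + χ₂ z) z‖ :=
          mul_le_mul_of_nonneg_right d1 (norm_nonneg _)
      _ = _ := one_mul _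
  · have hdec : (fun z => (κ z : ℂ) * gr (fun z => (1 - χ₂ z) * kcut1_th (ψ i z / e) + χ₂ z) z) =
        (fun z => (κ z : ℂ) * Y e z) + (E1 i + E2 i) := by
      funext z
      simp only [Pi.add_apply]
      rw [hgr z, hgrψ z, hY, hE1, hE2]
      simp only []
      push_cast
      ring
    rw [hdec]
    have z1 : eLpNorm (E1 i + E2 i) 2 volume < ENNReal.ofReal ε / 2 :=
      lt_of_le_of_lt (eLpNorm_add_le (hE1m i) (hE2m i) (by norm_num)) hi1
    exact kcut1_half (eLpNorm_add_le (hκmC.mul (hYm _)) ((hE1m i).add (hE2m i)) (by norm_num)) hm3 z1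
  · have hdec : (fun z => 1 - ((1 - χ₂ z) * kcut1_th (ψ i z / e) + χ₂ z)) =
        (fun z => (1 - χ₂ z) * (1 - kcut1_th ((χ z + v z) / e))) +
          (fun z => (1 - χ₂ z) * (kcut1_th ((χ z + v z) / e) - kcut1_th (ψ i z / e))) := by
      funext z
      simp only [Pi.add_apply]
      ring
    rw [hdec]
    have w1 : AEStronglyMeasurable (fun z => 1 - χ₂ z) volume :=
      (continuous_const.sub hχ₂.smooth.continuous).aestronglyMeasurable
    have w2 : AEStronglyMeasurable (fun z => (1 - χ₂ z) * (1 - kcut1_th ((χ z + v z) / e))) volume :=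
      w1.mul ((continuous_const.sub kcut1_th_cont).comp_aestronglyMeasurable hkem)
    have w3 : AEStronglyMeasurable (fun z => (1 - χ₂ z) * (kcut1_th ((χ z + v z) / e) - kcut1_th (ψ i z / e))) volume :=
      w1.mul ((kcut1_th_cont.comp_aestronglyMeasurable hkem).sub (kcut1_th_cont.comp_aestronglyMeasurable (hψm i)))
    refine kcut1_half ?_ hm4 hi2
    exact eLpNorm_add_le (w2.mono_measure Measure.restrict_le_self) (w3.mono_measure Measure.restrict_le_self) (by norm_num)

end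

end Cal
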