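import Pool.Agent.Lib.MP_4ea4c7_an.StmH2

/-! Piece kcut2: the sequence of cutoffs. -/

open MeasureTheory Complex Metric Set Filter Topology
open scoped ComplexConjugate ENNReal NNReal

namespace Cal

theorem piece_kcut2 : S_kcut2 := by
  intro G κ _ hyp
  have hpos : ∀ m : ℕ, (0 : ℝ) < 1 / ((m : ℝ) + 1) := fun m => by positivity
  choose τ h1 h2 h3 h4 h5 h6 h7 using fun m : ℕ => hyp (1 / ((m : ℝ) + 1)) (hpos m)
  have hlim : Tendsto (fun m : ℕ => ENNReal.ofReal (1 / ((m : ℝ) + 1))) atTop (𝓝 0) := by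
    have := ENNReal.tendsto_ofReal (tendsto_one_div_add_atTop_nhds_zero_nat (𝕜 := ℝ))
    simpa using this
  have hA : Tendsto (fun m => eLpNorm (fun z => (κ z : ℂ) * gr (τ m) z) 2 volume) atTop (𝓝 0) :=
    tendsto_of_tendsto_of_tendsto_of_le_of_le tendsto_const_nhds hlim (fun _ => zero_le) fun m => (h6 m).le
  have hB : Tendsto (fun m => eLpNorm ((fun z => 1 - τ m z) - (fun _ => (0 : ℝ))) 2 (volume.restrict G)) atTop (𝓝 0) := by
    refine tendsto_of_tendsto_of_tendsto_of_le_of_le tendsto_const_nhds hlim (fun _ => zero_le) fun m => ?_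
    refine le_trans (le_of_eq ?_) (h7 m).le
    congr 1
    funext z
    simp
  have hm : TendstoInMeasure (volume.restrict G) (fun m z => 1 - τ m z) atTop (fun _ => (0 : ℝ)) :=
    tendstoInMeasure_of_tendsto_eLpNorm (by norm_num)
      (fun m => (continuous_const.sub (h1 m).continuous).aestronglyMeasurable) aestronglyMeasurable_const hB
  obtain ⟨ns, hns, hae⟩ := hm.exists_seq_tendsto_ae
  refine ⟨fun m => τ (ns m), fun m => h1 _, fun m => h2 _, fun m => h3 _, fun m => h4 _, ?_, fun m => h5 _,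
    hA.comp hns.tendsto_atTop⟩
  filter_upwards [hae] with z hz
  have := (tendsto_const_nhds (x := (1 : ℝ))).sub hz
  simpa using this

end Cal
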