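import Pool.Agent.Lib.MP_4ea4c7_an.StmH2

/-!
# MP_4ea4c7_an: piece kgeo
-/

open MeasureTheory Complex Metric Set Filter Topology
open scoped ComplexConjugate ENNReal NNReal

namespace Cal

/-- the argument of the smooth transition -/
noncomputable def kgeo_s (a b : ℝ) (z : ℂ) : ℝ := (z.re ^ 2 + z.im ^ 2 - a ^ 2) / (b ^ 2 - a ^ 2)

theorem kgeo_hs (a b : ℝ) (z : ℂ) :
    HasFDerivAt (kgeo_s a b) ((b ^ 2 - a ^ 2)⁻¹ • ((2 * z.re) • reCLM + (2 * z.im) • imCLM)) z := by
  have h1 : HasFDerivAt (fun w : ℂ => w.re) reCLM z := reCLM.hasFDerivAt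
  have h2 : HasFDerivAt (fun w : ℂ => w.im) imCLM z := imCLM.hasFDerivAt
  have h3 := ((h1.pow 2).add (h2.pow 2)).sub_const (a ^ 2)
  have h4 := h3.const_smul ((b ^ 2 - a ^ 2)⁻¹)
  have e1 : kgeo_s a b = fun w : ℂ => (b ^ 2 - a ^ 2)⁻¹ • (w.re ^ 2 + w.im ^ 2 - a ^ 2) := by
    funext w
    simp only [kgeo_s, smul_eq_mul, div_eq_inv_mul]
  rw [e1]
  refine h4.congr_fderiv ?_
  simp only [Nat.add_one_sub_one, pow_one, nsmul_eq_mul, Nat.cast_ofNat]

theorem kgeo_cs (a b : ℝ) : ContDiff ℝ (⊤ : ℕ∞) (kgeo_s a b) := by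
  unfold kgeo_s
  have h1 : ContDiff ℝ (⊤ : ℕ∞) (fun w : ℂ => w.re) := reCLM.contDiff
  have h2 : ContDiff ℝ (⊤ : ℕ∞) (fun w : ℂ => w.im) := imCLM.contDiff
  exact (((h1.pow 2).add (h2.pow 2)).sub contDiff_const).div_const _

theorem kgeo_norm (z : ℂ) : z.re ^ 2 + z.im ^ 2 = ‖z‖ ^ 2 := by
  rw [← Complex.normSq_eq_norm_sq, Complex.normSq_apply]
  ring

theorem kgeo_gr (a b : ℝ) (z : ℂ) :
    gr (fun w => Real.smoothTransition (kgeo_s a b w)) z =
      ((deriv Real.smoothTransition (kgeo_s a b z) * (b ^ 2 - a ^ 2)⁻¹ * 2 : ℝ) : ℂ) * z := by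
  have hT : DifferentiableAt ℝ Real.smoothTransition (kgeo_s a b z) :=
    (Real.smoothTransition.contDiff (n := 1)).differentiable (by norm_num) _
  have h := hT.hasDerivAt.comp_hasFDerivAt z (kgeo_hs a b z)
  have h' : fderiv ℝ (fun w => Real.smoothTransition (kgeo_s a b w)) z = _ := h.fderiv
  unfold gr
  rw [h']
  apply Complex.ext
  · simp
    ring
  · simp
    ring

theorem kgeo_d0 {x : ℝ} (hx : x ≤ 0) : deriv Real.smoothTransition x = 0 := by
  have : IsLocalMin Real.smoothTransition x := by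
    refine Filter.Eventually.of_forall fun y => ?_
    show Real.smoothTransition x ≤ Real.smoothTransition y
    rw [Real.smoothTransition.zero_of_nonpos hx]
    exact Real.smoothTransition.nonneg y
  exact this.deriv_eq_zero

theorem kgeo_d1 {x : ℝ} (hx : 1 ≤ x) : deriv Real.smoothTransition x = 0 := by
  have : IsLocalMax Real.smoothTransition x := by
    refine Filter.Eventually.of_forall fun y => ?_
    show Real.smoothTransition y ≤ Real.smoothTransition x
    rw [Real.smoothTransition.one_of_one_le hx]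
    exact Real.smoothTransition.le_one y
  exact this.deriv_eq_zero

theorem kgeo_rc (a b : ℝ) (ha : 0 < a) (hab : a < b) : ∃ χ : ℂ → ℝ, RC a b χ := by
  have hpos : 0 < b ^ 2 - a ^ 2 := by nlinarith
  have hlo : ∀ z : ℂ, ‖z‖ ≤ a → kgeo_s a b z ≤ 0 := by
    intro z hz
    unfold kgeo_s
    rw [kgeo_norm]
    apply div_nonpos_of_nonpos_of_nonneg _ hpos.le
    have := norm_nonneg z
    nlinarith
  have hhi : ∀ z : ℂ, b ≤ ‖z‖ → 1 ≤ kgeo_s a b z := by
    intro z hz
    unfold kgeo_s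
    rw [kgeo_norm, le_div_iff₀ hpos]
    nlinarith
  have hg0 : ∀ z : ℂ, ‖z‖ ≤ a → gr (fun w => Real.smoothTransition (kgeo_s a b w)) z = 0 := by
    intro z hz
    rw [kgeo_gr, kgeo_d0 (hlo z hz)]
    simp
  have hg1 : ∀ z : ℂ, b ≤ ‖z‖ → gr (fun w => Real.smoothTransition (kgeo_s a b w)) z = 0 := by
    intro z hz
    rw [kgeo_gr, kgeo_d1 (hhi z hz)]
    simp
  refine ⟨fun w => Real.smoothTransition (kgeo_s a b w), ?_, ?_, ?_, ?_, ?_, hg0, hg1, ?_⟩
  · exact (Real.smoothTransition.contDiff (n := ⊤)).comp (kgeo_cs a b)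
  · intro z
    exact ⟨Real.smoothTransition.nonneg _, Real.smoothTransition.le_one _⟩
  · intro z hz
    exact Real.smoothTransition.zero_of_nonpos (hlo z hz)
  · intro z hz
    exact Real.smoothTransition.one_of_one_le (hhi z hz)
  · intro z
    rw [kgeo_gr]
    unfold ip
    rw [mul_assoc, Complex.mul_conj, ← Complex.ofReal_mul, Complex.ofReal_re]
    have h1 : 0 ≤ deriv Real.smoothTransition (kgeo_s a b z) := Real.smoothTransition.monotone.deriv_nonneg
    have h2 := Complex.normSq_nonneg z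
    have h3 : 0 ≤ (b ^ 2 - a ^ 2)⁻¹ := by positivity
    positivity
  · have hc : Continuous (fun z : ℂ => gr (fun w => Real.smoothTransition (kgeo_s a b w)) z) := by
      have h1 : Continuous (deriv Real.smoothTransition) :=
        (Real.smoothTransition.contDiff (n := 1)).continuous_deriv (by norm_num)
      have h2 : Continuous (kgeo_s a b) := (kgeo_cs a b).continuous
      simp_rw [kgeo_gr]
      exact (Complex.continuous_ofReal.comp (((h1.comp h2).mul continuous_const).mul continuous_const)).mul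
        continuous_id
    obtain ⟨M, hM⟩ := (isCompact_closedBall (0 : ℂ) b).exists_bound_of_continuousOn hc.continuousOn
    refine ⟨M, fun z => ?_⟩
    rcases le_total ‖z‖ b with h | h
    · exact hM z (by simpa using h)
    · rw [hg1 z h, norm_zero]
      refine (norm_nonneg _).trans (hM (0 : ℂ) ?_)
      simp only [mem_closedBall, dist_self]
      linarith

theorem piece_kgeo : S_kgeo := by
  refine ⟨kgeo_rc, fun a ha => ?_⟩
  have h : {z : ℂ | a < ‖z‖} = (fun p : ℝ × ℝ => (p.1 : ℂ) * exp (p.2 * I)) '' (Ioi a ×ˢ univ) := by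
    ext z
    constructor
    · intro hz
      refine ⟨(‖z‖, arg z), ⟨hz, mem_univ _⟩, ?_⟩
      exact Complex.norm_mul_exp_arg_mul_I z
    · rintro ⟨⟨t, θ⟩, ⟨ht, -⟩, rfl⟩
      simp only [mem_Ioi] at ht
      simp only [mem_ofPred_eq, norm_mul, Complex.norm_exp_ofReal_mul_I, mul_one, Complex.norm_real,
        Real.norm_eq_abs]
      exact lt_of_lt_of_le ht (le_abs_self t)
  rw [h]
  refine IsConnected.image ?_ _ ?_
  · exact isConnected_Ioi.prod isConnected_univ
  · apply Continuous.continuousOn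
    fun_prop

end Cal
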