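import Pool.Agent.Lib.MP_4ea4c7_an.StmH2

/-! Piece kharn (helper26): nonnegative solutions are positive or zero. -/

open MeasureTheory Complex Metric Set Filter Topology
open scoped ComplexConjugate ENNReal NNReal

namespace Cal

noncomputable section

theorem kharn_local (h1 : S_kcalc) (h2 : S_kmp) (h3 : S_klog) (h4 : S_acl)
    (c C : ℝ) (γ : ℂ → ℝ) (V : Set ℂ) (u : ℂ → ℝ) (U : ℂ → ℂ) (hc : 0 < c) (hγ : Cond c C γ)
    (hV : IsOpen V) (hu : ContinuousOn u V) (hu0 : ∀ z ∈ V, 0 ≤ u z) (hW : WG V u U)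
    (hS : WSol V γ U) (z0 : ℂ) (hz0 : u z0 = 0) (r : ℝ) (hr : 0 < r)
    (hsub : closedBall z0 (2 * r) ⊆ V) :
    ∀ z ∈ closedBall z0 (r / 2), u z = 0 := by
  obtain ⟨k1, k2, k3, k4, k5, k6, k7, k8, k9⟩ := h1 V hV
  have hbV : ball z0 r ⊆ V := fun z hz => hsub (by
    rw [mem_closedBall]; rw [mem_ball] at hz; linarith)
  have hcV : ∀ s : ℝ, s ≤ 2 * r → closedBall z0 s ⊆ V := fun s hs z hz => hsub (by
    rw [mem_closedBall] at hz ⊢; linarith)
  -- the cutoff
  let b : ContDiffBump z0 := ⟨r, 2 * r, hr, by linarith⟩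
  have hη : RTF V (fun z => b z) := by
    refine ⟨b.contDiff, b.hasCompactSupport, ?_⟩
    have := b.tsupport_eq
    rw [show tsupport (fun z => b z) = closedBall z0 (2 * r) from this]
    exact hsub
  set M : ℝ := 4 * C / c * ∫ z, ‖gr (fun z => b z) z‖ ^ 2 with hM
  -- the mirror solution
  have hWm := k1 u u U U (-2) hW hW
  have hSm : WSol V γ (fun z => U z + ((-2 : ℝ) : ℂ) * U z) := by
    intro φ hφ
    have h := hS φ hφ
    have : (fun z => γ z * ip (U z + ((-2 : ℝ) : ℂ) * U z) (gr φ z)) = fun z => -(γ z * ip (U z) (gr φ z)) := by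
      funext z
      have : U z + ((-2 : ℝ) : ℂ) * U z = -U z := by push_cast; ring
      rw [this]
      simp only [ip, mul_re, neg_re, neg_im, conj_re, conj_im]
      ring
    rw [this, integral_neg, h, neg_zero]
  have hum : ContinuousOn (fun z => u z + (-2) * u z) V := hu.add (continuousOn_const.mul hu)
  have hmax := h2 c C γ V u U hc hγ hV hu hW hS
  have hmin := h2 c C γ V _ _ hc hγ hV hum hWm hSm
  have key : ∀ e : ℝ, 0 < e → ∀ z ∈ closedBall z0 (r / 2),
      u z + e ≤ Real.exp (8 * Real.sqrt (M / Real.log 2)) * e := by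
    intro e he z hz
    have hpos : ∀ z ∈ V, 0 < u z + e := fun z hz => by linarith [hu0 z hz]
    have hT : ContDiffOn ℝ 1 (fun t : ℝ => Real.log (t + e)) (Ioi (-e)) := by
      apply ContDiffOn.log
      · exact (contDiff_id.add contDiff_const).contDiffOn
      · intro t ht
        have : -e < t := ht
        exact ne_of_gt (by simpa using (by linarith : 0 < t + e))
    have hderiv : ∀ t : ℝ, -e < t → deriv (fun t : ℝ => Real.log (t + e)) t = 1 / (t + e) := by
      intro t ht
      have h0 : t + e ≠ 0 := by linarith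
      have : HasDerivAt (fun t : ℝ => Real.log (t + e)) (1 / (t + e)) t := by
        have h := (((hasDerivAt_id t).add_const e).log h0)
        simpa using h
      exact this.deriv
    have hL := k9 u U (Ioi (-e)) (fun t => Real.log (t + e)) hW hu isOpen_Ioi
      (fun z hz => by have := hu0 z hz; show -e < u z; linarith) hT
    have hLc : ContinuousOn (fun z => Real.log (u z + e)) V :=
      (hu.add continuousOn_const).log (fun z hz => ne_of_gt (hpos z hz))
    obtain ⟨hI, hE⟩ := h3 c C γ V u U (fun z => b z) e hc hγ hV hu hu0 hW hS hη he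
    have heq : ∀ z ∈ ball z0 r, ‖((deriv (fun t : ℝ => Real.log (t + e)) (u z) : ℝ) : ℂ) * U z‖ ^ 2
        = b z ^ 2 * ‖U z‖ ^ 2 / (u z + e) ^ 2 := by
      intro z hz
      have hzV := hbV hz
      have h0 := hpos z hzV
      rw [hderiv (u z) (by linarith), b.one_of_mem_closedBall (ball_subset_closedBall hz), norm_mul,
        Complex.norm_real, Real.norm_eq_abs, abs_of_pos (by positivity)]
      field_simp
    have hIb : IntegrableOn (fun z => ‖((deriv (fun t : ℝ => Real.log (t + e)) (u z) : ℝ) : ℂ) * U z‖ ^ 2)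
        (ball z0 r) volume := by
      refine (hI.mono_set hbV).congr_fun (fun z hz => (heq z hz).symm) measurableSet_ball
    have hbound : ∫ z in ball z0 r, ‖((deriv (fun t : ℝ => Real.log (t + e)) (u z) : ℝ) : ℂ) * U z‖ ^ 2 ≤ M := by
      rw [setIntegral_congr_fun measurableSet_ball heq]
      have h5 : ∫ z in ball z0 r, b z ^ 2 * ‖U z‖ ^ 2 / (u z + e) ^ 2 ≤ ∫ z in V, b z ^ 2 * ‖U z‖ ^ 2 / (u z + e) ^ 2 := by
        apply setIntegral_mono_set hI
        · exact Filter.Eventually.of_forall (fun z => by positivity)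
        · exact Filter.Eventually.of_forall hbV
      refine h5.trans ?_
      rw [hM]
      have h6 : ∫ z in V, b z ^ 2 * ‖U z‖ ^ 2 / (u z + e) ^ 2 ≤ (4 * C * ∫ z, ‖gr (fun z => b z) z‖ ^ 2) / c := by
        rw [le_div_iff₀ hc, mul_comm]
        exact hE
      refine h6.trans (le_of_eq ?_)
      ring
    have hcl := h4 z0 r M (fun z => Real.log (u z + e))
      (fun z => ((deriv (fun t : ℝ => Real.log (t + e)) (u z) : ℝ) : ℂ) * U z) hr
      (hLc.mono hbV) ((h1 V hV).2.2.1 (ball z0 r) _ _ hbV hL) hIb hbound ?_ (r / 2) (by positivity)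
      (by linarith) z hz
    · have hr2 : r / (r / 2) = 2 := by field_simp
      rw [hr2, hz0, zero_add] at hcl
      have h7 : Real.log (u z + e) ≤ 8 * Real.sqrt (M / Real.log 2) + Real.log e := by
        have := (abs_le.mp hcl).2
        linarith
      have hzV : z ∈ V := hcV (r / 2) (by linarith) hz
      calc u z + e = Real.exp (Real.log (u z + e)) := (Real.exp_log (hpos z hzV)).symm
        _ ≤ Real.exp (8 * Real.sqrt (M / Real.log 2) + Real.log e) := Real.exp_le_exp.mpr h7
        _ = _ := by rw [Real.exp_add, Real.exp_log he]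
    · intro s hs hsr w hw
      have hsV : closedBall z0 s ⊆ V := hcV s (by linarith)
      constructor
      · obtain ⟨z', hz', hle⟩ := hmax z0 s hs hsV w hw
        refine ⟨z', hz', ?_⟩
        exact Real.log_le_log (hpos w (hsV hw)) (by linarith)
      · obtain ⟨z', hz', hle⟩ := hmin z0 s hs hsV w hw
        refine ⟨z', hz', ?_⟩
        exact Real.log_le_log (hpos z' (hsV (sphere_subset_closedBall hz'))) (by linarith)
  intro z hz
  have hzV : z ∈ V := hcV (r / 2) (by linarith) hz
  refine le_antisymm ?_ (hu0 z hzV)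
  set K : ℝ := Real.exp (8 * Real.sqrt (M / Real.log 2)) with hK
  by_contra hcon
  have hcon : 0 < u z := not_le.mp hcon
  have hKpos : 0 < K := Real.exp_pos _
  have := key (u z / (2 * K)) (by positivity) z hz
  have h8 : K * (u z / (2 * K)) = u z / 2 := by field_simp
  rw [h8] at this
  have h9 : 0 < u z / (2 * K) := by positivity
  linarith

theorem piece_kharn (h1 : S_kcalc) (h2 : S_kmp) (h3 : S_klog) (h4 : S_acl) : S_kharn := by
  intro c C γ V u U hc hγ hV hVc hu hu0 hW hS hex
  obtain ⟨z0, hz0V, hz0⟩ := hex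
  have hopen : IsOpen {z | z ∈ V ∧ u z = 0} := by
    rw [Metric.isOpen_iff]
    rintro w ⟨hwV, hw⟩
    obtain ⟨s, hs, hsV⟩ := Metric.isOpen_iff.mp hV w hwV
    have hsub : closedBall w (2 * (s / 4)) ⊆ V := by
      intro z hz
      apply hsV
      rw [mem_closedBall] at hz
      rw [mem_ball]
      linarith
    refine ⟨s / 8, by positivity, ?_⟩
    intro z hz
    rw [mem_ball] at hz
    refine ⟨hsV (by rw [mem_ball]; linarith), ?_⟩
    exact kharn_local h1 h2 h3 h4 c C γ V u U hc hγ hV hu hu0 hW hS w hw (s / 4) (by positivity) hsub z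
      (by rw [mem_closedBall]; linarith)
  have hsubset : V ⊆ {z | z ∈ V ∧ u z = 0} := by
    apply hVc.subset_of_closure_inter_subset hopen
    · exact ⟨z0, hz0V, hz0V, hz0⟩
    · rintro z ⟨hzc, hzV⟩
      refine ⟨hzV, ?_⟩
      have h5 : ContinuousWithinAt u {z | z ∈ V ∧ u z = 0} z := (hu z hzV).mono (fun w hw => hw.1)
      have h6 := h5.mem_closure_image hzc
      have h7 : u '' {z | z ∈ V ∧ u z = 0} ⊆ {0} := by
        rintro _ ⟨w, hw, rfl⟩
        exact hw.2
      have h8 := closure_mono h7 h6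
      rw [closure_singleton] at h8
      exact h8
  intro z hz
  exact (hsubset hz).2

end

end Cal
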