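import Pool.Agent.Lib.MP_4ea4c7_an.StmH2

/-!
# [KB6] The continuous representative of the weight
-/

open MeasureTheory Complex Metric Set Filter Topology
open scoped ComplexConjugate ENNReal NNReal

namespace Cal

/-- A continuous function on an open set `O` with values a.e. off the open set `D` has no value in `D`. -/
private lemma khat_open {O : Set ℂ} {k : ℂ → ℝ} {D : Set ℝ} (hO : IsOpen O) (hk : ContinuousOn k O)
    (hD : IsOpen D) (h : ∀ᵐ z ∂(volume.restrict O), k z ∉ D) : ∀ z ∈ O, k z ∉ D := by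
  intro z hz hzD
  have hop : IsOpen (O ∩ k ⁻¹' D) := hk.isOpen_inter_preimage hO hD
  have h0 : volume (O ∩ k ⁻¹' D) = 0 := by
    rw [ae_restrict_iff' hO.measurableSet] at h
    rw [ae_iff] at h
    refine measure_mono_null ?_ h
    rintro w ⟨hw1, hw2⟩
    simp only [mem_setOf_eq, Classical.not_imp, not_not]
    exact ⟨hw1, hw2⟩
  have he := (hop.measure_eq_zero_iff volume).1 h0
  have : z ∈ O ∩ k ⁻¹' D := ⟨hz, hzD⟩
  rw [he] at this
  exact this

theorem piece_khat (h1 : S_bgr) (h2 : S_kcalc) (h3 : S_kH0) (h4 : S_kreg) (h5 : S_kbd)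
    (h6 : S_kharn) (h7 : S_knz) : S_khat := by
  intro Ω G c C γ χ v V hP hc hγ hγ1 hχ hKH
  have hO : IsOpen (G ∩ ball (0 : ℂ) (7 / 8)) := hP.oG.inter isOpen_ball
  have hOc : IsConnected (G ∩ ball (0 : ℂ) (7 / 8)) :=
    h1 G (7 / 8) hP.oG hP.cG hP.ext (by norm_num)
  obtain ⟨c1, c2, -, -, -, -, c7, -, -⟩ := h2 _ hO
  obtain ⟨-, -, c3, -⟩ := h2 univ isOpen_univ
  have hWv : WG (G ∩ ball (0 : ℂ) (7 / 8)) v V :=
    c3 _ v V (subset_univ _) ((h3 _ hO).1 v V hKH.h0).1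
  have hWχ : WG (G ∩ ball (0 : ℂ) (7 / 8)) χ (gr χ) :=
    c7 χ ((hχ.smooth.of_le (by exact_mod_cast le_top)).contDiffOn)
  have hWu : WG (G ∩ ball (0 : ℂ) (7 / 8)) (fun z => χ z + v z) (fun z => gr χ z + V z) := by
    have := c1 χ v (gr χ) V 1 hWχ hWv
    simpa using this
  have hg1 : ∀ z : ℂ, 3 / 4 < ‖z‖ → γ z = 1 := by
    intro z hz
    refine hγ1 z fun hzΩ => ?_
    have := hP.Ωs hzΩ
    rw [mem_ball_zero_iff] at this
    linarith
  obtain ⟨k, hkc, hkae⟩ := h4 c C γ _ _ _ hc hγ hg1 hO hWu hKH.sol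
  have hbd : ∀ᵐ z ∂(volume.restrict (G ∩ ball (0 : ℂ) (7 / 8))), 0 ≤ χ z + v z ∧ χ z + v z ≤ 1 :=
    ae_restrict_of_ae (h5 Ω G c C γ χ v V hP hc hγ hχ hKH)
  have hk0 : ∀ z ∈ G ∩ ball (0 : ℂ) (7 / 8), 0 ≤ k z := by
    have := khat_open (D := Iio 0) hO hkc isOpen_Iio (by
      filter_upwards [hbd, hkae] with z hz hz'
      rw [← hz']
      simpa using hz.1)
    intro z hz
    simpa using this z hz
  have hk1 : ∀ z ∈ G ∩ ball (0 : ℂ) (7 / 8), k z ≤ 1 := by
    have := khat_open (D := Ioi 1) hO hkc isOpen_Ioi (by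
      filter_upwards [hbd, hkae] with z hz hz'
      rw [← hz']
      simpa using hz.2)
    intro z hz
    simpa using this z hz
  have hWk : WG (G ∩ ball (0 : ℂ) (7 / 8)) k (fun z => gr χ z + V z) :=
    c2 _ k _ _ hWu hkae (Filter.EventuallyEq.refl _ _)
  refine ⟨k, ⟨hKH, hkc, hkae, fun z hz => ?_, hk1⟩⟩
  rcases (hk0 z hz).lt_or_eq with h | h
  · exact h
  · exfalso
    have hall := h6 c C γ _ k _ hc hγ hO hOc.isPreconnected hkc hk0 hWk hKH.sol ⟨z, hz, h.symm⟩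
    refine h7 Ω G γ χ v V hP hχ hKH ?_
    filter_upwards [hkae, ae_restrict_mem hO.measurableSet] with w hw hwO
    have e : χ w + v w = k w := hw
    rw [e, hall w hwO]

end Cal
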