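import Pool.Agent.Lib.MP_4ea4c7_an.StmH2

open MeasureTheory Complex Metric Set Filter Topology
open scoped ComplexConjugate ENNReal NNReal

namespace Cal

noncomputable section

private theorem klog_gr_sq (η : ℂ → ℝ) (hη : ContDiff ℝ (⊤ : ℕ∞) η) (z : ℂ) :
    gr (fun z => η z ^ 2) z = 2 * (η z : ℂ) * gr η z := by
  have hd : DifferentiableAt ℝ η z := (hη.differentiable (by simp)).differentiableAt
  have h1 : fderiv ℝ (fun z => η z ^ 2) z = (2 * η z) • fderiv ℝ η z := by
    have := (hd.hasFDerivAt.pow 2).fderiv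
    rw [this]
    ext v
    simp
  unfold gr
  rw [h1]
  simp
  ring

private theorem klog_ip_self (w : ℂ) : ip w w = ‖w‖ ^ 2 := by
  unfold ip
  rw [mul_conj, ofReal_re, normSq_eq_norm_sq]

private theorem klog_ip_le (a b : ℂ) : ip a b ≤ ‖a‖ * ‖b‖ := by
  unfold ip
  refine (le_abs_self _).trans ((abs_re_le_norm _).trans ?_)
  rw [norm_mul, RCLike.norm_conj]

private theorem klog_ip_real_mul (s : ℝ) (a b : ℂ) : ip a ((s : ℂ) * b) = s * ip a b := by
  unfold ip
  rw [map_mul, conj_ofReal]
  have : a * ((s : ℂ) * conj b) = (s : ℂ) * (a * conj b) := by ring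
  rw [this, re_ofReal_mul]

private theorem klog_ip_real_mul' (s : ℝ) (a b : ℂ) : ip ((s : ℂ) * a) b = s * ip a b := by
  unfold ip
  rw [mul_assoc, re_ofReal_mul]

private theorem klog_ip_add (a b c : ℂ) : ip a (b + c) = ip a b + ip a c := by
  unfold ip
  rw [map_add, mul_add, add_re]

theorem piece_klog (h1 : S_kcalc) (h2 : S_ktst) : S_klog := by
  intro c C γ V u U η e hc hγ hV hu hu0 hWG hSol hη he
  obtain ⟨hηs, hηc, hηV⟩ := hη
  obtain ⟨-, -, -, -, -, k6, -, -, k9⟩ := h1 V hV
  have hC : c ≤ C := (hγ.lo 0).trans (hγ.hi 0)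
  have hC0 : 0 < C := hc.trans_le hC
  have hγ0 : ∀ z, 0 ≤ γ z := fun z => hc.le.trans (hγ.lo z)
  have hue : ∀ z ∈ V, 0 < u z + e := fun z hz => by have := hu0 z hz; linarith
  set K := tsupport η with hK
  have hKc : IsCompact K := hηc
  -- the test function
  have hT := k9 u U (Ioi (-e)) (fun t => (t + e)⁻¹) hWG hu isOpen_Ioi
    (fun z hz => by have := hue z hz; simp only [mem_Ioi]; linarith)
    (by
      apply ContDiffOn.inv
      · exact (contDiff_id.add contDiff_const).contDiffOn
      · intro t ht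
        simp only [mem_Ioi] at ht
        exact ne_of_gt (by linarith))
  have hA := k6 _ (fun z => η z ^ 2) _ hT ((hηs.pow 2).contDiffOn)
  set A : ℂ → ℂ := fun z => ((η z ^ 2 : ℝ) : ℂ) * (((deriv (fun t : ℝ => (t + e)⁻¹) (u z) : ℝ) : ℂ) * U z) +
    (((u z + e)⁻¹ : ℝ) : ℂ) * gr (fun z => η z ^ 2) z with hAdef
  have hγm : ∀ K' : Set ℂ, IsCompact K' → K' ⊆ V → MemLp (fun z => (γ z : ℂ) * U z) 2 (volume.restrict K') := by
    intro K' hK' hK'V
    have hU := hWG.G2 K' hK' hK'V
    have hm : AEStronglyMeasurable (fun z => (γ z : ℂ) * U z) (volume.restrict K') :=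
      (measurable_ofReal.comp hγ.meas).aestronglyMeasurable.mul hU.aestronglyMeasurable
    refine MemLp.of_le_mul (c := C) hU hm (Eventually.of_forall fun z => ?_)
    rw [norm_mul, norm_real, Real.norm_eq_abs, abs_of_nonneg (hγ0 z)]
    gcongr
    exact hγ.hi z
  obtain ⟨hint, hzero⟩ := h2 V K (fun z => (γ z : ℂ) * U z) _ A hV hγm
    (fun φ hφ => by
      have := hSol φ hφ
      rw [← this]
      congr 1
      funext z
      rw [klog_ip_real_mul'])
    hKc hηV hA
    (fun z _ hz => by
      have : η z = 0 := image_eq_zero_of_notMem_tsupport hz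
      simp [this])
  -- pointwise formula
  set f1 : ℂ → ℝ := fun z => η z ^ 2 * ‖U z‖ ^ 2 / (u z + e) ^ 2 with hf1
  set f2 : ℂ → ℝ := fun z => 2 * γ z * η z * ip (U z) (gr η z) / (u z + e) with hf2
  have hform : ∀ z ∈ V, ip ((γ z : ℂ) * U z) (A z) = f2 z - γ z * f1 z := by
    intro z hz
    have hp := hue z hz
    have hd : deriv (fun t : ℝ => (t + e)⁻¹) (u z) = -1 / (u z + e) ^ 2 := by
      have h7 : HasDerivAt (fun t : ℝ => (t + e)⁻¹) (-1 / (u z + e) ^ 2) (u z) :=
        ((hasDerivAt_id (u z)).add_const e).inv (ne_of_gt hp)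
      exact h7.deriv
    simp only [hAdef]
    rw [klog_ip_real_mul', klog_ip_add, klog_ip_real_mul, klog_ip_real_mul, klog_ip_real_mul, klog_ip_self, hd,
      klog_gr_sq η hηs z]
    have e2 : (2 : ℂ) * (η z : ℂ) * gr η z = ((2 * η z : ℝ) : ℂ) * gr η z := by push_cast; ring
    rw [e2, klog_ip_real_mul]
    simp only [hf1, hf2]
    field_simp
    ring
  -- integrability of f1
  obtain ⟨M, hM⟩ := hKc.exists_bound_of_continuousOn (hηs.continuous.continuousOn (s := K))
  have hUK := hWG.G2 K hKc hηV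
  have hf1K : IntegrableOn f1 K volume := by
    have h2i : Integrable (fun z => ‖U z‖ ^ 2) (volume.restrict K) := hUK.integrable_norm_pow (by norm_num)
    refine Integrable.mono' (h2i.const_mul (M ^ 2 / e ^ 2)) ?_ ?_
    · have m1 : AEStronglyMeasurable (fun z => η z ^ 2) (volume.restrict K) :=
        (hηs.continuous.pow 2).aestronglyMeasurable
      have m2 : AEStronglyMeasurable (fun z => ‖U z‖ ^ 2) (volume.restrict K) :=
        hUK.aestronglyMeasurable.norm.pow 2
      have m3 : AEStronglyMeasurable (fun z => (u z + e) ^ 2) (volume.restrict K) :=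
        (((hu.mono hηV).add continuousOn_const).pow 2).aestronglyMeasurable hKc.measurableSet
      exact ((m1.mul m2).aemeasurable.div m3.aemeasurable).aestronglyMeasurable
    · filter_upwards [ae_restrict_mem hKc.measurableSet] with z hz
      have hp : e ≤ u z + e := by have := hu0 z (hηV hz); linarith
      have hM' : η z ^ 2 ≤ M ^ 2 := by
        have := hM z hz
        rw [Real.norm_eq_abs] at this
        exact sq_le_sq' (by have := (abs_le.mp this).1; linarith) (abs_le.mp this).2
      simp only [hf1]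
      rw [Real.norm_eq_abs, abs_of_nonneg (by positivity)]
      calc η z ^ 2 * ‖U z‖ ^ 2 / (u z + e) ^ 2 ≤ M ^ 2 * ‖U z‖ ^ 2 / e ^ 2 := by
            gcongr
        _ = _ := by ring
  have hf10 : ∀ z ∈ V \ K, f1 z = 0 := by
    intro z hz
    have : η z = 0 := image_eq_zero_of_notMem_tsupport hz.2
    simp [hf1, this]
  have hf1V : IntegrableOn f1 V volume := hf1K.of_forall_sdiff_eq_zero hV.measurableSet hf10
  have hf1n : ∀ z, 0 ≤ f1 z := fun z => by simp only [hf1]; positivity
  have hγf1 : IntegrableOn (fun z => γ z * f1 z) V volume := by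
    refine Integrable.mono' (hf1V.const_mul C) (hγ.meas.aestronglyMeasurable.mul hf1V.aestronglyMeasurable) ?_
    refine Eventually.of_forall fun z => ?_
    rw [Real.norm_eq_abs, abs_of_nonneg (mul_nonneg (hγ0 z) (hf1n z))]
    exact mul_le_mul_of_nonneg_right (hγ.hi z) (hf1n z)
  have hf2V : IntegrableOn f2 V volume := by
    refine (hint.add hγf1).congr_fun (fun z hz => ?_) hV.measurableSet
    simp only [Pi.add_apply]
    rw [hform z hz]
    ring
  have hE : ∫ z in V, γ z * f1 z = ∫ z in V, f2 z := by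
    have h3 : ∫ z in V, ip ((γ z : ℂ) * U z) (A z) = ∫ z in V, (f2 z - γ z * f1 z) :=
      setIntegral_congr_fun hV.measurableSet hform
    rw [integral_sub hf2V hγf1, hzero] at h3
    linarith
  -- the right hand side
  have hgc : Continuous (gr η) := by
    have hc1 : Continuous (fderiv ℝ η) := hηs.continuous_fderiv (by simp)
    unfold gr
    exact (continuous_ofReal.comp (hc1.clm_apply continuous_const)).add
      (continuous_const.mul (continuous_ofReal.comp (hc1.clm_apply continuous_const)))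
  have hgs : HasCompactSupport (fun z => ‖gr η z‖ ^ 2) := by
    refine HasCompactSupport.intro hKc fun z hz => ?_
    have : fderiv ℝ η z = 0 := by
      have hz' : z ∉ tsupport (fderiv ℝ η) := fun h => hz (tsupport_fderiv_subset ℝ h)
      exact image_eq_zero_of_notMem_tsupport hz'
    unfold gr
    simp [this]
  have hgi : Integrable (fun z => ‖gr η z‖ ^ 2) volume := (hgc.norm.pow 2).integrable_of_hasCompactSupport hgs
  have hle : ∫ z in V, f2 z ≤ ∫ z in V, (1 / 2 * (γ z * f1 z) + 2 * C * ‖gr η z‖ ^ 2) := by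
    refine setIntegral_mono_on hf2V ((hγf1.const_mul _).add (hgi.integrableOn.const_mul _)) hV.measurableSet ?_
    intro z hz
    have hp := hue z hz
    simp only [hf1, hf2]
    have hip : η z * ip (U z) (gr η z) ≤ |η z| * (‖U z‖ * ‖gr η z‖) := by
      have h5 : |ip (U z) (gr η z)| ≤ ‖U z‖ * ‖gr η z‖ := by
        unfold ip
        refine (abs_re_le_norm _).trans ?_
        rw [norm_mul, RCLike.norm_conj]
      calc η z * ip (U z) (gr η z) ≤ |η z * ip (U z) (gr η z)| := le_abs_self _
        _ = |η z| * |ip (U z) (gr η z)| := abs_mul _ _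
        _ ≤ _ := by gcongr
    set x := |η z| * ‖U z‖ / (u z + e) with hx
    set y := ‖gr η z‖ with hy
    have hxy : 2 * (x * y) ≤ 1 / 2 * x ^ 2 + 2 * y ^ 2 := by nlinarith [sq_nonneg (x - 2 * y)]
    have hx2 : x ^ 2 = η z ^ 2 * ‖U z‖ ^ 2 / (u z + e) ^ 2 := by
      rw [hx, div_pow, mul_pow, sq_abs]
    rw [← hx2]
    calc 2 * γ z * η z * ip (U z) (gr η z) / (u z + e)
        = 2 * γ z * (η z * ip (U z) (gr η z)) / (u z + e) := by ring
      _ ≤ 2 * γ z * (|η z| * (‖U z‖ * y)) / (u z + e) := by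
          have := hγ0 z
          gcongr
      _ = γ z * (2 * (x * y)) := by rw [hx]; ring
      _ ≤ γ z * (1 / 2 * x ^ 2 + 2 * y ^ 2) := mul_le_mul_of_nonneg_left hxy (hγ0 z)
      _ = 1 / 2 * (γ z * x ^ 2) + γ z * (2 * y ^ 2) := by ring
      _ ≤ 1 / 2 * (γ z * x ^ 2) + C * (2 * y ^ 2) := by
          have := hγ.hi z
          gcongr
      _ = _ := by ring
  rw [integral_add (hγf1.const_mul _) (hgi.integrableOn.const_mul _), integral_const_mul, integral_const_mul] at hle
  have hmono : ∫ z in V, ‖gr η z‖ ^ 2 ≤ ∫ z, ‖gr η z‖ ^ 2 :=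
    setIntegral_le_integral hgi (Eventually.of_forall fun z => by positivity)
  have hfin : ∫ z in V, c * f1 z ≤ ∫ z in V, γ z * f1 z := by
    refine setIntegral_mono_on (hf1V.const_mul _) hγf1 hV.measurableSet fun z _ => ?_
    exact mul_le_mul_of_nonneg_right (hγ.lo z) (hf1n z)
  rw [integral_const_mul] at hfin
  refine ⟨hf1V, ?_⟩
  have : 2 * C * ∫ z in V, ‖gr η z‖ ^ 2 ≤ 2 * C * ∫ z, ‖gr η z‖ ^ 2 :=
    mul_le_mul_of_nonneg_left hmono (by positivity)
  have hgoal : c * ∫ z in V, f1 z ≤ 4 * C * ∫ z, ‖gr η z‖ ^ 2 := by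
    rw [hE] at hfin hle
    linarith
  exact hgoal

end

end Cal
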