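import Pool.Agent.Lib.MP_4ea4c7_an.StmH2

/-!
# MP_4ea4c7_an : piece `[CK klow]`
-/

open MeasureTheory Complex Metric Set Filter Topology
open scoped ComplexConjugate ENNReal NNReal

namespace Cal

noncomputable section

/-- a bump function -/
private theorem klow_bump (e0 : ℝ) (w : ℂ) (hw : ‖w‖ < e0) :
    ∃ ψ : ℂ → ℝ, RTF (ball 0 e0) ψ ∧ (∀ z, 0 ≤ ψ z) ∧ 0 < ψ w := by
  have hδ : 0 < (e0 - ‖w‖) / 2 := by linarith
  let b : ContDiffBump w := ⟨(e0 - ‖w‖) / 4, (e0 - ‖w‖) / 2, by linarith, by linarith⟩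
  refine ⟨b, ⟨b.contDiff, b.hasCompactSupport, ?_⟩, fun z => b.nonneg, ?_⟩
  · rw [b.tsupport_eq]
    intro z hz
    rw [mem_ball_zero_iff]
    have h1 : ‖z - w‖ ≤ (e0 - ‖w‖) / 2 := by
      rw [← dist_eq_norm]
      exact hz
    have h2 : ‖z‖ ≤ ‖z - w‖ + ‖w‖ := by
      have := norm_add_le (z - w) w
      simpa using this
    linarith
  · have : b w = 1 := b.one_of_mem_closedBall (mem_closedBall_self (by
      show (0 : ℝ) ≤ (e0 - ‖w‖) / 4
      linarith))
    rw [this]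
    exact one_pos

private theorem klow_min (ψ : ℂ → ℝ) (hψ : ContDiff ℝ (⊤ : ℕ∞) ψ) (h0 : ∀ z, 0 ≤ ψ z) (w : ℂ)
    (hw : ψ w = 0) : dz (fun z => (ψ z : ℂ)) w = 0 ∧ db (fun z => (ψ z : ℂ)) w = 0 := by
  have hd : DifferentiableAt ℝ ψ w := (hψ.differentiable (by simp)).differentiableAt
  have hm : IsLocalMin ψ w := Eventually.of_forall fun z => by
    rw [hw]
    exact h0 z
  have h1 : HasFDerivAt ψ (0 : ℂ →L[ℝ] ℝ) w := by
    have := hd.hasFDerivAt
    rwa [hm.fderiv_eq_zero] at this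
  have h2 : HasFDerivAt (fun z => (ψ z : ℂ)) (0 : ℂ →L[ℝ] ℂ) w := by
    have := Complex.ofRealCLM.hasFDerivAt.comp w h1
    simpa using! this
  unfold dz db
  rw [h2.fderiv]
  simp

theorem piece_klow (h1 : S_kJ0) (h2 : S_kFt) (h3 : S_kcalc) (h4 : S_chain) (h5 : S_bridge)
    (h6 : S_aconst) (h7 : S_kCll) : S_klow := by
  intro G k0 μ κ F k c R hAdm hWt hCl hc hR hasy z0 hz0 hz0R
  by_contra hcon
  rw [not_le] at hcon
  obtain ⟨A, B, hD⟩ := ((h7 G k0 μ κ hAdm hWt).2.2 F).1 hCl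
  set e0 : ℝ := ‖c‖ / 2 * Real.exp (-(‖k‖ * (R + 1))) with he0
  obtain ⟨hbig, -⟩ := h2 F k c R e0 hR hc hCl.hol hasy he0
  obtain ⟨ψ, hψ, hψ0, hψp⟩ := klow_bump e0 (F z0) hcon
  have hJ := h1 G k0 μ κ F A B k c R e0 ψ hAdm hWt hD hc hR hasy he0 hψ hψ0
  have hψz : ∀ w : ℂ, e0 ≤ ‖w‖ → ψ w = 0 := by
    intro w hw
    by_contra hne
    have := hψ.2.2 (subset_tsupport _ (Function.mem_support.2 hne))
    rw [mem_ball_zero_iff] at this
    linarith
  classical
  set a : ℂ → ℝ := fun z => if ‖z‖ < R + 1 / 8 then ψ (F z) else 0 with ha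
  have ha1 : ∀ z : ℂ, ‖z‖ < R + 1 / 8 → a z = ψ (F z) := fun z hz => by simp only [ha, if_pos hz]
  have ha2 : ∀ z : ℂ, R < ‖z‖ → a z = 0 := by
    intro z hz
    by_cases h : ‖z‖ < R + 1 / 8
    · rw [ha1 z h]
      exact hψz _ (hbig z hz.le (by linarith))
    · simp only [ha, if_neg h]
  have hV1 : IsOpen (G ∩ ball 0 (R + 1 / 8)) := hAdm.oG.inter isOpen_ball
  have hV2 : IsOpen (G ∩ {z : ℂ | R < ‖z‖}) :=
    hAdm.oG.inter (isOpen_lt continuous_const continuous_norm)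
  have hψC : ContDiff ℝ 1 (fun z : ℂ => (ψ z : ℂ)) :=
    Complex.ofRealCLM.contDiff.comp (hψ.1.of_le (by simp))
  -- continuity
  have hcont : ContinuousOn a G := by
    intro z hz
    rcases lt_or_ge ‖z‖ (R + 1 / 8) with h | h
    · have hmem : G ∩ ball 0 (R + 1 / 8) ∈ 𝓝 z :=
        hV1.mem_nhds ⟨hz, mem_ball_zero_iff.2 h⟩
      have hc1 : ContinuousAt (fun z => ψ (F z)) z :=
        (hψ.1.continuous.continuousAt).comp (hD.cont.continuousAt (hAdm.oG.mem_nhds hz))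
      refine (hc1.congr ?_).continuousWithinAt
      filter_upwards [hmem] with w hw
      exact (ha1 w (mem_ball_zero_iff.1 hw.2)).symm
    · have hmem : G ∩ {z : ℂ | R < ‖z‖} ∈ 𝓝 z := hV2.mem_nhds ⟨hz, by
        show R < ‖z‖
        linarith⟩
      have hc1 : ContinuousAt (fun _ : ℂ => (0 : ℝ)) z := continuousAt_const
      refine (hc1.congr ?_).continuousWithinAt
      filter_upwards [hmem] with w hw
      exact (ha2 w hw.2).symm
  -- weak gradient
  have hWG : WG G a (fun _ => 0) := by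
    refine (h3 G hAdm.oG).2.2.2.2.1 a (fun _ => 0) ?_
    intro z hz
    rcases lt_or_ge ‖z‖ (R + 1 / 8) with h | h
    · refine ⟨_, hV1, ⟨hz, mem_ball_zero_iff.2 h⟩, inter_subset_left, ?_⟩
      have hch := h4 G univ F A B (fun z => (ψ z : ℂ)) hAdm.oG isOpen_univ hD.wd hD.cont
        (mapsTo_univ _ _) hψC.contDiffOn
      have hbr := (h5.1 _ _ _ _ hch).1
      have hres := (h3 G hAdm.oG).2.2.1 _ _ _ (inter_subset_left (t := ball 0 (R + 1 / 8))) hbr
      refine (h3 _ hV1).2.1 _ _ _ _ hres ?_ ?_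
      · filter_upwards [self_mem_ae_restrict hV1.measurableSet] with w hw
        rw [ha1 w (mem_ball_zero_iff.1 hw.2), Complex.ofReal_re]
      · have hsub : G ∩ ball 0 (R + 1 / 8) ⊆ G ∩ ball 0 (R + 1 / 4) :=
          inter_subset_inter_right _ (ball_subset_ball (by linarith))
        have hJ' := ae_restrict_of_ae_restrict_of_subset hsub hJ
        filter_upwards [hJ'] with w hw
        by_cases hp : ψ (F w) = 0
        · obtain ⟨d1, d2⟩ := klow_min ψ hψ.1 hψ0 (F w) hp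
          simp [d1, d2]
        · obtain ⟨d1, d2⟩ := hw hp
          simp [d1, d2]
    · refine ⟨_, hV2, ⟨hz, ?_⟩, inter_subset_left, ?_⟩
      · show R < ‖z‖
        linarith
      · have hz0 := (h3 _ hV2).2.2.2.2.2.2.1 (fun _ => (0 : ℝ)) contDiffOn_const
        refine (h3 _ hV2).2.1 _ _ _ _ hz0 ?_ ?_
        · filter_upwards [self_mem_ae_restrict hV2.measurableSet] with w hw
          exact (ha2 w hw.2).symm
        · refine Eventually.of_forall fun w => ?_
          simp [gr]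
  have hconst := (h6 G a (fun _ => 0) hAdm.oG hAdm.cG.isPreconnected hWG
    (Eventually.of_forall fun _ => rfl)).2 hcont
  have hw : ‖((R + 1 : ℝ) : ℂ)‖ = R + 1 := by
    rw [Complex.norm_real, Real.norm_eq_abs, abs_of_pos (by linarith)]
  have hwG : ((R + 1 : ℝ) : ℂ) ∈ G := hAdm.ext _ (by rw [hw]; linarith)
  have e1 := hconst z0 hz0 _ hwG
  rw [ha1 z0 (by linarith), ha2 _ (by rw [hw]; linarith)] at e1
  exact hψp.ne' e1

end

end Cal
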