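import Pool.Agent.Lib.MP_4ea4c7_an.StmH2

open MeasureTheory Complex Metric Set Filter Topology
open scoped ComplexConjugate ENNReal NNReal

namespace Cal

private theorem kmp_gr_const (a : ℝ) (z : ℂ) : gr (fun _ => a) z = 0 := by
  unfold gr
  simp

theorem piece_kmp (h1 : S_kcalc) (h2 : S_kwmp) : S_kmp := by
  intro c C γ V u U hc hγ hV hu hW hsol z0 r hr hcb
  have hcomp : IsCompact (sphere z0 r) := isCompact_sphere z0 r
  have hne : (sphere z0 r).Nonempty := (NormedSpace.sphere_nonempty (x := z0)).mpr hr.le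
  obtain ⟨z', hz', hmax⟩ := hcomp.exists_isMaxOn hne (hu.mono (sphere_subset_closedBall.trans hcb))
  set m : ℝ := u z' with hm
  have hmax' : ∀ w ∈ sphere z0 r, u w ≤ m := fun w hw => hmax hw
  set B : Set ℂ := ball z0 r with hB
  have hBo : IsOpen B := isOpen_ball
  have hBV : B ⊆ V := ball_subset_closedBall.trans hcb
  have hle : volume.restrict B ≤ volume.restrict (closedBall z0 r) :=
    Measure.restrict_mono ball_subset_closedBall le_rfl
  have hfin : IsFiniteMeasure (volume.restrict B) := by
    refine ⟨?_⟩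
    rw [Measure.restrict_apply_univ]
    exact measure_ball_lt_top
  have hcbc : IsCompact (closedBall z0 r) := isCompact_closedBall z0 r
  have mu0 : MemLp u 2 (volume.restrict B) := by
    have := (hW.u2 _ hcbc hcb).mono_measure hle
    exact this.re
  have mU : MemLp U 2 (volume.restrict B) := (hW.G2 _ hcbc hcb).mono_measure hle
  have mus : ∀ a : ℝ, MemLp (fun z => u z - a) 2 (volume.restrict B) := fun a => mu0.sub (memLp_const a)
  have hsolB : WSol B γ U := fun φ hφ => hsol φ ⟨hφ.1, hφ.2.1, hφ.2.2.trans hBV⟩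
  obtain ⟨c1, c2, c3, -, -, -, c7, -, -⟩ := h1 B hBo
  obtain ⟨-, -, d3, -⟩ := h1 V hV
  have wB : WG B u U := d3 B u U hBV hW
  have wG : ∀ a : ℝ, WG B (fun z => u z - a) U := by
    intro a
    have w1 := c1 u (fun _ => 1) U _ (-a) wB (c7 (fun _ => (1 : ℝ)) contDiffOn_const)
    refine c2 _ _ _ _ w1 (Filter.Eventually.of_forall fun z => by ring) (Filter.Eventually.of_forall fun z => ?_)
    simp only [kmp_gr_const, mul_zero, add_zero]
  have key := h2 c C γ B (fun z => u z - m) U hc hγ hBo isBounded_ball (mus m) mU hsolB (by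
    intro ε hε
    set M : ℝ := ((volume.restrict B) univ ^ (1 / (2 : ℝ≥0∞).toReal)).toReal with hM
    have hM0 : 0 ≤ M := ENNReal.toReal_nonneg
    have hδ : 0 < ε / (M + 1) := by positivity
    set δ : ℝ := ε / (M + 1) with hδd
    refine ⟨fun z => u z - (m + δ), U, {z | z ∈ closedBall z0 r ∧ m + δ ≤ u z}, ?_, wG _, mus _, mU, ?_, ?_, ?_, ?_, ?_⟩
    · exact (hu.mono hBV).sub continuousOn_const
    · have : IsClosed (closedBall z0 r ∩ u ⁻¹' (Ici (m + δ))) :=
        (hu.mono hcb).preimage_isClosed_of_isClosed isClosed_closedBall isClosed_Ici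
      exact hcbc.of_isClosed_subset this inter_subset_left
    · rintro w ⟨hw1, hw2⟩
      rw [hB, mem_ball]
      rw [mem_closedBall] at hw1
      rcases hw1.lt_or_eq with h | h
      · exact h
      · have := hmax' w (by rw [mem_sphere]; exact h)
        linarith
    · intro w hw hwK
      by_contra hcon
      push Not at hcon
      exact hwK ⟨ball_subset_closedBall hw, by linarith⟩
    · have e : (fun z => u z - m - (u z - (m + δ))) = fun _ : ℂ => δ := by
        funext z; ring
      rw [e, eLpNorm_const' δ (by norm_num) (by norm_num)]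
      have hne : (volume.restrict B) univ ^ (1 / (2 : ℝ≥0∞).toReal) ≠ ⊤ := by
        refine ENNReal.rpow_ne_top_of_nonneg (by positivity) (measure_ne_top _ _)
      rw [← ENNReal.ofReal_toReal hne, ← hM, Real.enorm_eq_ofReal hδ.le, ← ENNReal.ofReal_mul hδ.le]
      refine (ENNReal.ofReal_lt_ofReal_iff hε).mpr ?_
      rw [hδd, div_mul_eq_mul_div, div_lt_iff₀ (by positivity)]
      nlinarith
    · have e : (fun z => U z - U z) = fun _ : ℂ => (0 : ℂ) := by
        funext z; ring
      rw [e, eLpNorm_zero']
      exact ENNReal.ofReal_pos.mpr hε)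
  have hEq : EqOn (fun z => max (u z - m) 0) (fun _ => (0 : ℝ)) B := by
    refine MeasureTheory.Measure.eqOn_open_of_ae_eq (μ := volume) ?_ hBo ?_ continuousOn_const
    · filter_upwards [key] with z hz
      exact max_eq_right hz
    · exact ((hu.mono hBV).sub continuousOn_const).sup continuousOn_const
  intro z hz
  refine ⟨z', hz', ?_⟩
  rw [mem_closedBall] at hz
  rcases hz.lt_or_eq with h | h
  · have h3 : max (u z - m) 0 = 0 := hEq (by rw [hB, mem_ball]; exact h)
    have := le_max_left (u z - m) 0
    linarith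
  · exact hmax' z (by rw [mem_sphere]; exact h)

end Cal
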