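import Pool.Agent.Lib.MP_4ea4c7_an.StmH2

/-!
# MP_4ea4c7_an, stage 2, [KB5]: the weight is not zero
-/

open MeasureTheory Complex Metric Set Filter Topology
open scoped ComplexConjugate ENNReal NNReal

namespace Cal

theorem knz_bump : ∃ ζ : ℂ → ℝ, ContDiff ℝ (⊤ : ℕ∞) ζ ∧ HasCompactSupport ζ ∧
    ∀ z ∈ ball (0 : ℂ) 1, ζ z = 1 := by
  let f : ContDiffBump (0 : ℂ) := ⟨1, 2, one_pos, one_lt_two⟩
  exact ⟨f, f.contDiff, f.hasCompactSupport,
    fun z hz => f.one_of_mem_closedBall (ball_subset_closedBall hz)⟩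

/-- the identity of the weak gradient, tested with a linear function -/
theorem knz_test {O : Set ℂ} (hO : O ⊆ ball 0 1) {v : ℂ → ℝ} {V : ℂ → ℂ}
    (hW : WG univ v V) (h0 : ∀ᵐ z, z ∉ O → v z = 0 ∧ V z = 0) (L : ℂ →L[ℝ] ℝ) :
    ∫ z in O, (v z : ℂ) * ((L 1 : ℂ) + I * (L I : ℂ)) = - ∫ z in O, V z * (L z : ℂ) := by
  obtain ⟨ζ, hζs, hζc, hζ1⟩ := knz_bump
  have hφ : RTF univ (fun z => ζ z * L z) :=
    ⟨hζs.mul L.contDiff, hζc.mul_right, subset_univ _⟩
  have h := hW.h _ hφ
  have hgr : ∀ z ∈ ball (0 : ℂ) 1, gr (fun z => ζ z * L z) z = (L 1 : ℂ) + I * (L I : ℂ) := by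
    intro z hz
    have hev : (fun w => ζ w * L w) =ᶠ[𝓝 z] fun w => L w := by
      filter_upwards [isOpen_ball.mem_nhds hz] with w hw
      rw [hζ1 w hw, one_mul]
    unfold gr
    rw [hev.fderiv_eq, L.fderiv]
  have e1 : ∫ z, (v z : ℂ) * gr (fun z => ζ z * L z) z =
      ∫ z in O, (v z : ℂ) * ((L 1 : ℂ) + I * (L I : ℂ)) := by
    rw [setIntegral_eq_integral_of_ae_compl_eq_zero (s := O)]
    · apply integral_congr_ae
      filter_upwards [h0] with z hz
      by_cases hzO : z ∈ O
      · rw [hgr z (hO hzO)]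
      · rw [(hz hzO).1]; simp
    · filter_upwards [h0] with z hz hzO
      rw [(hz hzO).1]; simp
  have e2 : ∫ z, V z * ((ζ z * L z : ℝ) : ℂ) = ∫ z in O, V z * (L z : ℂ) := by
    rw [setIntegral_eq_integral_of_ae_compl_eq_zero (s := O)]
    · apply integral_congr_ae
      filter_upwards [h0] with z hz
      by_cases hzO : z ∈ O
      · rw [hζ1 z (hO hzO), one_mul]
      · rw [(hz hzO).2]; simp
    · filter_upwards [h0] with z hz hzO
      rw [(hz hzO).2]; simp
  rw [← e1, ← e2]
  exact h

theorem knz_grc {χ : ℂ → ℝ} (h : ContDiff ℝ (⊤ : ℕ∞) χ) : Continuous (gr χ) := by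
  have hf : Continuous (fderiv ℝ χ) := h.continuous_fderiv (by simp)
  unfold gr
  exact (Complex.continuous_ofReal.comp (hf.clm_apply continuous_const)).add
    (continuous_const.mul (Complex.continuous_ofReal.comp (hf.clm_apply continuous_const)))

theorem knz_gr0 (z : ℂ) : gr (fun _ => (0 : ℝ)) z = 0 := by
  unfold gr
  simp

theorem piece_knz (h1 : S_kH0) (h2 : S_kcalc) : S_knz := by
  intro Ω G γ χ v V hP hR hK hcon
  set O : Set ℂ := G ∩ ball 0 (7 / 8) with hOdef
  have hOo : IsOpen O := hP.oG.inter isOpen_ball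
  have hOm : MeasurableSet O := hOo.measurableSet
  have hO1 : O ⊆ ball 0 1 := inter_subset_right.trans (ball_subset_ball (by norm_num))
  obtain ⟨hW, hoff⟩ := (h1 O hOo).1 v V hK.h0
  -- the gradient of `v` on `O`
  have hV : ∀ᵐ z ∂(volume.restrict O), V z = - gr χ z := by
    have c1 : WG O v V := (h2 univ isOpen_univ).2.2.1 O v V (subset_univ _) hW
    have c2 : WG O χ (gr χ) := (h2 O hOo).2.2.2.2.2.2.1 χ
      ((hR.smooth.of_le (by exact_mod_cast le_top)).contDiffOn)
    have c3 := (h2 O hOo).1 χ v (gr χ) V 1 c2 c1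
    have c4 : WG O (fun _ => (0 : ℝ)) (fun z => gr χ z + ((1 : ℝ) : ℂ) * V z) := by
      refine (h2 O hOo).2.1 _ _ _ _ c3 ?_ (Filter.EventuallyEq.refl _ _)
      filter_upwards [hcon] with z hz
      rw [one_mul]
      exact hz
    have c5 : WG O (fun _ => (0 : ℝ)) (gr (fun _ => (0 : ℝ))) :=
      (h2 O hOo).2.2.2.2.2.2.1 _ contDiffOn_const
    filter_upwards [(h2 O hOo).2.2.2.1 _ _ _ c4 c5] with z hz
    rw [knz_gr0] at hz
    rw [Complex.ofReal_one, one_mul] at hz
    exact eq_neg_of_add_eq_zero_right hz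
  have hv : ∀ᵐ z ∂(volume.restrict O), v z = - χ z := by
    filter_upwards [hcon] with z hz
    linarith
  -- the two identities
  have hkey : ∀ L : ℂ →L[ℝ] ℝ, (∫ z in O, (χ z : ℂ) * ((L 1 : ℂ) + I * (L I : ℂ))) =
      - ∫ z in O, gr χ z * (L z : ℂ) := by
    intro L
    have h := knz_test hO1 hW hoff L
    have e1 : ∫ z in O, (v z : ℂ) * ((L 1 : ℂ) + I * (L I : ℂ)) =
        - ∫ z in O, (χ z : ℂ) * ((L 1 : ℂ) + I * (L I : ℂ)) := by
      rw [← integral_neg]
      apply integral_congr_ae
      filter_upwards [hv] with z hz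
      rw [hz]; push_cast; ring
    have e2 : ∫ z in O, V z * (L z : ℂ) = - ∫ z in O, gr χ z * (L z : ℂ) := by
      rw [← integral_neg]
      apply integral_congr_ae
      filter_upwards [hV] with z hz
      rw [hz]; ring
    rw [e1, e2, neg_neg] at h
    rw [← h, neg_neg]
  have hint : ∀ {E : Type} [NormedAddCommGroup E] (f : ℂ → E), Continuous f →
      IntegrableOn f O volume := by
    intro E _ f hf
    exact (hf.continuousOn.integrableOn_compact (isCompact_closedBall (0 : ℂ) 1)).mono_set
      (hO1.trans ball_subset_closedBall)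
  have hχc : Continuous χ := hR.smooth.continuous
  have hgc := knz_grc hR.smooth
  have hre : ∫ z in O, χ z = - ∫ z in O, (gr χ z).re * z.re := by
    have h := hkey Complex.reCLM
    have h' := congrArg Complex.re h
    rw [Complex.neg_re] at h'
    have a1 : (∫ z in O, (χ z : ℂ) * ((Complex.reCLM 1 : ℂ) + I * (Complex.reCLM I : ℂ))).re =
        ∫ z in O, χ z := by
      rw [← Complex.reCLM_apply, ← Complex.reCLM.integral_comp_comm]
      · apply integral_congr_ae
        filter_upwards with z
        simp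
      · exact hint _ ((Complex.continuous_ofReal.comp hχc).mul continuous_const)
    have a2 : (∫ z in O, gr χ z * (Complex.reCLM z : ℂ)).re =
        ∫ z in O, (gr χ z).re * z.re := by
      rw [← Complex.reCLM_apply, ← Complex.reCLM.integral_comp_comm]
      · apply integral_congr_ae
        filter_upwards with z
        simp
      · exact hint _ (hgc.mul (Complex.continuous_ofReal.comp Complex.reCLM.continuous))
    rw [a1, a2] at h'
    exact h'
  have him : ∫ z in O, χ z = - ∫ z in O, (gr χ z).im * z.im := by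
    have h := hkey Complex.imCLM
    have h' := congrArg Complex.im h
    rw [Complex.neg_im] at h'
    have a1 : (∫ z in O, (χ z : ℂ) * ((Complex.imCLM 1 : ℂ) + I * (Complex.imCLM I : ℂ))).im =
        ∫ z in O, χ z := by
      rw [← Complex.imCLM_apply, ← Complex.imCLM.integral_comp_comm]
      · apply integral_congr_ae
        filter_upwards with z
        simp
      · exact hint _ ((Complex.continuous_ofReal.comp hχc).mul continuous_const)
    have a2 : (∫ z in O, gr χ z * (Complex.imCLM z : ℂ)).im =
        ∫ z in O, (gr χ z).im * z.im := by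
      rw [← Complex.imCLM_apply, ← Complex.imCLM.integral_comp_comm]
      · apply integral_congr_ae
        filter_upwards with z
        simp
      · exact hint _ (hgc.mul (Complex.continuous_ofReal.comp Complex.imCLM.continuous))
    rw [a1, a2] at h'
    exact h'
  have hip : ∀ z, ip (gr χ z) z = (gr χ z).re * z.re + (gr χ z).im * z.im := by
    intro z
    unfold ip
    simp [Complex.mul_re]
  have hc1 : Continuous (fun z => (gr χ z).re * z.re) :=
    (Complex.continuous_re.comp hgc).mul Complex.continuous_re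
  have hc2 : Continuous (fun z => (gr χ z).im * z.im) :=
    (Complex.continuous_im.comp hgc).mul Complex.continuous_im
  have hsum : ∫ z in O, (2 * χ z + ip (gr χ z) z) = 0 := by
    have e : ∀ z, 2 * χ z + ip (gr χ z) z =
        2 * χ z + ((gr χ z).re * z.re + (gr χ z).im * z.im) := fun z => by rw [hip z]
    simp_rw [e]
    have i1 : IntegrableOn (fun z => 2 * χ z) O volume := hint _ (continuous_const.mul hχc)
    have i2 : IntegrableOn (fun z => (gr χ z).re * z.re) O volume := hint _ hc1
    have i3 : IntegrableOn (fun z => (gr χ z).im * z.im) O volume := hint _ hc2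
    have i4 : IntegrableOn (fun z => (gr χ z).re * z.re + (gr χ z).im * z.im) O volume :=
      hint _ (hc1.add hc2)
    rw [integral_add i1 i4, integral_add i2 i3, integral_const_mul]
    linarith
  have hnn : ∀ z, 0 ≤ 2 * χ z + ip (gr χ z) z := by
    intro z
    have := (hR.bd z).1
    have := hR.mono z
    linarith
  have hae : ∀ᵐ z ∂(volume.restrict O), 2 * χ z + ip (gr χ z) z = 0 := by
    have hi : IntegrableOn (fun z => 2 * χ z + ip (gr χ z) z) O volume := by
      refine hint _ ((continuous_const.mul hχc).add ?_)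
      have : (fun z => ip (gr χ z) z) = fun z => (gr χ z).re * z.re + (gr χ z).im * z.im :=
        funext hip
      rw [this]
      exact hc1.add hc2
    have := (integral_eq_zero_iff_of_nonneg (μ := volume.restrict O) (fun z => hnn z) hi).mp hsum
    exact this
  -- the annulus
  set An : Set ℂ := {z : ℂ | 13 / 16 < ‖z‖ ∧ ‖z‖ < 7 / 8} with hAn
  have hAo : IsOpen An := (isOpen_lt continuous_const continuous_norm).inter
    (isOpen_lt continuous_norm continuous_const)
  have hAO : An ⊆ O := by
    intro z hz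
    refine ⟨hP.ext z (by linarith [hz.1]), ?_⟩
    rw [mem_ball_zero_iff]
    exact hz.2
  have hae2 : ∀ᵐ z ∂(volume.restrict An), False := by
    have h3 : ∀ᵐ z ∂(volume.restrict An), 2 * χ z + ip (gr χ z) z = 0 :=
      ae_mono (Measure.restrict_mono hAO le_rfl) hae
    filter_upwards [h3, ae_restrict_mem hAo.measurableSet] with z hz hzA
    have h4 := hR.one z (le_of_lt hzA.1)
    have h5 := hR.mono z
    rw [h4] at hz
    linarith
  have hz0 : volume An = 0 := by
    have h6 : volume.restrict An = 0 := by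
      rw [← ae_eq_bot, ← Filter.eventually_false_iff_eq_bot]
      exact hae2
    simpa [Measure.restrict_eq_zero] using h6
  have hempty := (hAo.measure_eq_zero_iff volume).mp hz0
  have hmem : (((17 / 20 : ℝ)) : ℂ) ∈ An := by
    simp only [hAn, mem_setOf_eq, Complex.norm_real, Real.norm_eq_abs]
    rw [abs_of_pos (by norm_num)]
    norm_num
  rw [hempty] at hmem
  exact hmem

end Cal
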