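import Pool.Agent.Lib.MP_4ea4c7_an.StmH2

open MeasureTheory Complex Metric Set Filter Topology
open scoped ComplexConjugate ENNReal NNReal

namespace Cal

private theorem kplane_ip_le (a b : ℂ) : ‖ip a b‖ ≤ ‖a‖ * ‖b‖ := by
  unfold ip
  rw [Real.norm_eq_abs]
  refine (abs_re_le_norm _).trans ?_
  rw [norm_mul, RCLike.norm_conj]

private theorem kplane_ip_smul (s : ℝ) (a b : ℂ) : ip ((s : ℂ) * a) b = s * ip a b := by
  unfold ip
  rw [mul_assoc, re_ofReal_mul]

private theorem kplane_ip_smul_right (s : ℝ) (a b : ℂ) : ip a ((s : ℂ) * b) = s * ip a b := by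
  unfold ip
  rw [map_mul, conj_ofReal]
  have : a * ((s : ℂ) * conj b) = (s : ℂ) * (a * conj b) := by ring
  rw [this, re_ofReal_mul]

private theorem kplane_ip_add (a b c : ℂ) : ip a (b + c) = ip a b + ip a c := by
  unfold ip
  rw [map_add, mul_add, add_re]

private theorem kplane_gr_mul {τ φ : ℂ → ℝ} (hτ : ContDiff ℝ (⊤ : ℕ∞) τ)
    (hφ : ContDiff ℝ (⊤ : ℕ∞) φ) (z : ℂ) :
    gr (fun z => τ z * φ z) z = (τ z : ℂ) * gr φ z + (φ z : ℂ) * gr τ z := by
  have h := fderiv_fun_mul (hτ.differentiable (by simp) z) (hφ.differentiable (by simp) z)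
  unfold gr
  rw [h]
  simp
  ring

private theorem kplane_gr_cont {φ : ℂ → ℝ} (hφ : ContDiff ℝ (⊤ : ℕ∞) φ) : Continuous (gr φ) := by
  have h1 : Continuous (fderiv ℝ φ) := hφ.continuous_fderiv (by simp)
  unfold gr
  exact (continuous_ofReal.comp (h1.clm_apply continuous_const)).add
    (continuous_const.mul (continuous_ofReal.comp (h1.clm_apply continuous_const)))

private theorem kplane_gr_zero {φ : ℂ → ℝ} {z : ℂ} (hz : z ∉ tsupport φ) : gr φ z = 0 := by
  have h3 : fderiv ℝ φ z = 0 := by
    by_contra hne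
    exact hz (support_fderiv_subset ℝ (Function.mem_support.mpr hne))
  simp [gr, h3]

private theorem kplane_aesm {G : Set ℂ} (hG : IsOpen G) {W : ℂ → ℂ} (hW : L2loc G W) :
    AEStronglyMeasurable W (volume.restrict G) := by
  have : LocallyIntegrableOn W G volume := by
    intro z hz
    obtain ⟨r, hr, hrV⟩ := Metric.nhds_basis_closedBall.mem_iff.1 (hG.mem_nhds hz)
    refine ⟨closedBall z r, mem_nhdsWithin_of_mem_nhds (closedBall_mem_nhds z hr), ?_⟩
    have : IsFiniteMeasure (volume.restrict (closedBall z r)) := ⟨by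
      rw [Measure.restrict_apply_univ]
      exact (isCompact_closedBall z r).measure_lt_top⟩
    exact (hW _ (isCompact_closedBall z r) hrV).integrable one_le_two
  exact this.aestronglyMeasurable

theorem piece_kplane : S_kplane := by
  intro G C γ κ W hG hγm hγ hκm hκ hcut hW hint heq
  have hWm : AEStronglyMeasurable W (volume.restrict G) := kplane_aesm hG hW
  have hσm : Measurable (fun z => ((γ z * κ z ^ 2 : ℝ) : ℂ)) :=
    measurable_ofReal.comp (hγm.mul (hκm.pow_const 2))
  set X : ℂ → ℂ := G.indicator (fun z => ((γ z * κ z ^ 2 : ℝ) : ℂ) * W z) with hX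
  have hC : 0 ≤ C := (hγ 0).1.trans (hγ 0).2
  have hXm : AEStronglyMeasurable X volume := by
    rw [hX, aestronglyMeasurable_indicator_iff hG.measurableSet]
    exact hσm.aestronglyMeasurable.mul hWm
  have hball : ∀ R : ℝ, MemLp X 2 (volume.restrict (closedBall 0 R)) := by
    intro R
    rw [memLp_two_iff_integrable_sq_norm hXm.restrict]
    have h1 : IntegrableOn (fun z => C ^ 2 * (κ z ^ 2 * ‖W z‖ ^ 2)) (G ∩ closedBall 0 R) volume :=
      (hint R).const_mul _
    have h2 : IntegrableOn (G.indicator (fun z => C ^ 2 * (κ z ^ 2 * ‖W z‖ ^ 2)))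
        (closedBall 0 R) volume := by
      rw [IntegrableOn, integrable_indicator_iff hG.measurableSet, IntegrableOn,
        Measure.restrict_restrict hG.measurableSet]
      exact h1
    refine Integrable.mono' h2 (hXm.restrict.norm.pow 2) (Eventually.of_forall fun z => ?_)
    rw [Real.norm_of_nonneg (by positivity)]
    by_cases hz : z ∈ G
    · rw [hX, indicator_of_mem hz, indicator_of_mem hz, norm_mul, Complex.norm_real,
        Real.norm_of_nonneg (mul_nonneg (hγ z).1 (by positivity))]
      have e1 : γ z * κ z ^ 2 ≤ C * κ z := by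
        have : κ z ^ 2 ≤ κ z := by nlinarith [(hκ z).1, (hκ z).2]
        exact mul_le_mul (hγ z).2 this (by positivity) hC
      have e2 : 0 ≤ γ z * κ z ^ 2 := mul_nonneg (hγ z).1 (by positivity)
      calc (γ z * κ z ^ 2 * ‖W z‖) ^ 2 = (γ z * κ z ^ 2) ^ 2 * ‖W z‖ ^ 2 := by ring
        _ ≤ (C * κ z) ^ 2 * ‖W z‖ ^ 2 :=
          mul_le_mul_of_nonneg_right (pow_le_pow_left₀ e2 e1 2) (by positivity)
        _ = C ^ 2 * (κ z ^ 2 * ‖W z‖ ^ 2) := by ring
    · rw [hX, indicator_of_notMem hz, indicator_of_notMem hz]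
      simp
  have hXL : L2loc univ X := by
    intro K hK _
    obtain ⟨R, hR⟩ := hK.isBounded.subset_closedBall (0 : ℂ)
    exact (hball R).mono_measure (Measure.restrict_mono hR le_rfl)
  refine ⟨hXL, ?_⟩
  intro φ hφ
  obtain ⟨τ, hτs, hτb, hτd, hτ1, hτt, hτL, hτ0⟩ := hcut
  obtain ⟨R, hR⟩ := (show IsCompact (tsupport φ) from hφ.2.1).isBounded.subset_closedBall (0 : ℂ)
  have hφc : Continuous φ := hφ.1.continuous
  have hgφc : Continuous (gr φ) := kplane_gr_cont hφ.1
  -- the test function is bounded
  obtain ⟨M, hM⟩ : ∃ M : ℝ, ∀ z, ‖φ z‖ ≤ M := by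
    obtain ⟨M, hM⟩ := (isCompact_closedBall (0 : ℂ) R).exists_bound_of_continuousOn
      hφc.continuousOn
    refine ⟨max M 0, fun z => ?_⟩
    by_cases hz : z ∈ closedBall (0 : ℂ) R
    · exact (hM z hz).trans (le_max_left _ _)
    · have : φ z = 0 := image_eq_zero_of_notMem_tsupport fun h => hz (hR h)
      rw [this, norm_zero]
      exact le_max_right _ _
  have hM0 : 0 ≤ M := (norm_nonneg _).trans (hM 0)
  -- rewriting
  have hXip : (fun z => ip (X z) (gr φ z)) = G.indicator (fun z => γ z * κ z ^ 2 * ip (W z) (gr φ z)) := by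
    funext z
    by_cases hz : z ∈ G
    · rw [hX, indicator_of_mem hz, indicator_of_mem hz, kplane_ip_smul]
    · rw [hX, indicator_of_notMem hz, indicator_of_notMem hz]
      simp [ip]
  -- integrability of the limit
  have hlimint : Integrable (fun z => ip (X z) (gr φ z)) volume := by
    have h1 : MemLp (gr φ) 2 (volume.restrict (closedBall 0 R)) := by
      have : IsFiniteMeasure (volume.restrict (closedBall (0 : ℂ) R)) := ⟨by
        rw [Measure.restrict_apply_univ]
        exact (isCompact_closedBall _ _).measure_lt_top⟩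
      obtain ⟨M', hM'⟩ := (isCompact_closedBall (0 : ℂ) R).exists_bound_of_continuousOn
        hgφc.continuousOn
      refine MemLp.of_bound hgφc.aestronglyMeasurable M' ?_
      rw [ae_restrict_iff' measurableSet_closedBall]
      exact Eventually.of_forall hM'
    have h2 : MemLp (fun z => conj (gr φ z)) 2 (volume.restrict (closedBall 0 R)) := by
      refine h1.congr_norm (continuous_conj.comp_aestronglyMeasurable h1.aestronglyMeasurable) ?_
      exact Eventually.of_forall fun z => by simp
    have h3 : IntegrableOn (fun z => X z * conj (gr φ z)) (closedBall 0 R) volume :=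
      (hball R).integrable_mul h2
    have h4 : IntegrableOn (fun z => ip (X z) (gr φ z)) (closedBall 0 R) volume := h3.re
    refine (integrableOn_iff_integrable_of_support_subset ?_).1 h4
    intro z hz
    by_contra hne
    refine hz ?_
    have : gr φ z = 0 := kplane_gr_zero fun h => hne (hR h)
    simp [this, ip]
  have hgint : IntegrableOn (fun z => γ z * κ z ^ 2 * ip (W z) (gr φ z)) G volume := by
    rw [hXip, integrable_indicator_iff hG.measurableSet] at hlimint
    exact hlimint
  -- first sequence
  have hI : Tendsto (fun m => ∫ z in G, τ m z * (γ z * κ z ^ 2 * ip (W z) (gr φ z))) atTop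
      (𝓝 (∫ z in G, γ z * κ z ^ 2 * ip (W z) (gr φ z))) := by
    refine tendsto_integral_of_dominated_convergence
      (fun z => ‖γ z * κ z ^ 2 * ip (W z) (gr φ z)‖) ?_ hgint.norm ?_ ?_
    · intro m
      exact (hτs m).continuous.aestronglyMeasurable.mul hgint.aestronglyMeasurable
    · intro m
      refine Eventually.of_forall fun z => ?_
      rw [norm_mul, Real.norm_of_nonneg (hτb m z).1]
      exact mul_le_of_le_one_left (norm_nonneg _) (hτb m z).2
    · filter_upwards [hτt] with z hz
      simpa using hz.mul_const (γ z * κ z ^ 2 * ip (W z) (gr φ z))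
  -- second sequence
  set ν : Measure ℂ := volume.restrict (G ∩ closedBall 0 R) with hν
  have hκW : MemLp (fun z => (κ z : ℂ) * W z) 2 ν := by
    have hm : AEStronglyMeasurable (fun z => (κ z : ℂ) * W z) ν :=
      (measurable_ofReal.comp hκm).aestronglyMeasurable.mul
        (hWm.mono_measure (Measure.restrict_mono inter_subset_left le_rfl))
    rw [memLp_two_iff_integrable_sq_norm hm]
    refine (hint R).congr (Eventually.of_forall fun z => ?_)
    simp only [norm_mul, Complex.norm_real, mul_pow, Real.norm_eq_abs, sq_abs]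
  have hII : Tendsto (fun m => ∫ z in G, φ z * (γ z * κ z ^ 2 * ip (W z) (gr (τ m) z))) atTop
      (𝓝 0) := by
    have hbd : ∀ m, ‖∫ z in G, φ z * (γ z * κ z ^ 2 * ip (W z) (gr (τ m) z))‖ₑ
        ≤ ENNReal.ofReal (M * C) * eLpNorm (fun z => (κ z : ℂ) * W z) 2 ν *
          eLpNorm (fun z => (κ z : ℂ) * gr (τ m) z) 2 volume := by
      intro m
      have e1 : ∫ z in G, φ z * (γ z * κ z ^ 2 * ip (W z) (gr (τ m) z))
          = ∫ z, φ z * (γ z * κ z ^ 2 * ip (W z) (gr (τ m) z)) ∂ν := by
        refine setIntegral_eq_of_subset_of_forall_sdiff_eq_zero hG.measurableSet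
          inter_subset_left ?_
        intro z hz
        have : φ z = 0 := image_eq_zero_of_notMem_tsupport fun h => hz.2 ⟨hz.1, hR h⟩
        rw [this, zero_mul]
      rw [e1]
      refine (enorm_integral_le_lintegral_enorm _).trans ?_
      have e2 := eLpNorm_le_eLpNorm_mul_eLpNorm_of_nnnorm (p := 2) (q := 2) (r := 1)
        hκW.aestronglyMeasurable ((hτL m).mono_measure (Measure.restrict_le_self (s := G ∩ closedBall 0 R))).aestronglyMeasurable
        (fun a b => ip a b) 1 (Eventually.of_forall fun z => by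
          rw [one_mul, ← NNReal.coe_le_coe]
          push_cast
          exact kplane_ip_le _ _)
      have e3 : ∫⁻ z, ‖φ z * (γ z * κ z ^ 2 * ip (W z) (gr (τ m) z))‖ₑ ∂ν
          ≤ ENNReal.ofReal (M * C) * eLpNorm (fun z => ip ((κ z : ℂ) * W z) ((κ z : ℂ) * gr (τ m) z)) 1 ν := by
        rw [eLpNorm_one_eq_lintegral_enorm, ← lintegral_const_mul' _ _ ENNReal.ofReal_ne_top]
        refine lintegral_mono fun z => ?_
        rw [kplane_ip_smul, kplane_ip_smul_right, ← ofReal_norm, ← ofReal_norm,
          ← ENNReal.ofReal_mul (by positivity)]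
        refine ENNReal.ofReal_le_ofReal ?_
        have e4 : φ z * (γ z * κ z ^ 2 * ip (W z) (gr (τ m) z))
            = (φ z * γ z) * (κ z * (κ z * ip (W z) (gr (τ m) z))) := by ring
        rw [e4, norm_mul (φ z * γ z), norm_mul (φ z)]
        refine mul_le_mul_of_nonneg_right ?_ (norm_nonneg _)
        refine mul_le_mul (hM z) ?_ (norm_nonneg _) hM0
        rw [Real.norm_of_nonneg (hγ z).1]
        exact (hγ z).2
      refine e3.trans ?_
      rw [mul_assoc]
      refine mul_le_mul_right ?_ _
      refine e2.trans ?_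
      rw [ENNReal.coe_one, one_mul]
      exact mul_le_mul_right (eLpNorm_mono_measure _ Measure.restrict_le_self) _
    have hlim : Tendsto (fun m => ENNReal.ofReal (M * C) * eLpNorm (fun z => (κ z : ℂ) * W z) 2 ν *
          eLpNorm (fun z => (κ z : ℂ) * gr (τ m) z) 2 volume) atTop (𝓝 0) := by
      have := ENNReal.Tendsto.const_mul (a := ENNReal.ofReal (M * C) *
        eLpNorm (fun z => (κ z : ℂ) * W z) 2 ν) hτ0
        (Or.inr (ENNReal.mul_ne_top ENNReal.ofReal_ne_top hκW.2.ne))
      simpa using this
    rw [tendsto_zero_iff_enorm_tendsto_zero]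
    exact tendsto_of_tendsto_of_tendsto_of_le_of_le tendsto_const_nhds hlim (fun m => zero_le)
      hbd
  -- the equation
  have hsum : ∀ m, (∫ z in G, τ m z * (γ z * κ z ^ 2 * ip (W z) (gr φ z))) +
      ∫ z in G, φ z * (γ z * κ z ^ 2 * ip (W z) (gr (τ m) z)) = 0 := by
    intro m
    have hTF : RTF G (fun z => τ m z * φ z) := by
      refine ⟨(hτs m).mul hφ.1, hφ.2.1.mul_left, ?_⟩
      intro z hz
      have h1 : z ∈ tsupport (τ m) := tsupport_mul_subset_left (f := τ m) (g := φ) hz
      by_contra hne
      exact (Set.disjoint_left.1 (hτd m)) h1 hne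
    have h1 := heq _ hTF
    have h2 : ∀ z, γ z * κ z ^ 2 * ip (W z) (gr (fun z => τ m z * φ z) z)
        = τ m z * (γ z * κ z ^ 2 * ip (W z) (gr φ z)) +
          φ z * (γ z * κ z ^ 2 * ip (W z) (gr (τ m) z)) := by
      intro z
      rw [kplane_gr_mul (hτs m) hφ.1, kplane_ip_add, kplane_ip_smul_right, kplane_ip_smul_right]
      ring
    simp only [h2] at h1
    have i1 : IntegrableOn (fun z => τ m z * (γ z * κ z ^ 2 * ip (W z) (gr φ z))) G volume := by
      refine Integrable.mono hgint
        ((hτs m).continuous.aestronglyMeasurable.mul hgint.aestronglyMeasurable) ?_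
      refine Eventually.of_forall fun z => ?_
      rw [norm_mul, Real.norm_of_nonneg (hτb m z).1]
      exact mul_le_of_le_one_left (norm_nonneg _) (hτb m z).2
    have i2 : IntegrableOn (fun z => φ z * (γ z * κ z ^ 2 * ip (W z) (gr (τ m) z))) G volume := by
      have e2 : Integrable (fun z => ((κ z : ℂ) * W z) * conj ((κ z : ℂ) * gr (τ m) z)) ν := by
        have h5 := (hτL m).mono_measure (Measure.restrict_le_self (s := G ∩ closedBall 0 R))
        have h6 : MemLp (fun z => conj ((κ z : ℂ) * gr (τ m) z)) 2 ν := by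
          refine h5.congr_norm
            (continuous_conj.comp_aestronglyMeasurable h5.aestronglyMeasurable) ?_
          exact Eventually.of_forall fun z => by simp
        exact hκW.integrable_mul h6
      have e3 : Integrable (fun z => ip ((κ z : ℂ) * W z) ((κ z : ℂ) * gr (τ m) z)) ν := e2.re
      have e4 : Integrable (fun z => (φ z * γ z) *
          ip ((κ z : ℂ) * W z) ((κ z : ℂ) * gr (τ m) z)) ν := by
        refine Integrable.bdd_mul (c := M * C) e3 (hφc.measurable.mul hγm).aestronglyMeasurable ?_
        refine Eventually.of_forall fun z => ?_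
        rw [norm_mul]
        refine mul_le_mul (hM z) ?_ (norm_nonneg _) hM0
        rw [Real.norm_of_nonneg (hγ z).1]
        exact (hγ z).2
      have e5 : IntegrableOn (fun z => φ z * (γ z * κ z ^ 2 * ip (W z) (gr (τ m) z)))
          (G ∩ closedBall 0 R) volume := by
        refine e4.congr (Eventually.of_forall fun z => ?_)
        simp only [kplane_ip_smul, kplane_ip_smul_right]
        ring
      refine e5.of_forall_sdiff_eq_zero hG.measurableSet ?_
      intro z hz
      have : φ z = 0 := image_eq_zero_of_notMem_tsupport fun h => hz.2 ⟨hz.1, hR h⟩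
      rw [this, zero_mul]
    rw [integral_add i1 i2] at h1
    exact h1
  have hfin := hI.add hII
  simp only [hsum, add_zero] at hfin
  have hzero := tendsto_nhds_unique hfin tendsto_const_nhds
  rw [hXip, integral_indicator hG.measurableSet]
  exact hzero

end Cal
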