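import Pool.Agent.Lib.MP_4ea4c7_an.StmH2

open MeasureTheory Complex Metric Set Filter Topology
open scoped ComplexConjugate ENNReal NNReal

namespace Cal

private theorem kqe_ip_smul (s : ℝ) (a b : ℂ) : ip ((s : ℂ) * a) b = s * ip a b := by
  unfold ip
  rw [mul_assoc, re_ofReal_mul]

private theorem kqe_ip_smul_right (s : ℝ) (a b : ℂ) : ip a ((s : ℂ) * b) = s * ip a b := by
  unfold ip
  rw [map_mul, conj_ofReal]
  have : a * ((s : ℂ) * conj b) = (s : ℂ) * (a * conj b) := by ring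
  rw [this, re_ofReal_mul]

private theorem kqe_ip_add (a b c : ℂ) : ip a (b + c) = ip a b + ip a c := by
  unfold ip
  rw [map_add, mul_add, add_re]

private theorem kqe_ip_add_left (a b c : ℂ) : ip (a + b) c = ip a c + ip b c := by
  unfold ip
  rw [add_mul, add_re]

private theorem kqe_ip_comm (a b : ℂ) : ip a b = ip b a := by
  unfold ip
  simp only [mul_re, conj_re, conj_im]
  ring

private theorem kqe_gr_mul {τ φ : ℂ → ℝ} (hτ : ContDiff ℝ (⊤ : ℕ∞) τ)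
    (hφ : ContDiff ℝ (⊤ : ℕ∞) φ) (z : ℂ) :
    gr (fun z => τ z * φ z) z = (τ z : ℂ) * gr φ z + (φ z : ℂ) * gr τ z := by
  have h := fderiv_fun_mul (hτ.differentiable (by simp) z) (hφ.differentiable (by simp) z)
  unfold gr
  rw [h]
  simp
  ring

private theorem kqe_gr_sub {τ φ : ℂ → ℝ} (hτ : ContDiff ℝ (⊤ : ℕ∞) τ)
    (hφ : ContDiff ℝ (⊤ : ℕ∞) φ) (z : ℂ) :
    gr (fun z => τ z - φ z) z = gr τ z - gr φ z := by
  have h := fderiv_fun_sub (hτ.differentiable (by simp) z) (hφ.differentiable (by simp) z)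
  unfold gr
  rw [h]
  simp
  ring

private theorem kqe_gr_cont {φ : ℂ → ℝ} (hφ : ContDiff ℝ (⊤ : ℕ∞) φ) : Continuous (gr φ) := by
  have h1 : Continuous (fderiv ℝ φ) := hφ.continuous_fderiv (by simp)
  unfold gr
  exact (continuous_ofReal.comp (h1.clm_apply continuous_const)).add
    (continuous_const.mul (continuous_ofReal.comp (h1.clm_apply continuous_const)))

private theorem kqe_gr_zero {φ : ℂ → ℝ} {z : ℂ} (hz : z ∉ tsupport φ) : gr φ z = 0 := by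
  have h3 : fderiv ℝ φ z = 0 := by
    by_contra hne
    exact hz (support_fderiv_subset ℝ (Function.mem_support.mpr hne))
  simp [gr, h3]

private theorem kqe_L2 {V : Set ℂ} {γ : ℂ → ℝ} {U : ℂ → ℂ} {C : ℝ} (hγ : Measurable γ)
    (hb : ∀ z, |γ z| ≤ C) (hU : L2loc V U) : L2loc V (fun z => (γ z : ℂ) * U z) := by
  intro K hK hKV
  have h := hU K hK hKV
  refine h.of_le_mul (c := C)
    ((measurable_ofReal.comp hγ).aestronglyMeasurable.mul h.aestronglyMeasurable) ?_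
  refine Eventually.of_forall fun z => ?_
  rw [norm_mul, Complex.norm_real, Real.norm_eq_abs]
  exact mul_le_mul_of_nonneg_right (hb z) (norm_nonneg _)

theorem piece_kqe (h1 : S_kcalc) (h2 : S_kH0) (h3 : S_ktst) (h4 : S_kgeo) : S_kqe := by
  intro Ω G c C γ₁ γ₂ κ₁ κ₂ u₂ w w₂ K₁ K₂ U₂ W W₂ M hP hc hCond hγ₁ hγ₂ hKP₁ hKP₂ hH0 hWG hSol
    hQW hW heq φ hφ
  have hG := hP.oG
  set V : Set ℂ := G ∩ ball 0 (5 / 8) with hV
  have hVo : IsOpen V := hG.inter isOpen_ball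
  have hVG : V ⊆ G := inter_subset_left
  obtain ⟨χ, hχ⟩ := h4.1 (9 / 16) (39 / 64) (by norm_num) (by norm_num)
  -- the two parts of the test function
  set φ₂ : ℂ → ℝ := fun z => χ z * φ z with hφ₂
  set φ₁ : ℂ → ℝ := fun z => φ z - φ₂ z with hφ₁
  have hφ₂s : ContDiff ℝ (⊤ : ℕ∞) φ₂ := hχ.smooth.mul hφ.1
  have hφ₁s : ContDiff ℝ (⊤ : ℕ∞) φ₁ := hφ.1.sub hφ₂s
  have hφ₂t : tsupport φ₂ ⊆ tsupport φ := tsupport_mul_subset_right (f := χ) (g := φ)
  have hR2 : RTF G φ₂ := ⟨hφ₂s, hφ.2.1.mul_left, hφ₂t.trans hφ.2.2⟩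
  have hφ₁t : tsupport φ₁ ⊆ tsupport φ ∩ closedBall 0 (39 / 64) := by
    have hcl : IsClosed (tsupport φ ∩ closedBall (0 : ℂ) (39 / 64)) :=
      (isClosed_tsupport φ).inter isClosed_closedBall
    refine closure_minimal ?_ hcl
    intro z hz
    have hz' : φ₁ z ≠ 0 := hz
    constructor
    · refine subset_tsupport φ ?_
      intro h0
      exact hz' (by simp [hφ₁, hφ₂, h0])
    · rw [mem_closedBall_zero_iff]
      by_contra hcon
      rw [not_le] at hcon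
      exact hz' (by simp [hφ₁, hφ₂, hχ.one z hcon.le])
  have hR1c : HasCompactSupport φ₁ :=
    hφ.2.1.of_isClosed_subset (isClosed_tsupport _) (hφ₁t.trans inter_subset_left)
  have hφ₁V : tsupport φ₁ ⊆ V := by
    intro z hz
    have h5 := hφ₁t hz
    refine ⟨hφ.2.2 h5.1, ?_⟩
    have h6 := mem_closedBall_zero_iff.1 h5.2
    rw [mem_ball_zero_iff]
    linarith
  have hR1 : RTF V φ₁ := ⟨hφ₁s, hR1c, hφ₁V⟩
  have hgr : ∀ z, gr φ z = gr φ₁ z + gr φ₂ z := by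
    intro z
    rw [hφ₁, kqe_gr_sub hφ.1 hφ₂s]
    ring
  have hγb : ∀ z, |γ₂ z| ≤ C := fun z =>
    abs_le.2 ⟨by linarith [hCond.lo z, hCond.hi z], hCond.hi z⟩
  -- first identity
  have hκV : WG V κ₂ K₂ := (h1 univ isOpen_univ).2.2.1 V κ₂ K₂ (subset_univ _) hKP₂.wg
  have hc6 := (h1 V hVo).2.2.2.2.2.1
  have a1 : WG V (fun z => φ₁ z * κ₂ z) (fun z => (φ₁ z : ℂ) * K₂ z + (κ₂ z : ℂ) * gr φ₁ z) :=
    hc6 κ₂ φ₁ K₂ hκV hφ₁s.contDiffOn
  have a2 : L2loc V (fun z => (γ₂ z : ℂ) * U₂ z) := kqe_L2 hCond.meas hγb hWG.G2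
  have a3 := h3 V (tsupport φ₁) (fun z => (γ₂ z : ℂ) * U₂ z) _ _ hVo a2 (by
    intro ψ hψ
    have := hSol ψ hψ
    rw [← this]
    refine integral_congr_ae (Eventually.of_forall fun z => ?_)
    exact kqe_ip_smul _ _ _) hR1.2.1 hφ₁V a1 (by
      intro z _ hz
      rw [image_eq_zero_of_notMem_tsupport hz, zero_mul])
  -- second identity
  have b0 : WG V (fun z => κ₂ z * w₂ z) U₂ := by
    refine (h1 V hVo).2.1 u₂ _ U₂ U₂ hWG ?_ (ae_eq_refl _)
    filter_upwards [hQW.u] with z hz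
    exact hz.1
  have b1 : WG V (fun z => φ₁ z * (κ₂ z * w₂ z))
      (fun z => (φ₁ z : ℂ) * U₂ z + ((κ₂ z * w₂ z : ℝ) : ℂ) * gr φ₁ z) :=
    hc6 _ φ₁ U₂ b0 hφ₁s.contDiffOn
  have b2 : L2loc V (fun z => (γ₂ z : ℂ) * K₂ z) := kqe_L2 hCond.meas hγb hκV.G2
  have b3 := h3 V (tsupport φ₁) (fun z => (γ₂ z : ℂ) * K₂ z) _ _ hVo b2 (by
    intro ψ hψ
    have := hKP₂.sol ψ hψ
    rw [← this]
    refine integral_congr_ae (Eventually.of_forall fun z => ?_)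
    exact kqe_ip_smul _ _ _) hR1.2.1 hφ₁V b1 (by
      intro z _ hz
      rw [image_eq_zero_of_notMem_tsupport hz, zero_mul])
  -- difference
  have hcong : ∀ᵐ z ∂(volume.restrict V),
      ip ((γ₂ z : ℂ) * U₂ z) ((φ₁ z : ℂ) * K₂ z + (κ₂ z : ℂ) * gr φ₁ z) -
      ip ((γ₂ z : ℂ) * K₂ z) ((φ₁ z : ℂ) * U₂ z + ((κ₂ z * w₂ z : ℝ) : ℂ) * gr φ₁ z)
      = γ₂ z * κ₂ z ^ 2 * ip (W₂ z) (gr φ₁ z) := by
    filter_upwards [hQW.u] with z hz
    rw [kqe_ip_smul, kqe_ip_smul, kqe_ip_add, kqe_ip_add, kqe_ip_smul_right, kqe_ip_smul_right,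
      kqe_ip_smul_right, kqe_ip_smul_right, kqe_ip_comm (K₂ z) (U₂ z), hz.2, kqe_ip_add_left,
      kqe_ip_add_left, kqe_ip_smul, kqe_ip_smul, kqe_ip_smul, kqe_ip_smul]
    ring
  have hi1 : IntegrableOn (fun z => γ₂ z * κ₂ z ^ 2 * ip (W₂ z) (gr φ₁ z)) V volume :=
    (a3.1.sub b3.1).congr hcong
  have hv1 : ∫ z in V, γ₂ z * κ₂ z ^ 2 * ip (W₂ z) (gr φ₁ z) = 0 := by
    rw [← integral_congr_ae hcong, integral_sub a3.1 b3.1, a3.2, b3.2, sub_zero]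
  have hz1 : ∀ z ∈ G \ V, γ₂ z * κ₂ z ^ 2 * ip (W₂ z) (gr φ₁ z) = 0 := by
    intro z hz
    have : gr φ₁ z = 0 := kqe_gr_zero fun h => hz.2 (hφ₁V h)
    simp [this, ip]
  have hi1' : IntegrableOn (fun z => γ₂ z * κ₂ z ^ 2 * ip (W₂ z) (gr φ₁ z)) G volume :=
    hi1.of_forall_sdiff_eq_zero hG.measurableSet hz1
  have hv1' : ∫ z in G, γ₂ z * κ₂ z ^ 2 * ip (W₂ z) (gr φ₁ z) = 0 := by
    rw [setIntegral_eq_of_subset_of_forall_sdiff_eq_zero hG.measurableSet hVG hz1, hv1]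
  -- second part
  have hout : ∀ z : ℂ, 1 / 2 < ‖z‖ → z ∉ Ω := by
    intro z hz hzΩ
    have := mem_ball_zero_iff.1 (hP.Ωs hzΩ)
    linarith
  have hgr2 : ∀ z : ℂ, ‖z‖ ≤ 9 / 16 → gr φ₂ z = 0 := by
    intro z hz
    rw [hφ₂, kqe_gr_mul hχ.smooth hφ.1, hχ.zero z hz, hχ.gz z hz]
    simp
  have hcong2 : ∀ᵐ z ∂(volume.restrict G), γ₁ z * κ₁ z ^ 2 * ip (W z) (gr φ₂ z)
      = γ₂ z * κ₂ z ^ 2 * ip (W₂ z) (gr φ₂ z) := by
    refine ae_restrict_of_ae ?_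
    filter_upwards [hQW.outW, ((h2 Ω hP.oΩ).1 _ _ hH0).2] with z hz1 hz2
    by_cases hz : ‖z‖ ≤ 9 / 16
    · rw [hgr2 z hz]
      simp [ip]
    · rw [not_le] at hz
      have hz' : 1 / 2 < ‖z‖ := by linarith
      have e1 := hz2 (hout z hz')
      have e2 : κ₂ z = κ₁ z := by linarith [e1.1]
      rw [hz1 hz', hγ₁ z (hout z hz'), hγ₂ z (hout z hz'), e2]
  have hi2 : IntegrableOn (fun z => γ₁ z * κ₁ z ^ 2 * ip (W z) (gr φ₂ z)) G volume := by
    have e0 : (fun z => γ₁ z * κ₁ z ^ 2 * ip (W z) (gr φ₂ z))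
        = fun z => κ₁ z ^ 2 * ip (W z) (gr φ₂ z) := by
      funext z
      by_cases hz : ‖z‖ ≤ 9 / 16
      · rw [hgr2 z hz]
        simp [ip]
      · rw [not_le] at hz
        rw [hγ₁ z (hout z (by linarith)), one_mul]
    rw [e0]
    set K : Set ℂ := tsupport φ₂ with hK
    have hKc : IsCompact K := hR2.2.1
    have hfin : IsFiniteMeasure (volume.restrict K) := ⟨by
      rw [Measure.restrict_apply_univ]
      exact hKc.measure_lt_top⟩
    have e1 : MemLp W 2 (volume.restrict K) := hW K hKc hR2.2.2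
    have e2 : MemLp (fun z => conj (gr φ₂ z)) 2 (volume.restrict K) := by
      have hcc : Continuous (fun z => conj (gr φ₂ z)) :=
        continuous_conj.comp (kqe_gr_cont hφ₂s)
      obtain ⟨M', hM'⟩ := hKc.exists_bound_of_continuousOn hcc.continuousOn
      refine MemLp.of_bound hcc.aestronglyMeasurable M' ?_
      rw [ae_restrict_iff' hKc.measurableSet]
      exact Eventually.of_forall hM'
    have e3 : IntegrableOn (fun z => W z * conj (gr φ₂ z)) K volume := e1.integrable_mul e2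
    have e4 : IntegrableOn (fun z => ip (W z) (gr φ₂ z)) K volume := e3.re
    have e5 : IntegrableOn (fun z => κ₁ z ^ 2 * ip (W z) (gr φ₂ z)) K volume := by
      refine Integrable.bdd_mul (c := 1) e4 (hKP₁.meas.pow_const 2).aestronglyMeasurable ?_
      refine Eventually.of_forall fun z => ?_
      rw [norm_pow, Real.norm_of_nonneg (hKP₁.lo z)]
      exact pow_le_one₀ (hKP₁.lo z) (hKP₁.hi z)
    refine e5.of_forall_sdiff_eq_zero hG.measurableSet ?_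
    intro z hz
    have : gr φ₂ z = 0 := kqe_gr_zero fun h => hz.2 h
    simp [this, ip]
  have hi2' : IntegrableOn (fun z => γ₂ z * κ₂ z ^ 2 * ip (W₂ z) (gr φ₂ z)) G volume :=
    hi2.congr hcong2
  have hv2 : ∫ z in G, γ₂ z * κ₂ z ^ 2 * ip (W₂ z) (gr φ₂ z) = 0 := by
    rw [← integral_congr_ae hcong2, heq φ₂ hR2]
  -- sum
  have hsum : (fun z => γ₂ z * κ₂ z ^ 2 * ip (W₂ z) (gr φ z))
      = fun z => γ₂ z * κ₂ z ^ 2 * ip (W₂ z) (gr φ₁ z) + γ₂ z * κ₂ z ^ 2 * ip (W₂ z) (gr φ₂ z) := by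
    funext z
    rw [hgr z, kqe_ip_add]
    ring
  rw [hsum, integral_add hi1' hi2', hv1', hv2, add_zero]

end Cal
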