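import Pool.Agent.Lib.MP_4ea4c7_an.StmH2

/-!
# Piece kqw: the quotient `w₂ = u₂/κ₂` (paper 7.3)
-/

open MeasureTheory Complex Metric Set Filter Topology
open scoped ComplexConjugate ENNReal NNReal

namespace Cal

noncomputable section

private lemma kqw_eqOn {U : Set ℂ} (hU : IsOpen U) {f g : ℂ → ℝ} (hf : ContinuousOn f U) (hg : ContinuousOn g U)
    (h : ∀ᵐ z ∂(volume.restrict U), f z = g z) : EqOn f g U :=
  MeasureTheory.Measure.eqOn_open_of_ae_eq (μ := volume) h hU hf hg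

private lemma kqw_deriv_inv (t : ℝ) : deriv (fun s : ℝ => s⁻¹) t = -(t ^ 2)⁻¹ := by
  simp

open Classical in
theorem piece_kqw (h1 : S_kcalc) (h2 : S_kH0) (h3 : S_kreg) : S_kqw := by
  intro Ω G c C γ₁ γ₂ κ₁ κ₂ w u₂ K₁ K₂ W U₁ U₂ M hP hc hγ₂ hoff hκ₁ hκ₂ hH0κ hw hwW hu₁ hU₁ hH0 hsol hbd
  set V : Set ℂ := G ∩ ball 0 (5 / 8) with hV
  set A : Set ℂ := {z | 1 / 2 < ‖z‖} with hA
  have hVo : IsOpen V := hP.oG.inter isOpen_ball
  have hVG : V ⊆ G := inter_subset_left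
  have hAo : IsOpen A := isOpen_lt continuous_const continuous_norm
  have hAG : A ⊆ G := fun z hz => hP.ext z (le_of_lt hz)
  have hAΩ : ∀ z ∈ A, z ∉ Ω := by
    intro z hz hzΩ
    have := hP.Ωs hzΩ
    rw [mem_ball_zero_iff] at this
    exact absurd hz (not_lt.2 this.le)
  have hΩV : Ω ⊆ V := fun z hz => ⟨hP.ΩG hz, ball_subset_ball (by norm_num) (hP.Ωs hz)⟩
  obtain ⟨hWGd, hoffd⟩ := (h2 Ω hP.oΩ).1 _ _ hH0
  obtain ⟨_, hoffκ⟩ := (h2 Ω hP.oΩ).1 _ _ hH0κ
  obtain ⟨cA, cE, cM, cU, cL, cS, cC, cP, cT⟩ := h1 V hVo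
  -- Step 1
  have hWGV : WG V u₂ U₂ := by
    have a1 : WG V (fun z => κ₁ z * w z) U₁ := (h1 G hP.oG).2.2.1 V _ _ hVG hu₁
    have a2 : WG V (fun z => u₂ z - κ₁ z * w z) (fun z => U₂ z - U₁ z) :=
      (h1 univ isOpen_univ).2.2.1 V _ _ (subset_univ _) hWGd
    have a3 := cA _ _ _ _ 1 a1 a2
    have e1 : (fun z => κ₁ z * w z + 1 * (u₂ z - κ₁ z * w z)) = u₂ := by
      funext z; ring
    have e2 : (fun z => U₁ z + ((1 : ℝ) : ℂ) * (U₂ z - U₁ z)) = U₂ := by
      funext z; push_cast; ring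
    rw [e1, e2] at a3
    exact a3
  -- Step 2
  have h34 : ∀ z : ℂ, 3 / 4 < ‖z‖ → γ₂ z = 1 := by
    intro z hz
    refine hoff z fun hzΩ => ?_
    have := hP.Ωs hzΩ
    rw [mem_ball_zero_iff] at this
    linarith
  obtain ⟨g, hg, hug⟩ := h3 c C γ₂ V u₂ U₂ hc hγ₂ h34 hVo hWGV hsol
  have hgWG : WG V g U₂ := cE _ _ _ _ hWGV hug (EventuallyEq.refl _ _)
  have hκ₂V : ContinuousOn κ₂ V := hκ₂.cont.mono hVG
  have hpos : ∀ z ∈ V, 0 < κ₂ z := fun z hz => hκ₂.pos z (hVG hz)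
  -- Step 3
  have hgle : ∀ z ∈ V, |g z| ≤ M * κ₂ z := by
    have e : EqOn (fun z => max |g z| (M * κ₂ z)) (fun z => M * κ₂ z) V := by
      refine kqw_eqOn hVo (hg.abs.sup (continuousOn_const.mul hκ₂V)) (continuousOn_const.mul hκ₂V) ?_
      filter_upwards [hbd, hug] with z hz1 hz2
      rw [hz2] at hz1
      exact max_eq_right hz1
    intro z hz
    have := e hz
    simp only at this
    exact max_eq_right_iff.1 this
  -- Step 4
  set w₂ : ℂ → ℝ := fun z => if z ∈ V then g z / κ₂ z else w z with hw₂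
  set W₂ : ℂ → ℂ := fun z => if z ∈ V then (U₂ z - (w₂ z : ℂ) * K₂ z) / (κ₂ z : ℂ) else W z with hW₂
  have hw₂V : ∀ z ∈ V, w₂ z = g z / κ₂ z := fun z hz => by simp only [hw₂]; rw [if_pos hz]
  have hw₂n : ∀ z, z ∉ V → w₂ z = w z := fun z hz => by simp only [hw₂]; rw [if_neg hz]
  have hW₂V : ∀ z ∈ V, W₂ z = (U₂ z - (w₂ z : ℂ) * K₂ z) / (κ₂ z : ℂ) := fun z hz => by
    simp only [hW₂]; rw [if_pos hz]
  have hW₂n : ∀ z, z ∉ V → W₂ z = W z := fun z hz => by simp only [hW₂]; rw [if_neg hz]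
  have hAV : IsOpen (A ∩ V) := hAo.inter hVo
  have hgw : EqOn g (fun z => κ₂ z * w z) (A ∩ V) := by
    refine kqw_eqOn hAV (hg.mono inter_subset_right)
      ((hκ₂V.mono inter_subset_right).mul (hw.mono (inter_subset_right.trans hVG))) ?_
    have b1 : ∀ᵐ z ∂(volume.restrict (A ∩ V)), u₂ z = g z :=
      ae_restrict_of_ae_restrict_of_subset inter_subset_right hug
    filter_upwards [b1, ae_restrict_of_ae hoffd, ae_restrict_of_ae hoffκ, ae_restrict_mem hAV.measurableSet] with z hz1 hz2 hz3 hz4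
    have hzΩ := hAΩ z hz4.1
    have c1 := (hz2 hzΩ).1
    have c2 := (hz3 hzΩ).1
    rw [← hz1]
    have : κ₂ z = κ₁ z := by linarith
    rw [this]
    linarith
  have hout : ∀ z ∈ A, w₂ z = w z := by
    intro z hz
    by_cases hzV : z ∈ V
    · rw [hw₂V z hzV, hgw ⟨hz, hzV⟩]
      simp only
      rw [mul_div_cancel_left₀ _ (hpos z hzV).ne']
    · exact hw₂n z hzV
  have hcover : ∀ z ∈ G, z ∈ V ∨ z ∈ A := by
    intro z hz
    by_cases hz2 : ‖z‖ < 5 / 8
    · exact Or.inl ⟨hz, mem_ball_zero_iff.2 hz2⟩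
    · right
      show 1 / 2 < ‖z‖
      linarith [not_lt.1 hz2]
  have hw₂cV : ContinuousOn w₂ V :=
    (hg.div hκ₂V fun z hz => (hpos z hz).ne').congr fun z hz => hw₂V z hz
  have hw₂cA : ContinuousOn w₂ A := (hw.mono hAG).congr fun z hz => hout z hz
  have hw₂c : ContinuousOn w₂ G := by
    intro z hz
    rcases hcover z hz with h | h
    · exact (hw₂cV.continuousAt (hVo.mem_nhds h)).continuousWithinAt
    · exact (hw₂cA.continuousAt (hAo.mem_nhds h)).continuousWithinAt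
  -- Step 6
  have hWGV2 : WG V w₂ W₂ := by
    have a1 : WG V κ₂ K₂ := (h1 univ isOpen_univ).2.2.1 V _ _ (subset_univ _) hκ₂.wg
    have a2 := cT κ₂ K₂ (Ioi 0) (fun s : ℝ => s⁻¹) a1 hκ₂V isOpen_Ioi (fun z hz => hpos z hz)
      (contDiffOn_inv ℝ |>.mono fun s hs => (ne_of_gt hs))
    have hinvc : ContinuousOn (fun z => (κ₂ z)⁻¹) V := hκ₂V.inv₀ fun z hz => (hpos z hz).ne'
    have a3 := cP _ _ _ _ hgWG hg a2 hinvc
    refine cE _ _ _ _ a3 ?_ ?_
    · rw [Filter.EventuallyEq, ae_restrict_iff' hVo.measurableSet]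
      refine Eventually.of_forall fun z hz => ?_
      rw [hw₂V z hz, div_eq_mul_inv]
    · rw [Filter.EventuallyEq, ae_restrict_iff' hVo.measurableSet]
      refine Eventually.of_forall fun z hz => ?_
      have k0 : (κ₂ z : ℂ) ≠ 0 := by exact_mod_cast (hpos z hz).ne'
      rw [hW₂V z hz, hw₂V z hz, kqw_deriv_inv]
      push_cast
      field_simp
      ring
  have hWA : ∀ᵐ z : ℂ, 1 / 2 < ‖z‖ → W₂ z = W z := by
    have u1 : WG (A ∩ V) w W := (h1 G hP.oG).2.2.1 _ _ _ (inter_subset_right.trans hVG) hwW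
    have u2 : WG (A ∩ V) w₂ W₂ := cM _ _ _ inter_subset_right hWGV2
    have u3 : WG (A ∩ V) w W₂ := (h1 (A ∩ V) hAV).2.1 _ _ _ _ u2 (by
      rw [Filter.EventuallyEq, ae_restrict_iff' hAV.measurableSet]
      exact Eventually.of_forall fun z hz => hout z hz.1) (EventuallyEq.refl _ _)
    have u4 := (h1 (A ∩ V) hAV).2.2.2.1 _ _ _ u3 u1
    rw [Filter.EventuallyEq, ae_restrict_iff' hAV.measurableSet] at u4
    filter_upwards [u4] with z hz hzA
    by_cases hzV : z ∈ V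
    · exact hz ⟨hzA, hzV⟩
    · exact hW₂n z hzV
  have hWGA : WG A w₂ W₂ := by
    have u1 : WG A w W := (h1 G hP.oG).2.2.1 _ _ _ hAG hwW
    refine (h1 A hAo).2.1 _ _ _ _ u1 ?_ ?_
    · rw [Filter.EventuallyEq, ae_restrict_iff' hAo.measurableSet]
      exact Eventually.of_forall fun z hz => (hout z hz).symm
    · rw [Filter.EventuallyEq, ae_restrict_iff' hAo.measurableSet]
      filter_upwards [hWA] with z hz hzA
      exact (hz hzA).symm
  have hbd2 : ∀ z ∈ G, ‖z‖ < 5 / 8 → |w₂ z| ≤ M := by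
    intro z hz hz2
    have hzV : z ∈ V := ⟨hz, mem_ball_zero_iff.2 hz2⟩
    rw [hw₂V z hzV, abs_div, abs_of_pos (hpos z hzV), div_le_iff₀ (hpos z hzV)]
    exact hgle z hzV
  refine ⟨w₂, W₂, ⟨hw₂c, ?_, hbd2, fun z hz => hout z hz, hWA, ?_, ?_⟩⟩
  · refine (h1 G hP.oG).2.2.2.2.1 _ _ fun z hz => ?_
    rcases hcover z hz with h | h
    · exact ⟨V, hVo, h, hVG, hWGV2⟩
    · exact ⟨A, hAo, h, hAG, hWGA⟩
  · rw [ae_restrict_iff' hVo.measurableSet]
    rw [Filter.EventuallyEq, ae_restrict_iff' hVo.measurableSet] at hug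
    filter_upwards [hug] with z hz hzV
    have k0 : κ₂ z ≠ 0 := (hpos z hzV).ne'
    have k0' : (κ₂ z : ℂ) ≠ 0 := by exact_mod_cast k0
    constructor
    · rw [hz hzV, hw₂V z hzV]
      field_simp
    · rw [hW₂V z hzV]
      field_simp
      ring
  · have l1 : MemLp (fun z => U₂ z - U₁ z) 2 (volume.restrict V) := hH0.mU.restrict V
    have l2 : MemLp U₂ 2 (volume.restrict V) := by
      have := l1.add hU₁
      refine (memLp_congr_ae ?_).1 this
      refine Eventually.of_forall fun z => ?_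
      simp
    have l3 : MemLp (fun z => (w₂ z : ℂ) * K₂ z) 2 (volume.restrict V) := by
      have k : MemLp K₂ 2 (volume.restrict V) := hκ₂.l2.restrict V
      have hm : AEStronglyMeasurable (fun z => (w₂ z : ℂ)) (volume.restrict V) :=
        (Complex.continuous_ofReal.comp_continuousOn hw₂cV).aestronglyMeasurable hVo.measurableSet
      refine (k.const_mul (M : ℂ)).of_le (hm.mul k.1) ?_
      rw [ae_restrict_iff' hVo.measurableSet]
      refine Eventually.of_forall fun z hz => ?_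
      rw [norm_mul, norm_mul]
      refine mul_le_mul_of_nonneg_right ?_ (norm_nonneg _)
      rw [Complex.norm_real, Complex.norm_real, Real.norm_eq_abs, Real.norm_eq_abs]
      exact (hbd2 z hz.1 (mem_ball_zero_iff.1 hz.2)).trans (le_abs_self M)
    refine (memLp_congr_ae ?_).1 (l2.sub l3)
    rw [Filter.EventuallyEq, ae_restrict_iff' hVo.measurableSet]
    refine Eventually.of_forall fun z hz => ?_
    have k0' : (κ₂ z : ℂ) ≠ 0 := by exact_mod_cast (hpos z hz).ne'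
    simp only [Pi.sub_apply]
    rw [hW₂V z hz]
    field_simp

end

end Cal
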