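import Pool.Agent.Lib.MP_4ea4c7_an.StmH2

open MeasureTheory Complex Metric Set Filter Topology
open scoped ComplexConjugate ENNReal NNReal

namespace Cal

theorem piece_kstr (h1 : S_kwt) (h2 : S_kplane) (h3 : S_apl) (h4 : S_bridge) (h5 : S_basic)
    (h6 : S_areg) : S_kstr := by
  intro Ω G c C γ κ w K W hP hc hCond hγ1 hKP hw hWG hint heq
  have hG := hP.oG
  have hγ : ∀ z, 0 ≤ γ z ∧ γ z ≤ C := fun z => ⟨hc.le.trans (hCond.lo z), hCond.hi z⟩
  have hκ : ∀ z, 0 ≤ κ z ∧ κ z ≤ 1 := fun z => ⟨hKP.lo z, hKP.hi z⟩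
  obtain ⟨hXL, hXd⟩ := h2 G C γ κ W hG hCond.meas hγ hKP.meas hκ hKP.cut hWG.G2 hint heq
  set X : ℂ → ℂ := G.indicator (fun z => ((γ z * κ z ^ 2 : ℝ) : ℂ) * W z) with hX
  obtain ⟨s, hsm, hs⟩ := h3 X hXL hXd
  obtain ⟨hAdm, _⟩ := h1 Ω G c C γ κ K hP hc hCond hγ1 hKP
  set A : ℂ → ℂ := fun z => ((1 + γ z * κ z ^ 2 : ℝ) : ℂ) / 2 * conj (W z) with hA
  set B : ℂ → ℂ := fun z => ((1 - γ z * κ z ^ 2 : ℝ) : ℂ) / 2 * W z with hB
  have hσ : ∀ z, 0 ≤ γ z * κ z ^ 2 := fun z => mul_nonneg (hγ z).1 (by positivity)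
  have hBA : ∀ z, B z = (muk γ κ z : ℂ) * conj (A z) := by
    intro z
    have h0 : (1 + γ z * κ z ^ 2 : ℝ) ≠ 0 := by linarith [hσ z]
    have h0' : ((1 + γ z * κ z ^ 2 : ℝ) : ℂ) ≠ 0 := ofReal_ne_zero.2 h0
    have e1 : conj (A z) = ((1 + γ z * κ z ^ 2 : ℝ) : ℂ) / 2 * W z := by
      rw [hA]
      simp only [map_mul, map_div₀, conj_ofReal, conj_conj, map_ofNat]
    rw [e1, hB, muk, ofReal_div]
    simp only
    field_simp
  have hw1 : WD G (fun z => (w z : ℂ)) (fun z => conj (W z) / 2) (fun z => W z / 2) :=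
    h4.2.1 G w W hWG
  have hs1 : WD univ (fun z => (s z : ℂ)) (fun z => conj (I * X z) / 2) (fun z => I * X z / 2) :=
    h4.2.1 univ s _ hs
  have hs2 := h5.2.1 G _ _ _ I (h5.2.2.2.2.1 univ G _ _ _ (subset_univ _) hs1)
  have hsum := h5.1 G _ _ _ _ _ _ hw1 hs2
  have hWD : WD G (fun z => (w z : ℂ) + I * (s z : ℂ)) A B := by
    refine h5.2.2.2.1 G _ _ _ _ _ _ hG.measurableSet hsum (ae_eq_refl _) ?_ ?_
    · rw [EventuallyEq, ae_restrict_iff' hG.measurableSet]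
      refine Eventually.of_forall fun z hz => ?_
      simp only [hX, hA, indicator_of_mem hz]
      rw [map_mul, map_mul, conj_I, conj_ofReal]
      push_cast
      linear_combination (-((γ z : ℂ) * (κ z : ℂ) ^ 2 * conj (W z)) / 2) * I_mul_I
    · rw [EventuallyEq, ae_restrict_iff' hG.measurableSet]
      refine Eventually.of_forall fun z hz => ?_
      simp only [hX, hB, indicator_of_mem hz]
      push_cast
      linear_combination (((γ z : ℂ) * (κ z : ℂ) ^ 2 * W z) / 2) * I_mul_I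
  obtain ⟨F, hFc, hFe⟩ := h6 G (muk γ κ) _ A B hG hAdm.meas hAdm.loc
    (fun z hz => hAdm.supp z hz.le) hWD (Eventually.of_forall hBA)
  have hFWD : WD G F A B := by
    refine h5.2.2.2.1 G _ _ _ _ _ _ hG.measurableSet hWD ?_ (ae_eq_refl _) (ae_eq_refl _)
    filter_upwards [hFe] with z hz
    exact hz.symm
  have hre : EqOn (fun z => (F z).re) w G := by
    refine Measure.eqOn_open_of_ae_eq (μ := volume) ?_ hG
      (continuous_re.comp_continuousOn hFc) hw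
    filter_upwards [hFe] with z hz
    rw [hz]
    simp
  refine ⟨F, hFc, hre, hFWD, hBA, ?_⟩
  intro R
  have e1 : (fun z => ‖A z‖ ^ 2 - ‖B z‖ ^ 2) = fun z => γ z * (κ z ^ 2 * ‖W z‖ ^ 2) := by
    funext z
    simp only [hA, hB, norm_mul, norm_div, Complex.norm_real, RCLike.norm_conj, Complex.norm_ofNat,
      mul_pow, div_pow, Real.norm_eq_abs, sq_abs]
    ring
  have e2 : IntegrableOn (fun z => ‖A z‖ ^ 2 - ‖B z‖ ^ 2) (G ∩ closedBall 0 R) volume := by
    rw [e1]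
    refine Integrable.bdd_mul (c := C) (hint R) hCond.meas.aestronglyMeasurable ?_
    refine Eventually.of_forall fun z => ?_
    rw [Real.norm_of_nonneg (hγ z).1]
    exact (hγ z).2
  exact e2

end Cal
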