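import Pool.Agent.Lib.MP_4ea4c7_an.StmH2

/-!
# MP_4ea4c7_an, stage 2: piece [KD8] transfer of one solution
-/

open MeasureTheory Complex Metric Set Filter Topology
open scoped ComplexConjugate ENNReal NNReal

namespace Cal

noncomputable section

lemma ktr_cr (a W : ℂ) (s : ℝ) : cr a (I * ((s : ℂ) * W)) = s * ip W a := by
  simp only [cr, ip, Complex.mul_im, Complex.mul_re, Complex.conj_re, Complex.conj_im, Complex.I_re,
    Complex.I_im, Complex.ofReal_re, Complex.ofReal_im]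
  ring

lemma ktr_sig {c C : ℝ} {γ κ : ℂ → ℝ} (hc : 0 < c) (hγ : Cond c C γ) (z : ℂ) :
    (1 - muk γ κ z) / (1 + muk γ κ z) = γ z * κ z ^ 2 := by
  have h0 : 0 ≤ γ z * κ z ^ 2 := by
    have hg : 0 ≤ γ z := le_trans hc.le (hγ.lo z)
    exact mul_nonneg hg (sq_nonneg _)
  have h1 : (1 + γ z * κ z ^ 2) ≠ 0 := by
    have : 0 < 1 + γ z * κ z ^ 2 := by linarith
    exact ne_of_gt this
  have e1 : 1 - muk γ κ z = 2 * (γ z * κ z ^ 2) / (1 + γ z * κ z ^ 2) := by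
    unfold muk
    field_simp
    ring
  have e2 : 1 + muk γ κ z = 2 / (1 + γ z * κ z ^ 2) := by
    unfold muk
    field_simp
    ring
  rw [e1, e2]
  field_simp

lemma ktr_gr0 {φ : ℂ → ℝ} {z : ℂ} (hz : z ∉ tsupport φ) : gr φ z = 0 := by
  have h : fderiv ℝ φ z = 0 := by
    by_contra hne
    exact hz (support_fderiv_subset ℝ hne)
  simp [gr, h]

theorem piece_ktr (h1 : S_kcalc) (h2 : S_kH0) (h3 : S_kwt) (h4 : S_kClE) (h5 : S_kCll) (h6 : S_ku1)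
    (h7 : S_ku1s) (h8 : S_ku2b) (h9 : S_kqw) (h10 : S_kqe) (h11 : S_kstr) (h12 : S_aconst)
    (h13 : S_kgeo) (h14 : S_wedge) (h15 : S_bridge) (h16 : S_basic) (h17 : S_smooth) : S_ktr := by
  intro Ω G c C γ₁ γ₂ κ₁ κ₂ K₁ K₂ F M hP hc hγ₁ hγ₂ ho₁ ho₂ hTT hK₁ hK₂ hH0 hF hFM
  have hGo := hP.oG
  obtain ⟨hA1, hW1⟩ := h3 Ω G c C γ₁ κ₁ K₁ hP hc hγ₁ ho₁ hK₁
  obtain ⟨A, B, hD⟩ := ((h5 G _ (muk γ₁ κ₁) κ₁ hA1 hW1).2.2 F).1 hF
  obtain ⟨hre, him, -, hS, -, hint, -⟩ := h4 G _ (muk γ₁ κ₁) κ₁ F A B hA1 hW1 hD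
  obtain ⟨hu1, hu1m, hu1H⟩ := h6 Ω G c C γ₁ κ₁ K₁ F A B M hP hc hγ₁ ho₁ hK₁ hD hFM
  have hu1s := h7 Ω G c C γ₁ κ₁ K₁ F A B hP hc hγ₁ ho₁ hK₁ hD
  obtain ⟨U₁, hU₁⟩ : ∃ U₁ : ℂ → ℂ, U₁ = G.indicator (fun z => (κ₁ z : ℂ) * (conj (A z) + B z) + ((F z).re : ℂ) * K₁ z) := ⟨_, rfl⟩
  rw [← hU₁] at hu1 hu1m hu1H hu1s
  obtain ⟨u₂, U₂, hu2H, hu2s⟩ := hTT _ U₁ hu1H hu1s
  have hrec : ContinuousOn (fun z => (F z).re) G := Complex.continuous_re.comp_continuousOn hD.cont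
  have hu1c : ContinuousOn (fun z => κ₁ z * (F z).re) G := hK₁.cont.mul hrec
  have hu1b : ∀ z ∈ G, ‖z‖ < 5 / 8 → |κ₁ z * (F z).re| ≤ M * κ₁ z := by
    intro z hz hz2
    rw [abs_mul, abs_of_nonneg (hK₁.lo z), mul_comm]
    exact mul_le_mul_of_nonneg_right ((Complex.abs_re_le_norm (F z)).trans (hFM z hz hz2)) (hK₁.lo z)
  have hu2b := h8 Ω G c C γ₁ γ₂ κ₁ κ₂ (fun z => κ₁ z * (F z).re) u₂ K₁ K₂ U₁ U₂ M hP hc hγ₂ hK₁ hK₂ hH0
    hu1c hu1 hu1m hu1b hu2H hu2s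
  obtain ⟨w₂, W₂, hQ⟩ := h9 Ω G c C γ₁ γ₂ κ₁ κ₂ (fun z => (F z).re) u₂ K₁ K₂ (fun z => conj (A z) + B z)
    U₁ U₂ M hP hc hγ₂ ho₂ hK₁ hK₂ hH0 hrec hre hu1 hu1m hu2H hu2s hu2b
  -- the equation for w
  have heq1 : ∀ φ : ℂ → ℝ, RTF G φ → ∫ z in G, γ₁ z * κ₁ z ^ 2 * ip (conj (A z) + B z) (gr φ z) = 0 := by
    intro φ hφ
    have hwg : WG univ φ (gr φ) := h15.2.2.1 univ φ isOpen_univ
      ((hφ.1.of_le (by exact_mod_cast le_top)).contDiffOn)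
    obtain ⟨-, hz, -⟩ := h14 G φ (fun z => (F z).im) (gr φ) (fun z => I * (conj (A z) - B z)) hGo hwg
      hφ.2.1 hφ.2.2 him
    have e1 : ∫ z in G, cr (gr φ z) (I * (conj (A z) - B z)) = ∫ z, cr (gr φ z) (I * (conj (A z) - B z)) := by
      apply setIntegral_eq_integral_of_forall_compl_eq_zero
      intro z hz
      rw [ktr_gr0 (fun hz2 => hz (hφ.2.2 hz2))]
      simp [cr]
    rw [← hz, ← e1]
    apply integral_congr_ae
    filter_upwards [hS] with z hzS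
    rw [hzS.1, ktr_sig hc hγ₁, ktr_cr]
  -- equality off Ω
  have hoff : ∀ᵐ z : ℂ, z ∉ Ω → κ₂ z = κ₁ z := by
    filter_upwards [((h2 Ω hP.oΩ).1 _ _ hH0).2] with z hz hz2
    have := (hz hz2).1
    linarith
  have hΩE : ∀ z : ℂ, 1 / 2 < ‖z‖ → z ∉ Ω := by
    intro z hz hzΩ
    have := hP.Ωs hzΩ
    rw [mem_ball_zero_iff] at this
    linarith
  -- WG of u₂
  have hVo : IsOpen (G ∩ ball 0 (5 / 8)) := hGo.inter isOpen_ball
  have hwu2 : WG (G ∩ ball 0 (5 / 8)) u₂ U₂ := by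
    have ha := ((h2 Ω hP.oΩ).1 _ _ hu2H).1
    have hb := (h1 univ isOpen_univ).2.2.1 (G ∩ ball 0 (5 / 8)) _ _ (subset_univ _) ha
    have hc2 := (h1 G hGo).2.2.1 (G ∩ ball 0 (5 / 8)) _ _ inter_subset_left hu1
    have hd := (h1 _ hVo).1 _ _ _ _ 1 hc2 hb
    refine (h1 _ hVo).2.1 _ _ _ _ hd ?_ ?_
    · exact ae_of_all _ fun z => by ring
    · exact ae_of_all _ fun z => by push_cast; ring
  have heq2 := h10 Ω G c C γ₁ γ₂ κ₁ κ₂ u₂ (fun z => (F z).re) w₂ K₁ K₂ U₂ (fun z => conj (A z) + B z) W₂ M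
    hP hc hγ₂ ho₁ ho₂ hK₁ hK₂ hH0 hwu2 hu2s hQ hre.G2 heq1
  -- integrability
  have hEo : IsOpen {z : ℂ | 1 / 2 < ‖z‖} := isOpen_lt continuous_const continuous_norm
  have hint2 : ∀ R : ℝ, IntegrableOn (fun z => κ₂ z ^ 2 * ‖W₂ z‖ ^ 2) (G ∩ closedBall 0 R) volume := by
    intro R
    have ha : IntegrableOn (fun z => κ₂ z ^ 2 * ‖W₂ z‖ ^ 2) (G ∩ ball 0 (5 / 8)) volume := by
      have hh : IntegrableOn (fun z => ‖(κ₂ z : ℂ) * W₂ z‖ ^ 2) (G ∩ ball 0 (5 / 8)) volume :=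
        hQ.l2.norm.integrable_sq
      refine hh.congr (ae_of_all _ fun z => ?_)
      simp only [norm_mul, Complex.norm_real, Real.norm_eq_abs, mul_pow, sq_abs]
    have hb : IntegrableOn (fun z => κ₂ z ^ 2 * ‖W₂ z‖ ^ 2) ((G ∩ closedBall 0 R) ∩ {z : ℂ | 1 / 2 < ‖z‖}) volume := by
      have hh : IntegrableOn (fun z => κ₁ z ^ 2 * ‖conj (A z) + B z‖ ^ 2)
          ((G ∩ closedBall 0 R) ∩ {z : ℂ | 1 / 2 < ‖z‖}) volume :=
        (hint R).1.mono_set inter_subset_left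
      refine hh.congr ?_
      filter_upwards [ae_restrict_mem ((hGo.measurableSet.inter measurableSet_closedBall).inter hEo.measurableSet),
        ae_restrict_of_ae hoff, ae_restrict_of_ae hQ.outW] with z hz hz2 hz3
      have hz1 : 1 / 2 < ‖z‖ := hz.2
      rw [hz2 (hΩE z hz1), hz3 hz1]
    refine (ha.union hb).mono_set ?_
    intro z hz
    by_cases hz1 : 1 / 2 < ‖z‖
    · exact Or.inr ⟨hz, hz1⟩
    · refine Or.inl ⟨hz.1, ?_⟩
      rw [mem_ball_zero_iff]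
      push Not at hz1
      linarith
  obtain ⟨F', hF'c, hF're, hF'wd, hF'eq, hF'en⟩ := h11 Ω G c C γ₂ κ₂ w₂ K₂ W₂ hP hc hγ₂ ho₂ hK₂ hQ.cont hQ.wg
    hint2 heq2
  -- the exterior
  have hEc : IsConnected {z : ℂ | 1 / 2 < ‖z‖} := h13.2 (1 / 2) (by norm_num)
  have hEG : {z : ℂ | 1 / 2 < ‖z‖} ⊆ G := fun z hz => hP.ext z (le_of_lt hz)
  have hb1 := (h15.1 G F' _ _ hF'wd).2
  have hwgE1 := (h1 G hGo).2.2.1 _ _ _ hEG hb1
  have hwgE2 := (h1 G hGo).2.2.1 _ _ _ hEG him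
  have hwgE := (h1 _ hEo).1 _ _ _ _ (-1) hwgE1 hwgE2
  have hzero := h12 {z : ℂ | 1 / 2 < ‖z‖} _ _ hEo hEc.isPreconnected hwgE (by
    filter_upwards [ae_restrict_mem hEo.measurableSet, ae_restrict_of_ae hoff, ae_restrict_of_ae hQ.outW,
      ae_restrict_of_ae_restrict_of_subset hEG hS] with z hz hz2 hz3 hz4
    have hz1 : 1 / 2 < ‖z‖ := hz
    rw [hz4.1, ktr_sig hc hγ₁, hz2 (hΩE z hz1), hz3 hz1, ho₁ z (hΩE z hz1), ho₂ z (hΩE z hz1)]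
    simp only [map_mul, map_div₀, Complex.conj_ofReal, Complex.conj_conj, map_ofNat]
    push_cast
    ring)
  have hconst := hzero.2 (by
    apply ContinuousOn.add
    · exact Complex.continuous_im.comp_continuousOn (hF'c.mono hEG)
    · exact continuousOn_const.mul (Complex.continuous_im.comp_continuousOn (hD.cont.mono hEG)))
  have h1E : (1 : ℂ) ∈ {z : ℂ | 1 / 2 < ‖z‖} := by
    simp only [Set.mem_ofPred_eq, norm_one]
    norm_num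
  obtain ⟨b, hb⟩ : ∃ b : ℝ, b = (F' 1).im - (F 1).im := ⟨_, rfl⟩
  have hFE : ∀ z : ℂ, 1 / 2 < ‖z‖ → F' z + -(I * (b : ℂ)) = F z := by
    intro z hz
    have hi := hconst z hz 1 h1E
    have hr : (F' z).re = (F z).re := by
      rw [hF're z (hEG hz), hQ.out z hz]
    apply Complex.ext
    · simp [hr]
    · simp only [Complex.add_im, Complex.neg_im, Complex.mul_im, Complex.I_re, Complex.I_im,
        Complex.ofReal_re, Complex.ofReal_im]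
      rw [hb]
      linarith
  refine ⟨fun z => F' z + -(I * (b : ℂ)), ⟨?_, ?_, ?_⟩, hFE⟩
  · exact hF'c.add continuousOn_const
  · refine hF.hol.congr ?_
    intro z hz
    have hz2 : (3 : ℝ) / 4 < ‖z‖ := hz
    exact hFE z (by linarith)
  · refine ⟨_, _, ?_, ae_of_all _ hF'eq, hF'en⟩
    have hcst := h17.2.1 G (fun _ => -(I * (b : ℂ))) hGo (differentiableOn_const _)
    have hsum := h16.1 G _ _ _ _ _ _ hF'wd hcst
    simpa using hsum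

end

end Cal
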