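import Pool.Agent.Lib.MP_4ea4c7_an.StmH2

/-! [KA6] Divergence free fields in `L²_loc` tested with functions of compact support. -/

open MeasureTheory Complex Metric Set Filter Topology
open scoped ComplexConjugate ENNReal NNReal

namespace Cal

private lemma ktst_gr0 : gr (fun _ : ℂ => (0 : ℝ)) = fun _ => 0 := by
  funext z
  simp [gr]

private lemma ktst_ip0 (a : ℂ) : ip a 0 = 0 := by simp [ip]

theorem piece_ktst (h1 : S_kcalc) (h2 : S_kH0c) (h3 : S_ktst0) : S_ktst := by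
  intro V K X a A hV hX hdiv hK hKV hW ha
  obtain ⟨V', hV', hKV', hcl, hcc⟩ := exists_open_between_and_isCompact_closure hK hV hKV
  have hVV : V' ⊆ V := subset_closure.trans hcl
  have hX' : MemLp X 2 (volume.restrict V') := (hX _ hcc hcl).mono_measure (Measure.restrict_mono subset_closure le_rfl)
  have hW' : WG V' a A := (h1 V hV).2.2.1 V' a A hVV hW
  have hH0 : H0 V' (V'.indicator a) (V'.indicator A) :=
    h2 V' K a A hV' hK hKV' hW' (fun z hz hzK => ha z (hVV hz) hzK)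
  have hdiv' : ∀ φ : ℂ → ℝ, RTF V' φ → ∫ z, ip (X z) (gr φ z) = 0 := fun φ hφ =>
    hdiv φ ⟨hφ.1, hφ.2.1, hφ.2.2.trans hVV⟩
  obtain ⟨i1, i2⟩ := h3 V' X _ _ hV' hX' hdiv' hH0
  -- `A = 0` a.e. off `K`
  have hVKo : IsOpen (V \ K) := hV.sdiff hK.isClosed
  have hz0 : WG (V \ K) (fun _ => (0 : ℝ)) (fun _ => 0) := by
    have := (h1 (V \ K) hVKo).2.2.2.2.2.2.1 (fun _ => (0 : ℝ)) contDiffOn_const
    rwa [ktst_gr0] at this
  have hWK : WG (V \ K) a A := (h1 V hV).2.2.1 _ a A diff_subset hW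
  have hza : WG (V \ K) a (fun _ => 0) := by
    refine (h1 (V \ K) hVKo).2.1 (fun _ => (0 : ℝ)) a (fun _ => 0) (fun _ => 0) hz0 ?_ (ae_eq_refl _)
    refine (ae_restrict_iff' hVKo.measurableSet).2 (ae_of_all _ fun z hz => ?_)
    exact (ha z hz.1 hz.2).symm
  have hA0 : A =ᵐ[volume.restrict (V \ K)] fun _ => 0 := (h1 (V \ K) hVKo).2.2.2.1 a A _ hWK hza
  have hA0' : ∀ᵐ z, z ∈ V \ K → A z = 0 := (ae_restrict_iff' hVKo.measurableSet).1 hA0
  have hoff : ∀ᵐ z, z ∈ V \ V' → ip (X z) (A z) = 0 := by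
    filter_upwards [hA0'] with z hz hzV
    rw [hz ⟨hzV.1, fun h => hzV.2 (hKV' h)⟩, ktst_ip0]
  have e1 : EqOn (fun z => ip (X z) (V'.indicator A z)) (fun z => ip (X z) (A z)) V' := by
    intro z hz
    simp only [indicator_of_mem hz]
  have i1' : IntegrableOn (fun z => ip (X z) (A z)) V' volume := i1.congr_fun e1 hV'.measurableSet
  refine ⟨i1'.of_ae_diff_eq_zero hV.measurableSet.nullMeasurableSet hoff, ?_⟩
  rw [setIntegral_eq_of_subset_of_ae_diff_eq_zero hV.measurableSet.nullMeasurableSet hVV hoff,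
    ← setIntegral_congr_fun hV'.measurableSet e1]
  exact i2

end Cal
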