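import Pool.Agent.Lib.MP_4ea4c7_an.StmH2

/-!
# MP_4ea4c7_an, stage 2, piece [KA5]: divergence free fields in `L²(V)` tested with `H0 V`
-/

open MeasureTheory Complex Metric Set Filter Topology
open scoped ComplexConjugate ENNReal NNReal

namespace Cal

noncomputable section

private theorem ktst0_ip (a b : ℂ) : |ip a b| ≤ ‖a‖ * ‖b‖ := by
  unfold ip
  refine (Complex.abs_re_le_norm _).trans ?_
  rw [norm_mul, RCLike.norm_conj]

private theorem ktst0_cs (V : Set ℂ) (X B : ℂ → ℂ) (hX : MemLp X 2 (volume.restrict V))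
    (hB : MemLp B 2 (volume.restrict V)) :
    IntegrableOn (fun z => ip (X z) (B z)) V volume ∧
      ‖∫ z in V, ip (X z) (B z)‖ₑ ≤ eLpNorm X 2 (volume.restrict V) * eLpNorm B 2 (volume.restrict V) := by
  have hm : AEStronglyMeasurable (fun z => ip (X z) (B z)) (volume.restrict V) := by
    unfold ip
    exact Complex.continuous_re.comp_aestronglyMeasurable
      (hX.1.mul (Complex.continuous_conj.comp_aestronglyMeasurable hB.1))
  have hb : ∀ z, ‖ip (X z) (B z)‖ₑ ≤ ‖(X • B) z‖ₑ := by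
    intro z
    rw [enorm_le_iff_norm_le, Real.norm_eq_abs, Pi.smul_apply', norm_smul]
    exact ktst0_ip _ _
  have hle : ∫⁻ z in V, ‖ip (X z) (B z)‖ₑ ≤
      eLpNorm X 2 (volume.restrict V) * eLpNorm B 2 (volume.restrict V) := by
    calc ∫⁻ z in V, ‖ip (X z) (B z)‖ₑ ≤ ∫⁻ z in V, ‖(X • B) z‖ₑ := lintegral_mono hb
      _ = eLpNorm (X • B) 1 (volume.restrict V) := eLpNorm_one_eq_lintegral_enorm.symm
      _ ≤ _ := eLpNorm_smul_le_mul_eLpNorm hB.1 hX.1
  refine ⟨⟨hm, ?_⟩, ?_⟩
  · exact lt_of_le_of_lt hle (ENNReal.mul_lt_top hX.2 hB.2)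
  · exact (enorm_integral_le_lintegral_enorm _).trans hle

private theorem ktst0_gr0 (φ : ℂ → ℝ) (z : ℂ) (hz : z ∉ tsupport φ) : gr φ z = 0 := by
  have h : fderiv ℝ φ z = 0 := by
    have e1 : φ =ᶠ[𝓝 z] (fun _ => (0 : ℝ)) := notMem_tsupport_iff_eventuallyEq.mp hz
    rw [e1.fderiv_eq]
    simp
  unfold gr
  rw [h]
  simp

private theorem ktst0_grL (V : Set ℂ) (φ : ℂ → ℝ) (hφ : RTF V φ) : MemLp (gr φ) 2 volume := by
  have hc : Continuous (gr φ) := by
    have h1 : Continuous (fderiv ℝ φ) := hφ.1.continuous_fderiv (by simp)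
    unfold gr
    fun_prop
  refine hc.memLp_of_hasCompactSupport ?_
  refine hφ.2.1.mono' ?_
  intro z hz
  by_contra hn
  exact hz (ktst0_gr0 φ z hn)

theorem piece_ktst0 : S_ktst0 := by
  intro V X a A hV hX hdiv hA
  have hAV : MemLp A 2 (volume.restrict V) := hA.mU.restrict V
  refine ⟨(ktst0_cs V X A hX hAV).1, ?_⟩
  by_contra hne
  set J : ℝ := ∫ z in V, ip (X z) (A z) with hJ
  set C : ℝ := (eLpNorm X 2 (volume.restrict V)).toReal with hC
  have hC0 : 0 ≤ C := ENNReal.toReal_nonneg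
  have hJp : 0 < |J| := abs_pos.mpr hne
  have key : ∀ ε : ℝ, 0 < ε → |J| ≤ C * ε := by
    intro ε hε
    obtain ⟨φ, hφ, -, hφ2⟩ := hA.app ε hε
    have hg := ktst0_grL V φ hφ
    have hgV : MemLp (gr φ) 2 (volume.restrict V) := hg.restrict V
    have hD : MemLp (fun z => A z - gr φ z) 2 (volume.restrict V) := hAV.sub hgV
    obtain ⟨i1, b1⟩ := ktst0_cs V X _ hX hD
    obtain ⟨i2, -⟩ := ktst0_cs V X _ hX hgV
    have e0 : ∫ z in V, ip (X z) (gr φ z) = 0 := by
      rw [setIntegral_eq_integral_of_forall_compl_eq_zero]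
      · exact hdiv φ hφ
      · intro z hz
        rw [ktst0_gr0 φ z (fun h => hz (hφ.2.2 h))]
        simp [ip]
    have e1 : J = ∫ z in V, ip (X z) (A z - gr φ z) := by
      have : ∫ z in V, ip (X z) (A z - gr φ z) + ip (X z) (gr φ z) = J := by
        rw [hJ]
        refine integral_congr_ae (Eventually.of_forall ?_)
        intro z
        simp only [ip, map_sub, mul_sub, sub_re]
        ring
      rw [integral_add i1 i2, e0, add_zero] at this
      exact this.symm
    rw [← e1] at b1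
    have b2 : eLpNorm (fun z => A z - gr φ z) 2 (volume.restrict V) ≤ ENNReal.ofReal ε :=
      (eLpNorm_restrict_le _ _ _ _).trans hφ2.le
    have b3 : ‖J‖ₑ ≤ ENNReal.ofReal (C * ε) := by
      refine b1.trans ?_
      rw [ENNReal.ofReal_mul hC0, hC, ENNReal.ofReal_toReal hX.2.ne]
      exact mul_le_mul' le_rfl b2
    rw [← ofReal_norm, ENNReal.ofReal_le_ofReal_iff (mul_nonneg hC0 hε.le)] at b3
    exact b3
  have := key (|J| / (2 * (C + 1))) (by positivity)
  have h2 : C * (|J| / (2 * (C + 1))) ≤ |J| / 2 := by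
    rw [mul_div_assoc', div_le_div_iff₀ (by positivity) (by norm_num)]
    nlinarith
  linarith

end

end Cal
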