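import Pool.Agent.Lib.MP_4ea4c7_an.StmH2

/-! [CK ku1] The function `u₁ = κ₁ w₁` and its weak gradient. -/

open MeasureTheory Complex Metric Set Filter Topology
open scoped ComplexConjugate ENNReal NNReal

namespace Cal

noncomputable section

/-- locally square integrable functions are a.e. strongly measurable -/
private lemma ku1_aesm {U : Set ℂ} (hU : IsOpen U) {g : ℂ → ℂ} (h : L2loc U g) :
    AEStronglyMeasurable g (volume.restrict U) := by
  obtain ⟨F, hF1, hF2, hF3, -⟩ := hU.exists_iUnion_isClosed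
  have e : U = ⋃ p : ℕ × ℕ, F p.1 ∩ closedBall 0 (p.2 : ℝ) := by
    ext z
    rw [mem_iUnion]
    constructor
    · intro hz
      rw [← hF3, mem_iUnion] at hz
      obtain ⟨i, hi⟩ := hz
      obtain ⟨n, hn⟩ := exists_nat_ge ‖z‖
      exact ⟨(i, n), hi, by simpa using hn⟩
    · rintro ⟨p, hp⟩
      exact hF2 p.1 hp.1
  rw [e, aestronglyMeasurable_iUnion_iff]
  rintro ⟨m, n⟩
  exact (h _ ((isCompact_closedBall _ _).inter_left (hF1 m))
    (inter_subset_left.trans (hF2 m))).1

private lemma ku1_dct {E : Type*} [NormedAddCommGroup E] {F : ℕ → ℂ → E} {G : ℂ → E}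
    (hF : ∀ k, AEStronglyMeasurable (F k) volume)
    (hG : MemLp G 2 volume) (hb : ∀ k, ∀ᵐ z, ‖F k z‖ ≤ ‖G z‖)
    (hl : ∀ᵐ z, Tendsto (fun k => F k z) atTop (𝓝 0)) :
    Tendsto (fun k => eLpNorm (F k) 2 volume) atTop (𝓝 0) := by
  have e : ∀ k, eLpNorm (F k) 2 volume = (∫⁻ z, ‖F k z‖ₑ ^ (2:ℝ)) ^ (1/2 : ℝ) := by
    intro k
    rw [eLpNorm_eq_lintegral_rpow_enorm_toReal (by norm_num) (by norm_num)]
    norm_num
  simp_rw [e]
  have h0 : Tendsto (fun k => ∫⁻ z, ‖F k z‖ₑ ^ (2:ℝ)) atTop (𝓝 (∫⁻ _ : ℂ, 0)) := by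
    refine tendsto_lintegral_of_dominated_convergence' (fun z => ‖G z‖ₑ ^ (2:ℝ)) ?_ ?_ ?_ ?_
    · intro k; exact (hF k).enorm.pow_const _
    · intro k
      filter_upwards [hb k] with z hz
      exact ENNReal.rpow_le_rpow (enorm_le_iff_norm_le.mpr hz) (by norm_num)
    · have := lintegral_rpow_enorm_lt_top_of_eLpNorm_lt_top (μ := volume) (p := 2) (f := G)
        (by norm_num) (by norm_num) hG.2
      simpa using this.ne
    · filter_upwards [hl] with z hz
      have h1 : Tendsto (fun k => ‖F k z‖ₑ) atTop (𝓝 0) := by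
        simpa using hz.enorm
      have h2 := (ENNReal.continuous_rpow_const (y := (2:ℝ))).tendsto (0 : ℝ≥0∞)
      have h3 := h2.comp h1
      simpa [Function.comp_def] using h3
  rw [lintegral_zero] at h0
  have h2 := (ENNReal.continuous_rpow_const (y := (1/2:ℝ))).tendsto (0 : ℝ≥0∞)
  have h3 := h2.comp h0
  simpa [Function.comp_def] using h3

private lemma ku1_gr_cont {χ : ℂ → ℝ} (h : ContDiff ℝ (⊤ : ℕ∞) χ) : Continuous (gr χ) := by
  have h1 : Continuous (fderiv ℝ χ) := h.continuous_fderiv (by simp)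
  unfold gr
  fun_prop

private lemma ku1_gr_zero {χ : ℂ → ℝ} {z : ℂ} (h : z ∉ tsupport χ) : gr χ z = 0 := by
  have h1 : fderiv ℝ χ z = 0 := by
    by_contra hh
    exact h (support_fderiv_subset ℝ (f := χ) hh)
  unfold gr
  rw [h1]
  simp

private lemma ku1_gr_bdd {Ω : Set ℂ} {χ : ℂ → ℝ} (h : RTF Ω χ) :
    ∃ C : ℝ, 0 ≤ C ∧ (∀ z, |χ z| ≤ C) ∧ (∀ z, ‖gr χ z‖ ≤ C) := by
  have h2 : Continuous (gr χ) := ku1_gr_cont h.1
  have h3 : HasCompactSupport (gr χ) := by
    refine HasCompactSupport.intro h.2.1 ?_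
    intro z hz
    exact ku1_gr_zero hz
  obtain ⟨C1, hC1⟩ := h.1.continuous.bounded_above_of_compact_support h.2.1
  obtain ⟨C2, hC2⟩ := h2.bounded_above_of_compact_support h3
  refine ⟨max C1 C2, ?_, ?_, ?_⟩
  · exact (norm_nonneg _).trans ((hC1 0).trans (le_max_left _ _))
  · intro z
    have := hC1 z
    rw [Real.norm_eq_abs] at this
    exact this.trans (le_max_left _ _)
  · intro z
    exact (hC2 z).trans (le_max_right _ _)

private lemma ku1_gr_mul {a b : ℂ → ℝ} (ha : ContDiff ℝ (⊤ : ℕ∞) a)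
    (hb : ContDiff ℝ (⊤ : ℕ∞) b) (z : ℂ) :
    gr (fun z => a z * b z) z = (a z : ℂ) * gr b z + (b z : ℂ) * gr a z := by
  have h1 : DifferentiableAt ℝ a z := (ha.differentiable (by simp)) z
  have h2 : DifferentiableAt ℝ b z := (hb.differentiable (by simp)) z
  have e := fderiv_fun_mul h1 h2
  unfold gr
  rw [e]
  simp only [ContinuousLinearMap.add_apply, ContinuousLinearMap.smul_apply, smul_eq_mul]
  push_cast
  ring

/-- [KD1] -/
theorem piece_ku1 (h1 : S_kcalc) (h2 : S_kwt) (h3 : S_kClE) (h4 : S_kH0) (h5 : S_kH0c)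
    (_h6 : S_bridge) : S_ku1 := by
  intro Ω G c C γ κ K F A B M hP hc hC hγ hk hF hM
  obtain ⟨hAdm, hWt⟩ := h2 Ω G c C γ κ K hP hc hC hγ hk
  obtain ⟨hwg, -, -, -, -, hen, -⟩ := h3 G _ (muk γ κ) κ F A B hAdm hWt hF
  have hGm : MeasurableSet G := hP.oG.measurableSet
  -- step 1
  have hκ : WG G κ K := (h1 univ isOpen_univ).2.2.1 G κ K (subset_univ _) hk.wg
  have hwc : ContinuousOn (fun z => (F z).re) G := Complex.continuous_re.comp_continuousOn hF.cont
  have hWG0 := (h1 G hP.oG).2.2.2.2.2.2.2.1 κ (fun z => (F z).re) K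
    (fun z => conj (A z) + B z) hκ hk.cont hwg hwc
  set U0 : ℂ → ℂ := fun z => (κ z : ℂ) * (conj (A z) + B z) + ((F z).re : ℂ) * K z with hU0
  set U : ℂ → ℂ := G.indicator U0 with hU
  set u : ℂ → ℝ := fun z => κ z * (F z).re with hu
  have hUG : ∀ z ∈ G, U z = U0 z := fun z hz => indicator_of_mem hz _
  have hUo : ∀ z, z ∉ G → U z = 0 := fun z hz => indicator_of_notMem hz _
  have huo : ∀ z, z ∉ G → u z = 0 := fun z hz => by simp only [hu, hk.off z hz, zero_mul]
  have hWG : WG G u U := by
    refine (h1 G hP.oG).2.1 u u U0 U hWG0 (ae_eq_refl _) ?_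
    filter_upwards [ae_restrict_mem hGm] with z hz
    exact (hUG z hz).symm
  -- measurability
  have hWm : AEStronglyMeasurable (fun z => conj (A z) + B z) (volume.restrict G) :=
    ku1_aesm hP.oG hwg.G2
  have hwm : AEStronglyMeasurable (fun z => (F z).re) (volume.restrict G) :=
    hwc.aestronglyMeasurable hGm
  have hum : AEStronglyMeasurable u volume := by
    have e : u = G.indicator u := by
      funext z
      by_cases hz : z ∈ G
      · rw [indicator_of_mem hz]
      · rw [indicator_of_notMem hz, huo z hz]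
    rw [e]
    exact (aestronglyMeasurable_indicator_iff hGm).2 ((hk.cont.mul hwc).aestronglyMeasurable hGm)
  have hUm : AEStronglyMeasurable U volume := by
    exact (aestronglyMeasurable_indicator_iff hGm).2 (ku1_aesm hP.oG hWG0.G2)
  -- step 2
  have hbm : MeasurableSet (G ∩ ball (0:ℂ) (5 / 8)) := hGm.inter measurableSet_ball
  have hκm : AEStronglyMeasurable (fun z => (κ z : ℂ)) (volume.restrict (G ∩ ball (0:ℂ) (5 / 8))) :=
    (Complex.measurable_ofReal.comp hk.meas).aestronglyMeasurable
  have hL1 : MemLp (fun z => (κ z : ℂ) * (conj (A z) + B z)) 2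
      (volume.restrict (G ∩ ball (0:ℂ) (5 / 8))) := by
    have hm : AEStronglyMeasurable (fun z => (κ z : ℂ) * (conj (A z) + B z))
        (volume.restrict (G ∩ ball (0:ℂ) (5 / 8))) :=
      hκm.mul (hWm.mono_measure (Measure.restrict_mono inter_subset_left le_rfl))
    rw [memLp_two_iff_integrable_sq_norm hm]
    have h := (hen (5 / 8)).1
    have h' : IntegrableOn (fun z => κ z ^ 2 * ‖conj (A z) + B z‖ ^ 2)
        (G ∩ ball (0:ℂ) (5 / 8)) volume :=
      h.mono_set (inter_subset_inter_right _ ball_subset_closedBall)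
    refine (integrable_congr ?_).1 h'
    refine Eventually.of_forall (fun z => ?_)
    simp only [norm_mul, Complex.norm_real, Real.norm_eq_abs, mul_pow, sq_abs]
  have hL2 : MemLp (fun z => ((F z).re : ℂ) * K z) 2
      (volume.restrict (G ∩ ball (0:ℂ) (5 / 8))) := by
    have hK : MemLp K 2 (volume.restrict (G ∩ ball (0:ℂ) (5 / 8))) := hk.l2.restrict _
    refine hK.of_le_mul (c := |M|) ?_ ?_
    · exact ((Complex.continuous_ofReal.comp_aestronglyMeasurable hwm).mono_measure
        (Measure.restrict_mono inter_subset_left le_rfl)).mul hK.1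
    · filter_upwards [ae_restrict_mem hbm] with z hz
      rw [norm_mul]
      refine mul_le_mul_of_nonneg_right ?_ (norm_nonneg _)
      have := hM z hz.1 (by simpa using hz.2)
      rw [Complex.norm_real, Real.norm_eq_abs]
      exact (Complex.abs_re_le_norm _).trans (this.trans (le_abs_self _))
  have hL : MemLp U 2 (volume.restrict (G ∩ ball (0:ℂ) (5 / 8))) := by
    refine (memLp_congr_ae ?_).1 (hL1.add hL2)
    filter_upwards [ae_restrict_mem hbm] with z hz
    rw [hUG z hz.1]
    rfl
  refine ⟨hWG, hL, ?_⟩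
  -- step 3
  intro η hη
  obtain ⟨Cη, hCη0, hCη1, hCη2⟩ := ku1_gr_bdd hη
  have hηc : Continuous η := hη.1.continuous
  have hηg : Continuous (gr η) := ku1_gr_cont hη.1
  have hη0 : ∀ z, 5 / 8 ≤ ‖z‖ → z ∉ tsupport η := by
    intro z hz hh
    have := hη.2.2 hh
    rw [mem_ball_zero_iff] at this
    linarith
  have hub : ∀ z, ‖z‖ < 5 / 8 → |u z| ≤ |M| * κ z := by
    intro z hz
    by_cases hzG : z ∈ G
    · have := hM z hzG hz
      rw [hu, abs_mul, abs_of_nonneg (hk.lo z), mul_comm]
      refine mul_le_mul_of_nonneg_right ?_ (hk.lo z)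
      exact (Complex.abs_re_le_norm _).trans (this.trans (le_abs_self _))
    · rw [huo z hzG, hk.off z hzG]
      simp
  have hηuL : MemLp (fun z => η z * u z) 2 volume := by
    have hf : MemLp ((ball (0:ℂ) (5 / 8)).indicator fun _ => (1:ℝ)) 2 volume := by
      refine memLp_indicator_const 2 measurableSet_ball 1 (Or.inr ?_)
      exact measure_ball_lt_top.ne
    refine hf.of_le_mul (c := Cη * |M|) (hηc.aestronglyMeasurable.mul hum) ?_
    refine Eventually.of_forall (fun z => ?_)
    by_cases hz : ‖z‖ < 5 / 8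
    · rw [indicator_of_mem (by simpa using hz), norm_mul, Real.norm_eq_abs, Real.norm_eq_abs,
        norm_one, mul_one]
      refine mul_le_mul (hCη1 z) ?_ (abs_nonneg _) hCη0
      refine (hub z hz).trans ?_
      exact mul_le_of_le_one_right (abs_nonneg _) (hk.hi z)
    · rw [image_eq_zero_of_notMem_tsupport (hη0 z (not_lt.1 hz)), zero_mul, norm_zero]
      positivity
  have hugL : MemLp (fun z => (u z : ℂ) * gr η z) 2 volume := by
    have hf : MemLp ((ball (0:ℂ) (5 / 8)).indicator fun _ => (1:ℝ)) 2 volume := by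
      refine memLp_indicator_const 2 measurableSet_ball 1 (Or.inr ?_)
      exact measure_ball_lt_top.ne
    refine hf.of_le_mul (c := |M| * Cη)
      ((Complex.continuous_ofReal.comp_aestronglyMeasurable hum).mul
        hηg.aestronglyMeasurable) ?_
    refine Eventually.of_forall (fun z => ?_)
    by_cases hz : ‖z‖ < 5 / 8
    · rw [indicator_of_mem (by simpa using hz), norm_mul, Complex.norm_real, Real.norm_eq_abs,
        norm_one, mul_one]
      refine mul_le_mul ?_ (hCη2 z) (norm_nonneg _) (abs_nonneg _)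
      refine (hub z hz).trans ?_
      exact mul_le_of_le_one_right (abs_nonneg _) (hk.hi z)
    · rw [ku1_gr_zero (hη0 z (not_lt.1 hz)), mul_zero, norm_zero]
      positivity
  have hηUL : MemLp (fun z => (η z : ℂ) * U z) 2 volume := by
    have hf : MemLp ((G ∩ ball (0:ℂ) (5 / 8)).indicator U) 2 volume :=
      (memLp_indicator_iff_restrict hbm).2 hL
    refine hf.of_le_mul (c := Cη)
      ((Complex.continuous_ofReal.comp hηc).aestronglyMeasurable.mul hUm) ?_
    refine Eventually.of_forall (fun z => ?_)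
    by_cases hz : z ∈ G ∩ ball (0:ℂ) (5 / 8)
    · rw [indicator_of_mem hz, norm_mul, Complex.norm_real, Real.norm_eq_abs]
      exact mul_le_mul_of_nonneg_right (hCη1 z) (norm_nonneg _)
    · rw [indicator_of_notMem hz, norm_zero, mul_zero]
      by_cases hzG : z ∈ G
      · have hz2 : 5 / 8 ≤ ‖z‖ := by
          by_contra hh
          exact hz ⟨hzG, by simpa using hh⟩
        rw [image_eq_zero_of_notMem_tsupport (hη0 z hz2)]
        simp
      · rw [hUo z hzG]
        simp
  have hAL : MemLp (fun z => (η z : ℂ) * U z + (u z : ℂ) * gr η z) 2 volume := hηUL.add hugL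
  obtain ⟨τ, hτ1, hτ2, hτ3, hτ4, hτ5, hτ6, hτ7⟩ := hk.cut
  have hτ5' : ∀ᵐ z : ℂ, z ∈ G → Tendsto (fun m => τ m z) atTop (𝓝 1) :=
    (ae_restrict_iff' hGm).1 hτ5
  -- the approximants
  have hH : ∀ m, H0 G (G.indicator (fun z => (τ m z * η z) * u z))
      (G.indicator (fun z => ((τ m z * η z : ℝ) : ℂ) * U z +
        (u z : ℂ) * gr (fun z => τ m z * η z) z)) := by
    intro m
    refine h5 G (tsupport (τ m) ∩ tsupport η) _ _ hP.oG ?_ ?_ ?_ ?_
    · exact hη.2.1.inter_left (isClosed_tsupport _)
    · intro z hz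
      by_contra hh
      exact (Set.disjoint_left.1 (hτ3 m)) hz.1 hh
    · exact (h1 G hP.oG).2.2.2.2.2.1 u (fun z => τ m z * η z) U hWG
        ((hτ1 m).mul hη.1).contDiffOn
    · intro z _ hz
      by_cases hz1 : z ∈ tsupport (τ m)
      · have hz2 : z ∉ tsupport η := fun hh => hz ⟨hz1, hh⟩
        rw [image_eq_zero_of_notMem_tsupport hz2, mul_zero, zero_mul]
      · rw [image_eq_zero_of_notMem_tsupport hz1, zero_mul, zero_mul]
  refine (h4 G hP.oG).2.2.2.2.1 _ _ _ _ hηuL hAL hH ?_ ?_
  · -- convergence of the functions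
    have e : ∀ m, (fun z => η z * u z - G.indicator (fun z => (τ m z * η z) * u z) z) =
        fun z => (1 - τ m z) * (η z * u z) := by
      intro m
      funext z
      by_cases hz : z ∈ G
      · rw [indicator_of_mem hz]
        ring
      · rw [indicator_of_notMem hz, huo z hz]
        ring
    simp_rw [e]
    refine ku1_dct ?_ hηuL ?_ ?_
    · intro m
      exact (continuous_const.sub (hτ1 m).continuous).aestronglyMeasurable.mul hηuL.1
    · intro m
      refine Eventually.of_forall (fun z => ?_)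
      rw [norm_mul]
      refine mul_le_of_le_one_left (norm_nonneg _) ?_
      rw [Real.norm_eq_abs, abs_le]
      constructor <;> linarith [(hτ2 m z).1, (hτ2 m z).2]
    · filter_upwards [hτ5'] with z hz
      by_cases hzG : z ∈ G
      · have h := ((hz hzG).const_sub 1).mul_const (η z * u z)
        simpa using h
      · rw [huo z hzG]
        simp
  · -- convergence of the gradients
    have e : ∀ m, (fun z => ((η z : ℂ) * U z + (u z : ℂ) * gr η z) -
        G.indicator (fun z => ((τ m z * η z : ℝ) : ℂ) * U z +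
          (u z : ℂ) * gr (fun z => τ m z * η z) z) z) =
        (fun z => ((1 - τ m z : ℝ) : ℂ) * ((η z : ℂ) * U z + (u z : ℂ) * gr η z)) +
          fun z => -(((u z * η z : ℝ) : ℂ) * gr (τ m) z) := by
      intro m
      funext z
      rw [Pi.add_apply]
      by_cases hz : z ∈ G
      · rw [indicator_of_mem hz, ku1_gr_mul (hτ1 m) hη.1 z]
        push_cast
        ring
      · rw [indicator_of_notMem hz, huo z hz, hUo z hz]
        push_cast
        ring
    simp_rw [e]
    have hA1 : ∀ m, AEStronglyMeasurable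
        (fun z => ((1 - τ m z : ℝ) : ℂ) * ((η z : ℂ) * U z + (u z : ℂ) * gr η z)) volume := by
      intro m
      exact ((Complex.continuous_ofReal.comp
        (continuous_const.sub (hτ1 m).continuous)).aestronglyMeasurable).mul hAL.1
    have hA2 : ∀ m, AEStronglyMeasurable
        (fun z => -(((u z * η z : ℝ) : ℂ) * gr (τ m) z)) volume := by
      intro m
      exact ((Complex.continuous_ofReal.comp_aestronglyMeasurable
        (hum.mul hηc.aestronglyMeasurable)).mul
          (ku1_gr_cont (hτ1 m)).aestronglyMeasurable).neg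
    have hT1 : Tendsto (fun m => eLpNorm
        (fun z => ((1 - τ m z : ℝ) : ℂ) * ((η z : ℂ) * U z + (u z : ℂ) * gr η z)) 2 volume)
        atTop (𝓝 0) := by
      refine ku1_dct hA1 hAL ?_ ?_
      · intro m
        refine Eventually.of_forall (fun z => ?_)
        rw [norm_mul]
        refine mul_le_of_le_one_left (norm_nonneg _) ?_
        rw [Complex.norm_real, Real.norm_eq_abs, abs_le]
        constructor <;> linarith [(hτ2 m z).1, (hτ2 m z).2]
      · filter_upwards [hτ5'] with z hz
        by_cases hzG : z ∈ G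
        · have h0 : Tendsto (fun m => ((1 - τ m z : ℝ) : ℂ)) atTop (𝓝 ((1 - 1 : ℝ) : ℂ)) :=
            (Complex.continuous_ofReal.tendsto _).comp ((hz hzG).const_sub 1)
          have h := h0.mul_const ((η z : ℂ) * U z + (u z : ℂ) * gr η z)
          simpa using h
        · rw [huo z hzG, hUo z hzG]
          simp
    have hT2 : Tendsto (fun m => eLpNorm
        (fun z => -(((u z * η z : ℝ) : ℂ) * gr (τ m) z)) 2 volume) atTop (𝓝 0) := by
      have hb : ∀ m, eLpNorm (fun z => -(((u z * η z : ℝ) : ℂ) * gr (τ m) z)) 2 volume ≤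
          ENNReal.ofReal (|M| * Cη) * eLpNorm (fun z => (κ z : ℂ) * gr (τ m) z) 2 volume := by
        intro m
        refine eLpNorm_le_mul_eLpNorm_of_ae_le_mul (Eventually.of_forall (fun z => ?_)) 2
        rw [norm_neg, norm_mul, norm_mul, Complex.norm_real, Complex.norm_real,
          Real.norm_eq_abs, Real.norm_eq_abs, abs_mul, abs_of_nonneg (hk.lo z)]
        by_cases hz : ‖z‖ < 5 / 8
        · have h7 := mul_le_mul (hub z hz) (hCη1 z) (abs_nonneg _)
            (mul_nonneg (abs_nonneg M) (hk.lo z))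
          calc |u z| * |η z| * ‖gr (τ m) z‖ ≤ (|M| * κ z * Cη) * ‖gr (τ m) z‖ :=
                mul_le_mul_of_nonneg_right h7 (norm_nonneg _)
            _ = |M| * Cη * (κ z * ‖gr (τ m) z‖) := by ring
        · rw [image_eq_zero_of_notMem_tsupport (hη0 z (not_lt.1 hz)), abs_zero, mul_zero, zero_mul]
          have := hk.lo z
          positivity
      have hl : Tendsto (fun m => ENNReal.ofReal (|M| * Cη) *
          eLpNorm (fun z => (κ z : ℂ) * gr (τ m) z) 2 volume) atTop (𝓝 0) := by
        have := ENNReal.Tendsto.const_mul hτ7 (Or.inr (ENNReal.ofReal_ne_top (r := |M| * Cη)))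
        simpa using this
      exact tendsto_of_tendsto_of_tendsto_of_le_of_le tendsto_const_nhds hl
        (fun _ => zero_le) hb
    have hT := hT1.add hT2
    rw [add_zero] at hT
    refine tendsto_of_tendsto_of_tendsto_of_le_of_le tendsto_const_nhds hT
      (fun _ => zero_le) (fun m => ?_)
    exact eLpNorm_add_le (hA1 m) (hA2 m) (by norm_num)

end

end Cal
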