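import Pool.Agent.Lib.MP_4ea4c7_an.StmH2

/-!
# MP_4ea4c7_an, piece ku1s (the equation for the function u₁ = κ w)
-/

open MeasureTheory Complex Metric Set Filter Topology
open scoped ComplexConjugate ENNReal NNReal

namespace Cal

noncomputable section

theorem ku1s_ip_cr (S g : ℂ) : ip (-(I * S)) g = cr g S := by
  simp only [ip, cr, Complex.mul_re, Complex.mul_im, Complex.neg_re, Complex.neg_im, Complex.I_re, Complex.I_im,
    Complex.conj_re, Complex.conj_im]
  ring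

theorem ku1s_ip_comm (a b : ℂ) : ip a b = ip b a := by
  simp only [ip, Complex.mul_re, Complex.conj_re, Complex.conj_im]
  ring

theorem ku1s_ip_smul (r : ℝ) (a b : ℂ) : ip ((r : ℂ) * a) b = r * ip a b := by
  simp only [ip, Complex.mul_re, Complex.mul_im, Complex.ofReal_re, Complex.ofReal_im, Complex.conj_re, Complex.conj_im]
  ring

theorem ku1s_ip_smul' (r : ℝ) (a b : ℂ) : ip a ((r : ℂ) * b) = r * ip a b := by
  rw [ku1s_ip_comm, ku1s_ip_smul, ku1s_ip_comm]

theorem ku1s_ip_add (a b c : ℂ) : ip (a + b) c = ip a c + ip b c := by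
  simp only [ip, Complex.mul_re, Complex.add_re, Complex.add_im, Complex.conj_re, Complex.conj_im]
  ring

theorem ku1s_ip_add' (a b c : ℂ) : ip a (b + c) = ip a b + ip a c := by
  rw [ku1s_ip_comm, ku1s_ip_add, ku1s_ip_comm b, ku1s_ip_comm c]

theorem ku1s_ip_zero (a : ℂ) : ip a 0 = 0 := by simp [ip]

theorem ku1s_gr_off (φ : ℂ → ℝ) (z : ℂ) (hz : z ∉ tsupport φ) : gr φ z = 0 := by
  have h : fderiv ℝ φ z = 0 := by
    have := tsupport_fderiv_subset ℝ (f := φ)
    exact image_eq_zero_of_notMem_tsupport (fun h' => hz (this h'))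
  simp [gr, h]

theorem ku1s_deriv (x : ℝ) (hx : x ≠ 0) : deriv (fun t : ℝ => t⁻¹) x = -(x ^ 2)⁻¹ := by
  have := deriv_inv (𝕜 := ℝ) (x := x)
  simpa using this

theorem ku1s_L2loc_const (U : Set ℂ) (S : ℂ → ℂ) (h : L2loc U S) : L2loc U (fun z => -(I * S z)) := by
  intro K hK hKU
  have := ((h K hK hKU).const_mul I).neg
  exact this

theorem ku1s_L2loc_gam (U : Set ℂ) (c C : ℝ) (γ : ℂ → ℝ) (K : ℂ → ℂ) (hc : 0 < c) (hγ : Cond c C γ) (h : L2loc U K) :
    L2loc U (fun z => (γ z : ℂ) * K z) := by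
  intro K' hK' hKU
  have h1 := h K' hK' hKU
  refine MemLp.of_le_mul (c := C) h1 ?_ ?_
  · exact (Complex.measurable_ofReal.comp hγ.meas).aestronglyMeasurable.mul h1.1
  · refine Filter.Eventually.of_forall fun z => ?_
    rw [norm_mul, Complex.norm_real]
    refine mul_le_mul_of_nonneg_right ?_ (norm_nonneg _)
    rw [Real.norm_eq_abs, abs_of_nonneg (le_trans hc.le (hγ.lo z))]
    exact hγ.hi z

/-- the coefficient `σ` of `muk` -/
theorem ku1s_sig (g k : ℝ) (hg : 0 < g) :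
    (1 - (1 - g * k ^ 2) / (1 + g * k ^ 2)) / (1 + (1 - g * k ^ 2) / (1 + g * k ^ 2)) = g * k ^ 2 := by
  have h : (0 : ℝ) < 1 + g * k ^ 2 := by positivity
  field_simp
  ring

theorem piece_ku1s (h1 : S_kcalc) (h2 : S_kwt) (h3 : S_kClE) (h4 : S_ktst) (h5 : S_wedge) (h6 : S_bridge) : S_ku1s := by
  intro Ω G c C γ κ K F A B hPos hc hγ hγ1 hKP hCl φ hφ
  obtain ⟨hAdm, hWt⟩ := h2 Ω G c C γ κ K hPos hc hγ hγ1 hKP
  obtain ⟨hW, hS, -, hae, -, -, -⟩ := h3 G _ _ κ F A B hAdm hWt hCl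
  have hGo : IsOpen G := hPos.oG
  have hVo : IsOpen (G ∩ ball 0 (5 / 8)) := hGo.inter isOpen_ball
  have hVG : G ∩ ball (0 : ℂ) (5 / 8) ⊆ G := inter_subset_left
  obtain ⟨hφs, hφc, hφV⟩ := hφ
  have hφG : tsupport φ ⊆ G := hφV.trans hVG
  obtain ⟨-, hG2, -, -, -, hG6, -, -, hG9⟩ := h1 G hGo
  obtain ⟨-, -, -, -, -, hV6, -, -, -⟩ := h1 (G ∩ ball 0 (5 / 8)) hVo
  obtain ⟨-, -, hU3, -⟩ := h1 univ isOpen_univ
  have hG3 := (h1 G hGo).2.2.1
  have hκG : WG G κ K := hU3 G κ K (subset_univ _) hKP.wg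
  have hκV : WG (G ∩ ball 0 (5 / 8)) κ K := hU3 _ κ K (subset_univ _) hKP.wg
  set W : ℂ → ℂ := fun z => conj (A z) + B z with hWdef
  set S : ℂ → ℂ := fun z => I * (conj (A z) - B z) with hSdef
  -- (a)
  have hinv := hG9 κ K (Ioi 0) (fun t => t⁻¹) hκG hKP.cont isOpen_Ioi (fun z hz => hKP.pos z hz)
    (by
      intro t ht
      have ht' : t ≠ 0 := ne_of_gt ht
      exact (contDiffAt_inv ℝ ht').contDiffWithinAt)
  have ha := hG6 _ φ _ hinv hφs.contDiffOn
  have hdiv : ∀ ψ : ℂ → ℝ, RTF G ψ → ∫ z, ip (-(I * S z)) (gr ψ z) = 0 := by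
    intro ψ hψ
    have hψw : WG univ ψ (gr ψ) := h6.2.2.1 univ ψ isOpen_univ ((hψ.1.of_le (by exact_mod_cast le_top)).contDiffOn)
    have := (h5 G ψ _ (gr ψ) S hGo hψw hψ.2.1 hψ.2.2 hS).2.1
    rw [← this]
    refine integral_congr_ae (Filter.Eventually.of_forall fun z => ?_)
    exact ku1s_ip_cr _ _
  have hka := h4 G (tsupport φ) (fun z => -(I * S z)) _ _ hGo (ku1s_L2loc_const G S hS.G2) hdiv hφc.isCompact hφG ha
    (by
      intro z _ hz
      simp [image_eq_zero_of_notMem_tsupport hz])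
  obtain ⟨hai, ha0⟩ := hka
  -- pointwise form of the integrand of (a)
  set fa : ℂ → ℝ := fun z => γ z * κ z * ip (W z) (gr φ z) - γ z * φ z * ip (W z) (K z) with hfa
  have haeq : (fun z => ip (-(I * S z)) ((φ z : ℂ) * (((deriv (fun t : ℝ => t⁻¹) (κ z) : ℝ) : ℂ) * K z) + (((κ z)⁻¹ : ℝ) : ℂ) * gr φ z))
      =ᵐ[volume.restrict G] fa := by
    filter_upwards [hae, ae_restrict_mem hGo.measurableSet] with z hz hzG
    have hκz := hKP.pos z hzG
    have hγz : 0 < γ z := lt_of_lt_of_le hc (hγ.lo z)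
    have hSW : S z = I * (((γ z * κ z ^ 2 : ℝ) : ℂ) * W z) := by
      have := hz.1
      rw [muk, ku1s_sig _ _ hγz] at this
      exact this
    have hXz : -(I * S z) = ((γ z * κ z ^ 2 : ℝ) : ℂ) * W z := by
      rw [hSW, ← mul_assoc, Complex.I_mul_I]
      ring
    rw [hXz, ku1s_ip_smul, ku1s_ip_add', ku1s_ip_smul', ku1s_ip_smul', ku1s_ip_smul', ku1s_deriv _ hκz.ne']
    simp only [hfa]
    field_simp
    ring
  have hfai : IntegrableOn fa G volume := hai.congr haeq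
  have hfa0 : ∫ z in G, fa z = 0 := by
    rw [← ha0]
    exact (integral_congr_ae haeq).symm
  have hfaz : ∀ z, z ∉ tsupport φ → fa z = 0 := by
    intro z hz
    simp only [hfa]
    rw [ku1s_gr_off φ z hz, ku1s_ip_zero, image_eq_zero_of_notMem_tsupport hz]
    ring
  have hfaI : Integrable fa volume := by
    rw [← integrableOn_univ]
    refine (integrableOn_iff_integrable_of_support_subset ?_).1 hfai |>.integrableOn
    intro z hz
    by_contra hzG
    exact hz (hfaz z (fun h => hzG (hφG h)))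
  have hfaT : ∫ z, fa z = 0 := by
    rw [← hfa0]
    refine (setIntegral_eq_integral_of_forall_compl_eq_zero fun z hzG => ?_).symm
    exact hfaz z (fun h => hzG (hφG h))
  -- (b)
  have hWV : WG (G ∩ ball 0 (5 / 8)) (fun z => (F z).re) W := hG3 _ _ _ hVG hW
  have hb := hV6 _ φ _ hWV hφs.contDiffOn
  have hdivb : ∀ ψ : ℂ → ℝ, RTF (G ∩ ball 0 (5 / 8)) ψ → ∫ z, ip ((γ z : ℂ) * K z) (gr ψ z) = 0 := by
    intro ψ hψ
    rw [← hKP.sol ψ hψ]
    refine integral_congr_ae (Filter.Eventually.of_forall fun z => ?_)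
    exact ku1s_ip_smul _ _ _
  obtain ⟨hbi, hb0⟩ := h4 _ (tsupport φ) (fun z => (γ z : ℂ) * K z) _ _ hVo
    (ku1s_L2loc_gam _ c C γ K hc hγ hκV.G2) hdivb hφc.isCompact hφV hb
    (by
      intro z _ hz
      simp [image_eq_zero_of_notMem_tsupport hz])
  set fb : ℂ → ℝ := fun z => γ z * φ z * ip (W z) (K z) + γ z * (F z).re * ip (K z) (gr φ z) with hfb
  have hbeq : (fun z => ip ((γ z : ℂ) * K z) ((φ z : ℂ) * W z + ((F z).re : ℂ) * gr φ z)) = fb := by
    funext z
    rw [ku1s_ip_smul, ku1s_ip_add', ku1s_ip_smul', ku1s_ip_smul']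
    simp only [hfb]
    rw [ku1s_ip_comm (K z) (W z)]
    ring
  have hbi' : IntegrableOn fb (G ∩ ball 0 (5 / 8)) volume := by
    rw [← hbeq]; exact hbi
  have hfbz : ∀ z, z ∉ tsupport φ → fb z = 0 := by
    intro z hz
    simp only [hfb]
    rw [ku1s_gr_off φ z hz, ku1s_ip_zero, image_eq_zero_of_notMem_tsupport hz]
    ring
  have hfbI : Integrable fb volume := by
    rw [← integrableOn_univ]
    refine (integrableOn_iff_integrable_of_support_subset ?_).1 hbi' |>.integrableOn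
    intro z hz
    by_contra hzG
    exact hz (hfbz z (fun h => hzG (hφV h)))
  have hfbT : ∫ z, fb z = 0 := by
    have : ∫ z in G ∩ ball 0 (5 / 8), fb z = 0 := by
      rw [← hbeq]; exact hb0
    rw [← this]
    refine (setIntegral_eq_integral_of_forall_compl_eq_zero fun z hzG => ?_).symm
    exact hfbz z (fun h => hzG (hφV h))
  -- the sum
  have hsum : ∫ z, (fa z + fb z) = 0 := by
    rw [integral_add hfaI hfbI, hfaT, hfbT, add_zero]
  rw [← hsum]
  refine integral_congr_ae (Filter.Eventually.of_forall fun z => ?_)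
  show γ z * ip (G.indicator (fun z => (κ z : ℂ) * W z + ((F z).re : ℂ) * K z) z) (gr φ z) = fa z + fb z
  by_cases hz : z ∈ tsupport φ
  · rw [indicator_of_mem (hφG hz), ku1s_ip_add, ku1s_ip_smul, ku1s_ip_smul]
    simp only [hfa, hfb]
    ring
  · rw [ku1s_gr_off φ z hz, ku1s_ip_zero, hfaz z hz, hfbz z hz]
    ring

end

end Cal
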