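import Pool.Agent.Lib.MP_4ea4c7_an.StmH2

/-!
# MP_4ea4c7_an, stage 2, piece [KD3]: the bound for `u₂`
-/

open MeasureTheory Complex Metric Set Filter Topology
open scoped ComplexConjugate ENNReal NNReal

namespace Cal

noncomputable section

private theorem ku2b_ip (a b : ℂ) : |ip a b| ≤ ‖a‖ * ‖b‖ := by
  unfold ip
  refine (Complex.abs_re_le_norm _).trans ?_
  rw [norm_mul, RCLike.norm_conj]

private theorem ku2b_cs (V : Set ℂ) (X B : ℂ → ℂ) (hX : MemLp X 2 (volume.restrict V))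
    (hB : MemLp B 2 (volume.restrict V)) :
    IntegrableOn (fun z => ip (X z) (B z)) V volume := by
  have hm : AEStronglyMeasurable (fun z => ip (X z) (B z)) (volume.restrict V) := by
    unfold ip
    exact Complex.continuous_re.comp_aestronglyMeasurable
      (hX.1.mul (Complex.continuous_conj.comp_aestronglyMeasurable hB.1))
  have hb : ∀ z, ‖ip (X z) (B z)‖ₑ ≤ ‖(X • B) z‖ₑ := by
    intro z
    rw [enorm_le_iff_norm_le, Real.norm_eq_abs, Pi.smul_apply', norm_smul]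
    exact ku2b_ip _ _
  have hle : ∫⁻ z in V, ‖ip (X z) (B z)‖ₑ ≤
      eLpNorm X 2 (volume.restrict V) * eLpNorm B 2 (volume.restrict V) := by
    calc ∫⁻ z in V, ‖ip (X z) (B z)‖ₑ ≤ ∫⁻ z in V, ‖(X • B) z‖ₑ := lintegral_mono hb
      _ = eLpNorm (X • B) 1 (volume.restrict V) := eLpNorm_one_eq_lintegral_enorm.symm
      _ ≤ _ := eLpNorm_smul_le_mul_eLpNorm hB.1 hX.1
  exact ⟨hm, lt_of_le_of_lt hle (ENNReal.mul_lt_top hX.2 hB.2)⟩

private theorem ku2b_gr0 (φ : ℂ → ℝ) (z : ℂ) (hz : z ∉ tsupport φ) : gr φ z = 0 := by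
  have h : fderiv ℝ φ z = 0 := by
    have e1 : φ =ᶠ[𝓝 z] (fun _ => (0 : ℝ)) := notMem_tsupport_iff_eventuallyEq.mp hz
    rw [e1.fderiv_eq]
    simp
  unfold gr
  rw [h]
  simp

private theorem ku2b_grL (V : Set ℂ) (φ : ℂ → ℝ) (hφ : RTF V φ) : MemLp (gr φ) 2 volume := by
  have hc : Continuous (gr φ) := by
    have h1 : Continuous (fderiv ℝ φ) := hφ.1.continuous_fderiv (by simp)
    unfold gr
    fun_prop
  refine hc.memLp_of_hasCompactSupport ?_
  refine hφ.2.1.mono' ?_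
  intro z hz
  by_contra hn
  exact hz (ku2b_gr0 φ z hn)

private theorem ku2b_int (Ω : Set ℂ) (c C : ℝ) (γ : ℂ → ℝ) (X : ℂ → ℂ) (φ : ℂ → ℝ)
    (hc : 0 < c) (hγ : Cond c C γ) (hX : MemLp X 2 (volume.restrict Ω)) (hφ : RTF Ω φ) :
    Integrable (fun z => γ z * ip (X z) (gr φ z)) volume := by
  have h1 := ku2b_cs Ω X (gr φ) hX ((ku2b_grL Ω φ hφ).restrict Ω)
  have h2 : IntegrableOn (fun z => γ z * ip (X z) (gr φ z)) Ω volume := by
    refine Integrable.bdd_mul (c := C) h1 hγ.meas.aestronglyMeasurable (Eventually.of_forall ?_)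
    intro z
    rw [Real.norm_eq_abs, abs_of_pos (hc.trans_le (hγ.lo z))]
    exact hγ.hi z
  rw [← integrableOn_iff_integrable_of_support_subset (s := Ω)]
  · exact h2
  · intro z hz
    by_contra hn
    apply hz
    simp only
    rw [ku2b_gr0 φ z (fun h => hn (hφ.2.2 h))]
    simp [ip]

theorem piece_ku2b (h1 : S_kcalc) (h2 : S_kH0) (h3 : S_kwmp) : S_ku2b := by
  intro Ω G c C γ₁ γ₂ κ₁ κ₂ u₁ u₂ K₁ K₂ U₁ U₂ M hP hc hγ hk1 hk2 hk hu1 hw1 hm1 hb1 hu hsol
  have hΩV : Ω ⊆ G ∩ ball 0 (5 / 8) := fun z hz =>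
    ⟨hP.ΩG hz, ball_subset_ball (by norm_num) (hP.Ωs hz)⟩
  have hΩb : Bornology.IsBounded Ω := isBounded_ball.subset hP.Ωs
  have hfin : volume Ω < ⊤ := hΩb.measure_lt_top
  have : IsFiniteMeasure (volume.restrict Ω) := ⟨by
    rw [Measure.restrict_apply_univ]; exact hfin⟩
  have hmΩ : MeasurableSet Ω := hP.oΩ.measurableSet
  -- the pieces in L²(Ω)
  have mκ₁ : MemLp κ₁ 2 (volume.restrict Ω) :=
    MemLp.of_bound hk1.meas.aestronglyMeasurable 1 (Eventually.of_forall fun z => by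
      rw [Real.norm_eq_abs, abs_of_nonneg (hk1.lo z)]; exact hk1.hi z)
  have mκ₂ : MemLp κ₂ 2 (volume.restrict Ω) :=
    MemLp.of_bound hk2.meas.aestronglyMeasurable 1 (Eventually.of_forall fun z => by
      rw [Real.norm_eq_abs, abs_of_nonneg (hk2.lo z)]; exact hk2.hi z)
  have mu₁ : MemLp u₁ 2 (volume.restrict Ω) := by
    refine MemLp.of_bound ((hu1.mono hP.ΩG).aestronglyMeasurable hmΩ) |M| ?_
    filter_upwards [ae_restrict_mem hmΩ] with z hz
    have hzV := hΩV hz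
    have hz2 : ‖z‖ < 5 / 8 := by simpa using hzV.2
    rw [Real.norm_eq_abs]
    refine (hb1 z hzV.1 hz2).trans ?_
    calc M * κ₁ z ≤ |M| * κ₁ z := mul_le_mul_of_nonneg_right (le_abs_self M) (hk1.lo z)
      _ ≤ |M| * 1 := mul_le_mul_of_nonneg_left (hk1.hi z) (abs_nonneg M)
      _ = |M| := mul_one _
  have mu₂ : MemLp u₂ 2 (volume.restrict Ω) := by
    have := (hu.mu.restrict Ω).add mu₁
    refine this.ae_eq (Eventually.of_forall fun z => ?_)
    simp
  have mU₁ : MemLp U₁ 2 (volume.restrict Ω) := hm1.mono_measure (Measure.restrict_mono_set _ hΩV)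
  have mU₂ : MemLp U₂ 2 (volume.restrict Ω) := by
    have := (hu.mU.restrict Ω).add mU₁
    refine this.ae_eq (Eventually.of_forall fun z => ?_)
    simp
  have mK₁ : MemLp K₁ 2 (volume.restrict Ω) := hk1.l2.restrict Ω
  have mK₂ : MemLp K₂ 2 (volume.restrict Ω) := hk2.l2.restrict Ω
  have hΩo := h2 Ω hP.oΩ
  have hΩc := h1 Ω hP.oΩ
  -- the main estimate on Ω
  have key : ∀ s : ℝ, |s| = 1 → ∀ᵐ z ∂(volume.restrict Ω),
      (κ₂ z + (-M - 1) * κ₂ z) + s * u₂ z ≤ 0 := by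
    intro s hs
    have hH := hΩo.2.1 _ _ _ _ s (hΩo.2.1 _ _ _ _ (-M - 1) hk hk) hu
    refine h3 c C γ₂ Ω (fun z => (κ₂ z + (-M - 1) * κ₂ z) + s * u₂ z)
      (fun z => (K₂ z + ((-M - 1 : ℝ) : ℂ) * K₂ z) + (s : ℂ) * U₂ z) hc hγ hP.oΩ hΩb
      ((mκ₂.add (mκ₂.const_mul _)).add (mu₂.const_mul _))
      ((mK₂.add (mK₂.const_mul _)).add (mU₂.const_mul _)) ?_ ?_
    · intro φ hφ
      have hφV : RTF (G ∩ ball 0 (5 / 8)) φ := ⟨hφ.1, hφ.2.1, hφ.2.2.trans hΩV⟩
      have i1 := ku2b_int Ω c C γ₂ K₂ φ hc hγ mK₂ hφ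
      have i2 := ku2b_int Ω c C γ₂ U₂ φ hc hγ mU₂ hφ
      have z1 := hk2.sol φ hφV
      have z2 := hsol φ hφV
      have e : (fun z => γ₂ z * ip ((K₂ z + ((-M - 1 : ℝ) : ℂ) * K₂ z) + (s : ℂ) * U₂ z) (gr φ z)) =
          fun z => (-M) * (γ₂ z * ip (K₂ z) (gr φ z)) + s * (γ₂ z * ip (U₂ z) (gr φ z)) := by
        funext z
        have e1 : ((K₂ z + ((-M - 1 : ℝ) : ℂ) * K₂ z) + (s : ℂ) * U₂ z) * conj (gr φ z) =
            ((-M : ℝ) : ℂ) * (K₂ z * conj (gr φ z)) + (s : ℂ) * (U₂ z * conj (gr φ z)) := by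
          push_cast
          ring
        unfold ip
        rw [e1, add_re, re_ofReal_mul, re_ofReal_mul]
        ring
      rw [e, integral_add (i1.const_mul _) (i2.const_mul _), integral_const_mul,
        integral_const_mul, z1, z2]
      ring
    · intro ε hε
      obtain ⟨φ, hφ, a1, a2⟩ := hH.app ε hε
      have hgφ := ku2b_grL Ω φ hφ
      have hcφ : MemLp φ 2 volume :=
        hφ.1.continuous.memLp_of_hasCompactSupport hφ.2.1
      have w1 : WG Ω u₁ U₁ := (h1 G hP.oG).2.2.1 Ω u₁ U₁ hP.ΩG hw1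
      have w2 : WG Ω κ₁ K₁ := (h1 univ isOpen_univ).2.2.1 Ω κ₁ K₁ (subset_univ _) hk1.wg
      have w3 : WG Ω φ (gr φ) := hΩc.2.2.2.2.2.2.1 φ (hφ.1.of_le (by exact_mod_cast le_top)).contDiffOn
      refine ⟨fun z => ((κ₁ z + (-M - 1) * κ₁ z) + s * u₁ z) + 1 * φ z,
        fun z => ((K₁ z + ((-M - 1 : ℝ) : ℂ) * K₁ z) + (s : ℂ) * U₁ z) + ((1 : ℝ) : ℂ) * gr φ z,
        tsupport φ, ?_, ?_, ?_, ?_, hφ.2.1, hφ.2.2, ?_, ?_, ?_⟩
      · have cκ := hk1.cont.mono hP.ΩG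
        exact ((cκ.add (continuousOn_const.mul cκ)).add
          (continuousOn_const.mul (hu1.mono hP.ΩG))).add
          (continuousOn_const.mul hφ.1.continuous.continuousOn)
      · exact hΩc.1 _ _ _ _ 1 (hΩc.1 _ _ _ _ s (hΩc.1 _ _ _ _ (-M - 1) w2 w2) w1) w3
      · exact ((mκ₁.add (mκ₁.const_mul _)).add (mu₁.const_mul _)).add
          ((hcφ.restrict Ω).const_mul _)
      · exact ((mK₁.add (mK₁.const_mul _)).add (mU₁.const_mul _)).add
          ((hgφ.restrict Ω).const_mul _)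
      · intro z hz hzn
        have hzV := hΩV hz
        have hz2 : ‖z‖ < 5 / 8 := by simpa using hzV.2
        have hb := hb1 z hzV.1 hz2
        have h0 : φ z = 0 := image_eq_zero_of_notMem_tsupport hzn
        have h4 : s * u₁ z ≤ |u₁ z| := by
          calc s * u₁ z ≤ |s * u₁ z| := le_abs_self _
            _ = |u₁ z| := by rw [abs_mul, hs, one_mul]
        simp only [h0]
        linarith
      · refine lt_of_le_of_lt ?_ a1
        refine le_trans (le_of_eq ?_) (eLpNorm_restrict_le _ _ _ Ω)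
        congr 1
        funext z
        ring
      · refine lt_of_le_of_lt ?_ a2
        refine le_trans (le_of_eq ?_) (eLpNorm_restrict_le _ _ _ Ω)
        congr 1
        funext z
        push_cast
        ring
  have k1 := key 1 (by norm_num)
  have k2 := key (-1) (by norm_num)
  rw [ae_restrict_iff' hmΩ] at k1 k2
  have o1 := (hΩo.1 _ _ hk).2
  have o2 := (hΩo.1 _ _ hu).2
  rw [ae_restrict_iff' (hP.oG.inter isOpen_ball).measurableSet]
  filter_upwards [k1, k2, o1, o2] with z q1 q2 q3 q4 hz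
  by_cases hzΩ : z ∈ Ω
  · have r1 := q1 hzΩ
    have r2 := q2 hzΩ
    rw [abs_le]
    constructor <;> linarith
  · have r1 := (q3 hzΩ).1
    have r2 := (q4 hzΩ).1
    have hz2 : ‖z‖ < 5 / 8 := by simpa using hz.2
    have hb := hb1 z hz.1 hz2
    have e1 : κ₂ z = κ₁ z := by linarith
    have e2 : u₂ z = u₁ z := by linarith
    rw [e1, e2]
    exact hb

end

end Cal
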