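import Pool.Agent.Lib.MP_4ea4c7_an.StmH2

/-!
# MP_4ea4c7_an, stage 2, piece KC8: uniqueness of finite energy solutions with given asymptotics
-/

open MeasureTheory Complex Metric Set Filter Topology
open scoped ComplexConjugate ENNReal NNReal

namespace Cal

noncomputable section

private lemma kuni_key (h1 : S_klow) (h2 : S_kCll) (G : Set ℂ) (k0 : ℝ) (μ κ : ℂ → ℝ) (X Y H : ℂ → ℂ) (k : ℂ) (C : ℝ)
    (hA : Adm G k0 μ) (hW : Wt G μ κ) (hX : Cl G μ X) (hY : Cl G μ Y) (hH : Cl G μ H)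
    (hb : ∀ z : ℂ, 2 ≤ ‖z‖ → ‖exp (-(I * k * z)) * X z - 1‖ ≤ C / ‖z‖ ∧ ‖exp (-(I * k * z)) * Y z - I‖ ≤ C / ‖z‖ ∧
      ‖exp (-(I * k * z)) * H z‖ ≤ C / ‖z‖) (a b h : ℝ) (hab : (a : ℂ) + (b : ℂ) * I ≠ 0) (z0 : ℂ) (hz0 : z0 ∈ G) :
    X z0 * a + Y z0 * b + H z0 * h ≠ 0 := by
  obtain ⟨c1, c2, -⟩ := h2 G k0 μ κ hA hW
  have hF : Cl G μ (fun z => 0 + (a : ℂ) * X z + (b : ℂ) * Y z + (h : ℂ) * H z) :=
    c1 _ _ h (c1 _ _ b (c1 _ _ a (c2 0) hX) hY) hH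
  obtain ⟨c, hc⟩ : ∃ c : ℂ, c = (a : ℂ) + (b : ℂ) * I := ⟨_, rfl⟩
  have hc0 : c ≠ 0 := by rw [hc]; exact hab
  have hcn : 0 < ‖c‖ := norm_pos_iff.2 hc0
  obtain ⟨T, hT⟩ : ∃ T : ℝ, T = (|a| + |b| + |h|) * |C| := ⟨_, rfl⟩
  have hT0 : 0 ≤ T := by rw [hT]; positivity
  obtain ⟨R, hR⟩ : ∃ R : ℝ, R = max 2 (max ‖z0‖ (2 * T / ‖c‖)) := ⟨_, rfl⟩
  have hR2 : 2 ≤ R := by rw [hR]; exact le_max_left _ _
  have hRz : ‖z0‖ ≤ R := by rw [hR]; exact (le_max_left _ _).trans (le_max_right _ _)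
  have hRT : 2 * T / ‖c‖ ≤ R := by rw [hR]; exact (le_max_right _ _).trans (le_max_right _ _)
  have hbd : ∀ z : ℂ, R ≤ ‖z‖ → ‖exp (-(I * k * z)) * (0 + (a : ℂ) * X z + (b : ℂ) * Y z + (h : ℂ) * H z) - c‖ ≤ ‖c‖ / 2 := by
    intro z hz
    have hzpos : 0 < ‖z‖ := by linarith
    obtain ⟨b1, b2, b3⟩ := hb z (hR2.trans hz)
    have hCC : C / ‖z‖ ≤ |C| / ‖z‖ := div_le_div_of_nonneg_right (le_abs_self C) hzpos.le
    have e : exp (-(I * k * z)) * (0 + (a : ℂ) * X z + (b : ℂ) * Y z + (h : ℂ) * H z) - c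
        = (a : ℂ) * (exp (-(I * k * z)) * X z - 1) + (b : ℂ) * (exp (-(I * k * z)) * Y z - I)
          + (h : ℂ) * (exp (-(I * k * z)) * H z) := by
      rw [hc]; ring
    rw [e]
    calc ‖(a : ℂ) * (exp (-(I * k * z)) * X z - 1) + (b : ℂ) * (exp (-(I * k * z)) * Y z - I)
          + (h : ℂ) * (exp (-(I * k * z)) * H z)‖
        ≤ ‖(a : ℂ) * (exp (-(I * k * z)) * X z - 1)‖ + ‖(b : ℂ) * (exp (-(I * k * z)) * Y z - I)‖
          + ‖(h : ℂ) * (exp (-(I * k * z)) * H z)‖ := norm_add₃_le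
      _ = |a| * ‖exp (-(I * k * z)) * X z - 1‖ + |b| * ‖exp (-(I * k * z)) * Y z - I‖
          + |h| * ‖exp (-(I * k * z)) * H z‖ := by
          simp only [norm_mul, Complex.norm_real, Real.norm_eq_abs]
      _ ≤ |a| * (|C| / ‖z‖) + |b| * (|C| / ‖z‖) + |h| * (|C| / ‖z‖) := by
          gcongr
          · exact b1.trans hCC
          · exact b2.trans hCC
          · exact b3.trans hCC
      _ = T / ‖z‖ := by rw [hT]; ring
      _ ≤ ‖c‖ / 2 := by
          rw [div_le_iff₀ hzpos]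
          rw [div_le_iff₀ hcn] at hRT
          nlinarith
  have hlow := h1 G k0 μ κ _ k c R hA hW hF hc0 hR2 hbd z0 hz0 hRz
  have hpos : 0 < ‖c‖ / 2 * Real.exp (-(‖k‖ * (R + 1))) := by positivity
  intro h0
  have e0 : (0 + (a : ℂ) * X z0 + (b : ℂ) * Y z0 + (h : ℂ) * H z0) = 0 := by
    linear_combination h0
  simp only [e0, norm_zero] at hlow
  linarith

theorem piece_kuni (h1 : S_klow) (h2 : S_kCll) : S_kuni := by
  intro G k0 μ κ X Y H k C hA hW hX hY hH hb z0 hz0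
  by_contra hne
  let L : (Fin 3 → ℝ) →ₗ[ℝ] ℂ :=
    { toFun := fun v => X z0 * (v 0 : ℂ) + Y z0 * (v 1 : ℂ) + H z0 * (v 2 : ℂ)
      map_add' := by
        intro v w
        simp only [Pi.add_apply, Complex.ofReal_add]
        ring
      map_smul' := by
        intro t v
        simp only [Pi.smul_apply, smul_eq_mul, Complex.ofReal_mul, RingHom.id_apply, Complex.real_smul]
        ring }
  have hker : LinearMap.ker L ≠ ⊥ := by
    apply LinearMap.ker_ne_bot_of_finrank_lt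
    rw [Complex.finrank_real_complex, Module.finrank_fin_fun]
    norm_num
  obtain ⟨v, hv, hv0⟩ := (Submodule.ne_bot_iff _).1 hker
  have hL : X z0 * (v 0 : ℂ) + Y z0 * (v 1 : ℂ) + H z0 * (v 2 : ℂ) = 0 := hv
  by_cases hab : ((v 0 : ℝ) : ℂ) + ((v 1 : ℝ) : ℂ) * I = 0
  · have h0 : v 0 = 0 := by
      have := congrArg Complex.re hab
      simpa using this
    have h1' : v 1 = 0 := by
      have := congrArg Complex.im hab
      simpa using this
    rw [h0, h1'] at hL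
    simp only [Complex.ofReal_zero, mul_zero, zero_add, mul_eq_zero, Complex.ofReal_eq_zero] at hL
    rcases hL with hL | hL
    · exact hne hL
    · apply hv0
      ext i
      fin_cases i
      · exact h0
      · exact h1'
      · exact hL
  · exact kuni_key h1 h2 G k0 μ κ X Y H k C hA hW hX hY hH hb (v 0) (v 1) (v 2) hab z0 hz0 hL

end

end Cal
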