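import Pool.Agent.Lib.MP_4ea4c7_an.StmH2

/-!
[CK kwmp] Weak maximum principle.
-/

set_option autoImplicit false

open MeasureTheory Complex Metric Set Filter Topology
open scoped ComplexConjugate ENNReal NNReal

namespace Cal

noncomputable section

/-- the truncation function -/
private def kwmp_T (t : ℝ) : ℝ := t * Real.smoothTransition t

private theorem kwmp_Tsm : ContDiff ℝ (⊤ : ℕ∞) kwmp_T := by
  unfold kwmp_T
  exact contDiff_id.mul Real.smoothTransition.contDiff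

private theorem kwmp_Tz {t : ℝ} (ht : t ≤ 0) : kwmp_T t = 0 := by
  unfold kwmp_T
  rw [Real.smoothTransition.zero_of_nonpos ht, mul_zero]

private theorem kwmp_Tp {t : ℝ} (ht : 0 < t) : 0 < kwmp_T t := by
  unfold kwmp_T
  exact mul_pos ht (Real.smoothTransition.pos_of_pos ht)

private theorem kwmp_Tmono : Monotone kwmp_T := by
  intro s t hst
  rcases le_or_gt s 0 with hs | hs
  · rw [kwmp_Tz hs]
    rcases le_or_gt t 0 with ht | ht
    · rw [kwmp_Tz ht]
    · exact (kwmp_Tp ht).le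
  · unfold kwmp_T
    have h1 : Real.smoothTransition s ≤ Real.smoothTransition t := Real.smoothTransition.monotone hst
    have h2 : 0 ≤ Real.smoothTransition s := Real.smoothTransition.nonneg s
    exact mul_le_mul hst h1 h2 (hs.le.trans hst)

private theorem kwmp_Tcd : Continuous (deriv kwmp_T) := kwmp_Tsm.continuous_deriv (by simp)

private theorem kwmp_Td0 (t : ℝ) : 0 ≤ deriv kwmp_T t := kwmp_Tmono.deriv_nonneg

private theorem kwmp_Tbd : ∃ M : ℝ, 0 < M ∧ ∀ t, deriv kwmp_T t ≤ M := by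
  obtain ⟨M, hM⟩ := (isCompact_Icc (a := (-1 : ℝ)) (b := 2)).exists_bound_of_continuousOn kwmp_Tcd.continuousOn
  refine ⟨max M 1, by positivity, fun t => ?_⟩
  by_cases ht : t ∈ Icc (-1 : ℝ) 2
  · exact ((le_abs_self _).trans (hM t ht)).trans (le_max_left _ _)
  · rw [mem_Icc, not_and_or, not_le, not_le] at ht
    rcases ht with ht | ht
    · have h1 : kwmp_T =ᶠ[𝓝 t] fun _ => 0 := by
        filter_upwards [gt_mem_nhds (show t < 0 by linarith)] with s hs
        exact kwmp_Tz (le_of_lt hs)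
      rw [h1.deriv_eq, deriv_const]
      exact (zero_le_one).trans (le_max_right _ _)
    · have h1 : kwmp_T =ᶠ[𝓝 t] fun s => s := by
        filter_upwards [lt_mem_nhds (show 1 < t by linarith)] with s hs
        unfold kwmp_T
        rw [Real.smoothTransition.one_of_one_le (le_of_lt hs), mul_one]
      rw [h1.deriv_eq, deriv_id'']
      exact le_max_right _ _

private theorem kwmp_norm {E : Type*} [NormedAddCommGroup E] {μ : Measure ℂ} {f : ℂ → E} (hf : MemLp f 2 μ) :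
    eLpNorm f 2 μ = ENNReal.ofReal (Real.sqrt (∫ z, ‖f z‖ ^ 2 ∂μ)) := by
  rw [hf.eLpNorm_eq_integral_rpow_norm (by norm_num) (by norm_num)]
  congr 1
  rw [Real.sqrt_eq_rpow]
  norm_num

private theorem kwmp_sq {E : Type*} [NormedAddCommGroup E] {μ : Measure ℂ} {f : ℂ → E} (hf : MemLp f 2 μ) {ε : ℝ} (hε : 0 ≤ ε)
    (h : eLpNorm f 2 μ ≤ ENNReal.ofReal ε) : ∫ z, ‖f z‖ ^ 2 ∂μ ≤ ε ^ 2 := by
  rw [kwmp_norm hf] at h
  have h1 : Real.sqrt (∫ z, ‖f z‖ ^ 2 ∂μ) ≤ ε := (ENNReal.ofReal_le_ofReal_iff hε).mp h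
  have h0 : 0 ≤ ∫ z, ‖f z‖ ^ 2 ∂μ := integral_nonneg fun z => by positivity
  calc ∫ z, ‖f z‖ ^ 2 ∂μ = Real.sqrt (∫ z, ‖f z‖ ^ 2 ∂μ) ^ 2 := (Real.sq_sqrt h0).symm
    _ ≤ ε ^ 2 := by gcongr

private theorem kwmp_sq' {E : Type*} [NormedAddCommGroup E] {μ : Measure ℂ} {f : ℂ → E} (hf : MemLp f 2 μ) {s : ℝ}
    (h : ∫ z, ‖f z‖ ^ 2 ∂μ ≤ s) : eLpNorm f 2 μ ≤ ENNReal.ofReal (Real.sqrt s) := by
  rw [kwmp_norm hf]
  exact ENNReal.ofReal_le_ofReal (Real.sqrt_le_sqrt h)

theorem piece_kwmp (h1 : S_kcalc) (h2 : S_kH0c) (h3 : S_kH0p) (h4 : S_ktst) : S_kwmp := by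
  intro c C γ V u U hc hγ hV hVb hu hU hsol happ
  obtain ⟨M, hM0, hM⟩ := kwmp_Tbd
  obtain ⟨R, hR0, hVR⟩ : ∃ R : ℝ, 0 < R ∧ V ⊆ ball 0 R := by
    obtain ⟨R, hR⟩ := hVb.subset_ball (0 : ℂ)
    exact ⟨max R 1, by positivity, hR.trans (ball_subset_ball (le_max_left _ _))⟩
  have hC0 : 0 < C := hc.trans_le ((hγ.lo 0).trans (hγ.hi 0))
  have hTlip : ∀ s t : ℝ, |kwmp_T s - kwmp_T t| ≤ M * |s - t| := by
    intro s t
    have := Convex.norm_image_sub_le_of_norm_deriv_le (f := kwmp_T) (s := univ) (C := M) (x := t) (y := s)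
      (fun x _ => (kwmp_Tsm.differentiable (by simp)).differentiableAt)
      (fun x _ => by rw [Real.norm_of_nonneg (kwmp_Td0 x)]; exact hM x) convex_univ (mem_univ _) (mem_univ _)
    simpa [Real.norm_eq_abs] using this
  have hTu : MemLp (fun z => kwmp_T (u z)) 2 (volume.restrict V) := by
    refine (hu.norm.const_mul M).mono ?_ ?_
    · exact (kwmp_Tsm.continuous.comp_aestronglyMeasurable hu.1)
    · refine Filter.Eventually.of_forall fun z => ?_
      have := hTlip (u z) 0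
      rw [kwmp_Tz le_rfl, sub_zero, sub_zero] at this
      rw [Real.norm_eq_abs, Real.norm_eq_abs, abs_mul, abs_of_pos hM0, Real.norm_eq_abs, abs_abs]
      exact this
  set S : ℝ := ∫ z in V, ‖U z‖ ^ 2 with hS
  have hS0 : 0 ≤ S := integral_nonneg fun z => by positivity
  have iU2 : Integrable (fun z => ‖U z‖ ^ 2) (volume.restrict V) := hU.integrable_norm_pow (by norm_num)
  set κ : ℝ := C * M ^ 2 / c * ((S + 1) / 2) with hκ
  -- the main estimate
  have key : ∀ ε : ℝ, 0 < ε → eLpNorm (fun z => kwmp_T (u z)) 2 (volume.restrict V) ≤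
      ENNReal.ofReal (M * ε + 2 * R * (M * ε + Real.sqrt (κ * ε))) := by
    intro ε hε
    obtain ⟨ψ, Ψ, K, hψc, hψw, hψ2, hΨ2, hK, hKV, hψK, hd1, hd2⟩ := happ ε hε
    obtain ⟨-, -, -, -, -, -, -, -, k9⟩ := h1 V hV
    have hTw := k9 ψ Ψ univ kwmp_T hψw hψc isOpen_univ (fun _ _ => mem_univ _)
      ((kwmp_Tsm.of_le (by simp)).contDiffOn)
    have hTz : ∀ z ∈ V, z ∉ K → kwmp_T (ψ z) = 0 := fun z hz hzK => kwmp_Tz (hψK z hz hzK)
    -- divergence free field
    have hXm : AEStronglyMeasurable (fun z => (γ z : ℂ)) (volume.restrict V) :=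
      (Complex.measurable_ofReal.comp hγ.meas).aestronglyMeasurable
    have hXL : MemLp (fun z => (γ z : ℂ) * U z) 2 (volume.restrict V) := by
      refine (hU.norm.const_mul C).mono (hXm.mul hU.1) ?_
      refine Filter.Eventually.of_forall fun z => ?_
      rw [norm_mul, Complex.norm_real, Real.norm_of_nonneg (hc.le.trans (hγ.lo z)), Real.norm_of_nonneg (by positivity)]
      have := hγ.hi z
      gcongr
    have hX2 : L2loc V (fun z => (γ z : ℂ) * U z) := by
      intro K' _ hK'V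
      exact hXL.mono_measure (Measure.restrict_mono hK'V le_rfl)
    have hXs : ∀ φ : ℂ → ℝ, RTF V φ → ∫ z, ip ((γ z : ℂ) * U z) (gr φ z) = 0 := by
      intro φ hφ
      rw [← hsol φ hφ]
      congr 1
      funext z
      simp only [ip, mul_assoc, Complex.re_ofReal_mul]
    obtain ⟨i0, e0⟩ := h4 V K (fun z => (γ z : ℂ) * U z) (fun z => kwmp_T (ψ z))
      (fun z => ((deriv kwmp_T (ψ z) : ℝ) : ℂ) * Ψ z) hV hX2 hXs hK hKV hTw hTz
    -- measurability
    have ham : AEStronglyMeasurable (fun z => deriv kwmp_T (ψ z)) (volume.restrict V) :=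
      kwmp_Tcd.comp_aestronglyMeasurable hψ2.1
    have hamC : AEStronglyMeasurable (fun z => ((deriv kwmp_T (ψ z) : ℝ) : ℂ)) (volume.restrict V) :=
      Complex.continuous_ofReal.comp_aestronglyMeasurable ham
    have haU : MemLp (fun z => ((deriv kwmp_T (ψ z) : ℝ) : ℂ) * U z) 2 (volume.restrict V) := by
      refine (hU.norm.const_mul M).mono (hamC.mul hU.1) ?_
      refine Filter.Eventually.of_forall fun z => ?_
      rw [norm_mul, Complex.norm_real, Real.norm_of_nonneg (kwmp_Td0 _), Real.norm_of_nonneg (by positivity)]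
      have := hM (ψ z)
      gcongr
    have hD : MemLp (fun z => U z - Ψ z) 2 (volume.restrict V) := hU.sub hΨ2
    have haD : MemLp (fun z => ((deriv kwmp_T (ψ z) : ℝ) : ℂ) * (U z - Ψ z)) 2 (volume.restrict V) := by
      refine (hD.norm.const_mul M).mono (hamC.mul hD.1) ?_
      refine Filter.Eventually.of_forall fun z => ?_
      rw [norm_mul, Complex.norm_real, Real.norm_of_nonneg (kwmp_Td0 _), Real.norm_of_nonneg (by positivity)]
      have := hM (ψ z)
      gcongr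
    have haΨ : MemLp (fun z => ((deriv kwmp_T (ψ z) : ℝ) : ℂ) * Ψ z) 2 (volume.restrict V) := by
      have e : (fun z => ((deriv kwmp_T (ψ z) : ℝ) : ℂ) * Ψ z) =
          fun z => ((deriv kwmp_T (ψ z) : ℝ) : ℂ) * U z - ((deriv kwmp_T (ψ z) : ℝ) : ℂ) * (U z - Ψ z) := by
        funext z; ring
      rw [e]
      exact haU.sub haD
    have iD2 : Integrable (fun z => ‖U z - Ψ z‖ ^ 2) (volume.restrict V) := hD.integrable_norm_pow (by norm_num)
    have bD2 : ∫ z in V, ‖U z - Ψ z‖ ^ 2 ≤ ε ^ 2 := kwmp_sq hD hε.le hd2.le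
    -- energy
    have iE : Integrable (fun z => γ z * deriv kwmp_T (ψ z) * ‖U z‖ ^ 2) (volume.restrict V) := by
      refine Integrable.bdd_mul iU2 (hγ.meas.aestronglyMeasurable.mul ham) (c := C * M) ?_
      refine Filter.Eventually.of_forall fun z => ?_
      rw [norm_mul, Real.norm_of_nonneg (hc.le.trans (hγ.lo z)), Real.norm_of_nonneg (kwmp_Td0 _)]
      have a1 := hγ.hi z
      have a2 := hM (ψ z)
      have a3 := kwmp_Td0 (ψ z)
      gcongr
    have hE1 : ∫ z in V, γ z * deriv kwmp_T (ψ z) * ‖U z‖ ^ 2 ≤ C * M * (ε * ((S + 1) / 2)) := by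
      have e1 : ∫ z in V, γ z * deriv kwmp_T (ψ z) * ‖U z‖ ^ 2 =
          ∫ z in V, (γ z * deriv kwmp_T (ψ z) * ‖U z‖ ^ 2 -
            ip ((γ z : ℂ) * U z) (((deriv kwmp_T (ψ z) : ℝ) : ℂ) * Ψ z)) := by
        rw [integral_sub iE i0, e0, sub_zero]
      rw [e1]
      have ig : Integrable (fun z => C * M * ((ε * ‖U z‖ ^ 2 + ‖U z - Ψ z‖ ^ 2 / ε) / 2)) (volume.restrict V) :=
        (((iU2.const_mul ε).add (iD2.div_const ε)).div_const 2).const_mul _
      have e2 : ∫ z in V, C * M * ((ε * ‖U z‖ ^ 2 + ‖U z - Ψ z‖ ^ 2 / ε) / 2) ≤ C * M * (ε * ((S + 1) / 2)) := by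
        rw [integral_const_mul, integral_div, integral_add (iU2.const_mul ε) (iD2.div_const ε),
          integral_const_mul, integral_div]
        have e3 : (∫ z in V, ‖U z - Ψ z‖ ^ 2) / ε ≤ ε := by
          rw [div_le_iff₀ hε]; nlinarith [bD2]
        have e4 : (ε * (∫ z in V, ‖U z‖ ^ 2) + (∫ z in V, ‖U z - Ψ z‖ ^ 2) / ε) / 2 ≤ ε * ((S + 1) / 2) := by
          rw [← hS]; linarith
        gcongr
      refine (integral_mono (iE.sub i0) ig fun z => ?_).trans e2
      simp only [Pi.sub_apply]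
      have e5 : γ z * deriv kwmp_T (ψ z) * ‖U z‖ ^ 2 -
          ip ((γ z : ℂ) * U z) (((deriv kwmp_T (ψ z) : ℝ) : ℂ) * Ψ z) =
          γ z * deriv kwmp_T (ψ z) * ip (U z) (U z - Ψ z) := by
        have e6 : ‖U z‖ ^ 2 = ip (U z) (U z) := by
          simp only [ip, Complex.mul_conj, Complex.ofReal_re, Complex.normSq_eq_norm_sq]
        rw [e6]
        simp only [ip, map_mul, map_sub, Complex.conj_ofReal, Complex.mul_re, Complex.mul_im, Complex.sub_re,
          Complex.sub_im, Complex.ofReal_re, Complex.ofReal_im, Complex.conj_re, Complex.conj_im]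
        ring
      rw [e5]
      have a1 := hγ.hi z
      have a1' := hγ.lo z
      have a2 := hM (ψ z)
      have a3 := kwmp_Td0 (ψ z)
      have b1 : ip (U z) (U z - Ψ z) ≤ ‖U z‖ * ‖U z - Ψ z‖ := by
        unfold ip
        refine (Complex.re_le_norm _).trans ?_
        rw [norm_mul, RCLike.norm_conj]
      have b2 : ‖U z‖ * ‖U z - Ψ z‖ ≤ (ε * ‖U z‖ ^ 2 + ‖U z - Ψ z‖ ^ 2 / ε) / 2 := by
        have h7 : 0 ≤ (‖U z - Ψ z‖ - ε * ‖U z‖) ^ 2 / ε := by positivity
        have h8 : (‖U z - Ψ z‖ - ε * ‖U z‖) ^ 2 / ε =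
            ‖U z - Ψ z‖ ^ 2 / ε - 2 * (‖U z‖ * ‖U z - Ψ z‖) + ε * ‖U z‖ ^ 2 := by
          field_simp
          ring
        linarith
      have b3 : 0 ≤ γ z * deriv kwmp_T (ψ z) := mul_nonneg (hc.le.trans a1') a3
      have b4 : γ z * deriv kwmp_T (ψ z) ≤ C * M := mul_le_mul a1 a2 a3 hC0.le
      have b5 : 0 ≤ ‖U z‖ * ‖U z - Ψ z‖ := by positivity
      calc γ z * deriv kwmp_T (ψ z) * ip (U z) (U z - Ψ z)
          ≤ γ z * deriv kwmp_T (ψ z) * (‖U z‖ * ‖U z - Ψ z‖) := mul_le_mul_of_nonneg_left b1 b3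
        _ ≤ C * M * (‖U z‖ * ‖U z - Ψ z‖) := mul_le_mul_of_nonneg_right b4 b5
        _ ≤ C * M * ((ε * ‖U z‖ ^ 2 + ‖U z - Ψ z‖ ^ 2 / ε) / 2) := by gcongr
    have haU2 : ∫ z in V, ‖((deriv kwmp_T (ψ z) : ℝ) : ℂ) * U z‖ ^ 2 ≤ κ * ε := by
      have i5 : Integrable (fun z => ‖((deriv kwmp_T (ψ z) : ℝ) : ℂ) * U z‖ ^ 2) (volume.restrict V) :=
        haU.integrable_norm_pow (by norm_num)
      have e7 : ∫ z in V, ‖((deriv kwmp_T (ψ z) : ℝ) : ℂ) * U z‖ ^ 2 ≤
          ∫ z in V, M / c * (γ z * deriv kwmp_T (ψ z) * ‖U z‖ ^ 2) := by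
        refine integral_mono i5 (iE.const_mul _) fun z => ?_
        simp only
        rw [norm_mul, Complex.norm_real, Real.norm_of_nonneg (kwmp_Td0 _), mul_pow]
        have a1' := hγ.lo z
        have a2 := hM (ψ z)
        have a3 := kwmp_Td0 (ψ z)
        have b6 : deriv kwmp_T (ψ z) ^ 2 ≤ M * deriv kwmp_T (ψ z) := by nlinarith
        have b7 : M * deriv kwmp_T (ψ z) ≤ M / c * (γ z * deriv kwmp_T (ψ z)) := by
          rw [div_mul_eq_mul_div, le_div_iff₀ hc]
          have : 0 ≤ M * deriv kwmp_T (ψ z) := mul_nonneg hM0.le a3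
          nlinarith
        calc deriv kwmp_T (ψ z) ^ 2 * ‖U z‖ ^ 2 ≤ M / c * (γ z * deriv kwmp_T (ψ z)) * ‖U z‖ ^ 2 :=
              mul_le_mul_of_nonneg_right (b6.trans b7) (by positivity)
          _ = M / c * (γ z * deriv kwmp_T (ψ z) * ‖U z‖ ^ 2) := by ring
      rw [integral_const_mul] at e7
      refine e7.trans ?_
      calc M / c * ∫ z in V, γ z * deriv kwmp_T (ψ z) * ‖U z‖ ^ 2 ≤ M / c * (C * M * (ε * ((S + 1) / 2))) := by gcongr
        _ = κ * ε := by rw [hκ]; ring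
    have n1 : eLpNorm (fun z => ((deriv kwmp_T (ψ z) : ℝ) : ℂ) * U z) 2 (volume.restrict V) ≤
        ENNReal.ofReal (Real.sqrt (κ * ε)) := kwmp_sq' haU haU2
    have n2 : eLpNorm (fun z => ((deriv kwmp_T (ψ z) : ℝ) : ℂ) * (U z - Ψ z)) 2 (volume.restrict V) ≤
        ENNReal.ofReal (M * ε) := by
      have e8 : ∫ z in V, ‖((deriv kwmp_T (ψ z) : ℝ) : ℂ) * (U z - Ψ z)‖ ^ 2 ≤ (M * ε) ^ 2 := by
        have i6 := haD.integrable_norm_pow (by norm_num)
        have e9 : ∫ z in V, ‖((deriv kwmp_T (ψ z) : ℝ) : ℂ) * (U z - Ψ z)‖ ^ 2 ≤ ∫ z in V, M ^ 2 * ‖U z - Ψ z‖ ^ 2 := by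
          refine integral_mono i6 (iD2.const_mul _) fun z => ?_
          simp only
          rw [norm_mul, Complex.norm_real, Real.norm_of_nonneg (kwmp_Td0 _), mul_pow]
          have a2 := hM (ψ z)
          have a3 := kwmp_Td0 (ψ z)
          gcongr
        rw [integral_const_mul] at e9
        calc _ ≤ M ^ 2 * ∫ z in V, ‖U z - Ψ z‖ ^ 2 := e9
          _ ≤ M ^ 2 * ε ^ 2 := by gcongr
          _ = (M * ε) ^ 2 := by ring
      have := kwmp_sq' haD e8
      rwa [Real.sqrt_sq (by positivity)] at this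
    have n3 : eLpNorm (fun z => ((deriv kwmp_T (ψ z) : ℝ) : ℂ) * Ψ z) 2 (volume.restrict V) ≤
        ENNReal.ofReal (M * ε + Real.sqrt (κ * ε)) := by
      have e : (fun z => ((deriv kwmp_T (ψ z) : ℝ) : ℂ) * Ψ z) =
          (fun z => ((deriv kwmp_T (ψ z) : ℝ) : ℂ) * U z) - (fun z => ((deriv kwmp_T (ψ z) : ℝ) : ℂ) * (U z - Ψ z)) := by
        funext z; simp only [Pi.sub_apply]; ring
      rw [e]
      refine (eLpNorm_sub_le haU.1 haD.1 (by norm_num)).trans ?_
      refine (add_le_add n1 n2).trans ?_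
      rw [← ENNReal.ofReal_add (Real.sqrt_nonneg _) (by positivity), add_comm]
    -- Poincare
    have hH0 := h2 V K (fun z => kwmp_T (ψ z)) (fun z => ((deriv kwmp_T (ψ z) : ℝ) : ℂ) * Ψ z) hV hK hKV hTw hTz
    have hPo := (h3 V R hV hR0 hVR).1 _ _ hH0
    rw [eLpNorm_indicator_eq_eLpNorm_restrict hV.measurableSet,
      eLpNorm_indicator_eq_eLpNorm_restrict hV.measurableSet] at hPo
    have n4 : eLpNorm (fun z => kwmp_T (ψ z)) 2 (volume.restrict V) ≤
        ENNReal.ofReal (2 * R * (M * ε + Real.sqrt (κ * ε))) := by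
      refine hPo.trans ?_
      rw [ENNReal.ofReal_mul (by positivity : (0 : ℝ) ≤ 2 * R)]
      gcongr
    have n5 : eLpNorm (fun z => kwmp_T (u z) - kwmp_T (ψ z)) 2 (volume.restrict V) ≤ ENNReal.ofReal (M * ε) := by
      have e10 : eLpNorm (fun z => kwmp_T (u z) - kwmp_T (ψ z)) 2 (volume.restrict V) ≤
          ENNReal.ofReal M * eLpNorm (fun z => u z - ψ z) 2 (volume.restrict V) := by
        refine eLpNorm_le_mul_eLpNorm_of_ae_le_mul (Filter.Eventually.of_forall fun z => ?_) 2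
        rw [Real.norm_eq_abs, Real.norm_eq_abs]
        exact hTlip _ _
      refine e10.trans ?_
      rw [ENNReal.ofReal_mul hM0.le]
      gcongr
    have hTψ : MemLp (fun z => kwmp_T (ψ z)) 2 (volume.restrict V) := by
      refine (hψ2.norm.const_mul M).mono (kwmp_Tsm.continuous.comp_aestronglyMeasurable hψ2.1) ?_
      refine Filter.Eventually.of_forall fun z => ?_
      have := hTlip (ψ z) 0
      rw [kwmp_Tz le_rfl, sub_zero, sub_zero] at this
      rw [Real.norm_eq_abs, Real.norm_eq_abs, abs_mul, abs_of_pos hM0, Real.norm_eq_abs, abs_abs]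
      exact this
    have e11 : (fun z => kwmp_T (u z)) = (fun z => kwmp_T (u z) - kwmp_T (ψ z)) + fun z => kwmp_T (ψ z) := by
      funext z; simp
    rw [e11]
    refine (eLpNorm_add_le (hTu.sub hTψ).1 hTψ.1 (by norm_num)).trans ?_
    refine (add_le_add n5 n4).trans ?_
    rw [← ENNReal.ofReal_add (by positivity) (by positivity)]
  -- let `ε → 0`
  have hlim : Tendsto (fun ε : ℝ => ENNReal.ofReal (M * ε + 2 * R * (M * ε + Real.sqrt (κ * ε)))) (𝓝[>] 0) (𝓝 0) := by
    have hc1 : Continuous (fun ε : ℝ => ENNReal.ofReal (M * ε + 2 * R * (M * ε + Real.sqrt (κ * ε)))) := by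
      refine ENNReal.continuous_ofReal.comp ?_
      fun_prop
    have := hc1.tendsto 0
    simp only [mul_zero, Real.sqrt_zero, add_zero, ENNReal.ofReal_zero] at this
    exact this.mono_left nhdsWithin_le_nhds
  have hz : eLpNorm (fun z => kwmp_T (u z)) 2 (volume.restrict V) ≤ 0 := by
    refine ge_of_tendsto hlim ?_
    filter_upwards [self_mem_nhdsWithin] with ε hε
    exact key ε hε
  have hz' : eLpNorm (fun z => kwmp_T (u z)) 2 (volume.restrict V) = 0 := nonpos_iff_eq_zero.mp hz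
  rw [eLpNorm_eq_zero_iff hTu.1 (by norm_num)] at hz'
  filter_upwards [hz'] with z hz
  by_contra hne
  push Not at hne
  exact (kwmp_Tp hne).ne' hz

end

end Cal
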