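import Pool.Agent.Lib.MP_4ea4c7_an.StmH2

open MeasureTheory Complex Metric Set Filter Topology
open scoped ComplexConjugate ENNReal NNReal

namespace Cal

noncomputable section

private theorem kwt_lo {C σ : ℝ} (hC : 1 ≤ C) (h0 : 0 ≤ σ) (h1 : σ ≤ C) :
    -((C - 1) / (C + 1)) ≤ (1 - σ) / (1 + σ) := by
  rw [← neg_div, div_le_div_iff₀ (by linarith) (by linarith)]
  nlinarith

private theorem kwt_hi {σ : ℝ} (h0 : 0 ≤ σ) : (1 - σ) / (1 + σ) ≤ 1 := by
  rw [div_le_one (by linarith)]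
  linarith

private theorem kwt_mono {s σ : ℝ} (hs : 0 < s) (h : s ≤ σ) :
    (1 - σ) / (1 + σ) ≤ (1 - s) / (1 + s) := by
  rw [div_le_div_iff₀ (by linarith) (by linarith)]
  nlinarith

private theorem kwt_one {σ : ℝ} (h0 : 0 ≤ σ) : 1 - (1 - σ) / (1 + σ) = 2 * σ / (1 + σ) := by
  have : (1 : ℝ) + σ ≠ 0 := by positivity
  field_simp
  ring

theorem piece_kwt : S_kwt := by
  intro Ω G c C γ κ Kg hP hc hγ hγ1 hκ
  have hC : 1 ≤ C := by
    have h1 : (1 : ℂ) ∉ Ω := by
      intro h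
      have := hP.Ωs h
      rw [mem_ball_zero_iff] at this
      simp at this
      norm_num at this
    rw [← hγ1 1 h1]
    exact hγ.hi 1
  have hκ2 : ∀ z, κ z ^ 2 ≤ 1 := fun z => by
    have h1 := hκ.lo z
    have h2 := hκ.hi z
    nlinarith
  have hσ0 : ∀ z, 0 ≤ γ z * κ z ^ 2 := fun z =>
    mul_nonneg (hc.le.trans (hγ.lo z)) (sq_nonneg _)
  have hσC : ∀ z, γ z * κ z ^ 2 ≤ C := fun z => by
    calc γ z * κ z ^ 2 ≤ C * 1 :=
          mul_le_mul (hγ.hi z) (hκ2 z) (sq_nonneg _) (by linarith)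
      _ = C := mul_one C
  have hσc : ∀ z, c * κ z ^ 2 ≤ γ z * κ z ^ 2 := fun z =>
    mul_le_mul_of_nonneg_right (hγ.lo z) (sq_nonneg _)
  refine ⟨⟨hP.oG, hP.cG, hP.ext, ?_, ?_, ?_, ?_, ?_, ?_, ?_⟩,
    ⟨hκ.meas, hκ.cont, hκ.pos, hκ.lo, hκ.hi, hκ.off, hκ.one, ?_, hκ.cut⟩⟩
  · have hm : Measurable (fun z => γ z * κ z ^ 2) := hγ.meas.mul (hκ.meas.pow_const 2)
    exact (measurable_const.sub hm).div (measurable_const.add hm)
  · exact div_nonneg (by linarith) (by linarith)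
  · rw [div_lt_one (by linarith)]; linarith
  · intro z
    exact kwt_lo hC (hσ0 z) (hσC z)
  · intro z
    exact kwt_hi (hσ0 z)
  · intro K hK hKG
    rcases K.eq_empty_or_nonempty with rfl | hne
    · exact ⟨0, by norm_num, fun z hz => absurd hz (notMem_empty z)⟩
    · obtain ⟨z0, hz0, hmin⟩ := hK.exists_isMinOn hne (hκ.cont.mono hKG)
      have hκ0 : 0 < κ z0 := hκ.pos z0 (hKG hz0)
      have hs0 : 0 < c * κ z0 ^ 2 := by positivity
      refine ⟨max ((1 - c * κ z0 ^ 2) / (1 + c * κ z0 ^ 2)) ((C - 1) / (C + 1)), ?_, ?_⟩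
      · refine max_lt ?_ ?_
        · rw [div_lt_one (by linarith)]; linarith
        · rw [div_lt_one (by linarith)]; linarith
      · intro z hz
        have h1 : κ z0 ≤ κ z := hmin hz
        have h2 : c * κ z0 ^ 2 ≤ γ z * κ z ^ 2 := by
          refine le_trans ?_ (hσc z)
          have : κ z0 ^ 2 ≤ κ z ^ 2 := by nlinarith
          exact mul_le_mul_of_nonneg_left this hc.le
        have h3 := kwt_mono hs0 h2
        have h4 := kwt_lo hC (hσ0 z) (hσC z)
        unfold muk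
        rw [abs_le]
        constructor
        · have := le_max_right ((1 - c * κ z0 ^ 2) / (1 + c * κ z0 ^ 2)) ((C - 1) / (C + 1))
          linarith
        · exact h3.trans (le_max_left _ _)
  · intro z hz
    have h1 : z ∉ Ω := by
      intro h
      have := hP.Ωs h
      rw [mem_ball_zero_iff] at this
      linarith
    unfold muk
    rw [hγ1 z h1, hκ.one z hz]
    norm_num
  · refine ⟨2 * c / (1 + C), 2 * C, by positivity, fun z _ => ?_⟩
    unfold muk
    rw [kwt_one (hσ0 z)]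
    have h5 := hσ0 z
    have h6 : 0 ≤ κ z ^ 2 := sq_nonneg _
    constructor
    · rw [div_mul_eq_mul_div, div_le_div_iff₀ (by linarith) (by linarith)]
      have h7 := hσC z
      have h8 := hσc z
      nlinarith [mul_nonneg hc.le h6, mul_nonneg h5 (by linarith : (0 : ℝ) ≤ 1 + C)]
    · rw [div_le_iff₀ (by linarith)]
      have h7 : γ z * κ z ^ 2 ≤ C * κ z ^ 2 := mul_le_mul_of_nonneg_right (hγ.hi z) h6
      nlinarith [mul_nonneg (mul_nonneg (by linarith : (0 : ℝ) ≤ C) h6) h5]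

end

end Cal
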