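import Pool.Agent.Lib.MP_4ea4c7_an.StmF

open MeasureTheory Complex Metric Set Filter Topology
open scoped ComplexConjugate ENNReal NNReal

namespace Cal

open LocalCalderon

theorem lift_Z0_congr {Ω : Set ℂ} {G H : ℂ → ℂ} (hG : Z0 Ω G) (h : G =ᵐ[volume.restrict Ω] H) : Z0 Ω H := by
  refine ⟨hG.1.ae_eq h, fun ε hε => ?_⟩
  obtain ⟨φ, hφ, hlt⟩ := hG.2 ε hε
  refine ⟨φ, hφ, ?_⟩
  have h1 : (fun z => H z - gr φ z) =ᵐ[volume.restrict Ω] fun z => G z - gr φ z := by
    filter_upwards [h] with z hz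
    rw [hz]
  rw [eLpNorm_congr_ae h1]
  exact hlt

theorem piece_lift (h1 : S_h1) (h2 : S_h10) (h3 : S_dnex) : S_lift := by
  intro c C hc γ hγ Ω hΩ hb u hu
  obtain ⟨e1, -, e3, -, -, -, -, -, e9⟩ := h1
  obtain ⟨-, -, -, f4, f5, -, -, -⟩ := h2 Ω hΩ
  refine ⟨?_, ?_⟩
  · obtain ⟨G', hD⟩ := (h3 c C hc γ hγ Ω hΩ (wgrad Ω u) (e1 Ω u hu).1).1
    obtain ⟨w, hw, hwG⟩ := f5 _ hb hD.z0
    obtain ⟨g1, g2⟩ := e3 Ω u w 1 hΩ hu hw.1
    refine ⟨fun z => u z + 1 * w z, g1, ?_, g1, ?_⟩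
    · have h : (fun z => u z + 1 * w z - u z) = w := by
        funext z
        ring
      rw [h]
      exact hw
    · intro φ hφ
      have h : ∫ z in Ω, γ z * dot (wgrad Ω (fun z => u z + 1 * w z) z) (grad φ z) =
          ∫ z in Ω, γ z * ip (G' z) (gr φ z) := by
        refine integral_congr_ae ?_
        filter_upwards [g2, hwG] with z hz1 hz2
        rw [hz1, hz2, e9]
        have e : wgrad Ω u z + ((1 : ℝ) : ℂ) * (G' z - wgrad Ω u z) = G' z := by
          rw [Complex.ofReal_one]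
          ring
        rw [e]
        rfl
      rw [h]
      exact hD.sol φ hφ
  · intro u' hu' hs
    refine ⟨?_, (e1 Ω u' hs.1).1, ?_⟩
    · have h := f4 _ hu'
      obtain ⟨-, g2⟩ := e3 Ω u' u (-1) hΩ hs.1 hu
      have e : (fun z => u' z + -1 * u z) = fun z => u' z - u z := by
        funext z
        ring
      rw [e] at g2
      refine lift_Z0_congr h ?_
      filter_upwards [g2] with z hz
      rw [hz]
      push_cast
      ring
    · intro φ hφ
      have h := hs.2 φ hφ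
      simp only [e9] at h
      exact h

end Cal
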