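import Pool.Agent.Lib.MP_4ea4c7_an.Stm2

open MeasureTheory Complex Metric Set Filter Topology
open scoped ComplexConjugate ENNReal NNReal

namespace Cal

private theorem loc_meas {V : Set ℂ} {f : ℂ → ℂ} (hf : ContinuousOn f V) {z : ℂ} {r : ℝ}
    (h : closedBall z r ⊆ V) : AEStronglyMeasurable f (volume.restrict (closedBall z r)) :=
  (hf.mono h).aestronglyMeasurable_of_isCompact (isCompact_closedBall z r)
    measurableSet_closedBall

private theorem loc_const_pos (z0 : ℂ) {r c : ℝ} (hr : 0 < r) (hc : 0 < c) :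
    0 < eLpNorm (fun _ : ℂ => c) 2 (volume.restrict (closedBall z0 r)) := by
  rw [pos_iff_ne_zero, Ne, eLpNorm_eq_zero_iff aestronglyMeasurable_const two_ne_zero]
  intro h
  have h1 : ∀ᵐ z : ℂ ∂(volume.restrict (closedBall z0 r)), False := by
    filter_upwards [h] with z hz
    exact hc.ne' hz
  rw [Filter.eventually_false_iff_eq_bot, ae_eq_bot, Measure.restrict_eq_zero] at h1
  exact (measure_closedBall_pos volume z0 hr).ne' h1

private theorem loc_cauchy {V : Set ℂ} {g : ℂ → ℂ} {gk : ℕ → ℂ → ℂ} (hV : IsOpen V)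
    (hc : ∀ k, ContinuousOn (gk k) V) (hg : L2loc V g)
    (heq : ∀ z0 ∈ V, ∀ ε : ℝ, 0 < ε → ∃ δ : ℝ, 0 < δ ∧ ∀ k, ∀ z ∈ V, ‖z - z0‖ < δ →
      ‖gk k z - gk k z0‖ ≤ ε)
    (hL : ∀ K : Set ℂ, IsCompact K → K ⊆ V →
      Tendsto (fun k => eLpNorm (fun z => gk k z - g z) 2 (volume.restrict K)) atTop (𝓝 0))
    (z0 : ℂ) (hz0 : z0 ∈ V) (ε : ℝ) (hε : 0 < ε) :
    ∃ N, ∀ k ≥ N, ∀ l ≥ N, ‖gk k z0 - gk l z0‖ < ε := by
  obtain ⟨δ, hδ, hδk⟩ := heq z0 hz0 (ε / 4) (by positivity)
  obtain ⟨r, hr, hrV⟩ := Metric.nhds_basis_closedBall.mem_iff.1 (hV.mem_nhds hz0)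
  have hr' : 0 < min r (δ / 2) := lt_min hr (by positivity)
  have hB : closedBall z0 (min r (δ / 2)) ⊆ V :=
    (closedBall_subset_closedBall (min_le_left _ _)).trans hrV
  have hη := loc_const_pos z0 hr' (show 0 < ε / 2 by positivity)
  set B := closedBall z0 (min r (δ / 2)) with hBdef
  set η := eLpNorm (fun _ : ℂ => ε / 2) 2 (volume.restrict B) with hηdef
  have h1 := hL B (isCompact_closedBall _ _) hB
  have h2 : ∀ᶠ k in atTop, eLpNorm (fun z => gk k z - g z) 2 (volume.restrict B) < η / 2 :=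
    h1.eventually_lt_const (ENNReal.half_pos hη.ne')
  obtain ⟨N, hN⟩ := eventually_atTop.1 h2
  refine ⟨N, fun k hk l hl => ?_⟩
  by_contra hcon
  push Not at hcon
  have h3 : ∀ z ∈ B, ε / 2 ≤ ‖gk k z - g z‖ + ‖gk l z - g z‖ := by
    intro z hz
    have hzV := hB hz
    have hd : ‖z - z0‖ < δ := by
      have h4 : dist z z0 ≤ min r (δ / 2) := hz
      have h5 : dist z z0 ≤ δ / 2 := h4.trans (min_le_right _ _)
      rw [← dist_eq_norm]
      linarith
    have e1 := hδk k z hzV hd
    have e2 := hδk l z hzV hd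
    have e3 : gk k z0 - gk l z0 = -(gk k z - gk k z0) + (gk k z - g z) - (gk l z - g z)
        + (gk l z - gk l z0) := by ring
    have e4 : ‖gk k z0 - gk l z0‖ ≤ ‖gk k z - gk k z0‖ + ‖gk k z - g z‖ + ‖gk l z - g z‖
        + ‖gk l z - gk l z0‖ := by
      rw [e3]
      refine (norm_add_le _ _).trans (add_le_add_left ?_ _)
      refine (norm_sub_le _ _).trans (add_le_add_left ?_ _)
      refine (norm_add_le _ _).trans (add_le_add_left ?_ _)
      rw [norm_neg]
    linarith
  have m1 : AEStronglyMeasurable (fun z => gk k z - g z) (volume.restrict B) :=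
    (loc_meas (hc k) hB).sub (hg B (isCompact_closedBall _ _) hB).1
  have m2 : AEStronglyMeasurable (fun z => gk l z - g z) (volume.restrict B) :=
    (loc_meas (hc l) hB).sub (hg B (isCompact_closedBall _ _) hB).1
  have h6 : η ≤ eLpNorm (fun z => ‖gk k z - g z‖ + ‖gk l z - g z‖) 2 (volume.restrict B) := by
    refine eLpNorm_mono_ae ?_
    refine ae_restrict_of_forall_mem measurableSet_closedBall (fun z hz => ?_)
    rw [Real.norm_of_nonneg (by positivity), Real.norm_of_nonneg (by positivity)]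
    exact h3 z hz
  have h7 : eLpNorm (fun z => ‖gk k z - g z‖ + ‖gk l z - g z‖) 2 (volume.restrict B) ≤
      eLpNorm (fun z => gk k z - g z) 2 (volume.restrict B) +
        eLpNorm (fun z => gk l z - g z) 2 (volume.restrict B) := by
    have := eLpNorm_add_le (p := 2) m1.norm m2.norm (by norm_num)
    rw [eLpNorm_norm, eLpNorm_norm] at this
    exact this
  have h8 : η < η / 2 + η / 2 := (h6.trans h7).trans_lt (ENNReal.add_lt_add (hN k hk) (hN l hl))
  rw [ENNReal.add_halves] at h8
  exact lt_irrefl _ h8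

theorem piece_loc : S_loc := by
  intro V g gk hV hc hg heq hL
  have hCau := loc_cauchy hV hc hg heq hL
  -- the limit
  have hlim : ∀ z, ∃ w, z ∈ V → Tendsto (fun k => gk k z) atTop (𝓝 w) := by
    intro z
    by_cases hz : z ∈ V
    · have hcs : CauchySeq (fun k => gk k z) := by
        rw [Metric.cauchySeq_iff]
        intro ε hε
        obtain ⟨N, hN⟩ := hCau z hz ε hε
        exact ⟨N, fun m hm n hn => by rw [dist_eq_norm]; exact hN m hm n hn⟩
      obtain ⟨w, hw⟩ := cauchySeq_tendsto_of_complete hcs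
      exact ⟨w, fun _ => hw⟩
    · exact ⟨0, fun h => absurd h hz⟩
  choose h hh using hlim
  have hloc : TendstoLocallyUniformlyOn gk h atTop V := by
    rw [Metric.tendstoLocallyUniformlyOn_iff]
    intro ε hε z0 hz0
    obtain ⟨δ, hδ, hδk⟩ := heq z0 hz0 (ε / 5) (by positivity)
    obtain ⟨N, hN⟩ := hCau z0 hz0 (ε / 5) (by positivity)
    refine ⟨ball z0 δ ∩ V, inter_mem (mem_nhdsWithin_of_mem_nhds (ball_mem_nhds z0 hδ))
      self_mem_nhdsWithin, ?_⟩
    filter_upwards [eventually_ge_atTop N] with n hn y hy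
    have hyd : ‖y - z0‖ < δ := by
      rw [← dist_eq_norm]; exact hy.1
    have key : ∀ l ≥ N, dist (gk l y) (gk n y) ≤ 3 * (ε / 5) := by
      intro l hl
      have e1 := hδk l y hy.2 hyd
      have e2 := hδk n y hy.2 hyd
      have e3 := hN l hl n hn
      have e4 : gk l y - gk n y = (gk l y - gk l z0) + (gk l z0 - gk n z0) -
        (gk n y - gk n z0) := by ring
      rw [dist_eq_norm, e4]
      have e5 := norm_sub_le ((gk l y - gk l z0) + (gk l z0 - gk n z0)) (gk n y - gk n z0)
      have e6 := norm_add_le (gk l y - gk l z0) (gk l z0 - gk n z0)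
      linarith
    have h1 : Tendsto (fun l => dist (gk l y) (gk n y)) atTop (𝓝 (dist (h y) (gk n y))) :=
      (hh y hy.2).dist tendsto_const_nhds
    have h2 : dist (h y) (gk n y) ≤ 3 * (ε / 5) :=
      le_of_tendsto h1 (by filter_upwards [eventually_ge_atTop N] with l hl using key l hl)
    linarith
  have hcont : ContinuousOn h V := hloc.continuousOn (Eventually.of_forall hc).frequently
  have hunif : ∀ K : Set ℂ, IsCompact K → K ⊆ V → TendstoUniformlyOn gk h atTop K := by
    intro K hK hKV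
    exact (tendstoLocallyUniformlyOn_iff_tendstoUniformlyOn_of_compact hK).1 (hloc.mono hKV)
  refine ⟨h, hcont, ?_, hunif⟩
  -- almost everywhere equality on closed balls
  have hball : ∀ z0 r, closedBall z0 r ⊆ V → h =ᵐ[volume.restrict (closedBall z0 r)] g := by
    intro z0 r hrV
    set B := closedBall z0 r with hB
    have hBc : IsCompact B := isCompact_closedBall z0 r
    have mh := loc_meas hcont hrV
    have mg := (hg B hBc hrV).1
    have t1 := hL B hBc hrV
    have hfin : volume B < ⊤ := hBc.measure_lt_top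
    have t2 : Tendsto (fun k => eLpNorm (fun z => h z - gk k z) 2 (volume.restrict B)) atTop
        (𝓝 0) := by
      have hb : ∀ c : ℝ, 0 < c → ∀ᶠ k in atTop,
          eLpNorm (fun z => h z - gk k z) 2 (volume.restrict B) ≤
            (volume.restrict B) univ ^ (2 : ℝ≥0∞).toReal⁻¹ * ENNReal.ofReal c := by
        intro c hcpos
        have := (Metric.tendstoUniformlyOn_iff.1 (hunif B hBc hrV)) c hcpos
        filter_upwards [this] with k hk
        refine eLpNorm_le_of_ae_bound ?_
        refine ae_restrict_of_forall_mem measurableSet_closedBall (fun z hz => ?_)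
        rw [← dist_eq_norm]
        exact (hk z hz).le
      rw [ENNReal.tendsto_nhds_zero]
      intro ε hε
      have hA : (volume.restrict B) univ ^ (2 : ℝ≥0∞).toReal⁻¹ ≠ ⊤ := by
        rw [Measure.restrict_apply_univ]
        exact ENNReal.rpow_ne_top_of_nonneg (by positivity) hfin.ne
      set A := (volume.restrict B) univ ^ (2 : ℝ≥0∞).toReal⁻¹ with hAdef
      have : Tendsto (fun c : ℝ => A * ENNReal.ofReal c) (𝓝[>] 0) (𝓝 0) := by
        have h0 : Tendsto (fun c : ℝ => ENNReal.ofReal c) (𝓝[>] 0) (𝓝 0) := by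
          have := (ENNReal.continuous_ofReal.tendsto (0 : ℝ)).mono_left
            (nhdsWithin_le_nhds (s := Set.Ioi (0 : ℝ)))
          simpa using this
        have := ENNReal.Tendsto.const_mul h0 (Or.inr hA)
        simpa using this
      have h3 : ∀ᶠ c : ℝ in 𝓝[>] 0, A * ENNReal.ofReal c ≤ ε :=
        (ENNReal.tendsto_nhds_zero.1 this) ε hε
      obtain ⟨c, hc1, hc2⟩ := (h3.and self_mem_nhdsWithin).exists
      filter_upwards [hb c hc2] with k hk
      exact hk.trans hc1
    have t3 := t2.add t1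
    rw [add_zero] at t3
    have h4 : eLpNorm (fun z => h z - g z) 2 (volume.restrict B) ≤ 0 := by
      refine ge_of_tendsto' t3 (fun k => ?_)
      have e := eLpNorm_add_le (p := 2) (mh.sub (loc_meas (hc k) hrV))
        ((loc_meas (hc k) hrV).sub mg) (by norm_num)
      have e2 : ((fun z => h z) - (fun z => gk k z)) + ((fun z => gk k z) - fun z => g z) =
          fun z => h z - g z := by
        funext z
        simp only [Pi.add_apply, Pi.sub_apply]
        ring
      refine le_trans (le_of_eq ?_) e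
      rw [← e2]
    have h5 : eLpNorm (fun z => h z - g z) 2 (volume.restrict B) = 0 := le_antisymm h4 bot_le
    have h6 := (eLpNorm_eq_zero_iff (mh.sub mg) two_ne_zero).1 h5
    filter_upwards [h6] with z hz
    exact sub_eq_zero.1 hz
  rw [Filter.EventuallyEq, ae_restrict_iff' hV.measurableSet, ae_iff]
  refine measure_null_of_locally_null _ (fun x hx => ?_)
  have hxV : x ∈ V := by
    by_contra hne
    exact hx (fun h => absurd h hne)
  obtain ⟨r, hr, hrV⟩ := Metric.nhds_basis_closedBall.mem_iff.1 (hV.mem_nhds hxV)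
  refine ⟨closedBall x r ∩ {a | ¬(a ∈ V → h a = g a)},
    inter_mem (mem_nhdsWithin_of_mem_nhds (closedBall_mem_nhds x hr)) self_mem_nhdsWithin, ?_⟩
  have h6 := hball x r hrV
  rw [Filter.EventuallyEq, ae_restrict_iff' measurableSet_closedBall, ae_iff] at h6
  refine measure_mono_null ?_ h6
  rintro z ⟨hz1, hz2⟩ hz3
  exact hz2 (fun _ => hz3 hz1)

end Cal
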