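import Pool.Agent.Lib.MP_4ea4c7_an.StmC2

/-!
# Statements, part D: boundary data on the diameter (the functions `k`), step A', the forms in the half disc, step A''

Paper: /team-store/MP_4ea4c7_paper.md, sections 5, 6, 7. (You may also use the statements `S_dnex, S_z0, S_half, S_gsym, S_zext, S_oddext, S_cut, S_flux` of StmC.lean as additional hypotheses.)
-/

open MeasureTheory Complex Metric Set Filter Topology
open scoped ComplexConjugate ENNReal NNReal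

namespace Cal

noncomputable section

/-! ## F. The functions `k` -/

/-- [F1] Basic facts on `k`. Proof: (1) `B = 0` a.e. for `‖z‖ > r` (`μ = 0`, `φ = 0` there; `1 ≤ r ≤ 5/4`), so `S_uniq` gives `A, B ∈ L²`; `k` is continuous on `{r < ‖z‖}` with weak `∂/∂z̄` zero, so holomorphic (`S_weyl`).
(2) Uniqueness: the difference of two solutions is a solution of the homogeneous equation with `Dec`: zero a.e. (`S_zero`), and both are continuous off `axis φ` (a closed set). (3) `k` is real on the real axis off `axis φ` by symmetry.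
(4) On the open set `(axis φ)ᶜ`, `f = i φ sgn (Im z) + k` is continuous and solves the Beltrami equation: `φ sgn (Im z)` is smooth there (near real points outside `tsupport φ` it vanishes), `db (i φ sgn) = i sgn db φ`, `dz (i φ sgn) = i sgn dz φ`, `conj (i sgn dz φ) = - i sgn db φ` (`φ` real). -/
def S_ksb : Prop := ∀ κ : ℝ, 0 ≤ κ → κ < 1 → ∀ r : ℝ, 1 ≤ r → r ≤ 5 / 4 → ∀ μ, Mu κ r μ → ∀ φ k A B, EvTF φ → KS μ φ k A B →
  (MemLp A 2 volume ∧ MemLp B 2 volume ∧ DifferentiableOn ℂ k {z | r < ‖z‖}) ∧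
  (∀ k' A' B', KS μ φ k' A' B' → (∀ z, z ∉ axis φ → k z = k' z) ∧ ∀ᵐ z, A z = A' z) ∧
  (∀ x : ℝ, ((k x).im = 0)) ∧
  (ContinuousOn (fun z => I * ((φ z : ℝ) : ℂ) * ((Real.sign z.im : ℝ) : ℂ) + k z) (axis φ)ᶜ ∧
    Bel μ (axis φ)ᶜ (fun z => I * ((φ z : ℝ) : ℂ) * ((Real.sign z.im : ℝ) : ℂ) + k z))

/-- [F2] Existence for smooth coefficients, continuous everywhere. Proof: `S z = - I (1 + μ z) sgn (Im z) db φ z` is bounded, measurable, zero for `‖z‖ ≥ 1`. `S_solve` with `p = 0`, `S_reg`: continuous `k`, `k = Ct w` for `‖z‖ > 5/4` (so `Dec`, `S_C3a`), a.e. equal to `Ct w` (so `WD`, `S_basic`).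
Symmetry: `k' z = conj (k (conj z))` satisfies the same equation (`S_basic` (6); `db φ (conj z) = conj (db φ z)` because `φ` is real and even; `sgn` is odd and `conj I = -I`), so `k' = k` by `S_zero` and continuity. -/
def S_ksS : Prop := ∀ κ : ℝ, 0 ≤ κ → κ < 1 → ∀ μ, SM κ μ → ∀ φ, EvTF φ → ∃ k A B, KS μ φ k A B ∧ Continuous k

/-- [F3] Existence for measurable coefficients, and convergence. Proof: part (2) first, for arbitrary `μ_k → μ` smooth and `k_k` from `S_ksS` (by uniqueness, `S_ksb` (2), these are the given ones off the axis): `w, A` from `S_solve` for `μ`, `p = 0`, source `S`; by `S_polypart`-type reasoning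
`kk k = Ct (B_k)` a.e. (`S_uniq`); `S_stab` (`Sk k - S = - I (μ_k - μ) sgn db φ → 0` in `L²` by dominated convergence): `kk k → Ct w` in `L²` of every ball, uniformly for `3/2 ≤ ‖z‖ ≤ r`, and `A_k → A` in `L²` of every ball. Equicontinuity at `z0 ∉ axis φ`: on a ball `ball z0 ρ` in the complement of the axis
`f_k = i φ sgn + kk k` is a continuous solution (`S_ksb` (4)) with bounded energy, so `S_mpF` and `S_CL` bound `|f_k z - f_k z0|`; `φ sgn` is a fixed continuous function there. `S_loc` with `V = (axis φ)ᶜ`: locally uniform limit `h`, continuous on `V`, `= Ct w` a.e. Part (1): `k := h` on `V`, `0` on `axis φ`; symmetry and `Dec` pass to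
the limit (for `‖z‖ ≥ 3/2` it is `Ct w`). -/
def S_ks : Prop := ∀ κ : ℝ, 0 ≤ κ → κ < 1 → ∀ μ, Mu κ 1 μ → ∀ φ, EvTF φ →
  (∃ k A B, KS μ φ k A B) ∧
  (∀ (μk : ℕ → ℂ → ℝ) (kk Ak Bk : ℕ → ℂ → ℂ) (k A B : ℂ → ℂ), (∀ j, SM κ (μk j)) → (∀ᵐ z, Tendsto (fun j => μk j z) atTop (𝓝 (μ z))) →
    (∀ j, KS (μk j) φ (kk j) (Ak j) (Bk j)) → KS μ φ k A B → ∀ K : Set ℂ, IsCompact K → K ⊆ (axis φ)ᶜ → TendstoUniformlyOn kk k atTop K)

/-! ## G. Step A' -/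

/-- [G1] Maximum principle in the upper half plane. Proof: for `ε > 0` choose `R` with `|q - c| ≤ ε` for `‖z‖ ≥ R`, `0 ≤ Im z`; on the half disc of radius `R`, `E = exp (i q)` is continuous on the closure, holomorphic inside, and `|E| = exp (- Im q) ≤ exp ε` on the boundary, so inside
(`Complex.norm_le_of_forall_mem_frontier_norm_le`): `Im q ≥ - ε`. -/
def S_hpm : Prop := ∀ (q : ℂ → ℂ) (c : ℝ), ContinuousOn q {z | 0 ≤ z.im} → DifferentiableOn ℂ q UH → (∀ x : ℝ, 0 ≤ (q x).im) →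
  (∀ ε : ℝ, 0 < ε → ∃ R : ℝ, ∀ z, 0 ≤ z.im → R ≤ ‖z‖ → ‖q z - c‖ ≤ ε) → ∀ z, 0 ≤ z.im → 0 ≤ (q z).im

/-- [G2] A function with nonnegative imaginary part in the upper half plane is nondecreasing on real gaps. Proof: for real `x` in `U`, `q x` is real (symmetry); `Im q (x + iy) ≥ 0 = Im q x` for `y > 0` gives `Im (i q'(x)) ≥ 0`, i.e. `Re q'(x) ≥ 0`. Integrate (`monotoneOn_of_deriv_nonneg`). -/
def S_gap : Prop := ∀ (U : Set ℂ) (q : ℂ → ℂ), IsOpen U → DifferentiableOn ℂ q U → (∀ z ∈ U, conj z ∈ U ∧ q (conj z) = conj (q z)) → (∀ z ∈ U, 0 ≤ z.im → 0 ≤ (q z).im) →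
  ∀ a b : ℝ, a ≤ b → (∀ x : ℝ, a ≤ x → x ≤ b → (x : ℂ) ∈ U) → (q a).re ≤ (q b).re

/-- [G3] The Nevanlinna function, smooth coefficients. Here `g = k - ∑ θ_i F_i - ε F_m` (`i < m`). Proof: `f = g + i φ sgn (Im z)` is a continuous solution on `U = (axis φ)ᶜ` (`S_ksb` (4) and `F i ∈ PN`, `S_basic`). `σ` from `S_sim` for `U`, `Φ = exp (-σ)(f - μ conj f)`, holomorphic on `U`,
`Φ (conj z) = conj (Φ z)`, `O((z+2)^m)` at `-2` (`μ = φ = 0` near `-2`), so `Φ = (z+2)^m q` with `q` holomorphic on `U` (removable singularity), symmetric. On the closed upper half plane `q` extends continuously: there `f = g + i φ` is continuous (`k` is continuous), so let `q' z = exp (-σ z)(g z + i φ z - μ z conj (g z + i φ z))/(z+2)^m`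
(and `q' = q` near `-2`). For real `x ≠ -2`: `Im q' x = exp (-σ x) (1 + μ x) φ x/(x+2)^m ≥ 0`: `σ x`, `g x` are real, `φ x ≥ 0`, and `φ x = 0` for `x ≤ -1`; near `-2` it is real. At infinity: `k = O(1/z)`, `F i = O(z^i)`, `F m/(z+2)^m = exp (m d_m) → 1`, `σ → 0`: `q' → -ε`. `S_hpm` gives `Im q ≥ 0` on the upper half plane,
`S_gap` that `q` is nondecreasing on `(-∞, α]`. Finally `q x = exp (-σ x)(1 - μ x) (g x)/(x+2)^m` for real `x ≤ α`: same sign as `g x` for `x > -2`. (1) `ε = 0`: `q → 0` at `-∞`, so `q ≥ 0` on `(-∞, α]`. (2) For any `ε` and `-2 < x ≤ x' ≤ α`: `g x > 0` implies `g x' ≥ 0` (`q x > 0 ⇒ q x' > 0`). -/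
def S_nev : Prop := ∀ κ : ℝ, 0 ≤ κ → κ < 1 → ∀ μ, SM κ μ → ∀ φ k A B, EvTF φ → (∀ x : ℝ, 0 ≤ φ x) → KS μ φ k A B → Continuous k →
  ∀ F D : ℕ → ℂ → ℂ, (∀ i, FMN μ i 0 (F i) (D i)) → ∀ (θ : ℕ → ℝ) (m : ℕ) (ε : ℝ) (g : ℂ → ℂ),
  (∀ z, g z = k z - ∑ i ∈ Finset.range m, (θ i : ℂ) * F i z - (ε : ℂ) * F m z) → (g =O[𝓝 (-2 : ℂ)] fun z => (z + 2) ^ m) →
  ∀ α : ℝ, (∀ z ∈ axis φ, α < z.re) →
  (ε = 0 → ∀ x : ℝ, -2 < x → x ≤ α → 0 ≤ (g x).re) ∧ (∀ x x' : ℝ, -2 < x → x ≤ x' → x' ≤ α → 0 < (g x).re → 0 ≤ (g x').re)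

/-- [G4] Expansion coefficients at `-2`, for any coefficient. Proof: near `-2` all functions are holomorphic and symmetric (`S_ksb`, `S_polypart`), `F i = (z+2)^i u_i` with `u_i = (4-z-2)^0 exp (i d_i)` holomorphic near `-2`, `u_i (-2) ≠ 0` real. Recursively, if `g_m = k - ∑_{i<m} θ_i F_i = (z+2)^m v_m` with `v_m` holomorphic near `-2`
(factor out the zero), `θ_m := v_m (-2)/u_m (-2)`, real. Uniqueness: for two sequences take the first index where they differ. -/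
def S_theta : Prop := ∀ κ : ℝ, 0 ≤ κ → κ < 1 → ∀ r : ℝ, 1 ≤ r → r ≤ 5 / 4 → ∀ μ, Mu κ r μ → ∀ φ k A B, EvTF φ → KS μ φ k A B →
  ∀ F D : ℕ → ℂ → ℂ, (∀ i, FMN μ i 0 (F i) (D i)) →
  (∃ θ : ℕ → ℝ, ∀ m : ℕ, (fun z => k z - ∑ i ∈ Finset.range m, (θ i : ℂ) * F i z) =O[𝓝 (-2 : ℂ)] fun z => (z + 2) ^ m) ∧
  (∀ θ θ' : ℕ → ℝ, (∀ m : ℕ, (fun z => k z - ∑ i ∈ Finset.range m, (θ i : ℂ) * F i z) =O[𝓝 (-2 : ℂ)] fun z => (z + 2) ^ m) →
    (∀ m : ℕ, (fun z => k z - ∑ i ∈ Finset.range m, (θ' i : ℂ) * F i z) =O[𝓝 (-2 : ℂ)] fun z => (z + 2) ^ m) → θ = θ')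

/-- [G5] The inequality, smooth coefficients. Proof: `θ` from `S_theta`, `g_m = k - ∑_{i<m} θ_i F_i`, real on the real axis; `F_m x > 0` for real `x > -2` (`F m x = (x+2)^m exp (m d)` with `d x` real). By `S_nev` (1) `g_m ≥ 0` on `(-2, α]`. If `g_m x F_m x' > g_m x' F_m x` for some `-2 < x ≤ x' ≤ α`, choose `ε` strictly between `g_m x'/F_m x'` and
`g_m x/F_m x`: contradiction to `S_nev` (2) for `g = g_m - ε F_m` (`= O((z+2)^m)`). So `g_m/F_m` is nondecreasing; `θ_m` is its limit at `-2` (as `g_{m+1} = g_m - θ_m F_m = O((z+2)^{m+1})`), so `θ_m ≥ 0`; hence `g_m ≤ k` on `(-2, α]` and `g_m x F_m x' ≤ g_m x' F_m x ≤ k x' F_m x`. -/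
def S_ineqS : Prop := ∀ κ : ℝ, 0 ≤ κ → κ < 1 → ∀ μ, SM κ μ → ∀ φ k A B, EvTF φ → (∀ x : ℝ, 0 ≤ φ x) → KS μ φ k A B → Continuous k →
  ∀ F D : ℕ → ℂ → ℂ, (∀ i, FMN μ i 0 (F i) (D i)) → ∀ α : ℝ, (∀ z ∈ axis φ, α < z.re) →
  ∀ θ : ℕ → ℝ, (∀ m : ℕ, (fun z => k z - ∑ i ∈ Finset.range m, (θ i : ℂ) * F i z) =O[𝓝 (-2 : ℂ)] fun z => (z + 2) ^ m) →
  ∀ (m : ℕ) (x x' : ℝ), -2 < x → x ≤ x' → x' ≤ α →
    0 ≤ (k x - ∑ i ∈ Finset.range m, (θ i : ℂ) * F i x).re ∧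
    (k x - ∑ i ∈ Finset.range m, (θ i : ℂ) * F i x).re * (F m x').re ≤ (k x').re * (F m x).re

/-- [G6] The inequality, measurable coefficients. Proof: `μ_j` from `S_mollmu`, `k_j` from `S_ksS`, `F_{i,j}` from `S_fexist`; `k_j → k` locally uniformly off `axis φ` (`S_ks`), `F_{i,j} → F_i` locally uniformly (`S_conv`). The coefficients converge, `θ_{i,j} → θ_i`, by induction on `i`: `g_{m,j} = k_j - ∑_{i<m} θ_{i,j} F_{i,j} → g_m` uniformly on the circle `|z+2| = 1/4`,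
where everything is holomorphic inside (`S_ksb`, `S_polypart`: radius `5/4` for `μ_j`), so `v_{m,j} = g_{m,j}/(z+2)^m → v_m` on the circle and (maximum principle / Cauchy formula) at `-2`, the same for `u_{m,j}`; `θ_{m,j} = v_{m,j}(-2)/u_{m,j}(-2)`. Pass to the limit in `S_ineqS` at the points `x, x' ∉ axis φ`. -/
def S_ineq : Prop := ∀ κ : ℝ, 0 ≤ κ → κ < 1 → ∀ μ, Mu κ 1 μ → ∀ φ k A B, EvTF φ → (∀ x : ℝ, 0 ≤ φ x) → KS μ φ k A B →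
  ∀ F D : ℕ → ℂ → ℂ, (∀ i, FMN μ i 0 (F i) (D i)) → ∀ α : ℝ, (∀ z ∈ axis φ, α < z.re) →
  ∀ θ : ℕ → ℝ, (∀ m : ℕ, (fun z => k z - ∑ i ∈ Finset.range m, (θ i : ℂ) * F i z) =O[𝓝 (-2 : ℂ)] fun z => (z + 2) ^ m) →
  ∀ (m : ℕ) (x x' : ℝ), -2 < x → x ≤ x' → x' ≤ α →
    0 ≤ (k x - ∑ i ∈ Finset.range m, (θ i : ℂ) * F i x).re ∧
    (k x - ∑ i ∈ Finset.range m, (θ i : ℂ) * F i x).re * (F m x').re ≤ (k x').re * (F m x).re

/-- Asymptotics (statement of part B, repeated here as an interface): `d_{m,n} → 0` uniformly. -/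
def I_AL : Prop := ∀ κ : ℝ, 0 ≤ κ → κ < 1 → ∀ μ, Mu κ 1 μ → ∀ ε : ℝ, 0 < ε → ∃ N0 : ℕ, ∀ (m n : ℕ) (f d : ℂ → ℂ), N0 ≤ m + n → FMN μ m n f d → ∀ z, ‖d z‖ ≤ ε

/-- [G7] Step A'. Proof: for `x < α`: `F_i^1, F_i^2` from `S_lim` agree for `‖z‖ ≥ 1` and on the real axis (`FEq`), `k_1 = k_2` for `‖z‖ ≥ 1` (`PairOut`). So the coefficients of `S_theta` are the same `θ` for both (the germs at `-2` agree). By `S_ineq` with a fixed `x' ∈ (x, α]`: `0 ≤ k_j x - ∑_{i<m} θ_i F_i x ≤ k_j x' F_m x/F_m x' → 0` as `m → ∞`, since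
`F_m x/F_m x' = ((x+2)/(x'+2))^m exp (m (d_m x - d_m x')) → 0` by `I_AL`. So `k_1 x = k_2 x = ∑ θ_i F_i x`. For `x = α`: continuity of `k_j` off `axis φ` (`α ∉ axis φ`). -/
def S_left : Prop := ∀ κ : ℝ, 0 ≤ κ → κ < 1 → ∀ μ₁ μ₂, Mu κ 1 μ₁ → Mu κ 1 μ₂ → FEq μ₁ μ₂ → PairOut μ₁ μ₂ → LeftEq μ₁ μ₂

/-! ## H. The forms in the half disc -/

/-- [H1] Continuous functions with zero boundary values. Proof: `H_ε` as in `S_crit`, `G_ε t = t - H_ε t`: smooth, `G_ε t = 0` for `|t| ≤ ε/2`, `|G_ε t - t| ≤ ε`, `|G_ε'| ≤ 5`, `G_ε' t = 1` for `|t| ≥ 2ε`. `G_ε(u)` has compact support in `Ω` (`{|u| ≥ ε/2}` is a compact subset of `closure Ω` away from the frontier),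
weak gradient `G_ε'(u) G` (`S_chain`, `S_bridge`), so its mollifications (`S_bump`, applied to the extension by zero) are test functions converging to it together with the gradients in `L²`. As `ε → 0`: `|G_ε(u) - u| ≤ ε` and `G_ε'(u) G → 1_{u ≠ 0} G = G` in `L²(Ω)` by dominated convergence and `S_crit`. -/
def S_zb : Prop := ∀ (Ω : Set ℂ) (u : ℂ → ℝ) (G : ℂ → ℂ), IsOpen Ω → Bornology.IsBounded Ω → ContinuousOn u (closure Ω) → (∀ z ∈ frontier Ω, u z = 0) →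
  WG Ω u G → MemLp G 2 (volume.restrict Ω) →
  ∀ ε : ℝ, 0 < ε → ∃ φ : ℂ → ℝ, RTF Ω φ ∧ eLpNorm (fun z => ((u z - φ z : ℝ) : ℂ)) 2 (volume.restrict Ω) < ENNReal.ofReal ε ∧
    eLpNorm (fun z => G z - gr φ z) 2 (volume.restrict Ω) < ENNReal.ofReal ε

/-- [H2] Elementary facts on `Z0` and `DN`: linearity, test functions, closedness, change on null sets. -/
def S_zz : Prop := ∀ Ω : Set ℂ, MeasurableSet Ω →
  (∀ φ, RTF Ω φ → Z0 Ω (gr φ)) ∧ (∀ G H, Z0 Ω G → Z0 Ω H → Z0 Ω (fun z => G z + H z)) ∧ (∀ G (c : ℝ), Z0 Ω G → Z0 Ω (fun z => (c : ℂ) * G z)) ∧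
  (∀ G, MemLp G 2 (volume.restrict Ω) → (∀ ε : ℝ, 0 < ε → ∃ H, Z0 Ω H ∧ eLpNorm (fun z => G z - H z) 2 (volume.restrict Ω) < ENNReal.ofReal ε) → Z0 Ω G) ∧
  (∀ G H, Z0 Ω G → G =ᵐ[volume.restrict Ω] H → Z0 Ω H)

/-- [H3] The difference form. Proof: existence and uniqueness of `sol` (in `L²(Ω)`): Lax-Milgram (`IsCoercive.continuousLinearEquivOfBilin`) or orthogonal projection in the closed subspace of `L²(Ω; ℂ)` (real Hilbert space) given by `Z0`, for the form `∫ γ ip`; part C contains it as `S_dnex`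
(not needed as a hypothesis, prove it here if it is not there). Linearity of `sol` a.e. by uniqueness. Symmetry: `∫ γ ip (G') H = ∫ γ ip G' H' = ∫ γ ip G H'` because `H' - H, G' - G ∈ Z0` and the equation extends from test functions to `Z0` by continuity. Bound: `‖sol G‖₂ ≤ (1 + C/c) ‖G‖₂`. `Z0 Ω G`: `sol = 0`. -/
def S_bb : Prop := ∀ (Ω : Set ℂ) (c C : ℝ) (γ₁ γ₂ : ℂ → ℝ), IsOpen Ω → 0 < c → Cond c C γ₁ → Cond c C γ₂ →
  (∀ G G' H, MemLp G 2 (volume.restrict Ω) → MemLp G' 2 (volume.restrict Ω) → MemLp H 2 (volume.restrict Ω) → bb Ω γ₁ γ₂ (fun z => G z + G' z) H = bb Ω γ₁ γ₂ G H + bb Ω γ₁ γ₂ G' H) ∧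
  (∀ G H (s : ℝ), MemLp G 2 (volume.restrict Ω) → MemLp H 2 (volume.restrict Ω) → bb Ω γ₁ γ₂ (fun z => (s : ℂ) * G z) H = s * bb Ω γ₁ γ₂ G H) ∧
  (∀ G H, MemLp G 2 (volume.restrict Ω) → MemLp H 2 (volume.restrict Ω) → bb Ω γ₁ γ₂ G H = bb Ω γ₁ γ₂ H G) ∧
  (∃ K : ℝ, 0 ≤ K ∧ ∀ G H, MemLp G 2 (volume.restrict Ω) → MemLp H 2 (volume.restrict Ω) →
    |bb Ω γ₁ γ₂ G H| ≤ K * (eLpNorm G 2 (volume.restrict Ω)).toReal * (eLpNorm H 2 (volume.restrict Ω)).toReal) ∧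
  (∀ G H, Z0 Ω G → MemLp H 2 (volume.restrict Ω) → bb Ω γ₁ γ₂ G H = 0) ∧
  (∀ G H, MemLp G 2 (volume.restrict Ω) → MemLp H 2 (volume.restrict Ω) → (Beq Ω γ₁ γ₂ G H ↔ bb Ω γ₁ γ₂ G H = 0)) ∧
  (∀ G G' H, G =ᵐ[volume.restrict Ω] G' → bb Ω γ₁ γ₂ G H = bb Ω γ₁ γ₂ G' H ∧ bb Ω γ₁ γ₂ H G = bb Ω γ₁ γ₂ H G')

/-- [H4] Odd functions supported in the disc have gradients in `Z0 HB`. Proof: mollify with the radial kernels of `S_bump`: `a_n = mol (ρ n) a` is smooth, odd (the kernel is radial), zero for `‖z‖ ≥ r' ` with `r' < 1` (`n` large), so continuous and zero on the frontier of `HB` (on the real axis by oddness): `S_zb` gives `Z0 HB (gr a_n)`;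
`gr a_n = mol (ρ n) G → G` in `L²`; `Z0` is closed (`S_zz`). -/
def S_odd0 : Prop := ∀ (a : ℂ → ℝ) (G : ℂ → ℂ), WG univ a G → MemLp G 2 volume → (∀ z, a (conj z) = - a z) → (∃ r : ℝ, r < 1 ∧ ∀ z, r < ‖z‖ → a z = 0) → Z0 HB G

/-- Zero extension across the real axis (interface; statement of part C). -/
def I_zext : Prop := ∀ (u : ℂ → ℝ) (G : ℂ → ℂ), Continuous u → WG univ u G → (∀ x : ℝ, u x = 0) →
  WG univ (fun z => if 0 < z.im then u z else 0) (fun z => if 0 < z.im then G z else 0)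

/-- Flux identity for `k` (interface; statement of part C): the weak equation for `U = φ + Im k` in the upper half plane, tested with odd functions. -/
def I_ksflux : Prop := ∀ κ : ℝ, 0 ≤ κ → κ < 1 → ∀ μ, Mu κ 1 μ → ∀ φ k A B, EvTF φ → KS μ φ k A B → ∀ Ψ H, OC Ψ H →
  ∫ z in UH, gam μ z * ip (gr φ z + I * (conj (A z) - B z)) (H z) = 0

/-- [H5] The solution `U = φ + Im k` as a half disc solution. For `χ` smooth, even, zero on a neighbourhood of `tsupport φ`, `χ = 1` for `‖z‖ ≥ r` with `r < 1`, compact support: `Θ = χ Im k` is odd, continuous, compactly supported, `OC Θ T` with `T = χ ∇Im k + Im k ∇χ`, and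
`DN HB (gam μ) (gr φ + T) (gr φ + ∇ Im k)`, `∇ Im k = I (conj A - B)`. Proof: existence of such a `χ`: `tsupport φ` is a compact subset of the open disc. `Im k` is odd (symmetry of `k`), continuous off `axis φ`, `χ = 0` near `axis φ`. `WG`: `S_bridge`, `S_smooth` (3). `Z0`: the difference `(gr φ + ∇ Im k) - (gr φ + T)` is the gradient of
`(1-χ) Im k`, odd, zero for `‖z‖ > r`: `S_odd0`. Solution: for a test function `η` of `HB`: `∫_HB gam μ ip (gr φ + ∇ Im k) (gr η) = 0`: on the upper half plane `gr φ + ∇ Im k = I (conj (A + i dz φ) - (B + i db φ))`, and with `B = μ conj A - i (1+μ) db φ`, `gam μ · (gr φ + ∇ Im k) = I (conj A + B)`, i.e. `I` times the gradient of `Re k`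
(compute: `conj A - B + ... `), and `∫ ip (I ∇v) (gr η) = ± ∫ cr (∇v) (gr η) = 0` by `S_wedge`. -/
def S_ksdn : Prop := ∀ κ : ℝ, 0 ≤ κ → κ < 1 → ∀ μ, Mu κ 1 μ → ∀ φ k A B, EvTF φ → KS μ φ k A B →
  (∀ᵐ z ∂(volume.restrict UH), ((gam μ z : ℝ) : ℂ) * (gr φ z + I * (conj (A z) - B z)) = I * (conj (A z) + B z)) ∧
  ∀ χ : ℂ → ℝ, RTF univ χ → (∀ z, χ (conj z) = χ z) → (∀ᶠ z in 𝓝ˢ (tsupport φ), χ z = 0) → (∃ r : ℝ, r < 1 ∧ ∀ z, r ≤ ‖z‖ → ‖z‖ ≤ 1 → χ z = 1) →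
    OC (fun z => χ z * (k z).im) (fun z => (χ z : ℂ) * (I * (conj (A z) - B z)) + ((k z).im : ℂ) * gr χ z) ∧
    DN HB (gam μ) (fun z => gr φ z + ((χ z : ℂ) * (I * (conj (A z) - B z)) + ((k z).im : ℂ) * gr χ z)) (fun z => gr φ z + I * (conj (A z) - B z))

/-- [H6] 5.2: diameter data against odd functions. Proof: `χ` as in `S_ksdn` (exists), `Θ_j = χ Im k_j`, `T_j` its gradient. `Θ_1 - Θ_2` is continuous, odd, zero for `‖z‖ ≥ 1` (`PairOut`), so zero on the frontier of `HB`: `Z0 HB (T_1 - T_2)` (`S_zb`). `G_j = gr φ + ∇ Im k_j` is the solution (`S_ksdn`) for `gr φ + T_j`, so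
`bh (gr φ + T_1) H = ∫_HB gam μ₁ ip G_1 H - ∫_HB gam μ₂ ip G_2 H` (using `Z0`-invariance). By `I_ksflux` the integrals over `UH` vanish, and outside `HB` (where `gam μ_j = 1` a.e.) `G_1 = G_2` a.e. (`k_1 = k_2` for `‖z‖ ≥ 1`: equal gradients, `S_wuniq`): so the difference is `0`. By `HYP` `bh T_1 H = 0` (`T_1` is the gradient of an `OC` function). Subtract. -/
def S_52 : Prop := ∀ κ : ℝ, 0 ≤ κ → κ < 1 → ∀ μ₁ μ₂, Mu κ 1 μ₁ → Mu κ 1 μ₂ → HYP μ₁ μ₂ → PairOut μ₁ μ₂ → ∀ φ Ψ H, EvTF φ → OC Ψ H → bh μ₁ μ₂ (gr φ) H = 0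

/-- [H7] 6.1 for nonnegative `φ`. Proof: `k_j, G_j, T_j, χ` as in `S_52`: `bh (gr φ + T_1)(gr ψ) = ∫_HB gam μ₁ ip G_1 (gr ψ) - ∫_HB gam μ₂ ip G_2 (gr ψ)`, and `gam μ_j G_j = I ∇V_j`, `V_j = Re k_j` (`S_ksdn` (1)), so it is `± ∫_HB cr (∇(V_1 - V_2)) (gr ψ)`. Let `χ₂` be an even test function, `χ₂ = 1` near `tsupport ψ`, with `tsupport χ₂` disjoint from `axis φ` and
`Re z < t` for real `z ∈ tsupport χ₂` (exists: `tsupport ψ` is compact, and its real points have `Re < t`; `axis φ` lies in `Re > t`). `a = χ₂ (V_1 - V_2)` is continuous, zero for `‖z‖ ≥ 1` (`PairOut`) and on the real axis (`LeftEq` with `α = t`; for real `x ≤ -1` `PairOut`), so its gradient is in `Z0 HB` (`S_zb`) and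
`∫_HB cr (∇(V_1-V_2)) (gr ψ) = ∫_HB cr (∇a) (gr ψ) = 0` (limit of `∫ cr (gr η) (gr ψ) = 0` for test functions `η` of `HB`: `S_wedge`). And `bh T_1 (gr ψ) = bh (gr ψ) T_1 = 0` by symmetry (`S_bb`) and `S_52`. So `bh (gr φ) (gr ψ) = 0`. -/
def S_sep0 : Prop := ∀ κ : ℝ, 0 ≤ κ → κ < 1 → ∀ μ₁ μ₂, Mu κ 1 μ₁ → Mu κ 1 μ₂ → HYP μ₁ μ₂ → PairOut μ₁ μ₂ → LeftEq μ₁ μ₂ → ∀ φ ψ, EvTF φ → EvTF ψ → (∀ x : ℝ, 0 ≤ φ x) →
  ∀ t : ℝ, (∀ z ∈ axis φ, t < z.re) → (∀ z ∈ axis ψ, z.re < t) → bh μ₁ μ₂ (gr φ) (gr ψ) = 0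

/-- [H8] 6.1 in general. Proof: let `η` be an even nonnegative test function of the disc with `η = 1` on `tsupport φ` and real support in `Re > t` (exists by compactness), `M ≥ |φ|`: `φ = M η - (M η - φ)` is a difference of functions as in `S_sep0` (nonnegative everywhere). -/
def S_sep : Prop := ∀ κ : ℝ, 0 ≤ κ → κ < 1 → ∀ μ₁ μ₂, Mu κ 1 μ₁ → Mu κ 1 μ₂ → HYP μ₁ μ₂ → PairOut μ₁ μ₂ → LeftEq μ₁ μ₂ → ∀ φ ψ, EvTF φ → EvTF ψ →
  ∀ t : ℝ, (∀ z ∈ axis φ, t < z.re) → (∀ z ∈ axis ψ, z.re < t) → bh μ₁ μ₂ (gr φ) (gr ψ) = 0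

/-! ## J. Step A'' -/

/-- [J1] Corner cutoffs (zero capacity of points). Proof: `η z = S (log (1/|z-1|)/ log (1/δ) ...)`: with `S = Real.smoothTransition`, `η z = S (2 - log |z - p|/log δ ...)`. Concretely for `0 < δ < 1` put `η_p z = Real.smoothTransition (2 * Real.log ‖z-p‖ / Real.log δ - 1)` for `z ≠ p`, `1` at `p`: it is `1` for `‖z-p‖ ≤ δ`, `0` for `‖z-p‖ ≥ √δ`, and
`|∇η| ≤ C/(|log δ| ‖z-p‖)`, so `∫ |∇η|² ≤ C/|log δ|`. Take `η = η_1 + η_{-1}`, `δ` small. -/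
def S_corner : Prop := ∀ ε : ℝ, 0 < ε → ∃ η : ℂ → ℝ, RTF univ η ∧ (∀ z, 0 ≤ η z ∧ η z ≤ 1) ∧ (∀ᶠ z in 𝓝 (1 : ℂ), η z = 1) ∧ (∀ᶠ z in 𝓝 (-1 : ℂ), η z = 1) ∧
  (∀ z, ε < ‖z - 1‖ → ε < ‖z + 1‖ → η z = 0) ∧ eLpNorm (gr η) 2 volume < ENNReal.ofReal ε

/-- [J1b] Cutting off the corners. Proof: `Φ' = (1 - η) Φ`, `η` from `S_corner` for a small `δ`: `gr Φ - gr Φ' = Φ gr η + η gr Φ` has `L²` norm at most `‖Φ‖_∞ δ + ‖gr Φ‖_∞ (2π)^{1/2} δ`. -/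
def S_ccut : Prop := ∀ Φ : ℂ → ℝ, RTF univ Φ → ∀ ε : ℝ, 0 < ε → ∃ Φ' : ℂ → ℝ, RTF univ Φ' ∧ (∀ᶠ z in 𝓝 (1 : ℂ), Φ' z = 0) ∧ (∀ᶠ z in 𝓝 (-1 : ℂ), Φ' z = 0) ∧
  tsupport Φ' ⊆ tsupport Φ ∧ (∀ z, Φ z = 0 → Φ' z = 0) ∧ eLpNorm (fun z => gr Φ z - gr Φ' z) 2 volume < ENNReal.ofReal ε

/-- [J2] Decomposition of a smooth function vanishing near the corners. Proof: `ρ` with `Φ = 0` on `ball (±1) (2ρ)`; `ω` an even test function of the disc, `ω = 1` near the real segment `|x| ≤ 1-ρ`; `φ z = (Φ ω z + Φ ω (conj z))/2` is `EvTF`, `φ x = Φ x` for real `|x| ≤ 1` and `axis φ ⊆ tsupport Φ`. `Φ₂ = Φ - φ` vanishes on the real segment `[-1,1]` and near `±1`.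
`τ` smooth, `τ = 1` on `closure HB` minus the balls `ball (±1) ρ` and `τ = 0` on a neighbourhood of the real points with `|x| ≥ 1`, outside these balls (disjoint closed sets), compact support. `Ψ z = τ z Φ₂ z` for `0 < Im z`, `Ψ z = - τ (conj z) Φ₂ (conj z)` for `Im z < 0`, `0` on the axis: `τ Φ₂ = 0` on the whole real axis, so `Ψ` is continuous and `WG` holds by `I_zext`
(difference of the zero extension and its reflection). On `HB`: `gr Φ = gr φ + gr Φ₂ = gr φ + H`. -/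
def S_dec : Prop := ∀ Φ : ℂ → ℝ, RTF univ Φ → (∀ᶠ z in 𝓝 (1 : ℂ), Φ z = 0) → (∀ᶠ z in 𝓝 (-1 : ℂ), Φ z = 0) →
  ∃ (φ Ψ : ℂ → ℝ) (H : ℂ → ℂ), EvTF φ ∧ OC Ψ H ∧ (∀ z ∈ HB, gr Φ z = gr φ z + H z) ∧ (∀ x : ℝ, |x| ≤ 1 → φ x = Φ x) ∧ (∀ z ∈ axis φ, z ∈ tsupport Φ)

/-- [J3] The form on smooth functions separated on the diameter. Proof: `Φ_ε, Ψ_ε` from `S_ccut`, `gr Φ_ε → gr Φ` in `L²(HB)`, the same for `Ψ`; by the bound in `S_bb` it is enough to treat `Φ_ε, Ψ_ε`. Decompose (`S_dec`): `gr Φ_ε = gr φ + H`, `gr Ψ_ε = gr ψ + H'` on `HB`: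
`bh = bh (gr φ)(gr ψ) + bh (gr φ) H' + bh H (gr ψ) + bh H H'`; the last is `0` by `HYP`, the middle ones by `S_52` and symmetry, the first by `S_sep` (and symmetry): the real points of the supports in the disc are separated by `t`. -/
def S_E1 : Prop := ∀ κ : ℝ, 0 ≤ κ → κ < 1 → ∀ μ₁ μ₂, Mu κ 1 μ₁ → Mu κ 1 μ₂ → HYP μ₁ μ₂ → PairOut μ₁ μ₂ → LeftEq μ₁ μ₂ → ∀ Φ Ψ, RTF univ Φ → RTF univ Ψ →
  ∀ t : ℝ, (∀ z ∈ tsupport Φ, z.im = 0 → |z.re| ≤ 1 → t < z.re) → (∀ z ∈ tsupport Ψ, z.im = 0 → |z.re| ≤ 1 → z.re < t) → bh μ₁ μ₂ (gr Φ) (gr Ψ) = 0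

/-- [J4] Functions vanishing on the diameter. Proof: as `S_E1`; now `φ x = 0` for real `|x| ≤ 1`, so `φ` is continuous and zero on the frontier of `HB` (`EvTF`: zero for `‖z‖ ≥ 1`): `Z0 HB (gr φ)` (`S_zb`) and `bh (gr φ) · = 0` (`S_bb`). -/
def S_tr0 : Prop := ∀ κ : ℝ, 0 ≤ κ → κ < 1 → ∀ μ₁ μ₂, Mu κ 1 μ₁ → Mu κ 1 μ₂ → HYP μ₁ μ₂ → PairOut μ₁ μ₂ → ∀ Φ Ψ, RTF univ Φ → RTF univ Ψ →
  (∀ x : ℝ, |x| ≤ 1 → Φ x = 0) → bh μ₁ μ₂ (gr Φ) (gr Ψ) = 0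

/-- [J5] Step functions. For `K ≥ 2`, `h = 2/K`, `x_k = -1 + k h`: `Λ k z = smoothTransition ((Re z - x_k)/(h + Im z))` near `closure HB`. Proof: the function is smooth for `Im z > -h`; multiply by a smooth cutoff with compact support in `{Im z > -h/2}`, equal to `1` near `closure HB`. Energy: on `HB`, `|∇| ≤ C/(h+y)` and it vanishes unless `0 ≤ Re z - x_k ≤ h + y`, so
`∫_HB |∇Λ|² ≤ ∫_0^1 C²/(h+y) dy = C² log ((1+h)/h)`. -/
def S_step : Prop := ∃ C : ℝ, 0 ≤ C ∧ ∀ K : ℕ, 2 ≤ K → ∃ Λ : ℕ → ℂ → ℝ, (∀ k, k < K → RTF univ (Λ k)) ∧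
  (∀ k, k < K → ∀ᶠ z in 𝓝ˢ (closure HB), Λ k z = Real.smoothTransition ((z.re - (-1 + k * (2 / (K : ℝ)))) / (2 / (K : ℝ) + z.im))) ∧
  (∀ k, k < K → (eLpNorm (gr (Λ k)) 2 (volume.restrict HB)).toReal ≤ C * Real.sqrt (1 + Real.log K)) ∧
  (∃ Λ1 : ℂ → ℝ, RTF univ Λ1 ∧ ∀ᶠ z in 𝓝ˢ (closure HB), Λ1 z = 1)

/-- [J6] Interpolation error. With `φ x_k` the values at the nodes: `e x = φ x - ∑_{k<K} (φ x_{k+1} - φ x_k) smoothTransition ((x - x_k)/h)` for real `x`. For `x ∈ [x_i, x_{i+1}]` it is `φ x - φ x_i - (φ x_{i+1} - φ x_i) smoothTransition ((x-x_i)/h)` (telescoping, `φ (-1) = 0`), so `|e| ≤ 2 M h` and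
`|e'| ≤ M (1 + C_S)` on `[-1,1]`, `M = sup |φ'|` on the axis; `e` is smooth. `E z = e (Re z) χ (Im z/h)`, `χ` a smooth cutoff of one variable, `χ 0 = 1`, `χ t = 0` for `|t| ≥ 1` (times a cutoff in `Re z` outside `[-1,1]` to have compact support): `∫_HB |∇E|² ≤ 2 · h · C (M² + (2Mh)²/h²)`. -/
def S_interp : Prop := ∀ φ : ℂ → ℝ, EvTF φ → ∃ C : ℝ, 0 ≤ C ∧ ∀ K : ℕ, 2 ≤ K →
  (∀ k : ℕ, k < K → |φ ((-1 + ((k : ℝ) + 1) * (2 / (K : ℝ)) : ℝ) : ℂ) - φ ((-1 + (k : ℝ) * (2 / (K : ℝ)) : ℝ) : ℂ)| ≤ C / K) ∧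
  ∃ E : ℂ → ℝ, RTF univ E ∧ (∀ x : ℝ, |x| ≤ 1 → E x = φ x - ∑ k ∈ Finset.range K,
    (φ ((-1 + ((k : ℝ) + 1) * (2 / (K : ℝ)) : ℝ) : ℂ) - φ ((-1 + (k : ℝ) * (2 / (K : ℝ)) : ℝ) : ℂ)) * Real.smoothTransition ((x - (-1 + k * (2 / (K : ℝ)))) / (2 / (K : ℝ)))) ∧
  (eLpNorm (gr E) 2 (volume.restrict HB)).toReal ≤ C / Real.sqrt K

/-- [J7] The form vanishes on even test functions. Proof: `Λ k` (`S_step`), `δ_k, δ'_k` the increments of `φ, ψ`, `P = ∑ δ_k Λ k`, `P' = ∑ δ'_k Λ k`, `E, E'` from `S_interp`. `Φ₀ = φ - P - E` vanishes on the diameter, so `bh (gr Φ₀) · = 0` against smooth functions (`S_tr0`), i.e. `bh(φ, ·) = bh(P, ·) + bh(E, ·)`. Hence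
`bh(φ,ψ) = bh(P,P') + bh(P,E') + bh(E,ψ)`, `bh(P,E') = bh(φ,E') - bh(E,E')`: these error terms are `O(1/√K)` (bound in `S_bb`). `bh(P,P') = ∑ δ_k δ'_l bh(Λ k, Λ l)`. For `k + 2 ≤ l`: `bh(Λ k, Λ l) = - bh(Λ1 - Λ k, Λ l)` (`gr Λ1 = 0` on `HB`), and this is `0` by `S_E1` with `t = x_{k+1} + h/2`: on the diameter `Λ1 - Λ k` is supported in `x ≤ x_{k+1}`,
`Λ l` in `x ≥ x_l ≥ x_{k+2}` (take products with cutoffs if the topological supports away from `closure HB` disturb; only values near `closure HB` matter). Symmetric for `l + 2 ≤ k`. The at most `3K` remaining terms are bounded by `(C/K)² K_b C² (1 + log K)`: sum `O(log K/K) → 0`. -/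
def S_E3 : Prop := ∀ κ : ℝ, 0 ≤ κ → κ < 1 → ∀ μ₁ μ₂, Mu κ 1 μ₁ → Mu κ 1 μ₂ → HYP μ₁ μ₂ → PairOut μ₁ μ₂ → LeftEq μ₁ μ₂ → ∀ φ ψ, EvTF φ → EvTF ψ → bh μ₁ μ₂ (gr φ) (gr ψ) = 0

/-- [J8] The core theorem in the half disc. Proof: as `S_E1` (`S_ccut`, `S_dec`), with `S_E3` instead of `S_sep`. -/
def S_core : Prop := ∀ κ : ℝ, 0 ≤ κ → κ < 1 → ∀ μ₁ μ₂, Mu κ 1 μ₁ → Mu κ 1 μ₂ → HYP μ₁ μ₂ → PairOut μ₁ μ₂ → LeftEq μ₁ μ₂ → ∀ Φ Ψ, RTF univ Φ → RTF univ Ψ →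
  bh μ₁ μ₂ (gr Φ) (gr Ψ) = 0

end

end Cal
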