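import Pool.Agent.Lib.MP_4ea4c7_an.FDefs
import Pool.Agent.Lib.MP_4ea4c7_an.StmD

/-!
# Statements, part F: Sobolev facts for the final definitions, conformal transport, density, final assembly (section 8)

Every `S_xx : Prop` is one piece; the pieces it needs are hypotheses of the theorem to be proved (see the request). Complete informal proofs are in the docstrings.
`IsTest U φ` and `RTF U φ`, `grad` and `gr` are the same by definition (`Iff.rfl`, `rfl`); `dot a b = ip a b` (`(a * conj b).re`).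
-/

open MeasureTheory Complex Metric Set Filter Topology
open scoped ComplexConjugate ENNReal NNReal

namespace Cal

open LocalCalderon

noncomputable section

/-! ## K. Sobolev facts -/

/-- [K1] Elementary facts. Proofs: (1) `choose_spec`. (2) for open `Ω`, `∫_Ω φ (G - G') = 0` for all test functions in `Ω`, so `G = G'` a.e. on `Ω` (`IsOpen.ae_eq_zero_of_integral_contDiff_smul_eq_zero`, for real and imaginary part or directly for `ℂ`-valued functions); then `wgrad Ω u = G` a.e. by (1).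
(3) `WeakGrad` is linear, use (2). (4) if `u = v` a.e. on `Ω`, the integrals agree. (5) `φ η` is a test function in `Ω`: `∫ u η grad φ = ∫ u grad (φ η) - ∫ u φ grad η = - ∫ (η G + u grad η) φ`; `η`, `grad η` are bounded.
(6) restriction: test functions in `Ω` are test functions in `Ω'`, integrals over `Ω'` of functions vanishing off `Ω` are integrals over `Ω`. (7) integration by parts for `C¹` functions (`S_bridge` (3), or `S_smooth` (1)); continuous functions with compact support are in `L²`. (8) `IsTest`/`RTF`, `L2loc`: `MemLp` on `Ω` restricts to compact subsets;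
`WG` is the same identity with integrals over `ℂ` (the integrands vanish off `tsupport φ ⊆ Ω`). -/
def S_h1 : Prop :=
  (∀ (Ω : Set ℂ) (u : ℂ → ℝ), H1 Ω u → MemLp (wgrad Ω u) 2 (volume.restrict Ω) ∧ WeakGrad Ω u (wgrad Ω u)) ∧
  (∀ (Ω : Set ℂ) (u : ℂ → ℝ) (G : ℂ → ℂ), IsOpen Ω → MemLp u 2 (volume.restrict Ω) → MemLp G 2 (volume.restrict Ω) → WeakGrad Ω u G →
    H1 Ω u ∧ wgrad Ω u =ᵐ[volume.restrict Ω] G) ∧
  (∀ (Ω : Set ℂ) (u v : ℂ → ℝ) (s : ℝ), IsOpen Ω → H1 Ω u → H1 Ω v →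
    H1 Ω (fun z => u z + s * v z) ∧ wgrad Ω (fun z => u z + s * v z) =ᵐ[volume.restrict Ω] fun z => wgrad Ω u z + s * wgrad Ω v z) ∧
  (∀ (Ω : Set ℂ) (u v : ℂ → ℝ), IsOpen Ω → H1 Ω u → u =ᵐ[volume.restrict Ω] v → H1 Ω v ∧ wgrad Ω u =ᵐ[volume.restrict Ω] wgrad Ω v) ∧
  (∀ (Ω : Set ℂ) (u η : ℂ → ℝ), IsOpen Ω → H1 Ω u → IsTest univ η →
    H1 Ω (fun z => η z * u z) ∧ wgrad Ω (fun z => η z * u z) =ᵐ[volume.restrict Ω] fun z => (η z : ℂ) * wgrad Ω u z + (u z : ℂ) * grad η z) ∧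
  (∀ (Ω Ω' : Set ℂ) (u : ℂ → ℝ), IsOpen Ω → IsOpen Ω' → Ω ⊆ Ω' → H1 Ω' u → H1 Ω u ∧ wgrad Ω u =ᵐ[volume.restrict Ω] wgrad Ω' u) ∧
  (∀ (Ω : Set ℂ) (φ : ℂ → ℝ), IsOpen Ω → IsTest univ φ → H1 Ω φ ∧ wgrad Ω φ =ᵐ[volume.restrict Ω] grad φ) ∧
  (∀ (Ω : Set ℂ) (u : ℂ → ℝ) (G : ℂ → ℂ), IsOpen Ω → MemLp u 2 (volume.restrict Ω) → MemLp G 2 (volume.restrict Ω) → (WG Ω u G ↔ WeakGrad Ω u G)) ∧
  (∀ a b : ℂ, dot a b = ip a b)

/-- [K2] Poincare inequality for test functions in a disc. Proof: integration by parts with `x = Re z`: `∫ φ² = - ∫ x ∂_x (φ²) = - 2 ∫ x φ φ_x ≤ 2 R ‖φ‖₂ ‖φ_x‖₂` (`|x| ≤ R` on the support; `integral_mul_fderiv_eq_neg_fderiv_mul_of_integrable` or similar, everything is smooth with compact support), `‖φ_x‖₂ ≤ ‖grad φ‖₂`. Divide by `‖φ‖₂`. -/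
def S_poin : Prop := ∀ (R : ℝ) (φ : ℂ → ℝ), 0 < R → IsTest (ball 0 R) φ → eLpNorm φ 2 volume ≤ ENNReal.ofReal (2 * R) * eLpNorm (grad φ) 2 volume

/-- [K3] Facts on `H¹₀`. Let `Ω` be open. Proofs: (1), (2) triangle inequality with `S_h1`. (3) `η φ_n` are test functions, `η φ_n → η u` and `grad (η φ_n) = η grad φ_n + φ_n grad η → η ∇u + u grad η` in `L²(Ω)`. (4) by definition of `Z0` (`≤ ofReal (ε/2) < ofReal ε`).
(5) Let `Ω ⊆ ball 0 R`; `φ_n` test functions with `grad φ_n → G` in `L²(Ω)`. By `S_poin` `(φ_n)` is a Cauchy sequence in `L²(Ω)` (test functions vanish off `Ω`); let `w` be its limit (`Lp` is complete). Then `WeakGrad Ω w G` (pass to the limit), so `H1 Ω w`, `wgrad Ω w = G` a.e., and the `φ_n` show `H10 Ω w`.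
(6) `ζ` test function in `Ω`: the function `ζ u` extended by zero has weak gradient `ζ ∇u + u grad ζ` on `ℂ` and compact support in `Ω`; its mollifications (`S_bump`, `mol (ρ n)`) are test functions in `Ω` for large `n` and converge with gradients in `L²` (mollification commutes with the weak gradient: test function `ζ' = ρ_n (z - ·)`). (7) extension by zero:
`w' = w` on `Ω`, `0` off `Ω`, has the weak gradient `1_Ω ∇w` in `Ω'` (limit of the identities for `φ_n ∈ C_c^∞(Ω)`), and the same `φ_n` approximate. (8) a.e. equality: `S_h1` (4). -/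
def S_h10 : Prop := ∀ Ω : Set ℂ, IsOpen Ω →
  (H10 Ω (fun _ => 0)) ∧
  (∀ (u v : ℂ → ℝ) (s : ℝ), H10 Ω u → H10 Ω v → H10 Ω (fun z => u z + s * v z)) ∧
  (∀ u η : ℂ → ℝ, H10 Ω u → IsTest univ η → H10 Ω (fun z => η z * u z)) ∧
  (∀ u : ℂ → ℝ, H10 Ω u → Z0 Ω (wgrad Ω u)) ∧
  (∀ G : ℂ → ℂ, Bornology.IsBounded Ω → Z0 Ω G → ∃ w : ℂ → ℝ, H10 Ω w ∧ wgrad Ω w =ᵐ[volume.restrict Ω] G) ∧
  (∀ u ζ : ℂ → ℝ, H1 Ω u → IsTest Ω ζ → H10 Ω (fun z => ζ z * u z)) ∧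
  (∀ (Ω' : Set ℂ) (w w' : ℂ → ℝ), IsOpen Ω' → Ω ⊆ Ω' → H10 Ω w → (∀ z ∈ Ω, w' z = w z) → (∀ z, z ∉ Ω → w' z = 0) →
    H10 Ω' w' ∧ wgrad Ω' w' =ᵐ[volume.restrict Ω] wgrad Ω w ∧ wgrad Ω' w' =ᵐ[volume.restrict (Ω' \ Ω)] fun _ => 0) ∧
  (∀ u v : ℂ → ℝ, H10 Ω u → u =ᵐ[volume.restrict Ω] v → H10 Ω v)

/-- [K4] Continuous functions with zero boundary values. Proof: `S_zb` gives test functions with `‖u - φ‖₂ < ε`, `‖G - gr φ‖₂ < ε`; `u` is bounded on the compact set `closure Ω`, so in `L²(Ω)`; `S_h1` (2), (8). -/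
def S_h10c : Prop := ∀ (Ω : Set ℂ) (u : ℂ → ℝ) (G : ℂ → ℂ), IsOpen Ω → Bornology.IsBounded Ω → ContinuousOn u (closure Ω) → (∀ z ∈ frontier Ω, u z = 0) →
  WG Ω u G → MemLp G 2 (volume.restrict Ω) → H10 Ω u

/-- [K5] Trace facts. Let `Ω` be bounded and open. Proofs. (1) Let `K` be the compact set for `w` (`K ⊆ Γ = O ∩ frontier Ω`). Choose a test function `η` of the plane, `η = 1` near `K`, `tsupport η ⊆ O` (`exists_contDiff_tsupport_subset` / smooth Urysohn), and a test function `χ`, `χ = 1` on a neighbourhood of the compact `closure Ω`. `H10 Ω (η w)` by `SameTrace` (with `v = 0`),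
`χ (1 - η)` is a test function whose support does not meet `K`, so `H10 Ω (χ (1-η) w)`. The sum is `w` on `Ω` (`S_h10` (2), (8)). (2) `η (u + w) = η u + η w` (`S_h10` (2), (3)). (3) the union of the two compact sets. (4) `η (u₁ - v) = η (u₂ - v) + η (u₁ - u₂)`. (5) `v = u` itself: `η * 0 = 0`. -/
def S_trc : Prop := ∀ Ω Γ : Set ℂ, IsOpen Ω → Bornology.IsBounded Ω → OpenInBdry Ω Γ →
  (∀ u v : ℂ → ℝ, H1 Ω u → H1 Ω v → TraceIn Ω Γ (fun z => u z - v z) → SameTrace Ω Γ u v → H10 Ω (fun z => u z - v z)) ∧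
  (∀ u w : ℂ → ℝ, TraceIn Ω Γ u → H10 Ω w → TraceIn Ω Γ (fun z => u z + w z)) ∧
  (∀ (u v : ℂ → ℝ) (s : ℝ), TraceIn Ω Γ u → TraceIn Ω Γ v → TraceIn Ω Γ (fun z => u z + s * v z)) ∧
  (∀ u₁ u₂ v : ℂ → ℝ, H10 Ω (fun z => u₁ z - u₂ z) → (SameTrace Ω Γ u₁ v ↔ SameTrace Ω Γ u₂ v)) ∧
  (∀ u : ℂ → ℝ, SameTrace Ω Γ u u)

/-- [K6] Solution with given boundary values. Proof: `S_dnex` with `G = wgrad Ω u`: `G'` with `DN Ω γ G G'`; `Z0 Ω (G' - G)`, so `S_h10` (5) gives `w ∈ H¹₀(Ω)` with `∇w = G' - G` a.e.; `u' = u + w`: `∇u' = G'` a.e. (`S_h1` (3)); `Sol` gives the equation (`dot = ip`). The second part: `DN` holds for `wgrad Ω u'` when `u'` is a solution with `u' - u ∈ H¹₀(Ω)`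
(`S_h10` (4), `S_h1` (3)). -/
def S_lift : Prop := ∀ (c C : ℝ), 0 < c → ∀ γ : ℂ → ℝ, Cond c C γ → ∀ Ω : Set ℂ, IsOpen Ω → Bornology.IsBounded Ω → ∀ u : ℂ → ℝ, H1 Ω u →
  (∃ u' : ℂ → ℝ, H1 Ω u' ∧ H10 Ω (fun z => u' z - u z) ∧ IsSol Ω γ u') ∧
  (∀ u' : ℂ → ℝ, H10 Ω (fun z => u' z - u z) → IsSol Ω γ u' → DN Ω γ (wgrad Ω u) (wgrad Ω u'))

/-- [K7] From the local Cauchy data to the forms. Proof: let `u'` be the `γ₁`-solution with `u' - u ∈ H¹₀(Ω)` (`S_lift`), `TraceIn Ω Γ u'` (`S_trc` (2)). The pair `(T, L)` of `u'` is in `cauchyData Ω Γ γ₁ = cauchyData Ω Γ γ₂`, so there is a `γ₂`-solution `u''` with `TraceIn Ω Γ u''`, the same `T` and `L`. `u' ∈ T` (`S_trc` (5)), so `SameTrace Ω Γ u'' u'`, hence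
`u'' - u' ∈ H¹₀(Ω)` (`S_trc` (1), (3)) and `u'' - u ∈ H¹₀(Ω)`. So `DN Ω γ₁ (wgrad u) (wgrad u')`, `DN Ω γ₂ (wgrad u) (wgrad u'')`; by uniqueness (`S_dnex`) these are the fields in `Beq`, and the two integrals are the values of the functionals `L` at `ψ` (`congrFun` at the subtype element `⟨ψ, _⟩`; `dot = ip`). -/
def S_form : Prop := ∀ (c C : ℝ) (γ₁ γ₂ : ℂ → ℝ) (Ω Γ : Set ℂ), 0 < c → Cond c C γ₁ → Cond c C γ₂ → IsOpen Ω → Bornology.IsBounded Ω → OpenInBdry Ω Γ →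
  cauchyData Ω Γ γ₁ = cauchyData Ω Γ γ₂ →
  ∀ u ψ : ℂ → ℝ, H1 Ω u → TraceIn Ω Γ u → H1 Ω ψ → TraceIn Ω Γ ψ → Beq Ω γ₁ γ₂ (wgrad Ω u) (wgrad Ω ψ)

/-- [K8] From the forms back to the Cauchy data (any part `Γ'` of the boundary). Proof: by symmetry it is enough to prove `⊆`. Let `u` be a `γ₁`-solution with `TraceIn Ω Γ' u`, `u''` the `γ₂`-solution with `u'' - u ∈ H¹₀(Ω)` (`S_lift`). `TraceIn Ω Γ' u''` and `{v | H1 ∧ SameTrace Ω Γ' u v} = {v | H1 ∧ SameTrace Ω Γ' u'' v}` (`S_trc` (2), (4)). `DN Ω γ₁ (wgrad u) (wgrad u)`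
(the difference is `0`) and `DN Ω γ₂ (wgrad u) (wgrad u'')` (`S_lift`), so `Beq` says that the two functionals agree. -/
def S_back : Prop := ∀ (c C : ℝ) (γ₁ γ₂ : ℂ → ℝ) (Ω Γ' : Set ℂ), 0 < c → Cond c C γ₁ → Cond c C γ₂ → IsOpen Ω → Bornology.IsBounded Ω → OpenInBdry Ω Γ' →
  (∀ u ψ : ℂ → ℝ, H1 Ω u → H1 Ω ψ → Beq Ω γ₁ γ₂ (wgrad Ω u) (wgrad Ω ψ)) → cauchyData Ω Γ' γ₁ = cauchyData Ω Γ' γ₂

/-- [K9] Normalisation of conductivities. Proof: (1) take a Borel representative `γ'` of `γ` on `Ω` (`AEStronglyMeasurable.mk`, measurable) and clip: `max c (min C (γ' z))`. (2) all integrals over `Ω` agree (`integral_congr_ae`), so the sets are equal. -/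
def S_norm : Prop :=
  (∀ (Ω : Set ℂ) (γ : ℂ → ℝ), IsConductivity Ω γ → ∃ (c C : ℝ) (γ' : ℂ → ℝ), 0 < c ∧ c ≤ C ∧ (∀ c' C' : ℝ, 0 < c' → c' ≤ c → C ≤ C' → Cond c' C' γ') ∧ γ =ᵐ[volume.restrict Ω] γ') ∧
  (∀ (Ω Γ : Set ℂ) (γ γ' : ℂ → ℝ), γ =ᵐ[volume.restrict Ω] γ' → cauchyData Ω Γ γ = cauchyData Ω Γ γ')

/-- [K10] Accessible holes, I: restriction. `Ω = Ω' \ L` with `L ⊆ Ω'` compact. Proof: `K' ⊆ Γ ∩ frontier Ω'` the compact set for `u` on `Ω'`; `K = K' ∪ (frontier Ω ∩ L)` is compact and `⊆ Γ` (`frontier Ω ∩ Ω' ⊆ L` because points of `Ω' \ L` are interior points of `Ω`). Let `η` be a test function whose support does not meet `K`, `χ` a test function in `Ω'` with `χ = 1` near `L`.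
(a) `S = tsupport (η χ) ∩ closure Ω` is compact and contained in `Ω`: a point of it is in `Ω'`, in `closure Ω`, not in `frontier Ω ∩ L`; so it is in `Ω`. With a test function `ζ` in `Ω`, `ζ = 1` on `S`: `η χ u = ζ (η χ u)` on `Ω`, so `H10 Ω` (`S_h10` (6), `S_h1` (5), (6)). (b) `η' = η (1 - χ)` is a test function, its support does not meet `K'`, so `w = η' u ∈ H¹₀(Ω')`; its support does not meet `L`.
Let `θ` be a test function with `θ = 1` on `tsupport η' ∩ closure Ω'` and `tsupport θ ∩ L = ∅`; for test functions `φ_n` in `Ω'` approximating `w`, `θ φ_n` are test functions in `Ω` approximating `θ w = w` (on `Ω'`), so `H10 Ω w`. Sum: `η u = η χ u + η' u`. (2) the support of `φ` is a compact subset of `Ω'`; `K = frontier Ω ∩ L`; for `η` with support off `K`,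
`tsupport (η φ) ∩ closure Ω` is a compact subset of `Ω`, as in (a). -/
def S_hole1 : Prop := ∀ Ω' L Γ : Set ℂ, IsOpen Ω' → Bornology.IsBounded Ω' → IsCompact L → L ⊆ Ω' → OpenInBdry (Ω' \ L) Γ → frontier (Ω' \ L) ∩ Ω' ⊆ Γ →
  OpenInBdry Ω' (Γ ∩ frontier Ω') ∧
  (∀ u : ℂ → ℝ, H1 Ω' u → TraceIn Ω' (Γ ∩ frontier Ω') u → TraceIn (Ω' \ L) Γ u) ∧
  (∀ φ : ℂ → ℝ, IsTest Ω' φ → TraceIn (Ω' \ L) Γ φ)

/-- [K11] Accessible holes, II: the data of the filled domain. `Ω = Ω' \ L`, `γ₁ = γ₂` a.e. on `L`. Proof: by symmetry it is enough to show `⊆`. Let `u₁` be a `γ₁`-solution on `Ω'` with `TraceIn Ω' (Γ ∩ frontier Ω') u₁`. On `Ω` it is a `γ₁`-solution (test functions in `Ω` are test functions in `Ω'`; `S_h1` (6)) with `TraceIn Ω Γ u₁` (`S_hole1`). As in `S_form` there is a `γ₂`-solution `w` on `Ω` with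
`TraceIn Ω Γ w`, `w - u₁ ∈ H¹₀(Ω)` and the same flux functional. Put `u₂ = w` on `Ω`, `u₂ = u₁` elsewhere: `u₂ - u₁` is the extension by zero of `w - u₁`, so it is in `H¹₀(Ω')` (`S_h10` (7)), `∇u₂ = ∇w` a.e. on `Ω` and `∇u₂ = ∇u₁` a.e. on `Ω' \ Ω = L`. For `ψ = φ` a test function in `Ω'` (`S_hole1` (3)) or `ψ ∈ H¹(Ω')` with `TraceIn Ω' (Γ ∩ frontier Ω') ψ` (`S_hole1` (2)):
`∫_{Ω'} γ₂ ∇u₂·∇ψ = ∫_Ω γ₂ ∇w·∇ψ + ∫_L γ₂ ∇u₁·∇ψ = ∫_Ω γ₁ ∇u₁·∇ψ + ∫_L γ₁ ∇u₁·∇ψ = ∫_{Ω'} γ₁ ∇u₁·∇ψ`. So `u₂` is a `γ₂`-solution on `Ω'` with the same flux functional, and the same trace set (`S_trc` (2), (4)). -/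
def S_hole2 : Prop := ∀ (c C : ℝ) (γ₁ γ₂ : ℂ → ℝ) (Ω' L Γ : Set ℂ), 0 < c → Cond c C γ₁ → Cond c C γ₂ → IsOpen Ω' → Bornology.IsBounded Ω' → IsCompact L → L ⊆ Ω' →
  OpenInBdry (Ω' \ L) Γ → frontier (Ω' \ L) ∩ Ω' ⊆ Γ → (∀ᵐ z ∂(volume.restrict L), γ₁ z = γ₂ z) →
  cauchyData (Ω' \ L) Γ γ₁ = cauchyData (Ω' \ L) Γ γ₂ → cauchyData Ω' (Γ ∩ frontier Ω') γ₁ = cauchyData Ω' (Γ ∩ frontier Ω') γ₂

/-! ## L. Conformal transport -/

/-- conformal bijection of `U` onto `V` -/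
structure CB (U V : Set ℂ) (Ψ : ℂ → ℂ) : Prop where
  ou : IsOpen U
  hol : DifferentiableOn ℂ Ψ U
  inj : InjOn Ψ U
  img : Ψ '' U = V

/-- pull back of gradient fields: `∇(u ∘ Ψ) = conj Ψ' * (∇u) ∘ Ψ` -/
def pull (Ψ : ℂ → ℂ) (G : ℂ → ℂ) (z : ℂ) : ℂ := conj (deriv Ψ z) * G (Ψ z)

/-- [L1] The inverse map. Proof: an injective holomorphic function on an open set is open, its derivative has no zeros (Mathlib: search `InjOn`, `deriv_ne_zero`; if missing: at a zero of the derivative of order `k-1 ≥ 1` the map is `k`-to-one near the point, e.g. by `AnalyticAt` local normal form / Rouche-free argument: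
`Ψ z - Ψ z0 = (z - z0)^k g z = (ω z)^k` with a local coordinate `ω`, inverse function theorem), so the inverse is holomorphic (inverse function theorem, `HasStrictDerivAt.to_localInverse`) and `V` is open. -/
def S_cinv : Prop := ∀ (U V : Set ℂ) (Ψ : ℂ → ℂ), CB U V Ψ → IsOpen V ∧ (∀ z ∈ U, deriv Ψ z ≠ 0) ∧
  ∃ Θ : ℂ → ℂ, CB V U Θ ∧ (∀ z ∈ U, Θ (Ψ z) = z) ∧ (∀ w ∈ V, Ψ (Θ w) = w) ∧ (∀ z ∈ U, deriv Θ (Ψ z) * deriv Ψ z = 1)

/-- [L2] Change of variables. Proof: `integral_image_eq_integral_abs_det_fderiv_smul`, `lintegral_image_eq_lintegral_abs_det_fderiv_mul`; the real Jacobian determinant of a holomorphic map is `‖Ψ'‖²` (`Complex.det_...`: the linear map `w ↦ a w` has determinant `‖a‖²`). `|pull G|² = ‖Ψ'‖² |G∘Ψ|²`, `ip (conj a * p) (conj a * q) = ‖a‖² ip p q`.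
Measurability: `Ψ` restricted to `U` and its inverse are continuous (or: `MeasurableEmbedding`), a.e. equal functions are pulled back to a.e. equal functions (null sets are preserved both ways: `S_cinv` and `MeasureTheory.addHaar_image_eq_zero_of_differentiableOn_of_addHaar_eq_zero`). (4) `push G w = G (Θ w) / conj (Ψ' (Θ w))`. -/
def S_cv : Prop := ∀ (U V : Set ℂ) (Ψ : ℂ → ℂ), CB U V Ψ →
  (∀ G : ℂ → ℂ, MemLp G 2 (volume.restrict V) ↔ MemLp (pull Ψ G) 2 (volume.restrict U)) ∧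
  (∀ G : ℂ → ℂ, eLpNorm (pull Ψ G) 2 (volume.restrict U) = eLpNorm G 2 (volume.restrict V)) ∧
  (∀ (γ : ℂ → ℝ) (G H : ℂ → ℂ), ∫ z in V, γ z * ip (G z) (H z) = ∫ z in U, γ (Ψ z) * ip (pull Ψ G z) (pull Ψ H z)) ∧
  (∀ H : ℂ → ℂ, ∃ G : ℂ → ℂ, ∀ z ∈ U, pull Ψ G z = H z) ∧
  (∀ G G' : ℂ → ℂ, G =ᵐ[volume.restrict V] G' ↔ pull Ψ G =ᵐ[volume.restrict U] pull Ψ G')

/-- [L3] Test functions. Proof: `φ' z = φ (Ψ z)` on `U`, `0` off `U`; its support is the image of the compact `tsupport φ` under the inverse map (`S_cinv`), a compact subset of `U`; smooth because `Ψ` is analytic on `U`; gradient by the chain rule (`gr (φ ∘ Ψ) = conj Ψ' * (gr φ) ∘ Ψ`). Part (2): apply part (1) to the inverse map. -/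
def S_ctf : Prop := ∀ (U V : Set ℂ) (Ψ : ℂ → ℂ), CB U V Ψ →
  (∀ φ : ℂ → ℝ, RTF V φ → ∃ φ' : ℂ → ℝ, RTF U φ' ∧ (∀ z ∈ U, φ' z = φ (Ψ z)) ∧ ∀ z ∈ U, gr φ' z = pull Ψ (gr φ) z) ∧
  (∀ φ' : ℂ → ℝ, RTF U φ' → ∃ φ : ℂ → ℝ, RTF V φ ∧ (∀ z ∈ U, φ' z = φ (Ψ z)) ∧ ∀ z ∈ U, gr φ' z = pull Ψ (gr φ) z)

/-- [L4] Transport of the forms. Proof: `Z0 V G ↔ Z0 U (pull Ψ G)` by `S_ctf`, `S_cv`; `Sol V γ G ↔ Sol U (γ ∘ Ψ) (pull Ψ G)` by `S_ctf`, `S_cv` (3); so `DN V γ G G' ↔ DN U (γ ∘ Ψ) (pull Ψ G) (pull Ψ G')`. Every field on `U` is a pull back (`S_cv` (4)), so `Beq V ↔ Beq U`. (3) `Z0`, `Sol`, the integrals only depend on the classes a.e. on `U`. -/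
def S_cbeq : Prop := (∀ (U V : Set ℂ) (Ψ : ℂ → ℂ), CB U V Ψ → ∀ (γ₁ γ₂ : ℂ → ℝ) (G H : ℂ → ℂ),
    Beq V γ₁ γ₂ G H ↔ Beq U (fun z => γ₁ (Ψ z)) (fun z => γ₂ (Ψ z)) (pull Ψ G) (pull Ψ H)) ∧
  (∀ (U : Set ℂ) (γ₁ γ₂ γ₁' γ₂' : ℂ → ℝ) (G H G' H' : ℂ → ℂ), γ₁ =ᵐ[volume.restrict U] γ₁' → γ₂ =ᵐ[volume.restrict U] γ₂' → G =ᵐ[volume.restrict U] G' → H =ᵐ[volume.restrict U] H' →
    (Beq U γ₁ γ₂ G H ↔ Beq U γ₁' γ₂' G' H'))

/-- [L5] Weak gradients. Proof: by `S_bridge` it is the statement `WD V f A B → WD U (f ∘ Ψ) (A ∘ Ψ * Ψ') (B ∘ Ψ * conj Ψ')`. Direct proof for `∂/∂z̄`: for a test function `φ` of `U`, with the inverse map `Θ`, `∫_U f(Ψ z) db φ z dz = ∫_V f(w) (db φ)(Θ w) ‖Θ' w‖² dw` (`S_cv`-type change of variables) and `(db φ)(Θ w) ‖Θ' w‖² = db (φ ∘ Θ) w * Θ' w = db ((φ ∘ Θ) Θ') w`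
because `Θ'` is holomorphic; `(φ∘Θ) Θ'` is a test function of `V` (extended by zero). So it is `- ∫_V B(w) φ(Θ w) Θ'(w) dw = - ∫_U B(Ψ z) φ z conj (Ψ' z) dz`. The same for `∂/∂z` (conjugate), or work directly with real functions and `gr`. Local square integrability: `‖·‖` bounds for `Ψ'`, `1/Ψ'` on compact sets. The converse direction is the same statement for `Θ`. -/
def S_cwg : Prop := ∀ (U V : Set ℂ) (Ψ : ℂ → ℂ), CB U V Ψ → ∀ (u u' : ℂ → ℝ) (G : ℂ → ℂ), (∀ z ∈ U, u' z = u (Ψ z)) → (WG V u G ↔ WG U u' (pull Ψ G))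

/-! ## M. The maps -/

/-- the conformal map of the half disc onto the disc -/
def psi0 (z : ℂ) : ℂ := - I * (z ^ 2 + 2 * I * z + 1) / (z ^ 2 - 2 * I * z + 1)

/-- [M1] Properties of `psi0`. Proof: the zeros of the denominator are `i (1 ± √2)`, of imaginary part `> 1` or `< 0`, not in `closure HB = {‖z‖ ≤ 1, 0 ≤ Im z}`. `psi0 = C ∘ S ∘ M` where `M z = (1+z)/(1-z)`, `S ζ = ζ²`, `C ζ = (ζ - i)/(ζ + i)` (check: `((1+z)² - i(1-z)²)/((1+z)² + i (1-z)²) = -i (z²+2iz+1)/(z²-2iz+1)`), for `z ≠ 1`.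
`M` maps `closure HB \ {1}` bijectively onto the closed quadrant `{Re ≥ 0, Im ≥ 0}` (`Re M z = (1-‖z‖²)/‖1-z‖²`, `Im M z = 2 Im z/‖1-z‖²`; inverse `(ζ-1)/(ζ+1)`), the semicircle goes to `i [0,∞)`, `[-1,1)` to `[0,∞)`, `HB` to the open quadrant; `S` maps the closed quadrant bijectively onto the closed upper half plane, `C` maps the closed upper half plane bijectively onto the closed disc minus `{1}`;
`psi0 1 = 1`. For `‖z‖ = 1`, `S (M z) ≤ 0` is real, `C t` for real `t`: `‖C t‖ = 1`, `Im C t = -2t/(t²+1)`: `≥ 0` iff `t ≤ 0`. -/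
def S_psi0 : Prop := closure HB = {z | ‖z‖ ≤ 1 ∧ 0 ≤ z.im} ∧ IsOpen HB ∧ (∃ W : Set ℂ, IsOpen W ∧ closure HB ⊆ W ∧ DifferentiableOn ℂ psi0 W) ∧ InjOn psi0 (closure HB) ∧
  psi0 '' HB = ball 0 1 ∧ psi0 '' closure HB = closedBall 0 1 ∧ (∀ z ∈ closure HB, ‖psi0 z‖ = 1 → ‖z‖ = 1 ∨ z.im = 0) ∧ (∀ z ∈ closure HB, ‖z‖ = 1 → ‖psi0 z‖ = 1 ∧ 0 ≤ (psi0 z).im)

/-- `ψ` is a conformal parametrisation of `Ω` by the disc, homeomorphic up to the boundary. -/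
structure JP (Ω : Set ℂ) (ψ : ℂ → ℂ) : Prop where
  cont : ContinuousOn ψ (closedBall 0 1)
  inj : InjOn ψ (closedBall 0 1)
  hol : DifferentiableOn ℂ ψ (ball 0 1)
  img : ψ '' ball 0 1 = Ω

/-- [M2] Topology. Proof: `Ω` is open (`S_cinv`), bounded (contained in the compact `ψ '' closedBall 0 1`). `closure Ω = ψ '' closedBall 0 1`: `⊆` since the right side is compact, `⊇` by continuity (`closure (ball 0 1) = closedBall 0 1`). `frontier Ω = closure Ω \ Ω = ψ '' sphere 0 1` by injectivity. -/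
def S_jtop : Prop := ∀ (Ω : Set ℂ) (ψ : ℂ → ℂ), JP Ω ψ → IsOpen Ω ∧ Bornology.IsBounded Ω ∧ closure Ω = ψ '' closedBall 0 1 ∧ frontier Ω = ψ '' sphere 0 1

/-- [M3] Normalisation of the parametrisation. Proof: by `S_jtop` there is `e`, `‖e‖ = 1`, with `ψ e ∈ O`. For `0 ≤ t < 1` let `m_t w = (w + i t)/(1 - i t w)`: a Moebius automorphism of the disc (bijection of the closed disc and of the open disc: `‖w + i t‖² ≤ ‖1 - i t w‖²` iff `(1-t²)(1-‖w‖²) ≥ 0`; inverse `(w - it)/(1 + itw)`), holomorphic near the closed disc. `m_t w - i = (1-t)(w - i)/(1 - i t w)`, and for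
`Im w ≥ 0`: `‖1 - i t w‖ ≥ Re (1 - i t w) = 1 + t Im w ≥ 1`. So `‖m_t w - i‖ ≤ 2 (1-t)` on the closed upper half circle. `ψ' = ψ ∘ (c ·) ∘ m_t`, `c = e/i = - i e`: for `t` close to `1` `ψ'` maps the closed upper half circle into `O` (continuity of `ψ` at `e` within the closed disc). -/
def S_jnorm : Prop := ∀ (Ω : Set ℂ) (ψ : ℂ → ℂ), JP Ω ψ → ∀ O : Set ℂ, IsOpen O → (O ∩ frontier Ω).Nonempty →
  ∃ ψ' : ℂ → ℂ, JP Ω ψ' ∧ ∀ w : ℂ, ‖w‖ = 1 → 0 ≤ w.im → ψ' w ∈ O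

/-- [M4] The composed map. Proof: composition of bijections and holomorphic maps (`S_psi0`, `S_jtop`). -/
def S_jcb : Prop := ∀ (Ω : Set ℂ) (ψ : ℂ → ℂ), JP Ω ψ → CB HB Ω (fun z => ψ (psi0 z)) ∧ CB (ball 0 1) Ω ψ ∧ CB HB (ball 0 1) psi0 ∧
  ContinuousOn (fun z => ψ (psi0 z)) (closure HB) ∧ InjOn (fun z => ψ (psi0 z)) (closure HB) ∧ (fun z => ψ (psi0 z)) '' closure HB = closure Ω

/-- [M5] Density in the disc. Proof: let `v_r z = v (r z)`, `0 < r < 1`, `G_r z = r G (r z)`: `WG (ball 0 (1/r)) v_r G_r`. `G_r → G` in `L²(ball 0 1)` as `r → 1` (true for continuous compactly supported `G'` approximating `1_{ball} G` in `L²(ℂ)`; the maps `G ↦ G_r` are bounded: `‖G_r‖_{L²(ball 0 1)} ≤ ‖G‖_{L²(ball 0 1)}`). Fix `r`; `S_moll` (through `S_bridge`) on `U = ball 0 (1/r)` and `K = closedBall 0 1`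
gives smooth compactly supported `F n` (complex valued; take real parts: `Φ = Re F n`, or use that the function is real) with gradients converging to `G_r` in `L²(K)`. -/
def S_dens1 : Prop := ∀ (v : ℂ → ℝ) (G : ℂ → ℂ), WG (ball 0 1) v G → MemLp G 2 (volume.restrict (ball 0 1)) → ∀ ε : ℝ, 0 < ε →
  ∃ Φ : ℂ → ℝ, RTF univ Φ ∧ eLpNorm (fun z => G z - gr Φ z) 2 (volume.restrict (ball 0 1)) < ENNReal.ofReal ε

/-- [M6] Density in the half disc. Proof: `v = u ∘ ψ` on the disc has weak gradient `pull ψ (wgrad Ω u)` (`S_cwg`, `S_h1` (8)) in `L²` (`S_cv`); `S_dens1` gives `Φ₁` with `‖pull ψ (wgrad Ω u) - gr Φ₁‖ < ε` in `L²(ball 0 1)`. `Φ = χ (Φ₁ ∘ psi0)` with a test function `χ`, `χ = 1` near `closure HB`, `tsupport χ ⊆ W` (`psi0` is holomorphic on `W`, `S_psi0`); on `HB` `gr Φ = pull psi0 (gr Φ₁)`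
(chain rule), and `pull (ψ ∘ psi0) G = pull psi0 (pull ψ G)` on `HB`; `S_cv` (2) for `psi0 : HB → ball 0 1`. -/
def S_dens2 : Prop := ∀ (Ω : Set ℂ) (ψ : ℂ → ℂ), JP Ω ψ → ∀ u : ℂ → ℝ, H1 Ω u → ∀ ε : ℝ, 0 < ε →
  ∃ Φ : ℂ → ℝ, RTF univ Φ ∧ eLpNorm (fun z => pull (fun z => ψ (psi0 z)) (wgrad Ω u) z - gr Φ z) 2 (volume.restrict HB) < ENNReal.ofReal ε

/-- [M7] Odd functions transported to `Ω`. Here `Ψ = ψ ∘ psi0`, and `ψ` maps the closed upper half circle into `O`. Proof: `Ψ` is a homeomorphism of the compact `closure HB` onto `closure Ω` (`S_jcb`, `S_jtop`); `u w = Φ (Ψ⁻¹ w)` on `closure Ω` (`Function.invFunOn`), `0` elsewhere: continuous on `closure Ω`, bounded, so in `L²(Ω)`. `WG HB Φ G` (restriction of `OC.wg`), `G = pull Ψ G'` on `HB` for some `G'` (`S_cv` (4)),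
so `WG Ω u G'` (`S_cwg`), `G' ∈ L²(Ω)` (`S_cv` (1)): `H1 Ω u`, `wgrad Ω u = G'` a.e. (`S_h1` (2), (8)), and `pull Ψ (wgrad Ω u) = G` a.e. on `HB` (`S_cv` (5)). `TraceIn`: `K = Ψ '' {z | ‖z‖ = 1, 0 ≤ Im z}`, compact, contained in `ψ '' {upper half circle} ⊆ O ∩ frontier Ω` (`S_psi0`, `S_jtop`). Let `η` be a test function with support off `K`; `η u` is continuous on `closure Ω` and zero on
`frontier Ω`: a point of the frontier is `Ψ ζ` with `ζ ∈ closure HB`, `‖psi0 ζ‖ = 1`, so (`S_psi0`) `‖ζ‖ = 1` (then `Ψ ζ ∈ K`, `η = 0`) or `Im ζ = 0` (then `Φ ζ = 0`, `Φ` odd). `S_h10c` with the weak gradient `η ∇u + u grad η` (`S_h1` (5), (8)). -/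
def S_oct : Prop := ∀ (Ω : Set ℂ) (ψ : ℂ → ℂ) (O : Set ℂ), JP Ω ψ → IsOpen O → (∀ w : ℂ, ‖w‖ = 1 → 0 ≤ w.im → ψ w ∈ O) → ∀ (Φ : ℂ → ℝ) (G : ℂ → ℂ), OC Φ G →
  ∃ u : ℂ → ℝ, H1 Ω u ∧ TraceIn Ω (O ∩ frontier Ω) u ∧ pull (fun z => ψ (psi0 z)) (wgrad Ω u) =ᵐ[volume.restrict HB] G

/-- the Beltrami coefficient on the plane of a conductivity on `Ω` -/
def muOf (Ψ : ℂ → ℂ) (γ : ℂ → ℝ) (z : ℂ) : ℝ :=
  if ‖z‖ < 1 ∧ 0 < z.im then (γ (Ψ z) - 1) / (γ (Ψ z) + 1)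
  else if ‖z‖ < 1 ∧ z.im < 0 then (γ (Ψ (conj z)) - 1) / (γ (Ψ (conj z)) + 1) else 0

/-- [N1] The coefficient. Proof: `κ = max (|c-1|/(c+1)) (|C-1|/(C+1)) < 1` (`t ↦ (t-1)/(t+1)` is increasing). Measurability: `Ψ` is continuous on the open set `HB`, so `z ↦ γ (Ψ z)` is measurable on `HB` (`ContinuousOn.measurable_piecewise`/`measurable_of_isOpen`...: replace `Ψ` by the function equal to `Ψ` on `HB` and `0` elsewhere), reflection is measurable. `gam (muOf Ψ γ) z = γ (Ψ z)` on `HB`: `(1 + (t-1)/(t+1))/(1 - (t-1)/(t+1)) = t`. -/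
def S_muof : Prop := ∀ (c C : ℝ), 0 < c → ∃ κ : ℝ, 0 ≤ κ ∧ κ < 1 ∧ ∀ γ : ℂ → ℝ, Cond c C γ → ∀ Ψ : ℂ → ℂ, ContinuousOn Ψ HB →
  Mu κ 1 (muOf Ψ γ) ∧ ∀ z ∈ HB, gam (muOf Ψ γ) z = γ (Ψ z)

/-- the core theorem in the half disc, in one statement (from `S_FEq`, `S_PairOut`, `S_left`, `S_core`) -/
def S_coreX : Prop := ∀ κ : ℝ, 0 ≤ κ → κ < 1 → ∀ μ₁ μ₂ : ℂ → ℝ, Mu κ 1 μ₁ → Mu κ 1 μ₂ → HYP μ₁ μ₂ → ∀ Φ Ψ : ℂ → ℝ, RTF univ Φ → RTF univ Ψ → bh μ₁ μ₂ (gr Φ) (gr Ψ) = 0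

theorem piece_coreX (h1 : S_FEq) (h2 : S_PairOut) (h3 : S_left) (h4 : S_core) : S_coreX := by
  intro κ h0 h1' μ₁ μ₂ hμ₁ hμ₂ hH
  have hF := h1 κ h0 h1' μ₁ μ₂ hμ₁ hμ₂ hH
  have hP := h2 κ h0 h1' μ₁ μ₂ hμ₁ hμ₂ hH
  exact h4 κ h0 h1' μ₁ μ₂ hμ₁ hμ₂ hH hP (h3 κ h0 h1' μ₁ μ₂ hμ₁ hμ₂ hF hP)

/-- [N2] Forms on a Jordan domain. Proof: `Ψ = ψ ∘ psi0`, `μ_j = muOf Ψ γ_j`, `κ` from `S_muof` (`Cond c C`). `HYP μ₁ μ₂`: for odd `(Φ, G)`, `(Φ', H)` take `u, v` from `S_oct`; `Beq Ω γ₁ γ₂ (wgrad u) (wgrad v)` by hypothesis (`Γ = O ∩ frontier Ω`), so (`S_cbeq`) `Beq HB (γ₁ ∘ Ψ) (γ₂ ∘ Ψ) (pull ..) (pull ..)`, and by `S_cbeq` (2) `Beq HB (gam μ₁) (gam μ₂) G H`. `S_coreX`: `bh (gr Φ)(gr Φ') = 0` for all test functions.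
For `u, v ∈ H¹(Ω)`: `P = pull Ψ (wgrad u)`, `Q = pull Ψ (wgrad v)` are in `L²(HB)`; by `S_dens2` choose `Φ_n, Φ'_n` with `gr Φ_n → P`, `gr Φ'_n → Q`; by `S_bb` (bilinearity and the bound) `bh P Q = lim bh (gr Φ_n) (gr Φ'_n) = 0`. (`gam μ_j` is `Cond ((1-κ)/(1+κ)) ((1+κ)/(1-κ))` on `ℂ`.) So `Beq HB (gam μ₁) (gam μ₂) P Q` (`S_bb` (6)), hence `Beq Ω γ₁ γ₂ (wgrad u)(wgrad v)` (`S_cbeq`). -/
def S_jform : Prop := ∀ (c C : ℝ) (γ₁ γ₂ : ℂ → ℝ) (Ω : Set ℂ) (ψ : ℂ → ℂ) (O : Set ℂ), 0 < c → Cond c C γ₁ → Cond c C γ₂ → JP Ω ψ → IsOpen O → (∀ w : ℂ, ‖w‖ = 1 → 0 ≤ w.im → ψ w ∈ O) →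
  (∀ u v : ℂ → ℝ, H1 Ω u → TraceIn Ω (O ∩ frontier Ω) u → H1 Ω v → TraceIn Ω (O ∩ frontier Ω) v → Beq Ω γ₁ γ₂ (wgrad Ω u) (wgrad Ω v)) →
  ∀ u v : ℂ → ℝ, H1 Ω u → H1 Ω v → Beq Ω γ₁ γ₂ (wgrad Ω u) (wgrad Ω v)

/-- The final statement. `Ω'` is a Jordan domain, `L` a compact subset (accessible holes; `L = ∅` allowed), `Ω = Ω' \ L`. -/
def S_final : Prop := ∀ (Ω' L Γ : Set ℂ) (γ₁ γ₂ : ℂ → ℝ), JordanDomain Ω' → IsCompact L → L ⊆ Ω' →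
  OpenInBdry (Ω' \ L) Γ → frontier (Ω' \ L) ∩ Ω' ⊆ Γ → (Γ ∩ frontier Ω').Nonempty →
  IsConductivity Ω' γ₁ → IsConductivity Ω' γ₂ → (∀ᵐ z ∂(volume.restrict L), γ₁ z = γ₂ z) →
  cauchyData (Ω' \ L) Γ γ₁ = cauchyData (Ω' \ L) Γ γ₂ →
  ∀ Γ' : Set ℂ, OpenInBdry Ω' Γ' → cauchyData Ω' Γ' γ₁ = cauchyData Ω' Γ' γ₂

/- [N3] `S_final`. Proof: normalise the conductivities by `S_norm` (common constants `c = min`, `C = max`; a.e. equality on `Ω'` implies a.e. equality on `Ω' \ L` and on `L`). `S_hole2` gives equality of the Cauchy data of `Ω'` on `Γ ∩ frontier Ω'`, which is `O ∩ frontier Ω'` for an open `O` (`S_hole1` (1)), nonempty. `S_jnorm`: a parametrisation `ψ` of `Ω'` mapping the closed upper half circle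
into `O`. `S_form` gives `Beq` for functions with traces in `O ∩ frontier Ω'`, `S_jform` for all functions, `S_back` the Cauchy data on any `Γ'`. -/

end

end Cal
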