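import Pool.Agent.Lib.MP_4ea4c7_an.StmH1b
import Pool.Agent.Lib.MP_4ea4c7_an.StmF

/-!
# MP_4ea4c7_an, stage 2: statements for sections 2, 3.2-3.4 and 7 (the weight `κ`, lower bound and uniqueness for finite energy solutions, the transfer lemma)

Paper: /team-store/MP_4ea4c7_stage2_paper.md. Every `S_k..` is one piece; the pieces it needs are hypotheses of the theorem to be proved (see the request).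
Complete informal proofs are in the docstrings. `ip a b = Re (a conj b)`, `cr a b = Im (conj a b)`; the gradient of a real function is the complex number `u_x + i u_y`.
-/

open MeasureTheory Complex Metric Set Filter Topology
open scoped ComplexConjugate ENNReal NNReal

namespace Cal

noncomputable section

/-! ## A. General facts -/

/-- [KA1] Calculus with weak gradients of real functions. Everything is a translation of stage 1 facts for `WD` by `S_bridge` (1), (2) (`WG V u U` iff `WD V (u : ℂ) (conj U / 2) (U / 2)`; real part of a product of real functions).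
(1) sums: `S_basic` (1), (2). (2) change on null sets: `S_basic` (4). (3) restriction: `S_basic` (5). (4) uniqueness: `S_wuniq`. (5) locality: `S_glue`. (6) smooth multiples: `S_smooth` (3). (7) `C¹` functions: `S_bridge` (3).
(8) product of continuous functions: `S_prod`. (9) chain rule: `S_chain` with `G ζ = T (ζ.re)` on `W = {ζ | ζ.re ∈ D}` (`dz G = db G = T'(ζ.re)/2`). -/
def S_kcalc : Prop := ∀ V : Set ℂ, IsOpen V →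
  (∀ (u v : ℂ → ℝ) (U W : ℂ → ℂ) (s : ℝ), WG V u U → WG V v W → WG V (fun z => u z + s * v z) (fun z => U z + (s : ℂ) * W z)) ∧
  (∀ (u v : ℂ → ℝ) (U W : ℂ → ℂ), WG V u U → u =ᵐ[volume.restrict V] v → U =ᵐ[volume.restrict V] W → WG V v W) ∧
  (∀ (V' : Set ℂ) (u : ℂ → ℝ) (U : ℂ → ℂ), V' ⊆ V → WG V u U → WG V' u U) ∧
  (∀ (u : ℂ → ℝ) (U W : ℂ → ℂ), WG V u U → WG V u W → U =ᵐ[volume.restrict V] W) ∧
  (∀ (u : ℂ → ℝ) (U : ℂ → ℂ), (∀ z ∈ V, ∃ V' : Set ℂ, IsOpen V' ∧ z ∈ V' ∧ V' ⊆ V ∧ WG V' u U) → WG V u U) ∧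
  (∀ (u η : ℂ → ℝ) (U : ℂ → ℂ), WG V u U → ContDiffOn ℝ (⊤ : ℕ∞) η V → WG V (fun z => η z * u z) (fun z => (η z : ℂ) * U z + (u z : ℂ) * gr η z)) ∧
  (∀ u : ℂ → ℝ, ContDiffOn ℝ 1 u V → WG V u (gr u)) ∧
  (∀ (u v : ℂ → ℝ) (U W : ℂ → ℂ), WG V u U → ContinuousOn u V → WG V v W → ContinuousOn v V →
    WG V (fun z => u z * v z) (fun z => (u z : ℂ) * W z + (v z : ℂ) * U z)) ∧
  (∀ (u : ℂ → ℝ) (U : ℂ → ℂ) (D : Set ℝ) (T : ℝ → ℝ), WG V u U → ContinuousOn u V → IsOpen D → (∀ z ∈ V, u z ∈ D) → ContDiffOn ℝ 1 T D →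
    WG V (fun z => T (u z)) (fun z => ((deriv T (u z) : ℝ) : ℂ) * U z))

/-- [KA2] Facts on `H0`. Let `Ω` be open. Proofs. (1) `L2loc` from `MemLp`; with test functions `φ_n → u`, `gr φ_n → U` in `L²`: `∫ u gr φ = lim ∫ φ_n gr φ = - lim ∫ gr φ_n φ = - ∫ U φ` (`S_bridge` (3) for `φ_n`). `φ_n` and `gr φ_n` vanish off `Ω` (`gr φ_n = 0` off `tsupport φ_n`), so
`‖1_{Ωᶜ} u‖₂ ≤ ‖u - φ_n‖₂ → 0`, the same for `U`. (2) triangle inequality (`ε' = ε / (2 (1 + |s|))`). (3) `η φ_n` is a test function of `Ω`, `gr (η φ_n) = η gr φ_n + φ_n gr η`. (4) the norms do not change. (5) closedness: `ε/2`. (6) `RTF Ω φ → RTF Ω' φ`. (7) continuous functions with compact support are in `L²`; `φ` approximates itself. -/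
def S_kH0 : Prop := ∀ Ω : Set ℂ, IsOpen Ω →
  (∀ (u : ℂ → ℝ) (U : ℂ → ℂ), H0 Ω u U → WG univ u U ∧ ∀ᵐ z, z ∉ Ω → u z = 0 ∧ U z = 0) ∧
  (∀ (u v : ℂ → ℝ) (U W : ℂ → ℂ) (s : ℝ), H0 Ω u U → H0 Ω v W → H0 Ω (fun z => u z + s * v z) (fun z => U z + (s : ℂ) * W z)) ∧
  (∀ (u η : ℂ → ℝ) (U : ℂ → ℂ) (M : ℝ), H0 Ω u U → ContDiff ℝ (⊤ : ℕ∞) η → (∀ z, |η z| ≤ M ∧ ‖gr η z‖ ≤ M) →
    H0 Ω (fun z => η z * u z) (fun z => (η z : ℂ) * U z + (u z : ℂ) * gr η z)) ∧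
  (∀ (u v : ℂ → ℝ) (U W : ℂ → ℂ), H0 Ω u U → u =ᵐ[volume] v → U =ᵐ[volume] W → H0 Ω v W) ∧
  (∀ (u : ℂ → ℝ) (U : ℂ → ℂ) (w : ℕ → ℂ → ℝ) (W : ℕ → ℂ → ℂ), MemLp u 2 volume → MemLp U 2 volume → (∀ n, H0 Ω (w n) (W n)) →
    Tendsto (fun n => eLpNorm (fun z => u z - w n z) 2 volume) atTop (𝓝 0) → Tendsto (fun n => eLpNorm (fun z => U z - W n z) 2 volume) atTop (𝓝 0) → H0 Ω u U) ∧
  (∀ (Ω' : Set ℂ) (u : ℂ → ℝ) (U : ℂ → ℂ), Ω ⊆ Ω' → H0 Ω u U → H0 Ω' u U) ∧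
  (∀ φ : ℂ → ℝ, RTF Ω φ → H0 Ω φ (gr φ))

/-- [KA3] Compactly supported functions. Proof: let `u' = V.indicator u`, `U' = V.indicator U`. `U = 0` a.e. on the open set `V \ K` (uniqueness, `S_kcalc` (4)), so `WG univ u' U'` (`S_kcalc` (5) on `univ`: on `V` it is `WG V u U`, on the open set `Kᶜ` both functions vanish a.e.) and `u', U' ∈ L²(ℂ)` (`L2loc` on `K`).
Let `φ_n = Re (mol (ρ n) u')` (`S_bump`): smooth, zero off the `1/(n+1)`-neighbourhood of `K`, which for large `n` is contained in a compact subset of `V` (`IsCompact.exists_cthickening_subset_open`), so `RTF V φ_n`; `φ_n → u'` in `L²`; `gr φ_n = mol (ρ n) U'` (weak gradient tested with `ζ ↦ ρ_n (z - ζ)`; differentiate the convolution) `→ U'` in `L²`. -/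
def S_kH0c : Prop := ∀ (V K : Set ℂ) (u : ℂ → ℝ) (U : ℂ → ℂ), IsOpen V → IsCompact K → K ⊆ V → WG V u U → (∀ z ∈ V, z ∉ K → u z = 0) →
  H0 V (V.indicator u) (V.indicator U)

/-- [KA4] Poincare inequality and functions with given gradient in `Z0`. Proof: (1) `S_poin` for the test functions `φ_n` and `n → ∞`. (2) let `φ_n` be test functions of `Ω` with `gr φ_n → G` in `L²(Ω)`; `gr φ_n` vanishes off `Ω`, so `gr φ_n → Ω.indicator G` in `L²(ℂ)`. By `S_poin` (for `φ_n - φ_m`) `(φ_n)` is a Cauchy sequence in `L²(ℂ)`;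
its limit `u` (`Lp` is complete) has the required property. -/
def S_kH0p : Prop := ∀ (Ω : Set ℂ) (R : ℝ), IsOpen Ω → 0 < R → Ω ⊆ ball 0 R →
  (∀ (u : ℂ → ℝ) (U : ℂ → ℂ), H0 Ω u U → eLpNorm u 2 volume ≤ ENNReal.ofReal (2 * R) * eLpNorm U 2 volume) ∧
  (∀ G : ℂ → ℂ, Z0 Ω G → ∃ u : ℂ → ℝ, H0 Ω u (Ω.indicator G))

/-- [KA5] Divergence free fields in `L²(V)` tested with `H0 V`. Proof: `φ_n` test functions with `gr φ_n → A` in `L²(ℂ)`; `∫_V ip X (gr φ_n) = ∫ ip X (gr φ_n) = 0` (`gr φ_n` vanishes off `V`), `|∫_V ip X (A - gr φ_n)| ≤ ‖X‖_{L²(V)} ‖A - gr φ_n‖₂` (`|ip a b| ≤ ‖a‖ ‖b‖`). Integrable: product of two `L²` functions. -/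
def S_ktst0 : Prop := ∀ (V : Set ℂ) (X : ℂ → ℂ) (a : ℂ → ℝ) (A : ℂ → ℂ), IsOpen V → MemLp X 2 (volume.restrict V) →
  (∀ φ : ℂ → ℝ, RTF V φ → ∫ z, ip (X z) (gr φ z) = 0) → H0 V a A →
  IntegrableOn (fun z => ip (X z) (A z)) V volume ∧ ∫ z in V, ip (X z) (A z) = 0

/-- [KA6] Divergence free fields in `L²_loc(V)` tested with functions of compact support in `V`. Proof: choose an open `V'` with `K ⊆ V'`, `closure V'` compact, `closure V' ⊆ V` (`exists_open_between_and_isCompact_closure`). `X ∈ L²(V')`, `RTF V' φ → RTF V φ`, `H0 V' (V'.indicator a) (V'.indicator A)` by `S_kH0c`; `S_ktst0` for `V'`.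
`A = 0` a.e. on the open set `V \ K` (`S_kcalc` (4), (3)), so the integrals over `V` and over `V'` agree. -/
def S_ktst : Prop := ∀ (V K : Set ℂ) (X : ℂ → ℂ) (a : ℂ → ℝ) (A : ℂ → ℂ), IsOpen V → L2loc V X →
  (∀ φ : ℂ → ℝ, RTF V φ → ∫ z, ip (X z) (gr φ z) = 0) → IsCompact K → K ⊆ V → WG V a A → (∀ z ∈ V, z ∉ K → a z = 0) →
  IntegrableOn (fun z => ip (X z) (A z)) V volume ∧ ∫ z in V, ip (X z) (A z) = 0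

/-- [KA7] Weak maximum principle. Proof: `T t = t * Real.smoothTransition t`: smooth, `T = 0` on `(-∞,0]`, `T > 0` and `T' > 0` on `(0,∞)` (`smoothTransition` is nondecreasing and positive there), `0 ≤ T' ≤ M'` (`T' = 1` for `t > 1`, `T' = 0` for `t < 0`, continuous). Take `ψ_n, Ψ_n, K_n` for `ε = 1/(n+1)`, and pass to a subsequence with `ψ_n → u` a.e. on `V`.
`T(ψ_n)` has the weak gradient `T'(ψ_n) Ψ_n` on `V` (`S_kcalc` (9)) and vanishes on `V \ K_n`; `S_ktst` with `X = γ U`: `∫_V γ T'(ψ_n) ip U Ψ_n = 0`. `T'(ψ_n) Ψ_n → T'(u) U` in `L²(V)` (`‖T'(ψ_n)(Ψ_n - U)‖ ≤ M' ‖Ψ_n - U‖`; `(T'(ψ_n) - T'(u)) U → 0` by dominated convergence), so `∫_V γ T'(u) ‖U‖² = 0`,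
`T'(u) U = 0` a.e. on `V` (`γ ≥ c > 0`), and so `T'(ψ_n) Ψ_n → 0` in `L²(V)`. `V ⊆ ball 0 R`: by `S_kH0c` and `S_kH0p` (1) `‖T(ψ_n)‖_{L²(V)} ≤ 2R ‖T'(ψ_n) Ψ_n‖_{L²(V)} → 0`. `T` is Lipschitz, so `T(ψ_n) → T(u)` in `L²(V)`: `T(u) = 0` a.e. on `V`, i.e. `u ≤ 0` a.e. on `V`. -/
def S_kwmp : Prop := ∀ (c C : ℝ) (γ : ℂ → ℝ) (V : Set ℂ) (u : ℂ → ℝ) (U : ℂ → ℂ), 0 < c → Cond c C γ → IsOpen V → Bornology.IsBounded V →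
  MemLp u 2 (volume.restrict V) → MemLp U 2 (volume.restrict V) → WSol V γ U →
  (∀ ε : ℝ, 0 < ε → ∃ (ψ : ℂ → ℝ) (Ψ : ℂ → ℂ) (K : Set ℂ), ContinuousOn ψ V ∧ WG V ψ Ψ ∧ MemLp ψ 2 (volume.restrict V) ∧ MemLp Ψ 2 (volume.restrict V) ∧
    IsCompact K ∧ K ⊆ V ∧ (∀ z ∈ V, z ∉ K → ψ z ≤ 0) ∧
    eLpNorm (fun z => u z - ψ z) 2 (volume.restrict V) < ENNReal.ofReal ε ∧ eLpNorm (fun z => U z - Ψ z) 2 (volume.restrict V) < ENNReal.ofReal ε) →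
  ∀ᵐ z ∂(volume.restrict V), u z ≤ 0

/-- [KA8] Maximum principle for continuous solutions on discs. Proof: let `m` be the maximum of `u` on the (compact, nonempty) sphere, attained at `z'`. Apply `S_kwmp` on `ball z0 r` to `u - m` (gradient `U`, in `L²` since `closedBall z0 r` is a compact subset of `V`): for `ε > 0` take `ψ = u - m - δ` with `δ > 0` so small that the constant `δ` has norm `< ε` in `L²(ball z0 r)`,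
`Ψ = U`, `K = {z ∈ closedBall z0 r | m + δ ≤ u z}` (compact, does not meet the sphere, so `K ⊆ ball z0 r`). So `u ≤ m` a.e. on the ball, hence everywhere on it by continuity. -/
def S_kmp : Prop := ∀ (c C : ℝ) (γ : ℂ → ℝ) (V : Set ℂ) (u : ℂ → ℝ) (U : ℂ → ℂ), 0 < c → Cond c C γ → IsOpen V → ContinuousOn u V → WG V u U → WSol V γ U →
  ∀ (z0 : ℂ) (r : ℝ), 0 < r → closedBall z0 r ⊆ V → ∀ z ∈ closedBall z0 r, ∃ z' ∈ sphere z0 r, u z ≤ u z'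

/-- [KA9] The conjugate function on a ball and the Beltrami form. Proof: `X = γ U ∈ L²_loc` (`γ` is bounded and measurable) is divergence free; `S_aconj`. `WD`: `S_bridge` (2) for `u` and `s`, `S_basic` (1), (2): the derivatives of `u + i s` are `conj U / 2 + I * conj (I γ U) / 2 = (1 + γ)/2 conj U` and
`U / 2 + I * (I γ U) / 2 = (1 - γ)/2 U`. -/
def S_kconj : Prop := ∀ (c C : ℝ) (γ : ℂ → ℝ) (z0 : ℂ) (ρ : ℝ) (u : ℂ → ℝ) (U : ℂ → ℂ), 0 < c → Cond c C γ → 0 < ρ → WG (ball z0 ρ) u U → WSol (ball z0 ρ) γ U →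
  ∃ s : ℂ → ℝ, Measurable s ∧ WG (ball z0 ρ) s (fun z => I * ((γ z : ℂ) * U z)) ∧
    WD (ball z0 ρ) (fun z => (u z : ℂ) + I * (s z : ℂ)) (fun z => (1 + (γ z : ℂ)) / 2 * conj (U z)) (fun z => (1 - (γ z : ℂ)) / 2 * U z)

/-- [KA10] Solutions of conductivity equations are continuous. Proof: on a ball with closure in `V`: `S_kconj` and `S_areg` with `μ = (1 - γ)/(1 + γ)` (`|μ| ≤ q < 1`, as `c ≤ γ ≤ C`; `μ = 0` for `‖z‖ > 3/4`): `u` is a.e. equal on the ball to a continuous function (real part). Patch: for `z ∈ V` let `g_z` be the continuous function on `ball z r_z ⊆ V` and `g z := g_z z`;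
for `z' ∈ ball z r_z` the functions `g_z`, `g_{z'}` are continuous and a.e. equal near `z'`, so `g = g_z` on `ball z r_z` (`MeasureTheory.Measure.eqOn_open_of_ae_eq`): `g` is continuous on `V` and `= u` a.e. on `V` (countably many balls cover `V`, Lindelof). -/
def S_kreg : Prop := ∀ (c C : ℝ) (γ : ℂ → ℝ) (V : Set ℂ) (u : ℂ → ℝ) (U : ℂ → ℂ), 0 < c → Cond c C γ → (∀ z : ℂ, 3 / 4 < ‖z‖ → γ z = 1) → IsOpen V → WG V u U → WSol V γ U →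
  ∃ g : ℂ → ℝ, ContinuousOn g V ∧ u =ᵐ[volume.restrict V] g

/-- radial cutoff functions: nondecreasing in `‖z‖`, `0` for `‖z‖ ≤ a`, `1` for `‖z‖ ≥ b` -/
structure RC (a b : ℝ) (χ : ℂ → ℝ) : Prop where
  smooth : ContDiff ℝ (⊤ : ℕ∞) χ
  bd : ∀ z, 0 ≤ χ z ∧ χ z ≤ 1
  zero : ∀ z : ℂ, ‖z‖ ≤ a → χ z = 0
  one : ∀ z : ℂ, b ≤ ‖z‖ → χ z = 1
  mono : ∀ z, 0 ≤ ip (gr χ z) z
  gz : ∀ z : ℂ, ‖z‖ ≤ a → gr χ z = 0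
  go : ∀ z : ℂ, b ≤ ‖z‖ → gr χ z = 0
  gb : ∃ M : ℝ, ∀ z, ‖gr χ z‖ ≤ M

/-- [KA11] Existence of radial cutoffs, and a connected set. Proof: (1) `χ z = Real.smoothTransition ((‖z‖² - a²)/(b² - a²))`, `gr χ z = smoothTransition'(..) * 2 z/(b² - a²)`, and the derivative of `smoothTransition` is nonnegative (it is nondecreasing) and vanishes off the open interval `(0,1)` (it is constant on each side; `C^1`).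
(2) `{z | a < ‖z‖}` is the image of the convex set `{(t,θ) | a < t}` under `t e^{iθ}` (for `a ≥ 0`). -/
def S_kgeo : Prop :=
  (∀ a b : ℝ, 0 < a → a < b → ∃ χ : ℂ → ℝ, RC a b χ) ∧ (∀ a : ℝ, 0 ≤ a → IsConnected {z : ℂ | a < ‖z‖})

/-! ## B. The weight [2] -/

/-- [2] `κ̂ = χ + v`: the `γ`-solution in `O = G ∩ ball 0 (7/8)` with `v ∈ H¹₀(O)` -/
structure KH (G : Set ℂ) (γ χ v : ℂ → ℝ) (V : ℂ → ℂ) : Prop where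
  h0 : H0 (G ∩ ball 0 (7 / 8)) v V
  sol : WSol (G ∩ ball 0 (7 / 8)) γ (fun z => gr χ z + V z)

/-- [2.1, 2.2] `k` is the continuous representative of `κ̂ = χ + v` on `O` -/
structure KC (G : Set ℂ) (γ χ v : ℂ → ℝ) (V : ℂ → ℂ) (k : ℂ → ℝ) : Prop where
  kh : KH G γ χ v V
  cont : ContinuousOn k (G ∩ ball 0 (7 / 8))
  ae : ∀ᵐ z ∂(volume.restrict (G ∩ ball 0 (7 / 8))), χ z + v z = k z
  pos : ∀ z ∈ G ∩ ball 0 (7 / 8), 0 < k z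
  le : ∀ z ∈ G ∩ ball 0 (7 / 8), k z ≤ 1

open Classical in
/-- `κ = (1 - χ₂) κ̂ + χ₂` on `G`, `0` off `G` [2.3] -/
def kap (G : Set ℂ) (χ₂ k : ℂ → ℝ) (z : ℂ) : ℝ := if z ∈ G then (1 - χ₂ z) * k z + χ₂ z else 0

/-- the gradient of `κ` -/
def kapG (χ χ₂ v : ℂ → ℝ) (V : ℂ → ℂ) (z : ℂ) : ℂ := ((1 - χ₂ z : ℝ) : ℂ) * (gr χ z + V z) + ((1 - (χ z + v z) : ℝ) : ℂ) * gr χ₂ z

/-- [KB1] Existence and uniqueness of `κ̂`. Proof: `O = G ∩ ball 0 (7/8)` is open. `gr χ` is bounded and continuous, so in `L²(O)`. `S_dnex`: `G'` with `DN O γ (gr χ) G'`; `Z0 O (G' - gr χ)`, so `S_kH0p` (2) gives `v` with `H0 O v V`, `V = O.indicator (G' - gr χ)`; on `O`, `gr χ + V = G'`, and `WSol` is `Sol`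
(`gr φ` vanishes off `O`). Uniqueness: `w = v - v'`, `W = V - V'`: `H0 O w W` and `∫ γ ip W (gr φ) = 0` for test functions of `O`; `S_ktst0` with `X = γ W`, `a = w`: `∫_O γ ‖W‖² = 0`, so `W = 0` a.e. on `O`, and a.e. on `ℂ` (`S_kH0` (1)); `w = 0` a.e. by `S_kH0p` (1). -/
def S_kex : Prop := ∀ (Ω G : Set ℂ) (c C : ℝ) (γ χ : ℂ → ℝ), Pos Ω G → 0 < c → Cond c C γ → RC (3 / 4) (13 / 16) χ →
  (∃ (v : ℂ → ℝ) (V : ℂ → ℂ), KH G γ χ v V) ∧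
  (∀ (v v' : ℂ → ℝ) (V V' : ℂ → ℂ), KH G γ χ v V → KH G γ χ v' V' → v =ᵐ[volume] v' ∧ V =ᵐ[volume] V')

/-- [KB2] Bounds [2.1]. Proof: `S_kwmp` on `O = G ∩ ball 0 (7/8)`, with `φ_n` test functions of `O`, `φ_n → v`, `gr φ_n → V` in `L²`. (a) `u = χ + v - 1`, `U = gr χ + V`, `ψ = χ + φ_n - 1`, `Ψ = gr χ + gr φ_n`, `K = tsupport φ_n`: off `K`, `ψ = χ - 1 ≤ 0`. (b) `u = - χ - v`, `ψ = - χ - φ_n`. A.e. off `O`, `v = 0` (`S_kH0` (1)). -/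
def S_kbd : Prop := ∀ (Ω G : Set ℂ) (c C : ℝ) (γ χ v : ℂ → ℝ) (V : ℂ → ℂ), Pos Ω G → 0 < c → Cond c C γ → RC (3 / 4) (13 / 16) χ → KH G γ χ v V →
  ∀ᵐ z, 0 ≤ χ z + v z ∧ χ z + v z ≤ 1

/-- [KB3] Energy of the logarithm [2.2]. Proof: `a = η² / (u + e)` on `V` (`S_kcalc` (8), (9) with `T t = 1/(t+e)` on `D = (-e, ∞)`), weak gradient `2 η gr η/(u+e) - η² U/(u+e)²`, `a = 0` off `tsupport η`; `S_ktst` with `X = γ U` (`L²_loc`): `E := ∫_V γ η² ‖U‖²/(u+e)² = ∫_V 2 γ η ip U (gr η)/(u+e) ≤ E/2 + 2 ∫ γ ‖gr η‖²`,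
so `E ≤ 4 C ∫ ‖gr η‖²`; `E ≥ c ∫ η² ‖U‖²/(u+e)²`. All integrals are finite: `u + e ≥ e`, `U ∈ L²(tsupport η)`. -/
def S_klog : Prop := ∀ (c C : ℝ) (γ : ℂ → ℝ) (V : Set ℂ) (u : ℂ → ℝ) (U : ℂ → ℂ) (η : ℂ → ℝ) (e : ℝ), 0 < c → Cond c C γ → IsOpen V → ContinuousOn u V →
  (∀ z ∈ V, 0 ≤ u z) → WG V u U → WSol V γ U → RTF V η → 0 < e →
  IntegrableOn (fun z => η z ^ 2 * ‖U z‖ ^ 2 / (u z + e) ^ 2) V volume ∧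
    c * ∫ z in V, η z ^ 2 * ‖U z‖ ^ 2 / (u z + e) ^ 2 ≤ 4 * C * ∫ z, ‖gr η z‖ ^ 2

/-- [KB4] Nonnegative solutions are positive or zero [2.2]. Proof: the set `Z = {z ∈ V | u z = 0}` is relatively closed; we show that it is open. Let `u z0 = 0`, `closedBall z0 (2 r) ⊆ V`, `r > 0`, `η` a test function supported in `ball z0 (2 r)` with `η = 1` on `ball z0 r` (`ContDiffBump`). For `0 < e` let `L = log (u + e)`, weak gradient `U/(u+e)` (`S_kcalc` (9)),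
`∫_{ball z0 r} ‖∇L‖² ≤ M := (4 C/c) ∫ ‖gr η‖²` (`S_klog`), independent of `e`. `S_acl` (Courant-Lebesgue for one real function, `ρ = r`, `δ = r/2`; the maximum and minimum principle for `L` follow from `S_kmp` for `u` and for `-u`, as `log (t + e)` is increasing): `|L z - L z0| ≤ C₁ := 8 √(M / log 2)` for `‖z - z0‖ ≤ r/2`,
so `u z + e ≤ exp C₁ * (u z0 + e) = exp C₁ * e`. Let `e → 0`: `u z = 0`. `V` is preconnected. -/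
def S_kharn : Prop := ∀ (c C : ℝ) (γ : ℂ → ℝ) (V : Set ℂ) (u : ℂ → ℝ) (U : ℂ → ℂ), 0 < c → Cond c C γ → IsOpen V → IsPreconnected V → ContinuousOn u V →
  (∀ z ∈ V, 0 ≤ u z) → WG V u U → WSol V γ U → (∃ z0 ∈ V, u z0 = 0) → ∀ z ∈ V, u z = 0

/-- [KB5] `κ̂` is not zero [2.2]. Proof: suppose `χ + v = 0` a.e. on `O`. Then `V = - gr χ` a.e. on `O` (`WG O v V` by `S_kH0` (1), `WG O χ (gr χ)`, uniqueness `S_kcalc` (4)), and `v = V = 0` a.e. off `O`. For test functions `φ` of the plane `∫ (2 φ + ip (gr φ) z) = 0` (it is the integral of the divergence of `φ z`: `∫ φ = - ∫ x φ_x = - ∫ y φ_y`, `S_smooth` (1) or `integral_mul_fderiv_eq_neg_fderiv_mul_of_integrable`).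
With `φ_n → v`, `gr φ_n → V` in `L²`, everything supported in the bounded set `O`: `∫ (2 v + ip V z) = 0`, i.e. `∫_O (2 χ + ip (gr χ) z) = 0`. But the integrand is `≥ 0` (`RC.mono`) and `= 2` on `{z | 13/16 < ‖z‖ < 7/8} ⊆ O` (at least `≥ 2`), a set of positive measure. Contradiction. -/
def S_knz : Prop := ∀ (Ω G : Set ℂ) (γ χ v : ℂ → ℝ) (V : ℂ → ℂ), Pos Ω G → RC (3 / 4) (13 / 16) χ → KH G γ χ v V →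
  ¬ ∀ᵐ z ∂(volume.restrict (G ∩ ball 0 (7 / 8))), χ z + v z = 0

/-- [KB6] The continuous representative. Proof: on `O` (open, connected: `S_bgr`) `u = χ + v` has weak gradient `gr χ + V` (`S_kH0` (1), `S_kcalc`); `S_kreg` gives a continuous `k`, `k = u` a.e. on `O`; `0 ≤ k ≤ 1` a.e. on `O` (`S_kbd`), hence everywhere on `O` (continuity, `O` open). `WG O k (gr χ + V)` (`S_kcalc` (2)).
`S_kharn`: if `k` had a zero in `O`, then `k = 0` on `O`, contradicting `S_knz`. -/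
def S_khat : Prop := ∀ (Ω G : Set ℂ) (c C : ℝ) (γ χ v : ℂ → ℝ) (V : ℂ → ℂ), Pos Ω G → 0 < c → Cond c C γ → (∀ z, z ∉ Ω → γ z = 1) → RC (3 / 4) (13 / 16) χ → KH G γ χ v V →
  ∃ k : ℂ → ℝ, KC G γ χ v V k

/-- [KB7] One cutoff function [2.4]. Proof: `O = G ∩ ball 0 (7/8)`, `φ_n` test functions of `O` with `φ_n → v`, `gr φ_n → V` in `L²`, `ψ_n = φ_n + χ`, `θ t = Real.smoothTransition (2 t - 1)` (`0` for `t ≤ 1/2`, `1` for `t ≥ 1`; `|θ'| ≤ M`). For `e > 0` put `τ_{n,e} = (1 - χ₂) θ(ψ_n/e) + χ₂`: smooth, values in `[0,1]`, `1` for `‖z‖ ≥ 3/4`;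
where `‖z‖ < 5/8` and `z ∉ tsupport φ_n` it is zero (`ψ_n = χ = 0` there), so `tsupport τ ⊆ tsupport φ_n ∪ {5/8 ≤ ‖z‖} ⊆ G`. `gr τ = (1 - χ₂) θ'(ψ_n/e) gr ψ_n / e + (1 - θ(ψ_n/e)) gr χ₂` vanishes for `‖z‖ > 3/4`, so `κ gr τ ∈ L²`. Write `κ̂ = χ + v`, `K̂ = gr χ + V` (`κ̂ = 0`, `K̂ = 0` a.e. off `G`). For fixed `e`, along a subsequence `ψ_n → κ̂` a.e.; then (`0 ≤ κ ≤ 1`)
`κ gr τ_{n,e} → κ Y_e` in `L²`, `Y_e = (1 - χ₂) θ'(κ̂/e) K̂/e + (1 - θ(κ̂/e)) gr χ₂`, and `τ_{n,e} → τ_e = (1 - χ₂) θ(κ̂/e) + χ₂` in `L²(ball 0 1)` (dominated convergence, `gr ψ_n → K̂` in `L²`; the functions `τ` are `1` for `‖z‖ ≥ 3/4`). On the compact annulus `{5/8 ≤ ‖z‖ ≤ 3/4} ⊆ O` `k ≥ c₀ > 0`; let `e < c₀`: there `θ'(κ̂/e) = 0` and `θ(κ̂/e) = 1` a.e., so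
`κ Y_e = κ̂ θ'(κ̂/e) K̂/e` for `‖z‖ < 5/8` (where `χ₂ = 0`, `κ = κ̂` a.e.) and `0` a.e. elsewhere; `‖κ Y_e‖ ≤ M ‖K̂‖` (`θ'(t) ≠ 0` only for `t ≤ 1`), `κ Y_e → 0` pointwise a.e. as `e → 0` (if `κ̂ z > 0` then `θ'(κ̂ z/e) = 0` for `e < κ̂ z`): `κ Y_e → 0` in `L²`. `1 - τ_e → 0` in `L²(G)`: it vanishes for `‖z‖ ≥ 3/4`, is bounded, and tends to `0` a.e. on `O` (`κ̂ = k > 0`).
Choose `e` small, then `n` large. -/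
def S_kcut1 : Prop := ∀ (Ω G : Set ℂ) (γ χ χ₂ v : ℂ → ℝ) (V : ℂ → ℂ) (k : ℂ → ℝ), Pos Ω G → RC (3 / 4) (13 / 16) χ → RC (5 / 8) (3 / 4) χ₂ → KC G γ χ v V k →
  ∀ ε : ℝ, 0 < ε → ∃ τ : ℂ → ℝ, ContDiff ℝ (⊤ : ℕ∞) τ ∧ (∀ z, 0 ≤ τ z ∧ τ z ≤ 1) ∧ Disjoint (tsupport τ) Gᶜ ∧ (∀ z : ℂ, 3 / 4 ≤ ‖z‖ → τ z = 1) ∧
    MemLp (fun z => (kap G χ₂ k z : ℂ) * gr τ z) 2 volume ∧ eLpNorm (fun z => (kap G χ₂ k z : ℂ) * gr τ z) 2 volume < ENNReal.ofReal ε ∧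
    eLpNorm (fun z => 1 - τ z) 2 (volume.restrict G) < ENNReal.ofReal ε

/-- [KB8] The sequence of cutoffs. Proof: take `ε = 1/(m+1)` in `S_kcut1`: `1 - τ_m → 0` in `L²(G)`, so a subsequence tends to `1` a.e. on `G` (`TendstoInMeasure.exists_seq_tendsto_ae`). -/
def S_kcut2 : Prop := ∀ (G : Set ℂ) (κ : ℂ → ℝ), MeasurableSet G →
  (∀ ε : ℝ, 0 < ε → ∃ τ : ℂ → ℝ, ContDiff ℝ (⊤ : ℕ∞) τ ∧ (∀ z, 0 ≤ τ z ∧ τ z ≤ 1) ∧ Disjoint (tsupport τ) Gᶜ ∧ (∀ z : ℂ, 3 / 4 ≤ ‖z‖ → τ z = 1) ∧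
    MemLp (fun z => (κ z : ℂ) * gr τ z) 2 volume ∧ eLpNorm (fun z => (κ z : ℂ) * gr τ z) 2 volume < ENNReal.ofReal ε ∧
    eLpNorm (fun z => 1 - τ z) 2 (volume.restrict G) < ENNReal.ofReal ε) → Cut G κ

/-- [KB9] The properties of `κ` [2.3]. Proof: `κ = kap G χ₂ k`, `Kg = kapG χ χ₂ v V`, `O = G ∩ ball 0 (7/8)`. `κ` is continuous on `G`: on `O` a continuous expression, and `= 1` for `‖z‖ ≥ 3/4` (`χ₂ = 1`); it is `0` off `G`: measurable. `0 < κ ≤ 1` on `G`. A.e. on `ℂ`: `κ = (1 - χ₂)(χ + v) + χ₂` (off `O`: if `‖z‖ ≥ 7/8` both sides are `1`; if `z ∉ G` then `‖z‖ < 1/2`,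
`χ = χ₂ = 0`, `v = 0` a.e.), so (`S_kcalc` (6), (7), (1), (2); `S_kH0` (1)) the weak gradient is `(1 - χ₂)(gr χ + V) - (χ + v) gr χ₂ + gr χ₂ = Kg`. `Kg ∈ L²`: `V ∈ L²`, `gr χ`, `gr χ₂` bounded and zero for `‖z‖ ≥ 7/8`, `0 ≤ χ + v ≤ 1` a.e. (`k` on `O`). `InH`: for a test function `η` of `ball 0 (5/8)`: `η κ = η v` and `η Kg + κ gr η = η V + v gr η` a.e. (for `‖z‖ < 5/8`: `χ = χ₂ = 0`, `gr χ = gr χ₂ = 0`,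
`κ = k = v` a.e. on `O`, `κ = 0 = v` a.e. off `G`), and `H0 O (η v) (η V + v gr η)` (`S_kH0` (3)), `H0 G` (`S_kH0` (6)), `S_kH0` (4). `sol`: test functions of `G ∩ ball 0 (5/8)` are test functions of `O`, and `Kg = gr χ + V` on their support. `cut`: `S_kcut1`, `S_kcut2`. -/
def S_kKP : Prop := ∀ (Ω G : Set ℂ) (γ χ χ₂ v : ℂ → ℝ) (V : ℂ → ℂ) (k : ℂ → ℝ), Pos Ω G → RC (3 / 4) (13 / 16) χ → RC (5 / 8) (3 / 4) χ₂ → KC G γ χ v V k →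
  Cut G (kap G χ₂ k) → KP G γ (kap G χ₂ k) (kapG χ χ₂ v V)

/-- [KB10] `κ̂₁ = κ̂₂` off `Ω` [2.5]. Proof: `O = G ∩ ball 0 (7/8)`, `u = χ + v₁`, `U = gr χ + V₁`. `InH G (5/8) u U`: for a test function `η` of `ball 0 (5/8)`, `η u = η v₁` and `η U + u gr η = η V₁ + v₁ gr η` everywhere (`χ = 0`, `gr χ = 0` for `‖z‖ < 5/8`), `S_kH0` (3), (6). `WSol (G ∩ ball 0 (5/8)) γ₁ U` by `KH.sol`. `TT` gives `u', U'`: `z = u' - u`, `Z = U' - U`, `H0 Ω z Z`, so `H0 O z Z` (`Ω ⊆ O`), and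
`u' = χ + (v₁ + z)`, `U' = gr χ + (V₁ + Z)`. Claim: `WSol O γ₂ U'`. Let `φ` be a test function of `O`, `ζ` a smooth function, `ζ = 1` for `‖z‖ ≤ 9/16`, `ζ = 0` for `‖z‖ ≥ 39/64` (`1 - RC`): `ζ φ` is a test function of `G ∩ ball 0 (5/8)`, so `∫ γ₂ ip U' (gr (ζ φ)) = 0` by `TT`. `(1 - ζ) φ` vanishes for `‖z‖ ≤ 9/16`, so its gradient vanishes on `Ω`; a.e. off `Ω`, `Z = 0` and `γ₁ = γ₂ = 1`:
`∫ γ₂ ip U' (gr ((1-ζ) φ)) = ∫ γ₁ ip U (gr ((1-ζ) φ)) = 0` by `KH.sol`. Sum (integrability: `γ` bounded, `U' ∈ L²_loc`, test functions). So `KH G γ₂ χ (v₁ + z) (V₁ + Z)`, and by uniqueness (`S_kex`) `v₂ = v₁ + z`, `V₂ = V₁ + Z` a.e.; `S_kH0` (4). -/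
def S_k25 : Prop := ∀ (Ω G : Set ℂ) (c C : ℝ) (γ₁ γ₂ χ v₁ v₂ : ℂ → ℝ) (V₁ V₂ : ℂ → ℂ), Pos Ω G → 0 < c → Cond c C γ₁ → Cond c C γ₂ →
  (∀ z, z ∉ Ω → γ₁ z = 1) → (∀ z, z ∉ Ω → γ₂ z = 1) → TT Ω G γ₁ γ₂ → RC (3 / 4) (13 / 16) χ → KH G γ₁ χ v₁ V₁ → KH G γ₂ χ v₂ V₂ →
  H0 Ω (fun z => v₂ z - v₁ z) (fun z => V₂ z - V₁ z)

/-- [KB11] INTERFACE (II): the weights of the two conductivities. Proof: `χ, χ₂` from `S_kgeo`; `v_j, V_j` from `S_kex`; `k_j` from `S_khat`; `κ_j = kap G χ₂ k_j`, `K_j = kapG χ χ₂ v_j V_j`: `KP` by `S_kKP`, `S_kcut1`, `S_kcut2`. `H0 Ω (v₂ - v₁) (V₂ - V₁)` by `S_k25`. A.e.: `κ₂ - κ₁ = v₂ - v₁` and `K₂ - K₁ = V₂ - V₁`: a.e. on `Ω` (`‖z‖ < 1/2`, `χ = χ₂ = 0`, gradients `0`) `κ_j = k_j = v_j`, `K_j = V_j`;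
a.e. off `Ω` `v₁ = v₂`, `V₁ = V₂` (`S_kH0` (1)), so on `O \ Ω` `κ₁ = κ₂`, `K₁ = K₂` a.e., for `z ∉ G` both are `0`, for `‖z‖ ≥ 7/8` both are `1` with equal gradients. `S_kH0` (4). -/
def S_kap : Prop := ∀ (Ω G : Set ℂ) (c C : ℝ) (γ₁ γ₂ : ℂ → ℝ), Pos Ω G → 0 < c → Cond c C γ₁ → Cond c C γ₂ → (∀ z, z ∉ Ω → γ₁ z = 1) → (∀ z, z ∉ Ω → γ₂ z = 1) →
  TT Ω G γ₁ γ₂ → ∃ (κ₁ κ₂ : ℂ → ℝ) (K₁ K₂ : ℂ → ℂ), KP G γ₁ κ₁ K₁ ∧ KP G γ₂ κ₂ K₂ ∧ H0 Ω (fun z => κ₂ z - κ₁ z) (fun z => K₂ z - K₁ z) ∧ ∀ᵐ z, z ∉ Ω → κ₁ z = κ₂ z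

/-- [KB12] The coefficient is admissible. Proof: `σ = γ κ²`, `0 ≤ σ ≤ C`, `C ≥ 1` (`γ 1 = 1`). `μ = (1-σ)/(1+σ)` is decreasing in `σ`: `-(C-1)/(C+1) ≤ μ ≤ 1`. On a compact `K ⊆ G`, `κ ≥ κ₀ > 0` (if `K` is nonempty), `σ ≥ s₀ = c κ₀² > 0`, `μ ≤ (1-s₀)/(1+s₀) < 1`; `q = max` of this and `(C-1)/(C+1)`. For `‖z‖ ≥ 3/4`: `κ = 1`, `γ = 1` (`z ∉ Ω ⊆ ball 0 (1/2)`), `μ = 0`.
`1 - μ = 2σ/(1+σ)`: `(2c/(1+C)) κ² ≤ 1 - μ ≤ 2 C κ²`. The remaining fields of `Wt` are fields of `KP`. -/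
def S_kwt : Prop := ∀ (Ω G : Set ℂ) (c C : ℝ) (γ κ : ℂ → ℝ) (Kg : ℂ → ℂ), Pos Ω G → 0 < c → Cond c C γ → (∀ z, z ∉ Ω → γ z = 1) → KP G γ κ Kg →
  Adm G ((C - 1) / (C + 1)) (muk γ κ) ∧ Wt G (muk γ κ) κ

/-! ## C. Finite energy solutions [3.2-3.4] -/

/-- a finite energy solution with its weak derivatives -/
structure ClD (G : Set ℂ) (μ : ℂ → ℝ) (F A B : ℂ → ℂ) : Prop where
  cont : ContinuousOn F G
  hol : DifferentiableOn ℂ F {z | 3 / 4 < ‖z‖}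
  wd : WD G F A B
  eq : ∀ᵐ z ∂(volume.restrict G), B z = (μ z : ℂ) * conj (A z)
  en : ∀ R : ℝ, IntegrableOn (fun z => ‖A z‖ ^ 2 - ‖B z‖ ^ 2) (G ∩ closedBall 0 R) volume

/-- [KC1] Energy facts, with `W = conj A + B` (gradient of `Re F`) and `S = I (conj A - B)` (gradient of `Im F`), `σ = (1-μ)/(1+μ)`. Proof: (0) `WG`: `S_bridge` (1). (1) `cr W S = Im ((A + conj B) I (conj A - B)) = ‖A‖² - ‖B‖² + Re (conj (A B) - A B)`. (2) with `B = μ conj A`: `W = (1+μ) conj A`, `S = I (1-μ) conj A`,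
`J := ‖A‖² - ‖B‖² = (1-μ²) ‖A‖² ≥ 0`. (3) `κ² ‖W‖² = κ² (1+μ)/(1-μ) J ≤ (2/c₁) J` with `c₁ κ² ≤ 1 - μ` (`1 - μ > 0`, since `κ > 0` on `G`). (4) `‖S‖² = (1-μ)/(1+μ) J ≤ C₁ κ² J/(1-k0)`. Measurability: `L2loc` on the (σ-compact) open set `G`; `κ` is measurable. Last part: `A, B` are unique a.e. on `G` (`S_wuniq`). -/
def S_kClE : Prop := ∀ (G : Set ℂ) (k0 : ℝ) (μ κ : ℂ → ℝ) (F A B : ℂ → ℂ), Adm G k0 μ → Wt G μ κ → ClD G μ F A B →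
  WG G (fun z => (F z).re) (fun z => conj (A z) + B z) ∧ WG G (fun z => (F z).im) (fun z => I * (conj (A z) - B z)) ∧
  (∀ z, cr (conj (A z) + B z) (I * (conj (A z) - B z)) = ‖A z‖ ^ 2 - ‖B z‖ ^ 2) ∧
  (∀ᵐ z ∂(volume.restrict G), I * (conj (A z) - B z) = I * ((((1 - μ z) / (1 + μ z) : ℝ) : ℂ) * (conj (A z) + B z)) ∧ ‖A z‖ ^ 2 - ‖B z‖ ^ 2 = (1 - μ z ^ 2) * ‖A z‖ ^ 2 ∧ 0 < 1 - μ z ^ 2) ∧
  (∃ M : ℝ, 0 ≤ M ∧ ∀ᵐ z ∂(volume.restrict G), κ z ^ 2 * ‖conj (A z) + B z‖ ^ 2 ≤ M * (‖A z‖ ^ 2 - ‖B z‖ ^ 2) ∧ ‖I * (conj (A z) - B z)‖ ^ 2 ≤ M * κ z ^ 2 * (‖A z‖ ^ 2 - ‖B z‖ ^ 2)) ∧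
  (∀ R : ℝ, IntegrableOn (fun z => κ z ^ 2 * ‖conj (A z) + B z‖ ^ 2) (G ∩ closedBall 0 R) volume ∧ IntegrableOn (fun z => ‖I * (conj (A z) - B z)‖ ^ 2) (G ∩ closedBall 0 R) volume) ∧
  (∀ A' B' : ℂ → ℂ, WD G F A' B' → ClD G μ F A' B')

/-- [KC2] `Cl` is a real vector space containing the constants. Proof: (1) `A + a A'`, `B + a B'` (`S_basic`), and `(1-μ²) ‖A + a A'‖² ≤ 2 (1-μ²) ‖A‖² + 2 a² (1-μ²) ‖A'‖²` (`S_kClE` (4)). (2) derivatives `0`, `0` (`S_smooth` (1)). -/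
def S_kCll : Prop := ∀ (G : Set ℂ) (k0 : ℝ) (μ κ : ℂ → ℝ), Adm G k0 μ → Wt G μ κ →
  (∀ (F F' : ℂ → ℂ) (a : ℝ), Cl G μ F → Cl G μ F' → Cl G μ (fun z => F z + (a : ℂ) * F' z)) ∧ (∀ c : ℂ, Cl G μ (fun _ => c)) ∧
  (∀ F : ℂ → ℂ, Cl G μ F ↔ ∃ A B : ℂ → ℂ, ClD G μ F A B)

/-- [KC3] NAT: natural boundary condition on the complement of `G` [3.1]. Proof: `S = I (conj A - B)`, `W = conj A + B`. `‖cr V S‖ ≤ ‖V‖ ‖S‖ ≤ (κ ‖V‖) (M' J)^{1/2}` with `‖S‖² ≤ M' κ² J` (`S_kClE`), integrable on `G ∩ closedBall 0 R`; `‖S‖ ∈ L²(G ∩ closedBall 0 R)`. `τ_m` the cutoffs of `Wt.cut`. `a = τ_m η v` is continuous on `G`, vanishes off the compact set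
`tsupport τ_m ∩ tsupport η ⊆ G`, weak gradient `τ_m η V + τ_m v gr η + η v gr τ_m` (`S_kcalc`). `cr a b = ip (I a) b = - cr b a`, so the field `I S` is divergence free on `G` (`∫ cr (gr φ) S = 0` by `S_wedge`, `S_bridge` (3)); `S_ktst` with `X = I S`: `∫_G cr (τ_m η V + τ_m v gr η + η v gr τ_m) S = 0`. As `m → ∞`:
`|∫_G η v cr (gr τ_m) S| ≤ M sup|η| ∫_{G ∩ tsupport η} ‖gr τ_m‖ κ (M' J)^{1/2} ≤ C ‖κ gr τ_m‖₂ → 0`, and the other two terms converge by dominated convergence (`τ_m → 1` a.e. on `G`). -/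
def S_kNAT : Prop := ∀ (G : Set ℂ) (k0 : ℝ) (μ κ : ℂ → ℝ) (F A B : ℂ → ℂ), Adm G k0 μ → Wt G μ κ → ClD G μ F A B →
  ∀ (v : ℂ → ℝ) (V : ℂ → ℂ) (M : ℝ), ContinuousOn v G → (∀ z ∈ G, |v z| ≤ M) → WG G v V → (∀ R : ℝ, IntegrableOn (fun z => κ z ^ 2 * ‖V z‖ ^ 2) (G ∩ closedBall 0 R) volume) →
  ∀ η : ℂ → ℝ, RTF univ η →
    IntegrableOn (fun z => η z * cr (V z) (I * (conj (A z) - B z))) G volume ∧ IntegrableOn (fun z => v z * cr (gr η z) (I * (conj (A z) - B z))) G volume ∧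
    ∫ z in G, η z * cr (V z) (I * (conj (A z) - B z)) = - ∫ z in G, v z * cr (gr η z) (I * (conj (A z) - B z))

/-- [KC4] 3.2. Proof: `S_kNAT` with `v = PP ψ ∘ F` on `G` (`S_bpp`): bounded, continuous, weak gradient `V = P_x(F) W + P_y(F) S` (`S_chain` and `S_bridge`: `W = conj A + B`, `S = I (conj A - B)` are the gradients of `Re F`, `Im F`; `P_x = Re (gr P) = ψ`, `P_y = Im (gr P)`, `P = PP ψ`), `κ² ‖V‖² ≤ 2 M² (κ² ‖W‖² + κ² ‖S‖²)` integrable on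
`G ∩ closedBall 0 R` (`S_kClE`, `κ ≤ 1`). `cr V S = ψ(F) cr W S + P_y(F) cr S S = ψ(F) J`. -/
def S_k32 : Prop := ∀ (G : Set ℂ) (k0 : ℝ) (μ κ : ℂ → ℝ) (F A B : ℂ → ℂ) (ψ η : ℂ → ℝ), Adm G k0 μ → Wt G μ κ → ClD G μ F A B → RTF univ ψ → RTF univ η →
  IntegrableOn (fun z => η z * ψ (F z) * (‖A z‖ ^ 2 - ‖B z‖ ^ 2)) G volume ∧ IntegrableOn (fun z => PP ψ (F z) * cr (gr η z) (I * (conj (A z) - B z))) G volume ∧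
  ∫ z in G, η z * ψ (F z) * (‖A z‖ ^ 2 - ‖B z‖ ^ 2) = - ∫ z in G, PP ψ (F z) * cr (gr η z) (I * (conj (A z) - B z))

/-- [KC5] Extension of `F` from a neighbourhood of infinity without small values. Proof: for `R < ‖z‖` let `h z = I k z + log c + log (1 + (e^{-ikz} F z - c)/c)` (principal logarithms; the last argument is in the closed disc of radius `1/2` around `1`, and `F` is holomorphic there), holomorphic for `R < ‖z‖`, `exp (h z) = F z`. `Re h z = log ‖F z‖ ≥ log e0` for `R < ‖z‖ ≤ R+1`, because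
`‖F z‖ = ‖e^{ikz}‖ ‖e^{-ikz} F z‖ ≥ e^{-‖k‖ ‖z‖} ‖c‖/2`. `χ` with `RC (R + 1/16) (R + 1/8) χ` (`S_kgeo` (1)); `F' z = exp (χ z h z + (1 - χ z) log e0)` for `R < ‖z‖` and `F' z = e0` for `‖z‖ ≤ R` (so `F' = e0` for `‖z‖ ≤ R + 1/16`). -/
def S_kFt : Prop := ∀ (F : ℂ → ℂ) (k c : ℂ) (R e0 : ℝ), 2 ≤ R → c ≠ 0 → DifferentiableOn ℂ F {z | 3 / 4 < ‖z‖} →
  (∀ z : ℂ, R ≤ ‖z‖ → ‖exp (-(I * k * z)) * F z - c‖ ≤ ‖c‖ / 2) → e0 = ‖c‖ / 2 * Real.exp (-(‖k‖ * (R + 1))) →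
  (∀ z : ℂ, R ≤ ‖z‖ → ‖z‖ ≤ R + 1 → e0 ≤ ‖F z‖) ∧
  ∃ F' : ℂ → ℂ, ContDiff ℝ (⊤ : ℕ∞) F' ∧ (∀ z : ℂ, R + 1 / 8 ≤ ‖z‖ → F' z = F z) ∧ ∀ z : ℂ, ‖z‖ ≤ R + 1 → e0 ≤ ‖F' z‖

/-- [KC6] The energy vanishes where `F` is small [3.3]. Proof: let `η = 1 - RC (R + 1/4) (R + 3/4)` (`S_kgeo`): a test function, `η = 1` for `‖z‖ ≤ R + 1/4`, `0 ≤ η`, `η = 0` for `‖z‖ ≥ R + 3/4`, `gr η = 0` for `‖z‖ ≤ R + 1/4`. `S_k32`: `∫_G η ψ(F) J = - ∫_G PP ψ (F) cr (gr η) S`. Let `F'` be the function of `S_kFt`, with weak derivatives `dz F'`, `db F'` (`S_smooth` (1)).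
On the open set `{R + 1/8 < ‖z‖} ⊆ G` `F = F'`, so `A = dz F'`, `B = db F'` a.e. there (`S_wuniq`); so `∫_G PP ψ (F) cr (gr η) S = ∫ PP ψ (F') cr (gr η) (I (conj (dz F') - db F')) = - ∫ η ψ(F') (‖dz F'‖² - ‖db F'‖²)` (`S_bdeg` with `U = univ`) `= 0`, because `ψ(F') = 0` where `η ≠ 0` (`‖F'‖ ≥ e0`). The integrand `η ψ(F) J` is `≥ 0` a.e. on `G`
(`J = (1-μ²) ‖A‖² ≥ 0`, `S_kClE`), so it is `0` a.e.: `ψ(F) J = 0` a.e. on `G ∩ ball 0 (R + 1/4)`, and `1 - μ² > 0`: `ψ(F) ≠ 0` implies `A = 0` and `B = μ conj A = 0`. -/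
def S_kJ0 : Prop := ∀ (G : Set ℂ) (k0 : ℝ) (μ κ : ℂ → ℝ) (F A B : ℂ → ℂ) (k c : ℂ) (R e0 : ℝ) (ψ : ℂ → ℝ), Adm G k0 μ → Wt G μ κ → ClD G μ F A B → c ≠ 0 → 2 ≤ R →
  (∀ z : ℂ, R ≤ ‖z‖ → ‖exp (-(I * k * z)) * F z - c‖ ≤ ‖c‖ / 2) → e0 = ‖c‖ / 2 * Real.exp (-(‖k‖ * (R + 1))) → RTF (ball 0 e0) ψ → (∀ z, 0 ≤ ψ z) →
  ∀ᵐ z ∂(volume.restrict (G ∩ ball 0 (R + 1 / 4))), ψ (F z) ≠ 0 → A z = 0 ∧ B z = 0

/-- [KC7] LOW [3.3]. Proof: suppose `z0 ∈ G`, `‖z0‖ ≤ R`, `‖F z0‖ < e0`; let `ψ ≥ 0` be a test function of `ball 0 e0` with `ψ (F z0) > 0` (`ContDiffBump`). `‖F z‖ ≥ e0` for `R ≤ ‖z‖ ≤ R+1` (`S_kFt`), so `ψ(F z) = 0` there and `‖z0‖ < R`. Let `a z = ψ(F z)` if `‖z‖ < R + 1/8`, `0` otherwise: continuous on `G`, weak gradient `0` on `G` (`S_kcalc` (5)): on `G ∩ ball 0 (R + 1/8)` it is `ψ ∘ F` with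
gradient `ψ_x(F) W + ψ_y(F) S` (`S_chain`, `S_bridge`), which vanishes a.e.: where `ψ(F) ≠ 0` because `A = B = 0` (`S_kJ0`), where `ψ(F) = 0` because `ψ ≥ 0` has a minimum there, so `fderiv ψ = 0`; on `{R < ‖z‖}` `a = 0`. `S_aconst` (`G` is connected): `a z0 = 0` (value at a far point), but `a z0 = ψ (F z0) > 0`. -/
def S_klow : Prop := ∀ (G : Set ℂ) (k0 : ℝ) (μ κ : ℂ → ℝ) (F : ℂ → ℂ) (k c : ℂ) (R : ℝ), Adm G k0 μ → Wt G μ κ → Cl G μ F → c ≠ 0 → 2 ≤ R →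
  (∀ z : ℂ, R ≤ ‖z‖ → ‖exp (-(I * k * z)) * F z - c‖ ≤ ‖c‖ / 2) → ∀ z ∈ G, ‖z‖ ≤ R → ‖c‖ / 2 * Real.exp (-(‖k‖ * (R + 1))) ≤ ‖F z‖

/-- [KC8] UNI [3.4]. Proof: let `z0 ∈ G`. For real `(a,b) ≠ 0`, `F = a X + b Y` is in `Cl` (`S_kCll`) and `e^{-ikz} F - (a + b i) = O(1/z)`, so `F z0 ≠ 0` by `S_klow` (`R` large, `R ≥ ‖z0‖`). So `X z0`, `Y z0` are linearly independent over `ℝ`, hence a basis of `ℂ`. If `H z0 ≠ 0`, there is `(a,b) ≠ 0` with `a X z0 + b Y z0 = - H z0`; `F = a X + b Y + H ∈ Cl`,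
`e^{-ikz} F - (a + b i) = O(1/z)`, `F z0 = 0`: contradiction to `S_klow`. -/
def S_kuni : Prop := ∀ (G : Set ℂ) (k0 : ℝ) (μ κ : ℂ → ℝ) (X Y H : ℂ → ℂ) (k : ℂ) (C : ℝ), Adm G k0 μ → Wt G μ κ → Cl G μ X → Cl G μ Y → Cl G μ H →
  (∀ z : ℂ, 2 ≤ ‖z‖ → ‖exp (-(I * k * z)) * X z - 1‖ ≤ C / ‖z‖ ∧ ‖exp (-(I * k * z)) * Y z - I‖ ≤ C / ‖z‖ ∧ ‖exp (-(I * k * z)) * H z‖ ≤ C / ‖z‖) → ∀ z ∈ G, H z = 0

/-! ## D. The transfer lemma [7] -/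

/-- [KD1] The function `u₁ = κ₁ w₁` [7.1]. `w = Re F`, `W = conj A + B`. Proof: (0) `σ = (1-μ)/(1+μ) = γ κ²`, `μ = muk γ κ`. (1) `WG G u (κ W + w K)` on `G`: `S_kcalc` (8) (`κ`, `w` continuous on `G`), `U` is this field on `G`. (2) On `G ∩ ball 0 (5/8)`: `‖κ W‖ ∈ L²` (`S_kClE`), `|w| ≤ M`, `K ∈ L²`. (3) `InH`: let `η` be a test function of `ball 0 (5/8)`, `τ_m` the cutoffs of `KP.cut`.
`a_m = τ_m η u` vanishes on `G` off the compact set `tsupport τ_m ∩ tsupport η ⊆ G`, so `H0 G (G.indicator a_m) (G.indicator A_m)` with `A_m = τ_m η U + τ_m u gr η + η u gr τ_m` (`S_kH0c`, `S_kcalc` (6)). As `m → ∞`: `τ_m η u → η u`, `τ_m (η U + u gr η) → η U + u gr η` in `L²(G)` (dominated convergence, `|u| ≤ M κ ≤ M` on `tsupport η`), `‖η u gr τ_m‖₂ ≤ M sup |η| ‖κ gr τ_m‖₂ → 0`.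
Off `G`, `u = 0` (`κ = 0`) and `U = 0`. `S_kH0` (5). -/
def S_ku1 : Prop := ∀ (Ω G : Set ℂ) (c C : ℝ) (γ κ : ℂ → ℝ) (K F A B : ℂ → ℂ) (M : ℝ), Pos Ω G → 0 < c → Cond c C γ → (∀ z, z ∉ Ω → γ z = 1) → KP G γ κ K → ClD G (muk γ κ) F A B →
  (∀ z ∈ G, ‖z‖ < 5 / 8 → ‖F z‖ ≤ M) →
  WG G (fun z => κ z * (F z).re) (G.indicator (fun z => (κ z : ℂ) * (conj (A z) + B z) + ((F z).re : ℂ) * K z)) ∧
  MemLp (G.indicator (fun z => (κ z : ℂ) * (conj (A z) + B z) + ((F z).re : ℂ) * K z)) 2 (volume.restrict (G ∩ ball 0 (5 / 8))) ∧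
  InH G (5 / 8) (fun z => κ z * (F z).re) (G.indicator (fun z => (κ z : ℂ) * (conj (A z) + B z) + ((F z).re : ℂ) * K z))

/-- [KD2] The equation for `u₁` [7.1]. Let `V = G ∩ ball 0 (5/8)`, `φ` a test function of `V`, `w = Re F`, `W = conj A + B`, `S = I (conj A - B) = I σ W` a.e., `σ = γ κ²` (`S_kClE`). Proof: (a) `a = φ/κ` has weak gradient `gr φ/κ - φ K/κ²` on `G` (`S_kcalc` (9), (6)) and compact support; the field `σ W = - I S` is in `L²_loc(G)` and divergence free on `G`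
(`ip (I S) (gr φ) = - Im (S conj (gr φ))`, so this is `∫ cr (gr φ) S = 0`: `S_wedge`, `S_bridge`), so `S_ktst`: `0 = ∫ σ ip W (gr φ/κ - φ K/κ²) = ∫ γ κ ip W (gr φ) - ∫ γ φ ip W K`. (b) `b = w φ` has weak gradient `w gr φ + φ W`; `γ K` is divergence free on `V` (`KP.sol`), `S_ktst`: `0 = ∫ γ w ip K (gr φ) + ∫ γ φ ip K W`. Sum: `∫ γ ip (κ W + w K) (gr φ) = 0`. -/
def S_ku1s : Prop := ∀ (Ω G : Set ℂ) (c C : ℝ) (γ κ : ℂ → ℝ) (K F A B : ℂ → ℂ), Pos Ω G → 0 < c → Cond c C γ → (∀ z, z ∉ Ω → γ z = 1) → KP G γ κ K → ClD G (muk γ κ) F A B →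
  WSol (G ∩ ball 0 (5 / 8)) γ (G.indicator (fun z => (κ z : ℂ) * (conj (A z) + B z) + ((F z).re : ℂ) * K z))

/-- [KD3] The bound for `u₂` [7.2]. Proof: `V = G ∩ ball 0 (5/8) ⊇ Ω`. For `s = 1` and `s = -1` let `v = s u₂ - M κ₂`. (a) On `Ω`: `S_kwmp` with `V := Ω` (bounded), `u := v`, `U := s U₂ - M K₂` (in `L²(Ω)`; `WSol Ω γ₂`: test functions of `Ω` are test functions of `V`). `v = v₁ + z` with `v₁ = s u₁ - M κ₁ ≤ 0` on `Ω`, continuous on `G`, and `z = s (u₂ - u₁) - M (κ₂ - κ₁)`, `H0 Ω z Z` (`S_kH0` (2)).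
For `ε > 0` let `φ` be a test function of `Ω` close to `(z, Z)`: `ψ = v₁ + φ`, `Ψ = s U₁ - M K₁ + gr φ`, `K = tsupport φ`. (b) a.e. on `V \ Ω`: `u₂ = u₁`, `κ₂ = κ₁` (`S_kH0` (1)). -/
def S_ku2b : Prop := ∀ (Ω G : Set ℂ) (c C : ℝ) (γ₁ γ₂ κ₁ κ₂ u₁ u₂ : ℂ → ℝ) (K₁ K₂ U₁ U₂ : ℂ → ℂ) (M : ℝ), Pos Ω G → 0 < c → Cond c C γ₂ → KP G γ₁ κ₁ K₁ → KP G γ₂ κ₂ K₂ →
  H0 Ω (fun z => κ₂ z - κ₁ z) (fun z => K₂ z - K₁ z) → ContinuousOn u₁ G → WG G u₁ U₁ → MemLp U₁ 2 (volume.restrict (G ∩ ball 0 (5 / 8))) → (∀ z ∈ G, ‖z‖ < 5 / 8 → |u₁ z| ≤ M * κ₁ z) →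
  H0 Ω (fun z => u₂ z - u₁ z) (fun z => U₂ z - U₁ z) → WSol (G ∩ ball 0 (5 / 8)) γ₂ U₂ →
  ∀ᵐ z ∂(volume.restrict (G ∩ ball 0 (5 / 8))), |u₂ z| ≤ M * κ₂ z

/-- the quotient `w₂` with its gradient: `u₂ = κ₂ w₂` near the body, `w₂ = w` for `‖z‖ > 1/2` [7.3] -/
structure QW (G : Set ℂ) (κ₂ u₂ w w₂ : ℂ → ℝ) (K₂ U₂ W W₂ : ℂ → ℂ) (M : ℝ) : Prop where
  cont : ContinuousOn w₂ G
  wg : WG G w₂ W₂
  bd : ∀ z ∈ G, ‖z‖ < 5 / 8 → |w₂ z| ≤ M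
  out : ∀ z : ℂ, 1 / 2 < ‖z‖ → w₂ z = w z
  outW : ∀ᵐ z : ℂ, 1 / 2 < ‖z‖ → W₂ z = W z
  u : ∀ᵐ z ∂(volume.restrict (G ∩ ball 0 (5 / 8))), u₂ z = κ₂ z * w₂ z ∧ U₂ z = (κ₂ z : ℂ) * W₂ z + (w₂ z : ℂ) * K₂ z
  l2 : MemLp (fun z => (κ₂ z : ℂ) * W₂ z) 2 (volume.restrict (G ∩ ball 0 (5 / 8)))

/-- [KD4] The quotient [7.3]. Proof: `V = G ∩ ball 0 (5/8)`. `WG V u₂ U₂` (`S_kH0` (1) for `u₂ - u₁`, `WG G u₁ U₁`, `S_kcalc`). `S_kreg`: a continuous `g` on `V` with `g = u₂` a.e. on `V`. `|g| ≤ M κ₂` on `V` by continuity. `w₂ = g/κ₂` on `V`, `w₂ = w` elsewhere on `G`. For `1/2 < ‖z‖ < 5/8`: `g = u₂ = u₁`, `κ₂ = κ₁` a.e. (`Ω ⊆ ball 0 (1/2)`, `S_kH0` (1)) and all are continuous there, so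
`w₂ = u₁/κ₁ = w`. So `w₂` is continuous on `G = V ∪ {1/2 < ‖z‖}`. Gradient: on `V`, `W₂ = (U₂ - w₂ K₂)/κ₂` (`S_kcalc` (8), (9) with `T t = 1/t`, `D = (0,∞)`), and `W₂ = W` for `‖z‖ ≥ 5/8`; on `{1/2 < ‖z‖ < 5/8}` they agree a.e. (uniqueness); `WG` on `G` by `S_kcalc` (5). `κ₂ W₂ = U₂ - w₂ K₂ ∈ L²(V)` (`U₂ - U₁, K₂ ∈ L²(ℂ)`, `U₁ ∈ L²(V)`, `|w₂| ≤ M`). -/
def S_kqw : Prop := ∀ (Ω G : Set ℂ) (c C : ℝ) (γ₁ γ₂ κ₁ κ₂ w u₂ : ℂ → ℝ) (K₁ K₂ W U₁ U₂ : ℂ → ℂ) (M : ℝ), Pos Ω G → 0 < c → Cond c C γ₂ → (∀ z, z ∉ Ω → γ₂ z = 1) → KP G γ₁ κ₁ K₁ → KP G γ₂ κ₂ K₂ →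
  H0 Ω (fun z => κ₂ z - κ₁ z) (fun z => K₂ z - K₁ z) → ContinuousOn w G → WG G w W → WG G (fun z => κ₁ z * w z) U₁ → MemLp U₁ 2 (volume.restrict (G ∩ ball 0 (5 / 8))) →
  H0 Ω (fun z => u₂ z - κ₁ z * w z) (fun z => U₂ z - U₁ z) → WSol (G ∩ ball 0 (5 / 8)) γ₂ U₂ →
  (∀ᵐ z ∂(volume.restrict (G ∩ ball 0 (5 / 8))), |u₂ z| ≤ M * κ₂ z) →
  ∃ (w₂ : ℂ → ℝ) (W₂ : ℂ → ℂ), QW G κ₂ u₂ w w₂ K₂ U₂ W W₂ M

/-- [KD5] The equation for `w₂` on `G` [7.3]. Proof: `V = G ∩ ball 0 (5/8)`, `φ` a test function of `G`, `ζ = 1` for `‖z‖ ≤ 9/16`, `ζ = 0` for `‖z‖ ≥ 39/64` (`1 - RC`). (a) `φ' = ζ φ` is a test function of `V`. `γ₂ U₂` is divergence free on `V`, `a = κ₂ φ'` has weak gradient `κ₂ gr φ' + φ' K₂` and compact support: `S_ktst`: `∫ γ₂ κ₂ ip U₂ (gr φ') = - ∫ γ₂ φ' ip U₂ K₂`.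
`γ₂ K₂` is divergence free on `V` (`KP.sol`), `b = g φ'` with `g = κ₂ w₂` (continuous on `V`, `WG V g U₂` by `QW.u`) has weak gradient `g gr φ' + φ' U₂`: `∫ γ₂ κ₂ w₂ ip K₂ (gr φ') = - ∫ γ₂ φ' ip K₂ U₂`. Subtract: `∫ γ₂ κ₂ ip (U₂ - w₂ K₂) (gr φ') = 0`, and `U₂ - w₂ K₂ = κ₂ W₂` a.e. on `V`. (b) `φ'' = (1 - ζ) φ` vanishes for `‖z‖ ≤ 9/16`;
for `‖z‖ > 1/2`: `W₂ = W` a.e., `γ₁ = γ₂ = 1`, `κ₁ = κ₂` a.e.: `∫ γ₂ κ₂² ip W₂ (gr φ'') = ∫ γ₁ κ₁² ip W (gr φ'') = 0` by the hypothesis. -/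
def S_kqe : Prop := ∀ (Ω G : Set ℂ) (c C : ℝ) (γ₁ γ₂ κ₁ κ₂ u₂ w w₂ : ℂ → ℝ) (K₁ K₂ U₂ W W₂ : ℂ → ℂ) (M : ℝ), Pos Ω G → 0 < c → Cond c C γ₂ → (∀ z, z ∉ Ω → γ₁ z = 1) → (∀ z, z ∉ Ω → γ₂ z = 1) →
  KP G γ₁ κ₁ K₁ → KP G γ₂ κ₂ K₂ → H0 Ω (fun z => κ₂ z - κ₁ z) (fun z => K₂ z - K₁ z) → WG (G ∩ ball 0 (5 / 8)) u₂ U₂ → WSol (G ∩ ball 0 (5 / 8)) γ₂ U₂ → QW G κ₂ u₂ w w₂ K₂ U₂ W W₂ M → L2loc G W →
  (∀ φ : ℂ → ℝ, RTF G φ → ∫ z in G, γ₁ z * κ₁ z ^ 2 * ip (W z) (gr φ z) = 0) →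
  ∀ φ : ℂ → ℝ, RTF G φ → ∫ z in G, γ₂ z * κ₂ z ^ 2 * ip (W₂ z) (gr φ z) = 0

/-- [KD6] Test functions of the plane [7.3]. Proof: `σ = γ κ²`. `σ ‖W‖ ≤ C κ · κ ‖W‖` with `κ ‖W‖ ∈ L²(G ∩ closedBall 0 R)`, `κ ≤ 1`. `τ_m` the cutoffs of `Cut G κ`, `φ` a test function of the plane: `τ_m φ` is a test function of `G` (its support is compact and contained in `tsupport τ_m ⊆ G`), so `0 = ∫_G σ τ_m ip W (gr φ) + ∫_G σ φ ip W (gr τ_m)`. The first integral tends to `∫_G σ ip W (gr φ)`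
(dominated convergence), the second is bounded by `C sup|φ| ‖κ W‖_{L²(G ∩ supp φ)} ‖κ gr τ_m‖₂ → 0`. -/
def S_kplane : Prop := ∀ (G : Set ℂ) (C : ℝ) (γ κ : ℂ → ℝ) (W : ℂ → ℂ), IsOpen G → Measurable γ → (∀ z, 0 ≤ γ z ∧ γ z ≤ C) → Measurable κ → (∀ z, 0 ≤ κ z ∧ κ z ≤ 1) → Cut G κ → L2loc G W →
  (∀ R : ℝ, IntegrableOn (fun z => κ z ^ 2 * ‖W z‖ ^ 2) (G ∩ closedBall 0 R) volume) →
  (∀ φ : ℂ → ℝ, RTF G φ → ∫ z in G, γ z * κ z ^ 2 * ip (W z) (gr φ z) = 0) →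
  L2loc univ (G.indicator (fun z => ((γ z * κ z ^ 2 : ℝ) : ℂ) * W z)) ∧
  ∀ φ : ℂ → ℝ, RTF univ φ → ∫ z, ip (G.indicator (fun z => ((γ z * κ z ^ 2 : ℝ) : ℂ) * W z) z) (gr φ z) = 0

/-- [KD7] The stream function of `w₂` [7.4]. Here `σ = γ κ²`, `μ = muk γ κ = (1-σ)/(1+σ)`. Proof: `X = G.indicator (σ W)`; `S_kplane`, `S_apl`: `s` with `WG univ s (I X)`. `F' = w + i s` has on `G` the weak derivatives `A = (1+σ)/2 conj W`, `B = (1-σ)/2 W` (`S_bridge` (2), `S_basic`), `B = μ conj A`. `S_areg` (`S_kwt`: `Adm.loc`, `Adm.meas`, `Adm.supp`): `F'` is a.e. on `G` equal to a continuous function `F`, `Re F = w` on `G` (both continuous).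
`‖A‖² - ‖B‖² = σ ‖W‖²`, integrable on `G ∩ closedBall 0 R` (`σ ≤ C κ²`). -/
def S_kstr : Prop := ∀ (Ω G : Set ℂ) (c C : ℝ) (γ κ w : ℂ → ℝ) (K W : ℂ → ℂ), Pos Ω G → 0 < c → Cond c C γ → (∀ z, z ∉ Ω → γ z = 1) → KP G γ κ K → ContinuousOn w G → WG G w W →
  (∀ R : ℝ, IntegrableOn (fun z => κ z ^ 2 * ‖W z‖ ^ 2) (G ∩ closedBall 0 R) volume) →
  (∀ φ : ℂ → ℝ, RTF G φ → ∫ z in G, γ z * κ z ^ 2 * ip (W z) (gr φ z) = 0) →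
  ∃ F : ℂ → ℂ, ContinuousOn F G ∧ (∀ z ∈ G, (F z).re = w z) ∧
    WD G F (fun z => ((1 + γ z * κ z ^ 2 : ℝ) : ℂ) / 2 * conj (W z)) (fun z => ((1 - γ z * κ z ^ 2 : ℝ) : ℂ) / 2 * W z) ∧
    (∀ z, ((1 - γ z * κ z ^ 2 : ℝ) : ℂ) / 2 * W z = (muk γ κ z : ℂ) * conj (((1 + γ z * κ z ^ 2 : ℝ) : ℂ) / 2 * conj (W z))) ∧
    ∀ R : ℝ, IntegrableOn (fun z => ‖((1 + γ z * κ z ^ 2 : ℝ) : ℂ) / 2 * conj (W z)‖ ^ 2 - ‖((1 - γ z * κ z ^ 2 : ℝ) : ℂ) / 2 * W z‖ ^ 2) (G ∩ closedBall 0 R) volume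

/-- [KD8] Transfer of one solution [7.1-7.4]. Proof: `A, B` with `ClD G μ₁ F A B` (`S_kCll` (3)), `w = Re F`, `W = conj A + B`, `S = I (conj A - B)`. `u₁ = κ₁ w`, `U₁` from `S_ku1`, `S_ku1s`. `TT`: `u₂, U₂`. `|u₁| ≤ M κ₁` on `G ∩ ball 0 (5/8)`; `S_ku2b`; `S_kqw`: `w₂, W₂`. The equation `∫_G γ₁ κ₁² ip W (gr φ) = 0` for test functions of `G`: `γ₁ κ₁² W = σ W = - I S` a.e. on `G` (`S_kClE` (4), `(1-μ)/(1+μ) = γ κ²`)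
and `ip (-I S) (gr φ) = ± cr S (gr φ)`, `S_wedge`. `S_kqe`: the equation for `w₂`. `κ₂² ‖W₂‖²` is integrable on `G ∩ closedBall 0 R`: on `ball 0 (5/8)` by `QW.l2`, for `‖z‖ > 9/16` it is a.e. `κ₁² ‖W‖²` (`S_kClE`). `S_kstr` for `γ₂, κ₂, w₂`: `F'`. On the connected open set `{1/2 < ‖z‖}` (`S_kgeo` (2)): `Re F' = w₂ = Re F`, and `Im F' - Im F` is continuous with weak gradient
`I σ₂ W₂ - I σ₁ W = 0` a.e. (`γ_j = 1`, `κ₁ = κ₂` a.e. there), so it is a constant `b` (`S_aconst`). `F₂ = F' - i b` (same derivatives, `S_basic`): equal to `F` for `‖z‖ > 1/2`, so holomorphic for `‖z‖ > 3/4`; `ClD G μ₂ F₂`. -/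
def S_ktr : Prop := ∀ (Ω G : Set ℂ) (c C : ℝ) (γ₁ γ₂ κ₁ κ₂ : ℂ → ℝ) (K₁ K₂ F : ℂ → ℂ) (M : ℝ), Pos Ω G → 0 < c → Cond c C γ₁ → Cond c C γ₂ → (∀ z, z ∉ Ω → γ₁ z = 1) → (∀ z, z ∉ Ω → γ₂ z = 1) →
  TT Ω G γ₁ γ₂ → KP G γ₁ κ₁ K₁ → KP G γ₂ κ₂ K₂ → H0 Ω (fun z => κ₂ z - κ₁ z) (fun z => K₂ z - K₁ z) → Cl G (muk γ₁ κ₁) F → (∀ z ∈ G, ‖z‖ < 5 / 8 → ‖F z‖ ≤ M) →
  ∃ F₂ : ℂ → ℂ, Cl G (muk γ₂ κ₂) F₂ ∧ ∀ z : ℂ, 1 / 2 < ‖z‖ → F₂ z = F z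

/-- [KD9] INTERFACE (II'): the T-lemma [7.5]. Proof: fix `k`. `F = X₁(·,k)` is in `Cl` and bounded on `G ∩ ball 0 (5/8)` (`LS.bd` with `c = 1`; `FF X Y 1 = X`). `S_ktr`: `F₂ ∈ Cl G μ₂`, `F₂ = X₁(·,k)` for `‖z‖ > 1/2`. `H = F₂ - X₂(·,k) ∈ Cl` (`S_kCll`). By `LS.asy` (for both coefficients, `c = 1` and `c = i`; `FF X Y I = Y`) for `‖z‖ ≥ 2`: `e^{-ikz} X_j = e^d`, `‖d‖ ≤ C ‖k‖/‖z‖ ≤ C ‖k‖`, so
`‖e^{-ikz} X_j - 1‖ ≤ ‖d‖ e^{‖d‖} ≤ C'/‖z‖`, `‖e^{-ikz} Y_j - i‖ ≤ C'/‖z‖`, and `‖e^{-ikz} H‖ ≤ 2 C'/‖z‖`. `S_kuni` for `μ₂` (`Adm`, `Wt` by `S_kwt`): `H = 0` on `G`. For `Y`: `F = Y₁(·,k)`. -/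
def S_Tlem : Prop := ∀ (Ω G : Set ℂ) (c C : ℝ) (γ₁ γ₂ κ₁ κ₂ : ℂ → ℝ) (K₁ K₂ : ℂ → ℂ) (X₁ Y₁ g₁ X₂ Y₂ g₂ : ℂ → ℂ → ℂ), Pos Ω G → 0 < c → Cond c C γ₁ → Cond c C γ₂ →
  (∀ z, z ∉ Ω → γ₁ z = 1) → (∀ z, z ∉ Ω → γ₂ z = 1) → TT Ω G γ₁ γ₂ → KP G γ₁ κ₁ K₁ → KP G γ₂ κ₂ K₂ → H0 Ω (fun z => κ₂ z - κ₁ z) (fun z => K₂ z - K₁ z) →
  LS G (muk γ₁ κ₁) X₁ Y₁ g₁ → LS G (muk γ₂ κ₂) X₂ Y₂ g₂ → ∀ k z : ℂ, 1 / 2 < ‖z‖ → X₁ z k = X₂ z k ∧ Y₁ z k = Y₂ z k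

end

end Cal
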