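import Pool.Agent.Lib.MP_4ea4c7_an.StmH1b

/-!
# MP_4ea4c7_an, stage 2, part 4: complex geometrical optics solutions for smooth coefficients

Paper: /team-store/MP_4ea4c7_stage2_paper.md, sections 4 and 5.  The pieces of stage 1 (`S_C3b`, `S_C4`, `S_uniq`, `S_chain`, ...) are in Stm1.lean, those named
`S_a..`, `S_b..` in StmH1.lean, StmH1b.lean.
-/

open MeasureTheory Complex Metric Set Filter Topology
open scoped ComplexConjugate ENNReal NNReal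

namespace Cal

noncomputable section

/-- [c1] A priori estimate. Proof. `N` is bounded (`aN + b conj N` is bounded, zero outside the disc; `S_C4`). `M = N - h = Ct (aN + b conj N)`, `WD univ M A (aN + b conj N)` (`S_C3b`). Let `c = a + b conj M/M` where `M ≠ 0`, `c = a` elsewhere; `‖c‖ ≤ 2 M0`, measurable, zero outside; `aN + b conj N = c M + H'`,
`H' = a h + b conj h`, `‖H'‖ ≤ 2 M0 H`. `e = Ct c` is continuous, `‖e‖ ≤ C4 2 M0`, `WD univ e A' c`. `v = exp (-e) M` is continuous, with weak `∂/∂z̄` equal to `exp (-e) H'` (`S_chain`, `S_prod`), and `Dec`. By `S_uniq` `v = Ct (exp (-e) H')` a.e., hence everywhere (both continuous, `S_C4`), so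
`‖M‖ ≤ e^{2 C4 M0} C4 e^{2 C4 M0} 2 M0 H`. -/
def S_capri : Prop := ∀ M0 : ℝ, 0 ≤ M0 → ∃ C : ℝ, 0 ≤ C ∧ ∀ (a b h N : ℂ → ℂ) (H : ℝ), Measurable a → Measurable b → (∀ z, ‖a z‖ ≤ M0 ∧ ‖b z‖ ≤ M0) → (∀ z, 5 / 4 < ‖z‖ → a z = 0 ∧ b z = 0) →
  Continuous h → (∀ z, ‖h z‖ ≤ H) → Continuous N → (∀ z, N z = h z + Ct (fun ζ => a ζ * N ζ + b ζ * conj (N ζ)) z) → ∀ z, ‖N z‖ ≤ C * H

/-- [c2] Solvability (continuity method). Proof. Let `C` be the constant of `S_capri` for `M0`, `C4` that of `S_C4`; `T N = Ct (aN + b conj N)` maps bounded continuous functions to bounded continuous functions, real linear, `‖T N‖ ≤ 2 C4 M0 ‖N‖`. Claim: for `t ∈ [0,1]` the equation `N = h + t T N` is uniquely solvable in bounded continuous functions for every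
`h`, with `‖N‖ ≤ C ‖h‖` (`S_capri` for `ta, tb`, and for the difference of two solutions, `h = 0`). True for `t = 0`. If true for `t` and `0 ≤ δ`, `2 δ C C4 M0 ≤ 1/2`, `t + δ ≤ 1`, then for `t + δ`: `N = R (h + δ T N)`, `R` the solution operator for `t` (real linear by uniqueness, norm `≤ C`), a contraction on `BoundedContinuousFunction ℂ ℂ`.
After finitely many steps `t = 1`. Uniqueness without boundedness: a continuous solution is bounded. -/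
def S_csolve : Prop := ∀ M0 : ℝ, 0 ≤ M0 → ∀ (a b : ℂ → ℂ), Measurable a → Measurable b → (∀ z, ‖a z‖ ≤ M0 ∧ ‖b z‖ ≤ M0) → (∀ z, 5 / 4 < ‖z‖ → a z = 0 ∧ b z = 0) →
  (∀ (h : ℂ → ℂ) (H : ℝ), Continuous h → (∀ z, ‖h z‖ ≤ H) → ∃ N : ℂ → ℂ, Continuous N ∧ ∀ z, N z = h z + Ct (fun ζ => a ζ * N ζ + b ζ * conj (N ζ)) z) ∧
  ∀ h N N' : ℂ → ℂ, Continuous N → Continuous N' → (∀ z, N z = h z + Ct (fun ζ => a ζ * N ζ + b ζ * conj (N ζ)) z) →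
    (∀ z, N' z = h z + Ct (fun ζ => a ζ * N' ζ + b ζ * conj (N' ζ)) z) → ∀ z, N z = N' z

/-- [c3] The functions `N^c(z,k)` and their derivatives in `k`. Proof. `‖ek k z‖ = 1`, `(k,z) ↦ ek k z` is smooth, `∂_{k₁} ek = -I (z + conj z) ek`, `∂_{k₂} ek = (z - conj z) ek`. `N(·,k)` from `S_csolve` with `h = c`, `b ek`; `N1, N2` from `S_csolve` with `h = Ct (-I(ζ+conj ζ) b ek conj N)`, resp. `h = Ct ((ζ - conj ζ) b ek conj N)` (continuous and bounded, `S_C4`).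
All estimates from `S_capri` (sup norms over the plane; `C` independent of `k`). Continuity: `N(k') - N(k)` solves the equation for `k'` with `h = Ct (b (ek k' - ek k) conj N(k))`, so `sup_z |N(z,k') - N(z,k)| ≤ C sup_{‖z‖≤7/8} |ek k' - ek k| → 0`; similarly for `N1, N2`; joint continuity follows. Derivative: for `t = t₁ + i t₂`,
`R = N(k+t) - N(k) - t₁ N1(k) - t₂ N2(k)` solves the equation for `k + t` with `h = Ct (b [ (ek (k+t) - ek k - t₁ ∂₁ ek - t₂ ∂₂ ek) conj N(k) + (ek (k+t) - ek k) (t₁ conj N1(k) + t₂ conj N2(k)) ])`, `sup |h| = o(|t|)`, so `sup_z |R| = o(|t|)`. -/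
def S_cns : Prop := ∀ a b : ℂ → ℂ, Continuous a → Continuous b → (∀ z, 7 / 8 < ‖z‖ → a z = 0 ∧ b z = 0) → ∀ c : ℂ, ∃ N N1 N2 : ℂ → ℂ → ℂ, NS a b c N ∧
  Continuous (fun p : ℂ × ℂ => N1 p.1 p.2) ∧ Continuous (fun p : ℂ × ℂ => N2 p.1 p.2) ∧ (∀ z, ContDiff ℝ 1 (fun k => N z k)) ∧
  (∀ z k, fderiv ℝ (fun k => N z k) k 1 = N1 z k ∧ fderiv ℝ (fun k => N z k) k I = N2 z k) ∧
  (∀ z k, N1 z k = Ct (fun ζ => a ζ * N1 ζ k + b ζ * ek k ζ * conj (N1 ζ k) - I * (ζ + conj ζ) * b ζ * ek k ζ * conj (N ζ k)) z) ∧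
  (∀ z k, N2 z k = Ct (fun ζ => a ζ * N2 ζ k + b ζ * ek k ζ * conj (N2 ζ k) + (ζ - conj ζ) * b ζ * ek k ζ * conj (N ζ k)) z)

/-- [c4] The identity in `k`. Proof. `z * Ct h z = Ct (ζ h) z + (1/π) ∫ h` for bounded measurable `h` vanishing outside the disc (`z/(z-ζ) = 1 + ζ/(z-ζ)`, integrable). With `h = a N + b ek conj N`, `h'` the same for `N'`: `I z N = I c z + I Ct (ζ h) + I an N`, `z N' = I c z + Ct (ζ h') + an N'`. Sum up: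
`P = τ + Ct [ I ζ a N + I ζ b ek conj N - ζ a N' - ζ b ek conj N' + a N1 + b ek conj N1 - I(ζ+conj ζ) b ek conj N + a N2' + b ek conj N2' + (ζ - conj ζ) b ek conj N' ] = τ + Ct (a P + b ek conj P)` since `conj P = -I conj ζ conj N - conj ζ conj N' + conj N1 + conj N2'`. `P` is continuous. The function `τ.re N¹ + τ.im N^I` solves the same equation
(`NS` for `c = 1` and `c = I`, real linearity): `S_csolve` (uniqueness). -/
def S_cid : Prop := ∀ (a b : ℂ → ℂ) (c : ℂ) (N N1 N2 N' N1' N2' E E' : ℂ → ℂ → ℂ), Continuous a → Continuous b → (∀ z, 7 / 8 < ‖z‖ → a z = 0 ∧ b z = 0) →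
  NS a b c N → NS a b (I * c) N' → NS a b 1 E → NS a b I E' →
  Continuous (fun p : ℂ × ℂ => N1 p.1 p.2) → Continuous (fun p : ℂ × ℂ => N2' p.1 p.2) →
  (∀ z k, N1 z k = Ct (fun ζ => a ζ * N1 ζ k + b ζ * ek k ζ * conj (N1 ζ k) - I * (ζ + conj ζ) * b ζ * ek k ζ * conj (N ζ k)) z) →
  (∀ z k, N2' z k = Ct (fun ζ => a ζ * N2' ζ k + b ζ * ek k ζ * conj (N2' ζ k) + (ζ - conj ζ) * b ζ * ek k ζ * conj (N' ζ k)) z) →
  ∀ z k, I * z * N z k - z * N' z k + N1 z k + N2' z k =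
    ((I * an a b N k - an a b N' k).re : ℂ) * E z k + ((I * an a b N k - an a b N' k).im : ℂ) * E' z k

/-- [c5] Nonvanishing. Proof. Fix `k`; `M0` a bound for `a, b`. Let `b' = a + b ek conj N/N` where `N ≠ 0`, `b' = a` elsewhere; `a N + b ek conj N = b' N`. `WD univ N A (b' N)` (`S_C3b`, `N = c + Ct (..)`), `e = Ct b'` continuous bounded `Dec`; `Φ = exp (-e) N` has weak `∂/∂z̄` zero (`S_chain`, `S_prod`), so it is entire (`S_weyl`), bounded, and tends to `c` at infinity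
(`N - c` and `e` are `Dec`): `Φ = c`. So `N = c exp e` has no zero and `b'` is continuous in `(ζ,k)`; `ω z k = Ct (fun ζ => a ζ + b ζ * ek k ζ * conj (N ζ k)/N ζ k) z` is jointly continuous (uniform continuity of the integrand on `closedBall 0 1 × compact` and `S_C4`), `Dec`, holomorphic for `‖z‖ > 7/8` (the integrand vanishes for `‖ζ‖ > 7/8`; `S_C3a` is for
`5/4`, differentiate under the integral as in P_C3a.lean). -/
def S_cnz : Prop := ∀ (a b : ℂ → ℂ) (c : ℂ) (N : ℂ → ℂ → ℂ), Continuous a → Continuous b → (∀ z, 7 / 8 < ‖z‖ → a z = 0 ∧ b z = 0) → c ≠ 0 → NS a b c N →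
  ∃ ω : ℂ → ℂ → ℂ, Continuous (fun p : ℂ × ℂ => ω p.1 p.2) ∧ (∀ z k, N z k = c * exp (ω z k)) ∧ ∀ k, DifferentiableOn ℂ (fun z => ω z k) {z | 7 / 8 < ‖z‖} ∧ Dec (fun z => ω z k)

/-- [c6] The equation of `F`. Proof. `f = exp (I k z) N`, with weak `∂/∂z̄` `exp (I k z) (al N + be ek conj N) = al f + be conj f` (`exp (I k z) ek k z conj (exp (I k z)) ^{-1} ...`: `exp (I k z) * ek k z = conj (exp (I k z))`, since `I k z - I (k z + conj (k z)) = - I conj (k z) = conj (I k z)`), `S_C3b`, `S_smooth` (3). `F = (f + μ conj f)/(1-μ²)`, so `f = F - μ conj F`;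
`WD univ F A B` (`S_smooth` (3), `S_basic`), and from `f = F - μ conj F`: `al f + be conj f = B - (db μ) conj F - μ conj A`, while `al f + be conj f = be (μ f + conj f) = be (1-μ²) conj F = - (db μ) conj F` (`μ (F - μ conj F) + conj F - μ F = (1-μ²) conj F`). So `B = μ conj A` a.e. Outside the disc of radius `7/8` `F = f`, holomorphic. At `k = 0`: `F = c`: `N⁰ = c - μ conj c` is
continuous and solves `N⁰ = c + Ct (al N⁰ + be conj N⁰)` (`al N⁰ + be conj N⁰ = - conj c db μ`, `S_pomp`), uniqueness `S_csolve`. -/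
def S_cF : Prop := ∀ (k0 : ℝ) (μ : ℂ → ℝ) (c : ℂ) (N : ℂ → ℂ → ℂ), k0 < 1 → SMu k0 μ → NS (al μ) (be μ) c N →
  Continuous (fun p : ℂ × ℂ => Fof μ N p.1 p.2) ∧ (∀ k, Bel μ univ (fun z => Fof μ N z k)) ∧ (∀ z k, 7 / 8 < ‖z‖ → Fof μ N z k = exp (I * k * z) * N z k) ∧
  (∀ k, DifferentiableOn ℂ (fun z => Fof μ N z k) {z | 7 / 8 < ‖z‖}) ∧ ∀ z, Fof μ N z 0 = c

/-- [c7] The logarithm. Proof. `f = exp (I k z) N = c exp (I k z + ω)` (`S_cnz`), `F = f (1 + μ conj f/f)/(1-μ²)`, `|μ conj f/f| < 1`: `D = ω + Complex.log (1 + μ conj f/f) - Real.log (1-μ²)`, jointly continuous (`1 + μ conj f/f` has positive real part), `D = ω` for `‖z‖ > 7/8`. At `k = 0`: `F = c`, so `exp D = 1`, `D(·,0)` is continuous with values in `2π i ℤ` and `Dec`: zero. -/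
def S_clog : Prop := ∀ (k0 : ℝ) (μ : ℂ → ℝ) (c : ℂ) (N : ℂ → ℂ → ℂ), 0 ≤ k0 → k0 < 1 → SMu k0 μ → c ≠ 0 → NS (al μ) (be μ) c N →
  ∃ D : ℂ → ℂ → ℂ, Continuous (fun p : ℂ × ℂ => D p.1 p.2) ∧ (∀ z k, Fof μ N z k = c * exp (I * k * z + D z k)) ∧ (∀ z, D z 0 = 0) ∧
    ∀ k, DifferentiableOn ℂ (fun z => D z k) {z | 7 / 8 < ‖z‖} ∧ Dec (fun z => D z k)

/-- [c8] Bounds, independent of the ellipticity. Proof. `g z = I k z + D z`; `WD univ D A_D B_D` with `A_D = A/F - I k`, `B_D = B/F` (`S_bwlog` for `g` (add a constant logarithm of `c`), `S_smooth`, `S_basic`), `‖B_D‖ = |μ| ‖A_D + I k‖`, so `B_D = 0` a.e. for `‖z‖ > 7/8` and `‖A_D + I k‖² - ‖B_D‖² = (‖A‖² - ‖B‖²)/‖F‖² ≥ 0`. `S_barea`: for `r ≥ 1`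
the first claim; for `r = 1` the left hand side is `≥ 0`, so `∫_{1<‖z‖} ‖deriv D‖² ≤ π ‖k‖²`, and `S_bext` (`M = ‖k‖`) gives `‖D z‖ ≤ 4π‖k‖/‖z‖` for `‖z‖ ≥ 2`. Maximum principle (`S_amp` on `ball 0 3`: `‖B_D‖ = |μ| ‖A_D + I k‖`, `|μ| < 1`) on `closedBall 0 2`: `|Re g|, |Im g| ≤ 2‖k‖ + 2π‖k‖`. So `‖I k z + D z‖ ≤ 12 (1 + ‖z‖) ‖k‖` for all `z`. -/
def S_cbd : Prop := ∀ (μ : ℂ → ℝ) (F D : ℂ → ℂ) (k c : ℂ), Measurable μ → (∀ z, |μ z| < 1) → (∀ z, 7 / 8 < ‖z‖ → μ z = 0) → ‖c‖ = 1 → Bel μ univ F → Continuous D →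
  (∀ z, F z = c * exp (I * k * z + D z)) → DifferentiableOn ℂ D {z | 7 / 8 < ‖z‖} → Dec D →
  (∀ z : ℂ, 2 ≤ ‖z‖ → ‖D z‖ ≤ 16 * ‖k‖ / ‖z‖) ∧ (∀ z, ‖I * k * z + D z‖ ≤ 16 * (1 + ‖z‖) * ‖k‖) ∧
  ∀ (r : ℝ) (A B : ℂ → ℂ), 1 ≤ r → WD univ F A B → IntegrableOn (fun z => (‖A z‖ ^ 2 - ‖B z‖ ^ 2) / ‖F z‖ ^ 2) (ball 0 r) volume ∧
    ∫ z in ball (0 : ℂ) r, (‖A z‖ ^ 2 - ‖B z‖ ^ 2) / ‖F z‖ ^ 2 ≤ Real.pi * ‖k‖ ^ 2 * r ^ 2

/-- [c9] Degree bound. Proof. `‖A‖² - ‖B‖² ≥ 0` a.e. (`‖B‖ = |μ| ‖A‖`, from `Bel μ univ F` and `S_bwlog`, `S_wuniq`); `g - I k z` is bounded; `S_bdegtot`: `∫ ψ(g) (‖A‖² - ‖B‖²) = ∫ ψ`, and `η ≤ 1`. -/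
def S_cdeg : Prop := ∀ (μ : ℂ → ℝ) (g A B : ℂ → ℂ) (k : ℂ) (C : ℝ) (η ψ : ℂ → ℝ), (∀ z, |μ z| < 1) → k ≠ 0 → Continuous g → Bel μ univ (fun z => exp (g z)) → (∀ z, ‖g z - I * k * z‖ ≤ C) → WD univ g A B →
  RTF univ η → (∀ z, 0 ≤ η z ∧ η z ≤ 1) → RTF univ ψ → (∀ z, 0 ≤ ψ z) → ∫ z, η z * ψ (g z) * (‖A z‖ ^ 2 - ‖B z‖ ^ 2) ≤ ∫ z, ψ z

/-- [c10] Algebra of the pair. Proof. With `x, y` for `X z k, Y z k`, `e = y/x`: `‖x - I y‖² - ‖x + I y‖² = 4 ‖x‖² e.im > 0`; `Re (1 - I e) = 1 + e.im > 1`; `x - I y = x (1 - I e)`. `U = Re (e^{-iθ} x) - i Re (e^{-iθ} y) = (e^{-iθ}/2)(x - I y) + (e^{iθ}/2) conj (x + I y) = (e^{-iθ}/2) (x - I y) (1 + e^{2iθ} conj (x + I y)/(x - I y))`, the last factor is `1 + q`,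
`‖q‖ < 1`. Exponentials: `exp (-iθ - log 2 + g) = (e^{-iθ}/2) x`. Lower bound: `‖U‖ ≥ (‖x - I y‖ - ‖x + I y‖)/2`, and this is `m := min_{‖c‖=1} ‖c.re x + c.im y‖` : for `c = e^{it}`, `c.re x + c.im y = (e^{-it} (x + I y) + e^{it} (x - I y))/2`, of norm `≥ (‖x - I y‖ - ‖x + I y‖)/2`, with equality for a suitable `t`. Also
`‖1 + q‖ ≥ 1 - ‖q‖ = 2m/‖x - I y‖`, and `|log|` bounds: `‖Lam - g‖ ≤ θ + log 2 + (log (1 + ‖e‖) + π) + (log 2 + log ((‖x‖+‖y‖)/m) + π)`. -/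
def S_calg : Prop := ∀ (X Y g : ℂ → ℂ → ℂ) (z k : ℂ) (θ m : ℝ), exp (g z k) = X z k → 0 < (Y z k / X z k).im → 0 ≤ θ → θ ≤ Real.pi / 2 → 0 < m → (∀ c : ℂ, ‖c‖ = 1 → m ≤ ‖FF X Y c z k‖) →
  exp (Lam X Y g θ z k) = (((exp (-(I * θ)) * X z k).re : ℝ) : ℂ) - I * (((exp (-(I * θ)) * Y z k).re : ℝ) : ℂ) ∧
  m ≤ ‖exp (Lam X Y g θ z k)‖ ∧ ‖X z k + I * Y z k‖ < ‖X z k - I * Y z k‖ ∧ 1 ≤ (1 - I * (Y z k / X z k)).re ∧
  0 < (1 + exp (2 * I * (θ : ℂ)) * conj (X z k + I * Y z k) / (X z k - I * Y z k)).re ∧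
  ‖Lam X Y g θ z k - g z k‖ ≤ 10 + Real.log (1 + ‖Y z k‖ / ‖X z k‖) + Real.log ((‖X z k‖ + ‖Y z k‖) / m)

/-- [c11] Positivity of `Im (Y/X)` on a connected set. Proof. `Y/X` is continuous on `W` and never real: `Y = t X` would give `FF X Y c = 0` for `c = (t - I)/‖t - I‖`·(±1): `c.re X + c.im Y = (t X - Y)/..= 0`. So `Im (Y/X)` has constant sign on the preconnected set `W`. -/
def S_cim : Prop := ∀ (W : Set (ℂ × ℂ)) (X Y : ℂ → ℂ → ℂ) (p0 : ℂ × ℂ), IsPreconnected W → p0 ∈ W → ContinuousOn (fun p : ℂ × ℂ => X p.1 p.2) W → ContinuousOn (fun p : ℂ × ℂ => Y p.1 p.2) W →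
  (∀ p ∈ W, ∀ c : ℂ, ‖c‖ = 1 → FF X Y c p.1 p.2 ≠ 0) → 0 < (Y p0.1 p0.2 / X p0.1 p0.2).im → ∀ p ∈ W, 0 < (Y p.1 p.2 / X p.1 p.2).im

/-- [c12] The coefficient `a^c` as a circle integral. Proof. For `‖z‖ = 2`, `exp (-(I k z)) F = N z k = c + Ct h z`, `h` bounded, zero for `‖ζ‖ > 7/8`; `∮ c dz = 0`, and `(1/(2πi)) ∮ Ct h z dz = (1/π) ∫ h ζ ((1/(2πi)) ∮ dz/(z - ζ)) dζ = (1/π) ∫ h` (Fubini; Cauchy: `circleIntegral.integral_sub_inv_of_mem_ball`). -/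
def S_cac : Prop := ∀ (a b : ℂ → ℂ) (c : ℂ) (N : ℂ → ℂ → ℂ), Continuous a → Continuous b → (∀ z, 7 / 8 < ‖z‖ → a z = 0 ∧ b z = 0) → NS a b c N →
  ∀ k, (1 / (2 * (Real.pi : ℂ) * I)) * ∮ z in C(0, 2), N z k = an a b N k

/-- [c13] The equation in `k`. Proof. Pointwise in `z`. Write `X, Y` as functions of `k`, `D₁ = fderiv ℝ · k 1`, `D₂ = fderiv ℝ · k I`. Hypotheses (all `z`, `k`): `D₁ X + D₂ Y = τ₁.re X + τ₁.im Y`, `D₁ Y - D₂ X = τ_I.re X + τ_I.im Y`, with `τ₁ = tc X Y 1 k`, `τ_I = tc X Y I k`. With `l F = Re (e^{-iθ} F)` (real linear) and `U = l X - i l Y`: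
`2 db U = D₁ U + i D₂ U = l (D₁ X + D₂ Y) - i l (D₁ Y - D₂ X) = Re (τ₁ U) - i Re (τ_I U) = cA U + cB conj U` (`l X = Re U`, `l Y = - Im U`, `l (τ.re X + τ.im Y) = Re (τ U)`). `exp Lam = U` (`S_calg`), `Lam` continuous in `k`, `U` `C¹` in `k`, nonzero: `Lam` is `C¹` and `2 db Lam = 2 db U/U = cA + cB conj U/U`, `conj U/U = exp (-2 i Im Lam)`. -/
def S_ckeq : Prop := ∀ (X Y g : ℂ → ℂ → ℂ) (z : ℂ) (θ : ℝ), Continuous (fun k => g z k) → ContDiff ℝ 1 (fun k => X z k) → ContDiff ℝ 1 (fun k => Y z k) → (∀ k, exp (g z k) = X z k) → (∀ k, 0 < (Y z k / X z k).im) →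
  (∀ k, ∃ m : ℝ, 0 < m ∧ ∀ c : ℂ, ‖c‖ = 1 → m ≤ ‖FF X Y c z k‖) →
  (∀ k, fderiv ℝ (fun k => X z k) k 1 + fderiv ℝ (fun k => Y z k) k I = ((tc X Y 1 k).re : ℂ) * X z k + ((tc X Y 1 k).im : ℂ) * Y z k) →
  (∀ k, fderiv ℝ (fun k => Y z k) k 1 - fderiv ℝ (fun k => X z k) k I = ((tc X Y I k).re : ℂ) * X z k + ((tc X Y I k).im : ℂ) * Y z k) →
  0 ≤ θ → θ ≤ Real.pi / 2 → ContDiff ℝ 1 (fun k => Lam X Y g θ z k) ∧
    ∀ k, 2 * db (fun k => Lam X Y g θ z k) k = cA X Y k + cB X Y k * exp (-(2 * I * ((Lam X Y g θ z k).im : ℂ)))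

/-- [c14] Smooth coefficients: everything. Proof. `a = al μ`, `b = be μ` (continuous, zero for `‖z‖ > 7/8`: `μ` vanishes on the open set `‖z‖ > 7/8`, so does `db μ`). `E = N¹`, `E' = N^I` with derivatives from `S_cns`; `X = Fof μ E`, `Y = Fof μ E'`. For general `c`: `c.re E + c.im E'` is `NS a b c` (real linearity of the equation), and `Fof` is real linear in `N`, so
`FF X Y c = Fof μ (N^c)`. `S_cF`: continuity, `Bel`, holomorphy, values at `k = 0`. `S_clog` for `c` with `‖c‖ = 1` and `S_cbd`: `FF X Y c z k = c exp (I k z + D^c z k)`; `g = I k z + D¹`. Bounds: `bd`, `asy` (`d = D^c z k`), `en` from `S_cbd`; `deg` from `S_cdeg` (`D¹(·,k)` is bounded: continuous and `Dec`). `im`: `FF X Y c ≠ 0`, at `p0 = (0,0)` `Y/X = I`, `S_cim` with `W = univ`.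
`keq`: `X, Y` are `C¹` in `k`, with `D₁ (exp (I k z) N) = exp (I k z) (I z N + N1)`, `D₂ (exp (I k z) N) = exp (I k z) (- z N + N2)`; so `D₁ f^c + D₂ f^{Ic} = exp (I k z) (I z N^c - z N^{Ic} + N1^c + N2^{Ic}) = exp (I k z) (τ.re E + τ.im E')` by `S_cid`, `τ = I an N^c - an N^{Ic}`, and the same for `F` (real linear in `f` with coefficients not depending on `k`). For `c = 1`: `N' = E'`;
for `c = I`: `I c = -1`, `N' = - E`, `D₁ Y - D₂ X`. `an N^c = ac X Y c k` by `S_cac` (on `‖z‖ = 2` `exp (-(I k z)) FF X Y c z k = N^c z k`), so `τ = tc X Y c k` (`ac X Y (-1) k = - ac X Y 1 k`). Then `S_ckeq`. -/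
def S_csls : Prop := ∃ C : ℝ, 0 ≤ C ∧ ∀ (k0 : ℝ) (μ : ℂ → ℝ), 0 ≤ k0 → k0 < 1 → SMu k0 μ → ∃ X Y g : ℂ → ℂ → ℂ, SLS C μ X Y g

end

end Cal
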