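import Pool.Agent.Lib.MP_4ea4c7_an.StmH1b
import Pool.Agent.Lib.MP_4ea4c7_an.StmH4

/-!
# MP_4ea4c7_an, stage 2: statements, sections 8, 9, 10.1-10.4 (part III)

Paper: /team-store/MP_4ea4c7_stage2_paper.md (with the simplified 10.1-10.3 of helper16: only the local degree is used, nothing on the complement of `G`).
Every `S_n.. : Prop` is one piece; the pieces it needs are hypotheses of the theorem to be proved (see the request).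
Complete informal proofs are in the docstrings.

Notation: `F^c = FF X Y c`, `η = Y / X`, `Λ_θ = Lam X Y g θ`.
-/

open MeasureTheory Complex Metric Set Filter Topology
open scoped ComplexConjugate ENNReal NNReal

namespace Cal

noncomputable section

/-! ## Definitions -/

/-- admissible coefficient together with its solutions -/
def AL (G : Set ℂ) (μ : ℂ → ℝ) (X Y g : ℂ → ℂ → ℂ) : Prop := (∃ k0 : ℝ, Adm G k0 μ) ∧ LS G μ X Y g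

/-- two structures which agree outside the disc of radius `1/2` -/
def Agr (X Y X' Y' : ℂ → ℂ → ℂ) : Prop := ∀ z : ℂ, 1 / 2 < ‖z‖ → ∀ k : ℂ, X z k = X' z k ∧ Y z k = Y' z k

/-- locally uniform convergence on `G` -/
def LU (G : Set ℂ) (f : ℕ → ℂ → ℂ) (h : ℂ → ℂ) : Prop :=
  ∀ K : Set ℂ, IsCompact K → K ⊆ G → TendstoUniformlyOn f h atTop K

/-- weak form of `∂h/∂k̄ = b` in the whole plane -/
def WB (h b : ℂ → ℂ) : Prop := ∀ φ : ℂ → ℂ, TF univ φ → ∫ k, h k * db φ k = - ∫ k, b k * φ k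

/-- hypotheses of the continuation argument of section 9 for a function `D z w k` -/
structure CA (G : Set ℂ) (D : ℂ → ℂ → ℂ → ℂ) : Prop where
  cont : ContinuousOn (fun p : ℂ × ℂ × ℂ => D p.1 p.2.1 p.2.2) (G ×ˢ (G ×ˢ univ))
  low : ∀ K : Set (ℂ × ℂ), IsCompact K → (∀ p ∈ K, p.1 ∈ G ∧ p.2 ∈ G ∧ p.1 ≠ p.2) →
    ∃ R c : ℝ, 0 < c ∧ ∀ p ∈ K, ∀ k : ℂ, R ≤ ‖k‖ → c * ‖k‖ ≤ ‖D p.1 p.2 k‖
  zero : ∀ z ∈ G, ∀ w ∈ G, D z w 0 = 0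
  fac : ∀ R : ℝ, 0 < R → ∃ M : ℝ, 0 ≤ M ∧ ∀ z ∈ G, ∀ w ∈ G, ∀ ρ : ℝ, 0 < ρ → ρ ≤ R →
    ∃ ω Φ : ℂ → ℂ, (∀ k, ‖ω k‖ ≤ M * ρ) ∧ DifferentiableOn ℂ Φ (ball 0 ρ) ∧
      ∀ k ∈ ball (0 : ℂ) ρ, D z w k = exp (ω k) * Φ k

/-- `D z w k` vanishes only at `k = 0`, with a linear lower bound -/
def SepP (D : ℂ → ℂ → ℂ → ℂ) (z w : ℂ) : Prop := ∃ c : ℝ, 0 < c ∧ ∀ k : ℂ, c * ‖k‖ ≤ ‖D z w k‖

/-- the degree of `f` over `v` on the disc `ball z r` is one: weak Jacobian formula for test functions supported near `v` (`A`, `B` are the weak derivatives of `f`) -/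
def Deg1 (f A B : ℂ → ℂ) (z v : ℂ) (r : ℝ) : Prop :=
  ∃ δ : ℝ, 0 < δ ∧ ∀ ψ : ℂ → ℝ, RTF (ball 0 δ) ψ → ∫ w in ball z r, ψ (f w - v) * (‖A w‖ ^ 2 - ‖B w‖ ^ 2) = ∫ w, ψ w

/-! ## A. Algebra of the pair -/

/-- [N2] Properties of `Λ_θ`. Proof. `X z k = exp (g z k) ≠ 0` (`LS.eg`). By `LS.bd` `FF X Y c z k ≠ 0` for `‖c‖ = 1`; if `Im (Y/X) = 0` then `Y = t X` with `t` real and `c = (-t + I)/√(1+t²)` gives `FF X Y c = 0`: so `Im (Y/X) ≠ 0`. For fixed `z ∈ G` the function `k ↦ Im (Y z k / X z k)` is continuous on `ℂ` (`LS.cX`, `LS.cY`) and equal to `1`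
at `k = 0` (`LS.z0`): positive everywhere (intermediate values, `ℂ` is preconnected). (2): `S_calg` (with `m = exp (-(C (1+‖k‖)(1+‖z‖)))` from `LS.bd`). (3) at `k = 0`: `X = 1`, `Y = I`, `g = 0`: `log (1 - I * I) = log 2`, `conj (1 + I * I) = 0`. (4) compositions of continuous functions: the arguments of the two logarithms have positive real part (`S_calg`), `X - I Y ≠ 0` (`S_calg`), `continuousAt_clog`. -/
def S_nalg : Prop := ∀ (G : Set ℂ) (μ : ℂ → ℝ) (X Y g : ℂ → ℂ → ℂ), LS G μ X Y g →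
  (∀ z ∈ G, ∀ k, X z k ≠ 0 ∧ 0 < (Y z k / X z k).im) ∧
  ∀ θ : ℝ, 0 ≤ θ → θ ≤ Real.pi / 2 →
    (∀ z ∈ G, ∀ k, exp (Lam X Y g θ z k) =
      (((exp (-(I * θ)) * X z k).re : ℝ) : ℂ) - I * (((exp (-(I * θ)) * Y z k).re : ℝ) : ℂ)) ∧
    (∀ z ∈ G, Lam X Y g θ z 0 = -(I * (θ : ℂ))) ∧
    ContinuousOn (fun p : ℂ × ℂ => Lam X Y g θ p.1 p.2) (G ×ˢ univ)

/-- [N3] Estimates of `Λ_θ - g`. Proof. (1) `S_calg` with `m = e^{-T} ‖X‖`; `FF X Y I z k = Y z k`, so `‖Y‖ ≤ e^T ‖X‖`, `1 + ‖Y‖/‖X‖ ≤ 2 e^T`, `(‖X‖ + ‖Y‖)/m ≤ 2 e^{2T}`: `‖Λ_θ - g‖ ≤ 10 + 2 log 2 + 3T`.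
(2) `η = Y/X`, `t = η - I`, `‖t‖ ≤ 1/2`: `1 - Iη = 2 (1 - I t/2)`, `log (1 - Iη) = log 2 + log (1 - I t/2)`, and `‖log (1+w)‖ ≤ ‖w‖/(1-‖w‖)` for `‖w‖ < 1`; `q = conj (X + I Y)/(X - I Y)`, `1 + Iη = I t`, `‖q‖ = ‖1 + Iη‖/‖1 - Iη‖ ≤ ‖t‖/(2 - ‖t‖) ≤ (2/3)‖t‖ ≤ 1/3`, `‖log (1 + e^{2iθ} q)‖ ≤ ‖t‖`.
`Λ_θ + Iθ - g = - log 2 + log (1 - Iη) + log (1 + e^{2iθ} q)`: total at most `(2/3)‖t‖ + ‖t‖`. -/
def S_nest : Prop := ∀ (G : Set ℂ) (μ : ℂ → ℝ) (X Y g : ℂ → ℂ → ℂ), LS G μ X Y g → ∀ z ∈ G, ∀ (k : ℂ) (θ : ℝ), 0 ≤ θ → θ ≤ Real.pi / 2 →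
  (∀ T : ℝ, 0 ≤ T → (∀ c : ℂ, ‖c‖ = 1 → Real.exp (-T) * ‖X z k‖ ≤ ‖FF X Y c z k‖ ∧ ‖FF X Y c z k‖ ≤ Real.exp T * ‖X z k‖) →
    ‖Lam X Y g θ z k - g z k‖ ≤ 3 * T + 12) ∧
  (‖Y z k / X z k - I‖ ≤ 1 / 2 → ‖Lam X Y g θ z k + I * (θ : ℂ) - g z k‖ ≤ 3 * ‖Y z k / X z k - I‖)

/-- [N4] `Λ_θ` near infinity. Proof. `z ∈ G` (`Adm.ext`). `C₀ ≥ 0` from `LS.asy` (enlarge the constant), `δ = C₀ ‖k‖ / ‖z‖`. For `‖c‖ = 1`: `‖FF X Y c z k‖ = ‖exp (I k z)‖ e^{Re d_c}` with `|Re d_c| ≤ δ`, and `X = FF X Y 1`: the hypothesis of `S_nest` (1) holds with `T = 2δ`, so `‖Λ_θ - g‖ ≤ 6δ + 12`, and `‖g - I k z‖ ≤ δ`.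
If `δ ≤ 1/8`: `X = exp (g)`, `Y = FF X Y I = I exp (I k z + d_I)`, so `Y/X = I exp w`, `w = d_I - (g - I k z)`, `‖w‖ ≤ 2δ ≤ 1/4`, `‖Y/X - I‖ ≤ 2 ‖w‖ ≤ 4δ ≤ 1/2` (`Complex.norm_exp_sub_one_le`), `S_nest` (2): `‖Λ_θ + Iθ - g‖ ≤ 12δ`, total `13δ`. Take `C = 13 C₀ + 1`. -/
def S_nfar : Prop := ∀ (G : Set ℂ) (μ : ℂ → ℝ) (X Y g : ℂ → ℂ → ℂ), AL G μ X Y g → ∃ C : ℝ, 1 ≤ C ∧ ∀ z : ℂ, 2 ≤ ‖z‖ → ∀ (k : ℂ) (θ : ℝ), 0 ≤ θ → θ ≤ Real.pi / 2 →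
  ‖Lam X Y g θ z k - I * k * z‖ ≤ C * ‖k‖ / ‖z‖ + 12 ∧
  (C * ‖k‖ ≤ ‖z‖ → ‖Lam X Y g θ z k - I * k * z + I * (θ : ℂ)‖ ≤ C * ‖k‖ / ‖z‖)

/-- [N5] `Λ_θ(·, k)` is continuous and weakly differentiable on `G`. Proof. `X(·,k), Y(·,k)` are continuous on `G` with weak derivatives (`LS.cl`, `Cl.en`), `g(·,k)` too (`S_bwlog`, `exp (g z k) = X z k` on `G`). `1/X` is `W^{1,2}_loc` and continuous (`S_chain` with `w ↦ 1/w` on `{w ≠ 0}`), `Y/X` (`S_prod`), `1 - I Y/X` has values in `{Re > 0}`, so `log (1 - I Y/X)` by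
`S_chain` with `Complex.log` (holomorphic: `dz log = 1/w`, `db log = 0`, `C¹`) on `{w | 0 < w.re}`; `conj (X + I Y)` (`S_basic` (3)), `1/(X - I Y)` (`X - I Y ≠ 0`, `S_calg`), the quotient times `e^{2iθ}` plus `1` (values in `{Re > 0}`), its `log`. Sums and constants: `S_basic`, `S_smooth` (1). Continuity: `S_nalg` (last part). -/
def S_nlwd : Prop := ∀ (G : Set ℂ) (μ : ℂ → ℝ) (X Y g : ℂ → ℂ → ℂ), AL G μ X Y g → ∀ (θ : ℝ) (k : ℂ), 0 ≤ θ → θ ≤ Real.pi / 2 →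
  ContinuousOn (fun z => Lam X Y g θ z k) G ∧ ∃ A B : ℂ → ℂ, WD G (fun z => Lam X Y g θ z k) A B

/-! ## B. Section 8: `k → ∞` -/

/-- [N7] Averaging lemma (8.1). Proof. Fix `l` and put `E = exp (N (conj h - h))`, `|E| = 1` (`conj h - h` is imaginary). For `j : ℕ`, `E^{j+1} = exp ((j+1) N (conj h - h))` is continuous with weak derivative (`S_basic` (1)-(3), `S_chain` with `G w = exp ((j+1) N w)`) `∂(E^{j+1})/∂z̄ = (j+1) N E^{j+1} (conj A - B)`, and `B = μ E conj A`, so `∂(E^{j+1})/∂z̄ = (j+1) N E^{j+1} (1 - μ E) conj A`.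
Hence, with `T_j := ((j+1) N)⁻¹ μ^{j+1} ∂(E^{j+1})/∂z̄ = μ^{j+1} E^{j+1} (1 - μ E) conj A`: `∑_{j<J} T_j = (μ E - (μ E)^{J+1}) conj A = B - (μ E)^{J+1} conj A` (geometric sum). Let `φ` be a test function of `U`, `K = tsupport φ`, `q < 1` the bound of `|μ|` on `K`, `∫_K ‖A l‖² ≤ C`. So
`‖∫ B_l φ‖ ≤ ∑_{j<J} ‖∫ φ T_j‖ + q^{J+1} ‖φ‖₂ √C`. For each fixed `j`: `∫ φ T_j → 0` as `l → ∞`: the bounded measurable function `φ μ^{j+1}` with compact support is within `ε` (in `L²`) of a test function `χ` of `U` (mollify, `S_bump`), `‖∫ (φ μ^{j+1} - χ) ((j+1)N)⁻¹ ∂(E^{j+1})/∂z̄‖ ≤ ε · 2 √C'` (on a compact neighbourhood `K'` of `K` containing `tsupport χ`, `∫_{K'} ‖A l‖² ≤ C'`), and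
`∫ χ ((j+1)N)⁻¹ ∂(E^{j+1})/∂z̄ = - ((j+1)N)⁻¹ ∫ E^{j+1} db χ → 0` since `N_l → ∞`. So `∫ B_l φ → 0`, and `∫ h0 db φ = lim ∫ h_l db φ = - lim ∫ B_l φ = 0`. `S_weyl` (`h0` is continuous on `U` as a locally uniform limit). -/
def S_nAVG : Prop := ∀ (U : Set ℂ) (μ : ℂ → ℝ) (N : ℕ → ℝ) (h A B : ℕ → ℂ → ℂ) (h0 : ℂ → ℂ), IsOpen U → Measurable μ →
  (∀ K : Set ℂ, IsCompact K → K ⊆ U → ∃ q : ℝ, q < 1 ∧ ∀ z ∈ K, |μ z| ≤ q) → Tendsto N atTop atTop → (∀ l, 0 < N l) →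
  (∀ l, ContinuousOn (h l) U) → (∀ l, WD U (h l) (A l) (B l)) →
  (∀ l, ∀ᵐ z ∂(volume.restrict U), B l z = (μ z : ℂ) * exp ((N l : ℂ) * (conj (h l z) - h l z)) * conj (A l z)) →
  (∀ K : Set ℂ, IsCompact K → K ⊆ U → ∃ C : ℝ, ∀ l, ∫ z in K, ‖A l z‖ ^ 2 ≤ C) → LU U h h0 → DifferentiableOn ℂ h0 U

/-- [N8] Compactness and holomorphic limits (8.2). Proof. Drop finitely many `l` and assume `N_l := ‖k l‖ ≥ 1`. `h_l := γ l / N_l` is continuous on `G`, `‖h_l z‖ ≤ 2 |C| (1 + ‖z‖)`. `F_l := FF X Y (c l) · (k l)` is a real combination of `X(·,k l), Y(·,k l)`, so (`LS.cl`, `Cl.en`, `S_basic`) `WD G F_l A_l B_l` with `B_l = μ conj A_l` a.e. on `G`; `S_bwlog` and `S_basic` (2):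
`WD G h_l A'_l B'_l`, `A'_l = A_l/(N_l F_l)`, `B'_l = B_l/(N_l F_l)`, and `conj F_l / F_l = exp (conj (γ l) - γ l) = exp (N_l (conj h_l - h_l))`, so `B'_l = μ exp (N_l (conj h_l - h_l)) conj A'_l` a.e. Energy: `∫_K ‖A'_l‖² = N_l⁻² ∫_K ‖A_l‖²/‖F_l‖² ≤ C_K` (`LS.en`), `‖B'_l‖ = |μ| ‖A'_l‖`, `|μ| < 1` on `G` (`Adm.loc`).
For `closedBall z0 ρ ⊆ G`: maximum principle `MPP z0 ρ h_l` (`S_amp`: `‖B'‖ ≤ ‖A'‖` a.e. with equality only where `A' = 0`) and Courant-Lebesgue (`S_CL`): `‖h_l z - h_l z0‖ ≤ 8 √(2 C_K / log (ρ/δ))` for `‖z - z0‖ ≤ δ`: equicontinuity at every `z0 ∈ G`. Arzela-Ascoli (`S_baa` with `W = G ×ˢ univ` and `p ↦ h_l p.1`): a subsequence converges locally uniformly (take the compact sets `K ×ˢ {0}`). `S_nAVG`: the limit is holomorphic. -/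
def S_nlim : Prop := ∀ (G : Set ℂ) (μ : ℂ → ℝ) (X Y g : ℂ → ℂ → ℂ), AL G μ X Y g → ∀ (k c : ℕ → ℂ) (γ : ℕ → ℂ → ℂ) (C : ℝ),
  Tendsto (fun l => ‖k l‖) atTop atTop → (∀ l, ‖c l‖ = 1) → (∀ l, ContinuousOn (γ l) G) → (∀ l, ∀ z ∈ G, exp (γ l z) = FF X Y (c l) z (k l)) →
  (∀ l, ∀ z ∈ G, ‖γ l z‖ ≤ C * (1 + ‖k l‖) * (1 + ‖z‖)) →
  ∃ (s : ℕ → ℕ) (h : ℂ → ℂ), StrictMono s ∧ DifferentiableOn ℂ h G ∧ LU G (fun l z => γ (s l) z / (‖k (s l)‖ : ℂ)) h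

/-- [N9] Asymptotics of the limits. Proof. The unimodular numbers `k l / ‖k l‖` (for large `l`) have a convergent subsequence, limit `e`. By `LS.asy`, `‖g z (k l)/‖k l‖ - I (k l/‖k l‖) z‖ ≤ C/‖z‖` for `‖z‖ ≥ 2` (`z ∈ G` by `Adm.ext`, pointwise convergence from `LU` with `K = {z}`); let `l → ∞` along the subsequence. -/
def S_nasy : Prop := ∀ (G : Set ℂ) (μ : ℂ → ℝ) (X Y g : ℂ → ℂ → ℂ), AL G μ X Y g → ∀ (k : ℕ → ℂ) (h : ℂ → ℂ),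
  Tendsto (fun l => ‖k l‖) atTop atTop → LU G (fun l z => g z (k l) / (‖k l‖ : ℂ)) h →
  ∃ (e : ℂ) (C : ℝ), ‖e‖ = 1 ∧ ∀ z : ℂ, 2 ≤ ‖z‖ → ‖h z - I * e * z‖ ≤ C / ‖z‖

/-- [N10] All `|F^c|` have the same growth (8.2). Proof. `FF X Y (-c) = - FF X Y c`, so we may assume `0 ≤ c.im`, and for `c.im = 0`, `c = ±1`, the difference is `0`; so assume `c = a + i b`, `b > 0`. Suppose the claim fails for `K, ε`: there are `k l, c l, z l` with `‖k l‖ ≥ l + 1`, `(c l).im > 0`, `z l ∈ K` and `|log ‖F^{c l}(z l, k l)‖ - log ‖X(z l, k l)‖| > ε ‖k l‖`.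
Put `γ l z = g z (k l) + Complex.log ((c l).re + (c l).im * (Y z (k l) / X z (k l)))`; the argument of the logarithm is in the upper half plane (`S_nalg` (1)), so `γ l` is continuous on `G`, `exp (γ l z) = FF X Y (c l) z (k l)`, `(γ l z).re = log ‖F^{c l}‖`, `0 ≤ (γ l z - g z (k l)).im ≤ π`; by `LS.bd` `‖γ l z‖ ≤ C' (1 + ‖k l‖)(1 + ‖z‖)`.
`S_nlim` twice (for `c = 1`, `γ = g(·,k l)`: `FF X Y 1 = X`, and then for `γ l` along the subsequence): along a common subsequence `g(·,k l)/‖k l‖ → h`, `γ l/‖k l‖ → h'` locally uniformly, `h, h'` holomorphic on `G`. `Im (h' - h) = 0` (limit of numbers in `[0, π/‖k l‖]`), so `h' - h` is locally constant (holomorphic and real valued: open mapping or Cauchy-Riemann), constant `= r` real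
since `G` is connected. For `‖z‖ ≥ 2` by `LS.asy`: `|log ‖F^c‖ - Re (I k z)| ≤ C ‖k‖/‖z‖` and `‖g - I k z‖ ≤ C ‖k‖/‖z‖`, so `|r| = |Re (h' - h)(z)| ≤ 2C/‖z‖`; `z → ∞`: `r = 0`. But (subsequence) `z l → z ∈ K` and uniform convergence on `K` gives `|Re (h' - h)(z)| ≥ ε`: contradiction. -/
def S_nlog : Prop := ∀ (G : Set ℂ) (μ : ℂ → ℝ) (X Y g : ℂ → ℂ → ℂ), AL G μ X Y g → ∀ K : Set ℂ, IsCompact K → K ⊆ G → ∀ ε : ℝ, 0 < ε →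
  ∃ R : ℝ, ∀ k c : ℂ, R ≤ ‖k‖ → ‖c‖ = 1 → ∀ z ∈ K, |Real.log ‖FF X Y c z k‖ - Real.log ‖X z k‖| ≤ ε * ‖k‖

/-- [N11] `Λ_θ - g = o(k)` (8.2). Proof. `S_nlog` with `ε/6` gives `R`; for `‖k‖ ≥ R` the hypothesis of `S_nest` (1) holds with `T = (ε/6) ‖k‖` (`‖F^c‖ = exp (log ‖F^c‖)`, it is `≠ 0` by `LS.bd`), so `‖Λ_θ - g‖ ≤ (ε/2) ‖k‖ + 12 ≤ ε ‖k‖` if also `‖k‖ ≥ 24/ε`. -/
def S_nlam : Prop := ∀ (G : Set ℂ) (μ : ℂ → ℝ) (X Y g : ℂ → ℂ → ℂ), AL G μ X Y g → ∀ K : Set ℂ, IsCompact K → K ⊆ G → ∀ ε : ℝ, 0 < ε →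
  ∃ R : ℝ, ∀ k : ℂ, R ≤ ‖k‖ → ∀ z ∈ K, ∀ θ : ℝ, 0 ≤ θ → θ ≤ Real.pi / 2 → ‖Lam X Y g θ z k - g z k‖ ≤ ε * ‖k‖

/-- [N12] Area argument for injectivity (complex analysis only). Proof. Suppose `h z1 = h z2`, `z1 ≠ z2` in `G`. Take disjoint open discs `B1 ∋ z1`, `B2 ∋ z2` whose closures are in `G`. `h` is not constant on `B1`, `B2`, and `deriv h` is not identically zero on any disc (identity theorem, `G` is preconnected), so `deriv h` has finitely many zeros in each closed disc (isolated zeros, compactness). By the open mapping theorem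
`h '' B1 ∩ h '' B2` is a neighbourhood of `h z1`, so it contains a value `v` different from the finitely many critical values: `v = h z1' = h z2'`, `z_j' ∈ B_j`, `deriv h z_j' ≠ 0`. Inverse function theorem (`HasStrictDerivAt.toOpenPartialHomeomorph` / `toPartialHomeomorph`): open `N_j ⊆ B_j`, `z_j' ∈ N_j`, `h` injective on `N_j` and `ball v r ⊆ h '' N_j` for a small `r`.
Let `ψ ≥ 0` be a test function with `tsupport ψ ⊆ ball v r` and `∫ ψ > 0` (`ContDiffBump`), `M_j = N_j ∩ h⁻¹ (ball v r)`: `h : M_j → ball v r` is a bijection and `K_j = M_j ∩ h⁻¹ (tsupport ψ)` is compact (image of `tsupport ψ` under the continuous inverse). `η` a test function of `G`, `0 ≤ η ≤ 1`, `η = 1` on `K_1 ∪ K_2`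
(`exists_contMDiff_support_eq...` / `exists_smooth_tsupport_subset`-type). Then `∫ η ψ(h) ‖deriv h‖² ≥ ∑_j ∫_{M_j} ψ(h) ‖deriv h‖² = 2 ∫ ψ` (change of variables `integral_image_eq_integral_abs_det_fderiv_smul`; the real determinant of multiplication by `deriv h` is `‖deriv h‖²`), a contradiction to the hypothesis. -/
def S_ninjc : Prop := ∀ (G : Set ℂ) (h : ℂ → ℂ), IsOpen G → IsPreconnected G → DifferentiableOn ℂ h G → (¬ ∃ c, ∀ z ∈ G, h z = c) →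
  (∀ η ψ : ℂ → ℝ, RTF G η → (∀ z, 0 ≤ η z ∧ η z ≤ 1) → RTF univ ψ → (∀ z, 0 ≤ ψ z) → ∫ z, η z * ψ (h z) * ‖deriv h z‖ ^ 2 ≤ ∫ z, ψ z) → InjOn h G

/-- [N13] The limits are injective (8.3). Proof. Let `N_l = ‖k l‖ > 0` (drop finitely many `l`), `h_l = g(·,k l)/N_l`. As in `S_nlim`: `WD G (g(·,k l)) A_l B_l` (`S_bwlog`), `WD G h_l (A_l/N_l) (B_l/N_l)` with energies bounded on compact subsets of `G` (`LS.en` with `c = 1`). For test functions `η, ψ` as in `S_ninjc` and `ψ' z = ψ (z / N_l)` (`∫ ψ' = N_l² ∫ ψ`), `LS.deg` gives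
`∫ η ψ(h_l) (‖A_l‖² - ‖B_l‖²) ≤ N_l² ∫ ψ`, i.e. `∫ η ψ(h_l) (‖A_l/N_l‖² - ‖B_l/N_l‖²) ≤ ∫ ψ`. Let `l → ∞` (`S_awlim` and `S_bdeglim`): the left side tends to `∫ η ψ(h) (‖deriv h‖² - 0)` (the weak derivatives of `h` are `deriv h`, `0` by `S_smooth` (2), `S_wuniq`). `h` is not constant: `S_nasy` and `‖h z - I e z‖ ≤ C/‖z‖`. So `S_ninjc` applies. Non constancy gives a point with `deriv h ≠ 0`. -/
def S_ninj : Prop := ∀ (G : Set ℂ) (μ : ℂ → ℝ) (X Y g : ℂ → ℂ → ℂ), AL G μ X Y g → ∀ (k : ℕ → ℂ) (h : ℂ → ℂ),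
  Tendsto (fun l => ‖k l‖) atTop atTop → DifferentiableOn ℂ h G → LU G (fun l z => g z (k l) / (‖k l‖ : ℂ)) h →
  InjOn h G ∧ ∃ z ∈ G, deriv h z ≠ 0

/-- [N14] Equal logarithms outside. Proof. `z ∈ G` (`Adm.ext`). `exp (g z k) = X z k = X' z k = exp (g' z k)`, so `(g z k - g' z k)/(2π i)` is an integer, continuous in `k ∈ ℂ` (`LS.cg`), zero at `k = 0` (`LS.z0`): zero. (2): the integrands agree on the circle `‖z‖ = 2` (definition of `ac`, `FF`; `circleIntegral.integral_congr`).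
(3): `ac X Y c k = (1/(2π i)) ∮ e^{-ikz} FF X Y c z k dz` is continuous in `k` because the integrand is continuous in `(z, k)` on the compact circle times `ℂ` (`LS.cX`, `LS.cY`; `‖z‖ = 2` is in `G`; `intervalIntegral.continuous_parametric_intervalIntegral_of_continuous` or dominated convergence). -/
def S_ncoef : Prop :=
  (∀ (G : Set ℂ) (μ μ' : ℂ → ℝ) (X Y g X' Y' g' : ℂ → ℂ → ℂ), AL G μ X Y g → AL G μ' X' Y' g' → Agr X Y X' Y' →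
    ∀ z : ℂ, 1 / 2 < ‖z‖ → ∀ k, g z k = g' z k) ∧
  (∀ X Y X' Y' : ℂ → ℂ → ℂ, Agr X Y X' Y' → cA X Y = cA X' Y' ∧ cB X Y = cB X' Y') ∧
  (∀ (G : Set ℂ) (μ : ℂ → ℝ) (X Y g : ℂ → ℂ → ℂ), AL G μ X Y g → Continuous (cA X Y) ∧ Continuous (cB X Y))

/-- [N15] The limit is the same for the two structures (8.4). Proof. For `‖z‖ > 1/2` (in `G`) `g z k = g' z k` (`S_ncoef` (1)), so `h z = h' z` (pointwise limits). The open set `{‖z‖ > 1/2}` is contained in the connected open set `G`, `h - h'` is holomorphic on `G`: identity theorem. -/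
def S_nuni : Prop := ∀ (G : Set ℂ) (μ μ' : ℂ → ℝ) (X Y g X' Y' g' : ℂ → ℂ → ℂ), AL G μ X Y g → AL G μ' X' Y' g' → Agr X Y X' Y' →
  ∀ (k : ℕ → ℂ) (h h' : ℂ → ℂ), DifferentiableOn ℂ h G → DifferentiableOn ℂ h' G →
  LU G (fun l z => g z (k l) / (‖k l‖ : ℂ)) h → LU G (fun l z => g' z (k l) / (‖k l‖ : ℂ)) h' → ∀ z ∈ G, h z = h' z

/-- [N16] Lower bound for large `k` (8.4). Proof. Suppose not: for every `l` there are `k l`, `‖k l‖ ≥ l + 1`, `p l ∈ K`, `θ l ∈ [0, π/2]` with `‖Λ_{θ l}(p l.1, k l) - Λ'_{θ l}(p l.2, k l)‖ < ‖k l‖/(l+1)`. By `S_nlim` (twice, with `c = 1`, `γ = g(·,k l)` resp. `g'(·,k l)`, bounds from `LS.bd`) and compactness of `K` pass to a subsequence: `g(·,k l)/‖k l‖ → h`, `g'(·,k l)/‖k l‖ → h'`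
locally uniformly, holomorphic, `p l → p ∈ K`. `h = h'` on `G` (`S_nuni`). With the compact sets `K₁, K₂ ⊆ G` (projections of `K`) and `S_nlam`: `‖Λ_{θ l}(p l.1,k l) - g(p l.1, k l)‖ ≤ ε_l ‖k l‖`, `ε_l → 0`, same for `'`. So `h(p.1) - h'(p.2) = lim (g(p l.1,k l) - g'(p l.2,k l))/‖k l‖ = 0` (uniform convergence on `K₁`, `K₂` and continuity of `h`, `h'`): `h(p.1) = h(p.2)`, but `p.1 ≠ p.2`
and `h` is injective (`S_ninj`). -/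
def S_nlow : Prop := ∀ (G : Set ℂ) (μ μ' : ℂ → ℝ) (X Y g X' Y' g' : ℂ → ℂ → ℂ), AL G μ X Y g → AL G μ' X' Y' g' → Agr X Y X' Y' →
  ∀ K : Set (ℂ × ℂ), IsCompact K → (∀ p ∈ K, p.1 ∈ G ∧ p.2 ∈ G ∧ p.1 ≠ p.2) →
  ∃ R c : ℝ, 0 < c ∧ ∀ p ∈ K, ∀ k : ℂ, R ≤ ‖k‖ → ∀ θ : ℝ, 0 ≤ θ → θ ≤ Real.pi / 2 →
    c * ‖k‖ ≤ ‖Lam X Y g θ p.1 k - Lam X' Y' g' θ p.2 k‖

/-! ## C. Section 9: the `k`-plane -/

/-- [N17] Difference of two solutions of the `k`-equation. Proof. Subtract the two identities `KE`: `∫ (h - h') db φ = - ∫ b φ` with `b = B (exp (-2 i Im h) - exp (-2 i Im h'))/2` (all integrands are continuous with compact support), and `‖exp (-2 i s) - exp (-2 i t)‖ ≤ 2 |s - t|`, `|Im h - Im h'| ≤ ‖h - h'‖`. -/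
def S_nkd : Prop := ∀ A B h h' : ℂ → ℂ, Continuous A → Continuous B → Continuous h → Continuous h' → KE A B h → KE A B h' →
  ∃ b : ℂ → ℂ, Continuous b ∧ (∀ k, ‖b k‖ ≤ ‖B k‖ * ‖h k - h' k‖) ∧ WB (fun k => h k - h' k) b

/-- [N19] Factorisation of the differences. Proof. `A := cA X Y = cA X' Y'`, `B := cB X Y = cB X' Y'` are continuous (`S_ncoef` (2), (3)); for `z, w ∈ G` the functions `h = Λ_θ(z,·)`, `h' = Λ'_θ(w,·)` are continuous on `ℂ` (`S_nalg`, last part) and satisfy `KE A B` (`LS.keq`). `S_nkd` gives `b` with `‖b k‖ ≤ ‖B k‖ ‖h k - h' k‖`, `WB (h - h') b`;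
with `M₀ = sup_{‖k‖ ≤ R} ‖B k‖` (compactness, independent of `z, w`) apply `S_bsim` (its test functions are among those of `WB`) for `ρ ≤ R`: `M = C M₀`. -/
def S_nfac : Prop := ∀ (G : Set ℂ) (μ μ' : ℂ → ℝ) (X Y g X' Y' g' : ℂ → ℂ → ℂ), AL G μ X Y g → AL G μ' X' Y' g' → Agr X Y X' Y' →
  ∀ θ : ℝ, 0 ≤ θ → θ ≤ Real.pi / 2 → ∀ R : ℝ, 0 < R → ∃ M : ℝ, 0 ≤ M ∧ ∀ z ∈ G, ∀ w ∈ G, ∀ ρ : ℝ, 0 < ρ → ρ ≤ R →
    ∃ ω Φ : ℂ → ℂ, (∀ k, ‖ω k‖ ≤ M * ρ) ∧ DifferentiableOn ℂ Φ (ball 0 ρ) ∧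
      ∀ k ∈ ball (0 : ℂ) ρ, Lam X Y g θ z k - Lam X' Y' g' θ w k = exp (ω k) * Φ k

/-- [N20] A separated pair far away. Proof. `C ≥ 1` from `S_nfar` for both structures. Take `z = r`, `w = -r`, `r` real and large (`r ≥ 2`, so `z, w ∈ G`), `D(k) = Λ_θ(z,k) - Λ'_θ(w,k)`. For all `k`: `‖D(k) - 2 I k r‖ ≤ 2 C ‖k‖/r + 24`, so `‖D(k)‖ ≥ (2 r - 2 C/r) ‖k‖ - 24 ≥ r ‖k‖ - 24 ≥ ‖k‖` if `‖k‖ ≥ 24/(r-1)` and `r² ≥ 2 C`.
For `‖k‖ ≤ 24/(r-1)`: `C ‖k‖ ≤ r` if `r` is large, so `‖D(k) - 2 I k r‖ ≤ 2 C ‖k‖/r` (the terms `I θ` cancel) and `‖D(k)‖ ≥ ‖k‖`. So `c = 1`. -/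
def S_nsepfar : Prop := ∀ (G : Set ℂ) (μ μ' : ℂ → ℝ) (X Y g X' Y' g' : ℂ → ℂ → ℂ), AL G μ X Y g → AL G μ' X' Y' g' →
  ∀ θ : ℝ, 0 ≤ θ → θ ≤ Real.pi / 2 → ∃ z ∈ G, ∃ w ∈ G, z ≠ w ∧ ∃ c : ℝ, 0 < c ∧ ∀ k, c * ‖k‖ ≤ ‖Lam X Y g θ z k - Lam X' Y' g' θ w k‖

/-- [N21] The separated pairs are relatively closed. Proof. Let `K` be a compact neighbourhood of `(z,w)` in `W = {(z',w') ∈ G × G, z' ≠ w'}` (product of closed discs), `R, c₀` from `CA.low` (take `R ≥ 1`), `M` from `CA.fac` for the radius `2R`, `C = 2 M R`. Let `(z',w') ∈ K` with `SepP D z' w'` (constant `c'`), `D(k) := D z' w' k = e^{ω} Φ` on `ball 0 (2R)`, `‖ω‖ ≤ C`. Then `Φ 0 = 0` (`CA.zero`), and `‖Φ k‖ ≥ e^{-C} c' ‖k‖`,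
so `Ψ k = Φ k / k` (`Ψ 0 = deriv Φ 0`; `dslope`) is holomorphic on `ball 0 (2R)` without zeros (`‖Ψ 0‖ ≥ e^{-C} c'` by continuity). On `‖k‖ = R`: `‖Ψ k‖ ≥ e^{-C} ‖D(k)‖/R ≥ e^{-C} c₀`. Maximum principle for `1/Ψ` (`Complex.norm_le_of_forall_mem_frontier_norm_le`): `‖Ψ‖ ≥ e^{-C} c₀` on `‖k‖ ≤ R`, so `‖D(k)‖ ≥ e^{-2C} c₀ ‖k‖` there.
So all separated pairs in `K` have the constant `c₁ = min (e^{-2C} c₀) c₀` (for `‖k‖ ≥ R` use `CA.low`), and by continuity of `D` (`CA.cont`) and the hypothesis (separated pairs arbitrarily close to `(z,w)`) `‖D z w k‖ ≥ c₁ ‖k‖` for every `k`. -/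
def S_nclosed : Prop := ∀ (G : Set ℂ) (D : ℂ → ℂ → ℂ → ℂ), IsOpen G → CA G D → ∀ z ∈ G, ∀ w ∈ G, z ≠ w →
  (∀ ε : ℝ, 0 < ε → ∃ z' ∈ G, ∃ w' ∈ G, z' ≠ w' ∧ ‖z' - z‖ < ε ∧ ‖w' - w‖ < ε ∧ SepP D z' w') → SepP D z w

/-- [N22] The separated pairs are open. Proof. Let `c'` be the constant of `(z,w)`, `K` a compact neighbourhood of `(z,w)` in `W` as in `S_nclosed`, `R ≥ 1`, `c₀` from `CA.low`. `M` from `CA.fac` for the radius `2`; choose `0 < r ≤ 1` with `2 M r ≤ 1/16`. For `(z',w')` near `(z,w)` write `D z' w' k = e^{ω'} Φ'`, `D z w k = e^{ω} Φ` on `ball 0 (2r)`, `‖ω‖, ‖ω'‖ ≤ 1/16`. `Φ 0 = Φ' 0 = 0`, `Φ k ≠ 0` for `k ≠ 0` and `deriv Φ 0 ≠ 0`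
(as in `S_nclosed`), so `Q = Φ'/Φ` extends to a holomorphic function on `ball 0 (2r)` (quotient of `dslope Φ' 0` and `dslope Φ 0`). On `‖k‖ = r`: `‖D z' w' k - D z w k‖ ≤ c' r/8` for `(z',w')` close to `(z,w)` (uniform continuity on compact sets), so `‖D z' w' k / D z w k - 1‖ ≤ 1/8`; `Q = (D z' w' k/D z w k) e^{ω - ω'}`, `‖e^{ω-ω'} - 1‖ ≤ 1/4`, so `‖Q - 1‖ ≤ (1/8)(5/4) + 1/4 ≤ 1/2` on the circle and (maximum principle) on the closed disc.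
Hence `‖Φ'‖ ≥ ‖Φ‖/2` and `‖D z' w' k‖ ≥ e^{-1/8} ‖D z w k‖/2 ≥ (c'/4) ‖k‖` for `‖k‖ ≤ r`. For `r ≤ ‖k‖ ≤ R`: `‖D z' w' k - D z w k‖ ≤ c' r/2 ≤ (c'/2) ‖k‖` for `(z',w')` close to `(z,w)` (uniform continuity), and for `‖k‖ ≥ R`: `CA.low`. -/
def S_nopen : Prop := ∀ (G : Set ℂ) (D : ℂ → ℂ → ℂ → ℂ), IsOpen G → CA G D → ∀ z ∈ G, ∀ w ∈ G, z ≠ w → SepP D z w →
  ∃ ε : ℝ, 0 < ε ∧ ∀ z' ∈ G, ∀ w' ∈ G, ‖z' - z‖ < ε → ‖w' - w‖ < ε → SepP D z' w'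

/-- [N24] Continuation. Proof. `W = {p | p.1 ∈ G ∧ p.2 ∈ G ∧ p.1 ≠ p.2}` is open and preconnected (`S_bnd`), `S = {p ∈ W | SepP D p.1 p.2}` is nonempty, open (`S_nopen`) and relatively closed in `W` (`S_nclosed`): `S = W` (`IsPreconnected.subset_of_closure_inter_subset` or `IsPreconnected.subset_clopen`-type). -/
def S_ncont : Prop := ∀ (G : Set ℂ) (D : ℂ → ℂ → ℂ → ℂ), IsOpen G → IsConnected G → CA G D → (∃ z ∈ G, ∃ w ∈ G, z ≠ w ∧ SepP D z w) →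
  ∀ z ∈ G, ∀ w ∈ G, z ≠ w → SepP D z w

/-- [N25] Section 9. Proof. `D z w k = Λ_θ(z,k) - Λ'_θ(w,k)`. `CA G D`: `cont` from `S_nalg` (last part, both structures; compose with the projections), `low` from `S_nlow`, `zero` from `S_nalg` (third part: both are `-iθ`), `fac` from `S_nfac`. `S_nsepfar` gives a separated pair; `S_ncont`: `‖D z w k‖ ≥ c ‖k‖ > 0`. -/
def S_nsep : Prop := ∀ (G : Set ℂ) (μ μ' : ℂ → ℝ) (X Y g X' Y' g' : ℂ → ℂ → ℂ), AL G μ X Y g → AL G μ' X' Y' g' → Agr X Y X' Y' →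
  ∀ θ : ℝ, 0 ≤ θ → θ ≤ Real.pi / 2 → ∀ z ∈ G, ∀ w ∈ G, z ≠ w → ∀ k : ℂ, k ≠ 0 → Lam X Y g θ z k ≠ Lam X' Y' g' θ w k

/-! ## D. Section 10 -/

/-- [N26] The property `degree one` does not depend on the radius and is locally constant. Here `f w ≠ p z` for `z ≠ w`. Proof. (1) Let `r < r'` (say). On the compact annulus `r/2 ≤ ‖w - z‖ ≤ r'` the continuous function `‖f w - p z‖` has no zero, so it is `≥ δ₁ > 0` there, and for `ψ` supported in `ball 0 δ₁` the integrals over `ball z r` and `ball z r'` are equal (the integrands vanish on the difference). (2) Let `closedBall z r ⊆ G`, `‖f w - p z‖ ≥ 3δ₂` on the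
collar `r/2 ≤ ‖w - z‖ ≤ r`, and `‖z' - z‖ < r/4` so small that `‖p z' - p z‖ ≤ δ₂`. Local degree (`S_bdegloc` with `r1 = r/2`, `r2 = r`) on `ball z r` for `f - p z` and `f - p z'` (same weak derivatives `A, B`; on the collar `‖f - p z‖ ≥ 2 δ₂`, `‖(f - p z) - (f - p z')‖ ≤ δ₂`): for `ψ` supported in `ball 0 δ₂` `∫_{ball z r} ψ(f - p z) J = ∫_{ball z r} ψ(f - p z') J`, `J = ‖A‖² - ‖B‖²`.
As `f w ≠ p z'` for `w ≠ z'`, on the compact set `closedBall z r \ ball z' (r/4)` (note `ball z' (r/4) ⊆ ball z r`) `‖f w - p z'‖ ≥ δ₃ > 0`, so for `ψ` supported in `ball 0 δ₃` the last integral is the integral over `ball z' (r/4)`. Hence `Deg1 f A B z (p z) r ↔ Deg1 f A B z' (p z') (r/4)`. With (1) this gives the claim. -/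
def S_nNloc : Prop := ∀ (G : Set ℂ) (f A B p : ℂ → ℂ), IsOpen G → ContinuousOn f G → WD G f A B → ContinuousOn p G →
  (∀ z ∈ G, ∀ w ∈ G, z ≠ w → f w ≠ p z) → ∀ z ∈ G, ∃ ε : ℝ, 0 < ε ∧ ∀ z' ∈ G, ‖z' - z‖ < ε →
    ((∃ r : ℝ, 0 < r ∧ closedBall z r ⊆ G ∧ Deg1 f A B z (p z) r) ↔ (∃ r : ℝ, 0 < r ∧ closedBall z' r ⊆ G ∧ Deg1 f A B z' (p z') r))

/-- [N27] Degree one everywhere implies equality. Proof. By `S_nNloc` the set `{z ∈ G | ∃ r > 0, closedBall z r ⊆ G ∧ Deg1 f A B z (p z) r}` and its complement in `G` are open, `G` is preconnected, the set is nonempty: it is `G`. Let `z ∈ G`, `r`, `δ` as in `Deg1`. If `f z ≠ p z`, then `f w ≠ p z` for all `w ∈ closedBall z r`, so `‖f w - p z‖ ≥ ε > 0` there (compactness); take `ψ ≥ 0`, a test function supported in `ball 0 (min δ ε)`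
with `∫ ψ > 0`: `ψ (f w - p z) = 0` on the disc, so `0 = ∫ ψ > 0`, a contradiction. -/
def S_nNeq : Prop := ∀ (G : Set ℂ) (f A B p : ℂ → ℂ), IsOpen G → IsPreconnected G → ContinuousOn f G → WD G f A B → ContinuousOn p G →
  (∀ z ∈ G, ∀ w ∈ G, z ≠ w → f w ≠ p z) → (∃ z ∈ G, ∃ r : ℝ, 0 < r ∧ closedBall z r ⊆ G ∧ Deg1 f A B z (p z) r) → ∀ z ∈ G, f z = p z

/-- [N28] Degree one near infinity. Proof. `k ≠ 0` is fixed. `C` from `S_nfar` (both structures). Take `z` real, `z ≥ 4 + 16 C + C ‖k‖`, `r = 1`: for `w ∈ closedBall z 1`: `‖w‖ ≥ z - 1 ≥ 2`, `C ‖k‖ ≤ ‖w‖`, so with `f w = Λ'_θ(w,k)`, `v = Λ_θ(z,k)`: `‖(f w - v) - I k (w - z)‖ ≤ C ‖k‖/‖w‖ + C ‖k‖/‖z‖ ≤ ‖k‖/8` (the terms `Iθ` cancel). Local degree (`S_bdegloc` with `z0 = z`, `r1 = 1/2`, `r2 = 1`) for `f - v` (weak derivatives `A, B`) and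
`f' w = I k (w - z)` (weak derivatives `I k`, `0`): on the collar `1/2 ≤ ‖w - z‖ ≤ 1`, `‖f'‖ ≥ ‖k‖/2`, so `‖f - v‖ ≥ 3‖k‖/8 = 2δ` with `δ = 3‖k‖/16`, and `‖(f - v) - f'‖ ≤ ‖k‖/8 ≤ δ`. For `ψ` supported in `ball 0 δ`: `∫_{ball z 1} ψ(f - v)(‖A‖² - ‖B‖²) = ∫_{ball z 1} ψ(I k (w - z)) ‖k‖² dw = ∫ ψ` (linear change of variables; `δ ≤ ‖k‖`). -/
def S_nNfar : Prop := ∀ (G : Set ℂ) (μ μ' : ℂ → ℝ) (X Y g X' Y' g' : ℂ → ℂ → ℂ), AL G μ X Y g → AL G μ' X' Y' g' →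
  ∀ (θ : ℝ) (k : ℂ), 0 ≤ θ → θ ≤ Real.pi / 2 → k ≠ 0 → ∀ A B : ℂ → ℂ, WD G (fun w => Lam X' Y' g' θ w k) A B →
  ∃ z ∈ G, ∃ r : ℝ, 0 < r ∧ closedBall z r ⊆ G ∧ Deg1 (fun w => Lam X' Y' g' θ w k) A B z (Lam X Y g θ z k) r

/-- [N29] `Λ_θ = Λ'_θ` on `G`. Proof. `k = 0`: both are `-iθ` (`S_nalg`). `k ≠ 0`: `f w = Λ'_θ(w,k)` with `A, B` from `S_nlwd`, `p z = Λ_θ(z,k)`; `f w ≠ p z` for `z ≠ w` (`S_nsep`); `S_nNfar` gives the starting point; `S_nNeq`: `f z = p z`. -/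
def S_nLam : Prop := ∀ (G : Set ℂ) (μ μ' : ℂ → ℝ) (X Y g X' Y' g' : ℂ → ℂ → ℂ), AL G μ X Y g → AL G μ' X' Y' g' → Agr X Y X' Y' →
  ∀ θ : ℝ, 0 ≤ θ → θ ≤ Real.pi / 2 → ∀ z ∈ G, ∀ k : ℂ, Lam X Y g θ z k = Lam X' Y' g' θ z k

/-- [N30] Equal solutions. Proof. Exponentiate `S_nLam` for `θ = 0` and `θ = π/2` (`S_nalg` (2)): `Re X - I Re Y = Re X' - I Re Y'`, and (`exp (-(I π/2)) = -I`, `Re (-I X) = Im X`) `Im X - I Im Y = Im X' - I Im Y'`. -/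
def S_nXY : Prop := ∀ (G : Set ℂ) (μ μ' : ℂ → ℝ) (X Y g X' Y' g' : ℂ → ℂ → ℂ), AL G μ X Y g → AL G μ' X' Y' g' → Agr X Y X' Y' →
  ∀ z ∈ G, ∀ k : ℂ, X z k = X' z k ∧ Y z k = Y' z k

/-- [N31] Equal solutions give equal coefficients (10.4). Proof. Let `k l = (l + 1 : ℂ)`. `LS.cl`, `Cl.en`: `WD G X(·,k l) A_l B_l`, `B_l = μ conj A_l` a.e. on `G`; also for `μ'` (`X' = X` on `G`; `S_wuniq`), so `(μ - μ') A_l = 0` a.e. on `G`: with `E = {z ∈ G | μ z ≠ μ' z}`, `A_l = 0` a.e. on `E` for all `l`. `WD G g(·,k l) (A_l/X) (B_l/X)` (`S_bwlog`).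
`S_nlim` (`c = 1`, `γ l = g(·,k l)`): along a subsequence `g(·,k l)/‖k l‖ → h` locally uniformly, `h` holomorphic, and the weak derivatives `A_l/(‖k l‖ X)` are bounded in `L²(K)` (`LS.en`), so (`S_awlim`, and `S_smooth` (2), `S_wuniq` to identify the limit) they converge weakly in `L²(K)` to `deriv h` for every compact `K ⊆ G`: testing with `1_{E ∩ K} conj (deriv h)`: `∫_{E∩K} ‖deriv h‖² = lim ∫_{E ∩ K} conj (deriv h) A_l/(‖k l‖ X) = 0`, `deriv h = 0` a.e. on `E ∩ K`, so a.e. on `E`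
(`G` is a countable union of compact sets). By `S_ninj` `deriv h` is not identically zero on the connected open set `G`, so its zero set in `G` is countable (isolated zeros), hence a null set: `E` is a null set. -/
def S_nmu : Prop := ∀ (G : Set ℂ) (μ μ' : ℂ → ℝ) (X Y g X' Y' g' : ℂ → ℂ → ℂ), AL G μ X Y g → AL G μ' X' Y' g' →
  (∀ z ∈ G, ∀ k : ℂ, X z k = X' z k) → ∀ᵐ z ∂(volume.restrict G), μ z = μ' z

/-- [N32] Conclusion of part III. Proof. `S_nXY`, `S_nmu`. -/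
def S_concl : Prop := ∀ (G : Set ℂ) (k0 k0' : ℝ) (μ μ' : ℂ → ℝ) (X Y g X' Y' g' : ℂ → ℂ → ℂ), Adm G k0 μ → Adm G k0' μ' →
  LS G μ X Y g → LS G μ' X' Y' g' → (∀ z : ℂ, 1 / 2 < ‖z‖ → ∀ k : ℂ, X z k = X' z k ∧ Y z k = Y' z k) →
  ∀ᵐ z ∂(volume.restrict G), μ z = μ' z

theorem piece_concl (h1 : S_nXY) (h2 : S_nmu) : S_concl := by
  intro G k0 k0' μ μ' X Y g X' Y' g' ha ha' hl hl' hag
  exact h2 G μ μ' X Y g X' Y' g' ⟨⟨k0, ha⟩, hl⟩ ⟨⟨k0', ha'⟩, hl'⟩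
    (fun z hz k => (h1 G μ μ' X Y g X' Y' g' ⟨⟨k0, ha⟩, hl⟩ ⟨⟨k0', ha'⟩, hl'⟩ hag z hz k).1)

end

end Cal
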