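import Pool.Agent.Lib.MP_4ea4c7_an.StmH6

/-!
# MP_4ea4c7_an, stage 2, part 9: from the coefficients `γ κ²` to the conductivities (paper 10.5)
-/

open MeasureTheory Complex Metric Set Filter Topology
open scoped ComplexConjugate ENNReal NNReal

namespace Cal

noncomputable section

/-- [e1] The function `1/κ` is a solution. Proof. `κ` is continuous, positive, with weak gradient `Kg` on `G`: `S_chain` (`G w = 1/w`, via `S_bridge`) gives `WG G (1/κ) (-Kg/κ²)`. For a test function `φ` of `G ∩ ball 0 (5/8)`: `γ κ² ip (-Kg/κ²) (gr φ) = - γ ip Kg (gr φ)`, with integral zero (`sol`). -/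
def S_einv : Prop := ∀ (G : Set ℂ) (γ κ : ℂ → ℝ) (Kg : ℂ → ℂ), IsOpen G → KP G γ κ Kg →
  WG G (fun z => 1 / κ z) (fun z => -(Kg z) / ((κ z : ℂ) ^ 2)) ∧
  ∀ φ : ℂ → ℝ, RTF (G ∩ ball 0 (5 / 8)) φ → ∫ z, (γ z * κ z ^ 2) * ip (-(Kg z) / ((κ z : ℂ) ^ 2)) (gr φ z) = 0

/-- [e2] Unique continuation for real solutions in a ball. Proof. `σ` bounded between positive constants on the ball (after shrinking: work on `ball z0 r`, `r < ρ`, arbitrary). `X = σ Fg` is in `L²loc`, divergence free: `S_aconj` gives `s` with gradient `I σ Fg` on the ball. `F = f + i s`: `WD` with `A = (conj Fg - i conj (I σ Fg))/2 ...`: from `∇f = conj A + B = Fg`, `∇s = I (conj A - B) = I σ Fg`: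
`conj A = (1+σ) Fg/2`, `B = (1-σ) Fg/2 = μ conj A`, `μ = (1-σ)/(1+σ)`, `|μ| ≤ q < 1` (`S_bridge` (2), `S_basic`). `S_areg` (`U` = the ball; extend `μ` by zero off the ball): `F = F'` a.e., `F'` continuous on the ball; `Re F' = f` everywhere on the ball (both continuous). On the open set `V` (take a smaller ball `V₁ ⊆ V`) `f = 0`, so `Fg = 0` a.e. on `V₁` (`S_wuniq`), the gradient of `Im F'` is zero,
`Im F' = s0` constant on `V₁` (`S_aconst`). `F' - i s0` is a continuous solution on the ball (`S_basic`, `S_smooth`), zero on `V₁`: `S_aucp`. -/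
def S_eucb : Prop := ∀ (z0 : ℂ) (ρ c C : ℝ) (σ f : ℂ → ℝ) (Fg : ℂ → ℂ), 0 < ρ → ball z0 ρ ⊆ ball 0 (5 / 8) → Measurable σ → 0 < c → (∀ z ∈ ball z0 ρ, c ≤ σ z ∧ σ z ≤ C) → ContinuousOn f (ball z0 ρ) → WG (ball z0 ρ) f Fg →
  (∀ φ : ℂ → ℝ, RTF (ball z0 ρ) φ → ∫ z, σ z * ip (Fg z) (gr φ z) = 0) → ∀ V : Set ℂ, IsOpen V → V.Nonempty → V ⊆ ball z0 ρ → (∀ z ∈ V, f z = 0) → ∀ z ∈ ball z0 ρ, f z = 0

/-- [e3] Section 10.5. Proof. `muk` is injective in `σ_j = γ_j κ_j² ≥ 0`: `σ_1 = σ_2 =: σ` a.e. on `G`. `O = G ∩ ball 0 (5/8)` is open and connected (`S_bgr`). `f = 1/κ_1 - 1/κ_2` is continuous on `G`, `WG` with `Fg = -K1/κ_1² + K2/κ_2²`, `∫ σ ip Fg (gr φ) = 0` for test functions of `O` (`S_einv` twice; `σ = σ_j` a.e.). On `{1/2 < ‖z‖ < 5/8}`, an open nonempty subset of `O` disjoint from `Ω`, `κ_1 = κ_2` a.e., hence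
everywhere (continuous), `f = 0`. The set of points of `O` near which `f = 0` is open, nonempty and relatively closed in `O`: for a limit point `z* ∈ O` take a ball around `z*` with closure in `O`, on which `σ = γ_1 κ_1²` is between positive constants, and `S_eucb`. So `κ_1 = κ_2` on `O ⊇ Ω`, and `γ_1 = σ/κ_1² = σ/κ_2² = γ_2` a.e. on `Ω`. -/
def S_last : Prop := ∀ (Ω G : Set ℂ) (c C : ℝ) (γ₁ γ₂ κ₁ κ₂ : ℂ → ℝ) (K₁ K₂ : ℂ → ℂ), Pos Ω G → 0 < c → Cond c C γ₁ → Cond c C γ₂ → KP G γ₁ κ₁ K₁ → KP G γ₂ κ₂ K₂ →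
  (∀ᵐ z, z ∉ Ω → κ₁ z = κ₂ z) → (∀ᵐ z ∂(volume.restrict G), muk γ₁ κ₁ z = muk γ₂ κ₂ z) → ∀ᵐ z ∂(volume.restrict Ω), γ₁ z = γ₂ z

end

end Cal
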