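import Pool.Agent.Lib.MP_4ea4c7_an.StmH0
import Pool.Agent.Lib.MP_4ea4c7_an.StmH2
import Pool.Agent.Lib.MP_4ea4c7_an.StmH6
import Pool.Agent.Lib.MP_4ea4c7_an.StmH8
import Pool.Agent.Lib.MP_4ea4c7_an.StmH9

/-!
# Piece mainN: assembly of the main theorem in normalised position
-/

open MeasureTheory Complex Metric Set Filter Topology
open scoped ComplexConjugate ENNReal NNReal

namespace Cal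

noncomputable section

theorem piece_mainN (h1 : S_kap) (h2 : S_kwt) (h3 : S_exLS) (h4 : S_Tlem) (h5 : S_concl) (h6 : S_last) : S_mainN := by
  intro Ω G c C γ₁ γ₂ hP hc hc1 hc2 ho1 ho2 hTT
  obtain ⟨κ₁, κ₂, K₁, K₂, hκ₁, hκ₂, hH0, hoff⟩ := h1 Ω G c C γ₁ γ₂ hP hc hc1 hc2 ho1 ho2 hTT
  have ad1 := (h2 Ω G c C γ₁ κ₁ K₁ hP hc hc1 ho1 hκ₁).1
  have ad2 := (h2 Ω G c C γ₂ κ₂ K₂ hP hc hc2 ho2 hκ₂).1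
  obtain ⟨X₁, Y₁, g₁, hL1⟩ := h3 G _ _ ad1
  obtain ⟨X₂, Y₂, g₂, hL2⟩ := h3 G _ _ ad2
  have hT := h4 Ω G c C γ₁ γ₂ κ₁ κ₂ K₁ K₂ X₁ Y₁ g₁ X₂ Y₂ g₂ hP hc hc1 hc2 ho1 ho2 hTT hκ₁ hκ₂ hH0 hL1 hL2
  have hmu := h5 G _ _ _ _ X₁ Y₁ g₁ X₂ Y₂ g₂ ad1 ad2 hL1 hL2 fun z hz k => hT k z hz
  exact h6 Ω G c C γ₁ γ₂ κ₁ κ₂ K₁ K₂ hP hc hc1 hc2 hκ₁ hκ₂ hoff hmu

end

end Cal
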