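import Pool.Agent.Lib.MP_4ea4c7_an.Stm1

/-! Piece A1: local approximation of weakly differentiable functions by smooth ones. -/

open MeasureTheory Complex Metric Set Filter Topology
open scoped ComplexConjugate ENNReal NNReal

namespace Cal

/-- the derivative of the mollification -/
private lemma mo_fderiv {ρ : ℂ → ℝ} (hρ : ContDiff ℝ (⊤ : ℕ∞) ρ) (hc : HasCompactSupport ρ) {g : ℂ → ℂ}
    (hg : LocallyIntegrable g volume) (z v : ℂ) :
    fderiv ℝ (mol ρ g) z v = ∫ ζ, ((fderiv ℝ ρ (z - ζ) v : ℝ) : ℂ) * g ζ := by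
  have e : mol ρ g = convolution ρ g (ContinuousLinearMap.lsmul ℝ ℝ) volume := by
    funext w
    unfold mol convolution
    rw [← integral_sub_left_eq_self (fun t => (ContinuousLinearMap.lsmul ℝ ℝ (ρ t)) (g (w - t))) volume w]
    refine integral_congr_ae (ae_of_all _ fun ζ => ?_)
    simp
  have h := (hc.hasFDerivAt_convolution_left (ContinuousLinearMap.lsmul ℝ ℝ) (hρ.of_le (by exact_mod_cast le_top))
    hg z).fderiv
  rw [e, h]
  unfold convolution
  have hex : ConvolutionExists (fderiv ℝ ρ) g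
      (ContinuousLinearMap.precompL ℂ (ContinuousLinearMap.lsmul ℝ ℝ)) volume :=
    (hc.fderiv ℝ).convolutionExists_left _ (hρ.continuous_fderiv (by simp)) hg
  rw [ContinuousLinearMap.integral_apply (hex z)]
  rw [← integral_sub_left_eq_self (fun t => ((ContinuousLinearMap.precompL ℂ
    (ContinuousLinearMap.lsmul ℝ ℝ) (fderiv ℝ ρ t)) (g (z - t))) v) volume z]
  refine integral_congr_ae (ae_of_all _ fun ζ => ?_)
  simp [ContinuousLinearMap.precompL_apply]

private lemma mo_int {ρ : ℂ → ℝ} (hρ : ContDiff ℝ (⊤ : ℕ∞) ρ) {r : ℝ} (hr : ∀ z, r ≤ ‖z‖ → ρ z = 0) {g : ℂ → ℂ}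
    (hg : LocallyIntegrable g volume) (z v : ℂ) :
    Integrable (fun ζ => ((fderiv ℝ ρ (z - ζ) v : ℝ) : ℂ) * g ζ) volume := by
  have hk : Continuous (fun ζ : ℂ => fderiv ℝ ρ (z - ζ) v) :=
    ((hρ.continuous_fderiv (by simp)).comp (continuous_const.sub continuous_id)).clm_apply continuous_const
  have hks : HasCompactSupport (fun ζ : ℂ => fderiv ℝ ρ (z - ζ) v) := by
    refine HasCompactSupport.intro (isCompact_closedBall z r) ?_
    intro ζ hζ
    have : z - ζ ∉ tsupport ρ := by
      intro h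
      have hsub : tsupport ρ ⊆ closedBall 0 r := by
        refine closure_minimal ?_ isClosed_closedBall
        intro w hw
        rw [mem_closedBall_zero_iff]
        by_contra hlt
        exact hw (hr w (le_of_lt (not_le.1 hlt)))
      have h2 := hsub h
      rw [mem_closedBall_zero_iff] at h2
      apply hζ
      rw [mem_closedBall, dist_comm, dist_eq_norm]
      exact h2
    rw [fderiv_of_notMem_tsupport ℝ this]
    simp
  have := hg.integrable_smul_left_of_hasCompactSupport hk hks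
  refine this.congr (ae_of_all _ fun ζ => ?_)
  simp

/-- the test function `ζ ↦ ρ (z - ζ)` -/
private lemma mo_test {ρ : ℂ → ℝ} (hρ : ContDiff ℝ (⊤ : ℕ∞) ρ) {r : ℝ} (hr : ∀ z, r ≤ ‖z‖ → ρ z = 0)
    {U : Set ℂ} (z : ℂ) (hU : closedBall z r ⊆ U) : TF U (fun ζ => ((ρ (z - ζ) : ℝ) : ℂ)) := by
  have hsupp : Function.support (fun ζ : ℂ => ((ρ (z - ζ) : ℝ) : ℂ)) ⊆ closedBall z r := by
    intro ζ hζ
    rw [mem_closedBall, dist_comm, dist_eq_norm]
    by_contra hlt
    apply hζ
    show ((ρ (z - ζ) : ℝ) : ℂ) = 0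
    rw [hr _ (le_of_lt (not_le.1 hlt))]
    simp
  refine ⟨?_, ?_, ?_⟩
  · exact Complex.ofRealCLM.contDiff.comp (hρ.comp (contDiff_const.sub contDiff_id))
  · refine HasCompactSupport.intro (isCompact_closedBall z r) ?_
    intro ζ hζ
    by_contra h
    exact hζ (hsupp h)
  · exact (closure_minimal hsupp isClosed_closedBall).trans hU

private lemma mo_testd {ρ : ℂ → ℝ} (hρ : ContDiff ℝ (⊤ : ℕ∞) ρ) (z ζ v : ℂ) :
    fderiv ℝ (fun ζ => ((ρ (z - ζ) : ℝ) : ℂ)) ζ v = -((fderiv ℝ ρ (z - ζ) v : ℝ) : ℂ) := by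
  have h1 : HasFDerivAt ρ (fderiv ℝ ρ (z - ζ)) (z - ζ) :=
    (hρ.differentiable (by simp)).differentiableAt.hasFDerivAt
  have h2 : HasFDerivAt (fun ζ : ℂ => z - ζ) (-(ContinuousLinearMap.id ℝ ℂ)) ζ := by
    simpa using (hasFDerivAt_id ζ).const_sub z
  have h3 := (Complex.ofRealCLM.hasFDerivAt (x := ρ (z - ζ))).comp ζ (h1.comp ζ h2)
  have h4 : HasFDerivAt (fun ζ => ((ρ (z - ζ) : ℝ) : ℂ))
    (Complex.ofRealCLM.comp ((fderiv ℝ ρ (z - ζ)).comp (-(ContinuousLinearMap.id ℝ ℂ)))) ζ := h3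
  rw [h4.fderiv]
  simp

private lemma mo_cut {K : Set ℂ} {δ : ℝ} (hδ : 0 < δ) : ∃ χ : ℂ → ℝ, Continuous χ ∧
    (∀ z, 0 ≤ χ z ∧ χ z ≤ 1) ∧ (∀ z ∈ cthickening (δ / 2) K, χ z = 1) ∧
    (∀ z, z ∉ cthickening δ K → χ z = 0) := by
  have h2 : 0 < δ / 2 := by linarith
  refine ⟨fun z => ((thickenedIndicator h2 (cthickening (δ / 2) K) z : ℝ≥0) : ℝ), ?_, ?_, ?_, ?_⟩
  · exact NNReal.continuous_coe.comp (thickenedIndicator h2 (cthickening (δ / 2) K)).continuous
  · intro z
    refine ⟨NNReal.coe_nonneg _, ?_⟩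
    exact_mod_cast thickenedIndicator_le_one h2 _ z
  · intro z hz
    simp only
    rw [thickenedIndicator_one h2 _ hz]
    simp
  · intro z hz
    simp only
    rw [thickenedIndicator_zero h2]
    · simp
    · intro h
      apply hz
      have := thickening_cthickening_subset (δ / 2) h2.le K h
      rw [add_halves] at this
      exact thickening_subset_cthickening _ _ this

theorem piece_moll (h1 : S_bump) : S_moll := by
  intro U f A B hU hW K hK hKU
  obtain ⟨ρ, hρs, hρ0, hρc, hρi, hρr, hρm, hρL, hρu⟩ := h1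
  obtain ⟨δ, hδ, hδU⟩ := hK.exists_cthickening_subset_open hU hKU
  obtain ⟨χ, hχc, hχ1, hχK, hχ0⟩ := mo_cut (K := K) hδ
  obtain ⟨n₀, hn₀⟩ := exists_nat_one_div_lt (show (0 : ℝ) < δ / 2 by linarith)
  have hKδ : IsCompact (cthickening δ K) := hK.cthickening
  have hrad : ∀ n : ℕ, 1 / (((n + n₀ : ℕ) : ℝ) + 1) ≤ δ / 2 := by
    intro n
    refine le_trans ?_ hn₀.le
    apply one_div_le_one_div_of_le (by positivity)
    push_cast
    linarith [Nat.cast_nonneg (α := ℝ) n]
  -- cut off functions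
  have hcutL : ∀ h : ℂ → ℂ, L2loc U h → MemLp (fun z => (χ z : ℂ) * h z) 2 volume := by
    intro h hh
    have g1 : MemLp ((cthickening δ K).indicator h) 2 volume :=
      (memLp_indicator_iff_restrict hKδ.measurableSet).2 (hh _ hKδ hδU)
    have g2 : (fun z => (χ z : ℂ) * h z) = fun z => (χ z : ℂ) * (cthickening δ K).indicator h z := by
      funext z
      by_cases hz : z ∈ cthickening δ K
      · rw [indicator_of_mem hz]
      · rw [hχ0 z hz]
        simp
    rw [g2]
    refine g1.mono ?_ (ae_of_all _ fun z => ?_)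
    · exact (Complex.continuous_ofReal.comp hχc).aestronglyMeasurable.mul g1.1
    · rw [norm_mul, Complex.norm_real, Real.norm_of_nonneg (hχ1 z).1]
      exact mul_le_of_le_one_left (norm_nonneg _) (hχ1 z).2
  have hK2 : ∀ z ∈ K, χ z = 1 := fun z hz => hχK z (self_subset_cthickening K hz)
  set g : ℂ → ℂ := fun z => (χ z : ℂ) * f z with hg
  set gA : ℂ → ℂ := fun z => (χ z : ℂ) * A z with hgA
  set gB : ℂ → ℂ := fun z => (χ z : ℂ) * B z with hgB
  have hgL := hcutL f hW.f2
  have hgAL := hcutL A hW.A2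
  have hgBL := hcutL B hW.B2
  have hgl : LocallyIntegrable g volume := hgL.locallyIntegrable (by norm_num)
  -- near K
  have hnear : ∀ z ∈ K, ∀ n : ℕ, ∀ ζ : ℂ, ζ ∈ closedBall z (1 / (((n + n₀ : ℕ) : ℝ) + 1)) →
      ζ ∈ cthickening (δ / 2) K := by
    intro z hz n ζ hζ
    exact mem_cthickening_of_dist_le ζ z (δ / 2) K hz ((mem_closedBall.1 hζ).trans (hrad n))
  have hballU : ∀ z ∈ K, ∀ n : ℕ, closedBall z (1 / (((n + n₀ : ℕ) : ℝ) + 1)) ⊆ U := by
    intro z hz n ζ hζ
    exact hδU (cthickening_mono (by linarith) K (hnear z hz n ζ hζ))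
  have hcs : ∀ n, HasCompactSupport (ρ n) := by
    intro n
    refine HasCompactSupport.intro (isCompact_closedBall 0 (1 / ((n : ℝ) + 1))) ?_
    intro w hw
    apply hρc n w
    rw [mem_closedBall_zero_iff] at hw
    exact (not_le.1 hw).le
  -- values on K of the mollifications of cut off functions
  have hmolK : ∀ z ∈ K, ∀ n : ℕ, ∀ h : ℂ → ℂ,
      mol (ρ (n + n₀)) (fun z => (χ z : ℂ) * h z) z = ∫ ζ, h ζ * ((ρ (n + n₀) (z - ζ) : ℝ) : ℂ) := by
    intro z hz n h
    unfold mol
    refine integral_congr_ae (ae_of_all _ fun ζ => ?_)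
    simp only
    by_cases hζ : ζ ∈ closedBall z (1 / (((n + n₀ : ℕ) : ℝ) + 1))
    · rw [hχK ζ (hnear z hz n ζ hζ)]
      simp
      ring
    · have : ρ (n + n₀) (z - ζ) = 0 := by
        apply hρc
        rw [mem_closedBall, dist_comm, dist_eq_norm] at hζ
        exact (not_le.1 hζ).le
      rw [this]
      simp
  -- derivatives
  have hder : ∀ z ∈ K, ∀ n : ℕ, ∀ v : ℂ, fderiv ℝ (mol (ρ (n + n₀)) g) z v =
      - ∫ ζ, f ζ * fderiv ℝ (fun ζ => ((ρ (n + n₀) (z - ζ) : ℝ) : ℂ)) ζ v := by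
    intro z hz n v
    rw [mo_fderiv (hρs _) (hcs _) hgl z v, ← integral_neg]
    refine integral_congr_ae (ae_of_all _ fun ζ => ?_)
    simp only
    rw [mo_testd (hρs _)]
    by_cases hζ : ζ ∈ closedBall z (1 / (((n + n₀ : ℕ) : ℝ) + 1))
    · rw [hg]
      simp only
      rw [hχK ζ (hnear z hz n ζ hζ)]
      simp
      ring
    · have hnt : z - ζ ∉ tsupport (ρ (n + n₀)) := by
        intro h
        have hsub : tsupport (ρ (n + n₀)) ⊆ closedBall 0 (1 / (((n + n₀ : ℕ) : ℝ) + 1)) := by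
          refine closure_minimal ?_ isClosed_closedBall
          intro w hw
          rw [mem_closedBall_zero_iff]
          by_contra hlt
          exact hw (hρc _ w (le_of_lt (not_le.1 hlt)))
        have h2 := hsub h
        rw [mem_closedBall_zero_iff] at h2
        apply hζ
        rw [mem_closedBall, dist_comm, dist_eq_norm]
        exact h2
      rw [fderiv_of_notMem_tsupport ℝ hnt]
      simp
  have hintd : ∀ z ∈ K, ∀ n : ℕ, ∀ v : ℂ,
      Integrable (fun ζ => f ζ * fderiv ℝ (fun ζ => ((ρ (n + n₀) (z - ζ) : ℝ) : ℂ)) ζ v) volume := by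
    intro z hz n v
    have h := (mo_int (hρs (n + n₀)) (hρc (n + n₀)) hgl z v).neg
    refine h.congr (ae_of_all _ fun ζ => ?_)
    simp only [Pi.neg_apply]
    rw [mo_testd (hρs _)]
    by_cases hζ : ζ ∈ closedBall z (1 / (((n + n₀ : ℕ) : ℝ) + 1))
    · rw [hg]
      simp only
      rw [hχK ζ (hnear z hz n ζ hζ)]
      simp
      ring
    · have hnt : z - ζ ∉ tsupport (ρ (n + n₀)) := by
        intro h
        have hsub : tsupport (ρ (n + n₀)) ⊆ closedBall 0 (1 / (((n + n₀ : ℕ) : ℝ) + 1)) := by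
          refine closure_minimal ?_ isClosed_closedBall
          intro w hw
          rw [mem_closedBall_zero_iff]
          by_contra hlt
          exact hw (hρc _ w (le_of_lt (not_le.1 hlt)))
        have h2 := hsub h
        rw [mem_closedBall_zero_iff] at h2
        apply hζ
        rw [mem_closedBall, dist_comm, dist_eq_norm]
        exact h2
      rw [fderiv_of_notMem_tsupport ℝ hnt]
      simp
  have hdz : ∀ z ∈ K, ∀ n : ℕ, dz (mol (ρ (n + n₀)) g) z = mol (ρ (n + n₀)) gA z := by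
    intro z hz n
    rw [hgA, hmolK z hz n A]
    have ht := mo_test (hρs (n + n₀)) (hρc (n + n₀)) z (hballU z hz n)
    have hA := hW.hA _ ht
    rw [eq_neg_iff_add_eq_zero] at hA
    have : ∫ ζ, f ζ * dz (fun ζ => ((ρ (n + n₀) (z - ζ) : ℝ) : ℂ)) ζ =
        ((∫ ζ, f ζ * fderiv ℝ (fun ζ => ((ρ (n + n₀) (z - ζ) : ℝ) : ℂ)) ζ 1) -
          I * ∫ ζ, f ζ * fderiv ℝ (fun ζ => ((ρ (n + n₀) (z - ζ) : ℝ) : ℂ)) ζ I) / 2 := by
      rw [← integral_const_mul, ← integral_sub (hintd z hz n 1) ((hintd z hz n I).const_mul I),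
        ← integral_div]
      refine integral_congr_ae (ae_of_all _ fun ζ => ?_)
      simp only [dz]
      ring
    rw [this] at hA
    unfold dz
    rw [hder z hz n 1, hder z hz n I]
    linear_combination (-1 : ℂ) * hA
  have hdb : ∀ z ∈ K, ∀ n : ℕ, db (mol (ρ (n + n₀)) g) z = mol (ρ (n + n₀)) gB z := by
    intro z hz n
    rw [hgB, hmolK z hz n B]
    have ht := mo_test (hρs (n + n₀)) (hρc (n + n₀)) z (hballU z hz n)
    have hB := hW.hB _ ht
    rw [eq_neg_iff_add_eq_zero] at hB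
    have : ∫ ζ, f ζ * db (fun ζ => ((ρ (n + n₀) (z - ζ) : ℝ) : ℂ)) ζ =
        ((∫ ζ, f ζ * fderiv ℝ (fun ζ => ((ρ (n + n₀) (z - ζ) : ℝ) : ℂ)) ζ 1) +
          I * ∫ ζ, f ζ * fderiv ℝ (fun ζ => ((ρ (n + n₀) (z - ζ) : ℝ) : ℂ)) ζ I) / 2 := by
      rw [← integral_const_mul, ← integral_add (hintd z hz n 1) ((hintd z hz n I).const_mul I),
        ← integral_div]
      refine integral_congr_ae (ae_of_all _ fun ζ => ?_)
      simp only [db]
      ring
    rw [this] at hB
    unfold db
    rw [hder z hz n 1, hder z hz n I]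
    linear_combination (-1 : ℂ) * hB
  -- convergence of the mollifications on K
  have hconv : ∀ h : ℂ → ℂ, L2loc U h →
      Tendsto (fun n => eLpNorm (fun z => mol (ρ (n + n₀)) (fun z => (χ z : ℂ) * h z) z - h z) 2
        (volume.restrict K)) atTop (𝓝 0) := by
    intro h hh
    have t1 := (hρL _ (hcutL h hh)).2
    have t2 := (tendsto_add_atTop_iff_nat (f := fun n => eLpNorm (fun z => mol (ρ n)
      (fun z => (χ z : ℂ) * h z) z - (χ z : ℂ) * h z) 2 volume) n₀).2 t1
    refine tendsto_of_tendsto_of_tendsto_of_le_of_le tendsto_const_nhds t2 (fun n => by simp)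
      (fun n => ?_)
    refine le_trans (le_of_eq ?_) (eLpNorm_mono_measure _ (Measure.restrict_le_self (s := K)))
    refine eLpNorm_congr_ae ?_
    filter_upwards [ae_restrict_mem hK.measurableSet] with z hz
    rw [hK2 z hz]
    simp
  refine ⟨fun n => mol (ρ (n + n₀)) g, fun n => hρm g hgl _, ?_, ?_, ?_, ?_, ?_⟩
  · intro n
    refine HasCompactSupport.intro (hKδ.cthickening (r := 1)) ?_
    intro z hz
    unfold mol
    refine integral_eq_zero_of_ae (ae_of_all _ fun ζ => ?_)
    simp only [Pi.zero_apply]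
    by_cases hζ : ζ ∈ cthickening δ K
    · have : ρ (n + n₀) (z - ζ) = 0 := by
        apply hρc
        by_contra hlt
        rw [not_le] at hlt
        apply hz
        refine mem_cthickening_of_dist_le z ζ 1 _ hζ ?_
        rw [dist_eq_norm]
        refine hlt.le.trans ?_
        rw [div_le_one (by positivity)]
        linarith [Nat.cast_nonneg (α := ℝ) (n + n₀)]
      rw [this]
      simp
    · rw [hg]
      simp only
      rw [hχ0 ζ hζ]
      simp
  · exact hconv f hW.f2
  · refine (hconv A hW.A2).congr fun n => ?_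
    refine eLpNorm_congr_ae ?_
    filter_upwards [ae_restrict_mem hK.measurableSet] with z hz
    rw [hdz z hz n]
  · refine (hconv B hW.B2).congr fun n => ?_
    refine eLpNorm_congr_ae ?_
    filter_upwards [ae_restrict_mem hK.measurableSet] with z hz
    rw [hdb z hz n]
  · intro hf
    have hgc : Continuous g := by
      rw [continuous_iff_continuousAt]
      intro z
      by_cases hz : z ∈ U
      · exact (Complex.continuous_ofReal.comp hχc).continuousAt.mul (hf.continuousAt (hU.mem_nhds hz))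
      · have hz' : z ∈ (cthickening δ K)ᶜ := fun h => hz (hδU h)
        have hev : ∀ᶠ w in 𝓝 z, g w = 0 := by
          filter_upwards [hKδ.isClosed.isOpen_compl.mem_nhds hz'] with w hw
          rw [hg]
          simp only
          rw [hχ0 w hw]
          simp
        exact (continuousAt_const (y := (0 : ℂ))).congr (hev.mono fun w hw => hw.symm)
    have t := hρu g hgc K hK
    have t2 : TendstoUniformlyOn (fun n => mol (ρ (n + n₀)) g) g atTop K := by
      intro u hu
      exact (tendsto_add_atTop_nat n₀).eventually (t u hu)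
    refine t2.congr_right ?_
    intro z hz
    rw [hg]
    simp only
    rw [hK2 z hz]
    simp

end Cal
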