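import Pool.Agent.Lib.MP_4ea4c7_an.StmG

open MeasureTheory Complex Metric Set Filter Topology
open scoped ComplexConjugate ENNReal NNReal Manifold

namespace Cal

open LocalCalderon

/-- smooth cutoff equal to one on a compact set, with support in an open neighbourhood -/
private theorem mtr_cut {K U : Set ℂ} (hK : IsCompact K) (hU : IsOpen U) (hKU : K ⊆ U) :
    ∃ χ : ℂ → ℝ, IsTest U χ ∧ ∀ z ∈ K, χ z = 1 := by
  obtain ⟨R, hR⟩ := hK.isBounded.subset_ball (0 : ℂ)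
  have hO : IsOpen (U ∩ ball 0 R) := hU.inter isOpen_ball
  have hd : Disjoint (U ∩ ball 0 R)ᶜ K := by
    rw [Set.disjoint_left]
    intro z hz hzK
    exact hz ⟨hKU hzK, hR hzK⟩
  obtain ⟨f, h0, h1, -⟩ := exists_contMDiffMap_zero_one_nhds_of_isClosed (n := (⊤ : ℕ∞)) 𝓘(ℝ, ℂ)
    hO.isClosed_compl hK.isClosed hd
  have hsub : tsupport f ⊆ U ∩ ball 0 R := by
    intro z hz
    by_contra hzn
    have h2 : ∀ᶠ w in 𝓝 z, f w = 0 := by
      have := h0
      rw [eventually_nhdsSet_iff_forall] at this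
      exact this z hzn
    exact (notMem_tsupport_iff_eventuallyEq.mpr h2) hz
  refine ⟨f, ⟨f.contMDiff.contDiff, ?_, hsub.trans inter_subset_left⟩, fun z hz => ?_⟩
  · refine HasCompactSupport.intro (isCompact_closedBall (0 : ℂ) R) fun z hz => ?_
    have : z ∉ tsupport f := fun h => hz (ball_subset_closedBall (hsub h).2)
    exact image_eq_zero_of_notMem_tsupport this
  · rw [eventually_nhdsSet_iff_forall] at h1
    exact (h1 z hz).self_of_nhds

/-- lower bound for the derivative on the closure -/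
private theorem mtr_bd (h1 : S_cinv) {Ω W : Set ℂ} {M : ℂ → ℂ} (hb : Bornology.IsBounded Ω)
    (hW : IsOpen W) (hc : closure Ω ⊆ W) (hd : DifferentiableOn ℂ M W) (hi : InjOn M W) :
    ∃ C : ℝ, 0 < C ∧ ∀ z ∈ Ω, ‖(deriv M z)⁻¹‖ ≤ C := by
  obtain ⟨-, hne, -⟩ := h1 W (M '' W) M ⟨hW, hd, hi, rfl⟩
  have hK : IsCompact (closure Ω) := hb.isCompact_closure
  have hcd : ContinuousOn (fun z => (deriv M z)⁻¹) (closure Ω) := by
    refine ContinuousOn.inv₀ ?_ fun z hz => hne z (hc hz)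
    exact ((hd.deriv hW).continuousOn).mono hc
  obtain ⟨C, hC⟩ := hK.exists_bound_of_continuousOn hcd
  refine ⟨max C 1, lt_max_of_lt_right one_pos, fun z hz => ?_⟩
  exact (hC z (subset_closure hz)).trans (le_max_left _ _)

/-- functions: transport of the `L²` norm -/
private theorem mtr_l2 (h1 : S_cinv) (h2 : S_cv) {Ω W : Set ℂ} {M : ℂ → ℂ} (hΩ : IsOpen Ω) (hb : Bornology.IsBounded Ω)
    (hW : IsOpen W) (hc : closure Ω ⊆ W) (hd : DifferentiableOn ℂ M W) (hi : InjOn M W) :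
    ∃ C : ℝ, 0 < C ∧ ∀ f : ℂ → ℝ, MemLp f 2 (volume.restrict (M '' Ω)) →
      MemLp (fun z => f (M z)) 2 (volume.restrict Ω) ∧
      eLpNorm (fun z => f (M z)) 2 (volume.restrict Ω) ≤ ENNReal.ofReal C * eLpNorm f 2 (volume.restrict (M '' Ω)) := by
  obtain ⟨C, hC0, hC⟩ := mtr_bd h1 hb hW hc hd hi
  obtain ⟨-, hne, -⟩ := h1 W (M '' W) M ⟨hW, hd, hi, rfl⟩
  have hΩW : Ω ⊆ W := subset_closure.trans hc
  have hCB : CB Ω (M '' Ω) M := ⟨hΩ, hd.mono hΩW, hi.mono hΩW, rfl⟩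
  obtain ⟨hv1, hv2, -⟩ := h2 Ω (M '' Ω) M hCB
  refine ⟨C, hC0, fun f hf => ?_⟩
  set F : ℂ → ℂ := fun w => (f w : ℂ) with hF
  have hFm : MemLp F 2 (volume.restrict (M '' Ω)) := hf.ofReal
  have hP : MemLp (pull M F) 2 (volume.restrict Ω) := (hv1 F).1 hFm
  have hle : ∀ z ∈ Ω, ‖f (M z)‖ ≤ C * ‖pull M F z‖ := by
    intro z hz
    have hn : deriv M z ≠ 0 := hne z (hΩW hz)
    have hp : ‖pull M F z‖ = ‖deriv M z‖ * ‖f (M z)‖ := by
      simp only [pull, hF, norm_mul, RCLike.norm_conj, Complex.norm_real]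
    have hC1 := hC z hz
    rw [norm_inv] at hC1
    have hpos : 0 < ‖deriv M z‖ := norm_pos_iff.2 hn
    rw [hp]
    calc ‖f (M z)‖ = ‖deriv M z‖⁻¹ * (‖deriv M z‖ * ‖f (M z)‖) := by field_simp
      _ ≤ C * (‖deriv M z‖ * ‖f (M z)‖) := by gcongr
  have hmeas : AEStronglyMeasurable (fun z => f (M z)) (volume.restrict Ω) := by
    have hcd : ContinuousOn (fun z => (conj (deriv M z))⁻¹) Ω := by
      refine ContinuousOn.inv₀ ?_ fun z hz => ?_
      · exact Complex.continuous_conj.comp_continuousOn (((hd.deriv hW).continuousOn).mono hΩW)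
      · simpa using hne z (hΩW hz)
    have hm1 : AEStronglyMeasurable (fun z => (conj (deriv M z))⁻¹ * pull M F z) (volume.restrict Ω) :=
      (hcd.aestronglyMeasurable hΩ.measurableSet).mul hP.1
    have hm2 : AEStronglyMeasurable (fun z => ((conj (deriv M z))⁻¹ * pull M F z).re) (volume.restrict Ω) :=
      Complex.continuous_re.comp_aestronglyMeasurable hm1
    refine hm2.congr ?_
    filter_upwards [ae_restrict_mem hΩ.measurableSet] with z hz
    have hn : conj (deriv M z) ≠ 0 := by simpa using hne z (hΩW hz)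
    have : (conj (deriv M z))⁻¹ * pull M F z = (f (M z) : ℂ) := by
      simp only [pull, hF]
      field_simp
    rw [this, Complex.ofReal_re]
  have hae : ∀ᵐ z ∂(volume.restrict Ω), ‖f (M z)‖ ≤ C * ‖pull M F z‖ := by
    filter_upwards [ae_restrict_mem hΩ.measurableSet] with z hz using hle z hz
  refine ⟨hP.of_le_mul hmeas hae, ?_⟩
  have e1 := eLpNorm_le_mul_eLpNorm_of_ae_le_mul hae 2
  have e2 : eLpNorm F 2 (volume.restrict (M '' Ω)) = eLpNorm f 2 (volume.restrict (M '' Ω)) := by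
    refine eLpNorm_congr_norm_ae (Eventually.of_forall fun z => ?_)
    simp [hF]
  rw [hv2 F, e2] at e1
  exact e1

private theorem mtr_h1 (h1 : S_cinv) (h2 : S_cv) (h4 : S_cwg) (h5 : S_h1) {Ω W : Set ℂ} {M : ℂ → ℂ} (hΩ : IsOpen Ω) (hb : Bornology.IsBounded Ω)
    (hW : IsOpen W) (hc : closure Ω ⊆ W) (hd : DifferentiableOn ℂ M W) (hi : InjOn M W) (u : ℂ → ℝ) (hu : H1 (M '' Ω) u) :
    H1 Ω (fun z => u (M z)) ∧ wgrad Ω (fun z => u (M z)) =ᵐ[volume.restrict Ω] pull M (wgrad (M '' Ω) u) := by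
  have hΩW : Ω ⊆ W := subset_closure.trans hc
  have hCB : CB Ω (M '' Ω) M := ⟨hΩ, hd.mono hΩW, hi.mono hΩW, rfl⟩
  have hV : IsOpen (M '' Ω) := (h1 Ω (M '' Ω) M hCB).1
  obtain ⟨C, -, hl2⟩ := mtr_l2 h1 h2 hΩ hb hW hc hd hi
  obtain ⟨hv1, -⟩ := h2 Ω (M '' Ω) M hCB
  obtain ⟨k1, k2, -, -, -, -, -, k8, -⟩ := h5
  obtain ⟨g1, g2⟩ := k1 _ _ hu
  have w1 : WG (M '' Ω) u (wgrad (M '' Ω) u) := (k8 _ _ _ hV hu.1 g1).2 g2
  have w2 : WG Ω (fun z => u (M z)) (pull M (wgrad (M '' Ω) u)) :=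
    (h4 Ω (M '' Ω) M hCB u (fun z => u (M z)) _ fun z _ => rfl).1 w1
  have hm1 := (hl2 u hu.1).1
  have hm2 := (hv1 _).1 g1
  exact k2 _ _ _ hΩ hm1 hm2 ((k8 _ _ _ hΩ hm1 hm2).1 w2)

private theorem mtr_h10 (h1 : S_cinv) (h2 : S_cv) (h3 : S_ctf) (h4 : S_cwg) (h5 : S_h1) {Ω W : Set ℂ} {M : ℂ → ℂ} (hΩ : IsOpen Ω) (hb : Bornology.IsBounded Ω)
    (hW : IsOpen W) (hc : closure Ω ⊆ W) (hd : DifferentiableOn ℂ M W) (hi : InjOn M W) (w : ℂ → ℝ) (hw : H10 (M '' Ω) w) :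
    H10 Ω (fun z => w (M z)) := by
  have hΩW : Ω ⊆ W := subset_closure.trans hc
  have hCB : CB Ω (M '' Ω) M := ⟨hΩ, hd.mono hΩW, hi.mono hΩW, rfl⟩
  obtain ⟨C, hC0, hl2⟩ := mtr_l2 h1 h2 hΩ hb hW hc hd hi
  obtain ⟨hv1, hv2, -⟩ := h2 Ω (M '' Ω) M hCB
  obtain ⟨hH, hg⟩ := mtr_h1 h1 h2 h4 h5 hΩ hb hW hc hd hi w hw.1
  refine ⟨hH, fun ε hε => ?_⟩
  set δ : ℝ := min ε (ε / C) with hδ
  have hδ0 : 0 < δ := lt_min hε (div_pos hε hC0)
  obtain ⟨φ, hφ, ha, hb'⟩ := hw.2 δ hδ0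
  obtain ⟨φ', hφ', he, hge⟩ := (h3 Ω (M '' Ω) M hCB).1 φ hφ
  have hφm : MemLp φ 2 (volume.restrict (M '' Ω)) :=
    (hφ.1.continuous.memLp_of_hasCompactSupport hφ.2.1).restrict _
  refine ⟨φ', hφ', ?_, ?_⟩
  · have e1 : eLpNorm (fun z => w (M z) - φ' z) 2 (volume.restrict Ω) = eLpNorm (fun z => (fun y => w y - φ y) (M z)) 2 (volume.restrict Ω) := by
      refine eLpNorm_congr_ae ?_
      filter_upwards [ae_restrict_mem hΩ.measurableSet] with z hz
      simp only [he z hz]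
    rw [e1]
    refine ((hl2 (fun y => w y - φ y) (hw.1.1.sub hφm)).2).trans ?_
    calc ENNReal.ofReal C * eLpNorm (fun y => w y - φ y) 2 (volume.restrict (M '' Ω)) ≤ ENNReal.ofReal C * ENNReal.ofReal δ := by gcongr
      _ = ENNReal.ofReal (C * δ) := (ENNReal.ofReal_mul hC0.le).symm
      _ ≤ ENNReal.ofReal ε := by
          refine ENNReal.ofReal_le_ofReal ?_
          calc C * δ ≤ C * (ε / C) := by
                gcongr
                exact min_le_right _ _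
            _ = ε := by field_simp
  · have e1 : eLpNorm (fun z => wgrad Ω (fun z => w (M z)) z - grad φ' z) 2 (volume.restrict Ω)
        = eLpNorm (pull M (fun y => wgrad (M '' Ω) w y - grad φ y)) 2 (volume.restrict Ω) := by
      refine eLpNorm_congr_ae ?_
      filter_upwards [ae_restrict_mem hΩ.measurableSet, hg] with z hz hgz
      have hz2 : grad φ' z = pull M (gr φ) z := hge z hz
      rw [hgz, hz2]
      simp only [pull]
      change _ = conj (deriv M z) * (wgrad (M '' Ω) w (M z) - gr φ (M z))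
      ring
    rw [e1, hv2]
    refine hb'.trans (ENNReal.ofReal_le_ofReal (min_le_left _ _))

theorem piece_mtr (h1 : S_cinv) (h2 : S_cv) (h3 : S_ctf) (h4 : S_cwg) (h5 : S_h1) (h6 : S_h10) : S_mtr := by
  intro Ω W M hΩ hb hW hc hd hi
  have hΩW : Ω ⊆ W := subset_closure.trans hc
  have hCB : CB Ω (M '' Ω) M := ⟨hΩ, hd.mono hΩW, hi.mono hΩW, rfl⟩
  have hCBW : CB W (M '' W) M := ⟨hW, hd, hi, rfl⟩
  have hV : IsOpen (M '' Ω) := (h1 Ω (M '' Ω) M hCB).1
  have hK : IsCompact (closure Ω) := hb.isCompact_closure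
  have hKi : IsCompact (M '' closure Ω) := hK.image_of_continuousOn (hd.continuousOn.mono hc)
  have hcl : closure (M '' Ω) = M '' closure Ω := by
    refine Subset.antisymm (closure_minimal (image_mono subset_closure) hKi.isClosed) ?_
    exact (hd.continuousOn.mono hc).image_closure
  have hfr : frontier (M '' Ω) = M '' frontier Ω := by
    rw [hV.frontier_eq, hΩ.frontier_eq, hcl]
    exact ((hi.mono hc).image_sdiff_subset subset_closure).symm
  have hfW : frontier Ω ⊆ W := frontier_subset_closure.trans hc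
  refine ⟨⟨hV, hKi.isBounded.subset (image_mono subset_closure), hCB⟩, hfr, ?_, ?_, ?_, ?_⟩
  · rintro Γ ⟨O, hO, rfl⟩
    refine ⟨M '' (O ∩ W), ?_, ?_⟩
    · exact (h1 (O ∩ W) (M '' (O ∩ W)) M ⟨hO.inter hW, hd.mono inter_subset_right, hi.mono inter_subset_right, rfl⟩).1
    · rw [hfr, ← hi.image_inter inter_subset_right hfW]
      congr 1
      ext z
      constructor
      · rintro ⟨ha, hb⟩
        exact ⟨⟨ha, hfW hb⟩, hb⟩
      · rintro ⟨⟨ha, -⟩, hb⟩
        exact ⟨ha, hb⟩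
  · intro u hu
    exact mtr_h1 h1 h2 h4 h5 hΩ hb hW hc hd hi u hu
  · intro w hw
    exact mtr_h10 h1 h2 h3 h4 h5 hΩ hb hW hc hd hi w hw
  · rintro Γ u ⟨O, hO, rfl⟩ hu ⟨K₁, hK₁s, hK₁c, hK₁⟩
    obtain ⟨-, -, Θ, hΘ, hl, hr, -⟩ := h1 W (M '' W) M hCBW
    have hΓW : O ∩ frontier Ω ⊆ W := inter_subset_right.trans hfW
    have hK₁W : K₁ ⊆ M '' W := hK₁s.trans (image_mono hΓW)
    refine ⟨Θ '' K₁, ?_, hK₁c.image_of_continuousOn (hΘ.hol.continuousOn.mono hK₁W), ?_⟩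
    · rintro z ⟨y, hy, rfl⟩
      obtain ⟨x, hx, rfl⟩ := hK₁s hy
      rw [hl x (hΓW hx)]
      exact hx
    · intro η hη hdis
      obtain ⟨χ, hχ, hχ1⟩ := mtr_cut hK hW hc
      have hφ : RTF W (fun z => χ z * η z) :=
        ⟨hχ.1.mul hη.1, hχ.2.1.mul_right, (tsupport_mul_subset_left (f := χ) (g := η)).trans hχ.2.2⟩
      obtain ⟨η₁, hη₁, he, -⟩ := (h3 W (M '' W) M hCBW).2 _ hφ
      have hηt : IsTest univ η₁ := ⟨hη₁.1, hη₁.2.1, subset_univ _⟩
      have hcomp : IsCompact (M '' tsupport (fun z => χ z * η z)) :=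
        hφ.2.1.isCompact.image_of_continuousOn (hd.continuousOn.mono hφ.2.2)
      have hsupp : tsupport η₁ ⊆ M '' tsupport (fun z => χ z * η z) := by
        refine closure_minimal ?_ hcomp.isClosed
        intro y hy
        have hyW : y ∈ M '' W := hη₁.2.2 (subset_tsupport _ hy)
        obtain ⟨x, hx, rfl⟩ := hyW
        refine ⟨x, subset_tsupport _ ?_, rfl⟩
        have := he x hx
        simp only [Function.mem_support] at hy ⊢
        rw [this]
        exact hy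
      have hdis₁ : Disjoint (tsupport η₁) K₁ := by
        rw [Set.disjoint_left]
        intro y hy hyK
        obtain ⟨x, hx, rfl⟩ := hsupp hy
        have hxW : x ∈ W := hφ.2.2 hx
        have hxK : x ∈ Θ '' K₁ := ⟨M x, hyK, hl x hxW⟩
        have hxη : x ∈ tsupport η := (tsupport_mul_subset_right (f := χ) (g := η)) hx
        exact (Set.disjoint_left.1 hdis) hxη hxK
      have a1 := hK₁ η₁ hηt hdis₁
      have a2 := mtr_h10 h1 h2 h3 h4 h5 hΩ hb hW hc hd hi _ a1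
      refine (h6 Ω hΩ).2.2.2.2.2.2.2 _ _ a2 ?_
      filter_upwards [ae_restrict_mem hΩ.measurableSet] with z hz
      have e1 : χ z * η z = η₁ (M z) := he z (hΩW hz)
      rw [← e1, hχ1 z (subset_closure hz), one_mul]

end Cal
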