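import Pool.Agent.Lib.MP_4ea4c7_an.StmH8

/-!
[CH n5] Averaging lemma (8.1).
-/

set_option autoImplicit false

open MeasureTheory Complex Metric Set Filter Topology
open scoped ComplexConjugate ENNReal NNReal

namespace Cal

noncomputable section

private theorem nAVG_zero {φ : ℂ → ℂ} {K : Set ℂ} (h : tsupport φ ⊆ K) :
    ∀ z, z ∉ K → φ z = 0 ∧ db φ z = 0 := by
  intro z hz
  have h1 : z ∉ tsupport φ := fun h' => hz (h h')
  have h2 : φ z = 0 := image_eq_zero_of_notMem_tsupport h1
  have h3 : fderiv ℝ φ z = 0 := by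
    by_contra hne
    exact h1 (support_fderiv_subset ℝ (Function.mem_support.mpr hne))
  exact ⟨h2, by simp [db, h3]⟩

private theorem nAVG_cont {φ : ℂ → ℂ} (h : ContDiff ℝ (⊤ : ℕ∞) φ) :
    Continuous φ ∧ Continuous (db φ) := by
  have h1 : Continuous (fderiv ℝ φ) := h.continuous_fderiv (by simp)
  have h2 : ∀ v : ℂ, Continuous (fun z => fderiv ℝ φ z v) := fun v =>
    h1.clm_apply continuous_const
  refine ⟨h.continuous, ?_⟩
  unfold db
  exact ((h2 1).add (continuous_const.mul (h2 I))).div_const 2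

/-- derivatives of a holomorphic function -/
private theorem nAVG_hol {G : ℂ → ℂ} {G' z : ℂ} (h : HasDerivAt G G' z) :
    dz G z = G' ∧ db G z = 0 := by
  have h1 : HasFDerivAt G (G' • (1 : ℂ →L[ℝ] ℂ)) z := h.complexToReal_fderiv
  have h2 : fderiv ℝ G z = G' • (1 : ℂ →L[ℝ] ℂ) := h1.fderiv
  constructor
  · simp only [dz, h2, ContinuousLinearMap.smul_apply, ContinuousLinearMap.one_apply, smul_eq_mul]
    ring_nf
    rw [I_sq]; ring
  · simp only [db, h2, ContinuousLinearMap.smul_apply, ContinuousLinearMap.one_apply, smul_eq_mul]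
    ring_nf
    rw [I_sq]; ring

private theorem nAVG_normexp (c : ℝ) (w : ℂ) : ‖exp ((c : ℂ) * (conj w - w))‖ = 1 := by
  rw [Complex.norm_exp]
  have : ((c : ℂ) * (conj w - w)).re = 0 := by simp
  rw [this, Real.exp_zero]

/-- weak derivative of `exp (c (conj h - h))` -/
private theorem nAVG_wd (h2 : S_basic) (h4 : S_chain) {U : Set ℂ} (hU : IsOpen U) {h A B : ℂ → ℂ}
    (hc : ContinuousOn h U) (hw : WD U h A B) (c : ℝ) :
    ∃ A' : ℂ → ℂ, WD U (fun z => exp ((c : ℂ) * (conj (h z) - h z))) A'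
      (fun z => (c : ℂ) * exp ((c : ℂ) * (conj (h z) - h z)) * (conj (A z) - B z)) := by
  obtain ⟨b1, b2, b3, -⟩ := h2
  have w1 := b3 U h A B hw
  have w2 := b2 U h A B (-1) hw
  have w3 := b1 _ _ _ _ _ _ _ w1 w2
  have w4 : WD U (fun z => conj (h z) - h z) (fun z => conj (B z) + -1 * A z)
      (fun z => conj (A z) - B z) := by
    have e1 : (fun z => conj (h z) - h z) = fun z => conj (h z) + -1 * h z := by
      funext z; ring
    have e2 : (fun z => conj (A z) - B z) = fun z => conj (A z) + -1 * B z := by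
      funext z; ring
    rw [e1, e2]
    exact w3
  have hcc : ContinuousOn (fun z => conj (h z) - h z) U := by
    have : ContinuousOn (fun z => conj (h z)) U := Complex.continuous_conj.comp_continuousOn hc
    exact this.sub hc
  have hG : ∀ w : ℂ, HasDerivAt (fun w : ℂ => exp ((c : ℂ) * w)) ((c : ℂ) * exp ((c : ℂ) * w)) w := by
    intro w
    have := ((hasDerivAt_id w).const_mul (c : ℂ)).cexp
    simpa [mul_comm] using this
  have hGc : ContDiffOn ℝ 1 (fun w : ℂ => exp ((c : ℂ) * w)) univ := by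
    have : ContDiff ℂ 1 (fun w : ℂ => exp ((c : ℂ) * w)) := by fun_prop
    exact (this.restrict_scalars ℝ).contDiffOn
  have w5 := h4 U univ (fun z => conj (h z) - h z) _ _ (fun w : ℂ => exp ((c : ℂ) * w)) hU isOpen_univ
    w4 hcc (fun _ _ => mem_univ _) hGc
  have e3 : (fun z => (c : ℂ) * exp ((c : ℂ) * (conj (h z) - h z)) * (conj (A z) - B z)) =
      (fun z => dz (fun w : ℂ => exp ((c : ℂ) * w)) (conj (h z) - h z) * (conj (A z) - B z) +
        db (fun w : ℂ => exp ((c : ℂ) * w)) (conj (h z) - h z) * conj (conj (B z) + -1 * A z)) := by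
    funext z
    rw [(nAVG_hol (hG _)).1, (nAVG_hol (hG _)).2]
    ring
  rw [e3]
  exact ⟨_, w5⟩

/-- square integrals from the `L²` norm -/
private theorem nAVG_sq {f : ℂ → ℂ} (hf : MemLp f 2 volume) {ε : ℝ} (hε : 0 ≤ ε)
    (h : eLpNorm f 2 volume ≤ ENNReal.ofReal ε) :
    Integrable (fun z => ‖f z‖ ^ 2) volume ∧ ∫ z, ‖f z‖ ^ 2 ≤ ε ^ 2 := by
  have h1 : Integrable (fun z => ‖f z‖ ^ 2) volume := hf.integrable_norm_pow (by norm_num)
  refine ⟨h1, ?_⟩
  have h2 : eLpNorm f 2 volume ^ (2 : ℝ) = ∫⁻ z, ‖f z‖ₑ ^ (2 : ℝ) := by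
    have := eLpNorm_nnreal_pow_eq_lintegral (f := f) (μ := volume) (p := 2) (by norm_num)
    simpa using this
  have h3 : ENNReal.ofReal (∫ z, ‖f z‖ ^ 2) = ∫⁻ z, ‖f z‖ₑ ^ (2 : ℝ) := by
    rw [ofReal_integral_eq_lintegral_ofReal h1 (Filter.Eventually.of_forall fun z => by positivity)]
    refine lintegral_congr fun z => ?_
    rw [ENNReal.ofReal_pow (norm_nonneg _), ofReal_norm]
    norm_num
  have h4 : ENNReal.ofReal (∫ z, ‖f z‖ ^ 2) ≤ ENNReal.ofReal (ε ^ 2) := by
    rw [h3, ← h2]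
    calc eLpNorm f 2 volume ^ (2 : ℝ) ≤ ENNReal.ofReal ε ^ (2 : ℝ) := by gcongr
      _ = ENNReal.ofReal (ε ^ 2) := by
        rw [ENNReal.ofReal_pow hε]; norm_num
  exact (ENNReal.ofReal_le_ofReal_iff (by positivity)).mp h4

/-- test functions approximate bounded measurable functions with compact support in `U` -/
private theorem nAVG_apx (h1 : S_bump) {U K : Set ℂ} (hU : IsOpen U) (hK : IsCompact K) (hKU : K ⊆ U)
    {b : ℂ → ℂ} (hbm : Measurable b) {M : ℝ} (hbM : ∀ z, ‖b z‖ ≤ M) (hb0 : ∀ z, z ∉ K → b z = 0) :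
    ∃ K' : Set ℂ, IsCompact K' ∧ K' ⊆ U ∧ K ⊆ K' ∧ ∀ ε : ℝ, 0 < ε → ∃ χ : ℂ → ℂ, TF U χ ∧ tsupport χ ⊆ K' ∧
      Integrable (fun z => ‖b z - χ z‖ ^ 2) volume ∧ ∫ z, ‖b z - χ z‖ ^ 2 ≤ ε ^ 2 := by
  obtain ⟨ρ, -, -, ρ3, -, -, ρ6, ρ7, -⟩ := h1
  obtain ⟨δ, hδ, hδU⟩ := hK.exists_cthickening_subset_open hU hKU
  refine ⟨cthickening δ K, hK.cthickening, hδU, self_subset_cthickening K, ?_⟩
  intro ε hε
  have hbL : MemLp b 2 volume := by
    have e1 : b = K.indicator b := by
      funext z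
      by_cases hz : z ∈ K
      · rw [indicator_of_mem hz]
      · rw [indicator_of_notMem hz, hb0 z hz]
    rw [e1, memLp_indicator_iff_restrict hK.measurableSet]
    have : IsFiniteMeasure (volume.restrict K) := ⟨by
      rw [Measure.restrict_apply_univ]
      exact hK.measure_lt_top⟩
    exact MemLp.of_bound hbm.aestronglyMeasurable M (Filter.Eventually.of_forall hbM)
  obtain ⟨q1, q2⟩ := ρ7 b hbL
  have hloc : LocallyIntegrable b volume := hbL.locallyIntegrable (by norm_num)
  have hev1 : ∀ᶠ n : ℕ in atTop, eLpNorm (fun z => mol (ρ n) b z - b z) 2 volume ≤ ENNReal.ofReal ε := by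
    have h5 : ∀ᶠ x : ℝ≥0∞ in 𝓝 0, x < ENNReal.ofReal ε := by
      refine gt_mem_nhds ?_
      simpa using hε
    exact (q2.eventually h5).mono fun n hn => le_of_lt hn
  have hev2 : ∀ᶠ n : ℕ in atTop, 1 / ((n : ℝ) + 1) < δ := by
    have := tendsto_one_div_add_atTop_nhds_zero_nat (𝕜 := ℝ)
    exact this.eventually (gt_mem_nhds hδ)
  obtain ⟨n, hn1, hn2⟩ := (hev1.and hev2).exists
  have hsupp : tsupport (mol (ρ n) b) ⊆ cthickening δ K := by
    refine closure_minimal ?_ isClosed_cthickening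
    intro z hz
    by_contra hne
    apply hz
    have : ∀ ζ, ((ρ n (z - ζ) : ℝ) : ℂ) * b ζ = 0 := by
      intro ζ
      by_cases hζ : ζ ∈ K
      · have : ρ n (z - ζ) = 0 := by
          apply ρ3
          by_contra hlt
          push Not at hlt
          apply hne
          refine mem_cthickening_of_dist_le z ζ δ K hζ ?_
          rw [dist_eq_norm]
          exact le_of_lt (hlt.trans hn2)
        rw [this]; simp
      · rw [hb0 ζ hζ, mul_zero]
    simp [mol, this]
  have hcs : HasCompactSupport (mol (ρ n) b) :=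
    HasCompactSupport.of_support_subset_isCompact hK.cthickening ((subset_tsupport _).trans hsupp)
  refine ⟨mol (ρ n) b, ⟨ρ6 b hloc n, hcs, hsupp.trans hδU⟩, hsupp, ?_⟩
  have hm : MemLp (fun z => mol (ρ n) b z - b z) 2 volume := (q1 n).1.sub hbL
  have := nAVG_sq hm hε.le hn1
  have e2 : (fun z => ‖b z - mol (ρ n) b z‖ ^ 2) = fun z => ‖mol (ρ n) b z - b z‖ ^ 2 := by
    funext z; rw [norm_sub_rev]
  rw [e2]
  exact this

/-- data of one member of the sequence -/
private structure Dat (U : Set ℂ) (μ : ℂ → ℝ) (N : ℝ) (h A B : ℂ → ℂ) : Prop where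
  hU : IsOpen U
  mm : Measurable μ
  m1 : ∀ z ∈ U, |μ z| ≤ 1
  N0 : 0 < N
  hc : ContinuousOn h U
  wd : WD U h A B
  eq : ∀ᵐ z ∂(volume.restrict U), B z = (μ z : ℂ) * exp ((N : ℂ) * (conj (h z) - h z)) * conj (A z)

/-- the bounded factor of `conj A` in the weak derivative of `E^{j+1}/((j+1) N)` -/
private def Fj (μ : ℂ → ℝ) (N : ℝ) (h : ℂ → ℂ) (j : ℕ) (z : ℂ) : ℂ :=
  exp (((((j : ℝ) + 1) * N : ℝ) : ℂ) * (conj (h z) - h z)) * (1 - (μ z : ℂ) * exp ((N : ℂ) * (conj (h z) - h z)))

private theorem nAVG_Fbd {U : Set ℂ} {μ : ℂ → ℝ} {N : ℝ} {h A B : ℂ → ℂ} (D : Dat U μ N h A B) (j : ℕ) :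
    ∀ z ∈ U, ‖Fj μ N h j z‖ ≤ 2 := by
  intro z hz
  unfold Fj
  rw [norm_mul, nAVG_normexp, one_mul]
  have h1 : ‖(μ z : ℂ) * exp ((N : ℂ) * (conj (h z) - h z))‖ ≤ 1 := by
    rw [norm_mul, nAVG_normexp, mul_one, Complex.norm_real, Real.norm_eq_abs]
    exact D.m1 z hz
  calc ‖(1 : ℂ) - (μ z : ℂ) * exp ((N : ℂ) * (conj (h z) - h z))‖
      ≤ ‖(1 : ℂ)‖ + ‖(μ z : ℂ) * exp ((N : ℂ) * (conj (h z) - h z))‖ := norm_sub_le _ _
    _ ≤ 1 + 1 := by rw [norm_one]; linarith
    _ = 2 := by norm_num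

private theorem nAVG_expm {U : Set ℂ} {μ : ℂ → ℝ} {N : ℝ} {h A B : ℂ → ℂ} (D : Dat U μ N h A B) (c : ℝ)
    {K : Set ℂ} (hK : IsCompact K) (hKU : K ⊆ U) :
    AEStronglyMeasurable (fun z => exp ((c : ℂ) * (conj (h z) - h z))) (volume.restrict K) := by
  have h1 : ContinuousOn (fun z => exp ((c : ℂ) * (conj (h z) - h z))) U := by
    have : ContinuousOn (fun z => conj (h z)) U := Complex.continuous_conj.comp_continuousOn D.hc
    exact (continuousOn_const.mul (this.sub D.hc)).cexp
  exact (h1.mono hKU).aestronglyMeasurable hK.measurableSet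

private theorem nAVG_Fm {U : Set ℂ} {μ : ℂ → ℝ} {N : ℝ} {h A B : ℂ → ℂ} (D : Dat U μ N h A B) (j : ℕ)
    {K : Set ℂ} (hK : IsCompact K) (hKU : K ⊆ U) :
    AEStronglyMeasurable (Fj μ N h j) (volume.restrict K) := by
  have e1 := nAVG_expm D (((j : ℝ) + 1) * N) hK hKU
  have e2 := nAVG_expm D N hK hKU
  have e3 : AEStronglyMeasurable (fun z => (μ z : ℂ)) (volume.restrict K) :=
    (Complex.measurable_ofReal.comp D.mm).aestronglyMeasurable
  exact e1.mul (aestronglyMeasurable_const.sub (e3.mul e2))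

private theorem nAVG_Aint {U : Set ℂ} {f A B : ℂ → ℂ} (hw : WD U f A B) {K : Set ℂ} (hK : IsCompact K) (hKU : K ⊆ U) :
    Integrable (fun z => conj (A z)) (volume.restrict K) ∧ Integrable (fun z => ‖A z‖ ^ 2) (volume.restrict K) := by
  have h1 : MemLp A 2 (volume.restrict K) := hw.A2 K hK hKU
  have : IsFiniteMeasure (volume.restrict K) := ⟨by
    rw [Measure.restrict_apply_univ]
    exact hK.measure_lt_top⟩
  have h2 : MemLp (fun z => conj (A z)) 2 (volume.restrict K) := by
    refine (MemLp.congr_norm h1 (Complex.continuous_conj.comp_aestronglyMeasurable h1.1) ?_)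
    exact Filter.Eventually.of_forall fun z => by simp
  exact ⟨h2.integrable (by norm_num), h1.integrable_norm_pow (by norm_num)⟩

private theorem nAVG_bint {K : Set ℂ} {f g : ℂ → ℂ} (hf : AEStronglyMeasurable f (volume.restrict K))
    (hK : MeasurableSet K) {M : ℝ} (hM : ∀ z ∈ K, ‖f z‖ ≤ M) (hg : Integrable g (volume.restrict K)) :
    Integrable (fun z => f z * g z) (volume.restrict K) := by
  refine Integrable.bdd_mul hg hf (c := M) ?_
  rw [ae_restrict_iff' hK]
  exact Filter.Eventually.of_forall hM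

/-- the pairing of the weak derivative with a test function -/
private theorem nAVG_test (h2 : S_basic) (h4 : S_chain) {U : Set ℂ} {μ : ℂ → ℝ} {N : ℝ} {h A B : ℂ → ℂ}
    (D : Dat U μ N h A B) (j : ℕ) {χ : ℂ → ℂ} (hχ : TF U χ) :
    ‖∫ z, χ z * (Fj μ N h j z * conj (A z))‖ ≤ (∫ z, ‖db χ z‖) / N := by
  set c : ℝ := ((j : ℝ) + 1) * N with hc
  have hN := D.N0
  have hc0 : 0 < c := by positivity
  have hcN : N ≤ c := by
    rw [hc]
    nlinarith [(Nat.cast_nonneg j : (0 : ℝ) ≤ (j : ℝ))]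
  obtain ⟨A', hw⟩ := nAVG_wd h2 h4 D.hU D.hc D.wd c
  have h5 := hw.hB χ hχ
  have e1 : ∫ z, (c : ℂ) * exp ((c : ℂ) * (conj (h z) - h z)) * (conj (A z) - B z) * χ z =
      (c : ℂ) * ∫ z, χ z * (Fj μ N h j z * conj (A z)) := by
    rw [← integral_const_mul]
    have hae : ∀ᵐ z, z ∈ U → B z = (μ z : ℂ) * exp ((N : ℂ) * (conj (h z) - h z)) * conj (A z) := by
      have := D.eq
      rwa [ae_restrict_iff' D.hU.measurableSet] at this
    refine integral_congr_ae ?_
    filter_upwards [hae] with z hz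
    by_cases hzU : z ∈ U
    · rw [hz hzU]
      simp only [Fj, hc]
      push_cast
      ring
    · have : χ z = 0 := (nAVG_zero hχ.2.2 z hzU).1
      rw [this]; ring
  rw [e1] at h5
  have h6 : ‖∫ z, exp ((c : ℂ) * (conj (h z) - h z)) * db χ z‖ ≤ ∫ z, ‖db χ z‖ := by
    refine norm_integral_le_of_norm_le ?_ ?_
    · have hcc := (nAVG_cont hχ.1).2
      have hs : HasCompactSupport (db χ) := by
        refine HasCompactSupport.intro hχ.2.1 ?_
        intro z hz
        exact (nAVG_zero subset_rfl z hz).2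
      exact (hcc.integrable_of_hasCompactSupport hs).norm
    · refine Filter.Eventually.of_forall fun z => ?_
      rw [norm_mul, nAVG_normexp, one_mul]
  rw [h5, norm_neg, norm_mul, Complex.norm_real, Real.norm_of_nonneg hc0.le] at h6
  have h7 : ‖∫ z, χ z * (Fj μ N h j z * conj (A z))‖ ≤ (∫ z, ‖db χ z‖) / c := by
    rw [le_div_iff₀ hc0]; linarith [h6, mul_comm c ‖∫ z, χ z * (Fj μ N h j z * conj (A z))‖]
  refine h7.trans ?_
  have h8 : 0 ≤ ∫ z, ‖db χ z‖ := integral_nonneg fun z => norm_nonneg _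
  gcongr

/-- the pairing with a bounded measurable function tends to zero -/
private theorem nAVG_pair (h1 : S_bump) (h2 : S_basic) (h4 : S_chain) {U : Set ℂ} {μ : ℂ → ℝ} {N : ℕ → ℝ}
    {h A B : ℕ → ℂ → ℂ} (D : ∀ l, Dat U μ (N l) (h l) (A l) (B l)) (hN : Tendsto N atTop atTop)
    (hen : ∀ K : Set ℂ, IsCompact K → K ⊆ U → ∃ C : ℝ, ∀ l, ∫ z in K, ‖A l z‖ ^ 2 ≤ C)
    {K : Set ℂ} (hK : IsCompact K) (hKU : K ⊆ U) {b : ℂ → ℂ} (hbm : Measurable b) {M : ℝ}
    (hbM : ∀ z, ‖b z‖ ≤ M) (hb0 : ∀ z, z ∉ K → b z = 0) (j : ℕ) {ε : ℝ} (hε : 0 < ε) :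
    ∀ᶠ l in atTop, ‖∫ z, b z * (Fj μ (N l) (h l) j z * conj (A l z))‖ ≤ ε := by
  obtain ⟨K', hK', hK'U, hKK', hap⟩ := nAVG_apx h1 (D 0).hU hK hKU hbm hbM hb0
  obtain ⟨C, hC⟩ := hen K' hK' hK'U
  have hC0 : 0 ≤ C := le_trans (integral_nonneg fun z => by positivity) (hC 0)
  set ε' : ℝ := ε / (2 * (1 + C)) with hε'
  have hε'0 : 0 < ε' := by positivity
  obtain ⟨χ, hχ, hχK, hi, hle⟩ := hap ε' hε'0
  have hT : Tendsto (fun l => (∫ z, ‖db χ z‖) / N l) atTop (𝓝 0) := hN.const_div_atTop _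
  have hev : ∀ᶠ l in atTop, (∫ z, ‖db χ z‖) / N l < ε / 2 := hT.eventually (gt_mem_nhds (by positivity))
  filter_upwards [hev] with l hl
  have hD := D l
  obtain ⟨ia, ia2⟩ := nAVG_Aint hD.wd hK' hK'U
  have iW : Integrable (fun z => Fj μ (N l) (h l) j z * conj (A l z)) (volume.restrict K') :=
    nAVG_bint (nAVG_Fm hD j hK' hK'U) hK'.measurableSet (fun z hz => nAVG_Fbd hD j z (hK'U hz)) ia
  have cχ := (nAVG_cont hχ.1).1
  obtain ⟨Mχ, hMχ⟩ := hχ.2.1.exists_bound_of_continuous cχ
  have ib : Integrable (fun z => b z * (Fj μ (N l) (h l) j z * conj (A l z))) (volume.restrict K') :=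
    nAVG_bint hbm.aestronglyMeasurable hK'.measurableSet (fun z _ => hbM z) iW
  have iχ : Integrable (fun z => χ z * (Fj μ (N l) (h l) j z * conj (A l z))) (volume.restrict K') :=
    nAVG_bint cχ.aestronglyMeasurable hK'.measurableSet (fun z _ => hMχ z) iW
  have e1 : ∫ z, b z * (Fj μ (N l) (h l) j z * conj (A l z)) =
      ∫ z in K', b z * (Fj μ (N l) (h l) j z * conj (A l z)) := by
    symm
    refine setIntegral_eq_integral_of_forall_compl_eq_zero fun z hz => ?_
    rw [hb0 z (fun h' => hz (hKK' h')), zero_mul]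
  have e2 : ∫ z, χ z * (Fj μ (N l) (h l) j z * conj (A l z)) =
      ∫ z in K', χ z * (Fj μ (N l) (h l) j z * conj (A l z)) := by
    symm
    refine setIntegral_eq_integral_of_forall_compl_eq_zero fun z hz => ?_
    rw [(nAVG_zero hχK z hz).1, zero_mul]
  have h5 : ‖(∫ z in K', b z * (Fj μ (N l) (h l) j z * conj (A l z))) -
      ∫ z in K', χ z * (Fj μ (N l) (h l) j z * conj (A l z))‖ ≤ ε / 2 := by
    rw [← integral_sub ib iχ]
    have hg : Integrable (fun z => ‖b z - χ z‖ ^ 2 / ε' + ε' * ‖A l z‖ ^ 2) (volume.restrict K') :=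
      (hi.restrict.div_const ε').add (ia2.const_mul ε')
    refine (norm_integral_le_of_norm_le hg ?_).trans ?_
    · rw [ae_restrict_iff' hK'.measurableSet]
      refine Filter.Eventually.of_forall fun z hz => ?_
      have hF := nAVG_Fbd hD j z (hK'U hz)
      rw [← sub_mul, norm_mul, norm_mul, RCLike.norm_conj]
      set x := ‖b z - χ z‖
      set y := ‖A l z‖
      have hx : 0 ≤ x := norm_nonneg _
      have hy : 0 ≤ y := norm_nonneg _
      have h6 : x * (‖Fj μ (N l) (h l) j z‖ * y) ≤ 2 * x * y := by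
        have : ‖Fj μ (N l) (h l) j z‖ * y ≤ 2 * y := by gcongr
        calc x * (‖Fj μ (N l) (h l) j z‖ * y) ≤ x * (2 * y) := by gcongr
          _ = 2 * x * y := by ring
      refine h6.trans ?_
      have h7 : 0 ≤ (x - ε' * y) ^ 2 / ε' := by positivity
      have h8 : (x - ε' * y) ^ 2 / ε' = x ^ 2 / ε' - 2 * x * y + ε' * y ^ 2 := by
        field_simp
        ring
      linarith
    · rw [integral_add (hi.restrict.div_const ε') (ia2.const_mul ε'), integral_div, integral_const_mul]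
      have h9 : ∫ z in K', ‖b z - χ z‖ ^ 2 ≤ ε' ^ 2 :=
        (setIntegral_le_integral hi (Filter.Eventually.of_forall fun z => by positivity)).trans hle
      have h10 : (∫ z in K', ‖b z - χ z‖ ^ 2) / ε' ≤ ε' := by
        rw [div_le_iff₀ hε'0]; nlinarith [h9]
      have h11 : ε' * ∫ z in K', ‖A l z‖ ^ 2 ≤ ε' * C := by
        have := hC l
        gcongr
      have h12 : ε' + ε' * C = ε / 2 := by
        rw [hε']; field_simp
      linarith
  have h6 := nAVG_test h2 h4 hD j hχ
  rw [e2] at h6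
  rw [e1]
  calc ‖∫ z in K', b z * (Fj μ (N l) (h l) j z * conj (A l z))‖
      ≤ ‖(∫ z in K', b z * (Fj μ (N l) (h l) j z * conj (A l z))) -
          ∫ z in K', χ z * (Fj μ (N l) (h l) j z * conj (A l z))‖ +
        ‖∫ z in K', χ z * (Fj μ (N l) (h l) j z * conj (A l z))‖ := by
        have := norm_add_le ((∫ z in K', b z * (Fj μ (N l) (h l) j z * conj (A l z))) -
          ∫ z in K', χ z * (Fj μ (N l) (h l) j z * conj (A l z)))
          (∫ z in K', χ z * (Fj μ (N l) (h l) j z * conj (A l z)))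
        rwa [sub_add_cancel] at this
    _ ≤ ε / 2 + ε / 2 := by linarith
    _ = ε := by ring

/-- geometric decomposition -/
private theorem nAVG_geom (μ : ℂ → ℝ) (N : ℝ) (h : ℂ → ℂ) (a z : ℂ) (J : ℕ) :
    (μ z : ℂ) * exp ((N : ℂ) * (conj (h z) - h z)) * a =
      (∑ j ∈ Finset.range J, (μ z : ℂ) ^ (j + 1) * (Fj μ N h j z * a)) +
        ((μ z : ℂ) * exp ((N : ℂ) * (conj (h z) - h z))) ^ (J + 1) * a := by
  have hE : ∀ j : ℕ, exp (((((j : ℝ) + 1) * N : ℝ) : ℂ) * (conj (h z) - h z)) =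
      exp ((N : ℂ) * (conj (h z) - h z)) ^ (j + 1) := by
    intro j
    rw [← Complex.exp_nat_mul]
    congr 1
    push_cast
    ring
  induction J with
  | zero => simp
  | succ J ih =>
    rw [Finset.sum_range_succ, ih]
    have : Fj μ N h J z = exp ((N : ℂ) * (conj (h z) - h z)) ^ (J + 1) *
        (1 - (μ z : ℂ) * exp ((N : ℂ) * (conj (h z) - h z))) := by
      rw [Fj, hE]
    rw [this]
    ring

theorem piece_nAVG (h1 : S_bump) (h2 : S_basic) (_h3 : S_smooth) (h4 : S_chain) (h5 : S_weyl) : S_nAVG := by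
  intro U μ N h A B h0 hU hμ hloc hN hN0 hc hwd heq hen hLU
  have hTLU : TendstoLocallyUniformlyOn h h0 atTop U :=
    (tendstoLocallyUniformlyOn_iff_forall_isCompact hU).mpr fun K hKU hK => hLU K hK hKU
  have hc0 : ContinuousOn h0 U := hTLU.continuousOn (Filter.Eventually.frequently
    (Filter.Eventually.of_forall hc))
  have hL2 : L2loc U h0 := by
    intro K hK hKU
    have : IsFiniteMeasure (volume.restrict K) := ⟨by
      rw [Measure.restrict_apply_univ]
      exact hK.measure_lt_top⟩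
    obtain ⟨M, hM⟩ := hK.exists_bound_of_continuousOn (hc0.mono hKU)
    refine MemLp.of_bound ((hc0.mono hKU).aestronglyMeasurable hK.measurableSet) M ?_
    rw [ae_restrict_iff' hK.measurableSet]
    exact Filter.Eventually.of_forall hM
  have D : ∀ l, Dat U μ (N l) (h l) (A l) (B l) := by
    intro l
    refine ⟨hU, hμ, ?_, hN0 l, hc l, hwd l, heq l⟩
    intro z hz
    obtain ⟨q, hq, hqz⟩ := hloc {z} isCompact_singleton (by simpa using hz)
    exact (hqz z rfl).trans hq.le
  refine ((h5 U h0 hU hL2 ?_).2) hc0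
  intro φ hφ
  set K := tsupport φ with hKdef
  have hK : IsCompact K := hφ.2.1
  have hKU : K ⊆ U := hφ.2.2
  obtain ⟨cφ, cdφ⟩ := nAVG_cont hφ.1
  obtain ⟨Mφ, hMφ⟩ := hφ.2.1.exists_bound_of_continuous cφ
  have hMφ0 : 0 ≤ Mφ := (norm_nonneg _).trans (hMφ 0)
  have hz0 := nAVG_zero (φ := φ) (K := K) subset_rfl
  -- the integrals of `B l φ` tend to zero
  have hB0 : Tendsto (fun l => ∫ z, B l z * φ z) atTop (𝓝 0) := by
    rw [Metric.tendsto_nhds]
    intro ε hε
    obtain ⟨q, hq, hqK⟩ := hloc K hK hKU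
    set q' := max q 0 with hq'
    have hq'0 : 0 ≤ q' := le_max_right _ _
    have hq'1 : q' < 1 := max_lt hq one_pos
    have hq'K : ∀ z ∈ K, |μ z| ≤ q' := fun z hz => (hqK z hz).trans (le_max_left _ _)
    obtain ⟨C, hC⟩ := hen K hK hKU
    have hC0 : 0 ≤ C := le_trans (integral_nonneg fun z => by positivity) (hC 0)
    have hfin : IsFiniteMeasure (volume.restrict K) := ⟨by
      rw [Measure.restrict_apply_univ]
      exact hK.measure_lt_top⟩
    set V : ℝ := volume.real K with hV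
    have hV0 : 0 ≤ V := measureReal_nonneg
    obtain ⟨J, hJ⟩ : ∃ J : ℕ, q' ^ (J + 1) * (Mφ * (V + C)) < ε / 2 := by
      have t1 : Tendsto (fun J : ℕ => q' ^ (J + 1) * (Mφ * (V + C))) atTop (𝓝 (0 * (Mφ * (V + C)))) :=
        ((tendsto_pow_atTop_nhds_zero_of_lt_one hq'0 hq'1).comp (tendsto_add_atTop_nat 1)).mul_const _
      rw [zero_mul] at t1
      exact (t1.eventually (gt_mem_nhds (by positivity : (0 : ℝ) < ε / 2))).exists
    have hev : ∀ᶠ l in atTop, ∀ j ∈ Finset.range J,
        ‖∫ z, (φ z * (μ z : ℂ) ^ (j + 1) * K.indicator 1 z) * (Fj μ (N l) (h l) j z * conj (A l z))‖ ≤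
          ε / (2 * ((J : ℝ) + 1)) := by
      rw [Filter.eventually_all_finset]
      intro j _
      refine nAVG_pair h1 h2 h4 D hN hen hK hKU (M := Mφ) ?_ ?_ ?_ j (by positivity)
      · exact (cφ.measurable.mul ((Complex.measurable_ofReal.comp hμ).pow_const _)).mul
          (measurable_one.indicator hK.measurableSet)
      · intro z
        by_cases hz : z ∈ K
        · rw [indicator_of_mem hz]
          simp only [Pi.one_apply, mul_one, norm_mul, norm_pow, Complex.norm_real, Real.norm_eq_abs]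
          have h6 : |μ z| ^ (j + 1) ≤ 1 :=
            pow_le_one₀ (abs_nonneg _) ((hq'K z hz).trans hq'1.le)
          calc ‖φ z‖ * |μ z| ^ (j + 1) ≤ Mφ * 1 := by
                have := hMφ z
                gcongr
            _ = Mφ := mul_one _
        · rw [indicator_of_notMem hz]
          simpa using hMφ0
      · intro z hz
        rw [indicator_of_notMem hz, mul_zero]
    filter_upwards [hev] with l hl
    rw [dist_zero_right]
    have hD := D l
    obtain ⟨ia, ia2⟩ := nAVG_Aint hD.wd hK hKU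
    have hμm : AEStronglyMeasurable (fun z => (μ z : ℂ)) (volume.restrict K) :=
      (Complex.measurable_ofReal.comp hμ).aestronglyMeasurable
    have hEm := nAVG_expm hD (N l) hK hKU
    -- the terms
    have iT : ∀ j ∈ Finset.range J, Integrable
        (fun z => φ z * ((μ z : ℂ) ^ (j + 1) * (Fj μ (N l) (h l) j z * conj (A l z)))) (volume.restrict K) := by
      intro j _
      have iW : Integrable (fun z => Fj μ (N l) (h l) j z * conj (A l z)) (volume.restrict K) :=
        nAVG_bint (nAVG_Fm hD j hK hKU) hK.measurableSet (fun z hz => nAVG_Fbd hD j z (hKU hz)) ia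
      have iW2 : Integrable (fun z => (μ z : ℂ) ^ (j + 1) * (Fj μ (N l) (h l) j z * conj (A l z)))
          (volume.restrict K) := by
        refine nAVG_bint (M := 1) (hμm.pow (j + 1)) hK.measurableSet (fun z hz => ?_) iW
        rw [norm_pow, Complex.norm_real, Real.norm_eq_abs]
        exact pow_le_one₀ (abs_nonneg _) ((hq'K z hz).trans hq'1.le)
      exact nAVG_bint cφ.aestronglyMeasurable hK.measurableSet (fun z _ => hMφ z) iW2
    have iR : Integrable (fun z => φ z * (((μ z : ℂ) * exp ((N l : ℂ) * (conj (h l z) - h l z))) ^ (J + 1) * conj (A l z)))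
        (volume.restrict K) := by
      have iW2 : Integrable (fun z => ((μ z : ℂ) * exp ((N l : ℂ) * (conj (h l z) - h l z))) ^ (J + 1) * conj (A l z))
          (volume.restrict K) := by
        refine nAVG_bint (M := 1) ((hμm.mul hEm).pow (J + 1)) hK.measurableSet (fun z hz => ?_) ia
        rw [norm_pow, norm_mul, nAVG_normexp, mul_one, Complex.norm_real, Real.norm_eq_abs]
        exact pow_le_one₀ (abs_nonneg _) ((hq'K z hz).trans hq'1.le)
      exact nAVG_bint cφ.aestronglyMeasurable hK.measurableSet (fun z _ => hMφ z) iW2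
    have e1 : ∫ z, B l z * φ z = ∫ z in K, B l z * φ z := by
      symm
      refine setIntegral_eq_integral_of_forall_compl_eq_zero fun z hz => ?_
      rw [(hz0 z hz).1, mul_zero]
    have e2 : ∫ z in K, B l z * φ z =
        ∫ z in K, ((∑ j ∈ Finset.range J, φ z * ((μ z : ℂ) ^ (j + 1) * (Fj μ (N l) (h l) j z * conj (A l z)))) +
          φ z * (((μ z : ℂ) * exp ((N l : ℂ) * (conj (h l z) - h l z))) ^ (J + 1) * conj (A l z))) := by
      refine integral_congr_ae ?_
      have hae : ∀ᵐ z ∂(volume.restrict K), B l z = (μ z : ℂ) * exp ((N l : ℂ) * (conj (h l z) - h l z)) * conj (A l z) :=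
        ae_restrict_of_ae_restrict_of_subset hKU (heq l)
      filter_upwards [hae] with z hz
      rw [hz, nAVG_geom μ (N l) (h l) (conj (A l z)) z J, add_mul, Finset.sum_mul]
      congr 1
      · exact Finset.sum_congr rfl fun j _ => by ring
      · ring
    rw [e1, e2, integral_add (integrable_finsetSum _ iT) iR, integral_finsetSum _ iT]
    have b1 : ‖∑ j ∈ Finset.range J, ∫ z in K, φ z * ((μ z : ℂ) ^ (j + 1) * (Fj μ (N l) (h l) j z * conj (A l z)))‖ ≤ ε / 2 := by
      refine (norm_sum_le _ _).trans ?_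
      have h7 : ∀ j ∈ Finset.range J, ‖∫ z in K, φ z * ((μ z : ℂ) ^ (j + 1) * (Fj μ (N l) (h l) j z * conj (A l z)))‖ ≤
          ε / (2 * ((J : ℝ) + 1)) := by
        intro j hj
        refine le_trans (le_of_eq ?_) (hl j hj)
        congr 1
        have e3 : ∫ z, (φ z * (μ z : ℂ) ^ (j + 1) * K.indicator 1 z) * (Fj μ (N l) (h l) j z * conj (A l z)) =
            ∫ z in K, (φ z * (μ z : ℂ) ^ (j + 1) * K.indicator 1 z) * (Fj μ (N l) (h l) j z * conj (A l z)) := by
          symm
          refine setIntegral_eq_integral_of_forall_compl_eq_zero fun z hz => ?_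
          rw [indicator_of_notMem hz, mul_zero, zero_mul]
        rw [e3]
        refine setIntegral_congr_fun hK.measurableSet fun z hz => ?_
        simp only [indicator_of_mem hz, Pi.one_apply, mul_one]
        ring
      refine (Finset.sum_le_card_nsmul _ _ _ h7).trans ?_
      rw [Finset.card_range, nsmul_eq_mul]
      have hJ0 : (0 : ℝ) ≤ (J : ℝ) := Nat.cast_nonneg J
      have e4 : (J : ℝ) * (ε / (2 * ((J : ℝ) + 1))) = (ε / 2) * ((J : ℝ) / ((J : ℝ) + 1)) := by
        field_simp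
      rw [e4]
      have h8 : (J : ℝ) / ((J : ℝ) + 1) ≤ 1 := by
        rw [div_le_one (by positivity)]; linarith
      nlinarith
    have b2 : ‖∫ z in K, φ z * (((μ z : ℂ) * exp ((N l : ℂ) * (conj (h l z) - h l z))) ^ (J + 1) * conj (A l z))‖ ≤
        q' ^ (J + 1) * (Mφ * (V + C)) := by
      have ig : Integrable (fun z => q' ^ (J + 1) * Mφ * (1 + ‖A l z‖ ^ 2)) (volume.restrict K) :=
        ((integrable_const (1 : ℝ)).add ia2).const_mul _
      refine (norm_integral_le_of_norm_le ig ?_).trans ?_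
      · rw [ae_restrict_iff' hK.measurableSet]
        refine Filter.Eventually.of_forall fun z hz => ?_
        rw [norm_mul, norm_mul, norm_pow, norm_mul, nAVG_normexp, mul_one, Complex.norm_real,
          Real.norm_eq_abs, RCLike.norm_conj]
        have h9 : |μ z| ^ (J + 1) ≤ q' ^ (J + 1) := pow_le_pow_left₀ (abs_nonneg _) (hq'K z hz) _
        have h10 : ‖A l z‖ ≤ 1 + ‖A l z‖ ^ 2 := by nlinarith [norm_nonneg (A l z), sq_nonneg (‖A l z‖ - 1 / 2)]
        calc ‖φ z‖ * (|μ z| ^ (J + 1) * ‖A l z‖) ≤ Mφ * (q' ^ (J + 1) * (1 + ‖A l z‖ ^ 2)) := by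
              have := hMφ z
              gcongr
          _ = q' ^ (J + 1) * Mφ * (1 + ‖A l z‖ ^ 2) := by ring
      · rw [integral_const_mul, integral_add (integrable_const _) ia2, integral_const, smul_eq_mul, mul_one]
        have e5 : (volume.restrict K).real univ = V := by
          rw [hV, measureReal_restrict_apply_univ]
        rw [e5]
        have := hC l
        calc q' ^ (J + 1) * Mφ * (V + ∫ z in K, ‖A l z‖ ^ 2) ≤ q' ^ (J + 1) * Mφ * (V + C) := by gcongr
          _ = q' ^ (J + 1) * (Mφ * (V + C)) := by ring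
    calc _ ≤ ‖∑ j ∈ Finset.range J, ∫ z in K, φ z * ((μ z : ℂ) ^ (j + 1) * (Fj μ (N l) (h l) j z * conj (A l z)))‖ +
          ‖∫ z in K, φ z * (((μ z : ℂ) * exp ((N l : ℂ) * (conj (h l z) - h l z))) ^ (J + 1) * conj (A l z))‖ :=
          norm_add_le _ _
      _ < ε / 2 + ε / 2 := by linarith
      _ = ε := by ring
  -- the integrals of `h l` against `db φ` converge
  have hlim : Tendsto (fun l => ∫ z, h l z * db φ z) atTop (𝓝 (∫ z, h0 z * db φ z)) := by
    have hfin : IsFiniteMeasure (volume.restrict K) := ⟨by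
      rw [Measure.restrict_apply_univ]
      exact hK.measure_lt_top⟩
    obtain ⟨Md, hMd⟩ := hK.exists_bound_of_continuousOn cdφ.continuousOn
    have e1 : ∀ f : ℂ → ℂ, ∫ z, f z * db φ z = ∫ z in K, f z * db φ z := by
      intro f
      symm
      refine setIntegral_eq_integral_of_forall_compl_eq_zero fun z hz => ?_
      rw [(hz0 z hz).2, mul_zero]
    simp_rw [e1]
    have im : ∀ f : ℂ → ℂ, ContinuousOn f U → Integrable (fun z => f z * db φ z) (volume.restrict K) := by
      intro f hf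
      exact ((hf.mono hKU).mul cdφ.continuousOn).integrableOn_compact hK
    rw [Metric.tendsto_nhds]
    intro ε hε
    have hV0 : 0 ≤ volume.real K := measureReal_nonneg
    set Md' := max Md 0 with hMd'
    have hMd'0 : 0 ≤ Md' := le_max_right _ _
    have hu := Metric.tendstoUniformlyOn_iff.mp (hLU K hK hKU) (ε / (2 * (Md' * volume.real K + 1))) (by positivity)
    filter_upwards [hu] with l hl
    rw [dist_eq_norm, ← integral_sub (im _ (hc l)) (im _ hc0)]
    have h6 : ‖∫ z in K, (h l z * db φ z - h0 z * db φ z)‖ ≤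
        (ε / (2 * (Md' * volume.real K + 1)) * Md') * (volume.restrict K).real univ := by
      refine norm_integral_le_of_norm_le_const ?_
      rw [ae_restrict_iff' hK.measurableSet]
      refine Filter.Eventually.of_forall fun z hz => ?_
      rw [← sub_mul, norm_mul]
      have h7 := (hl z hz).le
      rw [dist_comm, dist_eq_norm] at h7
      have h8 : ‖db φ z‖ ≤ Md' := (hMd z hz).trans (le_max_left _ _)
      gcongr
    rw [measureReal_restrict_apply_univ] at h6
    refine lt_of_le_of_lt h6 ?_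
    have e6 : ε / (2 * (Md' * volume.real K + 1)) * Md' * volume.real K =
        (ε / 2) * ((Md' * volume.real K) / (Md' * volume.real K + 1)) := by
      field_simp
    rw [e6]
    have h9 : (Md' * volume.real K) / (Md' * volume.real K + 1) ≤ 1 := by
      rw [div_le_one (by positivity)]; linarith
    nlinarith [hε]
  have hneg : (fun l => ∫ z, h l z * db φ z) = fun l => - ∫ z, B l z * φ z := by
    funext l
    exact (hwd l).hB φ hφ
  rw [hneg] at hlim
  have h6 : Tendsto (fun l => - ∫ z, B l z * φ z) atTop (𝓝 (-0)) := hB0.neg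
  rw [neg_zero] at h6
  exact tendsto_nhds_unique hlim h6

end

end Cal
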