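import Pool.Agent.Lib.MP_4ea4c7_an.StmH8

/-!
[CH n25] `Λ_θ = Λ'_θ` on `G`.
-/

set_option autoImplicit false

open MeasureTheory Complex Metric Set Filter Topology
open scoped ComplexConjugate ENNReal NNReal

namespace Cal

theorem piece_nLam (h1 : S_nalg) (h2 : S_nlwd) (h3 : S_nsep) (h4 : S_nNeq) (h5 : S_nNfar) : S_nLam := by
  intro G μ μ' X Y g X' Y' g' ha ha' hag θ hθ0 hθ1 z hz k
  obtain ⟨⟨k0, hadm⟩, hls⟩ := ha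
  obtain ⟨⟨k0', hadm'⟩, hls'⟩ := ha'
  have ha : AL G μ X Y g := ⟨⟨k0, hadm⟩, hls⟩
  have ha' : AL G μ' X' Y' g' := ⟨⟨k0', hadm'⟩, hls'⟩
  by_cases hk : k = 0
  · subst hk
    rw [((h1 G μ X Y g hls).2 θ hθ0 hθ1).2.1 z hz, ((h1 G μ' X' Y' g' hls').2 θ hθ0 hθ1).2.1 z hz]
  · obtain ⟨hc', A, B, hw⟩ := h2 G μ' X' Y' g' ha' θ k hθ0 hθ1
    obtain ⟨hc, -⟩ := h2 G μ X Y g ha θ k hθ0 hθ1
    have hne : ∀ z ∈ G, ∀ w ∈ G, z ≠ w → Lam X' Y' g' θ w k ≠ Lam X Y g θ z k := by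
      intro z hz w hw hzw
      exact (h3 G μ μ' X Y g X' Y' g' ha ha' hag θ hθ0 hθ1 z hz w hw hzw k hk).symm
    have hfar := h5 G μ μ' X Y g X' Y' g' ha ha' θ k hθ0 hθ1 hk A B hw
    exact (h4 G (fun w => Lam X' Y' g' θ w k) A B (fun z => Lam X Y g θ z k) hadm.oG
      hadm.cG.isPreconnected hc' hw hc hne hfar z hz).symm

end Cal
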