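import Pool.Agent.Lib.MP_4ea4c7_an.StmH8

/-!
# MP_4ea4c7_an, stage 2: piece N27
-/

open MeasureTheory Complex Metric Set Filter Topology
open scoped ComplexConjugate ENNReal NNReal

namespace Cal

private lemma nNeq_gap (f : ℂ → ℂ) (v : ℂ) (K : Set ℂ) (hK : IsCompact K) (hf : ContinuousOn f K)
    (hv : ∀ w ∈ K, f w ≠ v) : ∃ δ : ℝ, 0 < δ ∧ ∀ w ∈ K, δ ≤ ‖f w - v‖ := by
  have hc : IsClosed (f '' K) := (hK.image_of_continuousOn hf).isClosed
  have hv' : v ∈ (f '' K)ᶜ := by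
    rintro ⟨w, hw, h⟩
    exact hv w hw h
  obtain ⟨δ, hδ, hb⟩ := Metric.isOpen_iff.mp hc.isOpen_compl v hv'
  refine ⟨δ, hδ, fun w hw => ?_⟩
  by_contra hlt
  push Not at hlt
  exact hb (mem_ball_iff_norm.mpr hlt) ⟨w, hw, rfl⟩

theorem piece_nNeq (h1 : S_nNloc) : S_nNeq := by
  intro G f A B p hG hGc hf hWD hp hne hex z hz
  set P : ℂ → Prop := fun z => ∃ r : ℝ, 0 < r ∧ closedBall z r ⊆ G ∧ Deg1 f A B z (p z) r with hP
  have hloc : ∀ z ∈ G, ∃ ε : ℝ, 0 < ε ∧ ∀ z' ∈ ball z ε, z' ∈ G ∧ (P z ↔ P z') := by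
    intro z hz
    obtain ⟨ε, hε, h⟩ := h1 G f A B p hG hf hWD hp hne z hz
    obtain ⟨ε', hε', h'⟩ := Metric.isOpen_iff.mp hG z hz
    refine ⟨min ε ε', lt_min hε hε', fun z' hz' => ?_⟩
    have h2 : z' ∈ G := h' (ball_subset_ball (min_le_right _ _) hz')
    refine ⟨h2, h z' h2 ?_⟩
    rw [mem_ball_iff_norm] at hz'
    exact hz'.trans_le (min_le_left _ _)
  have hopen : ∀ Q : Prop → Prop, (∀ a b : Prop, (a ↔ b) → Q a → Q b) → IsOpen {z | z ∈ G ∧ Q (P z)} := by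
    intro Q hQ
    rw [Metric.isOpen_iff]
    rintro z ⟨hz, hq⟩
    obtain ⟨ε, hε, h⟩ := hloc z hz
    exact ⟨ε, hε, fun z' hz' => ⟨(h z' hz').1, hQ _ _ (h z' hz').2 hq⟩⟩
  have hu : IsOpen {z | z ∈ G ∧ P z} := hopen (fun a => a) (fun a b h ha => h.mp ha)
  have hv : IsOpen {z | z ∈ G ∧ ¬ P z} := hopen (fun a => ¬ a) (fun a b h ha hb => ha (h.mpr hb))
  have hall : ∀ z ∈ G, P z := by
    rcases (isPreconnected_iff_subset_of_disjoint.mp hGc) _ _ hu hv
      (fun w hw => by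
        by_cases hw2 : P w
        · exact Or.inl ⟨hw, hw2⟩
        · exact Or.inr ⟨hw, hw2⟩)
      (by
        ext w
        simp only [mem_inter_iff, mem_setOf_eq, mem_empty_iff_false, iff_false]
        rintro ⟨-, ⟨-, h3⟩, -, h4⟩
        exact h4 h3) with h | h
    · exact fun z hz => (h hz).2
    · obtain ⟨w, hw, hPw⟩ := hex
      exact absurd hPw (h hw).2
  obtain ⟨r, hr, hrG, δ, hδ, hdeg⟩ := hall z hz
  by_contra hfz
  obtain ⟨ε, hε, hgap⟩ := nNeq_gap f (p z) (closedBall z r) (isCompact_closedBall z r) (hf.mono hrG)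
    (fun w hw => by
      by_cases hwz : z = w
      · rw [← hwz]
        exact hfz
      · exact hne z hz w (hrG hw) hwz)
  have hm : 0 < min δ ε := lt_min hδ hε
  let ψ : ContDiffBump (0 : ℂ) := ⟨min δ ε / 4, min δ ε / 2, by positivity, by linarith⟩
  have hts : tsupport (ψ : ℂ → ℝ) = closedBall 0 (min δ ε / 2) := ψ.tsupport_eq
  have hψ : RTF (ball 0 δ) (ψ : ℂ → ℝ) := by
    refine ⟨ψ.contDiff, ψ.hasCompactSupport, ?_⟩
    rw [hts]
    apply closedBall_subset_ball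
    have := min_le_left δ ε
    linarith
  have h5 := hdeg ψ hψ
  have h6 : 0 < ∫ w, (ψ : ℂ → ℝ) w := ψ.integral_pos
  have h7 : ∫ w in ball z r, (ψ : ℂ → ℝ) (f w - p z) * (‖A w‖ ^ 2 - ‖B w‖ ^ 2) = 0 := by
    apply setIntegral_eq_zero_of_forall_eq_zero
    intro w hw
    have h8 := hgap w (ball_subset_closedBall hw)
    have h9 : (ψ : ℂ → ℝ) (f w - p z) = 0 := by
      apply image_eq_zero_of_notMem_tsupport
      rw [hts, mem_closedBall_zero_iff]
      have := min_le_right δ ε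
      intro h10
      linarith
    rw [h9, zero_mul]
  rw [h7] at h5
  linarith

end Cal
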