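import Pool.Agent.Lib.MP_4ea4c7_an.StmH8

/-!
# MP_4ea4c7_an, stage 2, piece [N28]: degree one near infinity
-/

open MeasureTheory Complex Metric Set Filter Topology
open scoped ComplexConjugate ENNReal NNReal

namespace Cal

noncomputable section

/-- linear change of variables -/
private lemma nNfar_cov (ψ : ℂ → ℝ) (c z : ℂ) (hc : c ≠ 0) :
    ∫ w, ψ (c * (w - z)) * ‖c‖ ^ 2 = ∫ w, ψ w := by
  have hn : ‖c‖ ≠ 0 := norm_ne_zero_iff.2 hc
  have hcn : (‖c‖ : ℂ) ≠ 0 := by exact_mod_cast hn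
  rw [integral_mul_const]
  have h1 : ∫ w, ψ (c * (w - z)) = ∫ w, ψ (c * w) := integral_sub_right_eq_self (fun w => ψ (c * w)) z
  have hu : c / (‖c‖ : ℂ) ∈ Submonoid.unitSphere ℂ := by
    change c / (‖c‖ : ℂ) ∈ Metric.sphere (0 : ℂ) 1
    simp [hn]
  have h2 : ∫ w, ψ (c * w) = ∫ w, ψ ((‖c‖ : ℝ) • w) := by
    have h3 := (rotation (⟨c / (‖c‖ : ℂ), hu⟩ : Circle)).measurePreserving.integral_comp
      (rotation (⟨c / (‖c‖ : ℂ), hu⟩ : Circle)).toHomeomorph.measurableEmbedding (fun w => ψ ((‖c‖ : ℝ) • w))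
    rw [← h3]
    refine integral_congr_ae (Eventually.of_forall fun w => ?_)
    simp only [rotation_apply]
    congr 1
    rw [Complex.real_smul]
    field_simp
  rw [h1, h2, Measure.integral_comp_smul]
  simp only [Complex.finrank_real_complex, smul_eq_mul]
  rw [abs_of_pos (by positivity)]
  field_simp

theorem piece_nNfar (h1 : S_basic) (h2 : S_smooth) (h3 : S_nfar) (h4 : S_bdegloc) (h5 : S_nalg) : S_nNfar := by
  intro G μ μ' X Y g X' Y' g' hA hA' θ k hθ0 hθ1 hk A B hWD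
  obtain ⟨C, hC1, hC⟩ := h3 G μ X Y g hA
  obtain ⟨C', hC1', hC'⟩ := h3 G μ' X' Y' g' hA'
  have hkn : 0 < ‖k‖ := norm_pos_iff.2 hk
  obtain ⟨⟨k0, hadm⟩, hLS⟩ := hA
  obtain ⟨⟨k0', hadm'⟩, hLS'⟩ := hA'
  -- the centre
  set T : ℝ := 4 + 16 * (C + C') + (C + C') * ‖k‖ with hT
  have hTpos : 0 < T := by positivity
  have hTn : ‖(T : ℂ)‖ = T := by simp [abs_of_pos hTpos]
  have hball : ∀ w ∈ closedBall (T : ℂ) 1, 3 + 16 * (C + C') + (C + C') * ‖k‖ ≤ ‖w‖ := by
    intro w hw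
    have h := norm_sub_norm_le (T : ℂ) ((T : ℂ) - w)
    have h' : ‖(T : ℂ) - w‖ ≤ 1 := by
      rw [← dist_eq_norm, dist_comm]; exact hw
    rw [sub_sub_cancel, hTn] at h
    linarith
  have hG : closedBall (T : ℂ) 1 ⊆ G := by
    intro w hw
    refine hadm.ext w ?_
    have := hball w hw
    have : 0 ≤ (C + C') * ‖k‖ := by positivity
    linarith
  set f : ℂ → ℂ := fun w => Lam X' Y' g' θ w k with hf
  set v : ℂ := Lam X Y g θ (T : ℂ) k with hv
  -- the estimate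
  have hest : ∀ w ∈ closedBall (T : ℂ) 1, ‖(f w - v) - I * k * (w - (T : ℂ))‖ ≤ ‖k‖ / 16 := by
    intro w hw
    have hw' := hball w hw
    have hCk : 0 ≤ C * ‖k‖ := by positivity
    have hCk' : 0 ≤ C' * ‖k‖ := by positivity
    have hz2 : (2 : ℝ) ≤ ‖(T : ℂ)‖ := by rw [hTn, hT]; nlinarith
    have hw2 : (2 : ℝ) ≤ ‖w‖ := by nlinarith
    have e1 := (hC (T : ℂ) hz2 k θ hθ0 hθ1).2 (by rw [hTn, hT]; nlinarith)
    have e2 := (hC' w hw2 k θ hθ0 hθ1).2 (by nlinarith)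
    have hsum : (f w - v) - I * k * (w - (T : ℂ)) =
        (Lam X' Y' g' θ w k - I * k * w + I * (θ : ℂ)) - (Lam X Y g θ (T : ℂ) k - I * k * (T : ℂ) + I * (θ : ℂ)) := by
      simp only [hf, hv]; ring
    rw [hsum]
    refine (norm_sub_le _ _).trans ?_
    have e3 : C' * ‖k‖ / ‖w‖ ≤ C' * ‖k‖ / (16 * (C + C')) := by
      gcongr
      nlinarith
    have e4 : C * ‖k‖ / ‖(T : ℂ)‖ ≤ C * ‖k‖ / (16 * (C + C')) := by
      gcongr
      rw [hTn, hT]; nlinarith
    have e5 : C' * ‖k‖ / (16 * (C + C')) + C * ‖k‖ / (16 * (C + C')) = ‖k‖ / 16 := by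
      have : C + C' ≠ 0 := by positivity
      field_simp
      ring
    linarith
  have hTG : (T : ℂ) ∈ G := hG (mem_closedBall_self zero_le_one)
  refine ⟨(T : ℂ), hTG, 1, one_pos, hG, ‖k‖ / 8, by positivity, ?_⟩
  intro ψ hψ
  -- continuity
  have hfc : ContinuousOn f G := by
    have h := (h5 G μ' X' Y' g' hLS').2 θ hθ0 hθ1
    refine h.2.2.comp (f := fun w : ℂ => ((w, k) : ℂ × ℂ)) (by fun_prop) ?_
    intro w hw
    exact ⟨hw, mem_univ _⟩
  have hbG : ball (T : ℂ) 1 ⊆ G := ball_subset_closedBall.trans hG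
  -- weak derivatives
  have hW1 : WD (ball (T : ℂ) 1) (fun w => f w - v) A B := by
    have ha := h1.2.2.2.2.1 G (ball (T : ℂ) 1) f A B hbG hWD
    have hb := h2.2.1 (ball (T : ℂ) 1) (fun _ => -v) isOpen_ball (differentiableOn_const _)
    have hc := h1.1 _ _ _ _ _ _ _ ha hb
    simpa [sub_eq_add_neg] using hc
  have hder : deriv (fun w : ℂ => I * k * (w - (T : ℂ))) = fun _ => I * k := by
    funext w
    have : HasDerivAt (fun w : ℂ => I * k * (w - (T : ℂ))) (I * k * 1) w :=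
      ((hasDerivAt_id w).sub_const (T : ℂ)).const_mul (I * k)
    rw [this.deriv, mul_one]
  have hW2 : WD (ball (T : ℂ) 1) (fun w => I * k * (w - (T : ℂ))) (fun _ => I * k) (fun _ => 0) := by
    have hb := h2.2.1 (ball (T : ℂ) 1) (fun w => I * k * (w - (T : ℂ))) isOpen_ball (by fun_prop)
    rwa [hder] at hb
  have key := h4 (T : ℂ) (1 / 2) 1 (‖k‖ / 8) (fun w => f w - v) A B (fun w => I * k * (w - (T : ℂ))) (fun _ => I * k) (fun _ => 0) ψ
    (by norm_num) (by norm_num) (by positivity) ((hfc.mono hbG).sub continuousOn_const) hW1 (by fun_prop) hW2 ?_ hψ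
  · rw [key]
    have hIk : ‖I * k‖ = ‖k‖ := by simp
    have e1 : ∫ w in ball (T : ℂ) 1, ψ (I * k * (w - (T : ℂ))) * (‖I * k‖ ^ 2 - ‖(0 : ℂ)‖ ^ 2) =
        ∫ w, ψ (I * k * (w - (T : ℂ))) * ‖I * k‖ ^ 2 := by
      rw [norm_zero]
      simp only [ne_eq, OfNat.ofNat_ne_zero, not_false_eq_true, zero_pow, sub_zero]
      refine setIntegral_eq_integral_of_forall_compl_eq_zero ?_
      intro w hw
      have hw1 : 1 ≤ ‖w - (T : ℂ)‖ := by
        simpa [dist_eq_norm] using hw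
      have : ψ (I * k * (w - (T : ℂ))) = 0 := by
        refine image_eq_zero_of_notMem_tsupport (fun h => ?_)
        have := hψ.2.2 h
        rw [mem_ball, dist_zero_right, norm_mul, hIk] at this
        nlinarith
      rw [this, zero_mul]
    rw [e1]
    exact nNfar_cov ψ (I * k) (T : ℂ) (mul_ne_zero I_ne_zero hk)
  · intro w hw hw1
    have he := hest w (ball_subset_closedBall hw)
    have hn : ‖I * k * (w - (T : ℂ))‖ = ‖k‖ * ‖w - (T : ℂ)‖ := by simp
    refine ⟨?_, by linarith⟩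
    have h := norm_sub_norm_le (I * k * (w - (T : ℂ))) (f w - v)
    rw [norm_sub_rev (I * k * (w - (T : ℂ))) (f w - v), hn] at h
    nlinarith

end

end Cal
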