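import Pool.Agent.Lib.MP_4ea4c7_an.StmH8

/-!
# MP_4ea4c7_an, stage 2: piece N26
-/

open MeasureTheory Complex Metric Set Filter Topology
open scoped ComplexConjugate ENNReal NNReal

namespace Cal

/-- a value which is not attained on a compact set has positive distance -/
private lemma nNloc_gap (f : ℂ → ℂ) (v : ℂ) (K : Set ℂ) (hK : IsCompact K) (hf : ContinuousOn f K)
    (hv : ∀ w ∈ K, f w ≠ v) : ∃ δ : ℝ, 0 < δ ∧ ∀ w ∈ K, δ ≤ ‖f w - v‖ := by
  have hc : IsClosed (f '' K) := (hK.image_of_continuousOn hf).isClosed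
  have hv' : v ∈ (f '' K)ᶜ := by
    rintro ⟨w, hw, h⟩
    exact hv w hw h
  obtain ⟨δ, hδ, hb⟩ := Metric.isOpen_iff.mp hc.isOpen_compl v hv'
  refine ⟨δ, hδ, fun w hw => ?_⟩
  by_contra hlt
  push Not at hlt
  exact hb (mem_ball_iff_norm.mpr hlt) ⟨w, hw, rfl⟩

private lemma nNloc_rtf {δ δ' : ℝ} {ψ : ℂ → ℝ} (h : δ ≤ δ') (hψ : RTF (ball 0 δ) ψ) : RTF (ball 0 δ') ψ :=
  ⟨hψ.1, hψ.2.1, hψ.2.2.trans (ball_subset_ball h)⟩

private lemma nNloc_zero {δ : ℝ} {ψ : ℂ → ℝ} (hψ : RTF (ball 0 δ) ψ) {w : ℂ} (hw : δ ≤ ‖w‖) : ψ w = 0 := by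
  apply image_eq_zero_of_notMem_tsupport
  intro h
  have := hψ.2.2 h
  rw [mem_ball_zero_iff] at this
  linarith

private lemma nNloc_int (f A B : ℂ → ℂ) (v : ℂ) (S T K : Set ℂ) (hT : MeasurableSet T) (hST : S ⊆ T)
    (hK : IsCompact K) (hf : ContinuousOn f K) (hv : ∀ w ∈ K, f w ≠ v) (hTK : T \ S ⊆ K) :
    ∃ δ : ℝ, 0 < δ ∧ ∀ ψ : ℂ → ℝ, RTF (ball 0 δ) ψ →
      ∫ w in T, ψ (f w - v) * (‖A w‖ ^ 2 - ‖B w‖ ^ 2) = ∫ w in S, ψ (f w - v) * (‖A w‖ ^ 2 - ‖B w‖ ^ 2) := by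
  obtain ⟨δ, hδ, hb⟩ := nNloc_gap f v K hK hf hv
  refine ⟨δ, hδ, fun ψ hψ => ?_⟩
  refine setIntegral_eq_of_subset_of_forall_sdiff_eq_zero hT hST (fun w hw => ?_)
  rw [nNloc_zero hψ (hb w (hTK hw)), zero_mul]

private lemma nNloc_congr (f A B : ℂ → ℂ) (z v z' v' : ℂ) (r r' : ℝ)
    (h : ∃ δ : ℝ, 0 < δ ∧ ∀ ψ : ℂ → ℝ, RTF (ball 0 δ) ψ →
      ∫ w in ball z r, ψ (f w - v) * (‖A w‖ ^ 2 - ‖B w‖ ^ 2) = ∫ w in ball z' r', ψ (f w - v') * (‖A w‖ ^ 2 - ‖B w‖ ^ 2)) :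
    Deg1 f A B z v r ↔ Deg1 f A B z' v' r' := by
  obtain ⟨δ, hδ, hb⟩ := h
  constructor
  · rintro ⟨ε, hε, h1⟩
    refine ⟨min δ ε, lt_min hδ hε, fun ψ hψ => ?_⟩
    rw [← hb ψ (nNloc_rtf (min_le_left _ _) hψ)]
    exact h1 ψ (nNloc_rtf (min_le_right _ _) hψ)
  · rintro ⟨ε, hε, h1⟩
    refine ⟨min δ ε, lt_min hδ hε, fun ψ hψ => ?_⟩
    rw [hb ψ (nNloc_rtf (min_le_left _ _) hψ)]
    exact h1 ψ (nNloc_rtf (min_le_right _ _) hψ)

private lemma nNloc_mono (G : Set ℂ) (f A B p : ℂ → ℂ) (hf : ContinuousOn f G)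
    (hne : ∀ z ∈ G, ∀ w ∈ G, z ≠ w → f w ≠ p z) (z : ℂ) (hz : z ∈ G) (r r' : ℝ) (hr : 0 < r) (hrr : r ≤ r')
    (hr' : closedBall z r' ⊆ G) : Deg1 f A B z (p z) r ↔ Deg1 f A B z (p z) r' := by
  apply nNloc_congr
  obtain ⟨δ, hδ, hb⟩ := nNloc_int f A B (p z) (ball z r) (ball z r') (closedBall z r' \ ball z r) measurableSet_ball
    (ball_subset_ball hrr) ((isCompact_closedBall z r').diff isOpen_ball) (hf.mono (sdiff_subset.trans hr'))
    (fun w hw => hne z hz w (hr' hw.1) (by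
      rintro rfl
      exact hw.2 (mem_ball_self hr)))
    (sdiff_subset_sdiff_left ball_subset_closedBall)
  exact ⟨δ, hδ, fun ψ hψ => (hb ψ hψ).symm⟩

private lemma nNloc_iff (G : Set ℂ) (f A B p : ℂ → ℂ) (hf : ContinuousOn f G)
    (hne : ∀ z ∈ G, ∀ w ∈ G, z ≠ w → f w ≠ p z) (z : ℂ) (hz : z ∈ G) (r : ℝ) (hr : 0 < r)
    (hrG : closedBall z r ⊆ G) :
    (∃ r : ℝ, 0 < r ∧ closedBall z r ⊆ G ∧ Deg1 f A B z (p z) r) ↔ Deg1 f A B z (p z) r := by
  constructor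
  · rintro ⟨s, hs, hsG, h⟩
    rcases le_total s r with hle | hle
    · exact (nNloc_mono G f A B p hf hne z hz s r hs hle hrG).mp h
    · exact (nNloc_mono G f A B p hf hne z hz r s hr hle hsG).mpr h
  · intro h
    exact ⟨r, hr, hrG, h⟩

private lemma nNloc_sub (h1 : S_basic) (h2 : S_smooth) (U : Set ℂ) (hU : IsOpen U) (f A B : ℂ → ℂ) (v : ℂ)
    (h : WD U f A B) : WD U (fun w => f w - v) A B := by
  have hc : WD U (fun _ => -v) (deriv (fun _ => -v)) (fun _ => 0) :=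
    h2.2.1 U (fun _ => -v) hU (differentiableOn_const _)
  have hs := h1.1 U f A B _ _ _ h hc
  have e1 : (fun z => A z + deriv (fun _ => -v) z) = A := by
    funext z
    simp
  have e2 : (fun z => B z + (0 : ℂ)) = B := by
    funext z
    simp
  have e3 : (fun z => f z + -v) = fun w => f w - v := by
    funext z
    ring
  rw [e1, e2, e3] at hs
  exact hs

theorem piece_nNloc (h1 : S_basic) (h2 : S_smooth) (h3 : S_bdegloc) : S_nNloc := by
  intro G f A B p hG hf hWD hp hne z hz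
  obtain ⟨r, hr, hrG⟩ := Metric.nhds_basis_closedBall.mem_iff.mp (hG.mem_nhds hz)
  -- the collar
  obtain ⟨δ', hδ', hcol⟩ := nNloc_gap f (p z) (closedBall z r \ ball z (r / 2))
    ((isCompact_closedBall z r).diff isOpen_ball) (hf.mono (sdiff_subset.trans hrG))
    (fun w hw => hne z hz w (hrG hw.1) (by
      rintro rfl
      exact hw.2 (mem_ball_self (by positivity))))
  obtain ⟨ε₁, hε₁, hpε⟩ := Metric.continuousOn_iff.mp hp z hz (δ' / 3) (by positivity)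
  refine ⟨min ε₁ (r / 4), lt_min hε₁ (by positivity), fun z' hz' hzz => ?_⟩
  have hz1 : ‖z' - z‖ < ε₁ := hzz.trans_le (min_le_left _ _)
  have hz2 : ‖z' - z‖ < r / 4 := hzz.trans_le (min_le_right _ _)
  have hpp : ‖p z' - p z‖ < δ' / 3 := by
    have := hpε z' hz' (by rwa [dist_eq_norm])
    rwa [dist_eq_norm] at this
  have hsub : closedBall z' (r / 4) ⊆ ball z r := by
    intro w hw
    rw [mem_closedBall_iff_norm] at hw
    rw [mem_ball_iff_norm]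
    calc ‖w - z‖ = ‖(w - z') + (z' - z)‖ := by ring_nf
      _ ≤ ‖w - z'‖ + ‖z' - z‖ := norm_add_le _ _
      _ < r := by linarith
  have hsubG : closedBall z' (r / 4) ⊆ G := hsub.trans (ball_subset_closedBall.trans hrG)
  rw [nNloc_iff G f A B p hf hne z hz r hr hrG,
    nNloc_iff G f A B p hf hne z' hz' (r / 4) (by positivity) hsubG]
  apply nNloc_congr
  obtain ⟨δ₃, hδ₃, hb⟩ := nNloc_int f A B (p z') (ball z' (r / 4)) (ball z r) (closedBall z r \ ball z' (r / 4))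
    measurableSet_ball (ball_subset_closedBall.trans hsub) ((isCompact_closedBall z r).diff isOpen_ball)
    (hf.mono (sdiff_subset.trans hrG))
    (fun w hw => hne z' hz' w (hrG hw.1) (by
      rintro rfl
      exact hw.2 (mem_ball_self (by positivity))))
    (sdiff_subset_sdiff_left ball_subset_closedBall)
  have hWDb : WD (ball z r) f A B := h1.2.2.2.2.1 G (ball z r) f A B (ball_subset_closedBall.trans hrG) hWD
  have hfb : ContinuousOn f (ball z r) := hf.mono (ball_subset_closedBall.trans hrG)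
  refine ⟨min (δ' / 3) δ₃, lt_min (by positivity) hδ₃, fun ψ hψ => ?_⟩
  rw [← hb ψ (nNloc_rtf (min_le_right _ _) hψ)]
  refine h3 z (r / 2) r (δ' / 3) (fun w => f w - p z) A B (fun w => f w - p z') A B ψ (by positivity) (by linarith)
    (by positivity) (hfb.sub continuousOn_const) (nNloc_sub h1 h2 _ isOpen_ball f A B (p z) hWDb)
    (hfb.sub continuousOn_const) (nNloc_sub h1 h2 _ isOpen_ball f A B (p z') hWDb) ?_
    (nNloc_rtf (min_le_left _ _) hψ)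
  intro w hw hrw
  have hw' : w ∈ closedBall z r \ ball z (r / 2) := by
    refine ⟨ball_subset_closedBall hw, ?_⟩
    rw [mem_ball_iff_norm]
    linarith
  have h4 := hcol w hw'
  refine ⟨by linarith, ?_⟩
  have e : (f w - p z) - (f w - p z') = p z' - p z := by ring
  rw [e]
  exact hpp.le

end Cal
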