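import Pool.Agent.Lib.MP_4ea4c7_an.StmH8

/-!
# [n1] Properties of `Λ_θ`
-/

open MeasureTheory Complex Metric Set Filter Topology
open scoped ComplexConjugate ENNReal NNReal

namespace Cal

noncomputable section

private theorem na_X_ne {G : Set ℂ} {μ : ℂ → ℝ} {X Y g : ℂ → ℂ → ℂ} (h : LS G μ X Y g) {z : ℂ} (hz : z ∈ G) (k : ℂ) :
    X z k ≠ 0 := by
  rw [← h.eg z hz k]
  exact exp_ne_zero _

private theorem na_im_ne {G : Set ℂ} {μ : ℂ → ℝ} {X Y g : ℂ → ℂ → ℂ} (h : LS G μ X Y g) {z : ℂ} (hz : z ∈ G) (k : ℂ) :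
    (Y z k / X z k).im ≠ 0 := by
  intro h0
  have hX := na_X_ne h hz k
  obtain ⟨C, hC⟩ := h.bd
  set t := (Y z k / X z k).re with ht
  have hY : Y z k = (t : ℂ) * X z k := by
    have h1 : Y z k / X z k = (t : ℂ) := by
      apply Complex.ext
      · simp [ht]
      · simpa using h0
    rw [div_eq_iff hX] at h1
    exact h1
  have hs : 0 < 1 + t ^ 2 := by positivity
  have hs' : 0 < Real.sqrt (1 + t ^ 2) := Real.sqrt_pos.2 hs
  have hsq : Real.sqrt (1 + t ^ 2) ^ 2 = 1 + t ^ 2 := Real.sq_sqrt hs.le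
  have hc : ‖((-t / Real.sqrt (1 + t ^ 2) : ℝ) : ℂ) + ((1 / Real.sqrt (1 + t ^ 2) : ℝ) : ℂ) * I‖ = 1 := by
    rw [Complex.norm_add_mul_I, Real.sqrt_eq_one, div_pow, div_pow, hsq]
    field_simp
    ring
  have h2 := (hC z hz k _ hc).1
  have h3 : FF X Y (((-t / Real.sqrt (1 + t ^ 2) : ℝ) : ℂ) + ((1 / Real.sqrt (1 + t ^ 2) : ℝ) : ℂ) * I) z k = 0 := by
    simp only [FF, add_re, add_im, ofReal_re, ofReal_im, mul_re, mul_im, I_re, I_im, mul_zero, mul_one, sub_zero,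
      add_zero, zero_add, hY]
    push_cast
    ring
  rw [h3, norm_zero] at h2
  exact absurd h2 (not_le.2 (Real.exp_pos _))

private theorem na_im_pos {G : Set ℂ} {μ : ℂ → ℝ} {X Y g : ℂ → ℂ → ℂ} (h : LS G μ X Y g) {z : ℂ} (hz : z ∈ G) (k : ℂ) :
    0 < (Y z k / X z k).im := by
  have hcY : Continuous (fun k => Y z k) := by
    rw [← continuousOn_univ]
    exact h.cY.comp (by fun_prop : ContinuousOn (fun k : ℂ => (z, k)) univ) fun k _ => ⟨hz, mem_univ _⟩
  have hcX : Continuous (fun k => X z k) := by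
    rw [← continuousOn_univ]
    exact h.cX.comp (by fun_prop : ContinuousOn (fun k : ℂ => (z, k)) univ) fun k _ => ⟨hz, mem_univ _⟩
  have hc : Continuous (fun k => (Y z k / X z k).im) :=
    Complex.continuous_im.comp (hcY.div hcX fun k => na_X_ne h hz k)
  by_contra hneg
  rw [not_lt] at hneg
  have h0 : (Y z 0 / X z 0).im = 1 := by
    obtain ⟨e1, e2, -⟩ := h.z0 z hz
    simp [e1, e2]
  obtain ⟨k', hk'⟩ := mem_range_of_exists_le_of_exists_ge hc ⟨k, hneg⟩ ⟨0, by rw [h0]; norm_num⟩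
  exact na_im_ne h hz k' hk'

theorem piece_nalg (h1 : S_calg) : S_nalg := by
  intro G μ X Y g h
  obtain ⟨C, hC⟩ := h.bd
  have hcalg := fun (z : ℂ) (hz : z ∈ G) (k : ℂ) (θ : ℝ) (h0 : 0 ≤ θ) (hpi : θ ≤ Real.pi / 2) =>
    h1 X Y g z k θ (Real.exp (-(C * (1 + ‖k‖) * (1 + ‖z‖)))) (h.eg z hz k) (na_im_pos h hz k) h0 hpi
      (Real.exp_pos _) fun c hc => (hC z hz k c hc).1
  refine ⟨fun z hz k => ⟨na_X_ne h hz k, na_im_pos h hz k⟩, fun θ h0 hpi => ⟨fun z hz k => ?_, fun z hz => ?_, ?_⟩⟩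
  · exact (hcalg z hz k θ h0 hpi).1
  · obtain ⟨e1, e2, e3⟩ := h.z0 z hz
    simp only [Lam, e1, e2, e3, div_one, I_mul_I, sub_neg_eq_add, add_neg_cancel, add_zero,
      Complex.ofReal_log (by norm_num : (0 : ℝ) ≤ 2)]
    norm_num
  · unfold Lam
    have hX := h.cX
    have hY := h.cY
    have hXn : ∀ p ∈ G ×ˢ (univ : Set ℂ), X p.1 p.2 ≠ 0 := fun p hp => na_X_ne h hp.1 p.2
    have hXY : ∀ p ∈ G ×ˢ (univ : Set ℂ), X p.1 p.2 - I * Y p.1 p.2 ≠ 0 := by
      intro p hp h0'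
      have := (hcalg p.1 hp.1 p.2 θ h0 hpi).2.2.1
      rw [h0', norm_zero] at this
      exact absurd this (not_lt.2 (norm_nonneg _))
    refine ContinuousOn.add (ContinuousOn.add (ContinuousOn.add continuousOn_const h.cg) ?_) ?_
    · refine ContinuousOn.clog ?_ ?_
      · exact continuousOn_const.sub (continuousOn_const.mul (hY.div hX hXn))
      · intro p hp
        left
        have := (hcalg p.1 hp.1 p.2 θ h0 hpi).2.2.2.1
        linarith
    · refine ContinuousOn.clog ?_ ?_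
      · refine continuousOn_const.add (ContinuousOn.div ?_ (hX.sub (continuousOn_const.mul hY)) hXY)
        exact continuousOn_const.mul (Complex.continuous_conj.comp_continuousOn (hX.add (continuousOn_const.mul hY)))
      · intro p hp
        left
        exact (hcalg p.1 hp.1 p.2 θ h0 hpi).2.2.2.2.1

end

end Cal
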