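import Pool.Agent.Lib.MP_4ea4c7_an.StmH8

open MeasureTheory Complex Metric Set Filter Topology
open scoped ComplexConjugate ENNReal NNReal

namespace Cal

theorem piece_nasy : S_nasy := by
  intro G μ X Y g hAL k h hk hLU
  obtain ⟨⟨k0, hadm⟩, hLS⟩ := hAL
  obtain ⟨C, hC⟩ := hLS.asy
  have hmem : ∀ l : ℕ, (k l / (‖k l‖ : ℂ)) ∈ closedBall (0 : ℂ) 1 := by
    intro l
    rw [mem_closedBall_zero_iff, norm_div, Complex.norm_real, norm_norm]
    exact div_self_le_one _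
  obtain ⟨e, -, φ, hφ, hlim⟩ := (isCompact_closedBall (0 : ℂ) 1).tendsto_subseq hmem
  have hkφ : Tendsto (fun l => ‖k (φ l)‖) atTop atTop := hk.comp hφ.tendsto_atTop
  have hev : ∀ᶠ l in atTop, (1 : ℝ) ≤ ‖k (φ l)‖ := hkφ.eventually_ge_atTop 1
  refine ⟨e, C, ?_, ?_⟩
  · have h1 : Tendsto (fun l => ‖(k (φ l) / (‖k (φ l)‖ : ℂ))‖) atTop (𝓝 ‖e‖) := hlim.norm
    have h2 : Tendsto (fun l => ‖(k (φ l) / (‖k (φ l)‖ : ℂ))‖) atTop (𝓝 (1 : ℝ)) := by
      apply tendsto_const_nhds.congr'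
      filter_upwards [hev] with l hl
      rw [norm_div, Complex.norm_real, norm_norm, div_self]
      exact (lt_of_lt_of_le one_pos hl).ne'
    exact tendsto_nhds_unique h1 h2
  · intro z hz
    have hzG : z ∈ G := hadm.ext z (by linarith)
    have hp : Tendsto (fun l => g z (k l) / (‖k l‖ : ℂ)) atTop (𝓝 (h z)) :=
      (hLU {z} isCompact_singleton (by simpa using hzG)).tendsto_at (mem_singleton z)
    have hp' : Tendsto (fun l => g z (k (φ l)) / (‖k (φ l)‖ : ℂ)) atTop (𝓝 (h z)) :=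
      hp.comp hφ.tendsto_atTop
    have hq : Tendsto (fun l => ‖g z (k (φ l)) / (‖k (φ l)‖ : ℂ)
        - I * (k (φ l) / (‖k (φ l)‖ : ℂ)) * z‖) atTop (𝓝 ‖h z - I * e * z‖) :=
      (hp'.sub ((hlim.const_mul I).mul_const z)).norm
    refine le_of_tendsto hq ?_
    filter_upwards [hev] with l hl
    have hpos : (0 : ℝ) < ‖k (φ l)‖ := lt_of_lt_of_le one_pos hl
    have hne : (‖k (φ l)‖ : ℂ) ≠ 0 := by
      exact_mod_cast hpos.ne'
    have heq : g z (k (φ l)) / (‖k (φ l)‖ : ℂ) - I * (k (φ l) / (‖k (φ l)‖ : ℂ)) * z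
        = (g z (k (φ l)) - I * k (φ l) * z) / (‖k (φ l)‖ : ℂ) := by
      field_simp
    rw [heq, norm_div, Complex.norm_real, norm_norm, div_le_iff₀ hpos]
    have := (hC z hz (k (φ l))).1
    calc ‖g z (k (φ l)) - I * k (φ l) * z‖ ≤ C * ‖k (φ l)‖ / ‖z‖ := this
      _ = C / ‖z‖ * ‖k (φ l)‖ := by ring

end Cal
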