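import Pool.Agent.Lib.MP_4ea4c7_an.StmH8

/-!
# MP_4ea4c7_an, piece n18: the separated pairs are relatively closed
-/

open MeasureTheory Complex Metric Set Filter Topology
open scoped ComplexConjugate ENNReal NNReal

namespace Cal

noncomputable section

/-- maximum principle on a disc -/
theorem n18_maxp (Q : ℂ → ℂ) (R C : ℝ) (hR : 0 < R) (hQ : DifferentiableOn ℂ Q (ball 0 (2 * R)))
    (hC : ∀ k : ℂ, ‖k‖ = R → ‖Q k‖ ≤ C) : ∀ k : ℂ, ‖k‖ ≤ R → ‖Q k‖ ≤ C := by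
  intro k hk
  refine Complex.norm_le_of_forall_mem_frontier_norm_le (U := ball (0 : ℂ) R) isBounded_ball ?_ ?_ ?_
  · apply DifferentiableOn.diffContOnCl
    rw [closure_ball _ hR.ne']
    exact hQ.mono (closedBall_subset_ball (by linarith))
  · intro z hz
    rw [frontier_ball _ hR.ne'] at hz
    exact hC z (by simpa using hz)
  · rw [closure_ball _ hR.ne']
    simpa using hk

/-- norm of the exponential factor, both sides -/
theorem n18_exp_bounds (w : ℂ) (C : ℝ) (h : ‖w‖ ≤ C) : Real.exp (-C) ≤ ‖exp w‖ ∧ ‖exp w‖ ≤ Real.exp C := by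
  have h1 := (abs_le.mp ((Complex.abs_re_le_norm w).trans h))
  rw [Complex.norm_exp]
  exact ⟨Real.exp_le_exp.mpr h1.1, Real.exp_le_exp.mpr h1.2⟩

/-- factor `k` in the holomorphic factor -/
theorem n18_slope (F ω Φ : ℂ → ℂ) (ρ C c : ℝ) (hρ : 0 < ρ) (hω : ∀ k, ‖ω k‖ ≤ C)
    (hΦ : DifferentiableOn ℂ Φ (ball 0 ρ)) (hF : ∀ k ∈ ball (0 : ℂ) ρ, F k = exp (ω k) * Φ k)
    (hF0 : F 0 = 0) :
    DifferentiableOn ℂ (dslope Φ 0) (ball 0 ρ) ∧
    (∀ k ∈ ball (0 : ℂ) ρ, Φ k = k * dslope Φ 0 k) ∧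
    ((∀ k ∈ ball (0 : ℂ) ρ, c * ‖k‖ ≤ ‖F k‖) → ∀ k ∈ ball (0 : ℂ) ρ, Real.exp (-C) * c ≤ ‖dslope Φ 0 k‖) := by
  have h0 : (0 : ℂ) ∈ ball (0 : ℂ) ρ := mem_ball_self hρ
  have hΦ0 : Φ 0 = 0 := by
    have := hF 0 h0
    rw [hF0] at this
    rcases mul_eq_zero.mp this.symm with h | h
    · exact absurd h (exp_ne_zero _)
    · exact h
  have hd : DifferentiableOn ℂ (dslope Φ 0) (ball 0 ρ) :=
    (Complex.differentiableOn_dslope (isOpen_ball.mem_nhds h0)).mpr hΦ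
  have hfac : ∀ k ∈ ball (0 : ℂ) ρ, Φ k = k * dslope Φ 0 k := by
    intro k _
    have := sub_smul_dslope Φ 0 k
    simp only [sub_zero, smul_eq_mul, hΦ0] at this
    exact this.symm
  refine ⟨hd, hfac, ?_⟩
  intro hlow
  have hne : ∀ k ∈ ball (0 : ℂ) ρ, k ≠ 0 → Real.exp (-C) * c ≤ ‖dslope Φ 0 k‖ := by
    intro k hk hk0
    have hkp : 0 < ‖k‖ := norm_pos_iff.mpr hk0
    have e1 := hlow k hk
    rw [hF k hk, hfac k hk, norm_mul, norm_mul] at e1
    have e2 := (n18_exp_bounds (ω k) C (hω k)).2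
    have e3 : c * ‖k‖ ≤ Real.exp C * (‖k‖ * ‖dslope Φ 0 k‖) :=
      e1.trans (mul_le_mul_of_nonneg_right e2 (by positivity))
    have e4 : c ≤ Real.exp C * ‖dslope Φ 0 k‖ := by
      have : c * ‖k‖ ≤ (Real.exp C * ‖dslope Φ 0 k‖) * ‖k‖ := by linarith [e3]
      exact le_of_mul_le_mul_right this hkp
    calc Real.exp (-C) * c ≤ Real.exp (-C) * (Real.exp C * ‖dslope Φ 0 k‖) :=
          mul_le_mul_of_nonneg_left e4 (Real.exp_pos _).le
      _ = ‖dslope Φ 0 k‖ := by rw [← mul_assoc, ← Real.exp_add]; simp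
  intro k hk
  by_cases hk0 : k = 0
  · subst hk0
    have hc : ContinuousAt (dslope Φ 0) 0 := (hd.continuousOn.continuousAt (isOpen_ball.mem_nhds h0))
    have ht : Tendsto (fun k => ‖dslope Φ 0 k‖) (𝓝[≠] (0 : ℂ)) (𝓝 ‖dslope Φ 0 0‖) :=
      (hc.norm.tendsto).mono_left nhdsWithin_le_nhds
    refine ge_of_tendsto ht ?_
    have hb : ball (0 : ℂ) ρ ∈ 𝓝[≠] (0 : ℂ) := nhdsWithin_le_nhds (isOpen_ball.mem_nhds h0)
    filter_upwards [hb, self_mem_nhdsWithin] with k hk hk0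
    exact hne k hk hk0
  · exact hne k hk hk0

/-- compact neighbourhood of a pair of distinct points -/
theorem n18_pair_nhd (G : Set ℂ) (hG : IsOpen G) (z w : ℂ) (hz : z ∈ G) (hw : w ∈ G) (hzw : z ≠ w) :
    ∃ δ : ℝ, 0 < δ ∧ closedBall z δ ⊆ G ∧ closedBall w δ ⊆ G ∧
      ∀ p ∈ closedBall z δ ×ˢ closedBall w δ, p.1 ∈ G ∧ p.2 ∈ G ∧ p.1 ≠ p.2 := by
  obtain ⟨a, ha, haG⟩ := nhds_basis_closedBall.mem_iff.mp (hG.mem_nhds hz)
  obtain ⟨b, hb, hbG⟩ := nhds_basis_closedBall.mem_iff.mp (hG.mem_nhds hw)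
  have hd : 0 < dist z w := dist_pos.mpr hzw
  refine ⟨min (min a b) (dist z w / 3), by positivity, ?_, ?_, ?_⟩
  · exact (closedBall_subset_closedBall ((min_le_left _ _).trans (min_le_left _ _))).trans haG
  · exact (closedBall_subset_closedBall ((min_le_left _ _).trans (min_le_right _ _))).trans hbG
  · rintro ⟨p, q⟩ ⟨hp, hq⟩
    simp only at hp hq ⊢
    refine ⟨haG (closedBall_subset_closedBall ((min_le_left _ _).trans (min_le_left _ _)) hp),
      hbG (closedBall_subset_closedBall ((min_le_left _ _).trans (min_le_right _ _)) hq), ?_⟩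
    rintro rfl
    have h1 : dist p z ≤ dist z w / 3 := (mem_closedBall.mp hp).trans (min_le_right _ _)
    have h2 : dist p w ≤ dist z w / 3 := (mem_closedBall.mp hq).trans (min_le_right _ _)
    have h3 := dist_triangle_left z w p
    linarith

/-- uniform closeness of `D z' w' k` to `D z w k` for `k` in a disc -/
theorem n18_pair_unif (G : Set ℂ) (D : ℂ → ℂ → ℂ → ℂ)
    (hD : ContinuousOn (fun p : ℂ × ℂ × ℂ => D p.1 p.2.1 p.2.2) (G ×ˢ (G ×ˢ univ)))
    (z w : ℂ) (δ : ℝ) (hδ : 0 < δ) (hz : closedBall z δ ⊆ G) (hw : closedBall w δ ⊆ G) (R e : ℝ) (he : 0 < e) :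
    ∃ ε : ℝ, 0 < ε ∧ ε ≤ δ ∧ ∀ z' w' : ℂ, ‖z' - z‖ < ε → ‖w' - w‖ < ε → ∀ k : ℂ, ‖k‖ ≤ R →
      ‖D z' w' k - D z w k‖ ≤ e := by
  have hK : IsCompact (closedBall z δ ×ˢ (closedBall w δ ×ˢ closedBall (0 : ℂ) R)) :=
    (isCompact_closedBall _ _).prod ((isCompact_closedBall _ _).prod (isCompact_closedBall _ _))
  have hKs : closedBall z δ ×ˢ (closedBall w δ ×ˢ closedBall (0 : ℂ) R) ⊆ G ×ˢ (G ×ˢ univ) :=
    prod_mono hz (prod_mono hw (subset_univ _))
  have hu := hK.uniformContinuousOn_of_continuous (hD.mono hKs)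
  rw [Metric.uniformContinuousOn_iff] at hu
  obtain ⟨ε, hε, hu⟩ := hu e he
  refine ⟨min ε δ, by positivity, min_le_right _ _, ?_⟩
  intro z' w' hz' hw' k hk
  have a1 : z' ∈ closedBall z δ := by
    rw [mem_closedBall, dist_eq_norm]; exact (hz'.trans_le (min_le_right _ _)).le
  have a2 : w' ∈ closedBall w δ := by
    rw [mem_closedBall, dist_eq_norm]; exact (hw'.trans_le (min_le_right _ _)).le
  have a3 : k ∈ closedBall (0 : ℂ) R := by simpa using hk
  have := hu (z', w', k) ⟨a1, a2, a3⟩ (z, w, k) ⟨mem_closedBall_self hδ.le, mem_closedBall_self hδ.le, a3⟩ ?_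
  · rw [dist_eq_norm] at this
    exact this.le
  · rw [Prod.dist_eq, Prod.dist_eq]
    simp only [dist_self]
    refine max_lt ?_ (max_lt ?_ hε)
    · rw [dist_eq_norm]; exact hz'.trans_le (min_le_left _ _)
    · rw [dist_eq_norm]; exact hw'.trans_le (min_le_left _ _)

/-- [CH n18] -/
theorem piece_nclosed : S_nclosed := by
  intro G D hG hCA z hz w hw hzw hap
  obtain ⟨δ, hδ, hzG, hwG, hK⟩ := n18_pair_nhd G hG z w hz hw hzw
  obtain ⟨R, c₀, hc₀, hlow⟩ := hCA.low (closedBall z δ ×ˢ closedBall w δ)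
    ((isCompact_closedBall _ _).prod (isCompact_closedBall _ _)) hK
  set R1 : ℝ := max R 1 with hR1
  have hR1p : 0 < R1 := lt_of_lt_of_le one_pos (le_max_right _ _)
  obtain ⟨M, hM, hfac⟩ := hCA.fac (2 * R1) (by positivity)
  set C : ℝ := M * (2 * R1) with hC
  have hCn : 0 ≤ C := by positivity
  -- uniform constant for separated pairs in the neighbourhood
  have key : ∀ z' ∈ closedBall z δ, ∀ w' ∈ closedBall w δ, SepP D z' w' →
      ∀ k : ℂ, (Real.exp (-C) * (Real.exp (-C) * c₀)) * ‖k‖ ≤ ‖D z' w' k‖ := by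
    rintro z' hz' w' hw' ⟨c', hc', hsep⟩ k
    have hlow' : ∀ k : ℂ, R ≤ ‖k‖ → c₀ * ‖k‖ ≤ ‖D z' w' k‖ := fun k hk => hlow (z', w') ⟨hz', hw'⟩ k hk
    have hex1 : Real.exp (-C) ≤ 1 := Real.exp_le_one_iff.mpr (by linarith)
    have hexp : 0 < Real.exp (-C) := Real.exp_pos _
    rcases le_or_gt R1 ‖k‖ with hk | hk
    · have h1 := hlow' k ((le_max_left _ _).trans hk)
      have h2 : Real.exp (-C) * (Real.exp (-C) * c₀) ≤ c₀ := by
        have : Real.exp (-C) * c₀ ≤ c₀ := by nlinarith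
        nlinarith [mul_nonneg hexp.le hc₀.le]
      exact (mul_le_mul_of_nonneg_right h2 (norm_nonneg _)).trans h1
    · obtain ⟨ω, Φ, hω, hΦ, hfa⟩ := hfac z' (hzG hz') w' (hwG hw') (2 * R1) (by positivity) le_rfl
      have hsf := n18_slope (fun k => D z' w' k) ω Φ (2 * R1) C c' (by positivity) hω hΦ hfa
        (hCA.zero z' (hzG hz') w' (hwG hw'))
      obtain ⟨hd, hf, hl⟩ := hsf
      have hl' := hl (fun k _ => hsep k)
      have hne : ∀ k ∈ ball (0 : ℂ) (2 * R1), dslope Φ 0 k ≠ 0 := by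
        intro k hk h0
        have := hl' k hk
        rw [h0, norm_zero] at this
        have : 0 < Real.exp (-C) * c' := by positivity
        linarith
      have hdi : DifferentiableOn ℂ (fun k => (dslope Φ 0 k)⁻¹) (ball 0 (2 * R1)) := hd.inv hne
      have hcirc : ∀ k : ℂ, ‖k‖ = R1 → ‖(dslope Φ 0 k)⁻¹‖ ≤ (Real.exp (-C) * c₀)⁻¹ := by
        intro k hk
        have hkb : k ∈ ball (0 : ℂ) (2 * R1) := by
          rw [mem_ball_zero_iff, hk]; linarith
        rw [norm_inv]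
        apply inv_anti₀ (by positivity)
        have e1 := hlow' k (by rw [hk]; exact le_max_left _ _)
        rw [hfa k hkb, hf k hkb, norm_mul, norm_mul] at e1
        have e2 := (n18_exp_bounds (ω k) C (hω k)).2
        have e3 : c₀ * ‖k‖ ≤ Real.exp C * (‖k‖ * ‖dslope Φ 0 k‖) :=
          e1.trans (mul_le_mul_of_nonneg_right e2 (by positivity))
        have hkp : 0 < ‖k‖ := by rw [hk]; exact hR1p
        have e4 : c₀ ≤ Real.exp C * ‖dslope Φ 0 k‖ := by
          have : c₀ * ‖k‖ ≤ (Real.exp C * ‖dslope Φ 0 k‖) * ‖k‖ := by linarith [e3]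
          exact le_of_mul_le_mul_right this hkp
        calc Real.exp (-C) * c₀ ≤ Real.exp (-C) * (Real.exp C * ‖dslope Φ 0 k‖) :=
              mul_le_mul_of_nonneg_left e4 (Real.exp_pos _).le
          _ = ‖dslope Φ 0 k‖ := by rw [← mul_assoc, ← Real.exp_add]; simp
      have hmax := n18_maxp _ R1 _ hR1p hdi hcirc k hk.le
      have hkb : k ∈ ball (0 : ℂ) (2 * R1) := by
        rw [mem_ball_zero_iff]; linarith
      have hpos : 0 < ‖dslope Φ 0 k‖ := norm_pos_iff.mpr (hne k hkb)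
      rw [norm_inv] at hmax
      have hge : Real.exp (-C) * c₀ ≤ ‖dslope Φ 0 k‖ := (inv_le_inv₀ hpos (by positivity)).mp hmax
      rw [hfa k hkb, hf k hkb, norm_mul, norm_mul]
      have e2 := (n18_exp_bounds (ω k) C (hω k)).1
      calc Real.exp (-C) * (Real.exp (-C) * c₀) * ‖k‖ = Real.exp (-C) * (‖k‖ * (Real.exp (-C) * c₀)) := by ring
        _ ≤ ‖exp (ω k)‖ * (‖k‖ * ‖dslope Φ 0 k‖) :=
            mul_le_mul e2 (mul_le_mul_of_nonneg_left hge (norm_nonneg _)) (by positivity) (norm_nonneg _)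
  refine ⟨Real.exp (-C) * (Real.exp (-C) * c₀), by positivity, ?_⟩
  intro k
  refine le_of_forall_pos_le_add ?_
  intro e he
  obtain ⟨ε, hε, hεδ, hun⟩ := n18_pair_unif G D hCA.cont z w δ hδ hzG hwG ‖k‖ e he
  obtain ⟨z', hz', w', hw', hne, hz'd, hw'd, hsep⟩ := hap ε hε
  have a1 : z' ∈ closedBall z δ := by
    rw [mem_closedBall, dist_eq_norm]; exact hz'd.le.trans hεδ
  have a2 : w' ∈ closedBall w δ := by
    rw [mem_closedBall, dist_eq_norm]; exact hw'd.le.trans hεδ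
  have h1 := key z' a1 w' a2 hsep k
  have h2 := hun z' w' hz'd hw'd k le_rfl
  have h3 : ‖D z' w' k‖ ≤ ‖D z w k‖ + ‖D z' w' k - D z w k‖ := by
    have : D z' w' k = D z w k + (D z' w' k - D z w k) := by ring
    calc ‖D z' w' k‖ = ‖D z w k + (D z' w' k - D z w k)‖ := by rw [← this]
      _ ≤ _ := norm_add_le _ _
  linarith

end

end Cal
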