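import Pool.Agent.Lib.MP_4ea4c7_an.StmH8

/-! Piece N14: equal logarithms outside, coefficients of the `k`-equation. -/

open MeasureTheory Complex Metric Set Filter Topology
open scoped ComplexConjugate ENNReal NNReal

namespace Cal

private theorem ncoef_int (f : ℂ → ℂ) (hf : Continuous f) (h0 : f 0 = 0)
    (h : ∀ k, ∃ n : ℤ, f k = n * (2 * Real.pi * I)) : ∀ k, f k = 0 := by
  have hpi : (2 * (Real.pi : ℂ) * I) ≠ 0 := by
    simp [Real.pi_ne_zero, Complex.I_ne_zero]
  intro k
  by_contra hk
  set g : ℂ → ℝ := fun k => |(f k / (2 * Real.pi * I)).re| with hg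
  have hgc : Continuous g := by
    have : Continuous (fun k => f k / (2 * Real.pi * I)) := hf.div_const _
    exact (Complex.continuous_re.comp this).abs
  have hgv : ∀ k, ∃ n : ℤ, f k = n * (2 * Real.pi * I) ∧ g k = |(n : ℝ)| := by
    intro k
    obtain ⟨n, hn⟩ := h k
    refine ⟨n, hn, ?_⟩
    have : f k / (2 * Real.pi * I) = (n : ℂ) := by
      rw [hn]; field_simp
    rw [hg]; dsimp only; rw [this]; simp
  have h12 : (1 / 2 : ℝ) ∈ range g := by
    apply mem_range_of_exists_le_of_exists_ge hgc
    · refine ⟨0, ?_⟩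
      simp [hg, h0]
    · refine ⟨k, ?_⟩
      obtain ⟨n, hn, hn'⟩ := hgv k
      have hn0 : n ≠ 0 := by
        rintro rfl
        apply hk
        rw [hn]; simp
      have : (1 : ℝ) ≤ |(n : ℝ)| := by
        have := Int.one_le_abs hn0
        exact_mod_cast this
      rw [hn']; linarith
  obtain ⟨k', hk'⟩ := h12
  obtain ⟨n, -, hn⟩ := hgv k'
  rw [hn] at hk'
  have h2 : (2 * |n| : ℤ) = 1 := by
    have : (2 * |(n : ℝ)|) = 1 := by rw [hk']; norm_num
    exact_mod_cast this
  omega

private theorem ncoef_cont (G : Set ℂ) (hG : ∀ z : ℂ, 1 / 2 ≤ ‖z‖ → z ∈ G) (X Y : ℂ → ℂ → ℂ)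
    (hX : ContinuousOn (fun p : ℂ × ℂ => X p.1 p.2) (G ×ˢ univ))
    (hY : ContinuousOn (fun p : ℂ × ℂ => Y p.1 p.2) (G ×ˢ univ)) (c : ℂ) :
    Continuous (ac X Y c) := by
  have hm : ∀ θ : ℝ, circleMap 0 2 θ ∈ G := by
    intro θ
    apply hG
    rw [norm_circleMap_zero]; norm_num
  have hcm : Continuous (fun p : ℂ × ℝ => circleMap 0 2 p.2) :=
    (continuous_circleMap 0 2).comp continuous_snd
  have hmap : Continuous (fun p : ℂ × ℝ => (circleMap 0 2 p.2, p.1)) :=
    hcm.prodMk continuous_fst
  have hX' : Continuous (fun p : ℂ × ℝ => X (circleMap 0 2 p.2) p.1) := by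
    have := hX.comp_continuous hmap (fun p => ⟨hm p.2, mem_univ _⟩)
    exact this
  have hY' : Continuous (fun p : ℂ × ℝ => Y (circleMap 0 2 p.2) p.1) := by
    have := hY.comp_continuous hmap (fun p => ⟨hm p.2, mem_univ _⟩)
    exact this
  have key : Continuous (fun k : ℂ => ∫ θ in (0 : ℝ)..2 * Real.pi,
      deriv (circleMap 0 2) θ • (exp (-(I * k * circleMap 0 2 θ)) * FF X Y c (circleMap 0 2 θ) k)) := by
    apply intervalIntegral.continuous_parametric_intervalIntegral_of_continuous'
    show Continuous (fun p : ℂ × ℝ => deriv (circleMap 0 2) p.2 •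
      (exp (-(I * p.1 * circleMap 0 2 p.2)) * FF X Y c (circleMap 0 2 p.2) p.1))
    have h1 : Continuous (fun p : ℂ × ℝ => deriv (circleMap 0 2) p.2) := by
      simp only [deriv_circleMap]
      exact hcm.mul continuous_const
    have h2 : Continuous (fun p : ℂ × ℝ => exp (-(I * p.1 * circleMap 0 2 p.2))) :=
      Complex.continuous_exp.comp ((continuous_const.mul continuous_fst).mul hcm).neg
    have h3 : Continuous (fun p : ℂ × ℝ => FF X Y c (circleMap 0 2 p.2) p.1) := by
      unfold FF
      exact (continuous_const.mul hX').add (continuous_const.mul hY')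
    exact h1.smul (h2.mul h3)
  unfold ac
  exact continuous_const.mul key

theorem piece_ncoef : S_ncoef := by
  refine ⟨?_, ?_, ?_⟩
  · intro G μ μ' X Y g X' Y' g' h h' hag z hz
    obtain ⟨⟨k0, hA⟩, hL⟩ := h
    obtain ⟨-, hL'⟩ := h'
    have hzG : z ∈ G := hA.ext z hz.le
    have hmap : Continuous (fun k : ℂ => (z, k)) := by fun_prop
    have hg : Continuous (fun k : ℂ => g z k) := by
      have := hL.cg.comp_continuous hmap (fun k => ⟨hzG, mem_univ _⟩)
      exact this
    have hg' : Continuous (fun k : ℂ => g' z k) := by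
      have := hL'.cg.comp_continuous hmap (fun k => ⟨hzG, mem_univ _⟩)
      exact this
    have := ncoef_int (fun k => g z k - g' z k) (hg.sub hg') (by
      simp [(hL.z0 z hzG).2.2, (hL'.z0 z hzG).2.2]) (by
      intro k
      have he : exp (g z k) = exp (g' z k) := by
        rw [hL.eg z hzG k, hL'.eg z hzG k, (hag z hz k).1]
      obtain ⟨n, hn⟩ := Complex.exp_eq_exp_iff_exists_int.1 he
      refine ⟨n, ?_⟩
      show g z k - g' z k = _
      rw [hn]; ring)
    intro k
    exact sub_eq_zero.1 (this k)
  · intro X Y X' Y' hag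
    have hac : ∀ c k, ac X Y c k = ac X' Y' c k := by
      intro c k
      unfold ac
      congr 1
      apply circleIntegral.integral_congr (by norm_num)
      intro z hz
      have hz2 : 1 / 2 < ‖z‖ := by
        have : ‖z‖ = 2 := by simpa using hz
        rw [this]; norm_num
      show exp (-(I * k * z)) * FF X Y c z k = exp (-(I * k * z)) * FF X' Y' c z k
      unfold FF
      rw [(hag z hz2 k).1, (hag z hz2 k).2]
    have htc : ∀ c k, tc X Y c k = tc X' Y' c k := by
      intro c k
      unfold tc
      rw [hac, hac]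
    constructor
    · funext k
      unfold cA
      rw [htc, htc]
    · funext k
      unfold cB
      rw [htc, htc]
  · intro G μ X Y g h
    obtain ⟨⟨k0, hA⟩, hL⟩ := h
    have hac : ∀ c, Continuous (ac X Y c) := fun c => ncoef_cont G hA.ext X Y hL.cX hL.cY c
    have htc : ∀ c, Continuous (tc X Y c) := by
      intro c
      unfold tc
      exact (continuous_const.mul (hac c)).sub (hac (I * c))
    constructor
    · unfold cA
      exact ((htc 1).sub (continuous_const.mul (htc I))).div_const _
    · unfold cB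
      exact ((Complex.continuous_conj.comp (htc 1)).sub
        (continuous_const.mul (Complex.continuous_conj.comp (htc I)))).div_const _

end Cal
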