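import Pool.Agent.Lib.MP_4ea4c7_an.StmH8

/-!
# MP_4ea4c7_an, piece n20: continuation
-/

open MeasureTheory Complex Metric Set Filter Topology
open scoped ComplexConjugate ENNReal NNReal

namespace Cal

noncomputable section

/-- [CH n20] -/
theorem piece_ncont (h1 : S_bnd) (h2 : S_nclosed) (h3 : S_nopen) : S_ncont := by
  intro G D hG hGc hCA hex z hz w hw hzw
  have hW := h1 G hG hGc
  set W : Set (ℂ × ℂ) := {p : ℂ × ℂ | p.1 ∈ G ∧ p.2 ∈ G ∧ p.1 ≠ p.2} with hWdef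
  have hWo : IsOpen W := by
    have e : W = (Prod.fst ⁻¹' G) ∩ ((Prod.snd ⁻¹' G) ∩ {p : ℂ × ℂ | p.1 ≠ p.2}) := by
      ext p; simp [hWdef]
    rw [e]
    exact (hG.preimage continuous_fst).inter ((hG.preimage continuous_snd).inter
      (isOpen_ne_fun continuous_fst continuous_snd))
  set S : Set (ℂ × ℂ) := {p : ℂ × ℂ | p ∈ W ∧ SepP D p.1 p.2} with hSdef
  have hSW : S ⊆ W := fun p hp => hp.1
  have hSo : IsOpen S := by
    rw [Metric.isOpen_iff]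
    rintro ⟨a, b⟩ ⟨hab, hs⟩
    obtain ⟨ε, hε, hop⟩ := h3 G D hG hCA a hab.1 b hab.2.1 hab.2.2 hs
    obtain ⟨δ, hδ, hW'⟩ := Metric.isOpen_iff.mp hWo (a, b) hab
    refine ⟨min ε δ, by positivity, ?_⟩
    rintro ⟨a', b'⟩ hp
    have hpW : (a', b') ∈ W := hW' (ball_subset_ball (min_le_right _ _) hp)
    have hp' := ball_subset_ball (min_le_left ε δ) hp
    rw [mem_ball, Prod.dist_eq, max_lt_iff, dist_eq_norm, dist_eq_norm] at hp'
    exact ⟨hpW, hop a' hpW.1 b' hpW.2.1 hp'.1 hp'.2⟩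
  have hcl : closure S ∩ W ⊆ S := by
    rintro ⟨a, b⟩ ⟨hc, hab⟩
    refine ⟨hab, h2 G D hG hCA a hab.1 b hab.2.1 hab.2.2 ?_⟩
    intro ε hε
    obtain ⟨⟨a', b'⟩, hpS, hd⟩ := Metric.mem_closure_iff.mp hc ε hε
    rw [dist_comm, Prod.dist_eq, max_lt_iff, dist_eq_norm, dist_eq_norm] at hd
    exact ⟨a', hpS.1.1, b', hpS.1.2.1, hpS.1.2.2, hd.1, hd.2, hpS.2⟩
  obtain ⟨a, ha, b, hb, hab, hs⟩ := hex
  have hsub : W ⊆ S := hW.subset_of_closure_inter_subset hSo ⟨(a, b), ⟨ha, hb, hab⟩, ⟨ha, hb, hab⟩, hs⟩ hcl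
  exact (hsub (show (z, w) ∈ W from ⟨hz, hw, hzw⟩)).2

end

end Cal
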