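import Pool.Agent.Lib.MP_4ea4c7_an.StmH8

/-!
# MP_4ea4c7_an, stage 2, piece N3: estimates of `Λ_θ - g`
-/

open MeasureTheory Complex Metric Set Filter Topology
open scoped ComplexConjugate ENNReal NNReal

namespace Cal

noncomputable section

private theorem nest_log {a T : ℝ} (ha : 0 < a) (h : a ≤ 2 * Real.exp T) :
    Real.log a ≤ Real.log 2 + T := by
  have h1 : Real.log (2 * Real.exp T) = Real.log 2 + T := by
    rw [Real.log_mul (by norm_num) (Real.exp_pos T).ne', Real.log_exp]
  rw [← h1]
  exact Real.log_le_log ha h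

theorem piece_nest (h1 : S_calg) (h2 : S_nalg) : S_nest := by
  intro G μ X Y g hLS z hz k θ hθ0 hθ1
  obtain ⟨hXne, him⟩ := (h2 G μ X Y g hLS).1 z hz k
  have hX : 0 < ‖X z k‖ := norm_pos_iff.2 hXne
  refine ⟨?_, ?_⟩
  · intro T hT hc
    have hm : 0 < Real.exp (-T) * ‖X z k‖ := by positivity
    have key := (h1 X Y g z k θ _ (hLS.eg z hz k) him hθ0 hθ1 hm
      (fun c hc1 => (hc c hc1).1)).2.2.2.2.2
    have hY : ‖Y z k‖ ≤ Real.exp T * ‖X z k‖ := by
      have := (hc I (by simp)).2
      simpa [FF] using this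
    have e1 : 1 ≤ Real.exp T := Real.one_le_exp hT
    have hl1 : Real.log (1 + ‖Y z k‖ / ‖X z k‖) ≤ Real.log 2 + T := by
      apply nest_log (by positivity)
      have : ‖Y z k‖ / ‖X z k‖ ≤ Real.exp T := by
        rw [div_le_iff₀ hX]
        exact hY
      linarith
    have hl2 : Real.log ((‖X z k‖ + ‖Y z k‖) / (Real.exp (-T) * ‖X z k‖)) ≤
        Real.log 2 + (T + T) := by
      apply nest_log (by positivity)
      rw [div_le_iff₀ hm]
      have e2 : 2 * Real.exp (T + T) * (Real.exp (-T) * ‖X z k‖) =
          2 * Real.exp T * ‖X z k‖ := by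
        rw [Real.exp_add, Real.exp_neg]
        field_simp
      rw [e2]
      nlinarith
    have hlog2 : Real.log 2 < 1 := by
      have := Real.log_two_lt_d9
      linarith
    linarith
  · intro ht
    set η : ℂ := Y z k / X z k with hη
    set t : ℂ := η - I with htdef
    have hηt : η = I + t := by rw [htdef]; ring
    have hY : Y z k = X z k * η := by
      rw [hη]
      field_simp
    -- the first logarithm
    have hw1 : 1 - I * η = ((2 : ℝ) : ℂ) * (1 + (-(I * t) / 2)) := by
      rw [hηt]
      push_cast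
      have := I_mul_I
      linear_combination (-1 : ℂ) * this
    have hn1 : ‖-(I * t) / 2‖ = ‖t‖ / 2 := by
      rw [norm_div, norm_neg, norm_mul, norm_I, one_mul]
      norm_num
    have hne1 : (1 : ℂ) + (-(I * t) / 2) ≠ 0 := by
      intro h
      have h' : -(I * t) / 2 = -1 := by linear_combination h
      rw [h', norm_neg, norm_one] at hn1
      linarith
    have hlog1 : Complex.log (1 - I * η) =
        (Real.log 2 : ℂ) + Complex.log (1 + (-(I * t) / 2)) := by
      rw [hw1, Complex.log_ofReal_mul (by norm_num) hne1]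
    have hb1 : ‖Complex.log (1 + (-(I * t) / 2))‖ ≤ 3 / 2 * ‖-(I * t) / 2‖ :=
      Complex.norm_log_one_add_half_le_self (by rw [hn1]; linarith)
    -- the second logarithm
    have hq1 : conj (X z k + I * Y z k) = conj (X z k) * conj (I * t) := by
      rw [← map_mul]
      congr 1
      rw [hY, hηt]
      have := I_mul_I
      linear_combination (X z k) * this
    have hq2 : X z k - I * Y z k = X z k * (2 - I * t) := by
      rw [hY, hηt]
      have := I_mul_I
      linear_combination (-(X z k)) * this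
    have hn2 : 3 / 2 ≤ ‖2 - I * t‖ := by
      have h3 : ‖(2 : ℂ)‖ - ‖I * t‖ ≤ ‖2 - I * t‖ := norm_sub_norm_le _ _
      rw [norm_mul, norm_I, one_mul] at h3
      have h4 : ‖(2 : ℂ)‖ = 2 := by simp
      rw [h4] at h3
      linarith
    have hexp : ‖exp (2 * I * (θ : ℂ))‖ = 1 := by
      rw [show (2 : ℂ) * I * (θ : ℂ) = ((2 * θ : ℝ) : ℂ) * I by push_cast; ring,
        Complex.norm_exp_ofReal_mul_I]
    have hnq : ‖exp (2 * I * (θ : ℂ)) * conj (X z k + I * Y z k) / (X z k - I * Y z k)‖ ≤
        2 / 3 * ‖t‖ := by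
      rw [hq1, hq2, norm_div, norm_mul, norm_mul, norm_mul, hexp, one_mul, RCLike.norm_conj,
        RCLike.norm_conj, norm_mul, norm_I, one_mul, mul_div_mul_left _ _ hX.ne',
        div_le_iff₀ (by linarith)]
      have := norm_nonneg t
      nlinarith
    have hb2 : ‖Complex.log (1 + exp (2 * I * (θ : ℂ)) * conj (X z k + I * Y z k) /
        (X z k - I * Y z k))‖ ≤
        3 / 2 * ‖exp (2 * I * (θ : ℂ)) * conj (X z k + I * Y z k) / (X z k - I * Y z k)‖ :=
      Complex.norm_log_one_add_half_le_self (by linarith)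
    have heq : Lam X Y g θ z k + I * (θ : ℂ) - g z k =
        Complex.log (1 + (-(I * t) / 2)) + Complex.log (1 + exp (2 * I * (θ : ℂ)) *
          conj (X z k + I * Y z k) / (X z k - I * Y z k)) := by
      rw [Lam, ← hη, hlog1]
      ring
    rw [heq]
    refine (norm_add_le _ _).trans ?_
    rw [hn1] at hb1
    have := norm_nonneg t
    linarith

end

end Cal
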