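import Pool.Agent.Lib.MP_4ea4c7_an.StmH8

open MeasureTheory Complex Metric Set Filter Topology
open scoped ComplexConjugate ENNReal NNReal

namespace Cal

private lemma nfac_cont {G : Set ℂ} {F : ℂ → ℂ → ℂ}
    (h : ContinuousOn (fun p : ℂ × ℂ => F p.1 p.2) (G ×ˢ univ)) {z : ℂ} (hz : z ∈ G) :
    Continuous (fun k => F z k) := by
  rw [← continuousOn_univ]
  have h2 : ContinuousOn (fun k : ℂ => ((z, k) : ℂ × ℂ)) univ := by
    fun_prop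
  exact h.comp h2 (fun k _ => ⟨hz, mem_univ _⟩)

theorem piece_nfac (h1 : S_nalg) (h2 : S_ncoef) (h3 : S_nkd) (h4 : S_bsim) : S_nfac := by
  intro G μ μ' X Y g X' Y' g' hal hal' hag θ hθ0 hθ1 R hR
  obtain ⟨C, hC0, hsim⟩ := h4
  obtain ⟨hcA, hcB⟩ := h2.2.1 X Y X' Y' hag
  obtain ⟨hAc, hBc⟩ := h2.2.2 G μ X Y g hal
  obtain ⟨M0, hM0⟩ := (isCompact_closedBall (0 : ℂ) R).exists_bound_of_continuousOn
    (f := cB X Y) hBc.continuousOn
  have hM00 : 0 ≤ M0 := (norm_nonneg _).trans (hM0 0 (by simp [hR.le]))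
  refine ⟨C * M0, mul_nonneg hC0 hM00, ?_⟩
  intro z hz w hw ρ hρ hρR
  have hc : Continuous (fun k => Lam X Y g θ z k) :=
    nfac_cont ((h1 G μ X Y g hal.2).2 θ hθ0 hθ1).2.2 hz
  have hc' : Continuous (fun k => Lam X' Y' g' θ w k) :=
    nfac_cont ((h1 G μ' X' Y' g' hal'.2).2 θ hθ0 hθ1).2.2 hw
  have hk : KE (cA X Y) (cB X Y) (fun k => Lam X Y g θ z k) := hal.2.keq θ hθ0 hθ1 z hz
  have hk' : KE (cA X Y) (cB X Y) (fun k => Lam X' Y' g' θ w k) := by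
    rw [hcA, hcB]
    exact hal'.2.keq θ hθ0 hθ1 w hw
  obtain ⟨b, hbc, hbb, hwb⟩ := h3 (cA X Y) (cB X Y) _ _ hAc hBc hc hc' hk hk'
  obtain ⟨ω, Φ, hωc, hωb, hΦ, heq⟩ := hsim ρ M0 (fun k => Lam X Y g θ z k - Lam X' Y' g' θ w k) b
    hρ hM00 (hc.sub hc').continuousOn hbc.measurable
    (fun k hk => (hbb k).trans (mul_le_mul_of_nonneg_right
      (hM0 k (closedBall_subset_closedBall hρR (ball_subset_closedBall hk))) (norm_nonneg _)))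
    (fun φ hφ => hwb φ ⟨hφ.1, hφ.2.1, subset_univ _⟩)
  exact ⟨ω, Φ, hωb, hΦ, heq⟩

end Cal
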