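import Pool.Agent.Lib.MP_4ea4c7_an.StmH8

/-!
# MP_4ea4c7_an, stage 2, piece N4: `Λ_θ` near infinity
-/

open MeasureTheory Complex Metric Set Filter Topology
open scoped ComplexConjugate ENNReal NNReal

namespace Cal

noncomputable section

theorem piece_nfar (h1 : S_nest) : S_nfar := by
  intro G μ X Y g hAL
  obtain ⟨⟨k0, hadm⟩, hLS⟩ := hAL
  obtain ⟨C, hC⟩ := hLS.asy
  set C0 : ℝ := max C 0 with hC0
  have hC0n : 0 ≤ C0 := le_max_right _ _
  refine ⟨13 * C0 + 1, by linarith, ?_⟩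
  intro z hz k θ hθ0 hθ1
  have hzG : z ∈ G := hadm.ext z (by linarith)
  have hz0 : 0 < ‖z‖ := by linarith
  set δ : ℝ := C0 * ‖k‖ / ‖z‖ with hδ
  have hδ0 : 0 ≤ δ := by positivity
  have hCδ : C * ‖k‖ / ‖z‖ ≤ δ := by
    rw [hδ]
    have : C ≤ C0 := le_max_left _ _
    gcongr
  obtain ⟨hg, hF⟩ := hC z hz k
  have hg' : ‖g z k - I * k * z‖ ≤ δ := hg.trans hCδ
  obtain ⟨d1, hd1, hF1⟩ := hF 1 (by simp)
  obtain ⟨dI, hdI, hFI⟩ := hF I (by simp)
  have hX : X z k = exp (I * k * z + d1) := by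
    have : FF X Y 1 z k = X z k := by simp [FF]
    rw [← this, hF1, one_mul]
  have hY : Y z k = I * exp (I * k * z + dI) := by
    have : FF X Y I z k = Y z k := by simp [FF]
    rw [← this, hFI]
  have hbig : (13 * C0 + 1) * ‖k‖ / ‖z‖ = 13 * δ + ‖k‖ / ‖z‖ := by
    rw [hδ]
    ring
  have hkz : 0 ≤ ‖k‖ / ‖z‖ := by positivity
  obtain ⟨hn1, hn2⟩ := h1 G μ X Y g hLS z hzG k θ hθ0 hθ1
  refine ⟨?_, ?_⟩
  · have h2 := hn1 (2 * δ) (by linarith) (by
      intro c hc
      obtain ⟨dc, hdc, hFc⟩ := hF c hc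
      have e1 : ‖FF X Y c z k‖ = Real.exp ((I * k * z).re + dc.re) := by
        rw [hFc, norm_mul, hc, one_mul, Complex.norm_exp, Complex.add_re]
      have e2 : ‖X z k‖ = Real.exp ((I * k * z).re + d1.re) := by
        rw [hX, Complex.norm_exp, Complex.add_re]
      have a1 : |dc.re| ≤ δ := (Complex.abs_re_le_norm dc).trans (hdc.trans hCδ)
      have a2 : |d1.re| ≤ δ := (Complex.abs_re_le_norm d1).trans (hd1.trans hCδ)
      rw [abs_le] at a1 a2
      rw [e1, e2, ← Real.exp_add, ← Real.exp_add]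
      constructor <;> apply Real.exp_le_exp.2 <;> linarith)
    have h3 : Lam X Y g θ z k - I * k * z = (Lam X Y g θ z k - g z k) + (g z k - I * k * z) := by
      ring
    rw [h3]
    have h4 := norm_add_le (Lam X Y g θ z k - g z k) (g z k - I * k * z)
    linarith
  · intro hk
    have hδs : δ ≤ 1 / 13 := by
      rw [hδ, div_le_iff₀ hz0]
      have : C0 * ‖k‖ * 13 ≤ ‖z‖ := by
        have := norm_nonneg k
        nlinarith
      linarith
    have hw : Y z k / X z k - I = I * (exp (dI - d1) - 1) := by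
      rw [hX, hY, mul_div_assoc, ← Complex.exp_sub,
        show I * k * z + dI - (I * k * z + d1) = dI - d1 by ring]
      ring
    have hwn : ‖dI - d1‖ ≤ 2 * δ := by
      have := norm_sub_le dI d1
      linarith [hdI.trans hCδ, hd1.trans hCδ]
    have hwe : ‖Y z k / X z k - I‖ ≤ 4 * δ := by
      rw [hw, norm_mul, norm_I, one_mul]
      have := Complex.norm_exp_sub_one_le (x := dI - d1) (by linarith)
      linarith
    have h2 := hn2 (by linarith)
    have h3 : Lam X Y g θ z k - I * k * z + I * (θ : ℂ) =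
        (Lam X Y g θ z k + I * (θ : ℂ) - g z k) + (g z k - I * k * z) := by ring
    rw [h3]
    have h4 := norm_add_le (Lam X Y g θ z k + I * (θ : ℂ) - g z k) (g z k - I * k * z)
    linarith

end

end Cal
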