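import Pool.Agent.Lib.MP_4ea4c7_an.StmH8

/-! [CH n11] The limits are injective. -/

open MeasureTheory Complex Metric Set Filter Topology
open scoped ComplexConjugate ENNReal NNReal

namespace Cal

noncomputable section

private theorem ninj_lint {f : ℂ → ℂ} {s : Set ℂ} {M : ℝ}
    (hi : IntegrableOn (fun z => ‖f z‖ ^ 2) s volume) (hM : ∫ z in s, ‖f z‖ ^ 2 ≤ M) :
    ∫⁻ z in s, ‖f z‖ₑ ^ 2 ≤ ENNReal.ofReal M := by
  have e : ∫⁻ z in s, ‖f z‖ₑ ^ 2 = ∫⁻ z in s, ENNReal.ofReal (‖f z‖ ^ 2) := by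
    refine lintegral_congr fun z => ?_
    rw [ENNReal.ofReal_pow (norm_nonneg _), ofReal_norm]
  rw [e, ← ofReal_integral_eq_lintegral_ofReal hi (Eventually.of_forall fun z => by positivity)]
  exact ENNReal.ofReal_le_ofReal hM

private theorem ninj_eL {f : ℂ → ℂ} {s : Set ℂ} {M : ℝ≥0∞}
    (h : ∫⁻ z in s, ‖f z‖ₑ ^ 2 ≤ M) : eLpNorm f 2 (volume.restrict s) ≤ M ^ (1 / 2 : ℝ) := by
  rw [eLpNorm_eq_lintegral_rpow_enorm_toReal (by norm_num) (by norm_num)]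
  simp only [ENNReal.toReal_ofNat, ENNReal.rpow_ofNat]
  exact ENNReal.rpow_le_rpow h (by norm_num)

private theorem ninj_mu {G : Set ℂ} {k0 : ℝ} {μ : ℂ → ℝ} (h : Adm G k0 μ) (z : ℂ) : |μ z| ≤ 1 := by
  have e1 := h.lo z
  have e2 := h.hi z
  have e3 := h.k01
  rw [abs_le]
  constructor <;> linarith

theorem piece_ninj (h1 : S_basic) (h2 : S_smooth) (h3 : S_wuniq) (h4 : S_bwlog) (h5 : S_awlim)
    (h6 : S_bdeglim) (h7 : S_nasy) (h8 : S_ninjc) : S_ninj := by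
  intro G μ X Y g hAL k h hk hh hLU
  obtain ⟨⟨k0, hadm⟩, hLS⟩ := id hAL
  have hGo := hadm.oG
  -- `h` is not constant
  have hnc : ¬ ∃ c, ∀ z ∈ G, h z = c := by
    rintro ⟨c, hc⟩
    obtain ⟨e, C, he, hC⟩ := h7 G μ X Y g hAL k h hk hLU
    have hc0 := norm_nonneg c
    have hC0 := abs_nonneg C
    have ht2 : 2 ≤ ‖c‖ + |C| + 2 := by linarith
    have hz : ‖((‖c‖ + |C| + 2 : ℝ) : ℂ)‖ = ‖c‖ + |C| + 2 := by
      rw [Complex.norm_real, Real.norm_eq_abs, abs_of_nonneg (by linarith)]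
    have hG : ((‖c‖ + |C| + 2 : ℝ) : ℂ) ∈ G := hadm.ext _ (by rw [hz]; linarith)
    have hCt := hC ((‖c‖ + |C| + 2 : ℝ) : ℂ) (by rw [hz]; exact ht2)
    rw [hc _ hG, hz] at hCt
    have e1 : ‖I * e * ((‖c‖ + |C| + 2 : ℝ) : ℂ)‖ = ‖c‖ + |C| + 2 := by
      rw [norm_mul, norm_mul, hz, Complex.norm_I, he]
      ring
    have e2 : ‖I * e * ((‖c‖ + |C| + 2 : ℝ) : ℂ)‖ ≤
        ‖c‖ + ‖c - I * e * ((‖c‖ + |C| + 2 : ℝ) : ℂ)‖ := by
      have := norm_sub_le c (c - I * e * ((‖c‖ + |C| + 2 : ℝ) : ℂ))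
      rwa [sub_sub_cancel] at this
    have e3 : C / (‖c‖ + |C| + 2) ≤ |C| :=
      (div_le_div_of_nonneg_right (le_abs_self C) (by linarith)).trans
        (div_le_self hC0 (by linarith))
    rw [e1] at e2
    linarith
  refine ⟨?_, ?_⟩
  swap
  · by_contra hcon
    push Not at hcon
    obtain ⟨z0, hz0⟩ := hadm.cG.nonempty
    refine hnc ⟨h z0, fun z hz => ?_⟩
    exact hGo.is_const_of_deriv_eq_zero hadm.cG.isPreconnected hh (fun w hw => hcon w hw) hz hz0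
  refine h8 G h hGo hadm.cG.isPreconnected hh hnc ?_
  intro η ψ hη hη01 hψ hψ0
  -- drop finitely many indices
  obtain ⟨l0, hl0⟩ := (hk.eventually_ge_atTop 1).exists_forall_of_atTop
  obtain ⟨k', hk'⟩ : ∃ k' : ℕ → ℂ, k' = fun l => k (l + l0) := ⟨_, rfl⟩
  have hk1 : ∀ l, 1 ≤ ‖k' l‖ := fun l => by rw [hk']; exact hl0 _ (by omega)
  have hN0 : ∀ l, 0 < ‖k' l‖ := fun l => by linarith [hk1 l]
  have hNc : ∀ l, ((‖k' l‖ : ℝ) : ℂ) ≠ 0 := fun l => Complex.ofReal_ne_zero.2 (hN0 l).ne'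
  obtain ⟨hl, hhl⟩ : ∃ hl : ℕ → ℂ → ℂ, hl = fun l z => g z (k' l) / (‖k' l‖ : ℂ) := ⟨_, rfl⟩
  have hLU' : ∀ K : Set ℂ, IsCompact K → K ⊆ G → TendstoUniformlyOn hl h atTop K := by
    intro K hK hKG u hu
    rw [hhl, hk']
    exact (tendsto_add_atTop_nat l0).eventually (hLU K hK hKG u hu)
  choose A B hWX hBel _hfin using fun l => (hLS.cl (k' l)).1.en
  have hcg : ∀ l, ContinuousOn (fun z => g z (k' l)) G := fun l =>
    hLS.cg.comp (continuousOn_id.prodMk continuousOn_const) (fun z hz => ⟨hz, mem_univ _⟩)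
  have hWE : ∀ l, WD G (fun z => exp (g z (k' l))) (A l) (B l) := fun l =>
    h1.2.2.2.1 G _ _ _ _ _ _ hGo.measurableSet (hWX l)
      ((ae_restrict_iff' hGo.measurableSet).2 (Eventually.of_forall fun z hz => (hLS.eg z hz _).symm))
      (ae_eq_refl _) (ae_eq_refl _)
  have hWg := fun l => h4 G _ _ _ hGo (hcg l) (hWE l)
  obtain ⟨A', hA'⟩ : ∃ A' : ℕ → ℂ → ℂ, A' = fun l z => ((‖k' l‖ : ℝ) : ℂ)⁻¹ * (A l z / exp (g z (k' l))) :=
    ⟨_, rfl⟩
  obtain ⟨B', hB'⟩ : ∃ B' : ℕ → ℂ → ℂ, B' = fun l z => ((‖k' l‖ : ℝ) : ℂ)⁻¹ * (B l z / exp (g z (k' l))) :=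
    ⟨_, rfl⟩
  have hWh : ∀ l, WD G (hl l) (A' l) (B' l) := by
    intro l
    have := h1.2.1 G _ _ _ (((‖k' l‖ : ℝ) : ℂ)⁻¹) (hWg l)
    have e : hl l = fun z => ((‖k' l‖ : ℝ) : ℂ)⁻¹ * g z (k' l) := by
      rw [hhl]
      funext z
      exact div_eq_inv_mul _ _
    rw [e, hA', hB']
    exact this
  have hch : ∀ l, ContinuousOn (hl l) G := by
    intro l
    rw [hhl]
    exact (hcg l).div_const _
  -- energy bounds
  have hbd : ∀ K : Set ℂ, IsCompact K → K ⊆ G → ∃ M : ℝ, ∀ᶠ n in atTop,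
      eLpNorm (A' n) 2 (volume.restrict K) ≤ ENNReal.ofReal M ∧
      eLpNorm (B' n) 2 (volume.restrict K) ≤ ENNReal.ofReal M := by
    intro K hK hKG
    obtain ⟨C, hC⟩ := hLS.en K hK hKG
    refine ⟨((ENNReal.ofReal C) ^ (1 / 2 : ℝ)).toReal, Eventually.of_forall fun l => ?_⟩
    have hfin : (ENNReal.ofReal C) ^ (1 / 2 : ℝ) ≠ ∞ :=
      ENNReal.rpow_ne_top_of_nonneg (by norm_num) ENNReal.ofReal_ne_top
    rw [ENNReal.ofReal_toReal hfin]
    have hFF : ∀ z, FF X Y 1 z (k' l) = X z (k' l) := by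
      intro z
      simp [FF]
    have hC' := hC (k' l) 1 (A l) (B l) (by simp) (by simp only [hFF]; exact hWX l)
    simp only [hFF] at hC'
    have hpt : ∀ z ∈ K, ‖A' l z‖ ^ 2 = (‖k' l‖ ^ 2)⁻¹ * (‖A l z‖ ^ 2 / ‖X z (k' l)‖ ^ 2) := by
      intro z hz
      rw [hA']
      simp only []
      rw [hLS.eg z (hKG hz), norm_mul, norm_inv, norm_div, Complex.norm_real, norm_norm, mul_pow,
        div_pow, inv_pow]
    have hKm := hK.measurableSet
    have hi : IntegrableOn (fun z => ‖A' l z‖ ^ 2) K volume :=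
      (integrableOn_congr_fun hpt hKm).2 (hC'.1.const_mul _)
    have hle : ∫ z in K, ‖A' l z‖ ^ 2 ≤ C := by
      rw [setIntegral_congr_fun hKm hpt, integral_const_mul]
      have hp : 0 < ‖k' l‖ ^ 2 := by have := hN0 l; positivity
      rw [inv_mul_le_iff₀ hp, mul_comm]
      exact hC'.2
    have hA := ninj_eL (ninj_lint hi hle)
    refine ⟨hA, le_trans (eLpNorm_mono_ae ?_) hA⟩
    filter_upwards [ae_restrict_of_ae_restrict_of_subset hKG (hBel l)] with z hz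
    rw [hA', hB']
    simp only []
    rw [hz, norm_mul, norm_mul, norm_div, norm_div, norm_mul, Complex.norm_real (μ z),
      RCLike.norm_conj, Real.norm_eq_abs]
    refine mul_le_mul_of_nonneg_left (div_le_div_of_nonneg_right ?_ (norm_nonneg _))
      (norm_nonneg _)
    exact mul_le_of_le_one_left (norm_nonneg _) (ninj_mu hadm z)
  obtain ⟨hhc, A0, B0, hW0, hweak⟩ := h5 G h hl A' B' hGo hWh hch hbd hLU'
  have hlim := h6 G h A0 B0 hl A' B' η ψ hGo hWh hch hW0 hhc hbd hLU' hweak hη hψ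
  -- the weak derivatives of `h`
  have hW1 := h2.2.1 G h hGo hh
  have hEq := h3 G h A0 B0 h _ _ hGo hW0 hW1 (ae_eq_refl _)
  have e0 : ∫ z, η z * ψ (h z) * ‖deriv h z‖ ^ 2 =
      ∫ z, η z * ψ (h z) * (‖A0 z‖ ^ 2 - ‖B0 z‖ ^ 2) := by
    refine integral_congr_ae ?_
    filter_upwards [(ae_restrict_iff' hGo.measurableSet).1 hEq.1,
      (ae_restrict_iff' hGo.measurableSet).1 hEq.2] with z hz1 hz2
    by_cases hz : z ∈ G
    · rw [hz1 hz, hz2 hz, norm_zero]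
      ring
    · have : η z = 0 := image_eq_zero_of_notMem_tsupport fun h' => hz (hη.2.2 h')
      rw [this]
      ring
  rw [e0]
  refine le_of_tendsto' hlim fun l => ?_
  -- the degree bound for `g(·, k l)`
  have hNi : (‖k' l‖)⁻¹ ≠ 0 := inv_ne_zero (hN0 l).ne'
  have hψ' : RTF univ (fun z => ψ ((‖k' l‖)⁻¹ • z)) := by
    refine ⟨hψ.1.comp (contDiff_const_smul _), ?_, subset_univ _⟩
    exact hψ.2.1.comp_homeomorph (Homeomorph.smulOfNeZero _ hNi)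
  have hdeg := hLS.deg (k' l) (norm_pos_iff.1 (hN0 l)) _ _ (hWg l) η _ hη hη01 hψ'
    (fun z => hψ0 _)
  have e1 : ∫ z, ψ ((‖k' l‖)⁻¹ • z) = ‖k' l‖ ^ 2 * ∫ z, ψ z := by
    rw [Measure.integral_comp_smul volume ψ (‖k' l‖)⁻¹, Complex.finrank_real_complex, inv_pow,
      inv_inv, abs_of_nonneg (by positivity), smul_eq_mul]
  rw [e1] at hdeg
  have e2 : ∫ z, η z * ψ (hl l z) * (‖A' l z‖ ^ 2 - ‖B' l z‖ ^ 2) =
      (‖k' l‖ ^ 2)⁻¹ * ∫ z, η z * ψ ((‖k' l‖)⁻¹ • g z (k' l)) *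
        (‖A l z / exp (g z (k' l))‖ ^ 2 - ‖B l z / exp (g z (k' l))‖ ^ 2) := by
    rw [← integral_const_mul]
    refine integral_congr_ae (Eventually.of_forall fun z => ?_)
    have e3 : hl l z = (‖k' l‖)⁻¹ • g z (k' l) := by
      rw [hhl, Complex.real_smul, Complex.ofReal_inv]
      exact div_eq_inv_mul _ _
    simp only [e3]
    rw [hA', hB']
    simp only []
    rw [norm_mul, norm_mul, norm_inv, Complex.norm_real, norm_norm, mul_pow, mul_pow, inv_pow]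
    ring
  have hp : 0 < ‖k' l‖ ^ 2 := by have := hN0 l; positivity
  rw [e2, inv_mul_le_iff₀ hp]
  exact hdeg

end

end Cal
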