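import Pool.Agent.Lib.MP_4ea4c7_an.StmH8

/-!
# MP_4ea4c7_an, stage 2, piece n12: area argument for injectivity
-/

open MeasureTheory Complex Metric Set Filter Topology
open scoped ComplexConjugate ENNReal NNReal

namespace Cal

noncomputable section

private lemma ninjc_det (a : ℂ) : ((ContinuousLinearMap.toSpanSingleton ℂ a).restrictScalars ℝ).det = ‖a‖ ^ 2 := by
  have h1 : (((ContinuousLinearMap.toSpanSingleton ℂ a).restrictScalars ℝ : ℂ →L[ℝ] ℂ) : ℂ →ₗ[ℝ] ℂ)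
      = Algebra.lmul ℝ ℂ a := by
    refine LinearMap.ext fun z => ?_
    simp [mul_comm]
  rw [ContinuousLinearMap.det, h1, ← Algebra.norm_apply, Algebra.norm_complex_apply, Complex.normSq_eq_norm_sq]

private lemma ninjc_cv (h : ℂ → ℂ) (N : Set ℂ) (hN : IsOpen N) (hd : DifferentiableOn ℂ h N) (hi : InjOn h N)
    (ψ : ℂ → ℝ) (hψ : ∀ z, z ∉ h '' N → ψ z = 0) :
    ∫ z in N, ψ (h z) * ‖deriv h z‖ ^ 2 = ∫ z, ψ z := by
  have hfd : ∀ z ∈ N, HasFDerivWithinAt h ((ContinuousLinearMap.toSpanSingleton ℂ (deriv h z)).restrictScalars ℝ) N z := by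
    intro z hz
    have h1 : HasDerivAt h (deriv h z) z := (hd.differentiableAt (hN.mem_nhds hz)).hasDerivAt
    exact (h1.hasFDerivAt.restrictScalars ℝ).hasFDerivWithinAt
  rw [← setIntegral_eq_integral_of_forall_compl_eq_zero hψ,
    integral_image_eq_integral_abs_det_fderiv_smul volume hN.measurableSet hfd hi]
  refine setIntegral_congr_fun hN.measurableSet fun z _ => ?_
  simp only [ninjc_det, smul_eq_mul, abs_of_nonneg (sq_nonneg ‖deriv h z‖)]
  ring

private lemma ninjc_loc (G : Set ℂ) (h : ℂ → ℂ) (hG : IsOpen G) (hd : DifferentiableOn ℂ h G) (z : ℂ) (hz : z ∈ G)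
    (hdz : deriv h z ≠ 0) (ε : ℝ) (hε : 0 < ε) :
    ∃ N : Set ℂ, IsOpen N ∧ N ⊆ ball z ε ∧ z ∈ N ∧ N ⊆ G ∧ InjOn h N ∧ IsOpen (h '' N) := by
  have hs : HasStrictDerivAt h (deriv h z) z := (hd.analyticAt (hG.mem_nhds hz)).hasStrictDerivAt
  have hs2 := hs.hasStrictFDerivAt_equiv hdz
  let e := hs2.toOpenPartialHomeomorph h
  have he : (e : ℂ → ℂ) = h := rfl
  have hze : z ∈ e.source := hs2.mem_toOpenPartialHomeomorph_source
  have hopen : IsOpen (e.source ∩ (ball z ε ∩ G)) := e.open_source.inter (isOpen_ball.inter hG)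
  refine ⟨e.source ∩ (ball z ε ∩ G), hopen, fun x hx => hx.2.1, ⟨hze, mem_ball_self hε, hz⟩, fun x hx => hx.2.2, ?_, ?_⟩
  · exact e.injOn.mono inter_subset_left
  · exact e.isOpen_image_of_subset_source hopen inter_subset_left

theorem piece_ninjc : S_ninjc := by
  intro G h hG hGc hd hnc harea z1 hz1 z2 hz2 h12
  by_contra hne
  have han : AnalyticOnNhd ℂ h G := hd.analyticOnNhd hG
  -- disjoint balls
  obtain ⟨ε1, hε1, hb1⟩ := Metric.isOpen_iff.1 hG z1 hz1
  obtain ⟨ε2, hε2, hb2⟩ := Metric.isOpen_iff.1 hG z2 hz2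
  obtain ⟨B1, B2, hB1o, hB2o, hz1B, hz2B, hdis⟩ := t2_separation hne
  have hopenmap : ∀ z ∈ G, ∀ B ∈ 𝓝 z, h '' B ∈ 𝓝 (h z) := by
    intro z hz B hB
    rcases (han z hz).eventually_constant_or_nhds_le_map_nhds with hc | hc
    · exfalso
      apply hnc
      refine ⟨h z, ?_⟩
      have := han.eqOn_of_preconnected_of_eventuallyEq (analyticOnNhd_const (v := h z)) hGc hz hc
      exact this
    · exact hc (image_mem_map hB)
  have hW1 : h '' (B1 ∩ G) ∈ 𝓝 (h z1) := hopenmap z1 hz1 _ ((hB1o.inter hG).mem_nhds ⟨hz1B, hz1⟩)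
  have hW2 : h '' (B2 ∩ G) ∈ 𝓝 (h z1) := by
    rw [h12]
    exact hopenmap z2 hz2 _ ((hB2o.inter hG).mem_nhds ⟨hz2B, hz2⟩)
  have hpos : 0 < volume (h '' (B1 ∩ G) ∩ h '' (B2 ∩ G)) := Measure.measure_pos_of_mem_nhds volume (inter_mem hW1 hW2)
  have hcrit : volume (h '' {z | z ∈ G ∧ deriv h z = 0}) = 0 := by
    refine addHaar_image_eq_zero_of_det_fderivWithin_eq_zero volume
      (f' := fun z => (ContinuousLinearMap.toSpanSingleton ℂ (deriv h z)).restrictScalars ℝ) ?_ ?_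
    · rintro z ⟨hz, -⟩
      have h1 : HasDerivAt h (deriv h z) z := (hd.differentiableAt (hG.mem_nhds hz)).hasDerivAt
      exact (h1.hasFDerivAt.restrictScalars ℝ).hasFDerivWithinAt
    · rintro z ⟨-, hz⟩
      rw [ninjc_det, hz]
      simp
  obtain ⟨v, hv1, hv2⟩ : ((h '' (B1 ∩ G) ∩ h '' (B2 ∩ G)) \ h '' {z | z ∈ G ∧ deriv h z = 0}).Nonempty := by
    by_contra hemp
    rw [not_nonempty_iff_eq_empty, sdiff_eq_empty] at hemp
    exact absurd (measure_mono_null hemp hcrit) hpos.ne'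
  obtain ⟨⟨a, ⟨haB, haG⟩, hav⟩, ⟨b, ⟨hbB, hbG⟩, hbv⟩⟩ := hv1
  have hda : deriv h a ≠ 0 := fun h0 => hv2 ⟨a, ⟨haG, h0⟩, hav⟩
  have hdb : deriv h b ≠ 0 := fun h0 => hv2 ⟨b, ⟨hbG, h0⟩, hbv⟩
  obtain ⟨εa, hεa, hba⟩ := Metric.isOpen_iff.1 (hB1o.inter hG) a ⟨haB, haG⟩
  obtain ⟨εb, hεb, hbb⟩ := Metric.isOpen_iff.1 (hB2o.inter hG) b ⟨hbB, hbG⟩
  let ba : ContDiffBump a := ⟨εa / 3, εa / 2, by positivity, by linarith⟩
  let bb : ContDiffBump b := ⟨εb / 3, εb / 2, by positivity, by linarith⟩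
  have hta : tsupport ba ⊆ B1 ∩ G := by
    rw [ba.tsupport_eq]
    exact (closedBall_subset_ball (by show εa / 2 < εa; linarith)).trans hba
  have htb : tsupport bb ⊆ B2 ∩ G := by
    rw [bb.tsupport_eq]
    exact (closedBall_subset_ball (by show εb / 2 < εb; linarith)).trans hbb
  have hη0 : ∀ z, ba z = 0 ∨ bb z = 0 := by
    intro z
    by_contra hcon
    push Not at hcon
    exact Set.disjoint_left.1 hdis (hta (subset_tsupport _ hcon.1)).1 (htb (subset_tsupport _ hcon.2)).1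
  obtain ⟨η, hη⟩ : ∃ η : ℂ → ℝ, η = fun z => ba z + bb z := ⟨_, rfl⟩
  have hηd : ContDiff ℝ (⊤ : ℕ∞) η := by
    rw [hη]; exact ba.contDiff.add bb.contDiff
  have hηs : tsupport η ⊆ tsupport ba ∪ tsupport bb := by
    rw [hη]; exact tsupport_add _ _
  have hηc : HasCompactSupport η := by
    rw [hη]; exact ba.hasCompactSupport.add bb.hasCompactSupport
  have hηt : RTF G η := ⟨hηd, hηc, hηs.trans (union_subset (hta.trans inter_subset_right) (htb.trans inter_subset_right))⟩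
  have hη01 : ∀ z, 0 ≤ η z ∧ η z ≤ 1 := by
    intro z
    rw [hη]
    refine ⟨add_nonneg ba.nonneg bb.nonneg, ?_⟩
    rcases hη0 z with h0 | h0
    · simp only [h0, zero_add]; exact bb.le_one
    · simp only [h0, add_zero]; exact ba.le_one
  obtain ⟨Na, hNao, hNab, haN, hNaG, hNai, hNaim⟩ := ninjc_loc G h hG hd a haG hda (εa / 3) (by positivity)
  obtain ⟨Nb, hNbo, hNbb, hbN, hNbG, hNbi, hNbim⟩ := ninjc_loc G h hG hd b hbG hdb (εb / 3) (by positivity)
  have hη1a : ∀ z ∈ Na, η z = 1 := by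
    intro z hz
    have h1 : ba z = 1 := ba.one_of_mem_closedBall (ball_subset_closedBall (hNab hz))
    have h2 : bb z = 0 := (hη0 z).resolve_left (by rw [h1]; exact one_ne_zero)
    rw [hη]; simp only [h1, h2, add_zero]
  have hη1b : ∀ z ∈ Nb, η z = 1 := by
    intro z hz
    have h1 : bb z = 1 := bb.one_of_mem_closedBall (ball_subset_closedBall (hNbb hz))
    have h2 : ba z = 0 := (hη0 z).resolve_right (by rw [h1]; exact one_ne_zero)
    rw [hη]; simp only [h1, h2, zero_add]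
  have hNd : Disjoint Na Nb := by
    rw [Set.disjoint_left]
    intro z hza hzb
    have h1 : ba z = 1 := ba.one_of_mem_closedBall (ball_subset_closedBall (hNab hza))
    have h2 : bb z = 1 := bb.one_of_mem_closedBall (ball_subset_closedBall (hNbb hzb))
    rcases hη0 z with h0 | h0
    · rw [h1] at h0; exact one_ne_zero h0
    · rw [h2] at h0; exact one_ne_zero h0
  have hvn : h '' Na ∩ h '' Nb ∈ 𝓝 v :=
    (hNaim.inter hNbim).mem_nhds ⟨⟨a, haN, hav⟩, ⟨b, hbN, hbv⟩⟩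
  obtain ⟨ψ, hψs, hψc, hψd, hψr, hψv⟩ := exists_contDiff_tsupport_subset (n := (⊤ : ℕ∞)) hvn
  have hψ0 : ∀ z, 0 ≤ ψ z := fun z => (hψr (mem_range_self z)).1
  have hψt : RTF univ ψ := ⟨hψd, hψc, subset_univ _⟩
  have hψpos : 0 < ∫ z, ψ z :=
    hψd.continuous.integral_pos_of_hasCompactSupport_nonneg_nonzero hψc hψ0 (x := v) (by rw [hψv]; exact one_ne_zero)
  have key := harea η ψ hηt hη01 hψt hψ0
  have hIa : ∫ z in Na, ψ (h z) * ‖deriv h z‖ ^ 2 = ∫ z, ψ z :=
    ninjc_cv h Na hNao (hd.mono hNaG) hNai ψ fun z hz => by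
      by_contra h0
      exact hz (hψs (subset_tsupport _ h0)).1
  have hIb : ∫ z in Nb, ψ (h z) * ‖deriv h z‖ ^ 2 = ∫ z, ψ z :=
    ninjc_cv h Nb hNbo (hd.mono hNbG) hNbi ψ fun z hz => by
      by_contra h0
      exact hz (hψs (subset_tsupport _ h0)).2
  have hint : Integrable (fun z => η z * ψ (h z) * ‖deriv h z‖ ^ 2) volume := by
    have h1 : IntegrableOn (fun z => η z * ψ (h z) * ‖deriv h z‖ ^ 2) (tsupport η) volume := by
      refine ContinuousOn.integrableOn_compact hηc ?_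
      refine (hηd.continuous.continuousOn.mul (hψd.continuous.comp_continuousOn (hd.continuousOn.mono hηt.2.2))).mul ?_
      exact ((hd.deriv hG).continuousOn.mono hηt.2.2).norm.pow 2
    refine (integrableOn_iff_integrable_of_support_subset ?_).1 h1
    intro z hz
    apply subset_tsupport
    rw [Function.mem_support] at hz ⊢
    intro h0
    apply hz
    rw [h0]
    ring
  have hnn : ∀ z, 0 ≤ η z * ψ (h z) * ‖deriv h z‖ ^ 2 := fun z =>
    mul_nonneg (mul_nonneg (hη01 z).1 (hψ0 _)) (sq_nonneg _)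
  have hle : ∫ z in Na ∪ Nb, η z * ψ (h z) * ‖deriv h z‖ ^ 2 ≤ ∫ z, η z * ψ (h z) * ‖deriv h z‖ ^ 2 :=
    setIntegral_le_integral hint (Eventually.of_forall hnn)
  rw [setIntegral_union hNd hNbo.measurableSet hint.integrableOn hint.integrableOn] at hle
  have e1 : ∫ z in Na, η z * ψ (h z) * ‖deriv h z‖ ^ 2 = ∫ z in Na, ψ (h z) * ‖deriv h z‖ ^ 2 :=
    setIntegral_congr_fun hNao.measurableSet fun z hz => by simp only [hη1a z hz, one_mul]
  have e2 : ∫ z in Nb, η z * ψ (h z) * ‖deriv h z‖ ^ 2 = ∫ z in Nb, ψ (h z) * ‖deriv h z‖ ^ 2 :=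
    setIntegral_congr_fun hNbo.measurableSet fun z hz => by simp only [hη1b z hz, one_mul]
  rw [e1, e2, hIa, hIb] at hle
  linarith

end

end Cal
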