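import Pool.Agent.Lib.MP_4ea4c7_an.StmH8

/-!
# [n9] `Λ_θ - g = o(k)`
-/

open MeasureTheory Complex Metric Set Filter Topology
open scoped ComplexConjugate ENNReal NNReal

namespace Cal

theorem piece_nlam (h1 : S_nest) (h2 : S_nlog) : S_nlam := by
  intro G μ X Y g hAL K hK hKG ε hε
  obtain ⟨R, hR⟩ := h2 G μ X Y g hAL K hK hKG (ε / 6) (by positivity)
  refine ⟨max R (24 / ε), fun k hk z hz θ hθ0 hθ1 => ?_⟩
  have hkR : R ≤ ‖k‖ := (le_max_left _ _).trans hk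
  have hk2 : 24 / ε ≤ ‖k‖ := (le_max_right _ _).trans hk
  have hT : 0 ≤ ε / 6 * ‖k‖ := by positivity
  have hzG := hKG hz
  obtain ⟨C, hC⟩ := hAL.2.bd
  have hX : 0 < ‖X z k‖ := by
    rw [← hAL.2.eg z hzG k]
    exact norm_pos_iff.2 (Complex.exp_ne_zero _)
  have h3 := (h1 G μ X Y g hAL.2 z hzG k θ hθ0 hθ1).1 (ε / 6 * ‖k‖) hT (fun c hc => by
    have hF : 0 < ‖FF X Y c z k‖ := lt_of_lt_of_le (Real.exp_pos _) (hC z hzG k c hc).1
    have h4 := abs_le.1 (hR k c hkR hc z hz)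
    constructor
    · calc Real.exp (-(ε / 6 * ‖k‖)) * ‖X z k‖ = Real.exp (-(ε / 6 * ‖k‖) + Real.log ‖X z k‖) := by
            rw [Real.exp_add, Real.exp_log hX]
        _ ≤ Real.exp (Real.log ‖FF X Y c z k‖) := Real.exp_le_exp.2 (by linarith [h4.1])
        _ = ‖FF X Y c z k‖ := Real.exp_log hF
    · calc ‖FF X Y c z k‖ = Real.exp (Real.log ‖FF X Y c z k‖) := (Real.exp_log hF).symm
        _ ≤ Real.exp ((ε / 6 * ‖k‖) + Real.log ‖X z k‖) := Real.exp_le_exp.2 (by linarith [h4.2])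
        _ = Real.exp (ε / 6 * ‖k‖) * ‖X z k‖ := by rw [Real.exp_add, Real.exp_log hX])
  refine h3.trans ?_
  rw [div_le_iff₀ hε] at hk2
  linarith

end Cal
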