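import Pool.Agent.Lib.MP_4ea4c7_an.StmH8
import Pool.Agent.Lib.MP_4ea4c7_an.Stm2

set_option autoImplicit false

/-!
# MP_4ea4c7_an, stage 2: piece nlim (compactness and holomorphic limits)
-/

open MeasureTheory Complex Metric Set Filter Topology
open scoped ComplexConjugate ENNReal NNReal

namespace Cal

noncomputable section

private lemma nlim_ffwd (h1 : S_basic) {G : Set ℂ} {μ : ℂ → ℝ} {X Y g : ℂ → ℂ → ℂ} (hLS : LS G μ X Y g) (k c : ℂ) :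
    ∃ A B : ℂ → ℂ, WD G (fun z => FF X Y c z k) A B ∧ ∀ᵐ z ∂(volume.restrict G), B z = (μ z : ℂ) * conj (A z) := by
  obtain ⟨hX, hY⟩ := hLS.cl k
  obtain ⟨A1, B1, w1, e1, _⟩ := hX.en
  obtain ⟨A2, B2, w2, e2, _⟩ := hY.en
  refine ⟨_, _, h1.1 G _ _ _ _ _ _ (h1.2.1 G _ _ _ (c.re : ℂ) w1) (h1.2.1 G _ _ _ (c.im : ℂ) w2), ?_⟩
  filter_upwards [e1, e2] with z a1 a2
  rw [a1, a2, map_add, map_mul, map_mul, Complex.conj_ofReal, Complex.conj_ofReal]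
  ring

private lemma nlim_one (h1 : S_basic) (h2 : S_bwlog) {G : Set ℂ} {μ : ℂ → ℝ} {X Y g : ℂ → ℂ → ℂ} (hG : IsOpen G)
    (hLS : LS G μ X Y g) (k c : ℂ) (hk : 1 ≤ ‖k‖) (γ : ℂ → ℂ) (hγ : ContinuousOn γ G)
    (hexp : ∀ z ∈ G, exp (γ z) = FF X Y c z k) :
    ∃ A B : ℂ → ℂ, WD G (fun z => γ z / (‖k‖ : ℂ)) A B ∧
      (∀ᵐ z ∂(volume.restrict G), B z = (μ z : ℂ) * exp ((‖k‖ : ℂ) * (conj (γ z / (‖k‖ : ℂ)) - γ z / (‖k‖ : ℂ))) * conj (A z)) ∧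
      (∀ᵐ z ∂(volume.restrict G), ‖B z‖ = |μ z| * ‖A z‖) ∧
      ∀ (K : Set ℂ) (D : ℝ), IsCompact K → K ⊆ G →
        (∀ A B : ℂ → ℂ, WD G (fun z => FF X Y c z k) A B → ∫ z in K, ‖A z‖ ^ 2 / ‖FF X Y c z k‖ ^ 2 ≤ D * ‖k‖ ^ 2) →
        ∫ z in K, ‖A z‖ ^ 2 ≤ D := by
  obtain ⟨A, B, hAB, hB⟩ := nlim_ffwd h1 hLS k c
  have hk0 : (‖k‖ : ℂ) ≠ 0 := by
    have : (0 : ℝ) < ‖k‖ := by linarith
    exact_mod_cast this.ne'
  have hkr : (0 : ℝ) < ‖k‖ := by linarith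
  have e0 : (fun z => FF X Y c z k) =ᵐ[volume.restrict G] fun z => exp (γ z) := by
    filter_upwards [ae_restrict_mem hG.measurableSet] with z hz
    exact (hexp z hz).symm
  have w1 : WD G (fun z => exp (γ z)) A B := h1.2.2.2.1 G _ A B _ A B hG.measurableSet hAB e0 EventuallyEq.rfl EventuallyEq.rfl
  have w2 := h1.2.1 G _ _ _ ((‖k‖ : ℂ)⁻¹) (h2 G γ A B hG hγ w1)
  have w3 : WD G (fun z => γ z / (‖k‖ : ℂ)) (fun z => (‖k‖ : ℂ)⁻¹ * (A z / exp (γ z))) (fun z => (‖k‖ : ℂ)⁻¹ * (B z / exp (γ z))) := by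
    have e : (fun z => γ z / (‖k‖ : ℂ)) = fun z => (‖k‖ : ℂ)⁻¹ * γ z := by
      funext z
      rw [div_eq_inv_mul]
    rw [e]
    exact w2
  refine ⟨_, _, w3, ?_, ?_, ?_⟩
  · filter_upwards [hB] with z hz
    have a1 : (‖k‖ : ℂ) * (conj (γ z / (‖k‖ : ℂ)) - γ z / (‖k‖ : ℂ)) = conj (γ z) - γ z := by
      rw [map_div₀, Complex.conj_ofReal]
      field_simp
    have a2 : exp (conj (γ z)) ≠ 0 := Complex.exp_ne_zero _
    have a3 : exp (γ z) ≠ 0 := Complex.exp_ne_zero _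
    rw [a1, hz, Complex.exp_sub, map_mul, map_div₀, map_inv₀, Complex.conj_ofReal, ← Complex.exp_conj]
    field_simp
  · filter_upwards [hB] with z hz
    rw [hz, norm_mul, norm_mul, norm_div, norm_div, norm_mul, Complex.norm_real, Real.norm_eq_abs, RCLike.norm_conj]
    ring
  · intro K D hK hKG hen
    have b1 := hen A B hAB
    have b2 : ∫ z in K, ‖(‖k‖ : ℂ)⁻¹ * (A z / exp (γ z))‖ ^ 2 = (‖k‖ ^ 2)⁻¹ * ∫ z in K, ‖A z‖ ^ 2 / ‖FF X Y c z k‖ ^ 2 := by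
      rw [← integral_const_mul]
      refine setIntegral_congr_fun hK.measurableSet fun z hz => ?_
      rw [← hexp z (hKG hz), norm_mul, norm_inv, Complex.norm_real, norm_norm, norm_div]
      field_simp
    rw [b2]
    rw [inv_mul_le_iff₀ (by positivity), mul_comm]
    exact b1

private lemma nlim_equi (h1 : S_basic) (h3 : S_amp) (h4 : S_CL) {G : Set ℂ} {μ : ℂ → ℝ} {k0 : ℝ} (hA : Adm G k0 μ)
    (h A B : ℕ → ℂ → ℂ) (hc : ∀ l, ContinuousOn (h l) G) (hw : ∀ l, WD G (h l) (A l) (B l))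
    (hB : ∀ l, ∀ᵐ z ∂(volume.restrict G), ‖B l z‖ = |μ z| * ‖A l z‖)
    (hE : ∀ K : Set ℂ, IsCompact K → K ⊆ G → ∃ C : ℝ, ∀ l, ∫ z in K, ‖A l z‖ ^ 2 ≤ C) (z0 : ℂ) (hz0 : z0 ∈ G) (ε : ℝ) (hε : 0 < ε) :
    ∃ δ : ℝ, 0 < δ ∧ ∀ l, ∀ z ∈ closedBall z0 δ, ‖h l z - h l z0‖ ≤ ε := by
  obtain ⟨ρ, hρ, hρG⟩ := Metric.nhds_basis_closedBall.mem_iff.mp (hA.oG.mem_nhds hz0)
  have hK : IsCompact (closedBall z0 ρ) := isCompact_closedBall _ _
  obtain ⟨D, hD⟩ := hE _ hK hρG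
  have hD0 : 0 ≤ D := (integral_nonneg fun z => by positivity).trans (hD 0)
  have hbG : ball z0 ρ ⊆ G := ball_subset_closedBall.trans hρG
  have hmu : ∀ z ∈ G, |μ z| < 1 := by
    intro z hz
    obtain ⟨q, hq, hq2⟩ := hA.loc {z} isCompact_singleton (singleton_subset_iff.mpr hz)
    exact (hq2 z rfl).trans_lt hq
  set L : ℝ := 2 * D * 64 / ε ^ 2 + 1 with hL
  have hL0 : 0 < L := by positivity
  have hδρ : ρ * Real.exp (-L) < ρ := by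
    have : Real.exp (-L) < 1 := Real.exp_lt_one_iff.mpr (by linarith)
    nlinarith
  refine ⟨ρ * Real.exp (-L), by positivity, ?_⟩
  intro l z hz
  have hBb : ∀ᵐ z ∂(volume.restrict (ball z0 ρ)), ‖B l z‖ = |μ z| * ‖A l z‖ := ae_restrict_of_ae_restrict_of_subset hbG (hB l)
  have hwb : WD (ball z0 ρ) (h l) (A l) (B l) := h1.2.2.2.2.1 G _ _ _ _ hbG (hw l)
  have hAint : IntegrableOn (fun z => ‖A l z‖ ^ 2) (closedBall z0 ρ) volume :=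
    (memLp_two_iff_integrable_sq_norm ((hw l).A2 _ hK hρG).1).mp ((hw l).A2 _ hK hρG)
  have hBint : IntegrableOn (fun z => ‖B l z‖ ^ 2) (closedBall z0 ρ) volume :=
    (memLp_two_iff_integrable_sq_norm ((hw l).B2 _ hK hρG).1).mp ((hw l).B2 _ hK hρG)
  have hAb := hAint.mono_set ball_subset_closedBall
  have hBb' := hBint.mono_set ball_subset_closedBall
  have hAle : ∫ z in ball z0 ρ, ‖A l z‖ ^ 2 ≤ D :=
    (setIntegral_mono_set hAint (Eventually.of_forall fun z => by positivity) (Eventually.of_forall ball_subset_closedBall)).trans (hD l)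
  have hBle : ∫ z in ball z0 ρ, ‖B l z‖ ^ 2 ≤ D := by
    refine le_trans (integral_mono_ae hBb' hAb ?_) hAle
    filter_upwards [hBb, ae_restrict_mem (measurableSet_ball (x := z0) (ε := ρ))] with z hz hzb
    rw [hz]
    have := hmu z (hbG hzb)
    have h0 := norm_nonneg (A l z)
    have h00 := abs_nonneg (μ z)
    show (|μ z| * ‖A l z‖) ^ 2 ≤ ‖A l z‖ ^ 2
    have : |μ z| * ‖A l z‖ ≤ ‖A l z‖ := by nlinarith
    gcongr
  have hM : MPP z0 ρ (h l) := by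
    refine h3 z0 ρ (h l) (A l) (B l) ((hc l).mono hbG) hwb ?_
    filter_upwards [hBb, ae_restrict_mem (measurableSet_ball (x := z0) (ε := ρ))] with z hz hzb
    have hm := hmu z (hbG hzb)
    have h0 := norm_nonneg (A l z)
    refine ⟨by rw [hz]; nlinarith, fun he => ?_⟩
    rw [hz] at he
    have : ‖A l z‖ = 0 := by nlinarith
    exact norm_eq_zero.mp this
  have key := h4 z0 ρ (2 * D) (h l) (A l) (B l) ((hc l).mono hbG) hwb (hAb.add hBb') (by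
    rw [integral_add hAb hBb']
    linarith) hM (ρ * Real.exp (-L)) (by positivity) hδρ z hz
  have hlog : Real.log (ρ / (ρ * Real.exp (-L))) = L := by
    have : ρ / (ρ * Real.exp (-L)) = Real.exp L := by
      rw [Real.exp_neg]
      field_simp
    rw [this, Real.log_exp]
  rw [hlog] at key
  refine key.trans ?_
  have h5 : 2 * D / L ≤ (ε / 8) ^ 2 := by
    rw [div_le_iff₀ hL0, hL]
    have : (ε / 8) ^ 2 * (2 * D * 64 / ε ^ 2 + 1) = 2 * D + (ε / 8) ^ 2 := by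
      field_simp
      ring
    rw [this]
    nlinarith [sq_nonneg (ε / 8)]
  have h6 : Real.sqrt (2 * D / L) ≤ ε / 8 := by
    calc Real.sqrt (2 * D / L) ≤ Real.sqrt ((ε / 8) ^ 2) := Real.sqrt_le_sqrt h5
      _ = ε / 8 := Real.sqrt_sq (by linarith)
  linarith

private lemma nlim_core (h1 : S_basic) (h2 : S_bwlog) (h3 : S_amp) (h4 : S_CL) (h5 : S_baa) (h6 : S_nAVG)
    (G : Set ℂ) (μ : ℂ → ℝ) (X Y g : ℂ → ℂ → ℂ) (hAL : AL G μ X Y g) (k c : ℕ → ℂ) (γ : ℕ → ℂ → ℂ) (C : ℝ)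
    (hk : Tendsto (fun l => ‖k l‖) atTop atTop) (hk1 : ∀ l, 1 ≤ ‖k l‖) (hc : ∀ l, ‖c l‖ = 1) (hγ : ∀ l, ContinuousOn (γ l) G)
    (hexp : ∀ l, ∀ z ∈ G, exp (γ l z) = FF X Y (c l) z (k l)) (hbd : ∀ l, ∀ z ∈ G, ‖γ l z‖ ≤ C * (1 + ‖k l‖) * (1 + ‖z‖)) :
    ∃ (s : ℕ → ℕ) (h : ℂ → ℂ), StrictMono s ∧ DifferentiableOn ℂ h G ∧ LU G (fun l z => γ (s l) z / (‖k (s l)‖ : ℂ)) h := by
  obtain ⟨⟨k0, hA⟩, hLS⟩ := hAL
  choose A B hw hae hn hen using fun l => nlim_one h1 h2 hA.oG hLS (k l) (c l) (hk1 l) (γ l) (hγ l) (hexp l)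
  have hcont : ∀ l, ContinuousOn (fun z => γ l z / (‖k l‖ : ℂ)) G := fun l => (hγ l).div_const _
  have hE : ∀ K : Set ℂ, IsCompact K → K ⊆ G → ∃ D : ℝ, ∀ l, ∫ z in K, ‖A l z‖ ^ 2 ≤ D := by
    intro K hK hKG
    obtain ⟨D, hD⟩ := hLS.en K hK hKG
    exact ⟨D, fun l => hen l K D hK hKG fun A B hAB => (hD (k l) (c l) A B (hc l) hAB).2⟩
  have hequi := nlim_equi h1 h3 h4 hA (fun l z => γ l z / (‖k l‖ : ℂ)) A B hcont hw hn hE
  obtain ⟨φ, hh, hφ, _, hconv⟩ := h5 (G ×ˢ univ) (fun l p => γ l p.1 / (‖k l‖ : ℂ)) (hA.oG.prod isOpen_univ) (by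
    rintro ⟨z, w⟩ ⟨hz, _⟩
    refine ⟨2 * |C| * (1 + ‖z‖), Eventually.of_forall fun l => ?_⟩
    have hkl := hk1 l
    have hz' : z ∈ G := hz
    show ‖γ l z / (‖k l‖ : ℂ)‖ ≤ _
    rw [norm_div, Complex.norm_real, norm_norm, div_le_iff₀ (by linarith)]
    refine (hbd l z hz').trans ?_
    have a1 : C * (1 + ‖k l‖) * (1 + ‖z‖) ≤ |C| * (1 + ‖k l‖) * (1 + ‖z‖) := by
      have := le_abs_self C
      have := norm_nonneg z
      gcongr
    refine a1.trans ?_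
    have a2 : 1 + ‖k l‖ ≤ 2 * ‖k l‖ := by linarith
    calc |C| * (1 + ‖k l‖) * (1 + ‖z‖) ≤ |C| * (2 * ‖k l‖) * (1 + ‖z‖) := by gcongr
      _ = 2 * |C| * (1 + ‖z‖) * ‖k l‖ := by ring) (by
    rintro ⟨z, w⟩ ⟨hz, _⟩ ε hε
    obtain ⟨δ, hδ, hd⟩ := hequi z hz ε hε
    refine ⟨δ, hδ, Eventually.of_forall fun l => ?_⟩
    rintro ⟨z', w'⟩ _ hp
    refine hd l z' ?_
    rw [mem_closedBall]
    have : dist z' z ≤ dist (z', w') (z, w) := by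
      rw [Prod.dist_eq]
      exact le_max_left _ _
    linarith)
  have hLU : LU G (fun l z => γ (φ l) z / (‖k (φ l)‖ : ℂ)) (fun z => hh (z, 0)) := by
    intro K hK hKG
    have a1 : IsCompact (K ×ˢ ({0} : Set ℂ)) := hK.prod isCompact_singleton
    have a2 : K ×ˢ ({0} : Set ℂ) ⊆ G ×ˢ (univ : Set ℂ) := prod_mono hKG (subset_univ _)
    have a3 := (hconv _ a1 a2).comp (fun z : ℂ => (z, (0 : ℂ)))
    refine a3.mono ?_
    intro z hz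
    exact ⟨hz, rfl⟩
  refine ⟨φ, fun z => hh (z, 0), hφ, ?_, hLU⟩
  have hNpos : ∀ l, 0 < ‖k (φ l)‖ := fun l => by
    have := hk1 (φ l)
    linarith
  exact h6 G μ (fun l => ‖k (φ l)‖) (fun l z => γ (φ l) z / (‖k (φ l)‖ : ℂ)) (fun l => A (φ l)) (fun l => B (φ l)) (fun z => hh (z, 0))
    hA.oG hA.meas hA.loc (hk.comp hφ.tendsto_atTop) hNpos (fun l => hcont (φ l)) (fun l => hw (φ l)) (fun l => hae (φ l))
    (fun K hK hKG => by
      obtain ⟨D, hD⟩ := hE K hK hKG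
      exact ⟨D, fun l => hD (φ l)⟩) hLU

theorem piece_nlim (h1 : S_basic) (h2 : S_bwlog) (h3 : S_amp) (h4 : S_CL) (h5 : S_baa) (h6 : S_nAVG) : S_nlim := by
  intro G μ X Y g hAL k c γ C hk hc hγ hexp hbd
  obtain ⟨N0, hN0⟩ := eventually_atTop.mp (hk.eventually_ge_atTop 1)
  have hsh : Tendsto (fun l : ℕ => l + N0) atTop atTop := tendsto_add_atTop_nat N0
  obtain ⟨s, h, hs, hd, hLU⟩ := nlim_core h1 h2 h3 h4 h5 h6 G μ X Y g hAL (fun l => k (l + N0)) (fun l => c (l + N0))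
    (fun l => γ (l + N0)) C (hk.comp hsh) (fun l => hN0 _ (Nat.le_add_left _ _)) (fun l => hc _) (fun l => hγ _)
    (fun l => hexp _) (fun l => hbd _)
  exact ⟨fun l => s l + N0, h, fun a b hab => Nat.add_lt_add_right (hs hab) N0, hd, hLU⟩

end

end Cal
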