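import Pool.Agent.Lib.MP_4ea4c7_an.StmH8

open MeasureTheory Complex Metric Set Filter Topology
open scoped ComplexConjugate ENNReal NNReal

namespace Cal

noncomputable section

/-- A real valued holomorphic function on a connected open set is constant. -/
private theorem nlog_const (G : Set ℂ) (hG : IsOpen G) (hc : IsConnected G) (D : ℂ → ℂ)
    (hD : DifferentiableOn ℂ D G) (him : ∀ z ∈ G, (D z).im = 0) : ∃ w, ∀ z ∈ G, D z = w := by
  have ha : AnalyticOnNhd ℂ D G := hD.analyticOnNhd hG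
  rcases ha.is_constant_or_isOpen hc.isPreconnected with h | h
  · exact h
  · exfalso
    obtain ⟨z0, hz0⟩ := hc.nonempty
    have ho := h G subset_rfl hG
    obtain ⟨δ, hδ, hball⟩ := Metric.isOpen_iff.1 ho (D z0) (mem_image_of_mem D hz0)
    have hmem : D z0 + ((δ / 2 : ℝ) : ℂ) * I ∈ D '' G := by
      apply hball
      rw [mem_ball, dist_eq_norm, add_sub_cancel_left, norm_mul, norm_I, mul_one, norm_real,
        Real.norm_eq_abs, abs_of_pos (by linarith)]
      linarith
    obtain ⟨z1, hz1, he⟩ := hmem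
    have h1 := him z1 hz1
    rw [he] at h1
    have h2 := him z0 hz0
    simp at h1
    rw [h2] at h1
    linarith

private theorem nlog_log (w : ℂ) : ‖Complex.log w‖ ≤ |Real.log ‖w‖| + Real.pi := by
  have h1 := Complex.norm_le_abs_re_add_abs_im (Complex.log w)
  rw [Complex.log_re, Complex.log_im] at h1
  have h2 := Complex.abs_arg_le_pi w
  linarith

private theorem nlog_abslog {a T : ℝ} (h1 : Real.exp (-T) ≤ a) (h2 : a ≤ Real.exp T) :
    |Real.log a| ≤ T := by
  have ha : 0 < a := (Real.exp_pos _).trans_le h1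
  rw [abs_le]
  constructor
  · rw [← Real.log_exp (-T)]
    exact Real.log_le_log (Real.exp_pos _) h1
  · rw [← Real.log_exp T]
    exact Real.log_le_log ha h2

theorem piece_nlog (h1 : S_nalg) (h2 : S_nlim) : S_nlog := by
  intro G μ X Y g hAL K hK hKG ε hε
  have hAL' := hAL
  obtain ⟨⟨k0, hadm⟩, hLS⟩ := hAL
  have hX := (h1 G μ X Y g hLS).1
  obtain ⟨C, hC⟩ := hLS.bd
  obtain ⟨C2, hC2⟩ := hLS.asy
  have hFF1 : ∀ z k, FF X Y 1 z k = X z k := by intro z k; simp [FF]
  have hFFn : ∀ c z k, FF X Y (-c) z k = - FF X Y c z k := by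
    intro c z k
    simp only [FF, neg_re, neg_im, ofReal_neg]
    ring
  by_contra hcon
  push Not at hcon
  have hseq : ∀ l : ℕ, ∃ k c z : ℂ, ((l : ℝ) + 1 ≤ ‖k‖) ∧ ‖c‖ = 1 ∧ 0 < c.im ∧ z ∈ K ∧
      ε * ‖k‖ < |Real.log ‖FF X Y c z k‖ - Real.log ‖X z k‖| := by
    intro l
    obtain ⟨k, c, hk, hc, z, hz, hlt⟩ := hcon ((l : ℝ) + 1)
    rcases lt_trichotomy c.im 0 with hci | hci | hci
    · refine ⟨k, -c, z, hk, by rw [norm_neg, hc], by rw [neg_im]; linarith, hz, ?_⟩
      rw [hFFn, norm_neg]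
      exact hlt
    · exfalso
      have h3 : FF X Y c z k = c * X z k := by
        have h4 : c = (c.re : ℂ) := by
          apply Complex.ext <;> simp [hci]
        rw [FF, hci]
        nth_rewrite 2 [h4]
        simp
      rw [h3, norm_mul, hc, one_mul, sub_self, abs_zero] at hlt
      have : 0 ≤ ε * ‖k‖ := by positivity
      linarith
    · exact ⟨k, c, z, hk, hc, hci, hz, hlt⟩
  choose k c z hk hc hci hz hlt using hseq
  have hkpos : ∀ l, 0 < ‖k l‖ := fun l => lt_of_lt_of_le (by positivity) (hk l)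
  have hkt : Tendsto (fun l => ‖k l‖) atTop atTop := by
    refine tendsto_atTop_mono (fun l => ?_) (tendsto_natCast_atTop_atTop (R := ℝ))
    linarith [hk l]
  -- continuity in `z`
  have hcz : ∀ k : ℂ, Continuous (fun z : ℂ => ((z, k) : ℂ × ℂ)) := fun k => by fun_prop
  have hcX : ∀ k, ContinuousOn (fun z => X z k) G := fun k =>
    hLS.cX.comp (hcz k).continuousOn (fun z hz => ⟨hz, mem_univ _⟩)
  have hcY : ∀ k, ContinuousOn (fun z => Y z k) G := fun k =>
    hLS.cY.comp (hcz k).continuousOn (fun z hz => ⟨hz, mem_univ _⟩)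
  have hcg : ∀ k, ContinuousOn (fun z => g z k) G := fun k =>
    hLS.cg.comp (hcz k).continuousOn (fun z hz => ⟨hz, mem_univ _⟩)
  -- the second logarithm
  let w : ℕ → ℂ → ℂ := fun l z =>
    ((c l).re : ℂ) + ((c l).im : ℂ) * (Y z (k l) / X z (k l))
  let γ : ℕ → ℂ → ℂ := fun l z => g z (k l) + Complex.log (w l z)
  have hwim : ∀ l, ∀ z ∈ G, 0 < (w l z).im := by
    intro l z hz
    have h3 := (hX z hz (k l)).2
    simp only [w, add_im, ofReal_im, zero_add, im_ofReal_mul]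
    exact mul_pos (hci l) h3
  have hw0 : ∀ l, ∀ z ∈ G, w l z ≠ 0 := by
    intro l z hz h
    have := hwim l z hz
    rw [h] at this
    simp at this
  have hwX : ∀ l, ∀ z ∈ G, X z (k l) * w l z = FF X Y (c l) z (k l) := by
    intro l z hz
    have h3 := (hX z hz (k l)).1
    simp only [w, FF]
    field_simp
  have hγexp : ∀ l, ∀ z ∈ G, exp (γ l z) = FF X Y (c l) z (k l) := by
    intro l z hz
    simp only [γ]
    rw [exp_add, exp_log (hw0 l z hz), hLS.eg z hz, hwX l z hz]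
  have hγc : ∀ l, ContinuousOn (γ l) G := by
    intro l
    refine (hcg (k l)).add (ContinuousOn.clog ?_ ?_)
    · exact continuousOn_const.add (continuousOn_const.mul ((hcY (k l)).div (hcX (k l))
        (fun z hz => (hX z hz (k l)).1)))
    · intro z hz
      exact Or.inr (hwim l z hz).ne'
  have hγb : ∀ l, ∀ z ∈ G, ‖γ l z‖ ≤ (3 * C + 4) * (1 + ‖k l‖) * (1 + ‖z‖) := by
    intro l z hz
    have b1 := hC z hz (k l) (c l) (hc l)
    have b2 := hC z hz (k l) 1 (by simp)
    rw [hFF1] at b2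
    set T := C * (1 + ‖k l‖) * (1 + ‖z‖) with hT
    have e1 := nlog_abslog b1.1 b1.2.1
    have e2 := nlog_abslog b2.1 b2.2.1
    have hXn : 0 < ‖X z (k l)‖ := norm_pos_iff.2 (hX z hz (k l)).1
    have hwn : 0 < ‖w l z‖ := norm_pos_iff.2 (hw0 l z hz)
    have e3 : Real.log ‖FF X Y (c l) z (k l)‖ = Real.log ‖X z (k l)‖ + Real.log ‖w l z‖ := by
      rw [← hwX l z hz, norm_mul, Real.log_mul hXn.ne' hwn.ne']
    have e4 : |Real.log ‖w l z‖| ≤ 2 * T := by
      have : Real.log ‖w l z‖ = Real.log ‖FF X Y (c l) z (k l)‖ - Real.log ‖X z (k l)‖ := by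
        linarith
      rw [this, abs_le]
      rw [abs_le] at e1 e2
      constructor <;> linarith [e1.1, e1.2, e2.1, e2.2]
    have e5 := nlog_log (w l z)
    have e6 : ‖γ l z‖ ≤ ‖g z (k l)‖ + ‖Complex.log (w l z)‖ := norm_add_le _ _
    have e7 : (1 : ℝ) ≤ (1 + ‖k l‖) * (1 + ‖z‖) := by
      nlinarith [norm_nonneg (k l), norm_nonneg z, mul_nonneg (norm_nonneg (k l)) (norm_nonneg z)]
    have e8 : Real.pi ≤ 4 := Real.pi_le_four
    have e9 : (3 * C + 4) * (1 + ‖k l‖) * (1 + ‖z‖) = 3 * T + 4 * ((1 + ‖k l‖) * (1 + ‖z‖)) := by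
      rw [hT]; ring
    rw [e9]
    linarith [b1.2.2]
  have hgb : ∀ l, ∀ z ∈ G, ‖g z (k l)‖ ≤ C * (1 + ‖k l‖) * (1 + ‖z‖) := by
    intro l z hz
    exact (hC z hz (k l) 1 (by simp)).2.2
  -- the limits
  obtain ⟨s1, h, hs1, hhd, hh⟩ := h2 G μ X Y g hAL' k (fun _ => 1) (fun l z => g z (k l)) C hkt
    (fun _ => by simp) (fun l => hcg (k l)) (fun l z hz => by rw [hFF1]; exact hLS.eg z hz (k l))
    hgb
  obtain ⟨s2, h', hs2, hhd', hh'⟩ := h2 G μ X Y g hAL' (fun l => k (s1 l)) (fun l => c (s1 l))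
    (fun l => γ (s1 l)) (3 * C + 4) (hkt.comp hs1.tendsto_atTop) (fun l => hc (s1 l))
    (fun l => hγc (s1 l)) (fun l => hγexp (s1 l)) (fun l => hγb (s1 l))
  let t : ℕ → ℕ := fun l => s1 (s2 l)
  have ht : Tendsto t atTop atTop := hs1.tendsto_atTop.comp hs2.tendsto_atTop
  have hN : Tendsto (fun l => ‖k (t l)‖) atTop atTop := hkt.comp ht
  have hu1 : ∀ S : Set ℂ, IsCompact S → S ⊆ G →
      TendstoUniformlyOn (fun l z => g z (k (t l)) / (‖k (t l)‖ : ℂ)) h atTop S := by
    intro S hS hSG u hu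
    exact hs2.tendsto_atTop.eventually (hh S hS hSG u hu)
  have hu2 : ∀ S : Set ℂ, IsCompact S → S ⊆ G →
      TendstoUniformlyOn (fun l z => γ (t l) z / (‖k (t l)‖ : ℂ)) h' atTop S := hh'
  have hp1 : ∀ z ∈ G, Tendsto (fun l => g z (k (t l)) / (‖k (t l)‖ : ℂ)) atTop (𝓝 (h z)) :=
    fun z hz => (hu1 {z} isCompact_singleton (singleton_subset_iff.2 hz)).tendsto_at
      (mem_singleton z)
  have hp2 : ∀ z ∈ G, Tendsto (fun l => γ (t l) z / (‖k (t l)‖ : ℂ)) atTop (𝓝 (h' z)) :=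
    fun z hz => (hu2 {z} isCompact_singleton (singleton_subset_iff.2 hz)).tendsto_at
      (mem_singleton z)
  have hp3 : ∀ z ∈ G, Tendsto (fun l => Complex.log (w (t l) z) / (‖k (t l)‖ : ℂ)) atTop
      (𝓝 (h' z - h z)) := by
    intro z hz
    refine ((hp2 z hz).sub (hp1 z hz)).congr (fun l => ?_)
    simp only [γ]
    ring
  -- the imaginary part of the difference is zero
  have him : ∀ z ∈ G, (h' z - h z).im = 0 := by
    intro z hz
    have e1 := (continuous_im.tendsto _).comp (hp3 z hz)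
    have e2 : Tendsto (fun l => Real.pi / ‖k (t l)‖) atTop (𝓝 0) :=
      tendsto_const_nhds.div_atTop hN
    have e3 : Tendsto (fun l => (Complex.log (w (t l) z) / (‖k (t l)‖ : ℂ)).im) atTop (𝓝 0) := by
      refine squeeze_zero_norm (fun l => ?_) e2
      rw [div_ofReal_im, Complex.log_im, Real.norm_eq_abs, abs_div, abs_norm]
      gcongr
      exact Complex.abs_arg_le_pi _
    exact tendsto_nhds_unique e1 e3
  obtain ⟨r, hr⟩ := nlog_const G hadm.oG hadm.cG (fun z => h' z - h z) (hhd'.sub hhd) him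
  -- real parts of logarithms
  have hreg : ∀ z ∈ G, ∀ κ, (g z κ).re = Real.log ‖X z κ‖ := by
    intro z hz κ
    rw [← hLS.eg z hz κ, norm_exp, Real.log_exp]
  have hreγ : ∀ l, ∀ z ∈ G, (γ l z).re = Real.log ‖FF X Y (c l) z (k l)‖ := by
    intro l z hz
    rw [← hγexp l z hz, norm_exp, Real.log_exp]
  -- the real part of the constant is zero
  have hrr : ∀ z : ℂ, 2 ≤ ‖z‖ → |r.re| ≤ 2 * C2 / ‖z‖ := by
    intro z hz2
    have hz : z ∈ G := hadm.ext z (by linarith)
    have hz0 : 0 < ‖z‖ := by linarith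
    have e1 := (continuous_re.tendsto _).comp (hp3 z hz)
    have e2 := e1.abs
    have e3 : |(h' z - h z).re| = |r.re| := by
      have : h' z - h z = r := hr z hz
      rw [this]
    rw [← e3]
    refine le_of_tendsto e2 (Eventually.of_forall fun l => ?_)
    show |(Complex.log (w (t l) z) / (‖k (t l)‖ : ℂ)).re| ≤ 2 * C2 / ‖z‖
    have hkl := hkpos (t l)
    rw [div_ofReal_re, abs_div, abs_norm, div_le_iff₀ hkl]
    have e4 : (Complex.log (w (t l) z)).re = (γ (t l) z).re - (g z (k (t l))).re := by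
      simp only [γ, add_re]
      ring
    obtain ⟨f1, f2⟩ := hC2 z hz2 (k (t l))
    obtain ⟨d, hd1, hd2⟩ := f2 (c (t l)) (hc (t l))
    have e5 : (γ (t l) z).re = (I * k (t l) * z + d).re := by
      rw [hreγ (t l) z hz, hd2, norm_mul, hc (t l), one_mul, norm_exp, Real.log_exp]
    have e6 := (abs_re_le_norm (g z (k (t l)) - I * k (t l) * z)).trans f1
    have e7 := (abs_re_le_norm d).trans hd1
    rw [e4, e5]
    have e8 : 2 * C2 / ‖z‖ * ‖k (t l)‖ = C2 * ‖k (t l)‖ / ‖z‖ + C2 * ‖k (t l)‖ / ‖z‖ := by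
      ring
    rw [e8]
    rw [sub_re] at e6
    rw [add_re]
    rw [abs_le] at e6 e7 ⊢
    constructor <;> linarith [e6.1, e6.2, e7.1, e7.2]
  have hr0 : r.re = 0 := by
    by_contra hne
    have hpos : 0 < |r.re| := abs_pos.2 hne
    have hC20 : 0 ≤ C2 := by
      have := hrr 2 (by simp)
      have h3 : ‖(2 : ℂ)‖ = 2 := by simp
      rw [h3] at this
      linarith [abs_nonneg r.re]
    let M : ℝ := 2 * C2 / |r.re| + 2
    have hM : 0 < M := by positivity
    have h3 := hrr (M : ℂ) (by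
      rw [norm_real, Real.norm_eq_abs, abs_of_pos hM]
      have : 0 ≤ 2 * C2 / |r.re| := by positivity
      simp only [M]
      linarith)
    rw [norm_real, Real.norm_eq_abs, abs_of_pos hM, le_div_iff₀ hM] at h3
    have h4 : |r.re| * M = 2 * C2 + 2 * |r.re| := by
      simp only [M]
      field_simp
    linarith
  have hr1 : ∀ z ∈ G, (h' z - h z).re = 0 := by
    intro z hz
    have : h' z - h z = r := hr z hz
    rw [this, hr0]
  -- the contradiction
  have hε2 : 0 < ε / 2 := by linarith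
  have v1 := (Metric.tendstoUniformlyOn_iff.1 (hu1 K hK hKG)) (ε / 2) hε2
  have v2 := (Metric.tendstoUniformlyOn_iff.1 (hu2 K hK hKG)) (ε / 2) hε2
  obtain ⟨l, hl1, hl2⟩ := (v1.and v2).exists
  have hzK := hz (t l)
  have hzG := hKG hzK
  have a1 := hl1 (z (t l)) hzK
  have a2 := hl2 (z (t l)) hzK
  have a3 := hlt (t l)
  rw [← hreγ (t l) _ hzG, ← hreg _ hzG (k (t l))] at a3
  rw [dist_eq_norm] at a1 a2
  have b1 := (abs_re_le_norm _).trans_lt a1
  have b2 := (abs_re_le_norm _).trans_lt a2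
  rw [sub_re, div_ofReal_re] at b1 b2
  have b3 := hr1 _ hzG
  rw [sub_re] at b3
  have hkl := hkpos (t l)
  have b4 : |((γ (t l) (z (t l))).re - (g (z (t l)) (k (t l))).re) / ‖k (t l)‖| < ε := by
    rw [sub_div]
    rw [abs_lt] at b1 b2 ⊢
    constructor <;> linarith [b1.1, b1.2, b2.1, b2.2]
  rw [abs_div, abs_norm, div_lt_iff₀ hkl] at b4
  linarith

end

end Cal
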