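import Pool.Agent.Lib.MP_4ea4c7_an.StmH8

/-!
# MP_4ea4c7_an, stage 2, [N16]: lower bound for large `k`
-/

open MeasureTheory Complex Metric Set Filter Topology
open scoped ComplexConjugate ENNReal NNReal

namespace Cal

theorem nlow_LU {G : Set ℂ} {f : ℕ → ℂ → ℂ} {h : ℂ → ℂ} (hf : LU G f h) {s : ℕ → ℕ}
    (hs : StrictMono s) : LU G (fun l z => f (s l) z) h := by
  intro K hK hKG u hu
  exact hs.tendsto_atTop.eventually (hf K hK hKG u hu)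

theorem nlow_FF (X Y : ℂ → ℂ → ℂ) (z k : ℂ) : FF X Y 1 z k = X z k := by
  unfold FF
  simp

theorem nlow_lim (h1 : S_nlim) {G : Set ℂ} {μ : ℂ → ℝ} {X Y g : ℂ → ℂ → ℂ}
    (hA : AL G μ X Y g) (k : ℕ → ℂ) (hk : Tendsto (fun l => ‖k l‖) atTop atTop) :
    ∃ (s : ℕ → ℕ) (h : ℂ → ℂ), StrictMono s ∧ DifferentiableOn ℂ h G ∧
      LU G (fun l z => g z (k (s l)) / (‖k (s l)‖ : ℂ)) h := by
  obtain ⟨C, hC⟩ := hA.2.bd
  refine h1 G μ X Y g hA k (fun _ => 1) (fun l z => g z (k l)) C hk (fun _ => norm_one) ?_ ?_ ?_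
  · intro l
    have hp : ContinuousOn (fun z : ℂ => ((z, k l) : ℂ × ℂ)) G :=
      (continuous_id.prodMk continuous_const).continuousOn
    exact hA.2.cg.comp hp (fun z hz => ⟨hz, mem_univ _⟩)
  · intro l z hz
    rw [nlow_FF]
    exact hA.2.eg z hz (k l)
  · intro l z hz
    exact (hC z hz (k l) 1 norm_one).2.2

theorem piece_nlow (h1 : S_nlim) (h2 : S_nlam) (h3 : S_ninj) (h4 : S_nuni) : S_nlow := by
  intro G μ μ' X Y g X' Y' g' hA hA' hag K hK hKG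
  by_contra hcon
  have hseq : ∀ l : ℕ, ∃ (p : ℂ × ℂ) (k : ℂ) (θ : ℝ), p ∈ K ∧ (l : ℝ) + 1 ≤ ‖k‖ ∧ 0 ≤ θ ∧
      θ ≤ Real.pi / 2 ∧
      ‖Lam X Y g θ p.1 k - Lam X' Y' g' θ p.2 k‖ < 1 / ((l : ℝ) + 1) * ‖k‖ := by
    intro l
    by_contra hl
    apply hcon
    refine ⟨(l : ℝ) + 1, 1 / ((l : ℝ) + 1), by positivity, ?_⟩
    intro p hp k hk θ hθ0 hθ1
    by_contra hlt
    exact hl ⟨p, k, θ, hp, hk, hθ0, hθ1, not_le.mp hlt⟩
  choose p k θ hpK hk hθ0 hθ1 hlt using hseq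
  have hkt : Tendsto (fun l => ‖k l‖) atTop atTop := by
    refine tendsto_atTop_mono hk ?_
    exact tendsto_atTop_add_const_right _ _ tendsto_natCast_atTop_atTop
  obtain ⟨s1, h, hs1, hdh, hLU1⟩ := nlow_lim h1 hA k hkt
  obtain ⟨s2, h', hs2, hdh', hLU2⟩ := nlow_lim h1 hA' (fun l => k (s1 l))
    (hkt.comp hs1.tendsto_atTop)
  obtain ⟨p0, hp0, s3, hs3, hpt⟩ := hK.tendsto_subseq (x := fun l => p (s1 (s2 l)))
    (fun l => hpK _)
  set t : ℕ → ℕ := fun l => s1 (s2 (s3 l)) with ht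
  have htm : StrictMono t := hs1.comp (hs2.comp hs3)
  have htt : Tendsto t atTop atTop := htm.tendsto_atTop
  have hktt : Tendsto (fun l => ‖k (t l)‖) atTop atTop := hkt.comp htt
  have hLU1' : LU G (fun l z => g z (k (t l)) / (‖k (t l)‖ : ℂ)) h :=
    nlow_LU hLU1 (hs2.comp hs3)
  have hLU2' : LU G (fun l z => g' z (k (t l)) / (‖k (t l)‖ : ℂ)) h' := nlow_LU hLU2 hs3
  have hhh := h4 G μ μ' X Y g X' Y' g' hA hA' hag (fun l => k (t l)) h h' hdh hdh' hLU1' hLU2'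
  have hinj := (h3 G μ X Y g hA (fun l => k (t l)) h hktt hdh hLU1').1
  have hpt' : Tendsto (fun l => p (t l)) atTop (𝓝 p0) := hpt
  -- the two projections of `K`
  set K1 : Set ℂ := Prod.fst '' K with hK1
  set K2 : Set ℂ := Prod.snd '' K with hK2
  have hK1c : IsCompact K1 := hK.image continuous_fst
  have hK2c : IsCompact K2 := hK.image continuous_snd
  have hK1G : K1 ⊆ G := by
    rintro z ⟨p, hp, rfl⟩
    exact (hKG p hp).1
  have hK2G : K2 ⊆ G := by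
    rintro z ⟨p, hp, rfl⟩
    exact (hKG p hp).2.1
  have hc1 : ContinuousWithinAt h K1 p0.1 :=
    (hdh.continuousOn p0.1 (hKG p0 hp0).1).mono hK1G
  have hc2 : ContinuousWithinAt h' K2 p0.2 :=
    (hdh'.continuousOn p0.2 (hKG p0 hp0).2.1).mono hK2G
  have hq1 : Tendsto (fun l => (p (t l)).1) atTop (𝓝[K1] p0.1) :=
    tendsto_nhdsWithin_iff.mpr ⟨(continuous_fst.tendsto p0).comp hpt',
      Eventually.of_forall (fun l => ⟨p (t l), hpK _, rfl⟩)⟩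
  have hq2 : Tendsto (fun l => (p (t l)).2) atTop (𝓝[K2] p0.2) :=
    tendsto_nhdsWithin_iff.mpr ⟨(continuous_snd.tendsto p0).comp hpt',
      Eventually.of_forall (fun l => ⟨p (t l), hpK _, rfl⟩)⟩
  have hl1 : Tendsto (fun l => g (p (t l)).1 (k (t l)) / (‖k (t l)‖ : ℂ)) atTop (𝓝 (h p0.1)) :=
    (hLU1' K1 hK1c hK1G).tendsto_comp hc1 hq1
  have hl2 : Tendsto (fun l => g' (p (t l)).2 (k (t l)) / (‖k (t l)‖ : ℂ)) atTop
      (𝓝 (h' p0.2)) :=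
    (hLU2' K2 hK2c hK2G).tendsto_comp hc2 hq2
  have hl3 := (hl1.sub hl2).norm
  -- the limit is small
  have hsmall : ∀ ε : ℝ, 0 < ε → ‖h p0.1 - h' p0.2‖ ≤ 3 * ε := by
    intro ε hε
    obtain ⟨R1, hR1⟩ := h2 G μ X Y g hA K1 hK1c hK1G ε hε
    obtain ⟨R2, hR2⟩ := h2 G μ' X' Y' g' hA' K2 hK2c hK2G ε hε
    have hinv : Tendsto (fun l : ℕ => 1 / ((t l : ℝ) + 1)) atTop (𝓝 0) :=
      tendsto_one_div_add_atTop_nhds_zero_nat.comp htt
    refine le_of_tendsto hl3 ?_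
    filter_upwards [hktt.eventually_ge_atTop R1, hktt.eventually_ge_atTop R2,
      hktt.eventually_gt_atTop 0, hinv.eventually_le_const hε] with l a1 a2 a3 a4
    have b1 := hR1 (k (t l)) a1 (p (t l)).1 ⟨p (t l), hpK _, rfl⟩ (θ (t l)) (hθ0 _) (hθ1 _)
    have b2 := hR2 (k (t l)) a2 (p (t l)).2 ⟨p (t l), hpK _, rfl⟩ (θ (t l)) (hθ0 _) (hθ1 _)
    have b3 := (hlt (t l)).le
    have b4 : 1 / ((t l : ℝ) + 1) * ‖k (t l)‖ ≤ ε * ‖k (t l)‖ :=
      mul_le_mul_of_nonneg_right a4 a3.le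
    rw [← sub_div, norm_div, Complex.norm_real, Real.norm_eq_abs, abs_of_pos a3, div_le_iff₀ a3]
    have b5 : g (p (t l)).1 (k (t l)) - g' (p (t l)).2 (k (t l)) =
        (Lam X Y g (θ (t l)) (p (t l)).1 (k (t l)) -
          Lam X' Y' g' (θ (t l)) (p (t l)).2 (k (t l))) -
        (Lam X Y g (θ (t l)) (p (t l)).1 (k (t l)) - g (p (t l)).1 (k (t l))) +
        (Lam X' Y' g' (θ (t l)) (p (t l)).2 (k (t l)) - g' (p (t l)).2 (k (t l))) := by ring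
    rw [b5]
    have b6 := norm_add_le ((Lam X Y g (θ (t l)) (p (t l)).1 (k (t l)) -
          Lam X' Y' g' (θ (t l)) (p (t l)).2 (k (t l))) -
        (Lam X Y g (θ (t l)) (p (t l)).1 (k (t l)) - g (p (t l)).1 (k (t l))))
        (Lam X' Y' g' (θ (t l)) (p (t l)).2 (k (t l)) - g' (p (t l)).2 (k (t l)))
    have b7 := norm_sub_le (Lam X Y g (θ (t l)) (p (t l)).1 (k (t l)) -
          Lam X' Y' g' (θ (t l)) (p (t l)).2 (k (t l)))
        (Lam X Y g (θ (t l)) (p (t l)).1 (k (t l)) - g (p (t l)).1 (k (t l)))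
    linarith
  have hz : ‖h p0.1 - h' p0.2‖ ≤ 0 := by
    refine le_of_forall_pos_le_add (fun ε hε => ?_)
    have := hsmall (ε / 3) (by positivity)
    linarith
  have heq : h p0.1 = h p0.2 := by
    rw [hhh p0.2 (hKG p0 hp0).2.1]
    exact sub_eq_zero.mp (norm_le_zero_iff.mp hz)
  exact (hKG p0 hp0).2.2 (hinj (hKG p0 hp0).1 (hKG p0 hp0).2.1 heq)

end Cal
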