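import Pool.Agent.Lib.MP_4ea4c7_an.StmH8

/-!
# MP_4ea4c7_an, stage 2, piece N5: `Λ_θ(·, k)` is weakly differentiable
-/

open MeasureTheory Complex Metric Set Filter Topology
open scoped ComplexConjugate ENNReal NNReal

namespace Cal

noncomputable section

/-- continuous and weakly differentiable -/
private def CW (U : Set ℂ) (f : ℂ → ℂ) : Prop := ContinuousOn f U ∧ ∃ A B : ℂ → ℂ, WD U f A B

private theorem CW.add (h1 : S_basic) {U : Set ℂ} {f g : ℂ → ℂ} (hf : CW U f) (hg : CW U g) :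
    CW U (fun z => f z + g z) := by
  obtain ⟨cf, A, B, hf⟩ := hf
  obtain ⟨cg, A', B', hg⟩ := hg
  exact ⟨cf.add cg, _, _, h1.1 U f A B g A' B' hf hg⟩

private theorem CW.cmul (h1 : S_basic) {U : Set ℂ} {f : ℂ → ℂ} (c : ℂ) (hf : CW U f) :
    CW U (fun z => c * f z) := by
  obtain ⟨cf, A, B, hf⟩ := hf
  exact ⟨continuousOn_const.mul cf, _, _, h1.2.1 U f A B c hf⟩

private theorem CW.conj (h1 : S_basic) {U : Set ℂ} {f : ℂ → ℂ} (hf : CW U f) :
    CW U (fun z => conj (f z)) := by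
  obtain ⟨cf, A, B, hf⟩ := hf
  exact ⟨Complex.continuous_conj.comp_continuousOn cf, _, _, h1.2.2.1 U f A B hf⟩

private theorem CW.const (h2 : S_smooth) {U : Set ℂ} (hU : IsOpen U) (c : ℂ) :
    CW U (fun _ => c) :=
  ⟨continuousOn_const, _, _, h2.1 U _ hU contDiffOn_const⟩

private theorem CW.mul (h4 : S_prod) {U : Set ℂ} (hU : IsOpen U) {f g : ℂ → ℂ} (hf : CW U f)
    (hg : CW U g) : CW U (fun z => f z * g z) := by
  obtain ⟨cf, A, B, hf⟩ := hf
  obtain ⟨cg, A', B', hg⟩ := hg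
  exact ⟨cf.mul cg, _, _, h4 U f A B g A' B' hU hf cf hg cg⟩

private theorem CW.chain (h3 : S_chain) {U W : Set ℂ} (hU : IsOpen U) (hW : IsOpen W)
    {f G : ℂ → ℂ} (hf : CW U f) (hm : MapsTo f U W) (hG : ContDiffOn ℝ 1 G W) :
    CW U (fun z => G (f z)) := by
  obtain ⟨cf, A, B, hf⟩ := hf
  exact ⟨hG.continuousOn.comp cf hm, _, _, h3 U W f A B G hU hW hf cf hm hG⟩

private theorem CW.inv (h3 : S_chain) {U : Set ℂ} (hU : IsOpen U) {f : ℂ → ℂ} (hf : CW U f)
    (hm : ∀ z ∈ U, f z ≠ 0) : CW U (fun z => (f z)⁻¹) := by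
  refine CW.chain h3 hU (W := {w : ℂ | w ≠ 0}) isOpen_ne hf (fun z hz => hm z hz)
    (G := fun w => w⁻¹) ?_
  intro w hw
  exact (contDiffAt_inv ℝ hw).contDiffWithinAt

private theorem CW.log (h3 : S_chain) {U : Set ℂ} (hU : IsOpen U) {f : ℂ → ℂ} (hf : CW U f)
    (hm : ∀ z ∈ U, 0 < (f z).re) : CW U (fun z => Complex.log (f z)) := by
  refine CW.chain h3 hU (W := {w : ℂ | 0 < w.re}) (isOpen_lt continuous_const Complex.continuous_re)
    hf (fun z hz => hm z hz) (G := fun w => Complex.log w) ?_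
  intro w hw
  have h : w ∈ slitPlane := Or.inl hw
  exact ((Complex.contDiffAt_log (n := 1) h).restrict_scalars ℝ).contDiffWithinAt

theorem piece_nlwd (h1 : S_basic) (h2 : S_smooth) (h3 : S_chain) (h4 : S_prod) (h5 : S_bwlog)
    (h6 : S_calg) (h7 : S_nalg) : S_nlwd := by
  intro G μ X Y g hAL θ k hθ0 hθ1
  obtain ⟨⟨k0, hadm⟩, hLS⟩ := hAL
  have hG := hadm.oG
  have hcont : ContinuousOn (fun z : ℂ => (z, k)) G := by fun_prop
  have hmaps : MapsTo (fun z : ℂ => (z, k)) G (G ×ˢ univ) := fun z hz => ⟨hz, mem_univ _⟩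
  have hcx : ContinuousOn (fun z => X z k) G := hLS.cX.comp hcont hmaps
  have hcy : ContinuousOn (fun z => Y z k) G := hLS.cY.comp hcont hmaps
  have hcg : ContinuousOn (fun z => g z k) G := hLS.cg.comp hcont hmaps
  obtain ⟨hne, hrest⟩ := h7 G μ X Y g hLS
  obtain ⟨-, -, hcL⟩ := hrest θ hθ0 hθ1
  obtain ⟨C, hC⟩ := hLS.bd
  -- facts from `S_calg`
  have halg : ∀ z ∈ G, ‖X z k + I * Y z k‖ < ‖X z k - I * Y z k‖ ∧
      1 ≤ (1 - I * (Y z k / X z k)).re ∧
      0 < (1 + exp (2 * I * (θ : ℂ)) * conj (X z k + I * Y z k) / (X z k - I * Y z k)).re := by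
    intro z hz
    have := h6 X Y g z k θ (Real.exp (-(C * (1 + ‖k‖) * (1 + ‖z‖)))) (hLS.eg z hz k)
      (hne z hz k).2 hθ0 hθ1 (Real.exp_pos _) (fun c hc => (hC z hz k c hc).1)
    exact ⟨this.2.2.1, this.2.2.2.1, this.2.2.2.2.1⟩
  -- the solutions
  have hX : CW G (fun z => X z k) := by
    obtain ⟨A, B, hAB, -⟩ := (hLS.cl k).1.en
    exact ⟨hcx, A, B, hAB⟩
  have hY : CW G (fun z => Y z k) := by
    obtain ⟨A, B, hAB, -⟩ := (hLS.cl k).2.en
    exact ⟨hcy, A, B, hAB⟩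
  have hg : CW G (fun z => g z k) := by
    obtain ⟨A, B, hAB, -⟩ := (hLS.cl k).1.en
    have hE : WD G (fun z => exp (g z k)) A B := by
      refine h1.2.2.2.1 G _ A B _ A B hG.measurableSet hAB ?_ ae_eq_rfl ae_eq_rfl
      filter_upwards [ae_restrict_mem hG.measurableSet] with z hz
      exact (hLS.eg z hz k).symm
    exact ⟨hcg, _, _, h5 G _ A B hG hcg hE⟩
  -- the first logarithm
  have hq : CW G (fun z => Y z k * (X z k)⁻¹) :=
    hY.mul h4 hG (hX.inv h3 hG (fun z hz => (hne z hz k).1))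
  have hL1 : CW G (fun z => Complex.log (1 + -I * (Y z k * (X z k)⁻¹))) := by
    refine ((CW.const h2 hG 1).add h1 (hq.cmul h1 (-I))).log h3 hG ?_
    intro z hz
    have := (halg z hz).2.1
    rw [div_eq_mul_inv] at this
    rw [neg_mul, ← sub_eq_add_neg]
    linarith
  -- the second logarithm
  have hden : CW G (fun z => (X z k + -I * Y z k)⁻¹) := by
    refine (hX.add h1 (hY.cmul h1 (-I))).inv h3 hG ?_
    intro z hz h0
    have h8 := (halg z hz).1
    rw [neg_mul, ← sub_eq_add_neg] at h0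
    rw [h0, norm_zero] at h8
    exact absurd h8 (not_lt.2 (norm_nonneg _))
  have hnum : CW G (fun z => conj (X z k + I * Y z k)) := (hX.add h1 (hY.cmul h1 I)).conj h1
  have hL2 : CW G (fun z => Complex.log (1 + exp (2 * I * (θ : ℂ)) *
      (conj (X z k + I * Y z k) * (X z k + -I * Y z k)⁻¹))) := by
    refine ((CW.const h2 hG 1).add h1 ((hnum.mul h4 hG hden).cmul h1 _)).log h3 hG ?_
    intro z hz
    have := (halg z hz).2.2
    rw [mul_div_assoc, div_eq_mul_inv] at this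
    rw [neg_mul, ← sub_eq_add_neg]
    exact this
  have hfin : CW G (fun z => (-(I * (θ : ℂ)) - (Real.log 2 : ℂ) + g z k +
      Complex.log (1 + -I * (Y z k * (X z k)⁻¹))) + Complex.log (1 + exp (2 * I * (θ : ℂ)) *
      (conj (X z k + I * Y z k) * (X z k + -I * Y z k)⁻¹))) :=
    (((CW.const h2 hG _).add h1 hg).add h1 hL1).add h1 hL2
  have heq : (fun z => (-(I * (θ : ℂ)) - (Real.log 2 : ℂ) + g z k +
      Complex.log (1 + -I * (Y z k * (X z k)⁻¹))) + Complex.log (1 + exp (2 * I * (θ : ℂ)) *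
      (conj (X z k + I * Y z k) * (X z k + -I * Y z k)⁻¹))) = (fun z => Lam X Y g θ z k) := by
    funext z
    rw [Lam, div_eq_mul_inv, mul_div_assoc, div_eq_mul_inv, neg_mul, neg_mul, ← sub_eq_add_neg,
      ← sub_eq_add_neg]
  rw [heq] at hfin
  exact ⟨hcL.comp hcont hmaps, hfin.2⟩

end

end Cal
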