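import Pool.Agent.Lib.MP_4ea4c7_an.StmH8

/-!
# MP_4ea4c7_an, stage 2: piece [N31] equal solutions give equal coefficients
-/

open MeasureTheory Complex Metric Set Filter Topology
open scoped ComplexConjugate ENNReal NNReal

namespace Cal

noncomputable section

/-- the zero set of the derivative of a holomorphic function on a connected open set is a null set -/
lemma nmu_zero {G : Set ℂ} {h : ℂ → ℂ} (hG : IsOpen G) (hc : IsPreconnected G)
    (hd : DifferentiableOn ℂ h G) (hne : ∃ z ∈ G, deriv h z ≠ 0) :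
    volume {z | z ∈ G ∧ deriv h z = 0} = 0 := by
  have han : AnalyticOnNhd ℂ (deriv h) G := (hd.analyticOnNhd hG).deriv
  refine measure_null_of_locally_null _ ?_
  rintro x ⟨hxG, hx0⟩
  rcases (han x hxG).eventually_eq_zero_or_eventually_ne_zero with hz | hz
  · exfalso
    obtain ⟨w, hw, hw0⟩ := hne
    exact hw0 (han.eqOn_zero_of_preconnected_of_eventuallyEq_zero hc hxG hz hw)
  · rw [eventually_nhdsWithin_iff] at hz
    refine ⟨{x}, ?_, by simp⟩
    rw [mem_nhdsWithin_iff_eventually]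
    filter_upwards [hz] with y hy hy2
    by_contra hyx
    exact hy hyx hy2.2

theorem piece_nmu (h1 : S_basic) (h2 : S_smooth) (h3 : S_wuniq) (h4 : S_bwlog) (h5 : S_awlim)
    (h6 : S_nlim) (h7 : S_ninj) : S_nmu := by
  intro G μ μ' X Y g X' Y' g' hAL hAL' hX
  have hAL0 := hAL
  obtain ⟨⟨k0, ha⟩, hl⟩ := hAL
  obtain ⟨⟨k0', ha'⟩, hl'⟩ := hAL'
  have hGo := ha.oG
  obtain ⟨C, hC⟩ := hl.bd
  have hFF : ∀ z k, FF X Y 1 z k = X z k := by
    intro z k
    simp [FF]
  have hμ1 : ∀ z, |μ z| ≤ 1 := by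
    intro z
    rw [abs_le]
    exact ⟨by linarith [ha.lo z, ha.k01], ha.hi z⟩
  -- the sequence k
  obtain ⟨k, hk⟩ : ∃ k : ℕ → ℂ, ∀ l, k l = (((l : ℝ) + 1 : ℝ) : ℂ) := ⟨_, fun l => rfl⟩
  have hkn : ∀ l, ‖k l‖ = (l : ℝ) + 1 := by
    intro l
    rw [hk l, Complex.norm_real, Real.norm_eq_abs, abs_of_pos (by positivity)]
  have hkt : Tendsto (fun l => ‖k l‖) atTop atTop := by
    have : (fun l => ‖k l‖) = fun l : ℕ => (l : ℝ) + 1 := funext hkn
    rw [this]
    exact tendsto_atTop_add_const_right _ _ tendsto_natCast_atTop_atTop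
  have hgc : ∀ k1 : ℂ, ContinuousOn (fun z => g z k1) G := by
    intro k1
    have hc1 : ContinuousOn (fun z : ℂ => (z, k1)) G := by fun_prop
    exact hl.cg.comp hc1 (fun z hz => ⟨hz, mem_univ _⟩)
  obtain ⟨s, h, hs, hd, hLU⟩ := h6 G μ X Y g hAL0 k (fun _ => 1) (fun l z => g z (k l)) C hkt
    (fun _ => by simp) (fun l => hgc (k l))
    (fun l z hz => by rw [hFF]; exact hl.eg z hz (k l))
    (fun l z hz => (hC z hz (k l) 1 (by simp)).2.2)
  have hkst : Tendsto (fun l => ‖k (s l)‖) atTop atTop := hkt.comp hs.tendsto_atTop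
  obtain ⟨-, hder⟩ := h7 G μ X Y g hAL0 (fun l => k (s l)) h hkst hd hLU
  have hZ := nmu_zero hGo ha.cG.isPreconnected hd hder
  -- weak derivatives of X
  have hcl : ∀ l, ∃ A B : ℂ → ℂ, WD G (fun z => X z (k l)) A B ∧
      (∀ᵐ z ∂(volume.restrict G), B z = (μ z : ℂ) * conj (A z)) ∧
      (∀ᵐ z ∂(volume.restrict G), μ z ≠ μ' z → A z = 0) := by
    intro l
    obtain ⟨A, B, hW, hB, -⟩ := (hl.cl (k l)).1.en
    obtain ⟨A', B', hW', hB', -⟩ := (hl'.cl (k l)).1.en
    refine ⟨A, B, hW, hB, ?_⟩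
    have hXX : (fun z => X z (k l)) =ᵐ[volume.restrict G] (fun z => X' z (k l)) := by
      filter_upwards [ae_restrict_mem hGo.measurableSet] with z hz
      exact hX z hz (k l)
    obtain ⟨hAA, hBB⟩ := h3 G _ A B _ A' B' hGo hW hW' hXX
    filter_upwards [hB, hB', hAA, hBB] with z hb hb' haa hbb hne
    have e1 : ((μ z : ℂ) - (μ' z : ℂ)) * conj (A z) = 0 := by
      rw [sub_mul, ← hb]
      rw [haa, ← hb', hbb]
      ring
    rcases mul_eq_zero.1 e1 with e | e
    · exfalso
      apply hne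
      exact_mod_cast sub_eq_zero.1 e
    · simpa using e
  choose A B hW hB hE using hcl
  obtain ⟨c, hc⟩ : ∃ c : ℕ → ℂ, ∀ n, c n = (‖k (s n)‖ : ℂ)⁻¹ := ⟨_, fun n => rfl⟩
  have hcn : ∀ n, ‖c n‖ = ‖k (s n)‖⁻¹ := by
    intro n
    rw [hc n, norm_inv, Complex.norm_real, norm_norm]
  have hkpos : ∀ n, 0 < ‖k (s n)‖ := by
    intro n
    rw [hkn]
    positivity
  have hWn : ∀ n, WD G (fun z => g z (k (s n)) / (‖k (s n)‖ : ℂ))
      (fun z => c n * (A (s n) z / exp (g z (k (s n)))))
      (fun z => c n * (B (s n) z / exp (g z (k (s n))))) := by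
    intro n
    have hw1 : WD G (fun z => exp (g z (k (s n)))) (A (s n)) (B (s n)) := by
      refine h1.2.2.2.1 G _ _ _ _ _ _ hGo.measurableSet (hW (s n)) ?_ ae_eq_rfl ae_eq_rfl
      filter_upwards [ae_restrict_mem hGo.measurableSet] with z hz
      exact (hl.eg z hz (k (s n))).symm
    have hw2 := h4 G _ _ _ hGo (hgc (k (s n))) hw1
    have hw3 := h1.2.1 G _ _ _ (c n) hw2
    have he : (fun z => g z (k (s n)) / (‖k (s n)‖ : ℂ)) = fun z => c n * g z (k (s n)) := by
      funext z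
      rw [hc n, div_eq_mul_inv, mul_comm]
    rw [he]
    exact hw3
  have hBn : ∀ n, ∀ᵐ z ∂(volume.restrict G), ‖c n * (B (s n) z / exp (g z (k (s n))))‖ ≤
      ‖c n * (A (s n) z / exp (g z (k (s n))))‖ := by
    intro n
    filter_upwards [hB (s n)] with z hz
    rw [norm_mul, norm_mul, norm_div, norm_div]
    have hb : ‖B (s n) z‖ ≤ ‖A (s n) z‖ := by
      rw [hz, norm_mul, Complex.norm_real, Real.norm_eq_abs, RCLike.norm_conj]
      calc |μ z| * ‖A (s n) z‖ ≤ 1 * ‖A (s n) z‖ := by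
            apply mul_le_mul_of_nonneg_right (hμ1 z) (norm_nonneg _)
        _ = _ := one_mul _
    gcongr
  have hbound : ∀ K : Set ℂ, IsCompact K → K ⊆ G → ∃ M : ℝ, ∀ᶠ n in atTop,
      eLpNorm (fun z => c n * (A (s n) z / exp (g z (k (s n))))) 2 (volume.restrict K) ≤ ENNReal.ofReal M ∧
      eLpNorm (fun z => c n * (B (s n) z / exp (g z (k (s n))))) 2 (volume.restrict K) ≤ ENNReal.ofReal M := by
    intro K hK hKG
    obtain ⟨C1, hC1⟩ := hl.en K hK hKG
    refine ⟨C1 ^ ((2 : ℝ)⁻¹), Eventually.of_forall fun n => ?_⟩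
    have hAn : eLpNorm (fun z => c n * (A (s n) z / exp (g z (k (s n))))) 2 (volume.restrict K) ≤
        ENNReal.ofReal (C1 ^ ((2 : ℝ)⁻¹)) := by
      have hm : MemLp (fun z => c n * (A (s n) z / exp (g z (k (s n))))) 2 (volume.restrict K) :=
        (hWn n).A2 K hK hKG
      rw [hm.eLpNorm_eq_integral_rpow_norm (by norm_num) (by norm_num)]
      have h2r : ((2 : ℝ≥0∞).toReal) = 2 := by norm_num
      rw [h2r]
      apply ENNReal.ofReal_le_ofReal
      apply Real.rpow_le_rpow
      · exact integral_nonneg fun z => by positivity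
      · have hWF : WD G (fun z => FF X Y 1 z (k (s n))) (A (s n)) (B (s n)) := by
          have : (fun z => FF X Y 1 z (k (s n))) = fun z => X z (k (s n)) := by
            funext z
            exact hFF z _
          rw [this]
          exact hW (s n)
        obtain ⟨-, hint⟩ := hC1 (k (s n)) 1 (A (s n)) (B (s n)) (by simp) hWF
        have e1 : ∫ z in K, ‖c n * (A (s n) z / exp (g z (k (s n))))‖ ^ (2 : ℝ) =
            ‖k (s n)‖⁻¹ ^ 2 * ∫ z in K, ‖A (s n) z‖ ^ 2 / ‖FF X Y 1 z (k (s n))‖ ^ 2 := by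
          rw [← integral_const_mul]
          apply setIntegral_congr_fun hK.measurableSet
          intro z hz
          simp only [Real.rpow_ofNat]
          rw [hFF, ← hl.eg z (hKG hz) (k (s n)), norm_mul, norm_div, hcn n]
          ring
        rw [e1]
        have hp := hkpos n
        calc ‖k (s n)‖⁻¹ ^ 2 * ∫ z in K, ‖A (s n) z‖ ^ 2 / ‖FF X Y 1 z (k (s n))‖ ^ 2
            ≤ ‖k (s n)‖⁻¹ ^ 2 * (C1 * ‖k (s n)‖ ^ 2) := by
              apply mul_le_mul_of_nonneg_left hint
              positivity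
          _ = C1 := by
              field_simp
      · norm_num
    refine ⟨hAn, le_trans (eLpNorm_mono_ae ?_) hAn⟩
    exact ae_restrict_of_ae_restrict_of_subset hKG (hBn n)
  obtain ⟨-, A0, B0, hW0, hconv⟩ := h5 G h _ _ _ hGo hWn (fun n => (hgc (k (s n))).div_const _)
    hbound hLU
  have hWd := h2.2.1 G h hGo hd
  obtain ⟨hA0, -⟩ := h3 G h A0 B0 h _ _ hGo hW0 hWd ae_eq_rfl
  -- the exceptional set
  have hEm : MeasurableSet {z | μ z ≠ μ' z} := (measurableSet_eq_fun ha.meas ha'.meas).compl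
  have hKE : ∀ K : Set ℂ, IsCompact K → K ⊆ G → volume (K ∩ {z | μ z ≠ μ' z}) = 0 := by
    intro K hK hKG
    have hmd : MemLp (deriv h) 2 (volume.restrict K) := hWd.A2 K hK hKG
    have hmc : MemLp (fun z => conj (deriv h z)) 2 (volume.restrict K) := by
      refine MemLp.of_le hmd (Complex.continuous_conj.comp_aestronglyMeasurable hmd.1) ?_
      exact ae_of_all _ fun z => by rw [RCLike.norm_conj]
    have hmφ : MemLp ({z | μ z ≠ μ' z}.indicator (fun z => conj (deriv h z))) 2 (volume.restrict K) :=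
      hmc.indicator hEm
    have ht := (hconv K hK hKG _ hmφ).1
    have hz0 : ∀ n, ∫ z in K, c n * (A (s n) z / exp (g z (k (s n)))) *
        ({z | μ z ≠ μ' z}.indicator (fun z => conj (deriv h z)) z) = 0 := by
      intro n
      apply integral_eq_zero_of_ae
      filter_upwards [ae_restrict_of_ae_restrict_of_subset hKG (hE (s n))] with z hz
      by_cases hzE : μ z ≠ μ' z
      · simp [hz hzE]
      · have : z ∉ {z | μ z ≠ μ' z} := hzE
        simp only [Pi.zero_apply]
        rw [Set.indicator_of_notMem this, mul_zero]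
    have hlim : ∫ z in K, A0 z * ({z | μ z ≠ μ' z}.indicator (fun z => conj (deriv h z)) z) = 0 := by
      refine tendsto_nhds_unique ht ?_
      simp only [hz0]
      exact tendsto_const_nhds
    have hreal : ∫ z in K, A0 z * ({z | μ z ≠ μ' z}.indicator (fun z => conj (deriv h z)) z) =
        ((∫ z in K, {z | μ z ≠ μ' z}.indicator (fun z => ‖deriv h z‖ ^ 2) z : ℝ) : ℂ) := by
      rw [← integral_complex_ofReal]
      apply integral_congr_ae
      filter_upwards [ae_restrict_of_ae_restrict_of_subset hKG hA0] with z hz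
      by_cases hzE : z ∈ {z | μ z ≠ μ' z}
      · rw [Set.indicator_of_mem hzE, Set.indicator_of_mem hzE, hz, Complex.mul_conj,
          Complex.normSq_eq_norm_sq]
      · rw [Set.indicator_of_notMem hzE, Set.indicator_of_notMem hzE]
        simp
    have hr0 : ∫ z in K, {z | μ z ≠ μ' z}.indicator (fun z => ‖deriv h z‖ ^ 2) z = 0 := by
      rw [hreal] at hlim
      exact_mod_cast hlim
    have hint : Integrable ({z | μ z ≠ μ' z}.indicator (fun z => ‖deriv h z‖ ^ 2)) (volume.restrict K) :=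
      hmd.norm.integrable_sq.indicator hEm
    have hae := (integral_eq_zero_iff_of_nonneg (fun z => Set.indicator_nonneg (fun _ _ => by positivity) z) hint).1 hr0
    have hae2 : ∀ᵐ z ∂(volume.restrict K), z ∉ {z | μ z ≠ μ' z} := by
      have hz2 : ∀ᵐ z ∂(volume.restrict K), ¬ (z ∈ G ∧ deriv h z = 0) := by
        apply ae_restrict_of_ae
        exact measure_eq_zero_iff_ae_notMem.1 hZ
      filter_upwards [hae, hz2, ae_restrict_mem hK.measurableSet] with z hz hz3 hzK hzE
      rw [Set.indicator_of_mem hzE] at hz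
      apply hz3
      refine ⟨hKG hzK, ?_⟩
      simpa using hz
    rw [ae_restrict_iff' hK.measurableSet] at hae2
    rw [measure_eq_zero_iff_ae_notMem]
    filter_upwards [hae2] with z hz hzz
    exact hz hzz.1 hzz.2
  rw [ae_restrict_iff' hGo.measurableSet, ae_iff]
  refine measure_null_of_locally_null _ ?_
  intro x hx
  have hxG : x ∈ G ∧ μ x ≠ μ' x := by
    simpa using hx
  obtain ⟨r, hr, hrG⟩ := Metric.nhds_basis_closedBall.mem_iff.1 (hGo.mem_nhds hxG.1)
  refine ⟨closedBall x r ∩ {z | μ z ≠ μ' z}, ?_, hKE _ (isCompact_closedBall x r) hrG⟩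
  rw [mem_nhdsWithin_iff_eventually]
  filter_upwards [closedBall_mem_nhds x hr] with y hy hy2
  have hy3 : y ∈ G ∧ μ y ≠ μ' y := by
    simpa using hy2
  exact ⟨hy, hy3.2⟩

end

end Cal
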