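import Pool.Agent.Lib.MP_4ea4c7_an.P_nclosed

/-!
# MP_4ea4c7_an, piece n19: the separated pairs are open
-/

open MeasureTheory Complex Metric Set Filter Topology
open scoped ComplexConjugate ENNReal NNReal

namespace Cal

noncomputable section

/-- the quotient of the two holomorphic factors is close to `1` on the circle -/
private theorem n19_quot (a b : ℂ) (ha : ‖a - 1‖ ≤ 1 / 8) (hb : ‖b - 1‖ ≤ 1 / 4) : ‖a * b - 1‖ ≤ 1 / 2 := by
  have h1 : a * b - 1 = (a - 1) * b + (b - 1) := by ring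
  have h2 : ‖b‖ ≤ 5 / 4 := by
    have : b = (b - 1) + 1 := by ring
    calc ‖b‖ = ‖(b - 1) + 1‖ := by rw [← this]
      _ ≤ ‖b - 1‖ + ‖(1 : ℂ)‖ := norm_add_le _ _
      _ ≤ 5 / 4 := by rw [norm_one]; linarith
  calc ‖a * b - 1‖ = ‖(a - 1) * b + (b - 1)‖ := by rw [h1]
    _ ≤ ‖(a - 1) * b‖ + ‖b - 1‖ := norm_add_le _ _
    _ = ‖a - 1‖ * ‖b‖ + ‖b - 1‖ := by rw [norm_mul]
    _ ≤ (1 / 8) * (5 / 4) + 1 / 4 := by
        have := mul_le_mul ha h2 (norm_nonneg _) (by norm_num : (0 : ℝ) ≤ 1 / 8)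
        linarith
    _ ≤ 1 / 2 := by norm_num

/-- [CH n19] -/
theorem piece_nopen : S_nopen := by
  intro G D hG hCA z hz w hw hzw hsep
  obtain ⟨c', hc', hsep⟩ := hsep
  obtain ⟨δ, hδ, hzG, hwG, hK⟩ := n18_pair_nhd G hG z w hz hw hzw
  obtain ⟨R, c₀, hc₀, hlow⟩ := hCA.low (closedBall z δ ×ˢ closedBall w δ)
    ((isCompact_closedBall _ _).prod (isCompact_closedBall _ _)) hK
  set R1 : ℝ := max R 1 with hR1
  have hR1p : 0 < R1 := lt_of_lt_of_le one_pos (le_max_right _ _)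
  obtain ⟨M, hM, hfac⟩ := hCA.fac 2 (by norm_num)
  -- the small radius
  set r : ℝ := 1 / (32 * (M + 1)) with hr
  have hrp : 0 < r := by positivity
  have hr1 : r ≤ 1 := by
    rw [hr, div_le_one (by positivity)]
    linarith
  have hMr : M * (2 * r) ≤ 1 / 16 := by
    rw [hr]
    have e : M * (2 * (1 / (32 * (M + 1)))) = M / (16 * (M + 1)) := by
      have : M + 1 ≠ 0 := by positivity
      field_simp
      ring
    rw [e, div_le_div_iff₀ (by positivity) (by norm_num)]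
    linarith
  obtain ⟨ε, hε, hεδ, hun⟩ := n18_pair_unif G D hCA.cont z w δ hδ hzG hwG R1 (c' * r / 8) (by positivity)
  refine ⟨ε, hε, ?_⟩
  intro z' hz'G w' hw'G hz' hw'
  have a1 : z' ∈ closedBall z δ := by
    rw [mem_closedBall, dist_eq_norm]; exact hz'.le.trans hεδ
  have a2 : w' ∈ closedBall w δ := by
    rw [mem_closedBall, dist_eq_norm]; exact hw'.le.trans hεδ
  have hun' : ∀ k : ℂ, ‖k‖ ≤ R1 → ‖D z' w' k - D z w k‖ ≤ c' * r / 8 := hun z' w' hz' hw'
  refine ⟨min (c' / 4) c₀, by positivity, ?_⟩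
  intro k
  rcases le_or_gt R1 ‖k‖ with hk | hk
  · have h1 := hlow (z', w') ⟨a1, a2⟩ k ((le_max_left _ _).trans hk)
    exact (mul_le_mul_of_nonneg_right (min_le_right _ _) (norm_nonneg _)).trans h1
  refine (mul_le_mul_of_nonneg_right (min_le_left _ _) (norm_nonneg _)).trans ?_
  rcases le_or_gt r ‖k‖ with hkr | hkr
  · have h1 := hun' k hk.le
    have h2 := hsep k
    have h3 : ‖D z w k‖ ≤ ‖D z' w' k‖ + ‖D z' w' k - D z w k‖ := by
      have : D z w k = D z' w' k - (D z' w' k - D z w k) := by ring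
      calc ‖D z w k‖ = ‖D z' w' k - (D z' w' k - D z w k)‖ := by rw [← this]
        _ ≤ _ := norm_sub_le _ _
    have h4 : c' * r ≤ c' * ‖k‖ := mul_le_mul_of_nonneg_left hkr hc'.le
    have h5 : 0 ≤ c' * ‖k‖ := by positivity
    linarith
  · -- small `k`
    obtain ⟨ω, Φ, hω, hΦ, hfa⟩ := hfac z hz w hw (2 * r) (by positivity) (by linarith)
    obtain ⟨ω', Φ', hω', hΦ', hfa'⟩ := hfac z' hz'G w' hw'G (2 * r) (by positivity) (by linarith)
    have hω1 : ∀ k, ‖ω k‖ ≤ 1 / 16 := fun k => (hω k).trans hMr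
    have hω1' : ∀ k, ‖ω' k‖ ≤ 1 / 16 := fun k => (hω' k).trans hMr
    obtain ⟨hd, hf, hl⟩ := n18_slope (fun k => D z w k) ω Φ (2 * r) (1 / 16) c' (by positivity) hω1 hΦ hfa
      (hCA.zero z hz w hw)
    obtain ⟨hd', hf', -⟩ := n18_slope (fun k => D z' w' k) ω' Φ' (2 * r) (1 / 16) c' (by positivity) hω1' hΦ' hfa'
      (hCA.zero z' hz'G w' hw'G)
    have hl' := hl (fun k _ => hsep k)
    have hexp : 0 < Real.exp (-(1 / 16)) := Real.exp_pos _
    have hne : ∀ k ∈ ball (0 : ℂ) (2 * r), dslope Φ 0 k ≠ 0 := by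
      intro k hk h0
      have := hl' k hk
      rw [h0, norm_zero] at this
      have : 0 < Real.exp (-(1 / 16)) * c' := by positivity
      linarith
    have hdi : DifferentiableOn ℂ (fun k => dslope Φ' 0 k / dslope Φ 0 k - 1) (ball 0 (2 * r)) :=
      (hd'.div hd hne).sub_const 1
    have hcirc : ∀ k : ℂ, ‖k‖ = r → ‖dslope Φ' 0 k / dslope Φ 0 k - 1‖ ≤ 1 / 2 := by
      intro k hk
      have hkb : k ∈ ball (0 : ℂ) (2 * r) := by
        rw [mem_ball_zero_iff, hk]; linarith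
      have hkp : 0 < ‖k‖ := by rw [hk]; exact hrp
      have hk0 : k ≠ 0 := norm_pos_iff.mp hkp
      have hD0 : D z w k ≠ 0 := by
        intro h0
        have := hsep k
        rw [h0, norm_zero] at this
        have : 0 < c' * ‖k‖ := by positivity
        linarith
      have e1 : dslope Φ' 0 k / dslope Φ 0 k = (D z' w' k / D z w k) * exp (ω k - ω' k) := by
        rw [hfa k hkb, hfa' k hkb, hf k hkb, hf' k hkb, exp_sub]
        have x1 := exp_ne_zero (ω k)
        have x2 := exp_ne_zero (ω' k)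
        have x3 := hne k hkb
        field_simp
      rw [e1]
      apply n19_quot
      · have e2 : D z' w' k / D z w k - 1 = (D z' w' k - D z w k) / D z w k := by
          field_simp
        rw [e2, norm_div, div_le_iff₀ (norm_pos_iff.mpr hD0)]
        have h1 := hun' k (by rw [hk]; exact hr1.trans (le_max_right _ _))
        have h2 := hsep k
        rw [hk] at h2
        linarith
      · have h3 : ‖ω k - ω' k‖ ≤ 1 / 8 := by
          calc ‖ω k - ω' k‖ ≤ ‖ω k‖ + ‖ω' k‖ := norm_sub_le _ _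
            _ ≤ 1 / 16 + 1 / 16 := add_le_add (hω1 k) (hω1' k)
            _ = 1 / 8 := by norm_num
        have h4 := Complex.norm_exp_sub_one_le (x := ω k - ω' k) (by linarith)
        linarith
    have hmax := n18_maxp _ r _ hrp hdi hcirc k hkr.le
    have hkb : k ∈ ball (0 : ℂ) (2 * r) := by
      rw [mem_ball_zero_iff]; linarith
    have hpos : 0 < ‖dslope Φ 0 k‖ := norm_pos_iff.mpr (hne k hkb)
    have hhalf : 1 / 2 * ‖dslope Φ 0 k‖ ≤ ‖dslope Φ' 0 k‖ := by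
      have h1 : (1 : ℝ) / 2 ≤ ‖dslope Φ' 0 k / dslope Φ 0 k‖ := by
        have : (1 : ℂ) = dslope Φ' 0 k / dslope Φ 0 k - (dslope Φ' 0 k / dslope Φ 0 k - 1) := by ring
        have h2 : ‖(1 : ℂ)‖ ≤ ‖dslope Φ' 0 k / dslope Φ 0 k‖ + ‖dslope Φ' 0 k / dslope Φ 0 k - 1‖ := by
          calc ‖(1 : ℂ)‖ = ‖dslope Φ' 0 k / dslope Φ 0 k - (dslope Φ' 0 k / dslope Φ 0 k - 1)‖ := by rw [← this]
            _ ≤ _ := norm_sub_le _ _
        rw [norm_one] at h2
        linarith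
      rw [norm_div, le_div_iff₀ hpos] at h1
      exact h1
    have hΨ := hl' k hkb
    rw [hfa' k hkb, hf' k hkb, norm_mul, norm_mul]
    have e2 := (n18_exp_bounds (ω' k) (1 / 16) (hω1' k)).1
    have hE : (3 : ℝ) / 4 ≤ Real.exp (-(1 / 16)) := by
      have := Real.add_one_le_exp (-(1 / 16) : ℝ)
      linarith
    have s1 : 3 / 4 * c' ≤ ‖dslope Φ 0 k‖ := (mul_le_mul_of_nonneg_right hE hc'.le).trans hΨ
    have s2 : 3 / 8 * c' ≤ ‖dslope Φ' 0 k‖ := by linarith
    have s3 : (3 : ℝ) / 4 ≤ ‖exp (ω' k)‖ := hE.trans e2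
    calc c' / 4 * ‖k‖ ≤ (3 / 4) * (‖k‖ * (3 / 8 * c')) := by nlinarith [norm_nonneg k, mul_nonneg (norm_nonneg k) hc'.le]
      _ ≤ ‖exp (ω' k)‖ * (‖k‖ * ‖dslope Φ' 0 k‖) :=
          mul_le_mul s3 (mul_le_mul_of_nonneg_left s2 (norm_nonneg _)) (by positivity) (norm_nonneg _)

end

end Cal
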