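import Pool.Agent.Lib.MP_4ea4c7_an.StmF

/-! [K9] Normalisation of conductivities. -/

open MeasureTheory Complex Metric Set Filter Topology
open scoped ComplexConjugate ENNReal NNReal

namespace Cal

open LocalCalderon

private theorem norm_int {Ω : Set ℂ} {γ γ' : ℂ → ℝ} (h : γ =ᵐ[volume.restrict Ω] γ')
    (F : ℂ → ℝ) : ∫ z in Ω, γ z * F z = ∫ z in Ω, γ' z * F z := by
  refine integral_congr_ae ?_
  filter_upwards [h] with z hz
  rw [hz]

private theorem norm_sub {Ω Γ : Set ℂ} {γ γ' : ℂ → ℝ} (h : γ =ᵐ[volume.restrict Ω] γ') :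
    cauchyData Ω Γ γ ⊆ cauchyData Ω Γ γ' := by
  rintro p ⟨u, hu, ht, hp⟩
  refine ⟨u, ⟨hu.1, fun φ hφ => ?_⟩, ht, ?_⟩
  · rw [← norm_int h]
    exact hu.2 φ hφ
  · rw [hp]
    congr 1
    funext ψ
    exact norm_int h _

theorem piece_norm : S_norm := by
  refine ⟨?_, fun Ω Γ γ γ' h => Subset.antisymm (norm_sub h) (norm_sub h.symm)⟩
  rintro Ω γ ⟨hm, c, C, hc, hb⟩
  refine ⟨c, max c C, fun z => max c (min (max c C) (hm.mk γ z)), hc, le_max_left _ _, ?_, ?_⟩
  · intro c' C' _ hc' hC'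
    refine ⟨?_, fun z => hc'.trans (le_max_left _ _), fun z => ?_⟩
    · exact measurable_const.max (measurable_const.min hm.stronglyMeasurable_mk.measurable)
    · exact (max_le (le_max_left _ _) (min_le_left _ _)).trans hC'
  · filter_upwards [hb, hm.ae_eq_mk] with z hz1 hz2
    rw [← hz2, min_eq_right (hz1.2.trans (le_max_right _ _)), max_eq_right hz1.1]

end Cal
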