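import Pool.Agent.Lib.MP_4ea4c7_an.StmH8

open MeasureTheory Complex Metric Set Filter Topology
open scoped ComplexConjugate ENNReal NNReal

namespace Cal

theorem piece_nsep (h1 : S_nalg) (h2 : S_nlow) (h3 : S_nfac) (h4 : S_nsepfar) (h5 : S_ncont) : S_nsep := by
  intro G μ μ' X Y g X' Y' g' hA hA' hagr θ hθ0 hθ1 z hz w hw hzw k hk heq
  obtain ⟨⟨k0, hAdm⟩, hLS⟩ := hA
  obtain ⟨⟨k0', hAdm'⟩, hLS'⟩ := hA'
  obtain ⟨_, hL1⟩ := h1 G μ X Y g hLS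
  obtain ⟨_, hL1'⟩ := h1 G μ' X' Y' g' hLS'
  obtain ⟨_, hz0, hcont⟩ := hL1 θ hθ0 hθ1
  obtain ⟨_, hz0', hcont'⟩ := hL1' θ hθ0 hθ1
  have hCA : CA G (fun z w k => Lam X Y g θ z k - Lam X' Y' g' θ w k) := by
    refine ⟨?_, ?_, ?_, ?_⟩
    · have e1 : ContinuousOn (fun p : ℂ × ℂ × ℂ => Lam X Y g θ p.1 p.2.2) (G ×ˢ (G ×ˢ univ)) := by
        have := hcont.comp (f := fun p : ℂ × ℂ × ℂ => ((p.1, p.2.2) : ℂ × ℂ)) (s := G ×ˢ (G ×ˢ univ))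
          (by fun_prop) (by
            intro p hp
            exact ⟨hp.1, mem_univ _⟩)
        exact this
      have e2 : ContinuousOn (fun p : ℂ × ℂ × ℂ => Lam X' Y' g' θ p.2.1 p.2.2) (G ×ˢ (G ×ˢ univ)) := by
        have := hcont'.comp (f := fun p : ℂ × ℂ × ℂ => ((p.2.1, p.2.2) : ℂ × ℂ)) (s := G ×ˢ (G ×ˢ univ))
          (by fun_prop) (by
            intro p hp
            exact ⟨hp.2.1, mem_univ _⟩)
        exact this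
      exact e1.sub e2
    · intro K hK hKG
      obtain ⟨R, c, hc, H⟩ := h2 G μ μ' X Y g X' Y' g' ⟨⟨k0, hAdm⟩, hLS⟩ ⟨⟨k0', hAdm'⟩, hLS'⟩ hagr K hK hKG
      exact ⟨R, c, hc, fun p hp k hk => H p hp k hk θ hθ0 hθ1⟩
    · intro z hz w hw
      show Lam X Y g θ z 0 - Lam X' Y' g' θ w 0 = 0
      rw [hz0 z hz, hz0' w hw, sub_self]
    · exact h3 G μ μ' X Y g X' Y' g' ⟨⟨k0, hAdm⟩, hLS⟩ ⟨⟨k0', hAdm'⟩, hLS'⟩ hagr θ hθ0 hθ1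
  have hstart := h4 G μ μ' X Y g X' Y' g' ⟨⟨k0, hAdm⟩, hLS⟩ ⟨⟨k0', hAdm'⟩, hLS'⟩ θ hθ0 hθ1
  obtain ⟨c, hc, H⟩ := h5 G _ hAdm.oG hAdm.cG hCA hstart z hz w hw hzw
  have := H k
  simp only [heq, sub_self, norm_zero] at this
  have hk' : 0 < ‖k‖ := norm_pos_iff.mpr hk
  nlinarith [mul_pos hc hk']

end Cal
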