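import Pool.Agent.Lib.MP_4ea4c7_an.StmH8

open MeasureTheory Complex Metric Set Filter Topology
open scoped ComplexConjugate ENNReal NNReal

namespace Cal

noncomputable section

theorem piece_nsepfar (h1 : S_nfar) : S_nsepfar := by
  intro G μ μ' X Y g X' Y' g' hA hA' θ hθ0 hθ
  obtain ⟨C1, hC1, h1a⟩ := h1 G μ X Y g hA
  obtain ⟨C2, hC2, h2a⟩ := h1 G μ' X' Y' g' hA'
  set r : ℝ := 2 * (C1 + C2) + 24 with hr
  have hr0 : 0 < r := by rw [hr]; linarith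
  obtain ⟨⟨k0, hAdm⟩, -⟩ := hA
  have nr : ‖(r : ℂ)‖ = r := by rw [norm_real, Real.norm_eq_abs, abs_of_pos hr0]
  have nr' : ‖(-(r : ℂ))‖ = r := by rw [norm_neg, nr]
  refine ⟨(r : ℂ), hAdm.ext _ (by rw [nr]; linarith), -(r : ℂ), hAdm.ext _ (by rw [nr']; linarith), ?_, 1,
    one_pos, ?_⟩
  · intro h
    have := congrArg Complex.re h
    simp at this
    linarith
  intro k
  obtain ⟨a1, a2⟩ := h1a (r : ℂ) (by rw [nr]; linarith) k θ hθ0 hθ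
  obtain ⟨b1, b2⟩ := h2a (-(r : ℂ)) (by rw [nr']; linarith) k θ hθ0 hθ
  rw [nr] at a1 a2
  rw [nr'] at b1 b2
  set D := Lam X Y g θ (r : ℂ) k - Lam X' Y' g' θ (-(r : ℂ)) k with hD
  have hk := norm_nonneg k
  have n2 : ‖2 * I * k * (r : ℂ)‖ = 2 * r * ‖k‖ := by
    rw [norm_mul, norm_mul, norm_mul, nr]
    simp
    ring
  have tri : 2 * r * ‖k‖ ≤ ‖D‖ + ‖D - 2 * I * k * (r : ℂ)‖ := by
    rw [← n2]
    calc ‖2 * I * k * (r : ℂ)‖ = ‖D - (D - 2 * I * k * (r : ℂ))‖ := by ring_nf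
      _ ≤ _ := norm_sub_le _ _
  have hq1 : C1 * ‖k‖ / r ≤ ‖k‖ / 2 := by
    rw [div_le_iff₀ hr0]
    nlinarith
  have hq2 : C2 * ‖k‖ / r ≤ ‖k‖ / 2 := by
    rw [div_le_iff₀ hr0]
    nlinarith
  rw [one_mul]
  rcases le_or_gt ((C1 + C2) * ‖k‖) r with hc | hc
  · have e1 : C1 * ‖k‖ ≤ r := by nlinarith
    have e2 : C2 * ‖k‖ ≤ r := by nlinarith
    have a3 := a2 e1
    have b3 := b2 e2
    have hd : D - 2 * I * k * (r : ℂ) = (Lam X Y g θ (r : ℂ) k - I * k * (r : ℂ) + I * (θ : ℂ)) -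
        (Lam X' Y' g' θ (-(r : ℂ)) k - I * k * (-(r : ℂ)) + I * (θ : ℂ)) := by
      rw [hD]; ring
    have hd2 : ‖D - 2 * I * k * (r : ℂ)‖ ≤ ‖k‖ / 2 + ‖k‖ / 2 := by
      rw [hd]
      exact (norm_sub_le _ _).trans (add_le_add (a3.trans hq1) (b3.trans hq2))
    have : 0 ≤ (2 * r - 2) * ‖k‖ := mul_nonneg (by linarith) hk
    nlinarith
  · have hd : D - 2 * I * k * (r : ℂ) = (Lam X Y g θ (r : ℂ) k - I * k * (r : ℂ)) -
        (Lam X' Y' g' θ (-(r : ℂ)) k - I * k * (-(r : ℂ))) := by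
      rw [hD]; ring
    have hd2 : ‖D - 2 * I * k * (r : ℂ)‖ ≤ (‖k‖ / 2 + 12) + (‖k‖ / 2 + 12) := by
      rw [hd]
      refine (norm_sub_le _ _).trans (add_le_add (a1.trans ?_) (b1.trans ?_)) <;> linarith
    have hk2 : 2 ≤ ‖k‖ := by
      by_contra hcon
      push Not at hcon
      have : (C1 + C2) * ‖k‖ ≤ (C1 + C2) * 2 := by
        apply mul_le_mul_of_nonneg_left hcon.le (by linarith)
      linarith
    have : 50 * 2 ≤ (2 * r - 2) * ‖k‖ := by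
      apply mul_le_mul <;> linarith
    nlinarith

end

end Cal
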