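import Pool.Agent.Lib.MP_4ea4c7_an.StmF

/-! # Piece K2: Poincare inequality for test functions in a disc -/

open MeasureTheory Complex Metric Set Filter Topology
open scoped ComplexConjugate ENNReal NNReal

namespace Cal

open LocalCalderon

noncomputable section

private lemma poin_real (R : ℝ) (φ : ℂ → ℝ) (hR : 0 < R) (h : IsTest (ball 0 R) φ) :
    (∫ z, ‖φ z‖ ^ (2 : ℝ)) ≤ (2 * R) ^ 2 * ∫ z, ‖grad φ z‖ ^ (2 : ℝ) := by
  obtain ⟨hs, hc, hsub⟩ := h
  have hdiff : Differentiable ℝ φ := hs.differentiable (by simp)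
  have hcont : Continuous φ := hs.continuous
  have hfd : Continuous (fderiv ℝ φ) := hs.continuous_fderiv (by simp)
  have hcf : HasCompactSupport (fderiv ℝ φ) := hc.fderiv (𝕜 := ℝ)
  have hx : Continuous fun z => fderiv ℝ φ z 1 := hfd.clm_apply continuous_const
  have hy : Continuous fun z => fderiv ℝ φ z I := hfd.clm_apply continuous_const
  have hcx : HasCompactSupport fun z => fderiv ℝ φ z 1 := by
    refine hcf.mono ?_
    intro z hz
    simp only [Function.mem_support, ne_eq] at hz ⊢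
    intro h0
    exact hz (by rw [h0]; simp)
  have hcy : HasCompactSupport fun z => fderiv ℝ φ z I := by
    refine hcf.mono ?_
    intro z hz
    simp only [Function.mem_support, ne_eq] at hz ⊢
    intro h0
    exact hz (by rw [h0]; simp)
  -- integrability
  have i1 : Integrable fun z => φ z * φ z :=
    (hcont.mul hcont).integrable_of_hasCompactSupport hc.mul_right
  have i2 : Integrable fun z => fderiv ℝ φ z 1 * fderiv ℝ φ z 1 :=
    (hx.mul hx).integrable_of_hasCompactSupport hcx.mul_right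
  have i3 : Integrable fun z => fderiv ℝ φ z I * fderiv ℝ φ z I :=
    (hy.mul hy).integrable_of_hasCompactSupport hcy.mul_right
  have i4 : Integrable fun z : ℂ => z.re * (2 * (φ z * fderiv ℝ φ z 1)) := by
    refine Continuous.integrable_of_hasCompactSupport ?_ ?_
    · exact continuous_re.mul (continuous_const.mul (hcont.mul hx))
    · exact HasCompactSupport.mul_left (HasCompactSupport.mul_left hc.mul_right)
  have i5 : Integrable fun z : ℂ => z.re * (φ z * φ z) :=
    (continuous_re.mul (hcont.mul hcont)).integrable_of_hasCompactSupport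
      (HasCompactSupport.mul_left hc.mul_right)
  -- derivatives
  have hre : ∀ z : ℂ, fderiv ℝ (fun z : ℂ => z.re) z 1 = 1 := by
    intro z
    have : (fun z : ℂ => z.re) = ⇑reCLM := rfl
    rw [this, ContinuousLinearMap.fderiv]
    simp
  have hsq : ∀ z : ℂ, fderiv ℝ (fun z => φ z * φ z) z 1 = 2 * (φ z * fderiv ℝ φ z 1) := by
    intro z
    rw [fderiv_fun_mul (hdiff z) (hdiff z)]
    simp
    ring
  have hparts := integral_mul_fderiv_eq_neg_fderiv_mul_of_integrable (μ := (volume : Measure ℂ)) (v := (1 : ℂ))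
    (f := fun z : ℂ => z.re) (g := fun z => φ z * φ z)
    (by simpa only [hre, one_mul] using i1) (by simpa only [hsq] using i4) i5
    (fun z _ => reCLM.differentiable z) (fun z _ => (hdiff.mul hdiff) z)
  simp only [hre, hsq, one_mul] at hparts
  -- pointwise bound
  have hb : ∀ z : ℂ, -(z.re * (2 * (φ z * fderiv ℝ φ z 1))) ≤
      1 / 2 * (φ z * φ z) + 2 * R ^ 2 * (fderiv ℝ φ z 1 * fderiv ℝ φ z 1) := by
    intro z
    by_cases hz : φ z = 0
    · rw [hz]
      have : 0 ≤ 2 * R ^ 2 * (fderiv ℝ φ z 1 * fderiv ℝ φ z 1) :=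
        mul_nonneg (by positivity) (mul_self_nonneg _)
      simpa using this
    · have hzR : z ∈ ball (0 : ℂ) R := hsub (subset_tsupport _ hz)
      have h1 : |z.re| ≤ R := (abs_re_le_norm z).trans (by simpa using (mem_ball_zero_iff.1 hzR).le)
      have h2 : z.re ^ 2 ≤ R ^ 2 := sq_le_sq' (abs_le.1 h1).1 (abs_le.1 h1).2
      have h3 := mul_le_mul_of_nonneg_right h2 (sq_nonneg (fderiv ℝ φ z 1))
      nlinarith [sq_nonneg (φ z + 2 * (z.re * fderiv ℝ φ z 1))]
  have hint := integral_mono i4.neg ((i1.const_mul (1 / 2)).add (i2.const_mul (2 * R ^ 2))) hb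
  have e1 : ∫ z, (1 / 2 * (φ z * φ z) + 2 * R ^ 2 * (fderiv ℝ φ z 1 * fderiv ℝ φ z 1)) =
      1 / 2 * (∫ z, φ z * φ z) + 2 * R ^ 2 * ∫ z, fderiv ℝ φ z 1 * fderiv ℝ φ z 1 := by
    rw [integral_add (i1.const_mul _) (i2.const_mul _), integral_const_mul, integral_const_mul]
  have hint' : (∫ z, φ z * φ z) ≤
      1 / 2 * (∫ z, φ z * φ z) + 2 * R ^ 2 * ∫ z, fderiv ℝ φ z 1 * fderiv ℝ φ z 1 := by
    rw [← e1]
    refine le_trans (le_of_eq ?_) hint
    simp only [Pi.neg_apply]
    rw [integral_neg, hparts, neg_neg]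
  have hn : ∀ z, ‖grad φ z‖ ^ (2 : ℝ) =
      fderiv ℝ φ z 1 * fderiv ℝ φ z 1 + fderiv ℝ φ z I * fderiv ℝ φ z I := by
    intro z
    have : grad φ z = ((fderiv ℝ φ z 1 : ℝ) : ℂ) + I * ((fderiv ℝ φ z I : ℝ) : ℂ) := rfl
    rw [Real.rpow_two, Complex.sq_norm, this, Complex.normSq_apply]
    simp
  have hle : (∫ z, fderiv ℝ φ z 1 * fderiv ℝ φ z 1) ≤ ∫ z, ‖grad φ z‖ ^ (2 : ℝ) := by
    simp only [hn]
    refine integral_mono i2 (i2.add i3) fun z => ?_
    have : 0 ≤ fderiv ℝ φ z I * fderiv ℝ φ z I := mul_self_nonneg _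
    simpa using this
  have hl : (∫ z, ‖φ z‖ ^ (2 : ℝ)) = ∫ z, φ z * φ z := by
    refine integral_congr_ae (Eventually.of_forall fun z => ?_)
    show ‖φ z‖ ^ (2 : ℝ) = φ z * φ z
    rw [Real.rpow_two, Real.norm_eq_abs, sq_abs, sq]
  rw [hl]
  have hRR : 0 ≤ 2 * R ^ 2 := by positivity
  have := mul_le_mul_of_nonneg_left hle hRR
  nlinarith

/-- [K2] -/
theorem piece_poin : S_poin := by
  intro R φ hR h
  have hs := h.1
  have hc := h.2.1
  have hcont : Continuous φ := hs.continuous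
  have hfd : Continuous (fderiv ℝ φ) := hs.continuous_fderiv (by simp)
  have hcf : HasCompactSupport (fderiv ℝ φ) := hc.fderiv (𝕜 := ℝ)
  have hx : Continuous fun z => fderiv ℝ φ z 1 := hfd.clm_apply continuous_const
  have hy : Continuous fun z => fderiv ℝ φ z I := hfd.clm_apply continuous_const
  have hgc : Continuous (grad φ) := by
    show Continuous fun z => ((fderiv ℝ φ z 1 : ℝ) : ℂ) + I * ((fderiv ℝ φ z I : ℝ) : ℂ)
    exact (continuous_ofReal.comp hx).add (continuous_const.mul (continuous_ofReal.comp hy))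
  have hgs : HasCompactSupport (grad φ) := by
    refine hcf.mono ?_
    intro z hz
    simp only [Function.mem_support, ne_eq] at hz ⊢
    intro h0
    refine hz ?_
    show ((fderiv ℝ φ z 1 : ℝ) : ℂ) + I * ((fderiv ℝ φ z I : ℝ) : ℂ) = 0
    rw [h0]
    simp
  have m1 : MemLp φ 2 volume := hcont.memLp_of_hasCompactSupport hc
  have m2 : MemLp (grad φ) 2 volume := hgc.memLp_of_hasCompactSupport hgs
  have key := poin_real R φ hR h
  rw [m1.eLpNorm_eq_integral_rpow_norm two_ne_zero (by norm_num),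
    m2.eLpNorm_eq_integral_rpow_norm two_ne_zero (by norm_num), ← ENNReal.ofReal_mul (by positivity)]
  refine ENNReal.ofReal_le_ofReal ?_
  have ht : (2 : ℝ≥0∞).toReal = 2 := by norm_num
  rw [ht]
  have h0 : 0 ≤ ∫ z, ‖grad φ z‖ ^ (2 : ℝ) := integral_nonneg fun z => by positivity
  have h1 : 0 ≤ ∫ z, ‖φ z‖ ^ (2 : ℝ) := integral_nonneg fun z => by positivity
  have e : (2 : ℝ)⁻¹ = 1 / 2 := by norm_num
  rw [e, ← Real.sqrt_eq_rpow, ← Real.sqrt_eq_rpow]
  calc √(∫ z, ‖φ z‖ ^ (2 : ℝ)) ≤ √((2 * R) ^ 2 * ∫ z, ‖grad φ z‖ ^ (2 : ℝ)) := Real.sqrt_le_sqrt key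
    _ = 2 * R * √(∫ z, ‖grad φ z‖ ^ (2 : ℝ)) := by
        rw [Real.sqrt_mul (by positivity), Real.sqrt_sq (by positivity)]

end

end Cal
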