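import Pool.Agent.Lib.MP_4ea4c7_an.Stm1

open MeasureTheory Complex Metric Set Filter Topology
open scoped ComplexConjugate ENNReal NNReal

namespace Cal

noncomputable section

/-- the unit vector of angle `θ` -/
private def pomp_e (θ : ℝ) : ℂ := (Real.cos θ : ℂ) + (Real.sin θ : ℂ) * I

private lemma pomp_e_cont : Continuous pomp_e := by
  unfold pomp_e
  fun_prop

private lemma pomp_e_norm (θ : ℝ) : ‖pomp_e θ‖ = 1 := by
  have h : pomp_e θ = Complex.exp (θ * I) := by
    rw [Complex.exp_mul_I, pomp_e, Complex.ofReal_cos, Complex.ofReal_sin]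
  rw [h, Complex.norm_exp_ofReal_mul_I]

private lemma pomp_e_mul (θ : ℝ) : ((Real.cos θ : ℂ) - (Real.sin θ : ℂ) * I) * pomp_e θ = 1 := by
  have h : ((Real.cos θ : ℂ)) ^ 2 + ((Real.sin θ : ℂ)) ^ 2 = 1 := by
    rw [← Complex.ofReal_pow, ← Complex.ofReal_pow, ← Complex.ofReal_add,
      Real.cos_sq_add_sin_sq, Complex.ofReal_one]
  unfold pomp_e
  linear_combination h - ((Real.sin θ : ℂ)) ^ 2 * Complex.I_sq

private lemma pomp_e_deriv (θ : ℝ) : HasDerivAt pomp_e (I * pomp_e θ) θ := by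
  have h := ((Real.hasDerivAt_cos θ).ofReal_comp).add
    ((Real.hasDerivAt_sin θ).ofReal_comp.mul_const I)
  refine h.congr_deriv ?_
  unfold pomp_e
  push_cast
  linear_combination (-(Complex.sin θ)) * Complex.I_sq

private lemma pomp_lin (L : ℂ →L[ℝ] ℂ) (a b : ℝ) :
    L ((a : ℂ) + (b : ℂ) * I) = (a : ℂ) * L 1 + (b : ℂ) * L I := by
  have h : (a : ℂ) + (b : ℂ) * I = a • (1 : ℂ) + b • I := by
    simp
  rw [h, map_add, map_smul, map_smul]
  simp

private lemma pomp_alg (L : ℂ →L[ℝ] ℂ) (θ : ℝ) :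
    (L 1 + I * L I) / 2 / pomp_e θ = (1 / 2) * (L (pomp_e θ) + I * L (I * pomp_e θ)) := by
  have h1 : L (pomp_e θ) = (Real.cos θ : ℂ) * L 1 + (Real.sin θ : ℂ) * L I := pomp_lin L _ _
  have h2 : L (I * pomp_e θ) = -(Real.sin θ : ℂ) * L 1 + (Real.cos θ : ℂ) * L I := by
    have h := pomp_lin L (-Real.sin θ) (Real.cos θ)
    have e : I * pomp_e θ = ((-Real.sin θ : ℝ) : ℂ) + (Real.cos θ : ℂ) * I := by
      unfold pomp_e
      push_cast
      linear_combination (Complex.sin θ) * Complex.I_sq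
    rw [e, h]
    push_cast
    ring
  have h0 : pomp_e θ ≠ 0 := by
    intro h
    have := pomp_e_norm θ
    rw [h, norm_zero] at this
    exact zero_ne_one this
  rw [h1, h2, div_eq_iff h0]
  have hm := pomp_e_mul θ
  linear_combination (-(L 1 + I * L I) / 2) * hm - (1 / 2 * L I * (Real.sin θ : ℂ) * pomp_e θ) * Complex.I_sq

private lemma pomp_integrable (F : ℝ × ℝ → ℂ) (hF : Continuous F) (R : ℝ)
    (hR : ∀ p : ℝ × ℝ, R < p.1 → F p = 0) :
    IntegrableOn F (Ioi (0 : ℝ) ×ˢ Ioo (-Real.pi) Real.pi) (volume.prod volume) := by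
  have h1 : IntegrableOn F (Icc (0 : ℝ) R ×ˢ Icc (-Real.pi) Real.pi) (volume.prod volume) :=
    hF.continuousOn.integrableOn_compact (isCompact_Icc.prod isCompact_Icc)
  refine IntegrableOn.of_forall_sdiff_eq_zero h1 (measurableSet_Ioi.prod measurableSet_Ioo) ?_
  rintro ⟨r, θ⟩ ⟨⟨h2, h3⟩, h4⟩
  apply hR
  by_contra h5
  push Not at h5
  exact h4 ⟨⟨le_of_lt h2, h5⟩, ⟨le_of_lt h3.1, le_of_lt h3.2⟩⟩

theorem piece_pomp : S_pomp := by
  rintro ψ ⟨hψ, hc, -⟩ z
  have hψd : Differentiable ℝ ψ := hψ.differentiable (by simp)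
  have hψ' : Continuous (fderiv ℝ ψ) := hψ.continuous_fderiv (by simp)
  obtain ⟨R0, hR0⟩ := hc.isBounded.subset_closedBall 0
  set R : ℝ := R0 + ‖z‖ with hRdef
  have hout : ∀ p : ℝ × ℝ, R < p.1 → z - p.1 * pomp_e p.2 ∉ tsupport ψ := by
    intro p hp hmem
    have h1 := hR0 hmem
    rw [mem_closedBall_zero_iff] at h1
    have h2 : ‖(p.1 : ℂ) * pomp_e p.2‖ = |p.1| := by
      rw [norm_mul, pomp_e_norm, mul_one, Complex.norm_real, Real.norm_eq_abs]
    have h3 : ‖(p.1 : ℂ) * pomp_e p.2‖ ≤ ‖z - p.1 * pomp_e p.2‖ + ‖z‖ := by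
      have : (p.1 : ℂ) * pomp_e p.2 = -(z - p.1 * pomp_e p.2) + z := by ring
      calc ‖(p.1 : ℂ) * pomp_e p.2‖ = ‖-(z - p.1 * pomp_e p.2) + z‖ := by rw [← this]
        _ ≤ ‖-(z - p.1 * pomp_e p.2)‖ + ‖z‖ := norm_add_le _ _
        _ = _ := by rw [norm_neg]
    rw [h2] at h3
    have h4 := le_abs_self p.1
    linarith
  set D : ℝ × ℝ → ℂ := fun p => fderiv ℝ ψ (z - p.1 * pomp_e p.2) (pomp_e p.2) with hD
  set T : ℝ × ℝ → ℂ := fun p => fderiv ℝ ψ (z - p.1 * pomp_e p.2) (I * pomp_e p.2) with hT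
  have hpt : Continuous fun p : ℝ × ℝ => z - (p.1 : ℂ) * pomp_e p.2 := by
    have h1 : Continuous fun p : ℝ × ℝ => pomp_e p.2 := pomp_e_cont.comp continuous_snd
    fun_prop
  have hDc : Continuous D :=
    (hψ'.comp hpt).clm_apply (pomp_e_cont.comp continuous_snd)
  have hTc : Continuous T :=
    (hψ'.comp hpt).clm_apply (continuous_const.mul (pomp_e_cont.comp continuous_snd))
  have hD0 : ∀ p : ℝ × ℝ, R < p.1 → D p = 0 := by
    intro p hp
    simp only [hD]
    rw [fderiv_of_notMem_tsupport ℝ (hout p hp)]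
    rfl
  have hT0 : ∀ p : ℝ × ℝ, R < p.1 → T p = 0 := by
    intro p hp
    simp only [hT]
    rw [fderiv_of_notMem_tsupport ℝ (hout p hp)]
    rfl
  have hDi := pomp_integrable D hDc R hD0
  have hTi := pomp_integrable T hTc R hT0
  -- the integral of `D`
  have hDint : ∫ p in Ioi (0 : ℝ) ×ˢ Ioo (-Real.pi) Real.pi, D p ∂(volume.prod volume) =
      2 * Real.pi * ψ z := by
    rw [← setIntegral_prod_swap]
    rw [setIntegral_prod]
    · have h1 : ∀ θ : ℝ, ∫ r in Ioi (0 : ℝ), D (Prod.swap (θ, r)) = ψ z := by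
        intro θ
        have hder : ∀ r ∈ Ici (0 : ℝ), HasDerivAt (fun r : ℝ => -ψ (z - r * pomp_e θ)) (D (r, θ)) r := by
          intro r _
          have h2 : HasDerivAt (fun r : ℝ => z - (r : ℂ) * pomp_e θ) (-pomp_e θ) r := by
            have h3 : HasDerivAt (fun r : ℝ => (r : ℂ)) 1 r := by
              have := (hasDerivAt_id r).ofReal_comp
              simpa using this
            have h4 := (h3.mul_const (pomp_e θ)).const_sub z
            rwa [one_mul] at h4
          have h3 := ((hψd (z - r * pomp_e θ)).hasFDerivAt.comp_hasDerivAt r h2).neg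
          rw [map_neg, neg_neg] at h3
          exact h3
        have hint : IntegrableOn (fun r => D (r, θ)) (Ioi (0 : ℝ)) := by
          have h5 : IntegrableOn (fun r => D (r, θ)) (Icc (0 : ℝ) R) :=
            (hDc.comp (by fun_prop : Continuous fun r : ℝ => (r, θ))).continuousOn.integrableOn_compact
              isCompact_Icc
          refine IntegrableOn.of_forall_sdiff_eq_zero h5 measurableSet_Ioi ?_
          rintro r ⟨h6, h7⟩
          apply hD0
          by_contra h8
          push Not at h8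
          exact h7 ⟨le_of_lt h6, h8⟩
        have htend : Tendsto (fun r : ℝ => -ψ (z - r * pomp_e θ)) atTop (𝓝 0) := by
          apply tendsto_const_nhds.congr'
          filter_upwards [eventually_gt_atTop R] with r hr
          rw [image_eq_zero_of_notMem_tsupport (hout (r, θ) hr), neg_zero]
        have h9 := integral_Ioi_of_hasDerivAt_of_tendsto' hder hint htend
        simp only [Prod.swap_prod_mk]
        rw [h9]
        simp
      simp only [h1]
      rw [setIntegral_const, Measure.real, Real.volume_Ioo]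
      rw [ENNReal.toReal_ofReal (by linarith [Real.pi_pos])]
      simp only [real_smul]
      push_cast
      ring
    · have := pomp_integrable D hDc R hD0
      rw [IntegrableOn, ← Measure.prod_restrict] at this ⊢
      exact this.swap
  -- the integral of `T`
  have hTint : ∫ p in Ioi (0 : ℝ) ×ˢ Ioo (-Real.pi) Real.pi, T p ∂(volume.prod volume) = 0 := by
    rw [setIntegral_prod _ hTi]
    apply setIntegral_eq_zero_of_forall_eq_zero
    intro r hr
    have hr0 : (r : ℂ) ≠ 0 := by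
      have : r ≠ 0 := ne_of_gt hr
      exact_mod_cast this
    have hder : ∀ θ ∈ uIcc (-Real.pi) Real.pi,
        HasDerivAt (fun θ : ℝ => ψ (z - r * pomp_e θ)) (-(r : ℂ) * T (r, θ)) θ := by
      intro θ _
      have h2 : HasDerivAt (fun θ : ℝ => z - (r : ℂ) * pomp_e θ) (-((r : ℂ) * (I * pomp_e θ))) θ :=
        ((pomp_e_deriv θ).const_mul (r : ℂ)).const_sub z
      have h3 := (hψd (z - r * pomp_e θ)).hasFDerivAt.comp_hasDerivAt θ h2
      have h4 : fderiv ℝ ψ (z - r * pomp_e θ) (-((r : ℂ) * (I * pomp_e θ))) = -(r : ℂ) * T (r, θ) := by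
        have : (r : ℂ) * (I * pomp_e θ) = r • (I * pomp_e θ) := by simp
        rw [map_neg, this, map_smul, real_smul]
        simp only [hT]
        ring
      rw [h4] at h3
      exact h3
    have hint : IntervalIntegrable (fun θ => -(r : ℂ) * T (r, θ)) volume (-Real.pi) Real.pi := by
      apply Continuous.intervalIntegrable
      exact continuous_const.mul (hTc.comp (by fun_prop : Continuous fun θ : ℝ => (r, θ)))
    have h5 := intervalIntegral.integral_eq_sub_of_hasDerivAt hder hint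
    have h6 : pomp_e Real.pi = pomp_e (-Real.pi) := by
      unfold pomp_e
      simp
    rw [h6, sub_self, intervalIntegral.integral_const_mul] at h5
    have h7 : ∫ θ in (-Real.pi)..Real.pi, T (r, θ) = 0 := by
      rcases mul_eq_zero.mp h5 with h | h
      · exact absurd (neg_eq_zero.mp h) hr0
      · exact h
    rw [intervalIntegral.integral_of_le (by linarith [Real.pi_pos]), integral_Ioc_eq_integral_Ioo] at h7
    exact h7
  -- polar coordinates
  have hpol : ∫ η : ℂ, db ψ (z - η) / η = Real.pi * ψ z := by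
    rw [← Complex.integral_comp_polarCoord_symm]
    rw [polarCoord_target]
    have h1 : ∀ p ∈ Ioi (0 : ℝ) ×ˢ Ioo (-Real.pi) Real.pi,
        p.1 • (db ψ (z - Complex.polarCoord.symm p) / Complex.polarCoord.symm p) =
          (1 / 2) * (D p + I * T p) := by
      rintro ⟨r, θ⟩ ⟨hr, -⟩
      have hr0 : (r : ℂ) ≠ 0 := by
        have : r ≠ 0 := ne_of_gt hr
        exact_mod_cast this
      rw [Complex.polarCoord_symm_apply, real_smul]
      change (r : ℂ) * (db ψ (z - r * pomp_e θ) / (r * pomp_e θ)) = _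
      have h2 : (r : ℂ) * (db ψ (z - r * pomp_e θ) / (r * pomp_e θ)) =
          db ψ (z - r * pomp_e θ) / pomp_e θ := by
        rw [← mul_div_assoc, mul_div_mul_left _ _ hr0]
      rw [h2, db, pomp_alg]
    rw [setIntegral_congr_fun (measurableSet_Ioi.prod measurableSet_Ioo) h1]
    have hDi' : IntegrableOn D (Ioi (0 : ℝ) ×ˢ Ioo (-Real.pi) Real.pi) volume := hDi
    have hTi' : IntegrableOn T (Ioi (0 : ℝ) ×ˢ Ioo (-Real.pi) Real.pi) volume := hTi
    rw [integral_const_mul, integral_add hDi' (hTi'.const_mul I), integral_const_mul]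
    have e1 : ∫ p in Ioi (0 : ℝ) ×ˢ Ioo (-Real.pi) Real.pi, D p = 2 * Real.pi * ψ z := hDint
    have e2 : ∫ p in Ioi (0 : ℝ) ×ˢ Ioo (-Real.pi) Real.pi, T p = 0 := hTint
    rw [e1, e2]
    ring
  have hsub : ∫ ζ : ℂ, db ψ ζ / (z - ζ) = ∫ η : ℂ, db ψ (z - η) / η := by
    rw [← integral_sub_left_eq_self (fun η : ℂ => db ψ (z - η) / η) volume z]
    simp only [sub_sub_cancel]
  rw [Ct, hsub, hpol]
  have : (Real.pi : ℂ) ≠ 0 := by exact_mod_cast Real.pi_ne_zero
  field_simp

end

end Cal
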