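import Pool.Agent.Lib.MP_4ea4c7_an.Stm1

/-!
[A5] Product rule for continuous weakly differentiable functions.
-/

open MeasureTheory Complex Metric Set Filter Topology
open scoped ComplexConjugate ENNReal NNReal

namespace Cal

noncomputable section

private theorem prod_d_zero {φ : ℂ → ℂ} {z : ℂ} (hz : z ∉ tsupport φ) :
    dz φ z = 0 ∧ db φ z = 0 := by
  have h : fderiv ℝ φ z = 0 := by
    by_contra hne
    exact hz (support_fderiv_subset ℝ (Function.mem_support.2 hne))
  unfold dz db
  rw [h]
  simp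

private theorem prod_d_cont {φ : ℂ → ℂ} (hφ : ContDiff ℝ (⊤ : ℕ∞) φ) :
    Continuous (dz φ) ∧ Continuous (db φ) := by
  have h : Continuous (fderiv ℝ φ) := hφ.continuous_fderiv (by simp)
  have h1 : Continuous (fun z => fderiv ℝ φ z 1) := h.clm_apply continuous_const
  have hI : Continuous (fun z => fderiv ℝ φ z I) := h.clm_apply continuous_const
  constructor
  · exact (h1.sub (continuous_const.mul hI)).div_const 2
  · exact (h1.add (continuous_const.mul hI)).div_const 2

/-- Product of a square integrable and a continuous function. -/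
private theorem prod_mul {K : Set ℂ} (hK : IsCompact K) {g v : ℂ → ℂ}
    (hg : MemLp g 2 (volume.restrict K)) (hv : ContinuousOn v K) :
    MemLp (fun z => g z * v z) 2 (volume.restrict K) := by
  obtain ⟨C, hC⟩ := hK.exists_bound_of_continuousOn hv
  refine MemLp.of_le_mul (c := C) hg
    (hg.aestronglyMeasurable.mul (hv.aestronglyMeasurable hK.measurableSet)) ?_
  rw [ae_restrict_iff' hK.measurableSet]
  refine Eventually.of_forall fun z hz => ?_
  rw [norm_mul, mul_comm]
  exact mul_le_mul_of_nonneg_right (hC z hz) (norm_nonneg _)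

private theorem prod_cont_memLp {K : Set ℂ} (hK : IsCompact K) {v : ℂ → ℂ}
    (hv : ContinuousOn v K) : MemLp v 2 (volume.restrict K) := by
  have : IsFiniteMeasure (volume.restrict K) :=
    ⟨by rw [Measure.restrict_apply_univ]; exact hK.measure_lt_top⟩
  have h1 : MemLp (fun _ : ℂ => (1 : ℂ)) 2 (volume.restrict K) := memLp_const 1
  have := prod_mul hK h1 hv
  simpa only [one_mul] using this

/-- Integrability of a product of two square integrable functions. -/
private theorem prod_int2 {K : Set ℂ} {u v : ℂ → ℂ} (hu : MemLp u 2 (volume.restrict K))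
    (hv : MemLp v 2 (volume.restrict K)) : IntegrableOn (fun z => u z * v z) K volume :=
  hu.integrable_mul hv

private theorem prod_int {K : Set ℂ} {u v : ℂ → ℂ} (hu : MemLp u 2 (volume.restrict K))
    (hv : MemLp v 2 (volume.restrict K)) (hv0 : ∀ z, z ∉ K → v z = 0) :
    Integrable (fun z => u z * v z) volume := by
  have h2 := prod_int2 hu hv
  rwa [integrableOn_iff_integrable_of_support_subset] at h2
  intro z hz
  by_contra h
  exact (Function.mem_support.1 hz) (by rw [hv0 z h, mul_zero])

/-- Limits of integrals. -/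
private theorem prod_tend {K : Set ℂ} {u v : ℂ → ℂ} {un : ℕ → ℂ → ℂ}
    (hun : ∀ n, MemLp (un n) 2 (volume.restrict K)) (hu : MemLp u 2 (volume.restrict K))
    (ht : Tendsto (fun n => eLpNorm (fun z => un n z - u z) 2 (volume.restrict K)) atTop (𝓝 0))
    (hv : MemLp v 2 (volume.restrict K)) (hv0 : ∀ z, z ∉ K → v z = 0) :
    Tendsto (fun n => ∫ z, un n z * v z) atTop (𝓝 (∫ z, u z * v z)) := by
  have e1 : ∀ w : ℂ → ℂ, ∫ z, w z * v z = ∫ z in K, w z * v z := fun w =>
    (setIntegral_eq_integral_of_forall_compl_eq_zero fun z hz => by rw [hv0 z hz, mul_zero]).symm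
  simp_rw [e1]
  refine tendsto_integral_of_L1' _ (prod_int2 hu hv).aestronglyMeasurable
    (Eventually.of_forall fun n => prod_int2 (hun n) hv) ?_
  have e2 : ∀ n, eLpNorm ((fun z => un n z * v z) - fun z => u z * v z) 1 (volume.restrict K) ≤
      eLpNorm (fun z => un n z - u z) 2 (volume.restrict K) * eLpNorm v 2 (volume.restrict K) := by
    intro n
    have e3 : ((fun z => un n z * v z) - fun z => u z * v z) =
        (fun z => un n z - u z) • v := by
      funext z
      simp only [Pi.sub_apply, Pi.smul_apply', smul_eq_mul]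
      ring
    rw [e3]
    exact eLpNorm_smul_le_mul_eLpNorm hv.aestronglyMeasurable
      ((hun n).sub hu).aestronglyMeasurable
  have e4 : Tendsto (fun n => eLpNorm (fun z => un n z - u z) 2 (volume.restrict K) *
      eLpNorm v 2 (volume.restrict K)) atTop (𝓝 0) := by
    have := ENNReal.Tendsto.mul_const ht (Or.inr hv.eLpNorm_ne_top)
    simpa only [zero_mul] using this
  exact tendsto_of_tendsto_of_tendsto_of_le_of_le tendsto_const_nhds e4 (fun _ => zero_le) e2

/-- The core: passage to the limit. -/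
private theorem prod_core {K : Set ℂ} (hK : IsCompact K) {f A f' A' φ ψ : ℂ → ℂ}
    {F DF : ℕ → ℂ → ℂ} (hf : MemLp f 2 (volume.restrict K)) (hA : MemLp A 2 (volume.restrict K))
    (hA' : MemLp A' 2 (volume.restrict K)) (hf'c : ContinuousOn f' K)
    (hF : ∀ n, Continuous (F n)) (hDF : ∀ n, Continuous (DF n))
    (t1 : Tendsto (fun n => eLpNorm (fun z => F n z - f z) 2 (volume.restrict K)) atTop (𝓝 0))
    (t2 : Tendsto (fun n => eLpNorm (fun z => DF n z - A z) 2 (volume.restrict K)) atTop (𝓝 0))
    (hφ : Continuous φ) (hψ : Continuous ψ) (hφ0 : ∀ z, z ∉ K → φ z = 0)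
    (hψ0 : ∀ z, z ∉ K → ψ z = 0)
    (hid : ∀ n, ∫ z, (f' z * F n z) * ψ z = - ∫ z, (A' z * F n z + f' z * DF n z) * φ z) :
    ∫ z, (f z * f' z) * ψ z = - ∫ z, (A z * f' z + f z * A' z) * φ z := by
  have hFm : ∀ n, MemLp (F n) 2 (volume.restrict K) := fun n =>
    prod_cont_memLp hK (hF n).continuousOn
  have hDFm : ∀ n, MemLp (DF n) 2 (volume.restrict K) := fun n =>
    prod_cont_memLp hK (hDF n).continuousOn
  have v1 : MemLp (fun z => f' z * ψ z) 2 (volume.restrict K) :=
    prod_cont_memLp hK (hf'c.mul hψ.continuousOn)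
  have v2 : MemLp (fun z => A' z * φ z) 2 (volume.restrict K) :=
    prod_mul hK hA' hφ.continuousOn
  have v3 : MemLp (fun z => f' z * φ z) 2 (volume.restrict K) :=
    prod_cont_memLp hK (hf'c.mul hφ.continuousOn)
  have z1 : ∀ z, z ∉ K → f' z * ψ z = 0 := fun z hz => by rw [hψ0 z hz, mul_zero]
  have z2 : ∀ z, z ∉ K → A' z * φ z = 0 := fun z hz => by rw [hφ0 z hz, mul_zero]
  have z3 : ∀ z, z ∉ K → f' z * φ z = 0 := fun z hz => by rw [hφ0 z hz, mul_zero]
  have l1 := prod_tend hFm hf t1 v1 z1
  have l2 := prod_tend hFm hf t1 v2 z2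
  have l3 := prod_tend hDFm hA t2 v3 z3
  have e : ∀ n, ∫ z, F n z * (f' z * ψ z) =
      -((∫ z, F n z * (A' z * φ z)) + ∫ z, DF n z * (f' z * φ z)) := by
    intro n
    rw [← integral_add (prod_int (hFm n) v2 z2) (prod_int (hDFm n) v3 z3)]
    calc ∫ z, F n z * (f' z * ψ z) = ∫ z, (f' z * F n z) * ψ z :=
          integral_congr_ae (Eventually.of_forall fun z => by ring)
      _ = - ∫ z, (A' z * F n z + f' z * DF n z) * φ z := hid n
      _ = _ := by
          congr 1
          exact integral_congr_ae (Eventually.of_forall fun z => by ring)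
  have lim := (l2.add l3).neg
  have key := tendsto_nhds_unique l1 (lim.congr fun n => (e n).symm)
  rw [← integral_add (prod_int hf v2 z2) (prod_int hA v3 z3)] at key
  calc ∫ z, (f z * f' z) * ψ z = ∫ z, f z * (f' z * ψ z) :=
        integral_congr_ae (Eventually.of_forall fun z => by ring)
    _ = -∫ z, (f z * (A' z * φ z) + A z * (f' z * φ z)) := key
    _ = _ := by
        congr 1
        exact integral_congr_ae (Eventually.of_forall fun z => by ring)

theorem piece_prod (h1 : S_moll) (_h2 : S_basic) (h3 : S_smooth) : S_prod := by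
  intro U f A B f' A' B' hU h hfc h' hfc'
  refine ⟨fun K hK hKU => prod_mul hK (h.f2 K hK hKU) (hfc'.mono hKU), fun K hK hKU => ?_,
    fun K hK hKU => ?_, fun φ hφ => ?_, fun φ hφ => ?_⟩
  · have e1 := prod_mul hK (h.A2 K hK hKU) (hfc'.mono hKU)
    have e2 := prod_mul hK (h'.A2 K hK hKU) (hfc.mono hKU)
    have e3 : MemLp (fun z => f z * A' z) 2 (volume.restrict K) :=
      e2.ae_eq (Eventually.of_forall fun z => by simp only; ring)
    exact e1.add e3
  · have e1 := prod_mul hK (h.B2 K hK hKU) (hfc'.mono hKU)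
    have e2 := prod_mul hK (h'.B2 K hK hKU) (hfc.mono hKU)
    have e3 : MemLp (fun z => f z * B' z) 2 (volume.restrict K) :=
      e2.ae_eq (Eventually.of_forall fun z => by simp only; ring)
    exact e1.add e3
  · have hK : IsCompact (tsupport φ) := hφ.2.1
    have hKU := hφ.2.2
    obtain ⟨F, hF, -, t1, t2, -, -⟩ := h1 U f A B hU h _ hK hKU
    refine prod_core hK (h.f2 _ hK hKU) (h.A2 _ hK hKU) (h'.A2 _ hK hKU) (hfc'.mono hKU)
      (fun n => (hF n).continuous) (fun n => (prod_d_cont (hF n)).1) t1 t2 hφ.1.continuous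
      (prod_d_cont hφ.1).1 (fun z hz => image_eq_zero_of_notMem_tsupport hz)
      (fun z hz => (prod_d_zero hz).1) fun n => ?_
    exact (h3.2.2 U f' A' B' (F n) hU h' (hF n).contDiffOn).hA φ hφ
  · have hK : IsCompact (tsupport φ) := hφ.2.1
    have hKU := hφ.2.2
    obtain ⟨F, hF, -, t1, -, t2, -⟩ := h1 U f A B hU h _ hK hKU
    refine prod_core hK (h.f2 _ hK hKU) (h.B2 _ hK hKU) (h'.B2 _ hK hKU) (hfc'.mono hKU)
      (fun n => (hF n).continuous) (fun n => (prod_d_cont (hF n)).2) t1 t2 hφ.1.continuous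
      (prod_d_cont hφ.1).2 (fun z hz => image_eq_zero_of_notMem_tsupport hz)
      (fun z hz => (prod_d_zero hz).2) fun n => ?_
    exact (h3.2.2 U f' A' B' (F n) hU h' (hF n).contDiffOn).hB φ hφ

end

end Cal
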