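import Mathlib
import Pool.Agent.Lib.MP_4ea4c7_an.Stm1

set_option autoImplicit false

open MeasureTheory Complex Metric Set Filter Topology
open scoped ComplexConjugate ENNReal NNReal

namespace Cal

private lemma sm_l2 (K : Set ℂ) (hK : IsCompact K) (f : ℂ → ℂ) (hf : ContinuousOn f K) :
    MemLp f 2 (volume.restrict K) := by
  have : IsFiniteMeasure (volume.restrict K) := ⟨by
    rw [Measure.restrict_apply_univ]; exact hK.measure_lt_top⟩
  obtain ⟨C, hC⟩ := hK.exists_bound_of_continuousOn hf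
  exact MemLp.of_bound (hf.aestronglyMeasurable hK.measurableSet) C
    (ae_restrict_of_forall_mem hK.measurableSet hC)

private lemma sm_L2 (U : Set ℂ) (f : ℂ → ℂ) (hf : ContinuousOn f U) : L2loc U f :=
  fun K hK hKU => sm_l2 K hK f (hf.mono hKU)

private lemma sm_mul (K : Set ℂ) (hK : IsCompact K) (f g : ℂ → ℂ)
    (hf : MemLp f 2 (volume.restrict K)) (hg : ContinuousOn g K) :
    MemLp (fun z => f z * g z) 2 (volume.restrict K) := by
  obtain ⟨C, hC⟩ := hK.exists_bound_of_continuousOn hg
  refine MemLp.of_le_mul (c := C) hf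
    (hf.1.mul (hg.aestronglyMeasurable hK.measurableSet)) ?_
  refine ae_restrict_of_forall_mem hK.measurableSet fun z hz => ?_
  rw [norm_mul, mul_comm]
  exact mul_le_mul_of_nonneg_right (hC z hz) (norm_nonneg _)

private lemma sm_int (K : Set ℂ) (hK : IsCompact K) (f ψ : ℂ → ℂ)
    (hf : MemLp f 2 (volume.restrict K)) (hψ : Continuous ψ) (hs : ∀ z, z ∉ K → ψ z = 0) :
    Integrable (fun z => f z * ψ z) := by
  have : IsFiniteMeasure (volume.restrict K) := ⟨by
    rw [Measure.restrict_apply_univ]; exact hK.measure_lt_top⟩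
  have h1 : IntegrableOn (fun z => f z * ψ z) K :=
    (sm_mul K hK f ψ hf hψ.continuousOn).integrable (by norm_num)
  refine (integrableOn_iff_integrable_of_support_subset ?_).1 h1
  intro z hz
  by_contra hzK
  exact hz (by simp [hs z hzK])

private lemma sm_cont (U : Set ℂ) (hU : IsOpen U) (h φ : ℂ → ℂ) (hh : ContinuousOn h U)
    (hφ : Continuous φ) (hs : tsupport φ ⊆ U) : Continuous (fun z => h z * φ z) := by
  rw [continuous_iff_continuousAt]
  intro z
  by_cases hz : z ∈ U
  · exact (hh.continuousAt (hU.mem_nhds hz)).mul hφ.continuousAt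
  · have hz' : z ∉ tsupport φ := fun h => hz (hs h)
    have h0 : (fun w => h w * φ w) =ᶠ[𝓝 z] fun _ => 0 := by
      filter_upwards [notMem_tsupport_iff_eventuallyEq.1 hz'] with w hw
      simp [hw]
    exact h0.continuousAt

private lemma sm_fd (φ : ℂ → ℂ) (hφ : ContDiff ℝ (⊤ : ℕ∞) φ) (v : ℂ) :
    Continuous fun z => fderiv ℝ φ z v :=
  (hφ.continuous_fderiv (by simp)).clm_apply continuous_const

private lemma sm_fd0 (φ : ℂ → ℂ) (v z : ℂ) (hz : z ∉ tsupport φ) : fderiv ℝ φ z v = 0 := by
  rw [(notMem_tsupport_iff_eventuallyEq.1 hz).fderiv_eq]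
  simp

private lemma sm_phi0 (φ : ℂ → ℂ) (z : ℂ) (hz : z ∉ tsupport φ) : φ z = 0 :=
  image_eq_zero_of_notMem_tsupport hz

private lemma sm_parts (U : Set ℂ) (f : ℂ → ℂ) (hU : IsOpen U) (hf : ContDiffOn ℝ 1 f U)
    (φ : ℂ → ℂ) (hφ : TF U φ) (v : ℂ) :
    Integrable (fun z => f z * fderiv ℝ φ z v) ∧ Integrable (fun z => fderiv ℝ f z v * φ z) ∧
    ∫ z, f z * fderiv ℝ φ z v = - ∫ z, fderiv ℝ f z v * φ z := by
  obtain ⟨h1, h2, h3⟩ := hφ
  have hfd : ContinuousOn (fun z => fderiv ℝ f z v) U :=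
    (hf.continuousOn_fderiv_of_isOpen hU le_rfl).clm_apply continuousOn_const
  have i1 : Integrable (fun z => f z * fderiv ℝ φ z v) :=
    sm_int (tsupport φ) h2 f _ (sm_L2 U f hf.continuousOn _ h2 h3) (sm_fd φ h1 v)
      (fun z hz => sm_fd0 φ v z hz)
  have i2 : Integrable (fun z => fderiv ℝ f z v * φ z) :=
    sm_int (tsupport φ) h2 _ _ (sm_L2 U _ hfd _ h2 h3) h1.continuous
      (fun z hz => sm_phi0 φ z hz)
  have i3 : Integrable (fun z => f z * φ z) :=
    sm_int (tsupport φ) h2 f _ (sm_L2 U f hf.continuousOn _ h2 h3) h1.continuous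
      (fun z hz => sm_phi0 φ z hz)
  refine ⟨i1, i2, integral_mul_fderiv_eq_neg_fderiv_mul_of_integrable i2 i1 i3 ?_ ?_⟩
  · intro x hx
    exact (hf.differentiableOn (by norm_num)).differentiableAt (hU.mem_nhds (h3 hx))
  · intro x _
    exact h1.differentiable (by simp) x

private lemma sm_one (U : Set ℂ) (f : ℂ → ℂ) (hU : IsOpen U) (hf : ContDiffOn ℝ 1 f U) :
    WD U f (dz f) (db f) := by
  have hfd : ∀ v : ℂ, ContinuousOn (fun z => fderiv ℝ f z v) U := fun v =>
    (hf.continuousOn_fderiv_of_isOpen hU le_rfl).clm_apply continuousOn_const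
  have hdz : ContinuousOn (dz f) U := by
    unfold dz
    exact ((hfd 1).sub (continuousOn_const.mul (hfd I))).div_const 2
  have hdb : ContinuousOn (db f) U := by
    unfold db
    exact ((hfd 1).add (continuousOn_const.mul (hfd I))).div_const 2
  refine ⟨sm_L2 U f hf.continuousOn, sm_L2 U _ hdz, sm_L2 U _ hdb, ?_, ?_⟩
  · intro φ hφ
    obtain ⟨a1, a2, a3⟩ := sm_parts U f hU hf φ hφ 1
    obtain ⟨b1, b2, b3⟩ := sm_parts U f hU hf φ hφ I
    have e1 : ∀ z, f z * dz φ z =
        (1 / 2) * (f z * fderiv ℝ φ z 1) - (I / 2) * (f z * fderiv ℝ φ z I) := by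
      intro z; unfold dz; ring
    have e2 : ∀ z, dz f z * φ z =
        (1 / 2) * (fderiv ℝ f z 1 * φ z) - (I / 2) * (fderiv ℝ f z I * φ z) := by
      intro z; unfold dz; ring
    simp_rw [e1, e2]
    rw [integral_sub (a1.const_mul _) (b1.const_mul _),
      integral_sub (a2.const_mul _) (b2.const_mul _)]
    simp only [integral_const_mul]
    rw [a3, b3]
    ring
  · intro φ hφ
    obtain ⟨a1, a2, a3⟩ := sm_parts U f hU hf φ hφ 1
    obtain ⟨b1, b2, b3⟩ := sm_parts U f hU hf φ hφ I
    have e1 : ∀ z, f z * db φ z =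
        (1 / 2) * (f z * fderiv ℝ φ z 1) + (I / 2) * (f z * fderiv ℝ φ z I) := by
      intro z; unfold db; ring
    have e2 : ∀ z, db f z * φ z =
        (1 / 2) * (fderiv ℝ f z 1 * φ z) + (I / 2) * (fderiv ℝ f z I * φ z) := by
      intro z; unfold db; ring
    simp_rw [e1, e2]
    rw [integral_add (a1.const_mul _) (b1.const_mul _),
      integral_add (a2.const_mul _) (b2.const_mul _)]
    simp only [integral_const_mul]
    rw [a3, b3]
    ring

private lemma sm_two (U : Set ℂ) (f : ℂ → ℂ) (hU : IsOpen U) (hf : DifferentiableOn ℂ f U) :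
    WD U f (deriv f) (fun _ => 0) := by
  have h1 : ContDiffOn ℂ 1 f U := hf.contDiffOn hU
  have h2 : ContDiffOn ℝ 1 f U := h1.restrict_scalars ℝ
  have h3 := sm_one U f hU h2
  have hfd : ∀ z ∈ U, ∀ v : ℂ, fderiv ℝ f z v = deriv f z * v := by
    intro z hz v
    have hd : DifferentiableAt ℂ f z := hf.differentiableAt (hU.mem_nhds hz)
    have := hd.hasDerivAt.hasFDerivAt.restrictScalars ℝ
    rw [this.fderiv]
    simp [mul_comm]
  have hz1 : ∀ z ∈ U, dz f z = deriv f z := by
    intro z hz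
    unfold dz
    rw [hfd z hz, hfd z hz]
    linear_combination (-(1 / 2 : ℂ) * deriv f z) * I_mul_I
  have hz2 : ∀ z ∈ U, db f z = 0 := by
    intro z hz
    unfold db
    rw [hfd z hz, hfd z hz]
    linear_combination ((1 / 2 : ℂ) * deriv f z) * I_mul_I
  refine ⟨h3.f2, ?_, ?_, ?_, ?_⟩
  · intro K hK hKU
    refine (h3.A2 K hK hKU).ae_eq ?_
    exact ae_restrict_of_forall_mem hK.measurableSet fun z hz => hz1 z (hKU hz)
  · intro K hK hKU
    refine (h3.B2 K hK hKU).ae_eq ?_
    exact ae_restrict_of_forall_mem hK.measurableSet fun z hz => hz2 z (hKU hz)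
  · intro φ hφ
    rw [h3.hA φ hφ]
    congr 2
    funext z
    by_cases hz : z ∈ U
    · rw [hz1 z hz]
    · rw [sm_phi0 φ z fun h => hz (hφ.2.2 h)]; simp
  · intro φ hφ
    rw [h3.hB φ hφ]
    congr 2
    funext z
    by_cases hz : z ∈ U
    · rw [hz2 z hz]
    · rw [sm_phi0 φ z fun h => hz (hφ.2.2 h)]; simp

private lemma sm_three (U : Set ℂ) (f A B g : ℂ → ℂ) (hU : IsOpen U) (h : WD U f A B)
    (hg : ContDiffOn ℝ (⊤ : ℕ∞) g U) :
    WD U (fun z => f z * g z) (fun z => A z * g z + f z * dz g z)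
      (fun z => B z * g z + f z * db g z) := by
  have hfd : ∀ v : ℂ, ContinuousOn (fun z => fderiv ℝ g z v) U := fun v =>
    (hg.continuousOn_fderiv_of_isOpen hU (by simp)).clm_apply continuousOn_const
  have hdz : ContinuousOn (dz g) U := by
    unfold dz
    exact ((hfd 1).sub (continuousOn_const.mul (hfd I))).div_const 2
  have hdb : ContinuousOn (db g) U := by
    unfold db
    exact ((hfd 1).add (continuousOn_const.mul (hfd I))).div_const 2
  have hgc : ContinuousOn g U := hg.continuousOn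
  have key : ∀ φ : ℂ → ℂ, TF U φ → TF U (fun z => g z * φ z) ∧
      (∀ z v, fderiv ℝ (fun z => g z * φ z) z v =
        fderiv ℝ g z v * φ z + g z * fderiv ℝ φ z v) := by
    intro φ hφ
    obtain ⟨h1, h2, h3⟩ := hφ
    refine ⟨⟨?_, h2.mul_left, (tsupport_mul_subset_right).trans h3⟩, ?_⟩
    · rw [contDiff_iff_contDiffAt]
      intro z
      by_cases hz : z ∈ U
      · exact (hg.contDiffAt (hU.mem_nhds hz)).mul h1.contDiffAt
      · have hz' : z ∉ tsupport φ := fun h => hz (h3 h)
        have h0 : (fun w => g w * φ w) =ᶠ[𝓝 z] fun _ => 0 := by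
          filter_upwards [notMem_tsupport_iff_eventuallyEq.1 hz'] with w hw
          simp [hw]
        exact contDiffAt_const.congr_of_eventuallyEq h0
    · intro z v
      by_cases hz : z ∈ U
      · have d1 : DifferentiableAt ℝ g z :=
          (hg.differentiableOn (by simp)).differentiableAt (hU.mem_nhds hz)
        have d2 : DifferentiableAt ℝ φ z := h1.differentiable (by simp) z
        have := (d1.hasFDerivAt.mul d2.hasFDerivAt).fderiv
        have e : (fun z => g z * φ z) = g * φ := rfl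
        rw [e, this]
        simp
        ring
      · have hz' : z ∉ tsupport φ := fun h => hz (h3 h)
        have h0 : (fun w => g w * φ w) =ᶠ[𝓝 z] fun _ => 0 := by
          filter_upwards [notMem_tsupport_iff_eventuallyEq.1 hz'] with w hw
          simp [hw]
        rw [h0.fderiv_eq, sm_phi0 φ z hz', sm_fd0 φ v z hz']
        simp
  refine ⟨?_, ?_, ?_, ?_, ?_⟩
  · intro K hK hKU
    exact sm_mul K hK f g (h.f2 K hK hKU) (hgc.mono hKU)
  · intro K hK hKU
    exact (sm_mul K hK A g (h.A2 K hK hKU) (hgc.mono hKU)).add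
      (sm_mul K hK f _ (h.f2 K hK hKU) (hdz.mono hKU))
  · intro K hK hKU
    exact (sm_mul K hK B g (h.B2 K hK hKU) (hgc.mono hKU)).add
      (sm_mul K hK f _ (h.f2 K hK hKU) (hdb.mono hKU))
  · intro φ hφ
    obtain ⟨hψ, hd⟩ := key φ hφ
    have e1 : ∀ z, f z * g z * dz φ z =
        f z * dz (fun z => g z * φ z) z - f z * (dz g z * φ z) := by
      intro z
      unfold dz
      rw [hd, hd]
      ring
    have e2 : ∀ z, (A z * g z + f z * dz g z) * φ z =
        A z * (g z * φ z) + f z * (dz g z * φ z) := by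
      intro z; ring
    have hK := hφ.2.1
    have f2 := h.f2 (tsupport φ) hK hφ.2.2
    have A2 := h.A2 (tsupport φ) hK hφ.2.2
    have i1 : Integrable (fun z => f z * dz (fun z => g z * φ z) z) := by
      refine sm_int (tsupport φ) hK f _ f2 ?_ ?_
      · unfold dz
        exact ((sm_fd _ hψ.1 1).sub (continuous_const.mul (sm_fd _ hψ.1 I))).div_const 2
      · intro z hz
        have hz' : z ∉ tsupport (fun z => g z * φ z) := fun h => hz (tsupport_mul_subset_right h)
        unfold dz
        rw [sm_fd0 _ 1 z hz', sm_fd0 _ I z hz']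
        simp
    have i2 : Integrable (fun z => f z * (dz g z * φ z)) :=
      sm_int (tsupport φ) hK f _ f2 (sm_cont U hU _ _ hdz hφ.1.continuous hφ.2.2)
        (fun z hz => by rw [sm_phi0 φ z hz, mul_zero])
    have i3 : Integrable (fun z => A z * (g z * φ z)) :=
      sm_int (tsupport φ) hK A _ A2 (sm_cont U hU _ _ hgc hφ.1.continuous hφ.2.2)
        (fun z hz => by rw [sm_phi0 φ z hz, mul_zero])
    simp_rw [e1, e2]
    rw [integral_sub i1 i2, integral_add i3 i2, h.hA _ hψ]
    ring
  · intro φ hφ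
    obtain ⟨hψ, hd⟩ := key φ hφ
    have e1 : ∀ z, f z * g z * db φ z =
        f z * db (fun z => g z * φ z) z - f z * (db g z * φ z) := by
      intro z
      unfold db
      rw [hd, hd]
      ring
    have e2 : ∀ z, (B z * g z + f z * db g z) * φ z =
        B z * (g z * φ z) + f z * (db g z * φ z) := by
      intro z; ring
    have hK := hφ.2.1
    have f2 := h.f2 (tsupport φ) hK hφ.2.2
    have B2 := h.B2 (tsupport φ) hK hφ.2.2
    have i1 : Integrable (fun z => f z * db (fun z => g z * φ z) z) := by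
      refine sm_int (tsupport φ) hK f _ f2 ?_ ?_
      · unfold db
        exact ((sm_fd _ hψ.1 1).add (continuous_const.mul (sm_fd _ hψ.1 I))).div_const 2
      · intro z hz
        have hz' : z ∉ tsupport (fun z => g z * φ z) := fun h => hz (tsupport_mul_subset_right h)
        unfold db
        rw [sm_fd0 _ 1 z hz', sm_fd0 _ I z hz']
        simp
    have i2 : Integrable (fun z => f z * (db g z * φ z)) :=
      sm_int (tsupport φ) hK f _ f2 (sm_cont U hU _ _ hdb hφ.1.continuous hφ.2.2)
        (fun z hz => by rw [sm_phi0 φ z hz, mul_zero])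
    have i3 : Integrable (fun z => B z * (g z * φ z)) :=
      sm_int (tsupport φ) hK B _ B2 (sm_cont U hU _ _ hgc hφ.1.continuous hφ.2.2)
        (fun z hz => by rw [sm_phi0 φ z hz, mul_zero])
    simp_rw [e1, e2]
    rw [integral_sub i1 i2, integral_add i3 i2, h.hB _ hψ]
    ring

theorem piece_smooth : S_smooth :=
  ⟨fun U f hU hf => sm_one U f hU hf, fun U f hU hf => sm_two U f hU hf,
    fun U f A B g hU h hg => sm_three U f A B g hU h hg⟩

end Cal
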