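import Pool.Agent.Lib.MP_4ea4c7_an.StmF

/-! Piece K5: trace facts. -/

open MeasureTheory Complex Metric Set Filter Topology
open scoped ComplexConjugate ENNReal NNReal Manifold ContDiff

namespace Cal

open LocalCalderon

/-- smooth cutoff functions: equal to one near the compact set, supported in the open set -/
private lemma trc_cut {K O : Set ℂ} (hK : IsCompact K) (hO : IsOpen O) (hKO : K ⊆ O) :
    ∃ η : ℂ → ℝ, IsTest univ η ∧ tsupport η ⊆ O ∧ ∀ x ∈ K, η =ᶠ[𝓝 x] fun _ => 1 := by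
  obtain ⟨L, hL, hKL, hLO⟩ := exists_compact_between hK hO hKO
  obtain ⟨f, h1, h2, _⟩ := exists_contMDiffMap_one_nhds_of_subset_interior (n := ⊤) 𝓘(ℝ, ℂ)
    hK.isClosed hKL
  have hs : tsupport (fun z => f z) ⊆ L := by
    refine closure_minimal ?_ hL.isClosed
    intro z hz
    by_contra h
    exact hz (h2 z h)
  refine ⟨fun z => f z, ⟨f.contMDiff.contDiff, ?_, subset_univ _⟩, hs.trans hLO, ?_⟩
  · exact hL.of_isClosed_subset (isClosed_tsupport _) hs
  · intro x hx
    exact (eventually_nhdsSet_iff_forall.1 h1) x hx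

theorem piece_trc (_h1 : S_h1) (h2 : S_h10) : S_trc := by
  intro Ω Γ hΩ hb hΓ
  obtain ⟨p1, p2, p3, -, -, -, -, p8⟩ := h2 Ω hΩ
  obtain ⟨O, hO, hΓO⟩ := hΓ
  refine ⟨?_, ?_, ?_, ?_, ?_⟩
  · intro u v hu hv ⟨K, hKΓ, hK, hT⟩ hS
    have hKO : K ⊆ O := hKΓ.trans (by rw [hΓO]; exact inter_subset_left)
    obtain ⟨η, e1, e2, e3⟩ := trc_cut hK hO hKO
    have hc : IsCompact (closure Ω) := hb.isCompact_closure
    obtain ⟨χ, c1, -, c3⟩ := trc_cut hc isOpen_univ (subset_univ _)
    have a1 : H10 Ω (fun z => η z * (u z - v z)) := by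
      refine hS η e1 ?_
      rw [hΓO]
      exact inter_subset_inter_left _ e2
    have a2 : H10 Ω (fun z => (χ z * (1 - η z)) * (u z - v z)) := by
      refine hT (fun z => χ z * (1 - η z)) ⟨?_, ?_, subset_univ _⟩ ?_
      · exact c1.1.mul (contDiff_const.sub e1.1)
      · exact c1.2.1.mul_right
      · rw [Set.disjoint_right]
        intro x hx
        rw [notMem_tsupport_iff_eventuallyEq]
        filter_upwards [e3 x hx] with z hz
        rw [hz, sub_self, mul_zero]
        rfl
    have a3 := p2 _ _ 1 a1 a2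
    refine p8 _ _ a3 ?_
    filter_upwards [ae_restrict_mem hΩ.measurableSet] with z hz
    have : χ z = 1 := (c3 z (subset_closure hz)).self_of_nhds
    rw [this]
    ring
  · intro u w ⟨K, hKΓ, hK, hT⟩ hw
    refine ⟨K, hKΓ, hK, fun η hη hd => ?_⟩
    have a := p2 _ _ 1 (hT η hη hd) (p3 w η hw hη)
    refine p8 _ _ a (Eventually.of_forall fun z => ?_)
    show η z * u z + 1 * (η z * w z) = η z * (u z + w z)
    ring
  · intro u v s ⟨K, hKΓ, hK, hT⟩ ⟨K', hKΓ', hK', hT'⟩
    refine ⟨K ∪ K', union_subset hKΓ hKΓ', hK.union hK', fun η hη hd => ?_⟩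
    rw [disjoint_union_right] at hd
    have a := p2 _ _ s (hT η hη hd.1) (hT' η hη hd.2)
    refine p8 _ _ a (Eventually.of_forall fun z => ?_)
    show η z * u z + s * (η z * v z) = η z * (u z + s * v z)
    ring
  · intro u₁ u₂ v h
    constructor
    · intro hS η hη hd
      have a := p2 _ _ (-1) (hS η hη hd) (p3 _ η h hη)
      refine p8 _ _ a (Eventually.of_forall fun z => ?_)
      show η z * (u₁ z - v z) + -1 * (η z * (u₁ z - u₂ z)) = η z * (u₂ z - v z)
      ring
    · intro hS η hη hd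
      have a := p2 _ _ 1 (hS η hη hd) (p3 _ η h hη)
      refine p8 _ _ a (Eventually.of_forall fun z => ?_)
      show η z * (u₂ z - v z) + 1 * (η z * (u₁ z - u₂ z)) = η z * (u₁ z - v z)
      ring
  · intro u η hη hd
    refine p8 _ _ p1 (Eventually.of_forall fun z => ?_)
    show 0 = η z * (u z - u z)
    ring

end Cal
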