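import Pool.Agent.Lib.MP_4ea4c7_an.Stm1

/-!
# Piece B6: uniqueness and isometry
-/

open MeasureTheory Complex Metric Set Filter Topology
open scoped ComplexConjugate ENNReal NNReal

namespace Cal

noncomputable section

/-- an entire function which is a.e. `O(1/z)` vanishes -/
private lemma uniq_liouville {g : ℂ → ℂ} (hg : Differentiable ℂ g) {C : ℝ}
    (h : ∀ᵐ z : ℂ, 2 ≤ ‖z‖ → ‖g z‖ ≤ C / ‖z‖) : ∀ z, g z = 0 := by
  have hcl : IsClosed {z : ℂ | ‖g z‖ * ‖z‖ ≤ C} :=
    isClosed_le (hg.continuous.norm.mul continuous_norm) continuous_const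
  have hopen : IsOpen {z : ℂ | 2 < ‖z‖} := isOpen_lt continuous_const continuous_norm
  have hdense : Dense {z : ℂ | 2 ≤ ‖z‖ → ‖g z‖ ≤ C / ‖z‖} := Measure.dense_of_ae h
  have hall : ∀ z : ℂ, 2 < ‖z‖ → ‖g z‖ ≤ C / ‖z‖ := by
    intro z hz
    have h1 : z ∈ closure ({z : ℂ | 2 < ‖z‖} ∩ {z : ℂ | 2 ≤ ‖z‖ → ‖g z‖ ≤ C / ‖z‖}) :=
      hdense.open_subset_closure_inter hopen hz
    have h2 : {z : ℂ | 2 < ‖z‖} ∩ {z : ℂ | 2 ≤ ‖z‖ → ‖g z‖ ≤ C / ‖z‖} ⊆
        {z : ℂ | ‖g z‖ * ‖z‖ ≤ C} := by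
      rintro y ⟨hy1, hy2⟩
      have hy1' : 2 < ‖y‖ := hy1
      have hy3 := hy2 hy1'.le
      rw [le_div_iff₀ (by linarith)] at hy3
      exact hy3
    have h3 : z ∈ {z : ℂ | ‖g z‖ * ‖z‖ ≤ C} := closure_minimal h2 hcl h1
    rw [le_div_iff₀ (by linarith)]
    exact h3
  have hlim : Tendsto g (cocompact ℂ) (𝓝 0) := by
    have h4 : Tendsto (fun z : ℂ => C / ‖z‖) (cocompact ℂ) (𝓝 0) :=
      (tendsto_norm_cocompact_atTop (E := ℂ)).const_div_atTop C
    refine squeeze_zero_norm' ?_ h4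
    filter_upwards [(tendsto_norm_cocompact_atTop (E := ℂ)).eventually_gt_atTop 2] with z hz
    exact hall z hz
  intro z
  exact hg.apply_eq_of_tendsto_cocompact z hlim

theorem piece_uniq (h1 : S_basic) (h2 : S_smooth) (h3 : S_wuniq) (h4 : S_weyl) (h5 : S_C3a)
    (h6 : S_C3b) : S_uniq := by
  have _ := h2
  intro h A B hW hB hD
  set w : ℂ → ℂ := fun z => if 5 / 4 < ‖z‖ then 0 else B z with hw
  have hwB : w =ᵐ[volume] B := by
    filter_upwards [hB] with z hz
    simp only [hw]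
    split_ifs with hc
    · exact (hz hc).symm
    · rfl
  have hw2 : W2 w := by
    constructor
    · have e1 : w = (closedBall (0 : ℂ) (5 / 4)).indicator B := by
        funext z
        simp only [hw, indicator, mem_closedBall, dist_zero_right]
        split_ifs with a b b
        · exact absurd a (not_lt.2 b)
        · rfl
        · rfl
        · exact absurd (lt_of_not_ge b) a
      rw [e1, memLp_indicator_iff_restrict measurableSet_closedBall]
      exact hW.B2 _ (isCompact_closedBall _ _) (subset_univ _)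
    · intro z hz
      simp only [hw]
      rw [if_pos hz]
  obtain ⟨A', hA', hW', hn⟩ := h6 w hw2
  obtain ⟨C, hC0, hC1, -⟩ := h5
  obtain ⟨D, hDh⟩ := hD
  have hWd := h1.1 univ h A B _ _ _ hW (h1.2.1 univ (Ct w) A' w (-1) hW')
  have hz : ∀ φ, TF univ φ → ∫ z, (h z + (-1) * Ct w z) * db φ z = 0 := by
    intro φ hφ
    rw [hWd.hB φ hφ, neg_eq_zero]
    refine integral_eq_zero_of_ae ?_
    filter_upwards [hwB] with z hz
    simp only [Pi.zero_apply]
    rw [hz]
    ring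
  obtain ⟨⟨g, hg, hge⟩, -⟩ := h4 univ _ isOpen_univ hWd.f2 hz
  rw [Measure.restrict_univ] at hge
  have hg' : Differentiable ℂ g := differentiableOn_univ.1 hg
  have hg0 : ∀ z, g z = 0 := by
    refine uniq_liouville hg' (C := D + C * (eLpNorm w 2 volume).toReal) ?_
    filter_upwards [hge] with z hz hz2
    rw [← hz]
    have b1 := hDh z hz2
    have b2 := (hC1 w hw2).1 z (by linarith)
    calc ‖h z + (-1) * Ct w z‖ ≤ ‖h z‖ + ‖(-1) * Ct w z‖ := norm_add_le _ _
      _ = ‖h z‖ + ‖Ct w z‖ := by rw [neg_one_mul, norm_neg]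
      _ ≤ D / ‖z‖ + C * (eLpNorm w 2 volume).toReal / ‖z‖ := add_le_add b1 b2
      _ = (D + C * (eLpNorm w 2 volume).toReal) / ‖z‖ := by ring
  have hfin : h =ᵐ[volume] Ct w := by
    filter_upwards [hge] with z hz
    rw [hg0 z] at hz
    linear_combination hz
  have hu := h3 univ h A B (Ct w) A' w isOpen_univ hW hW' (by
    rw [Measure.restrict_univ]
    exact hfin)
  rw [Measure.restrict_univ] at hu
  refine ⟨hfin, hA'.ae_eq hu.1.symm, hw2.1.ae_eq hwB, ?_⟩
  rw [eLpNorm_congr_ae hu.1, hn, eLpNorm_congr_ae hwB]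

end

end Cal
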