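import Pool.Agent.Lib.MP_4ea4c7_an.Stm1

/-! Weyl's lemma for `∂/∂z̄` -/

set_option autoImplicit false

open MeasureTheory Complex Metric Set Filter Topology
open scoped ComplexConjugate ENNReal NNReal

namespace Cal

noncomputable section

/-- mean value property with a radial kernel -/
private lemma weyl_mean (ρ : ℂ → ℝ) (hρc : Continuous ρ) (r : ℝ)
    (hρs : ∀ z, r ≤ ‖z‖ → ρ z = 0) (hρ1 : ∫ z, ρ z = 1) (hrad : ∀ z w : ℂ, ‖z‖ = ‖w‖ → ρ z = ρ w)
    (h : ℂ → ℂ) (hc : Continuous h) (z : ℂ) (hd : ∀ w ∈ ball z r, DifferentiableAt ℂ h w) :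
    mol ρ h z = h z := by
  have e1 : mol ρ h z = ∫ w, (ρ w : ℂ) * h (z - w) := by
    have := integral_sub_left_eq_self (fun w => (ρ w : ℂ) * h (z - w)) volume z
    rw [← this]
    unfold mol
    refine integral_congr_ae (Eventually.of_forall fun ζ => ?_)
    simp only [sub_sub_cancel]
  have hrot : ∀ θ : ℝ, ∫ w, (ρ w : ℂ) * h (z - exp (θ * I) * w) = ∫ w, (ρ w : ℂ) * h (z - w) := by
    intro θ
    have h2 := (rotation (Circle.exp θ)).measurePreserving.integral_comp
      (rotation (Circle.exp θ)).toHomeomorph.measurableEmbedding (fun w => (ρ w : ℂ) * h (z - w))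
    rw [← h2]
    refine integral_congr_ae (Eventually.of_forall fun w => ?_)
    have h3 : (rotation (Circle.exp θ)) w = exp (θ * I) * w := by
      rw [rotation_apply, Circle.coe_exp]
    have h4 : ρ w = ρ (exp (θ * I) * w) := by
      refine hrad _ _ ?_
      rw [norm_mul, Complex.norm_exp_ofReal_mul_I, one_mul]
    simp only [h3]
    rw [← h4]
  have hcontΦ : Continuous (fun p : ℝ × ℂ => (ρ p.2 : ℂ) * h (z - exp (p.1 * I) * p.2)) := by
    fun_prop
  have hint : Integrable (Function.uncurry (fun (θ : ℝ) (w : ℂ) => (ρ w : ℂ) * h (z - exp (θ * I) * w)))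
      ((volume.restrict (Set.uIoc 0 (2 * Real.pi))).prod (volume : Measure ℂ)) := by
    have hK : IsCompact ((Icc (0 : ℝ) (2 * Real.pi)) ×ˢ (closedBall (0 : ℂ) r)) :=
      isCompact_Icc.prod (isCompact_closedBall _ _)
    have h5 : IntegrableOn (fun p : ℝ × ℂ => (ρ p.2 : ℂ) * h (z - exp (p.1 * I) * p.2))
        ((Icc (0 : ℝ) (2 * Real.pi)) ×ˢ (closedBall (0 : ℂ) r)) (volume.prod volume) :=
      hcontΦ.continuousOn.integrableOn_compact hK
    have h6 : IntegrableOn (fun p : ℝ × ℂ => (ρ p.2 : ℂ) * h (z - exp (p.1 * I) * p.2))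
        ((Set.uIoc (0 : ℝ) (2 * Real.pi)) ×ˢ (univ : Set ℂ)) (volume.prod volume) := by
      refine h5.of_forall_sdiff_eq_zero (measurableSet_uIoc.prod MeasurableSet.univ) ?_
      rintro ⟨θ, w⟩ ⟨⟨hθ, -⟩, hn⟩
      have hθ' : θ ∈ Icc (0 : ℝ) (2 * Real.pi) := by
        rw [Set.uIoc_of_le (by positivity)] at hθ
        exact ⟨hθ.1.le, hθ.2⟩
      have hw : r ≤ ‖w‖ := by
        by_contra hcon
        push Not at hcon
        exact hn ⟨hθ', by simpa using hcon.le⟩
      simp [hρs w hw]
    have h7 := Measure.prod_restrict (μ := (volume : Measure ℝ)) (ν := (volume : Measure ℂ))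
      (Set.uIoc (0 : ℝ) (2 * Real.pi)) univ
    rw [Measure.restrict_univ] at h7
    rw [h7]
    exact h6
  have hsw := intervalIntegral_integral_swap hint
  have hinner : ∀ w : ℂ, ∫ θ in (0 : ℝ)..(2 * Real.pi), (ρ w : ℂ) * h (z - exp (θ * I) * w)
      = (ρ w : ℂ) * ((2 * Real.pi : ℝ) * h z) := by
    intro w
    by_cases hw : r ≤ ‖w‖
    · simp [hρs w hw]
    push Not at hw
    rw [intervalIntegral.integral_const_mul]
    congr 1
    have hG : Real.circleAverage (fun s : ℂ => h (z - s * w)) 0 1 = h (z - 0 * w) := by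
      refine circleAverage_of_differentiable_on_off_countable (s := ∅) countable_empty ?_ ?_
      · exact (hc.comp (by fun_prop)).continuousOn
      · intro s hs
        have hs' : ‖s‖ < 1 := by simpa using hs.1
        have : DifferentiableAt ℂ h (z - s * w) := by
          refine hd _ ?_
          rw [mem_ball, dist_eq_norm]
          have : z - s * w - z = -(s * w) := by ring
          rw [this, norm_neg, norm_mul]
          have h8 : ‖s‖ * ‖w‖ ≤ 1 * ‖w‖ := mul_le_mul_of_nonneg_right hs'.le (norm_nonneg _)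
          linarith
        exact DifferentiableAt.comp (𝕜 := ℂ) s (f := fun s : ℂ => z - s * w) this (by fun_prop)
    rw [Real.circleAverage_def] at hG
    have h9 : ∀ θ : ℝ, circleMap 0 1 θ = exp (θ * I) := by
      intro θ; simp [circleMap]
    simp only [h9, zero_mul, sub_zero] at hG
    rw [← hG, Complex.real_smul, ← mul_assoc, ← Complex.ofReal_mul]
    have : (2 * Real.pi) * (2 * Real.pi)⁻¹ = 1 := mul_inv_cancel₀ (by positivity)
    rw [this]
    simp
  simp only [hinner, hrot, ← e1] at hsw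
  rw [intervalIntegral.integral_const, integral_mul_const, integral_complex_ofReal, hρ1] at hsw
  rw [Complex.real_smul, sub_zero, Complex.ofReal_one, one_mul] at hsw
  have hpi : ((2 * Real.pi : ℝ) : ℂ) ≠ 0 := by
    rw [Complex.ofReal_ne_zero]; positivity
  exact mul_left_cancel₀ hpi hsw

private lemma weyl_ker {ρ : ℂ → ℝ} {r : ℝ} (hρs : ∀ z, r ≤ ‖z‖ → ρ z = 0) :
    HasCompactSupport (fun w => (ρ w : ℂ)) := by
  refine HasCompactSupport.intro (isCompact_closedBall (0 : ℂ) r) (fun x hx => ?_)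
  have : r ≤ ‖x‖ := by
    by_contra hcon
    push Not at hcon
    exact hx (by simpa using hcon.le)
  simp [hρs x this]

private lemma weyl_mol (ρ : ℂ → ℝ) (g : ℂ → ℂ) :
    mol ρ g = convolution g (fun w => (ρ w : ℂ)) (ContinuousLinearMap.mul ℝ ℂ) volume := by
  funext z
  unfold mol
  rw [convolution_def]
  refine integral_congr_ae (Eventually.of_forall fun t => ?_)
  simp [mul_comm]

/-- mollified weak solutions are holomorphic -/
private lemma weyl_db {ρ : ℂ → ℝ} (hρ : ContDiff ℝ (⊤ : ℕ∞) ρ) {r : ℝ} (hρs : ∀ z, r ≤ ‖z‖ → ρ z = 0)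
    {U : Set ℂ} {f : ℂ → ℂ} (hw : ∀ φ, TF U φ → ∫ z, f z * db φ z = 0) {K : Set ℂ}
    (hg : LocallyIntegrable (K.indicator f) volume) {z : ℂ} (hz : closedBall z r ⊆ K)
    (hzU : closedBall z r ⊆ U) :
    DifferentiableAt ℂ (mol ρ (K.indicator f)) z := by
  set g := K.indicator f with hgdef
  set ρc : ℂ → ℂ := fun w => (ρ w : ℂ) with hρcdef
  have hcg : HasCompactSupport ρc := weyl_ker hρs
  have hcd : ContDiff ℝ (⊤ : ℕ∞) ρc := Complex.ofRealCLM.contDiff.comp hρ
  have hcd1 : ContDiff ℝ 1 ρc := hcd.of_le (by exact_mod_cast le_top)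
  have hfd := hcg.hasFDerivAt_convolution_right (ContinuousLinearMap.mul ℝ ℂ) hg hcd1 z
  rw [← weyl_mol] at hfd
  have hval : ∀ v : ℂ, fderiv ℝ (mol ρ g) z v = ∫ t, g t * (fderiv ℝ ρc (z - t) v) := by
    intro v
    rw [hfd.fderiv, convolution_precompR_apply (ContinuousLinearMap.mul ℝ ℂ) hg (hcg.fderiv ℝ)
      (hcd1.continuous_fderiv one_ne_zero), convolution_def]
    rfl
  have hint : ∀ v : ℂ, Integrable (fun t => g t * (fderiv ℝ ρc (z - t) v)) volume := by
    intro v
    have h1 : HasCompactSupport (fun a => fderiv ℝ ρc a v) := by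
      have := (hcg.fderiv ℝ)
      exact this.comp_left (g := fun L : ℂ →L[ℝ] ℂ => L v) (by simp)
    have h2 : Continuous (fun a => fderiv ℝ ρc a v) :=
      (hcd1.continuous_fderiv one_ne_zero).clm_apply continuous_const
    exact h1.convolutionExists_right (ContinuousLinearMap.mul ℝ ℂ) hg h2 z
  rw [differentiableAt_complex_iff_differentiableAt_real]
  refine ⟨hfd.differentiableAt, ?_⟩
  set φ : ℂ → ℂ := fun t => ρc (z - t) with hφdef
  have hφcd : ContDiff ℝ (⊤ : ℕ∞) φ := hcd.comp (contDiff_const.sub contDiff_id)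
  have hφz : ∀ t, t ∉ closedBall z r → φ t = 0 := by
    intro t ht
    have : r ≤ ‖z - t‖ := by
      rw [mem_closedBall, dist_comm, dist_eq_norm] at ht
      exact (not_le.mp ht).le
    simp [hφdef, hρcdef, hρs _ this]
  have hφts : tsupport φ ⊆ closedBall z r := by
    refine closure_minimal ?_ isClosed_closedBall
    intro t ht
    by_contra hcon
    exact ht (hφz t hcon)
  have hTF : TF U φ :=
    ⟨hφcd, HasCompactSupport.intro (isCompact_closedBall z r) hφz, hφts.trans hzU⟩
  have hφfd : ∀ t v, fderiv ℝ φ t v = - fderiv ℝ ρc (z - t) v := by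
    intro t v
    have h1 : HasFDerivAt φ ((fderiv ℝ ρc (z - t)).comp (-(ContinuousLinearMap.id ℝ ℂ))) t := by
      have h2 : HasFDerivAt ρc (fderiv ℝ ρc (z - t)) (z - t) :=
        (hcd1.differentiable one_ne_zero).differentiableAt.hasFDerivAt
      have h3 : HasFDerivAt (fun t : ℂ => z - t) (-(ContinuousLinearMap.id ℝ ℂ)) t :=
        (hasFDerivAt_id t).const_sub z
      exact h2.comp t h3
    rw [h1.fderiv]
    simp
  have h0 := hw φ hTF
  have h1 : ∫ t, g t * db φ t = 0 := by
    rw [← h0]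
    refine integral_congr_ae (Eventually.of_forall fun t => ?_)
    by_cases ht : t ∈ K
    · simp only [hgdef, indicator_of_mem ht]
    · have ht' : t ∉ tsupport φ := fun h => ht (hz (hφts h))
      have h4 : fderiv ℝ φ t = 0 := by
        have := notMem_subset (tsupport_fderiv_subset ℝ (f := φ)) ht'
        exact image_eq_zero_of_notMem_tsupport this
      have h5 : db φ t = 0 := by simp [db, h4]
      simp only [h5, mul_zero]
  have h2 : ∫ t, g t * db φ t
      = -(1 / 2) * (fderiv ℝ (mol ρ g) z 1 + I * fderiv ℝ (mol ρ g) z I) := by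
    rw [hval, hval, ← integral_const_mul, ← integral_add (hint 1) ((hint I).const_mul I),
      ← integral_const_mul]
    refine integral_congr_ae (Eventually.of_forall fun t => ?_)
    simp only [db, hφfd]
    ring
  rw [h1] at h2
  have h3 : fderiv ℝ (mol ρ g) z 1 + I * fderiv ℝ (mol ρ g) z I = 0 := by
    have h4 : (-(1 / 2) : ℂ) ≠ 0 := by norm_num
    exact (mul_eq_zero.mp h2.symm).resolve_left h4
  rw [smul_eq_mul]
  linear_combination (-I) * h3 + (fderiv ℝ (mol ρ g) z I) * I_mul_I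

/-- `L²` convergence and mollification -/
private lemma weyl_lim {ρ : ℂ → ℝ} (hρ : Continuous ρ) {r : ℝ} (hρs : ∀ z, r ≤ ‖z‖ → ρ z = 0)
    {F : ℕ → ℂ → ℂ} {g : ℂ → ℂ} (hF : ∀ n, MemLp (F n) 2 volume) (hg : MemLp g 2 volume)
    (h : Tendsto (fun n => eLpNorm (fun z => F n z - g z) 2 volume) atTop (𝓝 0)) (z : ℂ) :
    Tendsto (fun n => mol ρ (F n) z) atTop (𝓝 (mol ρ g z)) := by
  set φ : ℂ → ℂ := fun t => (ρ (z - t) : ℂ) with hφdef
  have hφc : Continuous φ := by
    simp only [hφdef]; fun_prop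
  have hφz : ∀ t, t ∉ closedBall z r → φ t = 0 := by
    intro t ht
    have : r ≤ ‖z - t‖ := by
      rw [mem_closedBall, dist_comm, dist_eq_norm] at ht
      exact (not_le.mp ht).le
    simp [hφdef, hρs _ this]
  have hφs : HasCompactSupport φ := HasCompactSupport.intro (isCompact_closedBall z r) hφz
  have hφ2 : MemLp φ 2 volume := hφc.memLp_of_hasCompactSupport hφs
  have hi : ∀ {G : ℂ → ℂ}, MemLp G 2 volume → Integrable (φ • G) volume := by
    intro G hG
    rw [← memLp_one_iff_integrable]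
    exact hG.smul hφ2
  have hmol : ∀ G : ℂ → ℂ, mol ρ G z = ∫ t, (φ • G) t := by
    intro G
    rfl
  simp only [hmol]
  refine tendsto_integral_of_L1' _ (hi hg).1 (Eventually.of_forall fun n => hi (hF n)) ?_
  have hb : ∀ n, eLpNorm (φ • F n - φ • g) 1 volume
      ≤ eLpNorm φ 2 volume * eLpNorm (fun z => F n z - g z) 2 volume := by
    intro n
    have : φ • F n - φ • g = φ • (fun z => F n z - g z) := by
      funext t
      simp [mul_sub]
    rw [this]
    exact eLpNorm_smul_le_mul_eLpNorm ((hF n).sub hg).1 hφ2.1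
  have h0 : Tendsto (fun n => eLpNorm φ 2 volume * eLpNorm (fun z => F n z - g z) 2 volume) atTop (𝓝 0) := by
    have := ENNReal.Tendsto.const_mul (a := eLpNorm φ 2 volume) h (Or.inr hφ2.2.ne)
    simpa using this
  exact tendsto_of_tendsto_of_tendsto_of_le_of_le tendsto_const_nhds h0 (fun _ => bot_le) hb

/-- local version -/
private lemma weyl_local (h1 : S_bump) {U : Set ℂ} (hU : IsOpen U) {f : ℂ → ℂ} (hf : L2loc U f)
    (hw : ∀ φ, TF U φ → ∫ z, f z * db φ z = 0) {z0 : ℂ} (hz0 : z0 ∈ U) :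
    ∃ δ : ℝ, 0 < δ ∧ ball z0 δ ⊆ U ∧ ∃ g : ℂ → ℂ, DifferentiableOn ℂ g (ball z0 δ) ∧
      f =ᵐ[volume.restrict (ball z0 δ)] g := by
  obtain ⟨ρ, hsm, hpos, hsupp, hone, hrad, hcd, hL2, -⟩ := h1
  obtain ⟨ε, hε, hεU⟩ := Metric.isOpen_iff.mp hU z0 hz0
  set δ := ε / 4 with hδdef
  have hδ : 0 < δ := by positivity
  set K := closedBall z0 (3 * δ) with hKdef
  have hKU : K ⊆ U := by
    refine Subset.trans ?_ hεU
    intro x hx
    rw [hKdef, mem_closedBall] at hx
    rw [mem_ball]
    linarith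
  have hKc : IsCompact K := isCompact_closedBall _ _
  have hg2 : MemLp (K.indicator f) 2 volume :=
    (memLp_indicator_iff_restrict hKc.measurableSet).mpr (hf K hKc hKU)
  have hgl : LocallyIntegrable (K.indicator f) volume := hg2.locallyIntegrable (by norm_num)
  obtain ⟨m0, hm0⟩ := exists_nat_one_div_lt hδ
  have hrn : ∀ n : ℕ, m0 ≤ n → (1 : ℝ) / ((n : ℝ) + 1) < δ := by
    intro n hn
    refine lt_of_le_of_lt ?_ hm0
    have : (m0 : ℝ) ≤ n := by exact_mod_cast hn
    gcongr
  set g := K.indicator f with hgdef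
  obtain ⟨hFm, hFt⟩ := hL2 g hg2
  have hhol : ∀ n : ℕ, m0 ≤ n → ∀ z ∈ ball z0 (2 * δ), DifferentiableAt ℂ (mol (ρ n) g) z := by
    intro n hn z hz
    have hsub : closedBall z ((1 : ℝ) / ((n : ℝ) + 1)) ⊆ K := by
      intro x hx
      rw [mem_closedBall] at hx
      rw [mem_ball] at hz
      rw [hKdef, mem_closedBall]
      have := dist_triangle x z z0
      have := hrn n hn
      linarith
    exact weyl_db (hsm n) (hsupp n) hw hgl hsub (hsub.trans hKU)
  have hmean : ∀ n : ℕ, m0 ≤ n → ∀ z ∈ ball z0 δ, mol (ρ m0) (mol (ρ n) g) z = mol (ρ n) g z := by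
    intro n hn z hz
    refine weyl_mean (ρ m0) (hsm m0).continuous _ (hsupp m0) (hone m0) (hrad m0) _
      (hcd g hgl n).continuous z ?_
    intro w hw
    refine hhol n hn w ?_
    rw [mem_ball] at hw hz ⊢
    have := dist_triangle w z z0
    have := hrn m0 le_rfl
    linarith
  have hlim : ∀ z ∈ ball z0 δ, Tendsto (fun n => mol (ρ n) g z) atTop (𝓝 (mol (ρ m0) g z)) := by
    intro z hz
    have h2 := weyl_lim (hsm m0).continuous (hsupp m0) (fun n => (hFm n).1) hg2 hFt z
    refine h2.congr' ?_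
    filter_upwards [eventually_ge_atTop m0] with n hn using hmean n hn z hz
  have hae : g =ᵐ[volume.restrict (ball z0 δ)] mol (ρ m0) g := by
    have h3 : TendstoInMeasure volume (fun n => mol (ρ n) g) atTop g := by
      refine tendstoInMeasure_of_tendsto_eLpNorm (p := 2) (by norm_num) (fun n => (hFm n).1.1) hg2.1 ?_
      exact hFt
    obtain ⟨ns, hns, hns2⟩ := h3.exists_seq_tendsto_ae
    filter_upwards [ae_restrict_of_ae hns2, ae_restrict_mem measurableSet_ball] with z hz1 hz2
    exact tendsto_nhds_unique hz1 ((hlim z hz2).comp hns.tendsto_atTop)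
  refine ⟨δ, hδ, ?_, mol (ρ m0) g, ?_, ?_⟩
  · refine Subset.trans ?_ hKU
    exact (ball_subset_closedBall).trans (closedBall_subset_closedBall (by linarith))
  · intro z hz
    refine (hhol m0 le_rfl z ?_).differentiableWithinAt
    exact ball_subset_ball (by linarith) hz
  · filter_upwards [hae, ae_restrict_mem measurableSet_ball] with z hz1 hz2
    rw [← hz1, hgdef, indicator_of_mem]
    exact (closedBall_subset_closedBall (by linarith)) (ball_subset_closedBall hz2)

theorem piece_weyl (h1 : S_bump) : S_weyl := by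
  intro U f hU hf hw
  have hloc : ∀ z0 ∈ U, ∃ δ : ℝ, 0 < δ ∧ ball z0 δ ⊆ U ∧ ∃ g : ℂ → ℂ,
      DifferentiableOn ℂ g (ball z0 δ) ∧ f =ᵐ[volume.restrict (ball z0 δ)] g :=
    fun z0 hz0 => weyl_local h1 hU hf hw hz0
  choose! δ hδ hδU G hG hfG using hloc
  have key : ∀ z0 ∈ U, ∀ z ∈ ball z0 (δ z0), G z z = G z0 z := by
    intro z0 hz0 z hz
    have hzU := hδU z0 hz0 hz
    have h2 : G z =ᵐ[volume.restrict (ball z (δ z) ∩ ball z0 (δ z0))] G z0 := by
      have h3 := ae_restrict_of_ae_restrict_of_subset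
        (inter_subset_left : ball z (δ z) ∩ ball z0 (δ z0) ⊆ ball z (δ z)) (hfG z hzU)
      have h4 := ae_restrict_of_ae_restrict_of_subset
        (inter_subset_right : ball z (δ z) ∩ ball z0 (δ z0) ⊆ ball z0 (δ z0)) (hfG z0 hz0)
      filter_upwards [h3, h4] with x hx1 hx2
      rw [← hx1, ← hx2]
    have h5 := Measure.eqOn_open_of_ae_eq h2 (isOpen_ball.inter isOpen_ball)
      ((hG z hzU).continuousOn.mono inter_subset_left)
      ((hG z0 hz0).continuousOn.mono inter_subset_right)
    exact h5 ⟨mem_ball_self (hδ z hzU), hz⟩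
  have hdiff : DifferentiableOn ℂ (fun z => G z z) U := by
    intro z0 hz0
    have h6 : (fun z => G z z) =ᶠ[𝓝 z0] G z0 := by
      filter_upwards [isOpen_ball.mem_nhds (mem_ball_self (hδ z0 hz0))] with z hz using key z0 hz0 z hz
    have h7 : DifferentiableAt ℂ (G z0) z0 :=
      (hG z0 hz0).differentiableAt (isOpen_ball.mem_nhds (mem_ball_self (hδ z0 hz0)))
    exact (h6.differentiableAt_iff.mpr h7).differentiableWithinAt
  have hae : f =ᵐ[volume.restrict U] (fun z => G z z) := by
    rw [Filter.EventuallyEq, ae_restrict_iff' hU.measurableSet, ae_iff]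
    refine measure_null_of_locally_null _ (fun x hx => ?_)
    simp only [Classical.not_imp, mem_ofPred_eq] at hx
    refine ⟨{a | ¬(a ∈ U → f a = G a a)} ∩ ball x (δ x),
      inter_mem_nhdsWithin _ (isOpen_ball.mem_nhds (mem_ball_self (hδ x hx.1))), ?_⟩
    have h8 := hfG x hx.1
    rw [Filter.EventuallyEq, ae_restrict_iff' measurableSet_ball, ae_iff] at h8
    refine measure_mono_null ?_ h8
    rintro a ⟨ha1, ha2⟩
    simp only [Classical.not_imp, mem_ofPred_eq] at ha1 ⊢
    refine ⟨ha2, ?_⟩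
    rw [← key x hx.1 a ha2]
    exact ha1.2
  refine ⟨⟨fun z => G z z, hdiff, hae⟩, fun hc => ?_⟩
  have h9 := Measure.eqOn_open_of_ae_eq hae hU hc hdiff.continuousOn
  exact hdiff.congr h9

end

end Cal
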