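import Pool.Agent.Lib.MP_4ea4c7_an.Stm1

/-!
[A6] Weak derivatives are unique.
-/

open MeasureTheory Complex Metric Set Filter Topology
open scoped ComplexConjugate ENNReal NNReal

namespace Cal

noncomputable section

private theorem wuniq_dz_zero {φ : ℂ → ℂ} {z : ℂ} (hz : z ∉ tsupport φ) : dz φ z = 0 ∧ db φ z = 0 := by
  have h : fderiv ℝ φ z = 0 := by
    by_contra hne
    exact hz (support_fderiv_subset ℝ (Function.mem_support.2 hne))
  unfold dz db
  rw [h]
  simp

private theorem wuniq_intOn {U : Set ℂ} {g : ℂ → ℂ} (hg : L2loc U g) {K : Set ℂ} (hK : IsCompact K)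
    (hKU : K ⊆ U) : IntegrableOn g K volume := by
  have : IsFiniteMeasure (volume.restrict K) :=
    ⟨by rw [Measure.restrict_apply_univ]; exact hK.measure_lt_top⟩
  exact (hg K hK hKU).integrable one_le_two

private theorem wuniq_int {U : Set ℂ} {g φ : ℂ → ℂ} (hg : L2loc U g) (hφ : TF U φ) :
    Integrable (fun z => g z * φ z) volume := by
  have hK : IsCompact (tsupport φ) := hφ.2.1
  have h1 := wuniq_intOn hg hK hφ.2.2
  have h2 : IntegrableOn (fun z => g z * φ z) (tsupport φ) volume :=
    h1.mul_continuousOn hφ.1.continuous.continuousOn hK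
  rwa [integrableOn_iff_integrable_of_support_subset] at h2
  intro z hz
  apply subset_tsupport
  rw [Function.mem_support] at hz ⊢
  intro h
  exact hz (by rw [h, mul_zero])

private theorem wuniq_tf {U : Set ℂ} {g : ℂ → ℝ} (h1 : ContDiff ℝ (⊤ : ℕ∞) g)
    (h2 : HasCompactSupport g) (h3 : tsupport g ⊆ U) : TF U (fun z => ((g z : ℝ) : ℂ)) := by
  refine ⟨Complex.ofRealCLM.contDiff.comp h1, h2.comp_left (g := fun x : ℝ => (x : ℂ)) (by simp), ?_⟩
  refine (closure_mono ?_).trans h3
  intro z hz
  rw [Function.mem_support] at hz ⊢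
  intro h
  exact hz (by rw [h]; simp)

private theorem wuniq_core {U : Set ℂ} (hU : IsOpen U) {A A' : ℂ → ℂ} (hA : L2loc U A)
    (hA' : L2loc U A') (h : ∀ φ : ℂ → ℂ, TF U φ → ∫ z, A z * φ z = ∫ z, A' z * φ z) :
    A =ᵐ[volume.restrict U] A' := by
  have hloc : LocallyIntegrableOn (fun z => A z - A' z) U volume := by
    rw [locallyIntegrableOn_iff hU.isLocallyClosed]
    intro K hKU hK
    exact (wuniq_intOn hA hK hKU).sub (wuniq_intOn hA' hK hKU)
  have key := hU.ae_eq_zero_of_integral_contDiff_smul_eq_zero hloc (fun g h1 h2 h3 => by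
    have hφ := wuniq_tf h1 h2 h3
    have e1 := h _ hφ
    have e2 : ∀ z, g z • (A z - A' z) = A z * ((g z : ℝ) : ℂ) - A' z * ((g z : ℝ) : ℂ) := by
      intro z
      rw [Complex.real_smul]
      ring
    simp_rw [e2]
    rw [integral_sub (wuniq_int hA hφ) (wuniq_int hA' hφ), e1, sub_self])
  rw [Filter.EventuallyEq, ae_restrict_iff' hU.measurableSet]
  filter_upwards [key] with z hz hzU
  exact sub_eq_zero.1 (hz hzU)

theorem piece_wuniq : S_wuniq := by
  intro U f A B f' A' B' hU h h' hff
  have hff' : ∀ᵐ z : ℂ, z ∈ U → f z = f' z := by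
    rwa [Filter.EventuallyEq, ae_restrict_iff' hU.measurableSet] at hff
  constructor
  · refine wuniq_core hU h.A2 h'.A2 fun φ hφ => ?_
    have e1 := h.hA φ hφ
    have e2 := h'.hA φ hφ
    have e3 : ∫ z, f z * dz φ z = ∫ z, f' z * dz φ z := by
      refine integral_congr_ae ?_
      filter_upwards [hff'] with z hz
      by_cases hzU : z ∈ U
      · rw [hz hzU]
      · rw [(wuniq_dz_zero fun h => hzU (hφ.2.2 h)).1, mul_zero, mul_zero]
    rw [e1, e2] at e3
    exact neg_injective e3
  · refine wuniq_core hU h.B2 h'.B2 fun φ hφ => ?_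
    have e1 := h.hB φ hφ
    have e2 := h'.hB φ hφ
    have e3 : ∫ z, f z * db φ z = ∫ z, f' z * db φ z := by
      refine integral_congr_ae ?_
      filter_upwards [hff'] with z hz
      by_cases hzU : z ∈ U
      · rw [hz hzU]
      · rw [(wuniq_dz_zero fun h => hzU (hφ.2.2 h)).2, mul_zero, mul_zero]
    rw [e1, e2] at e3
    exact neg_injective e3

end

end Cal
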