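import Pool.Agent.Lib.MP_4ea4c7_an.Defs

/-!
# MP_4ea4c7_an, stage 2: definitions

Paper: /team-store/MP_4ea4c7_stage2_paper.md (numbers of sections in brackets).
-/

open MeasureTheory Complex Metric Set Filter Topology
open scoped ComplexConjugate ENNReal NNReal

namespace Cal

noncomputable section

/-! ## Normalised position [0] -/

/-- `H¹₀(Ω)`: `u`, with gradient `U`, is a limit of test functions of `Ω` (so both vanish a.e. off `Ω`). -/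
structure H0 (Ω : Set ℂ) (u : ℂ → ℝ) (U : ℂ → ℂ) : Prop where
  mu : MemLp u 2 volume
  mU : MemLp U 2 volume
  app : ∀ ε : ℝ, 0 < ε → ∃ φ : ℂ → ℝ, RTF Ω φ ∧ eLpNorm (fun z => u z - φ z) 2 volume < ENNReal.ofReal ε ∧
    eLpNorm (fun z => U z - gr φ z) 2 volume < ENNReal.ofReal ε

/-- `η u ∈ H¹₀(G)` for all test functions `η` supported in the disc of radius `r` -/
def InH (G : Set ℂ) (r : ℝ) (u : ℂ → ℝ) (U : ℂ → ℂ) : Prop :=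
  ∀ η : ℂ → ℝ, RTF (ball 0 r) η → H0 G (fun z => η z * u z) (fun z => (η z : ℂ) * U z + (u z : ℂ) * gr η z)

/-- `div (γ U) = 0` in `V` -/
def WSol (V : Set ℂ) (γ : ℂ → ℝ) (U : ℂ → ℂ) : Prop :=
  ∀ φ : ℂ → ℝ, RTF V φ → ∫ z, γ z * ip (U z) (gr φ z) = 0

/-- Normalised position: the body `Ω` and the accessible side, together the open set `G`. -/
structure Pos (Ω G : Set ℂ) : Prop where
  oΩ : IsOpen Ω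
  cΩ : IsConnected Ω
  oG : IsOpen G
  cG : IsConnected G
  Ωs : Ω ⊆ ball 0 (1 / 2)
  ΩG : Ω ⊆ G
  ext : ∀ z : ℂ, 1 / 2 ≤ ‖z‖ → z ∈ G

/-- transfer: `γ₁`-solutions near the body, with zero boundary values on the inaccessible part, correspond to `γ₂`-solutions which are equal to them off `Ω` -/
def TT (Ω G : Set ℂ) (γ₁ γ₂ : ℂ → ℝ) : Prop :=
  ∀ (u : ℂ → ℝ) (U : ℂ → ℂ), InH G (5 / 8) u U → WSol (G ∩ ball 0 (5 / 8)) γ₁ U →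
    ∃ (u' : ℂ → ℝ) (U' : ℂ → ℂ), H0 Ω (fun z => u' z - u z) (fun z => U' z - U z) ∧ WSol (G ∩ ball 0 (5 / 8)) γ₂ U'

/-! ## Coefficients -/

/-- Beltrami coefficients: measurable, `|μ| ≤ κ`, zero outside the disc of radius `r` (no symmetry) -/
structure NMu (κ r : ℝ) (μ : ℂ → ℝ) : Prop where
  meas : Measurable μ
  bd : ∀ z, |μ z| ≤ κ
  supp : ∀ z, r < ‖z‖ → μ z = 0

/-- smooth coefficients of section 4 -/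
structure SMu (k0 : ℝ) (μ : ℂ → ℝ) : Prop where
  smooth : ContDiff ℝ (⊤ : ℕ∞) μ
  lo : ∀ z, -k0 ≤ μ z
  hi : ∀ z, μ z < 1
  supp : ∀ z, 7 / 8 < ‖z‖ → μ z = 0

/-- admissible degenerate coefficients: bounded away from `-1`, locally in `G` bounded away from `1`, zero for `‖z‖ ≥ 3/4` (the values off `G` do not matter) -/
structure Adm (G : Set ℂ) (k0 : ℝ) (μ : ℂ → ℝ) : Prop where
  oG : IsOpen G
  cG : IsConnected G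
  ext : ∀ z : ℂ, 1 / 2 ≤ ‖z‖ → z ∈ G
  meas : Measurable μ
  k00 : 0 ≤ k0
  k01 : k0 < 1
  lo : ∀ z, -k0 ≤ μ z
  hi : ∀ z, μ z ≤ 1
  loc : ∀ K : Set ℂ, IsCompact K → K ⊆ G → ∃ q : ℝ, q < 1 ∧ ∀ z ∈ K, |μ z| ≤ q
  supp : ∀ z, 3 / 4 ≤ ‖z‖ → μ z = 0

/-! ## Finite energy solutions [3] -/

/-- solutions on `G` of `∂f/∂z̄ = μ conj(∂f/∂z)` with finite energy on bounded sets, holomorphic for `‖z‖ > 3/4` -/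
structure Cl (G : Set ℂ) (μ : ℂ → ℝ) (F : ℂ → ℂ) : Prop where
  cont : ContinuousOn F G
  hol : DifferentiableOn ℂ F {z | 3 / 4 < ‖z‖}
  en : ∃ A B : ℂ → ℂ, WD G F A B ∧ (∀ᵐ z ∂(volume.restrict G), B z = (μ z : ℂ) * conj (A z)) ∧
    ∀ R : ℝ, IntegrableOn (fun z => ‖A z‖ ^ 2 - ‖B z‖ ^ 2) (G ∩ closedBall 0 R) volume

/-- cutoff functions: the complement of `G` has weighted capacity zero [2.4] -/
def Cut (G : Set ℂ) (κ : ℂ → ℝ) : Prop :=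
  ∃ τ : ℕ → ℂ → ℝ, (∀ m, ContDiff ℝ (⊤ : ℕ∞) (τ m)) ∧ (∀ m z, 0 ≤ τ m z ∧ τ m z ≤ 1) ∧
    (∀ m, Disjoint (tsupport (τ m)) Gᶜ) ∧ (∀ (m : ℕ) (z : ℂ), 3 / 4 ≤ ‖z‖ → τ m z = 1) ∧
    (∀ᵐ z ∂(volume.restrict G), Tendsto (fun m => τ m z) atTop (𝓝 1)) ∧
    (∀ m, MemLp (fun z => (κ z : ℂ) * gr (τ m) z) 2 volume) ∧
    Tendsto (fun m => eLpNorm (fun z => (κ z : ℂ) * gr (τ m) z) 2 volume) atTop (𝓝 0)

/-- the weight `κ` and the coefficient `μ` [2]: `κ² ~ σ = (1-μ)/(1+μ)` -/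
structure Wt (G : Set ℂ) (μ κ : ℂ → ℝ) : Prop where
  meas : Measurable κ
  cont : ContinuousOn κ G
  pos : ∀ z ∈ G, 0 < κ z
  lo : ∀ z, 0 ≤ κ z
  hi : ∀ z, κ z ≤ 1
  off : ∀ z, z ∉ G → κ z = 0
  one : ∀ z : ℂ, 3 / 4 ≤ ‖z‖ → κ z = 1
  cmp : ∃ c C : ℝ, 0 < c ∧ ∀ z ∈ G, c * κ z ^ 2 ≤ 1 - μ z ∧ 1 - μ z ≤ C * κ z ^ 2
  cut : Cut G κ

/-- the function `κ` of the conductivity `γ` [2] -/
structure KP (G : Set ℂ) (γ κ : ℂ → ℝ) (Kg : ℂ → ℂ) : Prop where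
  meas : Measurable κ
  cont : ContinuousOn κ G
  pos : ∀ z ∈ G, 0 < κ z
  lo : ∀ z, 0 ≤ κ z
  hi : ∀ z, κ z ≤ 1
  off : ∀ z, z ∉ G → κ z = 0
  one : ∀ z : ℂ, 3 / 4 ≤ ‖z‖ → κ z = 1
  wg : WG univ κ Kg
  l2 : MemLp Kg 2 volume
  inh : InH G (5 / 8) κ Kg
  sol : WSol (G ∩ ball 0 (5 / 8)) γ Kg
  cut : Cut G κ

/-- the coefficient of `γ κ²` -/
def muk (γ κ : ℂ → ℝ) (z : ℂ) : ℝ := (1 - γ z * κ z ^ 2) / (1 + γ z * κ z ^ 2)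

/-! ## Complex geometrical optics solutions: the limit structure [5, 6] -/

/-- `F^c = (Re c) X + (Im c) Y` -/
def FF (X Y : ℂ → ℂ → ℂ) (c z k : ℂ) : ℂ := (c.re : ℂ) * X z k + (c.im : ℂ) * Y z k

/-- `Λ_θ`, a logarithm of `U_θ = Re (e^{-iθ} X) - i Re (e^{-iθ} Y)` -/
def Lam (X Y g : ℂ → ℂ → ℂ) (θ : ℝ) (z k : ℂ) : ℂ :=
  -(I * (θ : ℂ)) - (Real.log 2 : ℂ) + g z k + Complex.log (1 - I * (Y z k / X z k)) +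
    Complex.log (1 + exp (2 * I * (θ : ℂ)) * conj (X z k + I * Y z k) / (X z k - I * Y z k))

/-- `a^c(k)`: `F^c = e^{ikz} (c + a^c/z + ...)` -/
def ac (X Y : ℂ → ℂ → ℂ) (c k : ℂ) : ℂ :=
  (1 / (2 * (Real.pi : ℂ) * I)) * ∮ z in C(0, 2), exp (-(I * k * z)) * FF X Y c z k

/-- `τ_c = i a^c - a^{ic}` -/
def tc (X Y : ℂ → ℂ → ℂ) (c k : ℂ) : ℂ := I * ac X Y c k - ac X Y (I * c) k

/-- the coefficients of the equation in `k` -/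
def cA (X Y : ℂ → ℂ → ℂ) (k : ℂ) : ℂ := (tc X Y 1 k - I * tc X Y I k) / 2
def cB (X Y : ℂ → ℂ → ℂ) (k : ℂ) : ℂ := (conj (tc X Y 1 k) - I * conj (tc X Y I k)) / 2

/-- weak form of `2 ∂h/∂k̄ = A + B e^{-2 i Im h}` on the whole `k`-plane -/
def KE (A B h : ℂ → ℂ) : Prop :=
  ∀ φ : ℂ → ℂ, TF univ φ → ∫ k, h k * db φ k = - ∫ k, (A k + B k * exp (-(2 * I * ((h k).im : ℂ)))) / 2 * φ k

/-- The solutions `X = F¹`, `Y = F^i` and the logarithm `g` of `X` of the coefficient `μ` on `G`. -/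
structure LS (G : Set ℂ) (μ : ℂ → ℝ) (X Y g : ℂ → ℂ → ℂ) : Prop where
  cX : ContinuousOn (fun p : ℂ × ℂ => X p.1 p.2) (G ×ˢ univ)
  cY : ContinuousOn (fun p : ℂ × ℂ => Y p.1 p.2) (G ×ˢ univ)
  cg : ContinuousOn (fun p : ℂ × ℂ => g p.1 p.2) (G ×ˢ univ)
  eg : ∀ z ∈ G, ∀ k, exp (g z k) = X z k
  z0 : ∀ z ∈ G, X z 0 = 1 ∧ Y z 0 = I ∧ g z 0 = 0
  cl : ∀ k, Cl G μ (fun z => X z k) ∧ Cl G μ (fun z => Y z k)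
  bd : ∃ C : ℝ, ∀ z ∈ G, ∀ k c : ℂ, ‖c‖ = 1 → Real.exp (-(C * (1 + ‖k‖) * (1 + ‖z‖))) ≤ ‖FF X Y c z k‖ ∧
    ‖FF X Y c z k‖ ≤ Real.exp (C * (1 + ‖k‖) * (1 + ‖z‖)) ∧ ‖g z k‖ ≤ C * (1 + ‖k‖) * (1 + ‖z‖)
  asy : ∃ C : ℝ, ∀ z : ℂ, 2 ≤ ‖z‖ → ∀ k : ℂ, ‖g z k - I * k * z‖ ≤ C * ‖k‖ / ‖z‖ ∧
    ∀ c : ℂ, ‖c‖ = 1 → ∃ d : ℂ, ‖d‖ ≤ C * ‖k‖ / ‖z‖ ∧ FF X Y c z k = c * exp (I * k * z + d)
  en : ∀ K : Set ℂ, IsCompact K → K ⊆ G → ∃ C : ℝ, ∀ (k c : ℂ) (A B : ℂ → ℂ), ‖c‖ = 1 → WD G (fun z => FF X Y c z k) A B →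
    IntegrableOn (fun z => ‖A z‖ ^ 2 / ‖FF X Y c z k‖ ^ 2) K volume ∧ ∫ z in K, ‖A z‖ ^ 2 / ‖FF X Y c z k‖ ^ 2 ≤ C * ‖k‖ ^ 2
  deg : ∀ k : ℂ, k ≠ 0 → ∀ A B : ℂ → ℂ, WD G (fun z => g z k) A B → ∀ η ψ : ℂ → ℝ, RTF G η → (∀ z, 0 ≤ η z ∧ η z ≤ 1) →
    RTF univ ψ → (∀ z, 0 ≤ ψ z) → ∫ z, η z * ψ (g z k) * (‖A z‖ ^ 2 - ‖B z‖ ^ 2) ≤ ∫ z, ψ z
  keq : ∀ θ : ℝ, 0 ≤ θ → θ ≤ Real.pi / 2 → ∀ z ∈ G, KE (cA X Y) (cB X Y) (fun k => Lam X Y g θ z k)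

end

end Cal
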