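import Pool.Agent.Lib.MP_4ea4c7_an.FDefs

/-!
# MP_4ea4c7_an: regularity of the boundary
-/

open MeasureTheory Complex Metric Set
open scoped ENNReal ComplexConjugate

namespace LocalCalderon

noncomputable section

/-- `Ω` has a boundary of class `C^n`: near every boundary point `p`, after a rigid motion which takes `p` to the origin (new coordinates `x = Re (ā (z - p))`, `y = Im (ā (z - p))`, `|a| = 1`),
`Ω` is the set of the points above the graph of a `C^n` function `h`. (`n = ∞`: `C^∞` boundary; `n = 0`: `h` is only continuous.) -/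
def HasBoundary (n : WithTop ℕ∞) (Ω : Set ℂ) : Prop :=
  ∀ p ∈ frontier Ω, ∃ (r : ℝ) (a : ℂ) (h : ℝ → ℝ), 0 < r ∧ ‖a‖ = 1 ∧ ContDiff ℝ n h ∧
    ∀ z ∈ ball p r, (z ∈ Ω ↔ h ((conj a * (z - p)).re) < (conj a * (z - p)).im)

end

end LocalCalderon
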