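import Pool.Agent.Lib.MP_4ea4c7_an.StmG
import Pool.Agent.Lib.MP_4ea4c7_an.FDefs2
import Pool.Agent.Lib.MP_4ea4c7_an.DefsH

/-!
# Statements, part H0: stage 2, geometry, inversion, transfer, final theorem (section 0 of the paper)

Every `S_xx : Prop` is one piece; the pieces it needs are hypotheses of the theorem to be proved (see the request). Complete informal proofs are in the docstrings.
-/

open MeasureTheory Complex Metric Set Filter Topology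
open scoped ComplexConjugate ENNReal NNReal

namespace Cal

open LocalCalderon

noncomputable section

/-- the inversion `z ↦ t/(z-q)` -/
def ginv (q : ℂ) (t : ℝ) (z : ℂ) : ℂ := (t : ℂ) / (z - q)

/-- [g4] Inversion. Proof. `M = ginv q t` is a homeomorphism of `{q}ᶜ` onto `{0}ᶜ` with inverse `Θ w = q + t/w`; it maps open subsets of `{q}ᶜ` to open sets and connected sets to connected sets. Note `q ∉ Ω`, `q ∈ B`. Write `Ω₁ = M '' Ω`, `G = M '' ((Ω ∪ B) \ {q})`. `Ω₁` and `G` are open; `Ω₁` is connected.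
`(Ω ∪ B) \ {q} = Ω ∪ (B \ {q})`: `B \ {q}` is connected (`B` open convex in the plane: e.g. two points of `B \ {q}` are joined by a segment, or by two segments through a third point of `B` off the line through them if the segment contains `q`; or `B` is open connected and a point does not disconnect), it meets `Ω` (a point of `Ω ∩ B`), so the union is connected (`IsConnected.union`).
`Ω₁ ⊆ ball 0 (1/2)`: for `z ∈ Ω`: `‖z - q‖ ≥ 3 t`, so `‖M z‖ ≤ 1/3`. `{1/2 ≤ ‖z‖} ⊆ G`: `w = q + t/z` has `0 < ‖w - q‖ ≤ 2 t < 3 t`, so `w ∈ B \ {q}`, `M w = z`. -/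
def S_ginv : Prop := ∀ (Ω B : Set ℂ) (q : ℂ) (t : ℝ), IsOpen Ω → IsConnected Ω → IsOpen B → Convex ℝ B → (Ω ∩ B).Nonempty →
  0 < t → ball q (3 * t) ⊆ B → Disjoint (ball q (3 * t)) Ω → Pos (ginv q t '' Ω) (ginv q t '' ((Ω ∪ B) \ {q}))

/-- [g5] Normalised position. Proof: `Γ = O ∩ frontier Ω`, `p ∈ Γ` in the closure of the exterior `(closure Ω)ᶜ`, `ε > 0` with `closedBall p ε ⊆ O`, `B = ball p ε`. There is `q ∈ B`, `q ∉ closure Ω`, and `s > 0` with `ball q s ⊆ B \ closure Ω`; `t = s/3`. `Ω ∩ B` is nonempty (`p ∈ closure Ω`). `S_ginv`: `Pos (M '' Ω) G` with `M = ginv q t`, `G = M '' ((Ω ∪ B) \ {q})`.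
`K = M '' (closedBall p ε ∩ frontier Ω)`: compact (`M` is continuous off `q`, `q ∉ frontier Ω`), contained in `M '' Γ`. `frontier (M '' Ω) = M '' frontier Ω` (`S_mtr` with `W = {q}ᶜ`, (2)); a point of `G ∩ frontier (M '' Ω)` is `M w = M w'` with `w ∈ (Ω ∪ B) \ {q}`, `w' ∈ frontier Ω`,
so `w = w'` (injectivity on `{q}ᶜ`), `w ∉ Ω` (open), so `w ∈ B ∩ frontier Ω`. -/
def S_ggeo : Prop := ∀ Ω Γ : Set ℂ, IsOpen Ω → IsConnected Ω → Bornology.IsBounded Ω → OpenInBdry Ω Γ → (Γ ∩ closure (closure Ω)ᶜ).Nonempty →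
  ∃ (q : ℂ) (t : ℝ) (G K : Set ℂ), 0 < t ∧ q ∉ closure Ω ∧ Pos (ginv q t '' Ω) G ∧ IsCompact K ∧ K ⊆ ginv q t '' Γ ∧ G ∩ frontier (ginv q t '' Ω) ⊆ K

/-- [g9] Every boundary point of a domain with `C^n` boundary is in the closure of the exterior. Proof: chart `r, a, h` at `p`, `X = Re (conj a (z - p))`, `Y = Im (conj a (z - p))`. `p ∉ Ω` (`Ω` open, `p ∈ frontier Ω`), so `0 ≤ h 0`. For `0 < s < r` let `z_s = p - i a s` (`X = 0`, `Y = -s`, `‖z_s - p‖ = s`): `h X ≥ 0 > Y` at `z_s`; `z ↦ h X - Y` is continuous (`ContDiff.continuous`), so it is positive in a neighbourhood of `z_s`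
contained in `ball p r`; this neighbourhood does not meet `Ω`, so `z_s ∉ closure Ω`. `z_s → p` as `s → 0`. -/
def S_gsm : Prop := ∀ (n : WithTop ℕ∞) (Ω : Set ℂ), IsOpen Ω → HasBoundary n Ω → ∀ p ∈ frontier Ω, p ∈ closure (closure Ω)ᶜ

/-- [g6] Transport of the local data by a map `M` which is injective and holomorphic near `closure Ω`. Proof: `Ω₁ = M '' Ω`. `S_form` on `Ω`: `Beq Ω γ₁ γ₂ (wgrad Ω u) (wgrad Ω ψ)` for all `u, ψ ∈ H¹(Ω)` with `TraceIn Ω Γ`. For `u, ψ ∈ H¹(Ω₁)` with `TraceIn Ω₁ (M '' Γ)`: `S_mtr` (4), (6) gives `u ∘ M, ψ ∘ M ∈ H¹(Ω)` with `TraceIn Ω Γ` and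
`wgrad Ω (u ∘ M) = pull M (wgrad Ω₁ u)` a.e.; hence `Beq Ω γ₁ γ₂ (pull M (wgrad Ω₁ u)) (pull M (wgrad Ω₁ ψ))` (`S_cbeq` (2)), and by `S_cbeq` (1), (2) (`γ_j = g_j ∘ M` on `Ω`; `CB Ω (M '' Ω) M` from `S_mtr` (1)) `Beq Ω₁ g₁ g₂ (wgrad Ω₁ u) (wgrad Ω₁ ψ)`. `S_back2` on `Ω₁` (bounded, open, `OpenInBdry Ω₁ (M '' Γ)`: `S_mtr` (1), (3)). -/
def S_gdt : Prop := ∀ (c C : ℝ) (Ω Γ W : Set ℂ) (M : ℂ → ℂ) (γ₁ γ₂ g₁ g₂ : ℂ → ℝ), 0 < c → Cond c C γ₁ → Cond c C γ₂ → Cond c C g₁ → Cond c C g₂ →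
  IsOpen Ω → Bornology.IsBounded Ω → IsOpen W → closure Ω ⊆ W → DifferentiableOn ℂ M W → InjOn M W → OpenInBdry Ω Γ →
  (∀ z ∈ Ω, g₁ (M z) = γ₁ z) → (∀ z ∈ Ω, g₂ (M z) = γ₂ z) → cauchyData Ω Γ γ₁ = cauchyData Ω Γ γ₂ →
  cauchyData (M '' Ω) (M '' Γ) g₁ = cauchyData (M '' Ω) (M '' Γ) g₂

/-- [g7] From the local data to `TT`. Proof. Let `u, U` with `InH G (5/8) u U` and `WSol (G ∩ ball 0 (5/8)) γ₁ U`. Let `χ` be a test function of `ball 0 (5/8)`, `χ = 1` on a neighbourhood of `closedBall 0 (1/2) ⊇ closure Ω`; `a = χ u`, `A = χ U + u gr χ`: `H0 G a A`; `a = u`, `A = U` on a neighbourhood of `closure Ω` (pointwise). `A` is the weak gradient of `a` on `ℂ` (limit of the identity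
`∫ φ_n gr φ = - ∫ φ gr φ_n` for the approximating test functions), so `H1 Ω u` and `wgrad Ω u = U` a.e. on `Ω` (`S_h1` (2)). (1) `IsSol Ω γ₁ u`: test functions of `Ω` are test functions of `G ∩ ball 0 (5/8)`, `dot = ip`. (2) `TraceIn Ω Γ u` with the compact set `K`: let `η` be a test function of the plane whose support does not meet `K`; let `φ ∈ RTF G` with `‖a - φ‖₂ < ε`, `‖A - gr φ‖₂ < ε`.
`S = tsupport η ∩ tsupport φ ∩ closure Ω` is compact and contained in `Ω` (a point of `S` in `frontier Ω` would be in `G ∩ frontier Ω ⊆ K`, but `tsupport η` does not meet `K`). Let `ζ` be a test function of `Ω`, `ζ = 1` on a neighbourhood of `S`: `ψ = ζ η φ` is a test function of `Ω` and `ψ = η φ` on `Ω`. `‖η u - ψ‖_{L²(Ω)} ≤ sup|η| ε`, `‖(η U + u gr η) - gr ψ‖_{L²(Ω)} ≤ (sup|η| + sup|gr η|) ε`, and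
`wgrad Ω (η u) = η U + u gr η` a.e. (`S_h1` (5)). So `H10 Ω (η u)`. (3) So the pair of `u` is in `cauchyData Ω Γ γ₁ = cauchyData Ω Γ γ₂`: there is `u₂` with `IsSol Ω γ₂ u₂`, `TraceIn Ω Γ u₂`, the same class and the same functional. `SameTrace Ω Γ u₂ u` (`S_trc` (5): `u` is in the class), so `D = u₂ - u ∈ H¹₀(Ω)` (`S_trc` (3), (1)). Put `D' = D` on `Ω`, `0` off `Ω`, `E' = wgrad Ω D` on `Ω`, `0` off `Ω`: `H0 Ω D' E'`
(the integrals over `ℂ` are integrals over `Ω`; `≤ ofReal (ε/2) < ofReal ε`). `u' = u + D'`, `U' = U + E'` (so `u' - u = D'`, `U' - U = E'` as functions). `U' = wgrad Ω u₂` a.e. on `Ω` (`S_h1` (3), (4)). (4) Let `φ` be a test function of `G ∩ ball 0 (5/8)`. `φ` is in `H¹(Ω)` (`S_h1` (7)) and `TraceIn Ω Γ φ` with the set `K` (as in (2): `ζ η φ = η φ` on `Ω` is a test function of `Ω`). The functionals agree at `φ`: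
`∫_Ω γ₁ ip U (gr φ) = ∫_Ω γ₂ ip U' (gr φ)`. Off `Ω`: `γ₁ = γ₂`, `U' = U`. The integrands over `ℂ` are integrable (`γ_j` bounded measurable; `U = χ' U + u gr χ'` in `L²` on `tsupport φ`, for a test function `χ'` of `ball 0 (5/8)` with `χ' = 1` near `tsupport φ`; `E' ∈ L²`). So `∫ γ₂ ip U' (gr φ) = ∫ γ₁ ip U (gr φ) = 0`. -/
def S_gtt : Prop := ∀ (c C : ℝ) (Ω G Γ K : Set ℂ) (γ₁ γ₂ : ℂ → ℝ), 0 < c → Cond c C γ₁ → Cond c C γ₂ → IsOpen Ω → IsOpen G → Ω ⊆ ball 0 (1 / 2) → Ω ⊆ G →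
  OpenInBdry Ω Γ → IsCompact K → K ⊆ Γ → G ∩ frontier Ω ⊆ K → (∀ z, z ∉ Ω → γ₁ z = γ₂ z) → cauchyData Ω Γ γ₁ = cauchyData Ω Γ γ₂ → TT Ω G γ₁ γ₂

/-- the main theorem in normalised position (sections 2-10, helper49) -/
def S_mainN : Prop := ∀ (Ω G : Set ℂ) (c C : ℝ) (γ₁ γ₂ : ℂ → ℝ), Pos Ω G → 0 < c → Cond c C γ₁ → Cond c C γ₂ → (∀ z, z ∉ Ω → γ₁ z = 1) → (∀ z, z ∉ Ω → γ₂ z = 1) →
  TT Ω G γ₁ γ₂ → ∀ᵐ z ∂(volume.restrict Ω), γ₁ z = γ₂ z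

/-- The final theorem of stage 2 (general form): no regularity of the boundary; `Γ` only has to contain a point of the closure of the exterior `(closure Ω)ᶜ`. -/
def S_final3 : Prop := ∀ (Ω Γ : Set ℂ) (γ₁ γ₂ : ℂ → ℝ), IsOpen Ω → IsConnected Ω → Bornology.IsBounded Ω → OpenInBdry Ω Γ → (Γ ∩ closure (closure Ω)ᶜ).Nonempty →
  IsConductivity Ω γ₁ → IsConductivity Ω γ₂ → cauchyData Ω Γ γ₁ = cauchyData Ω Γ γ₂ → γ₁ =ᵐ[volume.restrict Ω] γ₂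

/- [g8] `S_final3`. Proof: `S_norm` (1): constants `0 < c ≤ 1 ≤ C` (common, decrease `c`, increase `C`) and `γ_j'` with `Cond c C γ_j'`, `γ_j = γ_j'` a.e. on `Ω`; `S_norm` (2): `cauchyData Ω Γ γ₁' = cauchyData Ω Γ γ₂'`. `S_ggeo`: `q, t, G, K`; `M = ginv q t`, `W = {q}ᶜ`, `Ω₁ = M '' Ω`, `Θ w = q + t/w`.
`g_j w = γ_j' (Θ w)` for `w ∈ Ω₁`, `1` otherwise: `Cond c C g_j` (`Ω₁` is open, `Θ` is measurable), `g_j (M z) = γ_j' z` on `Ω`. `S_gdt`: equal data on `Ω₁`, `M '' Γ`. `OpenInBdry Ω₁ (M '' Γ)`: `S_mtr` (3). `S_gtt` (`Pos` gives the inclusions): `TT Ω₁ G g₁ g₂`. `S_mainN`: `g₁ = g₂` a.e. on `Ω₁`. So `γ₁' = γ₂'` a.e. on `Ω`: the exceptional set is contained in the image under `Θ` (differentiable on `{0}ᶜ`) of a null set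
(`MeasureTheory.addHaar_image_eq_zero_of_differentiableOn_of_addHaar_eq_zero`). -/

/-- Q1 verbatim (from `S_final3` and `S_gsm`). -/
def S_Q1 : Prop := ∀ (n : WithTop ℕ∞) (Ω Γ : Set ℂ) (γ₁ γ₂ : ℂ → ℝ), IsOpen Ω → IsConnected Ω → Bornology.IsBounded Ω → HasBoundary n Ω → OpenInBdry Ω Γ → Γ.Nonempty →
  IsConductivity Ω γ₁ → IsConductivity Ω γ₂ → cauchyData Ω Γ γ₁ = cauchyData Ω Γ γ₂ → γ₁ =ᵐ[volume.restrict Ω] γ₂

theorem piece_Q1 (h1 : S_final3) (h2 : S_gsm) : S_Q1 := by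
  intro n Ω Γ γ₁ γ₂ hO hc hb hB hΓ hne hg1 hg2 hd
  obtain ⟨p, hp⟩ := hne
  obtain ⟨O, hOo, hGO⟩ := hΓ
  refine h1 Ω Γ γ₁ γ₂ hO hc hb ⟨O, hOo, hGO⟩ ⟨p, hp, ?_⟩ hg1 hg2 hd
  refine h2 n Ω hO hB p ?_
  rw [hGO] at hp
  exact hp.2

end

end Cal
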