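import Pool.Agent.Lib.MP_4ea4c7_an.P_C1
import Pool.Agent.Lib.MP_4ea4c7_an.P_C2
import Pool.Agent.Lib.MP_4ea4c7_an.P_C3a
import Pool.Agent.Lib.MP_4ea4c7_an.P_C3b
import Pool.Agent.Lib.MP_4ea4c7_an.P_C4
import Pool.Agent.Lib.MP_4ea4c7_an.P_C5
import Pool.Agent.Lib.MP_4ea4c7_an.P_CL
import Pool.Agent.Lib.MP_4ea4c7_an.P_Tlem
import Pool.Agent.Lib.MP_4ea4c7_an.P_acl
import Pool.Agent.Lib.MP_4ea4c7_an.P_aconj
import Pool.Agent.Lib.MP_4ea4c7_an.P_aconst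
import Pool.Agent.Lib.MP_4ea4c7_an.P_alsc
import Pool.Agent.Lib.MP_4ea4c7_an.P_amollmu
import Pool.Agent.Lib.MP_4ea4c7_an.P_amp
import Pool.Agent.Lib.MP_4ea4c7_an.P_apl
import Pool.Agent.Lib.MP_4ea4c7_an.P_areg
import Pool.Agent.Lib.MP_4ea4c7_an.P_areg4
import Pool.Agent.Lib.MP_4ea4c7_an.P_aregb
import Pool.Agent.Lib.MP_4ea4c7_an.P_asolve
import Pool.Agent.Lib.MP_4ea4c7_an.P_astab
import Pool.Agent.Lib.MP_4ea4c7_an.P_aucp
import Pool.Agent.Lib.MP_4ea4c7_an.P_aucp1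
import Pool.Agent.Lib.MP_4ea4c7_an.P_aucpb
import Pool.Agent.Lib.MP_4ea4c7_an.P_awlim
import Pool.Agent.Lib.MP_4ea4c7_an.P_awlimB
import Pool.Agent.Lib.MP_4ea4c7_an.P_baa
import Pool.Agent.Lib.MP_4ea4c7_an.P_back2
import Pool.Agent.Lib.MP_4ea4c7_an.P_barea
import Pool.Agent.Lib.MP_4ea4c7_an.P_basic
import Pool.Agent.Lib.MP_4ea4c7_an.P_bcmp
import Pool.Agent.Lib.MP_4ea4c7_an.P_bdeg
import Pool.Agent.Lib.MP_4ea4c7_an.P_bdeglim
import Pool.Agent.Lib.MP_4ea4c7_an.P_bdegloc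
import Pool.Agent.Lib.MP_4ea4c7_an.P_bdegtot
import Pool.Agent.Lib.MP_4ea4c7_an.P_bext
import Pool.Agent.Lib.MP_4ea4c7_an.P_bgr
import Pool.Agent.Lib.MP_4ea4c7_an.P_bkmod
import Pool.Agent.Lib.MP_4ea4c7_an.P_blog
import Pool.Agent.Lib.MP_4ea4c7_an.P_blogu
import Pool.Agent.Lib.MP_4ea4c7_an.P_bnd
import Pool.Agent.Lib.MP_4ea4c7_an.P_bpp
import Pool.Agent.Lib.MP_4ea4c7_an.P_bridge
import Pool.Agent.Lib.MP_4ea4c7_an.P_bsim
import Pool.Agent.Lib.MP_4ea4c7_an.P_bump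
import Pool.Agent.Lib.MP_4ea4c7_an.P_bwd
import Pool.Agent.Lib.MP_4ea4c7_an.P_bwlog
import Pool.Agent.Lib.MP_4ea4c7_an.P_cF
import Pool.Agent.Lib.MP_4ea4c7_an.P_cac
import Pool.Agent.Lib.MP_4ea4c7_an.P_calg
import Pool.Agent.Lib.MP_4ea4c7_an.P_capri
import Pool.Agent.Lib.MP_4ea4c7_an.P_cbd
import Pool.Agent.Lib.MP_4ea4c7_an.P_cbeq
import Pool.Agent.Lib.MP_4ea4c7_an.P_cdeg
import Pool.Agent.Lib.MP_4ea4c7_an.P_chain
import Pool.Agent.Lib.MP_4ea4c7_an.P_cid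
import Pool.Agent.Lib.MP_4ea4c7_an.P_cim
import Pool.Agent.Lib.MP_4ea4c7_an.P_cinv
import Pool.Agent.Lib.MP_4ea4c7_an.P_ckeq
import Pool.Agent.Lib.MP_4ea4c7_an.P_clog
import Pool.Agent.Lib.MP_4ea4c7_an.P_cns
import Pool.Agent.Lib.MP_4ea4c7_an.P_cnz
import Pool.Agent.Lib.MP_4ea4c7_an.P_csls
import Pool.Agent.Lib.MP_4ea4c7_an.P_csolve
import Pool.Agent.Lib.MP_4ea4c7_an.P_ctf
import Pool.Agent.Lib.MP_4ea4c7_an.P_cv
import Pool.Agent.Lib.MP_4ea4c7_an.P_cwg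
import Pool.Agent.Lib.MP_4ea4c7_an.P_dLL
import Pool.Agent.Lib.MP_4ea4c7_an.P_dapx
import Pool.Agent.Lib.MP_4ea4c7_an.P_dbd
import Pool.Agent.Lib.MP_4ea4c7_an.P_dcab
import Pool.Agent.Lib.MP_4ea4c7_an.P_dcl
import Pool.Agent.Lib.MP_4ea4c7_an.P_ddeg
import Pool.Agent.Lib.MP_4ea4c7_an.P_den
import Pool.Agent.Lib.MP_4ea4c7_an.P_dk
import Pool.Agent.Lib.MP_4ea4c7_an.P_dkeq
import Pool.Agent.Lib.MP_4ea4c7_an.P_dloc
import Pool.Agent.Lib.MP_4ea4c7_an.P_dmu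
import Pool.Agent.Lib.MP_4ea4c7_an.P_dnex
import Pool.Agent.Lib.MP_4ea4c7_an.P_dwd
import Pool.Agent.Lib.MP_4ea4c7_an.P_einv
import Pool.Agent.Lib.MP_4ea4c7_an.P_eucb
import Pool.Agent.Lib.MP_4ea4c7_an.P_exLS
import Pool.Agent.Lib.MP_4ea4c7_an.P_final3
import Pool.Agent.Lib.MP_4ea4c7_an.P_form
import Pool.Agent.Lib.MP_4ea4c7_an.P_gdt
import Pool.Agent.Lib.MP_4ea4c7_an.P_ggeo
import Pool.Agent.Lib.MP_4ea4c7_an.P_ginv
import Pool.Agent.Lib.MP_4ea4c7_an.P_glue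
import Pool.Agent.Lib.MP_4ea4c7_an.P_gsm
import Pool.Agent.Lib.MP_4ea4c7_an.P_gtt
import Pool.Agent.Lib.MP_4ea4c7_an.P_h1
import Pool.Agent.Lib.MP_4ea4c7_an.P_h10
import Pool.Agent.Lib.MP_4ea4c7_an.P_k25
import Pool.Agent.Lib.MP_4ea4c7_an.P_k32
import Pool.Agent.Lib.MP_4ea4c7_an.P_kClE
import Pool.Agent.Lib.MP_4ea4c7_an.P_kCll
import Pool.Agent.Lib.MP_4ea4c7_an.P_kFt
import Pool.Agent.Lib.MP_4ea4c7_an.P_kH0
import Pool.Agent.Lib.MP_4ea4c7_an.P_kH0c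
import Pool.Agent.Lib.MP_4ea4c7_an.P_kH0p
import Pool.Agent.Lib.MP_4ea4c7_an.P_kJ0
import Pool.Agent.Lib.MP_4ea4c7_an.P_kKP
import Pool.Agent.Lib.MP_4ea4c7_an.P_kNAT
import Pool.Agent.Lib.MP_4ea4c7_an.P_kap
import Pool.Agent.Lib.MP_4ea4c7_an.P_kbd
import Pool.Agent.Lib.MP_4ea4c7_an.P_kcalc
import Pool.Agent.Lib.MP_4ea4c7_an.P_kconj
import Pool.Agent.Lib.MP_4ea4c7_an.P_kcut1
import Pool.Agent.Lib.MP_4ea4c7_an.P_kcut2
import Pool.Agent.Lib.MP_4ea4c7_an.P_kex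
import Pool.Agent.Lib.MP_4ea4c7_an.P_kgeo
import Pool.Agent.Lib.MP_4ea4c7_an.P_kharn
import Pool.Agent.Lib.MP_4ea4c7_an.P_khat
import Pool.Agent.Lib.MP_4ea4c7_an.P_klog
import Pool.Agent.Lib.MP_4ea4c7_an.P_klow
import Pool.Agent.Lib.MP_4ea4c7_an.P_kmp
import Pool.Agent.Lib.MP_4ea4c7_an.P_knz
import Pool.Agent.Lib.MP_4ea4c7_an.P_kplane
import Pool.Agent.Lib.MP_4ea4c7_an.P_kqe
import Pool.Agent.Lib.MP_4ea4c7_an.P_kqw
import Pool.Agent.Lib.MP_4ea4c7_an.P_kreg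
import Pool.Agent.Lib.MP_4ea4c7_an.P_kstr
import Pool.Agent.Lib.MP_4ea4c7_an.P_ktr
import Pool.Agent.Lib.MP_4ea4c7_an.P_ktst
import Pool.Agent.Lib.MP_4ea4c7_an.P_ktst0
import Pool.Agent.Lib.MP_4ea4c7_an.P_ku1
import Pool.Agent.Lib.MP_4ea4c7_an.P_ku1s
import Pool.Agent.Lib.MP_4ea4c7_an.P_ku2b
import Pool.Agent.Lib.MP_4ea4c7_an.P_kuni
import Pool.Agent.Lib.MP_4ea4c7_an.P_kwmp
import Pool.Agent.Lib.MP_4ea4c7_an.P_kwt
import Pool.Agent.Lib.MP_4ea4c7_an.P_last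
import Pool.Agent.Lib.MP_4ea4c7_an.P_lift
import Pool.Agent.Lib.MP_4ea4c7_an.P_loc
import Pool.Agent.Lib.MP_4ea4c7_an.P_mainN
import Pool.Agent.Lib.MP_4ea4c7_an.P_moll
import Pool.Agent.Lib.MP_4ea4c7_an.P_mtr
import Pool.Agent.Lib.MP_4ea4c7_an.P_nAVG
import Pool.Agent.Lib.MP_4ea4c7_an.P_nLamEq
import Pool.Agent.Lib.MP_4ea4c7_an.P_nNeq
import Pool.Agent.Lib.MP_4ea4c7_an.P_nNfar
import Pool.Agent.Lib.MP_4ea4c7_an.P_nNloc
import Pool.Agent.Lib.MP_4ea4c7_an.P_nXY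
import Pool.Agent.Lib.MP_4ea4c7_an.P_nalg
import Pool.Agent.Lib.MP_4ea4c7_an.P_nasy
import Pool.Agent.Lib.MP_4ea4c7_an.P_nclosed
import Pool.Agent.Lib.MP_4ea4c7_an.P_ncoef
import Pool.Agent.Lib.MP_4ea4c7_an.P_ncont
import Pool.Agent.Lib.MP_4ea4c7_an.P_nest
import Pool.Agent.Lib.MP_4ea4c7_an.P_nfac
import Pool.Agent.Lib.MP_4ea4c7_an.P_nfar
import Pool.Agent.Lib.MP_4ea4c7_an.P_ninj
import Pool.Agent.Lib.MP_4ea4c7_an.P_ninjc
import Pool.Agent.Lib.MP_4ea4c7_an.P_nkd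
import Pool.Agent.Lib.MP_4ea4c7_an.P_nlam
import Pool.Agent.Lib.MP_4ea4c7_an.P_nlim
import Pool.Agent.Lib.MP_4ea4c7_an.P_nlog
import Pool.Agent.Lib.MP_4ea4c7_an.P_nlow
import Pool.Agent.Lib.MP_4ea4c7_an.P_nlwd
import Pool.Agent.Lib.MP_4ea4c7_an.P_nmu
import Pool.Agent.Lib.MP_4ea4c7_an.P_nopen
import Pool.Agent.Lib.MP_4ea4c7_an.P_norm
import Pool.Agent.Lib.MP_4ea4c7_an.P_nsep
import Pool.Agent.Lib.MP_4ea4c7_an.P_nsepfar
import Pool.Agent.Lib.MP_4ea4c7_an.P_nuni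
import Pool.Agent.Lib.MP_4ea4c7_an.P_poin
import Pool.Agent.Lib.MP_4ea4c7_an.P_pomp
import Pool.Agent.Lib.MP_4ea4c7_an.P_prod
import Pool.Agent.Lib.MP_4ea4c7_an.P_smooth
import Pool.Agent.Lib.MP_4ea4c7_an.P_trc
import Pool.Agent.Lib.MP_4ea4c7_an.P_uniq
import Pool.Agent.Lib.MP_4ea4c7_an.P_wedge
import Pool.Agent.Lib.MP_4ea4c7_an.P_weyl
import Pool.Agent.Lib.MP_4ea4c7_an.P_wuniq
import Pool.Agent.Lib.MP_4ea4c7_an.StmH0
import Pool.Agent.Lib.MP_4ea4c7_an.StmH8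

/-! # MP_4ea4c7_an: assembly of all pieces -/

namespace Cal

theorem t_ginv : S_ginv := piece_ginv 
theorem t_cinv : S_cinv := piece_cinv 
theorem t_cv : S_cv := piece_cv t_cinv
theorem t_ctf : S_ctf := piece_ctf t_cinv
theorem t_bridge : S_bridge := piece_bridge 
theorem t_cwg : S_cwg := piece_cwg t_cinv t_cv t_ctf t_bridge
theorem t_h1 : S_h1 := piece_h1 t_bridge
theorem t_poin : S_poin := piece_poin 
theorem t_bump : S_bump := piece_bump 
theorem t_moll : S_moll := piece_moll t_bump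
theorem t_h10 : S_h10 := piece_h10 t_h1 t_poin t_moll t_bridge
theorem t_mtr : S_mtr := piece_mtr t_cinv t_cv t_ctf t_cwg t_h1 t_h10
theorem t_ggeo : S_ggeo := piece_ggeo t_ginv t_mtr
theorem t_trc : S_trc := piece_trc t_h1 t_h10
theorem t_dnex : S_dnex := piece_dnex 
theorem t_lift : S_lift := piece_lift t_h1 t_h10 t_dnex
theorem t_form : S_form := piece_form t_h1 t_h10 t_trc t_lift t_dnex
theorem t_cbeq : S_cbeq := piece_cbeq t_cv t_ctf
theorem t_back2 : S_back2 := piece_back2 t_h10 t_trc t_lift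
theorem t_gdt : S_gdt := piece_gdt t_form t_mtr t_cbeq t_back2
theorem t_gtt : S_gtt := piece_gtt t_h1 t_h10 t_trc
theorem t_kgeo : S_kgeo := piece_kgeo 
theorem t_kH0 : S_kH0 := piece_kH0 t_bridge
theorem t_kH0p : S_kH0p := piece_kH0p t_poin t_bridge
theorem t_ktst0 : S_ktst0 := piece_ktst0 
theorem t_kex : S_kex := piece_kex t_dnex t_kH0 t_kH0p t_ktst0
theorem t_bgr : S_bgr := piece_bgr 
theorem t_basic : S_basic := piece_basic 
theorem t_smooth : S_smooth := piece_smooth 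
theorem t_glue : S_glue := piece_glue 
theorem t_chain : S_chain := piece_chain t_moll t_basic t_smooth
theorem t_prod : S_prod := piece_prod t_moll t_basic t_smooth
theorem t_wuniq : S_wuniq := piece_wuniq 
theorem t_kcalc : S_kcalc := piece_kcalc t_bridge t_basic t_smooth t_glue t_chain t_prod t_wuniq
theorem t_weyl : S_weyl := piece_weyl t_bump
theorem t_aconst : S_aconst := piece_aconst t_weyl t_smooth t_bridge t_wuniq
theorem t_C1 : S_C1 := piece_C1 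
theorem t_pomp : S_pomp := piece_pomp 
theorem t_C2 : S_C2 := piece_C2 t_C1 t_pomp
theorem t_C3a : S_C3a := piece_C3a 
theorem t_C3b : S_C3b := piece_C3b t_bump t_basic t_smooth t_C1 t_C2 t_C3a
theorem t_aconj : S_aconj := piece_aconj t_bump t_moll t_bridge t_basic t_smooth t_aconst t_weyl t_C3b t_glue
theorem t_kconj : S_kconj := piece_kconj t_aconj t_bridge t_basic
theorem t_C5 : S_C5 := piece_C5 t_C3a
theorem t_uniq : S_uniq := piece_uniq t_basic t_smooth t_wuniq t_weyl t_C3a t_C3b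
theorem t_asolve : S_asolve := piece_asolve t_basic t_smooth t_wuniq t_C3a t_C3b
theorem t_astab : S_astab := piece_astab t_basic t_smooth t_wuniq t_C3a t_C3b
theorem t_areg4 : S_areg4 := piece_areg4 t_basic t_smooth t_prod t_uniq t_C3a t_C3b t_C5
theorem t_amollmu : S_amollmu := piece_amollmu t_bump
theorem t_wedge : S_wedge := piece_wedge t_moll t_bridge t_wuniq t_smooth t_basic
theorem t_amp : S_amp := piece_amp t_wedge t_chain t_smooth t_bridge t_basic t_glue t_wuniq t_aconst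
theorem t_CL : S_CL := piece_CL t_moll
theorem t_loc : S_loc := piece_loc 
theorem t_aregb : S_aregb := piece_aregb t_basic t_smooth t_wuniq t_C3a t_C3b t_C5 t_uniq t_asolve t_astab t_areg4 t_amollmu t_amp t_CL t_loc t_glue
theorem t_areg : S_areg := piece_areg t_basic t_weyl t_aregb
theorem t_kreg : S_kreg := piece_kreg t_kconj t_areg t_kcalc
theorem t_kH0c : S_kH0c := piece_kH0c t_bump t_kcalc t_bridge
theorem t_ktst : S_ktst := piece_ktst t_kcalc t_kH0c t_ktst0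
theorem t_kwmp : S_kwmp := piece_kwmp t_kcalc t_kH0c t_kH0p t_ktst
theorem t_kbd : S_kbd := piece_kbd t_kcalc t_kH0 t_kwmp
theorem t_kmp : S_kmp := piece_kmp t_kcalc t_kwmp
theorem t_klog : S_klog := piece_klog t_kcalc t_ktst
theorem t_acl : S_acl := piece_acl t_CL t_bridge
theorem t_kharn : S_kharn := piece_kharn t_kcalc t_kmp t_klog t_acl
theorem t_knz : S_knz := piece_knz t_kH0 t_kcalc
theorem t_khat : S_khat := piece_khat t_bgr t_kcalc t_kH0 t_kreg t_kbd t_kharn t_knz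
theorem t_kcut1 : S_kcut1 := piece_kcut1 t_kH0 t_bridge
theorem t_kcut2 : S_kcut2 := piece_kcut2 
theorem t_kKP : S_kKP := piece_kKP t_kH0 t_kcalc
theorem t_k25 : S_k25 := piece_k25 t_kH0 t_kex t_kgeo
theorem t_kap : S_kap := piece_kap t_kgeo t_kex t_khat t_kcut1 t_kcut2 t_kKP t_k25 t_kH0
theorem t_kwt : S_kwt := piece_kwt 
theorem t_C4 : S_C4 := piece_C4 
theorem t_capri : S_capri := piece_capri t_C4 t_C3b t_chain t_prod t_smooth t_basic t_uniq t_wuniq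
theorem t_csolve : S_csolve := piece_csolve t_capri t_C4 t_C3a
theorem t_cns : S_cns := piece_cns t_capri t_csolve t_C4
theorem t_cid : S_cid := piece_cid t_csolve t_C4
theorem t_cF : S_cF := piece_cF t_csolve t_C3b t_C4 t_smooth t_basic t_wuniq t_pomp t_weyl
theorem t_cnz : S_cnz := piece_cnz t_C3a t_C3b t_C4 t_chain t_prod t_smooth t_basic t_weyl
theorem t_clog : S_clog := piece_clog t_cnz t_cF
theorem t_bwlog : S_bwlog := piece_bwlog t_chain t_glue t_basic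
theorem t_barea : S_barea := piece_barea t_uniq t_wuniq t_smooth t_basic
theorem t_bext : S_bext := piece_bext 
theorem t_cbd : S_cbd := piece_cbd t_bwlog t_barea t_bext t_amp t_smooth t_basic t_wuniq
theorem t_bpp : S_bpp := piece_bpp 
theorem t_bdeg : S_bdeg := piece_bdeg t_bpp t_chain t_smooth t_prod t_bridge t_basic t_glue t_wedge
theorem t_bcmp : S_bcmp := piece_bcmp t_bdeg t_wuniq t_basic
theorem t_bdegtot : S_bdegtot := piece_bdegtot t_bcmp t_bdeg t_smooth t_basic t_bridge t_wuniq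
theorem t_cdeg : S_cdeg := piece_cdeg t_bdegtot t_bwlog t_wuniq t_basic
theorem t_cim : S_cim := piece_cim 
theorem t_cac : S_cac := piece_cac t_C4
theorem t_calg : S_calg := piece_calg 
theorem t_ckeq : S_ckeq := piece_ckeq t_calg
theorem t_csls : S_csls := piece_csls t_cns t_cid t_cF t_clog t_cbd t_cdeg t_cim t_cac t_ckeq t_C3a t_C4
theorem t_dmu : S_dmu := piece_dmu t_bump
theorem t_dloc : S_dloc := piece_dloc t_bwlog t_amp t_CL t_basic t_smooth t_wuniq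
theorem t_dcab : S_dcab := piece_dcab 
theorem t_bkmod : S_bkmod := piece_bkmod t_pomp t_bump
theorem t_dk : S_dk := piece_dk t_calg t_dcab t_bkmod
theorem t_baa : S_baa := piece_baa 
theorem t_blogu : S_blogu := piece_blogu 
theorem t_blog : S_blog := piece_blog t_blogu
theorem t_dapx : S_dapx := piece_dapx t_csls t_dmu t_dloc t_dk t_baa t_blog
theorem t_dbd : S_dbd := piece_dbd t_cim
theorem t_awlim : S_awlim := piece_awlim t_basic t_wuniq t_bump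
theorem t_awlimB : S_awlimB := piece_awlimB 
theorem t_dwd : S_dwd := piece_dwd t_dloc t_awlim t_awlimB t_basic t_wuniq
theorem t_alsc : S_alsc := piece_alsc 
theorem t_dcl : S_dcl := piece_dcl t_dwd t_alsc t_weyl t_dbd t_basic t_wuniq
theorem t_den : S_den := piece_den t_dwd t_alsc t_wuniq t_basic
theorem t_bdeglim : S_bdeglim := piece_bdeglim t_bdeg t_bpp
theorem t_ddeg : S_ddeg := piece_ddeg t_bwlog t_awlim t_bdeglim t_dwd t_dbd t_wuniq t_basic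
theorem t_dLL : S_dLL := piece_dLL t_calg t_dbd
theorem t_dkeq : S_dkeq := piece_dkeq t_dLL t_dcab t_calg t_dbd t_smooth
theorem t_exLS : S_exLS := piece_exLS t_dapx t_dbd t_dcl t_den t_ddeg t_dkeq
theorem t_kClE : S_kClE := piece_kClE t_bridge t_wuniq
theorem t_kCll : S_kCll := piece_kCll t_kClE t_basic t_smooth
theorem t_ku1 : S_ku1 := piece_ku1 t_kcalc t_kwt t_kClE t_kH0 t_kH0c t_bridge
theorem t_ku1s : S_ku1s := piece_ku1s t_kcalc t_kwt t_kClE t_ktst t_wedge t_bridge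
theorem t_ku2b : S_ku2b := piece_ku2b t_kcalc t_kH0 t_kwmp
theorem t_kqw : S_kqw := piece_kqw t_kcalc t_kH0 t_kreg
theorem t_kqe : S_kqe := piece_kqe t_kcalc t_kH0 t_ktst t_kgeo
theorem t_kplane : S_kplane := piece_kplane 
theorem t_apl : S_apl := piece_apl t_aconj t_aconst t_bridge t_basic
theorem t_kstr : S_kstr := piece_kstr t_kwt t_kplane t_apl t_bridge t_basic t_areg
theorem t_ktr : S_ktr := piece_ktr t_kcalc t_kH0 t_kwt t_kClE t_kCll t_ku1 t_ku1s t_ku2b t_kqw t_kqe t_kstr t_aconst t_kgeo t_wedge t_bridge t_basic t_smooth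
theorem t_kNAT : S_kNAT := piece_kNAT t_kClE t_kcalc t_ktst t_wedge t_bridge
theorem t_k32 : S_k32 := piece_k32 t_kNAT t_kClE t_bpp t_chain t_bridge
theorem t_kFt : S_kFt := piece_kFt t_kgeo
theorem t_kJ0 : S_kJ0 := piece_kJ0 t_kgeo t_k32 t_kFt t_bdeg t_kClE t_smooth t_wuniq t_basic
theorem t_klow : S_klow := piece_klow t_kJ0 t_kFt t_kcalc t_chain t_bridge t_aconst t_kCll
theorem t_kuni : S_kuni := piece_kuni t_klow t_kCll
theorem t_Tlem : S_Tlem := piece_Tlem t_ktr t_kCll t_kuni t_kwt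
theorem t_nalg : S_nalg := piece_nalg t_calg
theorem t_nlwd : S_nlwd := piece_nlwd t_basic t_smooth t_chain t_prod t_bwlog t_calg t_nalg
theorem t_nAVG : S_nAVG := piece_nAVG t_bump t_basic t_smooth t_chain t_weyl
theorem t_nlim : S_nlim := piece_nlim t_basic t_bwlog t_amp t_CL t_baa t_nAVG
theorem t_nest : S_nest := piece_nest t_calg t_nalg
theorem t_nlog : S_nlog := piece_nlog t_nalg t_nlim
theorem t_nlam : S_nlam := piece_nlam t_nest t_nlog
theorem t_nasy : S_nasy := piece_nasy 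
theorem t_ninjc : S_ninjc := piece_ninjc 
theorem t_ninj : S_ninj := piece_ninj t_basic t_smooth t_wuniq t_bwlog t_awlim t_bdeglim t_nasy t_ninjc
theorem t_ncoef : S_ncoef := piece_ncoef 
theorem t_nuni : S_nuni := piece_nuni t_ncoef
theorem t_nlow : S_nlow := piece_nlow t_nlim t_nlam t_ninj t_nuni
theorem t_nkd : S_nkd := piece_nkd 
theorem t_bwd : S_bwd := piece_bwd t_C4 t_C3b t_weyl t_smooth t_basic t_glue t_wuniq
theorem t_bsim : S_bsim := piece_bsim t_C4 t_C3b t_bwd t_chain t_prod t_weyl t_basic t_wuniq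
theorem t_nfac : S_nfac := piece_nfac t_nalg t_ncoef t_nkd t_bsim
theorem t_nfar : S_nfar := piece_nfar t_nest
theorem t_nsepfar : S_nsepfar := piece_nsepfar t_nfar
theorem t_bnd : S_bnd := piece_bnd 
theorem t_nclosed : S_nclosed := piece_nclosed 
theorem t_nopen : S_nopen := piece_nopen 
theorem t_ncont : S_ncont := piece_ncont t_bnd t_nclosed t_nopen
theorem t_nsep : S_nsep := piece_nsep t_nalg t_nlow t_nfac t_nsepfar t_ncont
theorem t_bdegloc : S_bdegloc := piece_bdegloc t_bcmp t_bdeg t_smooth t_basic t_wuniq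
theorem t_nNloc : S_nNloc := piece_nNloc t_basic t_smooth t_bdegloc
theorem t_nNeq : S_nNeq := piece_nNeq t_nNloc
theorem t_nNfar : S_nNfar := piece_nNfar t_basic t_smooth t_nfar t_bdegloc t_nalg
theorem t_nLam : S_nLam := piece_nLam t_nalg t_nlwd t_nsep t_nNeq t_nNfar
theorem t_nXY : S_nXY := piece_nXY t_nalg t_nLam
theorem t_nmu : S_nmu := piece_nmu t_basic t_smooth t_wuniq t_bwlog t_awlim t_nlim t_ninj
theorem t_concl : S_concl := piece_concl t_nXY t_nmu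
theorem t_einv : S_einv := piece_einv t_chain t_bridge t_basic t_smooth
theorem t_aucp1 : S_aucp1 := piece_aucp1 t_chain t_smooth t_prod t_wedge t_bridge t_basic t_glue
theorem t_aucpb : S_aucpb := piece_aucpb t_aucp1 t_chain t_bridge t_basic t_smooth t_aconst
theorem t_aucp : S_aucp := piece_aucp t_aucpb t_basic
theorem t_eucb : S_eucb := piece_eucb t_aconj t_areg t_aucp t_aconst t_bridge t_basic t_smooth t_wuniq
theorem t_last : S_last := piece_last t_einv t_eucb t_bgr t_basic t_bridge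
theorem t_mainN : S_mainN := piece_mainN t_kap t_kwt t_exLS t_Tlem t_concl t_last
theorem t_norm : S_norm := piece_norm 
theorem t_final3 : S_final3 := piece_final3 t_ggeo t_gdt t_gtt t_mainN t_norm t_mtr
theorem t_gsm : S_gsm := piece_gsm 
theorem t_Q1 : S_Q1 := piece_Q1 t_final3 t_gsm

end Cal
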