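import Pool.Agent.Lib.MP_4ea4c7_an.StmH8

/-! Piece nXY (helper26): equal solutions. -/

open Complex MeasureTheory Set Filter Metric
open scoped Real ComplexConjugate Topology

noncomputable section

namespace Cal

theorem piece_nXY (h1 : S_nalg) (h2 : S_nLam) : S_nXY := by
  intro G μ μ' X Y g X' Y' g' ha ha' hag z hz k
  have hp : (0:ℝ) ≤ Real.pi / 2 := by positivity
  have e0 := ((h1 G μ X Y g ha.2).2 0 le_rfl hp).1 z hz k
  have e0' := ((h1 G μ' X' Y' g' ha'.2).2 0 le_rfl hp).1 z hz k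
  have e1 := ((h1 G μ X Y g ha.2).2 (Real.pi / 2) hp le_rfl).1 z hz k
  have e1' := ((h1 G μ' X' Y' g' ha'.2).2 (Real.pi / 2) hp le_rfl).1 z hz k
  rw [h2 G μ μ' X Y g X' Y' g' ha ha' hag 0 le_rfl hp z hz k, e0'] at e0
  rw [h2 G μ μ' X Y g X' Y' g' ha ha' hag (Real.pi / 2) hp le_rfl z hz k, e1'] at e1
  have hexp : exp (-(I * ((Real.pi / 2 : ℝ) : ℂ))) = -I := by
    rw [Complex.exp_neg, mul_comm, show ((Real.pi / 2 : ℝ) : ℂ) = (Real.pi : ℂ) / 2 by push_cast; ring,
      Complex.exp_pi_div_two_mul_I]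
    simp
  rw [hexp] at e1
  have r0 := congrArg Complex.re e0
  have i0 := congrArg Complex.im e0
  have r1 := congrArg Complex.re e1
  have i1 := congrArg Complex.im e1
  simp at r0 i0 r1 i1
  constructor <;> apply Complex.ext <;> linarith

end Cal
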