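import Pool.Agent.Lib.MP_4ea4c7_an.StmH8

/-!
# [n15] Difference of two solutions of the `k`-equation
-/

open MeasureTheory Complex Metric Set Filter Topology
open scoped ComplexConjugate ENNReal NNReal

namespace Cal

noncomputable section

private theorem nkd_exp (s t : ℝ) :
    ‖exp (-(2 * I * (s : ℂ))) - exp (-(2 * I * (t : ℂ)))‖ ≤ 2 * |s - t| := by
  have h1 : exp (-(2 * I * (s : ℂ))) - exp (-(2 * I * (t : ℂ))) =
      exp (((-(2 * t) : ℝ) : ℂ) * I) * (exp (I * ((-(2 * (s - t)) : ℝ) : ℂ)) - 1) := by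
    rw [mul_sub, ← Complex.exp_add, mul_one]
    congr 1
    · congr 1
      push_cast
      ring
    · congr 1
      push_cast
      ring
  rw [h1, norm_mul, Complex.norm_exp_ofReal_mul_I, one_mul]
  refine (Real.norm_exp_I_mul_ofReal_sub_one_le).trans ?_
  rw [Real.norm_eq_abs, abs_neg, abs_mul, abs_two]

private theorem nkd_supp {φ : ℂ → ℂ} (h : TF univ φ) : HasCompactSupport (db φ) := by
  have h1 : HasCompactSupport (fderiv ℝ φ) := h.2.1.fderiv (𝕜 := ℝ)
  refine h1.mono fun z hz => ?_
  rw [Function.mem_support] at hz ⊢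
  intro h0
  apply hz
  simp [db, h0]

private theorem nkd_cont {φ : ℂ → ℂ} (h : TF univ φ) : Continuous (db φ) := by
  have h1 : Continuous (fderiv ℝ φ) := h.1.continuous_fderiv (by simp)
  unfold db
  fun_prop

theorem piece_nkd : S_nkd := by
  intro A B h h' hA hB hh hh' h1 h2
  refine ⟨fun k => B k * (exp (-(2 * I * ((h k).im : ℂ))) - exp (-(2 * I * ((h' k).im : ℂ)))) / 2, ?_, ?_, ?_⟩
  · fun_prop
  · intro k
    rw [norm_div, norm_mul]
    have e1 := nkd_exp (h k).im (h' k).im
    have e2 : |(h k).im - (h' k).im| ≤ ‖h k - h' k‖ := by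
      have := Complex.abs_im_le_norm (h k - h' k)
      simpa using this
    have e3 : ‖(2 : ℂ)‖ = 2 := by simp
    rw [e3, div_le_iff₀ (by norm_num)]
    calc ‖B k‖ * ‖exp (-(2 * I * ((h k).im : ℂ))) - exp (-(2 * I * ((h' k).im : ℂ)))‖
        ≤ ‖B k‖ * (2 * ‖h k - h' k‖) := by
          gcongr
          exact e1.trans (by gcongr)
      _ = ‖B k‖ * ‖h k - h' k‖ * 2 := by ring
  · intro φ hφ
    have hφc : Continuous φ := hφ.1.continuous
    have i1 : Integrable (fun k => h k * db φ k) :=
      (hh.mul (nkd_cont hφ)).integrable_of_hasCompactSupport (nkd_supp hφ).mul_left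
    have i2 : Integrable (fun k => h' k * db φ k) :=
      (hh'.mul (nkd_cont hφ)).integrable_of_hasCompactSupport (nkd_supp hφ).mul_left
    have j1 : Integrable (fun k => (A k + B k * exp (-(2 * I * ((h k).im : ℂ)))) / 2 * φ k) := by
      refine Continuous.integrable_of_hasCompactSupport ?_ hφ.2.1.mul_left
      fun_prop
    have j2 : Integrable (fun k => (A k + B k * exp (-(2 * I * ((h' k).im : ℂ)))) / 2 * φ k) := by
      refine Continuous.integrable_of_hasCompactSupport ?_ hφ.2.1.mul_left
      fun_prop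
    have e1 : ∫ k, (h k - h' k) * db φ k = (∫ k, h k * db φ k) - ∫ k, h' k * db φ k := by
      rw [← integral_sub i1 i2]
      refine integral_congr_ae (Eventually.of_forall fun k => ?_)
      simp only
      ring
    have e2 : ∫ k, B k * (exp (-(2 * I * ((h k).im : ℂ))) - exp (-(2 * I * ((h' k).im : ℂ)))) / 2 * φ k =
        (∫ k, (A k + B k * exp (-(2 * I * ((h k).im : ℂ)))) / 2 * φ k) -
          ∫ k, (A k + B k * exp (-(2 * I * ((h' k).im : ℂ)))) / 2 * φ k := by
      rw [← integral_sub j1 j2]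
      refine integral_congr_ae (Eventually.of_forall fun k => ?_)
      simp only
      ring
    rw [e1, e2, h1 φ hφ, h2 φ hφ]
    ring

end

end Cal
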