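import Pool.Agent.Lib.MP_4ea4c7_an.StmH8

/-!
# MP_4ea4c7_an, stage 2, piece [n13]/[N15]: the limit is the same for the two structures
-/

open MeasureTheory Complex Metric Set Filter Topology
open scoped ComplexConjugate ENNReal NNReal

namespace Cal

noncomputable section

theorem piece_nuni (h1 : S_ncoef) : S_nuni := by
  intro G μ μ' X Y g X' Y' g' hA hA' hag k h h' hd hd' hl hl'
  obtain ⟨k0, hadm⟩ := hA.1
  have hpt : ∀ z : ℂ, 1 / 2 < ‖z‖ → h z = h' z := by
    intro z hz
    have hzG : z ∈ G := hadm.ext z hz.le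
    have t1 : Tendsto (fun l => g z (k l) / (‖k l‖ : ℂ)) atTop (𝓝 (h z)) :=
      (hl {z} isCompact_singleton (singleton_subset_iff.mpr hzG)).tendsto_at (mem_singleton z)
    have t2 : Tendsto (fun l => g' z (k l) / (‖k l‖ : ℂ)) atTop (𝓝 (h' z)) :=
      (hl' {z} isCompact_singleton (singleton_subset_iff.mpr hzG)).tendsto_at (mem_singleton z)
    have e : (fun l => g z (k l) / (‖k l‖ : ℂ)) = fun l => g' z (k l) / (‖k l‖ : ℂ) := by
      funext l
      rw [h1.1 G μ μ' X Y g X' Y' g' hA hA' hag z hz (k l)]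
    rw [e] at t1
    exact tendsto_nhds_unique t1 t2
  have h2 : (1 / 2 : ℝ) < ‖(2 : ℂ)‖ := by
    rw [Complex.norm_ofNat]
    norm_num
  have h2G : (2 : ℂ) ∈ G := hadm.ext 2 h2.le
  have hev : h =ᶠ[𝓝 (2 : ℂ)] h' := by
    have ho : IsOpen {z : ℂ | 1 / 2 < ‖z‖} := isOpen_lt continuous_const continuous_norm
    filter_upwards [ho.mem_nhds h2] with z hz
    exact hpt z hz
  exact (hd.analyticOnNhd hadm.oG).eqOn_of_preconnected_of_eventuallyEq
    (hd'.analyticOnNhd hadm.oG) hadm.cG.isPreconnected h2G hev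

end

end Cal
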