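import Pool.Agent.Lib.MP_4ea4c7_an.P_nAVG
import Pool.Agent.Lib.MP_4ea4c7_an.P_nLamEq
import Pool.Agent.Lib.MP_4ea4c7_an.P_nNeq
import Pool.Agent.Lib.MP_4ea4c7_an.P_nNfar
import Pool.Agent.Lib.MP_4ea4c7_an.P_nNloc
import Pool.Agent.Lib.MP_4ea4c7_an.P_nXY
import Pool.Agent.Lib.MP_4ea4c7_an.P_nalg
import Pool.Agent.Lib.MP_4ea4c7_an.P_nasy
import Pool.Agent.Lib.MP_4ea4c7_an.P_nclosed
import Pool.Agent.Lib.MP_4ea4c7_an.P_ncoef
import Pool.Agent.Lib.MP_4ea4c7_an.P_ncont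
import Pool.Agent.Lib.MP_4ea4c7_an.P_nest
import Pool.Agent.Lib.MP_4ea4c7_an.P_nfac
import Pool.Agent.Lib.MP_4ea4c7_an.P_nfar
import Pool.Agent.Lib.MP_4ea4c7_an.P_ninj
import Pool.Agent.Lib.MP_4ea4c7_an.P_ninjc
import Pool.Agent.Lib.MP_4ea4c7_an.P_nkd
import Pool.Agent.Lib.MP_4ea4c7_an.P_nlam
import Pool.Agent.Lib.MP_4ea4c7_an.P_nlim
import Pool.Agent.Lib.MP_4ea4c7_an.P_nlog
import Pool.Agent.Lib.MP_4ea4c7_an.P_nlow
import Pool.Agent.Lib.MP_4ea4c7_an.P_nlwd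
import Pool.Agent.Lib.MP_4ea4c7_an.P_nmu
import Pool.Agent.Lib.MP_4ea4c7_an.P_nopen
import Pool.Agent.Lib.MP_4ea4c7_an.P_nsep
import Pool.Agent.Lib.MP_4ea4c7_an.P_nsepfar
import Pool.Agent.Lib.MP_4ea4c7_an.P_nuni

/-!
# MP_4ea4c7_an, stage 2: assembly of part III (S_concl from the tools)
-/

namespace Cal

/-- Part III (sections 8, 9, 10.1-10.4) from the tools. -/
theorem concl_of_tools (t_basic : S_basic) (t_smooth : S_smooth) (t_wuniq : S_wuniq) (t_chain : S_chain) (t_prod : S_prod)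
    (t_bump : S_bump) (t_weyl : S_weyl) (t_CL : S_CL) (t_amp : S_amp) (t_awlim : S_awlim) (t_bdegloc : S_bdegloc)
    (t_bdeglim : S_bdeglim) (t_bsim : S_bsim) (t_baa : S_baa) (t_bnd : S_bnd) (t_bwlog : S_bwlog) (t_calg : S_calg) : S_concl := by
  have t_nalg := piece_nalg t_calg
  have t_nest := piece_nest t_calg t_nalg
  have t_nfar := piece_nfar t_nest
  have t_nlwd := piece_nlwd t_basic t_smooth t_chain t_prod t_bwlog t_calg t_nalg
  have t_nAVG := piece_nAVG t_bump t_basic t_smooth t_chain t_weyl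
  have t_nlim := piece_nlim t_basic t_bwlog t_amp t_CL t_baa t_nAVG
  have t_nlog := piece_nlog t_nalg t_nlim
  have t_nlam := piece_nlam t_nest t_nlog
  have t_ninj := piece_ninj t_basic t_smooth t_wuniq t_bwlog t_awlim t_bdeglim piece_nasy piece_ninjc
  have t_ncoef := piece_ncoef
  have t_nuni := piece_nuni t_ncoef
  have t_nlow := piece_nlow t_nlim t_nlam t_ninj t_nuni
  have t_nfac := piece_nfac t_nalg t_ncoef piece_nkd t_bsim
  have t_nsepfar := piece_nsepfar t_nfar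
  have t_ncont := piece_ncont t_bnd piece_nclosed piece_nopen
  have t_nsep := piece_nsep t_nalg t_nlow t_nfac t_nsepfar t_ncont
  have t_nNloc := piece_nNloc t_basic t_smooth t_bdegloc
  have t_nNeq := piece_nNeq t_nNloc
  have t_nNfar := piece_nNfar t_basic t_smooth t_nfar t_bdegloc t_nalg
  have t_nLam := piece_nLam t_nalg t_nlwd t_nsep t_nNeq t_nNfar
  have t_nXY := piece_nXY t_nalg t_nLam
  have t_nmu := piece_nmu t_basic t_smooth t_wuniq t_bwlog t_awlim t_nlim t_ninj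
  exact piece_concl t_nXY t_nmu

end Cal
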