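import Mathlib

/-!
# MP_4ea4c7_an: local Cauchy data determine the full Cauchy data (planar Calderon problem, bounded measurable conductivities)

Internal definitions. Paper: /team-store/MP_4ea4c7_paper.md.
Everything is on `ℂ` with Lebesgue measure `volume`; gradients of real functions are complex numbers `u_x + i u_y`.
-/

open MeasureTheory Complex Metric Set Filter Topology
open scoped ComplexConjugate ENNReal NNReal

namespace Cal

noncomputable section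

/-- complex valued test functions on `U` -/
def TF (U : Set ℂ) (φ : ℂ → ℂ) : Prop :=
  ContDiff ℝ (⊤ : ℕ∞) φ ∧ HasCompactSupport φ ∧ tsupport φ ⊆ U

/-- real valued test functions on `U` -/
def RTF (U : Set ℂ) (φ : ℂ → ℝ) : Prop :=
  ContDiff ℝ (⊤ : ℕ∞) φ ∧ HasCompactSupport φ ∧ tsupport φ ⊆ U

/-- the Wirtinger derivative `∂φ/∂z` -/
def dz (φ : ℂ → ℂ) (z : ℂ) : ℂ := (fderiv ℝ φ z 1 - I * fderiv ℝ φ z I) / 2

/-- the Wirtinger derivative `∂φ/∂z̄` -/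
def db (φ : ℂ → ℂ) (z : ℂ) : ℂ := (fderiv ℝ φ z 1 + I * fderiv ℝ φ z I) / 2

/-- the gradient `φ_x + i φ_y` of a real function -/
def gr (φ : ℂ → ℝ) (z : ℂ) : ℂ := ((fderiv ℝ φ z 1 : ℝ) : ℂ) + I * ((fderiv ℝ φ z I : ℝ) : ℂ)

/-- real inner product of two vectors of the plane -/
def ip (a b : ℂ) : ℝ := (a * conj b).re

/-- cross product `a₁ b₂ - a₂ b₁` of two vectors of the plane -/
def cr (a b : ℂ) : ℝ := (conj a * b).im

/-- locally square integrable on `U` -/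
def L2loc (U : Set ℂ) (g : ℂ → ℂ) : Prop :=
  ∀ K : Set ℂ, IsCompact K → K ⊆ U → MemLp g 2 (volume.restrict K)

/-- On `U`, `A` and `B` are the weak Wirtinger derivatives `∂f/∂z`, `∂f/∂z̄` of `f`; all three are locally square integrable. -/
structure WD (U : Set ℂ) (f A B : ℂ → ℂ) : Prop where
  f2 : L2loc U f
  A2 : L2loc U A
  B2 : L2loc U B
  hA : ∀ φ : ℂ → ℂ, TF U φ → ∫ z, f z * dz φ z = - ∫ z, A z * φ z
  hB : ∀ φ : ℂ → ℂ, TF U φ → ∫ z, f z * db φ z = - ∫ z, B z * φ z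

/-- On `U`, `G` is the weak gradient of the real function `u`; both are locally square integrable. -/
structure WG (U : Set ℂ) (u : ℂ → ℝ) (G : ℂ → ℂ) : Prop where
  u2 : L2loc U (fun z => (u z : ℂ))
  G2 : L2loc U G
  h : ∀ φ : ℂ → ℝ, RTF U φ → ∫ z, (u z : ℂ) * gr φ z = - ∫ z, G z * (φ z : ℂ)

/-- Cauchy transform -/
def Ct (w : ℂ → ℂ) (z : ℂ) : ℂ := (1 / (Real.pi : ℂ)) * ∫ ζ, w ζ / (z - ζ)

/-- convolution with a (mollifying) kernel -/
def mol (ρ : ℂ → ℝ) (g : ℂ → ℂ) (z : ℂ) : ℂ := ∫ ζ, ((ρ (z - ζ) : ℝ) : ℂ) * g ζ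

/-- square integrable functions vanishing outside the closed disc of radius `5/4` -/
def W2 (w : ℂ → ℂ) : Prop := MemLp w 2 volume ∧ ∀ z, 5 / 4 < ‖z‖ → w z = 0

/-- `h = O(1/z)` at infinity -/
def Dec (h : ℂ → ℂ) : Prop := ∃ C : ℝ, ∀ z, 2 ≤ ‖z‖ → ‖h z‖ ≤ C / ‖z‖

/-- the value of the real polynomial `p` at a complex number -/
def pv (p : Polynomial ℝ) (z : ℂ) : ℂ := Polynomial.aeval z p

/-- Beltrami coefficients: measurable, `|μ| ≤ κ`, zero outside the disc of radius `r`, even under conjugation. -/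
structure Mu (κ r : ℝ) (μ : ℂ → ℝ) : Prop where
  meas : Measurable μ
  bd : ∀ z, |μ z| ≤ κ
  supp : ∀ z, r < ‖z‖ → μ z = 0
  symm : ∀ z, μ (conj z) = μ z

/-- smooth Beltrami coefficients, zero outside the disc of radius `5/4` -/
structure SM (κ : ℝ) (μ : ℂ → ℝ) : Prop where
  mu : Mu κ (5 / 4) μ
  smooth : ContDiff ℝ (⊤ : ℕ∞) μ

/-- `f` is a (weak) solution of `∂f/∂z̄ = μ conj(∂f/∂z)` on `U`. -/
def Bel (μ : ℂ → ℝ) (U : Set ℂ) (f : ℂ → ℂ) : Prop :=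
  ∃ A B : ℂ → ℂ, WD U f A B ∧ ∀ᵐ z ∂(volume.restrict U), B z = (μ z : ℂ) * conj (A z)

/-- the space `P_N(μ)` -/
structure PN (μ : ℂ → ℝ) (N : ℕ) (f : ℂ → ℂ) : Prop where
  cont : Continuous f
  symm : ∀ z, f (conj z) = conj (f z)
  bel : Bel μ univ f
  growth : ∃ C : ℝ, ∀ z, ‖f z‖ ≤ C * (1 + ‖z‖) ^ N

/-- the function `f_{m,n} = (z+2)^m (2-z)^n e^{(m+n) d}` -/
structure FMN (μ : ℂ → ℝ) (m n : ℕ) (f d : ℂ → ℂ) : Prop where
  pn : PN μ (m + n) f
  dcont : Continuous d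
  dsymm : ∀ z, d (conj z) = conj (d z)
  ddec : Dec d
  eq : ∀ z, f z = (z + 2) ^ m * (2 - z) ^ n * exp (((m + n : ℕ) : ℂ) * d z)

/-- logarithmic derivative of `(z+2)^m (2-z)^n` divided by `m+n` -/
def gp (m n : ℕ) (z : ℂ) : ℂ :=
  ((m : ℂ) / ((m + n : ℕ) : ℂ)) / (z + 2) + ((n : ℂ) / ((m + n : ℕ) : ℂ)) / (z - 2)

/-- maximum principle for real and imaginary part on all closed discs around `z0` of radius `< ρ` -/
def MPP (z0 : ℂ) (ρ : ℝ) (g : ℂ → ℂ) : Prop :=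
  ∀ r, 0 < r → r < ρ → ∀ c : ℂ, (c = 1 ∨ c = -1 ∨ c = I ∨ c = -I) →
    ∀ z ∈ closedBall z0 r, ∃ z' ∈ sphere z0 r, (c * g z).re ≤ (c * g z').re

/-- even test functions in the unit disc -/
structure EvTF (φ : ℂ → ℝ) : Prop where
  tf : RTF (ball 0 1) φ
  symm : ∀ z, φ (conj z) = φ z

/-- the part of the real axis where `φ` lives -/
def axis (φ : ℂ → ℝ) : Set ℂ := {z | z.im = 0 ∧ z ∈ tsupport φ}

/-- `k` is the continuous (off the axis) part of the solution with boundary data `φ` on the real axis: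
`f = i φ sgn(Im z) + k` solves the Beltrami equation off `axis φ`. -/
structure KS (μ : ℂ → ℝ) (φ : ℂ → ℝ) (k A B : ℂ → ℂ) : Prop where
  wd : WD univ k A B
  eq : ∀ᵐ z : ℂ, B z = (μ z : ℂ) * conj (A z)
      - I * (1 + (μ z : ℂ)) * ((Real.sign z.im : ℝ) : ℂ) * db (fun w => ((φ w : ℝ) : ℂ)) z
  symm : ∀ z, k (conj z) = conj (k z)
  dec : Dec k
  cont : ContinuousOn k (axis φ)ᶜ

/-- upper half plane -/
def UH : Set ℂ := {z | 0 < z.im}

/-- upper half of the unit disc -/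
def HB : Set ℂ := {z | ‖z‖ < 1 ∧ 0 < z.im}

/-- closure of the gradients of test functions of `Ω` in `L²(Ω)` (gradients of functions in `H¹₀`) -/
def Z0 (Ω : Set ℂ) (G : ℂ → ℂ) : Prop :=
  MemLp G 2 (volume.restrict Ω) ∧ ∀ ε : ℝ, 0 < ε → ∃ φ : ℂ → ℝ, RTF Ω φ ∧
    eLpNorm (fun z => G z - gr φ z) 2 (volume.restrict Ω) < ENNReal.ofReal ε

/-- `G` is the gradient field of a weak solution of `div (γ G) = 0` in `Ω`. -/
def Sol (Ω : Set ℂ) (γ : ℂ → ℝ) (G : ℂ → ℂ) : Prop :=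
  ∀ φ : ℂ → ℝ, RTF Ω φ → ∫ z in Ω, γ z * ip (G z) (gr φ z) = 0

/-- `G'` is the gradient of the `γ`-solution in `Ω` with the boundary values of the function with gradient `G`. -/
structure DN (Ω : Set ℂ) (γ : ℂ → ℝ) (G G' : ℂ → ℂ) : Prop where
  z0 : Z0 Ω (fun z => G' z - G z)
  mem : MemLp G' 2 (volume.restrict Ω)
  sol : Sol Ω γ G'

/-- the two Dirichlet-to-Neumann forms agree on the pair of gradient fields `(G, H)`. -/
def Beq (Ω : Set ℂ) (γ₁ γ₂ : ℂ → ℝ) (G H : ℂ → ℂ) : Prop :=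
  ∀ G₁ G₂ : ℂ → ℂ, DN Ω γ₁ G G₁ → DN Ω γ₂ G G₂ →
    ∫ z in Ω, γ₁ z * ip (G₁ z) (H z) = ∫ z in Ω, γ₂ z * ip (G₂ z) (H z)

/-- bounded measurable conductivities -/
structure Cond (c C : ℝ) (γ : ℂ → ℝ) : Prop where
  meas : Measurable γ
  lo : ∀ z, c ≤ γ z
  hi : ∀ z, γ z ≤ C

/-- conductivity of a Beltrami coefficient -/
def gam (μ : ℂ → ℝ) (z : ℂ) : ℝ := (1 + μ z) / (1 - μ z)

/-- odd functions: continuous, compactly supported, odd under conjugation, with square integrable weak gradient -/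
structure OC (Φ : ℂ → ℝ) (G : ℂ → ℂ) : Prop where
  cont : Continuous Φ
  supp : HasCompactSupport Φ
  odd : ∀ z, Φ (conj z) = - Φ z
  wg : WG univ Φ G
  mem : MemLp G 2 volume

/-- the hypothesis on the two coefficients: the forms agree on odd functions -/
def HYP (μ₁ μ₂ : ℂ → ℝ) : Prop :=
  ∀ Φ G Ψ H, OC Φ G → OC Ψ H → Beq HB (gam μ₁) (gam μ₂) G H

end

end Cal
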