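import Pool.Agent.Lib.MP_4ea4c7_an.Defs

/-!
# More internal definitions: the difference of the two Dirichlet-to-Neumann forms, interface properties
-/

open MeasureTheory Complex Metric Set Filter Topology
open scoped ComplexConjugate ENNReal NNReal

namespace Cal

noncomputable section

/-- step A: the functions `f_{m,n}` of the two coefficients agree outside the disc and on the real axis -/
def FEq (μ₁ μ₂ : ℂ → ℝ) : Prop :=
  ∀ (m n : ℕ) (f d f' d' : ℂ → ℂ), FMN μ₁ m n f d → FMN μ₂ m n f' d' → (∀ z, 1 ≤ ‖z‖ → f z = f' z) ∧ ∀ x : ℝ, f x = f' x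

/-- 5.1: the functions `k` of the two coefficients agree outside the disc -/
def PairOut (μ₁ μ₂ : ℂ → ℝ) : Prop :=
  ∀ φ k₁ A₁ B₁ k₂ A₂ B₂, EvTF φ → KS μ₁ φ k₁ A₁ B₁ → KS μ₂ φ k₂ A₂ B₂ → ∀ z, 1 ≤ ‖z‖ → k₁ z = k₂ z

/-- step A': the functions `k` of the two coefficients agree on the real axis to the left of the support of nonnegative `φ` -/
def LeftEq (μ₁ μ₂ : ℂ → ℝ) : Prop :=
  ∀ φ k₁ A₁ B₁ k₂ A₂ B₂, EvTF φ → (∀ x : ℝ, 0 ≤ φ x) → KS μ₁ φ k₁ A₁ B₁ → KS μ₂ φ k₂ A₂ B₂ →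
    ∀ α : ℝ, (∀ z ∈ axis φ, α < z.re) → ∀ x : ℝ, -2 < x → x ≤ α → k₁ x = k₂ x

open Classical in
/-- gradient of the `γ`-solution with the boundary values given by `G` (zero if there is none) -/
def sol (Ω : Set ℂ) (γ : ℂ → ℝ) (G : ℂ → ℂ) : ℂ → ℂ :=
  if h : ∃ G', DN Ω γ G G' then h.choose else fun _ => 0

/-- the difference of the two Dirichlet-to-Neumann forms -/
def bb (Ω : Set ℂ) (γ₁ γ₂ : ℂ → ℝ) (G H : ℂ → ℂ) : ℝ :=
  (∫ z in Ω, γ₁ z * ip (sol Ω γ₁ G z) (H z)) - ∫ z in Ω, γ₂ z * ip (sol Ω γ₂ G z) (H z)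

/-- the difference of the forms in the half disc for two coefficients -/
def bh (μ₁ μ₂ : ℂ → ℝ) (G H : ℂ → ℂ) : ℝ := bb HB (gam μ₁) (gam μ₂) G H

end

end Cal
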