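import Pool.Agent.Lib.MP_4ea4c7_an.DefsH

/-!
# MP_4ea4c7_an, stage 2: definitions for degree integrals and for the smooth theory (section 4)
-/

open MeasureTheory Complex Metric Set Filter Topology
open scoped ComplexConjugate ENNReal NNReal

namespace Cal

noncomputable section

/-- primitive of `ψ` in the direction of the real part: `PP ψ (x + i y) = ∫_{-∞}^x ψ (t + i y) dt` -/
def PP (ψ : ℂ → ℝ) (w : ℂ) : ℝ := ∫ t in Iic w.re, ψ ((t : ℂ) + (w.im : ℂ) * I)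

/-- the oscillating factor `e^{-i (k z + conj (k z))}` -/
def ek (k z : ℂ) : ℂ := exp (-(I * (k * z + conj (k * z))))

/-- coefficients of the equation of `f = F - μ conj F` -/
def be (μ : ℂ → ℝ) (z : ℂ) : ℂ := -(db (fun w => (μ w : ℂ)) z) / (1 - (μ z : ℂ) ^ 2)
def al (μ : ℂ → ℝ) (z : ℂ) : ℂ := (μ z : ℂ) * be μ z

/-- `N(·,k)` is the bounded continuous solution of `N = c + Ct (a N + b e_k conj N)`, jointly continuous in `(z,k)` -/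
structure NS (a b : ℂ → ℂ) (c : ℂ) (N : ℂ → ℂ → ℂ) : Prop where
  cont : Continuous (fun p : ℂ × ℂ => N p.1 p.2)
  bdd : ∀ k, ∃ M : ℝ, ∀ z, ‖N z k‖ ≤ M
  eq : ∀ z k, N z k = c + Ct (fun ζ => a ζ * N ζ k + b ζ * ek k ζ * conj (N ζ k)) z

/-- the coefficient of `1/z` in `N^c` -/
def an (a b : ℂ → ℂ) (N : ℂ → ℂ → ℂ) (k : ℂ) : ℂ :=
  (1 / (Real.pi : ℂ)) * ∫ ζ, (a ζ * N ζ k + b ζ * ek k ζ * conj (N ζ k))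

/-- the solution `F = (f + μ conj f)/(1-μ²)`, `f = e^{ikz} N` -/
def Fof (μ : ℂ → ℝ) (N : ℂ → ℂ → ℂ) (z k : ℂ) : ℂ :=
  (exp (I * k * z) * N z k + (μ z : ℂ) * conj (exp (I * k * z) * N z k)) / (1 - (μ z : ℂ) ^ 2)

/-- The solutions of a smooth coefficient, with a constant `C` which depends only on the lower bound `k0` [4, 5]. -/
structure SLS (C : ℝ) (μ : ℂ → ℝ) (X Y g : ℂ → ℂ → ℂ) : Prop where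
  cX : Continuous (fun p : ℂ × ℂ => X p.1 p.2)
  cY : Continuous (fun p : ℂ × ℂ => Y p.1 p.2)
  cg : Continuous (fun p : ℂ × ℂ => g p.1 p.2)
  eg : ∀ z k, exp (g z k) = X z k
  z0 : ∀ z, X z 0 = 1 ∧ Y z 0 = I ∧ g z 0 = 0
  sol : ∀ k, Bel μ univ (fun z => X z k) ∧ Bel μ univ (fun z => Y z k)
  hol : ∀ k, DifferentiableOn ℂ (fun z => X z k) {z | 7 / 8 < ‖z‖} ∧ DifferentiableOn ℂ (fun z => Y z k) {z | 7 / 8 < ‖z‖}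
  im : ∀ z k, 0 < (Y z k / X z k).im
  bd : ∀ z k c : ℂ, ‖c‖ = 1 → Real.exp (-(C * (1 + ‖k‖) * (1 + ‖z‖))) ≤ ‖FF X Y c z k‖ ∧
    ‖FF X Y c z k‖ ≤ Real.exp (C * (1 + ‖k‖) * (1 + ‖z‖)) ∧ ‖g z k‖ ≤ C * (1 + ‖k‖) * (1 + ‖z‖)
  asy : ∀ z : ℂ, 2 ≤ ‖z‖ → ∀ k : ℂ, ‖g z k - I * k * z‖ ≤ C * ‖k‖ / ‖z‖ ∧
    ∀ c : ℂ, ‖c‖ = 1 → ∃ d : ℂ, ‖d‖ ≤ C * ‖k‖ / ‖z‖ ∧ FF X Y c z k = c * exp (I * k * z + d)
  en : ∀ (r : ℝ) (k c : ℂ) (A B : ℂ → ℂ), 1 ≤ r → ‖c‖ = 1 → WD univ (fun z => FF X Y c z k) A B →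
    IntegrableOn (fun z => (‖A z‖ ^ 2 - ‖B z‖ ^ 2) / ‖FF X Y c z k‖ ^ 2) (ball 0 r) volume ∧
    ∫ z in ball 0 r, (‖A z‖ ^ 2 - ‖B z‖ ^ 2) / ‖FF X Y c z k‖ ^ 2 ≤ Real.pi * ‖k‖ ^ 2 * r ^ 2
  deg : ∀ k : ℂ, k ≠ 0 → ∀ A B : ℂ → ℂ, WD univ (fun z => g z k) A B → ∀ η ψ : ℂ → ℝ, RTF univ η → (∀ z, 0 ≤ η z ∧ η z ≤ 1) →
    RTF univ ψ → (∀ z, 0 ≤ ψ z) → ∫ z, η z * ψ (g z k) * (‖A z‖ ^ 2 - ‖B z‖ ^ 2) ≤ ∫ z, ψ z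
  keq : ∀ (θ : ℝ) (z : ℂ), 0 ≤ θ → θ ≤ Real.pi / 2 → ContDiff ℝ 1 (fun k => Lam X Y g θ z k) ∧
    ∀ k, 2 * db (fun k => Lam X Y g θ z k) k = cA X Y k + cB X Y k * exp (-(2 * I * ((Lam X Y g θ z k).im : ℂ)))

end

end Cal
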