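import Mathlib

/-!
# MP_4ea4c7_an: definitions for the final theorem

The plane is `ℂ` with Lebesgue measure `volume`; vectors are complex numbers.
Everything is stated for real functions `u : ℂ → ℝ` of which only the values on the open set `Ω` matter.
-/

open MeasureTheory Complex Metric Set
open scoped ENNReal

namespace LocalCalderon

noncomputable section

/-- Real test functions: `C^∞`, with compact support contained in `U`. -/
def IsTest (U : Set ℂ) (φ : ℂ → ℝ) : Prop :=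
  ContDiff ℝ (⊤ : ℕ∞) φ ∧ HasCompactSupport φ ∧ tsupport φ ⊆ U

/-- The classical gradient `(φ_x, φ_y)`, written as the complex number `φ_x + i φ_y`. -/
def grad (φ : ℂ → ℝ) (z : ℂ) : ℂ := ((fderiv ℝ φ z 1 : ℝ) : ℂ) + I * ((fderiv ℝ φ z I : ℝ) : ℂ)

/-- The Euclidean inner product of two vectors. -/
def dot (a b : ℂ) : ℝ := a.re * b.re + a.im * b.im

/-- `G` is a weak gradient of `u` in `Ω`. -/
def WeakGrad (Ω : Set ℂ) (u : ℂ → ℝ) (G : ℂ → ℂ) : Prop :=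
  ∀ φ : ℂ → ℝ, IsTest Ω φ → ∫ z in Ω, (u z : ℂ) * grad φ z = - ∫ z in Ω, (φ z : ℂ) * G z

/-- The Sobolev space `H¹(Ω)`. -/
def H1 (Ω : Set ℂ) (u : ℂ → ℝ) : Prop :=
  MemLp u 2 (volume.restrict Ω) ∧ ∃ G : ℂ → ℂ, MemLp G 2 (volume.restrict Ω) ∧ WeakGrad Ω u G

open Classical in
/-- The weak gradient `∇u` of a function in `H¹(Ω)` (unique up to null sets). -/
def wgrad (Ω : Set ℂ) (u : ℂ → ℝ) : ℂ → ℂ :=
  if h : ∃ G : ℂ → ℂ, MemLp G 2 (volume.restrict Ω) ∧ WeakGrad Ω u G then h.choose else fun _ => 0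

/-- The space `H¹₀(Ω)`: the closure of the test functions in `H¹(Ω)`. -/
def H10 (Ω : Set ℂ) (u : ℂ → ℝ) : Prop :=
  H1 Ω u ∧ ∀ ε : ℝ, 0 < ε → ∃ φ : ℂ → ℝ, IsTest Ω φ ∧
    eLpNorm (fun z => u z - φ z) 2 (volume.restrict Ω) ≤ ENNReal.ofReal ε ∧
    eLpNorm (fun z => wgrad Ω u z - grad φ z) 2 (volume.restrict Ω) ≤ ENNReal.ofReal ε

/-- `supp (u|∂Ω) ⊆ Γ`: there is a compact subset `K` of `Γ` such that the boundary values of `u` vanish off `K`,
i.e. `η u ∈ H¹₀(Ω)` for every test function `η` of the plane whose support does not meet `K`. -/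
def TraceIn (Ω Γ : Set ℂ) (u : ℂ → ℝ) : Prop :=
  ∃ K : Set ℂ, K ⊆ Γ ∧ IsCompact K ∧ ∀ η : ℂ → ℝ, IsTest univ η → Disjoint (tsupport η) K → H10 Ω (fun z => η z * u z)

/-- `u|Γ = v|Γ`: `η (u - v) ∈ H¹₀(Ω)` for every test function `η` of the plane whose support meets `∂Ω` only in `Γ`. -/
def SameTrace (Ω Γ : Set ℂ) (u v : ℂ → ℝ) : Prop :=
  ∀ η : ℂ → ℝ, IsTest univ η → tsupport η ∩ frontier Ω ⊆ Γ → H10 Ω (fun z => η z * (u z - v z))

/-- Conductivities: `γ ∈ L^∞(Ω)`, `γ ≥ c > 0` almost everywhere. -/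
def IsConductivity (Ω : Set ℂ) (γ : ℂ → ℝ) : Prop :=
  AEStronglyMeasurable γ (volume.restrict Ω) ∧ ∃ c C : ℝ, 0 < c ∧ ∀ᵐ z ∂(volume.restrict Ω), c ≤ γ z ∧ γ z ≤ C

/-- `u ∈ H¹(Ω)` is a weak solution of `div (γ ∇u) = 0` in `Ω`. -/
def IsSol (Ω : Set ℂ) (γ u : ℂ → ℝ) : Prop :=
  H1 Ω u ∧ ∀ φ : ℂ → ℝ, IsTest Ω φ → ∫ z in Ω, γ z * dot (wgrad Ω u z) (grad φ z) = 0

/-- The local Cauchy data set `C_γ^{Γ,Γ}`: the set of the pairs `(u|Γ, γ ∂_ν u|Γ)`, where `u` is a weak solution with `supp (u|∂Ω) ⊆ Γ`.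
The first entry is `u|Γ`, represented by the set of all functions in `H¹(Ω)` with the same trace on `Γ`;
the second entry is the weak conormal derivative on `Γ`, i.e. the functional `ψ ↦ ∫_Ω γ ∇u · ∇ψ` on the functions `ψ ∈ H¹(Ω)` with `supp (ψ|∂Ω) ⊆ Γ`. -/
def cauchyData (Ω Γ : Set ℂ) (γ : ℂ → ℝ) :
    Set (Set (ℂ → ℝ) × ({ψ : ℂ → ℝ // H1 Ω ψ ∧ TraceIn Ω Γ ψ} → ℝ)) :=
  {p | ∃ u : ℂ → ℝ, IsSol Ω γ u ∧ TraceIn Ω Γ u ∧
    p = ({v | H1 Ω v ∧ SameTrace Ω Γ u v}, fun ψ => ∫ z in Ω, γ z * dot (wgrad Ω u z) (wgrad Ω ψ.1 z))}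

/-- `Ω` is the conformal image of the unit disc under a map which extends to a homeomorphism of the closures
(Riemann, Caratheodory: this is the case for every bounded domain whose boundary is a Jordan curve, in particular for every bounded simply connected domain with `C^∞` boundary). -/
def JordanDomain (Ω : Set ℂ) : Prop :=
  ∃ ψ : ℂ → ℂ, ContinuousOn ψ (closedBall 0 1) ∧ InjOn ψ (closedBall 0 1) ∧ DifferentiableOn ℂ ψ (ball 0 1) ∧ ψ '' ball 0 1 = Ω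

/-- `Γ` is a relatively open subset of the boundary of `Ω`. -/
def OpenInBdry (Ω Γ : Set ℂ) : Prop := ∃ O : Set ℂ, IsOpen O ∧ Γ = O ∩ frontier Ω

end

end LocalCalderon
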