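import Pool.Agent.Lib.MP_4ea4c7_an.StmD

/-! Piece H6 (`S_52`): diameter data against odd functions. -/

open MeasureTheory Complex Metric Set Filter Topology
open scoped ComplexConjugate ENNReal NNReal

namespace Cal

noncomputable section

private lemma gam_cond52 {κ : ℝ} (h0 : 0 ≤ κ) (h1 : κ < 1) {μ : ℂ → ℝ} (hμ : Mu κ 1 μ) :
    Cond ((1 - κ) / (1 + κ)) ((1 + κ) / (1 - κ)) (gam μ) := by
  refine ⟨?_, fun z => ?_, fun z => ?_⟩
  · exact (measurable_const.add hμ.meas).div (measurable_const.sub hμ.meas)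
  · have h2 := abs_le.mp (hμ.bd z)
    unfold gam
    rw [div_le_div_iff₀ (by linarith) (by linarith [h2.2])]
    nlinarith [h2.1]
  · have h2 := abs_le.mp (hμ.bd z)
    unfold gam
    rw [div_le_div_iff₀ (by linarith [h2.2]) (by linarith)]
    nlinarith [h2.2]

private lemma exists_chi52 {φ : ℂ → ℝ} (hφ : EvTF φ) : ∃ χ : ℂ → ℝ, RTF univ χ ∧
    (∀ z, χ (conj z) = χ z) ∧ (∀ᶠ z in 𝓝ˢ (tsupport φ), χ z = 0) ∧
    (∃ r : ℝ, r < 1 ∧ ∀ z, r ≤ ‖z‖ → ‖z‖ ≤ 1 → χ z = 1) := by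
  obtain ⟨r0, hr0, hK⟩ := exists_lt_subset_ball (isClosed_tsupport φ) hφ.tf.2.2
  set r1 : ℝ := max r0 (1 / 2) with hr1
  have hr11 : r1 < 1 := max_lt hr0 (by norm_num)
  have hr10 : 1 / 2 ≤ r1 := le_max_right _ _
  have hK1 : tsupport φ ⊆ ball 0 r1 := hK.trans (ball_subset_ball (le_max_left _ _))
  set r : ℝ := (r1 + 1) / 2 with hr
  have hrr : r1 < r := by rw [hr]; linarith
  have hr1' : r < 1 := by rw [hr]; linarith
  have hden : 0 < r ^ 2 - r1 ^ 2 := by nlinarith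
  refine ⟨fun z => Real.smoothTransition ((‖z‖ ^ 2 - r1 ^ 2) / (r ^ 2 - r1 ^ 2)) *
    Real.smoothTransition (2 - ‖z‖ ^ 2), ⟨?_, ?_, subset_univ _⟩, ?_, ?_, r, hr1', ?_⟩
  · have hn : ContDiff ℝ (⊤ : ℕ∞) (fun z : ℂ => ‖z‖ ^ 2) := contDiff_norm_sq ℝ
    refine ContDiff.mul ?_ ?_
    · exact Real.smoothTransition.contDiff.comp ((hn.sub contDiff_const).div_const _)
    · exact Real.smoothTransition.contDiff.comp (contDiff_const.sub hn)
  · refine HasCompactSupport.of_support_subset_isCompact (isCompact_closedBall (0 : ℂ) 2) ?_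
    intro z hz
    rw [mem_closedBall, dist_zero_right]
    by_contra hc
    push Not at hc
    apply hz
    have : 2 - ‖z‖ ^ 2 ≤ 0 := by nlinarith
    simp only [Real.smoothTransition.zero_of_nonpos this, mul_zero]
  · intro z
    simp only [RCLike.norm_conj]
  · have h1 : ball (0 : ℂ) r1 ∈ 𝓝ˢ (tsupport φ) := isOpen_ball.mem_nhdsSet.mpr hK1
    filter_upwards [h1] with z hz
    have h2 : ‖z‖ < r1 := by simpa using hz
    have h3 : (‖z‖ ^ 2 - r1 ^ 2) / (r ^ 2 - r1 ^ 2) ≤ 0 := by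
      apply div_nonpos_of_nonpos_of_nonneg _ hden.le
      have := norm_nonneg z
      nlinarith
    rw [Real.smoothTransition.zero_of_nonpos h3, zero_mul]
  · intro z hz1 hz2
    have h3 : 1 ≤ (‖z‖ ^ 2 - r1 ^ 2) / (r ^ 2 - r1 ^ 2) := by
      rw [le_div_iff₀ hden]
      nlinarith
    have h4 : 1 ≤ 2 - ‖z‖ ^ 2 := by
      have := norm_nonneg z
      nlinarith
    show Real.smoothTransition ((‖z‖ ^ 2 - r1 ^ 2) / (r ^ 2 - r1 ^ 2)) *
      Real.smoothTransition (2 - ‖z‖ ^ 2) = 1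
    rw [Real.smoothTransition.one_of_one_le h3, Real.smoothTransition.one_of_one_le h4, one_mul]

private lemma isOpen_HB52 : IsOpen HB := by
  have : HB = {z : ℂ | ‖z‖ < 1} ∩ {z : ℂ | 0 < z.im} := by ext z; simp [HB]
  rw [this]
  exact (isOpen_lt continuous_norm continuous_const).inter
    (isOpen_lt continuous_const Complex.continuous_im)

private lemma bounded_HB52 : Bornology.IsBounded HB := by
  refine (Metric.isBounded_ball (x := (0 : ℂ)) (r := 1)).subset ?_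
  intro z hz
  simpa using hz.1

private lemma frontier_HB52 {z : ℂ} (hz : z ∈ frontier HB) : 1 ≤ ‖z‖ ∨ z.im = 0 := by
  rw [isOpen_HB52.frontier_eq] at hz
  have h1 : 0 ≤ z.im := by
    have : closure HB ⊆ {z : ℂ | 0 ≤ z.im} :=
      closure_minimal (fun w hw => hw.2.le) (isClosed_le continuous_const Complex.continuous_im)
    exact this hz.1
  by_contra hc
  push Not at hc
  exact hz.2 ⟨hc.1, lt_of_le_of_ne h1 (Ne.symm hc.2)⟩

private lemma WG_mono52 {U V : Set ℂ} {u : ℂ → ℝ} {G : ℂ → ℂ} (h : WG U u G) (hV : V ⊆ U) :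
    WG V u G :=
  ⟨fun K hK hKV => h.u2 K hK (hKV.trans hV), fun K hK hKV => h.G2 K hK (hKV.trans hV),
    fun φ hφ => h.h φ ⟨hφ.1, hφ.2.1, hφ.2.2.trans hV⟩⟩

private lemma WG_sub52 (hb : S_basic) (hr : S_bridge) {u u' : ℂ → ℝ} {G G' : ℂ → ℂ}
    (h : WG univ u G) (h' : WG univ u' G') :
    WG univ (fun z => u z - u' z) (fun z => G z - G' z) := by
  have h1 := hr.2.1 _ _ _ h
  have h2 := hr.2.1 _ _ _ h'
  have h3 := hb.2.1 _ _ _ _ (-1) h2
  have h4 := hb.1 _ _ _ _ _ _ _ h1 h3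
  have h5 := (hr.1 _ _ _ _ h4).1
  have e1 : (fun z => ((u z : ℂ) + -1 * (u' z : ℂ)).re) = fun z => u z - u' z := by
    funext z
    simp
    ring
  have e2 : (fun z => conj (conj (G z) / 2 + -1 * (conj (G' z) / 2)) +
      (G z / 2 + -1 * (G' z / 2))) = fun z => G z - G' z := by
    funext z
    simp only [map_add, map_mul, map_div₀, map_neg, map_one, Complex.conj_conj]
    have : conj (2 : ℂ) = 2 := Complex.conj_ofNat 2
    rw [this]
    ring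
  rw [e1, e2] at h5
  exact h5

theorem piece_52 (h1 : S_ksdn) (h2 : S_zb) (h3 : S_bb) (h4 : S_zz) (h5 : S_wuniq) (h6 : S_bridge)
    (h7 : S_ksflux) (h8 : S_ks) (h9 : S_dnex) (h10 : S_half) (h11 : S_basic) : S_52 := by
  intro κ hκ0 hκ1 μ₁ μ₂ hμ₁ hμ₂ hH hPO φ Ψ H hφ hΨ
  obtain ⟨k₁, A₁, B₁, hk₁⟩ := (h8 κ hκ0 hκ1 μ₁ hμ₁ φ hφ).1
  obtain ⟨k₂, A₂, B₂, hk₂⟩ := (h8 κ hκ0 hκ1 μ₂ hμ₂ φ hφ).1
  obtain ⟨χ, hχ1, hχ2, hχ3, hχ4⟩ := exists_chi52 hφ
  obtain ⟨hO₁, hDN₁⟩ := (h1 κ hκ0 hκ1 μ₁ hμ₁ φ k₁ A₁ B₁ hφ hk₁).2 χ hχ1 hχ2 hχ3 hχ4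
  obtain ⟨hO₂, hDN₂⟩ := (h1 κ hκ0 hκ1 μ₂ hμ₂ φ k₂ A₂ B₂ hφ hk₂).2 χ hχ1 hχ2 hχ3 hχ4
  obtain ⟨hI₁, hF₁⟩ := h7 κ hκ0 hκ1 μ₁ φ k₁ A₁ B₁ hμ₁ hφ hk₁ Ψ H hΨ
  obtain ⟨hI₂, hF₂⟩ := h7 κ hκ0 hκ1 μ₂ φ k₂ A₂ B₂ hμ₂ hφ hk₂ Ψ H hΨ
  set Θ₁ : ℂ → ℝ := fun z => χ z * (k₁ z).im with hΘ₁
  set Θ₂ : ℂ → ℝ := fun z => χ z * (k₂ z).im with hΘ₂
  set T₁ : ℂ → ℂ := fun z => (χ z : ℂ) * (I * (conj (A₁ z) - B₁ z)) + ((k₁ z).im : ℂ) * gr χ z
    with hT₁
  set T₂ : ℂ → ℂ := fun z => (χ z : ℂ) * (I * (conj (A₂ z) - B₂ z)) + ((k₂ z).im : ℂ) * gr χ z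
    with hT₂
  set G₁ : ℂ → ℂ := fun z => gr φ z + I * (conj (A₁ z) - B₁ z) with hG₁
  set G₂ : ℂ → ℂ := fun z => gr φ z + I * (conj (A₂ z) - B₂ z) with hG₂
  have hHBo : IsOpen HB := isOpen_HB52
  have hHBm : MeasurableSet HB := hHBo.measurableSet
  have hc : 0 < (1 - κ) / (1 + κ) := div_pos (by linarith) (by linarith)
  have hC₁ := gam_cond52 hκ0 hκ1 hμ₁
  have hC₂ := gam_cond52 hκ0 hκ1 hμ₂
  have hz := h4 HB hHBm
  have hb := h3 HB _ _ (gam μ₁) (gam μ₂) hHBo hc hC₁ hC₂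
  -- memberships
  have hmT₁ : MemLp T₁ 2 (volume.restrict HB) := hO₁.mem.restrict _
  have hmH : MemLp H 2 (volume.restrict HB) := hΨ.mem.restrict _
  have hmφT : MemLp (fun z => gr φ z + T₁ z) 2 (volume.restrict HB) := by
    have h := hDN₁.mem.sub hDN₁.z0.1
    have e : (G₁ - fun z => G₁ z - (gr φ z + T₁ z)) = fun z => gr φ z + T₁ z := by
      funext z
      simp only [Pi.sub_apply]
      ring
    rw [e] at h
    exact h
  have hmφ : MemLp (gr φ) 2 (volume.restrict HB) := by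
    have h := hmφT.sub hmT₁
    have e : ((fun z => gr φ z + T₁ z) - T₁) = gr φ := by
      funext z
      simp only [Pi.sub_apply]
      ring
    rw [e] at h
    exact h
  -- the difference of the boundary data is in `Z0`
  have hk : ∀ z, 1 ≤ ‖z‖ → k₁ z = k₂ z := hPO φ k₁ A₁ B₁ k₂ A₂ B₂ hφ hk₁ hk₂
  have hZ : Z0 HB (fun z => T₁ z - T₂ z) := by
    have hWG : WG univ (fun z => Θ₁ z - Θ₂ z) (fun z => T₁ z - T₂ z) :=
      WG_sub52 h11 h6 hO₁.wg hO₂.wg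
    have hm : MemLp (fun z => T₁ z - T₂ z) 2 (volume.restrict HB) :=
      (hO₁.mem.sub hO₂.mem).restrict _
    have hfr : ∀ z ∈ frontier HB, Θ₁ z - Θ₂ z = 0 := by
      intro z hz
      rcases frontier_HB52 hz with h | h
      · simp only [hΘ₁, hΘ₂, hk z h, sub_self]
      · have hcz : conj z = z := Complex.conj_eq_iff_im.mpr h
        have e1 := hO₁.odd z
        have e2 := hO₂.odd z
        rw [hcz] at e1 e2
        have e3 : Θ₁ z = 0 := by linarith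
        have e4 : Θ₂ z = 0 := by linarith
        rw [e3, e4, sub_zero]
    refine ⟨hm, fun ε hε => ?_⟩
    obtain ⟨η, hη, -, hη2⟩ := h2 HB _ _ hHBo bounded_HB52
      ((hO₁.cont.sub hO₂.cont).continuousOn) hfr (WG_mono52 hWG (subset_univ _)) hm ε hε
    exact ⟨η, hη, hη2⟩
  have hDN₂' : DN HB (gam μ₂) (fun z => gr φ z + T₁ z) G₂ := by
    refine ⟨?_, hDN₂.mem, hDN₂.sol⟩
    have h := hz.2.1 _ _ hDN₂.z0 (hz.2.2.1 _ (-1) hZ)
    have e : (fun z => G₂ z - (gr φ z + T₂ z) + ((-1 : ℝ) : ℂ) * (T₁ z - T₂ z))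
        = fun z => G₂ z - (gr φ z + T₁ z) := by
      funext z
      push_cast
      ring
    rw [e] at h
    exact h
  -- the integrals over the half disc
  set S : Set ℂ := UH ∩ {z : ℂ | 1 ≤ ‖z‖} with hS
  have hUHo : IsOpen UH := isOpen_lt continuous_const Complex.continuous_im
  have hSm : MeasurableSet S :=
    hUHo.measurableSet.inter (isClosed_le continuous_const continuous_norm).measurableSet
  have hUH : UH = HB ∪ S := by
    ext z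
    simp only [hS, UH, HB, mem_ofPred_eq, mem_union, mem_inter_iff]
    constructor
    · intro h
      rcases lt_or_ge ‖z‖ 1 with h' | h'
      · exact Or.inl ⟨h', h⟩
      · exact Or.inr ⟨h, h'⟩
    · rintro (h | h)
      · exact h.2
      · exact h.1
  have hdisj : Disjoint HB S := by
    rw [Set.disjoint_left]
    intro z hz1 hz2
    exact absurd hz1.1 (not_lt.mpr hz2.2)
  have hsplit : ∀ F : ℂ → ℝ, Integrable F (volume.restrict UH) → ∫ z in UH, F z = 0 →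
      ∫ z in HB, F z = - ∫ z in S, F z := by
    intro F hF hF0
    rw [hUH] at hF0
    rw [setIntegral_union hdisj hSm] at hF0
    · linarith
    · exact IntegrableOn.mono_set hF (by rw [hUH]; exact subset_union_left)
    · exact IntegrableOn.mono_set hF (by rw [hUH]; exact subset_union_right)
  have hSeq : ∫ z in S, gam μ₁ z * ip (G₁ z) (H z) = ∫ z in S, gam μ₂ z * ip (G₂ z) (H z) := by
    have hVo : IsOpen {z : ℂ | 1 < ‖z‖} := isOpen_lt continuous_const continuous_norm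
    have hW₁ : WD {z : ℂ | 1 < ‖z‖} k₁ A₁ B₁ := h11.2.2.2.2.1 _ _ _ _ _ (subset_univ _) hk₁.wd
    have hW₂ : WD {z : ℂ | 1 < ‖z‖} k₂ A₂ B₂ := h11.2.2.2.2.1 _ _ _ _ _ (subset_univ _) hk₂.wd
    have hkk : k₁ =ᵐ[volume.restrict {z : ℂ | 1 < ‖z‖}] k₂ := by
      rw [Filter.EventuallyEq, ae_restrict_iff' hVo.measurableSet]
      exact Eventually.of_forall (fun z hz => hk z (le_of_lt hz))
    obtain ⟨hAA, hBB⟩ := h5 _ _ _ _ _ _ _ hVo hW₁ hW₂ hkk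
    rw [Filter.EventuallyEq, ae_restrict_iff' hVo.measurableSet] at hAA hBB
    refine setIntegral_congr_ae hSm ?_
    filter_upwards [hAA, hBB, h10.2.2] with z hz1 hz2 hz3 hzS
    have hz4 : 1 < ‖z‖ := lt_of_le_of_ne hzS.2 (Ne.symm hz3)
    have e1 : gam μ₁ z = gam μ₂ z := by
      unfold gam
      rw [hμ₁.supp z hz4, hμ₂.supp z hz4]
    have e2 : G₁ z = G₂ z := by
      simp only [hG₁, hG₂]
      rw [hz1 hz4, hz2 hz4]
    rw [e1, e2]
  have hmain : ∫ z in HB, gam μ₁ z * ip (G₁ z) (H z) = ∫ z in HB, gam μ₂ z * ip (G₂ z) (H z) := by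
    rw [hsplit _ hI₁ hF₁, hsplit _ hI₂ hF₂, hSeq]
  have hBeq : Beq HB (gam μ₁) (gam μ₂) (fun z => gr φ z + T₁ z) H := by
    intro G' G'' hG' hG''
    have e1 : G' =ᵐ[volume.restrict HB] G₁ :=
      (h9 _ _ hc (gam μ₁) hC₁ HB hHBo _ hmφT).2 G' G₁ hG' hDN₁
    have e2 : G'' =ᵐ[volume.restrict HB] G₂ :=
      (h9 _ _ hc (gam μ₂) hC₂ HB hHBo _ hmφT).2 G'' G₂ hG'' hDN₂'
    have e3 : ∫ z in HB, gam μ₁ z * ip (G' z) (H z) = ∫ z in HB, gam μ₁ z * ip (G₁ z) (H z) :=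
      integral_congr_ae (e1.mono fun z hz => by simp only [hz])
    have e4 : ∫ z in HB, gam μ₂ z * ip (G'' z) (H z) = ∫ z in HB, gam μ₂ z * ip (G₂ z) (H z) :=
      integral_congr_ae (e2.mono fun z hz => by simp only [hz])
    rw [e3, e4, hmain]
  have hz1 : bb HB (gam μ₁) (gam μ₂) (fun z => gr φ z + T₁ z) H = 0 :=
    (hb.2.2.2.2.2.1 _ _ hmφT hmH).mp hBeq
  have hz2 : bb HB (gam μ₁) (gam μ₂) T₁ H = 0 :=
    (hb.2.2.2.2.2.1 _ _ hmT₁ hmH).mp (hH Θ₁ T₁ Ψ H hO₁ hΨ)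
  have hadd := hb.1 (gr φ) T₁ H hmφ hmT₁ hmH
  show bb HB (gam μ₁) (gam μ₂) (gr φ) H = 0
  rw [hz1, hz2, add_zero] at hadd
  exact hadd.symm

end

end Cal
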