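import Pool.Agent.Lib.MP_4ea4c7_an.Defs

/-!
# Statements, part B: the averaging lemma, recursion, the generalised Pascal triangle, step A

Paper: /team-store/MP_4ea4c7_paper.md, sections 2.4, 2.5, 4. Every `S_xx : Prop` is one piece; the pieces it needs are hypotheses of the theorem to be proved
(see the request). Complete informal proofs are in the docstrings.
-/

open MeasureTheory Complex Metric Set Filter Topology
open scoped ComplexConjugate ENNReal NNReal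

namespace Cal

noncomputable section

/-! ## D. The averaging lemma -/

/-- [DB0] Smooth approximation of coefficients in `L²`. Proof: `S_bump` gives radial mollifiers `ρ n`. Put `g z = (μ z : ℂ)` (in `L²`: bounded, measurable, zero off the unit disc) and
`ν z = (mol (ρ n) g z).re`. `mol (ρ n) g` is real valued (`= ((∫ ρ n (z-ζ) μ ζ : ℝ) : ℂ)`, `integral_ofReal`), `|ν z| ≤ κ ∫ ρ n = κ`, `ν z = 0` for `‖z‖ > 1 + 1/(n+1)` (so for `‖z‖ > 5/4` if `n ≥ 4`),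
`ν (conj z) = ν z` by the substitution `ζ → conj ζ` (`ρ n (conj z - conj ζ) = ρ n (z - ζ)` since the norms agree, `μ (conj ζ) = μ ζ`; `Complex.conjLIE` preserves `volume`), `ν` is smooth, and
`‖g - mol (ρ n) g‖₂ → 0`. Take `n` large. -/
def S_apx : Prop := ∀ κ : ℝ, 0 ≤ κ → κ < 1 → ∀ μ : ℂ → ℝ, Mu κ 1 μ → ∀ τ : ℝ, 0 < τ →
  ∃ ν : ℂ → ℝ, SM κ ν ∧ eLpNorm (fun z => ((μ z - ν z : ℝ) : ℂ)) 2 volume ≤ ENNReal.ofReal τ

/-- [DB1] Mean values of a continuous function `d` with weak derivatives `A = ∂d/∂z`, `B = ∂d/∂z̄` are controlled by `∫ B η` with a FIXED test function `η` (depending on `z0, r, L` only).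
Proof: let `h t = Real.smoothTransition (2 * t - 1)` (smooth, `h = 0` for `t ≤ 1/2`, `h = 1` for `t ≥ 1`, nondecreasing, so `h' ≥ 0` and `∫_0^∞ h' = 1`), `m t = h (t / r^2) - h (t / (4 * L^2))`
(`m = 0` for `t ≤ r²/2` and for `t ≥ 4 L²`), and `η z = m (‖z - z0‖^2) / (z - z0)`. It vanishes near `z0` and far away, so it is a test function. With `w = z - z0`, `|w|² = w w̄`, `∂/∂z̄ (|w|²) = w`, hence
`db η z = m' (‖w‖^2)` (the factor `1/w` is holomorphic off `z0`), i.e. `db η z = (1/r²) h'(‖w‖²/r²) - (1/(4L²)) h'(‖w‖²/(4L²)) =: a z - b z` with `a, b ≥ 0`, `∫ a = ∫ b = π`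
(polar coordinates: `∫ (1/r²) h'(‖w‖²/r²) dw = 2π ∫_0^∞ (1/r²) h'(s²/r²) s ds = π [h(s²/r²)]_0^∞ = π`; `Complex.integral_comp_polarCoord_symm` or `integral_fun_norm_addHaar`), `a` supported in `‖w‖ ≤ r`, `b` supported in `‖w‖ ≥ √2 L ≥ L`.
`WD.hB` gives `∫ d (a - b) = - ∫ B η`. So `π d(z0) = ∫ (d(z0) - d) a + ∫ d a = ∫ (d(z0) - d) a + ∫ d b - ∫ B η`, and the norms of the three terms are at most `π δ`, `π τ`, `‖∫ B η‖`. -/
def S_avg : Prop := ∀ (z0 : ℂ) (r L : ℝ), 0 < r → r < L → ∃ η : ℂ → ℂ, TF univ η ∧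
  ∀ (d A B : ℂ → ℂ) (δ τ : ℝ), WD univ d A B → Continuous d →
    (∀ z, ‖z - z0‖ ≤ r → ‖d z - d z0‖ ≤ δ) → (∀ z, L ≤ ‖z - z0‖ → ‖d z‖ ≤ τ) →
    Real.pi * ‖d z0‖ ≤ Real.pi * δ + Real.pi * τ + ‖∫ z, B z * η z‖

/-- [DB2] The unimodular function `e = conj f / f` and its derivative. Proof: on `U = ball 0 (3/2)`, with `R z = (z+2)^m (2-z)^n` (holomorphic, no zeros in `U`, `R' = N gp m n R`, `N = m + n`: compute with `HasDerivAt`;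
`gp m n z = (m/N)/(z+2) + (n/N)/(z-2)`), `f = R e^{N d}` gives `e = (conj R / R) * exp (N (conj d - d))`. The first factor is smooth on `U` with `db (conj R / R) = conj (R') / R = N conj (gp) (conj R / R)`
(`db (conj ∘ R) = conj (deriv R)`, `db (1/R) = 0`) and `dz (conj R / R) = - N gp (conj R / R)`. The second factor: `conj d - d` has weak derivatives (`S_basic`) `conj B - A`, `conj A - B`, is continuous, and `w ↦ exp (N w)` is smooth (`S_chain` with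
`dz (exp (N ·)) = N exp (N ·)`, `db (exp (N ·)) = 0`), so `exp (N (conj d - d))` has `∂/∂z̄` equal to `N (conj A - B) exp (N (conj d - d))`. Product with a smooth function: `S_smooth` (3). Continuity and `‖e‖ = 1` are clear (`f ≠ 0` on `U`). -/
def S_edef : Prop := ∀ (μ : ℂ → ℝ) (m n : ℕ) (f d A B : ℂ → ℂ), 1 ≤ m + n → FMN μ m n f d → WD univ d A B →
  (∀ z ∈ ball (0 : ℂ) (3 / 2), f z ≠ 0) ∧
  ContinuousOn (fun z => conj (f z) / f z) (ball 0 (3 / 2)) ∧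
  (∀ z ∈ ball (0 : ℂ) (3 / 2), ‖conj (f z) / f z‖ = 1) ∧
  WD (ball 0 (3 / 2)) (fun z => conj (f z) / f z)
    (fun z => ((m + n : ℕ) : ℂ) * (conj (f z) / f z) * (conj (B z) - A z - gp m n z))
    (fun z => ((m + n : ℕ) : ℂ) * (conj (f z) / f z) * (conj (A z + gp m n z) - B z))

/-- [DB3] The logarithm `log (1 - ν e)` and its derivative. Proof: let `U = ball 0 (3/2)`, `e` continuous on `U` with `‖e‖ = 1`, `P, Q` its weak derivatives. `ν` is smooth and `|ν| ≤ κ < 1`, so `g = 1 - ν e` is continuous with values in `{w | ‖w - 1‖ < 1}`,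
hence in `{w | 0 < w.re}` (inside `slitPlane`), where `Complex.log` is holomorphic (`dz log = 1/w`, `db log = 0`). `ν e` has weak `∂/∂z̄` equal to `(db ν) e + ν Q` (`S_smooth` (3) with the smooth function `(ν : ℂ)`; constants: `S_smooth` (1)).
`S_chain` with `G = Complex.log`, `W = {w | 0 < w.re}` gives the formula. The bound: `‖log g‖ ≤ C(κ)` since `‖g - 1‖ ≤ κ`: `Complex.norm_log_one_add_le` or: `‖log w‖ ≤ |log ‖w‖| + π` and `1 - κ ≤ ‖w‖ ≤ 2`. -/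
def S_log : Prop := ∀ κ : ℝ, 0 ≤ κ → κ < 1 → ∃ C : ℝ, 0 ≤ C ∧ ∀ ν : ℂ → ℝ, SM κ ν → ∀ (e P Q : ℂ → ℂ),
  WD (ball 0 (3 / 2)) e P Q → ContinuousOn e (ball 0 (3 / 2)) → (∀ z ∈ ball (0 : ℂ) (3 / 2), ‖e z‖ = 1) →
  (∀ z ∈ ball (0 : ℂ) (3 / 2), 1 - κ ≤ ‖1 - (ν z : ℂ) * e z‖ ∧ ‖log (1 - (ν z : ℂ) * e z)‖ ≤ C) ∧
  ∃ P' : ℂ → ℂ, WD (ball 0 (3 / 2)) (fun z => log (1 - (ν z : ℂ) * e z)) P'
    (fun z => - (db (fun w => (ν w : ℂ)) z * e z + (ν z : ℂ) * Q z) / (1 - (ν z : ℂ) * e z))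

/-- [DB4] Homogenisation estimate. Proof. `B = 0` a.e. for `‖z‖ > 5/4` (since `μ = 0` there), so with a smooth cutoff `χ` (`χ = 1` on `closedBall 0 (5/4)`, `tsupport χ ⊆ ball 0 (3/2)`, `0 ≤ χ ≤ 1`) we have
`∫ B η = ∫ B η'`, `η' = χ η ∈ TF (ball 0 (3/2))`. Let `N = m + n`, `e = conj f / f` with weak derivative `Q = N e (conj (A + gp) - B)` (`S_edef`). From the equation `B = μ e conj (A + gp)` a.e. and
`e conj (A + gp) = Q / N + e B`: `B = ν (Q/N + e B) + (μ - ν) e conj (A + gp)`, hence a.e. in `ball 0 (3/2)`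
`B = [(ν/N) Q + (μ-ν) e conj (A + gp)] / (1 - ν e)`, and `ν Q / (1 - ν e) = - ℓ_zb - (db ν) e / (1 - ν e)` where `ℓ = log (1 - ν e)` and `ℓ_zb` is its weak `∂/∂z̄` (`S_log`). Therefore
`∫ B η' = (1/N) [ ∫ ℓ db η' - ∫ (db ν) e η' / (1 - ν e) ] + ∫ (μ - ν) e conj (A + gp) η' / (1 - ν e)`.
The bracket is at most `C₁(κ, ν, η)` in norm (`‖ℓ‖ ≤ C`, `|1 - ν e| ≥ 1 - κ`). Last term: at most `(sup ‖η‖) / (1-κ) * ‖μ - ν‖₂ * (‖A‖₂ + ‖gp‖_{L²(closedBall 0 (5/4))})` (Cauchy-Schwarz; `μ - ν` vanishes for `‖z‖ > 5/4`; `‖gp z‖ ≤ 4/3` for `‖z‖ ≤ 5/4`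
because `m/N + n/N = 1`, so its `L²(closedBall 0 (5/4))` norm is at most `(4/3) √(π (5/4)^2) ≤ 3`). So `C₂ = 3 sup ‖η‖ / (1 - κ)` works. -/
def S_hom : Prop := ∀ κ : ℝ, 0 ≤ κ → κ < 1 → ∀ η : ℂ → ℂ, TF univ η → ∃ C₂ : ℝ, 0 ≤ C₂ ∧ ∀ ν : ℂ → ℝ, SM κ ν → ∃ C₁ : ℝ, 0 ≤ C₁ ∧
  ∀ μ : ℂ → ℝ, Mu κ (5 / 4) μ → ∀ (m n : ℕ) (f d A B : ℂ → ℂ), 1 ≤ m + n → FMN μ m n f d → WD univ d A B →
    (∀ᵐ z, B z = (μ z : ℂ) * (conj (f z) / f z) * conj (A z + gp m n z)) →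
    ∀ K T : ℝ, 0 ≤ K → 0 ≤ T → MemLp A 2 volume → eLpNorm A 2 volume ≤ ENNReal.ofReal K →
      eLpNorm (fun z => ((μ z - ν z : ℝ) : ℂ)) 2 volume ≤ ENNReal.ofReal T →
      ‖∫ z, B z * η z‖ ≤ C₁ / ((m + n : ℕ) : ℝ) + C₂ * T * (K + 1)

/-- [DB5] Pointwise averaging lemma. Proof: `S_lim` (for `κ`): constants `C` and `δ(ε)` with `‖d z‖ ≤ C/(1+‖z‖)` and the common modulus of continuity for all functions `d = d_{m,n}` of `μ` (by `S_funq` EVERY pair `(f, d)` with `FMN μ m n f d`, `1 ≤ m + n`,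
is the one of `S_lim`). Given `z`, `ε`, choose `0 < r < δ(ε/4)` and `L > r` with `C / (1 + L - ‖z‖) ≤ ε/4`, `L > ‖z‖`; `S_avg` gives a fixed test function `η`; `S_dWD` gives `A, B` with `‖A‖₂ ≤ K := C'(κ)`; `S_hom` gives `C₂`; choose by `S_apx` `ν` with
`T := ‖μ - ν‖₂`, `C₂ T (K+1) ≤ π ε / 4`, then `C₁`, and `N0` with `C₁ / N0 ≤ π ε/4`. Then `π ‖d z‖ ≤ π ε/4 + π ε/4 + π ε/4 + π ε/4`. -/
def S_ALp : Prop := ∀ κ : ℝ, 0 ≤ κ → κ < 1 → ∀ μ : ℂ → ℝ, Mu κ 1 μ → ∀ z : ℂ, ∀ ε : ℝ, 0 < ε → ∃ N0 : ℕ, ∀ m n : ℕ, N0 ≤ m + n →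
  ∀ f d : ℂ → ℂ, FMN μ m n f d → ‖d z‖ ≤ ε

/-- [DB6] Averaging lemma, uniform. Proof: by `S_lim` + `S_funq` (as in `S_ALp`) all `d = d_{m,n}` (with `1 ≤ m + n`) satisfy `‖d z‖ ≤ C/(1+‖z‖)`, so `‖d z‖ ≤ ε` for `‖z‖ ≥ ρ`, and have a common modulus `δ`; cover the compact `closedBall 0 ρ` by
finitely many balls of radius `δ(ε/2)` (`IsCompact.finite_cover_balls` or `totallyBounded`) with centres `z_i`, and apply `S_ALp` with `ε/2` at the finitely many `z_i` (max of the `N0`). -/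
def S_AL : Prop := ∀ κ : ℝ, 0 ≤ κ → κ < 1 → ∀ μ : ℂ → ℝ, Mu κ 1 μ → ∀ ε : ℝ, 0 < ε → ∃ N0 : ℕ, ∀ m n : ℕ, N0 ≤ m + n →
  ∀ f d : ℂ → ℂ, FMN μ m n f d → ∀ z : ℂ, ‖d z‖ ≤ ε

/-! ## E. Recursion and step A -/

/-- [EB1] `f_{m,n}` on the real axis. Proof: for real `x`, `d x = conj (d x)` (`dsymm`, `conj (x : ℂ) = x`), so `(d x).im = 0`, `exp (N d x)` is the positive real number `Real.exp (N (d x).re)`, and `(x+2)^m (2-x)^n` is real, positive for `-2 < x < 2`. -/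
def S_freal : Prop := ∀ (μ : ℂ → ℝ) (m n : ℕ) (f d : ℂ → ℂ), FMN μ m n f d → ∀ x : ℝ,
  (f x).im = 0 ∧ (f x).re = (x + 2) ^ m * (2 - x) ^ n * Real.exp (((m + n : ℕ) : ℝ) * (d x).re) ∧
  (-2 < x → x < 2 → 0 < (f x).re)

/-- [EB2] Behaviour at infinity and at `∓2`. Proof: `Dec d` gives `d → 0` at infinity, so `f / R = exp (N d) → 1`. Near `-2`: `f z = (z+2)^m * g z` with `g` continuous; near `2`: `f z = (z-2)^n * g z`; use `IsBigO` of bounded factors (`ContinuousAt.isBigO_one` or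
`Asymptotics.isBigO_iff`). -/
def S_fasym : Prop := ∀ (μ : ℂ → ℝ) (m n : ℕ) (f d : ℂ → ℂ), FMN μ m n f d →
  Tendsto (fun z => f z / ((z + 2) ^ m * (2 - z) ^ n)) (cocompact ℂ) (𝓝 1) ∧
  (f =O[𝓝 (-2)] fun z => (z + 2) ^ m) ∧ (f =O[𝓝 2] fun z => (z - 2) ^ n) ∧ (∀ z, z ≠ -2 → z ≠ 2 → f z ≠ 0)

/-- [EB3] Recursion. Proof: `g = f1 + f2` is continuous, symmetric, `Bel` (sum: `S_basic`; the equation is real linear). Growth: for `‖z‖ ≥ 2`, `f1 z = (z+2)^{m+1} (2-z)^n e^{(N+1) d1}`, `f2 z = (z+2)^m (2-z)^{n+1} e^{(N+1) d2}` with `N = m + n`, and `‖e^{(N+1) d_j z} - 1‖ ≤ C/‖z‖`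
(`Dec`, `Complex.norm_exp_sub_one_le` for large `‖z‖`, boundedness on the compact rest), so `g z = (z+2)^m (2-z)^n [ (z+2) (1 + O(1/z)) + (2-z) (1 + O(1/z)) ] = (z+2)^m (2-z)^n (4 + O(1))`: `‖g z‖ ≤ C (1+‖z‖)^N` (on the compact disc by continuity). So `PN μ N g`.
Orders: `f1 = O((z+2)^{m+1}) = O((z+2)^m)` at `-2` and `f2 = O((z+2)^m)`; at `2` similarly (`S_fasym`). `S_unq` gives `g = c f` with `c` real; at `z = 0` the values of `f, f1, f2` are positive (`S_freal`), so `c > 0`. -/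
def S_rec : Prop := ∀ κ : ℝ, 0 ≤ κ → κ < 1 → ∀ μ : ℂ → ℝ, Mu κ 1 μ → ∀ (m n : ℕ) (f d f1 d1 f2 d2 : ℂ → ℂ),
  FMN μ m n f d → FMN μ (m + 1) n f1 d1 → FMN μ m (n + 1) f2 d2 → ∃ c : ℝ, 0 < c ∧ ∀ z, f1 z + f2 z = (c : ℂ) * f z

/-- the transfer hypothesis: solutions for `μ₁` continue inside as solutions for `μ₂` -/
def TH (μ₁ μ₂ : ℂ → ℝ) : Prop := ∀ (N : ℕ) (f : ℂ → ℂ), PN μ₁ N f → ∃ g, PN μ₂ N g ∧ ∀ z, 1 ≤ ‖z‖ → g z = f z

/-- [EB4] The distinguished functions agree outside. Proof: `TH` gives `g ∈ P_{m+n}(μ₂)` with `g = f1` for `‖z‖ ≥ 1`, in particular near `∓2`, so `g` has the orders of `f1` (`S_fasym`), and `S_unq` (for `μ₂`) gives `g = c f2`, `c` real. Divide by `(z+2)^m (2-z)^n` and let `z → ∞`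
(`S_fasym`): `1 = c`. So `f1 = g = f2` for `‖z‖ ≥ 1`. -/
def S_Teq : Prop := ∀ κ : ℝ, 0 ≤ κ → κ < 1 → ∀ μ₁ μ₂ : ℂ → ℝ, Mu κ 1 μ₁ → Mu κ 1 μ₂ → TH μ₁ μ₂ → ∀ (m n : ℕ) (f1 d1 f2 d2 : ℂ → ℂ),
  FMN μ₁ m n f1 d1 → FMN μ₂ m n f2 d2 → ∀ z, 1 ≤ ‖z‖ → f1 z = f2 z

/-- A positive family over the triangle (`F x m n = f_{m,n}(x)`). -/
structure Pas (lam : ℕ → ℕ → ℝ) (F : ℝ → ℕ → ℕ → ℝ) : Prop where
  pos : ∀ x ∈ Ioo (-2 : ℝ) 2, ∀ m n, 0 < F x m n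
  one : ∀ x ∈ Ioo (-2 : ℝ) 2, F x 0 0 = 1
  step : ∀ x ∈ Ioo (-2 : ℝ) 2, ∀ m n, F x (m + 1) n + F x m (n + 1) = lam m n * F x m n
  cont : ∀ m n, ContinuousOn (fun x => F x m n) (Ioo (-2 : ℝ) 2)
  asym : ∀ x ∈ Ioo (-2 : ℝ) 2, ∀ y ∈ Ioo (-2 : ℝ) 2, ∀ ε > 0, ∃ N0 : ℕ, ∀ m n : ℕ,
    N0 ≤ m + n → |Real.log (F x m n) - Real.log (F y m n)
      - (m * Real.log ((x + 2) / (y + 2)) + n * Real.log ((2 - x) / (2 - y)))| ≤ ε * (m + n)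

/-- [EB5] The generalised Pascal triangle determines the family (proved in `Pt.lean`). -/
def S_pascal : Prop := ∀ (lam : ℕ → ℕ → ℝ) (F G : ℝ → ℕ → ℕ → ℝ), (∀ m n, 0 < lam m n) → Pas lam F → Pas lam G →
  ∀ x ∈ Ioo (-2 : ℝ) 2, ∀ m n, F x m n = G x m n

/-- [EB6] The family of `μ`. Given ANY choice `f m n`, `d m n` of the distinguished functions of `μ`: it is a positive family over the triangle. Proof: `lam m n` from `S_rec` (`choose`), `F x m n = (f m n x).re`. Positivity: `S_freal`. `F x 0 0 = 1`: `f = exp 0`. Recursion: real part of `S_rec`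
at the real point `x`. Continuity: `FMN.pn.cont`. Asymptotics: by `S_freal` `log F x m n = m log (x+2) + n log (2-x) + N (d_{m,n} x).re`, so the expression in absolute value is `N ((d x).re - (d y).re)`, at most `ε N` for `N ≥ N0` by `S_AL` with `ε/2`. -/
def S_fam : Prop := ∀ κ : ℝ, 0 ≤ κ → κ < 1 → ∀ μ : ℂ → ℝ, Mu κ 1 μ → ∀ f d : ℕ → ℕ → ℂ → ℂ, (∀ m n, FMN μ m n (f m n) (d m n)) →
  ∃ lam : ℕ → ℕ → ℝ, (∀ m n, 0 < lam m n) ∧ (∀ m n z, f (m + 1) n z + f m (n + 1) z = (lam m n : ℂ) * f m n z) ∧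
    Pas lam (fun x m n => (f m n (x : ℂ)).re)

/-- [EB7] Step A for the distinguished functions. Proof: choose `f^j, d^j` for `μ_j` and all `m, n` by `S_lim` (`FMN` for every `m, n`). `S_fam` gives `lam^j`. By `S_Teq` `f^1_{m,n} = f^2_{m,n}` at `z = 3`, where they do not vanish (`S_fasym`), so the recursions at `z = 3` give `lam^1 = lam^2`.
`S_pascal`: `(f^1_{m,n} x).re = (f^2_{m,n} x).re` on `(-2,2)`; imaginary parts are zero (`S_freal`). For `|x| ≥ 1`: `S_Teq`. For the given `f1, f2` (which may differ from the chosen ones) use `S_funq`. -/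
def S_A1 : Prop := ∀ κ : ℝ, 0 ≤ κ → κ < 1 → ∀ μ₁ μ₂ : ℂ → ℝ, Mu κ 1 μ₁ → Mu κ 1 μ₂ → TH μ₁ μ₂ → ∀ (m n : ℕ) (f1 d1 f2 d2 : ℂ → ℂ),
  FMN μ₁ m n f1 d1 → FMN μ₂ m n f2 d2 → ∀ x : ℝ, f1 x = f2 x

/-- [EB8] Step A. Proof: let `F^j_i, D^j_i` be the functions `FMN μ_j i (N-i)`, `i ≤ N` (`S_lim`). `S_basis`: `f = ∑ c_i F^1_i`, `g = ∑ c'_i F^2_i` with real `c_i, c'_i`. For `‖z‖ ≥ 1`: `F^1_i = F^2_i` (`S_Teq`), so `∑ (c_i - c'_i) F^1_i z = 0` for `‖z‖ ≥ 1`, in particular near `-2`, where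
`F^1_i z = (z+2)^i G_i z` with `G_i` continuous, `G_i (-2) ≠ 0` (from `FMN.eq`). If not all `c_i = c'_i`, take the smallest `i` with `c_i ≠ c'_i`, divide by `(z+2)^i` and let `z → -2`: `(c_i - c'_i) G_i (-2) = 0`, a contradiction. So `c = c'`, and on the real axis `F^1_i = F^2_i` (`S_A1`), hence `f = g` there. -/
def S_A : Prop := ∀ κ : ℝ, 0 ≤ κ → κ < 1 → ∀ μ₁ μ₂ : ℂ → ℝ, Mu κ 1 μ₁ → Mu κ 1 μ₂ → TH μ₁ μ₂ → ∀ (N : ℕ) (f g : ℂ → ℂ),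
  PN μ₁ N f → PN μ₂ N g → (∀ z, 1 ≤ ‖z‖ → g z = f z) → ∀ x : ℝ, g x = f x

end

end Cal
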