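import Pool.Agent.Lib.MP_4ea4c7_an.Stm2
import Pool.Agent.Lib.MP_4ea4c7_an.StmB

/-!
[EB8] Step A.
-/

set_option autoImplicit false

open MeasureTheory Complex Metric Set Filter Topology
open scoped ComplexConjugate ENNReal NNReal

namespace Cal

noncomputable section

private theorem stA_van (N : ℕ) (a : ℕ → ℂ) (G : ℕ → ℂ → ℂ) (hG : ∀ i, Continuous (G i))
    (hG0 : ∀ i, G i (-2) ≠ 0)
    (h : ∀ z : ℂ, 1 ≤ ‖z‖ → ∑ i ∈ Finset.range (N + 1), a i * ((z + 2) ^ i * G i z) = 0) :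
    ∀ i, i ≤ N → a i = 0 := by
  by_contra hne
  push Not at hne
  have hex : ∃ i, i ≤ N ∧ a i ≠ 0 := hne
  obtain ⟨hjN, hj0⟩ := Nat.find_spec hex
  set j := Nat.find hex with hj
  have hmin : ∀ i, i < j → a i = 0 := by
    intro i hi
    have h1 := Nat.find_min hex hi
    by_contra h2
    exact h1 ⟨by omega, h2⟩
  obtain ⟨H, hH⟩ : ∃ H : ℂ → ℂ, H = fun z =>
    ∑ i ∈ Finset.range (N + 1), a i * ((z + 2) ^ (i - j) * G i z) := ⟨_, rfl⟩
  have hHc : Continuous H := by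
    rw [hH]
    refine continuous_finsetSum _ fun i _ => ?_
    exact continuous_const.mul (((continuous_id.add continuous_const).pow _).mul (hG i))
  have hmul : ∀ z : ℂ, (z + 2) ^ j * H z =
      ∑ i ∈ Finset.range (N + 1), a i * ((z + 2) ^ i * G i z) := by
    intro z
    rw [hH]
    show (z + 2) ^ j * ∑ i ∈ Finset.range (N + 1), a i * ((z + 2) ^ (i - j) * G i z) = _
    rw [Finset.mul_sum]
    refine Finset.sum_congr rfl fun i _ => ?_
    by_cases hi : i < j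
    · rw [hmin i hi]
      ring
    · have : (z + 2) ^ i = (z + 2) ^ j * (z + 2) ^ (i - j) := by
        rw [← pow_add]
        congr 1
        omega
      rw [this]
      ring
  have hev : ∀ᶠ z in 𝓝[≠] (-2 : ℂ), H z = 0 := by
    have h1 : ∀ᶠ z in 𝓝[≠] (-2 : ℂ), 1 ≤ ‖z‖ := by
      refine mem_nhdsWithin_of_mem_nhds ?_
      have h2 : Tendsto (fun z : ℂ => ‖z‖) (𝓝 (-2)) (𝓝 ‖(-2 : ℂ)‖) :=
        continuous_norm.continuousAt
      refine h2.eventually (eventually_ge_nhds ?_)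
      rw [norm_neg, Complex.norm_ofNat]
      norm_num
    filter_upwards [h1, self_mem_nhdsWithin] with z hz hz2
    have h3 : (z + 2) ^ j * H z = 0 := by rw [hmul, h z hz]
    rcases mul_eq_zero.1 h3 with h4 | h4
    · exfalso
      have h5 : z + 2 = 0 := eq_zero_of_pow_eq_zero h4
      exact hz2 (by
        show z = -2
        linear_combination h5)
    · exact h4
  have h0 : H (-2) = 0 := by
    have t1 : Tendsto H (𝓝[≠] (-2)) (𝓝 (H (-2))) := hHc.continuousAt.mono_left nhdsWithin_le_nhds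
    have t2 : Tendsto H (𝓝[≠] (-2)) (𝓝 0) :=
      (tendsto_const_nhds (x := (0 : ℂ))).congr' (hev.mono fun z hz => hz.symm)
    exact tendsto_nhds_unique t1 t2
  have h1 : H (-2) = a j * G j (-2) := by
    rw [hH]
    show ∑ i ∈ Finset.range (N + 1), a i * (((-2 : ℂ) + 2) ^ (i - j) * G i (-2)) = _
    rw [Finset.sum_eq_single j]
    · simp
    · intro i _ hij
      rcases lt_or_gt_of_ne hij with h2 | h2
      · rw [hmin i h2, zero_mul]
      · have : (-2 : ℂ) + 2 = 0 := by norm_num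
        rw [this, zero_pow (by omega), zero_mul, mul_zero]
    · intro h2
      exact absurd (Finset.mem_range.2 (by omega)) h2
  rw [h1] at h0
  exact (mul_ne_zero hj0 (hG0 j)) h0

theorem piece_A (h1 : S_lim) (h2 : S_basis) (h3 : S_Teq) (h4 : S_A1) : S_A := by
  intro κ hκ0 hκ1 μ₁ μ₂ hμ₁ hμ₂ hT N f g hf hg hfg x
  obtain ⟨C, δ, -, hlim⟩ := h1 κ hκ0 hκ1
  choose F1 D1 hF1 using fun i => hlim μ₁ hμ₁ i (N - i)
  choose F2 D2 hF2 using fun i => hlim μ₂ hμ₂ i (N - i)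
  obtain ⟨c1, hc1⟩ := h2 κ hκ0 hκ1 μ₁ hμ₁ N F1 D1 (fun i _ => (hF1 i).1) f hf
  obtain ⟨c2, hc2⟩ := h2 κ hκ0 hκ1 μ₂ hμ₂ N F2 D2 (fun i _ => (hF2 i).1) g hg
  have hout : ∀ i (z : ℂ), 1 ≤ ‖z‖ → F1 i z = F2 i z := fun i z hz =>
    h3 κ hκ0 hκ1 μ₁ μ₂ hμ₁ hμ₂ hT i (N - i) _ _ _ _ (hF1 i).1 (hF2 i).1 z hz
  have hreal : ∀ i (x : ℝ), F1 i x = F2 i x := fun i x =>
    h4 κ hκ0 hκ1 μ₁ μ₂ hμ₁ hμ₂ hT i (N - i) _ _ _ _ (hF1 i).1 (hF2 i).1 x
  have hcc : ∀ i, i ≤ N → ((c2 i : ℂ) - (c1 i : ℂ)) = 0 := by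
    refine stA_van N (fun i => (c2 i : ℂ) - (c1 i : ℂ))
      (fun i z => (2 - z) ^ (N - i) * exp (((i + (N - i) : ℕ) : ℂ) * D1 i z)) ?_ ?_ ?_
    · intro i
      exact ((continuous_const.sub continuous_id).pow _).mul
        (Complex.continuous_exp.comp (continuous_const.mul (hF1 i).1.dcont))
    · intro i
      refine mul_ne_zero (pow_ne_zero _ (by norm_num)) (Complex.exp_ne_zero _)
    · intro z hz
      have e1 : ∑ i ∈ Finset.range (N + 1), ((c2 i : ℂ) - (c1 i : ℂ)) * F1 i z = 0 := by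
        simp only [sub_mul, Finset.sum_sub_distrib]
        rw [← hc1 z, sub_eq_zero, ← hfg z hz, hc2 z]
        exact Finset.sum_congr rfl fun i _ => by rw [hout i z hz]
      rw [← e1]
      refine Finset.sum_congr rfl fun i _ => ?_
      rw [(hF1 i).1.eq z]
      ring
  rw [hc1, hc2]
  refine Finset.sum_congr rfl fun i hi => ?_
  rw [← hreal i x, sub_eq_zero.1 (hcc i (Nat.lt_succ_iff.1 (Finset.mem_range.1 hi)))]

end

end Cal
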