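import Pool.Agent.Lib.MP_4ea4c7_an.Stm2
import Pool.Agent.Lib.MP_4ea4c7_an.StmB

open MeasureTheory Complex Metric Set Filter Topology
open scoped ComplexConjugate ENNReal NNReal

namespace Cal

noncomputable section

/-- [EB7] Step A for the distinguished functions. -/
theorem piece_A1 (h1 : S_lim) (h2 : S_funq) (h3 : S_fam) (h4 : S_Teq) (h5 : S_fasym)
    (h6 : S_freal) (h7 : S_pascal) : S_A1 := by
  intro κ hκ0 hκ1 μ₁ μ₂ hμ₁ hμ₂ hTH m n f1 d1 f2 d2 hf1 hf2 x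
  obtain ⟨C, δ, _, hlim⟩ := h1 κ hκ0 hκ1
  have hex : ∀ μ, Mu κ 1 μ → ∃ f d : ℕ → ℕ → ℂ → ℂ, ∀ m n, FMN μ m n (f m n) (d m n) := by
    intro μ hμ
    choose f d hfd using hlim μ hμ
    exact ⟨f, d, fun m n => (hfd m n).1⟩
  obtain ⟨F1, D1, H1⟩ := hex μ₁ hμ₁
  obtain ⟨F2, D2, H2⟩ := hex μ₂ hμ₂
  obtain ⟨l1, hl1, r1, P1⟩ := h3 κ hκ0 hκ1 μ₁ hμ₁ F1 D1 H1
  obtain ⟨l2, hl2, r2, P2⟩ := h3 κ hκ0 hκ1 μ₂ hμ₂ F2 D2 H2
  have heq : ∀ m n z, 1 ≤ ‖z‖ → F1 m n z = F2 m n z := fun m n =>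
    h4 κ hκ0 hκ1 μ₁ μ₂ hμ₁ hμ₂ hTH m n _ _ _ _ (H1 m n) (H2 m n)
  have hl : l1 = l2 := by
    funext m n
    have h3n : (1 : ℝ) ≤ ‖(3 : ℂ)‖ := by norm_num
    have e1 := r1 m n 3
    have e2 := r2 m n 3
    rw [heq _ _ 3 h3n, heq _ _ 3 h3n, heq _ _ 3 h3n, e2] at e1
    have hne : F2 m n 3 ≠ 0 :=
      (h5 μ₂ m n _ _ (H2 m n)).2.2.2 3 (by norm_num) (by norm_num)
    have h := mul_right_cancel₀ hne e1
    exact_mod_cast h.symm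
  subst hl
  have hpas := h7 l1 _ _ hl1 P1 P2
  have key : F1 m n x = F2 m n x := by
    by_cases hx : x ∈ Ioo (-2 : ℝ) 2
    · apply Complex.ext
      · exact hpas x hx m n
      · rw [(h6 μ₁ m n _ _ (H1 m n) x).1, (h6 μ₂ m n _ _ (H2 m n) x).1]
    · apply heq
      rw [Complex.norm_real, Real.norm_eq_abs]
      by_contra hcon
      push Not at hcon
      rw [abs_lt] at hcon
      exact hx ⟨by linarith [hcon.1], by linarith [hcon.2]⟩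
  rw [(h2 κ hκ0 hκ1 μ₁ hμ₁ m n _ _ _ _ hf1 (H1 m n)).1, key,
    (h2 κ hκ0 hκ1 μ₂ hμ₂ m n _ _ _ _ hf2 (H2 m n)).1]

end

end Cal
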