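import Pool.Agent.Lib.MP_4ea4c7_an.Stm2

/-!
# S_AA: compactness (Arzela-Ascoli on the one point compactification of the plane)
-/

open MeasureTheory Complex Metric Set Filter Topology
open scoped ComplexConjugate ENNReal NNReal

namespace Cal

noncomputable section

/-- extension by zero to the one point compactification -/
private def aaExt (f : ℂ → ℂ) : OnePoint ℂ → ℂ := fun x => Option.elim x 0 f

private theorem aa_ext_coe (f : ℂ → ℂ) (z : ℂ) : aaExt f (z : OnePoint ℂ) = f z := rfl

private theorem aa_ext_infty (f : ℂ → ℂ) : aaExt f (OnePoint.infty : OnePoint ℂ) = 0 := rfl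

private theorem aa_equi (C : ℝ) (δ : ℝ → ℝ) (hδ : ∀ ε, 0 < ε → 0 < δ ε) (d : ℕ → ℂ → ℂ)
    (h1 : ∀ k z, ‖d k z‖ ≤ C / (1 + ‖z‖))
    (h2 : ∀ k ε, 0 < ε → ∀ z z', ‖z - z'‖ < δ ε → ‖d k z - d k z'‖ ≤ ε) :
    Equicontinuous (fun k => aaExt (d k)) := by
  intro x
  rw [Metric.equicontinuousAt_iff_right]
  intro ε hε
  induction x using OnePoint.rec with
  | infty =>
    rw [OnePoint.nhds_infty_eq, eventually_sup]
    constructor
    · rw [eventually_map]
      have h3 : ∀ᶠ z : ℂ in coclosedCompact ℂ, C / ε < ‖z‖ := by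
        rw [coclosedCompact_eq_cocompact]
        exact (tendsto_norm_cocompact_atTop (E := ℂ)).eventually_gt_atTop (C / ε)
      filter_upwards [h3] with z hz k
      rw [aa_ext_infty, aa_ext_coe, dist_zero_left]
      refine lt_of_le_of_lt (h1 k z) ?_
      have h4 : 0 < 1 + ‖z‖ := by positivity
      rw [div_lt_iff₀ h4]
      rw [div_lt_iff₀ hε] at hz
      nlinarith
    · simp only [eventually_pure, dist_self]
      exact fun _ => hε
  | coe z =>
    rw [OnePoint.nhds_coe_eq, eventually_map]
    have h3 : ∀ᶠ y in 𝓝 z, ‖z - y‖ < δ (ε / 2) := by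
      have h4 := Metric.ball_mem_nhds z (hδ (ε / 2) (by positivity))
      filter_upwards [h4] with y hy
      rw [mem_ball, dist_comm, dist_eq_norm] at hy
      exact hy
    filter_upwards [h3] with y hy k
    rw [aa_ext_coe, aa_ext_coe, dist_eq_norm]
    have h5 := h2 k (ε / 2) (by positivity) z y hy
    linarith

theorem piece_AA : S_AA := by
  intro C δ hδ d h1 h2
  have heq := aa_equi C δ hδ d h1 h2
  have hC : 0 ≤ C := by
    have h3 := h1 0 0
    simp only [norm_zero, add_zero, div_one] at h3
    exact le_trans (norm_nonneg _) h3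
  let D : ℕ → BoundedContinuousFunction (OnePoint ℂ) ℂ := fun k =>
    BoundedContinuousFunction.mkOfCompact ⟨aaExt (d k), heq.continuous k⟩
  have hD : ∀ k x, D k x = aaExt (d k) x := fun k x => rfl
  have hs : ∀ (f : BoundedContinuousFunction (OnePoint ℂ) ℂ) (x : OnePoint ℂ),
      f ∈ Set.range D → f x ∈ closedBall (0 : ℂ) C := by
    rintro _ x ⟨k, rfl⟩
    rw [hD, mem_closedBall, dist_zero_right]
    induction x using OnePoint.rec with
    | infty => rw [aa_ext_infty, norm_zero]; exact hC
    | coe z =>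
      rw [aa_ext_coe]
      refine (h1 k z).trans ?_
      have h4 : 0 < 1 + ‖z‖ := by positivity
      rw [div_le_iff₀ h4]
      nlinarith [norm_nonneg z]
  have hH : Equicontinuous ((↑) : Set.range D → OnePoint ℂ → ℂ) := by
    intro x U hU
    filter_upwards [heq x U hU] with y hy
    rintro ⟨_, k, rfl⟩
    exact hy k
  have hcomp := BoundedContinuousFunction.arzela_ascoli (closedBall (0 : ℂ) C)
    (isCompact_closedBall _ _) (Set.range D) hs hH
  obtain ⟨a, _, φ, hφ, ha⟩ := hcomp.tendsto_subseq (fun k => subset_closure ⟨k, rfl⟩ :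
    ∀ k, D k ∈ closure (Set.range D))
  rw [BoundedContinuousFunction.tendsto_iff_tendstoUniformly] at ha
  have hu : TendstoUniformly (fun k => d (φ k)) (fun z : ℂ => a (z : OnePoint ℂ)) atTop := by
    have h5 := ha.comp (fun z : ℂ => (z : OnePoint ℂ))
    exact h5
  refine ⟨φ, fun z => a (z : OnePoint ℂ), hφ, a.continuous.comp OnePoint.continuous_coe, ?_, ?_,
    hu⟩
  · intro z
    exact le_of_tendsto' ((hu.tendsto_at z).norm) fun k => h1 (φ k) z
  · intro ε hε z z' hz
    exact le_of_tendsto' (((hu.tendsto_at z).sub (hu.tendsto_at z')).norm)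
      fun k => h2 (φ k) ε hε z z' hz

end

end Cal
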