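import Pool.Agent.Lib.MP_4ea4c7_an.Stm2
import Pool.Agent.Lib.MP_4ea4c7_an.StmB

/-! Piece DB6 (`S_AL`): the averaging lemma, uniform. -/

open MeasureTheory Complex Metric Set Filter Topology
open scoped ComplexConjugate ENNReal NNReal

namespace Cal

noncomputable section

theorem piece_AL (h1 : S_lim) (h2 : S_funq) (h3 : S_ALp) : S_AL := by
  classical
  intro κ hκ0 hκ1 μ hμ ε hε
  obtain ⟨C, δ, hδ, hL⟩ := h1 κ hκ0 hκ1
  have key : ∀ m n : ℕ, 1 ≤ m + n → ∀ f d : ℂ → ℂ, FMN μ m n f d →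
      (∀ z, ‖d z‖ ≤ C / (1 + ‖z‖)) ∧ ∀ z z', ‖z - z'‖ < δ (ε / 2) → ‖d z - d z'‖ ≤ ε / 2 := by
    intro m n hmn f d hfd
    obtain ⟨f', d', hfd', hb⟩ := hL μ hμ m n
    obtain ⟨hb1, hb2⟩ := hb hmn
    have he := (h2 κ hκ0 hκ1 μ hμ m n f d f' d' hfd hfd').2 hmn
    refine ⟨fun z => ?_, fun z z' hz => ?_⟩
    · rw [he z]; exact hb1 z
    · rw [he z, he z']; exact hb2 (ε / 2) (by positivity) z z' hz
  set ρ : ℝ := |C| / ε with hρ
  have hρ0 : 0 ≤ ρ := by positivity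
  obtain ⟨t, -, htf, htc⟩ := (isCompact_closedBall (0 : ℂ) ρ).finite_cover_balls
    (hδ (ε / 2) (by positivity))
  choose N hN using h3 κ hκ0 hκ1 μ hμ
  have hN' : ∀ w : ℂ, ∀ m n : ℕ, N w (ε / 2) (by positivity) ≤ m + n → ∀ f d : ℂ → ℂ,
      FMN μ m n f d → ‖d w‖ ≤ ε / 2 := fun w => hN w (ε / 2) (by positivity)
  refine ⟨max 1 (htf.toFinset.sup (fun w => N w (ε / 2) (by positivity))), ?_⟩
  intro m n hmn f d hfd z
  have hmn1 : 1 ≤ m + n := le_trans (le_max_left _ _) hmn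
  obtain ⟨hb1, hb2⟩ := key m n hmn1 f d hfd
  rcases le_total ρ ‖z‖ with hz | hz
  · refine (hb1 z).trans ?_
    have hz0 : 0 < 1 + ‖z‖ := by positivity
    rw [div_le_iff₀ hz0]
    have h4 : |C| ≤ ε * ‖z‖ := by
      rw [hρ, div_le_iff₀ hε] at hz
      linarith
    have h5 := le_abs_self C
    nlinarith
  · have hzm : z ∈ closedBall (0 : ℂ) ρ := by simpa using hz
    have h4 := htc hzm
    simp only [mem_iUnion, exists_prop] at h4
    obtain ⟨w, hw, hzw⟩ := h4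
    have h5 : ‖z - w‖ < δ (ε / 2) := by simpa [dist_eq_norm] using hzw
    have h6 := hb2 z w h5
    have h7 : N w (ε / 2) (by positivity) ≤ m + n := by
      refine le_trans ?_ ((le_max_right _ _).trans hmn)
      exact Finset.le_sup (f := fun w => N w (ε / 2) (by positivity)) (htf.mem_toFinset.mpr hw)
    have h8 := hN' w m n h7 f d hfd
    calc ‖d z‖ = ‖(d z - d w) + d w‖ := by ring_nf
      _ ≤ ‖d z - d w‖ + ‖d w‖ := norm_add_le _ _
      _ ≤ ε := by linarith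

end

end Cal
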