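import Pool.Agent.Lib.MP_4ea4c7_an.Stm2
import Pool.Agent.Lib.MP_4ea4c7_an.StmB

open MeasureTheory Complex Metric Set Filter Topology
open scoped ComplexConjugate ENNReal NNReal

namespace Cal

theorem piece_ALp (h1 : S_lim) (h2 : S_funq) (h3 : S_avg) (h4 : S_dWD) (h5 : S_hom)
    (h6 : S_apx) : S_ALp := by
  intro κ hκ0 hκ1 μ hμ z ε hε
  have hμ' : Mu κ (5 / 4) μ := ⟨hμ.meas, hμ.bd, fun w hw => hμ.supp w (by linarith), hμ.symm⟩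
  obtain ⟨C, δ, hδ, hlim⟩ := h1 κ hκ0 hκ1
  have hd : ∀ (m n : ℕ) (f d : ℂ → ℂ), FMN μ m n f d → 1 ≤ m + n →
      (∀ z, ‖d z‖ ≤ C / (1 + ‖z‖)) ∧
        ∀ ε, 0 < ε → ∀ z z', ‖z - z'‖ < δ ε → ‖d z - d z'‖ ≤ ε := by
    intro m n f d hF hmn
    obtain ⟨f', d', hF', hb⟩ := hlim μ hμ m n
    have e : d = d' := funext ((h2 κ hκ0 hκ1 μ hμ m n f d f' d' hF hF').2 hmn)
    rw [e]
    exact hb hmn
  have hε4 : 0 < ε / 4 := by linarith
  have hδ4 := hδ _ hε4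
  set r : ℝ := δ (ε / 4) / 2 with hr
  have hr0 : 0 < r := by rw [hr]; linarith
  set L : ℝ := r + 1 + ‖z‖ + 4 * |C| / ε with hL
  have hCε : 0 ≤ 4 * |C| / ε := by positivity
  have hrL : r < L := by
    have := norm_nonneg z
    rw [hL]; linarith
  obtain ⟨η, hη, havg⟩ := h3 z r L hr0 hrL
  obtain ⟨K, hK0, hdW⟩ := h4 κ hκ0 hκ1
  obtain ⟨C₂, hC₂, hhom⟩ := h5 κ hκ0 hκ1 η hη
  have hpi := Real.pi_pos
  set T : ℝ := Real.pi * ε / (4 * ((C₂ + 1) * (K + 1))) with hT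
  have hT0 : 0 < T := by positivity
  have hTK : C₂ * T * (K + 1) ≤ Real.pi * ε / 4 := by
    have e1 : T * (4 * ((C₂ + 1) * (K + 1))) = Real.pi * ε := by
      rw [hT]
      field_simp
    have e2 : 0 ≤ T * (K + 1) := by positivity
    nlinarith
  obtain ⟨ν, hν, hμν⟩ := h6 κ hκ0 hκ1 μ hμ T hT0
  obtain ⟨C₁, hC₁, hfin⟩ := hhom ν hν
  refine ⟨⌈4 * C₁ / (Real.pi * ε)⌉₊ + 1, fun m n hmn f d hF => ?_⟩
  have hmn1 : 1 ≤ m + n := by omega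
  obtain ⟨A, B, hWD, hB, hA2, _, hAn, _, _⟩ := hdW μ hμ' m n f d hF hmn1
  obtain ⟨hb1, hb2⟩ := hd m n f d hF hmn1
  have hI := hfin μ hμ' m n f d A B hmn1 hF hWD hB K T hK0 hT0.le hA2 hAn hμν
  have hmnR : 4 * C₁ / (Real.pi * ε) ≤ ((m + n : ℕ) : ℝ) := by
    have e1 := Nat.le_ceil (4 * C₁ / (Real.pi * ε))
    have e2 : ((⌈4 * C₁ / (Real.pi * ε)⌉₊ + 1 : ℕ) : ℝ) ≤ ((m + n : ℕ) : ℝ) := by
      exact_mod_cast hmn
    push_cast at e2 ⊢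
    linarith
  have hmn0 : (0 : ℝ) < ((m + n : ℕ) : ℝ) := by exact_mod_cast hmn1
  have hC1b : C₁ / ((m + n : ℕ) : ℝ) ≤ Real.pi * ε / 4 := by
    rw [div_le_iff₀ hmn0]
    rw [div_le_iff₀ (by positivity)] at hmnR
    linarith
  have h := havg d A B (ε / 4) (ε / 4) hWD hF.dcont (by
    intro w hw
    refine hb2 _ hε4 w z ?_
    rw [hr] at hw
    linarith) (by
    intro w hw
    refine (hb1 w).trans ?_
    have hw2 : ‖w - z‖ ≤ ‖w‖ + ‖z‖ := norm_sub_le _ _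
    have hw3 : 4 * |C| / ε ≤ ‖w‖ := by
      rw [hL] at hw
      linarith
    rw [div_le_iff₀ hε] at hw3
    rw [div_le_iff₀ (by linarith [norm_nonneg w])]
    have hCa := le_abs_self C
    nlinarith [norm_nonneg w])
  have hfinal : Real.pi * ‖d z‖ ≤ Real.pi * ε := by linarith
  exact le_of_mul_le_mul_left hfinal hpi

end Cal
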