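import Pool.Agent.Lib.MP_4ea4c7_an.Stm1

set_option autoImplicit false

/-!
# MP_4ea4c7_an: Cauchy transform of test functions
-/

open MeasureTheory Complex Metric Set Filter Topology
open scoped ComplexConjugate ENNReal NNReal Convolution

namespace Cal

private theorem C1_loc : LocallyIntegrable (fun t : ℂ => t⁻¹) (volume : Measure ℂ) := by
  rw [locallyIntegrable_iff]
  intro K hK
  obtain ⟨r, hr⟩ := hK.isBounded.subset_ball (0 : ℂ)
  refine IntegrableOn.mono_set ?_ hr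
  have h1 : IntegrableOn (fun x : ℂ => (‖x‖)⁻¹) (ball (0 : ℂ) r) volume := by
    rw [integrableOn_fun_norm_addHaar volume (f := fun y : ℝ => y⁻¹)]
    rw [Complex.finrank_real_complex]
    have h2 : IntegrableOn (fun _ : ℝ => (1 : ℝ)) (Ioo 0 r) volume :=
      integrableOn_const (by simp)
    refine h2.congr_fun (fun y hy => ?_) measurableSet_Ioo
    have : y ≠ 0 := hy.1.ne'
    simp [this]
  refine Integrable.mono' h1 (measurable_inv.aestronglyMeasurable) ?_
  exact Filter.Eventually.of_forall fun x => by simp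

private noncomputable def C1_L : ℂ →L[ℝ] ℂ →L[ℝ] ℂ := ContinuousLinearMap.mul ℝ ℂ

private noncomputable def C1_T (w : ℂ → ℂ) : ℂ → ℂ :=
  (fun t : ℂ => t⁻¹) ⋆[C1_L, volume] w

private theorem C1_T_apply (w : ℂ → ℂ) (z : ℂ) : C1_T w z = ∫ t, t⁻¹ * w (z - t) := rfl

private theorem C1_Ct (w : ℂ → ℂ) (z : ℂ) : Ct w z = (1 / (Real.pi : ℂ)) * C1_T w z := by
  rw [C1_T_apply, Ct, ← integral_sub_left_eq_self (fun ζ => w ζ / (z - ζ)) volume z]
  congr 1
  refine integral_congr_ae (Filter.Eventually.of_forall fun t => ?_)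
  simp only [sub_sub_cancel]
  rw [div_eq_mul_inv, mul_comm]

private theorem C1_Ct' (w : ℂ → ℂ) : Ct w = fun z => (1 / (Real.pi : ℂ)) * C1_T w z :=
  funext (C1_Ct w)

private theorem C1_fd {w : ℂ → ℂ} (hw : ContDiff ℝ (⊤ : ℕ∞) w) (hc : HasCompactSupport w)
    (z v : ℂ) : DifferentiableAt ℝ (C1_T w) z ∧
      fderiv ℝ (C1_T w) z v = C1_T (fun t => fderiv ℝ w t v) z := by
  have h1 := hc.hasFDerivAt_convolution_right C1_L C1_loc
    (hw.of_le (by exact_mod_cast le_top)) z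
  refine ⟨h1.differentiableAt, ?_⟩
  have h2 : fderiv ℝ (C1_T w) z = _ := h1.fderiv
  rw [h2, convolution_precompR_apply C1_L C1_loc (hc.fderiv ℝ)
    (hw.continuous_fderiv (by simp))]
  rfl

private theorem C1_int {w : ℂ → ℂ} (hw : Continuous w) (hc : HasCompactSupport w) (z : ℂ) :
    Integrable (fun t : ℂ => t⁻¹ * w (z - t)) volume :=
  hc.convolutionExists_right C1_L C1_loc hw z

private theorem C1_fdc {w : ℂ → ℂ} (hw : ContDiff ℝ (⊤ : ℕ∞) w) (v : ℂ) :
    Continuous fun t => fderiv ℝ w t v :=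
  (hw.continuous_fderiv (by simp)).clm_apply continuous_const

private theorem C1_fdcs {w : ℂ → ℂ} (hc : HasCompactSupport w) (v : ℂ) :
    HasCompactSupport fun t => fderiv ℝ w t v :=
  (hc.fderiv ℝ).mono fun t ht h0 => ht (by simp [h0])

private theorem C1_lin {w : ℂ → ℂ} (hw : ContDiff ℝ (⊤ : ℕ∞) w) (hc : HasCompactSupport w)
    (z c : ℂ) : C1_T (fun t => (fderiv ℝ w t 1 + c * fderiv ℝ w t I) / 2) z =
      (C1_T (fun t => fderiv ℝ w t 1) z + c * C1_T (fun t => fderiv ℝ w t I) z) / 2 := by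
  simp only [C1_T_apply]
  rw [← integral_const_mul, ← integral_add (C1_int (C1_fdc hw 1) (C1_fdcs hc 1) z)
    ((C1_int (C1_fdc hw I) (C1_fdcs hc I) z).const_mul c), ← integral_div]
  refine integral_congr_ae (Filter.Eventually.of_forall fun t => ?_)
  simp only
  ring

private theorem C1_fdCt {w : ℂ → ℂ} (hw : ContDiff ℝ (⊤ : ℕ∞) w) (hc : HasCompactSupport w)
    (z v : ℂ) : fderiv ℝ (Ct w) z v =
      (1 / (Real.pi : ℂ)) * C1_T (fun t => fderiv ℝ w t v) z := by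
  rw [C1_Ct', fderiv_const_mul (C1_fd hw hc z v).1]
  rw [smul_apply, (C1_fd hw hc z v).2, smul_eq_mul]

private theorem C1_bd {w : ℂ → ℂ} (hw : ContDiff ℝ (⊤ : ℕ∞) w) (hc : HasCompactSupport w)
    (hC : Continuous (Ct w)) : ∃ C : ℝ, ∀ z, ‖Ct w z‖ ≤ C / (1 + ‖z‖) := by
  obtain ⟨R, hR1, hR⟩ : ∃ R : ℝ, 1 ≤ R ∧ ∀ ζ, w ζ ≠ 0 → ‖ζ‖ ≤ R := by
    obtain ⟨r, hr⟩ := hc.isCompact.isBounded.subset_closedBall (0 : ℂ)
    refine ⟨max 1 r, le_max_left _ _, fun ζ hζ => ?_⟩
    have := hr (subset_tsupport w hζ)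
    rw [mem_closedBall_zero_iff] at this
    exact this.trans (le_max_right _ _)
  obtain ⟨M, hM⟩ := (isCompact_closedBall (0 : ℂ) (2 * R)).exists_bound_of_continuousOn
    hC.continuousOn
  have hint : Integrable (fun ζ => ‖w ζ‖) volume :=
    (hw.continuous.integrable_of_hasCompactSupport hc).norm
  set A := ∫ ζ, ‖w ζ‖ with hA
  have hA0 : 0 ≤ A := integral_nonneg fun _ => norm_nonneg _
  have hM0 : 0 ≤ M := (norm_nonneg _).trans (hM 0 (by simp; linarith))
  refine ⟨M * (1 + 2 * R) + 4 * A, fun z => ?_⟩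
  have hz0 : 0 < 1 + ‖z‖ := by positivity
  rw [le_div_iff₀ hz0]
  rcases le_or_gt ‖z‖ (2 * R) with hz | hz
  · have h1 := hM z (by simpa using hz)
    have h2 : ‖Ct w z‖ * (1 + ‖z‖) ≤ M * (1 + 2 * R) :=
      mul_le_mul h1 (by linarith) hz0.le hM0
    linarith
  · have hzp : 0 < ‖z‖ := by linarith
    have h3 : ‖∫ ζ, w ζ / (z - ζ)‖ ≤ ∫ ζ, (2 / ‖z‖) * ‖w ζ‖ := by
      refine norm_integral_le_of_norm_le (hint.const_mul _)
        (Filter.Eventually.of_forall fun ζ => ?_)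
      by_cases h0 : w ζ = 0
      · simp [h0]
      · have h4 := hR ζ h0
        have h5 : ‖z‖ / 2 ≤ ‖z - ζ‖ := by
          have := norm_sub_norm_le z ζ
          linarith
        rw [norm_div, div_eq_mul_inv, mul_comm]
        refine mul_le_mul_of_nonneg_right ?_ (norm_nonneg _)
        rw [inv_eq_one_div, div_le_div_iff₀ (by linarith) hzp]
        linarith
    rw [integral_const_mul, ← hA] at h3
    have h6 : ‖Ct w z‖ ≤ 2 / ‖z‖ * A := by
      unfold Ct
      rw [norm_mul]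
      have h7 : ‖1 / (Real.pi : ℂ)‖ ≤ 1 := by
        rw [norm_div, norm_one, Complex.norm_real, Real.norm_eq_abs, abs_of_pos Real.pi_pos,
          div_le_one Real.pi_pos]
        linarith [Real.pi_gt_three]
      calc ‖1 / (Real.pi : ℂ)‖ * ‖∫ ζ, w ζ / (z - ζ)‖ ≤ 1 * (2 / ‖z‖ * A) :=
            mul_le_mul h7 h3 (norm_nonneg _) zero_le_one
        _ = _ := one_mul _
    have h8 : 2 / ‖z‖ * A * (1 + ‖z‖) ≤ 4 * A := by
      have h9 : 2 / ‖z‖ * (1 + ‖z‖) ≤ 4 := by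
        rw [div_mul_eq_mul_div, div_le_iff₀ hzp]
        nlinarith
      nlinarith
    have h10 : ‖Ct w z‖ * (1 + ‖z‖) ≤ 2 / ‖z‖ * A * (1 + ‖z‖) :=
      mul_le_mul_of_nonneg_right h6 hz0.le
    have h11 : 0 ≤ M * (1 + 2 * R) := by positivity
    linarith

theorem piece_C1 : S_C1 := by
  rintro w ⟨hw, hc, -⟩
  have hCD : ContDiff ℝ (⊤ : ℕ∞) (Ct w) := by
    rw [C1_Ct']
    exact contDiff_const.mul (hc.contDiff_convolution_right C1_L C1_loc hw)
  refine ⟨hCD, fun z => ?_, fun z => ?_, C1_bd hw hc hCD.continuous⟩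
  · rw [C1_Ct (db w) z]
    unfold db
    rw [C1_fdCt hw hc, C1_fdCt hw hc, C1_lin hw hc z I]
    ring
  · rw [C1_Ct (dz w) z]
    have h1 : dz w = fun t => (fderiv ℝ w t 1 + (-I) * fderiv ℝ w t I) / 2 := by
      funext t
      unfold dz
      ring
    rw [h1, C1_lin hw hc z (-I)]
    unfold dz
    rw [C1_fdCt hw hc, C1_fdCt hw hc]
    ring

end Cal
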