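import Pool.Agent.Lib.MP_4ea4c7_an.StmD

/-!
# Piece J3: the form on smooth functions separated on the diameter
-/

open MeasureTheory Complex Metric Set Filter Topology
open scoped ComplexConjugate ENNReal NNReal

namespace Cal

noncomputable section

private lemma E1_isOpen : IsOpen HB := by
  have h1 : IsOpen {z : ℂ | ‖z‖ < 1} := isOpen_lt continuous_norm continuous_const
  have h2 : IsOpen {z : ℂ | 0 < z.im} := isOpen_lt continuous_const Complex.continuous_im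
  exact h1.inter h2

private lemma E1_cond {κ : ℝ} (h0 : 0 ≤ κ) (h1 : κ < 1) {μ : ℂ → ℝ} (h : Mu κ 1 μ) :
    Cond ((1 - κ) / (1 + κ)) ((1 + κ) / (1 - κ)) (gam μ) := by
  have hb : ∀ z, -κ ≤ μ z ∧ μ z ≤ κ := fun z => abs_le.1 (h.bd z)
  refine ⟨?_, fun z => ?_, fun z => ?_⟩
  · exact (measurable_const.add h.meas).div (measurable_const.sub h.meas)
  · obtain ⟨ha, hb⟩ := hb z
    show (1 - κ) / (1 + κ) ≤ (1 + μ z) / (1 - μ z)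
    rw [div_le_div_iff₀ (by linarith) (by linarith)]
    nlinarith
  · obtain ⟨ha, hb⟩ := hb z
    show (1 + μ z) / (1 - μ z) ≤ (1 + κ) / (1 - κ)
    rw [div_le_div_iff₀ (by linarith) (by linarith)]
    nlinarith

private lemma E1_gr_memLp {Φ : ℂ → ℝ} (h : RTF univ Φ) : MemLp (gr Φ) 2 volume := by
  have hc : Continuous (gr Φ) := by
    have h1 : Continuous (fderiv ℝ Φ) := h.1.continuous_fderiv (by simp)
    unfold gr
    fun_prop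
  have hs : HasCompactSupport (gr Φ) := by
    have h1 : HasCompactSupport (fderiv ℝ Φ) := h.2.1.fderiv ℝ
    refine h1.comp_left (g := fun L : ℂ →L[ℝ] ℝ => ((L 1 : ℝ) : ℂ) + I * ((L I : ℝ) : ℂ)) ?_
    simp
  exact hc.memLp_of_hasCompactSupport hs

private lemma E1_lim {Ω : Set ℂ} {γ₁ γ₂ : ℂ → ℝ}
    (hadd : ∀ G G' H, MemLp G 2 (volume.restrict Ω) → MemLp G' 2 (volume.restrict Ω) →
      MemLp H 2 (volume.restrict Ω) →
      bb Ω γ₁ γ₂ (fun z => G z + G' z) H = bb Ω γ₁ γ₂ G H + bb Ω γ₁ γ₂ G' H)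
    {K : ℝ} (hK : 0 ≤ K)
    (hb : ∀ G H, MemLp G 2 (volume.restrict Ω) → MemLp H 2 (volume.restrict Ω) →
      |bb Ω γ₁ γ₂ G H| ≤ K * (eLpNorm G 2 (volume.restrict Ω)).toReal *
        (eLpNorm H 2 (volume.restrict Ω)).toReal)
    (G H : ℂ → ℂ) (hG : MemLp G 2 (volume.restrict Ω)) (hH : MemLp H 2 (volume.restrict Ω))
    (happ : ∀ ε : ℝ, 0 < ε → ∃ G', MemLp G' 2 (volume.restrict Ω) ∧
      eLpNorm (fun z => G z - G' z) 2 (volume.restrict Ω) < ENNReal.ofReal ε ∧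
      bb Ω γ₁ γ₂ G' H = 0) : bb Ω γ₁ γ₂ G H = 0 := by
  set N := (eLpNorm H 2 (volume.restrict Ω)).toReal with hN
  have hN0 : 0 ≤ N := ENNReal.toReal_nonneg
  have key : ∀ ε : ℝ, 0 < ε → |bb Ω γ₁ γ₂ G H| ≤ K * N * ε := by
    intro ε hε
    obtain ⟨G', hG', h1, h2⟩ := happ ε hε
    have h3 : MemLp (fun z => G z - G' z) 2 (volume.restrict Ω) := hG.sub hG'
    have h4 := hadd (fun z => G z - G' z) G' H h3 hG' hH
    have h5 : (fun z => G z - G' z + G' z) = G := by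
      funext z
      ring
    simp only [h5] at h4
    rw [h4, h2, add_zero]
    refine (hb _ _ h3 hH).trans ?_
    have h6 : (eLpNorm (fun z => G z - G' z) 2 (volume.restrict Ω)).toReal ≤ ε :=
      ENNReal.toReal_le_of_le_ofReal hε.le h1.le
    calc K * (eLpNorm (fun z => G z - G' z) 2 (volume.restrict Ω)).toReal * N
        ≤ K * ε * N := by gcongr
      _ = K * N * ε := by ring
  by_contra hne
  have hpos : 0 < |bb Ω γ₁ γ₂ G H| := abs_pos.2 hne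
  have h1 := key (|bb Ω γ₁ γ₂ G H| / (2 * (K * N + 1))) (by positivity)
  have h2 : K * N * (|bb Ω γ₁ γ₂ G H| / (2 * (K * N + 1))) ≤ |bb Ω γ₁ γ₂ G H| / 2 := by
    rw [mul_div_assoc', div_le_div_iff₀ (by positivity) (by norm_num)]
    nlinarith [mul_nonneg hK hN0]
  linarith

theorem piece_E1 (h1 : S_ccut) (h2 : S_dec) (h3 : S_sep) (h4 : S_52) (h5 : S_bb) : S_E1 := by
  intro κ hκ0 hκ1 μ₁ μ₂ hμ₁ hμ₂ hyp hout hleft
  have hc : 0 < (1 - κ) / (1 + κ) := div_pos (by linarith) (by linarith)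
  obtain ⟨hadd, _, hsymm, ⟨K, hK, hbd⟩, _, hbeq, hcongr⟩ :=
    h5 HB _ _ _ _ E1_isOpen hc (E1_cond hκ0 hκ1 hμ₁) (E1_cond hκ0 hκ1 hμ₂)
  have hgr : ∀ {Φ : ℂ → ℝ}, RTF univ Φ → MemLp (gr Φ) 2 (volume.restrict HB) := fun h =>
    (E1_gr_memLp h).restrict _
  have htf : ∀ {φ : ℂ → ℝ}, EvTF φ → RTF univ φ := fun h =>
    ⟨h.tf.1, h.tf.2.1, subset_univ _⟩
  -- functions vanishing near the corners
  have step1 : ∀ Φ Ψ, RTF univ Φ → RTF univ Ψ → ∀ t : ℝ,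
      (∀ z ∈ tsupport Φ, z.im = 0 → |z.re| ≤ 1 → t < z.re) →
      (∀ z ∈ tsupport Ψ, z.im = 0 → |z.re| ≤ 1 → z.re < t) →
      (∀ᶠ z in 𝓝 (1 : ℂ), Φ z = 0) → (∀ᶠ z in 𝓝 (-1 : ℂ), Φ z = 0) →
      (∀ᶠ z in 𝓝 (1 : ℂ), Ψ z = 0) → (∀ᶠ z in 𝓝 (-1 : ℂ), Ψ z = 0) →
      bb HB (gam μ₁) (gam μ₂) (gr Φ) (gr Ψ) = 0 := by
    intro Φ Ψ hΦ hΨ t htΦ htΨ hp hm hp' hm'
    obtain ⟨φ, ΦO, H, hφ, hO, hd, _, hax⟩ := h2 Φ hΦ hp hm
    obtain ⟨ψ, ΨO, H', hψ, hO', hd', _, hax'⟩ := h2 Ψ hΨ hp' hm'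
    have hH : MemLp H 2 (volume.restrict HB) := hO.mem.restrict _
    have hH' : MemLp H' 2 (volume.restrict HB) := hO'.mem.restrict _
    have hgφ := hgr (htf hφ)
    have hgψ := hgr (htf hψ)
    have e1 : gr Φ =ᵐ[volume.restrict HB] fun z => gr φ z + H z := by
      filter_upwards [ae_restrict_mem E1_isOpen.measurableSet] with z hz using hd z hz
    have e2 : gr Ψ =ᵐ[volume.restrict HB] fun z => gr ψ z + H' z := by
      filter_upwards [ae_restrict_mem E1_isOpen.measurableSet] with z hz using hd' z hz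
    have hre : ∀ z : ℂ, ∀ φ : ℂ → ℝ, EvTF φ → z ∈ axis φ → |z.re| ≤ 1 := by
      intro z φ hφ hz
      have h6 : ‖z‖ < 1 := by simpa using hφ.tf.2.2 hz.2
      exact (Complex.abs_re_le_norm z).trans h6.le
    have q1 : bb HB (gam μ₁) (gam μ₂) (gr φ) (gr ψ) = 0 := by
      refine h3 κ hκ0 hκ1 μ₁ μ₂ hμ₁ hμ₂ hyp hout hleft φ ψ hφ hψ t ?_ ?_
      · intro z hz
        exact htΦ z (hax z hz) hz.1 (hre z φ hφ hz)
      · intro z hz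
        exact htΨ z (hax' z hz) hz.1 (hre z ψ hψ hz)
    have q2 : bb HB (gam μ₁) (gam μ₂) (gr φ) H' = 0 :=
      h4 κ hκ0 hκ1 μ₁ μ₂ hμ₁ hμ₂ hyp hout φ ΨO H' hφ hO'
    have q3 : bb HB (gam μ₁) (gam μ₂) (gr ψ) H = 0 :=
      h4 κ hκ0 hκ1 μ₁ μ₂ hμ₁ hμ₂ hyp hout ψ ΦO H hψ hO
    have q4 : bb HB (gam μ₁) (gam μ₂) H' H = 0 :=
      (hbeq H' H hH' hH).1 (hyp ΨO H' ΦO H hO' hO)
    have r1 : MemLp (fun z => gr φ z + H z) 2 (volume.restrict HB) := hgφ.add hH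
    have r2 : MemLp (fun z => gr ψ z + H' z) 2 (volume.restrict HB) := hgψ.add hH'
    rw [(hcongr _ _ (gr Ψ) e1).1, (hcongr _ _ (fun z => gr φ z + H z) e2).2,
      hadd _ _ _ hgφ hH r2, hsymm _ _ hgφ r2, hsymm _ _ hH r2, hadd _ _ _ hgψ hH' hgφ,
      hadd _ _ _ hgψ hH' hH, hsymm _ _ hgψ hgφ, q1, hsymm _ _ hH' hgφ, q2, q3, q4]
    norm_num
  have hle : ∀ F : ℂ → ℂ, eLpNorm F 2 (volume.restrict HB) ≤ eLpNorm F 2 volume := fun F =>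
    eLpNorm_mono_measure F Measure.restrict_le_self
  -- one function vanishing near the corners
  have step2 : ∀ Φ Ψ, RTF univ Φ → RTF univ Ψ → ∀ t : ℝ,
      (∀ z ∈ tsupport Φ, z.im = 0 → |z.re| ≤ 1 → t < z.re) →
      (∀ z ∈ tsupport Ψ, z.im = 0 → |z.re| ≤ 1 → z.re < t) →
      (∀ᶠ z in 𝓝 (1 : ℂ), Ψ z = 0) → (∀ᶠ z in 𝓝 (-1 : ℂ), Ψ z = 0) →
      bb HB (gam μ₁) (gam μ₂) (gr Φ) (gr Ψ) = 0 := by
    intro Φ Ψ hΦ hΨ t htΦ htΨ hp' hm'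
    refine E1_lim hadd hK hbd _ _ (hgr hΦ) (hgr hΨ) fun ε hε => ?_
    obtain ⟨Φ', hΦ', hp, hm, hts, _, hn⟩ := h1 Φ hΦ ε hε
    exact ⟨gr Φ', hgr hΦ', (hle _).trans_lt hn, step1 Φ' Ψ hΦ' hΨ t
      (fun z hz => htΦ z (hts hz)) htΨ hp hm hp' hm'⟩
  intro Φ Ψ hΦ hΨ t htΦ htΨ
  show bb HB (gam μ₁) (gam μ₂) (gr Φ) (gr Ψ) = 0
  rw [hsymm _ _ (hgr hΦ) (hgr hΨ)]
  refine E1_lim hadd hK hbd _ _ (hgr hΨ) (hgr hΦ) fun ε hε => ?_
  obtain ⟨Ψ', hΨ', hp, hm, hts, _, hn⟩ := h1 Ψ hΨ ε hε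
  refine ⟨gr Ψ', hgr hΨ', (hle _).trans_lt hn, ?_⟩
  rw [hsymm _ _ (hgr hΨ') (hgr hΦ)]
  exact step2 Φ Ψ' hΦ hΨ' t htΦ (fun z hz => htΨ z (hts hz)) hp hm

end

end Cal
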