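import Pool.Agent.Lib.MP_4ea4c7_an.StmD

/-! Piece J7: the form vanishes on even test functions. -/

open MeasureTheory Complex Metric Set Filter Topology
open scoped ComplexConjugate ENNReal NNReal

namespace Cal

private lemma e3_open : IsOpen HB :=
  (isOpen_lt continuous_norm continuous_const).inter (isOpen_lt continuous_const continuous_im)

/-- real points of the closed disc are in the closure of the half disc -/
private lemma e3_clos {z : ℂ} (h1 : z.im = 0) (h2 : |z.re| ≤ 1) : z ∈ closure HB := by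
  rw [Metric.mem_closure_iff]
  intro ε hε
  set δ : ℝ := min (ε / 4) (1 / 4) with hδ
  have hδ0 : 0 < δ := by positivity
  have hδ1 : δ ≤ 1 / 4 := min_le_right _ _
  have hδ2 : δ ≤ ε / 4 := min_le_left _ _
  have hzr : z = (z.re : ℂ) := by
    apply Complex.ext <;> simp [h1]
  refine ⟨((1 - δ) * z.re : ℝ) + ((δ / 2 : ℝ) : ℂ) * I, ⟨?_, ?_⟩, ?_⟩
  · have n1 : ‖((((1 - δ) * z.re : ℝ) : ℂ))‖ ≤ 1 - δ := by
      rw [Complex.norm_real, norm_mul, Real.norm_eq_abs, Real.norm_eq_abs, abs_of_pos (by linarith)]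
      nlinarith
    have n2 : ‖((δ / 2 : ℝ) : ℂ) * I‖ = δ / 2 := by
      rw [norm_mul, norm_I, mul_one, Complex.norm_real, Real.norm_of_nonneg (by positivity)]
    calc _ ≤ ‖((((1 - δ) * z.re : ℝ) : ℂ))‖ + ‖((δ / 2 : ℝ) : ℂ) * I‖ := norm_add_le _ _
      _ < 1 := by rw [n2]; linarith
  · simp only [add_im, ofReal_im, mul_im, ofReal_re, I_im, mul_one, I_re, mul_zero, add_zero, zero_add]
    positivity
  · rw [dist_eq_norm]
    have e : z - (((1 - δ) * z.re : ℝ) + ((δ / 2 : ℝ) : ℂ) * I) = ((δ * z.re : ℝ) : ℂ) - ((δ / 2 : ℝ) : ℂ) * I := by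
      rw [hzr]
      simp only [ofReal_re]
      push_cast
      ring
    rw [e]
    have n1 : ‖((δ * z.re : ℝ) : ℂ)‖ ≤ δ := by
      rw [Complex.norm_real, norm_mul, Real.norm_eq_abs, Real.norm_eq_abs, abs_of_pos hδ0]
      nlinarith
    have n2 : ‖((δ / 2 : ℝ) : ℂ) * I‖ = δ / 2 := by
      rw [norm_mul, norm_I, mul_one, Complex.norm_real, Real.norm_of_nonneg (by positivity)]
    calc _ ≤ ‖((δ * z.re : ℝ) : ℂ)‖ + ‖((δ / 2 : ℝ) : ℂ) * I‖ := norm_sub_le _ _
      _ < ε := by rw [n2]; linarith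

private lemma e3_mem {Φ : ℂ → ℝ} (h : RTF univ Φ) : MemLp (gr Φ) 2 (volume.restrict HB) := by
  have hc : Continuous (gr Φ) := by
    have h0 : Continuous (fderiv ℝ Φ) := h.1.continuous_fderiv (by simp)
    unfold gr
    exact (continuous_ofReal.comp (h0.clm_apply continuous_const)).add
      (continuous_const.mul (continuous_ofReal.comp (h0.clm_apply continuous_const)))
  have hs : HasCompactSupport (gr Φ) := by
    refine HasCompactSupport.intro h.2.1 ?_
    intro z hz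
    unfold gr
    rw [fderiv_of_notMem_tsupport ℝ hz]
    simp
  exact (hc.memLp_of_hasCompactSupport hs).restrict _

private lemma e3_add {Φ Ψ : ℂ → ℝ} (h : RTF univ Φ) (h' : RTF univ Ψ) :
    RTF univ (fun z => Φ z + Ψ z) ∧ ∀ z, gr (fun z => Φ z + Ψ z) z = gr Φ z + gr Ψ z := by
  refine ⟨⟨h.1.add h'.1, h.2.1.add h'.2.1, subset_univ _⟩, fun z => ?_⟩
  have d1 : DifferentiableAt ℝ Φ z := (h.1.differentiable (by simp)).differentiableAt
  have d2 : DifferentiableAt ℝ Ψ z := (h'.1.differentiable (by simp)).differentiableAt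
  unfold gr
  have : fderiv ℝ (fun z => Φ z + Ψ z) z = fderiv ℝ Φ z + fderiv ℝ Ψ z := fderiv_add d1 d2
  rw [this, add_apply, add_apply]
  push_cast
  ring

private lemma e3_smul {Φ : ℂ → ℝ} (h : RTF univ Φ) (c : ℝ) :
    RTF univ (fun z => c * Φ z) ∧ ∀ z, gr (fun z => c * Φ z) z = (c : ℂ) * gr Φ z := by
  refine ⟨⟨contDiff_const.mul h.1, h.2.1.mul_left, subset_univ _⟩, fun z => ?_⟩
  have d1 : DifferentiableAt ℝ Φ z := (h.1.differentiable (by simp)).differentiableAt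
  unfold gr
  have : fderiv ℝ (fun z => c * Φ z) z = c • fderiv ℝ Φ z := by
    have := fderiv_const_mul d1 c
    exact this
  rw [this, smul_apply, smul_apply]
  simp only [smul_eq_mul]
  push_cast
  ring

private lemma e3_cond {κ : ℝ} (hκ0 : 0 ≤ κ) (hκ1 : κ < 1) {r : ℝ} {μ : ℂ → ℝ} (h : Mu κ r μ) :
    Cond ((1 - κ) / (1 + κ)) ((1 + κ) / (1 - κ)) (gam μ) := by
  have hb : ∀ z, -κ ≤ μ z ∧ μ z ≤ κ := fun z => abs_le.1 (h.bd z)
  refine ⟨?_, fun z => ?_, fun z => ?_⟩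
  · unfold gam
    have := h.meas
    fun_prop
  · unfold gam
    obtain ⟨a, b⟩ := hb z
    rw [div_le_div_iff₀ (by linarith) (by linarith)]
    nlinarith
  · unfold gam
    obtain ⟨a, b⟩ := hb z
    rw [div_le_div_iff₀ (by linarith) (by linarith)]
    nlinarith

/-- the bilinear form on smooth functions -/
private structure E3B (B : (ℂ → ℝ) → (ℂ → ℝ) → ℝ) (K : ℝ) : Prop where
  add : ∀ Φ Φ' Ψ, RTF univ Φ → RTF univ Φ' → RTF univ Ψ → B (fun z => Φ z + Φ' z) Ψ = B Φ Ψ + B Φ' Ψ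
  smul : ∀ (c : ℝ) Φ Ψ, RTF univ Φ → RTF univ Ψ → B (fun z => c * Φ z) Ψ = c * B Φ Ψ
  symm : ∀ Φ Ψ, RTF univ Φ → RTF univ Ψ → B Φ Ψ = B Ψ Φ
  K0 : 0 ≤ K
  bd : ∀ Φ Ψ, RTF univ Φ → RTF univ Ψ → |B Φ Ψ| ≤ K * (eLpNorm (gr Φ) 2 (volume.restrict HB)).toReal *
    (eLpNorm (gr Ψ) 2 (volume.restrict HB)).toReal
  one : ∀ Φ Ψ, RTF univ Φ → RTF univ Ψ → (∀ᶠ z in 𝓝ˢ (closure HB), Φ z = 1) → B Φ Ψ = 0

private lemma e3_B (h5 : S_bb) {κ : ℝ} (hκ0 : 0 ≤ κ) (hκ1 : κ < 1) {μ₁ μ₂ : ℂ → ℝ} (hμ₁ : Mu κ 1 μ₁)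
    (hμ₂ : Mu κ 1 μ₂) : ∃ K, E3B (fun Φ Ψ => bh μ₁ μ₂ (gr Φ) (gr Ψ)) K := by
  obtain ⟨a1, a2, a3, ⟨K, hK, a4⟩, -, -, a7⟩ := h5 HB ((1 - κ) / (1 + κ)) ((1 + κ) / (1 - κ)) (gam μ₁) (gam μ₂) e3_open
    (div_pos (by linarith) (by linarith)) (e3_cond hκ0 hκ1 hμ₁) (e3_cond hκ0 hκ1 hμ₂)
  refine ⟨K, ?_, ?_, ?_, hK, ?_, ?_⟩
  · intro Φ Φ' Ψ h h' h''
    show bb _ _ _ _ _ = bb _ _ _ _ _ + bb _ _ _ _ _
    rw [← a1 _ _ _ (e3_mem h) (e3_mem h') (e3_mem h'')]
    congr 1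
    funext z
    exact (e3_add h h').2 z
  · intro c Φ Ψ h h'
    show bb _ _ _ _ _ = c * bb _ _ _ _ _
    rw [← a2 _ _ c (e3_mem h) (e3_mem h')]
    congr 1
    funext z
    exact (e3_smul h c).2 z
  · intro Φ Ψ h h'
    exact a3 _ _ (e3_mem h) (e3_mem h')
  · intro Φ Ψ h h'
    exact a4 _ _ (e3_mem h) (e3_mem h')
  · intro Φ Ψ h h' h1
    have e : gr Φ =ᵐ[volume.restrict HB] fun z => ((0 : ℝ) : ℂ) * gr Ψ z := by
      refine ae_restrict_of_forall_mem e3_open.measurableSet fun z hz => ?_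
      show gr Φ z = ((0 : ℝ) : ℂ) * gr Ψ z
      rw [ofReal_zero, zero_mul]
      have hz' : ∀ᶠ w in 𝓝 z, Φ w = 1 := h1.filter_mono (nhds_le_nhdsSet (subset_closure hz))
      have : Φ =ᶠ[𝓝 z] fun _ => 1 := hz'
      unfold gr
      rw [this.fderiv_eq, fderiv_const_apply]
      simp
    show bb _ _ _ _ _ = 0
    rw [(a7 _ _ (gr Ψ) e).1, a2 _ _ 0 (e3_mem h') (e3_mem h'), zero_mul]

/-- sums -/
private lemma e3_sum {B : (ℂ → ℝ) → (ℂ → ℝ) → ℝ} {K : ℝ} (hB : E3B B K) (δ : ℕ → ℝ) (Λ : ℕ → ℂ → ℝ) (N : ℕ)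
    (hΛ : ∀ k, k < N → RTF univ (Λ k)) :
    RTF univ (fun z => ∑ k ∈ Finset.range N, δ k * Λ k z) ∧ ∀ Ψ, RTF univ Ψ →
      B (fun z => ∑ k ∈ Finset.range N, δ k * Λ k z) Ψ = ∑ k ∈ Finset.range N, δ k * B (Λ k) Ψ := by
  induction N with
  | zero =>
    have h0 : RTF univ (fun _ : ℂ => (0 : ℝ)) := by
      refine ⟨contDiff_const, ?_, subset_univ _⟩
      exact HasCompactSupport.zero
    refine ⟨by simpa using h0, fun Ψ hΨ => ?_⟩
    have := hB.smul 0 Ψ Ψ hΨ hΨ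
    simpa using this
  | succ N ih =>
    obtain ⟨i1, i2⟩ := ih (fun k hk => hΛ k (by omega))
    have s1 := e3_smul (hΛ N (by omega)) (δ N)
    have e : (fun z => ∑ k ∈ Finset.range (N + 1), δ k * Λ k z) =
        fun z => (∑ k ∈ Finset.range N, δ k * Λ k z) + δ N * Λ N z := by
      funext z
      rw [Finset.sum_range_succ]
    rw [e]
    refine ⟨(e3_add i1 s1.1).1, fun Ψ hΨ => ?_⟩
    rw [hB.add _ _ _ i1 s1.1 hΨ, i2 Ψ hΨ, hB.smul _ _ _ (hΛ N (by omega)) hΨ, Finset.sum_range_succ]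

private lemma e3_evrtf {φ : ℂ → ℝ} (h : EvTF φ) : RTF univ φ := ⟨h.tf.1, h.tf.2.1, subset_univ _⟩

/-- separated step functions -/
private lemma e3_sep {B : (ℂ → ℝ) → (ℂ → ℝ) → ℝ} {Kb : ℝ} (hB : E3B B Kb)
    (hE1 : ∀ Φ Ψ, RTF univ Φ → RTF univ Ψ →
      ∀ t : ℝ, (∀ z ∈ tsupport Φ, z.im = 0 → |z.re| ≤ 1 → t < z.re) →
        (∀ z ∈ tsupport Ψ, z.im = 0 → |z.re| ≤ 1 → z.re < t) → B Φ Ψ = 0)
    {h : ℝ} (hh : 0 < h) {x x' : ℝ} (hx : x + 2 * h ≤ x') {Λ Λ' Λ1 : ℂ → ℝ} (r1 : RTF univ Λ)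
    (r2 : RTF univ Λ') (r3 : RTF univ Λ1)
    (e1 : ∀ᶠ z in 𝓝ˢ (closure HB), Λ z = Real.smoothTransition ((z.re - x) / (h + z.im)))
    (e2 : ∀ᶠ z in 𝓝ˢ (closure HB), Λ' z = Real.smoothTransition ((z.re - x') / (h + z.im)))
    (e3 : ∀ᶠ z in 𝓝ˢ (closure HB), Λ1 z = 1) : B Λ Λ' = 0 := by
  have hΨ := e3_add r3 (e3_smul r1 (-1)).1
  have key := hE1 Λ' (fun z => Λ1 z + -1 * Λ z) r2 hΨ.1 (x + 3 * h / 2) ?_ ?_
  · have k1 : B Λ1 Λ' = 0 := hB.one Λ1 Λ' r3 r2 e3
    rw [hB.symm _ _ r2 hΨ.1, hB.add _ _ _ r3 (e3_smul r1 (-1)).1 r2, k1, hB.smul _ _ _ r1 r2] at key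
    linarith
  · intro z hz him hre
    by_contra hcon
    rw [not_lt] at hcon
    have hzc := e3_clos him hre
    have hz' := e2.filter_mono (nhds_le_nhdsSet hzc)
    have hlt : {w : ℂ | w.re < x'} ∈ 𝓝 z := (isOpen_lt continuous_re continuous_const).mem_nhds (by
      show z.re < x'
      linarith)
    have hpos : {w : ℂ | -h < w.im} ∈ 𝓝 z := (isOpen_lt continuous_const continuous_im).mem_nhds (by
      show -h < z.im
      rw [him]
      linarith)
    refine notMem_tsupport_iff_eventuallyEq.2 ?_ hz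
    filter_upwards [hz', hlt, hpos] with w w1 w2 w3
    rw [w1]
    refine Real.smoothTransition.zero_of_nonpos ?_
    have w2' : w.re < x' := w2
    have w3' : -h < w.im := w3
    exact div_nonpos_of_nonpos_of_nonneg (by linarith) (by linarith)
  · intro z hz him hre
    by_contra hcon
    rw [not_lt] at hcon
    have hzc := e3_clos him hre
    have hz' := e1.filter_mono (nhds_le_nhdsSet hzc)
    have hz'' := e3.filter_mono (nhds_le_nhdsSet hzc)
    have hlt : {w : ℂ | x + h + w.im < w.re} ∈ 𝓝 z :=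
      (isOpen_lt (continuous_const.add continuous_im) continuous_re).mem_nhds (by
        show x + h + z.im < z.re
        rw [him]
        linarith)
    have hpos : {w : ℂ | -h < w.im} ∈ 𝓝 z := (isOpen_lt continuous_const continuous_im).mem_nhds (by
      show -h < z.im
      rw [him]
      linarith)
    refine notMem_tsupport_iff_eventuallyEq.2 ?_ hz
    filter_upwards [hz', hz'', hlt, hpos] with w w1 w4 w2 w3
    show Λ1 w + -1 * Λ w = 0
    have w2' : x + h + w.im < w.re := w2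
    have w3' : -h < w.im := w3
    rw [w1, w4, Real.smoothTransition.one_of_one_le]
    · ring
    · rw [one_le_div (by linarith)]
      linarith

private lemma e3_log {K : ℕ} (hK : 2 ≤ K) : (1 + Real.log K) / K ≤ 2 / Real.sqrt K := by
  have hK0 : (0 : ℝ) < K := by exact_mod_cast (by omega : 0 < K)
  have hs : 0 < Real.sqrt K := Real.sqrt_pos.2 hK0
  have h1 : Real.log (Real.sqrt K) ≤ Real.sqrt K - 1 := Real.log_le_sub_one_of_pos hs
  have h2 : Real.log K = 2 * Real.log (Real.sqrt K) := by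
    rw [Real.log_sqrt hK0.le]
    ring
  have h3 : 1 + Real.log K ≤ 2 * Real.sqrt K := by
    rw [h2]
    linarith
  have h4 : Real.sqrt K * Real.sqrt K = K := Real.mul_self_sqrt hK0.le
  rw [div_le_div_iff₀ hK0 hs]
  nlinarith

theorem piece_E3 (h1 : S_step) (h2 : S_interp) (h3 : S_tr0) (h4 : S_E1) (h5 : S_bb) : S_E3 := by
  intro κ hκ0 hκ1 μ₁ μ₂ hμ₁ hμ₂ hyp hpo hle φ ψ hφ hψ
  obtain ⟨Kb, hB⟩ := e3_B h5 hκ0 hκ1 hμ₁ hμ₂
  have hE1 := h4 κ hκ0 hκ1 μ₁ μ₂ hμ₁ hμ₂ hyp hpo hle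
  have htr := h3 κ hκ0 hκ1 μ₁ μ₂ hμ₁ hμ₂ hyp hpo
  set B : (ℂ → ℝ) → (ℂ → ℝ) → ℝ := fun Φ Ψ => bh μ₁ μ₂ (gr Φ) (gr Ψ) with hBdef
  show B φ ψ = 0
  have rφ := e3_evrtf hφ
  have rψ := e3_evrtf hψ
  obtain ⟨Cs, hCs0, hs⟩ := h1
  obtain ⟨Ca, hCa0, ha⟩ := h2 φ hφ
  obtain ⟨Cb, hCb0, hb⟩ := h2 ψ hψ
  set n1 := (eLpNorm (gr φ) 2 (volume.restrict HB)).toReal with hn1
  set n2 := (eLpNorm (gr ψ) 2 (volume.restrict HB)).toReal with hn2
  have hn1' : 0 ≤ n1 := ENNReal.toReal_nonneg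
  have hn2' : 0 ≤ n2 := ENNReal.toReal_nonneg
  have hKb := hB.K0
  -- the estimate for every `K`
  have main : ∀ K : ℕ, 2 ≤ K → |B φ ψ| ≤ (6 * Ca * Cb * Kb * Cs ^ 2 + Kb * n1 * Cb + Kb * Ca * Cb + Kb * Ca * n2) /
      Real.sqrt K := by
    intro K hK
    have hK0 : (0 : ℝ) < K := by exact_mod_cast (by omega : 0 < K)
    have hK1 : (1 : ℝ) ≤ K := by exact_mod_cast (by omega : 1 ≤ K)
    have hsK : 0 < Real.sqrt K := Real.sqrt_pos.2 hK0
    have hsK1 : 1 ≤ Real.sqrt K := by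
      rw [show (1 : ℝ) = Real.sqrt 1 by simp]
      exact Real.sqrt_le_sqrt hK1
    obtain ⟨Λ, l1, l2, l3, Λ1, l4, l5⟩ := hs K hK
    obtain ⟨a1, E, a2, a3, a4⟩ := ha K hK
    obtain ⟨b1, E', b2, b3, b4⟩ := hb K hK
    set δ : ℕ → ℝ := fun k => φ ((-1 + ((k : ℝ) + 1) * (2 / (K : ℝ)) : ℝ) : ℂ) -
      φ ((-1 + (k : ℝ) * (2 / (K : ℝ)) : ℝ) : ℂ) with hδ
    set δ' : ℕ → ℝ := fun k => ψ ((-1 + ((k : ℝ) + 1) * (2 / (K : ℝ)) : ℝ) : ℂ) -
      ψ ((-1 + (k : ℝ) * (2 / (K : ℝ)) : ℝ) : ℂ) with hδ'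
    obtain ⟨p1, p2⟩ := e3_sum hB δ Λ K l1
    obtain ⟨p1', p2'⟩ := e3_sum hB δ' Λ K l1
    have hΛx : ∀ (k : ℕ) (x : ℝ), k < K → |x| ≤ 1 → Λ k x =
        Real.smoothTransition ((x - (-1 + k * (2 / (K : ℝ)))) / (2 / (K : ℝ))) := by
      intro k x hk hx
      have hc : (x : ℂ) ∈ closure HB := e3_clos (by simp) (by simpa using hx)
      have := ((l2 k hk).filter_mono (nhds_le_nhdsSet hc)).self_of_nhds
      simpa using this
    -- decomposition
    have dec : ∀ (f : ℂ → ℝ) (e : ℂ → ℝ) (d : ℕ → ℝ), RTF univ f → RTF univ e →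
        RTF univ (fun z => ∑ k ∈ Finset.range K, d k * Λ k z) →
        (∀ x : ℝ, |x| ≤ 1 → e x = f x - ∑ k ∈ Finset.range K, d k *
          Real.smoothTransition ((x - (-1 + k * (2 / (K : ℝ)))) / (2 / (K : ℝ)))) →
        ∀ Ψ, RTF univ Ψ → B f Ψ = B (fun z => ∑ k ∈ Finset.range K, d k * Λ k z) Ψ + B e Ψ := by
      intro f e d rf re rP he Ψ hΨ
      have s1 := e3_smul rP (-1)
      have s2 := e3_smul re (-1)
      have s3 := e3_add rf s1.1
      have s4 := e3_add s3.1 s2.1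
      have hz := htr _ Ψ s4.1 hΨ (by
        intro x hx
        show f x + -1 * (∑ k ∈ Finset.range K, d k * Λ k x) + -1 * e x = 0
        rw [he x hx]
        have : ∑ k ∈ Finset.range K, d k * Λ k x = ∑ k ∈ Finset.range K, d k *
            Real.smoothTransition ((x - (-1 + k * (2 / (K : ℝ)))) / (2 / (K : ℝ))) := by
          refine Finset.sum_congr rfl fun k hk => ?_
          rw [hΛx k x (Finset.mem_range.1 hk) hx]
        rw [this]
        ring)
      have hz' : B (fun z => f z + -1 * (∑ k ∈ Finset.range K, d k * Λ k z) + -1 * e z) Ψ = 0 := hz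
      rw [hB.add _ _ _ s3.1 s2.1 hΨ, hB.add _ _ _ rf s1.1 hΨ, hB.smul _ _ _ rP hΨ, hB.smul _ _ _ re hΨ] at hz'
      linarith
    have d1 := dec φ E δ rφ a2 p1 a3
    have d2 := dec ψ E' δ' rψ b2 p1' b3
    set P : ℂ → ℝ := fun z => ∑ k ∈ Finset.range K, δ k * Λ k z with hP
    set P' : ℂ → ℝ := fun z => ∑ k ∈ Finset.range K, δ' k * Λ k z with hP'
    have f1 : B φ ψ = B P' P + (B φ E' - B E E') + B E ψ := by
      have q1 := d1 ψ rψ
      have q2 := d2 P p1
      have q3 := d1 E' b2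
      rw [q1, hB.symm P ψ p1 rψ, q2, hB.symm E' P b2 p1]
      linarith
    -- the double sum
    have f2 : B P' P = ∑ k ∈ Finset.range K, ∑ l ∈ Finset.range K, δ' k * (δ l * B (Λ l) (Λ k)) := by
      rw [p2' P p1]
      refine Finset.sum_congr rfl fun k hk => ?_
      rw [hB.symm _ _ (l1 k (Finset.mem_range.1 hk)) p1, p2 _ (l1 k (Finset.mem_range.1 hk)), Finset.mul_sum]
    have f3 : ∀ k l, k < K → l < K → k + 2 ≤ l → B (Λ k) (Λ l) = 0 := by
      intro k l hk hl hkl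
      refine e3_sep hB hE1 (h := 2 / (K : ℝ)) (x := -1 + k * (2 / (K : ℝ))) (x' := -1 + l * (2 / (K : ℝ)))
        (by positivity) ?_ (l1 k hk) (l1 l hl) l4 (l2 k hk) (l2 l hl) l5
      have : (k : ℝ) + 2 ≤ l := by exact_mod_cast hkl
      have h0 : 0 < 2 / (K : ℝ) := by positivity
      nlinarith
    set T : ℝ := (Cb / K) * ((Ca / K) * (Kb * (Cs * Real.sqrt (1 + Real.log K)) * (Cs * Real.sqrt (1 + Real.log K)))) with hT
    have hT0 : 0 ≤ T := by positivity
    have f4 : ∀ k l, k < K → l < K → |δ' k * (δ l * B (Λ l) (Λ k))| ≤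
        if (k ≤ l + 1 ∧ l ≤ k + 1) then T else 0 := by
      intro k l hk hl
      split_ifs with hc
      · rw [abs_mul, abs_mul, hT]
        have u1 : |δ' k| ≤ Cb / K := b1 k hk
        have u2 : |δ l| ≤ Ca / K := a1 l hl
        have u3 : |B (Λ l) (Λ k)| ≤ Kb * (Cs * Real.sqrt (1 + Real.log K)) * (Cs * Real.sqrt (1 + Real.log K)) := by
          refine (hB.bd _ _ (l1 l hl) (l1 k hk)).trans ?_
          have v1 := l3 l hl
          have v2 := l3 k hk
          have v3 : 0 ≤ (eLpNorm (gr (Λ l)) 2 (volume.restrict HB)).toReal := ENNReal.toReal_nonneg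
          have v4 : 0 ≤ (eLpNorm (gr (Λ k)) 2 (volume.restrict HB)).toReal := ENNReal.toReal_nonneg
          gcongr
        have w1 := abs_nonneg (δ' k)
        have w2 := abs_nonneg (δ l)
        have w3 := abs_nonneg (B (Λ l) (Λ k))
        gcongr
      · have : B (Λ l) (Λ k) = 0 := by
          rw [not_and_or, not_le, not_le] at hc
          rcases hc with hc | hc
          · exact f3 l k hl hk (by omega)
          · rw [hB.symm _ _ (l1 l hl) (l1 k hk)]
            exact f3 k l hk hl (by omega)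
        rw [this]
        simp
    have f5 : |B P' P| ≤ K * (3 * T) := by
      rw [f2]
      calc |∑ k ∈ Finset.range K, ∑ l ∈ Finset.range K, δ' k * (δ l * B (Λ l) (Λ k))|
          ≤ ∑ k ∈ Finset.range K, |∑ l ∈ Finset.range K, δ' k * (δ l * B (Λ l) (Λ k))| :=
            Finset.abs_sum_le_sum_abs _ _
        _ ≤ ∑ k ∈ Finset.range K, 3 * T := by
            refine Finset.sum_le_sum fun k hk => ?_
            calc |∑ l ∈ Finset.range K, δ' k * (δ l * B (Λ l) (Λ k))|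
                ≤ ∑ l ∈ Finset.range K, |δ' k * (δ l * B (Λ l) (Λ k))| := Finset.abs_sum_le_sum_abs _ _
              _ ≤ ∑ l ∈ Finset.range K, (if (k ≤ l + 1 ∧ l ≤ k + 1) then T else 0) :=
                  Finset.sum_le_sum fun l hl => f4 k l (Finset.mem_range.1 hk) (Finset.mem_range.1 hl)
              _ = ((Finset.range K).filter (fun l => k ≤ l + 1 ∧ l ≤ k + 1)).card • T := by
                  rw [← Finset.sum_filter, Finset.sum_const]
              _ ≤ 3 * T := by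
                  rw [nsmul_eq_mul]
                  refine mul_le_mul_of_nonneg_right ?_ hT0
                  have hsub : (Finset.range K).filter (fun l => k ≤ l + 1 ∧ l ≤ k + 1) ⊆ {k - 1, k, k + 1} := by
                    intro l hl
                    simp only [Finset.mem_filter, Finset.mem_range] at hl
                    simp only [Finset.mem_insert, Finset.mem_singleton]
                    omega
                  have hcard := (Finset.card_le_card hsub).trans Finset.card_le_three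
                  exact_mod_cast hcard
        _ = K * (3 * T) := by
            rw [Finset.sum_const, Finset.card_range, nsmul_eq_mul]
    have hlog : 0 ≤ 1 + Real.log K := by
      have := Real.log_nonneg hK1
      linarith
    have f6 : K * (3 * T) ≤ 6 * Ca * Cb * Kb * Cs ^ 2 / Real.sqrt K := by
      have hsq : Real.sqrt (1 + Real.log K) * Real.sqrt (1 + Real.log K) = 1 + Real.log K :=
        Real.mul_self_sqrt hlog
      have e : K * (3 * T) = 3 * Ca * Cb * Kb * Cs ^ 2 *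
          ((Real.sqrt (1 + Real.log K) * Real.sqrt (1 + Real.log K)) / K) := by
        rw [hT]
        field_simp
      rw [e, hsq]
      calc 3 * Ca * Cb * Kb * Cs ^ 2 * ((1 + Real.log K) / K) ≤ 3 * Ca * Cb * Kb * Cs ^ 2 * (2 / Real.sqrt K) := by
            refine mul_le_mul_of_nonneg_left (e3_log hK) (by positivity)
        _ = _ := by ring
    have g1 : |B φ E'| ≤ Kb * n1 * Cb / Real.sqrt K := by
      refine (hB.bd _ _ rφ b2).trans ?_
      rw [mul_div_assoc]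
      exact mul_le_mul_of_nonneg_left b4 (by positivity)
    have v1 : 0 ≤ (eLpNorm (gr E) 2 (volume.restrict HB)).toReal := ENNReal.toReal_nonneg
    have v2 : 0 ≤ (eLpNorm (gr E') 2 (volume.restrict HB)).toReal := ENNReal.toReal_nonneg
    have b4' : (eLpNorm (gr E') 2 (volume.restrict HB)).toReal ≤ Cb := b4.trans (div_le_self hCb0 hsK1)
    have g2 : |B E E'| ≤ Kb * Ca * Cb / Real.sqrt K := by
      refine (hB.bd _ _ a2 b2).trans ?_
      calc Kb * (eLpNorm (gr E) 2 (volume.restrict HB)).toReal * (eLpNorm (gr E') 2 (volume.restrict HB)).toReal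
          ≤ Kb * (Ca / Real.sqrt K) * Cb := by gcongr
        _ = _ := by ring
    have g3 : |B E ψ| ≤ Kb * Ca * n2 / Real.sqrt K := by
      refine (hB.bd _ _ a2 rψ).trans ?_
      calc Kb * (eLpNorm (gr E) 2 (volume.restrict HB)).toReal * n2
          ≤ Kb * (Ca / Real.sqrt K) * n2 := by gcongr
        _ = _ := by ring
    rw [f1]
    have t1 := abs_add_le (B P' P + (B φ E' - B E E')) (B E ψ)
    have t2 := abs_add_le (B P' P) (B φ E' - B E E')
    have t3 := abs_sub (B φ E') (B E E')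
    rw [add_div, add_div, add_div]
    linarith
  -- conclusion
  have hlim : Tendsto (fun K : ℕ => (6 * Ca * Cb * Kb * Cs ^ 2 + Kb * n1 * Cb + Kb * Ca * Cb + Kb * Ca * n2) /
      Real.sqrt K) atTop (𝓝 0) := by
    refine Tendsto.div_atTop tendsto_const_nhds ?_
    exact Real.tendsto_sqrt_atTop.comp tendsto_natCast_atTop_atTop
  have hle0 : |B φ ψ| ≤ 0 := by
    refine ge_of_tendsto hlim ?_
    filter_upwards [eventually_ge_atTop 2] with K hK using main K hK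
  exact abs_eq_zero.1 (le_antisymm hle0 (abs_nonneg _))

end Cal
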