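import Pool.Agent.Lib.MP_4ea4c7_an.StmC2

/-!
# The transfer map (piece [GC5])
-/

open MeasureTheory Complex Metric Set Filter Topology
open scoped ComplexConjugate ENNReal NNReal

namespace Cal

noncomputable section

private lemma T_HB_open : IsOpen HB := by
  have h : HB = {z : ℂ | ‖z‖ < 1} ∩ {z : ℂ | 0 < z.im} := rfl
  rw [h]
  exact (isOpen_lt continuous_norm continuous_const).inter (isOpen_lt continuous_const Complex.continuous_im)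

private lemma T_memLp_HB {g : ℂ → ℂ} (hg : L2loc univ g) : MemLp g 2 (volume.restrict HB) := by
  have hK : IsCompact (closedBall (0 : ℂ) 1) := isCompact_closedBall 0 1
  have h := hg _ hK (subset_univ _)
  refine h.mono_measure (Measure.restrict_mono ?_ le_rfl)
  intro z hz
  rw [mem_closedBall, dist_zero_right]
  exact hz.1.le

private lemma T_memLp_conj {g : ℂ → ℂ} {ν : Measure ℂ} (hg : MemLp g 2 ν) : MemLp (fun z => conj (g z)) 2 ν := by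
  refine MemLp.of_le hg ?_ ?_
  · exact Complex.continuous_conj.comp_aestronglyMeasurable hg.1
  · exact Filter.Eventually.of_forall fun z => by simp

private lemma T_mu_54 {κ : ℝ} {μ : ℂ → ℝ} (h : Mu κ 1 μ) : Mu κ (5 / 4) μ :=
  ⟨h.meas, h.bd, fun z hz => h.supp z (by linarith), h.symm⟩

private lemma T_dec_sub {a b c : ℂ → ℂ} (h1 : Dec (fun z => a z - c z)) (h2 : Dec (fun z => b z - c z)) :
    Dec (fun z => a z - b z) := by
  obtain ⟨C1, hC1⟩ := h1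
  obtain ⟨C2, hC2⟩ := h2
  refine ⟨C1 + C2, fun z hz => ?_⟩
  have e : a z - b z = (a z - c z) - (b z - c z) := by ring
  show ‖a z - b z‖ ≤ (C1 + C2) / ‖z‖
  rw [e, add_div]
  exact (norm_sub_le _ _).trans (add_le_add (hC1 z hz) (hC2 z hz))

private lemma T_PN_mono {μ : ℂ → ℝ} {k N : ℕ} {g : ℂ → ℂ} (h : PN μ k g) (hk : k ≤ N) : PN μ N g := by
  refine ⟨h.cont, h.symm, h.bel, ?_⟩
  obtain ⟨C, hC⟩ := h.growth
  refine ⟨|C|, fun z => (hC z).trans ?_⟩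
  have h1 : (1 : ℝ) ≤ 1 + ‖z‖ := by linarith [norm_nonneg z]
  have h2 : (1 + ‖z‖) ^ k ≤ (1 + ‖z‖) ^ N := pow_le_pow_right₀ h1 hk
  have h3 : (0 : ℝ) ≤ (1 + ‖z‖) ^ k := by positivity
  calc C * (1 + ‖z‖) ^ k ≤ |C| * (1 + ‖z‖) ^ k := mul_le_mul_of_nonneg_right (le_abs_self C) h3
    _ ≤ |C| * (1 + ‖z‖) ^ N := mul_le_mul_of_nonneg_left h2 (abs_nonneg C)

private lemma T_cond {κ : ℝ} (h0 : 0 ≤ κ) (h1 : κ < 1) {μ : ℂ → ℝ} (h : Mu κ 1 μ) :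
    Cond ((1 - κ) / (1 + κ)) ((1 + κ) / (1 - κ)) (gam μ) := by
  refine ⟨?_, ?_, ?_⟩
  · have : Measurable fun z => (1 + μ z) / (1 - μ z) :=
      (measurable_const.add h.meas).div (measurable_const.sub h.meas)
    exact this
  · intro z
    have hz := abs_le.mp (h.bd z)
    show (1 - κ) / (1 + κ) ≤ (1 + μ z) / (1 - μ z)
    rw [div_le_div_iff₀ (by linarith) (by linarith [hz.2])]
    nlinarith [hz.1, hz.2]
  · intro z
    have hz := abs_le.mp (h.bd z)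
    show (1 + μ z) / (1 - μ z) ≤ (1 + κ) / (1 - κ)
    rw [div_le_div_iff₀ (by linarith [hz.2]) (by linarith)]
    nlinarith [hz.1, hz.2]

private lemma T_bel {μ : ℂ → ℝ} {f : ℂ → ℂ} (h : Bel μ univ f) :
    ∃ A B : ℂ → ℂ, WD univ f A B ∧ ∀ᵐ z, B z = (μ z : ℂ) * conj (A z) := by
  obtain ⟨A, B, hw, hb⟩ := h
  refine ⟨A, B, hw, ?_⟩
  rw [Measure.restrict_univ] at hb
  exact hb

theorem piece_T (h1 : S_polypart) (h2 : S_fp) (h3 : S_dnex) (h4 : S_Tc) (h5 : S_Td) : S_T := by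
  intro κ hκ0 hκ1 μ₁ μ₂ hμ₁ hμ₂ hH N f hf
  obtain ⟨p, hpN, hfp, -, -⟩ := h1 κ μ₁ N f (T_mu_54 hμ₁) hf
  obtain ⟨g, hg, hgp⟩ := (h2 κ hκ0 hκ1 μ₂ hμ₂).1 p
  have hg' : PN μ₂ N g := T_PN_mono hg hpN
  have hdec : Dec (fun z => f z - g z) := T_dec_sub hfp hgp
  obtain ⟨A, B, hw, hb⟩ := T_bel hf.bel
  obtain ⟨A', B', hw', hb'⟩ := T_bel hg'.bel
  have hc : (0 : ℝ) < (1 - κ) / (1 + κ) := div_pos (by linarith) (by linarith)
  have hG : MemLp (fun z => I * (conj (A z) - B z)) 2 (volume.restrict HB) :=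
    ((T_memLp_conj (T_memLp_HB hw.A2)).sub (T_memLp_HB hw.B2)).const_mul I
  obtain ⟨G₂, hG₂⟩ := (h3 _ _ hc (gam μ₂) (T_cond hκ0 hκ1 hμ₂) HB T_HB_open _ hG).1
  have hae := h4 κ hκ0 hκ1 μ₁ μ₂ hμ₁ hμ₂ hH N f A B g A' B' G₂ hf hw hb hg' hw' hb' hdec hG₂
  exact ⟨g, hg', h5 κ hκ0 hκ1 μ₁ μ₂ hμ₁ hμ₂ N f A B g A' B' hf hw hb hg' hw' hb' hdec hae⟩

end

end Cal
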