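import Pool.Agent.Lib.MP_4ea4c7_an.StmB

/-!
# Statements, part C: the transfer map T (section 3) and the pairing (section 5.1)

Paper: /team-store/MP_4ea4c7_paper.md, sections 3 and 5. Every `S_xx : Prop` is one piece; the pieces it needs are hypotheses of the theorem to be proved
(see the request). Complete informal proofs are in the docstrings.

Notation: for `f = v + i u` with weak derivatives `A, B`: `∇v = conj A + B`, `∇u = I (conj A - B)` (`S_bridge`). `ip (I * a) b = cr a b`.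
If `B = μ conj A` then `gam μ * ∇u = I * ∇v` (both are `I (1 + μ) conj A`).
-/

open MeasureTheory Complex Metric Set Filter Topology
open scoped ComplexConjugate ENNReal NNReal

namespace Cal

noncomputable section

/-! ## F. Tools -/

/-- [FC1] Flux identity: `div (γ ∇u) = 0`. Proof: where `B = μ conj A` (a.e. on `U`) `gam μ * I * (conj A - B) = I * (conj A + B)` (`conj A - B = (1-μ) conj A`, `gam μ (1-μ) = 1+μ`, `1 - μ > 0`), and `ip (I * p) q = cr p q`. So the integrand is `cr (conj A + B) G = - cr G (conj A + B)`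
a.e. on `U`; off `tsupport a` it is zero a.e. because `G = 0` a.e. there (third part of `S_wedge`). `conj A + B` is the weak gradient of `Re f` on `U` (`S_bridge`). `S_wedge` gives integrability and the value zero. -/
def S_flux : Prop := ∀ κ : ℝ, 0 ≤ κ → κ < 1 → ∀ μ : ℂ → ℝ, (∀ z, |μ z| ≤ κ) → ∀ (U : Set ℂ) (f A B : ℂ → ℂ), IsOpen U → WD U f A B →
  (∀ᵐ z ∂(volume.restrict U), B z = (μ z : ℂ) * conj (A z)) →
  ∀ (a : ℂ → ℝ) (G : ℂ → ℂ), WG univ a G → HasCompactSupport a → tsupport a ⊆ U →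
    Integrable (fun z => gam μ z * ip (I * (conj (A z) - B z)) (G z)) volume ∧
    ∫ z, gam μ z * ip (I * (conj (A z) - B z)) (G z) = 0

/-- [FC2] Solvability of the Dirichlet problem (Lax-Milgram), and uniqueness. Proof: work in the real Hilbert space `H = Lp ℂ 2 (volume.restrict Ω)` (inner product `∫ Re (conj a b)`, note `ip a b = (a * conj b).re = (conj a * b).re`).
`V` = closure of the subspace `{gr φ | RTF Ω φ}` (a real linear subspace: `gr (a φ + b ψ) = a gr φ + b gr ψ`; `gr φ` is continuous with compact support, so in `L²`). `Z0 Ω G` says exactly that (the class of) `G` is in `V`. The bilinear form `b(z,h) = ∫_Ω γ ip z h` on `V` is bounded (constant `C`) and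
coercive (constant `c`): `IsCoercive.continuousLinearEquivOfBilin` (Mathlib's Lax-Milgram), or minimise, or use the contraction `z ↦ z - C⁻¹ P_V (γ (G + z))`. There is `z ∈ V` with `∫ γ ip (G+z) h = 0` for all `h ∈ V`. `G' = G + z`.
Uniqueness: the difference `D = G' - G''` is in `V` (closed subspace) and `∫ γ ip D (gr φ) = 0` for all test functions, hence `∫ γ ip D h = 0` for all `h ∈ V` (density, continuity), `h = D`: `c ∫ ‖D‖² ≤ 0`. -/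
def S_dnex : Prop := ∀ (c C : ℝ), 0 < c → ∀ γ : ℂ → ℝ, Cond c C γ → ∀ Ω : Set ℂ, IsOpen Ω → ∀ G : ℂ → ℂ, MemLp G 2 (volume.restrict Ω) →
  (∃ G', DN Ω γ G G') ∧ ∀ G' G'', DN Ω γ G G' → DN Ω γ G G'' → G' =ᵐ[volume.restrict Ω] G''

/-- [FC3] Facts about `Z0`. Proof: (1) `φ = 0`. (2) triangle inequality (`gr` is linear; `eLpNorm_sub_le`/`eLpNorm_add_le` with `ε/2`). (3) `|∫ ip F G| = |∫ ip F (G - gr φ)| ≤ ‖F‖₂ ‖G - gr φ‖₂ ≤ ‖F‖₂ ε` for every `ε` (Cauchy-Schwarz, `|ip a b| ≤ ‖a‖ ‖b‖`). -/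
def S_z0 : Prop :=
  (∀ (Ω : Set ℂ) (G : ℂ → ℂ), G =ᵐ[volume.restrict Ω] 0 → Z0 Ω G) ∧
  (∀ (Ω : Set ℂ) (G G' : ℂ → ℂ) (s : ℝ), Z0 Ω G → Z0 Ω G' → Z0 Ω (fun z => G z + s * G' z)) ∧
  (∀ (Ω : Set ℂ) (F G : ℂ → ℂ), MemLp F 2 (volume.restrict Ω) → (∀ φ, RTF Ω φ → ∫ z in Ω, ip (F z) (gr φ z) = 0) → Z0 Ω G → ∫ z in Ω, ip (F z) (G z) = 0)

/-- [FC4] Odd reflection of test functions of the half disc. Proof: `Φ z = φ z - φ (conj z)` is smooth, compactly supported, odd; it is `C¹`, so its weak gradient is `gr Φ` (`S_bridge` (3) on `univ`), which is continuous with compact support, hence in `L²`. For `z` in the upper half plane `w ↦ φ (conj w)` vanishes near `z`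
(the support of `φ` is a compact subset of the upper half disc), so `gr Φ z = gr φ z`. -/
def S_oddext : Prop := ∀ φ : ℂ → ℝ, RTF HB φ →
  OC (fun z => φ z - φ (conj z)) (gr (fun z => φ z - φ (conj z))) ∧ ∀ z ∈ UH, gr (fun z => φ z - φ (conj z)) z = gr φ z

/-- [FC5] Integrals of even functions. Proof: `∫ F = ∫_{Im>0} F + ∫_{Im<0} F` (the axis is a null set: `Complex.volume` of `{z | z.im = 0}`, e.g. through `Complex.measurableEquivRealProd`, or `Measure.addHaar_submodule`), and the second integral equals the first by the substitution `conj` (`Complex.conjLIE.measurePreserving`). -/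
def S_half : Prop := (∀ F : ℂ → ℝ, Integrable F volume → (∀ᵐ z, F (conj z) = F z) → ∫ z in UH, F z = (∫ z, F z) / 2) ∧
  (∀ᵐ z : ℂ, z.im ≠ 0) ∧ (∀ᵐ z : ℂ, ‖z‖ ≠ 1)

/-- [FC6] Symmetry of weak gradients, `s = 1` (even) or `s = -1` (odd). Proof: by reflection (change of variables `z → conj z` in `WG.h`; for a test function `φ`, `gr (φ ∘ conj) z = conj (gr φ (conj z))`) the function `u ∘ conj` has weak gradient `conj (G (conj z))`; it equals `s u`, whose gradient is `s G`; weak gradients are unique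
(`S_bridge` (2) and `S_wuniq`, or directly). -/
def S_gsym : Prop := ∀ (u : ℂ → ℝ) (G : ℂ → ℂ) (s : ℝ), WG univ u G → (∀ z, u (conj z) = s * u z) → (s = 1 ∨ s = -1) → ∀ᵐ z, G (conj z) = (s : ℂ) * conj (G z)

/-- [FC7] Extension by zero across the axis. Proof: let `u_ε = T_ε(u)` with a `C¹` function `T_ε` of one real variable: `T_ε t = 0` for `|t| ≤ ε`, `T_ε' = 1` for `|t| ≥ 3ε`, `0 ≤ T_ε' ≤ 1`, `|T_ε t - t| ≤ 3ε` (e.g. `T_ε t = ∫_0^t Real.smoothTransition (|s|/ε - 1)`-type, `T_ε t = ε T_1 (t/ε)`). By continuity `u_ε` vanishes in a neighbourhood of the real axis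
(locally; `u = 0` there), so `v_ε = 1_{Im > 0} u_ε` is locally either `u_ε` or `0`, hence (`S_glue` through `S_bridge`, `S_chain`) has weak gradient `1_{Im>0} T_ε'(u) G`. Let `ε → 0` in the integral identity: `v_ε → 1_{Im>0} u` uniformly, `T_ε'(u) G → 1_{u ≠ 0} G` (dominated convergence) and `1_{u≠0} G = G` a.e. by `S_crit`. -/
def S_zext : Prop := ∀ (u : ℂ → ℝ) (G : ℂ → ℂ), WG univ u G → Continuous u → (∀ x : ℝ, u x = 0) →
  WG univ (fun z => if 0 < z.im then u z else 0) (fun z => if 0 < z.im then G z else 0)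

/-- [FC8] Cutoffs. Proof: `χ z = Real.smoothTransition (2 - ‖z‖^2 / ρ^2)`-type functions: with `h t = Real.smoothTransition (2 - t)` (`h = 1` for `t ≤ 1`, `h = 0` for `t ≥ 2`, `|h'| ≤ M` since `h'` is continuous and zero off `[1,2]`), `χ z = h (‖z‖^2 / ρ^2)`; `gr χ z = h'(‖z‖²/ρ²) (2 z / ρ²)`, of norm at most `M 2√2/ρ`. -/
def S_cut : Prop := ∃ M : ℝ, 0 < M ∧ ∀ ρ : ℝ, 0 < ρ → ∃ χ : ℂ → ℝ, RTF univ χ ∧ (∀ z, χ (conj z) = χ z) ∧ (∀ z, 0 ≤ χ z ∧ χ z ≤ 1) ∧ (∀ z, ‖z‖ ≤ ρ → χ z = 1) ∧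
  (∀ z, 2 * ρ ≤ ‖z‖ → χ z = 0) ∧ (∀ z, ‖z‖ < ρ → gr χ z = 0) ∧ (∀ z, 2 * ρ < ‖z‖ → gr χ z = 0) ∧ ∀ z, ‖gr χ z‖ ≤ M / ρ

/-! ## G. Section 3: the map T -/

/-- [GC1] Flux in the half plane against odd functions. Proof: `∇u := I (conj A - B)` is the weak gradient of the odd function `u = Im f` (`S_bridge`), so `∇u (conj z) = - conj (∇u z)` a.e. (`S_gsym`, `s = -1`), same for `H`; hence `ip (∇u) H` is even, `gam μ` is even (`Mu.symm`), so by `S_half`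
the integral over `UH` is half of the integral over `ℂ`, which is zero by `S_flux` (`U = univ`). Integrability: `S_flux`. -/
def S_Ta : Prop := ∀ κ : ℝ, 0 ≤ κ → κ < 1 → ∀ μ : ℂ → ℝ, Mu κ 1 μ → ∀ (N : ℕ) (f A B : ℂ → ℂ), PN μ N f → WD univ f A B →
  (∀ᵐ z, B z = (μ z : ℂ) * conj (A z)) → ∀ (Ψ : ℂ → ℝ) (H : ℂ → ℂ), OC Ψ H →
    Integrable (fun z => gam μ z * ip (I * (conj (A z) - B z)) (H z)) volume ∧
    ∫ z in UH, gam μ z * ip (I * (conj (A z) - B z)) (H z) = 0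

/-- the field `D`: the `γ₂`-solution in the half disc minus the gradient of the `μ₂`-function; outside, the difference of the two gradients -/
def Dfield (Gu Gu' G₂ : ℂ → ℂ) (z : ℂ) : ℂ := (if ‖z‖ < 1 then G₂ z else Gu z) - Gu' z

/-- [GC2] The flux of `D` against odd functions vanishes (here the hypothesis `HYP` is used). Let `Gu = I (conj A - B)`, `Gu' = I (conj A' - B')`. Proof: let `χ` be the cutoff of `S_cut` with `ρ = 1`... take `ρ = 2`; `Φ = χ u` with `u = Im f` is continuous, compactly supported, odd, with weak gradient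
`G_Φ = χ Gu + u gr χ` in `L²` (`S_bridge` and `S_smooth` (3)); `G_Φ = Gu` for `‖z‖ < 2`. So `OC Φ G_Φ`. `DN HB (gam μ₁) G_Φ Gu`: the difference is zero a.e. on `HB` (`S_z0` (1)); `Gu ∈ L²(HB)` (bounded set, `L2loc`; its closure is compact); `Sol`: for `φ ∈ RTF HB`, `S_flux` (`U = univ`, `a = φ`, `G = gr φ`, weak gradient by `S_bridge` (3)), and `gr φ = 0` off `HB`.
`DN HB (gam μ₂) G_Φ G₂`: same as `DN HB (gam μ₂) Gu G₂` since `G_Φ = Gu` on `HB`. `HYP` gives `∫_HB gam μ₁ ip Gu H = ∫_HB gam μ₂ ip G₂ H`. In `UH \ HB` (`‖z‖ ≥ 1`, up to the null set `‖z‖ = 1`: `S_half` (3)) both `gam μ_j = 1`. Hence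
`∫_UH gam μ₂ ip D H = ∫_HB gam μ₂ ip G₂ H + ∫_{UH\HB} ip Gu H - ∫_UH gam μ₂ ip Gu' H = ∫_UH gam μ₁ ip Gu H - ∫_UH gam μ₂ ip Gu' H = 0 - 0` (`S_Ta` twice). `D ∈ L²` on bounded subsets of `UH`, `H ∈ L²` and `H = 0` a.e. off `tsupport Ψ` (`S_wedge`, third part), so everything is integrable. -/
def S_Tb : Prop := ∀ κ : ℝ, 0 ≤ κ → κ < 1 → ∀ μ₁ μ₂ : ℂ → ℝ, Mu κ 1 μ₁ → Mu κ 1 μ₂ → HYP μ₁ μ₂ → ∀ (N : ℕ) (f A B g A' B' G₂ : ℂ → ℂ),
  PN μ₁ N f → WD univ f A B → (∀ᵐ z, B z = (μ₁ z : ℂ) * conj (A z)) →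
  PN μ₂ N g → WD univ g A' B' → (∀ᵐ z, B' z = (μ₂ z : ℂ) * conj (A' z)) →
  DN HB (gam μ₂) (fun z => I * (conj (A z) - B z)) G₂ →
  ∀ (Ψ : ℂ → ℝ) (H : ℂ → ℂ), OC Ψ H →
    Integrable (fun z => gam μ₂ z * ip (Dfield (fun z => I * (conj (A z) - B z)) (fun z => I * (conj (A' z) - B' z)) G₂ z) (H z)) (volume.restrict UH) ∧
    ∫ z in UH, gam μ₂ z * ip (Dfield (fun z => I * (conj (A z) - B z)) (fun z => I * (conj (A' z) - B' z)) G₂ z) (H z) = 0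

/-- [GC3] `D = 0`. Proof: `h = f - g` is `Dec`, has weak derivatives `A - A'`, `B - B'`, and `B = B' = 0` a.e. for `‖z‖ > 1`, so `A - A', B - B' ∈ L²(ℂ)` (`S_uniq`), and `E := Gu - Gu' = I (conj (A-A') - (B-B')) ∈ L²(ℂ)`. So `D ∈ L²(UH)` (`D = E` for `‖z‖ ≥ 1`; in `HB` `D = (G₂ - Gu) + E`, `DN.mem`).
Write `D = 1_{HB} (G₂ - Gu) + E` on `UH`. (a) `∫_UH gam μ₂ ip D (1_{HB} (G₂ - Gu)) = ∫_HB ip (gam μ₂ D) (G₂ - Gu) = 0`: by `S_z0` (3) it is enough to have `∫_HB ip (gam μ₂ D) (gr φ) = 0` for `φ ∈ RTF HB`, which is `S_Tb` for the odd extension (`S_oddext`; `gr Φ = gr φ` on `UH`, zero off `HB`).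
(b) `∫_UH gam μ₂ ip D E = 0`: let `w = Im (f - g)` (continuous, odd, weak gradient `E`, `|w z| ≤ C/‖z‖` for `‖z‖ ≥ 2`), `χ_ρ` the cutoff of `S_cut`, `ρ ≥ 2`. `OC (χ_ρ w) (χ_ρ E + w gr χ_ρ)`, so `∫_UH gam μ₂ ip D (χ_ρ E + w gr χ_ρ) = 0` (`S_Tb`). As `ρ → ∞`: `∫ gam μ₂ χ_ρ ip D E → ∫ gam μ₂ ip D E` (dominated convergence: `D, E ∈ L²(UH)`) and
`‖w gr χ_ρ‖₂ ≤ (C/ρ)(M/ρ) (area (2ρ)² π)^{1/2} → 0`. Sum of (a), (b): `∫_UH gam μ₂ ‖D‖² = 0` (`ip a a = ‖a‖²`), `gam μ₂ ≥ (1-κ)/(1+κ) > 0`, so `D = 0` a.e. in `UH`; for `‖z‖ > 1` this says `Gu = Gu'`. -/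
def S_Tc : Prop := ∀ κ : ℝ, 0 ≤ κ → κ < 1 → ∀ μ₁ μ₂ : ℂ → ℝ, Mu κ 1 μ₁ → Mu κ 1 μ₂ → HYP μ₁ μ₂ → ∀ (N : ℕ) (f A B g A' B' G₂ : ℂ → ℂ),
  PN μ₁ N f → WD univ f A B → (∀ᵐ z, B z = (μ₁ z : ℂ) * conj (A z)) →
  PN μ₂ N g → WD univ g A' B' → (∀ᵐ z, B' z = (μ₂ z : ℂ) * conj (A' z)) → Dec (fun z => f z - g z) →
  DN HB (gam μ₂) (fun z => I * (conj (A z) - B z)) G₂ →
  ∀ᵐ z ∂(volume.restrict UH), 1 < ‖z‖ → I * (conj (A z) - B z) = I * (conj (A' z) - B' z)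

/-- [GC4] Conclusion. Proof: for `‖z‖ > 1` `B = B' = 0` a.e., so `A = A'` a.e. in `{Im z > 0, ‖z‖ > 1}`. By symmetry (`f (conj z) = conj (f z)`, so `A (conj z) = conj (A z)` a.e. by `S_basic` (7) and `S_wuniq`; same for `g`) also for `Im z < 0`, so `A = A'` a.e. on `U = {z | 1 < ‖z‖}` (axis: null set).
On `U` `f - g` is continuous with weak derivatives `0, 0`; by `S_weyl` it is holomorphic on `U`, its derivative is a.e. zero (`S_wuniq`, `S_smooth` (2)), by continuity zero, and `U` is preconnected (`isPreconnected_compl_closedBall`-type lemma, or: along circles and rays; rank of `ℂ` over `ℝ` is `2`), so `f - g` is constant on `U`; `Dec` gives the constant `0`. On `‖z‖ = 1` by continuity. -/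
def S_Td : Prop := ∀ κ : ℝ, 0 ≤ κ → κ < 1 → ∀ μ₁ μ₂ : ℂ → ℝ, Mu κ 1 μ₁ → Mu κ 1 μ₂ → ∀ (N : ℕ) (f A B g A' B' : ℂ → ℂ),
  PN μ₁ N f → WD univ f A B → (∀ᵐ z, B z = (μ₁ z : ℂ) * conj (A z)) →
  PN μ₂ N g → WD univ g A' B' → (∀ᵐ z, B' z = (μ₂ z : ℂ) * conj (A' z)) → Dec (fun z => f z - g z) →
  (∀ᵐ z ∂(volume.restrict UH), 1 < ‖z‖ → I * (conj (A z) - B z) = I * (conj (A' z) - B' z)) → ∀ z, 1 ≤ ‖z‖ → g z = f z

/-- [GC5] The transfer map. Proof: `f ∈ P_N(μ₁)` has a real polynomial part `p` (`S_polypart`, `Dec (f - p)`, `natDegree p ≤ N`), `S_fp` gives `g ∈ P_{natDegree p}(μ₂) ⊆ P_N(μ₂)` with `Dec (g - p)` (growth: `(1+‖z‖)^k ≤ (1+‖z‖)^N`). So `Dec (f - g)`. Weak derivatives from `PN.bel`. `gam μ₂` is `Cond ((1-κ)/(1+κ)) ((1+κ)/(1-κ))`;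
`Gu ∈ L²(HB)`; `S_dnex` gives `G₂`. Then `S_Tc`, `S_Td`. -/
def S_T : Prop := ∀ κ : ℝ, 0 ≤ κ → κ < 1 → ∀ μ₁ μ₂ : ℂ → ℝ, Mu κ 1 μ₁ → Mu κ 1 μ₂ → HYP μ₁ μ₂ → TH μ₁ μ₂

/-! ## H. Section 5.1: the pairing -/

/-- [HC1] The function `F = i φ + k` in the upper half plane. Proof: `S_basic` (sum), `S_smooth` (1) for the smooth function `i φ` (`dz (i φ) = i dz φ`, `db (i φ) = i db φ`), `KS.wd` restricted to `UH`. With `φ` real `conj (dz φ) = db φ` and `sgn (Im z) = 1`: `B + i φ_zb = μ conj A - i (1+μ) φ_zb + i φ_zb = μ (conj A - i φ_zb) = μ conj (A + i φ_z)`. -/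
def S_ksup : Prop := ∀ (μ φ : ℂ → ℝ) (k A B : ℂ → ℂ), EvTF φ → KS μ φ k A B →
  WD UH (fun z => I * (φ z : ℂ) + k z) (fun z => A z + I * dz (fun w => ((φ w : ℝ) : ℂ)) z) (fun z => B z + I * db (fun w => ((φ w : ℝ) : ℂ)) z) ∧
  ∀ᵐ z ∂(volume.restrict UH), B z + I * db (fun w => ((φ w : ℝ) : ℂ)) z = (μ z : ℂ) * conj (A z + I * dz (fun w => ((φ w : ℝ) : ℂ)) z)

/-- [HC2] The pairing of `f = v + i u` with `F = i φ + k = V + i U`. With `∇v = conj Af + Bf`, `∇u = I (conj Af - Bf)`, `∇V = conj A + B`, `∇(Im k) = I (conj A - B)`, `∇U = ∇(Im k) + gr φ`. Proof: (a) a.e. in `UH`: `cr ∇v ∇U = cr ∇V ∇u`: by the equations (`S_ksup`: `gam μ ∇U = I ∇V`, since `I (conj (A + I φ_z) - (B + I φ_zb)) = ∇(Im k) + 2 φ_zb`, `2 φ_zb = gr φ`, and `conj (A + I φ_z) + (B + I φ_zb) = conj A + B`)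
`cr ∇v ∇U = ip (I ∇v) ∇U = gam μ ip ∇u ∇U = ip ∇u (I ∇V) = cr ∇V ∇u`. (b) `χ v` is even, `Im k` odd, `χ Re k` even, `u` odd; `∇(χ v) = χ ∇v + v gr χ`, `∇(χ Re k) = χ ∇V + (Re k) gr χ` (`S_smooth` (3), `S_bridge`). The functions `cr (∇(χ v)) (∇ Im k)`, `cr (∇(χ Re k)) ∇u` are even (`S_gsym`: for even `a`, odd `b`: `cr (conj p) (-conj q) = cr p q`), so (`S_half`, `S_wedge`) their integrals over `UH` are
half of `0`. (c) in `UH`: `v cr (gr χ) ∇U - V cr (gr χ) ∇u = [cr (∇(χv)) ∇U - χ cr ∇v ∇U] - [cr (∇(χV)) ∇u - χ cr ∇V ∇u] = cr (∇(χ v)) (∇ Im k) + cr (∇(χ v)) (gr φ) - cr (∇(χV)) ∇u`, and `cr (∇(χ v)) (gr φ) = cr ∇v (gr φ)` (`χ = 1` in `ball 0 1 ⊇ tsupport φ`; there `gr χ = 0`). -/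
def S_pairI : Prop := ∀ κ : ℝ, 0 ≤ κ → κ < 1 → ∀ μ : ℂ → ℝ, Mu κ 1 μ → ∀ (N : ℕ) (f Af Bf : ℂ → ℂ), PN μ N f → WD univ f Af Bf → (∀ᵐ z, Bf z = (μ z : ℂ) * conj (Af z)) →
  ∀ (φ : ℂ → ℝ) (k A B : ℂ → ℂ), EvTF φ → KS μ φ k A B → ∀ χ : ℂ → ℝ, RTF univ χ → (∀ z, χ (conj z) = χ z) → (∀ z, ‖z‖ < 1 → χ z = 1) →
  Integrable (fun z => (f z).re * cr (gr χ z) (I * (conj (A z) - B z) + gr φ z) - (k z).re * cr (gr χ z) (I * (conj (Af z) - Bf z))) (volume.restrict UH) ∧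
  ∫ z in UH, ((f z).re * cr (gr χ z) (I * (conj (A z) - B z) + gr φ z) - (k z).re * cr (gr χ z) (I * (conj (Af z) - Bf z)))
    = ∫ z in UH, cr (conj (Af z) + Bf z) (gr φ z)

/-- [HC3] The right hand side depends only on the values on the axis. Proof: `w = Re (f - g)` is continuous, zero on the real axis, with weak gradient `G = (conj A + B) - (conj A' + B')`; by `S_zext` `1_{Im>0} w` has weak gradient `1_{Im > 0} G`; `S_wedge` with `a = φ` (weak gradient `gr φ`), `b = 1_{Im>0} w`: `∫ cr (gr φ) (1_{Im>0} G) = 0`, i.e.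
`∫_UH cr G (gr φ) = 0`. -/
def S_pairV : Prop := ∀ (f A B g A' B' : ℂ → ℂ) (φ : ℂ → ℝ), WD univ f A B → WD univ g A' B' → Continuous f → Continuous g → (∀ x : ℝ, g x = f x) → EvTF φ →
  ∫ z in UH, cr (conj (A z) + B z) (gr φ z) = ∫ z in UH, cr (conj (A' z) + B' z) (gr φ z)

/-- [HC4] Complex form of the boundary pairing. Here `f, h` are holomorphic for `‖z‖ > 1` and symmetric, `χ = 1` near the closed unit disc. Proof: for `‖z‖ > 1`: `cr (gr χ) (I conj h') = Re (gr χ h')`, `gr χ = 2 db χ` (`S_bridge` (4)), so the integrand is `2 q`, `q = Re f Re (χ_zb h') - Re h Re (χ_zb f')` (and `gr χ = 0` for `‖z‖ ≤ 1`); `q` is even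
(`χ_zb (conj z) = conj (χ_zb z)`), so `∫_UH 2 q = ∫_ℂ q` (`S_half`). With `Re a = (a + conj a)/2`: `q = Re [ (1/2) χ_zb (f h' - h f') + (1/2) (χ_zb conj f h' - χ_z h conj f') ]` (`Re (χ_zb conj h f') = Re (χ_z h conj f')`). Integration by parts (all functions are smooth near `tsupport (gr χ) ⊆ {‖z‖ > 1}`; extend by zero or multiply by a cutoff; `χ_z, χ_zb` are test functions in `{1 < ‖z‖}`, so
use `S_smooth` (1)/(2) for `f h`, `conj f h` on `{1 < ‖z‖}`): `∫ χ_zb (f h)' = - ∫ χ_{z zb} f h = ∫ χ_z (f h)_zb = 0`, hence `∫ χ_zb f h' = - ∫ χ_zb f' h`; and with `g = conj f * h`: `∫ (χ_zb g_z - χ_z g_zb) = - ∫ (χ_{zb z} - χ_{z zb}) g = 0`. So `∫ q = Re ∫ χ_zb f h'`. Finally `χ_zb f h'` is mapped by `z → conj z` to its conjugate, so the integral is real. -/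
def S_pairD : Prop := ∀ (f h : ℂ → ℂ) (χ : ℂ → ℝ) (δ : ℝ), 0 < δ → DifferentiableOn ℂ f {z | 1 < ‖z‖} → DifferentiableOn ℂ h {z | 1 < ‖z‖} →
  (∀ z, f (conj z) = conj (f z)) → (∀ z, h (conj z) = conj (h z)) → RTF univ χ → (∀ z, χ (conj z) = χ z) → (∀ z, ‖z‖ < 1 + δ → χ z = 1) →
  ((∫ z in UH, ((f z).re * cr (gr χ z) (I * conj (deriv h z)) - (h z).re * cr (gr χ z) (I * conj (deriv f z))) : ℝ) : ℂ)
    = ∫ z, db (fun w => ((χ w : ℝ) : ℂ)) z * (f z * deriv h z)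

/-- [HC5] Residue at infinity. Proof: put `g = f h'`, holomorphic for `‖z‖ > 1`. `z^{l+1} h' → - l c` (the function `H w = h (1/w)` is holomorphic in `0 < |w| < 1` and `H w / w^l → c`, so `H w = w^l K w` with `K` holomorphic near `0`, `K 0 = c`, removable singularity; `h' z = - H'(1/z)/z²`). Similarly `f z = z^l L(1/z)`, `L` holomorphic near `0`, `L 0 = 1`.
So `g z = b / z + O(1/z²)` with `b = - l c`. (i) `∫ χ_zb / z = - π`: `S_pomp` at `z = 0` for the test function `χ` (`χ 0 = 1`). (ii) for `r = g - b/z` (holomorphic for `‖z‖ > 1`, `O(1/z²)`): with the cutoffs `χ_ρ` of `S_cut` (`ρ ≥ 2`), `χ - χ_ρ` is a test function supported in `{‖z‖ ≥ 1 + δ} ⊆ {1 < ‖z‖}`, so `∫ (χ - χ_ρ)_zb r = 0` (`S_smooth` (2)); and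
`|∫ (χ_ρ)_zb r| ≤ (M/ρ) (C/ρ²) π (2ρ)² → 0`. So the integral is `- π b = π l c`. -/
def S_res : Prop := ∀ (χ : ℂ → ℝ) (f h : ℂ → ℂ) (l : ℕ) (c : ℂ) (δ : ℝ), 0 < δ → RTF univ χ → (∀ z, ‖z‖ < 1 + δ → χ z = 1) →
  DifferentiableOn ℂ f {z | 1 < ‖z‖} → DifferentiableOn ℂ h {z | 1 < ‖z‖} → 1 ≤ l →
  Tendsto (fun z => f z / z ^ l) (cocompact ℂ) (𝓝 1) → Tendsto (fun z => h z * z ^ l) (cocompact ℂ) (𝓝 c) →
  ∫ z, db (fun w => ((χ w : ℝ) : ℂ)) z * (f z * deriv h z) = (Real.pi : ℂ) * (l : ℂ) * c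

/-- [HC6] Order at infinity. Proof: `H w = h (1/w)` for `0 < |w| < 1` is holomorphic and tends to `0` at `0` (`Dec`), so `H` (with `H 0 = 0`) is analytic in the unit disc (`Complex.differentiableOn_update_limUnder_of_bddAbove`-type removable singularity theorem). If `H` is locally zero at `0` it is zero in the disc (identity theorem), so `h = 0` for `‖z‖ > 1`. Otherwise `H w = w^l K w` with
`K 0 ≠ 0` (`AnalyticAt.exists_eventuallyEq_pow_smul_nonzero_iff`), `l ≥ 1` because `H 0 = 0`; `c = K 0`. -/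
def S_ord : Prop := ∀ h : ℂ → ℂ, DifferentiableOn ℂ h {z | 1 < ‖z‖} → Dec h →
  (∀ z, 1 < ‖z‖ → h z = 0) ∨ ∃ (l : ℕ) (c : ℂ), 1 ≤ l ∧ c ≠ 0 ∧ Tendsto (fun z => h z * z ^ l) (cocompact ℂ) (𝓝 c)

/-- [HC7] `k` is holomorphic outside the unit disc. Proof: for `‖z‖ > 1` `μ = 0` and `db φ = 0` (`tsupport φ ⊆ ball 0 1`), so `B = 0` a.e. on `U = {1 < ‖z‖}`; `k` is continuous on `U ⊆ (axis φ)ᶜ`; `S_weyl`. The same for `f ∈ P_N(μ)`. `A` is a.e. the derivative (`S_smooth` (2), `S_wuniq`). Continuity on `‖z‖ = 1`: `KS.cont`. -/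
def S_khol : Prop := ∀ (κ : ℝ) (μ φ : ℂ → ℝ), Mu κ 1 μ → EvTF φ →
  (∀ k A B : ℂ → ℂ, KS μ φ k A B → DifferentiableOn ℂ k {z | 1 < ‖z‖} ∧ (∀ᵐ z ∂(volume.restrict {z : ℂ | 1 < ‖z‖}), A z = deriv k z ∧ B z = 0) ∧ ContinuousOn k {z | 1 ≤ ‖z‖}) ∧
  (∀ (N : ℕ) (f A B : ℂ → ℂ), PN μ N f → WD univ f A B → (∀ᵐ z, B z = (μ z : ℂ) * conj (A z)) →
    DifferentiableOn ℂ f {z | 1 < ‖z‖} ∧ (∀ᵐ z ∂(volume.restrict {z : ℂ | 1 < ‖z‖}), A z = deriv f z ∧ B z = 0))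

/-- [HC8] `k¹ = k²` outside. Proof: `h = k1 - k2` is holomorphic for `‖z‖ > 1` (`S_khol`), symmetric, `Dec`. By `S_ord` either `h = 0` for `‖z‖ > 1` (then also for `‖z‖ = 1` by continuity: done) or `h z z^l → c ≠ 0`, `l ≥ 1`. Let `f ∈ P_l(μ₁)` be the function `f_{l,0}` (`S_lim`; `f / (z+2)^l → 1` by `S_fasym`, so `f / z^l → 1`), `g = T f ∈ P_l(μ₂)` (`S_T`), `g = f` for `‖z‖ ≥ 1`, and
`g = f` on the real axis (`S_A`, `S_T`). Let `χ` be the cutoff of `S_cut` with `ρ = 2` (`δ = 1`). `S_pairI` for `(μ₁, f, k1)` and `(μ₂, g, k2)`, `S_pairV`: the two left hand sides agree; on the support of `gr χ` (`‖z‖ ≥ 2`) we have `f = g`, `A_f = A_g = f'`, `B = 0`, `A_{kj} = kj'`, `gr φ` cancels: the difference is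
`∫_UH (Re f cr (gr χ) (I conj h') - Re h cr (gr χ) (I conj f')) = 0`. `S_pairD` (applied to `f, h`; both are symmetric) and `S_res`: `0 = π l c ≠ 0`. Contradiction. -/
def S_kout : Prop := ∀ κ : ℝ, 0 ≤ κ → κ < 1 → ∀ μ₁ μ₂ : ℂ → ℝ, Mu κ 1 μ₁ → Mu κ 1 μ₂ → HYP μ₁ μ₂ → ∀ φ : ℂ → ℝ, EvTF φ →
  ∀ k1 A1 B1 k2 A2 B2 : ℂ → ℂ, KS μ₁ φ k1 A1 B1 → KS μ₂ φ k2 A2 B2 → ∀ z, 1 ≤ ‖z‖ → k1 z = k2 z

end

end Cal
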