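import Pool.Agent.Lib.MP_4ea4c7_an.Stm1
import Pool.Agent.Lib.MP_4ea4c7_an.StmC

open MeasureTheory Complex Metric Set Filter Topology
open scoped ComplexConjugate ENNReal NNReal

namespace Cal

private theorem Ta_ip (a b : ℂ) : ip (-conj a) (-conj b) = ip a b := by
  unfold ip
  simp [Complex.mul_re]

theorem piece_Ta (h1 : S_flux) (h2 : S_half) (h3 : S_gsym) (h4 : S_bridge) : S_Ta := by
  intro κ hκ0 hκ1 μ hμ N f A B hf hWD hB Ψ H hΨ
  obtain ⟨hint, hzero⟩ := h1 κ hκ0 hκ1 μ hμ.bd univ f A B isOpen_univ hWD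
    (by rw [Measure.restrict_univ]; exact hB) Ψ H hΨ.wg hΨ.supp (subset_univ _)
  refine ⟨hint, ?_⟩
  have hG := (h4.1 univ f A B hWD).2
  have s1 := h3 _ _ (-1) hG (by
    intro z
    rw [hf.symm z]
    simp) (Or.inr rfl)
  have s2 := h3 _ _ (-1) hΨ.wg (by
    intro z
    rw [hΨ.odd z]
    ring) (Or.inr rfl)
  have hev : ∀ᵐ z : ℂ, (fun z => gam μ z * ip (I * (conj (A z) - B z)) (H z)) (conj z) =
      (fun z => gam μ z * ip (I * (conj (A z) - B z)) (H z)) z := by
    filter_upwards [s1, s2] with z e1 e2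
    have g1 : gam μ (conj z) = gam μ z := by
      unfold gam
      rw [hμ.symm z]
    change gam μ (conj z) * ip (I * (conj (A (conj z)) - B (conj z))) (H (conj z)) = _
    have e1' : I * (conj (A (conj z)) - B (conj z)) = - conj (I * (conj (A z) - B z)) := by
      rw [e1]; push_cast; ring
    have e2' : H (conj z) = - conj (H z) := by
      rw [e2]; push_cast; ring
    rw [g1, e1', e2', Ta_ip]
  rw [h2.1 _ hint hev, hzero]
  simp

end Cal
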