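import Pool.Agent.Lib.MP_4ea4c7_an.Stm1
import Pool.Agent.Lib.MP_4ea4c7_an.StmC

open MeasureTheory Complex Metric Set Filter Topology
open scoped ComplexConjugate ENNReal NNReal

namespace Cal

private theorem Tb_fd {χ : ℂ → ℝ} {z : ℂ} (h : DifferentiableAt ℝ χ z) (v : ℂ) :
    fderiv ℝ (fun w => ((χ w : ℝ) : ℂ)) z v = ((fderiv ℝ χ z v : ℝ) : ℂ) := by
  have h1 : HasFDerivAt (fun w => ((χ w : ℝ) : ℂ)) (Complex.ofRealCLM.comp (fderiv ℝ χ z)) z :=
    (Complex.ofRealCLM.hasFDerivAt).comp z h.hasFDerivAt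
  rw [h1.fderiv]
  rfl

private theorem Tb_db {χ : ℂ → ℝ} {z : ℂ} (h : DifferentiableAt ℝ χ z) :
    db (fun w => ((χ w : ℝ) : ℂ)) z = gr χ z / 2 := by
  unfold db gr
  rw [Tb_fd h, Tb_fd h]

private theorem Tb_dz {χ : ℂ → ℝ} {z : ℂ} (h : DifferentiableAt ℝ χ z) :
    dz (fun w => ((χ w : ℝ) : ℂ)) z = conj (gr χ z) / 2 := by
  unfold dz gr
  rw [Tb_fd h, Tb_fd h]
  simp only [map_add, map_mul, conj_ofReal, conj_I]
  ring

private theorem Tb_prod (hb : S_bridge) (hs : S_smooth) {u χ : ℂ → ℝ} {G : ℂ → ℂ}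
    (hu : WG univ u G) (hχ : ContDiff ℝ (⊤ : ℕ∞) χ) :
    WG univ (fun z => χ z * u z) (fun z => (χ z : ℂ) * G z + (u z : ℂ) * gr χ z) := by
  have hχc : ContDiff ℝ (⊤ : ℕ∞) (fun w => ((χ w : ℝ) : ℂ)) :=
    Complex.ofRealCLM.contDiff.comp hχ
  have hd : ∀ z, DifferentiableAt ℝ χ z := fun z => hχ.differentiable (by simp) z
  have W := hs.2.2 univ _ _ _ (fun w => ((χ w : ℝ) : ℂ)) isOpen_univ (hb.2.1 univ u G hu)
    hχc.contDiffOn
  have R := (hb.1 univ _ _ _ W).1
  have e1 : (fun z => ((u z : ℂ) * ((χ z : ℝ) : ℂ)).re) = fun z => χ z * u z := by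
    funext z
    rw [← ofReal_mul, ofReal_re, mul_comm]
  have e2 : (fun z => conj (conj (G z) / 2 * ((χ z : ℝ) : ℂ) +
      (u z : ℂ) * dz (fun w => ((χ w : ℝ) : ℂ)) z) +
      (G z / 2 * ((χ z : ℝ) : ℂ) + (u z : ℂ) * db (fun w => ((χ w : ℝ) : ℂ)) z)) =
      fun z => (χ z : ℂ) * G z + (u z : ℂ) * gr χ z := by
    funext z
    rw [Tb_dz (hd z), Tb_db (hd z)]
    simp only [map_add, map_mul, map_div₀, conj_conj, conj_ofReal, map_ofNat]
    ring
  rw [← e1, ← e2]
  exact R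

private theorem Tb_ip_sub (a b c : ℂ) : ip (a - b) c = ip a c - ip b c := by
  unfold ip
  rw [sub_mul, sub_re]

private theorem Tb_HB_meas : MeasurableSet HB := by
  have h1 : IsOpen HB := by
    have : HB = ball (0 : ℂ) 1 ∩ {z : ℂ | 0 < z.im} := by
      ext z
      simp [HB]
    rw [this]
    exact isOpen_ball.inter (isOpen_lt continuous_const continuous_im)
  exact h1.measurableSet

private theorem Tb_UH_meas : MeasurableSet UH :=
  (isOpen_lt continuous_const continuous_im).measurableSet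

private theorem Tb_gam {κ r : ℝ} {μ : ℂ → ℝ} (h : Mu κ r μ) {z : ℂ} (hz : r < ‖z‖) :
    gam μ z = 1 := by
  unfold gam
  rw [h.supp z hz]
  norm_num

private theorem Tb_gam_meas {κ r : ℝ} {μ : ℂ → ℝ} (h : Mu κ r μ) : Measurable (gam μ) := by
  unfold gam
  exact (measurable_const.add h.meas).div (measurable_const.sub h.meas)

private theorem Tb_gam_bd {κ r : ℝ} {μ : ℂ → ℝ} (hκ : κ < 1) (h : Mu κ r μ) (z : ℂ) :
    ‖gam μ z‖ ≤ (1 + κ) / (1 - κ) := by
  have h1 := abs_le.1 (h.bd z)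
  have h2 : 0 < 1 - μ z := by linarith
  have h3 : 0 < 1 - κ := by linarith
  have h4 : 0 ≤ 1 + μ z := by linarith
  unfold gam
  rw [Real.norm_of_nonneg (div_nonneg h4 h2.le), div_le_div_iff₀ h2 h3]
  nlinarith

private theorem Tb_int {κ r : ℝ} {μ : ℂ → ℝ} (hκ : κ < 1) (hμ : Mu κ r μ) {Ω : Set ℂ}
    {G H : ℂ → ℂ} (hG : MemLp G 2 (volume.restrict Ω)) (hH : MemLp H 2 volume) :
    IntegrableOn (fun z => gam μ z * ip (G z) (H z)) Ω volume := by
  have hH' : MemLp (fun z => conj (H z)) 2 (volume.restrict Ω) := by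
    have := (hH.restrict Ω).star
    exact this
  have h1 : Integrable (fun z => G z * conj (H z)) (volume.restrict Ω) :=
    hG.integrable_mul hH'
  have h2 : Integrable (fun z => ip (G z) (H z)) (volume.restrict Ω) := h1.re
  exact h2.bdd_mul (Tb_gam_meas hμ).aestronglyMeasurable
    (Eventually.of_forall (Tb_gam_bd hκ hμ))

theorem piece_Tb (h1 : S_Ta) (h2 : S_z0) (h3 : S_half) (h4 : S_cut) (h5 : S_flux)
    (h6 : S_bridge) (h7 : S_smooth) : S_Tb := by
  intro κ hκ0 hκ1 μ₁ μ₂ hμ₁ hμ₂ hHYP N f A B g A' B' G₂ hf hWf hef hg hWg heg hDN Ψ H hΨ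
  obtain ⟨iP, zP⟩ := h1 κ hκ0 hκ1 μ₁ hμ₁ N f A B hf hWf hef Ψ H hΨ
  obtain ⟨iR, zR⟩ := h1 κ hκ0 hκ1 μ₂ hμ₂ N g A' B' hg hWg heg Ψ H hΨ
  obtain ⟨M, hM, hcut⟩ := h4
  obtain ⟨χ, hχ, hχc, hχ01, hχ1, hχ0, hgr1, hgr2, _⟩ := hcut 2 (by norm_num)
  set Gu : ℂ → ℂ := fun z => I * (conj (A z) - B z) with hGu
  set Gu' : ℂ → ℂ := fun z => I * (conj (A' z) - B' z) with hGu'
  have hWGu : WG univ (fun z => (f z).im) Gu := (h6.1 univ f A B hWf).2
  set GΦ : ℂ → ℂ := fun z => (χ z : ℂ) * Gu z + (((f z).im : ℝ) : ℂ) * gr χ z with hGΦ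
  have hWΦ : WG univ (fun z => χ z * (f z).im) GΦ := Tb_prod h6 h7 hWGu hχ.1
  have hOC : OC (fun z => χ z * (f z).im) GΦ := by
    refine ⟨hχ.1.continuous.mul (continuous_im.comp hf.cont), hχ.2.1.mul_right, ?_, hWΦ, ?_⟩
    · intro z
      rw [hχc, hf.symm, conj_im]
      ring
    · have hm := hWΦ.G2 (closedBall 0 4) (isCompact_closedBall 0 4) (subset_univ _)
      have e : GΦ = (closedBall (0 : ℂ) 4).indicator GΦ := by
        funext z
        by_cases hz : z ∈ closedBall (0 : ℂ) 4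
        · rw [indicator_of_mem hz]
        · rw [indicator_of_notMem hz]
          have hz' : 2 * 2 < ‖z‖ := by
            have h8 : 4 < ‖z‖ := by simpa [mem_closedBall, dist_zero_right] using hz
            linarith
          simp only [hGΦ, hχ0 z hz'.le, hgr2 z hz', ofReal_zero, zero_mul, mul_zero, add_zero]
      rw [e]
      exact (memLp_indicator_iff_restrict measurableSet_closedBall).2 hm
  have hin : ∀ z ∈ HB, ‖z‖ < 1 ∧ GΦ z = Gu z := by
    intro z hz
    have hz1 : ‖z‖ < 1 := hz.1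
    refine ⟨hz1, ?_⟩
    simp only [hGΦ, hχ1 z (by linarith), hgr1 z (by linarith), ofReal_one, one_mul, mul_zero,
      add_zero]
  have hGuHB : MemLp Gu 2 (volume.restrict HB) := by
    have hm := hWGu.G2 (closedBall 0 1) (isCompact_closedBall 0 1) (subset_univ _)
    refine hm.mono_measure (Measure.restrict_mono ?_ le_rfl)
    intro z hz
    rw [mem_closedBall, dist_zero_right]
    exact hz.1.le
  have hzero : Z0 HB (fun z => Gu z - GΦ z) := by
    refine h2.1 HB _ ?_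
    refine (ae_restrict_iff' Tb_HB_meas).2 (Eventually.of_forall (fun z hz => ?_))
    show Gu z - GΦ z = 0
    rw [(hin z hz).2, sub_self]
  have hDN1 : DN HB (gam μ₁) GΦ Gu := by
    refine ⟨hzero, hGuHB, ?_⟩
    intro φ hφ
    have hWφ : WG univ φ (gr φ) :=
      h6.2.2.1 univ φ isOpen_univ ((hφ.1.of_le (by simp)).contDiffOn)
    have hfl := h5 κ hκ0 hκ1 μ₁ hμ₁.bd univ f A B isOpen_univ hWf
      (by rw [Measure.restrict_univ]; exact hef) φ (gr φ) hWφ hφ.2.1 (subset_univ _)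
    rw [setIntegral_eq_integral_of_forall_compl_eq_zero]
    · exact hfl.2
    · intro z hz
      have hz' : z ∉ tsupport φ := fun h => hz (hφ.2.2 h)
      have hfd : fderiv ℝ φ z = 0 := by
        by_contra hne
        exact hz' (support_fderiv_subset ℝ hne)
      have : gr φ z = 0 := by
        unfold gr
        simp [hfd]
      rw [this]
      simp [ip]
  have hDN2 : DN HB (gam μ₂) GΦ G₂ := by
    refine ⟨?_, hDN.mem, hDN.sol⟩
    have := h2.2.1 HB _ _ 1 hDN.z0 hzero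
    have e : (fun z => G₂ z - GΦ z) = fun z => (G₂ z - I * (conj (A z) - B z)) +
        ((1 : ℝ) : ℂ) * (Gu z - GΦ z) := by
      funext z
      simp only [hGu, ofReal_one, one_mul]
      ring
    rw [e]
    exact this
  have hkey : ∫ z in HB, gam μ₁ z * ip (Gu z) (H z) = ∫ z in HB, gam μ₂ z * ip (G₂ z) (H z) :=
    hHYP _ GΦ Ψ H hOC hΨ Gu G₂ hDN1 hDN2
  -- the four functions
  set P : ℂ → ℝ := fun z => gam μ₁ z * ip (Gu z) (H z) with hP
  set Q : ℂ → ℝ := fun z => gam μ₂ z * ip (G₂ z) (H z) with hQ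
  set R : ℂ → ℝ := fun z => gam μ₂ z * ip (Gu' z) (H z) with hR
  set T : ℂ → ℝ := fun z => gam μ₂ z * ip (Dfield Gu Gu' G₂ z) (H z) with hT
  have iQ : IntegrableOn Q HB volume := Tb_int hκ1 hμ₂ hDN.mem hΨ.mem
  have hsub : HB ⊆ UH := fun z hz => hz.2
  have hun : UH = HB ∪ (UH \ HB) := (union_sdiff_cancel hsub).symm
  have hdis : Disjoint HB (UH \ HB) := disjoint_sdiff_right
  have mD : MeasurableSet (UH \ HB) := Tb_UH_meas.diff Tb_HB_meas
  have eT1 : ∀ z ∈ HB, T z = Q z - R z := by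
    intro z hz
    have : Dfield Gu Gu' G₂ z = G₂ z - Gu' z := by
      unfold Dfield
      rw [if_pos hz.1]
    simp only [hT, hQ, hR, this, Tb_ip_sub]
    ring
  have eT2 : ∀ᵐ z ∂(volume.restrict (UH \ HB)), T z = P z - R z := by
    rw [ae_restrict_iff' mD]
    filter_upwards [h3.2.2] with z hz1 hz
    have hz2 : ¬ ‖z‖ < 1 := fun h => hz.2 ⟨h, hz.1⟩
    have hz3 : 1 < ‖z‖ := lt_of_le_of_ne (not_lt.1 hz2) (Ne.symm hz1)
    have : Dfield Gu Gu' G₂ z = Gu z - Gu' z := by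
      unfold Dfield
      rw [if_neg hz2]
    simp only [hT, hP, hR, this, Tb_ip_sub, Tb_gam hμ₁ hz3, Tb_gam hμ₂ hz3]
    ring
  have iR1 : IntegrableOn R HB volume := iR.integrableOn
  have iR2 : IntegrableOn R (UH \ HB) volume := iR.integrableOn
  have iP1 : IntegrableOn P HB volume := iP.integrableOn
  have iP2 : IntegrableOn P (UH \ HB) volume := iP.integrableOn
  have iT1 : IntegrableOn T HB volume :=
    (iQ.sub iR1).congr ((ae_restrict_iff' Tb_HB_meas).2
      (Eventually.of_forall (fun z hz => (eT1 z hz).symm)))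
  have iT2 : IntegrableOn T (UH \ HB) volume := (iP2.sub iR2).congr
    (eT2.mono (fun z hz => hz.symm))
  have vT1 : ∫ z in HB, T z = (∫ z in HB, Q z) - ∫ z in HB, R z := by
    rw [← integral_sub iQ iR1]
    exact setIntegral_congr_fun Tb_HB_meas eT1
  have vT2 : ∫ z in UH \ HB, T z = (∫ z in UH \ HB, P z) - ∫ z in UH \ HB, R z := by
    rw [← integral_sub iP2 iR2]
    exact integral_congr_ae eT2
  have sP : ∫ z in UH, P z = (∫ z in HB, P z) + ∫ z in UH \ HB, P z := by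
    conv_lhs => rw [hun]
    exact setIntegral_union hdis mD iP1 iP2
  have sR : ∫ z in UH, R z = (∫ z in HB, R z) + ∫ z in UH \ HB, R z := by
    conv_lhs => rw [hun]
    exact setIntegral_union hdis mD iR1 iR2
  have sT : ∫ z in UH, T z = (∫ z in HB, T z) + ∫ z in UH \ HB, T z := by
    conv_lhs => rw [hun]
    exact setIntegral_union hdis mD iT1 iT2
  have zP' : ∫ z in UH, P z = 0 := zP
  have zR' : ∫ z in UH, R z = 0 := zR
  refine ⟨?_, ?_⟩
  · have : IntegrableOn T (HB ∪ (UH \ HB)) volume := iT1.union iT2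
    rw [← hun] at this
    exact this
  · show ∫ z in UH, T z = 0
    linarith

end Cal
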