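import Pool.Agent.Lib.MP_4ea4c7_an.Stm1
import Pool.Agent.Lib.MP_4ea4c7_an.StmC

/-!
# MP_4ea4c7_an, piece [GC3]: the difference field vanishes
-/

open MeasureTheory Complex Metric Set Filter Topology
open scoped ComplexConjugate ENNReal NNReal

namespace Cal

noncomputable section

private theorem tc_measHB : MeasurableSet HB := by
  have : IsOpen HB := by
    have h1 : IsOpen {z : ℂ | ‖z‖ < 1} := isOpen_lt continuous_norm continuous_const
    have h2 : IsOpen {z : ℂ | 0 < z.im} := isOpen_lt continuous_const Complex.continuous_im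
    exact h1.inter h2
  exact this.measurableSet

private theorem tc_measUH : MeasurableSet UH :=
  (isOpen_lt continuous_const Complex.continuous_im).measurableSet

private theorem tc_ip_add (a b c : ℂ) : ip a (b + c) = ip a b + ip a c := by
  simp only [ip, map_add, mul_add, Complex.add_re]

private theorem tc_ip_smul (s : ℝ) (a b : ℂ) : ip ((s : ℂ) * a) b = s * ip a b := by
  simp only [ip]
  rw [mul_assoc, Complex.re_ofReal_mul]

private theorem tc_ip_self (a : ℂ) : ip a a = ‖a‖ ^ 2 := by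
  simp only [ip]
  rw [Complex.mul_conj, Complex.ofReal_re, Complex.normSq_eq_norm_sq]

private theorem tc_ip_zero (a : ℂ) : ip a 0 = 0 := by
  simp [ip]

private theorem tc_ip_le (a b : ℂ) : |ip a b| ≤ ‖a‖ * ‖b‖ := by
  simp only [ip]
  refine (Complex.abs_re_le_norm _).trans ?_
  rw [norm_mul, RCLike.norm_conj]

private theorem tc_int {m : Measure ℂ} {F : ℂ → ℝ} {C : ℝ} (hF : Measurable F)
    (hC : ∀ z, |F z| ≤ C) {U V : ℂ → ℂ} (hU : MemLp U 2 m) (hV : MemLp V 2 m) :
    Integrable (fun z => F z * ip (U z) (V z)) m := by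
  have hV' : MemLp (fun z => conj (V z)) 2 m := hV.star
  have h1 : Integrable (fun z => U z * conj (V z)) m := hU.integrable_mul hV'
  have h2 : Integrable (fun z => ip (U z) (V z)) m := h1.re
  exact h2.bdd_mul hF.aestronglyMeasurable (ae_of_all _ fun z => hC z)

private theorem tc_gam {κ : ℝ} (h1 : κ < 1) {μ : ℂ → ℝ} (hμ : Mu κ 1 μ) :
    Measurable (gam μ) ∧ (∀ z, (1 - κ) / 2 ≤ gam μ z) ∧ ∀ z, |gam μ z| ≤ 2 / (1 - κ) := by
  refine ⟨?_, fun z => ?_, fun z => ?_⟩
  · exact (measurable_const.add hμ.meas).div (measurable_const.sub hμ.meas)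
  · have h2 := abs_le.mp (hμ.bd z)
    unfold gam
    rw [div_le_div_iff₀ (by norm_num) (by linarith)]
    nlinarith
  · have h2 := abs_le.mp (hμ.bd z)
    unfold gam
    rw [abs_of_nonneg (div_nonneg (by linarith) (by linarith)),
      div_le_div_iff₀ (by linarith) (by linarith)]
    nlinarith

private theorem tc_K (K0 : ℝ) : MemLp (fun z : ℂ => K0 / (1 + ‖z‖) ^ 2) 2 volume := by
  have h1 : AEStronglyMeasurable (fun z : ℂ => K0 / (1 + ‖z‖) ^ 2) volume := by
    apply Continuous.aestronglyMeasurable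
    refine continuous_const.div (by fun_prop) fun z => ?_
    positivity
  rw [memLp_two_iff_integrable_sq h1]
  have h2 : Integrable (fun z : ℂ => (1 + ‖z‖) ^ (-(4 : ℝ))) volume := by
    apply integrable_one_add_norm
    rw [Complex.finrank_real_complex]
    norm_num
  refine (h2.const_mul (K0 ^ 2)).congr (ae_of_all _ fun z => ?_)
  have h3 : (0 : ℝ) < 1 + ‖z‖ := by positivity
  have h4 : (1 + ‖z‖) ^ (-(4 : ℝ)) = ((1 + ‖z‖) ^ 4)⁻¹ := by
    rw [Real.rpow_neg h3.le]
    congr 1
    exact_mod_cast Real.rpow_natCast (1 + ‖z‖) 4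
  simp only [h4]
  rw [div_pow, ← pow_mul]
  rfl

private theorem tc_fd {χ : ℂ → ℝ} (hχ : ContDiff ℝ (⊤ : ℕ∞) χ) (z v : ℂ) :
    fderiv ℝ (fun w => ((χ w : ℝ) : ℂ)) z v = ((fderiv ℝ χ z v : ℝ) : ℂ) := by
  have h1 : HasFDerivAt χ (fderiv ℝ χ z) z :=
    ((hχ.differentiable (by simp)) z).hasFDerivAt
  have h2 : HasFDerivAt (fun w => ((χ w : ℝ) : ℂ)) (Complex.ofRealCLM.comp (fderiv ℝ χ z)) z :=
    Complex.ofRealCLM.hasFDerivAt.comp z h1
  rw [h2.fderiv]
  rfl

private theorem tc_conj {χ : ℂ → ℝ} (hχ : ContDiff ℝ (⊤ : ℕ∞) χ) (z : ℂ) :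
    conj (dz (fun w => ((χ w : ℝ) : ℂ)) z) = db (fun w => ((χ w : ℝ) : ℂ)) z := by
  unfold dz db
  rw [tc_fd hχ, tc_fd hχ]
  simp only [map_div₀, map_sub, map_mul, Complex.conj_ofReal, Complex.conj_I, map_ofNat]
  ring

private theorem tc_grc {χ : ℂ → ℝ} (hχ : RTF univ χ) :
    Continuous (gr χ) ∧ HasCompactSupport (gr χ) := by
  have h1 : Continuous (fderiv ℝ χ) := hχ.1.continuous_fderiv (by simp)
  constructor
  · unfold gr
    have a1 : Continuous fun z => fderiv ℝ χ z 1 := h1.clm_apply continuous_const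
    have a2 : Continuous fun z => fderiv ℝ χ z I := h1.clm_apply continuous_const
    fun_prop
  · have h2 : HasCompactSupport (fderiv ℝ χ) := hχ.2.1.fderiv (𝕜 := ℝ)
    exact h2.comp_left (g := fun L : ℂ →L[ℝ] ℝ => ((L 1 : ℝ) : ℂ) + I * ((L I : ℝ) : ℂ))
      (by simp)

private theorem tc_OC (h6 : S_bridge) (h7 : S_smooth) {w χ : ℂ → ℝ} {E : ℂ → ℂ}
    (hw : Continuous w) (hodd : ∀ z, w (conj z) = - w z) (hwg : WG univ w E)
    (hE : MemLp E 2 volume) (hχ : RTF univ χ) (hev : ∀ z, χ (conj z) = χ z)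
    (hb : ∀ z, 0 ≤ χ z ∧ χ z ≤ 1) :
    OC (fun z => χ z * w z) (fun z => (χ z : ℂ) * E z + (w z : ℂ) * gr χ z) where
  cont := hχ.1.continuous.mul hw
  supp := hχ.2.1.mul_right
  odd := by
    intro z
    rw [hev, hodd, mul_neg]
  wg := by
    have a1 := h6.2.1 univ w E hwg
    have hχc : ContDiffOn ℝ (⊤ : ℕ∞) (fun z => ((χ z : ℝ) : ℂ)) univ :=
      (Complex.ofRealCLM.contDiff.comp hχ.1).contDiffOn
    have a2 := h7.2.2 univ _ _ _ (fun z => ((χ z : ℝ) : ℂ)) isOpen_univ a1 hχc
    have a3 := (h6.1 univ _ _ _ a2).1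
    have e1 : (fun z => χ z * w z) = fun z => (((w z : ℝ) : ℂ) * ((χ z : ℝ) : ℂ)).re := by
      funext z
      rw [← Complex.ofReal_mul, Complex.ofReal_re, mul_comm]
    have e2 : (fun z => (χ z : ℂ) * E z + (w z : ℂ) * gr χ z) = fun z =>
        conj (conj (E z) / 2 * ((χ z : ℝ) : ℂ) +
          ((w z : ℝ) : ℂ) * dz (fun z => ((χ z : ℝ) : ℂ)) z) +
        (E z / 2 * ((χ z : ℝ) : ℂ) + ((w z : ℝ) : ℂ) * db (fun z => ((χ z : ℝ) : ℂ)) z) := by
      funext z
      rw [map_add, map_mul, map_mul, tc_conj hχ.1,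
        h6.2.2.2 χ z ((hχ.1.differentiable (by simp)) z)]
      simp only [map_div₀, Complex.conj_conj, Complex.conj_ofReal, map_ofNat]
      ring
    rw [e1, e2]
    exact a3
  mem := by
    refine MemLp.add ?_ ?_
    · refine hE.mono ((Complex.continuous_ofReal.comp hχ.1.continuous).aestronglyMeasurable.mul
        hE.1) (ae_of_all _ fun z => ?_)
      rw [norm_mul, Complex.norm_real, Real.norm_of_nonneg (hb z).1]
      exact mul_le_of_le_one_left (norm_nonneg _) (hb z).2
    · have h1 := tc_grc hχ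
      refine Continuous.memLp_of_hasCompactSupport
        ((Complex.continuous_ofReal.comp hw).mul h1.1) ?_
      exact h1.2.mul_left

private theorem tc_gr0 {φ : ℂ → ℝ} {z : ℂ} (hz : z ∉ tsupport φ) : gr φ z = 0 := by
  unfold gr
  rw [fderiv_of_notMem_tsupport ℝ hz]
  simp

theorem piece_Tc (h1 : S_Tb) (h2 : S_z0) (h3 : S_oddext) (h4 : S_cut) (h5 : S_uniq)
    (h6 : S_bridge) (h7 : S_smooth) (_h8 : S_half) (h9 : S_basic) : S_Tc := by
  intro κ hκ0 hκ1 μ₁ μ₂ hμ₁ hμ₂ hyp N f A B g A' B' G₂ hf hwf hBf hg hwg hBg hdec hDN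
  obtain ⟨hFm, hFlo, hFhi⟩ := tc_gam hκ1 hμ₂
  -- the difference of the two solutions
  have hWD : WD univ (fun z => f z - g z) (fun z => A z - A' z) (fun z => B z - B' z) := by
    have a1 := h9.1 univ _ _ _ _ _ _ hwf (h9.2.1 univ _ _ _ (-1) hwg)
    have e1 : (fun z => f z - g z) = fun z => f z + -1 * g z := by
      funext z
      ring
    have e2 : (fun z => A z - A' z) = fun z => A z + -1 * A' z := by
      funext z
      ring
    have e3 : (fun z => B z - B' z) = fun z => B z + -1 * B' z := by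
      funext z
      ring
    rw [e1, e2, e3]
    exact a1
  have hB0 : ∀ᵐ z : ℂ, 5 / 4 < ‖z‖ → B z - B' z = 0 := by
    filter_upwards [hBf, hBg] with z e1 e2 hz
    have : (1 : ℝ) < ‖z‖ := by linarith
    rw [e1, e2, hμ₁.supp z this, hμ₂.supp z this]
    simp
  obtain ⟨-, hA2, hB2, -⟩ := h5 _ _ _ hWD hB0 hdec
  obtain ⟨E, hE⟩ : ∃ E : ℂ → ℂ, E = fun z => I * (conj (A z - A' z) - (B z - B' z)) := ⟨_, rfl⟩
  have hEm : MemLp E 2 volume := by
    rw [hE]
    have a1 : MemLp (fun z => conj (A z - A' z)) 2 volume := hA2.star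
    exact (a1.sub hB2).const_mul I
  have hwE : WG univ (fun z => (f z - g z).im) E := by
    rw [hE]
    exact (h6.1 univ _ _ _ hWD).2
  obtain ⟨P, hP⟩ : ∃ P : ℂ → ℂ,
      P = HB.indicator (fun z => G₂ z - I * (conj (A z) - B z)) := ⟨_, rfl⟩
  have hPin : ∀ z ∈ HB, P z = G₂ z - I * (conj (A z) - B z) := by
    intro z hz
    rw [hP, indicator_of_mem hz]
  have hPout : ∀ z, z ∉ HB → P z = 0 := by
    intro z hz
    rw [hP, indicator_of_notMem hz]
  have hPm : MemLp P 2 volume := by
    rw [hP]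
    exact (memLp_indicator_iff_restrict tc_measHB).2 hDN.z0.1
  have hDm : MemLp (fun z => P z + E z) 2 volume := hPm.add hEm
  have hDeq : ∀ z ∈ UH, Dfield (fun z => I * (conj (A z) - B z))
      (fun z => I * (conj (A' z) - B' z)) G₂ z = P z + E z := by
    intro z hz
    unfold Dfield
    by_cases h : ‖z‖ < 1
    · rw [hPin z ⟨h, hz⟩, hE, if_pos h]
      simp only [map_sub]
      ring
    · rw [hPout z (fun h' => h h'.1), hE, if_neg h]
      simp only [map_sub]
      ring
  -- the flux identity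
  have hT : ∀ (Ψ : ℂ → ℝ) (H : ℂ → ℂ), OC Ψ H →
      ∫ z in UH, gam μ₂ z * ip (P z + E z) (H z) = 0 := by
    intro Ψ H hOC
    rw [← (h1 κ hκ0 hκ1 μ₁ μ₂ hμ₁ hμ₂ hyp N f A B g A' B' G₂ hf hwf hBf hg hwg hBg hDN Ψ H hOC).2]
    refine setIntegral_congr_fun tc_measUH fun z hz => ?_
    simp only [hDeq z hz]
  -- part (a)
  have ha : ∫ z in UH, gam μ₂ z * ip (P z + E z) (P z) = 0 := by
    have a1 : ∫ z in UH, gam μ₂ z * ip (P z + E z) (P z)
        = ∫ z in HB, gam μ₂ z * ip (P z + E z) (P z) := by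
      refine setIntegral_eq_of_subset_of_forall_sdiff_eq_zero tc_measUH (fun z hz => hz.2)
        fun z hz => ?_
      have : ip (P z + E z) (P z) = 0 := by
        rw [hPout z hz.2, tc_ip_zero]
      rw [this, mul_zero]
    have a2 : ∫ z in HB, gam μ₂ z * ip (P z + E z) (P z)
        = ∫ z in HB, ip ((gam μ₂ z : ℂ) * (P z + E z)) (G₂ z - I * (conj (A z) - B z)) := by
      refine setIntegral_congr_fun tc_measHB fun z hz => ?_
      simp only [tc_ip_smul]
      rw [← hPin z hz]
    rw [a1, a2]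
    refine h2.2.2 HB _ _ ?_ ?_ hDN.z0
    · refine MemLp.of_le_mul (c := 2 / (1 - κ)) (hDm.restrict HB) ?_ (ae_of_all _ fun z => ?_)
      · exact (Complex.measurable_ofReal.comp hFm).aestronglyMeasurable.mul hDm.1.restrict
      · rw [norm_mul, Complex.norm_real]
        exact mul_le_mul_of_nonneg_right (hFhi z) (norm_nonneg _)
    · intro φ hφ
      obtain ⟨b1, b2⟩ := h3 φ hφ
      rw [← hT _ _ b1]
      symm
      calc ∫ z in UH, gam μ₂ z * ip (P z + E z) (gr (fun z => φ z - φ (conj z)) z)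
          = ∫ z in UH, gam μ₂ z * ip (P z + E z) (gr φ z) := by
            refine setIntegral_congr_fun tc_measUH fun z hz => ?_
            simp only [b2 z hz]
        _ = ∫ z in HB, gam μ₂ z * ip (P z + E z) (gr φ z) := by
            refine setIntegral_eq_of_subset_of_forall_sdiff_eq_zero tc_measUH
              (fun z hz => hz.2) fun z hz => ?_
            rw [tc_gr0 (fun h => hz.2 (hφ.2.2 h)), tc_ip_zero, mul_zero]
        _ = ∫ z in HB, ip ((gam μ₂ z : ℂ) * (P z + E z)) (gr φ z) := by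
            simp only [tc_ip_smul]
  -- part (b)
  have hb : ∫ z in UH, gam μ₂ z * ip (P z + E z) (E z) = 0 := by
    obtain ⟨M, hM, hcut⟩ := h4
    choose χ c1 c2 c3 c4 c5 c6 c7 c8 using fun n : ℕ => hcut ((n : ℝ) + 2) (by positivity)
    obtain ⟨C, hC⟩ := hdec
    obtain ⟨w, hw⟩ : ∃ w : ℂ → ℝ, w = fun z => (f z - g z).im := ⟨_, rfl⟩
    rw [← hw] at hwE
    have hwc : Continuous w := by
      rw [hw]
      exact Complex.continuous_im.comp (hf.cont.sub hg.cont)
    have hodd : ∀ z, w (conj z) = - w z := by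
      intro z
      rw [hw]
      simp only [hf.symm, hg.symm, ← map_sub, Complex.conj_im]
    have hwd : ∀ z, 2 ≤ ‖z‖ → |w z| ≤ C / ‖z‖ := by
      intro z hz
      rw [hw]
      exact (Complex.abs_im_le_norm _).trans (hC z hz)
    have hC0 : 0 ≤ C := by
      have := (abs_nonneg _).trans (hwd 2 (by simp))
      simp only [Complex.norm_ofNat] at this
      linarith
    have hOC := fun n => tc_OC h6 h7 hwc hodd hwE hEm (c1 n) (c2 n) (c3 n)
    have hz : ∀ n, ∫ z in UH, gam μ₂ z * ip (P z + E z)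
        ((χ n z : ℂ) * E z + (w z : ℂ) * gr (χ n) z) = 0 := fun n => hT _ _ (hOC n)
    have hlim : Tendsto (fun n => ∫ z in UH, gam μ₂ z * ip (P z + E z)
        ((χ n z : ℂ) * E z + (w z : ℂ) * gr (χ n) z)) atTop
        (𝓝 (∫ z in UH, gam μ₂ z * ip (P z + E z) (E z))) := by
      refine tendsto_integral_of_dominated_convergence
        (fun z => 2 / (1 - κ) * (‖P z + E z‖ * (‖E z‖ + 8 * M * C / (1 + ‖z‖) ^ 2))) ?_ ?_ ?_ ?_
      · intro n
        exact (tc_int hFm hFhi (hDm.restrict UH) ((hOC n).mem.restrict UH)).1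
      · refine Integrable.const_mul ?_ _
        have a1 : MemLp (fun z => ‖E z‖ + 8 * M * C / (1 + ‖z‖) ^ 2) 2 volume :=
          hEm.norm.add (tc_K _)
        exact ((hDm.norm).integrable_mul a1).restrict
      · intro n
        refine ae_of_all _ fun z => ?_
        rw [norm_mul, Real.norm_eq_abs, Real.norm_eq_abs]
        have hk : 0 ≤ 2 / (1 - κ) := div_nonneg (by norm_num) (by linarith)
        refine mul_le_mul (hFhi z) ((tc_ip_le _ _).trans ?_) (abs_nonneg _) hk
        refine mul_le_mul_of_nonneg_left ((norm_add_le _ _).trans (add_le_add ?_ ?_))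
          (norm_nonneg _)
        · rw [norm_mul, Complex.norm_real, Real.norm_of_nonneg (c3 n z).1]
          exact mul_le_of_le_one_left (norm_nonneg _) (c3 n z).2
        · rw [norm_mul, Complex.norm_real, Real.norm_eq_abs]
          have hn0 : (0 : ℝ) ≤ n := Nat.cast_nonneg n
          by_cases hlo : ‖z‖ < (n : ℝ) + 2
          · rw [c6 n z hlo, norm_zero, mul_zero]
            positivity
          · by_cases hup : 2 * ((n : ℝ) + 2) < ‖z‖
            · rw [c7 n z hup, norm_zero, mul_zero]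
              positivity
            · push Not at hlo hup
              have hz2 : 2 ≤ ‖z‖ := by linarith
              have e1 := hwd z hz2
              have e2 : ‖gr (χ n) z‖ ≤ 2 * M / ‖z‖ := by
                refine (c8 n z).trans ?_
                rw [div_le_div_iff₀ (by linarith) (by linarith)]
                nlinarith
              have e3 : |w z| * ‖gr (χ n) z‖ ≤ C / ‖z‖ * (2 * M / ‖z‖) :=
                mul_le_mul e1 e2 (norm_nonneg _) (div_nonneg hC0 (norm_nonneg _))
              refine e3.trans ?_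
              rw [div_mul_div_comm, div_le_div_iff₀ (by positivity) (by positivity)]
              have e4 : (1 + ‖z‖) ^ 2 ≤ 4 * (‖z‖ * ‖z‖) := by nlinarith
              have e5 : 0 ≤ C * (2 * M) := by positivity
              calc C * (2 * M) * (1 + ‖z‖) ^ 2 ≤ C * (2 * M) * (4 * (‖z‖ * ‖z‖)) :=
                    mul_le_mul_of_nonneg_left e4 e5
                _ = 8 * M * C * (‖z‖ * ‖z‖) := by ring
      · refine ae_of_all _ fun z => ?_
        refine tendsto_const_nhds.congr' ?_
        filter_upwards [eventually_ge_atTop ⌈‖z‖⌉₊] with n hn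
        have e1 : ‖z‖ < (n : ℝ) + 2 := by
          have := (Nat.le_ceil ‖z‖).trans (Nat.cast_le.mpr hn)
          linarith
        rw [c4 n z e1.le, c6 n z e1]
        simp
    refine tendsto_nhds_unique hlim ?_
    simp only [hz]
    exact tendsto_const_nhds
  -- conclusion
  have hint : Integrable (fun z => gam μ₂ z * ‖P z + E z‖ ^ 2) (volume.restrict UH) := by
    refine (tc_int hFm hFhi (hDm.restrict UH) (hDm.restrict UH)).congr (ae_of_all _ fun z => ?_)
    simp only [tc_ip_self]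
  have hsum : ∫ z in UH, gam μ₂ z * ‖P z + E z‖ ^ 2 = 0 := by
    have e1 : ∀ z, gam μ₂ z * ‖P z + E z‖ ^ 2
        = gam μ₂ z * ip (P z + E z) (P z) + gam μ₂ z * ip (P z + E z) (E z) := by
      intro z
      rw [← tc_ip_self, ← mul_add, ← tc_ip_add]
    simp only [e1]
    rw [integral_add (tc_int hFm hFhi (hDm.restrict UH) (hPm.restrict UH))
      (tc_int hFm hFhi (hDm.restrict UH) (hEm.restrict UH)), ha, hb, add_zero]
  have hk : 0 < (1 - κ) / 2 := by linarith
  rw [integral_eq_zero_iff_of_nonneg_ae (ae_of_all _ fun z =>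
    mul_nonneg (hk.le.trans (hFlo z)) (sq_nonneg _)) hint] at hsum
  filter_upwards [hsum] with z e1 hz1
  have e2 : gam μ₂ z * ‖P z + E z‖ ^ 2 = 0 := e1
  have e3 : P z + E z = 0 := by
    rcases mul_eq_zero.mp e2 with h | h
    · exact absurd h (hk.trans_le (hFlo z)).ne'
    · exact norm_eq_zero.mp (pow_eq_zero_iff (by norm_num) |>.mp h)
  rw [hPout z (fun h => absurd h.1 (by linarith)), zero_add, hE] at e3
  simp only [map_sub] at e3
  linear_combination e3

end

end Cal
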