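import Pool.Agent.Lib.MP_4ea4c7_an.Stm1
import Pool.Agent.Lib.MP_4ea4c7_an.StmC

/-!
# Piece [GC4] of MP_4ea4c7_an: the transfer map, conclusion
-/

open MeasureTheory Complex Metric Set Filter Topology
open scoped ComplexConjugate ENNReal NNReal

namespace Cal

noncomputable section

private lemma ptd_sym (h2 : S_wuniq) (h3 : S_basic) {f A B : ℂ → ℂ} (hW : WD univ f A B)
    (hs : ∀ z, f (conj z) = conj (f z)) : ∀ᵐ z : ℂ, A z = conj (A (conj z)) := by
  have h := h3.2.2.2.2.2 univ f A B hW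
  have hset : {z : ℂ | conj z ∈ (univ : Set ℂ)} = univ := by
    ext z
    simp
  rw [hset] at h
  have hf : (fun z => conj (f (conj z))) = f := by
    funext z
    rw [hs z]
    simp
  rw [hf] at h
  have h4 := (h2 univ f A B f _ _ isOpen_univ hW h (Filter.EventuallyEq.refl _ _)).1
  rw [Measure.restrict_univ] at h4
  exact h4

private lemma ptd_zero {μ : ℂ → ℝ} {κ : ℝ} {A B : ℂ → ℂ} (hμ : Mu κ 1 μ)
    (hB : ∀ᵐ z, B z = (μ z : ℂ) * conj (A z)) : ∀ᵐ z : ℂ, 1 < ‖z‖ → B z = 0 := by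
  filter_upwards [hB] with z hz hz1
  rw [hz, hμ.supp z hz1]
  simp

private lemma ptd_ray {h : ℂ → ℂ} (hd : DifferentiableOn ℂ h {z : ℂ | 1 < ‖z‖})
    (hd0 : ∀ z : ℂ, 1 < ‖z‖ → deriv h z = 0) (hdec : Dec h) :
    ∀ z : ℂ, 1 < ‖z‖ → h z = 0 := by
  intro z hz
  have hUo : IsOpen {z : ℂ | 1 < ‖z‖} := isOpen_lt continuous_const continuous_norm
  have hz0 : 0 < ‖z‖ := by linarith
  -- constant on the ray
  have hmem : ∀ t : ℝ, 1 ≤ t → 1 < ‖(t : ℂ) * z‖ := by
    intro t ht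
    rw [norm_mul, Complex.norm_real, Real.norm_eq_abs, abs_of_pos (by linarith)]
    nlinarith
  have hder : ∀ t ∈ Ici (1 : ℝ), HasDerivWithinAt (fun t : ℝ => h ((t : ℂ) * z)) 0 (Ici 1) t := by
    intro t ht
    have h1 : HasDerivAt h (deriv h ((t : ℂ) * z)) ((t : ℂ) * z) :=
      ((hd _ (hmem t ht)).differentiableAt (hUo.mem_nhds (hmem t ht))).hasDerivAt
    rw [hd0 _ (hmem t ht)] at h1
    have h2 : HasDerivAt (fun t : ℝ => (t : ℂ) * z) (1 * z) t :=
      (Complex.ofRealCLM.hasDerivAt (x := t)).mul_const z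
    have h3 := (h1.hasFDerivAt.restrictScalars ℝ).comp_hasDerivAt t h2
    have h4 : HasDerivAt (fun t : ℝ => h ((t : ℂ) * z)) 0 t := by
      refine h3.congr_deriv ?_
      simp
    exact h4.hasDerivWithinAt
  have hconst : ∀ t : ℝ, 1 ≤ t → h ((t : ℂ) * z) = h z := by
    intro t ht
    have h1 := Convex.norm_image_sub_le_of_norm_hasDerivWithin_le (C := 0) hder
      (fun x _ => by simp) (convex_Ici 1) (Set.mem_Ici.mpr le_rfl) (Set.mem_Ici.mpr ht)
    rw [zero_mul] at h1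
    have h2 : h ((t : ℂ) * z) - h (((1 : ℝ) : ℂ) * z) = 0 := norm_le_zero_iff.mp h1
    have h3 := sub_eq_zero.mp h2
    rw [h3]
    simp
  obtain ⟨C, hC⟩ := hdec
  have hbd : ∀ t : ℝ, 2 ≤ t → ‖h z‖ ≤ C / ‖z‖ / t := by
    intro t ht
    have h1 : ‖(t : ℂ) * z‖ = t * ‖z‖ := by
      rw [norm_mul, Complex.norm_real, Real.norm_eq_abs, abs_of_pos (by linarith)]
    have h2 : 2 ≤ ‖(t : ℂ) * z‖ := by
      rw [h1]
      nlinarith
    have h3 := hC _ h2
    rw [hconst t (by linarith), h1] at h3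
    calc ‖h z‖ ≤ C / (t * ‖z‖) := h3
      _ = C / ‖z‖ / t := by rw [div_div, mul_comm]
  have hlim : Tendsto (fun t : ℝ => C / ‖z‖ / t) atTop (𝓝 0) := tendsto_const_nhds.div_atTop tendsto_id
  have hle : ‖h z‖ ≤ 0 :=
    ge_of_tendsto hlim (Filter.eventually_atTop.mpr ⟨2, fun t ht => hbd t ht⟩)
  exact norm_le_zero_iff.mp hle

theorem piece_Td (h1 : S_weyl) (h2 : S_wuniq) (h3 : S_basic) (h4 : S_smooth) (h5 : S_half) :
    S_Td := by
  intro κ _ _ μ₁ μ₂ hμ₁ hμ₂ N f A B g A' B' hf hW hB hg hW' hB' hdec hUH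
  have hUo : IsOpen {z : ℂ | 1 < ‖z‖} := isOpen_lt continuous_const continuous_norm
  have hUHo : IsOpen UH := isOpen_lt continuous_const Complex.continuous_im
  have hB0 := ptd_zero hμ₁ hB
  have hB0' := ptd_zero hμ₂ hB'
  have hE1 : ∀ᵐ z : ℂ, z ∈ UH → 1 < ‖z‖ → A z = A' z := by
    have h6 := (ae_restrict_iff' hUHo.measurableSet).mp hUH
    filter_upwards [h6, hB0, hB0'] with z hz hb hb' hzU hz1
    have h7 := hz hzU hz1
    rw [hb hz1, hb' hz1, sub_zero, sub_zero] at h7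
    have h8 : conj (A z) = conj (A' z) := mul_left_cancel₀ I_ne_zero h7
    exact (starRingEnd ℂ).injective h8
  have hE2 : ∀ᵐ z : ℂ, conj z ∈ UH → 1 < ‖(conj z : ℂ)‖ → A (conj z) = A' (conj z) :=
    (Complex.conjLIE.measurePreserving).quasiMeasurePreserving.ae hE1
  have hE : ∀ᵐ z : ℂ, 1 < ‖z‖ → A z = A' z := by
    filter_upwards [hE1, hE2, ptd_sym h2 h3 hW hf.symm, ptd_sym h2 h3 hW' hg.symm, h5.2.1]
      with z e1 e2 s1 s2 him hz1
    rcases lt_or_gt_of_ne him with h6 | h6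
    · have h7 : (conj z : ℂ) ∈ UH := by
        change 0 < (conj z : ℂ).im
        rw [Complex.conj_im]
        linarith
      have h8 := e2 h7 (by rw [RCLike.norm_conj]; exact hz1)
      rw [s1, s2, h8]
    · exact e1 h6 hz1
  -- the difference
  set U : Set ℂ := {z : ℂ | 1 < ‖z‖} with hU
  set h : ℂ → ℂ := fun z => f z - g z with hh
  have hWs : WD univ (fun z => f z + (-1) * g z) (fun z => A z + (-1) * A' z)
      (fun z => B z + (-1) * B' z) := h3.1 univ _ _ _ _ _ _ hW (h3.2.1 univ _ _ _ (-1) hW')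
  have hWU := h3.2.2.2.2.1 univ U _ _ _ (Set.subset_univ U) hWs
  have hWh : WD U h (fun _ => 0) (fun _ => 0) := by
    refine h3.2.2.2.1 U _ _ _ _ _ _ hUo.measurableSet hWU ?_ ?_ ?_
    · refine Filter.Eventually.of_forall fun z => ?_
      rw [hh]
      ring
    · refine (ae_restrict_iff' hUo.measurableSet).mpr ?_
      filter_upwards [hE] with z hz hzU
      rw [hz hzU]
      ring
    · refine (ae_restrict_iff' hUo.measurableSet).mpr ?_
      filter_upwards [hB0, hB0'] with z hb hb' hzU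
      rw [hb hzU, hb' hzU]
      ring
  have hcont : Continuous h := hf.cont.sub hg.cont
  have hdiff : DifferentiableOn ℂ h U := by
    refine (h1 U h hUo hWh.f2 ?_).2 hcont.continuousOn
    intro φ hφ
    have h6 := hWh.hB φ hφ
    rw [h6]
    simp
  have hWd := h4.2.1 U h hUo hdiff
  have hae := (h2 U h _ _ h _ _ hUo hWd hWh (Filter.EventuallyEq.refl _ _)).1
  have hd0 : EqOn (deriv h) (fun _ => 0) U :=
    Measure.eqOn_open_of_ae_eq hae hUo ((hdiff.deriv hUo).continuousOn) continuousOn_const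
  have hzero := ptd_ray hdiff (fun z hz => hd0 hz) hdec
  intro z hz
  have hcl : z ∈ closure U := by
    have h6 : Tendsto (fun t : ℝ => (t : ℂ) * z) (𝓝[>] 1) (𝓝 z) := by
      have h7 : Continuous (fun t : ℝ => (t : ℂ) * z) := by fun_prop
      have h8 := h7.tendsto 1
      simp only [Complex.ofReal_one, one_mul] at h8
      exact h8.mono_left nhdsWithin_le_nhds
    refine mem_closure_of_tendsto h6 ?_
    filter_upwards [self_mem_nhdsWithin] with t ht
    have ht' : (1 : ℝ) < t := ht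
    rw [hU, Set.mem_ofPred_eq, norm_mul, Complex.norm_real, Real.norm_eq_abs,
      abs_of_pos (by linarith)]
    nlinarith
  have h9 : EqOn h (fun _ => 0) U := fun w hw => hzero w hw
  have h10 := h9.closure hcont continuous_const hcl
  have h11 : f z - g z = 0 := h10
  exact (sub_eq_zero.mp h11).symm

end

end Cal
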