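import Pool.Agent.Lib.MP_4ea4c7_an.Stm2
import Pool.Agent.Lib.MP_4ea4c7_an.StmB

/-!
# S_Teq: the distinguished functions agree outside the unit disc
-/

open MeasureTheory Complex Metric Set Filter Topology
open scoped ComplexConjugate ENNReal NNReal

namespace Cal

noncomputable section

private theorem teq_near (w : ℂ) (hw : ‖w‖ = 2) : ∀ᶠ z in 𝓝 w, 1 ≤ ‖z‖ := by
  have h1 : Tendsto (fun z : ℂ => ‖z‖) (𝓝 w) (𝓝 ‖w‖) := continuous_norm.continuousAt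
  have h2 := h1.eventually (lt_mem_nhds (by rw [hw]; norm_num : (1 : ℝ) < ‖w‖))
  exact h2.mono fun z hz => le_of_lt hz

theorem piece_Teq (h1 : S_fasym) (h2 : S_unq) : S_Teq := by
  intro κ hκ0 hκ1 μ₁ μ₂ hμ₁ hμ₂ hT m n f1 d1 f2 d2 hf1 hf2
  obtain ⟨g, hg, hgf⟩ := hT (m + n) f1 hf1.pn
  obtain ⟨ht1, ha1, hb1, _⟩ := h1 μ₁ m n f1 d1 hf1
  obtain ⟨ht2, _, _, _⟩ := h1 μ₂ m n f2 d2 hf2
  have hga : g =O[𝓝 (-2 : ℂ)] fun z => (z + 2) ^ m :=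
    ha1.congr' ((teq_near (-2) (by simp)).mono fun z hz => (hgf z hz).symm)
      (EventuallyEq.refl _ _)
  have hgb : g =O[𝓝 (2 : ℂ)] fun z => (z - 2) ^ n :=
    hb1.congr' ((teq_near 2 (by simp)).mono fun z hz => (hgf z hz).symm)
      (EventuallyEq.refl _ _)
  obtain ⟨c, hc⟩ := h2 κ hκ0 hκ1 μ₂ hμ₂ m n f2 d2 g hf2 hg hga hgb
  have hlim : Tendsto (fun z => f1 z / ((z + 2) ^ m * (2 - z) ^ n)) (cocompact ℂ) (𝓝 (c : ℂ)) := by
    have h3 : Tendsto (fun z => (c : ℂ) * (f2 z / ((z + 2) ^ m * (2 - z) ^ n))) (cocompact ℂ)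
        (𝓝 ((c : ℂ) * 1)) := ht2.const_mul (c : ℂ)
    rw [mul_one] at h3
    refine h3.congr' ?_
    have h4 : ∀ᶠ z : ℂ in cocompact ℂ, 1 ≤ ‖z‖ :=
      (tendsto_norm_cocompact_atTop (E := ℂ)).eventually_ge_atTop 1
    filter_upwards [h4] with z hz
    rw [← hgf z hz, hc z, mul_div_assoc]
  have hne : (cocompact ℂ).NeBot := inferInstance
  have hc1 : (c : ℂ) = 1 := tendsto_nhds_unique hlim ht1
  intro z hz
  rw [← hgf z hz, hc z, hc1, one_mul]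

end

end Cal
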