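import Pool.Agent.Lib.MP_4ea4c7_an.StmH1

/-! Piece a2: zero gradient. (Uses Weyl's lemma.) -/

open MeasureTheory Complex Metric Set Filter Topology
open scoped ComplexConjugate ENNReal NNReal

namespace Cal

theorem piece_aconst (h1 : S_weyl) (h2 : S_smooth) (h3 : S_bridge) (h4 : S_wuniq) : S_aconst := by
  intro U u G hU hUc hW hG
  have hWD := h3.2.1 _ _ _ hW
  obtain ⟨⟨g, hg, hug⟩, -⟩ := h1 U (fun z => (u z : ℂ)) hU hWD.f2 (by
    intro φ hφ
    rw [hWD.hB φ hφ, neg_eq_zero]
    have hts : ∀ z, z ∉ U → G z / 2 * φ z = 0 := by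
      intro z hz
      have : φ z = 0 := by
        by_contra hne
        exact hz (hφ.2.2 (subset_tsupport _ hne))
      rw [this, mul_zero]
    rw [← setIntegral_eq_integral_of_forall_compl_eq_zero (s := U) hts]
    apply integral_eq_zero_of_ae
    filter_upwards [hG] with z hz
    simp [hz])
  have hWg := h2.2.1 U g hU hg
  have hd := (h4 U _ _ _ _ _ _ hU hWD hWg hug).1
  have hd0 : (fun z => deriv g z) =ᵐ[volume.restrict U] fun _ => (0 : ℂ) := by
    filter_upwards [hd, hG] with z hz hz'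
    rw [← hz, hz']
    simp
  have hd1 : EqOn (deriv g) 0 U :=
    Measure.eqOn_open_of_ae_eq hd0 hU (hg.deriv hU).continuousOn continuousOn_const
  obtain ⟨c, hc⟩ := hU.exists_is_const_of_deriv_eq_zero hUc hg hd1
  have hae : ∀ᵐ z ∂(volume.restrict U), u z = c.re := by
    filter_upwards [hug, ae_restrict_mem hU.measurableSet] with z hz hzU
    rw [hc z hzU] at hz
    rw [← hz, ofReal_re]
  refine ⟨⟨c.re, hae⟩, fun hu z hz w hw => ?_⟩
  have hE : EqOn u (fun _ => c.re) U := Measure.eqOn_open_of_ae_eq hae hU hu continuousOn_const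
  rw [hE hz, hE hw]

end Cal
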