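import Pool.Agent.Lib.MP_4ea4c7_an.Stm1
import Pool.Agent.Lib.MP_4ea4c7_an.StmB

/-!
# [DB0] Smooth approximation of coefficients in `L²`
-/

open MeasureTheory Complex Metric Set Filter Topology
open scoped ComplexConjugate ENNReal NNReal

namespace Cal

noncomputable section

private theorem apx_mem (κ : ℝ) (μ : ℂ → ℝ) (hμ : Mu κ 1 μ) : MemLp (fun z => (μ z : ℂ)) 2 volume := by
  have hm : Measurable (fun z => (μ z : ℂ)) := Complex.measurable_ofReal.comp hμ.meas
  have e : (fun z => (μ z : ℂ)) = (closedBall (0 : ℂ) 1).indicator (fun z => (μ z : ℂ)) := by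
    funext z
    by_cases hz : z ∈ closedBall (0 : ℂ) 1
    · rw [indicator_of_mem hz]
    · rw [indicator_of_notMem hz]
      rw [mem_closedBall_zero_iff, not_le] at hz
      rw [hμ.supp z hz]
      simp
  rw [e, memLp_indicator_iff_restrict measurableSet_closedBall]
  have : IsFiniteMeasure (volume.restrict (closedBall (0 : ℂ) 1)) :=
    isFiniteMeasure_restrict.mpr (isCompact_closedBall 0 1).measure_lt_top.ne
  refine MemLp.of_bound hm.aestronglyMeasurable κ (Eventually.of_forall fun z => ?_)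
  rw [Complex.norm_real]
  exact hμ.bd z

private theorem apx_mol (ρ : ℂ → ℝ) (μ : ℂ → ℝ) (z : ℂ) :
    mol ρ (fun z => (μ z : ℂ)) z = ((∫ ζ, ρ (z - ζ) * μ ζ : ℝ) : ℂ) := by
  simp only [mol]
  rw [← integral_complex_ofReal]
  congr 1
  funext ζ
  push_cast
  rfl

theorem piece_apx (h1 : S_bump) : S_apx := by
  intro κ hκ0 hκ1 μ hμ τ hτ
  obtain ⟨ρ, hρs, hρ0, hρz, hρi, hρr, hρm, hρL, _⟩ := h1
  have hg := apx_mem κ μ hμ
  obtain ⟨hmem, hlim⟩ := hρL _ hg
  obtain ⟨N, hN⟩ := ENNReal.tendsto_atTop_zero.mp hlim (ENNReal.ofReal τ) (ENNReal.ofReal_pos.mpr hτ)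
  obtain ⟨n, hn3, hnN⟩ : ∃ n : ℕ, 3 ≤ n ∧ N ≤ n := ⟨max 3 N, le_max_left _ _, le_max_right _ _⟩
  have hgl : LocallyIntegrable (fun z => (μ z : ℂ)) volume := hg.locallyIntegrable (by norm_num)
  have hsm := hρm _ hgl n
  obtain ⟨ν, hν⟩ : ∃ ν : ℂ → ℝ, ν = fun z => ∫ ζ, ρ n (z - ζ) * μ ζ := ⟨_, rfl⟩
  have hmolν : ∀ z, mol (ρ n) (fun z => (μ z : ℂ)) z = (ν z : ℂ) := by
    intro z
    rw [apx_mol, hν]
  have hνsm : ContDiff ℝ (⊤ : ℕ∞) ν := by
    have e : ν = fun z => (mol (ρ n) (fun z => (μ z : ℂ)) z).re := by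
      funext z
      rw [hmolν]
      simp
    rw [e]
    exact Complex.reCLM.contDiff.comp hsm
  have hint : ∀ z : ℂ, ∫ ζ, ρ n (z - ζ) = 1 := by
    intro z
    rw [integral_sub_left_eq_self (ρ n) volume z, hρi n]
  have hcomp : HasCompactSupport (ρ n) := by
    apply HasCompactSupport.of_support_subset_isCompact (isCompact_closedBall (0 : ℂ) (1 / ((n : ℝ) + 1)))
    intro z hz
    rw [mem_closedBall_zero_iff]
    by_contra h
    exact hz (hρz n z (not_le.mp h).le)
  have hint2 : ∀ z : ℂ, Integrable (fun ζ => ρ n (z - ζ)) volume := by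
    intro z
    exact ((hρs n).continuous.integrable_of_hasCompactSupport hcomp).comp_sub_left z
  have hbd : ∀ z, |ν z| ≤ κ := by
    intro z
    rw [hν]
    calc |∫ ζ, ρ n (z - ζ) * μ ζ| ≤ ∫ ζ, ρ n (z - ζ) * κ := by
          rw [← Real.norm_eq_abs]
          apply norm_integral_le_of_norm_le ((hint2 z).mul_const κ)
          refine Eventually.of_forall fun ζ => ?_
          rw [norm_mul, Real.norm_of_nonneg (hρ0 n _), Real.norm_eq_abs]
          exact mul_le_mul_of_nonneg_left (hμ.bd ζ) (hρ0 n _)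
      _ = κ := by rw [integral_mul_const, hint z, one_mul]
  have hn4 : 1 / ((n : ℝ) + 1) ≤ 1 / 4 := by
    apply one_div_le_one_div_of_le (by norm_num)
    have : (3 : ℝ) ≤ n := by exact_mod_cast hn3
    linarith
  have hsupp : ∀ z, 5 / 4 < ‖z‖ → ν z = 0 := by
    intro z hz
    rw [hν]
    have : ∀ ζ, ρ n (z - ζ) * μ ζ = 0 := by
      intro ζ
      by_cases hζ : 1 < ‖ζ‖
      · rw [hμ.supp ζ hζ, mul_zero]
      · rw [hρz n, zero_mul]
        have := norm_sub_norm_le z ζ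
        linarith
    simp [this]
  have hsymm : ∀ z, ν (conj z) = ν z := by
    intro z
    rw [hν]
    have hmp := Complex.conjLIE.measurePreserving
    have e := hmp.integral_comp Complex.conjLIE.toMeasurableEquiv.measurableEmbedding (fun ζ => ρ n (conj z - ζ) * μ ζ)
    dsimp only
    rw [← e]
    congr 1
    funext ζ
    rw [Complex.conjLIE_apply, hμ.symm, ← map_sub, hρr n (conj (z - ζ)) (z - ζ) (Complex.norm_conj _)]
  refine ⟨ν, ⟨⟨hνsm.continuous.measurable, hbd, hsupp, hsymm⟩, hνsm⟩, ?_⟩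
  have h := hN n hnN
  have e : (fun z => ((μ z - ν z : ℝ) : ℂ)) = -(fun z => mol (ρ n) (fun z => (μ z : ℂ)) z - (μ z : ℂ)) := by
    funext z
    rw [Pi.neg_apply, hmolν]
    push_cast
    ring
  rw [e, eLpNorm_neg]
  exact h

end

end Cal
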