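import Pool.Agent.Lib.MP_4ea4c7_an.StmH1

/-!
# MP_4ea4c7_an, stage 2, piece a12: the energy inequality for the logarithm

We use `a t = (1 + log (1 + t/ε²)) / (2 (t + ε²))` (smooth, no removable singularity) and `w ↦ a (‖w‖²) w`.
-/

open MeasureTheory Complex Metric Set Filter Topology
open scoped ComplexConjugate ENNReal NNReal

namespace Cal

noncomputable section

/-- the radial function -/
def ucA (ε t : ℝ) : ℝ := (1 + Real.log (1 + t / ε ^ 2)) / (2 * (t + ε ^ 2))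

/-- its derivative -/
def ucA' (ε t : ℝ) : ℝ := -(Real.log (1 + t / ε ^ 2) / (2 * (t + ε ^ 2) ^ 2))

/-- the vector field -/
def ucG (ε : ℝ) (w : ℂ) : ℂ := ((ucA ε (‖w‖ ^ 2) : ℝ) : ℂ) * w

lemma ucA_deriv {ε : ℝ} (hε : 0 < ε) {t : ℝ} (ht : 0 ≤ t) : HasDerivAt (ucA ε) (ucA' ε t) t := by
  have hs : 0 < t + ε ^ 2 := by positivity
  have hq : 0 < 1 + t / ε ^ 2 := by positivity
  have e2 : (0 : ℝ) < ε ^ 2 := by positivity
  have h1 : HasDerivAt (fun x : ℝ => 1 + x / ε ^ 2) (1 / ε ^ 2) t := by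
    simpa using ((hasDerivAt_id t).div_const (ε ^ 2)).const_add 1
  have h2 := (h1.log hq.ne').const_add 1
  have h3 : HasDerivAt (fun x : ℝ => 2 * (x + ε ^ 2)) 2 t := by
    simpa using ((hasDerivAt_id t).add_const (ε ^ 2)).const_mul 2
  have h4 := h2.div h3 (by positivity)
  refine h4.congr_deriv ?_
  rw [ucA']
  field_simp
  ring

lemma ucG_fd {ε : ℝ} (hε : 0 < ε) (w : ℂ) : HasFDerivAt (ucG ε)
    ((((ucA ε (‖w‖ ^ 2) : ℝ) : ℂ)) • ContinuousLinearMap.id ℝ ℂ +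
      (w) • (Complex.ofRealCLM.comp ((ucA' ε (‖w‖ ^ 2)) • (2 • innerSL ℝ w)))) w := by
  have h0 : HasFDerivAt (fun x : ℂ => ‖x‖ ^ 2) (2 • innerSL ℝ w) w := (hasStrictFDerivAt_norm_sq w).hasFDerivAt
  have h1 := (ucA_deriv hε (sq_nonneg ‖w‖)).comp_hasFDerivAt w h0
  have h2 := Complex.ofRealCLM.hasFDerivAt.comp w h1
  have h3 := h2.mul (hasFDerivAt_id (𝕜 := ℝ) w)
  exact h3

lemma ucG_dz {ε : ℝ} (hε : 0 < ε) (w : ℂ) : dz (ucG ε) w = ((ucA ε (‖w‖ ^ 2) + ucA' ε (‖w‖ ^ 2) * ‖w‖ ^ 2 : ℝ) : ℂ) := by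
  have hn : ((‖w‖ : ℝ) : ℂ) ^ 2 = w.re ^ 2 + w.im ^ 2 := by
    rw [← Complex.ofReal_pow, ← Complex.normSq_eq_norm_sq, Complex.normSq_apply]; push_cast; ring
  rw [dz, (ucG_fd hε w).fderiv]
  simp [innerSL_apply_apply, Complex.inner]
  rw [hn]
  generalize ((ucA ε (‖w‖ ^ 2) : ℝ) : ℂ) = a
  generalize ((ucA' ε (‖w‖ ^ 2) : ℝ) : ℂ) = b
  have hw := Complex.re_add_im w
  linear_combination (-b * (w.re - I * w.im)) * hw + (-a / 2 - b * w.im ^ 2) * Complex.I_sq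

lemma ucG_db {ε : ℝ} (hε : 0 < ε) (w : ℂ) : db (ucG ε) w = ((ucA' ε (‖w‖ ^ 2) : ℝ) : ℂ) * w ^ 2 := by
  rw [db, (ucG_fd hε w).fderiv]
  simp [innerSL_apply_apply, Complex.inner]
  generalize ((ucA ε (‖w‖ ^ 2) : ℝ) : ℂ) = a
  generalize ((ucA' ε (‖w‖ ^ 2) : ℝ) : ℂ) = b
  have hw := Complex.re_add_im w
  linear_combination (b * w) * hw + (a / 2) * Complex.I_sq

lemma ucG_c1 {ε : ℝ} (hε : 0 < ε) : ContDiff ℝ 1 (ucG ε) := by
  have h0 : ContDiff ℝ 1 (fun x : ℂ => ‖x‖ ^ 2) := contDiff_norm_sq ℝ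
  have h1 : ContDiff ℝ 1 (fun x : ℂ => ucA ε (‖x‖ ^ 2)) := by
    have e2 : (0 : ℝ) < ε ^ 2 := by positivity
    refine ContDiff.div ?_ ?_ (fun x => by positivity)
    · exact contDiff_const.add (ContDiff.log (contDiff_const.add (h0.div_const _)) (fun x => by positivity))
    · exact contDiff_const.mul (h0.add contDiff_const)
  exact (Complex.ofRealCLM.contDiff.comp h1).mul contDiff_id

/-- the weight -/
def ucα (ε t : ℝ) : ℝ := ucA ε t + ucA' ε t * t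

lemma ucα_lo {ε : ℝ} (hε : 0 < ε) {t : ℝ} (ht : 0 ≤ t) : 1 / (2 * (t + ε ^ 2)) ≤ ucα ε t := by
  have hs : 0 < t + ε ^ 2 := by positivity
  have e2 : (0 : ℝ) < ε ^ 2 := by positivity
  have hL : 0 ≤ Real.log (1 + t / ε ^ 2) := Real.log_nonneg (by
    have : 0 ≤ t / ε ^ 2 := by positivity
    linarith)
  have e : ucα ε t = 1 / (2 * (t + ε ^ 2)) + ε ^ 2 * Real.log (1 + t / ε ^ 2) / (2 * (t + ε ^ 2) ^ 2) := by
    rw [ucα, ucA, ucA']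
    field_simp
    ring
  rw [e]
  have : 0 ≤ ε ^ 2 * Real.log (1 + t / ε ^ 2) / (2 * (t + ε ^ 2) ^ 2) := by positivity
  linarith

lemma ucG_nm {ε : ℝ} (hε : 0 < ε) (w : ℂ) : ‖ucG ε w‖ ≤ (1 + Real.log (1 + ‖w‖ ^ 2 / ε ^ 2)) / (2 * Real.sqrt (‖w‖ ^ 2 + ε ^ 2)) := by
  have hs : 0 < ‖w‖ ^ 2 + ε ^ 2 := by positivity
  have hL : 0 ≤ Real.log (1 + ‖w‖ ^ 2 / ε ^ 2) := Real.log_nonneg (by
    have : 0 ≤ ‖w‖ ^ 2 / ε ^ 2 := by positivity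
    linarith)
  have h1 : ‖w‖ ≤ Real.sqrt (‖w‖ ^ 2 + ε ^ 2) := Real.le_sqrt_of_sq_le (by nlinarith [sq_nonneg ε])
  have h2 : Real.sqrt (‖w‖ ^ 2 + ε ^ 2) * Real.sqrt (‖w‖ ^ 2 + ε ^ 2) = ‖w‖ ^ 2 + ε ^ 2 := Real.mul_self_sqrt hs.le
  have h3 : 0 < Real.sqrt (‖w‖ ^ 2 + ε ^ 2) := Real.sqrt_pos.2 hs
  have h4 : ‖ucG ε w‖ = (1 + Real.log (1 + ‖w‖ ^ 2 / ε ^ 2)) / (2 * (‖w‖ ^ 2 + ε ^ 2)) * ‖w‖ := by
    rw [ucG, norm_mul, Complex.norm_real, Real.norm_eq_abs, ucA, abs_of_nonneg (by positivity)]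
  rw [h4]
  calc (1 + Real.log (1 + ‖w‖ ^ 2 / ε ^ 2)) / (2 * (‖w‖ ^ 2 + ε ^ 2)) * ‖w‖
      ≤ (1 + Real.log (1 + ‖w‖ ^ 2 / ε ^ 2)) / (2 * (‖w‖ ^ 2 + ε ^ 2)) * Real.sqrt (‖w‖ ^ 2 + ε ^ 2) := by gcongr
    _ = (1 + Real.log (1 + ‖w‖ ^ 2 / ε ^ 2)) / (2 * Real.sqrt (‖w‖ ^ 2 + ε ^ 2)) := by
        have key : ∀ c r s : ℝ, 0 < r → r * r = s → c / (2 * s) * r = c / (2 * r) := by
          intro c r s hr h
          subst h
          field_simp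
        exact key _ _ _ h3 h2

lemma uc_pt {q ε M : ℝ} (hq0 : 0 ≤ q) (hq1 : q < 1) (hε : 0 < ε) (F A B g : ℂ) (η : ℝ) (hF : ‖F‖ ≤ M) (hB : ‖B‖ ≤ q * ‖A‖) :
    η ^ 2 * ‖A‖ ^ 2 / (‖F‖ ^ 2 + ε ^ 2) ≤
      4 / (1 - q ^ 2) * (η ^ 2 * ucα ε (‖F‖ ^ 2) * (‖A‖ ^ 2 - ‖B‖ ^ 2) + η * (ucG ε F * (conj g * conj A - g * conj B)).re) +
      2 / (1 - q) ^ 2 * (1 + Real.log (1 + M ^ 2 / ε ^ 2) ^ 2) * ‖g‖ ^ 2 := by
  set s := ‖F‖ ^ 2 + ε ^ 2 with hs'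
  have hs : 0 < s := by positivity
  set r := Real.sqrt s with hr'
  have hr : 0 < r := Real.sqrt_pos.2 hs
  have hrr : r * r = s := Real.mul_self_sqrt hs.le
  set L := Real.log (1 + ‖F‖ ^ 2 / ε ^ 2) with hL'
  have hL : 0 ≤ L := Real.log_nonneg (by
    have : 0 ≤ ‖F‖ ^ 2 / ε ^ 2 := by positivity
    linarith)
  have hLM : L ≤ Real.log (1 + M ^ 2 / ε ^ 2) := by
    refine Real.log_le_log (by positivity) ?_
    gcongr
  have h1q : 0 < 1 - q := by linarith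
  have h1q2 : 0 < 1 - q ^ 2 := by nlinarith
  -- the first term
  have hJ : (1 - q ^ 2) * ‖A‖ ^ 2 ≤ ‖A‖ ^ 2 - ‖B‖ ^ 2 := by
    have : ‖B‖ ^ 2 ≤ (q * ‖A‖) ^ 2 := by gcongr
    nlinarith
  have hJ0 : 0 ≤ ‖A‖ ^ 2 - ‖B‖ ^ 2 := le_trans (by positivity) hJ
  have hα := ucα_lo hε (sq_nonneg ‖F‖)
  have hα0 : 0 ≤ ucα ε (‖F‖ ^ 2) := le_trans (by positivity) hα
  rw [← hs'] at hα
  have t1 : (1 - q ^ 2) / 2 * (η ^ 2 * ‖A‖ ^ 2 / s) ≤ η ^ 2 * ucα ε (‖F‖ ^ 2) * (‖A‖ ^ 2 - ‖B‖ ^ 2) := by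
    calc (1 - q ^ 2) / 2 * (η ^ 2 * ‖A‖ ^ 2 / s) = η ^ 2 * (1 / (2 * s)) * ((1 - q ^ 2) * ‖A‖ ^ 2) := by field_simp
      _ ≤ η ^ 2 * ucα ε (‖F‖ ^ 2) * (‖A‖ ^ 2 - ‖B‖ ^ 2) := by gcongr
  -- the second term
  have t2 : -(|η| * ‖A‖ / r * ((1 + L) / 2 * ‖g‖) * (1 + q)) ≤ η * (ucG ε F * (conj g * conj A - g * conj B)).re := by
    have a1 : |η * (ucG ε F * (conj g * conj A - g * conj B)).re| ≤ |η| * (((1 + L) / (2 * r)) * (‖g‖ * ((1 + q) * ‖A‖))) := by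
      rw [abs_mul]
      gcongr
      refine (Complex.abs_re_le_norm _).trans ?_
      rw [norm_mul]
      gcongr
      · exact ucG_nm hε F
      · calc ‖conj g * conj A - g * conj B‖ ≤ ‖conj g * conj A‖ + ‖g * conj B‖ := norm_sub_le _ _
          _ = ‖g‖ * ‖A‖ + ‖g‖ * ‖B‖ := by simp
          _ ≤ ‖g‖ * ‖A‖ + ‖g‖ * (q * ‖A‖) := by gcongr
          _ = ‖g‖ * ((1 + q) * ‖A‖) := by ring
    have a2 : |η| * (((1 + L) / (2 * r)) * (‖g‖ * ((1 + q) * ‖A‖))) = |η| * ‖A‖ / r * ((1 + L) / 2 * ‖g‖) * (1 + q) := by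
      field_simp
    rw [a2] at a1
    exact (abs_le.1 a1).1
  set x := |η| * ‖A‖ / r with hx
  set y := (1 + L) / 2 * ‖g‖ with hy
  have hxx : η ^ 2 * ‖A‖ ^ 2 / s = x ^ 2 := by
    rw [hx, div_pow, mul_pow, sq_abs, ← hrr]; ring
  rw [hxx] at t1 ⊢
  set N := η ^ 2 * ucα ε (‖F‖ ^ 2) * (‖A‖ ^ 2 - ‖B‖ ^ 2) + η * (ucG ε F * (conj g * conj A - g * conj B)).re with hN
  have t3 : (1 - q ^ 2) / 2 * x ^ 2 - x * y * (1 + q) ≤ N := by linarith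
  have t4 : 4 / (1 - q ^ 2) * ((1 - q ^ 2) / 2 * x ^ 2 - x * y * (1 + q)) ≤ 4 / (1 - q ^ 2) * N := by gcongr
  have t5 : 4 / (1 - q ^ 2) * ((1 - q ^ 2) / 2 * x ^ 2 - x * y * (1 + q)) = 2 * x ^ 2 - 2 * x * (2 * y / (1 - q)) := by
    have : 1 - q ^ 2 = (1 - q) * (1 + q) := by ring
    rw [this]
    have : 0 < 1 + q := by linarith
    field_simp
    ring
  have t6 : (2 * y / (1 - q)) ^ 2 ≤ 2 / (1 - q) ^ 2 * (1 + Real.log (1 + M ^ 2 / ε ^ 2) ^ 2) * ‖g‖ ^ 2 := by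
    have : (2 * y / (1 - q)) ^ 2 = 1 / (1 - q) ^ 2 * (1 + L) ^ 2 * ‖g‖ ^ 2 := by
      rw [hy]; field_simp
    rw [this]
    have b1 : (1 + L) ^ 2 ≤ 2 * (1 + Real.log (1 + M ^ 2 / ε ^ 2) ^ 2) := by
      have : L ^ 2 ≤ Real.log (1 + M ^ 2 / ε ^ 2) ^ 2 := by gcongr
      nlinarith [sq_nonneg (1 - L)]
    calc 1 / (1 - q) ^ 2 * (1 + L) ^ 2 * ‖g‖ ^ 2 ≤ 1 / (1 - q) ^ 2 * (2 * (1 + Real.log (1 + M ^ 2 / ε ^ 2) ^ 2)) * ‖g‖ ^ 2 := by gcongr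
      _ = _ := by ring
  nlinarith [sq_nonneg (x - 2 * y / (1 - q))]

/-- the algebra of the two wedge identities -/
lemma uc_alg (A B C D : ℂ) : cr (conj C + D) (I * (conj A - B)) - cr (I * (conj C - D)) (conj A + B) = 2 * (C * conj A - D * conj B).re := by
  simp only [cr, map_add, map_sub, map_mul, conj_I, Complex.conj_conj, Complex.mul_re, Complex.mul_im, Complex.add_re, Complex.add_im, Complex.sub_re,
    Complex.sub_im, Complex.conj_re, Complex.conj_im, Complex.I_re, Complex.I_im, Complex.neg_re, Complex.neg_im]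
  ring

lemma uc_dd {η : ℂ → ℝ} (hη : ContDiff ℝ (⊤ : ℕ∞) η) (z : ℂ) :
    dz (fun w => ((η w : ℝ) : ℂ)) z = conj (gr η z) / 2 ∧ db (fun w => ((η w : ℝ) : ℂ)) z = gr η z / 2 := by
  have h1 : HasFDerivAt (fun w => ((η w : ℝ) : ℂ)) (Complex.ofRealCLM.comp (fderiv ℝ η z)) z :=
    Complex.ofRealCLM.hasFDerivAt.comp z ((hη.differentiable (by simp)) z).hasFDerivAt
  rw [dz, db, gr, h1.fderiv]
  constructor
  · simp
    ring
  · simp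

lemma uc_off {η : ℂ → ℝ} {z : ℂ} (hz : z ∉ tsupport η) : η z = 0 ∧ gr η z = 0 := by
  refine ⟨image_eq_zero_of_notMem_tsupport hz, ?_⟩
  have : fderiv ℝ η z = 0 := fderiv_of_notMem_tsupport ℝ hz
  rw [gr, this]
  simp

lemma uc_ext (hs : S_smooth) (hb : S_basic) (hg : S_glue) {U K : Set ℂ} (hU : IsOpen U) (hK : IsClosed K) (hKU : K ⊆ U) {f A B : ℂ → ℂ}
    (h : WD U f A B) (h0 : ∀ z, z ∉ K → f z = 0 ∧ A z = 0 ∧ B z = 0) : WD univ f A B := by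
  refine hg univ f A B isOpen_univ (fun z _ => ?_)
  by_cases hz : z ∈ U
  · exact ⟨U, hU, hz, subset_univ _, h⟩
  · refine ⟨Kᶜ, hK.isOpen_compl, fun hk => hz (hKU hk), subset_univ _, ?_⟩
    have h1 := hs.1 Kᶜ (fun _ => 0) hK.isOpen_compl contDiffOn_const
    refine hb.2.2.2.1 Kᶜ _ _ _ f A B hK.isOpen_compl.measurableSet h1 ?_ ?_ ?_
    · exact (ae_restrict_iff' hK.isOpen_compl.measurableSet).2 (Eventually.of_forall fun w hw => (h0 w hw).1.symm)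
    · refine (ae_restrict_iff' hK.isOpen_compl.measurableSet).2 (Eventually.of_forall fun w hw => ?_)
      rw [(h0 w hw).2.1]; simp [dz]
    · refine (ae_restrict_iff' hK.isOpen_compl.measurableSet).2 (Eventually.of_forall fun w hw => ?_)
      rw [(h0 w hw).2.2]; simp [db]

/-- the integral identity -/
lemma uc_int (h1 : S_chain) (h2 : S_smooth) (h4 : S_wedge) (h5 : S_bridge) (h6 : S_basic) (h7 : S_glue) {ε : ℝ} (hε : 0 < ε)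
    {U : Set ℂ} {F A B : ℂ → ℂ} {η : ℂ → ℝ} (hU : IsOpen U) (hF : ContinuousOn F U) (hW : WD U F A B) (hη : RTF U η) :
    Integrable (fun z => η z ^ 2 * ucα ε (‖F z‖ ^ 2) * (‖A z‖ ^ 2 - ‖B z‖ ^ 2) +
      η z * (ucG ε (F z) * (conj (gr η z) * conj (A z) - gr η z * conj (B z))).re) volume ∧
    ∫ z, (η z ^ 2 * ucα ε (‖F z‖ ^ 2) * (‖A z‖ ^ 2 - ‖B z‖ ^ 2) +
      η z * (ucG ε (F z) * (conj (gr η z) * conj (A z) - gr η z * conj (B z))).re) = 0 := by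
  obtain ⟨hη1, hη2, hη3⟩ := hη
  have hηc : ContDiff ℝ (⊤ : ℕ∞) (fun w => ((η w : ℝ) : ℂ)) := Complex.ofRealCLM.contDiff.comp hη1
  have c1 := h1 U univ F A B (ucG ε) hU isOpen_univ hW hF (mapsTo_univ _ _) (ucG_c1 hε).contDiffOn
  have c2 := h2.2.2 U _ _ _ (fun w => ((η w : ℝ) : ℂ)) hU c1 hηc.contDiffOn
  have c3 := h2.2.2 U _ _ _ (fun w => ((η w : ℝ) : ℂ)) hU c2 hηc.contDiffOn
  have c4 := uc_ext h2 h6 h7 hU (isClosed_tsupport η) hη3 c3 (fun z hz => by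
    obtain ⟨e1, e2⟩ := uc_off hz
    obtain ⟨d1, d2⟩ := uc_dd hη1 z
    simp [d1, d2, e1, e2])
  obtain ⟨g1, g2⟩ := h5.1 _ _ _ _ c4
  obtain ⟨f1, f2⟩ := h5.1 _ _ _ _ hW
  have hsub : ∀ (u : ℂ → ℝ), (∀ z, z ∉ tsupport η → u z = 0) → tsupport u ⊆ tsupport η := fun u hu =>
    closure_minimal (fun z hz => by
      by_contra h
      exact hz (hu z h)) (isClosed_tsupport η)
  have s1 := hsub (fun z => (ucG ε (F z) * ((η z : ℝ) : ℂ) * ((η z : ℝ) : ℂ)).re) (fun z hz => by simp [(uc_off hz).1])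
  have s2 := hsub (fun z => (ucG ε (F z) * ((η z : ℝ) : ℂ) * ((η z : ℝ) : ℂ)).im) (fun z hz => by simp [(uc_off hz).1])
  obtain ⟨w1, w2, -⟩ := h4 U _ _ _ _ hU g1 (hη2.of_isClosed_subset (isClosed_tsupport _) s1) (s1.trans hη3) f2
  obtain ⟨w3, w4, -⟩ := h4 U _ _ _ _ hU g2 (hη2.of_isClosed_subset (isClosed_tsupport _) s2) (s2.trans hη3) f1
  have hN : ∀ z, (η z ^ 2 * ucα ε (‖F z‖ ^ 2) * (‖A z‖ ^ 2 - ‖B z‖ ^ 2) +
      η z * (ucG ε (F z) * (conj (gr η z) * conj (A z) - gr η z * conj (B z))).re) = (1 / 2) * (cr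
      (conj (((dz (ucG ε) (F z) * A z + db (ucG ε) (F z) * conj (B z)) * ((η z : ℝ) : ℂ) + ucG ε (F z) * dz (fun w => ((η w : ℝ) : ℂ)) z) * ((η z : ℝ) : ℂ) +
        ucG ε (F z) * ((η z : ℝ) : ℂ) * dz (fun w => ((η w : ℝ) : ℂ)) z) +
      (((dz (ucG ε) (F z) * B z + db (ucG ε) (F z) * conj (A z)) * ((η z : ℝ) : ℂ) + ucG ε (F z) * db (fun w => ((η w : ℝ) : ℂ)) z) * ((η z : ℝ) : ℂ) +
        ucG ε (F z) * ((η z : ℝ) : ℂ) * db (fun w => ((η w : ℝ) : ℂ)) z)) (I * (conj (A z) - B z)) -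
      cr (I * (conj (((dz (ucG ε) (F z) * A z + db (ucG ε) (F z) * conj (B z)) * ((η z : ℝ) : ℂ) + ucG ε (F z) * dz (fun w => ((η w : ℝ) : ℂ)) z) * ((η z : ℝ) : ℂ) +
        ucG ε (F z) * ((η z : ℝ) : ℂ) * dz (fun w => ((η w : ℝ) : ℂ)) z) -
      (((dz (ucG ε) (F z) * B z + db (ucG ε) (F z) * conj (A z)) * ((η z : ℝ) : ℂ) + ucG ε (F z) * db (fun w => ((η w : ℝ) : ℂ)) z) * ((η z : ℝ) : ℂ) +
        ucG ε (F z) * ((η z : ℝ) : ℂ) * db (fun w => ((η w : ℝ) : ℂ)) z))) (conj (A z) + B z)) := by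
    intro z
    rw [uc_alg, (uc_dd hη1 z).1, (uc_dd hη1 z).2, ucG_dz hε, ucG_db hε]
    have hA : ((‖A z‖ : ℝ) : ℂ) ^ 2 = A z * conj (A z) := (Complex.mul_conj' _).symm
    have hB : ((‖B z‖ : ℝ) : ℂ) ^ 2 = B z * conj (B z) := (Complex.mul_conj' _).symm
    have e : (((((ucA ε (‖F z‖ ^ 2) + ucA' ε (‖F z‖ ^ 2) * ‖F z‖ ^ 2 : ℝ) : ℂ) * A z + ((ucA' ε (‖F z‖ ^ 2) : ℝ) : ℂ) * F z ^ 2 * conj (B z)) * ((η z : ℝ) : ℂ) + ucG ε (F z) * (conj (gr η z) / 2)) * ((η z : ℝ) : ℂ) +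
        ucG ε (F z) * ((η z : ℝ) : ℂ) * (conj (gr η z) / 2)) * conj (A z) -
      (((((ucA ε (‖F z‖ ^ 2) + ucA' ε (‖F z‖ ^ 2) * ‖F z‖ ^ 2 : ℝ) : ℂ) * B z + ((ucA' ε (‖F z‖ ^ 2) : ℝ) : ℂ) * F z ^ 2 * conj (A z)) * ((η z : ℝ) : ℂ) + ucG ε (F z) * (gr η z / 2)) * ((η z : ℝ) : ℂ) +
        ucG ε (F z) * ((η z : ℝ) : ℂ) * (gr η z / 2)) * conj (B z) =
      ((η z ^ 2 * ucα ε (‖F z‖ ^ 2) * (‖A z‖ ^ 2 - ‖B z‖ ^ 2) : ℝ) : ℂ) + ((η z : ℝ) : ℂ) * (ucG ε (F z) * (conj (gr η z) * conj (A z) - gr η z * conj (B z))) := by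
      rw [ucα]
      push_cast
      rw [hA, hB]
      ring
    rw [e, Complex.add_re, Complex.ofReal_re, Complex.re_ofReal_mul]
    ring
  constructor
  · exact ((w1.sub w3).const_mul (1 / 2)).congr (Eventually.of_forall fun z => (hN z).symm)
  · simp_rw [hN]
    rw [integral_const_mul, integral_sub w1 w3, w2, w4]
    simp

theorem piece_aucp1 (h1 : S_chain) (h2 : S_smooth) (h3 : S_prod) (h4 : S_wedge) (h5 : S_bridge) (h6 : S_basic) (h7 : S_glue) : S_aucp1 := by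
  intro q hq0 hq1
  have h1q : 0 < 1 - q := by linarith
  have h1q2 : 0 < 1 - q ^ 2 := by nlinarith
  refine ⟨2 / (1 - q) ^ 2, by positivity, ?_⟩
  intro U F A B η M ε hU hF hW hB hη hM hε
  obtain ⟨i1, i2⟩ := uc_int h1 h2 h4 h5 h6 h7 hε hU hF hW hη
  obtain ⟨hη1, hη2, hη3⟩ := hη
  -- integrability
  have hA2 : IntegrableOn (fun z => ‖A z‖ ^ 2) (tsupport η) volume := (hW.A2 _ hη2 hη3).norm.integrable_sq
  obtain ⟨c, hc⟩ := hη2.exists_bound_of_continuous hη1.continuous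
  have hcF : ContinuousOn (fun z => η z ^ 2 / (‖F z‖ ^ 2 + ε ^ 2)) (tsupport η) := by
    refine ContinuousOn.div (hη1.continuous.pow 2).continuousOn (((hF.mono hη3).norm.pow 2).add continuousOn_const) (fun z _ => by positivity)
  have hX1 : IntegrableOn (fun z => η z ^ 2 / (‖F z‖ ^ 2 + ε ^ 2) * ‖A z‖ ^ 2) (tsupport η) volume := by
    refine Integrable.bdd_mul (c := c ^ 2 / ε ^ 2) hA2 (hcF.aestronglyMeasurable (isClosed_tsupport η).measurableSet) (Eventually.of_forall fun z => ?_)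
    rw [Real.norm_eq_abs, abs_of_nonneg (by positivity)]
    have : η z ^ 2 ≤ c ^ 2 := by
      rw [← sq_abs (η z)]
      exact pow_le_pow_left₀ (abs_nonneg _) (hc z) 2
    gcongr
    nlinarith [sq_nonneg ‖F z‖]
  have hX2 : Integrable (fun z => η z ^ 2 * ‖A z‖ ^ 2 / (‖F z‖ ^ 2 + ε ^ 2)) volume := by
    have : (fun z => η z ^ 2 * ‖A z‖ ^ 2 / (‖F z‖ ^ 2 + ε ^ 2)) = (fun z => η z ^ 2 / (‖F z‖ ^ 2 + ε ^ 2) * ‖A z‖ ^ 2) := by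
      funext z; ring
    rw [this]
    refine (integrableOn_iff_integrable_of_support_subset ?_).1 hX1
    intro z hz
    by_contra h
    exact hz (by simp [(uc_off h).1])
  have hg1 : Continuous (gr η) := by
    have hf : Continuous (fderiv ℝ η) := hη1.continuous_fderiv (by simp)
    exact (Complex.continuous_ofReal.comp (hf.clm_apply continuous_const)).add
      (continuous_const.mul (Complex.continuous_ofReal.comp (hf.clm_apply continuous_const)))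
  have hg2 : Integrable (fun z => ‖gr η z‖ ^ 2) volume := by
    refine (hg1.norm.pow 2).integrable_of_hasCompactSupport ?_
    refine HasCompactSupport.of_support_subset_isCompact hη2 ?_
    intro z hz
    by_contra h
    exact hz (by simp [(uc_off h).2])
  refine ⟨hX2.integrableOn, ?_⟩
  have hpt : ∀ᵐ z ∂(volume.restrict U), η z ^ 2 * ‖A z‖ ^ 2 / (‖F z‖ ^ 2 + ε ^ 2) ≤
      4 / (1 - q ^ 2) * (η z ^ 2 * ucα ε (‖F z‖ ^ 2) * (‖A z‖ ^ 2 - ‖B z‖ ^ 2) +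
        η z * (ucG ε (F z) * (conj (gr η z) * conj (A z) - gr η z * conj (B z))).re) +
      2 / (1 - q) ^ 2 * (1 + Real.log (1 + M ^ 2 / ε ^ 2) ^ 2) * ‖gr η z‖ ^ 2 := by
    filter_upwards [hB] with z hz
    by_cases hK : z ∈ tsupport η
    · exact uc_pt hq0 hq1 hε _ _ _ _ _ (hM z hK) hz
    · simp [(uc_off hK).1, (uc_off hK).2]
  have hN0 : ∫ z in U, (η z ^ 2 * ucα ε (‖F z‖ ^ 2) * (‖A z‖ ^ 2 - ‖B z‖ ^ 2) +
      η z * (ucG ε (F z) * (conj (gr η z) * conj (A z) - gr η z * conj (B z))).re) = 0 := by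
    rw [← i2]
    refine setIntegral_eq_integral_of_forall_compl_eq_zero (fun z hz => ?_)
    have := uc_off (fun h => hz (hη3 h))
    simp [this.1]
  have hG0 : ∫ z in U, ‖gr η z‖ ^ 2 = ∫ z, ‖gr η z‖ ^ 2 := by
    refine setIntegral_eq_integral_of_forall_compl_eq_zero (fun z hz => ?_)
    have := uc_off (fun h => hz (hη3 h))
    simp [this.2]
  calc ∫ z in U, η z ^ 2 * ‖A z‖ ^ 2 / (‖F z‖ ^ 2 + ε ^ 2)
      ≤ ∫ z in U, (4 / (1 - q ^ 2) * (η z ^ 2 * ucα ε (‖F z‖ ^ 2) * (‖A z‖ ^ 2 - ‖B z‖ ^ 2) +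
        η z * (ucG ε (F z) * (conj (gr η z) * conj (A z) - gr η z * conj (B z))).re) +
      2 / (1 - q) ^ 2 * (1 + Real.log (1 + M ^ 2 / ε ^ 2) ^ 2) * ‖gr η z‖ ^ 2) :=
        integral_mono_ae hX2.integrableOn ((i1.integrableOn.const_mul _).add (hg2.integrableOn.const_mul _)) hpt
    _ = 2 / (1 - q) ^ 2 * (1 + Real.log (1 + M ^ 2 / ε ^ 2) ^ 2) * ∫ z, ‖gr η z‖ ^ 2 := by
        rw [integral_add (i1.integrableOn.const_mul _) (hg2.integrableOn.const_mul _), integral_const_mul, integral_const_mul, hN0, hG0]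
        ring

end

end Cal
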