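import Mathlib
import Pool.Agent.Lib.MP_4ea4c7_an.StmB

set_option autoImplicit false

/-!
# Piece DB1: mean values of a continuous function with weak derivatives
-/

open MeasureTheory Complex Metric Set Filter Topology
open scoped ComplexConjugate ENNReal NNReal

namespace Cal

noncomputable section

/-- the profile -/
private def avg_h (t : ℝ) : ℝ := Real.smoothTransition (2 * t - 1)

private lemma avg_h_smooth : ContDiff ℝ (⊤ : ℕ∞) avg_h :=
  Real.smoothTransition.contDiff.comp ((contDiff_const.mul contDiff_id).sub contDiff_const)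

private lemma avg_h_zero {t : ℝ} (ht : t ≤ 1 / 2) : avg_h t = 0 :=
  Real.smoothTransition.zero_of_nonpos (by linarith)

private lemma avg_h_one {t : ℝ} (ht : 1 ≤ t) : avg_h t = 1 :=
  Real.smoothTransition.one_of_one_le (by linarith)

private lemma avg_h_mono : Monotone avg_h := fun _ _ h =>
  Real.smoothTransition.monotone (by linarith)

private lemma avg_h_deriv (t : ℝ) : HasDerivAt avg_h (deriv avg_h t) t :=
  (avg_h_smooth.differentiable (by simp)).differentiableAt.hasDerivAt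

private lemma avg_h'_cont : Continuous (deriv avg_h) :=
  avg_h_smooth.continuous_deriv (by simp)

private lemma avg_h'_nonneg (t : ℝ) : 0 ≤ deriv avg_h t := avg_h_mono.deriv_nonneg

private lemma avg_h'_lo {t : ℝ} (ht : deriv avg_h t ≠ 0) : 1 / 2 ≤ t := by
  by_contra h
  rw [not_le] at h
  apply ht
  have h1 : avg_h =ᶠ[𝓝 t] fun _ => 0 := by
    filter_upwards [Iio_mem_nhds h] with s hs
    exact avg_h_zero (le_of_lt hs)
  rw [h1.deriv_eq, deriv_const]

private lemma avg_h'_hi {t : ℝ} (ht : deriv avg_h t ≠ 0) : t ≤ 1 := by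
  by_contra h
  rw [not_le] at h
  apply ht
  have h1 : avg_h =ᶠ[𝓝 t] fun _ => 1 := by
    filter_upwards [Ioi_mem_nhds h] with s hs
    exact avg_h_one (le_of_lt hs)
  rw [h1.deriv_eq, deriv_const]

/-- the radial averaging kernel of mass `π` -/
private def avg_a (z0 : ℂ) (R : ℝ) (z : ℂ) : ℝ :=
  1 / R ^ 2 * deriv avg_h (‖z - z0‖ ^ 2 / R ^ 2)

private lemma avg_a_nonneg (z0 : ℂ) (R : ℝ) (z : ℂ) : 0 ≤ avg_a z0 R z :=
  mul_nonneg (by positivity) (avg_h'_nonneg _)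

private lemma avg_a_cont (z0 : ℂ) (R : ℝ) : Continuous (avg_a z0 R) := by
  unfold avg_a
  exact continuous_const.mul (avg_h'_cont.comp
    (((continuous_id.sub continuous_const).norm.pow 2).div_const _))

private lemma avg_a_supp (z0 : ℂ) (R : ℝ) (hR : 0 < R) (z : ℂ) (hz : avg_a z0 R z ≠ 0) :
    R ^ 2 / 2 ≤ ‖z - z0‖ ^ 2 ∧ ‖z - z0‖ ≤ R := by
  have h1 : deriv avg_h (‖z - z0‖ ^ 2 / R ^ 2) ≠ 0 := right_ne_zero_of_mul hz
  have h2 := avg_h'_lo h1
  have h3 := avg_h'_hi h1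
  have hR2 : 0 < R ^ 2 := by positivity
  rw [le_div_iff₀ hR2] at h2
  rw [div_le_iff₀ hR2, one_mul] at h3
  exact ⟨by linarith, (sq_le_sq₀ (norm_nonneg _) hR.le).mp h3⟩

private lemma avg_a_compact (z0 : ℂ) (R : ℝ) (hR : 0 < R) : HasCompactSupport (avg_a z0 R) := by
  apply HasCompactSupport.intro (isCompact_closedBall z0 R)
  intro z hz
  by_contra h
  apply hz
  rw [mem_closedBall, dist_eq_norm]
  exact (avg_a_supp z0 R hR z h).2

private lemma avg_a_int (z0 : ℂ) (R : ℝ) (hR : 0 < R) : ∫ z, avg_a z0 R z = Real.pi := by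
  have h1 : ∫ z, avg_a z0 R z = ∫ z : ℂ, 1 / R ^ 2 * deriv avg_h (‖z‖ ^ 2 / R ^ 2) := by
    unfold avg_a
    exact integral_sub_right_eq_self (μ := volume)
      (fun z : ℂ => 1 / R ^ 2 * deriv avg_h (‖z‖ ^ 2 / R ^ 2)) z0
  rw [h1, integral_fun_norm_addHaar (μ := (volume : Measure ℂ))
    (fun y : ℝ => 1 / R ^ 2 * deriv avg_h (y ^ 2 / R ^ 2))]
  have h2 : (volume : Measure ℂ).real (ball 0 1) = Real.pi := by
    rw [Measure.real, Complex.volume_ball]
    simp
  rw [h2, Complex.finrank_real_complex]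
  have h3 : ∫ y in Ioi (0 : ℝ), 2 * y * (1 / R ^ 2) * deriv avg_h (y ^ 2 / R ^ 2) = 1 - avg_h (0 ^ 2 / R ^ 2) := by
    apply integral_Ioi_of_hasDerivAt_of_nonneg (g := fun y : ℝ => avg_h (y ^ 2 / R ^ 2))
    · exact (avg_h_smooth.continuous.comp ((continuous_pow 2).div_const _)).continuousWithinAt
    · intro y _
      have h4 : HasDerivAt (fun y : ℝ => y ^ 2 / R ^ 2) (2 * y * (1 / R ^ 2)) y := by
        exact ((hasDerivAt_pow 2 y).div_const (R ^ 2)).congr_deriv (by push_cast; ring)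
      have h6 := (avg_h_deriv (y ^ 2 / R ^ 2)).comp y h4
      refine h6.congr_deriv ?_
      ring
    · intro y hy
      have hy0 : 0 < y := hy
      exact mul_nonneg (by positivity) (avg_h'_nonneg _)
    · apply tendsto_const_nhds.congr'
      filter_upwards [eventually_ge_atTop R] with y hy
      have h7 : 1 ≤ y ^ 2 / R ^ 2 := by
        rw [le_div_iff₀ (by positivity), one_mul]
        exact pow_le_pow_left₀ hR.le hy 2
      exact (avg_h_one h7).symm
  have h8 : avg_h (0 ^ 2 / R ^ 2) = 0 := avg_h_zero (by simp)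
  rw [h8, sub_zero] at h3
  have h9 : ∫ y in Ioi (0 : ℝ), 2 * y * (1 / R ^ 2) * deriv avg_h (y ^ 2 / R ^ 2) =
      2 * ∫ y in Ioi (0 : ℝ), y ^ (2 - 1) • (1 / R ^ 2 * deriv avg_h (y ^ 2 / R ^ 2)) := by
    rw [← integral_const_mul]
    congr 1
    funext y
    simp only [smul_eq_mul]
    ring
  rw [h9] at h3
  rw [nsmul_eq_mul, smul_eq_mul]
  calc ((2 : ℕ) : ℝ) * (Real.pi * ∫ y in Ioi (0 : ℝ), y ^ (2 - 1) •
        (1 / R ^ 2 * deriv avg_h (y ^ 2 / R ^ 2)))
      = Real.pi * (2 * ∫ y in Ioi (0 : ℝ), y ^ (2 - 1) •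
        (1 / R ^ 2 * deriv avg_h (y ^ 2 / R ^ 2))) := by push_cast; ring
    _ = Real.pi := by rw [h3, mul_one]

/-- the profile of the test function -/
private def avg_m (r L t : ℝ) : ℝ := avg_h (t / r ^ 2) - avg_h (t / (2 * L) ^ 2)

/-- the test function -/
private def avg_eta (z0 : ℂ) (r L : ℝ) (z : ℂ) : ℂ :=
  ((avg_m r L (‖z - z0‖ ^ 2) : ℝ) : ℂ) * (z - z0)⁻¹

private lemma avg_m_deriv (r L t : ℝ) : HasDerivAt (avg_m r L)
    (1 / r ^ 2 * deriv avg_h (t / r ^ 2) - 1 / (2 * L) ^ 2 * deriv avg_h (t / (2 * L) ^ 2)) t := by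
  have h : ∀ c : ℝ, HasDerivAt (fun t : ℝ => avg_h (t / c)) (1 / c * deriv avg_h (t / c)) t := by
    intro c
    have h1 := (avg_h_deriv (t / c)).comp t ((hasDerivAt_id t).div_const c)
    refine h1.congr_deriv ?_
    ring
  exact (h (r ^ 2)).sub (h ((2 * L) ^ 2))

private lemma avg_eta_zero (z0 : ℂ) (r L : ℝ) (hr : 0 < r) (hL : r < L) :
    avg_eta z0 r L =ᶠ[𝓝 z0] fun _ => 0 := by
  have h1 : ball z0 (r / 2) ∈ 𝓝 z0 := ball_mem_nhds _ (by positivity)
  filter_upwards [h1] with z hz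
  rw [mem_ball, dist_eq_norm] at hz
  have h2 : ‖z - z0‖ ^ 2 ≤ (r / 2) ^ 2 := pow_le_pow_left₀ (norm_nonneg _) hz.le 2
  have h3 : avg_m r L (‖z - z0‖ ^ 2) = 0 := by
    unfold avg_m
    rw [avg_h_zero, avg_h_zero, sub_zero]
    · have hL0 : 0 < L := hr.trans hL
      rw [div_le_iff₀ (by positivity)]
      nlinarith [sq_nonneg (‖z - z0‖)]
    · rw [div_le_iff₀ (by positivity)]
      nlinarith [sq_nonneg r]
  unfold avg_eta
  rw [h3]
  simp

private lemma avg_eta_smooth (z0 : ℂ) (r L : ℝ) (hr : 0 < r) (hL : r < L) :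
    ContDiff ℝ (⊤ : ℕ∞) (avg_eta z0 r L) := by
  rw [contDiff_iff_contDiffAt]
  intro z
  by_cases hz : z = z0
  · rw [hz]
    exact contDiffAt_const.congr_of_eventuallyEq (avg_eta_zero z0 r L hr hL)
  · unfold avg_eta
    apply ContDiffAt.mul
    · have h1 : ContDiff ℝ (⊤ : ℕ∞) (fun z : ℂ => avg_m r L (‖z - z0‖ ^ 2)) := by
        have h2 : ContDiff ℝ (⊤ : ℕ∞) (avg_m r L) :=
          (avg_h_smooth.comp (contDiff_id.div_const _)).sub
            (avg_h_smooth.comp (contDiff_id.div_const _))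
        exact h2.comp ((contDiff_norm_sq ℝ).comp (contDiff_id.sub contDiff_const))
      exact (Complex.ofRealCLM.contDiff.comp h1).contDiffAt
    · exact (contDiff_id.sub contDiff_const).contDiffAt.inv (sub_ne_zero.mpr hz)

private lemma avg_eta_compact (z0 : ℂ) (r L : ℝ) (hr : 0 < r) (hL : r < L) :
    HasCompactSupport (avg_eta z0 r L) := by
  apply HasCompactSupport.intro (isCompact_closedBall z0 (2 * L))
  intro z hz
  rw [mem_closedBall, dist_eq_norm, not_le] at hz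
  have hL0 : 0 < L := hr.trans hL
  have h1 : (2 * L) ^ 2 ≤ ‖z - z0‖ ^ 2 := pow_le_pow_left₀ (by positivity) hz.le 2
  have h2 : r ^ 2 ≤ ‖z - z0‖ ^ 2 := pow_le_pow_left₀ hr.le (by linarith) 2
  unfold avg_eta avg_m
  rw [avg_h_one, avg_h_one]
  · simp
  · rw [le_div_iff₀ (by positivity)]
    linarith
  · rw [le_div_iff₀ (by positivity)]
    linarith

private lemma avg_eta_db (z0 : ℂ) (r L : ℝ) (hr : 0 < r) (hL : r < L) (z : ℂ) :
    db (avg_eta z0 r L) z = ((avg_a z0 r z - avg_a z0 (2 * L) z : ℝ) : ℂ) := by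
  have hL0 : 0 < L := hr.trans hL
  by_cases hz : z = z0
  · rw [hz]
    have h1 : fderiv ℝ (avg_eta z0 r L) z0 = 0 := by
      rw [(avg_eta_zero z0 r L hr hL).fderiv_eq, fderiv_fun_const]
      rfl
    have h2 : ∀ R : ℝ, 0 < R → avg_a z0 R z0 = 0 := by
      intro R hR
      by_contra h
      have h3 := (avg_a_supp z0 R hR z0 h).1
      rw [sub_self, norm_zero] at h3
      have : 0 < R ^ 2 := by positivity
      linarith
    unfold db
    rw [h1, h2 r hr, h2 (2 * L) (by positivity)]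
    simp
  · have hw : z - z0 ≠ 0 := sub_ne_zero.mpr hz
    set w := z - z0 with hwdef
    set D : ℝ := 1 / r ^ 2 * deriv avg_h (‖w‖ ^ 2 / r ^ 2) -
      1 / (2 * L) ^ 2 * deriv avg_h (‖w‖ ^ 2 / (2 * L) ^ 2) with hD
    have hsub : HasFDerivAt (fun z : ℂ => z - z0) (ContinuousLinearMap.id ℝ ℂ) z :=
      (hasFDerivAt_id z).sub_const z0
    have h1 : HasFDerivAt (fun z : ℂ => ‖z - z0‖ ^ 2)
        ((2 : ℕ) • (innerSL ℝ w).comp (ContinuousLinearMap.id ℝ ℂ)) z := hsub.norm_sq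
    have h2 : HasFDerivAt (fun z : ℂ => avg_m r L (‖z - z0‖ ^ 2))
        (D • ((2 : ℕ) • (innerSL ℝ w).comp (ContinuousLinearMap.id ℝ ℂ))) z :=
      HasDerivAt.comp_hasFDerivAt (f := fun z : ℂ => ‖z - z0‖ ^ 2) z
        (avg_m_deriv r L (‖z - z0‖ ^ 2)) h1
    have h3 : HasFDerivAt (fun z : ℂ => ((avg_m r L (‖z - z0‖ ^ 2) : ℝ) : ℂ))
        (Complex.ofRealCLM.comp (D • ((2 : ℕ) • (innerSL ℝ w).comp
          (ContinuousLinearMap.id ℝ ℂ)))) z :=
      Complex.ofRealCLM.hasFDerivAt.comp z h2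
    have h4 : HasDerivAt (fun z : ℂ => (z - z0)⁻¹) (-1 / w ^ 2) z :=
      ((hasDerivAt_id z).sub_const z0).inv hw
    have h5 := h4.hasFDerivAt.restrictScalars ℝ
    have h6 := h3.mul h5
    have h7 : fderiv ℝ (avg_eta z0 r L) z = _ := h6.fderiv
    unfold db
    rw [h7]
    have hin1 : (innerSL ℝ w) (1 : ℂ) = w.re := by
      rw [innerSL_apply_apply, Complex.inner]
      simp
    have hinI : (innerSL ℝ w) (I : ℂ) = w.im := by
      rw [innerSL_apply_apply, Complex.inner]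
      simp
    simp only [add_apply, smul_apply,
      ContinuousLinearMap.comp_apply, ContinuousLinearMap.coe_restrictScalars',
      ContinuousLinearMap.id_apply, hin1, hinI, Complex.ofRealCLM_apply, smul_eq_mul]
    have h8 : ((avg_a z0 r z - avg_a z0 (2 * L) z : ℝ) : ℂ) = (D : ℂ) := rfl
    rw [h8]
    simp only [ContinuousLinearMap.toSpanSingleton_apply, smul_eq_mul, nsmul_eq_mul]
    rw [← hwdef]
    have h9 : w⁻¹ * ((w.re : ℂ) + (w.im : ℂ) * I) = 1 := by
      rw [Complex.re_add_im, inv_mul_cancel₀ hw]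
    have h10 : I * I = -1 := Complex.I_mul_I
    push_cast
    linear_combination (D : ℂ) * h9 +
      ((avg_m r L (‖w‖ ^ 2) : ℝ) : ℂ) * (-1 / w ^ 2) / 2 * h10

theorem piece_avg : S_avg := by
  intro z0 r L hr hL
  have hL0 : 0 < L := hr.trans hL
  refine ⟨avg_eta z0 r L, ⟨avg_eta_smooth z0 r L hr hL, avg_eta_compact z0 r L hr hL,
    subset_univ _⟩, ?_⟩
  intro d A B δ τ hWD hd h1 h2
  have hB := hWD.hB (avg_eta z0 r L) ⟨avg_eta_smooth z0 r L hr hL,
    avg_eta_compact z0 r L hr hL, subset_univ _⟩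
  have hcs : ∀ (R : ℝ), 0 < R → ∀ g : ℂ → ℂ, Continuous g →
      Integrable (fun z => g z * ((avg_a z0 R z : ℝ) : ℂ)) volume := by
    intro R hR g hg
    apply Continuous.integrable_of_hasCompactSupport
    · exact hg.mul (Complex.continuous_ofReal.comp (avg_a_cont z0 R))
    · have h3 : HasCompactSupport (fun z => ((avg_a z0 R z : ℝ) : ℂ)) :=
        (avg_a_compact z0 R hR).comp_left (g := fun x : ℝ => (x : ℂ)) Complex.ofReal_zero
      exact h3.mul_left
  have hci : ∀ (R : ℝ), 0 < R → Integrable (avg_a z0 R) volume := fun R hR =>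
    (avg_a_cont z0 R).integrable_of_hasCompactSupport (avg_a_compact z0 R hR)
  have hI1 : ∫ z, d z0 * ((avg_a z0 r z : ℝ) : ℂ) = (Real.pi : ℂ) * d z0 := by
    have h3 : ∫ z, ((avg_a z0 r z : ℝ) : ℂ) = ((∫ z, avg_a z0 r z : ℝ) : ℂ) :=
      integral_complex_ofReal
    rw [integral_const_mul, h3, avg_a_int z0 r hr, mul_comm]
  have hI2 : ∫ z, (d z0 - d z) * ((avg_a z0 r z : ℝ) : ℂ) =
      (∫ z, d z0 * ((avg_a z0 r z : ℝ) : ℂ)) - ∫ z, d z * ((avg_a z0 r z : ℝ) : ℂ) := by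
    rw [← integral_sub (hcs r hr (fun _ => d z0) continuous_const) (hcs r hr d hd)]
    congr 1
    funext z
    ring
  have hI3 : ∫ z, d z * db (avg_eta z0 r L) z =
      (∫ z, d z * ((avg_a z0 r z : ℝ) : ℂ)) - ∫ z, d z * ((avg_a z0 (2 * L) z : ℝ) : ℂ) := by
    rw [← integral_sub (hcs r hr d hd) (hcs (2 * L) (by positivity) d hd)]
    congr 1
    funext z
    rw [avg_eta_db z0 r L hr hL]
    push_cast
    ring
  have hE : (Real.pi : ℂ) * d z0 = (∫ z, (d z0 - d z) * ((avg_a z0 r z : ℝ) : ℂ)) +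
      (∫ z, d z * ((avg_a z0 (2 * L) z : ℝ) : ℂ)) - ∫ z, B z * avg_eta z0 r L z := by
    rw [hI3] at hB
    rw [hI2, hI1]
    linear_combination hB
  have hN1 : ‖∫ z, (d z0 - d z) * ((avg_a z0 r z : ℝ) : ℂ)‖ ≤ Real.pi * δ := by
    have h3 : ‖∫ z, (d z0 - d z) * ((avg_a z0 r z : ℝ) : ℂ)‖ ≤ ∫ z, δ * avg_a z0 r z := by
      apply norm_integral_le_of_norm_le ((hci r hr).const_mul δ)
      filter_upwards with z
      rw [norm_mul, Complex.norm_real, Real.norm_of_nonneg (avg_a_nonneg _ _ _)]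
      by_cases h : avg_a z0 r z = 0
      · rw [h, mul_zero, mul_zero]
      · apply mul_le_mul_of_nonneg_right _ (avg_a_nonneg _ _ _)
        rw [norm_sub_rev]
        exact h1 z (avg_a_supp z0 r hr z h).2
    rw [integral_const_mul, avg_a_int z0 r hr] at h3
    linarith
  have hN2 : ‖∫ z, d z * ((avg_a z0 (2 * L) z : ℝ) : ℂ)‖ ≤ Real.pi * τ := by
    have h3 : ‖∫ z, d z * ((avg_a z0 (2 * L) z : ℝ) : ℂ)‖ ≤ ∫ z, τ * avg_a z0 (2 * L) z := by
      apply norm_integral_le_of_norm_le ((hci (2 * L) (by positivity)).const_mul τ)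
      filter_upwards with z
      rw [norm_mul, Complex.norm_real, Real.norm_of_nonneg (avg_a_nonneg _ _ _)]
      by_cases h : avg_a z0 (2 * L) z = 0
      · rw [h, mul_zero, mul_zero]
      · apply mul_le_mul_of_nonneg_right _ (avg_a_nonneg _ _ _)
        apply h2 z
        have h4 := (avg_a_supp z0 (2 * L) (by positivity) z h).1
        have h5 : L ^ 2 ≤ ‖z - z0‖ ^ 2 := by nlinarith [sq_nonneg L]
        exact (sq_le_sq₀ hL0.le (norm_nonneg _)).mp h5
    rw [integral_const_mul, avg_a_int z0 (2 * L) (by positivity)] at h3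
    linarith
  have hN : Real.pi * ‖d z0‖ = ‖(Real.pi : ℂ) * d z0‖ := by
    rw [norm_mul, Complex.norm_real, Real.norm_of_nonneg Real.pi_pos.le]
  rw [hN, hE]
  calc ‖(∫ z, (d z0 - d z) * ((avg_a z0 r z : ℝ) : ℂ)) +
      (∫ z, d z * ((avg_a z0 (2 * L) z : ℝ) : ℂ)) - ∫ z, B z * avg_eta z0 r L z‖
      ≤ ‖(∫ z, (d z0 - d z) * ((avg_a z0 r z : ℝ) : ℂ)) +
      (∫ z, d z * ((avg_a z0 (2 * L) z : ℝ) : ℂ))‖ + ‖∫ z, B z * avg_eta z0 r L z‖ :=
        norm_sub_le _ _
    _ ≤ (‖∫ z, (d z0 - d z) * ((avg_a z0 r z : ℝ) : ℂ)‖ +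
      ‖∫ z, d z * ((avg_a z0 (2 * L) z : ℝ) : ℂ)‖) + ‖∫ z, B z * avg_eta z0 r L z‖ := by
        gcongr
        exact norm_add_le _ _
    _ ≤ _ := by linarith

end

end Cal
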