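import Pool.Agent.Lib.MP_4ea4c7_an.StmF

/-! [K8] From the forms back to the Cauchy data. -/

open MeasureTheory Complex Metric Set Filter Topology
open scoped ComplexConjugate ENNReal NNReal

namespace Cal

open LocalCalderon

noncomputable section

private theorem back_dot (a b : ℂ) : dot a b = ip a b := by
  unfold dot ip
  simp

private theorem back_aux (h2 : S_h10) (h3 : S_trc) (h4 : S_lift) (c C : ℝ) (γ₁ γ₂ : ℂ → ℝ)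
    (Ω Γ' : Set ℂ) (hc : 0 < c) (hγ₁ : Cond c C γ₁) (hγ₂ : Cond c C γ₂) (hΩ : IsOpen Ω)
    (hb : Bornology.IsBounded Ω) (hΓ : OpenInBdry Ω Γ')
    (hB : ∀ u ψ : ℂ → ℝ, H1 Ω u → H1 Ω ψ → Beq Ω γ₁ γ₂ (wgrad Ω u) (wgrad Ω ψ)) :
    cauchyData Ω Γ' γ₁ ⊆ cauchyData Ω Γ' γ₂ := by
  rintro p ⟨u, hu, htu, rfl⟩
  obtain ⟨⟨u'', hu'', hd, hs⟩, hDN2⟩ := h4 c C hc γ₂ hγ₂ Ω hΩ hb u hu.1
  obtain ⟨_, hDN1⟩ := h4 c C hc γ₁ hγ₁ Ω hΩ hb u hu.1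
  obtain ⟨_, t2, _, t4, _⟩ := h3 Ω Γ' hΩ hb hΓ
  have h0 : H10 Ω (fun z => u z - u z) := by
    have e : (fun z => u z - u z) = fun _ : ℂ => (0 : ℝ) := by
      funext z
      ring
    rw [e]
    exact (h2 Ω hΩ).1
  have hDu := hDN1 u h0 hu
  have hDu'' := hDN2 u'' hd hs
  refine ⟨u'', hs, ?_, ?_⟩
  · have h := t2 u (fun z => u'' z - u z) htu hd
    have e : (fun z => u z + (u'' z - u z)) = u'' := by
      funext z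
      ring
    rwa [e] at h
  · refine Prod.ext ?_ ?_
    · show {v | H1 Ω v ∧ SameTrace Ω Γ' u v} = {v | H1 Ω v ∧ SameTrace Ω Γ' u'' v}
      ext v
      exact and_congr_right fun _ => (t4 u'' u v hd).symm
    · show (fun ψ : {ψ : ℂ → ℝ // H1 Ω ψ ∧ TraceIn Ω Γ' ψ} =>
          ∫ z in Ω, γ₁ z * dot (wgrad Ω u z) (wgrad Ω ψ.1 z)) =
        fun ψ : {ψ : ℂ → ℝ // H1 Ω ψ ∧ TraceIn Ω Γ' ψ} =>
          ∫ z in Ω, γ₂ z * dot (wgrad Ω u'' z) (wgrad Ω ψ.1 z)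
      funext ψ
      simp only [back_dot]
      exact hB u ψ.1 hu.1 ψ.2.1 _ _ hDu hDu''

theorem piece_back (h2 : S_h10) (h3 : S_trc) (h4 : S_lift) : S_back := by
  intro c C γ₁ γ₂ Ω Γ' hc hγ₁ hγ₂ hΩ hb hΓ hB
  apply Subset.antisymm
  · exact back_aux h2 h3 h4 c C γ₁ γ₂ Ω Γ' hc hγ₁ hγ₂ hΩ hb hΓ hB
  · exact back_aux h2 h3 h4 c C γ₂ γ₁ Ω Γ' hc hγ₂ hγ₁ hΩ hb hΓ
      fun u ψ hu hψ G₁ G₂ hG₁ hG₂ => (hB u ψ hu hψ G₂ G₁ hG₂ hG₁).symm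

end

end Cal
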