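import Pool.Agent.Lib.MP_4ea4c7_an.Stm2

/-! Piece E7: the functions `f_{i,N-i}` are a basis of `P_N(μ)`. -/

open MeasureTheory Complex Metric Set Filter Topology
open scoped ComplexConjugate ENNReal NNReal

namespace Cal

private lemma bs_add (h3 : S_basic) {μ : ℂ → ℝ} {N : ℕ} {f f' : ℂ → ℂ} (hf : PN μ N f) (hf' : PN μ N f') :
    PN μ N (fun z => f z + f' z) := by
  obtain ⟨A, B, hW, hE⟩ := hf.bel
  obtain ⟨A', B', hW', hE'⟩ := hf'.bel
  obtain ⟨C, hC⟩ := hf.growth
  obtain ⟨C', hC'⟩ := hf'.growth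
  refine ⟨hf.cont.add hf'.cont, fun z => ?_, ⟨_, _, h3.1 univ f A B f' A' B' hW hW', ?_⟩, ⟨C + C', fun z => ?_⟩⟩
  · simp only [map_add]
    rw [hf.symm z, hf'.symm z]
  · filter_upwards [hE, hE'] with z e e'
    rw [e, e', map_add]
    ring
  · calc ‖f z + f' z‖ ≤ ‖f z‖ + ‖f' z‖ := norm_add_le _ _
      _ ≤ C * (1 + ‖z‖) ^ N + C' * (1 + ‖z‖) ^ N := add_le_add (hC z) (hC' z)
      _ = (C + C') * (1 + ‖z‖) ^ N := by ring

private lemma bs_smul (h3 : S_basic) {μ : ℂ → ℝ} {N : ℕ} {f : ℂ → ℂ} (c : ℝ) (hf : PN μ N f) :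
    PN μ N (fun z => (c : ℂ) * f z) := by
  obtain ⟨A, B, hW, hE⟩ := hf.bel
  obtain ⟨C, hC⟩ := hf.growth
  refine ⟨continuous_const.mul hf.cont, fun z => ?_, ⟨_, _, h3.2.1 univ f A B (c : ℂ) hW, ?_⟩,
    ⟨|c| * C, fun z => ?_⟩⟩
  · simp only [map_mul, Complex.conj_ofReal]
    rw [hf.symm z]
  · filter_upwards [hE] with z e
    rw [e, map_mul, Complex.conj_ofReal]
    ring
  · rw [norm_mul, Complex.norm_real, Real.norm_eq_abs, mul_assoc]
    exact mul_le_mul_of_nonneg_left (hC z) (abs_nonneg _)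

private lemma bs_sum (h3 : S_basic) {μ : ℂ → ℝ} {N : ℕ} {g : ℂ → ℂ} (hg : PN μ N g) {ι : Type} (s : Finset ι)
    (c : ι → ℝ) (F : ι → ℂ → ℂ) (hF : ∀ i ∈ s, PN μ N (F i)) :
    PN μ N (fun z => ∑ i ∈ s, (c i : ℂ) * F i z) := by
  classical
  induction s using Finset.induction_on with
  | empty =>
    have h := bs_smul h3 0 hg
    have e : (fun z : ℂ => ∑ i ∈ (∅ : Finset ι), (c i : ℂ) * F i z) = fun z => ((0 : ℝ) : ℂ) * g z := by
      funext z
      simp
    rw [e]
    exact h
  | insert a t ha ih =>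
    have e : (fun z : ℂ => ∑ i ∈ insert a t, (c i : ℂ) * F i z) =
        fun z => (c a : ℂ) * F a z + ∑ i ∈ t, (c i : ℂ) * F i z := by
      funext z
      rw [Finset.sum_insert ha]
    rw [e]
    exact bs_add h3 (bs_smul h3 (c a) (hF a (Finset.mem_insert_self a t)))
      (ih fun i hi => hF i (Finset.mem_insert_of_mem hi))

private lemma bs_dadd {f f' : ℂ → ℂ} (hf : Dec f) (hf' : Dec f') : Dec (fun z => f z + f' z) := by
  obtain ⟨C, hC⟩ := hf
  obtain ⟨C', hC'⟩ := hf'
  refine ⟨C + C', fun z hz => ?_⟩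
  calc ‖f z + f' z‖ ≤ ‖f z‖ + ‖f' z‖ := norm_add_le _ _
    _ ≤ C / ‖z‖ + C' / ‖z‖ := add_le_add (hC z hz) (hC' z hz)
    _ = (C + C') / ‖z‖ := by ring

private lemma bs_dsmul {f : ℂ → ℂ} (c : ℝ) (hf : Dec f) : Dec (fun z => (c : ℂ) * f z) := by
  obtain ⟨C, hC⟩ := hf
  refine ⟨|c| * C, fun z hz => ?_⟩
  rw [norm_mul, Complex.norm_real, Real.norm_eq_abs, mul_div_assoc]
  exact mul_le_mul_of_nonneg_left (hC z hz) (abs_nonneg _)

private lemma bs_dsum {ι : Type} (s : Finset ι) (c : ι → ℝ) (F : ι → ℂ → ℂ) (hF : ∀ i ∈ s, Dec (F i)) :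
    Dec (fun z => ∑ i ∈ s, (c i : ℂ) * F i z) := by
  classical
  induction s using Finset.induction_on with
  | empty =>
    refine ⟨0, fun z hz => ?_⟩
    simp
  | insert a t ha ih =>
    have e : (fun z : ℂ => ∑ i ∈ insert a t, (c i : ℂ) * F i z) =
        fun z => (c a : ℂ) * F a z + ∑ i ∈ t, (c i : ℂ) * F i z := by
      funext z
      rw [Finset.sum_insert ha]
    rw [e]
    exact bs_dadd (bs_dsmul (c a) (hF a (Finset.mem_insert_self a t)))
      (ih fun i hi => hF i (Finset.mem_insert_of_mem hi))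

private lemma bs_zero (h2 : S_zero) {κ : ℝ} (hκ0 : 0 ≤ κ) (hκ1 : κ < 1) {μ : ℂ → ℝ} (hμ : Mu κ (5 / 4) μ)
    {N : ℕ} {f : ℂ → ℂ} (hf : PN μ N f) (hd : Dec f) : ∀ z, f z = 0 := by
  obtain ⟨A, B, hW, hE⟩ := hf.bel
  rw [Measure.restrict_univ] at hE
  have h := (h2 κ hκ0 hκ1 μ hμ f A B hW hE hd).1
  have h' : f =ᵐ[volume] fun _ => (0 : ℂ) := h
  have := (hf.cont.ae_eq_iff_eq volume continuous_const).1 h'
  intro z
  exact congrFun this z

/-- linear independence of the functions `f_{i,N-i}` -/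
private lemma bs_indep {μ : ℂ → ℝ} {N : ℕ} {F D : ℕ → ℂ → ℂ} (hF : ∀ i, i ≤ N → FMN μ i (N - i) (F i) (D i))
    (c : Fin (N + 1) → ℝ) (h0 : ∀ z, ∑ i : Fin (N + 1), (c i : ℂ) * F i z = 0) :
    ∀ i : ℕ, ∀ hi : i < N + 1, c ⟨i, hi⟩ = 0 := by
  intro i
  induction i using Nat.strong_induction_on with
  | _ i ih =>
    intro hi
    set u : Fin (N + 1) → ℂ → ℂ := fun j z => if i ≤ (j : ℕ) then
      (c j : ℂ) * ((z + 2) ^ ((j : ℕ) - i) * ((2 - z) ^ (N - (j : ℕ)) *
        exp ((((j : ℕ) + (N - (j : ℕ)) : ℕ) : ℂ) * D j z))) else 0 with hu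
    have huc : ∀ j : Fin (N + 1), Continuous (u j) := by
      intro j
      rw [hu]
      simp only
      by_cases hij : i ≤ (j : ℕ)
      · simp only [if_pos hij]
        have hD := (hF j (by omega)).dcont
        fun_prop
      · simp only [if_neg hij]
        exact continuous_const
    have hHc : Continuous (fun z => ∑ j, u j z) := continuous_finsetSum _ fun j _ => huc j
    have hmul : ∀ z, (z + 2) ^ i * ∑ j, u j z = 0 := by
      intro z
      rw [← h0 z, Finset.mul_sum]
      refine Finset.sum_congr rfl fun j _ => ?_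
      rw [hu]
      simp only
      by_cases hij : i ≤ (j : ℕ)
      · rw [if_pos hij, (hF j (by omega)).eq z]
        have : (z + 2) ^ (j : ℕ) = (z + 2) ^ i * (z + 2) ^ ((j : ℕ) - i) := by
          rw [← pow_add]
          congr 1
          omega
        rw [this]
        ring
      · rw [if_neg hij]
        have hc0 := ih j (by omega) j.2
        have : c j = 0 := hc0
        rw [this]
        simp
    have hoff : EqOn (fun z => ∑ j, u j z) (fun _ => 0) ({(-2 : ℂ)}ᶜ) := by
      intro z hz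
      have hz2 : z + 2 ≠ 0 := by
        intro h
        apply hz
        rw [mem_singleton_iff]
        linear_combination h
      have := hmul z
      rcases mul_eq_zero.1 this with h | h
      · exact absurd h (pow_ne_zero _ hz2)
      · exact h
    have hall := Continuous.ext_on (dense_compl_singleton (-2 : ℂ)) hHc continuous_const hoff
    have hval := congrFun hall (-2)
    rw [Finset.sum_eq_single (⟨i, hi⟩ : Fin (N + 1))] at hval
    · rw [hu] at hval
      simp only [le_refl, if_true, Nat.sub_self, pow_zero, one_mul] at hval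
      rcases mul_eq_zero.1 hval with h | h
      · exact_mod_cast h
      · rcases mul_eq_zero.1 h with h | h
        · exact absurd h (pow_ne_zero _ (by norm_num))
        · exact absurd h (exp_ne_zero _)
    · intro j _ hj
      rw [hu]
      simp only
      by_cases hij : i ≤ (j : ℕ)
      · rw [if_pos hij]
        have hne : (j : ℕ) ≠ i := fun h => hj (Fin.ext h)
        have : ((-2 : ℂ) + 2) ^ ((j : ℕ) - i) = 0 := by
          rw [neg_add_cancel]
          exact zero_pow (by omega)
        rw [this]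
        simp
      · rw [if_neg hij]
    · intro h
      exact absurd (Finset.mem_univ _) h

theorem piece_basis (h1 : S_polypart) (h2 : S_zero) (h3 : S_basic) : S_basis := by
  intro κ hκ0 hκ1 μ hμ N F D hF g hg
  have hμ' : Mu κ (5 / 4) μ := ⟨hμ.meas, hμ.bd, fun z hz => hμ.supp z (by linarith), hμ.symm⟩
  have hFN : ∀ i, i ≤ N → PN μ N (F i) := by
    intro i hi
    have := (hF i hi).pn
    rwa [Nat.add_sub_cancel' hi] at this
  obtain ⟨pg, hpg, hpgD, _⟩ := h1 κ μ N g hμ' hg
  have hex : ∀ i, ∃ p : Polynomial ℝ, i ≤ N → p.natDegree ≤ N ∧ Dec (fun z => F i z - pv p z) := by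
    intro i
    by_cases hi : i ≤ N
    · obtain ⟨p, hp, hpD, _⟩ := h1 κ μ N (F i) hμ' (hFN i hi)
      exact ⟨p, fun _ => ⟨hp, hpD⟩⟩
    · exact ⟨0, fun h => absurd h hi⟩
  choose p hp using hex
  -- a combination with the right coefficients
  have key : ∀ (f : ℂ → ℂ) (q : Polynomial ℝ) (c : Fin (N + 1) → ℝ), PN μ N f → q.natDegree ≤ N →
      Dec (fun z => f z - pv q z) →
      (∀ j : Fin (N + 1), ∑ i : Fin (N + 1), c i * (p i).coeff j = q.coeff j) →
      ∀ z, f z = ∑ i : Fin (N + 1), (c i : ℂ) * F i z := by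
    intro f q c hf hq hD hc
    have hq' : q = ∑ i : Fin (N + 1), Polynomial.C (c i) * p i := by
      ext j
      rw [Polynomial.finsetSum_coeff]
      simp only [Polynomial.coeff_C_mul]
      by_cases hj : j < N + 1
      · exact (hc ⟨j, hj⟩).symm
      · rw [Polynomial.coeff_eq_zero_of_natDegree_lt (by omega)]
        symm
        apply Finset.sum_eq_zero
        intro i _
        rw [Polynomial.coeff_eq_zero_of_natDegree_lt, mul_zero]
        have := (hp i (by omega)).1
        omega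
    have hpv : ∀ z, pv q z = ∑ i : Fin (N + 1), (c i : ℂ) * pv (p i) z := by
      intro z
      unfold pv
      rw [hq', map_sum]
      refine Finset.sum_congr rfl fun i _ => ?_
      rw [map_mul, Polynomial.aeval_C]
      rfl
    have hPN := bs_add h3 hf (bs_smul h3 (-1) (bs_sum h3 hg Finset.univ c (fun i => F i)
      (fun i _ => hFN i (by omega))))
    have hDec := bs_dadd hD (bs_dsmul (-1) (bs_dsum Finset.univ c (fun i z => F i z - pv (p i) z)
      (fun i _ => (hp i (by omega)).2)))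
    have heq : (fun z => f z - pv q z + ((-1 : ℝ) : ℂ) *
        ∑ i : Fin (N + 1), (c i : ℂ) * (F i z - pv (p i) z)) =
        fun z => f z + ((-1 : ℝ) : ℂ) * ∑ i : Fin (N + 1), (c i : ℂ) * F i z := by
      funext z
      rw [hpv z]
      simp only [mul_sub, Finset.sum_sub_distrib]
      push_cast
      ring
    rw [heq] at hDec
    intro z
    have := bs_zero h2 hκ0 hκ1 hμ' hPN hDec z
    push_cast at this
    linear_combination this
  -- linear independence of the coefficient vectors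
  have hli : LinearIndependent ℝ (fun (i : Fin (N + 1)) (j : Fin (N + 1)) => (p i).coeff j) := by
    rw [Fintype.linearIndependent_iff]
    intro c hc
    have hz : PN μ N (fun z => ((0 : ℝ) : ℂ) * g z) := bs_smul h3 0 hg
    have hd : Dec (fun z => ((0 : ℝ) : ℂ) * g z - pv (0 : Polynomial ℝ) z) := by
      refine ⟨0, fun z _ => ?_⟩
      simp [pv]
    have h := key _ 0 c hz (by simp) hd (by
      intro j
      have := congrFun hc j
      simp only [Finset.sum_apply, Pi.smul_apply, smul_eq_mul, Pi.zero_apply] at this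
      rw [this]
      simp)
    have h0 : ∀ z, ∑ i : Fin (N + 1), (c i : ℂ) * F i z = 0 := by
      intro z
      rw [← h z]
      simp
    intro i
    exact bs_indep hF c h0 i i.2
  have hspan := hli.span_eq_top_of_card_eq_finrank' (by simp)
  have hmem : (fun j : Fin (N + 1) => pg.coeff j) ∈
      Submodule.span ℝ (Set.range (fun (i : Fin (N + 1)) (j : Fin (N + 1)) => (p i).coeff j)) := by
    rw [hspan]
    exact Submodule.mem_top
  obtain ⟨c, hc⟩ := (Submodule.mem_span_range_iff_exists_fun ℝ).1 hmem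
  have hfin := key g pg c hg hpg hpgD (by
    intro j
    have := congrFun hc j
    simp only [Finset.sum_apply, Pi.smul_apply, smul_eq_mul] at this
    exact this)
  refine ⟨fun i => if h : i < N + 1 then c ⟨i, h⟩ else 0, fun z => ?_⟩
  rw [hfin z, Finset.sum_range]
  refine Finset.sum_congr rfl fun i _ => ?_
  simp only []
  rw [dif_pos i.2]

end Cal
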