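import Pool.Agent.Lib.MP_4ea4c7_an.StmD

/-!
Piece H3: the difference form is bilinear, symmetric, bounded.
-/

open MeasureTheory Complex Metric Set Filter Topology
open scoped ComplexConjugate ENNReal NNReal InnerProductSpace

namespace Cal

noncomputable section

private theorem bb_lax {H : Type*} [NormedAddCommGroup H] [InnerProductSpace ℝ H]
    [CompleteSpace H] (T : H →L[ℝ] H) {c : ℝ} (hc : 0 < c)
    (hT : ∀ a : H, c * ‖a‖ * ‖a‖ ≤ ⟪T a, a⟫_ℝ) (V : Submodule ℝ H) (hV : IsClosed (V : Set H))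
    (g : H) : ∃ z ∈ V, ∀ h ∈ V, ⟪T (g + z), h⟫_ℝ = 0 := by
  have : CompleteSpace V := hV.completeSpace_coe
  let B0 : V →ₗ[ℝ] V →ₗ[ℝ] ℝ := LinearMap.mk₂ ℝ (fun z h : V => ⟪T (z : H), (h : H)⟫_ℝ)
    (fun a b h => by simp [inner_add_left])
    (fun t a h => by simp [inner_smul_left])
    (fun a h k => by simp [inner_add_right])
    (fun t a h => by simp [inner_smul_right])
  let B : V →L[ℝ] V →L[ℝ] ℝ := LinearMap.mkContinuous₂ B0 ‖T‖ (by
    intro x y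
    show ‖⟪T (x : H), (y : H)⟫_ℝ‖ ≤ ‖T‖ * ‖x‖ * ‖y‖
    exact (norm_inner_le_norm _ _).trans
      (mul_le_mul_of_nonneg_right (T.le_opNorm _) (norm_nonneg _)))
  have hB : IsCoercive B := ⟨c, hc, fun u => hT u⟩
  let r : V := V.orthogonalProjectionOnto (-(T g))
  refine ⟨(hB.continuousLinearEquivOfBilin.symm r : V), Submodule.coe_mem _, fun h hh => ?_⟩
  have h1 := hB.continuousLinearEquivOfBilin_apply (hB.continuousLinearEquivOfBilin.symm r) ⟨h, hh⟩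
  rw [ContinuousLinearEquiv.apply_symm_apply] at h1
  have h2 : ⟪(V.orthogonalProjectionOnto (-(T g)) : V), (⟨h, hh⟩ : V)⟫_ℝ = ⟪-(T g), h⟫_ℝ :=
    Submodule.inner_orthogonalProjectionOnto_eq_of_mem_right (⟨h, hh⟩ : V) (-(T g))
  have h3 : B (hB.continuousLinearEquivOfBilin.symm r) ⟨h, hh⟩ =
      ⟪T ((hB.continuousLinearEquivOfBilin.symm r : V) : H), h⟫_ℝ := rfl
  rw [h2, h3, inner_neg_left] at h1
  rw [map_add, inner_add_left]
  linarith

private theorem ip_eq (a b : ℂ) : ip a b = ⟪a, b⟫_ℝ := by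
  rw [Complex.inner]
  unfold ip
  simp only [Complex.mul_re, Complex.conj_re, Complex.conj_im]
  ring

private theorem gr_add {φ ψ : ℂ → ℝ} (hφ : Differentiable ℝ φ) (hψ : Differentiable ℝ ψ) (z : ℂ) :
    gr (fun w => φ w + ψ w) z = gr φ z + gr ψ z := by
  unfold gr
  rw [fderiv_fun_add hφ.differentiableAt hψ.differentiableAt]
  simp only [_root_.add_apply]
  push_cast
  ring

private theorem gr_smul {φ : ℂ → ℝ} (hφ : Differentiable ℝ φ) (t : ℝ) (z : ℂ) :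
    gr (fun w => t * φ w) z = t * gr φ z := by
  unfold gr
  rw [fderiv_const_mul hφ.differentiableAt]
  simp only [_root_.smul_apply, smul_eq_mul]
  push_cast
  ring

private theorem gr_zero (z : ℂ) : gr (fun _ => 0) z = 0 := by
  unfold gr
  simp

private theorem rtf_diff {Ω : Set ℂ} {φ : ℂ → ℝ} (h : RTF Ω φ) : Differentiable ℝ φ :=
  h.1.differentiable (by norm_num)

private theorem gr_memLp {Ω : Set ℂ} {φ : ℂ → ℝ} (h : RTF Ω φ) (μ : Measure ℂ)
    [IsFiniteMeasureOnCompacts μ] : MemLp (gr φ) 2 μ := by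
  have h1 : Continuous (fderiv ℝ φ) := (h.1.of_le (by exact_mod_cast le_top :
    (1 : WithTop ℕ∞) ≤ ((⊤ : ℕ∞) : WithTop ℕ∞))).continuous_fderiv (by norm_num)
  have h2 : Continuous (gr φ) := by
    unfold gr
    fun_prop
  refine h2.memLp_of_hasCompactSupport ?_
  have h3 : HasCompactSupport (fderiv ℝ φ) := h.2.1.fderiv (𝕜 := ℝ)
  refine h3.mono ?_
  intro z hz
  rw [Function.mem_support] at hz ⊢
  intro h4
  apply hz
  unfold gr
  rw [h4]
  simp

/-- the subspace of the gradients of test functions -/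
private def S0 (Ω : Set ℂ) : Submodule ℝ (Lp ℂ 2 (volume.restrict Ω)) where
  carrier := {a | ∃ φ, RTF Ω φ ∧ (a : ℂ → ℂ) =ᵐ[volume.restrict Ω] gr φ}
  add_mem' := by
    rintro a b ⟨φ, hφ, ha⟩ ⟨ψ, hψ, hb⟩
    refine ⟨fun w => φ w + ψ w, ⟨hφ.1.add hψ.1, hφ.2.1.add hψ.2.1,
      (tsupport_add φ ψ).trans (union_subset hφ.2.2 hψ.2.2)⟩, ?_⟩
    filter_upwards [Lp.coeFn_add a b, ha, hb] with z h1 h2 h3
    rw [h1, Pi.add_apply, h2, h3, gr_add (rtf_diff hφ) (rtf_diff hψ)]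
  zero_mem' := by
    refine ⟨fun _ => 0, ⟨contDiff_const, HasCompactSupport.zero, ?_⟩, ?_⟩
    · have : tsupport (fun _ : ℂ => (0 : ℝ)) = ∅ := by
        rw [tsupport_eq_empty_iff]
        rfl
      rw [this]
      exact empty_subset _
    · filter_upwards [Lp.coeFn_zero ℂ 2 (volume.restrict Ω)] with z h1
      rw [h1, gr_zero]
      rfl
  smul_mem' := by
    rintro t a ⟨φ, hφ, ha⟩
    refine ⟨fun w => t * φ w, ⟨contDiff_const.mul hφ.1, hφ.2.1.mul_left, ?_⟩, ?_⟩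
    · exact (tsupport_mul_subset_right (f := fun _ => t) (g := φ)).trans hφ.2.2
    · filter_upwards [Lp.coeFn_smul t a, ha] with z h1 h2
      rw [h1, Pi.smul_apply, h2, gr_smul (rtf_diff hφ)]
      rfl

private theorem z0_iff {Ω : Set ℂ} {G : ℂ → ℂ} (hG : MemLp G 2 (volume.restrict Ω)) :
    Z0 Ω G ↔ hG.toLp G ∈ (S0 Ω).topologicalClosure := by
  rw [← SetLike.mem_coe, Submodule.topologicalClosure_coe, Metric.mem_closure_iff]
  constructor
  · rintro ⟨-, h⟩ ε hε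
    obtain ⟨φ, hφ, h1⟩ := h ε hε
    refine ⟨(gr_memLp hφ _).toLp (gr φ), ⟨φ, hφ, MemLp.coeFn_toLp _⟩, ?_⟩
    rw [← edist_lt_ofReal, Lp.edist_toLp_toLp]
    exact h1
  · intro h
    refine ⟨hG, fun ε hε => ?_⟩
    obtain ⟨b, ⟨φ, hφ, hb⟩, h1⟩ := h ε hε
    refine ⟨φ, hφ, ?_⟩
    have h2 : b = (gr_memLp hφ _).toLp (gr φ) := by
      apply Lp.ext
      exact hb.trans (MemLp.coeFn_toLp _).symm
    rw [h2, ← edist_lt_ofReal, Lp.edist_toLp_toLp] at h1
    exact h1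

private theorem mul_memLp {c C : ℝ} (hc : 0 < c) {γ : ℂ → ℝ} (hγ : Cond c C γ) {μ : Measure ℂ}
    {G : ℂ → ℂ} (hG : MemLp G 2 μ) : MemLp (fun z => (γ z : ℂ) * G z) 2 μ := by
  refine MemLp.of_le_mul (c := C) hG ?_ ?_
  · exact (Complex.continuous_ofReal.measurable.comp hγ.meas).aestronglyMeasurable.mul
      hG.aestronglyMeasurable
  · refine Filter.Eventually.of_forall fun z => ?_
    rw [norm_mul, Complex.norm_real, Real.norm_eq_abs, abs_of_nonneg (hc.le.trans (hγ.lo z))]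
    exact mul_le_mul_of_nonneg_right (hγ.hi z) (norm_nonneg _)

/-- multiplication by the coefficient -/
private def TL {c C : ℝ} (hc : 0 < c) {γ : ℂ → ℝ} (hγ : Cond c C γ) (μ : Measure ℂ) :
    Lp ℂ 2 μ →L[ℝ] Lp ℂ 2 μ :=
  LinearMap.mkContinuous
    { toFun := fun a => (mul_memLp hc hγ (Lp.memLp a)).toLp _
      map_add' := by
        intro a b
        apply Lp.ext
        filter_upwards [(mul_memLp hc hγ (Lp.memLp (a + b))).coeFn_toLp,
          (mul_memLp hc hγ (Lp.memLp a)).coeFn_toLp, (mul_memLp hc hγ (Lp.memLp b)).coeFn_toLp,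
          Lp.coeFn_add a b,
          Lp.coeFn_add ((mul_memLp hc hγ (Lp.memLp a)).toLp _)
            ((mul_memLp hc hγ (Lp.memLp b)).toLp _)] with z h1 h2 h3 h4 h5
        rw [h1, h5, Pi.add_apply, h2, h3, h4, Pi.add_apply]
        ring
      map_smul' := by
        intro t a
        apply Lp.ext
        filter_upwards [(mul_memLp hc hγ (Lp.memLp (t • a))).coeFn_toLp,
          (mul_memLp hc hγ (Lp.memLp a)).coeFn_toLp,
          Lp.coeFn_smul t a,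
          Lp.coeFn_smul t ((mul_memLp hc hγ (Lp.memLp a)).toLp _)] with z h1 h2 h4 h5
        rw [h1, RingHom.id_apply, h5, Pi.smul_apply, h2, h4, Pi.smul_apply, mul_smul_comm] }
    C (by
      intro a
      apply Lp.norm_le_mul_norm_of_ae_le_mul
      filter_upwards [(mul_memLp hc hγ (Lp.memLp a)).coeFn_toLp] with z h1
      show ‖((mul_memLp hc hγ (Lp.memLp a)).toLp _ : ℂ → ℂ) z‖ ≤ _
      rw [h1, norm_mul, Complex.norm_real, Real.norm_eq_abs,
        abs_of_nonneg (hc.le.trans (hγ.lo z))]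
      exact mul_le_mul_of_nonneg_right (hγ.hi z) (norm_nonneg _))

private theorem TL_inner {c C : ℝ} (hc : 0 < c) {γ : ℂ → ℝ} (hγ : Cond c C γ) (μ : Measure ℂ)
    (a b : Lp ℂ 2 μ) :
    ⟪TL hc hγ μ a, b⟫_ℝ = ∫ z, γ z * ip (a z) (b z) ∂μ := by
  rw [L2.inner_def]
  refine integral_congr_ae ?_
  filter_upwards [(mul_memLp hc hγ (Lp.memLp a)).coeFn_toLp] with z h1
  have h2 : (TL hc hγ μ a : ℂ → ℂ) z = (γ z : ℂ) * a z := h1
  rw [h2, ip_eq]
  have h3 : (γ z : ℂ) * a z = (γ z) • (a z : ℂ) := by simp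
  rw [h3, real_inner_smul_left]

private theorem TL_coer {c C : ℝ} (hc : 0 < c) {γ : ℂ → ℝ} (hγ : Cond c C γ) (μ : Measure ℂ)
    (a : Lp ℂ 2 μ) : c * ‖a‖ * ‖a‖ ≤ ⟪TL hc hγ μ a, a⟫_ℝ := by
  have h1 : c * ‖a‖ * ‖a‖ = ∫ z, c * ip (a z) (a z) ∂μ := by
    rw [integral_const_mul]
    have h2 : ∫ z, ip (a z) (a z) ∂μ = ⟪a, a⟫_ℝ := by
      rw [L2.inner_def]
      refine integral_congr_ae (Filter.Eventually.of_forall fun z => ?_)
      exact ip_eq _ _
    rw [h2, real_inner_self_eq_norm_mul_norm, mul_assoc]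
  rw [h1, TL_inner]
  have hint : Integrable (fun z => ip (a z) (a z)) μ := by
    have := L2.integrable_inner (𝕜 := ℝ) a a
    refine this.congr (Filter.Eventually.of_forall fun z => ?_)
    exact (ip_eq _ _).symm
  have hint2 : Integrable (fun z => γ z * ip (a z) (a z)) μ := by
    have := L2.integrable_inner (𝕜 := ℝ) (TL hc hγ μ a) a
    refine this.congr ?_
    filter_upwards [(mul_memLp hc hγ (Lp.memLp a)).coeFn_toLp] with z h1
    have h2 : (TL hc hγ μ a : ℂ → ℂ) z = (γ z : ℂ) * a z := h1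
    rw [h2, ip_eq]
    have h3 : (γ z : ℂ) * a z = (γ z) • (a z : ℂ) := by simp
    rw [h3, real_inner_smul_left]
  refine integral_mono (hint.const_mul c) hint2 fun z => ?_
  have h5 : 0 ≤ ip (a z) (a z) := by
    rw [ip_eq]
    exact real_inner_self_nonneg
  exact mul_le_mul_of_nonneg_right (hγ.lo z) h5

/-- the integral in terms of the inner product -/
private theorem int_eq {c C : ℝ} (hc : 0 < c) {γ : ℂ → ℝ} (hγ : Cond c C γ) {μ : Measure ℂ}
    {G F : ℂ → ℂ} (hG : MemLp G 2 μ) (hF : MemLp F 2 μ) :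
    ∫ z, γ z * ip (G z) (F z) ∂μ = ⟪TL hc hγ μ (hG.toLp G), hF.toLp F⟫_ℝ := by
  rw [TL_inner]
  refine integral_congr_ae ?_
  filter_upwards [hG.coeFn_toLp, hF.coeFn_toLp] with z h1 h2
  rw [h1, h2]

private theorem TL_symm {c C : ℝ} (hc : 0 < c) {γ : ℂ → ℝ} (hγ : Cond c C γ) (μ : Measure ℂ)
    (a b : Lp ℂ 2 μ) : ⟪TL hc hγ μ a, b⟫_ℝ = ⟪TL hc hγ μ b, a⟫_ℝ := by
  rw [TL_inner, TL_inner]
  refine integral_congr_ae (Filter.Eventually.of_forall fun z => ?_)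
  show γ z * ip (a z) (b z) = γ z * ip (b z) (a z)
  rw [ip_eq, ip_eq, real_inner_comm]

private theorem bb_ex {c C : ℝ} (hc : 0 < c) {γ : ℂ → ℝ} (hγ : Cond c C γ) {Ω : Set ℂ} {G : ℂ → ℂ}
    (hG : MemLp G 2 (volume.restrict Ω)) : ∃ G', DN Ω γ G G' := by
  obtain ⟨z, hz, hz2⟩ := bb_lax (TL hc hγ (volume.restrict Ω)) hc (TL_coer hc hγ _)
    (S0 Ω).topologicalClosure (Submodule.isClosed_topologicalClosure _) (hG.toLp G)
  have hzm : MemLp (z : ℂ → ℂ) 2 (volume.restrict Ω) := Lp.memLp z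
  refine ⟨fun x => G x + z x, ?_, hG.add hzm, ?_⟩
  · have e : (fun x => G x + z x - G x) = (z : ℂ → ℂ) := by
      funext x
      ring
    rw [e, z0_iff hzm]
    rw [Lp.toLp_coeFn]
    exact hz
  · intro φ hφ
    have hsum : (hG.add hzm).toLp (fun x => G x + z x) = hG.toLp G + z := by
      have := MemLp.toLp_add hG hzm
      rw [Lp.toLp_coeFn] at this
      exact this
    have h1 := int_eq hc hγ (hG.add hzm) (gr_memLp hφ (volume.restrict Ω))
    have h2 : ∫ x in Ω, γ x * ip (G x + z x) (gr φ x) =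
        ⟪TL hc hγ (volume.restrict Ω) (hG.toLp G + z), (gr_memLp hφ _).toLp (gr φ)⟫_ℝ := by
      rw [← hsum]
      exact h1
    rw [h2]
    apply hz2
    apply Submodule.le_topologicalClosure
    exact ⟨φ, hφ, MemLp.coeFn_toLp _⟩

private theorem bb_cl {c C : ℝ} (hc : 0 < c) {γ : ℂ → ℝ} (hγ : Cond c C γ) {Ω : Set ℂ} {G' : ℂ → ℂ}
    (m : MemLp G' 2 (volume.restrict Ω)) (s : Sol Ω γ G') :
    ∀ b ∈ (S0 Ω).topologicalClosure, ⟪TL hc hγ (volume.restrict Ω) (m.toLp G'), b⟫_ℝ = 0 := by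
  have hcl : IsClosed {b : Lp ℂ 2 (volume.restrict Ω) |
      ⟪TL hc hγ (volume.restrict Ω) (m.toLp G'), b⟫_ℝ = 0} :=
    isClosed_eq (by fun_prop) continuous_const
  intro b hb
  have hsub : ((S0 Ω : Submodule ℝ (Lp ℂ 2 (volume.restrict Ω))) :
      Set (Lp ℂ 2 (volume.restrict Ω))) ⊆ {b : Lp ℂ 2 (volume.restrict Ω) |
      ⟪TL hc hγ (volume.restrict Ω) (m.toLp G'), b⟫_ℝ = 0} := by
    rintro b ⟨φ, hφ, hb⟩
    have h2 : b = (gr_memLp hφ (volume.restrict Ω)).toLp (gr φ) := by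
      apply Lp.ext
      exact hb.trans (MemLp.coeFn_toLp _).symm
    show ⟪TL hc hγ (volume.restrict Ω) (m.toLp G'), b⟫_ℝ = 0
    rw [h2, ← int_eq hc hγ m (gr_memLp hφ _)]
    exact s φ hφ
  exact closure_minimal hsub hcl hb

private theorem bb_uq {c C : ℝ} (hc : 0 < c) {γ : ℂ → ℝ} (hγ : Cond c C γ) {Ω : Set ℂ}
    (d : Lp ℂ 2 (volume.restrict Ω)) (hd : d ∈ (S0 Ω).topologicalClosure)
    (h : ∀ b ∈ (S0 Ω).topologicalClosure, ⟪TL hc hγ (volume.restrict Ω) d, b⟫_ℝ = 0) : d = 0 := by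
  have h1 := h d hd
  have h2 := TL_coer hc hγ (volume.restrict Ω) d
  rw [h1] at h2
  have h3 : ‖d‖ = 0 := by
    by_contra hne
    have h4 : 0 < ‖d‖ := lt_of_le_of_ne (norm_nonneg _) (Ne.symm hne)
    have : 0 < c * ‖d‖ * ‖d‖ := by positivity
    linarith
  exact norm_eq_zero.1 h3

private theorem bb_dv {γ : ℂ → ℝ} {Ω : Set ℂ} {G G' : ℂ → ℂ}
    (hG : MemLp G 2 (volume.restrict Ω)) (h : DN Ω γ G G') :
    h.mem.toLp G' - hG.toLp G ∈ (S0 Ω).topologicalClosure := by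
  have v1 := (z0_iff (h.mem.sub hG)).1 h.z0
  have e1 : (h.mem.sub hG).toLp (fun x => G' x - G x) = h.mem.toLp G' - hG.toLp G :=
    MemLp.toLp_sub h.mem hG
  rw [← e1]
  exact v1

private theorem bb_sol {c C : ℝ} (hc : 0 < c) {γ : ℂ → ℝ} (hγ : Cond c C γ) {Ω : Set ℂ} {G : ℂ → ℂ}
    (hG : MemLp G 2 (volume.restrict Ω)) : DN Ω γ G (sol Ω γ G) := by
  have h := bb_ex hc hγ hG
  unfold sol
  rw [dif_pos h]
  exact h.choose_spec

private theorem bb_uniq {c C : ℝ} (hc : 0 < c) {γ : ℂ → ℝ} (hγ : Cond c C γ) {Ω : Set ℂ} {G G' G'' : ℂ → ℂ}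
    (hG : MemLp G 2 (volume.restrict Ω)) (h1 : DN Ω γ G G') (h2 : DN Ω γ G G'') :
    h1.mem.toLp G' = h2.mem.toLp G'' := by
  rw [← sub_eq_zero]
  apply bb_uq hc hγ
  · have := Submodule.sub_mem _ (bb_dv hG h1) (bb_dv hG h2)
    have e : (h1.mem.toLp G' - hG.toLp G) - (h2.mem.toLp G'' - hG.toLp G) =
        h1.mem.toLp G' - h2.mem.toLp G'' := by abel
    rw [e] at this
    exact this
  · intro b hb
    rw [map_sub, inner_sub_left, bb_cl hc hγ h1.mem h1.sol b hb, bb_cl hc hγ h2.mem h2.sol b hb, sub_zero]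

/-- the solution as an element of `L²` -/
private def sl {c C : ℝ} (hc : 0 < c) {γ : ℂ → ℝ} (hγ : Cond c C γ) {Ω : Set ℂ} {G : ℂ → ℂ}
    (hG : MemLp G 2 (volume.restrict Ω)) : Lp ℂ 2 (volume.restrict Ω) :=
  (bb_sol hc hγ hG).mem.toLp (sol Ω γ G)

private theorem sl_v {c C : ℝ} (hc : 0 < c) {γ : ℂ → ℝ} (hγ : Cond c C γ) {Ω : Set ℂ} {G : ℂ → ℂ}
    (hG : MemLp G 2 (volume.restrict Ω)) : sl hc hγ hG - hG.toLp G ∈ (S0 Ω).topologicalClosure :=
  bb_dv hG (bb_sol hc hγ hG)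

private theorem sl_o {c C : ℝ} (hc : 0 < c) {γ : ℂ → ℝ} (hγ : Cond c C γ) {Ω : Set ℂ} {G : ℂ → ℂ}
    (hG : MemLp G 2 (volume.restrict Ω)) :
    ∀ b ∈ (S0 Ω).topologicalClosure, ⟪TL hc hγ (volume.restrict Ω) (sl hc hγ hG), b⟫_ℝ = 0 :=
  bb_cl hc hγ (bb_sol hc hγ hG).mem (bb_sol hc hγ hG).sol

private theorem sl_int {c C : ℝ} (hc : 0 < c) {γ : ℂ → ℝ} (hγ : Cond c C γ) {Ω : Set ℂ} {G H : ℂ → ℂ}
    (hG : MemLp G 2 (volume.restrict Ω)) (hH : MemLp H 2 (volume.restrict Ω)) :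
    ∫ z in Ω, γ z * ip (sol Ω γ G z) (H z) = ⟪TL hc hγ (volume.restrict Ω) (sl hc hγ hG), hH.toLp H⟫_ℝ :=
  int_eq hc hγ (bb_sol hc hγ hG).mem hH

private theorem sl_add {c C : ℝ} (hc : 0 < c) {γ : ℂ → ℝ} (hγ : Cond c C γ) {Ω : Set ℂ} {G G' : ℂ → ℂ}
    (hG : MemLp G 2 (volume.restrict Ω)) (hG' : MemLp G' 2 (volume.restrict Ω))
    (hs : MemLp (fun z => G z + G' z) 2 (volume.restrict Ω)) :
    sl hc hγ hs = sl hc hγ hG + sl hc hγ hG' := by
  rw [← sub_eq_zero]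
  have e0 : hs.toLp (fun z => G z + G' z) = hG.toLp G + hG'.toLp G' := MemLp.toLp_add hG hG'
  apply bb_uq hc hγ
  · have := Submodule.sub_mem _ (sl_v hc hγ hs) (Submodule.add_mem _ (sl_v hc hγ hG) (sl_v hc hγ hG'))
    rw [e0] at this
    have e : (sl hc hγ hs - (hG.toLp G + hG'.toLp G')) - ((sl hc hγ hG - hG.toLp G) + (sl hc hγ hG' - hG'.toLp G'))
        = sl hc hγ hs - (sl hc hγ hG + sl hc hγ hG') := by abel
    rw [e] at this
    exact this
  · intro b hb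
    rw [map_sub, inner_sub_left, map_add, inner_add_left, sl_o hc hγ hs b hb, sl_o hc hγ hG b hb,
      sl_o hc hγ hG' b hb]
    ring

private theorem sl_smul {c C : ℝ} (hc : 0 < c) {γ : ℂ → ℝ} (hγ : Cond c C γ) {Ω : Set ℂ} {G : ℂ → ℂ}
    (s : ℝ) (hG : MemLp G 2 (volume.restrict Ω))
    (hs : MemLp (fun z => (s : ℂ) * G z) 2 (volume.restrict Ω)) :
    sl hc hγ hs = s • sl hc hγ hG := by
  rw [← sub_eq_zero]
  have e0 : hs.toLp (fun z => (s : ℂ) * G z) = s • hG.toLp G := by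
    have := MemLp.toLp_const_smul (c := s) hG
    rw [← this]
    apply (MemLp.toLp_eq_toLp_iff _ _).2
    refine Filter.Eventually.of_forall fun z => ?_
    simp
  apply bb_uq hc hγ
  · have := Submodule.sub_mem _ (sl_v hc hγ hs) (Submodule.smul_mem _ s (sl_v hc hγ hG))
    rw [e0] at this
    have e : (sl hc hγ hs - s • hG.toLp G) - s • (sl hc hγ hG - hG.toLp G)
        = sl hc hγ hs - s • sl hc hγ hG := by
      rw [smul_sub]
      abel
    rw [e] at this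
    exact this
  · intro b hb
    rw [map_sub, inner_sub_left, map_smul, real_inner_smul_left, sl_o hc hγ hs b hb, sl_o hc hγ hG b hb]
    ring

private theorem sl_symm {c C : ℝ} (hc : 0 < c) {γ : ℂ → ℝ} (hγ : Cond c C γ) {Ω : Set ℂ} {G H : ℂ → ℂ}
    (hG : MemLp G 2 (volume.restrict Ω)) (hH : MemLp H 2 (volume.restrict Ω)) :
    ⟪TL hc hγ (volume.restrict Ω) (sl hc hγ hG), hH.toLp H⟫_ℝ =
      ⟪TL hc hγ (volume.restrict Ω) (sl hc hγ hH), hG.toLp G⟫_ℝ := by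
  have h1 := sl_o hc hγ hG _ (sl_v hc hγ hH)
  have h2 := sl_o hc hγ hH _ (sl_v hc hγ hG)
  rw [inner_sub_right, sub_eq_zero] at h1 h2
  rw [← h1, ← h2, TL_symm]

private theorem sl_bd {c C : ℝ} (hc : 0 < c) {γ : ℂ → ℝ} (hγ : Cond c C γ) {Ω : Set ℂ} {G H : ℂ → ℂ}
    (hG : MemLp G 2 (volume.restrict Ω)) (hH : MemLp H 2 (volume.restrict Ω)) :
    |⟪TL hc hγ (volume.restrict Ω) (sl hc hγ hG), hH.toLp H⟫_ℝ| ≤
      ‖TL hc hγ (volume.restrict Ω)‖ * (‖TL hc hγ (volume.restrict Ω)‖ / c) * ‖hG.toLp G‖ * ‖hH.toLp H‖ := by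
  set T := TL hc hγ (volume.restrict Ω) with hT
  have h1 := sl_o hc hγ hG _ (sl_v hc hγ hG)
  rw [inner_sub_right, sub_eq_zero] at h1
  have h2 := TL_coer hc hγ (volume.restrict Ω) (sl hc hγ hG)
  rw [h1] at h2
  have h3 : ⟪T (sl hc hγ hG), hG.toLp G⟫_ℝ ≤ ‖T‖ * ‖sl hc hγ hG‖ * ‖hG.toLp G‖ :=
    (real_inner_le_norm _ _).trans (mul_le_mul_of_nonneg_right (T.le_opNorm _) (norm_nonneg _))
  have h4 : ‖sl hc hγ hG‖ ≤ ‖T‖ / c * ‖hG.toLp G‖ := by
    by_cases h0 : ‖sl hc hγ hG‖ = 0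
    · rw [h0]
      positivity
    · have h5 : 0 < ‖sl hc hγ hG‖ := lt_of_le_of_ne (norm_nonneg _) (Ne.symm h0)
      have h6 : c * ‖sl hc hγ hG‖ ≤ ‖T‖ * ‖hG.toLp G‖ := by
        have := h2.trans h3
        nlinarith [this, h5]
      rw [div_mul_eq_mul_div, le_div_iff₀ hc]
      linarith
  calc |⟪T (sl hc hγ hG), hH.toLp H⟫_ℝ| ≤ ‖T (sl hc hγ hG)‖ * ‖hH.toLp H‖ := abs_real_inner_le_norm _ _
    _ ≤ (‖T‖ * ‖sl hc hγ hG‖) * ‖hH.toLp H‖ := mul_le_mul_of_nonneg_right (T.le_opNorm _) (norm_nonneg _)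
    _ ≤ (‖T‖ * (‖T‖ / c * ‖hG.toLp G‖)) * ‖hH.toLp H‖ := by gcongr
    _ = _ := by ring

private theorem dn_congr {Ω : Set ℂ} (hΩ : MeasurableSet Ω) (h1 : S_zz) {γ : ℂ → ℝ} {G G' : ℂ → ℂ}
    (h : G =ᵐ[volume.restrict Ω] G') : sol Ω γ G = sol Ω γ G' := by
  have e : (fun X => DN Ω γ G X) = (fun X => DN Ω γ G' X) := by
    funext X
    apply propext
    constructor
    · intro d
      refine ⟨(h1 Ω hΩ).2.2.2.2 _ _ d.z0 ?_, d.mem, d.sol⟩
      filter_upwards [h] with z hz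
      rw [hz]
    · intro d
      refine ⟨(h1 Ω hΩ).2.2.2.2 _ _ d.z0 ?_, d.mem, d.sol⟩
      filter_upwards [h] with z hz
      rw [hz]
  have e2 : DN Ω γ G = DN Ω γ G' := e
  unfold sol
  rw [e2]

private theorem bb_eq {Ω : Set ℂ} {c C : ℝ} {γ₁ γ₂ : ℂ → ℝ} (hc : 0 < c) (k1 : Cond c C γ₁) (k2 : Cond c C γ₂)
    {G H : ℂ → ℂ} (hG : MemLp G 2 (volume.restrict Ω)) (hH : MemLp H 2 (volume.restrict Ω)) :
    bb Ω γ₁ γ₂ G H = ⟪TL hc k1 (volume.restrict Ω) (sl hc k1 hG), hH.toLp H⟫_ℝ -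
      ⟪TL hc k2 (volume.restrict Ω) (sl hc k2 hG), hH.toLp H⟫_ℝ := by
  unfold bb
  rw [sl_int hc k1 hG hH, sl_int hc k2 hG hH]

theorem piece_bb (h1 : S_zz) : S_bb := by
  intro Ω c C γ₁ γ₂ hΩ hc k1 k2
  refine ⟨?_, ?_, ?_, ?_, ?_, ?_, ?_⟩
  · intro G G' H hG hG' hH
    have hs : MemLp (fun z => G z + G' z) 2 (volume.restrict Ω) := hG.add hG'
    rw [bb_eq hc k1 k2 hs hH, bb_eq hc k1 k2 hG hH, bb_eq hc k1 k2 hG' hH,
      sl_add hc k1 hG hG' hs, sl_add hc k2 hG hG' hs, map_add, map_add, inner_add_left, inner_add_left]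
    ring
  · intro G H s hG hH
    have hs : MemLp (fun z => (s : ℂ) * G z) 2 (volume.restrict Ω) := hG.const_mul _
    rw [bb_eq hc k1 k2 hs hH, bb_eq hc k1 k2 hG hH, sl_smul hc k1 s hG hs, sl_smul hc k2 s hG hs,
      map_smul, map_smul, real_inner_smul_left, real_inner_smul_left]
    ring
  · intro G H hG hH
    rw [bb_eq hc k1 k2 hG hH, bb_eq hc k1 k2 hH hG, sl_symm hc k1 hG hH, sl_symm hc k2 hG hH]
  · refine ⟨‖TL hc k1 (volume.restrict Ω)‖ * (‖TL hc k1 (volume.restrict Ω)‖ / c) +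
      ‖TL hc k2 (volume.restrict Ω)‖ * (‖TL hc k2 (volume.restrict Ω)‖ / c), by positivity, ?_⟩
    intro G H hG hH
    rw [bb_eq hc k1 k2 hG hH]
    have b1 := sl_bd hc k1 hG hH
    have b2 := sl_bd hc k2 hG hH
    rw [← Lp.norm_toLp G hG, ← Lp.norm_toLp H hH]
    refine (abs_sub _ _).trans ?_
    refine (add_le_add b1 b2).trans (le_of_eq ?_)
    ring
  · intro G H hG hH
    have g0 := (z0_iff hG.1).1 hG
    have key : ∀ {γ : ℂ → ℝ} (k : Cond c C γ), sl hc k hG.1 = 0 := by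
      intro γ k
      apply bb_uq hc k
      · have := Submodule.add_mem _ (sl_v hc k hG.1) g0
        rw [sub_add_cancel] at this
        exact this
      · exact sl_o hc k hG.1
    rw [bb_eq hc k1 k2 hG.1 hH, key k1, key k2, map_zero, map_zero, sub_self]
  · intro G H hG hH
    constructor
    · intro h
      have := h _ _ (bb_sol hc k1 hG) (bb_sol hc k2 hG)
      unfold bb
      rw [this, sub_self]
    · intro h G₁ G₂ d1 d2
      unfold bb at h
      rw [sub_eq_zero] at h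
      have e1 : ∫ z in Ω, γ₁ z * ip (G₁ z) (H z) = ∫ z in Ω, γ₁ z * ip (sol Ω γ₁ G z) (H z) := by
        rw [int_eq hc k1 d1.mem hH, int_eq hc k1 (bb_sol hc k1 hG).mem hH,
          bb_uniq hc k1 hG d1 (bb_sol hc k1 hG)]
      have e2 : ∫ z in Ω, γ₂ z * ip (G₂ z) (H z) = ∫ z in Ω, γ₂ z * ip (sol Ω γ₂ G z) (H z) := by
        rw [int_eq hc k2 d2.mem hH, int_eq hc k2 (bb_sol hc k2 hG).mem hH,
          bb_uniq hc k2 hG d2 (bb_sol hc k2 hG)]
      rw [e1, e2, h]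
  · intro G G' H h
    constructor
    · unfold bb
      rw [dn_congr hΩ.measurableSet h1 h, dn_congr hΩ.measurableSet h1 h]
    · unfold bb
      congr 1
      · refine integral_congr_ae ?_
        filter_upwards [h] with z hz
        rw [hz]
      · refine integral_congr_ae ?_
        filter_upwards [h] with z hz
        rw [hz]

end

end Cal
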