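import Pool.Agent.Lib.MP_4ea4c7_an.StmH1b

open MeasureTheory Complex Metric Set Filter Topology
open scoped ComplexConjugate ENNReal NNReal

namespace Cal

/-- radial cutoff: `1` for `‖z - z0‖ ≤ a`, `0` for `‖z - z0‖ ≥ b` -/
private noncomputable def rcut (z0 : ℂ) (a b : ℝ) (z : ℂ) : ℝ :=
  Real.smoothTransition ((b ^ 2 - ‖z - z0‖ ^ 2) / (b ^ 2 - a ^ 2))

private theorem rcut_contDiff (z0 : ℂ) (a b : ℝ) : ContDiff ℝ (⊤ : ℕ∞) (rcut z0 a b) := by
  unfold rcut
  exact Real.smoothTransition.contDiff.comp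
    ((contDiff_const.sub ((contDiff_norm_sq ℝ).comp (contDiff_id.sub contDiff_const))).div_const _)

private theorem rcut_one {z0 : ℂ} {a b : ℝ} (ha : 0 ≤ a) (hab : a < b) {z : ℂ} (hz : ‖z - z0‖ ≤ a) :
    rcut z0 a b z = 1 := by
  refine Real.smoothTransition.one_of_one_le ?_
  have h1 : 0 < b ^ 2 - a ^ 2 := by nlinarith
  rw [le_div_iff₀ h1]
  nlinarith [norm_nonneg (z - z0)]

private theorem rcut_zero {z0 : ℂ} {a b : ℝ} (ha : 0 ≤ a) (hab : a < b) {z : ℂ} (hz : b ≤ ‖z - z0‖) :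
    rcut z0 a b z = 0 := by
  refine Real.smoothTransition.zero_of_nonpos ?_
  have h1 : 0 < b ^ 2 - a ^ 2 := by nlinarith
  refine div_nonpos_of_nonpos_of_nonneg ?_ h1.le
  nlinarith [norm_nonneg (z - z0)]

private theorem rcut_nonneg (z0 : ℂ) (a b : ℝ) (z : ℂ) : 0 ≤ rcut z0 a b z :=
  Real.smoothTransition.nonneg _

private theorem rcut_le_one (z0 : ℂ) (a b : ℝ) (z : ℂ) : rcut z0 a b z ≤ 1 :=
  Real.smoothTransition.le_one _

private theorem rcut_one_ev {z0 : ℂ} {a b : ℝ} (ha : 0 ≤ a) (hab : a < b) {z : ℂ} (hz : ‖z - z0‖ < a) :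
    rcut z0 a b =ᶠ[𝓝 z] fun _ => 1 := by
  have ho : IsOpen {w : ℂ | ‖w - z0‖ < a} := isOpen_lt (by fun_prop) continuous_const
  filter_upwards [ho.mem_nhds hz] with w hw
  exact rcut_one ha hab (le_of_lt hw)

private theorem rcut_zero_ev {z0 : ℂ} {a b : ℝ} (ha : 0 ≤ a) (hab : a < b) {z : ℂ} (hz : b < ‖z - z0‖) :
    rcut z0 a b =ᶠ[𝓝 z] fun _ => 0 := by
  have ho : IsOpen {w : ℂ | b < ‖w - z0‖} := isOpen_lt continuous_const (by fun_prop)
  filter_upwards [ho.mem_nhds hz] with w hw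
  exact rcut_zero ha hab (le_of_lt hw)

private theorem gr_zero_of_ev {χ : ℂ → ℝ} {z : ℂ} {a : ℝ} (h : χ =ᶠ[𝓝 z] fun _ => a) : gr χ z = 0 := by
  have h1 : fderiv ℝ χ z = 0 := by
    rw [h.fderiv_eq, fderiv_fun_const]
    rfl
  unfold gr
  rw [h1]
  simp

private theorem dzdb_zero_of_ev {g : ℂ → ℂ} {z c : ℂ} (h : g =ᶠ[𝓝 z] fun _ => c) :
    dz g z = 0 ∧ db g z = 0 := by
  have h1 : fderiv ℝ g z = 0 := by
    rw [h.fderiv_eq, fderiv_fun_const]
    rfl
  unfold dz db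
  rw [h1]
  simp

private theorem psi_zero {δ : ℝ} {ψ : ℂ → ℝ} (hψ : RTF (ball 0 δ) ψ) {w : ℂ} (hw : δ ≤ ‖w‖) : ψ w = 0 := by
  by_contra h
  have h1 : w ∈ ball (0 : ℂ) δ := hψ.2.2 (subset_tsupport ψ h)
  rw [mem_ball_zero_iff] at h1
  linarith

theorem piece_bdegloc (h1 : S_bcmp) (_h2 : S_bdeg) (h3 : S_smooth) (h4 : S_basic) (_h5 : S_wuniq) : S_bdegloc := by
  intro z0 r1 r2 δ f A B f' A' B' ψ hr1 hr12 hδ hf hW hf' hW' hclose hψ
  obtain ⟨s1, hs1, hs1'⟩ := exists_between hr12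
  obtain ⟨s2, hs2, hs2'⟩ := exists_between hs1'
  obtain ⟨s3, hs3, hs3'⟩ := exists_between hs2'
  obtain ⟨s4, hs4, hs4'⟩ := exists_between hs3'
  have p1 : 0 ≤ s1 := by linarith
  have p3 : 0 ≤ s3 := by linarith
  set c : ℂ → ℝ := rcut z0 s1 s2 with hc
  set η : ℂ → ℝ := rcut z0 s3 s4 with hη
  set U : Set ℂ := ball z0 r2 with hU
  have hUo : IsOpen U := isOpen_ball
  have hcs : ContDiff ℝ (⊤ : ℕ∞) c := rcut_contDiff _ _ _
  have hcC : ContDiff ℝ (⊤ : ℕ∞) (fun z => ((c z : ℝ) : ℂ)) := Complex.ofRealCLM.contDiff.comp hcs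
  have hcC' : ContDiff ℝ (⊤ : ℕ∞) (fun z => 1 - ((c z : ℝ) : ℂ)) := contDiff_const.sub hcC
  -- the interpolated function
  have w1 := h3.2.2 U f' A' B' (fun z => ((c z : ℝ) : ℂ)) hUo hW' hcC.contDiffOn
  have w2 := h3.2.2 U f A B (fun z => 1 - ((c z : ℝ) : ℂ)) hUo hW hcC'.contDiffOn
  have w3 := h4.1 U _ _ _ _ _ _ w1 w2
  set f2 : ℂ → ℂ := fun z => f' z * ((c z : ℝ) : ℂ) + f z * (1 - ((c z : ℝ) : ℂ)) with hf2
  set A2 : ℂ → ℂ := fun z => (A' z * ((c z : ℝ) : ℂ) + f' z * dz (fun z => ((c z : ℝ) : ℂ)) z) +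
    (A z * (1 - ((c z : ℝ) : ℂ)) + f z * dz (fun z => 1 - ((c z : ℝ) : ℂ)) z) with hA2
  set B2 : ℂ → ℂ := fun z => (B' z * ((c z : ℝ) : ℂ) + f' z * db (fun z => ((c z : ℝ) : ℂ)) z) +
    (B z * (1 - ((c z : ℝ) : ℂ)) + f z * db (fun z => 1 - ((c z : ℝ) : ℂ)) z) with hB2
  have hf2c : ContinuousOn f2 U := (hf'.mul hcC.continuous.continuousOn).add
    (hf.mul hcC'.continuous.continuousOn)
  -- the outer annulus
  set V : Set ℂ := {z | s2 < ‖z - z0‖ ∧ ‖z - z0‖ < r2} with hV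
  have hno : Continuous (fun z : ℂ => ‖z - z0‖) := by fun_prop
  have hVo : IsOpen V := by
    have o1 : IsOpen {z : ℂ | s2 < ‖z - z0‖} := isOpen_lt continuous_const hno
    have o2 : IsOpen {z : ℂ | ‖z - z0‖ < r2} := isOpen_lt hno continuous_const
    exact o1.inter o2
  have hVU : V ⊆ U := fun z hz => by
    rw [hU, mem_ball, dist_eq_norm]; exact hz.2
  have hVeq : ∀ z ∈ V, f z = f2 z := by
    intro z hz
    have e : c z = 0 := rcut_zero p1 hs2 hz.1.le
    simp only [hf2, e]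
    simp
  have hηs : RTF U η := by
    have hsub : tsupport η ⊆ closedBall z0 s4 := by
      refine closure_minimal ?_ isClosed_closedBall
      intro z hz
      rw [mem_closedBall, dist_eq_norm]
      by_contra hcon
      exact hz (rcut_zero p3 hs4 (not_le.mp hcon).le)
    refine ⟨rcut_contDiff _ _ _, ?_, ?_⟩
    · exact (isCompact_closedBall z0 s4).of_isClosed_subset (isClosed_tsupport η) hsub
    · intro z hz
      have := hsub hz
      rw [mem_closedBall] at this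
      rw [hU, mem_ball]
      linarith
  have hgr : ∀ z, z ∉ V → gr η z = 0 := by
    intro z hz
    by_cases h : ‖z - z0‖ < s3
    · exact gr_zero_of_ev (rcut_one_ev p3 hs4 h)
    · refine gr_zero_of_ev (rcut_zero_ev p3 hs4 ?_)
      rw [not_lt] at h
      have h' : ¬ ‖z - z0‖ < r2 := fun h'' => hz ⟨lt_of_lt_of_le hs3 h, h''⟩
      linarith [not_lt.mp h']
  have hψ' : RTF univ ψ := ⟨hψ.1, hψ.2.1, subset_univ _⟩
  have key := h1 U V f A B f2 A2 B2 η ψ hUo hVo hVU hf hW hf2c w3 hVeq hηs hgr hψ'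
  -- rewrite both sides
  have hη1 : ∀ z, ‖z - z0‖ < r1 → η z = 1 := fun z hz => rcut_one p3 hs4 (by linarith)
  have hη0 : ∀ z, z ∉ U → η z = 0 := by
    intro z hz
    refine rcut_zero p3 hs4 ?_
    rw [hU, mem_ball, dist_eq_norm, not_lt] at hz
    linarith
  have eL : ∫ z in U, ψ (f z) * (‖A z‖ ^ 2 - ‖B z‖ ^ 2) = ∫ z, η z * ψ (f z) * (‖A z‖ ^ 2 - ‖B z‖ ^ 2) := by
    rw [← integral_indicator hUo.measurableSet]
    congr 1
    funext z
    by_cases hz : z ∈ U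
    · rw [indicator_of_mem hz]
      by_cases hz1 : ‖z - z0‖ < r1
      · rw [hη1 z hz1, one_mul]
      · have := (hclose z hz (not_lt.mp hz1)).1
        rw [psi_zero hψ (by linarith : δ ≤ ‖f z‖)]
        simp
    · rw [indicator_of_notMem hz, hη0 z hz]
      simp
  have eR : ∫ z in U, ψ (f' z) * (‖A' z‖ ^ 2 - ‖B' z‖ ^ 2) = ∫ z, η z * ψ (f2 z) * (‖A2 z‖ ^ 2 - ‖B2 z‖ ^ 2) := by
    rw [← integral_indicator hUo.measurableSet]
    congr 1
    funext z
    by_cases hz : z ∈ U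
    · rw [indicator_of_mem hz]
      by_cases hz1 : ‖z - z0‖ < r1
      · have hzs : ‖z - z0‖ < s1 := by linarith
        have e1 : c z = 1 := rcut_one p1 hs2 hzs.le
        have ev := rcut_one_ev p1 hs2 hzs
        have d1 := dzdb_zero_of_ev (g := fun z => ((c z : ℝ) : ℂ)) (z := z) (c := 1) (by
          filter_upwards [ev] with w hw
          simp only [hc, hw]
          simp)
        have d2 := dzdb_zero_of_ev (g := fun z => 1 - ((c z : ℝ) : ℂ)) (z := z) (c := 0) (by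
          filter_upwards [ev] with w hw
          simp only [hc, hw]
          simp)
        have e2 : f2 z = f' z := by simp only [hf2, e1]; simp
        have e3 : A2 z = A' z := by simp only [hA2, e1, d1.1, d2.1]; simp
        have e4 : B2 z = B' z := by simp only [hB2, e1, d1.2, d2.2]; simp
        rw [hη1 z hz1, one_mul, e2, e3, e4]
      · have hcl := hclose z hz (not_lt.mp hz1)
        have n1 : δ ≤ ‖f' z‖ := by
          have := norm_sub_norm_le (f z) (f' z)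
          linarith [hcl.1, hcl.2]
        have n2 : δ ≤ ‖f2 z‖ := by
          have e : f2 z = f z - ((c z : ℝ) : ℂ) * (f z - f' z) := by
            simp only [hf2]; ring
          have h6 : ‖((c z : ℝ) : ℂ) * (f z - f' z)‖ ≤ δ := by
            rw [norm_mul, Complex.norm_real, Real.norm_eq_abs, abs_of_nonneg (rcut_nonneg _ _ _ _)]
            have q1 : c z ≤ 1 := rcut_le_one _ _ _ _
            have q0 : 0 ≤ c z := rcut_nonneg _ _ _ _
            nlinarith [norm_nonneg (f z - f' z), hcl.2]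
          have h7 := norm_sub_norm_le (f z) (((c z : ℝ) : ℂ) * (f z - f' z))
          rw [e]
          have h8 : ‖f z‖ - ‖((c z : ℝ) : ℂ) * (f z - f' z)‖ ≤ ‖f z - ((c z : ℝ) : ℂ) * (f z - f' z)‖ := h7
          linarith [hcl.1]
        rw [psi_zero hψ n1, psi_zero hψ n2]
        simp
    · rw [indicator_of_notMem hz, hη0 z hz]
      simp
  rw [eL, eR]
  exact key

end Cal
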