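import Pool.Agent.Lib.MP_4ea4c7_an.Stm1

/-!
# [A0] Radial mollifiers
-/

open MeasureTheory Complex Metric Set Filter Topology
open scoped ComplexConjugate ENNReal NNReal Convolution

namespace Cal

noncomputable section

/-- the unnormalised bump -/
def bp0 (n : ℕ) (z : ℂ) : ℝ := Real.smoothTransition (1 - ((n : ℝ) + 1) ^ 2 * ‖z‖ ^ 2)

theorem bp0_smooth (n : ℕ) : ContDiff ℝ (⊤ : ℕ∞) (bp0 n) :=
  Real.smoothTransition.contDiff.comp (contDiff_const.sub (contDiff_const.mul (contDiff_norm_sq ℝ)))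

theorem bp0_nonneg (n : ℕ) (z : ℂ) : 0 ≤ bp0 n z := Real.smoothTransition.nonneg _

theorem bp0_zero (n : ℕ) (z : ℂ) (hz : 1 / ((n : ℝ) + 1) ≤ ‖z‖) : bp0 n z = 0 := by
  apply Real.smoothTransition.zero_of_nonpos
  have hn : (0 : ℝ) < (n : ℝ) + 1 := by positivity
  have h1 : 1 ≤ ((n : ℝ) + 1) * ‖z‖ := by
    rw [div_le_iff₀ hn] at hz
    linarith [mul_comm ‖z‖ ((n : ℝ) + 1)]
  have h2 : (1 : ℝ) ≤ (((n : ℝ) + 1) * ‖z‖) ^ 2 := by nlinarith
  rw [mul_pow] at h2
  linarith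

theorem bp0_compact (n : ℕ) : HasCompactSupport (bp0 n) := by
  apply HasCompactSupport.of_support_subset_isCompact (isCompact_closedBall (0 : ℂ) (1 / ((n : ℝ) + 1)))
  intro z hz
  rw [mem_closedBall_zero_iff]
  by_contra h
  exact hz (bp0_zero n z (not_le.mp h).le)

theorem bp0_pos (n : ℕ) : 0 < ∫ z, bp0 n z := by
  apply (bp0_smooth n).continuous.integral_pos_of_hasCompactSupport_nonneg_nonzero (bp0_compact n) (bp0_nonneg n) (x := 0)
  have : bp0 n 0 = Real.smoothTransition 1 := by simp [bp0]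
  rw [this, Real.smoothTransition.one]
  exact one_ne_zero

/-- the normalised bump -/
def bp (n : ℕ) (z : ℂ) : ℝ := (∫ z, bp0 n z)⁻¹ * bp0 n z

theorem bp_smooth (n : ℕ) : ContDiff ℝ (⊤ : ℕ∞) (bp n) := contDiff_const.mul (bp0_smooth n)

theorem bp_nonneg (n : ℕ) (z : ℂ) : 0 ≤ bp n z := mul_nonneg (inv_nonneg.mpr (bp0_pos n).le) (bp0_nonneg n z)

theorem bp_zero (n : ℕ) (z : ℂ) (hz : 1 / ((n : ℝ) + 1) ≤ ‖z‖) : bp n z = 0 := by
  rw [bp, bp0_zero n z hz, mul_zero]

theorem bp_compact (n : ℕ) : HasCompactSupport (bp n) := (bp0_compact n).mul_left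

theorem bp_int (n : ℕ) : ∫ z, bp n z = 1 := by
  simp only [bp]
  rw [integral_const_mul]
  exact inv_mul_cancel₀ (bp0_pos n).ne'

theorem bp_radial (n : ℕ) (z w : ℂ) (h : ‖z‖ = ‖w‖) : bp n z = bp n w := by
  simp only [bp, bp0, h]

theorem mol_eq (ρ : ℂ → ℝ) (g : ℂ → ℂ) : mol ρ g = (ρ ⋆[ContinuousLinearMap.lsmul ℝ ℝ, volume] g) := by
  funext z
  rw [convolution_eq_swap]
  rfl

theorem mol_smooth (n : ℕ) (g : ℂ → ℂ) (hg : LocallyIntegrable g volume) : ContDiff ℝ (⊤ : ℕ∞) (mol (bp n) g) := by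
  rw [mol_eq]
  exact (bp_compact n).contDiff_convolution_left _ (bp_smooth n) hg

theorem mol_intg (n : ℕ) (g : ℂ → ℂ) (hg : LocallyIntegrable g volume) (z : ℂ) :
    Integrable (fun ζ => ((bp n (z - ζ) : ℝ) : ℂ) * g ζ) volume := by
  have h := ((bp_compact n).convolutionExists_left (ContinuousLinearMap.lsmul ℝ ℝ) (bp_smooth n).continuous hg z)
  exact h.integrable_swap

theorem mol_sub (n : ℕ) (g h : ℂ → ℂ) (hg : LocallyIntegrable g volume) (hh : LocallyIntegrable h volume) (z : ℂ) :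
    mol (bp n) (fun ζ => g ζ - h ζ) z = mol (bp n) g z - mol (bp n) h z := by
  simp only [mol]
  rw [← integral_sub (mol_intg n g hg z) (mol_intg n h hh z)]
  congr 1
  funext ζ
  ring

theorem bp_unif (g : ℂ → ℂ) (hg : Continuous g) (K : Set ℂ) (hK : IsCompact K) :
    TendstoUniformlyOn (fun n => mol (bp n) g) g atTop K := by
  rw [Metric.tendstoUniformlyOn_iff]
  intro ε hε
  have hε2 : 0 < ε / 2 := by positivity
  have h1 := hK.uniformContinuousAt_of_continuousAt g (fun a _ => hg.continuousAt) (Metric.dist_mem_uniformity hε2)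
  obtain ⟨δ, hδ, hδ2⟩ := Metric.mem_uniformity_dist.mp h1
  obtain ⟨N, hN⟩ := exists_nat_one_div_lt hδ
  filter_upwards [eventually_ge_atTop N] with n hn z hz
  have hR : 1 / ((n : ℝ) + 1) < δ := lt_of_le_of_lt (by
    apply one_div_le_one_div_of_le (by positivity)
    have : (N : ℝ) ≤ n := by exact_mod_cast hn
    linarith) hN
  have h2 : dist ((bp n ⋆[ContinuousLinearMap.lsmul ℝ ℝ, volume] g : ℂ → ℂ) z) (g z) ≤ ε / 2 := by
    apply dist_convolution_le hε2.le (R := 1 / ((n : ℝ) + 1))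
    · intro x hx
      rw [mem_ball_zero_iff]
      by_contra h
      exact hx (bp_zero n x (not_lt.mp h))
    · exact bp_nonneg n
    · exact bp_int n
    · exact hg.aestronglyMeasurable
    · intro x hx
      have h3 : dist z x < δ := by
        rw [dist_comm]
        exact lt_trans hx hR
      have h4 := hδ2 h3 hz
      simp only at h4
      rw [dist_comm]
      exact h4.le
  rw [dist_comm]
  rw [mol_eq]
  linarith

theorem bp_lint (n : ℕ) (ζ : ℂ) : ∫⁻ z, ENNReal.ofReal (bp n (z - ζ)) = 1 := by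
  rw [lintegral_sub_right_eq_self (fun z => ENNReal.ofReal (bp n z)) ζ]
  rw [← ofReal_integral_eq_lintegral_ofReal ((bp_smooth n).continuous.integrable_of_hasCompactSupport (bp_compact n))
    (Eventually.of_forall (bp_nonneg n)), bp_int, ENNReal.ofReal_one]

theorem bp_lint' (n : ℕ) (z : ℂ) : ∫⁻ ζ, ENNReal.ofReal (bp n (z - ζ)) = 1 := by
  have : ∀ ζ, bp n (z - ζ) = bp n (ζ - z) := fun ζ => bp_radial n _ _ (norm_sub_rev _ _)
  simp only [this]
  exact bp_lint n z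

theorem bp_jensen (n : ℕ) (g : ℂ → ℂ) (hg : AEStronglyMeasurable g volume) (z : ℂ) :
    ‖mol (bp n) g z‖ₑ ^ (2 : ℝ) ≤ ∫⁻ ζ, ENNReal.ofReal (bp n (z - ζ)) * ‖g ζ‖ₑ ^ (2 : ℝ) := by
  have hs : Continuous (fun ζ => Real.sqrt (bp n (z - ζ))) :=
    Real.continuous_sqrt.comp ((bp_smooth n).continuous.comp (continuous_const.sub continuous_id))
  have hs2 : ∀ ζ, ENNReal.ofReal (Real.sqrt (bp n (z - ζ))) ^ (2 : ℝ) = ENNReal.ofReal (bp n (z - ζ)) := by
    intro ζ
    rw [ENNReal.rpow_two, ← ENNReal.ofReal_pow (Real.sqrt_nonneg _), Real.sq_sqrt (bp_nonneg n _)]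
  have h1 : ‖mol (bp n) g z‖ₑ ≤ ∫⁻ ζ, ((fun ζ => ENNReal.ofReal (Real.sqrt (bp n (z - ζ)))) *
      (fun ζ => ENNReal.ofReal (Real.sqrt (bp n (z - ζ))) * ‖g ζ‖ₑ)) ζ := by
    refine (enorm_integral_le_lintegral_enorm _).trans (lintegral_mono fun ζ => ?_)
    simp only [Pi.mul_apply]
    rw [← mul_assoc, ← ENNReal.ofReal_mul (Real.sqrt_nonneg _), Real.mul_self_sqrt (bp_nonneg n _), enorm_mul]
    have : ‖((bp n (z - ζ) : ℝ) : ℂ)‖ₑ = ENNReal.ofReal (bp n (z - ζ)) := by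
      rw [← ofReal_norm, Complex.norm_real, Real.norm_of_nonneg (bp_nonneg n _)]
    rw [this]
  have h2 := ENNReal.lintegral_mul_le_Lp_mul_Lq volume Real.HolderConjugate.two_two
    (f := fun ζ => ENNReal.ofReal (Real.sqrt (bp n (z - ζ))))
    (g := fun ζ => ENNReal.ofReal (Real.sqrt (bp n (z - ζ))) * ‖g ζ‖ₑ)
    (hs.measurable.ennreal_ofReal.aemeasurable)
    (hs.measurable.ennreal_ofReal.aemeasurable.mul hg.enorm)
  have h3 := h1.trans h2
  simp only [hs2, bp_lint', ENNReal.one_rpow, one_mul] at h3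
  simp only [ENNReal.mul_rpow_of_nonneg _ _ (zero_le_two : (0 : ℝ) ≤ 2), hs2] at h3
  calc ‖mol (bp n) g z‖ₑ ^ (2 : ℝ) ≤ ((∫⁻ ζ, ENNReal.ofReal (bp n (z - ζ)) * ‖g ζ‖ₑ ^ (2 : ℝ)) ^ ((1 : ℝ) / 2)) ^ (2 : ℝ) :=
        ENNReal.rpow_le_rpow h3 (by norm_num)
    _ = _ := by
        rw [← ENNReal.rpow_mul]
        norm_num

theorem bp_L2 (n : ℕ) (g : ℂ → ℂ) (hg : AEStronglyMeasurable g volume) :
    ∫⁻ z, ‖mol (bp n) g z‖ₑ ^ (2 : ℝ) ≤ ∫⁻ ζ, ‖g ζ‖ₑ ^ (2 : ℝ) := by
  calc ∫⁻ z, ‖mol (bp n) g z‖ₑ ^ (2 : ℝ) ≤ ∫⁻ z, ∫⁻ ζ, ENNReal.ofReal (bp n (z - ζ)) * ‖g ζ‖ₑ ^ (2 : ℝ) :=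
        lintegral_mono fun z => bp_jensen n g hg z
    _ = ∫⁻ ζ, ∫⁻ z, ENNReal.ofReal (bp n (z - ζ)) * ‖g ζ‖ₑ ^ (2 : ℝ) := by
        apply lintegral_lintegral_swap
        apply AEMeasurable.mul
        · apply Measurable.aemeasurable
          exact ((bp_smooth n).continuous.comp (continuous_fst.sub continuous_snd)).measurable.ennreal_ofReal
        · exact (hg.comp_snd.enorm).pow_const _
    _ = ∫⁻ ζ, ‖g ζ‖ₑ ^ (2 : ℝ) := by
        apply lintegral_congr
        intro ζ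
        have hm : Measurable (fun z => ENNReal.ofReal (bp n (z - ζ))) :=
          ((bp_smooth n).continuous.comp (continuous_id.sub continuous_const)).measurable.ennreal_ofReal
        rw [lintegral_mul_const _ hm, bp_lint, one_mul]

theorem bp_eL2 (n : ℕ) (g : ℂ → ℂ) (hg : AEStronglyMeasurable g volume) :
    eLpNorm (mol (bp n) g) 2 volume ≤ eLpNorm g 2 volume := by
  rw [eLpNorm_eq_lintegral_rpow_enorm_toReal (by norm_num) (by norm_num),
    eLpNorm_eq_lintegral_rpow_enorm_toReal (by norm_num) (by norm_num)]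
  apply ENNReal.rpow_le_rpow _ (by positivity)
  simpa using bp_L2 n g hg

theorem bp_mem (n : ℕ) (g : ℂ → ℂ) (hg : MemLp g 2 volume) : MemLp (mol (bp n) g) 2 volume :=
  ⟨(mol_smooth n g (hg.locallyIntegrable (by norm_num))).continuous.aestronglyMeasurable,
    (bp_eL2 n g hg.1).trans_lt hg.2⟩

/-- `mol (bp n) h` is supported near the support of `h` -/
theorem bp_supp (n : ℕ) (h : ℂ → ℂ) (z : ℂ) (hz : z ∉ cthickening 1 (tsupport h)) : mol (bp n) h z = 0 := by
  simp only [mol]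
  have : ∀ ζ, ((bp n (z - ζ) : ℝ) : ℂ) * h ζ = 0 := by
    intro ζ
    by_cases h1 : ζ ∈ tsupport h
    · have h2 : 1 < dist z ζ := by
        by_contra h3
        exact hz (mem_cthickening_of_dist_le z ζ 1 _ h1 (not_lt.mp h3))
      rw [bp_zero n]
      · simp
      · rw [dist_eq_norm] at h2
        refine le_trans ?_ h2.le
        rw [div_le_one (by positivity)]
        linarith [(Nat.cast_nonneg n : (0 : ℝ) ≤ n)]
    · rw [image_eq_zero_of_notMem_tsupport h1, mul_zero]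
  simp [this]

theorem bp_conv_cc (h : ℂ → ℂ) (hc : Continuous h) (hs : HasCompactSupport h) :
    Tendsto (fun n => eLpNorm (fun z => mol (bp n) h z - h z) 2 volume) atTop (𝓝 0) := by
  have hK : IsCompact (cthickening 1 (tsupport h)) := hs.cthickening
  have hu := bp_unif h hc _ hK
  rw [Metric.tendstoUniformlyOn_iff] at hu
  rw [ENNReal.tendsto_atTop_zero]
  intro ε hε
  have hV : volume (cthickening 1 (tsupport h)) ≠ ⊤ := hK.measure_lt_top.ne
  -- choose a small constant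
  obtain ⟨c, hc0, hc1⟩ : ∃ c : ℝ, 0 < c ∧ ENNReal.ofReal c * volume (cthickening 1 (tsupport h)) ^ (1 / (2 : ℝ≥0∞).toReal) ≤ ε := by
    have hVp : volume (cthickening 1 (tsupport h)) ^ (1 / (2 : ℝ≥0∞).toReal) ≠ ⊤ :=
      ENNReal.rpow_ne_top_of_nonneg (by positivity) hV
    have ht : Tendsto (fun c : ℝ => ENNReal.ofReal c * volume (cthickening 1 (tsupport h)) ^ (1 / (2 : ℝ≥0∞).toReal)) (𝓝[>] 0) (𝓝 0) := by
      have h1 : Tendsto (fun c : ℝ => ENNReal.ofReal c) (𝓝[>] 0) (𝓝 0) := by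
        have := (ENNReal.continuous_ofReal.tendsto 0).mono_left (nhdsWithin_le_nhds (s := Ioi 0))
        simpa using this
      have h2 := ENNReal.Tendsto.mul_const h1 (b := volume (cthickening 1 (tsupport h)) ^ (1 / (2 : ℝ≥0∞).toReal)) (Or.inr hVp)
      simpa using h2
    have h3 := (ht.eventually (ge_mem_nhds hε)).and self_mem_nhdsWithin
    obtain ⟨c, h4, h5⟩ := h3.exists
    exact ⟨c, h5, h4⟩
  obtain ⟨N, hN⟩ := eventually_atTop.mp (hu c hc0)
  refine ⟨N, fun n hn => ?_⟩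
  refine le_trans ?_ hc1
  apply eLpNorm_sub_le_of_dist_bdd volume (by norm_num) hK.measurableSet hc0.le
  · intro x
    by_cases hx : x ∈ cthickening 1 (tsupport h)
    · rw [dist_comm]
      exact (hN n hn x hx).le
    · rw [bp_supp n h x hx]
      have : x ∉ tsupport h := fun h1 => hx (self_subset_cthickening _ h1)
      rw [image_eq_zero_of_notMem_tsupport this, dist_self]
      exact hc0.le
  · intro x hx
    by_contra h1
    exact hx (bp_supp n h x h1)
  · exact (subset_tsupport h).trans (self_subset_cthickening _)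

theorem bp_conv (g : ℂ → ℂ) (hg : MemLp g 2 volume) :
    Tendsto (fun n => eLpNorm (fun z => mol (bp n) g z - g z) 2 volume) atTop (𝓝 0) := by
  rw [ENNReal.tendsto_atTop_zero]
  intro ε hε
  have hε3 : ε / 3 ≠ 0 := (ENNReal.div_pos hε.ne' (by norm_num)).ne'
  obtain ⟨h, hs, hgh, hc, hm⟩ := hg.exists_hasCompactSupport_eLpNorm_sub_le (by norm_num) hε3
  obtain ⟨N, hN⟩ := (ENNReal.tendsto_atTop_zero.mp (bp_conv_cc h hc hs)) (ε / 3) (pos_iff_ne_zero.mpr hε3)
  refine ⟨N, fun n hn => ?_⟩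
  have hgl := hg.locallyIntegrable (by norm_num : (1 : ℝ≥0∞) ≤ 2)
  have hhl := hm.locallyIntegrable (by norm_num : (1 : ℝ≥0∞) ≤ 2)
  have hd : MemLp (fun ζ => g ζ - h ζ) 2 volume := hg.sub hm
  have e1 : (fun z => mol (bp n) g z - g z) =
      (fun z => mol (bp n) (fun ζ => g ζ - h ζ) z) + (fun z => -(g z - h z)) + (fun z => mol (bp n) h z - h z) := by
    funext z
    simp only [Pi.add_apply]
    rw [mol_sub n g h hgl hhl z]
    ring
  have m1 : MemLp (fun z => mol (bp n) (fun ζ => g ζ - h ζ) z) 2 volume := bp_mem n _ hd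
  have m2 : MemLp (fun z => -(g z - h z)) 2 volume := hd.neg
  have m3 : MemLp (fun z => mol (bp n) h z - h z) 2 volume := (bp_mem n h hm).sub hm
  rw [e1]
  calc _ ≤ eLpNorm ((fun z => mol (bp n) (fun ζ => g ζ - h ζ) z) + (fun z => -(g z - h z))) 2 volume
        + eLpNorm (fun z => mol (bp n) h z - h z) 2 volume := eLpNorm_add_le (m1.add m2).1 m3.1 (by norm_num)
    _ ≤ (eLpNorm (fun z => mol (bp n) (fun ζ => g ζ - h ζ) z) 2 volume + eLpNorm (fun z => -(g z - h z)) 2 volume)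
        + eLpNorm (fun z => mol (bp n) h z - h z) 2 volume := by
          gcongr
          exact eLpNorm_add_le m1.1 m2.1 (by norm_num)
    _ ≤ (ε / 3 + ε / 3) + ε / 3 := by
          gcongr
          · exact (bp_eL2 n _ hd.1).trans hgh
          · have : (fun z => -(g z - h z)) = -(g - h) := rfl
            rw [this, eLpNorm_neg]
            exact hgh
          · exact hN n hn
    _ = ε := ENNReal.add_thirds ε

theorem piece_bump : S_bump :=
  ⟨bp, bp_smooth, bp_nonneg, bp_zero, bp_int, bp_radial, fun g hg n => mol_smooth n g hg,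
    fun g hg => ⟨fun n => ⟨bp_mem n g hg, bp_eL2 n g hg.1⟩, bp_conv g hg⟩, fun g hg K hK => bp_unif g hg K hK⟩

end

end Cal
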