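import Pool.Agent.Lib.MP_4ea4c7_an.StmH1b

open MeasureTheory Complex Metric Set Filter Topology
open scoped ComplexConjugate ENNReal NNReal

namespace Cal

theorem piece_bzero (h1 : S_bsim) : S_bzero := by
  intro g h hg hh hM heq
  obtain ⟨C, hC, hS⟩ := h1
  have hex : ∀ n : ℕ, ∃ ω Φ : ℂ → ℂ, DifferentiableOn ℂ Φ (ball 0 ((n : ℝ) + 1)) ∧
      ∀ k ∈ ball (0 : ℂ) ((n : ℝ) + 1), g k = exp (ω k) * Φ k := by
    intro n
    obtain ⟨M, hMn⟩ := hM ((n : ℝ) + 1)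
    obtain ⟨ω, Φ, _, _, h3, h4⟩ := hS ((n : ℝ) + 1) |M| g h (by positivity) (abs_nonneg M)
      hg.continuousOn hh
      (fun k hk => (hMn k hk).trans (mul_le_mul_of_nonneg_right (le_abs_self M) (norm_nonneg _)))
      (fun φ hφ => heq φ ⟨hφ.1, hφ.2.1, subset_univ _⟩)
    exact ⟨ω, Φ, h3, h4⟩
  choose ω Φ hΦ hgΦ using hex
  have han : ∀ n, AnalyticOnNhd ℂ (Φ n) (ball 0 ((n : ℝ) + 1)) := fun n =>
    (hΦ n).analyticOnNhd isOpen_ball
  have hpc : ∀ n : ℕ, IsPreconnected (ball (0 : ℂ) ((n : ℝ) + 1)) := fun n =>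
    (convex_ball _ _).isPreconnected
  have hzz : ∀ n : ℕ, ∀ k ∈ ball (0 : ℂ) ((n : ℝ) + 1), (g k = 0 ↔ Φ n k = 0) := by
    intro n k hk
    rw [hgΦ n k hk]
    simp [exp_ne_zero]
  by_cases hcase : ∃ n : ℕ, ∃ z0 ∈ ball (0 : ℂ) ((n : ℝ) + 1), ∃ᶠ z in 𝓝[≠] z0, Φ n z = 0
  · left
    obtain ⟨n, z0, hz0, hfr⟩ := hcase
    have e1 : EqOn (Φ n) 0 (ball 0 ((n : ℝ) + 1)) :=
      (han n).eqOn_zero_of_preconnected_of_frequently_eq_zero (hpc n) hz0 hfr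
    intro k
    obtain ⟨m, hm⟩ := exists_nat_gt ‖k‖
    have hkm : k ∈ ball (0 : ℂ) ((m : ℝ) + 1) := by
      rw [mem_ball_zero_iff]
      linarith
    have e2 : ∀ᶠ z in 𝓝 (0 : ℂ), Φ m z = 0 := by
      have o1 : ∀ᶠ z in 𝓝 (0 : ℂ), z ∈ ball (0 : ℂ) ((n : ℝ) + 1) :=
        ball_mem_nhds _ (by positivity)
      have o2 : ∀ᶠ z in 𝓝 (0 : ℂ), z ∈ ball (0 : ℂ) ((m : ℝ) + 1) :=
        ball_mem_nhds _ (by positivity)
      filter_upwards [o1, o2] with z hz1 hz2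
      exact (hzz m z hz2).1 ((hzz n z hz1).2 (e1 hz1))
    have e3 : EqOn (Φ m) 0 (ball 0 ((m : ℝ) + 1)) :=
      (han m).eqOn_zero_of_preconnected_of_eventuallyEq_zero (hpc m)
        (mem_ball_self (by positivity)) e2
    exact (hzz m k hkm).2 (e3 hkm)
  · right
    have hcount : ∀ n : ℕ, {k : ℂ | k ∈ ball (0 : ℂ) ((n : ℝ) + 1) ∧ g k = 0}.Countable := by
      intro n
      set S : Set ℂ := {k : ℂ | k ∈ ball (0 : ℂ) ((n : ℝ) + 1) ∧ g k = 0} with hSdef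
      have hsing : ∀ x ∈ S, ({x} : Set ℂ) ∈ 𝓝[S] x := by
        intro x hx
        have e1 : ¬ ∃ᶠ z in 𝓝[≠] x, Φ n z = 0 := fun hfr => hcase ⟨n, x, hx.1, hfr⟩
        rw [not_frequently, eventually_nhdsWithin_iff] at e1
        rw [mem_nhdsWithin_iff_eventually]
        filter_upwards [e1] with z hz hzS
        by_contra hne
        exact hz hne ((hzz n z hzS.1).1 hzS.2)
      obtain ⟨t, _, htc, hts⟩ := TopologicalSpace.countable_cover_nhdsWithin hsing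
      refine htc.mono ?_
      intro x hx
      have := hts hx
      simp only [mem_iUnion, mem_singleton_iff] at this
      obtain ⟨y, hy, rfl⟩ := this
      exact hy
    refine (countable_iUnion hcount).mono ?_
    intro k hk
    obtain ⟨m, hm⟩ := exists_nat_gt ‖k‖
    refine mem_iUnion.2 ⟨m, ?_, hk⟩
    rw [mem_ball_zero_iff]
    linarith

end Cal
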