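import Pool.Agent.Lib.MP_4ea4c7_an.StmD

/-!
# Piece [CA J1b]: cutting off the corners
-/

open MeasureTheory Complex Metric Set Filter Topology
open scoped ComplexConjugate ENNReal NNReal

namespace Cal

noncomputable section

private lemma ccut_grc {φ : ℂ → ℝ} (hφ : RTF univ φ) : Continuous (gr φ) := by
  have h1 : Continuous (fderiv ℝ φ) := hφ.1.continuous_fderiv (by simp)
  have h2 : Continuous fun z => fderiv ℝ φ z 1 := h1.clm_apply continuous_const
  have h3 : Continuous fun z => fderiv ℝ φ z I := h1.clm_apply continuous_const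
  unfold gr
  exact (continuous_ofReal.comp h2).add (continuous_const.mul (continuous_ofReal.comp h3))

private lemma ccut_gr0 {φ : ℂ → ℝ} {z : ℂ} (hz : z ∉ tsupport φ) : gr φ z = 0 := by
  have h : fderiv ℝ φ z = 0 := by
    have h1 : z ∉ Function.support (fderiv ℝ φ) := fun h => hz (support_fderiv_subset ℝ h)
    simpa using h1
  unfold gr
  rw [h]
  simp

private lemma ccut_gr_mul {η φ : ℂ → ℝ} (hη : RTF univ η) (hφ : RTF univ φ) (z : ℂ) :
    gr φ z - gr (fun w => (1 - η w) * φ w) z = ((η z : ℝ) : ℂ) * gr φ z + ((φ z : ℝ) : ℂ) * gr η z := by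
  have d1 : DifferentiableAt ℝ η z := (hη.1.differentiable (by simp)) z
  have d2 : DifferentiableAt ℝ φ z := (hφ.1.differentiable (by simp)) z
  have h1 : HasFDerivAt (fun w => (1 - η w) * φ w) ((1 - η z) • fderiv ℝ φ z + φ z • (-fderiv ℝ η z)) z :=
    (d1.hasFDerivAt.const_sub 1).mul d2.hasFDerivAt
  unfold gr
  rw [h1.fderiv]
  simp only [_root_.add_apply, _root_.smul_apply, _root_.neg_apply,
    smul_eq_mul]
  push_cast
  ring

theorem piece_ccut (h1 : S_corner) : S_ccut := by
  intro Φ hΦ ε hε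
  -- bounds
  obtain ⟨M, hM⟩ : ∃ M : ℝ, ∀ z, ‖Φ z‖ ≤ M := hΦ.2.1.exists_bound_of_continuous hΦ.1.continuous
  have hgc : HasCompactSupport (gr Φ) := by
    refine HasCompactSupport.intro hΦ.2.1 ?_
    intro z hz
    exact ccut_gr0 hz
  obtain ⟨L, hL⟩ : ∃ L : ℝ, ∀ z, ‖gr Φ z‖ ≤ L := hgc.exists_bound_of_continuous (ccut_grc hΦ)
  have hM0 : 0 ≤ M := (norm_nonneg _).trans (hM 0)
  have hL0 : 0 ≤ L := (norm_nonneg _).trans (hL 0)
  obtain ⟨δ, hδ⟩ : ∃ δ : ℝ, δ = ε / (M + 3 * L + 1) := ⟨_, rfl⟩
  have hp : 0 < M + 3 * L + 1 := by linarith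
  have hδ0 : 0 < δ := by rw [hδ]; exact div_pos hε hp
  have hδe : M * δ + 3 * L * δ < ε := by
    have : δ * (M + 3 * L + 1) = ε := by rw [hδ]; exact div_mul_cancel₀ _ hp.ne'
    nlinarith
  obtain ⟨η, hη, hη1, hηp, hηm, hηs, hηn⟩ := h1 δ hδ0
  refine ⟨fun z => (1 - η z) * Φ z, ⟨?_, ?_, subset_univ _⟩, ?_, ?_, ?_, ?_, ?_⟩
  · exact (contDiff_const.sub hη.1).mul hΦ.1
  · exact hΦ.2.1.mul_left
  · filter_upwards [hηp] with z hz
    rw [hz]; ring
  · filter_upwards [hηm] with z hz
    rw [hz]; ring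
  · exact closure_mono fun z hz => by
      rw [Function.mem_support] at hz ⊢
      intro h0
      exact hz (by rw [h0, mul_zero])
  · intro z hz
    show (1 - η z) * Φ z = 0
    rw [hz, mul_zero]
  · have e1 : (fun z => gr Φ z - gr (fun w => (1 - η w) * Φ w) z)
        = (fun z => ((η z : ℝ) : ℂ) * gr Φ z) + (fun z => ((Φ z : ℝ) : ℂ) * gr η z) := by
      funext z
      exact ccut_gr_mul hη hΦ z
    rw [e1]
    have m1 : AEStronglyMeasurable (fun z => ((η z : ℝ) : ℂ) * gr Φ z) volume :=
      ((continuous_ofReal.comp hη.1.continuous).mul (ccut_grc hΦ)).aestronglyMeasurable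
    have m2 : AEStronglyMeasurable (fun z => ((Φ z : ℝ) : ℂ) * gr η z) volume :=
      ((continuous_ofReal.comp hΦ.1.continuous).mul (ccut_grc hη)).aestronglyMeasurable
    have n2 : eLpNorm (fun z => ((Φ z : ℝ) : ℂ) * gr η z) 2 volume ≤ ENNReal.ofReal (M * δ) := by
      have : eLpNorm (fun z => ((Φ z : ℝ) : ℂ) * gr η z) 2 volume ≤ ENNReal.ofReal M * eLpNorm (gr η) 2 volume := by
        refine eLpNorm_le_mul_eLpNorm_of_ae_le_mul (Eventually.of_forall fun z => ?_) 2
        rw [norm_mul, norm_real]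
        exact mul_le_mul_of_nonneg_right (hM z) (norm_nonneg _)
      refine this.trans ?_
      rw [ENNReal.ofReal_mul hM0]
      exact mul_le_mul_right hηn.le _
    have n1 : eLpNorm (fun z => ((η z : ℝ) : ℂ) * gr Φ z) 2 volume ≤ ENNReal.ofReal (3 * L * δ) := by
      have hS : MeasurableSet (closedBall (1 : ℂ) δ ∪ closedBall (-1 : ℂ) δ) :=
        isClosed_closedBall.measurableSet.union isClosed_closedBall.measurableSet
      have b1 : eLpNorm (fun z => ((η z : ℝ) : ℂ) * gr Φ z) 2 volume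
          ≤ eLpNorm (indicator (closedBall (1 : ℂ) δ ∪ closedBall (-1 : ℂ) δ) (fun _ => L)) 2 volume := by
        refine eLpNorm_mono fun z => ?_
        by_cases hz : z ∈ closedBall (1 : ℂ) δ ∪ closedBall (-1 : ℂ) δ
        · rw [indicator_of_mem hz, norm_mul, norm_real, Real.norm_of_nonneg hL0,
            Real.norm_of_nonneg (hη1 z).1]
          calc η z * ‖gr Φ z‖ ≤ 1 * L := mul_le_mul (hη1 z).2 (hL z) (norm_nonneg _) zero_le_one
            _ = L := one_mul _
        · rw [indicator_of_notMem hz]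
          have h2 : η z = 0 := by
            refine hηs z ?_ ?_
            · by_contra hcon
              exact hz (Or.inl (by rw [mem_closedBall, dist_eq_norm]; exact not_lt.mp hcon))
            · by_contra hcon
              exact hz (Or.inr (by rw [mem_closedBall, dist_eq_norm, sub_neg_eq_add]; exact not_lt.mp hcon))
          rw [h2]
          simp
      refine b1.trans ?_
      rw [eLpNorm_indicator_const hS (by norm_num) (by norm_num)]
      have v1 : volume (closedBall (1 : ℂ) δ ∪ closedBall (-1 : ℂ) δ) ≤ ENNReal.ofReal ((3 * δ) ^ 2) := by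
        refine (measure_union_le _ _).trans ?_
        rw [Complex.volume_closedBall, Complex.volume_closedBall]
        have hpi : ((NNReal.pi : NNReal) : ℝ≥0∞) = ENNReal.ofReal Real.pi := by
          rw [ENNReal.ofReal]
          congr 1
          ext
          simp [Real.pi_pos.le]
        rw [hpi, ← ENNReal.ofReal_pow hδ0.le, ← ENNReal.ofReal_mul (by positivity), ← ENNReal.ofReal_add (by positivity) (by positivity)]
        refine ENNReal.ofReal_le_ofReal ?_
        nlinarith [Real.pi_lt_d2, sq_nonneg δ, Real.pi_pos]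
      have v2 : volume (closedBall (1 : ℂ) δ ∪ closedBall (-1 : ℂ) δ) ^ (1 / (2 : ℝ≥0∞).toReal) ≤ ENNReal.ofReal (3 * δ) := by
        have h3 : (1 / (2 : ℝ≥0∞).toReal) = (1 / 2 : ℝ) := by simp
        rw [h3]
        refine (ENNReal.rpow_le_rpow v1 (by norm_num)).trans ?_
        rw [ENNReal.ofReal_rpow_of_nonneg (by positivity) (by norm_num), ← Real.sqrt_eq_rpow, Real.sqrt_sq (by positivity)]
      have h4 : ‖L‖ₑ = ENNReal.ofReal L := Real.enorm_of_nonneg hL0
      rw [h4]
      refine (mul_le_mul_right v2 _).trans ?_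
      rw [← ENNReal.ofReal_mul hL0]
      exact ENNReal.ofReal_le_ofReal (by nlinarith)
    refine (eLpNorm_add_le m1 m2 (by norm_num)).trans_lt ?_
    refine (add_le_add n1 n2).trans_lt ?_
    rw [← ENNReal.ofReal_add (by positivity) (by positivity)]
    exact (ENNReal.ofReal_lt_ofReal_iff hε).2 (by linarith)

end

end Cal
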