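import Pool.Agent.Lib.MP_4ea4c7_an.StmH4

/-!
# MP_4ea4c7_an, stage 2, piece [c4]: the identity in `k`
-/

open MeasureTheory Complex Metric Set Filter Topology
open scoped ComplexConjugate ENNReal NNReal

namespace Cal

noncomputable section

/-- the kernel `1/|ζ|` is integrable on discs -/
private lemma cid_kerI (R : ℝ) : ∫⁻ ζ in closedBall (0 : ℂ) R, ‖ζ‖ₑ⁻¹ ≤
    ENNReal.ofReal R * ENNReal.ofReal (2 * Real.pi) := by
  rw [← lintegral_indicator isClosed_closedBall.measurableSet,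
    ← Complex.lintegral_comp_polarCoord_symm]
  calc ∫⁻ p in polarCoord.target, ENNReal.ofReal p.1 •
        (closedBall (0 : ℂ) R).indicator (fun ζ => ‖ζ‖ₑ⁻¹) (Complex.polarCoord.symm p)
      ≤ ∫⁻ p in polarCoord.target,
          (Iic R ×ˢ (univ : Set ℝ)).indicator (fun _ => (1 : ℝ≥0∞)) p := by
        apply setLIntegral_mono' polarCoord.open_target.measurableSet
        intro p hp
        have hp1 : 0 < p.1 := by
          have : p ∈ Set.Ioi (0 : ℝ) ×ˢ Set.Ioo (-Real.pi) Real.pi := hp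
          exact this.1
        have hn : ‖Complex.polarCoord.symm p‖ = p.1 := by
          rw [Complex.norm_polarCoord_symm, abs_of_pos hp1]
        by_cases h : p.1 ≤ R
        · have h1 : p ∈ (Iic R ×ˢ (univ : Set ℝ)) := ⟨h, mem_univ _⟩
          rw [indicator_of_mem h1]
          have h2 : Complex.polarCoord.symm p ∈ closedBall (0 : ℂ) R := by
            rw [mem_closedBall, dist_zero_right, hn]; exact h
          rw [indicator_of_mem h2, ← ofReal_norm, hn, smul_eq_mul]
          exact ENNReal.mul_inv_le_one _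
        · have h2 : Complex.polarCoord.symm p ∉ closedBall (0 : ℂ) R := by
            rw [mem_closedBall, dist_zero_right, hn]; exact h
          rw [indicator_of_notMem h2, smul_zero]
          exact bot_le
    _ = volume ((Iic R ×ˢ (univ : Set ℝ)) ∩ polarCoord.target) := by
        rw [lintegral_indicator (measurableSet_Iic.prod MeasurableSet.univ), lintegral_const,
          one_mul, Measure.restrict_restrict (measurableSet_Iic.prod MeasurableSet.univ),
          Measure.restrict_apply MeasurableSet.univ, univ_inter]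
    _ ≤ volume (Ioc (0 : ℝ) R ×ˢ Ioo (-Real.pi) Real.pi) := by
        apply measure_mono
        rintro p ⟨h1, h2⟩
        have h3 : p ∈ Set.Ioi (0 : ℝ) ×ˢ Set.Ioo (-Real.pi) Real.pi := h2
        exact ⟨⟨h3.1, h1.1⟩, h3.2⟩
    _ = ENNReal.ofReal R * ENNReal.ofReal (2 * Real.pi) := by
        rw [Measure.volume_eq_prod, Measure.prod_prod, Real.volume_Ioc, Real.volume_Ioo]
        congr 2 <;> ring

/-- translated version -/
private lemma cid_kerI' (R : ℝ) (z : ℂ) : ∫⁻ ζ in closedBall z R, ‖z - ζ‖ₑ⁻¹ ≤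
    ENNReal.ofReal R * ENNReal.ofReal (2 * Real.pi) := by
  refine le_trans (le_of_eq ?_) (cid_kerI R)
  rw [← lintegral_indicator isClosed_closedBall.measurableSet,
    ← lintegral_indicator isClosed_closedBall.measurableSet]
  rw [← lintegral_sub_left_eq_self (μ := volume)
    (fun ζ => (closedBall (0 : ℂ) R).indicator (fun ζ => ‖ζ‖ₑ⁻¹) ζ) z]
  apply lintegral_congr
  intro ζ
  by_cases h : ζ ∈ closedBall z R
  · rw [indicator_of_mem h, indicator_of_mem]
    rw [mem_closedBall, dist_zero_right, ← dist_eq_norm, dist_comm]; exact h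
  · rw [indicator_of_notMem h, indicator_of_notMem]
    rw [mem_closedBall, dist_zero_right, ← dist_eq_norm, dist_comm]; exact h

private lemma cid_enorm (a b : ℂ) : ‖a / b‖ₑ ≤ ‖a‖ₑ * ‖b‖ₑ⁻¹ := by
  by_cases hb : b = 0
  · rw [hb]; simp
  · rw [div_eq_mul_inv, enorm_mul, enorm_inv hb]

private lemma cid_cs (w : ℂ → ℂ) (hs : ∀ z, 7 / 8 < ‖z‖ → w z = 0) : HasCompactSupport w := by
  refine HasCompactSupport.of_support_subset_isCompact (isCompact_closedBall (0 : ℂ) (7 / 8)) ?_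
  intro z hz
  by_contra hn
  rw [mem_closedBall, dist_zero_right, not_le] at hn
  exact hz (hs z hn)

private lemma cid_int (w : ℂ → ℂ) (hw : Continuous w) (hs : ∀ z, 7 / 8 < ‖z‖ → w z = 0) (z : ℂ) :
    Integrable (fun ζ => w ζ / (z - ζ)) volume := by
  obtain ⟨M, hM⟩ := (cid_cs w hs).exists_bound_of_continuous hw
  refine ⟨?_, ?_⟩
  · simp only [div_eq_mul_inv]
    exact hw.aestronglyMeasurable.mul
      (measurable_const.sub measurable_id).inv.aestronglyMeasurable
  · refine lt_of_le_of_lt (b := ENNReal.ofReal M * (ENNReal.ofReal (‖z‖ + 1) *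
      ENNReal.ofReal (2 * Real.pi))) ?_ (ENNReal.mul_lt_top ENNReal.ofReal_lt_top
        (ENNReal.mul_lt_top ENNReal.ofReal_lt_top ENNReal.ofReal_lt_top))
    refine le_trans ?_ (mul_le_mul' le_rfl (cid_kerI' (‖z‖ + 1) z))
    rw [← lintegral_const_mul' _ _ ENNReal.ofReal_ne_top,
      ← lintegral_indicator isClosed_closedBall.measurableSet]
    apply lintegral_mono
    intro ζ
    simp only
    refine le_trans (cid_enorm _ _) ?_
    by_cases h : ζ ∈ closedBall z (‖z‖ + 1)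
    · rw [indicator_of_mem h]
      apply mul_le_mul' _ le_rfl
      rw [← ofReal_norm]
      exact ENNReal.ofReal_le_ofReal (hM ζ)
    · have : w ζ = 0 := by
        apply hs
        rw [mem_closedBall, dist_eq_norm, not_le] at h
        have := norm_sub_le ζ z
        linarith
      rw [this]; simp

private lemma cid_add (w w' : ℂ → ℂ) (hw : Continuous w) (hs : ∀ z, 7 / 8 < ‖z‖ → w z = 0)
    (hw' : Continuous w') (hs' : ∀ z, 7 / 8 < ‖z‖ → w' z = 0) (z : ℂ) :
    Ct (fun ζ => w ζ + w' ζ) z = Ct w z + Ct w' z := by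
  unfold Ct
  simp only [add_div]
  rw [integral_add (cid_int w hw hs z) (cid_int w' hw' hs' z)]
  ring

private lemma cid_smul (w : ℂ → ℂ) (c z : ℂ) : Ct (fun ζ => c * w ζ) z = c * Ct w z := by
  unfold Ct
  simp only [mul_div_assoc]
  rw [integral_const_mul]
  ring

private lemma cid_z (w : ℂ → ℂ) (hw : Continuous w) (hs : ∀ z, 7 / 8 < ‖z‖ → w z = 0) (z : ℂ) :
    z * Ct w z = Ct (fun ζ => ζ * w ζ) z + (1 / (Real.pi : ℂ)) * ∫ ζ, w ζ := by
  have hi : Integrable w volume := hw.integrable_of_hasCompactSupport (cid_cs w hs)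
  have hi2 : Integrable (fun ζ => (ζ * w ζ) / (z - ζ)) volume :=
    cid_int (fun ζ => ζ * w ζ) (continuous_id.mul hw) (fun z hz => by rw [hs z hz, mul_zero]) z
  have e1 : ∫ ζ, z * (w ζ / (z - ζ)) = ∫ ζ, ((ζ * w ζ) / (z - ζ) + w ζ) := by
    refine integral_congr_ae ?_
    have : ∀ᵐ ζ : ℂ ∂volume, ζ ≠ z := by
      rw [ae_iff]
      simp
    filter_upwards [this] with ζ hζ
    have : z - ζ ≠ 0 := sub_ne_zero.mpr (Ne.symm hζ)
    field_simp
    ring
  rw [integral_const_mul, integral_add hi2 hi] at e1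
  unfold Ct
  linear_combination (1 / (Real.pi : ℂ)) * e1

private lemma cid_ek (k z : ℂ) : ‖ek k z‖ = 1 := by
  unfold ek
  rw [Complex.norm_exp]
  have : (-(I * (k * z + conj (k * z)))).re = 0 := by
    simp
    ring
  rw [this, Real.exp_zero]

private lemma cid_lin (x y : ℂ) (w w' : ℂ → ℂ) (hw : Continuous w)
    (hs : ∀ z, 7 / 8 < ‖z‖ → w z = 0) (hw' : Continuous w') (hs' : ∀ z, 7 / 8 < ‖z‖ → w' z = 0)
    (z : ℂ) : Ct (fun ζ => x * w ζ + y * w' ζ) z = x * Ct w z + y * Ct w' z := by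
  rw [cid_add (fun ζ => x * w ζ) (fun ζ => y * w' ζ) (continuous_const.mul hw)
    (fun z hz => by rw [hs z hz, mul_zero]) (continuous_const.mul hw')
    (fun z hz => by rw [hs' z hz, mul_zero]), cid_smul, cid_smul]

private lemma cid_comb (w1 w2 w3 w4 : ℂ → ℂ)
    (c1 : Continuous w1) (z1 : ∀ z, 7 / 8 < ‖z‖ → w1 z = 0)
    (c2 : Continuous w2) (z2 : ∀ z, 7 / 8 < ‖z‖ → w2 z = 0)
    (c3 : Continuous w3) (z3 : ∀ z, 7 / 8 < ‖z‖ → w3 z = 0)
    (c4 : Continuous w4) (z4 : ∀ z, 7 / 8 < ‖z‖ → w4 z = 0) (z : ℂ) :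
    Ct (fun ζ => (I * w1 ζ + (-1) * w2 ζ) + (w3 ζ + w4 ζ)) z =
      I * Ct w1 z - Ct w2 z + Ct w3 z + Ct w4 z := by
  rw [cid_add (fun ζ => I * w1 ζ + (-1) * w2 ζ) (fun ζ => w3 ζ + w4 ζ)
    ((continuous_const.mul c1).add (continuous_const.mul c2))
    (fun z hz => by rw [z1 z hz, z2 z hz]; ring) (c3.add c4)
    (fun z hz => by rw [z3 z hz, z4 z hz]; ring), cid_lin I (-1) w1 w2 c1 z1 c2 z2,
    cid_add w3 w4 c3 z3 c4 z4]
  ring

theorem piece_cid (h1 : S_csolve) (_h2 : S_C4) : S_cid := by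
  intro a b c N N1 N2 N' N1' N2' E E' ha hb hs hN hN' hE hE' hc1 hc2 e1 e2 z k
  have hek : Continuous (fun ζ => ek k ζ) := by
    unfold ek
    fun_prop
  have hsa : ∀ z, 7 / 8 < ‖z‖ → a z = 0 := fun z hz => (hs z hz).1
  have hsb : ∀ z, 7 / 8 < ‖z‖ → b z = 0 := fun z hz => (hs z hz).2
  obtain ⟨Ma, hMa⟩ := (cid_cs a hsa).exists_bound_of_continuous ha
  obtain ⟨Mb, hMb⟩ := (cid_cs b hsb).exists_bound_of_continuous hb
  have hkc : Continuous (fun ζ : ℂ => (ζ, k)) := by fun_prop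
  have cN : Continuous (fun ζ => N ζ k) := hN.cont.comp hkc
  have cN' : Continuous (fun ζ => N' ζ k) := hN'.cont.comp hkc
  have cE : Continuous (fun ζ => E ζ k) := hE.cont.comp hkc
  have cE' : Continuous (fun ζ => E' ζ k) := hE'.cont.comp hkc
  have cN1 : Continuous (fun ζ => N1 ζ k) := hc1.comp hkc
  have cN2 : Continuous (fun ζ => N2' ζ k) := hc2.comp hkc
  have hcj : Continuous (conj : ℂ → ℂ) := Complex.continuous_conj
  -- the general source term
  have cont1 : ∀ n : ℂ → ℂ, Continuous n →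
      Continuous (fun ζ => a ζ * n ζ + b ζ * ek k ζ * conj (n ζ)) := fun n hn =>
    (ha.mul hn).add ((hb.mul hek).mul (hcj.comp hn))
  have zero1 : ∀ n : ℂ → ℂ, ∀ z, 7 / 8 < ‖z‖ → a z * n z + b z * ek k z * conj (n z) = 0 := by
    intro n z hz
    rw [hsa z hz, hsb z hz]
    ring
  set τ : ℂ := I * an a b N k - an a b N' k with hτ
  set P : ℂ → ℂ := fun z => I * z * N z k - z * N' z k + N1 z k + N2' z k with hP
  set Q : ℂ → ℂ := fun z => (τ.re : ℂ) * E z k + (τ.im : ℂ) * E' z k with hQ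
  have hPc : Continuous P := by
    rw [hP]
    exact (((continuous_const.mul continuous_id).mul cN).sub (continuous_id.mul cN')).add cN1 |>.add cN2
  have hQc : Continuous Q := (continuous_const.mul cE).add (continuous_const.mul cE')
  have eqP : ∀ z, P z = τ + Ct (fun ζ => a ζ * P ζ + (b ζ * ek k ζ) * conj (P ζ)) z := by
    intro z
    have f1 := cid_z _ (cont1 _ cN) (zero1 (fun ζ => N ζ k)) z
    have f2 := cid_z _ (cont1 _ cN') (zero1 (fun ζ => N' ζ k)) z
    have g1 := hN.eq z k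
    have g2 := hN'.eq z k
    have hh : (fun ζ => a ζ * P ζ + (b ζ * ek k ζ) * conj (P ζ)) =
        fun ζ => (I * (ζ * (a ζ * N ζ k + b ζ * ek k ζ * conj (N ζ k))) +
          (-1) * (ζ * (a ζ * N' ζ k + b ζ * ek k ζ * conj (N' ζ k)))) +
          ((a ζ * N1 ζ k + b ζ * ek k ζ * conj (N1 ζ k) - I * (ζ + conj ζ) * b ζ * ek k ζ * conj (N ζ k)) +
          (a ζ * N2' ζ k + b ζ * ek k ζ * conj (N2' ζ k) + (ζ - conj ζ) * b ζ * ek k ζ * conj (N' ζ k))) := by
      funext ζ
      simp only [hP, map_add, map_sub, map_mul, conj_I]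
      ring
    have c1 : Continuous (fun ζ => ζ * (a ζ * N ζ k + b ζ * ek k ζ * conj (N ζ k))) :=
      continuous_id.mul (cont1 _ cN)
    have c2 : Continuous (fun ζ => ζ * (a ζ * N' ζ k + b ζ * ek k ζ * conj (N' ζ k))) :=
      continuous_id.mul (cont1 _ cN')
    have z1 : ∀ z, 7 / 8 < ‖z‖ → z * (a z * N z k + b z * ek k z * conj (N z k)) = 0 := by
      intro z hz
      rw [zero1 (fun ζ => N ζ k) z hz, mul_zero]
    have z2 : ∀ z, 7 / 8 < ‖z‖ → z * (a z * N' z k + b z * ek k z * conj (N' z k)) = 0 := by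
      intro z hz
      rw [zero1 (fun ζ => N' ζ k) z hz, mul_zero]
    have c3 : Continuous (fun ζ => a ζ * N1 ζ k + b ζ * ek k ζ * conj (N1 ζ k) -
        I * (ζ + conj ζ) * b ζ * ek k ζ * conj (N ζ k)) :=
      (cont1 _ cN1).sub ((((continuous_const.mul (continuous_id.add hcj)).mul hb).mul hek).mul
        (hcj.comp cN))
    have c4 : Continuous (fun ζ => a ζ * N2' ζ k + b ζ * ek k ζ * conj (N2' ζ k) +
        (ζ - conj ζ) * b ζ * ek k ζ * conj (N' ζ k)) :=
      (cont1 _ cN2).add ((((continuous_id.sub hcj).mul hb).mul hek).mul (hcj.comp cN'))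
    have z3 : ∀ z, 7 / 8 < ‖z‖ → a z * N1 z k + b z * ek k z * conj (N1 z k) -
        I * (z + conj z) * b z * ek k z * conj (N z k) = 0 := by
      intro z hz
      rw [hsa z hz, hsb z hz]
      ring
    have z4 : ∀ z, 7 / 8 < ‖z‖ → a z * N2' z k + b z * ek k z * conj (N2' z k) +
        (z - conj z) * b z * ek k z * conj (N' z k) = 0 := by
      intro z hz
      rw [hsa z hz, hsb z hz]
      ring
    rw [hh, cid_comb _ _ _ _ c1 z1 c2 z2 c3 z3 c4 z4 z, ← e1 z k, ← e2 z k]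
    simp only [hP, hτ, an]
    linear_combination (I * z) * g1 - z * g2 + I * f1 - f2
  have eqQ : ∀ z, Q z = τ + Ct (fun ζ => a ζ * Q ζ + (b ζ * ek k ζ) * conj (Q ζ)) z := by
    intro z
    have g1 := hE.eq z k
    have g2 := hE'.eq z k
    have hh : (fun ζ => a ζ * Q ζ + (b ζ * ek k ζ) * conj (Q ζ)) =
        fun ζ => (τ.re : ℂ) * (a ζ * E ζ k + b ζ * ek k ζ * conj (E ζ k)) +
          (τ.im : ℂ) * (a ζ * E' ζ k + b ζ * ek k ζ * conj (E' ζ k)) := by
      funext ζ
      simp only [hQ, map_add, map_mul, conj_ofReal]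
      ring
    rw [hh, cid_lin (τ.re : ℂ) (τ.im : ℂ) _ _ (cont1 _ cE) (zero1 (fun ζ => E ζ k)) (cont1 _ cE')
      (zero1 (fun ζ => E' ζ k)) z]
    simp only [hQ]
    have e := Complex.re_add_im τ
    linear_combination (τ.re : ℂ) * g1 + (τ.im : ℂ) * g2 + e
  have hM0 : 0 ≤ max Ma Mb := le_trans (norm_nonneg (a 0)) ((hMa 0).trans (le_max_left _ _))
  have hfin := (h1 (max Ma Mb) hM0 a (fun ζ => b ζ * ek k ζ) ha.measurable
    (hb.mul hek).measurable
    (fun z => ⟨(hMa z).trans (le_max_left _ _), by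
      rw [norm_mul, cid_ek, mul_one]; exact (hMb z).trans (le_max_right _ _)⟩)
    (fun z hz => by
      have hz' : 7 / 8 < ‖z‖ := by linarith
      exact ⟨hsa z hz', by rw [hsb z hz', zero_mul]⟩)).2 (fun _ => τ) P Q hPc hQc eqP eqQ z
  exact hfin

end

end Cal
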