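import Pool.Agent.Lib.MP_4ea4c7_an.Stm2

set_option autoImplicit false

/-! Convergence of the functions `f_{m,n}`. -/

open MeasureTheory Complex Metric Set Filter Topology
open scoped ComplexConjugate ENNReal NNReal

namespace Cal

theorem piece_conv (h1 : S_sub) (h2 : S_funq) : S_conv := by
  intro κ hκ0 hκ1 μ hμ μk hμk hlim m n fk dk f d hk hf K hK
  rcases Nat.eq_zero_or_pos (m + n) with h0 | h0
  · have hm : m = 0 := by omega
    have hn : n = 0 := by omega
    subst hm hn
    have e1 : ∀ z, f z = 1 := fun z => by rw [hf.eq]; simp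
    have e2 : ∀ k z, fk k z = 1 := fun k z => by rw [(hk k).eq]; simp
    rw [Metric.tendstoUniformlyOn_iff]
    intro ε hε
    exact Eventually.of_forall fun k x _ => by rw [e1, e2, dist_self]; exact hε
  have hd : TendstoUniformly dk d atTop := by
    rw [Metric.tendstoUniformly_iff]
    intro ε hε
    by_contra hcon
    rw [Filter.not_eventually] at hcon
    obtain ⟨φ, hφ, hφ2⟩ := Filter.extraction_of_frequently_atTop hcon
    obtain ⟨φ', f', h, hφ', hF, hU⟩ := h1 κ hκ0 hκ1 μ hμ (fun k => μk (φ k)) (fun k => hμk _)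
      (hlim.mono fun z hz => hz.comp hφ.tendsto_atTop) m n (fun k => fk (φ k))
      (fun k => dk (φ k)) h0 (fun k => hk _)
    have hdh : ∀ z, d z = h z := (h2 κ hκ0 hκ1 μ hμ m n f d f' h hf hF).2 h0
    rw [Metric.tendstoUniformly_iff] at hU
    obtain ⟨k, hk2⟩ := (hU ε hε).exists
    exact hφ2 (φ' k) (fun x => by rw [hdh]; exact hk2 x)
  have hcont : ContinuousOn f K := hf.pn.cont.continuousOn
  obtain ⟨C, hC⟩ := hK.exists_bound_of_continuousOn hcont
  rw [Metric.tendstoUniformly_iff] at hd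
  rw [Metric.tendstoUniformlyOn_iff]
  intro ε hε
  have hN : (0 : ℝ) < (m + n : ℕ) := by exact_mod_cast h0
  set c : ℝ := |C| + 1 with hc
  have hc0 : 0 < c := by positivity
  set η : ℝ := min (1 / (m + n : ℕ)) (ε / (4 * c * (m + n : ℕ))) with hη
  have hη0 : 0 < η := lt_min (by positivity) (by positivity)
  filter_upwards [hd η hη0] with k hk1 z hz
  have hw : ‖((m + n : ℕ) : ℂ) * (dk k z - d z)‖ ≤ (m + n : ℕ) * η := by
    rw [norm_mul, Complex.norm_natCast]
    apply mul_le_mul_of_nonneg_left _ hN.le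
    rw [← dist_eq_norm, dist_comm]
    exact (hk1 z).le
  have hw1 : ‖((m + n : ℕ) : ℂ) * (dk k z - d z)‖ ≤ 1 := by
    refine hw.trans ?_
    have h3 : η ≤ 1 / (m + n : ℕ) := min_le_left _ _
    rw [le_div_iff₀ hN] at h3
    linarith
  have hw2 : (m + n : ℕ) * η ≤ ε / (4 * c) := by
    have h3 : η ≤ ε / (4 * c * (m + n : ℕ)) := min_le_right _ _
    calc ((m + n : ℕ) : ℝ) * η ≤ (m + n : ℕ) * (ε / (4 * c * (m + n : ℕ))) :=
          mul_le_mul_of_nonneg_left h3 hN.le
      _ = ε / (4 * c) := by field_simp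
  have h3 := Complex.norm_exp_sub_one_le hw1
  have h4 : fk k z - f z = f z * (exp (((m + n : ℕ) : ℂ) * (dk k z - d z)) - 1) := by
    rw [(hk k).eq z, hf.eq z, mul_sub ((m + n : ℕ) : ℂ), Complex.exp_sub]
    have h5 := Complex.exp_ne_zero (((m + n : ℕ) : ℂ) * d z)
    field_simp
  have h6 : ‖f z‖ ≤ c := (hC z hz).trans ((le_abs_self C).trans (by linarith))
  rw [dist_comm, dist_eq_norm, h4, norm_mul]
  calc ‖f z‖ * ‖exp (((m + n : ℕ) : ℂ) * (dk k z - d z)) - 1‖
      ≤ c * (2 * (ε / (4 * c))) :=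
        mul_le_mul h6 (h3.trans (mul_le_mul_of_nonneg_left (hw.trans hw2) (by norm_num)))
          (norm_nonneg _) hc0.le
    _ = ε / 2 := by
        field_simp
        norm_num
    _ < ε := half_lt_self hε

end Cal
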