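import Pool.Agent.Lib.MP_4ea4c7_an.StmD

/-!
# [CA J8] The core theorem in the half disc
-/

open MeasureTheory Complex Metric Set Filter Topology
open scoped ComplexConjugate ENNReal NNReal

namespace Cal

noncomputable section

private lemma core_gr_cont {φ : ℂ → ℝ} (h : RTF univ φ) : Continuous (gr φ) := by
  have h1 : Continuous (fderiv ℝ φ) := h.1.continuous_fderiv (by simp)
  have h2 : Continuous fun z => fderiv ℝ φ z 1 := h1.clm_apply continuous_const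
  have h3 : Continuous fun z => fderiv ℝ φ z I := h1.clm_apply continuous_const
  unfold gr
  exact (continuous_ofReal.comp h2).add (continuous_const.mul (continuous_ofReal.comp h3))

private lemma core_gr_supp {φ : ℂ → ℝ} (h : RTF univ φ) : HasCompactSupport (gr φ) := by
  have h1 : HasCompactSupport (fderiv ℝ φ) := h.2.1.fderiv (𝕜 := ℝ)
  refine h1.mono ?_
  intro z hz
  rw [Function.mem_support] at hz ⊢
  intro h0
  apply hz
  simp [gr, h0]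

private lemma core_gr_mem {φ : ℂ → ℝ} (h : RTF univ φ) : MemLp (gr φ) 2 volume :=
  (core_gr_cont h).memLp_of_hasCompactSupport (core_gr_supp h)

private lemma core_ev {φ : ℂ → ℝ} (h : EvTF φ) : RTF univ φ := ⟨h.tf.1, h.tf.2.1, subset_univ _⟩

private lemma core_cond {κ : ℝ} (h0 : 0 ≤ κ) (h1 : κ < 1) {μ : ℂ → ℝ} (hμ : Mu κ 1 μ) :
    Cond ((1 - κ) / (1 + κ)) ((1 + κ) / (1 - κ)) (gam μ) := by
  have hb : ∀ z, -κ ≤ μ z ∧ μ z ≤ κ := fun z => abs_le.1 (hμ.bd z)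
  refine ⟨?_, ?_, ?_⟩
  · unfold gam
    exact (measurable_const.add hμ.meas).div (measurable_const.sub hμ.meas)
  · intro z
    obtain ⟨ha, hc⟩ := hb z
    unfold gam
    rw [div_le_div_iff₀ (by linarith) (by linarith)]
    nlinarith
  · intro z
    obtain ⟨ha, hc⟩ := hb z
    unfold gam
    rw [div_le_div_iff₀ (by linarith) (by linarith)]
    nlinarith

private lemma core_HB_open : IsOpen HB := by
  have : HB = {z : ℂ | ‖z‖ < 1} ∩ {z : ℂ | 0 < z.im} := rfl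
  rw [this]
  exact (isOpen_lt continuous_norm continuous_const).inter (isOpen_lt continuous_const continuous_im)

private lemma core_small {x K a : ℝ} (hK : 0 ≤ K) (ha : 0 ≤ a)
    (h : ∀ ε : ℝ, 0 < ε → |x| ≤ K * ε * a) : x = 0 := by
  have h2 : |x| ≤ 0 := by
    refine le_of_forall_pos_le_add fun δ hδ => ?_
    have hpos : 0 < K * a + 1 := by positivity
    have h3 := h (δ / (K * a + 1)) (by positivity)
    have h4 : K * (δ / (K * a + 1)) * a ≤ δ := by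
      have : K * (δ / (K * a + 1)) * a = δ * ((K * a) / (K * a + 1)) := by ring
      rw [this]
      have h5 : (K * a) / (K * a + 1) ≤ 1 := by
        rw [div_le_one hpos]; linarith
      calc δ * ((K * a) / (K * a + 1)) ≤ δ * 1 := by
            exact mul_le_mul_of_nonneg_left h5 hδ.le
        _ = δ := mul_one δ
    linarith
  exact abs_eq_zero.1 (le_antisymm h2 (abs_nonneg x))

theorem piece_core (h1 : S_ccut) (h2 : S_dec) (h3 : S_E3) (h4 : S_52) (h5 : S_bb) : S_core := by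
  intro κ hκ0 hκ1 μ₁ μ₂ hμ₁ hμ₂ hyp hpo hle
  have hc : 0 < (1 - κ) / (1 + κ) := by
    apply div_pos <;> linarith
  obtain ⟨hadd, _, hsymm, ⟨K, hK0, hK⟩, _, hBeq, hae⟩ :=
    h5 HB ((1 - κ) / (1 + κ)) ((1 + κ) / (1 - κ)) (gam μ₁) (gam μ₂) core_HB_open hc
      (core_cond hκ0 hκ1 hμ₁) (core_cond hκ0 hκ1 hμ₂)
  have memR : ∀ {φ : ℂ → ℝ}, RTF univ φ → MemLp (gr φ) 2 (volume.restrict HB) :=
    fun h => (core_gr_mem h).restrict _
  -- additivity in the second variable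
  have hadd2 : ∀ G H H', MemLp G 2 (volume.restrict HB) → MemLp H 2 (volume.restrict HB) →
      MemLp H' 2 (volume.restrict HB) →
      bb HB (gam μ₁) (gam μ₂) G (fun z => H z + H' z) =
        bb HB (gam μ₁) (gam μ₂) G H + bb HB (gam μ₁) (gam μ₂) G H' := by
    intro G H H' hG hH hH'
    rw [hsymm G (fun z => H z + H' z) hG (hH.add hH'), hadd H H' G hH hH' hG, hsymm H G hH hG,
      hsymm H' G hH' hG]
  -- both functions vanish near the corners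
  have step0 : ∀ Φ Ψ : ℂ → ℝ, RTF univ Φ → RTF univ Ψ → (∀ᶠ z in 𝓝 (1 : ℂ), Φ z = 0) →
      (∀ᶠ z in 𝓝 (-1 : ℂ), Φ z = 0) → (∀ᶠ z in 𝓝 (1 : ℂ), Ψ z = 0) →
      (∀ᶠ z in 𝓝 (-1 : ℂ), Ψ z = 0) → bh μ₁ μ₂ (gr Φ) (gr Ψ) = 0 := by
    intro Φ Ψ hΦ hΨ a1 a2 b1 b2
    obtain ⟨φ, Φ₂, H, hφ, hH, e1, -, -⟩ := h2 Φ hΦ a1 a2
    obtain ⟨ψ, Ψ₂, H', hψ, hH', e2, -, -⟩ := h2 Ψ hΨ b1 b2
    have mφ := memR (core_ev hφ)
    have mψ := memR (core_ev hψ)
    have mH : MemLp H 2 (volume.restrict HB) := hH.mem.restrict _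
    have mH' : MemLp H' 2 (volume.restrict HB) := hH'.mem.restrict _
    have E1 : gr Φ =ᵐ[volume.restrict HB] fun z => gr φ z + H z :=
      (ae_restrict_iff' core_HB_open.measurableSet).2 (Eventually.of_forall fun z hz => e1 z hz)
    have E2 : gr Ψ =ᵐ[volume.restrict HB] fun z => gr ψ z + H' z :=
      (ae_restrict_iff' core_HB_open.measurableSet).2 (Eventually.of_forall fun z hz => e2 z hz)
    have z1 : bb HB (gam μ₁) (gam μ₂) (gr φ) (gr ψ) = 0 :=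
      h3 κ hκ0 hκ1 μ₁ μ₂ hμ₁ hμ₂ hyp hpo hle φ ψ hφ hψ
    have z2 : bb HB (gam μ₁) (gam μ₂) (gr φ) H' = 0 :=
      h4 κ hκ0 hκ1 μ₁ μ₂ hμ₁ hμ₂ hyp hpo φ Ψ₂ H' hφ hH'
    have z3 : bb HB (gam μ₁) (gam μ₂) H (gr ψ) = 0 := by
      rw [hsymm H (gr ψ) mH mψ]
      exact h4 κ hκ0 hκ1 μ₁ μ₂ hμ₁ hμ₂ hyp hpo ψ Φ₂ H hψ hH
    have z4 : bb HB (gam μ₁) (gam μ₂) H H' = 0 :=
      (hBeq H H' mH mH').1 (hyp Φ₂ H Ψ₂ H' hH hH')
    show bb HB (gam μ₁) (gam μ₂) (gr Φ) (gr Ψ) = 0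
    rw [(hae (gr Φ) _ (gr Ψ) E1).1, (hae (gr Ψ) _ (fun z => gr φ z + H z) E2).2,
      hadd2 (fun z => gr φ z + H z) _ _ (mφ.add mH) mψ mH', hadd (gr φ) H (gr ψ) mφ mH mψ, hadd (gr φ) H H' mφ mH mH',
      z1, z2, z3, z4]
    norm_num
  -- `L²` norm of the difference on the half disc
  have nrm : ∀ {Φ Φ' : ℂ → ℝ} {ε : ℝ}, 0 < ε →
      eLpNorm (fun z => gr Φ z - gr Φ' z) 2 volume < ENNReal.ofReal ε →
      (eLpNorm (fun z => gr Φ z - gr Φ' z) 2 (volume.restrict HB)).toReal ≤ ε := by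
    intro Φ Φ' ε hε h
    have h6 : eLpNorm (fun z => gr Φ z - gr Φ' z) 2 (volume.restrict HB) ≤ ENNReal.ofReal ε :=
      (eLpNorm_mono_measure _ Measure.restrict_le_self).trans h.le
    calc _ ≤ (ENNReal.ofReal ε).toReal := ENNReal.toReal_mono ENNReal.ofReal_ne_top h6
      _ = ε := ENNReal.toReal_ofReal hε.le
  -- `Φ` vanishes near the corners
  have step1 : ∀ Φ Ψ : ℂ → ℝ, RTF univ Φ → RTF univ Ψ → (∀ᶠ z in 𝓝 (1 : ℂ), Φ z = 0) →
      (∀ᶠ z in 𝓝 (-1 : ℂ), Φ z = 0) → bb HB (gam μ₁) (gam μ₂) (gr Φ) (gr Ψ) = 0 := by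
    intro Φ Ψ hΦ hΨ a1 a2
    refine core_small hK0 (ENNReal.toReal_nonneg (a := eLpNorm (gr Φ) 2 (volume.restrict HB)))
      fun ε hε => ?_
    obtain ⟨Ψ', hΨ', b1, b2, -, -, hn⟩ := h1 Ψ hΨ ε hε
    have mD : MemLp (fun z => gr Ψ z - gr Ψ' z) 2 (volume.restrict HB) := (memR hΨ).sub (memR hΨ')
    have e : gr Ψ = fun z => gr Ψ' z + (gr Ψ z - gr Ψ' z) := by
      funext z; ring
    have e' : bb HB (gam μ₁) (gam μ₂) (gr Φ) (gr Ψ) =
        bb HB (gam μ₁) (gam μ₂) (gr Φ) (fun z => gr Ψ z - gr Ψ' z) := by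
      have := hadd2 (gr Φ) (gr Ψ') (fun z => gr Ψ z - gr Ψ' z) (memR hΦ) (memR hΨ') mD
      rw [← e] at this
      rw [this]
      have h0 : bb HB (gam μ₁) (gam μ₂) (gr Φ) (gr Ψ') = 0 := step0 Φ Ψ' hΦ hΨ' a1 a2 b1 b2
      rw [h0, zero_add]
    rw [e']
    calc |bb HB (gam μ₁) (gam μ₂) (gr Φ) (fun z => gr Ψ z - gr Ψ' z)|
        ≤ K * (eLpNorm (gr Φ) 2 (volume.restrict HB)).toReal *
          (eLpNorm (fun z => gr Ψ z - gr Ψ' z) 2 (volume.restrict HB)).toReal :=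
          hK _ _ (memR hΦ) mD
      _ ≤ K * (eLpNorm (gr Φ) 2 (volume.restrict HB)).toReal * ε :=
          mul_le_mul_of_nonneg_left (nrm hε hn) (mul_nonneg hK0 ENNReal.toReal_nonneg)
      _ = K * ε * (eLpNorm (gr Φ) 2 (volume.restrict HB)).toReal := by ring
  intro Φ Ψ hΦ hΨ
  show bb HB (gam μ₁) (gam μ₂) (gr Φ) (gr Ψ) = 0
  refine core_small hK0 (ENNReal.toReal_nonneg (a := eLpNorm (gr Ψ) 2 (volume.restrict HB)))
    fun ε hε => ?_
  obtain ⟨Φ', hΦ', b1, b2, -, -, hn⟩ := h1 Φ hΦ ε hε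
  have mD : MemLp (fun z => gr Φ z - gr Φ' z) 2 (volume.restrict HB) := (memR hΦ).sub (memR hΦ')
  have e : gr Φ = fun z => gr Φ' z + (gr Φ z - gr Φ' z) := by
    funext z; ring
  have e' : bb HB (gam μ₁) (gam μ₂) (gr Φ) (gr Ψ) =
      bb HB (gam μ₁) (gam μ₂) (fun z => gr Φ z - gr Φ' z) (gr Ψ) := by
    have := hadd (gr Φ') (fun z => gr Φ z - gr Φ' z) (gr Ψ) (memR hΦ') mD (memR hΨ)
    rw [← e] at this
    rw [this, step1 Φ' Ψ hΦ' hΨ b1 b2, zero_add]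
  rw [e']
  calc |bb HB (gam μ₁) (gam μ₂) (fun z => gr Φ z - gr Φ' z) (gr Ψ)|
      ≤ K * (eLpNorm (fun z => gr Φ z - gr Φ' z) 2 (volume.restrict HB)).toReal *
        (eLpNorm (gr Ψ) 2 (volume.restrict HB)).toReal := hK _ _ mD (memR hΨ)
    _ ≤ K * ε * (eLpNorm (gr Ψ) 2 (volume.restrict HB)).toReal :=
        mul_le_mul_of_nonneg_right (mul_le_mul_of_nonneg_left (nrm hε hn) hK0)
          ENNReal.toReal_nonneg

end

end Cal
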