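import Pool.Agent.Lib.MP_4ea4c7_an.StmD

/-! Piece J1: corner cutoffs (points have zero capacity in the plane). -/

open MeasureTheory Complex Metric Set Filter Topology
open scoped ComplexConjugate ENNReal NNReal

namespace Cal

/-- the basic bump function -/
private noncomputable def cnB (w : ℂ) : ℝ := Real.smoothTransition (2 - ‖w‖ ^ 2)

private lemma cn_smooth : ContDiff ℝ (⊤ : ℕ∞) cnB :=
  Real.smoothTransition.contDiff.comp (contDiff_const.sub (contDiff_norm_sq ℝ))

private lemma cn_one {w : ℂ} (h : ‖w‖ ≤ 1) : cnB w = 1 := by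
  apply Real.smoothTransition.one_of_one_le
  nlinarith [norm_nonneg w]

private lemma cn_zero {w : ℂ} (h : 2 ≤ ‖w‖ ^ 2) : cnB w = 0 := by
  apply Real.smoothTransition.zero_of_nonpos
  linarith

private lemma cn_gr {w : ℂ} (h : gr cnB w ≠ 0) : 1 ≤ ‖w‖ ∧ ‖w‖ ^ 2 ≤ 2 := by
  constructor
  · by_contra hlt
    rw [not_le] at hlt
    apply h
    have hev : cnB =ᶠ[𝓝 w] fun _ => (1 : ℝ) := by
      filter_upwards [(isOpen_lt continuous_norm continuous_const).mem_nhds hlt] with z hz
      exact cn_one (le_of_lt hz)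
    unfold gr
    rw [hev.fderiv_eq]
    simp
  · by_contra hlt
    rw [not_le] at hlt
    apply h
    have hev : cnB =ᶠ[𝓝 w] fun _ => (0 : ℝ) := by
      filter_upwards [(isOpen_lt continuous_const (continuous_norm.pow 2)).mem_nhds hlt] with z hz
      exact cn_zero (le_of_lt hz)
    unfold gr
    rw [hev.fderiv_eq]
    simp

private lemma cn_bound : ∃ C : ℝ, 0 ≤ C ∧ ∀ w, ‖gr cnB w‖ ≤ C := by
  have hc : Continuous (gr cnB) := by
    unfold gr
    have h1 : Continuous (fun w => fderiv ℝ cnB w) := cn_smooth.continuous_fderiv (by simp)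
    exact (Complex.continuous_ofReal.comp (h1.clm_apply continuous_const)).add
      (continuous_const.mul (Complex.continuous_ofReal.comp (h1.clm_apply continuous_const)))
  have hs : HasCompactSupport (gr cnB) := by
    refine HasCompactSupport.intro (isCompact_closedBall (0 : ℂ) 2) ?_
    intro w hw
    by_contra h
    apply hw
    rw [mem_closedBall_zero_iff]
    have := (cn_gr h).2
    nlinarith [norm_nonneg w]
  obtain ⟨C, hC⟩ := hs.exists_bound_of_continuous hc
  exact ⟨C, le_trans (norm_nonneg _) (hC 0), hC⟩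

private lemma cn_point (p : ℂ) {r τ : ℝ} (hr : 0 < r) (hτ : 0 < τ) : ∃ η : ℂ → ℝ,
    ContDiff ℝ (⊤ : ℕ∞) η ∧ (∀ z, 0 ≤ η z ∧ η z ≤ 1) ∧ (∀ᶠ z in 𝓝 p, η z = 1) ∧
    (∀ z, r < ‖z - p‖ → η z = 0) ∧ eLpNorm (gr η) 2 volume ≤ ENNReal.ofReal τ := by
  obtain ⟨C, hC0, hC⟩ := cn_bound
  obtain ⟨N, hN⟩ := exists_nat_gt (4 * Real.pi * C ^ 2 / τ ^ 2)
  have hN0 : (0 : ℝ) < N := lt_of_le_of_lt (by positivity) hN
  set c : ℕ → ℝ := fun j => 2 ^ (j + 1) / r with hc
  have hcpos : ∀ j, 0 < c j := fun j => by rw [hc]; positivity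
  set w : ℕ → ℂ → ℂ := fun j z => (c j : ℂ) * (z - p) with hw
  have hwn : ∀ j z, ‖w j z‖ = c j * ‖z - p‖ := by
    intro j z
    rw [hw]
    simp only
    rw [norm_mul, Complex.norm_real, Real.norm_of_nonneg (hcpos j).le]
  set η : ℂ → ℝ := fun z => (1 / N) * ∑ j ∈ Finset.range N, cnB (w j z) with hη
  have hwd : ∀ j, ContDiff ℝ (⊤ : ℕ∞) (w j) := by
    intro j
    rw [hw]
    simp only
    fun_prop
  have hηs : ContDiff ℝ (⊤ : ℕ∞) η := by
    rw [hη]
    exact contDiff_const.mul (ContDiff.sum fun j _ => cn_smooth.comp (hwd j))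
  -- derivative
  have hfd : ∀ z v, fderiv ℝ η z v = (1 / N) * ∑ j ∈ Finset.range N, c j * fderiv ℝ cnB (w j z) v := by
    intro z v
    have h1 : ∀ j ∈ Finset.range N, HasFDerivAt (fun z => cnB (w j z))
        ((fderiv ℝ cnB (w j z)).comp (c j • ContinuousLinearMap.id ℝ ℂ)) z := by
      intro j _
      have h2 : HasFDerivAt cnB (fderiv ℝ cnB (w j z)) (w j z) :=
        (cn_smooth.differentiable (by simp)).differentiableAt.hasFDerivAt
      have h3 : HasFDerivAt (w j) (c j • ContinuousLinearMap.id ℝ ℂ) z := by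
        have h4 : HasFDerivAt (fun z : ℂ => c j • (z - p)) (c j • ContinuousLinearMap.id ℝ ℂ) z :=
          ((hasFDerivAt_id z).sub_const p).const_smul (c j)
        have e : w j = fun z : ℂ => c j • (z - p) := by
          funext z
          rw [hw]
          simp
        rw [e]
        exact h4
      exact h2.comp z h3
    have h5 := (HasFDerivAt.fun_sum h1).const_mul (1 / (N : ℝ))
    have h6 : HasFDerivAt η ((1 / (N : ℝ)) • ∑ j ∈ Finset.range N,
        (fderiv ℝ cnB (w j z)).comp (c j • ContinuousLinearMap.id ℝ ℂ)) z := h5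
    rw [h6.fderiv]
    simp
  have hgr : ∀ z, gr η z = ((1 / N : ℝ) : ℂ) * ∑ j ∈ Finset.range N, (c j : ℂ) * gr cnB (w j z) := by
    intro z
    unfold gr
    rw [hfd z 1, hfd z I]
    push_cast
    simp only [Finset.mul_sum, mul_add, Finset.sum_add_distrib]
    congr 1
    refine Finset.sum_congr rfl fun j _ => ?_
    ring
  -- disjointness
  have hdisj : ∀ z j j', j < j' → gr cnB (w j z) ≠ 0 → gr cnB (w j' z) = 0 := by
    intro z j j' hjj h1
    by_contra h2
    have a1 := (cn_gr h1).1
    have a2 := (cn_gr h2).2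
    rw [hwn] at a1 a2
    have h3 : 2 * c j ≤ c j' := by
      rw [hc]
      simp only
      rw [← mul_div_assoc]
      apply div_le_div_of_nonneg_right _ hr.le
      calc (2 : ℝ) * 2 ^ (j + 1) = 2 ^ (j + 1 + 1) := by ring
        _ ≤ 2 ^ (j' + 1) := pow_le_pow_right₀ (by norm_num) (by omega)
    have h4 : 2 ≤ c j' * ‖z - p‖ := by
      calc (2 : ℝ) ≤ 2 * (c j * ‖z - p‖) := by linarith
        _ = (2 * c j) * ‖z - p‖ := by ring
        _ ≤ c j' * ‖z - p‖ := mul_le_mul_of_nonneg_right h3 (norm_nonneg _)
    nlinarith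
  refine ⟨η, hηs, ?_, ?_, ?_, ?_⟩
  · intro z
    have hb : ∀ j, 0 ≤ cnB (w j z) ∧ cnB (w j z) ≤ 1 := fun j =>
      ⟨Real.smoothTransition.nonneg _, Real.smoothTransition.le_one _⟩
    constructor
    · exact mul_nonneg (by positivity) (Finset.sum_nonneg fun j _ => (hb j).1)
    · rw [hη]
      simp only
      rw [one_div, inv_mul_le_iff₀ hN0, mul_one]
      calc ∑ j ∈ Finset.range N, cnB (w j z) ≤ ∑ j ∈ Finset.range N, (1 : ℝ) :=
            Finset.sum_le_sum fun j _ => (hb j).2
        _ = N := by simp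
  · have hpos : 0 < 1 / c N := by have := hcpos N; positivity
    filter_upwards [ball_mem_nhds p hpos] with z hz
    rw [mem_ball, dist_eq_norm] at hz
    rw [hη]
    simp only
    have : ∀ j ∈ Finset.range N, cnB (w j z) = 1 := by
      intro j hj
      apply cn_one
      rw [hwn]
      have h1 : c j ≤ c N := by
        rw [hc]
        simp only
        apply div_le_div_of_nonneg_right _ hr.le
        exact pow_le_pow_right₀ (by norm_num) (by have := Finset.mem_range.1 hj; omega)
      calc c j * ‖z - p‖ ≤ c N * ‖z - p‖ := mul_le_mul_of_nonneg_right h1 (norm_nonneg _)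
        _ ≤ c N * (1 / c N) := mul_le_mul_of_nonneg_left hz.le (hcpos N).le
        _ = 1 := by field_simp [(hcpos N).ne']
    rw [Finset.sum_congr rfl this]
    simp
    exact inv_mul_cancel₀ hN0.ne'
  · intro z hz
    rw [hη]
    simp only
    have : ∀ j ∈ Finset.range N, cnB (w j z) = 0 := by
      intro j _
      apply cn_zero
      rw [hwn]
      have h1 : 2 / r ≤ c j := by
        rw [hc]
        simp only
        apply div_le_div_of_nonneg_right _ hr.le
        calc (2 : ℝ) = 2 ^ (0 + 1) := by norm_num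
          _ ≤ 2 ^ (j + 1) := pow_le_pow_right₀ (by norm_num) (by omega)
      have h2 : 2 ≤ c j * ‖z - p‖ := by
        calc (2 : ℝ) = 2 / r * r := by field_simp
          _ ≤ c j * ‖z - p‖ := mul_le_mul h1 hz.le hr.le (hcpos j).le
      nlinarith
    rw [Finset.sum_congr rfl this]
    simp
  · -- the norm of the gradient
    have hpt : ∀ z, ‖gr η z‖ₑ ^ (2 : ℝ) ≤ ∑ j ∈ Finset.range N,
        (closedBall p (2 / c j)).indicator (fun _ => ENNReal.ofReal ((c j * C / N) ^ 2)) z := by
      intro z
      by_cases h0 : ∀ j ∈ Finset.range N, gr cnB (w j z) = 0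
      · have : gr η z = 0 := by
          rw [hgr z, Finset.sum_eq_zero fun j hj => by rw [h0 j hj, mul_zero], mul_zero]
        rw [this]
        simp
      · push Not at h0
        obtain ⟨j, hj, hne⟩ := h0
        have hsum : gr η z = ((1 / N : ℝ) : ℂ) * ((c j : ℂ) * gr cnB (w j z)) := by
          rw [hgr z, Finset.sum_eq_single_of_mem j hj]
          intro j' _ hjj
          rcases lt_or_gt_of_ne hjj with h | h
          · by_contra h2
            have h3 : gr cnB (w j' z) ≠ 0 := fun h4 => h2 (by rw [h4, mul_zero])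
            exact hne (hdisj z j' j h h3)
          · rw [hdisj z j j' h hne, mul_zero]
        have hnorm : ‖gr η z‖ ≤ c j * C / N := by
          rw [hsum, norm_mul, norm_mul, Complex.norm_real, Complex.norm_real,
            Real.norm_of_nonneg (hcpos j).le, Real.norm_of_nonneg (by positivity)]
          rw [one_div, inv_mul_le_iff₀ hN0]
          calc c j * ‖gr cnB (w j z)‖ ≤ c j * C := mul_le_mul_of_nonneg_left (hC _) (hcpos j).le
            _ = N * (c j * C / N) := by field_simp
        have hmem : z ∈ closedBall p (2 / c j) := by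
          rw [mem_closedBall, dist_eq_norm, le_div_iff₀ (hcpos j)]
          have := (cn_gr hne).2
          rw [hwn] at this
          nlinarith [mul_nonneg (hcpos j).le (norm_nonneg (z - p))]
        refine le_trans ?_ (Finset.single_le_sum (f := fun j => (closedBall p (2 / c j)).indicator
          (fun _ => ENNReal.ofReal ((c j * C / N) ^ 2)) z) (fun _ _ => bot_le) hj)
        rw [indicator_of_mem hmem]
        rw [← ofReal_norm, ENNReal.ofReal_rpow_of_nonneg (norm_nonneg _) (by norm_num)]
        apply ENNReal.ofReal_le_ofReal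
        rw [Real.rpow_two]
        exact pow_le_pow_left₀ (norm_nonneg _) hnorm 2
    have hint : ∫⁻ z, ‖gr η z‖ₑ ^ (2 : ℝ) ≤ ENNReal.ofReal (τ ^ 2) := by
      calc ∫⁻ z, ‖gr η z‖ₑ ^ (2 : ℝ) ≤ ∫⁻ z, ∑ j ∈ Finset.range N,
            (closedBall p (2 / c j)).indicator (fun _ => ENNReal.ofReal ((c j * C / N) ^ 2)) z :=
            lintegral_mono hpt
        _ = ∑ j ∈ Finset.range N, ENNReal.ofReal (4 * Real.pi * C ^ 2 / N ^ 2) := by
            rw [lintegral_finsetSum]
            · refine Finset.sum_congr rfl fun j _ => ?_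
              rw [lintegral_indicator_const isClosed_closedBall.measurableSet, Complex.volume_closedBall]
              have : ((NNReal.pi : ℝ≥0) : ℝ≥0∞) = ENNReal.ofReal Real.pi := by
                rw [← NNReal.coe_real_pi, ENNReal.ofReal_coe_nnreal]
              rw [this, ← ENNReal.ofReal_pow (by have := hcpos j; positivity),
                ← ENNReal.ofReal_mul (by positivity), ← ENNReal.ofReal_mul (by positivity)]
              congr 1
              have := (hcpos j).ne'
              field_simp
              ring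
            · intro j _
              exact measurable_const.indicator isClosed_closedBall.measurableSet
        _ = ENNReal.ofReal (4 * Real.pi * C ^ 2 / N) := by
            rw [Finset.sum_const, Finset.card_range, nsmul_eq_mul, ← ENNReal.ofReal_natCast,
              ← ENNReal.ofReal_mul (by positivity)]
            congr 1
            field_simp
        _ ≤ ENNReal.ofReal (τ ^ 2) := by
            apply ENNReal.ofReal_le_ofReal
            rw [div_le_iff₀ hN0]
            rw [div_lt_iff₀ (by positivity)] at hN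
            linarith
    rw [eLpNorm_eq_lintegral_rpow_enorm_toReal (by norm_num) (by norm_num)]
    have e2 : (2 : ℝ≥0∞).toReal = 2 := by simp
    rw [e2]
    calc (∫⁻ z, ‖gr η z‖ₑ ^ (2 : ℝ)) ^ (1 / (2 : ℝ)) ≤ (ENNReal.ofReal (τ ^ 2)) ^ (1 / (2 : ℝ)) :=
          ENNReal.rpow_le_rpow hint (by norm_num)
      _ = ENNReal.ofReal τ := by
          rw [ENNReal.ofReal_rpow_of_nonneg (by positivity) (by norm_num)]
          congr 1
          rw [← Real.sqrt_eq_rpow, Real.sqrt_sq hτ.le]

theorem piece_corner : S_corner := by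
  intro ε hε
  set r : ℝ := min ε (1 / 2) with hr
  have hr0 : 0 < r := lt_min hε (by norm_num)
  have hr1 : r ≤ 1 / 2 := min_le_right _ _
  have hrε : r ≤ ε := min_le_left _ _
  obtain ⟨η₁, s1, b1, n1, z1, e1⟩ := cn_point 1 hr0 (show (0 : ℝ) < ε / 3 by positivity)
  obtain ⟨η₂, s2, b2, n2, z2, e2⟩ := cn_point (-1) hr0 (show (0 : ℝ) < ε / 3 by positivity)
  have hdis : ∀ z, η₁ z = 0 ∨ η₂ z = 0 := by
    intro z
    by_contra h
    push Not at h
    have a1 : ‖z - 1‖ ≤ r := by
      by_contra h1
      exact h.1 (z1 z (not_le.1 h1))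
    have a2 : ‖z - -1‖ ≤ r := by
      by_contra h1
      exact h.2 (z2 z (not_le.1 h1))
    have h3 : ‖(z - -1) - (z - 1)‖ ≤ 1 :=
      (norm_sub_le _ _).trans (by linarith)
    have h4 : (z - -1) - (z - 1) = 2 := by ring
    rw [h4] at h3
    norm_num at h3
  refine ⟨fun z => η₁ z + η₂ z, ⟨s1.add s2, ?_, subset_univ _⟩, ?_, ?_, ?_, ?_, ?_⟩
  · refine HasCompactSupport.intro (isCompact_closedBall (0 : ℂ) 2) ?_
    intro z hz
    rw [mem_closedBall_zero_iff, not_le] at hz
    have a1 : r < ‖z - 1‖ := by
      have := norm_sub_norm_le z 1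
      rw [norm_one] at this
      linarith
    have a2 : r < ‖z - -1‖ := by
      have := norm_sub_norm_le z (-1)
      rw [norm_neg, norm_one] at this
      linarith
    rw [z1 z a1, z2 z a2, add_zero]
  · intro z
    show 0 ≤ η₁ z + η₂ z ∧ η₁ z + η₂ z ≤ 1
    rcases hdis z with h | h
    · rw [h, zero_add]
      exact b2 z
    · rw [h, add_zero]
      exact b1 z
  · filter_upwards [n1] with z hz
    rcases hdis z with h | h
    · rw [h] at hz
      norm_num at hz
    · rw [h, hz, add_zero]
  · filter_upwards [n2] with z hz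
    rcases hdis z with h | h
    · rw [h, hz, zero_add]
    · rw [h] at hz
      norm_num at hz
  · intro z h1 h2
    show η₁ z + η₂ z = 0
    rw [z1 z (lt_of_le_of_lt hrε h1), z2 z (by rw [sub_neg_eq_add]; exact lt_of_le_of_lt hrε h2),
      add_zero]
  · have hgr : gr (fun z => η₁ z + η₂ z) = gr η₁ + gr η₂ := by
      funext z
      unfold gr
      have d1 : DifferentiableAt ℝ η₁ z := (s1.differentiable (by simp)).differentiableAt
      have d2 : DifferentiableAt ℝ η₂ z := (s2.differentiable (by simp)).differentiableAt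
      rw [fderiv_fun_add d1 d2]
      simp only [add_apply, Pi.add_apply]
      push_cast
      ring
    have hm : ∀ η : ℂ → ℝ, ContDiff ℝ (⊤ : ℕ∞) η → AEStronglyMeasurable (gr η) volume := by
      intro η hη
      have hc : Continuous (gr η) := by
        unfold gr
        have h1 : Continuous (fun w => fderiv ℝ η w) := hη.continuous_fderiv (by simp)
        exact (Complex.continuous_ofReal.comp (h1.clm_apply continuous_const)).add
          (continuous_const.mul (Complex.continuous_ofReal.comp (h1.clm_apply continuous_const)))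
      exact hc.aestronglyMeasurable
    rw [hgr]
    calc eLpNorm (gr η₁ + gr η₂) 2 volume ≤ eLpNorm (gr η₁) 2 volume + eLpNorm (gr η₂) 2 volume :=
          eLpNorm_add_le (hm _ s1) (hm _ s2) (by norm_num)
      _ ≤ ENNReal.ofReal (ε / 3) + ENNReal.ofReal (ε / 3) := add_le_add e1 e2
      _ = ENNReal.ofReal (ε / 3 + ε / 3) := (ENNReal.ofReal_add (by positivity) (by positivity)).symm
      _ < ENNReal.ofReal ε := by
          rw [ENNReal.ofReal_lt_ofReal_iff hε]
          linarith

end Cal
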