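import Pool.Agent.Lib.MP_4ea4c7_an.Stm1

open MeasureTheory Complex Metric Set Filter Topology
open scoped ComplexConjugate ENNReal NNReal

namespace Cal

noncomputable section

namespace CritAux

/-- `ε arctan (t/ε)` with `ε = 1/(n+1)` as a function on the plane -/
def Hn (n : ℕ) (w : ℂ) : ℂ := ((Real.arctan (((n : ℝ) + 1) * w.re) / ((n : ℝ) + 1) : ℝ) : ℂ)

/-- its derivative -/
def Dn (n : ℕ) (t : ℝ) : ℝ := 1 / (1 + (((n : ℝ) + 1) * t) ^ 2)

theorem Dn_nonneg (n : ℕ) (t : ℝ) : 0 ≤ Dn n t := by unfold Dn; positivity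

theorem Dn_le (n : ℕ) (t : ℝ) : Dn n t ≤ 1 := by
  unfold Dn
  rw [div_le_one (by positivity)]
  nlinarith [sq_nonneg (((n : ℝ) + 1) * t)]

theorem Hn_hasFDerivAt (n : ℕ) (w : ℂ) :
    HasFDerivAt (Hn n) (Complex.ofRealCLM.comp (Dn n w.re • Complex.reCLM)) w := by
  have h1 : HasDerivAt (fun t : ℝ => Real.arctan (((n : ℝ) + 1) * t) / ((n : ℝ) + 1))
      (Dn n w.re) w.re := by
    have hlin : HasDerivAt (fun t : ℝ => ((n : ℝ) + 1) * t) ((n : ℝ) + 1) w.re := by
      simpa using (hasDerivAt_id w.re).const_mul ((n : ℝ) + 1)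
    have h := (hlin.arctan).div_const ((n : ℝ) + 1)
    have he : Dn n w.re = 1 / (1 + (((n : ℝ) + 1) * w.re) ^ 2) * ((n : ℝ) + 1) / ((n : ℝ) + 1) := by
      unfold Dn
      field_simp
    rw [he]
    exact h
  have h2 : HasFDerivAt (fun z : ℂ => z.re) Complex.reCLM w := Complex.reCLM.hasFDerivAt
  have h3 := h1.comp_hasFDerivAt w h2
  exact (Complex.ofRealCLM.hasFDerivAt).comp w h3

theorem Hn_contDiff (n : ℕ) : ContDiff ℝ 1 (Hn n) := by
  unfold Hn
  refine Complex.ofRealCLM.contDiff.comp ?_
  refine ContDiff.div_const ?_ _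
  exact Real.contDiff_arctan.comp (contDiff_const.mul Complex.reCLM.contDiff)

theorem dz_Hn (n : ℕ) (w : ℂ) : dz (Hn n) w = ((Dn n w.re : ℝ) : ℂ) / 2 := by
  unfold dz
  rw [(Hn_hasFDerivAt n w).fderiv]
  simp

theorem db_Hn (n : ℕ) (w : ℂ) : db (Hn n) w = ((Dn n w.re : ℝ) : ℂ) / 2 := by
  unfold db
  rw [(Hn_hasFDerivAt n w).fderiv]
  simp

theorem norm_Hn (n : ℕ) (w : ℂ) : ‖Hn n w‖ ≤ 2 / ((n : ℝ) + 1) := by
  unfold Hn
  rw [Complex.norm_real, Real.norm_eq_abs, abs_div, abs_of_pos (by positivity : (0:ℝ) < (n : ℝ) + 1)]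
  gcongr
  rw [abs_le]
  have h1 := Real.arctan_lt_pi_div_two (((n : ℝ) + 1) * w.re)
  have h2 := Real.neg_pi_div_two_lt_arctan (((n : ℝ) + 1) * w.re)
  have h3 := Real.pi_lt_four
  constructor <;> linarith

theorem db_cont {φ : ℂ → ℂ} {U : Set ℂ} (h : TF U φ) : Continuous (db φ) := by
  have h1 : Continuous (fderiv ℝ φ) := h.1.continuous_fderiv (by simp)
  unfold db
  fun_prop

theorem db_supp {φ : ℂ → ℂ} {U : Set ℂ} (h : TF U φ) : HasCompactSupport (db φ) := by
  have h1 : HasCompactSupport (fderiv ℝ φ) := h.2.1.fderiv ℝ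
  refine h1.mono ?_
  intro z hz
  rw [Function.mem_support] at hz ⊢
  intro h0
  apply hz
  unfold db
  rw [h0]
  simp

theorem int_mul {U : Set ℂ} {B φ : ℂ → ℂ} (hB : L2loc U B) (h : TF U φ) :
    Integrable (fun z => B z * φ z) volume := by
  set K := tsupport φ with hK
  have hKc : IsCompact K := h.2.1
  have h1 : MemLp B 2 (volume.restrict K) := hB K hKc h.2.2
  have : IsFiniteMeasure (volume.restrict K) := ⟨by
    rw [Measure.restrict_apply_univ]; exact hKc.measure_lt_top⟩
  have h2 : Integrable B (volume.restrict K) := h1.integrable (by norm_num)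
  obtain ⟨C, hC⟩ := (h.1.continuous.bounded_above_of_compact_support h.2.1)
  have h3 : Integrable (fun z => B z * φ z) (volume.restrict K) :=
    h2.mul_bdd (c := C) h.1.continuous.aestronglyMeasurable (Eventually.of_forall hC)
  have h4 : Function.support (fun z => B z * φ z) ⊆ K := by
    intro z hz
    have : φ z ≠ 0 := fun h0 => hz (by simp [h0])
    exact subset_tsupport φ this
  exact (integrableOn_iff_integrable_of_support_subset h4).1 h3

end CritAux

open CritAux

theorem piece_crit (h1 : S_chain) (h2 : S_bridge) (h3 : S_wuniq) (h4 : S_basic) : S_crit := by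
  intro Ω u G hΩ hG hu
  obtain ⟨-, b2, -, -⟩ := h2
  have hWD := b2 Ω u G hG
  have hfc : ContinuousOn (fun z => (u z : ℂ)) Ω := Complex.continuous_ofReal.comp_continuousOn hu
  set Z : Set ℂ := Ω ∩ u ⁻¹' {0} with hZ
  have hZm : MeasurableSet Z := by
    have ho : IsOpen (Ω ∩ u ⁻¹' {0}ᶜ) := hu.isOpen_inter_preimage hΩ isOpen_compl_singleton
    have he : Z = Ω \ (Ω ∩ u ⁻¹' {0}ᶜ) := by
      ext z
      simp only [hZ, Set.mem_inter_iff, Set.mem_preimage, Set.mem_singleton_iff, Set.mem_sdiff,
        Set.mem_compl_iff]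
      tauto
    rw [he]
    exact hΩ.measurableSet.diff ho.measurableSet
  set B : ℂ → ℂ := Z.indicator (fun z => G z / 2) with hB
  have key : ∀ φ : ℂ → ℂ, TF Ω φ → ∫ z, B z * φ z = 0 := by
    intro φ hφ
    have hn : ∀ n, ∫ z, Hn n (u z : ℂ) * db φ z =
        - ∫ z, (((Dn n (u z) : ℝ) : ℂ) * (G z / 2)) * φ z := by
      intro n
      have hc := h1 Ω univ _ _ _ (Hn n) hΩ isOpen_univ hWD hfc (mapsTo_univ _ _)
        (Hn_contDiff n).contDiffOn
      have := hc.hB φ hφ
      rw [this]
      congr 1
      refine integral_congr_ae (Eventually.of_forall fun z => ?_)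
      simp only [dz_Hn, db_Hn, Complex.ofReal_re, map_div₀, Complex.conj_conj]
      have h2 : (starRingEnd ℂ) 2 = 2 := Complex.conj_ofNat 2
      rw [h2]
      ring
    have hL : Tendsto (fun n : ℕ => ∫ z, Hn n (u z : ℂ) * db φ z) atTop (𝓝 0) := by
      have hint : Integrable (db φ) volume :=
        (db_cont hφ).integrable_of_hasCompactSupport (db_supp hφ)
      have hb : ∀ n : ℕ, ‖∫ z, Hn n (u z : ℂ) * db φ z‖ ≤ 2 / ((n : ℝ) + 1) * ∫ z, ‖db φ z‖ := by
        intro n
        rw [← integral_const_mul]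
        refine norm_integral_le_of_norm_le (hint.norm.const_mul _) (Eventually.of_forall fun z => ?_)
        rw [norm_mul]
        gcongr
        exact norm_Hn n _
      refine squeeze_zero_norm hb ?_
      have h0 : Tendsto (fun n : ℕ => 2 / ((n : ℝ) + 1)) atTop (𝓝 0) := by
        have := (tendsto_one_div_add_atTop_nhds_zero_nat (𝕜 := ℝ)).const_mul 2
        simp only [mul_zero] at this
        refine this.congr fun n => ?_
        ring
      simpa using h0.mul_const (∫ z, ‖db φ z‖)
    have hR : Tendsto (fun n : ℕ => ∫ z, (((Dn n (u z) : ℝ) : ℂ) * (G z / 2)) * φ z) atTop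
        (𝓝 (∫ z, B z * φ z)) := by
      refine tendsto_integral_of_dominated_convergence (fun z => ‖(G z / 2) * φ z‖) ?_ ?_ ?_ ?_
      · intro n
        have hc := h1 Ω univ _ _ _ (Hn n) hΩ isOpen_univ hWD hfc (mapsTo_univ _ _)
          (Hn_contDiff n).contDiffOn
        have := (int_mul hc.B2 hφ).aestronglyMeasurable
        refine this.congr (Eventually.of_forall fun z => ?_)
        simp only [dz_Hn, db_Hn, Complex.ofReal_re, map_div₀, Complex.conj_conj]
        have h2 : (starRingEnd ℂ) 2 = 2 := Complex.conj_ofNat 2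
        rw [h2]
        ring
      · exact (int_mul hWD.B2 hφ).norm
      · intro n
        refine Eventually.of_forall fun z => ?_
        rw [mul_assoc, norm_mul]
        refine mul_le_of_le_one_left (norm_nonneg _) ?_
        rw [Complex.norm_real, Real.norm_eq_abs, abs_of_nonneg (Dn_nonneg _ _)]
        exact Dn_le _ _
      · refine Eventually.of_forall fun z => ?_
        by_cases hz : z ∈ tsupport φ
        · have hzΩ := hφ.2.2 hz
          by_cases h0 : u z = 0
          · have hBz : B z = G z / 2 := by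
              rw [hB, Set.indicator_of_mem]
              exact ⟨hzΩ, h0⟩
            rw [hBz]
            have : ∀ n : ℕ, (((Dn n (u z) : ℝ) : ℂ) * (G z / 2)) * φ z = (G z / 2) * φ z := by
              intro n
              rw [h0]
              simp [Dn]
            simp only [this]
            exact tendsto_const_nhds
          · have hBz : B z = 0 := by
              rw [hB, Set.indicator_of_notMem]
              exact fun h => h0 h.2
            rw [hBz]
            have hD : Tendsto (fun n : ℕ => Dn n (u z)) atTop (𝓝 0) := by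
              have ha : Tendsto (fun n : ℕ => ((n : ℝ) + 1) ^ 2 * (u z) ^ 2) atTop atTop := by
                refine Tendsto.atTop_mul_const (by positivity) ?_
                refine (tendsto_pow_atTop (by norm_num : (2:ℕ) ≠ 0)).comp ?_
                exact tendsto_atTop_add_const_right _ _ tendsto_natCast_atTop_atTop
              have hb : Tendsto (fun n : ℕ => 1 + (((n : ℝ) + 1) * u z) ^ 2) atTop atTop := by
                refine tendsto_atTop_add_const_left _ _ ?_
                refine ha.congr fun n => ?_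
                ring
              have := hb.inv_tendsto_atTop
              refine this.congr fun n => ?_
              simp [Dn]
            have hD' : Tendsto (fun n : ℕ => ((Dn n (u z) : ℝ) : ℂ)) atTop (𝓝 ((0 : ℝ) : ℂ)) :=
              (Complex.continuous_ofReal.tendsto 0).comp hD
            have := (hD'.mul_const (G z / 2)).mul_const (φ z)
            simpa using this
        · have : φ z = 0 := image_eq_zero_of_notMem_tsupport hz
          simp [this]
    have hE : Tendsto (fun n : ℕ => ∫ z, Hn n (u z : ℂ) * db φ z) atTop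
        (𝓝 (- ∫ z, B z * φ z)) := by
      simp only [hn]
      exact hR.neg
    have := tendsto_nhds_unique hL hE
    exact (neg_eq_zero.1 this.symm)
  have w0 : WD Ω (fun _ => 0) (fun _ => 0) (fun _ => 0) := by
    refine ⟨?_, ?_, ?_, ?_, ?_⟩
    · intro K _ _; exact MemLp.zero'
    · intro K _ _; exact MemLp.zero'
    · intro K _ _; exact MemLp.zero'
    · intro φ _; simp
    · intro φ _; simp
  have wB : WD Ω (fun _ => 0) (fun _ => 0) B := by
    refine ⟨w0.f2, w0.A2, ?_, ?_, ?_⟩
    · intro K hK hKΩ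
      exact (hWD.B2 K hK hKΩ).indicator hZm
    · intro φ _; simp
    · intro φ hφ
      rw [key φ hφ]; simp
  have hfin := (h3 Ω _ _ _ _ _ _ hΩ wB w0 (by rfl)).2
  filter_upwards [hfin, ae_restrict_mem hΩ.measurableSet] with z hz hzΩ h0
  have hBz : B z = G z / 2 := by
    rw [hB, Set.indicator_of_mem]
    exact ⟨hzΩ, h0⟩
  rw [hBz] at hz
  have : G z / 2 = 0 := hz
  simpa using this

end

end Cal
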