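import Pool.Agent.Lib.MP_4ea4c7_an.StmC

open MeasureTheory Complex Metric Set Filter Topology
open scoped ComplexConjugate ENNReal NNReal

namespace Cal

/-- the cutoff function with `ρ = 1` -/
noncomputable def cutOne (z : ℂ) : ℝ := Real.smoothTransition (2 - ‖z‖ ^ 2)

theorem cutOne_contDiff : ContDiff ℝ (⊤ : ℕ∞) cutOne :=
  Real.smoothTransition.contDiff.comp (contDiff_const.sub (contDiff_norm_sq ℝ))

theorem cutOne_one {z : ℂ} (hz : ‖z‖ ≤ 1) : cutOne z = 1 := by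
  refine Real.smoothTransition.one_of_one_le ?_
  nlinarith [norm_nonneg z]

theorem cutOne_zero {z : ℂ} (hz : 2 ≤ ‖z‖) : cutOne z = 0 := by
  refine Real.smoothTransition.zero_of_nonpos ?_
  nlinarith [norm_nonneg z]

theorem cutOne_supp : HasCompactSupport cutOne := by
  refine HasCompactSupport.intro (isCompact_closedBall (0 : ℂ) 2) (fun z hz => ?_)
  rw [mem_closedBall_zero_iff, not_le] at hz
  exact cutOne_zero hz.le

theorem gr_cutOne_bd : ∃ M : ℝ, 0 < M ∧ ∀ z, ‖gr cutOne z‖ ≤ M := by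
  have hc : Continuous (fderiv ℝ cutOne) := cutOne_contDiff.continuous_fderiv (by simp)
  obtain ⟨C, hC⟩ := (cutOne_supp.fderiv (𝕜 := ℝ)).exists_bound_of_continuous hc
  have hC0 : 0 ≤ C := le_trans (norm_nonneg _) (hC 0)
  refine ⟨2 * C + 1, by linarith, fun z => ?_⟩
  have h1 : |fderiv ℝ cutOne z 1| ≤ C := by
    have h := (fderiv ℝ cutOne z).le_opNorm 1
    rw [norm_one, mul_one, Real.norm_eq_abs] at h
    exact h.trans (hC z)
  have h2 : |fderiv ℝ cutOne z I| ≤ C := by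
    have h := (fderiv ℝ cutOne z).le_opNorm I
    rw [Complex.norm_I, mul_one, Real.norm_eq_abs] at h
    exact h.trans (hC z)
  calc ‖gr cutOne z‖ ≤ ‖((fderiv ℝ cutOne z 1 : ℝ) : ℂ)‖ + ‖I * ((fderiv ℝ cutOne z I : ℝ) : ℂ)‖ := norm_add_le _ _
    _ = |fderiv ℝ cutOne z 1| + |fderiv ℝ cutOne z I| := by
        rw [norm_mul, Complex.norm_I, one_mul, Complex.norm_real, Complex.norm_real, Real.norm_eq_abs, Real.norm_eq_abs]
    _ ≤ 2 * C + 1 := by linarith

theorem gr_cutOne_smul (c : ℝ) (z : ℂ) : gr (fun w => cutOne (c • w)) z = (c : ℂ) * gr cutOne (c • z) := by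
  have h1 : HasFDerivAt (fun w : ℂ => cutOne (c • w))
      ((fderiv ℝ cutOne (c • z)).comp (c • ContinuousLinearMap.id ℝ ℂ)) z :=
    ((cutOne_contDiff.differentiable (by simp)) (c • z)).hasFDerivAt.comp z ((hasFDerivAt_id z).const_smul c)
  unfold gr
  rw [h1.fderiv]
  simp only [ContinuousLinearMap.comp_apply, smul_apply, ContinuousLinearMap.id_apply, map_smul,
    smul_eq_mul, Complex.ofReal_mul]
  ring

theorem gr_zero_of_eventually {χ : ℂ → ℝ} {z : ℂ} {a : ℝ} (h : χ =ᶠ[𝓝 z] fun _ => a) : gr χ z = 0 := by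
  have h1 : fderiv ℝ χ z = 0 := by
    rw [h.fderiv_eq, fderiv_fun_const]
    rfl
  unfold gr
  rw [h1]
  simp

theorem piece_cut : S_cut := by
  obtain ⟨M, hM, hb⟩ := gr_cutOne_bd
  refine ⟨M, hM, fun ρ hρ => ?_⟩
  have hn : ∀ z : ℂ, ‖ρ⁻¹ • z‖ = ‖z‖ / ρ := by
    intro z
    rw [norm_smul, Real.norm_eq_abs, abs_of_pos (inv_pos.mpr hρ), div_eq_inv_mul]
  have h1 : ∀ z : ℂ, ‖z‖ ≤ ρ → cutOne (ρ⁻¹ • z) = 1 := by
    intro z hz
    refine cutOne_one ?_
    rw [hn, div_le_one hρ]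
    exact hz
  have h0 : ∀ z : ℂ, 2 * ρ ≤ ‖z‖ → cutOne (ρ⁻¹ • z) = 0 := by
    intro z hz
    refine cutOne_zero ?_
    rw [hn, le_div_iff₀ hρ]
    exact hz
  refine ⟨fun z => cutOne (ρ⁻¹ • z), ⟨?_, ?_, subset_univ _⟩, ?_, ?_, h1, h0, ?_, ?_, ?_⟩
  · exact cutOne_contDiff.comp (contDiff_id.const_smul ρ⁻¹)
  · refine HasCompactSupport.intro (isCompact_closedBall (0 : ℂ) (2 * ρ)) (fun z hz => ?_)
    rw [mem_closedBall_zero_iff, not_le] at hz
    exact h0 z hz.le
  · intro z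
    simp only [cutOne]
    rw [hn, hn, RCLike.norm_conj]
  · intro z
    exact ⟨Real.smoothTransition.nonneg _, Real.smoothTransition.le_one _⟩
  · intro z hz
    refine gr_zero_of_eventually (a := 1) ?_
    filter_upwards [(isOpen_lt continuous_norm continuous_const).mem_nhds hz] with w hw
    exact h1 w (le_of_lt hw)
  · intro z hz
    refine gr_zero_of_eventually (a := 0) ?_
    filter_upwards [(isOpen_lt continuous_const continuous_norm).mem_nhds hz] with w hw
    exact h0 w (le_of_lt hw)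
  · intro z
    rw [gr_cutOne_smul, norm_mul, Complex.norm_real, Real.norm_eq_abs, abs_of_pos (inv_pos.mpr hρ), div_eq_inv_mul]
    exact mul_le_mul_of_nonneg_left (hb _) (inv_pos.mpr hρ).le

end Cal
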