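import Pool.Agent.Lib.MP_4ea4c7_an.StmF

open MeasureTheory Complex Metric Set Filter Topology
open scoped ComplexConjugate ENNReal NNReal

namespace Cal

open LocalCalderon

noncomputable section

/-- complex change of variables -/
private theorem cwg_cv {U V : Set ℂ} {Ψ : ℂ → ℂ} (h : CB U V Ψ) (F : ℂ → ℂ) :
    ∫ z in V, F z = ∫ z in U, ((‖deriv Ψ z‖ ^ 2 : ℝ) : ℂ) * F (Ψ z) := by
  have hd : ∀ z ∈ U, HasFDerivWithinAt Ψ (ContinuousLinearMap.mul ℝ ℂ (deriv Ψ z)) U z := by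
    intro z hz
    have h1 : HasDerivAt Ψ (deriv Ψ z) z :=
      (h.hol.differentiableAt (h.ou.mem_nhds hz)).hasDerivAt
    have h2 := (h1.hasFDerivAt.restrictScalars ℝ).hasFDerivWithinAt (s := U)
    refine h2.congr_fderiv ?_
    ext v
    simp
    ring
  have h3 := integral_image_eq_integral_abs_det_fderiv_smul volume h.ou.measurableSet hd h.inj F
  rw [h.img] at h3
  rw [h3]
  refine setIntegral_congr_fun h.ou.measurableSet fun z _ => ?_
  have h4 : (ContinuousLinearMap.mul ℝ ℂ (deriv Ψ z)).det = ‖deriv Ψ z‖ ^ 2 := by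
    have h5 : ((ContinuousLinearMap.mul ℝ ℂ (deriv Ψ z) : ℂ →L[ℝ] ℂ) : ℂ →ₗ[ℝ] ℂ) =
        Algebra.lmul ℝ ℂ (deriv Ψ z) := by
      ext v <;> simp
    show LinearMap.det ((ContinuousLinearMap.mul ℝ ℂ (deriv Ψ z) : ℂ →L[ℝ] ℂ) : ℂ →ₗ[ℝ] ℂ) = _
    rw [h5]
    have h6 := Algebra.norm_complex_apply (deriv Ψ z)
    rw [Algebra.norm_apply] at h6
    rw [h6, Complex.normSq_eq_norm_sq]
  rw [h4, abs_of_nonneg (sq_nonneg _), real_smul]

private theorem cwg_wg_congr {V : Set ℂ} {u : ℂ → ℝ} {G G' : ℂ → ℂ} (h : WG V u G)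
    (hG : ∀ z ∈ V, G z = G' z) : WG V u G' where
  u2 := h.u2
  G2 := fun K hK hKV => by
    refine (h.G2 K hK hKV).ae_eq ?_
    filter_upwards [ae_restrict_mem hK.measurableSet] with z hz
    exact hG z (hKV hz)
  h := fun φ hφ => by
    rw [h.h φ hφ]
    congr 1
    refine integral_congr_ae (Filter.Eventually.of_forall fun z => ?_)
    show G z * (φ z : ℂ) = G' z * (φ z : ℂ)
    by_cases hz : z ∈ V
    · rw [hG z hz]
    · have : φ z = 0 := image_eq_zero_of_notMem_tsupport fun h' => hz (hφ.2.2 h')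
      rw [this]
      simp

/-- local square integrability through the change of variables -/
private theorem cwg_loc (h2 : S_cv) {U V : Set ℂ} {Ψ Θ : ℂ → ℂ} (hC : CB U V Ψ) (hT : CB V U Θ)
    (hTP : ∀ z ∈ U, Θ (Ψ z) = z) (hPT : ∀ w ∈ V, Ψ (Θ w) = w) (f : ℂ → ℂ)
    (hf : ∀ K' : Set ℂ, IsCompact K' → K' ⊆ U →
      MemLp (fun z => conj (deriv Ψ z) * f (Ψ z)) 2 (volume.restrict K')) : L2loc V f := by
  intro K hK hKV
  have hcont : ContinuousOn Θ K := hT.hol.continuousOn.mono hKV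
  set K' : Set ℂ := Θ '' K with hK'
  have hK'c : IsCompact K' := hK.image_of_continuousOn hcont
  have hK'U : K' ⊆ U := by
    rintro _ ⟨w, hw, rfl⟩
    rw [← hT.img]
    exact ⟨w, hKV hw, rfl⟩
  have hmem : ∀ z ∈ U, (Ψ z ∈ K ↔ z ∈ K') := by
    intro z hz
    constructor
    · intro h'
      exact ⟨Ψ z, h', hTP z hz⟩
    · rintro ⟨w, hw, rfl⟩
      rw [hPT w (hKV hw)]
      exact hw
  have h3 : MemLp (pull Ψ (K.indicator f)) 2 (volume.restrict U) := by
    have h4 : MemLp (K'.indicator fun z => conj (deriv Ψ z) * f (Ψ z)) 2 (volume.restrict U) := by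
      rw [memLp_indicator_iff_restrict hK'c.measurableSet, Measure.restrict_restrict
        hK'c.measurableSet, inter_eq_left.mpr hK'U]
      exact hf K' hK'c hK'U
    refine h4.ae_eq ?_
    filter_upwards [ae_restrict_mem hC.ou.measurableSet] with z hz
    unfold pull
    by_cases h5 : z ∈ K'
    · rw [indicator_of_mem h5, indicator_of_mem ((hmem z hz).mpr h5)]
    · rw [indicator_of_notMem h5, indicator_of_notMem (fun h6 => h5 ((hmem z hz).mp h6)),
        mul_zero]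
  have h6 := ((h2 U V Ψ hC).1 (K.indicator f)).mpr h3
  rw [memLp_indicator_iff_restrict hK.measurableSet, Measure.restrict_restrict hK.measurableSet,
    inter_eq_left.mpr hKV] at h6
  exact h6

private theorem cwg_deriv_mul {U : Set ℂ} {Ψ : ℂ → ℂ} {φ : ℂ → ℝ} (hU : IsOpen U)
    (hΨ : DifferentiableOn ℂ Ψ U) (hφ : RTF U φ) :
    TF U (fun z => deriv Ψ z * (φ z : ℂ)) ∧
    ∀ z, db (fun z => deriv Ψ z * (φ z : ℂ)) z =
      deriv Ψ z * db (fun z => ((φ z : ℝ) : ℂ)) z := by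
  have hsub : ∀ z, z ∉ tsupport φ → (fun z => deriv Ψ z * (φ z : ℂ)) =ᶠ[𝓝 z] fun _ => 0 := by
    intro z hz
    have h1 : ∀ᶠ w in 𝓝 z, w ∉ tsupport φ := (isClosed_tsupport φ).isOpen_compl.mem_nhds hz
    filter_upwards [h1] with w hw
    rw [image_eq_zero_of_notMem_tsupport hw]
    simp
  have hsub2 : ∀ z, z ∉ tsupport φ → (fun z => ((φ z : ℝ) : ℂ)) =ᶠ[𝓝 z] fun _ => 0 := by
    intro z hz
    have h1 : ∀ᶠ w in 𝓝 z, w ∉ tsupport φ := (isClosed_tsupport φ).isOpen_compl.mem_nhds hz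
    filter_upwards [h1] with w hw
    rw [image_eq_zero_of_notMem_tsupport hw]
    simp
  have hφc : ContDiff ℝ (⊤ : ℕ∞) (fun z => ((φ z : ℝ) : ℂ)) :=
    ofRealCLM.contDiff.comp hφ.1
  have hA : ∀ z ∈ U, AnalyticAt ℂ (deriv Ψ) z := fun z hz =>
    (hΨ.analyticAt (hU.mem_nhds hz)).deriv
  refine ⟨⟨?_, ?_, ?_⟩, ?_⟩
  · rw [contDiff_iff_contDiffAt]
    intro z
    by_cases hz : z ∈ tsupport φ
    · have h1 : ContDiffAt ℝ (⊤ : ℕ∞) (deriv Ψ) z :=
        ((hA z (hφ.2.2 hz)).contDiffAt (n := (⊤ : ℕ∞))).restrict_scalars ℝ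
      exact h1.mul hφc.contDiffAt
    · exact contDiffAt_const.congr_of_eventuallyEq (hsub z hz)
  · refine HasCompactSupport.intro hφ.2.1 fun z hz => ?_
    exact (hsub z hz).eq_of_nhds
  · refine (closure_minimal ?_ (isClosed_tsupport φ)).trans hφ.2.2
    intro z hz
    by_contra h1
    exact hz (hsub z h1).eq_of_nhds
  · intro z
    by_cases hz : z ∈ tsupport φ
    · have h1 : HasFDerivAt (deriv Ψ)
          ((ContinuousLinearMap.toSpanSingleton ℂ (deriv (deriv Ψ) z)).restrictScalars ℝ) z :=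
        (hA z (hφ.2.2 hz)).differentiableAt.hasDerivAt.hasFDerivAt.restrictScalars ℝ
      have h2 : HasFDerivAt (fun z => ((φ z : ℝ) : ℂ)) (fderiv ℝ (fun z => ((φ z : ℝ) : ℂ)) z) z :=
        (hφc.differentiable (by simp) z).hasFDerivAt
      have h3 : HasFDerivAt (fun z => deriv Ψ z * (φ z : ℂ)) _ z := h1.mul h2
      unfold db
      rw [h3.fderiv]
      simp only [add_apply, smul_apply,
        ContinuousLinearMap.coe_restrictScalars', ContinuousLinearMap.toSpanSingleton_apply,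
        smul_eq_mul]
      linear_combination ((φ z : ℂ) * deriv (deriv Ψ) z / 2) * I_mul_I
    · unfold db
      rw [(hsub z hz).fderiv_eq, (hsub2 z hz).fderiv_eq]
      simp

/-- one direction -/
private theorem cwg_main (h2 : S_cv) (h3 : S_ctf) (h4 : S_bridge) {U V : Set ℂ} {Ψ Θ : ℂ → ℂ}
    (hC : CB U V Ψ) (hV : IsOpen V) (hT : CB V U Θ) (hTP : ∀ z ∈ U, Θ (Ψ z) = z)
    (hPT : ∀ w ∈ V, Ψ (Θ w) = w) (u u' : ℂ → ℝ) (G : ℂ → ℂ) (hu : ∀ z ∈ U, u' z = u (Ψ z))
    (hW : WG U u' (pull Ψ G)) : WG V u G where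
  u2 := by
    refine cwg_loc h2 hC hT hTP hPT (fun z => (u z : ℂ)) fun K hK hKU => ?_
    have h5 : MemLp (fun z => conj (deriv Ψ z) * (u' z : ℂ)) 2 (volume.restrict K) := by
      have hcd : ContinuousOn (fun z => conj (deriv Ψ z)) K := by
        refine continuous_conj.comp_continuousOn ?_
        exact ((hC.hol.deriv hC.ou).continuousOn).mono hKU
      obtain ⟨C, hCb⟩ := hK.exists_bound_of_continuousOn hcd
      refine MemLp.of_le_mul (c := C) (hW.u2 K hK hKU) ?_ ?_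
      · exact (hcd.aestronglyMeasurable hK.measurableSet).mul (hW.u2 K hK hKU).1
      · filter_upwards [ae_restrict_mem hK.measurableSet] with z hz
        rw [norm_mul]
        exact mul_le_mul_of_nonneg_right (hCb z hz) (norm_nonneg _)
    refine h5.ae_eq ?_
    filter_upwards [ae_restrict_mem hK.measurableSet] with z hz
    rw [hu z (hKU hz)]
  G2 := cwg_loc h2 hC hT hTP hPT G fun K hK hKU => hW.G2 K hK hKU
  h := fun φ hφ => by
    obtain ⟨φ', hφ', hφ1, hφ2⟩ := (h3 U V Ψ hC).1 φ hφ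
    obtain ⟨hTF, hdb⟩ := cwg_deriv_mul hC.ou hC.hol hφ'
    have hWD := h4.2.1 U u' (pull Ψ G) hW
    have hB := hWD.hB _ hTF
    -- off V
    have hoff : ∀ z, z ∉ V → φ z = 0 ∧ gr φ z = 0 := by
      intro z hz
      have h1 : z ∉ tsupport φ := fun h' => hz (hφ.2.2 h')
      have h2' : φ =ᶠ[𝓝 z] fun _ => 0 := by
        have h1' : ∀ᶠ w in 𝓝 z, w ∉ tsupport φ :=
          (isClosed_tsupport φ).isOpen_compl.mem_nhds h1
        filter_upwards [h1'] with w hw
        exact image_eq_zero_of_notMem_tsupport hw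
      refine ⟨h2'.eq_of_nhds, ?_⟩
      unfold gr
      rw [h2'.fderiv_eq]
      simp
    have hoff' : ∀ z, z ∉ U → φ' z = 0 ∧ gr φ' z = 0 := by
      intro z hz
      have h1 : z ∉ tsupport φ' := fun h' => hz (hφ'.2.2 h')
      have h2' : φ' =ᶠ[𝓝 z] fun _ => 0 := by
        have h1' : ∀ᶠ w in 𝓝 z, w ∉ tsupport φ' :=
          (isClosed_tsupport φ').isOpen_compl.mem_nhds h1
        filter_upwards [h1'] with w hw
        exact image_eq_zero_of_notMem_tsupport hw
      refine ⟨h2'.eq_of_nhds, ?_⟩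
      unfold gr
      rw [h2'.fderiv_eq]
      simp
    have hgr : ∀ z, 2 * db (fun z => ((φ' z : ℝ) : ℂ)) z = gr φ' z := fun z =>
      (h4.2.2.2 φ' z (hφ'.1.differentiable (by simp) z)).symm
    -- the left hand side
    have hL : ∫ z, (u z : ℂ) * gr φ z =
        2 * ∫ z, (u' z : ℂ) * db (fun z => deriv Ψ z * (φ' z : ℂ)) z := by
      have hz1 : ∫ z, (2 : ℂ) * ((u' z : ℂ) * db (fun z => deriv Ψ z * (φ' z : ℂ)) z) =
          ∫ z in U, (2 : ℂ) * ((u' z : ℂ) * db (fun z => deriv Ψ z * (φ' z : ℂ)) z) := by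
        refine (setIntegral_eq_integral_of_forall_compl_eq_zero fun z hz => ?_).symm
        have h1 := hgr z
        rw [(hoff' z hz).2] at h1
        have h2' : db (fun z => ((φ' z : ℝ) : ℂ)) z = 0 := by
          have h3' : (2 : ℂ) ≠ 0 := two_ne_zero
          exact (mul_eq_zero.mp h1).resolve_left h3'
        rw [hdb, h2', mul_zero, mul_zero, mul_zero]
      rw [← setIntegral_eq_integral_of_forall_compl_eq_zero (s := V)
        (fun z hz => by rw [(hoff z hz).2, mul_zero]), cwg_cv hC, ← integral_const_mul, hz1]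
      refine setIntegral_congr_fun hC.ou.measurableSet fun z hz => ?_
      rw [hdb, hu z hz]
      have h1 : gr φ' z = conj (deriv Ψ z) * gr φ (Ψ z) := hφ2 z hz
      have h5 : ((‖deriv Ψ z‖ ^ 2 : ℝ) : ℂ) = deriv Ψ z * conj (deriv Ψ z) := by
        rw [mul_conj, Complex.normSq_eq_norm_sq]
      rw [h5]
      have h6 := hgr z
      rw [h1] at h6
      linear_combination (-(u (Ψ z) : ℂ) * deriv Ψ z) * h6
    have hR : ∫ z, G z * (φ z : ℂ) =
        2 * ∫ z, pull Ψ G z / 2 * (deriv Ψ z * (φ' z : ℂ)) := by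
      have hz1 : ∫ z, (2 : ℂ) * (pull Ψ G z / 2 * (deriv Ψ z * (φ' z : ℂ))) =
          ∫ z in U, (2 : ℂ) * (pull Ψ G z / 2 * (deriv Ψ z * (φ' z : ℂ))) := by
        refine (setIntegral_eq_integral_of_forall_compl_eq_zero fun z hz => ?_).symm
        rw [(hoff' z hz).1]
        simp
      rw [← setIntegral_eq_integral_of_forall_compl_eq_zero (s := V)
        (fun z hz => by rw [(hoff z hz).1]; simp), cwg_cv hC, ← integral_const_mul, hz1]
      refine setIntegral_congr_fun hC.ou.measurableSet fun z hz => ?_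
      have h5 : ((‖deriv Ψ z‖ ^ 2 : ℝ) : ℂ) = deriv Ψ z * conj (deriv Ψ z) := by
        rw [mul_conj, Complex.normSq_eq_norm_sq]
      rw [h5, hφ1 z hz]
      unfold pull
      ring
    rw [hL, hR, hB]
    ring

/-- [L5] -/
theorem piece_cwg (h1 : S_cinv) (h2 : S_cv) (h3 : S_ctf) (h4 : S_bridge) : S_cwg := by
  intro U V Ψ hC u u' G hu
  obtain ⟨hV, hne, Θ, hT, hTP, hPT, hder⟩ := h1 U V Ψ hC
  constructor
  · intro hW
    have hu2 : ∀ w ∈ V, u w = u' (Θ w) := by
      intro w hw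
      have hw' : Θ w ∈ U := by
        rw [← hT.img]
        exact ⟨w, hw, rfl⟩
      rw [hu _ hw', hPT w hw]
    have hG : ∀ w ∈ V, G w = pull Θ (pull Ψ G) w := by
      intro w hw
      have hw' : Θ w ∈ U := by
        rw [← hT.img]
        exact ⟨w, hw, rfl⟩
      have h5 := hder (Θ w) hw'
      rw [hPT w hw] at h5
      unfold pull
      rw [hPT w hw, ← mul_assoc, ← map_mul, h5, map_one, one_mul]
    exact cwg_main h2 h3 h4 hT hC.ou hC hPT hTP u' u (pull Ψ G) hu2
      (cwg_wg_congr hW hG)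
  · intro hW
    exact cwg_main h2 h3 h4 hC hV hT hTP hPT u u' G hu hW

end

end Cal
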