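import Pool.Agent.Lib.MP_4ea4c7_an.Stm2

/-! Piece D8a: the equation for `d`. -/

open MeasureTheory Complex Metric Set Filter Topology
open scoped ComplexConjugate ENNReal NNReal

namespace Cal

private lemma dw_hol {g : ℂ → ℂ} {g' z : ℂ} (h : HasDerivAt g g' z) : dz g z = g' ∧ db g z = 0 := by
  have h1 := h.hasFDerivAt.restrictScalars ℝ
  have h2 : ∀ v, fderiv ℝ g z v = g' * v := by
    intro v
    rw [h1.fderiv]
    simp [mul_comm]
  unfold dz db
  rw [h2, h2]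
  constructor
  · linear_combination (-(1 / 2 : ℂ) * g') * I_mul_I
  · linear_combination ((1 / 2 : ℂ) * g') * I_mul_I

private lemma dw_pow (m : ℕ) (z : ℂ) (hz : z ≠ 0) : (m : ℂ) * z ^ (m - 1) = z ^ m * ((m : ℂ) / z) := by
  cases m with
  | zero => simp
  | succ k =>
    simp only [Nat.add_sub_cancel, pow_succ]
    field_simp

private lemma dw_R {m n : ℕ} (hN : 1 ≤ m + n) {z : ℂ} (h2 : z ≠ 2) (h2' : z ≠ -2) :
    HasDerivAt (fun w : ℂ => (w + 2) ^ m * (2 - w) ^ n)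
      ((z + 2) ^ m * (2 - z) ^ n * (((m + n : ℕ) : ℂ) * gp m n z)) z := by
  have hN0 : ((m + n : ℕ) : ℂ) ≠ 0 := by
    exact_mod_cast (by omega : m + n ≠ 0)
  have e1 : z + 2 ≠ 0 := fun h => h2' (by linear_combination h)
  have e2 : (2 : ℂ) - z ≠ 0 := fun h => h2 (by linear_combination -h)
  have e3 : z - 2 ≠ 0 := fun h => h2 (by linear_combination h)
  have a1 : HasDerivAt (fun w : ℂ => (w + 2) ^ m) ((m : ℂ) * (z + 2) ^ (m - 1) * 1) z :=
    ((hasDerivAt_id z).add_const (2 : ℂ)).pow m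
  have a2 : HasDerivAt (fun w : ℂ => (2 - w) ^ n) ((n : ℂ) * (2 - z) ^ (n - 1) * (-1)) z :=
    ((hasDerivAt_id z).const_sub (2 : ℂ)).pow n
  have a3 := a1.mul a2
  refine a3.congr_deriv ?_
  rw [dw_pow m _ e1, dw_pow n _ e2]
  unfold gp
  have e4 : (n : ℂ) / (2 - z) = - ((n : ℂ) / (z - 2)) := by
    field_simp
    ring
  rw [e4]
  field_simp

/-- `f` divided by `(z+2)^m (2-z)^n` and a constant -/
private noncomputable def dwk (m n : ℕ) (f : ℂ → ℂ) (e : ℂ) (z : ℂ) : ℂ := f z * ((z + 2) ^ m * (2 - z) ^ n * e)⁻¹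

private lemma dw_log {m n : ℕ} (hN : 1 ≤ m + n) {f d : ℂ → ℂ} (hd : Continuous d)
    (he : ∀ z, f z = (z + 2) ^ m * (2 - z) ^ n * exp (((m + n : ℕ) : ℂ) * d z)) {z0 : ℂ} (h3 : z0 ≠ 2)
    (h3' : z0 ≠ -2) : ∃ V : Set ℂ, IsOpen V ∧ z0 ∈ V ∧ (2 : ℂ) ∉ V ∧ (-2 : ℂ) ∉ V ∧
      ∀ z ∈ V, dwk m n f (exp (((m + n : ℕ) : ℂ) * d z0)) z ∈ slitPlane ∧
        d z = d z0 + log (dwk m n f (exp (((m + n : ℕ) : ℂ) * d z0)) z) / ((m + n : ℕ) : ℂ) := by
  have hN0 : ((m + n : ℕ) : ℂ) ≠ 0 := by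
    exact_mod_cast (by omega : m + n ≠ 0)
  have hcont : Continuous (fun z => ‖((m + n : ℕ) : ℂ) * (d z - d z0)‖) := by fun_prop
  refine ⟨{z | ‖((m + n : ℕ) : ℂ) * (d z - d z0)‖ < 1} ∩ {2, -2}ᶜ, ?_, ?_, ?_, ?_, ?_⟩
  · refine IsOpen.inter (isOpen_lt hcont continuous_const) ?_
    exact (Set.toFinite _).isClosed.isOpen_compl
  · refine ⟨by simp, ?_⟩
    simp [h3, h3']
  · simp
  · simp
  · rintro z ⟨hz, hz2⟩
    simp only [mem_compl_iff, mem_insert_iff, mem_singleton_iff, not_or] at hz2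
    have e1 : z + 2 ≠ 0 := fun h => hz2.2 (by linear_combination h)
    have e2 : (2 : ℂ) - z ≠ 0 := fun h => hz2.1 (by linear_combination -h)
    have hR : (z + 2) ^ m * (2 - z) ^ n ≠ 0 := mul_ne_zero (pow_ne_zero _ e1) (pow_ne_zero _ e2)
    have hk : dwk m n f (exp (((m + n : ℕ) : ℂ) * d z0)) z = exp (((m + n : ℕ) : ℂ) * (d z - d z0)) := by
      unfold dwk
      rw [he z, mul_sub, exp_sub]
      have := exp_ne_zero (((m + n : ℕ) : ℂ) * d z0)
      field_simp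
    rw [hk]
    have him : |(((m + n : ℕ) : ℂ) * (d z - d z0)).im| < 1 := lt_of_le_of_lt (abs_im_le_norm _) hz
    have hpi := Real.pi_gt_three
    rw [abs_lt] at him
    constructor
    · rw [mem_slitPlane_iff]
      left
      rw [exp_re]
      refine mul_pos (Real.exp_pos _) (Real.cos_pos_of_mem_Ioo ⟨?_, ?_⟩)
      · linarith [him.1]
      · linarith [him.2]
    · rw [log_exp (by linarith [him.1]) (by linarith [him.2])]
      field_simp
      ring

private lemma dw_loc (h1 : S_basic) (h2 : S_smooth) (h4 : S_chain) {m n : ℕ} (hN : 1 ≤ m + n)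
    {f d Af Bf : ℂ → ℂ} (hf : WD univ f Af Bf) (hfc : Continuous f) (hd : Continuous d)
    (he : ∀ z, f z = (z + 2) ^ m * (2 - z) ^ n * exp (((m + n : ℕ) : ℂ) * d z)) {z0 : ℂ} (h3 : z0 ≠ 2)
    (h3' : z0 ≠ -2) : ∃ V : Set ℂ, IsOpen V ∧ z0 ∈ V ∧ V ⊆ {2, -2}ᶜ ∧
      WD V d (fun z => Af z / (((m + n : ℕ) : ℂ) * f z) - gp m n z) (fun z => Bf z / (((m + n : ℕ) : ℂ) * f z)) := by
  have hN0 : ((m + n : ℕ) : ℂ) ≠ 0 := by
    exact_mod_cast (by omega : m + n ≠ 0)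
  obtain ⟨V, hV, hz0, hV2, hV2', hVl⟩ := dw_log hN hd he h3 h3'
  set e0 := exp (((m + n : ℕ) : ℂ) * d z0) with he0
  have he0' : e0 ≠ 0 := exp_ne_zero _
  have hzV : ∀ z ∈ V, z ≠ 2 ∧ z ≠ -2 := fun z hz => ⟨fun h => hV2 (h ▸ hz), fun h => hV2' (h ▸ hz)⟩
  have hR : ∀ z ∈ V, (z + 2) ^ m * (2 - z) ^ n ≠ 0 := by
    intro z hz
    obtain ⟨a, b⟩ := hzV z hz
    exact mul_ne_zero (pow_ne_zero _ fun h => b (by linear_combination h))
      (pow_ne_zero _ fun h => a (by linear_combination -h))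
  have hf0 : ∀ z ∈ V, f z ≠ 0 := by
    intro z hz
    rw [he z]
    exact mul_ne_zero (hR z hz) (exp_ne_zero _)
  set g1 : ℂ → ℂ := fun z => ((z + 2) ^ m * (2 - z) ^ n * e0)⁻¹ with hg1
  have hg1d : ∀ z ∈ V, HasDerivAt g1 (-(((m + n : ℕ) : ℂ) * gp m n z) * g1 z) z := by
    intro z hz
    obtain ⟨a, b⟩ := hzV z hz
    have hh := ((dw_R hN a b).mul_const e0).inv (mul_ne_zero (hR z hz) he0')
    refine hh.congr_deriv ?_
    have := hR z hz
    simp only [hg1]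
    field_simp
  have hg1s : ContDiffOn ℝ (⊤ : ℕ∞) g1 V := by
    intro z hz
    have hz' : (z + 2) ^ m * (2 - z) ^ n * e0 ≠ 0 := mul_ne_zero (hR z hz) he0'
    refine ContDiffAt.contDiffWithinAt ?_
    refine ContDiffAt.inv ?_ hz'
    fun_prop
  obtain ⟨-, -, -, b4, b5, -⟩ := h1
  have w1 : WD V f Af Bf := b5 _ _ _ _ _ (subset_univ _) hf
  have w2 := h2.2.2 V f Af Bf g1 hV w1 hg1s
  -- the logarithm
  set G : ℂ → ℂ := fun w => d z0 + log w / ((m + n : ℕ) : ℂ) with hG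
  have hGd : ∀ w ∈ slitPlane, HasDerivAt G (w⁻¹ / ((m + n : ℕ) : ℂ)) w := by
    intro w hw
    exact ((hasDerivAt_log hw).div_const _).const_add _
  have hGs : ContDiffOn ℝ 1 G slitPlane := by
    have : DifferentiableOn ℂ G slitPlane := fun w hw => (hGd w hw).differentiableAt.differentiableWithinAt
    exact (this.contDiffOn isOpen_slitPlane).restrict_scalars ℝ
  have hkc : ContinuousOn (fun z => f z * g1 z) V :=
    hfc.continuousOn.mul hg1s.continuousOn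
  have hkm : MapsTo (fun z => f z * g1 z) V slitPlane := fun z hz => (hVl z hz).1
  have w3 := h4 V slitPlane _ _ _ G hV isOpen_slitPlane w2 hkc hkm hGs
  refine ⟨V, hV, hz0, ?_, ?_⟩
  · intro z hz
    simp only [mem_compl_iff, mem_insert_iff, mem_singleton_iff, not_or]
    exact hzV z hz
  · refine b4 V _ _ _ _ _ _ hV.measurableSet w3 ?_ ?_ ?_
    · refine ae_restrict_of_forall_mem hV.measurableSet fun z hz => ?_
      exact ((hVl z hz).2).symm
    · refine ae_restrict_of_forall_mem hV.measurableSet fun z hz => ?_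
      obtain ⟨c1, c2⟩ := dw_hol (hGd _ (hkm hz))
      obtain ⟨c3, c4⟩ := dw_hol (hg1d z hz)
      show dz G (f z * g1 z) * (Af z * g1 z + f z * dz g1 z) + db G (f z * g1 z) * conj (Bf z * g1 z + f z * db g1 z) = _
      rw [c1, c2, c3]
      have d1 := hf0 z hz
      have d2 : g1 z ≠ 0 := inv_ne_zero (mul_ne_zero (hR z hz) he0')
      field_simp
      ring
    · refine ae_restrict_of_forall_mem hV.measurableSet fun z hz => ?_
      obtain ⟨c1, c2⟩ := dw_hol (hGd _ (hkm hz))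
      obtain ⟨c3, c4⟩ := dw_hol (hg1d z hz)
      show dz G (f z * g1 z) * (Bf z * g1 z + f z * db g1 z) + db G (f z * g1 z) * conj (Af z * g1 z + f z * dz g1 z) = _
      rw [c1, c2, c4]
      have d1 := hf0 z hz
      have d2 : g1 z ≠ 0 := inv_ne_zero (mul_ne_zero (hR z hz) he0')
      field_simp
      ring

private lemma dw_sing {d : ℂ → ℂ} (hd : Continuous d) {c : ℂ} (hc : ‖c‖ = 2)
    (h : ∀ z, 5 / 4 < ‖z‖ → z ≠ 2 → z ≠ -2 → DifferentiableAt ℂ d z) (hc2 : c = 2 ∨ c = -2) :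
    DifferentiableAt ℂ d c := by
  have hs : ball c (1 / 2) ∈ 𝓝 c := ball_mem_nhds c (by norm_num)
  refine DifferentiableOn.differentiableAt ?_ hs
  rw [← Complex.differentiableOn_compl_singleton_and_continuousAt_iff hs]
  refine ⟨?_, hd.continuousAt⟩
  rintro z ⟨hz, hz'⟩
  rw [mem_ball, dist_eq_norm] at hz
  have h1 : ‖c‖ ≤ ‖z‖ + ‖z - c‖ := by
    have : c = z - (z - c) := by ring
    calc ‖c‖ = ‖z - (z - c)‖ := by rw [← this]
      _ ≤ _ := norm_sub_le _ _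
  have hz'' : z ≠ c := hz'
  refine (h z (by linarith) ?_ ?_).differentiableWithinAt
  · rintro rfl
    rcases hc2 with h | h
    · exact hz'' h.symm
    · rw [h] at hz
      norm_num at hz
  · rintro rfl
    rcases hc2 with h | h
    · rw [h] at hz
      norm_num at hz
    · exact hz'' h.symm

theorem piece_dW (h1 : S_basic) (h2 : S_smooth) (h4 : S_chain) (h5 : S_glue) (h6 : S_wuniq)
    (h7 : S_polypart) : S_dW := by
  intro κ _ _ μ hμ m n f d hF hN
  have hN0 : ((m + n : ℕ) : ℂ) ≠ 0 := by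
    exact_mod_cast (by omega : m + n ≠ 0)
  obtain ⟨Af, Bf, hW, hEq⟩ := hF.pn.bel
  obtain ⟨p, -, -, -, hfd⟩ := h7 κ μ (m + n) f hμ hF.pn
  have hEo : IsOpen {z : ℂ | 5 / 4 < ‖z‖} := isOpen_lt continuous_const continuous_norm
  have hVo : IsOpen ({2, -2}ᶜ : Set ℂ) := (Set.toFinite _).isClosed.isOpen_compl
  -- the weak derivatives off `±2`
  have hWV : WD ({2, -2}ᶜ : Set ℂ) d (fun z => Af z / (((m + n : ℕ) : ℂ) * f z) - gp m n z)
      (fun z => Bf z / (((m + n : ℕ) : ℂ) * f z)) := by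
    refine h5 _ _ _ _ hVo fun z hz => ?_
    simp only [mem_compl_iff, mem_insert_iff, mem_singleton_iff, not_or] at hz
    obtain ⟨V, a, b, c, e⟩ := dw_loc h1 h2 h4 hN hW hF.pn.cont hF.dcont hF.eq hz.1 hz.2
    exact ⟨V, a, b, c, e⟩
  -- holomorphy
  have hda : ∀ z : ℂ, 5 / 4 < ‖z‖ → z ≠ 2 → z ≠ -2 → DifferentiableAt ℂ d z := by
    intro z hz hz2 hz2'
    obtain ⟨V, hV, hzV, -, -, hVl⟩ := dw_log hN hF.dcont hF.eq hz2 hz2'
    have e1 : z + 2 ≠ 0 := fun h => hz2' (by linear_combination h)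
    have e2 : (2 : ℂ) - z ≠ 0 := fun h => hz2 (by linear_combination -h)
    have hfz : DifferentiableAt ℂ f z := hfd.differentiableAt (hEo.mem_nhds hz)
    have hk : DifferentiableAt ℂ (dwk m n f (exp (((m + n : ℕ) : ℂ) * d z))) z := by
      unfold dwk
      refine hfz.mul ?_
      refine DifferentiableAt.inv (by fun_prop) ?_
      exact mul_ne_zero (mul_ne_zero (pow_ne_zero _ e1) (pow_ne_zero _ e2)) (exp_ne_zero _)
    have hl : DifferentiableAt ℂ (fun w => d z + log (dwk m n f (exp (((m + n : ℕ) : ℂ) * d z)) w) /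
        ((m + n : ℕ) : ℂ)) z :=
      ((hk.clog (hVl z hzV).1).div_const _).const_add _
    refine hl.congr_of_eventuallyEq ?_
    filter_upwards [hV.mem_nhds hzV] with w hw using (hVl w hw).2
  have hdE : DifferentiableOn ℂ d {z | 5 / 4 < ‖z‖} := by
    intro z hz
    refine DifferentiableAt.differentiableWithinAt ?_
    by_cases hz2 : z = 2
    · rw [hz2]
      exact dw_sing hF.dcont (by simp) hda (Or.inl rfl)
    · by_cases hz2' : z = -2
      · rw [hz2']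
        exact dw_sing hF.dcont (by simp) hda (Or.inr rfl)
      · exact hda z hz hz2 hz2'
  have hae : ∀ᵐ z : ℂ, z ∈ ({2, -2}ᶜ : Set ℂ) := by
    have : (volume : Measure ℂ) ({2, -2} : Set ℂ) = 0 := (Set.toFinite _).measure_zero _
    exact measure_eq_zero_iff_ae_notMem.1 this
  have hWE : WD {z : ℂ | 5 / 4 < ‖z‖} d (fun z => Af z / (((m + n : ℕ) : ℂ) * f z) - gp m n z)
      (fun z => Bf z / (((m + n : ℕ) : ℂ) * f z)) := by
    have w1 := h2.2.1 _ d hEo hdE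
    have w2 := h1.2.2.2.2.1 _ ({z : ℂ | 5 / 4 < ‖z‖} ∩ ({2, -2}ᶜ : Set ℂ)) _ _ _ inter_subset_left w1
    have w3 := h1.2.2.2.2.1 _ ({z : ℂ | 5 / 4 < ‖z‖} ∩ ({2, -2}ᶜ : Set ℂ)) _ _ _ inter_subset_right hWV
    obtain ⟨u1, u2⟩ := h6 _ _ _ _ _ _ _ (hEo.inter hVo) w2 w3 (ae_eq_refl _)
    have key : ∀ {g g' : ℂ → ℂ}, g =ᵐ[volume.restrict ({z : ℂ | 5 / 4 < ‖z‖} ∩ ({2, -2}ᶜ : Set ℂ))] g' →
        g =ᵐ[volume.restrict {z : ℂ | 5 / 4 < ‖z‖}] g' := by
      intro g g' h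
      have h' := (ae_restrict_iff' (hEo.inter hVo).measurableSet).1 h
      refine (ae_restrict_iff' hEo.measurableSet).2 ?_
      filter_upwards [h', hae] with z hz hz2 hz3 using hz ⟨hz3, hz2⟩
    exact h1.2.2.2.1 _ _ _ _ _ _ _ hEo.measurableSet w1 (ae_eq_refl _) (key u1) (key u2)
  refine ⟨fun z => Af z / (((m + n : ℕ) : ℂ) * f z) - gp m n z, fun z => Bf z / (((m + n : ℕ) : ℂ) * f z), ?_, ?_, hdE⟩
  · refine h5 _ _ _ _ isOpen_univ fun z _ => ?_
    by_cases hz : z ∈ ({2, -2}ᶜ : Set ℂ)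
    · exact ⟨_, hVo, hz, subset_univ _, hWV⟩
    · refine ⟨_, hEo, ?_, subset_univ _, hWE⟩
      simp only [mem_compl_iff, mem_insert_iff, mem_singleton_iff, not_not] at hz
      rcases hz with h | h
      · rw [h]; simp only [mem_ofPred_eq, Complex.norm_ofNat]; norm_num
      · rw [h]; simp only [mem_ofPred_eq, norm_neg, Complex.norm_ofNat]; norm_num
  · rw [Measure.restrict_univ] at hEq
    filter_upwards [hEq, hae] with z hz hz2
    simp only [mem_compl_iff, mem_insert_iff, mem_singleton_iff, not_or] at hz2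
    have hfz : f z ≠ 0 := by
      rw [hF.eq z]
      exact mul_ne_zero (mul_ne_zero (pow_ne_zero _ fun h => hz2.2 (by linear_combination h))
        (pow_ne_zero _ fun h => hz2.1 (by linear_combination -h))) (exp_ne_zero _)
    have hfz' : conj (f z) ≠ 0 := by
      simpa using hfz
    rw [hz, sub_add_cancel, map_div₀, map_mul, map_natCast]
    field_simp

end Cal
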