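import Pool.Agent.Lib.MP_4ea4c7_an.Stm2

/-!
[D8b] Energy of `d`.
-/

open MeasureTheory Complex Metric Set Filter Topology
open scoped ComplexConjugate ENNReal NNReal

namespace Cal

noncomputable section

private def dWD_g : ℂ → ℝ := (closedBall (0 : ℂ) (5 / 4)).indicator fun _ => (4 / 3 : ℝ)

private theorem dWD_g_memLp : MemLp dWD_g 2 volume :=
  memLp_indicator_const 2 isClosed_closedBall.measurableSet _
    (Or.inr (measure_closedBall_lt_top.ne))

private theorem dWD_g_nonneg (z : ℂ) : 0 ≤ dWD_g z := by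
  unfold dWD_g
  exact indicator_nonneg (fun _ _ => by norm_num) z

private theorem dWD_unit (w : ℂ) : ‖conj w / w‖ ≤ 1 := by
  rw [norm_div, RCLike.norm_conj]
  exact div_self_le_one _

private theorem dWD_gp {m n : ℕ} (hmn : 1 ≤ m + n) {z : ℂ} (hz : ‖z‖ ≤ 5 / 4) :
    ‖gp m n z‖ ≤ 4 / 3 := by
  have hN : (0 : ℝ) < ((m + n : ℕ) : ℝ) := by exact_mod_cast hmn
  have h2 : ‖(2 : ℂ)‖ = 2 := by simp
  have h1 : 3 / 4 ≤ ‖z + 2‖ := by
    have h := norm_sub_le (z + 2) z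
    rw [add_sub_cancel_left, h2] at h
    linarith
  have h3 : 3 / 4 ≤ ‖z - 2‖ := by
    have h := norm_sub_le z (z - 2)
    rw [sub_sub_cancel, h2] at h
    linarith
  have i1 : 1 / ‖z + 2‖ ≤ 4 / 3 := by
    rw [div_le_div_iff₀ (by linarith) (by norm_num)]
    linarith
  have i2 : 1 / ‖z - 2‖ ≤ 4 / 3 := by
    rw [div_le_div_iff₀ (by linarith) (by norm_num)]
    linarith
  unfold gp
  refine (norm_add_le _ _).trans ?_
  rw [norm_div, norm_div, norm_div, norm_div, Complex.norm_natCast, Complex.norm_natCast,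
    Complex.norm_natCast]
  have e1 : (m : ℝ) / ((m + n : ℕ) : ℝ) / ‖z + 2‖ ≤ (m : ℝ) / ((m + n : ℕ) : ℝ) * (4 / 3) := by
    rw [div_eq_mul_one_div _ ‖z + 2‖]
    exact mul_le_mul_of_nonneg_left i1 (by positivity)
  have e2 : (n : ℝ) / ((m + n : ℕ) : ℝ) / ‖z - 2‖ ≤ (n : ℝ) / ((m + n : ℕ) : ℝ) * (4 / 3) := by
    rw [div_eq_mul_one_div _ ‖z - 2‖]
    exact mul_le_mul_of_nonneg_left i2 (by positivity)
  have e3 : (m : ℝ) / ((m + n : ℕ) : ℝ) + (n : ℝ) / ((m + n : ℕ) : ℝ) = 1 := by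
    rw [← add_div, ← Nat.cast_add]
    exact div_self hN.ne'
  nlinarith

theorem piece_dWD (h1 : S_dW) (h2 : S_uniq) : S_dWD := by
  intro κ hκ hκ1
  set G : ℝ := (eLpNorm dWD_g 2 volume).toReal with hG
  have hG0 : 0 ≤ G := ENNReal.toReal_nonneg
  have h1κ : 0 < 1 - κ := by linarith
  refine ⟨κ * G / (1 - κ), by positivity, fun μ hμ m n f d hF hmn => ?_⟩
  obtain ⟨A, B, hWD, heq, hdiff⟩ := h1 κ hκ hκ1 μ hμ m n f d hF hmn
  have hB0 : ∀ᵐ z : ℂ, 5 / 4 < ‖z‖ → B z = 0 := by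
    filter_upwards [heq] with z hz hz5
    rw [hz, hμ.supp z hz5]
    simp
  obtain ⟨-, hA2, hB2, hAB⟩ := h2 d A B hWD hB0 hF.ddec
  have hpt : ∀ᵐ z : ℂ, ‖B z‖ ≤ κ * (‖A z‖ + dWD_g z) := by
    filter_upwards [heq] with z hz
    by_cases hz5 : ‖z‖ ≤ 5 / 4
    · have hg : dWD_g z = 4 / 3 := by
        unfold dWD_g
        rw [indicator_of_mem (by simpa using hz5)]
      rw [hz, hg, norm_mul, norm_mul, RCLike.norm_conj, Complex.norm_real, Real.norm_eq_abs]
      have a1 : ‖A z + gp m n z‖ ≤ ‖A z‖ + 4 / 3 :=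
        (norm_add_le _ _).trans (by linarith [dWD_gp hmn hz5])
      have a2 : |μ z| * ‖conj (f z) / f z‖ ≤ κ * 1 :=
        mul_le_mul (hμ.bd z) (dWD_unit _) (norm_nonneg _) hκ
      rw [mul_one] at a2
      exact mul_le_mul a2 a1 (norm_nonneg _) hκ
    · rw [not_le] at hz5
      rw [hz, hμ.supp z hz5]
      simp only [ofReal_zero, zero_mul, norm_zero]
      exact mul_nonneg hκ (add_nonneg (norm_nonneg _) (dWD_g_nonneg z))
  have hle : eLpNorm B 2 volume ≤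
      ENNReal.ofReal κ * (eLpNorm A 2 volume + eLpNorm dWD_g 2 volume) := by
    refine (eLpNorm_mono_ae_real hpt).trans ?_
    have e1 : (fun z => κ * (‖A z‖ + dWD_g z)) = κ • ((fun z => ‖A z‖) + dWD_g) := by
      funext z
      simp
    rw [e1, eLpNorm_const_smul, Real.enorm_eq_ofReal hκ]
    gcongr
    refine (eLpNorm_add_le hA2.aestronglyMeasurable.norm dWD_g_memLp.aestronglyMeasurable
      (by norm_num)).trans ?_
    rw [eLpNorm_norm]
  have hAtop : eLpNorm A 2 volume ≠ ⊤ := hA2.eLpNorm_ne_top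
  have hGtop : eLpNorm dWD_g 2 volume ≠ ⊤ := dWD_g_memLp.eLpNorm_ne_top
  rw [← hAB] at hle
  have hreal : (eLpNorm A 2 volume).toReal ≤ κ * ((eLpNorm A 2 volume).toReal + G) := by
    have := ENNReal.toReal_mono (ENNReal.mul_ne_top ENNReal.ofReal_ne_top
      (ENNReal.add_ne_top.2 ⟨hAtop, hGtop⟩)) hle
    rw [ENNReal.toReal_mul, ENNReal.toReal_ofReal hκ, ENNReal.toReal_add hAtop hGtop] at this
    exact this
  have hfin : (eLpNorm A 2 volume).toReal ≤ κ * G / (1 - κ) := by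
    rw [le_div_iff₀ h1κ]
    nlinarith
  have hfin' : eLpNorm A 2 volume ≤ ENNReal.ofReal (κ * G / (1 - κ)) := by
    rw [← ENNReal.ofReal_toReal hAtop]
    exact ENNReal.ofReal_le_ofReal hfin
  exact ⟨A, B, hWD, heq, hA2, hB2, hfin', hAB ▸ hfin', hdiff⟩

end

end Cal
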