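import Pool.Agent.Lib.MP_4ea4c7_an.StmD

/-!
# S_dec: decomposition of a smooth function vanishing near the corners
-/

open MeasureTheory Complex Metric Set Filter Topology
open scoped ComplexConjugate ENNReal NNReal

namespace Cal

noncomputable section

/-- radial cutoff: one for `‖z‖ ≤ a`, zero for `b ≤ ‖z‖` -/
private def decCut (a b : ℝ) (z : ℂ) : ℝ := Real.smoothTransition ((b ^ 2 - ‖z‖ ^ 2) / (b ^ 2 - a ^ 2))

private theorem decCut_smooth (a b : ℝ) : ContDiff ℝ (⊤ : ℕ∞) (decCut a b) := by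
  unfold decCut
  exact Real.smoothTransition.contDiff.comp
    ((contDiff_const.sub (contDiff_norm_sq ℝ)).div_const _)

private theorem decCut_one {a b : ℝ} (ha : 0 ≤ a) (hab : a < b) {z : ℂ} (hz : ‖z‖ ≤ a) :
    decCut a b z = 1 := by
  unfold decCut
  apply Real.smoothTransition.one_of_one_le
  have h1 : 0 < b ^ 2 - a ^ 2 := by nlinarith
  rw [one_le_div h1]
  nlinarith [norm_nonneg z]

private theorem decCut_zero {a b : ℝ} (ha : 0 ≤ a) (hab : a < b) {z : ℂ} (hz : b ≤ ‖z‖) :
    decCut a b z = 0 := by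
  unfold decCut
  apply Real.smoothTransition.zero_of_nonpos
  have h1 : 0 < b ^ 2 - a ^ 2 := by nlinarith
  apply div_nonpos_of_nonpos_of_nonneg _ h1.le
  nlinarith [norm_nonneg z]

private theorem decCut_conj (a b : ℝ) (z : ℂ) : decCut a b (conj z) = decCut a b z := by
  unfold decCut
  rw [Complex.norm_conj]

private theorem dec_smooth_conj {Φ : ℂ → ℝ} (h : ContDiff ℝ (⊤ : ℕ∞) Φ) :
    ContDiff ℝ (⊤ : ℕ∞) (fun z => Φ (conj z)) :=
  h.comp Complex.conjCLE.contDiff

private theorem dec_gr_sub {a b : ℂ → ℝ} {z : ℂ} (ha : DifferentiableAt ℝ a z)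
    (hb : DifferentiableAt ℝ b z) : gr (fun w => a w - b w) z = gr a z - gr b z := by
  unfold gr
  rw [fderiv_fun_sub ha hb]
  simp only [sub_apply, ofReal_sub]
  ring

private theorem dec_gr_congr {a b : ℂ → ℝ} {z : ℂ} (h : a =ᶠ[𝓝 z] b) : gr a z = gr b z := by
  unfold gr
  rw [h.fderiv_eq]

private theorem dec_gr_mem {u : ℂ → ℝ} (hu : ContDiff ℝ (⊤ : ℕ∞) u) (hs : HasCompactSupport u) :
    MemLp (gr u) 2 volume := by
  have h1 : Continuous (fderiv ℝ u) := hu.continuous_fderiv (by simp)
  have h2 : Continuous (gr u) := by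
    unfold gr
    fun_prop
  have h3 : HasCompactSupport (gr u) := by
    have h4 : HasCompactSupport (fderiv ℝ u) := hs.fderiv ℝ
    have h5 : gr u = (fun L : ℂ →L[ℝ] ℝ => ((L 1 : ℝ) : ℂ) + I * ((L I : ℝ) : ℂ)) ∘ fderiv ℝ u := rfl
    rw [h5]
    exact h4.comp_left (by simp)
  exact h2.memLp_of_hasCompactSupport h3

private theorem dec_oc (h1 : I_zext) (h2 : S_bridge) (h3 : S_basic) {u : ℂ → ℝ}
    (hu : ContDiff ℝ (⊤ : ℕ∞) u) (hc : HasCompactSupport u) (h0 : ∀ x : ℝ, u x = 0) :
    ∃ (Ψ : ℂ → ℝ) (H : ℂ → ℂ), OC Ψ H ∧ ∀ z : ℂ, 0 < z.im → H z = gr u z := by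
  obtain ⟨hbr1, hbr2, hbr3, _⟩ := h2
  obtain ⟨hba1, hba2, _, _, _, hba6⟩ := h3
  have hwu : WG univ u (gr u) := hbr3 univ u isOpen_univ (hu.contDiffOn.of_le (by simp))
  have hwp := h1 u (gr u) hu.continuous hwu h0
  set up : ℂ → ℝ := fun z => if 0 < z.im then u z else 0 with hup
  set G : ℂ → ℂ := fun z => if 0 < z.im then gr u z else 0 with hG
  -- continuity of the half extension
  have hupc : Continuous up := by
    have h4 : up = fun z : ℂ => u ⟨z.re, max z.im 0⟩ := by
      funext z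
      by_cases hz : 0 < z.im
      · have h5 : (⟨z.re, max z.im 0⟩ : ℂ) = z := by
          apply Complex.ext
          · rfl
          · exact max_eq_left hz.le
        rw [hup]
        simp only [hz, if_true, h5]
      · have h5 : (⟨z.re, max z.im 0⟩ : ℂ) = (z.re : ℂ) := by
          apply Complex.ext
          · simp
          · simp [max_eq_right (not_lt.1 hz)]
        rw [hup]
        simp only [hz, if_false, h5, h0]
    rw [h4]
    have h6 : (fun z : ℂ => (⟨z.re, max z.im 0⟩ : ℂ)) =
        fun z : ℂ => (z.re : ℂ) + ((max z.im 0 : ℝ) : ℂ) * I := by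
      funext z
      apply Complex.ext <;> simp
    exact hu.continuous.comp (by rw [h6]; fun_prop)
  have hupcs : HasCompactSupport up := by
    refine HasCompactSupport.intro hc fun z hz => ?_
    rw [hup]
    simp only [image_eq_zero_of_notMem_tsupport hz, ite_self]
  have hGmem : MemLp G 2 volume := by
    have h4 : G = {z : ℂ | 0 < z.im}.indicator (gr u) := by
      funext z
      rw [hG]
      by_cases hz : 0 < z.im
      · simp [hz]
      · simp [hz]
    rw [h4]
    exact (dec_gr_mem hu hc).indicator (isOpen_lt continuous_const Complex.continuous_im).measurableSet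
  have hmp : MeasurePreserving (fun z : ℂ => conj z) volume volume :=
    Complex.conjLIE.measurePreserving
  -- weak gradient of the difference
  have hw1 := hbr2 _ _ _ hwp
  have hw2 := hba6 _ _ _ _ hw1
  have hset : {z : ℂ | conj z ∈ (univ : Set ℂ)} = univ := by simp
  rw [hset] at hw2
  have hw3 := hba2 _ _ _ _ (-1) hw2
  have hw4 := hba1 _ _ _ _ _ _ _ hw1 hw3
  have hw5 := (hbr1 _ _ _ _ hw4).1
  refine ⟨fun z => up z - up (conj z), fun z => G z - conj (G (conj z)), ⟨?_, ?_, ?_, ?_, ?_⟩, ?_⟩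
  · exact hupc.sub (hupc.comp Complex.continuous_conj)
  · exact hupcs.sub (hupcs.comp_homeomorph Complex.conjCLE.toHomeomorph)
  · intro z
    simp only [Complex.conj_conj]
    ring
  · have e1 : (fun z => up z - up (conj z)) = fun z : ℂ =>
        (((up z : ℝ) : ℂ) + -1 * conj ((up (conj z) : ℝ) : ℂ)).re := by
      funext z
      simp
      ring
    have e2 : (fun z => G z - conj (G (conj z))) = fun z : ℂ =>
        conj (conj (G z) / 2 + -1 * conj (conj (G (conj z)) / 2)) +
          (G z / 2 + -1 * conj (G (conj z) / 2)) := by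
      funext z
      simp only [map_add, map_mul, map_neg, map_one, map_div₀, Complex.conj_conj]
      have : (conj (2 : ℂ)) = 2 := Complex.conj_ofNat 2
      rw [this]
      ring
    rw [e1, e2]
    exact hw5
  · exact hGmem.sub (hGmem.comp_measurePreserving hmp).star
  · intro z hz
    have h4 : ¬ 0 < (conj z).im := by
      rw [Complex.conj_im]
      linarith
    simp only [hG, hz, h4, if_true, if_false, map_zero, sub_zero]

theorem piece_dec (h1 : I_zext) (h2 : S_bridge) (h3 : S_basic) : S_dec := by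
  rintro Φ ⟨hΦs, hΦc, _⟩ hp hm
  obtain ⟨ρ1, hρ1, hp1⟩ := Metric.eventually_nhds_iff.1 hp
  obtain ⟨ρ2, hρ2, hp2⟩ := Metric.eventually_nhds_iff.1 hm
  obtain ⟨ρ, hρ, hρa, hρb, hρc⟩ : ∃ ρ : ℝ, 0 < ρ ∧ ρ ≤ ρ1 ∧ ρ ≤ ρ2 ∧ ρ ≤ 1 / 2 :=
    ⟨min (min ρ1 ρ2) (1 / 2), by positivity,
      (min_le_left _ _).trans (min_le_left _ _), (min_le_left _ _).trans (min_le_right _ _),
      min_le_right _ _⟩
  have hz1 : ∀ z : ℂ, ‖z - 1‖ < ρ → Φ z = 0 := fun z hz =>
    hp1 (by rw [dist_eq_norm]; exact lt_of_lt_of_le hz hρa)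
  have hz2 : ∀ z : ℂ, ‖z + 1‖ < ρ → Φ z = 0 := fun z hz =>
    hp2 (by rw [dist_eq_norm, sub_neg_eq_add]; exact lt_of_lt_of_le hz hρb)
  set ω : ℂ → ℝ := decCut (1 - ρ) (1 - ρ / 2) with hω
  set τ : ℂ → ℝ := decCut 1 (1 + ρ / 2) with hτ
  have hωs : ContDiff ℝ (⊤ : ℕ∞) ω := decCut_smooth _ _
  have hτs : ContDiff ℝ (⊤ : ℕ∞) τ := decCut_smooth _ _
  set φ : ℂ → ℝ := fun z => (Φ z + Φ (conj z)) / 2 * ω z with hφ
  have hφs : ContDiff ℝ (⊤ : ℕ∞) φ := ((hΦs.add (dec_smooth_conj hΦs)).div_const _).mul hωs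
  have hφ0 : ∀ z : ℂ, 1 - ρ / 2 ≤ ‖z‖ → φ z = 0 := by
    intro z hz
    rw [hφ]
    simp only [hω, decCut_zero (by linarith : (0 : ℝ) ≤ 1 - ρ) (by linarith) hz, mul_zero]
  have hφt : tsupport φ ⊆ closedBall 0 (1 - ρ / 2) := by
    refine closure_minimal ?_ isClosed_closedBall
    intro z hz
    rw [mem_closedBall, dist_zero_right]
    by_contra h
    exact hz (hφ0 z (not_le.1 h).le)
  have hφc : HasCompactSupport φ := HasCompactSupport.of_support_subset_isCompact
    (isCompact_closedBall 0 (1 - ρ / 2)) ((subset_tsupport φ).trans hφt)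
  have hreal : ∀ x : ℝ, |x| ≤ 1 → φ x = Φ x := by
    intro x hx
    by_cases h : |x| ≤ 1 - ρ
    · have h4 : ω (x : ℂ) = 1 := decCut_one (by linarith) (by linarith)
        (by rwa [Complex.norm_real, Real.norm_eq_abs])
      rw [hφ]
      simp only [h4, Complex.conj_ofReal]
      ring
    · have h4 : Φ (x : ℂ) = 0 := by
        rw [not_le] at h
        rcases le_or_gt 0 x with h5 | h5
        · apply hz1
          rw [← Complex.ofReal_one, ← Complex.ofReal_sub, Complex.norm_real, Real.norm_eq_abs,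
            abs_lt]
          rw [abs_of_nonneg h5] at h hx
          constructor <;> linarith
        · apply hz2
          rw [← Complex.ofReal_one, ← Complex.ofReal_add, Complex.norm_real, Real.norm_eq_abs,
            abs_lt]
          rw [abs_of_neg h5] at h hx
          constructor <;> linarith
      rw [hφ]
      simp only [Complex.conj_ofReal, h4]
      ring
  set u : ℂ → ℝ := fun z => τ z * (Φ z - φ z) with hu
  have hus : ContDiff ℝ (⊤ : ℕ∞) u := hτs.mul (hΦs.sub hφs)
  have huc : HasCompactSupport u := (hΦc.sub hφc).mul_left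
  have hu0 : ∀ x : ℝ, u x = 0 := by
    intro x
    rw [hu]
    simp only
    by_cases h : |x| ≤ 1
    · rw [hreal x h, sub_self, mul_zero]
    · rw [not_le] at h
      by_cases h' : 1 + ρ / 2 ≤ |x|
      · have h4 : τ (x : ℂ) = 0 := decCut_zero (by norm_num) (by linarith)
          (by rwa [Complex.norm_real, Real.norm_eq_abs])
        rw [h4, zero_mul]
      · rw [not_le] at h'
        have h4 : φ (x : ℂ) = 0 := hφ0 _ (by rw [Complex.norm_real, Real.norm_eq_abs]; linarith)
        have h5 : Φ (x : ℂ) = 0 := by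
          rcases le_or_gt 0 x with h5 | h5
          · apply hz1
            rw [← Complex.ofReal_one, ← Complex.ofReal_sub, Complex.norm_real, Real.norm_eq_abs,
              abs_lt]
            rw [abs_of_nonneg h5] at h h'
            constructor <;> linarith
          · apply hz2
            rw [← Complex.ofReal_one, ← Complex.ofReal_add, Complex.norm_real, Real.norm_eq_abs,
              abs_lt]
            rw [abs_of_neg h5] at h h'
            constructor <;> linarith
        rw [h4, h5, sub_zero, mul_zero]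
  obtain ⟨Ψ, H, hOC, hH⟩ := dec_oc h1 h2 h3 hus huc hu0
  refine ⟨φ, Ψ, H, ⟨⟨hφs, hφc, ?_⟩, ?_⟩, hOC, ?_, hreal, ?_⟩
  · refine hφt.trans (closedBall_subset_ball (by linarith))
  · intro z
    rw [hφ]
    simp only [Complex.conj_conj, hω, decCut_conj]
    ring
  · rintro z ⟨hz1, hz2⟩
    rw [hH z hz2]
    have h4 : u =ᶠ[𝓝 z] fun w => Φ w - φ w := by
      have h5 : ball (0 : ℂ) 1 ∈ 𝓝 z := isOpen_ball.mem_nhds (by rwa [mem_ball, dist_zero_right])
      filter_upwards [h5] with w hw
      rw [mem_ball, dist_zero_right] at hw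
      have h6 : τ w = 1 := decCut_one (by norm_num) (by linarith) hw.le
      rw [hu]
      simp only [h6, one_mul]
    rw [dec_gr_congr h4, dec_gr_sub (hΦs.differentiable (by simp) z)
      (hφs.differentiable (by simp) z)]
    ring
  · rintro z ⟨hz1, hz2⟩
    by_contra hz3
    rw [notMem_tsupport_iff_eventuallyEq] at hz3
    apply notMem_tsupport_iff_eventuallyEq.2 ?_ hz2
    have h5 : conj z = z := Complex.conj_eq_iff_im.2 hz1
    have h6 : ∀ᶠ w in 𝓝 z, Φ (conj w) = 0 := by
      have h7 : Tendsto (fun w : ℂ => conj w) (𝓝 z) (𝓝 z) := by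
        have h8 : Tendsto (fun w : ℂ => conj w) (𝓝 z) (𝓝 (conj z)) :=
          Complex.continuous_conj.continuousAt
        rwa [h5] at h8
      exact h7.eventually hz3
    filter_upwards [hz3, h6] with w hw1 hw2
    rw [hφ]
    simp only [hw1, hw2, Pi.zero_apply]
    ring

end

end Cal
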