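import Pool.Agent.Lib.MP_4ea4c7_an.StmF

/-!
MP_4ea4c7_an, piece M5: density of smooth functions in the disc.
-/

open MeasureTheory Complex Metric Set Filter Topology
open scoped ComplexConjugate ENNReal NNReal

namespace Cal

private theorem dens1_cb {r : ℝ} (h0 : 0 < r) :
    CB (ball 0 (1 / r)) (ball 0 1) (fun z => (r : ℂ) * z) := by
  have hr : (r : ℂ) ≠ 0 := by exact_mod_cast h0.ne'
  refine ⟨isOpen_ball, ?_, ?_, ?_⟩
  · exact (differentiable_id.const_mul (r : ℂ)).differentiableOn
  · intro z _ w _ h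
    exact mul_left_cancel₀ hr h
  · ext w
    constructor
    · rintro ⟨z, hz, rfl⟩
      rw [mem_ball_zero_iff] at hz ⊢
      rw [norm_mul, Complex.norm_real, Real.norm_of_nonneg h0.le]
      calc r * ‖z‖ < r * (1 / r) := mul_lt_mul_of_pos_left hz h0
        _ = 1 := by field_simp
    · intro hw
      refine ⟨w / r, ?_, ?_⟩
      · rw [mem_ball_zero_iff] at hw ⊢
        rw [norm_div, Complex.norm_real, Real.norm_of_nonneg h0.le]
        exact div_lt_div_of_pos_right hw h0
      · show (r : ℂ) * (w / r) = w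
        field_simp

private theorem dens1_pull (r : ℝ) (G : ℂ → ℂ) (z : ℂ) :
    pull (fun z => (r : ℂ) * z) G z = (r : ℂ) * G (r * z) := by
  unfold pull
  have : deriv (fun z => (r : ℂ) * z) z = r := by
    have h := (hasDerivAt_id z).const_mul (r : ℂ)
    rw [mul_one] at h
    exact h.deriv
  rw [this, Complex.conj_ofReal]

/-- gradient of the real part of a smooth function -/
private theorem dens1_gr (F : ℂ → ℂ) (hF : ContDiff ℝ (⊤ : ℕ∞) F) (z : ℂ) :
    gr (fun w => (F w).re) z = conj (dz F z) + db F z := by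
  have hd : DifferentiableAt ℝ F z := (hF.differentiable (by simp)) z
  have e : fderiv ℝ (fun w => (F w).re) z = Complex.reCLM.comp (fderiv ℝ F z) :=
    (Complex.reCLM.hasFDerivAt.comp z hd.hasFDerivAt).fderiv
  unfold gr dz db
  rw [e]
  simp only [ContinuousLinearMap.comp_apply, Complex.reCLM_apply]
  generalize fderiv ℝ F z 1 = a
  generalize fderiv ℝ F z I = b
  have h2 : conj (2 : ℂ) = 2 := Complex.conj_ofNat 2
  rw [map_div₀, h2]
  apply Complex.ext
  · simp
    ring
  · simp
    ring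

private theorem dens1_conj (f : ℂ → ℂ) (μ : Measure ℂ) :
    eLpNorm (fun z => conj (f z)) 2 μ = eLpNorm f 2 μ := by
  refine eLpNorm_congr_norm_ae (Eventually.of_forall fun z => ?_)
  exact RCLike.norm_conj _

/-- dilations of a continuous function with compact support -/
private theorem dens1_dil (g : ℂ → ℂ) (hg : Continuous g) (hgc : HasCompactSupport g) {δ : ℝ}
    (hδ : 0 < δ) : ∃ r : ℝ, 0 < r ∧ r < 1 ∧ ∀ z : ℂ, ‖z‖ < 1 → ‖(r : ℂ) * g (r * z) - g z‖ ≤ δ := by
  obtain ⟨M, hM⟩ := hgc.exists_bound_of_continuous hg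
  have hM0 : 0 ≤ M := (norm_nonneg _).trans (hM 0)
  have hu := hgc.uniformContinuous_of_continuous hg
  rw [Metric.uniformContinuous_iff] at hu
  obtain ⟨ρ, hρ, hu⟩ := hu (δ / 2) (by positivity)
  set t : ℝ := min (1 / 2) (min (ρ / 2) (δ / (2 * (M + 1)))) with ht
  have ht0 : 0 < t := by
    refine lt_min (by norm_num) (lt_min (by positivity) (by positivity))
  have ht1 : t ≤ 1 / 2 := min_le_left _ _
  have ht2 : t ≤ ρ / 2 := (min_le_right _ _).trans (min_le_left _ _)
  have ht3 : t ≤ δ / (2 * (M + 1)) := (min_le_right _ _).trans (min_le_right _ _)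
  refine ⟨1 - t, by linarith, by linarith, fun z hz => ?_⟩
  have e1 : ((1 - t : ℝ) : ℂ) * g (((1 - t : ℝ) : ℂ) * z) - g z =
      (g (((1 - t : ℝ) : ℂ) * z) - g z) - (t : ℂ) * g (((1 - t : ℝ) : ℂ) * z) := by
    push_cast
    ring
  rw [e1]
  have e2 : ‖g (((1 - t : ℝ) : ℂ) * z) - g z‖ ≤ δ / 2 := by
    rw [← dist_eq_norm]
    refine (hu ?_).le
    rw [dist_eq_norm]
    have : ((1 - t : ℝ) : ℂ) * z - z = -((t : ℂ) * z) := by
      push_cast
      ring
    rw [this, norm_neg, norm_mul, Complex.norm_real, Real.norm_of_nonneg ht0.le]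
    nlinarith [norm_nonneg z]
  have e3 : ‖(t : ℂ) * g (((1 - t : ℝ) : ℂ) * z)‖ ≤ δ / 2 := by
    rw [norm_mul, Complex.norm_real, Real.norm_of_nonneg ht0.le]
    calc t * ‖g (((1 - t : ℝ) : ℂ) * z)‖ ≤ δ / (2 * (M + 1)) * (M + 1) :=
          mul_le_mul ht3 ((hM _).trans (by linarith)) (norm_nonneg _) (by positivity)
      _ = δ / 2 := by field_simp
  calc _ ≤ ‖g (((1 - t : ℝ) : ℂ) * z) - g z‖ + ‖(t : ℂ) * g (((1 - t : ℝ) : ℂ) * z)‖ :=
        norm_sub_le _ _
    _ ≤ δ / 2 + δ / 2 := add_le_add e2 e3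
    _ = δ := by ring

/-- dilations converge -/
private theorem dens1_conv (h3 : S_cv) (G : ℂ → ℂ)
    (hG : MemLp G 2 (volume.restrict (ball (0 : ℂ) 1))) {ε : ℝ} (hε : 0 < ε) :
    ∃ r : ℝ, 0 < r ∧ r < 1 ∧
      eLpNorm (fun z => G z - pull (fun z => (r : ℂ) * z) G z) 2
        (volume.restrict (ball (0 : ℂ) 1)) ≤ ENNReal.ofReal ε := by
  have hG0 : MemLp (indicator (ball (0 : ℂ) 1) G) 2 volume :=
    (memLp_indicator_iff_restrict measurableSet_ball).2 hG
  obtain ⟨g, hgc, hgG, hgcont, hgm⟩ := hG0.exists_hasCompactSupport_eLpNorm_sub_le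
    (by norm_num) (ε := ENNReal.ofReal (ε / 4)) (by simpa using by positivity)
  have hGg : eLpNorm (fun z => G z - g z) 2 (volume.restrict (ball (0 : ℂ) 1)) ≤
      ENNReal.ofReal (ε / 4) := by
    refine le_trans ?_ hgG
    have : eLpNorm (fun z => G z - g z) 2 (volume.restrict (ball (0 : ℂ) 1)) =
        eLpNorm (indicator (ball (0 : ℂ) 1) G - g) 2 (volume.restrict (ball (0 : ℂ) 1)) := by
      refine eLpNorm_congr_ae ?_
      filter_upwards [ae_restrict_mem measurableSet_ball] with z hz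
      rw [Pi.sub_apply, indicator_of_mem hz]
    rw [this]
    exact eLpNorm_mono_measure _ Measure.restrict_le_self
  set Vol : ℝ≥0∞ := (volume.restrict (ball (0 : ℂ) 1)) univ ^ (2 : ℝ≥0∞).toReal⁻¹ with hVol
  have hVt : Vol ≠ ⊤ := by
    rw [hVol]
    refine ENNReal.rpow_ne_top_of_nonneg (by positivity) ?_
    rw [Measure.restrict_apply MeasurableSet.univ, univ_inter]
    exact measure_ball_lt_top.ne
  obtain ⟨r, hr0, hr1, hr⟩ := dens1_dil g hgcont hgc (δ := ε / (4 * (Vol.toReal + 1)))
    (by positivity)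
  refine ⟨r, hr0, hr1, ?_⟩
  have hcb := dens1_cb hr0
  obtain ⟨c1, c2, -⟩ := h3 _ _ _ hcb
  have hsub : ball (0 : ℂ) 1 ⊆ ball 0 (1 / r) := by
    refine ball_subset_ball ?_
    rw [le_div_iff₀ hr0]
    linarith
  have hgm1 : MemLp g 2 (volume.restrict (ball (0 : ℂ) 1)) := hgm.restrict _
  have hdm : MemLp (fun z => G z - g z) 2 (volume.restrict (ball (0 : ℂ) 1)) := hG.sub hgm1
  have A1 : eLpNorm (pull (fun z => (r : ℂ) * z) (fun z => G z - g z)) 2
      (volume.restrict (ball (0 : ℂ) 1)) ≤ ENNReal.ofReal (ε / 4) := by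
    refine le_trans (eLpNorm_mono_measure _ (Measure.restrict_mono hsub le_rfl)) ?_
    rw [c2]
    exact hGg
  have A2 : eLpNorm (fun z => g z - pull (fun z => (r : ℂ) * z) g z) 2
      (volume.restrict (ball (0 : ℂ) 1)) ≤ ENNReal.ofReal (ε / 4) := by
    refine le_trans (eLpNorm_le_of_ae_bound (C := ε / (4 * (Vol.toReal + 1))) ?_) ?_
    · filter_upwards [ae_restrict_mem measurableSet_ball] with z hz
      rw [dens1_pull, norm_sub_rev]
      exact hr z (by simpa using hz)
    · have hb : ∀ x : ℝ, Vol * ENNReal.ofReal x = ENNReal.ofReal (Vol.toReal * x) := by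
        intro x
        rw [ENNReal.ofReal_mul ENNReal.toReal_nonneg, ENNReal.ofReal_toReal hVt]
      rw [← hVol, hb]
      refine ENNReal.ofReal_le_ofReal ?_
      rw [mul_div_assoc', div_le_div_iff₀ (by positivity) (by norm_num)]
      nlinarith [ENNReal.toReal_nonneg (a := Vol)]
  have m1 : AEStronglyMeasurable (pull (fun z => (r : ℂ) * z) (fun z => G z - g z))
      (volume.restrict (ball (0 : ℂ) 1)) :=
    (((c1 _).1 hdm).mono_measure (Measure.restrict_mono hsub le_rfl)).1
  have m2 : AEStronglyMeasurable (pull (fun z => (r : ℂ) * z) g)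
      (volume.restrict (ball (0 : ℂ) 1)) :=
    (((c1 _).1 hgm1).mono_measure (Measure.restrict_mono hsub le_rfl)).1
  have e : (fun z => G z - pull (fun z => (r : ℂ) * z) G z) =
      (fun z => G z - g z) + ((fun z => g z - pull (fun z => (r : ℂ) * z) g z) -
        pull (fun z => (r : ℂ) * z) (fun z => G z - g z)) := by
    funext z
    simp only [Pi.add_apply, Pi.sub_apply, dens1_pull]
    ring
  rw [e]
  refine (eLpNorm_add_le hdm.1 ((hgm1.1.sub m2).sub m1) (by norm_num)).trans ?_
  refine (add_le_add hGg ((eLpNorm_sub_le (hgm1.1.sub m2) m1 (by norm_num)).trans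
    (add_le_add A2 A1))).trans ?_
  rw [← ENNReal.ofReal_add (by positivity) (by positivity),
    ← ENNReal.ofReal_add (by positivity) (by positivity)]
  exact ENNReal.ofReal_le_ofReal (by linarith)

theorem piece_dens1 (h1 : S_moll) (h2 : S_bridge) (h3 : S_cv) (h4 : S_cwg) : S_dens1 := by
  intro v G hv hG ε hε
  obtain ⟨r, hr0, hr1, hr⟩ := dens1_conv h3 G hG (ε := ε / 2) (by positivity)
  have hcb := dens1_cb hr0
  set Gr : ℂ → ℂ := pull (fun z => (r : ℂ) * z) G with hGr
  have hwg : WG (ball 0 (1 / r)) (fun z => v ((r : ℂ) * z)) Gr :=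
    (h4 _ _ _ hcb v (fun z => v ((r : ℂ) * z)) G (fun _ _ => rfl)).1 hv
  have hwd := h2.2.1 _ _ _ hwg
  have hsub : closedBall (0 : ℂ) 1 ⊆ ball 0 (1 / r) := by
    refine closedBall_subset_ball ?_
    rw [lt_div_iff₀ hr0]
    linarith
  have hsub2 : ball (0 : ℂ) 1 ⊆ ball 0 (1 / r) := ball_subset_closedBall.trans hsub
  obtain ⟨F, hF1, hF2, -, hF4, hF5, -⟩ := h1 _ _ _ _ isOpen_ball hwd (closedBall 0 1)
    (isCompact_closedBall _ _) hsub
  have hle : volume.restrict (ball (0 : ℂ) 1) ≤ volume.restrict (closedBall (0 : ℂ) 1) :=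
    Measure.restrict_mono ball_subset_closedBall le_rfl
  have hq : (0 : ℝ≥0∞) < ENNReal.ofReal (ε / 4) := by simpa using by positivity
  obtain ⟨n, hn1, hn2⟩ := ((hF4.eventually (gt_mem_nhds hq)).and
    (hF5.eventually (gt_mem_nhds hq))).exists
  have hGm : MemLp Gr 2 (volume.restrict (ball (0 : ℂ) 1)) :=
    (((h3 _ _ _ hcb).1 _).1 hG).mono_measure (Measure.restrict_mono hsub2 le_rfl)
  have hFd : Continuous (fun z => fderiv ℝ (F n) z) := (hF1 n).continuous_fderiv (by simp)
  have cdz : Continuous (dz (F n)) := by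
    unfold dz
    exact ((hFd.clm_apply continuous_const).sub
      (continuous_const.mul (hFd.clm_apply continuous_const))).div_const _
  have cdb : Continuous (db (F n)) := by
    unfold db
    exact ((hFd.clm_apply continuous_const).add
      (continuous_const.mul (hFd.clm_apply continuous_const))).div_const _
  refine ⟨fun w => (F n w).re, ⟨?_, ?_, subset_univ _⟩, ?_⟩
  · exact Complex.reCLM.contDiff.comp (hF1 n)
  · exact (hF2 n).comp_left (g := Complex.re) rfl
  · have e : (fun z => G z - gr (fun w => (F n w).re) z) =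
        (fun z => G z - Gr z) - ((fun z => conj (dz (F n) z - conj (Gr z) / 2)) +
          (fun z => db (F n) z - Gr z / 2)) := by
      funext z
      simp only [Pi.add_apply, Pi.sub_apply, dens1_gr (F n) (hF1 n), map_sub, map_div₀,
        Complex.conj_conj]
      have : conj (2 : ℂ) = 2 := Complex.conj_ofNat 2
      rw [this]
      ring
    have m1 : AEStronglyMeasurable (fun z => dz (F n) z - conj (Gr z) / 2)
        (volume.restrict (ball (0 : ℂ) 1)) := by
      refine cdz.aestronglyMeasurable.sub ?_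
      have := (Complex.continuous_conj.comp_aestronglyMeasurable hGm.1).const_mul (1 / 2 : ℂ)
      refine this.congr (Eventually.of_forall fun z => ?_)
      show (1 / 2 : ℂ) * conj (Gr z) = conj (Gr z) / 2
      ring
    have m1' : AEStronglyMeasurable (fun z => conj (dz (F n) z - conj (Gr z) / 2))
        (volume.restrict (ball (0 : ℂ) 1)) :=
      Complex.continuous_conj.comp_aestronglyMeasurable m1
    have m2 : AEStronglyMeasurable (fun z => db (F n) z - Gr z / 2)
        (volume.restrict (ball (0 : ℂ) 1)) := by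
      refine cdb.aestronglyMeasurable.sub ?_
      refine (hGm.1.const_mul (1 / 2 : ℂ)).congr (Eventually.of_forall fun z => ?_)
      show (1 / 2 : ℂ) * Gr z = Gr z / 2
      ring
    rw [e]
    refine lt_of_le_of_lt ((eLpNorm_sub_le (hG.1.sub hGm.1) (m1'.add m2) (by norm_num)).trans
      (add_le_add le_rfl (eLpNorm_add_le m1' m2 (by norm_num)))) ?_
    rw [dens1_conj]
    have b1 : eLpNorm (fun z => dz (F n) z - conj (Gr z) / 2) 2
        (volume.restrict (ball (0 : ℂ) 1)) < ENNReal.ofReal (ε / 4) :=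
      lt_of_le_of_lt (eLpNorm_mono_measure _ hle) hn1
    have b2 : eLpNorm (fun z => db (F n) z - Gr z / 2) 2
        (volume.restrict (ball (0 : ℂ) 1)) < ENNReal.ofReal (ε / 4) :=
      lt_of_le_of_lt (eLpNorm_mono_measure _ hle) hn2
    have e2 : ENNReal.ofReal ε = ENNReal.ofReal (ε / 2) +
        (ENNReal.ofReal (ε / 4) + ENNReal.ofReal (ε / 4)) := by
      rw [← ENNReal.ofReal_add (by positivity) (by positivity),
        ← ENNReal.ofReal_add (by positivity) (by positivity)]
      congr 1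
      ring
    rw [e2]
    exact ENNReal.add_lt_add_of_le_of_lt (ne_top_of_le_ne_top ENNReal.ofReal_ne_top hr) hr
      (ENNReal.add_lt_add b1 b2)

end Cal
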