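import Pool.Agent.Lib.MP_4ea4c7_an.StmF

/-!
MP_4ea4c7_an, piece M6: density of smooth functions in the half disc.
-/

open MeasureTheory Complex Metric Set Filter Topology
open scoped ComplexConjugate ENNReal NNReal Manifold

namespace Cal

open LocalCalderon

/-- the image of the disc is open -/
private theorem dens2_open {Ω : Set ℂ} {ψ : ℂ → ℂ} (hψ : JP Ω ψ) : IsOpen Ω := by
  have ha : AnalyticOnNhd ℂ ψ (ball 0 1) := hψ.hol.analyticOnNhd isOpen_ball
  rcases ha.is_constant_or_isOpen (convex_ball (0 : ℂ) 1).isPreconnected with h | h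
  · exfalso
    obtain ⟨w, hw⟩ := h
    have h0 : (0 : ℂ) ∈ ball (0 : ℂ) 1 := by simp
    have h1 : (1 / 2 : ℂ) ∈ ball (0 : ℂ) 1 := by
      rw [mem_ball_zero_iff]
      norm_num
    have := hψ.inj (ball_subset_closedBall h0) (ball_subset_closedBall h1)
      ((hw _ h0).trans (hw _ h1).symm)
    norm_num at this
  · rw [← hψ.img]
    exact h _ Subset.rfl isOpen_ball

/-- chain rule for the gradient -/
private theorem dens2_chain {φ : ℂ → ℝ} {f : ℂ → ℂ} {z : ℂ} (hφ : DifferentiableAt ℝ φ (f z))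
    (hf : DifferentiableAt ℂ f z) : gr (fun w => φ (f w)) z = pull f (gr φ) z := by
  have h1 : HasFDerivAt f (deriv f z • (1 : ℂ →L[ℝ] ℂ)) z := hf.hasDerivAt.complexToReal_fderiv
  have e : fderiv ℝ (fun w => φ (f w)) z =
      (fderiv ℝ φ (f z)).comp (deriv f z • (1 : ℂ →L[ℝ] ℂ)) :=
    (hφ.hasFDerivAt.comp z h1).fderiv
  unfold pull gr
  rw [e]
  generalize deriv f z = d
  generalize fderiv ℝ φ (f z) = L
  have e1 : ∀ v : ℂ, (L.comp (d • (1 : ℂ →L[ℝ] ℂ))) v = L (d * v) := by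
    intro v
    simp
  rw [e1, e1]
  have e2 : ∀ v : ℂ, L v = v.re * L 1 + v.im * L I := by
    intro v
    have : v = v.re • (1 : ℂ) + v.im • I := by
      apply Complex.ext <;> simp
    conv_lhs => rw [this]
    rw [map_add, map_smul, map_smul]
    rfl
  rw [e2 (d * 1), e2 (d * I)]
  apply Complex.ext
  · simp
  · simp
    ring

theorem piece_dens2 (h1 : S_dens1) (h2 : S_cwg) (h3 : S_cv) (h4 : S_h1) (h5 : S_psi0)
    (h6 : S_jcb) : S_dens2 := by
  intro Ω ψ hψ u hu ε hε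
  obtain ⟨-, hB, hH, -, -, -⟩ := h6 Ω ψ hψ
  have hΩ := dens2_open hψ
  obtain ⟨hm, hw⟩ := h4.1 Ω u hu
  have hwg : WG Ω u (wgrad Ω u) := (h4.2.2.2.2.2.2.2.1 Ω u _ hΩ hu.1 hm).2 hw
  have hwgB : WG (ball 0 1) (fun z => u (ψ z)) (pull ψ (wgrad Ω u)) :=
    (h2 _ _ _ hB u _ _ (fun _ _ => rfl)).1 hwg
  obtain ⟨Φ₁, hΦ₁, hlt⟩ := h1 _ _ hwgB (((h3 _ _ _ hB).1 _).1 hm) ε hε
  obtain ⟨hcl, hop, ⟨W, hW, hWs, hWd⟩, -⟩ := h5
  -- the cutoff
  have hKb : closure HB ⊆ ball 0 2 := by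
    rw [hcl]
    intro z hz
    rw [mem_ball_zero_iff]
    exact lt_of_le_of_lt hz.1 (by norm_num)
  have hF : IsClosed (W ∩ ball (0 : ℂ) 2)ᶜ := (hW.inter isOpen_ball).isClosed_compl
  have hd : Disjoint (W ∩ ball (0 : ℂ) 2)ᶜ (closure HB) := by
    rw [Set.disjoint_left]
    intro z hz hz'
    exact hz ⟨hWs hz', hKb hz'⟩
  obtain ⟨f, h0, h1', -⟩ := exists_contMDiffMap_zero_one_nhds_of_isClosed (n := (⊤ : ℕ∞))
    𝓘(ℝ, ℂ) hF isClosed_closure hd
  have hfs : ContDiff ℝ (⊤ : ℕ∞) f := f.contMDiff.contDiff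
  have hts : tsupport f ⊆ W ∩ ball (0 : ℂ) 2 := by
    intro z hz
    by_contra hz'
    refine (notMem_tsupport_iff_eventuallyEq.2 ?_) hz
    exact h0.filter_mono (nhds_le_nhdsSet hz')
  have hcomp : HasCompactSupport f :=
    HasCompactSupport.of_support_subset_isCompact (isCompact_closedBall (0 : ℂ) 2)
      ((subset_tsupport _).trans (hts.trans (inter_subset_right.trans ball_subset_closedBall)))
  have hWr : ContDiffOn ℝ (⊤ : ℕ∞) psi0 W := by
    have ha : AnalyticOnNhd ℂ psi0 W := hWd.analyticOnNhd hW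
    exact (ha.contDiffOn hW.uniqueDiffOn).restrict_scalars ℝ
  set Φ : ℂ → ℝ := fun z => f z * Φ₁ (psi0 z) with hΦ
  have hsm : ContDiff ℝ (⊤ : ℕ∞) Φ := by
    rw [contDiff_iff_contDiffAt]
    intro z
    by_cases hz : z ∈ W
    · exact hfs.contDiffAt.mul (hΦ₁.1.contDiffAt.comp z (hWr.contDiffAt (hW.mem_nhds hz)))
    · have hz' : z ∉ tsupport f := fun h => hz (hts h).1
      have := notMem_tsupport_iff_eventuallyEq.1 hz'
      refine (contDiffAt_const (c := (0 : ℝ))).congr_of_eventuallyEq ?_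
      filter_upwards [this] with w hw'
      simp only [hΦ]
      rw [hw', Pi.zero_apply, zero_mul]
  refine ⟨Φ, ⟨hsm, hcomp.mul_right, subset_univ _⟩, ?_⟩
  have hHW : HB ⊆ W := subset_closure.trans hWs
  have hmaps : ∀ z ∈ HB, psi0 z ∈ ball (0 : ℂ) 1 := fun z hz => hH.img ▸ mem_image_of_mem _ hz
  have e : eLpNorm (fun z => pull (fun z => ψ (psi0 z)) (wgrad Ω u) z - gr Φ z) 2
      (volume.restrict HB) =
      eLpNorm (pull psi0 (fun z => pull ψ (wgrad Ω u) z - gr Φ₁ z)) 2 (volume.restrict HB) := by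
    refine eLpNorm_congr_ae ?_
    filter_upwards [ae_restrict_mem hop.measurableSet] with z hz
    have d1 : DifferentiableAt ℂ psi0 z := (hWd z (hHW hz)).differentiableAt
      (hW.mem_nhds (hHW hz))
    have d2 : DifferentiableAt ℂ ψ (psi0 z) := (hψ.hol _ (hmaps z hz)).differentiableAt
      (isOpen_ball.mem_nhds (hmaps z hz))
    have g1 : gr Φ z = gr (fun w => Φ₁ (psi0 w)) z := by
      have : Φ =ᶠ[𝓝 z] fun w => Φ₁ (psi0 w) := by
        have h1'' : ∀ᶠ w in 𝓝 z, f w = 1 :=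
          h1'.filter_mono (nhds_le_nhdsSet (subset_closure hz))
        filter_upwards [h1''] with w hw'
        simp only [hΦ]
        rw [hw', one_mul]
      unfold gr
      rw [this.fderiv_eq]
    have hΦd : DifferentiableAt ℝ Φ₁ (psi0 z) := (hΦ₁.1.differentiable (by simp)) _
    rw [g1, dens2_chain hΦd d1]
    have c : deriv (fun z => ψ (psi0 z)) z = deriv ψ (psi0 z) * deriv psi0 z :=
      (d2.hasDerivAt.comp z d1.hasDerivAt).deriv
    unfold pull
    rw [c, map_mul]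
    ring
  rw [e, (h3 _ _ _ hH).2.1]
  exact hlt

end Cal
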