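import Pool.Agent.Lib.MP_4ea4c7_an.Stm2

/-!
[D9] Common modulus of continuity and common bound for `d`, smooth coefficients.
-/

open MeasureTheory Complex Metric Set Filter Topology
open scoped ComplexConjugate ENNReal NNReal

namespace Cal

noncomputable section

/-- far part -/
private theorem dmod_far (h4 : S_uniq) {C₃ : ℝ}
    (hC₃ : 0 ≤ C₃) (hCt : ∀ w : ℂ → ℂ, W2 w →
      (∀ z, 3 / 2 ≤ ‖z‖ → ‖Ct w z‖ ≤ C₃ * (eLpNorm w 2 volume).toReal / ‖z‖) ∧
      DifferentiableOn ℂ (Ct w) {z | 5 / 4 < ‖z‖})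
    {d A B : ℂ → ℂ} {E : ℝ} (hE : 0 ≤ E) (hdc : Continuous d) (hdd : Dec d)
    (hWD : WD univ d A B) (hB0 : ∀ᵐ z : ℂ, 5 / 4 < ‖z‖ → B z = 0) (hB2 : MemLp B 2 volume)
    (hBE : eLpNorm B 2 volume ≤ ENNReal.ofReal E) :
    ∀ z, 3 / 2 ≤ ‖z‖ → ‖d z‖ ≤ C₃ * E / ‖z‖ := by
  classical
  set w : ℂ → ℂ := fun z => if 5 / 4 < ‖z‖ then 0 else B z with hw
  have hwB : w =ᵐ[volume] B := by
    filter_upwards [hB0] with z hz
    by_cases h : 5 / 4 < ‖z‖
    · simp only [hw, if_pos h, hz h]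
    · simp only [hw, if_neg h]
  have hW2 : W2 w := ⟨hB2.ae_eq hwB.symm, fun z hz => if_pos hz⟩
  obtain ⟨hb, hdif⟩ := hCt w hW2
  have heq : d =ᵐ[volume] Ct w := (h4 d A B hWD hB0 hdd).1
  have ho : IsOpen {z : ℂ | 5 / 4 < ‖z‖} := isOpen_lt continuous_const continuous_norm
  have hon := Measure.eqOn_open_of_ae_eq (ae_restrict_of_ae heq) ho hdc.continuousOn
    hdif.continuousOn
  intro z hz
  have hz' : z ∈ {z : ℂ | 5 / 4 < ‖z‖} := by
    simp only [mem_ofPred_eq]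
    linarith
  rw [hon hz']
  have hnz : 0 < ‖z‖ := by linarith
  have hEB : (eLpNorm w 2 volume).toReal ≤ E := by
    rw [eLpNorm_congr_ae hwB]
    exact ENNReal.toReal_le_of_le_ofReal hE hBE
  refine (hb z hz).trans ?_
  apply div_le_div_of_nonneg_right _ hnz.le
  exact mul_le_mul_of_nonneg_left hEB hC₃

private theorem dmod_sq {A : ℂ → ℂ} {E : ℝ} (hE : 0 ≤ E) (hA : MemLp A 2 volume)
    (hAE : eLpNorm A 2 volume ≤ ENNReal.ofReal E) :
    Integrable (fun z => ‖A z‖ ^ 2) volume ∧ ∫ z, ‖A z‖ ^ 2 ≤ E ^ 2 := by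
  refine ⟨(memLp_two_iff_integrable_sq_norm hA.aestronglyMeasurable).1 hA, ?_⟩
  have h := hA.eLpNorm_eq_integral_rpow_norm (by norm_num) (by norm_num)
  rw [h, ENNReal.ofReal_le_ofReal_iff hE] at hAE
  have e : (∫ a, ‖A a‖ ^ (2 : ℝ≥0∞).toReal) = ∫ z, ‖A z‖ ^ 2 := by
    simp
  rw [e] at hAE
  have h0 : 0 ≤ ∫ z, ‖A z‖ ^ 2 := integral_nonneg fun z => by positivity
  have h1 : ((2 : ℝ≥0∞).toReal)⁻¹ = 1 / 2 := by norm_num
  rw [h1, ← Real.sqrt_eq_rpow] at hAE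
  calc ∫ z, ‖A z‖ ^ 2 = √(∫ z, ‖A z‖ ^ 2) ^ 2 := (Real.sq_sqrt h0).symm
    _ ≤ E ^ 2 := pow_le_pow_left₀ (Real.sqrt_nonneg _) hAE 2

/-- the logarithm of `(z+2)^m (2-z)^n` divided by `m+n` -/
private def dmod_G (m n : ℕ) (z : ℂ) : ℂ :=
  ((m : ℂ) / ((m + n : ℕ) : ℂ)) * Complex.log (z + 2) +
    ((n : ℂ) / ((m + n : ℕ) : ℂ)) * Complex.log (2 - z)

private theorem dmod_re {z : ℂ} (hz : ‖z‖ < 2) : 0 < (z + 2).re ∧ 0 < (2 - z).re := by
  have h := (Complex.abs_re_le_norm z).trans_lt hz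
  rw [abs_lt] at h
  simp only [add_re, sub_re, re_ofNat]
  constructor <;> linarith [h.1, h.2]

private theorem dmod_deriv (m n : ℕ) {z : ℂ} (hz : ‖z‖ < 2) :
    HasDerivAt (dmod_G m n) (gp m n z) z := by
  obtain ⟨r1, r2⟩ := dmod_re hz
  have h1 : HasDerivAt (fun z : ℂ => Complex.log (z + 2)) (1 / (z + 2)) z :=
    ((hasDerivAt_id z).add_const 2).clog (Complex.mem_slitPlane_iff.2 (Or.inl r1))
  have h2 : HasDerivAt (fun z : ℂ => Complex.log (2 - z)) (-1 / (2 - z)) z :=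
    ((hasDerivAt_id z).const_sub 2).clog (Complex.mem_slitPlane_iff.2 (Or.inl r2))
  have h3 := (h1.const_mul ((m : ℂ) / ((m + n : ℕ) : ℂ))).add
    (h2.const_mul ((n : ℂ) / ((m + n : ℕ) : ℂ)))
  have e : gp m n z = (m : ℂ) / ((m + n : ℕ) : ℂ) * (1 / (z + 2)) +
      (n : ℂ) / ((m + n : ℕ) : ℂ) * (-1 / (2 - z)) := by
    unfold gp
    rw [mul_one_div]
    congr 1
    have : (-1 : ℂ) / (2 - z) = 1 / (z - 2) := by
      rw [← neg_sub z 2, neg_div_neg_eq]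
    rw [this, mul_one_div]
  rw [e]
  exact h3

private theorem dmod_exp {m n : ℕ} (hmn : 1 ≤ m + n) {z : ℂ} (hz : ‖z‖ < 2) (w : ℂ) :
    exp (((m + n : ℕ) : ℂ) * (dmod_G m n z + w)) =
      (z + 2) ^ m * (2 - z) ^ n * exp (((m + n : ℕ) : ℂ) * w) := by
  obtain ⟨r1, r2⟩ := dmod_re hz
  have hN : ((m + n : ℕ) : ℂ) ≠ 0 := by
    have : m + n ≠ 0 := by omega
    exact_mod_cast this
  have n1 : z + 2 ≠ 0 := fun h => by rw [h] at r1; simp at r1
  have n2 : 2 - z ≠ 0 := fun h => by rw [h] at r2; simp at r2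
  have e : ((m + n : ℕ) : ℂ) * (dmod_G m n z + w) =
      (m : ℂ) * Complex.log (z + 2) + (n : ℂ) * Complex.log (2 - z) + ((m + n : ℕ) : ℂ) * w := by
    unfold dmod_G
    field_simp
  rw [e, exp_add, exp_add, Complex.exp_nat_mul, Complex.exp_nat_mul, exp_log n1, exp_log n2]

private theorem dmod_gp {m n : ℕ} (hmn : 1 ≤ m + n) {z : ℂ} (hz : ‖z‖ ≤ 7 / 4) :
    ‖gp m n z‖ ≤ 4 := by
  have hN : (0 : ℝ) < ((m + n : ℕ) : ℝ) := by exact_mod_cast hmn
  have h2 : ‖(2 : ℂ)‖ = 2 := by simp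
  have h1 : 1 / 4 ≤ ‖z + 2‖ := by
    have h := norm_sub_le (z + 2) z
    rw [add_sub_cancel_left, h2] at h
    linarith
  have h3 : 1 / 4 ≤ ‖z - 2‖ := by
    have h := norm_sub_le z (z - 2)
    rw [sub_sub_cancel, h2] at h
    linarith
  have i1 : 1 / ‖z + 2‖ ≤ 4 := by
    rw [div_le_iff₀ (by linarith)]
    linarith
  have i2 : 1 / ‖z - 2‖ ≤ 4 := by
    rw [div_le_iff₀ (by linarith)]
    linarith
  unfold gp
  refine (norm_add_le _ _).trans ?_
  rw [norm_div, norm_div, norm_div, norm_div, Complex.norm_natCast, Complex.norm_natCast,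
    Complex.norm_natCast]
  have e1 : (m : ℝ) / ((m + n : ℕ) : ℝ) / ‖z + 2‖ ≤ (m : ℝ) / ((m + n : ℕ) : ℝ) * 4 := by
    rw [div_eq_mul_one_div _ ‖z + 2‖]
    exact mul_le_mul_of_nonneg_left i1 (by positivity)
  have e2 : (n : ℝ) / ((m + n : ℕ) : ℝ) / ‖z - 2‖ ≤ (n : ℝ) / ((m + n : ℕ) : ℝ) * 4 := by
    rw [div_eq_mul_one_div _ ‖z - 2‖]
    exact mul_le_mul_of_nonneg_left i2 (by positivity)
  have e3 : (m : ℝ) / ((m + n : ℕ) : ℝ) + (n : ℝ) / ((m + n : ℕ) : ℝ) = 1 := by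
    rw [← add_div, ← Nat.cast_add]
    exact div_self hN.ne'
  nlinarith

private theorem dmod_ball {z0 : ℂ} (hz0 : ‖z0‖ ≤ 3 / 2) {z : ℂ} (hz : z ∈ ball z0 (1 / 4)) :
    ‖z‖ < 7 / 4 := by
  rw [mem_ball, dist_eq_norm] at hz
  have := norm_le_norm_add_norm_sub' z z0
  linarith

private theorem dmod_gp_cont {m n : ℕ} {z0 : ℂ} (hz0 : ‖z0‖ ≤ 3 / 2) :
    ContinuousOn (gp m n) (ball z0 (1 / 4)) := by
  unfold gp
  refine ContinuousOn.add ?_ ?_
  · refine ContinuousOn.div continuousOn_const (continuousOn_id.add continuousOn_const) ?_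
    intro z hz h
    have h1 := dmod_ball hz0 hz
    have h2 : z = -2 := eq_neg_of_add_eq_zero_left h
    rw [h2, norm_neg] at h1
    norm_num at h1
  · refine ContinuousOn.div continuousOn_const (continuousOn_id.sub continuousOn_const) ?_
    intro z hz h
    have h1 := dmod_ball hz0 hz
    have h2 : z = 2 := sub_eq_zero.1 h
    rw [h2] at h1
    norm_num at h1

/-- The energy on a small ball. -/
private theorem dmod_energy {m n : ℕ} (hmn : 1 ≤ m + n) {A B : ℂ → ℂ} {E : ℝ} (hE : 0 ≤ E)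
    (hA2 : MemLp A 2 volume) (hB2 : MemLp B 2 volume)
    (hAE : eLpNorm A 2 volume ≤ ENNReal.ofReal E) (hBE : eLpNorm B 2 volume ≤ ENNReal.ofReal E)
    {z0 : ℂ} (hz0 : ‖z0‖ ≤ 3 / 2) :
    IntegrableOn (fun z => ‖gp m n z + A z‖ ^ 2 + ‖B z‖ ^ 2) (ball z0 (1 / 4)) volume ∧
    ∫ z in ball z0 (1 / 4), (‖gp m n z + A z‖ ^ 2 + ‖B z‖ ^ 2) ≤ 3 * E ^ 2 + 7 := by
  obtain ⟨iA, bA⟩ := dmod_sq hE hA2 hAE
  obtain ⟨iB, bB⟩ := dmod_sq hE hB2 hBE
  have : IsFiniteMeasure (volume.restrict (ball z0 (1 / 4))) :=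
    ⟨by rw [Measure.restrict_apply_univ]; exact measure_ball_lt_top⟩
  have hgm : AEStronglyMeasurable (gp m n) (volume.restrict (ball z0 (1 / 4))) :=
    (dmod_gp_cont hz0).aestronglyMeasurable isOpen_ball.measurableSet
  have hg4 : ∀ᵐ z ∂(volume.restrict (ball z0 (1 / 4))), ‖gp m n z‖ ≤ 4 := by
    rw [ae_restrict_iff' isOpen_ball.measurableSet]
    exact Eventually.of_forall fun z hz => dmod_gp hmn (dmod_ball hz0 hz).le
  have hg2 : MemLp (gp m n) 2 (volume.restrict (ball z0 (1 / 4))) := MemLp.of_bound hgm 4 hg4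
  have hgA : MemLp (fun z => gp m n z + A z) 2 (volume.restrict (ball z0 (1 / 4))) :=
    hg2.add (hA2.restrict _)
  have i1 : IntegrableOn (fun z => ‖gp m n z + A z‖ ^ 2) (ball z0 (1 / 4)) volume :=
    (memLp_two_iff_integrable_sq_norm hgA.aestronglyMeasurable).1 hgA
  have i2 : IntegrableOn (fun z => ‖B z‖ ^ 2) (ball z0 (1 / 4)) volume := iB.integrableOn
  have i3 : IntegrableOn (fun z => ‖A z‖ ^ 2) (ball z0 (1 / 4)) volume := iA.integrableOn
  refine ⟨i1.add i2, ?_⟩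
  have hle : ∫ z in ball z0 (1 / 4), (‖gp m n z + A z‖ ^ 2 + ‖B z‖ ^ 2) ≤
      ∫ z in ball z0 (1 / 4), ((32 + 2 * ‖A z‖ ^ 2) + ‖B z‖ ^ 2) := by
    refine integral_mono_ae (i1.add i2)
      (((integrable_const (32 : ℝ)).add (i3.const_mul 2)).add i2) ?_
    filter_upwards [hg4] with z hz
    have h1 : ‖gp m n z + A z‖ ≤ 4 + ‖A z‖ := (norm_add_le _ _).trans (by linarith)
    have h2 : ‖gp m n z + A z‖ ^ 2 ≤ (4 + ‖A z‖) ^ 2 := pow_le_pow_left₀ (norm_nonneg _) h1 2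
    nlinarith [sq_nonneg (4 - ‖A z‖)]
  have hvol : volume.real (ball z0 (1 / 4)) = Real.pi / 16 := by
    rw [Measure.real, Complex.volume_ball, ENNReal.toReal_mul, ENNReal.toReal_pow,
      ENNReal.toReal_ofReal (by norm_num)]
    simp
    ring
  have heq : ∫ z in ball z0 (1 / 4), ((32 + 2 * ‖A z‖ ^ 2) + ‖B z‖ ^ 2) =
      Real.pi / 16 * 32 + 2 * (∫ z in ball z0 (1 / 4), ‖A z‖ ^ 2) +
        ∫ z in ball z0 (1 / 4), ‖B z‖ ^ 2 := by
    have i5 : IntegrableOn (fun z => 2 * ‖A z‖ ^ 2) (ball z0 (1 / 4)) volume := i3.const_mul 2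
    have i4 : IntegrableOn (fun z => 32 + 2 * ‖A z‖ ^ 2) (ball z0 (1 / 4)) volume :=
      (integrable_const (32 : ℝ)).add i5
    rw [integral_add i4 i2, integral_add (integrable_const (32 : ℝ)) i5, setIntegral_const, hvol,
      integral_const_mul, smul_eq_mul]
  have j1 : ∫ z in ball z0 (1 / 4), ‖A z‖ ^ 2 ≤ E ^ 2 :=
    (setIntegral_le_integral iA (Eventually.of_forall fun z => by positivity)).trans bA
  have j2 : ∫ z in ball z0 (1 / 4), ‖B z‖ ^ 2 ≤ E ^ 2 :=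
    (setIntegral_le_integral iB (Eventually.of_forall fun z => by positivity)).trans bB
  have hpi := Real.pi_lt_d2
  linarith

private theorem dmod_local (h2 : S_mpG) (h3 : S_CL) (h6 : S_basic) (h7 : S_smooth) {κ : ℝ}
    (hκ : 0 ≤ κ) (hκ1 : κ < 1) {μ : ℂ → ℝ} (hμ : SM κ μ) {m n : ℕ} {f d : ℂ → ℂ}
    (hF : FMN μ m n f d) (hmn : 1 ≤ m + n) {A B : ℂ → ℂ} {E : ℝ} (hE : 0 ≤ E)
    (hWD : WD univ d A B) (hA2 : MemLp A 2 volume) (hB2 : MemLp B 2 volume)
    (hAE : eLpNorm A 2 volume ≤ ENNReal.ofReal E) (hBE : eLpNorm B 2 volume ≤ ENNReal.ofReal E)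
    {z0 : ℂ} (hz0 : ‖z0‖ ≤ 3 / 2) {t : ℝ} (ht : 0 < t) (ht4 : t < 1 / 4) {z : ℂ}
    (hz : ‖z - z0‖ ≤ t) :
    ‖d z - d z0‖ ≤ 8 * √((3 * E ^ 2 + 7) / Real.log (1 / 4 / t)) + 4 * t := by
  have hO : IsOpen (ball z0 (1 / 4)) := isOpen_ball
  have hder : ∀ x ∈ ball z0 (1 / 4), HasDerivAt (dmod_G m n) (gp m n x) x := fun x hx =>
    dmod_deriv m n (by linarith [dmod_ball hz0 hx])
  have hGd : DifferentiableOn ℂ (dmod_G m n) (ball z0 (1 / 4)) := fun x hx =>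
    (hder x hx).differentiableAt.differentiableWithinAt
  set g : ℂ → ℂ := fun z => dmod_G m n z + d z with hg
  have hgc : ContinuousOn g (ball z0 (1 / 4)) := hGd.continuousOn.add hF.dcont.continuousOn
  -- the Beltrami equation of `exp (N g)`
  have hBel : Bel μ (ball z0 (1 / 4)) (fun z => exp (((m + n : ℕ) : ℂ) * g z)) := by
    obtain ⟨A', B', hW, hB'⟩ := hF.pn.bel
    have hW' := h6.2.2.2.2.1 _ (ball z0 (1 / 4)) _ _ _ (subset_univ _) hW
    refine ⟨A', B', h6.2.2.2.1 _ f A' B' _ A' B' hO.measurableSet hW' ?_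
      EventuallyEq.rfl EventuallyEq.rfl, ?_⟩
    · rw [Filter.EventuallyEq, ae_restrict_iff' hO.measurableSet]
      refine Eventually.of_forall fun x hx => ?_
      rw [hg]
      simp only
      rw [dmod_exp hmn (by linarith [dmod_ball hz0 hx]), hF.eq x]
    · rw [Measure.restrict_univ] at hB'
      exact ae_restrict_of_ae hB'
  have hMPP : MPP z0 (1 / 4) g := h2 κ hκ hκ1 μ hμ z0 (1 / 4) g (m + n) hmn hgc hBel
  -- weak derivatives of `g`
  have hWG : WD (ball z0 (1 / 4)) (dmod_G m n) (gp m n) (fun _ => 0) := by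
    refine h6.2.2.2.1 _ (dmod_G m n) (deriv (dmod_G m n)) (fun _ => 0) _ _ _ hO.measurableSet
      (h7.2.1 _ _ hO hGd) EventuallyEq.rfl ?_ EventuallyEq.rfl
    rw [Filter.EventuallyEq, ae_restrict_iff' hO.measurableSet]
    exact Eventually.of_forall fun x hx => (hder x hx).deriv
  have hWd : WD (ball z0 (1 / 4)) d A B := h6.2.2.2.2.1 _ _ _ _ _ (subset_univ _) hWD
  have hWg : WD (ball z0 (1 / 4)) g (fun z => gp m n z + A z) (fun z => 0 + B z) :=
    h6.1 _ _ _ _ _ _ _ hWG hWd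
  obtain ⟨hi, hM⟩ := dmod_energy hmn hE hA2 hB2 hAE hBE hz0 (m := m) (n := n)
  have hCL := h3 z0 (1 / 4) (3 * E ^ 2 + 7) g (fun z => gp m n z + A z) (fun z => 0 + B z) hgc hWg
    (by simpa only [zero_add] using hi) (by simpa only [zero_add] using hM) hMPP t ht ht4 z
    (by rwa [mem_closedBall, dist_eq_norm])
  -- the modulus of `G`
  have hzb : z ∈ ball z0 (1 / 4) := by rw [mem_ball, dist_eq_norm]; linarith
  have hz0b : z0 ∈ ball z0 (1 / 4) := mem_ball_self (by norm_num)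
  have hGm : ‖dmod_G m n z - dmod_G m n z0‖ ≤ 4 * ‖z - z0‖ :=
    (convex_ball z0 (1 / 4)).norm_image_sub_le_of_norm_hasDerivWithin_le
      (fun x hx => (hder x hx).hasDerivWithinAt)
      (fun x hx => dmod_gp hmn (dmod_ball hz0 hx).le) hz0b hzb
  have e : d z - d z0 = (g z - g z0) - (dmod_G m n z - dmod_G m n z0) := by
    simp only [hg]
    ring
  rw [e]
  refine (norm_sub_le _ _).trans ?_
  linarith

theorem piece_dmod (h1 : S_dWD) (h2 : S_mpG) (h3 : S_CL) (h4 : S_uniq) (h5 : S_C3a)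
    (h6 : S_basic) (h7 : S_smooth) : S_dmod := by
  intro κ hκ hκ1
  obtain ⟨E, hE, hE'⟩ := h1 κ hκ hκ1
  obtain ⟨C₃, hC₃, hCt, -⟩ := h5
  set M : ℝ := 3 * E ^ 2 + 7 with hMdef
  have hM : 0 < M := by positivity
  set δ₁ : ℝ → ℝ := fun ε =>
    min (min (ε / 8) (1 / 8)) (1 / 4 * Real.exp (-(256 * M / ε ^ 2))) with hδ₁
  have hδ₁pos : ∀ ε, 0 < ε → 0 < δ₁ ε := by
    intro ε hε
    simp only [hδ₁]
    refine lt_min (lt_min (by positivity) (by norm_num)) (by positivity)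
  obtain ⟨K, hK⟩ := exists_nat_gt (3 / δ₁ 1)
  have hK0 : (0 : ℝ) < K := lt_trans (div_pos (by norm_num) (hδ₁pos 1 one_pos)) hK
  set C₂ : ℝ := C₃ * E + K with hC₂
  have hCE : 0 ≤ C₃ * E := mul_nonneg hC₃ hE
  have hC₂0 : 0 < C₂ := by positivity
  set C : ℝ := 5 / 2 * C₂ with hC
  have hC0 : 0 < C := by positivity
  refine ⟨C, fun ε => min (δ₁ ε) (min (1 / 4) (ε / (4 * (2 * C)))), fun ε hε =>
    lt_min (hδ₁pos ε hε) (lt_min (by norm_num) (by positivity)), ?_⟩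
  intro μ hμ m n f d hF hmn
  obtain ⟨A, B, hWD, heq, hA2, hB2, hAE, hBE, hdiff⟩ := hE' μ hμ.mu m n f d hF hmn
  have hB0 : ∀ᵐ z : ℂ, 5 / 4 < ‖z‖ → B z = 0 := by
    filter_upwards [heq] with z hz hz5
    rw [hz, hμ.mu.supp z hz5]
    simp
  have hfar := dmod_far h4 hC₃ (fun w hw => ⟨(hCt w hw).1, (hCt w hw).2.2.2⟩) hE hF.dcont hF.ddec
    hWD hB0 hB2 hBE
  -- local modulus
  have hloc : ∀ ε, 0 < ε → ∀ z0 : ℂ, ‖z0‖ ≤ 3 / 2 → ∀ z : ℂ, ‖z - z0‖ < δ₁ ε →
      ‖d z - d z0‖ ≤ ε := by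
    intro ε hε z0 hz0 z hz
    have hp := hδ₁pos ε hε
    have t1 : δ₁ ε ≤ ε / 8 := (min_le_left _ _).trans (min_le_left _ _)
    have t2 : δ₁ ε ≤ 1 / 8 := (min_le_left _ _).trans (min_le_right _ _)
    have t3 : δ₁ ε ≤ 1 / 4 * Real.exp (-(256 * M / ε ^ 2)) := min_le_right _ _
    have key := dmod_local h2 h3 h6 h7 hκ hκ1 hμ hF hmn hE hWD hA2 hB2 hAE hBE hz0 hp
      (by linarith) hz.le
    have hx0 : 0 < 256 * M / ε ^ 2 := by positivity
    have hlog : 256 * M / ε ^ 2 ≤ Real.log (1 / 4 / δ₁ ε) := by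
      rw [Real.le_log_iff_exp_le (by positivity), le_div_iff₀ hp]
      calc Real.exp (256 * M / ε ^ 2) * δ₁ ε
          ≤ Real.exp (256 * M / ε ^ 2) * (1 / 4 * Real.exp (-(256 * M / ε ^ 2))) :=
            mul_le_mul_of_nonneg_left t3 (Real.exp_pos _).le
        _ = 1 / 4 := by
            rw [Real.exp_neg]
            field_simp
    have hsq : M / Real.log (1 / 4 / δ₁ ε) ≤ (ε / 16) ^ 2 := by
      rw [div_le_iff₀ (lt_of_lt_of_le hx0 hlog)]
      calc M = (ε / 16) ^ 2 * (256 * M / ε ^ 2) := by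
            field_simp
            norm_num
        _ ≤ (ε / 16) ^ 2 * Real.log (1 / 4 / δ₁ ε) :=
            mul_le_mul_of_nonneg_left hlog (by positivity)
    have hsqrt : √(M / Real.log (1 / 4 / δ₁ ε)) ≤ ε / 16 := by
      rw [Real.sqrt_le_left (by positivity)]
      exact hsq
    linarith
  -- global bound
  have hnear : ∀ z : ℂ, ‖z‖ ≤ 3 / 2 → ‖d z‖ ≤ C₂ := by
    intro z hz
    have h32 : ‖((3 / 2 : ℝ) : ℂ)‖ = 3 / 2 := by
      rw [Complex.norm_real, Real.norm_eq_abs, abs_of_pos (by norm_num)]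
    set p : ℕ → ℂ := fun j => ((3 / 2 : ℝ) : ℂ) + ((j / K : ℝ) : ℂ) * (z - ((3 / 2 : ℝ) : ℂ))
      with hp
    have hpn : ∀ j : ℕ, j ≤ K → ‖p j‖ ≤ 3 / 2 := by
      intro j hj
      have hj' : (j : ℝ) / K ≤ 1 := by
        rw [div_le_one hK0]
        exact_mod_cast hj
      have hj0 : 0 ≤ (j : ℝ) / K := by positivity
      have e : p j = ((1 - j / K : ℝ) : ℂ) * ((3 / 2 : ℝ) : ℂ) + ((j / K : ℝ) : ℂ) * z := by
        simp only [hp]
        push_cast
        ring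
      rw [e]
      refine (norm_add_le _ _).trans ?_
      rw [norm_mul, norm_mul, h32, Complex.norm_real, Complex.norm_real, Real.norm_eq_abs,
        Real.norm_eq_abs, abs_of_nonneg (by linarith), abs_of_nonneg hj0]
      nlinarith
    have hstep : ∀ j : ℕ, ‖p (j + 1) - p j‖ < δ₁ 1 := by
      intro j
      have e : p (j + 1) - p j = ((1 / K : ℝ) : ℂ) * (z - ((3 / 2 : ℝ) : ℂ)) := by
        simp only [hp]
        push_cast
        ring
      have hz3 : ‖z - ((3 / 2 : ℝ) : ℂ)‖ ≤ 3 := (norm_sub_le _ _).trans (by rw [h32]; linarith)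
      rw [e, norm_mul, Complex.norm_real, Real.norm_eq_abs, abs_of_pos (by positivity)]
      have hd1 := hδ₁pos 1 one_pos
      rw [div_lt_iff₀ hd1] at hK
      calc 1 / (K : ℝ) * ‖z - ((3 / 2 : ℝ) : ℂ)‖ ≤ 1 / (K : ℝ) * 3 :=
            mul_le_mul_of_nonneg_left hz3 (by positivity)
        _ = 3 / K := by ring
        _ < δ₁ 1 := by
            rw [div_lt_iff₀ hK0]
            linarith
    have hind : ∀ j : ℕ, j ≤ K → ‖d (p j) - d (p 0)‖ ≤ j := by
      intro j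
      induction j with
      | zero => intro _; simp
      | succ j ih =>
        intro hj
        have a1 := ih (by omega)
        have a2 := hloc 1 one_pos (p j) (hpn j (by omega)) (p (j + 1)) (hstep j)
        have e : d (p (j + 1)) - d (p 0) = (d (p (j + 1)) - d (p j)) + (d (p j) - d (p 0)) := by
          ring
        rw [e]
        push_cast
        exact (norm_add_le _ _).trans (by linarith)
    have e0 : p 0 = ((3 / 2 : ℝ) : ℂ) := by simp [hp]
    have eK : p K = z := by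
      simp only [hp]
      rw [div_self hK0.ne']
      push_cast
      ring
    have hK' := hind K le_rfl
    rw [e0, eK] at hK'
    have hf0 := hfar ((3 / 2 : ℝ) : ℂ) (by rw [h32])
    rw [h32] at hf0
    have h5' : C₃ * E / (3 / 2) ≤ C₃ * E := by
      rw [div_le_iff₀ (by norm_num)]
      linarith
    have e : d z = (d z - d ((3 / 2 : ℝ) : ℂ)) + d ((3 / 2 : ℝ) : ℂ) := by ring
    rw [e]
    refine (norm_add_le _ _).trans ?_
    linarith
  have hbd : ∀ z, ‖d z‖ ≤ C / (1 + ‖z‖) := by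
    intro z
    have hz0 := norm_nonneg z
    rcases le_total ‖z‖ (3 / 2) with hz | hz
    · refine (hnear z hz).trans ?_
      rw [le_div_iff₀ (by linarith)]
      nlinarith
    · refine (hfar z hz).trans ?_
      rw [div_le_div_iff₀ (by linarith) (by linarith)]
      have : C₃ * E ≤ C₂ := by linarith
      nlinarith
  have hbd' : ∀ z, ‖d z‖ ≤ C := by
    intro z
    refine (hbd z).trans ?_
    rw [div_le_iff₀ (by linarith [norm_nonneg z])]
    nlinarith [norm_nonneg z]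
  refine ⟨hbd, fun ε hε z z' hzz => ?_⟩
  have s1 : ‖z - z'‖ < δ₁ ε := lt_of_lt_of_le hzz (min_le_left _ _)
  have s2 : ‖z - z'‖ < 1 / 4 :=
    lt_of_lt_of_le hzz ((min_le_right _ _).trans (min_le_left _ _))
  have s3 : ‖z - z'‖ < ε / (4 * (2 * C)) :=
    lt_of_lt_of_le hzz ((min_le_right _ _).trans (min_le_right _ _))
  rcases le_total ‖z'‖ (3 / 2) with hz | hz
  · exact hloc ε hε z' hz z s1
  · have hdo : DifferentiableOn ℂ d (ball z' (1 / 4)) := by
      refine hdiff.mono fun x hx => ?_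
      rw [mem_ball, dist_eq_norm] at hx
      simp only [mem_ofPred_eq]
      have := norm_sub_norm_le z' x
      rw [norm_sub_rev] at this
      linarith
    have hmaps : MapsTo d (ball z' (1 / 4)) (closedBall (d z') (2 * C)) := by
      intro x _
      rw [mem_closedBall, dist_eq_norm]
      exact (norm_sub_le _ _).trans (by linarith [hbd' x, hbd' z'])
    have hS := Complex.dist_le_div_mul_dist_of_mapsTo_ball hdo hmaps
      (show z ∈ ball z' (1 / 4) by rwa [mem_ball, dist_eq_norm])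
    rw [dist_eq_norm, dist_eq_norm] at hS
    refine hS.trans ?_
    rw [lt_div_iff₀ (by positivity)] at s3
    have : 2 * C / (1 / 4) * ‖z - z'‖ = ‖z - z'‖ * (4 * (2 * C)) := by ring
    rw [this]
    exact s3.le

end

end Cal
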