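import Pool.Agent.Lib.MP_4ea4c7_an.StmH6

/-! Piece [CH d1]: smooth approximation of admissible coefficients. -/

open MeasureTheory Complex Metric Set Filter Topology
open scoped ComplexConjugate ENNReal NNReal

namespace Cal

private lemma dmu_mol (ρ μ : ℂ → ℝ) (z : ℂ) :
    mol ρ (fun z => ((μ z : ℝ) : ℂ)) z = ((∫ ζ, ρ (z - ζ) * μ ζ : ℝ) : ℂ) := by
  unfold mol
  rw [← integral_complex_ofReal]
  refine integral_congr_ae (ae_of_all _ fun ζ => ?_)
  simp

theorem piece_dmu (h1 : S_bump) : S_dmu := by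
  intro G k0 μ hμ
  obtain ⟨ρ, hρs, hρ0, hρc, hρi, hρr, hρm, hρL, hρu⟩ := h1
  have hk0 := hμ.k00
  have hk1 := hμ.k01
  have habs : ∀ z, |μ z| ≤ 1 := fun z => abs_le.mpr ⟨by linarith [hμ.lo z], hμ.hi z⟩
  set g : ℂ → ℂ := fun z => ((μ z : ℝ) : ℂ) with hg
  have hgm : AEStronglyMeasurable g volume :=
    (Complex.measurable_ofReal.comp hμ.meas).aestronglyMeasurable
  have hgind : g = (closedBall (0 : ℂ) 1).indicator g := by
    funext z
    by_cases hz : z ∈ closedBall (0 : ℂ) 1
    · rw [indicator_of_mem hz]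
    · rw [indicator_of_notMem hz, hg]
      simp only
      rw [mem_closedBall, dist_zero_right, not_le] at hz
      rw [hμ.supp z (by linarith)]
      simp
  have hgL : MemLp g 2 volume := by
    rw [hgind, memLp_indicator_iff_restrict isClosed_closedBall.measurableSet]
    have : IsFiniteMeasure (volume.restrict (closedBall (0 : ℂ) 1)) :=
      ⟨by rw [Measure.restrict_apply_univ]; exact (isCompact_closedBall 0 1).measure_lt_top⟩
    refine MemLp.of_bound hgm.restrict 1 (ae_of_all _ fun z => ?_)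
    rw [hg]
    simpa using habs z
  have hgl : LocallyIntegrable g volume := hgL.locallyIntegrable (by norm_num)
  let M : ℕ → ℂ → ℝ := fun n z => ∫ ζ, ρ n (z - ζ) * μ ζ
  have hM : ∀ n z, mol (ρ n) g z = ((M n z : ℝ) : ℂ) := fun n z => dmu_mol (ρ n) μ z
  have hMs : ∀ n, ContDiff ℝ (⊤ : ℕ∞) (M n) := by
    intro n
    have h := Complex.reCLM.contDiff.comp (hρm g hgl n)
    have e : M n = Complex.reCLM ∘ mol (ρ n) g := by
      funext z
      simp [hM]
    rw [e]
    exact h
  have hρint : ∀ n, Integrable (ρ n) volume := by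
    intro n
    by_contra h
    have := hρi n
    rw [integral_undef h] at this
    exact zero_ne_one this
  have hρz : ∀ n z, Integrable (fun ζ => ρ n (z - ζ)) volume := fun n z => (hρint n).comp_sub_left z
  have hρz1 : ∀ n z, ∫ ζ, ρ n (z - ζ) = 1 := by
    intro n z
    rw [integral_sub_left_eq_self (fun ζ => ρ n ζ) volume z, hρi]
  have hMi : ∀ n z, Integrable (fun ζ => ρ n (z - ζ) * μ ζ) volume := by
    intro n z
    refine Integrable.mono' (hρz n z) ((hρz n z).aestronglyMeasurable.mul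
      hμ.meas.aestronglyMeasurable) (ae_of_all _ fun ζ => ?_)
    rw [norm_mul, Real.norm_of_nonneg (hρ0 _ _), Real.norm_eq_abs]
    calc ρ n (z - ζ) * |μ ζ| ≤ ρ n (z - ζ) * 1 :=
          mul_le_mul_of_nonneg_left (habs ζ) (hρ0 _ _)
      _ = ρ n (z - ζ) := mul_one _
  have hMlo : ∀ n z, -k0 ≤ M n z := by
    intro n z
    have h2 : ∫ ζ, (-k0) * ρ n (z - ζ) ≤ M n z := by
      refine integral_mono ((hρz n z).const_mul _) (hMi n z) fun ζ => ?_
      simp only
      rw [mul_comm]
      exact mul_le_mul_of_nonneg_left (hμ.lo ζ) (hρ0 _ _)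
    rw [integral_const_mul, hρz1, mul_one] at h2
    exact h2
  have hMhi : ∀ n z, M n z ≤ 1 := by
    intro n z
    have h2 : M n z ≤ ∫ ζ, ρ n (z - ζ) := by
      refine integral_mono (hMi n z) (hρz n z) fun ζ => ?_
      simp only
      calc ρ n (z - ζ) * μ ζ ≤ ρ n (z - ζ) * 1 :=
            mul_le_mul_of_nonneg_left (hμ.hi ζ) (hρ0 _ _)
        _ = ρ n (z - ζ) := mul_one _
    rw [hρz1] at h2
    exact h2
  have hMs0 : ∀ (n : ℕ) (z : ℂ), 7 / 8 < ‖z‖ → M (n + 7) z = 0 := by
    intro n z hz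
    refine integral_eq_zero_of_ae (ae_of_all _ fun ζ => ?_)
    simp only [Pi.zero_apply]
    by_cases hζ : 3 / 4 ≤ ‖ζ‖
    · rw [hμ.supp ζ hζ, mul_zero]
    · rw [hρc, zero_mul]
      rw [not_le] at hζ
      have h4 : 1 / 8 ≤ ‖z - ζ‖ := by
        have := norm_sub_norm_le z ζ
        linarith
      refine le_trans ?_ h4
      apply one_div_le_one_div_of_le (by norm_num)
      push_cast
      linarith [Nat.cast_nonneg (α := ℝ) n]
  have hlim : Tendsto (fun n => eLpNorm (mol (ρ (n + 7)) g - g) 2 volume) atTop (𝓝 0) :=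
    (tendsto_add_atTop_iff_nat (f := fun n => eLpNorm (fun z => mol (ρ n) g z - g z) 2 volume) 7).2
      (hρL g hgL).2
  have hTM : TendstoInMeasure volume (fun n => mol (ρ (n + 7)) g) atTop g :=
    tendstoInMeasure_of_tendsto_eLpNorm (by norm_num)
      (fun n => (hρm g hgl (n + 7)).continuous.aestronglyMeasurable) hgm hlim
  obtain ⟨ns, hmono, hns⟩ := hTM.exists_seq_tendsto_ae
  have hc0 : ∀ n : ℕ, 0 < 1 - 1 / ((n : ℝ) + 2) := by
    intro n
    have h2 : (0 : ℝ) < (n : ℝ) + 2 := by positivity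
    rw [sub_pos, div_lt_one h2]
    linarith [Nat.cast_nonneg (α := ℝ) n]
  have hc1 : ∀ n : ℕ, 1 - 1 / ((n : ℝ) + 2) < 1 := by
    intro n
    have h2 : (0 : ℝ) < (n : ℝ) + 2 := by positivity
    have h3 : 0 < 1 / ((n : ℝ) + 2) := by positivity
    linarith
  refine ⟨fun n z => (1 - 1 / ((n : ℝ) + 2)) * M (ns n + 7) z, ?_, ?_, ?_⟩
  · intro n
    refine ⟨contDiff_const.mul (hMs _), ?_, ?_, ?_⟩
    · intro z
      have a1 := hMlo (ns n + 7) z
      have a2 := hc0 n
      have a3 := hc1 n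
      have a4 := mul_le_mul_of_nonneg_left a1 a2.le
      have a5 : (1 - 1 / ((n : ℝ) + 2)) * k0 ≤ 1 * k0 := mul_le_mul_of_nonneg_right a3.le hk0
      linarith
    · intro z
      have a1 := hMhi (ns n + 7) z
      have a2 := hc0 n
      have a3 := hc1 n
      have a4 := mul_le_mul_of_nonneg_left a1 a2.le
      linarith
    · intro z hz
      simp only
      rw [hMs0 _ z hz, mul_zero]
  · filter_upwards [hns] with z hz
    have h5 := (Complex.continuous_re.tendsto _).comp hz
    have h6 : Tendsto (fun k => M (ns k + 7) z) atTop (𝓝 (μ z)) := by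
      refine (h5.congr fun k => ?_)
      simp [hM]
    have h7 : Tendsto (fun n : ℕ => 1 - 1 / ((n : ℝ) + 2)) atTop (𝓝 1) := by
      have h8 : Tendsto (fun n : ℕ => ((n : ℝ) + 2)) atTop atTop :=
        tendsto_atTop_add_const_right _ _ tendsto_natCast_atTop_atTop
      have h9 := (tendsto_const_nhds (x := (1 : ℝ))).div_atTop h8
      simpa using h9.const_sub 1
    simpa using h7.mul h6
  · intro K hK hKG
    obtain ⟨δ, hδ, hδG⟩ := hK.exists_cthickening_subset_open hμ.oG hKG
    obtain ⟨q, hq1, hq⟩ := hμ.loc (cthickening δ K) hK.cthickening hδG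
    refine ⟨q, hq1, ?_⟩
    obtain ⟨N, hN⟩ := exists_nat_gt (1 / δ)
    filter_upwards [eventually_ge_atTop N] with n hn z hz
    have hns' : N ≤ ns n := hn.trans (hmono.id_le n)
    have hsm : 1 / (((ns n + 7 : ℕ) : ℝ) + 1) ≤ δ := by
      have h2 : (0 : ℝ) < ((ns n + 7 : ℕ) : ℝ) + 1 := by positivity
      rw [div_le_iff₀ h2]
      have h3 : (N : ℝ) ≤ (ns n : ℝ) := by exact_mod_cast hns'
      have h4 : 1 < δ * N := by
        rw [div_lt_iff₀ hδ] at hN
        linarith
      push_cast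
      nlinarith
    have hb : |M (ns n + 7) z| ≤ q := by
      have h3 := norm_integral_le_of_norm_le ((hρz (ns n + 7) z).const_mul q)
        (f := fun ζ => ρ (ns n + 7) (z - ζ) * μ ζ)
        (ae_of_all _ fun ζ => by
          by_cases hζ : 1 / (((ns n + 7 : ℕ) : ℝ) + 1) ≤ ‖z - ζ‖
          · rw [hρc _ _ hζ]
            simp
          · rw [not_le] at hζ
            rw [norm_mul, Real.norm_of_nonneg (hρ0 _ _), mul_comm q]
            refine mul_le_mul_of_nonneg_left (hq ζ ?_) (hρ0 _ _)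
            refine mem_cthickening_of_dist_le ζ z δ K hz ?_
            rw [dist_comm, dist_eq_norm]
            linarith)
      rw [integral_const_mul, hρz1, mul_one] at h3
      exact h3
    rw [abs_mul, abs_of_pos (hc0 n)]
    calc (1 - 1 / ((n : ℝ) + 2)) * |M (ns n + 7) z| ≤ 1 * |M (ns n + 7) z| :=
          mul_le_mul_of_nonneg_right (hc1 n).le (abs_nonneg _)
      _ ≤ q := by rw [one_mul]; exact hb

end Cal
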