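import Pool.Agent.Lib.MP_4ea4c7_an.Stm1
import Pool.Agent.Lib.MP_4ea4c7_an.StmB

/-!
# MP_4ea4c7_an, piece DB2: the unimodular function `conj f / f` and its weak derivatives

On `U = ball 0 (3/2)` we write `f = exp (N (L + d))` with
`L z = (m/N) log (z+2) + (n/N) log (2-z)`, so `conj f / f = exp (N (conj (L+d) - (L+d)))`.
-/

open MeasureTheory Complex Metric Set Filter Topology
open scoped ComplexConjugate ENNReal NNReal

namespace Cal

noncomputable section

private theorem edef_exp (c : ℂ) (w : ℂ) :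
    dz (fun w => exp (c * w)) w = c * exp (c * w) ∧ db (fun w => exp (c * w)) w = 0 := by
  have h1 : HasDerivAt (fun w : ℂ => exp (c * w)) (exp (c * w) * (c * 1)) w :=
    ((hasDerivAt_id w).const_mul c).cexp
  have h2 := h1.complexToReal_fderiv.fderiv
  unfold dz db
  rw [h2]
  simp only [smul_apply, one_apply_eq_self, smul_eq_mul]
  constructor
  · linear_combination (-(exp (c * w) * (c * 1)) / 2) * I_mul_I
  · linear_combination ((exp (c * w) * (c * 1)) / 2) * I_mul_I

theorem piece_edef (h1 : S_basic) (h2 : S_smooth) (h3 : S_chain) : S_edef := by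
  intro μ m n f d A B hmn hf hd
  obtain ⟨b1, b2, b3, b4, b5, _⟩ := h1
  obtain ⟨_, s2, _⟩ := h2
  have hU : IsOpen (ball (0 : ℂ) (3 / 2)) := isOpen_ball
  have hN : ((m + n : ℕ) : ℂ) ≠ 0 := by
    have : m + n ≠ 0 := by omega
    exact_mod_cast this
  have hre : ∀ z ∈ ball (0 : ℂ) (3 / 2), |z.re| < 3 / 2 := by
    intro z hz
    rw [mem_ball_zero_iff] at hz
    exact lt_of_le_of_lt (abs_re_le_norm z) hz
  have hs1 : ∀ z ∈ ball (0 : ℂ) (3 / 2), z + 2 ∈ slitPlane := by
    intro z hz
    have := (abs_lt.mp (hre z hz)).1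
    refine Or.inl ?_
    simp only [add_re, re_ofNat]
    linarith
  have hs2 : ∀ z ∈ ball (0 : ℂ) (3 / 2), 2 - z ∈ slitPlane := by
    intro z hz
    have := (abs_lt.mp (hre z hz)).2
    refine Or.inl ?_
    simp only [sub_re, re_ofNat]
    linarith
  set N : ℂ := ((m + n : ℕ) : ℂ) with hNdef
  -- the logarithm of R, divided by N
  obtain ⟨L, hLdef⟩ : ∃ L : ℂ → ℂ, ∀ z, L z = ((m : ℂ) / N) * log (z + 2) +
      ((n : ℂ) / N) * log (2 - z) := ⟨_, fun _ => rfl⟩
  have hL : ∀ z ∈ ball (0 : ℂ) (3 / 2), HasDerivAt L (gp m n z) z := by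
    intro z hz
    have e1 : HasDerivAt (fun z : ℂ => log (z + 2)) (1 / (z + 2)) z :=
      ((hasDerivAt_id z).add_const 2).clog (hs1 z hz)
    have e2 : HasDerivAt (fun z : ℂ => log (2 - z)) (-1 / (2 - z)) z :=
      ((hasDerivAt_id z).const_sub 2).clog (hs2 z hz)
    have e3 := (e1.const_mul ((m : ℂ) / N)).add (e2.const_mul ((n : ℂ) / N))
    have e4 : L = (fun z : ℂ => ((m : ℂ) / N) * log (z + 2)) +
        fun z : ℂ => ((n : ℂ) / N) * log (2 - z) := by
      funext w
      rw [hLdef]
      rfl
    rw [e4]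
    refine e3.congr_deriv ?_
    have n2 : (2 : ℂ) - z ≠ 0 := slitPlane_ne_zero (hs2 z hz)
    have n3 : z - 2 ≠ 0 := fun h => n2 (by linear_combination -h)
    unfold gp
    rw [← hNdef]
    have : (-1 : ℂ) / (2 - z) = 1 / (z - 2) := by
      rw [div_eq_div_iff n2 n3]
      ring
    rw [this]
    ring
  -- f = exp (N (L + d)) on U
  have hfe : ∀ z ∈ ball (0 : ℂ) (3 / 2), f z = exp (N * (L z + d z)) := by
    intro z hz
    have q1 : exp ((m : ℂ) * log (z + 2)) = (z + 2) ^ m := by
      rw [exp_nat_mul, exp_log (slitPlane_ne_zero (hs1 z hz))]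
    have q2 : exp ((n : ℂ) * log (2 - z)) = (2 - z) ^ n := by
      rw [exp_nat_mul, exp_log (slitPlane_ne_zero (hs2 z hz))]
    have q3 : N * (L z + d z) = (m : ℂ) * log (z + 2) + (n : ℂ) * log (2 - z) + N * d z := by
      rw [hLdef]
      field_simp
    rw [hf.eq z, ← hNdef, q3, exp_add, exp_add, q1, q2]
  have hee : ∀ z ∈ ball (0 : ℂ) (3 / 2), conj (f z) / f z =
      exp (N * (conj (L z + d z) - (L z + d z))) := by
    intro z hz
    have hNc : conj N = N := by
      rw [hNdef]
      exact conj_natCast _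
    rw [hfe z hz, ← exp_conj, map_mul, hNc, ← exp_sub]
    congr 1
    ring
  have hLc : ContinuousOn L (ball (0 : ℂ) (3 / 2)) := fun z hz =>
    (hL z hz).continuousAt.continuousWithinAt
  have hDc : ContinuousOn (fun z => conj (L z + d z) + (-1) * (L z + d z))
      (ball (0 : ℂ) (3 / 2)) := by
    have hh : ContinuousOn (fun z => L z + d z) (ball (0 : ℂ) (3 / 2)) :=
      hLc.add hf.dcont.continuousOn
    exact (continuous_conj.comp_continuousOn hh).add (continuousOn_const.mul hh)
  have hGc : Continuous (fun w : ℂ => exp (N * w)) := by fun_prop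
  have hecont : ContinuousOn (fun z => conj (f z) / f z) (ball 0 (3 / 2)) := by
    have h := hGc.comp_continuousOn hDc
    refine h.congr ?_
    intro z hz
    have h5 := hee z hz
    have h6 : conj (L z + d z) + -1 * (L z + d z) = conj (L z + d z) - (L z + d z) := by ring
    simp only [Function.comp, h6]
    exact h5
  refine ⟨?_, hecont, ?_, ?_⟩
  · intro z hz
    rw [hfe z hz]
    exact exp_ne_zero _
  · intro z hz
    have hne : f z ≠ 0 := by
      rw [hfe z hz]
      exact exp_ne_zero _
    rw [norm_div, RCLike.norm_conj, div_self (norm_ne_zero_iff.mpr hne)]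
  · -- weak derivatives
    have w1 : WD (ball (0 : ℂ) (3 / 2)) L (gp m n) (fun _ => 0) := by
      have h := s2 _ L hU (fun z hz => (hL z hz).differentiableAt.differentiableWithinAt)
      refine b4 _ _ _ _ _ _ _ hU.measurableSet h (Filter.EventuallyEq.refl _ _) ?_
        (Filter.EventuallyEq.refl _ _)
      exact ae_restrict_of_forall_mem hU.measurableSet (fun z hz => (hL z hz).deriv)
    have w2 : WD (ball (0 : ℂ) (3 / 2)) d A B := b5 _ _ _ _ _ (subset_univ _) hd
    have w3 := b1 _ _ _ _ _ _ _ w1 w2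
    have w4 := b3 _ _ _ _ w3
    have w5 := b2 _ _ _ _ (-1) w3
    have w6 := b1 _ _ _ _ _ _ _ w4 w5
    have w7 := h3 _ univ _ _ _ (fun w => exp (N * w)) hU isOpen_univ w6 hDc
      (mapsTo_univ _ _) (by
        have : ContDiff ℝ 1 (fun w : ℂ => exp (N * w)) :=
          (contDiff_const.mul contDiff_id).cexp
        exact this.contDiffOn)
    refine b4 _ _ _ _ _ _ _ hU.measurableSet w7 ?_ ?_ ?_
    · refine ae_restrict_of_forall_mem hU.measurableSet (fun z hz => ?_)
      simp only
      rw [hee z hz]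
      congr 1
      ring
    · refine ae_restrict_of_forall_mem hU.measurableSet (fun z hz => ?_)
      simp only
      rw [(edef_exp N _).1, (edef_exp N _).2, hee z hz]
      have : conj (L z + d z) + -1 * (L z + d z) = conj (L z + d z) - (L z + d z) := by ring
      rw [this, zero_add]
      ring
    · refine ae_restrict_of_forall_mem hU.measurableSet (fun z hz => ?_)
      simp only
      rw [(edef_exp N _).1, (edef_exp N _).2, hee z hz]
      have : conj (L z + d z) + -1 * (L z + d z) = conj (L z + d z) - (L z + d z) := by ring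
      rw [this, zero_add, add_comm (A z)]
      ring

end

end Cal
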