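import Pool.Agent.Lib.MP_4ea4c7_an.StmB

/-!
# Piece [EB6]: the positive family of a Beltrami coefficient
-/

open MeasureTheory Complex Metric Set Filter Topology
open scoped ComplexConjugate ENNReal NNReal

namespace Cal

noncomputable section

private theorem fam_log {μ : ℂ → ℝ} (h2 : S_freal) (m n : ℕ) (f d : ℂ → ℂ) (hf : FMN μ m n f d)
    (x : ℝ) (hx : x ∈ Ioo (-2 : ℝ) 2) :
    Real.log (f (x : ℂ)).re = m * Real.log (x + 2) + n * Real.log (2 - x) +
      ((m + n : ℕ) : ℝ) * (d (x : ℂ)).re := by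
  have h := (h2 μ m n f d hf x).2.1
  have hx1 : 0 < x + 2 := by linarith [hx.1]
  have hx2 : 0 < 2 - x := by linarith [hx.2]
  rw [h, Real.log_mul (mul_pos (pow_pos hx1 m) (pow_pos hx2 n)).ne' (Real.exp_pos _).ne',
    Real.log_mul (pow_pos hx1 m).ne' (pow_pos hx2 n).ne', Real.log_pow, Real.log_pow,
    Real.log_exp]

theorem piece_fam (h1 : S_rec) (h2 : S_freal) (h3 : S_AL) : S_fam := by
  intro κ hκ0 hκ1 μ hμ f d hf
  have hr := fun m n => h1 κ hκ0 hκ1 μ hμ m n (f m n) (d m n) (f (m + 1) n) (d (m + 1) n)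
    (f m (n + 1)) (d m (n + 1)) (hf m n) (hf (m + 1) n) (hf m (n + 1))
  choose lam hlam hrec using hr
  refine ⟨lam, hlam, hrec, ?_⟩
  constructor
  · intro x hx m n
    exact (h2 μ m n _ _ (hf m n) x).2.2 hx.1 hx.2
  · intro x hx
    have h := (h2 μ 0 0 _ _ (hf 0 0) x).2.1
    simpa using h
  · intro x hx m n
    have h := congrArg Complex.re (hrec m n (x : ℂ))
    simpa using h
  · intro m n
    have h : Continuous (fun x : ℝ => (f m n (x : ℂ)).re) :=
      Complex.continuous_re.comp ((hf m n).pn.cont.comp Complex.continuous_ofReal)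
    exact h.continuousOn
  · intro x hx y hy ε hε
    obtain ⟨N0, hN⟩ := h3 κ hκ0 hκ1 μ hμ (ε / 2) (by linarith)
    refine ⟨N0, fun m n hmn => ?_⟩
    have hx1 : 0 < x + 2 := by linarith [hx.1]
    have hx2 : 0 < 2 - x := by linarith [hx.2]
    have hy1 : 0 < y + 2 := by linarith [hy.1]
    have hy2 : 0 < 2 - y := by linarith [hy.2]
    have ex := fam_log h2 m n _ _ (hf m n) x hx
    have ey := fam_log h2 m n _ _ (hf m n) y hy
    have bx : |(d m n (x : ℂ)).re| ≤ ε / 2 :=
      (Complex.abs_re_le_norm _).trans (hN m n hmn _ _ (hf m n) x)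
    have by' : |(d m n (y : ℂ)).re| ≤ ε / 2 :=
      (Complex.abs_re_le_norm _).trans (hN m n hmn _ _ (hf m n) y)
    rw [ex, ey, Real.log_div hx1.ne' hy1.ne', Real.log_div hx2.ne' hy2.ne']
    have e : (m * Real.log (x + 2) + n * Real.log (2 - x) +
        ((m + n : ℕ) : ℝ) * (d m n (x : ℂ)).re) - (m * Real.log (y + 2) + n * Real.log (2 - y) +
        ((m + n : ℕ) : ℝ) * (d m n (y : ℂ)).re) -
        (m * (Real.log (x + 2) - Real.log (y + 2)) + n * (Real.log (2 - x) - Real.log (2 - y))) =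
        ((m : ℝ) + n) * ((d m n (x : ℂ)).re - (d m n (y : ℂ)).re) := by
      push_cast
      ring
    rw [e, abs_mul, abs_of_nonneg (by positivity : (0 : ℝ) ≤ (m : ℝ) + n), mul_comm]
    refine mul_le_mul_of_nonneg_right ?_ (by positivity)
    refine (abs_sub _ _).trans ?_
    linarith

end

end Cal
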