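import Pool.Agent.Lib.MP_4ea4c7_an.StmB

/-!
# Piece EB2: behaviour of the distinguished functions at infinity and at `∓2`
-/

open MeasureTheory Complex Metric Set Filter Topology
open scoped ComplexConjugate ENNReal NNReal

namespace Cal

noncomputable section

private lemma fasym_lim {d : ℂ → ℂ} (hd : Dec d) : Tendsto d (cocompact ℂ) (𝓝 0) := by
  obtain ⟨C, hC⟩ := hd
  have h4 : Tendsto (fun z : ℂ => C / ‖z‖) (cocompact ℂ) (𝓝 0) :=
    (tendsto_norm_cocompact_atTop (E := ℂ)).const_div_atTop C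
  refine squeeze_zero_norm' ?_ h4
  filter_upwards [(tendsto_norm_cocompact_atTop (E := ℂ)).eventually_ge_atTop 2] with z hz
  exact hC z hz

theorem piece_fasym : S_fasym := by
  intro μ m n f d h
  have hexp : Continuous (fun z => exp (((m + n : ℕ) : ℂ) * d z)) :=
    continuous_exp.comp (continuous_const.mul h.dcont)
  refine ⟨?_, ?_, ?_, ?_⟩
  · have h1 : Tendsto (fun z => exp (((m + n : ℕ) : ℂ) * d z)) (cocompact ℂ) (𝓝 1) := by
      have h2 : Tendsto (fun z => ((m + n : ℕ) : ℂ) * d z) (cocompact ℂ) (𝓝 0) := by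
        have h3 := (fasym_lim h.ddec).const_mul (((m + n : ℕ) : ℂ))
        rwa [mul_zero] at h3
      have h4 := (continuous_exp.tendsto 0).comp h2
      rwa [exp_zero] at h4
    refine h1.congr' ?_
    filter_upwards [(tendsto_norm_cocompact_atTop (E := ℂ)).eventually_gt_atTop 2] with z hz
    have hz1 : z + 2 ≠ 0 := by
      intro h5
      rw [eq_neg_of_add_eq_zero_left h5] at hz
      simp at hz
    have hz2 : 2 - z ≠ 0 := by
      intro h5
      rw [← sub_eq_zero.1 h5] at hz
      simp at hz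
    rw [h.eq z]
    field_simp
  · have h1 : f = fun z => (z + 2) ^ m * ((2 - z) ^ n * exp (((m + n : ℕ) : ℂ) * d z)) := by
      funext z
      rw [h.eq z]
      ring
    have h2 : Continuous (fun z : ℂ => (2 - z) ^ n * exp (((m + n : ℕ) : ℂ) * d z)) :=
      ((continuous_const.sub continuous_id).pow n).mul hexp
    have h3 : (fun z : ℂ => (2 - z) ^ n * exp (((m + n : ℕ) : ℂ) * d z)) =O[𝓝 (-2)]
        (fun _ => (1 : ℂ)) := (h2.tendsto (-2)).isBigO_one ℂ
    have h4 := (Asymptotics.isBigO_refl (fun z : ℂ => (z + 2) ^ m) (𝓝 (-2))).mul h3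
    rw [h1]
    simpa using h4
  · have h1 : f = fun z => (z - 2) ^ n * ((-1) ^ n * (z + 2) ^ m *
        exp (((m + n : ℕ) : ℂ) * d z)) := by
      funext z
      rw [h.eq z, show (2 - z : ℂ) = (-1) * (z - 2) by ring, mul_pow]
      ring
    have h2 : Continuous (fun z : ℂ => (-1) ^ n * (z + 2) ^ m *
        exp (((m + n : ℕ) : ℂ) * d z)) :=
      (continuous_const.mul ((continuous_id.add continuous_const).pow m)).mul hexp
    have h3 : (fun z : ℂ => (-1) ^ n * (z + 2) ^ m * exp (((m + n : ℕ) : ℂ) * d z)) =O[𝓝 2]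
        (fun _ => (1 : ℂ)) := (h2.tendsto 2).isBigO_one ℂ
    have h4 := (Asymptotics.isBigO_refl (fun z : ℂ => (z - 2) ^ n) (𝓝 2)).mul h3
    rw [h1]
    simpa using h4
  · intro z h1 h2
    rw [h.eq z]
    refine mul_ne_zero (mul_ne_zero (pow_ne_zero _ fun h3 => h1 ?_)
      (pow_ne_zero _ fun h3 => h2 ?_)) (exp_ne_zero _)
    · exact eq_neg_of_add_eq_zero_left h3
    · exact (sub_eq_zero.1 h3).symm

end

end Cal
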