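import Pool.Agent.Lib.MP_4ea4c7_an.Stm2

/-!
[D7a] Solutions with many prescribed zeros, smooth coefficients.
-/

open MeasureTheory Complex Metric Set Filter Topology
open scoped ComplexConjugate ENNReal NNReal

namespace Cal

noncomputable section

private theorem fex1_taylor {f : ℂ → ℂ} {x : ℂ} {m : ℕ} (hf : AnalyticAt ℂ f x)
    (h : ∀ i < m, iteratedDeriv i f x = 0) : f =O[𝓝 x] fun z => (z - x) ^ m := by
  have h1 := hf.hasFPowerSeriesAt.isBigO_sub_partialSum_pow m
  have h2 : ∀ y : ℂ, (FormalMultilinearSeries.ofScalars ℂ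
      (fun n => iteratedDeriv n f x / (n.factorial : ℂ))).partialSum m y = 0 := by
    intro y
    unfold FormalMultilinearSeries.partialSum
    refine Finset.sum_eq_zero fun i hi => ?_
    rw [FormalMultilinearSeries.ofScalars_apply_eq, h i (Finset.mem_range.1 hi)]
    simp
  have h3 : (fun y : ℂ => f (x + y)) =O[𝓝 0] fun y : ℂ => ‖y‖ ^ m := by
    simpa only [h2, sub_zero] using h1
  have h4 : Tendsto (fun z : ℂ => z - x) (𝓝 x) (𝓝 0) := by
    have h := (continuous_id.sub continuous_const : Continuous fun z : ℂ => z - x).tendsto x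
    have e : (fun z : ℂ => z - x) x = 0 := sub_self x
    rw [← e]
    exact h
  have h5 := h3.comp_tendsto h4
  have h6 : ((fun y : ℂ => f (x + y)) ∘ fun z : ℂ => z - x) = f := by
    funext z
    simp
  rw [h6] at h5
  refine h5.trans (Asymptotics.isBigO_of_le _ fun z => ?_)
  simp

private theorem fex1_symm {f : ℂ → ℂ} (hf : ∀ z, f (conj z) = conj (f z)) (i : ℕ) (z : ℂ) :
    iteratedDeriv i f (conj z) = conj (iteratedDeriv i f z) := by
  induction i generalizing z with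
  | zero => simpa using hf z
  | succ i ih =>
    rw [iteratedDeriv_succ]
    have e : ((starRingEnd ℂ) ∘ iteratedDeriv i f ∘ (starRingEnd ℂ)) = iteratedDeriv i f := by
      funext z
      simp [ih]
    have := congrFun (deriv_conj_conj (f := iteratedDeriv i f)) (conj z)
    rw [e] at this
    simpa using this

private theorem fex1_add (h4 : S_basic) {μ : ℂ → ℝ} {N : ℕ} {f g : ℂ → ℂ} (hf : PN μ N f)
    (hg : PN μ N g) : PN μ N (fun z => f z + g z) := by
  obtain ⟨A, B, hW, hB⟩ := hf.bel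
  obtain ⟨A', B', hW', hB'⟩ := hg.bel
  obtain ⟨C, hC⟩ := hf.growth
  obtain ⟨C', hC'⟩ := hg.growth
  refine ⟨hf.cont.add hg.cont, fun z => by rw [hf.symm, hg.symm, map_add],
    ⟨_, _, h4.1 _ _ _ _ _ _ _ hW hW', ?_⟩, ⟨C + C', fun z => ?_⟩⟩
  · filter_upwards [hB, hB'] with z h1 h2
    rw [h1, h2, map_add]
    ring
  · calc ‖f z + g z‖ ≤ ‖f z‖ + ‖g z‖ := norm_add_le _ _
      _ ≤ C * (1 + ‖z‖) ^ N + C' * (1 + ‖z‖) ^ N := add_le_add (hC z) (hC' z)
      _ = (C + C') * (1 + ‖z‖) ^ N := by ring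

private theorem fex1_smul (h4 : S_basic) {μ : ℂ → ℝ} {N : ℕ} {f : ℂ → ℂ} (c : ℝ)
    (hf : PN μ N f) : PN μ N (fun z => (c : ℂ) * f z) := by
  obtain ⟨A, B, hW, hB⟩ := hf.bel
  obtain ⟨C, hC⟩ := hf.growth
  refine ⟨continuous_const.mul hf.cont, fun z => by rw [hf.symm, map_mul, conj_ofReal],
    ⟨_, _, h4.2.1 _ _ _ _ (c : ℂ) hW, ?_⟩, ⟨|c| * C, fun z => ?_⟩⟩
  · filter_upwards [hB] with z h1
    rw [h1, map_mul, conj_ofReal]
    ring
  · rw [norm_mul, Complex.norm_real, Real.norm_eq_abs, mul_assoc]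
    exact mul_le_mul_of_nonneg_left (hC z) (abs_nonneg c)

private theorem fex1_mono {μ : ℂ → ℝ} {N M : ℕ} (hNM : N ≤ M) {f : ℂ → ℂ} (hf : PN μ N f) :
    PN μ M f := by
  obtain ⟨C, hC⟩ := hf.growth
  refine ⟨hf.cont, hf.symm, hf.bel, ⟨|C|, fun z => ?_⟩⟩
  have h1 : (1 : ℝ) ≤ 1 + ‖z‖ := by linarith [norm_nonneg z]
  calc ‖f z‖ ≤ C * (1 + ‖z‖) ^ N := hC z
    _ ≤ |C| * (1 + ‖z‖) ^ N := mul_le_mul_of_nonneg_right (le_abs_self C) (by positivity)
    _ ≤ |C| * (1 + ‖z‖) ^ M := mul_le_mul_of_nonneg_left (pow_le_pow_right₀ h1 hNM) (abs_nonneg C)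

private theorem fex1_sum (h4 : S_basic) {μ : ℂ → ℝ} {N : ℕ} {ι : Type} (s : Finset ι)
    (c : ι → ℝ) (F : ι → ℂ → ℂ) (hF : ∀ i, PN μ N (F i)) (h0 : PN μ N (fun _ => 0)) :
    PN μ N (fun z => ∑ i ∈ s, (c i : ℂ) * F i z) := by
  classical
  induction s using Finset.induction_on with
  | empty => simpa using h0
  | insert i s hi ih =>
    simp only [Finset.sum_insert hi]
    exact fex1_add h4 (fex1_smul h4 (c i) (hF i)) ih

private theorem fex1_analytic {f : ℂ → ℂ} (hf : DifferentiableOn ℂ f {z | 5 / 4 < ‖z‖}) {x : ℂ}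
    (hx : 5 / 4 < ‖x‖) : AnalyticAt ℂ f x := by
  have ho : IsOpen {z : ℂ | 5 / 4 < ‖z‖} := isOpen_lt continuous_const continuous_norm
  exact hf.analyticAt (ho.mem_nhds hx)

private theorem fex1_poly {N : ℕ} (c : Fin (N + 1) → ℝ) (C : ℝ)
    (h : ∀ x : ℝ, 2 ≤ x → |∑ k : Fin (N + 1), c k * x ^ (k : ℕ)| ≤ C / x) : c = 0 := by
  set P : Polynomial ℝ := ∑ k : Fin (N + 1), Polynomial.C (c k) * Polynomial.X ^ (k : ℕ) with hP
  have he : ∀ x : ℝ, P.eval x = ∑ k : Fin (N + 1), c k * x ^ (k : ℕ) := by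
    intro x
    rw [hP, Polynomial.eval_finsetSum]
    simp
  have ht : Tendsto (fun x : ℝ => P.eval x) atTop (𝓝 0) := by
    have h1 : Tendsto (fun x : ℝ => C / x) atTop (𝓝 0) := tendsto_const_nhds.div_atTop tendsto_id
    refine squeeze_zero_norm' ?_ h1
    filter_upwards [eventually_ge_atTop (2 : ℝ)] with x hx
    rw [he, Real.norm_eq_abs]
    exact h x hx
  have hP0 : P = 0 := by
    have := ((Polynomial.tendsto_nhds_iff P).1 ht).1
    exact Polynomial.leadingCoeff_eq_zero.1 this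
  funext k
  have h2 : P.coeff (k : ℕ) = c k := by
    rw [hP, Polynomial.finsetSum_coeff]
    simp only [Polynomial.coeff_C_mul, Polynomial.coeff_X_pow, mul_ite, mul_one, mul_zero]
    rw [Finset.sum_eq_single k]
    · simp
    · intro j _ hj
      rw [if_neg]
      intro h
      exact hj (Fin.ext h.symm)
    · intro h
      exact absurd (Finset.mem_univ k) h
  rw [← h2, hP0]
  simp

theorem piece_fex1 (h1 : S_fpS) (_h2 : S_zero) (h3 : S_polypart) (h4 : S_basic) : S_fex1 := by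
  intro κ hκ hκ1 μ hμ m n
  have hF0 : ∀ k : ℕ, ∃ f, PN μ k f ∧ Dec (fun z => f z - z ^ k) := by
    intro k
    obtain ⟨f, hf, hd⟩ := h1 κ hκ hκ1 μ hμ (Polynomial.X ^ k)
    rw [Polynomial.natDegree_X_pow] at hf
    refine ⟨f, hf, ?_⟩
    simpa [pv] using hd
  choose F hF hD using hF0
  choose C hC using hD
  have hFd : ∀ k, DifferentiableOn ℂ (F k) {z | 5 / 4 < ‖z‖} := by
    intro k
    obtain ⟨p, -, -, -, h⟩ := h3 κ μ k (F k) hμ.mu (hF k)
    exact h
  have hm2 : (5 : ℝ) / 4 < ‖(-2 : ℂ)‖ := by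
    rw [norm_neg]
    norm_num
  have hp2 : (5 : ℝ) / 4 < ‖(2 : ℂ)‖ := by norm_num
  set N := m + n with hN
  set A : Matrix (Fin m ⊕ Fin n) (Fin (N + 1)) ℝ := Matrix.of fun s k =>
    Sum.elim (fun i : Fin m => (iteratedDeriv (i : ℕ) (F k) (-2)).re)
      (fun j : Fin n => (iteratedDeriv (j : ℕ) (F k) 2).re) s with hA
  have hker : LinearMap.ker (Matrix.mulVecLin A) ≠ ⊥ := by
    apply LinearMap.ker_ne_bot_of_finrank_lt
    rw [Module.finrank_fintype_fun_eq_card, Module.finrank_fintype_fun_eq_card]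
    simp [hN]
  obtain ⟨c, hc, hc0⟩ := Submodule.exists_mem_ne_zero_of_ne_bot hker
  rw [LinearMap.mem_ker, Matrix.mulVecLin_apply] at hc
  have hFN : ∀ k : Fin (N + 1), PN μ N (F k) := fun k =>
    fex1_mono (Nat.lt_succ_iff.1 k.2) (hF k)
  have h0 : PN μ N (fun _ => 0) := by
    have := fex1_smul h4 0 (hFN 0)
    simpa using this
  set f : ℂ → ℂ := fun z => ∑ k : Fin (N + 1), (c k : ℂ) * F k z with hf
  have hPN : PN μ N f := fex1_sum h4 Finset.univ c (fun k : Fin (N + 1) => F k) hFN h0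
  -- derivatives
  have hder : ∀ (i : ℕ) (x : ℂ), 5 / 4 < ‖x‖ →
      iteratedDeriv i f x = ∑ k : Fin (N + 1), (c k : ℂ) * iteratedDeriv i (F k) x := by
    intro i x hx
    rw [hf, iteratedDeriv_fun_sum]
    · refine Finset.sum_congr rfl fun k _ => ?_
      rw [iteratedDeriv_const_mul_field]
    · intro k _
      exact contDiffAt_const.mul (fex1_analytic (hFd k) hx).contDiffAt
  have him : ∀ (i : ℕ) (x : ℂ), conj x = x → (iteratedDeriv i f x).im = 0 := by
    intro i x hx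
    have := fex1_symm hPN.symm i x
    rw [hx] at this
    exact Complex.conj_eq_iff_im.1 this.symm
  have hre : ∀ (i : ℕ) (x : ℂ), 5 / 4 < ‖x‖ → (iteratedDeriv i f x).re =
      ∑ k : Fin (N + 1), c k * (iteratedDeriv i (F k) x).re := by
    intro i x hx
    rw [hder i x hx, Complex.re_sum]
    refine Finset.sum_congr rfl fun k _ => ?_
    rw [Complex.re_ofReal_mul]
  have hzm : ∀ i < m, iteratedDeriv i f (-2) = 0 := by
    intro i hi
    apply Complex.ext
    · rw [hre i _ hm2]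
      have := congrFun hc (Sum.inl ⟨i, hi⟩)
      simp only [Matrix.mulVec, dotProduct, hA, Matrix.of_apply, Sum.elim_inl,
        Pi.zero_apply] at this
      rw [Complex.zero_re, ← this]
      exact Finset.sum_congr rfl fun k _ => mul_comm _ _
    · rw [him i (-2) (by rw [map_neg, map_ofNat]), Complex.zero_im]
  have hzn : ∀ i < n, iteratedDeriv i f 2 = 0 := by
    intro i hi
    apply Complex.ext
    · rw [hre i _ hp2]
      have := congrFun hc (Sum.inr ⟨i, hi⟩)
      simp only [Matrix.mulVec, dotProduct, hA, Matrix.of_apply, Sum.elim_inr,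
        Pi.zero_apply] at this
      rw [Complex.zero_re, ← this]
      exact Finset.sum_congr rfl fun k _ => mul_comm _ _
    · rw [him i 2 (map_ofNat _ 2), Complex.zero_im]
  have hfd : DifferentiableOn ℂ f {z | 5 / 4 < ‖z‖} := by
    obtain ⟨p, -, -, -, h⟩ := h3 κ μ N f hμ.mu hPN
    exact h
  refine ⟨f, hPN, ?_, ?_, fex1_taylor (fex1_analytic hfd hp2) hzn⟩
  · by_contra hne
    push Not at hne
    apply hc0
    refine fex1_poly c (∑ k : Fin (N + 1), |c k| * C k) fun x hx => ?_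
    have hx0 : (0 : ℝ) < x := by linarith
    have hnx : ‖(x : ℂ)‖ = x := by rw [Complex.norm_real, Real.norm_eq_abs, abs_of_pos hx0]
    have e1 : ((∑ k : Fin (N + 1), c k * x ^ (k : ℕ) : ℝ) : ℂ) =
        - ∑ k : Fin (N + 1), (c k : ℂ) * (F k x - (x : ℂ) ^ (k : ℕ)) := by
      have h0 := hne (x : ℂ)
      simp only [hf] at h0
      simp only [mul_sub]
      rw [Finset.sum_sub_distrib, h0]
      push_cast
      ring
    rw [← Real.norm_eq_abs, ← Complex.norm_real, e1, norm_neg, Finset.sum_div]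
    refine (norm_sum_le _ _).trans (Finset.sum_le_sum fun k _ => ?_)
    rw [norm_mul, Complex.norm_real, Real.norm_eq_abs, mul_div_assoc]
    refine mul_le_mul_of_nonneg_left ?_ (abs_nonneg _)
    have := hC k (x : ℂ) (by rw [hnx]; exact hx)
    rwa [hnx] at this
  · have := fex1_taylor (fex1_analytic hfd hm2) hzm
    simpa only [sub_neg_eq_add] using this

end

end Cal
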