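import Pool.Agent.Lib.MP_4ea4c7_an.Stm2

/-! Piece D7b: representation of solutions with many zeros. -/

open MeasureTheory Complex Metric Set Filter Topology Asymptotics
open scoped ComplexConjugate ENNReal NNReal

namespace Cal

private lemma fx_div {Φ : ℂ → ℂ} (hΦ : Differentiable ℂ Φ) (c : ℂ) (m : ℕ)
    (hm : Φ =O[𝓝[≠] c] fun z => (z - c) ^ m) :
    ∃ Ψ : ℂ → ℂ, Differentiable ℂ Ψ ∧ ∀ z, Φ z = (z - c) ^ m * Ψ z := by
  induction m generalizing Φ with
  | zero => exact ⟨Φ, hΦ, fun z => by simp⟩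
  | succ k ih =>
    have h0 : Φ c = 0 := by
      have t1 : Tendsto (fun z : ℂ => (z - c) ^ (k + 1)) (𝓝[≠] c) (𝓝 0) := by
        have : Tendsto (fun z : ℂ => (z - c) ^ (k + 1)) (𝓝 c) (𝓝 ((c - c) ^ (k + 1))) := by
          refine Continuous.tendsto ?_ c
          fun_prop
        rw [sub_self, zero_pow (Nat.succ_ne_zero k)] at this
        exact this.mono_left nhdsWithin_le_nhds
      have t2 := hm.trans_tendsto t1
      have t3 : Tendsto Φ (𝓝[≠] c) (𝓝 (Φ c)) := (hΦ.continuous.tendsto c).mono_left nhdsWithin_le_nhds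
      exact tendsto_nhds_unique t3 t2
    have hd : Differentiable ℂ (dslope Φ c) := by
      have := (Complex.differentiableOn_dslope (s := univ) (c := c) univ_mem).2 hΦ.differentiableOn
      exact differentiableOn_univ.1 this
    have he : ∀ z, Φ z = (z - c) * dslope Φ c z := by
      intro z
      have := sub_smul_dslope Φ c z
      rw [h0, sub_zero, smul_eq_mul] at this
      exact this.symm
    have hO : dslope Φ c =O[𝓝[≠] c] fun z => (z - c) ^ k := by
      rw [isBigO_iff] at hm ⊢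
      obtain ⟨C, hC⟩ := hm
      refine ⟨C, ?_⟩
      filter_upwards [hC, self_mem_nhdsWithin] with z hz hzc
      have hzc' : 0 < ‖z - c‖ := norm_pos_iff.2 (sub_ne_zero.2 hzc)
      rw [he z, norm_mul, norm_pow, pow_succ, ← mul_assoc] at hz
      rw [norm_pow]
      nlinarith
    obtain ⟨Ψ, hΨ, hΨ'⟩ := ih hd hO
    refine ⟨Ψ, hΨ, fun z => ?_⟩
    rw [he z, hΨ' z]
    ring

private lemma fx_liou {Φ : ℂ → ℂ} (hΦ : Differentiable ℂ Φ) {m n : ℕ} {C : ℝ}
    (hg : ∀ z, 3 ≤ ‖z‖ → ‖Φ z‖ ≤ C * ‖z‖ ^ (m + n))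
    (hm : Φ =O[𝓝 (-2 : ℂ)] fun z => (z + 2) ^ m) (hn : Φ =O[𝓝 (2 : ℂ)] fun z => (z - 2) ^ n) :
    ∃ l : ℂ, ∀ z, Φ z = l * ((z + 2) ^ m * (2 - z) ^ n) := by
  have hC0 : 0 ≤ C := by
    have h := hg 3 (by simp)
    have h2 : 0 ≤ C * ‖(3 : ℂ)‖ ^ (m + n) := (norm_nonneg _).trans h
    exact nonneg_of_mul_nonneg_left h2 (pow_pos (by simp) _)
  obtain ⟨Ψ, hΨ, hΨe⟩ := fx_div hΦ (-2) m (by
    have := hm.mono (nhdsWithin_le_nhds (s := {(-2 : ℂ)}ᶜ))
    simpa only [sub_neg_eq_add] using this)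
  simp only [sub_neg_eq_add] at hΨe
  have hΨO : Ψ =O[𝓝[≠] (2 : ℂ)] fun z => (z - 2) ^ n := by
    have h1 : Ψ =O[𝓝 (2 : ℂ)] Φ := by
      have hc : ContinuousAt (fun z : ℂ => ((z + 2) ^ m)⁻¹) 2 := by
        refine ContinuousAt.inv₀ (by fun_prop) ?_
        exact pow_ne_zero _ (by norm_num)
      have hb : (fun z : ℂ => ((z + 2) ^ m)⁻¹) =O[𝓝 (2 : ℂ)] (fun _ => (1 : ℂ)) :=
        hc.tendsto.isBigO_one ℂ
      have h2 := hb.mul (isBigO_refl Φ (𝓝 (2 : ℂ)))
      simp only [one_mul] at h2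
      refine IsBigO.congr' h2 ?_ (EventuallyEq.refl _ _)
      have : ∀ᶠ z : ℂ in 𝓝 (2 : ℂ), z ≠ -2 := isOpen_ne.mem_nhds (by norm_num)
      filter_upwards [this] with z hz
      have hz' : z + 2 ≠ 0 := fun h => hz (by linear_combination h)
      rw [hΨe z]
      field_simp
    exact (h1.trans hn).mono nhdsWithin_le_nhds
  obtain ⟨Θ, hΘ, hΘe⟩ := fx_div hΨ 2 n hΨO
  have hbd : ∀ z, 3 ≤ ‖z‖ → ‖Θ z‖ ≤ C * 3 ^ (m + n) := by
    intro z hz
    have h1 := hg z hz
    rw [hΨe z, hΘe z, norm_mul, norm_mul, norm_pow, norm_pow] at h1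
    have e1 : ‖z‖ / 3 ≤ ‖z + 2‖ := by
      have : ‖z‖ ≤ ‖z + 2‖ + ‖(2 : ℂ)‖ := by
        calc ‖z‖ = ‖(z + 2) - 2‖ := by ring_nf
          _ ≤ _ := norm_sub_le _ _
      rw [Complex.norm_ofNat] at this
      linarith
    have e2 : ‖z‖ / 3 ≤ ‖z - 2‖ := by
      have : ‖z‖ ≤ ‖z - 2‖ + ‖(2 : ℂ)‖ := by
        calc ‖z‖ = ‖(z - 2) + 2‖ := by ring_nf
          _ ≤ _ := norm_add_le _ _
      rw [Complex.norm_ofNat] at this
      linarith
    have e3 : (‖z‖ / 3) ^ m ≤ ‖z + 2‖ ^ m := by gcongr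
    have e4 : (‖z‖ / 3) ^ n ≤ ‖z - 2‖ ^ n := by gcongr
    have hz0 : 0 < ‖z‖ / 3 := by linarith
    have e5 : (‖z‖ / 3) ^ (m + n) * ‖Θ z‖ ≤ C * ‖z‖ ^ (m + n) := by
      calc (‖z‖ / 3) ^ (m + n) * ‖Θ z‖ = (‖z‖ / 3) ^ m * ((‖z‖ / 3) ^ n * ‖Θ z‖) := by rw [pow_add]; ring
        _ ≤ ‖z + 2‖ ^ m * (‖z - 2‖ ^ n * ‖Θ z‖) := by gcongr
        _ ≤ _ := h1
    have e6 : C * ‖z‖ ^ (m + n) = (‖z‖ / 3) ^ (m + n) * (C * 3 ^ (m + n)) := by
      rw [div_pow]
      field_simp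
    rw [e6] at e5
    exact le_of_mul_le_mul_left e5 (by positivity)
  obtain ⟨D, hD⟩ := (isCompact_closedBall (0 : ℂ) 3).exists_bound_of_continuousOn hΘ.continuous.continuousOn
  have hall : Bornology.IsBounded (range Θ) := by
    rw [isBounded_iff_forall_norm_le]
    refine ⟨max D (C * 3 ^ (m + n)), ?_⟩
    rintro _ ⟨z, rfl⟩
    by_cases hz : 3 ≤ ‖z‖
    · exact (hbd z hz).trans (le_max_right _ _)
    · exact (hD z (by simpa using (not_le.1 hz).le)).trans (le_max_left _ _)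
  refine ⟨Θ 0 * (-1) ^ n, fun z => ?_⟩
  rw [hΨe z, hΘe z, hΘ.apply_eq_apply_of_bounded hall z 0]
  have : (2 - z) ^ n = (-1) ^ n * (z - 2) ^ n := by
    rw [← mul_pow]
    congr 1
    ring
  rw [this]
  have h2 : ((-1 : ℂ) ^ n) * (-1) ^ n = 1 := by
    rw [← mul_pow]
    simp
  linear_combination (-(z + 2) ^ m * (z - 2) ^ n * Θ 0) * h2

private lemma fx_pn (h4 : S_basic) {μ : ℂ → ℝ} {N : ℕ} {f : ℂ → ℂ} (h : PN μ N f) (c : ℝ) :
    PN μ N (fun z => (c : ℂ) * f z) := by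
  refine ⟨continuous_const.mul h.cont, fun z => ?_, ?_, ?_⟩
  · rw [h.symm, map_mul, conj_ofReal]
  · obtain ⟨A, B, hW, he⟩ := h.bel
    refine ⟨fun z => c * A z, fun z => c * B z, h4.2.1 _ _ _ _ _ hW, ?_⟩
    filter_upwards [he] with z hz
    rw [hz, map_mul, conj_ofReal]
    ring
  · obtain ⟨C, hC⟩ := h.growth
    refine ⟨‖(c : ℂ)‖ * C, fun z => ?_⟩
    rw [norm_mul, mul_assoc]
    exact mul_le_mul_of_nonneg_left (hC z) (norm_nonneg _)

private lemma fx_const (h2 : S_polypart) (h3 : S_zero) (h4 : S_basic) (h5 : S_smooth) {κ : ℝ} (hκ0 : 0 ≤ κ)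
    (hκ1 : κ < 1) {μ : ℂ → ℝ} (hμ : Mu κ (5 / 4) μ) {f : ℂ → ℂ} (h : PN μ 0 f) : ∃ t : ℝ, ∀ z, f z = t := by
  obtain ⟨p, hp, hD, -, -⟩ := h2 κ μ 0 f hμ h
  rw [Polynomial.eq_C_of_natDegree_le_zero hp] at hD
  obtain ⟨A, B, hW, he⟩ := h.bel
  rw [Measure.restrict_univ] at he
  have hc : WD univ (fun _ : ℂ => -((p.coeff 0 : ℝ) : ℂ)) (deriv (fun _ : ℂ => -((p.coeff 0 : ℝ) : ℂ))) (fun _ => 0) :=
    h5.2.1 univ _ isOpen_univ (differentiableOn_const _)
  have hW2 := h4.1 _ _ _ _ _ _ _ hW hc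
  have hz := (h3 κ hκ0 hκ1 μ hμ _ _ _ hW2 (by
    filter_upwards [he] with z hz
    rw [deriv_const, add_zero, add_zero, hz]) (by
    obtain ⟨C, hC⟩ := hD
    refine ⟨C, fun z hz => ?_⟩
    have := hC z hz
    simp only [pv, Polynomial.aeval_C] at this
    show ‖f z + -((p.coeff 0 : ℝ) : ℂ)‖ ≤ C / ‖z‖
    rw [← sub_eq_add_neg]
    exact this)).1
  refine ⟨p.coeff 0, ?_⟩
  have e : f =ᵐ[volume] fun _ => ((p.coeff 0 : ℝ) : ℂ) := by
    filter_upwards [hz] with z hz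
    linear_combination hz
  have := (h.cont.ae_eq_iff_eq volume continuous_const).1 e
  exact fun z => congrFun this z

/-- the unimodular factor has norm at most one -/
private lemma fx_uni (w : ℂ) : ‖conj w / w‖ ≤ 1 := by
  rw [norm_div, norm_conj]
  exact div_self_le_one _

private lemma fx_slit {κ : ℝ} (hκ1 : κ < 1) {t : ℝ} (ht : |t| ≤ κ) (w : ℂ) :
    1 + (t : ℂ) * (conj w / w) ∈ slitPlane := by
  rw [mem_slitPlane_iff]
  left
  have h1 : ‖(t : ℂ) * (conj w / w)‖ ≤ κ := by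
    rw [norm_mul, Complex.norm_real, Real.norm_eq_abs]
    calc |t| * ‖conj w / w‖ ≤ |t| * 1 := mul_le_mul_of_nonneg_left (fx_uni w) (abs_nonneg _)
      _ ≤ κ := by rw [mul_one]; exact ht
  have h2 := (abs_le.1 (abs_re_le_norm ((t : ℂ) * (conj w / w)))).1
  rw [add_re, one_re]
  linarith

theorem piece_fex2 (h1 : S_sim) (h2 : S_polypart) (h3 : S_zero) (h4 : S_basic) (h5 : S_smooth) : S_fex2 := by
  intro κ hκ0 hκ1 μ hμ m n f hP hne hm hn
  by_cases hN : m + n = 0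
  · obtain ⟨rfl, rfl⟩ : m = 0 ∧ n = 0 := by omega
    obtain ⟨t, ht⟩ := fx_const h2 h3 h4 h5 hκ0 hκ1 hμ.mu hP
    have ht0 : t ≠ 0 := by
      rintro rfl
      obtain ⟨z, hz⟩ := hne
      exact hz (by rw [ht z]; simp)
    refine ⟨t⁻¹, fun _ => 0, inv_ne_zero ht0, fx_pn h4 hP _, continuous_const, fun _ => by simp,
      ⟨0, fun z _ => by simp⟩, fun z => ?_⟩
    rw [ht z]
    have : (t : ℂ) ≠ 0 := by exact_mod_cast ht0
    simp [this]
  have hN0 : ((m + n : ℕ) : ℂ) ≠ 0 := by exact_mod_cast hN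
  have hN1 : (1 : ℝ) ≤ ((m + n : ℕ) : ℝ) := by
    exact_mod_cast Nat.one_le_iff_ne_zero.2 hN
  obtain ⟨σ, hσc, hσD, -, hσh, hσs⟩ := h1 κ hκ0 hκ1 μ hμ univ f isOpen_univ hP.cont.continuousOn hP.bel
  have hσs' := hσs fun z _ => ⟨mem_univ _, hP.symm z⟩
  have hΦ : Differentiable ℂ (fun z => exp (-σ z) * (f z - (μ z : ℂ) * conj (f z))) :=
    differentiableOn_univ.1 hσh
  have hμn : ∀ z, ‖(μ z : ℂ)‖ ≤ κ := by
    intro z
    rw [Complex.norm_real, Real.norm_eq_abs]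
    exact hμ.mu.bd z
  have hFb : ∀ z, ‖f z - (μ z : ℂ) * conj (f z)‖ ≤ 2 * ‖f z‖ := by
    intro z
    refine (norm_sub_le _ _).trans ?_
    rw [norm_mul, norm_conj]
    have := mul_le_mul_of_nonneg_right (hμn z) (norm_nonneg (f z))
    nlinarith [norm_nonneg (f z)]
  have hF0 : ∀ z, f z - (μ z : ℂ) * conj (f z) = 0 → f z = 0 := by
    intro z hz
    have e : f z = (μ z : ℂ) * conj (f z) := by linear_combination hz
    have e2 : ‖f z‖ ≤ κ * ‖f z‖ := by
      calc ‖f z‖ = ‖(μ z : ℂ) * conj (f z)‖ := by rw [← e]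
        _ = ‖(μ z : ℂ)‖ * ‖f z‖ := by rw [norm_mul, norm_conj]
        _ ≤ _ := mul_le_mul_of_nonneg_right (hμn z) (norm_nonneg _)
    by_contra hne
    have : 0 < ‖f z‖ := norm_pos_iff.2 hne
    nlinarith
  have hO : ∀ c : ℂ, (fun z => exp (-σ z) * (f z - (μ z : ℂ) * conj (f z))) =O[𝓝 c] f := by
    intro c
    have b1 : (fun z => exp (-σ z)) =O[𝓝 c] (fun _ => (1 : ℂ)) := by
      have : Continuous (fun z => exp (-σ z)) := continuous_exp.comp hσc.neg
      exact (this.tendsto c).isBigO_one ℂ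
    have b2 : (fun z => f z - (μ z : ℂ) * conj (f z)) =O[𝓝 c] f :=
      IsBigO.of_bound 2 (Eventually.of_forall hFb)
    have b3 := b1.mul b2
    simpa only [one_mul] using b3
  obtain ⟨C1, hC1⟩ := hσD
  obtain ⟨C2, hC2⟩ := hP.growth
  obtain ⟨l, hl⟩ := fx_liou hΦ (m := m) (n := n) (C := Real.exp |C1| * (2 * (|C2| * 2 ^ (m + n)))) (by
    intro z hz
    have hz0 : 0 < ‖z‖ := by linarith
    have g1 : ‖exp (-σ z)‖ ≤ Real.exp |C1| := by
      rw [norm_exp]
      refine Real.exp_le_exp.2 ?_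
      have s1 : (-σ z).re ≤ ‖σ z‖ := by
        rw [← norm_neg]
        exact re_le_norm _
      have s2 := hC1 z (by linarith)
      have s3 : C1 / ‖z‖ ≤ |C1| := by
        rw [div_le_iff₀ hz0]
        nlinarith [le_abs_self C1, abs_nonneg C1]
      linarith
    have g2 : ‖f z‖ ≤ |C2| * 2 ^ (m + n) * ‖z‖ ^ (m + n) := by
      refine (hC2 z).trans ?_
      calc C2 * (1 + ‖z‖) ^ (m + n) ≤ |C2| * (2 * ‖z‖) ^ (m + n) := by
            have : (1 + ‖z‖) ^ (m + n) ≤ (2 * ‖z‖) ^ (m + n) := by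
              gcongr
              linarith
            calc C2 * (1 + ‖z‖) ^ (m + n) ≤ |C2| * (1 + ‖z‖) ^ (m + n) :=
                  mul_le_mul_of_nonneg_right (le_abs_self _) (by positivity)
              _ ≤ _ := mul_le_mul_of_nonneg_left this (abs_nonneg _)
        _ = _ := by rw [mul_pow]; ring
    rw [norm_mul]
    calc ‖exp (-σ z)‖ * ‖f z - (μ z : ℂ) * conj (f z)‖ ≤
        Real.exp |C1| * (2 * (|C2| * 2 ^ (m + n) * ‖z‖ ^ (m + n))) := by
          refine mul_le_mul g1 ((hFb z).trans ?_) (norm_nonneg _) (Real.exp_pos _).le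
          exact mul_le_mul_of_nonneg_left g2 (by norm_num)
      _ = _ := by ring) ((hO _).trans hm) ((hO _).trans hn)
  have hF : ∀ z, f z - (μ z : ℂ) * conj (f z) = exp (σ z) * (l * ((z + 2) ^ m * (2 - z) ^ n)) := by
    intro z
    rw [← hl z, ← mul_assoc, ← exp_add, add_neg_cancel, exp_zero, one_mul]
  have hl0 : l ≠ 0 := by
    rintro rfl
    obtain ⟨z, hz⟩ := hne
    exact hz (hF0 z (by rw [hF z]; simp))
  have hlr : (l.re : ℂ) = l := by
    rw [← conj_eq_iff_re]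
    have e1 := hl 0
    have e2 : σ 0 = conj (σ 0) := by simpa using hσs' 0
    have e3 : f 0 = conj (f 0) := by simpa using hP.symm 0
    have e4 : conj (exp (-σ 0) * (f 0 - (μ 0 : ℂ) * conj (f 0))) =
        exp (-σ 0) * (f 0 - (μ 0 : ℂ) * conj (f 0)) := by
      rw [map_mul, map_sub, map_mul, conj_conj, conj_ofReal, ← exp_conj, map_neg, ← e2, ← e3]
    rw [e1] at e4
    simp only [zero_add, sub_zero, map_mul, map_pow, Complex.conj_ofNat] at e4
    have h2 : ((2 : ℂ) ^ m * 2 ^ n) ≠ 0 := mul_ne_zero (pow_ne_zero _ two_ne_zero) (pow_ne_zero _ two_ne_zero)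
    exact mul_right_cancel₀ h2 e4
  set t := l.re with ht
  have ht0 : t ≠ 0 := by
    intro h
    rw [h] at hlr
    exact hl0 (by rw [← hlr]; simp)
  have htc : (t : ℂ) ≠ 0 := by exact_mod_cast ht0
  -- the normalised solution
  set f' : ℂ → ℂ := fun z => ((t⁻¹ : ℝ) : ℂ) * f z with hf'
  have hP' : PN μ (m + n) f' := fx_pn h4 hP _
  set F : ℂ → ℂ := fun z => f' z - (μ z : ℂ) * conj (f' z) with hFdef
  have hFe : ∀ z, F z = exp (σ z) * ((z + 2) ^ m * (2 - z) ^ n) := by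
    intro z
    have : F z = ((t⁻¹ : ℝ) : ℂ) * (f z - (μ z : ℂ) * conj (f z)) := by
      simp only [hFdef, hf', map_mul, conj_ofReal]
      ring
    rw [this, hF z, ← hlr]
    push_cast
    field_simp
  have hFf : ∀ z, F z = 0 → f' z = 0 := by
    intro z hz
    have : ((t⁻¹ : ℝ) : ℂ) * (f z - (μ z : ℂ) * conj (f z)) = 0 := by
      rw [← hz]
      simp only [hFdef, hf', map_mul, conj_ofReal]
      ring
    have h2 : f z = 0 := by
      refine hF0 z ?_
      rcases mul_eq_zero.1 this with h | h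
      · exact absurd h (by exact_mod_cast inv_ne_zero ht0)
      · exact h
    simp [hf', h2]
  clear_value F f'
  have hμc : Continuous μ := hμ.smooth.continuous
  have hFc : Continuous F := by
    have := hP'.cont
    rw [hFdef]
    exact this.sub ((continuous_ofReal.comp hμc).mul (continuous_conj.comp this))
  have hμ1 : ∀ z, 0 < 1 - μ z ^ 2 := by
    intro z
    have := hμ.mu.bd z
    rw [abs_le] at this
    nlinarith
  set d : ℂ → ℂ := fun z => (σ z + log (1 + (μ z : ℂ) * (conj (F z) / F z)) -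
    ((Real.log (1 - μ z ^ 2) : ℝ) : ℂ)) / ((m + n : ℕ) : ℂ) with hd
  have hdout : ∀ z, 5 / 4 < ‖z‖ → d z = σ z / ((m + n : ℕ) : ℂ) := by
    intro z hz
    simp only [hd]
    rw [hμ.mu.supp z hz]
    simp
  have hdc : Continuous d := by
    rw [continuous_iff_continuousAt]
    intro z0
    by_cases hz : 5 / 4 < ‖z0‖
    · have hc : ContinuousAt (fun z => σ z / ((m + n : ℕ) : ℂ)) z0 := (hσc.div_const _).continuousAt
      refine hc.congr ?_
      have : {z : ℂ | 5 / 4 < ‖z‖} ∈ 𝓝 z0 := (isOpen_lt continuous_const continuous_norm).mem_nhds hz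
      filter_upwards [this] with z hz
      exact (hdout z hz).symm
    · have hz2 : ‖z0‖ < 2 := by linarith [not_lt.1 hz]
      have e1 : z0 + 2 ≠ 0 := by
        intro h
        have : z0 = -2 := by linear_combination h
        rw [this] at hz2
        simp at hz2
      have e2 : 2 - z0 ≠ 0 := by
        intro h
        have : z0 = 2 := by linear_combination -h
        rw [this] at hz2
        simp at hz2
      have hF0' : F z0 ≠ 0 := by
        rw [hFe]
        exact mul_ne_zero (exp_ne_zero _) (mul_ne_zero (pow_ne_zero _ e1) (pow_ne_zero _ e2))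
      have c1 : ContinuousAt (fun z => log (1 + (μ z : ℂ) * (conj (F z) / F z))) z0 := by
        refine ContinuousAt.clog ?_ (fx_slit hκ1 (hμ.mu.bd z0) _)
        refine continuousAt_const.add (((continuous_ofReal.comp hμc).continuousAt).mul ?_)
        exact ((continuous_conj.comp hFc).continuousAt).div hFc.continuousAt hF0'
      have c2 : ContinuousAt (fun z => ((Real.log (1 - μ z ^ 2) : ℝ) : ℂ)) z0 := by
        refine continuous_ofReal.continuousAt.comp ?_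
        refine ContinuousAt.log ?_ (hμ1 z0).ne'
        exact (continuous_const.sub (hμc.pow 2)).continuousAt
      exact ((hσc.continuousAt.add c1).sub c2).div_const _
  refine ⟨t⁻¹, d, inv_ne_zero ht0, ?_⟩
  rw [← hf']
  refine ⟨hP', hdc, ?_, ?_, ?_⟩
  · intro z
    have s1 : F (conj z) = conj (F z) := by
      simp only [hFdef]
      rw [hP'.symm z, hμ.mu.symm z]
      simp only [map_sub, map_mul, conj_ofReal]
    have s2 : log (1 + (μ z : ℂ) * (F z / conj (F z))) = conj (log (1 + (μ z : ℂ) * (conj (F z) / F z))) := by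
      rw [← log_conj]
      · congr 1
        simp only [map_add, map_one, map_mul, conj_ofReal, map_div₀, conj_conj]
      · exact (mem_slitPlane_iff_arg.1 (fx_slit hκ1 (hμ.mu.bd z) _)).1
    simp only [hd]
    rw [s1, hμ.mu.symm z, hσs' z, conj_conj, s2, map_div₀, map_sub, map_add, conj_ofReal, map_natCast]
  · refine ⟨C1, fun z hz => ?_⟩
    rw [hdout z (by linarith), norm_div]
    refine le_trans ?_ (hC1 z hz)
    refine div_le_self (norm_nonneg _) ?_
    rw [Complex.norm_natCast]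
    exact hN1
  · intro z
    have hw : 1 + (μ z : ℂ) * (conj (F z) / F z) ≠ 0 := slitPlane_ne_zero (fx_slit hκ1 (hμ.mu.bd z) _)
    have e1 : exp (((m + n : ℕ) : ℂ) * d z) = exp (σ z) * (1 + (μ z : ℂ) * (conj (F z) / F z)) / (1 - (μ z : ℂ) ^ 2) := by
      simp only [hd]
      rw [mul_div_cancel₀ _ hN0, exp_sub, exp_add, exp_log hw, ← ofReal_exp, Real.exp_log (hμ1 z)]
      push_cast
      rfl
    have hm1 : (1 - (μ z : ℂ) ^ 2) ≠ 0 := by
      have := (hμ1 z).ne'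
      exact_mod_cast this
    rw [e1]
    have e2 := hFe z
    by_cases hFz : F z = 0
    · rw [hFf z hFz]
      rw [hFz] at e2
      have : (z + 2) ^ m * (2 - z) ^ n = 0 := by
        rcases mul_eq_zero.1 e2.symm with h | h
        · exact absurd h (exp_ne_zero _)
        · exact h
      rw [this, zero_mul]
    · have e3 : (z + 2) ^ m * (2 - z) ^ n * (exp (σ z) * (1 + (μ z : ℂ) * (conj (F z) / F z)) / (1 - (μ z : ℂ) ^ 2)) =
          F z * (1 + (μ z : ℂ) * (conj (F z) / F z)) / (1 - (μ z : ℂ) ^ 2) := by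
        rw [e2]
        ring
      rw [e3]
      have e4 : F z * (1 + (μ z : ℂ) * (conj (F z) / F z)) = F z + (μ z : ℂ) * conj (F z) := by
        field_simp
      rw [e4]
      have e5 : F z + (μ z : ℂ) * conj (F z) = (1 - (μ z : ℂ) ^ 2) * f' z := by
        simp only [hFdef]
        rw [map_sub, map_mul, conj_ofReal, conj_conj]
        ring
      rw [e5]
      field_simp

theorem piece_fexist (h1 : S_fex1) (h2 : S_fex2) : S_fexist := by
  intro κ hκ0 hκ1 μ hμ m n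
  obtain ⟨f, hf, hne, hm, hn⟩ := h1 κ hκ0 hκ1 μ hμ m n
  obtain ⟨c, d, -, h⟩ := h2 κ hκ0 hκ1 μ hμ m n f hf hne hm hn
  exact ⟨_, d, h⟩

end Cal
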