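import Pool.Agent.Lib.MP_4ea4c7_an.StmF

/-!
# [CA N3] The final statement
-/

open MeasureTheory Complex Metric Set Filter Topology
open scoped ComplexConjugate ENNReal NNReal

namespace Cal

open LocalCalderon

noncomputable section

theorem piece_final (h1 : S_norm) (h2 : S_hole1) (h3 : S_hole2) (h4 : S_jnorm) (h5 : S_form)
    (h6 : S_jform) (h7 : S_back) (h8 : S_jtop) : S_final := by
  intro Ω' L Γ γ₁ γ₂ hJ hLc hL hΓ hΓf hne hc1 hc2 hae hcd Γ' hΓ'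
  obtain ⟨ψ, p1, p2, p3, p4⟩ := hJ
  have hJP : JP Ω' ψ := ⟨p1, p2, p3, p4⟩
  obtain ⟨hop, hbd, -, -⟩ := h8 Ω' ψ hJP
  obtain ⟨c₁, C₁, γ₁', hc₁, -, hK₁, e₁⟩ := h1.1 Ω' γ₁ hc1
  obtain ⟨c₂, C₂, γ₂', hc₂, -, hK₂, e₂⟩ := h1.1 Ω' γ₂ hc2
  have hc : 0 < min c₁ c₂ := lt_min hc₁ hc₂
  have k₁ : Cond (min c₁ c₂) (max C₁ C₂) γ₁' := hK₁ _ _ hc (min_le_left _ _) (le_max_left _ _)
  have k₂ : Cond (min c₁ c₂) (max C₁ C₂) γ₂' := hK₂ _ _ hc (min_le_right _ _) (le_max_right _ _)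
  have f₁ : γ₁ =ᵐ[volume.restrict (Ω' \ L)] γ₁' := ae_restrict_of_ae_restrict_of_subset sdiff_subset e₁
  have f₂ : γ₂ =ᵐ[volume.restrict (Ω' \ L)] γ₂' := ae_restrict_of_ae_restrict_of_subset sdiff_subset e₂
  have l₁ : γ₁ =ᵐ[volume.restrict L] γ₁' := ae_restrict_of_ae_restrict_of_subset hL e₁
  have l₂ : γ₂ =ᵐ[volume.restrict L] γ₂' := ae_restrict_of_ae_restrict_of_subset hL e₂
  have hae' : ∀ᵐ z ∂(volume.restrict L), γ₁' z = γ₂' z := by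
    filter_upwards [hae, l₁, l₂] with z a b d
    rw [← b, ← d, a]
  have hcd' : cauchyData (Ω' \ L) Γ γ₁' = cauchyData (Ω' \ L) Γ γ₂' := by
    rw [← h1.2 _ _ _ _ f₁, ← h1.2 _ _ _ _ f₂, hcd]
  have hcd2 := h3 _ _ γ₁' γ₂' Ω' L Γ hc k₁ k₂ hop hbd hLc hL hΓ hΓf hae' hcd'
  obtain ⟨hOB, -, -⟩ := h2 Ω' L Γ hop hbd hLc hL hΓ hΓf
  obtain ⟨O, hO, hOe⟩ := hOB
  have hne' : (O ∩ frontier Ω').Nonempty := by rw [← hOe]; exact hne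
  obtain ⟨ψ', hJP', hup⟩ := h4 Ω' ψ hJP O hO hne'
  have hform := h5 _ _ γ₁' γ₂' Ω' (Γ ∩ frontier Ω') hc k₁ k₂ hop hbd ⟨O, hO, hOe⟩ hcd2
  rw [hOe] at hform
  have hj := h6 _ _ γ₁' γ₂' Ω' ψ' O hc k₁ k₂ hJP' hO hup
    (fun u v hu hut hv hvt => hform u v hu hut hv hvt)
  have hb := h7 _ _ γ₁' γ₂' Ω' Γ' hc k₁ k₂ hop hbd hΓ' hj
  rw [h1.2 _ Γ' _ _ e₁, h1.2 _ Γ' _ _ e₂, hb]

end

end Cal
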