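import Pool.Agent.Lib.MP_4ea4c7_an.Stm1
import Pool.Agent.Lib.MP_4ea4c7_an.StmC

open MeasureTheory Complex Metric Set Filter Topology
open scoped ComplexConjugate ENNReal NNReal

namespace Cal

noncomputable section

private theorem flux_alg (m : ℝ) (hm : 1 - m ≠ 0) (p q : ℂ) :
    (1 + m) / (1 - m) * ip (I * (p - (m : ℂ) * p)) q = - cr q (p + (m : ℂ) * p) := by
  unfold ip cr
  simp only [mul_re, mul_im, sub_re, sub_im, add_re, add_im, I_re, I_im, ofReal_re, ofReal_im,
    conj_re, conj_im]
  field_simp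
  ring

/-- [FC1] -/
theorem piece_flux (h1 : S_bridge) (h2 : S_wedge) : S_flux := by
  intro κ _hκ0 hκ1 μ hμ U f A B hU hf hB a G ha hac haU
  obtain ⟨hint, hzero, hoff⟩ := h2 U a (fun z => (f z).re) G (fun z => conj (A z) + B z) hU ha hac
    haU (h1.1 U f A B hf).1
  have hBU : ∀ᵐ z : ℂ, z ∈ U → B z = (μ z : ℂ) * conj (A z) :=
    (ae_restrict_iff' hU.measurableSet).mp hB
  have key : (fun z => - cr (G z) (conj (A z) + B z)) =ᵐ[volume]
      fun z => gam μ z * ip (I * (conj (A z) - B z)) (G z) := by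
    filter_upwards [hoff, hBU] with z hz1 hz2
    by_cases hz : z ∈ U
    · rw [hz2 hz]
      have hm : 1 - μ z ≠ 0 := by
        have := (abs_le.mp (hμ z)).2
        intro h
        linarith
      unfold gam
      rw [flux_alg (μ z) hm]
    · have hG : G z = 0 := hz1 (fun h => hz (haU h))
      simp [hG, ip, cr]
  refine ⟨hint.neg.congr key, ?_⟩
  rw [← integral_congr_ae key, integral_neg, hzero, neg_zero]

end

end Cal
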