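import Pool.Agent.Lib.MP_4ea4c7_an.Stm2

open MeasureTheory Complex Metric Set Filter Topology
open scoped ComplexConjugate ENNReal NNReal

namespace Cal

private lemma fp_pv_real (q : Polynomial ℝ) (x : ℝ) : pv q (x : ℂ) = ((q.eval x : ℝ) : ℂ) := by
  unfold pv
  have h := Polynomial.aeval_algebraMap_apply ℂ x q
  simpa using h

private lemma fp_poly_zero (q : Polynomial ℝ) (h : Dec (pv q)) : q = 0 := by
  obtain ⟨C, hC⟩ := h
  have h1 : Tendsto (fun x : ℝ => q.eval x) atTop (𝓝 0) := by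
    apply squeeze_zero_norm' (a := fun x : ℝ => C / x)
    · filter_upwards [eventually_ge_atTop (2 : ℝ)] with x hx
      have h2 := hC (x : ℂ) (by rw [Complex.norm_real, Real.norm_of_nonneg (by linarith)]; exact hx)
      rw [fp_pv_real, Complex.norm_real, Complex.norm_real, Real.norm_of_nonneg (r := x) (by linarith)] at h2
      exact h2
    · exact tendsto_const_nhds.div_atTop tendsto_id
  have h2 := (Polynomial.tendsto_nhds_iff q).mp h1
  exact Polynomial.leadingCoeff_eq_zero.mp h2.1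

private lemma fp_poly_growth (q : Polynomial ℝ) (N : ℕ) (hq : q.natDegree ≤ N) :
    ∃ C : ℝ, 0 ≤ C ∧ ∀ z, ‖pv q z‖ ≤ C * (1 + ‖z‖) ^ N := by
  refine ⟨∑ i ∈ Finset.range (q.natDegree + 1), |q.coeff i|,
    Finset.sum_nonneg fun _ _ => abs_nonneg _, fun z => ?_⟩
  unfold pv
  rw [Polynomial.aeval_eq_sum_range, Finset.sum_mul]
  refine (norm_sum_le _ _).trans (Finset.sum_le_sum fun i hi => ?_)
  rw [norm_smul, norm_pow, Real.norm_eq_abs]
  refine mul_le_mul_of_nonneg_left ?_ (abs_nonneg _)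
  have h1 : (1 : ℝ) ≤ 1 + ‖z‖ := by linarith [norm_nonneg z]
  calc ‖z‖ ^ i ≤ (1 + ‖z‖) ^ i := pow_le_pow_left₀ (norm_nonneg z) (by linarith) i
    _ ≤ (1 + ‖z‖) ^ N := pow_le_pow_right₀ h1 (by
        have := Finset.mem_range.mp hi
        omega)

private lemma fp_Dec_sub {f g : ℂ → ℂ} (hf : Dec f) (hg : Dec g) : Dec (fun z => f z - g z) := by
  obtain ⟨C, hC⟩ := hf
  obtain ⟨C', hC'⟩ := hg
  refine ⟨C + C', fun z hz => ?_⟩
  rw [add_div]
  exact (norm_sub_le _ _).trans (add_le_add (hC z hz) (hC' z hz))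

private lemma fp_sq {ν : Measure ℂ} {F : ℂ → ℂ} (hF : MemLp F 2 ν) {C : ℝ} (hC : 0 ≤ C)
    (h : eLpNorm F 2 ν ≤ ENNReal.ofReal C) : ∫ z, ‖F z‖ ^ 2 ∂ν ≤ C ^ 2 := by
  have h0 : 0 ≤ ∫ z, ‖F z‖ ^ 2 ∂ν := integral_nonneg fun _ => by positivity
  have h1 := hF.eLpNorm_eq_integral_rpow_norm two_ne_zero ENNReal.ofNat_ne_top
  rw [h1, ENNReal.ofReal_le_ofReal_iff hC] at h
  have h2 : (∫ z, ‖F z‖ ^ (2 : ℝ≥0∞).toReal ∂ν) = ∫ z, ‖F z‖ ^ 2 ∂ν := by
    refine integral_congr_ae (Eventually.of_forall fun z => ?_)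
    simp
  rw [h2] at h
  have h3 : (2 : ℝ≥0∞).toReal⁻¹ = 1 / 2 := by simp
  rw [h3, ← Real.sqrt_eq_rpow] at h
  calc ∫ z, ‖F z‖ ^ 2 ∂ν = Real.sqrt (∫ z, ‖F z‖ ^ 2 ∂ν) ^ 2 := (Real.sq_sqrt h0).symm
    _ ≤ C ^ 2 := pow_le_pow_left₀ (Real.sqrt_nonneg _) h 2

private lemma fp_bdd {ν : Measure ℂ} {F : ℂ → ℂ} {Fk : ℕ → ℂ → ℂ} (hF : MemLp F 2 ν)
    (hFk : ∀ k, MemLp (Fk k) 2 ν)
    (h : Tendsto (fun k => eLpNorm (fun z => Fk k z - F z) 2 ν) atTop (𝓝 0)) :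
    ∃ C : ℝ, 0 ≤ C ∧ ∀ k, eLpNorm (Fk k) 2 ν ≤ ENNReal.ofReal C := by
  have hd : ∀ k, MemLp (fun z => Fk k z - F z) 2 ν := fun k => (hFk k).sub hF
  have h1 : Tendsto (fun k => (eLpNorm (fun z => Fk k z - F z) 2 ν).toReal) atTop (𝓝 0) := by
    have := (ENNReal.tendsto_toReal ENNReal.zero_ne_top).comp h
    rw [ENNReal.toReal_zero] at this
    exact this
  obtain ⟨B, hB⟩ := h1.bddAbove_range
  have hB' : ∀ k, (eLpNorm (fun z => Fk k z - F z) 2 ν).toReal ≤ B := fun k =>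
    hB (Set.mem_range_self k)
  have hB0 : 0 ≤ B := ENNReal.toReal_nonneg.trans (hB' 0)
  refine ⟨B + (eLpNorm F 2 ν).toReal, add_nonneg hB0 ENNReal.toReal_nonneg, fun k => ?_⟩
  have h2 : eLpNorm (Fk k) 2 ν ≤ eLpNorm (fun z => Fk k z - F z) 2 ν + eLpNorm F 2 ν := by
    have h3 : Fk k = (fun z => Fk k z - F z) + F := by
      funext z; simp
    calc eLpNorm (Fk k) 2 ν = eLpNorm ((fun z => Fk k z - F z) + F) 2 ν := by rw [← h3]
      _ ≤ _ := eLpNorm_add_le (hd k).1 hF.1 (by norm_num)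
  refine h2.trans ?_
  rw [ENNReal.ofReal_add hB0 ENNReal.toReal_nonneg, ENNReal.ofReal_toReal hF.2.ne]
  refine add_le_add ?_ le_rfl
  rw [← ENNReal.ofReal_toReal (hd k).2.ne]
  exact ENNReal.ofReal_le_ofReal (hB' k)

private lemma fp_mu {κ : ℝ} {μ : ℂ → ℝ} (hμ : Mu κ 1 μ) : Mu κ (5 / 4) μ :=
  ⟨hμ.meas, hμ.bd, fun z hz => hμ.supp z (by linarith), hμ.symm⟩

private lemma fp_equi (h6 : S_mpF) (h7 : S_CL) (h10 : S_basic) {κ : ℝ} (hκ0 : 0 ≤ κ) (hκ1 : κ < 1)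
    (μk : ℕ → ℂ → ℝ) (hμk : ∀ k, SM κ (μk k)) (fk Ak wk : ℕ → ℂ → ℂ) (hcont : ∀ k, Continuous (fk k))
    (hwd : ∀ k, WD univ (fk k) (Ak k) (wk k))
    (hbel : ∀ k, ∀ᵐ z, wk k z = (μk k z : ℂ) * conj (Ak k z))
    (z0 : ℂ) (r : ℝ) (hr : ball z0 1 ⊆ closedBall 0 r) (CA CW : ℝ) (hCA0 : 0 ≤ CA) (hCW0 : 0 ≤ CW)
    (hCA : ∀ k, eLpNorm (Ak k) 2 (volume.restrict (closedBall 0 r)) ≤ ENNReal.ofReal CA)
    (hCW : ∀ k, eLpNorm (wk k) 2 (volume.restrict (closedBall 0 r)) ≤ ENNReal.ofReal CW)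
    (ε : ℝ) (hε : 0 < ε) : ∃ δ : ℝ, 0 < δ ∧ ∀ k, ∀ z, ‖z - z0‖ < δ → ‖fk k z - fk k z0‖ ≤ ε := by
  have hK : IsCompact (closedBall (0 : ℂ) r) := isCompact_closedBall 0 r
  have hA : ∀ k, MemLp (Ak k) 2 (volume.restrict (closedBall 0 r)) := fun k =>
    (hwd k).A2 _ hK (subset_univ _)
  have hW : ∀ k, MemLp (wk k) 2 (volume.restrict (closedBall 0 r)) := fun k =>
    (hwd k).B2 _ hK (subset_univ _)
  set M : ℝ := CA ^ 2 + CW ^ 2 with hM
  have hM0 : 0 ≤ M := by positivity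
  have hint : ∀ k, IntegrableOn (fun z => ‖Ak k z‖ ^ 2 + ‖wk k z‖ ^ 2) (closedBall 0 r) volume := by
    intro k
    have h1 : Integrable (fun z => ‖Ak k z‖ ^ 2) (volume.restrict (closedBall 0 r)) := by
      have := (hA k).integrable_norm_pow (p := 2) two_ne_zero
      simpa using this
    have h2 : Integrable (fun z => ‖wk k z‖ ^ 2) (volume.restrict (closedBall 0 r)) := by
      have := (hW k).integrable_norm_pow (p := 2) two_ne_zero
      simpa using this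
    exact h1.add h2
  have hle : ∀ k, ∫ z in ball z0 1, (‖Ak k z‖ ^ 2 + ‖wk k z‖ ^ 2) ≤ M := by
    intro k
    have h1 : Integrable (fun z => ‖Ak k z‖ ^ 2) (volume.restrict (closedBall 0 r)) := by
      have := (hA k).integrable_norm_pow (p := 2) two_ne_zero
      simpa using this
    have h2 : Integrable (fun z => ‖wk k z‖ ^ 2) (volume.restrict (closedBall 0 r)) := by
      have := (hW k).integrable_norm_pow (p := 2) two_ne_zero
      simpa using this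
    calc ∫ z in ball z0 1, (‖Ak k z‖ ^ 2 + ‖wk k z‖ ^ 2)
        ≤ ∫ z in closedBall 0 r, (‖Ak k z‖ ^ 2 + ‖wk k z‖ ^ 2) :=
          setIntegral_mono_set (hint k) (Eventually.of_forall fun z => by positivity)
            (HasSubset.Subset.eventuallyLE hr)
      _ = (∫ z in closedBall 0 r, ‖Ak k z‖ ^ 2) + ∫ z in closedBall 0 r, ‖wk k z‖ ^ 2 :=
          integral_add h1 h2
      _ ≤ M := add_le_add (fp_sq (hA k) hCA0 (hCA k)) (fp_sq (hW k) hCW0 (hCW k))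
  set T : ℝ := 64 * M / ε ^ 2 + 1 with hT
  have hT0 : 0 < T := by positivity
  refine ⟨Real.exp (-T), Real.exp_pos _, fun k z hz => ?_⟩
  have hδ1 : Real.exp (-T) < 1 := by
    rw [Real.exp_lt_one_iff]; linarith
  have hcl := h7 z0 1 M (fk k) (Ak k) (wk k) (hcont k).continuousOn
    (h10.2.2.2.2.1 univ (ball z0 1) _ _ _ (subset_univ _) (hwd k))
    ((hint k).mono_set hr) (hle k)
    (h6 κ hκ0 hκ1 (μk k) (hμk k) z0 1 (fk k) (hcont k).continuousOn
      ⟨Ak k, wk k, h10.2.2.2.2.1 univ (ball z0 1) _ _ _ (subset_univ _) (hwd k),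
        ae_restrict_of_ae (hbel k)⟩)
    (Real.exp (-T)) (Real.exp_pos _) hδ1 z (by
      rw [mem_closedBall, dist_eq_norm]; exact hz.le)
  refine hcl.trans ?_
  have h1 : Real.log (1 / Real.exp (-T)) = T := by
    rw [one_div, Real.log_inv, Real.log_exp, neg_neg]
  rw [h1]
  have h2 : M / T ≤ (ε / 8) ^ 2 := by
    rw [div_le_iff₀ hT0, hT]
    have : (ε / 8) ^ 2 * (64 * M / ε ^ 2 + 1) = M + (ε / 8) ^ 2 := by
      field_simp
      ring
    rw [this]
    have : 0 ≤ (ε / 8) ^ 2 := by positivity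
    linarith
  have h3 : Real.sqrt (M / T) ≤ ε / 8 := by
    rw [Real.sqrt_le_left (by positivity)]
    exact h2
  linarith

private lemma fp_core (h3 : S_polypart) (h4 : S_solve) (h5 : S_stab) (h6 : S_mpF) (h7 : S_CL)
    (h8 : S_loc) (h10 : S_basic) (h13 : S_C3a) (κ : ℝ) (hκ0 : 0 ≤ κ) (hκ1 : κ < 1) (μ : ℂ → ℝ)
    (hμ : Mu κ 1 μ) (μk : ℕ → ℂ → ℝ) (N : ℕ) (p : Polynomial ℝ) (pk : ℕ → Polynomial ℝ)
    (fk : ℕ → ℂ → ℂ) (hμk : ∀ k, SM κ (μk k))
    (hlim : ∀ᵐ z, Tendsto (fun k => μk k z) atTop (𝓝 (μ z))) (hpk : ∀ k, (pk k).natDegree ≤ N)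
    (hp : p.natDegree ≤ N) (hc : ∀ i, Tendsto (fun k => (pk k).coeff i) atTop (𝓝 (p.coeff i)))
    (hfk : ∀ k, PN (μk k) N (fk k)) (hdk : ∀ k, Dec (fun z => fk k z - pv (pk k) z)) :
    ∃ h, PN μ N h ∧ Dec (fun z => h z - pv p z) ∧
      ∀ K : Set ℂ, IsCompact K → TendstoUniformlyOn fk h atTop K := by
  have hμ' := fp_mu hμ
  -- representation of fk
  have hrep : ∀ k, ∃ w A : ℂ → ℂ, W2 w ∧ WD univ (fk k) A w ∧
      (∀ᵐ z, w z = (μk k z : ℂ) * conj (A z)) ∧ (∀ᵐ z, fk k z = pv (pk k) z + Ct w z) ∧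
      ∀ z, 5 / 4 < ‖z‖ → fk k z = pv (pk k) z + Ct w z := by
    intro k
    obtain ⟨p', -, hd', ⟨w, A, hw, hwd, hb, hae, hfar⟩, -⟩ := h3 κ (μk k) N (fk k) (hμk k).mu (hfk k)
    have heq : p' = pk k := by
      have h1 : Dec (pv (p' - pk k)) := by
        have h2 := fp_Dec_sub (hdk k) hd'
        have h3 : (fun z => fk k z - pv (pk k) z - (fk k z - pv p' z)) = pv (p' - pk k) := by
          funext z
          unfold pv
          rw [map_sub]; ring
        rwa [h3] at h2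
      exact sub_eq_zero.mp (fp_poly_zero _ h1)
    rw [heq] at hae hfar
    exact ⟨w, A, hw, hwd, hb, hae, hfar⟩
  choose wk Ak hwk hwdk hbk haek hfark using hrep
  have hS0 : W2 (fun _ => (0 : ℂ)) := ⟨MemLp.zero, fun _ _ => rfl⟩
  obtain ⟨w, A, hw, hwd, hb⟩ := h4 κ hκ0 hκ1 μ hμ' (fun _ => 0) hS0 p
  have hwdk' : ∀ k, WD univ (fun z => pv (pk k) z + Ct (wk k) z) (Ak k) (wk k) := fun k =>
    h10.2.2.2.1 univ _ _ _ _ _ _ MeasurableSet.univ (hwdk k)
      (ae_restrict_of_ae (haek k)) (ae_eq_refl _) (ae_eq_refl _)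
  obtain ⟨s1, s2, s3, s4⟩ := h5 κ hκ0 hκ1 μ μk hμ' (fun k => (hμk k).mu) hlim (fun _ => 0)
    (fun _ _ => 0) hS0 (fun _ => hS0) (by simp) p pk N hpk hp hc w A wk Ak hw hwk
    hwd hwdk' hb (fun k => by
      filter_upwards [hbk k] with z hz
      rw [hz, add_zero])
  -- equicontinuity
  have hequi : ∀ z0 : ℂ, ∀ ε : ℝ, 0 < ε → ∃ δ : ℝ, 0 < δ ∧ ∀ k, ∀ z, ‖z - z0‖ < δ →
      ‖fk k z - fk k z0‖ ≤ ε := by
    intro z0 ε hε
    have hr : ball z0 1 ⊆ closedBall 0 (‖z0‖ + 1) := by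
      intro z hz
      rw [mem_ball, dist_eq_norm] at hz
      rw [mem_closedBall, dist_zero_right]
      have : ‖z‖ ≤ ‖z - z0‖ + ‖z0‖ := by
        have := norm_add_le (z - z0) z0
        rwa [sub_add_cancel] at this
      linarith
    have hK : IsCompact (closedBall (0 : ℂ) (‖z0‖ + 1)) := isCompact_closedBall _ _
    obtain ⟨CA, hCA0, hCA⟩ := fp_bdd (hwd.A2 _ hK (subset_univ _))
      (fun k => (hwdk k).A2 _ hK (subset_univ _)) (s4 (‖z0‖ + 1))
    have hs1 : Tendsto (fun k => eLpNorm (fun z => wk k z - w z) 2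
        (volume.restrict (closedBall 0 (‖z0‖ + 1)))) atTop (𝓝 0) :=
      tendsto_of_tendsto_of_tendsto_of_le_of_le tendsto_const_nhds s1 (fun _ => zero_le)
        (fun k => eLpNorm_mono_measure _ Measure.restrict_le_self)
    obtain ⟨CW, hCW0, hCW⟩ := fp_bdd (hwd.B2 _ hK (subset_univ _))
      (fun k => (hwdk k).B2 _ hK (subset_univ _)) hs1
    exact fp_equi h6 h7 h10 hκ0 hκ1 μk hμk fk Ak wk (fun k => (hfk k).cont) hwdk hbk z0
      (‖z0‖ + 1) hr CA CW hCA0 hCW0 hCA hCW ε hε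
  obtain ⟨h, hhc, hhae, hunif⟩ := h8 univ (fun z => pv p z + Ct w z) fk isOpen_univ
    (fun k => (hfk k).cont.continuousOn) hwd.f2
    (fun z0 _ ε hε => by
      obtain ⟨δ, hδ, h1⟩ := hequi z0 ε hε
      exact ⟨δ, hδ, fun k z _ hz => h1 k z hz⟩)
    (fun K hK _ => by
      obtain ⟨r, hr⟩ := hK.isBounded.subset_closedBall 0
      refine tendsto_of_tendsto_of_tendsto_of_le_of_le tendsto_const_nhds (s2 r)
        (fun _ => zero_le) (fun k => ?_)
      calc eLpNorm (fun z => fk k z - (pv p z + Ct w z)) 2 (volume.restrict K)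
          = eLpNorm (fun z => (pv (pk k) z + Ct (wk k) z) - (pv p z + Ct w z)) 2
              (volume.restrict K) := by
            refine eLpNorm_congr_ae (ae_restrict_of_ae ?_)
            filter_upwards [haek k] with z hz
            rw [hz]
        _ ≤ _ := eLpNorm_mono_measure _ (Measure.restrict_mono hr le_rfl))
  have hcont : Continuous h := continuousOn_univ.mp hhc
  have hpt : ∀ z, Tendsto (fun k => fk k z) atTop (𝓝 (h z)) := fun z =>
    (hunif {z} isCompact_singleton (subset_univ _)).tendsto_at (mem_singleton z)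
  have hfar : ∀ z, 3 / 2 ≤ ‖z‖ → h z = pv p z + Ct w z := by
    intro z hz
    have h1 := (s3 ‖z‖).tendsto_at (x := z) ⟨hz, le_rfl⟩
    refine tendsto_nhds_unique (hpt z) ?_
    refine h1.congr fun k => ?_
    exact (hfark k z (by linarith)).symm
  obtain ⟨CC, hCC0, hCC, -⟩ := h13
  have hCw := (hCC w hw).1
  refine ⟨h, ⟨hcont, ?_, ?_, ?_⟩, ?_, fun K hK => hunif K hK (subset_univ _)⟩
  · intro z
    refine tendsto_nhds_unique (hpt (conj z)) ?_
    have h1 : Tendsto (fun k => conj (fk k z)) atTop (𝓝 (conj (h z))) :=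
      (Complex.continuous_conj.tendsto _).comp (hpt z)
    refine h1.congr fun k => ?_
    exact ((hfk k).symm z).symm
  · refine ⟨A, w, ?_, ?_⟩
    · exact h10.2.2.2.1 univ _ _ _ _ _ _ MeasurableSet.univ hwd hhae.symm (ae_eq_refl _)
        (ae_eq_refl _)
    · refine ae_restrict_of_ae ?_
      filter_upwards [hb] with z hz
      rw [hz, add_zero]
  · obtain ⟨Cp, hCp0, hCp⟩ := fp_poly_growth p N hp
    obtain ⟨Cb, hCb⟩ := (isCompact_closedBall (0 : ℂ) 2).exists_bound_of_continuousOn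
      hcont.continuousOn
    have hCb0 : 0 ≤ Cb := (norm_nonneg _).trans (hCb 0 (mem_closedBall_self (by norm_num)))
    have hW0 : 0 ≤ CC * (eLpNorm w 2 volume).toReal := mul_nonneg hCC0 ENNReal.toReal_nonneg
    refine ⟨Cb + Cp + CC * (eLpNorm w 2 volume).toReal, fun z => ?_⟩
    have hN1 : (1 : ℝ) ≤ (1 + ‖z‖) ^ N := one_le_pow₀ (by linarith [norm_nonneg z])
    have e0 : 0 ≤ (1 + ‖z‖) ^ N := by positivity
    rcases le_or_gt ‖z‖ 2 with hz | hz
    · have h1 := hCb z (by rw [mem_closedBall, dist_zero_right]; exact hz)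
      calc ‖h z‖ ≤ Cb := h1
        _ ≤ Cb * (1 + ‖z‖) ^ N := le_mul_of_one_le_right hCb0 hN1
        _ ≤ _ := by
          refine mul_le_mul_of_nonneg_right ?_ e0
          linarith
    · rw [hfar z (by linarith)]
      have h1 := hCw z (by linarith)
      have h2 : CC * (eLpNorm w 2 volume).toReal / ‖z‖ ≤ CC * (eLpNorm w 2 volume).toReal :=
        div_le_self hW0 (by linarith)
      calc ‖pv p z + Ct w z‖ ≤ ‖pv p z‖ + ‖Ct w z‖ := norm_add_le _ _
        _ ≤ Cp * (1 + ‖z‖) ^ N + CC * (eLpNorm w 2 volume).toReal :=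
            add_le_add (hCp z) (h1.trans h2)
        _ ≤ Cp * (1 + ‖z‖) ^ N + CC * (eLpNorm w 2 volume).toReal * (1 + ‖z‖) ^ N :=
            add_le_add le_rfl (le_mul_of_one_le_right hW0 hN1)
        _ ≤ _ := by nlinarith [mul_nonneg hCb0 e0]
  · refine ⟨CC * (eLpNorm w 2 volume).toReal, fun z hz => ?_⟩
    change ‖h z - pv p z‖ ≤ _
    rw [hfar z (by linarith), add_sub_cancel_left]
    exact hCw z (by linarith)

theorem piece_fp (h1 : S_mollmu) (h2 : S_fpS) (h3 : S_polypart) (h4 : S_solve) (h5 : S_stab)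
    (h6 : S_mpF) (h7 : S_CL) (h8 : S_loc) (h9 : S_zero) (h10 : S_basic) (h13 : S_C3a) : S_fp := by
  intro κ hκ0 hκ1 μ hμ
  refine ⟨?_, ?_⟩
  · intro p
    obtain ⟨μk, hμk, hlim⟩ := h1 κ μ hκ0 hμ
    choose fk hfk hdk using fun k => h2 κ hκ0 hκ1 (μk k) (hμk k) p
    obtain ⟨h, hh, hd, -⟩ := fp_core h3 h4 h5 h6 h7 h8 h10 h13 κ hκ0 hκ1 μ hμ μk p.natDegree p
      (fun _ => p) fk hμk hlim (fun _ => le_rfl) le_rfl (fun _ => tendsto_const_nhds) hfk hdk
    exact ⟨h, hh, hd⟩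
  · intro μk N p pk f fk hμk hlim hpk hp hc hf hd hfk hdk K hK
    obtain ⟨h, hh, hdh, hunif⟩ := fp_core h3 h4 h5 h6 h7 h8 h10 h13 κ hκ0 hκ1 μ hμ μk N p pk fk
      hμk hlim hpk hp hc hfk hdk
    obtain ⟨A, B, hwd, hb⟩ := hf.bel
    obtain ⟨A', B', hwd', hb'⟩ := hh.bel
    rw [Measure.restrict_univ] at hb hb'
    have hz := h9 κ hκ0 hκ1 μ (fp_mu hμ) (fun z => f z + (-1) * h z) (fun z => A z + (-1) * A' z)
      (fun z => B z + (-1) * B' z)
      (h10.1 univ _ _ _ _ _ _ hwd (h10.2.1 univ _ _ _ (-1) hwd'))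
      (by
        filter_upwards [hb, hb'] with z e1 e2
        rw [e1, e2, map_add, map_mul, map_neg, map_one]
        ring)
      (by
        have h1 := fp_Dec_sub hd hdh
        have h2 : (fun z => f z - pv p z - (h z - pv p z)) = fun z => f z + (-1) * h z := by
          funext z; ring
        rwa [h2] at h1)
    have heq : f = h := by
      refine (Continuous.ae_eq_iff_eq (μ := (volume : Measure ℂ)) hf.cont hh.cont).mp ?_
      filter_upwards [hz.1] with z e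
      linear_combination e
    rw [heq]
    exact hunif K hK

end Cal
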