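import Pool.Agent.Lib.MP_4ea4c7_an.Stm2

open MeasureTheory Complex Metric Set Filter Topology
open scoped ComplexConjugate ENNReal NNReal

namespace Cal

private theorem fpS_bound (p : Polynomial ℝ) :
    ∃ C : ℝ, 0 ≤ C ∧ ∀ z : ℂ, ‖pv p z‖ ≤ C * (1 + ‖z‖) ^ p.natDegree := by
  refine ⟨∑ i ∈ Finset.range (p.natDegree + 1), |p.coeff i|,
    Finset.sum_nonneg (fun i _ => abs_nonneg _), fun z => ?_⟩
  unfold pv
  rw [Polynomial.aeval_eq_sum_range, Finset.sum_mul]
  refine (norm_sum_le _ _).trans (Finset.sum_le_sum (fun i hi => ?_))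
  rw [norm_smul, Real.norm_eq_abs, norm_pow]
  refine mul_le_mul_of_nonneg_left ?_ (abs_nonneg _)
  have h1 : ‖z‖ ^ i ≤ (1 + ‖z‖) ^ i := pow_le_pow_left₀ (norm_nonneg _) (by linarith) _
  have h2 : (1 + ‖z‖) ^ i ≤ (1 + ‖z‖) ^ p.natDegree := by
    refine pow_le_pow_right₀ (by linarith [norm_nonneg z]) ?_
    rw [Finset.mem_range] at hi
    omega
  exact h1.trans h2

private theorem fpS_conj (p : Polynomial ℝ) (z : ℂ) : pv p (conj z) = conj (pv p z) :=
  Polynomial.aeval_conj p z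

theorem piece_fpS (h1 : S_basic) (h3 : S_solve) (h4 : S_zero) (h5 : S_reg)
    (h6 : S_C3a) : S_fpS := by
  intro κ hκ0 hκ1 μ hμ p
  obtain ⟨b1, b2, _, b4, _, b6⟩ := h1
  have hW0 : W2 (fun _ => (0 : ℂ)) := ⟨MemLp.zero', fun _ _ => rfl⟩
  obtain ⟨w, A, hw, hWD, hweq⟩ := h3 κ hκ0 hκ1 μ hμ.mu (fun _ => 0) hW0 p
  obtain ⟨f, hfc, hfae, hfout⟩ := h5 κ hκ0 hκ1 μ hμ (fun _ => 0) 0 hW0 (by simp) p w A hw hWD hweq
  obtain ⟨C, hC0, c1, _⟩ := h6
  obtain ⟨d1, _, _, _⟩ := c1 w hw
  have hDec : Dec (fun z => f z - pv p z) := by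
    refine ⟨C * (eLpNorm w 2 volume).toReal, fun z hz => ?_⟩
    have e : f z - pv p z = Ct w z := by
      rw [hfout z (by linarith)]
      ring
    change ‖f z - pv p z‖ ≤ _
    rw [e]
    exact d1 z (by linarith)
  have hpc : Continuous (fun z : ℂ => pv p z) := p.continuous_aeval
  have hWf : WD univ f A w := by
    refine b4 univ _ A w f A w MeasurableSet.univ hWD ?_ (ae_eq_refl _) (ae_eq_refl _)
    rw [Measure.restrict_univ]
    filter_upwards [hfae] with z hz
    exact hz.symm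
  have hweq' : ∀ᵐ z, w z = (μ z : ℂ) * conj (A z) := by
    filter_upwards [hweq] with z hz
    rw [hz, add_zero]
  -- symmetry
  have hWf' := b6 univ f A w hWf
  have huniv : {z : ℂ | conj z ∈ (univ : Set ℂ)} = univ := by
    ext z; simp
  rw [huniv] at hWf'
  have hneg := b2 univ f A w (-1) hWf
  have hdiff := b1 univ _ _ _ _ _ _ hWf' hneg
  have hqmp : Measure.QuasiMeasurePreserving (fun z : ℂ => conj z) volume volume :=
    (conjLIE.measurePreserving).quasiMeasurePreserving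
  have hw2 : ∀ᵐ z : ℂ, w (conj z) = (μ (conj z) : ℂ) * conj (A (conj z)) := hqmp.ae hweq'
  have hzero := h4 κ hκ0 hκ1 μ hμ.mu _ _ _ hdiff (by
    filter_upwards [hweq', hw2] with z hz hz2
    rw [hz2, hz, hμ.mu.symm z]
    simp only [map_mul, Complex.conj_conj, Complex.conj_ofReal, map_add, map_neg, map_one]
    ring) (by
    obtain ⟨D, hD⟩ := hDec
    refine ⟨2 * D, fun z hz => ?_⟩
    have e : conj (f (conj z)) + -1 * f z =
        conj (f (conj z) - pv p (conj z)) - (f z - pv p z) := by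
      rw [map_sub, fpS_conj, Complex.conj_conj]
      ring
    change ‖conj (f (conj z)) + -1 * f z‖ ≤ _
    rw [e]
    have e1 : ‖f (conj z) - pv p (conj z)‖ ≤ D / ‖conj z‖ := hD (conj z) (by simpa using hz)
    have e2 : ‖f z - pv p z‖ ≤ D / ‖z‖ := hD z hz
    rw [RCLike.norm_conj] at e1
    calc ‖conj (f (conj z) - pv p (conj z)) - (f z - pv p z)‖
        ≤ ‖conj (f (conj z) - pv p (conj z))‖ + ‖f z - pv p z‖ := norm_sub_le _ _
      _ = ‖f (conj z) - pv p (conj z)‖ + ‖f z - pv p z‖ := by rw [RCLike.norm_conj]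
      _ ≤ D / ‖z‖ + D / ‖z‖ := add_le_add e1 e2
      _ = 2 * D / ‖z‖ := by ring)
  have hcont : Continuous (fun z => conj (f (conj z)) + -1 * f z) :=
    (continuous_conj.comp (hfc.comp continuous_conj)).add (continuous_const.mul hfc)
  have hall : (fun z => conj (f (conj z)) + -1 * f z) = fun _ => (0 : ℂ) :=
    (hcont.ae_eq_iff_eq volume continuous_const).mp hzero.1
  refine ⟨f, ⟨hfc, ?_, ?_, ?_⟩, hDec⟩
  · intro z
    have e : conj (f (conj z)) + -1 * f z = 0 := congrFun hall z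
    have e2 : conj (f (conj z)) = f z := by linear_combination e
    rw [← e2, Complex.conj_conj]
  · refine ⟨A, w, hWf, ?_⟩
    rw [Measure.restrict_univ]
    exact hweq'
  · obtain ⟨C1, hC1, hb⟩ := fpS_bound p
    obtain ⟨D, hD⟩ := hDec
    obtain ⟨M, hM⟩ := (isCompact_closedBall (0 : ℂ) 2).exists_bound_of_continuousOn
      (hfc.sub hpc).continuousOn
    have hM0 : 0 ≤ M := (norm_nonneg _).trans (hM 0 (by simp))
    refine ⟨C1 + (M + |D|), fun z => ?_⟩
    have hg : ‖f z - pv p z‖ ≤ M + |D| := by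
      by_cases hz : ‖z‖ ≤ 2
      · have : ‖f z - pv p z‖ ≤ M := hM z (by simpa using hz)
        have h0 := abs_nonneg D
        linarith
      · push Not at hz
        have e : ‖f z - pv p z‖ ≤ D / ‖z‖ := hD z hz.le
        have e3 : D / ‖z‖ ≤ |D| := by
          rw [div_le_iff₀ (by linarith)]
          have h0 := le_abs_self D
          have h00 := abs_nonneg D
          nlinarith
        linarith
    have h1p : (1 : ℝ) ≤ (1 + ‖z‖) ^ p.natDegree :=
      one_le_pow₀ (by linarith [norm_nonneg z])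
    calc ‖f z‖ = ‖pv p z + (f z - pv p z)‖ := by ring_nf
      _ ≤ ‖pv p z‖ + ‖f z - pv p z‖ := norm_add_le _ _
      _ ≤ C1 * (1 + ‖z‖) ^ p.natDegree + (M + |D|) := add_le_add (hb z) hg
      _ ≤ C1 * (1 + ‖z‖) ^ p.natDegree + (M + |D|) * (1 + ‖z‖) ^ p.natDegree := by
          have h0 := abs_nonneg D
          nlinarith
      _ = (C1 + (M + |D|)) * (1 + ‖z‖) ^ p.natDegree := by ring

end Cal
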