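import Pool.Agent.Lib.MP_4ea4c7_an.StmB

/-! Piece EB1: `f_{m,n}` on the real axis. -/

open MeasureTheory Complex Metric Set Filter Topology
open scoped ComplexConjugate ENNReal NNReal

namespace Cal

theorem piece_freal : S_freal := by
  intro μ m n f d h x
  have h1 : d (x : ℂ) = (((d x).re : ℝ) : ℂ) := by
    have h2 := h.dsymm (x : ℂ)
    rw [Complex.conj_ofReal] at h2
    exact (Complex.conj_eq_iff_re.1 h2.symm).symm
  have h3 : f (x : ℂ) = (((x + 2) ^ m * (2 - x) ^ n * Real.exp (((m + n : ℕ) : ℝ) * (d x).re) : ℝ) : ℂ) := by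
    rw [h.eq, h1]
    push_cast
    simp
  refine ⟨by rw [h3, Complex.ofReal_im], by rw [h3, Complex.ofReal_re], ?_⟩
  intro h4 h5
  rw [h3, Complex.ofReal_re]
  have h6 : 0 < x + 2 := by linarith
  have h7 : 0 < 2 - x := by linarith
  positivity

end Cal
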