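import Pool.Agent.Lib.MP_4ea4c7_an.Stm2

open MeasureTheory Complex Metric Set Filter Topology
open scoped ComplexConjugate ENNReal NNReal

namespace Cal

theorem Dec_tendsto_funq {d : ℂ → ℂ} (h : Dec d) :
    Tendsto (fun x : ℝ => d (x : ℂ)) atTop (𝓝 0) := by
  obtain ⟨C, hC⟩ := h
  have h1 : Tendsto (fun x : ℝ => C / x) atTop (𝓝 0) := tendsto_const_nhds.div_atTop tendsto_id
  refine squeeze_zero_norm' ?_ h1
  filter_upwards [eventually_ge_atTop (2 : ℝ)] with x hx
  have hn : ‖(x : ℂ)‖ = x := by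
    rw [Complex.norm_real, Real.norm_eq_abs, abs_of_nonneg (by linarith)]
  have h2 := hC (x : ℂ) (by rw [hn]; exact hx)
  rwa [hn] at h2

theorem piece_funq (h1 : S_unq) : S_funq := by
  intro κ h0 hκ μ hμ m n f d f' d' hf hf'
  -- the order at `-2` and at `2`
  have hO1 : f' =O[𝓝 (-2 : ℂ)] fun z => (z + 2) ^ m := by
    have hc : ContinuousAt (fun z : ℂ => (2 - z) ^ n * exp (((m + n : ℕ) : ℂ) * d' z)) (-2) := by
      have := hf'.dcont
      fun_prop
    have h2 := (Asymptotics.isBigO_refl (fun z : ℂ => (z + 2) ^ m) (𝓝 (-2 : ℂ))).mul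
      (hc.tendsto.isBigO_one ℂ)
    have h3 : f' = fun z => (z + 2) ^ m * ((2 - z) ^ n * exp (((m + n : ℕ) : ℂ) * d' z)) := by
      funext z
      rw [hf'.eq z, mul_assoc]
    rw [h3]
    simpa using h2
  have hO2 : f' =O[𝓝 (2 : ℂ)] fun z => (z - 2) ^ n := by
    have hc : ContinuousAt (fun z : ℂ => (z + 2) ^ m * exp (((m + n : ℕ) : ℂ) * d' z)) 2 := by
      have := hf'.dcont
      fun_prop
    have h4 : (fun z : ℂ => (2 - z) ^ n) =O[𝓝 (2 : ℂ)] fun z => (z - 2) ^ n :=
      Asymptotics.isBigO_of_le _ (fun z => by rw [norm_pow, norm_pow, norm_sub_rev])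
    have h2 := h4.mul (hc.tendsto.isBigO_one ℂ)
    have h3 : f' = fun z => (2 - z) ^ n * ((z + 2) ^ m * exp (((m + n : ℕ) : ℂ) * d' z)) := by
      funext z
      rw [hf'.eq z]
      ring
    rw [h3]
    simpa using h2
  obtain ⟨c, hc⟩ := h1 κ h0 hκ μ hμ m n f d f' hf hf'.pn hO1 hO2
  have hN : ∀ z : ℂ, z ≠ 2 → z ≠ -2 → exp (((m + n : ℕ) : ℂ) * d' z) = c * exp (((m + n : ℕ) : ℂ) * d z) := by
    intro z hz2 hz2'
    have h2 := hc z
    rw [hf'.eq z, hf.eq z] at h2
    have h3 : (z + 2) ^ m * (2 - z) ^ n ≠ 0 := by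
      refine mul_ne_zero (pow_ne_zero _ ?_) (pow_ne_zero _ ?_)
      · intro h
        exact hz2' (eq_neg_of_add_eq_zero_left h)
      · intro h
        exact hz2 (sub_eq_zero.mp h).symm
    refine mul_left_cancel₀ h3 ?_
    rw [h2]
    ring
  have hd := Dec_tendsto_funq hf.ddec
  have hd' := Dec_tendsto_funq hf'.ddec
  have hc1 : (c : ℂ) = 1 := by
    have t1 : Tendsto (fun x : ℝ => exp (((m + n : ℕ) : ℂ) * d' (x : ℂ))) atTop
        (𝓝 (exp (((m + n : ℕ) : ℂ) * 0))) :=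
      (Complex.continuous_exp.tendsto _).comp (hd'.const_mul _)
    have t2 : Tendsto (fun x : ℝ => (c : ℂ) * exp (((m + n : ℕ) : ℂ) * d (x : ℂ))) atTop
        (𝓝 (c * exp (((m + n : ℕ) : ℂ) * 0))) :=
      ((Complex.continuous_exp.tendsto _).comp (hd.const_mul _)).const_mul _
    have t3 : (fun x : ℝ => exp (((m + n : ℕ) : ℂ) * d' (x : ℂ))) =ᶠ[atTop]
        (fun x : ℝ => (c : ℂ) * exp (((m + n : ℕ) : ℂ) * d (x : ℂ))) := by
      filter_upwards [eventually_ge_atTop (3 : ℝ)] with x hx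
      refine hN x ?_ ?_
      · intro h
        have := congrArg Complex.re h
        simp at this
        linarith
      · intro h
        have := congrArg Complex.re h
        simp at this
        linarith
    have t4 := tendsto_nhds_unique_of_eventuallyEq t1 t2 t3
    rw [mul_zero, Complex.exp_zero, mul_one] at t4
    exact t4.symm
  refine ⟨fun z => by rw [hc z, hc1, one_mul], ?_⟩
  intro hmn
  have hNz : ((m + n : ℕ) : ℂ) ≠ 0 := by
    have : (m + n : ℕ) ≠ 0 := by omega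
    exact_mod_cast this
  have hEq : (fun z : ℂ => exp (((m + n : ℕ) : ℂ) * d' z)) = fun z => exp (((m + n : ℕ) : ℂ) * d z) := by
    have hden : Dense (({2, -2} : Set ℂ)ᶜ) :=
      Set.Countable.dense_compl ℂ (Set.toFinite ({2, -2} : Set ℂ)).countable
    have c1 : Continuous (fun z : ℂ => exp (((m + n : ℕ) : ℂ) * d' z)) := by
      have := hf'.dcont
      fun_prop
    have c2 : Continuous (fun z : ℂ => exp (((m + n : ℕ) : ℂ) * d z)) := by
      have := hf.dcont
      fun_prop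
    refine Continuous.ext_on hden c1 c2 ?_
    intro z hz
    simp only [mem_compl_iff, mem_insert_iff, mem_singleton_iff, not_or] at hz
    have := hN z hz.1 hz.2
    rw [hc1, one_mul] at this
    exact this
  -- the difference
  have hexp : ∀ z, exp (((m + n : ℕ) : ℂ) * (d z - d' z)) = 1 := by
    intro z
    have := congrFun hEq z
    rw [mul_sub, Complex.exp_sub, this, div_self (Complex.exp_ne_zero _)]
  have hform : ∀ z, ∃ k : ℤ, ‖((m + n : ℕ) : ℂ) * (d z - d' z)‖ = |(k : ℝ)| * (2 * Real.pi) := by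
    intro z
    obtain ⟨k, hk⟩ := Complex.exp_eq_one_iff.mp (hexp z)
    refine ⟨k, ?_⟩
    rw [hk, norm_mul, norm_mul, norm_mul, Complex.norm_intCast]
    simp [abs_of_pos Real.pi_pos]
  intro z
  by_contra hne
  have hne' : ((m + n : ℕ) : ℂ) * (d z - d' z) ≠ 0 := mul_ne_zero hNz (sub_ne_zero.mpr hne)
  have hcont : Continuous (fun z : ℂ => ‖((m + n : ℕ) : ℂ) * (d z - d' z)‖) := by
    have := hf.dcont
    have := hf'.dcont
    fun_prop
  have hsmall : ∃ a : ℂ, ‖((m + n : ℕ) : ℂ) * (d a - d' a)‖ ≤ Real.pi := by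
    have t1 : Tendsto (fun x : ℝ => ‖((m + n : ℕ) : ℂ) * (d (x : ℂ) - d' (x : ℂ))‖) atTop (𝓝 0) := by
      have := ((hd.sub hd').const_mul (((m + n : ℕ) : ℂ))).norm
      simpa using this
    have t2 := t1.eventually (ge_mem_nhds Real.pi_pos)
    obtain ⟨x, hx⟩ := t2.exists
    exact ⟨x, hx⟩
  have hbig : Real.pi ≤ ‖((m + n : ℕ) : ℂ) * (d z - d' z)‖ := by
    obtain ⟨k, hk⟩ := hform z
    have hk0 : k ≠ 0 := by
      rintro rfl
      apply hne'
      rw [← norm_eq_zero, hk]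
      simp
    have h1k : (1 : ℝ) ≤ |(k : ℝ)| := by
      exact_mod_cast Int.one_le_abs hk0
    rw [hk]
    nlinarith [Real.pi_pos]
  obtain ⟨b, hb⟩ := mem_range_of_exists_le_of_exists_ge hcont hsmall ⟨z, hbig⟩
  simp only at hb
  obtain ⟨k, hk⟩ := hform b
  rw [hb] at hk
  have h5 : |(k : ℝ)| * 2 = 1 := by
    have h6 : Real.pi * (|(k : ℝ)| * 2) = Real.pi * 1 := by linarith
    exact mul_left_cancel₀ Real.pi_ne_zero h6
  have h7 : |k| * 2 = 1 := by exact_mod_cast h5
  omega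

end Cal
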