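import Pool.Agent.Lib.MP_4ea4c7_an.StmD

/-! Piece G2: functions with nonnegative imaginary part in the upper half plane are nondecreasing on real gaps. -/

open MeasureTheory Complex Metric Set Filter Topology
open scoped ComplexConjugate ENNReal NNReal

namespace Cal

private lemma gp_right {h : ℝ → ℝ} {h' : ℝ} (hd : HasDerivAt h h' 0)
    (hp : ∀ᶠ y in 𝓝[>] (0 : ℝ), h 0 ≤ h y) : 0 ≤ h' := by
  have ht := hd.tendsto_slope_zero_right
  refine ge_of_tendsto ht ?_
  filter_upwards [hp, self_mem_nhdsWithin] with y hy hy0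
  have hy0' : (0 : ℝ) < y := hy0
  rw [zero_add, smul_eq_mul]
  exact mul_nonneg (inv_nonneg.2 hy0'.le) (by linarith)

theorem piece_gap : S_gap := by
  intro U q hU hq hs him a b hab hseg
  have hreal : ∀ x : ℝ, (x : ℂ) ∈ U → (q x).im = 0 := by
    intro x hx
    have h := (hs x hx).2
    rw [conj_ofReal] at h
    have h2 := congrArg Complex.im h
    rw [conj_im] at h2
    linarith
  have hder : ∀ x : ℝ, (x : ℂ) ∈ U → HasDerivAt q (deriv q x) (x : ℂ) := by
    intro x hx
    exact (hq.differentiableAt (hU.mem_nhds hx)).hasDerivAt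
  have hnn : ∀ x : ℝ, (x : ℂ) ∈ U → 0 ≤ (deriv q x).re := by
    intro x hx
    have h1 : HasDerivAt (fun w : ℂ => (x : ℂ) + w * I) I ((0 : ℝ) : ℂ) := by
      have := ((hasDerivAt_id ((0 : ℝ) : ℂ)).mul_const I).const_add (x : ℂ)
      simpa using this
    have h2 : HasDerivAt (fun w : ℂ => -I * q ((x : ℂ) + w * I)) (-I * (deriv q x * I))
        ((0 : ℝ) : ℂ) := by
      have h3 : HasDerivAt q (deriv q x) ((x : ℂ) + ((0 : ℝ) : ℂ) * I) := by
        simpa using hder x hx
      exact (HasDerivAt.comp ((0 : ℝ) : ℂ) h3 h1).const_mul (-I)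
    have h4 := h2.real_of_complex
    have e1 : -I * (deriv q x * I) = deriv q x := by
      linear_combination (-(deriv q x)) * I_mul_I
    rw [e1] at h4
    refine gp_right h4 ?_
    have hcont : Tendsto (fun y : ℝ => (x : ℂ) + (y : ℂ) * I) (𝓝 0) (𝓝 (x : ℂ)) := by
      have : Continuous (fun y : ℝ => (x : ℂ) + (y : ℂ) * I) := by fun_prop
      have h5 := this.tendsto 0
      simpa using h5
    have hev : ∀ᶠ y : ℝ in 𝓝[>] (0 : ℝ), (x : ℂ) + (y : ℂ) * I ∈ U :=
      (hcont.eventually (hU.mem_nhds hx)).filter_mono nhdsWithin_le_nhds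
    filter_upwards [hev, self_mem_nhdsWithin] with y hy hy0
    have hy0' : (0 : ℝ) < y := hy0
    have e0 : (-I * q ((x : ℂ) + ((0 : ℝ) : ℂ) * I)).re = 0 := by
      simp [hreal x hx]
    have e2 : (-I * q ((x : ℂ) + (y : ℂ) * I)).re = (q ((x : ℂ) + (y : ℂ) * I)).im := by
      simp
    rw [e0, e2]
    apply him _ hy
    simp [hy0'.le]
  have hmono : MonotoneOn (fun x : ℝ => (q x).re) (Icc a b) := by
    have hd : ∀ x ∈ Icc a b, HasDerivAt (fun x : ℝ => (q x).re) (deriv q x).re x := by
      intro x hx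
      exact (hder x (hseg x hx.1 hx.2)).real_of_complex
    refine monotoneOn_of_deriv_nonneg (convex_Icc a b) ?_ ?_ ?_
    · intro x hx
      exact (hd x hx).continuousAt.continuousWithinAt
    · intro x hx
      exact (hd x (interior_subset hx)).differentiableAt.differentiableWithinAt
    · intro x hx
      rw [(hd x (interior_subset hx)).deriv]
      have hx' := interior_subset hx
      exact hnn x (hseg x hx'.1 hx'.2)
  exact hmono (left_mem_Icc.2 hab) (right_mem_Icc.2 hab) hab

end Cal
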