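import Pool.Agent.Lib.MP_4ea4c7_an.Stm1

open MeasureTheory Complex Metric Set Filter Topology
open scoped ComplexConjugate ENNReal NNReal

namespace Cal

private theorem glue_L2 (U : Set ℂ) (g : ℂ → ℂ)
    (h : ∀ z ∈ U, ∃ V, IsOpen V ∧ z ∈ V ∧ V ⊆ U ∧ L2loc V g) : L2loc U g := by
  intro K hK hKU
  have key : AEStronglyMeasurable g (volume.restrict K) ∧
      IntegrableOn (fun x => ‖g x‖ ^ 2) K volume := by
    refine hK.induction_on
      (p := fun s => AEStronglyMeasurable g (volume.restrict s) ∧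
        IntegrableOn (fun x => ‖g x‖ ^ 2) s volume) ?_ ?_ ?_ ?_
    · simp
    · intro s t hst ht
      exact ⟨ht.1.mono_set hst, ht.2.mono_set hst⟩
    · intro s t hs ht
      exact ⟨aestronglyMeasurable_union_iff.2 ⟨hs.1, ht.1⟩, hs.2.union ht.2⟩
    · intro z hz
      obtain ⟨V, hVo, hzV, _, hV⟩ := h z (hKU hz)
      obtain ⟨r, hr, hrV⟩ := Metric.nhds_basis_closedBall.mem_iff.1 (hVo.mem_nhds hzV)
      refine ⟨closedBall z r, mem_nhdsWithin_of_mem_nhds (closedBall_mem_nhds z hr), ?_⟩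
      have hm := hV (closedBall z r) (isCompact_closedBall z r) hrV
      exact ⟨hm.1, (memLp_two_iff_integrable_sq_norm hm.1).1 hm⟩
  exact (memLp_two_iff_integrable_sq_norm key.1).2 key.2

private theorem glue_int {K : Set ℂ} (hK : IsCompact K) {g ψ : ℂ → ℂ}
    (hg : MemLp g 2 (volume.restrict K)) (hψ : Continuous ψ) (h0 : ∀ z, z ∉ K → ψ z = 0) :
    Integrable (fun z => g z * ψ z) volume := by
  have : IsFiniteMeasure (volume.restrict K) := ⟨by
    rw [Measure.restrict_apply_univ]; exact hK.measure_lt_top⟩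
  have h1 : IntegrableOn g K volume := hg.integrable one_le_two
  have h2 : IntegrableOn (fun z => g z * ψ z) K volume := h1.mul_continuousOn hψ.continuousOn hK
  refine (integrableOn_iff_integrable_of_support_subset ?_).1 h2
  intro z hz
  by_contra hzK
  exact hz (by simp [h0 z hzK])

private theorem glue_id (U : Set ℂ) (f g : ℂ → ℂ) (D : (ℂ → ℂ) → ℂ → ℂ)
    (hD1 : ∀ φ : ℂ → ℂ, ContDiff ℝ (⊤ : ℕ∞) φ → Continuous (D φ))
    (hD2 : ∀ φ : ℂ → ℂ, ∀ z, z ∉ tsupport φ → D φ z = 0)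
    (hD3 : ∀ φ ψ : ℂ → ℂ, ContDiff ℝ (⊤ : ℕ∞) φ → ContDiff ℝ (⊤ : ℕ∞) ψ →
      ∀ z, D (fun w => φ w + ψ w) z = D φ z + D ψ z)
    (hf : L2loc U f) (hg : L2loc U g)
    (h : ∀ z ∈ U, ∃ V, IsOpen V ∧ z ∈ V ∧ V ⊆ U ∧
      ∀ φ : ℂ → ℂ, TF V φ → ∫ z, f z * D φ z = - ∫ z, g z * φ z) :
    ∀ φ : ℂ → ℂ, TF U φ → ∫ z, f z * D φ z = - ∫ z, g z * φ z := by
  -- the functional
  set L : (ℂ → ℂ) → ℂ := fun φ => (∫ z, f z * D φ z) + ∫ z, g z * φ z with hL
  have hadd : ∀ φ ψ : ℂ → ℂ, TF U φ → TF U ψ → L (fun w => φ w + ψ w) = L φ + L ψ := by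
    intro φ ψ hφ hψ
    have i1 := glue_int hφ.2.1 (hf _ hφ.2.1 hφ.2.2) (hD1 φ hφ.1) (hD2 φ)
    have i2 := glue_int hψ.2.1 (hf _ hψ.2.1 hψ.2.2) (hD1 ψ hψ.1) (hD2 ψ)
    have i3 := glue_int hφ.2.1 (hg _ hφ.2.1 hφ.2.2) hφ.1.continuous
      (fun z hz => image_eq_zero_of_notMem_tsupport hz)
    have i4 := glue_int hψ.2.1 (hg _ hψ.2.1 hψ.2.2) hψ.1.continuous
      (fun z hz => image_eq_zero_of_notMem_tsupport hz)
    simp only [hL]
    have e1 : ∫ z, f z * D (fun w => φ w + ψ w) z = (∫ z, f z * D φ z) + ∫ z, f z * D ψ z := by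
      rw [← integral_add i1 i2]
      refine integral_congr_ae (Filter.Eventually.of_forall (fun z => ?_))
      simp only [hD3 φ ψ hφ.1 hψ.1 z]
      ring
    have e2 : ∫ z, g z * (φ z + ψ z) = (∫ z, g z * φ z) + ∫ z, g z * ψ z := by
      rw [← integral_add i3 i4]
      refine integral_congr_ae (Filter.Eventually.of_forall (fun z => ?_))
      simp only
      ring
    rw [e1, e2]
    ring
  have hmulU : ∀ φ χ : ℂ → ℂ, TF U φ → ContDiff ℝ (⊤ : ℕ∞) χ → TF U (fun z => φ z * χ z) := by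
    intro φ χ hφ hχ
    refine ⟨hφ.1.mul hχ, hφ.2.1.mul_right, ?_⟩
    exact (tsupport_mul_subset_left (f := φ) (g := χ)).trans hφ.2.2
  intro φ hφ
  have key : ∃ χ : ℂ → ℂ, ContDiff ℝ (⊤ : ℕ∞) χ ∧ (∀ x ∈ tsupport φ, χ x = 0) ∧
      ∀ φ' : ℂ → ℂ, TF U φ' → L φ' = L (fun z => φ' z * χ z) := by
    refine (show IsCompact (tsupport φ) from hφ.2.1).induction_on
      (p := fun s => ∃ χ : ℂ → ℂ, ContDiff ℝ (⊤ : ℕ∞) χ ∧ (∀ x ∈ s, χ x = 0) ∧
      ∀ φ' : ℂ → ℂ, TF U φ' → L φ' = L (fun z => φ' z * χ z)) ?_ ?_ ?_ ?_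
    · exact ⟨fun _ => 1, contDiff_const, by simp, fun φ' _ => by simp⟩
    · rintro s t hst ⟨χ, h1, h2, h3⟩
      exact ⟨χ, h1, fun x hx => h2 x (hst hx), h3⟩
    · rintro s t ⟨χ, h1, h2, h3⟩ ⟨χ', h1', h2', h3'⟩
      refine ⟨fun z => χ z * χ' z, h1.mul h1', ?_, ?_⟩
      · rintro x (hx | hx)
        · simp [h2 x hx]
        · simp [h2' x hx]
      · intro φ' hφ'
        rw [h3 φ' hφ', h3' _ (hmulU φ' χ hφ' h1)]
        congr 1
        funext z
        ring
    · intro z hz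
      obtain ⟨V, hVo, hzV, _, hV⟩ := h z (hφ.2.2 hz)
      obtain ⟨r, hr, hrV⟩ := Metric.nhds_basis_closedBall.mem_iff.1 (hVo.mem_nhds hzV)
      let b : ContDiffBump z := ⟨r / 2, r, by positivity, by linarith⟩
      have hbs : ContDiff ℝ (⊤ : ℕ∞) (fun w => ((b w : ℝ) : ℂ)) :=
        Complex.ofRealCLM.contDiff.comp b.contDiff
      have hbt : tsupport (fun w => ((b w : ℝ) : ℂ)) ⊆ closedBall z r := by
        have h1 : Function.support (fun w => ((b w : ℝ) : ℂ)) ⊆ Function.support b := by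
          intro w hw
          simpa using hw
        have h2 : tsupport (b : ℂ → ℝ) = closedBall z r := b.tsupport_eq
        rw [← h2]
        exact closure_mono h1
      refine ⟨closedBall z (r / 2), mem_nhdsWithin_of_mem_nhds
        (closedBall_mem_nhds z (by positivity)), fun w => 1 - ((b w : ℝ) : ℂ),
        contDiff_const.sub hbs, ?_, ?_⟩
      · intro x hx
        have : b x = 1 := b.one_of_mem_closedBall hx
        simp [this]
      · intro φ' hφ'
        have t1 := hmulU φ' _ hφ' hbs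
        have t2 := hmulU φ' (fun w => 1 - ((b w : ℝ) : ℂ)) hφ' (contDiff_const.sub hbs)
        have e1 : φ' = fun w => φ' w * ((b w : ℝ) : ℂ) + φ' w * (1 - ((b w : ℝ) : ℂ)) := by
          funext w; ring
        have e2 : L φ' = L (fun w => φ' w * ((b w : ℝ) : ℂ)) +
            L (fun w => φ' w * (1 - ((b w : ℝ) : ℂ))) := by
          rw [← hadd _ _ t1 t2]
          exact congrArg L e1
        have tV : TF V (fun w => φ' w * ((b w : ℝ) : ℂ)) :=
          ⟨t1.1, t1.2.1, ((tsupport_mul_subset_right (f := φ')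
            (g := fun w => ((b w : ℝ) : ℂ))).trans hbt).trans hrV⟩
        have e3 : L (fun w => φ' w * ((b w : ℝ) : ℂ)) = 0 := by
          simp only [hL]
          rw [hV _ tV]
          ring
        rw [e2, e3, zero_add]
  obtain ⟨χ, _, h2, h3⟩ := key
  have hz : (fun z => φ z * χ z) = fun _ => (0 : ℂ) := by
    funext z
    by_cases hz : z ∈ tsupport φ
    · simp [h2 z hz]
    · simp [image_eq_zero_of_notMem_tsupport hz]
  have h4 := h3 φ hφ
  rw [hz] at h4
  have h5 : L (fun _ => (0 : ℂ)) = 0 := by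
    have h6 : ∀ z, D (fun _ => (0 : ℂ)) z = 0 := by
      intro z
      refine hD2 _ z ?_
      have : tsupport (fun _ : ℂ => (0 : ℂ)) = ∅ := by
        rw [tsupport_eq_empty_iff]; rfl
      rw [this]
      exact Set.notMem_empty z
    simp [hL, h6]
  rw [h5] at h4
  simp only [hL] at h4
  exact eq_neg_of_add_eq_zero_left h4

private theorem glue_fd {φ : ℂ → ℂ} {z : ℂ} (hz : z ∉ tsupport φ) : fderiv ℝ φ z = 0 := by
  by_contra hne
  exact hz (support_fderiv_subset ℝ hne)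

private theorem glue_fc {φ : ℂ → ℂ} (h : ContDiff ℝ (⊤ : ℕ∞) φ) (v : ℂ) :
    Continuous (fun z => fderiv ℝ φ z v) :=
  (h.continuous_fderiv (by simp)).clm_apply continuous_const

theorem piece_glue : S_glue := by
  intro U f A B hU h
  have hf := glue_L2 U f (fun z hz => by
    obtain ⟨V, h1, h2, h3, h4⟩ := h z hz; exact ⟨V, h1, h2, h3, h4.f2⟩)
  have hA := glue_L2 U A (fun z hz => by
    obtain ⟨V, h1, h2, h3, h4⟩ := h z hz; exact ⟨V, h1, h2, h3, h4.A2⟩)
  have hB := glue_L2 U B (fun z hz => by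
    obtain ⟨V, h1, h2, h3, h4⟩ := h z hz; exact ⟨V, h1, h2, h3, h4.B2⟩)
  refine ⟨hf, hA, hB, ?_, ?_⟩
  · refine glue_id U f A dz ?_ ?_ ?_ hf hA (fun z hz => by
      obtain ⟨V, h1, h2, h3, h4⟩ := h z hz; exact ⟨V, h1, h2, h3, h4.hA⟩)
    · intro φ hφ
      unfold dz
      exact ((glue_fc hφ 1).sub (continuous_const.mul (glue_fc hφ I))).div_const 2
    · intro φ z hz
      unfold dz
      simp [glue_fd hz]
    · intro φ ψ hφ hψ z
      unfold dz
      have e : fderiv ℝ (fun w => φ w + ψ w) z = fderiv ℝ φ z + fderiv ℝ ψ z :=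
        fderiv_add (hφ.differentiable (by simp) z) (hψ.differentiable (by simp) z)
      rw [e]
      simp only [_root_.add_apply]
      ring
  · refine glue_id U f B db ?_ ?_ ?_ hf hB (fun z hz => by
      obtain ⟨V, h1, h2, h3, h4⟩ := h z hz; exact ⟨V, h1, h2, h3, h4.hB⟩)
    · intro φ hφ
      unfold db
      exact ((glue_fc hφ 1).add (continuous_const.mul (glue_fc hφ I))).div_const 2
    · intro φ z hz
      unfold db
      simp [glue_fd hz]
    · intro φ ψ hφ hψ z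
      unfold db
      have e : fderiv ℝ (fun w => φ w + ψ w) z = fderiv ℝ φ z + fderiv ℝ ψ z :=
        fderiv_add (hφ.differentiable (by simp) z) (hψ.differentiable (by simp) z)
      rw [e]
      simp only [_root_.add_apply]
      ring

end Cal
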