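import Pool.Agent.Lib.MP_4ea4c7_an.Stm1
import Pool.Agent.Lib.MP_4ea4c7_an.StmC

open MeasureTheory Complex Metric Set Filter Topology
open scoped ComplexConjugate ENNReal NNReal

namespace Cal

theorem piece_gsym (h1 : S_bridge) (h2 : S_wuniq) (h3 : S_basic) : S_gsym := by
  intro u G s hu hs _
  have w1 := h1.2.1 univ u G hu
  have w2 := h3.2.1 univ _ _ _ (s : ℂ) w1
  have w3 := h3.2.2.2.2.2 univ _ _ _ w1
  have hset : {z : ℂ | conj z ∈ (univ : Set ℂ)} = univ := by
    ext z
    simp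
  rw [hset] at w3
  have h := (h2 univ _ _ _ _ _ _ isOpen_univ w3 w2 (Filter.Eventually.of_forall fun z => by
    show conj ((u (conj z) : ℝ) : ℂ) = (s : ℂ) * ((u z : ℝ) : ℂ)
    rw [Complex.conj_ofReal, hs z, Complex.ofReal_mul])).1
  rw [Measure.restrict_univ] at h
  filter_upwards [h] with z hz
  have hz' : conj (conj (G (conj z)) / 2) = (s : ℂ) * (conj (G z) / 2) := hz
  rw [map_div₀, Complex.conj_conj] at hz'
  have h2' : (conj (2 : ℂ)) = 2 := Complex.conj_ofNat 2
  rw [h2'] at hz'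
  linear_combination 2 * hz'

end Cal
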