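import Pool.Agent.Lib.MP_4ea4c7_an.StmF

/-! [K4] Continuous functions with zero boundary values are in the space `H10`. -/

open MeasureTheory Complex Metric Set Filter Topology
open scoped ComplexConjugate ENNReal NNReal

namespace Cal

open LocalCalderon

private theorem h10c_memLp {Ω : Set ℂ} {u : ℂ → ℝ} (ho : IsOpen Ω) (hb : Bornology.IsBounded Ω)
    (hu : ContinuousOn u (closure Ω)) : MemLp u 2 (volume.restrict Ω) := by
  have hK : IsCompact (closure Ω) := hb.isCompact_closure
  obtain ⟨C, hC⟩ := hK.exists_bound_of_continuousOn hu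
  have hfin : IsFiniteMeasure (volume.restrict Ω) := by
    refine ⟨?_⟩
    rw [Measure.restrict_apply_univ]
    exact hb.measure_lt_top
  have hm : AEStronglyMeasurable u (volume.restrict Ω) :=
    (hu.mono subset_closure).aestronglyMeasurable ho.measurableSet
  refine MemLp.of_bound hm C ?_
  refine (ae_restrict_iff' ho.measurableSet).2 (Eventually.of_forall fun z hz => ?_)
  exact hC z (subset_closure hz)

theorem piece_h10c (h1 : S_zb) (h2 : S_h1) : S_h10c := by
  intro Ω u G ho hb hu hz hG hG2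
  obtain ⟨-, i2, -, -, -, -, -, i8, -⟩ := h2
  have hu2 : MemLp u 2 (volume.restrict Ω) := h10c_memLp ho hb hu
  obtain ⟨hH, hw⟩ := i2 Ω u G ho hu2 hG2 ((i8 Ω u G ho hu2 hG2).1 hG)
  refine ⟨hH, fun ε hε => ?_⟩
  obtain ⟨φ, hφ, e1, e2⟩ := h1 Ω u G ho hb hu hz hG hG2 ε hε
  refine ⟨φ, hφ, ?_, ?_⟩
  · refine le_trans (le_of_eq ?_) e1.le
    refine eLpNorm_congr_norm_ae (Eventually.of_forall fun z => ?_)
    exact (Complex.norm_real _).symm
  · refine le_trans (le_of_eq ?_) e2.le
    refine eLpNorm_congr_ae ?_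
    filter_upwards [hw] with z hz
    rw [hz]
    rfl

end Cal
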