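import Pool.Agent.Lib.MP_4ea4c7_an.StmC

open MeasureTheory Complex Metric Set Filter Topology
open scoped ComplexConjugate ENNReal NNReal

namespace Cal

private lemma p_half_axis : ∀ᵐ z : ℂ, z.im ≠ 0 := by
  have h : (volume : Measure ℂ) (LinearMap.ker Complex.imLm : Submodule ℝ ℂ) = 0 := by
    refine Measure.addHaar_submodule volume _ ?_
    intro htop
    have : (I : ℂ) ∈ (LinearMap.ker Complex.imLm : Submodule ℝ ℂ) := by
      rw [htop]
      exact Submodule.mem_top
    rw [LinearMap.mem_ker] at this
    simp at this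
  rw [ae_iff]
  convert h using 2
  ext z
  simp

private lemma p_half_sphere : ∀ᵐ z : ℂ, ‖z‖ ≠ 1 := by
  rw [ae_iff]
  have h := Measure.addHaar_sphere (volume : Measure ℂ) (0 : ℂ) 1
  convert h using 2
  ext z
  simp

private lemma p_half_meas : MeasurableSet UH := (isOpen_lt continuous_const continuous_im).measurableSet

theorem piece_half : S_half := by
  refine ⟨?_, p_half_axis, p_half_sphere⟩
  intro F hF hev
  have h1 : (∫ z in UH, F z) + ∫ z in UHᶜ, F z = ∫ z, F z := integral_add_compl p_half_meas hF
  have hset : (UHᶜ : Set ℂ) =ᵐ[volume] (Complex.conjLIE ⁻¹' UH : Set ℂ) := by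
    filter_upwards [p_half_axis] with z hz
    apply propext
    show z ∈ (UHᶜ : Set ℂ) ↔ z ∈ (Complex.conjLIE ⁻¹' UH : Set ℂ)
    rw [Set.mem_compl_iff, Set.mem_preimage]
    show ¬ (0 < z.im) ↔ 0 < (conj z).im
    rw [Complex.conj_im]
    constructor
    · intro h
      have := lt_of_le_of_ne (not_lt.mp h) hz
      linarith
    · intro h
      linarith
  have h2 : ∫ z in UHᶜ, F z = ∫ z in UH, F z := by
    rw [setIntegral_congr_set hset]
    have h3 : ∫ z in Complex.conjLIE ⁻¹' UH, F z = ∫ z in Complex.conjLIE ⁻¹' UH, F (Complex.conjLIE z) := by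
      refine integral_congr_ae (ae_restrict_of_ae ?_)
      filter_upwards [hev] with z hz
      exact hz.symm
    rw [h3]
    exact (LinearIsometryEquiv.measurePreserving Complex.conjLIE).setIntegral_preimage_emb
      (Complex.conjLIE.toHomeomorph.measurableEmbedding) F UH
  rw [h2] at h1
  rw [← h1]
  ring

end Cal
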