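import Pool.Agent.Lib.MP_4ea4c7_an.StmF

open MeasureTheory Complex Metric Set Filter Topology
open scoped ComplexConjugate ENNReal NNReal Manifold

namespace Cal

open LocalCalderon

/-- smooth cutoff equal to one near a compact set, with support in an open neighbourhood -/
private theorem hole1_cut {K U : Set ℂ} (hK : IsCompact K) (hU : IsOpen U) (hKU : K ⊆ U) :
    ∃ χ : ℂ → ℝ, IsTest U χ ∧ ∀ z ∈ K, χ =ᶠ[𝓝 z] fun _ => 1 := by
  obtain ⟨R, hR⟩ := hK.isBounded.subset_ball (0 : ℂ)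
  have hO : IsOpen (U ∩ ball 0 R) := hU.inter isOpen_ball
  have hd : Disjoint (U ∩ ball 0 R)ᶜ K := by
    rw [Set.disjoint_left]
    intro z hz hzK
    exact hz ⟨hKU hzK, hR hzK⟩
  obtain ⟨f, h0, h1, -⟩ := exists_contMDiffMap_zero_one_nhds_of_isClosed (n := (⊤ : ℕ∞)) 𝓘(ℝ, ℂ)
    hO.isClosed_compl hK.isClosed hd
  have hsub : tsupport f ⊆ U ∩ ball 0 R := by
    intro z hz
    by_contra hzn
    have h2 : ∀ᶠ w in 𝓝 z, f w = 0 := by
      have := h0
      rw [eventually_nhdsSet_iff_forall] at this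
      exact this z hzn
    exact (notMem_tsupport_iff_eventuallyEq.mpr h2) hz
  refine ⟨f, ⟨f.contMDiff.contDiff, ?_, hsub.trans inter_subset_left⟩, fun z hz => ?_⟩
  · refine HasCompactSupport.intro (isCompact_closedBall (0 : ℂ) R) fun z hz => ?_
    have : z ∉ tsupport f := fun h => hz (ball_subset_closedBall (hsub h).2)
    exact image_eq_zero_of_notMem_tsupport this
  · rw [eventually_nhdsSet_iff_forall] at h1
    exact h1 z hz

private theorem hole1_mul {U : Set ℂ} {φ ψ : ℂ → ℝ} (hφ : IsTest U φ) (hψ : ContDiff ℝ (⊤ : ℕ∞) ψ) :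
    IsTest U (fun z => ψ z * φ z) :=
  ⟨hψ.mul hφ.1, hφ.2.1.mul_left, (tsupport_mul_subset_right (f := ψ) (g := φ)).trans hφ.2.2⟩

private theorem hole1_grad_mul {φ ψ : ℂ → ℝ} (hφ : ContDiff ℝ (⊤ : ℕ∞) φ) (hψ : ContDiff ℝ (⊤ : ℕ∞) ψ) (z : ℂ) :
    grad (fun z => φ z * ψ z) z = (φ z : ℂ) * grad ψ z + (ψ z : ℂ) * grad φ z := by
  have h1 : DifferentiableAt ℝ φ z := (hφ.differentiable (by simp)) z
  have h2 : DifferentiableAt ℝ ψ z := (hψ.differentiable (by simp)) z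
  unfold grad
  rw [fderiv_fun_mul h1 h2]
  simp only [add_apply, smul_apply, smul_eq_mul]
  push_cast
  ring

private theorem hole1_bd {θ : ℂ → ℝ} (hθ : IsTest univ θ) : ∃ M : ℝ, 0 < M ∧ (∀ z, |θ z| ≤ M) ∧ ∀ z, ‖grad θ z‖ ≤ M := by
  obtain ⟨C1, hC1⟩ := hθ.2.1.exists_bound_of_continuous hθ.1.continuous
  have hc : Continuous (fderiv ℝ θ) := hθ.1.continuous_fderiv (by simp)
  obtain ⟨C, hC⟩ := (hθ.2.1.fderiv (𝕜 := ℝ)).exists_bound_of_continuous hc
  have hC0 : 0 ≤ C := le_trans (norm_nonneg _) (hC 0)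
  have hC10 : 0 ≤ C1 := le_trans (norm_nonneg _) (hC1 0)
  refine ⟨C1 + 2 * C + 1, by linarith, fun z => ?_, fun z => ?_⟩
  · have := hC1 z
    rw [Real.norm_eq_abs] at this
    linarith
  · have h1 : |fderiv ℝ θ z 1| ≤ C := by
      have h := (fderiv ℝ θ z).le_opNorm 1
      rw [norm_one, mul_one, Real.norm_eq_abs] at h
      exact h.trans (hC z)
    have h2 : |fderiv ℝ θ z I| ≤ C := by
      have h := (fderiv ℝ θ z).le_opNorm I
      rw [Complex.norm_I, mul_one, Real.norm_eq_abs] at h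
      exact h.trans (hC z)
    calc ‖grad θ z‖ ≤ ‖((fderiv ℝ θ z 1 : ℝ) : ℂ)‖ + ‖I * ((fderiv ℝ θ z I : ℝ) : ℂ)‖ := norm_add_le _ _
      _ = |fderiv ℝ θ z 1| + |fderiv ℝ θ z I| := by
          rw [norm_mul, Complex.norm_I, one_mul, Complex.norm_real, Complex.norm_real, Real.norm_eq_abs, Real.norm_eq_abs]
      _ ≤ C1 + 2 * C + 1 := by linarith

/-- the part of the function near the hole -/
private theorem hole1_A (h1 : S_h1) (h2 : S_h10) {Ω' L : Set ℂ} (hΩ' : IsOpen Ω') (hL : IsCompact L)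
    {η χ u : ℂ → ℝ} (hη : IsTest univ η) (hηL : Disjoint (tsupport η) (frontier (Ω' \ L) ∩ L)) (hχ : IsTest Ω' χ)
    (hu : H1 (Ω' \ L) u) : H10 (Ω' \ L) (fun z => η z * (χ z * u z)) := by
  have hΩ : IsOpen (Ω' \ L) := hΩ'.sdiff hL.isClosed
  have hχu : IsTest univ χ := ⟨hχ.1, hχ.2.1, subset_univ _⟩
  have hS : IsCompact (tsupport (fun z => η z * χ z) ∩ closure (Ω' \ L)) :=
    (hole1_mul hχ hη.1).2.1.inter_right isClosed_closure
  have hSΩ : tsupport (fun z => η z * χ z) ∩ closure (Ω' \ L) ⊆ Ω' \ L := by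
    rintro z ⟨hz1, hz2⟩
    have hz3 : z ∈ Ω' := (hole1_mul hχ hη.1).2.2 hz1
    have hz4 : z ∈ tsupport η := (tsupport_mul_subset_left (f := η) (g := χ)) hz1
    by_contra hn
    have hz5 : z ∈ frontier (Ω' \ L) := by rw [hΩ.frontier_eq]; exact ⟨hz2, hn⟩
    have hz6 : z ∈ L := by
      by_contra h; exact hn ⟨hz3, h⟩
    exact Set.disjoint_left.mp hηL hz4 ⟨hz5, hz6⟩
  obtain ⟨ζ, hζ, hζ1⟩ := hole1_cut hS hΩ hSΩ
  obtain ⟨-, -, -, -, -, h26, -, h28⟩ := h2 (Ω' \ L) hΩ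
  have hv1 : H1 (Ω' \ L) (fun z => χ z * u z) := (h1.2.2.2.2.1 _ u χ hΩ hu hχu).1
  have hv2 : H1 (Ω' \ L) (fun z => η z * (χ z * u z)) := (h1.2.2.2.2.1 _ _ η hΩ hv1 hη).1
  refine h28 _ _ (h26 _ ζ hv2 hζ) ?_
  filter_upwards [ae_restrict_mem hΩ.measurableSet] with z hz
  by_cases hz0 : η z * χ z = 0
  · have : η z * (χ z * u z) = 0 := by rw [← mul_assoc, hz0, zero_mul]
    rw [this, mul_zero]
  · have hz1 : z ∈ tsupport (fun z => η z * χ z) ∩ closure (Ω' \ L) :=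
      ⟨subset_tsupport _ hz0, subset_closure hz⟩
    have := (hζ1 z hz1).self_of_nhds
    rw [this, one_mul]

/-- the part of the function away from the hole -/
private theorem hole1_B (h1 : S_h1) {Ω' L : Set ℂ} (hΩ' : IsOpen Ω') (hL : IsCompact L)
    {θ w : ℂ → ℝ} (hθ : IsTest univ θ) (hθL : Disjoint (tsupport θ) L) (hw : H10 Ω' w) :
    H10 (Ω' \ L) (fun z => θ z * w z) := by
  have hΩ : IsOpen (Ω' \ L) := hΩ'.sdiff hL.isClosed
  obtain ⟨hw1, hw2⟩ := hw
  obtain ⟨g1, -, -, -, g5, g6, -, -, -⟩ := h1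
  obtain ⟨hr1, hr2⟩ := g6 (Ω' \ L) Ω' w hΩ hΩ' sdiff_subset hw1
  obtain ⟨hs1, hs2⟩ := g5 (Ω' \ L) w θ hΩ hr1 hθ
  obtain ⟨M, hM0, hM1, hM2⟩ := hole1_bd hθ
  refine ⟨hs1, fun ε hε => ?_⟩
  have hδ : 0 < ε / (2 * M) := by positivity
  obtain ⟨φ, hφ, hφ1, hφ2⟩ := hw2 (ε / (2 * M)) hδ
  have hle : volume.restrict (Ω' \ L) ≤ volume.restrict Ω' := Measure.restrict_mono sdiff_subset le_rfl
  have k1 : eLpNorm (fun z => w z - φ z) 2 (volume.restrict (Ω' \ L)) ≤ ENNReal.ofReal (ε / (2 * M)) :=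
    (eLpNorm_mono_measure _ hle).trans hφ1
  have k2 : eLpNorm (fun z => wgrad Ω' w z - grad φ z) 2 (volume.restrict (Ω' \ L)) ≤ ENNReal.ofReal (ε / (2 * M)) :=
    (eLpNorm_mono_measure _ hle).trans hφ2
  have hMδ : ENNReal.ofReal M * ENNReal.ofReal (ε / (2 * M)) = ENNReal.ofReal (ε / 2) := by
    rw [← ENNReal.ofReal_mul hM0.le]; congr 1; field_simp
  have htest : IsTest (Ω' \ L) (fun z => θ z * φ z) := by
    refine ⟨hθ.1.mul hφ.1, hφ.2.1.mul_left, fun z hz => ⟨?_, ?_⟩⟩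
    · exact hφ.2.2 ((tsupport_mul_subset_right (f := θ) (g := φ)) hz)
    · exact fun hzL => Set.disjoint_left.mp hθL ((tsupport_mul_subset_left (f := θ) (g := φ)) hz) hzL
  refine ⟨fun z => θ z * φ z, htest, ?_, ?_⟩
  · have e1 : eLpNorm (fun z => θ z * w z - θ z * φ z) 2 (volume.restrict (Ω' \ L)) ≤
        ENNReal.ofReal M * eLpNorm (fun z => w z - φ z) 2 (volume.restrict (Ω' \ L)) := by
      refine eLpNorm_le_mul_eLpNorm_of_ae_le_mul (Eventually.of_forall fun z => ?_) 2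
      rw [← mul_sub, norm_mul]
      exact mul_le_mul_of_nonneg_right (hM1 z) (norm_nonneg _)
    refine e1.trans ((mul_le_mul_right k1 _).trans ?_)
    rw [hMδ]
    exact ENNReal.ofReal_le_ofReal (by linarith)
  · have mG : MemLp (wgrad Ω' w) 2 (volume.restrict (Ω' \ L)) := (g1 Ω' w hw1).1.mono_measure hle
    have mw : MemLp w 2 (volume.restrict (Ω' \ L)) := hw1.1.mono_measure hle
    have cφ : Continuous (grad φ) := by
      have hc : Continuous (fderiv ℝ φ) := hφ.1.continuous_fderiv (by simp)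
      unfold grad
      exact (Complex.continuous_ofReal.comp (hc.clm_apply continuous_const)).add
        (continuous_const.mul (Complex.continuous_ofReal.comp (hc.clm_apply continuous_const)))
    have cθ : Continuous (grad θ) := by
      have hc : Continuous (fderiv ℝ θ) := hθ.1.continuous_fderiv (by simp)
      unfold grad
      exact (Complex.continuous_ofReal.comp (hc.clm_apply continuous_const)).add
        (continuous_const.mul (Complex.continuous_ofReal.comp (hc.clm_apply continuous_const)))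
    have mA : AEStronglyMeasurable (fun z => (θ z : ℂ) * (wgrad Ω' w z - grad φ z)) (volume.restrict (Ω' \ L)) :=
      (Complex.continuous_ofReal.comp hθ.1.continuous).aestronglyMeasurable.mul
        (mG.1.sub cφ.aestronglyMeasurable)
    have mB : AEStronglyMeasurable (fun z => ((w z - φ z : ℝ) : ℂ) * grad θ z) (volume.restrict (Ω' \ L)) :=
      (Complex.continuous_ofReal.comp_aestronglyMeasurable (mw.1.sub hφ.1.continuous.aestronglyMeasurable)).mul
        cθ.aestronglyMeasurable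
    have e0 : eLpNorm (fun z => wgrad (Ω' \ L) (fun z => θ z * w z) z - grad (fun z => θ z * φ z) z) 2
        (volume.restrict (Ω' \ L)) =
        eLpNorm ((fun z => (θ z : ℂ) * (wgrad Ω' w z - grad φ z)) + fun z => ((w z - φ z : ℝ) : ℂ) * grad θ z) 2
        (volume.restrict (Ω' \ L)) := by
      refine eLpNorm_congr_ae ?_
      filter_upwards [hs2, hr2] with z hz1 hz2
      rw [hz1, hz2, hole1_grad_mul hθ.1 hφ.1, Pi.add_apply]
      push_cast
      ring
    rw [e0]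
    refine (eLpNorm_add_le mA mB (by norm_num)).trans ?_
    have e1 : eLpNorm (fun z => (θ z : ℂ) * (wgrad Ω' w z - grad φ z)) 2 (volume.restrict (Ω' \ L)) ≤
        ENNReal.ofReal M * eLpNorm (fun z => wgrad Ω' w z - grad φ z) 2 (volume.restrict (Ω' \ L)) := by
      refine eLpNorm_le_mul_eLpNorm_of_ae_le_mul (Eventually.of_forall fun z => ?_) 2
      rw [norm_mul, Complex.norm_real]
      exact mul_le_mul_of_nonneg_right (hM1 z) (norm_nonneg _)
    have e2 : eLpNorm (fun z => ((w z - φ z : ℝ) : ℂ) * grad θ z) 2 (volume.restrict (Ω' \ L)) ≤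
        ENNReal.ofReal M * eLpNorm (fun z => w z - φ z) 2 (volume.restrict (Ω' \ L)) := by
      refine eLpNorm_le_mul_eLpNorm_of_ae_le_mul (Eventually.of_forall fun z => ?_) 2
      rw [norm_mul, Complex.norm_real, mul_comm]
      exact mul_le_mul_of_nonneg_right (hM2 z) (norm_nonneg _)
    refine (add_le_add (e1.trans (mul_le_mul_right k2 _)) (e2.trans (mul_le_mul_right k1 _))).trans ?_
    rw [hMδ, ← ENNReal.ofReal_add (by positivity) (by positivity)]
    exact ENNReal.ofReal_le_ofReal (by linarith)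

theorem piece_hole1 (h1 : S_h1) (h2 : S_h10) : S_hole1 := by
  intro Ω' L Γ hΩ' hb hL hLΩ hΓ hfr
  have hΩ : IsOpen (Ω' \ L) := hΩ'.sdiff hL.isClosed
  obtain ⟨O, hO, hΓO⟩ := hΓ
  have hKc : IsCompact (frontier (Ω' \ L) ∩ L) := hL.inter_left isClosed_frontier
  have hKΓ : frontier (Ω' \ L) ∩ L ⊆ Γ := fun z hz => hfr ⟨hz.1, hLΩ hz.2⟩
  have hfrsub : frontier Ω' ⊆ frontier (Ω' \ L) := by
    intro z hz
    rw [hΩ'.frontier_eq] at hz
    rw [hΩ.frontier_eq]
    refine ⟨?_, fun h => hz.2 h.1⟩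
    have hzL : z ∉ L := fun h => hz.2 (hLΩ h)
    have hz1 := hz.1
    rw [_root_.mem_closure_iff] at hz1 ⊢
    intro o ho hzo
    obtain ⟨x, hx1, hx2⟩ := hz1 (o ∩ Lᶜ) (ho.inter hL.isClosed.isOpen_compl) ⟨hzo, hzL⟩
    exact ⟨x, hx1.1, hx2, hx1.2⟩
  refine ⟨⟨O, hO, ?_⟩, ?_, ?_⟩
  · rw [hΓO]
    ext z
    constructor
    · rintro ⟨⟨ha, -⟩, hc⟩; exact ⟨ha, hc⟩
    · rintro ⟨ha, hc⟩; exact ⟨⟨ha, hfrsub hc⟩, hc⟩
  · rintro u hu ⟨K', hK'Γ, hK'c, hK'⟩
    obtain ⟨χ, hχ, hχ1⟩ := hole1_cut hL hΩ' hLΩ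
    refine ⟨K' ∪ (frontier (Ω' \ L) ∩ L), union_subset (hK'Γ.trans inter_subset_left) hKΓ, hK'c.union hKc, ?_⟩
    intro η hη hdis
    rw [Set.disjoint_union_right] at hdis
    have hur : H1 (Ω' \ L) u := (h1.2.2.2.2.2.1 (Ω' \ L) Ω' u hΩ hΩ' sdiff_subset hu).1
    have hA := hole1_A h1 h2 hΩ' hL hη hdis.2 hχ hur
    -- the second part
    have hη' : IsTest univ (fun z => (1 - χ z) * η z) := hole1_mul hη (contDiff_const.sub hχ.1)
    have hsub : tsupport (fun z => (1 - χ z) * η z) ⊆ tsupport η :=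
      tsupport_mul_subset_right (f := fun z => 1 - χ z) (g := η)
    have hdisL : tsupport (fun z => (1 - χ z) * η z) ⊆ Lᶜ := by
      intro z hz hzL
      refine (notMem_tsupport_iff_eventuallyEq.mpr ?_) hz
      filter_upwards [hχ1 z hzL] with x hx
      rw [hx]; simp
    have hw : H10 Ω' (fun z => (1 - χ z) * η z * u z) :=
      hK' _ hη' (hdis.1.mono_left hsub)
    obtain ⟨θ, hθ, hθ1⟩ := hole1_cut hη'.2.1 hL.isClosed.isOpen_compl hdisL
    have hB := hole1_B h1 hΩ' hL (θ := θ) ⟨hθ.1, hθ.2.1, subset_univ _⟩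
      (Set.disjoint_left.mpr fun z hz hzL => hθ.2.2 hz hzL) hw
    have hsum := (h2 (Ω' \ L) hΩ).2.1 _ _ 1 hA hB
    have heq : (fun z => η z * (χ z * u z) + 1 * (θ z * ((1 - χ z) * η z * u z))) = fun z => η z * u z := by
      funext z
      by_cases hz : (1 - χ z) * η z = 0
      · rw [hz]
        linear_combination (-u z) * hz
      · have : θ z = 1 := (hθ1 z (subset_tsupport _ hz)).self_of_nhds
        rw [this]; ring
    rw [heq] at hsum
    exact hsum
  · intro φ hφ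
    refine ⟨frontier (Ω' \ L) ∩ L, hKΓ, hKc, fun η hη hdis => ?_⟩
    obtain ⟨χ, hχ, hχ1⟩ := hole1_cut hφ.2.1 hΩ' hφ.2.2
    have hφH : H1 (Ω' \ L) φ := (h1.2.2.2.2.2.2.1 (Ω' \ L) φ hΩ ⟨hφ.1, hφ.2.1, subset_univ _⟩).1
    have hA := hole1_A h1 h2 hΩ' hL hη hdis hχ hφH
    have heq : (fun z => η z * (χ z * φ z)) = fun z => η z * φ z := by
      funext z
      by_cases hz : φ z = 0
      · rw [hz]; simp
      · have : χ z = 1 := (hχ1 z (subset_tsupport _ hz)).self_of_nhds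
        rw [this]; ring
    rw [heq] at hA
    exact hA

end Cal
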