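import Pool.Agent.Lib.MP_4ea4c7_an.StmF

open MeasureTheory Complex Metric Set Filter Topology
open scoped ComplexConjugate ENNReal NNReal

namespace Cal

open LocalCalderon

private theorem hole2_int {μ : Measure ℂ} {c C : ℝ} {γ : ℂ → ℝ} (hγ : Cond c C γ) {F G : ℂ → ℂ}
    (hF : MemLp F 2 μ) (hG : MemLp G 2 μ) : Integrable (fun z => γ z * dot (F z) (G z)) μ := by
  have h1 : Integrable (fun z => (F z).re * (G z).re) μ := hF.re.integrable_mul hG.re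
  have h2 : Integrable (fun z => (F z).im * (G z).im) μ := hF.im.integrable_mul hG.im
  have h3 : Integrable (fun z => dot (F z) (G z)) μ := h1.add h2
  refine h3.bdd_mul (c := max |c| |C|) hγ.meas.aestronglyMeasurable (Eventually.of_forall fun z => ?_)
  rw [Real.norm_eq_abs]
  exact abs_le_max_abs_abs (hγ.lo z) (hγ.hi z)

private theorem hole2_grad_zero {φ : ℂ → ℝ} {z : ℂ} (hz : z ∉ tsupport φ) : grad φ z = 0 := by
  have h1 : fderiv ℝ φ z = 0 := by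
    rw [(notMem_tsupport_iff_eventuallyEq.mp hz).fderiv_eq]
    exact fderiv_const_apply 0
  unfold grad
  rw [h1]
  simp

private theorem hole2_half (h1 : S_hole1) (h2 : S_h1) (h3 : S_h10) (h4 : S_trc)
    (c C : ℝ) (γ₁ γ₂ : ℂ → ℝ) (Ω' L Γ : Set ℂ) (hγ₁ : Cond c C γ₁) (hγ₂ : Cond c C γ₂)
    (hΩ' : IsOpen Ω') (hb : Bornology.IsBounded Ω') (hL : IsCompact L) (hLΩ : L ⊆ Ω')
    (hΓ : OpenInBdry (Ω' \ L) Γ) (hfr : frontier (Ω' \ L) ∩ Ω' ⊆ Γ)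
    (hγ : ∀ᵐ z ∂(volume.restrict L), γ₁ z = γ₂ z)
    (hC : cauchyData (Ω' \ L) Γ γ₁ = cauchyData (Ω' \ L) Γ γ₂) :
    cauchyData Ω' (Γ ∩ frontier Ω') γ₁ ⊆ cauchyData Ω' (Γ ∩ frontier Ω') γ₂ := by
  have hΩ : IsOpen (Ω' \ L) := hΩ'.sdiff hL.isClosed
  have hbΩ : Bornology.IsBounded (Ω' \ L) := hb.subset sdiff_subset
  obtain ⟨g1, -, g3, g4, g5, g6, g7, -, -⟩ := h2
  obtain ⟨a1, a2, a3⟩ := h1 Ω' L Γ hΩ' hb hL hLΩ hΓ hfr
  obtain ⟨b1, b2, b3, b4, b5⟩ := h4 (Ω' \ L) Γ hΩ hbΩ hΓ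
  obtain ⟨c1, c2, c3, c4, c5⟩ := h4 Ω' (Γ ∩ frontier Ω') hΩ' hb a1
  have hdiff : Ω' \ (Ω' \ L) = L := Set.sdiff_sdiff_cancel_left hLΩ
  rintro p ⟨u₁, ⟨hu₁, hsol₁⟩, htr₁, rfl⟩
  obtain ⟨hu₁r, hwu₁⟩ := g6 (Ω' \ L) Ω' u₁ hΩ hΩ' sdiff_subset hu₁
  have htr₁' : TraceIn (Ω' \ L) Γ u₁ := a2 u₁ hu₁ htr₁
  -- `u₁` is a solution on the smaller domain
  have hsol₁' : IsSol (Ω' \ L) γ₁ u₁ := by
    refine ⟨hu₁r, fun φ hφ => ?_⟩
    have hφ' : IsTest Ω' φ := ⟨hφ.1, hφ.2.1, hφ.2.2.trans sdiff_subset⟩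
    rw [← hsol₁ φ hφ']
    have e1 : ∫ z in Ω' \ L, γ₁ z * dot (wgrad (Ω' \ L) u₁ z) (grad φ z) =
        ∫ z in Ω' \ L, γ₁ z * dot (wgrad Ω' u₁ z) (grad φ z) := by
      refine integral_congr_ae ?_
      filter_upwards [hwu₁] with z hz
      rw [hz]
    rw [e1]
    refine (setIntegral_eq_of_subset_of_forall_sdiff_eq_zero hΩ'.measurableSet sdiff_subset ?_).symm
    intro z hz
    rw [hdiff] at hz
    rw [hole2_grad_zero fun h => (hφ.2.2 h).2 hz]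
    simp [dot]
  have hmem : (({v | H1 (Ω' \ L) v ∧ SameTrace (Ω' \ L) Γ u₁ v}, fun ψ =>
      ∫ z in (Ω' \ L), γ₁ z * dot (wgrad (Ω' \ L) u₁ z) (wgrad (Ω' \ L) ψ.1 z)) :
      Set (ℂ → ℝ) × ({ψ : ℂ → ℝ // H1 (Ω' \ L) ψ ∧ TraceIn (Ω' \ L) Γ ψ} → ℝ)) ∈
      cauchyData (Ω' \ L) Γ γ₁ := ⟨u₁, hsol₁', htr₁', rfl⟩
  rw [hC] at hmem
  obtain ⟨w, ⟨hw, hsolw⟩, htrw, hpair⟩ := hmem
  have hset := congrArg Prod.fst hpair
  have hfun := congrArg Prod.snd hpair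
  simp only at hset hfun
  have hst : SameTrace (Ω' \ L) Γ w u₁ := by
    have : u₁ ∈ {v | H1 (Ω' \ L) v ∧ SameTrace (Ω' \ L) Γ u₁ v} := ⟨hu₁r, b5 u₁⟩
    rw [hset] at this
    exact this.2
  have htrd : TraceIn (Ω' \ L) Γ (fun z => w z - u₁ z) := by
    have := b3 w u₁ (-1) htrw htr₁'
    have e : (fun z => w z + -1 * u₁ z) = fun z => w z - u₁ z := by funext z; ring
    rw [e] at this; exact this
  have hd : H10 (Ω' \ L) (fun z => w z - u₁ z) := b1 w u₁ hw hu₁r htrd hst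
  -- gradient of the difference
  have hgd : wgrad (Ω' \ L) (fun z => w z - u₁ z) =ᵐ[volume.restrict (Ω' \ L)]
      fun z => wgrad (Ω' \ L) w z - wgrad (Ω' \ L) u₁ z := by
    have h := (g3 (Ω' \ L) w u₁ (-1) hΩ hw hu₁r).2
    have e : (fun z => w z + -1 * u₁ z) = fun z => w z - u₁ z := by funext z; ring
    rw [e] at h
    filter_upwards [h] with z hz
    rw [hz]; push_cast; ring
  -- extension by zero
  obtain ⟨w', hw'1, hw'2⟩ : ∃ w' : ℂ → ℝ, (∀ z ∈ Ω' \ L, w' z = w z - u₁ z) ∧ ∀ z, z ∉ Ω' \ L → w' z = 0 := by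
    classical
    exact ⟨fun z => if z ∈ Ω' \ L then w z - u₁ z else 0, fun z hz => by simp only [if_pos hz],
      fun z hz => by simp only [if_neg hz]⟩
  obtain ⟨hw'0, hw'g1, hw'g2⟩ := (h3 (Ω' \ L) hΩ).2.2.2.2.2.2.1 Ω' (fun z => w z - u₁ z) w' hΩ' sdiff_subset hd hw'1 hw'2
  rw [hdiff] at hw'g2
  obtain ⟨hu₂, hgu₂⟩ := g3 Ω' u₁ w' 1 hΩ' hu₁ hw'0.1
  have htr₂ : TraceIn Ω' (Γ ∩ frontier Ω') (fun z => u₁ z + w' z) := c2 u₁ w' htr₁ hw'0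
  have eu : (fun z => u₁ z + 1 * w' z) = fun z => u₁ z + w' z := by funext z; ring
  rw [eu] at hu₂ hgu₂
  have hgΩ : wgrad Ω' (fun z => u₁ z + w' z) =ᵐ[volume.restrict (Ω' \ L)] wgrad (Ω' \ L) w := by
    filter_upwards [ae_restrict_of_ae_restrict_of_subset sdiff_subset hgu₂, hwu₁, hw'g1, hgd] with z k1 k2 k3 k4
    rw [k1, k3, k4, ← k2]; push_cast; ring
  have hgL : wgrad Ω' (fun z => u₁ z + w' z) =ᵐ[volume.restrict L] wgrad Ω' u₁ := by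
    filter_upwards [ae_restrict_of_ae_restrict_of_subset hLΩ hgu₂, hw'g2] with z k1 k2
    rw [k1, k2]; simp
  -- the key identity
  have key : ∀ ψ : ℂ → ℝ, H1 Ω' ψ → TraceIn (Ω' \ L) Γ ψ →
      ∫ z in Ω', γ₂ z * dot (wgrad Ω' (fun z => u₁ z + w' z) z) (wgrad Ω' ψ z) =
      ∫ z in Ω', γ₁ z * dot (wgrad Ω' u₁ z) (wgrad Ω' ψ z) := by
    intro ψ hψ hψtr
    obtain ⟨hψr, hwψ⟩ := g6 (Ω' \ L) Ω' ψ hΩ hΩ' sdiff_subset hψ
    have i2 := hole2_int (μ := volume.restrict Ω') hγ₂ (g1 Ω' _ hu₂).1 (g1 Ω' ψ hψ).1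
    have i1 := hole2_int (μ := volume.restrict Ω') hγ₁ (g1 Ω' _ hu₁).1 (g1 Ω' ψ hψ).1
    have s2 := setIntegral_sdiff hL.measurableSet i2 hLΩ
    have s1 := setIntegral_sdiff hL.measurableSet i1 hLΩ
    have e1 : ∫ z in Ω' \ L, γ₂ z * dot (wgrad Ω' (fun z => u₁ z + w' z) z) (wgrad Ω' ψ z) =
        ∫ z in Ω' \ L, γ₁ z * dot (wgrad Ω' u₁ z) (wgrad Ω' ψ z) := by
      have k := congrFun hfun ⟨ψ, hψr, hψtr⟩
      simp only at k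
      have k1 : ∫ z in Ω' \ L, γ₂ z * dot (wgrad Ω' (fun z => u₁ z + w' z) z) (wgrad Ω' ψ z) =
          ∫ z in Ω' \ L, γ₂ z * dot (wgrad (Ω' \ L) w z) (wgrad (Ω' \ L) ψ z) := by
        refine integral_congr_ae ?_
        filter_upwards [hgΩ, hwψ] with z hz1 hz2
        rw [hz1, hz2]
      have k2 : ∫ z in Ω' \ L, γ₁ z * dot (wgrad Ω' u₁ z) (wgrad Ω' ψ z) =
          ∫ z in Ω' \ L, γ₁ z * dot (wgrad (Ω' \ L) u₁ z) (wgrad (Ω' \ L) ψ z) := by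
        refine integral_congr_ae ?_
        filter_upwards [hwu₁, hwψ] with z hz1 hz2
        rw [hz1, hz2]
      rw [k1, k2, k]
    have e2 : ∫ z in L, γ₂ z * dot (wgrad Ω' (fun z => u₁ z + w' z) z) (wgrad Ω' ψ z) =
        ∫ z in L, γ₁ z * dot (wgrad Ω' u₁ z) (wgrad Ω' ψ z) := by
      refine integral_congr_ae ?_
      filter_upwards [hgL, hγ] with z hz1 hz2
      rw [hz1, hz2]
    linarith
  refine ⟨fun z => u₁ z + w' z, ⟨hu₂, fun φ hφ => ?_⟩, htr₂, ?_⟩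
  · obtain ⟨hφH, hφg⟩ := g7 Ω' φ hΩ' ⟨hφ.1, hφ.2.1, subset_univ _⟩
    have k := key φ hφH (a3 φ hφ)
    have k1 : ∫ z in Ω', γ₂ z * dot (wgrad Ω' (fun z => u₁ z + w' z) z) (grad φ z) =
        ∫ z in Ω', γ₂ z * dot (wgrad Ω' (fun z => u₁ z + w' z) z) (wgrad Ω' φ z) := by
      refine integral_congr_ae ?_
      filter_upwards [hφg] with z hz
      rw [hz]
    have k2 : ∫ z in Ω', γ₁ z * dot (wgrad Ω' u₁ z) (wgrad Ω' φ z) =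
        ∫ z in Ω', γ₁ z * dot (wgrad Ω' u₁ z) (grad φ z) := by
      refine integral_congr_ae ?_
      filter_upwards [hφg] with z hz
      rw [hz]
    rw [k1, k, k2, hsol₁ φ hφ]
  · have hneg : H10 Ω' (fun z => u₁ z - (u₁ z + w' z)) := by
      have h := (h3 Ω' hΩ').2.1 (fun _ => 0) w' (-1) (h3 Ω' hΩ').1 hw'0
      have e : (fun z => (0 : ℝ) + -1 * w' z) = fun z => u₁ z - (u₁ z + w' z) := by funext z; ring
      rw [e] at h; exact h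
    refine Prod.ext ?_ ?_
    · ext v
      simp only [Set.mem_ofPred_eq]
      rw [c4 u₁ (fun z => u₁ z + w' z) v hneg]
    · funext ψ
      exact (key ψ.1 ψ.2.1 (a2 ψ.1 ψ.2.1 ψ.2.2)).symm

theorem piece_hole2 (h1 : S_hole1) (h2 : S_h1) (h3 : S_h10) (h4 : S_trc) (_h5 : S_lift) : S_hole2 := by
  intro c C γ₁ γ₂ Ω' L Γ hc hγ₁ hγ₂ hΩ' hb hL hLΩ hΓ hfr hγ hC
  refine Set.Subset.antisymm
    (hole2_half h1 h2 h3 h4 c C γ₁ γ₂ Ω' L Γ hγ₁ hγ₂ hΩ' hb hL hLΩ hΓ hfr hγ hC)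
    (hole2_half h1 h2 h3 h4 c C γ₂ γ₁ Ω' L Γ hγ₂ hγ₁ hΩ' hb hL hLΩ hΓ hfr ?_ hC.symm)
  filter_upwards [hγ] with z hz
  exact hz.symm

end Cal
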