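import Pool.Agent.Lib.MP_4ea4c7_an.Stm1
import Pool.Agent.Lib.MP_4ea4c7_an.StmB

/-!
[DB4] Homogenisation estimate.
-/

set_option autoImplicit false

open MeasureTheory Complex Metric Set Filter Topology
open scoped ComplexConjugate ENNReal NNReal

namespace Cal

noncomputable section

private theorem hom_zero {φ : ℂ → ℂ} {K : Set ℂ} (h : tsupport φ ⊆ K) :
    ∀ z, z ∉ K → φ z = 0 ∧ db φ z = 0 := by
  intro z hz
  have h1 : z ∉ tsupport φ := fun h' => hz (h h')
  have h2 : φ z = 0 := image_eq_zero_of_notMem_tsupport h1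
  have h3 : fderiv ℝ φ z = 0 := by
    by_contra hne
    exact h1 (support_fderiv_subset ℝ (Function.mem_support.mpr hne))
  exact ⟨h2, by simp [db, h3]⟩

private theorem hom_cont {φ : ℂ → ℂ} (h : ContDiff ℝ (⊤ : ℕ∞) φ) :
    Continuous φ ∧ Continuous (db φ) := by
  have h1 : Continuous (fderiv ℝ φ) := h.continuous_fderiv (by simp)
  have h2 : ∀ v : ℂ, Continuous (fun z => fderiv ℝ φ z v) := fun v =>
    h1.clm_apply continuous_const
  refine ⟨h.continuous, ?_⟩
  unfold db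
  exact ((h2 1).add (continuous_const.mul (h2 I))).div_const 2

private theorem hom_int {U : Set ℂ} {f ψ : ℂ → ℂ} (hf : L2loc U f) {K : Set ℂ} (hK : IsCompact K)
    (hKU : K ⊆ U) (hc : Continuous ψ) (hz : ∀ z, z ∉ K → ψ z = 0) :
    Integrable (fun z => f z * ψ z) volume := by
  have h1 : MemLp f 2 (volume.restrict K) := hf K hK hKU
  have h2 : MemLp ψ 2 (volume.restrict K) := by
    obtain ⟨C, hC⟩ := hK.exists_bound_of_continuousOn hc.continuousOn
    have : IsFiniteMeasure (volume.restrict K) := ⟨by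
      rw [Measure.restrict_apply_univ]
      exact hK.measure_lt_top⟩
    refine MemLp.of_bound hc.aestronglyMeasurable C ?_
    rw [ae_restrict_iff' hK.measurableSet]
    exact Filter.Eventually.of_forall hC
  have h3 : Integrable (f * ψ) (volume.restrict K) := h1.integrable_mul h2
  have h4 : Function.support (fun z => f z * ψ z) ⊆ K := by
    intro z hzs
    by_contra hne
    exact hzs (by simp [hz z hne])
  exact (integrableOn_iff_integrable_of_support_subset h4).mp h3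

private theorem hom_bd {φ : ℂ → ℂ} (hc : Continuous φ) (hs : HasCompactSupport φ) :
    ∃ M : ℝ, 0 ≤ M ∧ ∀ z, ‖φ z‖ ≤ M := by
  obtain ⟨M, hM⟩ := hs.exists_bound_of_continuous hc
  exact ⟨M, (norm_nonneg _).trans (hM 0), hM⟩

private theorem hom_gp {m n : ℕ} (hmn : 1 ≤ m + n) {z : ℂ} (hz : ‖z‖ ≤ 5 / 4) :
    ‖gp m n z‖ ≤ 4 / 3 := by
  have hN : (0 : ℝ) < ((m + n : ℕ) : ℝ) := by exact_mod_cast hmn
  have h2 : ‖(2 : ℂ)‖ = 2 := by simp
  have h1 : 3 / 4 ≤ ‖z + 2‖ := by
    have h := norm_sub_le (z + 2) z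
    rw [add_sub_cancel_left, h2] at h
    linarith
  have h3 : 3 / 4 ≤ ‖z - 2‖ := by
    have h := norm_sub_le z (z - 2)
    rw [sub_sub_cancel, h2] at h
    linarith
  have i1 : 1 / ‖z + 2‖ ≤ 4 / 3 := by
    rw [div_le_div_iff₀ (by linarith) (by norm_num)]
    linarith
  have i2 : 1 / ‖z - 2‖ ≤ 4 / 3 := by
    rw [div_le_div_iff₀ (by linarith) (by norm_num)]
    linarith
  unfold gp
  refine (norm_add_le _ _).trans ?_
  rw [norm_div, norm_div, norm_div, norm_div, Complex.norm_natCast, Complex.norm_natCast,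
    Complex.norm_natCast]
  have e1 : (m : ℝ) / ((m + n : ℕ) : ℝ) / ‖z + 2‖ ≤ (m : ℝ) / ((m + n : ℕ) : ℝ) * (4 / 3) := by
    rw [div_eq_mul_one_div _ ‖z + 2‖]
    exact mul_le_mul_of_nonneg_left i1 (by positivity)
  have e2 : (n : ℝ) / ((m + n : ℕ) : ℝ) / ‖z - 2‖ ≤ (n : ℝ) / ((m + n : ℕ) : ℝ) * (4 / 3) := by
    rw [div_eq_mul_one_div _ ‖z - 2‖]
    exact mul_le_mul_of_nonneg_left i2 (by positivity)
  have e3 : (m : ℝ) / ((m + n : ℕ) : ℝ) + (n : ℝ) / ((m + n : ℕ) : ℝ) = 1 := by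
    rw [← add_div, ← Nat.cast_add]
    exact div_self hN.ne'
  nlinarith

private theorem hom_gpL2 {m n : ℕ} (hmn : 1 ≤ m + n) :
    eLpNorm (gp m n) 2 (volume.restrict (closedBall (0 : ℂ) (5 / 4))) ≤ ENNReal.ofReal 3 := by
  have h1 := eLpNorm_le_of_ae_bound (p := 2) (f := gp m n)
    (μ := volume.restrict (closedBall (0 : ℂ) (5 / 4))) (C := 4 / 3)
    (ae_restrict_of_forall_mem isClosed_closedBall.measurableSet
      (fun z hz => hom_gp hmn (by simpa using hz)))
  refine h1.trans ?_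
  rw [Measure.restrict_apply_univ, Complex.volume_closedBall]
  have hpi : (NNReal.pi : ℝ≥0∞) = ENNReal.ofReal Real.pi := by
    rw [← NNReal.coe_real_pi, ENNReal.ofReal_coe_nnreal]
  have h2 : (2 : ℝ≥0∞).toReal⁻¹ = (1 / 2 : ℝ) := by norm_num
  rw [hpi, h2, ← ENNReal.ofReal_pow (by norm_num), ← ENNReal.ofReal_mul (by norm_num),
    ENNReal.ofReal_rpow_of_nonneg (by positivity) (by norm_num),
    ← ENNReal.ofReal_mul (by positivity)]
  apply ENNReal.ofReal_le_ofReal
  rw [← Real.sqrt_eq_rpow]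
  have h3 : √((5 / 4 : ℝ) ^ 2 * Real.pi) ≤ 9 / 4 := by
    rw [Real.sqrt_le_left (by norm_num)]
    nlinarith [Real.pi_lt_d2]
  linarith

theorem piece_hom (h1 : S_edef) (h2 : S_log) (_h3 : S_basic) : S_hom := by
  intro κ hκ0 hκ1 η hη
  obtain ⟨Cl, hCl0, hlog⟩ := h2 κ hκ0 hκ1
  have hk : 0 < 1 - κ := by linarith
  -- the cutoff
  obtain ⟨M, hM0, hM⟩ := hom_bd (hom_cont hη.1).1 hη.2.1
  let χ : ContDiffBump (0 : ℂ) := ⟨5 / 4, 11 / 8, by norm_num, by norm_num⟩
  have hχs : tsupport (χ : ℂ → ℝ) ⊆ ball (0 : ℂ) (3 / 2) := by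
    rw [χ.tsupport_eq]
    exact closedBall_subset_ball (by norm_num)
  have hχ1 : ∀ z : ℂ, ‖z‖ ≤ 5 / 4 → χ z = 1 := fun z hz =>
    χ.one_of_mem_closedBall (by simpa using hz)
  have hχle : ∀ z : ℂ, ‖((χ z : ℝ) : ℂ)‖ ≤ 1 := by
    intro z
    rw [Complex.norm_real, Real.norm_eq_abs, abs_of_nonneg χ.nonneg]
    exact χ.le_one
  obtain ⟨η', hη'⟩ : ∃ η' : ℂ → ℂ, η' = fun z => ((χ z : ℝ) : ℂ) * η z := ⟨_, rfl⟩
  have hχc : ContDiff ℝ (⊤ : ℕ∞) (fun z => ((χ z : ℝ) : ℂ)) :=
    Complex.ofRealCLM.contDiff.comp χ.contDiff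
  have hTF : TF (ball 0 (3 / 2)) η' := by
    rw [hη']
    refine ⟨hχc.mul hη.1, hη.2.1.mul_left, ?_⟩
    refine (tsupport_mul_subset_left (f := fun z => ((χ z : ℝ) : ℂ)) (g := η)).trans ?_
    refine Subset.trans ?_ hχs
    apply closure_mono
    intro z hz hz'
    exact hz (by show ((χ z : ℝ) : ℂ) = 0; rw [hz']; simp)
  have hη'M : ∀ z, ‖η' z‖ ≤ M := by
    intro z
    rw [hη']
    show ‖((χ z : ℝ) : ℂ) * η z‖ ≤ M
    rw [norm_mul]
    calc ‖((χ z : ℝ) : ℂ)‖ * ‖η z‖ ≤ 1 * M :=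
          mul_le_mul (hχle z) (hM z) (norm_nonneg _) (by norm_num)
      _ = M := one_mul M
  have hη'c := hom_cont hTF.1
  have hη'z := hom_zero (φ := η') hTF.2.2
  have hη'0 := hom_zero (φ := η') (K := tsupport η') (le_refl _)
  have hK : IsCompact (tsupport η') := hTF.2.1
  have hKU : tsupport η' ⊆ ball (0 : ℂ) (3 / 2) := hTF.2.2
  -- constants
  have hηi : Integrable η' := hη'c.1.integrable_of_hasCompactSupport hTF.2.1
  have hdbs : HasCompactSupport (db η') := by
    refine HasCompactSupport.intro hK ?_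
    intro z hz
    exact (hη'0 z hz).2
  have hdbi : Integrable (db η') := hη'c.2.integrable_of_hasCompactSupport hdbs
  obtain ⟨I1, hI1⟩ : ∃ I1 : ℝ, I1 = ∫ z, ‖db η' z‖ := ⟨_, rfl⟩
  obtain ⟨J1, hJ1⟩ : ∃ J1 : ℝ, J1 = ∫ z, ‖η' z‖ := ⟨_, rfl⟩
  have hI10 : 0 ≤ I1 := by rw [hI1]; exact integral_nonneg fun z => norm_nonneg _
  have hJ10 : 0 ≤ J1 := by rw [hJ1]; exact integral_nonneg fun z => norm_nonneg _
  refine ⟨3 * M / (1 - κ), by positivity, ?_⟩
  intro ν hν
  -- bound of the derivative of ν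
  have hνc : ContDiff ℝ (⊤ : ℕ∞) (fun w => ((ν w : ℝ) : ℂ)) :=
    Complex.ofRealCLM.contDiff.comp hν.smooth
  have hνs : HasCompactSupport (fun w => ((ν w : ℝ) : ℂ)) := by
    refine HasCompactSupport.intro (isCompact_closedBall (0 : ℂ) (5 / 4)) ?_
    intro z hz
    have hz' : 5 / 4 < ‖z‖ := by simpa using hz
    simp [hν.mu.supp z hz']
  have hνdbs : HasCompactSupport (db (fun w => ((ν w : ℝ) : ℂ))) := by
    refine HasCompactSupport.intro hνs ?_
    intro z hz
    exact (hom_zero (φ := fun w => ((ν w : ℝ) : ℂ)) (le_refl _) z hz).2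
  obtain ⟨D, hD0, hD⟩ := hom_bd (hom_cont hνc).2 hνdbs
  refine ⟨Cl * I1 + D / (1 - κ) * J1, by positivity, ?_⟩
  intro μ hμ m n f d A B hmn hF hWD heq K T hK0 hT0 hA hAK hT
  obtain ⟨hf0, hec, he1, hWe⟩ := h1 μ m n f d A B hmn hF hWD
  obtain ⟨hlb, P', hWl⟩ := hlog ν hν _ _ _ hWe hec he1
  have hN : (0 : ℝ) < ((m + n : ℕ) : ℝ) := by exact_mod_cast hmn
  have hNC : ((m + n : ℕ) : ℂ) ≠ 0 := by exact_mod_cast (by omega : m + n ≠ 0)
  obtain ⟨e, he⟩ : ∃ e : ℂ → ℂ, e = fun z => conj (f z) / f z := ⟨_, rfl⟩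
  have he' : ∀ z, conj (f z) / f z = e z := fun z => by rw [he]
  obtain ⟨dν, hdν⟩ : ∃ dν : ℂ → ℂ, dν = db (fun w => ((ν w : ℝ) : ℂ)) := ⟨_, rfl⟩
  simp only [he'] at hec he1 hlb hWl heq
  rw [← hdν] at hWl hD
  -- the functions
  obtain ⟨L, hL⟩ : ∃ L : ℂ → ℂ, L = fun z => log (1 - (ν z : ℂ) * e z) := ⟨_, rfl⟩
  obtain ⟨Lb, hLb⟩ : ∃ Lb : ℂ → ℂ, Lb = fun z => - (dν z * e z + (ν z : ℂ) *
    (((m + n : ℕ) : ℂ) * e z * (conj (A z + gp m n z) - B z))) / (1 - (ν z : ℂ) * e z) := ⟨_, rfl⟩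
  rw [← hL, ← hLb] at hWl
  -- T1, T2, T3
  obtain ⟨T2, hT2⟩ : ∃ T2 : ℂ → ℂ, T2 = fun z => dν z * e z / (1 - (ν z : ℂ) * e z) * η' z :=
    ⟨_, rfl⟩
  obtain ⟨T3, hT3⟩ : ∃ T3 : ℂ → ℂ, T3 = fun z => ((μ z - ν z : ℝ) : ℂ) * e z *
    conj (A z + gp m n z) / (1 - (ν z : ℂ) * e z) * η' z := ⟨_, rfl⟩
  have hden : ∀ z ∈ ball (0 : ℂ) (3 / 2), 1 - (ν z : ℂ) * e z ≠ 0 := by
    intro z hz h0
    have := (hlb z hz).1
    rw [h0, norm_zero] at this
    linarith
  have hpt : ∀ᵐ z, B z * η z = -(1 / ((m + n : ℕ) : ℂ)) * (Lb z * η' z) -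
      (1 / ((m + n : ℕ) : ℂ)) * T2 z + T3 z := by
    filter_upwards [heq] with z hz
    by_cases hzU : z ∈ ball (0 : ℂ) (3 / 2)
    · have hBη : B z * η z = B z * η' z := by
        by_cases hz4 : ‖z‖ ≤ 5 / 4
        · rw [hη']
          simp [hχ1 z hz4]
        · have : B z = 0 := by
            rw [hz, hμ.supp z (by linarith)]
            simp
          rw [this]
          simp
      have hd := hden z hzU
      rw [hBη, hT2, hT3, hLb]
      have key : B z * (1 - (ν z : ℂ) * e z) = (ν z : ℂ) * e z * (conj (A z + gp m n z) - B z) +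
          ((μ z - ν z : ℝ) : ℂ) * e z * conj (A z + gp m n z) := by
        rw [ofReal_sub]
        linear_combination hz
      have key2 : B z = ((ν z : ℂ) * e z * (conj (A z + gp m n z) - B z) +
          ((μ z - ν z : ℝ) : ℂ) * e z * conj (A z + gp m n z)) / (1 - (ν z : ℂ) * e z) := by
        rw [eq_div_iff hd]
        exact key
      show B z * η' z = _
      conv_lhs => rw [key2]
      field_simp
      ring
    · have h0 := (hη'z z hzU).1
      have hz4 : 5 / 4 < ‖z‖ := by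
        have : 3 / 2 ≤ ‖z‖ := by simpa using hzU
        linarith
      have : B z = 0 := by
        rw [hz, hμ.supp z hz4]
        simp
      rw [this, hT2, hT3]
      simp [h0]
  -- integrability
  have i1 : Integrable (fun z => Lb z * η' z) :=
    hom_int hWl.B2 hK hKU hη'c.1 (fun z hz => (hη'0 z hz).1)
  have hdνc : Continuous dν := by rw [hdν]; exact (hom_cont hνc).2
  have hT2c : ContinuousOn (fun z => dν z * e z / (1 - (ν z : ℂ) * e z)) (ball 0 (3 / 2)) := by
    refine ContinuousOn.div (hdνc.continuousOn.mul hec) ?_ hden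
    exact continuousOn_const.sub (hνc.continuous.continuousOn.mul hec)
  have hT2b : ∀ z, ‖T2 z‖ ≤ D / (1 - κ) * ‖η' z‖ := by
    intro z
    by_cases hzU : z ∈ ball (0 : ℂ) (3 / 2)
    · rw [hT2]
      show ‖dν z * e z / (1 - (ν z : ℂ) * e z) * η' z‖ ≤ _
      rw [norm_mul, norm_div, norm_mul, he1 z hzU, mul_one]
      refine mul_le_mul_of_nonneg_right ?_ (norm_nonneg _)
      exact div_le_div₀ hD0 (hD z) hk (hlb z hzU).1
    · have h0 := (hη'z z hzU).1
      rw [hT2]
      simp [h0]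
  have i2 : Integrable T2 := by
    have hm : AEStronglyMeasurable T2 volume := by
      have hKm : MeasurableSet (tsupport η') := hK.measurableSet
      have hind : T2 = (tsupport η').indicator T2 := by
        funext z
        by_cases hz : z ∈ tsupport η'
        · rw [indicator_of_mem hz]
        · rw [indicator_of_notMem hz, hT2]
          simp [(hη'0 z hz).1]
      rw [hind, aestronglyMeasurable_indicator_iff hKm, hT2]
      exact ((hT2c.mono hKU).mul hη'c.1.continuousOn).aestronglyMeasurable hKm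
    exact Integrable.mono' (hηi.norm.const_mul (D / (1 - κ))) hm (Eventually.of_forall hT2b)
  have iB : Integrable (fun z => B z * η z) :=
    hom_int hWD.B2 hη.2.1 (subset_univ _) (hom_cont hη.1).1
      (fun z hz => (hom_zero (φ := η) (le_refl _) z hz).1)
  have i3 : Integrable T3 := by
    have : Integrable (fun z => B z * η z + (1 / ((m + n : ℕ) : ℂ)) * (Lb z * η' z) +
        (1 / ((m + n : ℕ) : ℂ)) * T2 z) := (iB.add (i1.const_mul _)).add (i2.const_mul _)
    refine this.congr ?_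
    filter_upwards [hpt] with z hz
    rw [hz]
    ring
  -- the integral
  have e1 : ∫ z, B z * η z = -(1 / ((m + n : ℕ) : ℂ)) * (∫ z, Lb z * η' z) -
      (1 / ((m + n : ℕ) : ℂ)) * (∫ z, T2 z) + ∫ z, T3 z := by
    have j1 : Integrable (fun z => -(1 / ((m + n : ℕ) : ℂ)) * (Lb z * η' z)) := i1.const_mul _
    have j2 : Integrable (fun z => (1 / ((m + n : ℕ) : ℂ)) * T2 z) := i2.const_mul _
    have j3 : Integrable (fun z => -(1 / ((m + n : ℕ) : ℂ)) * (Lb z * η' z) -
      (1 / ((m + n : ℕ) : ℂ)) * T2 z) := j1.sub j2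
    rw [integral_congr_ae hpt, integral_add j3 i3,
      integral_sub j1 j2, integral_const_mul, integral_const_mul]
  have e2 : ∫ z, Lb z * η' z = - ∫ z, L z * db η' z := by
    rw [hWl.hB η' hTF, neg_neg]
  have b1 : ‖∫ z, L z * db η' z‖ ≤ Cl * I1 := by
    rw [hI1, ← integral_const_mul]
    refine norm_integral_le_of_norm_le (hdbi.norm.const_mul Cl) (Eventually.of_forall fun z => ?_)
    by_cases hzU : z ∈ ball (0 : ℂ) (3 / 2)
    · rw [norm_mul, hL]
      exact mul_le_mul_of_nonneg_right (hlb z hzU).2 (norm_nonneg _)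
    · rw [(hη'z z hzU).2]
      simp
  have b2 : ‖∫ z, T2 z‖ ≤ D / (1 - κ) * J1 := by
    rw [hJ1, ← integral_const_mul]
    exact norm_integral_le_of_norm_le (hηi.norm.const_mul _) (Eventually.of_forall hT2b)
  have b3 : ‖∫ z, T3 z‖ ≤ 3 * M / (1 - κ) * T * (K + 1) := by
    obtain ⟨S, hS⟩ : ∃ S : Set ℂ, S = closedBall (0 : ℂ) (5 / 4) := ⟨_, rfl⟩
    have hSm : MeasurableSet S := by rw [hS]; exact isClosed_closedBall.measurableSet
    obtain ⟨g1, hg1⟩ : ∃ g1 : ℂ → ℂ, g1 = fun z => ((μ z - ν z : ℝ) : ℂ) := ⟨_, rfl⟩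
    obtain ⟨g2, hg2⟩ : ∃ g2 : ℂ → ℂ, g2 = fun z => A z + gp m n z := ⟨_, rfl⟩
    have hg1m : AEStronglyMeasurable g1 (volume.restrict S) := by
      rw [hg1]
      exact (Complex.measurable_ofReal.comp (hμ.meas.sub hν.mu.meas)).aestronglyMeasurable
    have hgpm : Measurable (gp m n) := by
      unfold gp
      exact (measurable_const.div (measurable_id.add_const _)).add
        (measurable_const.div (measurable_id.sub_const _))
    have hg2m : AEStronglyMeasurable g2 (volume.restrict S) := by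
      rw [hg2]
      exact (hA.1.restrict).add hgpm.aestronglyMeasurable
    have n1 : eLpNorm g1 2 (volume.restrict S) ≤ ENNReal.ofReal T := by
      refine (eLpNorm_mono_measure _ Measure.restrict_le_self).trans ?_
      rw [hg1]
      exact hT
    have n2 : eLpNorm g2 2 (volume.restrict S) ≤ ENNReal.ofReal (K + 3) := by
      rw [hg2]
      refine (eLpNorm_add_le hA.1.restrict hgpm.aestronglyMeasurable (by norm_num)).trans ?_
      rw [ENNReal.ofReal_add hK0 (by norm_num)]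
      refine add_le_add ((eLpNorm_mono_measure _ Measure.restrict_le_self).trans hAK) ?_
      rw [hS]
      exact hom_gpL2 hmn
    have n3 : eLpNorm (fun z => g1 z * g2 z) 1 (volume.restrict S) ≤
        ENNReal.ofReal (T * (K + 3)) := by
      have h := eLpNorm_smul_le_mul_eLpNorm (p := 2) (q := 2) (r := 1) hg2m hg1m
      rw [ENNReal.ofReal_mul hT0]
      exact h.trans (mul_le_mul' n1 n2)
    have n4 : ∫⁻ z, ‖T3 z‖ₑ ≤ ENNReal.ofReal (M / (1 - κ)) * ENNReal.ofReal (T * (K + 3)) := by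
      have hle : ∀ z, ‖T3 z‖ₑ ≤ ENNReal.ofReal (M / (1 - κ)) *
          (S.indicator (fun z => ‖g1 z * g2 z‖ₑ) z) := by
        intro z
        by_cases hzS : z ∈ S
        · rw [indicator_of_mem hzS]
          have hz4 : ‖z‖ ≤ 5 / 4 := by
            rw [hS] at hzS
            simpa using hzS
          have hzU : z ∈ ball (0 : ℂ) (3 / 2) := by
            rw [mem_ball_zero_iff]
            linarith
          rw [← ofReal_norm, ← ofReal_norm, ← ENNReal.ofReal_mul (by positivity)]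
          apply ENNReal.ofReal_le_ofReal
          rw [hT3, hg1, hg2]
          show ‖((μ z - ν z : ℝ) : ℂ) * e z * conj (A z + gp m n z) / (1 - (ν z : ℂ) * e z) *
            η' z‖ ≤ M / (1 - κ) * ‖((μ z - ν z : ℝ) : ℂ) * (A z + gp m n z)‖
          rw [norm_mul, norm_div, norm_mul, norm_mul, he1 z hzU, mul_one, RCLike.norm_conj,
            norm_mul]
          have q1 := (hlb z hzU).1
          have q2 : ‖η' z‖ / ‖1 - (ν z : ℂ) * e z‖ ≤ M / (1 - κ) :=
            div_le_div₀ hM0 (hη'M z) hk q1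
          calc ‖((μ z - ν z : ℝ) : ℂ)‖ * ‖A z + gp m n z‖ / ‖1 - (ν z : ℂ) * e z‖ * ‖η' z‖
              = (‖η' z‖ / ‖1 - (ν z : ℂ) * e z‖) *
                (‖((μ z - ν z : ℝ) : ℂ)‖ * ‖A z + gp m n z‖) := by ring
            _ ≤ M / (1 - κ) * (‖((μ z - ν z : ℝ) : ℂ)‖ * ‖A z + gp m n z‖) :=
                mul_le_mul_of_nonneg_right q2 (by positivity)
        · rw [indicator_of_notMem hzS, mul_zero]
          have hz4 : 5 / 4 < ‖z‖ := by
            rw [hS] at hzS
            simpa using hzS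
          have : T3 z = 0 := by
            rw [hT3]
            simp [hμ.supp z hz4, hν.mu.supp z hz4]
          rw [this]
          simp
      refine (lintegral_mono hle).trans ?_
      rw [lintegral_const_mul' _ _ ENNReal.ofReal_ne_top, lintegral_indicator hSm]
      refine mul_le_mul' le_rfl ?_
      rw [eLpNorm_one_eq_lintegral_enorm] at n3
      exact n3
    have n5 : ‖∫ z, T3 z‖ₑ ≤ ENNReal.ofReal (M / (1 - κ) * (T * (K + 3))) := by
      rw [ENNReal.ofReal_mul (by positivity)]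
      exact (enorm_integral_le_lintegral_enorm _).trans n4
    rw [← ofReal_norm] at n5
    have n6 := (ENNReal.ofReal_le_ofReal_iff (by positivity)).1 n5
    refine n6.trans ?_
    have n7 : M / (1 - κ) * (T * (K + 3)) ≤ M / (1 - κ) * (T * (3 * (K + 1))) :=
      mul_le_mul_of_nonneg_left (mul_le_mul_of_nonneg_left (by linarith) hT0) (by positivity)
    refine n7.trans (le_of_eq ?_)
    ring
  rw [e1, e2]
  have hNn : ‖(1 / ((m + n : ℕ) : ℂ))‖ = 1 / ((m + n : ℕ) : ℝ) := by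
    rw [norm_div, norm_one, Complex.norm_natCast]
  have hfin : ‖-(1 / ((m + n : ℕ) : ℂ)) * (- ∫ z, L z * db η' z) -
      (1 / ((m + n : ℕ) : ℂ)) * (∫ z, T2 z) + ∫ z, T3 z‖ ≤
      1 / ((m + n : ℕ) : ℝ) * (Cl * I1) + 1 / ((m + n : ℕ) : ℝ) * (D / (1 - κ) * J1) +
        3 * M / (1 - κ) * T * (K + 1) := by
    refine (norm_add_le _ _).trans (add_le_add ?_ b3)
    refine (norm_sub_le _ _).trans (add_le_add ?_ ?_)
    · rw [norm_mul, norm_neg, norm_neg, hNn]
      exact mul_le_mul_of_nonneg_left b1 (by positivity)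
    · rw [norm_mul, hNn]
      exact mul_le_mul_of_nonneg_left b2 (by positivity)
  refine hfin.trans (le_of_eq ?_)
  ring

end

end Cal
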