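import Pool.Agent.Lib.MP_4ea4c7_an.StmD

/-!
# S_hpm: maximum principle in the upper half plane
-/

open MeasureTheory Complex Metric Set Filter Topology
open scoped ComplexConjugate ENNReal NNReal

namespace Cal

noncomputable section

theorem piece_hpm : S_hpm := by
  intro q c hq hd hr hinf z hz
  rcases hz.eq_or_lt with h0 | h0
  · have h1 : z = (z.re : ℂ) := Complex.ext (by simp) (by simp [← h0])
    rw [h1]
    exact hr z.re
  refine le_of_forall_pos_le_add fun ε hε => ?_
  obtain ⟨R, hR⟩ := hinf ε hε
  set R' : ℝ := max R ‖z‖ + 1 with hR'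
  have hRR : R ≤ R' := by
    rw [hR']
    linarith [le_max_left R ‖z‖]
  have hzR : ‖z‖ < R' := by
    rw [hR']
    linarith [le_max_right R ‖z‖]
  have hopen1 : IsOpen {w : ℂ | 0 < w.im} := isOpen_lt continuous_const Complex.continuous_im
  have hcl1 : IsClosed {w : ℂ | 0 ≤ w.im} := isClosed_le continuous_const Complex.continuous_im
  set U : Set ℂ := {w : ℂ | 0 < w.im} ∩ ball 0 R' with hU
  have hUo : IsOpen U := hopen1.inter isOpen_ball
  have hcU : closure U ⊆ {w : ℂ | 0 ≤ w.im} ∩ closedBall 0 R' := by
    refine closure_minimal ?_ (hcl1.inter isClosed_closedBall)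
    rintro w ⟨h1, h2⟩
    exact ⟨le_of_lt (show (0 : ℝ) < w.im from h1), ball_subset_closedBall h2⟩
  have hf : DiffContOnCl ℂ (fun w => exp (I * q w)) U := by
    constructor
    · have h1 : DifferentiableOn ℂ q U := hd.mono fun w hw => hw.1
      exact (h1.const_mul I).cexp
    · have h1 : ContinuousOn q (closure U) := hq.mono fun w hw => (hcU hw).1
      exact (continuousOn_const.mul h1).cexp
  have hnorm : ∀ w, ‖exp (I * q w)‖ = Real.exp (-(q w).im) := by
    intro w
    rw [Complex.norm_exp]
    congr 1
    simp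
  have hb : ∀ w ∈ frontier U, ‖exp (I * q w)‖ ≤ Real.exp ε := by
    intro w hw
    rw [hUo.frontier_eq] at hw
    obtain ⟨h1, h2⟩ := hw
    obtain ⟨h3, h4⟩ := hcU h1
    rw [hnorm, Real.exp_le_exp]
    by_cases h5 : 0 < w.im
    · have h6 : ¬ ‖w‖ < R' := fun h7 => h2 ⟨h5, by rwa [mem_ball, dist_zero_right]⟩
      have h8 := hR w h5.le (hRR.trans (not_lt.1 h6))
      have h9 : |(q w - c).im| ≤ ‖q w - c‖ := Complex.abs_im_le_norm _
      have h10 : (q w - c).im = (q w).im := by simp
      rw [h10] at h9
      have := neg_abs_le (q w).im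
      linarith
    · have h6 : w.im = 0 := le_antisymm (not_lt.1 h5) h3
      have h7 : w = (w.re : ℂ) := Complex.ext (by simp) (by simp [h6])
      have h8 := hr w.re
      rw [← h7] at h8
      linarith
  have hmax := Complex.norm_le_of_forall_mem_frontier_norm_le
    (Metric.isBounded_ball.subset inter_subset_right) hf hb
    (subset_closure ⟨h0, by rwa [mem_ball, dist_zero_right]⟩ : z ∈ closure U)
  rw [hnorm, Real.exp_le_exp] at hmax
  linarith

end

end Cal
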