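import Pool.Agent.Lib.MP_4ea4c7_an.StmD

open MeasureTheory Complex Metric Set Filter Topology
open scoped ComplexConjugate ENNReal NNReal

namespace Cal

noncomputable section

/-- the contour integral around `-2` giving the `m`-th Taylor coefficient -/
private def LL (m : ℕ) (g : ℂ → ℂ) : ℂ :=
  ∮ z in C((-2 : ℂ), 1 / 4), (z - (-2))⁻¹ • (g z / (z - (-2)) ^ m)

private theorem LL_cont_on_sphere {m : ℕ} {g : ℂ → ℂ}
    (hc : ContinuousOn g (sphere (-2 : ℂ) (1 / 4))) :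
    ContinuousOn (fun z => (z - (-2))⁻¹ • (g z / (z - (-2)) ^ m)) (sphere (-2 : ℂ) (1 / 4)) := by
  have hne : ∀ z ∈ sphere (-2 : ℂ) (1 / 4), z - (-2) ≠ 0 := by
    intro z hz h
    rw [mem_sphere, dist_eq_norm, h, norm_zero] at hz
    norm_num at hz
  simp only [smul_eq_mul]
  refine ContinuousOn.mul ?_ ?_
  · exact ContinuousOn.inv₀ (continuousOn_id.sub continuousOn_const) hne
  · exact hc.div ((continuousOn_id.sub continuousOn_const).pow m)
      (fun z hz => pow_ne_zero m (hne z hz))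

private theorem LL_int {m : ℕ} {g : ℂ → ℂ}
    (hc : ContinuousOn g (sphere (-2 : ℂ) (1 / 4))) :
    CircleIntegrable (fun z => (z - (-2))⁻¹ • (g z / (z - (-2)) ^ m)) (-2 : ℂ) (1 / 4) :=
  (LL_cont_on_sphere hc).circleIntegrable (by norm_num)

private theorem LL_sub {m : ℕ} {g h : ℂ → ℂ}
    (hg : ContinuousOn g (sphere (-2 : ℂ) (1 / 4))) (hh : ContinuousOn h (sphere (-2 : ℂ) (1 / 4))) :
    LL m (fun z => g z - h z) = LL m g - LL m h := by
  unfold LL
  rw [← circleIntegral.integral_sub (LL_int hg) (LL_int hh)]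
  congr 1
  funext z
  rw [sub_div, smul_sub]

private theorem LL_smul {m : ℕ} (a : ℂ) (g : ℂ → ℂ) :
    LL m (fun z => a * g z) = a * LL m g := by
  unfold LL
  rw [← smul_eq_mul a, ← circleIntegral.integral_smul]
  congr 1
  funext z
  simp only [smul_eq_mul]
  ring

private theorem LL_sum {m : ℕ} (s : Finset ℕ) (a : ℕ → ℂ) (g : ℕ → ℂ → ℂ)
    (hg : ∀ i, ContinuousOn (g i) (sphere (-2 : ℂ) (1 / 4))) :
    LL m (fun z => ∑ i ∈ s, a i * g i z) = ∑ i ∈ s, a i * LL m (g i) := by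
  classical
  induction s using Finset.induction_on with
  | empty =>
    simp only [Finset.sum_empty]
    unfold LL
    simp [circleIntegral]
  | insert j s hj ih =>
    rw [Finset.sum_insert hj, ← ih, ← LL_smul]
    have e : (fun z => ∑ i ∈ insert j s, a i * g i z)
        = fun z => (∑ i ∈ s, a i * g i z) - (-1) * (a j * g j z) := by
      funext z
      rw [Finset.sum_insert hj]
      ring
    have hc1 : ContinuousOn (fun z => ∑ i ∈ s, a i * g i z) (sphere (-2 : ℂ) (1 / 4)) :=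
      continuousOn_finsetSum _ (fun i _ => continuousOn_const.mul (hg i))
    have hc2 : ContinuousOn (fun z => (-1 : ℂ) * (a j * g j z)) (sphere (-2 : ℂ) (1 / 4)) :=
      continuousOn_const.mul (continuousOn_const.mul (hg j))
    rw [e, LL_sub hc1 hc2, LL_smul]
    ring

private theorem LL_zero {m : ℕ} {g : ℂ → ℂ} (hc : ContinuousOn g (closedBall (-2 : ℂ) (1 / 4)))
    (hd : ∀ z ∈ ball (-2 : ℂ) (1 / 4), DifferentiableAt ℂ g z)
    (ho : g =O[𝓝 (-2 : ℂ)] fun z => (z + 2) ^ (m + 1)) : LL m g = 0 := by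
  have hne : ∀ z : ℂ, z ≠ -2 → z - (-2) ≠ 0 := fun z hz => sub_ne_zero.mpr hz
  have key := Complex.circleIntegral_sub_center_inv_smul_of_differentiable_on_off_countable_of_tendsto
    (c := (-2 : ℂ)) (R := 1 / 4) (by norm_num) (f := fun z => g z / (z - (-2)) ^ m) (y := 0)
    (s := ∅) countable_empty ?_ ?_ ?_
  · unfold LL
    rw [key, smul_zero]
  · refine ContinuousOn.div (hc.mono sdiff_subset)
      ((continuousOn_id.sub continuousOn_const).pow m) ?_
    intro z hz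
    exact pow_ne_zero m (hne z hz.2)
  · intro z hz
    have hz1 : z ∈ ball (-2 : ℂ) (1 / 4) := hz.1.1
    have hz2 : z ≠ -2 := hz.1.2
    exact (hd z hz1).div ((differentiableAt_id.sub (differentiableAt_const _)).pow m)
      (pow_ne_zero m (hne z hz2))
  · obtain ⟨C, hC⟩ := ho.bound
    rw [tendsto_zero_iff_norm_tendsto_zero]
    have hlim : Tendsto (fun z : ℂ => C * ‖z + 2‖) (𝓝[{(-2 : ℂ)}ᶜ] (-2 : ℂ)) (𝓝 0) := by
      have : Tendsto (fun z : ℂ => C * ‖z + 2‖) (𝓝 (-2 : ℂ)) (𝓝 (C * ‖(-2 : ℂ) + 2‖)) :=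
        ((continuous_const.mul (continuous_id.add continuous_const).norm).tendsto _)
      have e : C * ‖(-2 : ℂ) + 2‖ = 0 := by simp
      rw [e] at this
      exact this.mono_left nhdsWithin_le_nhds
    refine squeeze_zero' (Eventually.of_forall fun z => norm_nonneg _) ?_ hlim
    have hev := hC.filter_mono (nhdsWithin_le_nhds (s := {(-2 : ℂ)}ᶜ))
    filter_upwards [hev, self_mem_nhdsWithin] with z hz hz2
    have hz3 : z + 2 ≠ 0 := by
      have := hne z hz2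
      rwa [sub_neg_eq_add] at this
    have hpos : 0 < ‖z + 2‖ ^ m := pow_pos (norm_pos_iff.mpr hz3) m
    rw [sub_neg_eq_add, norm_div, norm_pow, div_le_iff₀ hpos]
    rw [norm_pow] at hz
    calc ‖g z‖ ≤ C * ‖z + 2‖ ^ (m + 1) := hz
      _ = C * ‖z + 2‖ * ‖z + 2‖ ^ m := by ring

private theorem LL_F {m : ℕ} {F E : ℂ → ℂ} (hc : ContinuousOn F (closedBall (-2 : ℂ) (1 / 4)))
    (hd : ∀ z ∈ ball (-2 : ℂ) (1 / 4), DifferentiableAt ℂ F z) (hE : Continuous E)
    (hF : ∀ z, F z = (z + 2) ^ m * E z) : LL m F = (2 * Real.pi * I : ℂ) • E (-2) := by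
  have hne : ∀ z : ℂ, z ≠ -2 → z - (-2) ≠ 0 := fun z hz => sub_ne_zero.mpr hz
  have key := Complex.circleIntegral_sub_center_inv_smul_of_differentiable_on_off_countable_of_tendsto
    (c := (-2 : ℂ)) (R := 1 / 4) (by norm_num) (f := fun z => F z / (z - (-2)) ^ m) (y := E (-2))
    (s := ∅) countable_empty ?_ ?_ ?_
  · unfold LL
    exact key
  · refine ContinuousOn.div (hc.mono sdiff_subset)
      ((continuousOn_id.sub continuousOn_const).pow m) ?_
    intro z hz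
    exact pow_ne_zero m (hne z hz.2)
  · intro z hz
    have hz1 : z ∈ ball (-2 : ℂ) (1 / 4) := hz.1.1
    have hz2 : z ≠ -2 := hz.1.2
    exact (hd z hz1).div ((differentiableAt_id.sub (differentiableAt_const _)).pow m)
      (pow_ne_zero m (hne z hz2))
  · have h1 : Tendsto E (𝓝[{(-2 : ℂ)}ᶜ] (-2 : ℂ)) (𝓝 (E (-2))) :=
      (hE.tendsto _).mono_left nhdsWithin_le_nhds
    refine h1.congr' ?_
    filter_upwards [self_mem_nhdsWithin] with z hz
    have hz3 := hne z hz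
    rw [hF z, sub_neg_eq_add] at *
    field_simp

private theorem LL_tendsto {m : ℕ} {gk : ℕ → ℂ → ℂ} {g : ℂ → ℂ}
    (hgk : ∀ j, ContinuousOn (gk j) (sphere (-2 : ℂ) (1 / 4)))
    (hg : ContinuousOn g (sphere (-2 : ℂ) (1 / 4)))
    (h : TendstoUniformlyOn gk g atTop (sphere (-2 : ℂ) (1 / 4))) :
    Tendsto (fun j => LL m (gk j)) atTop (𝓝 (LL m g)) := by
  rw [Metric.tendsto_atTop]
  intro ε hε
  rw [Metric.tendstoUniformlyOn_iff] at h
  set K : ℝ := 2 * Real.pi * (1 / 4) * ((1 / 4 : ℝ)⁻¹ * (1 / (1 / 4 : ℝ) ^ m)) with hK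
  have hKpos : 0 < K := by
    have := Real.pi_pos
    positivity
  obtain ⟨N, hN⟩ := Filter.eventually_atTop.mp (h (ε / (2 * K)) (by positivity))
  refine ⟨N, fun j hj => ?_⟩
  rw [dist_eq_norm, ← LL_sub (hgk j) hg]
  have hb : ‖LL m (fun z => gk j z - g z)‖
      ≤ 2 * Real.pi * (1 / 4) * ((1 / 4 : ℝ)⁻¹ * (ε / (2 * K) / (1 / 4 : ℝ) ^ m)) := by
    unfold LL
    refine circleIntegral.norm_integral_le_of_norm_le_const (by norm_num) ?_
    intro z hz
    have hz' := hN j hj z hz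
    rw [mem_sphere, dist_eq_norm] at hz
    rw [norm_smul, norm_inv, norm_div, norm_pow, hz]
    rw [dist_comm, dist_eq_norm] at hz'
    gcongr
  have e : 2 * Real.pi * (1 / 4) * ((1 / 4 : ℝ)⁻¹ * (ε / (2 * K) / (1 / 4 : ℝ) ^ m))
      = K * (ε / (2 * K)) := by
    rw [hK]; ring
  rw [e] at hb
  have e2 : K * (ε / (2 * K)) = ε / 2 := by
    field_simp
  rw [e2] at hb
  linarith

private theorem ineq_norm_of_mem {z : ℂ} (hz : z ∈ closedBall (-2 : ℂ) (1 / 4)) : 5 / 4 < ‖z‖ := by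
  rw [mem_closedBall, dist_eq_norm] at hz
  have h2 : ‖(2 : ℂ)‖ = 2 := by simp
  have h3 : ‖(2 : ℂ)‖ ≤ ‖z - (-2)‖ + ‖z‖ := by
    have : (2 : ℂ) = (z - (-2)) - z := by ring
    calc ‖(2 : ℂ)‖ = ‖(z - (-2)) - z‖ := by rw [← this]
      _ ≤ _ := norm_sub_le _ _
  rw [h2] at h3
  linarith

/-- the recursion for the coefficients -/
private theorem ineq_rec {k : ℂ → ℂ} {F E : ℕ → ℂ → ℂ} {θ : ℕ → ℝ}
    (hk : ContinuousOn k (closedBall (-2 : ℂ) (1 / 4)))
    (hkd : ∀ z ∈ ball (-2 : ℂ) (1 / 4), DifferentiableAt ℂ k z)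
    (hF : ∀ i, ContinuousOn (F i) (closedBall (-2 : ℂ) (1 / 4)))
    (hFd : ∀ i, ∀ z ∈ ball (-2 : ℂ) (1 / 4), DifferentiableAt ℂ (F i) z)
    (hE : ∀ i, Continuous (E i)) (hE0 : ∀ i z, E i z ≠ 0)
    (hFE : ∀ i z, F i z = (z + 2) ^ i * E i z)
    (hθ : ∀ m : ℕ, (fun z => k z - ∑ i ∈ Finset.range m, (θ i : ℂ) * F i z)
      =O[𝓝 (-2 : ℂ)] fun z => (z + 2) ^ m) (m : ℕ) :
    LL m (F m) ≠ 0 ∧
    (θ m : ℂ) = (LL m k - ∑ i ∈ Finset.range m, (θ i : ℂ) * LL m (F i)) / LL m (F m) := by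
  have h0 : LL m (F m) ≠ 0 := by
    rw [LL_F (hF m) (hFd m) (hE m) (hFE m)]
    refine smul_ne_zero ?_ (hE0 m _)
    have := Real.pi_ne_zero
    simp [this]
  refine ⟨h0, ?_⟩
  have hcF : ∀ i, ContinuousOn (F i) (sphere (-2 : ℂ) (1 / 4)) :=
    fun i => (hF i).mono sphere_subset_closedBall
  have hz : LL m (fun z => k z - ∑ i ∈ Finset.range (m + 1), (θ i : ℂ) * F i z) = 0 := by
    refine LL_zero ?_ ?_ (hθ (m + 1))
    · exact hk.sub (continuousOn_finsetSum _ fun i _ => continuousOn_const.mul (hF i))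
    · intro z hz
      refine (hkd z hz).sub ?_
      refine DifferentiableAt.fun_sum fun i _ => ?_
      exact (differentiableAt_const _).mul (hFd i z hz)
  have hcs : ContinuousOn (fun z => ∑ i ∈ Finset.range (m + 1), (θ i : ℂ) * F i z)
      (sphere (-2 : ℂ) (1 / 4)) :=
    continuousOn_finsetSum _ fun i _ => continuousOn_const.mul (hcF i)
  have hs := LL_sum (m := m) (Finset.range (m + 1)) (fun i => (θ i : ℂ)) F hcF
  rw [LL_sub (hk.mono sphere_subset_closedBall) hcs, hs, Finset.sum_range_succ] at hz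
  rw [eq_div_iff h0]
  linear_combination -hz

private theorem ineq_axis {φ : ℂ → ℝ} (hφ : EvTF φ) : closedBall (-2 : ℂ) (1 / 4) ⊆ (axis φ)ᶜ := by
  intro z hz hz2
  have h1 := ineq_norm_of_mem hz
  have h2 : z ∈ ball (0 : ℂ) 1 := hφ.tf.2.2 hz2.2
  rw [mem_ball, dist_zero_right] at h2
  linarith

/-- [G6] -/
theorem piece_ineq (h1 : S_mollmu) (h2 : S_ksS) (h3 : S_ks) (h4 : S_fexist) (h5 : S_conv)
    (h6 : S_theta) (h7 : S_ineqS) (h8 : S_ksb) (h9 : S_polypart) : S_ineq := by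
  intro κ hκ0 hκ1 μ hμ φ k A B hφ hφ0 hK F D hF α hα θ hθ
  obtain ⟨μk, hSM, hμk⟩ := h1 κ μ hκ0 hμ
  choose kk Ak Bk hKk hkc using fun j => h2 κ hκ0 hκ1 (μk j) (hSM j) φ hφ
  choose Fk Dk hFk using fun (j i : ℕ) => h4 κ hκ0 hκ1 (μk j) (hSM j) i 0
  choose θk hθk using fun j => (h6 κ hκ0 hκ1 (5 / 4) (by norm_num) le_rfl (μk j) (hSM j).mu φ
    (kk j) (Ak j) (Bk j) hφ (hKk j) (Fk j) (Dk j) (hFk j)).1
  have hμ54 : Mu κ (5 / 4) μ :=
    ⟨hμ.meas, hμ.bd, fun z hz => hμ.supp z (by linarith), hμ.symm⟩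
  -- convergence
  have hkconv : ∀ K : Set ℂ, IsCompact K → K ⊆ (axis φ)ᶜ → TendstoUniformlyOn kk k atTop K :=
    (h3 κ hκ0 hκ1 μ hμ φ hφ).2 μk kk Ak Bk k A B hSM hμk hKk hK
  have hFconv : ∀ i, ∀ K : Set ℂ, IsCompact K →
      TendstoUniformlyOn (fun j => Fk j i) (F i) atTop K := fun i K hKc =>
    h5 κ hκ0 hκ1 μ hμ μk hSM hμk i 0 (fun j => Fk j i) (fun j => Dk j i) (F i) (D i)
      (fun j => hFk j i) (hF i) K hKc
  have hball : IsCompact (closedBall (-2 : ℂ) (1 / 4)) := isCompact_closedBall _ _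
  have hsph : IsCompact (sphere (-2 : ℂ) (1 / 4)) := isCompact_sphere _ _
  have hsphax : sphere (-2 : ℂ) (1 / 4) ⊆ (axis φ)ᶜ :=
    sphere_subset_closedBall.trans (ineq_axis hφ)
  -- differentiability
  have hopen : IsOpen {z : ℂ | 5 / 4 < ‖z‖} := isOpen_lt continuous_const continuous_norm
  have hopen1 : IsOpen {z : ℂ | 1 < ‖z‖} := isOpen_lt continuous_const continuous_norm
  have hmem : ∀ z ∈ ball (-2 : ℂ) (1 / 4), 5 / 4 < ‖z‖ :=
    fun z hz => ineq_norm_of_mem (ball_subset_closedBall hz)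
  have hkd : ∀ z ∈ ball (-2 : ℂ) (1 / 4), DifferentiableAt ℂ k z := fun z hz =>
    ((h8 κ hκ0 hκ1 1 le_rfl (by norm_num) μ hμ φ k A B hφ hK).1.2.2).differentiableAt
      (hopen1.mem_nhds (by have := hmem z hz; simp only [mem_ofPred_eq]; linarith))
  have hFd : ∀ i, ∀ z ∈ ball (-2 : ℂ) (1 / 4), DifferentiableAt ℂ (F i) z := fun i z hz => by
    obtain ⟨p, _, _, _, hd⟩ := h9 κ μ (i + 0) (F i) hμ54 (hF i).pn
    exact hd.differentiableAt (hopen.mem_nhds (hmem z hz))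
  have hkkd : ∀ j, ∀ z ∈ ball (-2 : ℂ) (1 / 4), DifferentiableAt ℂ (kk j) z := fun j z hz =>
    ((h8 κ hκ0 hκ1 (5 / 4) (by norm_num) le_rfl (μk j) (hSM j).mu φ (kk j) (Ak j) (Bk j) hφ
      (hKk j)).1.2.2).differentiableAt (hopen.mem_nhds (hmem z hz))
  have hFkd : ∀ j i, ∀ z ∈ ball (-2 : ℂ) (1 / 4), DifferentiableAt ℂ (Fk j i) z :=
    fun j i z hz => by
    obtain ⟨p, _, _, _, hd⟩ := h9 κ (μk j) (i + 0) (Fk j i) (hSM j).mu (hFk j i).pn
    exact hd.differentiableAt (hopen.mem_nhds (hmem z hz))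
  have hcontE : ∀ (i : ℕ) (d : ℂ → ℂ), Continuous d →
      Continuous fun z => (2 - z) ^ 0 * exp (((i + 0 : ℕ) : ℂ) * d z) := fun i d hd => by
    fun_prop
  -- recursion
  have hrec := ineq_rec (k := k) (F := F)
    (E := fun i z => (2 - z) ^ 0 * exp (((i + 0 : ℕ) : ℂ) * D i z)) (θ := θ)
    (hK.cont.mono (ineq_axis hφ)) hkd (fun i => (hF i).pn.cont.continuousOn) hFd
    (fun i => hcontE i (D i) (hF i).dcont)
    (fun i z => by simp [Complex.exp_ne_zero])
    (fun i z => by rw [(hF i).eq z, mul_assoc]) hθ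
  have hreck := fun j => ineq_rec (k := kk j) (F := Fk j)
    (E := fun i z => (2 - z) ^ 0 * exp (((i + 0 : ℕ) : ℂ) * Dk j i z)) (θ := θk j)
    (hkc j).continuousOn (hkkd j) (fun i => (hFk j i).pn.cont.continuousOn) (hFkd j)
    (fun i => hcontE i (Dk j i) (hFk j i).dcont)
    (fun i z => by simp [Complex.exp_ne_zero])
    (fun i z => by rw [(hFk j i).eq z, mul_assoc]) (hθk j)
  have hLk : ∀ m, Tendsto (fun j => LL m (kk j)) atTop (𝓝 (LL m k)) := fun m =>
    LL_tendsto (fun j => (hkc j).continuousOn) (hK.cont.mono hsphax) (hkconv _ hsph hsphax)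
  have hLF : ∀ m i, Tendsto (fun j => LL m (Fk j i)) atTop (𝓝 (LL m (F i))) := fun m i =>
    LL_tendsto (fun j => (hFk j i).pn.cont.continuousOn) (hF i).pn.cont.continuousOn
      (hFconv i _ hsph)
  have hθc : ∀ m, Tendsto (fun j => ((θk j m : ℝ) : ℂ)) atTop (𝓝 ((θ m : ℝ) : ℂ)) := by
    intro m
    induction m using Nat.strong_induction_on with
    | _ m ih =>
      rw [(hrec m).2]
      have : (fun j => ((θk j m : ℝ) : ℂ)) = fun j =>
          (LL m (kk j) - ∑ i ∈ Finset.range m, (θk j i : ℂ) * LL m (Fk j i)) / LL m (Fk j m) := by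
        funext j
        exact (hreck j m).2
      rw [this]
      refine Tendsto.div ?_ (hLF m m) (hrec m).1
      refine (hLk m).sub ?_
      refine tendsto_finsetSum _ fun i hi => ?_
      exact (ih i (Finset.mem_range.mp hi)).mul (hLF m i)
  -- pointwise limits
  intro m x x' hx hxx' hx'
  have hnot : ∀ y : ℝ, y ≤ α → ((y : ℂ)) ∈ (axis φ)ᶜ := fun y hy hy2 => by
    have := hα _ hy2
    rw [ofReal_re] at this
    linarith
  have hkp : ∀ y : ℝ, y ≤ α → Tendsto (fun j => kk j y) atTop (𝓝 (k y)) := fun y hy =>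
    (hkconv {(y : ℂ)} isCompact_singleton (singleton_subset_iff.mpr (hnot y hy))).tendsto_at
      (mem_singleton _)
  have hFp : ∀ (i : ℕ) (y : ℂ), Tendsto (fun j => Fk j i y) atTop (𝓝 (F i y)) := fun i y =>
    (hFconv i {y} isCompact_singleton).tendsto_at (mem_singleton _)
  have hgp : ∀ y : ℝ, y ≤ α →
      Tendsto (fun j => (kk j y - ∑ i ∈ Finset.range m, (θk j i : ℂ) * Fk j i y).re) atTop
        (𝓝 (k y - ∑ i ∈ Finset.range m, (θ i : ℂ) * F i y).re) := fun y hy => by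
    refine (Complex.continuous_re.tendsto _).comp ?_
    refine (hkp y hy).sub (tendsto_finsetSum _ fun i _ => ?_)
    exact (hθc i).mul (hFp i y)
  have hre : ∀ (u : ℕ → ℂ) (v : ℂ), Tendsto u atTop (𝓝 v) →
      Tendsto (fun j => (u j).re) atTop (𝓝 v.re) := fun u v huv =>
    (Complex.continuous_re.tendsto _).comp huv
  have hmain := fun j => h7 κ hκ0 hκ1 (μk j) (hSM j) φ (kk j) (Ak j) (Bk j) hφ hφ0 (hKk j) (hkc j)
    (Fk j) (Dk j) (hFk j) α hα (θk j) (hθk j) m x x' hx hxx' hx'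
  constructor
  · exact ge_of_tendsto' (hgp x (hxx'.trans hx')) fun j => (hmain j).1
  · exact le_of_tendsto_of_tendsto'
      ((hgp x (hxx'.trans hx')).mul (hre _ _ (hFp m x')))
      ((hre _ _ (hkp x' hx')).mul (hre _ _ (hFp m x))) fun j => (hmain j).2

end

end Cal
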