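import Pool.Agent.Lib.MP_4ea4c7_an.StmD

/-! # [CA G5] the inequality, smooth coefficients -/

open MeasureTheory Complex Metric Set Filter Topology
open scoped ComplexConjugate ENNReal NNReal

namespace Cal

noncomputable section

private lemma fmn_eq {μ : ℂ → ℝ} {i : ℕ} {F D : ℂ → ℂ} (h : FMN μ i 0 F D) (z : ℂ) :
    F z = (z + 2) ^ i * exp ((i : ℂ) * D z) := by
  have := h.eq z
  rw [pow_zero, mul_one, add_zero] at this
  exact this

/-- real values on the real axis -/
private lemma real_of_symm {f : ℂ → ℂ} (h : ∀ z, f (conj z) = conj (f z)) (x : ℝ) :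
    f x = (((f x).re : ℝ) : ℂ) := by
  have := h x
  rw [Complex.conj_ofReal] at this
  exact (Complex.conj_eq_iff_re.mp this.symm).symm

private lemma fmn_re {μ : ℂ → ℝ} {i : ℕ} {F D : ℂ → ℂ} (h : FMN μ i 0 F D) (x : ℝ) :
    (F x).re = (x + 2) ^ i * Real.exp (i * (D x).re) := by
  rw [fmn_eq h, real_of_symm h.dsymm x]
  have : ((x : ℂ) + 2) ^ i * exp ((i : ℂ) * (((D x).re : ℝ) : ℂ)) =
      (((x + 2) ^ i * Real.exp (i * (D x).re) : ℝ) : ℂ) := by
    push_cast
    rfl
  rw [this, Complex.ofReal_re, Complex.ofReal_re]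

private lemma fmn_pos {μ : ℂ → ℝ} {i : ℕ} {F D : ℂ → ℂ} (h : FMN μ i 0 F D) (x : ℝ) (hx : -2 < x) :
    0 < (F x).re := by
  rw [fmn_re h]
  have : 0 < x + 2 := by linarith
  positivity

private lemma fmn_O {μ : ℂ → ℝ} {i : ℕ} {F D : ℂ → ℂ} (h : FMN μ i 0 F D) :
    F =O[𝓝 (-2 : ℂ)] fun z => (z + 2) ^ i := by
  have h1 : (fun z => (z + 2) ^ i * exp ((i : ℂ) * D z)) =O[𝓝 (-2 : ℂ)]
      fun z => (z + 2) ^ i * (1 : ℂ) := by
    apply (Asymptotics.isBigO_refl _ _).mul
    have hc : Continuous (fun z => exp ((i : ℂ) * D z)) :=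
      Complex.continuous_exp.comp (continuous_const.mul h.dcont)
    exact (hc.tendsto (-2 : ℂ)).isBigO_one ℂ
  simp only [mul_one] at h1
  have e : F = fun z => (z + 2) ^ i * exp ((i : ℂ) * D z) := funext (fmn_eq h)
  rw [e]
  exact h1

theorem piece_ineqS (h1 : S_nev) (_h2 : S_ksb) : S_ineqS := by
  intro κ hκ0 hκ1 μ hμ φ k A B hφ hφ0 hk hkc F D hF α hα θ hθ
  -- the functions g_m
  set g : ℕ → ℂ → ℂ := fun m z => k z - ∑ i ∈ Finset.range m, (θ i : ℂ) * F i z with hg
  have hgm : ∀ m z, g (m + 1) z = g m z - (θ m : ℂ) * F m z := by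
    intro m z
    simp only [hg]
    rw [Finset.sum_range_succ]
    ring
  have hre : ∀ (m : ℕ) (ε : ℝ) (x : ℝ), (g m x - (ε : ℂ) * F m x).re =
      (g m x).re - ε * (F m x).re := by
    intro m ε x
    rw [Complex.sub_re, Complex.re_ofReal_mul]
  -- (1)
  have hnn : ∀ (m : ℕ) (x : ℝ), -2 < x → x ≤ α → 0 ≤ (g m x).re := by
    intro m x hx hxα
    refine (h1 κ hκ0 hκ1 μ hμ φ k A B hφ hφ0 hk hkc F D hF θ m 0 (g m) ?_ (hθ m) α hα).1 rfl x hx hxα
    intro z
    simp [hg]
  -- (2) monotone ratio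
  have hmono : ∀ (m : ℕ) (x x' : ℝ), -2 < x → x ≤ x' → x' ≤ α →
      (g m x).re * (F m x').re ≤ (g m x').re * (F m x).re := by
    intro m x x' hx hxx hx'
    by_contra hcon
    rw [not_le] at hcon
    have p1 := fmn_pos (hF m) x hx
    have p2 := fmn_pos (hF m) x' (lt_of_lt_of_le hx hxx)
    have hlt : (g m x').re / (F m x').re < (g m x).re / (F m x).re := by
      rw [div_lt_div_iff₀ p2 p1]
      exact hcon
    obtain ⟨ε, e1, e2⟩ := exists_between hlt
    rw [div_lt_iff₀ p2] at e1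
    rw [lt_div_iff₀ p1] at e2
    have hO : (fun z => g m z - (ε : ℂ) * F m z) =O[𝓝 (-2 : ℂ)] fun z => (z + 2) ^ m :=
      (hθ m).sub ((fmn_O (hF m)).const_mul_left _)
    have := (h1 κ hκ0 hκ1 μ hμ φ k A B hφ hφ0 hk hkc F D hF θ m ε
      (fun z => g m z - (ε : ℂ) * F m z) (fun z => rfl) hO α hα).2 x x' hx hxx hx' (by
        rw [hre]; linarith)
    rw [hre] at this
    linarith
  -- the limit of the ratio
  have hθ0 : -2 < α → ∀ m, 0 ≤ θ m := by
    intro hα2 m
    -- g_m x / F_m x → θ m as x → -2+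
    obtain ⟨C, hC⟩ := (hθ (m + 1)).bound
    have hreal : Tendsto (fun x : ℝ => (x : ℂ)) (𝓝[>] (-2 : ℝ)) (𝓝 (-2 : ℂ)) := by
      have : Tendsto (fun x : ℝ => (x : ℂ)) (𝓝 (-2 : ℝ)) (𝓝 (((-2 : ℝ)) : ℂ)) :=
        Complex.continuous_ofReal.tendsto _
      have h2 : (((-2 : ℝ)) : ℂ) = (-2 : ℂ) := by push_cast; rfl
      rw [h2] at this
      exact this.mono_left nhdsWithin_le_nhds
    have hev := hreal.eventually hC
    -- lower bound
    have hlow : ∀ᶠ x : ℝ in 𝓝[>] (-2 : ℝ),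
        - (C * (x + 2)) ≤ θ m * Real.exp (m * (D m x).re) := by
      have h3 : ∀ᶠ x : ℝ in 𝓝[>] (-2 : ℝ), x ≤ α :=
        (eventually_le_nhds hα2).filter_mono nhdsWithin_le_nhds
      filter_upwards [hev, h3, self_mem_nhdsWithin] with x q1 q2 q3
      have q3' : -2 < x := q3
      have hx2 : 0 < x + 2 := by linarith
      have q4 := hnn m x q3' q2
      have q5 : (g m x).re - θ m * (F m x).re ≤ C * (x + 2) ^ (m + 1) := by
        have a1 : (g (m + 1) x).re = (g m x).re - θ m * (F m x).re := by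
          rw [hgm, hre]
        rw [← a1]
        have a2 : ‖((x : ℂ) + 2) ^ (m + 1)‖ = (x + 2) ^ (m + 1) := by
          rw [norm_pow]
          have : (x : ℂ) + 2 = (((x + 2 : ℝ)) : ℂ) := by push_cast; rfl
          rw [this, Complex.norm_real, Real.norm_of_nonneg hx2.le]
        rw [a2] at q1
        exact (Complex.re_le_norm _).trans q1
      rw [fmn_re (hF m)] at q5
      have q6 : - (C * (x + 2) ^ (m + 1)) ≤
          θ m * ((x + 2) ^ m * Real.exp (m * (D m x).re)) := by linarith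
      have q7 : (x + 2) ^ m * (- (C * (x + 2))) ≤
          (x + 2) ^ m * (θ m * Real.exp (m * (D m x).re)) := by
        calc _ = - (C * (x + 2) ^ (m + 1)) := by rw [pow_succ]; ring
          _ ≤ _ := q6
          _ = _ := by ring
      exact le_of_mul_le_mul_left q7 (pow_pos hx2 m)
    have hl1 : Tendsto (fun x : ℝ => - (C * (x + 2))) (𝓝[>] (-2 : ℝ)) (𝓝 0) := by
      have : Continuous (fun x : ℝ => - (C * (x + 2))) := by fun_prop
      have h2 := this.tendsto (-2 : ℝ)
      have h3 : - (C * ((-2 : ℝ) + 2)) = 0 := by rw [neg_add_cancel, mul_zero, neg_zero]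
      rw [h3] at h2
      exact h2.mono_left nhdsWithin_le_nhds
    have hl2 : Tendsto (fun x : ℝ => θ m * Real.exp (m * (D m x).re)) (𝓝[>] (-2 : ℝ))
        (𝓝 (θ m * Real.exp (m * (D m (-2)).re))) := by
      have hc : ContinuousAt (fun z : ℂ => θ m * Real.exp (m * (D m z).re)) (-2) := by
        have hcd := (hF m).dcont
        fun_prop
      exact hc.tendsto.comp hreal
    have := le_of_tendsto_of_tendsto hl1 hl2 hlow
    exact nonneg_of_mul_nonneg_left this (Real.exp_pos _)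
  intro m x x' hx hxx hx'
  have hα2 : -2 < α := lt_of_lt_of_le (lt_of_lt_of_le hx hxx) hx'
  refine ⟨hnn m x hx (hxx.trans hx'), ?_⟩
  refine (hmono m x x' hx hxx hx').trans ?_
  apply mul_le_mul_of_nonneg_right _ (fmn_pos (hF m) x hx).le
  show (g m x').re ≤ (k x').re
  simp only [hg]
  rw [Complex.sub_re, Complex.re_sum]
  have : 0 ≤ ∑ i ∈ Finset.range m, ((θ i : ℂ) * F i x').re := by
    apply Finset.sum_nonneg
    intro i _
    rw [Complex.re_ofReal_mul]
    exact mul_nonneg (hθ0 hα2 i) (fmn_pos (hF i) x' (lt_of_lt_of_le hx hxx)).le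
  linarith

end

end Cal
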