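import Pool.Agent.Lib.MP_4ea4c7_an.StmD

/-!
# MP_4ea4c7_an, piece `S_interp` (helper68)
-/

open MeasureTheory Complex Metric Set Filter Topology
open scoped ComplexConjugate ENNReal NNReal

namespace Cal

noncomputable section

/-- product functions -/
private def pf (a b : ℝ → ℝ) (z : ℂ) : ℝ := a z.re * b z.im

private lemma pf_contDiff {a b : ℝ → ℝ} (ha : ContDiff ℝ (⊤ : ℕ∞) a) (hb : ContDiff ℝ (⊤ : ℕ∞) b) :
    ContDiff ℝ (⊤ : ℕ∞) (pf a b) :=
  (ha.comp Complex.reCLM.contDiff).mul (hb.comp Complex.imCLM.contDiff)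

private lemma pf_gr {a b : ℝ → ℝ} (z : ℂ) (ha : DifferentiableAt ℝ a z.re) (hb : DifferentiableAt ℝ b z.im) :
    gr (pf a b) z = ((deriv a z.re * b z.im : ℝ) : ℂ) + I * ((a z.re * deriv b z.im : ℝ) : ℂ) := by
  have h1 : HasFDerivAt (fun w : ℂ => a w.re) (deriv a z.re • Complex.reCLM) z := by
    exact HasDerivAt.comp_hasFDerivAt (h₂ := a) (f := Complex.reCLM) z ha.hasDerivAt Complex.reCLM.hasFDerivAt
  have h2 : HasFDerivAt (fun w : ℂ => b w.im) (deriv b z.im • Complex.imCLM) z := by
    exact HasDerivAt.comp_hasFDerivAt (h₂ := b) (f := Complex.imCLM) z hb.hasDerivAt Complex.imCLM.hasFDerivAt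
  have h3 : HasFDerivAt (pf a b) (a z.re • (deriv b z.im • Complex.imCLM) + b z.im • (deriv a z.re • Complex.reCLM)) z :=
    h1.mul h2
  unfold gr
  rw [h3.fderiv]
  simp
  ring

private lemma vol_strip (h : ℝ) :
    (volume : Measure ℂ) {z : ℂ | -1 ≤ z.re ∧ z.re ≤ 1 ∧ 0 ≤ z.im ∧ z.im ≤ h} ≤ ENNReal.ofReal (2 * h) := by
  have h1 := Complex.volume_preserving_equiv_real_prod.measure_preimage
    (s := Icc (-1 : ℝ) 1 ×ˢ Icc (0 : ℝ) h) (measurableSet_Icc.prod measurableSet_Icc).nullMeasurableSet
  have h2 : {z : ℂ | -1 ≤ z.re ∧ z.re ≤ 1 ∧ 0 ≤ z.im ∧ z.im ≤ h} =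
      Complex.measurableEquivRealProd ⁻¹' (Icc (-1 : ℝ) 1 ×ˢ Icc (0 : ℝ) h) := by
    ext z
    simp only [Complex.measurableEquivRealProd_apply, mem_preimage, mem_prod, mem_Icc, mem_ofPred_eq]
    tauto
  rw [h2, h1, Measure.volume_eq_prod, Measure.prod_prod, Real.volume_Icc, Real.volume_Icc,
    ← ENNReal.ofReal_mul (by norm_num)]
  apply ENNReal.ofReal_le_ofReal
  ring_nf
  rfl

private lemma bdd_of_cont_supp {g : ℝ → ℝ} (hg : Continuous g) (hs : ∀ x, x < 0 → g x = 0) (hs' : ∀ x, 1 < x → g x = 0) :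
    ∃ C : ℝ, 0 ≤ C ∧ ∀ x, |g x| ≤ C := by
  obtain ⟨C, hC⟩ := isCompact_Icc.exists_bound_of_continuousOn (s := Icc (0 : ℝ) 1) hg.continuousOn
  refine ⟨max C 0, le_max_right _ _, fun x => ?_⟩
  by_cases h0 : x < 0
  · rw [hs x h0]; simp
  by_cases h1 : 1 < x
  · rw [hs' x h1]; simp
  · exact (hC x ⟨not_lt.1 h0, not_lt.1 h1⟩).trans (le_max_left _ _)

private lemma dS_zero {x : ℝ} (hx : x ≤ 0 ∨ 1 ≤ x) : deriv Real.smoothTransition x = 0 := by
  rcases hx with hx | hx
  · apply IsLocalMin.deriv_eq_zero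
    filter_upwards with y
    rw [Real.smoothTransition.zero_of_nonpos hx]
    exact Real.smoothTransition.nonneg y
  · apply IsLocalMax.deriv_eq_zero
    filter_upwards with y
    rw [Real.smoothTransition.one_of_one_le hx]
    exact Real.smoothTransition.le_one y

theorem piece_interp : S_interp := by
  intro φ hφ
  obtain ⟨⟨hφs, hφc, hφt⟩, -⟩ := hφ
  set f : ℝ → ℝ := fun x => φ (x : ℂ) with hf
  have fs : ContDiff ℝ (⊤ : ℕ∞) f := hφs.comp Complex.ofRealCLM.contDiff
  have f0 : ∀ x : ℝ, 1 ≤ |x| → f x = 0 := by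
    intro x hx
    have h1 : (x : ℂ) ∉ tsupport φ := by
      intro h
      have := hφt h
      rw [mem_ball_zero_iff, Complex.norm_real, Real.norm_eq_abs] at this
      linarith
    exact image_eq_zero_of_notMem_tsupport (f := φ) h1
  have df0 : ∀ x : ℝ, 1 < |x| → deriv f x = 0 := by
    intro x hx
    have : f =ᶠ[𝓝 x] fun _ => 0 := by
      filter_upwards [continuous_abs.continuousAt.eventually (lt_mem_nhds hx)] with y hy using f0 y hy.le
    rw [this.deriv_eq, deriv_const]
  have dfc : Continuous (deriv f) := fs.continuous_deriv (by norm_cast)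
  obtain ⟨M, hM0, hM⟩ : ∃ M : ℝ, 0 ≤ M ∧ ∀ x, |deriv f x| ≤ M := by
    obtain ⟨C, hC⟩ := isCompact_Icc.exists_bound_of_continuousOn (s := Icc (-1 : ℝ) 1) dfc.continuousOn
    refine ⟨max C 0, le_max_right _ _, fun x => ?_⟩
    by_cases h1 : 1 < |x|
    · rw [df0 x h1]; simp
    · exact (hC x (abs_le.1 (not_lt.1 h1))).trans (le_max_left _ _)
  have fLip : ∀ x y : ℝ, |f y - f x| ≤ M * |y - x| := by
    intro x y
    exact Convex.norm_image_sub_le_of_norm_deriv_le (s := univ) (fun x _ => (fs.differentiable (by simp)).differentiableAt)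
      (fun x _ => hM x) convex_univ (mem_univ _) (mem_univ _)
  have Ss : ContDiff ℝ (⊤ : ℕ∞) Real.smoothTransition := Real.smoothTransition.contDiff
  obtain ⟨CS, hCS0, hCS⟩ : ∃ C : ℝ, 0 ≤ C ∧ ∀ x, |deriv Real.smoothTransition x| ≤ C :=
    bdd_of_cont_supp (Ss.continuous_deriv (by norm_cast)) (fun x hx => dS_zero (Or.inl hx.le)) (fun x hx => dS_zero (Or.inr hx.le))
  let ψ : ContDiffBump (0 : ℝ) := ⟨2, 3, by norm_num, by norm_num⟩
  let χ : ContDiffBump (0 : ℝ) := ⟨1 / 2, 1, by norm_num, by norm_num⟩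
  have χs : ContDiff ℝ (⊤ : ℕ∞) (χ : ℝ → ℝ) := χ.contDiff
  have ψs : ContDiff ℝ (⊤ : ℕ∞) (ψ : ℝ → ℝ) := ψ.contDiff
  have χ0 : ∀ x : ℝ, 1 ≤ |x| → χ x = 0 := by
    intro x hx
    apply χ.zero_of_le_dist
    simpa [Real.dist_eq] using hx
  have dχ0 : ∀ x : ℝ, 1 < |x| → deriv χ x = 0 := by
    intro x hx
    have : (χ : ℝ → ℝ) =ᶠ[𝓝 x] fun _ => 0 := by
      filter_upwards [continuous_abs.continuousAt.eventually (lt_mem_nhds hx)] with y hy using χ0 y hy.le
    rw [this.deriv_eq, deriv_const]
  obtain ⟨Cχ, hCχ0, hCχ⟩ : ∃ C : ℝ, 0 ≤ C ∧ ∀ x, |deriv χ x| ≤ C := by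
    obtain ⟨C, hC⟩ := isCompact_Icc.exists_bound_of_continuousOn (s := Icc (-1 : ℝ) 1)
      (χs.continuous_deriv (by norm_cast)).continuousOn
    refine ⟨max C 0, le_max_right _ _, fun x => ?_⟩
    by_cases h1 : 1 < |x|
    · rw [dχ0 x h1]; simp
    · exact (hC x (abs_le.1 (not_lt.1 h1))).trans (le_max_left _ _)
  -- the constant
  set D : ℝ := M * (1 + CS) + 2 * M * Cχ with hD
  have hD0 : 0 ≤ D := by positivity
  refine ⟨2 * M + 2 * D, by positivity, fun K hK => ?_⟩
  have hK0 : (0 : ℝ) < K := by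
    have : 0 < K := by omega
    exact_mod_cast this
  set h : ℝ := 2 / (K : ℝ) with hh
  have hh0 : 0 < h := by positivity
  have hhK : h * K = 2 := by rw [hh]; field_simp
  -- increments
  set g : ℕ → ℝ := fun k => f (-1 + (k : ℝ) * h) with hg
  have gd : ∀ k : ℕ, |g (k + 1) - g k| ≤ M * h := by
    intro k
    have := fLip (-1 + (k : ℝ) * h) (-1 + ((k + 1 : ℕ) : ℝ) * h)
    have e : |(-1 + ((k + 1 : ℕ) : ℝ) * h) - (-1 + (k : ℝ) * h)| = h := by
      push_cast
      rw [show (-1 + ((k : ℝ) + 1) * h) - (-1 + (k : ℝ) * h) = h by ring, abs_of_pos hh0]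
    rw [e] at this
    exact this
  have g0 : g 0 = 0 := by
    simp only [hg]
    apply f0
    simp
  have e1 : ∀ k : ℕ, φ ((-1 + ((k : ℝ) + 1) * h : ℝ) : ℂ) = g (k + 1) := by
    intro k
    simp only [hg, hf]
    push_cast
    rfl
  have e2 : ∀ k : ℕ, φ ((-1 + (k : ℝ) * h : ℝ) : ℂ) = g k := by
    intro k
    simp only [hg, hf]
  simp only [e1, e2]
  refine ⟨fun k _ => ?_, ?_⟩
  · refine (gd k).trans ?_
    rw [hh, mul_div_assoc', div_le_div_iff_of_pos_right hK0]
    linarith
  -- the error function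
  set e : ℝ → ℝ := fun x => f x - ∑ k ∈ Finset.range K, (g (k + 1) - g k) * Real.smoothTransition ((x - (-1 + k * h)) / h) with he
  have es : ContDiff ℝ (⊤ : ℕ∞) e := by
    apply fs.sub
    apply ContDiff.sum
    intro k _
    apply contDiff_const.mul
    apply Ss.comp
    fun_prop
  have edr : ∀ x, deriv e x = deriv f x - ∑ k ∈ Finset.range K, (g (k + 1) - g k) * (deriv Real.smoothTransition ((x - (-1 + k * h)) / h) / h) := by
    intro x
    have h1 : HasDerivAt e (deriv f x - ∑ k ∈ Finset.range K, (g (k + 1) - g k) * (deriv Real.smoothTransition ((x - (-1 + k * h)) / h) * (1 / h))) x := by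
      apply HasDerivAt.sub (fs.differentiable (by simp)).differentiableAt.hasDerivAt
      apply HasDerivAt.fun_sum
      intro k _
      apply HasDerivAt.const_mul
      apply HasDerivAt.comp x (h₂ := Real.smoothTransition) (h := fun x => (x - (-1 + k * h)) / h)
      · exact (Ss.differentiable (by simp)).differentiableAt.hasDerivAt
      · exact ((hasDerivAt_id x).sub_const _).div_const _
    rw [h1.deriv]
    simp [div_eq_mul_inv]
  -- index
  have idx : ∀ x : ℝ, -1 < x → x < 1 → ∃ i : ℕ, i < K ∧ (-1 + (i : ℝ) * h) ≤ x ∧ x < -1 + ((i : ℝ) + 1) * h := by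
    intro x hx1 hx2
    refine ⟨⌊(x + 1) / h⌋₊, ?_, ?_, ?_⟩
    · rw [Nat.floor_lt (by apply div_nonneg <;> linarith), div_lt_iff₀ hh0]
      linarith
    · have := Nat.floor_le (a := (x + 1) / h) (by apply div_nonneg <;> linarith)
      rw [le_div_iff₀ hh0] at this
      linarith
    · have := Nat.lt_floor_add_one ((x + 1) / h)
      rw [div_lt_iff₀ hh0] at this
      linarith
  have lowk : ∀ (x : ℝ) (i k : ℕ), (-1 + (i : ℝ) * h) ≤ x → k < i → 1 ≤ (x - (-1 + k * h)) / h := by
    intro x i k h1 h2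
    rw [le_div_iff₀ hh0]
    have : (k : ℝ) + 1 ≤ i := by exact_mod_cast h2
    nlinarith
  have highk : ∀ (x : ℝ) (i k : ℕ), x < (-1 + ((i : ℝ) + 1) * h) → i < k → (x - (-1 + k * h)) / h ≤ 0 := by
    intro x i k h1 h2
    apply div_nonpos_of_nonpos_of_nonneg _ hh0.le
    have : (i : ℝ) + 1 ≤ k := by exact_mod_cast h2
    nlinarith
  have eb : ∀ x : ℝ, -1 < x → x < 1 → |e x| ≤ 2 * M * h := by
    intro x hx1 hx2
    obtain ⟨i, hiK, hi1, hi2⟩ := idx x hx1 hx2
    have s1 : ∑ k ∈ Finset.range K, (g (k + 1) - g k) * Real.smoothTransition ((x - (-1 + k * h)) / h) =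
        g i + (g (i + 1) - g i) * Real.smoothTransition ((x - (-1 + i * h)) / h) := by
      rw [← Finset.sum_subset (s₁ := Finset.range (i + 1)) (Finset.range_subset_range.2 hiK)]
      · rw [Finset.sum_range_succ]
        congr 1
        rw [Finset.sum_congr rfl (g := fun k => g (k + 1) - g k), Finset.sum_range_sub, g0, sub_zero]
        intro k hk
        rw [Real.smoothTransition.one_of_one_le (lowk x i k hi1 (Finset.mem_range.1 hk)), mul_one]
      · intro k _ hk
        rw [Finset.mem_range, not_lt] at hk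
        rw [Real.smoothTransition.zero_of_nonpos (highk x i k hi2 hk), mul_zero]
    have s2 : e x = (f x - g i) - (g (i + 1) - g i) * Real.smoothTransition ((x - (-1 + i * h)) / h) := by
      simp only [he]
      rw [s1]
      ring
    rw [s2]
    have s3 : |f x - g i| ≤ M * h := by
      refine (fLip (-1 + (i : ℝ) * h) x).trans ?_
      apply mul_le_mul_of_nonneg_left _ hM0
      rw [abs_of_nonneg (by linarith)]
      linarith
    have s4 : |(g (i + 1) - g i) * Real.smoothTransition ((x - (-1 + i * h)) / h)| ≤ M * h := by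
      rw [abs_mul, abs_of_nonneg (Real.smoothTransition.nonneg _)]
      calc |g (i + 1) - g i| * Real.smoothTransition ((x - (-1 + i * h)) / h) ≤ |g (i + 1) - g i| * 1 :=
            mul_le_mul_of_nonneg_left (Real.smoothTransition.le_one _) (abs_nonneg _)
        _ ≤ M * h := by rw [mul_one]; exact gd i
    calc _ ≤ |f x - g i| + |(g (i + 1) - g i) * Real.smoothTransition ((x - (-1 + i * h)) / h)| := abs_sub _ _
      _ ≤ 2 * M * h := by linarith
  have edb : ∀ x : ℝ, -1 < x → x < 1 → |deriv e x| ≤ M * (1 + CS) := by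
    intro x hx1 hx2
    obtain ⟨i, hiK, hi1, hi2⟩ := idx x hx1 hx2
    have s1 : ∑ k ∈ Finset.range K, (g (k + 1) - g k) * (deriv Real.smoothTransition ((x - (-1 + k * h)) / h) / h) =
        (g (i + 1) - g i) * (deriv Real.smoothTransition ((x - (-1 + i * h)) / h) / h) := by
      apply Finset.sum_eq_single
      · intro k _ hk
        rw [dS_zero, zero_div, mul_zero]
        rcases lt_or_gt_of_ne hk with h' | h'
        · right; exact lowk x i k hi1 h'
        · left; exact highk x i k hi2 h'
      · intro hn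
        exact absurd (Finset.mem_range.2 hiK) hn
    rw [edr, s1]
    have s2 : |(g (i + 1) - g i) * (deriv Real.smoothTransition ((x - (-1 + i * h)) / h) / h)| ≤ M * CS := by
      rw [abs_mul, abs_div, abs_of_pos hh0]
      calc _ ≤ (M * h) * (CS / h) := by
            apply mul_le_mul (gd i) _ (by positivity) (by positivity)
            exact div_le_div_of_nonneg_right (hCS _) hh0.le
        _ = M * CS := by field_simp
    calc _ ≤ |deriv f x| + |(g (i + 1) - g i) * (deriv Real.smoothTransition ((x - (-1 + i * h)) / h) / h)| := abs_sub _ _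
      _ ≤ M * (1 + CS) := by have := hM x; linarith
  -- the function
  set a : ℝ → ℝ := fun x => e x * ψ x with ha
  set b : ℝ → ℝ := fun y => χ (y / h) with hb
  have as : ContDiff ℝ (⊤ : ℕ∞) a := es.mul ψs
  have bs : ContDiff ℝ (⊤ : ℕ∞) b := χs.comp (contDiff_id.div_const h)
  have ψ1 : ∀ x : ℝ, |x| ≤ 2 → ψ x = 1 := by
    intro x hx
    apply ψ.one_of_mem_closedBall
    simpa [Real.dist_eq] using hx
  refine ⟨pf a b, ⟨pf_contDiff as bs, ?_, subset_univ _⟩, ?_, ?_⟩
  · -- compact support
    apply HasCompactSupport.intro (K := Icc (-3 : ℝ) 3 ×ℂ Icc (-h) h) (isCompact_Icc.reProdIm isCompact_Icc)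
    intro z hz
    rw [Complex.mem_reProdIm, not_and_or] at hz
    rcases hz with hz | hz
    · have : ψ z.re = 0 := by
        apply ψ.zero_of_le_dist
        rw [mem_Icc, ← abs_le, not_le] at hz
        simpa [Real.dist_eq] using hz.le
      simp only [pf, ha, this, mul_zero, zero_mul]
    · have : χ (z.im / h) = 0 := by
        apply χ0
        rw [mem_Icc, ← abs_le, not_le] at hz
        rw [abs_div, abs_of_pos hh0, le_div_iff₀ hh0, one_mul]
        exact hz.le
      simp only [pf, hb, this, mul_zero]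
  · intro x hx
    have h1 : χ (0 : ℝ) = 1 := by
      apply χ.one_of_mem_closedBall
      simp
      positivity
    simp only [pf, ha, hb, ofReal_re, ofReal_im, zero_div, h1, mul_one]
    rw [ψ1 x (by linarith), mul_one]
  · -- the energy
    have key : ∀ z ∈ HB, gr (pf a b) z = {z : ℂ | -1 ≤ z.re ∧ z.re ≤ 1 ∧ 0 ≤ z.im ∧ z.im ≤ h}.indicator (gr (pf a b)) z := by
      intro z hz
      by_cases hz' : z ∈ {z : ℂ | -1 ≤ z.re ∧ z.re ≤ 1 ∧ 0 ≤ z.im ∧ z.im ≤ h}
      · rw [indicator_of_mem hz']
      · rw [indicator_of_notMem hz']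
        have hz1 := hz.1
        have hz2 := hz.2
        have hre := abs_le.1 ((Complex.abs_re_le_norm z).trans hz1.le)
        have him : h < z.im := by
          by_contra hc
          exact hz' ⟨hre.1, hre.2, hz2.le, not_lt.1 hc⟩
        have h1 : 1 < |z.im / h| := by
          rw [abs_div, abs_of_pos hh0, lt_div_iff₀ hh0, one_mul, abs_of_pos hz2]
          exact him
        have h2 : b z.im = 0 := χ0 _ h1.le
        have h3 : deriv b z.im = 0 := by
          have : b =ᶠ[𝓝 z.im] fun _ => 0 := by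
            have hc : ContinuousAt (fun y : ℝ => |y / h|) z.im := by fun_prop
            filter_upwards [hc.eventually (lt_mem_nhds h1)] with y hy using χ0 _ hy.le
          rw [this.deriv_eq, deriv_const]
        rw [pf_gr z (as.differentiable (by simp)).differentiableAt (bs.differentiable (by simp)).differentiableAt, h2, h3]
        simp
    have bound : ∀ z ∈ HB, ‖gr (pf a b) z‖ ≤ D := by
      intro z hz
      have hz1 := hz.1
      have hz2 := hz.2
      have hre := abs_lt.1 ((Complex.abs_re_le_norm z).trans_lt hz1)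
      rw [pf_gr z (as.differentiable (by simp)).differentiableAt (bs.differentiable (by simp)).differentiableAt]
      have h1 : a =ᶠ[𝓝 z.re] e := by
        have : {x : ℝ | |x| < 2} ∈ 𝓝 z.re := by
          apply (isOpen_lt continuous_abs continuous_const).mem_nhds
          simp only [mem_ofPred_eq, abs_lt]
          constructor <;> linarith [hre.1, hre.2]
        filter_upwards [this] with y hy
        simp only [ha]
        rw [ψ1 y hy.le, mul_one]
      rw [h1.deriv_eq, h1.eq_of_nhds]
      have h2 : deriv b z.im = deriv χ (z.im / h) / h := by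
        have : HasDerivAt b (deriv χ (z.im / h) * (1 / h)) z.im := by
          apply HasDerivAt.comp z.im (h₂ := χ) (h := fun y : ℝ => y / h)
          · exact (χs.differentiable (by simp)).differentiableAt.hasDerivAt
          · exact (hasDerivAt_id _).div_const _
        rw [this.deriv]
        ring
      rw [h2]
      have h3 : |deriv e z.re * b z.im| ≤ M * (1 + CS) := by
        rw [abs_mul]
        calc _ ≤ (M * (1 + CS)) * 1 := by
              apply mul_le_mul (edb _ hre.1 hre.2) _ (abs_nonneg _) (by positivity)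
              rw [abs_of_nonneg (show 0 ≤ b z.im from χ.nonneg)]
              exact χ.le_one
          _ = _ := mul_one _
      have h4 : |e z.re * (deriv χ (z.im / h) / h)| ≤ 2 * M * Cχ := by
        rw [abs_mul, abs_div, abs_of_pos hh0]
        calc _ ≤ (2 * M * h) * (Cχ / h) := by
              apply mul_le_mul (eb _ hre.1 hre.2) _ (by positivity) (by positivity)
              exact div_le_div_of_nonneg_right (hCχ _) hh0.le
          _ = 2 * M * Cχ := by field_simp
      calc _ ≤ ‖((deriv e z.re * b z.im : ℝ) : ℂ)‖ + ‖I * ((e z.re * (deriv χ (z.im / h) / h) : ℝ) : ℂ)‖ := norm_add_le _ _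
        _ = |deriv e z.re * b z.im| + |e z.re * (deriv χ (z.im / h) / h)| := by
            rw [norm_mul, Complex.norm_I, one_mul, Complex.norm_real, Complex.norm_real, Real.norm_eq_abs, Real.norm_eq_abs]
        _ ≤ D := by linarith
    have hHB : MeasurableSet HB := by
      apply MeasurableSet.inter
      · exact measurableSet_lt continuous_norm.measurable measurable_const
      · exact measurableSet_lt measurable_const Complex.continuous_im.measurable
    set T : Set ℂ := {z : ℂ | -1 ≤ z.re ∧ z.re ≤ 1 ∧ 0 ≤ z.im ∧ z.im ≤ h} with hT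
    have hTm : MeasurableSet T := by
      have : T = Complex.re ⁻¹' (Icc (-1) 1) ∩ Complex.im ⁻¹' (Icc 0 h) := by
        ext z; simp [hT, and_assoc]
      rw [this]
      exact (Complex.measurable_re measurableSet_Icc).inter (Complex.measurable_im measurableSet_Icc)
    have n1 : eLpNorm (gr (pf a b)) 2 (volume.restrict HB) ≤ ENNReal.ofReal D * ENNReal.ofReal (2 * h) ^ (1 / (2 : ℝ)) := by
      calc eLpNorm (gr (pf a b)) 2 (volume.restrict HB) ≤ eLpNorm (T.indicator fun _ => (D : ℝ)) 2 (volume.restrict HB) := by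
            apply eLpNorm_mono_ae
            rw [ae_restrict_iff' hHB]
            filter_upwards with z hz
            rw [key z hz]
            by_cases hzT : z ∈ T
            · rw [indicator_of_mem hzT, indicator_of_mem hzT, Real.norm_eq_abs, abs_of_nonneg hD0]
              exact bound z hz
            · rw [indicator_of_notMem hzT, indicator_of_notMem hzT]
              simp
        _ ≤ eLpNorm (T.indicator fun _ => (D : ℝ)) 2 volume := eLpNorm_mono_measure _ Measure.restrict_le_self
        _ = ‖D‖ₑ * (volume T) ^ (1 / (2 : ℝ)) := by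
            rw [eLpNorm_indicator_const hTm (by norm_num) (by norm_num)]
            simp
        _ ≤ _ := by
            gcongr
            · rw [Real.enorm_eq_ofReal hD0]
            · exact vol_strip h
    have n2 : (ENNReal.ofReal D * ENNReal.ofReal (2 * h) ^ (1 / (2 : ℝ))).toReal = D * Real.sqrt (2 * h) := by
      rw [ENNReal.toReal_mul, ENNReal.toReal_ofReal hD0, ← ENNReal.toReal_rpow, ENNReal.toReal_ofReal (by positivity), Real.sqrt_eq_rpow]
    have n3 : (eLpNorm (gr (pf a b)) 2 (volume.restrict HB)).toReal ≤ D * Real.sqrt (2 * h) := by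
      rw [← n2]
      apply ENNReal.toReal_mono _ n1
      exact ENNReal.mul_ne_top ENNReal.ofReal_ne_top (ENNReal.rpow_ne_top_of_nonneg (by norm_num) ENNReal.ofReal_ne_top)
    refine n3.trans ?_
    have n4 : Real.sqrt (2 * h) = 2 / Real.sqrt K := by
      rw [hh, show 2 * (2 / (K : ℝ)) = 2 ^ 2 / K by ring, Real.sqrt_div (by norm_num), Real.sqrt_sq (by norm_num)]
    rw [n4, mul_div_assoc']
    apply div_le_div_of_nonneg_right _ (Real.sqrt_nonneg _)
    nlinarith

end

end Cal
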