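import Pool.Agent.Lib.MP_4ea4c7_an.StmF

/-!
MP_4ea4c7_an, piece M4: the composed map.
-/

open MeasureTheory Complex Metric Set Filter Topology
open scoped ComplexConjugate ENNReal NNReal

namespace Cal

theorem piece_jcb (h1 : S_psi0) (h2 : S_jtop) : S_jcb := by
  intro Ω ψ hψ
  obtain ⟨hcl, hop, ⟨W, hW, hWs, hWd⟩, hinj, himg, himgc, -, -⟩ := h1
  obtain ⟨-, -, hclΩ, -⟩ := h2 Ω ψ hψ
  have hsub : HB ⊆ closure HB := subset_closure
  have hm : MapsTo psi0 HB (ball 0 1) := fun z hz => himg ▸ mem_image_of_mem _ hz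
  have hmc : MapsTo psi0 (closure HB) (closedBall 0 1) := fun z hz =>
    himgc ▸ mem_image_of_mem _ hz
  have hd : DifferentiableOn ℂ psi0 (closure HB) := hWd.mono hWs
  have himg2 : (fun z => ψ (psi0 z)) '' HB = Ω := by
    rw [← hψ.img, ← himg, image_image]
  have himg3 : (fun z => ψ (psi0 z)) '' closure HB = closure Ω := by
    rw [hclΩ, ← himgc, image_image]
  have hinj2 : InjOn (fun z => ψ (psi0 z)) (closure HB) := by
    intro z hz w hw h
    exact hinj hz hw (hψ.inj (hmc hz) (hmc hw) h)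
  refine ⟨⟨hop, ?_, hinj2.mono hsub, himg2⟩, ⟨isOpen_ball, hψ.hol,
    hψ.inj.mono ball_subset_closedBall, hψ.img⟩, ⟨hop, hd.mono hsub, hinj.mono hsub, himg⟩,
    ?_, hinj2, himg3⟩
  · exact hψ.hol.comp (hd.mono hsub) hm
  · exact hψ.cont.comp hd.continuousOn hmc

end Cal
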