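import Pool.Agent.Lib.MP_4ea4c7_an.StmF

/-!
# [CA N2] Forms on a Jordan domain
-/

open MeasureTheory Complex Metric Set Filter Topology
open scoped ComplexConjugate ENNReal NNReal

namespace Cal

open LocalCalderon

noncomputable section

private lemma jform_gr_cont {φ : ℂ → ℝ} (h : RTF univ φ) : Continuous (gr φ) := by
  have h1 : Continuous (fderiv ℝ φ) := h.1.continuous_fderiv (by simp)
  have h2 : Continuous fun z => fderiv ℝ φ z 1 := h1.clm_apply continuous_const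
  have h3 : Continuous fun z => fderiv ℝ φ z I := h1.clm_apply continuous_const
  unfold gr
  exact (continuous_ofReal.comp h2).add (continuous_const.mul (continuous_ofReal.comp h3))

private lemma jform_gr_supp {φ : ℂ → ℝ} (h : RTF univ φ) : HasCompactSupport (gr φ) := by
  have h1 : HasCompactSupport (fderiv ℝ φ) := h.2.1.fderiv (𝕜 := ℝ)
  refine h1.mono ?_
  intro z hz
  rw [Function.mem_support] at hz ⊢
  intro h0
  apply hz
  simp [gr, h0]

private lemma jform_gr_mem {φ : ℂ → ℝ} (h : RTF univ φ) : MemLp (gr φ) 2 volume :=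
  (jform_gr_cont h).memLp_of_hasCompactSupport (jform_gr_supp h)

private lemma jform_cond {κ : ℝ} (h0 : 0 ≤ κ) (h1 : κ < 1) {μ : ℂ → ℝ} (hμ : Mu κ 1 μ) :
    Cond ((1 - κ) / (1 + κ)) ((1 + κ) / (1 - κ)) (gam μ) := by
  have hb : ∀ z, -κ ≤ μ z ∧ μ z ≤ κ := fun z => abs_le.1 (hμ.bd z)
  refine ⟨?_, ?_, ?_⟩
  · unfold gam
    exact (measurable_const.add hμ.meas).div (measurable_const.sub hμ.meas)
  · intro z
    obtain ⟨ha, hc⟩ := hb z
    unfold gam
    rw [div_le_div_iff₀ (by linarith) (by linarith)]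
    nlinarith
  · intro z
    obtain ⟨ha, hc⟩ := hb z
    unfold gam
    rw [div_le_div_iff₀ (by linarith) (by linarith)]
    nlinarith

private lemma jform_HB_open : IsOpen HB := by
  have : HB = {z : ℂ | ‖z‖ < 1} ∩ {z : ℂ | 0 < z.im} := rfl
  rw [this]
  exact (isOpen_lt continuous_norm continuous_const).inter (isOpen_lt continuous_const continuous_im)

private lemma jform_small {x K a : ℝ} (hK : 0 ≤ K) (ha : 0 ≤ a)
    (h : ∀ ε : ℝ, 0 < ε → |x| ≤ K * ε * a) : x = 0 := by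
  have h2 : |x| ≤ 0 := by
    refine le_of_forall_pos_le_add fun δ hδ => ?_
    have hpos : 0 < K * a + 1 := by positivity
    have h3 := h (δ / (K * a + 1)) (by positivity)
    have h4 : K * (δ / (K * a + 1)) * a ≤ δ := by
      have : K * (δ / (K * a + 1)) * a = δ * ((K * a) / (K * a + 1)) := by ring
      rw [this]
      have h5 : (K * a) / (K * a + 1) ≤ 1 := by
        rw [div_le_one hpos]; linarith
      calc δ * ((K * a) / (K * a + 1)) ≤ δ * 1 := by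
            exact mul_le_mul_of_nonneg_left h5 hδ.le
        _ = δ := mul_one δ
    linarith
  exact abs_eq_zero.1 (le_antisymm h2 (abs_nonneg x))

theorem piece_jform (h1 : S_muof) (h2 : S_oct) (h3 : S_cbeq) (h4 : S_coreX) (h5 : S_dens2)
    (h6 : S_bb) (h7 : S_cv) (h8 : S_h1) (h9 : S_jcb) (_h10 : S_psi0) : S_jform := by
  intro c C γ₁ γ₂ Ω ψ O hc hγ₁ hγ₂ hJP hO hOm hB u v hu hv
  obtain ⟨hCB, -, -, hcont, -, -⟩ := h9 Ω ψ hJP
  set Ψ : ℂ → ℂ := fun z => ψ (psi0 z) with hΨ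
  have hcontHB : ContinuousOn Ψ HB := hcont.mono subset_closure
  obtain ⟨κ, hκ0, hκ1, hκ⟩ := h1 c C hc
  obtain ⟨hμ₁, g1⟩ := hκ γ₁ hγ₁ Ψ hcontHB
  obtain ⟨hμ₂, g2⟩ := hκ γ₂ hγ₂ Ψ hcontHB
  set μ₁ := muOf Ψ γ₁ with hm1
  set μ₂ := muOf Ψ γ₂ with hm2
  have aeOf : ∀ {f g : ℂ → ℝ}, (∀ z ∈ HB, f z = g z) → f =ᵐ[volume.restrict HB] g := fun h =>
    (ae_restrict_iff' jform_HB_open.measurableSet).2 (Eventually.of_forall h)
  have a1 : (fun z => γ₁ (Ψ z)) =ᵐ[volume.restrict HB] gam μ₁ := aeOf fun z hz => (g1 z hz).symm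
  have a2 : (fun z => γ₂ (Ψ z)) =ᵐ[volume.restrict HB] gam μ₂ := aeOf fun z hz => (g2 z hz).symm
  have hyp : HYP μ₁ μ₂ := by
    intro Φ G Φ' H hΦ hΦ'
    obtain ⟨p, p1, p2, p3⟩ := h2 Ω ψ O hJP hO hOm Φ G hΦ
    obtain ⟨q, q1, q2, q3⟩ := h2 Ω ψ O hJP hO hOm Φ' H hΦ'
    have b1 := hB p q p1 p2 q1 q2
    have b2 := (h3.1 HB Ω Ψ hCB γ₁ γ₂ (wgrad Ω p) (wgrad Ω q)).1 b1
    exact (h3.2 HB _ _ _ _ _ _ _ _ a1 a2 p3 q3).1 b2
  have hcore := h4 κ hκ0 hκ1 μ₁ μ₂ hμ₁ hμ₂ hyp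
  have hc' : 0 < (1 - κ) / (1 + κ) := by
    apply div_pos <;> linarith
  obtain ⟨hadd, _, hsymm, ⟨K, hK0, hK⟩, _, hBeq, hae⟩ :=
    h6 HB ((1 - κ) / (1 + κ)) ((1 + κ) / (1 - κ)) (gam μ₁) (gam μ₂) jform_HB_open hc'
      (jform_cond hκ0 hκ1 hμ₁) (jform_cond hκ0 hκ1 hμ₂)
  have memR : ∀ {φ : ℂ → ℝ}, RTF univ φ → MemLp (gr φ) 2 (volume.restrict HB) :=
    fun h => (jform_gr_mem h).restrict _
  have mP : MemLp (pull Ψ (wgrad Ω u)) 2 (volume.restrict HB) :=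
    ((h7 HB Ω Ψ hCB).1 (wgrad Ω u)).1 (h8.1 Ω u hu).1
  have mQ : MemLp (pull Ψ (wgrad Ω v)) 2 (volume.restrict HB) :=
    ((h7 HB Ω Ψ hCB).1 (wgrad Ω v)).1 (h8.1 Ω v hv).1
  set P := pull Ψ (wgrad Ω u) with hP
  set Q := pull Ψ (wgrad Ω v) with hQ
  -- additivity in the second variable
  have hadd2 : ∀ G H H', MemLp G 2 (volume.restrict HB) → MemLp H 2 (volume.restrict HB) →
      MemLp H' 2 (volume.restrict HB) →
      bb HB (gam μ₁) (gam μ₂) G (fun z => H z + H' z) =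
        bb HB (gam μ₁) (gam μ₂) G H + bb HB (gam μ₁) (gam μ₂) G H' := by
    intro G H H' hG hH hH'
    rw [hsymm G (fun z => H z + H' z) hG (hH.add hH'), hadd H H' G hH hH' hG, hsymm H G hH hG,
      hsymm H' G hH' hG]
  -- `L²` norm of the difference on the half disc
  have nrm : ∀ {D : ℂ → ℂ} {ε : ℝ}, 0 < ε →
      eLpNorm D 2 (volume.restrict HB) < ENNReal.ofReal ε →
      (eLpNorm D 2 (volume.restrict HB)).toReal ≤ ε := by
    intro D ε hε h
    calc _ ≤ (ENNReal.ofReal ε).toReal := ENNReal.toReal_mono ENNReal.ofReal_ne_top h.le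
      _ = ε := ENNReal.toReal_ofReal hε.le
  have step1 : ∀ Φ : ℂ → ℝ, RTF univ Φ → bb HB (gam μ₁) (gam μ₂) (gr Φ) Q = 0 := by
    intro Φ hΦ
    refine jform_small hK0 (ENNReal.toReal_nonneg (a := eLpNorm (gr Φ) 2 (volume.restrict HB)))
      fun ε hε => ?_
    obtain ⟨Φ', hΦ', hn⟩ := h5 Ω ψ hJP v hv ε hε
    have mD : MemLp (fun z => Q z - gr Φ' z) 2 (volume.restrict HB) := mQ.sub (memR hΦ')
    have e : Q = fun z => gr Φ' z + (Q z - gr Φ' z) := by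
      funext z; ring
    have e' : bb HB (gam μ₁) (gam μ₂) (gr Φ) Q =
        bb HB (gam μ₁) (gam μ₂) (gr Φ) (fun z => Q z - gr Φ' z) := by
      have := hadd2 (gr Φ) (gr Φ') (fun z => Q z - gr Φ' z) (memR hΦ) (memR hΦ') mD
      rw [← e] at this
      rw [this]
      have h0 : bb HB (gam μ₁) (gam μ₂) (gr Φ) (gr Φ') = 0 := hcore Φ Φ' hΦ hΦ'
      rw [h0, zero_add]
    rw [e']
    calc |bb HB (gam μ₁) (gam μ₂) (gr Φ) (fun z => Q z - gr Φ' z)|
        ≤ K * (eLpNorm (gr Φ) 2 (volume.restrict HB)).toReal *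
          (eLpNorm (fun z => Q z - gr Φ' z) 2 (volume.restrict HB)).toReal :=
          hK _ _ (memR hΦ) mD
      _ ≤ K * (eLpNorm (gr Φ) 2 (volume.restrict HB)).toReal * ε :=
          mul_le_mul_of_nonneg_left (nrm hε hn) (mul_nonneg hK0 ENNReal.toReal_nonneg)
      _ = K * ε * (eLpNorm (gr Φ) 2 (volume.restrict HB)).toReal := by ring
  have step2 : bb HB (gam μ₁) (gam μ₂) P Q = 0 := by
    refine jform_small hK0 (ENNReal.toReal_nonneg (a := eLpNorm Q 2 (volume.restrict HB)))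
      fun ε hε => ?_
    obtain ⟨Φ', hΦ', hn⟩ := h5 Ω ψ hJP u hu ε hε
    have mD : MemLp (fun z => P z - gr Φ' z) 2 (volume.restrict HB) := mP.sub (memR hΦ')
    have e : P = fun z => gr Φ' z + (P z - gr Φ' z) := by
      funext z; ring
    have e' : bb HB (gam μ₁) (gam μ₂) P Q =
        bb HB (gam μ₁) (gam μ₂) (fun z => P z - gr Φ' z) Q := by
      have := hadd (gr Φ') (fun z => P z - gr Φ' z) Q (memR hΦ') mD mQ
      rw [← e] at this
      rw [this, step1 Φ' hΦ', zero_add]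
    rw [e']
    calc |bb HB (gam μ₁) (gam μ₂) (fun z => P z - gr Φ' z) Q|
        ≤ K * (eLpNorm (fun z => P z - gr Φ' z) 2 (volume.restrict HB)).toReal *
          (eLpNorm Q 2 (volume.restrict HB)).toReal := hK _ _ mD mQ
      _ ≤ K * ε * (eLpNorm Q 2 (volume.restrict HB)).toReal :=
          mul_le_mul_of_nonneg_right (mul_le_mul_of_nonneg_left (nrm hε hn) hK0)
            ENNReal.toReal_nonneg
  have b3 : Beq HB (gam μ₁) (gam μ₂) P Q := (hBeq P Q mP mQ).2 step2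
  have b4 : Beq HB (fun z => γ₁ (Ψ z)) (fun z => γ₂ (Ψ z)) P Q :=
    (h3.2 HB _ _ _ _ _ _ _ _ a1 a2 (EventuallyEq.refl _ P) (EventuallyEq.refl _ Q)).2 b3
  exact (h3.1 HB Ω Ψ hCB γ₁ γ₂ (wgrad Ω u) (wgrad Ω v)).2 b4

end

end Cal
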