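import Pool.Agent.Lib.MP_4ea4c7_an.StmF

/-!
# MP_4ea4c7_an, piece `S_jnorm` (helper68)
-/

open MeasureTheory Complex Metric Set Filter Topology
open scoped ComplexConjugate ENNReal NNReal

namespace Cal

open LocalCalderon

noncomputable section

/-- Moebius map -/
private def mt (t : ℝ) (w : ℂ) : ℂ := (w + I * t) / (1 - I * t * w)

private lemma den_ne {t : ℝ} (ht0 : 0 ≤ t) (ht1 : t < 1) {w : ℂ} (hw : ‖w‖ ≤ 1) : 1 - I * t * w ≠ 0 := by
  intro h
  have h1 : I * t * w = 1 := (sub_eq_zero.1 h).symm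
  have h2 := congrArg norm h1
  rw [norm_mul, norm_mul, Complex.norm_I, one_mul, Complex.norm_real, Real.norm_of_nonneg ht0, norm_one] at h2
  have := norm_nonneg w
  nlinarith

private lemma den_ne' {t : ℝ} (ht0 : 0 ≤ t) (ht1 : t < 1) {w : ℂ} (hw : ‖w‖ ≤ 1) : 1 + I * t * w ≠ 0 := by
  intro h
  have h1 : I * t * w = -1 := by linear_combination h
  have h2 := congrArg norm h1
  rw [norm_mul, norm_mul, Complex.norm_I, one_mul, Complex.norm_real, Real.norm_of_nonneg ht0, norm_neg, norm_one] at h2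
  have := norm_nonneg w
  nlinarith

private lemma mt_nsq {t : ℝ} (w : ℂ) : normSq (1 - I * t * w) - normSq (w + I * t) = (1 - t ^ 2) * (1 - normSq w) := by
  simp only [normSq_apply, pow_two, Complex.add_re, Complex.sub_re, Complex.mul_re, Complex.add_im,
    Complex.sub_im, Complex.mul_im, I_re, I_im, one_re, one_im, ofReal_re, ofReal_im]
  ring

private lemma norm_le_iff (a b : ℂ) : ‖a‖ ≤ ‖b‖ ↔ normSq a ≤ normSq b := by
  rw [normSq_eq_norm_sq, normSq_eq_norm_sq]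
  constructor
  · intro h; exact pow_le_pow_left₀ (norm_nonneg _) h 2
  · intro h; exact le_of_sq_le_sq h (norm_nonneg _)

private lemma norm_lt_iff (a b : ℂ) : ‖a‖ < ‖b‖ ↔ normSq a < normSq b := by
  rw [← not_le, ← not_le, norm_le_iff]

private lemma mt_le {t : ℝ} (ht0 : 0 ≤ t) (ht1 : t < 1) {w : ℂ} (hw : ‖w‖ ≤ 1) : ‖mt t w‖ ≤ 1 := by
  have hd := den_ne ht0 ht1 hw
  unfold mt
  rw [norm_div, div_le_one (norm_pos_iff.2 hd), norm_le_iff]
  have h1 := mt_nsq (t := t) w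
  have h2 : normSq w ≤ 1 := by rw [normSq_eq_norm_sq]; nlinarith [norm_nonneg w]
  have h3 : 0 ≤ (1 - t ^ 2) * (1 - normSq w) := mul_nonneg (by nlinarith) (by linarith)
  linarith

private lemma mt_lt {t : ℝ} (ht0 : 0 ≤ t) (ht1 : t < 1) {w : ℂ} (hw : ‖w‖ < 1) : ‖mt t w‖ < 1 := by
  have hd := den_ne ht0 ht1 hw.le
  unfold mt
  rw [norm_div, div_lt_one (norm_pos_iff.2 hd), norm_lt_iff]
  have h1 := mt_nsq (t := t) w
  have h2 : normSq w < 1 := by rw [normSq_eq_norm_sq]; nlinarith [norm_nonneg w]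
  have h3 : 0 < (1 - t ^ 2) * (1 - normSq w) := mul_pos (by nlinarith) (by linarith)
  linarith

/-- the inverse -/
private def ms (t : ℝ) (w : ℂ) : ℂ := (w - I * t) / (1 + I * t * w)

private lemma ms_eq (t : ℝ) (w : ℂ) : ms t w = mt (-t) w := by
  unfold ms mt
  push_cast
  congr 1 <;> ring

private lemma mt_nsq' {t : ℝ} (w : ℂ) : normSq (1 + I * t * w) - normSq (w - I * t) = (1 - t ^ 2) * (1 - normSq w) := by
  simp only [normSq_apply, pow_two, Complex.add_re, Complex.sub_re, Complex.mul_re, Complex.add_im,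
    Complex.sub_im, Complex.mul_im, I_re, I_im, one_re, one_im, ofReal_re, ofReal_im]
  ring

private lemma ms_le {t : ℝ} (ht0 : 0 ≤ t) (ht1 : t < 1) {w : ℂ} (hw : ‖w‖ ≤ 1) : ‖ms t w‖ ≤ 1 := by
  have hd := den_ne' ht0 ht1 hw
  unfold ms
  rw [norm_div, div_le_one (norm_pos_iff.2 hd), norm_le_iff]
  have h1 := mt_nsq' (t := t) w
  have h2 : normSq w ≤ 1 := by rw [normSq_eq_norm_sq]; nlinarith [norm_nonneg w]
  have h3 : 0 ≤ (1 - t ^ 2) * (1 - normSq w) := mul_nonneg (by nlinarith) (by linarith)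
  linarith

private lemma ms_lt {t : ℝ} (ht0 : 0 ≤ t) (ht1 : t < 1) {w : ℂ} (hw : ‖w‖ < 1) : ‖ms t w‖ < 1 := by
  have hd := den_ne' ht0 ht1 hw.le
  unfold ms
  rw [norm_div, div_lt_one (norm_pos_iff.2 hd), norm_lt_iff]
  have h1 := mt_nsq' (t := t) w
  have h2 : normSq w < 1 := by rw [normSq_eq_norm_sq]; nlinarith [norm_nonneg w]
  have h3 : 0 < (1 - t ^ 2) * (1 - normSq w) := mul_pos (by nlinarith) (by linarith)
  linarith

private lemma t_ne {t : ℝ} (ht0 : 0 ≤ t) (ht1 : t < 1) : (1 - (t : ℂ) ^ 2) ≠ 0 := by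
  intro h
  have : (1 - t ^ 2 : ℝ) = 0 := by exact_mod_cast h
  nlinarith

private lemma ms_mt {t : ℝ} (ht0 : 0 ≤ t) (ht1 : t < 1) {w : ℂ} (hw : ‖w‖ ≤ 1) : ms t (mt t w) = w := by
  have hd := den_ne ht0 ht1 hw
  have ht := t_ne ht0 ht1
  have hI : I ^ 2 = -1 := I_sq
  have e1 : 1 + I * t * mt t w = (1 - (t : ℂ) ^ 2) / (1 - I * t * w) := by
    unfold mt
    rw [eq_div_iff hd, add_mul, mul_div_assoc', div_mul_cancel₀ _ hd]
    linear_combination (t : ℂ) ^ 2 * hI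
  have e2 : mt t w - I * t = (1 - (t : ℂ) ^ 2) * w / (1 - I * t * w) := by
    unfold mt
    rw [eq_div_iff hd, sub_mul, div_mul_cancel₀ _ hd]
    linear_combination (t : ℂ) ^ 2 * w * hI
  unfold ms
  rw [e1, e2, div_div_div_cancel_right₀ hd, mul_div_cancel_left₀ _ ht]

private lemma mt_ms {t : ℝ} (ht0 : 0 ≤ t) (ht1 : t < 1) {w : ℂ} (hw : ‖w‖ ≤ 1) : mt t (ms t w) = w := by
  have hd := den_ne' ht0 ht1 hw
  have ht := t_ne ht0 ht1
  have hI : I ^ 2 = -1 := I_sq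
  have e1 : 1 - I * t * ms t w = (1 - (t : ℂ) ^ 2) / (1 + I * t * w) := by
    unfold ms
    rw [eq_div_iff hd, sub_mul, mul_div_assoc', div_mul_cancel₀ _ hd]
    linear_combination (t : ℂ) ^ 2 * hI
  have e2 : ms t w + I * t = (1 - (t : ℂ) ^ 2) * w / (1 + I * t * w) := by
    unfold ms
    rw [eq_div_iff hd, add_mul, div_mul_cancel₀ _ hd]
    linear_combination (t : ℂ) ^ 2 * w * hI
  unfold mt
  rw [e1, e2, div_div_div_cancel_right₀ hd, mul_div_cancel_left₀ _ ht]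

private lemma mt_near {t : ℝ} (ht0 : 0 ≤ t) (ht1 : t < 1) {w : ℂ} (hw : ‖w‖ ≤ 1) (hi : 0 ≤ w.im) : ‖mt t w - I‖ ≤ 2 * (1 - t) := by
  have hd := den_ne ht0 ht1 hw
  have hI : I ^ 2 = -1 := I_sq
  have e1 : mt t w - I = ((1 - t : ℝ) : ℂ) * (w - I) / (1 - I * t * w) := by
    unfold mt
    rw [eq_div_iff hd, sub_mul, div_mul_cancel₀ _ hd]
    push_cast
    linear_combination (t : ℂ) * w * hI
  have h1 : 1 ≤ ‖1 - I * t * w‖ := by
    have h2 : (1 - I * t * w).re = 1 + t * w.im := by simp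
    have h3 := Complex.re_le_norm (1 - I * t * w)
    rw [h2] at h3
    nlinarith
  rw [e1, norm_div, norm_mul, Complex.norm_real, Real.norm_of_nonneg (by linarith)]
  have h4 : ‖w - I‖ ≤ 2 := by
    calc _ ≤ ‖w‖ + ‖I‖ := norm_sub_le _ _
      _ ≤ 2 := by rw [Complex.norm_I]; linarith
  rw [div_le_iff₀ (by linarith)]
  have h5 := norm_nonneg (w - I)
  nlinarith

theorem piece_jnorm (h1 : S_jtop) : S_jnorm := by
  intro Ω ψ hψ O hO hne
  obtain ⟨-, -, -, hfr⟩ := h1 Ω ψ hψ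
  obtain ⟨p, hpO, hpF⟩ := hne
  rw [hfr] at hpF
  obtain ⟨e, he, rfl⟩ := hpF
  rw [mem_sphere_zero_iff_norm] at he
  -- continuity at e
  have hc := hψ.cont e (by rw [mem_closedBall_zero_iff]; exact he.le)
  have hO' : O ∈ 𝓝 (ψ e) := hO.mem_nhds hpO
  have hm := hc hO'
  rw [Filter.mem_map, Metric.mem_nhdsWithin_iff] at hm
  obtain ⟨ε, hε, hsub⟩ := hm
  -- the rotation
  set c : ℂ := -I * e with hcdef
  have hcn : ‖c‖ = 1 := by rw [hcdef, norm_mul, norm_neg, Complex.norm_I, he, one_mul]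
  have hcI : c * I = e := by
    rw [hcdef]
    linear_combination (-e) * I_sq
  have hc0 : c ≠ 0 := by
    intro h
    rw [h, norm_zero] at hcn
    exact zero_ne_one hcn
  -- t
  obtain ⟨t, ht0, ht1, htε⟩ : ∃ t : ℝ, 0 ≤ t ∧ t < 1 ∧ 2 * (1 - t) < ε := by
    refine ⟨max 0 (1 - ε / 4), le_max_left _ _, ?_, ?_⟩
    · rw [max_lt_iff]; constructor <;> linarith
    · have := le_max_right 0 (1 - ε / 4)
      linarith
  have hmaps : ∀ w : ℂ, ‖w‖ ≤ 1 → c * mt t w ∈ closedBall (0 : ℂ) 1 := by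
    intro w hw
    rw [mem_closedBall_zero_iff, norm_mul, hcn, one_mul]
    exact mt_le ht0 ht1 hw
  have hdiff : ∀ w : ℂ, ‖w‖ ≤ 1 → DifferentiableAt ℂ (fun w => c * mt t w) w := by
    intro w hw
    have hd := den_ne ht0 ht1 hw
    unfold mt
    apply DifferentiableAt.const_mul
    apply DifferentiableAt.div
    · fun_prop
    · fun_prop
    · exact hd
  refine ⟨fun w => ψ (c * mt t w), ⟨?_, ?_, ?_, ?_⟩, ?_⟩
  · apply hψ.cont.comp (f := fun w => c * mt t w)
    · intro w hw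
      rw [mem_closedBall_zero_iff] at hw
      exact (hdiff w hw).continuousAt.continuousWithinAt
    · intro w hw
      rw [mem_closedBall_zero_iff] at hw
      exact hmaps w hw
  · intro w hw w' hw' h
    rw [mem_closedBall_zero_iff] at hw hw'
    have h2 := hψ.inj (hmaps w hw) (hmaps w' hw') h
    have h3 := mul_left_cancel₀ hc0 h2
    rw [← ms_mt ht0 ht1 hw, h3, ms_mt ht0 ht1 hw']
  · apply hψ.hol.comp (f := fun w => c * mt t w)
    · intro w hw
      rw [mem_ball_zero_iff] at hw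
      exact (hdiff w hw.le).differentiableWithinAt
    · intro w hw
      rw [mem_ball_zero_iff] at hw ⊢
      rw [norm_mul, hcn, one_mul]
      exact mt_lt ht0 ht1 hw
  · apply Subset.antisymm
    · rintro _ ⟨w, hw, rfl⟩
      rw [← hψ.img]
      refine ⟨c * mt t w, ?_, rfl⟩
      rw [mem_ball_zero_iff] at hw ⊢
      rw [norm_mul, hcn, one_mul]
      exact mt_lt ht0 ht1 hw
    · rw [← hψ.img]
      rintro _ ⟨w, hw, rfl⟩
      rw [mem_ball_zero_iff] at hw
      have hw' : ‖c⁻¹ * w‖ < 1 := by rw [norm_mul, norm_inv, hcn, inv_one, one_mul]; exact hw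
      refine ⟨ms t (c⁻¹ * w), ?_, ?_⟩
      · rw [mem_ball_zero_iff]
        exact ms_lt ht0 ht1 hw'
      · show ψ (c * mt t (ms t (c⁻¹ * w))) = ψ w
        rw [mt_ms ht0 ht1 hw'.le, mul_inv_cancel_left₀ hc0]
  · intro w hw hi
    apply hsub
    refine ⟨?_, hmaps w hw.le⟩
    rw [mem_ball, dist_eq_norm]
    have : c * mt t w - e = c * (mt t w - I) := by rw [mul_sub, hcI]
    rw [this, norm_mul, hcn, one_mul]
    exact (mt_near ht0 ht1 hw.le hi).trans_lt htε

end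

end Cal
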