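import Pool.Agent.Lib.MP_4ea4c7_an.StmF

open MeasureTheory Complex Metric Set Filter Topology
open scoped ComplexConjugate ENNReal NNReal

namespace Cal

theorem piece_jtop (h1 : S_cinv) : S_jtop := by
  intro Ω ψ hJ
  have hcb : CB (ball 0 1) Ω ψ :=
    ⟨isOpen_ball, hJ.hol, hJ.inj.mono ball_subset_closedBall, hJ.img⟩
  have hopen : IsOpen Ω := (h1 _ _ _ hcb).1
  have hcomp : IsCompact (ψ '' closedBall (0 : ℂ) 1) :=
    (isCompact_closedBall (0 : ℂ) 1).image_of_continuousOn hJ.cont
  have hsub : Ω ⊆ ψ '' closedBall (0 : ℂ) 1 := by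
    rw [← hJ.img]; exact image_mono ball_subset_closedBall
  have hbd : Bornology.IsBounded Ω := hcomp.isBounded.subset hsub
  have hcl : closure Ω = ψ '' closedBall 0 1 := by
    apply Subset.antisymm
    · exact closure_minimal hsub hcomp.isClosed
    · have h2 : closure (ball (0 : ℂ) 1) = closedBall 0 1 := closure_ball 0 one_ne_zero
      rw [← h2, ← hJ.img]
      apply ContinuousOn.image_closure
      rw [h2]; exact hJ.cont
  refine ⟨hopen, hbd, hcl, ?_⟩
  rw [hopen.frontier_eq, hcl]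
  ext w
  constructor
  · rintro ⟨⟨z, hz, rfl⟩, hw⟩
    refine ⟨z, ?_, rfl⟩
    rw [mem_closedBall_zero_iff] at hz
    rw [mem_sphere_zero_iff_norm]
    rcases hz.lt_or_eq with h | h
    · exact absurd (by rw [← hJ.img]; exact ⟨z, by simpa using h, rfl⟩) hw
    · exact h
  · rintro ⟨z, hz, rfl⟩
    have hz' : z ∈ closedBall (0 : ℂ) 1 := sphere_subset_closedBall hz
    refine ⟨⟨z, hz', rfl⟩, ?_⟩
    intro hw
    rw [← hJ.img] at hw
    obtain ⟨y, hy, hyz⟩ := hw
    have : y = z := hJ.inj (ball_subset_closedBall hy) hz' hyz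
    subst this
    rw [mem_sphere_zero_iff_norm] at hz
    rw [mem_ball_zero_iff] at hy
    linarith

end Cal
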