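import Pool.Agent.Lib.MP_4ea4c7_an.StmH2

/-!
# Piece kH0c
-/

open MeasureTheory Complex Metric Set Filter Topology
open scoped ComplexConjugate ENNReal NNReal

namespace Cal

noncomputable section

/-- the derivative of the mollification -/
private lemma kH0c_fderiv {ρ : ℂ → ℝ} (hρ : ContDiff ℝ (⊤ : ℕ∞) ρ) (hc : HasCompactSupport ρ) {g : ℂ → ℂ}
    (hg : LocallyIntegrable g volume) (z v : ℂ) :
    fderiv ℝ (mol ρ g) z v = ∫ ζ, ((fderiv ℝ ρ (z - ζ) v : ℝ) : ℂ) * g ζ := by
  have e : mol ρ g = convolution ρ g (ContinuousLinearMap.lsmul ℝ ℝ) volume := by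
    funext w
    unfold mol convolution
    rw [← integral_sub_left_eq_self (fun t => (ContinuousLinearMap.lsmul ℝ ℝ (ρ t)) (g (w - t))) volume w]
    refine integral_congr_ae (ae_of_all _ fun ζ => ?_)
    simp
  have h := (hc.hasFDerivAt_convolution_left (ContinuousLinearMap.lsmul ℝ ℝ) (hρ.of_le (by exact_mod_cast le_top))
    hg z).fderiv
  rw [e, h]
  unfold convolution
  have hex : ConvolutionExists (fderiv ℝ ρ) g
      (ContinuousLinearMap.precompL ℂ (ContinuousLinearMap.lsmul ℝ ℝ)) volume :=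
    (hc.fderiv ℝ).convolutionExists_left _ (hρ.continuous_fderiv (by simp)) hg
  rw [ContinuousLinearMap.integral_apply (hex z)]
  rw [← integral_sub_left_eq_self (fun t => ((ContinuousLinearMap.precompL ℂ
    (ContinuousLinearMap.lsmul ℝ ℝ) (fderiv ℝ ρ t)) (g (z - t))) v) volume z]
  refine integral_congr_ae (ae_of_all _ fun ζ => ?_)
  simp [ContinuousLinearMap.precompL_apply]

private lemma kH0c_int {ρ : ℂ → ℝ} (hρ : ContDiff ℝ (⊤ : ℕ∞) ρ) {r : ℝ} (hr : ∀ z, r ≤ ‖z‖ → ρ z = 0) {g : ℂ → ℂ}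
    (hg : LocallyIntegrable g volume) (z v : ℂ) :
    Integrable (fun ζ => ((fderiv ℝ ρ (z - ζ) v : ℝ) : ℂ) * g ζ) volume := by
  have hk : Continuous (fun ζ : ℂ => fderiv ℝ ρ (z - ζ) v) :=
    ((hρ.continuous_fderiv (by simp)).comp (continuous_const.sub continuous_id)).clm_apply continuous_const
  have hks : HasCompactSupport (fun ζ : ℂ => fderiv ℝ ρ (z - ζ) v) := by
    refine HasCompactSupport.intro (isCompact_closedBall z r) ?_
    intro ζ hζ
    have : z - ζ ∉ tsupport ρ := by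
      intro h
      have hsub : tsupport ρ ⊆ closedBall 0 r := by
        refine closure_minimal ?_ isClosed_closedBall
        intro w hw
        rw [mem_closedBall_zero_iff]
        by_contra hlt
        exact hw (hr w (le_of_lt (not_le.1 hlt)))
      have h2 := hsub h
      rw [mem_closedBall_zero_iff] at h2
      apply hζ
      rw [mem_closedBall, dist_comm, dist_eq_norm]
      exact h2
    rw [fderiv_of_notMem_tsupport ℝ this]
    simp
  have := hg.integrable_smul_left_of_hasCompactSupport hk hks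
  refine this.congr (ae_of_all _ fun ζ => ?_)
  simp

/-- the test function `ζ ↦ ρ (z - ζ)` -/
private lemma kH0c_test {ρ : ℂ → ℝ} (hρ : ContDiff ℝ (⊤ : ℕ∞) ρ) {r : ℝ} (hr : ∀ z, r ≤ ‖z‖ → ρ z = 0)
    (z : ℂ) : TF univ (fun ζ => ((ρ (z - ζ) : ℝ) : ℂ)) := by
  have hsupp : Function.support (fun ζ : ℂ => ((ρ (z - ζ) : ℝ) : ℂ)) ⊆ closedBall z r := by
    intro ζ hζ
    rw [mem_closedBall, dist_comm, dist_eq_norm]
    by_contra hlt
    apply hζ
    show ((ρ (z - ζ) : ℝ) : ℂ) = 0
    rw [hr _ (le_of_lt (not_le.1 hlt))]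
    simp
  refine ⟨?_, ?_, subset_univ _⟩
  · exact Complex.ofRealCLM.contDiff.comp (hρ.comp (contDiff_const.sub contDiff_id))
  · refine HasCompactSupport.intro (isCompact_closedBall z r) ?_
    intro ζ hζ
    by_contra h
    exact hζ (hsupp h)

private lemma kH0c_testd {ρ : ℂ → ℝ} (hρ : ContDiff ℝ (⊤ : ℕ∞) ρ) (z ζ v : ℂ) :
    fderiv ℝ (fun ζ => ((ρ (z - ζ) : ℝ) : ℂ)) ζ v = -((fderiv ℝ ρ (z - ζ) v : ℝ) : ℂ) := by
  have h1 : HasFDerivAt ρ (fderiv ℝ ρ (z - ζ)) (z - ζ) :=
    (hρ.differentiable (by simp)).differentiableAt.hasFDerivAt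
  have h2 : HasFDerivAt (fun ζ : ℂ => z - ζ) (-(ContinuousLinearMap.id ℝ ℂ)) ζ := by
    simpa using (hasFDerivAt_id ζ).const_sub z
  have h3 := (Complex.ofRealCLM.hasFDerivAt (x := ρ (z - ζ))).comp ζ (h1.comp ζ h2)
  have h4 : HasFDerivAt (fun ζ => ((ρ (z - ζ) : ℝ) : ℂ))
    (Complex.ofRealCLM.comp ((fderiv ℝ ρ (z - ζ)).comp (-(ContinuousLinearMap.id ℝ ℂ)))) ζ := h3
  rw [h4.fderiv]
  simp

/-- the `∂/∂z̄` derivative of a mollification -/
private lemma kH0c_db {ρ : ℂ → ℝ} (hρ : ContDiff ℝ (⊤ : ℕ∞) ρ) {r : ℝ} (hr : ∀ z, r ≤ ‖z‖ → ρ z = 0)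
    {f A B : ℂ → ℂ} (hf : LocallyIntegrable f volume) (hW : WD univ f A B) (z : ℂ) :
    db (mol ρ f) z = mol ρ B z := by
  have hc : HasCompactSupport ρ := by
    refine HasCompactSupport.intro (isCompact_closedBall 0 r) ?_
    intro w hw
    apply hr w
    rw [mem_closedBall_zero_iff] at hw
    exact (not_le.1 hw).le
  have hintd : ∀ v : ℂ, Integrable (fun ζ => f ζ * fderiv ℝ (fun ζ => ((ρ (z - ζ) : ℝ) : ℂ)) ζ v)
      volume := by
    intro v
    refine (kH0c_int hρ hr hf z v).neg.congr (ae_of_all _ fun ζ => ?_)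
    simp only [Pi.neg_apply]
    rw [kH0c_testd hρ]
    ring
  have hder : ∀ v : ℂ, fderiv ℝ (mol ρ f) z v =
      - ∫ ζ, f ζ * fderiv ℝ (fun ζ => ((ρ (z - ζ) : ℝ) : ℂ)) ζ v := by
    intro v
    rw [kH0c_fderiv hρ hc hf z v, ← integral_neg]
    refine integral_congr_ae (ae_of_all _ fun ζ => ?_)
    simp only
    rw [kH0c_testd hρ]
    ring
  have hB := hW.hB _ (kH0c_test hρ hr z)
  rw [eq_neg_iff_add_eq_zero] at hB
  have h1 : ∫ ζ, f ζ * db (fun ζ => ((ρ (z - ζ) : ℝ) : ℂ)) ζ =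
      ((∫ ζ, f ζ * fderiv ℝ (fun ζ => ((ρ (z - ζ) : ℝ) : ℂ)) ζ 1) +
        I * ∫ ζ, f ζ * fderiv ℝ (fun ζ => ((ρ (z - ζ) : ℝ) : ℂ)) ζ I) / 2 := by
    rw [← integral_const_mul, ← integral_add (hintd 1) ((hintd I).const_mul I), ← integral_div]
    refine integral_congr_ae (ae_of_all _ fun ζ => ?_)
    simp only [db]
    ring
  have h2 : mol ρ B z = ∫ ζ, B ζ * ((ρ (z - ζ) : ℝ) : ℂ) := by
    unfold mol
    refine integral_congr_ae (ae_of_all _ fun ζ => ?_)
    simp only
    ring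
  rw [h1] at hB
  rw [h2]
  unfold db
  rw [hder 1, hder I]
  linear_combination (-1 : ℂ) * hB

theorem piece_kH0c (h1 : S_bump) (h2 : S_kcalc) (h3 : S_bridge) : S_kH0c := by
  intro V K u U hV hK hKV hW hu
  obtain ⟨ρ, hρs, hρ0, hρc, hρi, hρr, hρm, hρL, -⟩ := h1
  obtain ⟨-, b2, -, b4⟩ := h3
  obtain ⟨-, c2, c3, c4, -, -, -, -, -⟩ := h2 V hV
  obtain ⟨-, -, -, -, d5, -, -, -, -⟩ := h2 univ isOpen_univ
  -- the zero function
  have hzero : ∀ W : Set ℂ, IsOpen W → WG W (fun _ => 0) (fun _ => 0) := by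
    intro W hW'
    obtain ⟨-, -, -, -, -, -, e7, -, -⟩ := h2 W hW'
    have g1 := e7 (fun _ => 0) contDiffOn_const
    have g2 : gr (fun _ : ℂ => (0 : ℝ)) = fun _ => 0 := by
      funext z
      simp [gr]
    rwa [g2] at g1
  have hcongr : ∀ (W : Set ℂ) (u v : ℂ → ℝ) (U' W' : ℂ → ℂ), IsOpen W → WG W u U' →
      u =ᵐ[volume.restrict W] v → U' =ᵐ[volume.restrict W] W' → WG W v W' := by
    intro W u v U' W' hWo
    obtain ⟨-, e2, -⟩ := h2 W hWo
    exact e2 u v U' W'
  have hVK : IsOpen (V \ K) := hV.sdiff hK.isClosed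
  have hKo : IsOpen Kᶜ := hK.isClosed.isOpen_compl
  have hU0 : ∀ᵐ z : ℂ, z ∈ V \ K → U z = 0 := by
    have g1 : WG (V \ K) u U := c3 _ _ _ sdiff_subset hW
    have g2 : WG (V \ K) u (fun _ => 0) := by
      refine hcongr _ _ _ _ _ hVK (hzero _ hVK) ?_ (EventuallyEq.refl _ _)
      filter_upwards [ae_restrict_mem hVK.measurableSet] with z hz
      exact (hu z hz.1 hz.2).symm
    obtain ⟨-, -, -, e4, -⟩ := h2 (V \ K) hVK
    exact (ae_restrict_iff' hVK.measurableSet).1 (e4 _ _ _ g1 g2)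
  set u' : ℂ → ℝ := V.indicator u with hu'
  set U' : ℂ → ℂ := V.indicator U with hU'
  have hu'0 : ∀ z, z ∉ K → u' z = 0 := by
    intro z hz
    by_cases hzV : z ∈ V
    · rw [hu', indicator_of_mem hzV, hu z hzV hz]
    · rw [hu', indicator_of_notMem hzV]
  have hU'0 : ∀ᵐ z : ℂ, z ∉ K → U' z = 0 := by
    filter_upwards [hU0] with z hz hzK
    by_cases hzV : z ∈ V
    · rw [hU', indicator_of_mem hzV, hz ⟨hzV, hzK⟩]
    · rw [hU', indicator_of_notMem hzV]
  have hW' : WG univ u' U' := by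
    refine d5 _ _ fun z _ => ?_
    by_cases hzV : z ∈ V
    · refine ⟨V, hV, hzV, subset_univ _, hcongr _ _ _ _ _ hV hW ?_ ?_⟩
      · filter_upwards [ae_restrict_mem hV.measurableSet] with w hw
        rw [hu', indicator_of_mem hw]
      · filter_upwards [ae_restrict_mem hV.measurableSet] with w hw
        rw [hU', indicator_of_mem hw]
    · refine ⟨Kᶜ, hKo, fun h => hzV (hKV h), subset_univ _,
        hcongr _ _ _ _ _ hKo (hzero _ hKo) ?_ ?_⟩
      · filter_upwards [ae_restrict_mem hKo.measurableSet] with w hw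
        exact (hu'0 w hw).symm
      · rw [EventuallyEq, ae_restrict_iff' hKo.measurableSet]
        filter_upwards [hU'0] with w hw hwK
        exact (hw hwK).symm
  -- square integrability
  have huL : MemLp (fun z => (u' z : ℂ)) 2 volume := by
    have g1 := (memLp_indicator_iff_restrict hK.measurableSet).2 (hW'.u2 K hK (subset_univ _))
    refine g1.ae_eq (ae_of_all _ fun z => ?_)
    by_cases hz : z ∈ K
    · rw [indicator_of_mem hz]
    · rw [indicator_of_notMem hz]
      simp only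
      rw [hu'0 z hz, ofReal_zero]
  have hUL : MemLp U' 2 volume := by
    have g1 := (memLp_indicator_iff_restrict hK.measurableSet).2 (hW'.G2 K hK (subset_univ _))
    refine g1.ae_eq ?_
    filter_upwards [hU'0] with z hz
    by_cases hzK : z ∈ K
    · rw [indicator_of_mem hzK]
    · rw [indicator_of_notMem hzK, hz hzK]
  have hulr : MemLp u' 2 volume := by
    have := huL.re
    refine this.ae_eq (ae_of_all _ fun z => ?_)
    simp
  have hul : LocallyIntegrable (fun z => (u' z : ℂ)) volume := huL.locallyIntegrable (by norm_num)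
  have hWD := b2 _ _ _ hW'
  -- the mollifications
  set φ : ℕ → ℂ → ℝ := fun n z => (mol (ρ n) (fun z => (u' z : ℂ)) z).re with hφ
  have hφm : ∀ n z, (φ n z : ℂ) = mol (ρ n) (fun z => (u' z : ℂ)) z := by
    intro n z
    have g1 : mol (ρ n) (fun z => (u' z : ℂ)) z = ((∫ ζ, ρ n (z - ζ) * u' ζ : ℝ) : ℂ) := by
      unfold mol
      rw [← integral_complex_ofReal]
      refine integral_congr_ae (ae_of_all _ fun ζ => ?_)
      push_cast
      rfl
    simp only [hφ]
    rw [g1, ofReal_re]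
  have hφs : ∀ n, ContDiff ℝ (⊤ : ℕ∞) (φ n) := fun n => by
    have := hρm _ hul n
    exact reCLM.contDiff.comp this
  have hgr : ∀ n z, gr (φ n) z = mol (ρ n) U' z := by
    intro n z
    have g1 : (fun w => (φ n w : ℂ)) = mol (ρ n) (fun z => (u' z : ℂ)) := funext (hφm n)
    rw [b4 (φ n) z ((hφs n).differentiable (by simp) z), g1,
      kH0c_db (hρs n) (hρc n) hul hWD z]
    unfold mol
    rw [← integral_const_mul]
    refine integral_congr_ae (ae_of_all _ fun ζ => ?_)
    simp only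
    ring
  obtain ⟨δ, hδ, hδV⟩ := hK.exists_cthickening_subset_open hV hKV
  obtain ⟨n₀, hn₀⟩ := exists_nat_one_div_lt hδ
  refine ⟨hulr, hUL, fun ε hε => ?_⟩
  have t1 := (hρL _ huL).2
  have t2 := (hρL _ hUL).2
  have hε' : (0 : ℝ≥0∞) < ENNReal.ofReal ε := ENNReal.ofReal_pos.2 hε
  obtain ⟨n, hn1, hn2, hn3⟩ := ((t1.eventually_lt_const hε').and
    ((t2.eventually_lt_const hε').and (eventually_ge_atTop n₀))).exists
  refine ⟨φ n, ⟨hφs n, ?_⟩, ?_, ?_⟩
  · have hsupp : Function.support (φ n) ⊆ cthickening δ K := by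
      intro z hz
      by_contra hzn
      apply hz
      simp only [hφ]
      have g1 : mol (ρ n) (fun z => (u' z : ℂ)) z = 0 := by
        unfold mol
        refine integral_eq_zero_of_ae (ae_of_all _ fun ζ => ?_)
        simp only [Pi.zero_apply]
        by_cases hζ : ζ ∈ K
        · have g2 : ρ n (z - ζ) = 0 := by
            apply hρc
            by_contra hlt
            rw [not_le] at hlt
            apply hzn
            refine mem_cthickening_of_dist_le z ζ δ _ hζ ?_
            rw [dist_eq_norm]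
            refine hlt.le.trans (le_trans ?_ hn₀.le)
            apply one_div_le_one_div_of_le (by positivity)
            have : (n₀ : ℝ) ≤ n := by exact_mod_cast hn3
            linarith
          rw [g2]
          simp
        · rw [hu'0 ζ hζ]
          simp
      rw [g1, zero_re]
    have hts : tsupport (φ n) ⊆ cthickening δ K := closure_minimal hsupp isClosed_cthickening
    exact ⟨HasCompactSupport.intro hK.cthickening fun z hz => by
      by_contra h
      exact hz (hsupp h), hts.trans hδV⟩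
  · refine lt_of_eq_of_lt ?_ hn1
    refine eLpNorm_congr_norm_ae (ae_of_all _ fun z => ?_)
    rw [← hφm n z, ← ofReal_sub, norm_real, norm_sub_rev]
  · refine lt_of_eq_of_lt ?_ hn2
    refine eLpNorm_congr_norm_ae (ae_of_all _ fun z => ?_)
    rw [hgr n z, norm_sub_rev]

end

end Cal
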