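import Pool.Agent.Lib.MP_4ea4c7_an.StmH2

open MeasureTheory Complex Metric Set Filter Topology
open scoped ComplexConjugate ENNReal NNReal

namespace Cal

lemma kex_ip_zero (a : ℂ) : ip a 0 = 0 := by simp [ip]

lemma kex_ip_le (a b : ℂ) : |ip a b| ≤ ‖a‖ * ‖b‖ := by
  unfold ip
  calc |(a * conj b).re| ≤ ‖a * conj b‖ := Complex.abs_re_le_norm _
    _ = ‖a‖ * ‖b‖ := by rw [norm_mul, RCLike.norm_conj]

lemma kex_gr_zero {φ : ℂ → ℝ} {z : ℂ} (hz : z ∉ tsupport φ) : gr φ z = 0 := by
  unfold gr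
  rw [fderiv_of_notMem_tsupport (𝕜 := ℝ) hz]
  simp

lemma kex_gr_cont {φ : ℂ → ℝ} (hφ : ContDiff ℝ (⊤ : ℕ∞) φ) : Continuous (gr φ) := by
  have h1 : Continuous (fderiv ℝ φ) := hφ.continuous_fderiv (by simp)
  unfold gr
  exact (Complex.continuous_ofReal.comp (h1.clm_apply continuous_const)).add
    (continuous_const.mul (Complex.continuous_ofReal.comp (h1.clm_apply continuous_const)))

lemma kex_gr_memLp {U : Set ℂ} {φ : ℂ → ℝ} (hφ : RTF U φ) : MemLp (gr φ) 2 volume := by
  apply (kex_gr_cont hφ.1).memLp_of_hasCompactSupport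
  exact HasCompactSupport.intro hφ.2.1 (fun z hz => kex_gr_zero hz)

lemma kex_int {c C : ℝ} {γ : ℂ → ℝ} (hc : 0 < c) (hγ : Cond c C γ) {A B : ℂ → ℂ}
    (hA : MemLp A 2 volume) (hB : MemLp B 2 volume) :
    Integrable (fun z => γ z * ip (A z) (B z)) volume := by
  have h1 : Integrable (fun z => ‖A z‖ * ‖B z‖) volume := by
    have := hA.norm.integrable_mul hB.norm
    exact this
  have hm : AEStronglyMeasurable (fun z => γ z * ip (A z) (B z)) volume := by
    apply AEStronglyMeasurable.mul hγ.meas.aestronglyMeasurable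
    unfold ip
    exact Complex.continuous_re.comp_aestronglyMeasurable
      (hA.1.mul (Complex.continuous_conj.comp_aestronglyMeasurable hB.1))
  refine (h1.const_mul C).mono' hm (ae_of_all _ fun z => ?_)
  rw [Real.norm_eq_abs, abs_mul, abs_of_nonneg (hc.le.trans (hγ.lo z))]
  have hC : 0 ≤ C := (hc.le.trans (hγ.lo z)).trans (hγ.hi z)
  exact mul_le_mul (hγ.hi z) (kex_ip_le _ _) (abs_nonneg _) hC

theorem piece_kex (h1 : S_dnex) (h2 : S_kH0) (h3 : S_kH0p) (h4 : S_ktst0) : S_kex := by
  intro Ω G c C γ χ hPos hc hγ hχ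
  set O : Set ℂ := G ∩ ball 0 (7 / 8) with hOdef
  have hO : IsOpen O := hPos.oG.inter isOpen_ball
  have hOsub : O ⊆ ball (0 : ℂ) (7 / 8) := inter_subset_right
  have hOm : MeasurableSet O := hO.measurableSet
  have hgrχc : Continuous (gr χ) := kex_gr_cont hχ.smooth
  have hgrχ : MemLp (gr χ) 2 volume := by
    apply hgrχc.memLp_of_hasCompactSupport
    apply HasCompactSupport.intro (isCompact_closedBall (0 : ℂ) (13 / 16))
    intro z hz
    apply hχ.go
    rw [mem_closedBall_zero_iff, not_le] at hz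
    exact hz.le
  have hgrχO : MemLp (gr χ) 2 (volume.restrict O) := hgrχ.restrict O
  refine ⟨?_, ?_⟩
  · obtain ⟨G', hG'⟩ := (h1 c C hc γ hγ O hO (gr χ) hgrχO).1
    obtain ⟨v, hv⟩ := (h3 O (7 / 8) hO (by norm_num) hOsub).2 _ hG'.z0
    refine ⟨v, _, ⟨hv, ?_⟩⟩
    intro φ hφ
    have hs := hG'.sol φ hφ
    have hz0 : ∀ z, z ∉ O → γ z * ip (gr χ z + O.indicator (fun z => G' z - gr χ z) z) (gr φ z) = 0 := by
      intro z hz
      rw [kex_gr_zero (fun h => hz (hφ.2.2 h)), kex_ip_zero, mul_zero]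
    rw [← setIntegral_eq_integral_of_forall_compl_eq_zero hz0, ← hs]
    apply setIntegral_congr_fun hOm
    intro z hz
    simp only [indicator_of_mem hz]
    congr 2
    ring
  · intro v v' V V' hK hK'
    have hH : H0 O (fun z => v z + (-1) * v' z) (fun z => V z + ((-1 : ℝ) : ℂ) * V' z) :=
      (h2 O hO).2.1 v v' V V' (-1) hK.h0 hK'.h0
    set w : ℂ → ℝ := fun z => v z + (-1) * v' z with hw
    set W : ℂ → ℂ := fun z => V z + ((-1 : ℝ) : ℂ) * V' z with hW
    set X : ℂ → ℂ := fun z => (γ z : ℂ) * W z with hX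
    have hWL : MemLp W 2 volume := hH.mU
    have hXL : MemLp X 2 volume := by
      refine hWL.of_le_mul (c := C) ?_ (ae_of_all _ fun z => ?_)
      · exact (Complex.continuous_ofReal.comp_aestronglyMeasurable
          hγ.meas.aestronglyMeasurable).mul hWL.1
      · rw [hX]
        simp only [norm_mul, Complex.norm_real, Real.norm_eq_abs]
        rw [abs_of_nonneg (hc.le.trans (hγ.lo z))]
        exact mul_le_mul_of_nonneg_right (hγ.hi z) (norm_nonneg _)
    have htest : ∀ φ : ℂ → ℝ, RTF O φ → ∫ z, ip (X z) (gr φ z) = 0 := by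
      intro φ hφ
      have e1 := hK.sol φ hφ
      have e2 := hK'.sol φ hφ
      have i1 : Integrable (fun z => γ z * ip (gr χ z + V z) (gr φ z)) volume :=
        kex_int hc hγ (hgrχ.add hK.h0.mU) (kex_gr_memLp hφ)
      have i2 : Integrable (fun z => γ z * ip (gr χ z + V' z) (gr φ z)) volume :=
        kex_int hc hγ (hgrχ.add hK'.h0.mU) (kex_gr_memLp hφ)
      have e3 : ∫ z, (γ z * ip (gr χ z + V z) (gr φ z) - γ z * ip (gr χ z + V' z) (gr φ z)) = 0 := by
        rw [integral_sub i1 i2, e1, e2, sub_zero]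
      rw [← e3]
      apply integral_congr_ae
      refine ae_of_all _ fun z => ?_
      simp only [hX, hW, ip]
      have : (γ z : ℂ) * (V z + ((-1 : ℝ) : ℂ) * V' z) * conj (gr φ z)
          = (γ z : ℂ) * ((gr χ z + V z) * conj (gr φ z)) - (γ z : ℂ) * ((gr χ z + V' z) * conj (gr φ z)) := by
        push_cast
        ring
      rw [this, Complex.sub_re, Complex.re_ofReal_mul, Complex.re_ofReal_mul]
    obtain ⟨hint, hzero⟩ := h4 O X w W hO (hXL.restrict O) htest hH
    have hip : ∀ z, ip (X z) (W z) = γ z * ‖W z‖ ^ 2 := by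
      intro z
      simp only [hX, ip]
      rw [mul_assoc, Complex.mul_conj, Complex.re_ofReal_mul, Complex.ofReal_re,
        Complex.normSq_eq_norm_sq]
    have hWO : ∀ᵐ z ∂(volume.restrict O), W z = 0 := by
      have hnn : 0 ≤ᵐ[volume.restrict O] fun z => ip (X z) (W z) := by
        refine ae_of_all _ fun z => ?_
        show (0 : ℝ) ≤ ip (X z) (W z)
        rw [hip]
        exact mul_nonneg (hc.le.trans (hγ.lo z)) (sq_nonneg _)
      have := (integral_eq_zero_iff_of_nonneg_ae hnn hint).1 hzero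
      filter_upwards [this] with z hz
      rw [hip] at hz
      have hg : γ z ≠ 0 := (lt_of_lt_of_le hc (hγ.lo z)).ne'
      have h0 : ‖W z‖ ^ 2 = 0 := by
        have := mul_eq_zero.1 hz
        exact this.resolve_left hg
      exact norm_eq_zero.1 (pow_eq_zero_iff (two_ne_zero) |>.1 h0)
    have hoff := ((h2 O hO).1 w W hH).2
    have hW0 : ∀ᵐ z, W z = 0 := by
      have hWO' := (ae_restrict_iff' hOm).1 hWO
      filter_upwards [hWO', hoff] with z ha hb
      by_cases hz : z ∈ O
      · exact ha hz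
      · exact (hb hz).2
    have hw0 : w =ᵐ[volume] 0 := by
      have hle := (h3 O (7 / 8) hO (by norm_num) hOsub).1 w W hH
      have hWn : eLpNorm W 2 volume = 0 := by
        rw [eLpNorm_eq_zero_iff hWL.1 (by norm_num)]
        exact hW0
      rw [hWn, mul_zero] at hle
      exact (eLpNorm_eq_zero_iff hH.mu.1 (by norm_num)).1 (le_antisymm hle (by simp))
    refine ⟨?_, ?_⟩
    · filter_upwards [hw0] with z hz
      simp only [hw, Pi.zero_apply] at hz
      linarith
    · filter_upwards [hW0] with z hz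
      simp only [hW] at hz
      push_cast at hz
      linear_combination hz

end Cal
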