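import Pool.Agent.Lib.MP_4ea4c7_an.Stm1
import Pool.Agent.Lib.MP_4ea4c7_an.StmC

/-! [HC7] `k` is holomorphic outside the unit disc. -/

open MeasureTheory Complex Metric Set Filter Topology
open scoped ComplexConjugate ENNReal NNReal

namespace Cal

private theorem khol_open : IsOpen {z : ℂ | 1 < ‖z‖} := isOpen_lt continuous_const continuous_norm

private theorem khol_wd {U : Set ℂ} {f A B : ℂ → ℂ} (h : WD univ f A B) : WD U f A B :=
  ⟨fun K hK _ => h.f2 K hK (subset_univ _), fun K hK _ => h.A2 K hK (subset_univ _),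
    fun K hK _ => h.B2 K hK (subset_univ _),
    fun φ hφ => h.hA φ ⟨hφ.1, hφ.2.1, subset_univ _⟩,
    fun φ hφ => h.hB φ ⟨hφ.1, hφ.2.1, subset_univ _⟩⟩

private theorem khol_main (h1 : S_weyl) (h2 : S_smooth) (h3 : S_wuniq) {U : Set ℂ} (hU : IsOpen U)
    {f A B : ℂ → ℂ} (hw : WD univ f A B) (hc : ContinuousOn f U)
    (hB : ∀ᵐ z : ℂ, z ∈ U → B z = 0) :
    DifferentiableOn ℂ f U ∧ ∀ᵐ z ∂(volume.restrict U), A z = deriv f z ∧ B z = 0 := by
  have hwU : WD U f A B := khol_wd hw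
  have hd : DifferentiableOn ℂ f U := by
    refine (h1 U f hU hwU.f2 fun φ hφ => ?_).2 hc
    rw [hwU.hB φ hφ, neg_eq_zero]
    apply integral_eq_zero_of_ae
    filter_upwards [hB] with z hz
    by_cases hzU : z ∈ U
    · rw [hz hzU, zero_mul]
      rfl
    · have : φ z = 0 := image_eq_zero_of_notMem_tsupport fun h => hzU (hφ.2.2 h)
      rw [this, mul_zero]
      rfl
  refine ⟨hd, ?_⟩
  have h4 := h3 U f A B f (deriv f) (fun _ => 0) hU hwU (h2.2.1 U f hU hd) (ae_eq_refl _)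
  filter_upwards [h4.1, h4.2] with z hz1 hz2
  exact ⟨hz1, hz2⟩

theorem piece_khol (h1 : S_weyl) (h2 : S_smooth) (h3 : S_wuniq) : S_khol := by
  intro κ μ φ hμ hφ
  have hts : ∀ z : ℂ, z ∈ tsupport φ → ‖z‖ < 1 := fun z hz => by
    have := hφ.tf.2.2 hz
    rwa [mem_ball, dist_zero_right] at this
  constructor
  · intro k A B hk
    have hc : ContinuousOn k {z | 1 ≤ ‖z‖} := by
      refine hk.cont.mono fun z hz hz2 => ?_
      have h4 := hts z hz2.2
      have h5 : 1 ≤ ‖z‖ := hz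
      linarith
    have hc' : ContinuousOn k {z | 1 < ‖z‖} := hc.mono fun z (hz : 1 < ‖z‖) => hz.le
    have hB : ∀ᵐ z : ℂ, z ∈ {z : ℂ | 1 < ‖z‖} → B z = 0 := by
      filter_upwards [hk.eq] with z hz hzU
      have hzn : 1 < ‖z‖ := hzU
      have hnt : z ∉ tsupport φ := fun h => by
        have := hts z h
        linarith
      have hev : (fun w => ((φ w : ℝ) : ℂ)) =ᶠ[𝓝 z] fun _ => 0 := by
        filter_upwards [(isClosed_tsupport φ).isOpen_compl.mem_nhds hnt] with w hw
        rw [image_eq_zero_of_notMem_tsupport hw, ofReal_zero]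
      have hdb : db (fun w => ((φ w : ℝ) : ℂ)) z = 0 := by
        unfold db
        rw [hev.fderiv_eq]
        simp
      rw [hz, hμ.supp z hzn, hdb]
      simp
    obtain ⟨hd, hae⟩ := khol_main h1 h2 h3 khol_open hk.wd hc' hB
    exact ⟨hd, hae, hc⟩
  · intro N f A B hf hw hBe
    have hB : ∀ᵐ z : ℂ, z ∈ {z : ℂ | 1 < ‖z‖} → B z = 0 := by
      filter_upwards [hBe] with z hz hzU
      rw [hz, hμ.supp z hzU]
      simp
    exact khol_main h1 h2 h3 khol_open hw hf.cont.continuousOn hB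

end Cal
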