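import Pool.Agent.Lib.MP_4ea4c7_an.StmC2

open MeasureTheory Complex Metric Set Filter Topology
open scoped ComplexConjugate ENNReal NNReal

namespace Cal

theorem kout_cr_add (a b c : ℂ) : cr a (b + c) = cr a b + cr a c := by
  unfold cr
  rw [mul_add, Complex.add_im]

theorem kout_cr_sub (a b c : ℂ) : cr a (b - c) = cr a b - cr a c := by
  unfold cr
  rw [mul_sub, Complex.sub_im]

theorem kout_cr_zero (b : ℂ) : cr 0 b = 0 := by
  unfold cr
  simp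

theorem kout_open : IsOpen {z : ℂ | 1 < ‖z‖} := isOpen_lt continuous_const continuous_norm

theorem kout_closure : {z : ℂ | 1 ≤ ‖z‖} ⊆ closure {z : ℂ | 1 < ‖z‖} := by
  have h1 : {z : ℂ | 1 < ‖z‖} = (closedBall (0 : ℂ) 1)ᶜ := by
    ext z
    simp
  rw [h1, closure_compl, interior_closedBall (0 : ℂ) one_ne_zero]
  intro z hz
  simpa using hz

theorem kout_tendsto {f : ℂ → ℂ} {l : ℕ}
    (h : Tendsto (fun z => f z / ((z + 2) ^ l * (2 - z) ^ 0)) (cocompact ℂ) (𝓝 1)) :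
    Tendsto (fun z => f z / z ^ l) (cocompact ℂ) (𝓝 1) := by
  have hinv : Tendsto (fun z : ℂ => z⁻¹) (cocompact ℂ) (𝓝 0) := by
    rw [← Metric.cobounded_eq_cocompact]
    exact Filter.tendsto_inv₀_cobounded
  have h1 : Tendsto (fun z : ℂ => (1 + 2 * z⁻¹) ^ l) (cocompact ℂ) (𝓝 1) := by
    have h2 : Tendsto (fun z : ℂ => 1 + 2 * z⁻¹) (cocompact ℂ) (𝓝 (1 + 2 * 0)) :=
      (hinv.const_mul 2).const_add 1
    have h3 := h2.pow l
    simpa using h3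
  have h4 := h.mul h1
  rw [mul_one] at h4
  refine h4.congr' ?_
  have hev : ∀ᶠ z : ℂ in cocompact ℂ, 2 < ‖z‖ := tendsto_norm_cocompact_atTop.eventually_gt_atTop 2
  filter_upwards [hev] with z hz
  have hz0 : z ≠ 0 := by
    rintro rfl
    rw [norm_zero] at hz
    linarith
  have hz2 : z + 2 ≠ 0 := by
    intro h
    have : z = -2 := eq_neg_of_add_eq_zero_left h
    rw [this, norm_neg] at hz
    norm_num at hz
  have h5 : (1 + 2 * z⁻¹) = (z + 2) / z := by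
    field_simp
  rw [h5, pow_zero, mul_one, div_pow]
  field_simp

theorem piece_kout (h1 : S_khol) (h2 : S_ord) (h3 : S_lim) (h4 : S_fasym) (h5 : S_T) (h6 : S_A)
    (h7 : S_cut) (h8 : S_pairI) (h9 : S_pairV) (h10 : S_pairD) (h11 : S_res) (h12 : S_bridge) :
    S_kout := by
  intro κ h0 hκ μ₁ μ₂ hμ₁ hμ₂ hH φ hφ k1 A1 B1 k2 A2 B2 hk1 hk2
  obtain ⟨hkol1, hfol1⟩ := h1 κ μ₁ φ hμ₁ hφ
  obtain ⟨hkol2, hfol2⟩ := h1 κ μ₂ φ hμ₂ hφ
  obtain ⟨hd1, ha1, hc1⟩ := hkol1 k1 A1 B1 hk1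
  obtain ⟨hd2, ha2, hc2⟩ := hkol2 k2 A2 B2 hk2
  have hdh : DifferentiableOn ℂ (fun z => k1 z - k2 z) {z | 1 < ‖z‖} := hd1.sub hd2
  have hdec : Dec (fun z => k1 z - k2 z) := by
    obtain ⟨C1, hC1⟩ := hk1.dec
    obtain ⟨C2, hC2⟩ := hk2.dec
    refine ⟨C1 + C2, fun z hz => ?_⟩
    calc ‖k1 z - k2 z‖ ≤ ‖k1 z‖ + ‖k2 z‖ := norm_sub_le _ _
      _ ≤ C1 / ‖z‖ + C2 / ‖z‖ := add_le_add (hC1 z hz) (hC2 z hz)
      _ = (C1 + C2) / ‖z‖ := by rw [add_div]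
  rcases h2 _ hdh hdec with hzero | ⟨l, c, hl, hc, hlim⟩
  · have hE : EqOn k1 k2 {z | 1 < ‖z‖} := fun z hz => sub_eq_zero.mp (hzero z hz)
    have hE2 : EqOn k1 k2 {z | 1 ≤ ‖z‖} :=
      hE.of_subset_closure hc1 hc2 (fun z (hz : 1 < ‖z‖) => (le_of_lt hz : 1 ≤ ‖z‖)) kout_closure
    intro z hz
    exact hE2 hz
  · exfalso
    obtain ⟨C, δ, hδ, hall⟩ := h3 κ h0 hκ
    obtain ⟨f, d, hf, -⟩ := hall μ₁ hμ₁ l 0
    have hT := h5 κ h0 hκ μ₁ μ₂ hμ₁ hμ₂ hH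
    obtain ⟨g, hg, hgf⟩ := hT (l + 0) f hf.pn
    have hax : ∀ x : ℝ, g x = f x := h6 κ h0 hκ μ₁ μ₂ hμ₁ hμ₂ hT (l + 0) f g hf.pn hg hgf
    have hflim : Tendsto (fun z => f z / z ^ l) (cocompact ℂ) (𝓝 1) :=
      kout_tendsto (h4 μ₁ l 0 f d hf).1
    obtain ⟨Af, Bf, hWf, hBf⟩ := hf.pn.bel
    obtain ⟨Ag, Bg, hWg, hBg⟩ := hg.bel
    rw [Measure.restrict_univ] at hBf hBg
    obtain ⟨hdf, haf⟩ := hfol1 (l + 0) f Af Bf hf.pn hWf hBf
    obtain ⟨hdg, hag⟩ := hfol2 (l + 0) g Ag Bg hg hWg hBg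
    obtain ⟨M, hM, hcut⟩ := h7
    obtain ⟨χ, hχ, hχs, -, hχ1, -, hχg, -, -⟩ := hcut 2 (by norm_num)
    have hχ1' : ∀ z : ℂ, ‖z‖ < 1 → χ z = 1 := fun z hz => hχ1 z (by linarith)
    have hχ2' : ∀ z : ℂ, ‖z‖ < 1 + 1 → χ z = 1 := fun z hz => hχ1 z (by linarith)
    obtain ⟨hI1, hE1⟩ := h8 κ h0 hκ μ₁ hμ₁ (l + 0) f Af Bf hf.pn hWf hBf φ k1 A1 B1 hφ hk1 χ hχ hχs hχ1'
    obtain ⟨hI2, hE2⟩ := h8 κ h0 hκ μ₂ hμ₂ (l + 0) g Ag Bg hg hWg hBg φ k2 A2 B2 hφ hk2 χ hχ hχs hχ1'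
    have hV := h9 f Af Bf g Ag Bg φ hWf hWg hf.pn.cont hg.cont hax hφ
    have hEq : ∫ z in UH, ((f z).re * cr (gr χ z) (I * conj (deriv (fun w => k1 w - k2 w) z))
        - (k1 z - k2 z).re * cr (gr χ z) (I * conj (deriv f z))) = 0 := by
      have hsub := integral_sub hI1 hI2
      rw [hE1, hE2, hV, sub_self] at hsub
      rw [← hsub]
      refine integral_congr_ae ?_
      have hae : ∀ {P : ℂ → Prop}, (∀ᵐ z ∂(volume.restrict {z : ℂ | 1 < ‖z‖}), P z) →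
          ∀ᵐ z ∂(volume.restrict UH), 1 < ‖z‖ → P z := by
        intro P hP
        have h := (ae_restrict_iff' kout_open.measurableSet).mp hP
        exact ae_restrict_of_ae h
      filter_upwards [hae ha1, hae ha2, hae haf, hae hag] with z g1 g2 g3 g4
      by_cases hz : ‖z‖ < 2
      · rw [hχg z hz]
        simp only [kout_cr_zero, mul_zero, sub_zero]
      · have hz1 : 1 < ‖z‖ := by
          push Not at hz
          linarith
        obtain ⟨a1, b1⟩ := g1 hz1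
        obtain ⟨a2, b2⟩ := g2 hz1
        obtain ⟨a3, b3⟩ := g3 hz1
        obtain ⟨a4, b4⟩ := g4 hz1
        have hmem : {z : ℂ | 1 < ‖z‖} ∈ 𝓝 z := kout_open.mem_nhds hz1
        have hdg' : deriv g z = deriv f z := by
          refine Filter.EventuallyEq.deriv_eq ?_
          filter_upwards [hmem] with w hw
          exact hgf w (le_of_lt hw)
        have hdk : deriv (fun w => k1 w - k2 w) z = deriv k1 z - deriv k2 z :=
          deriv_fun_sub (hd1.differentiableAt hmem) (hd2.differentiableAt hmem)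
        rw [a1, b1, a2, b2, a3, b3, a4, b4, hdg', hdk, hgf z hz1.le]
        simp only [sub_zero, kout_cr_add, map_sub, mul_sub, kout_cr_sub, Complex.sub_re]
        ring
    have hsymf : ∀ z, f (conj z) = conj (f z) := hf.pn.symm
    have hsymh : ∀ z, (fun w => k1 w - k2 w) (conj z) = conj ((fun w => k1 w - k2 w) z) := by
      intro z
      simp only [hk1.symm z, hk2.symm z, map_sub]
    have hD := h10 f (fun w => k1 w - k2 w) χ 1 one_pos hdf hdh hsymf hsymh hχ hχs hχ2'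
    have hR := h11 χ f (fun w => k1 w - k2 w) l c 1 one_pos hχ hχ2' hdf hdh hl hflim hlim
    rw [hR] at hD
    rw [hEq, Complex.ofReal_zero] at hD
    have h13 : (Real.pi : ℂ) * (l : ℂ) * c ≠ 0 := by
      refine mul_ne_zero (mul_ne_zero ?_ ?_) hc
      · exact_mod_cast Real.pi_ne_zero
      · have : l ≠ 0 := by omega
        exact_mod_cast this
    exact h13 hD.symm

end Cal
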