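import Pool.Agent.Lib.MP_4ea4c7_an.StmH2

/-!
# Piece `S_kreg`: solutions of conductivity equations are continuous
-/

open MeasureTheory Complex Metric Set Filter Topology
open scoped ComplexConjugate ENNReal NNReal

namespace Cal

noncomputable section

private theorem kreg_patch (U : Set ℂ) (F : ℂ → ℝ) (hU : IsOpen U)
    (h : ∀ z ∈ U, ∃ r : ℝ, 0 < r ∧ ball z r ⊆ U ∧ ∃ g : ℂ → ℝ, ContinuousOn g (ball z r) ∧
      ∀ᵐ w ∂(volume.restrict (ball z r)), g w = F w) :
    ∃ F' : ℂ → ℝ, ContinuousOn F' U ∧ ∀ᵐ z ∂(volume.restrict U), F z = F' z := by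
  classical
  choose! r hr hrU g hg hgF using h
  have key : ∀ z ∈ U, ∀ w ∈ ball z (r z), g w w = g z w := by
    intro z hz w hw
    have hwU : w ∈ U := hrU z hz hw
    have hopen : IsOpen (ball w (r w) ∩ ball z (r z)) := isOpen_ball.inter isOpen_ball
    have h1 : ∀ᵐ x ∂(volume.restrict (ball w (r w) ∩ ball z (r z))), g w x = F x :=
      ae_restrict_of_ae_restrict_of_subset inter_subset_left (hgF w hwU)
    have h2 : ∀ᵐ x ∂(volume.restrict (ball w (r w) ∩ ball z (r z))), g z x = F x :=
      ae_restrict_of_ae_restrict_of_subset inter_subset_right (hgF z hz)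
    have h3 : g w =ᵐ[volume.restrict (ball w (r w) ∩ ball z (r z))] g z := by
      filter_upwards [h1, h2] with x hx1 hx2
      rw [hx1, hx2]
    exact Measure.eqOn_open_of_ae_eq h3 hopen ((hg w hwU).mono inter_subset_left)
      ((hg z hz).mono inter_subset_right) ⟨mem_ball_self (hr w hwU), hw⟩
  refine ⟨fun z => g z z, ?_, ?_⟩
  · intro z hz
    apply ContinuousAt.continuousWithinAt
    have hc : ContinuousAt (g z) z := (hg z hz).continuousAt (ball_mem_nhds z (hr z hz))
    apply hc.congr
    filter_upwards [ball_mem_nhds z (hr z hz)] with w hw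
    exact (key z hz w hw).symm
  · rw [ae_restrict_iff' hU.measurableSet, ae_iff]
    apply measure_null_of_locally_null
    intro z hz
    have hzU : z ∈ U := by
      by_contra hcon
      exact hz (fun hh => absurd hh hcon)
    refine ⟨{a | ¬(a ∈ U → F a = g a a)} ∩ ball z (r z),
      inter_mem self_mem_nhdsWithin (mem_nhdsWithin_of_mem_nhds (ball_mem_nhds z (hr z hzU))), ?_⟩
    have h1 := hgF z hzU
    rw [ae_restrict_iff' measurableSet_ball, ae_iff] at h1
    refine measure_mono_null ?_ h1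
    rintro a ⟨ha1, ha2⟩ hcon
    apply ha1
    intro haU
    rw [key z hzU a ha2]
    exact (hcon ha2).symm

private theorem kreg_bound (c C t : ℝ) (hc : 0 < c) (h1 : c ≤ t) (h2 : t ≤ C) :
    |(1 - t) / (1 + t)| ≤ max (1 - 2 / (1 + C)) (1 - 2 * c / (1 + c)) := by
  have ht : 0 < 1 + t := by linarith
  have hC : 0 < 1 + C := by linarith
  have hc1 : 0 < 1 + c := by linarith
  have e1 : (1 - t) / (1 + t) = -(1 - 2 / (1 + t)) := by
    field_simp
    ring
  have e2 : (1 - t) / (1 + t) = 1 - 2 * t / (1 + t) := by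
    field_simp
    ring
  rw [abs_le]
  constructor
  · have h3 : 2 / (1 + C) ≤ 2 / (1 + t) := by
      apply div_le_div_of_nonneg_left (by norm_num) ht (by linarith)
    have h4 := le_max_left (1 - 2 / (1 + C)) (1 - 2 * c / (1 + c))
    rw [e1]
    linarith
  · have h3 : 2 * c / (1 + c) ≤ 2 * t / (1 + t) := by
      rw [div_le_div_iff₀ hc1 ht]
      nlinarith
    have h4 := le_max_right (1 - 2 / (1 + C)) (1 - 2 * c / (1 + c))
    rw [e2]
    linarith

theorem piece_kreg (h1 : S_kconj) (h2 : S_areg) (h3 : S_kcalc) : S_kreg := by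
  intro c C γ V u U hc hγ hone hV hWG hsol
  apply kreg_patch V u hV
  intro z hz
  obtain ⟨r, hr, hrV⟩ := Metric.isOpen_iff.mp hV z hz
  refine ⟨r, hr, hrV, ?_⟩
  have hWGb : WG (ball z r) u U := (h3 V hV).2.2.1 (ball z r) u U hrV hWG
  have hsolb : WSol (ball z r) γ U := fun φ hφ => hsol φ ⟨hφ.1, hφ.2.1, hφ.2.2.trans hrV⟩
  obtain ⟨s, -, -, hWD⟩ := h1 c C γ z r u U hc hγ hr hWGb hsolb
  have hcC : c ≤ C := (hγ.lo 0).trans (hγ.hi 0)
  have hC : 0 < 1 + C := by linarith
  have hc1 : 0 < 1 + c := by linarith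
  obtain ⟨F', hF'c, hF'⟩ := h2 (ball z r) (fun w => (1 - γ w) / (1 + γ w)) _ _ _ isOpen_ball
    ((measurable_const.sub hγ.meas).div (measurable_const.add hγ.meas))
    (fun K _ _ => ⟨max (1 - 2 / (1 + C)) (1 - 2 * c / (1 + c)), by
      apply max_lt
      · have : 0 < 2 / (1 + C) := by positivity
        linarith
      · have : 0 < 2 * c / (1 + c) := by positivity
        linarith, fun w _ => kreg_bound c C (γ w) hc (hγ.lo w) (hγ.hi w)⟩)
    (fun w hw => by simp [hone w hw]) hWD
    (Eventually.of_forall (fun w => by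
      have hw : (1 + (γ w : ℂ)) ≠ 0 := by
        have h5 : (0 : ℝ) < 1 + γ w := by linarith [hγ.lo w]
        have h6 : ((1 + γ w : ℝ) : ℂ) ≠ 0 := by exact_mod_cast h5.ne'
        simpa using h6
      simp only [map_mul, map_div₀, map_add, map_one, map_ofNat, Complex.conj_conj,
        Complex.conj_ofReal]
      push_cast
      field_simp))
  refine ⟨fun w => (F' w).re, Complex.continuous_re.comp_continuousOn hF'c, ?_⟩
  filter_upwards [hF'] with w hw
  rw [hw]
  simp

end

end Cal
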