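import Pool.Agent.Lib.MP_4ea4c7_an.StmD

open MeasureTheory Complex Metric Set Filter Topology
open scoped ComplexConjugate ENNReal NNReal

namespace Cal

private lemma ks_axis_closed (φ : ℂ → ℝ) : IsClosed (axis φ) :=
  (isClosed_eq continuous_im continuous_const).inter (isClosed_tsupport φ)

private lemma ks_axis_ae (φ : ℂ → ℝ) : ∀ᵐ z : ℂ, z ∉ axis φ := by
  have h : (volume : Measure ℂ) (LinearMap.ker Complex.imLm : Submodule ℝ ℂ) = 0 := by
    refine Measure.addHaar_submodule volume _ ?_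
    intro htop
    have : (I : ℂ) ∈ (LinearMap.ker Complex.imLm : Submodule ℝ ℂ) := by
      rw [htop]
      exact Submodule.mem_top
    rw [LinearMap.mem_ker] at this
    simp at this
  rw [ae_iff]
  refine measure_mono_null ?_ h
  intro z hz
  rw [mem_setOf_eq, not_not] at hz
  simpa using hz.1

private lemma ks_ev {φ : ℂ → ℝ} {z : ℂ} (hz : z ∉ axis φ) :
    (fun w : ℂ => I * ((φ w : ℝ) : ℂ) * ((Real.sign w.im : ℝ) : ℂ)) =ᶠ[𝓝 z]
      fun w => (I * ((Real.sign z.im : ℝ) : ℂ)) * ((φ w : ℝ) : ℂ) := by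
  by_cases him : z.im = 0
  · have hts : z ∉ tsupport φ := fun h => hz ⟨him, h⟩
    have h0 : φ =ᶠ[𝓝 z] 0 := notMem_tsupport_iff_eventuallyEq.mp hts
    filter_upwards [h0] with w hw
    rw [hw]
    simp
  · have hs : ∀ᶠ w in 𝓝 z, Real.sign w.im = Real.sign z.im := by
      rcases lt_or_gt_of_ne him with h | h
      · filter_upwards [(isOpen_lt continuous_im continuous_const).mem_nhds h] with w hw
        rw [Real.sign_of_neg hw, Real.sign_of_neg h]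
      · filter_upwards [(isOpen_lt continuous_const continuous_im).mem_nhds h] with w hw
        rw [Real.sign_of_pos hw, Real.sign_of_pos h]
    filter_upwards [hs] with w hw
    rw [hw]
    ring

/-- the explicit discontinuous part -/
private noncomputable def ks_g (φ : ℂ → ℝ) (w : ℂ) : ℂ := I * ((φ w : ℝ) : ℂ) * ((Real.sign w.im : ℝ) : ℂ)

private lemma ks_gcd {φ : ℂ → ℝ} (hφ : EvTF φ) : ContDiffOn ℝ 1 (ks_g φ) (axis φ)ᶜ := by
  have hcφ : ContDiff ℝ (⊤ : ℕ∞) (fun w => ((φ w : ℝ) : ℂ)) := Complex.ofRealCLM.contDiff.comp hφ.tf.1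
  intro z hz
  have hat : ContDiffAt ℝ 1 (fun w => (I * ((Real.sign z.im : ℝ) : ℂ)) * ((φ w : ℝ) : ℂ)) z :=
    ((contDiff_const.mul hcφ).of_le (by simp)).contDiffAt
  exact (hat.congr_of_eventuallyEq (ks_ev hz)).contDiffWithinAt

private lemma ks_sign_meas : Measurable Real.sign := by
  have h : Real.sign = fun r : ℝ => if r < 0 then (-1 : ℝ) else if 0 < r then 1 else 0 := rfl
  rw [h]
  exact Measurable.ite measurableSet_Iio measurable_const
    (Measurable.ite measurableSet_Ioi measurable_const measurable_const)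

private lemma ks_sign_bd (r : ℝ) : |Real.sign r| ≤ 1 := by
  rcases Real.sign_apply_eq r with h | h | h <;> rw [h] <;> simp

private lemma ks_db_zero {φ : ℂ → ℝ} {z : ℂ} (hz : z ∉ tsupport φ) :
    db (fun w => ((φ w : ℝ) : ℂ)) z = 0 := by
  have h0 : φ =ᶠ[𝓝 z] 0 := notMem_tsupport_iff_eventuallyEq.mp hz
  have h1 : (fun w => ((φ w : ℝ) : ℂ)) =ᶠ[𝓝 z] fun _ => 0 := by
    filter_upwards [h0] with w hw
    rw [hw]
    simp
  unfold db
  rw [h1.fderiv_eq]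
  simp

/-- the source term -/
private noncomputable def ks_S (μ φ : ℂ → ℝ) (z : ℂ) : ℂ :=
  - (I * (1 + (μ z : ℂ)) * ((Real.sign z.im : ℝ) : ℂ) * db (fun w => ((φ w : ℝ) : ℂ)) z)

private lemma ks_dbmem {φ : ℂ → ℝ} (hφ : EvTF φ) : Continuous (db (fun w => ((φ w : ℝ) : ℂ))) ∧
    MemLp (db (fun w => ((φ w : ℝ) : ℂ))) 2 volume := by
  have hcφ : ContDiff ℝ (⊤ : ℕ∞) (fun w => ((φ w : ℝ) : ℂ)) := Complex.ofRealCLM.contDiff.comp hφ.tf.1
  have hc1 : ContDiff ℝ 1 (fun w => ((φ w : ℝ) : ℂ)) := hcφ.of_le (by simp)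
  have hcf : Continuous (fderiv ℝ (fun w => ((φ w : ℝ) : ℂ))) := hc1.continuous_fderiv (by simp)
  have hcdb : Continuous (db (fun w => ((φ w : ℝ) : ℂ))) := by
    unfold db
    exact ((hcf.clm_apply continuous_const).add
      (continuous_const.mul (hcf.clm_apply continuous_const))).div_const _
  have hcs : HasCompactSupport (db (fun w => ((φ w : ℝ) : ℂ))) := by
    refine HasCompactSupport.of_support_subset_isCompact hφ.tf.2.1 ?_
    intro z hz
    by_contra h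
    exact hz (ks_db_zero h)
  exact ⟨hcdb, hcdb.memLp_of_hasCompactSupport hcs⟩

private lemma ks_Smeas {κ r : ℝ} {μ φ : ℂ → ℝ} (hμ : Mu κ r μ) (hφ : EvTF φ) : Measurable (ks_S μ φ) := by
  unfold ks_S
  have m1 : Measurable fun z => (μ z : ℂ) := Complex.measurable_ofReal.comp hμ.meas
  have m2 : Measurable fun z : ℂ => ((Real.sign z.im : ℝ) : ℂ) :=
    Complex.measurable_ofReal.comp (ks_sign_meas.comp Complex.measurable_im)
  exact (((measurable_const.mul (measurable_const.add m1)).mul m2).mul (ks_dbmem hφ).1.measurable).neg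

private lemma ks_W2 {κ : ℝ} (hκ1 : κ < 1) {μ φ : ℂ → ℝ} (hμ : Mu κ (5 / 4) μ) (hφ : EvTF φ) :
    W2 (ks_S μ φ) := by
  obtain ⟨hcdb, hmem⟩ := ks_dbmem hφ
  have hbd : ∀ z, ‖ks_S μ φ z‖ ≤ 2 * ‖db (fun w => ((φ w : ℝ) : ℂ)) z‖ := by
    intro z
    unfold ks_S
    rw [norm_neg, norm_mul, norm_mul, norm_mul, Complex.norm_I, one_mul]
    have e1 : ‖(1 : ℂ) + (μ z : ℂ)‖ ≤ 2 := by
      refine (norm_add_le _ _).trans ?_
      rw [norm_one, Complex.norm_real, Real.norm_eq_abs]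
      have := hμ.bd z
      linarith
    have e2 : ‖((Real.sign z.im : ℝ) : ℂ)‖ ≤ 1 := by
      rw [Complex.norm_real, Real.norm_eq_abs]
      exact ks_sign_bd _
    have e3 : ‖(1 : ℂ) + (μ z : ℂ)‖ * ‖((Real.sign z.im : ℝ) : ℂ)‖ ≤ 2 * 1 :=
      mul_le_mul e1 e2 (norm_nonneg _) (by norm_num)
    rw [mul_one] at e3
    exact mul_le_mul_of_nonneg_right e3 (norm_nonneg _)
  refine ⟨hmem.of_le_mul (ks_Smeas hμ hφ).aestronglyMeasurable (Filter.Eventually.of_forall hbd), ?_⟩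
  intro z hz
  have hts : z ∉ tsupport φ := by
    intro h
    have := hφ.tf.2.2 h
    rw [mem_ball_zero_iff] at this
    linarith
  unfold ks_S
  rw [ks_db_zero hts]
  simp

private lemma ks_dct {F : ℕ → ℂ → ℂ} {G : ℂ → ℂ} (hF : ∀ k, AEStronglyMeasurable (F k) volume)
    (hG : MemLp G 2 volume) (hb : ∀ k, ∀ᵐ z, ‖F k z‖ ≤ ‖G z‖)
    (hl : ∀ᵐ z, Tendsto (fun k => F k z) atTop (𝓝 0)) :
    Tendsto (fun k => eLpNorm (F k) 2 volume) atTop (𝓝 0) := by
  have e : ∀ k, eLpNorm (F k) 2 volume = (∫⁻ z, ‖F k z‖ₑ ^ (2:ℝ)) ^ (1/2 : ℝ) := by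
    intro k
    rw [eLpNorm_eq_lintegral_rpow_enorm_toReal (by norm_num) (by norm_num)]
    norm_num
  simp_rw [e]
  have h0 : Tendsto (fun k => ∫⁻ z, ‖F k z‖ₑ ^ (2:ℝ)) atTop (𝓝 (∫⁻ _ : ℂ, 0)) := by
    refine tendsto_lintegral_of_dominated_convergence' (fun z => ‖G z‖ₑ ^ (2:ℝ)) ?_ ?_ ?_ ?_
    · intro k; exact (hF k).enorm.pow_const _
    · intro k
      filter_upwards [hb k] with z hz
      exact ENNReal.rpow_le_rpow (enorm_le_iff_norm_le.mpr hz) (by norm_num)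
    · have := lintegral_rpow_enorm_lt_top_of_eLpNorm_lt_top (μ := volume) (p := 2) (f := G)
        (by norm_num) (by norm_num) hG.2
      simpa using this.ne
    · filter_upwards [hl] with z hz
      have h1 : Tendsto (fun k => ‖F k z‖ₑ) atTop (𝓝 0) := by
        simpa using hz.enorm
      have h2 := (ENNReal.continuous_rpow_const (y := (2:ℝ))).tendsto (0 : ℝ≥0∞)
      have h3 := h2.comp h1
      simpa [Function.comp_def] using h3
  rw [lintegral_zero] at h0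
  have h2 := (ENNReal.continuous_rpow_const (y := (1/2:ℝ))).tendsto (0 : ℝ≥0∞)
  have h3 := h2.comp h0
  simpa [Function.comp_def] using h3

private lemma ks_Slim {κ : ℝ} (hκ1 : κ < 1) {μ φ : ℂ → ℝ} (hμ : Mu κ (5 / 4) μ) (hφ : EvTF φ)
    {μk : ℕ → ℂ → ℝ} (hμk : ∀ k, Mu κ (5 / 4) (μk k))
    (hlim : ∀ᵐ z, Tendsto (fun k => μk k z) atTop (𝓝 (μ z))) :
    Tendsto (fun k => eLpNorm (fun z => ks_S (μk k) φ z - ks_S μ φ z) 2 volume) atTop (𝓝 0) := by
  obtain ⟨hcdb, hmem⟩ := ks_dbmem hφ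
  have hG : MemLp (fun z => (2 : ℂ) * db (fun w => ((φ w : ℝ) : ℂ)) z) 2 volume := hmem.const_mul 2
  refine ks_dct (fun k => ((ks_Smeas (hμk k) hφ).sub (ks_Smeas hμ hφ)).aestronglyMeasurable) hG ?_ ?_
  · intro k
    refine Filter.Eventually.of_forall fun z => ?_
    have e0 : ks_S (μk k) φ z - ks_S μ φ z =
        (((μ z - μk k z : ℝ)) : ℂ) * (I * ((Real.sign z.im : ℝ) : ℂ)) * db (fun w => ((φ w : ℝ) : ℂ)) z := by
      unfold ks_S
      push_cast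
      ring
    rw [e0, norm_mul, norm_mul, norm_mul, norm_mul, Complex.norm_I, one_mul]
    have e1 : ‖(((μ z - μk k z : ℝ)) : ℂ)‖ ≤ 2 := by
      rw [Complex.norm_real, Real.norm_eq_abs]
      have h1 := abs_le.mp (hμ.bd z)
      have h2 := abs_le.mp ((hμk k).bd z)
      rw [abs_le]
      constructor <;> linarith [h1.1, h1.2, h2.1, h2.2]
    have e2 : ‖((Real.sign z.im : ℝ) : ℂ)‖ ≤ 1 := by
      rw [Complex.norm_real, Real.norm_eq_abs]
      exact ks_sign_bd _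
    have e3 : ‖(((μ z - μk k z : ℝ)) : ℂ)‖ * ‖((Real.sign z.im : ℝ) : ℂ)‖ ≤ 2 * 1 :=
      mul_le_mul e1 e2 (norm_nonneg _) (by norm_num)
    rw [mul_one] at e3
    refine (mul_le_mul_of_nonneg_right e3 (norm_nonneg _)).trans ?_
    rw [Complex.norm_ofNat]
  · filter_upwards [hlim] with z hz
    have h1 : Tendsto (fun k => ks_S (μk k) φ z) atTop (𝓝 (ks_S μ φ z)) := by
      unfold ks_S
      have h2 : Tendsto (fun k => (μk k z : ℂ)) atTop (𝓝 (μ z : ℂ)) :=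
        (Complex.continuous_ofReal.tendsto _).comp hz
      exact (((tendsto_const_nhds.mul (tendsto_const_nhds.add h2)).mul tendsto_const_nhds).mul
        tendsto_const_nhds).neg
    have h3 := h1.sub_const (ks_S μ φ z)
    rwa [sub_self] at h3

private lemma ks_sq {ν : Measure ℂ} {F : ℂ → ℂ} (hF : MemLp F 2 ν) {C : ℝ} (hC : 0 ≤ C)
    (h : eLpNorm F 2 ν ≤ ENNReal.ofReal C) : ∫ z, ‖F z‖ ^ 2 ∂ν ≤ C ^ 2 := by
  have h0 : 0 ≤ ∫ z, ‖F z‖ ^ 2 ∂ν := integral_nonneg fun _ => by positivity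
  have h1 := hF.eLpNorm_eq_integral_rpow_norm two_ne_zero ENNReal.ofNat_ne_top
  rw [h1, ENNReal.ofReal_le_ofReal_iff hC] at h
  have h2 : (∫ z, ‖F z‖ ^ (2 : ℝ≥0∞).toReal ∂ν) = ∫ z, ‖F z‖ ^ 2 ∂ν := by
    refine integral_congr_ae (Eventually.of_forall fun z => ?_)
    simp
  rw [h2] at h
  have h3 : (2 : ℝ≥0∞).toReal⁻¹ = 1 / 2 := by simp
  rw [h3, ← Real.sqrt_eq_rpow] at h
  calc ∫ z, ‖F z‖ ^ 2 ∂ν = Real.sqrt (∫ z, ‖F z‖ ^ 2 ∂ν) ^ 2 := (Real.sq_sqrt h0).symm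
    _ ≤ C ^ 2 := pow_le_pow_left₀ (Real.sqrt_nonneg _) h 2

private lemma ks_bdd {ν : Measure ℂ} {F : ℂ → ℂ} {Fk : ℕ → ℂ → ℂ} (hF : MemLp F 2 ν)
    (hFk : ∀ k, MemLp (Fk k) 2 ν)
    (h : Tendsto (fun k => eLpNorm (fun z => Fk k z - F z) 2 ν) atTop (𝓝 0)) :
    ∃ C : ℝ, 0 ≤ C ∧ ∀ k, eLpNorm (Fk k) 2 ν ≤ ENNReal.ofReal C := by
  have hd : ∀ k, MemLp (fun z => Fk k z - F z) 2 ν := fun k => (hFk k).sub hF
  have h1 : Tendsto (fun k => (eLpNorm (fun z => Fk k z - F z) 2 ν).toReal) atTop (𝓝 0) := by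
    have := (ENNReal.tendsto_toReal ENNReal.zero_ne_top).comp h
    rw [ENNReal.toReal_zero] at this
    exact this
  obtain ⟨B, hB⟩ := h1.bddAbove_range
  have hB' : ∀ k, (eLpNorm (fun z => Fk k z - F z) 2 ν).toReal ≤ B := fun k =>
    hB (Set.mem_range_self k)
  have hB0 : 0 ≤ B := ENNReal.toReal_nonneg.trans (hB' 0)
  refine ⟨B + (eLpNorm F 2 ν).toReal, add_nonneg hB0 ENNReal.toReal_nonneg, fun k => ?_⟩
  have h2 : eLpNorm (Fk k) 2 ν ≤ eLpNorm (fun z => Fk k z - F z) 2 ν + eLpNorm F 2 ν := by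
    have h3 : Fk k = (fun z => Fk k z - F z) + F := by
      funext z; simp
    calc eLpNorm (Fk k) 2 ν = eLpNorm ((fun z => Fk k z - F z) + F) 2 ν := by rw [← h3]
      _ ≤ _ := eLpNorm_add_le (hd k).1 hF.1 (by norm_num)
  refine h2.trans ?_
  rw [ENNReal.ofReal_add hB0 ENNReal.toReal_nonneg, ENNReal.ofReal_toReal hF.2.ne]
  refine add_le_add ?_ le_rfl
  rw [← ENNReal.ofReal_toReal (hd k).2.ne]
  exact ENNReal.ofReal_le_ofReal (hB' k)

private lemma ks_equi (h7 : S_mpF) (h8 : S_CL) {κ : ℝ} (hκ0 : 0 ≤ κ) (hκ1 : κ < 1)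
    (μk : ℕ → ℂ → ℝ) (hμk : ∀ k, SM κ (μk k)) (fk P Q : ℕ → ℂ → ℂ) (z0 : ℂ) (ρ : ℝ) (hρ : 0 < ρ)
    (hcont : ∀ k, ContinuousOn (fk k) (ball z0 ρ)) (hwd : ∀ k, WD (ball z0 ρ) (fk k) (P k) (Q k))
    (hbel : ∀ k, ∀ᵐ z ∂(volume.restrict (ball z0 ρ)), Q k z = (μk k z : ℂ) * conj (P k z))
    (CA CW : ℝ) (hCA0 : 0 ≤ CA) (hCW0 : 0 ≤ CW)
    (hA : ∀ k, MemLp (P k) 2 (volume.restrict (ball z0 ρ)))
    (hW : ∀ k, MemLp (Q k) 2 (volume.restrict (ball z0 ρ)))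
    (hCA : ∀ k, eLpNorm (P k) 2 (volume.restrict (ball z0 ρ)) ≤ ENNReal.ofReal CA)
    (hCW : ∀ k, eLpNorm (Q k) 2 (volume.restrict (ball z0 ρ)) ≤ ENNReal.ofReal CW)
    (ε : ℝ) (hε : 0 < ε) : ∃ δ : ℝ, 0 < δ ∧ ∀ k, ∀ z, ‖z - z0‖ < δ → ‖fk k z - fk k z0‖ ≤ ε := by
  set M : ℝ := CA ^ 2 + CW ^ 2 with hM
  have hM0 : 0 ≤ M := by positivity
  have hi1 : ∀ k, Integrable (fun z => ‖P k z‖ ^ 2) (volume.restrict (ball z0 ρ)) := by
    intro k
    have := (hA k).integrable_norm_pow (p := 2) two_ne_zero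
    simpa using this
  have hi2 : ∀ k, Integrable (fun z => ‖Q k z‖ ^ 2) (volume.restrict (ball z0 ρ)) := by
    intro k
    have := (hW k).integrable_norm_pow (p := 2) two_ne_zero
    simpa using this
  have hle : ∀ k, ∫ z in ball z0 ρ, (‖P k z‖ ^ 2 + ‖Q k z‖ ^ 2) ≤ M := by
    intro k
    calc ∫ z in ball z0 ρ, (‖P k z‖ ^ 2 + ‖Q k z‖ ^ 2)
        = (∫ z in ball z0 ρ, ‖P k z‖ ^ 2) + ∫ z in ball z0 ρ, ‖Q k z‖ ^ 2 :=
          integral_add (hi1 k) (hi2 k)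
      _ ≤ M := add_le_add (ks_sq (hA k) hCA0 (hCA k)) (ks_sq (hW k) hCW0 (hCW k))
  set T : ℝ := 64 * M / ε ^ 2 + 1 with hT
  have hT0 : 0 < T := by positivity
  refine ⟨ρ * Real.exp (-T), mul_pos hρ (Real.exp_pos _), fun k z hz => ?_⟩
  have hδ1 : Real.exp (-T) < 1 := by
    rw [Real.exp_lt_one_iff]; linarith
  have hcl := h8 z0 ρ M (fk k) (P k) (Q k) (hcont k) (hwd k)
    ((hi1 k).add (hi2 k)) (hle k)
    (h7 κ hκ0 hκ1 (μk k) (hμk k) z0 ρ (fk k) (hcont k) ⟨P k, Q k, hwd k, hbel k⟩)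
    (ρ * Real.exp (-T)) (mul_pos hρ (Real.exp_pos _)) (by nlinarith) z (by
      rw [mem_closedBall, dist_eq_norm]; exact hz.le)
  refine hcl.trans ?_
  have h1 : Real.log (ρ / (ρ * Real.exp (-T))) = T := by
    have e0 : ρ / (ρ * Real.exp (-T)) = Real.exp T := by
      rw [Real.exp_neg]
      have := Real.exp_pos T
      field_simp
    rw [e0, Real.log_exp]
  rw [h1]
  have h2 : M / T ≤ (ε / 8) ^ 2 := by
    rw [div_le_iff₀ hT0, hT]
    have : (ε / 8) ^ 2 * (64 * M / ε ^ 2 + 1) = M + (ε / 8) ^ 2 := by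
      field_simp
      ring
    rw [this]
    have : 0 ≤ (ε / 8) ^ 2 := by positivity
    linarith
  have h3 : Real.sqrt (M / T) ≤ ε / 8 := by
    rw [Real.sqrt_le_left (by positivity)]
    exact h2
  linarith

private lemma ks_mu {κ : ℝ} {μ : ℂ → ℝ} (hμ : Mu κ 1 μ) : Mu κ (5 / 4) μ :=
  ⟨hμ.meas, hμ.bd, fun z hz => hμ.supp z (by linarith), hμ.symm⟩

private lemma ks_core (h3 : S_ksb) (h4 : S_solve) (h5 : S_stab) (h6 : S_uniq) (h7 : S_mpF) (h8 : S_CL)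
    (h9 : S_loc) (h10 : S_basic) (h11 : S_smooth) (h12 : S_wuniq) (h13 : S_C3a) (κ : ℝ) (hκ0 : 0 ≤ κ)
    (hκ1 : κ < 1) (μ : ℂ → ℝ) (hμ : Mu κ 1 μ) (φ : ℂ → ℝ) (hφ : EvTF φ) (μk : ℕ → ℂ → ℝ)
    (kk Ak Bk : ℕ → ℂ → ℂ) (hμk : ∀ k, SM κ (μk k))
    (hlim : ∀ᵐ z, Tendsto (fun k => μk k z) atTop (𝓝 (μ z)))
    (hkk : ∀ j, KS (μk j) φ (kk j) (Ak j) (Bk j)) :
    ∃ k A B, KS μ φ k A B ∧
      ∀ K : Set ℂ, IsCompact K → K ⊆ (axis φ)ᶜ → TendstoUniformlyOn kk k atTop K := by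
  have hμ' := ks_mu hμ
  have hV : IsOpen (axis φ)ᶜ := (ks_axis_closed φ).isOpen_compl
  have haxis : ∀ z ∈ axis φ, ‖z‖ < 1 := by
    intro z hz
    have := hφ.tf.2.2 hz.2
    rwa [mem_ball_zero_iff] at this
  -- the functions `wk`
  set wk : ℕ → ℂ → ℂ := fun j z => if 5 / 4 < ‖z‖ then 0 else Bk j z with hwkdef
  have hBz : ∀ j, ∀ᵐ z : ℂ, 5 / 4 < ‖z‖ → Bk j z = 0 := by
    intro j
    filter_upwards [(hkk j).eq] with z hz hrz
    have hts : z ∉ tsupport φ := by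
      intro h
      have := hφ.tf.2.2 h
      rw [mem_ball_zero_iff] at this
      linarith
    rw [hz, (hμk j).mu.supp z hrz, ks_db_zero hts]
    simp
  have hwB : ∀ j, Bk j =ᵐ[volume] wk j := by
    intro j
    filter_upwards [hBz j] with z hz
    show Bk j z = if 5 / 4 < ‖z‖ then 0 else Bk j z
    split_ifs with h
    · exact hz h
    · rfl
  have hu : ∀ j, (kk j =ᵐ[volume] Ct (wk j)) ∧ MemLp (Bk j) 2 volume := by
    intro j
    obtain ⟨e1, _, e2, _⟩ := h6 (kk j) (Ak j) (Bk j) (hkk j).wd (hBz j) (hkk j).dec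
    exact ⟨e1, e2⟩
  have hwk : ∀ j, W2 (wk j) := by
    intro j
    refine ⟨(hu j).2.ae_eq (hwB j), ?_⟩
    intro z hz
    show (if 5 / 4 < ‖z‖ then 0 else Bk j z) = 0
    rw [if_pos hz]
  have hpv0 : ∀ z, pv 0 z = 0 := by
    intro z
    unfold pv
    simp
  have hwdk : ∀ j, WD univ (fun z => pv 0 z + Ct (wk j) z) (Ak j) (wk j) := by
    intro j
    refine h10.2.2.2.1 univ _ _ _ _ _ _ MeasurableSet.univ (hkk j).wd
      (ae_restrict_of_ae ?_) (ae_eq_refl _) (ae_restrict_of_ae (hwB j))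
    filter_upwards [(hu j).1] with z hz
    rw [hz, hpv0, zero_add]
  obtain ⟨w, A, hw, hwd, hb⟩ := h4 κ hκ0 hκ1 μ hμ' _ (ks_W2 hκ1 hμ' hφ) 0
  obtain ⟨s1, s2, s3, s4⟩ := h5 κ hκ0 hκ1 μ μk hμ' (fun k => (hμk k).mu) hlim (ks_S μ φ)
    (fun k => ks_S (μk k) φ) (ks_W2 hκ1 hμ' hφ) (fun k => ks_W2 hκ1 (hμk k).mu hφ)
    (ks_Slim hκ1 hμ' hφ (fun k => (hμk k).mu) hlim) 0 (fun _ => 0) 0 (by simp) (by simp)
    (fun i => tendsto_const_nhds) w A wk Ak hw hwk hwd hwdk hb (fun j => by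
      filter_upwards [(hkk j).eq, hwB j] with z e1 e2
      rw [← e2, e1]
      unfold ks_S
      ring)
  -- the explicit part
  have hgc := ks_gcd hφ
  have hgw := h11.1 (axis φ)ᶜ (ks_g φ) hV hgc
  have hfw : ∀ j, WD (axis φ)ᶜ (fun z => ks_g φ z + kk j z) (fun z => dz (ks_g φ) z + Ak j z)
      (fun z => db (ks_g φ) z + Bk j z) := fun j =>
    h10.1 _ _ _ _ _ _ _ hgw (h10.2.2.2.2.1 univ (axis φ)ᶜ _ _ _ (subset_univ _) (hkk j).wd)
  have hfl : WD (axis φ)ᶜ (fun z => ks_g φ z + (pv 0 z + Ct w z)) (fun z => dz (ks_g φ) z + A z)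
      (fun z => db (ks_g φ) z + w z) :=
    h10.1 _ _ _ _ _ _ _ hgw (h10.2.2.2.2.1 univ (axis φ)ᶜ _ _ _ (subset_univ _) hwd)
  have hfb : ∀ j, ContinuousOn (fun z => ks_g φ z + kk j z) (axis φ)ᶜ ∧
      ∀ᵐ z ∂(volume.restrict (axis φ)ᶜ), db (ks_g φ) z + Bk j z =
        (μk j z : ℂ) * conj (dz (ks_g φ) z + Ak j z) := by
    intro j
    obtain ⟨c1, A', B', c2, c3⟩ := (h3 κ hκ0 hκ1 (5 / 4) (by norm_num) le_rfl (μk j) (hμk j).mu φ (kk j)
      (Ak j) (Bk j) hφ (hkk j)).2.2.2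
    refine ⟨c1, ?_⟩
    have hq := h12 (axis φ)ᶜ _ _ _ _ _ _ hV c2 (hfw j) (ae_eq_refl _)
    filter_upwards [c3, hq.1, hq.2] with z e1 e2 e3
    rw [← e2, ← e3]
    exact e1
  -- equicontinuity
  have hequi : ∀ z0 ∈ (axis φ)ᶜ, ∀ ε : ℝ, 0 < ε → ∃ δ : ℝ, 0 < δ ∧ ∀ k, ∀ z ∈ (axis φ)ᶜ, ‖z - z0‖ < δ →
      ‖kk k z - kk k z0‖ ≤ ε := by
    intro z0 hz0 ε hε
    obtain ⟨ρ, hρ, hball⟩ := Metric.nhds_basis_closedBall.mem_iff.mp (hV.mem_nhds hz0)
    have hK : IsCompact (closedBall z0 ρ) := isCompact_closedBall _ _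
    have hbs : ball z0 ρ ⊆ closedBall z0 ρ := ball_subset_closedBall
    obtain ⟨R, hR⟩ := hK.isBounded.subset_closedBall 0
    have hmb : ∀ {F : ℂ → ℂ}, MemLp F 2 (volume.restrict (closedBall z0 ρ)) →
        MemLp F 2 (volume.restrict (ball z0 ρ)) := fun hF =>
      hF.mono_measure (Measure.restrict_mono hbs le_rfl)
    have t1 : Tendsto (fun k => eLpNorm (fun z => (dz (ks_g φ) z + Ak k z) - (dz (ks_g φ) z + A z)) 2
        (volume.restrict (ball z0 ρ))) atTop (𝓝 0) := by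
      refine tendsto_of_tendsto_of_tendsto_of_le_of_le tendsto_const_nhds (s4 R)
        (fun _ => zero_le) (fun k => ?_)
      have e0 : (fun z => (dz (ks_g φ) z + Ak k z) - (dz (ks_g φ) z + A z)) = fun z => Ak k z - A z := by
        funext z
        ring
      show eLpNorm (fun z => (dz (ks_g φ) z + Ak k z) - (dz (ks_g φ) z + A z)) 2 _ ≤ _
      rw [e0]
      exact eLpNorm_mono_measure _ (Measure.restrict_mono (hbs.trans hR) le_rfl)
    have t2 : Tendsto (fun k => eLpNorm (fun z => (db (ks_g φ) z + Bk k z) - (db (ks_g φ) z + w z)) 2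
        (volume.restrict (ball z0 ρ))) atTop (𝓝 0) := by
      refine tendsto_of_tendsto_of_tendsto_of_le_of_le tendsto_const_nhds s1
        (fun _ => zero_le) (fun k => ?_)
      show eLpNorm (fun z => (db (ks_g φ) z + Bk k z) - (db (ks_g φ) z + w z)) 2 _ ≤ _
      refine (eLpNorm_mono_measure _ Measure.restrict_le_self).trans (le_of_eq ?_)
      refine eLpNorm_congr_ae ?_
      filter_upwards [hwB k] with z hz
      rw [hz]
      ring
    obtain ⟨CA, hCA0, hCA⟩ := ks_bdd (hmb (hfl.A2 _ hK hball)) (fun k => hmb ((hfw k).A2 _ hK hball)) t1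
    obtain ⟨CW, hCW0, hCW⟩ := ks_bdd (hmb (hfl.B2 _ hK hball)) (fun k => hmb ((hfw k).B2 _ hK hball)) t2
    have hbV : ball z0 ρ ⊆ (axis φ)ᶜ := hbs.trans hball
    obtain ⟨δ, hδ, hδ'⟩ := ks_equi h7 h8 hκ0 hκ1 μk hμk (fun j z => ks_g φ z + kk j z)
      (fun j z => dz (ks_g φ) z + Ak j z) (fun j z => db (ks_g φ) z + Bk j z) z0 ρ hρ
      (fun k => (hfb k).1.mono hbV) (fun k => h10.2.2.2.2.1 _ _ _ _ _ hbV (hfw k))
      (fun k => ae_mono (Measure.restrict_mono hbV le_rfl) (hfb k).2) CA CW hCA0 hCW0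
      (fun k => hmb ((hfw k).A2 _ hK hball)) (fun k => hmb ((hfw k).B2 _ hK hball)) hCA hCW
      (ε / 2) (by linarith)
    have hgat : ContinuousAt (ks_g φ) z0 := hgc.continuousOn.continuousAt (hV.mem_nhds hz0)
    obtain ⟨δ', hδ'0, hδ''⟩ := Metric.continuousAt_iff.mp hgat (ε / 2) (by linarith)
    refine ⟨min δ δ', lt_min hδ hδ'0, fun k z _ hz => ?_⟩
    have a1 := hδ' k z (lt_of_lt_of_le hz (min_le_left _ _))
    have a2 : ‖ks_g φ z - ks_g φ z0‖ < ε / 2 := by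
      rw [← dist_eq_norm]
      exact hδ'' (by rw [dist_eq_norm]; exact lt_of_lt_of_le hz (min_le_right _ _))
    have a3 : kk k z - kk k z0 = ((ks_g φ z + kk k z) - (ks_g φ z0 + kk k z0)) - (ks_g φ z - ks_g φ z0) := by
      ring
    rw [a3]
    refine (norm_sub_le _ _).trans ?_
    have a4 : ‖(ks_g φ z + kk k z) - (ks_g φ z0 + kk k z0)‖ ≤ ε / 2 := a1
    linarith
  obtain ⟨h, hhc, hhae, hunif⟩ := h9 (axis φ)ᶜ (fun z => pv 0 z + Ct w z) kk hV
    (fun k => (hkk k).cont) (h10.2.2.2.2.1 univ (axis φ)ᶜ _ _ _ (subset_univ _) hwd).f2 hequi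
    (fun K hK _ => by
      obtain ⟨r, hr⟩ := hK.isBounded.subset_closedBall 0
      refine tendsto_of_tendsto_of_tendsto_of_le_of_le tendsto_const_nhds (s2 r)
        (fun _ => zero_le) (fun k => ?_)
      calc eLpNorm (fun z => kk k z - (pv 0 z + Ct w z)) 2 (volume.restrict K)
          = eLpNorm (fun z => (pv 0 z + Ct (wk k) z) - (pv 0 z + Ct w z)) 2
              (volume.restrict K) := by
            refine eLpNorm_congr_ae (ae_restrict_of_ae ?_)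
            filter_upwards [(hu k).1] with z hz
            rw [hz, hpv0, zero_add, zero_add]
        _ ≤ _ := eLpNorm_mono_measure _ (Measure.restrict_mono hr le_rfl))
  have hpt : ∀ z ∈ (axis φ)ᶜ, Tendsto (fun k => kk k z) atTop (𝓝 (h z)) := fun z hz =>
    (hunif {z} isCompact_singleton (by simpa using hz)).tendsto_at (mem_singleton z)
  classical
  set k0 : ℂ → ℂ := fun z => if z ∈ axis φ then 0 else h z with hk0
  have hk0V : ∀ z ∈ (axis φ)ᶜ, k0 z = h z := fun z hz => if_neg hz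
  have hk0ae : (fun z => pv 0 z + Ct w z) =ᵐ[volume] k0 := by
    have h1 := (ae_restrict_iff' hV.measurableSet).mp hhae
    filter_upwards [h1, ks_axis_ae φ] with z e1 e2
    rw [hk0V z e2]
    exact (e1 e2).symm
  have hfar : ∀ z, 2 ≤ ‖z‖ → h z = Ct w z := by
    intro z hz
    have hzV : z ∈ (axis φ)ᶜ := fun hz' => by
      have := haxis z hz'
      linarith
    -- `kk k z = Ct (wk k) z` at this point
    have e1 : ∀ k, kk k z = Ct (wk k) z := by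
      intro k
      have hUo : IsOpen {z : ℂ | 5 / 4 < ‖z‖} := isOpen_lt continuous_const continuous_norm
      have hsub : {z : ℂ | 5 / 4 < ‖z‖} ⊆ (axis φ)ᶜ := by
        intro z hz hz'
        have h1 := haxis z hz'
        have h2 : 5 / 4 < ‖z‖ := hz
        linarith
      obtain ⟨CC, _, hCC, _⟩ := h13
      have hd := (hCC (wk k) (hwk k)).2.2.2
      have := MeasureTheory.Measure.eqOn_open_of_ae_eq (ae_restrict_of_ae (hu k).1) hUo
        ((hkk k).cont.mono hsub) hd.continuousOn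
      exact this (show 5 / 4 < ‖z‖ by linarith)
    have h1 := (s3 ‖z‖).tendsto_at (x := z) ⟨by linarith, le_rfl⟩
    have h2 : Tendsto (fun k => kk k z) atTop (𝓝 (pv 0 z + Ct w z)) := by
      refine h1.congr fun k => ?_
      rw [e1, hpv0, zero_add]
    have h3 := tendsto_nhds_unique (hpt z hzV) h2
    rw [h3, hpv0, zero_add]
  refine ⟨k0, A, w, ⟨?_, ?_, ?_, ?_, ?_⟩, ?_⟩
  · exact h10.2.2.2.1 univ _ _ _ _ _ _ MeasurableSet.univ hwd (ae_restrict_of_ae hk0ae)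
      (ae_eq_refl _) (ae_eq_refl _)
  · filter_upwards [hb] with z hz
    rw [hz]
    unfold ks_S
    ring
  · intro z
    by_cases hz : z ∈ axis φ
    · have hc : conj z = z := Complex.conj_eq_iff_im.mpr hz.1
      rw [hc]
      show (if z ∈ axis φ then (0 : ℂ) else h z) = conj (if z ∈ axis φ then (0 : ℂ) else h z)
      rw [if_pos hz, map_zero]
    · have hz' : conj z ∉ axis φ := by
        intro h1
        apply hz
        have h2 : (conj z).im = 0 := h1.1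
        have h3 : conj z = z := by
          rw [Complex.conj_im, neg_eq_zero] at h2
          exact Complex.conj_eq_iff_im.mpr h2
        rwa [h3] at h1
      rw [hk0V z hz, hk0V (conj z) hz']
      refine tendsto_nhds_unique (hpt (conj z) hz') ?_
      have h1 : Tendsto (fun k => conj (kk k z)) atTop (𝓝 (conj (h z))) :=
        (Complex.continuous_conj.tendsto _).comp (hpt z hz)
      refine h1.congr fun k => ?_
      exact ((hkk k).symm z).symm
  · obtain ⟨CC, hCC0, hCC, _⟩ := h13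
    refine ⟨CC * (eLpNorm w 2 volume).toReal, fun z hz => ?_⟩
    have hzV : z ∈ (axis φ)ᶜ := fun hz' => by
      have := haxis z hz'
      linarith
    rw [hk0V z hzV, hfar z hz]
    exact (hCC w hw).1 z (by linarith)
  · exact hhc.congr hk0V
  · intro K hK hKV
    refine (hunif K hK hKV).congr_right ?_
    intro z hz
    exact (hk0V z (hKV hz)).symm

theorem piece_ks (h1 : S_mollmu) (h2 : S_ksS) (h3 : S_ksb) (h4 : S_solve) (h5 : S_stab) (h6 : S_uniq)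
    (h7 : S_mpF) (h8 : S_CL) (h9 : S_loc) (h10 : S_basic) (h11 : S_smooth) (h12 : S_wuniq) (h13 : S_C3a) :
    S_ks := by
  intro κ hκ0 hκ1 μ hμ φ hφ
  refine ⟨?_, ?_⟩
  · obtain ⟨μk, hμk, hlim⟩ := h1 κ μ hκ0 hμ
    choose kk Ak Bk hkk _ using fun j => h2 κ hκ0 hκ1 (μk j) (hμk j) φ hφ
    obtain ⟨k, A, B, hk, _⟩ := ks_core h3 h4 h5 h6 h7 h8 h9 h10 h11 h12 h13 κ hκ0 hκ1 μ hμ φ hφ μk kk Ak Bk
      hμk hlim hkk
    exact ⟨k, A, B, hk⟩
  · intro μk kk Ak Bk k A B hμk hlim hkk hk K hK hKV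
    obtain ⟨k', A', B', hk', hu⟩ := ks_core h3 h4 h5 h6 h7 h8 h9 h10 h11 h12 h13 κ hκ0 hκ1 μ hμ φ hφ μk kk
      Ak Bk hμk hlim hkk
    refine (hu K hK hKV).congr_right ?_
    intro z hz
    exact (((h3 κ hκ0 hκ1 1 le_rfl (by norm_num) μ hμ φ k A B hφ hk).2.1 k' A' B' hk').1 z (hKV hz)).symm

end Cal
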