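import Pool.Agent.Lib.MP_4ea4c7_an.StmD

open MeasureTheory Complex Metric Set Filter Topology
open scoped ComplexConjugate ENNReal NNReal

namespace Cal

private lemma ksS_fd {φ : ℂ → ℝ} {z : ℂ} (hφ : DifferentiableAt ℝ φ z) (v : ℂ) :
    fderiv ℝ (fun w => ((φ w : ℝ) : ℂ)) z v = ((fderiv ℝ φ z v : ℝ) : ℂ) := by
  have h := (Complex.ofRealCLM.hasFDerivAt (x := φ z)).comp z hφ.hasFDerivAt
  have h2 : HasFDerivAt (fun w => ((φ w : ℝ) : ℂ)) (Complex.ofRealCLM.comp (fderiv ℝ φ z)) z := h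
  rw [h2.fderiv]
  rfl

private lemma ksS_sign_meas : Measurable Real.sign := by
  have h : Real.sign = fun r : ℝ => if r < 0 then (-1 : ℝ) else if 0 < r then 1 else 0 := rfl
  rw [h]
  exact Measurable.ite measurableSet_Iio measurable_const
    (Measurable.ite measurableSet_Ioi measurable_const measurable_const)

private lemma ksS_sign_bd (r : ℝ) : |Real.sign r| ≤ 1 := by
  rcases Real.sign_apply_eq r with h | h | h <;> rw [h] <;> simp

private lemma ksS_even {φ : ℂ → ℝ} (hd : Differentiable ℝ φ) (hs : ∀ z, φ (conj z) = φ z) (z : ℂ) :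
    conj (db (fun w => ((φ w : ℝ) : ℂ)) (conj z)) = db (fun w => ((φ w : ℝ) : ℂ)) z := by
  have h1 : HasFDerivAt φ ((fderiv ℝ φ (conj z)).comp (Complex.conjCLE : ℂ →L[ℝ] ℂ)) z := by
    have hc : HasFDerivAt (fun w : ℂ => conj w) (Complex.conjCLE : ℂ →L[ℝ] ℂ) z :=
      Complex.conjCLE.hasFDerivAt
    have h2 := (hd (conj z)).hasFDerivAt.comp z hc
    have h3 : (φ ∘ fun w : ℂ => conj w) = φ := funext fun w => hs w
    rwa [h3] at h2
  have e1 : fderiv ℝ φ z 1 = fderiv ℝ φ (conj z) 1 := by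
    rw [h1.fderiv]
    show fderiv ℝ φ (conj z) (conj (1 : ℂ)) = _
    rw [map_one]
  have e2 : fderiv ℝ φ z I = - fderiv ℝ φ (conj z) I := by
    rw [h1.fderiv]
    show fderiv ℝ φ (conj z) (conj I) = _
    rw [Complex.conj_I, map_neg]
  unfold db
  rw [ksS_fd (hd _), ksS_fd (hd _), ksS_fd (hd _), ksS_fd (hd _), e1, e2, map_div₀, map_add, map_mul,
    Complex.conj_ofReal, Complex.conj_ofReal, Complex.conj_I, Complex.conj_ofNat]
  push_cast
  ring

private lemma ksS_db_zero {φ : ℂ → ℝ} {z : ℂ} (hz : z ∉ tsupport φ) :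
    db (fun w => ((φ w : ℝ) : ℂ)) z = 0 := by
  have h0 : φ =ᶠ[𝓝 z] 0 := notMem_tsupport_iff_eventuallyEq.mp hz
  have h1 : (fun w => ((φ w : ℝ) : ℂ)) =ᶠ[𝓝 z] fun _ => 0 := by
    filter_upwards [h0] with w hw
    rw [hw]
    simp
  unfold db
  rw [h1.fderiv_eq]
  simp

/-- the source term -/
private noncomputable def ksS_S (μ φ : ℂ → ℝ) (z : ℂ) : ℂ :=
  - (I * (1 + (μ z : ℂ)) * ((Real.sign z.im : ℝ) : ℂ) * db (fun w => ((φ w : ℝ) : ℂ)) z)

private lemma ksS_W2 {κ : ℝ} (hκ1 : κ < 1) {μ φ : ℂ → ℝ} (hμ : Mu κ (5 / 4) μ) (hφ : EvTF φ) :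
    W2 (ksS_S μ φ) ∧ ∃ M, ∀ z, ‖ksS_S μ φ z‖ ≤ M := by
  have hcφ : ContDiff ℝ (⊤ : ℕ∞) (fun w => ((φ w : ℝ) : ℂ)) := Complex.ofRealCLM.contDiff.comp hφ.tf.1
  have hc1 : ContDiff ℝ 1 (fun w => ((φ w : ℝ) : ℂ)) := hcφ.of_le (by simp)
  have hcf : Continuous (fderiv ℝ (fun w => ((φ w : ℝ) : ℂ))) := hc1.continuous_fderiv (by simp)
  have hcdb : Continuous (db (fun w => ((φ w : ℝ) : ℂ))) := by
    unfold db
    exact ((hcf.clm_apply continuous_const).add
      (continuous_const.mul (hcf.clm_apply continuous_const))).div_const _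
  have hcs : HasCompactSupport (db (fun w => ((φ w : ℝ) : ℂ))) := by
    refine HasCompactSupport.of_support_subset_isCompact hφ.tf.2.1 ?_
    intro z hz
    by_contra h
    exact hz (ksS_db_zero h)
  have hmem : MemLp (db (fun w => ((φ w : ℝ) : ℂ))) 2 volume := hcdb.memLp_of_hasCompactSupport hcs
  have hbd : ∀ z, ‖ksS_S μ φ z‖ ≤ 2 * ‖db (fun w => ((φ w : ℝ) : ℂ)) z‖ := by
    intro z
    unfold ksS_S
    rw [norm_neg, norm_mul, norm_mul, norm_mul, Complex.norm_I, one_mul]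
    have e1 : ‖(1 : ℂ) + (μ z : ℂ)‖ ≤ 2 := by
      refine (norm_add_le _ _).trans ?_
      rw [norm_one, Complex.norm_real, Real.norm_eq_abs]
      have := hμ.bd z
      linarith
    have e2 : ‖((Real.sign z.im : ℝ) : ℂ)‖ ≤ 1 := by
      rw [Complex.norm_real, Real.norm_eq_abs]
      exact ksS_sign_bd _
    have e3 : ‖(1 : ℂ) + (μ z : ℂ)‖ * ‖((Real.sign z.im : ℝ) : ℂ)‖ ≤ 2 * 1 :=
      mul_le_mul e1 e2 (norm_nonneg _) (by norm_num)
    rw [mul_one] at e3
    exact mul_le_mul_of_nonneg_right e3 (norm_nonneg _)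
  have hmeas : AEStronglyMeasurable (ksS_S μ φ) volume := by
    have hm : Measurable (ksS_S μ φ) := by
      unfold ksS_S
      have m1 : Measurable fun z => (μ z : ℂ) := Complex.measurable_ofReal.comp hμ.meas
      have m2 : Measurable fun z : ℂ => ((Real.sign z.im : ℝ) : ℂ) :=
        Complex.measurable_ofReal.comp (ksS_sign_meas.comp Complex.measurable_im)
      exact (((measurable_const.mul (measurable_const.add m1)).mul m2).mul hcdb.measurable).neg
    exact hm.aestronglyMeasurable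
  refine ⟨⟨hmem.of_le_mul hmeas (Filter.Eventually.of_forall hbd), ?_⟩, ?_⟩
  · intro z hz
    have hts : z ∉ tsupport φ := by
      intro h
      have := hφ.tf.2.2 h
      rw [mem_ball_zero_iff] at this
      linarith
    unfold ksS_S
    rw [ksS_db_zero hts]
    simp
  · obtain ⟨M, hM⟩ := hcs.exists_bound_of_continuous hcdb
    exact ⟨2 * M, fun z => (hbd z).trans (mul_le_mul_of_nonneg_left (hM z) (by norm_num))⟩

theorem piece_ksS (h1 : S_solve) (h2 : S_reg) (h3 : S_zero) (h4 : S_basic) (h5 : S_C3a) : S_ksS := by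
  intro κ hκ0 hκ1 μ hμ φ hφ
  obtain ⟨hW, M, hM⟩ := ksS_W2 hκ1 hμ.mu hφ
  obtain ⟨w, A, hw, hwd, heq⟩ := h1 κ hκ0 hκ1 μ hμ.mu _ hW 0
  obtain ⟨k, hkc, hkae, hkout⟩ := h2 κ hκ0 hκ1 μ hμ _ M hW hM 0 w A hw hwd heq
  have hk : WD univ k A w := by
    refine h4.2.2.2.1 univ _ A w k A w MeasurableSet.univ hwd ?_ (ae_eq_refl _) (ae_eq_refl _)
    rw [Measure.restrict_univ]
    filter_upwards [hkae] with z hz
    exact hz.symm
  have hdec : Dec k := by
    obtain ⟨C, hC0, hC, _⟩ := h5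
    refine ⟨C * (eLpNorm w 2 volume).toReal, fun z hz => ?_⟩
    rw [hkout z (by linarith)]
    have h0 : pv 0 z = 0 := by
      unfold pv
      simp
    rw [h0, zero_add]
    exact (hC w hw).1 z (by linarith)
  have heqk : ∀ᵐ z : ℂ, w z = (μ z : ℂ) * conj (A z)
      - I * (1 + (μ z : ℂ)) * ((Real.sign z.im : ℝ) : ℂ) * db (fun w => ((φ w : ℝ) : ℂ)) z := by
    filter_upwards [heq] with z hz
    rw [hz]
    unfold ksS_S
    ring
  have hdφ : Differentiable ℝ φ := hφ.tf.1.differentiable (by simp)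
  have hsymm : ∀ z, k (conj z) = conj (k z) := by
    have hset : {z : ℂ | conj z ∈ (univ : Set ℂ)} = univ := by
      ext z
      simp
    have w6 := h4.2.2.2.2.2 univ k A w hk
    rw [hset] at w6
    have w7 := h4.1 univ _ _ _ _ _ _ w6 (h4.2.1 univ _ _ _ (-1 : ℂ) hk)
    have hcj : ∀ᵐ z : ℂ, w (conj z) = (μ (conj z) : ℂ) * conj (A (conj z))
        - I * (1 + (μ (conj z) : ℂ)) * ((Real.sign (conj z).im : ℝ) : ℂ) *
          db (fun w => ((φ w : ℝ) : ℂ)) (conj z) :=
      (LinearIsometryEquiv.measurePreserving Complex.conjLIE).quasiMeasurePreserving.ae heqk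
    have heq' : ∀ᵐ z : ℂ, conj (w (conj z)) + -1 * w z =
        (μ z : ℂ) * conj (conj (A (conj z)) + -1 * A z) := by
      filter_upwards [heqk, hcj] with z e1 e2
      rw [e1, e2, hμ.mu.symm z, Complex.conj_im, Real.sign_neg]
      simp only [map_sub, map_add, map_mul, map_neg, map_one, Complex.conj_conj, Complex.conj_I,
        Complex.conj_ofReal, ksS_even hdφ hφ.symm z, Complex.ofReal_neg]
      ring
    have hdec' : Dec (fun z => conj (k (conj z)) + -1 * k z) := by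
      obtain ⟨C, hC⟩ := hdec
      refine ⟨C + C, fun z hz => ?_⟩
      have e1 : ‖conj (k (conj z)) + -1 * k z‖ ≤ ‖k (conj z)‖ + ‖k z‖ := by
        refine (norm_add_le _ _).trans ?_
        rw [norm_mul, norm_neg, norm_one, one_mul, Complex.norm_conj]
      have e2 := hC (conj z) (by rw [Complex.norm_conj]; exact hz)
      rw [Complex.norm_conj] at e2
      rw [add_div]
      exact e1.trans (add_le_add e2 (hC z hz))
    have hz := (h3 κ hκ0 hκ1 μ hμ.mu _ _ _ w7 heq' hdec').1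
    have hae : (fun z => conj (k (conj z))) =ᵐ[volume] k := by
      filter_upwards [hz] with z hz
      linear_combination hz
    have hcc : Continuous (fun z : ℂ => conj (k (conj z))) :=
      Complex.continuous_conj.comp (hkc.comp Complex.continuous_conj)
    have hall := (hcc.ae_eq_iff_eq volume hkc).mp hae
    intro z
    have := congrFun hall z
    have h2 : conj (conj (k (conj z))) = conj (k z) := by rw [← this]
    rwa [Complex.conj_conj] at h2
  exact ⟨k, A, w, ⟨hk, heqk, hsymm, hdec, hkc.continuousOn⟩, hkc⟩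

end Cal
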