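import Pool.Agent.Lib.MP_4ea4c7_an.StmD

open MeasureTheory Complex Metric Set Filter Topology
open scoped ComplexConjugate ENNReal NNReal

namespace Cal

private lemma ksb_axis_closed (φ : ℂ → ℝ) : IsClosed (axis φ) :=
  (isClosed_eq continuous_im continuous_const).inter (isClosed_tsupport φ)

private lemma ksb_ev {φ : ℂ → ℝ} {z : ℂ} (hz : z ∉ axis φ) :
    (fun w : ℂ => I * ((φ w : ℝ) : ℂ) * ((Real.sign w.im : ℝ) : ℂ)) =ᶠ[𝓝 z]
      fun w => (I * ((Real.sign z.im : ℝ) : ℂ)) * ((φ w : ℝ) : ℂ) := by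
  by_cases him : z.im = 0
  · have hts : z ∉ tsupport φ := fun h => hz ⟨him, h⟩
    have h0 : φ =ᶠ[𝓝 z] 0 := notMem_tsupport_iff_eventuallyEq.mp hts
    filter_upwards [h0] with w hw
    rw [hw]
    simp
  · have hs : ∀ᶠ w in 𝓝 z, Real.sign w.im = Real.sign z.im := by
      rcases lt_or_gt_of_ne him with h | h
      · filter_upwards [(isOpen_lt continuous_im continuous_const).mem_nhds h] with w hw
        rw [Real.sign_of_neg hw, Real.sign_of_neg h]
      · filter_upwards [(isOpen_lt continuous_const continuous_im).mem_nhds h] with w hw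
        rw [Real.sign_of_pos hw, Real.sign_of_pos h]
    filter_upwards [hs] with w hw
    rw [hw]
    ring

private lemma ksb_fd {φ : ℂ → ℝ} {z : ℂ} (hφ : DifferentiableAt ℝ φ z) (v : ℂ) :
    fderiv ℝ (fun w => ((φ w : ℝ) : ℂ)) z v = ((fderiv ℝ φ z v : ℝ) : ℂ) := by
  have h := (Complex.ofRealCLM.hasFDerivAt (x := φ z)).comp z hφ.hasFDerivAt
  have h2 : HasFDerivAt (fun w => ((φ w : ℝ) : ℂ)) (Complex.ofRealCLM.comp (fderiv ℝ φ z)) z := h
  rw [h2.fderiv]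
  rfl

private lemma ksb_diff {φ : ℂ → ℝ} {z : ℂ} (hφ : DifferentiableAt ℝ φ z) :
    DifferentiableAt ℝ (fun w => ((φ w : ℝ) : ℂ)) z :=
  ((Complex.ofRealCLM.hasFDerivAt (x := φ z)).comp z hφ.hasFDerivAt).differentiableAt

private lemma ksb_conj {φ : ℂ → ℝ} {z : ℂ} (hφ : DifferentiableAt ℝ φ z) :
    conj (dz (fun w => ((φ w : ℝ) : ℂ)) z) = db (fun w => ((φ w : ℝ) : ℂ)) z := by
  unfold dz db
  rw [ksb_fd hφ, ksb_fd hφ, map_div₀, map_sub, map_mul, Complex.conj_ofReal, Complex.conj_ofReal, Complex.conj_I,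
    Complex.conj_ofNat]
  ring

private lemma ksb_dzc {φ : ℂ → ℝ} {z : ℂ} (hφ : DifferentiableAt ℝ φ z) (c : ℂ) :
    dz (fun w => c * ((φ w : ℝ) : ℂ)) z = c * dz (fun w => ((φ w : ℝ) : ℂ)) z ∧
    db (fun w => c * ((φ w : ℝ) : ℂ)) z = c * db (fun w => ((φ w : ℝ) : ℂ)) z := by
  unfold dz db
  rw [fderiv_const_mul (ksb_diff hφ)]
  simp only [ContinuousLinearMap.smul_apply, smul_eq_mul]
  constructor <;> ring

private lemma ksb_db_zero {φ : ℂ → ℝ} {z : ℂ} (hz : z ∉ tsupport φ) :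
    db (fun w => ((φ w : ℝ) : ℂ)) z = 0 := by
  have h0 : φ =ᶠ[𝓝 z] 0 := notMem_tsupport_iff_eventuallyEq.mp hz
  have h1 : (fun w => ((φ w : ℝ) : ℂ)) =ᶠ[𝓝 z] fun _ => 0 := by
    filter_upwards [h0] with w hw
    rw [hw]
    simp
  unfold db
  rw [h1.fderiv_eq]
  simp

private lemma ksb_mono {κ r : ℝ} {μ : ℂ → ℝ} (hr : r ≤ 5 / 4) (hμ : Mu κ r μ) : Mu κ (5 / 4) μ :=
  ⟨hμ.meas, hμ.bd, fun z hz => hμ.supp z (lt_of_le_of_lt hr hz), hμ.symm⟩

theorem piece_ksb (h1 : S_uniq) (h2 : S_weyl) (h3 : S_zero) (h4 : S_basic) (h5 : S_smooth) : S_ksb := by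
  intro κ hκ0 hκ1 r hr1 hr2 μ hμ φ k A B hφ hk
  have hBzero : ∀ᵐ z : ℂ, r < ‖z‖ → B z = 0 := by
    filter_upwards [hk.eq] with z hz hrz
    have hts : z ∉ tsupport φ := by
      intro h
      have := hφ.tf.2.2 h
      rw [mem_ball_zero_iff] at this
      linarith
    rw [hz, hμ.supp z hrz, ksb_db_zero hts]
    simp
  have hU : IsOpen {z : ℂ | r < ‖z‖} := isOpen_lt continuous_const continuous_norm
  have hsub : {z : ℂ | r < ‖z‖} ⊆ (axis φ)ᶜ := by
    intro z hz hax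
    have := hφ.tf.2.2 hax.2
    rw [mem_ball_zero_iff] at this
    have hz' : r < ‖z‖ := hz
    linarith
  have hV : IsOpen (axis φ)ᶜ := (ksb_axis_closed φ).isOpen_compl
  refine ⟨?_, ?_, ?_, ?_⟩
  · obtain ⟨_, hA, hB, _⟩ := h1 k A B hk.wd (hBzero.mono fun z hz h => hz (lt_of_le_of_lt hr2 h)) hk.dec
    refine ⟨hA, hB, ?_⟩
    have hwd := h4.2.2.2.2.1 univ {z : ℂ | r < ‖z‖} k A B (subset_univ _) hk.wd
    refine (h2 _ k hU hwd.f2 ?_).2 (hk.cont.mono hsub)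
    intro ψ hψ
    rw [hwd.hB ψ hψ, neg_eq_zero]
    refine integral_eq_zero_of_ae ?_
    filter_upwards [hBzero] with z hz
    show B z * ψ z = 0
    by_cases hrz : r < ‖z‖
    · rw [hz hrz, zero_mul]
    · have : z ∉ tsupport ψ := fun h => hrz (hψ.2.2 h)
      rw [image_eq_zero_of_notMem_tsupport this, mul_zero]
  · intro k' A' B' hk'
    have w1 := h4.2.1 univ _ _ _ (-1 : ℂ) hk'.wd
    have w2 := h4.1 univ _ _ _ _ _ _ hk.wd w1
    have hdec : Dec (fun z => k z + -1 * k' z) := by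
      obtain ⟨C, hC⟩ := hk.dec
      obtain ⟨C', hC'⟩ := hk'.dec
      refine ⟨C + C', fun z hz => ?_⟩
      have e1 : ‖k z + -1 * k' z‖ ≤ ‖k z‖ + ‖k' z‖ := by
        refine (norm_add_le _ _).trans ?_
        rw [norm_mul, norm_neg, norm_one, one_mul]
      rw [add_div]
      exact e1.trans (add_le_add (hC z hz) (hC' z hz))
    have heq : ∀ᵐ z : ℂ, B z + -1 * B' z = (μ z : ℂ) * conj (A z + -1 * A' z) := by
      filter_upwards [hk.eq, hk'.eq] with z e1 e2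
      rw [e1, e2]
      simp only [map_add, map_mul, map_neg, map_one]
      ring
    obtain ⟨hz, hA⟩ := h3 κ hκ0 hκ1 μ (ksb_mono hr2 hμ) _ _ _ w2 heq hdec
    refine ⟨?_, ?_⟩
    · have hae : k =ᵐ[volume.restrict (axis φ)ᶜ] k' := by
        refine ae_restrict_of_ae ?_
        filter_upwards [hz] with z hz
        linear_combination hz
      have := MeasureTheory.Measure.eqOn_open_of_ae_eq hae hV hk.cont hk'.cont
      intro z hz
      exact this hz
    · filter_upwards [hA] with z hz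
      linear_combination hz
  · intro x
    have h := hk.symm (x : ℂ)
    rw [Complex.conj_ofReal] at h
    exact Complex.conj_eq_iff_im.mp h.symm
  · have hdφ : ∀ z, DifferentiableAt ℝ φ z := fun z => (hφ.tf.1.differentiable (by simp)) z
    have hcφ : ContDiff ℝ (⊤ : ℕ∞) (fun w => ((φ w : ℝ) : ℂ)) := Complex.ofRealCLM.contDiff.comp hφ.tf.1
    have hcd : ContDiffOn ℝ 1 (fun w : ℂ => I * ((φ w : ℝ) : ℂ) * ((Real.sign w.im : ℝ) : ℂ)) (axis φ)ᶜ := by
      intro z hz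
      have hat : ContDiffAt ℝ 1 (fun w => (I * ((Real.sign z.im : ℝ) : ℂ)) * ((φ w : ℝ) : ℂ)) z :=
        ((contDiff_const.mul hcφ).of_le (by simp)).contDiffAt
      exact (hat.congr_of_eventuallyEq (ksb_ev hz)).contDiffWithinAt
    refine ⟨hcd.continuousOn.add hk.cont, ?_⟩
    have w1 := h5.1 (axis φ)ᶜ _ hV hcd
    have w2 := h4.2.2.2.2.1 univ (axis φ)ᶜ k A B (subset_univ _) hk.wd
    have w3 := h4.1 _ _ _ _ _ _ _ w1 w2
    refine ⟨_, _, w3, ?_⟩
    rw [ae_restrict_iff' hV.measurableSet]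
    filter_upwards [hk.eq] with z hz hzV
    have e1 : dz (fun w : ℂ => I * ((φ w : ℝ) : ℂ) * ((Real.sign w.im : ℝ) : ℂ)) z =
        (I * ((Real.sign z.im : ℝ) : ℂ)) * dz (fun w => ((φ w : ℝ) : ℂ)) z := by
      rw [← (ksb_dzc (hdφ z) _).1]
      unfold dz
      rw [(ksb_ev hzV).fderiv_eq]
    have e2 : db (fun w : ℂ => I * ((φ w : ℝ) : ℂ) * ((Real.sign w.im : ℝ) : ℂ)) z =
        (I * ((Real.sign z.im : ℝ) : ℂ)) * db (fun w => ((φ w : ℝ) : ℂ)) z := by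
      rw [← (ksb_dzc (hdφ z) _).2]
      unfold db
      rw [(ksb_ev hzV).fderiv_eq]
    show db (fun w : ℂ => I * ((φ w : ℝ) : ℂ) * ((Real.sign w.im : ℝ) : ℂ)) z + B z =
      (μ z : ℂ) * conj (dz (fun w : ℂ => I * ((φ w : ℝ) : ℂ) * ((Real.sign w.im : ℝ) : ℂ)) z + A z)
    rw [e1, e2, map_add, map_mul, map_mul, ksb_conj (hdφ z), Complex.conj_I, Complex.conj_ofReal, hz]
    ring

end Cal
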