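import Pool.Agent.Lib.MP_4ea4c7_an.StmD

open MeasureTheory Complex Metric Set Filter Topology
open scoped ComplexConjugate ENNReal NNReal

namespace Cal

private theorem kd_fd {χ : ℂ → ℝ} {z : ℂ} (h : DifferentiableAt ℝ χ z) (v : ℂ) :
    fderiv ℝ (fun w => ((χ w : ℝ) : ℂ)) z v = ((fderiv ℝ χ z v : ℝ) : ℂ) := by
  have h1 : HasFDerivAt (fun w => ((χ w : ℝ) : ℂ)) (ofRealCLM.comp (fderiv ℝ χ z)) z :=
    ofRealCLM.hasFDerivAt.comp z h.hasFDerivAt
  rw [h1.fderiv]
  rfl

private theorem kd_conj {χ : ℂ → ℝ} {z : ℂ} (h : DifferentiableAt ℝ χ z) :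
    conj (dz (fun w => ((χ w : ℝ) : ℂ)) z) = db (fun w => ((χ w : ℝ) : ℂ)) z := by
  unfold dz db
  rw [kd_fd h, kd_fd h]
  rw [map_div₀, map_sub, map_mul, conj_I, conj_ofReal, conj_ofReal, map_ofNat]
  ring

private theorem kd_prod (h3 : S_bridge) (h4 : S_smooth) {u : ℂ → ℝ} {G : ℂ → ℂ}
    (hu : WG univ u G) {χ : ℂ → ℝ} (hχ : ContDiff ℝ (⊤ : ℕ∞) χ) :
    WG univ (fun z => χ z * u z) (fun z => (χ z : ℂ) * G z + (u z : ℂ) * gr χ z) := by
  have w1 := h3.2.1 univ u G hu
  have hχc : ContDiff ℝ (⊤ : ℕ∞) (fun z => ((χ z : ℝ) : ℂ)) := ofRealCLM.contDiff.comp hχ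
  have w2 := h4.2.2 univ _ _ _ (fun z => ((χ z : ℝ) : ℂ)) isOpen_univ w1 hχc.contDiffOn
  have w3 := (h3.1 univ _ _ _ w2).1
  have e1 : (fun z => χ z * u z) = fun z => (((u z : ℝ) : ℂ) * ((χ z : ℝ) : ℂ)).re := by
    funext z
    rw [← ofReal_mul, ofReal_re]
    ring
  have hd : ∀ z, DifferentiableAt ℝ χ z := fun z =>
    (hχ.differentiable (by simp)) z
  have e2 : (fun z => (χ z : ℂ) * G z + (u z : ℂ) * gr χ z) = fun z =>
      conj (conj (G z) / 2 * ((χ z : ℝ) : ℂ) + ((u z : ℝ) : ℂ) * dz (fun z => ((χ z : ℝ) : ℂ)) z) +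
      (G z / 2 * ((χ z : ℝ) : ℂ) + ((u z : ℝ) : ℂ) * db (fun z => ((χ z : ℝ) : ℂ)) z) := by
    funext z
    rw [map_add, map_mul, map_mul, kd_conj (hd z), conj_ofReal, conj_ofReal,
      h3.2.2.2 χ z (hd z), map_div₀, map_ofNat, conj_conj]
    ring
  rw [e1, e2]
  exact w3

private theorem kd_fin {K : Set ℂ} (hK : IsCompact K) : IsFiniteMeasure (volume.restrict K) :=
  ⟨by simpa using hK.measure_lt_top⟩

private theorem kd_mem {K : Set ℂ} (hK : IsCompact K) {c a : ℂ → ℂ}
    (hc : Continuous c) (ha : MemLp a 2 (volume.restrict K)) :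
    MemLp (fun z => c z * a z) 2 (volume.restrict K) := by
  obtain ⟨P, hP⟩ : ∃ P : ℝ, ∀ z ∈ K, ‖c z‖ ≤ P := hK.exists_bound_of_continuousOn hc.continuousOn
  refine ha.of_le_mul (c := P) ?_ ?_
  · exact (hc.aestronglyMeasurable).mul ha.aestronglyMeasurable
  · filter_upwards [ae_restrict_mem hK.measurableSet] with z hz
    rw [norm_mul]
    exact mul_le_mul_of_nonneg_right (hP z hz) (norm_nonneg _)

private theorem kd_glob {K : Set ℂ} (hK : IsCompact K) {g : ℂ → ℂ}
    (hg : MemLp g 2 (volume.restrict K)) (h0 : ∀ z, z ∉ K → g z = 0) : MemLp g 2 volume := by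
  have : K.indicator g = g := by
    funext z
    by_cases hz : z ∈ K
    · rw [indicator_of_mem hz]
    · rw [indicator_of_notMem hz, h0 z hz]
  rw [← this]
  exact (memLp_indicator_iff_restrict hK.measurableSet).2 hg

private theorem kd_gr {χ : ℂ → ℝ} (hχ : ContDiff ℝ (⊤ : ℕ∞) χ) : Continuous (gr χ) := by
  have h : Continuous (fderiv ℝ χ) := hχ.continuous_fderiv (by simp)
  have h1 : Continuous fun z => fderiv ℝ χ z 1 := h.clm_apply continuous_const
  have h2 : Continuous fun z => fderiv ℝ χ z I := h.clm_apply continuous_const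
  exact (continuous_ofReal.comp h1).add (continuous_const.mul (continuous_ofReal.comp h2))

private theorem kd_gr0 {χ : ℂ → ℝ} {z : ℂ} (hz : z ∉ tsupport χ) : gr χ z = 0 := by
  have : fderiv ℝ χ z = 0 := by
    by_contra hne
    exact hz (support_fderiv_subset ℝ hne)
  simp [gr, this]

private theorem kd_loc {χ χ' : ℂ → ℝ} {z : ℂ} (h : χ =ᶠ[𝓝 z] χ') : gr χ z = gr χ' z := by
  unfold gr
  rw [h.fderiv_eq]

/-- product with a compactly supported smooth function: square integrability -/
private theorem kd_T {u : ℂ → ℝ} {G : ℂ → ℂ} (hu : WG univ u G) {χ : ℂ → ℝ}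
    (hχ : RTF univ χ) :
    MemLp (fun z => (χ z : ℂ) * G z + (u z : ℂ) * gr χ z) 2 volume := by
  have hK : IsCompact (tsupport χ) := hχ.2.1
  refine kd_glob hK ?_ ?_
  · have h1 := kd_mem hK (continuous_ofReal.comp hχ.1.continuous)
      (hu.G2 _ hK (subset_univ _))
    have h2 := kd_mem hK (kd_gr hχ.1) (hu.u2 _ hK (subset_univ _))
    refine (h1.add h2).ae_eq (Eventually.of_forall fun z => ?_)
    simp only [Pi.add_apply, Function.comp_apply]
    ring
  · intro z hz
    have : χ z = 0 := image_eq_zero_of_notMem_tsupport hz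
    rw [this, kd_gr0 hz]
    simp

private theorem kd_meas : MeasurableSet HB := by
  have h1 : IsOpen {z : ℂ | ‖z‖ < 1} := isOpen_lt continuous_norm continuous_const
  have h2 : IsOpen {z : ℂ | 0 < z.im} := isOpen_lt continuous_const continuous_im
  exact (h1.inter h2).measurableSet

private theorem kd_sub : HB ⊆ closedBall (0 : ℂ) 1 := by
  intro z hz
  rw [mem_closedBall, dist_zero_right]
  exact hz.1.le

/-- radial cutoff -/
private theorem kd_om (r : ℝ) (hr : r < 1) : ∃ ω : ℂ → ℝ, RTF univ ω ∧ (∀ z, ω (conj z) = ω z) ∧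
    (∀ z, ‖z‖ ≤ r → ω z = 1) ∧ ∃ s : ℝ, s < 1 ∧ ∀ z, s < ‖z‖ → ω z = 0 := by
  set r1 : ℝ := max r 0 with hr1
  have h1 : r1 < 1 := max_lt hr one_pos
  have h0 : 0 ≤ r1 := le_max_right _ _
  have ht : r1 ^ 2 < 1 := by nlinarith
  set s : ℝ := (r1 ^ 2 + 1) / 2 with hs
  have hs1 : s < 1 := by rw [hs]; linarith
  have hs2 : r1 ^ 2 < s := by rw [hs]; linarith
  have hs0 : 0 ≤ s := (sq_nonneg r1).trans hs2.le
  refine ⟨fun z => Real.smoothTransition ((s - ‖z‖ ^ 2) / (s - r1 ^ 2)), ⟨?_, ?_, subset_univ _⟩,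
    ?_, ?_, Real.sqrt s, ?_, ?_⟩
  · have e1 : ContDiff ℝ (⊤ : ℕ∞) fun z : ℂ => (s - ‖z‖ ^ 2) / (s - r1 ^ 2) :=
      (contDiff_const.sub (contDiff_norm_sq ℝ)).div_const _
    exact Real.smoothTransition.contDiff.comp e1
  · refine HasCompactSupport.intro (isCompact_closedBall (0 : ℂ) 1) fun z hz => ?_
    rw [mem_closedBall, dist_zero_right, not_le] at hz
    refine Real.smoothTransition.zero_of_nonpos ?_
    refine div_nonpos_of_nonpos_of_nonneg ?_ (by linarith)
    nlinarith
  · intro z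
    simp only [RCLike.norm_conj]
  · intro z hz
    refine Real.smoothTransition.one_of_one_le ?_
    rw [one_le_div (by linarith)]
    have : ‖z‖ ≤ r1 := hz.trans (le_max_left _ _)
    have h3 := pow_le_pow_left₀ (norm_nonneg z) this 2
    linarith
  · rw [Real.sqrt_lt' one_pos]
    simpa using hs1
  · intro z hz
    refine Real.smoothTransition.zero_of_nonpos ?_
    refine div_nonpos_of_nonpos_of_nonneg ?_ (by linarith)
    have h3 := (Real.sqrt_lt' (lt_of_le_of_lt (Real.sqrt_nonneg s) hz)).1 hz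
    linarith

theorem piece_ksdn (_h1 : S_ksb) (h2 : S_odd0) (h3 : S_bridge) (h4 : S_smooth) (_h5 : S_basic)
    (h6 : S_wedge) (h7 : S_zz) : S_ksdn := by
  intro κ hκ0 hκ1 μ hμ φ k A B hφ hk
  have hdφ : ∀ z, DifferentiableAt ℝ φ z := fun z => (hφ.tf.1.differentiable (by simp)) z
  -- part 1
  have part1 : ∀ᵐ z ∂(volume.restrict UH),
      ((gam μ z : ℝ) : ℂ) * (gr φ z + I * (conj (A z) - B z)) = I * (conj (A z) + B z) := by
    have hUH : MeasurableSet UH := (isOpen_lt continuous_const continuous_im).measurableSet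
    filter_upwards [ae_restrict_of_ae hk.eq, ae_restrict_mem hUH] with z hz hzU
    have hs : Real.sign z.im = 1 := Real.sign_of_pos hzU
    rw [hs, ofReal_one, mul_one] at hz
    have hb : |μ z| ≤ κ := hμ.bd z
    have hne : (1 : ℝ) - μ z ≠ 0 := by
      have := abs_le.1 hb
      linarith
    have hneC : (1 : ℂ) - (μ z : ℂ) ≠ 0 := by exact_mod_cast hne
    rw [h3.2.2.2 φ z (hdφ z), hz]
    unfold gam
    push_cast
    rw [div_mul_eq_mul_div, div_eq_iff hneC]
    ring_nf
    simp only [I_sq]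
    ring
  refine ⟨part1, ?_⟩
  intro χ hχ hχe hχ0 hχ1
  obtain ⟨r, hr1, hr⟩ := hχ1
  -- weak gradient of the imaginary part
  obtain ⟨wre, wim⟩ := h3.1 univ k A B hk.wd
  have hkim : ∀ z, (k (conj z)).im = -(k z).im := by
    intro z
    rw [hk.symm z, conj_im]
  refine ⟨?_, ?_⟩
  · refine ⟨?_, ?_, ?_, ?_, ?_⟩
    · -- continuity
      rw [continuous_iff_continuousAt]
      intro z
      by_cases hz : z ∈ tsupport φ
      · have h0 : (fun z => χ z * (k z).im) =ᶠ[𝓝 z] fun _ => 0 := by
          have := hχ0.filter_mono (nhds_le_nhdsSet hz)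
          filter_upwards [this] with w hw
          rw [hw, zero_mul]
        exact continuousAt_const.congr h0.symm
      · have hax : IsClosed (axis φ) := by
          have : axis φ = {z : ℂ | z.im = 0} ∩ tsupport φ := rfl
          rw [this]
          exact (isClosed_eq continuous_im continuous_const).inter (isClosed_tsupport φ)
        have hz' : z ∈ (axis φ)ᶜ := fun h => hz h.2
        have hkc : ContinuousAt k z := hk.cont.continuousAt (hax.isOpen_compl.mem_nhds hz')
        exact hχ.1.continuous.continuousAt.mul (continuous_im.continuousAt.comp hkc)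
    · exact hχ.2.1.mul_right
    · intro z
      rw [hχe z, hkim z]
      ring
    · exact kd_prod h3 h4 wim hχ.1
    · exact kd_T wim hχ
  · refine ⟨?_, ?_, ?_⟩
    · -- Z0
      obtain ⟨ω, hω, hωe, hω1, s, hs1, hs⟩ := kd_om r hr1
      have hχ' : RTF univ (fun z => ω z * (1 - χ z)) := by
        refine ⟨hω.1.mul (contDiff_const.sub hχ.1), hω.2.1.mul_right, subset_univ _⟩
      have hW := kd_prod h3 h4 wim hχ'.1
      have hT := kd_T wim hχ'
      have hz0 := h2 _ _ hW hT (by
        intro z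
        rw [hχe z, hωe z, hkim z]
        ring) ⟨s, hs1, fun z hz => by rw [hs z hz]; ring⟩
      refine (h7 HB kd_meas).2.2.2.2 _ _ hz0 ?_
      filter_upwards [ae_restrict_mem kd_meas] with z hz
      have hloc : (fun z => ω z * (1 - χ z)) =ᶠ[𝓝 z] fun z => 1 - χ z := by
        have hopen : IsOpen {z : ℂ | ‖z‖ < 1} := isOpen_lt continuous_norm continuous_const
        filter_upwards [hopen.mem_nhds hz.1] with w hw
        by_cases hwr : ‖w‖ ≤ r
        · rw [hω1 w hwr, one_mul]
        · rw [hr w (not_le.1 hwr).le (le_of_lt hw)]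
          ring
      have e1 : gr (fun z => ω z * (1 - χ z)) z = - gr χ z := by
        rw [kd_loc hloc]
        unfold gr
        have : fderiv ℝ (fun z => 1 - χ z) z = - fderiv ℝ χ z := by
          rw [fderiv_const_sub]
        rw [this]
        simp only [neg_apply]
        push_cast
        ring
      have e2 : ω z * (1 - χ z) = 1 - χ z := hloc.self_of_nhds
      rw [e1, e2]
      push_cast
      ring
    · -- MemLp
      have hK : IsCompact (closedBall (0 : ℂ) 1) := isCompact_closedBall _ _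
      have h8 : MemLp (gr φ) 2 (volume.restrict (closedBall (0 : ℂ) 1)) := by
        have := kd_fin hK
        have h9 := kd_mem hK (kd_gr hφ.tf.1) (a := fun _ => (1 : ℂ)) (memLp_const _)
        simpa using h9
      have h10 := h8.add (wim.G2 _ hK (subset_univ _))
      exact h10.mono_measure (Measure.restrict_mono kd_sub le_rfl)
    · -- equation
      intro η hη
      have hη0 : ∀ z, z ∉ HB → gr η z = 0 := fun z hz => kd_gr0 fun h => hz (hη.2.2 h)
      have hwη : WG univ η (gr η) := h3.2.2.1 univ η isOpen_univ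
        (hη.1.of_le (by exact_mod_cast le_top)).contDiffOn
      obtain ⟨-, h8, -⟩ := h6 univ η (fun z => (k z).re) (gr η) (fun z => conj (A z) + B z)
        isOpen_univ hwη hη.2.1 (subset_univ _) wre
      have e1 : ∫ z in HB, gam μ z * ip (gr φ z + I * (conj (A z) - B z)) (gr η z) =
          ∫ z in HB, - cr (gr η z) (conj (A z) + B z) := by
        have hsub : volume.restrict HB ≤ volume.restrict UH :=
          Measure.restrict_mono (fun z hz => hz.2) le_rfl
        refine integral_congr_ae ?_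
        filter_upwards [ae_mono hsub part1] with z hz
        have e2 : gam μ z * ip (gr φ z + I * (conj (A z) - B z)) (gr η z) =
            ip (((gam μ z : ℝ) : ℂ) * (gr φ z + I * (conj (A z) - B z))) (gr η z) := by
          unfold ip
          rw [mul_assoc, re_ofReal_mul]
        rw [e2, hz]
        unfold ip cr
        simp only [mul_re, mul_im, conj_re, conj_im, I_re, I_im]
        ring
      rw [e1, integral_neg, neg_eq_zero]
      rw [← h8]
      refine setIntegral_eq_integral_of_forall_compl_eq_zero fun z hz => ?_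
      rw [hη0 z hz]
      simp [cr]

end Cal
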