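import Pool.Agent.Lib.MP_4ea4c7_an.StmC2

open MeasureTheory Complex Metric Set Filter Topology
open scoped ComplexConjugate ENNReal NNReal

namespace Cal

noncomputable section

private theorem ksflux_cr_anti (a b : ℂ) : cr a b = - cr b a := by
  unfold cr
  simp only [mul_im, conj_re, conj_im]
  ring

private theorem ksflux_cr_even (a b : ℂ) : cr (conj a) (-(conj b)) = cr a b := by
  unfold cr
  simp only [mul_im, neg_re, neg_im, conj_re, conj_im]
  ring

private theorem ksflux_ip (v h : ℂ) : ip (I * v) h = cr v h := by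
  unfold ip cr
  simp only [mul_re, mul_im, I_re, I_im, conj_re, conj_im]
  ring

private theorem ksflux_alg (m : ℝ) (hm : 1 - m ≠ 0) (P b d : ℂ)
    (h : b + I * d = (m : ℂ) * (P - I * d)) :
    (((1 + m) / (1 - m) : ℝ) : ℂ) * (2 * d + I * (P - b)) = I * (P + b) := by
  have hb : b = (m : ℂ) * (P - I * d) - I * d := by rw [← h]; ring
  have hm' : (1 - (m : ℂ)) ≠ 0 := by
    intro h0
    apply hm
    have : ((1 - m : ℝ) : ℂ) = 0 := by push_cast; exact h0
    exact_mod_cast this
  have e1 : 2 * d + I * (P - b) = (1 - (m : ℂ)) * (I * (P - I * d)) := by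
    rw [hb]
    linear_combination (2 * d) * I_mul_I
  rw [e1]
  have e2 : I * (P + b) = (1 + (m : ℂ)) * (I * (P - I * d)) := by
    rw [hb]; ring
  rw [e2]
  push_cast
  rw [← mul_assoc, div_mul_cancel₀ _ hm']

private theorem ksflux_dz (φ : ℂ → ℝ) (z : ℂ) (hφ : DifferentiableAt ℝ φ z) :
    conj (dz (fun w => ((φ w : ℝ) : ℂ)) z) = db (fun w => ((φ w : ℝ) : ℂ)) z := by
  have h : HasFDerivAt (fun w => ((φ w : ℝ) : ℂ)) (Complex.ofRealCLM.comp (fderiv ℝ φ z)) z :=
    Complex.ofRealCLM.hasFDerivAt.comp z hφ.hasFDerivAt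
  unfold dz db
  rw [h.fderiv]
  simp only [ContinuousLinearMap.comp_apply, Complex.ofRealCLM_apply, map_div₀, map_sub, map_mul,
    conj_ofReal, conj_I, map_ofNat]
  ring

/-- [HC9] -/
theorem piece_ksflux (h1 : S_ksup) (h2 : S_gsym) (h3 : S_half) (h4 : S_wedge) (h5 : S_bridge) :
    S_ksflux := by
  intro κ _hκ0 hκ1 μ φ k A B hμ hφ hK Ψ H hΨ
  have hwg : WG univ (fun z => (k z).re) (fun z => conj (A z) + B z) := (h5.1 univ k A B hK.wd).1
  obtain ⟨hint, hzero, -⟩ := h4 univ Ψ (fun z => (k z).re) H (fun z => conj (A z) + B z)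
    isOpen_univ hΨ.wg hΨ.supp (subset_univ _) hwg
  set F : ℂ → ℝ := fun z => cr (conj (A z) + B z) (H z) with hF
  have hFneg : F = fun z => - cr (H z) (conj (A z) + B z) := by
    funext z; exact ksflux_cr_anti _ _
  have hFint : Integrable F volume := by rw [hFneg]; exact hint.neg
  have hFzero : ∫ z, F z = 0 := by rw [hFneg, integral_neg, hzero, neg_zero]
  have e1 := h2 (fun z => (k z).re) (fun z => conj (A z) + B z) 1 hwg
    (by intro z; simp [hK.symm z]) (Or.inl rfl)
  have e2 := h2 Ψ H (-1) hΨ.wg (by intro z; rw [hΨ.odd z]; ring) (Or.inr rfl)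
  have hev : ∀ᵐ z, F (conj z) = F z := by
    filter_upwards [e1, e2] with z h1' h2'
    simp only [hF]
    rw [h1', h2']
    have := ksflux_cr_even (conj (A z) + B z) (H z)
    rw [← this]
    congr 1
    · push_cast; ring
    · push_cast; ring
  have hhalf := h3.1 F hFint hev
  rw [hFzero, zero_div] at hhalf
  have key : F =ᵐ[volume.restrict UH]
      fun z => gam μ z * ip (gr φ z + I * (conj (A z) - B z)) (H z) := by
    filter_upwards [(h1 μ φ k A B hφ hK).2] with z hz
    have hd : DifferentiableAt ℝ φ z := (hφ.tf.1.differentiable (by simp)) z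
    have hm : 1 - μ z ≠ 0 := by
      have := (abs_le.mp (hμ.bd z)).2
      intro h
      linarith
    have hz' : B z + I * db (fun w => ((φ w : ℝ) : ℂ)) z
        = (μ z : ℂ) * (conj (A z) - I * db (fun w => ((φ w : ℝ) : ℂ)) z) := by
      rw [hz, map_add, map_mul, ksflux_dz φ z hd, conj_I]
      ring
    have halg := ksflux_alg (μ z) hm (conj (A z)) (B z) _ hz'
    rw [h5.2.2.2 φ z hd]
    simp only [hF]
    rw [← ksflux_ip, ← halg]
    unfold gam ip
    rw [mul_assoc, re_ofReal_mul]
  refine ⟨hFint.restrict.congr key, ?_⟩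
  rw [← integral_congr_ae key]
  exact hhalf

end

end Cal
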