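import Pool.Agent.Lib.MP_4ea4c7_an.Stm1
import Pool.Agent.Lib.MP_4ea4c7_an.StmC

/-! Piece HC1: the function `F = i φ + k` in the upper half plane. -/

open MeasureTheory Complex Metric Set Filter Topology
open scoped ComplexConjugate ENNReal NNReal

namespace Cal

private lemma ku_fd {φ : ℂ → ℝ} (hφ : ContDiff ℝ (⊤ : ℕ∞) φ) (z v : ℂ) :
    fderiv ℝ (fun w => ((φ w : ℝ) : ℂ)) z v = ((fderiv ℝ φ z v : ℝ) : ℂ) := by
  have h1 : HasFDerivAt φ (fderiv ℝ φ z) z := (hφ.differentiable (by simp)).differentiableAt.hasFDerivAt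
  have h2 : HasFDerivAt (fun w => ((φ w : ℝ) : ℂ)) (Complex.ofRealCLM.comp (fderiv ℝ φ z)) z :=
    (Complex.ofRealCLM.hasFDerivAt (x := φ z)).comp z h1
  rw [h2.fderiv]
  simp

private lemma ku_conj {φ : ℂ → ℝ} (hφ : ContDiff ℝ (⊤ : ℕ∞) φ) (z : ℂ) :
    conj (dz (fun w => ((φ w : ℝ) : ℂ)) z) = db (fun w => ((φ w : ℝ) : ℂ)) z := by
  unfold dz db
  rw [ku_fd hφ, ku_fd hφ]
  have h2 : conj (2 : ℂ) = 2 := Complex.conj_ofNat 2
  rw [map_div₀, h2]
  simp

theorem piece_ksup (h1 : S_basic) (h2 : S_smooth) : S_ksup := by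
  intro μ φ k A B hφ hK
  have hUH : IsOpen UH := by
    have : UH = {z : ℂ | 0 < z.im} := rfl
    rw [this]
    exact isOpen_lt continuous_const Complex.continuous_im
  have hs : ContDiff ℝ (⊤ : ℕ∞) φ := hφ.tf.1
  have hΦ : ContDiff ℝ 1 (fun w => ((φ w : ℝ) : ℂ)) :=
    (Complex.ofRealCLM.contDiff.comp hs).of_le (by exact_mod_cast le_top)
  have w1 := h2.1 UH _ hUH hΦ.contDiffOn
  have w2 := h1.2.1 UH _ _ _ I w1
  have w3 := h1.2.2.2.2.1 univ UH k A B (subset_univ _) hK.wd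
  have w4 := h1.1 UH _ _ _ _ _ _ w3 w2
  refine ⟨?_, ?_⟩
  · have e : (fun z => I * (φ z : ℂ) + k z) = fun z => k z + I * (φ z : ℂ) := by
      funext z
      ring
    rw [e]
    exact w4
  · have hE := ae_restrict_of_ae (s := UH) hK.eq
    filter_upwards [hE, ae_restrict_mem hUH.measurableSet] with z hz hm
    have him : 0 < z.im := hm
    rw [hz, map_add, map_mul, ku_conj hs, conj_I, Real.sign_of_pos him]
    push_cast
    ring

end Cal
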