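import Pool.Agent.Lib.MP_4ea4c7_an.DefsH
import Pool.Agent.Lib.MP_4ea4c7_an.Stm1

/-!
# MP_4ea4c7_an, stage 2, part 1: tools

Paper: /team-store/MP_4ea4c7_stage2_paper.md, section 1.  Every `S_xx : Prop` is one piece; complete informal proofs are in the docstrings.
The pieces `S_wedge`, `S_chain`, ... of stage 1 are in Stm1.lean (all proved, files P_wedge.lean etc.; use them as hypotheses).
-/

open MeasureTheory Complex Metric Set Filter Topology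
open scoped ComplexConjugate ENNReal NNReal

namespace Cal

noncomputable section

/-- [a1] Maximum principle for maps with nonnegative Jacobian. Proof. It is enough to treat `Re f` (replace `f` by `c f`, `c = ±1, ±I`: derivatives `c A, c B`; note `Re (c f)` for `c = ∓I` is `± Im f`). Let `0 < r < ρ`, `M = max` of `Re f` on `sphere z0 r`, and suppose
`Re f z1 > M`, `z1 ∈ closedBall z0 r` (so `z1 ∈ ball z0 r`). Choose `M < m1 < Re f z1` and a smooth `T : ℝ → ℝ` with `T = 0` on `(-∞, m1]`, `T' > 0` on `(m1, ∞)` (e.g. `T t = exp (-1/(t-m1))`-type, `expNegInvGlue (t - m1)`). The function `a z = T (Re f z)` on `ball z0 r`, `0` elsewhere,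
is continuous with compact support in `ball z0 r` (near the sphere `Re f < m1`) and has weak gradient `T' (Re f) ∇Re f` there, zero elsewhere (`S_chain` applied to the function `w ↦ T w.re`, `S_bridge`, `S_glue`). By `S_wedge` with `b = Im f` on `U = ball z0 ρ`: `0 = ∫ cr (∇a) (∇Im f) = ∫ T' (Re f) J`,
`J = ‖A‖² - ‖B‖² ≥ 0` (`∇Re f = conj A + B`, `∇Im f = I (conj A - B)`, `cr (conj A + B) (I (conj A - B)) = ‖A‖² - ‖B‖²`). So `J = 0` a.e. where `Re f > m1`, there `A = B = 0`, hence the gradient of `a` is zero a.e., `a` is constant (`S_aconst`), so zero: contradiction to `a z1 > 0`. -/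
def S_amp : Prop := ∀ (z0 : ℂ) (ρ : ℝ) (f A B : ℂ → ℂ), ContinuousOn f (ball z0 ρ) → WD (ball z0 ρ) f A B →
  (∀ᵐ z ∂(volume.restrict (ball z0 ρ)), ‖B z‖ ≤ ‖A z‖ ∧ (‖B z‖ = ‖A z‖ → A z = 0)) → MPP z0 ρ f

/-- [a2] Zero gradient. Proof: locally (on a ball `V` with closure in `U`) mollify: `u_n = mol ρ_n u` has gradient `mol ρ_n G = 0` near `V`, so is constant on `V`, and `u_n → u` in `L²(V)` (`S_bump`/`S_moll` with `S_bridge`), so `u` is a.e. constant on `V`. Patch: the sets of points of `U` near which `u = c` a.e.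
are open for every `c`, disjoint for different `c`, and cover `U`; `U` is preconnected. For continuous `u` the equality holds everywhere. -/
def S_aconst : Prop := ∀ (U : Set ℂ) (u : ℂ → ℝ) (G : ℂ → ℂ), IsOpen U → IsPreconnected U → WG U u G → (∀ᵐ z ∂(volume.restrict U), G z = 0) →
  (∃ c : ℝ, ∀ᵐ z ∂(volume.restrict U), u z = c) ∧ (ContinuousOn u U → ∀ z ∈ U, ∀ w ∈ U, u z = u w)

/-- [a3] Courant-Lebesgue for one real function. Proof: `S_CL` for the complex function `g z = (s z : ℂ)`: `WD` with `A = conj S/2`, `B = S/2` (`S_bridge` (2)), `‖A‖² + ‖B‖² = ‖S‖²/2`; `MPP` for `c = 1, -1` is the hypothesis, for `c = ±I` the real part of `c g` is zero. -/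
def S_acl : Prop := ∀ (z0 : ℂ) (ρ M : ℝ) (s : ℂ → ℝ) (S : ℂ → ℂ), 0 < ρ → ContinuousOn s (ball z0 ρ) → WG (ball z0 ρ) s S → IntegrableOn (fun z => ‖S z‖ ^ 2) (ball z0 ρ) volume →
  ∫ z in ball z0 ρ, ‖S z‖ ^ 2 ≤ M →
  (∀ r, 0 < r → r < ρ → ∀ z ∈ closedBall z0 r, (∃ z' ∈ sphere z0 r, s z ≤ s z') ∧ ∃ z' ∈ sphere z0 r, s z' ≤ s z) →
  ∀ δ : ℝ, 0 < δ → δ < ρ → ∀ z ∈ closedBall z0 δ, |s z - s z0| ≤ 8 * Real.sqrt (M / Real.log (ρ / δ))

/-! ## Beltrami equation without symmetry, regularity -/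

/-- [a4] Existence, as `S_solve` (stage 1, P_solve.lean) without symmetry of `μ` and with `p = 0`: the same proof (copy it). -/
def S_asolve : Prop := ∀ κ : ℝ, 0 ≤ κ → κ < 1 → ∀ μ, NMu κ (5 / 4) μ → ∀ S : ℂ → ℂ, W2 S → ∃ w A : ℂ → ℂ, W2 w ∧
  WD univ (Ct w) A w ∧ ∀ᵐ z, w z = (μ z : ℂ) * conj (A z) + S z

/-- [a5] Stability, as `S_stab` (stage 1, P_stab.lean) without symmetry, with `p_k = p = 0` and a fixed right hand side: the same proof (copy it). -/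
def S_astab : Prop := ∀ κ : ℝ, 0 ≤ κ → κ < 1 → ∀ (μ : ℂ → ℝ) (μk : ℕ → ℂ → ℝ), NMu κ (5 / 4) μ → (∀ k, NMu κ (5 / 4) (μk k)) →
  (∀ᵐ z, Tendsto (fun k => μk k z) atTop (𝓝 (μ z))) → ∀ (S : ℂ → ℂ), W2 S →
  ∀ (w A : ℂ → ℂ) (wk Ak : ℕ → ℂ → ℂ), W2 w → (∀ k, W2 (wk k)) → WD univ (Ct w) A w → (∀ k, WD univ (Ct (wk k)) (Ak k) (wk k)) →
  (∀ᵐ z, w z = (μ z : ℂ) * conj (A z) + S z) → (∀ k, ∀ᵐ z, wk k z = (μk k z : ℂ) * conj (Ak k z) + S z) →
  Tendsto (fun k => eLpNorm (fun z => wk k z - w z) 2 volume) atTop (𝓝 0) ∧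
  ∀ r : ℝ, Tendsto (fun k => eLpNorm (fun z => Ct (wk k) z - Ct w z) 2 (volume.restrict (closedBall 0 r))) atTop (𝓝 0)

/-- [a6] Regularity for smooth coefficients, as `S_reg` (stage 1, P_reg.lean), with `S ∈ L⁴` instead of bounded `S`, without symmetry. Proof: `h = Ct w`, `F = h - μ conj h` has weak `∂/∂z̄` equal to `w - (db μ) conj h - μ conj A = S - (db μ) conj h =: s`, zero outside the disc; `F - Ct s` has weak `∂/∂z̄` zero and is `Dec`: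
zero a.e. (`S_uniq`). `h ∈ L⁴(closedBall 0 2)` (`S_C5` (1)), so `s ∈ L⁴` and `Ct s` is continuous (`S_C5` (2)), and `h = (F + μ conj F)/(1-μ²)` a.e. -/
def S_areg4 : Prop := ∀ κ : ℝ, 0 ≤ κ → κ < 1 → ∀ μ, NMu κ (5 / 4) μ → ContDiff ℝ (⊤ : ℕ∞) μ → ∀ S : ℂ → ℂ, W2 S → MemLp S 4 volume → ∀ w A : ℂ → ℂ, W2 w →
  WD univ (Ct w) A w → (∀ᵐ z, w z = (μ z : ℂ) * conj (A z) + S z) → ∃ f : ℂ → ℂ, Continuous f ∧ ∀ᵐ z, f z = Ct w z

/-- [a7] Smooth approximation of coefficients (no symmetry): as `S_mollmu` (stage 1, P_mollmu.lean): `mol (ρ n) μ` for `n ≥ 7`, a subsequence converges a.e.; supports grow by at most `1/8`. -/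
def S_amollmu : Prop := ∀ (κ r : ℝ) (μ : ℂ → ℝ), 0 ≤ κ → 0 < r → NMu κ r μ → ∃ μk : ℕ → ℂ → ℝ, (∀ k, NMu κ (r + 1 / 8) (μk k)) ∧ (∀ k, ContDiff ℝ (⊤ : ℕ∞) (μk k)) ∧
  ∀ᵐ z, Tendsto (fun k => μk k z) atTop (𝓝 (μ z))

/-- [a8] Local regularity in a ball. `F ∈ L⁴` locally: for a real test function `χ'` with support in the ball, `χ' F` has compact support, so `χ' F = Ct (∂(χ' F)/∂z̄)` a.e. (`S_uniq`; `Dec` trivially), in `L⁴(closedBall 0 2)` by `S_C5` (1). Let `χ` be a real test function in `ball z0 ρ`, `χ = 1` on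
`ball z0 (ρ/2)`, `h = χ F`: `∂h/∂z̄ = μ conj(∂h/∂z) + S`, `S = (db χ) (F - μ conj F) ∈ L⁴` with compact support in the ball (`conj (dz χ) = db χ` for real `χ`). Let `μ'` be `μ` on the closed ball of radius `tsupport χ`, zero elsewhere (`NMu q 1`), `μ_k` from `S_amollmu` (`r = 1`), `w_k` from `S_asolve` for `μ_k, S`,
`w = ∂h/∂z̄` (changed on a null set to be zero outside), `h = Ct w` a.e. (`S_uniq`). `S_astab`: `Ct w_k → h` in `L²(closedBall 0 2)`. `Ct w_k` is a.e. equal to a continuous `f_k` (`S_areg4`). On `ball z0 (ρ/2)` `S = 0`, so `f_k` is a solution for `μ_k`, `|μ_k| ≤ q < 1`: `S_amp` on all small concentric balls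
around every `z1 ∈ ball z0 (ρ/2)` and `S_CL` (energies bounded: `‖w_k‖₂` and `‖A_k‖₂ = ‖w_k‖₂`) give equicontinuity of `f_k` at `z1`; `S_loc` (stage 1) with `V = ball z0 (ρ/2)` gives a continuous function a.e. equal to `h = F` there. -/
def S_aregb : Prop := ∀ (z0 : ℂ) (ρ q : ℝ) (μ : ℂ → ℝ) (F A B : ℂ → ℂ), 0 < ρ → ball z0 ρ ⊆ ball 0 1 → Measurable μ → q < 1 → (∀ z ∈ ball z0 ρ, |μ z| ≤ q) →
  WD (ball z0 ρ) F A B → (∀ᵐ z ∂(volume.restrict (ball z0 ρ)), B z = (μ z : ℂ) * conj (A z)) →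
  ∃ F' : ℂ → ℂ, ContinuousOn F' (ball z0 (ρ / 2)) ∧ ∀ᵐ z ∂(volume.restrict (ball z0 (ρ / 2))), F' z = F z

/-- [a9] Regularity (REG). Proof: near `z ∈ U` with `‖z‖ ≤ 3/4` `S_aregb`; near `z` with `‖z‖ > 3/4` the coefficient is zero, `B = 0` a.e., and `S_weyl` gives a holomorphic representative. Two continuous functions that are a.e. equal on an open set are equal there: define `F'` locally and patch
(e.g. `F' z` = the value at `z` of the representative on a ball around `z`; or: the limit of the averages of `F` over `ball z δ`, which exists at every point of `U` and equals the local representative). -/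
def S_areg : Prop := ∀ (U : Set ℂ) (μ : ℂ → ℝ) (F A B : ℂ → ℂ), IsOpen U → Measurable μ → (∀ K : Set ℂ, IsCompact K → K ⊆ U → ∃ q : ℝ, q < 1 ∧ ∀ z ∈ K, |μ z| ≤ q) →
  (∀ z, 3 / 4 < ‖z‖ → μ z = 0) → WD U F A B → (∀ᵐ z ∂(volume.restrict U), B z = (μ z : ℂ) * conj (A z)) →
  ∃ F' : ℂ → ℂ, ContinuousOn F' U ∧ ∀ᵐ z ∂(volume.restrict U), F' z = F z

/-- [a10] Stream functions in balls (Poincare lemma for square integrable fields). Proof: let `z0`, `ρ' < ρ`, `Y = I X`; mollify (after a cutoff): `Y_n = mol ρ_n (χ Y)`, smooth and curl free near `closedBall z0 ρ'` (test the hypothesis with `φ ζ = ρ_n (z - ζ)`-type functions), so on that ball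
`Y_n = ∇ s_n` with `s_n z = ∫_0^1 ip (Y_n (z0 + t (z - z0))) (z - z0) dt` (smooth). Subtract the mean value over the ball; Poincare's inequality on the ball (for smooth functions; e.g. `∫_{B×B} |s z - s w|² ≤ C ρ'⁴ ∫ |∇s|²` by integrating along segments and substituting on the half `t ≤ 1/2` or `t ≥ 1/2`) shows that `s_n` is Cauchy
in `L²(ball z0 ρ')`; the limit has weak gradient `Y`. Do this for `ρ' ↑ ρ`, the limits differ by constants (`S_aconst`); glue. -/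
def S_aconj : Prop := ∀ (z0 : ℂ) (ρ : ℝ) (X : ℂ → ℂ), 0 < ρ → L2loc (ball z0 ρ) X → (∀ φ : ℂ → ℝ, RTF (ball z0 ρ) φ → ∫ z, ip (X z) (gr φ z) = 0) →
  ∃ s : ℂ → ℝ, Measurable s ∧ WG (ball z0 ρ) s (fun z => I * X z)

/-- [a11] The same on the whole plane. Proof: `s_n` from `S_aconj` on `ball 0 (n+1)`; `s_{n+1} - s_n` is a.e. constant on `ball 0 (n+1)` (`S_aconst`); subtract constants and glue. -/
def S_apl : Prop := ∀ X : ℂ → ℂ, L2loc univ X → (∀ φ : ℂ → ℝ, RTF univ φ → ∫ z, ip (X z) (gr φ z) = 0) → ∃ s : ℂ → ℝ, Measurable s ∧ WG univ s (fun z => I * X z)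

/-! ## Unique continuation -/

/-- [a12] The form with `dω = dw₁ ∧ dw₂ / (|w|² + ε²)` and the energy inequality. `a t = log (1 + t/ε²)/(2 t)` (`= 1/(2ε²)` at `0`; smooth on `[0,∞)`), `ω = a(|w|²) (w₁ dw₂ - w₂ dw₁)`. For a continuous weakly differentiable `F` and a test function `η`, `S_chain` and `S_wedge` (applied to `η² a(|F|²) F₁` and `F₂`, and to `η² a(|F|²) F₂` and `F₁`)
give `∫ η² J/(‖F‖²+ε²) = - ∫ 2 η a(‖F‖²) cr (gr η) (F₁ ∇F₂ - F₂ ∇F₁)`, `J = ‖A‖² - ‖B‖²`. With `‖B‖ ≤ q ‖A‖`: `(1-q²) ‖A‖² ≤ J`, `|F₁ ∇F₂ - F₂ ∇F₁| ≤ 2 ‖F‖ (‖A‖ + ‖B‖)`, Cauchy-Schwarz, and `a² t (t+ε²) ≤ 1 + log² (1 + t/ε²)` (for `t ≥ ε²`: `(t+ε²)/t ≤ 2`; for `t ≤ ε²`: `log (1+x) ≤ x`):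
`∫ η² ‖A‖²/(‖F‖²+ε²) ≤ C(q) ∫ ‖gr η‖² (1 + log² (1 + M²/ε²))`, `‖F‖ ≤ M` on the support of `η`. -/
def S_aucp1 : Prop := ∀ q : ℝ, 0 ≤ q → q < 1 → ∃ C : ℝ, 0 ≤ C ∧ ∀ (U : Set ℂ) (F A B : ℂ → ℂ) (η : ℂ → ℝ) (M ε : ℝ), IsOpen U → ContinuousOn F U → WD U F A B →
  (∀ᵐ z ∂(volume.restrict U), ‖B z‖ ≤ q * ‖A z‖) → RTF U η → (∀ z ∈ tsupport η, ‖F z‖ ≤ M) → 0 < ε →
  IntegrableOn (fun z => η z ^ 2 * ‖A z‖ ^ 2 / (‖F z‖ ^ 2 + ε ^ 2)) U volume ∧
  ∫ z in U, η z ^ 2 * ‖A z‖ ^ 2 / (‖F z‖ ^ 2 + ε ^ 2) ≤ C * (1 + Real.log (1 + M ^ 2 / ε ^ 2) ^ 2) * ∫ z, ‖gr η z‖ ^ 2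

/-- [a13] Unique continuation in a ball. Proof: let `K = closedBall z0 r`, `r < ρ` arbitrary. By `S_aucp1` (`η = 1` on `K`) `∫_K ‖A‖²/(‖F‖²+ε²) ≤ C log²(1/ε)` for small `ε`. `ℓ_ε = log (1 + ‖F‖²/ε²)/(2 log (1/ε))` is continuous, between `0` and some constant, with `|∇ℓ_ε| ≤ 2 (‖A‖+‖B‖)/((‖F‖²+ε²)^{1/2} log (1/ε))`: energy on `K` bounded by a constant
independent of `ε`. As `ε → 0`, `ℓ_ε → e := 1_{F ≠ 0}` pointwise. Let `T` be smooth with `T 0 = 0`, `T 1 = 1`, `T' 0 = T' 1 = 0` (`T t = 3t² - 2t³`). For a test function `φ` in `ball z0 r`: `∫ T(ℓ_ε) gr φ = - ∫ φ T'(ℓ_ε) ∇ℓ_ε` (`S_chain`), and `|∫ φ T'(ℓ_ε) ∇ℓ_ε| ≤ ‖φ T'(ℓ_ε)‖₂ ‖∇ℓ_ε‖_{L²(K)} → 0` (dominated convergence), so `∫ e gr φ = 0`: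
`e` is a.e. constant on `ball z0 r` (`S_aconst`). It is zero on the open set where `F = 0`. So `F = 0` a.e., and everywhere by continuity. -/
def S_aucpb : Prop := ∀ (z0 : ℂ) (ρ q : ℝ) (F A B : ℂ → ℂ), 0 ≤ q → q < 1 → ContinuousOn F (ball z0 ρ) → WD (ball z0 ρ) F A B →
  (∀ᵐ z ∂(volume.restrict (ball z0 ρ)), ‖B z‖ ≤ q * ‖A z‖) → ∀ V : Set ℂ, IsOpen V → V.Nonempty → V ⊆ ball z0 ρ → (∀ z ∈ V, F z = 0) → ∀ z ∈ ball z0 ρ, F z = 0

/-- [a14] Unique continuation. Proof: `{z ∈ U : F = 0 near z}` is open, nonempty and relatively closed (`S_aucpb` on a ball around a limit point whose closure is in `U`; `q` from the compact closed ball). -/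
def S_aucp : Prop := ∀ (U : Set ℂ) (μ : ℂ → ℝ) (F : ℂ → ℂ), IsOpen U → IsPreconnected U → (∀ K : Set ℂ, IsCompact K → K ⊆ U → ∃ q : ℝ, q < 1 ∧ ∀ z ∈ K, |μ z| ≤ q) →
  ContinuousOn F U → Bel μ U F → ∀ V : Set ℂ, IsOpen V → V.Nonempty → V ⊆ U → (∀ z ∈ V, F z = 0) → ∀ z ∈ U, F z = 0

/-! ## Weak limits -/

/-- [a15] Weak compactness. Proof: exhaust `U` by open sets `U_j` with compact closure `K_j` in `U`. On `K_j` the `A_n` (for `n ≥ n_j`) are bounded in `L²(K_j)`. For a test function `φ` of `U_j`: `- ∫ A_n φ = ∫ f_n dz φ → ∫ f dz φ`, so the linear functional `φ ↦ - ∫ f dz φ` is bounded by `M_j ‖φ‖₂` and extends to `L²(U_j)`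
(test functions are dense): it is `∫ A φ` for some `A ∈ L²(U_j)` (Riesz); the `A` for different `j` agree a.e. (`S_wuniq` or directly), glue. Weak convergence on `K ⊆ U_j`: extend `φ` by zero, approximate it in `L²(U_j)` by test functions, use the boundedness of `A_n`. (Or: weak sequential compactness of balls of a Hilbert space.) -/
def S_awlim : Prop := ∀ (U : Set ℂ) (f : ℂ → ℂ) (fn An Bn : ℕ → ℂ → ℂ), IsOpen U → (∀ n, WD U (fn n) (An n) (Bn n)) → (∀ n, ContinuousOn (fn n) U) →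
  (∀ K : Set ℂ, IsCompact K → K ⊆ U → ∃ M : ℝ, ∀ᶠ n in atTop, eLpNorm (An n) 2 (volume.restrict K) ≤ ENNReal.ofReal M ∧ eLpNorm (Bn n) 2 (volume.restrict K) ≤ ENNReal.ofReal M) →
  (∀ K : Set ℂ, IsCompact K → K ⊆ U → TendstoUniformlyOn fn f atTop K) →
  ContinuousOn f U ∧ ∃ A B : ℂ → ℂ, WD U f A B ∧ ∀ K : Set ℂ, IsCompact K → K ⊆ U → ∀ φ : ℂ → ℂ, MemLp φ 2 (volume.restrict K) →
    Tendsto (fun n => ∫ z in K, An n z * φ z) atTop (𝓝 (∫ z in K, A z * φ z)) ∧ Tendsto (fun n => ∫ z in K, Bn n z * φ z) atTop (𝓝 (∫ z in K, B z * φ z))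

/-- [a16] The equation passes to the limit. Proof: for a test function `φ` of `U` (support in the compact `K`) `∫ B_n φ → ∫ B φ`; and `∫ μ_n conj(A_n) φ = conj ∫ A_n μ_n conj φ`, `μ_n conj φ → μ conj φ` in `L²(K)` (dominated convergence), `A_n` bounded and weakly convergent in `L²(K)`: `→ ∫ μ conj(A) φ`.
So `∫ (B - μ conj A) φ = 0` for all test functions. -/
def S_awlimB : Prop := ∀ (U : Set ℂ) (μ : ℂ → ℝ) (μn : ℕ → ℂ → ℝ) (A B : ℂ → ℂ) (An Bn : ℕ → ℂ → ℂ), IsOpen U → L2loc U A → L2loc U B → (∀ n, L2loc U (An n)) → (∀ n, L2loc U (Bn n)) →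
  Measurable μ → (∀ n, Measurable (μn n)) → (∀ n z, |μn n z| ≤ 1) →
  (∀ᵐ z ∂(volume.restrict U), Tendsto (fun n => μn n z) atTop (𝓝 (μ z))) →
  (∀ K : Set ℂ, IsCompact K → K ⊆ U → ∃ M : ℝ, ∀ᶠ n in atTop, eLpNorm (An n) 2 (volume.restrict K) ≤ ENNReal.ofReal M) →
  (∀ K : Set ℂ, IsCompact K → K ⊆ U → ∀ φ : ℂ → ℂ, MemLp φ 2 (volume.restrict K) →
    Tendsto (fun n => ∫ z in K, An n z * φ z) atTop (𝓝 (∫ z in K, A z * φ z)) ∧ Tendsto (fun n => ∫ z in K, Bn n z * φ z) atTop (𝓝 (∫ z in K, B z * φ z))) →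
  (∀ n, ∀ᵐ z ∂(volume.restrict U), Bn n z = (μn n z : ℂ) * conj (An n z)) → ∀ᵐ z ∂(volume.restrict U), B z = (μ z : ℂ) * conj (A z)

/-- [a17] Lower semicontinuity with weights. Proof: `∫_K m² ‖A‖² = lim ∫_K A_n m conj(m A)` (weak convergence, `m conj (m A) ∈ L²(K)`), `= lim ∫_K A_n m_n conj(m A)` (`(m_n - m) m A → 0` in `L²(K)`, `A_n` bounded), `≤ √E ‖m A‖_{L²(K)}`. -/
def S_alsc : Prop := ∀ (K : Set ℂ) (A : ℂ → ℂ) (An : ℕ → ℂ → ℂ) (m : ℂ → ℝ) (mn : ℕ → ℂ → ℝ) (M E C : ℝ), IsCompact K → MemLp A 2 (volume.restrict K) → (∀ n, MemLp (An n) 2 (volume.restrict K)) →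
  Measurable m → (∀ n, Measurable (mn n)) → (∀ n, ∀ z ∈ K, |mn n z| ≤ C) →
  (∀ᵐ z ∂(volume.restrict K), Tendsto (fun n => mn n z) atTop (𝓝 (m z))) → (∀ᶠ n in atTop, eLpNorm (An n) 2 (volume.restrict K) ≤ ENNReal.ofReal M) →
  (∀ φ : ℂ → ℂ, MemLp φ 2 (volume.restrict K) → Tendsto (fun n => ∫ z in K, An n z * φ z) atTop (𝓝 (∫ z in K, A z * φ z))) →
  (∀ᶠ n in atTop, ∫ z in K, mn n z ^ 2 * ‖An n z‖ ^ 2 ≤ E) → ∫ z in K, m z ^ 2 * ‖A z‖ ^ 2 ≤ E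

end

end Cal
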