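import Pool.Agent.Lib.MP_4ea4c7_an.DefsH2
import Pool.Agent.Lib.MP_4ea4c7_an.StmH1

/-!
# MP_4ea4c7_an, stage 2, part 1b: tools (degree integrals, Arzela-Ascoli, logarithms, similarity, exterior estimates, connectedness)

Paper: /team-store/MP_4ea4c7_stage2_paper.md, section 1.
-/

open MeasureTheory Complex Metric Set Filter Topology
open scoped ComplexConjugate ENNReal NNReal

namespace Cal

noncomputable section

/-! ## Degree integrals -/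

/-- [b1] The primitive. Proof: `ψ` is smooth with support in `closedBall 0 R`; `PP ψ w = ∫_{-R}^{w.re} ψ(t + i w.im) dt` for `w.re ≥ -R`, `0` for `w.re ≤ -R`; smooth: `PP ψ w = ∫_{Iic 0} ψ (w + t) dt`, differentiate under the integral (everything is continuous and the range of integration is bounded locally uniformly in `w`). -/
def S_bpp : Prop := ∀ ψ : ℂ → ℝ, RTF univ ψ → ContDiff ℝ (⊤ : ℕ∞) (PP ψ) ∧ (∃ M : ℝ, ∀ w, |PP ψ w| ≤ M ∧ ‖gr (PP ψ) w‖ ≤ M) ∧ (∀ w, (gr (PP ψ) w).re = ψ w) ∧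
  ((∀ w, 0 ≤ ψ w) → ∀ w, 0 ≤ PP ψ w)

/-- [b2] Degree integral as a boundary term. Proof: `S_wedge` with `a z = η z * PP ψ (f z)` (zero off `U`; compact support in `U`; weak gradient `PP ψ (f) ∇η + η (P_x ∇f₁ + P_y ∇f₂)` by `S_chain`, `S_smooth` (3), `S_bridge`, `S_glue`), `b = f₂ = Im f`, `∇f₂ = I (conj A - B)`, `∇f₁ = conj A + B`:
`0 = ∫ PP ψ (f) cr (gr η) (∇f₂) + ∫ η ψ(f) cr (∇f₁) (∇f₂)` (`cr (∇f₂) (∇f₂) = 0`, `P_x = ψ`), and `cr (conj A + B) (I (conj A - B)) = ‖A‖² - ‖B‖²`. -/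
def S_bdeg : Prop := ∀ (U : Set ℂ) (f A B : ℂ → ℂ) (η ψ : ℂ → ℝ), IsOpen U → ContinuousOn f U → WD U f A B → RTF U η → RTF univ ψ →
  Integrable (fun z => η z * ψ (f z) * (‖A z‖ ^ 2 - ‖B z‖ ^ 2)) volume ∧ Integrable (fun z => PP ψ (f z) * cr (gr η z) (I * (conj (A z) - B z))) volume ∧
  ∫ z, η z * ψ (f z) * (‖A z‖ ^ 2 - ‖B z‖ ^ 2) = - ∫ z, PP ψ (f z) * cr (gr η z) (I * (conj (A z) - B z))

/-- [b3] Comparison. Proof: `S_bdeg` for both; the right hand sides agree: `gr η = 0` off `V`, and on `V` `f = f'`, `A = A'`, `B = B'` a.e. (`S_wuniq`). -/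
def S_bcmp : Prop := ∀ (U V : Set ℂ) (f A B f' A' B' : ℂ → ℂ) (η ψ : ℂ → ℝ), IsOpen U → IsOpen V → V ⊆ U → ContinuousOn f U → WD U f A B → ContinuousOn f' U → WD U f' A' B' →
  (∀ z ∈ V, f z = f' z) → RTF U η → (∀ z, z ∉ V → gr η z = 0) → RTF univ ψ →
  ∫ z, η z * ψ (f z) * (‖A z‖ ^ 2 - ‖B z‖ ^ 2) = ∫ z, η z * ψ (f' z) * (‖A' z‖ ^ 2 - ‖B' z‖ ^ 2)

/-- [b4] Total degree. Proof: `‖f z - I k z‖ ≤ C`, `ψ` supported in `closedBall 0 R0`; `R1` with `‖k‖ R1 > R0 + C`. `χ` smooth, `0 ≤ χ ≤ 1`, `χ = 0` on `closedBall 0 R1`, `χ = 1` off `ball 0 (R1+1)`. `f' = I k z + χ (f - I k z)`: continuous, `WD` (`S_smooth`, `S_basic`), `‖f'‖ > R0` for `‖z‖ ≥ R1`, the same for `f`. With `η = 1` on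
`closedBall 0 (R1+2)`, `V = {‖z‖ > R1+1}` (`f = f'` there, `gr η = 0` off `V`): `S_bcmp`: `∫ ψ(f) J = ∫ η ψ(f) J = ∫ η ψ(f') J' = ∫_{ball 0 R1} ψ(I k z) ‖k‖² = ∫ ψ` (linear change of variables, everything vanishes for `‖I k z‖ > R0`). -/
def S_bdegtot : Prop := ∀ (f A B : ℂ → ℂ) (k : ℂ) (C : ℝ) (ψ : ℂ → ℝ), k ≠ 0 → Continuous f → WD univ f A B → (∀ z, ‖f z - I * k * z‖ ≤ C) → RTF univ ψ →
  Integrable (fun z => ψ (f z) * (‖A z‖ ^ 2 - ‖B z‖ ^ 2)) volume ∧ ∫ z, ψ (f z) * (‖A z‖ ^ 2 - ‖B z‖ ^ 2) = ∫ z, ψ z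

/-- [b5] Surjectivity. Proof: the image is closed (`‖f z‖ → ∞`), so if `v` is not attained, `‖f z - v‖ ≥ δ > 0` for all `z`; `S_bdegtot` for `f - v` (and the constant `C + ‖v‖`) and a nonnegative `ψ ≠ 0` supported in `ball 0 δ`: `0 = ∫ ψ > 0`. -/
def S_bsurj : Prop := ∀ (f A B : ℂ → ℂ) (k : ℂ) (C : ℝ), k ≠ 0 → Continuous f → WD univ f A B → (∀ z, ‖f z - I * k * z‖ ≤ C) → ∀ v : ℂ, ∃ z, f z = v

/-- [b6] Local degree. Proof: `S_bcmp` on `U = ball z0 r2` with `f'' = f' + χ (f - f')`, `χ` smooth, `0 ≤ χ ≤ 1`, `χ = 1` for `‖z - z0‖ > r3`, `χ = 0` for `‖z - z0‖ < r1'`, `r1 < r1' < r3 < r2`, `η = 1` on `closedBall z0 r3`, support in `ball z0 r2`, `V = {r3 < ‖z-z0‖ < r2}`: `∫ η ψ(f) J = ∫ η ψ(f'') J''`. For `‖z-z0‖ ≥ r1`: `ψ(f) = 0`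
(`‖f‖ ≥ 2δ`), `‖f''‖ ≥ δ`, `ψ(f'') = 0`, `ψ(f') = 0`; for `‖z - z0‖ < r1'`: `f'' = f'`. So `∫_{ball} ψ(f) J = ∫_{ball} ψ(f') J'`. -/
def S_bdegloc : Prop := ∀ (z0 : ℂ) (r1 r2 δ : ℝ) (f A B f' A' B' : ℂ → ℂ) (ψ : ℂ → ℝ), 0 < r1 → r1 < r2 → 0 < δ → ContinuousOn f (ball z0 r2) → WD (ball z0 r2) f A B →
  ContinuousOn f' (ball z0 r2) → WD (ball z0 r2) f' A' B' → (∀ z ∈ ball z0 r2, r1 ≤ ‖z - z0‖ → 2 * δ ≤ ‖f z‖ ∧ ‖f z - f' z‖ ≤ δ) → RTF (ball 0 δ) ψ →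
  ∫ z in ball z0 r2, ψ (f z) * (‖A z‖ ^ 2 - ‖B z‖ ^ 2) = ∫ z in ball z0 r2, ψ (f' z) * (‖A' z‖ ^ 2 - ‖B' z‖ ^ 2)

/-- [b7] Degree integrals pass to weak limits. Proof: `S_bdeg`: `- ∫ PP ψ (f_n) cr (gr η) (I (conj A_n - B_n))`; on `K = tsupport η` `PP ψ (f_n) gr η → PP ψ (f) gr η` uniformly, `A_n`, `B_n` are bounded and weakly convergent in `L²(K)` (`cr (gr η) (I (conj A - B))` is a real linear function of `A, B`: write it as real part of `∫ A φ₁ + ∫ B φ₂`). -/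
def S_bdeglim : Prop := ∀ (U : Set ℂ) (f A B : ℂ → ℂ) (fn An Bn : ℕ → ℂ → ℂ) (η ψ : ℂ → ℝ), IsOpen U → (∀ n, WD U (fn n) (An n) (Bn n)) → (∀ n, ContinuousOn (fn n) U) → WD U f A B → ContinuousOn f U →
  (∀ K : Set ℂ, IsCompact K → K ⊆ U → ∃ M : ℝ, ∀ᶠ n in atTop, eLpNorm (An n) 2 (volume.restrict K) ≤ ENNReal.ofReal M ∧ eLpNorm (Bn n) 2 (volume.restrict K) ≤ ENNReal.ofReal M) →
  (∀ K : Set ℂ, IsCompact K → K ⊆ U → TendstoUniformlyOn fn f atTop K) →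
  (∀ K : Set ℂ, IsCompact K → K ⊆ U → ∀ φ : ℂ → ℂ, MemLp φ 2 (volume.restrict K) →
    Tendsto (fun n => ∫ z in K, An n z * φ z) atTop (𝓝 (∫ z in K, A z * φ z)) ∧ Tendsto (fun n => ∫ z in K, Bn n z * φ z) atTop (𝓝 (∫ z in K, B z * φ z))) →
  RTF U η → RTF univ ψ →
  Tendsto (fun n => ∫ z, η z * ψ (fn n z) * (‖An n z‖ ^ 2 - ‖Bn n z‖ ^ 2)) atTop (𝓝 (∫ z, η z * ψ (f z) * (‖A z‖ ^ 2 - ‖B z‖ ^ 2)))

/-! ## Compactness, logarithms, connectedness -/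

/-- [b8] Arzela-Ascoli on an open subset of `ℂ × ℂ`, eventual version. Proof: countable dense subset `D` of `W`; diagonal argument: a subsequence converges at all points of `D` (bounded sequences in `ℂ`). Equicontinuity: it converges at every point of `W`, the limit is continuous, and the convergence is locally uniform, hence uniform on compact sets. -/
def S_baa : Prop := ∀ (W : Set (ℂ × ℂ)) (f : ℕ → ℂ × ℂ → ℂ), IsOpen W → (∀ p ∈ W, ∃ M : ℝ, ∀ᶠ n in atTop, ‖f n p‖ ≤ M) →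
  (∀ p ∈ W, ∀ ε : ℝ, 0 < ε → ∃ δ : ℝ, 0 < δ ∧ ∀ᶠ n in atTop, ∀ p' ∈ W, dist p' p < δ → ‖f n p' - f n p‖ ≤ ε) →
  ∃ (φ : ℕ → ℕ) (h : ℂ × ℂ → ℂ), StrictMono φ ∧ ContinuousOn h W ∧ ∀ K : Set (ℂ × ℂ), IsCompact K → K ⊆ W → TendstoUniformlyOn (fun n => f (φ n)) h atTop K

/-- [b9] Logarithms converge. Proof: let `T` be the set of `p ∈ W` such that `(Λ_n p)` converges. Near every `p0 ∈ W` there is a ball `B ⊆ W` with compact closure in `W` on which `exp (Λ_n - Λ_m) = U_n/U_m` is within `1/10` of `1` for `n, m` large (`U_n → U` uniformly, `|U|` bounded below); `Λ_n - Λ_m` is continuous on the connected set `B` with values in the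
union of the discs of radius `1/5` around `2π i ℤ`, so it stays in one of them, number `j(n,m)`. If `(Λ_n)` converges at one point of `B` then `j(n,m) = 0` for `n, m` large, and `Λ_n - Λ_m = Complex.log (U_n/U_m) → 0` uniformly on `B`. So `T` is open and closed in `W`, `x0 ∈ T`, `T = W`, and the convergence is locally uniform. -/
def S_blog : Prop := ∀ (W : Set (ℂ × ℂ)) (Ln : ℕ → ℂ × ℂ → ℂ) (U : ℂ × ℂ → ℂ) (x0 : ℂ × ℂ) (l : ℂ), IsOpen W → IsPreconnected W → x0 ∈ W → (∀ n, ContinuousOn (Ln n) W) → ContinuousOn U W → (∀ p ∈ W, U p ≠ 0) →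
  (∀ K : Set (ℂ × ℂ), IsCompact K → K ⊆ W → TendstoUniformlyOn (fun n p => exp (Ln n p)) U atTop K) → Tendsto (fun n => Ln n x0) atTop (𝓝 l) →
  ∃ Λ : ℂ × ℂ → ℂ, ContinuousOn Λ W ∧ (∀ p ∈ W, exp (Λ p) = U p) ∧ ∀ K : Set (ℂ × ℂ), IsCompact K → K ⊆ W → TendstoUniformlyOn Ln Λ atTop K

/-- [b10] Logarithms agree. Proof: `(Λ - Λ')/(2πi)` is continuous on `W` with integer values, zero at `x0`. -/
def S_blogu : Prop := ∀ (W : Set (ℂ × ℂ)) (Λ Λ' : ℂ × ℂ → ℂ) (x0 : ℂ × ℂ), IsPreconnected W → x0 ∈ W → ContinuousOn Λ W → ContinuousOn Λ' W → (∀ p ∈ W, exp (Λ p) = exp (Λ' p)) → Λ x0 = Λ' x0 → ∀ p ∈ W, Λ p = Λ' p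

/-- [b11] The product minus the diagonal is connected. Proof: let `D = {(z,w) : z = w}`. For a ball `B` of `ℂ × ℂ` (sup norm: a product of two discs of the same radius) `B \ D` is preconnected and nonempty: given `p, p' ∈ B \ D` there is `p'' ∈ B` such that the segments `[p,p'']`, `[p'',p']` avoid `D` (the function `(z,w) ↦ z - w` is affine along segments and takes values
in `ℂ`; choose `p''` with `z''-w''` not a negative real multiple of `z-w` nor of `z'-w'`, and nonzero: such points exist in every ball). Now let `G × G \ D = S₁ ∪ S₂` be a separation into two relatively open (so open) disjoint sets; for every `p ∈ G × G` and small ball `B ∋ p`, `B \ D` lies in one of them, the same one for smaller balls; this defines a locally constant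
function on the connected set `G × G`: so one of `S₁, S₂` is empty. -/
def S_bnd : Prop := ∀ G : Set ℂ, IsOpen G → IsConnected G → IsPreconnected {p : ℂ × ℂ | p.1 ∈ G ∧ p.2 ∈ G ∧ p.1 ≠ p.2}

/-- [b12] `G ∩ ball 0 r` is connected. Proof: let `r' ∈ (1/2, r)`. If `G ∩ ball 0 r = S₁ ∪ S₂` is a separation into disjoint nonempty relatively open sets, the connected annulus `{1/2 ≤ ‖z‖ < r}` lies in one of them, say `S₂`. Then `S₁` and `S₂ ∪ (G \ closedBall 0 r')` are open, disjoint (`S₁ ⊆ ball 0 (1/2)`), nonempty with union `G`: contradiction. -/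
def S_bgr : Prop := ∀ (G : Set ℂ) (r : ℝ), IsOpen G → IsConnected G → (∀ z : ℂ, 1 / 2 ≤ ‖z‖ → z ∈ G) → 1 / 2 < r → IsConnected (G ∩ ball 0 r)

/-! ## Similarity in a disc, modulus of continuity -/

/-- [b13] Weak derivatives from a bounded `∂/∂z̄`. Proof: let `V` be a ball with closure in `ball z0 ρ` and small radius (so that after a translation, `S_C4`/`S_C3b` apply; or: cover by balls of radius `≤ 1`, translate to `0`): `Ct (h 1_V)` (translated) is continuous with `WD` (`S_C3b`), `g - Ct (h 1_V)` has weak `∂/∂z̄` zero on `V`, so it is holomorphic (`S_weyl`), `S_smooth` (2), `S_basic`; glue (`S_glue`):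
first choose one `A` on the whole ball: on each member of a countable cover `A` is determined a.e. (`S_wuniq`). -/
def S_bwd : Prop := ∀ (z0 : ℂ) (ρ : ℝ) (g h : ℂ → ℂ), 0 < ρ → ContinuousOn g (ball z0 ρ) → Measurable h → (∃ M : ℝ, ∀ z, ‖h z‖ ≤ M) →
  (∀ φ : ℂ → ℂ, TF (ball z0 ρ) φ → ∫ z, g z * db φ z = - ∫ z, h z * φ z) → ∃ A : ℂ → ℂ, WD (ball z0 ρ) g A h

/-- [b14] Similarity principle in a disc. Proof: scaling `k = ρ ζ` reduces to `ρ = 1` (`h` becomes `ρ h`). Let `b = h/g` where `g ≠ 0` and in the unit disc, `0` elsewhere; measurable (change `g` outside the disc), `‖b‖ ≤ M`; `ω = Ct b` is continuous, `‖ω‖ ≤ C M` (`S_C4`), `WD univ ω A b`. `WD (ball 0 1) g A' h` by `S_bwd` (`h` is bounded on the disc if `g` is; work on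
`ball 0 r`, `r < 1`, first). `Φ = exp (-ω) g` has weak `∂/∂z̄` equal to `exp (-ω) (h - b g) = 0` (`S_chain`, `S_prod`), so it is holomorphic (`S_weyl`). -/
def S_bsim : Prop := ∃ C : ℝ, 0 ≤ C ∧ ∀ (ρ M : ℝ) (g h : ℂ → ℂ), 0 < ρ → 0 ≤ M → ContinuousOn g (ball 0 ρ) → Measurable h → (∀ k ∈ ball (0 : ℂ) ρ, ‖h k‖ ≤ M * ‖g k‖) →
  (∀ φ : ℂ → ℂ, TF (ball 0 ρ) φ → ∫ k, g k * db φ k = - ∫ k, h k * φ k) →
  ∃ ω Φ : ℂ → ℂ, Continuous ω ∧ (∀ k, ‖ω k‖ ≤ C * M * ρ) ∧ DifferentiableOn ℂ Φ (ball 0 ρ) ∧ ∀ k ∈ ball (0 : ℂ) ρ, g k = exp (ω k) * Φ k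

/-- [b15] Modulus of continuity. Proof: let `χ` be a smooth cutoff, `χ = 1` on `ball 0 ρ`, support in `ball 0 (3ρ/2)`; `χ h` is `C¹` with compact support and `χ h (k) = (1/π) ∫ db (χ h) ζ/(k - ζ) dζ` (Cauchy-Pompeiu, for `C¹` functions: by approximation from `S_pomp`, or the proof of `S_pomp`); `|db (χ h)| ≤ C_ρ M`; and
`∫_{‖ζ‖ ≤ 2ρ} |1/(k-ζ) - 1/(k'-ζ)| dζ = |k-k'| ∫ 1/(|k-ζ||k'-ζ|) ≤ C_ρ |k-k'|^{1/2}` (`|k-k'| ≤ |k-ζ| + |k'-ζ|`, so `|k-k'|^{1/2} ≤ |k-ζ|^{1/2} + |k'-ζ|^{1/2}`, and `∫ |k-ζ|^{-1} |k'-ζ|^{-1/2}` is bounded, by Young `ab ≤ a^{3/2} + b^3`). -/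
def S_bkmod : Prop := ∀ ρ : ℝ, 0 < ρ → ∃ C : ℝ, 0 ≤ C ∧ ∀ (M : ℝ) (h : ℂ → ℂ), ContDiff ℝ 1 h → (∀ k ∈ ball (0 : ℂ) (2 * ρ), ‖h k‖ ≤ M ∧ ‖db h k‖ ≤ M) →
  ∀ k ∈ closedBall (0 : ℂ) ρ, ∀ k' ∈ closedBall (0 : ℂ) ρ, ‖h k - h k'‖ ≤ C * M * Real.sqrt ‖k - k'‖

/-- [b16] Zero set of a pseudoanalytic function. Proof: `S_bsim` on `ball 0 n` for every `n` (`h` locally bounded by `M_n ‖g‖`): the zeros of `g` in `ball 0 n` are those of the holomorphic `Φ_n`: countable, or all of `ball 0 n` (identity theorem: `AnalyticOnNhd`, isolated zeros). If they are all of `ball 0 n` for one `n`, then for all larger ones. -/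
def S_bzero : Prop := ∀ (g h : ℂ → ℂ), Continuous g → Measurable h → (∀ R : ℝ, ∃ M : ℝ, ∀ k ∈ ball (0 : ℂ) R, ‖h k‖ ≤ M * ‖g k‖) →
  (∀ φ : ℂ → ℂ, TF univ φ → ∫ k, g k * db φ k = - ∫ k, h k * φ k) → (∀ k, g k = 0) ∨ {k | g k = 0}.Countable

/-! ## Exterior estimates -/

/-- [b17] Exterior Schwarz lemma. Proof: `|H'| ≤ M` on `‖z‖ = 2` (mean value over `ball z 1 ⊆ {1 < ‖z‖}`: `‖H' z‖² ≤ (1/π) ∫_{ball z 1} ‖H'‖² ≤ M²`). `E ζ = H (1/ζ)` for `0 < ‖ζ‖ < 8/7`, `E 0 = 0` is holomorphic on `ball 0 (8/7)` (removable singularity; `Dec H`). `E 0 = 0` is the mean of `E` over `‖ζ‖ = 1/2`, and two values of `H` on `‖z‖ = 2` differ by at most `2π M`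
(half a circle of radius 2), so `‖E‖ ≤ 2π M` on `‖ζ‖ = 1/2`, hence on `closedBall 0 (1/2)`, and by Schwarz' lemma `‖E ζ‖ ≤ 4π M ‖ζ‖` there. -/
def S_bext : Prop := ∀ (H : ℂ → ℂ) (M : ℝ), 0 ≤ M → DifferentiableOn ℂ H {z | 7 / 8 < ‖z‖} → Dec H → IntegrableOn (fun z => ‖deriv H z‖ ^ 2) {z : ℂ | 1 < ‖z‖} volume →
  ∫ z in {z : ℂ | 1 < ‖z‖}, ‖deriv H z‖ ^ 2 ≤ Real.pi * M ^ 2 → ∀ z : ℂ, 2 ≤ ‖z‖ → ‖H z‖ ≤ 4 * Real.pi * M / ‖z‖

/-- [b18] Area theorem. Proof: `A, B ∈ L²(ℂ)`, `‖A‖₂ = ‖B‖₂` (`S_uniq`; `7/8 < 5/4`). For `‖z‖ > 7/8` `A = deriv D`, `B = 0` a.e. So `∫_{ball 0 r} (‖A‖² - ‖B‖²) = - ∫_{‖z‖ ≥ r} ‖deriv D‖²`. Expanding, `‖A + I k‖² = ‖A‖² + 2 Re (conj (I k) A) + ‖k‖²`, and `∫_{ball 0 r} A = 0`: for radial test functions `η = h(‖z‖)` with `h = 1` on `[0, r-δ]`, `h = 0` on `[r, ∞)` (`r - δ > 7/8`):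
`∫ η A = - ∫ D dz η`, `dz η = h'(‖z‖) conj z/(2‖z‖)`, in polar coordinates `- ∫ h'(t) t/2 (∫_0^{2π} D(t e^{iφ}) e^{-iφ} dφ) dt`, and the inner integral is `t/i ∮_{|z|=t} D(z)/z² dz`, which does not depend on `t > 7/8` up to the factor `t` and tends to `0` (`Dec`), so it is zero. Let `δ → 0`. -/
def S_barea : Prop := ∀ (D A B : ℂ → ℂ) (k : ℂ), Continuous D → WD univ D A B → DifferentiableOn ℂ D {z | 7 / 8 < ‖z‖} → Dec D → (∀ᵐ z : ℂ, 7 / 8 < ‖z‖ → B z = 0) → ∀ r : ℝ, 7 / 8 < r →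
  IntegrableOn (fun z => ‖A z + I * k‖ ^ 2 - ‖B z‖ ^ 2) (ball 0 r) volume ∧ IntegrableOn (fun z => ‖deriv D z‖ ^ 2) {z : ℂ | r < ‖z‖} volume ∧
  ∫ z in ball (0 : ℂ) r, (‖A z + I * k‖ ^ 2 - ‖B z‖ ^ 2) = Real.pi * ‖k‖ ^ 2 * r ^ 2 - ∫ z in {z : ℂ | r < ‖z‖}, ‖deriv D z‖ ^ 2

/-- [b19] Weak derivatives of a continuous logarithm. Proof: near `z0 ∈ U` (ball `V` with `‖g z - g z0‖ < 1` on `V`), `g z = g z0 + Complex.log (exp (g z) / exp (g z0))` with `exp (g z)/exp (g z0)` in the slit plane (in the disc of radius `e - 1 ...`: take `‖g z - g z0‖ < 1/2`, then it is within `0.65` of `1`), `S_chain` with `G w = Complex.log (w / exp (g z0))`; glue. -/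
def S_bwlog : Prop := ∀ (U : Set ℂ) (g A B : ℂ → ℂ), IsOpen U → ContinuousOn g U → WD U (fun z => exp (g z)) A B → WD U g (fun z => A z / exp (g z)) (fun z => B z / exp (g z))

end

end Cal
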