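import Pool.Agent.Lib.MP_4ea4c7_an.StmH9
import Pool.Agent.Lib.MP_4ea4c7_an.StmH1b
import Pool.Agent.Lib.MP_4ea4c7_an.Stm1

/-!
# Piece last (paper 10.5): from the coefficients `γ κ²` to the conductivities
-/

open MeasureTheory Complex Metric Set Filter Topology
open scoped ComplexConjugate ENNReal NNReal

namespace Cal

noncomputable section

private lemma last_mono {U V : Set ℂ} {u : ℂ → ℝ} {G : ℂ → ℂ} (h : WG U u G) (hV : V ⊆ U) :
    WG V u G :=
  ⟨fun K hK hKV => h.u2 K hK (hKV.trans hV), fun K hK hKV => h.G2 K hK (hKV.trans hV),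
    fun φ hφ => h.h φ ⟨hφ.1, hφ.2.1, hφ.2.2.trans hV⟩⟩

private lemma last_sub (hb : S_basic) (h6 : S_bridge) {U : Set ℂ} {u v : ℂ → ℝ} {G H : ℂ → ℂ}
    (hu : WG U u G) (hv : WG U v H) : WG U (fun z => u z - v z) (fun z => G z - H z) := by
  have a1 := h6.2.1 U u G hu
  have a2 := hb.2.1 U _ _ _ (-1) (h6.2.1 U v H hv)
  have a4 := hb.1 U _ _ _ _ _ _ a1 a2
  have a5 := (h6.1 U _ _ _ a4).1
  have e1 : (fun z => ((u z : ℂ) + -1 * (v z : ℂ)).re) = fun z => u z - v z := by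
    funext z
    simp [sub_eq_add_neg]
  have e2 : (fun z => conj (conj (G z) / 2 + -1 * (conj (H z) / 2)) + (G z / 2 + -1 * (H z / 2)))
      = fun z => G z - H z := by
    funext z
    simp only [map_add, map_mul, map_div₀, Complex.conj_conj, map_neg, map_one, map_ofNat]
    ring
  rw [e1, e2] at a5
  exact a5

private lemma last_gr_cont {φ : ℂ → ℝ} (hφ : ContDiff ℝ (⊤ : ℕ∞) φ) : Continuous (gr φ) := by
  have h : Continuous (fderiv ℝ φ) := hφ.continuous_fderiv (by simp)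
  unfold gr
  fun_prop

private lemma last_gr_supp {φ : ℂ → ℝ} (hφ : HasCompactSupport φ) : HasCompactSupport (gr φ) := by
  refine HasCompactSupport.intro hφ fun z hz => ?_
  have h0 : fderiv ℝ φ z = 0 := by
    by_contra hne
    exact hz (support_fderiv_subset ℝ hne)
  simp [gr, h0]

private lemma last_gr_off {φ : ℂ → ℝ} {z : ℂ} (hz : z ∉ tsupport φ) : gr φ z = 0 := by
  have h0 : fderiv ℝ φ z = 0 := by
    by_contra hne
    exact hz (support_fderiv_subset ℝ hne)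
  simp [gr, h0]

private lemma last_int {γ : ℂ → ℝ} {c C : ℝ} (hγ : Cond c C γ) {K : ℂ → ℂ} (hK : MemLp K 2 volume)
    {φ : ℂ → ℝ} {O : Set ℂ} (hφ : RTF O φ) : Integrable (fun z => γ z * ip (K z) (gr φ z)) volume := by
  have h1 : MemLp (gr φ) 2 volume :=
    (last_gr_cont hφ.1).memLp_of_hasCompactSupport (last_gr_supp hφ.2.1)
  have h2 : MemLp (fun z => conj (gr φ z)) 2 volume := by
    refine h1.of_le (Complex.continuous_conj.comp_aestronglyMeasurable h1.1) (Eventually.of_forall fun z => ?_)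
    simp
  have h3 : Integrable (fun z => K z * conj (gr φ z)) volume := hK.integrable_mul h2
  have h4 : Integrable (fun z => ip (K z) (gr φ z)) volume := h3.re
  refine h4.bdd_mul (c := max |c| |C|) hγ.meas.aestronglyMeasurable (Eventually.of_forall fun z => ?_)
  rw [Real.norm_eq_abs]
  exact abs_le_max_abs_abs (hγ.lo z) (hγ.hi z)

private lemma last_ip_sub (a b w : ℂ) : ip (a - b) w = ip a w - ip b w := by
  unfold ip
  rw [sub_mul, Complex.sub_re]

private lemma last_ip_mul (r : ℝ) (a w : ℂ) : ip ((r : ℂ) * a) w = r * ip a w := by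
  unfold ip
  rw [mul_assoc, Complex.re_ofReal_mul]

private lemma last_inj {s t : ℝ} (hs : 0 ≤ s) (ht : 0 ≤ t) (h : (1 - s) / (1 + s) = (1 - t) / (1 + t)) : s = t := by
  have h1 : (1 + s) ≠ 0 := by positivity
  have h2 : (1 + t) ≠ 0 := by positivity
  rw [div_eq_div_iff h1 h2] at h
  linarith

theorem piece_last (h1 : S_einv) (h2 : S_eucb) (h3 : S_bgr) (h4 : S_basic) (h5 : S_bridge) : S_last := by
  intro Ω G c C γ₁ γ₂ κ₁ κ₂ K₁ K₂ hP hc hγ₁ hγ₂ hκ₁ hκ₂ hoff hmu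
  set O : Set ℂ := G ∩ ball 0 (5 / 8) with hO
  have hOo : IsOpen O := hP.oG.inter isOpen_ball
  have hOc : IsConnected O := h3 G (5 / 8) hP.oG hP.cG hP.ext (by norm_num)
  have hσ : ∀ᵐ z ∂(volume.restrict G), γ₁ z * κ₁ z ^ 2 = γ₂ z * κ₂ z ^ 2 := by
    filter_upwards [hmu] with z hz
    have hs : 0 ≤ γ₁ z * κ₁ z ^ 2 := mul_nonneg (hc.le.trans (hγ₁.lo z)) (sq_nonneg _)
    have ht : 0 ≤ γ₂ z * κ₂ z ^ 2 := mul_nonneg (hc.le.trans (hγ₂.lo z)) (sq_nonneg _)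
    exact last_inj hs ht hz
  set f : ℂ → ℝ := fun z => 1 / κ₁ z - 1 / κ₂ z with hf
  set Fg : ℂ → ℂ := fun z => -(K₁ z) / ((κ₁ z : ℂ) ^ 2) - -(K₂ z) / ((κ₂ z : ℂ) ^ 2) with hFg
  have hfw : WG G f Fg := last_sub h4 h5 (h1 G γ₁ κ₁ K₁ hP.oG hκ₁).1 (h1 G γ₂ κ₂ K₂ hP.oG hκ₂).1
  have hfc : ContinuousOn f G := by
    refine (continuousOn_const.div hκ₁.cont fun z hz => (hκ₁.pos z hz).ne').sub
      (continuousOn_const.div hκ₂.cont fun z hz => (hκ₂.pos z hz).ne')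
  have hfe : ∀ φ : ℂ → ℝ, RTF O φ → ∫ z, (γ₁ z * κ₁ z ^ 2) * ip (Fg z) (gr φ z) = 0 := by
    intro φ hφ
    have e : (fun z => (γ₁ z * κ₁ z ^ 2) * ip (Fg z) (gr φ z)) =ᵐ[volume]
        fun z => γ₂ z * ip (K₂ z) (gr φ z) - γ₁ z * ip (K₁ z) (gr φ z) := by
      have hσ' := (ae_restrict_iff' hP.oG.measurableSet).1 hσ
      filter_upwards [hσ'] with z hz
      by_cases hzφ : z ∈ tsupport φ
      · have hzG : z ∈ G := (hφ.2.2 hzφ).1
        have k1 := (hκ₁.pos z hzG).ne'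
        have k2 := (hκ₂.pos z hzG).ne'
        have hs := hz hzG
        have k1' : (κ₁ z : ℂ) ≠ 0 := by exact_mod_cast k1
        have k2' : (κ₂ z : ℂ) ≠ 0 := by exact_mod_cast k2
        have a1 : -(K₁ z) / ((κ₁ z : ℂ) ^ 2) = ((-(1 / κ₁ z ^ 2) : ℝ) : ℂ) * K₁ z := by
          push_cast
          field_simp
        have a2 : -(K₂ z) / ((κ₂ z : ℂ) ^ 2) = ((-(1 / κ₂ z ^ 2) : ℝ) : ℂ) * K₂ z := by
          push_cast
          field_simp
        rw [hFg]
        simp only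
        rw [a1, a2, last_ip_sub, last_ip_mul, last_ip_mul, mul_sub]
        have b1 : γ₁ z * κ₁ z ^ 2 * (-(1 / κ₁ z ^ 2) * ip (K₁ z) (gr φ z)) = -(γ₁ z * ip (K₁ z) (gr φ z)) := by
          field_simp
        have b2 : γ₁ z * κ₁ z ^ 2 * (-(1 / κ₂ z ^ 2) * ip (K₂ z) (gr φ z)) = -(γ₂ z * ip (K₂ z) (gr φ z)) := by
          rw [hs]
          field_simp
        rw [b1, b2]
        ring
      · rw [last_gr_off hzφ]
        simp [ip]
    rw [integral_congr_ae e, integral_sub (last_int hγ₂ hκ₂.l2 hφ) (last_int hγ₁ hκ₁.l2 hφ),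
      hκ₂.sol φ hφ, hκ₁.sol φ hφ, sub_zero]
  -- the set where `f` vanishes locally
  set Z : Set ℂ := {z | ∃ V : Set ℂ, IsOpen V ∧ z ∈ V ∧ V ⊆ O ∧ ∀ w ∈ V, f w = 0} with hZ
  have hZo : IsOpen Z := by
    rw [isOpen_iff_forall_mem_open]
    rintro z ⟨V, hV, hzV, hVO, hV0⟩
    exact ⟨V, fun w hw => ⟨V, hV, hw, hVO, hV0⟩, hV, hzV⟩
  have hZ0 : ∀ z ∈ Z, f z = 0 := by
    rintro z ⟨V, hV, hzV, hVO, hV0⟩
    exact hV0 z hzV
  -- the outer annulus
  set A0 : Set ℂ := {z | 1 / 2 < ‖z‖} ∩ ball 0 (5 / 8) with hA0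
  have hA0o : IsOpen A0 := (isOpen_lt continuous_const continuous_norm).inter isOpen_ball
  have hA0O : A0 ⊆ O := fun z hz => ⟨hP.ext z hz.1.le, hz.2⟩
  have hA0Ω : ∀ z ∈ A0, z ∉ Ω := by
    intro z hz hzΩ
    have := hP.Ωs hzΩ
    rw [mem_ball_zero_iff] at this
    exact absurd hz.1 (not_lt.2 this.le)
  have hA0κ : EqOn κ₁ κ₂ A0 := by
    refine MeasureTheory.Measure.eqOn_open_of_ae_eq (μ := volume) ?_ hA0o
      (hκ₁.cont.mono fun z hz => (hA0O hz).1) (hκ₂.cont.mono fun z hz => (hA0O hz).1)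
    rw [Filter.EventuallyEq, ae_restrict_iff' hA0o.measurableSet]
    filter_upwards [hoff] with z hz hzA
    exact hz (hA0Ω z hzA)
  have hne : (O ∩ Z).Nonempty := by
    have hx : ((9 / 16 : ℝ) : ℂ) ∈ A0 := by
      refine ⟨?_, ?_⟩
      · show 1 / 2 < ‖((9 / 16 : ℝ) : ℂ)‖
        rw [Complex.norm_real, Real.norm_eq_abs, abs_of_pos (by norm_num)]
        norm_num
      · rw [mem_ball_zero_iff, Complex.norm_real, Real.norm_eq_abs, abs_of_pos (by norm_num)]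
        norm_num
    refine ⟨_, hA0O hx, A0, hA0o, hx, hA0O, fun w hw => ?_⟩
    simp only [hf]
    rw [hA0κ hw, sub_self]
  have hsub : O ⊆ Z := by
    refine hOc.isPreconnected.subset_of_closure_inter_subset hZo hne ?_
    rintro z ⟨hzc, hzO⟩
    obtain ⟨r, hr, hrO⟩ := Metric.isOpen_iff.1 hOo z hzO
    have hr2 : 0 < r / 2 := by positivity
    have hcb : closedBall z (r / 2) ⊆ O := (closedBall_subset_ball (by linarith)).trans hrO
    have hcbG : closedBall z (r / 2) ⊆ G := fun w hw => (hcb hw).1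
    obtain ⟨x, hx, hxmin⟩ := (isCompact_closedBall z (r / 2)).exists_isMinOn ⟨z, mem_closedBall_self hr2.le⟩
      (hκ₁.cont.mono hcbG)
    have hm : 0 < κ₁ x := hκ₁.pos x (hcbG hx)
    obtain ⟨z', hz'Z, hz'b⟩ := Metric.mem_closure_iff.1 hzc (r / 2) hr2
    obtain ⟨V, hV, hzV, hVO, hV0⟩ := hz'Z
    have hb : ball z (r / 2) ⊆ G := ball_subset_closedBall.trans hcbG
    have key := h2 z (r / 2) (c * κ₁ x ^ 2) C (fun w => γ₁ w * κ₁ w ^ 2) f Fg hr2
      (ball_subset_closedBall.trans (hcb.trans inter_subset_right)) (hγ₁.meas.mul (hκ₁.meas.pow_const 2))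
      (by positivity) ?_ (hfc.mono hb) (last_mono hfw hb)
      (fun φ hφ => hfe φ ⟨hφ.1, hφ.2.1, hφ.2.2.trans (ball_subset_closedBall.trans hcb)⟩)
      (V ∩ ball z (r / 2)) (hV.inter isOpen_ball) ⟨z', hzV, by rw [mem_ball, dist_comm]; exact hz'b⟩ inter_subset_right
      (fun w hw => hV0 w hw.1)
    · exact ⟨ball z (r / 2), isOpen_ball, mem_ball_self hr2, ball_subset_closedBall.trans hcb, key⟩
    · intro w hw
      have hwc := ball_subset_closedBall hw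
      have hκw : κ₁ x ≤ κ₁ w := hxmin hwc
      constructor
      · have := hγ₁.lo w
        have h5 : κ₁ x ^ 2 ≤ κ₁ w ^ 2 := by nlinarith
        exact mul_le_mul this h5 (sq_nonneg _) (hc.le.trans this)
      · have h5 : κ₁ w ^ 2 ≤ 1 := by
          have := hκ₁.hi w
          have := hκ₁.lo w
          nlinarith
        have h6 : 0 ≤ γ₁ w := hc.le.trans (hγ₁.lo w)
        calc γ₁ w * κ₁ w ^ 2 ≤ γ₁ w * 1 := mul_le_mul_of_nonneg_left h5 h6
          _ ≤ C := by rw [mul_one]; exact hγ₁.hi w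
  have hΩO : Ω ⊆ O := fun z hz => ⟨hP.ΩG hz, ball_subset_ball (by norm_num) (hP.Ωs hz)⟩
  have hσΩ : ∀ᵐ z ∂(volume.restrict Ω), γ₁ z * κ₁ z ^ 2 = γ₂ z * κ₂ z ^ 2 :=
    ae_restrict_of_ae_restrict_of_subset hP.ΩG hσ
  rw [ae_restrict_iff' hP.oΩ.measurableSet] at hσΩ ⊢
  filter_upwards [hσΩ] with z hz hzΩ
  have h0 := hZ0 z (hsub (hΩO hzΩ))
  have hp1 := hκ₁.pos z (hP.ΩG hzΩ)
  have hp2 := hκ₂.pos z (hP.ΩG hzΩ)
  have heq : κ₁ z = κ₂ z := by
    have : 1 / κ₁ z = 1 / κ₂ z := by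
      have : 1 / κ₁ z - 1 / κ₂ z = 0 := h0
      linarith
    rw [one_div, one_div] at this
    exact inv_injective this
  have hs := hz hzΩ
  rw [heq] at hs
  exact mul_right_cancel₀ (by positivity) hs

end

end Cal
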