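import Pool.Agent.Lib.MP_4ea4c7_an.StmD

/-! [G7] Step A'. -/

open MeasureTheory Complex Metric Set Filter Topology
open scoped ComplexConjugate ENNReal NNReal

namespace Cal

private theorem left_real {g : ℂ → ℂ} (h : ∀ z, g (conj z) = conj (g z)) (x : ℝ) :
    g (x : ℂ) = (((g (x : ℂ)).re : ℝ) : ℂ) := by
  have h1 := h (x : ℂ)
  rw [conj_ofReal] at h1
  exact (conj_eq_iff_re.1 h1.symm).symm

private theorem left_F {μ : ℂ → ℝ} {m : ℕ} {F D : ℂ → ℂ} (h : FMN μ m 0 F D) (x : ℝ) :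
    (F (x : ℂ)).re = (x + 2) ^ m * Real.exp (m * (D (x : ℂ)).re) := by
  have h1 := h.eq (x : ℂ)
  rw [left_real h.dsymm x] at h1
  have h2 : F (x : ℂ) = (((x + 2) ^ m * Real.exp (m * (D (x : ℂ)).re) : ℝ) : ℂ) := by
    rw [h1]
    push_cast
    simp
  rw [h2, ofReal_re]

private theorem left_gap {φ : ℂ → ℝ} (hφ : EvTF φ) {α : ℝ} (hα : ∀ z ∈ axis φ, α < z.re) :
    ∃ α' : ℝ, α < α' ∧ ∀ z ∈ axis φ, α' < z.re := by
  have hc : IsCompact (axis φ) := by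
    have h1 : axis φ = tsupport φ ∩ {z : ℂ | z.im = 0} := by
      ext z
      exact ⟨fun h => ⟨h.2, h.1⟩, fun h => ⟨h.2, h.1⟩⟩
    rw [h1]
    exact IsCompact.inter_right hφ.tf.2.1 (isClosed_eq continuous_im continuous_const)
  rcases (axis φ).eq_empty_or_nonempty with he | hne
  · refine ⟨α + 1, by linarith, fun z hz => ?_⟩
    rw [he] at hz
    exact absurd hz (notMem_empty z)
  · obtain ⟨z0, hz0, hmin⟩ := hc.exists_isMinOn hne continuous_re.continuousOn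
    have h0 := hα z0 hz0
    refine ⟨(α + z0.re) / 2, by linarith, fun z hz => ?_⟩
    have h2 : z0.re ≤ z.re := hmin hz
    linarith

theorem piece_left (h1 : S_lim) (h2 : S_theta) (h3 : S_ineq) (h4 : I_AL) (_h5 : S_ksb) :
    S_left := by
  intro κ hκ0 hκ1 μ₁ μ₂ hμ₁ hμ₂ hF hP φ k₁ A₁ B₁ k₂ A₂ B₂ hφ hφ0 hk₁ hk₂ α hα x hx hxα
  obtain ⟨C, δ, -, hlim⟩ := h1 κ hκ0 hκ1
  choose F₁ D₁ hFD₁ using fun i : ℕ => hlim μ₁ hμ₁ i 0
  choose F₂ D₂ hFD₂ using fun i : ℕ => hlim μ₂ hμ₂ i 0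
  have hf₁ : ∀ i, FMN μ₁ i 0 (F₁ i) (D₁ i) := fun i => (hFD₁ i).1
  have hf₂ : ∀ i, FMN μ₂ i 0 (F₂ i) (D₂ i) := fun i => (hFD₂ i).1
  obtain ⟨⟨θ, hθ₁⟩, -⟩ := h2 κ hκ0 hκ1 1 le_rfl (by norm_num) μ₁ hμ₁ φ k₁ A₁ B₁ hφ hk₁ F₁ D₁ hf₁
  have hnear : ∀ᶠ z : ℂ in 𝓝 (-2 : ℂ), 1 ≤ ‖z‖ := by
    filter_upwards [ball_mem_nhds (-2 : ℂ) one_pos] with z hz
    rw [mem_ball, dist_eq_norm] at hz
    have e1 : ‖(-2 : ℂ)‖ = 2 := by simp
    have e2 : ‖(-2 : ℂ)‖ ≤ ‖z‖ + ‖z - -2‖ := by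
      have := norm_sub_le z (z - -2)
      rwa [sub_sub_cancel] at this
    linarith
  have hθ₂ : ∀ m : ℕ, (fun z => k₂ z - ∑ i ∈ Finset.range m, (θ i : ℂ) * F₂ i z)
      =O[𝓝 (-2 : ℂ)] fun z => (z + 2) ^ m := by
    intro m
    refine (hθ₁ m).congr' ?_ EventuallyEq.rfl
    filter_upwards [hnear] with z hz
    rw [hP φ k₁ A₁ B₁ k₂ A₂ B₂ hφ hk₁ hk₂ z hz]
    congr 1
    refine Finset.sum_congr rfl fun i _ => ?_
    rw [(hF i 0 _ _ _ _ (hf₁ i) (hf₂ i)).1 z hz]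
  obtain ⟨α', hαα', hα'⟩ := left_gap hφ hα
  have hxα' : x < α' := lt_of_le_of_lt hxα hαα'
  -- real parts
  have hS : ∀ m : ℕ, (∑ i ∈ Finset.range m, (θ i : ℂ) * F₂ i x) =
      ∑ i ∈ Finset.range m, (θ i : ℂ) * F₁ i x := by
    intro m
    refine Finset.sum_congr rfl fun i _ => ?_
    rw [(hF i 0 _ _ _ _ (hf₁ i) (hf₂ i)).2 x]
  have hFF : ∀ (m : ℕ) (t : ℝ), F₂ m t = F₁ m t := fun m t =>
    ((hF m 0 _ _ _ _ (hf₁ m) (hf₂ m)).2 t).symm
  have key : ∀ m : ℕ, |(k₁ x).re - (k₂ x).re| * (F₁ m α').re ≤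
      (|(k₁ α').re| + |(k₂ α').re|) * (F₁ m x).re := by
    intro m
    have a1 := h3 κ hκ0 hκ1 μ₁ hμ₁ φ k₁ A₁ B₁ hφ hφ0 hk₁ F₁ D₁ hf₁ α' hα' θ hθ₁ m x α' hx
      hxα'.le le_rfl
    have a2 := h3 κ hκ0 hκ1 μ₂ hμ₂ φ k₂ A₂ B₂ hφ hφ0 hk₂ F₂ D₂ hf₂ α' hα' θ hθ₂ m x α' hx
      hxα'.le le_rfl
    rw [hS m, hFF, hFF] at a2
    rw [sub_re] at a1 a2
    have p1 : 0 ≤ (F₁ m (x : ℂ)).re := by
      rw [left_F (hf₁ m)]
      have : 0 ≤ x + 2 := by linarith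
      positivity
    have p2 : 0 ≤ (F₁ m (α' : ℂ)).re := by
      rw [left_F (hf₁ m)]
      have : 0 ≤ α' + 2 := by linarith
      positivity
    set s := (∑ i ∈ Finset.range m, (θ i : ℂ) * F₁ i x).re with hs
    set b := (F₁ m (α' : ℂ)).re
    set c := (F₁ m (x : ℂ)).re
    obtain ⟨a11, a12⟩ := a1
    obtain ⟨a21, a22⟩ := a2
    have q1 : (k₁ α').re * c ≤ |(k₁ α').re| * c := mul_le_mul_of_nonneg_right (le_abs_self _) p1
    have q2 : (k₂ α').re * c ≤ |(k₂ α').re| * c := mul_le_mul_of_nonneg_right (le_abs_self _) p1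
    have q3 : 0 ≤ |(k₁ α').re| * c := by positivity
    have q4 : 0 ≤ |(k₂ α').re| * c := by positivity
    have q5 : 0 ≤ ((k₁ x).re - s) * b := mul_nonneg a11 p2
    have q6 : 0 ≤ ((k₂ x).re - s) * b := mul_nonneg a21 p2
    rw [add_mul]
    rcases abs_cases ((k₁ x).re - (k₂ x).re) with ⟨h, _⟩ | ⟨h, _⟩
    · rw [h]
      have : ((k₁ x).re - (k₂ x).re) * b = ((k₁ x).re - s) * b - ((k₂ x).re - s) * b := by ring
      rw [this]
      linarith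
    · rw [h]
      have : -((k₁ x).re - (k₂ x).re) * b = ((k₂ x).re - s) * b - ((k₁ x).re - s) * b := by ring
      rw [this]
      linarith
  -- the ratio tends to zero
  have hx2 : 0 < x + 2 := by linarith
  have hα2 : 0 < α' + 2 := by linarith
  set q : ℝ := (α' + 2) / (x + 2) with hq
  have hq1 : 1 < q := by
    rw [hq, one_lt_div hx2]
    linarith
  have hlq : 0 < Real.log q := Real.log_pos hq1
  set ε : ℝ := Real.log q / 4 with hε
  have hε0 : 0 < ε := by positivity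
  obtain ⟨N0, hN0⟩ := h4 κ hκ0 hκ1 μ₁ hμ₁ ε hε0
  set ρ : ℝ := (x + 2) / (α' + 2) * Real.exp (2 * ε) with hρ
  have hρ0 : 0 ≤ ρ := by positivity
  have hρ1 : ρ < 1 := by
    have e1 : Real.exp (2 * ε) < q := by
      rw [← Real.exp_log (by positivity : 0 < q)]
      refine Real.exp_lt_exp.2 ?_
      rw [hε]
      linarith
    have e2 : (x + 2) / (α' + 2) * q = 1 := by
      rw [hq]
      field_simp
    rw [hρ, ← e2]
    exact mul_lt_mul_of_pos_left e1 (by positivity)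
  have hbound : ∀ m : ℕ, N0 ≤ m → |(k₁ x).re - (k₂ x).re| ≤
      (|(k₁ α').re| + |(k₂ α').re|) * ρ ^ m := by
    intro m hm
    have d0 := hN0 m 0 (F₁ m) (D₁ m) (by simpa using hm) (hf₁ m)
    have d1 : (D₁ m (x : ℂ)).re ≤ ε := (le_abs_self _).trans ((abs_re_le_norm _).trans (d0 _))
    have d2 : -ε ≤ (D₁ m (α' : ℂ)).re :=
      (abs_le.1 ((abs_re_le_norm _).trans (d0 (α' : ℂ)))).1
    have k0 := key m
    rw [left_F (hf₁ m), left_F (hf₁ m)] at k0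
    have m0 : (0 : ℝ) ≤ m := Nat.cast_nonneg m
    have e1 : Real.exp (m * (D₁ m (x : ℂ)).re) ≤ Real.exp (m * ε) :=
      Real.exp_le_exp.2 (mul_le_mul_of_nonneg_left d1 m0)
    have e2 : Real.exp (m * -ε) ≤ Real.exp (m * (D₁ m (α' : ℂ)).re) :=
      Real.exp_le_exp.2 (mul_le_mul_of_nonneg_left d2 m0)
    have k1 : |(k₁ x).re - (k₂ x).re| * ((α' + 2) ^ m * Real.exp (m * -ε)) ≤
        (|(k₁ α').re| + |(k₂ α').re|) * ((x + 2) ^ m * Real.exp (m * ε)) := by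
      refine le_trans ?_ (k0.trans ?_)
      · gcongr
      · gcongr
    have e3 : ρ ^ m * ((α' + 2) ^ m * Real.exp (m * -ε)) = (x + 2) ^ m * Real.exp (m * ε) := by
      have : Real.exp (2 * ε) ^ m * Real.exp (m * -ε) = Real.exp (m * ε) := by
        rw [← Real.exp_nat_mul, ← Real.exp_add]
        congr 1
        ring
      rw [hρ, mul_pow, div_pow, ← this]
      field_simp
    rw [← e3, ← mul_assoc (|(k₁ α').re| + |(k₂ α').re|)] at k1
    exact le_of_mul_le_mul_right k1 (by positivity)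
  have hzero : |(k₁ x).re - (k₂ x).re| ≤ 0 := by
    have t1 : Tendsto (fun m : ℕ => (|(k₁ α').re| + |(k₂ α').re|) * ρ ^ m) atTop (𝓝 0) := by
      have := (tendsto_pow_atTop_nhds_zero_of_lt_one hρ0 hρ1).const_mul
        (|(k₁ α').re| + |(k₂ α').re|)
      rwa [mul_zero] at this
    refine ge_of_tendsto t1 ?_
    filter_upwards [eventually_ge_atTop N0] with m hm
    exact hbound m hm
  have heq : (k₁ x).re = (k₂ x).re := sub_eq_zero.1 (abs_nonpos_iff.1 hzero)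
  rw [left_real hk₁.symm x, left_real hk₂.symm x, heq]

end Cal
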