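import Pool.Agent.Lib.MP_4ea4c7_an.Stm2

/-!
# [E6] Existence of `f_{m,n}` for measurable coefficients with common bounds
-/

open MeasureTheory Complex Metric Set Filter Topology
open scoped ComplexConjugate ENNReal NNReal

namespace Cal

noncomputable section

/-- constants solve every Beltrami equation (case `m = n = 0`) -/
private theorem fmn_zero (h5 : S_smooth) (μ : ℂ → ℝ) :
    FMN μ 0 0 (fun _ => (1 : ℂ)) (fun _ => (0 : ℂ)) := by
  refine ⟨⟨continuous_const, ?_, ?_, ?_⟩, continuous_const, ?_, ?_, ?_⟩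
  · intro z; simp
  · refine ⟨_, _, h5.2.1 univ (fun _ => (1 : ℂ)) isOpen_univ (differentiableOn_const 1), ?_⟩
    filter_upwards with z
    simp
  · refine ⟨1, fun z => ?_⟩
    simp
  · intro z; simp
  · refine ⟨0, fun z _ => ?_⟩
    simp
  · intro z; simp

theorem piece_lim (h1 : S_dmod) (h2 : S_mollmu) (h3 : S_fexist) (h4 : S_sub) (h5 : S_smooth) :
    S_lim := by
  intro κ hκ0 hκ1
  obtain ⟨C, δ, hδ, hb⟩ := h1 κ hκ0 hκ1
  refine ⟨C, δ, hδ, ?_⟩
  intro μ hμ m n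
  rcases Nat.eq_zero_or_pos (m + n) with h0 | hpos
  · have hm : m = 0 := by omega
    have hn : n = 0 := by omega
    subst hm
    subst hn
    exact ⟨_, _, fmn_zero h5 μ, fun h => absurd h (by norm_num)⟩
  · obtain ⟨μk, hk, hae⟩ := h2 κ μ hκ0 hμ
    have hex := fun k => h3 κ hκ0 hκ1 (μk k) (hk k) m n
    choose f d hfd using hex
    obtain ⟨φ, f', h, hφ, hF, hU⟩ := h4 κ hκ0 hκ1 μ hμ μk hk hae m n f d hpos hfd
    refine ⟨f', h, hF, fun _ => ⟨fun z => ?_, fun ε hε z z' hzz => ?_⟩⟩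
    · have ht : Tendsto (fun k => ‖d (φ k) z‖) atTop (𝓝 ‖h z‖) :=
        (hU.tendsto_at z).norm
      exact le_of_tendsto' ht fun k => (hb (μk (φ k)) (hk (φ k)) m n _ _ (hfd (φ k)) hpos).1 z
    · have ht : Tendsto (fun k => ‖d (φ k) z - d (φ k) z'‖) atTop (𝓝 ‖h z - h z'‖) :=
        ((hU.tendsto_at z).sub (hU.tendsto_at z')).norm
      exact le_of_tendsto' ht fun k =>
        (hb (μk (φ k)) (hk (φ k)) m n _ _ (hfd (φ k)) hpos).2 ε hε z z' hzz

end

end Cal
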