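import Pool.Agent.Lib.MP_4ea4c7_an.Stm1
import Pool.Agent.Lib.MP_4ea4c7_an.StmB

/-!
# Piece [DB3] of MP_4ea4c7_an: the logarithm of `1 - ν e` and its weak derivative
-/

open MeasureTheory Complex Metric Set Filter Topology
open scoped ComplexConjugate ENNReal NNReal

namespace Cal

noncomputable section

private lemma lgp_fderiv {w : ℂ} (hw : w ∈ slitPlane) (v : ℂ) :
    fderiv ℝ Complex.log w v = v * w⁻¹ := by
  have h1 : HasDerivAt Complex.log w⁻¹ w := Complex.hasDerivAt_log hw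
  have h2 : HasFDerivAt Complex.log
      ((ContinuousLinearMap.toSpanSingleton ℂ w⁻¹ : ℂ →L[ℂ] ℂ).restrictScalars ℝ) w :=
    h1.hasFDerivAt.restrictScalars ℝ
  rw [h2.fderiv]
  simp [ContinuousLinearMap.toSpanSingleton_apply]

private lemma lgp_dz {w : ℂ} (hw : w ∈ slitPlane) : dz Complex.log w = w⁻¹ := by
  unfold dz
  rw [lgp_fderiv hw, lgp_fderiv hw]
  have h : I * (I * w⁻¹) = - w⁻¹ := by
    rw [← mul_assoc, I_mul_I]
    ring
  rw [h]
  ring

private lemma lgp_db {w : ℂ} (hw : w ∈ slitPlane) : db Complex.log w = 0 := by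
  unfold db
  rw [lgp_fderiv hw, lgp_fderiv hw]
  have h : I * (I * w⁻¹) = - w⁻¹ := by
    rw [← mul_assoc, I_mul_I]
    ring
  rw [h]
  ring

theorem piece_log (h1 : S_basic) (h2 : S_smooth) (h3 : S_chain) : S_log := by
  intro κ hκ0 hκ1
  have hκ : 0 < 1 - κ := by linarith
  refine ⟨(1 - κ)⁻¹ / 2 + 1, by positivity, ?_⟩
  intro ν hν e P Q hW hcont hnorm
  have hne : ∀ z ∈ ball (0 : ℂ) (3 / 2), ‖(ν z : ℂ) * e z‖ ≤ κ := by
    intro z hz
    rw [norm_mul, hnorm z hz, mul_one, Complex.norm_real]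
    exact hν.mu.bd z
  have hre : ∀ z ∈ ball (0 : ℂ) (3 / 2), 0 < (1 - (ν z : ℂ) * e z).re := by
    intro z hz
    have h4 : ((ν z : ℂ) * e z).re ≤ ‖(ν z : ℂ) * e z‖ := Complex.re_le_norm _
    rw [Complex.sub_re, Complex.one_re]
    linarith [hne z hz]
  refine ⟨?_, ?_⟩
  · intro z hz
    have hk := hne z hz
    constructor
    · have h4 : ‖(1 : ℂ)‖ - ‖(ν z : ℂ) * e z‖ ≤ ‖1 - (ν z : ℂ) * e z‖ := norm_sub_norm_le _ _
      rw [norm_one] at h4
      linarith
    · have h4 : ‖-((ν z : ℂ) * e z)‖ < 1 := by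
        rw [norm_neg]
        linarith
      have h5 := Complex.norm_log_one_add_le h4
      rw [norm_neg] at h5
      have h6 : (1 : ℂ) - (ν z : ℂ) * e z = 1 + -((ν z : ℂ) * e z) := by ring
      rw [h6]
      refine h5.trans ?_
      set t := ‖(ν z : ℂ) * e z‖ with ht
      have ht0 : 0 ≤ t := norm_nonneg _
      have h7 : (1 - t)⁻¹ ≤ (1 - κ)⁻¹ := inv_anti₀ hκ (by linarith)
      have h8 : 0 ≤ (1 - t)⁻¹ := inv_nonneg.mpr (by linarith)
      have h9 : t ^ 2 ≤ 1 := by nlinarith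
      have h10 : t ^ 2 * (1 - t)⁻¹ ≤ 1 * (1 - κ)⁻¹ := mul_le_mul h9 h7 h8 (by norm_num)
      linarith
  · set U : Set ℂ := ball (0 : ℂ) (3 / 2) with hU
    have hUo : IsOpen U := isOpen_ball
    have hνs : ContDiff ℝ (⊤ : ℕ∞) (fun w : ℂ => (ν w : ℂ)) :=
      Complex.ofRealCLM.contDiff.comp hν.smooth
    have hprod := h2.2.2 U e P Q (fun w : ℂ => (ν w : ℂ)) hUo hW hνs.contDiffOn
    have hone := h2.2.1 U (fun _ : ℂ => (1 : ℂ)) hUo (differentiableOn_const _)
    have hsum := h1.1 U _ _ _ _ _ _ hone (h1.2.1 U _ _ _ (-1) hprod)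
    have hcontf : ContinuousOn (fun z => (1 : ℂ) + (-1) * (e z * (ν z : ℂ))) U := by
      refine continuousOn_const.add (continuousOn_const.mul (hcont.mul ?_))
      exact hνs.continuous.continuousOn
    have heq : ∀ z, (1 : ℂ) + (-1) * (e z * (ν z : ℂ)) = 1 - (ν z : ℂ) * e z := fun z => by ring
    have hmaps : MapsTo (fun z => (1 : ℂ) + (-1) * (e z * (ν z : ℂ))) U {w : ℂ | 0 < w.re} := by
      intro z hz
      have h4 := hre z hz
      rw [← heq z] at h4
      exact h4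
    have hWo : IsOpen {w : ℂ | 0 < w.re} := isOpen_lt continuous_const Complex.continuous_re
    have hslit : ∀ w : ℂ, 0 < w.re → w ∈ slitPlane := fun w hw => Or.inl hw
    have hlog : ContDiffOn ℝ 1 Complex.log {w : ℂ | 0 < w.re} := by
      intro w hw
      exact ((Complex.contDiffAt_log (n := 1) (hslit w hw)).restrict_scalars ℝ).contDiffWithinAt
    have hch := h3 U {w : ℂ | 0 < w.re} _ _ _ Complex.log hUo hWo hsum hcontf hmaps hlog
    refine ⟨fun z => dz Complex.log (1 + (-1) * (e z * (ν z : ℂ))) *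
        (deriv (fun _ : ℂ => (1 : ℂ)) z + (-1) * (P z * (ν z : ℂ) +
          e z * dz (fun w : ℂ => (ν w : ℂ)) z)) +
        db Complex.log (1 + (-1) * (e z * (ν z : ℂ))) *
          conj (0 + (-1) * (Q z * (ν z : ℂ) + e z * db (fun w : ℂ => (ν w : ℂ)) z)), ?_⟩
    refine h1.2.2.2.1 U _ _ _ _ _ _ hUo.measurableSet hch ?_ ?_ ?_
    · refine Filter.Eventually.of_forall fun z => ?_
      dsimp only
      rw [heq z]
    · exact Filter.Eventually.of_forall fun z => rfl
    · refine (ae_restrict_iff' hUo.measurableSet).mpr (Filter.Eventually.of_forall fun z hz => ?_)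
      dsimp only
      rw [heq z, lgp_dz (hslit _ (hre z hz)), lgp_db (hslit _ (hre z hz)), zero_mul, add_zero,
        div_eq_inv_mul]
      ring

end

end Cal
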