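import Pool.Agent.Lib.MP_4ea4c7_an.Stm2

/-! Piece E1: smooth approximation of coefficients. -/

open MeasureTheory Complex Metric Set Filter Topology
open scoped ComplexConjugate ENNReal NNReal

namespace Cal

private lemma mm_mol (ρ μ : ℂ → ℝ) (z : ℂ) :
    mol ρ (fun z => ((μ z : ℝ) : ℂ)) z = ((∫ ζ, ρ (z - ζ) * μ ζ : ℝ) : ℂ) := by
  unfold mol
  rw [← integral_complex_ofReal]
  refine integral_congr_ae (ae_of_all _ fun ζ => ?_)
  simp

private lemma mm_conj (F : ℂ → ℝ) : ∫ ζ, F (conj ζ) = ∫ ζ, F ζ := by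
  have h := Complex.conjLIE.measurePreserving
  have h2 := h.integral_comp (Complex.conjLIE.toHomeomorph.measurableEmbedding) F
  simpa using h2

theorem piece_mollmu (h1 : S_bump) : S_mollmu := by
  intro κ μ hκ hμ
  obtain ⟨ρ, hρs, hρ0, hρc, hρi, hρr, hρm, hρL, hρu⟩ := h1
  set g : ℂ → ℂ := fun z => ((μ z : ℝ) : ℂ) with hg
  have hgm : AEStronglyMeasurable g volume :=
    (Complex.measurable_ofReal.comp hμ.meas).aestronglyMeasurable
  have hgind : g = (closedBall (0 : ℂ) 1).indicator g := by
    funext z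
    by_cases hz : z ∈ closedBall (0 : ℂ) 1
    · rw [indicator_of_mem hz]
    · rw [indicator_of_notMem hz, hg]
      simp only
      rw [hμ.supp z (by simpa using hz)]
      simp
  have hgL : MemLp g 2 volume := by
    rw [hgind, memLp_indicator_iff_restrict isClosed_closedBall.measurableSet]
    have : IsFiniteMeasure (volume.restrict (closedBall (0 : ℂ) 1)) :=
      ⟨by rw [Measure.restrict_apply_univ]; exact (isCompact_closedBall 0 1).measure_lt_top⟩
    refine MemLp.of_bound hgm.restrict κ (ae_of_all _ fun z => ?_)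
    rw [hg]
    simpa using hμ.bd z
  have hgl : LocallyIntegrable g volume := hgL.locallyIntegrable (by norm_num)
  let M : ℕ → ℂ → ℝ := fun n z => ∫ ζ, ρ n (z - ζ) * μ ζ
  have hM : ∀ n z, mol (ρ n) g z = ((M n z : ℝ) : ℂ) := fun n z => mm_mol (ρ n) μ z
  have hMs : ∀ n, ContDiff ℝ (⊤ : ℕ∞) (M n) := by
    intro n
    have h := Complex.reCLM.contDiff.comp (hρm g hgl n)
    have e : M n = Complex.reCLM ∘ mol (ρ n) g := by
      funext z
      simp [hM]
    rw [e]
    exact h
  have hSM : ∀ n, SM κ (M (n + 4)) := by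
    intro n
    refine ⟨⟨(hMs _).continuous.measurable, ?_, ?_, ?_⟩, hMs _⟩
    · intro z
      have hρint : Integrable (ρ (n + 4)) volume := by
        by_contra h
        have := hρi (n + 4)
        rw [integral_undef h] at this
        exact zero_ne_one this
      have hint : Integrable (fun ζ => κ * ρ (n + 4) (z - ζ)) volume :=
        (hρint.comp_sub_left z).const_mul κ
      have h3 := norm_integral_le_of_norm_le hint (f := fun ζ => ρ (n + 4) (z - ζ) * μ ζ)
        (ae_of_all _ fun ζ => by
          rw [norm_mul, Real.norm_of_nonneg (hρ0 _ _), mul_comm κ]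
          exact mul_le_mul_of_nonneg_left (hμ.bd ζ) (hρ0 _ _))
      rw [integral_const_mul, integral_sub_left_eq_self (fun ζ => ρ (n + 4) ζ) volume z, hρi, mul_one] at h3
      exact h3
    · intro z hz
      refine integral_eq_zero_of_ae (ae_of_all _ fun ζ => ?_)
      simp only [Pi.zero_apply]
      by_cases hζ : 1 < ‖ζ‖
      · rw [hμ.supp ζ hζ, mul_zero]
      · rw [hρc, zero_mul]
        rw [not_lt] at hζ
        have h4 : 1 / 4 ≤ ‖z - ζ‖ := by
          have := norm_sub_norm_le z ζ
          linarith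
        refine le_trans ?_ h4
        apply one_div_le_one_div_of_le (by norm_num)
        push_cast
        linarith [Nat.cast_nonneg (α := ℝ) n]
    · intro z
      show ∫ ζ, ρ (n + 4) (conj z - ζ) * μ ζ = ∫ ζ, ρ (n + 4) (z - ζ) * μ ζ
      rw [← mm_conj]
      refine integral_congr_ae (ae_of_all _ fun ζ => ?_)
      simp only
      rw [hμ.symm ζ, hρr (n + 4) (conj z - conj ζ) (z - ζ) (by rw [← map_sub, Complex.norm_conj])]
  have hlim : Tendsto (fun n => eLpNorm (mol (ρ (n + 4)) g - g) 2 volume) atTop (𝓝 0) :=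
    (tendsto_add_atTop_iff_nat (f := fun n => eLpNorm (fun z => mol (ρ n) g z - g z) 2 volume) 4).2
      (hρL g hgL).2
  have hTM : TendstoInMeasure volume (fun n => mol (ρ (n + 4)) g) atTop g :=
    tendstoInMeasure_of_tendsto_eLpNorm (by norm_num) (fun n => (hρm g hgl (n + 4)).continuous.aestronglyMeasurable)
      hgm hlim
  obtain ⟨ns, -, hns⟩ := hTM.exists_seq_tendsto_ae
  refine ⟨fun k => M (ns k + 4), fun k => hSM (ns k), ?_⟩
  filter_upwards [hns] with z hz
  have h5 := (Complex.continuous_re.tendsto _).comp hz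
  refine (h5.congr fun k => ?_)
  simp [hM]

end Cal
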