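import Pool.Agent.Lib.MP_4ea4c7_an.Stm2

/-!
# MP_4ea4c7_an: piece D3 (maximum principle for solutions)
-/

open MeasureTheory Complex Metric Set Filter Topology
open scoped ComplexConjugate ENNReal NNReal

namespace Cal

private theorem mpF_c (c : ℂ) (hc : c = 1 ∨ c = -1 ∨ c = I ∨ c = -I) :
    ‖c‖ = 1 ∧ c * conj c = 1 := by
  rcases hc with h | h | h | h <;> subst h <;> simp

theorem piece_mpF (h1 : S_open) : S_mpF := by
  intro κ hκ0 hκ1 μ hμ z0 ρ f hf hbel r hr hrρ c hc z hz
  obtain ⟨hcn, hcc⟩ := mpF_c c hc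
  have hsub : closedBall z0 r ⊆ ball z0 ρ := closedBall_subset_ball hrρ
  have hcont : ContinuousOn (fun z => (c * f z).re) (closedBall z0 r) :=
    Complex.continuous_re.comp_continuousOn (continuousOn_const.mul (hf.mono hsub))
  obtain ⟨z1, hz1, hmax⟩ := (isCompact_closedBall z0 r).exists_isMaxOn ⟨z, hz⟩ hcont
  have hm : ∀ w ∈ closedBall z0 r, (c * f w).re ≤ (c * f z1).re := fun w hw => hmax hw
  by_cases hs : z1 ∈ sphere z0 r
  · exact ⟨z1, hs, hm z hz⟩
  by_cases hconst : ∃ d, ∀ w ∈ ball z0 ρ, f w = d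
  · obtain ⟨d, hd⟩ := hconst
    have hp : z0 + (r : ℂ) ∈ sphere z0 r := by
      rw [mem_sphere, dist_eq_norm, add_sub_cancel_left, Complex.norm_real, Real.norm_eq_abs,
        abs_of_pos hr]
    refine ⟨z0 + (r : ℂ), hp, ?_⟩
    rw [hd z (hsub hz), hd _ (hsub (sphere_subset_closedBall hp))]
  · exfalso
    have hd : dist z1 z0 < r := lt_of_le_of_ne (mem_closedBall.mp hz1) (fun h => hs (mem_sphere.mpr h))
    have hε : 0 < min (r - dist z1 z0) (1 / 2) := lt_min (by linarith) (by norm_num)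
    obtain ⟨w, hwU, hw1, hw2, hw3⟩ := h1 κ hκ0 hκ1 μ hμ (ball z0 ρ) f isOpen_ball
      (convex_ball z0 ρ).isPreconnected hf hbel hconst z1 (hsub hz1) (conj c)
      (by rw [Complex.norm_conj]; exact hcn) _ hε
    have hw4 : w ∈ closedBall z0 r := by
      rw [mem_closedBall]
      have t1 : dist w z1 < r - dist z1 z0 := by
        rw [dist_eq_norm]
        exact hw1.trans_le (min_le_left _ _)
      have t2 := dist_triangle w z1 z0
      linarith
    have hw5 := hm w hw4
    set N : ℝ := ‖f w - f z1‖ with hN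
    have hNpos : 0 < N := norm_pos_iff.mpr (sub_ne_zero.mpr hw2)
    have hNne : (N : ℂ) ≠ 0 := by exact_mod_cast hNpos.ne'
    have e1 : c * (f w - f z1) = (N : ℂ) * (1 + c * ((f w - f z1) / (N : ℂ) - conj c)) := by
      field_simp
      linear_combination (N : ℂ) * hcc
    have e2 : (c * (f w - f z1)).re = N * (1 + (c * ((f w - f z1) / (N : ℂ) - conj c)).re) := by
      rw [e1, Complex.re_ofReal_mul]
      simp
    have e3 : |(c * ((f w - f z1) / (N : ℂ) - conj c)).re| < 1 / 2 := by
      refine (Complex.abs_re_le_norm _).trans_lt ?_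
      rw [norm_mul, hcn, one_mul]
      exact hw3.trans_le (min_le_right _ _)
    have e4 := (abs_lt.mp e3).1
    have e5 : 0 < (c * (f w - f z1)).re := by
      rw [e2]
      exact mul_pos hNpos (by linarith)
    rw [mul_sub, Complex.sub_re] at e5
    linarith

end Cal
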