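import Pool.Agent.Lib.MP_4ea4c7_an.Stm2

/-!
Piece D4: maximum principle for logarithms of solutions.
-/

open MeasureTheory Complex Metric Set Filter Topology
open scoped ComplexConjugate ENNReal NNReal

namespace Cal

noncomputable section

namespace MpGAux

/-- a continuous logarithm of a constant on a preconnected set is constant -/
theorem const_of_exp_const {S : Set ℂ} (hS : IsPreconnected S) {g : ℂ → ℂ}
    (hg : ContinuousOn g S) {N : ℕ} (hN : 1 ≤ N) {c₀ : ℂ}
    (h : ∀ z ∈ S, exp ((N : ℂ) * g z) = c₀) {x y : ℂ} (hx : x ∈ S) (hy : y ∈ S) : g y = g x := by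
  have hN0 : (N : ℂ) ≠ 0 := by
    have : N ≠ 0 := by omega
    exact_mod_cast this
  have hint : ∀ z ∈ S, ∃ n : ℤ, (N : ℂ) * g z = N * g x + n * (2 * Real.pi * I) := by
    intro z hz
    exact Complex.exp_eq_exp_iff_exists_int.1 ((h z hz).trans (h x hx).symm)
  have hpi : (2 * (Real.pi : ℂ) * I) ≠ 0 := by
    simp [Real.pi_ne_zero]
  set u : ℂ → ℝ := fun z => ((N : ℂ) * (g z - g x) / (2 * Real.pi * I)).re with hu
  have hud : ∀ z ∈ S, ∀ n : ℤ, (N : ℂ) * g z = N * g x + n * (2 * Real.pi * I) → u z = n := by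
    intro z _ n hn
    have h1 : (N : ℂ) * (g z - g x) / (2 * Real.pi * I) = n := by
      rw [mul_sub, hn, add_sub_cancel_left, mul_div_assoc, div_self hpi, mul_one]
    rw [hu]
    simp only
    rw [h1]
    exact Complex.intCast_re n
  have huc : ContinuousOn u S := by
    have h1 : ContinuousOn (fun z => (N : ℂ) * (g z - g x) / (2 * Real.pi * I)) S :=
      (continuousOn_const.mul (hg.sub continuousOn_const)).div_const _
    exact Complex.continuous_re.comp_continuousOn h1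
  have hdisc : DiscreteTopology (Set.range ((↑) : ℤ → ℝ)) :=
    (Int.isClosedEmbedding_coe_real.isEmbedding.toHomeomorph).symm.isEmbedding.discreteTopology
  have hmaps : MapsTo u S (Set.range ((↑) : ℤ → ℝ)) := by
    intro z hz
    obtain ⟨n, hn⟩ := hint z hz
    exact ⟨n, (hud z hz n hn).symm⟩
  have h2 := hS.constant_of_mapsTo ⟨hdisc⟩ huc hmaps hx hy
  have h3 : u x = 0 := by
    have := hud x hx 0 (by simp)
    simpa using this
  obtain ⟨n, hn⟩ := hint y hy
  have h4 := hud y hy n hn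
  have h5 : n = 0 := by
    have : (n : ℝ) = 0 := by rw [← h4, ← h2, h3]
    exact_mod_cast this
  rw [h5] at hn
  simp only [Int.cast_zero, zero_mul, add_zero] at hn
  exact mul_left_cancel₀ hN0 hn

/-- the direction of `exp w - 1` and the direction of `w` -/
theorem dir {w c : ℂ} (hw : w ≠ 0) (hw4 : ‖w‖ ≤ 1 / 4) (hc : ‖c‖ = 1)
    (h : ‖(exp w - 1) / ((‖exp w - 1‖ : ℝ) : ℂ) - conj c‖ < 1 / 4) : 0 < (c * w).re := by
  have hwpos : 0 < ‖w‖ := norm_pos_iff.2 hw
  have h1 : ‖exp w - 1 - w‖ ≤ ‖w‖ ^ 2 := Complex.norm_exp_sub_one_sub_id_le (by linarith)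
  have h2 : 3 / 4 * ‖w‖ ≤ ‖exp w - 1‖ := by
    have h3 : ‖w‖ ≤ ‖exp w - 1‖ + ‖exp w - 1 - w‖ := by
      have : w = (exp w - 1) - (exp w - 1 - w) := by ring
      calc ‖w‖ = ‖(exp w - 1) - (exp w - 1 - w)‖ := by rw [← this]
        _ ≤ _ := norm_sub_le _ _
    nlinarith
  set E := exp w - 1 with hE
  have hEpos : 0 < ‖E‖ := lt_of_lt_of_le (by positivity) h2
  have hcc : c * conj c = 1 := by
    rw [Complex.mul_conj, Complex.normSq_eq_norm_sq, hc]
    norm_num
  have h4 : ‖c * E / ((‖E‖ : ℝ) : ℂ) - 1‖ < 1 / 4 := by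
    have e : c * E / ((‖E‖ : ℝ) : ℂ) - 1 = c * (E / ((‖E‖ : ℝ) : ℂ) - conj c) := by
      rw [mul_sub c (E / _), hcc, mul_div_assoc]
    rw [e, norm_mul, hc, one_mul]
    exact h
  have h5 : 3 / 4 < (c * E / ((‖E‖ : ℝ) : ℂ)).re := by
    have h6 := Complex.abs_re_le_norm (c * E / ((‖E‖ : ℝ) : ℂ) - 1)
    have h7 := (abs_le.1 h6).1
    rw [Complex.sub_re, Complex.one_re] at h7
    linarith
  have h6 : (c * E / ((‖E‖ : ℝ) : ℂ)).re = (c * E).re / ‖E‖ := Complex.div_ofReal_re _ _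
  rw [h6, lt_div_iff₀ hEpos] at h5
  have h7 : (c * w).re = (c * E).re - (c * (E - w)).re := by
    rw [mul_sub c E w, Complex.sub_re]
    ring
  have h8 : (c * (E - w)).re ≤ ‖w‖ ^ 2 := by
    calc (c * (E - w)).re ≤ ‖c * (E - w)‖ := Complex.re_le_norm _
      _ = ‖E - w‖ := by rw [norm_mul, hc, one_mul]
      _ ≤ _ := h1
  rw [h7]
  nlinarith

end MpGAux

open MpGAux

theorem piece_mpG (h1 : S_open) : S_mpG := by
  intro κ hκ0 hκ1 μ hμ z0 ρ g N hN hg hbel r hr hrρ c hc z hz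
  have hcn : ‖c‖ = 1 := by
    rcases hc with rfl | rfl | rfl | rfl <;> simp
  have hsub : closedBall z0 r ⊆ ball z0 ρ := closedBall_subset_ball hrρ
  have hcont : ContinuousOn (fun w => (c * g w).re) (closedBall z0 r) :=
    Complex.continuous_re.comp_continuousOn (continuousOn_const.mul (hg.mono hsub))
  obtain ⟨z1, hz1, hmax⟩ := (isCompact_closedBall z0 r).exists_isMaxOn
    ⟨z0, mem_closedBall_self hr.le⟩ hcont
  have hmax' : ∀ w ∈ closedBall z0 r, (c * g w).re ≤ (c * g z1).re := fun w hw => hmax hw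
  by_cases hs : dist z1 z0 = r
  · exact ⟨z1, mem_sphere.2 hs, hmax' z hz⟩
  have hlt : dist z1 z0 < r := lt_of_le_of_ne (mem_closedBall.1 hz1) hs
  set f : ℂ → ℂ := fun w => exp ((N : ℂ) * g w) with hf
  by_cases hconst : ∃ c₀, ∀ w ∈ ball z0 ρ, f w = c₀
  · obtain ⟨c₀, hc₀⟩ := hconst
    have hz' : z0 + (r : ℂ) ∈ sphere z0 r := by
      rw [mem_sphere, dist_eq_norm, add_sub_cancel_left, Complex.norm_real,
        Real.norm_of_nonneg hr.le]
    refine ⟨z0 + (r : ℂ), hz', ?_⟩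
    have hgc := const_of_exp_const (convex_ball z0 ρ).isPreconnected hg hN hc₀
      (hsub hz) (hsub (sphere_subset_closedBall hz'))
    rw [hgc]
  exfalso
  have hz1U : z1 ∈ ball z0 ρ := hsub hz1
  have hNpos : (0 : ℝ) < N := by exact_mod_cast (by omega : 0 < N)
  obtain ⟨δ, hδ, hδg⟩ := Metric.continuousWithinAt_iff.1 (hg z1 hz1U) (1 / (4 * N))
    (by positivity)
  have hfne : f z1 ≠ 0 := Complex.exp_ne_zero _
  have hfpos : 0 < ‖f z1‖ := norm_pos_iff.2 hfne
  set υ : ℂ := f z1 / ((‖f z1‖ : ℝ) : ℂ) with hυ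
  have hυn : ‖υ‖ = 1 := by
    rw [hυ, norm_div, Complex.norm_real, norm_norm, div_self hfpos.ne']
  have hω : ‖υ * conj c‖ = 1 := by
    rw [norm_mul, hυn, one_mul, Complex.norm_conj, hcn]
  have hfc : ContinuousOn f (ball z0 ρ) :=
    Complex.continuous_exp.comp_continuousOn (continuousOn_const.mul hg)
  set ε : ℝ := min (1 / 4) (min δ (r - dist z1 z0)) with hε
  have hε0 : 0 < ε := lt_min (by norm_num) (lt_min hδ (by linarith))
  obtain ⟨w, hwU, hwd, hwne, hwdir⟩ := h1 κ hκ0 hκ1 μ hμ (ball z0 ρ) f isOpen_ball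
    (convex_ball z0 ρ).isPreconnected hfc hbel hconst z1 hz1U (υ * conj c) hω ε hε0
  have hwδ : dist w z1 < δ := by
    rw [dist_eq_norm]
    exact lt_of_lt_of_le hwd ((min_le_right _ _).trans (min_le_left _ _))
  have hwK : w ∈ closedBall z0 r := by
    rw [mem_closedBall]
    have h2 : dist w z1 < r - dist z1 z0 := by
      rw [dist_eq_norm]
      exact lt_of_lt_of_le hwd ((min_le_right _ _).trans (min_le_right _ _))
    linarith [dist_triangle w z1 z0]
  have hgd := hδg hwU hwδ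
  rw [dist_eq_norm] at hgd
  set v : ℂ := (N : ℂ) * (g w - g z1) with hv
  have hvn : ‖v‖ ≤ 1 / 4 := by
    rw [hv, norm_mul, Complex.norm_natCast]
    calc (N : ℝ) * ‖g w - g z1‖ ≤ N * (1 / (4 * N)) := by gcongr
      _ = 1 / 4 := by field_simp
  have hfw : f w = f z1 * exp v := by
    rw [hf]
    simp only
    rw [← Complex.exp_add, hv]
    congr 1
    ring
  have hdiff : f w - f z1 = f z1 * (exp v - 1) := by rw [hfw]; ring
  have hv0 : v ≠ 0 := by
    intro h0
    apply hwne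
    rw [hfw, h0, Complex.exp_zero, mul_one]
  have hdir : ‖(exp v - 1) / ((‖exp v - 1‖ : ℝ) : ℂ) - conj c‖ < 1 / 4 := by
    have e : (f w - f z1) / ((‖f w - f z1‖ : ℝ) : ℂ) - υ * conj c =
        υ * ((exp v - 1) / ((‖exp v - 1‖ : ℝ) : ℂ) - conj c) := by
      rw [hdiff, norm_mul, hυ, Complex.ofReal_mul, mul_sub (f z1 / _), div_mul_div_comm]
    rw [e, norm_mul, hυn, one_mul] at hwdir
    exact lt_of_lt_of_le hwdir (min_le_left _ _)
  have hpos := dir hv0 hvn hcn hdir
  have h3 : (c * v).re = N * ((c * g w).re - (c * g z1).re) := by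
    have e : c * v = ((N : ℝ) : ℂ) * (c * g w - c * g z1) := by
      rw [hv]
      push_cast
      ring
    rw [e, Complex.re_ofReal_mul, Complex.sub_re]
  rw [h3] at hpos
  have h4 := hmax' w hwK
  have h5 := (mul_pos_iff_of_pos_left hNpos).1 hpos
  linarith

end

end Cal
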