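import Pool.Agent.Lib.MP_4ea4c7_an.StmF

/-! [N1] The coefficient. -/

open MeasureTheory Complex Metric Set Filter Topology
open scoped ComplexConjugate ENNReal NNReal

namespace Cal

namespace MuofAux

theorem bound {c D t : ℝ} (hc : 0 < c) (hD : 1 ≤ D) (h1 : c ≤ t) (h2 : t ≤ D) :
    |(t - 1) / (t + 1)| ≤ max (max 0 ((1 - c) / (1 + c))) ((D - 1) / (D + 1)) := by
  rw [abs_le]
  constructor
  · have h3 : (1 - t) / (1 + t) ≤ (1 - c) / (1 + c) := by
      rw [div_le_div_iff₀ (by linarith) (by linarith)]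
      nlinarith
    have h4 : -((t - 1) / (t + 1)) = (1 - t) / (1 + t) := by
      rw [← neg_div, neg_sub, add_comm t 1]
    have h5 : (1 - c) / (1 + c) ≤ max (max 0 ((1 - c) / (1 + c))) ((D - 1) / (D + 1)) :=
      (le_max_right _ _).trans (le_max_left _ _)
    linarith
  · have h3 : (t - 1) / (t + 1) ≤ (D - 1) / (D + 1) := by
      rw [div_le_div_iff₀ (by linarith) (by linarith)]
      nlinarith
    exact h3.trans (le_max_right _ _)

theorem lt_one {c D : ℝ} (hc : 0 < c) (hD : 1 ≤ D) :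
    max (max 0 ((1 - c) / (1 + c))) ((D - 1) / (D + 1)) < 1 := by
  refine max_lt (max_lt one_pos ?_) ?_
  · rw [div_lt_one (by linarith)]
    linarith
  · rw [div_lt_one (by linarith)]
    linarith

theorem hb_open : IsOpen HB :=
  (isOpen_lt continuous_norm continuous_const).inter (isOpen_lt continuous_const Complex.continuous_im)

end MuofAux

open MuofAux in
theorem piece_muof : S_muof := by
  intro c C hc
  refine ⟨max (max 0 ((1 - c) / (1 + c))) ((max C 1 - 1) / (max C 1 + 1)),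
    (le_max_left _ _).trans (le_max_left _ _), lt_one hc (le_max_right _ _), ?_⟩
  intro γ hγ Ψ hΨ
  have hb : ∀ w, |(γ w - 1) / (γ w + 1)| ≤
      max (max 0 ((1 - c) / (1 + c))) ((max C 1 - 1) / (max C 1 + 1)) := fun w =>
    bound hc (le_max_right _ _) (hγ.lo w) ((hγ.hi w).trans (le_max_left _ _))
  have h0 : (0 : ℝ) ≤ max (max 0 ((1 - c) / (1 + c))) ((max C 1 - 1) / (max C 1 + 1)) :=
    (le_max_left _ _).trans (le_max_left _ _)
  refine ⟨⟨?_, ?_, ?_, ?_⟩, ?_⟩
  · -- measurability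
    classical
    have hg : Measurable (HB.piecewise Ψ fun _ => 0) :=
      hΨ.measurable_piecewise continuousOn_const hb_open.measurableSet
    have hF : Measurable fun w => (γ w - 1) / (γ w + 1) :=
      (hγ.meas.sub_const 1).div (hγ.meas.add_const 1)
    have e : muOf Ψ γ = fun z => if z ∈ HB then
        (γ (HB.piecewise Ψ (fun _ => 0) z) - 1) / (γ (HB.piecewise Ψ (fun _ => 0) z) + 1)
        else if conj z ∈ HB then
        (γ (HB.piecewise Ψ (fun _ => 0) (conj z)) - 1) / (γ (HB.piecewise Ψ (fun _ => 0) (conj z)) + 1)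
        else 0 := by
      funext z
      have e1 : (‖z‖ < 1 ∧ 0 < z.im) ↔ z ∈ HB := Iff.rfl
      have e2 : (‖z‖ < 1 ∧ z.im < 0) ↔ conj z ∈ HB := by
        show _ ↔ (‖conj z‖ < 1 ∧ 0 < (conj z).im)
        rw [Complex.norm_conj, Complex.conj_im, neg_pos]
      unfold muOf
      by_cases h1 : z ∈ HB
      · rw [if_pos (e1.2 h1), if_pos h1, piecewise_eq_of_mem _ _ _ h1]
      · rw [if_neg (fun h => h1 (e1.1 h)), if_neg h1]
        by_cases h2 : conj z ∈ HB
        · rw [if_pos (e2.2 h2), if_pos h2, piecewise_eq_of_mem _ _ _ h2]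
        · rw [if_neg (fun h => h2 (e2.1 h)), if_neg h2]
    rw [e]
    have hcj : Measurable fun z : ℂ => conj z := Complex.continuous_conj.measurable
    refine Measurable.ite hb_open.measurableSet (hF.comp hg) (Measurable.ite ?_ ?_ measurable_const)
    · exact hcj hb_open.measurableSet
    · exact hF.comp (hg.comp hcj)
  · intro z
    unfold muOf
    split_ifs
    · exact hb _
    · exact hb _
    · rw [abs_zero]
      exact h0
  · intro z hz
    unfold muOf
    rw [if_neg (fun h => absurd h.1 (not_lt.2 hz.le)), if_neg (fun h => absurd h.1 (not_lt.2 hz.le))]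
  · intro z
    unfold muOf
    rw [Complex.norm_conj, Complex.conj_im, Complex.conj_conj]
    by_cases h1 : ‖z‖ < 1 ∧ 0 < z.im
    · rw [if_pos h1, if_neg (fun h => by linarith [h.2, h1.2]),
        if_pos ⟨h1.1, by linarith [h1.2]⟩]
    · rw [if_neg h1]
      by_cases h2 : ‖z‖ < 1 ∧ z.im < 0
      · rw [if_pos h2, if_pos ⟨h2.1, by linarith [h2.2]⟩]
      · rw [if_neg h2, if_neg (fun h => h2 ⟨h.1, by linarith [h.2]⟩),
          if_neg (fun h => h1 ⟨h.1, by linarith [h.2]⟩)]
  · intro z hz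
    have h1 : muOf Ψ γ z = (γ (Ψ z) - 1) / (γ (Ψ z) + 1) := by
      unfold muOf
      rw [if_pos (show ‖z‖ < 1 ∧ 0 < z.im from hz)]
    have h2 : 0 < γ (Ψ z) := hc.trans_le (hγ.lo _)
    have h3 : 1 + (γ (Ψ z) - 1) / (γ (Ψ z) + 1) = 2 * γ (Ψ z) / (γ (Ψ z) + 1) := by
      field_simp
      ring
    have h4 : 1 - (γ (Ψ z) - 1) / (γ (Ψ z) + 1) = 2 / (γ (Ψ z) + 1) := by
      field_simp
      ring
    unfold gam
    rw [h1, h3, h4]
    field_simp

end Cal
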