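import Pool.Agent.Lib.MP_4ea4c7_an.StmD

/-! # [CA G3] the Nevanlinna function, smooth coefficients -/

open MeasureTheory Complex Metric Set Filter Topology
open scoped ComplexConjugate ENNReal NNReal

namespace Cal

noncomputable section

/-- factor out a zero -/
private lemma fac (h : ℂ → ℂ) (m : ℕ) (ha : AnalyticAt ℂ h (-2))
    (hO : h =O[𝓝 (-2 : ℂ)] fun z => (z + 2) ^ m) :
    ∃ v, AnalyticAt ℂ v (-2) ∧ ∀ᶠ z in 𝓝 (-2 : ℂ), h z = (z + 2) ^ m * v z := by
  have key : (m : ℕ∞) ≤ analyticOrderAt h (-2) := by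
    by_contra hcon
    rw [not_le] at hcon
    obtain ⟨n, hn⟩ := ENat.ne_top_iff_exists.mp (ne_top_of_lt hcon)
    rw [← hn] at hcon
    have hnm : n < m := by exact_mod_cast hcon
    obtain ⟨g, hg, hg0, hev⟩ := (ha.analyticOrderAt_eq_natCast).mp hn.symm
    obtain ⟨C, hC⟩ := hO.bound
    have hev2 : ∀ᶠ z in 𝓝[≠] (-2 : ℂ), ‖g z‖ ≤ C * ‖z + 2‖ ^ (m - n) := by
      have h1 : ∀ᶠ z in 𝓝[≠] (-2 : ℂ), z ≠ -2 := eventually_mem_nhdsWithin
      filter_upwards [hev.filter_mono nhdsWithin_le_nhds, hC.filter_mono nhdsWithin_le_nhds, h1]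
        with z e1 e2 e3
      have hz : z + 2 ≠ 0 := fun h0 => e3 (by linear_combination h0)
      have hzp : 0 < ‖z + 2‖ := norm_pos_iff.mpr hz
      rw [e1, sub_neg_eq_add, smul_eq_mul, norm_mul, norm_pow, norm_pow] at e2
      have h3 : ‖z + 2‖ ^ m = ‖z + 2‖ ^ n * ‖z + 2‖ ^ (m - n) := by
        rw [← pow_add]; congr 1; omega
      rw [h3] at e2
      have h4 : 0 < ‖z + 2‖ ^ n := pow_pos hzp n
      have h5 : ‖z + 2‖ ^ n * ‖g z‖ ≤ ‖z + 2‖ ^ n * (C * ‖z + 2‖ ^ (m - n)) := by
        calc _ ≤ _ := e2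
          _ = _ := by ring
      exact le_of_mul_le_mul_left h5 h4
    have hlim0 : Tendsto (fun z : ℂ => C * ‖z + 2‖ ^ (m - n)) (𝓝[≠] (-2 : ℂ)) (𝓝 0) := by
      have h1 : Continuous (fun z : ℂ => C * ‖z + 2‖ ^ (m - n)) := by fun_prop
      have h2 := h1.tendsto (-2 : ℂ)
      have h3 : C * ‖(-2 : ℂ) + 2‖ ^ (m - n) = 0 := by
        rw [neg_add_cancel, norm_zero, zero_pow (by omega), mul_zero]
      rw [h3] at h2
      exact h2.mono_left nhdsWithin_le_nhds
    have hlim1 : Tendsto g (𝓝[≠] (-2 : ℂ)) (𝓝 0) := squeeze_zero_norm' hev2 hlim0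
    have hlim2 : Tendsto g (𝓝[≠] (-2 : ℂ)) (𝓝 (g (-2))) :=
      hg.continuousAt.tendsto.mono_left nhdsWithin_le_nhds
    exact hg0 (tendsto_nhds_unique hlim2 hlim1)
  obtain ⟨v, hv, hev⟩ := (natCast_le_analyticOrderAt ha).mp key
  refine ⟨v, hv, ?_⟩
  filter_upwards [hev] with z hz
  rw [hz, sub_neg_eq_add, smul_eq_mul]

private lemma conj_m2 : conj (-2 : ℂ) = -2 := by
  rw [map_neg, map_ofNat]

/-- the value of the cofactor at `-2` is real -/
private lemma real_val {m : ℕ} {g v : ℂ → ℂ} (hv : AnalyticAt ℂ v (-2))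
    (hev : ∀ᶠ z in 𝓝 (-2 : ℂ), g z = (z + 2) ^ m * v z) (hs : ∀ z, g (conj z) = conj (g z)) :
    conj (v (-2)) = v (-2) := by
  have hcl : Tendsto (fun z : ℂ => conj z) (𝓝 (-2 : ℂ)) (𝓝 (-2 : ℂ)) := by
    have := (Complex.continuous_conj).tendsto (-2 : ℂ)
    rwa [conj_m2] at this
  have h1 : ∀ᶠ z in 𝓝[≠] (-2 : ℂ), z ≠ -2 := eventually_mem_nhdsWithin
  have hz : ∀ᶠ z in 𝓝[≠] (-2 : ℂ), conj (v (conj z)) = v z := by
    filter_upwards [hev.filter_mono nhdsWithin_le_nhds,
      (hcl.eventually hev).filter_mono nhdsWithin_le_nhds, h1] with z e1 e2 e3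
    have hz : z + 2 ≠ 0 := fun h0 => e3 (by linear_combination h0)
    have h2 : conj (g (conj z)) = (z + 2) ^ m * conj (v (conj z)) := by
      rw [e2, map_mul, map_pow, map_add, Complex.conj_conj, map_ofNat]
    rw [hs, Complex.conj_conj, e1] at h2
    exact (mul_left_cancel₀ (pow_ne_zero m hz) h2).symm
  have hc1 : Tendsto (fun z => conj (v (conj z))) (𝓝[≠] (-2 : ℂ)) (𝓝 (conj (v (-2)))) := by
    have h2 : Tendsto (fun z => v (conj z)) (𝓝 (-2 : ℂ)) (𝓝 (v (-2))) :=
      hv.continuousAt.tendsto.comp hcl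
    exact ((Complex.continuous_conj.tendsto _).comp h2).mono_left nhdsWithin_le_nhds
  have hc2 : Tendsto v (𝓝[≠] (-2 : ℂ)) (𝓝 (v (-2))) :=
    hv.continuousAt.tendsto.mono_left nhdsWithin_le_nhds
  exact tendsto_nhds_unique (hc1.congr' hz) hc2

private lemma fmn_eq {μ : ℂ → ℝ} {i : ℕ} {F D : ℂ → ℂ} (h : FMN μ i 0 F D) (z : ℂ) :
    F z = (z + 2) ^ i * exp ((i : ℂ) * D z) := by
  have := h.eq z
  rw [pow_zero, mul_one, add_zero] at this
  exact this

private lemma real_of_symm {f : ℂ → ℂ} (h : ∀ z, f (conj z) = conj (f z)) (x : ℝ) :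
    f x = (((f x).re : ℝ) : ℂ) := by
  have := h x
  rw [Complex.conj_ofReal] at this
  exact (Complex.conj_eq_iff_re.mp this.symm).symm

private lemma Bel_add (h5 : S_basic) {μ : ℂ → ℝ} {U : Set ℂ} {f f' : ℂ → ℂ} (h : Bel μ U f)
    (h' : Bel μ U f') : Bel μ U (fun z => f z + f' z) := by
  obtain ⟨A, B, hw, he⟩ := h
  obtain ⟨A', B', hw', he'⟩ := h'
  refine ⟨_, _, h5.1 U f A B f' A' B' hw hw', ?_⟩
  filter_upwards [he, he'] with z e e'
  rw [e, e', map_add]
  ring

private lemma Bel_smul (h5 : S_basic) {μ : ℂ → ℝ} {U V : Set ℂ} {f : ℂ → ℂ} (h : Bel μ V f)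
    (hUV : U ⊆ V) (c : ℝ) : Bel μ U (fun z => (c : ℂ) * f z) := by
  obtain ⟨A, B, hw, he⟩ := h
  refine ⟨_, _, h5.2.1 U f A B c (h5.2.2.2.2.1 V U f A B hUV hw), ?_⟩
  filter_upwards [ae_restrict_of_ae_restrict_of_subset hUV he] with z e
  rw [e, map_mul, Complex.conj_ofReal]
  ring

private lemma tend_inv (n : ℕ) (hn : 1 ≤ n) :
    Tendsto (fun z : ℂ => ((z + 2) ^ n)⁻¹) (cocompact ℂ) (𝓝 0) := by
  have h1 : Tendsto (fun z : ℂ => z + 2) (cocompact ℂ) (cocompact ℂ) :=
    (Homeomorph.addRight (2 : ℂ)).isClosedEmbedding.tendsto_cocompact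
  have h2 : Tendsto (fun z : ℂ => (z + 2)⁻¹) (cocompact ℂ) (𝓝 0) := by
    have h3 : Tendsto (fun z : ℂ => z⁻¹) (cocompact ℂ) (𝓝 0) := by
      rw [← Metric.cobounded_eq_cocompact]
      exact tendsto_inv₀_cobounded
    exact h3.comp h1
  have h3 := h2.pow n
  rw [zero_pow (by omega)] at h3
  simpa only [inv_pow] using h3

private lemma tend_dec {h : ℂ → ℂ} (hd : Dec h) : Tendsto h (cocompact ℂ) (𝓝 0) := by
  obtain ⟨C, hC⟩ := hd
  have h1 : Tendsto (fun z : ℂ => C / ‖z‖) (cocompact ℂ) (𝓝 0) :=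
    (tendsto_const_nhds).div_atTop tendsto_norm_cocompact_atTop
  apply squeeze_zero_norm' _ h1
  have h2 : ∀ᶠ z : ℂ in cocompact ℂ, 2 ≤ ‖z‖ :=
    tendsto_norm_cocompact_atTop.eventually (eventually_ge_atTop 2)
  filter_upwards [h2] with z hz
  exact hC z hz

theorem piece_nev (h1 : S_ksb) (h2 : S_sim) (h3 : S_hpm) (h4 : S_gap) (h5 : S_basic) : S_nev := by
  intro κ hκ0 hκ1 μ hμ φ k A B hφ hφ0 hk hkc F D hF θ m ε g hg hO α hα
  obtain ⟨kb1, -, kb3, kb4, kb5⟩ :=
    h1 κ hκ0 hκ1 (5 / 4) (by norm_num) le_rfl μ hμ.mu φ k A B hφ hk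
  -- the domain
  set U : Set ℂ := (axis φ)ᶜ with hU
  have hUo : IsOpen U := by
    rw [hU, isOpen_compl_iff]
    have e : axis φ = {z : ℂ | z.im = 0} ∩ tsupport φ := rfl
    rw [e]
    exact (isClosed_eq Complex.continuous_im continuous_const).inter (isClosed_tsupport φ)
  have hUc : ∀ z ∈ U, conj z ∈ U := by
    intro z hz hcz
    apply hz
    have him : z.im = 0 := by
      have := hcz.1
      rw [Complex.conj_im] at this
      linarith
    have hzz : conj z = z := Complex.conj_eq_iff_im.mpr him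
    rw [hzz] at hcz
    exact hcz
  have hUα : ∀ x : ℝ, x ≤ α → (x : ℂ) ∈ U := by
    intro x hx hax
    have := hα _ hax
    rw [Complex.ofReal_re] at this
    linarith
  -- outside the disc of radius 1
  have hφout : ∀ z : ℂ, 1 ≤ ‖z‖ → φ z = 0 := by
    intro z hz
    apply image_eq_zero_of_notMem_tsupport
    intro hzt
    have := hφ.tf.2.2 hzt
    rw [mem_ball, dist_zero_right] at this
    linarith
  have hm2U : (-2 : ℂ) ∈ U := by
    intro hax
    have := hφ.tf.2.2 hax.2
    rw [mem_ball, dist_zero_right, norm_neg, Complex.norm_ofNat] at this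
    linarith
  have hUHU : UH ⊆ U := by
    intro z hz hax
    have hz' : 0 < z.im := hz
    have := hax.1
    linarith
  -- the functions
  set s : ℂ → ℂ := fun z => I * ((φ z : ℝ) : ℂ) * ((Real.sign z.im : ℝ) : ℂ) with hs
  set f : ℂ → ℂ := fun z => s z + g z with hf
  have hgc : Continuous g := by
    have e : g = fun z => k z - ∑ i ∈ Finset.range m, (θ i : ℂ) * F i z - (ε : ℂ) * F m z := funext hg
    rw [e]
    exact (hkc.sub (continuous_finsetSum _ (fun i _ => continuous_const.mul (hF i).pn.cont))).sub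
      (continuous_const.mul (hF m).pn.cont)
  have hgs : ∀ z, g (conj z) = conj (g z) := by
    intro z
    rw [hg, hg, hk.symm, map_sub, map_sub, map_sum, map_mul, Complex.conj_ofReal, (hF m).pn.symm]
    congr 2
    apply Finset.sum_congr rfl
    intro i _
    rw [map_mul, Complex.conj_ofReal, (hF i).pn.symm]
  have hss : ∀ z, s (conj z) = conj (s z) := by
    intro z
    simp only [hs]
    rw [hφ.symm, Complex.conj_im, Real.sign_neg, map_mul, map_mul, Complex.conj_ofReal,
      Complex.conj_ofReal, Complex.conj_I]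
    push_cast
    ring
  have hfs : ∀ z, f (conj z) = conj (f z) := by
    intro z
    simp only [hf]
    rw [hss, hgs, map_add]
  have hfc : ContinuousOn f U := by
    have e : f = fun z => (s z + k z) + (g z - k z) := by
      funext z; simp only [hf]; ring
    rw [e]
    exact kb4.add (hgc.sub hkc).continuousOn
  have hfB : Bel μ U f := by
    have hind : ∀ n : ℕ, Bel μ U (fun z => (s z + k z) - ∑ i ∈ Finset.range n, (θ i : ℂ) * F i z) := by
      intro n
      induction n with
      | zero => simpa using kb5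
      | succ n ih =>
        have h6 := Bel_add h5 ih (Bel_smul h5 (hF n).pn.bel (subset_univ U) (-(θ n)))
        have e : (fun z => (s z + k z) - ∑ i ∈ Finset.range (n + 1), (θ i : ℂ) * F i z) =
            fun z => ((s z + k z) - ∑ i ∈ Finset.range n, (θ i : ℂ) * F i z) +
              ((-(θ n) : ℝ) : ℂ) * F n z := by
          funext z
          rw [Finset.sum_range_succ]
          push_cast
          ring
        rw [e]
        exact h6
    have h6 := Bel_add h5 (hind m) (Bel_smul h5 (hF m).pn.bel (subset_univ U) (-ε))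
    have e : f = fun z => ((s z + k z) - ∑ i ∈ Finset.range m, (θ i : ℂ) * F i z) +
        ((-ε : ℝ) : ℂ) * F m z := by
      funext z
      simp only [hf]
      rw [hg]
      push_cast
      ring
    rw [e]
    exact h6
  obtain ⟨σ, σc, σd, -, Φd, σs'⟩ := h2 κ hκ0 hκ1 μ hμ U f hUo hfc hfB
  have σs : ∀ z, σ (conj z) = conj (σ z) := σs' (fun z hz => ⟨hUc z hz, hfs z⟩)
  set Φ : ℂ → ℂ := fun z => exp (-σ z) * (f z - (μ z : ℂ) * conj (f z)) with hΦ
  have Φs : ∀ z, Φ (conj z) = conj (Φ z) := by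
    intro z
    simp only [hΦ]
    rw [σs, hfs, hμ.mu.symm, map_mul, map_sub, map_mul, Complex.conj_ofReal, ← Complex.exp_conj,
      map_neg]
  have hfar : ∀ᶠ z in 𝓝 (-2 : ℂ), 5 / 4 < ‖z‖ := by
    apply (isOpen_lt continuous_const continuous_norm).mem_nhds
    show 5 / 4 < ‖(-2 : ℂ)‖
    rw [norm_neg, Complex.norm_ofNat]
    norm_num
  have hΦfar : ∀ z, 5 / 4 < ‖z‖ → Φ z = exp (-σ z) * g z := by
    intro z hz
    simp only [hΦ, hf, hs]
    rw [hφout z (by linarith), hμ.mu.supp z hz]
    simp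
  have Φa : AnalyticAt ℂ Φ (-2) := Φd.analyticAt (hUo.mem_nhds hm2U)
  have ΦO : Φ =O[𝓝 (-2 : ℂ)] fun z => (z + 2) ^ m := by
    have h6 : (fun z => exp (-σ z) * g z) =O[𝓝 (-2 : ℂ)] fun z => (1 : ℂ) * (z + 2) ^ m := by
      apply Asymptotics.IsBigO.mul _ hO
      have hc : Continuous (fun z => exp (-σ z)) := Complex.continuous_exp.comp σc.neg
      exact (hc.tendsto (-2 : ℂ)).isBigO_one ℂ
    simp only [one_mul] at h6
    apply h6.congr' _ (Filter.EventuallyEq.refl _ _)
    filter_upwards [hfar] with z hz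
    exact (hΦfar z hz).symm
  obtain ⟨v, hv, hev⟩ := fac Φ m Φa ΦO
  have hvr := real_val hv hev Φs
  -- the functions q and q'
  set h : ℂ → ℂ := fun z => g z + I * ((φ z : ℝ) : ℂ) with hh
  set q : ℂ → ℂ := fun z => if z = -2 then v (-2) else Φ z / (z + 2) ^ m with hq
  set q' : ℂ → ℂ := fun z => if z = -2 then v (-2) else
    exp (-σ z) * (h z - (μ z : ℂ) * conj (h z)) / (z + 2) ^ m with hq'
  have hne2 : ∀ z : ℂ, z ≠ -2 → z + 2 ≠ 0 := fun z hz h0 => hz (by linear_combination h0)
  -- equality of q and q'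
  have hfh : ∀ z ∈ U, 0 ≤ z.im → f z = h z := by
    intro z hz him
    simp only [hf, hh, hs]
    rcases him.lt_or_eq with h6 | h6
    · rw [Real.sign_of_pos h6]
      push_cast
      ring
    · have : φ z = 0 := by
        apply image_eq_zero_of_notMem_tsupport
        intro hzt
        exact hz ⟨h6.symm, hzt⟩
      rw [this]
      simp
  have hqq : ∀ z ∈ U, 0 ≤ z.im → q z = q' z := by
    intro z hz him
    simp only [hq, hq', hΦ]
    by_cases h6 : z = -2
    · rw [if_pos h6, if_pos h6]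
    · rw [if_neg h6, if_neg h6, hfh z hz him]
  -- near -2
  have hqv : q =ᶠ[𝓝 (-2 : ℂ)] v := by
    filter_upwards [hev] with z hz
    simp only [hq]
    by_cases h6 : z = -2
    · rw [if_pos h6, h6]
    · rw [if_neg h6, hz, mul_div_cancel_left₀ _ (pow_ne_zero m (hne2 z h6))]
  have hqv' : q' =ᶠ[𝓝 (-2 : ℂ)] v := by
    filter_upwards [hev, hfar] with z hz hz2
    simp only [hq']
    by_cases h6 : z = -2
    · rw [if_pos h6, h6]
    · rw [if_neg h6]
      have e : exp (-σ z) * (h z - (μ z : ℂ) * conj (h z)) = Φ z := by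
        rw [hΦfar z hz2]
        simp only [hh]
        rw [hφout z (by linarith), hμ.mu.supp z hz2]
        simp
      rw [e, hz, mul_div_cancel_left₀ _ (pow_ne_zero m (hne2 z h6))]
  -- differentiability of q
  have hqd : DifferentiableOn ℂ q U := by
    intro z hz
    apply DifferentiableAt.differentiableWithinAt
    by_cases h6 : z = -2
    · rw [h6]
      exact hv.differentiableAt.congr_of_eventuallyEq hqv
    · have hd : DifferentiableAt ℂ (fun z => Φ z / (z + 2) ^ m) z :=
        (Φd.differentiableAt (hUo.mem_nhds hz)).div (((differentiableAt_id).add_const 2).pow m)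
          (pow_ne_zero m (hne2 z h6))
      apply hd.congr_of_eventuallyEq
      filter_upwards [isOpen_ne.mem_nhds h6] with w hw
      simp only [hq]
      rw [if_neg hw]
  -- continuity of q'
  have hqc : Continuous q' := by
    rw [continuous_iff_continuousAt]
    intro z
    by_cases h6 : z = -2
    · rw [h6]
      exact hv.continuousAt.congr hqv'.symm
    · have hφc : Continuous φ := hφ.tf.1.continuous
      have hμc : Continuous μ := hμ.smooth.continuous
      have hhc : Continuous h := hgc.add (continuous_const.mul (Complex.continuous_ofReal.comp hφc))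
      have hn : Continuous (fun z => exp (-σ z) * (h z - (μ z : ℂ) * conj (h z))) :=
        (Complex.continuous_exp.comp σc.neg).mul (hhc.sub
          ((Complex.continuous_ofReal.comp hμc).mul (Complex.continuous_conj.comp hhc)))
      have hd : ContinuousAt (fun z => exp (-σ z) * (h z - (μ z : ℂ) * conj (h z)) / (z + 2) ^ m) z :=
        hn.continuousAt.div (by fun_prop) (pow_ne_zero m (hne2 z h6))
      apply hd.congr
      filter_upwards [isOpen_ne.mem_nhds h6] with w hw
      simp only [hq']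
      rw [if_neg hw]
  have hqd' : DifferentiableOn ℂ q' UH := by
    apply (hqd.mono hUHU).congr
    intro z hz
    have hz' : 0 < z.im := hz
    exact (hqq z (hUHU hz) hz'.le).symm
  -- values on the real axis
  have hgr : ∀ x : ℝ, g x = (((g x).re : ℝ) : ℂ) := real_of_symm hgs
  have hσr : ∀ x : ℝ, σ x = (((σ x).re : ℝ) : ℂ) := real_of_symm σs
  have hval : ∀ x : ℝ, x ≠ -2 → q' x =
      ((Real.exp (-(σ x).re) / (x + 2) ^ m : ℝ) : ℂ) *
        ((((g x).re * (1 - μ x) : ℝ) : ℂ) + (((φ x * (1 + μ x)) : ℝ) : ℂ) * I) := by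
    intro x hx
    have hx' : (x : ℂ) ≠ -2 := by
      intro h6
      apply hx
      have : (x : ℂ) = ((-2 : ℝ) : ℂ) := by rw [h6]; push_cast; rfl
      exact_mod_cast this
    simp only [hq', hh]
    rw [if_neg hx', hgr x, hσr x]
    simp only [map_add, map_mul, Complex.conj_ofReal, Complex.conj_I, Complex.ofReal_re]
    push_cast
    ring
  have hre : ∀ x : ℝ, x ≠ -2 → (q' x).re =
      Real.exp (-(σ x).re) / (x + 2) ^ m * ((g x).re * (1 - μ x)) := by
    intro x hx
    rw [hval x hx, Complex.re_ofReal_mul, Complex.add_re, Complex.ofReal_re, Complex.re_ofReal_mul,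
      Complex.I_re, mul_zero, add_zero]
  have him : ∀ x : ℝ, x ≠ -2 → (q' x).im =
      Real.exp (-(σ x).re) / (x + 2) ^ m * (φ x * (1 + μ x)) := by
    intro x hx
    rw [hval x hx, Complex.im_ofReal_mul, Complex.add_im, Complex.ofReal_im, Complex.im_ofReal_mul,
      Complex.I_im, mul_one, zero_add]
  have hμ1 : ∀ z, -1 < μ z ∧ μ z < 1 := by
    intro z
    have := hμ.mu.bd z
    rw [abs_le] at this
    constructor <;> linarith [this.1, this.2]
  have hreal : ∀ x : ℝ, 0 ≤ (q' x).im := by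
    intro x
    by_cases hx : x = -2
    · have h6 : q' ((x : ℝ) : ℂ) = v (-2) := by
        simp only [hq']
        rw [if_pos]
        rw [hx]; push_cast; rfl
      rw [h6, Complex.conj_eq_iff_im.mp hvr]
    · rw [him x hx]
      rcases lt_or_gt_of_ne hx with h6 | h6
      · have : φ x = 0 := by
          apply hφout
          rw [Complex.norm_real, Real.norm_eq_abs]
          rw [abs_of_neg (by linarith)]
          linarith
        rw [this, zero_mul, mul_zero]
      · have h7 : 0 < x + 2 := by linarith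
        have h8 := hφ0 x
        have h9 := (hμ1 x).1
        apply mul_nonneg (by positivity)
        exact mul_nonneg h8 (by linarith)
  -- the limit at infinity
  have hlim : Tendsto q' (cocompact ℂ) (𝓝 (((-ε : ℝ)) : ℂ)) := by
    have hσ0 : Tendsto (fun z => exp (-σ z)) (cocompact ℂ) (𝓝 1) := by
      have h6 := (Complex.continuous_exp.tendsto (-0 : ℂ)).comp (tend_dec σd).neg
      rw [neg_zero, Complex.exp_zero] at h6
      exact h6
    have hk0 : Tendsto (fun z => k z * ((z + 2) ^ m)⁻¹) (cocompact ℂ) (𝓝 0) := by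
      rcases Nat.eq_zero_or_pos m with h6 | h6
      · simp only [h6, pow_zero, inv_one, mul_one]
        exact tend_dec hk.dec
      · have := (tend_dec hk.dec).mul (tend_inv m h6)
        rwa [mul_zero] at this
    have hexp : ∀ i : ℕ, Tendsto (fun z => exp ((i : ℂ) * D i z)) (cocompact ℂ) (𝓝 1) := by
      intro i
      have h6 : Tendsto (fun z => (i : ℂ) * D i z) (cocompact ℂ) (𝓝 0) := by
        have := (tend_dec (hF i).ddec).const_mul (i : ℂ)
        rwa [mul_zero] at this
      have h7 := (Complex.continuous_exp.tendsto (0 : ℂ)).comp h6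
      rw [Complex.exp_zero] at h7
      exact h7
    have hne : ∀ᶠ z : ℂ in cocompact ℂ, 2 < ‖z‖ :=
      tendsto_norm_cocompact_atTop.eventually (eventually_gt_atTop 2)
    have hFi : ∀ i < m, Tendsto (fun z => F i z * ((z + 2) ^ m)⁻¹) (cocompact ℂ) (𝓝 0) := by
      intro i hi
      have h6 := (tend_inv (m - i) (by omega)).mul (hexp i)
      rw [zero_mul] at h6
      apply h6.congr'
      filter_upwards [hne] with z hz
      have hz2 : z ≠ -2 := by
        intro h7
        rw [h7, norm_neg, Complex.norm_ofNat] at hz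
        exact lt_irrefl _ hz
      have hz3 := hne2 z hz2
      rw [fmn_eq (hF i) z]
      have h8 : (z + 2) ^ m = (z + 2) ^ (m - i) * (z + 2) ^ i := by
        rw [← pow_add]; congr 1; omega
      rw [h8]
      field_simp
    have hFm : Tendsto (fun z => F m z * ((z + 2) ^ m)⁻¹) (cocompact ℂ) (𝓝 1) := by
      apply (hexp m).congr'
      filter_upwards [hne] with z hz
      have hz2 : z ≠ -2 := by
        intro h7
        rw [h7, norm_neg, Complex.norm_ofNat] at hz
        exact lt_irrefl _ hz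
      have hz3 := hne2 z hz2
      rw [fmn_eq (hF m) z]
      field_simp
    have hsum : Tendsto (fun z => ∑ i ∈ Finset.range m, (θ i : ℂ) * (F i z * ((z + 2) ^ m)⁻¹))
        (cocompact ℂ) (𝓝 (∑ i ∈ Finset.range m, (θ i : ℂ) * 0)) :=
      tendsto_finsetSum _ (fun i hi => (hFi i (Finset.mem_range.mp hi)).const_mul _)
    have htot := hσ0.mul ((hk0.sub hsum).sub (hFm.const_mul (ε : ℂ)))
    have e : (1 : ℂ) * (0 - ∑ i ∈ Finset.range m, (θ i : ℂ) * 0 - (ε : ℂ) * 1) = ((-ε : ℝ) : ℂ) := by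
      simp
    rw [e] at htot
    apply htot.congr'
    filter_upwards [hne] with z hz
    have hz2 : z ≠ -2 := by
      intro h7
      rw [h7, norm_neg, Complex.norm_ofNat] at hz
      exact lt_irrefl _ hz
    simp only [hq', hh]
    rw [if_neg hz2, hφout z (by linarith), hμ.mu.supp z (by linarith), hg z]
    have e2 : ∑ i ∈ Finset.range m, (θ i : ℂ) * (F i z * ((z + 2) ^ m)⁻¹) =
        (∑ i ∈ Finset.range m, (θ i : ℂ) * F i z) * ((z + 2) ^ m)⁻¹ := by
      rw [Finset.sum_mul]
      exact Finset.sum_congr rfl (fun i _ => by ring)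
    rw [e2, div_eq_mul_inv]
    push_cast
    ring
  have hinf : ∀ δ : ℝ, 0 < δ → ∃ R : ℝ, ∀ z, R ≤ ‖z‖ → ‖q' z - ((-ε : ℝ) : ℂ)‖ ≤ δ := by
    intro δ hδ
    have h6 := hlim.eventually (Metric.ball_mem_nhds _ hδ)
    rw [← Metric.cobounded_eq_cocompact] at h6
    obtain ⟨R, -, hR⟩ := (Metric.hasBasis_cobounded_compl_closedBall (0 : ℂ)).eventually_iff.mp h6
    refine ⟨R + 1, fun z hz => ?_⟩
    have h7 : z ∈ (closedBall (0 : ℂ) R)ᶜ := by
      rw [mem_compl_iff, mem_closedBall, dist_zero_right]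
      linarith
    have h8 := hR h7
    rw [← dist_eq_norm]
    exact (mem_ball.mp h8).le
  -- positivity in the half plane
  have hpos := h3 q' (-ε) hqc.continuousOn hqd' hreal (fun δ hδ => by
    obtain ⟨R, hR⟩ := hinf δ hδ
    exact ⟨R, fun z _ hz => hR z hz⟩)
  -- monotonicity
  have hqs : ∀ z ∈ U, conj z ∈ U ∧ q (conj z) = conj (q z) := by
    intro z hz
    refine ⟨hUc z hz, ?_⟩
    simp only [hq]
    by_cases h6 : z = -2
    · rw [if_pos h6, h6, conj_m2, if_pos rfl, hvr]
    · have h7 : conj z ≠ -2 := by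
        intro h8
        apply h6
        have := congrArg conj h8
        rwa [Complex.conj_conj, conj_m2] at this
      rw [if_neg h6, if_neg h7, Φs, map_div₀, map_pow, map_add, map_ofNat]
  have hmono : ∀ a b : ℝ, a ≤ b → b ≤ α → (q a).re ≤ (q b).re := by
    intro a b hab hb
    exact h4 U q hUo hqd hqs (fun z hz hzi => by rw [hqq z hz hzi]; exact hpos z hzi) a b hab
      (fun x _ hx => hUα x (hx.trans hb))
  have hqx : ∀ x : ℝ, x ≤ α → q x = q' x := fun x hx =>
    hqq _ (hUα x hx) (by rw [Complex.ofReal_im])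
  have hfacpos : ∀ x : ℝ, -2 < x → 0 < Real.exp (-(σ x).re) / (x + 2) ^ m * (1 - μ x) := by
    intro x hx
    have h7 : 0 < x + 2 := by linarith
    have h8 := (hμ1 x).2
    apply mul_pos (by positivity)
    linarith
  have hqre : ∀ x : ℝ, -2 < x → x ≤ α → (q x).re =
      (Real.exp (-(σ x).re) / (x + 2) ^ m * (1 - μ x)) * (g x).re := by
    intro x hx hxα
    rw [hqx x hxα, hre x (ne_of_gt hx)]
    ring
  constructor
  · intro hε x hx hxα
    have h6 : 0 ≤ (q x).re := by
      apply le_of_forall_pos_le_add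
      intro δ hδ
      obtain ⟨R, hR⟩ := hinf δ hδ
      set y : ℝ := min x (-|R|) with hy
      have hyx : y ≤ x := min_le_left _ _
      have hyR : R ≤ ‖((y : ℝ) : ℂ)‖ := by
        rw [Complex.norm_real, Real.norm_eq_abs]
        have h7 : y ≤ -|R| := min_le_right _ _
        have h7' : y ≤ 0 := by linarith [abs_nonneg R]
        have h8 : |R| ≤ |y| := by
          rw [abs_of_nonpos h7']
          linarith
        exact (le_abs_self R).trans h8
      have h9 := hR _ hyR
      have h10 := hmono y x hyx hxα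
      rw [hqx y (hyx.trans hxα)] at h10
      have h11 := Complex.abs_re_le_norm (q' y - ((-ε : ℝ) : ℂ))
      rw [Complex.sub_re, Complex.ofReal_re, hε] at h11
      rw [hε] at h9
      have h12 := (abs_le.mp (h11.trans h9)).1
      linarith
    rw [hqre x hx hxα] at h6
    exact nonneg_of_mul_nonneg_right h6 (hfacpos x hx)
  · intro x x' hx hxx hx' hgx
    have h6 : 0 < (q x).re := by
      rw [hqre x hx (hxx.trans hx')]
      exact mul_pos (hfacpos x hx) hgx
    have h7 := hmono x x' hxx hx'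
    rw [hqre x' (lt_of_lt_of_le hx hxx) hx'] at h7
    have h8 : 0 < (Real.exp (-(σ x').re) / (x' + 2) ^ m * (1 - μ x')) * (g x').re :=
      lt_of_lt_of_le h6 h7
    exact ((mul_pos_iff_of_pos_left (hfacpos x' (lt_of_lt_of_le hx hxx))).mp h8).le

end

end Cal
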