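import Pool.Agent.Lib.MP_4ea4c7_an.StmF

/-! [M7] Odd functions transported to `Ω`. -/

open MeasureTheory Complex Metric Set Filter Topology
open scoped ComplexConjugate ENNReal NNReal

namespace Cal

open LocalCalderon

namespace OctAux

/-- a function on a homeomorphic image of a compact set -/
theorem transport {K : Set ℂ} (hK : IsCompact K) {Ψ : ℂ → ℂ} (hc : ContinuousOn Ψ K)
    (hi : InjOn Ψ K) (Φ : ℂ → ℝ) (hΦ : Continuous Φ) :
    ∃ u : ℂ → ℝ, ContinuousOn u (Ψ '' K) ∧ ∀ z ∈ K, u (Ψ z) = Φ z := by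
  classical
  refine ⟨fun w => Φ (Function.invFunOn Ψ K w), ?_, fun z hz => ?_⟩
  · have : CompactSpace K := isCompact_iff_compactSpace.1 hK
    have hc' : Continuous (K.domRestrict Ψ) := continuousOn_iff_continuous_domRestrict.1 hc
    have hi' : Function.Injective (K.domRestrict Ψ) := (injOn_iff_injective).1 hi
    have he := (hc'.isClosedEmbedding hi').isEmbedding
    have hr : Set.range (K.domRestrict Ψ) = Ψ '' K := Set.range_domRestrict Ψ K
    rw [← hr, continuousOn_iff_continuous_domRestrict]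
    have e : (Set.range (K.domRestrict Ψ)).domRestrict (fun w => Φ (Function.invFunOn Ψ K w)) =
        fun y => Φ ((he.toHomeomorph.symm y : K) : ℂ) := by
      funext y
      obtain ⟨x, rfl⟩ := he.toHomeomorph.surjective y
      rw [Homeomorph.symm_apply_apply]
      show Φ (Function.invFunOn Ψ K (Ψ x)) = Φ x
      rw [hi.leftInvOn_invFunOn x.2]
    rw [e]
    exact hΦ.comp (continuous_subtype_val.comp he.toHomeomorph.symm.continuous)
  · show Φ (Function.invFunOn Ψ K (Ψ z)) = Φ z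
    rw [hi.leftInvOn_invFunOn hz]

/-- restriction and change of the weak gradient -/
theorem wg_restrict {U : Set ℂ} {u : ℂ → ℝ} {G G' : ℂ → ℂ} (h : WG univ u G)
    (hG : ∀ z ∈ U, G' z = G z) : WG U u G' := by
  refine ⟨fun K hK _ => h.u2 K hK (subset_univ _), fun K hK hKU => ?_, fun φ hφ => ?_⟩
  · refine (memLp_congr_ae ?_).1 (h.G2 K hK (subset_univ _))
    exact (ae_restrict_iff' hK.measurableSet).2 (Eventually.of_forall fun z hz => (hG z (hKU hz)).symm)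
  · rw [h.h φ ⟨hφ.1, hφ.2.1, subset_univ _⟩]
    congr 1
    refine integral_congr_ae (Eventually.of_forall fun z => ?_)
    by_cases hz : z ∈ tsupport φ
    · show G z * (φ z : ℂ) = G' z * (φ z : ℂ)
      rw [hG z (hφ.2.2 hz)]
    · show G z * (φ z : ℂ) = G' z * (φ z : ℂ)
      rw [image_eq_zero_of_notMem_tsupport hz]
      simp

/-- a continuous function on a compact set is square integrable on subsets -/
theorem memLp_of_cont {K Ω : Set ℂ} (hK : IsCompact K) (hΩ : MeasurableSet Ω) (hs : Ω ⊆ K)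
    {u : ℂ → ℝ} (hu : ContinuousOn u K) : MemLp u 2 (volume.restrict Ω) := by
  have : IsFiniteMeasure (volume.restrict Ω) :=
    ⟨by rw [Measure.restrict_apply_univ]; exact (measure_mono hs).trans_lt hK.measure_lt_top⟩
  obtain ⟨C, hC⟩ := hK.exists_bound_of_continuousOn hu
  exact MemLp.of_bound ((hu.mono hs).aestronglyMeasurable hΩ) C
    ((ae_restrict_iff' hΩ).2 (Eventually.of_forall fun z hz => hC z (hs hz)))

theorem half_compact : IsCompact {z : ℂ | ‖z‖ = 1 ∧ 0 ≤ z.im} := by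
  have h : {z : ℂ | ‖z‖ = 1 ∧ 0 ≤ z.im} = sphere 0 1 ∩ {z : ℂ | 0 ≤ z.im} := by
    ext z
    simp [mem_sphere_iff_norm]
  rw [h]
  exact (isCompact_sphere 0 1).inter_right (isClosed_le continuous_const Complex.continuous_im)

end OctAux

open OctAux in
theorem piece_oct (h1 : S_psi0) (h2 : S_jtop) (h3 : S_jcb) (h4 : S_h1) (h5 : S_h10c)
    (h6 : S_cwg) (h7 : S_cv) : S_oct := by
  intro Ω ψ O hψ hO hup Φ G hΦ
  obtain ⟨hcl, hHBo, -, -, -, hp5, hp6, hp7⟩ := h1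
  obtain ⟨hΩo, hΩb, hΩc, hΩf⟩ := h2 Ω ψ hψ
  obtain ⟨hcb, -, -, hcont, hinj, himg⟩ := h3 Ω ψ hψ
  obtain ⟨Ψ, hΨ⟩ : ∃ Ψ : ℂ → ℂ, Ψ = fun z => ψ (psi0 z) := ⟨_, rfl⟩
  rw [← hΨ] at hcb hcont hinj himg ⊢
  have hKc : IsCompact (closure HB) := by
    rw [hcl]
    have : {z : ℂ | ‖z‖ ≤ 1 ∧ 0 ≤ z.im} = closedBall 0 1 ∩ {z : ℂ | 0 ≤ z.im} := by
      ext z
      simp [mem_closedBall_iff_norm]
    rw [this]
    exact (isCompact_closedBall 0 1).inter_right (isClosed_le continuous_const Complex.continuous_im)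
  obtain ⟨u, hu, huΦ⟩ := transport hKc hcont hinj Φ hΦ.cont
  rw [himg] at hu
  have hclc : IsCompact (closure Ω) := by
    rw [← himg]
    exact hKc.image_of_continuousOn hcont
  have huL : MemLp u 2 (volume.restrict Ω) :=
    memLp_of_cont hclc hΩo.measurableSet subset_closure hu
  obtain ⟨hcv1, -, -, hcv4, hcv5⟩ := h7 HB Ω Ψ hcb
  obtain ⟨G', hG'⟩ := hcv4 G
  have hG'ae : pull Ψ G' =ᵐ[volume.restrict HB] G :=
    (ae_restrict_iff' hHBo.measurableSet).2 (Eventually.of_forall fun z hz => hG' z hz)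
  have hWG1 : WG HB Φ (pull Ψ G') := wg_restrict hΦ.wg hG'
  have hWG : WG Ω u G' := (h6 HB Ω Ψ hcb u Φ G' fun z hz => (huΦ z (subset_closure hz)).symm).2 hWG1
  have hG'L : MemLp G' 2 (volume.restrict Ω) :=
    (hcv1 G').2 ((memLp_congr_ae hG'ae).2 (hΦ.mem.restrict _))
  obtain ⟨f1, f2, -, -, f5, -, -, f8, -⟩ := h4
  obtain ⟨hH1, hwg⟩ := f2 Ω u G' hΩo huL hG'L ((f8 Ω u G' hΩo huL hG'L).1 hWG)
  refine ⟨u, hH1, ?_, ((hcv5 _ _).1 hwg).trans hG'ae⟩
  have hsub : {z : ℂ | ‖z‖ = 1 ∧ 0 ≤ z.im} ⊆ closure HB := by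
    rw [hcl]
    exact fun z hz => ⟨hz.1.le, hz.2⟩
  refine ⟨Ψ '' {z : ℂ | ‖z‖ = 1 ∧ 0 ≤ z.im}, ?_,
    half_compact.image_of_continuousOn (hcont.mono hsub), ?_⟩
  · rintro _ ⟨z, hz, rfl⟩
    obtain ⟨h8, h9⟩ := hp7 z (hsub hz) hz.1
    rw [hΨ]
    refine ⟨hup _ h8 h9, ?_⟩
    rw [hΩf]
    exact ⟨psi0 z, by rw [mem_sphere_iff_norm, sub_zero]; exact h8, rfl⟩
  · intro η hη hd
    obtain ⟨hH1η, -⟩ := f5 Ω u η hΩo hH1 hη
    obtain ⟨hm, hw⟩ := f1 Ω _ hH1η
    refine h5 Ω (fun z => η z * u z) (wgrad Ω fun z => η z * u z) hΩo hΩb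
      (hη.1.continuous.continuousOn.mul hu) ?_ ((f8 Ω _ _ hΩo hH1η.1 hm).2 hw) hm
    intro w hw
    rw [hΩf] at hw
    obtain ⟨v, hv, rfl⟩ := hw
    have hv1 : ‖v‖ = 1 := by rwa [mem_sphere_iff_norm, sub_zero] at hv
    have hv2 : v ∈ psi0 '' closure HB := by
      rw [hp5, mem_closedBall_iff_norm, sub_zero]
      exact hv1.le
    obtain ⟨ζ, hζ, rfl⟩ := hv2
    have hΨζ : ψ (psi0 ζ) = Ψ ζ := by rw [hΨ]
    rw [hΨζ]
    rcases hp6 ζ hζ hv1 with h8 | h8
    · have h9 : ζ ∈ {z : ℂ | ‖z‖ = 1 ∧ 0 ≤ z.im} := by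
        rw [hcl] at hζ
        exact ⟨h8, hζ.2⟩
      have h10 : Ψ ζ ∉ tsupport η := fun h =>
        Set.disjoint_left.1 hd h (mem_image_of_mem _ h9)
      show η (Ψ ζ) * u (Ψ ζ) = 0
      rw [image_eq_zero_of_notMem_tsupport h10, zero_mul]
    · show η (Ψ ζ) * u (Ψ ζ) = 0
      rw [huΦ ζ hζ]
      have h9 : conj ζ = ζ := Complex.conj_eq_iff_im.2 h8
      have h10 := hΦ.odd ζ
      rw [h9] at h10
      have h11 : Φ ζ = 0 := by linarith
      rw [h11, mul_zero]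

end Cal
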