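import Pool.Agent.Lib.MP_4ea4c7_an.StmD

/-! Piece H4: odd functions supported in the disc have gradients in `Z0 HB`. -/

open MeasureTheory Complex Metric Set Filter Topology
open scoped ComplexConjugate ENNReal NNReal

namespace Cal

/-- the derivative of the mollification -/
private lemma od_fderiv {ρ : ℂ → ℝ} (hρ : ContDiff ℝ (⊤ : ℕ∞) ρ) (hc : HasCompactSupport ρ) {g : ℂ → ℂ}
    (hg : LocallyIntegrable g volume) (z v : ℂ) :
    fderiv ℝ (mol ρ g) z v = ∫ ζ, ((fderiv ℝ ρ (z - ζ) v : ℝ) : ℂ) * g ζ := by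
  have e : mol ρ g = convolution ρ g (ContinuousLinearMap.lsmul ℝ ℝ) volume := by
    funext w
    unfold mol convolution
    rw [← integral_sub_left_eq_self (fun t => (ContinuousLinearMap.lsmul ℝ ℝ (ρ t)) (g (w - t))) volume w]
    refine integral_congr_ae (ae_of_all _ fun ζ => ?_)
    simp
  have h := (hc.hasFDerivAt_convolution_left (ContinuousLinearMap.lsmul ℝ ℝ) (hρ.of_le (by exact_mod_cast le_top))
    hg z).fderiv
  rw [e, h]
  unfold convolution
  have hex : ConvolutionExists (fderiv ℝ ρ) g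
      (ContinuousLinearMap.precompL ℂ (ContinuousLinearMap.lsmul ℝ ℝ)) volume :=
    (hc.fderiv ℝ).convolutionExists_left _ (hρ.continuous_fderiv (by simp)) hg
  rw [ContinuousLinearMap.integral_apply (hex z)]
  rw [← integral_sub_left_eq_self (fun t => ((ContinuousLinearMap.precompL ℂ
    (ContinuousLinearMap.lsmul ℝ ℝ) (fderiv ℝ ρ t)) (g (z - t))) v) volume z]
  refine integral_congr_ae (ae_of_all _ fun ζ => ?_)
  simp [ContinuousLinearMap.precompL_apply]

private lemma od_int {ρ : ℂ → ℝ} (hρ : ContDiff ℝ (⊤ : ℕ∞) ρ) {r : ℝ} (hr : ∀ z, r ≤ ‖z‖ → ρ z = 0) {g : ℂ → ℂ}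
    (hg : LocallyIntegrable g volume) (z v : ℂ) :
    Integrable (fun ζ => ((fderiv ℝ ρ (z - ζ) v : ℝ) : ℂ) * g ζ) volume := by
  have hk : Continuous (fun ζ : ℂ => fderiv ℝ ρ (z - ζ) v) :=
    ((hρ.continuous_fderiv (by simp)).comp (continuous_const.sub continuous_id)).clm_apply continuous_const
  have hks : HasCompactSupport (fun ζ : ℂ => fderiv ℝ ρ (z - ζ) v) := by
    refine HasCompactSupport.intro (isCompact_closedBall z r) ?_
    intro ζ hζ
    have : z - ζ ∉ tsupport ρ := by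
      intro h
      have hsub : tsupport ρ ⊆ closedBall 0 r := by
        refine closure_minimal ?_ isClosed_closedBall
        intro w hw
        rw [mem_closedBall_zero_iff]
        by_contra hlt
        exact hw (hr w (le_of_lt (not_le.1 hlt)))
      have h2 := hsub h
      rw [mem_closedBall_zero_iff] at h2
      apply hζ
      rw [mem_closedBall, dist_comm, dist_eq_norm]
      exact h2
    rw [fderiv_of_notMem_tsupport ℝ this]
    simp
  have := hg.integrable_smul_left_of_hasCompactSupport hk hks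
  refine this.congr (ae_of_all _ fun ζ => ?_)
  simp


/-- the real test function `ζ ↦ ρ (z - ζ)` -/
private lemma od_test {ρ : ℂ → ℝ} (hρ : ContDiff ℝ (⊤ : ℕ∞) ρ) {r : ℝ} (hr : ∀ z, r ≤ ‖z‖ → ρ z = 0)
    (z : ℂ) : RTF univ (fun ζ => ρ (z - ζ)) := by
  refine ⟨hρ.comp (contDiff_const.sub contDiff_id), ?_, subset_univ _⟩
  refine HasCompactSupport.intro (isCompact_closedBall z r) ?_
  intro ζ hζ
  apply hr
  rw [mem_closedBall, dist_comm, dist_eq_norm] at hζ
  linarith

private lemma od_testd {ρ : ℂ → ℝ} (hρ : ContDiff ℝ (⊤ : ℕ∞) ρ) (z ζ v : ℂ) :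
    fderiv ℝ (fun ζ => ρ (z - ζ)) ζ v = -(fderiv ℝ ρ (z - ζ) v) := by
  have h1 : HasFDerivAt ρ (fderiv ℝ ρ (z - ζ)) (z - ζ) :=
    (hρ.differentiable (by simp)).differentiableAt.hasFDerivAt
  have h2 : HasFDerivAt (fun ζ : ℂ => z - ζ) (-(ContinuousLinearMap.id ℝ ℂ)) ζ := by
    simpa using (hasFDerivAt_id ζ).const_sub z
  have h3 : HasFDerivAt (fun ζ => ρ (z - ζ)) ((fderiv ℝ ρ (z - ζ)).comp (-(ContinuousLinearMap.id ℝ ℂ))) ζ := h1.comp ζ h2
  rw [h3.fderiv]
  simp

private lemma od_mol (ρ μ : ℂ → ℝ) (z : ℂ) :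
    mol ρ (fun z => ((μ z : ℝ) : ℂ)) z = ((∫ ζ, ρ (z - ζ) * μ ζ : ℝ) : ℂ) := by
  unfold mol
  rw [← integral_complex_ofReal]
  refine integral_congr_ae (ae_of_all _ fun ζ => ?_)
  simp

private lemma od_conj (F : ℂ → ℝ) : ∫ ζ, F (conj ζ) = ∫ ζ, F ζ := by
  have h := Complex.conjLIE.measurePreserving
  have h2 := h.integral_comp (Complex.conjLIE.toHomeomorph.measurableEmbedding) F
  simpa using h2

private lemma od_HB : IsOpen HB := by
  have : HB = {z : ℂ | ‖z‖ < 1} ∩ {z : ℂ | 0 < z.im} := rfl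
  rw [this]
  exact (isOpen_lt continuous_norm continuous_const).inter (isOpen_lt continuous_const Complex.continuous_im)

private lemma od_bd : Bornology.IsBounded HB := by
  refine (Metric.isBounded_ball (x := (0 : ℂ)) (r := 1)).subset ?_
  intro z hz
  rw [mem_ball_zero_iff]
  exact hz.1

private lemma od_frontier {z : ℂ} (hz : z ∈ frontier HB) : 1 ≤ ‖z‖ ∨ z.im = 0 := by
  rw [od_HB.frontier_eq] at hz
  obtain ⟨h1, h2⟩ := hz
  have h3 : (0 : ℝ) ≤ z.im := by
    have hc : IsClosed {z : ℂ | 0 ≤ z.im} := isClosed_le continuous_const Complex.continuous_im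
    exact (closure_minimal (fun w hw => le_of_lt hw.2) hc) h1
  by_contra hcon
  push Not at hcon
  exact h2 ⟨hcon.1, lt_of_le_of_ne h3 (Ne.symm hcon.2)⟩

theorem piece_odd0 (h1 : S_bump) (h2 : S_zb) (h3 : S_zz) (h4 : S_bridge) : S_odd0 := by
  intro a G hW hG hodd hr
  obtain ⟨r, hr1, hr0⟩ := hr
  obtain ⟨ρ, hρs, hρ0, hρc, hρi, hρr, hρm, hρL, hρu⟩ := h1
  set g : ℂ → ℂ := fun z => ((a z : ℝ) : ℂ) with hg
  have hgind : g = (closedBall (0 : ℂ) 1).indicator g := by
    funext z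
    by_cases hz : z ∈ closedBall (0 : ℂ) 1
    · rw [indicator_of_mem hz]
    · rw [indicator_of_notMem hz, hg]
      simp only
      rw [mem_closedBall_zero_iff, not_le] at hz
      rw [hr0 z (by linarith)]
      simp
  have hgL : MemLp g 2 volume := by
    rw [hgind, memLp_indicator_iff_restrict isClosed_closedBall.measurableSet]
    exact hW.u2 _ (isCompact_closedBall 0 1) (subset_univ _)
  have hgl : LocallyIntegrable g volume := hgL.locallyIntegrable (by norm_num)
  have hGl : LocallyIntegrable G volume := hG.locallyIntegrable (by norm_num)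
  let M : ℕ → ℂ → ℝ := fun n z => ∫ ζ, ρ n (z - ζ) * a ζ
  have hM : ∀ n z, mol (ρ n) g z = ((M n z : ℝ) : ℂ) := fun n z => od_mol (ρ n) a z
  have hMe : ∀ n, mol (ρ n) g = fun z => ((M n z : ℝ) : ℂ) := fun n => funext (hM n)
  have hMs : ∀ n, ContDiff ℝ (⊤ : ℕ∞) (M n) := by
    intro n
    have h := Complex.reCLM.contDiff.comp (hρm g hgl n)
    have e : M n = Complex.reCLM ∘ mol (ρ n) g := by
      funext z
      simp [hM]
    rw [e]
    exact h
  have hρcs : ∀ n, HasCompactSupport (ρ n) := by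
    intro n
    refine HasCompactSupport.intro (isCompact_closedBall (0 : ℂ) (1 / ((n : ℝ) + 1))) ?_
    intro z hz
    rw [mem_closedBall_zero_iff, not_le] at hz
    exact hρc n z hz.le
  have hgr : ∀ n z, gr (M n) z = mol (ρ n) G z := by
    intro n z
    have e1 : ∀ v, (((fderiv ℝ (M n) z v : ℝ)) : ℂ) = ∫ ζ, ((fderiv ℝ (ρ n) (z - ζ) v : ℝ) : ℂ) * g ζ := by
      intro v
      rw [← od_fderiv (hρs n) (hρcs n) hgl z v, hMe n]
      have h5 : HasFDerivAt (M n) (fderiv ℝ (M n) z) z :=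
        ((hMs n).differentiable (by simp)).differentiableAt.hasFDerivAt
      have h6 : HasFDerivAt (fun z => ((M n z : ℝ) : ℂ)) (Complex.ofRealCLM.comp (fderiv ℝ (M n) z)) z :=
        (Complex.ofRealCLM.hasFDerivAt (x := M n z)).comp z h5
      rw [h6.fderiv]
      simp
    have hT := hW.h _ (od_test (hρs n) (hρc n) z)
    have e2 : ∫ ζ, ((a ζ : ℝ) : ℂ) * gr (fun ζ => ρ n (z - ζ)) ζ = - (∫ ζ, ((fderiv ℝ (ρ n) (z - ζ) 1 : ℝ) : ℂ) * g ζ) -
        I * (∫ ζ, ((fderiv ℝ (ρ n) (z - ζ) I : ℝ) : ℂ) * g ζ) := by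
      have i1 := od_int (hρs n) (hρc n) hgl z 1
      have i2 := od_int (hρs n) (hρc n) hgl z I
      have e5 := integral_sub (i1.const_mul (-1)) (i2.const_mul I)
      rw [integral_const_mul, integral_const_mul, neg_one_mul] at e5
      rw [← e5]
      refine integral_congr_ae (ae_of_all _ fun ζ => ?_)
      simp only [gr, od_testd (hρs n), hg]
      push_cast
      ring
    unfold gr
    rw [e1, e1]
    rw [e2] at hT
    have e3 : mol (ρ n) G z = ∫ ζ, G ζ * ((ρ n (z - ζ) : ℝ) : ℂ) := by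
      unfold mol
      refine integral_congr_ae (ae_of_all _ fun ζ => ?_)
      simp only
      ring
    rw [e3]
    linear_combination -hT
  have hMo : ∀ n z, M n (conj z) = - M n z := by
    intro n z
    have e1 : M n (conj z) = ∫ ζ, (fun ζ => ρ n (conj z - ζ) * a ζ) (conj ζ) :=
      (od_conj (fun ζ => ρ n (conj z - ζ) * a ζ)).symm
    rw [e1]
    simp only [M]
    rw [← integral_neg]
    refine integral_congr_ae (ae_of_all _ fun ζ => ?_)
    simp only
    rw [hodd ζ, hρr n (conj z - conj ζ) (z - ζ) (by rw [← map_sub]; exact Complex.norm_conj _)]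
    ring
  have hM0 : ∀ n : ℕ, r + 1 / ((n : ℝ) + 1) ≤ 1 → ∀ z : ℂ, 1 ≤ ‖z‖ → M n z = 0 := by
    intro n hn z hz
    refine integral_eq_zero_of_ae (ae_of_all _ fun ζ => ?_)
    simp only [Pi.zero_apply]
    by_cases hζ : r < ‖ζ‖
    · rw [hr0 ζ hζ, mul_zero]
    · rw [hρc, zero_mul]
      rw [not_lt] at hζ
      have := norm_sub_norm_le z ζ
      linarith
  have hz0 : ∀ n : ℕ, r + 1 / ((n : ℝ) + 1) ≤ 1 → Z0 HB (gr (M n)) := by
    intro n hn
    have hmem : MemLp (gr (M n)) 2 (volume.restrict HB) := by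
      have : gr (M n) = mol (ρ n) G := funext (hgr n)
      rw [this]
      exact ((hρL G hG).1 n).1.restrict _
    refine ⟨hmem, ?_⟩
    intro ε hε
    have hfr : ∀ z ∈ frontier HB, M n z = 0 := by
      intro z hz
      rcases od_frontier hz with h | h
      · exact hM0 n hn z h
      · have h5 : conj z = z := Complex.conj_eq_iff_im.2 h
        have h6 := hMo n z
        rw [h5] at h6
        linarith
    obtain ⟨φ, hφ, _, hφ2⟩ := h2 HB (M n) (gr (M n)) od_HB od_bd (hMs n).continuous.continuousOn hfr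
      (h4.2.2.1 HB (M n) od_HB ((hMs n).contDiffOn.of_le (by exact_mod_cast le_top))) hmem ε hε
    exact ⟨φ, hφ, hφ2⟩
  refine (h3 HB od_HB.measurableSet).2.2.2.1 G (hG.restrict _) ?_
  intro ε hε
  have hT := (hρL G hG).2
  have hε' : (0 : ℝ≥0∞) < ENNReal.ofReal ε := ENNReal.ofReal_pos.2 hε
  have hev := (hT.eventually (gt_mem_nhds hε'))
  have hev2 : ∀ᶠ n : ℕ in atTop, r + 1 / ((n : ℝ) + 1) ≤ 1 := by
    have h7 := (tendsto_one_div_add_atTop_nhds_zero_nat (𝕜 := ℝ)).eventually (gt_mem_nhds (show (0 : ℝ) < 1 - r by linarith))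
    filter_upwards [h7] with n hn
    linarith
  obtain ⟨n, hn1, hn2⟩ := (hev.and hev2).exists
  refine ⟨gr (M n), hz0 n hn2, ?_⟩
  refine lt_of_le_of_lt ?_ hn1
  refine (eLpNorm_mono_measure _ Measure.restrict_le_self).trans ?_
  refine le_of_eq (eLpNorm_congr_norm_ae (ae_of_all _ fun z => ?_))
  rw [hgr n z, norm_sub_rev]

end Cal
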