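import Pool.Agent.Lib.MP_4ea4c7_an.Stm1
import Pool.Agent.Lib.MP_4ea4c7_an.StmC

open MeasureTheory Complex Metric Set Filter Topology
open scoped ComplexConjugate ENNReal NNReal

namespace Cal

theorem piece_oddext (h1 : S_bridge) : S_oddext := by
  intro φ hφ
  obtain ⟨hsm, hcs, hsub⟩ := hφ
  have hconj : ContDiff ℝ (⊤ : ℕ∞) (fun z : ℂ => conj z) := Complex.conjCLE.contDiff
  have hsm2 : ContDiff ℝ (⊤ : ℕ∞) (fun z : ℂ => φ (conj z)) := hsm.comp hconj
  have hΦ : ContDiff ℝ (⊤ : ℕ∞) (fun z : ℂ => φ z - φ (conj z)) := hsm.sub hsm2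
  have hcs2 : HasCompactSupport (fun z : ℂ => φ (conj z)) :=
    hcs.comp_homeomorph Complex.conjLIE.toHomeomorph
  have hcsΦ : HasCompactSupport (fun z : ℂ => φ z - φ (conj z)) := hcs.sub hcs2
  have hΦ1 : ContDiff ℝ 1 (fun z : ℂ => φ z - φ (conj z)) := hΦ.of_le (by simp)
  have hcf : Continuous (fderiv ℝ (fun z : ℂ => φ z - φ (conj z))) := hΦ1.continuous_fderiv (by simp)
  have hcg : Continuous (gr (fun z : ℂ => φ z - φ (conj z))) := by
    unfold gr
    exact ((Complex.continuous_ofReal.comp (hcf.clm_apply continuous_const))).add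
      (continuous_const.mul (Complex.continuous_ofReal.comp (hcf.clm_apply continuous_const)))
  have hcsg : HasCompactSupport (gr (fun z : ℂ => φ z - φ (conj z))) := by
    have hf := hcsΦ.fderiv (𝕜 := ℝ)
    refine hf.mono ?_
    intro z hz
    rw [Function.mem_support] at hz ⊢
    intro h0
    apply hz
    unfold gr
    rw [h0]
    simp
  refine ⟨⟨hΦ.continuous, hcsΦ, ?_, ?_, ?_⟩, ?_⟩
  · intro z
    simp
  · exact h1.2.2.1 univ _ isOpen_univ hΦ1.contDiffOn
  · exact hcg.memLp_of_hasCompactSupport hcsg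
  · intro z hz
    have hopen : IsOpen UH := isOpen_lt continuous_const continuous_im
    have hev : (fun z : ℂ => φ z - φ (conj z)) =ᶠ[𝓝 z] φ := by
      filter_upwards [hopen.mem_nhds hz] with w hw
      have hw' : conj w ∉ tsupport φ := by
        intro h
        have := (hsub h).2
        have hw2 : 0 < w.im := hw
        rw [Complex.conj_im] at this
        linarith
      rw [image_eq_zero_of_notMem_tsupport hw', sub_zero]
    unfold gr
    rw [hev.fderiv_eq]

end Cal
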