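import Pool.Agent.Lib.MP_4ea4c7_an.Stm2

/-! Piece D2 (`S_open`): a nonconstant solution takes all directions near every point. -/

open MeasureTheory Complex Metric Set Filter Topology
open scoped ComplexConjugate ENNReal NNReal

namespace Cal

noncomputable section

/-- inversion of `G = g - m conj g` -/
private lemma open_inv {m : ℝ} (hm : |m| < 1) (g : ℂ) :
    g = ((g - (m : ℂ) * conj g) + (m : ℂ) * conj (g - (m : ℂ) * conj g)) / ((1 - m ^ 2 : ℝ) : ℂ) := by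
  have h1 : ((1 - m ^ 2 : ℝ) : ℂ) ≠ 0 := by
    rw [Complex.ofReal_ne_zero]
    have := (sq_lt_one_iff_abs_lt_one m).mpr hm
    linarith
  rw [eq_div_iff h1]
  simp only [map_sub, map_mul, Complex.conj_ofReal, Complex.conj_conj]
  push_cast
  ring

private lemma open_zero {m : ℝ} (hm : |m| < 1) {g : ℂ} (h : g - (m : ℂ) * conj g = 0) : g = 0 := by
  have := open_inv hm g
  rw [h] at this
  simpa using this

theorem piece_open (h1 : S_sim) (h2 : S_basic) (h3 : S_smooth) : S_open := by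
  intro κ hκ0 hκ1 μ hμ U f hU hUc hf hB hnc z1 hz1 ω hω ε hε
  have hμ1 : ∀ z, |μ z| < 1 := fun z => lt_of_le_of_lt (hμ.mu.bd z) hκ1
  set g : ℂ → ℂ := fun z => f z - f z1 with hg
  have hgc : ContinuousOn g U := hf.sub continuousOn_const
  have hgB : Bel μ U g := by
    obtain ⟨A, B, hW, hAB⟩ := hB
    have hc : ContDiffOn ℝ 1 (fun _ : ℂ => - f z1) U := contDiffOn_const
    have hWc := h3.1 U _ hU hc
    have hs := h2.1 _ _ _ _ _ _ _ hW hWc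
    refine ⟨A, B, ?_, hAB⟩
    have e1 : dz (fun _ : ℂ => - f z1) = fun _ => 0 := by funext z; simp [dz]
    have e2 : db (fun _ : ℂ => - f z1) = fun _ => 0 := by funext z; simp [db]
    rw [e1, e2] at hs
    simpa [hg, sub_eq_add_neg] using hs
  obtain ⟨σ, hσ, -, -, hΦ, -⟩ := h1 κ hκ0 hκ1 μ hμ U g hU hgc hgB
  set Φ : ℂ → ℂ := fun z => exp (-σ z) * (g z - (μ z : ℂ) * conj (g z)) with hΦd
  have hΦa : AnalyticOnNhd ℂ Φ U := hΦ.analyticOnNhd hU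
  have hg1 : g z1 = 0 := by simp [hg]
  have hΦ1 : Φ z1 = 0 := by simp [hΦd, hg1]
  have hnz : ¬ ∀ᶠ z in 𝓝 z1, Φ z = 0 := by
    intro h
    apply hnc
    have h4 := hΦa.eqOn_zero_of_preconnected_of_eventuallyEq_zero hUc hz1 h
    refine ⟨f z1, fun z hz => ?_⟩
    have h5 : Φ z = 0 := h4 hz
    have h6 : g z - (μ z : ℂ) * conj (g z) = 0 := by
      simpa [hΦd, Complex.exp_ne_zero] using h5
    have h7 := open_zero (hμ1 z) h6
    simpa [hg, sub_eq_zero] using h7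
  obtain ⟨n, Ψ, hΨa, hΨ1, hΨ⟩ :=
    (hΦa z1 hz1).exists_eventuallyEq_pow_smul_nonzero_iff.mpr hnz
  have hn : n ≠ 0 := by
    rintro rfl
    have h4 := hΨ.self_of_nhds
    rw [hΦ1] at h4
    simp only [pow_zero, one_smul] at h4
    exact hΨ1 h4.symm
  set a : ℂ := exp (σ z1) * Ψ z1 with ha
  have ha0 : a ≠ 0 := mul_ne_zero (Complex.exp_ne_zero _) hΨ1
  set m : ℝ := μ z1 with hm
  have hm2 : 0 < 1 - m ^ 2 := by
    have := (sq_lt_one_iff_abs_lt_one m).mpr (hμ1 z1)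
    linarith
  -- the preimage of the direction
  set w0 : ℂ := (ω - (m : ℂ) * conj ω) with hw0
  have hω0 : ω ≠ 0 := by
    intro h
    rw [h] at hω
    simp at hω
  have hw00 : w0 ≠ 0 := fun h => hω0 (open_zero (hμ1 z1) h)
  have hLw0 : (w0 + (m : ℂ) * conj w0) / ((1 - m ^ 2 : ℝ) : ℂ) = ω :=
    (open_inv (hμ1 z1) ω).symm
  obtain ⟨ζ, hζ⟩ := IsAlgClosed.exists_pow_nat_eq
    (((‖a‖ : ℝ) : ℂ) / a * (w0 / ((‖w0‖ : ℝ) : ℂ))) (Nat.pos_of_ne_zero hn)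
  have hζn : ‖ζ‖ = 1 := by
    have h4 : ‖ζ‖ ^ n = 1 := by
      rw [← norm_pow, hζ, norm_mul, norm_div, norm_div, Complex.norm_real, Complex.norm_real,
        norm_norm, norm_norm, div_self (norm_ne_zero_iff.mpr ha0),
        div_self (norm_ne_zero_iff.mpr hw00), one_mul]
    exact (pow_eq_one_iff_of_nonneg (norm_nonneg _) hn).mp h4
  have hζa : ζ ^ n * a = ((‖a‖ / ‖w0‖ : ℝ) : ℂ) * w0 := by
    rw [hζ]
    have : ((‖w0‖ : ℝ) : ℂ) ≠ 0 := by simpa using hw00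
    push_cast
    field_simp
  -- the curve
  set zt : ℝ → ℂ := fun t => z1 + (t : ℂ) * ζ with hzt
  have hztc : Continuous zt := by fun_prop
  have hzt0 : zt 0 = z1 := by simp [hzt]
  have hztT : Tendsto zt (𝓝[>] 0) (𝓝 z1) := by
    have h4 := hztc.tendsto 0
    rw [hzt0] at h4
    exact h4.mono_left nhdsWithin_le_nhds
  set E : ℝ → ℂ := fun t => ζ ^ n * (exp (σ (zt t)) * Ψ (zt t)) with hE
  have hET : Tendsto E (𝓝[>] 0) (𝓝 (ζ ^ n * a)) := by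
    refine tendsto_const_nhds.mul (Tendsto.mul ?_ ?_)
    · exact ((Complex.continuous_exp.comp hσ).tendsto z1).comp hztT
    · exact hΨa.continuousAt.tendsto.comp hztT
  have hμT : Tendsto (fun t => μ (zt t)) (𝓝[>] 0) (𝓝 m) :=
    (hμ.smooth.continuous.tendsto z1).comp hztT
  have hμTC : Tendsto (fun t => ((μ (zt t) : ℝ) : ℂ)) (𝓝[>] 0) (𝓝 (m : ℂ)) :=
    (Complex.continuous_ofReal.tendsto m).comp hμT
  have hgt : ∀ᶠ t : ℝ in 𝓝[>] 0, g (zt t) / ((t ^ n : ℝ) : ℂ)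
      = (E t + ((μ (zt t) : ℝ) : ℂ) * conj (E t)) / ((1 - μ (zt t) ^ 2 : ℝ) : ℂ) := by
    have h4 : ∀ᶠ t : ℝ in 𝓝[>] 0, Φ (zt t) = (zt t - z1) ^ n • Ψ (zt t) := hztT.eventually hΨ
    filter_upwards [h4, self_mem_nhdsWithin] with t ht ht0
    have ht0' : (0 : ℝ) < t := ht0
    have htn : ((t ^ n : ℝ) : ℂ) ≠ 0 := by
      rw [Complex.ofReal_ne_zero]; positivity
    have h5 : g (zt t) - ((μ (zt t) : ℝ) : ℂ) * conj (g (zt t)) = ((t ^ n : ℝ) : ℂ) * E t := by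
      have h6 : exp (σ (zt t)) * Φ (zt t) = g (zt t) - ((μ (zt t) : ℝ) : ℂ) * conj (g (zt t)) := by
        simp only [hΦd]
        rw [← mul_assoc, ← Complex.exp_add, add_neg_cancel, Complex.exp_zero, one_mul]
      rw [← h6, ht, hE]
      have h7 : zt t - z1 = (t : ℂ) * ζ := by simp [hzt]
      rw [h7, mul_pow, smul_eq_mul]
      push_cast
      ring
    have h8 := open_inv (hμ1 (zt t)) (g (zt t))
    rw [h5] at h8
    rw [h8, map_mul, Complex.conj_ofReal, div_div, div_eq_div_iff]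
    · ring
    · refine mul_ne_zero ?_ htn
      rw [Complex.ofReal_ne_zero]
      have := (sq_lt_one_iff_abs_lt_one (μ (zt t))).mpr (hμ1 _)
      linarith
    · rw [Complex.ofReal_ne_zero]
      have := (sq_lt_one_iff_abs_lt_one (μ (zt t))).mpr (hμ1 _)
      linarith
  set r : ℝ := ‖a‖ / ‖w0‖ with hr
  have hr0 : 0 < r := div_pos (norm_pos_iff.mpr ha0) (norm_pos_iff.mpr hw00)
  have hT : Tendsto (fun t : ℝ => g (zt t) / ((t ^ n : ℝ) : ℂ)) (𝓝[>] 0) (𝓝 ((r : ℂ) * ω)) := by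
    refine Tendsto.congr' (hgt.mono (fun t h => h.symm)) ?_
    have h4 : Tendsto (fun t => (E t + ((μ (zt t) : ℝ) : ℂ) * conj (E t))
        / ((1 - μ (zt t) ^ 2 : ℝ) : ℂ)) (𝓝[>] 0)
        (𝓝 ((ζ ^ n * a + (m : ℂ) * conj (ζ ^ n * a)) / ((1 - m ^ 2 : ℝ) : ℂ))) := by
      refine Tendsto.div (hET.add (hμTC.mul ((Complex.continuous_conj.tendsto _).comp hET))) ?_ ?_
      · exact (Complex.continuous_ofReal.tendsto _).comp (tendsto_const_nhds.sub (hμT.pow 2))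
      · rw [Complex.ofReal_ne_zero]; exact hm2.ne'
    have h5 : (ζ ^ n * a + (m : ℂ) * conj (ζ ^ n * a)) / ((1 - m ^ 2 : ℝ) : ℂ) = (r : ℂ) * ω := by
      rw [hζa, map_mul, Complex.conj_ofReal, ← hLw0]
      ring
    rwa [h5] at h4
  have hrω : (r : ℂ) * ω ≠ 0 := mul_ne_zero (by rw [Complex.ofReal_ne_zero]; exact hr0.ne') hω0
  have hT2 : Tendsto (fun t : ℝ => (g (zt t) / ((t ^ n : ℝ) : ℂ))
      / ((‖g (zt t) / ((t ^ n : ℝ) : ℂ)‖ : ℝ) : ℂ)) (𝓝[>] 0) (𝓝 ω) := by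
    have h4 := hT.div ((Complex.continuous_ofReal.tendsto _).comp hT.norm)
      (by rw [Complex.ofReal_ne_zero]; exact norm_ne_zero_iff.mpr hrω)
    have h5 : (r : ℂ) * ω / ((‖(r : ℂ) * ω‖ : ℝ) : ℂ) = ω := by
      rw [norm_mul, hω, mul_one, Complex.norm_real, Real.norm_of_nonneg hr0.le]
      rw [mul_div_assoc, mul_div_cancel₀]
      rw [Complex.ofReal_ne_zero]; exact hr0.ne'
    rw [h5] at h4
    exact h4
  have e1 : ∀ᶠ t : ℝ in 𝓝[>] 0, zt t ∈ U := hztT.eventually (hU.mem_nhds hz1)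
  have e2 : ∀ᶠ t : ℝ in 𝓝[>] 0, zt t ∈ ball z1 ε := hztT.eventually (ball_mem_nhds z1 hε)
  have e3 : ∀ᶠ t : ℝ in 𝓝[>] 0, g (zt t) / ((t ^ n : ℝ) : ℂ) ≠ 0 := hT.eventually_ne hrω
  have e4 : ∀ᶠ t : ℝ in 𝓝[>] 0, (g (zt t) / ((t ^ n : ℝ) : ℂ))
      / ((‖g (zt t) / ((t ^ n : ℝ) : ℂ)‖ : ℝ) : ℂ) ∈ ball ω ε := hT2.eventually (ball_mem_nhds ω hε)
  obtain ⟨t, ⟨⟨⟨ht1, ht2⟩, ht3⟩, ht4⟩, ht0⟩ :=
    ((((e1.and e2).and e3).and e4).and self_mem_nhdsWithin).exists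
  have ht0' : (0 : ℝ) < t := ht0
  have htn : (0 : ℝ) < t ^ n := by positivity
  have htnC : ((t ^ n : ℝ) : ℂ) ≠ 0 := by
    rw [Complex.ofReal_ne_zero]; exact htn.ne'
  have hgz : g (zt t) ≠ 0 := fun h => ht3 (by rw [h, zero_div])
  refine ⟨zt t, ht1, by simpa [dist_eq_norm] using ht2, ?_, ?_⟩
  · intro h
    exact hgz (by simp [hg, h])
  · have h5 : (g (zt t) / ((t ^ n : ℝ) : ℂ)) / ((‖g (zt t) / ((t ^ n : ℝ) : ℂ)‖ : ℝ) : ℂ)
        = g (zt t) / ((‖g (zt t)‖ : ℝ) : ℂ) := by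
      rw [norm_div, Complex.norm_real, Real.norm_of_nonneg htn.le]
      have : ((‖g (zt t)‖ : ℝ) : ℂ) ≠ 0 := by
        rw [Complex.ofReal_ne_zero]; exact norm_ne_zero_iff.mpr hgz
      push_cast at htnC ⊢
      field_simp
    rw [h5, mem_ball, dist_eq_norm] at ht4
    exact ht4

end

end Cal
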