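import Pool.Agent.Lib.MP_4ea4c7_an.StmC

/-! [HC6] Order at infinity. -/

open MeasureTheory Complex Metric Set Filter Topology
open scoped ComplexConjugate ENNReal NNReal

namespace Cal

private theorem ord_diff (h : ℂ → ℂ) (hd : DifferentiableOn ℂ h {z | 1 < ‖z‖})
    (hdec : Dec h) :
    DifferentiableOn ℂ (Function.update (fun w => h w⁻¹) 0 0) (ball 0 1) := by
  rw [← differentiableOn_compl_singleton_and_continuousAt_iff (ball_mem_nhds (0 : ℂ) one_pos)]
  constructor
  · have h1 : DifferentiableOn ℂ (fun w => h w⁻¹) (ball 0 1 \ {0}) := by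
      have hinv : DifferentiableOn ℂ (fun w : ℂ => w⁻¹) (ball 0 1 \ {0}) :=
        differentiableOn_inv.mono fun w hw => hw.2
      refine hd.comp hinv fun w hw => ?_
      have hw0 : w ≠ 0 := hw.2
      have hw1 : ‖w‖ < 1 := by
        have := hw.1
        rwa [mem_ball, dist_zero_right] at this
      rw [mem_ofPred_eq, norm_inv]
      exact (one_lt_inv₀ (norm_pos_iff.2 hw0)).2 hw1
    refine h1.congr fun w hw => ?_
    rw [Function.update_of_ne hw.2]
  · obtain ⟨C, hC⟩ := hdec
    rw [ContinuousAt, Function.update_self, tendsto_zero_iff_norm_tendsto_zero]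
    have h2 : Tendsto (fun w : ℂ => |C| * ‖w‖) (𝓝 0) (𝓝 0) := by
      have : Tendsto (fun w : ℂ => |C| * ‖w‖) (𝓝 0) (𝓝 (|C| * ‖(0 : ℂ)‖)) :=
        (continuous_const.mul continuous_norm).tendsto 0
      rwa [norm_zero, mul_zero] at this
    refine squeeze_zero' (Eventually.of_forall fun w => norm_nonneg _) ?_ h2
    filter_upwards [ball_mem_nhds (0 : ℂ) (show (0 : ℝ) < 1 / 2 by norm_num)] with w hw
    rw [mem_ball, dist_zero_right] at hw
    by_cases hw0 : w = 0
    · subst hw0
      rw [Function.update_self, norm_zero]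
      positivity
    · rw [Function.update_of_ne hw0]
      have hwp : 0 < ‖w‖ := norm_pos_iff.2 hw0
      have h3 : 2 ≤ ‖w⁻¹‖ := by
        rw [norm_inv, le_inv_comm₀ (by norm_num) hwp]
        linarith
      refine (hC _ h3).trans ?_
      rw [norm_inv, div_inv_eq_mul]
      exact mul_le_mul_of_nonneg_right (le_abs_self C) hwp.le

theorem piece_ord : S_ord := by
  intro h hd hdec
  set H : ℂ → ℂ := Function.update (fun w => h w⁻¹) 0 0 with hH
  have hHd : DifferentiableOn ℂ H (ball 0 1) := ord_diff h hd hdec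
  have hHan : AnalyticOnNhd ℂ H (ball 0 1) := hHd.analyticOnNhd isOpen_ball
  have h0 : (0 : ℂ) ∈ ball (0 : ℂ) 1 := mem_ball_self one_pos
  by_cases hz : ∀ᶠ w in 𝓝 (0 : ℂ), H w = 0
  · left
    have heq := hHan.eqOn_zero_of_preconnected_of_eventuallyEq_zero
      (convex_ball (0 : ℂ) 1).isPreconnected h0 hz
    intro z hz1
    have hz0 : z ≠ 0 := by
      intro h1
      rw [h1, norm_zero] at hz1
      linarith
    have h1 : z⁻¹ ∈ ball (0 : ℂ) 1 := by
      rw [mem_ball, dist_zero_right, norm_inv]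
      exact inv_lt_one_of_one_lt₀ hz1
    have h2 := heq h1
    rw [hH, Function.update_of_ne (inv_ne_zero hz0), inv_inv] at h2
    exact h2
  · right
    obtain ⟨n, g, hg, hg0, hge⟩ := (hHan 0 h0).exists_eventuallyEq_pow_smul_nonzero_iff.2 hz
    have hH0 : H 0 = 0 := by rw [hH, Function.update_self]
    have hn : 1 ≤ n := by
      by_contra hcon
      have hn0 : n = 0 := by omega
      have := hge.self_of_nhds
      rw [hH0, hn0, pow_zero, one_smul] at this
      exact hg0 this.symm
    refine ⟨n, g 0, hn, hg0, ?_⟩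
    rw [← Metric.cobounded_eq_cocompact]
    have hinv : Tendsto (fun z : ℂ => z⁻¹) (Bornology.cobounded ℂ) (𝓝 0) := tendsto_inv₀_cobounded
    have h1 : Tendsto (fun z : ℂ => g z⁻¹) (Bornology.cobounded ℂ) (𝓝 (g 0)) :=
      hg.continuousAt.tendsto.comp hinv
    refine h1.congr' ?_
    filter_upwards [hinv.eventually hge, Metric.cobounded_eq_cocompact (α := ℂ) ▸
      (isCompact_singleton (x := (0 : ℂ))).compl_mem_cocompact] with z hz2 hz3
    have hz0 : z ≠ 0 := hz3
    rw [sub_zero, hH, Function.update_of_ne (inv_ne_zero hz0), inv_inv, smul_eq_mul] at hz2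
    rw [hz2, inv_pow]
    field_simp

end Cal
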