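import Pool.Agent.Lib.MP_4ea4c7_an.Stm1
import Pool.Agent.Lib.MP_4ea4c7_an.StmC
import Pool.Agent.Lib.MP_4ea4c7_an.P_wedge

/-! [HC4] Complex form of the boundary pairing. -/

open MeasureTheory Complex Metric Set Filter Topology
open scoped ComplexConjugate ENNReal NNReal

namespace Cal

namespace PairDAux

theorem pd_open : IsOpen {z : ℂ | 1 < ‖z‖} := isOpen_lt continuous_const continuous_norm

theorem pd_subst (g : ℂ → ℂ) : ∫ z, g (conj z) = ∫ z, g z :=
  (conjLIE.measurePreserving).integral_comp conjLIE.toHomeomorph.measurableEmbedding g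

/-- product of a test function with a continuous function on `U` -/
theorem pd_cont {U : Set ℂ} (hU : IsOpen U) {φ g : ℂ → ℂ} (hφ : Continuous φ)
    (hs : tsupport φ ⊆ U) (hg : ContinuousOn g U) : Continuous (fun z => φ z * g z) := by
  rw [continuous_iff_continuousAt]
  intro z
  by_cases hz : z ∈ tsupport φ
  · exact hφ.continuousAt.mul (hg.continuousAt (hU.mem_nhds (hs hz)))
  · have : (fun z => φ z * g z) =ᶠ[𝓝 z] fun _ => 0 := by
      filter_upwards [(isClosed_tsupport φ).isOpen_compl.mem_nhds hz] with w hw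
      rw [image_eq_zero_of_notMem_tsupport hw, zero_mul]
    exact (continuousAt_const (y := (0 : ℂ))).congr this.symm

theorem pd_int {U : Set ℂ} (hU : IsOpen U) {φ g : ℂ → ℂ} (hφ : TF U φ)
    (hg : ContinuousOn g U) : Integrable (fun z => φ z * g z) volume := by
  refine (pd_cont hU hφ.1.continuous hφ.2.2 hg).integrable_of_hasCompactSupport ?_
  exact hφ.2.1.mul_right

theorem pd_fd_hol {f : ℂ → ℂ} {z : ℂ} (hf : DifferentiableAt ℂ f z) :
    HasFDerivAt f (deriv f z • (1 : ℂ →L[ℝ] ℂ)) z := hf.hasDerivAt.complexToReal_fderiv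

theorem pd_dz_conjmul {f h : ℂ → ℂ} {z : ℂ} (hf : DifferentiableAt ℂ f z)
    (hh : DifferentiableAt ℂ h z) :
    dz (fun w => conj (f w) * h w) z = conj (f z) * deriv h z ∧
    db (fun w => conj (f w) * h w) z = conj (deriv f z) * h z := by
  have h1 : HasFDerivAt (fun w => conj (f w))
      ((conjCLE : ℂ →L[ℝ] ℂ).comp (deriv f z • (1 : ℂ →L[ℝ] ℂ))) z :=
    (conjCLE : ℂ →L[ℝ] ℂ).hasFDerivAt.comp z (pd_fd_hol hf)
  have h2 := h1.mul (pd_fd_hol hh)
  have h3 : fderiv ℝ (fun w => conj (f w) * h w) z = _ := h2.fderiv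
  unfold dz db
  rw [h3]
  have hI : I * I = -1 := I_mul_I
  constructor
  · simp only [add_apply, smul_apply, ContinuousLinearMap.comp_apply, one_apply_eq_self, smul_eq_mul,
      ContinuousLinearEquiv.coe_coe, conjCLE_apply, map_mul, conj_I, mul_one]
    linear_combination (-(conj (f z) * deriv h z) / 2 + conj (deriv f z) * h z / 2) * hI
  · simp only [add_apply, smul_apply, ContinuousLinearMap.comp_apply, one_apply_eq_self, smul_eq_mul,
      ContinuousLinearEquiv.coe_coe, conjCLE_apply, map_mul, conj_I, mul_one]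
    linear_combination ((conj (f z) * deriv h z) / 2 - conj (deriv f z) * h z / 2) * hI

/-- a symmetric function has a symmetric derivative -/
theorem pd_deriv_symm {f : ℂ → ℂ} (hf : ∀ z, f (conj z) = conj (f z)) (z : ℂ) :
    deriv f (conj z) = conj (deriv f z) := by
  have h1 : conj ∘ f ∘ conj = f := by
    funext w
    simp only [Function.comp_apply]
    rw [hf w, Complex.conj_conj]
  have h2 := congrFun (deriv_conj_conj (f := f)) (conj z)
  rw [h1] at h2
  rw [h2]
  simp only [Function.comp_apply, Complex.conj_conj]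

/-- derivative of a real function regarded as a complex function -/
theorem pd_fd_real {χ : ℂ → ℝ} (hχ : Differentiable ℝ χ) (z v : ℂ) :
    fderiv ℝ (fun w => ((χ w : ℝ) : ℂ)) z v = ((fderiv ℝ χ z v : ℝ) : ℂ) := by
  have h1 : HasFDerivAt (fun w => ((χ w : ℝ) : ℂ)) (ofRealCLM.comp (fderiv ℝ χ z)) z :=
    ofRealCLM.hasFDerivAt.comp z (hχ z).hasFDerivAt
  rw [h1.fderiv]
  rfl

theorem pd_symm {χ : ℂ → ℝ} (hχ : Differentiable ℝ χ) (hs : ∀ z, χ (conj z) = χ z) (z v : ℂ) :
    fderiv ℝ χ (conj z) v = fderiv ℝ χ z (conj v) := by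
  have h1 : HasFDerivAt (fun w => χ (conj w)) ((fderiv ℝ χ (conj (conj z))).comp
      (conjCLE : ℂ →L[ℝ] ℂ)) (conj z) :=
    (hχ (conj (conj z))).hasFDerivAt.comp (conj z) (conjCLE : ℂ →L[ℝ] ℂ).hasFDerivAt
  have h2 : (fun w => χ (conj w)) = χ := by
    funext w
    exact hs w
  rw [h2] at h1
  rw [h1.fderiv, Complex.conj_conj]
  rfl

end PairDAux

open PairDAux WedgeAux in
theorem piece_pairD (h1 : S_half) (h2 : S_bridge) (h3 : S_smooth) : S_pairD := by
  intro f h χ δ hδ hf hh fs hs hχ χs χ1
  set U : Set ℂ := {z : ℂ | 1 < ‖z‖} with hU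
  have hUo : IsOpen U := pd_open
  have hχd : Differentiable ℝ χ := hχ.1.differentiable (by simp)
  set χc : ℂ → ℂ := fun w => ((χ w : ℝ) : ℂ) with hχc
  have hcd : ContDiff ℝ (⊤ : ℕ∞) χc := ofRealCLM.contDiff.comp hχ.1
  have hcs : HasCompactSupport χc := hχ.2.1.comp_left ofReal_zero
  set X : ℂ → ℂ := db χc with hX
  set Y : ℂ → ℂ := dz χc with hY
  have hXY : ∀ z, Y z = conj (X z) := by
    intro z
    have e1 : Y z = (fderiv ℝ χc z 1 - I * fderiv ℝ χc z I) / 2 := rfl
    have e2 : X z = (fderiv ℝ χc z 1 + I * fderiv ℝ χc z I) / 2 := rfl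
    rw [e1, e2, pd_fd_real hχd, pd_fd_real hχd]
    simp only [map_div₀, map_add, map_mul, conj_ofReal, conj_I, map_ofNat]
    ring
  have hXs : ∀ z, X (conj z) = conj (X z) := by
    intro z
    have e1 : X (conj z) = (fderiv ℝ χc (conj z) 1 + I * fderiv ℝ χc (conj z) I) / 2 := rfl
    have e2 : X z = (fderiv ℝ χc z 1 + I * fderiv ℝ χc z I) / 2 := rfl
    rw [e1, e2, pd_fd_real hχd, pd_fd_real hχd, pd_fd_real hχd, pd_fd_real hχd,
      pd_symm hχd χs, pd_symm hχd χs, map_one, conj_I, map_neg]
    simp only [map_div₀, map_add, map_mul, conj_ofReal, conj_I, map_ofNat, ofReal_neg]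
    ring
  have hX0 : ∀ z : ℂ, ‖z‖ < 1 + δ → X z = 0 := by
    intro z hz
    have hev : χc =ᶠ[𝓝 z] fun _ => 1 := by
      filter_upwards [(isOpen_lt continuous_norm continuous_const).mem_nhds
        (show z ∈ {w : ℂ | ‖w‖ < 1 + δ} from hz)] with w hw
      have hw' : ‖w‖ < 1 + δ := hw
      rw [hχc]
      simp only
      rw [χ1 w hw', ofReal_one]
    have e2 : X z = (fderiv ℝ χc z 1 + I * fderiv ℝ χc z I) / 2 := rfl
    rw [e2, hev.fderiv_eq]
    simp
  have hXt : tsupport X ⊆ U := by
    have h4 : tsupport X ⊆ {z : ℂ | 1 + δ ≤ ‖z‖} := by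
      refine closure_minimal (fun z hz => ?_) (isClosed_le continuous_const continuous_norm)
      by_contra hcon
      exact hz (hX0 z (not_le.1 hcon))
    refine h4.trans fun z (hz : 1 + δ ≤ ‖z‖) => ?_
    have : 1 < ‖z‖ := by linarith
    exact this
  have hYt : tsupport Y ⊆ U := by
    refine (closure_mono fun z hz => ?_).trans hXt
    rw [Function.mem_support] at hz ⊢
    intro h0
    apply hz
    rw [hXY, h0, map_zero]
  have tX : TF U X := ⟨(tf_db hcd hcs).1, (tf_db hcd hcs).2.1, hXt⟩
  have tY : TF U Y := ⟨(tf_dz hcd hcs).1, (tf_dz hcd hcs).2.1, hYt⟩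
  -- regularity of the functions on `U`
  have hfc : ContinuousOn f U := hf.continuousOn
  have hhc : ContinuousOn h U := hh.continuousOn
  have hfc' : ContinuousOn (deriv f) U := (hf.deriv hUo).continuousOn
  have hhc' : ContinuousOn (deriv h) U := (hh.deriv hUo).continuousOn
  have hfcc : ContinuousOn (fun z => conj (f z)) U := continuous_conj.comp_continuousOn hfc
  have hfcc' : ContinuousOn (fun z => conj (deriv f z)) U := continuous_conj.comp_continuousOn hfc'
  have i1 : Integrable (fun z => X z * (f z * deriv h z)) volume := pd_int hUo tX (hfc.mul hhc')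
  have i2 : Integrable (fun z => X z * (h z * deriv f z)) volume := pd_int hUo tX (hhc.mul hfc')
  have i3 : Integrable (fun z => X z * (conj (f z) * deriv h z)) volume :=
    pd_int hUo tX (hfcc.mul hhc')
  have i4 : Integrable (fun z => Y z * (h z * conj (deriv f z))) volume :=
    pd_int hUo tY (hhc.mul hfcc')
  -- first integration by parts
  have S1 : (∫ z, X z * (f z * deriv h z)) + ∫ z, X z * (h z * deriv f z) = 0 := by
    have hw := h3.2.1 U (fun z => f z * h z) hUo (hf.mul hh)
    have e1 := hw.hA X tX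
    have e2 := hw.hB Y tY
    have e3 : ∫ z, (f z * h z) * dz X z = ∫ z, (f z * h z) * db Y z := by
      refine integral_congr_ae (Eventually.of_forall fun z => ?_)
      simp only
      rw [mixed hcd z]
    rw [e3, e2] at e1
    simp only [zero_mul, integral_zero, neg_zero] at e1
    rw [← integral_add i1 i2]
    have e4 : ∫ z, (X z * (f z * deriv h z) + X z * (h z * deriv f z)) =
        ∫ z, deriv (fun z => f z * h z) z * X z := by
      refine integral_congr_ae (Eventually.of_forall fun z => ?_)
      simp only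
      by_cases hz : z ∈ U
      · have d1 : DifferentiableAt ℂ f z := hf.differentiableAt (hUo.mem_nhds hz)
        have d2 : DifferentiableAt ℂ h z := hh.differentiableAt (hUo.mem_nhds hz)
        have e5 : deriv (fun z => f z * h z) z = deriv f z * h z + f z * deriv h z :=
          (d1.hasDerivAt.mul d2.hasDerivAt).deriv
        rw [e5]
        ring
      · have : X z = 0 := image_eq_zero_of_notMem_tsupport fun hc => hz (hXt hc)
        rw [this]
        ring
    rw [e4]
    exact (neg_eq_zero.1 e1.symm)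
  -- second integration by parts
  have S2 : ∫ z, X z * (conj (f z) * deriv h z) = ∫ z, Y z * (h z * conj (deriv f z)) := by
    have hcf : ContDiffOn ℝ 1 (fun z => conj (f z) * h z) U := by
      have c1 : ContDiffOn ℝ 1 f U := (hf.contDiffOn (n := 1) hUo).restrict_scalars ℝ
      have c2 : ContDiffOn ℝ 1 h U := (hh.contDiffOn (n := 1) hUo).restrict_scalars ℝ
      have c3 : ContDiffOn ℝ 1 (fun z => conj (f z)) U :=
        (conjCLE : ℂ →L[ℝ] ℂ).contDiff.comp_contDiffOn c1
      exact c3.mul c2
    have hw := h3.1 U (fun z => conj (f z) * h z) hUo hcf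
    have e1 := hw.hA X tX
    have e2 := hw.hB Y tY
    have e3 : ∫ z, (conj (f z) * h z) * dz X z = ∫ z, (conj (f z) * h z) * db Y z := by
      refine integral_congr_ae (Eventually.of_forall fun z => ?_)
      simp only
      rw [mixed hcd z]
    rw [e3, e2, neg_inj] at e1
    have e4 : ∫ z, X z * (conj (f z) * deriv h z) =
        ∫ z, dz (fun z => conj (f z) * h z) z * X z := by
      refine integral_congr_ae (Eventually.of_forall fun z => ?_)
      simp only
      by_cases hz : z ∈ U
      · rw [(pd_dz_conjmul (hf.differentiableAt (hUo.mem_nhds hz))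
          (hh.differentiableAt (hUo.mem_nhds hz))).1]
        ring
      · have : X z = 0 := image_eq_zero_of_notMem_tsupport fun hc => hz (hXt hc)
        rw [this]
        ring
    have e5 : ∫ z, Y z * (h z * conj (deriv f z)) =
        ∫ z, db (fun z => conj (f z) * h z) z * Y z := by
      refine integral_congr_ae (Eventually.of_forall fun z => ?_)
      simp only
      by_cases hz : z ∈ U
      · rw [(pd_dz_conjmul (hf.differentiableAt (hUo.mem_nhds hz))
          (hh.differentiableAt (hUo.mem_nhds hz))).2]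
        ring
      · have : Y z = 0 := image_eq_zero_of_notMem_tsupport fun hc => hz (hYt hc)
        rw [this]
        ring
    rw [e4, e5]
    exact e1.symm
  -- the integrand
  have hgr : ∀ z, gr χ z = 2 * X z := fun z => h2.2.2.2 χ z (hχd z)
  set Q : ℂ → ℂ := fun z => X z * (f z * deriv h z) - X z * (h z * deriv f z) +
    (X z * (conj (f z) * deriv h z) - Y z * (h z * conj (deriv f z))) with hQ
  have hQi : Integrable Q volume := (i1.sub i2).add (i3.sub i4)
  have hF : ∀ z, (f z).re * cr (gr χ z) (I * conj (deriv h z)) -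
      (h z).re * cr (gr χ z) (I * conj (deriv f z)) = (Q z).re := by
    intro z
    rw [hgr, hQ]
    simp only
    rw [hXY]
    unfold cr
    simp only [map_mul, map_ofNat, mul_re, mul_im, sub_re, add_re, conj_re, conj_im, I_re, I_im,
      re_ofNat, im_ofNat]
    ring
  have hQs : ∀ z, Q (conj z) = conj (Q z) := by
    intro z
    have d1 := pd_deriv_symm fs z
    have d2 := pd_deriv_symm hs z
    rw [hQ]
    simp only
    rw [hXY, hXY, hXs, d1, d2, fs, hs]
    simp only [map_add, map_sub, map_mul]
  have hQ2 : ∫ z, Q z = 2 * ∫ z, X z * (f z * deriv h z) := by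
    rw [hQ]
    have j1 : Integrable (fun z => X z * (f z * deriv h z) - X z * (h z * deriv f z)) volume :=
      i1.sub i2
    have j2 : Integrable (fun z => X z * (conj (f z) * deriv h z) -
        Y z * (h z * conj (deriv f z))) volume := i3.sub i4
    rw [integral_add j1 j2, integral_sub i1 i2, integral_sub i3 i4, S2]
    linear_combination -S1
  have hF2 : ∫ z in UH, ((f z).re * cr (gr χ z) (I * conj (deriv h z)) -
      (h z).re * cr (gr χ z) (I * conj (deriv f z))) = (∫ z, X z * (f z * deriv h z)).re := by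
    simp only [hF]
    have e1 := h1.1 (fun z => (Q z).re) hQi.re (Eventually.of_forall fun z => by
      rw [hQs, conj_re])
    rw [e1]
    have e2 : ∫ z, (Q z).re = (∫ z, Q z).re := integral_re hQi
    rw [e2, hQ2]
    simp
  rw [hF2]
  -- the integral is real
  have hreal : conj (∫ z, X z * (f z * deriv h z)) = ∫ z, X z * (f z * deriv h z) := by
    rw [← integral_conj, ← pd_subst]
    refine integral_congr_ae (Eventually.of_forall fun z => ?_)
    simp only
    rw [hXs, fs, pd_deriv_symm hs]
    simp only [map_mul, Complex.conj_conj]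
  exact conj_eq_iff_re.1 hreal

end Cal
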