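import Pool.Agent.Lib.MP_4ea4c7_an.Stm1
import Pool.Agent.Lib.MP_4ea4c7_an.StmC

/-! # [CA HC2] the pairing of `f` with `F = i φ + k` -/

open MeasureTheory Complex Metric Set Filter Topology
open scoped ComplexConjugate ENNReal NNReal

namespace Cal

noncomputable section

private lemma cr_eq (a b : ℂ) : cr a b = a.re * b.im - a.im * b.re := by
  unfold cr
  rw [Complex.mul_im, Complex.conj_re, Complex.conj_im]
  ring

private lemma UH_meas : MeasurableSet UH :=
  (isOpen_lt continuous_const Complex.continuous_im).measurableSet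

/-- Wirtinger derivatives of a real function -/
private lemma dzr (φ : ℂ → ℝ) (z : ℂ) (h : DifferentiableAt ℝ φ z) :
    dz (fun w => ((φ w : ℝ) : ℂ)) z = conj (gr φ z) / 2 ∧
      db (fun w => ((φ w : ℝ) : ℂ)) z = gr φ z / 2 := by
  have h1 : fderiv ℝ (fun w => ((φ w : ℝ) : ℂ)) z = Complex.ofRealCLM.comp (fderiv ℝ φ z) :=
    (Complex.ofRealCLM.hasFDerivAt.comp z h.hasFDerivAt).fderiv
  unfold dz db gr
  rw [h1]
  constructor
  · simp only [ContinuousLinearMap.comp_apply, Complex.ofRealCLM_apply, map_add, map_mul,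
      Complex.conj_ofReal, Complex.conj_I]
    ring
  · simp only [ContinuousLinearMap.comp_apply, Complex.ofRealCLM_apply]

/-- weak gradient of `χ Re f` -/
private lemma grad_mul (h5 : S_bridge) (h6 : S_smooth) (f A B : ℂ → ℂ) (hf : WD univ f A B)
    (χ : ℂ → ℝ) (hχ : RTF univ χ) :
    WG univ (fun z => χ z * (f z).re) (fun z => χ z * (conj (A z) + B z) + (f z).re * gr χ z) := by
  have hsm : ContDiffOn ℝ (⊤ : ℕ∞) (fun w => ((χ w : ℝ) : ℂ)) univ :=
    (Complex.ofRealCLM.contDiff.comp hχ.1).contDiffOn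
  have h1 := (h5.1 univ _ _ _ (h6.2.2 univ f A B _ isOpen_univ hf hsm)).1
  have e1 : (fun z => (f z * ((χ z : ℝ) : ℂ)).re) = fun z => χ z * (f z).re := by
    ext z
    rw [Complex.mul_re, Complex.ofReal_re, Complex.ofReal_im]
    ring
  have e2 : (fun z => conj (A z * ((χ z : ℝ) : ℂ) + f z * dz (fun w => ((χ w : ℝ) : ℂ)) z) +
      (B z * ((χ z : ℝ) : ℂ) + f z * db (fun w => ((χ w : ℝ) : ℂ)) z)) =
      fun z => χ z * (conj (A z) + B z) + (f z).re * gr χ z := by
    ext z
    have hd : DifferentiableAt ℝ χ z := (hχ.1.differentiable (by simp)) z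
    rw [(dzr χ z hd).1, (dzr χ z hd).2]
    have h3 : f z + conj (f z) = ((2 * (f z).re : ℝ) : ℂ) := Complex.add_conj (f z)
    have h4 : conj (f z) = ((2 * (f z).re : ℝ) : ℂ) - f z := by rw [← h3]; ring
    rw [map_add, map_mul, map_mul, map_div₀, Complex.conj_ofReal, Complex.conj_conj, h4,
      map_ofNat]
    push_cast
    ring
  rw [e1, e2] at h1
  exact h1

/-- integral over the upper half plane of the cross product of an even and an odd gradient -/
private lemma half_zero (h2 : S_half) (h3 : S_gsym) (h4 : S_wedge) (a b : ℂ → ℝ) (G H : ℂ → ℂ)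
    (ha : WG univ a G) (hac : HasCompactSupport a) (hb : WG univ b H)
    (ea : ∀ z, a (conj z) = a z) (ob : ∀ z, b (conj z) = - b z) :
    Integrable (fun z => cr (G z) (H z)) volume ∧ ∫ z in UH, cr (G z) (H z) = 0 := by
  obtain ⟨w1, w2, -⟩ := h4 univ a b G H isOpen_univ ha hac (subset_univ _) hb
  refine ⟨w1, ?_⟩
  have s1 := h3 a G 1 ha (fun z => by rw [ea, one_mul]) (Or.inl rfl)
  have s2 := h3 b H (-1) hb (fun z => by rw [ob]; ring) (Or.inr rfl)
  rw [h2.1 _ w1, w2]
  · simp
  · filter_upwards [s1, s2] with z t1 t2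
    rw [t1, t2, cr_eq, cr_eq]
    push_cast
    simp only [one_mul, mul_re, mul_im, neg_re, neg_im, one_re, one_im, conj_re, conj_im]
    ring

theorem piece_pairI (h1 : S_ksup) (h2 : S_half) (h3 : S_gsym) (h4 : S_wedge) (h5 : S_bridge)
    (h6 : S_smooth) : S_pairI := by
  intro κ hκ0 hκ1 μ hμ N f Af Bf hPN hf hBf φ k A B hφ hk χ hχ hχe hχ1
  have hχc := hχ.2.1
  have hφg : WG univ φ (gr φ) := h5.2.2.1 univ φ isOpen_univ
    (hφ.tf.1.contDiffOn.of_le (by exact_mod_cast le_top))
  -- gradients
  have hfw := h5.1 univ f Af Bf hf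
  have hkw := h5.1 univ k A B hk.wd
  have gf := grad_mul h5 h6 f Af Bf hf χ hχ
  have gk := grad_mul h5 h6 k A B hk.wd χ hχ
  have hcs : ∀ g : ℂ → ℂ, HasCompactSupport (fun z => χ z * (g z).re) := by
    intro g
    apply HasCompactSupport.intro hχc
    intro z hz
    rw [image_eq_zero_of_notMem_tsupport hz, zero_mul]
  have even : ∀ g : ℂ → ℂ, (∀ z, g (conj z) = conj (g z)) →
      ∀ z, χ (conj z) * (g (conj z)).re = χ z * (g z).re := by
    intro g hg z
    rw [hχe, hg, Complex.conj_re]
  have odd : ∀ g : ℂ → ℂ, (∀ z, g (conj z) = conj (g z)) →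
      ∀ z, (g (conj z)).im = - (g z).im := by
    intro g hg z
    rw [hg, Complex.conj_im]
  obtain ⟨i1, z1⟩ := half_zero h2 h3 h4 _ _ _ _ gf (hcs f) hkw.2 (even f hPN.symm) (odd k hk.symm)
  obtain ⟨i2, z2⟩ := half_zero h2 h3 h4 _ _ _ _ gk (hcs k) hfw.2 (even k hk.symm) (odd f hPN.symm)
  have i3 := (h4 univ _ _ _ _ isOpen_univ gf (hcs f) (subset_univ _) hφg).1
  -- the third term
  have e3 : ∀ z, cr (χ z * (conj (Af z) + Bf z) + (f z).re * gr χ z) (gr φ z) =
      cr (conj (Af z) + Bf z) (gr φ z) := by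
    intro z
    by_cases hz : z ∈ tsupport φ
    · have hz1 : z ∈ ball (0 : ℂ) 1 := hφ.tf.2.2 hz
      have hz2 : ‖z‖ < 1 := by simpa using hz1
      have hgr : gr χ z = 0 := by
        have hev : χ =ᶠ[𝓝 z] fun _ => (1 : ℝ) := by
          filter_upwards [isOpen_ball.mem_nhds hz1] with w hw
          exact hχ1 w (by simpa using hw)
        unfold gr
        rw [hev.fderiv_eq]
        simp
      rw [hgr, hχ1 z hz2]
      simp
    · have hgr : gr φ z = 0 := by
        have : fderiv ℝ φ z = 0 := by
          have h := tsupport_fderiv_subset ℝ (f := φ)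
          exact image_eq_zero_of_notMem_tsupport (fun h2 => hz (h h2))
        unfold gr
        rw [this]
        simp
      rw [hgr, cr_eq, cr_eq]
      simp
  -- equations in the upper half plane
  obtain ⟨-, hsup⟩ := h1 μ φ k A B hφ hk
  have hpt : ∀ᵐ z ∂(volume.restrict UH),
      (f z).re * cr (gr χ z) (I * (conj (A z) - B z) + gr φ z) -
        (k z).re * cr (gr χ z) (I * (conj (Af z) - Bf z)) =
      cr (χ z * (conj (Af z) + Bf z) + (f z).re * gr χ z) (I * (conj (A z) - B z)) +
        cr (χ z * (conj (Af z) + Bf z) + (f z).re * gr χ z) (gr φ z) -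
        cr (χ z * (conj (A z) + B z) + (k z).re * gr χ z) (I * (conj (Af z) - Bf z)) := by
    filter_upwards [hsup, ae_restrict_of_ae hBf] with z t1 t2
    have hd : DifferentiableAt ℝ φ z := (hφ.tf.1.differentiable (by simp)) z
    rw [(dzr φ z hd).1, (dzr φ z hd).2] at t1
    -- the key identity: cr ∇v ∇U = cr ∇V ∇u
    have key : cr (conj (Af z) + Bf z) (I * (conj (A z) - B z) + gr φ z) =
        cr (conj (A z) + B z) (I * (conj (Af z) - Bf z)) := by
      have hB : B z = (μ z : ℂ) * conj (A z + I * (conj (gr φ z) / 2)) - I * (gr φ z / 2) := by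
        rw [← t1]; ring
      have hconj : conj (A z + I * (conj (gr φ z) / 2)) = conj (A z) - I * (gr φ z / 2) := by
        rw [map_add, map_mul, map_div₀, Complex.conj_I, Complex.conj_conj, map_ofNat]
        ring
      rw [hconj] at hB
      generalize hP : gr φ z = P at *
      set c : ℂ := conj (A z) - I * (P / 2) with hc
      have e1 : I * (conj (A z) - B z) + P = I * ((1 - (μ z : ℂ)) * c) := by
        have : conj (A z) = c + I * (P / 2) := by rw [hc]; ring
        rw [this, hB]
        have hI : I * I = -1 := Complex.I_mul_I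
        linear_combination P * hI
      have e2 : conj (A z) + B z = (1 + (μ z : ℂ)) * c := by
        have : conj (A z) = c + I * (P / 2) := by rw [hc]; ring
        rw [this, hB]
        ring
      have e4 : conj (Af z) + Bf z = (1 + (μ z : ℂ)) * conj (Af z) := by rw [t2]; ring
      have e5 : I * (conj (Af z) - Bf z) = I * ((1 - (μ z : ℂ)) * conj (Af z)) := by rw [t2]; ring
      rw [e1, e2, e4, e5, cr_eq, cr_eq]
      simp only [mul_re, mul_im, add_re, add_im, sub_re, sub_im, one_re, one_im, I_re, I_im,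
        ofReal_re, ofReal_im]
      ring
    rw [cr_eq] at key
    rw [cr_eq (conj (A z) + B z)] at key
    simp only [cr_eq]
    simp only [mul_re, mul_im, add_re, add_im, sub_re, sub_im, I_re, I_im, ofReal_re,
      ofReal_im] at key ⊢
    linear_combination (- χ z) * key
  have hint : Integrable (fun z =>
      cr (χ z * (conj (Af z) + Bf z) + (f z).re * gr χ z) (I * (conj (A z) - B z)) +
        cr (χ z * (conj (Af z) + Bf z) + (f z).re * gr χ z) (gr φ z) -
        cr (χ z * (conj (A z) + B z) + (k z).re * gr χ z) (I * (conj (Af z) - Bf z)))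
      (volume.restrict UH) := ((i1.add i3).sub i2).integrableOn
  refine ⟨hint.congr (by filter_upwards [hpt] with z hz; exact hz.symm), ?_⟩
  rw [integral_congr_ae hpt]
  have s1 := integral_sub (μ := volume.restrict UH) (i1.add i3).integrableOn i2.integrableOn
  have s2 := integral_add (μ := volume.restrict UH) i1.integrableOn i3.integrableOn
  simp only [Pi.add_apply] at s1
  rw [s1, s2, z1, z2]
  simp only [e3]
  ring

end

end Cal
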