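import Pool.Agent.Lib.MP_4ea4c7_an.Stm1
import Pool.Agent.Lib.MP_4ea4c7_an.StmC

/-! # [CA HC3] the right hand side depends only on the values on the axis -/

open MeasureTheory Complex Metric Set Filter Topology
open scoped ComplexConjugate ENNReal NNReal

namespace Cal

noncomputable section

private lemma cr_eq (a b : ℂ) : cr a b = a.re * b.im - a.im * b.re := by
  unfold cr
  rw [Complex.mul_im, Complex.conj_re, Complex.conj_im]
  ring

private lemma UH_meas : MeasurableSet UH := (isOpen_lt continuous_const Complex.continuous_im).measurableSet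

theorem piece_pairV (h1 : S_zext) (h2 : S_wedge) (h3 : S_bridge) (h4 : S_basic) : S_pairV := by
  intro f A B g A' B' φ hf hg cf cg hfg hφ
  obtain ⟨b1, b2, -⟩ := h4
  obtain ⟨r1, r2, r3, r4⟩ := h3
  have hφg : WG univ φ (gr φ) := r3 univ φ isOpen_univ
    (hφ.tf.1.contDiffOn.of_le (by exact_mod_cast le_top))
  have hφc := hφ.tf.2.1
  have wf := (r1 univ f A B hf).1
  have wg := (r1 univ g A' B' hg).1
  have i1 := (h2 univ φ _ (gr φ) _ isOpen_univ hφg hφc (subset_univ _) wf).1
  have i2 := (h2 univ φ _ (gr φ) _ isOpen_univ hφg hφc (subset_univ _) wg).1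
  have hd := b1 univ f A B _ _ _ hf (b2 univ g A' B' (-1) hg)
  have wd := (r1 univ _ _ _ hd).1
  have hz := h1 _ _ wd
    (Complex.continuous_re.comp (cf.add (continuous_const.mul cg)))
    (fun x => by rw [hfg x]; simp)
  have hw := (h2 univ φ _ (gr φ) _ isOpen_univ hφg hφc (subset_univ _) hz).2.1
  have key : ∫ z in UH, (cr (gr φ z) (conj (A z) + B z) - cr (gr φ z) (conj (A' z) + B' z)) = 0 := by
    rw [← hw, ← integral_indicator UH_meas]
    apply integral_congr_ae
    filter_upwards with z
    by_cases hz : z ∈ UH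
    · rw [indicator_of_mem hz]
      have hz' : 0 < z.im := hz
      simp only [hz', if_true]
      rw [cr_eq, cr_eq, cr_eq]
      simp only [map_add, map_mul, map_neg, map_one, add_re, add_im, mul_re, mul_im, neg_re, neg_im,
        one_re, one_im]
      ring
    · rw [indicator_of_notMem hz]
      have hz' : ¬ 0 < z.im := hz
      simp only [hz', if_false]
      rw [cr_eq]
      simp
  rw [integral_sub i1.integrableOn i2.integrableOn, sub_eq_zero] at key
  have e : ∀ (C : ℂ → ℂ), ∫ z in UH, cr (C z) (gr φ z) = - ∫ z in UH, cr (gr φ z) (C z) := by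
    intro C
    rw [← integral_neg]
    apply integral_congr_ae
    filter_upwards with z
    rw [cr_eq, cr_eq]
    ring
  rw [e, e, key]

end

end Cal
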