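import Pool.Agent.Lib.MP_4ea4c7_an.StmB

/-!
# MP_4ea4c7_an, step A: the generalised Pascal triangle (abstract part), proof of `S_pascal`
-/

open Finset

namespace Cal

namespace PT

/-- Total weight of the lattice paths from `(0,0)` to `(m,n)`. -/
noncomputable def Zp (lam : ℕ → ℕ → ℝ) : ℕ → ℕ → ℝ
  | 0, 0 => 1
  | m + 1, 0 => Zp lam m 0 / lam m 0
  | 0, n + 1 => Zp lam 0 n / lam 0 n
  | m + 1, n + 1 => Zp lam m (n + 1) / lam m (n + 1) + Zp lam (m + 1) n / lam (m + 1) n

variable {lam : ℕ → ℕ → ℝ}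

theorem Zp_pos (hl : ∀ m n, 0 < lam m n) : ∀ m n, 0 < Zp lam m n
  | 0, 0 => by simp [Zp]
  | m + 1, 0 => by simp only [Zp]; exact div_pos (Zp_pos hl m 0) (hl _ _)
  | 0, n + 1 => by simp only [Zp]; exact div_pos (Zp_pos hl 0 n) (hl _ _)
  | m + 1, n + 1 => by
      simp only [Zp]
      exact add_pos (div_pos (Zp_pos hl m (n + 1)) (hl _ _)) (div_pos (Zp_pos hl (m + 1) n) (hl _ _))

/-- Left contribution to `Zp m n`. -/
noncomputable def ZL (lam : ℕ → ℕ → ℝ) : ℕ → ℕ → ℝ
  | 0, _ => 0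
  | m + 1, n => Zp lam m n / lam m n

/-- Lower contribution to `Zp m n`. -/
noncomputable def ZR (lam : ℕ → ℕ → ℝ) : ℕ → ℕ → ℝ
  | _, 0 => 0
  | m, n + 1 => Zp lam m n / lam m n

theorem Zp_eq (m n : ℕ) (h : 0 < m + n) : Zp lam m n = ZL lam m n + ZR lam m n := by
  rcases m with _ | m <;> rcases n with _ | n
  · simp at h
  · simp [Zp, ZL, ZR]
  · simp [Zp, ZL, ZR]
  · simp [Zp, ZL, ZR]

theorem ZL_nonneg (hl : ∀ m n, 0 < lam m n) (m n : ℕ) : 0 ≤ ZL lam m n := by
  rcases m with _ | m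
  · simp [ZL]
  · simp only [ZL]; exact (div_pos (Zp_pos hl m n) (hl _ _)).le

theorem ZR_nonneg (hl : ∀ m n, 0 < lam m n) (m n : ℕ) : 0 ≤ ZR lam m n := by
  rcases n with _ | n
  · simp [ZR]
  · simp only [ZR]; exact (div_pos (Zp_pos hl m n) (hl _ _)).le

/-- The function on level `N + 1` obtained from `G` on level `N` by the backward kernel. -/
noncomputable def QG (lam : ℕ → ℕ → ℝ) (N : ℕ) (G : ℕ → ℝ) (m : ℕ) : ℝ :=
  (ZL lam m (N + 1 - m) * G (m - 1) + ZR lam m (N + 1 - m) * G m) / Zp lam m (N + 1 - m)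

/-- Expectation of `G` on level `N`. -/
noncomputable def Ex (lam : ℕ → ℕ → ℝ) (f : ℕ → ℕ → ℝ) (N : ℕ) (G : ℕ → ℝ) : ℝ :=
  ∑ m ∈ range (N + 1), Zp lam m (N - m) * f m (N - m) * G m

theorem Ex_QG (hl : ∀ m n, 0 < lam m n) (f : ℕ → ℕ → ℝ)
    (hf : ∀ m n, f (m + 1) n + f m (n + 1) = lam m n * f m n) (N : ℕ) (G : ℕ → ℝ) :
    Ex lam f (N + 1) (QG lam N G) = Ex lam f N G := by
  have h1 : ∀ m ∈ range (N + 2), Zp lam m (N + 1 - m) * f m (N + 1 - m) * QG lam N G m
      = ZL lam m (N + 1 - m) * f m (N + 1 - m) * G (m - 1)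
        + ZR lam m (N + 1 - m) * f m (N + 1 - m) * G m := by
    intro m _
    have := (Zp_pos hl m (N + 1 - m)).ne'
    unfold QG
    field_simp
  have h2 : ∑ m ∈ range (N + 2), ZL lam m (N + 1 - m) * f m (N + 1 - m) * G (m - 1)
      = ∑ m ∈ range (N + 1), Zp lam m (N - m) / lam m (N - m) * f (m + 1) (N - m) * G m := by
    rw [sum_range_succ']
    simp [ZL]
  have h3 : ∑ m ∈ range (N + 2), ZR lam m (N + 1 - m) * f m (N + 1 - m) * G m
      = ∑ m ∈ range (N + 1), Zp lam m (N - m) / lam m (N - m) * f m (N - m + 1) * G m := by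
    rw [sum_range_succ]
    have : ZR lam (N + 1) (N + 1 - (N + 1)) = 0 := by simp [ZR]
    rw [this]
    simp only [zero_mul, add_zero]
    refine sum_congr rfl fun m hm => ?_
    have hm' : N + 1 - m = (N - m) + 1 := by
      have := mem_range.1 hm; omega
    rw [hm']
    simp [ZR]
  unfold Ex
  rw [sum_congr rfl h1, sum_add_distrib, h2, h3, ← sum_add_distrib]
  refine sum_congr rfl fun m _ => ?_
  have hl' := (hl m (N - m)).ne'
  have := hf m (N - m)
  field_simp
  linear_combination Zp lam m (N - m) * G m * this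

theorem QG_one (hl : ∀ m n, 0 < lam m n) (N : ℕ) (m : ℕ) (hm : m ≤ N + 1) :
    QG lam N (fun _ => 1) m = 1 := by
  have hp := Zp_pos hl m (N + 1 - m)
  have he := Zp_eq (lam := lam) m (N + 1 - m) (by omega)
  unfold QG
  rw [div_eq_one_iff_eq hp.ne', he]; ring

theorem Ex_one (hl : ∀ m n, 0 < lam m n) (f : ℕ → ℕ → ℝ) (h0 : f 0 0 = 1)
    (hf : ∀ m n, f (m + 1) n + f m (n + 1) = lam m n * f m n) (N : ℕ) :
    Ex lam f N (fun _ => 1) = 1 := by
  induction N with
  | zero => simp [Ex, Zp, h0]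
  | succ N ih =>
    have h1 : Ex lam f (N + 1) (fun _ => 1) = Ex lam f (N + 1) (QG lam N (fun _ => 1)) := by
      unfold Ex
      refine sum_congr rfl fun m hm => ?_
      rw [QG_one hl N m (by have := mem_range.1 hm; omega)]
    rw [h1, Ex_QG hl f hf N, ih]

/-- Iterated lift from level `M` to level `M + k`. -/
noncomputable def QI (lam : ℕ → ℕ → ℝ) (M : ℕ) (G : ℕ → ℝ) : ℕ → ℕ → ℝ
  | 0 => G
  | k + 1 => QG lam (M + k) (QI lam M G k)

theorem Ex_QI (hl : ∀ m n, 0 < lam m n) (f : ℕ → ℕ → ℝ)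
    (hf : ∀ m n, f (m + 1) n + f m (n + 1) = lam m n * f m n) (M : ℕ) (G : ℕ → ℝ) (k : ℕ) :
    Ex lam f (M + k) (QI lam M G k) = Ex lam f M G := by
  induction k with
  | zero => rfl
  | succ k ih => rw [← ih]; exact Ex_QG hl f hf (M + k) (QI lam M G k)

/-- `QG` is between the two values of `G`. -/
theorem QG_between (hl : ∀ m n, 0 < lam m n) (N : ℕ) (G : ℕ → ℝ) (m : ℕ) (hm : m ≤ N + 1)
    (hG : G (m - 1) ≤ G m) :
    (m ≤ N → QG lam N G m ≤ G m) ∧ (1 ≤ m → G (m - 1) ≤ QG lam N G m)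
      ∧ (m = 0 → QG lam N G m = G 0) ∧ (m = N + 1 → QG lam N G m = G N) := by
  have hp := Zp_pos hl m (N + 1 - m)
  have he := Zp_eq (lam := lam) m (N + 1 - m) (by omega)
  have hL := ZL_nonneg hl m (N + 1 - m)
  have hR := ZR_nonneg hl m (N + 1 - m)
  refine ⟨fun _ => ?_, fun _ => ?_, fun h => ?_, fun h => ?_⟩
  · unfold QG
    rw [div_le_iff₀ hp, he]
    nlinarith
  · unfold QG
    rw [le_div_iff₀ hp, he]
    nlinarith
  · subst h
    unfold QG
    have : ZL lam 0 (N + 1 - 0) = 0 := by simp [ZL]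
    rw [this] at he ⊢
    rw [div_eq_iff hp.ne', he]; ring
  · subst h
    unfold QG
    have : ZR lam (N + 1) (N + 1 - (N + 1)) = 0 := by simp [ZR]
    rw [this] at he ⊢
    rw [div_eq_iff hp.ne', he]; simp; ring

/-- `G` is nondecreasing on `{0,…,N}`. -/
def MonoL (N : ℕ) (G : ℕ → ℝ) : Prop := ∀ i j, i ≤ j → j ≤ N → G i ≤ G j

theorem QG_mono (hl : ∀ m n, 0 < lam m n) (N : ℕ) (G : ℕ → ℝ) (hG : MonoL N G) :
    MonoL (N + 1) (QG lam N G) ∧ G 0 ≤ QG lam N G 0 ∧ QG lam N G (N + 1) ≤ G N := by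
  -- auxiliary: for 1 ≤ m ≤ N both bounds, ends by the special cases
  have key : ∀ m, m < N + 1 → QG lam N G m ≤ G m ∧ G m ≤ QG lam N G (m + 1) := by
    intro m hm
    constructor
    · rcases Nat.eq_zero_or_pos m with h | h
      · subst h
        have := (QG_between hl N G 0 (by omega) le_rfl).2.2.1 rfl
        exact this.le
      · exact (QG_between hl N G m (by omega) (hG _ _ (by omega) (by omega))).1 (by omega)
    · rcases Nat.lt_or_ge m N with h | h
      · have := (QG_between hl N G (m + 1) (by omega) (by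
          simpa using hG m (m + 1) (by omega) (by omega))).2.1 (by omega)
        simpa using this
      · have hmN : m = N := by omega
        subst hmN
        have hp := Zp_pos hl (m + 1) (m + 1 - (m + 1))
        have he := Zp_eq (lam := lam) (m + 1) (m + 1 - (m + 1)) (by omega)
        have h0 : ZR lam (m + 1) (m + 1 - (m + 1)) = 0 := by simp [ZR]
        rw [h0] at he
        have : QG lam m G (m + 1) = G m := by
          unfold QG
          rw [h0, div_eq_iff hp.ne', he]; simp; ring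
        exact this.ge
  have stepm : ∀ m, m < N + 1 → QG lam N G m ≤ QG lam N G (m + 1) := fun m hm =>
    (key m hm).1.trans (key m hm).2
  refine ⟨?_, ?_, ?_⟩
  · intro i j hij hj
    induction j, hij using Nat.le_induction with
    | base => exact le_rfl
    | succ j hij ih => exact (ih (by omega)).trans (stepm j (by omega))
  · have := (QG_between hl N G 0 (by omega) le_rfl).2.2.1 rfl
    exact this.ge
  · have hp := Zp_pos hl (N + 1) (N + 1 - (N + 1))
    have he := Zp_eq (lam := lam) (N + 1) (N + 1 - (N + 1)) (by omega)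
    have h0 : ZR lam (N + 1) (N + 1 - (N + 1)) = 0 := by simp [ZR]
    rw [h0] at he
    have : QG lam N G (N + 1) = G N := by
      unfold QG
      rw [h0, div_eq_iff hp.ne', he]; simp; ring
    exact this.le

theorem QI_mono (hl : ∀ m n, 0 < lam m n) (M : ℕ) (G : ℕ → ℝ) (hG : MonoL M G) (k : ℕ) :
    MonoL (M + k) (QI lam M G k) ∧ G 0 ≤ QI lam M G k 0 ∧ QI lam M G k (M + k) ≤ G M := by
  induction k with
  | zero => exact ⟨hG, le_rfl, le_rfl⟩
  | succ k ih =>
    obtain ⟨h1, h2, h3⟩ := ih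
    obtain ⟨g1, g2, g3⟩ := QG_mono hl (M + k) (QI lam M G k) h1
    exact ⟨g1, h2.trans g2, g3.trans h3⟩



theorem term_nonneg (hl : ∀ m n, 0 < lam m n) {F : ℝ → ℕ → ℕ → ℝ} (hF : Pas lam F) {z : ℝ}
    (hz : z ∈ Set.Ioo (-2 : ℝ) 2) (N m : ℕ) : 0 ≤ Zp lam m (N - m) * F z m (N - m) :=
  mul_nonneg (Zp_pos hl _ _).le (hF.pos z hz _ _).le

theorem term_le_one (hl : ∀ m n, 0 < lam m n) {F : ℝ → ℕ → ℕ → ℝ} (hF : Pas lam F) {z : ℝ}
    (hz : z ∈ Set.Ioo (-2 : ℝ) 2) (N m : ℕ) (hm : m ≤ N) :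
    Zp lam m (N - m) * F z m (N - m) ≤ 1 := by
  have h := Ex_one hl (F z) (hF.one z hz) (hF.step z hz) N
  unfold Ex at h
  have h2 := single_le_sum (f := fun m => Zp lam m (N - m) * F z m (N - m) * 1)
    (fun i _ => by
      have := term_nonneg hl hF hz N i
      simpa using this) (mem_range.2 (by omega : m < N + 1))
  rw [h] at h2
  simpa using h2

theorem KLneg {x z : ℝ} (hx : x ∈ Set.Ioo (-2 : ℝ) 2) (hz : z ∈ Set.Ioo (-2 : ℝ) 2) (hne : x ≠ z) :
    (z + 2) / 4 * Real.log ((x + 2) / (z + 2)) + (1 - (z + 2) / 4) * Real.log ((2 - x) / (2 - z))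
      < 0 := by
  obtain ⟨hx1, hx2⟩ := hx
  obtain ⟨hz1, hz2⟩ := hz
  have a1 : 0 < z + 2 := by linarith
  have a2 : 0 < 2 - z := by linarith
  have a3 : 0 < x + 2 := by linarith
  have a4 : 0 < 2 - x := by linarith
  have h1 : Real.log ((x + 2) / (z + 2)) < (x + 2) / (z + 2) - 1 := by
    apply Real.log_lt_sub_one_of_pos (by positivity)
    intro h
    rw [div_eq_one_iff_eq a1.ne'] at h
    exact hne (by linarith)
  have h2 : Real.log ((2 - x) / (2 - z)) ≤ (2 - x) / (2 - z) - 1 :=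
    Real.log_le_sub_one_of_pos (by positivity)
  have c1 : 0 < (z + 2) / 4 := by positivity
  have c2 : 0 < 1 - (z + 2) / 4 := by linarith
  have e : (z + 2) / 4 * ((x + 2) / (z + 2) - 1) + (1 - (z + 2) / 4) * ((2 - x) / (2 - z) - 1) = 0 := by
    field_simp
    ring
  have := mul_lt_mul_of_pos_left h1 c1
  have := mul_le_mul_of_nonneg_left h2 c2.le
  linarith

/-- Tail estimate. -/
theorem tail (hl : ∀ m n, 0 < lam m n) {F : ℝ → ℕ → ℕ → ℝ} (hF : Pas lam F) {x z : ℝ}
    (hx : x ∈ Set.Ioo (-2 : ℝ) 2) (hz : z ∈ Set.Ioo (-2 : ℝ) 2) (hne : x ≠ z) (ε : ℝ) (hε : 0 < ε) :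
    ∃ N0 : ℕ, ∀ N ≥ N0, ∀ S : Finset ℕ, S ⊆ range (N + 1) →
      (∀ m ∈ S, ((m : ℝ) - (z + 2) / 4 * N)
        * (Real.log ((x + 2) / (z + 2)) - Real.log ((2 - x) / (2 - z))) ≤ 0) →
      ∑ m ∈ S, Zp lam m (N - m) * F x m (N - m) ≤ ε := by
  set a := Real.log ((x + 2) / (z + 2)) with ha
  set b := Real.log ((2 - x) / (2 - z)) with hb
  set c := (z + 2) / 4 with hc
  set L := c * a + (1 - c) * b with hL
  have hL0 : L < 0 := KLneg hx hz hne
  obtain ⟨N1, hN1⟩ := hF.asym x hx z hz (-L / 2) (by linarith)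
  have ht : Filter.Tendsto (fun N : ℕ => ((N : ℝ) + 1) * Real.exp (L / 2) ^ N) Filter.atTop
      (nhds 0) := by
    have hr0 : 0 ≤ Real.exp (L / 2) := (Real.exp_pos _).le
    have hr1 : Real.exp (L / 2) < 1 := by
      rw [Real.exp_lt_one_iff]; linarith
    have t1 := tendsto_self_mul_const_pow_of_lt_one hr0 hr1
    have t2 := tendsto_pow_atTop_nhds_zero_of_lt_one hr0 hr1
    have := t1.add t2
    simp only [add_zero] at this
    refine this.congr fun N => ?_
    ring
  obtain ⟨N2, hN2⟩ := Filter.eventually_atTop.1 (ht.eventually (gt_mem_nhds hε))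
  refine ⟨max N1 N2, fun N hN S hS hm => ?_⟩
  have hb1 : ∀ m ∈ S, Zp lam m (N - m) * F x m (N - m) ≤ Real.exp (L / 2) ^ N := by
    intro m hmS
    have hmN : m ≤ N := by have := mem_range.1 (hS hmS); omega
    have hpz := term_le_one hl hF hz N m hmN
    have hFx := hF.pos x hx m (N - m)
    have hFz := hF.pos z hz m (N - m)
    have hs := hN1 m (N - m) (by
      have := le_trans (le_max_left N1 N2) hN; omega)
    have hcast : (m : ℝ) + ((N - m : ℕ) : ℝ) = N := by
      rw [← Nat.cast_add]; congr 1; omega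
    have hs' := (abs_le.1 hs).2
    rw [hcast] at hs'
    have hn : ((N - m : ℕ) : ℝ) = N - m := by linarith
    rw [hn] at hs'
    have hE : (m : ℝ) * a + ((N : ℝ) - m) * b ≤ N * L := by
      have := hm m hmS
      have e2 : (m : ℝ) * a + ((N : ℝ) - m) * b - N * L = ((m : ℝ) - c * N) * (a - b) := by
        rw [hL]; ring
      linarith
    have hlog : Real.log (F x m (N - m)) - Real.log (F z m (N - m)) ≤ N * (L / 2) := by
      have : (N : ℝ) * L + -L / 2 * N = N * (L / 2) := by ring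
      linarith
    have hratio : F x m (N - m) ≤ F z m (N - m) * Real.exp (L / 2) ^ N := by
      rw [← Real.exp_nat_mul, ← Real.log_le_log_iff hFx (by positivity), Real.log_mul hFz.ne'
        (Real.exp_pos _).ne', Real.log_exp]
      linarith
    have hZ := Zp_pos hl m (N - m)
    calc Zp lam m (N - m) * F x m (N - m)
        ≤ Zp lam m (N - m) * (F z m (N - m) * Real.exp (L / 2) ^ N) :=
          mul_le_mul_of_nonneg_left hratio hZ.le
      _ = (Zp lam m (N - m) * F z m (N - m)) * Real.exp (L / 2) ^ N := by ring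
      _ ≤ 1 * Real.exp (L / 2) ^ N := mul_le_mul_of_nonneg_right hpz (by positivity)
      _ = Real.exp (L / 2) ^ N := one_mul _
  calc ∑ m ∈ S, Zp lam m (N - m) * F x m (N - m)
      ≤ ∑ _m ∈ S, Real.exp (L / 2) ^ N := sum_le_sum hb1
    _ = S.card * Real.exp (L / 2) ^ N := by rw [sum_const, nsmul_eq_mul]
    _ ≤ ((N : ℝ) + 1) * Real.exp (L / 2) ^ N := by
        apply mul_le_mul_of_nonneg_right _ (by positivity)
        have := card_le_card hS
        rw [card_range] at this
        exact_mod_cast this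
    _ ≤ ε := (hN2 N (le_trans (le_max_right N1 N2) hN)).le

theorem compare (hl : ∀ m n, 0 < lam m n) {F G : ℝ → ℕ → ℕ → ℝ} (hF : Pas lam F) (hG : Pas lam G)
    {x y : ℝ} (hx : x ∈ Set.Ioo (-2 : ℝ) 2) (hy : y ∈ Set.Ioo (-2 : ℝ) 2) (hxy : x < y) (M : ℕ)
    (g : ℕ → ℝ) (hg : MonoL M g) : Ex lam (F x) M g ≤ Ex lam (G y) M g := by
  set z := (x + y) / 2 with hzdef
  have hxz : x < z := by rw [hzdef]; linarith
  have hzy : z < y := by rw [hzdef]; linarith
  have hz : z ∈ Set.Ioo (-2 : ℝ) 2 := ⟨by linarith [hx.1], by linarith [hy.2]⟩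
  have hx1 := hx.1
  have hx2 := hx.2
  have hy1 := hy.1
  have hy2 := hy.2
  have hz1 := hz.1
  have hz2 := hz.2
  set Δ := g M - g 0 with hΔ
  have hΔ0 : 0 ≤ Δ := by have := hg 0 M (by omega) le_rfl; linarith
  apply le_of_forall_pos_le_add
  intro δ hδ
  -- choose ε
  set ε := δ / (2 * (Δ + 1)) with hε
  have hε0 : 0 < ε := by positivity
  have hεδ : 2 * (Δ * ε) ≤ δ := by
    have : Δ * ε ≤ (Δ + 1) * ε := by nlinarith
    have e : (Δ + 1) * ε = δ / 2 := by rw [hε]; field_simp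
    linarith
  obtain ⟨N1, hN1⟩ := tail hl hF hx hz hxz.ne ε hε0
  obtain ⟨N2, hN2⟩ := tail hl hG hy hz hzy.ne' ε hε0
  set N := M + (N1 + N2) with hN
  have hk := QI_mono hl M g hg (N1 + N2)
  obtain ⟨hv1, hv2, hv3⟩ := hk
  set v := QI lam M g (N1 + N2) with hv
  rw [← hN] at hv1 hv3
  have hEx : Ex lam (F x) M g = Ex lam (F x) N v :=
    (Ex_QI hl (F x) (hF.step x hx) M g (N1 + N2)).symm
  have hEy : Ex lam (G y) M g = Ex lam (G y) N v :=
    (Ex_QI hl (G y) (hG.step y hy) M g (N1 + N2)).symm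
  have hEx1 := Ex_one hl (F x) (hF.one x hx) (hF.step x hx) N
  have hEy1 := Ex_one hl (G y) (hG.one y hy) (hG.step y hy) N
  set c := (z + 2) / 4 with hc
  have hc0 : 0 < c := by rw [hc]; linarith
  have hc1 : c < 1 := by rw [hc]; linarith
  set m0 := ⌊c * N⌋₊ with hm0
  have hm0le : (m0 : ℝ) ≤ c * N := Nat.floor_le (by positivity)
  have hm0lt : c * N < m0 + 1 := Nat.lt_floor_add_one _
  have hm0N : m0 ≤ N := by
    have : (m0 : ℝ) ≤ N := hm0le.trans (by nlinarith [Nat.cast_nonneg (α := ℝ) N])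
    exact_mod_cast this
  have ax : Real.log ((x + 2) / (z + 2)) - Real.log ((2 - x) / (2 - z)) ≤ 0 := by
    have h1 : Real.log ((x + 2) / (z + 2)) ≤ 0 :=
      Real.log_nonpos (div_nonneg (by linarith) (by linarith)) ((div_le_one (by linarith)).2 (by linarith))
    have h2 : 0 ≤ Real.log ((2 - x) / (2 - z)) :=
      Real.log_nonneg ((one_le_div (by linarith)).2 (by linarith))
    linarith
  have ay : 0 ≤ Real.log ((y + 2) / (z + 2)) - Real.log ((2 - y) / (2 - z)) := by
    have h1 : 0 ≤ Real.log ((y + 2) / (z + 2)) :=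
      Real.log_nonneg ((one_le_div (by linarith)).2 (by linarith))
    have h2 : Real.log ((2 - y) / (2 - z)) ≤ 0 :=
      Real.log_nonpos (div_nonneg (by linarith) (by linarith)) ((div_le_one (by linarith)).2 (by linarith))
    linarith
  have tx := hN1 N (by omega) ((range (N + 1)).filter (fun m => m0 < m)) (filter_subset _ _) (by
    intro m hm
    have hm' := (mem_filter.1 hm).2
    have : (m0 : ℝ) + 1 ≤ m := by exact_mod_cast hm'
    apply mul_nonpos_of_nonneg_of_nonpos _ ax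
    linarith)
  have ty := hN2 N (by omega) ((range (N + 1)).filter (fun m => m < m0)) (filter_subset _ _) (by
    intro m hm
    have hm' := (mem_filter.1 hm).2
    have : (m : ℝ) ≤ m0 := by exact_mod_cast hm'.le
    apply mul_nonpos_of_nonpos_of_nonneg _ ay
    linarith)
  have hup : Ex lam (F x) N v ≤ v m0 + Δ * ε := by
    have h1 : Ex lam (F x) N v ≤ ∑ m ∈ range (N + 1), (Zp lam m (N - m) * F x m (N - m) * 1 * v m0
        + Δ * (if m0 < m then Zp lam m (N - m) * F x m (N - m) else 0)) := by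
      unfold Ex
      refine sum_le_sum fun m hm => ?_
      have hmN : m ≤ N := by have := mem_range.1 hm; omega
      have hp := term_nonneg hl hF hx N m
      by_cases h : m0 < m
      · rw [if_pos h]
        have : v m ≤ v m0 + Δ := by
          have e1 := hv1 m N hmN le_rfl
          have e2 := hv1 0 m0 (by omega) hm0N
          linarith
        refine (mul_le_mul_of_nonneg_left this hp).trans (le_of_eq ?_)
        ring
      · rw [if_neg h]
        have := hv1 m m0 (by omega) hm0N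
        refine (mul_le_mul_of_nonneg_left this hp).trans (le_of_eq ?_)
        ring
    rw [sum_add_distrib, ← sum_mul, ← mul_sum, ← sum_filter] at h1
    unfold Ex at hEx1
    rw [hEx1, one_mul] at h1
    have := mul_le_mul_of_nonneg_left tx hΔ0
    linarith
  have hlo : v m0 - Δ * ε ≤ Ex lam (G y) N v := by
    have h1 : ∑ m ∈ range (N + 1), (Zp lam m (N - m) * G y m (N - m) * 1 * v m0
        - Δ * (if m < m0 then Zp lam m (N - m) * G y m (N - m) else 0)) ≤ Ex lam (G y) N v := by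
      unfold Ex
      refine sum_le_sum fun m hm => ?_
      have hmN : m ≤ N := by have := mem_range.1 hm; omega
      have hp := term_nonneg hl hG hy N m
      by_cases h : m < m0
      · rw [if_pos h]
        have : v m0 - Δ ≤ v m := by
          have e1 := hv1 0 m (by omega) hmN
          have e2 := hv1 m0 N hm0N le_rfl
          linarith
        refine (le_of_eq ?_).trans (mul_le_mul_of_nonneg_left this hp)
        ring
      · rw [if_neg h]
        have := hv1 m0 m (by omega) hmN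
        refine (le_of_eq ?_).trans (mul_le_mul_of_nonneg_left this hp)
        ring
    rw [sum_sub_distrib, ← sum_mul, ← mul_sum, ← sum_filter] at h1
    unfold Ex at hEy1
    rw [hEy1, one_mul] at h1
    have := mul_le_mul_of_nonneg_left ty hΔ0
    linarith
  rw [hEx, hEy]
  linarith

theorem Ex_continuousOn {G : ℝ → ℕ → ℕ → ℝ} (hG : Pas lam G) (M : ℕ) (g : ℕ → ℝ) :
    ContinuousOn (fun y => Ex lam (G y) M g) (Set.Ioo (-2 : ℝ) 2) := by
  unfold Ex
  apply continuousOn_finsetSum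
  intro m _
  exact (continuousOn_const.mul (hG.cont m (M - m))).mul continuousOn_const

theorem Ex_le (hl : ∀ m n, 0 < lam m n) {F G : ℝ → ℕ → ℕ → ℝ} (hF : Pas lam F) (hG : Pas lam G)
    {x : ℝ} (hx : x ∈ Set.Ioo (-2 : ℝ) 2) (M : ℕ)
    (g : ℕ → ℝ) (hg : MonoL M g) : Ex lam (F x) M g ≤ Ex lam (G x) M g := by
  have hc : ContinuousAt (fun y => Ex lam (G y) M g) x :=
    (Ex_continuousOn hG M g).continuousAt (Ioo_mem_nhds hx.1 hx.2)
  have ht : Filter.Tendsto (fun y => Ex lam (G y) M g) (nhdsWithin x (Set.Ioi x))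
      (nhds (Ex lam (G x) M g)) := hc.tendsto.mono_left nhdsWithin_le_nhds
  refine ge_of_tendsto ht ?_
  have h1 : Set.Ioo x 2 ∈ nhdsWithin x (Set.Ioi x) := Ioo_mem_nhdsGT hx.2
  filter_upwards [h1] with y hy
  exact compare hl hF hG hx ⟨by linarith [hx.1, hy.1], hy.2⟩ hy.1 M g hg

theorem main (hl : ∀ m n, 0 < lam m n) {F G : ℝ → ℕ → ℕ → ℝ} (hF : Pas lam F) (hG : Pas lam G)
    {x : ℝ} (hx : x ∈ Set.Ioo (-2 : ℝ) 2) (m n : ℕ) : F x m n = G x m n := by
  have key : ∀ g : ℕ → ℝ, MonoL (m + n) g → Ex lam (F x) (m + n) g = Ex lam (G x) (m + n) g :=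
    fun g hg => le_antisymm (Ex_le hl hF hG hx _ g hg) (Ex_le hl hG hF hx _ g hg)
  have hmono : ∀ i : ℕ, MonoL (m + n) (fun j => if i ≤ j then (1 : ℝ) else 0) := by
    intro i j k hjk _
    simp only
    split_ifs with h1 h2
    · exact le_rfl
    · exact absurd (h1.trans hjk) h2
    · exact zero_le_one
    · exact le_rfl
  have h1 := key _ (hmono m)
  have h2 := key _ (hmono (m + 1))
  have diff : ∀ f : ℕ → ℕ → ℝ, Ex lam f (m + n) (fun j => if m ≤ j then (1 : ℝ) else 0)
      - Ex lam f (m + n) (fun j => if m + 1 ≤ j then (1 : ℝ) else 0) = Zp lam m n * f m n := by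
    intro f
    unfold Ex
    rw [← sum_sub_distrib]
    have : ∀ j ∈ range (m + n + 1), Zp lam j (m + n - j) * f j (m + n - j) * (if m ≤ j then (1 : ℝ) else 0)
        - Zp lam j (m + n - j) * f j (m + n - j) * (if m + 1 ≤ j then (1 : ℝ) else 0)
        = if j = m then Zp lam m n * f m n else 0 := by
      intro j _
      rcases lt_trichotomy j m with h | h | h
      · rw [if_neg (by omega), if_neg (by omega), if_neg (by omega)]; ring
      · subst h
        rw [if_pos le_rfl, if_neg (by omega), if_pos rfl]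
        have : j + n - j = n := by omega
        rw [this]; ring
      · rw [if_pos (by omega), if_pos (by omega), if_neg (by omega)]; ring
    rw [sum_congr rfl this, sum_ite_eq']
    rw [if_pos (mem_range.2 (by omega))]
  have e1 := diff (F x)
  have e2 := diff (G x)
  have hZ := Zp_pos hl m n
  have : Zp lam m n * F x m n = Zp lam m n * G x m n := by rw [← e1, ← e2, h1, h2]
  exact mul_left_cancel₀ hZ.ne' this

end PT

theorem piece_pascal : S_pascal := fun _ _ _ hl hF hG _ hx m n => PT.main hl hF hG hx m n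

end Cal
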