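import Pool.Agent.Lib.MP_4ea4c7_an.Stm1

/-! [CA C5] The polynomial part of the functions in `P_N(μ)`. -/

open MeasureTheory Complex Metric Set Filter Topology
open scoped ComplexConjugate ENNReal NNReal

namespace Cal

noncomputable section

private lemma pp_growth {g : ℂ → ℂ} (hg : Differentiable ℂ g) {N : ℕ} {M : ℝ}
    (hM : ∀ z, 2 ≤ ‖z‖ → ‖g z‖ ≤ M * ‖z‖ ^ N) :
    ∃ c : ℕ → ℂ, ∀ z, g z = ∑ i ∈ Finset.range (N + 1), c i * z ^ i := by
  have hM0 : 0 ≤ M := by
    have h := hM 2 (by simp)
    have h2 : 0 ≤ M * ‖(2 : ℂ)‖ ^ N := (norm_nonneg _).trans h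
    have h3 : 0 < ‖(2 : ℂ)‖ ^ N := pow_pos (by simp) N
    exact nonneg_of_mul_nonneg_left h2 h3
  have hz : ∀ n, N < n → iteratedDeriv n g 0 = 0 := by
    intro n hn
    rw [← norm_le_zero_iff]
    refine le_of_forall_pos_le_add (fun ε hε => ?_)
    set K : ℝ := n.factorial * M with hK
    have hK0 : 0 ≤ K := by positivity
    obtain ⟨R, hR2, hRK⟩ : ∃ R : ℝ, 2 ≤ R ∧ K / R ≤ ε := by
      refine ⟨max 2 (K / ε), le_max_left _ _, ?_⟩
      rw [div_le_iff₀ (by positivity)]
      have := le_max_right 2 (K / ε)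
      rw [div_le_iff₀ hε] at this
      linarith
    have hR0 : 0 < R := by linarith
    have h := Complex.norm_iteratedDeriv_le_of_forall_mem_sphere_norm_le (c := 0) (f := g) n hR0
      hg.diffContOnCl (C := M * R ^ N) (by
        intro z hz
        have hz' : ‖z‖ = R := by simpa using hz
        rw [← hz']
        exact hM z (by rw [hz']; exact hR2))
    refine h.trans ?_
    rw [zero_add]
    refine le_trans ?_ hRK
    rw [div_le_div_iff₀ (by positivity) hR0]
    have hp : R ^ N * R ≤ R ^ n := by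
      rw [← pow_succ]
      exact pow_le_pow_right₀ (by linarith) hn
    calc (n.factorial : ℝ) * (M * R ^ N) * R = K * (R ^ N * R) := by rw [hK]; ring
      _ ≤ K * R ^ n := by gcongr
  refine ⟨fun i => (i.factorial : ℂ)⁻¹ * iteratedDeriv i g 0, fun z => ?_⟩
  have h1 := Complex.hasSum_taylorSeries_of_entire hg 0 z
  have h2 : HasSum (fun n : ℕ => ((n.factorial : ℂ)⁻¹ • (z - 0) ^ n • iteratedDeriv n g 0))
      (∑ n ∈ Finset.range (N + 1), ((n.factorial : ℂ)⁻¹ • (z - 0) ^ n • iteratedDeriv n g 0)) := by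
    refine hasSum_sum_of_ne_finset_zero (fun n hn => ?_)
    rw [hz n (by simpa using hn)]
    simp
  rw [h1.unique h2]
  refine Finset.sum_congr rfl (fun i _ => ?_)
  simp only [smul_eq_mul, sub_zero]
  ring

theorem piece_polypart (h1 : S_basic) (h2 : S_smooth) (h3 : S_wuniq) (h4 : S_weyl) (h5 : S_C3a)
    (h6 : S_C3b) : S_polypart := by
  intro κ μ N f hμ hf
  obtain ⟨A, B, hWD, hBel⟩ := hf.bel
  rw [Measure.restrict_univ] at hBel
  obtain ⟨Cf, hCf⟩ := hf.growth
  set K : Set ℂ := closedBall 0 (5 / 4) with hK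
  have hKm : MeasurableSet K := isClosed_closedBall.measurableSet
  have hmemK : ∀ z, z ∈ K ↔ ¬ 5 / 4 < ‖z‖ := by
    intro z; simp [hK]
  set w : ℂ → ℂ := K.indicator B with hw
  have hwB : w =ᵐ[volume] B := by
    filter_upwards [hBel] with z hz
    by_cases hzK : z ∈ K
    · rw [hw, indicator_of_mem hzK]
    · rw [hw, indicator_of_notMem hzK, hz, hμ.supp z (by simpa [hmemK] using hzK)]
      simp
  have hw2 : W2 w := by
    refine ⟨?_, fun z hz => ?_⟩
    · exact (memLp_indicator_iff_restrict hKm).mpr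
        (hWD.B2 K (isCompact_closedBall _ _) (subset_univ _))
    · exact indicator_of_notMem (by rw [hmemK]; exact not_not.mpr hz) _
  have hfw : WD univ f A w := by
    refine h1.2.2.2.1 univ f A B f A w MeasurableSet.univ hWD (ae_eq_refl _) (ae_eq_refl _) ?_
    rw [Measure.restrict_univ]; exact hwB.symm
  have hwA : ∀ᵐ z, w z = (μ z : ℂ) * conj (A z) := by
    filter_upwards [hBel, hwB] with z q1 q2
    rw [q2, q1]
  obtain ⟨C, hC0, hCb, -, -, hCconj⟩ := h5
  obtain ⟨a, ha2, haWD, -⟩ := h6 w hw2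
  -- reflection symmetry
  have hwsym : ∀ᵐ z, conj (w (conj z)) = w z := by
    have t := h1.2.2.2.2.2 univ f A w hfw
    have e : {z : ℂ | conj z ∈ (univ : Set ℂ)} = univ := by ext z; simp
    rw [e] at t
    have := (h3 univ _ _ _ _ _ _ isOpen_univ t hfw (by
      refine Eventually.of_forall (fun z => ?_)
      simp only
      rw [hf.symm z, Complex.conj_conj])).2
    rw [Measure.restrict_univ] at this
    filter_upwards [this] with z hz
    exact hz
  have hCtsym : ∀ z, Ct w (conj z) = conj (Ct w z) := by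
    intro z
    have q1 := hCconj w z
    have q2 : Ct (fun ζ => conj (w (conj ζ))) z = Ct w z := by
      unfold Ct
      congr 1
      refine integral_congr_ae ?_
      filter_upwards [hwsym] with ζ hζ
      rw [hζ]
    rw [q2] at q1
    rw [q1, Complex.conj_conj]
  -- the entire function
  obtain ⟨g, hgd, hgae⟩ := (h4 univ (fun z => f z - Ct w z) isOpen_univ (by
      intro L hL hLU
      exact (hfw.f2 L hL hLU).sub (haWD.f2 L hL hLU)) (by
      intro φ hφ
      have t1 := hfw.hB φ hφ
      have t2 := haWD.hB φ hφ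
      have t := (h1.1 univ _ _ _ _ _ _ hfw (h1.2.1 univ _ _ _ (-1) haWD)).hB φ hφ
      have e1 : ∀ z, f z + -1 * Ct w z = f z - Ct w z := fun z => by ring
      have e2 : ∀ z, w z + -1 * w z = 0 := fun z => by ring
      simp only [e1, e2, zero_mul, integral_zero, neg_zero] at t
      exact t)).1
  rw [Measure.restrict_univ] at hgae
  have hg : Differentiable ℂ g := fun z => (hgd z (mem_univ z)).differentiableAt (by simp)
  set O : Set ℂ := {z | 5 / 4 < ‖z‖} with hO
  have hOo : IsOpen O := isOpen_lt continuous_const continuous_norm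
  have hCtO : DifferentiableOn ℂ (Ct w) O := (hCb w hw2).2.2.2
  have hgO : EqOn (fun z => f z - Ct w z) g O := by
    refine Measure.eqOn_open_of_ae_eq (μ := volume) (ae_restrict_of_ae hgae) hOo ?_
      hg.continuous.continuousOn
    exact hf.cont.continuousOn.sub hCtO.continuousOn
  set Cw : ℝ := C * (eLpNorm w 2 volume).toReal with hCw
  have hCw0 : 0 ≤ Cw := mul_nonneg hC0 ENNReal.toReal_nonneg
  have hCtb : ∀ z, 2 ≤ ‖z‖ → ‖Ct w z‖ ≤ Cw / ‖z‖ := fun z hz =>
    (hCb w hw2).1 z (by linarith)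
  obtain ⟨c, hc⟩ := pp_growth hg (N := N) (M := |Cf| * 2 ^ N + Cw) (by
    intro z hz
    have q1 : f z - Ct w z = g z := hgO (show (5:ℝ) / 4 < ‖z‖ by linarith)
    rw [← q1]
    refine (norm_sub_le _ _).trans ?_
    have q2 : ‖f z‖ ≤ |Cf| * 2 ^ N * ‖z‖ ^ N := by
      calc ‖f z‖ ≤ Cf * (1 + ‖z‖) ^ N := hCf z
        _ ≤ |Cf| * (1 + ‖z‖) ^ N := by gcongr; exact le_abs_self _
        _ ≤ |Cf| * (2 * ‖z‖) ^ N := by gcongr; linarith
        _ = _ := by rw [mul_pow]; ring
    have q3 : ‖Ct w z‖ ≤ Cw * ‖z‖ ^ N := by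
      refine (hCtb z hz).trans ?_
      rw [div_le_iff₀ (by linarith)]
      have q4 : 1 ≤ ‖z‖ ^ N := one_le_pow₀ (by linarith)
      have q5 : 1 ≤ ‖z‖ ^ N * ‖z‖ := by nlinarith
      calc Cw = Cw * 1 := by ring
        _ ≤ Cw * (‖z‖ ^ N * ‖z‖) := by gcongr
        _ = _ := by ring
    linarith)
  -- the coefficients are real
  have hreal : ∀ i, i < N + 1 → (c i).im = 0 := by
    set Q : Polynomial ℝ := ∑ i ∈ Finset.range (N + 1),
      Polynomial.C ((c i).im) * Polynomial.X ^ i with hQ
    have hQe : ∀ x : ℝ, 5 / 4 < x → Q.eval x = 0 := by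
      intro x hx
      have hxO : ((x : ℂ)) ∈ O := by
        show (5:ℝ) / 4 < ‖(x : ℂ)‖
        rw [Complex.norm_real, Real.norm_eq_abs]
        exact hx.trans_le (le_abs_self x)
      have q1 : g x = f x - Ct w x := (hgO hxO).symm
      have q2 : (f x).im = 0 := by
        have := hf.symm x
        rw [Complex.conj_ofReal] at this
        exact Complex.conj_eq_iff_im.mp this.symm
      have q3 : (Ct w x).im = 0 := by
        have := hCtsym x
        rw [Complex.conj_ofReal] at this
        exact Complex.conj_eq_iff_im.mp this.symm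
      have q4 : (g x).im = 0 := by rw [q1, Complex.sub_im, q2, q3]; ring
      rw [hc x, Complex.im_sum] at q4
      rw [hQ, Polynomial.eval_finsetSum, ← q4]
      refine Finset.sum_congr rfl (fun i _ => ?_)
      simp only [Polynomial.eval_mul, Polynomial.eval_C, Polynomial.eval_pow, Polynomial.eval_X]
      rw [← Complex.ofReal_pow, Complex.mul_im, Complex.ofReal_re, Complex.ofReal_im]
      ring
    have hQ0 : Q = 0 := by
      refine Polynomial.eq_zero_of_infinite_isRoot Q ?_
      refine Set.Infinite.mono (s := Ioi (5 / 4 : ℝ)) (fun x hx => ?_) (Set.Ioi_infinite _)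
      exact hQe x hx
    intro i hi
    have := congrArg (fun P => Polynomial.coeff P i) hQ0
    simp only [hQ, Polynomial.finsetSum_coeff, Polynomial.coeff_C_mul_X_pow,
      Polynomial.coeff_zero] at this
    rw [Finset.sum_ite_eq, if_pos (Finset.mem_range.mpr hi)] at this
    exact this
  set p : Polynomial ℝ := ∑ i ∈ Finset.range (N + 1),
    Polynomial.C ((c i).re) * Polynomial.X ^ i with hp
  have hpv : ∀ z, pv p z = g z := by
    intro z
    rw [hc z, hp]
    unfold pv
    rw [map_sum]
    refine Finset.sum_congr rfl (fun i hi => ?_)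
    rw [map_mul, map_pow, Polynomial.aeval_C, Polynomial.aeval_X]
    congr 1
    apply Complex.ext
    · simp
    · simp [hreal i (Finset.mem_range.mp hi)]
  have hpN : p.natDegree ≤ N := by
    rw [hp]
    refine Polynomial.natDegree_sum_le_of_forall_le _ _ (fun i hi => ?_)
    refine (Polynomial.natDegree_C_mul_X_pow_le _ _).trans ?_
    have := Finset.mem_range.mp hi
    omega
  have hfO : ∀ z, 5 / 4 < ‖z‖ → f z = pv p z + Ct w z := by
    intro z hz
    have : f z - Ct w z = g z := hgO hz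
    rw [hpv z, ← this]; ring
  refine ⟨p, hpN, ⟨Cw, fun z hz => ?_⟩, ⟨w, A, hw2, hfw, hwA, ?_, hfO⟩, ?_⟩
  · show ‖f z - pv p z‖ ≤ Cw / ‖z‖
    rw [hfO z (by linarith)]
    have : pv p z + Ct w z - pv p z = Ct w z := by ring
    rw [this]
    exact hCtb z hz
  · filter_upwards [hgae] with z hz
    rw [hpv z, ← hz]; ring
  · have hpd : Differentiable ℂ (fun z => pv p z) := by
      have : (fun z => pv p z) = g := funext hpv
      rw [this]; exact hg
    refine (hpd.differentiableOn.add hCtO).congr (fun z hz => ?_)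
    exact hfO z hz

end

end Cal
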