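import Pool.Agent.Lib.MP_4ea4c7_an.StmF

/-!
# MP_4ea4c7_an, piece `S_psi0` (helper68)
-/

open MeasureTheory Complex Metric Set Filter Topology
open scoped ComplexConjugate ENNReal NNReal

namespace Cal

open LocalCalderon

noncomputable section

private def dd (z : ℂ) : ℂ := z ^ 2 - 2 * I * z + 1
private def nn (z : ℂ) : ℂ := z ^ 2 + 2 * I * z + 1

private lemma psi0_eq (z : ℂ) : psi0 z = -I * nn z / dd z := rfl

private lemma nsq (z : ℂ) : normSq (dd z) - normSq (nn z) = 8 * z.im * (1 - normSq z) := by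
  simp only [dd, nn, normSq_apply, pow_two, Complex.add_re, Complex.sub_re, Complex.mul_re, Complex.add_im,
    Complex.sub_im, Complex.mul_im, I_re, I_im, one_re, one_im, re_ofNat, im_ofNat]
  ring

private lemma dd_ne {z : ℂ} (h1 : ‖z‖ ≤ 1) (h2 : 0 ≤ z.im) : dd z ≠ 0 := by
  intro h
  have hr := congrArg Complex.re h
  have hi := congrArg Complex.im h
  simp only [dd, pow_two, Complex.add_re, Complex.sub_re, Complex.mul_re, Complex.add_im,
    Complex.sub_im, Complex.mul_im, I_re, I_im, one_re, one_im, re_ofNat, im_ofNat, zero_re, zero_im] at hr hi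
  have him : z.im ≤ 1 := (Complex.im_le_norm z).trans h1
  have hi' : z.re * (z.im - 1) = 0 := by linarith
  rcases mul_eq_zero.1 hi' with h0 | h0
  · rw [h0] at hr
    nlinarith
  · have : z.im = 1 := by linarith
    rw [this] at hr
    nlinarith [mul_self_nonneg z.re]

private lemma norm_psi0 {z : ℂ} (h : dd z ≠ 0) : normSq (psi0 z) * normSq (dd z) = normSq (nn z) := by
  rw [psi0_eq, normSq_div, normSq_mul, normSq_neg, normSq_I, one_mul, div_mul_cancel₀]
  exact (normSq_pos.2 h).ne'

private lemma cl_eq : closure HB = {z | ‖z‖ ≤ 1 ∧ 0 ≤ z.im} := by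
  apply Subset.antisymm
  · apply closure_minimal
    · intro z hz
      exact ⟨hz.1.le, hz.2.le⟩
    · exact (isClosed_le continuous_norm continuous_const).inter (isClosed_le continuous_const Complex.continuous_im)
  · intro z hz
    have hz1 : ‖z‖ ≤ 1 := hz.1
    have hz2 : 0 ≤ z.im := hz.2
    have ht : Tendsto (fun t : ℝ => (((1 - t : ℝ) : ℂ) * z + ((t / 2 : ℝ) : ℂ) * I)) (𝓝[>] 0) (𝓝 z) := by
      have hc : Continuous (fun t : ℝ => (((1 - t : ℝ) : ℂ) * z + ((t / 2 : ℝ) : ℂ) * I)) := by fun_prop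
      have := hc.tendsto 0
      simp only [sub_zero, ofReal_one, one_mul, zero_div, ofReal_zero, zero_mul, add_zero] at this
      exact this.mono_left nhdsWithin_le_nhds
    apply mem_closure_of_tendsto ht
    have h1 : ∀ᶠ t : ℝ in 𝓝[>] 0, t < 1 := nhdsWithin_le_nhds (gt_mem_nhds one_pos)
    filter_upwards [self_mem_nhdsWithin, h1] with t ht0 ht1
    have ht0 : 0 < t := ht0
    constructor
    · calc ‖((1 - t : ℝ) : ℂ) * z + ((t / 2 : ℝ) : ℂ) * I‖ ≤ ‖((1 - t : ℝ) : ℂ) * z‖ + ‖((t / 2 : ℝ) : ℂ) * I‖ := norm_add_le _ _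
        _ = (1 - t) * ‖z‖ + t / 2 := by
            rw [norm_mul, norm_mul, Complex.norm_I, mul_one, Complex.norm_real, Complex.norm_real, Real.norm_of_nonneg (by linarith),
              Real.norm_of_nonneg (by linarith)]
        _ < 1 := by nlinarith
    · simp only [Complex.add_im, Complex.mul_im, ofReal_re, ofReal_im, I_re, I_im]
      nlinarith

private lemma open_HB : IsOpen HB :=
  (isOpen_lt continuous_norm continuous_const).inter (isOpen_lt continuous_const Complex.continuous_im)

private lemma normSq_le_one {z : ℂ} (h : ‖z‖ ≤ 1) : normSq z ≤ 1 := by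
  rw [normSq_eq_norm_sq]; nlinarith [norm_nonneg z]

private lemma norm_lt_one_iff {z : ℂ} : ‖z‖ < 1 ↔ normSq z < 1 := by
  rw [normSq_eq_norm_sq, sq_lt_one_iff₀ (norm_nonneg z)]

private lemma norm_eq_one_iff' {z : ℂ} : ‖z‖ = 1 ↔ normSq z = 1 := by
  rw [normSq_eq_norm_sq]
  constructor
  · intro h; rw [h]; norm_num
  · intro h
    have := norm_nonneg z
    nlinarith

private lemma root_aux (q a b : ℂ) (hq : q.im ≤ 0) (hab : a * b = 1) (hs : a + b = q) (ha : ‖a‖ ≤ 1) :
    ∃ z : ℂ, ‖z‖ ≤ 1 ∧ 0 ≤ z.im ∧ z ^ 2 - q * z + 1 = 0 := by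
  have hb : b * (normSq a : ℂ) = conj a := by
    rw [← mul_conj]
    linear_combination (conj a) * hab
  have hbi := congrArg Complex.im hb
  simp only [Complex.mul_im, ofReal_re, ofReal_im, conj_im, mul_zero, zero_add] at hbi
  have hsi := congrArg Complex.im hs
  rw [Complex.add_im] at hsi
  have haq : a ^ 2 - q * a + 1 = 0 := by rw [← hs]; linear_combination -hab
  have hbq : b ^ 2 - q * b + 1 = 0 := by rw [← hs]; linear_combination -hab
  by_cases h0 : 0 ≤ a.im
  · exact ⟨a, ha, h0, haq⟩
  · have h0' : a.im < 0 := not_le.1 h0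
    have h1 : normSq a ≤ 1 := normSq_le_one ha
    have h2 : normSq a = 1 := by
      by_contra hne
      have h3 : normSq a < 1 := lt_of_le_of_ne h1 hne
      have h4 : 0 ≤ normSq a := normSq_nonneg a
      -- q.im * |a|² = a.im (|a|² - 1) > 0
      have h5 : q.im * normSq a = a.im * (normSq a - 1) := by rw [← hsi]; linear_combination hbi
      have h6 : 0 < a.im * (normSq a - 1) := mul_pos_of_neg_of_neg h0' (by linarith)
      have h7 : q.im * normSq a ≤ 0 := mul_nonpos_of_nonpos_of_nonneg hq h4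
      linarith
    rw [h2, ofReal_one, mul_one] at hb
    refine ⟨b, ?_, ?_, hbq⟩
    · rw [hb, norm_conj]; exact ha
    · rw [hb, conj_im]; linarith

/-- a root in the closed half disc -/
private lemma root_ex (v : ℂ) (hv : ‖v‖ ≤ 1) : ∃ z : ℂ, ‖z‖ ≤ 1 ∧ 0 ≤ z.im ∧ psi0 z = v := by
  by_cases hvi : v = -I
  · refine ⟨0, by simp, by simp, ?_⟩
    simp [psi0, hvi]
  have hvi' : v + I ≠ 0 := fun h => hvi (eq_neg_of_add_eq_zero_left h)
  set q : ℂ := 2 * I * (v - I) / (v + I) with hq
  have hqe : q * (v + I) = 2 * I * (v - I) := by rw [hq]; field_simp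
  have hqim : q.im ≤ 0 := by
    have h1 : q.im * normSq (v + I) = 2 * (normSq v - 1) := by
      have h2 : q * (v + I) * conj (v + I) = 2 * I * (v - I) * conj (v + I) := by rw [hqe]
      rw [mul_assoc, mul_conj] at h2
      have h3 := congrArg Complex.im h2
      simp only [normSq_apply, map_add, conj_I, Complex.add_re, Complex.sub_re, Complex.mul_re, Complex.add_im,
        Complex.sub_im, Complex.mul_im, I_re, I_im, re_ofNat, im_ofNat, ofReal_re, ofReal_im, conj_re, conj_im,
        neg_re, neg_im] at h3 ⊢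
      nlinarith [h3]
    have h2 := normSq_le_one hv
    have h3 : 0 < normSq (v + I) := normSq_pos.2 hvi'
    by_contra hc
    have : 0 < q.im * normSq (v + I) := mul_pos (not_le.1 hc) h3
    linarith
  obtain ⟨s, hs⟩ := IsAlgClosed.exists_pow_nat_eq (q ^ 2 / 4 - 1) (n := 2) (by norm_num)
  have hroot : ∃ z : ℂ, ‖z‖ ≤ 1 ∧ 0 ≤ z.im ∧ z ^ 2 - q * z + 1 = 0 := by
    have hab : (q / 2 + s) * (q / 2 - s) = 1 := by linear_combination -hs
    by_cases h1 : ‖q / 2 + s‖ ≤ 1
    · exact root_aux q _ _ hqim hab (by ring) h1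
    · have h2 : ‖q / 2 - s‖ ≤ 1 := by
        have h3 : ‖q / 2 + s‖ * ‖q / 2 - s‖ = 1 := by rw [← norm_mul, hab, norm_one]
        by_contra hc
        have := mul_lt_mul'' (not_le.1 h1) (not_le.1 hc) zero_le_one zero_le_one
        linarith
      exact root_aux q _ _ hqim (by rw [mul_comm]; exact hab) (by ring) h2
  obtain ⟨z, hz1, hz2, hz⟩ := hroot
  refine ⟨z, hz1, hz2, ?_⟩
  have hd := dd_ne hz1 hz2
  rw [psi0_eq, div_eq_iff hd]
  simp only [nn, dd]
  clear_value q
  linear_combination (-I - v) * hz - z * hqe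

private lemma in_cl {z : ℂ} : z ∈ closure HB ↔ ‖z‖ ≤ 1 ∧ 0 ≤ z.im := by rw [cl_eq]; rfl

theorem piece_psi0 : S_psi0 := by
  have hle : ∀ z ∈ closure HB, ‖psi0 z‖ ≤ 1 := by
    intro z hz
    obtain ⟨h1, h2⟩ := in_cl.1 hz
    have hd := dd_ne h1 h2
    have h3 := norm_psi0 hd
    have h4 := nsq z
    have h5 : 0 < normSq (dd z) := normSq_pos.2 hd
    have h6 := normSq_le_one h1
    have h7 : 0 ≤ 8 * z.im * (1 - normSq z) := mul_nonneg (by linarith) (by linarith)
    by_contra hc
    have h8 : 1 < normSq (psi0 z) := by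
      rw [normSq_eq_norm_sq]
      have := not_le.1 hc
      nlinarith
    nlinarith
  have hlt : ∀ z ∈ HB, ‖psi0 z‖ < 1 := by
    intro z hz
    have h1 := hz.1
    have h2 := hz.2
    have hd := dd_ne h1.le h2.le
    have h3 := norm_psi0 hd
    have h4 := nsq z
    have h5 : 0 < normSq (dd z) := normSq_pos.2 hd
    have h6 := norm_lt_one_iff.1 h1
    have h7 : 0 < 8 * z.im * (1 - normSq z) := mul_pos (by linarith) (by linarith)
    rw [norm_lt_one_iff]
    by_contra hc
    have h8 := not_lt.1 hc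
    nlinarith
  have hone : ∀ z ∈ closure HB, ‖psi0 z‖ = 1 → ‖z‖ = 1 ∨ z.im = 0 := by
    intro z hz hp
    obtain ⟨h1, h2⟩ := in_cl.1 hz
    have hd := dd_ne h1 h2
    have h3 := norm_psi0 hd
    rw [norm_eq_one_iff'] at hp
    rw [hp, one_mul] at h3
    have h4 := nsq z
    rw [h3, sub_self] at h4
    rcases mul_eq_zero.1 h4.symm with h | h
    · right; linarith
    · left; rw [norm_eq_one_iff']; linarith
  refine ⟨cl_eq, open_HB, ⟨{z | dd z ≠ 0}, ?_, ?_, ?_⟩, ?_, ?_, ?_, hone, ?_⟩
  · have hc : Continuous dd := by unfold dd; fun_prop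
    exact isOpen_ne_fun hc continuous_const
  · intro z hz
    obtain ⟨h1, h2⟩ := in_cl.1 hz
    exact dd_ne h1 h2
  · intro z hz
    have hz' : z ^ 2 - 2 * I * z + 1 ≠ 0 := hz
    apply DifferentiableAt.differentiableWithinAt
    unfold psi0
    apply DifferentiableAt.div
    · fun_prop
    · fun_prop
    · exact hz'
  · intro z hz w hw h
    obtain ⟨z1, z2⟩ := in_cl.1 hz
    obtain ⟨w1, w2⟩ := in_cl.1 hw
    have hdz := dd_ne z1 z2
    have hdw := dd_ne w1 w2
    rw [psi0_eq, psi0_eq, div_eq_div_iff hdz hdw] at h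
    have h2 : (z - w) * (1 - z * w) = 0 := by
      simp only [nn, dd] at h
      have hI : I ^ 2 = -1 := I_sq
      have h3 : 4 * ((z - w) * (1 - z * w)) = 0 := by
        linear_combination h + 4 * (z - w) * (1 - z * w) * hI
      exact (mul_eq_zero.1 h3).resolve_left (by norm_num)
    rcases mul_eq_zero.1 h2 with h3 | h3
    · exact sub_eq_zero.1 h3
    · have h4 : z * w = 1 := (sub_eq_zero.1 h3).symm
      have h5 : ‖z‖ * ‖w‖ = 1 := by rw [← norm_mul, h4, norm_one]
      have h6 : ‖z‖ = 1 := by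
        have := norm_nonneg z
        have := norm_nonneg w
        nlinarith
      have h7 : normSq z = 1 := norm_eq_one_iff'.1 h6
      have h8 : w = conj z := by
        have : conj z * z = 1 := by rw [mul_comm, mul_conj, h7, ofReal_one]
        linear_combination (-w) * this + conj z * h4
      have h9 : w.im = - z.im := by rw [h8, conj_im]
      have h10 : z.im = 0 := by linarith
      rw [h8]
      apply Complex.ext
      · simp
      · simp [h10]
  · apply Subset.antisymm
    · rintro v ⟨z, hz, rfl⟩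
      rw [mem_ball_zero_iff]
      exact hlt z hz
    · intro v hv
      rw [mem_ball_zero_iff] at hv
      obtain ⟨z, hz1, hz2, hz⟩ := root_ex v hv.le
      have hd := dd_ne hz1 hz2
      have h3 := norm_psi0 hd
      have h4 := nsq z
      have h5 : 0 < normSq (dd z) := normSq_pos.2 hd
      have h6 : normSq (psi0 z) < 1 := by rw [hz]; exact norm_lt_one_iff.1 hv
      have h7 : 0 < 8 * z.im * (1 - normSq z) := by nlinarith
      refine ⟨z, ⟨?_, ?_⟩, hz⟩
      · rw [norm_lt_one_iff]
        by_contra hc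
        have := not_lt.1 hc
        have : 8 * z.im * (1 - normSq z) ≤ 0 := mul_nonpos_of_nonneg_of_nonpos (by linarith) (by linarith)
        linarith
      · rcases hz2.lt_or_eq with h | h
        · exact h
        · rw [← h] at h7; simp at h7
  · apply Subset.antisymm
    · rintro v ⟨z, hz, rfl⟩
      rw [mem_closedBall_zero_iff]
      exact hle z hz
    · intro v hv
      rw [mem_closedBall_zero_iff] at hv
      obtain ⟨z, hz1, hz2, hz⟩ := root_ex v hv
      exact ⟨z, in_cl.2 ⟨hz1, hz2⟩, hz⟩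
  · intro z hz h1
    obtain ⟨z1, z2⟩ := in_cl.1 hz
    have hd := dd_ne z1 z2
    have h3 := norm_psi0 hd
    have h4 := nsq z
    have h5 : 0 < normSq (dd z) := normSq_pos.2 hd
    have h6 := norm_eq_one_iff'.1 h1
    rw [h6, sub_self, mul_zero] at h4
    constructor
    · rw [norm_eq_one_iff']
      have : normSq (psi0 z) * normSq (dd z) = 1 * normSq (dd z) := by linarith
      exact mul_right_cancel₀ h5.ne' this
    · have h7 : (psi0 z).im * normSq (dd z) = 4 * normSq z - normSq (z ^ 2 + 1) := by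
        have h8 : psi0 z * dd z * conj (dd z) = -I * nn z * conj (dd z) := by
          rw [psi0_eq, div_mul_cancel₀ _ hd]
        rw [mul_assoc, mul_conj] at h8
        have h9 := congrArg Complex.im h8
        rw [Complex.im_mul_ofReal] at h9
        rw [h9]
        simp only [dd, nn, normSq_apply, pow_two, map_add, map_sub, map_mul, map_one, conj_I, Complex.add_re, Complex.sub_re, Complex.mul_re, Complex.add_im,
          Complex.sub_im, Complex.mul_im, I_re, I_im, one_re, one_im, re_ofNat, im_ofNat, ofReal_re, ofReal_im, conj_re, conj_im,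
          neg_re, neg_im, Complex.conj_ofNat]
        ring
      have h8 : normSq (z ^ 2 + 1) ≤ 4 := by
        have : ‖z ^ 2 + 1‖ ≤ 2 := by
          calc _ ≤ ‖z ^ 2‖ + ‖(1 : ℂ)‖ := norm_add_le _ _
            _ = 2 := by rw [norm_pow, h1, norm_one]; norm_num
        rw [normSq_eq_norm_sq]
        nlinarith [norm_nonneg (z ^ 2 + 1)]
      rw [h6] at h7
      by_contra hc
      have := mul_neg_of_neg_of_pos (not_le.1 hc) h5
      linarith

end

end Cal
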