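import Mathlib
import Pool.Agent.Lib.MP_4ea4c7_an.Stm2
import Pool.Agent.Lib.MP_4ea4c7_an.StmB

set_option autoImplicit false

/-!
# Piece EB3: the recursion
-/

open MeasureTheory Complex Metric Set Filter Topology
open scoped ComplexConjugate ENNReal NNReal

namespace Cal

noncomputable section

/-- bound of `exp (M d) - 1` -/
private lemma rec_exp (M : ℕ) (d : ℂ → ℂ) (hd : Dec d) : ∃ K : ℝ, 0 ≤ K ∧ ∀ z, 2 ≤ ‖z‖ →
    ‖exp ((M : ℂ) * d z) - 1‖ ≤ K / ‖z‖ := by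
  obtain ⟨C, hC⟩ := hd
  refine ⟨(M : ℝ) * |C| * Real.exp ((M : ℝ) * |C|), by positivity, ?_⟩
  intro z hz
  have hz0 : 0 < ‖z‖ := by linarith
  have h1 : ‖(M : ℂ) * d z‖ ≤ (M : ℝ) * |C| / ‖z‖ := by
    rw [norm_mul, Complex.norm_natCast, mul_div_assoc]
    apply mul_le_mul_of_nonneg_left _ (Nat.cast_nonneg _)
    exact (hC z hz).trans (div_le_div_of_nonneg_right (le_abs_self C) hz0.le)
  have h2 : ‖(M : ℂ) * d z‖ ≤ (M : ℝ) * |C| :=
    h1.trans (div_le_self (by positivity) (by linarith))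
  have h3 := Complex.norm_exp_sub_sum_le_norm_mul_exp ((M : ℂ) * d z) 1
  simp only [Finset.range_one, Finset.sum_singleton, pow_zero, Nat.factorial_zero, Nat.cast_one,
    div_one, pow_one] at h3
  calc ‖exp ((M : ℂ) * d z) - 1‖ ≤ ‖(M : ℂ) * d z‖ * Real.exp ‖(M : ℂ) * d z‖ := h3
    _ ≤ ((M : ℝ) * |C| / ‖z‖) * Real.exp ((M : ℝ) * |C|) := by
        apply mul_le_mul h1 (Real.exp_le_exp.mpr h2) (Real.exp_pos _).le (by positivity)
    _ = _ := by ring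

private lemma rec_growth (μ : ℂ → ℝ) (m n : ℕ) (f1 d1 f2 d2 : ℂ → ℂ)
    (h1 : FMN μ (m + 1) n f1 d1) (h2 : FMN μ m (n + 1) f2 d2) :
    ∃ C : ℝ, ∀ z, ‖f1 z + f2 z‖ ≤ C * (1 + ‖z‖) ^ (m + n) := by
  obtain ⟨K1, hK1, hE1⟩ := rec_exp (m + 1 + n) d1 h1.ddec
  obtain ⟨K2, hK2, hE2⟩ := rec_exp (m + (n + 1)) d2 h2.ddec
  obtain ⟨C3, hC3⟩ := (isCompact_closedBall (0 : ℂ) 2).exists_bound_of_continuousOn
    (h1.pn.cont.add h2.pn.cont).continuousOn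
  refine ⟨2 ^ (m + n) * (4 + 2 * K1 + 2 * K2) + |C3|, ?_⟩
  intro z
  have hp : 1 ≤ (1 + ‖z‖) ^ (m + n) := one_le_pow₀ (by linarith [norm_nonneg z])
  rcases le_or_gt ‖z‖ 2 with hz | hz
  · have h3 := hC3 z (by rw [mem_closedBall, dist_zero_right]; exact hz)
    have h4 : ‖f1 z + f2 z‖ ≤ |C3| := h3.trans (le_abs_self _)
    calc ‖f1 z + f2 z‖ ≤ |C3| * 1 := by rw [mul_one]; exact h4
      _ ≤ (2 ^ (m + n) * (4 + 2 * K1 + 2 * K2) + |C3|) * (1 + ‖z‖) ^ (m + n) := by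
        apply mul_le_mul _ hp (by norm_num) (by positivity)
        have : (0 : ℝ) ≤ 2 ^ (m + n) * (4 + 2 * K1 + 2 * K2) := by positivity
        linarith
  · have hz0 : 0 < ‖z‖ := by linarith
    have hE1' := hE1 z hz.le
    have hE2' := hE2 z hz.le
    set E1 := exp (((m + 1 + n : ℕ) : ℂ) * d1 z) - 1 with hE1d
    set E2 := exp (((m + (n + 1) : ℕ) : ℂ) * d2 z) - 1 with hE2d
    have e1 : f1 z = (z + 2) ^ (m + 1) * (2 - z) ^ n * (1 + E1) := by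
      rw [h1.eq z, hE1d]
      ring
    have e2 : f2 z = (z + 2) ^ m * (2 - z) ^ (n + 1) * (1 + E2) := by
      rw [h2.eq z, hE2d]
      ring
    have e3 : f1 z + f2 z = (z + 2) ^ m * (2 - z) ^ n * (4 + (z + 2) * E1 + (2 - z) * E2) := by
      rw [e1, e2]
      ring
    have hb1 : ‖z + 2‖ ≤ 2 * ‖z‖ := by
      calc ‖z + 2‖ ≤ ‖z‖ + ‖(2 : ℂ)‖ := norm_add_le _ _
        _ ≤ 2 * ‖z‖ := by rw [Complex.norm_ofNat]; linarith
    have hb2 : ‖2 - z‖ ≤ 2 * ‖z‖ := by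
      calc ‖2 - z‖ ≤ ‖(2 : ℂ)‖ + ‖z‖ := norm_sub_le _ _
        _ ≤ 2 * ‖z‖ := by rw [Complex.norm_ofNat]; linarith
    have hb3 : ‖4 + (z + 2) * E1 + (2 - z) * E2‖ ≤ 4 + 2 * K1 + 2 * K2 := by
      have h5 : ‖(z + 2) * E1‖ ≤ 2 * K1 := by
        rw [norm_mul]
        calc ‖z + 2‖ * ‖E1‖ ≤ (2 * ‖z‖) * (K1 / ‖z‖) :=
              mul_le_mul hb1 hE1' (norm_nonneg _) (by positivity)
          _ = 2 * K1 := by field_simp
      have h6 : ‖(2 - z) * E2‖ ≤ 2 * K2 := by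
        rw [norm_mul]
        calc ‖2 - z‖ * ‖E2‖ ≤ (2 * ‖z‖) * (K2 / ‖z‖) :=
              mul_le_mul hb2 hE2' (norm_nonneg _) (by positivity)
          _ = 2 * K2 := by field_simp
      calc ‖4 + (z + 2) * E1 + (2 - z) * E2‖ ≤ ‖4 + (z + 2) * E1‖ + ‖(2 - z) * E2‖ :=
            norm_add_le _ _
        _ ≤ (‖(4 : ℂ)‖ + ‖(z + 2) * E1‖) + ‖(2 - z) * E2‖ := by
            gcongr
            exact norm_add_le _ _
        _ ≤ 4 + 2 * K1 + 2 * K2 := by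
            rw [Complex.norm_ofNat]
            have : ((OfNat.ofNat 4 : ℝ)) = 4 := rfl
            linarith
    have hb4 : ‖(z + 2) ^ m * (2 - z) ^ n‖ ≤ 2 ^ (m + n) * (1 + ‖z‖) ^ (m + n) := by
      rw [norm_mul, norm_pow, norm_pow, ← mul_pow, pow_add]
      apply mul_le_mul
      · exact pow_le_pow_left₀ (norm_nonneg _) (by linarith) m
      · exact pow_le_pow_left₀ (norm_nonneg _) (by linarith) n
      · positivity
      · positivity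
    rw [e3, norm_mul]
    calc ‖(z + 2) ^ m * (2 - z) ^ n‖ * ‖4 + (z + 2) * E1 + (2 - z) * E2‖
        ≤ (2 ^ (m + n) * (1 + ‖z‖) ^ (m + n)) * (4 + 2 * K1 + 2 * K2) :=
          mul_le_mul hb4 hb3 (norm_nonneg _) (by positivity)
      _ ≤ (2 ^ (m + n) * (4 + 2 * K1 + 2 * K2) + |C3|) * (1 + ‖z‖) ^ (m + n) := by
        have : 0 ≤ |C3| * (1 + ‖z‖) ^ (m + n) := by positivity
        nlinarith

theorem piece_rec (h1 : S_basic) (h2 : S_fasym) (h3 : S_freal) (h4 : S_unq) : S_rec := by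
  intro κ hκ0 hκ1 μ hμ m n f d f1 d1 f2 d2 hf hf1 hf2
  have hPN : PN μ (m + n) (fun z => f1 z + f2 z) := by
    refine ⟨hf1.pn.cont.add hf2.pn.cont, ?_, ?_, rec_growth μ m n f1 d1 f2 d2 hf1 hf2⟩
    · intro z
      rw [hf1.pn.symm, hf2.pn.symm, map_add]
    · obtain ⟨A1, B1, hW1, hB1⟩ := hf1.pn.bel
      obtain ⟨A2, B2, hW2, hB2⟩ := hf2.pn.bel
      refine ⟨_, _, h1.1 univ f1 A1 B1 f2 A2 B2 hW1 hW2, ?_⟩
      filter_upwards [hB1, hB2] with z hz1 hz2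
      rw [hz1, hz2, map_add]
      ring
  obtain ⟨_, ha1, hb1, _⟩ := h2 μ (m + 1) n f1 d1 hf1
  obtain ⟨_, ha2, hb2, _⟩ := h2 μ m (n + 1) f2 d2 hf2
  have hO1 : (fun z => f1 z + f2 z) =O[𝓝 (-2 : ℂ)] fun z => (z + 2) ^ m := by
    have h5 : (fun z : ℂ => (z + 2) ^ (m + 1)) =O[𝓝 (-2 : ℂ)] fun z => (z + 2) ^ m := by
      have h6 : (fun z : ℂ => z + 2) =O[𝓝 (-2 : ℂ)] fun _ => (1 : ℂ) :=
        (continuous_id.add continuous_const).continuousAt.isBigO_one ℂ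
      have h7 := (Asymptotics.isBigO_refl (fun z : ℂ => (z + 2) ^ m) (𝓝 (-2 : ℂ))).mul h6
      simpa only [pow_succ, mul_one] using h7
    exact (ha1.trans h5).add ha2
  have hO2 : (fun z => f1 z + f2 z) =O[𝓝 (2 : ℂ)] fun z => (z - 2) ^ n := by
    have h5 : (fun z : ℂ => (z - 2) ^ (n + 1)) =O[𝓝 (2 : ℂ)] fun z => (z - 2) ^ n := by
      have h6 : (fun z : ℂ => z - 2) =O[𝓝 (2 : ℂ)] fun _ => (1 : ℂ) :=
        (continuous_id.sub continuous_const).continuousAt.isBigO_one ℂ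
      have h7 := (Asymptotics.isBigO_refl (fun z : ℂ => (z - 2) ^ n) (𝓝 (2 : ℂ))).mul h6
      simpa only [pow_succ, mul_one] using h7
    exact hb1.add (hb2.trans h5)
  obtain ⟨c, hc⟩ := h4 κ hκ0 hκ1 μ hμ m n f d _ hf hPN hO1 hO2
  refine ⟨c, ?_, hc⟩
  have p0 := (h3 μ m n f d hf 0).2.2 (by norm_num) (by norm_num)
  have p1 := (h3 μ (m + 1) n f1 d1 hf1 0).2.2 (by norm_num) (by norm_num)
  have p2 := (h3 μ m (n + 1) f2 d2 hf2 0).2.2 (by norm_num) (by norm_num)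
  have h5 := congrArg Complex.re (hc ((0 : ℝ) : ℂ))
  rw [Complex.add_re, Complex.re_ofReal_mul] at h5
  by_contra hneg
  rw [not_lt] at hneg
  nlinarith [mul_nonneg_of_nonpos_of_nonpos hneg (neg_nonpos.mpr p0.le)]

end

end Cal
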