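import Pool.Agent.Lib.MP_4ea4c7_an.Stm1
import Pool.Agent.Lib.MP_4ea4c7_an.StmC
import Pool.Agent.Lib.MP_4ea4c7_an.P_pairD

/-! [HC5] Residue at infinity. -/

open MeasureTheory Complex Metric Set Filter Topology
open scoped ComplexConjugate ENNReal NNReal

namespace Cal

namespace ResAux

open PairDAux WedgeAux

/-- removable singularity at infinity -/
theorem rs_inf {F : ℂ → ℂ} {a : ℂ} (hF : DifferentiableOn ℂ F {z : ℂ | 1 < ‖z‖})
    (ht : Tendsto F (cocompact ℂ) (𝓝 a)) :
    DifferentiableOn ℂ (Function.update (fun w => F w⁻¹) 0 a) (ball 0 1) := by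
  rw [← differentiableOn_compl_singleton_and_continuousAt_iff (ball_mem_nhds (0 : ℂ) one_pos)]
  constructor
  · have h1 : DifferentiableOn ℂ (fun w => F w⁻¹) (ball 0 1 \ {0}) := by
      have hinv : DifferentiableOn ℂ (fun w : ℂ => w⁻¹) (ball 0 1 \ {0}) :=
        differentiableOn_inv.mono fun w hw => hw.2
      refine hF.comp hinv fun w hw => ?_
      have hw0 : w ≠ 0 := hw.2
      have hw1 : ‖w‖ < 1 := by
        have := hw.1
        rwa [mem_ball, dist_zero_right] at this
      rw [mem_ofPred_eq, norm_inv]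
      exact (one_lt_inv₀ (norm_pos_iff.2 hw0)).2 hw1
    refine h1.congr fun w hw => ?_
    rw [Function.update_of_ne hw.2]
  · rw [continuousAt_update_same]
    rw [← Metric.cobounded_eq_cocompact] at ht
    exact ht.comp tendsto_inv₀_nhdsNE_zero

/-- a function with a limit at infinity: the derivative is `o(1/z)` -/
theorem rs_deriv {F : ℂ → ℂ} {a : ℂ} (hF : DifferentiableOn ℂ F {z : ℂ | 1 < ‖z‖})
    (ht : Tendsto F (cocompact ℂ) (𝓝 a)) :
    Tendsto (fun z => z * deriv F z) (cocompact ℂ) (𝓝 0) := by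
  set K : ℂ → ℂ := Function.update (fun w => F w⁻¹) 0 a with hK
  have hKd : DifferentiableOn ℂ K (ball 0 1) := rs_inf hF ht
  have hKc : ContinuousAt (deriv K) 0 :=
    ((hKd.deriv isOpen_ball).continuousOn).continuousAt (ball_mem_nhds (0 : ℂ) one_pos)
  rw [← Metric.cobounded_eq_cocompact]
  have hinv : Tendsto (fun z : ℂ => z⁻¹) (Bornology.cobounded ℂ) (𝓝 0) := tendsto_inv₀_cobounded
  have h1 : Tendsto (fun z : ℂ => -(deriv K z⁻¹ * z⁻¹)) (Bornology.cobounded ℂ) (𝓝 0) := by
    have := ((hKc.tendsto.comp hinv).mul hinv).neg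
    rwa [mul_zero, neg_zero] at this
  refine h1.congr' ?_
  have hbig : ∀ᶠ z : ℂ in Bornology.cobounded ℂ, 1 < ‖z‖ :=
    tendsto_norm_cobounded_atTop.eventually (eventually_gt_atTop 1)
  filter_upwards [hbig] with z hz
  have hz0 : z ≠ 0 := by
    intro h
    rw [h, norm_zero] at hz
    linarith
  have hzb : z⁻¹ ∈ ball (0 : ℂ) 1 := by
    rw [mem_ball, dist_zero_right, norm_inv]
    exact inv_lt_one_of_one_lt₀ hz
  have hFK : F =ᶠ[𝓝 z] fun w => K w⁻¹ := by
    filter_upwards [pd_open.mem_nhds (show z ∈ {w : ℂ | 1 < ‖w‖} from hz)] with w hw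
    have hw1 : 1 < ‖w‖ := hw
    have hw0 : w ≠ 0 := by
      intro h
      rw [h, norm_zero] at hw1
      linarith
    rw [hK, Function.update_of_ne (inv_ne_zero hw0), inv_inv]
  have hd : HasDerivAt (fun w => K w⁻¹) (deriv K z⁻¹ * (-(z ^ 2)⁻¹)) z :=
    (hKd.differentiableAt (isOpen_ball.mem_nhds hzb)).hasDerivAt.comp z (hasDerivAt_inv hz0)
  rw [hFK.deriv_eq, hd.deriv]
  field_simp

/-- asymptotics of `z f h'` -/
theorem rs_lim {f h : ℂ → ℂ} {l : ℕ} {c : ℂ}
    (hh : DifferentiableOn ℂ h {z : ℂ | 1 < ‖z‖})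
    (htf : Tendsto (fun z => f z / z ^ l) (cocompact ℂ) (𝓝 1))
    (hth : Tendsto (fun z => h z * z ^ l) (cocompact ℂ) (𝓝 c)) :
    Tendsto (fun z => z * (f z * deriv h z)) (cocompact ℂ) (𝓝 (-(l * c))) := by
  have hF : DifferentiableOn ℂ (fun z => h z * z ^ l) {z : ℂ | 1 < ‖z‖} :=
    hh.mul (differentiable_pow l).differentiableOn
  have h1 := rs_deriv hF hth
  have h2 := htf.mul (h1.sub (hth.const_mul (l : ℂ)))
  rw [zero_sub, one_mul] at h2
  refine h2.congr' ?_
  rw [← Metric.cobounded_eq_cocompact]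
  have hbig : ∀ᶠ z : ℂ in Bornology.cobounded ℂ, 1 < ‖z‖ :=
    tendsto_norm_cobounded_atTop.eventually (eventually_gt_atTop 1)
  filter_upwards [hbig] with z hz
  have hz0 : z ≠ 0 := by
    intro h
    rw [h, norm_zero] at hz
    linarith
  have hd : HasDerivAt (fun z => h z * z ^ l)
      (deriv h z * z ^ l + h z * ((l : ℂ) * z ^ (l - 1))) z :=
    (hh.differentiableAt (pd_open.mem_nhds hz)).hasDerivAt.mul (hasDerivAt_pow l z)
  rw [hd.deriv]
  have hzl : z ^ l ≠ 0 := pow_ne_zero _ hz0
  rcases Nat.eq_zero_or_pos l with rfl | hl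
  · simp
    ring
  · obtain ⟨k, rfl⟩ : ∃ k, l = k + 1 := ⟨l - 1, by omega⟩
    rw [Nat.add_sub_cancel]
    have hzk : z ^ k ≠ 0 := pow_ne_zero _ hz0
    field_simp
    ring

/-- the remainder -/
theorem rs_rem {g : ℂ → ℂ} {b : ℂ} (hg : DifferentiableOn ℂ g {z : ℂ | 1 < ‖z‖})
    (ht : Tendsto (fun z => z * g z) (cocompact ℂ) (𝓝 b)) :
    ∃ C : ℝ, 0 ≤ C ∧ ∀ z : ℂ, 2 ≤ ‖z‖ → ‖g z - b / z‖ ≤ C / ‖z‖ ^ 2 := by
  have hF : DifferentiableOn ℂ (fun z => z * g z) {z : ℂ | 1 < ‖z‖} := differentiableOn_id.mul hg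
  set M : ℂ → ℂ := Function.update (fun w => w⁻¹ * g w⁻¹) 0 b with hM
  have hMd : DifferentiableOn ℂ M (ball 0 1) := rs_inf hF ht
  have hMs : DifferentiableOn ℂ (dslope M 0) (ball 0 1) :=
    (differentiableOn_dslope (ball_mem_nhds (0 : ℂ) one_pos)).2 hMd
  have hsub : closedBall (0 : ℂ) (1 / 2) ⊆ ball 0 1 := closedBall_subset_ball (by norm_num)
  obtain ⟨C, hC⟩ := (isCompact_closedBall (0 : ℂ) (1 / 2)).exists_bound_of_continuousOn
    (hMs.continuousOn.mono hsub)
  refine ⟨|C|, abs_nonneg _, fun z hz => ?_⟩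
  have hzp : 0 < ‖z‖ := by linarith
  have hz0 : z ≠ 0 := norm_pos_iff.1 hzp
  have hzi : z⁻¹ ∈ closedBall (0 : ℂ) (1 / 2) := by
    rw [mem_closedBall, dist_zero_right, norm_inv, one_div]
    exact inv_anti₀ (by norm_num) hz
  have h1 := sub_smul_dslope M 0 z⁻¹
  have h2 : M z⁻¹ = z * g z := by
    rw [hM, Function.update_of_ne (inv_ne_zero hz0), inv_inv]
  have h3 : M 0 = b := by rw [hM, Function.update_self]
  rw [h2, h3, sub_zero, smul_eq_mul] at h1
  have h4 : g z - b / z = z⁻¹ * (z⁻¹ * dslope M 0 z⁻¹) := by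
    rw [h1]
    field_simp
  rw [h4, norm_mul, norm_mul, norm_inv]
  have h5 := (hC _ hzi).trans (le_abs_self C)
  have h6 : |C| / ‖z‖ ^ 2 = ‖z‖⁻¹ * (‖z‖⁻¹ * |C|) := by
    field_simp
  rw [h6]
  exact mul_le_mul_of_nonneg_left (mul_le_mul_of_nonneg_left h5 (by positivity)) (by positivity)

end ResAux

open ResAux PairDAux WedgeAux in
theorem piece_res (h1 : S_pomp) (h2 : S_cut) (h3 : S_smooth) (h4 : S_bridge) : S_res := by
  intro χ f h l c δ hδ hχ χ1 hf hh _ htf hth
  set U : Set ℂ := {z : ℂ | 1 < ‖z‖} with hU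
  have hUo : IsOpen U := pd_open
  have hUne : ∀ z ∈ U, z ≠ 0 := by
    intro z hz h0
    have hz1 : 1 < ‖z‖ := hz
    rw [h0, norm_zero] at hz1
    linarith
  -- general facts on `db` of a cutoff
  have cut : ∀ (η : ℂ → ℝ) (d : ℝ), RTF univ η → 0 < d → (∀ z, ‖z‖ < 1 + d → η z = 1) →
      TF U (db (fun w => ((η w : ℝ) : ℂ))) := by
    intro η d hη hd η1
    have hcd : ContDiff ℝ (⊤ : ℕ∞) (fun w => ((η w : ℝ) : ℂ)) := ofRealCLM.contDiff.comp hη.1
    have hcs : HasCompactSupport (fun w => ((η w : ℝ) : ℂ)) := hη.2.1.comp_left ofReal_zero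
    have h := tf_db hcd hcs
    refine ⟨h.1, h.2.1, ?_⟩
    have h4 : tsupport (db (fun w => ((η w : ℝ) : ℂ))) ⊆ {z : ℂ | 1 + d ≤ ‖z‖} := by
      refine closure_minimal (fun z hz => ?_) (isClosed_le continuous_const continuous_norm)
      by_contra hcon
      have hcon' : ‖z‖ < 1 + d := not_le.1 hcon
      apply hz
      have hev : (fun w => ((η w : ℝ) : ℂ)) =ᶠ[𝓝 z] fun _ => 1 := by
        filter_upwards [(isOpen_lt continuous_norm continuous_const).mem_nhds
          (show z ∈ {w : ℂ | ‖w‖ < 1 + d} from hcon')] with w hw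
        have hw' : ‖w‖ < 1 + d := hw
        rw [η1 w hw', ofReal_one]
      unfold db
      rw [hev.fderiv_eq]
      simp
    refine h4.trans fun z (hz : 1 + d ≤ ‖z‖) => ?_
    have : 1 < ‖z‖ := by linarith
    exact this
  set X : ℂ → ℂ := db (fun w => ((χ w : ℝ) : ℂ)) with hX
  have tX : TF U X := cut χ δ hχ hδ χ1
  -- the function and its remainder
  set g : ℂ → ℂ := fun z => f z * deriv h z with hg
  set b : ℂ := -(l * c) with hb
  have hgd : DifferentiableOn ℂ g U := hf.mul (hh.deriv hUo)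
  obtain ⟨C, hC0, hC⟩ := rs_rem hgd (rs_lim hh htf hth)
  set r : ℂ → ℂ := fun z => g z - b / z with hr
  have hrd : DifferentiableOn ℂ r U :=
    hgd.sub ((differentiableOn_const b).div differentiableOn_id hUne)
  have ib : Integrable (fun z => X z * (b / z)) volume :=
    pd_int hUo tX (continuousOn_const.div continuousOn_id hUne)
  have ir : Integrable (fun z => X z * r z) volume := pd_int hUo tX hrd.continuousOn
  have split : ∫ z, X z * g z = (∫ z, X z * (b / z)) + ∫ z, X z * r z := by
    rw [← integral_add ib ir]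
    refine integral_congr_ae (Eventually.of_forall fun z => ?_)
    simp only [hr]
    ring
  -- the main term
  have main : ∫ z, X z * (b / z) = (Real.pi : ℂ) * l * c := by
    have hcd : ContDiff ℝ (⊤ : ℕ∞) (fun w => ((χ w : ℝ) : ℂ)) := ofRealCLM.contDiff.comp hχ.1
    have hcs : HasCompactSupport (fun w => ((χ w : ℝ) : ℂ)) := hχ.2.1.comp_left ofReal_zero
    have hp := h1 (fun w => ((χ w : ℝ) : ℂ)) ⟨hcd, hcs, subset_univ _⟩ 0
    have hχ0 : χ 0 = 1 := χ1 0 (by rw [norm_zero]; linarith)
    unfold Ct at hp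
    rw [hχ0, ofReal_one] at hp
    have e1 : ∫ ζ, X ζ / (0 - ζ) = (Real.pi : ℂ) := by
      have hpi : (Real.pi : ℂ) ≠ 0 := ofReal_ne_zero.2 Real.pi_ne_zero
      have := congrArg (fun t => (Real.pi : ℂ) * t) hp
      rw [← mul_assoc, mul_one_div_cancel hpi, one_mul, mul_one] at this
      exact this
    have e2 : (fun z => X z * (b / z)) = fun z => -b * (X z / (0 - z)) := by
      funext z
      rw [zero_sub, div_neg]
      ring
    rw [e2, integral_const_mul, e1, hb]
    ring
  -- the remainder term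
  have rem : ∫ z, X z * r z = 0 := by
    obtain ⟨M, hM0, hM⟩ := h2
    have key : ∀ ρ : ℝ, 2 ≤ ρ → ‖∫ z, X z * r z‖ ≤ (C * M * (4 * Real.pi)) / ρ := by
      intro ρ hρ
      obtain ⟨η, hη, -, -, η1, η0, ηg1, ηg2, ηg⟩ := hM ρ (by linarith)
      have η1' : ∀ z : ℂ, ‖z‖ < 1 + 1 → η z = 1 := fun z hz => η1 z (by linarith)
      set Xη : ℂ → ℂ := db (fun w => ((η w : ℝ) : ℂ)) with hXη
      have tXη : TF U Xη := cut η 1 hη one_pos η1'
      have irη : Integrable (fun z => Xη z * r z) volume := pd_int hUo tXη hrd.continuousOn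
      -- the two integrals agree
      have heq : ∫ z, X z * r z = ∫ z, Xη z * r z := by
        set ψ : ℂ → ℂ := fun w => ((χ w : ℝ) : ℂ) - ((η w : ℝ) : ℂ) with hψ
        have hcd1 : ContDiff ℝ (⊤ : ℕ∞) (fun w => ((χ w : ℝ) : ℂ)) := ofRealCLM.contDiff.comp hχ.1
        have hcd2 : ContDiff ℝ (⊤ : ℕ∞) (fun w => ((η w : ℝ) : ℂ)) := ofRealCLM.contDiff.comp hη.1
        have hψt : TF U ψ := by
          refine ⟨hcd1.sub hcd2, ?_, ?_⟩
          · exact (hχ.2.1.comp_left ofReal_zero).sub (hη.2.1.comp_left ofReal_zero)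
          · have h4 : tsupport ψ ⊆ {z : ℂ | 1 + min δ 1 ≤ ‖z‖} := by
              refine closure_minimal (fun z hz => ?_)
                (isClosed_le continuous_const continuous_norm)
              by_contra hcon
              have hcon' : ‖z‖ < 1 + min δ 1 := not_le.1 hcon
              apply hz
              rw [hψ]
              simp only
              rw [χ1 z (hcon'.trans_le (by linarith [min_le_left δ 1])),
                η1' z (hcon'.trans_le (by linarith [min_le_right δ 1])), sub_self]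
            refine h4.trans fun z (hz : 1 + min δ 1 ≤ ‖z‖) => ?_
            have h5 : 0 < min δ 1 := lt_min hδ one_pos
            have : 1 < ‖z‖ := by linarith
            exact this
        have hw := (h3.2.1 U r hUo hrd).hB ψ hψt
        simp only [zero_mul, integral_zero, neg_zero] at hw
        have hdψ : ∀ z, db ψ z = X z - Xη z := by
          intro z
          have e1 : fderiv ℝ ψ z = fderiv ℝ (fun w => ((χ w : ℝ) : ℂ)) z -
              fderiv ℝ (fun w => ((η w : ℝ) : ℂ)) z :=
            ((hcd1.differentiable (by simp) z).hasFDerivAt.sub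
              (hcd2.differentiable (by simp) z).hasFDerivAt).fderiv
          rw [hX, hXη]
          unfold db
          rw [e1]
          simp only [sub_apply]
          ring
        have e3 : ∫ z, r z * db ψ z = (∫ z, X z * r z) - ∫ z, Xη z * r z := by
          rw [← integral_sub ir irη]
          refine integral_congr_ae (Eventually.of_forall fun z => ?_)
          simp only
          rw [hdψ]
          ring
        rw [e3] at hw
        exact sub_eq_zero.1 hw
      rw [heq]
      -- the estimate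
      have hρ0 : 0 < ρ := by linarith
      have hηd : Differentiable ℝ η := hη.1.differentiable (by simp)
      have hXηgr : ∀ z, gr η z = 2 * Xη z := fun z => h4.2.2.2 η z (hηd z)
      have hzero : ∀ z, z ∉ closedBall (0 : ℂ) (2 * ρ) → Xη z * r z = 0 := by
        intro z hz
        rw [mem_closedBall, dist_zero_right, not_le] at hz
        have e1 := hXηgr z
        rw [ηg2 z hz] at e1
        have e2 : Xη z = 0 := by
          rcases mul_eq_zero.1 e1.symm with h | h
          · norm_num at h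
          · exact h
        rw [e2, zero_mul]
      rw [← setIntegral_eq_integral_of_forall_compl_eq_zero hzero]
      have hbd : ∀ z ∈ closedBall (0 : ℂ) (2 * ρ), ‖Xη z * r z‖ ≤ (M / ρ) * (C / ρ ^ 2) := by
        intro z _
        have hpos : 0 ≤ (M / ρ) * (C / ρ ^ 2) := by positivity
        rcases lt_or_ge ‖z‖ ρ with hz | hz
        · have e1 := hXηgr z
          rw [ηg1 z hz] at e1
          have e2 : Xη z = 0 := by
            rcases mul_eq_zero.1 e1.symm with h | h
            · norm_num at h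
            · exact h
          rw [e2, zero_mul, norm_zero]
          exact hpos
        · rw [norm_mul]
          have e1 : ‖Xη z‖ ≤ M / ρ := by
            have e2 := ηg z
            rw [hXηgr z, norm_mul] at e2
            have e3 : ‖(2 : ℂ)‖ = 2 := by norm_num
            rw [e3] at e2
            linarith [norm_nonneg (Xη z)]
          have e2 : ‖r z‖ ≤ C / ρ ^ 2 := by
            refine (hC z (by linarith)).trans ?_
            exact div_le_div_of_nonneg_left hC0 (by positivity) (by nlinarith)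
          exact mul_le_mul e1 e2 (norm_nonneg _) (by positivity)
      have hvol : volume (closedBall (0 : ℂ) (2 * ρ)) < ∞ := measure_closedBall_lt_top
      refine (norm_setIntegral_le_of_norm_le_const hvol hbd).trans ?_
      have hv : volume.real (closedBall (0 : ℂ) (2 * ρ)) = Real.pi * (2 * ρ) ^ 2 := by
        rw [Measure.real, Complex.volume_closedBall, ENNReal.toReal_mul, ENNReal.toReal_pow,
          ENNReal.toReal_ofReal (by positivity)]
        simp [mul_comm]
      rw [hv]
      apply le_of_eq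
      field_simp
      ring
    by_contra hne
    have hpos : 0 < ‖∫ z, X z * r z‖ := norm_pos_iff.2 hne
    set E : ℝ := ‖∫ z, X z * r z‖ with hE
    have hA : 0 ≤ C * M * (4 * Real.pi) := by positivity
    have := key (max 2 ((C * M * (4 * Real.pi)) / E + 1)) (le_max_left _ _)
    have h5 : (C * M * (4 * Real.pi)) / E < max 2 ((C * M * (4 * Real.pi)) / E + 1) :=
      lt_of_lt_of_le (by linarith) (le_max_right _ _)
    have h6 : 0 < max 2 ((C * M * (4 * Real.pi)) / E + 1) :=
      lt_of_lt_of_le (by norm_num) (le_max_left _ _)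
    rw [le_div_iff₀ h6] at this
    rw [div_lt_iff₀ hpos] at h5
    linarith
  rw [split, main, rem, add_zero]

end Cal
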