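import Pool.Agent.Lib.MP_4ea4c7_an.StmD

open MeasureTheory Complex Metric Set Filter Topology
open scoped ComplexConjugate ENNReal NNReal Manifold

namespace Cal

private lemma sep_cond {κ : ℝ} (h0 : 0 ≤ κ) (h1 : κ < 1) {μ : ℂ → ℝ} (h : Mu κ 1 μ) :
    Cond ((1 - κ) / (1 + κ)) ((1 + κ) / (1 - κ)) (gam μ) := by
  refine ⟨?_, ?_, ?_⟩
  · have : Measurable fun z => (1 + μ z) / (1 - μ z) :=
      (measurable_const.add h.meas).div (measurable_const.sub h.meas)
    exact this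
  · intro z
    have hz := abs_le.mp (h.bd z)
    show (1 - κ) / (1 + κ) ≤ (1 + μ z) / (1 - μ z)
    rw [div_le_div_iff₀ (by linarith) (by linarith [hz.2])]
    nlinarith [hz.1, hz.2]
  · intro z
    have hz := abs_le.mp (h.bd z)
    show (1 + μ z) / (1 - μ z) ≤ (1 + κ) / (1 - κ)
    rw [div_le_div_iff₀ (by linarith [hz.2]) (by linarith)]
    nlinarith [hz.1, hz.2]

private lemma sep_HB_open : IsOpen HB := by
  have : HB = {z : ℂ | ‖z‖ < 1} ∩ {z : ℂ | 0 < z.im} := rfl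
  rw [this]
  exact (isOpen_lt continuous_norm continuous_const).inter
    (isOpen_lt continuous_const Complex.continuous_im)

private lemma sep_gr_memLp {U : Set ℂ} {φ : ℂ → ℝ} (h : RTF U φ) :
    MemLp (gr φ) 2 (volume.restrict HB) := by
  obtain ⟨h1, h2, -⟩ := h
  have hd : Continuous (fderiv ℝ φ) := h1.continuous_fderiv (by simp)
  have hc : Continuous (gr φ) := by
    unfold gr
    have e1 : Continuous fun z => fderiv ℝ φ z 1 := hd.clm_apply continuous_const
    have e2 : Continuous fun z => fderiv ℝ φ z I := hd.clm_apply continuous_const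
    exact (Complex.continuous_ofReal.comp e1).add
      (continuous_const.mul (Complex.continuous_ofReal.comp e2))
  have hs : HasCompactSupport (gr φ) := by
    refine HasCompactSupport.intro h2 (fun z hz => ?_)
    unfold gr
    rw [fderiv_of_notMem_tsupport ℝ hz]
    simp
  exact (hc.memLp_of_hasCompactSupport hs).restrict _

/-- an even cutoff function -/
private lemma sep_eta (K : Set ℂ) (hK : IsCompact K) (hK1 : K ⊆ ball 0 1)
    (hKs : ∀ z ∈ K, conj z ∈ K) (t : ℝ) (hKt : ∀ z ∈ K, z.im = 0 → t < z.re) :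
    ∃ η : ℂ → ℝ, EvTF η ∧ (∀ z, 0 ≤ η z) ∧ (∀ z ∈ K, η z = 1) ∧ ∀ z ∈ axis η, t < z.re := by
  -- the open set
  set C : Set ℂ := {z : ℂ | 1 ≤ ‖z‖} ∪ {z : ℂ | z.im = 0 ∧ z.re ≤ t} with hC
  have hCcl : IsClosed C := by
    refine (isClosed_le continuous_const continuous_norm).union ?_
    exact (isClosed_eq Complex.continuous_im continuous_const).inter
      (isClosed_le Complex.continuous_re continuous_const)
  have hdisj : Disjoint C K := by
    rw [Set.disjoint_left]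
    rintro z (hz | hz) hzK
    · have := hK1 hzK
      rw [mem_ball_zero_iff] at this
      exact absurd hz (not_le.mpr this)
    · exact absurd hz.2 (not_le.mpr (hKt z hzK hz.1))
  obtain ⟨f, hf0, hf1, hf⟩ := exists_contMDiffMap_zero_one_nhds_of_isClosed (n := (⊤ : ℕ∞))
    𝓘(ℝ, ℂ) hCcl hK.isClosed hdisj
  have hfs : ContDiff ℝ (⊤ : ℕ∞) (f : ℂ → ℝ) := f.contMDiff.contDiff
  have hfsupp : tsupport (f : ℂ → ℝ) ⊆ Cᶜ := by
    rw [eventually_nhdsSet_iff_exists] at hf0
    obtain ⟨V, hV, hCV, hV0⟩ := hf0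
    have h1 : tsupport (f : ℂ → ℝ) ⊆ Vᶜ := by
      refine closure_minimal ?_ hV.isClosed_compl
      intro z hz hzV
      exact hz (hV0 z hzV)
    exact h1.trans (compl_subset_compl.mpr hCV)
  -- symmetrize
  let η : ℂ → ℝ := fun z => (f z + f (conj z)) / 2
  have hηs : ContDiff ℝ (⊤ : ℕ∞) η := by
    have h1 : ContDiff ℝ (⊤ : ℕ∞) fun z : ℂ => f (conj z) :=
      hfs.comp Complex.conjCLE.contDiff
    exact (hfs.add h1).div_const 2
  have hCs : ∀ z, z ∈ C → conj z ∈ C := by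
    rintro z (hz | hz)
    · left
      have h1 : (1 : ℝ) ≤ ‖z‖ := hz
      show (1 : ℝ) ≤ ‖conj z‖
      rw [Complex.norm_conj]
      exact h1
    · right
      refine ⟨?_, ?_⟩
      · rw [Complex.conj_im, hz.1, neg_zero]
      · rw [Complex.conj_re]
        exact hz.2
  have hηsupp : tsupport η ⊆ Cᶜ := by
    have h1 : tsupport η ⊆ tsupport (f : ℂ → ℝ) ∪ (fun z : ℂ => conj z) ⁻¹' tsupport (f : ℂ → ℝ) := by
      refine closure_minimal ?_ ((isClosed_tsupport _).union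
        ((isClosed_tsupport _).preimage Complex.continuous_conj))
      intro z hz
      by_contra hcon
      rw [mem_union, not_or] at hcon
      apply hz
      have h2 : f z = 0 := image_eq_zero_of_notMem_tsupport hcon.1
      have h3 : f (conj z) = 0 := image_eq_zero_of_notMem_tsupport hcon.2
      show (f z + f (conj z)) / 2 = 0
      rw [h2, h3]
      simp
    intro z hz hzC
    rcases h1 hz with h2 | h2
    · exact hfsupp h2 hzC
    · exact hfsupp h2 (hCs z hzC)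
  have hηball : tsupport η ⊆ ball 0 1 := by
    intro z hz
    rw [mem_ball_zero_iff]
    by_contra hcon
    exact hηsupp hz (Or.inl (not_lt.mp hcon))
  have hηc : HasCompactSupport η := by
    have : IsCompact (tsupport η) :=
      (isCompact_closedBall (0 : ℂ) 1).of_isClosed_subset (isClosed_tsupport _)
        (hηball.trans ball_subset_closedBall)
    exact this
  refine ⟨η, ⟨⟨hηs, hηc, hηball⟩, ?_⟩, ?_, ?_, ?_⟩
  · intro z
    show (f (conj z) + f (conj (conj z))) / 2 = (f z + f (conj z)) / 2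
    rw [Complex.conj_conj, add_comm]
  · intro z
    have h1 := (hf z).1
    have h2 := (hf (conj z)).1
    show 0 ≤ (f z + f (conj z)) / 2
    linarith
  · intro z hz
    have h1 : f z = 1 := hf1.self_of_nhdsSet z hz
    have h2 : f (conj z) = 1 := hf1.self_of_nhdsSet _ (hKs z hz)
    show (f z + f (conj z)) / 2 = 1
    rw [h1, h2]
    norm_num
  · rintro z ⟨hz1, hz2⟩
    by_contra hcon
    exact hηsupp hz2 (Or.inr ⟨hz1, not_lt.mp hcon⟩)

theorem piece_sep (h1 : S_sep0) (h2 : S_bb) : S_sep := by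
  intro κ hκ0 hκ1 μ₁ μ₂ hμ₁ hμ₂ hH hP hL φ ψ hφ hψ t hφt hψt
  have hφtf := hφ.tf
  obtain ⟨hφs, hφc, hφb⟩ := hφtf
  have hKs : ∀ z ∈ tsupport φ, conj z ∈ tsupport φ := by
    intro z hz
    have h3 : (fun z : ℂ => conj z) '' Function.support φ ⊆ Function.support φ := by
      rintro _ ⟨w, hw, rfl⟩
      show φ (conj w) ≠ 0
      rw [hφ.symm]
      exact hw
    have h4 : (fun z : ℂ => conj z) '' closure (Function.support φ) ⊆ closure (Function.support φ) :=
      (image_closure_subset_closure_image Complex.continuous_conj).trans (closure_mono h3)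
    exact h4 ⟨z, hz, rfl⟩
  obtain ⟨η, hη, hη0, hη1, hηt⟩ := sep_eta (tsupport φ) hφc hφb hKs t
    (fun z hz hz0 => hφt z ⟨hz0, hz⟩)
  obtain ⟨hηs, hηc, hηb⟩ := hη.tf
  obtain ⟨M, hM⟩ := hφc.exists_bound_of_continuous hφs.continuous
  have hM0 : 0 ≤ M := (norm_nonneg _).trans (hM 0)
  let φ₁ : ℂ → ℝ := fun z => M * η z
  let φ₂ : ℂ → ℝ := fun z => M * η z - φ z
  have hφ₁supp : tsupport φ₁ ⊆ tsupport η := by
    refine closure_minimal ?_ (isClosed_tsupport _)
    intro z hz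
    by_contra hcon
    apply hz
    show M * η z = 0
    rw [image_eq_zero_of_notMem_tsupport hcon, mul_zero]
  have hφ₂supp : tsupport φ₂ ⊆ tsupport η ∪ tsupport φ := by
    refine closure_minimal ?_ ((isClosed_tsupport _).union (isClosed_tsupport _))
    intro z hz
    by_contra hcon
    rw [mem_union, not_or] at hcon
    apply hz
    show M * η z - φ z = 0
    rw [image_eq_zero_of_notMem_tsupport hcon.1, image_eq_zero_of_notMem_tsupport hcon.2]
    simp
  have hs₁ : ContDiff ℝ (⊤ : ℕ∞) φ₁ := contDiff_const.mul hηs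
  have hs₂ : ContDiff ℝ (⊤ : ℕ∞) φ₂ := hs₁.sub hφs
  have hEv₁ : EvTF φ₁ := by
    refine ⟨⟨hs₁, ?_, hφ₁supp.trans hηb⟩, ?_⟩
    · have : IsCompact (tsupport φ₁) :=
        IsCompact.of_isClosed_subset hηc (isClosed_tsupport _) hφ₁supp
      exact this
    · intro z
      show M * η (conj z) = M * η z
      rw [hη.symm]
  have hEv₂ : EvTF φ₂ := by
    refine ⟨⟨hs₂, ?_, hφ₂supp.trans (union_subset hηb hφb)⟩, ?_⟩
    · have : IsCompact (tsupport φ₂) :=
        IsCompact.of_isClosed_subset (IsCompact.union hηc hφc) (isClosed_tsupport _) hφ₂supp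
      exact this
    · intro z
      show M * η (conj z) - φ (conj z) = M * η z - φ z
      rw [hη.symm, hφ.symm]
  have hpos₁ : ∀ x : ℝ, 0 ≤ φ₁ x := fun x => mul_nonneg hM0 (hη0 x)
  have hpos₂ : ∀ x : ℝ, 0 ≤ φ₂ x := by
    intro x
    show 0 ≤ M * η x - φ x
    by_cases hx : (x : ℂ) ∈ tsupport φ
    · have h3 := hM x
      rw [Real.norm_eq_abs] at h3
      have h4 := le_abs_self (φ x)
      rw [hη1 _ hx]
      linarith
    · rw [image_eq_zero_of_notMem_tsupport hx]
      have := hη0 x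
      simp only [sub_zero]
      positivity
  have hax₁ : ∀ z ∈ axis φ₁, t < z.re := fun z hz => hηt z ⟨hz.1, hφ₁supp hz.2⟩
  have hax₂ : ∀ z ∈ axis φ₂, t < z.re := by
    rintro z ⟨hz1, hz2⟩
    rcases hφ₂supp hz2 with h | h
    · exact hηt z ⟨hz1, h⟩
    · exact hφt z ⟨hz1, h⟩
  have e1 := h1 κ hκ0 hκ1 μ₁ μ₂ hμ₁ hμ₂ hH hP hL φ₁ ψ hEv₁ hψ hpos₁ t hax₁ hψt
  have e2 := h1 κ hκ0 hκ1 μ₁ μ₂ hμ₁ hμ₂ hH hP hL φ₂ ψ hEv₂ hψ hpos₂ t hax₂ hψt
  have hgr : gr φ = fun z => gr φ₁ z + ((-1 : ℝ) : ℂ) * gr φ₂ z := by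
    funext z
    have d1 : DifferentiableAt ℝ φ₁ z := (hs₁.differentiable (by simp)) z
    have d2 : DifferentiableAt ℝ φ z := (hφs.differentiable (by simp)) z
    have h3 : fderiv ℝ φ₂ z = fderiv ℝ φ₁ z - fderiv ℝ φ z := by
      have : φ₂ = fun z => φ₁ z - φ z := rfl
      rw [this, fderiv_fun_sub d1 d2]
    simp only [gr]
    rw [h3]
    simp only [sub_apply]
    push_cast
    ring
  have hc : (0 : ℝ) < (1 - κ) / (1 + κ) := div_pos (by linarith) (by linarith)
  obtain ⟨b1, b2, -⟩ := h2 HB _ _ (gam μ₁) (gam μ₂) sep_HB_open hc (sep_cond hκ0 hκ1 hμ₁)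
    (sep_cond hκ0 hκ1 hμ₂)
  have m1 := sep_gr_memLp hEv₁.tf
  have m2 := sep_gr_memLp hEv₂.tf
  have m3 := sep_gr_memLp hψ.tf
  have e3 : bb HB (gam μ₁) (gam μ₂) (gr φ) (gr ψ) =
      bb HB (gam μ₁) (gam μ₂) (gr φ₁) (gr ψ) +
        (-1 : ℝ) * bb HB (gam μ₁) (gam μ₂) (gr φ₂) (gr ψ) := by
    rw [hgr, b1 _ _ _ m1 (m2.const_mul _) m3, b2 _ _ _ m2 m3]
  have e1' : bb HB (gam μ₁) (gam μ₂) (gr φ₁) (gr ψ) = 0 := e1
  have e2' : bb HB (gam μ₁) (gam μ₂) (gr φ₂) (gr ψ) = 0 := e2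
  show bb HB (gam μ₁) (gam μ₂) (gr φ) (gr ψ) = 0
  rw [e3, e1', e2']
  ring

end Cal
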