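import Pool.Agent.Lib.MP_4ea4c7_an.StmD

open MeasureTheory Complex Metric Set Filter Topology
open scoped ComplexConjugate ENNReal NNReal Manifold ContDiff

namespace Cal

theorem sep0_ip_I (a b : ℂ) : ip (I * a) b = cr a b := by
  unfold ip cr
  simp only [Complex.mul_re, Complex.mul_im, Complex.conj_re, Complex.conj_im, Complex.I_re, Complex.I_im]
  ring

theorem sep0_cr_anti (a b : ℂ) : cr a b = - cr b a := by
  unfold cr
  simp only [Complex.mul_im, Complex.conj_re, Complex.conj_im]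
  ring

theorem sep0_cr_sub (a b c : ℂ) : cr a (b - c) = cr a b - cr a c := by
  unfold cr
  rw [mul_sub, Complex.sub_im]

theorem sep0_cr_zero (b : ℂ) : cr 0 b = 0 := by
  unfold cr
  simp

theorem sep0_ip_smul (r : ℝ) (a b : ℂ) : ip ((r : ℂ) * a) b = r * ip a b := by
  unfold ip
  rw [mul_assoc, Complex.re_ofReal_mul]

theorem sep0_cond {κ : ℝ} (h0 : 0 ≤ κ) (h1 : κ < 1) {μ : ℂ → ℝ} (hμ : Mu κ 1 μ) :
    Cond ((1 - κ) / (1 + κ)) ((1 + κ) / (1 - κ)) (gam μ) := by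
  have hb : ∀ z, -κ ≤ μ z ∧ μ z ≤ κ := fun z => abs_le.mp (hμ.bd z)
  refine ⟨?_, fun z => ?_, fun z => ?_⟩
  · exact (measurable_const.add hμ.meas).div (measurable_const.sub hμ.meas)
  · obtain ⟨a, b⟩ := hb z
    unfold gam
    rw [div_le_div_iff₀ (by linarith) (by linarith)]
    nlinarith
  · obtain ⟨a, b⟩ := hb z
    unfold gam
    rw [div_le_div_iff₀ (by linarith) (by linarith)]
    nlinarith

theorem sep0_HB_open : IsOpen HB :=
  (isOpen_lt continuous_norm continuous_const).inter (isOpen_lt continuous_const Complex.continuous_im)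

theorem sep0_HB_sub : HB ⊆ UH := fun _ hz => hz.2

theorem sep0_HB_ball : HB ⊆ closedBall (0 : ℂ) 1 := fun _ hz => mem_closedBall_zero_iff.mpr (le_of_lt hz.1)

theorem sep0_frontier {z : ℂ} (hz : z ∈ frontier HB) : 1 ≤ ‖z‖ ∨ (‖z‖ < 1 ∧ z.im = 0) := by
  rw [sep0_HB_open.frontier_eq] at hz
  obtain ⟨hc, hn⟩ := hz
  have h1 : 0 ≤ z.im := by
    have h2 : closure HB ⊆ {z : ℂ | 0 ≤ z.im} :=
      closure_minimal (fun w hw => le_of_lt hw.2) (isClosed_le continuous_const Complex.continuous_im)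
    exact h2 hc
  by_cases h : 1 ≤ ‖z‖
  · exact Or.inl h
  · push Not at h
    refine Or.inr ⟨h, ?_⟩
    by_contra h3
    exact hn ⟨h, lt_of_le_of_ne h1 (Ne.symm h3)⟩

theorem sep0_gr_zero {φ : ℂ → ℝ} {z : ℂ} (hz : z ∉ tsupport φ) : gr φ z = 0 := by
  have h1 : φ =ᶠ[𝓝 z] 0 := notMem_tsupport_iff_eventuallyEq.mp hz
  have h2 : fderiv ℝ φ z = 0 := by
    rw [h1.fderiv_eq]
    change fderiv ℝ (fun _ => (0 : ℝ)) z = 0
    rw [fderiv_fun_const]
    rfl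
  unfold gr
  rw [h2]
  simp

theorem sep0_gr_cont {φ : ℂ → ℝ} (hφ : RTF univ φ) : Continuous (gr φ) := by
  have h1 : Continuous (fderiv ℝ φ) := hφ.1.continuous_fderiv (by simp)
  have h2 : ∀ v : ℂ, Continuous (fun z => fderiv ℝ φ z v) := fun v => h1.clm_apply continuous_const
  unfold gr
  exact (Complex.continuous_ofReal.comp (h2 1)).add
    (continuous_const.mul (Complex.continuous_ofReal.comp (h2 I)))

theorem sep0_gr_supp {φ : ℂ → ℝ} (hφ : RTF univ φ) : HasCompactSupport (gr φ) :=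
  HasCompactSupport.intro hφ.2.1 (fun _ hz => sep0_gr_zero hz)

theorem sep0_gr_mem {φ : ℂ → ℝ} (hφ : RTF univ φ) : MemLp (gr φ) 2 volume :=
  (sep0_gr_cont hφ).memLp_of_hasCompactSupport (sep0_gr_supp hφ)

theorem sep0_wg_gr (h6 : S_bridge) {φ : ℂ → ℝ} (hφ : RTF univ φ) : WG univ φ (gr φ) :=
  h6.2.2.1 univ φ isOpen_univ (hφ.1.of_le (by simp)).contDiffOn

theorem sep0_wg_sub (h6 : S_bridge) (hb : S_basic) {U : Set ℂ} {u v : ℂ → ℝ} {G H : ℂ → ℂ}
    (hu : WG U u G) (hv : WG U v H) : WG U (fun z => u z - v z) (fun z => G z - H z) := by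
  have a1 := h6.2.1 U u G hu
  have a2 := hb.2.1 U _ _ _ (-1) (h6.2.1 U v H hv)
  have a4 := hb.1 U _ _ _ _ _ _ a1 a2
  have a5 := (h6.1 U _ _ _ a4).1
  have e1 : (fun z => ((u z : ℂ) + -1 * (v z : ℂ)).re) = fun z => u z - v z := by
    funext z
    simp [sub_eq_add_neg]
  have e2 : (fun z => conj (conj (G z) / 2 + -1 * (conj (H z) / 2)) + (G z / 2 + -1 * (H z / 2)))
      = fun z => G z - H z := by
    funext z
    simp only [map_add, map_mul, map_div₀, Complex.conj_conj, map_neg, map_one, map_ofNat]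
    ring
  rw [e1, e2] at a5
  exact a5

theorem sep0_wg_mono {U V : Set ℂ} {u : ℂ → ℝ} {G : ℂ → ℂ} (hVU : V ⊆ U) (h : WG U u G) : WG V u G :=
  ⟨fun K hK hKV => h.u2 K hK (hKV.trans hVU), fun K hK hKV => h.G2 K hK (hKV.trans hVU),
    fun φ hφ => h.h φ ⟨hφ.1, hφ.2.1, hφ.2.2.trans hVU⟩⟩

theorem sep0_mem {u : ℂ → ℝ} {G : ℂ → ℂ} (h : WG univ u G) : MemLp G 2 (volume.restrict HB) :=
  (h.G2 (closedBall 0 1) (isCompact_closedBall _ _) (subset_univ _)).mono_measure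
    (Measure.restrict_mono sep0_HB_ball le_rfl)

theorem sep0_z0 (h3 : S_zb) {u : ℂ → ℝ} {G : ℂ → ℂ} (hu : Continuous u)
    (h0 : ∀ z ∈ frontier HB, u z = 0) (hwg : WG univ u G) : Z0 HB G := by
  refine ⟨sep0_mem hwg, fun ε hε => ?_⟩
  obtain ⟨φ, hφ, -, h⟩ := h3 HB u G sep0_HB_open (isBounded_closedBall.subset sep0_HB_ball)
    hu.continuousOn h0 (sep0_wg_mono (subset_univ _) hwg) (sep0_mem hwg) ε hε
  exact ⟨φ, hφ, h⟩

/-- the cutoff of `S_ksdn` exists -/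
theorem sep0_cut {φ : ℂ → ℝ} (hφ : EvTF φ) : ∃ χ : ℂ → ℝ, RTF univ χ ∧ (∀ z, χ (conj z) = χ z) ∧
    (∀ᶠ z in 𝓝ˢ (tsupport φ), χ z = 0) ∧ (∃ r : ℝ, r < 1 ∧ ∀ z : ℂ, r ≤ ‖z‖ → ‖z‖ ≤ 1 → χ z = 1) := by
  obtain ⟨r', hr', hsub⟩ := exists_lt_subset_ball (isClosed_tsupport φ) hφ.tf.2.2
  set s : ℝ := (max r' 0) ^ 2 with hs
  have hs1 : s < 1 := by
    have h1 : max r' 0 < 1 := max_lt hr' one_pos
    have h2 : 0 ≤ max r' 0 := le_max_right _ _
    rw [hs]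
    nlinarith
  have hs0 : 0 ≤ s := by positivity
  have hbs : 0 < (1 + s) / 2 - s := by linarith
  refine ⟨fun z => Real.smoothTransition ((‖z‖ ^ 2 - s) / ((1 + s) / 2 - s)) *
    Real.smoothTransition (2 - ‖z‖ ^ 2), ⟨?_, ?_, subset_univ _⟩, ?_, ?_, ?_⟩
  · refine ContDiff.mul ?_ ?_
    · exact Real.smoothTransition.contDiff.comp (((contDiff_norm_sq ℝ).sub contDiff_const).div_const _)
    · exact Real.smoothTransition.contDiff.comp (contDiff_const.sub (contDiff_norm_sq ℝ))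
  · refine HasCompactSupport.intro (isCompact_closedBall (0 : ℂ) 2) (fun z hz => ?_)
    rw [mem_closedBall_zero_iff, not_le] at hz
    have h1 : Real.smoothTransition (2 - ‖z‖ ^ 2) = 0 :=
      Real.smoothTransition.zero_of_nonpos (by nlinarith)
    simp only [h1, mul_zero]
  · intro z
    simp only [RCLike.norm_conj]
  · filter_upwards [isOpen_ball.mem_nhdsSet.mpr hsub] with z hz
    rw [mem_ball_zero_iff] at hz
    have h1 : ‖z‖ ^ 2 ≤ s := by
      have h2 : ‖z‖ ≤ max r' 0 := hz.le.trans (le_max_left _ _)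
      exact pow_le_pow_left₀ (norm_nonneg _) h2 2
    have h3 : Real.smoothTransition ((‖z‖ ^ 2 - s) / ((1 + s) / 2 - s)) = 0 :=
      Real.smoothTransition.zero_of_nonpos (div_nonpos_of_nonpos_of_nonneg (by linarith) hbs.le)
    simp only [h3, zero_mul]
  · refine ⟨Real.sqrt ((1 + s) / 2), ?_, fun z hz1 hz2 => ?_⟩
    · rw [Real.sqrt_lt' one_pos]
      linarith
    · have h1 : (1 + s) / 2 ≤ ‖z‖ ^ 2 := by
        rw [← Real.sqrt_le_left (norm_nonneg z)]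
        exact hz1
      have h2 : Real.smoothTransition ((‖z‖ ^ 2 - s) / ((1 + s) / 2 - s)) = 1 :=
        Real.smoothTransition.one_of_one_le (by rw [le_div_iff₀ hbs]; linarith)
      have h3 : Real.smoothTransition (2 - ‖z‖ ^ 2) = 1 :=
        Real.smoothTransition.one_of_one_le (by nlinarith [norm_nonneg z])
      simp only [h2, h3, mul_one]

/-- a smooth function equal to one near a compact set and to zero near a disjoint closed set -/
theorem sep0_urysohn {K F : Set ℂ} (hK : IsClosed K) (hF : IsClosed F) (hd : Disjoint F K) :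
    ∃ χ : ℂ → ℝ, ContDiff ℝ (⊤ : ℕ∞) χ ∧ (∀ᶠ z in 𝓝ˢ F, χ z = 0) ∧ (∀ᶠ z in 𝓝ˢ K, χ z = 1) := by
  obtain ⟨f, h0, h1, -⟩ := exists_contMDiffMap_zero_one_nhds_of_isClosed (n := (⊤ : ℕ∞)) 𝓘(ℝ, ℂ) hF hK hd
  exact ⟨f, f.contMDiff.contDiff, h0, h1⟩

theorem sep0_dz_const {g : ℂ → ℂ} {z : ℂ} (h : g =ᶠ[𝓝 z] fun _ => 1) : dz g z = 0 ∧ db g z = 0 := by
  have h1 : fderiv ℝ g z = 0 := by
    rw [h.fderiv_eq, fderiv_fun_const]
    rfl
  unfold dz db
  rw [h1]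
  simp

theorem piece_sep0 (h1 : S_ksdn) (h2 : S_52) (h3 : S_zb) (h4 : S_bb) (h5 : S_zz) (h6 : S_bridge) (h7 : S_smooth)
    (h8 : S_wedge) (h9 : S_ks) (h10 : S_dnex) (h11 : S_z0) (h12 : S_basic) : S_sep0 := by
  intro κ h0 hκ μ₁ μ₂ hμ₁ hμ₂ hH hP hL φ ψ hφ hψ hφ0 t hφt hψt
  obtain ⟨k₁, A₁, B₁, hk₁⟩ := (h9 κ h0 hκ μ₁ hμ₁ φ hφ).1
  obtain ⟨k₂, A₂, B₂, hk₂⟩ := (h9 κ h0 hκ μ₂ hμ₂ φ hφ).1
  have hout : ∀ z, 1 ≤ ‖z‖ → k₁ z = k₂ z := hP φ k₁ A₁ B₁ k₂ A₂ B₂ hφ hk₁ hk₂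
  have hleft : ∀ x : ℝ, -2 < x → x ≤ t → k₁ x = k₂ x := hL φ k₁ A₁ B₁ k₂ A₂ B₂ hφ hφ0 hk₁ hk₂ t hφt
  obtain ⟨χ, hχ, hχs, hχ0, hχ1⟩ := sep0_cut hφ
  obtain ⟨ha₁, hb₁⟩ := h1 κ h0 hκ μ₁ hμ₁ φ k₁ A₁ B₁ hφ hk₁
  obtain ⟨ha₂, hb₂⟩ := h1 κ h0 hκ μ₂ hμ₂ φ k₂ A₂ B₂ hφ hk₂
  obtain ⟨hO₁, hD₁⟩ := hb₁ χ hχ hχs hχ0 hχ1
  obtain ⟨hO₂, hD₂⟩ := hb₂ χ hχ hχs hχ0 hχ1
  set T₁ : ℂ → ℂ := fun z => (χ z : ℂ) * (I * (conj (A₁ z) - B₁ z)) + ((k₁ z).im : ℂ) * gr χ z with hT₁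
  set T₂ : ℂ → ℂ := fun z => (χ z : ℂ) * (I * (conj (A₂ z) - B₂ z)) + ((k₂ z).im : ℂ) * gr χ z with hT₂
  have hcpos : 0 < (1 - κ) / (1 + κ) := div_pos (by linarith) (by linarith)
  have hC₁ := sep0_cond h0 hκ hμ₁
  have hC₂ := sep0_cond h0 hκ hμ₂
  obtain ⟨hadd, -, hsymm, -, -, hbeq, -⟩ := h4 HB _ _ (gam μ₁) (gam μ₂) sep0_HB_open hcpos hC₁ hC₂
  have hφR : RTF univ φ := ⟨hφ.tf.1, hφ.tf.2.1, subset_univ _⟩
  have hψR : RTF univ ψ := ⟨hψ.tf.1, hψ.tf.2.1, subset_univ _⟩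
  have mφ : MemLp (gr φ) 2 (volume.restrict HB) := (sep0_gr_mem hφR).restrict HB
  have mψ : MemLp (gr ψ) 2 (volume.restrict HB) := (sep0_gr_mem hψR).restrict HB
  have mT₁ : MemLp T₁ 2 (volume.restrict HB) := hO₁.mem.restrict HB
  have k1 : bh μ₁ μ₂ (fun z => gr φ z + T₁ z) (gr ψ) = bh μ₁ μ₂ (gr φ) (gr ψ) + bh μ₁ μ₂ T₁ (gr ψ) :=
    hadd _ _ _ mφ mT₁ mψ
  have k2 : bh μ₁ μ₂ T₁ (gr ψ) = 0 :=
    (hsymm _ _ mT₁ mψ).trans (h2 κ h0 hκ μ₁ μ₂ hμ₁ hμ₂ hH hP ψ _ T₁ hψ hO₁)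
  -- the weak gradients of the two functions `Re k`
  have wv₁ : WG univ (fun z => (k₁ z).re) (fun z => conj (A₁ z) + B₁ z) := (h6.1 univ _ _ _ hk₁.wd).1
  have wv₂ : WG univ (fun z => (k₂ z).re) (fun z => conj (A₂ z) + B₂ z) := (h6.1 univ _ _ _ hk₂.wd).1
  have hwψ := sep0_wg_gr h6 hψR
  have i₁ : Integrable (fun z => cr (gr ψ z) (conj (A₁ z) + B₁ z)) (volume.restrict HB) :=
    (h8 univ ψ _ _ _ isOpen_univ hwψ hψR.2.1 (subset_univ _) wv₁).1.restrict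
  have i₂ : Integrable (fun z => cr (gr ψ z) (conj (A₂ z) + B₂ z)) (volume.restrict HB) :=
    (h8 univ ψ _ _ _ isOpen_univ hwψ hψR.2.1 (subset_univ _) wv₂).1.restrict
  -- the function `χ₂ (V₁ - V₂)`
  have hclA : IsClosed (axis φ) := (isClosed_eq Complex.continuous_im continuous_const).inter (isClosed_tsupport φ)
  obtain ⟨χ₂, hχ₂, hF, hK⟩ := sep0_urysohn (K := tsupport ψ) (F := {z : ℂ | z.im = 0} ∩ {z : ℂ | t ≤ z.re})
    (isClosed_tsupport ψ)
    ((isClosed_eq Complex.continuous_im continuous_const).inter (isClosed_le continuous_const Complex.continuous_re))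
    (by
      rw [Set.disjoint_left]
      rintro z ⟨hz1, hz2⟩ hz3
      have h := hψt z ⟨hz1, hz3⟩
      exact absurd hz2 (not_le.mpr h))
  set g : ℂ → ℂ := fun z => ((χ₂ z : ℝ) : ℂ) with hg
  have hgs : ContDiff ℝ (⊤ : ℕ∞) g := Complex.ofRealCLM.contDiff.comp hχ₂
  have w1 := h12.1 univ _ _ _ _ _ _ hk₁.wd (h12.2.1 univ _ _ _ (-1) hk₂.wd)
  have w2 := h7.2.2 univ _ _ _ g isOpen_univ w1 hgs.contDiffOn
  have w3 := (h6.1 univ _ _ _ w2).1
  set a : ℂ → ℝ := fun z => ((k₁ z + -1 * k₂ z) * g z).re with ha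
  set Ga : ℂ → ℂ := fun z => conj ((A₁ z + -1 * A₂ z) * g z + (k₁ z + -1 * k₂ z) * dz g z)
      + ((B₁ z + -1 * B₂ z) * g z + (k₁ z + -1 * k₂ z) * db g z) with hGa
  have hacont : Continuous a := by
    rw [continuous_iff_continuousAt]
    intro z
    by_cases hz : z ∈ axis φ
    · have hz' : z ∈ {z : ℂ | z.im = 0} ∩ {z : ℂ | t ≤ z.re} := ⟨hz.1, (hφt z hz).le⟩
      have h := (eventually_nhdsSet_iff_forall.mp hF) z hz'
      have h' : a =ᶠ[𝓝 z] fun _ => 0 := by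
        filter_upwards [h] with w hw
        simp [ha, hg, hw]
      exact continuousAt_const.congr h'.symm
    · have hn : (axis φ)ᶜ ∈ 𝓝 z := hclA.isOpen_compl.mem_nhds hz
      have c1 := hk₁.cont.continuousAt hn
      have c2 := hk₂.cont.continuousAt hn
      exact Complex.continuous_re.continuousAt.comp
        ((c1.add (continuousAt_const.mul c2)).mul hgs.continuous.continuousAt)
  have hafr : ∀ z ∈ frontier HB, a z = 0 := by
    intro z hz
    rcases sep0_frontier hz with h | ⟨h, him⟩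
    · simp [ha, hout z h]
    · have hre : z = ((z.re : ℝ) : ℂ) := by
        apply Complex.ext <;> simp [him]
      have hx : |z.re| < 1 := lt_of_le_of_lt (Complex.abs_re_le_norm z) h
      obtain ⟨hx1, hx2⟩ := abs_lt.mp hx
      by_cases ht : z.re ≤ t
      · have h := hleft z.re (by linarith) ht
        rw [← hre] at h
        simp [ha, h]
      · have h := (hF.self_of_nhdsSet z ⟨him, (not_le.mp ht).le⟩)
        simp [ha, hg, h]
  have hZa : Z0 HB Ga := sep0_z0 h3 hacont hafr w3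
  -- the integral against `gr ψ`
  have hmain : ∫ z in HB, ip (I * gr ψ z) (Ga z) = 0 := by
    refine h11.2.2 HB (fun z => I * gr ψ z) Ga (mψ.const_mul I) (fun η hη => ?_) hZa
    have hηR : RTF univ η := ⟨hη.1, hη.2.1, subset_univ _⟩
    have h := (h8 univ ψ η (gr ψ) (gr η) isOpen_univ hwψ hψR.2.1 (subset_univ _) (sep0_wg_gr h6 hηR)).2.1
    simp only [sep0_ip_I]
    rw [setIntegral_eq_integral_of_forall_compl_eq_zero, h]
    intro z hz
    have h' : gr η z = 0 := sep0_gr_zero (fun h => hz (hη.2.2 h))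
    rw [h', sep0_cr_anti, sep0_cr_zero, neg_zero]
  have hptw : ∀ z, cr (gr ψ z) (Ga z) = cr (gr ψ z) (conj (A₁ z) + B₁ z) - cr (gr ψ z) (conj (A₂ z) + B₂ z) := by
    intro z
    by_cases hz : z ∈ tsupport ψ
    · have h := (eventually_nhdsSet_iff_forall.mp hK) z hz
      have h' : g =ᶠ[𝓝 z] fun _ => 1 := by
        filter_upwards [h] with w hw
        simp [hg, hw]
      obtain ⟨e1, e2⟩ := sep0_dz_const h'
      have e3 : g z = 1 := h'.self_of_nhds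
      rw [← sep0_cr_sub]
      congr 1
      simp only [hGa, e1, e2, e3, mul_zero, add_zero, mul_one, map_add, map_mul, map_neg, map_one, map_zero]
      ring
    · rw [sep0_gr_zero hz]
      simp only [sep0_cr_zero, sub_zero]
  have hEq : ∫ z in HB, cr (gr ψ z) (conj (A₁ z) + B₁ z) = ∫ z in HB, cr (gr ψ z) (conj (A₂ z) + B₂ z) := by
    simp only [sep0_ip_I, hptw] at hmain
    rw [integral_sub i₁ i₂] at hmain
    exact sub_eq_zero.mp hmain
  -- the forms agree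
  have k3 : bh μ₁ μ₂ (fun z => gr φ z + T₁ z) (gr ψ) = 0 := by
    refine (hbeq _ _ (mφ.add mT₁) mψ).mp ?_
    intro G₁' G₂' hG₁ hG₂
    have hgen : ∀ (μ : ℂ → ℝ) (A B G' : ℂ → ℂ),
        (∀ᵐ z ∂(volume.restrict UH), ((gam μ z : ℝ) : ℂ) * (gr φ z + I * (conj (A z) - B z)) = I * (conj (A z) + B z)) →
        G' =ᵐ[volume.restrict HB] (fun z => gr φ z + I * (conj (A z) - B z)) →
        ∫ z in HB, gam μ z * ip (G' z) (gr ψ z) = ∫ z in HB, -cr (gr ψ z) (conj (A z) + B z) := by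
      intro μ A B G' ha' hG'
      have ha'' := ae_mono (Measure.restrict_mono sep0_HB_sub (le_refl (volume : Measure ℂ))) ha'
      refine integral_congr_ae ?_
      filter_upwards [ha'', hG'] with z hz1 hz2
      rw [hz2, ← sep0_ip_smul, hz1, sep0_ip_I, sep0_cr_anti]
    have hDN₂ : DN HB (gam μ₂) (fun z => gr φ z + T₁ z) (fun z => gr φ z + I * (conj (A₂ z) - B₂ z)) := by
      refine ⟨?_, hD₂.mem, hD₂.sol⟩
      have hZT : Z0 HB (fun z => T₂ z - T₁ z) := by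
        refine sep0_z0 h3 (hO₂.cont.sub hO₁.cont) ?_ (sep0_wg_sub h6 h12 hO₂.wg hO₁.wg)
        intro z hz
        change χ z * (k₂ z).im - χ z * (k₁ z).im = 0
        rcases sep0_frontier hz with h | ⟨h, him⟩
        · rw [hout z h, sub_self]
        · have hcz : conj z = z := by
            apply Complex.ext <;> simp [him]
          have e1 : (k₁ z).im = 0 := by
            have h := congrArg Complex.im (hk₁.symm z)
            rw [hcz, Complex.conj_im] at h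
            linarith
          have e2 : (k₂ z).im = 0 := by
            have h := congrArg Complex.im (hk₂.symm z)
            rw [hcz, Complex.conj_im] at h
            linarith
          rw [e1, e2, sub_self]
      have h := (h5 HB sep0_HB_open.measurableSet).2.1 _ _ hD₂.z0 hZT
      have e : (fun z => gr φ z + I * (conj (A₂ z) - B₂ z) - (gr φ z + T₂ z) + (T₂ z - T₁ z))
          = fun z => gr φ z + I * (conj (A₂ z) - B₂ z) - (gr φ z + T₁ z) := by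
        funext z
        ring
      rw [e] at h
      exact h
    have e₁ := (h10 _ _ hcpos (gam μ₁) hC₁ HB sep0_HB_open _ (mφ.add mT₁)).2 _ _ hG₁ hD₁
    have e₂ := (h10 _ _ hcpos (gam μ₂) hC₂ HB sep0_HB_open _ (mφ.add mT₁)).2 _ _ hG₂ hDN₂
    rw [hgen μ₁ A₁ B₁ G₁' ha₁ e₁, hgen μ₂ A₂ B₂ G₂' ha₂ e₂, integral_neg, integral_neg, hEq]
  rw [k3, k2, add_zero] at k1
  exact k1.symm

end Cal
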