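import Mathlib
import Pool.Agent.Lib.MP_4ea4c7_an.Stm2

set_option autoImplicit false

open MeasureTheory Complex Metric Set Filter Topology
open scoped ComplexConjugate ENNReal NNReal

namespace Cal

private lemma sim_fd (μ : ℂ → ℝ) (hμ : ContDiff ℝ (⊤ : ℕ∞) μ) (z v : ℂ) :
    fderiv ℝ (fun w => (μ w : ℂ)) z v = ((fderiv ℝ μ z v : ℝ) : ℂ) := by
  have h1 : HasFDerivAt μ (fderiv ℝ μ z) z := (hμ.differentiable (by simp) z).hasFDerivAt
  have h2 := (ofRealCLM.hasFDerivAt (x := μ z)).comp z h1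
  have h3 : (fun w => (μ w : ℂ)) = ofRealCLM ∘ μ := rfl
  rw [h3, h2.fderiv]
  rfl

private lemma sim_smooth (μ : ℂ → ℝ) (hμ : ContDiff ℝ (⊤ : ℕ∞) μ) :
    ContDiff ℝ (⊤ : ℕ∞) (fun w => (μ w : ℂ)) := ofRealCLM.contDiff.comp hμ

private lemma sim_db_cont (μ : ℂ → ℝ) (hμ : ContDiff ℝ (⊤ : ℕ∞) μ) :
    Continuous (db (fun w => (μ w : ℂ))) := by
  have h : ∀ v : ℂ, Continuous fun z => fderiv ℝ (fun w => (μ w : ℂ)) z v := fun v =>
    ((sim_smooth μ hμ).continuous_fderiv (by simp)).clm_apply continuous_const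
  unfold db
  exact ((h 1).add (continuous_const.mul (h I))).div_const 2

private lemma sim_db_zero (μ : ℂ → ℝ) (hs : ∀ z, 5 / 4 < ‖z‖ → μ z = 0) (z : ℂ)
    (hz : 5 / 4 < ‖z‖) : db (fun w => (μ w : ℂ)) z = 0 := by
  have ho : IsOpen {w : ℂ | 5 / 4 < ‖w‖} := isOpen_lt continuous_const continuous_norm
  have h0 : (fun w => (μ w : ℂ)) =ᶠ[𝓝 z] fun _ => 0 := by
    filter_upwards [ho.mem_nhds hz] with w hw
    rw [hs w hw]
    simp
  unfold db
  rw [h0.fderiv_eq]
  simp

private lemma sim_db_symm (μ : ℂ → ℝ) (hμ : ContDiff ℝ (⊤ : ℕ∞) μ)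
    (hs : ∀ z, μ (conj z) = μ z) (z : ℂ) :
    db (fun w => (μ w : ℂ)) (conj z) = conj (db (fun w => (μ w : ℂ)) z) := by
  have h1 : ∀ v : ℂ, fderiv ℝ μ z v = fderiv ℝ μ (conj z) (conj v) := by
    intro v
    have e : μ = μ ∘ (conjCLE : ℂ →L[ℝ] ℂ) := by
      funext w
      exact (hs w).symm
    have h2 : HasFDerivAt μ (fderiv ℝ μ (conj z)) (conj z) :=
      (hμ.differentiable (by simp) _).hasFDerivAt
    have h3 : HasFDerivAt (μ ∘ (conjCLE : ℂ →L[ℝ] ℂ))
        ((fderiv ℝ μ (conj z)).comp (conjCLE : ℂ →L[ℝ] ℂ)) z := by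
      refine HasFDerivAt.comp z ?_ (conjCLE : ℂ →L[ℝ] ℂ).hasFDerivAt
      exact h2
    rw [← e] at h3
    rw [h3.fderiv]
    rfl
  have a1 := h1 1
  have a2 := h1 I
  rw [map_one (starRingEnd ℂ)] at a1
  rw [conj_I, map_neg] at a2
  have a3 : fderiv ℝ μ (conj z) I = - fderiv ℝ μ z I := by linarith
  unfold db
  rw [sim_fd μ hμ, sim_fd μ hμ, sim_fd μ hμ, sim_fd μ hμ, ← a1, a3]
  have c2 : conj (2 : ℂ) = 2 := by
    have := conj_ofReal 2
    simpa using this
  rw [map_div₀, map_add, map_mul, conj_I, conj_ofReal, conj_ofReal, c2]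
  push_cast
  ring

private lemma sim_exp (w : ℂ) : dz (fun w => exp (-w)) w = -exp (-w) ∧
    db (fun w => exp (-w)) w = 0 := by
  have h : ∀ v : ℂ, fderiv ℝ (fun w : ℂ => exp (-w)) w v = -exp (-w) * v := by
    intro v
    have h1 : HasDerivAt (fun w : ℂ => exp (-w)) (exp (-w) * (-1)) w :=
      (hasDerivAt_neg w).cexp
    have h2 := h1.hasFDerivAt.restrictScalars ℝ
    rw [h2.fderiv]
    simp [mul_comm]
  unfold dz db
  rw [h, h]
  constructor
  · linear_combination (1 / 2 : ℂ) * exp (-w) * I_mul_I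
  · linear_combination (-(1 / 2 : ℂ)) * exp (-w) * I_mul_I

open Classical in
theorem piece_sim (h1 : S_basic) (h2 : S_smooth) (h3 : S_chain) (h4 : S_prod) (h5 : S_weyl)
    (h6 : S_C3a) (h7 : S_C3b) (h8 : S_C4) : S_sim := by
  intro κ hκ0 hκ1 μ hμ U f hU hf hB
  obtain ⟨A, B, hWD, hAB⟩ := hB
  obtain ⟨b1, b2, b3, b4, b5, b6⟩ := h1
  obtain ⟨s1, s2, s3⟩ := h2
  obtain ⟨C6, hC6, c1, c2, c3, c4⟩ := h6
  obtain ⟨C8, hC8, h8'⟩ := h8
  set m : ℂ → ℂ := fun w => (μ w : ℂ) with hm
  have hmS : ContDiff ℝ (⊤ : ℕ∞) m := sim_smooth μ hμ.smooth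
  set F : ℂ → ℂ := fun z => f z - m z * conj (f z) with hF
  have hUm : MeasurableSet U := hU.measurableSet
  have hFc : ContinuousOn F U :=
    hf.sub (hmS.continuous.continuousOn.mul (continuous_conj.comp_continuousOn hf))
  -- the weak derivative of `F`
  have hWF : ∃ AF, WD U F AF (fun z => -(db m z * conj (f z))) := by
    have w1 := b3 U f A B hWD
    have w2 := s3 U _ _ _ m hU w1 hmS.contDiffOn
    have w3 := b2 U _ _ _ (-1) w2
    have w4 := b1 U _ _ _ _ _ _ hWD w3
    refine ⟨_, b4 U _ _ _ F _ _ hUm w4 ?_ (Filter.EventuallyEq.refl _ _) ?_⟩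
    · refine Filter.Eventually.of_forall fun z => ?_
      simp only [hF]
      ring
    · filter_upwards [hAB] with z hz
      rw [hz]
      ring
  obtain ⟨AF, hWF⟩ := hWF
  -- the size of `F`
  have hfF : ∀ z, (1 - κ) * ‖f z‖ ≤ ‖F z‖ := by
    intro z
    have e1 : ‖m z * conj (f z)‖ ≤ κ * ‖f z‖ := by
      rw [norm_mul, RCLike.norm_conj]
      refine mul_le_mul_of_nonneg_right ?_ (norm_nonneg _)
      rw [hm]
      simp only [Complex.norm_real, Real.norm_eq_abs]
      exact hμ.mu.bd z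
    have e2 := norm_sub_norm_le (f z) (m z * conj (f z))
    have e3 : ‖f z - m z * conj (f z)‖ = ‖F z‖ := rfl
    linarith
  have hF0 : ∀ z, F z = 0 → f z = 0 := by
    intro z hz
    have := hfF z
    rw [hz, norm_zero] at this
    have h0 : 0 < 1 - κ := by linarith
    have h1 : ‖f z‖ ≤ 0 := by
      by_contra hc
      push Not at hc
      have := mul_pos h0 hc
      linarith
    exact norm_le_zero_iff.1 h1
  have hdbc : Continuous (db m) := sim_db_cont μ hμ.smooth
  have hdb0 : ∀ z, 5 / 4 < ‖z‖ → db m z = 0 := sim_db_zero μ hμ.mu.supp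
  obtain ⟨M, hM⟩ := (isCompact_closedBall (0 : ℂ) (5 / 4)).exists_bound_of_continuousOn
    hdbc.continuousOn
  have hM0 : 0 ≤ M := (norm_nonneg _).trans (hM 0 (by simp; norm_num))
  have hdbM : ∀ z, ‖db m z‖ ≤ M := by
    intro z
    by_cases hz : 5 / 4 < ‖z‖
    · rw [hdb0 z hz, norm_zero]; exact hM0
    · exact hM z (by simpa using not_lt.1 hz)
  -- the function `b`
  set V : Set ℂ := U ∩ F ⁻¹' {0}ᶜ with hV
  have hVo : IsOpen V := hFc.isOpen_inter_preimage hU isOpen_compl_singleton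
  set g0 : ℂ → ℂ := fun z => -(db m z * conj (f z)) / F z with hg0
  have hg0c : ContinuousOn g0 V := by
    refine ContinuousOn.div ?_ (hFc.mono inter_subset_left) fun z hz => hz.2
    exact (hdbc.continuousOn.mul (continuous_conj.comp_continuousOn
      (hf.mono inter_subset_left))).neg
  set b : ℂ → ℂ := V.indicator g0 with hb
  have hbm : AEStronglyMeasurable b volume :=
    (aestronglyMeasurable_indicator_iff hVo.measurableSet).2
      (hg0c.aestronglyMeasurable hVo.measurableSet)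
  have hbM : ∀ z, ‖b z‖ ≤ M / (1 - κ) := by
    intro z
    have h0 : 0 < 1 - κ := by linarith
    by_cases hz : z ∈ V
    · rw [hb, indicator_of_mem hz, hg0]
      simp only [norm_div, norm_neg, norm_mul, RCLike.norm_conj]
      have hFz : 0 < ‖F z‖ := norm_pos_iff.2 hz.2
      rw [div_le_div_iff₀ hFz h0]
      calc ‖db m z‖ * ‖f z‖ * (1 - κ) = ‖db m z‖ * ((1 - κ) * ‖f z‖) := by ring
        _ ≤ M * ‖F z‖ := mul_le_mul (hdbM z) (hfF z)
          (mul_nonneg h0.le (norm_nonneg _)) hM0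
    · rw [hb, indicator_of_notMem hz, norm_zero]
      positivity
  have hb0 : ∀ z, 5 / 4 < ‖z‖ → b z = 0 := by
    intro z hz
    by_cases hzV : z ∈ V
    · rw [hb, indicator_of_mem hzV, hg0]
      simp only
      rw [hdb0 z hz]
      simp
    · rw [hb, indicator_of_notMem hzV]
  obtain ⟨hσc, hσb, hW2⟩ := h8' b (M / (1 - κ)) hbm hbM hb0
  obtain ⟨A', hA', hWσ, -⟩ := h7 b hW2
  have hWσU : WD U (Ct b) A' b := b5 univ U _ _ _ (subset_univ U) hWσ
  -- the exponential
  set E : ℂ → ℂ := fun z => exp (-(Ct b z)) with hE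
  have hEc : Continuous E := hσc.neg.cexp
  have hWE : ∃ AE, WD U E AE (fun z => -(E z * b z)) := by
    have w := h3 U univ (Ct b) A' b (fun w => exp (-w)) hU isOpen_univ hWσU hσc.continuousOn
      (mapsTo_univ _ _) (by
        refine ContDiff.contDiffOn ?_
        exact (Complex.contDiff_exp (𝕜 := ℝ)).comp contDiff_neg)
    refine ⟨_, b4 U _ _ _ E _ _ hUm w (Filter.EventuallyEq.refl _ _)
      (Filter.EventuallyEq.refl _ _) ?_⟩
    refine Filter.Eventually.of_forall fun z => ?_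
    simp only
    rw [(sim_exp (Ct b z)).1, (sim_exp (Ct b z)).2]
    simp only [hE]
    ring
  obtain ⟨AE, hWE⟩ := hWE
  have hW := h4 U E AE _ F AF _ hU hWE hEc.continuousOn hWF hFc
  have hW' : WD U (fun z => E z * F z) (fun z => AE z * F z + E z * AF z) (fun _ => 0) := by
    refine b4 U _ _ _ _ _ _ hUm hW (Filter.EventuallyEq.refl _ _)
      (Filter.EventuallyEq.refl _ _) ?_
    refine ae_restrict_of_forall_mem hUm fun z hz => ?_
    by_cases hFz : F z = 0
    · simp only
      rw [hFz, hF0 z hFz]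
      simp
    · have hzV : z ∈ V := ⟨hz, hFz⟩
      have hbz : b z = -(db m z * conj (f z)) / F z := by
        rw [hb, indicator_of_mem hzV]
      simp only
      rw [hbz]
      field_simp
      ring
  have hEF : ContinuousOn (fun z => E z * F z) U := hEc.continuousOn.mul hFc
  have hdiff := (h5 U (fun z => E z * F z) hU hW'.f2 (fun φ hφ => by
    rw [hW'.hB φ hφ]; simp)).2 hEF
  refine ⟨Ct b, hσc, ⟨C8 * (M / (1 - κ)), ?_⟩, (c1 b hW2).2.2.2, hdiff, ?_⟩
  · intro z hz
    refine (hσb z).trans ?_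
    have h0 : 0 < 1 - κ := by linarith
    have hz0 : 0 < ‖z‖ := by linarith
    exact div_le_div_of_nonneg_left (by positivity) hz0 (by linarith)
  · intro hsym z
    have hbs : (fun ζ => conj (b (conj ζ))) = b := by
      funext ζ
      have hUi : ∀ w, conj w ∈ U ↔ w ∈ U := by
        intro w
        constructor
        · intro h
          have := (hsym _ h).1
          rwa [conj_conj] at this
        · intro h
          exact (hsym _ h).1
      have hFs : ∀ w ∈ U, F (conj w) = conj (F w) := by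
        intro w hw
        simp only [hF, hm]
        rw [(hsym w hw).2, hμ.mu.symm w]
        simp
      by_cases hζ : ζ ∈ V
      · have hζ' : conj ζ ∈ V := by
          refine ⟨(hUi ζ).2 hζ.1, ?_⟩
          change F (conj ζ) ≠ 0
          rw [hFs ζ hζ.1]
          intro h0
          exact hζ.2 ((map_eq_zero _).1 h0)
        rw [hb, indicator_of_mem hζ, indicator_of_mem hζ', hg0]
        simp only
        rw [hFs ζ hζ.1, (hsym ζ hζ.1).2, sim_db_symm μ hμ.smooth hμ.mu.symm]
        simp only [map_div₀, map_neg, map_mul, conj_conj]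
        rfl
      · have hζ' : conj ζ ∉ V := by
          intro h
          apply hζ
          refine ⟨(hUi ζ).1 h.1, ?_⟩
          intro h0
          apply h.2
          have : F ζ = 0 := h0
          change F (conj ζ) = 0
          rw [hFs ζ ((hUi ζ).1 h.1), this, map_zero]
        rw [hb, indicator_of_notMem hζ, indicator_of_notMem hζ', map_zero]
    have := c4 b z
    rw [hbs] at this
    rw [this, conj_conj]

end Cal
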