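import Pool.Agent.Lib.MP_4ea4c7_an.Stm1

/-!
# Piece [C1] of MP_4ea4c7_an: existence for the inhomogeneous Beltrami equation in `L²`.
-/

open MeasureTheory Complex Metric Set Filter Topology
open scoped ComplexConjugate ENNReal NNReal

namespace Cal

noncomputable section

private lemma slv_deriv (p : Polynomial ℝ) :
    Differentiable ℂ (pv p) ∧ Continuous (deriv (pv p)) := by
  have h1 : Differentiable ℂ (pv p) := by
    intro z
    unfold pv
    exact (p.differentiable_aeval) z
  have h2 : deriv (pv p) = pv (Polynomial.derivative p) := by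
    funext z
    unfold pv
    exact p.deriv_aeval
  refine ⟨h1, ?_⟩
  rw [h2]
  unfold pv
  exact (Polynomial.derivative p).continuous_aeval

private lemma slv_ext_W2 (g : Lp ℂ 2 (volume.restrict (closedBall (0 : ℂ) (5 / 4)))) :
    W2 ((closedBall (0 : ℂ) (5 / 4)).indicator g) := by
  refine ⟨(memLp_indicator_iff_restrict measurableSet_closedBall).mpr (Lp.memLp g), ?_⟩
  intro z hz
  apply Set.indicator_of_notMem
  rw [mem_closedBall_zero_iff]
  exact not_le.mpr hz

private lemma slv_sub (h1 : S_basic) (h3 : S_wuniq) (h4 : S_C3a)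
    {w w' A A' A'' : ℂ → ℂ} (hw : W2 w) (hw' : W2 w')
    (hA : WD univ (Ct w) A w) (hA' : WD univ (Ct w') A' w')
    (hA'' : WD univ (Ct (fun z => w z + (-1) * w' z)) A'' (fun z => w z + (-1) * w' z)) :
    ∀ᵐ z, A'' z = A z + (-1) * A' z := by
  obtain ⟨C, _, _, hadd, hmul, _⟩ := h4
  obtain ⟨b1, b2, _⟩ := h1
  have hWm : W2 (fun z => (-1 : ℂ) * w' z) := by
    refine ⟨hw'.1.const_mul (-1 : ℂ), fun z hz => ?_⟩
    simp only
    rw [hw'.2 z hz, mul_zero]
  have hsum := b1 univ _ _ _ _ _ _ hA (b2 univ _ _ _ (-1) hA')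
  have hae : Ct (fun z => w z + (-1) * w' z) =ᵐ[volume.restrict univ]
      (fun z => Ct w z + (-1) * Ct w' z) := by
    rw [Measure.restrict_univ]
    filter_upwards [(hadd w (fun z => (-1 : ℂ) * w' z) hw hWm).1] with z hz
    rw [hz, hmul]
  have h5 := (h3 univ _ _ _ _ _ _ isOpen_univ hA'' hsum hae).1
  rw [Measure.restrict_univ] at h5
  exact h5

private lemma slv_norm (h1 : S_basic) (h3 : S_wuniq) (h4 : S_C3a) (h5 : S_C3b)
    {w w' A A' : ℂ → ℂ} (hw : W2 w) (hw' : W2 w')
    (hA : WD univ (Ct w) A w) (hA' : WD univ (Ct w') A' w') :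
    eLpNorm (fun z => A z - A' z) 2 volume = eLpNorm (fun z => w z - w' z) 2 volume := by
  have hWm : W2 (fun z => (-1 : ℂ) * w' z) := by
    refine ⟨hw'.1.const_mul (-1 : ℂ), fun z hz => ?_⟩
    simp only
    rw [hw'.2 z hz, mul_zero]
  have hWs : W2 (fun z => w z + (-1) * w' z) := by
    refine ⟨hw.1.add hWm.1, fun z hz => ?_⟩
    simp only
    rw [hw.2 z hz, hw'.2 z hz]
    ring
  obtain ⟨A'', hA''m, hA''W, hA''n⟩ := h5 _ hWs
  have h6 := slv_sub h1 h3 h4 hw hw' hA hA' hA''W
  have h7 : (fun z => A z - A' z) =ᵐ[volume] A'' := by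
    filter_upwards [h6] with z hz
    rw [hz]
    ring
  rw [eLpNorm_congr_ae h7, hA''n]
  congr 1
  funext z
  ring

private lemma slv_meas {μ : ℂ → ℝ} (hμ : Measurable μ) {g : ℂ → ℂ} {ν : Measure ℂ}
    (hg : AEStronglyMeasurable g ν) :
    AEStronglyMeasurable (fun z => (μ z : ℂ) * conj (g z)) ν := by
  have h1 : AEStronglyMeasurable (fun z => (μ z : ℂ)) ν :=
    (Complex.measurable_ofReal.comp hμ).aestronglyMeasurable
  exact h1.mul (Complex.continuous_conj.comp_aestronglyMeasurable hg)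

private lemma slv_memLp {κ : ℝ} {μ : ℂ → ℝ} (hμ : Mu κ (5 / 4) μ) {S : ℂ → ℂ}
    (hS : W2 S) {Q A : ℂ → ℂ} (hQ : Continuous Q) (hA : MemLp A 2 volume) :
    MemLp (fun z => (μ z : ℂ) * conj (Q z + A z) + S z) 2
      (volume.restrict (closedBall (0 : ℂ) (5 / 4))) := by
  have hfin : IsFiniteMeasure (volume.restrict (closedBall (0 : ℂ) (5 / 4))) :=
    ⟨by rw [Measure.restrict_apply_univ]; exact measure_closedBall_lt_top⟩
  have hQ2 : MemLp Q 2 (volume.restrict (closedBall (0 : ℂ) (5 / 4))) := by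
    obtain ⟨M, hM⟩ := (isCompact_closedBall (0 : ℂ) (5 / 4)).exists_bound_of_continuousOn
      hQ.continuousOn
    refine MemLp.of_bound hQ.aestronglyMeasurable M ?_
    exact (ae_restrict_iff' measurableSet_closedBall).mpr (Filter.Eventually.of_forall hM)
  have hQA : MemLp (fun z => Q z + A z) 2 (volume.restrict (closedBall (0 : ℂ) (5 / 4))) :=
    hQ2.add (hA.restrict _)
  have h1 : MemLp (fun z => (μ z : ℂ) * conj (Q z + A z)) 2
      (volume.restrict (closedBall (0 : ℂ) (5 / 4))) := by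
    refine hQA.of_le_mul (c := κ) (slv_meas hμ.meas hQA.aestronglyMeasurable) ?_
    refine Filter.Eventually.of_forall fun z => ?_
    rw [norm_mul, RCLike.norm_conj, Complex.norm_real]
    exact mul_le_mul_of_nonneg_right (hμ.bd z) (norm_nonneg _)
  exact h1.add (hS.1.restrict _)

theorem piece_solve (h1 : S_basic) (h2 : S_smooth) (h3 : S_wuniq) (h4 : S_C3a) (h5 : S_C3b) :
    S_solve := by
  intro κ hκ0 hκ1 μ hμ S hS p
  obtain ⟨hdiff, hcont⟩ := slv_deriv p
  -- a choice of the derivative of the Cauchy transform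
  choose! T hTm hTW hTn using h5
  set ν : Measure ℂ := volume.restrict (closedBall (0 : ℂ) (5 / 4)) with hν
  let E := Lp ℂ 2 ν
  let ext : E → ℂ → ℂ := fun g => (closedBall (0 : ℂ) (5 / 4)).indicator g
  have hext : ∀ g : E, W2 (ext g) := slv_ext_W2
  have hmem : ∀ g : E, MemLp (fun z => (μ z : ℂ) * conj (deriv (pv p) z + T (ext g) z) + S z) 2 ν :=
    fun g => slv_memLp hμ hS hcont (hTm _ (hext g))
  let θ : E → E := fun g => (hmem g).toLp _
  have hlip : LipschitzWith (Real.toNNReal κ) θ := by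
    intro g g'
    have e1 : edist (θ g) (θ g') = eLpNorm
        ((fun z => (μ z : ℂ) * conj (deriv (pv p) z + T (ext g) z) + S z) -
          (fun z => (μ z : ℂ) * conj (deriv (pv p) z + T (ext g') z) + S z)) 2 ν :=
      Lp.edist_toLp_toLp _ _ _ _
    have e2 : edist g g' = eLpNorm (fun z => ext g z - ext g' z) 2 volume := by
      rw [Lp.edist_def, ← eLpNorm_indicator_eq_eLpNorm_restrict measurableSet_closedBall]
      congr 1
      funext z
      by_cases hz : z ∈ closedBall (0 : ℂ) (5 / 4)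
      · simp [ext, Set.indicator_of_mem hz]
      · simp [ext, Set.indicator_of_notMem hz]
    rw [e1, e2, ← slv_norm h1 h3 h4 (fun w hw => ⟨T w, hTm w hw, hTW w hw, hTn w hw⟩)
      (hext g) (hext g') (hTW _ (hext g)) (hTW _ (hext g'))]
    refine (eLpNorm_le_mul_eLpNorm_of_ae_le_mul (c := κ)
      (g := fun z => T (ext g) z - T (ext g') z) ?_ 2).trans ?_
    · refine Filter.Eventually.of_forall fun z => ?_
      have e3 : ((fun z => (μ z : ℂ) * conj (deriv (pv p) z + T (ext g) z) + S z) -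
          (fun z => (μ z : ℂ) * conj (deriv (pv p) z + T (ext g') z) + S z)) z =
          (μ z : ℂ) * conj (T (ext g) z - T (ext g') z) := by
        simp only [Pi.sub_apply, map_add, map_sub]
        ring
      rw [e3, norm_mul, RCLike.norm_conj, Complex.norm_real]
      exact mul_le_mul_of_nonneg_right (hμ.bd z) (norm_nonneg _)
    · have e4 : (ENNReal.ofReal κ) = ((Real.toNNReal κ : ℝ≥0) : ℝ≥0∞) := rfl
      rw [e4]
      exact mul_le_mul_right (eLpNorm_mono_measure _ Measure.restrict_le_self) _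
  have hcontr : ContractingWith (Real.toNNReal κ) θ := by
    refine ⟨?_, hlip⟩
    rw [Real.toNNReal_lt_one]
    exact hκ1
  let g : E := ContractingWith.fixedPoint θ hcontr
  have hfix : θ g = g := ContractingWith.fixedPoint_isFixedPt hcontr
  have hae : ∀ᵐ z ∂ν, (g : ℂ → ℂ) z =
      (μ z : ℂ) * conj (deriv (pv p) z + T (ext g) z) + S z := by
    have h6 := (hmem g).coeFn_toLp
    have h7 : ((hmem g).toLp _ : E) = g := hfix
    rw [h7] at h6
    exact h6
  refine ⟨ext g, fun z => deriv (pv p) z + T (ext g) z, hext g, ?_, ?_⟩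
  · have h6 := h1.1 univ _ _ _ _ _ _
      (h2.2.1 univ (pv p) isOpen_univ hdiff.differentiableOn) (hTW _ (hext g))
    have h7 : (fun z => (0 : ℂ) + ext g z) = ext g := by
      funext z
      rw [zero_add]
    rw [h7] at h6
    exact h6
  · have hae' := (ae_restrict_iff' measurableSet_closedBall).mp hae
    filter_upwards [hae'] with z hz
    by_cases hzm : z ∈ closedBall (0 : ℂ) (5 / 4)
    · have h8 : ext g z = (g : ℂ → ℂ) z := Set.indicator_of_mem hzm _
      rw [h8]
      exact hz hzm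
    · have h8 : ext g z = 0 := Set.indicator_of_notMem hzm _
      have h9 : 5 / 4 < ‖z‖ := by
        rw [mem_closedBall_zero_iff] at hzm
        exact not_le.mp hzm
      rw [h8, hμ.supp z h9, hS.2 z h9]
      simp

end

end Cal
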