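import Pool.Agent.Lib.MP_4ea4c7_an.StmD

/-! Piece J5: step functions on the diameter. -/

open MeasureTheory Complex Metric Set Filter Topology
open scoped ComplexConjugate ENNReal NNReal

namespace Cal

private lemma st_clos : closure HB ⊆ {z : ℂ | ‖z‖ ≤ 1 ∧ 0 ≤ z.im} := by
  refine closure_minimal ?_ ?_
  · intro z hz
    exact ⟨hz.1.le, hz.2.le⟩
  · exact (isClosed_le continuous_norm continuous_const).inter (isClosed_le continuous_const continuous_im)

private lemma st_der : ∃ M : ℝ, 0 ≤ M ∧ (∀ t, |deriv Real.smoothTransition t| ≤ M) ∧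
    ∀ t, (t < 0 ∨ 1 < t) → deriv Real.smoothTransition t = 0 := by
  have h0 : ∀ t : ℝ, (t < 0 ∨ 1 < t) → deriv Real.smoothTransition t = 0 := by
    rintro t (ht | ht)
    · have : Real.smoothTransition =ᶠ[𝓝 t] fun _ => 0 := by
        filter_upwards [isOpen_Iio.mem_nhds ht] with s hs
        exact Real.smoothTransition.zero_of_nonpos (le_of_lt hs)
      rw [this.deriv_eq, deriv_const]
    · have : Real.smoothTransition =ᶠ[𝓝 t] fun _ => 1 := by
        filter_upwards [isOpen_Ioi.mem_nhds ht] with s hs
        exact Real.smoothTransition.one_of_one_le (le_of_lt hs)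
      rw [this.deriv_eq, deriv_const]
  have hc : Continuous (deriv Real.smoothTransition) :=
    (Real.smoothTransition.contDiff (n := 1)).continuous_deriv le_rfl
  obtain ⟨C, hC⟩ := isCompact_Icc.exists_bound_of_continuousOn (s := Icc (0 : ℝ) 1) hc.continuousOn
  refine ⟨max C 0, le_max_right _ _, fun t => ?_, h0⟩
  by_cases ht : t ∈ Icc (0 : ℝ) 1
  · exact (hC t ht).trans (le_max_left _ _)
  · rw [h0 t]
    · simp
    · rw [mem_Icc, not_and_or, not_le, not_le] at ht
      exact ht

/-- the slope variable -/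
private noncomputable def stq (x h : ℝ) (z : ℂ) : ℝ := (z.re - x) / (h + z.im)

private lemma st_q {x h : ℝ} {z : ℂ} (hz : h + z.im ≠ 0) :
    HasFDerivAt (stq x h) (((h + z.im)⁻¹) • reCLM - ((z.re - x) * ((h + z.im) ^ 2)⁻¹) • imCLM) z := by
  have h1 : HasFDerivAt (fun w : ℂ => w.re - x) reCLM z := reCLM.hasFDerivAt.sub_const x
  have h2 : HasFDerivAt (fun w : ℂ => h + w.im) imCLM z := imCLM.hasFDerivAt.const_add h
  have h3 : HasFDerivAt (fun w : ℂ => (h + w.im)⁻¹) ((-((h + z.im) ^ 2)⁻¹) • imCLM) z :=
    (hasDerivAt_inv hz).comp_hasFDerivAt z h2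
  have h4 := h1.mul h3
  have e : stq x h = fun w : ℂ => (w.re - x) * (h + w.im)⁻¹ := by
    funext w
    unfold stq
    rw [div_eq_mul_inv]
  rw [e]
  refine h4.congr_fderiv ?_
  ext v
  simp
  ring

private lemma st_gr {x h : ℝ} {z : ℂ} (hh : 0 < h) (hz : 0 < z.im) {M : ℝ} (hM0 : 0 ≤ M)
    (hM : ∀ t, |deriv Real.smoothTransition t| ≤ M)
    (hM' : ∀ t, (t < 0 ∨ 1 < t) → deriv Real.smoothTransition t = 0) :
    ‖gr (fun w => Real.smoothTransition (stq x h w)) z‖ ≤
      if x ≤ z.re ∧ z.re ≤ x + h + z.im then 2 * M / (h + z.im) else 0 := by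
  have hy : 0 < h + z.im := by linarith
  have hd : HasFDerivAt (fun w => Real.smoothTransition (stq x h w))
      ((deriv Real.smoothTransition (stq x h z)) •
        (((h + z.im)⁻¹) • reCLM - ((z.re - x) * ((h + z.im) ^ 2)⁻¹) • imCLM)) z := by
    have hS : HasDerivAt Real.smoothTransition (deriv Real.smoothTransition (stq x h z)) (stq x h z) :=
      ((Real.smoothTransition.contDiff (n := 1)).differentiable (by norm_num)).differentiableAt.hasDerivAt
    exact hS.comp_hasFDerivAt z (st_q hy.ne')
  have e1 : gr (fun w => Real.smoothTransition (stq x h w)) z =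
      ((deriv Real.smoothTransition (stq x h z) * (h + z.im)⁻¹ : ℝ) : ℂ) * (1 - I * ((stq x h z : ℝ) : ℂ)) := by
    unfold gr
    rw [hd.fderiv]
    simp only [smul_apply, sub_apply, reCLM_apply, imCLM_apply,
      one_re, one_im, I_re, I_im, smul_eq_mul, mul_zero, sub_zero, mul_one, zero_sub]
    unfold stq
    push_cast
    have : ((h : ℂ) + (z.im : ℂ)) ≠ 0 := by exact_mod_cast hy.ne'
    field_simp
    ring
  rw [e1, norm_mul]
  split_ifs with hc
  · have hq : |stq x h z| ≤ 1 := by
      unfold stq
      rw [abs_le]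
      constructor
      · have : 0 ≤ (z.re - x) / (h + z.im) := div_nonneg (by linarith [hc.1]) hy.le
        linarith
      · rw [div_le_one hy]
        linarith [hc.2]
    have n1 : ‖(1 - I * ((stq x h z : ℝ) : ℂ))‖ ≤ 2 := by
      refine (norm_sub_le _ _).trans ?_
      rw [norm_one, norm_mul, norm_I, one_mul, Complex.norm_real, Real.norm_eq_abs]
      linarith
    have n2 : ‖((deriv Real.smoothTransition (stq x h z) * (h + z.im)⁻¹ : ℝ) : ℂ)‖ ≤ M * (h + z.im)⁻¹ := by
      rw [Complex.norm_real, norm_mul, Real.norm_eq_abs, Real.norm_of_nonneg (by positivity)]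
      exact mul_le_mul_of_nonneg_right (hM _) (by positivity)
    calc _ ≤ M * (h + z.im)⁻¹ * 2 := by gcongr
      _ = _ := by
        rw [div_eq_mul_inv]
        ring
  · have : deriv Real.smoothTransition (stq x h z) = 0 := by
      refine hM' _ ?_
      rw [not_and_or, not_le, not_le] at hc
      unfold stq
      rcases hc with hc | hc
      · left
        exact div_neg_of_neg_of_pos (by linarith) hy
      · right
        rw [one_lt_div hy]
        linarith
    rw [this]
    simp

private lemma st_int {a h : ℝ} (hh : 0 < h) (ha : 0 ≤ a) :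
    ∫⁻ y in Ioo (0 : ℝ) 1, ENNReal.ofReal (a / (h + y)) = ENNReal.ofReal (a * Real.log ((h + 1) / h)) := by
  have hcont : ContinuousOn (fun y : ℝ => a / (h + y)) (Icc 0 1) := by
    refine continuousOn_const.div (by fun_prop) ?_
    intro y hy
    have := hy.1
    positivity
  have hint : IntegrableOn (fun y : ℝ => a / (h + y)) (Ioo 0 1) volume :=
    (hcont.integrableOn_compact isCompact_Icc).mono_set Ioo_subset_Icc_self
  rw [← ofReal_integral_eq_lintegral_ofReal hint]
  · congr 1
    rw [← integral_Ioc_eq_integral_Ioo, ← intervalIntegral.integral_of_le zero_le_one]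
    have e : ∀ y : ℝ, a / (h + y) = a * (h + y)⁻¹ := fun y => div_eq_mul_inv _ _
    simp_rw [e]
    rw [intervalIntegral.integral_const_mul, intervalIntegral.integral_comp_add_left (fun y => y⁻¹) h,
      add_zero, integral_inv_of_pos hh (by linarith)]
  · refine ae_restrict_of_forall_mem measurableSet_Ioo fun y hy => ?_
    have := hy.1
    show 0 ≤ a / (h + y)
    positivity

/-- the energy integral -/
private lemma st_energy {x h M : ℝ} (hh : 0 < h) (hM0 : 0 ≤ M) {Λ : ℂ → ℝ}
    (hΛ : ∀ z ∈ HB, ‖gr Λ z‖ ≤ if x ≤ z.re ∧ z.re ≤ x + h + z.im then 2 * M / (h + z.im) else 0) :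
    (eLpNorm (gr Λ) 2 (volume.restrict HB)).toReal ≤ 2 * M * Real.sqrt (Real.log ((h + 1) / h)) := by
  have hHBm : MeasurableSet HB :=
    ((isOpen_lt continuous_norm continuous_const).inter (isOpen_lt continuous_const continuous_im)).measurableSet
  set R : Set (ℝ × ℝ) := {p | 0 < p.2 ∧ p.2 < 1 ∧ x ≤ p.1 ∧ p.1 ≤ x + h + p.2} with hR
  have hRm : MeasurableSet R := by
    refine MeasurableSet.inter (measurableSet_lt measurable_const measurable_snd) ?_
    refine MeasurableSet.inter (measurableSet_lt measurable_snd measurable_const) ?_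
    refine MeasurableSet.inter (measurableSet_le measurable_const measurable_fst) ?_
    exact measurableSet_le measurable_fst (by fun_prop)
  set F : ℝ × ℝ → ℝ≥0∞ := R.indicator (fun p => ENNReal.ofReal ((2 * M / (h + p.2)) ^ 2)) with hF
  have hFm : Measurable F := by
    refine Measurable.indicator ?_ hRm
    fun_prop
  have h1 : ∫⁻ z in HB, ‖gr Λ z‖ₑ ^ (2 : ℝ) ≤ ∫⁻ z : ℂ, F (Complex.measurableEquivRealProd z) := by
    rw [← lintegral_indicator hHBm]
    refine lintegral_mono fun z => ?_
    by_cases hz : z ∈ HB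
    · rw [indicator_of_mem hz]
      have hb := hΛ z hz
      have him : 0 < z.im := hz.2
      have him1 : z.im < 1 := lt_of_le_of_lt ((le_abs_self _).trans (abs_im_le_norm z)) hz.1
      split_ifs at hb with hc
      · have hmem : (Complex.measurableEquivRealProd z) ∈ R := ⟨him, him1, hc.1, hc.2⟩
        rw [hF, indicator_of_mem hmem]
        have e : (Complex.measurableEquivRealProd z).2 = z.im := rfl
        rw [e, ENNReal.ofReal_pow (by positivity), ← ENNReal.rpow_natCast]
        refine ENNReal.rpow_le_rpow ?_ (by norm_num)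
        rw [← ofReal_norm]
        exact ENNReal.ofReal_le_ofReal hb
      · have : gr Λ z = 0 := norm_le_zero_iff.1 hb
        rw [this]
        simp
    · rw [indicator_of_notMem hz]
      exact zero_le
  have h2 : ∫⁻ z : ℂ, F (Complex.measurableEquivRealProd z) = ∫⁻ p : ℝ × ℝ, F p :=
    Complex.volume_preserving_equiv_real_prod.lintegral_comp hFm
  have h3 : ∫⁻ p : ℝ × ℝ, F p = ∫⁻ y in Ioo (0 : ℝ) 1, ENNReal.ofReal ((4 * M ^ 2) / (h + y)) := by
    rw [Measure.volume_eq_prod, lintegral_prod_symm' F hFm, ← lintegral_indicator measurableSet_Ioo]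
    refine lintegral_congr fun y => ?_
    by_cases hy : y ∈ Ioo (0 : ℝ) 1
    · rw [indicator_of_mem hy]
      have hy0 : 0 < h + y := by linarith [hy.1]
      have e : ∀ s : ℝ, F (s, y) = (Icc x (x + h + y)).indicator (fun _ => ENNReal.ofReal ((2 * M / (h + y)) ^ 2)) s := by
        intro s
        by_cases hs : s ∈ Icc x (x + h + y)
        · rw [indicator_of_mem hs, hF, indicator_of_mem]
          exact ⟨hy.1, hy.2, hs.1, hs.2⟩
        · rw [indicator_of_notMem hs, hF, indicator_of_notMem]
          intro hh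
          exact hs ⟨hh.2.2.1, hh.2.2.2⟩
      simp_rw [e]
      rw [lintegral_indicator measurableSet_Icc, lintegral_const, Measure.restrict_apply_univ,
        Real.volume_Icc, ← ENNReal.ofReal_mul (by positivity)]
      congr 1
      field_simp
      ring
    · rw [indicator_of_notMem hy]
      have e : ∀ s : ℝ, F (s, y) = 0 := by
        intro s
        rw [hF, indicator_of_notMem]
        intro hh
        exact hy ⟨hh.1, hh.2.1⟩
      simp_rw [e]
      simp
  rw [h2, h3, st_int hh (by positivity)] at h1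
  have hlog : 0 ≤ Real.log ((h + 1) / h) := by
    refine Real.log_nonneg ?_
    rw [one_le_div hh]
    linarith
  rw [eLpNorm_eq_lintegral_rpow_enorm_toReal (by norm_num) (by norm_num)]
  simp only [ENNReal.toReal_ofNat]
  refine ENNReal.toReal_le_of_le_ofReal (by positivity) ?_
  calc (∫⁻ z in HB, ‖gr Λ z‖ₑ ^ (2 : ℝ)) ^ (1 / (2 : ℝ))
      ≤ (ENNReal.ofReal (4 * M ^ 2 * Real.log ((h + 1) / h))) ^ (1 / (2 : ℝ)) :=
        ENNReal.rpow_le_rpow h1 (by norm_num)
    _ = ENNReal.ofReal ((4 * M ^ 2 * Real.log ((h + 1) / h)) ^ (1 / (2 : ℝ))) :=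
        ENNReal.ofReal_rpow_of_nonneg (by positivity) (by norm_num)
    _ = _ := by
        congr 1
        rw [← Real.sqrt_eq_rpow, Real.sqrt_mul (by positivity)]
        congr 1
        rw [show (4 : ℝ) * M ^ 2 = (2 * M) ^ 2 by ring, Real.sqrt_sq (by positivity)]

/-- the cutoff -/
private noncomputable def stχ (h : ℝ) (z : ℂ) : ℝ :=
  Real.smoothTransition ((z.im + h / 2) / (h / 4)) * Real.smoothTransition (5 - ‖z‖ ^ 2)

private lemma st_chi_smooth (h : ℝ) : ContDiff ℝ (⊤ : ℕ∞) (stχ h) := by
  unfold stχ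
  refine ContDiff.mul ?_ ?_
  · refine Real.smoothTransition.contDiff.comp ?_
    exact (imCLM.contDiff.add contDiff_const).div_const _
  · refine Real.smoothTransition.contDiff.comp ?_
    exact contDiff_const.sub (contDiff_norm_sq ℝ)

private lemma st_chi_one {h : ℝ} (hh : 0 < h) {z : ℂ} (h1 : -(h / 4) < z.im) (h2 : ‖z‖ < 2) : stχ h z = 1 := by
  unfold stχ
  rw [Real.smoothTransition.one_of_one_le, Real.smoothTransition.one_of_one_le, mul_one]
  · nlinarith [norm_nonneg z]
  · rw [one_le_div (by positivity)]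
    linarith

private lemma st_chi_zero {h : ℝ} (hh : 0 < h) {z : ℂ} (h1 : z.im < -(h / 2)) : stχ h z = 0 := by
  unfold stχ
  rw [Real.smoothTransition.zero_of_nonpos, zero_mul]
  exact div_nonpos_of_nonpos_of_nonneg (by linarith) (by positivity)

private lemma st_chi_out {h : ℝ} {z : ℂ} (h1 : z ∉ closedBall (0 : ℂ) 3) : stχ h z = 0 := by
  unfold stχ
  rw [mem_closedBall_zero_iff, not_le] at h1
  rw [Real.smoothTransition.zero_of_nonpos (x := 5 - ‖z‖ ^ 2), mul_zero]
  nlinarith

private lemma st_nhds {h : ℝ} (hh : 0 < h) : ∀ᶠ z in 𝓝ˢ (closure HB), stχ h z = 1 := by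
  have hU : IsOpen {z : ℂ | -(h / 4) < z.im ∧ ‖z‖ < 2} :=
    (isOpen_lt continuous_const continuous_im).inter (isOpen_lt continuous_norm continuous_const)
  have hs : closure HB ⊆ {z : ℂ | -(h / 4) < z.im ∧ ‖z‖ < 2} := by
    intro z hz
    obtain ⟨a, b⟩ := st_clos hz
    exact ⟨by linarith, by linarith⟩
  filter_upwards [hU.mem_nhdsSet.2 hs] with z hz
  exact st_chi_one hh hz.1 hz.2

theorem piece_step : S_step := by
  obtain ⟨M, hM0, hM, hM'⟩ := st_der
  refine ⟨2 * M, by positivity, fun K hK => ?_⟩
  have hK0 : (0 : ℝ) < K := by exact_mod_cast (by omega : 0 < K)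
  have hK2 : (2 : ℝ) ≤ K := by exact_mod_cast hK
  set h : ℝ := 2 / (K : ℝ) with hdef
  have hh : 0 < h := by positivity
  refine ⟨fun k z => stχ h z * Real.smoothTransition (stq (-1 + k * h) h z), ?_, ?_, ?_,
    stχ h, ⟨st_chi_smooth h, ?_, subset_univ _⟩, st_nhds hh⟩
  · intro k _
    refine ⟨?_, ?_, subset_univ _⟩
    · rw [contDiff_iff_contDiffAt]
      intro z
      by_cases hz : z.im < -(h / 2)
      · have : (fun z => stχ h z * Real.smoothTransition (stq (-1 + k * h) h z)) =ᶠ[𝓝 z] fun _ => 0 := by
          filter_upwards [(isOpen_lt continuous_im continuous_const).mem_nhds hz] with w hw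
          rw [st_chi_zero hh hw, zero_mul]
        exact contDiffAt_const.congr_of_eventuallyEq this
      · have hne : h + z.im ≠ 0 := by
          have : 0 < h + z.im := by linarith [not_lt.1 hz]
          exact this.ne'
        refine (st_chi_smooth h).contDiffAt.mul ?_
        refine Real.smoothTransition.contDiff.contDiffAt.comp z ?_
        unfold stq
        refine ContDiffAt.div ?_ ?_ hne
        · exact (reCLM.contDiff.sub contDiff_const).contDiffAt
        · exact (contDiff_const.add imCLM.contDiff).contDiffAt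
    · refine HasCompactSupport.intro (isCompact_closedBall (0 : ℂ) 3) ?_
      intro z hz
      show stχ h z * _ = 0
      rw [st_chi_out hz, zero_mul]
  · intro k _
    filter_upwards [st_nhds hh] with z hz
    rw [hz, one_mul]
    rfl
  · intro k _
    have hopen : IsOpen HB :=
      (isOpen_lt continuous_norm continuous_const).inter (isOpen_lt continuous_const continuous_im)
    have hb : ∀ z ∈ HB, ‖gr (fun z => stχ h z * Real.smoothTransition (stq (-1 + k * h) h z)) z‖ ≤
        if -1 + k * h ≤ z.re ∧ z.re ≤ -1 + k * h + h + z.im then 2 * M / (h + z.im) else 0 := by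
      intro z hz
      have he : (fun z => stχ h z * Real.smoothTransition (stq (-1 + k * h) h z)) =ᶠ[𝓝 z]
          fun z => Real.smoothTransition (stq (-1 + k * h) h z) := by
        filter_upwards [hopen.mem_nhds hz] with w hw
        rw [st_chi_one hh (by linarith [hw.2]) (by linarith [hw.1]), one_mul]
      have : gr (fun z => stχ h z * Real.smoothTransition (stq (-1 + k * h) h z)) z =
          gr (fun z => Real.smoothTransition (stq (-1 + k * h) h z)) z := by
        unfold gr
        rw [he.fderiv_eq]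
      rw [this]
      exact st_gr hh hz.2 hM0 hM hM'
    refine (st_energy hh hM0 hb).trans ?_
    refine mul_le_mul_of_nonneg_left (Real.sqrt_le_sqrt ?_) (by positivity)
    have e : (h + 1) / h = 1 + K / 2 := by
      rw [hdef]
      field_simp
    rw [e]
    have : Real.log (1 + K / 2) ≤ Real.log K := Real.log_le_log (by positivity) (by linarith)
    linarith
  · refine HasCompactSupport.intro (isCompact_closedBall (0 : ℂ) 3) ?_
    intro z hz
    exact st_chi_out hz

end Cal
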