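import Pool.Agent.Lib.MP_4ea4c7_an.Stm2

/-!
# MP_4ea4c7_an, piece E5 (`S_sub`)
-/

open MeasureTheory Complex Metric Set Filter Topology
open scoped ComplexConjugate ENNReal NNReal

namespace Cal

private lemma sub_circ_pow (R : ℝ) (hR : 0 < R) (i j : ℕ) :
    (∮ z in C(0, R), z ^ i * (z ^ (j + 1))⁻¹) = if i = j then 2 * (Real.pi : ℂ) * I else 0 := by
  have e : EqOn (fun z : ℂ => z ^ i * (z ^ (j + 1))⁻¹)
      (fun z => (z - 0) ^ ((i : ℤ) - ((j + 1 : ℕ) : ℤ))) (sphere (0 : ℂ) R) := by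
    intro z hz
    have hz0 : z ≠ 0 := by
      rintro rfl
      simp at hz
      linarith
    simp only [sub_zero]
    rw [zpow_sub₀ hz0, zpow_natCast, zpow_natCast]
    rfl
  rw [circleIntegral.integral_congr hR.le e]
  split_ifs with h
  · subst h
    have e2 : ((i : ℤ) - ((i + 1 : ℕ) : ℤ)) = -1 := by push_cast; ring
    rw [e2]
    simp only [zpow_neg_one]
    exact circleIntegral.integral_sub_center_inv 0 hR.ne'
  · exact circleIntegral.integral_sub_zpow_of_ne (by push_cast; omega) _ _ _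

private lemma sub_cont_inv (R : ℝ) (hR : 0 < R) (j : ℕ) :
    ContinuousOn (fun z : ℂ => (z ^ (j + 1))⁻¹) (sphere (0 : ℂ) R) := by
  refine ContinuousOn.inv₀ (by fun_prop) ?_
  intro z hz
  have hz0 : z ≠ 0 := by
    rintro rfl
    simp at hz
    linarith
  exact pow_ne_zero _ hz0

private lemma sub_circ_poly (R : ℝ) (hR : 0 < R) (p : Polynomial ℝ) (j : ℕ) :
    (∮ z in C(0, R), pv p z * (z ^ (j + 1))⁻¹) = ((p.coeff j : ℝ) : ℂ) * (2 * (Real.pi : ℂ) * I) := by
  have e : (fun z : ℂ => pv p z * (z ^ (j + 1))⁻¹) =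
      fun z => ∑ i ∈ Finset.range (p.natDegree + 1), ((p.coeff i : ℝ) : ℂ) * (z ^ i * (z ^ (j + 1))⁻¹) := by
    funext z
    unfold pv
    rw [Polynomial.aeval_eq_sum_range, Finset.sum_mul]
    refine Finset.sum_congr rfl fun i _ => ?_
    rw [Complex.real_smul, mul_assoc]
  rw [e, circleIntegral.integral_fun_sum]
  · have e2 : ∀ i, (∮ z in C(0, R), ((p.coeff i : ℝ) : ℂ) * (z ^ i * (z ^ (j + 1))⁻¹)) =
        if i = j then ((p.coeff i : ℝ) : ℂ) * (2 * (Real.pi : ℂ) * I) else 0 := by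
      intro i
      rw [circleIntegral.integral_const_mul, sub_circ_pow R hR]
      split_ifs <;> simp
    simp only [e2]
    rw [Finset.sum_ite_eq']
    split_ifs with h
    · rfl
    · have : p.coeff j = 0 := by
        apply Polynomial.coeff_eq_zero_of_natDegree_lt
        simp only [Finset.mem_range, not_lt] at h
        omega
      rw [this]
      simp
  · intro i _
    apply ContinuousOn.circleIntegrable hR.le
    exact continuousOn_const.mul ((continuous_pow i).continuousOn.mul (sub_cont_inv R hR j))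

/-- Cauchy estimate for the polynomial part. -/
private lemma sub_coeff_bound (f : ℂ → ℂ) (p : Polynomial ℝ) (M : ℝ) (hdec : Dec (fun z => f z - pv p z))
    (hd : DifferentiableOn ℂ f {z | 5 / 4 < ‖z‖}) (hM : ∀ z, ‖z‖ = 3 → ‖f z‖ ≤ M) (j : ℕ) :
    |p.coeff j| ≤ M := by
  obtain ⟨C, hC⟩ := hdec
  have hM0 : 0 ≤ M := (norm_nonneg _).trans (hM 3 (by simp))
  have hopen : IsOpen {z : ℂ | 5 / 4 < ‖z‖} := isOpen_lt continuous_const continuous_norm
  have hfc : ContinuousOn f {z | 5 / 4 < ‖z‖} := hd.continuousOn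
  have hann : ∀ R : ℝ, 3 ≤ R → (∮ z in C(0, R), f z * (z ^ (j + 1))⁻¹) = ∮ z in C(0, 3), f z * (z ^ (j + 1))⁻¹ := by
    intro R hR
    refine Complex.circleIntegral_eq_of_differentiable_on_annulus_off_countable (by norm_num) hR
      Set.countable_empty ?_ ?_
    · intro z hz
      have hz3 : 3 ≤ ‖z‖ := by
        have := hz.2
        simpa using this
      have hz0 : z ≠ 0 := by
        rintro rfl
        simp at hz3
        linarith
      have h1 : ContinuousAt f z := hfc.continuousAt (hopen.mem_nhds (by simp only [Set.mem_ofPred_eq]; linarith))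
      exact (h1.mul (((continuous_pow (j + 1)).continuousAt).inv₀ (pow_ne_zero _ hz0))).continuousWithinAt
    · intro z hz
      have hz3 : 3 < ‖z‖ := by
        have := hz.1.2
        simpa using this
      have hz0 : z ≠ 0 := by
        rintro rfl
        simp at hz3
        linarith
      have h1 : DifferentiableAt ℂ f z := hd.differentiableAt (hopen.mem_nhds (by simp only [Set.mem_ofPred_eq]; linarith))
      exact h1.mul ((differentiableAt_pow (j + 1)).inv (pow_ne_zero _ hz0))
  have hJ : ‖∮ z in C(0, 3), f z * (z ^ (j + 1))⁻¹‖ ≤ 2 * Real.pi * M := by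
    have h1 : ∀ z ∈ sphere (0 : ℂ) 3, ‖f z * (z ^ (j + 1))⁻¹‖ ≤ M / 3 := by
      intro z hz
      have hz3 : ‖z‖ = 3 := by simpa using hz
      rw [norm_mul, norm_inv, norm_pow, hz3, div_eq_mul_inv]
      refine mul_le_mul (hM z hz3) ?_ (by positivity) hM0
      apply inv_anti₀ (by norm_num)
      calc (3 : ℝ) = 3 ^ 1 := by norm_num
        _ ≤ 3 ^ (j + 1) := pow_le_pow_right₀ (by norm_num) (by omega)
    refine (circleIntegral.norm_integral_le_of_norm_le_const (by norm_num) h1).trans (le_of_eq ?_)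
    ring
  have hmain : ∀ R : ℝ, 3 ≤ R → 2 * Real.pi * |p.coeff j| ≤ 2 * Real.pi * M + 2 * Real.pi * |C| / R := by
    intro R hR
    have hR0 : 0 < R := by linarith
    have hsub : sphere (0 : ℂ) R ⊆ {z | 5 / 4 < ‖z‖} := by
      intro z hz
      have : ‖z‖ = R := by simpa using hz
      simp only [Set.mem_ofPred_eq]
      linarith
    have i1 : CircleIntegrable (fun z => f z * (z ^ (j + 1))⁻¹) 0 R :=
      ContinuousOn.circleIntegrable hR0.le ((hfc.mono hsub).mul (sub_cont_inv R hR0 j))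
    have hpc : Continuous (pv p) := by
      unfold pv
      exact Polynomial.continuous_aeval p
    have i2 : CircleIntegrable (fun z => pv p z * (z ^ (j + 1))⁻¹) 0 R :=
      ContinuousOn.circleIntegrable hR0.le (hpc.continuousOn.mul (sub_cont_inv R hR0 j))
    have e1 : (∮ z in C(0, R), pv p z * (z ^ (j + 1))⁻¹) =
        (∮ z in C(0, 3), f z * (z ^ (j + 1))⁻¹) - ∮ z in C(0, R), (f z - pv p z) * (z ^ (j + 1))⁻¹ := by
      rw [← hann R hR]
      have : (fun z => (f z - pv p z) * (z ^ (j + 1))⁻¹) =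
          fun z => f z * (z ^ (j + 1))⁻¹ - pv p z * (z ^ (j + 1))⁻¹ := by
        funext z; ring
      rw [this, circleIntegral.integral_sub i1 i2]
      ring
    have h1 : ∀ z ∈ sphere (0 : ℂ) R, ‖(f z - pv p z) * (z ^ (j + 1))⁻¹‖ ≤ |C| / R * R⁻¹ := by
      intro z hz
      have hzR : ‖z‖ = R := by simpa using hz
      rw [norm_mul, norm_inv, norm_pow, hzR]
      have hCz : ‖f z - pv p z‖ ≤ C / ‖z‖ := hC z (by linarith)
      rw [hzR] at hCz
      refine mul_le_mul (hCz.trans (by gcongr; exact le_abs_self C)) ?_ (by positivity) (by positivity)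
      apply inv_anti₀ hR0
      calc R = R ^ 1 := by ring
        _ ≤ R ^ (j + 1) := pow_le_pow_right₀ (by linarith) (by omega)
    have h2 := circleIntegral.norm_integral_le_of_norm_le_const hR0.le h1
    rw [sub_circ_poly R hR0 p j] at e1
    have e2 : ‖((p.coeff j : ℝ) : ℂ) * (2 * (Real.pi : ℂ) * I)‖ = 2 * Real.pi * |p.coeff j| := by
      rw [norm_mul, norm_mul, norm_mul, Complex.norm_I, Complex.norm_real, Complex.norm_real, Complex.norm_ofNat,
        Real.norm_of_nonneg Real.pi_pos.le, Real.norm_eq_abs]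
      ring
    rw [← e2, e1]
    refine (norm_sub_le _ _).trans (add_le_add hJ (h2.trans (le_of_eq ?_)))
    field_simp
  have hlim : Tendsto (fun R : ℝ => 2 * Real.pi * M + 2 * Real.pi * |C| / R) atTop (𝓝 (2 * Real.pi * M + 0)) :=
    tendsto_const_nhds.add (tendsto_const_nhds.div_atTop tendsto_id)
  have h3 : 2 * Real.pi * |p.coeff j| ≤ 2 * Real.pi * M + 0 :=
    ge_of_tendsto hlim (eventually_atTop.2 ⟨3, fun R hR => hmain R hR⟩)
  have hpi := Real.pi_pos
  nlinarith

/-- bounded real polynomials have convergent subsequences -/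
private lemma sub_bw (N : ℕ) (M : ℝ) (p : ℕ → Polynomial ℝ) (hdeg : ∀ k, (p k).natDegree ≤ N)
    (hb : ∀ k j, |(p k).coeff j| ≤ M) : ∃ (φ : ℕ → ℕ) (q : Polynomial ℝ), StrictMono φ ∧ q.natDegree ≤ N ∧
      ∀ i, Tendsto (fun k => (p (φ k)).coeff i) atTop (𝓝 (q.coeff i)) := by
  have hM0 : 0 ≤ M := (abs_nonneg _).trans (hb 0 0)
  set a : ℕ → (Fin (N + 1) → ℝ) := fun k i => (p k).coeff i with ha
  have hmem : ∀ k, a k ∈ closedBall (0 : Fin (N + 1) → ℝ) M := by
    intro k
    rw [mem_closedBall_zero_iff, pi_norm_le_iff_of_nonneg hM0]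
    intro i
    rw [Real.norm_eq_abs]
    exact hb k i
  obtain ⟨b, _, φ, hφ, hlim⟩ := tendsto_subseq_of_bounded (isBounded_closedBall) hmem
  refine ⟨φ, ∑ i : Fin (N + 1), Polynomial.monomial (i : ℕ) (b i), hφ, ?_, ?_⟩
  · apply Polynomial.natDegree_sum_le_of_forall_le
    intro i _
    exact (Polynomial.natDegree_monomial_le _).trans (by have := i.2; omega)
  · intro i
    have hq : (∑ l : Fin (N + 1), Polynomial.monomial (l : ℕ) (b l)).coeff i =
        if h : i < N + 1 then b ⟨i, h⟩ else 0 := by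
      rw [Polynomial.finsetSum_coeff]
      simp only [Polynomial.coeff_monomial]
      split_ifs with h
      · rw [Finset.sum_eq_single ⟨i, h⟩]
        · simp
        · intro l _ hl
          rw [if_neg]
          intro hli
          exact hl (Fin.ext hli)
        · intro hl
          exact absurd (Finset.mem_univ _) hl
      · apply Finset.sum_eq_zero
        intro l _
        rw [if_neg]
        have := l.2
        omega
    rw [hq]
    split_ifs with h
    · have := (tendsto_pi_nhds.1 hlim) ⟨i, h⟩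
      exact this
    · have h0 : ∀ k, (p (φ k)).coeff i = 0 := by
        intro k
        apply Polynomial.coeff_eq_zero_of_natDegree_lt
        have := hdeg (φ k)
        omega
      simp only [h0]
      exact tendsto_const_nhds

theorem piece_sub (h1 : S_dmod) (h2 : S_AA) (h4 : S_polypart) (h5 : S_fp) : S_sub := by
  intro κ hκ0 hκ1 μ hμ μk hμk hae m n f d hN hfd
  obtain ⟨C, δ, hδ, hCd⟩ := h1 κ hκ0 hκ1
  obtain ⟨φ, h, hφ, hhc, hhb, _, hunif⟩ := h2 C δ hδ d
    (fun k z => (hCd (μk k) (hμk k) m n (f k) (d k) (hfd k) hN).1 z)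
    (fun k ε hε z z' hz => (hCd (μk k) (hμk k) m n (f k) (d k) (hfd k) hN).2 ε hε z z' hz)
  have hC0 : 0 ≤ C := by
    have := (norm_nonneg _).trans (hhb 0)
    simpa using this
  set N : ℕ := m + n with hNdef
  -- polynomial parts
  choose p hp using fun k => h4 κ (μk k) N (f k) (hμk k).mu (hfd k).pn
  -- bound on the circle of radius 3
  have hb3 : ∀ k z, ‖z‖ = 3 → ‖f k z‖ ≤ 5 ^ N * Real.exp (N * C) := by
    intro k z hz
    rw [(hfd k).eq z, norm_mul, norm_mul, norm_pow, norm_pow, Complex.norm_exp]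
    have e1 : ‖z + 2‖ ≤ 5 := by
      calc ‖z + 2‖ ≤ ‖z‖ + ‖(2 : ℂ)‖ := norm_add_le _ _
        _ = 5 := by rw [hz, Complex.norm_ofNat]; norm_num
    have e2 : ‖2 - z‖ ≤ 5 := by
      calc ‖2 - z‖ ≤ ‖(2 : ℂ)‖ + ‖z‖ := norm_sub_le _ _
        _ = 5 := by rw [hz, Complex.norm_ofNat]; norm_num
    have e3 : (((m + n : ℕ) : ℂ) * d k z).re ≤ N * C := by
      have h0 : (((m + n : ℕ) : ℂ) * d k z).re = (N : ℝ) * (d k z).re := by
        rw [← hNdef, ← Complex.ofReal_natCast, Complex.re_ofReal_mul]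
      rw [h0]
      have h1' := (hCd (μk k) (hμk k) m n (f k) (d k) (hfd k) hN).1 z
      have h2' : (d k z).re ≤ C := by
        refine (Complex.re_le_norm _).trans (h1'.trans ?_)
        apply div_le_self hC0
        rw [hz]; norm_num
      exact mul_le_mul_of_nonneg_left h2' (Nat.cast_nonneg _)
    rw [hNdef, pow_add]
    refine mul_le_mul (mul_le_mul (pow_le_pow_left₀ (norm_nonneg _) e1 _)
      (pow_le_pow_left₀ (norm_nonneg _) e2 _) (by positivity) (by positivity)) ?_ (Real.exp_pos _).le (by positivity)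
    exact Real.exp_le_exp.2 e3
  have hcb : ∀ k j, |(p k).coeff j| ≤ 5 ^ N * Real.exp (N * C) := fun k j =>
    sub_coeff_bound (f k) (p k) _ (hp k).2.1 (hp k).2.2.2 (hb3 k) j
  obtain ⟨ψ, q, hψ, hqd, hqc⟩ := sub_bw N _ (fun k => p (φ k)) (fun k => (hp (φ k)).1) (fun k j => hcb (φ k) j)
  -- the limit
  obtain ⟨g, hg, hgdec⟩ := (h5 κ hκ0 hκ1 μ hμ).1 q
  have hgN : PN μ N g := by
    refine ⟨hg.cont, hg.symm, hg.bel, ?_⟩
    obtain ⟨C', hC'⟩ := hg.growth
    refine ⟨|C'|, fun z => (hC' z).trans ?_⟩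
    refine (mul_le_mul_of_nonneg_right (le_abs_self C') (by positivity)).trans ?_
    refine mul_le_mul_of_nonneg_left ?_ (abs_nonneg _)
    exact pow_le_pow_right₀ (by linarith [norm_nonneg z]) hqd
  have hconv := (h5 κ hκ0 hκ1 μ hμ).2 (fun k => μk (φ (ψ k))) N q (fun k => p (φ (ψ k))) g (fun k => f (φ (ψ k)))
    (fun k => hμk _) (by
      filter_upwards [hae] with z hz
      exact hz.comp ((hφ.comp hψ).tendsto_atTop)) (fun k => (hp _).1) hqd hqc hgN hgdec
    (fun k => (hfd _).pn) (fun k => (hp _).2.1)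
  have hptd : ∀ z, Tendsto (fun k => d (φ (ψ k)) z) atTop (𝓝 (h z)) := fun z =>
    (hunif.tendsto_at z).comp hψ.tendsto_atTop
  have hptf : ∀ z, Tendsto (fun k => f (φ (ψ k)) z) atTop (𝓝 (g z)) := fun z =>
    (hconv {z} isCompact_singleton).tendsto_at (mem_singleton z)
  have hgeq : ∀ z, g z = (z + 2) ^ m * (2 - z) ^ n * exp (((m + n : ℕ) : ℂ) * h z) := by
    intro z
    refine tendsto_nhds_unique (hptf z) ?_
    have e : (fun k => f (φ (ψ k)) z) =
        fun k => (z + 2) ^ m * (2 - z) ^ n * exp (((m + n : ℕ) : ℂ) * d (φ (ψ k)) z) := by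
      funext k
      exact (hfd _).eq z
    rw [e]
    exact tendsto_const_nhds.mul ((Complex.continuous_exp.tendsto _).comp (tendsto_const_nhds.mul (hptd z)))
  have hhsymm : ∀ z, h (conj z) = conj (h z) := by
    intro z
    refine tendsto_nhds_unique (hptd (conj z)) ?_
    have e : (fun k => d (φ (ψ k)) (conj z)) = fun k => conj (d (φ (ψ k)) z) := by
      funext k
      exact (hfd _).dsymm z
    rw [e]
    exact (Complex.continuous_conj.tendsto _).comp (hptd z)
  refine ⟨φ ∘ ψ, g, h, hφ.comp hψ, ⟨hgN, hhc, hhsymm, ⟨C, fun z hz => (hhb z).trans ?_⟩, hgeq⟩, ?_⟩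
  · apply div_le_div_of_nonneg_left hC0 (by linarith) (by linarith)
  · rw [Metric.tendstoUniformly_iff] at hunif ⊢
    intro ε hε
    exact (hψ.tendsto_atTop).eventually (hunif ε hε)

end Cal
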