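import Pool.Agent.Lib.MP_4ea4c7_an.StmD

/-! # [CA G4] expansion coefficients at `-2` -/

open MeasureTheory Complex Metric Set Filter Topology
open scoped ComplexConjugate ENNReal NNReal

namespace Cal

noncomputable section

/-- factor out a zero -/
private lemma fac (h : ℂ → ℂ) (m : ℕ) (ha : AnalyticAt ℂ h (-2))
    (hO : h =O[𝓝 (-2 : ℂ)] fun z => (z + 2) ^ m) :
    ∃ v, AnalyticAt ℂ v (-2) ∧ ∀ᶠ z in 𝓝 (-2 : ℂ), h z = (z + 2) ^ m * v z := by
  have key : (m : ℕ∞) ≤ analyticOrderAt h (-2) := by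
    by_contra hcon
    rw [not_le] at hcon
    obtain ⟨n, hn⟩ := ENat.ne_top_iff_exists.mp (ne_top_of_lt hcon)
    rw [← hn] at hcon
    have hnm : n < m := by exact_mod_cast hcon
    obtain ⟨g, hg, hg0, hev⟩ := (ha.analyticOrderAt_eq_natCast).mp hn.symm
    obtain ⟨C, hC⟩ := hO.bound
    have hev2 : ∀ᶠ z in 𝓝[≠] (-2 : ℂ), ‖g z‖ ≤ C * ‖z + 2‖ ^ (m - n) := by
      have h1 : ∀ᶠ z in 𝓝[≠] (-2 : ℂ), z ≠ -2 := eventually_mem_nhdsWithin
      filter_upwards [hev.filter_mono nhdsWithin_le_nhds, hC.filter_mono nhdsWithin_le_nhds, h1]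
        with z e1 e2 e3
      have hz : z + 2 ≠ 0 := fun h0 => e3 (by linear_combination h0)
      have hzp : 0 < ‖z + 2‖ := norm_pos_iff.mpr hz
      rw [e1, sub_neg_eq_add, smul_eq_mul, norm_mul, norm_pow, norm_pow] at e2
      have h3 : ‖z + 2‖ ^ m = ‖z + 2‖ ^ n * ‖z + 2‖ ^ (m - n) := by
        rw [← pow_add]; congr 1; omega
      rw [h3] at e2
      have h4 : 0 < ‖z + 2‖ ^ n := pow_pos hzp n
      have h5 : ‖z + 2‖ ^ n * ‖g z‖ ≤ ‖z + 2‖ ^ n * (C * ‖z + 2‖ ^ (m - n)) := by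
        calc _ ≤ _ := e2
          _ = _ := by ring
      exact le_of_mul_le_mul_left h5 h4
    have hlim0 : Tendsto (fun z : ℂ => C * ‖z + 2‖ ^ (m - n)) (𝓝[≠] (-2 : ℂ)) (𝓝 0) := by
      have h1 : Continuous (fun z : ℂ => C * ‖z + 2‖ ^ (m - n)) := by fun_prop
      have h2 := h1.tendsto (-2 : ℂ)
      have h3 : C * ‖(-2 : ℂ) + 2‖ ^ (m - n) = 0 := by
        rw [neg_add_cancel, norm_zero, zero_pow (by omega), mul_zero]
      rw [h3] at h2
      exact h2.mono_left nhdsWithin_le_nhds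
    have hlim1 : Tendsto g (𝓝[≠] (-2 : ℂ)) (𝓝 0) := squeeze_zero_norm' hev2 hlim0
    have hlim2 : Tendsto g (𝓝[≠] (-2 : ℂ)) (𝓝 (g (-2))) :=
      hg.continuousAt.tendsto.mono_left nhdsWithin_le_nhds
    exact hg0 (tendsto_nhds_unique hlim2 hlim1)
  obtain ⟨v, hv, hev⟩ := (natCast_le_analyticOrderAt ha).mp key
  refine ⟨v, hv, ?_⟩
  filter_upwards [hev] with z hz
  rw [hz, sub_neg_eq_add, smul_eq_mul]

private def Good (m : ℕ) (g : ℂ → ℂ) : Prop :=
  (∃ v, AnalyticAt ℂ v (-2) ∧ ∀ᶠ z in 𝓝 (-2 : ℂ), g z = (z + 2) ^ m * v z) ∧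
    ∀ z, g (conj z) = conj (g z)

private lemma Good.bigO {m : ℕ} {g : ℂ → ℂ} (h : Good m g) :
    g =O[𝓝 (-2 : ℂ)] fun z => (z + 2) ^ m := by
  obtain ⟨⟨v, hv, hev⟩, -⟩ := h
  have h1 : (fun z => (z + 2) ^ m * v z) =O[𝓝 (-2 : ℂ)] fun z => (z + 2) ^ m * (1 : ℂ) :=
    (Asymptotics.isBigO_refl _ _).mul (hv.continuousAt.tendsto.isBigO_one ℂ)
  simp only [mul_one] at h1
  exact h1.congr' (by filter_upwards [hev] with z hz; exact hz.symm) (Filter.EventuallyEq.refl _ _)

private lemma conj_m2 : conj (-2 : ℂ) = -2 := by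
  rw [map_neg, map_ofNat]

/-- the value of the cofactor at `-2` is real -/
private lemma real_val {m : ℕ} {g v : ℂ → ℂ} (hv : AnalyticAt ℂ v (-2))
    (hev : ∀ᶠ z in 𝓝 (-2 : ℂ), g z = (z + 2) ^ m * v z) (hs : ∀ z, g (conj z) = conj (g z)) :
    conj (v (-2)) = v (-2) := by
  have hcl : Tendsto (fun z : ℂ => conj z) (𝓝 (-2 : ℂ)) (𝓝 (-2 : ℂ)) := by
    have := (Complex.continuous_conj).tendsto (-2 : ℂ)
    rwa [conj_m2] at this
  have h1 : ∀ᶠ z in 𝓝[≠] (-2 : ℂ), z ≠ -2 := eventually_mem_nhdsWithin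
  have hz : ∀ᶠ z in 𝓝[≠] (-2 : ℂ), conj (v (conj z)) = v z := by
    filter_upwards [hev.filter_mono nhdsWithin_le_nhds,
      (hcl.eventually hev).filter_mono nhdsWithin_le_nhds, h1] with z e1 e2 e3
    have hz : z + 2 ≠ 0 := fun h0 => e3 (by linear_combination h0)
    have h2 : conj (g (conj z)) = (z + 2) ^ m * conj (v (conj z)) := by
      rw [e2, map_mul, map_pow, map_add, Complex.conj_conj, map_ofNat]
    rw [hs, Complex.conj_conj, e1] at h2
    exact (mul_left_cancel₀ (pow_ne_zero m hz) h2).symm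
  have hc1 : Tendsto (fun z => conj (v (conj z))) (𝓝[≠] (-2 : ℂ)) (𝓝 (conj (v (-2)))) := by
    have h2 : Tendsto (fun z => v (conj z)) (𝓝 (-2 : ℂ)) (𝓝 (v (-2))) :=
      hv.continuousAt.tendsto.comp hcl
    exact ((Complex.continuous_conj.tendsto _).comp h2).mono_left nhdsWithin_le_nhds
  have hc2 : Tendsto v (𝓝[≠] (-2 : ℂ)) (𝓝 (v (-2))) :=
    hv.continuousAt.tendsto.mono_left nhdsWithin_le_nhds
  exact tendsto_nhds_unique (hc1.congr' hz) hc2

private lemma fmn_eq {μ : ℂ → ℝ} {i : ℕ} {F D : ℂ → ℂ} (h : FMN μ i 0 F D) (z : ℂ) :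
    F z = (z + 2) ^ i * exp ((i : ℂ) * D z) := by
  have := h.eq z
  rw [pow_zero, mul_one, add_zero] at this
  exact this

private lemma far_nhds : {z : ℂ | 5 / 4 < ‖z‖} ∈ 𝓝 (-2 : ℂ) := by
  apply (isOpen_lt continuous_const continuous_norm).mem_nhds
  show 5 / 4 < ‖(-2 : ℂ)‖
  rw [norm_neg, Complex.norm_ofNat]
  norm_num

/-- the cofactor of `F` -/
private lemma u_an {μ : ℂ → ℝ} {i : ℕ} {F D : ℂ → ℂ} (h : FMN μ i 0 F D)
    (hF : DifferentiableOn ℂ F {z | 5 / 4 < ‖z‖}) :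
    AnalyticAt ℂ (fun z => exp ((i : ℂ) * D z)) (-2) := by
  apply Complex.analyticAt_of_differentiable_on_punctured_nhds_of_continuousAt
  · have h1 : ∀ᶠ z in 𝓝[≠] (-2 : ℂ), z ≠ -2 := eventually_mem_nhdsWithin
    have h2 : ∀ᶠ z in 𝓝[≠] (-2 : ℂ), z ∈ {z : ℂ | 5 / 4 < ‖z‖} :=
      Filter.Eventually.filter_mono nhdsWithin_le_nhds far_nhds
    filter_upwards [h1, h2] with z e1 e2
    have hz : z + 2 ≠ 0 := fun h0 => e1 (by linear_combination h0)
    have hd : DifferentiableAt ℂ F z := hF.differentiableAt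
      ((isOpen_lt continuous_const continuous_norm).mem_nhds e2)
    have hd2 : DifferentiableAt ℂ (fun z => F z / (z + 2) ^ i) z :=
      hd.div (((differentiableAt_id).add_const 2).pow i) (pow_ne_zero i hz)
    apply hd2.congr_of_eventuallyEq
    have h3 : ∀ᶠ w in 𝓝 z, w ≠ -2 := isOpen_ne.mem_nhds e1
    filter_upwards [h3] with w hw
    have hw2 : w + 2 ≠ 0 := fun h0 => hw (by linear_combination h0)
    rw [fmn_eq h w, mul_div_cancel_left₀ _ (pow_ne_zero i hw2)]
  · exact (Complex.continuous_exp.comp (continuous_const.mul h.dcont)).continuousAt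

private lemma good_step {μ : ℂ → ℝ} {m : ℕ} {F D : ℂ → ℂ} (h : FMN μ m 0 F D)
    (hF : DifferentiableOn ℂ F {z | 5 / 4 < ‖z‖}) {g : ℂ → ℂ} (hg : Good m g) :
    ∃ c : ℝ, Good (m + 1) (fun z => g z - (c : ℂ) * F z) := by
  obtain ⟨⟨v, hv, hev⟩, hs⟩ := hg
  have hvr := real_val hv hev hs
  have hua := u_an h hF
  have hdr : conj (D (-2)) = D (-2) := by rw [← h.dsymm, conj_m2]
  set u : ℂ → ℂ := fun z => exp ((m : ℂ) * D z) with hu
  have hur : conj (u (-2)) = u (-2) := by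
    rw [hu]
    simp only
    rw [← Complex.exp_conj, map_mul, hdr, Complex.conj_natCast]
  have hu0 : u (-2) ≠ 0 := Complex.exp_ne_zero _
  have hcr : conj (v (-2) / u (-2)) = v (-2) / u (-2) := by rw [map_div₀, hvr, hur]
  have hc : (((v (-2) / u (-2)).re : ℝ) : ℂ) = v (-2) / u (-2) := Complex.conj_eq_iff_re.mp hcr
  refine ⟨(v (-2) / u (-2)).re, ?_, ?_⟩
  · rw [hc]
    set c : ℂ := v (-2) / u (-2) with hcdef
    have hwa : AnalyticAt ℂ (fun z => v z - c * u z) (-2) := hv.sub (analyticAt_const.mul hua)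
    have hw0 : (fun z => v z - c * u z) (-2) = 0 := by
      show v (-2) - c * u (-2) = 0
      rw [hcdef, div_mul_cancel₀ _ hu0, sub_self]
    have hord : ((1 : ℕ) : ℕ∞) ≤ analyticOrderAt (fun z => v z - c * u z) (-2) := by
      have := (hwa.analyticOrderAt_ne_zero).mpr hw0
      rw [Nat.cast_one]
      exact Order.one_le_iff_pos.mpr (pos_iff_ne_zero.mpr this)
    obtain ⟨w, hw, hwe⟩ := (natCast_le_analyticOrderAt hwa).mp hord
    refine ⟨w, hw, ?_⟩
    filter_upwards [hev, hwe] with z e1 e2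
    rw [e1, fmn_eq h z]
    have e3 : v z - c * u z = (z + 2) * w z := by
      rw [e2, pow_one, sub_neg_eq_add, smul_eq_mul]
    rw [pow_succ, mul_assoc, ← e3]
    ring
  · intro z
    show g (conj z) - _ * F (conj z) = conj (g z - _ * F z)
    rw [hs, h.pn.symm, map_sub, map_mul, Complex.conj_ofReal]

open Classical in
private def cc (F : ℕ → ℂ → ℂ) (m : ℕ) (g : ℂ → ℂ) : ℝ :=
  if h : ∃ c : ℝ, Good (m + 1) (fun z => g z - (c : ℂ) * F m z) then h.choose else 0

private def ss (F : ℕ → ℂ → ℂ) (k : ℂ → ℂ) : ℕ → ℂ → ℂ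
  | 0 => k
  | m + 1 => fun z => ss F k m z - (cc F m (ss F k m) : ℂ) * F m z

theorem piece_theta (h1 : S_ksb) (h2 : S_polypart) : S_theta := by
  intro κ hκ0 hκ1 r hr1 hr2 μ hμ φ k A B hφ hk F D hF
  have hμ' : Mu κ (5 / 4) μ :=
    ⟨hμ.meas, hμ.bd, fun z hz => hμ.supp z (lt_of_le_of_lt hr2 hz), hμ.symm⟩
  have hFd : ∀ i, DifferentiableOn ℂ (F i) {z | 5 / 4 < ‖z‖} := by
    intro i
    obtain ⟨p, -, -, -, hd⟩ := h2 κ μ (i + 0) (F i) hμ' (hF i).pn
    exact hd
  have hkd : AnalyticAt ℂ k (-2) := by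
    have h3 := (h1 κ hκ0 hκ1 r hr1 hr2 μ hμ φ k A B hφ hk).1.2.2
    apply h3.analyticAt
    apply (isOpen_lt continuous_const continuous_norm).mem_nhds
    show r < ‖(-2 : ℂ)‖
    rw [norm_neg, Complex.norm_ofNat]
    linarith
  constructor
  · refine ⟨fun m => cc F m (ss F k m), fun m => ?_⟩
    have hgood : ∀ m, Good m (ss F k m) := by
      intro m
      induction m with
      | zero =>
        refine ⟨⟨k, hkd, ?_⟩, hk.symm⟩
        filter_upwards with z
        rw [pow_zero, one_mul]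
        rfl
      | succ m ih =>
        have hex := good_step (hF m) (hFd m) ih
        show Good (m + 1) (fun z => ss F k m z - (cc F m (ss F k m) : ℂ) * F m z)
        unfold cc
        rw [dif_pos hex]
        exact hex.choose_spec
    have hsum : ∀ m z, ss F k m z =
        k z - ∑ i ∈ Finset.range m, ((cc F i (ss F k i) : ℝ) : ℂ) * F i z := by
      intro m
      induction m with
      | zero => intro z; simp [ss]
      | succ m ih =>
        intro z
        show ss F k m z - (cc F m (ss F k m) : ℂ) * F m z = _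
        rw [ih z, Finset.sum_range_succ]
        ring
    have := (hgood m).bigO
    have e : ss F k m = fun z =>
        k z - ∑ i ∈ Finset.range m, ((cc F i (ss F k i) : ℝ) : ℂ) * F i z := funext (hsum m)
    rw [e] at this
    exact this
  · intro θ θ' ht ht'
    by_contra hne
    have hex : ∃ m, θ m ≠ θ' m := by
      by_contra h
      push Not at h
      exact hne (funext h)
    classical
    set m := Nat.find hex with hm
    have hm1 : θ m ≠ θ' m := Nat.find_spec hex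
    have hm2 : ∀ i < m, θ i = θ' i := fun i hi => by
      have := Nat.find_min hex hi
      push Not at this
      exact this
    have hO := (ht (m + 1)).sub (ht' (m + 1))
    have e : (fun z => (k z - ∑ i ∈ Finset.range (m + 1), (θ i : ℂ) * F i z) -
        (k z - ∑ i ∈ Finset.range (m + 1), (θ' i : ℂ) * F i z)) =
        fun z => (z + 2) ^ m * (((θ' m - θ m : ℝ) : ℂ) * exp ((m : ℂ) * D m z)) := by
      funext z
      rw [Finset.sum_range_succ, Finset.sum_range_succ]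
      have : ∑ i ∈ Finset.range m, (θ i : ℂ) * F i z = ∑ i ∈ Finset.range m, (θ' i : ℂ) * F i z :=
        Finset.sum_congr rfl (fun i hi => by rw [hm2 i (Finset.mem_range.mp hi)])
      rw [this, fmn_eq (hF m) z]
      push_cast
      ring
    rw [e] at hO
    have hua := u_an (hF m) (hFd m)
    have hwa : AnalyticAt ℂ (fun z => ((θ' m - θ m : ℝ) : ℂ) * exp ((m : ℂ) * D m z)) (-2) :=
      analyticAt_const.mul hua
    have hpa : AnalyticAt ℂ (fun z : ℂ => (z + 2) ^ m) (-2) :=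
      ((analyticAt_id).add analyticAt_const).pow m
    obtain ⟨v, hv, hev⟩ := fac _ (m + 1) (hpa.mul hwa) hO
    have h1 : ∀ᶠ z in 𝓝[≠] (-2 : ℂ), z ≠ -2 := eventually_mem_nhdsWithin
    have heq : ∀ᶠ z in 𝓝[≠] (-2 : ℂ),
        ((θ' m - θ m : ℝ) : ℂ) * exp ((m : ℂ) * D m z) = (z + 2) * v z := by
      filter_upwards [hev.filter_mono nhdsWithin_le_nhds, h1] with z e1 e2
      have hz : z + 2 ≠ 0 := fun h0 => e2 (by linear_combination h0)
      have e3 : (z + 2) ^ m * (((θ' m - θ m : ℝ) : ℂ) * exp ((m : ℂ) * D m z)) =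
          (z + 2) ^ m * ((z + 2) * v z) := by
        refine Eq.trans e1 ?_
        rw [pow_succ]; ring
      exact mul_left_cancel₀ (pow_ne_zero m hz) e3
    have hl1 : Tendsto (fun z => ((θ' m - θ m : ℝ) : ℂ) * exp ((m : ℂ) * D m z)) (𝓝[≠] (-2 : ℂ))
        (𝓝 (((θ' m - θ m : ℝ) : ℂ) * exp ((m : ℂ) * D m (-2)))) :=
      hwa.continuousAt.tendsto.mono_left nhdsWithin_le_nhds
    have hl2 : Tendsto (fun z : ℂ => (z + 2) * v z) (𝓝[≠] (-2 : ℂ)) (𝓝 (((-2 : ℂ) + 2) * v (-2))) := by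
      have : ContinuousAt (fun z : ℂ => (z + 2) * v z) (-2) :=
        ((continuousAt_id).add continuousAt_const).mul hv.continuousAt
      exact this.tendsto.mono_left nhdsWithin_le_nhds
    have hu := tendsto_nhds_unique (hl1.congr' heq) hl2
    rw [neg_add_cancel, zero_mul, mul_eq_zero] at hu
    rcases hu with hu | hu
    · have : θ' m - θ m = 0 := by exact_mod_cast hu
      exact hm1 (by linarith)
    · exact Complex.exp_ne_zero _ hu

end

end Cal
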