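import Pool.Agent.Lib.MP_4ea4c7_an.StmD

/-! [J4] The form vanishes on functions vanishing on the diameter. -/

open MeasureTheory Complex Metric Set Filter Topology
open scoped ComplexConjugate ENNReal NNReal

namespace Cal

noncomputable section

private theorem tr0_HB_open : IsOpen HB := by
  have h : HB = {z : ℂ | ‖z‖ < 1} ∩ {z : ℂ | 0 < z.im} := rfl
  rw [h]
  exact (isOpen_lt continuous_norm continuous_const).inter
    (isOpen_lt continuous_const Complex.continuous_im)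

private theorem tr0_HB_closure : closure HB ⊆ {z : ℂ | ‖z‖ ≤ 1 ∧ 0 ≤ z.im} := by
  have hc : IsClosed {z : ℂ | ‖z‖ ≤ 1 ∧ 0 ≤ z.im} :=
    (isClosed_le continuous_norm continuous_const).inter
      (isClosed_le continuous_const Complex.continuous_im)
  exact closure_minimal (fun z hz => ⟨hz.1.le, hz.2.le⟩) hc

private theorem tr0_cont {Ω : Set ℂ} {φ : ℂ → ℝ} (h : RTF Ω φ) : Continuous (gr φ) := by
  have hc : Continuous (fderiv ℝ φ) := h.1.continuous_fderiv (by simp)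
  have h1 : Continuous (fun z => fderiv ℝ φ z 1) := hc.clm_apply continuous_const
  have h2 : Continuous (fun z => fderiv ℝ φ z I) := hc.clm_apply continuous_const
  unfold gr
  exact (Complex.continuous_ofReal.comp h1).add
    (continuous_const.mul (Complex.continuous_ofReal.comp h2))

private theorem tr0_supp {Ω : Set ℂ} {φ : ℂ → ℝ} (h : RTF Ω φ) : HasCompactSupport (gr φ) := by
  have hc : HasCompactSupport (fderiv ℝ φ) := h.2.1.fderiv (𝕜 := ℝ)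
  refine hc.mono ?_
  intro z hz
  rw [Function.mem_support] at hz ⊢
  intro h0
  apply hz
  unfold gr
  rw [h0]
  simp

private theorem tr0_memLp {Ω : Set ℂ} {φ : ℂ → ℝ} (h : RTF Ω φ) (ν : Measure ℂ)
    [IsFiniteMeasureOnCompacts ν] : MemLp (gr φ) 2 ν :=
  (tr0_cont h).memLp_of_hasCompactSupport (tr0_supp h)

private theorem tr0_cond {κ : ℝ} (h0 : 0 ≤ κ) (h1 : κ < 1) {μ : ℂ → ℝ} (h : Mu κ 1 μ) :
    Cond ((1 - κ) / (1 + κ)) ((1 + κ) / (1 - κ)) (gam μ) := by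
  refine ⟨?_, fun z => ?_, fun z => ?_⟩
  · unfold gam
    exact (measurable_const.add h.meas).div (measurable_const.sub h.meas)
  · have hz := abs_le.1 (h.bd z)
    unfold gam
    rw [div_le_div_iff₀ (by linarith) (by linarith)]
    nlinarith [hz.1, hz.2]
  · have hz := abs_le.1 (h.bd z)
    unfold gam
    rw [div_le_div_iff₀ (by linarith) (by linarith)]
    nlinarith [hz.1, hz.2]

private theorem tr0_Z0 (h4 : S_zb) (h6 : S_bridge) {φ : ℂ → ℝ} (hφ : EvTF φ)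
    (h0 : ∀ x : ℝ, |x| ≤ 1 → φ x = 0) : Z0 HB (gr φ) := by
  have hm : MemLp (gr φ) 2 (volume.restrict HB) := tr0_memLp hφ.tf _
  have hcd : Continuous φ := hφ.tf.1.continuous
  have hfr : ∀ z ∈ frontier HB, φ z = 0 := by
    intro z hz
    rw [tr0_HB_open.frontier_eq] at hz
    obtain ⟨hz1, hz2⟩ := tr0_HB_closure hz.1
    by_cases hn : ‖z‖ < 1
    · have him : z.im = 0 := by
        by_contra hne
        exact hz.2 ⟨hn, lt_of_le_of_ne hz2 (Ne.symm hne)⟩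
      have hze : z = ((z.re : ℝ) : ℂ) := Complex.ext (by simp) (by simpa using him)
      rw [hze]
      exact h0 _ ((Complex.abs_re_le_norm z).trans hz1)
    · by_contra hne
      have h1 : z ∈ tsupport φ := subset_tsupport φ (Function.mem_support.2 hne)
      have h2 := hφ.tf.2.2 h1
      rw [mem_ball, dist_zero_right] at h2
      exact hn h2
  have hbd : Bornology.IsBounded HB := by
    refine (Metric.isBounded_ball (x := (0 : ℂ)) (r := 1)).subset ?_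
    intro z hz
    rw [mem_ball, dist_zero_right]
    exact hz.1
  have hwg : WG HB φ (gr φ) :=
    h6.2.2.1 HB φ tr0_HB_open ((hφ.tf.1.of_le (by exact_mod_cast le_top)).contDiffOn)
  refine ⟨hm, fun ε hε => ?_⟩
  obtain ⟨η, hη, _, hη2⟩ := h4 HB φ (gr φ) tr0_HB_open hbd hcd.continuousOn hfr hwg hm ε hε
  exact ⟨η, hη, hη2⟩

theorem piece_tr0 (h1 : S_ccut) (h2 : S_dec) (h3 : S_52) (h4 : S_zb) (h5 : S_bb)
    (h6 : S_bridge) : S_tr0 := by
  intro κ hκ0 hκ1 μ₁ μ₂ hμ₁ hμ₂ hH hP Φ Ψ hΦ hΨ hz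
  obtain ⟨badd, bsmul, bsymm, ⟨K, hK0, hK⟩, bz, bq, bae⟩ :=
    h5 HB ((1 - κ) / (1 + κ)) ((1 + κ) / (1 - κ)) (gam μ₁) (gam μ₂) tr0_HB_open
      (div_pos (by linarith) (by linarith)) (tr0_cond hκ0 hκ1 hμ₁) (tr0_cond hκ0 hκ1 hμ₂)
  have h52 := h3 κ hκ0 hκ1 μ₁ μ₂ hμ₁ hμ₂ hH hP
  have hmH : MeasurableSet HB := tr0_HB_open.measurableSet
  have claim1 : ∀ Φ' Ψ' : ℂ → ℝ, RTF univ Φ' → RTF univ Ψ' →
      (∀ᶠ z in 𝓝 (1 : ℂ), Φ' z = 0) → (∀ᶠ z in 𝓝 (-1 : ℂ), Φ' z = 0) →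
      (∀ᶠ z in 𝓝 (1 : ℂ), Ψ' z = 0) → (∀ᶠ z in 𝓝 (-1 : ℂ), Ψ' z = 0) →
      (∀ x : ℝ, |x| ≤ 1 → Φ' x = 0) →
      bb HB (gam μ₁) (gam μ₂) (gr Φ') (gr Ψ') = 0 := by
    intro Φ' Ψ' hΦ' hΨ' a1 a2 a3 a4 a5
    obtain ⟨φ, F, H, hφ, hF, e1, e2, _⟩ := h2 Φ' hΦ' a1 a2
    obtain ⟨ψ, F', H', hψ, hF', e1', _, _⟩ := h2 Ψ' hΨ' a3 a4
    have hz0 : Z0 HB (gr φ) := tr0_Z0 h4 h6 hφ fun x hx => by rw [e2 x hx, a5 x hx]
    have mφ : MemLp (gr φ) 2 (volume.restrict HB) := tr0_memLp hφ.tf _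
    have mψ : MemLp (gr ψ) 2 (volume.restrict HB) := tr0_memLp hψ.tf _
    have mΨ : MemLp (gr Ψ') 2 (volume.restrict HB) := tr0_memLp hΨ' _
    have mH : MemLp H 2 (volume.restrict HB) := hF.mem.restrict _
    have mH' : MemLp H' 2 (volume.restrict HB) := hF'.mem.restrict _
    have q1 : gr Φ' =ᵐ[volume.restrict HB] fun z => gr φ z + H z := by
      filter_upwards [ae_restrict_mem hmH] with z hzz
      exact e1 z hzz
    have q2 : gr Ψ' =ᵐ[volume.restrict HB] fun z => gr ψ z + H' z := by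
      filter_upwards [ae_restrict_mem hmH] with z hzz
      exact e1' z hzz
    rw [(bae _ _ (gr Ψ') q1).1, badd _ _ _ mφ mH mΨ, bz _ _ hz0 mΨ, zero_add,
      bsymm _ _ mH mΨ, (bae _ _ H q2).1, badd _ _ _ mψ mH' mH, (show bb HB (gam μ₁) (gam μ₂) (gr ψ) H = 0 from h52 ψ F H hψ hF), zero_add]
    exact (bq H' H mH' mH).1 (hH F' H' F H hF' hF)
  have mΦ : MemLp (gr Φ) 2 (volume.restrict HB) := tr0_memLp hΦ _
  have mΨ : MemLp (gr Ψ) 2 (volume.restrict HB) := tr0_memLp hΨ _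
  have nrm : ∀ (D : ℂ → ℂ) (ε : ℝ), 0 < ε → eLpNorm D 2 volume < ENNReal.ofReal ε →
      (eLpNorm D 2 (volume.restrict HB)).toReal ≤ ε := by
    intro D ε hε hD
    exact ENNReal.toReal_le_of_le_ofReal hε.le
      ((eLpNorm_mono_measure D Measure.restrict_le_self).trans hD.le)
  set B := (eLpNorm (gr Ψ) 2 (volume.restrict HB)).toReal with hB
  have hB0 : 0 ≤ B := ENNReal.toReal_nonneg
  have main : ∀ ε : ℝ, 0 < ε → |bb HB (gam μ₁) (gam μ₂) (gr Φ) (gr Ψ)| ≤ K * (B + 1) * ε := by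
    intro ε hε
    obtain ⟨Φ', hΦ', a1, a2, _, a4, a5⟩ := h1 Φ hΦ ε hε
    have mΦ' : MemLp (gr Φ') 2 (volume.restrict HB) := tr0_memLp hΦ' _
    set A := (eLpNorm (gr Φ') 2 (volume.restrict HB)).toReal with hA
    have hA0 : 0 ≤ A := ENNReal.toReal_nonneg
    have hε' : 0 < ε / (1 + A) := by positivity
    obtain ⟨Ψ', hΨ', b1, b2, _, _, b5⟩ := h1 Ψ hΨ (ε / (1 + A)) hε'
    have mΨ' : MemLp (gr Ψ') 2 (volume.restrict HB) := tr0_memLp hΨ' _
    have mD : MemLp (fun z => gr Φ z - gr Φ' z) 2 (volume.restrict HB) := mΦ.sub mΦ'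
    have mD' : MemLp (fun z => gr Ψ z - gr Ψ' z) 2 (volume.restrict HB) := mΨ.sub mΨ'
    have e1 : bb HB (gam μ₁) (gam μ₂) (gr Φ) (gr Ψ) =
        bb HB (gam μ₁) (gam μ₂) (fun z => gr Φ z - gr Φ' z) (gr Ψ) +
          bb HB (gam μ₁) (gam μ₂) (gr Φ') (gr Ψ) := by
      rw [← badd _ _ _ mD mΦ' mΨ]
      congr 1
      funext z
      ring
    have e2 : bb HB (gam μ₁) (gam μ₂) (gr Φ') (gr Ψ) =
        bb HB (gam μ₁) (gam μ₂) (fun z => gr Ψ z - gr Ψ' z) (gr Φ') := by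
      have e3 : bb HB (gam μ₁) (gam μ₂) (gr Ψ) (gr Φ') =
          bb HB (gam μ₁) (gam μ₂) (fun z => gr Ψ z - gr Ψ' z) (gr Φ') +
            bb HB (gam μ₁) (gam μ₂) (gr Ψ') (gr Φ') := by
        rw [← badd _ _ _ mD' mΨ' mΦ']
        congr 1
        funext z
        ring
      rw [bsymm _ _ mΦ' mΨ, e3, bsymm _ _ mΨ' mΦ',
        claim1 Φ' Ψ' hΦ' hΨ' a1 a2 b1 b2 (fun x hx => a4 _ (hz x hx)), add_zero]
    have k1 := hK _ _ mD mΨ
    have k2 := hK _ _ mD' mΦ'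
    have n1 := nrm _ ε hε a5
    have n2 := nrm _ _ hε' b5
    rw [e1, e2]
    refine (abs_add_le _ _).trans ?_
    have t1 : K * (eLpNorm (fun z => gr Φ z - gr Φ' z) 2 (volume.restrict HB)).toReal * B ≤
        K * ε * B :=
      mul_le_mul_of_nonneg_right (mul_le_mul_of_nonneg_left n1 hK0) hB0
    have t2 : K * (eLpNorm (fun z => gr Ψ z - gr Ψ' z) 2 (volume.restrict HB)).toReal * A ≤
        K * (ε / (1 + A)) * A :=
      mul_le_mul_of_nonneg_right (mul_le_mul_of_nonneg_left n2 hK0) hA0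
    have t3 : K * (ε / (1 + A)) * A ≤ K * ε := by
      rw [mul_assoc]
      refine mul_le_mul_of_nonneg_left ?_ hK0
      rw [div_mul_eq_mul_div, div_le_iff₀ (by positivity)]
      nlinarith
    calc _ ≤ K * ε * B + K * ε := add_le_add (k1.trans t1) (k2.trans (t2.trans t3))
      _ = K * (B + 1) * ε := by ring
  show bb HB (gam μ₁) (gam μ₂) (gr Φ) (gr Ψ) = 0
  by_contra hne
  have hpos : 0 < |bb HB (gam μ₁) (gam μ₂) (gr Φ) (gr Ψ)| := abs_pos.2 hne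
  have hK1 : 0 < K * (B + 1) + 1 := by positivity
  have hm := main (|bb HB (gam μ₁) (gam μ₂) (gr Φ) (gr Ψ)| / (2 * (K * (B + 1) + 1)))
    (by positivity)
  rw [mul_div_assoc', le_div_iff₀ (by positivity)] at hm
  nlinarith [mul_nonneg hK0 (by linarith : (0 : ℝ) ≤ B + 1)]

end

end Cal
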