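import Pool.Agent.Lib.MP_4ea4c7_an.Stm2

/-! Uniqueness of `f_{m,n}` up to a factor -/

set_option autoImplicit false

open MeasureTheory Complex Metric Set Filter Topology
open scoped ComplexConjugate ENNReal NNReal

namespace Cal

noncomputable section

private lemma unq_lead (a : ℂ) (N m : ℕ) (c : ℕ → ℂ) (u : ℕ → ℂ → ℂ)
    (hu : ∀ i, i ≤ N → ContinuousAt (u i) a) (hu0 : ∀ i, i ≤ N → u i a ≠ 0)
    (hO : (fun z => ∑ i ∈ Finset.range (N + 1), c i * ((z - a) ^ i * u i z)) =O[𝓝 a]
      fun z => (z - a) ^ m) :
    ∀ i, i < m → i ≤ N → c i = 0 := by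
  intro i
  induction i using Nat.strong_induction_on with
  | _ i ih =>
    intro him hiN
    set w : ℂ → ℂ := fun z => ∑ j ∈ Finset.range (N + 1),
      if j < i then 0 else c j * ((z - a) ^ (j - i) * u j z) with hw
    have hwc : ContinuousAt w a := by
      refine tendsto_finsetSum _ (fun j hj => ?_)
      have hjN : j ≤ N := by
        have := Finset.mem_range.mp hj
        omega
      split_ifs with hji
      · exact tendsto_const_nhds
      · have h1 : ContinuousAt (fun z : ℂ => c j * ((z - a) ^ (j - i) * u j z)) a :=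
          continuousAt_const.mul
            (((continuousAt_id.sub continuousAt_const).pow _).mul (hu j hjN))
        exact h1
    have hwa : w a = c i * u i a := by
      simp only [hw]
      rw [Finset.sum_eq_single i]
      · simp
      · intro j _ hj
        split_ifs with hji
        · rfl
        · have : j - i ≠ 0 := by omega
          simp [this]
      · intro h
        exact absurd (Finset.mem_range.mpr (by omega)) h
    have heq : ∀ z, ∑ j ∈ Finset.range (N + 1), c j * ((z - a) ^ j * u j z) = (z - a) ^ i * w z := by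
      intro z
      simp only [hw]
      rw [Finset.mul_sum]
      refine Finset.sum_congr rfl (fun j hj => ?_)
      have hjN : j ≤ N := by
        have := Finset.mem_range.mp hj
        omega
      split_ifs with hji
      · rw [ih j hji (hji.trans him) hjN]; ring
      · have : (z - a) ^ j = (z - a) ^ i * (z - a) ^ (j - i) := by
          rw [← pow_add]; congr 1; omega
        rw [this]; ring
    obtain ⟨C, hC⟩ := hO.bound
    have hO' : w =O[𝓝[≠] a] fun z => (z - a) ^ (m - i) := by
      refine Asymptotics.IsBigO.of_bound C ?_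
      filter_upwards [hC.filter_mono nhdsWithin_le_nhds, self_mem_nhdsWithin] with z hz hza
      have hza' : z - a ≠ 0 := sub_ne_zero.mpr hza
      rw [heq z] at hz
      have h2 : (z - a) ^ m = (z - a) ^ i * (z - a) ^ (m - i) := by
        rw [← pow_add]; congr 1; omega
      rw [h2, norm_mul, norm_mul] at hz
      have h3 : 0 < ‖(z - a) ^ i‖ := norm_pos_iff.mpr (pow_ne_zero _ hza')
      have h4 : ‖(z - a) ^ i‖ * ‖w z‖ ≤ ‖(z - a) ^ i‖ * (C * ‖(z - a) ^ (m - i)‖) := by
        linarith
      exact le_of_mul_le_mul_left h4 h3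
    have hlim : Tendsto (fun z : ℂ => (z - a) ^ (m - i)) (𝓝[≠] a) (𝓝 0) := by
      have h5 : ContinuousAt (fun z : ℂ => (z - a) ^ (m - i)) a := by fun_prop
      have h6 : (a - a) ^ (m - i) = 0 := by
        have : m - i ≠ 0 := by omega
        simp [this]
      have h7 := h5.tendsto.mono_left (nhdsWithin_le_nhds (s := {a}ᶜ))
      rw [h6] at h7
      exact h7
    have h8 := hO'.trans_tendsto hlim
    have h9 := hwc.tendsto.mono_left (nhdsWithin_le_nhds (s := {a}ᶜ))
    have h10 := tendsto_nhds_unique h9 h8
    rw [hwa] at h10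
    exact (mul_eq_zero.mp h10).resolve_right (hu0 i hiN)

theorem piece_unq (h1 : S_lim) (h2 : S_basis) : S_unq := by
  intro κ hκ0 hκ1 μ hμ m n f d g hf hg hgm hgn
  obtain ⟨_, _, _, hL⟩ := h1 κ hκ0 hκ1
  have hex : ∀ i : ℕ, ∃ F D : ℂ → ℂ, (i = m → F = f) ∧ (i ≤ m + n → FMN μ i (m + n - i) F D) := by
    intro i
    by_cases him : i = m
    · refine ⟨f, d, fun _ => rfl, fun _ => ?_⟩
      subst him
      rw [Nat.add_sub_cancel_left]
      exact hf
    · obtain ⟨F, D, hFD, -⟩ := hL μ hμ i (m + n - i)
      exact ⟨F, D, fun h => absurd h him, fun _ => hFD⟩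
  choose F D hFm hFD using hex
  obtain ⟨c, hc⟩ := h2 κ hκ0 hκ1 μ hμ (m + n) F D (fun i hi => hFD i hi) g hg
  -- explicit form of the F i
  have hform : ∀ i, i ≤ m + n → ∀ z, F i z
      = (z + 2) ^ i * (2 - z) ^ (m + n - i) * exp (((m + n : ℕ) : ℂ) * D i z) := by
    intro i hi z
    have := (hFD i hi).eq z
    rw [this]
    have h3 : i + (m + n - i) = m + n := by omega
    rw [h3]
  have hDc : ∀ i, i ≤ m + n → Continuous (D i) := fun i hi => (hFD i hi).dcont
  -- at -2
  have hleft : ∀ i, i < m → i ≤ m + n → (c i : ℂ) = 0 := by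
    refine unq_lead (-2) (m + n) m (fun i => (c i : ℂ))
      (fun i z => (2 - z) ^ (m + n - i) * exp (((m + n : ℕ) : ℂ) * D i z)) ?_ ?_ ?_
    · intro i hi
      have := hDc i hi
      fun_prop
    · intro i hi
      refine mul_ne_zero (pow_ne_zero _ ?_) (exp_ne_zero _)
      norm_num
    · have h4 : (fun z : ℂ => z + 2) = fun z => z - (-2) := by
        funext z; ring
      have h5 : (fun z => ∑ i ∈ Finset.range (m + n + 1), (c i : ℂ) *
          ((z - (-2)) ^ i * ((2 - z) ^ (m + n - i) * exp (((m + n : ℕ) : ℂ) * D i z)))) = g := by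
        funext z
        rw [hc z]
        refine Finset.sum_congr rfl (fun i hi => ?_)
        have hi' : i ≤ m + n := by
          have := Finset.mem_range.mp hi
          omega
        rw [hform i hi' z, sub_neg_eq_add]
        ring
      rw [h5]
      refine hgm.congr_right (fun z => ?_)
      rw [sub_neg_eq_add]
  -- at 2
  have hright : ∀ j, j < n → j ≤ m + n → (c (m + n - j) : ℂ) = 0 := by
    refine unq_lead 2 (m + n) n (fun j => (c (m + n - j) : ℂ))
      (fun j z => (-1) ^ j * ((z + 2) ^ (m + n - j) * exp (((m + n : ℕ) : ℂ) * D (m + n - j) z))) ?_ ?_ ?_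
    · intro i hi
      have := hDc (m + n - i) (by omega)
      fun_prop
    · intro i hi
      refine mul_ne_zero (pow_ne_zero _ (by norm_num)) (mul_ne_zero (pow_ne_zero _ ?_) (exp_ne_zero _))
      norm_num
    · have h5 : (fun z => ∑ j ∈ Finset.range (m + n + 1), (c (m + n - j) : ℂ) *
          ((z - 2) ^ j * ((-1) ^ j * ((z + 2) ^ (m + n - j) *
            exp (((m + n : ℕ) : ℂ) * D (m + n - j) z))))) = g := by
        funext z
        rw [hc z, ← Finset.sum_range_reflect (fun i => (c i : ℂ) * F i z)]
        refine Finset.sum_congr rfl (fun j hj => ?_)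
        have hj' : j ≤ m + n := by
          have := Finset.mem_range.mp hj
          omega
        have h6 : m + n + 1 - 1 - j = m + n - j := by omega
        rw [h6, hform (m + n - j) (by omega) z]
        have h7 : m + n - (m + n - j) = j := by omega
        rw [h7]
        have h8 : (2 - z) ^ j = (z - 2) ^ j * (-1) ^ j := by
          rw [← mul_pow]; congr 1; ring
        rw [h8]
        ring
      rw [h5]
      exact hgn
  refine ⟨c m, fun z => ?_⟩
  rw [hc z, Finset.sum_eq_single m]
  · rw [hFm m rfl]
  · intro i hi him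
    have hi' : i ≤ m + n := by
      have := Finset.mem_range.mp hi
      omega
    have : (c i : ℂ) = 0 := by
      rcases lt_or_gt_of_ne him with h | h
      · exact hleft i h hi'
      · have h9 := hright (m + n - i) (by omega) (by omega)
        have h10 : m + n - (m + n - i) = i := by omega
        rw [h10] at h9
        exact h9
    rw [this, zero_mul]
  · intro h
    exact absurd (Finset.mem_range.mpr (by omega)) h

end

end Cal
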