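import Pool.Agent.Lib.MP_4ea4c7_an.StmC

/-! [FC3] Facts about the space `Z0`. -/

open MeasureTheory Complex Metric Set Filter Topology
open scoped ComplexConjugate ENNReal NNReal

namespace Cal

private theorem z0_cont {Ω : Set ℂ} {φ : ℂ → ℝ} (h : RTF Ω φ) : Continuous (gr φ) := by
  have hc : Continuous (fderiv ℝ φ) := h.1.continuous_fderiv (by simp)
  have h1 : Continuous (fun z => fderiv ℝ φ z 1) := hc.clm_apply continuous_const
  have h2 : Continuous (fun z => fderiv ℝ φ z I) := hc.clm_apply continuous_const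
  unfold gr
  exact (Complex.continuous_ofReal.comp h1).add (continuous_const.mul (Complex.continuous_ofReal.comp h2))

private theorem z0_supp {Ω : Set ℂ} {φ : ℂ → ℝ} (h : RTF Ω φ) : HasCompactSupport (gr φ) := by
  have hc : HasCompactSupport (fderiv ℝ φ) := h.2.1.fderiv (𝕜 := ℝ)
  refine hc.mono ?_
  intro z hz
  rw [Function.mem_support] at hz ⊢
  intro h0
  apply hz
  unfold gr
  rw [h0]
  simp

private theorem z0_memLp {Ω : Set ℂ} {φ : ℂ → ℝ} (h : RTF Ω φ) (ν : Measure ℂ) [IsFiniteMeasureOnCompacts ν] :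
    MemLp (gr φ) 2 ν :=
  (z0_cont h).memLp_of_hasCompactSupport (z0_supp h)

private theorem z0_add {Ω : Set ℂ} {φ ψ : ℂ → ℝ} (h : RTF Ω φ) (h' : RTF Ω ψ) (s : ℝ) :
    RTF Ω (fun z => φ z + s * ψ z) ∧ ∀ z, gr (fun z => φ z + s * ψ z) z = gr φ z + s * gr ψ z := by
  constructor
  · refine ⟨h.1.add (contDiff_const.mul h'.1), h.2.1.add (h'.2.1.mul_left (f := fun _ => s)), ?_⟩
    refine (tsupport_add _ _).trans (union_subset h.2.2 ?_)
    exact (closure_mono (Function.support_mul_subset_right (fun _ : ℂ => s) ψ)).trans h'.2.2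
  · intro z
    have d1 : DifferentiableAt ℝ φ z := (h.1.differentiable (by simp)) z
    have d2 : DifferentiableAt ℝ ψ z := (h'.1.differentiable (by simp)) z
    have e : fderiv ℝ (fun z => φ z + s * ψ z) z = fderiv ℝ φ z + s • fderiv ℝ ψ z := by
      have := (d1.hasFDerivAt.add (d2.hasFDerivAt.const_mul s)).fderiv
      exact this
    unfold gr
    rw [e]
    simp only [ContinuousLinearMap.add_apply, ContinuousLinearMap.smul_apply, smul_eq_mul]
    push_cast
    ring

private theorem ip_le (a b : ℂ) : ‖ip a b‖ ≤ ‖a‖ * ‖b‖ := by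
  unfold ip
  rw [Real.norm_eq_abs]
  refine (Complex.abs_re_le_norm _).trans ?_
  rw [norm_mul, Complex.norm_conj]

private theorem ip_meas {ν : Measure ℂ} {F G : ℂ → ℂ} (hF : AEStronglyMeasurable F ν) (hG : AEStronglyMeasurable G ν) :
    AEStronglyMeasurable (fun z => ip (F z) (G z)) ν := by
  have hc : Continuous (fun p : ℂ × ℂ => ip p.1 p.2) := by
    unfold ip
    fun_prop
  exact hc.comp_aestronglyMeasurable (hF.prodMk hG)

private theorem ip_int {ν : Measure ℂ} {F G : ℂ → ℂ} (hF : MemLp F 2 ν) (hG : MemLp G 2 ν) :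
    Integrable (fun z => ip (F z) (G z)) ν := by
  rw [← memLp_one_iff_integrable]
  refine MemLp.of_bilin (p := 2) (q := 2) (r := 1) ip 1 hF hG (ip_meas hF.1 hG.1) ?_
  refine Eventually.of_forall fun z => ?_
  have := ip_le (F z) (G z)
  rw [one_mul]
  exact_mod_cast this

theorem piece_z0 : S_z0 := by
  refine ⟨?_, ?_, ?_⟩
  · intro Ω G hG
    refine ⟨(MemLp.zero (ε := ℂ)).ae_eq hG.symm, ?_⟩
    intro ε hε
    refine ⟨fun _ => 0, ⟨contDiff_const, HasCompactSupport.zero, ?_⟩, ?_⟩
    · simp [tsupport, Function.support]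
    · have : (fun z => G z - gr (fun _ => 0) z) =ᵐ[volume.restrict Ω] (0 : ℂ → ℂ) := by
        filter_upwards [hG] with z hz
        rw [hz]
        simp [gr]
      rw [eLpNorm_congr_ae this, eLpNorm_zero]
      exact ENNReal.ofReal_pos.2 hε
  · intro Ω G G' s hG hG'
    refine ⟨hG.1.add (hG'.1.const_mul (s : ℂ)), ?_⟩
    intro ε hε
    obtain ⟨φ, hφ, h1⟩ := hG.2 (ε / 2) (by positivity)
    obtain ⟨ψ, hψ, h2⟩ := hG'.2 (ε / (2 * (|s| + 1))) (by positivity)
    obtain ⟨h3, h4⟩ := z0_add hφ hψ s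
    refine ⟨_, h3, ?_⟩
    have m1 : AEStronglyMeasurable (fun z => G z - gr φ z) (volume.restrict Ω) :=
      hG.1.1.sub (z0_cont hφ).aestronglyMeasurable
    have m2 : AEStronglyMeasurable (fun z => G' z - gr ψ z) (volume.restrict Ω) :=
      hG'.1.1.sub (z0_cont hψ).aestronglyMeasurable
    have e : (fun z => G z + s * G' z - gr (fun z => φ z + s * ψ z) z)
        = (fun z => G z - gr φ z) + ((s : ℂ) • (fun z => G' z - gr ψ z)) := by
      funext z
      rw [h4]
      simp only [Pi.add_apply, Pi.smul_apply, smul_eq_mul]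
      ring
    rw [e]
    refine (eLpNorm_add_le m1 (m2.const_smul _) (by norm_num)).trans_lt ?_
    have e2 : eLpNorm ((s : ℂ) • (fun z => G' z - gr ψ z)) 2 (volume.restrict Ω) ≤ ENNReal.ofReal (ε / 2) := by
      rw [eLpNorm_const_smul]
      have : ‖(s : ℂ)‖ₑ = ENNReal.ofReal |s| := by
        rw [← ofReal_norm_eq_enorm, Complex.norm_real, Real.norm_eq_abs]
      rw [this]
      calc ENNReal.ofReal |s| * eLpNorm (fun z => G' z - gr ψ z) 2 (volume.restrict Ω)
          ≤ ENNReal.ofReal |s| * ENNReal.ofReal (ε / (2 * (|s| + 1))) := by gcongr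
        _ = ENNReal.ofReal (|s| * (ε / (2 * (|s| + 1)))) := (ENNReal.ofReal_mul (abs_nonneg s)).symm
        _ ≤ ENNReal.ofReal (ε / 2) := by
            apply ENNReal.ofReal_le_ofReal
            have hs : 0 ≤ |s| := abs_nonneg s
            rw [mul_div_assoc', div_le_div_iff₀ (by positivity) (by norm_num)]
            nlinarith [mul_nonneg hs hε.le]
    calc eLpNorm (fun z => G z - gr φ z) 2 (volume.restrict Ω) + eLpNorm ((s : ℂ) • (fun z => G' z - gr ψ z)) 2 (volume.restrict Ω)
        < ENNReal.ofReal (ε / 2) + ENNReal.ofReal (ε / 2) := ENNReal.add_lt_add_of_lt_of_le (ne_top_of_le_ne_top ENNReal.ofReal_ne_top e2) h1 e2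
      _ = ENNReal.ofReal ε := by
          rw [← ENNReal.ofReal_add (by positivity) (by positivity)]
          congr 1
          ring
  · intro Ω F G hF h0 hG
    set M : ℝ := (eLpNorm F 2 (volume.restrict Ω)).toReal with hM
    have hM0 : 0 ≤ M := ENNReal.toReal_nonneg
    have key : ∀ ε : ℝ, 0 < ε → ‖∫ z in Ω, ip (F z) (G z)‖ ≤ M * ε := by
      intro ε hε
      obtain ⟨φ, hφ, h1⟩ := hG.2 ε hε
      have mφ : MemLp (gr φ) 2 (volume.restrict Ω) := z0_memLp hφ _
      have mD : MemLp (fun z => G z - gr φ z) 2 (volume.restrict Ω) := hG.1.sub mφ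
      have e1 : ∫ z in Ω, ip (F z) (G z) = ∫ z in Ω, ip (F z) (G z - gr φ z) := by
        have : ∀ z, ip (F z) (G z - gr φ z) = ip (F z) (G z) - ip (F z) (gr φ z) := by
          intro z
          unfold ip
          simp only [map_sub, mul_sub, Complex.sub_re]
        simp_rw [this]
        rw [integral_sub (ip_int hF hG.1) (ip_int hF mφ), h0 φ hφ, sub_zero]
      rw [e1]
      have b1 : eLpNorm (fun z => ip (F z) (G z - gr φ z)) 1 (volume.restrict Ω)
          ≤ (1 : ℝ≥0) * eLpNorm F 2 (volume.restrict Ω) * eLpNorm (fun z => G z - gr φ z) 2 (volume.restrict Ω) := by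
        refine eLpNorm_le_eLpNorm_mul_eLpNorm_of_nnnorm (p := 2) (q := 2) (r := 1) hF.1 mD.1 ip 1 ?_
        refine Eventually.of_forall fun z => ?_
        have := ip_le (F z) (G z - gr φ z)
        rw [one_mul]
        exact_mod_cast this
      have b2 : eLpNorm (fun z => ip (F z) (G z - gr φ z)) 1 (volume.restrict Ω) ≤ ENNReal.ofReal (M * ε) := by
        refine b1.trans ?_
        rw [ENNReal.ofReal_mul hM0, hM, ENNReal.ofReal_toReal hF.2.ne]
        simp only [ENNReal.coe_one, one_mul]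
        gcongr
      have b3 : ‖∫ z in Ω, ip (F z) (G z - gr φ z)‖ₑ ≤ ENNReal.ofReal (M * ε) := by
        refine (enorm_integral_le_lintegral_enorm _).trans ?_
        rw [← eLpNorm_one_eq_lintegral_enorm]
        exact b2
      rw [← ofReal_norm_eq_enorm] at b3
      exact (ENNReal.ofReal_le_ofReal_iff (by positivity)).1 b3
    have : ‖∫ z in Ω, ip (F z) (G z)‖ ≤ 0 := by
      refine le_of_forall_pos_le_add fun δ hδ => ?_
      refine (key (δ / (M + 1)) (by positivity)).trans ?_
      rw [zero_add, mul_div_assoc', div_le_iff₀ (by positivity)]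
      nlinarith [mul_nonneg hM0 hδ.le]
    exact norm_le_zero_iff.1 this

end Cal
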