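import Pool.Agent.Lib.MP_4ea4c7_an.StmD

/-! [H1] Continuous functions with zero boundary values are limits of test functions. -/

open MeasureTheory Complex Metric Set Filter Topology
open scoped ComplexConjugate ENNReal NNReal

namespace Cal

noncomputable section

namespace ZbAux

/-- the model function -/
def T1 (s : ℝ) : ℝ := s * Real.smoothTransition (s ^ 2 - 1)

theorem T1_contDiff : ContDiff ℝ (⊤ : ℕ∞) T1 := by
  unfold T1
  refine contDiff_id.mul ?_
  exact Real.smoothTransition.contDiff.comp ((contDiff_id.pow 2).sub contDiff_const)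

theorem T1_small {s : ℝ} (hs : |s| < 1) : T1 s = 0 := by
  unfold T1
  rw [Real.smoothTransition.zero_of_nonpos, mul_zero]
  have := (sq_lt_one_iff_abs_lt_one s).2 hs
  linarith

theorem T1_large {s : ℝ} (hs : 3 / 2 < |s|) : T1 s = s := by
  unfold T1
  rw [Real.smoothTransition.one_of_one_le, mul_one]
  have h1 : (3 / 2 : ℝ) ^ 2 < |s| ^ 2 := pow_lt_pow_left₀ hs (by norm_num) (by norm_num)
  rw [sq_abs] at h1
  linarith

theorem T1_le (s : ℝ) : |T1 s| ≤ |s| := by
  unfold T1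
  rw [abs_mul, abs_of_nonneg (Real.smoothTransition.nonneg _)]
  exact mul_le_of_le_one_right (abs_nonneg _) (Real.smoothTransition.le_one _)

theorem dT1_small {s : ℝ} (hs : |s| < 1) : deriv T1 s = 0 := by
  have h : T1 =ᶠ[𝓝 s] fun _ => 0 := by
    have ho : IsOpen {s : ℝ | |s| < 1} := isOpen_lt continuous_abs continuous_const
    filter_upwards [ho.mem_nhds hs] with t ht
    exact T1_small ht
  rw [h.deriv_eq]
  simp

theorem dT1_large {s : ℝ} (hs : 3 / 2 < |s|) : deriv T1 s = 1 := by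
  have h : T1 =ᶠ[𝓝 s] fun t => t := by
    have ho : IsOpen {s : ℝ | 3 / 2 < |s|} := isOpen_lt continuous_const continuous_abs
    filter_upwards [ho.mem_nhds hs] with t ht
    exact T1_large ht
  rw [h.deriv_eq]
  simp

theorem dT1_bdd : ∃ C : ℝ, 1 ≤ C ∧ ∀ s, |deriv T1 s| ≤ C := by
  have hc : Continuous (deriv T1) := T1_contDiff.continuous_deriv (by simp)
  obtain ⟨C, hC⟩ := (isCompact_Icc (a := (-2 : ℝ)) (b := 2)).exists_bound_of_continuousOn
    hc.continuousOn
  refine ⟨max C 1, le_max_right _ _, fun s => ?_⟩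
  by_cases hs : |s| ≤ 2
  · have := hC s ⟨by linarith [neg_abs_le s], by linarith [le_abs_self s]⟩
    rw [Real.norm_eq_abs] at this
    exact this.trans (le_max_left _ _)
  · rw [dT1_large (by linarith [not_le.1 hs]), abs_one]
    exact le_max_right _ _

/-- the rescaled function -/
def Ts (n : ℕ) (t : ℝ) : ℝ := T1 (((n : ℝ) + 1) * t) / ((n : ℝ) + 1)

/-- the rescaled function on the plane -/
def Hn (n : ℕ) (w : ℂ) : ℂ := ((Ts n w.re : ℝ) : ℂ)

/-- its derivative -/
def Dn (n : ℕ) (t : ℝ) : ℝ := deriv T1 (((n : ℝ) + 1) * t)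

theorem Hn_hasFDerivAt (n : ℕ) (w : ℂ) :
    HasFDerivAt (Hn n) (Complex.ofRealCLM.comp (Dn n w.re • Complex.reCLM)) w := by
  have h1 : HasDerivAt (Ts n) (Dn n w.re) w.re := by
    have hlin : HasDerivAt (fun t : ℝ => ((n : ℝ) + 1) * t) ((n : ℝ) + 1) w.re := by
      simpa using (hasDerivAt_id w.re).const_mul ((n : ℝ) + 1)
    have hT : HasDerivAt T1 (deriv T1 (((n : ℝ) + 1) * w.re)) (((n : ℝ) + 1) * w.re) :=
      ((T1_contDiff.differentiable (by simp)) _).hasDerivAt
    have h := (hT.comp w.re hlin).div_const ((n : ℝ) + 1)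
    have he : Dn n w.re = deriv T1 (((n : ℝ) + 1) * w.re) * ((n : ℝ) + 1) / ((n : ℝ) + 1) := by
      unfold Dn
      field_simp
    rw [he]
    exact h
  have h2 : HasFDerivAt (fun z : ℂ => z.re) Complex.reCLM w := Complex.reCLM.hasFDerivAt
  have h3 := h1.comp_hasFDerivAt w h2
  exact (Complex.ofRealCLM.hasFDerivAt).comp w h3

theorem Hn_contDiff (n : ℕ) : ContDiff ℝ 1 (Hn n) := by
  unfold Hn Ts
  refine Complex.ofRealCLM.contDiff.comp ?_
  refine ContDiff.div_const ?_ _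
  exact (T1_contDiff.of_le (by exact_mod_cast le_top)).comp
    (contDiff_const.mul Complex.reCLM.contDiff)

theorem dz_Hn (n : ℕ) (w : ℂ) : dz (Hn n) w = ((Dn n w.re : ℝ) : ℂ) / 2 := by
  unfold dz
  rw [(Hn_hasFDerivAt n w).fderiv]
  simp

theorem db_Hn (n : ℕ) (w : ℂ) : db (Hn n) w = ((Dn n w.re : ℝ) : ℂ) / 2 := by
  unfold db
  rw [(Hn_hasFDerivAt n w).fderiv]
  simp

theorem Ts_le (n : ℕ) (t : ℝ) : |Ts n t| ≤ |t| := by
  unfold Ts
  have hn : (0 : ℝ) < (n : ℝ) + 1 := by positivity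
  rw [abs_div, abs_of_pos hn, div_le_iff₀ hn]
  refine (T1_le _).trans (le_of_eq ?_)
  rw [abs_mul, abs_of_pos hn, mul_comm]

theorem small {n : ℕ} {t : ℝ} (ht : |t| < 1 / ((n : ℝ) + 1)) : Ts n t = 0 ∧ Dn n t = 0 := by
  have hn : (0 : ℝ) < (n : ℝ) + 1 := by positivity
  have h : |((n : ℝ) + 1) * t| < 1 := by
    rw [abs_mul, abs_of_pos hn]
    calc ((n : ℝ) + 1) * |t| < ((n : ℝ) + 1) * (1 / ((n : ℝ) + 1)) :=
          mul_lt_mul_of_pos_left ht hn
      _ = 1 := by field_simp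
  unfold Ts Dn
  rw [T1_small h, dT1_small h, zero_div]
  exact ⟨rfl, rfl⟩

theorem large {t : ℝ} (ht : t ≠ 0) : ∀ᶠ n : ℕ in atTop, Ts n t = t ∧ Dn n t = 1 := by
  have ht0 : 0 < |t| := abs_pos.2 ht
  have h1 : Tendsto (fun n : ℕ => ((n : ℝ) + 1) * |t|) atTop atTop := by
    refine Tendsto.atTop_mul_const ht0 ?_
    exact tendsto_atTop_add_const_right _ _ tendsto_natCast_atTop_atTop
  filter_upwards [h1.eventually_gt_atTop (3 / 2)] with n hn
  have hn0 : (0 : ℝ) < (n : ℝ) + 1 := by positivity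
  have h : 3 / 2 < |((n : ℝ) + 1) * t| := by rwa [abs_mul, abs_of_pos hn0]
  unfold Ts Dn
  rw [T1_large h, dT1_large h]
  refine ⟨?_, rfl⟩
  field_simp

theorem Ts_tendsto (t : ℝ) : Tendsto (fun n : ℕ => Ts n t) atTop (𝓝 t) := by
  by_cases ht : t = 0
  · have : ∀ n : ℕ, Ts n t = t := by
      intro n
      rw [ht]
      exact (small (by rw [abs_zero]; positivity)).1
    simp only [this]
    exact tendsto_const_nhds
  · refine tendsto_const_nhds.congr' ?_
    filter_upwards [large ht] with n hn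
    exact hn.1.symm

theorem Dn_tendsto {t : ℝ} (ht : t ≠ 0) : Tendsto (fun n : ℕ => Dn n t) atTop (𝓝 1) := by
  refine tendsto_const_nhds.congr' ?_
  filter_upwards [large ht] with n hn
  exact hn.2.symm

theorem Dn_cont (n : ℕ) : Continuous (Dn n) := by
  have hc : Continuous (deriv T1) := T1_contDiff.continuous_deriv (by simp)
  unfold Dn
  fun_prop

end ZbAux

private theorem zb_dct {μ : Measure ℂ} {F : ℕ → ℂ → ℂ} {G : ℂ → ℂ}
    (hF : ∀ k, AEStronglyMeasurable (F k) μ)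
    (hG : MemLp G 2 μ) (hb : ∀ k, ∀ᵐ z ∂μ, ‖F k z‖ ≤ ‖G z‖)
    (hl : ∀ᵐ z ∂μ, Tendsto (fun k => F k z) atTop (𝓝 0)) :
    Tendsto (fun k => eLpNorm (F k) 2 μ) atTop (𝓝 0) := by
  have e : ∀ k, eLpNorm (F k) 2 μ = (∫⁻ z, ‖F k z‖ₑ ^ (2:ℝ) ∂μ) ^ (1/2 : ℝ) := by
    intro k
    rw [eLpNorm_eq_lintegral_rpow_enorm_toReal (by norm_num) (by norm_num)]
    norm_num
  simp_rw [e]
  have h0 : Tendsto (fun k => ∫⁻ z, ‖F k z‖ₑ ^ (2:ℝ) ∂μ) atTop (𝓝 (∫⁻ _ : ℂ, 0 ∂μ)) := by
    refine tendsto_lintegral_of_dominated_convergence' (fun z => ‖G z‖ₑ ^ (2:ℝ)) ?_ ?_ ?_ ?_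
    · intro k; exact (hF k).enorm.pow_const _
    · intro k
      filter_upwards [hb k] with z hz
      exact ENNReal.rpow_le_rpow (enorm_le_iff_norm_le.mpr hz) (by norm_num)
    · have := lintegral_rpow_enorm_lt_top_of_eLpNorm_lt_top (μ := μ) (p := 2) (f := G)
        (by norm_num) (by norm_num) hG.2
      simpa using this.ne
    · filter_upwards [hl] with z hz
      have h1 : Tendsto (fun k => ‖F k z‖ₑ) atTop (𝓝 0) := by
        simpa using hz.enorm
      have h2 := (ENNReal.continuous_rpow_const (y := (2:ℝ))).tendsto (0 : ℝ≥0∞)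
      have h3 := h2.comp h1
      simpa [Function.comp_def] using h3
  rw [lintegral_zero] at h0
  have h2 := (ENNReal.continuous_rpow_const (y := (1/2:ℝ))).tendsto (0 : ℝ≥0∞)
  have h3 := h2.comp h0
  simpa [Function.comp_def] using h3

private theorem zb_cutoff {Ω K : Set ℂ} (hΩ : IsOpen Ω) (hK : IsCompact K) (hKΩ : K ⊆ Ω) :
    ∃ χ : ℂ → ℝ, RTF Ω χ ∧ ∀ z ∈ K, ∀ᶠ w in 𝓝 z, χ w = 1 := by
  obtain ⟨δ, hδ, hsub⟩ := hK.exists_cthickening_subset_open hΩ hKΩ
  obtain ⟨f, hf, hr, hs, ht⟩ := exists_contMDiff_support_eq_eq_one_iff (n := ⊤)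
    (modelWithCornersSelf ℝ ℂ)
    (isOpen_thickening (δ := δ) (E := K)) (isClosed_cthickening (δ := δ / 2) (E := K))
    (cthickening_subset_thickening' hδ (by linarith) K)
  have htc : tsupport f ⊆ cthickening δ K := by
    unfold tsupport
    rw [hs]
    exact closure_thickening_subset_cthickening δ K
  refine ⟨f, ⟨contMDiff_iff_contDiff.1 hf, ?_, htc.trans hsub⟩, ?_⟩
  · exact (hK.cthickening (r := δ)).of_isClosed_subset (isClosed_tsupport f) htc
  · intro z hz
    have h1 : thickening (δ / 2) K ∈ 𝓝 z :=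
      isOpen_thickening.mem_nhds (self_subset_thickening (by linarith) K hz)
    filter_upwards [h1] with w hw
    exact (ht w).1 (thickening_subset_cthickening _ _ hw)

private theorem zb_gr_mul {χ : ℂ → ℝ} {F : ℂ → ℂ} (hχ : Differentiable ℝ χ)
    (hF : Differentiable ℝ F) (z : ℂ) :
    gr (fun w => χ w * (F w).re) z =
      (χ z : ℂ) * (conj (dz F z) + db F z) + (((F z).re : ℝ) : ℂ) * gr χ z := by
  have hd : HasFDerivAt F (fderiv ℝ F z) z := (hF z).hasFDerivAt
  have r1 : HasFDerivAt (fun w => (F w).re) (Complex.reCLM.comp (fderiv ℝ F z)) z :=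
    Complex.reCLM.hasFDerivAt.comp z hd
  have r2 := (hχ z).hasFDerivAt.mul r1
  have r3 : fderiv ℝ (fun w => χ w * (F w).re) z =
      χ z • Complex.reCLM.comp (fderiv ℝ F z) + (F z).re • fderiv ℝ χ z := r2.fderiv
  have k1 : conj (dz F z) + db F z =
      (((fderiv ℝ F z 1).re : ℝ) : ℂ) + I * (((fderiv ℝ F z I).re : ℝ) : ℂ) := by
    have ha := Complex.add_conj (fderiv ℝ F z 1)
    have hb := Complex.add_conj (fderiv ℝ F z I)
    push_cast at ha hb
    unfold dz db
    have c2 : (starRingEnd ℂ) 2 = 2 := Complex.conj_ofNat 2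
    simp only [map_div₀, map_sub, map_mul, conj_I, c2]
    linear_combination ha / 2 + I * hb / 2
  rw [k1]
  unfold gr
  rw [r3]
  have v1 : ∀ v : ℂ, (χ z • Complex.reCLM.comp (fderiv ℝ F z) + (F z).re • fderiv ℝ χ z) v =
      χ z * (fderiv ℝ F z v).re + (F z).re * fderiv ℝ χ z v := fun v => rfl
  rw [v1, v1]
  push_cast
  ring

private theorem zb_gr_cont {Ω : Set ℂ} {χ : ℂ → ℝ} (h : RTF Ω χ) :
    ∃ C : ℝ, 0 ≤ C ∧ (∀ z, |χ z| ≤ C) ∧ (∀ z, ‖gr χ z‖ ≤ C) := by
  have h1 : Continuous (fderiv ℝ χ) := h.1.continuous_fderiv (by simp)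
  have h2 : Continuous (gr χ) := by
    unfold gr
    fun_prop
  have h3 : HasCompactSupport (gr χ) := by
    have h4 : HasCompactSupport (fderiv ℝ χ) := h.2.1.fderiv ℝ
    refine h4.mono ?_
    intro z hz
    rw [Function.mem_support] at hz ⊢
    intro h0
    apply hz
    unfold gr
    rw [h0]
    simp
  obtain ⟨C1, hC1⟩ := h.1.continuous.bounded_above_of_compact_support h.2.1
  obtain ⟨C2, hC2⟩ := h2.bounded_above_of_compact_support h3
  refine ⟨max C1 C2, ?_, ?_, ?_⟩
  · exact (norm_nonneg _).trans ((hC1 0).trans (le_max_left _ _))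
  · intro z
    have := hC1 z
    rw [Real.norm_eq_abs] at this
    exact this.trans (le_max_left _ _)
  · intro z
    exact (hC2 z).trans (le_max_right _ _)

private theorem zb_gr_zero {χ : ℂ → ℝ} {z : ℂ} {c : ℝ} (h : ∀ᶠ w in 𝓝 z, χ w = c) :
    gr χ z = 0 := by
  have h1 : χ =ᶠ[𝓝 z] fun _ => c := h
  unfold gr
  rw [h1.fderiv_eq]
  simp

private theorem zb_norm {Ω K : Set ℂ} (hK : IsCompact K) (hKΩ : K ⊆ Ω) {f : ℂ → ℂ} {g : ℂ → ℂ}
    {C : ℝ} (hf : ∀ z ∈ Ω, ‖f z‖ ≤ ‖K.indicator g z‖) (hΩ : MeasurableSet Ω)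
    (hg : eLpNorm g 2 (volume.restrict K) < ENNReal.ofReal C) :
    eLpNorm f 2 (volume.restrict Ω) < ENNReal.ofReal C := by
  refine lt_of_le_of_lt ?_ hg
  have h1 : eLpNorm f 2 (volume.restrict Ω) ≤ eLpNorm (K.indicator g) 2 (volume.restrict Ω) :=
    eLpNorm_mono_ae (ae_restrict_of_forall_mem hΩ hf)
  refine h1.trans ?_
  rw [eLpNorm_indicator_eq_eLpNorm_restrict hK.measurableSet, Measure.restrict_restrict
    hK.measurableSet, inter_eq_left.2 hKΩ]

/-- approximation of a function with compact support in `Ω` -/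
private theorem zb_approx (h1 : S_moll) {Ω K : Set ℂ} (hΩ : IsOpen Ω) (hK : IsCompact K)
    (hKΩ : K ⊆ Ω) {w : ℂ → ℝ} {A B : ℂ → ℂ} (hWD : WD Ω (fun z => (w z : ℂ)) A B)
    (hw0 : ∀ z ∈ Ω, z ∉ K → w z = 0) (hH0 : ∀ z ∈ Ω, z ∉ K → conj (A z) + B z = 0)
    {ε : ℝ} (hε : 0 < ε) :
    ∃ φ : ℂ → ℝ, RTF Ω φ ∧
      eLpNorm (fun z => ((w z - φ z : ℝ) : ℂ)) 2 (volume.restrict Ω) < ENNReal.ofReal ε ∧
      eLpNorm (fun z => (conj (A z) + B z) - gr φ z) 2 (volume.restrict Ω) <
        ENNReal.ofReal ε := by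
  obtain ⟨χ, hχ, hχ1⟩ := zb_cutoff hΩ hK hKΩ
  obtain ⟨C, hC0, hC1, hC2⟩ := zb_gr_cont hχ
  have hK'c : IsCompact (tsupport χ) := hχ.2.1
  obtain ⟨F, hFs, hFc, t0, tA, tB, -⟩ := h1 Ω _ A B hΩ hWD (tsupport χ) hK'c hχ.2.2
  have hχd : Differentiable ℝ χ := hχ.1.differentiable (by simp)
  have hFd : ∀ n, Differentiable ℝ (F n) := fun n => (hFs n).differentiable (by simp)
  -- the test functions
  have hφ : ∀ n, RTF Ω (fun z => χ z * (F n z).re) := by
    intro n
    refine ⟨hχ.1.mul (Complex.reCLM.contDiff.comp (hFs n)), hχ.2.1.mul_right, ?_⟩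
    exact (tsupport_mul_subset_left (f := χ) (g := fun z => (F n z).re)).trans hχ.2.2
  -- outside the support
  have hχ0 : ∀ z, z ∉ tsupport χ → χ z = 0 ∧ gr χ z = 0 := by
    intro z hz
    refine ⟨image_eq_zero_of_notMem_tsupport hz, ?_⟩
    refine zb_gr_zero (c := 0) ?_
    exact notMem_tsupport_iff_eventuallyEq.1 hz
  have hKs : ∀ z, z ∉ tsupport χ → z ∉ K := by
    intro z hz hzK
    have h2 := (hχ1 z hzK).self_of_nhds
    rw [(hχ0 z hz).1] at h2
    exact zero_ne_one h2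
  have e1 : ∀ n, ∀ z ∈ Ω, ‖((w z - χ z * (F n z).re : ℝ) : ℂ)‖ ≤
      ‖(tsupport χ).indicator (fun z => (C : ℂ) * (F n z - (w z : ℂ))) z‖ := by
    intro n z hz
    by_cases hzs : z ∈ tsupport χ
    · rw [indicator_of_mem hzs]
      have h2 : w z - χ z * (F n z).re = χ z * -((F n z - (w z : ℂ)).re) := by
        by_cases hzK : z ∈ K
        · rw [(hχ1 z hzK).self_of_nhds]
          simp
        · rw [hw0 z hz hzK]
          simp
      rw [h2, Complex.norm_real, Real.norm_eq_abs, abs_mul, abs_neg, norm_mul, Complex.norm_real,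
        Real.norm_eq_abs, abs_of_nonneg hC0]
      exact mul_le_mul (hC1 z) (abs_re_le_norm _) (abs_nonneg _) hC0
    · rw [(hχ0 z hzs).1, hw0 z hz (hKs z hzs)]
      simp
  have e2 : ∀ n, ∀ z ∈ Ω, ‖(conj (A z) + B z) - gr (fun w => χ w * (F n w).re) z‖ ≤
      ‖(tsupport χ).indicator (fun z => (((C * (‖dz (F n) z - A z‖ + ‖db (F n) z - B z‖ +
        ‖F n z - (w z : ℂ)‖) : ℝ) : ℂ))) z‖ := by
    intro n z hz
    rw [zb_gr_mul hχd (hFd n)]
    by_cases hzs : z ∈ tsupport χ
    · rw [indicator_of_mem hzs]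
      have h2 : (conj (A z) + B z) - ((χ z : ℂ) * (conj (dz (F n) z) + db (F n) z) +
          (((F n z).re : ℝ) : ℂ) * gr χ z) =
          -((χ z : ℂ) * (conj (dz (F n) z - A z)) + (χ z : ℂ) * (db (F n) z - B z) +
          (((F n z - (w z : ℂ)).re : ℝ) : ℂ) * gr χ z) := by
        by_cases hzK : z ∈ K
        · rw [(hχ1 z hzK).self_of_nhds, zb_gr_zero (hχ1 z hzK)]
          simp only [map_sub, ofReal_one]
          ring
        · have h3 := hH0 z hz hzK
          rw [hw0 z hz hzK, map_sub]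
          simp only [ofReal_zero, sub_zero]
          linear_combination (1 - (χ z : ℂ)) * h3
      rw [h2, norm_neg]
      have n1 : ‖(χ z : ℂ) * (conj (dz (F n) z - A z))‖ ≤ C * ‖dz (F n) z - A z‖ := by
        rw [norm_mul, Complex.norm_real, Real.norm_eq_abs, RCLike.norm_conj]
        exact mul_le_mul_of_nonneg_right (hC1 z) (norm_nonneg _)
      have n2 : ‖(χ z : ℂ) * (db (F n) z - B z)‖ ≤ C * ‖db (F n) z - B z‖ := by
        rw [norm_mul, Complex.norm_real, Real.norm_eq_abs]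
        exact mul_le_mul_of_nonneg_right (hC1 z) (norm_nonneg _)
      have n3 : ‖(((F n z - (w z : ℂ)).re : ℝ) : ℂ) * gr χ z‖ ≤ C * ‖F n z - (w z : ℂ)‖ := by
        rw [norm_mul, Complex.norm_real, Real.norm_eq_abs, mul_comm]
        exact mul_le_mul (hC2 z) (abs_re_le_norm _) (abs_nonneg _) hC0
      have n4 := (norm_add_le ((χ z : ℂ) * (conj (dz (F n) z - A z)) +
        (χ z : ℂ) * (db (F n) z - B z)) ((((F n z - (w z : ℂ)).re : ℝ) : ℂ) * gr χ z))
      have n5 := norm_add_le ((χ z : ℂ) * (conj (dz (F n) z - A z)))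
        ((χ z : ℂ) * (db (F n) z - B z))
      rw [Complex.norm_real, Real.norm_eq_abs, abs_of_nonneg (by positivity)]
      linarith
    · rw [(hχ0 z hzs).1, (hχ0 z hzs).2, hH0 z hz (hKs z hzs)]
      simp
  -- norms
  have hsm : ∀ n, AEStronglyMeasurable (fun z => F n z - (w z : ℂ))
      (volume.restrict (tsupport χ)) := fun n =>
    (hFs n).continuous.aestronglyMeasurable.sub (hWD.f2 _ hK'c hχ.2.2).1
  have hdzc : ∀ n, Continuous (dz (F n)) := by
    intro n
    have h1 : Continuous (fderiv ℝ (F n)) := (hFs n).continuous_fderiv (by simp)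
    unfold dz
    fun_prop
  have hdbc : ∀ n, Continuous (db (F n)) := by
    intro n
    have h1 : Continuous (fderiv ℝ (F n)) := (hFs n).continuous_fderiv (by simp)
    unfold db
    fun_prop
  have hsA : ∀ n, AEStronglyMeasurable (fun z => dz (F n) z - A z)
      (volume.restrict (tsupport χ)) := fun n =>
    (hdzc n).aestronglyMeasurable.sub (hWD.A2 _ hK'c hχ.2.2).1
  have hsB : ∀ n, AEStronglyMeasurable (fun z => db (F n) z - B z)
      (volume.restrict (tsupport χ)) := fun n =>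
    (hdbc n).aestronglyMeasurable.sub (hWD.B2 _ hK'c hχ.2.2).1
  have b1 : ∀ n, eLpNorm (fun z => (C : ℂ) * (F n z - (w z : ℂ))) 2
      (volume.restrict (tsupport χ)) ≤ ENNReal.ofReal C *
        eLpNorm (fun z => F n z - (w z : ℂ)) 2 (volume.restrict (tsupport χ)) := by
    intro n
    refine eLpNorm_le_mul_eLpNorm_of_ae_le_mul (Eventually.of_forall fun z => ?_) 2
    rw [norm_mul, Complex.norm_real, Real.norm_eq_abs, abs_of_nonneg hC0]
  have b2 : ∀ n, eLpNorm (fun z => (((C * (‖dz (F n) z - A z‖ + ‖db (F n) z - B z‖ +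
        ‖F n z - (w z : ℂ)‖) : ℝ) : ℂ))) 2 (volume.restrict (tsupport χ)) ≤
      ENNReal.ofReal C * (eLpNorm (fun z => dz (F n) z - A z) 2 (volume.restrict (tsupport χ)) +
        eLpNorm (fun z => db (F n) z - B z) 2 (volume.restrict (tsupport χ)) +
        eLpNorm (fun z => F n z - (w z : ℂ)) 2 (volume.restrict (tsupport χ))) := by
    intro n
    have c1 : eLpNorm (fun z => (((C * (‖dz (F n) z - A z‖ + ‖db (F n) z - B z‖ +
        ‖F n z - (w z : ℂ)‖) : ℝ) : ℂ))) 2 (volume.restrict (tsupport χ)) ≤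
        ENNReal.ofReal C * eLpNorm (fun z => ‖dz (F n) z - A z‖ + ‖db (F n) z - B z‖ +
        ‖F n z - (w z : ℂ)‖) 2 (volume.restrict (tsupport χ)) := by
      refine eLpNorm_le_mul_eLpNorm_of_ae_le_mul (Eventually.of_forall fun z => ?_) 2
      rw [Complex.norm_real, norm_mul, Real.norm_eq_abs C, abs_of_nonneg hC0]
    refine c1.trans ?_
    gcongr
    refine (eLpNorm_add_le ((hsA n).norm.add (hsB n).norm) (hsm n).norm (by norm_num)).trans ?_
    rw [eLpNorm_norm]
    gcongr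
    refine (eLpNorm_add_le (hsA n).norm (hsB n).norm (by norm_num)).trans ?_
    rw [eLpNorm_norm, eLpNorm_norm]
  have l1 : Tendsto (fun n => ENNReal.ofReal C *
        eLpNorm (fun z => F n z - (w z : ℂ)) 2 (volume.restrict (tsupport χ))) atTop (𝓝 0) := by
    have := ENNReal.Tendsto.const_mul (a := ENNReal.ofReal C) t0 (Or.inr ENNReal.ofReal_ne_top)
    simpa using this
  have l2 : Tendsto (fun n => ENNReal.ofReal C *
      (eLpNorm (fun z => dz (F n) z - A z) 2 (volume.restrict (tsupport χ)) +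
        eLpNorm (fun z => db (F n) z - B z) 2 (volume.restrict (tsupport χ)) +
        eLpNorm (fun z => F n z - (w z : ℂ)) 2 (volume.restrict (tsupport χ)))) atTop (𝓝 0) := by
    have := ENNReal.Tendsto.const_mul (a := ENNReal.ofReal C) ((tA.add tB).add t0)
      (Or.inr ENNReal.ofReal_ne_top)
    simpa using this
  have hε' : (0 : ℝ≥0∞) < ENNReal.ofReal ε := ENNReal.ofReal_pos.2 hε
  obtain ⟨n, hn1, hn2⟩ := ((l1.eventually_lt_const hε').and (l2.eventually_lt_const hε')).exists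
  refine ⟨_, hφ n, ?_, ?_⟩
  · exact zb_norm hK'c hχ.2.2 (e1 n) hΩ.measurableSet (lt_of_le_of_lt (b1 n) hn1)
  · exact zb_norm hK'c hχ.2.2 (e2 n) hΩ.measurableSet (lt_of_le_of_lt (b2 n) hn2)

open ZbAux in
theorem piece_zb (h1 : S_moll) (h2 : S_chain) (h3 : S_bridge) (h4 : S_crit) : S_zb := by
  intro Ω u G hΩ hb hu hf hG hGm ε hε
  have huΩ : ContinuousOn u Ω := hu.mono subset_closure
  have hWD := h3.2.1 Ω u G hG
  have hcl : IsCompact (closure Ω) := hb.isCompact_closure
  obtain ⟨C, hC1, hC⟩ := dT1_bdd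
  -- weak derivatives of the truncations
  have hn : ∀ n : ℕ, WD Ω (fun z => ((Ts n (u z) : ℝ) : ℂ))
      (fun z => ((Dn n (u z) : ℝ) : ℂ) * (conj (G z) / 2))
      (fun z => ((Dn n (u z) : ℝ) : ℂ) * (G z / 2)) := by
    intro n
    have hc := h2 Ω univ _ _ _ (Hn n) hΩ isOpen_univ hWD
      (Complex.continuous_ofReal.comp_continuousOn huΩ) (mapsTo_univ _ _)
      (Hn_contDiff n).contDiffOn
    have c2 : (starRingEnd ℂ) 2 = 2 := Complex.conj_ofNat 2
    have eA : (fun z => dz (Hn n) (u z : ℂ) * (conj (G z) / 2) +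
        db (Hn n) (u z : ℂ) * conj (G z / 2)) =
        fun z => ((Dn n (u z) : ℝ) : ℂ) * (conj (G z) / 2) := by
      funext z
      simp only [dz_Hn, db_Hn, Complex.ofReal_re, map_div₀, c2]
      ring
    have eB : (fun z => dz (Hn n) (u z : ℂ) * (G z / 2) +
        db (Hn n) (u z : ℂ) * conj (conj (G z) / 2)) =
        fun z => ((Dn n (u z) : ℝ) : ℂ) * (G z / 2) := by
      funext z
      simp only [dz_Hn, db_Hn, Complex.ofReal_re, map_div₀, Complex.conj_conj, c2]
      ring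
    rw [eA, eB] at hc
    exact hc
  have hsum : ∀ (n : ℕ) (z : ℂ), conj (((Dn n (u z) : ℝ) : ℂ) * (conj (G z) / 2)) +
      ((Dn n (u z) : ℝ) : ℂ) * (G z / 2) = ((Dn n (u z) : ℝ) : ℂ) * G z := by
    intro n z
    have c2 : (starRingEnd ℂ) 2 = 2 := Complex.conj_ofNat 2
    simp only [map_mul, map_div₀, Complex.conj_conj, conj_ofReal, c2]
    ring
  -- supports
  have hKc : ∀ n : ℕ, IsCompact (closure Ω ∩ {z | 1 / ((n : ℝ) + 1) ≤ |u z|}) := by
    intro n
    have h5 : IsClosed (closure Ω ∩ (fun z => |u z|) ⁻¹' (Ici (1 / ((n : ℝ) + 1)))) :=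
      (continuous_abs.comp_continuousOn hu).preimage_isClosed_of_isClosed isClosed_closure
        isClosed_Ici
    exact hcl.of_isClosed_subset h5 inter_subset_left
  have hKΩ : ∀ n : ℕ, closure Ω ∩ {z | 1 / ((n : ℝ) + 1) ≤ |u z|} ⊆ Ω := by
    rintro n z ⟨hz1, hz2⟩
    by_contra hz3
    have hz4 : z ∈ frontier Ω := by
      rw [hΩ.frontier_eq]
      exact ⟨hz1, hz3⟩
    have hz5 : 1 / ((n : ℝ) + 1) ≤ |u z| := hz2
    rw [hf z hz4, abs_zero] at hz5
    have : (0 : ℝ) < 1 / ((n : ℝ) + 1) := by positivity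
    linarith
  have hout : ∀ n : ℕ, ∀ z ∈ Ω, z ∉ closure Ω ∩ {z | 1 / ((n : ℝ) + 1) ≤ |u z|} →
      Ts n (u z) = 0 ∧ Dn n (u z) = 0 := by
    intro n z hz hz2
    apply small
    by_contra hlt
    exact hz2 ⟨subset_closure hz, not_lt.1 hlt⟩
  -- convergence of the truncations
  have hfin : IsFiniteMeasure (volume.restrict Ω) := ⟨by
    rw [Measure.restrict_apply_univ]
    exact (measure_mono subset_closure).trans_lt hcl.measure_lt_top⟩
  have hum : AEStronglyMeasurable (fun z => ((u z : ℝ) : ℂ)) (volume.restrict Ω) :=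
    (Complex.continuous_ofReal.comp_continuousOn huΩ).aestronglyMeasurable hΩ.measurableSet
  have hTm : ∀ n : ℕ, AEStronglyMeasurable (fun z => ((Ts n (u z) : ℝ) : ℂ))
      (volume.restrict Ω) := by
    intro n
    have h5 : Continuous (fun t : ℝ => Hn n (t : ℂ)) :=
      (Hn_contDiff n).continuous.comp Complex.continuous_ofReal
    have h6 := (h5.comp_continuousOn huΩ).aestronglyMeasurable (μ := volume) hΩ.measurableSet
    exact h6
  have hDm : ∀ n : ℕ, AEStronglyMeasurable (fun z => ((Dn n (u z) : ℝ) : ℂ) * G z)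
      (volume.restrict Ω) := by
    intro n
    have h5 : Continuous (fun t : ℝ => ((Dn n t : ℝ) : ℂ)) :=
      Complex.continuous_ofReal.comp (Dn_cont n)
    exact ((h5.comp_continuousOn huΩ).aestronglyMeasurable (μ := volume)
      hΩ.measurableSet).mul hGm.1
  obtain ⟨M, hM⟩ := hcl.exists_bound_of_continuousOn hu
  have huL : MemLp (fun z => (2 : ℂ) * ((u z : ℝ) : ℂ)) 2 (volume.restrict Ω) := by
    refine MemLp.const_mul ?_ 2
    refine MemLp.of_bound hum M ?_
    refine ae_restrict_of_forall_mem hΩ.measurableSet (fun z hz => ?_)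
    rw [Complex.norm_real]
    exact hM z (subset_closure hz)
  have lim1 : Tendsto (fun n : ℕ => eLpNorm (fun z => ((u z : ℝ) : ℂ) - ((Ts n (u z) : ℝ) : ℂ)) 2
      (volume.restrict Ω)) atTop (𝓝 0) := by
    refine zb_dct (fun n => hum.sub (hTm n)) huL (fun n => ?_) ?_
    · refine Eventually.of_forall fun z => ?_
      rw [← ofReal_sub, Complex.norm_real, Real.norm_eq_abs, norm_mul, Complex.norm_real,
        Real.norm_eq_abs]
      have h5 := Ts_le n (u z)
      have h6 := abs_sub (u z) (Ts n (u z))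
      simp only [Complex.norm_ofNat]
      linarith
    · refine Eventually.of_forall fun z => ?_
      have h5 := (Ts_tendsto (u z)).const_sub (u z)
      rw [sub_self] at h5
      have h6 := (Complex.continuous_ofReal.tendsto (0 : ℝ)).comp h5
      simpa [Function.comp_def] using h6
  have lim2 : Tendsto (fun n : ℕ => eLpNorm (fun z => G z - ((Dn n (u z) : ℝ) : ℂ) * G z) 2
      (volume.restrict Ω)) atTop (𝓝 0) := by
    refine zb_dct (G := fun z => ((1 + C : ℝ) : ℂ) * G z) (fun n => hGm.1.sub (hDm n))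
      (hGm.const_mul _) (fun n => ?_) ?_
    · refine Eventually.of_forall fun z => ?_
      have h5 : G z - ((Dn n (u z) : ℝ) : ℂ) * G z = ((1 - Dn n (u z) : ℝ) : ℂ) * G z := by
        push_cast
        ring
      rw [h5, norm_mul, norm_mul, Complex.norm_real, Complex.norm_real, Real.norm_eq_abs,
        Real.norm_eq_abs]
      refine mul_le_mul_of_nonneg_right ?_ (norm_nonneg _)
      have h6 := hC (((n : ℝ) + 1) * u z)
      have h7 := abs_sub (1 : ℝ) (Dn n (u z))
      rw [abs_one] at h7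
      rw [abs_of_nonneg (by linarith : (0 : ℝ) ≤ 1 + C)]
      unfold Dn at *
      linarith
    · filter_upwards [h4 Ω u G hΩ hG huΩ] with z hz
      by_cases h0 : u z = 0
      · rw [hz h0]
        simp
      · have h5 := (Dn_tendsto h0)
        have h6 : Tendsto (fun n : ℕ => ((1 - Dn n (u z) : ℝ) : ℂ) * G z) atTop
            (𝓝 (((1 - 1 : ℝ) : ℂ) * G z)) :=
          ((Complex.continuous_ofReal.tendsto _).comp (h5.const_sub 1)).mul_const _
        simp only [sub_self, ofReal_zero, zero_mul] at h6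
        refine h6.congr fun n => ?_
        push_cast
        ring
  have hε2 : (0 : ℝ) < ε / 2 := by linarith
  have hε' : (0 : ℝ≥0∞) < ENNReal.ofReal (ε / 2) := ENNReal.ofReal_pos.2 hε2
  obtain ⟨n, hn1, hn2⟩ :=
    ((lim1.eventually_lt_const hε').and (lim2.eventually_lt_const hε')).exists
  obtain ⟨φ, hφ, ha, hbb⟩ := zb_approx h1 hΩ (hKc n) (hKΩ n) (hn n)
    (fun z hz hz2 => (hout n z hz hz2).1)
    (fun z hz hz2 => by rw [hsum, (hout n z hz hz2).2]; simp) hε2
  have hφc : Continuous φ := hφ.1.continuous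
  have hgrc : Continuous (gr φ) := by
    have h5 : Continuous (fderiv ℝ φ) := hφ.1.continuous_fderiv (by simp)
    unfold gr
    fun_prop
  have hadd : ENNReal.ofReal ε = ENNReal.ofReal (ε / 2) + ENNReal.ofReal (ε / 2) := by
    rw [← ENNReal.ofReal_add hε2.le hε2.le, add_halves]
  refine ⟨φ, hφ, ?_, ?_⟩
  · have e5 : (fun z => ((u z - φ z : ℝ) : ℂ)) =
        (fun z => ((u z : ℝ) : ℂ) - ((Ts n (u z) : ℝ) : ℂ)) +
          fun z => ((Ts n (u z) - φ z : ℝ) : ℂ) := by
      funext z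
      simp only [Pi.add_apply]
      push_cast
      ring
    have hm2 : AEStronglyMeasurable (fun z => ((Ts n (u z) - φ z : ℝ) : ℂ))
        (volume.restrict Ω) := by
      have h5 := (hTm n).sub
        ((Complex.continuous_ofReal.comp hφc).aestronglyMeasurable (μ := volume.restrict Ω))
      refine h5.congr (Eventually.of_forall fun z => ?_)
      simp
    rw [e5, hadd]
    exact (eLpNorm_add_le (hum.sub (hTm n)) hm2 (by norm_num)).trans_lt (ENNReal.add_lt_add hn1 ha)
  · have e5 : (fun z => G z - gr φ z) =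
        (fun z => G z - ((Dn n (u z) : ℝ) : ℂ) * G z) +
          fun z => (conj (((Dn n (u z) : ℝ) : ℂ) * (conj (G z) / 2)) +
      ((Dn n (u z) : ℝ) : ℂ) * (G z / 2)) - gr φ z := by
      funext z
      simp only [Pi.add_apply]
      rw [hsum]
      ring
    have hm2 : AEStronglyMeasurable (fun z => (conj (((Dn n (u z) : ℝ) : ℂ) * (conj (G z) / 2)) +
        ((Dn n (u z) : ℝ) : ℂ) * (G z / 2)) - gr φ z) (volume.restrict Ω) := by
      have h5 := (hDm n).sub (hgrc.aestronglyMeasurable (μ := volume.restrict Ω))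
      refine h5.congr (Eventually.of_forall fun z => ?_)
      simp only [Pi.sub_apply]
      rw [hsum]
    rw [e5, hadd]
    exact (eLpNorm_add_le (hGm.1.sub (hDm n)) hm2 (by norm_num)).trans_lt
      (ENNReal.add_lt_add hn2 hbb)

end

end Cal
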