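import Pool.Agent.Lib.MP_4ea4c7_an.Stm1

/-!
# Uniqueness for the Beltrami equation
-/

open MeasureTheory Complex Metric Set Filter Topology
open scoped ComplexConjugate ENNReal NNReal

namespace Cal

theorem piece_zero (h1 : S_uniq) (_h2 : S_wuniq) : S_zero := by
  intro κ hκ0 hκ1 μ hμ h A B hwd hB hdec
  have hB0 : ∀ᵐ z : ℂ, 5 / 4 < ‖z‖ → B z = 0 := by
    filter_upwards [hB] with z hz hz2
    rw [hz, hμ.supp z hz2]
    simp
  obtain ⟨e1, mA, mB, e2⟩ := h1 h A B hwd hB0 hdec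
  have hle : eLpNorm B 2 volume ≤ ENNReal.ofReal κ * eLpNorm A 2 volume := by
    refine eLpNorm_le_mul_eLpNorm_of_ae_le_mul ?_ 2
    filter_upwards [hB] with z hz
    rw [hz, norm_mul, Complex.norm_conj, Complex.norm_real, Real.norm_eq_abs]
    exact mul_le_mul_of_nonneg_right (hμ.bd z) (norm_nonneg _)
  have hA0 : eLpNorm A 2 volume = 0 := by
    by_contra hne
    have h3 : eLpNorm A 2 volume < eLpNorm A 2 volume := by
      calc eLpNorm A 2 volume = eLpNorm B 2 volume := e2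
        _ ≤ ENNReal.ofReal κ * eLpNorm A 2 volume := hle
        _ < 1 * eLpNorm A 2 volume := by
          refine (ENNReal.mul_lt_mul_iff_left hne mA.2.ne).2 ?_
          rw [← ENNReal.ofReal_one]
          exact (ENNReal.ofReal_lt_ofReal_iff one_pos).2 hκ1
        _ = eLpNorm A 2 volume := one_mul _
    exact lt_irrefl _ h3
  have hAz : A =ᵐ[volume] 0 := (eLpNorm_eq_zero_iff mA.1 (by norm_num)).1 hA0
  refine ⟨?_, hAz⟩
  have hBz : ∀ᵐ z : ℂ, B z = 0 := by
    filter_upwards [hB, hAz] with z hz hz2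
    rw [hz, hz2]
    simp
  have hCt : ∀ z, Ct (fun z => if 5 / 4 < ‖z‖ then 0 else B z) z = 0 := by
    intro z
    unfold Ct
    have h4 : ∫ ζ : ℂ, (if 5 / 4 < ‖ζ‖ then (0 : ℂ) else B ζ) / (z - ζ) = 0 := by
      apply integral_eq_zero_of_ae
      filter_upwards [hBz] with ζ hζ
      simp [hζ]
    rw [h4, mul_zero]
  filter_upwards [e1] with z hz
  rw [hz]
  exact hCt z

end Cal
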