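import Pool.Agent.Lib.MP_4ea4c7_an.Stm1
import Pool.Agent.Lib.MP_4ea4c7_an.StmC

/-! [FC7] Extension by zero across the axis. -/

open MeasureTheory Complex Metric Set Filter Topology
open scoped ComplexConjugate ENNReal NNReal

namespace Cal

noncomputable section

namespace ZextAux

/-- the model function -/
def T1 (s : ℝ) : ℝ := s * Real.smoothTransition (s ^ 2 - 1)

theorem T1_contDiff : ContDiff ℝ (⊤ : ℕ∞) T1 := by
  unfold T1
  refine contDiff_id.mul ?_
  exact Real.smoothTransition.contDiff.comp ((contDiff_id.pow 2).sub contDiff_const)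

theorem T1_small {s : ℝ} (hs : |s| < 1) : T1 s = 0 := by
  unfold T1
  rw [Real.smoothTransition.zero_of_nonpos, mul_zero]
  have := (sq_lt_one_iff_abs_lt_one s).2 hs
  linarith

theorem T1_large {s : ℝ} (hs : 3 / 2 < |s|) : T1 s = s := by
  unfold T1
  rw [Real.smoothTransition.one_of_one_le, mul_one]
  have h1 : (3 / 2 : ℝ) ^ 2 < |s| ^ 2 := pow_lt_pow_left₀ hs (by norm_num) (by norm_num)
  rw [sq_abs] at h1
  linarith

theorem T1_le (s : ℝ) : |T1 s| ≤ |s| := by
  unfold T1
  rw [abs_mul, abs_of_nonneg (Real.smoothTransition.nonneg _)]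
  exact mul_le_of_le_one_right (abs_nonneg _) (Real.smoothTransition.le_one _)

theorem dT1_small {s : ℝ} (hs : |s| < 1) : deriv T1 s = 0 := by
  have h : T1 =ᶠ[𝓝 s] fun _ => 0 := by
    have ho : IsOpen {s : ℝ | |s| < 1} := isOpen_lt continuous_abs continuous_const
    filter_upwards [ho.mem_nhds hs] with t ht
    exact T1_small ht
  rw [h.deriv_eq]
  simp

theorem dT1_large {s : ℝ} (hs : 3 / 2 < |s|) : deriv T1 s = 1 := by
  have h : T1 =ᶠ[𝓝 s] fun t => t := by
    have ho : IsOpen {s : ℝ | 3 / 2 < |s|} := isOpen_lt continuous_const continuous_abs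
    filter_upwards [ho.mem_nhds hs] with t ht
    exact T1_large ht
  rw [h.deriv_eq]
  simp

theorem dT1_bdd : ∃ C : ℝ, 1 ≤ C ∧ ∀ s, |deriv T1 s| ≤ C := by
  have hc : Continuous (deriv T1) := T1_contDiff.continuous_deriv (by simp)
  obtain ⟨C, hC⟩ := (isCompact_Icc (a := (-2 : ℝ)) (b := 2)).exists_bound_of_continuousOn
    hc.continuousOn
  refine ⟨max C 1, le_max_right _ _, fun s => ?_⟩
  by_cases hs : |s| ≤ 2
  · have := hC s ⟨by linarith [neg_abs_le s], by linarith [le_abs_self s]⟩
    rw [Real.norm_eq_abs] at this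
    exact this.trans (le_max_left _ _)
  · rw [dT1_large (by linarith [not_le.1 hs]), abs_one]
    exact le_max_right _ _

/-- the rescaled function -/
def Ts (n : ℕ) (t : ℝ) : ℝ := T1 (((n : ℝ) + 1) * t) / ((n : ℝ) + 1)

/-- the rescaled function on the plane -/
def Hn (n : ℕ) (w : ℂ) : ℂ := ((Ts n w.re : ℝ) : ℂ)

/-- its derivative -/
def Dn (n : ℕ) (t : ℝ) : ℝ := deriv T1 (((n : ℝ) + 1) * t)

theorem Hn_hasFDerivAt (n : ℕ) (w : ℂ) :
    HasFDerivAt (Hn n) (Complex.ofRealCLM.comp (Dn n w.re • Complex.reCLM)) w := by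
  have h1 : HasDerivAt (Ts n) (Dn n w.re) w.re := by
    have hlin : HasDerivAt (fun t : ℝ => ((n : ℝ) + 1) * t) ((n : ℝ) + 1) w.re := by
      simpa using (hasDerivAt_id w.re).const_mul ((n : ℝ) + 1)
    have hT : HasDerivAt T1 (deriv T1 (((n : ℝ) + 1) * w.re)) (((n : ℝ) + 1) * w.re) :=
      ((T1_contDiff.differentiable (by simp)) _).hasDerivAt
    have h := (hT.comp w.re hlin).div_const ((n : ℝ) + 1)
    have he : Dn n w.re = deriv T1 (((n : ℝ) + 1) * w.re) * ((n : ℝ) + 1) / ((n : ℝ) + 1) := by
      unfold Dn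
      field_simp
    rw [he]
    exact h
  have h2 : HasFDerivAt (fun z : ℂ => z.re) Complex.reCLM w := Complex.reCLM.hasFDerivAt
  have h3 := h1.comp_hasFDerivAt w h2
  exact (Complex.ofRealCLM.hasFDerivAt).comp w h3

theorem Hn_contDiff (n : ℕ) : ContDiff ℝ 1 (Hn n) := by
  unfold Hn Ts
  refine Complex.ofRealCLM.contDiff.comp ?_
  refine ContDiff.div_const ?_ _
  exact (T1_contDiff.of_le (by exact_mod_cast le_top)).comp
    (contDiff_const.mul Complex.reCLM.contDiff)

theorem dz_Hn (n : ℕ) (w : ℂ) : dz (Hn n) w = ((Dn n w.re : ℝ) : ℂ) / 2 := by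
  unfold dz
  rw [(Hn_hasFDerivAt n w).fderiv]
  simp

theorem db_Hn (n : ℕ) (w : ℂ) : db (Hn n) w = ((Dn n w.re : ℝ) : ℂ) / 2 := by
  unfold db
  rw [(Hn_hasFDerivAt n w).fderiv]
  simp

theorem Ts_le (n : ℕ) (t : ℝ) : |Ts n t| ≤ |t| := by
  unfold Ts
  have hn : (0 : ℝ) < (n : ℝ) + 1 := by positivity
  rw [abs_div, abs_of_pos hn, div_le_iff₀ hn]
  refine (T1_le _).trans (le_of_eq ?_)
  rw [abs_mul, abs_of_pos hn, mul_comm]

theorem small {n : ℕ} {t : ℝ} (ht : |t| < 1 / ((n : ℝ) + 1)) : Ts n t = 0 ∧ Dn n t = 0 := by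
  have hn : (0 : ℝ) < (n : ℝ) + 1 := by positivity
  have h : |((n : ℝ) + 1) * t| < 1 := by
    rw [abs_mul, abs_of_pos hn]
    calc ((n : ℝ) + 1) * |t| < ((n : ℝ) + 1) * (1 / ((n : ℝ) + 1)) :=
          mul_lt_mul_of_pos_left ht hn
      _ = 1 := by field_simp
  unfold Ts Dn
  rw [T1_small h, dT1_small h, zero_div]
  exact ⟨rfl, rfl⟩

theorem large {t : ℝ} (ht : t ≠ 0) : ∀ᶠ n : ℕ in atTop, Ts n t = t ∧ Dn n t = 1 := by
  have ht0 : 0 < |t| := abs_pos.2 ht
  have h1 : Tendsto (fun n : ℕ => ((n : ℝ) + 1) * |t|) atTop atTop := by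
    refine Tendsto.atTop_mul_const ht0 ?_
    exact tendsto_atTop_add_const_right _ _ tendsto_natCast_atTop_atTop
  filter_upwards [h1.eventually_gt_atTop (3 / 2)] with n hn
  have hn0 : (0 : ℝ) < (n : ℝ) + 1 := by positivity
  have h : 3 / 2 < |((n : ℝ) + 1) * t| := by rwa [abs_mul, abs_of_pos hn0]
  unfold Ts Dn
  rw [T1_large h, dT1_large h]
  refine ⟨?_, rfl⟩
  field_simp

theorem Ts_tendsto (t : ℝ) : Tendsto (fun n : ℕ => Ts n t) atTop (𝓝 t) := by
  by_cases ht : t = 0
  · have : ∀ n : ℕ, Ts n t = t := by
      intro n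
      rw [ht]
      exact (small (by rw [abs_zero]; positivity)).1
    simp only [this]
    exact tendsto_const_nhds
  · refine tendsto_const_nhds.congr' ?_
    filter_upwards [large ht] with n hn
    exact hn.1.symm

theorem Dn_tendsto {t : ℝ} (ht : t ≠ 0) : Tendsto (fun n : ℕ => Dn n t) atTop (𝓝 1) := by
  refine tendsto_const_nhds.congr' ?_
  filter_upwards [large ht] with n hn
  exact hn.2.symm

theorem Dn_cont (n : ℕ) : Continuous (Dn n) := by
  have hc : Continuous (deriv T1) := T1_contDiff.continuous_deriv (by simp)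
  unfold Dn
  fun_prop

theorem int_mul {U : Set ℂ} {B φ : ℂ → ℂ} (hB : L2loc U B) (h : TF U φ) :
    Integrable (fun z => B z * φ z) volume := by
  set K := tsupport φ with hK
  have hKc : IsCompact K := h.2.1
  have h1 : MemLp B 2 (volume.restrict K) := hB K hKc h.2.2
  have : IsFiniteMeasure (volume.restrict K) := ⟨by
    rw [Measure.restrict_apply_univ]; exact hKc.measure_lt_top⟩
  have h2 : Integrable B (volume.restrict K) := h1.integrable (by norm_num)
  obtain ⟨C, hC⟩ := (h.1.continuous.bounded_above_of_compact_support h.2.1)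
  have h3 : Integrable (fun z => B z * φ z) (volume.restrict K) :=
    h2.mul_bdd (c := C) h.1.continuous.aestronglyMeasurable (Eventually.of_forall hC)
  have h4 : Function.support (fun z => B z * φ z) ⊆ K := by
    intro z hz
    have : φ z ≠ 0 := fun h0 => hz (by simp [h0])
    exact subset_tsupport φ this
  exact (integrableOn_iff_integrable_of_support_subset h4).1 h3

theorem db_cont {φ : ℂ → ℂ} {U : Set ℂ} (h : TF U φ) : Continuous (db φ) := by
  have h1 : Continuous (fderiv ℝ φ) := h.1.continuous_fderiv (by simp)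
  unfold db
  fun_prop

theorem db_supp {φ : ℂ → ℂ} {U : Set ℂ} (h : TF U φ) : HasCompactSupport (db φ) := by
  have h1 : HasCompactSupport (fderiv ℝ φ) := h.2.1.fderiv ℝ
  refine h1.mono ?_
  intro z hz
  rw [Function.mem_support] at hz ⊢
  intro h0
  apply hz
  unfold db
  rw [h0]
  simp

theorem wd_zero (V : Set ℂ) : WD V (fun _ => 0) (fun _ => 0) (fun _ => 0) where
  f2 := fun K _ _ => MemLp.zero'
  A2 := fun K _ _ => MemLp.zero'
  B2 := fun K _ _ => MemLp.zero'
  hA := fun φ _ => by simp
  hB := fun φ _ => by simp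

theorem l2_ind {U : Set ℂ} {g : ℂ → ℂ} (h : L2loc U g) :
    L2loc U (fun z => if 0 < z.im then g z else 0) := by
  intro K hK hKU
  have hm : MeasurableSet {z : ℂ | 0 < z.im} :=
    (isOpen_lt continuous_const Complex.continuous_im).measurableSet
  have e : (fun z => if 0 < z.im then g z else 0) = {z : ℂ | 0 < z.im}.indicator g := by
    funext z
    by_cases hz : 0 < z.im
    · rw [if_pos hz, Set.indicator_of_mem (by exact hz)]
    · rw [if_neg hz, Set.indicator_of_notMem (by exact hz)]
  rw [e]
  exact (h K hK hKU).indicator hm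

end ZextAux

open ZextAux

theorem piece_zext (h0 : S_basic) (h1 : S_bridge) (h2 : S_glue) (h3 : S_chain) (h4 : S_crit) :
    S_zext := by
  intro u G hG hu hax
  obtain ⟨-, -, -, hcongr, hres, -⟩ := h0
  obtain ⟨-, b2, -, b4⟩ := h1
  have hcrit := h4 univ u G isOpen_univ hG hu.continuousOn
  rw [Measure.restrict_univ] at hcrit
  have hWD := b2 univ u G hG
  have hfc : ContinuousOn (fun z => (u z : ℂ)) univ :=
    (Complex.continuous_ofReal.comp hu).continuousOn
  have hupo : IsOpen {z : ℂ | 0 < z.im} := isOpen_lt continuous_const Complex.continuous_im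
  have hlowo : IsOpen {z : ℂ | z.im < 0} := isOpen_lt Complex.continuous_im continuous_const
  obtain ⟨C, hC1, hC⟩ := dT1_bdd
  have hDn : ∀ n t, |Dn n t| ≤ C := fun n t => hC _
  -- the functions cut at the level `1/(n+1)`
  have hn : ∀ n : ℕ, WD univ (fun z => if 0 < z.im then ((Ts n (u z) : ℝ) : ℂ) else 0)
      (fun z => if 0 < z.im then ((Dn n (u z) : ℝ) : ℂ) * (conj (G z) / 2) else 0)
      (fun z => if 0 < z.im then ((Dn n (u z) : ℝ) : ℂ) * (G z / 2) else 0) := by
    intro n
    have hc := h3 univ univ _ _ _ (Hn n) isOpen_univ isOpen_univ hWD hfc (mapsTo_univ _ _)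
      (Hn_contDiff n).contDiffOn
    have hc' : WD univ (fun z => ((Ts n (u z) : ℝ) : ℂ))
        (fun z => ((Dn n (u z) : ℝ) : ℂ) * (conj (G z) / 2))
        (fun z => ((Dn n (u z) : ℝ) : ℂ) * (G z / 2)) := by
      refine hcongr _ _ _ _ _ _ _ MeasurableSet.univ hc ?_ ?_ ?_
      · exact Eventually.of_forall fun z => by simp only [Hn, Complex.ofReal_re]
      · refine Eventually.of_forall fun z => ?_
        simp only [dz_Hn, db_Hn, Complex.ofReal_re, map_div₀]
        have h2 : (starRingEnd ℂ) 2 = 2 := Complex.conj_ofNat 2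
        rw [h2]
        ring
      · refine Eventually.of_forall fun z => ?_
        simp only [dz_Hn, db_Hn, Complex.ofReal_re, map_div₀, Complex.conj_conj]
        have h2 : (starRingEnd ℂ) 2 = 2 := Complex.conj_ofNat 2
        rw [h2]
        ring
    refine h2 univ _ _ _ isOpen_univ ?_
    intro z _
    rcases lt_trichotomy z.im 0 with hz | hz | hz
    · refine ⟨{z : ℂ | z.im < 0}, hlowo, hz, subset_univ _, ?_⟩
      refine hcongr _ _ _ _ _ _ _ hlowo.measurableSet (wd_zero _) ?_ ?_ ?_
      all_goals
        refine (ae_restrict_iff' hlowo.measurableSet).2 (Eventually.of_forall fun w hw => ?_)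
        have hw' : ¬ 0 < w.im := not_lt.2 (le_of_lt hw)
        simp only [if_neg hw']
    · have huz : u z = 0 := by
        have : z = ((z.re : ℝ) : ℂ) := by
          apply Complex.ext
          · simp
          · simpa using hz
        rw [this]
        exact hax _
      have hVo : IsOpen {w : ℂ | |u w| < 1 / ((n : ℝ) + 1)} :=
        isOpen_lt (continuous_abs.comp hu) continuous_const
      refine ⟨{w : ℂ | |u w| < 1 / ((n : ℝ) + 1)}, hVo, ?_, subset_univ _, ?_⟩
      · show |u z| < 1 / ((n : ℝ) + 1)
        rw [huz, abs_zero]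
        positivity
      · refine hcongr _ _ _ _ _ _ _ hVo.measurableSet (wd_zero _) ?_ ?_ ?_
        · refine (ae_restrict_iff' hVo.measurableSet).2 (Eventually.of_forall fun w hw => ?_)
          simp [(small hw).1]
        · refine (ae_restrict_iff' hVo.measurableSet).2 (Eventually.of_forall fun w hw => ?_)
          simp [(small hw).2]
        · refine (ae_restrict_iff' hVo.measurableSet).2 (Eventually.of_forall fun w hw => ?_)
          simp [(small hw).2]
    · refine ⟨{z : ℂ | 0 < z.im}, hupo, hz, subset_univ _, ?_⟩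
      refine hcongr _ _ _ _ _ _ _ hupo.measurableSet (hres _ _ _ _ _ (subset_univ _) hc') ?_ ?_ ?_
      all_goals
        refine (ae_restrict_iff' hupo.measurableSet).2 (Eventually.of_forall fun w hw => ?_)
        have hw' : 0 < w.im := hw
        simp only [if_pos hw']
  constructor
  · -- `L²`
    have h := l2_ind hG.u2
    intro K hK hKU
    refine (h K hK hKU).congr_norm ?_ ?_
    · have : (fun z => (((if 0 < z.im then u z else 0 : ℝ)) : ℂ)) =
          fun z => if 0 < z.im then ((u z : ℝ) : ℂ) else 0 := by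
        funext z
        split_ifs <;> simp
      rw [this]
      exact (h K hK hKU).1
    · refine Eventually.of_forall fun z => ?_
      by_cases hz : 0 < z.im <;> simp [hz]
  · exact l2_ind hG.G2
  · intro φ hφ
    set ψ : ℂ → ℂ := fun w => ((φ w : ℝ) : ℂ) with hψ
    have hψt : TF univ ψ := by
      refine ⟨Complex.ofRealCLM.contDiff.comp hφ.1, ?_, subset_univ _⟩
      refine hφ.2.1.mono ?_
      intro z hz
      rw [Function.mem_support] at hz ⊢
      intro h
      apply hz
      simp [hψ, h]
    have hgr : ∀ z, gr φ z = 2 * db ψ z := fun z =>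
      b4 φ z ((hφ.1.differentiable (by simp)) z)
    have hid : ∀ n : ℕ, ∫ z, (if 0 < z.im then ((Ts n (u z) : ℝ) : ℂ) else 0) * gr φ z =
        - ∫ z, (if 0 < z.im then ((Dn n (u z) : ℝ) : ℂ) * G z else 0) * ψ z := by
      intro n
      have h := (hn n).hB ψ hψt
      have e1 : ∫ z, (if 0 < z.im then ((Ts n (u z) : ℝ) : ℂ) else 0) * gr φ z =
          2 * ∫ z, (if 0 < z.im then ((Ts n (u z) : ℝ) : ℂ) else 0) * db ψ z := by
        rw [← integral_const_mul]
        refine integral_congr_ae (Eventually.of_forall fun z => ?_)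
        simp only [hgr]
        ring
      have e2 : ∫ z, (if 0 < z.im then ((Dn n (u z) : ℝ) : ℂ) * G z else 0) * ψ z =
          2 * ∫ z, (if 0 < z.im then ((Dn n (u z) : ℝ) : ℂ) * (G z / 2) else 0) * ψ z := by
        rw [← integral_const_mul]
        refine integral_congr_ae (Eventually.of_forall fun z => ?_)
        simp only
        split_ifs
        · ring
        · ring
      rw [e1, e2, h]
      ring
    have hgrc : Continuous (fun z => gr φ z) := by
      have : (fun z => gr φ z) = fun z => 2 * db ψ z := funext hgr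
      rw [this]
      exact continuous_const.mul (db_cont hψt)
    have hgrs : HasCompactSupport (fun z => gr φ z) := by
      have : (fun z => gr φ z) = fun z => 2 * db ψ z := funext hgr
      rw [this]
      exact (db_supp hψt).mul_left
    -- the limit of the left side
    have hL : Tendsto (fun n : ℕ => ∫ z, (if 0 < z.im then ((Ts n (u z) : ℝ) : ℂ) else 0) * gr φ z)
        atTop (𝓝 (∫ z, (((if 0 < z.im then u z else 0 : ℝ)) : ℂ) * gr φ z)) := by
      have hbi : Integrable (fun z => ‖((u z : ℝ) : ℂ) * gr φ z‖) volume := by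
        have hcc : Continuous (fun z => ((u z : ℝ) : ℂ) * gr φ z) :=
          (Complex.continuous_ofReal.comp hu).mul hgrc
        exact (hcc.integrable_of_hasCompactSupport hgrs.mul_left).norm
      refine tendsto_integral_of_dominated_convergence _ ?_ hbi ?_ ?_
      · intro n
        refine AEStronglyMeasurable.mul ?_ hgrc.aestronglyMeasurable
        have hc : Continuous (fun z => ((Ts n (u z) : ℝ) : ℂ)) := by
          have : Continuous (Hn n) := (Hn_contDiff n).continuous
          have h2 := this.comp (Complex.continuous_ofReal.comp hu)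
          refine h2.congr fun z => ?_
          simp only [Function.comp_apply, Hn, Complex.ofReal_re]
        exact (Measurable.ite hupo.measurableSet hc.measurable measurable_const).aestronglyMeasurable
      · intro n
        refine Eventually.of_forall fun z => ?_
        rw [norm_mul, norm_mul]
        refine mul_le_mul_of_nonneg_right ?_ (norm_nonneg _)
        split_ifs
        · rw [Complex.norm_real, Complex.norm_real]
          exact Ts_le n (u z)
        · rw [norm_zero]
          exact norm_nonneg _
      · refine Eventually.of_forall fun z => ?_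
        refine Tendsto.mul ?_ tendsto_const_nhds
        by_cases hz : 0 < z.im
        · simp only [if_pos hz]
          exact (Complex.continuous_ofReal.tendsto _).comp (Ts_tendsto (u z))
        · simp only [if_neg hz]
          simp
    -- the limit of the right side
    have hR : Tendsto (fun n : ℕ => ∫ z, (if 0 < z.im then ((Dn n (u z) : ℝ) : ℂ) * G z else 0) * ψ z)
        atTop (𝓝 (∫ z, (if 0 < z.im then G z else 0) * ψ z)) := by
      have hGi : Integrable (fun z => G z * ψ z) volume := int_mul hG.G2 hψt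
      have hGψ : Integrable (fun z => C * ‖G z * ψ z‖) volume := hGi.norm.const_mul C
      refine tendsto_integral_of_dominated_convergence _ ?_ hGψ ?_ ?_
      · intro n
        have hc : Continuous (fun z => ((Dn n (u z) : ℝ) : ℂ)) :=
          Complex.continuous_ofReal.comp ((Dn_cont n).comp hu)
        have e : (fun z => (if 0 < z.im then ((Dn n (u z) : ℝ) : ℂ) * G z else 0) * ψ z) =
            {z : ℂ | 0 < z.im}.indicator (fun z => ((Dn n (u z) : ℝ) : ℂ) * (G z * ψ z)) := by
          funext z
          by_cases hz : 0 < z.im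
          · rw [if_pos hz, Set.indicator_of_mem (by exact hz)]
            ring
          · rw [if_neg hz, Set.indicator_of_notMem (by exact hz), zero_mul]
        rw [e]
        exact (hc.aestronglyMeasurable.mul hGi.1).indicator hupo.measurableSet
      · intro n
        refine Eventually.of_forall fun z => ?_
        rw [norm_mul, norm_mul, ← mul_assoc]
        refine mul_le_mul_of_nonneg_right ?_ (norm_nonneg _)
        split_ifs
        · rw [norm_mul, Complex.norm_real, Real.norm_eq_abs]
          exact mul_le_mul_of_nonneg_right (hDn n _) (norm_nonneg _)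
        · rw [norm_zero]
          have : 0 ≤ C := by linarith
          positivity
      · filter_upwards [hcrit] with z hz
        refine Tendsto.mul ?_ tendsto_const_nhds
        by_cases hz1 : 0 < z.im
        · simp only [if_pos hz1]
          by_cases hu0 : u z = 0
          · rw [hz hu0]
            simp
          · have h := (Complex.continuous_ofReal.tendsto _).comp (Dn_tendsto hu0)
            have h2 := h.mul_const (G z)
            simpa using h2
        · simp only [if_neg hz1]
          exact tendsto_const_nhds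
    have hlim := hR.neg
    have heq : (fun n : ℕ => ∫ z, (if 0 < z.im then ((Ts n (u z) : ℝ) : ℂ) else 0) * gr φ z) =
        fun n : ℕ => - ∫ z, (if 0 < z.im then ((Dn n (u z) : ℝ) : ℂ) * G z else 0) * ψ z :=
      funext hid
    rw [heq] at hL
    exact tendsto_nhds_unique hL hlim

end

end Cal
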