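import Pool.Agent.Lib.MP_4ea4c7_an.StmD

/-! [H2] Elementary facts on `Z0`. -/

open MeasureTheory Complex Metric Set Filter Topology
open scoped ComplexConjugate ENNReal NNReal

namespace Cal

private theorem zz_cont {Ω : Set ℂ} {φ : ℂ → ℝ} (h : RTF Ω φ) : Continuous (gr φ) := by
  have hc : Continuous (fderiv ℝ φ) := h.1.continuous_fderiv (by simp)
  have h1 : Continuous (fun z => fderiv ℝ φ z 1) := hc.clm_apply continuous_const
  have h2 : Continuous (fun z => fderiv ℝ φ z I) := hc.clm_apply continuous_const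
  unfold gr
  exact (Complex.continuous_ofReal.comp h1).add
    (continuous_const.mul (Complex.continuous_ofReal.comp h2))

private theorem zz_supp {Ω : Set ℂ} {φ : ℂ → ℝ} (h : RTF Ω φ) : HasCompactSupport (gr φ) := by
  have hc : HasCompactSupport (fderiv ℝ φ) := h.2.1.fderiv (𝕜 := ℝ)
  refine hc.mono ?_
  intro z hz
  rw [Function.mem_support] at hz ⊢
  intro h0
  apply hz
  unfold gr
  rw [h0]
  simp

private theorem zz_memLp {Ω : Set ℂ} {φ : ℂ → ℝ} (h : RTF Ω φ) (ν : Measure ℂ)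
    [IsFiniteMeasureOnCompacts ν] : MemLp (gr φ) 2 ν :=
  (zz_cont h).memLp_of_hasCompactSupport (zz_supp h)

private theorem zz_add {Ω : Set ℂ} {φ ψ : ℂ → ℝ} (h : RTF Ω φ) (h' : RTF Ω ψ) (t s : ℝ) :
    RTF Ω (fun z => t * φ z + s * ψ z) ∧
      ∀ z, gr (fun z => t * φ z + s * ψ z) z = t * gr φ z + s * gr ψ z := by
  constructor
  · refine ⟨(contDiff_const.mul h.1).add (contDiff_const.mul h'.1),
      (h.2.1.mul_left (f := fun _ => t)).add (h'.2.1.mul_left (f := fun _ => s)), ?_⟩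
    refine (tsupport_add _ _).trans (union_subset ?_ ?_)
    · exact (closure_mono (Function.support_mul_subset_right (fun _ : ℂ => t) φ)).trans h.2.2
    · exact (closure_mono (Function.support_mul_subset_right (fun _ : ℂ => s) ψ)).trans h'.2.2
  · intro z
    have d1 : DifferentiableAt ℝ φ z := (h.1.differentiable (by simp)) z
    have d2 : DifferentiableAt ℝ ψ z := (h'.1.differentiable (by simp)) z
    have e : fderiv ℝ (fun z => t * φ z + s * ψ z) z =
        t • fderiv ℝ φ z + s • fderiv ℝ ψ z := by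
      have := ((d1.hasFDerivAt.const_mul t).add (d2.hasFDerivAt.const_mul s)).fderiv
      exact this
    unfold gr
    rw [e]
    simp only [ContinuousLinearMap.add_apply, ContinuousLinearMap.smul_apply, smul_eq_mul]
    push_cast
    ring

private theorem zz_lin {Ω : Set ℂ} {G G' : ℂ → ℂ} (t s : ℝ) (hG : Z0 Ω G) (hG' : Z0 Ω G') :
    Z0 Ω (fun z => (t : ℂ) * G z + (s : ℂ) * G' z) := by
  refine ⟨(hG.1.const_mul (t : ℂ)).add (hG'.1.const_mul (s : ℂ)), ?_⟩
  intro ε hε
  obtain ⟨φ, hφ, h1⟩ := hG.2 (ε / (4 * (|t| + 1))) (by positivity)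
  obtain ⟨ψ, hψ, h2⟩ := hG'.2 (ε / (4 * (|s| + 1))) (by positivity)
  obtain ⟨h3, h4⟩ := zz_add hφ hψ t s
  refine ⟨_, h3, ?_⟩
  have m1 : AEStronglyMeasurable (fun z => G z - gr φ z) (volume.restrict Ω) :=
    hG.1.1.sub (zz_cont hφ).aestronglyMeasurable
  have m2 : AEStronglyMeasurable (fun z => G' z - gr ψ z) (volume.restrict Ω) :=
    hG'.1.1.sub (zz_cont hψ).aestronglyMeasurable
  have e : (fun z => (t : ℂ) * G z + (s : ℂ) * G' z - gr (fun z => t * φ z + s * ψ z) z)
      = ((t : ℂ) • (fun z => G z - gr φ z)) + ((s : ℂ) • (fun z => G' z - gr ψ z)) := by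
    funext z
    rw [h4]
    simp only [Pi.add_apply, Pi.smul_apply, smul_eq_mul]
    ring
  rw [e]
  refine (eLpNorm_add_le (m1.const_smul _) (m2.const_smul _) (by norm_num)).trans_lt ?_
  have e2 : ∀ (r : ℝ) (F : ℂ → ℂ),
      eLpNorm F 2 (volume.restrict Ω) < ENNReal.ofReal (ε / (4 * (|r| + 1))) →
      eLpNorm ((r : ℂ) • F) 2 (volume.restrict Ω) ≤ ENNReal.ofReal (ε / 4) := by
    intro r F hF
    rw [eLpNorm_const_smul]
    have : ‖(r : ℂ)‖ₑ = ENNReal.ofReal |r| := by
      rw [← ofReal_norm_eq_enorm, Complex.norm_real, Real.norm_eq_abs]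
    rw [this]
    calc ENNReal.ofReal |r| * eLpNorm F 2 (volume.restrict Ω)
        ≤ ENNReal.ofReal |r| * ENNReal.ofReal (ε / (4 * (|r| + 1))) := by gcongr
      _ = ENNReal.ofReal (|r| * (ε / (4 * (|r| + 1)))) :=
          (ENNReal.ofReal_mul (abs_nonneg r)).symm
      _ ≤ ENNReal.ofReal (ε / 4) := by
          apply ENNReal.ofReal_le_ofReal
          have hs : 0 ≤ |r| := abs_nonneg r
          rw [mul_div_assoc', div_le_div_iff₀ (by positivity) (by norm_num)]
          nlinarith [mul_nonneg hs hε.le]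
  calc eLpNorm ((t : ℂ) • (fun z => G z - gr φ z)) 2 (volume.restrict Ω) +
        eLpNorm ((s : ℂ) • (fun z => G' z - gr ψ z)) 2 (volume.restrict Ω)
      ≤ ENNReal.ofReal (ε / 4) + ENNReal.ofReal (ε / 4) := add_le_add (e2 t _ h1) (e2 s _ h2)
    _ = ENNReal.ofReal (ε / 2) := by
        rw [← ENNReal.ofReal_add (by positivity) (by positivity)]
        congr 1
        ring
    _ < ENNReal.ofReal ε := (ENNReal.ofReal_lt_ofReal_iff hε).2 (by linarith)

theorem piece_zz : S_zz := by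
  intro Ω _
  refine ⟨?_, ?_, ?_, ?_, ?_⟩
  · intro φ hφ
    refine ⟨zz_memLp hφ _, fun ε hε => ⟨φ, hφ, ?_⟩⟩
    simp only [sub_self]
    rw [show (fun _ : ℂ => (0 : ℂ)) = 0 from rfl, eLpNorm_zero]
    exact ENNReal.ofReal_pos.2 hε
  · intro G H hG hH
    have h := zz_lin 1 1 hG hH
    simpa using h
  · intro G c hG
    have h := zz_lin c 0 hG hG
    simpa using h
  · intro G hG happ
    refine ⟨hG, fun ε hε => ?_⟩
    obtain ⟨H, hH, h1⟩ := happ (ε / 2) (by positivity)
    obtain ⟨φ, hφ, h2⟩ := hH.2 (ε / 2) (by positivity)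
    refine ⟨φ, hφ, ?_⟩
    have e : (fun z => G z - gr φ z) = (fun z => G z - H z) + (fun z => H z - gr φ z) := by
      funext z
      simp only [Pi.add_apply]
      ring
    rw [e]
    refine (eLpNorm_add_le (hG.1.sub hH.1.1)
      (hH.1.1.sub (zz_cont hφ).aestronglyMeasurable) (by norm_num)).trans_lt ?_
    calc eLpNorm (fun z => G z - H z) 2 (volume.restrict Ω) +
          eLpNorm (fun z => H z - gr φ z) 2 (volume.restrict Ω)
        < ENNReal.ofReal (ε / 2) + ENNReal.ofReal (ε / 2) := ENNReal.add_lt_add h1 h2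
      _ = ENNReal.ofReal ε := by
          rw [← ENNReal.ofReal_add (by positivity) (by positivity)]
          congr 1
          ring
  · intro G H hG hGH
    refine ⟨hG.1.ae_eq hGH, fun ε hε => ?_⟩
    obtain ⟨φ, hφ, h1⟩ := hG.2 ε hε
    refine ⟨φ, hφ, ?_⟩
    refine lt_of_le_of_lt (le_of_eq (eLpNorm_congr_ae ?_)) h1
    filter_upwards [hGH] with z hz
    rw [hz]

end Cal
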