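import Pool.Agent.Lib.MP_4ea4c7_an.StmC
import Pool.Agent.Lib.MP_4ea4c7_an.Stm2
import Pool.Agent.Lib.MP_4ea4c7_an.Defs2

/-!
# Statements, part C2: interface results of parts B and C
-/

open MeasureTheory Complex Metric Set Filter Topology
open scoped ComplexConjugate ENNReal NNReal

namespace Cal

noncomputable section

/-- [HC9] Flux of `f_φ = iφ + k` in the half plane against odd functions. Proof: by `S_ksup` (with `I (conj (A + I φ_z) - (B + I φ_zb)) = I (conj A - B) + 2 φ_zb = I (conj A - B) + gr φ` and `conj (A + I φ_z) + (B + I φ_zb) = conj A + B`, `φ` real, `S_bridge` (4)) a.e. in `UH`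
`gam μ * (gr φ + I (conj A - B)) = I * (conj A + B)`, so the integrand is `cr (conj A + B) H`, where `conj A + B` is the weak gradient of the even function `Re k` (`S_bridge`), `H` of the odd function `Ψ`: `cr (conj A + B) H` is even a.e. (`S_gsym`), and `∫_UH = (1/2) ∫_ℂ = 0` (`S_half`, `S_wedge` with `a = Ψ`, `b = Re k`, `cr` antisymmetric). -/
def S_ksflux : Prop := ∀ κ : ℝ, 0 ≤ κ → κ < 1 → ∀ (μ φ : ℂ → ℝ) (k A B : ℂ → ℂ), Mu κ 1 μ → EvTF φ → KS μ φ k A B → ∀ (Ψ : ℂ → ℝ) (H : ℂ → ℂ), OC Ψ H →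
  Integrable (fun z => gam μ z * ip (gr φ z + I * (conj (A z) - B z)) (H z)) (volume.restrict UH) ∧
  ∫ z in UH, gam μ z * ip (gr φ z + I * (conj (A z) - B z)) (H z) = 0

/-- [EB9] Step A, final form. Proof: `TH` from `S_T`, then `S_Teq` and `S_A1`. -/
def S_FEq : Prop := ∀ κ : ℝ, 0 ≤ κ → κ < 1 → ∀ μ₁ μ₂ : ℂ → ℝ, Mu κ 1 μ₁ → Mu κ 1 μ₂ → HYP μ₁ μ₂ → FEq μ₁ μ₂

/-- [HC10] 5.1, final form (`S_kout`). -/
def S_PairOut : Prop := ∀ κ : ℝ, 0 ≤ κ → κ < 1 → ∀ μ₁ μ₂ : ℂ → ℝ, Mu κ 1 μ₁ → Mu κ 1 μ₂ → HYP μ₁ μ₂ → PairOut μ₁ μ₂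

theorem piece_FEq (h1 : S_T) (h2 : S_Teq) (h3 : S_A1) : S_FEq := by
  intro κ h0 h1' μ₁ μ₂ hμ₁ hμ₂ hH m n f d f' d' hf hf'
  have hT := h1 κ h0 h1' μ₁ μ₂ hμ₁ hμ₂ hH
  exact ⟨h2 κ h0 h1' μ₁ μ₂ hμ₁ hμ₂ hT m n f d f' d' hf hf', h3 κ h0 h1' μ₁ μ₂ hμ₁ hμ₂ hT m n f d f' d' hf hf'⟩

theorem piece_PairOut (h1 : S_kout) : S_PairOut := by
  intro κ h0 h1' μ₁ μ₂ hμ₁ hμ₂ hH φ k₁ A₁ B₁ k₂ A₂ B₂ hφ hk₁ hk₂
  exact h1 κ h0 h1' μ₁ μ₂ hμ₁ hμ₂ hH φ hφ k₁ A₁ B₁ k₂ A₂ B₂ hk₁ hk₂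

end

end Cal
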