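import Pool.Agent.Lib.MP_4ea4c7_an.StmF

/-!
# Statements, part G: conformal invariance of the local Cauchy data under maps which are conformal near the closure (e.g. inversions)

Every `S_xx : Prop` is one piece; the pieces it needs are hypotheses of the theorem to be proved (see the request). Complete informal proofs are in the docstrings.
-/

open MeasureTheory Complex Metric Set Filter Topology
open scoped ComplexConjugate ENNReal NNReal

namespace Cal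

open LocalCalderon

noncomputable section

/-- [R1] From the forms to the Cauchy data on `Γ` (only functions with traces in `Γ`). Proof: word for word the proof of `S_back` (`P_back.lean`): by symmetry `⊆`; `u` a `γ₁`-solution with `TraceIn Ω Γ u`, `u''` the `γ₂`-solution with `u'' - u ∈ H¹₀(Ω)` (`S_lift`), `TraceIn Ω Γ u''`, same trace set (`S_trc` (2), (4)); `DN Ω γ₁ (wgrad u) (wgrad u)`,
`DN Ω γ₂ (wgrad u) (wgrad u'')`; `Beq` for `u` and any `ψ ∈ H¹(Ω)` with `TraceIn Ω Γ ψ` says that the two functionals agree. -/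
def S_back2 : Prop := ∀ (c C : ℝ) (γ₁ γ₂ : ℂ → ℝ) (Ω Γ : Set ℂ), 0 < c → Cond c C γ₁ → Cond c C γ₂ → IsOpen Ω → Bornology.IsBounded Ω → OpenInBdry Ω Γ →
  (∀ u ψ : ℂ → ℝ, H1 Ω u → TraceIn Ω Γ u → H1 Ω ψ → TraceIn Ω Γ ψ → Beq Ω γ₁ γ₂ (wgrad Ω u) (wgrad Ω ψ)) → cauchyData Ω Γ γ₁ = cauchyData Ω Γ γ₂

/-- [R2] Transport by a map `M` which is injective and holomorphic on a neighbourhood `W` of `closure Ω`. Proofs. `CB W (M '' W) M` and `CB Ω (M '' Ω) M`; by `S_cinv` `M` is a homeomorphism of `W` onto an open set, `deriv M ≠ 0` on `W`, the inverse map `Θ : M '' W → W` is holomorphic.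
(1), (2): `M '' closure Ω` is compact, `M '' Ω` is open, and `M` is a homeomorphism of `W` onto `M '' W`; so `closure (M '' Ω) = M '' closure Ω` and `frontier (M '' Ω) = M '' frontier Ω`. (3) if `Γ = O ∩ frontier Ω` then `M '' Γ = M '' (O ∩ W) ∩ frontier (M '' Ω)` with `M '' (O ∩ W)` open.
(4) `‖M'‖` is bounded below and above by positive constants on the compact `closure Ω`, so `u ∈ L²(M '' Ω)` gives `u ∘ M ∈ L²(Ω)` (change of variables: `∫_Ω |u∘M|² ≤ C ∫_Ω |u∘M|² ‖M'‖² = C ∫_{M''Ω} |u|²`); weak gradient: `S_cwg` with `S_h1` (8), `pull M (wgrad (M '' Ω) u) ∈ L²(Ω)` (`S_cv`); then `S_h1` (2).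
(5) test functions `φ_n` of `M '' Ω` approximating `w` give test functions `φ_n ∘ M` of `Ω` (`S_ctf` (1)) approximating `w ∘ M` (gradients: `S_cv` (2); functions: as in (4)). (6) let `K₁ ⊆ M '' Γ` be the compact set for `u`; `K = Θ '' K₁ ⊆ Γ` is compact. Let `η` be a test function with `tsupport η ∩ K = ∅`, `χ` a test function with `χ = 1` on a neighbourhood of
`closure Ω` and `tsupport χ ⊆ W`. `η₁ = (χ η) ∘ Θ` on `M '' W`, `0` elsewhere, is a test function of the plane with support `M '' tsupport (χ η)` (`S_ctf` (2) for `M : W → M '' W`), which does not meet `K₁` (injectivity). So `η₁ u ∈ H¹₀(M '' Ω)`, and by (5) `(η₁ u) ∘ M = η (u ∘ M)` (on `Ω`) is in `H¹₀(Ω)` (`S_h10` (8)). -/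
def S_mtr : Prop := ∀ (Ω W : Set ℂ) (M : ℂ → ℂ), IsOpen Ω → Bornology.IsBounded Ω → IsOpen W → closure Ω ⊆ W → DifferentiableOn ℂ M W → InjOn M W →
  (IsOpen (M '' Ω) ∧ Bornology.IsBounded (M '' Ω) ∧ CB Ω (M '' Ω) M) ∧
  (frontier (M '' Ω) = M '' frontier Ω) ∧
  (∀ Γ : Set ℂ, OpenInBdry Ω Γ → OpenInBdry (M '' Ω) (M '' Γ)) ∧
  (∀ u : ℂ → ℝ, H1 (M '' Ω) u → H1 Ω (fun z => u (M z)) ∧ wgrad Ω (fun z => u (M z)) =ᵐ[volume.restrict Ω] pull M (wgrad (M '' Ω) u)) ∧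
  (∀ w : ℂ → ℝ, H10 (M '' Ω) w → H10 Ω (fun z => w (M z))) ∧
  (∀ (Γ : Set ℂ) (u : ℂ → ℝ), OpenInBdry Ω Γ → H1 (M '' Ω) u → TraceIn (M '' Ω) (M '' Γ) u → TraceIn Ω Γ (fun z => u (M z)))

/-- The general final statement: `Ω` is a bounded open set, `M` is injective and holomorphic near the closure of `Ω` (e.g. the identity or an inversion), and `M '' Ω = Ω' \ L` with a Jordan domain `Ω'` and a compact subset `L` of `Ω'`.
All boundary points of `Ω` which are mapped into `Ω'` (the boundary components of `Ω` other than the one which is mapped to the boundary of `Ω'`) are in `Γ`, and `Γ` contains at least one point which is mapped to the boundary of `Ω'`. -/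
def S_final2 : Prop := ∀ (Ω Γ W Ω' L : Set ℂ) (M : ℂ → ℂ) (γ₁ γ₂ g₁ g₂ : ℂ → ℝ),
  IsOpen Ω → Bornology.IsBounded Ω → IsOpen W → closure Ω ⊆ W → DifferentiableOn ℂ M W → InjOn M W →
  JordanDomain Ω' → IsCompact L → L ⊆ Ω' → M '' Ω = Ω' \ L →
  OpenInBdry Ω Γ → (∀ z ∈ frontier Ω, M z ∈ Ω' → z ∈ Γ) → (∃ z ∈ Γ, M z ∈ frontier Ω') →
  IsConductivity Ω γ₁ → IsConductivity Ω γ₂ → IsConductivity Ω' g₁ → IsConductivity Ω' g₂ →
  (∀ z ∈ Ω, g₁ (M z) = γ₁ z) → (∀ z ∈ Ω, g₂ (M z) = γ₂ z) → (∀ᵐ z ∂(volume.restrict L), g₁ z = g₂ z) →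
  cauchyData Ω Γ γ₁ = cauchyData Ω Γ γ₂ →
  ∀ Γ' : Set ℂ, OpenInBdry Ω' Γ' → cauchyData Ω' Γ' g₁ = cauchyData Ω' Γ' g₂

/- [R3] `S_final2`. Proof: `Ω₁ = M '' Ω = Ω' \ L`. By `S_norm` for `g₁, g₂` on `Ω'` there are constants `0 < c ≤ C` and `g_j'` with `Cond c C g_j'`, `g_j = g_j'` a.e. on `Ω'`; put `γ_j' z = g_j' (M z)` for `z ∈ Ω` and `γ_j' z = c` for `z ∉ Ω` (measurable: `M` is continuous on the open set `Ω`); `γ_j' = γ_j` a.e. on `Ω` (null sets are preserved, `S_cv` (5) or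
`S_cinv`), `Cond c C γ_j'`. So `cauchyData Ω Γ γ₁' = cauchyData Ω Γ γ₂'` (`S_norm` (2)). `S_form` on `Ω`: `Beq Ω γ₁' γ₂' (wgrad Ω u) (wgrad Ω ψ)` for `u, ψ` with traces in `Γ`. For `u, ψ ∈ H¹(Ω₁)` with `TraceIn Ω₁ (M '' Γ)`: `S_mtr` gives `u ∘ M, ψ ∘ M ∈ H¹(Ω)` with `TraceIn Ω Γ`, hence
`Beq Ω γ₁' γ₂' (pull M (wgrad Ω₁ u)) (pull M (wgrad Ω₁ ψ))` (`S_cbeq` (2)), and by `S_cbeq` (1) and (2) (`γ_j' = g_j' ∘ M` on `Ω`) `Beq Ω₁ g₁' g₂' (wgrad Ω₁ u) (wgrad Ω₁ ψ)`. `S_back2`: `cauchyData Ω₁ (M '' Γ) g₁' = cauchyData Ω₁ (M '' Γ) g₂'`, so the same for `g₁, g₂` (`S_norm` (2), `Ω₁ ⊆ Ω'`). Now `S_final` with `Ω', L, M '' Γ`: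
`frontier Ω₁ = M '' frontier Ω` (`S_mtr` (2)); a point of `frontier Ω₁ ∩ Ω'` is `M z`, `z ∈ frontier Ω`, so `z ∈ Γ`. -/

end

end Cal
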